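import Pool.Agent.Strip051.G.I9736_9750.DgP

/-! # The corner (1, 1, 2): certificates of the degenerate charts (generated) -/

set_option linter.all false

namespace Pool.Agent.Strip051.G.I9736_9750.Tab.DG

open Pool.Agent.Strip051.PB Pool.Agent.Strip051.PB.Dg Pool.Agent.StripNear Pool.Agent.Strip051.LC

theorem cFA2 : ∃ t, chk3 (onCell 0 41095619 0 1073741824 1045395039 1503240 (fdAx false pF (ndUL pF ndF2) (ndUR ndF3) (thLo (ndUL pF ndF2) (ndUR ndF3)))) t 1 1 1 = true :=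
  ⟨(T.b (T.b (T.b (T.b (T.b (T.l 0) (T.a (T.a (T.l 0) (T.l 0)) (T.l 0))) (T.l 3)) (T.l 3)) (T.l 3)) (T.l 3)), by decide +kernel⟩
theorem cFA3 : ∃ t, chk3 (onCell 0 41095619 0 1073741824 1045395039 1503240 (fdAx false pF (ndUR ndF3) (ndUR ndF4) (thLo (ndUR ndF3) (ndUR ndF4)))) t 1 1 1 = true :=
  ⟨(T.b (T.b (T.b (T.b (T.b (T.l 2) (T.l 0)) (T.a (T.l 0) (T.l 0))) (T.b (T.b (T.l 0) (T.a (T.l 0) (T.l 0))) (T.l 3))) (T.l 3)) (T.l 3)), by decide +kernel⟩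
theorem cFA4 : ∃ t, chk3 (onCell 0 41095619 0 1073741824 1045395039 1503240 (fdAx false pF (ndUR ndF4) (ndUR ndF5) (thLo (ndUR ndF4) (ndUR ndF5)))) t 1 1 1 = true :=
  ⟨(T.a (T.b (T.b (T.b (T.l 2) (T.b (T.a (T.l 0) (T.l 0)) (T.l 0))) (T.b (T.b (T.l 0) (T.l 0)) (T.b (T.l 0) (T.l 0)))) (T.b (T.b (T.b (T.l 0) (T.a (T.l 0) (T.l 0))) (T.b (T.b (T.l 0) (T.b (T.l 0) (T.l 0))) (T.b (T.b (T.a (T.l 0) (T.l 0)) (T.l 3)) (T.l 3)))) (T.l 3))) (T.b (T.b (T.b (T.l 2) (T.b (T.b (T.l 2) (T.l 0)) (T.l 0))) (T.b (T.b (T.l 0) (T.l 0)) (T.b (T.l 0) (T.l 0)))) (T.b (T.a (T.b (T.b (T.l 0) (T.l 0)) (T.a (T.b (T.b (T.l 0) (T.a (T.l 0) (T.l 0))) (T.b (T.b (T.l 0) (T.b (T.l 0) (T.l 3))) (T.l 3))) (T.b (T.b (T.l 0) (T.c (T.l 0) (T.a (T.l 0) (T.l 0)))) (T.b (T.a (T.b (T.l 0) (T.b (T.l 0) (T.l 3))) (T.b (T.a (T.l 0) (T.b (T.l 0)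 (T.l 0))) (T.b (T.c (T.a (T.l 0) (T.l 0)) (T.l 0)) (T.l 3)))) (T.l 3))))) (T.b (T.b (T.a (T.l 0) (T.a (T.l 0) (T.l 0))) (T.a (T.b (T.l 0) (T.a (T.l 0) (T.l 0))) (T.b (T.l 0) (T.a (T.l 0) (T.l 0))))) (T.a (T.b (T.b (T.a (T.l 0) (T.l 0)) (T.a (T.b (T.l 0) (T.l 0)) (T.c (T.l 0) (T.l 0)))) (T.b (T.a (T.b (T.c (T.l 0) (T.l 0)) (T.b (T.c (T.a (T.l 0) (T.l 0)) (T.l 0)) (T.l 3))) (T.c (T.b (T.a (T.l 0) (T.l 0)) (T.b (T.a (T.l 0) (T.l 0)) (T.l 3))) (T.b (T.l 0) (T.b (T.a (T.l 0) (T.l 0)) (T.l 3))))) (T.l 3))) (T.b (T.b (T.c (T.l 0) (T.a (T.l 0) (T.l 0))) (T.c (T.a (T.l 0) (T.l 0)) (T.a (T.a (T.l 0) (T.l 0)) (T.a (T.l 0) (T.l 0))))) (T.b (T.c (T.a (T.b (T.a (T.l 0) (T.l 0)) (T.b (T.a (T.l 0) (T.l 0)) (T.l 3))) (T.b (T.l 0) (T.b (T.a (T.l 0) (T.l 0)) (T.l 3)))) (T.a (T.b (T.a (T.l 0) (T.l 0)) (T.b (T.a (T.l 0)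 (T.l 0)) (T.l 3))) (T.b (T.l 0) (T.b (T.a (T.l 0) (T.l 0)) (T.l 3))))) (T.l 3)))))) (T.l 3)))), by decide +kernel⟩
theorem cFA5 : ∃ t, chk3 (onCell 0 41095619 0 1073741824 1045395039 1503240 (fdAx true pF (ndUR ndF5) (dgSC pF) (thUp (ndUR ndF5) (dgSC pF)))) t 1 1 1 = true :=
  ⟨(T.a (T.b (T.l 2) (T.b (T.b (T.l 2) (T.b (T.l 2) (T.a (T.l 64) (T.l 64)))) (T.a (T.l 349520) (T.l 349520)))) (T.a (T.b (T.l 2) (T.a (T.a (T.b (T.b (T.l 2) (T.b (T.l 2) (T.a (T.l 96) (T.l 16480)))) (T.a (T.l 349520) (T.l 357744))) (T.b (T.b (T.l 2) (T.b (T.l 2) (T.a (T.a (T.l 96) (T.l 16480)) (T.a (T.l 16480) (T.l 16480))))) (T.a (T.a (T.l 357744) (T.l 357744)) (T.c (T.a (T.l 357744) (T.l 357744)) (T.l 357744))))) (T.a (T.b (T.b (T.l 2) (T.b (T.l 2) (T.a (T.a (T.l 16480) (T.l 16480)) (T.a (T.l 16480) (T.l 16480))))) (T.a (T.b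 (T.a (T.l 279648) (T.l 279648)) (T.l 357712)) (T.b (T.a (T.l 279648) (T.l 287840)) (T.l 357712)))) (T.b (T.b (T.l 2) (T.b (T.l 2) (T.a (T.c (T.a (T.l 96) (T.l 96)) (T.l 16480)) (T.c (T.a (T.l 96) (T.l 96)) (T.l 16480))))) (T.a (T.b (T.a (T.l 287840) (T.l 279616)) (T.l 357712)) (T.a (T.l 357744) (T.l 357744))))))) (T.a (T.b (T.l 2) (T.a (T.b (T.b (T.l 2) (T.b (T.l 2) (T.a (T.a (T.l 16480) (T.l 16480)) (T.a (T.l 16480) (T.l 16480))))) (T.a (T.a (T.l 357744) (T.l 357744)) (T.a (T.l 357744) (T.l 357744)))) (T.b (T.b (T.l 2) (T.b (T.l 2) (T.a (T.a (T.l 16480) (T.l 16480)) (T.a (T.l 16480) (T.l 16480))))) (T.a (T.a (T.l 357744) (T.l 357744)) (T.a (T.l 357744) (T.l 357744)))))) (T.b (T.l 2) (T.a (T.b (T.b (T.l 2) (T.b (T.l 2) (T.a (T.a (T.l 16480) (T.l 16480)) (T.a (T.l 16480) (T.l 16480))))) (T.a (T.a (T.a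 (T.l 357712) (T.l 357744)) (T.c (T.l 357744) (T.a (T.l 357744) (T.l 357744)))) (T.b (T.a (T.l 287840) (T.l 287840)) (T.a (T.b (T.l 287808) (T.c (T.l 357712) (T.a (T.l 357712) (T.l 357712)))) (T.b (T.l 287808) (T.b (T.a (T.l 287808) (T.l 287808)) (T.l 357712))))))) (T.b (T.b (T.l 2) (T.b (T.l 2) (T.a (T.a (T.l 16480) (T.l 16480)) (T.a (T.a (T.l 16480) (T.l 16480)) (T.a (T.l 16480) (T.l 16480)))))) (T.a (T.b (T.a (T.l 287840) (T.l 287840)) (T.a (T.b (T.l 287808) (T.b (T.a (T.l 287808) (T.l 279616)) (T.l 357712))) (T.b (T.a (T.l 287808) (T.l 287808)) (T.l 357712)))) (T.b (T.a (T.l 287840) (T.l 287840)) (T.b (T.a (T.c (T.l 287808) (T.a (T.l 287808) (T.l 287808))) (T.b (T.a (T.l 287808) (T.l 287808)) (T.l 287808))) (T.l 357712)))))))))), by decide +kernel⟩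
theorem cFB3 : ∃ t, chk3 (onCell 0 41095619 0 2684354560 1045395039 1503240 (fdB true false pF (ndUR ndF3))) t 1 1 1 = true :=
  ⟨(T.b (T.b (T.b (T.b (T.b (T.a (T.l 0) (T.l 0)) (T.l 4)) (T.l 4)) (T.l 4)) (T.l 4)) (T.l 4)), by decide +kernel⟩
theorem cFB4 : ∃ t, chk3 (onCell 0 41095619 0 2684354560 1045395039 1503240 (fdB true false pF (ndUR ndF4))) t 1 1 1 = true :=
  ⟨(T.b (T.b (T.b (T.b (T.b (T.l 2) (T.a (T.l 0) (T.l 2))) (T.b (T.b (T.l 0) (T.l 4)) (T.l 4))) (T.l 4)) (T.l 4)) (T.l 4)), by decide +kernel⟩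
theorem cFB5 : ∃ t, chk3 (onCell 0 41095619 0 2684354560 1045395039 1503240 (fdB true false pF (ndUR ndF5))) t 1 1 1 = true :=
  ⟨(T.b (T.b (T.l 2) (T.b (T.a (T.b (T.b (T.b (T.l 2) (T.b (T.l 2) (T.c (T.l 0) (T.l 0)))) (T.b (T.b (T.a (T.l 32) (T.b (T.a (T.l 32) (T.l 32)) (T.l 32))) (T.l 32)) (T.l 544))) (T.l 8872)) (T.b (T.b (T.a (T.a (T.b (T.l 2) (T.b (T.l 2) (T.b (T.l 2) (T.l 0)))) (T.l 2)) (T.l 2)) (T.b (T.b (T.a (T.b (T.a (T.b (T.l 0) (T.l 32)) (T.b (T.a (T.l 0) (T.c (T.a (T.l 0) (T.l 0)) (T.l 0))) (T.l 32))) (T.l 139808)) (T.b (T.a (T.b (T.a (T.c (T.l 0) (T.l 0)) (T.c (T.a (T.l 0) (T.l 0)) (T.l 0))) (T.l 32)) (T.b (T.a (T.c (T.a (T.l 0) (T.l 0)) (T.l 0)) (T.c (T.l 0) (T.l 0))) (T.l 8224))) (T.l 8736))) (T.l 141992)) (T.l 174760))) (T.b (T.l 174760) (T.l 4)))) (T.l 4))) (T.l 4)), by decide +kernel⟩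
theorem cFB6 : ∃ t, chk3 (onCell 0 41095619 0 2684354560 1045395039 1503240 (fdB true true pF (dgSC pF))) t 1 1 1 = true :=
  ⟨(T.b (T.b (T.l 2) (T.b (T.l 2) (T.a (T.a (T.l 349520) (T.l 349520)) (T.a (T.l 349520) (T.l 349520))))) (T.l 4)), by decide +kernel⟩
theorem cFP3 : ∃ t, chk3 (onCell 0 41095619 0 1073741824 1045395039 1503240 (fdP true false pF (ndUR ndF3))) t 1 1 1 = true :=
  ⟨(T.b (T.b (T.b (T.b (T.l 0) (T.l 2)) (T.l 2)) (T.l 2)) (T.l 2)), by decide +kernel⟩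
theorem cFP4 : ∃ t, chk3 (onCell 0 41095619 0 1073741824 1045395039 1503240 (fdP true false pF (ndUR ndF4))) t 1 1 1 = true :=
  ⟨(T.b (T.b (T.b (T.l 32) (T.b (T.a (T.l 0) (T.l 0)) (T.l 2))) (T.l 2)) (T.l 2)), by decide +kernel⟩
theorem cFP5 : ∃ t, chk3 (onCell 0 41095619 0 1073741824 1045395039 1503240 (fdP true false pF (ndUR ndF5))) t 1 1 1 = true :=
  ⟨(T.a (T.b (T.l 139808) (T.b (T.b (T.l 139296) (T.b (T.l 8224) (T.b (T.b (T.a (T.l 0) (T.l 0)) (T.l 2)) (T.l 2)))) (T.l 2))) (T.b (T.l 139808) (T.b (T.b (T.l 174760) (T.b (T.l 141864) (T.b (T.b (T.b (T.l 139808) (T.a (T.a (T.l 0) (T.l 32)) (T.l 8736))) (T.b (T.a (T.b (T.a (T.l 0) (T.a (T.l 0) (T.a (T.l 0) (T.l 0)))) (T.l 2)) (T.b (T.a (T.b (T.a (T.a (T.l 0) (T.l 0)) (T.a (T.l 0) (T.l 0))) (T.l 2)) (T.b (T.a (T.a (T.l 0) (T.l 0)) (T.l 32)) (T.a (T.a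 (T.l 0) (T.l 0)) (T.a (T.l 0) (T.l 0))))) (T.l 2))) (T.l 2))) (T.l 2)))) (T.l 2)))), by decide +kernel⟩
theorem cFP6 : ∃ t, chk3 (onCell 0 41095619 0 1073741824 1045395039 1503240 (fdP true true pF (dgSC pF))) t 1 1 1 = true :=
  ⟨(T.a (T.l 349520) (T.l 349520)), by decide +kernel⟩
theorem cFC1 : ∃ t, chk3 (onCell 0 41095619 0 1073741824 1045395039 1503240 (fdU pF ndF2 (thLo (ndUL pF ndF2) (ndUR ndF3)) cvF1 (ndUR ndF3))) t 1 1 1 = true :=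
  ⟨(T.b (T.b (T.b (T.a (T.l 0) (T.l 0)) (T.l 1)) (T.l 1)) (T.l 1)), by decide +kernel⟩
theorem cFC2 : ∃ t, chk3 (onCell 0 41095619 0 1073741824 1045395039 1503240 (fdU pF ndF2 (thLo (ndUL pF ndF2) (ndUR ndF3)) cvF2 (ndUR ndF3))) t 1 1 1 = true :=
  ⟨(T.b (T.b (T.b (T.a (T.l 0) (T.l 0)) (T.l 1)) (T.l 1)) (T.l 1)), by decide +kernel⟩
theorem cNA2 : ∃ t, chk3 (onCell 0 41095619 0 1073741824 1045395039 1503240 (fdAW pN qN (ndUL pN ndN2) (ndUR ndN3) (thLo (ndUL pN ndN2) (ndUR ndN3)) (tuLo (ndUL pN ndN2) (ndUR ndN3) (suL qN ndN2) (suR ndN3)))) t 1 1 1 = true :=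
  ⟨(T.b (T.b (T.b (T.b (T.a (T.b (T.a (T.b (T.l 0) (T.l 8192)) (T.b (T.l 0) (T.l 0))) (T.a (T.l 8224) (T.l 8224))) (T.b (T.b (T.a (T.l 0) (T.l 0)) (T.l 0)) (T.a (T.a (T.l 32) (T.l 32)) (T.l 32)))) (T.l 3)) (T.l 3)) (T.l 3)) (T.l 3)), by decide +kernel⟩
theorem cNA3 : ∃ t, chk3 (onCell 0 41095619 0 1073741824 1045395039 1503240 (fdAW pN qN (ndUR ndN3) (ndUR ndN4) (thLo (ndUR ndN3) (ndUR ndN4)) (tuLo (ndUR ndN3) (ndUR ndN4) (suR ndN3) (suR ndN4)))) t 1 1 1 = true :=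
  ⟨(T.b (T.b (T.b (T.b (T.b (T.l 2) (T.a (T.a (T.l 8224) (T.l 8224)) (T.a (T.a (T.l 8192) (T.l 0)) (T.l 0)))) (T.b (T.a (T.l 0) (T.l 0)) (T.l 0))) (T.b (T.a (T.l 0) (T.l 32)) (T.l 3))) (T.l 3)) (T.l 3)), by decide +kernel⟩
theorem cNA4 : ∃ t, chk3 (onCell 0 41095619 0 1073741824 1045395039 1503240 (fdAW pN qN (ndUR ndN4) (ndUR ndN5) (thLo (ndUR ndN4) (ndUR ndN5)) (tuLo (ndUR ndN4) (ndUR ndN5) (suR ndN4) (suR ndN5)))) t 1 1 1 = true :=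
  ⟨(T.a (T.a (T.b (T.b (T.b (T.l 2) (T.l 32)) (T.a (T.l 139808) (T.l 139808))) (T.b (T.l 139808) (T.l 3))) (T.a (T.b (T.b (T.b (T.l 2) (T.l 32)) (T.l 139808)) (T.b (T.l 139808) (T.l 3))) (T.b (T.b (T.b (T.l 2) (T.l 32)) (T.a (T.l 139808) (T.l 139808))) (T.b (T.l 139808) (T.l 3))))) (T.a (T.b (T.b (T.b (T.l 2) (T.l 32)) (T.b (T.l 32) (T.l 0))) (T.b (T.a (T.a (T.l 139808) (T.l 139808)) (T.b (T.l 8736) (T.l 139808))) (T.l 3))) (T.b (T.b (T.b (T.l 2) (T.a (T.l 32) (T.l 32))) (T.b (T.l 32) (T.a (T.l 8224) (T.l 32)))) (T.b (T.a (T.b (T.l 139808) (T.l 139808)) (T.b (T.l 8224) (T.l 139808))) (T.l 3))))), by decide +kernel⟩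
theorem cNA5 : ∃ t, chk3 (onCell 0 41095619 0 1073741824 1045395039 1503240 (fdAW pN qN (ndUR ndN5) (dgSC pN) (thUp (ndUR ndN5) (dgSC pN)) (tuUp (ndUR ndN5) (dgSC pN) (suR ndN5) (suC qN)))) t 1 1 1 = true :=
  ⟨(T.b (T.l 2) (T.a (T.a (T.b (T.l 139808) (T.l 8736)) (T.b (T.l 139808) (T.a (T.l 8224) (T.a (T.l 174760) (T.l 174760))))) (T.a (T.a (T.b (T.a (T.l 139808) (T.l 139808)) (T.a (T.l 174760) (T.l 174760))) (T.b (T.b (T.l 2) (T.a (T.l 8736) (T.l 8736))) (T.b (T.a (T.l 8224) (T.l 139808)) (T.l 174760)))) (T.a (T.b (T.b (T.l 2) (T.a (T.l 8736) (T.l 139808))) (T.a (T.a (T.l 174760) (T.l 174760)) (T.b (T.l 139808) (T.l 174760)))) (T.b (T.b (T.l 2) (T.a (T.l 139808) (T.l 139808))) (T.b (T.a (T.l 139808) (T.l 139808)) (T.a (T.a (T.l 174760) (T.l 174760)) (T.a (T.l 174760) (T.l 174760))))))))), by decide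 +kernel⟩
theorem cNB3 : ∃ t, chk3 (onCell 0 41095619 0 2684354560 1045395039 1503240 (fdBW pN qN (ndUR ndN3) (suR ndN3))) t 1 1 1 = true :=
  ⟨(T.b (T.b (T.b (T.b (T.b (T.b (T.a (T.b (T.l 2) (T.a (T.b (T.l 2) (T.b (T.l 2) (T.c (T.a (T.a (T.b (T.b (T.l 2) (T.a (T.b (T.b (T.a (T.b (T.a (T.b (T.l 2) (T.a (T.l 8192) (T.l 2))) (T.l 2)) (T.a (T.l 8192) (T.a (T.l 8192) (T.l 2)))) (T.l 2)) (T.a (T.l 8192) (T.b (T.a (T.a (T.l 8192) (T.l 2)) (T.l 2)) (T.a (T.l 8192) (T.b (T.a (T.l 8192) (T.l 2)) (T.l 8192)))))) (T.l 8192)) (T.b (T.l 2) (T.a (T.b (T.b (T.a (T.b (T.a (T.l 8192) (T.l 2)) (T.l 8192)) (T.l 2)) (T.a (T.l 8192) (T.b (T.a (T.l 8192) (T.l 2)) (T.l 8192)))) (T.l 8192)) (T.b (T.l 2) (T.c (T.c (T.l 0) (T.c (T.l 0) (T.a (T.l 0) (T.l 0)))) (T.a (T.b (T.a (T.l 8192) (T.a (T.l 8192) (T.l 2))) (T.l 8192)) (T.b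 (T.l 2) (T.c (T.l 0) (T.a (T.l 8192) (T.a (T.l 8192) (T.l 0)))))))))))) (T.l 8192)) (T.c (T.l 0) (T.b (T.l 2) (T.c (T.l 0) (T.l 0))))) (T.l 0)) (T.a (T.a (T.b (T.b (T.l 2) (T.a (T.b (T.b (T.a (T.b (T.a (T.b (T.l 2) (T.a (T.l 8192) (T.l 2))) (T.l 2)) (T.a (T.l 8192) (T.b (T.l 2) (T.a (T.l 8192) (T.l 2))))) (T.l 2)) (T.a (T.l 8192) (T.b (T.a (T.b (T.l 2) (T.a (T.l 8192) (T.l 2))) (T.l 2)) (T.a (T.l 8192) (T.b (T.a (T.a (T.l 8192) (T.l 2)) (T.l 2)) (T.c (T.l 8192) (T.c (T.l 8192) (T.c (T.l 8192) (T.a (T.l 8192) (T.a (T.l 8192) (T.l 2))))))))))) (T.l 8192)) (T.b (T.l 2) (T.a (T.b (T.b (T.a (T.a (T.l 8192) (T.b (T.l 2) (T.l 8192))) (T.l 2)) (T.a (T.l 8192) (T.b (T.a (T.l 8192) (T.l 2)) (T.l 8192)))) (T.l 8192)) (T.b (T.l 2) (T.b (T.a (T.b (T.a (T.l 8192) (T.l 2)) (T.l 8192)) (T.l 2)) (T.a (T.l 8192) (T.a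 (T.l 8192) (T.b (T.l 2) (T.l 8192)))))))))) (T.l 8192)) (T.b (T.l 2) (T.b (T.c (T.a (T.a (T.b (T.b (T.a (T.b (T.a (T.l 8192) (T.b (T.l 2) (T.l 8192))) (T.l 8192)) (T.b (T.l 2) (T.c (T.l 0) (T.a (T.l 8192) (T.l 0))))) (T.l 8192)) (T.l 8192)) (T.l 0)) (T.l 0)) (T.a (T.b (T.a (T.b (T.a (T.b (T.a (T.l 8192) (T.b (T.l 2) (T.l 8192))) (T.l 8192)) (T.b (T.l 2) (T.a (T.l 8192) (T.b (T.l 2) (T.l 8192))))) (T.l 8192)) (T.b (T.l 2) (T.a (T.b (T.a (T.l 8192) (T.b (T.l 2) (T.l 8192))) (T.l 8192)) (T.b (T.l 2) (T.a (T.l 8192) (T.a (T.l 8192) (T.l 0))))))) (T.l 8192)) (T.l 0))) (T.l 8192)))) (T.l 0))))) (T.l 2))) (T.l 2)) (T.a (T.b (T.a (T.a (T.l 8192) (T.a (T.l 8192) (T.b (T.l 0) (T.l 4)))) (T.l 0)) (T.l 4)) (T.l 0))) (T.l 4)) (T.l 4)) (T.l 4)) (T.l 4)) (T.l 4)), by decide +kernel⟩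
theorem cNB4 : ∃ t, chk3 (onCell 0 41095619 0 2684354560 1045395039 1503240 (fdBW pN qN (ndUR ndN4) (suR ndN4))) t 1 1 1 = true :=
  ⟨(T.b (T.b (T.b (T.b (T.b (T.l 2) (T.a (T.l 0) (T.l 2))) (T.b (T.a (T.l 0) (T.l 0)) (T.l 4))) (T.l 4)) (T.l 4)) (T.l 4)), by decide +kernel⟩
theorem cNB5 : ∃ t, chk3 (onCell 0 41095619 0 2684354560 1045395039 1503240 (fdBW pN qN (ndUR ndN5) (suR ndN5))) t 1 1 1 = true :=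
  ⟨(T.b (T.b (T.l 2) (T.b (T.a (T.a (T.b (T.l 0) (T.l 0)) (T.b (T.l 0) (T.l 174760))) (T.b (T.b (T.a (T.a (T.a (T.l 0) (T.l 2)) (T.l 2)) (T.l 2)) (T.a (T.a (T.l 8224) (T.l 0)) (T.b (T.a (T.l 0) (T.l 0)) (T.l 139808)))) (T.a (T.l 174760) (T.a (T.l 139816) (T.l 174760))))) (T.l 4))) (T.l 4)), by decide +kernel⟩
theorem cNB6 : ∃ t, chk3 (onCell 0 41095619 0 2684354560 1045395039 1503240 (fdBW pN qN (dgSC pN) (suC qN))) t 1 1 1 = true :=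
  ⟨(T.b (T.b (T.l 2) (T.b (T.l 2) (T.a (T.a (T.b (T.l 0) (T.l 34952)) (T.b (T.a (T.l 0) (T.b (T.a (T.l 0) (T.l 0)) (T.l 174760))) (T.l 174760))) (T.b (T.b (T.b (T.l 2) (T.b (T.l 2) (T.a (T.a (T.a (T.l 0) (T.l 0)) (T.a (T.l 0) (T.l 0))) (T.a (T.a (T.l 0) (T.a (T.l 0) (T.l 0))) (T.b (T.a (T.a (T.l 0) (T.l 0)) (T.a (T.l 0) (T.l 34952))) (T.l 174760)))))) (T.a (T.a (T.l 174760) (T.l 174760)) (T.a (T.l 174760) (T.l 174760)))) (T.b (T.a (T.l 174760) (T.l 174760)) (T.l 4)))))) (T.l 4)), by decide +kernel⟩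

end Pool.Agent.Strip051.G.I9736_9750.Tab.DG
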