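import Pool.Agent.Strip051.PB.Cuts
import Pool.Agent.Strip051.PB.WinG

/-! # Tables I9736_9750 (generated) -/

namespace Pool.Agent.Strip051.G.I9736_9750.Tab

open Pool.Agent.Strip051.PB

noncomputable def c1g : Fn1 := ⟨_, _, fun h1 => (enc_sqrtg (enc_sub (enc_pnc _ 1) (enc_scaleT 3 4 (enc_sq h1))))⟩
noncomputable def kcg_3 : Fn2 := ⟨_, _, fun h1 h2 => (enc_subr 9743 10000 h2)⟩
noncomputable def kcg_6 : Fn2 := ⟨_, _, fun h1 h2 => (enc_add h1 (enc_rat _ 1021 2246))⟩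
noncomputable def kcg_9 : Fn2 := ⟨_, _, fun h1 h2 => (enc_add h1 (enc_rat _ 483 1000))⟩
noncomputable def kcg_12 : Fn2 := ⟨_, _, fun h1 h2 => (enc_add h1 (enc_rat _ 49 100))⟩
noncomputable def kcg_13 : Fn2 := ⟨_, _, fun h1 h2 => (enc_scaleT 229992423 10000000 h1)⟩
noncomputable def kcg_18 : Fn2 := ⟨_, _, fun h1 h2 => (enc_scaleT 70258693 500000 h1)⟩
noncomputable def kcg_30 : Fn2 := ⟨_, _, fun h1 h2 => (enc_sub (enc_rat _ 79 1250) (enc_scaleT 4473 500 (kcg_3.enc h1 h2)))⟩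
noncomputable def kcg_33 : Fn2 := ⟨_, _, fun h1 h2 => (enc_add h1 (enc_rat _ 1 2))⟩
noncomputable def kcg_34 : Fn2 := ⟨_, _, fun h1 h2 => (enc_sub (enc_neg (enc_rat _ 49 100)) h1)⟩
noncomputable def kcg_39 : Fn2 := ⟨_, _, fun h1 h2 => (enc_scaleT 16099899 700000 h1)⟩
noncomputable def kcg_44 : Fn2 := ⟨_, _, fun h1 h2 => (enc_scaleT 876123 6250 h1)⟩
noncomputable def kcg_57 : Fn2 := ⟨_, _, fun h1 h2 => (enc_subr 27 10000 (enc_neg (enc_scaleT 4433 125 (kcg_3.enc h1 h2))))⟩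
noncomputable def kcg_58 : Fn2 := ⟨_, _, fun h1 h2 => (enc_sub (enc_neg (enc_rat _ 483 1000)) h1)⟩
noncomputable def kcg_66 : Fn2 := ⟨_, _, fun h1 h2 => (enc_add h1 (enc_rat _ 661 1387))⟩
noncomputable def kcg_67 : Fn2 := ⟨_, _, fun h1 h2 => (enc_scaleT 69386579351 8921000000 h1)⟩
noncomputable def kcg_72 : Fn2 := ⟨_, _, fun h1 h2 => (enc_scaleT 23781336947 178420000 h1)⟩
noncomputable def kcg_85 : Fn2 := ⟨_, _, fun h1 h2 => (enc_subr 23666447 10000 (enc_neg (enc_scaleT 516407 500 (kcg_3.enc h1 h2))))⟩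
noncomputable def kcg_86 : Fn2 := ⟨_, _, fun h1 h2 => (enc_sub (enc_neg (enc_rat _ 661 1387)) h1)⟩
noncomputable def kcg_91 : Fn2 := ⟨_, _, fun h1 h2 => (enc_scaleT 254897149841669 34239500000000 h1)⟩
noncomputable def kcg_94 : Fn2 := ⟨_, _, fun h1 h2 => (enc_scaleT 43903431176171 427993750000 h1)⟩
noncomputable def kcg_107 : Fn2 := ⟨_, _, fun h1 h2 => (enc_subr 11 500 (enc_neg (enc_scaleT 547397 500 (kcg_3.enc h1 h2))))⟩
noncomputable def kcg_108 : Fn2 := ⟨_, _, fun h1 h2 => (enc_sub (enc_neg (enc_rat _ 1021 2246)) h1)⟩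
noncomputable def kcg_117 : Fn2 := ⟨_, _, fun h1 h2 => (enc_add h1 (enc_rat _ 41 100))⟩
noncomputable def kcg_120 : Fn2 := ⟨_, _, fun h1 h2 => (enc_add h1 (enc_rat _ 43 100))⟩
noncomputable def kcg_121 : Fn2 := ⟨_, _, fun h1 h2 => (enc_scaleT 166344014517 27610000000 h1)⟩
noncomputable def kcg_124 : Fn2 := ⟨_, _, fun h1 h2 => (enc_scaleT 13025590529 251000000 h1)⟩
noncomputable def kcg_136 : Fn2 := ⟨_, _, fun h1 h2 => (enc_sub (enc_rat _ 115533 2000) (enc_scaleT 541343 500 (kcg_3.enc h1 h2)))⟩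
noncomputable def kcg_137 : Fn2 := ⟨_, _, fun h1 h2 => (enc_sub (enc_neg (enc_rat _ 43 100)) h1)⟩
noncomputable def kcg_142 : Fn2 := ⟨_, _, fun h1 h2 => (enc_scaleT 862321 250000 h1)⟩
noncomputable def kcg_145 : Fn2 := ⟨_, _, fun h1 h2 => (enc_scaleT 1075159 100000 h1)⟩
noncomputable def kcg_157 : Fn2 := ⟨_, _, fun h1 h2 => (enc_sub (enc_rat _ 577623 10000) (enc_scaleT 726217 1000 (kcg_3.enc h1 h2)))⟩
noncomputable def kcg_158 : Fn2 := ⟨_, _, fun h1 h2 => (enc_sub (enc_neg (enc_rat _ 41 100)) h1)⟩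
noncomputable def kcg_166 : Fn2 := ⟨_, _, fun h1 h2 => (enc_add h1 (enc_rat _ 3 10))⟩
noncomputable def kcg_167 : Fn2 := ⟨_, _, fun h1 h2 => (enc_scaleT 4584697 2000000 h1)⟩
noncomputable def kcg_170 : Fn2 := ⟨_, _, fun h1 h2 => (enc_scaleT 390333 100000 h1)⟩
noncomputable def kcg_180 : Fn2 := ⟨_, _, fun h1 h2 => (enc_sub (enc_rat _ 77 5000) (enc_scaleT 1187 1000 (kcg_3.enc h1 h2)))⟩
noncomputable def kcg_181 : Fn2 := ⟨_, _, fun h1 h2 => (enc_sub (enc_neg (enc_rat _ 3 10)) h1)⟩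
noncomputable def kcg_189 : Fn2 := ⟨_, _, fun h1 h2 => (enc_scaleT 228861 100000 h1)⟩
noncomputable def kcg_192 : Fn2 := ⟨_, _, fun h1 h2 => (enc_scaleT 36647 10000 h1)⟩
noncomputable def kcg_200 : Fn2 := ⟨_, _, fun h1 h2 => (enc_add (enc_scaleT 923 500 (kcg_3.enc h1 h2)) (enc_rat _ 103 10000))⟩
noncomputable def kcg_201 : Fn2 := ⟨_, _, fun h1 h2 => (enc_sub (enc_neg (enc_rat _ 1 10)) h1)⟩
noncomputable def kcg_206 : Fn2 := ⟨_, _, fun h1 h2 => (enc_scaleT 14291 6250 h1)⟩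
noncomputable def kcg_209 : Fn2 := ⟨_, _, fun h1 h2 => (enc_mul (enc_norm (kcg_3.enc h1 h2)) (enc_scaleT 6591 2000 h1))⟩
noncomputable def kcg_216 : Fn2 := ⟨_, _, fun h1 h2 => (enc_sub (enc_rat _ 1021 2246) h1)⟩
noncomputable def kcg_217 : Fn2 := ⟨_, _, fun h1 h2 => (enc_sub (enc_rat _ 483 1000) h1)⟩
noncomputable def kcg_218 : Fn2 := ⟨_, _, fun h1 h2 => (enc_sub (enc_rat _ 49 100) h1)⟩
noncomputable def kcg_223 : Fn2 := ⟨_, _, fun h1 h2 => (enc_sub (enc_rat _ 1 2) h1)⟩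
noncomputable def kcg_224 : Fn2 := ⟨_, _, fun h1 h2 => (enc_subr 49 100 h1)⟩
noncomputable def kcg_233 : Fn2 := ⟨_, _, fun h1 h2 => (enc_subr 483 1000 h1)⟩
noncomputable def kcg_239 : Fn2 := ⟨_, _, fun h1 h2 => (enc_sub (enc_rat _ 661 1387) h1)⟩
noncomputable def kcg_244 : Fn2 := ⟨_, _, fun h1 h2 => (enc_subr 661 1387 h1)⟩
noncomputable def kcg_254 : Fn2 := ⟨_, _, fun h1 h2 => (enc_subr 1021 2246 h1)⟩
noncomputable def kcg_261 : Fn2 := ⟨_, _, fun h1 h2 => (enc_sub (enc_rat _ 41 100) h1)⟩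
noncomputable def kcg_262 : Fn2 := ⟨_, _, fun h1 h2 => (enc_sub (enc_rat _ 43 100) h1)⟩
noncomputable def kcg_268 : Fn2 := ⟨_, _, fun h1 h2 => (enc_subr 43 100 h1)⟩
noncomputable def kcg_278 : Fn2 := ⟨_, _, fun h1 h2 => (enc_subr 41 100 h1)⟩
noncomputable def kcg_284 : Fn2 := ⟨_, _, fun h1 h2 => (enc_sub (enc_rat _ 3 10) h1)⟩
noncomputable def kcg_291 : Fn2 := ⟨_, _, fun h1 h2 => (enc_subr 3 10 h1)⟩
noncomputable def kcg_303 : Fn2 := ⟨_, _, fun h1 h2 => (enc_subr 1 10 h1)⟩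
noncomputable def kcg : Fn2 := ⟨_, _, fun h1 h2 => (enc_norm (enc_case h1 (enc_case (kcg_6.enc h1 h2) (enc_case (kcg_9.enc h1 h2) (enc_case (kcg_12.enc h1 h2) (enc_add (enc_add (enc_subr 12377897327 1000000000 (enc_neg (kcg_13.enc h1 h2))) (enc_mul (enc_norm (kcg_3.enc h1 h2)) (enc_norm (enc_subr 3238049231 50000000 (enc_neg (kcg_18.enc h1 h2)))))) (enc_mA (enc_mul (enc_norm (kcg_30.enc h1 h2)) (enc_norm (enc_mul (enc_norm (kcg_33.enc h1 h2)) (enc_norm (kcg_34.enc h1 h2))))) (kcg_30.enc h1 h2) (kcg_33.enc h1 h2) (kcg_34.enc h1 h2) rfl)) (enc_add (enc_add (enc_subr 123781979 10000000 (enc_neg (kcg_39.enc h1 h2))) (enc_mul (enc_norm (kcg_3.enc h1 h2)) (enc_norm (enc_subr 1614887717 25000000 (enc_neg (kcg_44.enc h1 h2)))))) (enc_mA (enc_mul (enc_norm (kcg_57.enc h1 h2)) (enc_norm (enc_mul (enc_norm (kcg_12.enc h1 h2)) (enc_norm (kcg_58.enc h1 h2))))) (kcg_57.enc h1 h2) (kcg_12.enc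 h1 h2) (kcg_58.enc h1 h2) rfl))) (enc_case (kcg_66.enc h1 h2) (enc_add (enc_add (enc_subr 44836853996923 8921000000000 (enc_neg (kcg_67.enc h1 h2))) (enc_mul (enc_norm (kcg_3.enc h1 h2)) (enc_norm (enc_subr 54656358729409 892100000000 (enc_neg (kcg_72.enc h1 h2)))))) (enc_mA (enc_mul (enc_norm (kcg_85.enc h1 h2)) (enc_norm (enc_mul (enc_norm (kcg_9.enc h1 h2)) (enc_norm (kcg_86.enc h1 h2))))) (kcg_85.enc h1 h2) (kcg_9.enc h1 h2) (kcg_86.enc h1 h2) rfl)) (enc_add (enc_add (enc_add (kcg_91.enc h1 h2) (enc_rat _ 152607786148737 68479000000000)) (enc_mul (enc_norm (kcg_3.enc h1 h2)) (enc_norm (enc_subr 319332571208399 6847900000000 (enc_neg (kcg_94.enc h1 h2)))))) (enc_mA (enc_mul (enc_norm (kcg_107.enc h1 h2)) (enc_norm (enc_mul (enc_norm (kcg_66.enc h1 h2)) (enc_norm (kcg_108.enc h1 h2))))) (kcg_107.enc h1 h2) (kcg_66.enc h1 h2) (kcg_108.enc h1 h2) rfl)))) (enc_case (kcg_117.enc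 h1 h2) (enc_case (kcg_120.enc h1 h2) (enc_add (enc_add (enc_add (kcg_121.enc h1 h2) (enc_rat _ 273189021301 172562500000)) (enc_mul (enc_norm (kcg_3.enc h1 h2)) (enc_norm (enc_subr 592148687697 25100000000 (enc_neg (kcg_124.enc h1 h2)))))) (enc_mA (enc_mul (enc_norm (kcg_136.enc h1 h2)) (enc_norm (enc_mul (enc_norm (kcg_6.enc h1 h2)) (enc_norm (kcg_137.enc h1 h2))))) (kcg_136.enc h1 h2) (kcg_6.enc h1 h2) (kcg_137.enc h1 h2) rfl)) (enc_add (enc_add (enc_add (kcg_142.enc h1 h2) (enc_rat _ 95134021 200000000)) (enc_mul (enc_norm (kcg_3.enc h1 h2)) (enc_norm (enc_subr 29500041 5000000 (enc_neg (kcg_145.enc h1 h2)))))) (enc_mA (enc_mul (enc_norm (kcg_157.enc h1 h2)) (enc_norm (enc_mul (enc_norm (kcg_120.enc h1 h2)) (enc_norm (kcg_158.enc h1 h2))))) (kcg_157.enc h1 h2) (kcg_120.enc h1 h2) (kcg_158.enc h1 h2) rfl))) (enc_case (kcg_166.enc h1 h2) (enc_add (enc_add (enc_add (kcg_167.enc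 h1 h2) (enc_rat _ 26531 20000000)) (enc_mul (enc_norm (kcg_3.enc h1 h2)) (enc_norm (enc_add (kcg_170.enc h1 h2) (enc_rat _ 108509 1000000))))) (enc_mA (enc_mul (enc_norm (kcg_180.enc h1 h2)) (enc_norm (enc_mul (enc_norm (kcg_117.enc h1 h2)) (enc_norm (kcg_181.enc h1 h2))))) (kcg_180.enc h1 h2) (kcg_117.enc h1 h2) (kcg_181.enc h1 h2) rfl)) (enc_case (enc_add h1 (enc_rat _ 1 10)) (enc_add (enc_add (enc_add (kcg_189.enc h1 h2) (enc_rat _ 41 200000)) (enc_mul (enc_norm (kcg_3.enc h1 h2)) (enc_norm (enc_add (kcg_192.enc h1 h2) (enc_rat _ 923 25000))))) (enc_mA (enc_mul (enc_norm (kcg_200.enc h1 h2)) (enc_norm (enc_mul (enc_norm (kcg_166.enc h1 h2)) (enc_norm (kcg_201.enc h1 h2))))) (kcg_200.enc h1 h2) (kcg_166.enc h1 h2) (kcg_201.enc h1 h2) rfl)) (enc_add (kcg_206.enc h1 h2) (kcg_209.enc h1 h2)))))) (enc_neg (enc_case (kcg_216.enc h1 h2) (enc_case (kcg_217.enc h1 h2) (enc_case (kcg_218.enc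 h1 h2) (enc_add (enc_add (enc_subr 12377897327 1000000000 (kcg_13.enc h1 h2)) (enc_mul (enc_norm (kcg_3.enc h1 h2)) (enc_norm (enc_subr 3238049231 50000000 (kcg_18.enc h1 h2))))) (enc_mA (enc_mul (enc_norm (kcg_30.enc h1 h2)) (enc_norm (enc_mul (enc_norm (kcg_223.enc h1 h2)) (enc_norm (kcg_224.enc h1 h2))))) (kcg_30.enc h1 h2) (kcg_223.enc h1 h2) (kcg_224.enc h1 h2) rfl)) (enc_add (enc_add (enc_subr 123781979 10000000 (kcg_39.enc h1 h2)) (enc_mul (enc_norm (kcg_3.enc h1 h2)) (enc_norm (enc_subr 1614887717 25000000 (kcg_44.enc h1 h2))))) (enc_mA (enc_mul (enc_norm (kcg_57.enc h1 h2)) (enc_norm (enc_mul (enc_norm (kcg_218.enc h1 h2)) (enc_norm (kcg_233.enc h1 h2))))) (kcg_57.enc h1 h2) (kcg_218.enc h1 h2) (kcg_233.enc h1 h2) rfl))) (enc_case (kcg_239.enc h1 h2) (enc_add (enc_add (enc_subr 44836853996923 8921000000000 (kcg_67.enc h1 h2)) (enc_mul (enc_norm (kcg_3.enc h1 h2)) (enc_norm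 (enc_subr 54656358729409 892100000000 (kcg_72.enc h1 h2))))) (enc_mA (enc_mul (enc_norm (kcg_85.enc h1 h2)) (enc_norm (enc_mul (enc_norm (kcg_217.enc h1 h2)) (enc_norm (kcg_244.enc h1 h2))))) (kcg_85.enc h1 h2) (kcg_217.enc h1 h2) (kcg_244.enc h1 h2) rfl)) (enc_add (enc_add (enc_sub (enc_rat _ 152607786148737 68479000000000) (kcg_91.enc h1 h2)) (enc_mul (enc_norm (kcg_3.enc h1 h2)) (enc_norm (enc_subr 319332571208399 6847900000000 (kcg_94.enc h1 h2))))) (enc_mA (enc_mul (enc_norm (kcg_107.enc h1 h2)) (enc_norm (enc_mul (enc_norm (kcg_239.enc h1 h2)) (enc_norm (kcg_254.enc h1 h2))))) (kcg_107.enc h1 h2) (kcg_239.enc h1 h2) (kcg_254.enc h1 h2) rfl)))) (enc_case (kcg_261.enc h1 h2) (enc_case (kcg_262.enc h1 h2) (enc_add (enc_add (enc_sub (enc_rat _ 273189021301 172562500000) (kcg_121.enc h1 h2)) (enc_mul (enc_norm (kcg_3.enc h1 h2)) (enc_norm (enc_subr 592148687697 25100000000 (kcg_124.enc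 h1 h2))))) (enc_mA (enc_mul (enc_norm (kcg_136.enc h1 h2)) (enc_norm (enc_mul (enc_norm (kcg_216.enc h1 h2)) (enc_norm (kcg_268.enc h1 h2))))) (kcg_136.enc h1 h2) (kcg_216.enc h1 h2) (kcg_268.enc h1 h2) rfl)) (enc_add (enc_add (enc_sub (enc_rat _ 95134021 200000000) (kcg_142.enc h1 h2)) (enc_mul (enc_norm (kcg_3.enc h1 h2)) (enc_norm (enc_subr 29500041 5000000 (kcg_145.enc h1 h2))))) (enc_mA (enc_mul (enc_norm (kcg_157.enc h1 h2)) (enc_norm (enc_mul (enc_norm (kcg_262.enc h1 h2)) (enc_norm (kcg_278.enc h1 h2))))) (kcg_157.enc h1 h2) (kcg_262.enc h1 h2) (kcg_278.enc h1 h2) rfl))) (enc_case (kcg_284.enc h1 h2) (enc_add (enc_add (enc_sub (enc_rat _ 26531 20000000) (kcg_167.enc h1 h2)) (enc_mul (enc_norm (kcg_3.enc h1 h2)) (enc_norm (enc_sub (enc_rat _ 108509 1000000) (kcg_170.enc h1 h2))))) (enc_mA (enc_mul (enc_norm (kcg_180.enc h1 h2)) (enc_norm (enc_mul (enc_norm (kcg_261.enc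 h1 h2)) (enc_norm (kcg_291.enc h1 h2))))) (kcg_180.enc h1 h2) (kcg_261.enc h1 h2) (kcg_291.enc h1 h2) rfl)) (enc_case (enc_sub (enc_rat _ 1 10) h1) (enc_add (enc_add (enc_sub (enc_rat _ 41 200000) (kcg_189.enc h1 h2)) (enc_mul (enc_norm (kcg_3.enc h1 h2)) (enc_norm (enc_sub (enc_rat _ 923 25000) (kcg_192.enc h1 h2))))) (enc_mA (enc_mul (enc_norm (kcg_200.enc h1 h2)) (enc_norm (enc_mul (enc_norm (kcg_284.enc h1 h2)) (enc_norm (kcg_303.enc h1 h2))))) (kcg_200.enc h1 h2) (kcg_284.enc h1 h2) (kcg_303.enc h1 h2) rfl)) (enc_sub (enc_neg (kcg_206.enc h1 h2)) (kcg_209.enc h1 h2)))))))))⟩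
noncomputable def kf0q0_9 : Fn2 := ⟨_, _, fun h1 h2 => (enc_scaleT 3 2 h1)⟩
noncomputable def kf0q0_12 : Fn2 := ⟨_, _, fun h1 h2 => (enc_add (enc_pnc _ 1) (c1g.enc h1))⟩
noncomputable def kf0q0 : Fn2 := ⟨_, _, fun h1 h2 => (enc_norm (enc_add (enc_mul (enc_norm (enc_mul (enc_norm (enc_sub (c1g.enc h1) (kf0q0_9.enc h1 h2))) (enc_norm (kf0q0_12.enc h1 h2)))) (enc_inv (enc_sub (kf0q0_12.enc h1 h2) (kf0q0_9.enc h1 h2)))) (enc_mul h1 (kcg.enc (enc_norm (enc_sub (enc_scaleT 3 4 h1) (enc_half (c1g.enc h1)))) h2))))⟩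
noncomputable def txg_4 : Fn3 := ⟨_, _, fun h1 h2 h3 => (enc_subr 9743 10000 h3)⟩
noncomputable def txg_6 : Fn3 := ⟨_, _, fun h1 h2 h3 => (enc_add h1 (enc_half h2))⟩
noncomputable def txg_26 : Fn3 := ⟨_, _, fun h1 h2 h3 => (enc_add h1 (enc_rat _ 1 5))⟩
noncomputable def txg_29 : Fn3 := ⟨_, _, fun h1 h2 h3 => (enc_add h1 (enc_rat _ 21 50))⟩
noncomputable def txg_32 : Fn3 := ⟨_, _, fun h1 h2 h3 => (enc_add h1 (enc_rat _ 23 50))⟩
noncomputable def txg_35 : Fn3 := ⟨_, _, fun h1 h2 h3 => (enc_add h1 (enc_rat _ 483 1000))⟩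
noncomputable def txg_38 : Fn3 := ⟨_, _, fun h1 h2 h3 => (enc_add h1 (enc_rat _ 49 100))⟩
noncomputable def txg_55 : Fn3 := ⟨_, _, fun h1 h2 h3 => (enc_subr 2879 2500 (enc_neg (enc_scaleT 3095 8 (txg_4.enc h1 h2 h3))))⟩
noncomputable def txg_58 : Fn3 := ⟨_, _, fun h1 h2 h3 => (enc_add h1 (enc_rat _ 1 2))⟩
noncomputable def txg_59 : Fn3 := ⟨_, _, fun h1 h2 h3 => (enc_sub (enc_neg (enc_rat _ 49 100)) h1)⟩
noncomputable def txg_77 : Fn3 := ⟨_, _, fun h1 h2 h3 => (enc_subr 4367 5000 (enc_scaleT 9507 100 (txg_4.enc h1 h2 h3)))⟩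
noncomputable def txg_78 : Fn3 := ⟨_, _, fun h1 h2 h3 => (enc_sub (enc_neg (enc_rat _ 483 1000)) h1)⟩
noncomputable def txg_86 : Fn3 := ⟨_, _, fun h1 h2 h3 => (enc_add h1 (enc_rat _ 59571 125000))⟩
noncomputable def txg_100 : Fn3 := ⟨_, _, fun h1 h2 h3 => (enc_add (enc_scaleT 66929 500 (txg_4.enc h1 h2 h3)) (enc_rat _ 49801 10000))⟩
noncomputable def txg_101 : Fn3 := ⟨_, _, fun h1 h2 h3 => (enc_sub (enc_neg (enc_rat _ 59571 125000)) h1)⟩
noncomputable def txg_121 : Fn3 := ⟨_, _, fun h1 h2 h3 => (enc_sub (enc_rat _ 1363 1000) (enc_scaleT 11717 1000 (txg_4.enc h1 h2 h3)))⟩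
noncomputable def txg_122 : Fn3 := ⟨_, _, fun h1 h2 h3 => (enc_sub (enc_neg (enc_rat _ 23 50)) h1)⟩
noncomputable def txg_131 : Fn3 := ⟨_, _, fun h1 h2 h3 => (enc_add h1 (enc_rat _ 11 25))⟩
noncomputable def txg_134 : Fn3 := ⟨_, _, fun h1 h2 h3 => (enc_add h1 (enc_rat _ 227293 500000))⟩
noncomputable def txg_152 : Fn3 := ⟨_, _, fun h1 h2 h3 => (enc_sub (enc_rat _ 2521 10000) (enc_scaleT 30677 250 (txg_4.enc h1 h2 h3)))⟩
noncomputable def txg_153 : Fn3 := ⟨_, _, fun h1 h2 h3 => (enc_sub (enc_neg (enc_rat _ 227293 500000)) h1)⟩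
noncomputable def txg_172 : Fn3 := ⟨_, _, fun h1 h2 h3 => (enc_subr 86139 10000 (enc_neg (enc_scaleT 149711 500 (txg_4.enc h1 h2 h3))))⟩
noncomputable def txg_173 : Fn3 := ⟨_, _, fun h1 h2 h3 => (enc_sub (enc_neg (enc_rat _ 11 25)) h1)⟩
noncomputable def txg_181 : Fn3 := ⟨_, _, fun h1 h2 h3 => (enc_add h1 (enc_rat _ 43 100))⟩
noncomputable def txg_196 : Fn3 := ⟨_, _, fun h1 h2 h3 => (enc_subr 43077 5000 (enc_neg (enc_scaleT 273843 1000 (txg_4.enc h1 h2 h3))))⟩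
noncomputable def txg_197 : Fn3 := ⟨_, _, fun h1 h2 h3 => (enc_sub (enc_neg (enc_rat _ 43 100)) h1)⟩
noncomputable def txg_216 : Fn3 := ⟨_, _, fun h1 h2 h3 => (enc_subr 42949 5000 (enc_neg (enc_scaleT 268973 1000 (txg_4.enc h1 h2 h3))))⟩
noncomputable def txg_217 : Fn3 := ⟨_, _, fun h1 h2 h3 => (enc_sub (enc_neg (enc_rat _ 21 50)) h1)⟩
noncomputable def txg_227 : Fn3 := ⟨_, _, fun h1 h2 h3 => (enc_add h1 (enc_rat _ 3 8))⟩
noncomputable def txg_230 : Fn3 := ⟨_, _, fun h1 h2 h3 => (enc_add h1 (enc_rat _ 2 5))⟩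
noncomputable def txg_233 : Fn3 := ⟨_, _, fun h1 h2 h3 => (enc_add h1 (enc_rat _ 41 100))⟩
noncomputable def txg_248 : Fn3 := ⟨_, _, fun h1 h2 h3 => (enc_subr 42531 5000 (enc_neg (enc_scaleT 2531 10 (txg_4.enc h1 h2 h3))))⟩
noncomputable def txg_249 : Fn3 := ⟨_, _, fun h1 h2 h3 => (enc_sub (enc_neg (enc_rat _ 41 100)) h1)⟩
noncomputable def txg_268 : Fn3 := ⟨_, _, fun h1 h2 h3 => (enc_subr 23561 5000 (enc_neg (enc_scaleT 110443 500 (txg_4.enc h1 h2 h3))))⟩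
noncomputable def txg_269 : Fn3 := ⟨_, _, fun h1 h2 h3 => (enc_sub (enc_neg (enc_rat _ 2 5)) h1)⟩
noncomputable def txg_277 : Fn3 := ⟨_, _, fun h1 h2 h3 => (enc_add h1 (enc_rat _ 39 100))⟩
noncomputable def txg_292 : Fn3 := ⟨_, _, fun h1 h2 h3 => (enc_subr 46703 10000 (enc_neg (enc_scaleT 18809 125 (txg_4.enc h1 h2 h3))))⟩
noncomputable def txg_293 : Fn3 := ⟨_, _, fun h1 h2 h3 => (enc_sub (enc_neg (enc_rat _ 39 100)) h1)⟩
noncomputable def txg_312 : Fn3 := ⟨_, _, fun h1 h2 h3 => (enc_subr 9577 5000 (enc_neg (enc_scaleT 39803 500 (txg_4.enc h1 h2 h3))))⟩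
noncomputable def txg_313 : Fn3 := ⟨_, _, fun h1 h2 h3 => (enc_sub (enc_neg (enc_rat _ 3 8)) h1)⟩
noncomputable def txg_322 : Fn3 := ⟨_, _, fun h1 h2 h3 => (enc_add h1 (enc_rat _ 3 10))⟩
noncomputable def txg_325 : Fn3 := ⟨_, _, fun h1 h2 h3 => (enc_add h1 (enc_rat _ 7 20))⟩
noncomputable def txg_337 : Fn3 := ⟨_, _, fun h1 h2 h3 => (enc_add (enc_scaleT 283541 1000 (txg_4.enc h1 h2 h3)) (enc_rat _ 22597 10000))⟩
noncomputable def txg_338 : Fn3 := ⟨_, _, fun h1 h2 h3 => (enc_sub (enc_neg (enc_rat _ 7 20)) h1)⟩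
noncomputable def txg_354 : Fn3 := ⟨_, _, fun h1 h2 h3 => (enc_add (enc_scaleT 260563 1000 (txg_4.enc h1 h2 h3)) (enc_rat _ 939 500))⟩
noncomputable def txg_355 : Fn3 := ⟨_, _, fun h1 h2 h3 => (enc_sub (enc_neg (enc_rat _ 3 10)) h1)⟩
noncomputable def txg_363 : Fn3 := ⟨_, _, fun h1 h2 h3 => (enc_add h1 (enc_rat _ 1 4))⟩
noncomputable def txg_376 : Fn3 := ⟨_, _, fun h1 h2 h3 => (enc_add (enc_scaleT 987 200 (txg_4.enc h1 h2 h3)) (enc_rat _ 123 10000))⟩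
noncomputable def txg_377 : Fn3 := ⟨_, _, fun h1 h2 h3 => (enc_sub (enc_neg (enc_rat _ 1 4)) h1)⟩
noncomputable def txg_396 : Fn3 := ⟨_, _, fun h1 h2 h3 => (enc_sub (enc_rat _ 407 5000) (enc_scaleT 16093 1000 (txg_4.enc h1 h2 h3)))⟩
noncomputable def txg_397 : Fn3 := ⟨_, _, fun h1 h2 h3 => (enc_sub (enc_neg (enc_rat _ 1 5)) h1)⟩
noncomputable def txg_406 : Fn3 := ⟨_, _, fun h1 h2 h3 => (enc_subr 7 20 h1)⟩
noncomputable def txg_408 : Fn3 := ⟨_, _, fun h1 h2 h3 => (enc_subr 3 20 h1)⟩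
noncomputable def txg_411 : Fn3 := ⟨_, _, fun h1 h2 h3 => (enc_add h1 (enc_rat _ 1 10))⟩
noncomputable def txg_413 : Fn3 := ⟨_, _, fun h1 h2 h3 => (enc_add h1 (enc_rat _ 3 20))⟩
noncomputable def txg_428 : Fn3 := ⟨_, _, fun h1 h2 h3 => (enc_sub (enc_rat _ 16649 10000) (enc_scaleT 2298 125 (txg_4.enc h1 h2 h3)))⟩
noncomputable def txg_429 : Fn3 := ⟨_, _, fun h1 h2 h3 => (enc_sub (enc_neg (enc_rat _ 3 20)) h1)⟩
noncomputable def txg_448 : Fn3 := ⟨_, _, fun h1 h2 h3 => (enc_sub (enc_rat _ 8303 5000) (enc_scaleT 11657 1000 (txg_4.enc h1 h2 h3)))⟩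
noncomputable def txg_449 : Fn3 := ⟨_, _, fun h1 h2 h3 => (enc_sub (enc_neg (enc_rat _ 1 10)) h1)⟩
noncomputable def txg_455 : Fn3 := ⟨_, _, fun h1 h2 h3 => (enc_subr 1 10 h1)⟩
noncomputable def txg_470 : Fn3 := ⟨_, _, fun h1 h2 h3 => (enc_sub (enc_rat _ 423 400) (enc_scaleT 5629 500 (txg_4.enc h1 h2 h3)))⟩
noncomputable def txg_471 : Fn3 := ⟨_, _, fun h1 h2 h3 => (enc_sub (enc_rat _ 1 10) h1)⟩
noncomputable def txg_490 : Fn3 := ⟨_, _, fun h1 h2 h3 => (enc_sub (enc_rat _ 3109 2500) (enc_scaleT 10367 1000 (txg_4.enc h1 h2 h3)))⟩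
noncomputable def txg_491 : Fn3 := ⟨_, _, fun h1 h2 h3 => (enc_sub (enc_rat _ 3 20) h1)⟩
noncomputable def txg_498 : Fn3 := ⟨_, _, fun h1 h2 h3 => (enc_subr 1 4 h1)⟩
noncomputable def txg_499 : Fn3 := ⟨_, _, fun h1 h2 h3 => (enc_subr 1 5 h1)⟩
noncomputable def txg_512 : Fn3 := ⟨_, _, fun h1 h2 h3 => (enc_add (enc_scaleT 35247 1000 (txg_4.enc h1 h2 h3)) (enc_rat _ 7457 5000))⟩
noncomputable def txg_513 : Fn3 := ⟨_, _, fun h1 h2 h3 => (enc_sub (enc_rat _ 1 5) h1)⟩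
noncomputable def txg_531 : Fn3 := ⟨_, _, fun h1 h2 h3 => (enc_add (enc_scaleT 9253 200 (txg_4.enc h1 h2 h3)) (enc_rat _ 2133 1250))⟩
noncomputable def txg_532 : Fn3 := ⟨_, _, fun h1 h2 h3 => (enc_sub (enc_rat _ 1 4) h1)⟩
noncomputable def txg_538 : Fn3 := ⟨_, _, fun h1 h2 h3 => (enc_subr 3 10 h1)⟩
noncomputable def txg_552 : Fn3 := ⟨_, _, fun h1 h2 h3 => (enc_add (enc_scaleT 18657 500 (txg_4.enc h1 h2 h3)) (enc_rat _ 4769 2500))⟩
noncomputable def txg_553 : Fn3 := ⟨_, _, fun h1 h2 h3 => (enc_sub (enc_rat _ 3 10) h1)⟩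
noncomputable def txg_571 : Fn3 := ⟨_, _, fun h1 h2 h3 => (enc_add (enc_scaleT 169 125 (txg_4.enc h1 h2 h3)) (enc_rat _ 18949 10000))⟩
noncomputable def txg_572 : Fn3 := ⟨_, _, fun h1 h2 h3 => (enc_sub (enc_rat _ 7 20) h1)⟩
noncomputable def txg_580 : Fn3 := ⟨_, _, fun h1 h2 h3 => (enc_subr 41 100 h1)⟩
noncomputable def txg_581 : Fn3 := ⟨_, _, fun h1 h2 h3 => (enc_subr 39 100 h1)⟩
noncomputable def txg_582 : Fn3 := ⟨_, _, fun h1 h2 h3 => (enc_subr 3 8 h1)⟩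
noncomputable def txg_598 : Fn3 := ⟨_, _, fun h1 h2 h3 => (enc_sub (enc_rat _ 9453 5000) (enc_scaleT 343 250 (txg_4.enc h1 h2 h3)))⟩
noncomputable def txg_599 : Fn3 := ⟨_, _, fun h1 h2 h3 => (enc_sub (enc_rat _ 3 8) h1)⟩
noncomputable def txg_617 : Fn3 := ⟨_, _, fun h1 h2 h3 => (enc_add (enc_scaleT 6279 500 (txg_4.enc h1 h2 h3)) (enc_rat _ 20129 10000))⟩
noncomputable def txg_618 : Fn3 := ⟨_, _, fun h1 h2 h3 => (enc_sub (enc_rat _ 39 100) h1)⟩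
noncomputable def txg_624 : Fn3 := ⟨_, _, fun h1 h2 h3 => (enc_subr 2 5 h1)⟩
noncomputable def txg_640 : Fn3 := ⟨_, _, fun h1 h2 h3 => (enc_sub (enc_rat _ 53 100) (enc_scaleT 15837 1000 (txg_4.enc h1 h2 h3)))⟩
noncomputable def txg_641 : Fn3 := ⟨_, _, fun h1 h2 h3 => (enc_sub (enc_rat _ 2 5) h1)⟩
noncomputable def txg_661 : Fn3 := ⟨_, _, fun h1 h2 h3 => (enc_sub (enc_rat _ 23 2500) (enc_scaleT 27257 500 (txg_4.enc h1 h2 h3)))⟩
noncomputable def txg_662 : Fn3 := ⟨_, _, fun h1 h2 h3 => (enc_sub (enc_rat _ 41 100) h1)⟩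
noncomputable def txg_669 : Fn3 := ⟨_, _, fun h1 h2 h3 => (enc_subr 43 100 h1)⟩
noncomputable def txg_670 : Fn3 := ⟨_, _, fun h1 h2 h3 => (enc_subr 21 50 h1)⟩
noncomputable def txg_687 : Fn3 := ⟨_, _, fun h1 h2 h3 => (enc_subr 927 400 (enc_neg (enc_scaleT 60247 1000 (txg_4.enc h1 h2 h3))))⟩
noncomputable def txg_688 : Fn3 := ⟨_, _, fun h1 h2 h3 => (enc_sub (enc_rat _ 21 50) h1)⟩
noncomputable def txg_709 : Fn3 := ⟨_, _, fun h1 h2 h3 => (enc_subr 1299 500 (enc_neg (enc_scaleT 26907 500 (txg_4.enc h1 h2 h3))))⟩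
noncomputable def txg_710 : Fn3 := ⟨_, _, fun h1 h2 h3 => (enc_sub (enc_rat _ 43 100) h1)⟩
noncomputable def txg_716 : Fn3 := ⟨_, _, fun h1 h2 h3 => (enc_subr 11 25 h1)⟩
noncomputable def txg_733 : Fn3 := ⟨_, _, fun h1 h2 h3 => (enc_subr 6459 2500 (enc_neg (enc_scaleT 51249 1000 (txg_4.enc h1 h2 h3))))⟩
noncomputable def txg_734 : Fn3 := ⟨_, _, fun h1 h2 h3 => (enc_sub (enc_rat _ 11 25) h1)⟩
noncomputable def txg_753 : Fn3 := ⟨_, _, fun h1 h2 h3 => (enc_sq (enc_norm (txg_4.enc h1 h2 h3)))⟩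
noncomputable def txg_764 : Fn3 := ⟨_, _, fun h1 h2 h3 => (enc_subr 15243 5000 (enc_mul (enc_norm (enc_subr 58583 500 (enc_neg (enc_scaleT 1 4 (txg_4.enc h1 h2 h3))))) (enc_norm (txg_4.enc h1 h2 h3))))⟩
noncomputable def txg_765 : Fn3 := ⟨_, _, fun h1 h2 h3 => (enc_sub (enc_rat _ 1021 2246) h1)⟩
noncomputable def txg_776 : Fn3 := ⟨_, _, fun h1 h2 h3 => (enc_subr 661 1387 h1)⟩
noncomputable def txg_777 : Fn3 := ⟨_, _, fun h1 h2 h3 => (enc_subr 483 1000 h1)⟩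
noncomputable def txg_800 : Fn3 := ⟨_, _, fun h1 h2 h3 => (enc_add (enc_mul (enc_norm (enc_add (enc_scaleT 164987 100 (txg_4.enc h1 h2 h3)) (enc_rat _ 5571 250))) (enc_norm (txg_4.enc h1 h2 h3))) (enc_rat _ 27953 10000))⟩
noncomputable def txg_801 : Fn3 := ⟨_, _, fun h1 h2 h3 => (enc_sub (enc_rat _ 483 1000) h1)⟩
noncomputable def txg_806 : Fn3 := ⟨_, _, fun h1 h2 h3 => (enc_subr 49 100 h1)⟩
noncomputable def txg_821 : Fn3 := ⟨_, _, fun h1 h2 h3 => (enc_subr 351 5000 (enc_scaleT 68611 1000 (txg_4.enc h1 h2 h3)))⟩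
noncomputable def txg_822 : Fn3 := ⟨_, _, fun h1 h2 h3 => (enc_sub (enc_rat _ 49 100) h1)⟩
noncomputable def txg_843 : Fn3 := ⟨_, _, fun h1 h2 h3 => (enc_subr 106 625 (enc_neg (enc_scaleT 9619 50 (txg_4.enc h1 h2 h3))))⟩
noncomputable def txg_844 : Fn3 := ⟨_, _, fun h1 h2 h3 => (enc_sub (enc_rat _ 1 2) h1)⟩
noncomputable def txg : Fn3 := ⟨_, _, fun h1 h2 h3 => (enc_case (enc_subr 1021 2246 h1) (enc_case (txg_26.enc h1 h2 h3) (enc_case (txg_29.enc h1 h2 h3) (enc_case (txg_32.enc h1 h2 h3) (enc_case (txg_35.enc h1 h2 h3) (enc_case (txg_38.enc h1 h2 h3) (enc_add (enc_add (enc_add (enc_scaleT 16399 250000 h1) (enc_rat _ 16399 500000)) (enc_mul (enc_norm (txg_4.enc h1 h2 h3)) (enc_norm (enc_subr 63553 40000 (enc_neg (enc_scaleT 63553 20000 h1)))))) (enc_mA (enc_mul (enc_norm (txg_55.enc h1 h2 h3)) (enc_norm (enc_mul (enc_norm (txg_58.enc h1 h2 h3)) (enc_norm (txg_59.enc h1 h2 h3)))))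 (txg_55.enc h1 h2 h3) (txg_58.enc h1 h2 h3) (txg_59.enc h1 h2 h3) rfl)) (enc_add (enc_add (enc_add (enc_scaleT 29129 350000 h1) (enc_rat _ 517957 12500000)) (enc_mul (enc_norm (txg_4.enc h1 h2 h3)) (enc_norm (enc_subr 38451 2000000 (enc_scaleT 1793 70000 h1))))) (enc_mA (enc_mul (enc_norm (txg_77.enc h1 h2 h3)) (enc_norm (enc_mul (enc_norm (txg_38.enc h1 h2 h3)) (enc_norm (txg_78.enc h1 h2 h3))))) (txg_77.enc h1 h2 h3) (txg_38.enc h1 h2 h3) (txg_78.enc h1 h2 h3) rfl))) (enc_case (txg_86.enc h1 h2 h3) (enc_add (enc_add (enc_add (enc_scaleT 1843 32160 h1) (enc_rat _ 193750093 6700000000)) (enc_mul (enc_norm (txg_4.enc h1 h2 h3)) (enc_norm (enc_subr 2027366871 2680000000 (enc_neg (enc_scaleT 32177 21440 h1)))))) (enc_mA (enc_mul (enc_norm (txg_100.enc h1 h2 h3)) (enc_norm (enc_mul (enc_norm (txg_35.enc h1 h2 h3)) (enc_norm (txg_101.enc h1 h2 h3))))) (txg_100.enc h1 h2 h3) (txg_35.enc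 h1 h2 h3) (txg_101.enc h1 h2 h3) rfl)) (enc_add (enc_add (enc_add (enc_scaleT 279 103550 h1) (enc_rat _ 299381819 103550000000)) (enc_mul (enc_norm (txg_4.enc h1 h2 h3)) (enc_norm (enc_subr 22248622653 20710000000 (enc_neg (enc_scaleT 17957 8284 h1)))))) (enc_mA (enc_mul (enc_norm (txg_121.enc h1 h2 h3)) (enc_norm (enc_mul (enc_norm (txg_86.enc h1 h2 h3)) (enc_norm (txg_122.enc h1 h2 h3))))) (txg_121.enc h1 h2 h3) (txg_86.enc h1 h2 h3) (txg_122.enc h1 h2 h3) rfl)))) (enc_case (txg_131.enc h1 h2 h3) (enc_case (txg_134.enc h1 h2 h3) (enc_add (enc_add (enc_subr 1099851577 135350000000 (enc_neg (enc_scaleT 2877 135350 h1))) (enc_mul (enc_norm (txg_4.enc h1 h2 h3)) (enc_norm (enc_subr 18391007601 27070000000 (enc_neg (enc_scaleT 70879 54140 h1)))))) (enc_mA (enc_mul (enc_norm (txg_152.enc h1 h2 h3)) (enc_norm (enc_mul (enc_norm (txg_32.enc h1 h2 h3)) (enc_norm (txg_153.enc h1 h2 h3)))))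 (txg_152.enc h1 h2 h3) (txg_32.enc h1 h2 h3) (txg_153.enc h1 h2 h3) rfl)) (enc_add (enc_add (enc_add (enc_scaleT 3853 37400 h1) (enc_rat _ 82226929 1700000000)) (enc_mul (enc_norm (txg_4.enc h1 h2 h3)) (enc_norm (enc_add (enc_scaleT 108593 29172 h1) (enc_rat _ 10660693709 6630000000))))) (enc_mA (enc_mul (enc_norm (txg_172.enc h1 h2 h3)) (enc_norm (enc_mul (enc_norm (txg_134.enc h1 h2 h3)) (enc_norm (txg_173.enc h1 h2 h3))))) (txg_172.enc h1 h2 h3) (txg_134.enc h1 h2 h3) (txg_173.enc h1 h2 h3) rfl))) (enc_case (txg_181.enc h1 h2 h3) (enc_add (enc_add (enc_add (enc_scaleT 157409 500000 h1) (enc_rat _ 14155929 100000000)) (enc_mul (enc_norm (txg_4.enc h1 h2 h3)) (enc_norm (enc_add (enc_scaleT 108283 10000 h1) (enc_rat _ 47344963 10000000))))) (enc_mA (enc_mul (enc_norm (txg_196.enc h1 h2 h3)) (enc_norm (enc_mul (enc_norm (txg_131.enc h1 h2 h3)) (enc_norm (txg_197.enc h1 h2 h3)))))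 (txg_196.enc h1 h2 h3) (txg_131.enc h1 h2 h3) (txg_197.enc h1 h2 h3) rfl)) (enc_add (enc_add (enc_add (enc_scaleT 486869 1000000 h1) (enc_rat _ 10777061 50000000)) (enc_mul (enc_norm (txg_4.enc h1 h2 h3)) (enc_norm (enc_add (enc_scaleT 1625647 100000 h1) (enc_rat _ 35343047 5000000))))) (enc_mA (enc_mul (enc_norm (txg_216.enc h1 h2 h3)) (enc_norm (enc_mul (enc_norm (txg_181.enc h1 h2 h3)) (enc_norm (txg_217.enc h1 h2 h3))))) (txg_216.enc h1 h2 h3) (txg_181.enc h1 h2 h3) (txg_217.enc h1 h2 h3) rfl))))) (enc_case (txg_227.enc h1 h2 h3) (enc_case (txg_230.enc h1 h2 h3) (enc_case (txg_233.enc h1 h2 h3) (enc_add (enc_add (enc_add (enc_scaleT 657829 1000000 h1) (enc_rat _ 14367221 50000000)) (enc_mul (enc_norm (txg_4.enc h1 h2 h3)) (enc_norm (enc_add (enc_scaleT 2147721 100000 h1) (enc_rat _ 46306601 5000000))))) (enc_mA (enc_mul (enc_norm (txg_248.enc h1 h2 h3)) (enc_norm (enc_mul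 (enc_norm (txg_29.enc h1 h2 h3)) (enc_norm (txg_249.enc h1 h2 h3))))) (txg_248.enc h1 h2 h3) (txg_29.enc h1 h2 h3) (txg_249.enc h1 h2 h3) rfl)) (enc_add (enc_add (enc_add (enc_scaleT 790013 1000000 h1) (enc_rat _ 17076993 50000000)) (enc_mul (enc_norm (txg_4.enc h1 h2 h3)) (enc_norm (enc_add (enc_scaleT 2621707 100000 h1) (enc_rat _ 28011657 2500000))))) (enc_mA (enc_mul (enc_norm (txg_268.enc h1 h2 h3)) (enc_norm (enc_mul (enc_norm (txg_233.enc h1 h2 h3)) (enc_norm (txg_269.enc h1 h2 h3))))) (txg_268.enc h1 h2 h3) (txg_233.enc h1 h2 h3) (txg_269.enc h1 h2 h3) rfl))) (enc_case (txg_277.enc h1 h2 h3) (enc_add (enc_add (enc_add (enc_scaleT 883837 1000000 h1) (enc_rat _ 18953473 50000000)) (enc_mul (enc_norm (txg_4.enc h1 h2 h3)) (enc_norm (enc_add (enc_scaleT 598613 20000 h1) (enc_rat _ 31725237 2500000))))) (enc_mA (enc_mul (enc_norm (txg_292.enc h1 h2 h3)) (enc_norm (enc_mul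 (enc_norm (txg_230.enc h1 h2 h3)) (enc_norm (txg_293.enc h1 h2 h3))))) (txg_292.enc h1 h2 h3) (txg_230.enc h1 h2 h3) (txg_293.enc h1 h2 h3) rfl)) (enc_add (enc_add (enc_add (enc_scaleT 1438907 1500000 h1) (enc_rat _ 8169777 20000000)) (enc_mul (enc_norm (txg_4.enc h1 h2 h3)) (enc_norm (enc_add (enc_scaleT 2447209 75000 h1) (enc_rat _ 137426281 10000000))))) (enc_mA (enc_mul (enc_norm (txg_312.enc h1 h2 h3)) (enc_norm (enc_mul (enc_norm (txg_277.enc h1 h2 h3)) (enc_norm (txg_313.enc h1 h2 h3))))) (txg_312.enc h1 h2 h3) (txg_277.enc h1 h2 h3) (txg_313.enc h1 h2 h3) rfl)))) (enc_case (txg_322.enc h1 h2 h3) (enc_case (txg_325.enc h1 h2 h3) (enc_add (enc_add (enc_add (enc_scaleT 1164387 1250000 h1) (enc_rat _ 1990391 5000000)) (enc_mul (enc_norm (txg_4.enc h1 h2 h3)) (enc_norm (enc_add (enc_scaleT 1336751 50000 h1) (enc_rat _ 28830539 2500000))))) (enc_mA (enc_mul (enc_norm (txg_337.enc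 h1 h2 h3)) (enc_norm (enc_mul (enc_norm (txg_227.enc h1 h2 h3)) (enc_norm (txg_338.enc h1 h2 h3))))) (txg_337.enc h1 h2 h3) (txg_227.enc h1 h2 h3) (txg_338.enc h1 h2 h3) rfl)) (enc_add (enc_add (enc_add (enc_scaleT 488199 625000 h1) (enc_rat _ 134938 390625)) (enc_mul (enc_norm (txg_4.enc h1 h2 h3)) (enc_norm (enc_add (enc_scaleT 103412 15625 h1) (enc_rat _ 22456937 5000000))))) (enc_mA (enc_mul (enc_norm (txg_354.enc h1 h2 h3)) (enc_norm (enc_mul (enc_norm (txg_325.enc h1 h2 h3)) (enc_norm (txg_355.enc h1 h2 h3))))) (txg_354.enc h1 h2 h3) (txg_325.enc h1 h2 h3) (txg_355.enc h1 h2 h3) rfl))) (enc_case (txg_363.enc h1 h2 h3) (enc_add (enc_add (enc_add (enc_scaleT 1716521 2500000 h1) (enc_rat _ 7927207 25000000)) (enc_mul (enc_norm (txg_4.enc h1 h2 h3)) (enc_norm (enc_sub (enc_rat _ 1272313 2500000) (enc_scaleT 3328253 500000 h1))))) (enc_mA (enc_mul (enc_norm (txg_376.enc h1 h2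 h3)) (enc_norm (enc_mul (enc_norm (txg_322.enc h1 h2 h3)) (enc_norm (txg_377.enc h1 h2 h3))))) (txg_376.enc h1 h2 h3) (txg_322.enc h1 h2 h3) (txg_377.enc h1 h2 h3) rfl)) (enc_add (enc_add (enc_add (enc_scaleT 3409629 5000000 h1) (enc_rat _ 31591763 100000000)) (enc_mul (enc_norm (txg_4.enc h1 h2 h3)) (enc_norm (enc_sub (enc_rat _ 3242031 5000000) (enc_scaleT 3049291 500000 h1))))) (enc_mA (enc_mul (enc_norm (txg_396.enc h1 h2 h3)) (enc_norm (enc_mul (enc_norm (txg_363.enc h1 h2 h3)) (enc_norm (txg_397.enc h1 h2 h3))))) (txg_396.enc h1 h2 h3) (txg_363.enc h1 h2 h3) (txg_397.enc h1 h2 h3) rfl)))))) (enc_case (txg_406.enc h1 h2 h3) (enc_case (txg_408.enc h1 h2 h3) (enc_case (txg_411.enc h1 h2 h3) (enc_case (txg_413.enc h1 h2 h3) (enc_add (enc_add (enc_add (enc_scaleT 1486527 2500000 h1) (enc_rat _ 29845463 100000000)) (enc_mul (enc_norm (txg_4.enc h1 h2 h3)) (enc_norm (enc_sub (enc_rat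 _ 4965881 5000000) (enc_scaleT 1093683 250000 h1))))) (enc_mA (enc_mul (enc_norm (txg_428.enc h1 h2 h3)) (enc_norm (enc_mul (enc_norm (txg_26.enc h1 h2 h3)) (enc_norm (txg_429.enc h1 h2 h3))))) (txg_428.enc h1 h2 h3) (txg_26.enc h1 h2 h3) (txg_429.enc h1 h2 h3) rfl)) (enc_add (enc_add (enc_add (enc_scaleT 535423 1250000 h1) (enc_rat _ 27351377 100000000)) (enc_mul (enc_norm (txg_4.enc h1 h2 h3)) (enc_norm (enc_sub (enc_rat _ 6092381 5000000) (enc_scaleT 718183 250000 h1))))) (enc_mA (enc_mul (enc_norm (txg_448.enc h1 h2 h3)) (enc_norm (enc_mul (enc_norm (txg_413.enc h1 h2 h3)) (enc_norm (txg_449.enc h1 h2 h3))))) (txg_448.enc h1 h2 h3) (txg_413.enc h1 h2 h3) (txg_449.enc h1 h2 h3) rfl))) (enc_case (txg_455.enc h1 h2 h3) (enc_add (enc_add (enc_add (enc_scaleT 2676217 20000000 h1) (enc_rat _ 48812203 200000000)) (enc_mul (enc_norm (txg_4.enc h1 h2 h3)) (enc_norm (enc_sub (enc_rat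 _ 1201527 800000) (enc_scaleT 76813 2000000 h1))))) (enc_mA (enc_mul (enc_norm (txg_470.enc h1 h2 h3)) (enc_norm (enc_mul (enc_norm (txg_411.enc h1 h2 h3)) (enc_norm (txg_471.enc h1 h2 h3))))) (txg_470.enc h1 h2 h3) (txg_411.enc h1 h2 h3) (txg_471.enc h1 h2 h3) rfl)) (enc_add (enc_add (enc_sub (enc_rat _ 13571463 50000000) (enc_scaleT 349679 2500000 h1)) (enc_mul (enc_norm (txg_4.enc h1 h2 h3)) (enc_norm (enc_add (enc_scaleT 136571 50000 h1) (enc_rat _ 12249261 10000000))))) (enc_mA (enc_mul (enc_norm (txg_490.enc h1 h2 h3)) (enc_norm (enc_mul (enc_norm (txg_455.enc h1 h2 h3)) (enc_norm (txg_491.enc h1 h2 h3))))) (txg_490.enc h1 h2 h3) (txg_455.enc h1 h2 h3) (txg_491.enc h1 h2 h3) rfl)))) (enc_case (txg_498.enc h1 h2 h3) (enc_case (txg_499.enc h1 h2 h3) (enc_add (enc_add (enc_sub (enc_rat _ 14597127 50000000) (enc_scaleT 691567 2500000 h1)) (enc_mul (enc_norm (txg_4.enc h1 h2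 h3)) (enc_norm (enc_add (enc_scaleT 743709 500000 h1) (enc_rat _ 220551 156250))))) (enc_mA (enc_mul (enc_norm (txg_512.enc h1 h2 h3)) (enc_norm (enc_mul (enc_norm (txg_408.enc h1 h2 h3)) (enc_norm (txg_513.enc h1 h2 h3))))) (txg_512.enc h1 h2 h3) (txg_408.enc h1 h2 h3) (txg_513.enc h1 h2 h3) rfl)) (enc_add (enc_add (enc_sub (enc_rat _ 647841 2000000) (enc_scaleT 2182583 5000000 h1)) (enc_mul (enc_norm (txg_4.enc h1 h2 h3)) (enc_norm (enc_sub (enc_rat _ 5566603 2500000) (enc_scaleT 647039 250000 h1))))) (enc_mA (enc_mul (enc_norm (txg_531.enc h1 h2 h3)) (enc_norm (enc_mul (enc_norm (txg_499.enc h1 h2 h3)) (enc_norm (txg_532.enc h1 h2 h3))))) (txg_531.enc h1 h2 h3) (txg_499.enc h1 h2 h3) (txg_532.enc h1 h2 h3) rfl))) (enc_case (txg_538.enc h1 h2 h3) (enc_add (enc_add (enc_sub (enc_rat _ 1476377 4000000) (enc_scaleT 1543029 2500000 h1)) (enc_mul (enc_norm (txg_4.enc h1 h2 h3))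 (enc_norm (enc_sub (enc_rat _ 32713787 10000000) (enc_scaleT 3383553 500000 h1))))) (enc_mA (enc_mul (enc_norm (txg_552.enc h1 h2 h3)) (enc_norm (enc_mul (enc_norm (txg_498.enc h1 h2 h3)) (enc_norm (txg_553.enc h1 h2 h3))))) (txg_552.enc h1 h2 h3) (txg_498.enc h1 h2 h3) (txg_553.enc h1 h2 h3) rfl)) (enc_add (enc_add (enc_sub (enc_rat _ 1704527 4000000) (enc_scaleT 4036683 5000000 h1)) (enc_mul (enc_norm (txg_4.enc h1 h2 h3)) (enc_norm (enc_sub (enc_rat _ 7702723 2000000) (enc_scaleT 4350191 500000 h1))))) (enc_mA (enc_mul (enc_norm (txg_571.enc h1 h2 h3)) (enc_norm (enc_mul (enc_norm (txg_538.enc h1 h2 h3)) (enc_norm (txg_572.enc h1 h2 h3))))) (txg_571.enc h1 h2 h3) (txg_538.enc h1 h2 h3) (txg_572.enc h1 h2 h3) rfl))))) (enc_case (txg_580.enc h1 h2 h3) (enc_case (txg_581.enc h1 h2 h3) (enc_case (txg_582.enc h1 h2 h3) (enc_add (enc_add (enc_sub (enc_rat _ 23791829 50000000) (enc_scaleT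 74168 78125 h1)) (enc_mul (enc_norm (txg_4.enc h1 h2 h3)) (enc_norm (enc_sub (enc_rat _ 19315037 5000000) (enc_scaleT 1091707 125000 h1))))) (enc_mA (enc_mul (enc_norm (txg_598.enc h1 h2 h3)) (enc_norm (enc_mul (enc_norm (txg_406.enc h1 h2 h3)) (enc_norm (txg_599.enc h1 h2 h3))))) (txg_598.enc h1 h2 h3) (txg_406.enc h1 h2 h3) (txg_599.enc h1 h2 h3) rfl)) (enc_add (enc_add (enc_sub (enc_rat _ 3155523 6250000) (enc_scaleT 770107 750000 h1)) (enc_mul (enc_norm (txg_4.enc h1 h2 h3)) (enc_norm (enc_sub (enc_rat _ 39207839 10000000) (enc_scaleT 1333159 150000 h1))))) (enc_mA (enc_mul (enc_norm (txg_617.enc h1 h2 h3)) (enc_norm (enc_mul (enc_norm (txg_582.enc h1 h2 h3)) (enc_norm (txg_618.enc h1 h2 h3))))) (txg_617.enc h1 h2 h3) (txg_582.enc h1 h2 h3) (txg_618.enc h1 h2 h3) rfl))) (enc_case (txg_624.enc h1 h2 h3) (enc_add (enc_add (enc_sub (enc_rat _ 51872621 100000000) (enc_scaleT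 1062303 1000000 h1)) (enc_mul (enc_norm (txg_4.enc h1 h2 h3)) (enc_norm (enc_sub (enc_rat _ 9831213 2500000) (enc_scaleT 891773 100000 h1))))) (enc_mA (enc_mul (enc_norm (txg_640.enc h1 h2 h3)) (enc_norm (enc_mul (enc_norm (txg_581.enc h1 h2 h3)) (enc_norm (txg_641.enc h1 h2 h3))))) (txg_640.enc h1 h2 h3) (txg_581.enc h1 h2 h3) (txg_641.enc h1 h2 h3) rfl)) (enc_add (enc_add (enc_sub (enc_rat _ 52088221 100000000) (enc_scaleT 1067693 1000000 h1)) (enc_mul (enc_norm (txg_4.enc h1 h2 h3)) (enc_norm (enc_sub (enc_rat _ 9127703 2500000) (enc_scaleT 410711 50000 h1))))) (enc_mA (enc_mul (enc_norm (txg_661.enc h1 h2 h3)) (enc_norm (enc_mul (enc_norm (txg_624.enc h1 h2 h3)) (enc_norm (txg_662.enc h1 h2 h3))))) (txg_661.enc h1 h2 h3) (txg_624.enc h1 h2 h3) (txg_662.enc h1 h2 h3) rfl)))) (enc_case (txg_669.enc h1 h2 h3) (enc_case (txg_670.enc h1 h2 h3) (enc_add (enc_add (enc_sub (enc_rat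 _ 25570909 50000000) (enc_scaleT 104461 100000 h1)) (enc_mul (enc_norm (txg_4.enc h1 h2 h3)) (enc_norm (enc_sub (enc_rat _ 7951413 2500000) (enc_scaleT 353331 50000 h1))))) (enc_mA (enc_mul (enc_norm (txg_687.enc h1 h2 h3)) (enc_norm (enc_mul (enc_norm (txg_580.enc h1 h2 h3)) (enc_norm (txg_688.enc h1 h2 h3))))) (txg_687.enc h1 h2 h3) (txg_580.enc h1 h2 h3) (txg_688.enc h1 h2 h3) rfl)) (enc_add (enc_add (enc_sub (enc_rat _ 981547 2000000) (enc_scaleT 15554 15625 h1)) (enc_mul (enc_norm (txg_4.enc h1 h2 h3)) (enc_norm (enc_sub (enc_rat _ 2701509 1000000) (enc_scaleT 592601 100000 h1))))) (enc_mA (enc_mul (enc_norm (txg_709.enc h1 h2 h3)) (enc_norm (enc_mul (enc_norm (txg_670.enc h1 h2 h3)) (enc_norm (txg_710.enc h1 h2 h3))))) (txg_709.enc h1 h2 h3) (txg_670.enc h1 h2 h3) (txg_710.enc h1 h2 h3) rfl))) (enc_case (txg_716.enc h1 h2 h3) (enc_add (enc_add (enc_sub (enc_rat _ 23424631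 50000000) (enc_scaleT 23591 25000 h1)) (enc_mul (enc_norm (txg_4.enc h1 h2 h3)) (enc_norm (enc_sub (enc_rat _ 1406089 625000) (enc_scaleT 487539 100000 h1))))) (enc_mA (enc_mul (enc_norm (txg_733.enc h1 h2 h3)) (enc_norm (enc_mul (enc_norm (txg_669.enc h1 h2 h3)) (enc_norm (txg_734.enc h1 h2 h3))))) (txg_733.enc h1 h2 h3) (txg_669.enc h1 h2 h3) (txg_734.enc h1 h2 h3) rfl)) (enc_add (enc_add (enc_add (enc_sub (enc_rat _ 62881175802322873 143708906250000000) (enc_scaleT 2510126436598909 2874178125000000 h1)) (enc_mul (enc_norm (txg_4.enc h1 h2 h3)) (enc_norm (enc_sub (enc_rat _ 4571012994437381 3592722656250000) (enc_scaleT 762785293108217 287417812500000 h1))))) (enc_mul (txg_753.enc h1 h2 h3) (enc_norm (enc_subr 148181 91406250 (enc_scaleT 13471 3656250 h1))))) (enc_mA (enc_mul (enc_norm (txg_764.enc h1 h2 h3)) (enc_norm (enc_mul (enc_norm (txg_716.enc h1 h2 h3)) (enc_norm (txg_765.enc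 h1 h2 h3))))) (txg_764.enc h1 h2 h3) (txg_716.enc h1 h2 h3) (txg_765.enc h1 h2 h3) rfl))))))) (enc_case (txg_776.enc h1 h2 h3) (enc_sub (enc_mul (enc_norm (enc_sub (enc_pnc _ 1) h2)) (enc_norm (enc_subn 1 (enc_nat 2 h2)))) (enc_mul (enc_norm (enc_nat 2 (enc_sub (enc_scaleT 4 3 (txg_6.enc h1 h2 h3)) h3))) (enc_norm (enc_mul (enc_norm (enc_subn 1 (enc_add (enc_scaleT 2 3 (txg_6.enc h1 h2 h3)) h2))) (kcg.enc h1 h3))))) (enc_case (txg_777.enc h1 h2 h3) (enc_add (enc_add (enc_add (enc_sub (enc_rat _ 28186823748289556569 61867135000000000000) (enc_scaleT 56339567582412643 61867135000000000 h1)) (enc_mul (enc_norm (txg_4.enc h1 h2 h3)) (enc_norm (enc_sub (enc_rat _ 5845020371939994627 6186713500000000000) (enc_scaleT 11737478296061169 6186713500000000 h1))))) (enc_mul (txg_753.enc h1 h2 h3) (enc_norm (enc_subr 2286214662753 446050000000 (enc_scaleT 4733363691 446050000 h1))))) (enc_mA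 (enc_mul (enc_norm (txg_800.enc h1 h2 h3)) (enc_norm (enc_mul (enc_norm (txg_776.enc h1 h2 h3)) (enc_norm (txg_801.enc h1 h2 h3))))) (txg_800.enc h1 h2 h3) (txg_776.enc h1 h2 h3) (txg_801.enc h1 h2 h3) rfl)) (enc_case (txg_806.enc h1 h2 h3) (enc_add (enc_add (enc_sub (enc_rat _ 23202443 50000000) (enc_scaleT 649699 700000 h1)) (enc_mul (enc_norm (txg_4.enc h1 h2 h3)) (enc_norm (enc_sub (enc_rat _ 311493 250000) (enc_scaleT 176457 70000 h1))))) (enc_mA (enc_mul (enc_norm (txg_821.enc h1 h2 h3)) (enc_norm (enc_mul (enc_norm (txg_777.enc h1 h2 h3)) (enc_norm (txg_822.enc h1 h2 h3))))) (txg_821.enc h1 h2 h3) (txg_777.enc h1 h2 h3) (txg_822.enc h1 h2 h3) rfl)) (enc_add (enc_add (enc_sub (enc_rat _ 231489 500000) (enc_scaleT 231489 250000 h1)) (enc_mul (enc_norm (txg_4.enc h1 h2 h3)) (enc_norm (enc_sub (enc_rat _ 10773 20000) (enc_scaleT 10773 10000 h1))))) (enc_mA (enc_mul (enc_norm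 (txg_843.enc h1 h2 h3)) (enc_norm (enc_mul (enc_norm (txg_806.enc h1 h2 h3)) (enc_norm (txg_844.enc h1 h2 h3))))) (txg_843.enc h1 h2 h3) (txg_806.enc h1 h2 h3) (txg_844.enc h1 h2 h3) rfl))))))⟩
noncomputable def l0q0 : Fn2 := ⟨_, _, fun h1 h2 => (enc_norm (txg.enc (enc_norm (enc_sub (enc_scaleT 3 4 h1) (enc_half (c1g.enc h1)))) (c1g.enc h1) h2))⟩
noncomputable def kc0q0_3 : Fn2 := ⟨_, _, fun h1 h2 => (enc_subr 9743 10000 h2)⟩
noncomputable def kc0q0_8 : Fn2 := ⟨_, _, fun h1 h2 => (enc_sub (enc_scaleT 3 4 h1) (enc_half (c1g.enc h1)))⟩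
noncomputable def kc0q0 : Fn2 := ⟨_, _, fun h1 h2 => (enc_norm (enc_case (enc_add (kc0q0_8.enc h1 h2) (enc_rat _ 333 1000)) (enc_case (enc_add (kc0q0_8.enc h1 h2) (enc_rat _ 93 200)) (enc_case (enc_add (kc0q0_8.enc h1 h2) (enc_rat _ 49 100)) (enc_add (enc_subr 603 50 (enc_neg (enc_scaleT 603 25 (kc0q0_8.enc h1 h2)))) (enc_mul (enc_norm (kc0q0_3.enc h1 h2)) (enc_norm (enc_subr 14 5 (enc_neg (enc_scaleT 28 5 (kc0q0_8.enc h1 h2))))))) (enc_case (enc_add (kc0q0_8.enc h1 h2) (enc_rat _ 483 1000)) (enc_add (enc_subr 30143 2500 (enc_neg (enc_scaleT 844 35 (kc0q0_8.enc h1 h2)))) (enc_mul (enc_norm (kc0q0_3.enc h1 h2)) (enc_norm (enc_subr 1253 500 (enc_neg (enc_nat 5 (kc0q0_8.enc h1 h2))))))) (enc_add (enc_add (enc_scaleT 223 180 (kc0q0_8.enc h1 h2)) (enc_rat _ 11303 60000)) (enc_mul (enc_norm (kc0q0_3.enc h1 h2)) (enc_norm (enc_subr 2023 1000 (enc_neg (enc_nat 4 (kc0q0_8.enc h1 h2)))))))))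 (enc_case (enc_add (kc0q0_8.enc h1 h2) (enc_rat _ 43 100)) (enc_case (enc_add (kc0q0_8.enc h1 h2) (enc_rat _ 9 20)) (enc_add (enc_add (enc_scaleT 34 25 (kc0q0_8.enc h1 h2)) (enc_rat _ 2447 10000)) (enc_mul (enc_norm (kc0q0_3.enc h1 h2)) (enc_norm (enc_subr 1589 1000 (enc_neg (enc_scaleT 46 15 (kc0q0_8.enc h1 h2))))))) (enc_add (enc_add (enc_scaleT 171 100 (kc0q0_8.enc h1 h2)) (enc_rat _ 2011 5000)) (enc_mul (enc_norm (kc0q0_3.enc h1 h2)) (enc_norm (enc_subr 311 250 (enc_neg (enc_scaleT 23 10 (kc0q0_8.enc h1 h2)))))))) (enc_case (enc_add (kc0q0_8.enc h1 h2) (enc_rat _ 2 5)) (enc_add (enc_add (enc_scaleT 43 25 (kc0q0_8.enc h1 h2)) (enc_rat _ 813 2000)) (enc_mul (enc_norm (kc0q0_3.enc h1 h2)) (enc_norm (enc_subr 1307 1500 (enc_neg (enc_scaleT 43 30 (kc0q0_8.enc h1 h2))))))) (enc_add (enc_add (enc_scaleT 1159 670 (kc0q0_8.enc h1 h2)) (enc_rat _ 54999 134000)) (enc_mul (enc_norm (kc0q0_3.enc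 h1 h2)) (enc_norm (enc_subr 19583 33500 (enc_neg (enc_scaleT 48 67 (kc0q0_8.enc h1 h2)))))))))) (enc_case (enc_subr 167 1000 (kc0q0_8.enc h1 h2)) (enc_case (enc_add (kc0q0_8.enc h1 h2) (enc_rat _ 167 1000)) (enc_add (enc_add (enc_scaleT 575 332 (kc0q0_8.enc h1 h2)) (enc_rat _ 682479 1660000)) (enc_mul (enc_norm (kc0q0_3.enc h1 h2)) (enc_norm (enc_subr 63097 166000 (enc_neg (enc_scaleT 17 166 (kc0q0_8.enc h1 h2))))))) (enc_case (kc0q0_8.enc h1 h2) (enc_add (enc_add (enc_scaleT 1447 835 (kc0q0_8.enc h1 h2)) (enc_rat _ 4113 10000)) (enc_mul (enc_norm (kc0q0_3.enc h1 h2)) (enc_norm (enc_subr 313 1000 (enc_scaleT 50 167 (kc0q0_8.enc h1 h2)))))) (enc_add (enc_add (enc_scaleT 579 334 (kc0q0_8.enc h1 h2)) (enc_rat _ 4113 10000)) (enc_mul (enc_norm (kc0q0_3.enc h1 h2)) (enc_norm (enc_subr 313 1000 (enc_scaleT 95 167 (kc0q0_8.enc h1 h2)))))))) (enc_case (enc_subr 2 5 (kc0q0_8.enc h1 h2))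 (enc_case (enc_subr 333 1000 (kc0q0_8.enc h1 h2)) (enc_add (enc_add (enc_scaleT 1439 830 (kc0q0_8.enc h1 h2)) (enc_rat _ 341351 830000)) (enc_mul (enc_norm (kc0q0_3.enc h1 h2)) (enc_norm (enc_subr 56061 166000 (enc_scaleT 119 166 (kc0q0_8.enc h1 h2)))))) (enc_add (enc_add (enc_scaleT 581 335 (kc0q0_8.enc h1 h2)) (enc_rat _ 34427 83750)) (enc_mul (enc_norm (kc0q0_3.enc h1 h2)) (enc_norm (enc_subr 23949 67000 (enc_scaleT 52 67 (kc0q0_8.enc h1 h2))))))) (enc_case (enc_subr 43 100 (kc0q0_8.enc h1 h2)) (enc_add (enc_add (enc_scaleT 26 15 (kc0q0_8.enc h1 h2)) (enc_rat _ 1543 3750)) (enc_mul (enc_norm (kc0q0_3.enc h1 h2)) (enc_norm (enc_subr 367 1000 (enc_scaleT 4 5 (kc0q0_8.enc h1 h2)))))) (enc_add (enc_add (enc_scaleT 239378025291 138050000000 (kc0q0_8.enc h1 h2)) (enc_rat _ 5676368912487 13805000000000)) (enc_mul (enc_norm (kc0q0_3.enc h1 h2)) (enc_norm (enc_subr 2120746248341 5522000000000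 (enc_scaleT 46366052287 55220000000 (kc0q0_8.enc h1 h2)))))))))))⟩
noncomputable def kf0q1_10 : Fn2 := ⟨_, _, fun h1 h2 => (enc_scaleT 3 2 h1)⟩
noncomputable def kf0q1 : Fn2 := ⟨_, _, fun h1 h2 => (enc_norm (enc_add (enc_mul (enc_norm (enc_mul (enc_norm (enc_add (enc_pnc _ 1) (enc_nat 2 (c1g.enc h1)))) (enc_norm (enc_sub (kf0q1_10.enc h1 h2) (c1g.enc h1))))) (enc_inv (enc_nat 2 (enc_sub (enc_add (enc_pnc _ 1) (kf0q1_10.enc h1 h2)) (c1g.enc h1))))) (enc_mul (enc_norm (enc_subn 1 h1)) (kcg.enc (enc_norm (enc_sub (enc_scaleT 3 4 h1) (enc_half (c1g.enc h1)))) h2))))⟩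
noncomputable def l0q1 : Fn2 := ⟨_, _, fun h1 h2 => (enc_norm (txg.enc (enc_norm (enc_sub (enc_scaleT 3 4 h1) (enc_half (c1g.enc h1)))) (c1g.enc h1) h2))⟩
noncomputable def gsg : Fn1 := ⟨_, _, fun h1 => (enc_sqrt (enc_sub (enc_pnc _ 1) (enc_scaleT 3 4 (enc_sq h1))))⟩
noncomputable def gug : Fn1 := ⟨_, _, fun h1 => (enc_norm (enc_add (enc_scaleT 3 4 h1) (enc_scaleT 3 2 (enc_sub (enc_pnc _ 1) (gsg.enc h1)))))⟩
noncomputable def kc0q1_3 : Fn2 := ⟨_, _, fun h1 h2 => (enc_subr 9743 10000 h2)⟩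
noncomputable def kc0q1_9 : Fn2 := ⟨_, _, fun h1 h2 => (enc_sub (enc_scaleT 3 4 h1) (enc_half (c1g.enc h1)))⟩
noncomputable def kc0q1 : Fn2 := ⟨_, _, fun h1 h2 => (enc_norm (enc_case (enc_subr 1021 2246 (kc0q1_9.enc h1 h2)) (enc_case (enc_add (kc0q1_9.enc h1 h2) (enc_rat _ 333 1000)) (enc_case (enc_add (kc0q1_9.enc h1 h2) (enc_rat _ 93 200)) (enc_case (enc_add (kc0q1_9.enc h1 h2) (enc_rat _ 49 100)) (enc_add (enc_subr 603 50 (enc_neg (enc_scaleT 603 25 (kc0q1_9.enc h1 h2)))) (enc_mul (enc_norm (kc0q1_3.enc h1 h2)) (enc_norm (enc_subr 14 5 (enc_neg (enc_scaleT 28 5 (kc0q1_9.enc h1 h2))))))) (enc_case (enc_add (kc0q1_9.enc h1 h2) (enc_rat _ 483 1000)) (enc_add (enc_subr 30143 2500 (enc_neg (enc_scaleT 844 35 (kc0q1_9.enc h1 h2)))) (enc_mul (enc_norm (kc0q1_3.enc h1 h2)) (enc_norm (enc_subr 1253 500 (enc_neg (enc_nat 5 (kc0q1_9.enc h1 h2))))))) (enc_add (enc_add (enc_scaleT 223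 180 (kc0q1_9.enc h1 h2)) (enc_rat _ 11303 60000)) (enc_mul (enc_norm (kc0q1_3.enc h1 h2)) (enc_norm (enc_subr 2023 1000 (enc_neg (enc_nat 4 (kc0q1_9.enc h1 h2))))))))) (enc_case (enc_add (kc0q1_9.enc h1 h2) (enc_rat _ 43 100)) (enc_case (enc_add (kc0q1_9.enc h1 h2) (enc_rat _ 9 20)) (enc_add (enc_add (enc_scaleT 34 25 (kc0q1_9.enc h1 h2)) (enc_rat _ 2447 10000)) (enc_mul (enc_norm (kc0q1_3.enc h1 h2)) (enc_norm (enc_subr 1589 1000 (enc_neg (enc_scaleT 46 15 (kc0q1_9.enc h1 h2))))))) (enc_add (enc_add (enc_scaleT 171 100 (kc0q1_9.enc h1 h2)) (enc_rat _ 2011 5000)) (enc_mul (enc_norm (kc0q1_3.enc h1 h2)) (enc_norm (enc_subr 311 250 (enc_neg (enc_scaleT 23 10 (kc0q1_9.enc h1 h2)))))))) (enc_case (enc_add (kc0q1_9.enc h1 h2) (enc_rat _ 2 5)) (enc_add (enc_add (enc_scaleT 43 25 (kc0q1_9.enc h1 h2)) (enc_rat _ 813 2000)) (enc_mul (enc_norm (kc0q1_3.enc h1 h2)) (enc_norm (enc_subr 1307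 1500 (enc_neg (enc_scaleT 43 30 (kc0q1_9.enc h1 h2))))))) (enc_add (enc_add (enc_scaleT 1159 670 (kc0q1_9.enc h1 h2)) (enc_rat _ 54999 134000)) (enc_mul (enc_norm (kc0q1_3.enc h1 h2)) (enc_norm (enc_subr 19583 33500 (enc_neg (enc_scaleT 48 67 (kc0q1_9.enc h1 h2)))))))))) (enc_case (enc_subr 167 1000 (kc0q1_9.enc h1 h2)) (enc_case (enc_add (kc0q1_9.enc h1 h2) (enc_rat _ 167 1000)) (enc_add (enc_add (enc_scaleT 575 332 (kc0q1_9.enc h1 h2)) (enc_rat _ 682479 1660000)) (enc_mul (enc_norm (kc0q1_3.enc h1 h2)) (enc_norm (enc_subr 63097 166000 (enc_neg (enc_scaleT 17 166 (kc0q1_9.enc h1 h2))))))) (enc_case (kc0q1_9.enc h1 h2) (enc_add (enc_add (enc_scaleT 1447 835 (kc0q1_9.enc h1 h2)) (enc_rat _ 4113 10000)) (enc_mul (enc_norm (kc0q1_3.enc h1 h2)) (enc_norm (enc_subr 313 1000 (enc_scaleT 50 167 (kc0q1_9.enc h1 h2)))))) (enc_add (enc_add (enc_scaleT 579 334 (kc0q1_9.enc h1 h2)) (enc_rat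 _ 4113 10000)) (enc_mul (enc_norm (kc0q1_3.enc h1 h2)) (enc_norm (enc_subr 313 1000 (enc_scaleT 95 167 (kc0q1_9.enc h1 h2)))))))) (enc_case (enc_subr 2 5 (kc0q1_9.enc h1 h2)) (enc_case (enc_subr 333 1000 (kc0q1_9.enc h1 h2)) (enc_add (enc_add (enc_scaleT 1439 830 (kc0q1_9.enc h1 h2)) (enc_rat _ 341351 830000)) (enc_mul (enc_norm (kc0q1_3.enc h1 h2)) (enc_norm (enc_subr 56061 166000 (enc_scaleT 119 166 (kc0q1_9.enc h1 h2)))))) (enc_add (enc_add (enc_scaleT 581 335 (kc0q1_9.enc h1 h2)) (enc_rat _ 34427 83750)) (enc_mul (enc_norm (kc0q1_3.enc h1 h2)) (enc_norm (enc_subr 23949 67000 (enc_scaleT 52 67 (kc0q1_9.enc h1 h2))))))) (enc_case (enc_subr 43 100 (kc0q1_9.enc h1 h2)) (enc_add (enc_add (enc_scaleT 26 15 (kc0q1_9.enc h1 h2)) (enc_rat _ 1543 3750)) (enc_mul (enc_norm (kc0q1_3.enc h1 h2)) (enc_norm (enc_subr 367 1000 (enc_scaleT 4 5 (kc0q1_9.enc h1 h2)))))) (enc_add (enc_add (enc_scaleT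 239378025291 138050000000 (kc0q1_9.enc h1 h2)) (enc_rat _ 5676368912487 13805000000000)) (enc_mul (enc_norm (kc0q1_3.enc h1 h2)) (enc_norm (enc_subr 2120746248341 5522000000000 (enc_scaleT 46366052287 55220000000 (kc0q1_9.enc h1 h2)))))))))) (enc_case (enc_subr 661 1387 (kc0q1_9.enc h1 h2)) (enc_sub (enc_add (enc_add (enc_rat _ 3 4) (enc_scaleT 3 2 h1)) (enc_scaleT 3 4 (enc_mul (enc_norm (enc_mul h1 (enc_inv (c1g.enc h1)))) (gug.enc h1)))) (enc_mul (kcg.enc (enc_norm (kc0q1_9.enc h1 h2)) h2) (enc_norm (enc_add (gug.enc h1) (enc_nat 2 (c1g.enc h1)))))) (enc_case (enc_subr 121 250 (kc0q1_9.enc h1 h2)) (enc_case (enc_subr 12 25 (kc0q1_9.enc h1 h2)) (enc_add (enc_sub (enc_rat _ 1277717487371 37187500000) (enc_scaleT 416744068707 5950000000 (kc0q1_9.enc h1 h2))) (enc_mul (enc_norm (kc0q1_3.enc h1 h2)) (enc_norm (enc_sub (enc_rat _ 18295589584141 148750000000) (enc_scaleT 5861075278047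 23800000000 (kc0q1_9.enc h1 h2)))))) (enc_add (enc_sub (enc_rat _ 343511 10000) (enc_scaleT 2801 40 (kc0q1_9.enc h1 h2))) (enc_mul (enc_norm (kc0q1_3.enc h1 h2)) (enc_norm (enc_sub (enc_rat _ 122749 1000) (enc_scaleT 983 4 (kc0q1_9.enc h1 h2))))))) (enc_case (enc_subr 61 125 (kc0q1_9.enc h1 h2)) (enc_add (enc_sub (enc_rat _ 11797 625) (enc_scaleT 761 20 (kc0q1_9.enc h1 h2))) (enc_mul (enc_norm (kc0q1_3.enc h1 h2)) (enc_norm (enc_sub (enc_rat _ 30657 250) (enc_scaleT 491 2 (kc0q1_9.enc h1 h2)))))) (enc_case (enc_subr 123 250 (kc0q1_9.enc h1 h2)) (enc_add (enc_sub (enc_rat _ 9601 625) (enc_scaleT 617 20 (kc0q1_9.enc h1 h2))) (enc_mul (enc_norm (kc0q1_3.enc h1 h2)) (enc_norm (enc_sub (enc_rat _ 61009 500) (enc_scaleT 977 4 (kc0q1_9.enc h1 h2)))))) (enc_add (enc_sub (enc_rat _ 917 80) (enc_scaleT 917 40 (kc0q1_9.enc h1 h2))) (enc_mul (enc_norm (kc0q1_3.enc h1 h2)) (enc_norm (enc_sub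 (enc_rat _ 1847 16) (enc_scaleT 1847 8 (kc0q1_9.enc h1 h2))))))))))))⟩
noncomputable def yag : Fn1 := ⟨_, _, fun h1 => (enc_sqrt (enc_scaleT 4 3 (enc_sub (enc_pnc _ 1) (enc_sq h1))))⟩
noncomputable def kfc02 : Fn2 := ⟨_, _, fun h1 h2 => (enc_norm (enc_add h1 (enc_mul (enc_norm (enc_subn 1 (yag.enc h1))) (kcg.enc (enc_neg h1) h2))))⟩
noncomputable def lc02_7 : Fn2 := ⟨_, _, fun h1 h2 => (enc_scaleT 3 4 (yag.enc h1))⟩
noncomputable def lc02_8 : Fn2 := ⟨_, _, fun h1 h2 => (enc_half h1)⟩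
noncomputable def lc02 : Fn2 := ⟨_, _, fun h1 h2 => (enc_norm (enc_sub (txg.enc (enc_neg h1) (enc_norm (enc_add (lc02_7.enc h1 h2) (lc02_8.enc h1 h2))) h2) (txg.enc h1 (enc_norm (enc_sub (lc02_7.enc h1 h2) (lc02_8.enc h1 h2))) h2)))⟩
noncomputable def kcc02_4 : Fn2 := ⟨_, _, fun h1 h2 => (enc_subr 9743 10000 h2)⟩
noncomputable def kcc02_19 : Fn2 := ⟨_, _, fun h1 h2 => (enc_scaleT 34411 2000 h1)⟩
noncomputable def kcc02 : Fn2 := ⟨_, _, fun h1 h2 => (enc_norm (enc_case (enc_subr 1 10 h1) (enc_neg (enc_mul (enc_norm (kcc02_4.enc h1 h2)) (enc_scaleT 1 50 h1))) (enc_case (enc_subr 3 10 h1) (enc_add (enc_sub (enc_rat _ 34411 20000) (kcc02_19.enc h1 h2)) (enc_mul (enc_norm (kcc02_4.enc h1 h2)) (enc_norm (enc_sub (enc_rat _ 49 2000) (enc_scaleT 53 200 h1))))) (enc_add (enc_subr 34411 4000 (kcc02_19.enc h1 h2)) (enc_mul (enc_norm (kcc02_4.enc h1 h2)) (enc_norm (enc_subr 11 80 (enc_scaleT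 11 40 h1))))))))⟩
noncomputable def swg : Fn1 := ⟨_, _, fun h1 => (enc_sqrt (enc_sub (enc_pnc _ 1) (enc_scaleT 3 4 (enc_sq (enc_norm (enc_subn 1 h1))))))⟩
noncomputable def cv1m : Fn1 := ⟨_, _, fun h1 => (enc_norm (enc_add (enc_scaleT 3 4 (c1g.enc h1)) (enc_scaleT 1 4 (enc_add (swg.enc h1) (enc_rat _ 1 2)))))⟩
noncomputable def bf1q0_3 : Fn2 := ⟨_, _, fun h1 h2 => (enc_subr 9743 10000 h2)⟩
noncomputable def bf1q0_10 : Fn2 := ⟨_, _, fun h1 h2 => (enc_scaleT 207 100 h1)⟩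
noncomputable def bf1q0 : Fn2 := ⟨_, _, fun h1 h2 => (enc_norm (enc_case (enc_subr 779 25000 h1) (enc_case (enc_subr 27 2000 h1) (enc_case (enc_subr 1 200 h1) (enc_add (enc_sub (enc_pnc _ 1) (bf1q0_10.enc h1 h2)) (enc_mul (enc_norm (bf1q0_3.enc h1 h2)) (enc_scaleT 151 50 h1))) (enc_case (enc_subr 21 2000 h1) (enc_add (enc_sub (enc_rat _ 220003 220000) (enc_scaleT 114 55 h1)) (enc_mul (enc_norm (bf1q0_3.enc h1 h2)) (enc_norm (enc_add (enc_scaleT 163 55 h1) (enc_rat _ 31 110000))))) (enc_add (enc_sub (enc_rat _ 199997 200000) (bf1q0_10.enc h1 h2)) (enc_mul (enc_norm (bf1q0_3.enc h1 h2)) (enc_norm (enc_add (enc_scaleT 29 10 h1) (enc_rat _ 19 20000))))))) (enc_case (enc_subr 33 2048 h1) (enc_add (enc_sub (enc_rat _ 5574931 5575000) (enc_scaleT 34624 16725 h1)) (enc_mul (enc_norm (bf1q0_3.enc h1 h2)) (enc_norm (enc_add (enc_scaleT 9472 3345 h1) (enc_rat _ 167 89200))))) (enc_case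 (enc_subr 1 40 h1) (enc_add (enc_sub (enc_rat _ 650007 650000) (enc_scaleT 16832 8125 h1)) (enc_mul (enc_norm (bf1q0_3.enc h1 h2)) (enc_norm (enc_add (enc_scaleT 6144 2275 h1) (enc_rat _ 29 7280))))) (enc_add (enc_sub (enc_rat _ 15400713 15400000) (enc_scaleT 1277 616 h1)) (enc_mul (enc_norm (bf1q0_3.enc h1 h2)) (enc_norm (enc_add (enc_scaleT 795 308 h1) (enc_rat _ 2147 308000)))))))) (enc_case (enc_subr 1 10 h1) (enc_case (enc_subr 1 20 h1) (enc_add (enc_sub (enc_rat _ 3925011 3925000) (enc_scaleT 1301 628 h1)) (enc_mul (enc_norm (bf1q0_3.enc h1 h2)) (enc_norm (enc_add (enc_scaleT 1160 471 h1) (enc_rat _ 25099 2355000))))) (enc_case (enc_subr 7 100 h1) (enc_add (enc_sub (enc_rat _ 199999 200000) (enc_scaleT 4143 2000 h1)) (enc_mul (enc_norm (bf1q0_3.enc h1 h2)) (enc_norm (enc_add (enc_scaleT 473 200 h1) (enc_rat _ 311 20000))))) (enc_add (enc_sub (enc_rat _ 150001 150000) (enc_scaleT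 1243 600 h1)) (enc_mul (enc_norm (bf1q0_3.enc h1 h2)) (enc_norm (enc_add (enc_scaleT 57 25 h1) (enc_rat _ 43 2000))))))) (enc_case (enc_subr 11 50 h1) (enc_case (enc_subr 3 20 h1) (enc_add (enc_sub (enc_pnc _ 1) (enc_scaleT 5179 2500 h1)) (enc_mul (enc_norm (bf1q0_3.enc h1 h2)) (enc_norm (enc_add (enc_scaleT 553 250 h1) (enc_rat _ 283 10000))))) (enc_add (enc_sub (enc_rat _ 175003 175000) (enc_scaleT 7251 3500 h1)) (enc_mul (enc_norm (bf1q0_3.enc h1 h2)) (enc_norm (enc_add (enc_scaleT 1513 700 h1) (enc_rat _ 157 4375)))))) (enc_case (enc_subr 33 100 h1) (enc_add (enc_sub (enc_pnc _ 1) (enc_scaleT 5697 2750 h1)) (enc_mul (enc_norm (bf1q0_3.enc h1 h2)) (enc_norm (enc_add (enc_scaleT 586 275 h1) (enc_rat _ 213 5000))))) (enc_add (enc_sub (enc_rat _ 850003 850000) (enc_scaleT 17609 8500 h1)) (enc_mul (enc_norm (bf1q0_3.enc h1 h2)) (enc_norm (enc_add (enc_scaleT 3599 1700 h1) (enc_rat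 _ 8019 170000))))))))))⟩
noncomputable def kf1q0 : Fn2 := ⟨_, _, fun h1 h2 => (enc_norm (enc_mul (cv1m.enc h1) (bf1q0.enc h1 h2)))⟩
noncomputable def bx1q0_3 : Fn2 := ⟨_, _, fun h1 h2 => (enc_subr 9743 10000 h2)⟩
noncomputable def bx1q0 : Fn2 := ⟨_, _, fun h1 h2 => (enc_norm (enc_case (enc_subr 779 25000 h1) (enc_case (enc_subr 27 2000 h1) (enc_case (enc_subr 1 200 h1) (enc_sub (enc_scaleT 47 125 h1) (enc_mul (enc_norm (bx1q0_3.enc h1 h2)) (enc_scaleT 29 10 h1))) (enc_case (enc_subr 21 2000 h1) (enc_add (enc_subr 1 550000 (enc_scaleT 207 550 h1)) (enc_mul (enc_norm (bx1q0_3.enc h1 h2)) (enc_norm (enc_subr 281 22000 (enc_neg (enc_scaleT 19 55 h1)))))) (enc_add (enc_add (enc_scaleT 28 75 h1) (enc_rat _ 3 100000)) (enc_mul (enc_norm (bx1q0_3.enc h1 h2)) (enc_norm (enc_subr 279 20000 (enc_neg (enc_scaleT 7 30 h1)))))))) (enc_case (enc_subr 33 2048 h1) (enc_add (enc_add (enc_scaleT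 6208 16725 h1) (enc_rat _ 1317 22300000)) (enc_mul (enc_norm (bx1q0_3.enc h1 h2)) (enc_norm (enc_subr 32373 2230000 (enc_neg (enc_scaleT 128 669 h1)))))) (enc_case (enc_subr 1 40 h1) (enc_add (enc_add (enc_scaleT 21184 56875 h1) (enc_rat _ 349 9100000)) (enc_mul (enc_norm (bx1q0_3.enc h1 h2)) (enc_norm (enc_subr 14531 910000 (enc_neg (enc_scaleT 1152 11375 h1)))))) (enc_add (enc_add (enc_scaleT 115 308 h1) (enc_rat _ 3 192500)) (enc_mul (enc_norm (bx1q0_3.enc h1 h2)) (enc_norm (enc_subr 5323 308000 (enc_neg (enc_scaleT 15 308 h1))))))))) (enc_case (enc_subr 1 10 h1) (enc_case (enc_subr 1 20 h1) (enc_sub (enc_add (enc_scaleT 175 471 h1) (enc_rat _ 683 9420000)) (enc_scaleT 47 2500 (bx1q0_3.enc h1 h2))) (enc_case (enc_subr 7 100 h1) (enc_add (enc_add (enc_scaleT 149 400 h1) (enc_rat _ 1 40000)) (enc_mul (enc_norm (bx1q0_3.enc h1 h2)) (enc_norm (enc_subr 441 20000 (enc_scaleT 13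 200 h1))))) (enc_add (enc_add (enc_scaleT 1117 3000 h1) (enc_rat _ 11 300000)) (enc_mul (enc_norm (bx1q0_3.enc h1 h2)) (enc_norm (enc_subr 791 30000 (enc_scaleT 19 150 h1))))))) (enc_case (enc_subr 11 50 h1) (enc_case (enc_subr 3 20 h1) (enc_add (enc_add (enc_scaleT 1861 5000 h1) (enc_rat _ 1 20000)) (enc_mul (enc_norm (bx1q0_3.enc h1 h2)) (enc_norm (enc_subr 311 10000 (enc_scaleT 87 500 h1))))) (enc_add (enc_add (enc_scaleT 2603 7000 h1) (enc_rat _ 71 700000)) (enc_mul (enc_norm (bx1q0_3.enc h1 h2)) (enc_norm (enc_subr 263 7000 (enc_scaleT 38 175 h1)))))) (enc_case (enc_subr 33 100 h1) (enc_add (enc_add (enc_scaleT 4069 11000 h1) (enc_rat _ 53 100000)) (enc_mul (enc_norm (bx1q0_3.enc h1 h2)) (enc_norm (enc_subr 27 625 (enc_scaleT 267 1100 h1))))) (enc_add (enc_add (enc_scaleT 2587 17000 h1) (enc_rat _ 123049 1700000)) (enc_mul (enc_norm (bx1q0_3.enc h1 h2)) (enc_norm (enc_subr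 4173 85000 (enc_scaleT 443 1700 h1))))))))))⟩
noncomputable def l1q0 : Fn2 := ⟨_, _, fun h1 h2 => (enc_norm (enc_mul (cv1m.enc h1) (bx1q0.enc h1 h2)))⟩
noncomputable def bd1q0_3 : Fn2 := ⟨_, _, fun h1 h2 => (enc_subr 9743 10000 h2)⟩
noncomputable def bd1q0 : Fn2 := ⟨_, _, fun h1 h2 => (enc_norm (enc_case (enc_subr 33 2048 h1) (enc_case (enc_subr 1 100 h1) (enc_sub (enc_mul (enc_norm (bd1q0_3.enc h1 h2)) (enc_scaleT 18 5 h1)) (enc_scaleT 277 10 h1)) (enc_add (enc_subr 97 1565000 (enc_neg (enc_scaleT 216704 7825 h1))) (enc_mul (enc_norm (bd1q0_3.enc h1 h2)) (enc_norm (enc_add (enc_scaleT 1024 313 h1) (enc_rat _ 257 78250)))))) (enc_case (enc_subr 2613 100000 h1) (enc_add (enc_sub (enc_rat _ 3463 35615000) (enc_scaleT 592000 21369 h1)) (enc_mul (enc_norm (bd1q0_3.enc h1 h2)) (enc_norm (enc_add (enc_scaleT 160000 64107 h1) (enc_rat _ 337289 21369000))))) (enc_case (enc_subr 779 25000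 h1) (enc_add (enc_subr 2653 5030 (enc_neg (enc_scaleT 3780 503 h1))) (enc_mul (enc_norm (bd1q0_3.enc h1 h2)) (enc_norm (enc_add (enc_scaleT 600 503 h1) (enc_rat _ 5013 100600))))) (enc_add (enc_subr 31134277 58605000 (enc_neg (enc_scaleT 86645 11721 h1))) (enc_mul (enc_norm (bd1q0_3.enc h1 h2)) (enc_norm (enc_sub (enc_rat _ 521159 5860500) (enc_scaleT 725 11721 h1)))))))))⟩
noncomputable def kc1q0 : Fn2 := ⟨_, _, fun h1 h2 => (enc_norm (enc_mul (cv1m.enc h1) (bd1q0.enc h1 h2)))⟩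
noncomputable def bf1q1_3 : Fn2 := ⟨_, _, fun h1 h2 => (enc_subr 9743 10000 h2)⟩
noncomputable def bf1q1_9 : Fn2 := ⟨_, _, fun h1 h2 => (enc_subr 5931 3125 (enc_scaleT 34291 12500 h1))⟩
noncomputable def bf1q1 : Fn2 := ⟨_, _, fun h1 h2 => (enc_norm (enc_case (enc_subr 7 8 h1) (enc_add (bf1q1_9.enc h1 h2) (enc_mul (enc_norm (bf1q1_3.enc h1 h2)) (enc_norm (enc_sub (enc_rat _ 193 400) (enc_scaleT 219 250 h1))))) (enc_add (bf1q1_9.enc h1 h2) (enc_mul (enc_norm (bf1q1_3.enc h1 h2)) (enc_norm (enc_sub (enc_rat _ 4867 10000) (enc_scaleT 1101 1250 h1)))))))⟩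
noncomputable def kf1q1 : Fn2 := ⟨_, _, fun h1 h2 => (enc_norm (enc_mul (cv1m.enc h1) (bf1q1.enc h1 h2)))⟩
noncomputable def bx1q1_3 : Fn2 := ⟨_, _, fun h1 h2 => (enc_subr 9743 10000 h2)⟩
noncomputable def bx1q1 : Fn2 := ⟨_, _, fun h1 h2 => (enc_norm (enc_case (enc_subr 7 8 h1) (enc_add (enc_add (enc_scaleT 5543 37500 h1) (enc_rat _ 22369 300000)) (enc_mul (enc_norm (bx1q1_3.enc h1 h2)) (enc_norm (enc_subr 407 7500 (enc_scaleT 508 1875 h1))))) (enc_add (enc_add (enc_scaleT 359 2500 h1) (enc_rat _ 313 4000)) (enc_mul (enc_norm (bx1q1_3.enc h1 h2)) (enc_norm (enc_subr 517 10000 (enc_scaleT 67 250 h1)))))))⟩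
noncomputable def l1q1 : Fn2 := ⟨_, _, fun h1 h2 => (enc_norm (enc_mul (cv1m.enc h1) (bx1q1.enc h1 h2)))⟩
noncomputable def bd1q1 : Fn2 := ⟨_, _, fun h1 h2 => (enc_norm (enc_add (enc_subr 2659 5000 (enc_neg (enc_scaleT 9239 1250 h1))) (enc_mul (enc_norm (enc_subr 9743 10000 h2)) (enc_norm (enc_sub (enc_rat _ 31 125) (enc_scaleT 19 50 h1))))))⟩
noncomputable def kc1q1 : Fn2 := ⟨_, _, fun h1 h2 => (enc_norm (enc_mul (cv1m.enc h1) (bd1q1.enc h1 h2)))⟩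
noncomputable def xc12a : Fn1 := ⟨_, _, fun h1 => (enc_norm (enc_add (enc_scaleT 3 4 h1) (enc_scaleT 1 4 (enc_subr 1 2 (swg.enc (yag.enc h1))))))⟩
noncomputable def bf1q2_3 : Fn2 := ⟨_, _, fun h1 h2 => (enc_subr 9743 10000 h2)⟩
noncomputable def bf1q2 : Fn2 := ⟨_, _, fun h1 h2 => (enc_norm (enc_case (enc_subr 107 100 h1) (enc_case (enc_subr 25779 25000 h1) (enc_case (enc_subr 2081 2048 h1) (enc_add (enc_sub (enc_rat _ 112967 34375) (enc_scaleT 78592 34375 h1)) (enc_mul (enc_norm (bf1q2_3.enc h1 h2)) (enc_norm (enc_sub (enc_rat _ 22656 6875) (enc_scaleT 22656 6875 h1))))) (enc_add (enc_sub (enc_rat _ 31652387609 9629900000) (enc_scaleT 220224 96299 h1)) (enc_mul (enc_norm (bf1q2_3.enc h1 h2)) (enc_norm (enc_sub (enc_rat _ 3174415231 962990000) (enc_scaleT 317440 96299 h1)))))) (enc_case (enc_subr 21 20 h1) (enc_add (enc_sub (enc_rat _ 51600019 15700000) (enc_scaleT 359 157 h1))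 (enc_mul (enc_norm (bf1q2_3.enc h1 h2)) (enc_norm (enc_sub (enc_rat _ 2587507 785000) (enc_scaleT 1035 314 h1))))) (enc_add (enc_sub (enc_rat _ 657299 200000) (enc_scaleT 4573 2000 h1)) (enc_mul (enc_norm (bf1q2_3.enc h1 h2)) (enc_norm (enc_sub (enc_rat _ 65899 20000) (enc_scaleT 659 200 h1))))))) (enc_case (enc_subr 231 200 h1) (enc_case (enc_subr 577 500 h1) (enc_add (enc_sub (enc_rat _ 172543823 52500000) (enc_scaleT 1200439 525000 h1)) (enc_mul (enc_norm (bf1q2_3.enc h1 h2)) (enc_norm (enc_sub (enc_rat _ 9226823 2800000) (enc_scaleT 92269 28000 h1))))) (enc_add (enc_sub (enc_rat _ 20541 6250) (enc_scaleT 14291 6250 h1)) (enc_mul (enc_norm (bf1q2_3.enc h1 h2)) (enc_norm (enc_sub (enc_rat _ 6591 2000) (enc_scaleT 6591 2000 h1)))))) (enc_case (enc_subr 13 10 h1) (enc_add (enc_sub (enc_rat _ 47655351 14500000) (enc_scaleT 828883 362500 h1)) (enc_mul (enc_norm (bf1q2_3.enc h1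 h2)) (enc_norm (enc_sub (enc_rat _ 75393 23200) (enc_scaleT 188839 58000 h1))))) (enc_add (enc_sub (enc_rat _ 657309 200000) (enc_scaleT 45731 20000 h1)) (enc_mul (enc_norm (bf1q2_3.enc h1 h2)) (enc_norm (enc_sub (enc_rat _ 32291 10000) (enc_scaleT 81 25 h1)))))))))⟩
noncomputable def kfc12a : Fn2 := ⟨_, _, fun h1 h2 => (enc_norm (enc_mul (enc_norm (enc_add (enc_scaleT 3 4 h1) (enc_scaleT 1 4 (enc_subr 1 2 (swg.enc (yag.enc h1)))))) (bf1q2.enc (yag.enc h1) h2)))⟩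
noncomputable def bx1q2_3 : Fn2 := ⟨_, _, fun h1 h2 => (enc_subr 9743 10000 h2)⟩
noncomputable def bx1q2 : Fn2 := ⟨_, _, fun h1 h2 => (enc_norm (enc_case (enc_subr 107 100 h1) (enc_case (enc_subr 25779 25000 h1) (enc_case (enc_subr 2081 2048 h1) (enc_add (enc_sub (enc_rat _ 213248 103125) (enc_scaleT 213248 103125 h1)) (enc_mul (enc_norm (bx1q2_3.enc h1 h2)) (enc_norm (enc_subr 2304 6875 (enc_scaleT 2304 6875 h1))))) (enc_add (enc_sub (enc_rat _ 9964931491 4814950000) (enc_scaleT 199296 96299 h1)) (enc_mul (enc_norm (bx1q2_3.enc h1 h2)) (enc_norm (enc_subr 57785247 137570000 (enc_scaleT 5760 13757 h1)))))) (enc_case (enc_subr 21 20 h1) (enc_add (enc_sub (enc_rat _ 6498417 3140000) (enc_scaleT 3899 1884 h1)) (enc_mul (enc_norm (bx1q2_3.enc h1 h2)) (enc_norm (enc_subr 39039 78500 (enc_scaleT 155 314 h1))))) (enc_add (enc_sub (enc_rat _ 31111 20000) (enc_scaleT 79 50 h1)) (enc_mul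 (enc_norm (bx1q2_3.enc h1 h2)) (enc_norm (enc_subr 273 500 (enc_scaleT 27 50 h1))))))) (enc_case (enc_subr 231 200 h1) (enc_case (enc_subr 577 500 h1) (enc_add (enc_sub (enc_rat _ 130507519 84000000) (enc_scaleT 1325717 840000 h1)) (enc_mul (enc_norm (bx1q2_3.enc h1 h2)) (enc_norm (enc_subr 4549271 8400000 (enc_scaleT 45013 84000 h1))))) (enc_subr 2676217 10000000 (enc_scaleT 76813 1000000 (bx1q2_3.enc h1 h2)))) (enc_case (enc_subr 13 10 h1) (enc_add (enc_subr 13093613 7250000 (enc_scaleT 1931317 1450000 h1)) (enc_mul (enc_norm (bx1q2_3.enc h1 h2)) (enc_norm (enc_sub (enc_rat _ 4961 50000) (enc_scaleT 97 5000 h1))))) (enc_add (enc_subr 361309 200000 (enc_scaleT 26647 20000 h1)) (enc_mul (enc_norm (bx1q2_3.enc h1 h2)) (enc_norm (enc_sub (enc_rat _ 2117 20000) (enc_scaleT 49 2000 h1)))))))))⟩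
noncomputable def lc12a : Fn2 := ⟨_, _, fun h1 h2 => (enc_norm (enc_mul (enc_norm (enc_add (enc_scaleT 3 4 h1) (enc_scaleT 1 4 (enc_subr 1 2 (swg.enc (yag.enc h1)))))) (bx1q2.enc (yag.enc h1) h2)))⟩
noncomputable def bd1q2_3 : Fn2 := ⟨_, _, fun h1 h2 => (enc_subr 9743 10000 h2)⟩
noncomputable def bd1q2 : Fn2 := ⟨_, _, fun h1 h2 => (enc_norm (enc_case (enc_subr 577 500 h1) (enc_mul (enc_norm (bd1q2_3.enc h1 h2)) (enc_norm (enc_sub (enc_rat _ 10 77) (enc_scaleT 10 77 h1)))) (enc_case (enc_subr 231 200 h1) (enc_neg (enc_scaleT 1 50 (bd1q2_3.enc h1 h2))) (enc_add (enc_sub (enc_rat _ 77 230000) (enc_scaleT 1 3450 h1)) (enc_mul (enc_norm (bd1q2_3.enc h1 h2)) (enc_norm (enc_subr 269 5750 (enc_scaleT 8 345 h1))))))))⟩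
noncomputable def kcc12a : Fn2 := ⟨_, _, fun h1 h2 => (enc_norm (enc_mul (enc_norm (enc_add (enc_scaleT 3 4 h1) (enc_scaleT 1 4 (enc_subr 1 2 (swg.enc (yag.enc h1)))))) (bd1q2.enc (yag.enc h1) h2)))⟩
noncomputable def xc12b : Fn1 := ⟨_, _, fun h1 => (enc_norm (enc_scaleT 1 4 (enc_subr 1 2 (swg.enc h1))))⟩
noncomputable def kfc12b : Fn2 := ⟨_, _, fun h1 h2 => (enc_norm (enc_mul (enc_norm (enc_scaleT 1 4 (enc_subr 1 2 (swg.enc h1)))) (bf1q2.enc h1 h2)))⟩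
noncomputable def lc12b : Fn2 := ⟨_, _, fun h1 h2 => (enc_norm (enc_mul (enc_norm (enc_scaleT 1 4 (enc_subr 1 2 (swg.enc h1)))) (bx1q2.enc h1 h2)))⟩
noncomputable def kcc12b : Fn2 := ⟨_, _, fun h1 h2 => (enc_norm (enc_mul (enc_norm (enc_scaleT 1 4 (enc_subr 1 2 (swg.enc h1)))) (bd1q2.enc h1 h2)))⟩
noncomputable def cv1r : Fn1 := ⟨_, _, fun h1 => (enc_norm (enc_scaleT 1 4 (enc_subr 1 2 (swg.enc h1))))⟩
noncomputable def c3g : Fn1 := ⟨_, _, fun h1 => (enc_sqrtg (enc_sub (enc_pnc _ 3) (enc_scaleT 3 4 (enc_sq h1))))⟩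
noncomputable def kf1q3_4 : Fn2 := ⟨_, _, fun h1 h2 => (enc_subr 9743 10000 h2)⟩
noncomputable def kf1q3_51 : Fn2 := ⟨_, _, fun h1 h2 => (enc_scaleT 1 1250 (kf1q3_4.enc h1 h2))⟩
noncomputable def kf1q3 : Fn2 := ⟨_, _, fun h1 h2 => (enc_norm (enc_mul (cv1r.enc h1) (enc_norm (enc_case (enc_subr 987 500 h1) (enc_case (enc_subr 39 20 h1) (enc_case (enc_subr 193 100 h1) (enc_add (enc_subr 1636008 134375 (enc_scaleT 260423 43000 h1)) (enc_mul (enc_norm (kf1q3_4.enc h1 h2)) (enc_norm (enc_sub (enc_rat _ 359 107500) (enc_scaleT 9 4300 h1))))) (enc_sub (enc_subr 2435047 200000 (enc_scaleT 12113 2000 h1)) (enc_scaleT 7 10000 (kf1q3_4.enc h1 h2)))) (enc_case (enc_subr 49221 25000 h1) (enc_add (enc_subr 95571971 7850000 (enc_scaleT 5705 942 h1)) (enc_mul (enc_norm (kf1q3_4.enc h1 h2)) (enc_norm (enc_sub (enc_rat _ 15151 1570000) (enc_scaleT 5 942 h1))))) (enc_sub (enc_subr 52351003 4300000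 (enc_scaleT 3125 516 h1)) (kf1q3_51.enc h1 h2)))) (enc_case (enc_sub (enc_rat _ 154764337 1000000000) (c3g.enc h1)) (enc_case (enc_subr 4063 2048 h1) (enc_sub (enc_subr 3081608473 253100000 (enc_scaleT 383232 63275 h1)) (kf1q3_51.enc h1 h2)) (enc_add (enc_sub (enc_rat _ 36439167907 1293112300000) (enc_scaleT 11080000 12931123 (c3g.enc h1))) (enc_mul (enc_norm (kf1q3_4.enc h1 h2)) (enc_norm (enc_subr 9800627 80819518750 (enc_neg (enc_scaleT 40000 12931123 (c3g.enc h1)))))))) (enc_case (enc_sub (enc_rat _ 105307799 1000000000) (c3g.enc h1)) (enc_add (enc_sub (enc_rat _ 27852373907 989130760000) (enc_scaleT 21185000 24728269 (c3g.enc h1))) (enc_mul (enc_norm (kf1q3_4.enc h1 h2)) (enc_norm (enc_subr 141974891 494565380000 (enc_neg (enc_scaleT 50000 24728269 (c3g.enc h1))))))) (enc_case (enc_sub (enc_rat _ 54765409 1000000000) (c3g.enc h1)) (enc_add (enc_sub (enc_rat _ 14231669733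 505423900000) (enc_scaleT 4330000 5054239 (c3g.enc h1))) (enc_mul (enc_norm (kf1q3_4.enc h1 h2)) (enc_norm (enc_subr 1315511 15794496875 (enc_neg (enc_scaleT 20000 5054239 (c3g.enc h1))))))) (enc_add (enc_sub (enc_rat _ 88 3125) (enc_scaleT 46920000 54765409 (c3g.enc h1))) (enc_mul (enc_norm (kf1q3_4.enc h1 h2)) (enc_norm (enc_subr 1 5000 (enc_neg (enc_scaleT 100000 54765409 (c3g.enc h1))))))))))))))⟩
noncomputable def l1q3_4 : Fn2 := ⟨_, _, fun h1 h2 => (enc_subr 9743 10000 h2)⟩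
noncomputable def l1q3 : Fn2 := ⟨_, _, fun h1 h2 => (enc_norm (enc_mul (cv1r.enc h1) (enc_norm (enc_case (enc_subr 987 500 h1) (enc_case (enc_subr 39 20 h1) (enc_case (enc_subr 193 100 h1) (enc_add (enc_subr 3884593 2150000 (enc_scaleT 28649 21500 h1)) (enc_mul (enc_norm (l1q3_4.enc h1 h2)) (enc_norm (enc_sub (enc_rat _ 44413 430000) (enc_scaleT 49 2150 h1))))) (enc_add (enc_subr 361353 200000 (enc_scaleT 533 400 h1)) (enc_mul (enc_norm (l1q3_4.enc h1 h2)) (enc_norm (enc_sub (enc_rat _ 979 10000) (enc_scaleT 1 50 h1)))))) (enc_case (enc_subr 49221 25000 h1) (enc_add (enc_subr 28375473 15700000 (enc_scaleT 837 628 h1)) (enc_mul (enc_norm (l1q3_4.enc h1 h2)) (enc_norm (enc_sub (enc_rat _ 157473 1570000) (enc_scaleT 10 471 h1))))) (enc_add (enc_subr 7759713 4300000 (enc_scaleT 229 172 h1)) (enc_mul (enc_norm (l1q3_4.enc h1 h2)) (enc_norm (enc_sub (enc_rat _ 20781 215000) (enc_scaleT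 5 258 h1))))))) (enc_case (enc_sub (enc_rat _ 154764337 1000000000) (c3g.enc h1)) (enc_case (enc_subr 4063 2048 h1) (enc_add (enc_subr 457592763 253100000 (enc_scaleT 84352 63275 h1)) (enc_mul (enc_norm (l1q3_4.enc h1 h2)) (enc_norm (enc_sub (enc_rat _ 311099 3163750) (enc_scaleT 256 12655 h1))))) (enc_add (enc_sub (enc_rat _ 5992528448963 6465561500000) (enc_scaleT 5308000 12931123 (c3g.enc h1))) (enc_mul (enc_norm (l1q3_4.enc h1 h2)) (enc_norm (enc_subr 7954450179 323278075000 (enc_scaleT 4880000 12931123 (c3g.enc h1))))))) (enc_case (enc_sub (enc_rat _ 105307799 1000000000) (c3g.enc h1)) (enc_add (enc_sub (enc_rat _ 1145950996547 1236413450000) (enc_scaleT 10150000 24728269 (c3g.enc h1))) (enc_mul (enc_norm (l1q3_4.enc h1 h2)) (enc_norm (enc_subr 488984847 19782615200 (enc_scaleT 9350000 24728269 (c3g.enc h1)))))) (enc_case (enc_sub (enc_rat _ 54765409 1000000000) (c3g.enc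 h1)) (enc_add (enc_sub (enc_rat _ 1171096124479 1263559750000) (enc_scaleT 2074000 5054239 (c3g.enc h1))) (enc_mul (enc_norm (l1q3_4.enc h1 h2)) (enc_norm (enc_subr 12481888719 505423900000 (enc_scaleT 1910000 5054239 (c3g.enc h1)))))) (enc_add (enc_sub (enc_rat _ 92683 100000) (enc_scaleT 22480000 54765409 (c3g.enc h1))) (enc_mul (enc_norm (l1q3_4.enc h1 h2)) (enc_norm (enc_subr 123 5000 (enc_scaleT 200000 531703 (c3g.enc h1)))))))))))))⟩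
noncomputable def kc1q3_4 : Fn2 := ⟨_, _, fun h1 h2 => (enc_subr 9743 10000 h2)⟩
noncomputable def kc1q3 : Fn2 := ⟨_, _, fun h1 h2 => (enc_norm (enc_mul (cv1r.enc h1) (enc_norm (enc_case (enc_subr 197 100 h1) (enc_case (enc_subr 49221 25000 h1) (enc_subr 1 10000 (enc_mul (enc_norm (kc1q3_4.enc h1 h2)) (enc_norm (enc_subr 23048 488375 (enc_scaleT 275 11721 h1))))) (enc_sub (enc_neg (enc_rat _ 1 10000)) (enc_scaleT 1 1000 (kc1q3_4.enc h1 h2)))) (enc_case (enc_subr 4063 2048 h1) (enc_subr 1 10000 (enc_mul (enc_norm (kc1q3_4.enc h1 h2)) (enc_norm (enc_subr 4063 28440 (enc_scaleT 256 3555 h1))))) (enc_add (enc_sub (enc_rat _ 629217 10000) (enc_scaleT 3932612500 13713747 (c3g.enc h1))) (enc_mul (enc_norm (kc1q3_4.enc h1 h2)) (enc_norm (enc_sub (enc_rat _ 1 1000) (enc_scaleT 62500 13713747 (c3g.enc h1)))))))))))⟩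
noncomputable def cv2m : Fn1 := ⟨_, _, fun h1 => (enc_norm (enc_add (enc_scaleT 7 20 (c1g.enc h1)) (enc_scaleT 13 20 (enc_add (swg.enc h1) (enc_rat _ 1 2)))))⟩
noncomputable def bf2q0_3 : Fn2 := ⟨_, _, fun h1 h2 => (enc_subr 9743 10000 h2)⟩
noncomputable def bf2q0_13 : Fn2 := ⟨_, _, fun h1 h2 => (enc_sub (enc_pnc _ 1) (enc_scaleT 47 25 h1))⟩
noncomputable def bf2q0 : Fn2 := ⟨_, _, fun h1 h2 => (enc_norm (enc_case (enc_subr 779 25000 h1) (enc_case (enc_subr 27 2000 h1) (enc_case (enc_subr 1 200 h1) (enc_add (bf2q0_13.enc h1 h2) (enc_mul (enc_norm (bf2q0_3.enc h1 h2)) (enc_scaleT 568 25 h1))) (enc_case (enc_subr 21 2000 h1) (enc_add (bf2q0_13.enc h1 h2) (enc_mul (enc_norm (bf2q0_3.enc h1 h2)) (enc_norm (enc_add (enc_scaleT 1247 55 h1) (enc_rat _ 13 55000))))) (enc_add (enc_sub (enc_rat _ 206811 200000) (enc_scaleT 1537 300 h1)) (enc_mul (enc_norm (bf2q0_3.enc h1 h2)) (enc_norm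 (enc_sub (enc_rat _ 4941 20000) (enc_scaleT 5 6 h1))))))) (enc_case (enc_subr 33 2048 h1) (enc_add (enc_sub (enc_rat _ 922383 892000) (enc_scaleT 85696 16725 h1)) (enc_mul (enc_norm (bf2q0_3.enc h1 h2)) (enc_norm (enc_sub (enc_rat _ 276741 1115000) (enc_scaleT 1024 1115 h1))))) (enc_case (enc_subr 1 40 h1) (enc_add (enc_sub (enc_rat _ 1881979 1820000) (enc_scaleT 291392 56875 h1)) (enc_mul (enc_norm (bf2q0_3.enc h1 h2)) (enc_norm (enc_sub (enc_rat _ 225759 910000) (enc_scaleT 10368 11375 h1))))) (enc_add (enc_sub (enc_rat _ 206819 200000) (enc_scaleT 41 8 h1)) (enc_mul (enc_norm (bf2q0_3.enc h1 h2)) (enc_norm (enc_sub (enc_rat _ 34667 140000) (enc_scaleT 25 28 h1)))))))) (enc_case (enc_subr 1 10 h1) (enc_case (enc_subr 1 20 h1) (enc_add (enc_sub (enc_rat _ 48703927 47100000) (enc_scaleT 9653 1884 h1)) (enc_mul (enc_norm (bf2q0_3.enc h1 h2)) (enc_norm (enc_sub (enc_rat _ 38871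 157000) (enc_scaleT 140 157 h1))))) (enc_case (enc_subr 7 100 h1) (enc_add (enc_sub (enc_rat _ 103407 100000) (enc_scaleT 1281 250 h1)) (enc_mul (enc_norm (bf2q0_3.enc h1 h2)) (enc_norm (enc_sub (enc_rat _ 987 4000) (enc_scaleT 7 8 h1))))) (enc_add (enc_sub (enc_rat _ 155107 150000) (enc_scaleT 15371 3000 h1)) (enc_mul (enc_norm (bf2q0_3.enc h1 h2)) (enc_norm (enc_sub (enc_rat _ 2457 10000) (enc_scaleT 43 50 h1))))))) (enc_case (enc_subr 11 50 h1) (enc_case (enc_subr 3 20 h1) (enc_add (enc_sub (enc_rat _ 51703 50000) (enc_scaleT 25619 5000 h1)) (enc_mul (enc_norm (bf2q0_3.enc h1 h2)) (enc_norm (enc_sub (enc_rat _ 2441 10000) (enc_scaleT 211 250 h1))))) (enc_add (enc_sub (enc_rat _ 723833 700000) (enc_scaleT 17933 3500 h1)) (enc_mul (enc_norm (bf2q0_3.enc h1 h2)) (enc_norm (enc_sub (enc_rat _ 677 2800) (enc_scaleT 29 35 h1)))))) (enc_case (enc_subr 33 100 h1) (enc_add (enc_sub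 (enc_rat _ 103407 100000) (enc_scaleT 28181 5500 h1)) (enc_mul (enc_norm (bf2q0_3.enc h1 h2)) (enc_norm (enc_sub (enc_rat _ 2391 10000) (enc_scaleT 449 550 h1))))) (enc_add (enc_sub (enc_rat _ 1757889 1700000) (enc_scaleT 10888 2125 h1)) (enc_mul (enc_norm (bf2q0_3.enc h1 h2)) (enc_norm (enc_sub (enc_rat _ 237 1000) (enc_scaleT 81 100 h1))))))))))⟩
noncomputable def kf2q0 : Fn2 := ⟨_, _, fun h1 h2 => (enc_norm (enc_mul (cv2m.enc h1) (bf2q0.enc h1 h2)))⟩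
noncomputable def bx2q0_3 : Fn2 := ⟨_, _, fun h1 h2 => (enc_subr 9743 10000 h2)⟩
noncomputable def bx2q0 : Fn2 := ⟨_, _, fun h1 h2 => (enc_norm (enc_case (enc_subr 779 25000 h1) (enc_case (enc_subr 27 2000 h1) (enc_case (enc_subr 1 200 h1) (enc_sub (enc_scaleT 91 100 h1) (enc_mul (enc_norm (bx2q0_3.enc h1 h2)) (enc_scaleT 99 50 h1))) (enc_case (enc_subr 21 2000 h1) (enc_add (enc_add (enc_scaleT 97 110 h1) (enc_rat _ 31 220000)) (enc_mul (enc_norm (bx2q0_3.enc h1 h2)) (enc_norm (enc_subr 1699 110000 (enc_scaleT 61 55 h1))))) (enc_add (enc_add (enc_scaleT 257 300 h1) (enc_rat _ 81 200000)) (enc_mul (enc_norm (bx2q0_3.enc h1 h2)) (enc_norm (enc_subr 349 20000 (enc_scaleT 13 10 h1))))))) (enc_case (enc_subr 33 2048 h1) (enc_add (enc_add (enc_scaleT 4672 5575 h1) (enc_rat _ 14643 22300000)) (enc_mul (enc_norm (bx2q0_3.enc h1 h2)) (enc_norm (enc_subr 41249 2230000 (enc_scaleT 1536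 1115 h1))))) (enc_case (enc_subr 1 40 h1) (enc_add (enc_add (enc_scaleT 9536 11375 h1) (enc_rat _ 5931 9100000)) (enc_mul (enc_norm (bx2q0_3.enc h1 h2)) (enc_norm (enc_subr 8759 130000 (enc_scaleT 7168 1625 h1))))) (enc_add (enc_add (enc_scaleT 193 308 h1) (enc_rat _ 11443 1925000)) (enc_mul (enc_norm (bx2q0_3.enc h1 h2)) (enc_norm (enc_add (enc_scaleT 225 154 h1) (enc_rat _ 1227 192500)))))))) (enc_case (enc_subr 1 10 h1) (enc_case (enc_subr 1 20 h1) (enc_add (enc_add (enc_scaleT 393 628 h1) (enc_rat _ 23433 3925000)) (enc_mul (enc_norm (bx2q0_3.enc h1 h2)) (enc_norm (enc_add (enc_scaleT 235 157 h1) (enc_rat _ 8257 1570000))))) (enc_case (enc_subr 7 100 h1) (enc_add (enc_add (enc_scaleT 613 1000 h1) (enc_rat _ 661 100000)) (enc_mul (enc_norm (bx2q0_3.enc h1 h2)) (enc_norm (enc_add (enc_scaleT 207 200 h1) (enc_rat _ 567 20000))))) (enc_add (enc_add (enc_scaleT 197 375 h1) (enc_rat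 _ 239 18750)) (enc_mul (enc_norm (bx2q0_3.enc h1 h2)) (enc_norm (enc_add (enc_scaleT 31 50 h1) (enc_rat _ 287 5000))))))) (enc_case (enc_subr 11 50 h1) (enc_case (enc_subr 3 20 h1) (enc_add (enc_add (enc_scaleT 423 1000 h1) (enc_rat _ 1149 50000)) (enc_mul (enc_norm (bx2q0_3.enc h1 h2)) (enc_norm (enc_add (enc_scaleT 3 10 h1) (enc_rat _ 447 5000))))) (enc_add (enc_add (enc_scaleT 2131 7000 h1) (enc_rat _ 3567 87500)) (enc_mul (enc_norm (bx2q0_3.enc h1 h2)) (enc_norm (enc_add (enc_scaleT 9 140 h1) (enc_rat _ 8733 70000)))))) (enc_case (enc_subr 33 100 h1) (enc_add (enc_add (enc_scaleT 1631 11000 h1) (enc_rat _ 939 12500)) (enc_mul (enc_norm (bx2q0_3.enc h1 h2)) (enc_norm (enc_sub (enc_rat _ 323 2000) (enc_scaleT 113 1100 h1))))) (enc_add (enc_sub (enc_rat _ 314901 1700000) (enc_scaleT 394 2125 h1)) (enc_mul (enc_norm (bx2q0_3.enc h1 h2)) (enc_norm (enc_sub (enc_rat _ 16951 85000)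 (enc_scaleT 37 170 h1))))))))))⟩
noncomputable def l2q0 : Fn2 := ⟨_, _, fun h1 h2 => (enc_norm (enc_mul (cv2m.enc h1) (bx2q0.enc h1 h2)))⟩
noncomputable def bd2q0_3 : Fn2 := ⟨_, _, fun h1 h2 => (enc_subr 9743 10000 h2)⟩
noncomputable def bd2q0 : Fn2 := ⟨_, _, fun h1 h2 => (enc_norm (enc_case (enc_subr 33 2048 h1) (enc_case (enc_subr 1 100 h1) (enc_sub (enc_neg (enc_scaleT 151 4 h1)) (enc_mul (enc_norm (bd2q0_3.enc h1 h2)) (enc_scaleT 18 5 h1))) (enc_add (enc_sub (enc_rat _ 773753 3130000) (enc_scaleT 488832 7825 h1)) (enc_mul (enc_norm (bd2q0_3.enc h1 h2)) (enc_norm (enc_subr 1 78250 (enc_neg (enc_scaleT 5632 1565 h1))))))) (enc_case (enc_subr 2613 100000 h1) (enc_add (enc_sub (enc_rat _ 52876939 213690000) (enc_scaleT 4005760 64107 h1)) (enc_mul (enc_norm (bd2q0_3.enc h1 h2)) (enc_norm (enc_subr 138451 10684500 (enc_neg (enc_scaleT 179200 64107 h1)))))) (enc_case (enc_subr 779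 25000 h1) (enc_add (enc_sub (enc_rat _ 6223 25150) (enc_scaleT 31430 503 h1)) (enc_mul (enc_norm (bd2q0_3.enc h1 h2)) (enc_norm (enc_subr 24967 503000 (enc_neg (enc_scaleT 700 503 h1)))))) (enc_add (enc_sub (enc_rat _ 28987807 117210000) (enc_scaleT 1464685 23442 h1)) (enc_mul (enc_norm (bd2q0_3.enc h1 h2)) (enc_norm (enc_subr 68931 781400 (enc_neg (enc_scaleT 600 3907 h1))))))))))⟩
noncomputable def kc2q0 : Fn2 := ⟨_, _, fun h1 h2 => (enc_norm (enc_mul (cv2m.enc h1) (bd2q0.enc h1 h2)))⟩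
noncomputable def bf2q1_14 : Fn2 := ⟨_, _, fun h1 h2 => (enc_mul (enc_norm (enc_subr 9743 10000 h2)) (enc_norm (enc_sub (enc_rat _ 2 625) (enc_scaleT 7 1250 h1))))⟩
noncomputable def bf2q1 : Fn2 := ⟨_, _, fun h1 h2 => (enc_norm (enc_case (enc_subr 7 8 h1) (enc_add (enc_subr 40421 60000 (enc_scaleT 40681 37500 h1)) (bf2q1_14.enc h1 h2)) (enc_add (enc_subr 33683 50000 (enc_scaleT 678 625 h1)) (bf2q1_14.enc h1 h2))))⟩
noncomputable def kf2q1 : Fn2 := ⟨_, _, fun h1 h2 => (enc_norm (enc_mul (cv2m.enc h1) (bf2q1.enc h1 h2)))⟩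
noncomputable def bx2q1_3 : Fn2 := ⟨_, _, fun h1 h2 => (enc_subr 9743 10000 h2)⟩
noncomputable def bx2q1 : Fn2 := ⟨_, _, fun h1 h2 => (enc_norm (enc_case (enc_subr 7 8 h1) (enc_add (enc_sub (enc_rat _ 55867 300000) (enc_scaleT 7027 37500 h1)) (enc_mul (enc_norm (bx2q1_3.enc h1 h2)) (enc_norm (enc_sub (enc_rat _ 3523 15000) (enc_scaleT 541 1875 h1))))) (enc_add (enc_sub (enc_rat _ 18627 100000) (enc_scaleT 2343 12500 h1)) (enc_mul (enc_norm (bx2q1_3.enc h1 h2)) (enc_norm (enc_sub (enc_rat _ 2477 10000) (enc_scaleT 379 1250 h1)))))))⟩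
noncomputable def l2q1 : Fn2 := ⟨_, _, fun h1 h2 => (enc_norm (enc_mul (cv2m.enc h1) (bx2q1.enc h1 h2)))⟩
noncomputable def bd2q1 : Fn2 := ⟨_, _, fun h1 h2 => (enc_norm (enc_add (enc_sub (enc_rat _ 1237 5000) (enc_scaleT 312407 5000 h1)) (enc_mul (enc_norm (enc_subr 9743 10000 h2)) (enc_norm (enc_subr 24 125 (enc_scaleT 27 500 h1))))))⟩
noncomputable def kc2q1 : Fn2 := ⟨_, _, fun h1 h2 => (enc_norm (enc_mul (cv2m.enc h1) (bd2q1.enc h1 h2)))⟩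
noncomputable def xc22a : Fn1 := ⟨_, _, fun h1 => (enc_norm (enc_add (enc_scaleT 7 20 h1) (enc_scaleT 13 20 (enc_subr 1 2 (swg.enc (yag.enc h1))))))⟩
noncomputable def bf2q2_3 : Fn2 := ⟨_, _, fun h1 h2 => (enc_subr 9743 10000 h2)⟩
noncomputable def bf2q2 : Fn2 := ⟨_, _, fun h1 h2 => (enc_norm (enc_case (enc_subr 21 20 h1) (enc_case (enc_subr 2081 2048 h1) (enc_add (enc_sub (enc_rat _ 39583 9375) (enc_scaleT 30208 9375 h1)) (enc_mul (enc_norm (bf2q2_3.enc h1 h2)) (enc_norm (enc_subr 128 20625 (enc_scaleT 128 20625 h1))))) (enc_case (enc_subr 25779 25000 h1) (enc_add (enc_sub (enc_rat _ 5082133199 1203737500) (enc_scaleT 310272 96299 h1)) (enc_scaleT 1 10000 (bf2q2_3.enc h1 h2))) (enc_add (enc_sub (enc_rat _ 66291823 15700000) (enc_scaleT 6071 1884 h1)) (enc_mul (enc_norm (bf2q2_3.enc h1 h2)) (enc_norm (enc_subr 2109 392500 (enc_scaleT 5 942 h1))))))) (enc_case (enc_subr 231 200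 h1) (enc_case (enc_subr 107 100 h1) (enc_add (enc_sub (enc_rat _ 422199 100000) (enc_scaleT 1611 500 h1)) (enc_mul (enc_norm (bf2q2_3.enc h1 h2)) (enc_norm (enc_subr 101 20000 (enc_scaleT 1 200 h1))))) (enc_add (enc_sub (enc_rat _ 7177597 1700000) (enc_scaleT 6847 2125 h1)) (enc_mul (enc_norm (bf2q2_3.enc h1 h2)) (enc_norm (enc_subr 591 170000 (enc_scaleT 3 850 h1)))))) (enc_case (enc_subr 13 10 h1) (enc_add (enc_sub (enc_rat _ 3061051 725000) (enc_scaleT 46721 14500 h1)) (enc_mul (enc_norm (bf2q2_3.enc h1 h2)) (enc_norm (enc_subr 981 290000 (enc_scaleT 1 290 h1))))) (enc_add (enc_sub (enc_rat _ 844431 200000) (enc_scaleT 64443 20000 h1)) (enc_mul (enc_norm (bf2q2_3.enc h1 h2)) (enc_norm (enc_subr 7 2500 (enc_scaleT 3 1000 h1)))))))))⟩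
noncomputable def kfc22a : Fn2 := ⟨_, _, fun h1 h2 => (enc_norm (enc_mul (enc_norm (enc_add (enc_scaleT 7 20 h1) (enc_scaleT 13 20 (enc_subr 1 2 (swg.enc (yag.enc h1)))))) (bf2q2.enc (yag.enc h1) h2)))⟩
noncomputable def bx2q2_3 : Fn2 := ⟨_, _, fun h1 h2 => (enc_subr 9743 10000 h2)⟩
noncomputable def bx2q2 : Fn2 := ⟨_, _, fun h1 h2 => (enc_norm (enc_case (enc_subr 21 20 h1) (enc_case (enc_subr 2081 2048 h1) (enc_add (enc_sub (enc_rat _ 2112 3125) (enc_scaleT 2112 3125 h1)) (enc_mul (enc_norm (bx2q2_3.enc h1 h2)) (enc_norm (enc_subr 17408 20625 (enc_scaleT 17408 20625 h1))))) (enc_case (enc_subr 25779 25000 h1) (enc_add (enc_sub (enc_rat _ 6502305389 9629900000) (enc_scaleT 65024 96299 h1)) (enc_mul (enc_norm (bx2q2_3.enc h1 h2)) (enc_norm (enc_subr 57592649 68785000 (enc_scaleT 11520 13757 h1))))) (enc_add (enc_sub (enc_rat _ 2652101 3925000) (enc_scaleT 1273 1884 h1)) (enc_mul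 (enc_norm (bx2q2_3.enc h1 h2)) (enc_norm (enc_subr 16457 19625 (enc_scaleT 395 471 h1))))))) (enc_case (enc_subr 231 200 h1) (enc_case (enc_subr 107 100 h1) (enc_add (enc_sub (enc_rat _ 2106 3125) (enc_scaleT 337 500 h1)) (enc_mul (enc_norm (bx2q2_3.enc h1 h2)) (enc_norm (enc_subr 3297 4000 (enc_scaleT 33 40 h1))))) (enc_add (enc_sub (enc_rat _ 572297 850000) (enc_scaleT 1431 2125 h1)) (enc_mul (enc_norm (bx2q2_3.enc h1 h2)) (enc_norm (enc_subr 138357 170000 (enc_scaleT 693 850 h1)))))) (enc_case (enc_subr 13 10 h1) (enc_add (enc_subr 570163 362500 (enc_scaleT 9217 7250 h1)) (enc_mul (enc_norm (bx2q2_3.enc h1 h2)) (enc_norm (enc_subr 45579 58000 (enc_scaleT 1147 1450 h1))))) (enc_add (enc_subr 157337 100000 (enc_scaleT 12717 10000 h1)) (enc_mul (enc_norm (bx2q2_3.enc h1 h2)) (enc_norm (enc_subr 7767 10000 (enc_scaleT 98 125 h1)))))))))⟩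
noncomputable def lc22a : Fn2 := ⟨_, _, fun h1 h2 => (enc_norm (enc_mul (enc_norm (enc_add (enc_scaleT 7 20 h1) (enc_scaleT 13 20 (enc_subr 1 2 (swg.enc (yag.enc h1)))))) (bx2q2.enc (yag.enc h1) h2)))⟩
noncomputable def bd2q2_3 : Fn2 := ⟨_, _, fun h1 h2 => (enc_subr 9743 10000 h2)⟩
noncomputable def bd2q2 : Fn2 := ⟨_, _, fun h1 h2 => (enc_norm (enc_case (enc_subr 231 200 h1) (enc_add (enc_subr 16143 310 (enc_scaleT 16143 310 h1)) (enc_mul (enc_norm (bd2q2_3.enc h1 h2)) (enc_norm (enc_subr 59 155 (enc_scaleT 59 155 h1))))) (enc_add (enc_subr 11977067 230000 (enc_scaleT 89828 1725 h1)) (enc_mul (enc_norm (bd2q2_3.enc h1 h2)) (enc_norm (enc_subr 4827 11500 (enc_scaleT 143 345 h1)))))))⟩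
noncomputable def kcc22a : Fn2 := ⟨_, _, fun h1 h2 => (enc_norm (enc_mul (enc_norm (enc_add (enc_scaleT 7 20 h1) (enc_scaleT 13 20 (enc_subr 1 2 (swg.enc (yag.enc h1)))))) (bd2q2.enc (yag.enc h1) h2)))⟩
noncomputable def xc22b : Fn1 := ⟨_, _, fun h1 => (enc_norm (enc_scaleT 13 20 (enc_subr 1 2 (swg.enc h1))))⟩
noncomputable def kfc22b : Fn2 := ⟨_, _, fun h1 h2 => (enc_norm (enc_mul (enc_norm (enc_scaleT 13 20 (enc_subr 1 2 (swg.enc h1)))) (bf2q2.enc h1 h2)))⟩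
noncomputable def lc22b : Fn2 := ⟨_, _, fun h1 h2 => (enc_norm (enc_mul (enc_norm (enc_scaleT 13 20 (enc_subr 1 2 (swg.enc h1)))) (bx2q2.enc h1 h2)))⟩
noncomputable def kcc22b : Fn2 := ⟨_, _, fun h1 h2 => (enc_norm (enc_mul (enc_norm (enc_scaleT 13 20 (enc_subr 1 2 (swg.enc h1)))) (bd2q2.enc h1 h2)))⟩
noncomputable def cv2r : Fn1 := ⟨_, _, fun h1 => (enc_norm (enc_scaleT 13 20 (enc_subr 1 2 (swg.enc h1))))⟩
noncomputable def kf2q3_4 : Fn2 := ⟨_, _, fun h1 h2 => (enc_subr 9743 10000 h2)⟩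
noncomputable def kf2q3 : Fn2 := ⟨_, _, fun h1 h2 => (enc_norm (enc_mul (cv2r.enc h1) (enc_norm (enc_case (enc_subr 987 500 h1) (enc_case (enc_subr 39 20 h1) (enc_case (enc_subr 193 100 h1) (enc_add (enc_sub (enc_rat _ 53542479 2150000) (enc_scaleT 136313 10750 h1)) (enc_mul (enc_norm (kf2q3_4.enc h1 h2)) (enc_norm (enc_sub (enc_rat _ 1216457 53750) (enc_scaleT 12933 860 h1))))) (enc_add (enc_sub (enc_rat _ 1245147 50000) (enc_scaleT 317 25 h1)) (enc_mul (enc_norm (kf2q3_4.enc h1 h2)) (enc_norm (enc_sub (enc_rat _ 452891 20000) (enc_scaleT 3009 200 h1)))))) (enc_case (enc_subr 49221 25000 h1) (enc_add (enc_sub (enc_rat _ 195495229 7850000) (enc_scaleT 11945 942 h1)) (enc_mul (enc_norm (kf2q3_4.enc h1 h2)) (enc_norm (enc_sub (enc_rat _ 17796463 785000) (enc_scaleT 14185 942 h1))))) (enc_add (enc_sub (enc_rat _ 107084573 4300000) (enc_scaleT 2181 172 h1)) (enc_mul (enc_norm (kf2q3_4.enc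 h1 h2)) (enc_norm (enc_sub (enc_rat _ 2437043 107500) (enc_scaleT 1295 86 h1))))))) (enc_case (enc_sub (enc_rat _ 154764337 1000000000) (c3g.enc h1)) (enc_case (enc_subr 4063 2048 h1) (enc_add (enc_sub (enc_rat _ 252109999 10124000) (enc_scaleT 802304 63275 h1)) (enc_mul (enc_norm (kf2q3_4.enc h1 h2)) (enc_norm (enc_sub (enc_rat _ 287205317 12655000) (enc_scaleT 38144 2531 h1))))) (enc_add (enc_subr 2976801355413 6465561500000 (enc_scaleT 12238000 12931123 (c3g.enc h1))) (enc_mul (enc_norm (kf2q3_4.enc h1 h2)) (enc_norm (enc_subr 1223516647599 161639037500 (enc_scaleT 21560000 12931123 (c3g.enc h1))))))) (enc_case (enc_sub (enc_rat _ 105307799 1000000000) (c3g.enc h1)) (enc_add (enc_subr 2277090415469 4945653800000 (enc_scaleT 23405000 24728269 (c3g.enc h1))) (enc_mul (enc_norm (kf2q3_4.enc h1 h2)) (enc_norm (enc_subr 3752931757577 494565380000 (enc_scaleT 44250000 24728269 (c3g.enc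 h1)))))) (enc_case (enc_sub (enc_rat _ 54765409 1000000000) (c3g.enc h1)) (enc_add (enc_subr 1163554614833 2527119500000 (enc_scaleT 4784000 5054239 (c3g.enc h1))) (enc_mul (enc_norm (kf2q3_4.enc h1 h2)) (enc_norm (enc_subr 479331590139 63177987500 (enc_scaleT 8980000 5054239 (c3g.enc h1)))))) (enc_add (enc_subr 23021 50000 (enc_scaleT 51830000 54765409 (c3g.enc h1))) (enc_mul (enc_norm (kf2q3_4.enc h1 h2)) (enc_norm (enc_subr 75867 10000 (enc_scaleT 97000000 54765409 (c3g.enc h1)))))))))))))⟩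
noncomputable def l2q3_4 : Fn2 := ⟨_, _, fun h1 h2 => (enc_subr 9743 10000 h2)⟩
noncomputable def l2q3 : Fn2 := ⟨_, _, fun h1 h2 => (enc_norm (enc_mul (cv2r.enc h1) (enc_norm (enc_case (enc_subr 987 500 h1) (enc_case (enc_subr 39 20 h1) (enc_case (enc_subr 193 100 h1) (enc_add (enc_subr 3383113 2150000 (enc_scaleT 6836 5375 h1)) (enc_mul (enc_norm (l2q3_4.enc h1 h2)) (enc_norm (enc_subr 340851 430000 (enc_scaleT 3417 4300 h1))))) (enc_add (enc_subr 15739 10000 (enc_scaleT 159 125 h1)) (enc_mul (enc_norm (l2q3_4.enc h1 h2)) (enc_norm (enc_subr 16253 20000 (enc_scaleT 161 200 h1)))))) (enc_case (enc_subr 49221 25000 h1) (enc_add (enc_subr 494059 314000 (enc_scaleT 599 471 h1)) (enc_mul (enc_norm (l2q3_4.enc h1 h2)) (enc_norm (enc_subr 1313853 1570000 (enc_scaleT 385 471 h1))))) (enc_add (enc_subr 3381007 2150000 (enc_scaleT 164 129 h1)) (enc_mul (enc_norm (l2q3_4.enc h1 h2)) (enc_norm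 (enc_subr 356919 430000 (enc_scaleT 35 43 h1))))))) (enc_case (enc_sub (enc_rat _ 154764337 1000000000) (c3g.enc h1)) (enc_case (enc_subr 4063 2048 h1) (enc_add (enc_subr 198776151 126550000 (enc_scaleT 80384 63275 h1)) (enc_mul (enc_norm (l2q3_4.enc h1 h2)) (enc_norm (enc_subr 21779931 25310000 (enc_scaleT 10496 12655 h1))))) (enc_add (enc_add (enc_scaleT 2350000 12931123 (c3g.enc h1)) (enc_rat _ 588174944557 646556150000)) (enc_mul (enc_norm (l2q3_4.enc h1 h2)) (enc_norm (enc_subr 185504912789 129311230000 (enc_scaleT 130800000 12931123 (c3g.enc h1))))))) (enc_case (enc_sub (enc_rat _ 105307799 1000000000) (c3g.enc h1)) (enc_add (enc_add (enc_scaleT 4470000 24728269 (c3g.enc h1)) (enc_rat _ 562477898247 618206725000)) (enc_mul (enc_norm (l2q3_4.enc h1 h2)) (enc_norm (enc_subr 142776154241 98913076000 (enc_scaleT 251550000 24728269 (c3g.enc h1)))))) (enc_case (enc_sub (enc_rat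 _ 54765409 1000000000) (c3g.enc h1)) (enc_add (enc_add (enc_scaleT 244000 5054239 (c3g.enc h1)) (enc_rat _ 2334568480877 2527119500000)) (enc_mul (enc_norm (l2q3_4.enc h1 h2)) (enc_norm (enc_subr 728663707847 505423900000 (enc_scaleT 51330000 5054239 (c3g.enc h1)))))) (enc_add (enc_add (enc_scaleT 2650000 54765409 (c3g.enc h1)) (enc_rat _ 4619 5000)) (enc_mul (enc_norm (l2q3_4.enc h1 h2)) (enc_norm (enc_subr 2883 2000 (enc_scaleT 556000000 54765409 (c3g.enc h1)))))))))))))⟩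
noncomputable def kc2q3_4 : Fn2 := ⟨_, _, fun h1 h2 => (enc_subr 9743 10000 h2)⟩
noncomputable def kc2q3 : Fn2 := ⟨_, _, fun h1 h2 => (enc_norm (enc_mul (cv2r.enc h1) (enc_norm (enc_case (enc_subr 197 100 h1) (enc_case (enc_subr 49221 25000 h1) (enc_add (enc_subr 2034530503 39070000 (enc_scaleT 610360 11721 h1)) (enc_mul (enc_norm (kc2q3_4.enc h1 h2)) (enc_norm (enc_subr 1917893 1953500 (enc_scaleT 9250 11721 h1))))) (enc_add (enc_subr 15098549 290000 (enc_scaleT 1510 29 h1)) (enc_mul (enc_norm (kc2q3_4.enc h1 h2)) (enc_norm (enc_subr 32633 29000 (enc_scaleT 25 29 h1)))))) (enc_case (enc_subr 4063 2048 h1) (enc_add (enc_subr 14808319 284400 (enc_scaleT 925568 17775 h1)) (enc_mul (enc_norm (kc2q3_4.enc h1 h2)) (enc_norm (enc_subr 702101 711000 (enc_scaleT 2816 3555 h1))))) (enc_add (enc_add (enc_scaleT 2895700000 13713747 (c3g.enc h1)) (enc_rat _ 24519 5000)) (enc_mul (enc_norm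 (kc2q3_4.enc h1 h2)) (enc_norm (enc_subr 43 200 (enc_scaleT 2937500 806691 (c3g.enc h1)))))))))))⟩
noncomputable def cv3m : Fn1 := ⟨_, _, fun h1 => (enc_norm (enc_add (enc_scaleT 1929 2000 (enc_add (swg.enc h1) (enc_rat _ 1 2))) (enc_scaleT 71 2000 (c3g.enc h1))))⟩
noncomputable def esg : Fn1 := ⟨_, _, fun h1 => (enc_norm (enc_subn 1 (enc_add (enc_half h1) (gsg.enc h1))))⟩
noncomputable def kf3q0_4 : Fn2 := ⟨_, _, fun h1 h2 => (enc_subr 9743 10000 h2)⟩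
noncomputable def kf3q0_144 : Fn2 := ⟨_, _, fun h1 h2 => (enc_sub (enc_pnc _ 1) h1)⟩
noncomputable def kf3q0_145 : Fn2 := ⟨_, _, fun h1 h2 => (gsg.enc (enc_norm (kf3q0_144.enc h1 h2)))⟩
noncomputable def kf3q0_148 : Fn2 := ⟨_, _, fun h1 h2 => (enc_sub (enc_scaleT 3 4 (kf3q0_144.enc h1 h2)) (enc_half (kf3q0_145.enc h1 h2)))⟩
noncomputable def kf3q0_149 : Fn2 := ⟨_, _, fun h1 h2 => (esg.enc (enc_norm (kf3q0_144.enc h1 h2)))⟩
noncomputable def kf3q0_150 : Fn2 := ⟨_, _, fun h1 h2 => (kcg.enc (enc_norm (kf3q0_148.enc h1 h2)) h2)⟩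
noncomputable def kf3q0_158 : Fn2 := ⟨_, _, fun h1 h2 => (enc_sub (kf3q0_148.enc h1 h2) (enc_sub (enc_rat _ 1 4) (enc_scaleT 3 8 (enc_mul (enc_norm (kf3q0_144.enc h1 h2)) (enc_inv (kf3q0_145.enc h1 h2))))))⟩
noncomputable def kf3q0_167 : Fn2 := ⟨_, _, fun h1 h2 => (enc_mul (cv2m.enc h1) (bf2q0.enc h1 h2))⟩
noncomputable def kf3q0 : Fn2 := ⟨_, _, fun h1 h2 => (enc_norm (enc_case (enc_subr 33 2048 h1) (enc_mul (cv3m.enc h1) (enc_norm (enc_case (enc_subr 21 2000 h1) (enc_case (enc_subr 1 200 h1) (enc_add (enc_sub (enc_rat _ 9651 10000) (enc_scaleT 2687 500 h1)) (enc_mul (enc_norm (kf3q0_4.enc h1 h2)) (enc_norm (enc_sub (enc_rat _ 11 125) (enc_scaleT 1987 50 h1))))) (enc_add (enc_sub (enc_rat _ 1061603 1100000) (enc_scaleT 591 110 h1)) (enc_mul (enc_norm (kf3q0_4.enc h1 h2)) (enc_norm (enc_sub (enc_rat _ 9693 110000) (enc_scaleT 2187 55 h1)))))) (enc_case (enc_subr 27 2000 h1) (enc_add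 (enc_sub (enc_rat _ 9651 10000) (enc_scaleT 403 75 h1)) (enc_mul (enc_norm (kf3q0_4.enc h1 h2)) (enc_norm (enc_sub (enc_rat _ 177 2000) (enc_scaleT 199 5 h1))))) (enc_add (enc_sub (enc_rat _ 16813744629 17421875000) (enc_scaleT 280816862 52265625 h1)) (enc_mul (enc_norm (kf3q0_4.enc h1 h2)) (enc_norm (enc_sub (enc_rat _ 154075407 1742187500) (enc_scaleT 415986292 10453125 h1))))))))) (enc_case (enc_subr 779 25000 h1) (enc_add (kf3q0_167.enc h1 h2) (enc_mul (enc_norm (enc_mul (enc_norm (enc_sub (enc_wB0 (enc_mul h1 (enc_norm (enc_sub (enc_mul (enc_norm (kf3q0_158.enc h1 h2)) (enc_inv (kf3q0_149.enc h1 h2))) (kf3q0_150.enc h1 h2)))) (kf3q0_144.enc h1 h2) (kf3q0_145.enc h1 h2) (kf3q0_149.enc h1 h2) h1 (kf3q0_158.enc h1 h2) (kf3q0_150.enc h1 h2) rfl rfl rfl rfl) (kf3q0_167.enc h1 h2))) (enc_norm (enc_sub (cv3m.enc h1) (cv2m.enc h1))))) (enc_inv (enc_sub (enc_add (swg.enc h1) (enc_rat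 _ 1 2)) (cv2m.enc h1))))) (enc_mul (cv3m.enc h1) (enc_norm (enc_case (enc_subr 1 10 h1) (enc_case (enc_subr 1 20 h1) (enc_add (enc_sub (enc_rat _ 1389231657 1256000000) (enc_scaleT 441768057 62800000 h1)) (enc_mul (enc_norm (kf3q0_4.enc h1 h2)) (enc_norm (enc_subr 69030071 188400000 (enc_scaleT 10343471 9420000 h1))))) (enc_case (enc_subr 7 100 h1) (enc_add (enc_sub (enc_rat _ 44243 40000) (enc_scaleT 14069 2000 h1)) (enc_mul (enc_norm (kf3q0_4.enc h1 h2)) (enc_norm (enc_subr 293 800 (enc_scaleT 219 200 h1))))) (enc_add (enc_sub (enc_rat _ 165913 150000) (enc_scaleT 2638 375 h1)) (enc_mul (enc_norm (kf3q0_4.enc h1 h2)) (enc_norm (enc_subr 1097 3000 (enc_scaleT 163 150 h1))))))) (enc_case (enc_subr 11 50 h1) (enc_case (enc_subr 3 20 h1) (enc_add (enc_sub (enc_rat _ 55303 50000) (enc_scaleT 8793 1250 h1)) (enc_mul (enc_norm (kf3q0_4.enc h1 h2)) (enc_norm (enc_subr 228 625 (enc_scaleT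 539 500 h1))))) (enc_add (enc_sub (enc_rat _ 38713 35000) (enc_scaleT 24621 3500 h1)) (enc_mul (enc_norm (kf3q0_4.enc h1 h2)) (enc_norm (enc_subr 25437 70000 (enc_scaleT 187 175 h1)))))) (enc_case (enc_subr 33 100 h1) (enc_add (enc_sub (enc_rat _ 55303 50000) (enc_scaleT 77379 11000 h1)) (enc_mul (enc_norm (kf3q0_4.enc h1 h2)) (enc_norm (enc_subr 3613 10000 (enc_scaleT 233 220 h1))))) (enc_add (enc_sub (enc_rat _ 1880311 1700000) (enc_scaleT 59793 8500 h1)) (enc_mul (enc_norm (kf3q0_4.enc h1 h2)) (enc_norm (enc_subr 61043 170000 (enc_scaleT 1789 1700 h1)))))))))))))⟩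
noncomputable def qsg : Fn1 := ⟨_, _, fun h1 => (enc_norm (enc_mul (enc_norm (enc_sub (enc_pnc _ 1) (gsg.enc h1))) (enc_norm (enc_subn 1 (enc_nat 2 (gsg.enc h1))))))⟩
noncomputable def l3q0_4 : Fn2 := ⟨_, _, fun h1 h2 => (enc_subr 9743 10000 h2)⟩
noncomputable def l3q0_52 : Fn2 := ⟨_, _, fun h1 h2 => (enc_sq (enc_norm (l3q0_4.enc h1 h2)))⟩
noncomputable def l3q0_153 : Fn2 := ⟨_, _, fun h1 h2 => (enc_sub (enc_pnc _ 1) h1)⟩
noncomputable def l3q0_168 : Fn2 := ⟨_, _, fun h1 h2 => (enc_mul (cv2m.enc h1) (bx2q0.enc h1 h2))⟩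
noncomputable def l3q0 : Fn2 := ⟨_, _, fun h1 h2 => (enc_norm (enc_case (enc_subr 33 2048 h1) (enc_mul (cv3m.enc h1) (enc_norm (enc_case (enc_subr 21 2000 h1) (enc_case (enc_subr 1 200 h1) (enc_add (enc_add (enc_scaleT 121 100 h1) (enc_rat _ 473 20000)) (enc_mul (enc_norm (l3q0_4.enc h1 h2)) (enc_norm (enc_sub (enc_rat _ 329 5000) (enc_scaleT 109 25 h1))))) (enc_add (enc_add (enc_scaleT 331 275 h1) (enc_rat _ 521 22000)) (enc_mul (enc_norm (l3q0_4.enc h1 h2)) (enc_norm (enc_sub (enc_rat _ 729 11000) (enc_scaleT 49 11 h1)))))) (enc_case (enc_subr 27 2000 h1) (enc_add (enc_add (enc_scaleT 359 300 h1) (enc_rat _ 4751 200000)) (enc_mul (enc_norm (l3q0_4.enc h1 h2)) (enc_norm (enc_sub (enc_rat _ 281 4000) (enc_scaleT 29 6 h1))))) (enc_add (enc_add (enc_add (enc_scaleT 61157542 52265625 h1) (enc_rat _ 1680392369 69687500000)) (enc_mul (enc_norm (l3q0_4.enc h1 h2)) (enc_norm (enc_subr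 2558084329 3484375000 (enc_scaleT 572334712 10453125 h1))))) (enc_mul (l3q0_52.enc h1 h2) (enc_norm (enc_sub (enc_rat _ 4724154 3484375) (enc_scaleT 8398496 83625 h1))))))))) (enc_case (enc_subr 779 25000 h1) (enc_add (l3q0_168.enc h1 h2) (enc_mul (enc_norm (enc_mul (enc_norm (enc_sub (enc_sub (qsg.enc (enc_norm (l3q0_153.enc h1 h2))) (enc_mul (enc_norm (enc_nat 2 (enc_sub (l3q0_153.enc h1 h2) h2))) (enc_norm (enc_mul (esg.enc (enc_norm (l3q0_153.enc h1 h2))) (kcg.enc (enc_norm (enc_sub (enc_scaleT 3 4 (l3q0_153.enc h1 h2)) (enc_half (gsg.enc (enc_norm (l3q0_153.enc h1 h2)))))) h2))))) (l3q0_168.enc h1 h2))) (enc_norm (enc_sub (cv3m.enc h1) (cv2m.enc h1))))) (enc_inv (enc_sub (enc_add (swg.enc h1) (enc_rat _ 1 2)) (cv2m.enc h1))))) (enc_mul (cv3m.enc h1) (enc_norm (enc_case (enc_subr 1 10 h1) (enc_case (enc_subr 1 20 h1) (enc_add (enc_add (enc_add (enc_scaleT 14621791 37680000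 h1) (enc_rat _ 35372033 753600000)) (enc_mul (enc_norm (l3q0_4.enc h1 h2)) (enc_norm (enc_sub (enc_rat _ 22061269 62800000) (enc_scaleT 27342749 3140000 h1))))) (enc_mul (l3q0_52.enc h1 h2) (enc_norm (enc_sub (enc_rat _ 1 12560) (enc_scaleT 1 628 h1))))) (enc_case (enc_subr 7 100 h1) (enc_add (enc_add (enc_scaleT 777 2000 h1) (enc_rat _ 9383 200000)) (enc_mul (enc_norm (l3q0_4.enc h1 h2)) (enc_norm (enc_subr 1417 20000 (enc_neg (enc_scaleT 53 200 h1)))))) (enc_add (enc_add (enc_scaleT 581 1500 h1) (enc_rat _ 14099 300000)) (enc_mul (enc_norm (l3q0_4.enc h1 h2)) (enc_norm (enc_subr 2269 30000 (enc_neg (enc_scaleT 59 300 h1)))))))) (enc_case (enc_subr 11 50 h1) (enc_case (enc_subr 3 20 h1) (enc_add (enc_add (enc_scaleT 953 2500 h1) (enc_rat _ 4761 100000)) (enc_mul (enc_norm (l3q0_4.enc h1 h2)) (enc_norm (enc_subr 33 400 (enc_neg (enc_scaleT 16 125 h1)))))) (enc_add (enc_add (enc_scaleT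 321 875 h1) (enc_rat _ 34833 700000)) (enc_mul (enc_norm (l3q0_4.enc h1 h2)) (enc_norm (enc_subr 6519 70000 (enc_neg (enc_scaleT 2 35 h1))))))) (enc_case (enc_subr 33 100 h1) (enc_add (enc_add (enc_scaleT 3437 11000 h1) (enc_rat _ 6173 100000)) (enc_mul (enc_norm (l3q0_4.enc h1 h2)) (enc_norm (enc_subr 1081 10000 (enc_scaleT 3 275 h1))))) (enc_add (enc_sub (enc_rat _ 415627 1700000) (enc_scaleT 4103 17000 h1)) (enc_mul (enc_norm (l3q0_4.enc h1 h2)) (enc_norm (enc_subr 451 3400 (enc_scaleT 29 340 h1)))))))))))))⟩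
noncomputable def kc3q0_4 : Fn2 := ⟨_, _, fun h1 h2 => (enc_subr 9743 10000 h2)⟩
noncomputable def kc3q0_46 : Fn2 := ⟨_, _, fun h1 h2 => (enc_sub (enc_pnc _ 1) h1)⟩
noncomputable def kc3q0_47 : Fn2 := ⟨_, _, fun h1 h2 => (gsg.enc (enc_norm (kc3q0_46.enc h1 h2)))⟩
noncomputable def kc3q0_51 : Fn2 := ⟨_, _, fun h1 h2 => (esg.enc (enc_norm (kc3q0_46.enc h1 h2)))⟩
noncomputable def kc3q0_55 : Fn2 := ⟨_, _, fun h1 h2 => (gug.enc (enc_norm (kc3q0_46.enc h1 h2)))⟩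
noncomputable def kc3q0_57 : Fn2 := ⟨_, _, fun h1 h2 => (enc_mul (enc_norm (kc3q0_46.enc h1 h2)) (enc_inv (kc3q0_47.enc h1 h2)))⟩
noncomputable def kc3q0_58 : Fn2 := ⟨_, _, fun h1 h2 => (enc_scaleT 3 4 (kc3q0_57.enc h1 h2))⟩
noncomputable def kc3q0_88 : Fn2 := ⟨_, _, fun h1 h2 => (enc_mul (cv2m.enc h1) (bd2q0.enc h1 h2))⟩
noncomputable def kc3q0 : Fn2 := ⟨_, _, fun h1 h2 => (enc_norm (enc_case (enc_subr 33 2048 h1) (enc_mul (cv3m.enc h1) (enc_norm (enc_case (enc_subr 1 100 h1) (enc_add (enc_subr 399 1250 (enc_neg (enc_scaleT 10449 100 h1))) (enc_mul (enc_norm (kc3q0_4.enc h1 h2)) (enc_norm (enc_subr 891 200 (enc_neg (enc_scaleT 15671 10 h1)))))) (enc_add (enc_subr 15601037713 48906250000 (enc_neg (enc_scaleT 12777994478 122265625 h1))) (enc_mul (enc_norm (kc3q0_4.enc h1 h2)) (enc_norm (enc_subr 2177118479 489062500 (enc_neg (enc_scaleT 7665753396 4890625 h1))))))))) (enc_case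 (enc_subr 779 25000 h1) (enc_add (kc3q0_88.enc h1 h2) (enc_mul (enc_norm (enc_mul (enc_norm (enc_sub (enc_add (enc_sub (enc_neg (enc_add (enc_add (enc_rat _ 3 4) (enc_scaleT 3 2 (kc3q0_46.enc h1 h2))) (enc_scaleT 3 4 (enc_mul (enc_norm (kc3q0_57.enc h1 h2)) (kc3q0_55.enc h1 h2))))) (enc_wT (enc_mul (enc_norm (enc_sub (enc_mul (enc_norm (enc_mul (enc_norm (kc3q0_58.enc h1 h2)) (enc_norm (enc_subn 3 (enc_nat 4 (kc3q0_47.enc h1 h2)))))) (kc3q0_51.enc h1 h2)) (enc_mul (qsg.enc (enc_norm (kc3q0_46.enc h1 h2))) (enc_norm (enc_sub (enc_rat _ 1 2) (kc3q0_58.enc h1 h2)))))) (enc_inv (enc_mul (enc_nat 2 (kc3q0_51.enc h1 h2)) (kc3q0_51.enc h1 h2)))) (kc3q0_46.enc h1 h2) (kc3q0_47.enc h1 h2) (kc3q0_51.enc h1 h2) rfl rfl rfl rfl)) (enc_mul (kcg.enc (enc_norm (enc_sub (enc_scaleT 3 4 (kc3q0_46.enc h1 h2)) (enc_half (kc3q0_47.enc h1 h2)))) h2) (enc_norm (enc_add (enc_pnc _ 1) (enc_add (kc3q0_55.enc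 h1 h2) (enc_nat 2 (kc3q0_47.enc h1 h2))))))) (kc3q0_88.enc h1 h2))) (enc_norm (enc_sub (cv3m.enc h1) (cv2m.enc h1))))) (enc_inv (enc_sub (enc_add (swg.enc h1) (enc_rat _ 1 2)) (cv2m.enc h1))))) (enc_mul (cv3m.enc h1) (enc_norm (enc_add (enc_subr 820347809 937680000 (enc_scaleT 410112809 468840000 h1)) (enc_mul (enc_norm (kc3q0_4.enc h1 h2)) (enc_norm (enc_sub (enc_rat _ 17376091 117210000) (enc_scaleT 11046751 58605000 h1))))))))))⟩
noncomputable def bf3q1_3 : Fn2 := ⟨_, _, fun h1 h2 => (enc_subr 9743 10000 h2)⟩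
noncomputable def bf3q1 : Fn2 := ⟨_, _, fun h1 h2 => (enc_norm (enc_case (enc_subr 7 8 h1) (enc_add (enc_add (enc_scaleT 3193 3750 h1) (enc_rat _ 44561 300000)) (enc_mul (enc_norm (bf3q1_3.enc h1 h2)) (enc_norm (enc_subr 77 15000 (enc_scaleT 19 3750 h1))))) (enc_add (enc_add (enc_scaleT 10643 12500 h1) (enc_rat _ 1857 12500)) (enc_mul (enc_norm (bf3q1_3.enc h1 h2)) (enc_norm (enc_subr 7 1250 (enc_scaleT 7 1250 h1)))))))⟩
noncomputable def kf3q1 : Fn2 := ⟨_, _, fun h1 h2 => (enc_norm (enc_mul (cv3m.enc h1) (bf3q1.enc h1 h2)))⟩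
noncomputable def bx3q1_3 : Fn2 := ⟨_, _, fun h1 h2 => (enc_subr 9743 10000 h2)⟩
noncomputable def bx3q1 : Fn2 := ⟨_, _, fun h1 h2 => (enc_norm (enc_case (enc_subr 7 8 h1) (enc_add (enc_sub (enc_rat _ 74287 300000) (enc_scaleT 4643 18750 h1)) (enc_mul (enc_norm (bx3q1_3.enc h1 h2)) (enc_norm (enc_subr 53 300 (enc_scaleT 13 75 h1))))) (enc_add (enc_sub (enc_rat _ 619 2500) (enc_scaleT 619 2500 h1)) (enc_mul (enc_norm (bx3q1_3.enc h1 h2)) (enc_norm (enc_subr 1 5 (enc_scaleT 1 5 h1)))))))⟩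
noncomputable def l3q1 : Fn2 := ⟨_, _, fun h1 h2 => (enc_norm (enc_mul (cv3m.enc h1) (bx3q1.enc h1 h2)))⟩
noncomputable def bd3q1 : Fn2 := ⟨_, _, fun h1 h2 => (enc_norm (enc_add (enc_subr 7 8 (enc_scaleT 7 8 h1)) (enc_mul (enc_norm (enc_subr 9743 10000 h2)) (enc_norm (enc_sub (enc_rat _ 27 250) (enc_scaleT 27 250 h1))))))⟩
noncomputable def kc3q1 : Fn2 := ⟨_, _, fun h1 h2 => (enc_norm (enc_mul (cv3m.enc h1) (bd3q1.enc h1 h2)))⟩
noncomputable def cv3p : Fn1 := ⟨_, _, fun h1 => (enc_norm (enc_add (enc_scaleT 1929 2000 (enc_subr 1 2 (swg.enc h1))) (enc_scaleT 71 2000 (c3g.enc h1))))⟩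
noncomputable def bf3q2_3 : Fn2 := ⟨_, _, fun h1 h2 => (enc_subr 9743 10000 h2)⟩
noncomputable def bf3q2 : Fn2 := ⟨_, _, fun h1 h2 => (enc_norm (enc_case (enc_subr 21 20 h1) (enc_case (enc_subr 2081 2048 h1) (enc_add (enc_add (enc_scaleT 19136 34375 h1) (enc_rat _ 171169 550000)) (enc_mul (enc_norm (bf3q2_3.enc h1 h2)) (enc_norm (enc_subr 1453 165000 (enc_scaleT 128 20625 h1))))) (enc_case (enc_subr 25779 25000 h1) (enc_add (enc_add (enc_scaleT 53568 96299 h1) (enc_rat _ 750263697 2407475000)) (enc_mul (enc_norm (bf3q2_3.enc h1 h2)) (enc_norm (enc_subr 616549 38519600 (enc_scaleT 1280 96299 h1))))) (enc_add (enc_add (enc_scaleT 1049 1884 h1) (enc_rat _ 4884211 15700000)) (enc_mul (enc_norm (bf3q2_3.enc h1 h2)) (enc_norm (enc_subr 3051 392500 (enc_scaleT 5 942 h1))))))) (enc_case (enc_subr 231 200 h1) (enc_case (enc_subr 107 100 h1) (enc_add (enc_add (enc_scaleT 557 1000 h1) (enc_rat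 _ 1943 6250)) (enc_mul (enc_norm (bf3q2_3.enc h1 h2)) (enc_norm (enc_subr 127 10000 (enc_scaleT 1 100 h1))))) (enc_add (enc_add (enc_scaleT 1183 2125 h1) (enc_rat _ 529031 1700000)) (enc_mul (enc_norm (bf3q2_3.enc h1 h2)) (enc_norm (enc_subr 1133 85000 (enc_scaleT 9 850 h1)))))) (enc_case (enc_subr 13 10 h1) (enc_add (enc_add (enc_scaleT 2018 3625 h1) (enc_rat _ 902519 2900000)) (enc_mul (enc_norm (bf3q2_3.enc h1 h2)) (enc_norm (enc_subr 803 58000 (enc_scaleT 8 725 h1))))) (enc_add (enc_add (enc_scaleT 5567 10000 h1) (enc_rat _ 389 1250)) (enc_mul (enc_norm (bf3q2_3.enc h1 h2)) (enc_norm (enc_subr 69 5000 (enc_scaleT 11 1000 h1)))))))))⟩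
noncomputable def kf3q2 : Fn2 := ⟨_, _, fun h1 h2 => (enc_norm (enc_mul (cv3p.enc h1) (bf3q2.enc h1 h2)))⟩
noncomputable def bx3q2_3 : Fn2 := ⟨_, _, fun h1 h2 => (enc_subr 9743 10000 h2)⟩
noncomputable def bx3q2 : Fn2 := ⟨_, _, fun h1 h2 => (enc_norm (enc_case (enc_subr 21 20 h1) (enc_case (enc_subr 2081 2048 h1) (enc_add (enc_subr 20143 33000 (enc_scaleT 69056 103125 h1)) (enc_mul (enc_norm (bx3q2_3.enc h1 h2)) (enc_norm (enc_sub (enc_rat _ 359 30000) (enc_scaleT 128 1875 h1))))) (enc_case (enc_subr 25779 25000 h1) (enc_add (enc_subr 2937132489 4814950000 (enc_scaleT 64448 96299 h1)) (enc_mul (enc_norm (bx3q2_3.enc h1 h2)) (enc_norm (enc_sub (enc_rat _ 16258749 962990000) (enc_scaleT 7040 96299 h1))))) (enc_add (enc_subr 9578203 15700000 (enc_scaleT 1261 1884 h1)) (enc_mul (enc_norm (bx3q2_3.enc h1 h2)) (enc_norm (enc_sub (enc_rat _ 45643 1570000) (enc_scaleT 40 471 h1)))))))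 (enc_case (enc_subr 231 200 h1) (enc_case (enc_subr 107 100 h1) (enc_add (enc_subr 122053 200000 (enc_scaleT 1339 2000 h1)) (enc_mul (enc_norm (bx3q2_3.enc h1 h2)) (enc_norm (enc_sub (enc_rat _ 793 20000) (enc_scaleT 19 200 h1))))) (enc_add (enc_subr 32422 53125 (enc_scaleT 5691 8500 h1)) (enc_mul (enc_norm (bx3q2_3.enc h1 h2)) (enc_norm (enc_sub (enc_rat _ 2287 42500) (enc_scaleT 46 425 h1)))))) (enc_case (enc_subr 13 10 h1) (enc_add (enc_subr 448403 725000 (enc_scaleT 9811 14500 h1)) (enc_mul (enc_norm (bx3q2_3.enc h1 h2)) (enc_norm (enc_sub (enc_rat _ 13469 145000) (enc_scaleT 103 725 h1))))) (enc_add (enc_subr 101249 100000 (enc_scaleT 9797 10000 h1)) (enc_mul (enc_norm (bx3q2_3.enc h1 h2)) (enc_norm (enc_sub (enc_rat _ 3221 20000) (enc_scaleT 389 2000 h1)))))))))⟩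
noncomputable def l3q2 : Fn2 := ⟨_, _, fun h1 h2 => (enc_norm (enc_mul (cv3p.enc h1) (bx3q2.enc h1 h2)))⟩
noncomputable def bd3q2_3 : Fn2 := ⟨_, _, fun h1 h2 => (enc_subr 9743 10000 h2)⟩
noncomputable def bd3q2 : Fn2 := ⟨_, _, fun h1 h2 => (enc_norm (enc_case (enc_subr 231 200 h1) (enc_add (enc_subr 5633001 310000 (enc_scaleT 2462 155 h1)) (enc_mul (enc_norm (bd3q2_3.enc h1 h2)) (enc_norm (enc_sub (enc_rat _ 3651 15500) (enc_scaleT 6 31 h1))))) (enc_add (enc_subr 4179219 230000 (enc_scaleT 9133 575 h1)) (enc_mul (enc_norm (bd3q2_3.enc h1 h2)) (enc_norm (enc_sub (enc_rat _ 291 1150) (enc_scaleT 24 115 h1)))))))⟩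
noncomputable def kc3q2 : Fn2 := ⟨_, _, fun h1 h2 => (enc_norm (enc_mul (cv3p.enc h1) (bd3q2.enc h1 h2)))⟩
noncomputable def ycg : Fn1 := ⟨_, _, fun h1 => (enc_sqrtg (enc_scaleT 4 3 (enc_sub (enc_pnc _ 3) (enc_sq h1))))⟩
noncomputable def xc33 : Fn1 := ⟨_, _, fun h1 => (enc_norm (enc_add (enc_scaleT 1929 2000 (enc_subr 1 2 (swg.enc (ycg.enc h1)))) (enc_scaleT 71 2000 h1)))⟩
noncomputable def kfc33_6 : Fn2 := ⟨_, _, fun h1 h2 => (enc_subr 1 2 (swg.enc (ycg.enc h1)))⟩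
noncomputable def kfc33_9 : Fn2 := ⟨_, _, fun h1 h2 => (enc_add (enc_scaleT 1929 2000 (kfc33_6.enc h1 h2)) (enc_scaleT 71 2000 h1))⟩
noncomputable def kfc33_11 : Fn2 := ⟨_, _, fun h1 h2 => (enc_subr 9743 10000 h2)⟩
noncomputable def kfc33_13 : Fn2 := ⟨_, _, fun h1 h2 => (enc_subr 193 100 (ycg.enc h1))⟩
noncomputable def kfc33_25 : Fn2 := ⟨_, _, fun h1 h2 => (enc_subr 39 20 (ycg.enc h1))⟩
noncomputable def kfc33_50 : Fn2 := ⟨_, _, fun h1 h2 => (enc_sub (enc_rat _ 105307799 1000000000) h1)⟩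
noncomputable def kfc33_52 : Fn2 := ⟨_, _, fun h1 h2 => (enc_sub (enc_rat _ 154764337 1000000000) h1)⟩
noncomputable def kfc33_75 : Fn2 := ⟨_, _, fun h1 h2 => (enc_sub (enc_rat _ 54765409 1000000000) h1)⟩
noncomputable def kfc33_97 : Fn2 := ⟨_, _, fun h1 h2 => (enc_subn 1 (ycg.enc h1))⟩
noncomputable def kfc33_98 : Fn2 := ⟨_, _, fun h1 h2 => (gsg.enc (enc_norm (kfc33_97.enc h1 h2)))⟩
noncomputable def kfc33_99 : Fn2 := ⟨_, _, fun h1 h2 => (enc_scaleT 3 4 (kfc33_97.enc h1 h2))⟩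
noncomputable def kfc33_100 : Fn2 := ⟨_, _, fun h1 h2 => (enc_half (kfc33_98.enc h1 h2))⟩
noncomputable def kfc33_102 : Fn2 := ⟨_, _, fun h1 h2 => (esg.enc (enc_norm (kfc33_97.enc h1 h2)))⟩
noncomputable def kfc33_103 : Fn2 := ⟨_, _, fun h1 h2 => (kcg.enc (enc_norm (enc_sub (kfc33_99.enc h1 h2) (kfc33_100.enc h1 h2))) h2)⟩
noncomputable def kfc33_105 : Fn2 := ⟨_, _, fun h1 h2 => (enc_subn 2 (ycg.enc h1))⟩
noncomputable def kfc33_112 : Fn2 := ⟨_, _, fun h1 h2 => (enc_sub (enc_sub (kfc33_100.enc h1 h2) (kfc33_99.enc h1 h2)) (enc_sub (enc_rat _ 1 4) (enc_scaleT 3 8 (enc_mul (enc_norm (kfc33_97.enc h1 h2)) (enc_inv (kfc33_98.enc h1 h2))))))⟩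
noncomputable def kfc33_118 : Fn2 := ⟨_, _, fun h1 h2 => (cv2r.enc (ycg.enc h1))⟩
noncomputable def kfc33_143 : Fn2 := ⟨_, _, fun h1 h2 => (enc_subr 49221 25000 (ycg.enc h1))⟩
noncomputable def kfc33_167 : Fn2 := ⟨_, _, fun h1 h2 => (enc_subr 4063 2048 (ycg.enc h1))⟩
noncomputable def kfc33_223 : Fn2 := ⟨_, _, fun h1 h2 => (enc_mul (kfc33_118.enc h1 h2) (enc_norm (enc_case (enc_subr 987 500 (ycg.enc h1)) (enc_case (kfc33_25.enc h1 h2) (enc_case (kfc33_13.enc h1 h2) (enc_add (enc_sub (enc_rat _ 53542479 2150000) (enc_scaleT 136313 10750 (ycg.enc h1))) (enc_mul (enc_norm (kfc33_11.enc h1 h2)) (enc_norm (enc_sub (enc_rat _ 1216457 53750) (enc_scaleT 12933 860 (ycg.enc h1)))))) (enc_add (enc_sub (enc_rat _ 1245147 50000) (enc_scaleT 317 25 (ycg.enc h1))) (enc_mul (enc_norm (kfc33_11.enc h1 h2)) (enc_norm (enc_sub (enc_rat _ 452891 20000) (enc_scaleT 3009 200 (ycg.enc h1))))))) (enc_case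 (kfc33_143.enc h1 h2) (enc_add (enc_sub (enc_rat _ 195495229 7850000) (enc_scaleT 11945 942 (ycg.enc h1))) (enc_mul (enc_norm (kfc33_11.enc h1 h2)) (enc_norm (enc_sub (enc_rat _ 17796463 785000) (enc_scaleT 14185 942 (ycg.enc h1)))))) (enc_add (enc_sub (enc_rat _ 107084573 4300000) (enc_scaleT 2181 172 (ycg.enc h1))) (enc_mul (enc_norm (kfc33_11.enc h1 h2)) (enc_norm (enc_sub (enc_rat _ 2437043 107500) (enc_scaleT 1295 86 (ycg.enc h1)))))))) (enc_case (kfc33_52.enc h1 h2) (enc_case (kfc33_167.enc h1 h2) (enc_add (enc_sub (enc_rat _ 252109999 10124000) (enc_scaleT 802304 63275 (ycg.enc h1))) (enc_mul (enc_norm (kfc33_11.enc h1 h2)) (enc_norm (enc_sub (enc_rat _ 287205317 12655000) (enc_scaleT 38144 2531 (ycg.enc h1)))))) (enc_add (enc_subr 2976801355413 6465561500000 (enc_scaleT 12238000 12931123 h1)) (enc_mul (enc_norm (kfc33_11.enc h1 h2)) (enc_norm (enc_subr 1223516647599 161639037500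 (enc_scaleT 21560000 12931123 h1)))))) (enc_case (kfc33_50.enc h1 h2) (enc_add (enc_subr 2277090415469 4945653800000 (enc_scaleT 23405000 24728269 h1)) (enc_mul (enc_norm (kfc33_11.enc h1 h2)) (enc_norm (enc_subr 3752931757577 494565380000 (enc_scaleT 44250000 24728269 h1))))) (enc_case (kfc33_75.enc h1 h2) (enc_add (enc_subr 1163554614833 2527119500000 (enc_scaleT 4784000 5054239 h1)) (enc_mul (enc_norm (kfc33_11.enc h1 h2)) (enc_norm (enc_subr 479331590139 63177987500 (enc_scaleT 8980000 5054239 h1))))) (enc_add (enc_subr 23021 50000 (enc_scaleT 51830000 54765409 h1)) (enc_mul (enc_norm (kfc33_11.enc h1 h2)) (enc_norm (enc_subr 75867 10000 (enc_scaleT 97000000 54765409 h1)))))))))))⟩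
noncomputable def kfc33 : Fn2 := ⟨_, _, fun h1 h2 => (enc_norm (enc_case (kfc33_143.enc h1 h2) (enc_mul (enc_norm (kfc33_9.enc h1 h2)) (enc_norm (enc_case (kfc33_13.enc h1 h2) (enc_add (enc_subr 5089347 2150000 (enc_scaleT 54927 43000 (ycg.enc h1))) (enc_mul (enc_norm (kfc33_11.enc h1 h2)) (enc_norm (enc_subr 3141833 430000 (enc_scaleT 4173 860 (ycg.enc h1)))))) (enc_case (kfc33_25.enc h1 h2) (enc_add (enc_subr 473477 200000 (enc_scaleT 511 400 (ycg.enc h1))) (enc_mul (enc_norm (kfc33_11.enc h1 h2)) (enc_norm (enc_subr 29247 4000 (enc_scaleT 971 200 (ycg.enc h1)))))) (enc_add (enc_subr 2972702737 1256000000 (enc_scaleT 240624629 188400000 (ycg.enc h1))) (enc_mul (enc_norm (kfc33_11.enc h1 h2)) (enc_norm (enc_subr 459650983 62800000 (enc_scaleT 45770491 9420000 (ycg.enc h1)))))))))) (enc_case (kfc33_167.enc h1 h2) (enc_add (kfc33_223.enc h1 h2) (enc_mul (enc_norm (enc_mul (enc_norm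 (enc_sub (enc_wB3 (enc_mul (enc_norm (kfc33_105.enc h1 h2)) (enc_norm (enc_add (enc_mul (enc_norm (kfc33_112.enc h1 h2)) (enc_inv (kfc33_102.enc h1 h2))) (kfc33_103.enc h1 h2)))) (kfc33_97.enc h1 h2) (kfc33_98.enc h1 h2) (kfc33_102.enc h1 h2) (kfc33_105.enc h1 h2) (kfc33_112.enc h1 h2) (kfc33_103.enc h1 h2) (ycg.enc h1) rfl rfl rfl rfl rfl) (kfc33_223.enc h1 h2))) (enc_norm (enc_sub (kfc33_9.enc h1 h2) (kfc33_118.enc h1 h2))))) (enc_inv (enc_sub (kfc33_6.enc h1 h2) (kfc33_118.enc h1 h2))))) (enc_mul (enc_norm (kfc33_9.enc h1 h2)) (enc_norm (enc_case (kfc33_50.enc h1 h2) (enc_case (kfc33_52.enc h1 h2) (enc_add (enc_subr 34645065492759301 20204879687500000 (enc_scaleT 2785924768 323278075 h1)) (enc_mul (enc_norm (kfc33_11.enc h1 h2)) (enc_norm (enc_subr 53663288889605869 64655615000000000 (enc_scaleT 1785034237 64655615 h1))))) (enc_add (enc_sub (enc_rat _ 1224627853907 2472826900000)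 (enc_scaleT 140000000 24728269 h1)) (enc_mul (enc_norm (kfc33_11.enc h1 h2)) (enc_norm (enc_subr 446669057 30910336250 (enc_scaleT 552400000 24728269 h1)))))) (enc_case (kfc33_75.enc h1 h2) (enc_add (enc_sub (enc_rat _ 2526855719129 5054239000000) (enc_scaleT 28841000 5054239 h1)) (enc_mul (enc_norm (kfc33_11.enc h1 h2)) (enc_norm (enc_subr 1030812369 505423900000 (enc_scaleT 112310000 5054239 h1))))) (enc_add (enc_sub (enc_rat _ 1 2) (enc_scaleT 312560000 54765409 h1)) (enc_mul (enc_norm (kfc33_11.enc h1 h2)) (enc_scaleT 1214900000 54765409 h1))))))))))⟩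
noncomputable def lc33_6 : Fn2 := ⟨_, _, fun h1 h2 => (enc_subr 1 2 (swg.enc (ycg.enc h1)))⟩
noncomputable def lc33_9 : Fn2 := ⟨_, _, fun h1 h2 => (enc_add (enc_scaleT 1929 2000 (lc33_6.enc h1 h2)) (enc_scaleT 71 2000 h1))⟩
noncomputable def lc33_11 : Fn2 := ⟨_, _, fun h1 h2 => (enc_subr 9743 10000 h2)⟩
noncomputable def lc33_13 : Fn2 := ⟨_, _, fun h1 h2 => (enc_subr 193 100 (ycg.enc h1))⟩
noncomputable def lc33_25 : Fn2 := ⟨_, _, fun h1 h2 => (enc_subr 39 20 (ycg.enc h1))⟩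
noncomputable def lc33_50 : Fn2 := ⟨_, _, fun h1 h2 => (enc_sq (enc_norm (lc33_11.enc h1 h2)))⟩
noncomputable def lc33_57 : Fn2 := ⟨_, _, fun h1 h2 => (enc_sub (enc_rat _ 105307799 1000000000) h1)⟩
noncomputable def lc33_59 : Fn2 := ⟨_, _, fun h1 h2 => (enc_sub (enc_rat _ 154764337 1000000000) h1)⟩
noncomputable def lc33_87 : Fn2 := ⟨_, _, fun h1 h2 => (enc_sub (enc_rat _ 54765409 1000000000) h1)⟩
noncomputable def lc33_110 : Fn2 := ⟨_, _, fun h1 h2 => (enc_subn 1 (ycg.enc h1))⟩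
noncomputable def lc33_123 : Fn2 := ⟨_, _, fun h1 h2 => (cv2r.enc (ycg.enc h1))⟩
noncomputable def lc33_148 : Fn2 := ⟨_, _, fun h1 h2 => (enc_subr 49221 25000 (ycg.enc h1))⟩
noncomputable def lc33_172 : Fn2 := ⟨_, _, fun h1 h2 => (enc_subr 4063 2048 (ycg.enc h1))⟩
noncomputable def lc33_224 : Fn2 := ⟨_, _, fun h1 h2 => (enc_mul (lc33_123.enc h1 h2) (enc_norm (enc_case (enc_subr 987 500 (ycg.enc h1)) (enc_case (lc33_25.enc h1 h2) (enc_case (lc33_13.enc h1 h2) (enc_add (enc_subr 3383113 2150000 (enc_scaleT 6836 5375 (ycg.enc h1))) (enc_mul (enc_norm (lc33_11.enc h1 h2)) (enc_norm (enc_subr 340851 430000 (enc_scaleT 3417 4300 (ycg.enc h1)))))) (enc_add (enc_subr 15739 10000 (enc_scaleT 159 125 (ycg.enc h1))) (enc_mul (enc_norm (lc33_11.enc h1 h2)) (enc_norm (enc_subr 16253 20000 (enc_scaleT 161 200 (ycg.enc h1))))))) (enc_case (lc33_148.enc h1 h2) (enc_add (enc_subr 494059 314000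 (enc_scaleT 599 471 (ycg.enc h1))) (enc_mul (enc_norm (lc33_11.enc h1 h2)) (enc_norm (enc_subr 1313853 1570000 (enc_scaleT 385 471 (ycg.enc h1)))))) (enc_add (enc_subr 3381007 2150000 (enc_scaleT 164 129 (ycg.enc h1))) (enc_mul (enc_norm (lc33_11.enc h1 h2)) (enc_norm (enc_subr 356919 430000 (enc_scaleT 35 43 (ycg.enc h1)))))))) (enc_case (lc33_59.enc h1 h2) (enc_case (lc33_172.enc h1 h2) (enc_add (enc_subr 198776151 126550000 (enc_scaleT 80384 63275 (ycg.enc h1))) (enc_mul (enc_norm (lc33_11.enc h1 h2)) (enc_norm (enc_subr 21779931 25310000 (enc_scaleT 10496 12655 (ycg.enc h1)))))) (enc_add (enc_add (enc_scaleT 2350000 12931123 h1) (enc_rat _ 588174944557 646556150000)) (enc_mul (enc_norm (lc33_11.enc h1 h2)) (enc_norm (enc_subr 185504912789 129311230000 (enc_scaleT 130800000 12931123 h1)))))) (enc_case (lc33_57.enc h1 h2) (enc_add (enc_add (enc_scaleT 4470000 24728269 h1) (enc_rat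 _ 562477898247 618206725000)) (enc_mul (enc_norm (lc33_11.enc h1 h2)) (enc_norm (enc_subr 142776154241 98913076000 (enc_scaleT 251550000 24728269 h1))))) (enc_case (lc33_87.enc h1 h2) (enc_add (enc_add (enc_scaleT 244000 5054239 h1) (enc_rat _ 2334568480877 2527119500000)) (enc_mul (enc_norm (lc33_11.enc h1 h2)) (enc_norm (enc_subr 728663707847 505423900000 (enc_scaleT 51330000 5054239 h1))))) (enc_add (enc_add (enc_scaleT 2650000 54765409 h1) (enc_rat _ 4619 5000)) (enc_mul (enc_norm (lc33_11.enc h1 h2)) (enc_norm (enc_subr 2883 2000 (enc_scaleT 556000000 54765409 h1)))))))))))⟩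
noncomputable def lc33 : Fn2 := ⟨_, _, fun h1 h2 => (enc_norm (enc_case (lc33_148.enc h1 h2) (enc_mul (enc_norm (lc33_9.enc h1 h2)) (enc_norm (enc_case (lc33_13.enc h1 h2) (enc_add (enc_subr 2178721 2150000 (enc_scaleT 5269 5375 (ycg.enc h1))) (enc_mul (enc_norm (lc33_11.enc h1 h2)) (enc_norm (enc_sub (enc_rat _ 105949 430000) (enc_scaleT 1081 4300 (ycg.enc h1)))))) (enc_case (lc33_25.enc h1 h2) (enc_add (enc_subr 202757 200000 (enc_scaleT 1961 2000 (ycg.enc h1))) (enc_mul (enc_norm (lc33_11.enc h1 h2)) (enc_norm (enc_sub (enc_rat _ 5067 20000) (enc_scaleT 51 200 (ycg.enc h1)))))) (enc_add (enc_add (enc_subr 318129369 314000000 (enc_scaleT 46166233 47100000 (ycg.enc h1))) (enc_mul (enc_norm (lc33_11.enc h1 h2)) (enc_norm (enc_subr 25649081617 125600000 (enc_scaleT 1970649829 18840000 (ycg.enc h1)))))) (enc_mul (lc33_50.enc h1 h2) (enc_norm (enc_subr 4823 125600 (enc_scaleT 371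 18840 (ycg.enc h1)))))))))) (enc_case (lc33_172.enc h1 h2) (enc_add (lc33_224.enc h1 h2) (enc_mul (enc_norm (enc_mul (enc_norm (enc_sub (enc_sub (qsg.enc (enc_norm (lc33_110.enc h1 h2))) (enc_mul (enc_norm (enc_nat 2 (enc_sub (lc33_110.enc h1 h2) h2))) (enc_norm (enc_mul (esg.enc (enc_norm (lc33_110.enc h1 h2))) (kcg.enc (enc_norm (enc_sub (enc_scaleT 3 4 (lc33_110.enc h1 h2)) (enc_half (gsg.enc (enc_norm (lc33_110.enc h1 h2)))))) h2))))) (lc33_224.enc h1 h2))) (enc_norm (enc_sub (lc33_9.enc h1 h2) (lc33_123.enc h1 h2))))) (enc_inv (enc_sub (lc33_6.enc h1 h2) (lc33_123.enc h1 h2))))) (enc_mul (enc_norm (lc33_9.enc h1 h2)) (enc_norm (enc_case (lc33_57.enc h1 h2) (enc_case (lc33_59.enc h1 h2) (enc_add (enc_add (enc_sub (enc_rat _ 12400398984182169 12931123000000000) (enc_scaleT 1644137 12931123 h1)) (enc_mul (enc_norm (lc33_11.enc h1 h2)) (enc_norm (enc_sub (enc_rat _ 120966690521436653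 16163903750000000) (enc_scaleT 1566361076 64655615 h1))))) (enc_mul (lc33_50.enc h1 h2) (enc_norm (enc_sub (enc_rat _ 639011268733747 64655615000000) (enc_scaleT 825786200 12931123 h1))))) (enc_add (enc_add (enc_scaleT 6585000 24728269 h1) (enc_rat _ 888305813887 989130760000)) (enc_mul (enc_norm (lc33_11.enc h1 h2)) (enc_norm (enc_subr 679622846453 494565380000 (enc_scaleT 816250000 24728269 h1)))))) (enc_case (lc33_87.enc h1 h2) (enc_add (enc_add (enc_scaleT 1173000 5054239 h1) (enc_rat _ 4557255232063 5054239000000)) (enc_mul (enc_norm (lc33_11.enc h1 h2)) (enc_norm (enc_subr 139363257377 101084780000 (enc_scaleT 167050000 5054239 h1))))) (enc_add (enc_add (enc_scaleT 17160000 54765409 h1) (enc_rat _ 44861 50000)) (enc_mul (enc_norm (lc33_11.enc h1 h2)) (enc_norm (enc_sub (enc_rat _ 26767 10000) (enc_scaleT 2245300000 54765409 h1))))))))))))⟩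
noncomputable def kcc33_6 : Fn2 := ⟨_, _, fun h1 h2 => (enc_subr 1 2 (swg.enc (ycg.enc h1)))⟩
noncomputable def kcc33_9 : Fn2 := ⟨_, _, fun h1 h2 => (enc_add (enc_scaleT 1929 2000 (kcc33_6.enc h1 h2)) (enc_scaleT 71 2000 h1))⟩
noncomputable def kcc33_11 : Fn2 := ⟨_, _, fun h1 h2 => (enc_subr 9743 10000 h2)⟩
noncomputable def kcc33_33 : Fn2 := ⟨_, _, fun h1 h2 => (enc_subn 1 (ycg.enc h1))⟩
noncomputable def kcc33_34 : Fn2 := ⟨_, _, fun h1 h2 => (gsg.enc (enc_norm (kcc33_33.enc h1 h2)))⟩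
noncomputable def kcc33_38 : Fn2 := ⟨_, _, fun h1 h2 => (esg.enc (enc_norm (kcc33_33.enc h1 h2)))⟩
noncomputable def kcc33_43 : Fn2 := ⟨_, _, fun h1 h2 => (gug.enc (enc_norm (kcc33_33.enc h1 h2)))⟩
noncomputable def kcc33_45 : Fn2 := ⟨_, _, fun h1 h2 => (enc_mul (enc_norm (kcc33_33.enc h1 h2)) (enc_inv (kcc33_34.enc h1 h2)))⟩
noncomputable def kcc33_46 : Fn2 := ⟨_, _, fun h1 h2 => (enc_scaleT 3 4 (kcc33_45.enc h1 h2))⟩
noncomputable def kcc33_72 : Fn2 := ⟨_, _, fun h1 h2 => (cv2r.enc (ycg.enc h1))⟩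
noncomputable def kcc33_76 : Fn2 := ⟨_, _, fun h1 h2 => (enc_subr 49221 25000 (ycg.enc h1))⟩
noncomputable def kcc33_99 : Fn2 := ⟨_, _, fun h1 h2 => (enc_subr 4063 2048 (ycg.enc h1))⟩
noncomputable def kcc33_121 : Fn2 := ⟨_, _, fun h1 h2 => (enc_mul (kcc33_72.enc h1 h2) (enc_norm (enc_case (enc_subr 197 100 (ycg.enc h1)) (enc_case (kcc33_76.enc h1 h2) (enc_add (enc_subr 2034530503 39070000 (enc_scaleT 610360 11721 (ycg.enc h1))) (enc_mul (enc_norm (kcc33_11.enc h1 h2)) (enc_norm (enc_subr 1917893 1953500 (enc_scaleT 9250 11721 (ycg.enc h1)))))) (enc_add (enc_subr 15098549 290000 (enc_scaleT 1510 29 (ycg.enc h1))) (enc_mul (enc_norm (kcc33_11.enc h1 h2)) (enc_norm (enc_subr 32633 29000 (enc_scaleT 25 29 (ycg.enc h1))))))) (enc_case (kcc33_99.enc h1 h2) (enc_add (enc_subr 14808319 284400 (enc_scaleT 925568 17775 (ycg.enc h1))) (enc_mul (enc_norm (kcc33_11.enc h1 h2)) (enc_norm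 (enc_subr 702101 711000 (enc_scaleT 2816 3555 (ycg.enc h1)))))) (enc_add (enc_add (enc_scaleT 2895700000 13713747 h1) (enc_rat _ 24519 5000)) (enc_mul (enc_norm (kcc33_11.enc h1 h2)) (enc_norm (enc_subr 43 200 (enc_scaleT 2937500 806691 h1)))))))))⟩
noncomputable def kcc33 : Fn2 := ⟨_, _, fun h1 h2 => (enc_norm (enc_case (kcc33_76.enc h1 h2) (enc_mul (enc_norm (kcc33_9.enc h1 h2)) (enc_norm (enc_add (enc_subr 56794894573 3125600000 (enc_scaleT 74469224893 4688400000 (ycg.enc h1))) (enc_mul (enc_norm (kcc33_11.enc h1 h2)) (enc_norm (enc_sub (enc_rat _ 115256383 312560000) (enc_scaleT 134009983 468840000 (ycg.enc h1)))))))) (enc_case (kcc33_99.enc h1 h2) (enc_add (kcc33_121.enc h1 h2) (enc_mul (enc_norm (enc_mul (enc_norm (enc_sub (enc_add (enc_sub (enc_add (enc_add (enc_rat _ 3 4) (enc_scaleT 3 2 (kcc33_33.enc h1 h2))) (enc_scaleT 3 4 (enc_mul (enc_norm (kcc33_45.enc h1 h2)) (kcc33_43.enc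 h1 h2)))) (enc_wT (enc_mul (enc_norm (enc_sub (enc_mul (enc_norm (enc_mul (enc_norm (kcc33_46.enc h1 h2)) (enc_norm (enc_subn 3 (enc_nat 4 (kcc33_34.enc h1 h2)))))) (kcc33_38.enc h1 h2)) (enc_mul (qsg.enc (enc_norm (kcc33_33.enc h1 h2))) (enc_norm (enc_sub (enc_rat _ 1 2) (kcc33_46.enc h1 h2)))))) (enc_inv (enc_mul (enc_nat 2 (kcc33_38.enc h1 h2)) (kcc33_38.enc h1 h2)))) (kcc33_33.enc h1 h2) (kcc33_34.enc h1 h2) (kcc33_38.enc h1 h2) rfl rfl rfl rfl)) (enc_mul (kcg.enc (enc_norm (enc_sub (enc_scaleT 3 4 (kcc33_33.enc h1 h2)) (enc_half (kcc33_34.enc h1 h2)))) h2) (enc_norm (enc_sub (enc_pnc _ 1) (enc_add (kcc33_43.enc h1 h2) (enc_nat 2 (kcc33_34.enc h1 h2))))))) (kcc33_121.enc h1 h2))) (enc_norm (enc_sub (kcc33_9.enc h1 h2) (kcc33_72.enc h1 h2))))) (enc_inv (enc_sub (kcc33_6.enc h1 h2) (kcc33_72.enc h1 h2))))) (enc_mul (enc_norm (kcc33_9.enc h1 h2)) (enc_norm (enc_add (enc_add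 (enc_scaleT 34039364361413 366431319840 h1) (enc_rat _ 35373 3340)) (enc_mul (enc_norm (kcc33_11.enc h1 h2)) (enc_norm (enc_add (enc_scaleT 32959340000717 36643131984 h1) (enc_rat _ 638 167))))))))))⟩
noncomputable def cv4m : Fn1 := ⟨_, _, fun h1 => (enc_norm (enc_add (enc_scaleT 17 20 (enc_add (swg.enc h1) (enc_rat _ 1 2))) (enc_scaleT 3 20 (c3g.enc h1))))⟩
noncomputable def bf4q0_3 : Fn2 := ⟨_, _, fun h1 h2 => (enc_subr 9743 10000 h2)⟩
noncomputable def bf4q0_36 : Fn2 := ⟨_, _, fun h1 h2 => (enc_scaleT 1 15 h1)⟩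
noncomputable def bf4q0 : Fn2 := ⟨_, _, fun h1 h2 => (enc_norm (enc_case (enc_subr 779 25000 h1) (enc_case (enc_subr 27 2000 h1) (enc_case (enc_subr 1 200 h1) (enc_add (enc_sub (enc_rat _ 38389 50000) (enc_scaleT 1013 250 h1)) (enc_mul (enc_norm (bf4q0_3.enc h1 h2)) (enc_norm (enc_subr 27 1250 (enc_scaleT 3 50 h1))))) (enc_case (enc_subr 21 2000 h1) (enc_add (enc_sub (enc_rat _ 105569 137500) (enc_scaleT 1114 275 h1)) (enc_mul (enc_norm (bf4q0_3.enc h1 h2)) (enc_norm (enc_subr 2383 110000 (enc_scaleT 4 55 h1))))) (enc_add (enc_sub (enc_rat _ 3839 5000) (enc_scaleT 304 75 h1)) (enc_mul (enc_norm (bf4q0_3.enc h1 h2)) (enc_norm (enc_subr 27 1250 (bf4q0_36.enc h1 h2))))))) (enc_case (enc_subr 33 2048 h1) (enc_add (enc_sub (enc_rat _ 34241 44600) (enc_scaleT 67712 16725 h1)) (enc_mul (enc_norm (bf4q0_3.enc h1 h2)) (enc_norm (enc_subr 9693 446000 (enc_scaleT 256 3345 h1))))) (enc_case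 (enc_subr 1 40 h1) (enc_add (enc_sub (enc_rat _ 107491 140000) (enc_scaleT 17728 4375 h1)) (enc_mul (enc_norm (bf4q0_3.enc h1 h2)) (enc_norm (enc_subr 283 13000 (enc_scaleT 128 1625 h1))))) (enc_add (enc_sub (enc_rat _ 11823321 15400000) (enc_scaleT 2495 616 h1)) (enc_mul (enc_norm (bf4q0_3.enc h1 h2)) (enc_norm (enc_subr 1031 48125 (enc_scaleT 5 77 h1)))))))) (enc_case (enc_subr 1 10 h1) (enc_case (enc_subr 1 20 h1) (enc_add (enc_sub (enc_rat _ 36162641 47100000) (enc_scaleT 7633 1884 h1)) (enc_mul (enc_norm (bf4q0_3.enc h1 h2)) (enc_norm (enc_subr 101501 4710000 (enc_scaleT 65 942 h1))))) (enc_case (enc_subr 7 100 h1) (enc_add (enc_sub (enc_rat _ 153557 200000) (enc_scaleT 8103 2000 h1)) (enc_mul (enc_norm (bf4q0_3.enc h1 h2)) (enc_norm (enc_subr 27 1250 (enc_scaleT 7 100 h1))))) (enc_add (enc_sub (enc_rat _ 57583 75000) (enc_scaleT 6077 1500 h1)) (enc_mul (enc_norm (bf4q0_3.enc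 h1 h2)) (enc_norm (enc_subr 641 30000 (bf4q0_36.enc h1 h2))))))) (enc_case (enc_subr 11 50 h1) (enc_case (enc_subr 3 20 h1) (enc_add (enc_sub (enc_rat _ 3839 5000) (enc_scaleT 10129 2500 h1)) (enc_mul (enc_norm (bf4q0_3.enc h1 h2)) (enc_norm (enc_subr 213 10000 (enc_scaleT 33 500 h1))))) (enc_add (enc_sub (enc_rat _ 268721 350000) (enc_scaleT 709 175 h1)) (enc_mul (enc_norm (bf4q0_3.enc h1 h2)) (enc_norm (enc_subr 1473 70000 (enc_scaleT 9 140 h1)))))) (enc_case (enc_subr 33 100 h1) (enc_add (enc_sub (enc_rat _ 9597 12500) (enc_scaleT 8913 2200 h1)) (enc_mul (enc_norm (bf4q0_3.enc h1 h2)) (enc_norm (enc_subr 209 10000 (enc_scaleT 7 110 h1))))) (enc_add (enc_sub (enc_rat _ 326313 425000) (enc_scaleT 551 136 h1)) (enc_mul (enc_norm (bf4q0_3.enc h1 h2)) (enc_norm (enc_subr 3547 170000 (enc_scaleT 27 425 h1))))))))))⟩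
noncomputable def kf4q0 : Fn2 := ⟨_, _, fun h1 h2 => (enc_norm (enc_mul (cv4m.enc h1) (bf4q0.enc h1 h2)))⟩
noncomputable def bx4q0_3 : Fn2 := ⟨_, _, fun h1 h2 => (enc_subr 9743 10000 h2)⟩
noncomputable def bx4q0_10 : Fn2 := ⟨_, _, fun h1 h2 => (enc_scaleT 9 50 h1)⟩
noncomputable def bx4q0_96 : Fn2 := ⟨_, _, fun h1 h2 => (enc_mul (enc_norm (bx4q0_3.enc h1 h2)) (enc_norm (enc_sub (enc_rat _ 353 5000) (enc_scaleT 3 50 h1))))⟩
noncomputable def bx4q0 : Fn2 := ⟨_, _, fun h1 h2 => (enc_norm (enc_case (enc_subr 779 25000 h1) (enc_case (enc_subr 27 2000 h1) (enc_case (enc_subr 1 200 h1) (enc_add (enc_add (bx4q0_10.enc h1 h2) (enc_rat _ 1897 20000)) (enc_mul (enc_norm (bx4q0_3.enc h1 h2)) (enc_norm (enc_sub (enc_rat _ 701 10000) (enc_scaleT 1 50 h1))))) (enc_case (enc_subr 21 2000 h1) (enc_add (enc_add (enc_scaleT 2 11 h1) (enc_rat _ 4173 44000)) (enc_mul (enc_norm (bx4q0_3.enc h1 h2))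 (enc_norm (enc_sub (enc_rat _ 193 2750) (enc_scaleT 2 55 h1))))) (enc_add (enc_add (bx4q0_10.enc h1 h2) (enc_rat _ 4743 50000)) (enc_mul (enc_norm (bx4q0_3.enc h1 h2)) (enc_norm (enc_sub (enc_rat _ 1403 20000) (enc_scaleT 1 30 h1))))))) (enc_case (enc_subr 33 2048 h1) (enc_add (enc_add (enc_scaleT 3008 16725 h1) (enc_rat _ 2115423 22300000)) (enc_mul (enc_norm (bx4q0_3.enc h1 h2)) (enc_norm (enc_sub (enc_rat _ 31547 446000) (enc_scaleT 256 3345 h1))))) (enc_case (enc_subr 1 40 h1) (enc_add (enc_add (enc_scaleT 1472 8125 h1) (enc_rat _ 123293 1300000)) (enc_mul (enc_norm (bx4q0_3.enc h1 h2)) (enc_norm (enc_sub (enc_rat _ 12781 182000) (enc_scaleT 512 11375 h1))))) (enc_add (enc_add (enc_scaleT 111 616 h1) (enc_rat _ 1460923 15400000)) (enc_mul (enc_norm (bx4q0_3.enc h1 h2)) (enc_norm (enc_sub (enc_rat _ 54457 770000) (enc_scaleT 5 77 h1)))))))) (enc_case (enc_subr 1 10 h1) (enc_case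 (enc_subr 1 20 h1) (enc_add (enc_add (enc_scaleT 341 1884 h1) (enc_rat _ 4466969 47100000)) (enc_mul (enc_norm (bx4q0_3.enc h1 h2)) (enc_norm (enc_sub (enc_rat _ 166073 2355000) (enc_scaleT 55 942 h1))))) (enc_case (enc_subr 7 100 h1) (enc_add (enc_add (enc_scaleT 181 1000 h1) (enc_rat _ 2371 25000)) (bx4q0_96.enc h1 h2)) (enc_add (enc_add (enc_scaleT 271 1500 h1) (enc_rat _ 28459 300000)) (bx4q0_96.enc h1 h2)))) (enc_case (enc_subr 11 50 h1) (enc_case (enc_subr 3 20 h1) (enc_add (enc_add (enc_scaleT 899 5000 h1) (enc_rat _ 1899 20000)) (enc_mul (enc_norm (bx4q0_3.enc h1 h2)) (enc_norm (enc_sub (enc_rat _ 89 1250) (enc_scaleT 33 500 h1))))) (enc_add (enc_add (enc_scaleT 117 700 h1) (enc_rat _ 33897 350000)) (enc_mul (enc_norm (bx4q0_3.enc h1 h2)) (enc_norm (enc_sub (enc_rat _ 316 4375) (enc_scaleT 51 700 h1)))))) (enc_case (enc_subr 33 100 h1) (enc_add (enc_add (enc_scaleT 1449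 11000 h1) (enc_rat _ 327 3125)) (enc_mul (enc_norm (bx4q0_3.enc h1 h2)) (enc_norm (enc_sub (enc_rat _ 91 1250) (enc_scaleT 83 1100 h1))))) (enc_add (enc_sub (enc_rat _ 375009 1700000) (enc_scaleT 1867 8500 h1)) (enc_mul (enc_norm (bx4q0_3.enc h1 h2)) (enc_norm (enc_sub (enc_rat _ 12301 170000) (enc_scaleT 63 850 h1))))))))))⟩
noncomputable def l4q0 : Fn2 := ⟨_, _, fun h1 h2 => (enc_norm (enc_mul (cv4m.enc h1) (bx4q0.enc h1 h2)))⟩
noncomputable def bd4q0 : Fn2 := ⟨_, _, fun h1 h2 => (enc_norm (enc_case (enc_subr 33 2048 h1) (enc_case (enc_subr 1 100 h1) (enc_sub (enc_rat _ 22199 10000) (enc_scaleT 111 50 h1)) (enc_sub (enc_rat _ 6948433 3130000) (enc_scaleT 17408 7825 h1))) (enc_case (enc_subr 2613 100000 h1) (enc_sub (enc_rat _ 158117193 71230000) (enc_scaleT 47360 21369 h1)) (enc_case (enc_subr 779 25000 h1) (enc_sub (enc_rat _ 11167013 5030000) (enc_scaleT 1120 503 h1)) (enc_sub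 (enc_rat _ 433651 195350) (enc_scaleT 17345 7814 h1))))))⟩
noncomputable def kc4q0 : Fn2 := ⟨_, _, fun h1 h2 => (enc_norm (enc_mul (cv4m.enc h1) (bd4q0.enc h1 h2)))⟩
noncomputable def bf4q1 : Fn2 := ⟨_, _, fun h1 h2 => (enc_norm (enc_case (enc_subr 7 8 h1) (enc_add (enc_subr 4381 60000 (enc_scaleT 20119 18750 h1)) (enc_mul (enc_norm (enc_subr 9743 10000 h2)) (enc_norm (enc_sub (enc_rat _ 7 30000) (enc_scaleT 1 3750 h1))))) (enc_subr 913 12500 (enc_scaleT 13413 12500 h1))))⟩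
noncomputable def kf4q1 : Fn2 := ⟨_, _, fun h1 h2 => (enc_norm (enc_mul (cv4m.enc h1) (bf4q1.enc h1 h2)))⟩
noncomputable def bx4q1_3 : Fn2 := ⟨_, _, fun h1 h2 => (enc_subr 9743 10000 h2)⟩
noncomputable def bx4q1 : Fn2 := ⟨_, _, fun h1 h2 => (enc_norm (enc_case (enc_subr 7 8 h1) (enc_add (enc_sub (enc_rat _ 22153 100000) (enc_scaleT 2769 12500 h1)) (enc_mul (enc_norm (bx4q1_3.enc h1 h2)) (enc_norm (enc_sub (enc_rat _ 2119 30000) (enc_scaleT 53 750 h1))))) (enc_add (enc_sub (enc_rat _ 277 1250) (enc_scaleT 277 1250 h1)) (enc_mul (enc_norm (bx4q1_3.enc h1 h2)) (enc_norm (enc_sub (enc_rat _ 44 625) (enc_scaleT 44 625 h1)))))))⟩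
noncomputable def l4q1 : Fn2 := ⟨_, _, fun h1 h2 => (enc_norm (enc_mul (cv4m.enc h1) (bx4q1.enc h1 h2)))⟩
noncomputable def bd4q1 : Fn2 := ⟨_, _, fun h1 h2 => (enc_norm (enc_sub (enc_rat _ 111 50) (enc_scaleT 111 50 h1)))⟩
noncomputable def kc4q1 : Fn2 := ⟨_, _, fun h1 h2 => (enc_norm (enc_mul (cv4m.enc h1) (bd4q1.enc h1 h2)))⟩
noncomputable def cv4p : Fn1 := ⟨_, _, fun h1 => (enc_norm (enc_add (enc_scaleT 17 20 (enc_subr 1 2 (swg.enc h1))) (enc_scaleT 3 20 (c3g.enc h1))))⟩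
noncomputable def bf4q2_3 : Fn2 := ⟨_, _, fun h1 h2 => (enc_subr 9743 10000 h2)⟩
noncomputable def bf4q2 : Fn2 := ⟨_, _, fun h1 h2 => (enc_norm (enc_case (enc_subr 21 20 h1) (enc_case (enc_subr 2081 2048 h1) (enc_sub (enc_subr 1260217 825000 (enc_scaleT 259328 103125 h1)) (enc_scaleT 1 10000 (bf4q2_3.enc h1 h2))) (enc_case (enc_subr 25779 25000 h1) (enc_add (enc_subr 14704866243 9629900000 (enc_scaleT 242112 96299 h1)) (enc_mul (enc_norm (bf4q2_3.enc h1 h2)) (enc_norm (enc_subr 412464 60186875 (enc_scaleT 640 96299 h1))))) (enc_add (enc_subr 23985127 15700000 (enc_scaleT 2369 942 h1)) (enc_mul (enc_norm (bf4q2_3.enc h1 h2)) (enc_norm (enc_subr 8593 1570000 (enc_scaleT 5 942 h1))))))) (enc_case (enc_subr 231 200 h1) (enc_case (enc_subr 107 100 h1) (enc_add (enc_subr 305467 200000 (enc_scaleT 5029 2000 h1)) (enc_mul (enc_norm (bf4q2_3.enc h1 h2)) (enc_norm (enc_subr 103 20000 (enc_scaleT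 1 200 h1))))) (enc_add (enc_subr 81138 53125 (enc_scaleT 21373 8500 h1)) (enc_mul (enc_norm (bf4q2_3.enc h1 h2)) (enc_norm (enc_subr 411 85000 (enc_scaleT 2 425 h1)))))) (enc_case (enc_subr 13 10 h1) (enc_add (enc_subr 4429221 2900000 (enc_scaleT 1823 725 h1)) (enc_mul (enc_norm (bf4q2_3.enc h1 h2)) (enc_norm (enc_subr 267 36250 (enc_scaleT 1 145 h1))))) (enc_add (enc_subr 61091 40000 (enc_scaleT 50289 20000 h1)) (enc_mul (enc_norm (bf4q2_3.enc h1 h2)) (enc_norm (enc_subr 3 400 (enc_scaleT 7 1000 h1)))))))))⟩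
noncomputable def kf4q2 : Fn2 := ⟨_, _, fun h1 h2 => (enc_norm (enc_mul (cv4p.enc h1) (bf4q2.enc h1 h2)))⟩
noncomputable def bx4q2_3 : Fn2 := ⟨_, _, fun h1 h2 => (enc_subr 9743 10000 h2)⟩
noncomputable def bx4q2 : Fn2 := ⟨_, _, fun h1 h2 => (enc_norm (enc_case (enc_subr 21 20 h1) (enc_case (enc_subr 2081 2048 h1) (enc_add (enc_subr 107803 165000 (enc_scaleT 75136 103125 h1)) (enc_mul (enc_norm (bx4q2_3.enc h1 h2)) (enc_norm (enc_subr 849181 330000 (enc_scaleT 50176 20625 h1))))) (enc_case (enc_subr 25779 25000 h1) (enc_add (enc_subr 6296319423 9629900000 (enc_scaleT 70208 96299 h1)) (enc_mul (enc_norm (bx4q2_3.enc h1 h2)) (enc_norm (enc_subr 308898939 120373750 (enc_scaleT 233600 96299 h1))))) (enc_add (enc_subr 10268967 15700000 (enc_scaleT 229 314 h1)) (enc_mul (enc_norm (bx4q2_3.enc h1 h2)) (enc_norm (enc_subr 251259 98125 (enc_scaleT 380 157 h1))))))) (enc_case (enc_subr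 231 200 h1) (enc_case (enc_subr 107 100 h1) (enc_add (enc_subr 2043 3125 (enc_scaleT 729 1000 h1)) (enc_mul (enc_norm (bx4q2_3.enc h1 h2)) (enc_norm (enc_subr 51099 20000 (enc_scaleT 483 200 h1))))) (enc_add (enc_subr 1111927 1700000 (enc_scaleT 6199 8500 h1)) (enc_mul (enc_norm (bx4q2_3.enc h1 h2)) (enc_norm (enc_subr 86237 34000 (enc_scaleT 1019 425 h1)))))) (enc_case (enc_subr 13 10 h1) (enc_add (enc_subr 1899643 2900000 (enc_scaleT 10587 14500 h1)) (enc_mul (enc_norm (bx4q2_3.enc h1 h2)) (enc_norm (enc_subr 732181 290000 (enc_scaleT 1731 725 h1))))) (enc_add (enc_subr 26473 40000 (enc_scaleT 14707 20000 h1)) (enc_mul (enc_norm (bx4q2_3.enc h1 h2)) (enc_norm (enc_subr 25253 10000 (enc_scaleT 597 250 h1)))))))))⟩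
noncomputable def l4q2 : Fn2 := ⟨_, _, fun h1 h2 => (enc_norm (enc_mul (cv4p.enc h1) (bx4q2.enc h1 h2)))⟩
noncomputable def bd4q2_3 : Fn2 := ⟨_, _, fun h1 h2 => (enc_subr 9743 10000 h2)⟩
noncomputable def bd4q2 : Fn2 := ⟨_, _, fun h1 h2 => (enc_norm (enc_case (enc_subr 231 200 h1) (enc_add (enc_subr 22311401 310000 (enc_scaleT 74129 1550 h1)) (enc_mul (enc_norm (bd4q2_3.enc h1 h2)) (enc_norm (enc_subr 131 7750 (enc_scaleT 2 155 h1))))) (enc_add (enc_subr 3310727 46000 (enc_scaleT 54999 1150 h1)) (enc_mul (enc_norm (bd4q2_3.enc h1 h2)) (enc_norm (enc_subr 277 23000 (enc_scaleT 1 115 h1)))))))⟩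
noncomputable def kc4q2 : Fn2 := ⟨_, _, fun h1 h2 => (enc_norm (enc_mul (cv4p.enc h1) (bd4q2.enc h1 h2)))⟩
noncomputable def xc43 : Fn1 := ⟨_, _, fun h1 => (enc_norm (enc_add (enc_scaleT 17 20 (enc_subr 1 2 (swg.enc (ycg.enc h1)))) (enc_scaleT 3 20 h1)))⟩
noncomputable def kfc43_11 : Fn2 := ⟨_, _, fun h1 h2 => (enc_subr 9743 10000 h2)⟩
noncomputable def kfc43 : Fn2 := ⟨_, _, fun h1 h2 => (enc_norm (enc_mul (enc_norm (enc_add (enc_scaleT 17 20 (enc_subr 1 2 (swg.enc (ycg.enc h1)))) (enc_scaleT 3 20 h1))) (enc_norm (enc_case (enc_subr 987 500 (ycg.enc h1)) (enc_case (enc_subr 39 20 (ycg.enc h1)) (enc_case (enc_subr 193 100 (ycg.enc h1)) (enc_add (enc_subr 651773 430000 (enc_scaleT 7587 10750 (ycg.enc h1))) (enc_mul (enc_norm (kfc43_11.enc h1 h2)) (enc_norm (enc_sub (enc_rat _ 8853 17200) (enc_scaleT 1411 4300 (ycg.enc h1)))))) (enc_add (enc_subr 7581 5000 (enc_scaleT 353 500 (ycg.enc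 h1))) (enc_mul (enc_norm (kfc43_11.enc h1 h2)) (enc_norm (enc_sub (enc_rat _ 5183 10000) (enc_scaleT 33 100 (ycg.enc h1))))))) (enc_case (enc_subr 49221 25000 (ycg.enc h1)) (enc_add (enc_subr 29733 19625 (enc_scaleT 443 628 (ycg.enc h1))) (enc_mul (enc_norm (kfc43_11.enc h1 h2)) (enc_norm (enc_sub (enc_rat _ 210859 392500) (enc_scaleT 160 471 (ycg.enc h1)))))) (enc_add (enc_subr 3265629 2150000 (enc_scaleT 365 516 (ycg.enc h1))) (enc_mul (enc_norm (kfc43_11.enc h1 h2)) (enc_norm (enc_sub (enc_rat _ 222331 430000) (enc_scaleT 85 258 (ycg.enc h1)))))))) (enc_case (enc_sub (enc_rat _ 154764337 1000000000) h1) (enc_case (enc_subr 4063 2048 (ycg.enc h1)) (enc_add (enc_subr 11976397 7909375 (enc_scaleT 44608 63275 (ycg.enc h1))) (enc_mul (enc_norm (kfc43_11.enc h1 h2)) (enc_norm (enc_sub (enc_rat _ 13302529 25310000) (enc_scaleT 4224 12655 (ycg.enc h1)))))) (enc_add (enc_sub (enc_rat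 _ 3232484835591 6465561500000) (enc_scaleT 36276000 12931123 h1)) (enc_mul (enc_norm (kfc43_11.enc h1 h2)) (enc_norm (enc_subr 32973781 12931123000 (enc_neg (enc_scaleT 7900000 12931123 h1))))))) (enc_case (enc_sub (enc_rat _ 105307799 1000000000) h1) (enc_add (enc_sub (enc_rat _ 7726796797 15455168125) (enc_scaleT 69370000 24728269 h1)) (enc_mul (enc_norm (kfc43_11.enc h1 h2)) (enc_norm (enc_subr 166102819 123641345000 (enc_neg (enc_scaleT 15300000 24728269 h1)))))) (enc_case (enc_sub (enc_rat _ 54765409 1000000000) h1) (enc_add (enc_sub (enc_rat _ 2526902784691 5054239000000) (enc_scaleT 14179000 5054239 h1)) (enc_mul (enc_norm (kfc43_11.enc h1 h2)) (enc_norm (enc_subr 228117067 505423900000 (enc_neg (enc_scaleT 3170000 5054239 h1)))))) (enc_sub (enc_sub (enc_rat _ 1 2) (enc_scaleT 153680000 54765409 h1)) (enc_mul (enc_norm (kfc43_11.enc h1 h2)) (enc_scaleT 34800000 54765409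 h1))))))))))⟩
noncomputable def lc43_11 : Fn2 := ⟨_, _, fun h1 h2 => (enc_subr 9743 10000 h2)⟩
noncomputable def lc43 : Fn2 := ⟨_, _, fun h1 h2 => (enc_norm (enc_mul (enc_norm (enc_add (enc_scaleT 17 20 (enc_subr 1 2 (swg.enc (ycg.enc h1)))) (enc_scaleT 3 20 h1))) (enc_norm (enc_case (enc_subr 987 500 (ycg.enc h1)) (enc_case (enc_subr 39 20 (ycg.enc h1)) (enc_case (enc_subr 193 100 (ycg.enc h1)) (enc_add (enc_subr 437599 430000 (enc_scaleT 41821 43000 (ycg.enc h1))) (enc_mul (enc_norm (lc43_11.enc h1 h2)) (enc_norm (enc_subr 1093319 430000 (enc_scaleT 5159 2150 (ycg.enc h1)))))) (enc_add (enc_subr 202731 200000 (enc_scaleT 1941 2000 (ycg.enc h1))) (enc_mul (enc_norm (lc43_11.enc h1 h2)) (enc_norm (enc_subr 51063 20000 (enc_scaleT 481 200 (ycg.enc h1))))))) (enc_case (enc_subr 49221 25000 (ycg.enc h1)) (enc_add (enc_subr 7953763 7850000 (enc_scaleT 457 471 (ycg.enc h1))) (enc_mul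 (enc_norm (lc43_11.enc h1 h2)) (enc_norm (enc_subr 504911 196250 (enc_scaleT 2275 942 (ycg.enc h1)))))) (enc_add (enc_subr 4362377 4300000 (enc_scaleT 167 172 (ycg.enc h1))) (enc_mul (enc_norm (lc43_11.enc h1 h2)) (enc_norm (enc_subr 219233 86000 (enc_scaleT 310 129 (ycg.enc h1)))))))) (enc_case (enc_sub (enc_rat _ 154764337 1000000000) h1) (enc_case (enc_subr 4063 2048 (ycg.enc h1)) (enc_add (enc_subr 256806199 253100000 (enc_scaleT 12288 12655 (ycg.enc h1))) (enc_mul (enc_norm (lc43_11.enc h1 h2)) (enc_norm (enc_subr 65234421 25310000 (enc_scaleT 30592 12655 (ycg.enc h1)))))) (enc_add (enc_add (enc_scaleT 66000 12931123 h1) (enc_rat _ 5887476216749 6465561500000)) (enc_mul (enc_norm (lc43_11.enc h1 h2)) (enc_norm (enc_sub (enc_rat _ 215192610041 80819518750) (enc_scaleT 26180000 12931123 h1)))))) (enc_case (enc_sub (enc_rat _ 105307799 1000000000) h1) (enc_add (enc_add (enc_scaleT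 125000 24728269 h1) (enc_rat _ 4503500851819 4945653800000)) (enc_mul (enc_norm (lc43_11.enc h1 h2)) (enc_norm (enc_sub (enc_rat _ 1317420605919 494565380000) (enc_scaleT 50250000 24728269 h1))))) (enc_case (enc_sub (enc_rat _ 54765409 1000000000) h1) (enc_add (enc_add (enc_scaleT 549000 5054239 h1) (enc_rat _ 4547254798419 5054239000000)) (enc_mul (enc_norm (lc43_11.enc h1 h2)) (enc_norm (enc_sub (enc_rat _ 675644023173 252711950000) (enc_scaleT 10740000 5054239 h1))))) (enc_add (enc_add (enc_scaleT 8420000 54765409 h1) (enc_rat _ 44861 50000)) (enc_mul (enc_norm (lc43_11.enc h1 h2)) (enc_norm (enc_sub (enc_rat _ 26767 10000) (enc_scaleT 119500000 54765409 h1))))))))))))⟩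
noncomputable def kcc43_11 : Fn2 := ⟨_, _, fun h1 h2 => (enc_subr 9743 10000 h2)⟩
noncomputable def kcc43_32 : Fn2 := ⟨_, _, fun h1 h2 => (enc_scaleT 1 125 (kcc43_11.enc h1 h2))⟩
noncomputable def kcc43 : Fn2 := ⟨_, _, fun h1 h2 => (enc_norm (enc_mul (enc_norm (enc_add (enc_scaleT 17 20 (enc_subr 1 2 (swg.enc (ycg.enc h1)))) (enc_scaleT 3 20 h1))) (enc_norm (enc_case (enc_subr 197 100 (ycg.enc h1)) (enc_case (enc_subr 49221 25000 (ycg.enc h1)) (enc_add (enc_subr 562392383 7814000 (enc_scaleT 560560 11721 (ycg.enc h1))) (enc_mul (enc_norm (kcc43_11.enc h1 h2)) (enc_norm (enc_subr 83593 3907000 (enc_scaleT 175 11721 (ycg.enc h1)))))) (enc_add (enc_subr 5220791 72500 (enc_scaleT 2775 58 (ycg.enc h1))) (kcc43_32.enc h1 h2))) (enc_case (enc_subr 4063 2048 (ycg.enc h1)) (enc_add (enc_subr 2046749 28440 (enc_scaleT 850048 17775 (ycg.enc h1))) (kcc43_32.enc h1 h2)) (enc_add (enc_add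 (enc_scaleT 128556406250 2290195749 h1) (enc_rat _ 35373 3340)) (enc_mul (enc_norm (kcc43_11.enc h1 h2)) (enc_norm (enc_sub (enc_rat _ 638 167) (enc_scaleT 39791500000 2290195749 h1))))))))))⟩
noncomputable def cv5m : Fn1 := ⟨_, _, fun h1 => (enc_norm (enc_add (enc_scaleT 3 10 (enc_add (swg.enc h1) (enc_rat _ 1 2))) (enc_scaleT 7 10 (c3g.enc h1))))⟩
noncomputable def bf5q0_3 : Fn2 := ⟨_, _, fun h1 h2 => (enc_subr 9743 10000 h2)⟩
noncomputable def bf5q0_35 : Fn2 := ⟨_, _, fun h1 h2 => (enc_scaleT 19 5000 (bf5q0_3.enc h1 h2))⟩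
noncomputable def bf5q0_84 : Fn2 := ⟨_, _, fun h1 h2 => (enc_scaleT 1949 1000 h1)⟩
noncomputable def bf5q0_86 : Fn2 := ⟨_, _, fun h1 h2 => (enc_sub (enc_rat _ 11113 25000) (bf5q0_84.enc h1 h2))⟩
noncomputable def bf5q0 : Fn2 := ⟨_, _, fun h1 h2 => (enc_norm (enc_case (enc_subr 779 25000 h1) (enc_case (enc_subr 27 2000 h1) (enc_case (enc_subr 1 200 h1) (enc_add (enc_sub (enc_rat _ 11113 25000) (enc_scaleT 487 250 h1)) (enc_scaleT 39 10000 (bf5q0_3.enc h1 h2))) (enc_case (enc_subr 21 2000 h1) (enc_add (enc_sub (enc_rat _ 244489 550000) (enc_scaleT 536 275 h1)) (enc_mul (enc_norm (bf5q0_3.enc h1 h2)) (enc_norm (enc_sub (enc_rat _ 439 110000) (enc_scaleT 1 55 h1))))) (enc_add (enc_sub (enc_rat _ 88907 200000) (enc_scaleT 39 20 h1)) (bf5q0_35.enc h1 h2)))) (enc_case (enc_subr 33 2048 h1) (enc_add (enc_sub (enc_rat _ 9912451 22300000) (enc_scaleT 32576 16725 h1)) (bf5q0_35.enc h1 h2))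 (enc_case (enc_subr 1 40 h1) (enc_add (enc_sub (enc_rat _ 1011293 2275000) (enc_scaleT 110848 56875 h1)) (enc_mul (enc_norm (bf5q0_3.enc h1 h2)) (enc_norm (enc_sub (enc_rat _ 3623 910000) (enc_scaleT 128 11375 h1))))) (enc_add (enc_sub (enc_rat _ 1369189 3080000) (enc_scaleT 1201 616 h1)) (enc_scaleT 37 10000 (bf5q0_3.enc h1 h2)))))) (enc_case (enc_subr 1 10 h1) (enc_case (enc_subr 1 20 h1) (enc_add (enc_sub (enc_rat _ 6978999 15700000) (enc_scaleT 306 157 h1)) (enc_mul (enc_norm (bf5q0_3.enc h1 h2)) (enc_norm (enc_sub (enc_rat _ 3797 942000) (enc_scaleT 5 471 h1))))) (enc_case (enc_subr 7 100 h1) (enc_add (bf5q0_86.enc h1 h2) (enc_mul (enc_norm (bf5q0_3.enc h1 h2)) (enc_norm (enc_sub (enc_rat _ 3 800) (enc_scaleT 1 200 h1))))) (enc_add (bf5q0_86.enc h1 h2) (enc_mul (enc_norm (bf5q0_3.enc h1 h2)) (enc_norm (enc_sub (enc_rat _ 41 10000) (enc_scaleT 1 100 h1))))))) (enc_case (enc_subr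 11 50 h1) (enc_case (enc_subr 3 20 h1) (enc_add (bf5q0_86.enc h1 h2) (enc_mul (enc_norm (bf5q0_3.enc h1 h2)) (enc_norm (enc_sub (enc_rat _ 37 10000) (enc_scaleT 3 500 h1))))) (enc_add (enc_sub (enc_rat _ 311179 700000) (enc_scaleT 3411 1750 h1)) (enc_mul (enc_norm (bf5q0_3.enc h1 h2)) (enc_norm (enc_sub (enc_rat _ 16 4375) (enc_scaleT 1 175 h1)))))) (enc_case (enc_subr 33 100 h1) (enc_add (enc_sub (enc_rat _ 44451 100000) (bf5q0_84.enc h1 h2)) (enc_mul (enc_norm (bf5q0_3.enc h1 h2)) (enc_norm (enc_sub (enc_rat _ 19 5000) (enc_scaleT 7 1100 h1))))) (enc_add (enc_sub (enc_rat _ 7557 17000) (enc_scaleT 16567 8500 h1)) (enc_mul (enc_norm (bf5q0_3.enc h1 h2)) (enc_norm (enc_sub (enc_rat _ 619 170000) (enc_scaleT 1 170 h1))))))))))⟩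
noncomputable def kf5q0 : Fn2 := ⟨_, _, fun h1 h2 => (enc_norm (enc_mul (cv5m.enc h1) (bf5q0.enc h1 h2)))⟩
noncomputable def bx5q0_3 : Fn2 := ⟨_, _, fun h1 h2 => (enc_subr 9743 10000 h2)⟩
noncomputable def bx5q0_10 : Fn2 := ⟨_, _, fun h1 h2 => (enc_scaleT 73 500 h1)⟩
noncomputable def bx5q0 : Fn2 := ⟨_, _, fun h1 h2 => (enc_norm (enc_case (enc_subr 779 25000 h1) (enc_case (enc_subr 27 2000 h1) (enc_case (enc_subr 1 200 h1) (enc_add (enc_sub (enc_rat _ 28449 100000) (bx5q0_10.enc h1 h2)) (enc_mul (enc_norm (bx5q0_3.enc h1 h2)) (enc_norm (enc_subr 19 625 (enc_scaleT 6 25 h1))))) (enc_case (enc_subr 21 2000 h1) (enc_add (enc_sub (enc_rat _ 39117 137500) (enc_scaleT 8 55 h1)) (enc_mul (enc_norm (bx5q0_3.enc h1 h2)) (enc_norm (enc_subr 833 27500 (enc_scaleT 12 55 h1))))) (enc_add (enc_sub (enc_rat _ 569 2000) (enc_scaleT 11 75 h1)) (enc_mul (enc_norm (bx5q0_3.enc h1 h2)) (enc_norm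 (enc_subr 609 20000 (enc_scaleT 7 30 h1))))))) (enc_case (enc_subr 33 2048 h1) (enc_add (enc_sub (enc_rat _ 1585993 5575000) (enc_scaleT 2432 16725 h1)) (enc_mul (enc_norm (bx5q0_3.enc h1 h2)) (enc_norm (enc_subr 66639 2230000 (enc_scaleT 128 669 h1))))) (enc_case (enc_subr 1 40 h1) (enc_add (enc_sub (enc_rat _ 2588759 9100000) (enc_scaleT 8256 56875 h1)) (enc_mul (enc_norm (bx5q0_3.enc h1 h2)) (enc_norm (enc_subr 27523 910000 (enc_scaleT 2432 11375 h1))))) (enc_add (enc_sub (enc_rat _ 219067 770000) (enc_scaleT 45 308 h1)) (enc_mul (enc_norm (bx5q0_3.enc h1 h2)) (enc_norm (enc_subr 46471 1540000 (enc_scaleT 65 308 h1)))))))) (enc_case (enc_subr 1 10 h1) (enc_case (enc_subr 1 20 h1) (enc_add (enc_sub (enc_rat _ 1339987 4710000) (enc_scaleT 275 1884 h1)) (enc_mul (enc_norm (bx5q0_3.enc h1 h2)) (enc_norm (enc_subr 70379 2355000 (enc_scaleT 95 471 h1))))) (enc_case (enc_subr 7 100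 h1) (enc_add (enc_sub (enc_rat _ 11379 40000) (enc_scaleT 291 2000 h1)) (enc_mul (enc_norm (bx5q0_3.enc h1 h2)) (enc_norm (enc_subr 581 20000 (enc_scaleT 37 200 h1))))) (enc_add (enc_sub (enc_rat _ 28451 100000) (bx5q0_10.enc h1 h2)) (enc_mul (enc_norm (bx5q0_3.enc h1 h2)) (enc_norm (enc_subr 427 15000 (enc_scaleT 53 300 h1))))))) (enc_case (enc_subr 11 50 h1) (enc_case (enc_subr 3 20 h1) (enc_add (enc_sub (enc_rat _ 28449 100000) (enc_scaleT 729 5000 h1)) (enc_mul (enc_norm (bx5q0_3.enc h1 h2)) (enc_norm (enc_subr 13 500 (enc_scaleT 19 125 h1))))) (enc_add (enc_sub (enc_rat _ 7113 25000) (bx5q0_10.enc h1 h2)) (enc_mul (enc_norm (bx5q0_3.enc h1 h2)) (enc_norm (enc_subr 1529 70000 (enc_scaleT 87 700 h1)))))) (enc_case (enc_subr 33 100 h1) (enc_add (enc_sub (enc_rat _ 14229 50000) (enc_scaleT 1609 11000 h1)) (enc_mul (enc_norm (bx5q0_3.enc h1 h2)) (enc_norm (enc_subr 121 10000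 (enc_scaleT 2 25 h1))))) (enc_add (enc_sub (enc_rat _ 592533 1700000) (enc_scaleT 2891 8500 h1)) (enc_mul (enc_norm (bx5q0_3.enc h1 h2)) (enc_norm (enc_add (enc_scaleT 31 1700 h1) (enc_rat _ 88 10625))))))))))⟩
noncomputable def l5q0 : Fn2 := ⟨_, _, fun h1 h2 => (enc_norm (enc_mul (cv5m.enc h1) (bx5q0.enc h1 h2)))⟩
noncomputable def bd5q0 : Fn2 := ⟨_, _, fun h1 h2 => (enc_norm (enc_case (enc_subr 33 2048 h1) (enc_case (enc_subr 1 100 h1) (enc_sub (enc_rat _ 46187 2000) (enc_scaleT 2309 100 h1)) (enc_sub (enc_rat _ 36141441 1565000) (enc_scaleT 180736 7825 h1))) (enc_case (enc_subr 2613 100000 h1) (enc_sub (enc_rat _ 1644948447 71230000) (enc_scaleT 164480 7123 h1)) (enc_case (enc_subr 779 25000 h1) (enc_sub (enc_rat _ 116161509 5030000) (enc_scaleT 11620 503 h1)) (enc_sub (enc_rat _ 338348491 14651250) (enc_scaleT 541355 23442 h1))))))⟩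
noncomputable def kc5q0 : Fn2 := ⟨_, _, fun h1 h2 => (enc_norm (enc_mul (cv5m.enc h1) (bd5q0.enc h1 h2)))⟩
noncomputable def bf5q1_3 : Fn2 := ⟨_, _, fun h1 h2 => (enc_subr 9743 10000 h2)⟩
noncomputable def bf5q1 : Fn2 := ⟨_, _, fun h1 h2 => (enc_norm (enc_case (enc_subr 7 8 h1) (enc_add (enc_subr 18323 60000 (enc_scaleT 12238 9375 h1)) (enc_mul (enc_norm (bf5q1_3.enc h1 h2)) (enc_norm (enc_sub (enc_rat _ 59 30000) (enc_scaleT 4 1875 h1))))) (enc_add (enc_subr 3817 12500 (enc_scaleT 16317 12500 h1)) (enc_mul (enc_norm (bf5q1_3.enc h1 h2)) (enc_norm (enc_sub (enc_rat _ 1 1250) (enc_scaleT 1 1250 h1)))))))⟩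
noncomputable def kf5q1 : Fn2 := ⟨_, _, fun h1 h2 => (enc_norm (enc_mul (cv5m.enc h1) (bf5q1.enc h1 h2)))⟩
noncomputable def bx5q1_3 : Fn2 := ⟨_, _, fun h1 h2 => (enc_subr 9743 10000 h2)⟩
noncomputable def bx5q1 : Fn2 := ⟨_, _, fun h1 h2 => (enc_norm (enc_case (enc_subr 7 8 h1) (enc_add (enc_sub (enc_rat _ 109799 300000) (enc_scaleT 14063 37500 h1)) (enc_mul (enc_norm (bx5q1_3.enc h1 h2)) (enc_norm (enc_sub (enc_rat _ 599 15000) (enc_scaleT 169 3750 h1))))) (enc_add (enc_sub (enc_rat _ 1893 6250) (enc_scaleT 1893 6250 h1)) (enc_mul (enc_norm (bx5q1_3.enc h1 h2)) (enc_norm (enc_sub (enc_rat _ 1 250) (enc_scaleT 1 250 h1)))))))⟩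
noncomputable def l5q1 : Fn2 := ⟨_, _, fun h1 h2 => (enc_norm (enc_mul (cv5m.enc h1) (bx5q1.enc h1 h2)))⟩
noncomputable def bd5q1 : Fn2 := ⟨_, _, fun h1 h2 => (enc_norm (enc_sub (enc_rat _ 28867 1250) (enc_scaleT 28867 1250 h1)))⟩
noncomputable def kc5q1 : Fn2 := ⟨_, _, fun h1 h2 => (enc_norm (enc_mul (cv5m.enc h1) (bd5q1.enc h1 h2)))⟩
noncomputable def cv5p : Fn1 := ⟨_, _, fun h1 => (enc_norm (enc_add (enc_scaleT 3 10 (enc_subr 1 2 (swg.enc h1))) (enc_scaleT 7 10 (c3g.enc h1))))⟩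
noncomputable def bf5q2_3 : Fn2 := ⟨_, _, fun h1 h2 => (enc_subr 9743 10000 h2)⟩
noncomputable def bf5q2 : Fn2 := ⟨_, _, fun h1 h2 => (enc_norm (enc_case (enc_subr 21 20 h1) (enc_case (enc_subr 2081 2048 h1) (enc_add (enc_subr 5040499 825000 (enc_scaleT 633152 103125 h1)) (enc_mul (enc_norm (bf5q2_3.enc h1 h2)) (enc_norm (enc_subr 20113 330000 (enc_scaleT 1024 20625 h1))))) (enc_case (enc_subr 25779 25000 h1) (enc_add (enc_subr 58834670939 9629900000 (enc_scaleT 591232 96299 h1)) (enc_mul (enc_norm (bf5q2_3.enc h1 h2)) (enc_norm (enc_subr 794761 13757000 (enc_scaleT 640 13757 h1))))) (enc_add (enc_subr 23980323 3925000 (enc_scaleT 11567 1884 h1)) (enc_mul (enc_norm (bf5q2_3.enc h1 h2)) (enc_norm (enc_subr 92723 1570000 (enc_scaleT 15 314 h1))))))) (enc_case (enc_subr 231 200 h1) (enc_case (enc_subr 107 100 h1) (enc_add (enc_subr 305503 50000 (enc_scaleT 307 50 h1)) (enc_mul (enc_norm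 (bf5q2_3.enc h1 h2)) (enc_norm (enc_subr 307 5000 (enc_scaleT 1 20 h1))))) (enc_add (enc_subr 519323 85000 (enc_scaleT 52187 8500 h1)) (enc_mul (enc_norm (bf5q2_3.enc h1 h2)) (enc_norm (enc_subr 9689 170000 (enc_scaleT 39 850 h1)))))) (enc_case (enc_subr 13 10 h1) (enc_add (enc_subr 17718337 2900000 (enc_scaleT 44513 7250 h1)) (enc_mul (enc_norm (bf5q2_3.enc h1 h2)) (enc_norm (enc_subr 8203 145000 (enc_scaleT 33 725 h1))))) (enc_add (enc_subr 305487 50000 (enc_scaleT 61397 10000 h1)) (enc_mul (enc_norm (bf5q2_3.enc h1 h2)) (enc_norm (enc_subr 221 4000 (enc_scaleT 89 2000 h1)))))))))⟩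
noncomputable def kf5q2 : Fn2 := ⟨_, _, fun h1 h2 => (enc_norm (enc_mul (cv5p.enc h1) (bf5q2.enc h1 h2)))⟩
noncomputable def bx5q2_3 : Fn2 := ⟨_, _, fun h1 h2 => (enc_subr 9743 10000 h2)⟩
noncomputable def bx5q2 : Fn2 := ⟨_, _, fun h1 h2 => (enc_norm (enc_case (enc_subr 21 20 h1) (enc_case (enc_subr 2081 2048 h1) (enc_add (enc_subr 378419 550000 (enc_scaleT 20224 34375 h1)) (enc_mul (enc_norm (bx5q2_3.enc h1 h2)) (enc_norm (enc_subr 475183 330000 (enc_scaleT 7808 4125 h1))))) (enc_case (enc_subr 25779 25000 h1) (enc_add (enc_subr 6624075203 9629900000 (enc_scaleT 56640 96299 h1)) (enc_mul (enc_norm (bx5q2_3.enc h1 h2)) (enc_norm (enc_subr 200126787 137570000 (enc_scaleT 26240 13757 h1))))) (enc_add (enc_subr 10798553 15700000 (enc_scaleT 277 471 h1)) (enc_mul (enc_norm (bx5q2_3.enc h1 h2)) (enc_norm (enc_subr 2289483 1570000 (enc_scaleT 300 157 h1))))))) (enc_case (enc_subr 231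 200 h1) (enc_case (enc_subr 107 100 h1) (enc_add (enc_subr 137643 200000 (enc_scaleT 1177 2000 h1)) (enc_mul (enc_norm (bx5q2_3.enc h1 h2)) (enc_norm (enc_subr 924 625 (enc_scaleT 193 100 h1))))) (enc_add (enc_subr 585063 850000 (enc_scaleT 5003 8500 h1)) (enc_mul (enc_norm (bx5q2_3.enc h1 h2)) (enc_norm (enc_subr 254003 170000 (enc_scaleT 1653 850 h1)))))) (enc_case (enc_subr 13 10 h1) (enc_add (enc_subr 2006601 2900000 (enc_scaleT 429 725 h1)) (enc_mul (enc_norm (bx5q2_3.enc h1 h2)) (enc_norm (enc_subr 442811 290000 (enc_scaleT 2861 1450 h1))))) (enc_add (enc_subr 139173 200000 (enc_scaleT 2379 4000 h1)) (enc_mul (enc_norm (bx5q2_3.enc h1 h2)) (enc_norm (enc_subr 8063 5000 (enc_scaleT 2039 1000 h1)))))))))⟩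
noncomputable def l5q2 : Fn2 := ⟨_, _, fun h1 h2 => (enc_norm (enc_mul (cv5p.enc h1) (bx5q2.enc h1 h2)))⟩
noncomputable def bd5q2_3 : Fn2 := ⟨_, _, fun h1 h2 => (enc_subr 9743 10000 h2)⟩
noncomputable def bd5q2 : Fn2 := ⟨_, _, fun h1 h2 => (enc_norm (enc_case (enc_subr 231 200 h1) (enc_sub (enc_subr 36897907 310000 (enc_scaleT 4261 62 h1)) (enc_scaleT 1 1000 (bd5q2_3.enc h1 h2))) (enc_add (enc_subr 27375787 230000 (enc_scaleT 237103 3450 h1)) (enc_mul (enc_norm (bd5q2_3.enc h1 h2)) (enc_norm (enc_subr 1 230 (enc_scaleT 1 345 h1)))))))⟩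
noncomputable def kc5q2 : Fn2 := ⟨_, _, fun h1 h2 => (enc_norm (enc_mul (cv5p.enc h1) (bd5q2.enc h1 h2)))⟩
noncomputable def xc53 : Fn1 := ⟨_, _, fun h1 => (enc_norm (enc_add (enc_scaleT 3 10 (enc_subr 1 2 (swg.enc (ycg.enc h1)))) (enc_scaleT 7 10 h1)))⟩
noncomputable def kfc53_11 : Fn2 := ⟨_, _, fun h1 h2 => (enc_subr 9743 10000 h2)⟩
noncomputable def kfc53 : Fn2 := ⟨_, _, fun h1 h2 => (enc_norm (enc_mul (enc_norm (enc_add (enc_scaleT 3 10 (enc_subr 1 2 (swg.enc (ycg.enc h1)))) (enc_scaleT 7 10 h1))) (enc_norm (enc_case (enc_subr 987 500 (ycg.enc h1)) (enc_case (enc_subr 39 20 (ycg.enc h1)) (enc_case (enc_subr 193 100 (ycg.enc h1)) (enc_add (enc_subr 13746817 4300000 (enc_scaleT 3227 1720 (ycg.enc h1))) (enc_mul (enc_norm (kfc53_11.enc h1 h2)) (enc_norm (enc_sub (enc_rat _ 96391 430000) (enc_scaleT 158 1075 (ycg.enc h1)))))) (enc_add (enc_subr 639517 200000 (enc_scaleT 3753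 2000 (ycg.enc h1))) (enc_mul (enc_norm (kfc53_11.enc h1 h2)) (enc_norm (enc_sub (enc_rat _ 23 100) (enc_scaleT 3 20 (ycg.enc h1))))))) (enc_case (enc_subr 49221 25000 (ycg.enc h1)) (enc_add (enc_subr 50180537 15700000 (enc_scaleT 589 314 (ycg.enc h1))) (enc_mul (enc_norm (kfc53_11.enc h1 h2)) (enc_norm (enc_sub (enc_rat _ 571 2512) (enc_scaleT 70 471 (ycg.enc h1)))))) (enc_add (enc_subr 13745177 4300000 (enc_scaleT 242 129 (ycg.enc h1))) (enc_mul (enc_norm (kfc53_11.enc h1 h2)) (enc_norm (enc_sub (enc_rat _ 8677 43000) (enc_scaleT 35 258 (ycg.enc h1)))))))) (enc_case (enc_sub (enc_rat _ 154764337 1000000000) h1) (enc_case (enc_subr 4063 2048 (ycg.enc h1)) (enc_add (enc_subr 809190129 253100000 (enc_scaleT 23744 12655 (ycg.enc h1))) (enc_mul (enc_norm (kfc53_11.enc h1 h2)) (enc_norm (enc_sub (enc_rat _ 59097 253100) (enc_scaleT 384 2531 (ycg.enc h1)))))) (enc_add (enc_add (enc_scaleT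 4914000 12931123 h1) (enc_rat _ 714084863819 1616390375000)) (enc_mul (enc_norm (kfc53_11.enc h1 h2)) (enc_norm (enc_subr 416809581 646556150000 (enc_neg (enc_scaleT 3940000 12931123 h1))))))) (enc_case (enc_sub (enc_rat _ 105307799 1000000000) h1) (enc_add (enc_add (enc_scaleT 9405000 24728269 h1) (enc_rat _ 436926623569 989130760000)) (enc_mul (enc_norm (kfc53_11.enc h1 h2)) (enc_norm (enc_subr 270810277 494565380000 (enc_neg (enc_scaleT 7550000 24728269 h1)))))) (enc_case (enc_sub (enc_rat _ 54765409 1000000000) h1) (enc_add (enc_add (enc_scaleT 1918000 5054239 h1) (enc_rat _ 1116525453469 2527119500000)) (enc_mul (enc_norm (kfc53_11.enc h1 h2)) (enc_norm (enc_sub (enc_rat _ 13908839 63177987500) (enc_scaleT 1580000 5054239 h1))))) (enc_sub (enc_sub (enc_rat _ 1 2) (enc_scaleT 37400000 54765409 h1)) (enc_mul (enc_norm (kfc53_11.enc h1 h2)) (enc_scaleT 16900000 54765409 h1))))))))))⟩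
noncomputable def lc53_11 : Fn2 := ⟨_, _, fun h1 h2 => (enc_subr 9743 10000 h2)⟩
noncomputable def lc53 : Fn2 := ⟨_, _, fun h1 h2 => (enc_norm (enc_mul (enc_norm (enc_add (enc_scaleT 3 10 (enc_subr 1 2 (swg.enc (ycg.enc h1)))) (enc_scaleT 7 10 h1))) (enc_norm (enc_case (enc_subr 987 500 (ycg.enc h1)) (enc_case (enc_subr 39 20 (ycg.enc h1)) (enc_case (enc_subr 193 100 (ycg.enc h1)) (enc_add (enc_subr 1068279 537500 (enc_scaleT 62601 43000 (ycg.enc h1))) (enc_mul (enc_norm (lc53_11.enc h1 h2)) (enc_norm (enc_subr 821863 430000 (enc_scaleT 2406 1075 (ycg.enc h1)))))) (enc_add (enc_subr 25113 12500 (enc_scaleT 1467 1000 (ycg.enc h1))) (enc_mul (enc_norm (lc53_11.enc h1 h2)) (enc_norm (enc_subr 20307 10000 (enc_scaleT 23 10 (ycg.enc h1))))))) (enc_case (enc_subr 49221 25000 (ycg.enc h1)) (enc_add (enc_subr 31528473 15700000 (enc_scaleT 921 628 (ycg.enc h1))) (enc_mul (enc_norm (lc53_11.enc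 h1 h2)) (enc_norm (enc_subr 3312999 1570000 (enc_scaleT 735 314 (ycg.enc h1)))))) (enc_add (enc_subr 8639367 4300000 (enc_scaleT 757 516 (ycg.enc h1))) (enc_mul (enc_norm (lc53_11.enc h1 h2)) (enc_norm (enc_subr 463671 215000 (enc_scaleT 305 129 (ycg.enc h1)))))))) (enc_case (enc_sub (enc_rat _ 154764337 1000000000) h1) (enc_case (enc_subr 4063 2048 (ycg.enc h1)) (enc_add (enc_subr 508297189 253100000 (enc_scaleT 3712 2531 (ycg.enc h1))) (enc_mul (enc_norm (lc53_11.enc h1 h2)) (enc_norm (enc_subr 27606277 12655000 (enc_scaleT 6016 2531 (ycg.enc h1)))))) (enc_add (enc_add (enc_scaleT 688000 12931123 h1) (enc_rat _ 5751994772077 6465561500000)) (enc_mul (enc_norm (lc53_11.enc h1 h2)) (enc_norm (enc_sub (enc_rat _ 1702289145747 646556150000) (enc_scaleT 5820000 12931123 h1)))))) (enc_case (enc_sub (enc_rat _ 105307799 1000000000) h1) (enc_add (enc_add (enc_scaleT 1315000 24728269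 h1) (enc_rat _ 175994046271 197826152000)) (enc_mul (enc_norm (lc53_11.enc h1 h2)) (enc_norm (enc_sub (enc_rat _ 81241310257 30910336250) (enc_scaleT 10400000 24728269 h1))))) (enc_case (enc_sub (enc_rat _ 54765409 1000000000) h1) (enc_add (enc_sub (enc_rat _ 226764385113 252711950000) (enc_scaleT 100000 5054239 h1)) (enc_mul (enc_norm (lc53_11.enc h1 h2)) (enc_norm (enc_sub (enc_rat _ 1346137629019 505423900000) (enc_scaleT 3810000 5054239 h1))))) (enc_add (enc_sub (enc_rat _ 44861 50000) (enc_scaleT 980000 54765409 h1)) (enc_mul (enc_norm (lc53_11.enc h1 h2)) (enc_norm (enc_sub (enc_rat _ 26767 10000) (enc_scaleT 54600000 54765409 h1))))))))))))⟩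
noncomputable def kcc53_11 : Fn2 := ⟨_, _, fun h1 h2 => (enc_subr 9743 10000 h2)⟩
noncomputable def kcc53_33 : Fn2 := ⟨_, _, fun h1 h2 => (enc_scaleT 1 1000 (kcc53_11.enc h1 h2))⟩
noncomputable def kcc53 : Fn2 := ⟨_, _, fun h1 h2 => (enc_norm (enc_mul (enc_norm (enc_add (enc_scaleT 3 10 (enc_subr 1 2 (swg.enc (ycg.enc h1)))) (enc_scaleT 7 10 h1))) (enc_norm (enc_case (enc_subr 197 100 (ycg.enc h1)) (enc_case (enc_subr 49221 25000 (ycg.enc h1)) (enc_add (enc_subr 4650317183 39070000 (enc_scaleT 1611065 23442 (ycg.enc h1))) (enc_mul (enc_norm (kcc53_11.enc h1 h2)) (enc_norm (enc_sub (enc_rat _ 25 7814) (enc_scaleT 25 11721 (ycg.enc h1)))))) (enc_sub (enc_subr 34506661 290000 (enc_scaleT 3985 58 (ycg.enc h1))) (kcc53_33.enc h1 h2))) (enc_case (enc_subr 4063 2048 (ycg.enc h1)) (enc_sub (enc_subr 169259453 1422000 (enc_scaleT 1221632 17775 (ycg.enc h1))) (kcc53_33.enc h1 h2)) (enc_add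 (enc_add (enc_scaleT 70221218750 2290195749 h1) (enc_rat _ 35373 3340)) (enc_mul (enc_norm (kcc53_11.enc h1 h2)) (enc_norm (enc_sub (enc_rat _ 638 167) (enc_scaleT 39885437500 2290195749 h1))))))))))⟩
noncomputable def kf6q0 : Fn2 := ⟨_, _, fun h1 h2 => (enc_norm (enc_sub (enc_mul h1 (kcg.enc (enc_half h1) h2)) (enc_mul (enc_norm (enc_mul (enc_sq h1) (enc_norm (enc_add (c3g.enc h1) (enc_rat _ 3 2))))) (enc_inv (enc_mul (enc_norm (enc_sub (enc_pnc _ 1) h1)) (enc_norm (enc_add (enc_pnc _ 1) h1)))))))⟩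
noncomputable def l6q0_6 : Fn2 := ⟨_, _, fun h1 h2 => (enc_half h1)⟩
noncomputable def l6q0_7 : Fn2 := ⟨_, _, fun h1 h2 => (enc_half (c3g.enc h1))⟩
noncomputable def l6q0_8 : Fn2 := ⟨_, _, fun h1 h2 => (enc_scaleT 1 4 h1)⟩
noncomputable def l6q0 : Fn2 := ⟨_, _, fun h1 h2 => (enc_norm (enc_add (txg.enc (l6q0_6.enc h1 h2) (enc_norm (enc_sub (l6q0_7.enc h1 h2) (l6q0_8.enc h1 h2))) h2) (txg.enc (enc_neg (l6q0_6.enc h1 h2)) (enc_norm (enc_add (l6q0_7.enc h1 h2) (l6q0_8.enc h1 h2))) h2)))⟩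
noncomputable def kc6q0_3 : Fn2 := ⟨_, _, fun h1 h2 => (enc_subr 9743 10000 h2)⟩
noncomputable def kc6q0_6 : Fn2 := ⟨_, _, fun h1 h2 => (enc_half h1)⟩
noncomputable def kc6q0 : Fn2 := ⟨_, _, fun h1 h2 => (enc_norm (enc_case (enc_subr 167 1000 (kc6q0_6.enc h1 h2)) (enc_add (enc_add (enc_scaleT 5729 3340 h1) (enc_rat _ 327 625)) (enc_mul (enc_norm (kc6q0_3.enc h1 h2)) (enc_norm (enc_subr 13 1000 (enc_neg (enc_scaleT 13 334 h1)))))) (enc_case (enc_subr 333 1000 (kc6q0_6.enc h1 h2)) (enc_add (enc_add (enc_scaleT 712 415 h1) (enc_rat _ 434147 830000)) (enc_mul (enc_norm (kc6q0_3.enc h1 h2)) (enc_norm (enc_subr 429 33200 (enc_neg (enc_scaleT 13 332 h1)))))) (enc_add (enc_sub (enc_rat _ 16657 3340) (enc_scaleT 16657 3340 h1)) (enc_mul (enc_norm (kc6q0_3.enc h1 h2)) (enc_norm (enc_subr 39 334 (enc_scaleT 39 334 h1))))))))⟩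
noncomputable def kf6q1 : Fn2 := ⟨_, _, fun h1 h2 => (enc_norm (enc_add (enc_mul (enc_norm (enc_mul h1 (enc_norm (enc_add (c3g.enc h1) (enc_rat _ 3 2))))) (enc_inv (enc_add (enc_pnc _ 1) h1))) (enc_mul (enc_norm (enc_subn 1 h1)) (kcg.enc (enc_half h1) h2))))⟩
noncomputable def l6q1_7 : Fn2 := ⟨_, _, fun h1 h2 => (enc_half h1)⟩
noncomputable def l6q1_8 : Fn2 := ⟨_, _, fun h1 h2 => (enc_half (c3g.enc h1))⟩
noncomputable def l6q1_9 : Fn2 := ⟨_, _, fun h1 h2 => (enc_scaleT 1 4 h1)⟩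
noncomputable def l6q1 : Fn2 := ⟨_, _, fun h1 h2 => (enc_norm (enc_add (txg.enc (l6q1_7.enc h1 h2) (enc_norm (enc_sub (l6q1_8.enc h1 h2) (l6q1_9.enc h1 h2))) h2) (txg.enc (enc_neg (l6q1_7.enc h1 h2)) (enc_norm (enc_add (l6q1_8.enc h1 h2) (l6q1_9.enc h1 h2))) h2)))⟩
noncomputable def kc6q1_3 : Fn2 := ⟨_, _, fun h1 h2 => (enc_subr 9743 10000 h2)⟩
noncomputable def kc6q1_7 : Fn2 := ⟨_, _, fun h1 h2 => (enc_half h1)⟩
noncomputable def kc6q1 : Fn2 := ⟨_, _, fun h1 h2 => (enc_norm (enc_case (enc_subr 167 1000 (kc6q1_7.enc h1 h2)) (enc_add (enc_add (enc_scaleT 5729 3340 h1) (enc_rat _ 327 625)) (enc_mul (enc_norm (kc6q1_3.enc h1 h2)) (enc_norm (enc_subr 13 1000 (enc_neg (enc_scaleT 13 334 h1)))))) (enc_case (enc_subr 333 1000 (kc6q1_7.enc h1 h2)) (enc_add (enc_add (enc_scaleT 712 415 h1) (enc_rat _ 434147 830000)) (enc_mul (enc_norm (kc6q1_3.enc h1 h2)) (enc_norm (enc_subr 429 33200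 (enc_neg (enc_scaleT 13 332 h1)))))) (enc_add (enc_sub (enc_rat _ 16657 3340) (enc_scaleT 16657 3340 h1)) (enc_mul (enc_norm (kc6q1_3.enc h1 h2)) (enc_norm (enc_subr 39 334 (enc_scaleT 39 334 h1))))))))⟩
noncomputable def kf6q2 : Fn2 := ⟨_, _, fun h1 h2 => (enc_norm (enc_add (enc_mul (enc_norm (enc_mul (enc_norm (enc_sub (enc_nat 2 (c3g.enc h1)) h1)) (enc_norm (enc_sub (enc_add (c3g.enc h1) (enc_pnc _ 3)) (enc_scaleT 3 2 h1))))) (enc_inv (enc_nat 4 (enc_sub (enc_pnc _ 2) h1)))) (enc_mul (enc_norm (enc_subn 1 h1)) (kcg.enc (enc_norm (enc_sub (enc_scaleT 1 4 h1) (enc_half (c3g.enc h1)))) h2))))⟩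
noncomputable def l6q2_7 : Fn2 := ⟨_, _, fun h1 h2 => (enc_half (c3g.enc h1))⟩
noncomputable def l6q2_8 : Fn2 := ⟨_, _, fun h1 h2 => (enc_scaleT 1 4 h1)⟩
noncomputable def l6q2_9 : Fn2 := ⟨_, _, fun h1 h2 => (enc_sub (l6q2_7.enc h1 h2) (l6q2_8.enc h1 h2))⟩
noncomputable def l6q2_12 : Fn2 := ⟨_, _, fun h1 h2 => (enc_add (enc_scaleT 1 4 (c3g.enc h1)) (enc_scaleT 3 8 h1))⟩
noncomputable def l6q2_14 : Fn2 := ⟨_, _, fun h1 h2 => (enc_half (l6q2_9.enc h1 h2))⟩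
noncomputable def l6q2 : Fn2 := ⟨_, _, fun h1 h2 => (enc_norm (enc_sub (enc_nat 2 (txg.enc (enc_norm (enc_sub (l6q2_8.enc h1 h2) (l6q2_7.enc h1 h2))) (enc_norm (enc_add (l6q2_12.enc h1 h2) (l6q2_14.enc h1 h2))) h2)) (txg.enc (enc_norm (l6q2_9.enc h1 h2)) (enc_norm (enc_sub (l6q2_12.enc h1 h2) (l6q2_14.enc h1 h2))) h2)))⟩
noncomputable def kc6q2_3 : Fn2 := ⟨_, _, fun h1 h2 => (enc_subr 9743 10000 h2)⟩
noncomputable def kc6q2_9 : Fn2 := ⟨_, _, fun h1 h2 => (enc_sub (enc_half (c3g.enc h1)) (enc_scaleT 1 4 h1))⟩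
noncomputable def kc6q2_26 : Fn2 := ⟨_, _, fun h1 h2 => (enc_neg (enc_scaleT 9399 830 (kc6q2_9.enc h1 h2)))⟩
noncomputable def kc6q2_45 : Fn2 := ⟨_, _, fun h1 h2 => (enc_mul (enc_norm (kc6q2_3.enc h1 h2)) (enc_norm (enc_sub (enc_rat _ 309 500) (enc_scaleT 330 167 (kc6q2_9.enc h1 h2)))))⟩
noncomputable def kc6q2 : Fn2 := ⟨_, _, fun h1 h2 => (enc_norm (enc_case (kc6q2_9.enc h1 h2) (enc_case (enc_add (kc6q2_9.enc h1 h2) (enc_rat _ 333 1000)) (enc_add (enc_add (enc_scaleT 35373 1670 (kc6q2_9.enc h1 h2)) (enc_rat _ 35373 3340)) (enc_mul (enc_norm (kc6q2_3.enc h1 h2)) (enc_norm (enc_add (enc_scaleT 1276 167 (kc6q2_9.enc h1 h2)) (enc_rat _ 638 167))))) (enc_case (enc_add (kc6q2_9.enc h1 h2) (enc_rat _ 167 1000)) (enc_add (enc_subr 48477 207500 (kc6q2_26.enc h1 h2)) (enc_mul (enc_norm (kc6q2_3.enc h1 h2)) (enc_norm (enc_sub (enc_rat _ 6412 10375) (enc_scaleT 164 83 (kc6q2_9.enc h1 h2))))))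 (enc_add (enc_subr 2337 10000 (enc_neg (enc_scaleT 9456 835 (kc6q2_9.enc h1 h2)))) (kc6q2_45.enc h1 h2)))) (enc_case (enc_subr 167 1000 (kc6q2_9.enc h1 h2)) (enc_add (enc_subr 2337 10000 (enc_neg (enc_scaleT 18911 1670 (kc6q2_9.enc h1 h2)))) (kc6q2_45.enc h1 h2)) (enc_case (enc_subr 333 1000 (kc6q2_9.enc h1 h2)) (enc_add (enc_subr 193951 830000 (kc6q2_26.enc h1 h2)) (enc_mul (enc_norm (kc6q2_3.enc h1 h2)) (enc_norm (enc_sub (enc_rat _ 102417 166000) (enc_scaleT 327 166 (kc6q2_9.enc h1 h2)))))) (enc_add (enc_subr 20023 1670 (enc_scaleT 20023 835 (kc6q2_9.enc h1 h2))) (enc_mul (enc_norm (kc6q2_3.enc h1 h2)) (enc_norm (enc_subr 39 334 (enc_scaleT 39 167 (kc6q2_9.enc h1 h2))))))))))⟩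
noncomputable def kfc63 : Fn2 := ⟨_, _, fun h1 h2 => (enc_norm (enc_sub (enc_mul (enc_norm (enc_subn 2 (ycg.enc h1))) (kcg.enc (enc_norm (enc_sub (enc_scaleT 1 4 (ycg.enc h1)) (enc_half h1))) h2)) (enc_mul (enc_norm (enc_mul (enc_norm (enc_sub (enc_nat 2 h1) (ycg.enc h1))) (enc_norm (enc_sub (enc_add h1 (enc_pnc _ 3)) (enc_scaleT 3 2 (ycg.enc h1)))))) (enc_inv (enc_nat 4 (enc_subn 1 (ycg.enc h1)))))))⟩
noncomputable def lc63_7 : Fn2 := ⟨_, _, fun h1 h2 => (enc_half h1)⟩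
noncomputable def lc63_8 : Fn2 := ⟨_, _, fun h1 h2 => (enc_scaleT 1 4 (ycg.enc h1))⟩
noncomputable def lc63_9 : Fn2 := ⟨_, _, fun h1 h2 => (enc_sub (lc63_7.enc h1 h2) (lc63_8.enc h1 h2))⟩
noncomputable def lc63_12 : Fn2 := ⟨_, _, fun h1 h2 => (enc_add (enc_scaleT 1 4 h1) (enc_scaleT 3 8 (ycg.enc h1)))⟩
noncomputable def lc63_14 : Fn2 := ⟨_, _, fun h1 h2 => (enc_half (lc63_9.enc h1 h2))⟩
noncomputable def lc63 : Fn2 := ⟨_, _, fun h1 h2 => (enc_norm (enc_sub (enc_nat 2 (txg.enc (enc_norm (enc_sub (lc63_8.enc h1 h2) (lc63_7.enc h1 h2))) (enc_norm (enc_add (lc63_12.enc h1 h2) (lc63_14.enc h1 h2))) h2)) (txg.enc (enc_norm (lc63_9.enc h1 h2)) (enc_norm (enc_sub (lc63_12.enc h1 h2) (lc63_14.enc h1 h2))) h2)))⟩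
noncomputable def kcc63_4 : Fn2 := ⟨_, _, fun h1 h2 => (enc_subr 9743 10000 h2)⟩
noncomputable def kcc63_9 : Fn2 := ⟨_, _, fun h1 h2 => (enc_sub (enc_half h1) (enc_scaleT 1 4 (ycg.enc h1)))⟩
noncomputable def kcc63_26 : Fn2 := ⟨_, _, fun h1 h2 => (enc_neg (enc_scaleT 9399 830 (kcc63_9.enc h1 h2)))⟩
noncomputable def kcc63_45 : Fn2 := ⟨_, _, fun h1 h2 => (enc_mul (enc_norm (kcc63_4.enc h1 h2)) (enc_norm (enc_sub (enc_rat _ 309 500) (enc_scaleT 330 167 (kcc63_9.enc h1 h2)))))⟩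
noncomputable def kcc63 : Fn2 := ⟨_, _, fun h1 h2 => (enc_norm (enc_case (kcc63_9.enc h1 h2) (enc_case (enc_add (kcc63_9.enc h1 h2) (enc_rat _ 333 1000)) (enc_add (enc_add (enc_scaleT 35373 1670 (kcc63_9.enc h1 h2)) (enc_rat _ 35373 3340)) (enc_mul (enc_norm (kcc63_4.enc h1 h2)) (enc_norm (enc_add (enc_scaleT 1276 167 (kcc63_9.enc h1 h2)) (enc_rat _ 638 167))))) (enc_case (enc_add (kcc63_9.enc h1 h2) (enc_rat _ 167 1000)) (enc_add (enc_subr 48477 207500 (kcc63_26.enc h1 h2)) (enc_mul (enc_norm (kcc63_4.enc h1 h2)) (enc_norm (enc_sub (enc_rat _ 6412 10375) (enc_scaleT 164 83 (kcc63_9.enc h1 h2)))))) (enc_add (enc_subr 2337 10000 (enc_neg (enc_scaleT 9456 835 (kcc63_9.enc h1 h2)))) (kcc63_45.enc h1 h2)))) (enc_case (enc_subr 167 1000 (kcc63_9.enc h1 h2)) (enc_add (enc_subr 2337 10000 (enc_neg (enc_scaleT 18911 1670 (kcc63_9.enc h1 h2)))) (kcc63_45.enc h1 h2)) (enc_case (enc_subr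 333 1000 (kcc63_9.enc h1 h2)) (enc_add (enc_subr 193951 830000 (kcc63_26.enc h1 h2)) (enc_mul (enc_norm (kcc63_4.enc h1 h2)) (enc_norm (enc_sub (enc_rat _ 102417 166000) (enc_scaleT 327 166 (kcc63_9.enc h1 h2)))))) (enc_add (enc_subr 20023 1670 (enc_scaleT 20023 835 (kcc63_9.enc h1 h2))) (enc_mul (enc_norm (kcc63_4.enc h1 h2)) (enc_norm (enc_subr 39 334 (enc_scaleT 39 167 (kcc63_9.enc h1 h2))))))))))⟩
noncomputable def lm5m : Fn2 := ⟨_, _, fun h1 h2 => (enc_lam (enc_norm (enc_sub h1 (cv5m.enc h2))) (enc_sub (c3g.enc h2) (cv5m.enc h2)))⟩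
noncomputable def lm4m : Fn2 := ⟨_, _, fun h1 h2 => (enc_lam (enc_norm (enc_sub h1 (cv4m.enc h2))) (enc_sub (cv5m.enc h2) (cv4m.enc h2)))⟩
noncomputable def lm3m : Fn2 := ⟨_, _, fun h1 h2 => (enc_lam (enc_norm (enc_sub h1 (cv3m.enc h2))) (enc_sub (cv4m.enc h2) (cv3m.enc h2)))⟩
noncomputable def bf3q0_3 : Fn2 := ⟨_, _, fun h1 h2 => (enc_subr 9743 10000 h2)⟩
noncomputable def bf3q0 : Fn2 := ⟨_, _, fun h1 h2 => (enc_norm (enc_case (enc_subr 302549 12800000 h1) (enc_case (enc_subr 21 2000 h1) (enc_case (enc_subr 1 200 h1) (enc_add (enc_sub (enc_rat _ 9651 10000) (enc_scaleT 2687 500 h1)) (enc_mul (enc_norm (bf3q0_3.enc h1 h2)) (enc_norm (enc_sub (enc_rat _ 11 125) (enc_scaleT 1987 50 h1))))) (enc_add (enc_sub (enc_rat _ 1061603 1100000) (enc_scaleT 591 110 h1)) (enc_mul (enc_norm (bf3q0_3.enc h1 h2)) (enc_norm (enc_sub (enc_rat _ 9693 110000) (enc_scaleT 2187 55 h1)))))) (enc_case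 (enc_subr 27 2000 h1) (enc_add (enc_sub (enc_rat _ 9651 10000) (enc_scaleT 403 75 h1)) (enc_mul (enc_norm (bf3q0_3.enc h1 h2)) (enc_norm (enc_sub (enc_rat _ 177 2000) (enc_scaleT 199 5 h1))))) (enc_add (enc_sub (enc_rat _ 16813744629 17421875000) (enc_scaleT 280816862 52265625 h1)) (enc_mul (enc_norm (bf3q0_3.enc h1 h2)) (enc_norm (enc_sub (enc_rat _ 154075407 1742187500) (enc_scaleT 415986292 10453125 h1))))))) (enc_case (enc_subr 1 10 h1) (enc_case (enc_subr 1 20 h1) (enc_add (enc_sub (enc_rat _ 1389231657 1256000000) (enc_scaleT 441768057 62800000 h1)) (enc_mul (enc_norm (bf3q0_3.enc h1 h2)) (enc_norm (enc_subr 69030071 188400000 (enc_scaleT 10343471 9420000 h1))))) (enc_case (enc_subr 7 100 h1) (enc_add (enc_sub (enc_rat _ 44243 40000) (enc_scaleT 14069 2000 h1)) (enc_mul (enc_norm (bf3q0_3.enc h1 h2)) (enc_norm (enc_subr 293 800 (enc_scaleT 219 200 h1))))) (enc_add (enc_sub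 (enc_rat _ 165913 150000) (enc_scaleT 2638 375 h1)) (enc_mul (enc_norm (bf3q0_3.enc h1 h2)) (enc_norm (enc_subr 1097 3000 (enc_scaleT 163 150 h1))))))) (enc_case (enc_subr 11 50 h1) (enc_case (enc_subr 3 20 h1) (enc_add (enc_sub (enc_rat _ 55303 50000) (enc_scaleT 8793 1250 h1)) (enc_mul (enc_norm (bf3q0_3.enc h1 h2)) (enc_norm (enc_subr 228 625 (enc_scaleT 539 500 h1))))) (enc_add (enc_sub (enc_rat _ 38713 35000) (enc_scaleT 24621 3500 h1)) (enc_mul (enc_norm (bf3q0_3.enc h1 h2)) (enc_norm (enc_subr 25437 70000 (enc_scaleT 187 175 h1)))))) (enc_case (enc_subr 33 100 h1) (enc_add (enc_sub (enc_rat _ 55303 50000) (enc_scaleT 77379 11000 h1)) (enc_mul (enc_norm (bf3q0_3.enc h1 h2)) (enc_norm (enc_subr 3613 10000 (enc_scaleT 233 220 h1))))) (enc_add (enc_sub (enc_rat _ 1880311 1700000) (enc_scaleT 59793 8500 h1)) (enc_mul (enc_norm (bf3q0_3.enc h1 h2)) (enc_norm (enc_subr 61043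 170000 (enc_scaleT 1789 1700 h1))))))))))⟩
noncomputable def lm2m : Fn2 := ⟨_, _, fun h1 h2 => (enc_lam (enc_norm (enc_sub h1 (cv2m.enc h2))) (enc_sub (cv3m.enc h2) (cv2m.enc h2)))⟩
noncomputable def lm1m : Fn2 := ⟨_, _, fun h1 h2 => (enc_lam (enc_norm (enc_sub h1 (cv1m.enc h2))) (enc_sub (cv2m.enc h2) (cv1m.enc h2)))⟩
noncomputable def lm0m : Fn2 := ⟨_, _, fun h1 h2 => (enc_lam (enc_norm (enc_sub h1 (c1g.enc h2))) (enc_sub (cv1m.enc h2) (c1g.enc h2)))⟩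
noncomputable def rkbq0_47 : Fn3 := ⟨_, _, fun h1 h2 h3 => (enc_add (enc_mul h1 (bf3q0.enc h2 h3)) (enc_mul (enc_norm (enc_mul (enc_norm (enc_sub (enc_pnc _ 1) (lm2m.enc h1 h2))) (cv2m.enc h2))) (enc_norm (enc_sub (bf2q0.enc h2 h3) (bf3q0.enc h2 h3)))))⟩
noncomputable def rkbq0_49 : Fn3 := ⟨_, _, fun h1 h2 h3 => (enc_sub (enc_pnc _ 1) h2)⟩
noncomputable def rkbq0_50 : Fn3 := ⟨_, _, fun h1 h2 h3 => (gsg.enc (enc_norm (rkbq0_49.enc h1 h2 h3)))⟩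
noncomputable def rkbq0_53 : Fn3 := ⟨_, _, fun h1 h2 h3 => (enc_sub (enc_scaleT 3 4 (rkbq0_49.enc h1 h2 h3)) (enc_half (rkbq0_50.enc h1 h2 h3)))⟩
noncomputable def rkbq0_54 : Fn3 := ⟨_, _, fun h1 h2 h3 => (esg.enc (enc_norm (rkbq0_49.enc h1 h2 h3)))⟩
noncomputable def rkbq0_55 : Fn3 := ⟨_, _, fun h1 h2 h3 => (kcg.enc (enc_norm (rkbq0_53.enc h1 h2 h3)) h3)⟩
noncomputable def rkbq0_63 : Fn3 := ⟨_, _, fun h1 h2 h3 => (enc_sub (rkbq0_53.enc h1 h2 h3) (enc_sub (enc_rat _ 1 4) (enc_scaleT 3 8 (enc_mul (enc_norm (rkbq0_49.enc h1 h2 h3)) (enc_inv (rkbq0_50.enc h1 h2 h3))))))⟩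
noncomputable def rkbq0_69 : Fn3 := ⟨_, _, fun h1 h2 h3 => (enc_wB0 (enc_mul h2 (enc_norm (enc_sub (enc_mul (enc_norm (rkbq0_63.enc h1 h2 h3)) (enc_inv (rkbq0_54.enc h1 h2 h3))) (rkbq0_55.enc h1 h2 h3)))) (rkbq0_49.enc h1 h2 h3) (rkbq0_50.enc h1 h2 h3) (rkbq0_54.enc h1 h2 h3) h2 (rkbq0_63.enc h1 h2 h3) (rkbq0_55.enc h1 h2 h3) rfl rfl rfl rfl)⟩
noncomputable def rkbq0_73 : Fn3 := ⟨_, _, fun h1 h2 h3 => (enc_add (swg.enc h2) (enc_rat _ 1 2))⟩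
noncomputable def rkbq0_74 : Fn3 := ⟨_, _, fun h1 h2 h3 => (enc_sub h1 (cv2m.enc h2))⟩
noncomputable def rkbq0 : Fn3 := ⟨_, _, fun h1 h2 h3 => (enc_case (enc_sub h1 (cv1m.enc h2)) (enc_add (enc_mul h1 (bf1q0.enc h2 h3)) (enc_mul (enc_norm (enc_sub (enc_pnc _ 1) (lm0m.enc h1 h2))) (enc_norm (enc_sub (kf0q0.enc h2 h3) (enc_mul (c1g.enc h2) (bf1q0.enc h2 h3)))))) (enc_case (rkbq0_74.enc h1 h2 h3) (enc_add (enc_mul h1 (bf2q0.enc h2 h3)) (enc_mul (enc_norm (enc_mul (enc_norm (enc_sub (enc_pnc _ 1) (lm1m.enc h1 h2))) (cv1m.enc h2))) (enc_norm (enc_sub (bf1q0.enc h2 h3) (bf2q0.enc h2 h3))))) (enc_case (enc_sub h1 (cv3m.enc h2)) (enc_case (enc_subr 33 2048 h2) (rkbq0_47.enc h1 h2 h3) (enc_case (enc_subr 779 25000 h2) (enc_wL (enc_add (kf2q0.enc h2 h3) (enc_mul (enc_norm (enc_mul (enc_norm (rkbq0_74.enc h1 h2 h3)) (enc_inv (enc_sub (rkbq0_73.enc h1 h2 h3) (cv2m.enc h2))))) (enc_norm (enc_sub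 (rkbq0_69.enc h1 h2 h3) (kf2q0.enc h2 h3))))) h1 (rkbq0_73.enc h1 h2 h3) (cv2m.enc h2) (rkbq0_69.enc h1 h2 h3) (kf2q0.enc h2 h3) rfl) (rkbq0_47.enc h1 h2 h3))) (enc_case (enc_sub h1 (cv4m.enc h2)) (enc_add (enc_mul h1 (bf4q0.enc h2 h3)) (enc_mul (enc_norm (enc_sub (enc_pnc _ 1) (lm3m.enc h1 h2))) (enc_norm (enc_sub (kf3q0.enc h2 h3) (enc_mul (cv3m.enc h2) (bf4q0.enc h2 h3)))))) (enc_case (enc_sub h1 (cv5m.enc h2)) (enc_add (enc_mul h1 (bf5q0.enc h2 h3)) (enc_mul (enc_norm (enc_mul (enc_norm (enc_sub (enc_pnc _ 1) (lm4m.enc h1 h2))) (cv4m.enc h2))) (enc_norm (enc_sub (bf4q0.enc h2 h3) (bf5q0.enc h2 h3))))) (enc_add (kf5q0.enc h2 h3) (enc_mul (lm5m.enc h1 h2) (enc_norm (enc_sub (kf6q0.enc h2 h3) (kf5q0.enc h2 h3))))))))))⟩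
noncomputable def rsbq0 : Fn3 := ⟨_, _, fun h1 h2 h3 => (enc_case h1 (enc_neg (rkbq0.enc (enc_neg h1) h2 h3)) (rkbq0.enc h1 h2 h3))⟩
noncomputable def rkbq1 : Fn3 := ⟨_, _, fun h1 h2 h3 => (enc_case (enc_sub h1 (cv1m.enc h2)) (enc_add (enc_mul h1 (bf1q1.enc h2 h3)) (enc_mul (enc_norm (enc_sub (enc_pnc _ 1) (lm0m.enc h1 h2))) (enc_norm (enc_sub (kf0q1.enc h2 h3) (enc_mul (c1g.enc h2) (bf1q1.enc h2 h3)))))) (enc_case (enc_sub h1 (cv2m.enc h2)) (enc_add (enc_mul h1 (bf2q1.enc h2 h3)) (enc_mul (enc_norm (enc_mul (enc_norm (enc_sub (enc_pnc _ 1) (lm1m.enc h1 h2))) (cv1m.enc h2))) (enc_norm (enc_sub (bf1q1.enc h2 h3) (bf2q1.enc h2 h3))))) (enc_case (enc_sub h1 (cv3m.enc h2)) (enc_add (enc_mul h1 (bf3q1.enc h2 h3)) (enc_mul (enc_norm (enc_mul (enc_norm (enc_sub (enc_pnc _ 1) (lm2m.enc h1 h2))) (cv2m.enc h2))) (enc_norm (enc_sub (bf2q1.enc h2 h3) (bf3q1.enc h2 h3))))) (enc_case (enc_sub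 h1 (cv4m.enc h2)) (enc_add (enc_mul h1 (bf4q1.enc h2 h3)) (enc_mul (enc_norm (enc_mul (enc_norm (enc_sub (enc_pnc _ 1) (lm3m.enc h1 h2))) (cv3m.enc h2))) (enc_norm (enc_sub (bf3q1.enc h2 h3) (bf4q1.enc h2 h3))))) (enc_case (enc_sub h1 (cv5m.enc h2)) (enc_add (enc_mul h1 (bf5q1.enc h2 h3)) (enc_mul (enc_norm (enc_mul (enc_norm (enc_sub (enc_pnc _ 1) (lm4m.enc h1 h2))) (cv4m.enc h2))) (enc_norm (enc_sub (bf4q1.enc h2 h3) (bf5q1.enc h2 h3))))) (enc_add (kf5q1.enc h2 h3) (enc_mul (lm5m.enc h1 h2) (enc_norm (enc_sub (kf6q1.enc h2 h3) (kf5q1.enc h2 h3))))))))))⟩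
noncomputable def rsbq1 : Fn3 := ⟨_, _, fun h1 h2 h3 => (enc_case h1 (enc_neg (rkbq1.enc (enc_neg h1) h2 h3)) (rkbq1.enc h1 h2 h3))⟩
noncomputable def cv1p : Fn1 := ⟨_, _, fun h1 => (enc_norm (enc_add (enc_scaleT 3 4 (c1g.enc h1)) (enc_scaleT 1 4 (enc_subr 1 2 (swg.enc h1)))))⟩
noncomputable def cv2p : Fn1 := ⟨_, _, fun h1 => (enc_norm (enc_add (enc_scaleT 7 20 (c1g.enc h1)) (enc_scaleT 13 20 (enc_subr 1 2 (swg.enc h1)))))⟩
noncomputable def lm5p : Fn2 := ⟨_, _, fun h1 h2 => (enc_lam (enc_norm (enc_sub h1 (cv5p.enc h2))) (enc_sub (c3g.enc h2) (cv5p.enc h2)))⟩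
noncomputable def lm4p : Fn2 := ⟨_, _, fun h1 h2 => (enc_lam (enc_norm (enc_sub h1 (cv4p.enc h2))) (enc_sub (cv5p.enc h2) (cv4p.enc h2)))⟩
noncomputable def lm3p : Fn2 := ⟨_, _, fun h1 h2 => (enc_lam (enc_norm (enc_sub h1 (cv3p.enc h2))) (enc_sub (cv4p.enc h2) (cv3p.enc h2)))⟩
noncomputable def lm2p : Fn2 := ⟨_, _, fun h1 h2 => (enc_lam (enc_norm (enc_sub h1 (cv2p.enc h2))) (enc_sub (cv3p.enc h2) (cv2p.enc h2)))⟩
noncomputable def lm1p : Fn2 := ⟨_, _, fun h1 h2 => (enc_lam (enc_norm (enc_sub h1 (cv1p.enc h2))) (enc_sub (cv2p.enc h2) (cv1p.enc h2)))⟩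
noncomputable def kf0q2 : Fn2 := ⟨_, _, fun h1 h2 => (enc_norm (enc_add (c1g.enc h1) (enc_mul (enc_norm (enc_subn 1 h1)) (kcg.enc (enc_neg (c1g.enc h1)) h2))))⟩
noncomputable def lm0p : Fn2 := ⟨_, _, fun h1 h2 => (enc_lam (enc_norm (enc_sub h1 (c1g.enc h2))) (enc_sub (cv1p.enc h2) (c1g.enc h2)))⟩
noncomputable def n0b : Fn2 := ⟨_, _, fun h1 h2 => (enc_norm (enc_sub (enc_pnc _ 1) (enc_mul (enc_norm (enc_subn 1 h1)) (enc_norm (enc_add (enc_scaleT 6591 2000 (enc_subr 9743 10000 h2)) (enc_rat _ 14291 6250))))))⟩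
noncomputable def rkbq2_62 : Fn3 := ⟨_, _, fun h1 h2 h3 => (enc_mul h1 (bf1q2.enc h2 h3))⟩
noncomputable def rkbq2_64 : Fn3 := ⟨_, _, fun h1 h2 h3 => (enc_sub (enc_pnc _ 1) (lm0p.enc h1 h2))⟩
noncomputable def rkbq2 : Fn3 := ⟨_, _, fun h1 h2 h3 => (enc_case (enc_sub h1 (cv1p.enc h2)) (enc_case (enc_subr 1149 1000 h2) (enc_add (rkbq2_62.enc h1 h2 h3) (enc_mul (enc_norm (rkbq2_64.enc h1 h2 h3)) (enc_norm (enc_sub (kf0q2.enc h2 h3) (enc_mul (c1g.enc h2) (bf1q2.enc h2 h3)))))) (enc_case (enc_subr 2887 2500 h2) (enc_add (rkbq2_62.enc h1 h2 h3) (enc_mul (enc_norm (rkbq2_64.enc h1 h2 h3)) (enc_norm (enc_mul (c1g.enc h2) (enc_norm (enc_sub (n0b.enc h2 h3) (bf1q2.enc h2 h3))))))) (rkbq2_62.enc h1 h2 h3))) (enc_case (enc_sub h1 (cv2p.enc h2)) (enc_add (enc_mul h1 (bf2q2.enc h2 h3)) (enc_mul (enc_norm (enc_mul (enc_norm (enc_sub (enc_pnc _ 1) (lm1p.enc h1 h2))) (cv1p.enc h2))) (enc_norm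 (enc_sub (bf1q2.enc h2 h3) (bf2q2.enc h2 h3))))) (enc_case (enc_sub h1 (cv3p.enc h2)) (enc_add (enc_mul h1 (bf3q2.enc h2 h3)) (enc_mul (enc_norm (enc_mul (enc_norm (enc_sub (enc_pnc _ 1) (lm2p.enc h1 h2))) (cv2p.enc h2))) (enc_norm (enc_sub (bf2q2.enc h2 h3) (bf3q2.enc h2 h3))))) (enc_case (enc_sub h1 (cv4p.enc h2)) (enc_add (enc_mul h1 (bf4q2.enc h2 h3)) (enc_mul (enc_norm (enc_mul (enc_norm (enc_sub (enc_pnc _ 1) (lm3p.enc h1 h2))) (cv3p.enc h2))) (enc_norm (enc_sub (bf3q2.enc h2 h3) (bf4q2.enc h2 h3))))) (enc_case (enc_sub h1 (cv5p.enc h2)) (enc_add (enc_mul h1 (bf5q2.enc h2 h3)) (enc_mul (enc_norm (enc_mul (enc_norm (enc_sub (enc_pnc _ 1) (lm4p.enc h1 h2))) (cv4p.enc h2))) (enc_norm (enc_sub (bf4q2.enc h2 h3) (bf5q2.enc h2 h3))))) (enc_add (kf5q2.enc h2 h3) (enc_mul (lm5p.enc h1 h2) (enc_norm (enc_sub (kf6q2.enc h2 h3) (kf5q2.enc h2 h3))))))))))⟩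
noncomputable def rsbq2 : Fn3 := ⟨_, _, fun h1 h2 h3 => (enc_case h1 (enc_neg (rkbq2.enc (enc_neg h1) h2 h3)) (rkbq2.enc h1 h2 h3))⟩
noncomputable def cv3r : Fn1 := ⟨_, _, fun h1 => (enc_norm (enc_add (enc_scaleT 1929 2000 (enc_subr 1 2 (swg.enc h1))) (enc_scaleT 71 2000 (c3g.enc h1))))⟩
noncomputable def cv4r : Fn1 := ⟨_, _, fun h1 => (enc_norm (enc_add (enc_scaleT 17 20 (enc_subr 1 2 (swg.enc h1))) (enc_scaleT 3 20 (c3g.enc h1))))⟩
noncomputable def cv5r : Fn1 := ⟨_, _, fun h1 => (enc_norm (enc_add (enc_scaleT 3 10 (enc_subr 1 2 (swg.enc h1))) (enc_scaleT 7 10 (c3g.enc h1))))⟩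
noncomputable def kf5q3_4 : Fn2 := ⟨_, _, fun h1 h2 => (enc_subr 9743 10000 h2)⟩
noncomputable def kf5q3 : Fn2 := ⟨_, _, fun h1 h2 => (enc_norm (enc_mul (cv5r.enc h1) (enc_norm (enc_case (enc_subr 987 500 h1) (enc_case (enc_subr 39 20 h1) (enc_case (enc_subr 193 100 h1) (enc_add (enc_subr 13746817 4300000 (enc_scaleT 3227 1720 h1)) (enc_mul (enc_norm (kf5q3_4.enc h1 h2)) (enc_norm (enc_sub (enc_rat _ 96391 430000) (enc_scaleT 158 1075 h1))))) (enc_add (enc_subr 639517 200000 (enc_scaleT 3753 2000 h1)) (enc_mul (enc_norm (kf5q3_4.enc h1 h2)) (enc_norm (enc_sub (enc_rat _ 23 100) (enc_scaleT 3 20 h1)))))) (enc_case (enc_subr 49221 25000 h1) (enc_add (enc_subr 50180537 15700000 (enc_scaleT 589 314 h1)) (enc_mul (enc_norm (kf5q3_4.enc h1 h2)) (enc_norm (enc_sub (enc_rat _ 571 2512) (enc_scaleT 70 471 h1))))) (enc_add (enc_subr 13745177 4300000 (enc_scaleT 242 129 h1)) (enc_mul (enc_norm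 (kf5q3_4.enc h1 h2)) (enc_norm (enc_sub (enc_rat _ 8677 43000) (enc_scaleT 35 258 h1))))))) (enc_case (enc_sub (enc_rat _ 154764337 1000000000) (c3g.enc h1)) (enc_case (enc_subr 4063 2048 h1) (enc_add (enc_subr 809190129 253100000 (enc_scaleT 23744 12655 h1)) (enc_mul (enc_norm (kf5q3_4.enc h1 h2)) (enc_norm (enc_sub (enc_rat _ 59097 253100) (enc_scaleT 384 2531 h1))))) (enc_add (enc_add (enc_scaleT 4914000 12931123 (c3g.enc h1)) (enc_rat _ 714084863819 1616390375000)) (enc_mul (enc_norm (kf5q3_4.enc h1 h2)) (enc_norm (enc_subr 416809581 646556150000 (enc_neg (enc_scaleT 3940000 12931123 (c3g.enc h1)))))))) (enc_case (enc_sub (enc_rat _ 105307799 1000000000) (c3g.enc h1)) (enc_add (enc_add (enc_scaleT 9405000 24728269 (c3g.enc h1)) (enc_rat _ 436926623569 989130760000)) (enc_mul (enc_norm (kf5q3_4.enc h1 h2)) (enc_norm (enc_subr 270810277 494565380000 (enc_neg (enc_scaleT 7550000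 24728269 (c3g.enc h1))))))) (enc_case (enc_sub (enc_rat _ 54765409 1000000000) (c3g.enc h1)) (enc_add (enc_add (enc_scaleT 1918000 5054239 (c3g.enc h1)) (enc_rat _ 1116525453469 2527119500000)) (enc_mul (enc_norm (kf5q3_4.enc h1 h2)) (enc_norm (enc_sub (enc_rat _ 13908839 63177987500) (enc_scaleT 1580000 5054239 (c3g.enc h1)))))) (enc_sub (enc_sub (enc_rat _ 1 2) (enc_scaleT 37400000 54765409 (c3g.enc h1))) (enc_mul (enc_norm (kf5q3_4.enc h1 h2)) (enc_scaleT 16900000 54765409 (c3g.enc h1)))))))))))⟩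
noncomputable def kf6q3 : Fn2 := ⟨_, _, fun h1 h2 => (enc_norm (enc_sub (enc_mul (enc_norm (enc_subn 2 h1)) (kcg.enc (enc_norm (enc_sub (enc_scaleT 1 4 h1) (enc_half (c3g.enc h1)))) h2)) (enc_mul (enc_norm (enc_mul (enc_norm (enc_sub (enc_nat 2 (c3g.enc h1)) h1)) (enc_norm (enc_sub (enc_add (c3g.enc h1) (enc_pnc _ 3)) (enc_scaleT 3 2 h1))))) (enc_inv (enc_nat 4 (enc_subn 1 h1))))))⟩
noncomputable def lm5r : Fn2 := ⟨_, _, fun h1 h2 => (enc_lam (enc_norm (enc_sub h1 (cv5r.enc h2))) (enc_sub (c3g.enc h2) (cv5r.enc h2)))⟩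
noncomputable def bf5q3_3 : Fn2 := ⟨_, _, fun h1 h2 => (enc_subr 9743 10000 h2)⟩
noncomputable def bf5q3 : Fn2 := ⟨_, _, fun h1 h2 => (enc_norm (enc_case (enc_subr 987 500 h1) (enc_case (enc_subr 39 20 h1) (enc_case (enc_subr 193 100 h1) (enc_add (enc_subr 13746817 4300000 (enc_scaleT 3227 1720 h1)) (enc_mul (enc_norm (bf5q3_3.enc h1 h2)) (enc_norm (enc_sub (enc_rat _ 96391 430000) (enc_scaleT 158 1075 h1))))) (enc_add (enc_subr 639517 200000 (enc_scaleT 3753 2000 h1)) (enc_mul (enc_norm (bf5q3_3.enc h1 h2)) (enc_norm (enc_sub (enc_rat _ 23 100) (enc_scaleT 3 20 h1)))))) (enc_case (enc_subr 49221 25000 h1) (enc_add (enc_subr 50180537 15700000 (enc_scaleT 589 314 h1)) (enc_mul (enc_norm (bf5q3_3.enc h1 h2)) (enc_norm (enc_sub (enc_rat _ 571 2512) (enc_scaleT 70 471 h1))))) (enc_add (enc_subr 13745177 4300000 (enc_scaleT 242 129 h1)) (enc_mul (enc_norm (bf5q3_3.enc h1 h2)) (enc_norm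 (enc_sub (enc_rat _ 8677 43000) (enc_scaleT 35 258 h1))))))) (enc_case (enc_sub (enc_rat _ 154764337 1000000000) (c3g.enc h1)) (enc_case (enc_subr 4063 2048 h1) (enc_add (enc_subr 809190129 253100000 (enc_scaleT 23744 12655 h1)) (enc_mul (enc_norm (bf5q3_3.enc h1 h2)) (enc_norm (enc_sub (enc_rat _ 59097 253100) (enc_scaleT 384 2531 h1))))) (enc_add (enc_add (enc_scaleT 4914000 12931123 (c3g.enc h1)) (enc_rat _ 714084863819 1616390375000)) (enc_mul (enc_norm (bf5q3_3.enc h1 h2)) (enc_norm (enc_subr 416809581 646556150000 (enc_neg (enc_scaleT 3940000 12931123 (c3g.enc h1)))))))) (enc_case (enc_sub (enc_rat _ 105307799 1000000000) (c3g.enc h1)) (enc_add (enc_add (enc_scaleT 9405000 24728269 (c3g.enc h1)) (enc_rat _ 436926623569 989130760000)) (enc_mul (enc_norm (bf5q3_3.enc h1 h2)) (enc_norm (enc_subr 270810277 494565380000 (enc_neg (enc_scaleT 7550000 24728269 (c3g.enc h1)))))))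 (enc_case (enc_sub (enc_rat _ 54765409 1000000000) (c3g.enc h1)) (enc_add (enc_add (enc_scaleT 1918000 5054239 (c3g.enc h1)) (enc_rat _ 1116525453469 2527119500000)) (enc_mul (enc_norm (bf5q3_3.enc h1 h2)) (enc_norm (enc_sub (enc_rat _ 13908839 63177987500) (enc_scaleT 1580000 5054239 (c3g.enc h1)))))) (enc_sub (enc_sub (enc_rat _ 1 2) (enc_scaleT 37400000 54765409 (c3g.enc h1))) (enc_mul (enc_norm (bf5q3_3.enc h1 h2)) (enc_scaleT 16900000 54765409 (c3g.enc h1)))))))))⟩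
noncomputable def lm4r : Fn2 := ⟨_, _, fun h1 h2 => (enc_lam (enc_norm (enc_sub h1 (cv4r.enc h2))) (enc_sub (cv5r.enc h2) (cv4r.enc h2)))⟩
noncomputable def bf4q3_3 : Fn2 := ⟨_, _, fun h1 h2 => (enc_subr 9743 10000 h2)⟩
noncomputable def bf4q3 : Fn2 := ⟨_, _, fun h1 h2 => (enc_norm (enc_case (enc_subr 987 500 h1) (enc_case (enc_subr 39 20 h1) (enc_case (enc_subr 193 100 h1) (enc_add (enc_subr 651773 430000 (enc_scaleT 7587 10750 h1)) (enc_mul (enc_norm (bf4q3_3.enc h1 h2)) (enc_norm (enc_sub (enc_rat _ 8853 17200) (enc_scaleT 1411 4300 h1))))) (enc_add (enc_subr 7581 5000 (enc_scaleT 353 500 h1)) (enc_mul (enc_norm (bf4q3_3.enc h1 h2)) (enc_norm (enc_sub (enc_rat _ 5183 10000) (enc_scaleT 33 100 h1)))))) (enc_case (enc_subr 49221 25000 h1) (enc_add (enc_subr 29733 19625 (enc_scaleT 443 628 h1)) (enc_mul (enc_norm (bf4q3_3.enc h1 h2)) (enc_norm (enc_sub (enc_rat _ 210859 392500)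 (enc_scaleT 160 471 h1))))) (enc_add (enc_subr 3265629 2150000 (enc_scaleT 365 516 h1)) (enc_mul (enc_norm (bf4q3_3.enc h1 h2)) (enc_norm (enc_sub (enc_rat _ 222331 430000) (enc_scaleT 85 258 h1))))))) (enc_case (enc_sub (enc_rat _ 154764337 1000000000) (c3g.enc h1)) (enc_case (enc_subr 4063 2048 h1) (enc_add (enc_subr 11976397 7909375 (enc_scaleT 44608 63275 h1)) (enc_mul (enc_norm (bf4q3_3.enc h1 h2)) (enc_norm (enc_sub (enc_rat _ 13302529 25310000) (enc_scaleT 4224 12655 h1))))) (enc_add (enc_sub (enc_rat _ 3232484835591 6465561500000) (enc_scaleT 36276000 12931123 (c3g.enc h1))) (enc_mul (enc_norm (bf4q3_3.enc h1 h2)) (enc_norm (enc_subr 32973781 12931123000 (enc_neg (enc_scaleT 7900000 12931123 (c3g.enc h1)))))))) (enc_case (enc_sub (enc_rat _ 105307799 1000000000) (c3g.enc h1)) (enc_add (enc_sub (enc_rat _ 7726796797 15455168125) (enc_scaleT 69370000 24728269 (c3g.enc h1)))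 (enc_mul (enc_norm (bf4q3_3.enc h1 h2)) (enc_norm (enc_subr 166102819 123641345000 (enc_neg (enc_scaleT 15300000 24728269 (c3g.enc h1))))))) (enc_case (enc_sub (enc_rat _ 54765409 1000000000) (c3g.enc h1)) (enc_add (enc_sub (enc_rat _ 2526902784691 5054239000000) (enc_scaleT 14179000 5054239 (c3g.enc h1))) (enc_mul (enc_norm (bf4q3_3.enc h1 h2)) (enc_norm (enc_subr 228117067 505423900000 (enc_neg (enc_scaleT 3170000 5054239 (c3g.enc h1))))))) (enc_sub (enc_sub (enc_rat _ 1 2) (enc_scaleT 153680000 54765409 (c3g.enc h1))) (enc_mul (enc_norm (bf4q3_3.enc h1 h2)) (enc_scaleT 34800000 54765409 (c3g.enc h1)))))))))⟩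
noncomputable def lm3r : Fn2 := ⟨_, _, fun h1 h2 => (enc_lam (enc_norm (enc_sub h1 (cv3r.enc h2))) (enc_sub (cv4r.enc h2) (cv3r.enc h2)))⟩
noncomputable def kf3q3_4 : Fn2 := ⟨_, _, fun h1 h2 => (enc_subr 9743 10000 h2)⟩
noncomputable def kf3q3_6 : Fn2 := ⟨_, _, fun h1 h2 => (enc_subr 193 100 h1)⟩
noncomputable def kf3q3_18 : Fn2 := ⟨_, _, fun h1 h2 => (enc_subr 39 20 h1)⟩
noncomputable def kf3q3_44 : Fn2 := ⟨_, _, fun h1 h2 => (enc_sub (enc_rat _ 105307799 1000000000) (c3g.enc h1))⟩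
noncomputable def kf3q3_46 : Fn2 := ⟨_, _, fun h1 h2 => (enc_sub (enc_rat _ 154764337 1000000000) (c3g.enc h1))⟩
noncomputable def kf3q3_69 : Fn2 := ⟨_, _, fun h1 h2 => (enc_sub (enc_rat _ 54765409 1000000000) (c3g.enc h1))⟩
noncomputable def kf3q3_92 : Fn2 := ⟨_, _, fun h1 h2 => (enc_subn 1 h1)⟩
noncomputable def kf3q3_93 : Fn2 := ⟨_, _, fun h1 h2 => (gsg.enc (enc_norm (kf3q3_92.enc h1 h2)))⟩
noncomputable def kf3q3_94 : Fn2 := ⟨_, _, fun h1 h2 => (enc_scaleT 3 4 (kf3q3_92.enc h1 h2))⟩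
noncomputable def kf3q3_95 : Fn2 := ⟨_, _, fun h1 h2 => (enc_half (kf3q3_93.enc h1 h2))⟩
noncomputable def kf3q3_97 : Fn2 := ⟨_, _, fun h1 h2 => (esg.enc (enc_norm (kf3q3_92.enc h1 h2)))⟩
noncomputable def kf3q3_98 : Fn2 := ⟨_, _, fun h1 h2 => (kcg.enc (enc_norm (enc_sub (kf3q3_94.enc h1 h2) (kf3q3_95.enc h1 h2))) h2)⟩
noncomputable def kf3q3_100 : Fn2 := ⟨_, _, fun h1 h2 => (enc_subn 2 h1)⟩
noncomputable def kf3q3_107 : Fn2 := ⟨_, _, fun h1 h2 => (enc_sub (enc_sub (kf3q3_95.enc h1 h2) (kf3q3_94.enc h1 h2)) (enc_sub (enc_rat _ 1 4) (enc_scaleT 3 8 (enc_mul (enc_norm (kf3q3_92.enc h1 h2)) (enc_inv (kf3q3_93.enc h1 h2))))))⟩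
noncomputable def kf3q3_138 : Fn2 := ⟨_, _, fun h1 h2 => (enc_subr 49221 25000 h1)⟩
noncomputable def kf3q3_162 : Fn2 := ⟨_, _, fun h1 h2 => (enc_subr 4063 2048 h1)⟩
noncomputable def kf3q3_218 : Fn2 := ⟨_, _, fun h1 h2 => (enc_mul (cv2r.enc h1) (enc_norm (enc_case (enc_subr 987 500 h1) (enc_case (kf3q3_18.enc h1 h2) (enc_case (kf3q3_6.enc h1 h2) (enc_add (enc_sub (enc_rat _ 53542479 2150000) (enc_scaleT 136313 10750 h1)) (enc_mul (enc_norm (kf3q3_4.enc h1 h2)) (enc_norm (enc_sub (enc_rat _ 1216457 53750) (enc_scaleT 12933 860 h1))))) (enc_add (enc_sub (enc_rat _ 1245147 50000) (enc_scaleT 317 25 h1)) (enc_mul (enc_norm (kf3q3_4.enc h1 h2)) (enc_norm (enc_sub (enc_rat _ 452891 20000) (enc_scaleT 3009 200 h1)))))) (enc_case (kf3q3_138.enc h1 h2) (enc_add (enc_sub (enc_rat _ 195495229 7850000) (enc_scaleT 11945 942 h1)) (enc_mul (enc_norm (kf3q3_4.enc h1 h2)) (enc_norm (enc_sub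 (enc_rat _ 17796463 785000) (enc_scaleT 14185 942 h1))))) (enc_add (enc_sub (enc_rat _ 107084573 4300000) (enc_scaleT 2181 172 h1)) (enc_mul (enc_norm (kf3q3_4.enc h1 h2)) (enc_norm (enc_sub (enc_rat _ 2437043 107500) (enc_scaleT 1295 86 h1))))))) (enc_case (kf3q3_46.enc h1 h2) (enc_case (kf3q3_162.enc h1 h2) (enc_add (enc_sub (enc_rat _ 252109999 10124000) (enc_scaleT 802304 63275 h1)) (enc_mul (enc_norm (kf3q3_4.enc h1 h2)) (enc_norm (enc_sub (enc_rat _ 287205317 12655000) (enc_scaleT 38144 2531 h1))))) (enc_add (enc_subr 2976801355413 6465561500000 (enc_scaleT 12238000 12931123 (c3g.enc h1))) (enc_mul (enc_norm (kf3q3_4.enc h1 h2)) (enc_norm (enc_subr 1223516647599 161639037500 (enc_scaleT 21560000 12931123 (c3g.enc h1))))))) (enc_case (kf3q3_44.enc h1 h2) (enc_add (enc_subr 2277090415469 4945653800000 (enc_scaleT 23405000 24728269 (c3g.enc h1))) (enc_mul (enc_norm (kf3q3_4.enc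 h1 h2)) (enc_norm (enc_subr 3752931757577 494565380000 (enc_scaleT 44250000 24728269 (c3g.enc h1)))))) (enc_case (kf3q3_69.enc h1 h2) (enc_add (enc_subr 1163554614833 2527119500000 (enc_scaleT 4784000 5054239 (c3g.enc h1))) (enc_mul (enc_norm (kf3q3_4.enc h1 h2)) (enc_norm (enc_subr 479331590139 63177987500 (enc_scaleT 8980000 5054239 (c3g.enc h1)))))) (enc_add (enc_subr 23021 50000 (enc_scaleT 51830000 54765409 (c3g.enc h1))) (enc_mul (enc_norm (kf3q3_4.enc h1 h2)) (enc_norm (enc_subr 75867 10000 (enc_scaleT 97000000 54765409 (c3g.enc h1))))))))))))⟩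
noncomputable def kf3q3 : Fn2 := ⟨_, _, fun h1 h2 => (enc_norm (enc_case (kf3q3_138.enc h1 h2) (enc_mul (cv3r.enc h1) (enc_norm (enc_case (kf3q3_6.enc h1 h2) (enc_add (enc_subr 5089347 2150000 (enc_scaleT 54927 43000 h1)) (enc_mul (enc_norm (kf3q3_4.enc h1 h2)) (enc_norm (enc_subr 3141833 430000 (enc_scaleT 4173 860 h1))))) (enc_case (kf3q3_18.enc h1 h2) (enc_add (enc_subr 473477 200000 (enc_scaleT 511 400 h1)) (enc_mul (enc_norm (kf3q3_4.enc h1 h2)) (enc_norm (enc_subr 29247 4000 (enc_scaleT 971 200 h1))))) (enc_add (enc_subr 2972702737 1256000000 (enc_scaleT 240624629 188400000 h1)) (enc_mul (enc_norm (kf3q3_4.enc h1 h2)) (enc_norm (enc_subr 459650983 62800000 (enc_scaleT 45770491 9420000 h1))))))))) (enc_case (kf3q3_162.enc h1 h2) (enc_add (kf3q3_218.enc h1 h2) (enc_mul (enc_norm (enc_mul (enc_norm (enc_sub (enc_wB3 (enc_mul (enc_norm (kf3q3_100.enc h1 h2)) (enc_norm (enc_add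 (enc_mul (enc_norm (kf3q3_107.enc h1 h2)) (enc_inv (kf3q3_97.enc h1 h2))) (kf3q3_98.enc h1 h2)))) (kf3q3_92.enc h1 h2) (kf3q3_93.enc h1 h2) (kf3q3_97.enc h1 h2) (kf3q3_100.enc h1 h2) (kf3q3_107.enc h1 h2) (kf3q3_98.enc h1 h2) h1 rfl rfl rfl rfl rfl) (kf3q3_218.enc h1 h2))) (enc_norm (enc_sub (cv3r.enc h1) (cv2r.enc h1))))) (enc_inv (enc_sub (enc_subr 1 2 (swg.enc h1)) (cv2r.enc h1))))) (enc_mul (cv3r.enc h1) (enc_norm (enc_case (kf3q3_44.enc h1 h2) (enc_case (kf3q3_46.enc h1 h2) (enc_add (enc_subr 34645065492759301 20204879687500000 (enc_scaleT 2785924768 323278075 (c3g.enc h1))) (enc_mul (enc_norm (kf3q3_4.enc h1 h2)) (enc_norm (enc_subr 53663288889605869 64655615000000000 (enc_scaleT 1785034237 64655615 (c3g.enc h1)))))) (enc_add (enc_sub (enc_rat _ 1224627853907 2472826900000) (enc_scaleT 140000000 24728269 (c3g.enc h1))) (enc_mul (enc_norm (kf3q3_4.enc h1 h2)) (enc_norm (enc_subr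 446669057 30910336250 (enc_scaleT 552400000 24728269 (c3g.enc h1))))))) (enc_case (kf3q3_69.enc h1 h2) (enc_add (enc_sub (enc_rat _ 2526855719129 5054239000000) (enc_scaleT 28841000 5054239 (c3g.enc h1))) (enc_mul (enc_norm (kf3q3_4.enc h1 h2)) (enc_norm (enc_subr 1030812369 505423900000 (enc_scaleT 112310000 5054239 (c3g.enc h1)))))) (enc_add (enc_sub (enc_rat _ 1 2) (enc_scaleT 312560000 54765409 (c3g.enc h1))) (enc_mul (enc_norm (kf3q3_4.enc h1 h2)) (enc_scaleT 1214900000 54765409 (c3g.enc h1)))))))))))⟩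
noncomputable def bf3q3_3 : Fn2 := ⟨_, _, fun h1 h2 => (enc_subr 9743 10000 h2)⟩
noncomputable def bf3q3 : Fn2 := ⟨_, _, fun h1 h2 => (enc_norm (enc_case (enc_subr 25297451 12800000 h1) (enc_case (enc_subr 193 100 h1) (enc_add (enc_subr 5089347 2150000 (enc_scaleT 54927 43000 h1)) (enc_mul (enc_norm (bf3q3_3.enc h1 h2)) (enc_norm (enc_subr 3141833 430000 (enc_scaleT 4173 860 h1))))) (enc_case (enc_subr 39 20 h1) (enc_add (enc_subr 473477 200000 (enc_scaleT 511 400 h1)) (enc_mul (enc_norm (bf3q3_3.enc h1 h2)) (enc_norm (enc_subr 29247 4000 (enc_scaleT 971 200 h1))))) (enc_add (enc_subr 2972702737 1256000000 (enc_scaleT 240624629 188400000 h1)) (enc_mul (enc_norm (bf3q3_3.enc h1 h2)) (enc_norm (enc_subr 459650983 62800000 (enc_scaleT 45770491 9420000 h1))))))) (enc_case (enc_sub (enc_rat _ 105307799 1000000000) (c3g.enc h1)) (enc_case (enc_sub (enc_rat _ 154764337 1000000000) (c3g.enc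 h1)) (enc_add (enc_subr 34645065492759301 20204879687500000 (enc_scaleT 2785924768 323278075 (c3g.enc h1))) (enc_mul (enc_norm (bf3q3_3.enc h1 h2)) (enc_norm (enc_subr 53663288889605869 64655615000000000 (enc_scaleT 1785034237 64655615 (c3g.enc h1)))))) (enc_add (enc_sub (enc_rat _ 1224627853907 2472826900000) (enc_scaleT 140000000 24728269 (c3g.enc h1))) (enc_mul (enc_norm (bf3q3_3.enc h1 h2)) (enc_norm (enc_subr 446669057 30910336250 (enc_scaleT 552400000 24728269 (c3g.enc h1))))))) (enc_case (enc_sub (enc_rat _ 54765409 1000000000) (c3g.enc h1)) (enc_add (enc_sub (enc_rat _ 2526855719129 5054239000000) (enc_scaleT 28841000 5054239 (c3g.enc h1))) (enc_mul (enc_norm (bf3q3_3.enc h1 h2)) (enc_norm (enc_subr 1030812369 505423900000 (enc_scaleT 112310000 5054239 (c3g.enc h1)))))) (enc_add (enc_sub (enc_rat _ 1 2) (enc_scaleT 312560000 54765409 (c3g.enc h1))) (enc_mul (enc_norm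 (bf3q3_3.enc h1 h2)) (enc_scaleT 1214900000 54765409 (c3g.enc h1))))))))⟩
noncomputable def lm2r : Fn2 := ⟨_, _, fun h1 h2 => (enc_lam (enc_norm (enc_sub h1 (cv2r.enc h2))) (enc_sub (cv3r.enc h2) (cv2r.enc h2)))⟩
noncomputable def bf2q3_3 : Fn2 := ⟨_, _, fun h1 h2 => (enc_subr 9743 10000 h2)⟩
noncomputable def bf2q3 : Fn2 := ⟨_, _, fun h1 h2 => (enc_norm (enc_case (enc_subr 987 500 h1) (enc_case (enc_subr 39 20 h1) (enc_case (enc_subr 193 100 h1) (enc_add (enc_sub (enc_rat _ 53542479 2150000) (enc_scaleT 136313 10750 h1)) (enc_mul (enc_norm (bf2q3_3.enc h1 h2)) (enc_norm (enc_sub (enc_rat _ 1216457 53750) (enc_scaleT 12933 860 h1))))) (enc_add (enc_sub (enc_rat _ 1245147 50000) (enc_scaleT 317 25 h1)) (enc_mul (enc_norm (bf2q3_3.enc h1 h2)) (enc_norm (enc_sub (enc_rat _ 452891 20000) (enc_scaleT 3009 200 h1)))))) (enc_case (enc_subr 49221 25000 h1) (enc_add (enc_sub (enc_rat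 _ 195495229 7850000) (enc_scaleT 11945 942 h1)) (enc_mul (enc_norm (bf2q3_3.enc h1 h2)) (enc_norm (enc_sub (enc_rat _ 17796463 785000) (enc_scaleT 14185 942 h1))))) (enc_add (enc_sub (enc_rat _ 107084573 4300000) (enc_scaleT 2181 172 h1)) (enc_mul (enc_norm (bf2q3_3.enc h1 h2)) (enc_norm (enc_sub (enc_rat _ 2437043 107500) (enc_scaleT 1295 86 h1))))))) (enc_case (enc_sub (enc_rat _ 154764337 1000000000) (c3g.enc h1)) (enc_case (enc_subr 4063 2048 h1) (enc_add (enc_sub (enc_rat _ 252109999 10124000) (enc_scaleT 802304 63275 h1)) (enc_mul (enc_norm (bf2q3_3.enc h1 h2)) (enc_norm (enc_sub (enc_rat _ 287205317 12655000) (enc_scaleT 38144 2531 h1))))) (enc_add (enc_subr 2976801355413 6465561500000 (enc_scaleT 12238000 12931123 (c3g.enc h1))) (enc_mul (enc_norm (bf2q3_3.enc h1 h2)) (enc_norm (enc_subr 1223516647599 161639037500 (enc_scaleT 21560000 12931123 (c3g.enc h1))))))) (enc_case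 (enc_sub (enc_rat _ 105307799 1000000000) (c3g.enc h1)) (enc_add (enc_subr 2277090415469 4945653800000 (enc_scaleT 23405000 24728269 (c3g.enc h1))) (enc_mul (enc_norm (bf2q3_3.enc h1 h2)) (enc_norm (enc_subr 3752931757577 494565380000 (enc_scaleT 44250000 24728269 (c3g.enc h1)))))) (enc_case (enc_sub (enc_rat _ 54765409 1000000000) (c3g.enc h1)) (enc_add (enc_subr 1163554614833 2527119500000 (enc_scaleT 4784000 5054239 (c3g.enc h1))) (enc_mul (enc_norm (bf2q3_3.enc h1 h2)) (enc_norm (enc_subr 479331590139 63177987500 (enc_scaleT 8980000 5054239 (c3g.enc h1)))))) (enc_add (enc_subr 23021 50000 (enc_scaleT 51830000 54765409 (c3g.enc h1))) (enc_mul (enc_norm (bf2q3_3.enc h1 h2)) (enc_norm (enc_subr 75867 10000 (enc_scaleT 97000000 54765409 (c3g.enc h1)))))))))))⟩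
noncomputable def lm1r : Fn2 := ⟨_, _, fun h1 h2 => (enc_lam (enc_norm (enc_sub h1 (cv1r.enc h2))) (enc_sub (cv2r.enc h2) (cv1r.enc h2)))⟩
noncomputable def bf1q3_3 : Fn2 := ⟨_, _, fun h1 h2 => (enc_subr 9743 10000 h2)⟩
noncomputable def bf1q3_50 : Fn2 := ⟨_, _, fun h1 h2 => (enc_scaleT 1 1250 (bf1q3_3.enc h1 h2))⟩
noncomputable def bf1q3 : Fn2 := ⟨_, _, fun h1 h2 => (enc_norm (enc_case (enc_subr 987 500 h1) (enc_case (enc_subr 39 20 h1) (enc_case (enc_subr 193 100 h1) (enc_add (enc_subr 1636008 134375 (enc_scaleT 260423 43000 h1)) (enc_mul (enc_norm (bf1q3_3.enc h1 h2)) (enc_norm (enc_sub (enc_rat _ 359 107500) (enc_scaleT 9 4300 h1))))) (enc_sub (enc_subr 2435047 200000 (enc_scaleT 12113 2000 h1)) (enc_scaleT 7 10000 (bf1q3_3.enc h1 h2)))) (enc_case (enc_subr 49221 25000 h1) (enc_add (enc_subr 95571971 7850000 (enc_scaleT 5705 942 h1)) (enc_mul (enc_norm (bf1q3_3.enc h1 h2))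 (enc_norm (enc_sub (enc_rat _ 15151 1570000) (enc_scaleT 5 942 h1))))) (enc_sub (enc_subr 52351003 4300000 (enc_scaleT 3125 516 h1)) (bf1q3_50.enc h1 h2)))) (enc_case (enc_sub (enc_rat _ 154764337 1000000000) (c3g.enc h1)) (enc_case (enc_subr 4063 2048 h1) (enc_sub (enc_subr 3081608473 253100000 (enc_scaleT 383232 63275 h1)) (bf1q3_50.enc h1 h2)) (enc_add (enc_sub (enc_rat _ 36439167907 1293112300000) (enc_scaleT 11080000 12931123 (c3g.enc h1))) (enc_mul (enc_norm (bf1q3_3.enc h1 h2)) (enc_norm (enc_subr 9800627 80819518750 (enc_neg (enc_scaleT 40000 12931123 (c3g.enc h1)))))))) (enc_case (enc_sub (enc_rat _ 105307799 1000000000) (c3g.enc h1)) (enc_add (enc_sub (enc_rat _ 27852373907 989130760000) (enc_scaleT 21185000 24728269 (c3g.enc h1))) (enc_mul (enc_norm (bf1q3_3.enc h1 h2)) (enc_norm (enc_subr 141974891 494565380000 (enc_neg (enc_scaleT 50000 24728269 (c3g.enc h1)))))))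 (enc_case (enc_sub (enc_rat _ 54765409 1000000000) (c3g.enc h1)) (enc_add (enc_sub (enc_rat _ 14231669733 505423900000) (enc_scaleT 4330000 5054239 (c3g.enc h1))) (enc_mul (enc_norm (bf1q3_3.enc h1 h2)) (enc_norm (enc_subr 1315511 15794496875 (enc_neg (enc_scaleT 20000 5054239 (c3g.enc h1))))))) (enc_add (enc_sub (enc_rat _ 88 3125) (enc_scaleT 46920000 54765409 (c3g.enc h1))) (enc_mul (enc_norm (bf1q3_3.enc h1 h2)) (enc_norm (enc_subr 1 5000 (enc_neg (enc_scaleT 100000 54765409 (c3g.enc h1))))))))))))⟩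
noncomputable def rkbq3_47 : Fn3 := ⟨_, _, fun h1 h2 h3 => (enc_add (enc_mul h1 (bf3q3.enc h2 h3)) (enc_mul (enc_norm (enc_mul (enc_norm (enc_sub (enc_pnc _ 1) (lm2r.enc h1 h2))) (cv2r.enc h2))) (enc_norm (enc_sub (bf2q3.enc h2 h3) (bf3q3.enc h2 h3)))))⟩
noncomputable def rkbq3_48 : Fn3 := ⟨_, _, fun h1 h2 h3 => (enc_subn 1 h2)⟩
noncomputable def rkbq3_49 : Fn3 := ⟨_, _, fun h1 h2 h3 => (gsg.enc (enc_norm (rkbq3_48.enc h1 h2 h3)))⟩
noncomputable def rkbq3_50 : Fn3 := ⟨_, _, fun h1 h2 h3 => (enc_scaleT 3 4 (rkbq3_48.enc h1 h2 h3))⟩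
noncomputable def rkbq3_51 : Fn3 := ⟨_, _, fun h1 h2 h3 => (enc_half (rkbq3_49.enc h1 h2 h3))⟩
noncomputable def rkbq3_53 : Fn3 := ⟨_, _, fun h1 h2 h3 => (esg.enc (enc_norm (rkbq3_48.enc h1 h2 h3)))⟩
noncomputable def rkbq3_54 : Fn3 := ⟨_, _, fun h1 h2 h3 => (kcg.enc (enc_norm (enc_sub (rkbq3_50.enc h1 h2 h3) (rkbq3_51.enc h1 h2 h3))) h3)⟩
noncomputable def rkbq3_56 : Fn3 := ⟨_, _, fun h1 h2 h3 => (enc_subn 2 h2)⟩
noncomputable def rkbq3_63 : Fn3 := ⟨_, _, fun h1 h2 h3 => (enc_sub (enc_sub (rkbq3_51.enc h1 h2 h3) (rkbq3_50.enc h1 h2 h3)) (enc_sub (enc_rat _ 1 4) (enc_scaleT 3 8 (enc_mul (enc_norm (rkbq3_48.enc h1 h2 h3)) (enc_inv (rkbq3_49.enc h1 h2 h3))))))⟩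
noncomputable def rkbq3_68 : Fn3 := ⟨_, _, fun h1 h2 h3 => (enc_wB3 (enc_mul (enc_norm (rkbq3_56.enc h1 h2 h3)) (enc_norm (enc_add (enc_mul (enc_norm (rkbq3_63.enc h1 h2 h3)) (enc_inv (rkbq3_53.enc h1 h2 h3))) (rkbq3_54.enc h1 h2 h3)))) (rkbq3_48.enc h1 h2 h3) (rkbq3_49.enc h1 h2 h3) (rkbq3_53.enc h1 h2 h3) (rkbq3_56.enc h1 h2 h3) (rkbq3_63.enc h1 h2 h3) (rkbq3_54.enc h1 h2 h3) h2 rfl rfl rfl rfl rfl)⟩
noncomputable def rkbq3_73 : Fn3 := ⟨_, _, fun h1 h2 h3 => (enc_subr 1 2 (swg.enc h2))⟩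
noncomputable def rkbq3_74 : Fn3 := ⟨_, _, fun h1 h2 h3 => (enc_sub h1 (cv2r.enc h2))⟩
noncomputable def rkbq3 : Fn3 := ⟨_, _, fun h1 h2 h3 => (enc_case (enc_sub h1 (cv1r.enc h2)) (enc_mul h1 (bf1q3.enc h2 h3)) (enc_case (rkbq3_74.enc h1 h2 h3) (enc_add (enc_mul h1 (bf2q3.enc h2 h3)) (enc_mul (enc_norm (enc_mul (enc_norm (enc_sub (enc_pnc _ 1) (lm1r.enc h1 h2))) (cv1r.enc h2))) (enc_norm (enc_sub (bf1q3.enc h2 h3) (bf2q3.enc h2 h3))))) (enc_case (enc_sub h1 (cv3r.enc h2)) (enc_case (enc_subr 49221 25000 h2) (rkbq3_47.enc h1 h2 h3) (enc_case (enc_subr 4063 2048 h2) (enc_wL (enc_add (kf2q3.enc h2 h3) (enc_mul (enc_norm (enc_mul (enc_norm (rkbq3_74.enc h1 h2 h3)) (enc_inv (enc_sub (rkbq3_73.enc h1 h2 h3) (cv2r.enc h2))))) (enc_norm (enc_sub (rkbq3_68.enc h1 h2 h3) (kf2q3.enc h2 h3))))) h1 (rkbq3_73.enc h1 h2 h3) (cv2r.enc h2) (rkbq3_68.enc h1 h2 h3) (kf2q3.enc h2 h3) rfl) (rkbq3_47.enc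 h1 h2 h3))) (enc_case (enc_sub h1 (cv4r.enc h2)) (enc_add (enc_mul h1 (bf4q3.enc h2 h3)) (enc_mul (enc_norm (enc_sub (enc_pnc _ 1) (lm3r.enc h1 h2))) (enc_norm (enc_sub (kf3q3.enc h2 h3) (enc_mul (cv3r.enc h2) (bf4q3.enc h2 h3)))))) (enc_case (enc_sub h1 (cv5r.enc h2)) (enc_add (enc_mul h1 (bf5q3.enc h2 h3)) (enc_mul (enc_norm (enc_mul (enc_norm (enc_sub (enc_pnc _ 1) (lm4r.enc h1 h2))) (cv4r.enc h2))) (enc_norm (enc_sub (bf4q3.enc h2 h3) (bf5q3.enc h2 h3))))) (enc_add (kf5q3.enc h2 h3) (enc_mul (lm5r.enc h1 h2) (enc_norm (enc_sub (kf6q3.enc h2 h3) (kf5q3.enc h2 h3))))))))))⟩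
noncomputable def rsbq3 : Fn3 := ⟨_, _, fun h1 h2 h3 => (enc_case h1 (enc_neg (rkbq3.enc (enc_neg h1) h2 h3)) (rkbq3.enc h1 h2 h3))⟩
noncomputable def bx3q0_3 : Fn2 := ⟨_, _, fun h1 h2 => (enc_subr 9743 10000 h2)⟩
noncomputable def bx3q0_51 : Fn2 := ⟨_, _, fun h1 h2 => (enc_sq (enc_norm (bx3q0_3.enc h1 h2)))⟩
noncomputable def bx3q0 : Fn2 := ⟨_, _, fun h1 h2 => (enc_norm (enc_case (enc_subr 302549 12800000 h1) (enc_case (enc_subr 21 2000 h1) (enc_case (enc_subr 1 200 h1) (enc_add (enc_add (enc_scaleT 121 100 h1) (enc_rat _ 473 20000)) (enc_mul (enc_norm (bx3q0_3.enc h1 h2)) (enc_norm (enc_sub (enc_rat _ 329 5000) (enc_scaleT 109 25 h1))))) (enc_add (enc_add (enc_scaleT 331 275 h1) (enc_rat _ 521 22000)) (enc_mul (enc_norm (bx3q0_3.enc h1 h2)) (enc_norm (enc_sub (enc_rat _ 729 11000) (enc_scaleT 49 11 h1)))))) (enc_case (enc_subr 27 2000 h1) (enc_add (enc_add (enc_scaleT 359 300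 h1) (enc_rat _ 4751 200000)) (enc_mul (enc_norm (bx3q0_3.enc h1 h2)) (enc_norm (enc_sub (enc_rat _ 281 4000) (enc_scaleT 29 6 h1))))) (enc_add (enc_add (enc_add (enc_scaleT 61157542 52265625 h1) (enc_rat _ 1680392369 69687500000)) (enc_mul (enc_norm (bx3q0_3.enc h1 h2)) (enc_norm (enc_subr 2558084329 3484375000 (enc_scaleT 572334712 10453125 h1))))) (enc_mul (bx3q0_51.enc h1 h2) (enc_norm (enc_sub (enc_rat _ 4724154 3484375) (enc_scaleT 8398496 83625 h1))))))) (enc_case (enc_subr 1 10 h1) (enc_case (enc_subr 1 20 h1) (enc_add (enc_add (enc_add (enc_scaleT 14621791 37680000 h1) (enc_rat _ 35372033 753600000)) (enc_mul (enc_norm (bx3q0_3.enc h1 h2)) (enc_norm (enc_sub (enc_rat _ 22061269 62800000) (enc_scaleT 27342749 3140000 h1))))) (enc_mul (bx3q0_51.enc h1 h2) (enc_norm (enc_sub (enc_rat _ 1 12560) (enc_scaleT 1 628 h1))))) (enc_case (enc_subr 7 100 h1) (enc_add (enc_add (enc_scaleT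 777 2000 h1) (enc_rat _ 9383 200000)) (enc_mul (enc_norm (bx3q0_3.enc h1 h2)) (enc_norm (enc_subr 1417 20000 (enc_neg (enc_scaleT 53 200 h1)))))) (enc_add (enc_add (enc_scaleT 581 1500 h1) (enc_rat _ 14099 300000)) (enc_mul (enc_norm (bx3q0_3.enc h1 h2)) (enc_norm (enc_subr 2269 30000 (enc_neg (enc_scaleT 59 300 h1)))))))) (enc_case (enc_subr 11 50 h1) (enc_case (enc_subr 3 20 h1) (enc_add (enc_add (enc_scaleT 953 2500 h1) (enc_rat _ 4761 100000)) (enc_mul (enc_norm (bx3q0_3.enc h1 h2)) (enc_norm (enc_subr 33 400 (enc_neg (enc_scaleT 16 125 h1)))))) (enc_add (enc_add (enc_scaleT 321 875 h1) (enc_rat _ 34833 700000)) (enc_mul (enc_norm (bx3q0_3.enc h1 h2)) (enc_norm (enc_subr 6519 70000 (enc_neg (enc_scaleT 2 35 h1))))))) (enc_case (enc_subr 33 100 h1) (enc_add (enc_add (enc_scaleT 3437 11000 h1) (enc_rat _ 6173 100000)) (enc_mul (enc_norm (bx3q0_3.enc h1 h2)) (enc_norm (enc_subr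 1081 10000 (enc_scaleT 3 275 h1))))) (enc_add (enc_sub (enc_rat _ 415627 1700000) (enc_scaleT 4103 17000 h1)) (enc_mul (enc_norm (bx3q0_3.enc h1 h2)) (enc_norm (enc_subr 451 3400 (enc_scaleT 29 340 h1))))))))))⟩
noncomputable def rxq0_47 : Fn3 := ⟨_, _, fun h1 h2 h3 => (enc_add (enc_mul h1 (bx3q0.enc h2 h3)) (enc_mul (enc_norm (enc_mul (enc_norm (enc_sub (enc_pnc _ 1) (lm2m.enc h1 h2))) (cv2m.enc h2))) (enc_norm (enc_sub (bx2q0.enc h2 h3) (bx3q0.enc h2 h3)))))⟩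
noncomputable def rxq0_49 : Fn3 := ⟨_, _, fun h1 h2 h3 => (enc_sub (enc_pnc _ 1) h2)⟩
noncomputable def rxq0_61 : Fn3 := ⟨_, _, fun h1 h2 h3 => (enc_sub (qsg.enc (enc_norm (rxq0_49.enc h1 h2 h3))) (enc_mul (enc_norm (enc_nat 2 (enc_sub (rxq0_49.enc h1 h2 h3) h3))) (enc_norm (enc_mul (esg.enc (enc_norm (rxq0_49.enc h1 h2 h3))) (kcg.enc (enc_norm (enc_sub (enc_scaleT 3 4 (rxq0_49.enc h1 h2 h3)) (enc_half (gsg.enc (enc_norm (rxq0_49.enc h1 h2 h3)))))) h3)))))⟩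
noncomputable def rxq0_65 : Fn3 := ⟨_, _, fun h1 h2 h3 => (enc_add (swg.enc h2) (enc_rat _ 1 2))⟩
noncomputable def rxq0_66 : Fn3 := ⟨_, _, fun h1 h2 h3 => (enc_sub h1 (cv2m.enc h2))⟩
noncomputable def rxq0 : Fn3 := ⟨_, _, fun h1 h2 h3 => (enc_case (enc_sub h1 (cv1m.enc h2)) (enc_add (enc_mul h1 (bx1q0.enc h2 h3)) (enc_mul (enc_norm (enc_sub (enc_pnc _ 1) (lm0m.enc h1 h2))) (enc_norm (enc_sub (l0q0.enc h2 h3) (enc_mul (c1g.enc h2) (bx1q0.enc h2 h3)))))) (enc_case (rxq0_66.enc h1 h2 h3) (enc_add (enc_mul h1 (bx2q0.enc h2 h3)) (enc_mul (enc_norm (enc_mul (enc_norm (enc_sub (enc_pnc _ 1) (lm1m.enc h1 h2))) (cv1m.enc h2))) (enc_norm (enc_sub (bx1q0.enc h2 h3) (bx2q0.enc h2 h3))))) (enc_case (enc_sub h1 (cv3m.enc h2)) (enc_case (enc_subr 33 2048 h2) (rxq0_47.enc h1 h2 h3) (enc_case (enc_subr 779 25000 h2) (enc_wL (enc_add (l2q0.enc h2 h3) (enc_mul (enc_norm (enc_mul (enc_norm (rxq0_66.enc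 h1 h2 h3)) (enc_inv (enc_sub (rxq0_65.enc h1 h2 h3) (cv2m.enc h2))))) (enc_norm (enc_sub (rxq0_61.enc h1 h2 h3) (l2q0.enc h2 h3))))) h1 (rxq0_65.enc h1 h2 h3) (cv2m.enc h2) (rxq0_61.enc h1 h2 h3) (l2q0.enc h2 h3) rfl) (rxq0_47.enc h1 h2 h3))) (enc_case (enc_sub h1 (cv4m.enc h2)) (enc_add (enc_mul h1 (bx4q0.enc h2 h3)) (enc_mul (enc_norm (enc_sub (enc_pnc _ 1) (lm3m.enc h1 h2))) (enc_norm (enc_sub (l3q0.enc h2 h3) (enc_mul (cv3m.enc h2) (bx4q0.enc h2 h3)))))) (enc_case (enc_sub h1 (cv5m.enc h2)) (enc_add (enc_mul h1 (bx5q0.enc h2 h3)) (enc_mul (enc_norm (enc_mul (enc_norm (enc_sub (enc_pnc _ 1) (lm4m.enc h1 h2))) (cv4m.enc h2))) (enc_norm (enc_sub (bx4q0.enc h2 h3) (bx5q0.enc h2 h3))))) (enc_add (l5q0.enc h2 h3) (enc_mul (lm5m.enc h1 h2) (enc_norm (enc_sub (l6q0.enc h2 h3) (l5q0.enc h2 h3))))))))))⟩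
noncomputable def rlq0 : Fn3 := ⟨_, _, fun h1 h2 h3 => (enc_case h1 (enc_neg (rxq0.enc (enc_neg h1) h2 h3)) (rxq0.enc h1 h2 h3))⟩
noncomputable def rxq1 : Fn3 := ⟨_, _, fun h1 h2 h3 => (enc_case (enc_sub h1 (cv1m.enc h2)) (enc_add (enc_mul h1 (bx1q1.enc h2 h3)) (enc_mul (enc_norm (enc_sub (enc_pnc _ 1) (lm0m.enc h1 h2))) (enc_norm (enc_sub (l0q1.enc h2 h3) (enc_mul (c1g.enc h2) (bx1q1.enc h2 h3)))))) (enc_case (enc_sub h1 (cv2m.enc h2)) (enc_add (enc_mul h1 (bx2q1.enc h2 h3)) (enc_mul (enc_norm (enc_mul (enc_norm (enc_sub (enc_pnc _ 1) (lm1m.enc h1 h2))) (cv1m.enc h2))) (enc_norm (enc_sub (bx1q1.enc h2 h3) (bx2q1.enc h2 h3))))) (enc_case (enc_sub h1 (cv3m.enc h2)) (enc_add (enc_mul h1 (bx3q1.enc h2 h3)) (enc_mul (enc_norm (enc_mul (enc_norm (enc_sub (enc_pnc _ 1) (lm2m.enc h1 h2))) (cv2m.enc h2))) (enc_norm (enc_sub (bx2q1.enc h2 h3) (bx3q1.enc h2 h3))))) (enc_case (enc_sub h1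 (cv4m.enc h2)) (enc_add (enc_mul h1 (bx4q1.enc h2 h3)) (enc_mul (enc_norm (enc_mul (enc_norm (enc_sub (enc_pnc _ 1) (lm3m.enc h1 h2))) (cv3m.enc h2))) (enc_norm (enc_sub (bx3q1.enc h2 h3) (bx4q1.enc h2 h3))))) (enc_case (enc_sub h1 (cv5m.enc h2)) (enc_add (enc_mul h1 (bx5q1.enc h2 h3)) (enc_mul (enc_norm (enc_mul (enc_norm (enc_sub (enc_pnc _ 1) (lm4m.enc h1 h2))) (cv4m.enc h2))) (enc_norm (enc_sub (bx4q1.enc h2 h3) (bx5q1.enc h2 h3))))) (enc_add (l5q1.enc h2 h3) (enc_mul (lm5m.enc h1 h2) (enc_norm (enc_sub (l6q1.enc h2 h3) (l5q1.enc h2 h3))))))))))⟩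
noncomputable def rlq1 : Fn3 := ⟨_, _, fun h1 h2 h3 => (enc_case h1 (enc_neg (rxq1.enc (enc_neg h1) h2 h3)) (rxq1.enc h1 h2 h3))⟩
noncomputable def l0q2_7 : Fn2 := ⟨_, _, fun h1 h2 => (enc_scaleT 3 4 h1)⟩
noncomputable def l0q2_8 : Fn2 := ⟨_, _, fun h1 h2 => (enc_half (c1g.enc h1))⟩
noncomputable def l0q2 : Fn2 := ⟨_, _, fun h1 h2 => (enc_norm (enc_sub (txg.enc (enc_neg (c1g.enc h1)) (enc_norm (enc_add (l0q2_7.enc h1 h2) (l0q2_8.enc h1 h2))) h2) (txg.enc (c1g.enc h1) (enc_norm (enc_sub (l0q2_7.enc h1 h2) (l0q2_8.enc h1 h2))) h2)))⟩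
noncomputable def n0x : Fn2 := ⟨_, _, fun h1 h2 => (enc_norm (enc_subr 2676217 10000000 (enc_scaleT 76813 1000000 (enc_subr 9743 10000 h2))))⟩
noncomputable def rxq2_62 : Fn3 := ⟨_, _, fun h1 h2 h3 => (enc_mul h1 (bx1q2.enc h2 h3))⟩
noncomputable def rxq2_64 : Fn3 := ⟨_, _, fun h1 h2 h3 => (enc_sub (enc_pnc _ 1) (lm0p.enc h1 h2))⟩
noncomputable def rxq2 : Fn3 := ⟨_, _, fun h1 h2 h3 => (enc_case (enc_sub h1 (cv1p.enc h2)) (enc_case (enc_subr 1149 1000 h2) (enc_add (rxq2_62.enc h1 h2 h3) (enc_mul (enc_norm (rxq2_64.enc h1 h2 h3)) (enc_norm (enc_sub (l0q2.enc h2 h3) (enc_mul (c1g.enc h2) (bx1q2.enc h2 h3)))))) (enc_case (enc_subr 2887 2500 h2) (enc_add (rxq2_62.enc h1 h2 h3) (enc_mul (enc_norm (rxq2_64.enc h1 h2 h3)) (enc_norm (enc_mul (c1g.enc h2) (enc_norm (enc_sub (n0x.enc h2 h3) (bx1q2.enc h2 h3))))))) (rxq2_62.enc h1 h2 h3))) (enc_case (enc_sub h1 (cv2p.enc h2)) (enc_add (enc_mul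 h1 (bx2q2.enc h2 h3)) (enc_mul (enc_norm (enc_mul (enc_norm (enc_sub (enc_pnc _ 1) (lm1p.enc h1 h2))) (cv1p.enc h2))) (enc_norm (enc_sub (bx1q2.enc h2 h3) (bx2q2.enc h2 h3))))) (enc_case (enc_sub h1 (cv3p.enc h2)) (enc_add (enc_mul h1 (bx3q2.enc h2 h3)) (enc_mul (enc_norm (enc_mul (enc_norm (enc_sub (enc_pnc _ 1) (lm2p.enc h1 h2))) (cv2p.enc h2))) (enc_norm (enc_sub (bx2q2.enc h2 h3) (bx3q2.enc h2 h3))))) (enc_case (enc_sub h1 (cv4p.enc h2)) (enc_add (enc_mul h1 (bx4q2.enc h2 h3)) (enc_mul (enc_norm (enc_mul (enc_norm (enc_sub (enc_pnc _ 1) (lm3p.enc h1 h2))) (cv3p.enc h2))) (enc_norm (enc_sub (bx3q2.enc h2 h3) (bx4q2.enc h2 h3))))) (enc_case (enc_sub h1 (cv5p.enc h2)) (enc_add (enc_mul h1 (bx5q2.enc h2 h3)) (enc_mul (enc_norm (enc_mul (enc_norm (enc_sub (enc_pnc _ 1) (lm4p.enc h1 h2))) (cv4p.enc h2))) (enc_norm (enc_sub (bx4q2.enc h2 h3) (bx5q2.enc h2 h3))))) (enc_add (l5q2.enc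 h2 h3) (enc_mul (lm5p.enc h1 h2) (enc_norm (enc_sub (l6q2.enc h2 h3) (l5q2.enc h2 h3))))))))))⟩
noncomputable def rlq2 : Fn3 := ⟨_, _, fun h1 h2 h3 => (enc_case h1 (enc_neg (rxq2.enc (enc_neg h1) h2 h3)) (rxq2.enc h1 h2 h3))⟩
noncomputable def l5q3_4 : Fn2 := ⟨_, _, fun h1 h2 => (enc_subr 9743 10000 h2)⟩
noncomputable def l5q3 : Fn2 := ⟨_, _, fun h1 h2 => (enc_norm (enc_mul (cv5r.enc h1) (enc_norm (enc_case (enc_subr 987 500 h1) (enc_case (enc_subr 39 20 h1) (enc_case (enc_subr 193 100 h1) (enc_add (enc_subr 1068279 537500 (enc_scaleT 62601 43000 h1)) (enc_mul (enc_norm (l5q3_4.enc h1 h2)) (enc_norm (enc_subr 821863 430000 (enc_scaleT 2406 1075 h1))))) (enc_add (enc_subr 25113 12500 (enc_scaleT 1467 1000 h1)) (enc_mul (enc_norm (l5q3_4.enc h1 h2)) (enc_norm (enc_subr 20307 10000 (enc_scaleT 23 10 h1)))))) (enc_case (enc_subr 49221 25000 h1) (enc_add (enc_subr 31528473 15700000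 (enc_scaleT 921 628 h1)) (enc_mul (enc_norm (l5q3_4.enc h1 h2)) (enc_norm (enc_subr 3312999 1570000 (enc_scaleT 735 314 h1))))) (enc_add (enc_subr 8639367 4300000 (enc_scaleT 757 516 h1)) (enc_mul (enc_norm (l5q3_4.enc h1 h2)) (enc_norm (enc_subr 463671 215000 (enc_scaleT 305 129 h1))))))) (enc_case (enc_sub (enc_rat _ 154764337 1000000000) (c3g.enc h1)) (enc_case (enc_subr 4063 2048 h1) (enc_add (enc_subr 508297189 253100000 (enc_scaleT 3712 2531 h1)) (enc_mul (enc_norm (l5q3_4.enc h1 h2)) (enc_norm (enc_subr 27606277 12655000 (enc_scaleT 6016 2531 h1))))) (enc_add (enc_add (enc_scaleT 688000 12931123 (c3g.enc h1)) (enc_rat _ 5751994772077 6465561500000)) (enc_mul (enc_norm (l5q3_4.enc h1 h2)) (enc_norm (enc_sub (enc_rat _ 1702289145747 646556150000) (enc_scaleT 5820000 12931123 (c3g.enc h1))))))) (enc_case (enc_sub (enc_rat _ 105307799 1000000000) (c3g.enc h1)) (enc_add (enc_add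 (enc_scaleT 1315000 24728269 (c3g.enc h1)) (enc_rat _ 175994046271 197826152000)) (enc_mul (enc_norm (l5q3_4.enc h1 h2)) (enc_norm (enc_sub (enc_rat _ 81241310257 30910336250) (enc_scaleT 10400000 24728269 (c3g.enc h1)))))) (enc_case (enc_sub (enc_rat _ 54765409 1000000000) (c3g.enc h1)) (enc_add (enc_sub (enc_rat _ 226764385113 252711950000) (enc_scaleT 100000 5054239 (c3g.enc h1))) (enc_mul (enc_norm (l5q3_4.enc h1 h2)) (enc_norm (enc_sub (enc_rat _ 1346137629019 505423900000) (enc_scaleT 3810000 5054239 (c3g.enc h1)))))) (enc_add (enc_sub (enc_rat _ 44861 50000) (enc_scaleT 980000 54765409 (c3g.enc h1))) (enc_mul (enc_norm (l5q3_4.enc h1 h2)) (enc_norm (enc_sub (enc_rat _ 26767 10000) (enc_scaleT 54600000 54765409 (c3g.enc h1)))))))))))))⟩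
noncomputable def l6q3_7 : Fn2 := ⟨_, _, fun h1 h2 => (enc_half (c3g.enc h1))⟩
noncomputable def l6q3_8 : Fn2 := ⟨_, _, fun h1 h2 => (enc_scaleT 1 4 h1)⟩
noncomputable def l6q3_9 : Fn2 := ⟨_, _, fun h1 h2 => (enc_sub (l6q3_7.enc h1 h2) (l6q3_8.enc h1 h2))⟩
noncomputable def l6q3_12 : Fn2 := ⟨_, _, fun h1 h2 => (enc_add (enc_scaleT 1 4 (c3g.enc h1)) (enc_scaleT 3 8 h1))⟩
noncomputable def l6q3_14 : Fn2 := ⟨_, _, fun h1 h2 => (enc_half (l6q3_9.enc h1 h2))⟩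
noncomputable def l6q3 : Fn2 := ⟨_, _, fun h1 h2 => (enc_norm (enc_sub (enc_nat 2 (txg.enc (enc_norm (enc_sub (l6q3_8.enc h1 h2) (l6q3_7.enc h1 h2))) (enc_norm (enc_add (l6q3_12.enc h1 h2) (l6q3_14.enc h1 h2))) h2)) (txg.enc (enc_norm (l6q3_9.enc h1 h2)) (enc_norm (enc_sub (l6q3_12.enc h1 h2) (l6q3_14.enc h1 h2))) h2)))⟩
noncomputable def bx5q3_3 : Fn2 := ⟨_, _, fun h1 h2 => (enc_subr 9743 10000 h2)⟩
noncomputable def bx5q3 : Fn2 := ⟨_, _, fun h1 h2 => (enc_norm (enc_case (enc_subr 987 500 h1) (enc_case (enc_subr 39 20 h1) (enc_case (enc_subr 193 100 h1) (enc_add (enc_subr 1068279 537500 (enc_scaleT 62601 43000 h1)) (enc_mul (enc_norm (bx5q3_3.enc h1 h2)) (enc_norm (enc_subr 821863 430000 (enc_scaleT 2406 1075 h1))))) (enc_add (enc_subr 25113 12500 (enc_scaleT 1467 1000 h1)) (enc_mul (enc_norm (bx5q3_3.enc h1 h2)) (enc_norm (enc_subr 20307 10000 (enc_scaleT 23 10 h1)))))) (enc_case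 (enc_subr 49221 25000 h1) (enc_add (enc_subr 31528473 15700000 (enc_scaleT 921 628 h1)) (enc_mul (enc_norm (bx5q3_3.enc h1 h2)) (enc_norm (enc_subr 3312999 1570000 (enc_scaleT 735 314 h1))))) (enc_add (enc_subr 8639367 4300000 (enc_scaleT 757 516 h1)) (enc_mul (enc_norm (bx5q3_3.enc h1 h2)) (enc_norm (enc_subr 463671 215000 (enc_scaleT 305 129 h1))))))) (enc_case (enc_sub (enc_rat _ 154764337 1000000000) (c3g.enc h1)) (enc_case (enc_subr 4063 2048 h1) (enc_add (enc_subr 508297189 253100000 (enc_scaleT 3712 2531 h1)) (enc_mul (enc_norm (bx5q3_3.enc h1 h2)) (enc_norm (enc_subr 27606277 12655000 (enc_scaleT 6016 2531 h1))))) (enc_add (enc_add (enc_scaleT 688000 12931123 (c3g.enc h1)) (enc_rat _ 5751994772077 6465561500000)) (enc_mul (enc_norm (bx5q3_3.enc h1 h2)) (enc_norm (enc_sub (enc_rat _ 1702289145747 646556150000) (enc_scaleT 5820000 12931123 (c3g.enc h1))))))) (enc_case (enc_sub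 (enc_rat _ 105307799 1000000000) (c3g.enc h1)) (enc_add (enc_add (enc_scaleT 1315000 24728269 (c3g.enc h1)) (enc_rat _ 175994046271 197826152000)) (enc_mul (enc_norm (bx5q3_3.enc h1 h2)) (enc_norm (enc_sub (enc_rat _ 81241310257 30910336250) (enc_scaleT 10400000 24728269 (c3g.enc h1)))))) (enc_case (enc_sub (enc_rat _ 54765409 1000000000) (c3g.enc h1)) (enc_add (enc_sub (enc_rat _ 226764385113 252711950000) (enc_scaleT 100000 5054239 (c3g.enc h1))) (enc_mul (enc_norm (bx5q3_3.enc h1 h2)) (enc_norm (enc_sub (enc_rat _ 1346137629019 505423900000) (enc_scaleT 3810000 5054239 (c3g.enc h1)))))) (enc_add (enc_sub (enc_rat _ 44861 50000) (enc_scaleT 980000 54765409 (c3g.enc h1))) (enc_mul (enc_norm (bx5q3_3.enc h1 h2)) (enc_norm (enc_sub (enc_rat _ 26767 10000) (enc_scaleT 54600000 54765409 (c3g.enc h1)))))))))))⟩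
noncomputable def bx4q3_3 : Fn2 := ⟨_, _, fun h1 h2 => (enc_subr 9743 10000 h2)⟩
noncomputable def bx4q3 : Fn2 := ⟨_, _, fun h1 h2 => (enc_norm (enc_case (enc_subr 987 500 h1) (enc_case (enc_subr 39 20 h1) (enc_case (enc_subr 193 100 h1) (enc_add (enc_subr 437599 430000 (enc_scaleT 41821 43000 h1)) (enc_mul (enc_norm (bx4q3_3.enc h1 h2)) (enc_norm (enc_subr 1093319 430000 (enc_scaleT 5159 2150 h1))))) (enc_add (enc_subr 202731 200000 (enc_scaleT 1941 2000 h1)) (enc_mul (enc_norm (bx4q3_3.enc h1 h2)) (enc_norm (enc_subr 51063 20000 (enc_scaleT 481 200 h1)))))) (enc_case (enc_subr 49221 25000 h1) (enc_add (enc_subr 7953763 7850000 (enc_scaleT 457 471 h1)) (enc_mul (enc_norm (bx4q3_3.enc h1 h2)) (enc_norm (enc_subr 504911 196250 (enc_scaleT 2275 942 h1))))) (enc_add (enc_subr 4362377 4300000 (enc_scaleT 167 172 h1)) (enc_mul (enc_norm (bx4q3_3.enc h1 h2)) (enc_norm (enc_subr 219233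 86000 (enc_scaleT 310 129 h1))))))) (enc_case (enc_sub (enc_rat _ 154764337 1000000000) (c3g.enc h1)) (enc_case (enc_subr 4063 2048 h1) (enc_add (enc_subr 256806199 253100000 (enc_scaleT 12288 12655 h1)) (enc_mul (enc_norm (bx4q3_3.enc h1 h2)) (enc_norm (enc_subr 65234421 25310000 (enc_scaleT 30592 12655 h1))))) (enc_add (enc_add (enc_scaleT 66000 12931123 (c3g.enc h1)) (enc_rat _ 5887476216749 6465561500000)) (enc_mul (enc_norm (bx4q3_3.enc h1 h2)) (enc_norm (enc_sub (enc_rat _ 215192610041 80819518750) (enc_scaleT 26180000 12931123 (c3g.enc h1))))))) (enc_case (enc_sub (enc_rat _ 105307799 1000000000) (c3g.enc h1)) (enc_add (enc_add (enc_scaleT 125000 24728269 (c3g.enc h1)) (enc_rat _ 4503500851819 4945653800000)) (enc_mul (enc_norm (bx4q3_3.enc h1 h2)) (enc_norm (enc_sub (enc_rat _ 1317420605919 494565380000) (enc_scaleT 50250000 24728269 (c3g.enc h1)))))) (enc_case (enc_sub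 (enc_rat _ 54765409 1000000000) (c3g.enc h1)) (enc_add (enc_add (enc_scaleT 549000 5054239 (c3g.enc h1)) (enc_rat _ 4547254798419 5054239000000)) (enc_mul (enc_norm (bx4q3_3.enc h1 h2)) (enc_norm (enc_sub (enc_rat _ 675644023173 252711950000) (enc_scaleT 10740000 5054239 (c3g.enc h1)))))) (enc_add (enc_add (enc_scaleT 8420000 54765409 (c3g.enc h1)) (enc_rat _ 44861 50000)) (enc_mul (enc_norm (bx4q3_3.enc h1 h2)) (enc_norm (enc_sub (enc_rat _ 26767 10000) (enc_scaleT 119500000 54765409 (c3g.enc h1)))))))))))⟩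
noncomputable def l3q3_4 : Fn2 := ⟨_, _, fun h1 h2 => (enc_subr 9743 10000 h2)⟩
noncomputable def l3q3_6 : Fn2 := ⟨_, _, fun h1 h2 => (enc_subr 193 100 h1)⟩
noncomputable def l3q3_18 : Fn2 := ⟨_, _, fun h1 h2 => (enc_subr 39 20 h1)⟩
noncomputable def l3q3_43 : Fn2 := ⟨_, _, fun h1 h2 => (enc_sq (enc_norm (l3q3_4.enc h1 h2)))⟩
noncomputable def l3q3_51 : Fn2 := ⟨_, _, fun h1 h2 => (enc_sub (enc_rat _ 105307799 1000000000) (c3g.enc h1))⟩
noncomputable def l3q3_53 : Fn2 := ⟨_, _, fun h1 h2 => (enc_sub (enc_rat _ 154764337 1000000000) (c3g.enc h1))⟩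
noncomputable def l3q3_81 : Fn2 := ⟨_, _, fun h1 h2 => (enc_sub (enc_rat _ 54765409 1000000000) (c3g.enc h1))⟩
noncomputable def l3q3_104 : Fn2 := ⟨_, _, fun h1 h2 => (enc_subn 1 h1)⟩
noncomputable def l3q3_142 : Fn2 := ⟨_, _, fun h1 h2 => (enc_subr 49221 25000 h1)⟩
noncomputable def l3q3_166 : Fn2 := ⟨_, _, fun h1 h2 => (enc_subr 4063 2048 h1)⟩
noncomputable def l3q3_218 : Fn2 := ⟨_, _, fun h1 h2 => (enc_mul (cv2r.enc h1) (enc_norm (enc_case (enc_subr 987 500 h1) (enc_case (l3q3_18.enc h1 h2) (enc_case (l3q3_6.enc h1 h2) (enc_add (enc_subr 3383113 2150000 (enc_scaleT 6836 5375 h1)) (enc_mul (enc_norm (l3q3_4.enc h1 h2)) (enc_norm (enc_subr 340851 430000 (enc_scaleT 3417 4300 h1))))) (enc_add (enc_subr 15739 10000 (enc_scaleT 159 125 h1)) (enc_mul (enc_norm (l3q3_4.enc h1 h2)) (enc_norm (enc_subr 16253 20000 (enc_scaleT 161 200 h1)))))) (enc_case (l3q3_142.enc h1 h2) (enc_add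 (enc_subr 494059 314000 (enc_scaleT 599 471 h1)) (enc_mul (enc_norm (l3q3_4.enc h1 h2)) (enc_norm (enc_subr 1313853 1570000 (enc_scaleT 385 471 h1))))) (enc_add (enc_subr 3381007 2150000 (enc_scaleT 164 129 h1)) (enc_mul (enc_norm (l3q3_4.enc h1 h2)) (enc_norm (enc_subr 356919 430000 (enc_scaleT 35 43 h1))))))) (enc_case (l3q3_53.enc h1 h2) (enc_case (l3q3_166.enc h1 h2) (enc_add (enc_subr 198776151 126550000 (enc_scaleT 80384 63275 h1)) (enc_mul (enc_norm (l3q3_4.enc h1 h2)) (enc_norm (enc_subr 21779931 25310000 (enc_scaleT 10496 12655 h1))))) (enc_add (enc_add (enc_scaleT 2350000 12931123 (c3g.enc h1)) (enc_rat _ 588174944557 646556150000)) (enc_mul (enc_norm (l3q3_4.enc h1 h2)) (enc_norm (enc_subr 185504912789 129311230000 (enc_scaleT 130800000 12931123 (c3g.enc h1))))))) (enc_case (l3q3_51.enc h1 h2) (enc_add (enc_add (enc_scaleT 4470000 24728269 (c3g.enc h1)) (enc_rat _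 562477898247 618206725000)) (enc_mul (enc_norm (l3q3_4.enc h1 h2)) (enc_norm (enc_subr 142776154241 98913076000 (enc_scaleT 251550000 24728269 (c3g.enc h1)))))) (enc_case (l3q3_81.enc h1 h2) (enc_add (enc_add (enc_scaleT 244000 5054239 (c3g.enc h1)) (enc_rat _ 2334568480877 2527119500000)) (enc_mul (enc_norm (l3q3_4.enc h1 h2)) (enc_norm (enc_subr 728663707847 505423900000 (enc_scaleT 51330000 5054239 (c3g.enc h1)))))) (enc_add (enc_add (enc_scaleT 2650000 54765409 (c3g.enc h1)) (enc_rat _ 4619 5000)) (enc_mul (enc_norm (l3q3_4.enc h1 h2)) (enc_norm (enc_subr 2883 2000 (enc_scaleT 556000000 54765409 (c3g.enc h1))))))))))))⟩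
noncomputable def l3q3 : Fn2 := ⟨_, _, fun h1 h2 => (enc_norm (enc_case (l3q3_142.enc h1 h2) (enc_mul (cv3r.enc h1) (enc_norm (enc_case (l3q3_6.enc h1 h2) (enc_add (enc_subr 2178721 2150000 (enc_scaleT 5269 5375 h1)) (enc_mul (enc_norm (l3q3_4.enc h1 h2)) (enc_norm (enc_sub (enc_rat _ 105949 430000) (enc_scaleT 1081 4300 h1))))) (enc_case (l3q3_18.enc h1 h2) (enc_add (enc_subr 202757 200000 (enc_scaleT 1961 2000 h1)) (enc_mul (enc_norm (l3q3_4.enc h1 h2)) (enc_norm (enc_sub (enc_rat _ 5067 20000) (enc_scaleT 51 200 h1))))) (enc_add (enc_add (enc_subr 318129369 314000000 (enc_scaleT 46166233 47100000 h1)) (enc_mul (enc_norm (l3q3_4.enc h1 h2)) (enc_norm (enc_subr 25649081617 125600000 (enc_scaleT 1970649829 18840000 h1))))) (enc_mul (l3q3_43.enc h1 h2) (enc_norm (enc_subr 4823 125600 (enc_scaleT 371 18840 h1))))))))) (enc_case (l3q3_166.enc h1 h2) (enc_add (l3q3_218.enc h1 h2)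 (enc_mul (enc_norm (enc_mul (enc_norm (enc_sub (enc_sub (qsg.enc (enc_norm (l3q3_104.enc h1 h2))) (enc_mul (enc_norm (enc_nat 2 (enc_sub (l3q3_104.enc h1 h2) h2))) (enc_norm (enc_mul (esg.enc (enc_norm (l3q3_104.enc h1 h2))) (kcg.enc (enc_norm (enc_sub (enc_scaleT 3 4 (l3q3_104.enc h1 h2)) (enc_half (gsg.enc (enc_norm (l3q3_104.enc h1 h2)))))) h2))))) (l3q3_218.enc h1 h2))) (enc_norm (enc_sub (cv3r.enc h1) (cv2r.enc h1))))) (enc_inv (enc_sub (enc_subr 1 2 (swg.enc h1)) (cv2r.enc h1))))) (enc_mul (cv3r.enc h1) (enc_norm (enc_case (l3q3_51.enc h1 h2) (enc_case (l3q3_53.enc h1 h2) (enc_add (enc_add (enc_sub (enc_rat _ 12400398984182169 12931123000000000) (enc_scaleT 1644137 12931123 (c3g.enc h1))) (enc_mul (enc_norm (l3q3_4.enc h1 h2)) (enc_norm (enc_sub (enc_rat _ 120966690521436653 16163903750000000) (enc_scaleT 1566361076 64655615 (c3g.enc h1)))))) (enc_mul (l3q3_43.enc h1 h2)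 (enc_norm (enc_sub (enc_rat _ 639011268733747 64655615000000) (enc_scaleT 825786200 12931123 (c3g.enc h1)))))) (enc_add (enc_add (enc_scaleT 6585000 24728269 (c3g.enc h1)) (enc_rat _ 888305813887 989130760000)) (enc_mul (enc_norm (l3q3_4.enc h1 h2)) (enc_norm (enc_subr 679622846453 494565380000 (enc_scaleT 816250000 24728269 (c3g.enc h1))))))) (enc_case (l3q3_81.enc h1 h2) (enc_add (enc_add (enc_scaleT 1173000 5054239 (c3g.enc h1)) (enc_rat _ 4557255232063 5054239000000)) (enc_mul (enc_norm (l3q3_4.enc h1 h2)) (enc_norm (enc_subr 139363257377 101084780000 (enc_scaleT 167050000 5054239 (c3g.enc h1)))))) (enc_add (enc_add (enc_scaleT 17160000 54765409 (c3g.enc h1)) (enc_rat _ 44861 50000)) (enc_mul (enc_norm (l3q3_4.enc h1 h2)) (enc_norm (enc_sub (enc_rat _ 26767 10000) (enc_scaleT 2245300000 54765409 (c3g.enc h1)))))))))))))⟩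
noncomputable def bx3q3_3 : Fn2 := ⟨_, _, fun h1 h2 => (enc_subr 9743 10000 h2)⟩
noncomputable def bx3q3_42 : Fn2 := ⟨_, _, fun h1 h2 => (enc_sq (enc_norm (bx3q3_3.enc h1 h2)))⟩
noncomputable def bx3q3 : Fn2 := ⟨_, _, fun h1 h2 => (enc_norm (enc_case (enc_subr 25297451 12800000 h1) (enc_case (enc_subr 193 100 h1) (enc_add (enc_subr 2178721 2150000 (enc_scaleT 5269 5375 h1)) (enc_mul (enc_norm (bx3q3_3.enc h1 h2)) (enc_norm (enc_sub (enc_rat _ 105949 430000) (enc_scaleT 1081 4300 h1))))) (enc_case (enc_subr 39 20 h1) (enc_add (enc_subr 202757 200000 (enc_scaleT 1961 2000 h1)) (enc_mul (enc_norm (bx3q3_3.enc h1 h2)) (enc_norm (enc_sub (enc_rat _ 5067 20000) (enc_scaleT 51 200 h1))))) (enc_add (enc_add (enc_subr 318129369 314000000 (enc_scaleT 46166233 47100000 h1)) (enc_mul (enc_norm (bx3q3_3.enc h1 h2)) (enc_norm (enc_subr 25649081617 125600000 (enc_scaleT 1970649829 18840000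 h1))))) (enc_mul (bx3q3_42.enc h1 h2) (enc_norm (enc_subr 4823 125600 (enc_scaleT 371 18840 h1))))))) (enc_case (enc_sub (enc_rat _ 105307799 1000000000) (c3g.enc h1)) (enc_case (enc_sub (enc_rat _ 154764337 1000000000) (c3g.enc h1)) (enc_add (enc_add (enc_sub (enc_rat _ 12400398984182169 12931123000000000) (enc_scaleT 1644137 12931123 (c3g.enc h1))) (enc_mul (enc_norm (bx3q3_3.enc h1 h2)) (enc_norm (enc_sub (enc_rat _ 120966690521436653 16163903750000000) (enc_scaleT 1566361076 64655615 (c3g.enc h1)))))) (enc_mul (bx3q3_42.enc h1 h2) (enc_norm (enc_sub (enc_rat _ 639011268733747 64655615000000) (enc_scaleT 825786200 12931123 (c3g.enc h1)))))) (enc_add (enc_add (enc_scaleT 6585000 24728269 (c3g.enc h1)) (enc_rat _ 888305813887 989130760000)) (enc_mul (enc_norm (bx3q3_3.enc h1 h2)) (enc_norm (enc_subr 679622846453 494565380000 (enc_scaleT 816250000 24728269 (c3g.enc h1)))))))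 (enc_case (enc_sub (enc_rat _ 54765409 1000000000) (c3g.enc h1)) (enc_add (enc_add (enc_scaleT 1173000 5054239 (c3g.enc h1)) (enc_rat _ 4557255232063 5054239000000)) (enc_mul (enc_norm (bx3q3_3.enc h1 h2)) (enc_norm (enc_subr 139363257377 101084780000 (enc_scaleT 167050000 5054239 (c3g.enc h1)))))) (enc_add (enc_add (enc_scaleT 17160000 54765409 (c3g.enc h1)) (enc_rat _ 44861 50000)) (enc_mul (enc_norm (bx3q3_3.enc h1 h2)) (enc_norm (enc_sub (enc_rat _ 26767 10000) (enc_scaleT 2245300000 54765409 (c3g.enc h1))))))))))⟩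
noncomputable def bx2q3_3 : Fn2 := ⟨_, _, fun h1 h2 => (enc_subr 9743 10000 h2)⟩
noncomputable def bx2q3 : Fn2 := ⟨_, _, fun h1 h2 => (enc_norm (enc_case (enc_subr 987 500 h1) (enc_case (enc_subr 39 20 h1) (enc_case (enc_subr 193 100 h1) (enc_add (enc_subr 3383113 2150000 (enc_scaleT 6836 5375 h1)) (enc_mul (enc_norm (bx2q3_3.enc h1 h2)) (enc_norm (enc_subr 340851 430000 (enc_scaleT 3417 4300 h1))))) (enc_add (enc_subr 15739 10000 (enc_scaleT 159 125 h1)) (enc_mul (enc_norm (bx2q3_3.enc h1 h2)) (enc_norm (enc_subr 16253 20000 (enc_scaleT 161 200 h1)))))) (enc_case (enc_subr 49221 25000 h1) (enc_add (enc_subr 494059 314000 (enc_scaleT 599 471 h1)) (enc_mul (enc_norm (bx2q3_3.enc h1 h2)) (enc_norm (enc_subr 1313853 1570000 (enc_scaleT 385 471 h1))))) (enc_add (enc_subr 3381007 2150000 (enc_scaleT 164 129 h1)) (enc_mul (enc_norm (bx2q3_3.enc h1 h2)) (enc_norm (enc_subr 356919 430000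 (enc_scaleT 35 43 h1))))))) (enc_case (enc_sub (enc_rat _ 154764337 1000000000) (c3g.enc h1)) (enc_case (enc_subr 4063 2048 h1) (enc_add (enc_subr 198776151 126550000 (enc_scaleT 80384 63275 h1)) (enc_mul (enc_norm (bx2q3_3.enc h1 h2)) (enc_norm (enc_subr 21779931 25310000 (enc_scaleT 10496 12655 h1))))) (enc_add (enc_add (enc_scaleT 2350000 12931123 (c3g.enc h1)) (enc_rat _ 588174944557 646556150000)) (enc_mul (enc_norm (bx2q3_3.enc h1 h2)) (enc_norm (enc_subr 185504912789 129311230000 (enc_scaleT 130800000 12931123 (c3g.enc h1))))))) (enc_case (enc_sub (enc_rat _ 105307799 1000000000) (c3g.enc h1)) (enc_add (enc_add (enc_scaleT 4470000 24728269 (c3g.enc h1)) (enc_rat _ 562477898247 618206725000)) (enc_mul (enc_norm (bx2q3_3.enc h1 h2)) (enc_norm (enc_subr 142776154241 98913076000 (enc_scaleT 251550000 24728269 (c3g.enc h1)))))) (enc_case (enc_sub (enc_rat _ 54765409 1000000000)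 (c3g.enc h1)) (enc_add (enc_add (enc_scaleT 244000 5054239 (c3g.enc h1)) (enc_rat _ 2334568480877 2527119500000)) (enc_mul (enc_norm (bx2q3_3.enc h1 h2)) (enc_norm (enc_subr 728663707847 505423900000 (enc_scaleT 51330000 5054239 (c3g.enc h1)))))) (enc_add (enc_add (enc_scaleT 2650000 54765409 (c3g.enc h1)) (enc_rat _ 4619 5000)) (enc_mul (enc_norm (bx2q3_3.enc h1 h2)) (enc_norm (enc_subr 2883 2000 (enc_scaleT 556000000 54765409 (c3g.enc h1)))))))))))⟩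
noncomputable def bx1q3_3 : Fn2 := ⟨_, _, fun h1 h2 => (enc_subr 9743 10000 h2)⟩
noncomputable def bx1q3 : Fn2 := ⟨_, _, fun h1 h2 => (enc_norm (enc_case (enc_subr 987 500 h1) (enc_case (enc_subr 39 20 h1) (enc_case (enc_subr 193 100 h1) (enc_add (enc_subr 3884593 2150000 (enc_scaleT 28649 21500 h1)) (enc_mul (enc_norm (bx1q3_3.enc h1 h2)) (enc_norm (enc_sub (enc_rat _ 44413 430000) (enc_scaleT 49 2150 h1))))) (enc_add (enc_subr 361353 200000 (enc_scaleT 533 400 h1)) (enc_mul (enc_norm (bx1q3_3.enc h1 h2)) (enc_norm (enc_sub (enc_rat _ 979 10000) (enc_scaleT 1 50 h1)))))) (enc_case (enc_subr 49221 25000 h1) (enc_add (enc_subr 28375473 15700000 (enc_scaleT 837 628 h1)) (enc_mul (enc_norm (bx1q3_3.enc h1 h2)) (enc_norm (enc_sub (enc_rat _ 157473 1570000) (enc_scaleT 10 471 h1))))) (enc_add (enc_subr 7759713 4300000 (enc_scaleT 229 172 h1)) (enc_mul (enc_norm (bx1q3_3.enc h1 h2))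 (enc_norm (enc_sub (enc_rat _ 20781 215000) (enc_scaleT 5 258 h1))))))) (enc_case (enc_sub (enc_rat _ 154764337 1000000000) (c3g.enc h1)) (enc_case (enc_subr 4063 2048 h1) (enc_add (enc_subr 457592763 253100000 (enc_scaleT 84352 63275 h1)) (enc_mul (enc_norm (bx1q3_3.enc h1 h2)) (enc_norm (enc_sub (enc_rat _ 311099 3163750) (enc_scaleT 256 12655 h1))))) (enc_add (enc_sub (enc_rat _ 5992528448963 6465561500000) (enc_scaleT 5308000 12931123 (c3g.enc h1))) (enc_mul (enc_norm (bx1q3_3.enc h1 h2)) (enc_norm (enc_subr 7954450179 323278075000 (enc_scaleT 4880000 12931123 (c3g.enc h1))))))) (enc_case (enc_sub (enc_rat _ 105307799 1000000000) (c3g.enc h1)) (enc_add (enc_sub (enc_rat _ 1145950996547 1236413450000) (enc_scaleT 10150000 24728269 (c3g.enc h1))) (enc_mul (enc_norm (bx1q3_3.enc h1 h2)) (enc_norm (enc_subr 488984847 19782615200 (enc_scaleT 9350000 24728269 (c3g.enc h1))))))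 (enc_case (enc_sub (enc_rat _ 54765409 1000000000) (c3g.enc h1)) (enc_add (enc_sub (enc_rat _ 1171096124479 1263559750000) (enc_scaleT 2074000 5054239 (c3g.enc h1))) (enc_mul (enc_norm (bx1q3_3.enc h1 h2)) (enc_norm (enc_subr 12481888719 505423900000 (enc_scaleT 1910000 5054239 (c3g.enc h1)))))) (enc_add (enc_sub (enc_rat _ 92683 100000) (enc_scaleT 22480000 54765409 (c3g.enc h1))) (enc_mul (enc_norm (bx1q3_3.enc h1 h2)) (enc_norm (enc_subr 123 5000 (enc_scaleT 200000 531703 (c3g.enc h1)))))))))))⟩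
noncomputable def rxq3_47 : Fn3 := ⟨_, _, fun h1 h2 h3 => (enc_add (enc_mul h1 (bx3q3.enc h2 h3)) (enc_mul (enc_norm (enc_mul (enc_norm (enc_sub (enc_pnc _ 1) (lm2r.enc h1 h2))) (cv2r.enc h2))) (enc_norm (enc_sub (bx2q3.enc h2 h3) (bx3q3.enc h2 h3)))))⟩
noncomputable def rxq3_48 : Fn3 := ⟨_, _, fun h1 h2 h3 => (enc_subn 1 h2)⟩
noncomputable def rxq3_60 : Fn3 := ⟨_, _, fun h1 h2 h3 => (enc_sub (qsg.enc (enc_norm (rxq3_48.enc h1 h2 h3))) (enc_mul (enc_norm (enc_nat 2 (enc_sub (rxq3_48.enc h1 h2 h3) h3))) (enc_norm (enc_mul (esg.enc (enc_norm (rxq3_48.enc h1 h2 h3))) (kcg.enc (enc_norm (enc_sub (enc_scaleT 3 4 (rxq3_48.enc h1 h2 h3)) (enc_half (gsg.enc (enc_norm (rxq3_48.enc h1 h2 h3)))))) h3)))))⟩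
noncomputable def rxq3_65 : Fn3 := ⟨_, _, fun h1 h2 h3 => (enc_subr 1 2 (swg.enc h2))⟩
noncomputable def rxq3_66 : Fn3 := ⟨_, _, fun h1 h2 h3 => (enc_sub h1 (cv2r.enc h2))⟩
noncomputable def rxq3 : Fn3 := ⟨_, _, fun h1 h2 h3 => (enc_case (enc_sub h1 (cv1r.enc h2)) (enc_mul h1 (bx1q3.enc h2 h3)) (enc_case (rxq3_66.enc h1 h2 h3) (enc_add (enc_mul h1 (bx2q3.enc h2 h3)) (enc_mul (enc_norm (enc_mul (enc_norm (enc_sub (enc_pnc _ 1) (lm1r.enc h1 h2))) (cv1r.enc h2))) (enc_norm (enc_sub (bx1q3.enc h2 h3) (bx2q3.enc h2 h3))))) (enc_case (enc_sub h1 (cv3r.enc h2)) (enc_case (enc_subr 49221 25000 h2) (rxq3_47.enc h1 h2 h3) (enc_case (enc_subr 4063 2048 h2) (enc_wL (enc_add (l2q3.enc h2 h3) (enc_mul (enc_norm (enc_mul (enc_norm (rxq3_66.enc h1 h2 h3)) (enc_inv (enc_sub (rxq3_65.enc h1 h2 h3) (cv2r.enc h2))))) (enc_norm (enc_sub (rxq3_60.enc h1 h2 h3) (l2q3.enc h2 h3))))) h1 (rxq3_65.enc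 h1 h2 h3) (cv2r.enc h2) (rxq3_60.enc h1 h2 h3) (l2q3.enc h2 h3) rfl) (rxq3_47.enc h1 h2 h3))) (enc_case (enc_sub h1 (cv4r.enc h2)) (enc_add (enc_mul h1 (bx4q3.enc h2 h3)) (enc_mul (enc_norm (enc_sub (enc_pnc _ 1) (lm3r.enc h1 h2))) (enc_norm (enc_sub (l3q3.enc h2 h3) (enc_mul (cv3r.enc h2) (bx4q3.enc h2 h3)))))) (enc_case (enc_sub h1 (cv5r.enc h2)) (enc_add (enc_mul h1 (bx5q3.enc h2 h3)) (enc_mul (enc_norm (enc_mul (enc_norm (enc_sub (enc_pnc _ 1) (lm4r.enc h1 h2))) (cv4r.enc h2))) (enc_norm (enc_sub (bx4q3.enc h2 h3) (bx5q3.enc h2 h3))))) (enc_add (l5q3.enc h2 h3) (enc_mul (lm5r.enc h1 h2) (enc_norm (enc_sub (l6q3.enc h2 h3) (l5q3.enc h2 h3))))))))))⟩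
noncomputable def rlq3 : Fn3 := ⟨_, _, fun h1 h2 h3 => (enc_case h1 (enc_neg (rxq3.enc (enc_neg h1) h2 h3)) (rxq3.enc h1 h2 h3))⟩
noncomputable def bd3q0_3 : Fn2 := ⟨_, _, fun h1 h2 => (enc_subr 9743 10000 h2)⟩
noncomputable def bd3q0 : Fn2 := ⟨_, _, fun h1 h2 => (enc_norm (enc_case (enc_subr 302549 12800000 h1) (enc_case (enc_subr 1 100 h1) (enc_add (enc_subr 399 1250 (enc_neg (enc_scaleT 10449 100 h1))) (enc_mul (enc_norm (bd3q0_3.enc h1 h2)) (enc_norm (enc_subr 891 200 (enc_neg (enc_scaleT 15671 10 h1)))))) (enc_add (enc_subr 15601037713 48906250000 (enc_neg (enc_scaleT 12777994478 122265625 h1))) (enc_mul (enc_norm (bd3q0_3.enc h1 h2)) (enc_norm (enc_subr 2177118479 489062500 (enc_neg (enc_scaleT 7665753396 4890625 h1))))))) (enc_add (enc_subr 820347809 937680000 (enc_scaleT 410112809 468840000 h1)) (enc_mul (enc_norm (bd3q0_3.enc h1 h2)) (enc_norm (enc_sub (enc_rat _ 17376091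 117210000) (enc_scaleT 11046751 58605000 h1)))))))⟩
noncomputable def rcq0_47 : Fn3 := ⟨_, _, fun h1 h2 h3 => (enc_add (enc_mul h1 (bd3q0.enc h2 h3)) (enc_mul (enc_norm (enc_mul (enc_norm (enc_sub (enc_pnc _ 1) (lm2m.enc h1 h2))) (cv2m.enc h2))) (enc_norm (enc_sub (bd2q0.enc h2 h3) (bd3q0.enc h2 h3)))))⟩
noncomputable def rcq0_49 : Fn3 := ⟨_, _, fun h1 h2 h3 => (enc_sub (enc_pnc _ 1) h2)⟩
noncomputable def rcq0_50 : Fn3 := ⟨_, _, fun h1 h2 h3 => (gsg.enc (enc_norm (rcq0_49.enc h1 h2 h3)))⟩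
noncomputable def rcq0_54 : Fn3 := ⟨_, _, fun h1 h2 h3 => (esg.enc (enc_norm (rcq0_49.enc h1 h2 h3)))⟩
noncomputable def rcq0_58 : Fn3 := ⟨_, _, fun h1 h2 h3 => (gug.enc (enc_norm (rcq0_49.enc h1 h2 h3)))⟩
noncomputable def rcq0_60 : Fn3 := ⟨_, _, fun h1 h2 h3 => (enc_mul (enc_norm (rcq0_49.enc h1 h2 h3)) (enc_inv (rcq0_50.enc h1 h2 h3)))⟩
noncomputable def rcq0_61 : Fn3 := ⟨_, _, fun h1 h2 h3 => (enc_scaleT 3 4 (rcq0_60.enc h1 h2 h3))⟩
noncomputable def rcq0_88 : Fn3 := ⟨_, _, fun h1 h2 h3 => (enc_add (enc_sub (enc_neg (enc_add (enc_add (enc_rat _ 3 4) (enc_scaleT 3 2 (rcq0_49.enc h1 h2 h3))) (enc_scaleT 3 4 (enc_mul (enc_norm (rcq0_60.enc h1 h2 h3)) (rcq0_58.enc h1 h2 h3))))) (enc_wT (enc_mul (enc_norm (enc_sub (enc_mul (enc_norm (enc_mul (enc_norm (rcq0_61.enc h1 h2 h3)) (enc_norm (enc_subn 3 (enc_nat 4 (rcq0_50.enc h1 h2 h3)))))) (rcq0_54.enc h1 h2 h3)) (enc_mul (qsg.enc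 (enc_norm (rcq0_49.enc h1 h2 h3))) (enc_norm (enc_sub (enc_rat _ 1 2) (rcq0_61.enc h1 h2 h3)))))) (enc_inv (enc_mul (enc_nat 2 (rcq0_54.enc h1 h2 h3)) (rcq0_54.enc h1 h2 h3)))) (rcq0_49.enc h1 h2 h3) (rcq0_50.enc h1 h2 h3) (rcq0_54.enc h1 h2 h3) rfl rfl rfl rfl)) (enc_mul (kcg.enc (enc_norm (enc_sub (enc_scaleT 3 4 (rcq0_49.enc h1 h2 h3)) (enc_half (rcq0_50.enc h1 h2 h3)))) h3) (enc_norm (enc_add (enc_pnc _ 1) (enc_add (rcq0_58.enc h1 h2 h3) (enc_nat 2 (rcq0_50.enc h1 h2 h3)))))))⟩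
noncomputable def rcq0_91 : Fn3 := ⟨_, _, fun h1 h2 h3 => (enc_add (swg.enc h2) (enc_rat _ 1 2))⟩
noncomputable def rcq0_92 : Fn3 := ⟨_, _, fun h1 h2 h3 => (enc_sub h1 (cv2m.enc h2))⟩
noncomputable def rcq0 : Fn3 := ⟨_, _, fun h1 h2 h3 => (enc_case (enc_sub h1 (cv1m.enc h2)) (enc_add (enc_mul h1 (bd1q0.enc h2 h3)) (enc_mul (enc_norm (enc_sub (enc_pnc _ 1) (lm0m.enc h1 h2))) (enc_norm (enc_sub (kc0q0.enc h2 h3) (enc_mul (c1g.enc h2) (bd1q0.enc h2 h3)))))) (enc_case (rcq0_92.enc h1 h2 h3) (enc_add (enc_mul h1 (bd2q0.enc h2 h3)) (enc_mul (enc_norm (enc_mul (enc_norm (enc_sub (enc_pnc _ 1) (lm1m.enc h1 h2))) (cv1m.enc h2))) (enc_norm (enc_sub (bd1q0.enc h2 h3) (bd2q0.enc h2 h3))))) (enc_case (enc_sub h1 (cv3m.enc h2)) (enc_case (enc_subr 33 2048 h2) (rcq0_47.enc h1 h2 h3) (enc_case (enc_subr 779 25000 h2) (enc_wL (enc_add (kc2q0.enc h2 h3) (enc_mul (enc_norm (enc_mul (enc_norm (rcq0_92.enc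 h1 h2 h3)) (enc_inv (enc_sub (rcq0_91.enc h1 h2 h3) (cv2m.enc h2))))) (enc_norm (enc_sub (rcq0_88.enc h1 h2 h3) (kc2q0.enc h2 h3))))) h1 (rcq0_91.enc h1 h2 h3) (cv2m.enc h2) (rcq0_88.enc h1 h2 h3) (kc2q0.enc h2 h3) rfl) (rcq0_47.enc h1 h2 h3))) (enc_case (enc_sub h1 (cv4m.enc h2)) (enc_add (enc_mul h1 (bd4q0.enc h2 h3)) (enc_mul (enc_norm (enc_sub (enc_pnc _ 1) (lm3m.enc h1 h2))) (enc_norm (enc_sub (kc3q0.enc h2 h3) (enc_mul (cv3m.enc h2) (bd4q0.enc h2 h3)))))) (enc_case (enc_sub h1 (cv5m.enc h2)) (enc_add (enc_mul h1 (bd5q0.enc h2 h3)) (enc_mul (enc_norm (enc_mul (enc_norm (enc_sub (enc_pnc _ 1) (lm4m.enc h1 h2))) (cv4m.enc h2))) (enc_norm (enc_sub (bd4q0.enc h2 h3) (bd5q0.enc h2 h3))))) (enc_add (kc5q0.enc h2 h3) (enc_mul (lm5m.enc h1 h2) (enc_norm (enc_sub (kc6q0.enc h2 h3) (kc5q0.enc h2 h3))))))))))⟩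
noncomputable def pd0 : Fn3 := ⟨_, _, fun h1 h2 h3 => (enc_case h1 (enc_neg (rcq0.enc (enc_neg h1) h2 h3)) (rcq0.enc h1 h2 h3))⟩
noncomputable def rcq1 : Fn3 := ⟨_, _, fun h1 h2 h3 => (enc_case (enc_sub h1 (cv1m.enc h2)) (enc_add (enc_mul h1 (bd1q1.enc h2 h3)) (enc_mul (enc_norm (enc_sub (enc_pnc _ 1) (lm0m.enc h1 h2))) (enc_norm (enc_sub (kc0q1.enc h2 h3) (enc_mul (c1g.enc h2) (bd1q1.enc h2 h3)))))) (enc_case (enc_sub h1 (cv2m.enc h2)) (enc_add (enc_mul h1 (bd2q1.enc h2 h3)) (enc_mul (enc_norm (enc_mul (enc_norm (enc_sub (enc_pnc _ 1) (lm1m.enc h1 h2))) (cv1m.enc h2))) (enc_norm (enc_sub (bd1q1.enc h2 h3) (bd2q1.enc h2 h3))))) (enc_case (enc_sub h1 (cv3m.enc h2)) (enc_add (enc_mul h1 (bd3q1.enc h2 h3)) (enc_mul (enc_norm (enc_mul (enc_norm (enc_sub (enc_pnc _ 1) (lm2m.enc h1 h2))) (cv2m.enc h2))) (enc_norm (enc_sub (bd2q1.enc h2 h3) (bd3q1.enc h2 h3))))) (enc_case (enc_sub h1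 (cv4m.enc h2)) (enc_add (enc_mul h1 (bd4q1.enc h2 h3)) (enc_mul (enc_norm (enc_mul (enc_norm (enc_sub (enc_pnc _ 1) (lm3m.enc h1 h2))) (cv3m.enc h2))) (enc_norm (enc_sub (bd3q1.enc h2 h3) (bd4q1.enc h2 h3))))) (enc_case (enc_sub h1 (cv5m.enc h2)) (enc_add (enc_mul h1 (bd5q1.enc h2 h3)) (enc_mul (enc_norm (enc_mul (enc_norm (enc_sub (enc_pnc _ 1) (lm4m.enc h1 h2))) (cv4m.enc h2))) (enc_norm (enc_sub (bd4q1.enc h2 h3) (bd5q1.enc h2 h3))))) (enc_add (kc5q1.enc h2 h3) (enc_mul (lm5m.enc h1 h2) (enc_norm (enc_sub (kc6q1.enc h2 h3) (kc5q1.enc h2 h3))))))))))⟩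
noncomputable def pd1 : Fn3 := ⟨_, _, fun h1 h2 h3 => (enc_case h1 (enc_neg (rcq1.enc (enc_neg h1) h2 h3)) (rcq1.enc h1 h2 h3))⟩
noncomputable def kc0q2_3 : Fn2 := ⟨_, _, fun h1 h2 => (enc_subr 9743 10000 h2)⟩
noncomputable def kc0q2_19 : Fn2 := ⟨_, _, fun h1 h2 => (enc_scaleT 34411 2000 (c1g.enc h1))⟩
noncomputable def kc0q2 : Fn2 := ⟨_, _, fun h1 h2 => (enc_norm (enc_case (enc_subr 1 10 (c1g.enc h1)) (enc_neg (enc_mul (enc_norm (kc0q2_3.enc h1 h2)) (enc_scaleT 1 50 (c1g.enc h1)))) (enc_case (enc_subr 3 10 (c1g.enc h1)) (enc_add (enc_sub (enc_rat _ 34411 20000) (kc0q2_19.enc h1 h2)) (enc_mul (enc_norm (kc0q2_3.enc h1 h2)) (enc_norm (enc_sub (enc_rat _ 49 2000) (enc_scaleT 53 200 (c1g.enc h1)))))) (enc_add (enc_subr 34411 4000 (kc0q2_19.enc h1 h2)) (enc_mul (enc_norm (kc0q2_3.enc h1 h2)) (enc_norm (enc_subr 11 80 (enc_scaleT 11 40 (c1g.enc h1)))))))))⟩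
noncomputable def n0d : Fn2 := ⟨_, _, fun h1 h2 => (enc_norm (enc_neg (enc_scaleT 1 50 (enc_subr 9743 10000 h2))))⟩
noncomputable def rcq2_62 : Fn3 := ⟨_, _, fun h1 h2 h3 => (enc_mul h1 (bd1q2.enc h2 h3))⟩
noncomputable def rcq2_64 : Fn3 := ⟨_, _, fun h1 h2 h3 => (enc_sub (enc_pnc _ 1) (lm0p.enc h1 h2))⟩
noncomputable def rcq2 : Fn3 := ⟨_, _, fun h1 h2 h3 => (enc_case (enc_sub h1 (cv1p.enc h2)) (enc_case (enc_subr 1149 1000 h2) (enc_add (rcq2_62.enc h1 h2 h3) (enc_mul (enc_norm (rcq2_64.enc h1 h2 h3)) (enc_norm (enc_sub (kc0q2.enc h2 h3) (enc_mul (c1g.enc h2) (bd1q2.enc h2 h3)))))) (enc_case (enc_subr 2887 2500 h2) (enc_add (rcq2_62.enc h1 h2 h3) (enc_mul (enc_norm (rcq2_64.enc h1 h2 h3)) (enc_norm (enc_mul (c1g.enc h2) (enc_norm (enc_sub (n0d.enc h2 h3) (bd1q2.enc h2 h3))))))) (rcq2_62.enc h1 h2 h3))) (enc_case (enc_sub h1 (cv2p.enc h2)) (enc_add (enc_mul h1 (bd2q2.enc h2 h3))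 (enc_mul (enc_norm (enc_mul (enc_norm (enc_sub (enc_pnc _ 1) (lm1p.enc h1 h2))) (cv1p.enc h2))) (enc_norm (enc_sub (bd1q2.enc h2 h3) (bd2q2.enc h2 h3))))) (enc_case (enc_sub h1 (cv3p.enc h2)) (enc_add (enc_mul h1 (bd3q2.enc h2 h3)) (enc_mul (enc_norm (enc_mul (enc_norm (enc_sub (enc_pnc _ 1) (lm2p.enc h1 h2))) (cv2p.enc h2))) (enc_norm (enc_sub (bd2q2.enc h2 h3) (bd3q2.enc h2 h3))))) (enc_case (enc_sub h1 (cv4p.enc h2)) (enc_add (enc_mul h1 (bd4q2.enc h2 h3)) (enc_mul (enc_norm (enc_mul (enc_norm (enc_sub (enc_pnc _ 1) (lm3p.enc h1 h2))) (cv3p.enc h2))) (enc_norm (enc_sub (bd3q2.enc h2 h3) (bd4q2.enc h2 h3))))) (enc_case (enc_sub h1 (cv5p.enc h2)) (enc_add (enc_mul h1 (bd5q2.enc h2 h3)) (enc_mul (enc_norm (enc_mul (enc_norm (enc_sub (enc_pnc _ 1) (lm4p.enc h1 h2))) (cv4p.enc h2))) (enc_norm (enc_sub (bd4q2.enc h2 h3) (bd5q2.enc h2 h3))))) (enc_add (kc5q2.enc h2 h3) (enc_mul (lm5p.enc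 h1 h2) (enc_norm (enc_sub (kc6q2.enc h2 h3) (kc5q2.enc h2 h3))))))))))⟩
noncomputable def pd2 : Fn3 := ⟨_, _, fun h1 h2 h3 => (enc_case h1 (enc_neg (rcq2.enc (enc_neg h1) h2 h3)) (rcq2.enc h1 h2 h3))⟩
noncomputable def kc5q3_4 : Fn2 := ⟨_, _, fun h1 h2 => (enc_subr 9743 10000 h2)⟩
noncomputable def kc5q3_27 : Fn2 := ⟨_, _, fun h1 h2 => (enc_scaleT 1 1000 (kc5q3_4.enc h1 h2))⟩
noncomputable def kc5q3 : Fn2 := ⟨_, _, fun h1 h2 => (enc_norm (enc_mul (cv5r.enc h1) (enc_norm (enc_case (enc_subr 197 100 h1) (enc_case (enc_subr 49221 25000 h1) (enc_add (enc_subr 4650317183 39070000 (enc_scaleT 1611065 23442 h1)) (enc_mul (enc_norm (kc5q3_4.enc h1 h2)) (enc_norm (enc_sub (enc_rat _ 25 7814) (enc_scaleT 25 11721 h1))))) (enc_sub (enc_subr 34506661 290000 (enc_scaleT 3985 58 h1)) (kc5q3_27.enc h1 h2))) (enc_case (enc_subr 4063 2048 h1) (enc_sub (enc_subr 169259453 1422000 (enc_scaleT 1221632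 17775 h1)) (kc5q3_27.enc h1 h2)) (enc_add (enc_add (enc_scaleT 70221218750 2290195749 (c3g.enc h1)) (enc_rat _ 35373 3340)) (enc_mul (enc_norm (kc5q3_4.enc h1 h2)) (enc_norm (enc_sub (enc_rat _ 638 167) (enc_scaleT 39885437500 2290195749 (c3g.enc h1)))))))))))⟩
noncomputable def kc6q3_3 : Fn2 := ⟨_, _, fun h1 h2 => (enc_subr 9743 10000 h2)⟩
noncomputable def kc6q3_9 : Fn2 := ⟨_, _, fun h1 h2 => (enc_sub (enc_half (c3g.enc h1)) (enc_scaleT 1 4 h1))⟩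
noncomputable def kc6q3_26 : Fn2 := ⟨_, _, fun h1 h2 => (enc_neg (enc_scaleT 9399 830 (kc6q3_9.enc h1 h2)))⟩
noncomputable def kc6q3_45 : Fn2 := ⟨_, _, fun h1 h2 => (enc_mul (enc_norm (kc6q3_3.enc h1 h2)) (enc_norm (enc_sub (enc_rat _ 309 500) (enc_scaleT 330 167 (kc6q3_9.enc h1 h2)))))⟩
noncomputable def kc6q3 : Fn2 := ⟨_, _, fun h1 h2 => (enc_norm (enc_case (kc6q3_9.enc h1 h2) (enc_case (enc_add (kc6q3_9.enc h1 h2) (enc_rat _ 333 1000)) (enc_add (enc_add (enc_scaleT 35373 1670 (kc6q3_9.enc h1 h2)) (enc_rat _ 35373 3340)) (enc_mul (enc_norm (kc6q3_3.enc h1 h2)) (enc_norm (enc_add (enc_scaleT 1276 167 (kc6q3_9.enc h1 h2)) (enc_rat _ 638 167))))) (enc_case (enc_add (kc6q3_9.enc h1 h2) (enc_rat _ 167 1000)) (enc_add (enc_subr 48477 207500 (kc6q3_26.enc h1 h2)) (enc_mul (enc_norm (kc6q3_3.enc h1 h2)) (enc_norm (enc_sub (enc_rat _ 6412 10375) (enc_scaleT 164 83 (kc6q3_9.enc h1 h2))))))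 (enc_add (enc_subr 2337 10000 (enc_neg (enc_scaleT 9456 835 (kc6q3_9.enc h1 h2)))) (kc6q3_45.enc h1 h2)))) (enc_case (enc_subr 167 1000 (kc6q3_9.enc h1 h2)) (enc_add (enc_subr 2337 10000 (enc_neg (enc_scaleT 18911 1670 (kc6q3_9.enc h1 h2)))) (kc6q3_45.enc h1 h2)) (enc_case (enc_subr 333 1000 (kc6q3_9.enc h1 h2)) (enc_add (enc_subr 193951 830000 (kc6q3_26.enc h1 h2)) (enc_mul (enc_norm (kc6q3_3.enc h1 h2)) (enc_norm (enc_sub (enc_rat _ 102417 166000) (enc_scaleT 327 166 (kc6q3_9.enc h1 h2)))))) (enc_add (enc_subr 20023 1670 (enc_scaleT 20023 835 (kc6q3_9.enc h1 h2))) (enc_mul (enc_norm (kc6q3_3.enc h1 h2)) (enc_norm (enc_subr 39 334 (enc_scaleT 39 167 (kc6q3_9.enc h1 h2))))))))))⟩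
noncomputable def bd5q3_3 : Fn2 := ⟨_, _, fun h1 h2 => (enc_subr 9743 10000 h2)⟩
noncomputable def bd5q3_26 : Fn2 := ⟨_, _, fun h1 h2 => (enc_scaleT 1 1000 (bd5q3_3.enc h1 h2))⟩
noncomputable def bd5q3 : Fn2 := ⟨_, _, fun h1 h2 => (enc_norm (enc_case (enc_subr 197 100 h1) (enc_case (enc_subr 49221 25000 h1) (enc_add (enc_subr 4650317183 39070000 (enc_scaleT 1611065 23442 h1)) (enc_mul (enc_norm (bd5q3_3.enc h1 h2)) (enc_norm (enc_sub (enc_rat _ 25 7814) (enc_scaleT 25 11721 h1))))) (enc_sub (enc_subr 34506661 290000 (enc_scaleT 3985 58 h1)) (bd5q3_26.enc h1 h2))) (enc_case (enc_subr 4063 2048 h1) (enc_sub (enc_subr 169259453 1422000 (enc_scaleT 1221632 17775 h1)) (bd5q3_26.enc h1 h2)) (enc_add (enc_add (enc_scaleT 70221218750 2290195749 (c3g.enc h1)) (enc_rat _ 35373 3340)) (enc_mul (enc_norm (bd5q3_3.enc h1 h2)) (enc_norm (enc_sub (enc_rat _ 638 167) (enc_scaleT 39885437500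 2290195749 (c3g.enc h1)))))))))⟩
noncomputable def bd4q3_3 : Fn2 := ⟨_, _, fun h1 h2 => (enc_subr 9743 10000 h2)⟩
noncomputable def bd4q3_25 : Fn2 := ⟨_, _, fun h1 h2 => (enc_scaleT 1 125 (bd4q3_3.enc h1 h2))⟩
noncomputable def bd4q3 : Fn2 := ⟨_, _, fun h1 h2 => (enc_norm (enc_case (enc_subr 197 100 h1) (enc_case (enc_subr 49221 25000 h1) (enc_add (enc_subr 562392383 7814000 (enc_scaleT 560560 11721 h1)) (enc_mul (enc_norm (bd4q3_3.enc h1 h2)) (enc_norm (enc_subr 83593 3907000 (enc_scaleT 175 11721 h1))))) (enc_add (enc_subr 5220791 72500 (enc_scaleT 2775 58 h1)) (bd4q3_25.enc h1 h2))) (enc_case (enc_subr 4063 2048 h1) (enc_add (enc_subr 2046749 28440 (enc_scaleT 850048 17775 h1)) (bd4q3_25.enc h1 h2)) (enc_add (enc_add (enc_scaleT 128556406250 2290195749 (c3g.enc h1)) (enc_rat _ 35373 3340)) (enc_mul (enc_norm (bd4q3_3.enc h1 h2)) (enc_norm (enc_sub (enc_rat _ 638 167) (enc_scaleT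 39791500000 2290195749 (c3g.enc h1)))))))))⟩
noncomputable def kc3q3_4 : Fn2 := ⟨_, _, fun h1 h2 => (enc_subr 9743 10000 h2)⟩
noncomputable def kc3q3_27 : Fn2 := ⟨_, _, fun h1 h2 => (enc_subn 1 h1)⟩
noncomputable def kc3q3_28 : Fn2 := ⟨_, _, fun h1 h2 => (gsg.enc (enc_norm (kc3q3_27.enc h1 h2)))⟩
noncomputable def kc3q3_32 : Fn2 := ⟨_, _, fun h1 h2 => (esg.enc (enc_norm (kc3q3_27.enc h1 h2)))⟩
noncomputable def kc3q3_37 : Fn2 := ⟨_, _, fun h1 h2 => (gug.enc (enc_norm (kc3q3_27.enc h1 h2)))⟩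
noncomputable def kc3q3_39 : Fn2 := ⟨_, _, fun h1 h2 => (enc_mul (enc_norm (kc3q3_27.enc h1 h2)) (enc_inv (kc3q3_28.enc h1 h2)))⟩
noncomputable def kc3q3_40 : Fn2 := ⟨_, _, fun h1 h2 => (enc_scaleT 3 4 (kc3q3_39.enc h1 h2))⟩
noncomputable def kc3q3_71 : Fn2 := ⟨_, _, fun h1 h2 => (enc_subr 49221 25000 h1)⟩
noncomputable def kc3q3_94 : Fn2 := ⟨_, _, fun h1 h2 => (enc_subr 4063 2048 h1)⟩
noncomputable def kc3q3_116 : Fn2 := ⟨_, _, fun h1 h2 => (enc_mul (cv2r.enc h1) (enc_norm (enc_case (enc_subr 197 100 h1) (enc_case (kc3q3_71.enc h1 h2) (enc_add (enc_subr 2034530503 39070000 (enc_scaleT 610360 11721 h1)) (enc_mul (enc_norm (kc3q3_4.enc h1 h2)) (enc_norm (enc_subr 1917893 1953500 (enc_scaleT 9250 11721 h1))))) (enc_add (enc_subr 15098549 290000 (enc_scaleT 1510 29 h1)) (enc_mul (enc_norm (kc3q3_4.enc h1 h2)) (enc_norm (enc_subr 32633 29000 (enc_scaleT 25 29 h1)))))) (enc_case (kc3q3_94.enc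 h1 h2) (enc_add (enc_subr 14808319 284400 (enc_scaleT 925568 17775 h1)) (enc_mul (enc_norm (kc3q3_4.enc h1 h2)) (enc_norm (enc_subr 702101 711000 (enc_scaleT 2816 3555 h1))))) (enc_add (enc_add (enc_scaleT 2895700000 13713747 (c3g.enc h1)) (enc_rat _ 24519 5000)) (enc_mul (enc_norm (kc3q3_4.enc h1 h2)) (enc_norm (enc_subr 43 200 (enc_scaleT 2937500 806691 (c3g.enc h1))))))))))⟩
noncomputable def kc3q3 : Fn2 := ⟨_, _, fun h1 h2 => (enc_norm (enc_case (kc3q3_71.enc h1 h2) (enc_mul (cv3r.enc h1) (enc_norm (enc_add (enc_subr 56794894573 3125600000 (enc_scaleT 74469224893 4688400000 h1)) (enc_mul (enc_norm (kc3q3_4.enc h1 h2)) (enc_norm (enc_sub (enc_rat _ 115256383 312560000) (enc_scaleT 134009983 468840000 h1))))))) (enc_case (kc3q3_94.enc h1 h2) (enc_add (kc3q3_116.enc h1 h2) (enc_mul (enc_norm (enc_mul (enc_norm (enc_sub (enc_add (enc_sub (enc_add (enc_add (enc_rat _ 3 4) (enc_scaleT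 3 2 (kc3q3_27.enc h1 h2))) (enc_scaleT 3 4 (enc_mul (enc_norm (kc3q3_39.enc h1 h2)) (kc3q3_37.enc h1 h2)))) (enc_wT (enc_mul (enc_norm (enc_sub (enc_mul (enc_norm (enc_mul (enc_norm (kc3q3_40.enc h1 h2)) (enc_norm (enc_subn 3 (enc_nat 4 (kc3q3_28.enc h1 h2)))))) (kc3q3_32.enc h1 h2)) (enc_mul (qsg.enc (enc_norm (kc3q3_27.enc h1 h2))) (enc_norm (enc_sub (enc_rat _ 1 2) (kc3q3_40.enc h1 h2)))))) (enc_inv (enc_mul (enc_nat 2 (kc3q3_32.enc h1 h2)) (kc3q3_32.enc h1 h2)))) (kc3q3_27.enc h1 h2) (kc3q3_28.enc h1 h2) (kc3q3_32.enc h1 h2) rfl rfl rfl rfl)) (enc_mul (kcg.enc (enc_norm (enc_sub (enc_scaleT 3 4 (kc3q3_27.enc h1 h2)) (enc_half (kc3q3_28.enc h1 h2)))) h2) (enc_norm (enc_sub (enc_pnc _ 1) (enc_add (kc3q3_37.enc h1 h2) (enc_nat 2 (kc3q3_28.enc h1 h2))))))) (kc3q3_116.enc h1 h2))) (enc_norm (enc_sub (cv3r.enc h1) (cv2r.enc h1))))) (enc_inv (enc_sub (enc_subr 1 2 (swg.enc h1))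 (cv2r.enc h1))))) (enc_mul (cv3r.enc h1) (enc_norm (enc_add (enc_add (enc_scaleT 34039364361413 366431319840 (c3g.enc h1)) (enc_rat _ 35373 3340)) (enc_mul (enc_norm (kc3q3_4.enc h1 h2)) (enc_norm (enc_add (enc_scaleT 32959340000717 36643131984 (c3g.enc h1)) (enc_rat _ 638 167))))))))))⟩
noncomputable def bd3q3_3 : Fn2 := ⟨_, _, fun h1 h2 => (enc_subr 9743 10000 h2)⟩
noncomputable def bd3q3 : Fn2 := ⟨_, _, fun h1 h2 => (enc_norm (enc_case (enc_subr 25297451 12800000 h1) (enc_add (enc_subr 56794894573 3125600000 (enc_scaleT 74469224893 4688400000 h1)) (enc_mul (enc_norm (bd3q3_3.enc h1 h2)) (enc_norm (enc_sub (enc_rat _ 115256383 312560000) (enc_scaleT 134009983 468840000 h1))))) (enc_add (enc_add (enc_scaleT 34039364361413 366431319840 (c3g.enc h1)) (enc_rat _ 35373 3340)) (enc_mul (enc_norm (bd3q3_3.enc h1 h2)) (enc_norm (enc_add (enc_scaleT 32959340000717 36643131984 (c3g.enc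 h1)) (enc_rat _ 638 167)))))))⟩
noncomputable def bd2q3_3 : Fn2 := ⟨_, _, fun h1 h2 => (enc_subr 9743 10000 h2)⟩
noncomputable def bd2q3 : Fn2 := ⟨_, _, fun h1 h2 => (enc_norm (enc_case (enc_subr 197 100 h1) (enc_case (enc_subr 49221 25000 h1) (enc_add (enc_subr 2034530503 39070000 (enc_scaleT 610360 11721 h1)) (enc_mul (enc_norm (bd2q3_3.enc h1 h2)) (enc_norm (enc_subr 1917893 1953500 (enc_scaleT 9250 11721 h1))))) (enc_add (enc_subr 15098549 290000 (enc_scaleT 1510 29 h1)) (enc_mul (enc_norm (bd2q3_3.enc h1 h2)) (enc_norm (enc_subr 32633 29000 (enc_scaleT 25 29 h1)))))) (enc_case (enc_subr 4063 2048 h1) (enc_add (enc_subr 14808319 284400 (enc_scaleT 925568 17775 h1)) (enc_mul (enc_norm (bd2q3_3.enc h1 h2)) (enc_norm (enc_subr 702101 711000 (enc_scaleT 2816 3555 h1))))) (enc_add (enc_add (enc_scaleT 2895700000 13713747 (c3g.enc h1)) (enc_rat _ 24519 5000)) (enc_mul (enc_norm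 (bd2q3_3.enc h1 h2)) (enc_norm (enc_subr 43 200 (enc_scaleT 2937500 806691 (c3g.enc h1)))))))))⟩
noncomputable def bd1q3_3 : Fn2 := ⟨_, _, fun h1 h2 => (enc_subr 9743 10000 h2)⟩
noncomputable def bd1q3 : Fn2 := ⟨_, _, fun h1 h2 => (enc_norm (enc_case (enc_subr 197 100 h1) (enc_case (enc_subr 49221 25000 h1) (enc_subr 1 10000 (enc_mul (enc_norm (bd1q3_3.enc h1 h2)) (enc_norm (enc_subr 23048 488375 (enc_scaleT 275 11721 h1))))) (enc_sub (enc_neg (enc_rat _ 1 10000)) (enc_scaleT 1 1000 (bd1q3_3.enc h1 h2)))) (enc_case (enc_subr 4063 2048 h1) (enc_subr 1 10000 (enc_mul (enc_norm (bd1q3_3.enc h1 h2)) (enc_norm (enc_subr 4063 28440 (enc_scaleT 256 3555 h1))))) (enc_add (enc_sub (enc_rat _ 629217 10000) (enc_scaleT 3932612500 13713747 (c3g.enc h1))) (enc_mul (enc_norm (bd1q3_3.enc h1 h2)) (enc_norm (enc_sub (enc_rat _ 1 1000) (enc_scaleT 62500 13713747 (c3g.enc h1)))))))))⟩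
noncomputable def rcq3_47 : Fn3 := ⟨_, _, fun h1 h2 h3 => (enc_add (enc_mul h1 (bd3q3.enc h2 h3)) (enc_mul (enc_norm (enc_mul (enc_norm (enc_sub (enc_pnc _ 1) (lm2r.enc h1 h2))) (cv2r.enc h2))) (enc_norm (enc_sub (bd2q3.enc h2 h3) (bd3q3.enc h2 h3)))))⟩
noncomputable def rcq3_48 : Fn3 := ⟨_, _, fun h1 h2 h3 => (enc_subn 1 h2)⟩
noncomputable def rcq3_49 : Fn3 := ⟨_, _, fun h1 h2 h3 => (gsg.enc (enc_norm (rcq3_48.enc h1 h2 h3)))⟩
noncomputable def rcq3_53 : Fn3 := ⟨_, _, fun h1 h2 h3 => (esg.enc (enc_norm (rcq3_48.enc h1 h2 h3)))⟩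
noncomputable def rcq3_58 : Fn3 := ⟨_, _, fun h1 h2 h3 => (gug.enc (enc_norm (rcq3_48.enc h1 h2 h3)))⟩
noncomputable def rcq3_60 : Fn3 := ⟨_, _, fun h1 h2 h3 => (enc_mul (enc_norm (rcq3_48.enc h1 h2 h3)) (enc_inv (rcq3_49.enc h1 h2 h3)))⟩
noncomputable def rcq3_61 : Fn3 := ⟨_, _, fun h1 h2 h3 => (enc_scaleT 3 4 (rcq3_60.enc h1 h2 h3))⟩
noncomputable def rcq3_87 : Fn3 := ⟨_, _, fun h1 h2 h3 => (enc_add (enc_sub (enc_add (enc_add (enc_rat _ 3 4) (enc_scaleT 3 2 (rcq3_48.enc h1 h2 h3))) (enc_scaleT 3 4 (enc_mul (enc_norm (rcq3_60.enc h1 h2 h3)) (rcq3_58.enc h1 h2 h3)))) (enc_wT (enc_mul (enc_norm (enc_sub (enc_mul (enc_norm (enc_mul (enc_norm (rcq3_61.enc h1 h2 h3)) (enc_norm (enc_subn 3 (enc_nat 4 (rcq3_49.enc h1 h2 h3)))))) (rcq3_53.enc h1 h2 h3)) (enc_mul (qsg.enc (enc_norm (rcq3_48.enc h1 h2 h3))) (enc_norm (enc_sub (enc_rat _ 1 2) (rcq3_61.enc h1 h2 h3)))))) (enc_inv (enc_mul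 (enc_nat 2 (rcq3_53.enc h1 h2 h3)) (rcq3_53.enc h1 h2 h3)))) (rcq3_48.enc h1 h2 h3) (rcq3_49.enc h1 h2 h3) (rcq3_53.enc h1 h2 h3) rfl rfl rfl rfl)) (enc_mul (kcg.enc (enc_norm (enc_sub (enc_scaleT 3 4 (rcq3_48.enc h1 h2 h3)) (enc_half (rcq3_49.enc h1 h2 h3)))) h3) (enc_norm (enc_sub (enc_pnc _ 1) (enc_add (rcq3_58.enc h1 h2 h3) (enc_nat 2 (rcq3_49.enc h1 h2 h3)))))))⟩
noncomputable def rcq3_91 : Fn3 := ⟨_, _, fun h1 h2 h3 => (enc_subr 1 2 (swg.enc h2))⟩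
noncomputable def rcq3_92 : Fn3 := ⟨_, _, fun h1 h2 h3 => (enc_sub h1 (cv2r.enc h2))⟩
noncomputable def rcq3 : Fn3 := ⟨_, _, fun h1 h2 h3 => (enc_case (enc_sub h1 (cv1r.enc h2)) (enc_mul h1 (bd1q3.enc h2 h3)) (enc_case (rcq3_92.enc h1 h2 h3) (enc_add (enc_mul h1 (bd2q3.enc h2 h3)) (enc_mul (enc_norm (enc_mul (enc_norm (enc_sub (enc_pnc _ 1) (lm1r.enc h1 h2))) (cv1r.enc h2))) (enc_norm (enc_sub (bd1q3.enc h2 h3) (bd2q3.enc h2 h3))))) (enc_case (enc_sub h1 (cv3r.enc h2)) (enc_case (enc_subr 49221 25000 h2) (rcq3_47.enc h1 h2 h3) (enc_case (enc_subr 4063 2048 h2) (enc_wL (enc_add (kc2q3.enc h2 h3) (enc_mul (enc_norm (enc_mul (enc_norm (rcq3_92.enc h1 h2 h3)) (enc_inv (enc_sub (rcq3_91.enc h1 h2 h3) (cv2r.enc h2))))) (enc_norm (enc_sub (rcq3_87.enc h1 h2 h3) (kc2q3.enc h2 h3))))) h1 (rcq3_91.enc h1 h2 h3) (cv2r.enc h2) (rcq3_87.enc h1 h2 h3) (kc2q3.enc h2 h3) rfl) (rcq3_47.enc h1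 h2 h3))) (enc_case (enc_sub h1 (cv4r.enc h2)) (enc_add (enc_mul h1 (bd4q3.enc h2 h3)) (enc_mul (enc_norm (enc_sub (enc_pnc _ 1) (lm3r.enc h1 h2))) (enc_norm (enc_sub (kc3q3.enc h2 h3) (enc_mul (cv3r.enc h2) (bd4q3.enc h2 h3)))))) (enc_case (enc_sub h1 (cv5r.enc h2)) (enc_add (enc_mul h1 (bd5q3.enc h2 h3)) (enc_mul (enc_norm (enc_mul (enc_norm (enc_sub (enc_pnc _ 1) (lm4r.enc h1 h2))) (cv4r.enc h2))) (enc_norm (enc_sub (bd4q3.enc h2 h3) (bd5q3.enc h2 h3))))) (enc_add (kc5q3.enc h2 h3) (enc_mul (lm5r.enc h1 h2) (enc_norm (enc_sub (kc6q3.enc h2 h3) (kc5q3.enc h2 h3))))))))))⟩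
noncomputable def pd3 : Fn3 := ⟨_, _, fun h1 h2 h3 => (enc_case h1 (enc_neg (rcq3.enc (enc_neg h1) h2 h3)) (rcq3.enc h1 h2 h3))⟩
noncomputable def mug3 : Fn1 := ⟨_, _, fun h1 => (enc_inv (enc_add (enc_nat 2 (gsg.enc h1)) (enc_pnc _ 3)))⟩
noncomputable def eng : Fn1 := ⟨_, _, fun h1 => (enc_norm (enc_add (enc_pnc _ 1) (enc_mul (mug3.enc h1) (gug.enc h1))))⟩
noncomputable def mog : Fn1 := ⟨_, _, fun h1 => (enc_norm (enc_scaleT 1 20 (enc_mul (mug3.enc h1) (esg.enc h1))))⟩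
noncomputable def kf1q2 : Fn2 := ⟨_, _, fun h1 h2 => (enc_norm (enc_mul (cv1p.enc h1) (bf1q2.enc h1 h2)))⟩
noncomputable def l1q2 : Fn2 := ⟨_, _, fun h1 h2 => (enc_norm (enc_mul (cv1p.enc h1) (bx1q2.enc h1 h2)))⟩
noncomputable def kc1q2 : Fn2 := ⟨_, _, fun h1 h2 => (enc_norm (enc_mul (cv1p.enc h1) (bd1q2.enc h1 h2)))⟩
noncomputable def kf2q2 : Fn2 := ⟨_, _, fun h1 h2 => (enc_norm (enc_mul (cv2p.enc h1) (bf2q2.enc h1 h2)))⟩
noncomputable def l2q2 : Fn2 := ⟨_, _, fun h1 h2 => (enc_norm (enc_mul (cv2p.enc h1) (bx2q2.enc h1 h2)))⟩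
noncomputable def kc2q2 : Fn2 := ⟨_, _, fun h1 h2 => (enc_norm (enc_mul (cv2p.enc h1) (bd2q2.enc h1 h2)))⟩

noncomputable def ndB0q0 : Node := ⟨idf, c1g, kf0q0, l0q0⟩
noncomputable def cd0q0 : Fn2 := kc0q0
noncomputable def ndB0q1 : Node := ⟨idf, c1g, kf0q1, l0q1⟩
noncomputable def cd0q1 : Fn2 := kc0q1
noncomputable def ndB0q2 : Node := ⟨yag, idf, kfc02, lc02⟩
noncomputable def cd0q2 : Fn2 := kcc02
noncomputable def ndB1q0 : Node := ⟨idf, cv1m, kf1q0, l1q0⟩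
noncomputable def cd1q0 : Fn2 := kc1q0
noncomputable def ndB1q1 : Node := ⟨idf, cv1m, kf1q1, l1q1⟩
noncomputable def cd1q1 : Fn2 := kc1q1
noncomputable def ndB1q2a : Node := ⟨yag, xc12a, kfc12a, lc12a⟩
noncomputable def cd1q2a : Fn2 := kcc12a
noncomputable def ndB1q2b : Node := ⟨idf, xc12b, kfc12b, lc12b⟩
noncomputable def cd1q2b : Fn2 := kcc12b
noncomputable def ndB1q3 : Node := ⟨idf, cv1r, kf1q3, l1q3⟩
noncomputable def cd1q3 : Fn2 := kc1q3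
noncomputable def ndB2q0 : Node := ⟨idf, cv2m, kf2q0, l2q0⟩
noncomputable def cd2q0 : Fn2 := kc2q0
noncomputable def ndB2q1 : Node := ⟨idf, cv2m, kf2q1, l2q1⟩
noncomputable def cd2q1 : Fn2 := kc2q1
noncomputable def ndB2q2a : Node := ⟨yag, xc22a, kfc22a, lc22a⟩
noncomputable def cd2q2a : Fn2 := kcc22a
noncomputable def ndB2q2b : Node := ⟨idf, xc22b, kfc22b, lc22b⟩
noncomputable def cd2q2b : Fn2 := kcc22b
noncomputable def ndB2q3 : Node := ⟨idf, cv2r, kf2q3, l2q3⟩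
noncomputable def cd2q3 : Fn2 := kc2q3
noncomputable def ndB3q0 : Node := ⟨idf, cv3m, kf3q0, l3q0⟩
noncomputable def cd3q0 : Fn2 := kc3q0
noncomputable def ndB3q1 : Node := ⟨idf, cv3m, kf3q1, l3q1⟩
noncomputable def cd3q1 : Fn2 := kc3q1
noncomputable def ndB3q2 : Node := ⟨idf, cv3p, kf3q2, l3q2⟩
noncomputable def cd3q2 : Fn2 := kc3q2
noncomputable def ndB3q3 : Node := ⟨ycg, xc33, kfc33, lc33⟩
noncomputable def cd3q3 : Fn2 := kcc33
noncomputable def ndB4q0 : Node := ⟨idf, cv4m, kf4q0, l4q0⟩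
noncomputable def cd4q0 : Fn2 := kc4q0
noncomputable def ndB4q1 : Node := ⟨idf, cv4m, kf4q1, l4q1⟩
noncomputable def cd4q1 : Fn2 := kc4q1
noncomputable def ndB4q2 : Node := ⟨idf, cv4p, kf4q2, l4q2⟩
noncomputable def cd4q2 : Fn2 := kc4q2
noncomputable def ndB4q3 : Node := ⟨ycg, xc43, kfc43, lc43⟩
noncomputable def cd4q3 : Fn2 := kcc43
noncomputable def ndB5q0 : Node := ⟨idf, cv5m, kf5q0, l5q0⟩
noncomputable def cd5q0 : Fn2 := kc5q0
noncomputable def ndB5q1 : Node := ⟨idf, cv5m, kf5q1, l5q1⟩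
noncomputable def cd5q1 : Fn2 := kc5q1
noncomputable def ndB5q2 : Node := ⟨idf, cv5p, kf5q2, l5q2⟩
noncomputable def cd5q2 : Fn2 := kc5q2
noncomputable def ndB5q3 : Node := ⟨ycg, xc53, kfc53, lc53⟩
noncomputable def cd5q3 : Fn2 := kcc53
noncomputable def ndB6q0 : Node := ⟨idf, c3g, kf6q0, l6q0⟩
noncomputable def cd6q0 : Fn2 := kc6q0
noncomputable def ndB6q1 : Node := ⟨idf, c3g, kf6q1, l6q1⟩
noncomputable def cd6q1 : Fn2 := kc6q1
noncomputable def ndB6q2 : Node := ⟨idf, c3g, kf6q2, l6q2⟩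
noncomputable def cd6q2 : Fn2 := kc6q2
noncomputable def ndB6q3 : Node := ⟨ycg, idf, kfc63, lc63⟩
noncomputable def cd6q3 : Fn2 := kcc63
noncomputable def pcB0 : Piece := ⟨rsbq0, rlq0⟩
noncomputable def pcB1 : Piece := ⟨rsbq1, rlq1⟩
noncomputable def pcB2 : Piece := ⟨rsbq2, rlq2⟩
noncomputable def pcB3 : Piece := ⟨rsbq3, rlq3⟩
noncomputable def ndB1q2 : Node := ⟨idf, cv1p, kf1q2, l1q2⟩
noncomputable def cd1q2 : Fn2 := kc1q2
noncomputable def ndB2q2 : Node := ⟨idf, cv2p, kf2q2, l2q2⟩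
noncomputable def cd2q2 : Fn2 := kc2q2
end Pool.Agent.Strip051.G.I9736_9750.Tab
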