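import Pool.Agent.Strip051.PB.FactE
import Pool.Agent.Strip051.PB.FactM
import Pool.Agent.Strip051.G.I9736_9750.Tab

/-! # Facts about a table (generated) -/

set_option linter.all false

namespace Pool.Agent.Strip051.G.I9736_9750.Tab

open Pool.Agent.Strip051.PB Pool.Agent.StripNear Pool.Agent.Strip051.LC

noncomputable def kf4q3_4 : Fn2 := ⟨_, _, fun h1 h2 => (enc_subr 9743 10000 h2)⟩
noncomputable def kf4q3 : Fn2 := ⟨_, _, fun h1 h2 => (enc_norm (enc_mul (cv4r.enc h1) (enc_norm (enc_case (enc_subr 987 500 h1) (enc_case (enc_subr 39 20 h1) (enc_case (enc_subr 193 100 h1) (enc_add (enc_subr 651773 430000 (enc_scaleT 7587 10750 h1)) (enc_mul (enc_norm (kf4q3_4.enc h1 h2)) (enc_norm (enc_sub (enc_rat _ 8853 17200) (enc_scaleT 1411 4300 h1))))) (enc_add (enc_subr 7581 5000 (enc_scaleT 353 500 h1)) (enc_mul (enc_norm (kf4q3_4.enc h1 h2)) (enc_norm (enc_sub (enc_rat _ 5183 10000) (enc_scaleT 33 100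 h1)))))) (enc_case (enc_subr 49221 25000 h1) (enc_add (enc_subr 29733 19625 (enc_scaleT 443 628 h1)) (enc_mul (enc_norm (kf4q3_4.enc h1 h2)) (enc_norm (enc_sub (enc_rat _ 210859 392500) (enc_scaleT 160 471 h1))))) (enc_add (enc_subr 3265629 2150000 (enc_scaleT 365 516 h1)) (enc_mul (enc_norm (kf4q3_4.enc h1 h2)) (enc_norm (enc_sub (enc_rat _ 222331 430000) (enc_scaleT 85 258 h1))))))) (enc_case (enc_sub (enc_rat _ 154764337 1000000000) (c3g.enc h1)) (enc_case (enc_subr 4063 2048 h1) (enc_add (enc_subr 11976397 7909375 (enc_scaleT 44608 63275 h1)) (enc_mul (enc_norm (kf4q3_4.enc h1 h2)) (enc_norm (enc_sub (enc_rat _ 13302529 25310000) (enc_scaleT 4224 12655 h1))))) (enc_add (enc_sub (enc_rat _ 3232484835591 6465561500000) (enc_scaleT 36276000 12931123 (c3g.enc h1))) (enc_mul (enc_norm (kf4q3_4.enc h1 h2)) (enc_norm (enc_subr 32973781 12931123000 (enc_neg (enc_scaleT 7900000 12931123 (c3g.enc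 h1)))))))) (enc_case (enc_sub (enc_rat _ 105307799 1000000000) (c3g.enc h1)) (enc_add (enc_sub (enc_rat _ 7726796797 15455168125) (enc_scaleT 69370000 24728269 (c3g.enc h1))) (enc_mul (enc_norm (kf4q3_4.enc h1 h2)) (enc_norm (enc_subr 166102819 123641345000 (enc_neg (enc_scaleT 15300000 24728269 (c3g.enc h1))))))) (enc_case (enc_sub (enc_rat _ 54765409 1000000000) (c3g.enc h1)) (enc_add (enc_sub (enc_rat _ 2526902784691 5054239000000) (enc_scaleT 14179000 5054239 (c3g.enc h1))) (enc_mul (enc_norm (kf4q3_4.enc h1 h2)) (enc_norm (enc_subr 228117067 505423900000 (enc_neg (enc_scaleT 3170000 5054239 (c3g.enc h1))))))) (enc_sub (enc_sub (enc_rat _ 1 2) (enc_scaleT 153680000 54765409 (c3g.enc h1))) (enc_mul (enc_norm (kf4q3_4.enc h1 h2)) (enc_scaleT 34800000 54765409 (c3g.enc h1)))))))))))⟩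
noncomputable def l4q3_4 : Fn2 := ⟨_, _, fun h1 h2 => (enc_subr 9743 10000 h2)⟩
noncomputable def l4q3 : Fn2 := ⟨_, _, fun h1 h2 => (enc_norm (enc_mul (cv4r.enc h1) (enc_norm (enc_case (enc_subr 987 500 h1) (enc_case (enc_subr 39 20 h1) (enc_case (enc_subr 193 100 h1) (enc_add (enc_subr 437599 430000 (enc_scaleT 41821 43000 h1)) (enc_mul (enc_norm (l4q3_4.enc h1 h2)) (enc_norm (enc_subr 1093319 430000 (enc_scaleT 5159 2150 h1))))) (enc_add (enc_subr 202731 200000 (enc_scaleT 1941 2000 h1)) (enc_mul (enc_norm (l4q3_4.enc h1 h2)) (enc_norm (enc_subr 51063 20000 (enc_scaleT 481 200 h1)))))) (enc_case (enc_subr 49221 25000 h1) (enc_add (enc_subr 7953763 7850000 (enc_scaleT 457 471 h1)) (enc_mul (enc_norm (l4q3_4.enc h1 h2)) (enc_norm (enc_subr 504911 196250 (enc_scaleT 2275 942 h1))))) (enc_add (enc_subr 4362377 4300000 (enc_scaleT 167 172 h1)) (enc_mul (enc_norm (l4q3_4.enc h1 h2)) (enc_norm (enc_subr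 219233 86000 (enc_scaleT 310 129 h1))))))) (enc_case (enc_sub (enc_rat _ 154764337 1000000000) (c3g.enc h1)) (enc_case (enc_subr 4063 2048 h1) (enc_add (enc_subr 256806199 253100000 (enc_scaleT 12288 12655 h1)) (enc_mul (enc_norm (l4q3_4.enc h1 h2)) (enc_norm (enc_subr 65234421 25310000 (enc_scaleT 30592 12655 h1))))) (enc_add (enc_add (enc_scaleT 66000 12931123 (c3g.enc h1)) (enc_rat _ 5887476216749 6465561500000)) (enc_mul (enc_norm (l4q3_4.enc h1 h2)) (enc_norm (enc_sub (enc_rat _ 215192610041 80819518750) (enc_scaleT 26180000 12931123 (c3g.enc h1))))))) (enc_case (enc_sub (enc_rat _ 105307799 1000000000) (c3g.enc h1)) (enc_add (enc_add (enc_scaleT 125000 24728269 (c3g.enc h1)) (enc_rat _ 4503500851819 4945653800000)) (enc_mul (enc_norm (l4q3_4.enc h1 h2)) (enc_norm (enc_sub (enc_rat _ 1317420605919 494565380000) (enc_scaleT 50250000 24728269 (c3g.enc h1)))))) (enc_case (enc_sub (enc_rat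 _ 54765409 1000000000) (c3g.enc h1)) (enc_add (enc_add (enc_scaleT 549000 5054239 (c3g.enc h1)) (enc_rat _ 4547254798419 5054239000000)) (enc_mul (enc_norm (l4q3_4.enc h1 h2)) (enc_norm (enc_sub (enc_rat _ 675644023173 252711950000) (enc_scaleT 10740000 5054239 (c3g.enc h1)))))) (enc_add (enc_add (enc_scaleT 8420000 54765409 (c3g.enc h1)) (enc_rat _ 44861 50000)) (enc_mul (enc_norm (l4q3_4.enc h1 h2)) (enc_norm (enc_sub (enc_rat _ 26767 10000) (enc_scaleT 119500000 54765409 (c3g.enc h1)))))))))))))⟩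
noncomputable def kc4q3_4 : Fn2 := ⟨_, _, fun h1 h2 => (enc_subr 9743 10000 h2)⟩
noncomputable def kc4q3_26 : Fn2 := ⟨_, _, fun h1 h2 => (enc_scaleT 1 125 (kc4q3_4.enc h1 h2))⟩
noncomputable def kc4q3 : Fn2 := ⟨_, _, fun h1 h2 => (enc_norm (enc_mul (cv4r.enc h1) (enc_norm (enc_case (enc_subr 197 100 h1) (enc_case (enc_subr 49221 25000 h1) (enc_add (enc_subr 562392383 7814000 (enc_scaleT 560560 11721 h1)) (enc_mul (enc_norm (kc4q3_4.enc h1 h2)) (enc_norm (enc_subr 83593 3907000 (enc_scaleT 175 11721 h1))))) (enc_add (enc_subr 5220791 72500 (enc_scaleT 2775 58 h1)) (kc4q3_26.enc h1 h2))) (enc_case (enc_subr 4063 2048 h1) (enc_add (enc_subr 2046749 28440 (enc_scaleT 850048 17775 h1)) (kc4q3_26.enc h1 h2)) (enc_add (enc_add (enc_scaleT 128556406250 2290195749 (c3g.enc h1)) (enc_rat _ 35373 3340)) (enc_mul (enc_norm (kc4q3_4.enc h1 h2)) (enc_norm (enc_sub (enc_rat _ 638 167) (enc_scaleT 39791500000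 2290195749 (c3g.enc h1)))))))))))⟩
theorem c1g_v : c1g.v = c1n := by funext y; simp [c1g, c1n]
theorem c3g_v : c3g.v = c3n := by funext y; simp [c3g, c3n]
theorem swg_v : swg.v = swn := by funext y; simp [swg, swn]
theorem yag_v {y : ℝ} (h0y : 0 ≤ y) (h : h0 * y < 1) : yag.v (c1n y) = y := by
  have := ya_eq h0y h
  simpa [yag] using this
theorem ycg_v {y : ℝ} (h0y : 0 ≤ y) (h : y ≤ 2) : ycg.v (c3n y) = y := by
  have := yc_eq h0y h
  simpa [ycg] using this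
theorem ya1 : yag.v (1/2) = 1 := by
  have := yag_v (y := 1) (by norm_num) (by rw [mul_one]; exact h0_lt_one)
  rwa [c1n_one] at this
theorem yc0 : ycg.v 0 = 2 := by
  have := ycg_v (y := 2) (by norm_num) le_rfl
  rwa [c3n_two] at this
noncomputable def rh : Fin 7 → ℝ := ![0, 1 / 4, 13 / 20, 2071 / 2000, 23 / 20, 17 / 10, 2]
noncomputable def PP : Pos 6 where
  ρ := rh
  zero := by simp [rh]
  last := by simp [rh, Fin.last]
  mono := by
    intro i j h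
    fin_cases i <;> fin_cases j <;> simp_all [rh] <;> norm_num
theorem cv1m_v (y : ℝ) : cv1m.v y = c1n y * (1 - 1 / 4) + (swn y + 1 / 2) * (1 / 4) := by
  simp only [cv1m, c1g_v, c3g_v, swg_v]
  push_cast
  ring
theorem cv2m_v (y : ℝ) : cv2m.v y = c1n y * (1 - 13 / 20) + (swn y + 1 / 2) * (13 / 20) := by
  simp only [cv2m, c1g_v, c3g_v, swg_v]
  push_cast
  ring
theorem cv3m_v (y : ℝ) : cv3m.v y = (swn y + 1 / 2) * (2 - 2071 / 2000) + c3n y * (2071 / 2000 - 1) := by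
  simp only [cv3m, c1g_v, c3g_v, swg_v]
  push_cast
  ring
theorem cv4m_v (y : ℝ) : cv4m.v y = (swn y + 1 / 2) * (2 - 23 / 20) + c3n y * (23 / 20 - 1) := by
  simp only [cv4m, c1g_v, c3g_v, swg_v]
  push_cast
  ring
theorem cv5m_v (y : ℝ) : cv5m.v y = (swn y + 1 / 2) * (2 - 17 / 10) + c3n y * (17 / 10 - 1) := by
  simp only [cv5m, c1g_v, c3g_v, swg_v]
  push_cast
  ring
theorem cv1p_v (y : ℝ) : cv1p.v y = c1n y * (1 - 1 / 4) + (swn y - 1 / 2) * (1 / 4) := by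
  simp only [cv1p, c1g_v, c3g_v, swg_v]
  push_cast
  ring
theorem cv2p_v (y : ℝ) : cv2p.v y = c1n y * (1 - 13 / 20) + (swn y - 1 / 2) * (13 / 20) := by
  simp only [cv2p, c1g_v, c3g_v, swg_v]
  push_cast
  ring
theorem cv3p_v (y : ℝ) : cv3p.v y = (swn y - 1 / 2) * (2 - 2071 / 2000) + c3n y * (2071 / 2000 - 1) := by
  simp only [cv3p, c1g_v, c3g_v, swg_v]
  push_cast
  ring
theorem cv4p_v (y : ℝ) : cv4p.v y = (swn y - 1 / 2) * (2 - 23 / 20) + c3n y * (23 / 20 - 1) := by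
  simp only [cv4p, c1g_v, c3g_v, swg_v]
  push_cast
  ring
theorem cv5p_v (y : ℝ) : cv5p.v y = (swn y - 1 / 2) * (2 - 17 / 10) + c3n y * (17 / 10 - 1) := by
  simp only [cv5p, c1g_v, c3g_v, swg_v]
  push_cast
  ring
theorem cv1r_v (y : ℝ) : cv1r.v y = (swn y - 1 / 2) * (1 / 4) := by
  simp only [cv1r, c1g_v, c3g_v, swg_v]
  push_cast
  ring
theorem cv2r_v (y : ℝ) : cv2r.v y = (swn y - 1 / 2) * (13 / 20) := by
  simp only [cv2r, c1g_v, c3g_v, swg_v]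
  push_cast
  ring
theorem cv3r_v (y : ℝ) : cv3r.v y = (swn y - 1 / 2) * (2 - 2071 / 2000) + c3n y * (2071 / 2000 - 1) := by
  simp only [cv3r, c1g_v, c3g_v, swg_v]
  push_cast
  ring
theorem cv4r_v (y : ℝ) : cv4r.v y = (swn y - 1 / 2) * (2 - 23 / 20) + c3n y * (23 / 20 - 1) := by
  simp only [cv4r, c1g_v, c3g_v, swg_v]
  push_cast
  ring
theorem cv5r_v (y : ℝ) : cv5r.v y = (swn y - 1 / 2) * (2 - 17 / 10) + c3n y * (17 / 10 - 1) := by
  simp only [cv5r, c1g_v, c3g_v, swg_v]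
  push_cast
  ring
theorem crv0 (q : ℕ) (y : ℝ) : crv PP 0 q y = c1n y := by simp [crv, gamn, PP, rh]
theorem crv1 (q : ℕ) (y : ℝ) : crv PP 1 q y = c1n y * (1 - 1 / 4) + Wn (decide (2 ≤ q)) y * (1 / 4) := by
  have : PP.ρ 1 = 1 / 4 := rfl
  simp only [crv, gamn, this]
  rw [if_pos (by norm_num)]
  ring
theorem crv2 (q : ℕ) (y : ℝ) : crv PP 2 q y = c1n y * (1 - 13 / 20) + Wn (decide (2 ≤ q)) y * (13 / 20) := by
  have : PP.ρ 2 = 13 / 20 := rfl
  simp only [crv, gamn, this]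
  rw [if_pos (by norm_num)]
  ring
theorem crv3 (q : ℕ) (y : ℝ) : crv PP 3 q y = Wn (decide (2 ≤ q)) y * (2 - 2071 / 2000) + c3n y * (2071 / 2000 - 1) := by
  have : PP.ρ 3 = 2071 / 2000 := rfl
  simp only [crv, gamn, this]
  rw [if_neg (by norm_num)]
  ring
theorem crv4 (q : ℕ) (y : ℝ) : crv PP 4 q y = Wn (decide (2 ≤ q)) y * (2 - 23 / 20) + c3n y * (23 / 20 - 1) := by
  have : PP.ρ 4 = 23 / 20 := rfl
  simp only [crv, gamn, this]
  rw [if_neg (by norm_num)]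
  ring
theorem crv5 (q : ℕ) (y : ℝ) : crv PP 5 q y = Wn (decide (2 ≤ q)) y * (2 - 17 / 10) + c3n y * (17 / 10 - 1) := by
  have : PP.ρ 5 = 17 / 10 := rfl
  simp only [crv, gamn, this]
  rw [if_neg (by norm_num)]
  ring
theorem crv6 (q : ℕ) (y : ℝ) : crv PP 6 q y = c3n y := by
  have : PP.ρ 6 = 2 := rfl
  simp only [crv, gamn, this]
  rw [if_neg (by norm_num)]
  ring
noncomputable def crd (j : Fin 7) (q : ℕ) (y : ℝ) : ℝ :=
  match j, q with
  | 0, 2 => c1n y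
  | 3, 3 => c3n y
  | 4, 3 => c3n y
  | 5, 3 => c3n y
  | 6, 3 => c3n y
  | _, _ => y
theorem onc {j : Fin 7} {q : ℕ} {y : ℝ} (hq : InQ q y) (hj : j ≠ 0) : OnC j q y := ⟨hq, fun h => absurd h hj⟩
theorem c1g_off {y : ℝ} (h : 1 ≤ h0 * y) : c1g.v y = 0 := by rw [c1g_v]; exact c1n_off h
theorem c1g_sq {y : ℝ} (hy : 0 ≤ y) (h : h0 * y < 1) : 0 ≤ c1g.v y ∧ c1g.v y ^ 2 = 1 - 3 / 4 * y ^ 2 := by
  rw [c1g_v]
  exact ⟨Real.sqrt_nonneg _, c1n_sq (on_sq hy h).le⟩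
theorem lm0m_v (X y : ℝ) : lm0m.v X y = lam (X - c1g.v y) (cv1m.v y - c1g.v y) := rfl
theorem lm0p_v (X y : ℝ) : lm0p.v X y = lam (X - c1g.v y) (cv1p.v y - c1g.v y) := rfl
theorem lm1m_v (X y : ℝ) : lm1m.v X y = lam (X - cv1m.v y) (cv2m.v y - cv1m.v y) := rfl
theorem lm1p_v (X y : ℝ) : lm1p.v X y = lam (X - cv1p.v y) (cv2p.v y - cv1p.v y) := rfl
theorem lm1r_v (X y : ℝ) : lm1r.v X y = lam (X - cv1r.v y) (cv2r.v y - cv1r.v y) := rfl
theorem lm2m_v (X y : ℝ) : lm2m.v X y = lam (X - cv2m.v y) (cv3m.v y - cv2m.v y) := rfl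
theorem lm2p_v (X y : ℝ) : lm2p.v X y = lam (X - cv2p.v y) (cv3p.v y - cv2p.v y) := rfl
theorem lm2r_v (X y : ℝ) : lm2r.v X y = lam (X - cv2r.v y) (cv3r.v y - cv2r.v y) := rfl
theorem lm3m_v (X y : ℝ) : lm3m.v X y = lam (X - cv3m.v y) (cv4m.v y - cv3m.v y) := rfl
theorem lm3p_v (X y : ℝ) : lm3p.v X y = lam (X - cv3p.v y) (cv4p.v y - cv3p.v y) := rfl
theorem lm3r_v (X y : ℝ) : lm3r.v X y = lam (X - cv3r.v y) (cv4r.v y - cv3r.v y) := rfl
theorem lm4m_v (X y : ℝ) : lm4m.v X y = lam (X - cv4m.v y) (cv5m.v y - cv4m.v y) := rfl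
theorem lm4p_v (X y : ℝ) : lm4p.v X y = lam (X - cv4p.v y) (cv5p.v y - cv4p.v y) := rfl
theorem lm4r_v (X y : ℝ) : lm4r.v X y = lam (X - cv4r.v y) (cv5r.v y - cv4r.v y) := rfl
theorem lm5m_v (X y : ℝ) : lm5m.v X y = lam (X - cv5m.v y) (c3g.v y - cv5m.v y) := rfl
theorem lm5p_v (X y : ℝ) : lm5p.v X y = lam (X - cv5p.v y) (c3g.v y - cv5p.v y) := rfl
theorem lm5r_v (X y : ℝ) : lm5r.v X y = lam (X - cv5r.v y) (c3g.v y - cv5r.v y) := rfl
theorem ecv1q0 {y : ℝ} : crv PP 1 0 y = cv1m.v y := by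
  rw [crv1, cv1m_v, wn0]
theorem ecv2q0 {y : ℝ} : crv PP 2 0 y = cv2m.v y := by
  rw [crv2, cv2m_v, wn0]
theorem ecv3q0 {y : ℝ} : crv PP 3 0 y = cv3m.v y := by
  rw [crv3, cv3m_v, wn0]
theorem ecv4q0 {y : ℝ} : crv PP 4 0 y = cv4m.v y := by
  rw [crv4, cv4m_v, wn0]
theorem ecv5q0 {y : ℝ} : crv PP 5 0 y = cv5m.v y := by
  rw [crv5, cv5m_v, wn0]
theorem ecv1q1 {y : ℝ} : crv PP 1 1 y = cv1m.v y := by
  rw [crv1, cv1m_v, wn1]
theorem ecv2q1 {y : ℝ} : crv PP 2 1 y = cv2m.v y := by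
  rw [crv2, cv2m_v, wn1]
theorem ecv3q1 {y : ℝ} : crv PP 3 1 y = cv3m.v y := by
  rw [crv3, cv3m_v, wn1]
theorem ecv4q1 {y : ℝ} : crv PP 4 1 y = cv4m.v y := by
  rw [crv4, cv4m_v, wn1]
theorem ecv5q1 {y : ℝ} : crv PP 5 1 y = cv5m.v y := by
  rw [crv5, cv5m_v, wn1]
theorem ecv1q2 {y : ℝ} : crv PP 1 2 y = cv1p.v y := by
  rw [crv1, cv1p_v, wn2]
theorem ecv2q2 {y : ℝ} : crv PP 2 2 y = cv2p.v y := by
  rw [crv2, cv2p_v, wn2]
theorem ecv3q2 {y : ℝ} : crv PP 3 2 y = cv3p.v y := by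
  rw [crv3, cv3p_v, wn2]
theorem ecv4q2 {y : ℝ} : crv PP 4 2 y = cv4p.v y := by
  rw [crv4, cv4p_v, wn2]
theorem ecv5q2 {y : ℝ} : crv PP 5 2 y = cv5p.v y := by
  rw [crv5, cv5p_v, wn2]
theorem ecv1q3 {y : ℝ} (hy : 3 / 2 ≤ y) : crv PP 1 3 y = cv1r.v y := by
  rw [crv1, cv1r_v, wn3, c1n_off (off_y hy)]
  ring
theorem ecv2q3 {y : ℝ} (hy : 3 / 2 ≤ y) : crv PP 2 3 y = cv2r.v y := by
  rw [crv2, cv2r_v, wn3, c1n_off (off_y hy)]
  ring
theorem ecv3q3 {y : ℝ} (hy : 3 / 2 ≤ y) : crv PP 3 3 y = cv3r.v y := by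
  rw [crv3, cv3r_v, wn3]
theorem ecv4q3 {y : ℝ} (hy : 3 / 2 ≤ y) : crv PP 4 3 y = cv4r.v y := by
  rw [crv4, cv4r_v, wn3]
theorem ecv5q3 {y : ℝ} (hy : 3 / 2 ≤ y) : crv PP 5 3 y = cv5r.v y := by
  rw [crv5, cv5r_v, wn3]
theorem kcg_near {p x : ℝ} (h1 : -(1 / 10) < p) (h2 : p < 1 / 10) : kcg.v p x = (14291 / 6250 + (x - 9743 / 10000) * (6591 / 2000)) * p := by
  simp only [kcg, kcg_3, kcg_6, kcg_9, kcg_12, kcg_13, kcg_18, kcg_30, kcg_33, kcg_34, kcg_39, kcg_44, kcg_57, kcg_58, kcg_66, kcg_67, kcg_72, kcg_85, kcg_86, kcg_91, kcg_94, kcg_107, kcg_108, kcg_117, kcg_120, kcg_121, kcg_124, kcg_136, kcg_137, kcg_142, kcg_145, kcg_157, kcg_158, kcg_166, kcg_167, kcg_170, kcg_180, kcg_181, kcg_189, kcg_192, kcg_200, kcg_201, kcg_206, kcg_209, kcg_216, kcg_217, kcg_218, kcg_223, kcg_224, kcg_233, kcg_239, kcg_244, kcg_254, kcg_261, kcg_262, kcg_268, kcg_278, kcg_284, kcg_291, kcg_303]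
  rcases le_or_gt p 0 with hp | hp
  · ((try push_cast); (repeat first | rw [if_pos (by linarith)] | rw [if_neg (by linarith)] | erw [if_pos (by linarith)] | erw [if_neg (by linarith)]); (try ring1))
  · ((try push_cast); (repeat first | rw [if_pos (by linarith)] | rw [if_neg (by linarith)] | erw [if_pos (by linarith)] | erw [if_neg (by linarith)]); (try ring1))
theorem txg_nearL {p c x : ℝ} (h1 : -(1 / 10) < p) (h2 : p ≤ 0) : txg.v p c x = (50927203 / 200000000 + (x - 9743 / 10000) * (1111463 / 800000)) + (2676217 / 20000000 + (x - 9743 / 10000) * (-76813 / 2000000)) * p + (-423 / 400 + (x - 9743 / 10000) * (5629 / 500)) * p ^ 2 := by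
  simp only [txg, txg_4, txg_6, txg_26, txg_29, txg_32, txg_35, txg_38, txg_55, txg_58, txg_59, txg_77, txg_78, txg_86, txg_100, txg_101, txg_121, txg_122, txg_131, txg_134, txg_152, txg_153, txg_172, txg_173, txg_181, txg_196, txg_197, txg_216, txg_217, txg_227, txg_230, txg_233, txg_248, txg_249, txg_268, txg_269, txg_277, txg_292, txg_293, txg_312, txg_313, txg_322, txg_325, txg_337, txg_338, txg_354, txg_355, txg_363, txg_376, txg_377, txg_396, txg_397, txg_406, txg_408, txg_411, txg_413, txg_428, txg_429, txg_448, txg_449, txg_455, txg_470, txg_471, txg_490, txg_491, txg_498, txg_499, txg_512, txg_513, txg_531, txg_532, txg_538, txg_552, txg_553, txg_571, txg_572, txg_580, txg_581, txg_582, txg_598, txg_599, txg_617, txg_618, txg_624, txg_640, txg_641, txg_661, txg_662, txg_669, txg_670, txg_687, txg_688, txg_709, txg_710, txg_716, txg_733, txg_734, txg_753, txg_764, txg_765, txg_776, txg_777,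 txg_800, txg_801, txg_806, txg_821, txg_822, txg_843, txg_844]
  ((try push_cast); (repeat first | rw [if_pos (by linarith)] | rw [if_neg (by linarith)] | erw [if_pos (by linarith)] | erw [if_neg (by linarith)]); (try ring1))
theorem txg_nearR {p c x : ℝ} (h1 : 0 ≤ p) (h2 : p < 1 / 10) : txg.v p c x = (50927203 / 200000000 + (x - 9743 / 10000) * (1111463 / 800000)) + (2676217 / 20000000 + (x - 9743 / 10000) * (-76813 / 2000000)) * p + (-423 / 400 + (x - 9743 / 10000) * (5629 / 500)) * p ^ 2 := by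
  simp only [txg, txg_4, txg_6, txg_26, txg_29, txg_32, txg_35, txg_38, txg_55, txg_58, txg_59, txg_77, txg_78, txg_86, txg_100, txg_101, txg_121, txg_122, txg_131, txg_134, txg_152, txg_153, txg_172, txg_173, txg_181, txg_196, txg_197, txg_216, txg_217, txg_227, txg_230, txg_233, txg_248, txg_249, txg_268, txg_269, txg_277, txg_292, txg_293, txg_312, txg_313, txg_322, txg_325, txg_337, txg_338, txg_354, txg_355, txg_363, txg_376, txg_377, txg_396, txg_397, txg_406, txg_408, txg_411, txg_413, txg_428, txg_429, txg_448, txg_449, txg_455, txg_470, txg_471, txg_490, txg_491, txg_498, txg_499, txg_512, txg_513, txg_531, txg_532, txg_538, txg_552, txg_553, txg_571, txg_572, txg_580, txg_581, txg_582, txg_598, txg_599, txg_617, txg_618, txg_624, txg_640, txg_641, txg_661, txg_662, txg_669, txg_670, txg_687, txg_688, txg_709, txg_710, txg_716, txg_733, txg_734, txg_753, txg_764, txg_765, txg_776, txg_777,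 txg_800, txg_801, txg_806, txg_821, txg_822, txg_843, txg_844]
  ((try push_cast); (repeat first | rw [if_pos (by linarith)] | rw [if_neg (by linarith)] | erw [if_pos (by linarith)] | erw [if_neg (by linarith)]); (try ring1))
noncomputable def ndB (j : Fin 7) (q : ℕ) : Node :=
  match j, q with
  | 0, 0 => ndB0q0
  | 0, 1 => ndB0q1
  | 0, 2 => ndB0q2
  | 1, 0 => ndB1q0
  | 1, 1 => ndB1q1
  | 1, 2 => ndB1q2
  | 1, 3 => ndB1q3
  | 2, 0 => ndB2q0
  | 2, 1 => ndB2q1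
  | 2, 2 => ndB2q2
  | 2, 3 => ndB2q3
  | 3, 0 => ndB3q0
  | 3, 1 => ndB3q1
  | 3, 2 => ndB3q2
  | 3, 3 => ndB3q3
  | 4, 0 => ndB4q0
  | 4, 1 => ndB4q1
  | 4, 2 => ndB4q2
  | 4, 3 => ndB4q3
  | 5, 0 => ndB5q0
  | 5, 1 => ndB5q1
  | 5, 2 => ndB5q2
  | 5, 3 => ndB5q3
  | 6, 0 => ndB6q0
  | 6, 1 => ndB6q1
  | 6, 2 => ndB6q2
  | 6, 3 => ndB6q3
  | _, _ => ndB0q0
noncomputable def nc (j : Fin 7) (q : ℕ) : Fn2 :=
  match j, q with
  | 0, 0 => cd0q0
  | 0, 1 => cd0q1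
  | 0, 2 => cd0q2
  | 1, 0 => cd1q0
  | 1, 1 => cd1q1
  | 1, 2 => cd1q2
  | 1, 3 => cd1q3
  | 2, 0 => cd2q0
  | 2, 1 => cd2q1
  | 2, 2 => cd2q2
  | 2, 3 => cd2q3
  | 3, 0 => cd3q0
  | 3, 1 => cd3q1
  | 3, 2 => cd3q2
  | 3, 3 => cd3q3
  | 4, 0 => cd4q0
  | 4, 1 => cd4q1
  | 4, 2 => cd4q2
  | 4, 3 => cd4q3
  | 5, 0 => cd5q0
  | 5, 1 => cd5q1
  | 5, 2 => cd5q2
  | 5, 3 => cd5q3
  | 6, 0 => cd6q0
  | 6, 1 => cd6q1
  | 6, 2 => cd6q2
  | 6, 3 => cd6q3
  | _, _ => cd0q0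
noncomputable def pcB (q : ℕ) : Piece :=
  match q with
  | 0 => pcB0
  | 1 => pcB1
  | 2 => pcB2
  | _ => pcB3
noncomputable def pd (q : ℕ) : Fn3 :=
  match q with
  | 0 => pd0
  | 1 => pd1
  | 2 => pd2
  | _ => pd3
theorem nBY0 (q : ℕ) (y : ℝ) (h : OnC (0 : Fin 7) q y) : (ndB 0 q).Y.v (crd 0 q y) = y := by
  have h1 := h.1.nonneg
  have h2 := h.1.le_two
  match q, h with
  | 0, _ => rfl
  | 1, _ => rfl
  | 2, h => exact yag_v h1 (h.2 rfl)
  | 3, h => exact absurd h.1.1 (by linarith [y_lt (h.2 rfl)])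
  | _ + 4, h => exact h.1.elim
theorem nBX0 (q : ℕ) (y : ℝ) (h : OnC (0 : Fin 7) q y) : (ndB 0 q).X.v (crd 0 q y) = crv PP 0 q y := by
  have h1 := h.1.nonneg
  have h2 := h.1.le_two
  match q, h with
  | 0, _ =>
    rw [crv0]
    exact congrFun c1g_v y
  | 1, _ =>
    rw [crv0]
    exact congrFun c1g_v y
  | 2, _ =>
    rw [crv0]
    rfl
  | 3, h => exact absurd h.1.1 (by linarith [y_lt (h.2 rfl)])
  | _ + 4, h => exact h.1.elim
theorem nBY1 (q : ℕ) (y : ℝ) (h : OnC (1 : Fin 7) q y) : (ndB 1 q).Y.v (crd 1 q y) = y := by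
  have h1 := h.1.nonneg
  have h2 := h.1.le_two
  match q, h with
  | 0, _ => rfl
  | 1, _ => rfl
  | 2, h => rfl
  | 3, h => rfl
  | _ + 4, h => exact h.1.elim
theorem nBX1 (q : ℕ) (y : ℝ) (h : OnC (1 : Fin 7) q y) : (ndB 1 q).X.v (crd 1 q y) = crv PP 1 q y := by
  have h1 := h.1.nonneg
  have h2 := h.1.le_two
  match q, h with
  | 0, _ => exact ecv1q0.symm
  | 1, _ => exact ecv1q1.symm
  | 2, _ => exact ecv1q2.symm
  | 3, h => exact (ecv1q3 h.1.1).symm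
  | _ + 4, h => exact h.1.elim
theorem nBY2 (q : ℕ) (y : ℝ) (h : OnC (2 : Fin 7) q y) : (ndB 2 q).Y.v (crd 2 q y) = y := by
  have h1 := h.1.nonneg
  have h2 := h.1.le_two
  match q, h with
  | 0, _ => rfl
  | 1, _ => rfl
  | 2, h => rfl
  | 3, h => rfl
  | _ + 4, h => exact h.1.elim
theorem nBX2 (q : ℕ) (y : ℝ) (h : OnC (2 : Fin 7) q y) : (ndB 2 q).X.v (crd 2 q y) = crv PP 2 q y := by
  have h1 := h.1.nonneg
  have h2 := h.1.le_two
  match q, h with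
  | 0, _ => exact ecv2q0.symm
  | 1, _ => exact ecv2q1.symm
  | 2, _ => exact ecv2q2.symm
  | 3, h => exact (ecv2q3 h.1.1).symm
  | _ + 4, h => exact h.1.elim
theorem nBY3 (q : ℕ) (y : ℝ) (h : OnC (3 : Fin 7) q y) : (ndB 3 q).Y.v (crd 3 q y) = y := by
  have h1 := h.1.nonneg
  have h2 := h.1.le_two
  match q, h with
  | 0, _ => rfl
  | 1, _ => rfl
  | 2, h => rfl
  | 3, h => exact ycg_v h1 h2
  | _ + 4, h => exact h.1.elim
theorem nBX3 (q : ℕ) (y : ℝ) (h : OnC (3 : Fin 7) q y) : (ndB 3 q).X.v (crd 3 q y) = crv PP 3 q y := by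
  have h1 := h.1.nonneg
  have h2 := h.1.le_two
  match q, h with
  | 0, _ => exact ecv3q0.symm
  | 1, _ => exact ecv3q1.symm
  | 2, _ => exact ecv3q2.symm
  | 3, h =>
    rw [crv3]
    show xc33.v (c3n y) = _
    simp only [xc33, c3g_v, swg_v, wn3, ycg_v h1 h2]
    push_cast
    ring
  | _ + 4, h => exact h.1.elim
theorem nBY4 (q : ℕ) (y : ℝ) (h : OnC (4 : Fin 7) q y) : (ndB 4 q).Y.v (crd 4 q y) = y := by
  have h1 := h.1.nonneg
  have h2 := h.1.le_two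
  match q, h with
  | 0, _ => rfl
  | 1, _ => rfl
  | 2, h => rfl
  | 3, h => exact ycg_v h1 h2
  | _ + 4, h => exact h.1.elim
theorem nBX4 (q : ℕ) (y : ℝ) (h : OnC (4 : Fin 7) q y) : (ndB 4 q).X.v (crd 4 q y) = crv PP 4 q y := by
  have h1 := h.1.nonneg
  have h2 := h.1.le_two
  match q, h with
  | 0, _ => exact ecv4q0.symm
  | 1, _ => exact ecv4q1.symm
  | 2, _ => exact ecv4q2.symm
  | 3, h =>
    rw [crv4]
    show xc43.v (c3n y) = _
    simp only [xc43, c3g_v, swg_v, wn3, ycg_v h1 h2]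
    push_cast
    ring
  | _ + 4, h => exact h.1.elim
theorem nBY5 (q : ℕ) (y : ℝ) (h : OnC (5 : Fin 7) q y) : (ndB 5 q).Y.v (crd 5 q y) = y := by
  have h1 := h.1.nonneg
  have h2 := h.1.le_two
  match q, h with
  | 0, _ => rfl
  | 1, _ => rfl
  | 2, h => rfl
  | 3, h => exact ycg_v h1 h2
  | _ + 4, h => exact h.1.elim
theorem nBX5 (q : ℕ) (y : ℝ) (h : OnC (5 : Fin 7) q y) : (ndB 5 q).X.v (crd 5 q y) = crv PP 5 q y := by
  have h1 := h.1.nonneg
  have h2 := h.1.le_two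
  match q, h with
  | 0, _ => exact ecv5q0.symm
  | 1, _ => exact ecv5q1.symm
  | 2, _ => exact ecv5q2.symm
  | 3, h =>
    rw [crv5]
    show xc53.v (c3n y) = _
    simp only [xc53, c3g_v, swg_v, wn3, ycg_v h1 h2]
    push_cast
    ring
  | _ + 4, h => exact h.1.elim
theorem nBY6 (q : ℕ) (y : ℝ) (h : OnC (6 : Fin 7) q y) : (ndB 6 q).Y.v (crd 6 q y) = y := by
  have h1 := h.1.nonneg
  have h2 := h.1.le_two
  match q, h with
  | 0, _ => rfl
  | 1, _ => rfl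
  | 2, h => rfl
  | 3, h => exact ycg_v h1 h2
  | _ + 4, h => exact h.1.elim
theorem nBX6 (q : ℕ) (y : ℝ) (h : OnC (6 : Fin 7) q y) : (ndB 6 q).X.v (crd 6 q y) = crv PP 6 q y := by
  have h1 := h.1.nonneg
  have h2 := h.1.le_two
  match q, h with
  | 0, _ =>
    rw [crv6]
    exact congrFun c3g_v y
  | 1, _ =>
    rw [crv6]
    exact congrFun c3g_v y
  | 2, _ =>
    rw [crv6]
    exact congrFun c3g_v y
  | 3, _ =>
    rw [crv6]
    rfl
  | _ + 4, h => exact h.1.elim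
noncomputable abbrev tK : Fin 7 → ℕ → ℝ → ℝ → ℝ := tbF (fun j q => (ndB j q).K) crd
noncomputable abbrev tL : Fin 7 → ℕ → ℝ → ℝ → ℝ := tbF (fun j q => (ndB j q).L) crd
noncomputable abbrev tU : Fin 7 → ℕ → ℝ → ℝ → ℝ := tbF nc crd
noncomputable abbrev tC : Fin 7 → ℕ → ℝ → ℝ → ℝ := tbF (scT esg nc) crd
theorem corB00 (x : ℝ) : (ndB 0 0).X.v 0 = 1 ∧ (ndB 0 0).K.v 0 x = 1 * (1) ∧
    (ndB 0 0).L.v 0 x = 0 ∧ (nc 0 0).v 0 x = 0 := by
  refine ⟨?_, ?_, ?_, ?_⟩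
  · show c1g.v 0 = _
    simp only [cv1m, cv2m, cv3m, cv4m, cv5m, cv1p, cv2p, cv3p, cv4p, cv5p, cv1r, cv2r, cv3r, cv4r, cv5r, c1g_v, swg_v, c3g_v, c1n_zero, swn_zero, c3n_zero]
    all_goals norm_num
  · show kf0q0.v 0 x = _
    simp only [kf0q0, kf0q0_9, kf0q0_12, kcg, kcg_3, kcg_6, kcg_9, kcg_12, kcg_13, kcg_18, kcg_30, kcg_33, kcg_34, kcg_39, kcg_44, kcg_57, kcg_58, kcg_66, kcg_67, kcg_72, kcg_85, kcg_86, kcg_91, kcg_94, kcg_107, kcg_108, kcg_117, kcg_120, kcg_121, kcg_124, kcg_136, kcg_137, kcg_142, kcg_145, kcg_157, kcg_158, kcg_166, kcg_167, kcg_170, kcg_180, kcg_181, kcg_189, kcg_192, kcg_200, kcg_201, kcg_206, kcg_209, kcg_216, kcg_217, kcg_218, kcg_223, kcg_224, kcg_233, kcg_239, kcg_244, kcg_254, kcg_261, kcg_262, kcg_268, kcg_278, kcg_284, kcg_291, kcg_303, cv1m, cv2m, cv3m, cv4m, cv5m, cv1p, cv2p, cv3p, cv4p, cv5p, cv1r, cv2r, cv3r, cv4r, cv5r, c1g_v, swg_v, c3g_v, c1n_zero, swn_zero,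 c3n_zero, ya1]
    all_goals ((try norm_num) <;> (try ring))
  · show l0q0.v 0 x = _
    simp only [l0q0, txg, txg_4, txg_6, txg_26, txg_29, txg_32, txg_35, txg_38, txg_55, txg_58, txg_59, txg_77, txg_78, txg_86, txg_100, txg_101, txg_121, txg_122, txg_131, txg_134, txg_152, txg_153, txg_172, txg_173, txg_181, txg_196, txg_197, txg_216, txg_217, txg_227, txg_230, txg_233, txg_248, txg_249, txg_268, txg_269, txg_277, txg_292, txg_293, txg_312, txg_313, txg_322, txg_325, txg_337, txg_338, txg_354, txg_355, txg_363, txg_376, txg_377, txg_396, txg_397, txg_406, txg_408, txg_411, txg_413, txg_428, txg_429, txg_448, txg_449, txg_455, txg_470, txg_471, txg_490, txg_491, txg_498, txg_499, txg_512, txg_513, txg_531, txg_532, txg_538, txg_552, txg_553, txg_571, txg_572, txg_580, txg_581, txg_582, txg_598, txg_599, txg_617, txg_618, txg_624, txg_640, txg_641, txg_661, txg_662, txg_669, txg_670, txg_687,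 txg_688, txg_709, txg_710, txg_716, txg_733, txg_734, txg_753, txg_764, txg_765, txg_776, txg_777, txg_800, txg_801, txg_806, txg_821, txg_822, txg_843, txg_844, kcg, kcg_3, kcg_6, kcg_9, kcg_12, kcg_13, kcg_18, kcg_30, kcg_33, kcg_34, kcg_39, kcg_44, kcg_57, kcg_58, kcg_66, kcg_67, kcg_72, kcg_85, kcg_86, kcg_91, kcg_94, kcg_107, kcg_108, kcg_117, kcg_120, kcg_121, kcg_124, kcg_136, kcg_137, kcg_142, kcg_145, kcg_157, kcg_158, kcg_166, kcg_167, kcg_170, kcg_180, kcg_181, kcg_189, kcg_192, kcg_200, kcg_201, kcg_206, kcg_209, kcg_216, kcg_217, kcg_218, kcg_223, kcg_224, kcg_233, kcg_239, kcg_244, kcg_254, kcg_261, kcg_262, kcg_268, kcg_278, kcg_284, kcg_291, kcg_303, cv1m, cv2m, cv3m, cv4m, cv5m, cv1p, cv2p, cv3p, cv4p, cv5p, cv1r, cv2r, cv3r, cv4r, cv5r, c1g_v, swg_v, c3g_v, c1n_zero, swn_zero, c3n_zero, ya1]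
    all_goals ((try norm_num) <;> (try ring))
  · show kc0q0.v 0 x = _
    simp only [kc0q0, kc0q0_3, kc0q0_8, cv1m, cv2m, cv3m, cv4m, cv5m, cv1p, cv2p, cv3p, cv4p, cv5p, cv1r, cv2r, cv3r, cv4r, cv5r, c1g_v, swg_v, c3g_v, c1n_zero, swn_zero, c3n_zero, ya1]
    all_goals ((try norm_num) <;> (try ring))
theorem corB01 (x : ℝ) : (ndB 0 1).X.v 1 = 1 / 2 ∧ (ndB 0 1).K.v 1 x = 1 * (1 / 2) ∧
    (ndB 0 1).L.v 1 x = 0 ∧ (nc 0 1).v 1 x = 0 := by
  refine ⟨?_, ?_, ?_, ?_⟩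
  · show c1g.v 1 = _
    simp only [cv1m, cv2m, cv3m, cv4m, cv5m, cv1p, cv2p, cv3p, cv4p, cv5p, cv1r, cv2r, cv3r, cv4r, cv5r, c1g_v, swg_v, c3g_v, c1n_one, swn_one, c3n_one]
    all_goals norm_num
  · show kf0q1.v 1 x = _
    simp only [kf0q1, kf0q1_10, kcg, kcg_3, kcg_6, kcg_9, kcg_12, kcg_13, kcg_18, kcg_30, kcg_33, kcg_34, kcg_39, kcg_44, kcg_57, kcg_58, kcg_66, kcg_67, kcg_72, kcg_85, kcg_86, kcg_91, kcg_94, kcg_107, kcg_108, kcg_117, kcg_120, kcg_121, kcg_124, kcg_136, kcg_137, kcg_142, kcg_145, kcg_157, kcg_158, kcg_166, kcg_167, kcg_170, kcg_180, kcg_181, kcg_189, kcg_192, kcg_200, kcg_201, kcg_206, kcg_209, kcg_216, kcg_217, kcg_218, kcg_223, kcg_224, kcg_233, kcg_239, kcg_244, kcg_254, kcg_261, kcg_262, kcg_268, kcg_278, kcg_284, kcg_291, kcg_303, cv1m, cv2m, cv3m, cv4m, cv5m, cv1p, cv2p, cv3p, cv4p, cv5p, cv1r, cv2r, cv3r, cv4r, cv5r, c1g_v, swg_v, c3g_v, c1n_one, swn_one, c3n_one,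 ya1]
    all_goals ((try norm_num) <;> (try ring))
  · show l0q1.v 1 x = _
    simp only [l0q1, txg, txg_4, txg_6, txg_26, txg_29, txg_32, txg_35, txg_38, txg_55, txg_58, txg_59, txg_77, txg_78, txg_86, txg_100, txg_101, txg_121, txg_122, txg_131, txg_134, txg_152, txg_153, txg_172, txg_173, txg_181, txg_196, txg_197, txg_216, txg_217, txg_227, txg_230, txg_233, txg_248, txg_249, txg_268, txg_269, txg_277, txg_292, txg_293, txg_312, txg_313, txg_322, txg_325, txg_337, txg_338, txg_354, txg_355, txg_363, txg_376, txg_377, txg_396, txg_397, txg_406, txg_408, txg_411, txg_413, txg_428, txg_429, txg_448, txg_449, txg_455, txg_470, txg_471, txg_490, txg_491, txg_498, txg_499, txg_512, txg_513, txg_531, txg_532, txg_538, txg_552, txg_553, txg_571, txg_572, txg_580, txg_581, txg_582, txg_598, txg_599, txg_617, txg_618, txg_624, txg_640, txg_641, txg_661, txg_662, txg_669, txg_670, txg_687, txg_688,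 txg_709, txg_710, txg_716, txg_733, txg_734, txg_753, txg_764, txg_765, txg_776, txg_777, txg_800, txg_801, txg_806, txg_821, txg_822, txg_843, txg_844, kcg, kcg_3, kcg_6, kcg_9, kcg_12, kcg_13, kcg_18, kcg_30, kcg_33, kcg_34, kcg_39, kcg_44, kcg_57, kcg_58, kcg_66, kcg_67, kcg_72, kcg_85, kcg_86, kcg_91, kcg_94, kcg_107, kcg_108, kcg_117, kcg_120, kcg_121, kcg_124, kcg_136, kcg_137, kcg_142, kcg_145, kcg_157, kcg_158, kcg_166, kcg_167, kcg_170, kcg_180, kcg_181, kcg_189, kcg_192, kcg_200, kcg_201, kcg_206, kcg_209, kcg_216, kcg_217, kcg_218, kcg_223, kcg_224, kcg_233, kcg_239, kcg_244, kcg_254, kcg_261, kcg_262, kcg_268, kcg_278, kcg_284, kcg_291, kcg_303, cv1m, cv2m, cv3m, cv4m, cv5m, cv1p, cv2p, cv3p, cv4p, cv5p, cv1r, cv2r, cv3r, cv4r, cv5r, c1g_v, swg_v, c3g_v, c1n_one, swn_one, c3n_one, ya1]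
    all_goals ((try norm_num) <;> (try ring))
  · show kc0q1.v 1 x = _
    simp only [kc0q1, kc0q1_3, kc0q1_9, kcg, kcg_3, kcg_6, kcg_9, kcg_12, kcg_13, kcg_18, kcg_30, kcg_33, kcg_34, kcg_39, kcg_44, kcg_57, kcg_58, kcg_66, kcg_67, kcg_72, kcg_85, kcg_86, kcg_91, kcg_94, kcg_107, kcg_108, kcg_117, kcg_120, kcg_121, kcg_124, kcg_136, kcg_137, kcg_142, kcg_145, kcg_157, kcg_158, kcg_166, kcg_167, kcg_170, kcg_180, kcg_181, kcg_189, kcg_192, kcg_200, kcg_201, kcg_206, kcg_209, kcg_216, kcg_217, kcg_218, kcg_223, kcg_224, kcg_233, kcg_239, kcg_244, kcg_254, kcg_261, kcg_262, kcg_268, kcg_278, kcg_284, kcg_291, kcg_303, cv1m, cv2m, cv3m, cv4m, cv5m, cv1p, cv2p, cv3p, cv4p, cv5p, cv1r, cv2r, cv3r, cv4r, cv5r, c1g_v, swg_v, c3g_v, c1n_one, swn_one, c3n_one, ya1]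
    all_goals ((try norm_num) <;> (try ring))
theorem corB02 (x : ℝ) : (ndB 0 2).X.v (1 / 2) = 1 / 2 ∧ (ndB 0 2).K.v (1 / 2) x = 1 * (1 / 2) ∧
    (ndB 0 2).L.v (1 / 2) x = 0 ∧ (nc 0 2).v (1 / 2) x = 0 := by
  refine ⟨?_, ?_, ?_, ?_⟩
  · show idf.v (1 / 2) = _
    simp only [idf, cv1m, cv2m, cv3m, cv4m, cv5m, cv1p, cv2p, cv3p, cv4p, cv5p, cv1r, cv2r, cv3r, cv4r, cv5r, c1g_v, swg_v, c3g_v, c1n_one, swn_one, c3n_one]
    all_goals norm_num
  · show kfc02.v (1 / 2) x = _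
    simp only [kfc02, kcg, kcg_3, kcg_6, kcg_9, kcg_12, kcg_13, kcg_18, kcg_30, kcg_33, kcg_34, kcg_39, kcg_44, kcg_57, kcg_58, kcg_66, kcg_67, kcg_72, kcg_85, kcg_86, kcg_91, kcg_94, kcg_107, kcg_108, kcg_117, kcg_120, kcg_121, kcg_124, kcg_136, kcg_137, kcg_142, kcg_145, kcg_157, kcg_158, kcg_166, kcg_167, kcg_170, kcg_180, kcg_181, kcg_189, kcg_192, kcg_200, kcg_201, kcg_206, kcg_209, kcg_216, kcg_217, kcg_218, kcg_223, kcg_224, kcg_233, kcg_239, kcg_244, kcg_254, kcg_261, kcg_262, kcg_268, kcg_278, kcg_284, kcg_291, kcg_303, cv1m, cv2m, cv3m, cv4m, cv5m, cv1p, cv2p, cv3p, cv4p, cv5p, cv1r, cv2r, cv3r, cv4r, cv5r, c1g_v, swg_v, c3g_v, c1n_one, swn_one, c3n_one, ya1]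
    all_goals ((try norm_num) <;> (try ring))
  · show lc02.v (1 / 2) x = _
    simp only [lc02, lc02_7, lc02_8, txg, txg_4, txg_6, txg_26, txg_29, txg_32, txg_35, txg_38, txg_55, txg_58, txg_59, txg_77, txg_78, txg_86, txg_100, txg_101, txg_121, txg_122, txg_131, txg_134, txg_152, txg_153, txg_172, txg_173, txg_181, txg_196, txg_197, txg_216, txg_217, txg_227, txg_230, txg_233, txg_248, txg_249, txg_268, txg_269, txg_277, txg_292, txg_293, txg_312, txg_313, txg_322, txg_325, txg_337, txg_338, txg_354, txg_355, txg_363, txg_376, txg_377, txg_396, txg_397, txg_406, txg_408, txg_411, txg_413, txg_428, txg_429, txg_448, txg_449, txg_455, txg_470, txg_471, txg_490, txg_491, txg_498, txg_499, txg_512, txg_513, txg_531, txg_532, txg_538, txg_552, txg_553, txg_571, txg_572, txg_580, txg_581, txg_582, txg_598, txg_599, txg_617, txg_618, txg_624, txg_640, txg_641, txg_661, txg_662, txg_669, txg_670,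 txg_687, txg_688, txg_709, txg_710, txg_716, txg_733, txg_734, txg_753, txg_764, txg_765, txg_776, txg_777, txg_800, txg_801, txg_806, txg_821, txg_822, txg_843, txg_844, kcg, kcg_3, kcg_6, kcg_9, kcg_12, kcg_13, kcg_18, kcg_30, kcg_33, kcg_34, kcg_39, kcg_44, kcg_57, kcg_58, kcg_66, kcg_67, kcg_72, kcg_85, kcg_86, kcg_91, kcg_94, kcg_107, kcg_108, kcg_117, kcg_120, kcg_121, kcg_124, kcg_136, kcg_137, kcg_142, kcg_145, kcg_157, kcg_158, kcg_166, kcg_167, kcg_170, kcg_180, kcg_181, kcg_189, kcg_192, kcg_200, kcg_201, kcg_206, kcg_209, kcg_216, kcg_217, kcg_218, kcg_223, kcg_224, kcg_233, kcg_239, kcg_244, kcg_254, kcg_261, kcg_262, kcg_268, kcg_278, kcg_284, kcg_291, kcg_303, cv1m, cv2m, cv3m, cv4m, cv5m, cv1p, cv2p, cv3p, cv4p, cv5p, cv1r, cv2r, cv3r, cv4r, cv5r, c1g_v, swg_v, c3g_v, c1n_one, swn_one, c3n_one, ya1]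
    all_goals ((try norm_num) <;> (try ring))
  · show kcc02.v (1 / 2) x = _
    simp only [kcc02, kcc02_4, kcc02_19, cv1m, cv2m, cv3m, cv4m, cv5m, cv1p, cv2p, cv3p, cv4p, cv5p, cv1r, cv2r, cv3r, cv4r, cv5r, c1g_v, swg_v, c3g_v, c1n_one, swn_one, c3n_one, ya1]
    all_goals ((try norm_num) <;> (try ring))
theorem corB10 (x : ℝ) : (ndB 1 0).X.v 0 = 1 ∧ (ndB 1 0).K.v 0 x = 1 * (1) ∧
    (ndB 1 0).L.v 0 x = 0 ∧ (nc 1 0).v 0 x = 0 := by
  refine ⟨?_, ?_, ?_, ?_⟩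
  · show cv1m.v 0 = _
    simp only [cv1m, cv1m, cv2m, cv3m, cv4m, cv5m, cv1p, cv2p, cv3p, cv4p, cv5p, cv1r, cv2r, cv3r, cv4r, cv5r, c1g_v, swg_v, c3g_v, c1n_zero, swn_zero, c3n_zero]
    all_goals norm_num
  · show kf1q0.v 0 x = _
    simp only [kf1q0, bf1q0, bf1q0_3, bf1q0_10, cv1m, cv2m, cv3m, cv4m, cv5m, cv1p, cv2p, cv3p, cv4p, cv5p, cv1r, cv2r, cv3r, cv4r, cv5r, c1g_v, swg_v, c3g_v, c1n_zero, swn_zero, c3n_zero, ya1]
    all_goals ((try norm_num) <;> (try ring))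
  · show l1q0.v 0 x = _
    simp only [l1q0, bx1q0, bx1q0_3, cv1m, cv2m, cv3m, cv4m, cv5m, cv1p, cv2p, cv3p, cv4p, cv5p, cv1r, cv2r, cv3r, cv4r, cv5r, c1g_v, swg_v, c3g_v, c1n_zero, swn_zero, c3n_zero, ya1]
    all_goals ((try norm_num) <;> (try ring))
  · show kc1q0.v 0 x = _
    simp only [kc1q0, bd1q0, bd1q0_3, cv1m, cv2m, cv3m, cv4m, cv5m, cv1p, cv2p, cv3p, cv4p, cv5p, cv1r, cv2r, cv3r, cv4r, cv5r, c1g_v, swg_v, c3g_v, c1n_zero, swn_zero, c3n_zero, ya1]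
    all_goals ((try norm_num) <;> (try ring))
theorem corB12 (x : ℝ) : (ndB 1 2).X.v 1 = 1 / 2 ∧ (ndB 1 2).K.v 1 x = 1 * (1 / 2) ∧
    (ndB 1 2).L.v 1 x = 0 ∧ (nc 1 2).v 1 x = 0 := by
  refine ⟨?_, ?_, ?_, ?_⟩
  · show cv1p.v 1 = _
    simp only [cv1p, cv1m, cv2m, cv3m, cv4m, cv5m, cv1p, cv2p, cv3p, cv4p, cv5p, cv1r, cv2r, cv3r, cv4r, cv5r, c1g_v, swg_v, c3g_v, c1n_one, swn_one, c3n_one]
    all_goals norm_num
  · show kf1q2.v 1 x = _
    simp only [kf1q2, bf1q2, bf1q2_3, cv1m, cv2m, cv3m, cv4m, cv5m, cv1p, cv2p, cv3p, cv4p, cv5p, cv1r, cv2r, cv3r, cv4r, cv5r, c1g_v, swg_v, c3g_v, c1n_one, swn_one, c3n_one, ya1]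
    all_goals ((try norm_num) <;> (try ring))
  · show l1q2.v 1 x = _
    simp only [l1q2, bx1q2, bx1q2_3, cv1m, cv2m, cv3m, cv4m, cv5m, cv1p, cv2p, cv3p, cv4p, cv5p, cv1r, cv2r, cv3r, cv4r, cv5r, c1g_v, swg_v, c3g_v, c1n_one, swn_one, c3n_one, ya1]
    all_goals ((try norm_num) <;> (try ring))
  · show kc1q2.v 1 x = _
    simp only [kc1q2, bd1q2, bd1q2_3, cv1m, cv2m, cv3m, cv4m, cv5m, cv1p, cv2p, cv3p, cv4p, cv5p, cv1r, cv2r, cv3r, cv4r, cv5r, c1g_v, swg_v, c3g_v, c1n_one, swn_one, c3n_one, ya1]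
    all_goals ((try norm_num) <;> (try ring))
theorem corB20 (x : ℝ) : (ndB 2 0).X.v 0 = 1 ∧ (ndB 2 0).K.v 0 x = 1 * (1) ∧
    (ndB 2 0).L.v 0 x = 0 ∧ (nc 2 0).v 0 x = 0 := by
  refine ⟨?_, ?_, ?_, ?_⟩
  · show cv2m.v 0 = _
    simp only [cv2m, cv1m, cv2m, cv3m, cv4m, cv5m, cv1p, cv2p, cv3p, cv4p, cv5p, cv1r, cv2r, cv3r, cv4r, cv5r, c1g_v, swg_v, c3g_v, c1n_zero, swn_zero, c3n_zero]
    all_goals norm_num
  · show kf2q0.v 0 x = _
    simp only [kf2q0, bf2q0, bf2q0_3, bf2q0_13, cv1m, cv2m, cv3m, cv4m, cv5m, cv1p, cv2p, cv3p, cv4p, cv5p, cv1r, cv2r, cv3r, cv4r, cv5r, c1g_v, swg_v, c3g_v, c1n_zero, swn_zero, c3n_zero, ya1]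
    all_goals ((try norm_num) <;> (try ring))
  · show l2q0.v 0 x = _
    simp only [l2q0, bx2q0, bx2q0_3, cv1m, cv2m, cv3m, cv4m, cv5m, cv1p, cv2p, cv3p, cv4p, cv5p, cv1r, cv2r, cv3r, cv4r, cv5r, c1g_v, swg_v, c3g_v, c1n_zero, swn_zero, c3n_zero, ya1]
    all_goals ((try norm_num) <;> (try ring))
  · show kc2q0.v 0 x = _
    simp only [kc2q0, bd2q0, bd2q0_3, cv1m, cv2m, cv3m, cv4m, cv5m, cv1p, cv2p, cv3p, cv4p, cv5p, cv1r, cv2r, cv3r, cv4r, cv5r, c1g_v, swg_v, c3g_v, c1n_zero, swn_zero, c3n_zero, ya1]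
    all_goals ((try norm_num) <;> (try ring))
theorem corB22 (x : ℝ) : (ndB 2 2).X.v 1 = 1 / 2 ∧ (ndB 2 2).K.v 1 x = 1 * (1 / 2) ∧
    (ndB 2 2).L.v 1 x = 0 ∧ (nc 2 2).v 1 x = 0 := by
  refine ⟨?_, ?_, ?_, ?_⟩
  · show cv2p.v 1 = _
    simp only [cv2p, cv1m, cv2m, cv3m, cv4m, cv5m, cv1p, cv2p, cv3p, cv4p, cv5p, cv1r, cv2r, cv3r, cv4r, cv5r, c1g_v, swg_v, c3g_v, c1n_one, swn_one, c3n_one]
    all_goals norm_num
  · show kf2q2.v 1 x = _
    simp only [kf2q2, bf2q2, bf2q2_3, cv1m, cv2m, cv3m, cv4m, cv5m, cv1p, cv2p, cv3p, cv4p, cv5p, cv1r, cv2r, cv3r, cv4r, cv5r, c1g_v, swg_v, c3g_v, c1n_one, swn_one, c3n_one, ya1]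
    all_goals ((try norm_num) <;> (try ring))
  · show l2q2.v 1 x = _
    simp only [l2q2, bx2q2, bx2q2_3, cv1m, cv2m, cv3m, cv4m, cv5m, cv1p, cv2p, cv3p, cv4p, cv5p, cv1r, cv2r, cv3r, cv4r, cv5r, c1g_v, swg_v, c3g_v, c1n_one, swn_one, c3n_one, ya1]
    all_goals ((try norm_num) <;> (try ring))
  · show kc2q2.v 1 x = _
    simp only [kc2q2, bd2q2, bd2q2_3, cv1m, cv2m, cv3m, cv4m, cv5m, cv1p, cv2p, cv3p, cv4p, cv5p, cv1r, cv2r, cv3r, cv4r, cv5r, c1g_v, swg_v, c3g_v, c1n_one, swn_one, c3n_one, ya1]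
    all_goals ((try norm_num) <;> (try ring))
theorem corB31 (x : ℝ) : (ndB 3 1).X.v 1 = 3 / 2 ∧ (ndB 3 1).K.v 1 x = 1 * (3 / 2) ∧
    (ndB 3 1).L.v 1 x = 0 ∧ (nc 3 1).v 1 x = 0 := by
  refine ⟨?_, ?_, ?_, ?_⟩
  · show cv3m.v 1 = _
    simp only [cv3m, cv1m, cv2m, cv3m, cv4m, cv5m, cv1p, cv2p, cv3p, cv4p, cv5p, cv1r, cv2r, cv3r, cv4r, cv5r, c1g_v, swg_v, c3g_v, c1n_one, swn_one, c3n_one]
    all_goals norm_num
  · show kf3q1.v 1 x = _
    simp only [kf3q1, bf3q1, bf3q1_3, cv1m, cv2m, cv3m, cv4m, cv5m, cv1p, cv2p, cv3p, cv4p, cv5p, cv1r, cv2r, cv3r, cv4r, cv5r, c1g_v, swg_v, c3g_v, c1n_one, swn_one, c3n_one, ya1]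
    all_goals ((try norm_num) <;> (try ring))
  · show l3q1.v 1 x = _
    simp only [l3q1, bx3q1, bx3q1_3, cv1m, cv2m, cv3m, cv4m, cv5m, cv1p, cv2p, cv3p, cv4p, cv5p, cv1r, cv2r, cv3r, cv4r, cv5r, c1g_v, swg_v, c3g_v, c1n_one, swn_one, c3n_one, ya1]
    all_goals ((try norm_num) <;> (try ring))
  · show kc3q1.v 1 x = _
    simp only [kc3q1, bd3q1, cv1m, cv2m, cv3m, cv4m, cv5m, cv1p, cv2p, cv3p, cv4p, cv5p, cv1r, cv2r, cv3r, cv4r, cv5r, c1g_v, swg_v, c3g_v, c1n_one, swn_one, c3n_one, ya1]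
    all_goals ((try norm_num) <;> (try ring))
theorem corB41 (x : ℝ) : (ndB 4 1).X.v 1 = 3 / 2 ∧ (ndB 4 1).K.v 1 x = 1 * (3 / 2) ∧
    (ndB 4 1).L.v 1 x = 0 ∧ (nc 4 1).v 1 x = 0 := by
  refine ⟨?_, ?_, ?_, ?_⟩
  · show cv4m.v 1 = _
    simp only [cv4m, cv1m, cv2m, cv3m, cv4m, cv5m, cv1p, cv2p, cv3p, cv4p, cv5p, cv1r, cv2r, cv3r, cv4r, cv5r, c1g_v, swg_v, c3g_v, c1n_one, swn_one, c3n_one]
    all_goals norm_num
  · show kf4q1.v 1 x = _
    simp only [kf4q1, bf4q1, cv1m, cv2m, cv3m, cv4m, cv5m, cv1p, cv2p, cv3p, cv4p, cv5p, cv1r, cv2r, cv3r, cv4r, cv5r, c1g_v, swg_v, c3g_v, c1n_one, swn_one, c3n_one, ya1]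
    all_goals ((try norm_num) <;> (try ring))
  · show l4q1.v 1 x = _
    simp only [l4q1, bx4q1, bx4q1_3, cv1m, cv2m, cv3m, cv4m, cv5m, cv1p, cv2p, cv3p, cv4p, cv5p, cv1r, cv2r, cv3r, cv4r, cv5r, c1g_v, swg_v, c3g_v, c1n_one, swn_one, c3n_one, ya1]
    all_goals ((try norm_num) <;> (try ring))
  · show kc4q1.v 1 x = _
    simp only [kc4q1, bd4q1, cv1m, cv2m, cv3m, cv4m, cv5m, cv1p, cv2p, cv3p, cv4p, cv5p, cv1r, cv2r, cv3r, cv4r, cv5r, c1g_v, swg_v, c3g_v, c1n_one, swn_one, c3n_one, ya1]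
    all_goals ((try norm_num) <;> (try ring))
theorem corB51 (x : ℝ) : (ndB 5 1).X.v 1 = 3 / 2 ∧ (ndB 5 1).K.v 1 x = 1 * (3 / 2) ∧
    (ndB 5 1).L.v 1 x = 0 ∧ (nc 5 1).v 1 x = 0 := by
  refine ⟨?_, ?_, ?_, ?_⟩
  · show cv5m.v 1 = _
    simp only [cv5m, cv1m, cv2m, cv3m, cv4m, cv5m, cv1p, cv2p, cv3p, cv4p, cv5p, cv1r, cv2r, cv3r, cv4r, cv5r, c1g_v, swg_v, c3g_v, c1n_one, swn_one, c3n_one]
    all_goals norm_num
  · show kf5q1.v 1 x = _
    simp only [kf5q1, bf5q1, bf5q1_3, cv1m, cv2m, cv3m, cv4m, cv5m, cv1p, cv2p, cv3p, cv4p, cv5p, cv1r, cv2r, cv3r, cv4r, cv5r, c1g_v, swg_v, c3g_v, c1n_one, swn_one, c3n_one, ya1]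
    all_goals ((try norm_num) <;> (try ring))
  · show l5q1.v 1 x = _
    simp only [l5q1, bx5q1, bx5q1_3, cv1m, cv2m, cv3m, cv4m, cv5m, cv1p, cv2p, cv3p, cv4p, cv5p, cv1r, cv2r, cv3r, cv4r, cv5r, c1g_v, swg_v, c3g_v, c1n_one, swn_one, c3n_one, ya1]
    all_goals ((try norm_num) <;> (try ring))
  · show kc5q1.v 1 x = _
    simp only [kc5q1, bd5q1, cv1m, cv2m, cv3m, cv4m, cv5m, cv1p, cv2p, cv3p, cv4p, cv5p, cv1r, cv2r, cv3r, cv4r, cv5r, c1g_v, swg_v, c3g_v, c1n_one, swn_one, c3n_one, ya1]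
    all_goals ((try norm_num) <;> (try ring))
theorem corB61 (x : ℝ) : (ndB 6 1).X.v 1 = 3 / 2 ∧ (ndB 6 1).K.v 1 x = 1 * (3 / 2) ∧
    (ndB 6 1).L.v 1 x = 0 ∧ (nc 6 1).v 1 x = 0 := by
  refine ⟨?_, ?_, ?_, ?_⟩
  · show c3g.v 1 = _
    simp only [cv1m, cv2m, cv3m, cv4m, cv5m, cv1p, cv2p, cv3p, cv4p, cv5p, cv1r, cv2r, cv3r, cv4r, cv5r, c1g_v, swg_v, c3g_v, c1n_one, swn_one, c3n_one]
    all_goals norm_num
  · show kf6q1.v 1 x = _
    simp only [kf6q1, kcg, kcg_3, kcg_6, kcg_9, kcg_12, kcg_13, kcg_18, kcg_30, kcg_33, kcg_34, kcg_39, kcg_44, kcg_57, kcg_58, kcg_66, kcg_67, kcg_72, kcg_85, kcg_86, kcg_91, kcg_94, kcg_107, kcg_108, kcg_117, kcg_120, kcg_121, kcg_124, kcg_136, kcg_137, kcg_142, kcg_145, kcg_157, kcg_158, kcg_166, kcg_167, kcg_170, kcg_180, kcg_181, kcg_189, kcg_192, kcg_200, kcg_201, kcg_206, kcg_209, kcg_216, kcg_217, kcg_218, kcg_223, kcg_224, kcg_233, kcg_239, kcg_244, kcg_254,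 kcg_261, kcg_262, kcg_268, kcg_278, kcg_284, kcg_291, kcg_303, cv1m, cv2m, cv3m, cv4m, cv5m, cv1p, cv2p, cv3p, cv4p, cv5p, cv1r, cv2r, cv3r, cv4r, cv5r, c1g_v, swg_v, c3g_v, c1n_one, swn_one, c3n_one, ya1]
    all_goals ((try norm_num) <;> (try ring))
  · show l6q1.v 1 x = _
    simp only [l6q1, l6q1_7, l6q1_8, l6q1_9, txg, txg_4, txg_6, txg_26, txg_29, txg_32, txg_35, txg_38, txg_55, txg_58, txg_59, txg_77, txg_78, txg_86, txg_100, txg_101, txg_121, txg_122, txg_131, txg_134, txg_152, txg_153, txg_172, txg_173, txg_181, txg_196, txg_197, txg_216, txg_217, txg_227, txg_230, txg_233, txg_248, txg_249, txg_268, txg_269, txg_277, txg_292, txg_293, txg_312, txg_313, txg_322, txg_325, txg_337, txg_338, txg_354, txg_355, txg_363, txg_376, txg_377, txg_396, txg_397, txg_406, txg_408, txg_411, txg_413, txg_428, txg_429, txg_448, txg_449, txg_455, txg_470, txg_471, txg_490, txg_491, txg_498, txg_499,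 txg_512, txg_513, txg_531, txg_532, txg_538, txg_552, txg_553, txg_571, txg_572, txg_580, txg_581, txg_582, txg_598, txg_599, txg_617, txg_618, txg_624, txg_640, txg_641, txg_661, txg_662, txg_669, txg_670, txg_687, txg_688, txg_709, txg_710, txg_716, txg_733, txg_734, txg_753, txg_764, txg_765, txg_776, txg_777, txg_800, txg_801, txg_806, txg_821, txg_822, txg_843, txg_844, kcg, kcg_3, kcg_6, kcg_9, kcg_12, kcg_13, kcg_18, kcg_30, kcg_33, kcg_34, kcg_39, kcg_44, kcg_57, kcg_58, kcg_66, kcg_67, kcg_72, kcg_85, kcg_86, kcg_91, kcg_94, kcg_107, kcg_108, kcg_117, kcg_120, kcg_121, kcg_124, kcg_136, kcg_137, kcg_142, kcg_145, kcg_157, kcg_158, kcg_166, kcg_167, kcg_170, kcg_180, kcg_181, kcg_189, kcg_192, kcg_200, kcg_201, kcg_206, kcg_209, kcg_216, kcg_217, kcg_218, kcg_223, kcg_224, kcg_233, kcg_239, kcg_244, kcg_254, kcg_261, kcg_262, kcg_268, kcg_278, kcg_284, kcg_291, kcg_303, cv1m, cv2m, cv3m,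 cv4m, cv5m, cv1p, cv2p, cv3p, cv4p, cv5p, cv1r, cv2r, cv3r, cv4r, cv5r, c1g_v, swg_v, c3g_v, c1n_one, swn_one, c3n_one, ya1]
    all_goals ((try norm_num) <;> (try ring))
  · show kc6q1.v 1 x = _
    simp only [kc6q1, kc6q1_3, kc6q1_7, cv1m, cv2m, cv3m, cv4m, cv5m, cv1p, cv2p, cv3p, cv4p, cv5p, cv1r, cv2r, cv3r, cv4r, cv5r, c1g_v, swg_v, c3g_v, c1n_one, swn_one, c3n_one, ya1]
    all_goals ((try norm_num) <;> (try ring))
theorem corB62 (x : ℝ) : (ndB 6 2).X.v 1 = 3 / 2 ∧ (ndB 6 2).K.v 1 x = 1 * (3 / 2) ∧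
    (ndB 6 2).L.v 1 x = 0 ∧ (nc 6 2).v 1 x = 0 := by
  refine ⟨?_, ?_, ?_, ?_⟩
  · show c3g.v 1 = _
    simp only [cv1m, cv2m, cv3m, cv4m, cv5m, cv1p, cv2p, cv3p, cv4p, cv5p, cv1r, cv2r, cv3r, cv4r, cv5r, c1g_v, swg_v, c3g_v, c1n_one, swn_one, c3n_one]
    all_goals norm_num
  · show kf6q2.v 1 x = _
    simp only [kf6q2, kcg, kcg_3, kcg_6, kcg_9, kcg_12, kcg_13, kcg_18, kcg_30, kcg_33, kcg_34, kcg_39, kcg_44, kcg_57, kcg_58, kcg_66, kcg_67, kcg_72, kcg_85, kcg_86, kcg_91, kcg_94, kcg_107, kcg_108, kcg_117, kcg_120, kcg_121, kcg_124, kcg_136, kcg_137, kcg_142, kcg_145, kcg_157, kcg_158, kcg_166, kcg_167, kcg_170, kcg_180, kcg_181, kcg_189, kcg_192, kcg_200, kcg_201, kcg_206, kcg_209, kcg_216, kcg_217, kcg_218, kcg_223, kcg_224, kcg_233, kcg_239, kcg_244, kcg_254, kcg_261, kcg_262, kcg_268, kcg_278, kcg_284, kcg_291, kcg_303, cv1m, cv2m, cv3m, cv4m, cv5m, cv1p, cv2p, cv3p, cv4p, cv5p, cv1r, cv2r,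 cv3r, cv4r, cv5r, c1g_v, swg_v, c3g_v, c1n_one, swn_one, c3n_one, ya1]
    all_goals ((try norm_num) <;> (try ring))
  · show l6q2.v 1 x = _
    simp only [l6q2, l6q2_7, l6q2_8, l6q2_9, l6q2_12, l6q2_14, txg, txg_4, txg_6, txg_26, txg_29, txg_32, txg_35, txg_38, txg_55, txg_58, txg_59, txg_77, txg_78, txg_86, txg_100, txg_101, txg_121, txg_122, txg_131, txg_134, txg_152, txg_153, txg_172, txg_173, txg_181, txg_196, txg_197, txg_216, txg_217, txg_227, txg_230, txg_233, txg_248, txg_249, txg_268, txg_269, txg_277, txg_292, txg_293, txg_312, txg_313, txg_322, txg_325, txg_337, txg_338, txg_354, txg_355, txg_363, txg_376, txg_377, txg_396, txg_397, txg_406, txg_408, txg_411, txg_413, txg_428, txg_429, txg_448, txg_449, txg_455, txg_470, txg_471, txg_490, txg_491, txg_498, txg_499, txg_512, txg_513, txg_531, txg_532, txg_538, txg_552, txg_553, txg_571, txg_572, txg_580, txg_581, txg_582, txg_598,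 txg_599, txg_617, txg_618, txg_624, txg_640, txg_641, txg_661, txg_662, txg_669, txg_670, txg_687, txg_688, txg_709, txg_710, txg_716, txg_733, txg_734, txg_753, txg_764, txg_765, txg_776, txg_777, txg_800, txg_801, txg_806, txg_821, txg_822, txg_843, txg_844, kcg, kcg_3, kcg_6, kcg_9, kcg_12, kcg_13, kcg_18, kcg_30, kcg_33, kcg_34, kcg_39, kcg_44, kcg_57, kcg_58, kcg_66, kcg_67, kcg_72, kcg_85, kcg_86, kcg_91, kcg_94, kcg_107, kcg_108, kcg_117, kcg_120, kcg_121, kcg_124, kcg_136, kcg_137, kcg_142, kcg_145, kcg_157, kcg_158, kcg_166, kcg_167, kcg_170, kcg_180, kcg_181, kcg_189, kcg_192, kcg_200, kcg_201, kcg_206, kcg_209, kcg_216, kcg_217, kcg_218, kcg_223, kcg_224, kcg_233, kcg_239, kcg_244, kcg_254, kcg_261, kcg_262, kcg_268, kcg_278, kcg_284, kcg_291, kcg_303, cv1m, cv2m, cv3m, cv4m, cv5m, cv1p, cv2p, cv3p, cv4p, cv5p, cv1r, cv2r, cv3r, cv4r, cv5r, c1g_v, swg_v, c3g_v, c1n_one, swn_one, c3n_one,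 ya1]
    all_goals ((try norm_num) <;> (try ring))
  · show kc6q2.v 1 x = _
    simp only [kc6q2, kc6q2_3, kc6q2_9, kc6q2_26, kc6q2_45, cv1m, cv2m, cv3m, cv4m, cv5m, cv1p, cv2p, cv3p, cv4p, cv5p, cv1r, cv2r, cv3r, cv4r, cv5r, c1g_v, swg_v, c3g_v, c1n_one, swn_one, c3n_one, ya1]
    all_goals ((try norm_num) <;> (try ring))
theorem pzeroK (x : ℝ) : ∀ j, PP.ρ j ≤ 1 → (ndB j 0).K.v (crd j 0 0) x = (ndB 0 0).K.v (crd 0 0 0) x := by
  intro j hj
  fin_cases j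
  · rfl
  · show kf1q0.v 0 x = kf0q0.v 0 x
    simp only [kf1q0, bf1q0, bf1q0_3, bf1q0_10, kf0q0, kf0q0_9, kf0q0_12, kcg, kcg_3, kcg_6, kcg_9, kcg_12, kcg_13, kcg_18, kcg_30, kcg_33, kcg_34, kcg_39, kcg_44, kcg_57, kcg_58, kcg_66, kcg_67, kcg_72, kcg_85, kcg_86, kcg_91, kcg_94, kcg_107, kcg_108, kcg_117, kcg_120, kcg_121, kcg_124, kcg_136, kcg_137, kcg_142, kcg_145, kcg_157, kcg_158, kcg_166, kcg_167, kcg_170, kcg_180, kcg_181, kcg_189, kcg_192, kcg_200, kcg_201, kcg_206, kcg_209, kcg_216, kcg_217, kcg_218, kcg_223, kcg_224, kcg_233, kcg_239, kcg_244, kcg_254, kcg_261, kcg_262, kcg_268, kcg_278, kcg_284, kcg_291, kcg_303, cv1m, cv2m, cv3m, cv4m, cv5m, cv1p, cv2p, cv3p, cv4p, cv5p, cv1r, cv2r, cv3r, cv4r, cv5r, c1g_v, swg_v, c3g_v, c1n_zero, swn_zero]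
    ((try norm_num) <;> (try ring))
  · show kf2q0.v 0 x = kf0q0.v 0 x
    simp only [kf2q0, bf2q0, bf2q0_3, bf2q0_13, kf0q0, kf0q0_9, kf0q0_12, kcg, kcg_3, kcg_6, kcg_9, kcg_12, kcg_13, kcg_18, kcg_30, kcg_33, kcg_34, kcg_39, kcg_44, kcg_57, kcg_58, kcg_66, kcg_67, kcg_72, kcg_85, kcg_86, kcg_91, kcg_94, kcg_107, kcg_108, kcg_117, kcg_120, kcg_121, kcg_124, kcg_136, kcg_137, kcg_142, kcg_145, kcg_157, kcg_158, kcg_166, kcg_167, kcg_170, kcg_180, kcg_181, kcg_189, kcg_192, kcg_200, kcg_201, kcg_206, kcg_209, kcg_216, kcg_217, kcg_218, kcg_223, kcg_224, kcg_233, kcg_239, kcg_244, kcg_254, kcg_261, kcg_262, kcg_268, kcg_278, kcg_284, kcg_291, kcg_303, cv1m, cv2m, cv3m, cv4m, cv5m, cv1p, cv2p, cv3p, cv4p, cv5p, cv1r, cv2r, cv3r, cv4r, cv5r, c1g_v, swg_v, c3g_v, c1n_zero, swn_zero]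
    ((try norm_num) <;> (try ring))
  · exact absurd (show (2071 / 2000 : ℝ) ≤ 1 from hj) (by norm_num)
  · exact absurd (show (23 / 20 : ℝ) ≤ 1 from hj) (by norm_num)
  · exact absurd (show (17 / 10 : ℝ) ≤ 1 from hj) (by norm_num)
  · exact absurd (show (2 : ℝ) ≤ 1 from hj) (by norm_num)
theorem pmidK (x : ℝ) : ∀ j, PP.ρ j ≤ 1 → (ndB j 2).K.v (crd j 2 1) x = (ndB 0 2).K.v (crd 0 2 1) x := by
  intro j hj
  fin_cases j
  · rfl
  · show kf1q2.v 1 x = kfc02.v (c1n 1) x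
    simp only [kf1q2, bf1q2, bf1q2_3, kfc02, kcg, kcg_3, kcg_6, kcg_9, kcg_12, kcg_13, kcg_18, kcg_30, kcg_33, kcg_34, kcg_39, kcg_44, kcg_57, kcg_58, kcg_66, kcg_67, kcg_72, kcg_85, kcg_86, kcg_91, kcg_94, kcg_107, kcg_108, kcg_117, kcg_120, kcg_121, kcg_124, kcg_136, kcg_137, kcg_142, kcg_145, kcg_157, kcg_158, kcg_166, kcg_167, kcg_170, kcg_180, kcg_181, kcg_189, kcg_192, kcg_200, kcg_201, kcg_206, kcg_209, kcg_216, kcg_217, kcg_218, kcg_223, kcg_224, kcg_233, kcg_239, kcg_244, kcg_254, kcg_261, kcg_262, kcg_268, kcg_278, kcg_284, kcg_291, kcg_303, cv1m, cv2m, cv3m, cv4m, cv5m, cv1p, cv2p, cv3p, cv4p, cv5p, cv1r, cv2r, cv3r, cv4r, cv5r, c1g_v, swg_v, c3g_v, c1n_one, swn_one, ya1]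
    ((try norm_num) <;> (try ring))
  · show kf2q2.v 1 x = kfc02.v (c1n 1) x
    simp only [kf2q2, bf2q2, bf2q2_3, kfc02, kcg, kcg_3, kcg_6, kcg_9, kcg_12, kcg_13, kcg_18, kcg_30, kcg_33, kcg_34, kcg_39, kcg_44, kcg_57, kcg_58, kcg_66, kcg_67, kcg_72, kcg_85, kcg_86, kcg_91, kcg_94, kcg_107, kcg_108, kcg_117, kcg_120, kcg_121, kcg_124, kcg_136, kcg_137, kcg_142, kcg_145, kcg_157, kcg_158, kcg_166, kcg_167, kcg_170, kcg_180, kcg_181, kcg_189, kcg_192, kcg_200, kcg_201, kcg_206, kcg_209, kcg_216, kcg_217, kcg_218, kcg_223, kcg_224, kcg_233, kcg_239, kcg_244, kcg_254, kcg_261, kcg_262, kcg_268, kcg_278, kcg_284, kcg_291, kcg_303, cv1m, cv2m, cv3m, cv4m, cv5m, cv1p, cv2p, cv3p, cv4p, cv5p, cv1r, cv2r, cv3r, cv4r, cv5r, c1g_v, swg_v, c3g_v, c1n_one, swn_one, ya1]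
    ((try norm_num) <;> (try ring))
  · exact absurd (show (2071 / 2000 : ℝ) ≤ 1 from hj) (by norm_num)
  · exact absurd (show (23 / 20 : ℝ) ≤ 1 from hj) (by norm_num)
  · exact absurd (show (17 / 10 : ℝ) ≤ 1 from hj) (by norm_num)
  · exact absurd (show (2 : ℝ) ≤ 1 from hj) (by norm_num)
theorem ptopK (x : ℝ) : ∀ j, j ≠ 0 → (ndB j 3).K.v (crd j 3 2) x = 0 := by
  intro j hj
  fin_cases j
  · exact absurd rfl hj
  · show kf1q3.v 2 x = 0
    simp only [kf1q3, kf1q3_4, kf1q3_51, cv1m, cv2m, cv3m, cv4m, cv5m, cv1p, cv2p, cv3p, cv4p, cv5p, cv1r, cv2r, cv3r, cv4r, cv5r, c1g_v, swg_v, c3g_v, swn_two, c1n_two, c3n_two, yc0]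
    norm_num
  · show kf2q3.v 2 x = 0
    simp only [kf2q3, kf2q3_4, cv1m, cv2m, cv3m, cv4m, cv5m, cv1p, cv2p, cv3p, cv4p, cv5p, cv1r, cv2r, cv3r, cv4r, cv5r, c1g_v, swg_v, c3g_v, swn_two, c1n_two, c3n_two, yc0]
    norm_num
  · show kfc33.v (c3n 2) x = 0
    simp only [kfc33, kfc33_6, kfc33_9, kfc33_11, kfc33_13, kfc33_25, kfc33_50, kfc33_52, kfc33_75, kfc33_97, kfc33_98, kfc33_99, kfc33_100, kfc33_102, kfc33_103, kfc33_105, kfc33_112, kfc33_118, kfc33_143, kfc33_167, kfc33_223, kcg, kcg_3, kcg_6, kcg_9, kcg_12, kcg_13, kcg_18, kcg_30, kcg_33, kcg_34, kcg_39, kcg_44, kcg_57, kcg_58, kcg_66, kcg_67, kcg_72, kcg_85, kcg_86, kcg_91, kcg_94, kcg_107, kcg_108, kcg_117, kcg_120, kcg_121, kcg_124, kcg_136, kcg_137, kcg_142, kcg_145, kcg_157, kcg_158, kcg_166, kcg_167, kcg_170, kcg_180, kcg_181, kcg_189, kcg_192, kcg_200, kcg_201, kcg_206, kcg_209, kcg_216, kcg_217, kcg_218, kcg_223, kcg_224, kcg_233,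 kcg_239, kcg_244, kcg_254, kcg_261, kcg_262, kcg_268, kcg_278, kcg_284, kcg_291, kcg_303, cv1m, cv2m, cv3m, cv4m, cv5m, cv1p, cv2p, cv3p, cv4p, cv5p, cv1r, cv2r, cv3r, cv4r, cv5r, c1g_v, swg_v, c3g_v, swn_two, c1n_two, c3n_two, yc0]
    norm_num
  · show kfc43.v (c3n 2) x = 0
    simp only [kfc43, kfc43_11, cv1m, cv2m, cv3m, cv4m, cv5m, cv1p, cv2p, cv3p, cv4p, cv5p, cv1r, cv2r, cv3r, cv4r, cv5r, c1g_v, swg_v, c3g_v, swn_two, c1n_two, c3n_two, yc0]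
    norm_num
  · show kfc53.v (c3n 2) x = 0
    simp only [kfc53, kfc53_11, cv1m, cv2m, cv3m, cv4m, cv5m, cv1p, cv2p, cv3p, cv4p, cv5p, cv1r, cv2r, cv3r, cv4r, cv5r, c1g_v, swg_v, c3g_v, swn_two, c1n_two, c3n_two, yc0]
    norm_num
  · show kfc63.v (c3n 2) x = 0
    simp only [kfc63, kcg, kcg_3, kcg_6, kcg_9, kcg_12, kcg_13, kcg_18, kcg_30, kcg_33, kcg_34, kcg_39, kcg_44, kcg_57, kcg_58, kcg_66, kcg_67, kcg_72, kcg_85, kcg_86, kcg_91, kcg_94, kcg_107, kcg_108, kcg_117, kcg_120, kcg_121, kcg_124, kcg_136, kcg_137, kcg_142, kcg_145, kcg_157, kcg_158, kcg_166, kcg_167, kcg_170, kcg_180, kcg_181, kcg_189, kcg_192, kcg_200, kcg_201, kcg_206, kcg_209, kcg_216, kcg_217, kcg_218, kcg_223, kcg_224, kcg_233, kcg_239, kcg_244, kcg_254, kcg_261, kcg_262, kcg_268, kcg_278, kcg_284, kcg_291, kcg_303, cv1m, cv2m, cv3m, cv4m, cv5m, cv1p, cv2p, cv3p, cv4p, cv5p, cv1r, cv2r, cv3r, cv4r, cv5r, c1g_v, swg_v, c3g_v,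 swn_two, c1n_two, c3n_two, yc0]
    norm_num
theorem thK0 {x : ℝ} (h : Pins PP tK x) : ∀ X y, InQ 0 y → 1 ≤ qqn X y → qqn X y ≤ 3 →
    thd PP tK 0 X y x = (pcB 0).K.v X y x := by
  intro X y hq k1 k3
  have hy0 := hq.nonneg
  have hy2 := hq.le_two
  have hyl := hq.1
  have hyr := hq.2
  have on0 : h0 * y < 1 := on_half (by linarith)
  refine third6 h hq (F := fun X => rkbq0.v X y x) (x0 := c1g.v y) (x1 := cv1m.v y) (x2 := cv2m.v y) (x3 := cv3m.v y) (x4 := cv4m.v y) (x5 := cv5m.v y) (x6 := c3g.v y)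
    (v0 := kf0q0.v y x) (v1 := kf1q0.v y x) (v2 := kf2q0.v y x) (v3 := kf3q0.v y x) (v4 := kf4q0.v y x) (v5 := kf5q0.v y x) (v6 := kf6q0.v y x)
    ?_ ?_ ?_ ?_ ?_ ?_ ?_ ?_ ?_ ?_ ?_ ?_ ?_ ?_ (fun X => rfl) ?_ ?_ ?_ ?_ ?_ ?_ k1 k3
  · rw [crv0]; rw [c1g_v]
  · exact ecv1q0
  · exact ecv2q0
  · exact ecv3q0
  · exact ecv4q0
  · exact ecv5q0
  · rw [crv6, c3g_v]
  · exact tbF_on ⟨hq, fun _ => on0⟩
  · exact tbF_on (onc hq (by decide))
  · exact tbF_on (onc hq (by decide))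
  · exact tbF_on (onc hq (by decide))
  · exact tbF_on (onc hq (by decide))
  · exact tbF_on (onc hq (by decide))
  · exact tbF_on (onc hq (by decide))
  · intro X g0 g1
    refine lin_of g0 g1 fun L hL hX => ?_
    simp only [rkbq0_47, rkbq0_49, rkbq0_50, rkbq0_53, rkbq0_54, rkbq0_55, rkbq0_63, rkbq0_69, rkbq0_73, rkbq0_74, kf5q0, kf6q0, kf3q0, kf3q0_4, kf3q0_144, kf3q0_145, kf3q0_148, kf3q0_149, kf3q0_150, kf3q0_158, kf3q0_167, bf3q0, bf3q0_3, kf2q0, kf0q0, kf0q0_9, kf0q0_12, kf1q0, lm0m_v, hL]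
    all_goals (clear hL; subst hX; ((try push_cast); all_goals (first | ring1 | (split_ifs <;> first | (exfalso; linarith) | ring1 | ((repeat first | erw [if_pos (by linarith)] | erw [if_neg (by linarith)]); ring1)))))
  · intro X g0 g1
    refine lin_of g0 g1 fun L hL hX => ?_
    simp only [rkbq0_47, rkbq0_49, rkbq0_50, rkbq0_53, rkbq0_54, rkbq0_55, rkbq0_63, rkbq0_69, rkbq0_73, rkbq0_74, kf5q0, kf6q0, kf3q0, kf3q0_4, kf3q0_144, kf3q0_145, kf3q0_148, kf3q0_149, kf3q0_150, kf3q0_158, kf3q0_167, bf3q0, bf3q0_3, kf2q0, kf0q0, kf0q0_9, kf0q0_12, kf1q0, lm1m_v, hL]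
    all_goals (clear hL; subst hX; ((try push_cast); all_goals (first | ring1 | (split_ifs <;> first | (exfalso; linarith) | ring1 | ((repeat first | erw [if_pos (by linarith)] | erw [if_neg (by linarith)]); ring1)))))
  · intro X g0 g1
    refine lin_of g0 g1 fun L hL hX => ?_
    simp only [rkbq0_47, rkbq0_49, rkbq0_50, rkbq0_53, rkbq0_54, rkbq0_55, rkbq0_63, rkbq0_69, rkbq0_73, rkbq0_74, kf5q0, kf6q0, kf3q0, kf3q0_4, kf3q0_144, kf3q0_145, kf3q0_148, kf3q0_149, kf3q0_150, kf3q0_158, kf3q0_167, bf3q0, bf3q0_3, kf2q0, kf0q0, kf0q0_9, kf0q0_12, lm2m_v, hL]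
    all_goals (clear hL; subst hX; ((try push_cast); all_goals (first | ring1 | (split_ifs <;> first | (exfalso; linarith) | ring1 | ((repeat first | erw [if_pos (by linarith)] | erw [if_neg (by linarith)]); ring1)))))
  · intro X g0 g1
    refine lin_of g0 g1 fun L hL hX => ?_
    simp only [rkbq0_47, rkbq0_49, rkbq0_50, rkbq0_53, rkbq0_54, rkbq0_55, rkbq0_63, rkbq0_69, rkbq0_73, rkbq0_74, kf5q0, kf6q0, kf3q0, kf3q0_4, kf3q0_144, kf3q0_145, kf3q0_148, kf3q0_149, kf3q0_150, kf3q0_158, kf3q0_167, bf3q0, bf3q0_3, kf2q0, kf0q0, kf0q0_9, kf0q0_12, kf4q0, lm3m_v, hL]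
    all_goals (clear hL; subst hX; ((try push_cast); all_goals (first | ring1 | (split_ifs <;> first | (exfalso; linarith) | ring1 | ((repeat first | erw [if_pos (by linarith)] | erw [if_neg (by linarith)]); ring1)))))
  · intro X g0 g1
    refine lin_of g0 g1 fun L hL hX => ?_
    simp only [rkbq0_47, rkbq0_49, rkbq0_50, rkbq0_53, rkbq0_54, rkbq0_55, rkbq0_63, rkbq0_69, rkbq0_73, rkbq0_74, kf5q0, kf6q0, kf3q0, kf3q0_4, kf3q0_144, kf3q0_145, kf3q0_148, kf3q0_149, kf3q0_150, kf3q0_158, kf3q0_167, bf3q0, bf3q0_3, kf2q0, kf0q0, kf0q0_9, kf0q0_12, kf4q0, lm4m_v, hL]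
    all_goals (clear hL; subst hX; ((try push_cast); all_goals (first | ring1 | (split_ifs <;> first | (exfalso; linarith) | ring1 | ((repeat first | erw [if_pos (by linarith)] | erw [if_neg (by linarith)]); ring1)))))
  · intro X g0 g1
    refine lin_of g0 g1 fun L hL hX => ?_
    simp only [rkbq0_47, rkbq0_49, rkbq0_50, rkbq0_53, rkbq0_54, rkbq0_55, rkbq0_63, rkbq0_69, rkbq0_73, rkbq0_74, kf5q0, kf6q0, kf3q0, kf3q0_4, kf3q0_144, kf3q0_145, kf3q0_148, kf3q0_149, kf3q0_150, kf3q0_158, kf3q0_167, bf3q0, bf3q0_3, kf2q0, kf0q0, kf0q0_9, kf0q0_12, lm5m_v, hL]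
    all_goals (clear hL; subst hX; ((try push_cast); all_goals (first | ring1 | (split_ifs <;> first | (exfalso; linarith) | ring1 | ((repeat first | erw [if_pos (by linarith)] | erw [if_neg (by linarith)]); ring1)))))
theorem thK1 {x : ℝ} (h : Pins PP tK x) : ∀ X y, InQ 1 y → 1 ≤ qqn X y → qqn X y ≤ 3 →
    thd PP tK 1 X y x = (pcB 1).K.v X y x := by
  intro X y hq k1 k3
  have hy0 := hq.nonneg
  have hy2 := hq.le_two
  have hyl := hq.1
  have hyr := hq.2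
  have on0 : h0 * y < 1 := on_half (by linarith)
  refine third6 h hq (F := fun X => rkbq1.v X y x) (x0 := c1g.v y) (x1 := cv1m.v y) (x2 := cv2m.v y) (x3 := cv3m.v y) (x4 := cv4m.v y) (x5 := cv5m.v y) (x6 := c3g.v y)
    (v0 := kf0q1.v y x) (v1 := kf1q1.v y x) (v2 := kf2q1.v y x) (v3 := kf3q1.v y x) (v4 := kf4q1.v y x) (v5 := kf5q1.v y x) (v6 := kf6q1.v y x)
    ?_ ?_ ?_ ?_ ?_ ?_ ?_ ?_ ?_ ?_ ?_ ?_ ?_ ?_ (fun X => rfl) ?_ ?_ ?_ ?_ ?_ ?_ k1 k3
  · rw [crv0]; rw [c1g_v]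
  · exact ecv1q1
  · exact ecv2q1
  · exact ecv3q1
  · exact ecv4q1
  · exact ecv5q1
  · rw [crv6, c3g_v]
  · exact tbF_on ⟨hq, fun _ => on0⟩
  · exact tbF_on (onc hq (by decide))
  · exact tbF_on (onc hq (by decide))
  · exact tbF_on (onc hq (by decide))
  · exact tbF_on (onc hq (by decide))
  · exact tbF_on (onc hq (by decide))
  · exact tbF_on (onc hq (by decide))
  · intro X g0 g1
    refine lin_of g0 g1 fun L hL hX => ?_
    simp only [kf5q1, kf6q1, kf0q1, kf0q1_10, kf1q1, lm0m_v, hL]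
    all_goals (clear hL; subst hX; ((try push_cast); all_goals (first | ring1 | (split_ifs <;> first | (exfalso; linarith) | ring1 | ((repeat first | erw [if_pos (by linarith)] | erw [if_neg (by linarith)]); ring1)))))
  · intro X g0 g1
    refine lin_of g0 g1 fun L hL hX => ?_
    simp only [kf5q1, kf6q1, kf0q1, kf0q1_10, kf1q1, kf2q1, lm1m_v, hL]
    all_goals (clear hL; subst hX; ((try push_cast); all_goals (first | ring1 | (split_ifs <;> first | (exfalso; linarith) | ring1 | ((repeat first | erw [if_pos (by linarith)] | erw [if_neg (by linarith)]); ring1)))))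
  · intro X g0 g1
    refine lin_of g0 g1 fun L hL hX => ?_
    simp only [kf5q1, kf6q1, kf0q1, kf0q1_10, kf2q1, kf3q1, lm2m_v, hL]
    all_goals (clear hL; subst hX; ((try push_cast); all_goals (first | ring1 | (split_ifs <;> first | (exfalso; linarith) | ring1 | ((repeat first | erw [if_pos (by linarith)] | erw [if_neg (by linarith)]); ring1)))))
  · intro X g0 g1
    refine lin_of g0 g1 fun L hL hX => ?_
    simp only [kf5q1, kf6q1, kf0q1, kf0q1_10, kf3q1, kf4q1, lm3m_v, hL]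
    all_goals (clear hL; subst hX; ((try push_cast); all_goals (first | ring1 | (split_ifs <;> first | (exfalso; linarith) | ring1 | ((repeat first | erw [if_pos (by linarith)] | erw [if_neg (by linarith)]); ring1)))))
  · intro X g0 g1
    refine lin_of g0 g1 fun L hL hX => ?_
    simp only [kf5q1, kf6q1, kf0q1, kf0q1_10, kf4q1, lm4m_v, hL]
    all_goals (clear hL; subst hX; ((try push_cast); all_goals (first | ring1 | (split_ifs <;> first | (exfalso; linarith) | ring1 | ((repeat first | erw [if_pos (by linarith)] | erw [if_neg (by linarith)]); ring1)))))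
  · intro X g0 g1
    refine lin_of g0 g1 fun L hL hX => ?_
    simp only [kf5q1, kf6q1, kf0q1, kf0q1_10, lm5m_v, hL]
    all_goals (clear hL; subst hX; ((try push_cast); all_goals (first | ring1 | (split_ifs <;> first | (exfalso; linarith) | ring1 | ((repeat first | erw [if_pos (by linarith)] | erw [if_neg (by linarith)]); ring1)))))
theorem thK2 {x : ℝ} (h : Pins PP tK x) : ∀ X y, InQ 2 y → 1 ≤ qqn X y → qqn X y ≤ 3 →
    thd PP tK 2 X y x = (pcB 2).K.v X y x := by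
  intro X y hq k1 k3
  have hy0 := hq.nonneg
  have hy2 := hq.le_two
  have hyl := hq.1
  have hyr := hq.2
  refine third6 h hq (F := fun X => rkbq2.v X y x) (x0 := c1g.v y) (x1 := cv1p.v y) (x2 := cv2p.v y) (x3 := cv3p.v y) (x4 := cv4p.v y) (x5 := cv5p.v y) (x6 := c3g.v y)
    (v0 := tK 0 2 y x) (v1 := kf1q2.v y x) (v2 := kf2q2.v y x) (v3 := kf3q2.v y x) (v4 := kf4q2.v y x) (v5 := kf5q2.v y x) (v6 := kf6q2.v y x)
    ?_ ?_ ?_ ?_ ?_ ?_ ?_ ?_ ?_ ?_ ?_ ?_ ?_ ?_ (fun X => rfl) ?_ ?_ ?_ ?_ ?_ ?_ k1 k3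
  · rw [crv0]; rw [c1g_v]
  · exact ecv1q2
  · exact ecv2q2
  · exact ecv3q2
  · exact ecv4q2
  · exact ecv5q2
  · rw [crv6, c3g_v]
  · rfl
  · exact tbF_on (onc hq (by decide))
  · exact tbF_on (onc hq (by decide))
  · exact tbF_on (onc hq (by decide))
  · exact tbF_on (onc hq (by decide))
  · exact tbF_on (onc hq (by decide))
  · exact tbF_on (onc hq (by decide))
  · intro X g0 g1
    refine lin_of g0 g1 fun L hL hX => ?_
    by_cases on : h0 * y < 1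
    · have e0 : tK 0 2 y x = kfc02.v (c1g.v y) x := by
        rw [c1g_v]; exact tbF_on ⟨hq, fun _ => on⟩
      have e1 : yag.v (c1g.v y) = y := by rw [c1g_v]; exact yag_v hy0 on
      have hlt := on_lt on
      obtain ⟨c0, c2⟩ := c1g_sq hy0 on
      rw [e0]
      rcases le_or_gt (y - (1149 : ℕ) / (1000 : ℕ)) 0 with c | c
      · simp only [rkbq2_62, rkbq2_64, kf5q2, kf6q2, kf0q2, n0b, kf1q2, kfc02, lm0p_v, hL, e1, if_pos c]
        all_goals (clear hL; subst hX; ((try push_cast); all_goals (first | ring1 | (split_ifs <;> first | (exfalso; linarith) | ring1 | ((repeat first | erw [if_pos (by linarith)] | erw [if_neg (by linarith)]); ring1)))))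
      · have hc1 : c1g.v y < 1 / 10 := by
          push_cast at c
          nlinarith
        have hc' : ¬ (y - (1149 : ℕ) / (1000 : ℕ) ≤ 0) := not_le.2 c
        have kn1 := kcg_near (p := -c1g.v y) (x := x) (by linarith) (by linarith)
        have kn2 := kcg_near (p := c1g.v y) (x := x) (by linarith) (by linarith)
        simp only [rkbq2_62, rkbq2_64, kf5q2, kf6q2, kf0q2, n0b, kf1q2, kfc02, lm0p_v, hL, e1, if_neg hc', abs_neg, abs_of_nonneg c0, neg_neg, kn1, kn2]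
        all_goals (clear hL; subst hX; (try push_cast); (try simp only [← c2]); ((try push_cast); all_goals (first | ring1 | (split_ifs <;> first | (exfalso; linarith) | ring1 | ((repeat first | erw [if_pos (by linarith)] | erw [if_neg (by linarith)]); ring1)))))
    · have off : 1 ≤ h0 * y := not_lt.1 on
      have hc := c1g_off off
      have e0 : tK 0 2 y x = 0 := tbF_off off
      have hlt := lt_off off
      simp only [rkbq2_62, rkbq2_64, kf5q2, kf6q2, kf0q2, n0b, kf1q2, lm0p_v, hL, hc, e0]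
      all_goals (clear hL; subst hX; (try simp only [hc]); ((try push_cast); all_goals (first | ring1 | (split_ifs <;> first | (exfalso; linarith) | ring1 | ((repeat first | erw [if_pos (by linarith)] | erw [if_neg (by linarith)]); ring1)))))
  · intro X g0 g1
    refine lin_of g0 g1 fun L hL hX => ?_
    simp only [rkbq2_62, rkbq2_64, kf5q2, kf6q2, kf0q2, n0b, kf1q2, kf2q2, lm1p_v, hL]
    all_goals (clear hL; subst hX; ((try push_cast); all_goals (first | ring1 | (split_ifs <;> first | (exfalso; linarith) | ring1 | ((repeat first | erw [if_pos (by linarith)] | erw [if_neg (by linarith)]); ring1)))))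
  · intro X g0 g1
    refine lin_of g0 g1 fun L hL hX => ?_
    simp only [rkbq2_62, rkbq2_64, kf5q2, kf6q2, kf0q2, n0b, kf2q2, kf3q2, lm2p_v, hL]
    all_goals (clear hL; subst hX; ((try push_cast); all_goals (first | ring1 | (split_ifs <;> first | (exfalso; linarith) | ring1 | ((repeat first | erw [if_pos (by linarith)] | erw [if_neg (by linarith)]); ring1)))))
  · intro X g0 g1
    refine lin_of g0 g1 fun L hL hX => ?_
    simp only [rkbq2_62, rkbq2_64, kf5q2, kf6q2, kf0q2, n0b, kf3q2, kf4q2, lm3p_v, hL]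
    all_goals (clear hL; subst hX; ((try push_cast); all_goals (first | ring1 | (split_ifs <;> first | (exfalso; linarith) | ring1 | ((repeat first | erw [if_pos (by linarith)] | erw [if_neg (by linarith)]); ring1)))))
  · intro X g0 g1
    refine lin_of g0 g1 fun L hL hX => ?_
    simp only [rkbq2_62, rkbq2_64, kf5q2, kf6q2, kf0q2, n0b, kf4q2, lm4p_v, hL]
    all_goals (clear hL; subst hX; ((try push_cast); all_goals (first | ring1 | (split_ifs <;> first | (exfalso; linarith) | ring1 | ((repeat first | erw [if_pos (by linarith)] | erw [if_neg (by linarith)]); ring1)))))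
  · intro X g0 g1
    refine lin_of g0 g1 fun L hL hX => ?_
    simp only [rkbq2_62, rkbq2_64, kf5q2, kf6q2, kf0q2, n0b, lm5p_v, hL]
    all_goals (clear hL; subst hX; ((try push_cast); all_goals (first | ring1 | (split_ifs <;> first | (exfalso; linarith) | ring1 | ((repeat first | erw [if_pos (by linarith)] | erw [if_neg (by linarith)]); ring1)))))
theorem thK3 {x : ℝ} (h : Pins PP tK x) : ∀ X y, InQ 3 y → 1 ≤ qqn X y → qqn X y ≤ 3 →
    thd PP tK 3 X y x = (pcB 3).K.v X y x := by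
  intro X y hq k1 k3
  have hy0 := hq.nonneg
  have hy2 := hq.le_two
  have hyl := hq.1
  have hyr := hq.2
  refine third6 h hq (F := fun X => rkbq3.v X y x) (x0 := 0) (x1 := cv1r.v y) (x2 := cv2r.v y) (x3 := cv3r.v y) (x4 := cv4r.v y) (x5 := cv5r.v y) (x6 := c3g.v y)
    (v0 := 0) (v1 := kf1q3.v y x) (v2 := kf2q3.v y x) (v3 := kf3q3.v y x) (v4 := kf4q3.v y x) (v5 := kf5q3.v y x) (v6 := kf6q3.v y x)
    ?_ ?_ ?_ ?_ ?_ ?_ ?_ ?_ ?_ ?_ ?_ ?_ ?_ ?_ (fun X => rfl) ?_ ?_ ?_ ?_ ?_ ?_ k1 k3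
  · rw [crv0]; exact c1n_off (off_y hyl)
  · exact ecv1q3 hyl
  · exact ecv2q3 hyl
  · exact ecv3q3 hyl
  · exact ecv4q3 hyl
  · exact ecv5q3 hyl
  · rw [crv6, c3g_v]
  · exact tbF_off (off_y hyl)
  · exact tbF_on (onc hq (by decide))
  · exact tbF_on (onc hq (by decide))
  · refine (tbF_on (onc hq (by decide))).trans ?_
    show kfc33.v (c3n y) x = _
    simp only [kf3q3, kf3q3_4, kf3q3_6, kf3q3_18, kf3q3_44, kf3q3_46, kf3q3_69, kf3q3_92, kf3q3_93, kf3q3_94, kf3q3_95, kf3q3_97, kf3q3_98, kf3q3_100, kf3q3_107, kf3q3_138, kf3q3_162, kf3q3_218, kfc33, kfc33_6, kfc33_9, kfc33_11, kfc33_13, kfc33_25, kfc33_50, kfc33_52, kfc33_75, kfc33_97, kfc33_98, kfc33_99, kfc33_100, kfc33_102, kfc33_103, kfc33_105, kfc33_112, kfc33_118, kfc33_143, kfc33_167, kfc33_223, ycg_v hy0 hy2, c3g_v, cv1r, cv2r, cv3r, cv4r, cv5r]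
    all_goals (try rfl)
  · refine (tbF_on (onc hq (by decide))).trans ?_
    show kfc43.v (c3n y) x = _
    simp only [kf4q3, kf4q3_4, kfc43, kfc43_11, ycg_v hy0 hy2, c3g_v, cv1r, cv2r, cv3r, cv4r, cv5r]
    all_goals (try rfl)
  · refine (tbF_on (onc hq (by decide))).trans ?_
    show kfc53.v (c3n y) x = _
    simp only [kf5q3, kf5q3_4, kfc53, kfc53_11, ycg_v hy0 hy2, c3g_v, cv1r, cv2r, cv3r, cv4r, cv5r]
    all_goals (try rfl)
  · refine (tbF_on (onc hq (by decide))).trans ?_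
    show kfc63.v (c3n y) x = _
    simp only [kf6q3, kfc63, ycg_v hy0 hy2, c3g_v, c3g_v]
    all_goals (try rfl)
  · intro X g0 g1
    refine lin_of g0 g1 fun L hL hX => ?_
    simp only [rkbq3_47, rkbq3_48, rkbq3_49, rkbq3_50, rkbq3_51, rkbq3_53, rkbq3_54, rkbq3_56, rkbq3_63, rkbq3_68, rkbq3_73, rkbq3_74, kf5q3, kf5q3_4, kf6q3, bf5q3, bf5q3_3, bf4q3, bf4q3_3, kf3q3, kf3q3_4, kf3q3_6, kf3q3_18, kf3q3_44, kf3q3_46, kf3q3_69, kf3q3_92, kf3q3_93, kf3q3_94, kf3q3_95, kf3q3_97, kf3q3_98, kf3q3_100, kf3q3_107, kf3q3_138, kf3q3_162, kf3q3_218, bf3q3, bf3q3_3, bf2q3, bf2q3_3, kf2q3, kf2q3_4, bf1q3, bf1q3_3, bf1q3_50, kf1q3, kf1q3_4, kf1q3_51, hL]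
    all_goals (clear hL; subst hX; ((try push_cast); all_goals (first | ring1 | (split_ifs <;> first | (exfalso; linarith) | ring1 | ((repeat first | erw [if_pos (by linarith)] | erw [if_neg (by linarith)]); ring1)))))
  · intro X g0 g1
    refine lin_of g0 g1 fun L hL hX => ?_
    simp only [rkbq3_47, rkbq3_48, rkbq3_49, rkbq3_50, rkbq3_51, rkbq3_53, rkbq3_54, rkbq3_56, rkbq3_63, rkbq3_68, rkbq3_73, rkbq3_74, kf5q3, kf5q3_4, kf6q3, bf5q3, bf5q3_3, bf4q3, bf4q3_3, kf3q3, kf3q3_4, kf3q3_6, kf3q3_18, kf3q3_44, kf3q3_46, kf3q3_69, kf3q3_92, kf3q3_93, kf3q3_94, kf3q3_95, kf3q3_97, kf3q3_98, kf3q3_100, kf3q3_107, kf3q3_138, kf3q3_162, kf3q3_218, bf3q3, bf3q3_3, bf2q3, bf2q3_3, kf2q3, kf2q3_4, bf1q3, bf1q3_3, bf1q3_50, kf1q3, kf1q3_4, kf1q3_51, lm1r_v, hL]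
    all_goals (clear hL; subst hX; ((try push_cast); all_goals (first | ring1 | (split_ifs <;> first | (exfalso; linarith) | ring1 | ((repeat first | erw [if_pos (by linarith)] | erw [if_neg (by linarith)]); ring1)))))
  · intro X g0 g1
    refine lin_of g0 g1 fun L hL hX => ?_
    simp only [rkbq3_47, rkbq3_48, rkbq3_49, rkbq3_50, rkbq3_51, rkbq3_53, rkbq3_54, rkbq3_56, rkbq3_63, rkbq3_68, rkbq3_73, rkbq3_74, kf5q3, kf5q3_4, kf6q3, bf5q3, bf5q3_3, bf4q3, bf4q3_3, kf3q3, kf3q3_4, kf3q3_6, kf3q3_18, kf3q3_44, kf3q3_46, kf3q3_69, kf3q3_92, kf3q3_93, kf3q3_94, kf3q3_95, kf3q3_97, kf3q3_98, kf3q3_100, kf3q3_107, kf3q3_138, kf3q3_162, kf3q3_218, bf3q3, bf3q3_3, bf2q3, bf2q3_3, kf2q3, kf2q3_4, bf1q3, bf1q3_3, bf1q3_50, lm2r_v, hL]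
    all_goals (clear hL; subst hX; ((try push_cast); all_goals (first | ring1 | (split_ifs <;> first | (exfalso; linarith) | ring1 | ((repeat first | erw [if_pos (by linarith)] | erw [if_neg (by linarith)]); ring1)))))
  · intro X g0 g1
    refine lin_of g0 g1 fun L hL hX => ?_
    simp only [rkbq3_47, rkbq3_48, rkbq3_49, rkbq3_50, rkbq3_51, rkbq3_53, rkbq3_54, rkbq3_56, rkbq3_63, rkbq3_68, rkbq3_73, rkbq3_74, kf5q3, kf5q3_4, kf6q3, bf5q3, bf5q3_3, bf4q3, bf4q3_3, kf3q3, kf3q3_4, kf3q3_6, kf3q3_18, kf3q3_44, kf3q3_46, kf3q3_69, kf3q3_92, kf3q3_93, kf3q3_94, kf3q3_95, kf3q3_97, kf3q3_98, kf3q3_100, kf3q3_107, kf3q3_138, kf3q3_162, kf3q3_218, bf3q3, bf3q3_3, bf2q3, bf2q3_3, kf2q3, kf2q3_4, bf1q3, bf1q3_3, bf1q3_50, kf4q3, kf4q3_4, lm3r_v, hL]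
    all_goals (clear hL; subst hX; ((try push_cast); all_goals (first | ring1 | (split_ifs <;> first | (exfalso; linarith) | ring1 | ((repeat first | erw [if_pos (by linarith)] | erw [if_neg (by linarith)]); ring1)))))
  · intro X g0 g1
    refine lin_of g0 g1 fun L hL hX => ?_
    simp only [rkbq3_47, rkbq3_48, rkbq3_49, rkbq3_50, rkbq3_51, rkbq3_53, rkbq3_54, rkbq3_56, rkbq3_63, rkbq3_68, rkbq3_73, rkbq3_74, kf5q3, kf5q3_4, kf6q3, bf5q3, bf5q3_3, bf4q3, bf4q3_3, kf3q3, kf3q3_4, kf3q3_6, kf3q3_18, kf3q3_44, kf3q3_46, kf3q3_69, kf3q3_92, kf3q3_93, kf3q3_94, kf3q3_95, kf3q3_97, kf3q3_98, kf3q3_100, kf3q3_107, kf3q3_138, kf3q3_162, kf3q3_218, bf3q3, bf3q3_3, bf2q3, bf2q3_3, kf2q3, kf2q3_4, bf1q3, bf1q3_3, bf1q3_50, kf4q3, kf4q3_4, lm4r_v, hL]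
    all_goals (clear hL; subst hX; ((try push_cast); all_goals (first | ring1 | (split_ifs <;> first | (exfalso; linarith) | ring1 | ((repeat first | erw [if_pos (by linarith)] | erw [if_neg (by linarith)]); ring1)))))
  · intro X g0 g1
    refine lin_of g0 g1 fun L hL hX => ?_
    simp only [rkbq3_47, rkbq3_48, rkbq3_49, rkbq3_50, rkbq3_51, rkbq3_53, rkbq3_54, rkbq3_56, rkbq3_63, rkbq3_68, rkbq3_73, rkbq3_74, kf5q3, kf5q3_4, kf6q3, bf5q3, bf5q3_3, bf4q3, bf4q3_3, kf3q3, kf3q3_4, kf3q3_6, kf3q3_18, kf3q3_44, kf3q3_46, kf3q3_69, kf3q3_92, kf3q3_93, kf3q3_94, kf3q3_95, kf3q3_97, kf3q3_98, kf3q3_100, kf3q3_107, kf3q3_138, kf3q3_162, kf3q3_218, bf3q3, bf3q3_3, bf2q3, bf2q3_3, kf2q3, kf2q3_4, bf1q3, bf1q3_3, bf1q3_50, lm5r_v, hL]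
    all_goals (clear hL; subst hX; ((try push_cast); all_goals (first | ring1 | (split_ifs <;> first | (exfalso; linarith) | ring1 | ((repeat first | erw [if_pos (by linarith)] | erw [if_neg (by linarith)]); ring1)))))
theorem pzeroL (x : ℝ) : ∀ j, PP.ρ j ≤ 1 → (ndB j 0).L.v (crd j 0 0) x = (ndB 0 0).L.v (crd 0 0 0) x := by
  intro j hj
  fin_cases j
  · rfl
  · show l1q0.v 0 x = l0q0.v 0 x
    simp only [l1q0, bx1q0, bx1q0_3, l0q0, txg, txg_4, txg_6, txg_26, txg_29, txg_32, txg_35, txg_38, txg_55, txg_58, txg_59, txg_77, txg_78, txg_86, txg_100, txg_101, txg_121, txg_122, txg_131, txg_134, txg_152, txg_153, txg_172, txg_173, txg_181, txg_196, txg_197, txg_216, txg_217, txg_227, txg_230, txg_233, txg_248, txg_249, txg_268, txg_269, txg_277, txg_292, txg_293, txg_312, txg_313, txg_322, txg_325, txg_337, txg_338, txg_354, txg_355, txg_363, txg_376, txg_377, txg_396, txg_397, txg_406, txg_408,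 txg_411, txg_413, txg_428, txg_429, txg_448, txg_449, txg_455, txg_470, txg_471, txg_490, txg_491, txg_498, txg_499, txg_512, txg_513, txg_531, txg_532, txg_538, txg_552, txg_553, txg_571, txg_572, txg_580, txg_581, txg_582, txg_598, txg_599, txg_617, txg_618, txg_624, txg_640, txg_641, txg_661, txg_662, txg_669, txg_670, txg_687, txg_688, txg_709, txg_710, txg_716, txg_733, txg_734, txg_753, txg_764, txg_765, txg_776, txg_777, txg_800, txg_801, txg_806, txg_821, txg_822, txg_843, txg_844, kcg, kcg_3, kcg_6, kcg_9, kcg_12, kcg_13, kcg_18, kcg_30, kcg_33, kcg_34, kcg_39, kcg_44, kcg_57, kcg_58, kcg_66, kcg_67, kcg_72, kcg_85, kcg_86, kcg_91, kcg_94, kcg_107, kcg_108, kcg_117, kcg_120, kcg_121, kcg_124, kcg_136, kcg_137, kcg_142, kcg_145, kcg_157, kcg_158, kcg_166, kcg_167, kcg_170, kcg_180, kcg_181, kcg_189, kcg_192, kcg_200, kcg_201, kcg_206, kcg_209, kcg_216, kcg_217, kcg_218, kcg_223, kcg_224,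 kcg_233, kcg_239, kcg_244, kcg_254, kcg_261, kcg_262, kcg_268, kcg_278, kcg_284, kcg_291, kcg_303, cv1m, cv2m, cv3m, cv4m, cv5m, cv1p, cv2p, cv3p, cv4p, cv5p, cv1r, cv2r, cv3r, cv4r, cv5r, c1g_v, swg_v, c3g_v, c1n_zero, swn_zero]
    ((try norm_num) <;> (try ring))
  · show l2q0.v 0 x = l0q0.v 0 x
    simp only [l2q0, bx2q0, bx2q0_3, l0q0, txg, txg_4, txg_6, txg_26, txg_29, txg_32, txg_35, txg_38, txg_55, txg_58, txg_59, txg_77, txg_78, txg_86, txg_100, txg_101, txg_121, txg_122, txg_131, txg_134, txg_152, txg_153, txg_172, txg_173, txg_181, txg_196, txg_197, txg_216, txg_217, txg_227, txg_230, txg_233, txg_248, txg_249, txg_268, txg_269, txg_277, txg_292, txg_293, txg_312, txg_313, txg_322, txg_325, txg_337, txg_338, txg_354, txg_355, txg_363, txg_376, txg_377, txg_396, txg_397, txg_406, txg_408, txg_411, txg_413, txg_428, txg_429, txg_448, txg_449, txg_455, txg_470, txg_471, txg_490, txg_491,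 txg_498, txg_499, txg_512, txg_513, txg_531, txg_532, txg_538, txg_552, txg_553, txg_571, txg_572, txg_580, txg_581, txg_582, txg_598, txg_599, txg_617, txg_618, txg_624, txg_640, txg_641, txg_661, txg_662, txg_669, txg_670, txg_687, txg_688, txg_709, txg_710, txg_716, txg_733, txg_734, txg_753, txg_764, txg_765, txg_776, txg_777, txg_800, txg_801, txg_806, txg_821, txg_822, txg_843, txg_844, kcg, kcg_3, kcg_6, kcg_9, kcg_12, kcg_13, kcg_18, kcg_30, kcg_33, kcg_34, kcg_39, kcg_44, kcg_57, kcg_58, kcg_66, kcg_67, kcg_72, kcg_85, kcg_86, kcg_91, kcg_94, kcg_107, kcg_108, kcg_117, kcg_120, kcg_121, kcg_124, kcg_136, kcg_137, kcg_142, kcg_145, kcg_157, kcg_158, kcg_166, kcg_167, kcg_170, kcg_180, kcg_181, kcg_189, kcg_192, kcg_200, kcg_201, kcg_206, kcg_209, kcg_216, kcg_217, kcg_218, kcg_223, kcg_224, kcg_233, kcg_239, kcg_244, kcg_254, kcg_261, kcg_262, kcg_268, kcg_278, kcg_284, kcg_291, kcg_303,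 cv1m, cv2m, cv3m, cv4m, cv5m, cv1p, cv2p, cv3p, cv4p, cv5p, cv1r, cv2r, cv3r, cv4r, cv5r, c1g_v, swg_v, c3g_v, c1n_zero, swn_zero]
    ((try norm_num) <;> (try ring))
  · exact absurd (show (2071 / 2000 : ℝ) ≤ 1 from hj) (by norm_num)
  · exact absurd (show (23 / 20 : ℝ) ≤ 1 from hj) (by norm_num)
  · exact absurd (show (17 / 10 : ℝ) ≤ 1 from hj) (by norm_num)
  · exact absurd (show (2 : ℝ) ≤ 1 from hj) (by norm_num)
theorem pmidL (x : ℝ) : ∀ j, PP.ρ j ≤ 1 → (ndB j 2).L.v (crd j 2 1) x = (ndB 0 2).L.v (crd 0 2 1) x := by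
  intro j hj
  fin_cases j
  · rfl
  · show l1q2.v 1 x = lc02.v (c1n 1) x
    simp only [l1q2, bx1q2, bx1q2_3, lc02, lc02_7, lc02_8, txg, txg_4, txg_6, txg_26, txg_29, txg_32, txg_35, txg_38, txg_55, txg_58, txg_59, txg_77, txg_78, txg_86, txg_100, txg_101, txg_121, txg_122, txg_131, txg_134, txg_152, txg_153, txg_172, txg_173, txg_181, txg_196, txg_197, txg_216, txg_217, txg_227, txg_230, txg_233, txg_248, txg_249, txg_268, txg_269, txg_277, txg_292, txg_293, txg_312, txg_313, txg_322, txg_325, txg_337, txg_338, txg_354, txg_355, txg_363, txg_376, txg_377, txg_396, txg_397, txg_406, txg_408, txg_411, txg_413, txg_428, txg_429, txg_448, txg_449, txg_455, txg_470, txg_471, txg_490, txg_491, txg_498, txg_499, txg_512, txg_513, txg_531, txg_532, txg_538, txg_552, txg_553, txg_571, txg_572, txg_580, txg_581, txg_582, txg_598, txg_599, txg_617, txg_618, txg_624, txg_640, txg_641, txg_661, txg_662,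 txg_669, txg_670, txg_687, txg_688, txg_709, txg_710, txg_716, txg_733, txg_734, txg_753, txg_764, txg_765, txg_776, txg_777, txg_800, txg_801, txg_806, txg_821, txg_822, txg_843, txg_844, kcg, kcg_3, kcg_6, kcg_9, kcg_12, kcg_13, kcg_18, kcg_30, kcg_33, kcg_34, kcg_39, kcg_44, kcg_57, kcg_58, kcg_66, kcg_67, kcg_72, kcg_85, kcg_86, kcg_91, kcg_94, kcg_107, kcg_108, kcg_117, kcg_120, kcg_121, kcg_124, kcg_136, kcg_137, kcg_142, kcg_145, kcg_157, kcg_158, kcg_166, kcg_167, kcg_170, kcg_180, kcg_181, kcg_189, kcg_192, kcg_200, kcg_201, kcg_206, kcg_209, kcg_216, kcg_217, kcg_218, kcg_223, kcg_224, kcg_233, kcg_239, kcg_244, kcg_254, kcg_261, kcg_262, kcg_268, kcg_278, kcg_284, kcg_291, kcg_303, cv1m, cv2m, cv3m, cv4m, cv5m, cv1p, cv2p, cv3p, cv4p, cv5p, cv1r, cv2r, cv3r, cv4r, cv5r, c1g_v, swg_v, c3g_v, c1n_one, swn_one, ya1]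
    ((try norm_num) <;> (try ring))
  · show l2q2.v 1 x = lc02.v (c1n 1) x
    simp only [l2q2, bx2q2, bx2q2_3, lc02, lc02_7, lc02_8, txg, txg_4, txg_6, txg_26, txg_29, txg_32, txg_35, txg_38, txg_55, txg_58, txg_59, txg_77, txg_78, txg_86, txg_100, txg_101, txg_121, txg_122, txg_131, txg_134, txg_152, txg_153, txg_172, txg_173, txg_181, txg_196, txg_197, txg_216, txg_217, txg_227, txg_230, txg_233, txg_248, txg_249, txg_268, txg_269, txg_277, txg_292, txg_293, txg_312, txg_313, txg_322, txg_325, txg_337, txg_338, txg_354, txg_355, txg_363, txg_376, txg_377, txg_396, txg_397, txg_406, txg_408, txg_411, txg_413, txg_428, txg_429, txg_448, txg_449, txg_455, txg_470, txg_471, txg_490, txg_491, txg_498, txg_499, txg_512, txg_513, txg_531, txg_532, txg_538, txg_552, txg_553, txg_571, txg_572, txg_580, txg_581, txg_582, txg_598, txg_599, txg_617, txg_618, txg_624, txg_640, txg_641, txg_661, txg_662,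 txg_669, txg_670, txg_687, txg_688, txg_709, txg_710, txg_716, txg_733, txg_734, txg_753, txg_764, txg_765, txg_776, txg_777, txg_800, txg_801, txg_806, txg_821, txg_822, txg_843, txg_844, kcg, kcg_3, kcg_6, kcg_9, kcg_12, kcg_13, kcg_18, kcg_30, kcg_33, kcg_34, kcg_39, kcg_44, kcg_57, kcg_58, kcg_66, kcg_67, kcg_72, kcg_85, kcg_86, kcg_91, kcg_94, kcg_107, kcg_108, kcg_117, kcg_120, kcg_121, kcg_124, kcg_136, kcg_137, kcg_142, kcg_145, kcg_157, kcg_158, kcg_166, kcg_167, kcg_170, kcg_180, kcg_181, kcg_189, kcg_192, kcg_200, kcg_201, kcg_206, kcg_209, kcg_216, kcg_217, kcg_218, kcg_223, kcg_224, kcg_233, kcg_239, kcg_244, kcg_254, kcg_261, kcg_262, kcg_268, kcg_278, kcg_284, kcg_291, kcg_303, cv1m, cv2m, cv3m, cv4m, cv5m, cv1p, cv2p, cv3p, cv4p, cv5p, cv1r, cv2r, cv3r, cv4r, cv5r, c1g_v, swg_v, c3g_v, c1n_one, swn_one, ya1]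
    ((try norm_num) <;> (try ring))
  · exact absurd (show (2071 / 2000 : ℝ) ≤ 1 from hj) (by norm_num)
  · exact absurd (show (23 / 20 : ℝ) ≤ 1 from hj) (by norm_num)
  · exact absurd (show (17 / 10 : ℝ) ≤ 1 from hj) (by norm_num)
  · exact absurd (show (2 : ℝ) ≤ 1 from hj) (by norm_num)
theorem ptopL (x : ℝ) : ∀ j, j ≠ 0 → (ndB j 3).L.v (crd j 3 2) x = 0 := by
  intro j hj
  fin_cases j
  · exact absurd rfl hj
  · show l1q3.v 2 x = 0
    simp only [l1q3, l1q3_4, cv1m, cv2m, cv3m, cv4m, cv5m, cv1p, cv2p, cv3p, cv4p, cv5p, cv1r, cv2r, cv3r, cv4r, cv5r, c1g_v, swg_v, c3g_v, swn_two, c1n_two, c3n_two, yc0]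
    norm_num
  · show l2q3.v 2 x = 0
    simp only [l2q3, l2q3_4, cv1m, cv2m, cv3m, cv4m, cv5m, cv1p, cv2p, cv3p, cv4p, cv5p, cv1r, cv2r, cv3r, cv4r, cv5r, c1g_v, swg_v, c3g_v, swn_two, c1n_two, c3n_two, yc0]
    norm_num
  · show lc33.v (c3n 2) x = 0
    simp only [lc33, lc33_6, lc33_9, lc33_11, lc33_13, lc33_25, lc33_50, lc33_57, lc33_59, lc33_87, lc33_110, lc33_123, lc33_148, lc33_172, lc33_224, kcg, kcg_3, kcg_6, kcg_9, kcg_12, kcg_13, kcg_18, kcg_30, kcg_33, kcg_34, kcg_39, kcg_44, kcg_57, kcg_58, kcg_66, kcg_67, kcg_72, kcg_85, kcg_86, kcg_91, kcg_94, kcg_107, kcg_108, kcg_117, kcg_120, kcg_121, kcg_124, kcg_136, kcg_137, kcg_142, kcg_145, kcg_157, kcg_158, kcg_166, kcg_167, kcg_170, kcg_180, kcg_181, kcg_189, kcg_192, kcg_200, kcg_201, kcg_206, kcg_209, kcg_216, kcg_217, kcg_218, kcg_223, kcg_224, kcg_233, kcg_239, kcg_244, kcg_254, kcg_261, kcg_262, kcg_268, kcg_278, kcg_284, kcg_291,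 kcg_303, cv1m, cv2m, cv3m, cv4m, cv5m, cv1p, cv2p, cv3p, cv4p, cv5p, cv1r, cv2r, cv3r, cv4r, cv5r, c1g_v, swg_v, c3g_v, swn_two, c1n_two, c3n_two, yc0]
    norm_num
  · show lc43.v (c3n 2) x = 0
    simp only [lc43, lc43_11, cv1m, cv2m, cv3m, cv4m, cv5m, cv1p, cv2p, cv3p, cv4p, cv5p, cv1r, cv2r, cv3r, cv4r, cv5r, c1g_v, swg_v, c3g_v, swn_two, c1n_two, c3n_two, yc0]
    norm_num
  · show lc53.v (c3n 2) x = 0
    simp only [lc53, lc53_11, cv1m, cv2m, cv3m, cv4m, cv5m, cv1p, cv2p, cv3p, cv4p, cv5p, cv1r, cv2r, cv3r, cv4r, cv5r, c1g_v, swg_v, c3g_v, swn_two, c1n_two, c3n_two, yc0]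
    norm_num
  · show lc63.v (c3n 2) x = 0
    simp only [lc63, lc63_7, lc63_8, lc63_9, lc63_12, lc63_14, txg, txg_4, txg_6, txg_26, txg_29, txg_32, txg_35, txg_38, txg_55, txg_58, txg_59, txg_77, txg_78, txg_86, txg_100, txg_101, txg_121, txg_122, txg_131, txg_134, txg_152, txg_153, txg_172, txg_173, txg_181, txg_196, txg_197, txg_216, txg_217, txg_227, txg_230, txg_233, txg_248, txg_249, txg_268, txg_269, txg_277, txg_292, txg_293, txg_312, txg_313, txg_322, txg_325, txg_337, txg_338, txg_354, txg_355, txg_363, txg_376, txg_377, txg_396, txg_397, txg_406, txg_408, txg_411, txg_413, txg_428, txg_429, txg_448, txg_449, txg_455, txg_470, txg_471, txg_490, txg_491, txg_498, txg_499, txg_512, txg_513, txg_531, txg_532, txg_538, txg_552, txg_553, txg_571, txg_572, txg_580, txg_581, txg_582, txg_598, txg_599, txg_617, txg_618, txg_624, txg_640, txg_641, txg_661, txg_662, txg_669, txg_670, txg_687,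 txg_688, txg_709, txg_710, txg_716, txg_733, txg_734, txg_753, txg_764, txg_765, txg_776, txg_777, txg_800, txg_801, txg_806, txg_821, txg_822, txg_843, txg_844, kcg, kcg_3, kcg_6, kcg_9, kcg_12, kcg_13, kcg_18, kcg_30, kcg_33, kcg_34, kcg_39, kcg_44, kcg_57, kcg_58, kcg_66, kcg_67, kcg_72, kcg_85, kcg_86, kcg_91, kcg_94, kcg_107, kcg_108, kcg_117, kcg_120, kcg_121, kcg_124, kcg_136, kcg_137, kcg_142, kcg_145, kcg_157, kcg_158, kcg_166, kcg_167, kcg_170, kcg_180, kcg_181, kcg_189, kcg_192, kcg_200, kcg_201, kcg_206, kcg_209, kcg_216, kcg_217, kcg_218, kcg_223, kcg_224, kcg_233, kcg_239, kcg_244, kcg_254, kcg_261, kcg_262, kcg_268, kcg_278, kcg_284, kcg_291, kcg_303, cv1m, cv2m, cv3m, cv4m, cv5m, cv1p, cv2p, cv3p, cv4p, cv5p, cv1r, cv2r, cv3r, cv4r, cv5r, c1g_v, swg_v, c3g_v, swn_two, c1n_two, c3n_two, yc0]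
    norm_num
theorem thL0 {x : ℝ} (h : Pins PP tL x) : ∀ X y, InQ 0 y → 1 ≤ qqn X y → qqn X y ≤ 3 →
    thd PP tL 0 X y x = (pcB 0).L.v X y x := by
  intro X y hq k1 k3
  have hy0 := hq.nonneg
  have hy2 := hq.le_two
  have hyl := hq.1
  have hyr := hq.2
  have on0 : h0 * y < 1 := on_half (by linarith)
  refine third6 h hq (F := fun X => rxq0.v X y x) (x0 := c1g.v y) (x1 := cv1m.v y) (x2 := cv2m.v y) (x3 := cv3m.v y) (x4 := cv4m.v y) (x5 := cv5m.v y) (x6 := c3g.v y)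
    (v0 := l0q0.v y x) (v1 := l1q0.v y x) (v2 := l2q0.v y x) (v3 := l3q0.v y x) (v4 := l4q0.v y x) (v5 := l5q0.v y x) (v6 := l6q0.v y x)
    ?_ ?_ ?_ ?_ ?_ ?_ ?_ ?_ ?_ ?_ ?_ ?_ ?_ ?_ (fun X => rfl) ?_ ?_ ?_ ?_ ?_ ?_ k1 k3
  · rw [crv0]; rw [c1g_v]
  · exact ecv1q0
  · exact ecv2q0
  · exact ecv3q0
  · exact ecv4q0
  · exact ecv5q0
  · rw [crv6, c3g_v]
  · exact tbF_on ⟨hq, fun _ => on0⟩
  · exact tbF_on (onc hq (by decide))
  · exact tbF_on (onc hq (by decide))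
  · exact tbF_on (onc hq (by decide))
  · exact tbF_on (onc hq (by decide))
  · exact tbF_on (onc hq (by decide))
  · exact tbF_on (onc hq (by decide))
  · intro X g0 g1
    refine lin_of g0 g1 fun L hL hX => ?_
    simp only [rxq0_47, rxq0_49, rxq0_61, rxq0_65, rxq0_66, l5q0, l6q0, l6q0_6, l6q0_7, l6q0_8, l3q0, l3q0_4, l3q0_52, l3q0_153, l3q0_168, bx3q0, bx3q0_3, bx3q0_51, l2q0, l0q0, l1q0, lm0m_v, hL]
    all_goals (clear hL; subst hX; ((try push_cast); all_goals (first | ring1 | (split_ifs <;> first | (exfalso; linarith) | ring1 | ((repeat first | erw [if_pos (by linarith)] | erw [if_neg (by linarith)]); ring1)))))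
  · intro X g0 g1
    refine lin_of g0 g1 fun L hL hX => ?_
    simp only [rxq0_47, rxq0_49, rxq0_61, rxq0_65, rxq0_66, l5q0, l6q0, l6q0_6, l6q0_7, l6q0_8, l3q0, l3q0_4, l3q0_52, l3q0_153, l3q0_168, bx3q0, bx3q0_3, bx3q0_51, l2q0, l0q0, l1q0, lm1m_v, hL]
    all_goals (clear hL; subst hX; ((try push_cast); all_goals (first | ring1 | (split_ifs <;> first | (exfalso; linarith) | ring1 | ((repeat first | erw [if_pos (by linarith)] | erw [if_neg (by linarith)]); ring1)))))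
  · intro X g0 g1
    refine lin_of g0 g1 fun L hL hX => ?_
    simp only [rxq0_47, rxq0_49, rxq0_61, rxq0_65, rxq0_66, l5q0, l6q0, l6q0_6, l6q0_7, l6q0_8, l3q0, l3q0_4, l3q0_52, l3q0_153, l3q0_168, bx3q0, bx3q0_3, bx3q0_51, l2q0, l0q0, lm2m_v, hL]
    all_goals (clear hL; subst hX; ((try push_cast); all_goals (first | ring1 | (split_ifs <;> first | (exfalso; linarith) | ring1 | ((repeat first | erw [if_pos (by linarith)] | erw [if_neg (by linarith)]); ring1)))))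
  · intro X g0 g1
    refine lin_of g0 g1 fun L hL hX => ?_
    simp only [rxq0_47, rxq0_49, rxq0_61, rxq0_65, rxq0_66, l5q0, l6q0, l6q0_6, l6q0_7, l6q0_8, l3q0, l3q0_4, l3q0_52, l3q0_153, l3q0_168, bx3q0, bx3q0_3, bx3q0_51, l2q0, l0q0, l4q0, lm3m_v, hL]
    all_goals (clear hL; subst hX; ((try push_cast); all_goals (first | ring1 | (split_ifs <;> first | (exfalso; linarith) | ring1 | ((repeat first | erw [if_pos (by linarith)] | erw [if_neg (by linarith)]); ring1)))))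
  · intro X g0 g1
    refine lin_of g0 g1 fun L hL hX => ?_
    simp only [rxq0_47, rxq0_49, rxq0_61, rxq0_65, rxq0_66, l5q0, l6q0, l6q0_6, l6q0_7, l6q0_8, l3q0, l3q0_4, l3q0_52, l3q0_153, l3q0_168, bx3q0, bx3q0_3, bx3q0_51, l2q0, l0q0, l4q0, lm4m_v, hL]
    all_goals (clear hL; subst hX; ((try push_cast); all_goals (first | ring1 | (split_ifs <;> first | (exfalso; linarith) | ring1 | ((repeat first | erw [if_pos (by linarith)] | erw [if_neg (by linarith)]); ring1)))))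
  · intro X g0 g1
    refine lin_of g0 g1 fun L hL hX => ?_
    simp only [rxq0_47, rxq0_49, rxq0_61, rxq0_65, rxq0_66, l5q0, l6q0, l6q0_6, l6q0_7, l6q0_8, l3q0, l3q0_4, l3q0_52, l3q0_153, l3q0_168, bx3q0, bx3q0_3, bx3q0_51, l2q0, l0q0, lm5m_v, hL]
    all_goals (clear hL; subst hX; ((try push_cast); all_goals (first | ring1 | (split_ifs <;> first | (exfalso; linarith) | ring1 | ((repeat first | erw [if_pos (by linarith)] | erw [if_neg (by linarith)]); ring1)))))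
theorem thL1 {x : ℝ} (h : Pins PP tL x) : ∀ X y, InQ 1 y → 1 ≤ qqn X y → qqn X y ≤ 3 →
    thd PP tL 1 X y x = (pcB 1).L.v X y x := by
  intro X y hq k1 k3
  have hy0 := hq.nonneg
  have hy2 := hq.le_two
  have hyl := hq.1
  have hyr := hq.2
  have on0 : h0 * y < 1 := on_half (by linarith)
  refine third6 h hq (F := fun X => rxq1.v X y x) (x0 := c1g.v y) (x1 := cv1m.v y) (x2 := cv2m.v y) (x3 := cv3m.v y) (x4 := cv4m.v y) (x5 := cv5m.v y) (x6 := c3g.v y)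
    (v0 := l0q1.v y x) (v1 := l1q1.v y x) (v2 := l2q1.v y x) (v3 := l3q1.v y x) (v4 := l4q1.v y x) (v5 := l5q1.v y x) (v6 := l6q1.v y x)
    ?_ ?_ ?_ ?_ ?_ ?_ ?_ ?_ ?_ ?_ ?_ ?_ ?_ ?_ (fun X => rfl) ?_ ?_ ?_ ?_ ?_ ?_ k1 k3
  · rw [crv0]; rw [c1g_v]
  · exact ecv1q1
  · exact ecv2q1
  · exact ecv3q1
  · exact ecv4q1
  · exact ecv5q1
  · rw [crv6, c3g_v]
  · exact tbF_on ⟨hq, fun _ => on0⟩
  · exact tbF_on (onc hq (by decide))
  · exact tbF_on (onc hq (by decide))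
  · exact tbF_on (onc hq (by decide))
  · exact tbF_on (onc hq (by decide))
  · exact tbF_on (onc hq (by decide))
  · exact tbF_on (onc hq (by decide))
  · intro X g0 g1
    refine lin_of g0 g1 fun L hL hX => ?_
    simp only [l5q1, l6q1, l6q1_7, l6q1_8, l6q1_9, l0q1, l1q1, lm0m_v, hL]
    all_goals (clear hL; subst hX; ((try push_cast); all_goals (first | ring1 | (split_ifs <;> first | (exfalso; linarith) | ring1 | ((repeat first | erw [if_pos (by linarith)] | erw [if_neg (by linarith)]); ring1)))))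
  · intro X g0 g1
    refine lin_of g0 g1 fun L hL hX => ?_
    simp only [l5q1, l6q1, l6q1_7, l6q1_8, l6q1_9, l0q1, l1q1, l2q1, lm1m_v, hL]
    all_goals (clear hL; subst hX; ((try push_cast); all_goals (first | ring1 | (split_ifs <;> first | (exfalso; linarith) | ring1 | ((repeat first | erw [if_pos (by linarith)] | erw [if_neg (by linarith)]); ring1)))))
  · intro X g0 g1
    refine lin_of g0 g1 fun L hL hX => ?_
    simp only [l5q1, l6q1, l6q1_7, l6q1_8, l6q1_9, l0q1, l2q1, l3q1, lm2m_v, hL]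
    all_goals (clear hL; subst hX; ((try push_cast); all_goals (first | ring1 | (split_ifs <;> first | (exfalso; linarith) | ring1 | ((repeat first | erw [if_pos (by linarith)] | erw [if_neg (by linarith)]); ring1)))))
  · intro X g0 g1
    refine lin_of g0 g1 fun L hL hX => ?_
    simp only [l5q1, l6q1, l6q1_7, l6q1_8, l6q1_9, l0q1, l3q1, l4q1, lm3m_v, hL]
    all_goals (clear hL; subst hX; ((try push_cast); all_goals (first | ring1 | (split_ifs <;> first | (exfalso; linarith) | ring1 | ((repeat first | erw [if_pos (by linarith)] | erw [if_neg (by linarith)]); ring1)))))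
  · intro X g0 g1
    refine lin_of g0 g1 fun L hL hX => ?_
    simp only [l5q1, l6q1, l6q1_7, l6q1_8, l6q1_9, l0q1, l4q1, lm4m_v, hL]
    all_goals (clear hL; subst hX; ((try push_cast); all_goals (first | ring1 | (split_ifs <;> first | (exfalso; linarith) | ring1 | ((repeat first | erw [if_pos (by linarith)] | erw [if_neg (by linarith)]); ring1)))))
  · intro X g0 g1
    refine lin_of g0 g1 fun L hL hX => ?_
    simp only [l5q1, l6q1, l6q1_7, l6q1_8, l6q1_9, l0q1, lm5m_v, hL]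
    all_goals (clear hL; subst hX; ((try push_cast); all_goals (first | ring1 | (split_ifs <;> first | (exfalso; linarith) | ring1 | ((repeat first | erw [if_pos (by linarith)] | erw [if_neg (by linarith)]); ring1)))))
theorem thL2 {x : ℝ} (h : Pins PP tL x) : ∀ X y, InQ 2 y → 1 ≤ qqn X y → qqn X y ≤ 3 →
    thd PP tL 2 X y x = (pcB 2).L.v X y x := by
  intro X y hq k1 k3
  have hy0 := hq.nonneg
  have hy2 := hq.le_two
  have hyl := hq.1
  have hyr := hq.2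
  refine third6 h hq (F := fun X => rxq2.v X y x) (x0 := c1g.v y) (x1 := cv1p.v y) (x2 := cv2p.v y) (x3 := cv3p.v y) (x4 := cv4p.v y) (x5 := cv5p.v y) (x6 := c3g.v y)
    (v0 := tL 0 2 y x) (v1 := l1q2.v y x) (v2 := l2q2.v y x) (v3 := l3q2.v y x) (v4 := l4q2.v y x) (v5 := l5q2.v y x) (v6 := l6q2.v y x)
    ?_ ?_ ?_ ?_ ?_ ?_ ?_ ?_ ?_ ?_ ?_ ?_ ?_ ?_ (fun X => rfl) ?_ ?_ ?_ ?_ ?_ ?_ k1 k3
  · rw [crv0]; rw [c1g_v]
  · exact ecv1q2
  · exact ecv2q2
  · exact ecv3q2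
  · exact ecv4q2
  · exact ecv5q2
  · rw [crv6, c3g_v]
  · rfl
  · exact tbF_on (onc hq (by decide))
  · exact tbF_on (onc hq (by decide))
  · exact tbF_on (onc hq (by decide))
  · exact tbF_on (onc hq (by decide))
  · exact tbF_on (onc hq (by decide))
  · exact tbF_on (onc hq (by decide))
  · intro X g0 g1
    refine lin_of g0 g1 fun L hL hX => ?_
    by_cases on : h0 * y < 1
    · have e0 : tL 0 2 y x = lc02.v (c1g.v y) x := by
        rw [c1g_v]; exact tbF_on ⟨hq, fun _ => on⟩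
      have e1 : yag.v (c1g.v y) = y := by rw [c1g_v]; exact yag_v hy0 on
      have hlt := on_lt on
      obtain ⟨c0, c2⟩ := c1g_sq hy0 on
      rw [e0]
      rcases le_or_gt (y - (1149 : ℕ) / (1000 : ℕ)) 0 with c | c
      · simp only [rxq2_62, rxq2_64, l5q2, l6q2, l6q2_7, l6q2_8, l6q2_9, l6q2_12, l6q2_14, l0q2, l0q2_7, l0q2_8, n0x, l1q2, lc02, lc02_7, lc02_8, lm0p_v, hL, e1, if_pos c]
        all_goals (clear hL; subst hX; ((try push_cast); all_goals (first | ring1 | (split_ifs <;> first | (exfalso; linarith) | ring1 | ((repeat first | erw [if_pos (by linarith)] | erw [if_neg (by linarith)]); ring1)))))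
      · have hc1 : c1g.v y < 1 / 10 := by
          push_cast at c
          nlinarith
        have hc' : ¬ (y - (1149 : ℕ) / (1000 : ℕ) ≤ 0) := not_le.2 c
        have tn1 := fun c' => txg_nearL (p := -c1g.v y) (c := c') (x := x) (by linarith) (by linarith)
        have tn2 := fun c' => txg_nearR (p := c1g.v y) (c := c') (x := x) (by linarith) (by linarith)
        simp only [rxq2_62, rxq2_64, l5q2, l6q2, l6q2_7, l6q2_8, l6q2_9, l6q2_12, l6q2_14, l0q2, l0q2_7, l0q2_8, n0x, l1q2, lc02, lc02_7, lc02_8, lm0p_v, hL, e1, if_neg hc', abs_neg, abs_of_nonneg c0, neg_neg, tn1, tn2]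
        all_goals (clear hL; subst hX; (try push_cast); (try simp only [← c2]); ((try push_cast); all_goals (first | ring1 | (split_ifs <;> first | (exfalso; linarith) | ring1 | ((repeat first | erw [if_pos (by linarith)] | erw [if_neg (by linarith)]); ring1)))))
    · have off : 1 ≤ h0 * y := not_lt.1 on
      have hc := c1g_off off
      have e0 : tL 0 2 y x = 0 := tbF_off off
      have hlt := lt_off off
      simp only [rxq2_62, rxq2_64, l5q2, l6q2, l6q2_7, l6q2_8, l6q2_9, l6q2_12, l6q2_14, l0q2, l0q2_7, l0q2_8, n0x, l1q2, lm0p_v, hL, hc, e0]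
      all_goals (clear hL; subst hX; (try simp only [hc]); ((try push_cast); all_goals (first | ring1 | (split_ifs <;> first | (exfalso; linarith) | ring1 | ((repeat first | erw [if_pos (by linarith)] | erw [if_neg (by linarith)]); ring1)))))
  · intro X g0 g1
    refine lin_of g0 g1 fun L hL hX => ?_
    simp only [rxq2_62, rxq2_64, l5q2, l6q2, l6q2_7, l6q2_8, l6q2_9, l6q2_12, l6q2_14, l0q2, l0q2_7, l0q2_8, n0x, l1q2, l2q2, lm1p_v, hL]
    all_goals (clear hL; subst hX; ((try push_cast); all_goals (first | ring1 | (split_ifs <;> first | (exfalso; linarith) | ring1 | ((repeat first | erw [if_pos (by linarith)] | erw [if_neg (by linarith)]); ring1)))))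
  · intro X g0 g1
    refine lin_of g0 g1 fun L hL hX => ?_
    simp only [rxq2_62, rxq2_64, l5q2, l6q2, l6q2_7, l6q2_8, l6q2_9, l6q2_12, l6q2_14, l0q2, l0q2_7, l0q2_8, n0x, l2q2, l3q2, lm2p_v, hL]
    all_goals (clear hL; subst hX; ((try push_cast); all_goals (first | ring1 | (split_ifs <;> first | (exfalso; linarith) | ring1 | ((repeat first | erw [if_pos (by linarith)] | erw [if_neg (by linarith)]); ring1)))))
  · intro X g0 g1
    refine lin_of g0 g1 fun L hL hX => ?_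
    simp only [rxq2_62, rxq2_64, l5q2, l6q2, l6q2_7, l6q2_8, l6q2_9, l6q2_12, l6q2_14, l0q2, l0q2_7, l0q2_8, n0x, l3q2, l4q2, lm3p_v, hL]
    all_goals (clear hL; subst hX; ((try push_cast); all_goals (first | ring1 | (split_ifs <;> first | (exfalso; linarith) | ring1 | ((repeat first | erw [if_pos (by linarith)] | erw [if_neg (by linarith)]); ring1)))))
  · intro X g0 g1
    refine lin_of g0 g1 fun L hL hX => ?_
    simp only [rxq2_62, rxq2_64, l5q2, l6q2, l6q2_7, l6q2_8, l6q2_9, l6q2_12, l6q2_14, l0q2, l0q2_7, l0q2_8, n0x, l4q2, lm4p_v, hL]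
    all_goals (clear hL; subst hX; ((try push_cast); all_goals (first | ring1 | (split_ifs <;> first | (exfalso; linarith) | ring1 | ((repeat first | erw [if_pos (by linarith)] | erw [if_neg (by linarith)]); ring1)))))
  · intro X g0 g1
    refine lin_of g0 g1 fun L hL hX => ?_
    simp only [rxq2_62, rxq2_64, l5q2, l6q2, l6q2_7, l6q2_8, l6q2_9, l6q2_12, l6q2_14, l0q2, l0q2_7, l0q2_8, n0x, lm5p_v, hL]
    all_goals (clear hL; subst hX; ((try push_cast); all_goals (first | ring1 | (split_ifs <;> first | (exfalso; linarith) | ring1 | ((repeat first | erw [if_pos (by linarith)] | erw [if_neg (by linarith)]); ring1)))))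
theorem thL3 {x : ℝ} (h : Pins PP tL x) : ∀ X y, InQ 3 y → 1 ≤ qqn X y → qqn X y ≤ 3 →
    thd PP tL 3 X y x = (pcB 3).L.v X y x := by
  intro X y hq k1 k3
  have hy0 := hq.nonneg
  have hy2 := hq.le_two
  have hyl := hq.1
  have hyr := hq.2
  refine third6 h hq (F := fun X => rxq3.v X y x) (x0 := 0) (x1 := cv1r.v y) (x2 := cv2r.v y) (x3 := cv3r.v y) (x4 := cv4r.v y) (x5 := cv5r.v y) (x6 := c3g.v y)
    (v0 := 0) (v1 := l1q3.v y x) (v2 := l2q3.v y x) (v3 := l3q3.v y x) (v4 := l4q3.v y x) (v5 := l5q3.v y x) (v6 := l6q3.v y x)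
    ?_ ?_ ?_ ?_ ?_ ?_ ?_ ?_ ?_ ?_ ?_ ?_ ?_ ?_ (fun X => rfl) ?_ ?_ ?_ ?_ ?_ ?_ k1 k3
  · rw [crv0]; exact c1n_off (off_y hyl)
  · exact ecv1q3 hyl
  · exact ecv2q3 hyl
  · exact ecv3q3 hyl
  · exact ecv4q3 hyl
  · exact ecv5q3 hyl
  · rw [crv6, c3g_v]
  · exact tbF_off (off_y hyl)
  · exact tbF_on (onc hq (by decide))
  · exact tbF_on (onc hq (by decide))
  · refine (tbF_on (onc hq (by decide))).trans ?_
    show lc33.v (c3n y) x = _
    simp only [l3q3, l3q3_4, l3q3_6, l3q3_18, l3q3_43, l3q3_51, l3q3_53, l3q3_81, l3q3_104, l3q3_142, l3q3_166, l3q3_218, lc33, lc33_6, lc33_9, lc33_11, lc33_13, lc33_25, lc33_50, lc33_57, lc33_59, lc33_87, lc33_110, lc33_123, lc33_148, lc33_172, lc33_224, ycg_v hy0 hy2, c3g_v, cv1r, cv2r, cv3r, cv4r, cv5r]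
    all_goals (try rfl)
  · refine (tbF_on (onc hq (by decide))).trans ?_
    show lc43.v (c3n y) x = _
    simp only [l4q3, l4q3_4, lc43, lc43_11, ycg_v hy0 hy2, c3g_v, cv1r, cv2r, cv3r, cv4r, cv5r]
    all_goals (try rfl)
  · refine (tbF_on (onc hq (by decide))).trans ?_
    show lc53.v (c3n y) x = _
    simp only [l5q3, l5q3_4, lc53, lc53_11, ycg_v hy0 hy2, c3g_v, cv1r, cv2r, cv3r, cv4r, cv5r]
    all_goals (try rfl)
  · refine (tbF_on (onc hq (by decide))).trans ?_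
    show lc63.v (c3n y) x = _
    simp only [l6q3, l6q3_7, l6q3_8, l6q3_9, l6q3_12, l6q3_14, lc63, lc63_7, lc63_8, lc63_9, lc63_12, lc63_14, ycg_v hy0 hy2, c3g_v, c3g_v]
    all_goals (try rfl)
  · intro X g0 g1
    refine lin_of g0 g1 fun L hL hX => ?_
    simp only [rxq3_47, rxq3_48, rxq3_60, rxq3_65, rxq3_66, l5q3, l5q3_4, l6q3, l6q3_7, l6q3_8, l6q3_9, l6q3_12, l6q3_14, bx5q3, bx5q3_3, bx4q3, bx4q3_3, l3q3, l3q3_4, l3q3_6, l3q3_18, l3q3_43, l3q3_51, l3q3_53, l3q3_81, l3q3_104, l3q3_142, l3q3_166, l3q3_218, bx3q3, bx3q3_3, bx3q3_42, bx2q3, bx2q3_3, l2q3, l2q3_4, bx1q3, bx1q3_3, l1q3, l1q3_4, hL]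
    all_goals (clear hL; subst hX; ((try push_cast); all_goals (first | ring1 | (split_ifs <;> first | (exfalso; linarith) | ring1 | ((repeat first | erw [if_pos (by linarith)] | erw [if_neg (by linarith)]); ring1)))))
  · intro X g0 g1
    refine lin_of g0 g1 fun L hL hX => ?_
    simp only [rxq3_47, rxq3_48, rxq3_60, rxq3_65, rxq3_66, l5q3, l5q3_4, l6q3, l6q3_7, l6q3_8, l6q3_9, l6q3_12, l6q3_14, bx5q3, bx5q3_3, bx4q3, bx4q3_3, l3q3, l3q3_4, l3q3_6, l3q3_18, l3q3_43, l3q3_51, l3q3_53, l3q3_81, l3q3_104, l3q3_142, l3q3_166, l3q3_218, bx3q3, bx3q3_3, bx3q3_42, bx2q3, bx2q3_3, l2q3, l2q3_4, bx1q3, bx1q3_3, l1q3, l1q3_4, lm1r_v, hL]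
    all_goals (clear hL; subst hX; ((try push_cast); all_goals (first | ring1 | (split_ifs <;> first | (exfalso; linarith) | ring1 | ((repeat first | erw [if_pos (by linarith)] | erw [if_neg (by linarith)]); ring1)))))
  · intro X g0 g1
    refine lin_of g0 g1 fun L hL hX => ?_
    simp only [rxq3_47, rxq3_48, rxq3_60, rxq3_65, rxq3_66, l5q3, l5q3_4, l6q3, l6q3_7, l6q3_8, l6q3_9, l6q3_12, l6q3_14, bx5q3, bx5q3_3, bx4q3, bx4q3_3, l3q3, l3q3_4, l3q3_6, l3q3_18, l3q3_43, l3q3_51, l3q3_53, l3q3_81, l3q3_104, l3q3_142, l3q3_166, l3q3_218, bx3q3, bx3q3_3, bx3q3_42, bx2q3, bx2q3_3, l2q3, l2q3_4, bx1q3, bx1q3_3, lm2r_v, hL]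
    all_goals (clear hL; subst hX; ((try push_cast); all_goals (first | ring1 | (split_ifs <;> first | (exfalso; linarith) | ring1 | ((repeat first | erw [if_pos (by linarith)] | erw [if_neg (by linarith)]); ring1)))))
  · intro X g0 g1
    refine lin_of g0 g1 fun L hL hX => ?_
    simp only [rxq3_47, rxq3_48, rxq3_60, rxq3_65, rxq3_66, l5q3, l5q3_4, l6q3, l6q3_7, l6q3_8, l6q3_9, l6q3_12, l6q3_14, bx5q3, bx5q3_3, bx4q3, bx4q3_3, l3q3, l3q3_4, l3q3_6, l3q3_18, l3q3_43, l3q3_51, l3q3_53, l3q3_81, l3q3_104, l3q3_142, l3q3_166, l3q3_218, bx3q3, bx3q3_3, bx3q3_42, bx2q3, bx2q3_3, l2q3, l2q3_4, bx1q3, bx1q3_3, l4q3, l4q3_4, lm3r_v, hL]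
    all_goals (clear hL; subst hX; ((try push_cast); all_goals (first | ring1 | (split_ifs <;> first | (exfalso; linarith) | ring1 | ((repeat first | erw [if_pos (by linarith)] | erw [if_neg (by linarith)]); ring1)))))
  · intro X g0 g1
    refine lin_of g0 g1 fun L hL hX => ?_
    simp only [rxq3_47, rxq3_48, rxq3_60, rxq3_65, rxq3_66, l5q3, l5q3_4, l6q3, l6q3_7, l6q3_8, l6q3_9, l6q3_12, l6q3_14, bx5q3, bx5q3_3, bx4q3, bx4q3_3, l3q3, l3q3_4, l3q3_6, l3q3_18, l3q3_43, l3q3_51, l3q3_53, l3q3_81, l3q3_104, l3q3_142, l3q3_166, l3q3_218, bx3q3, bx3q3_3, bx3q3_42, bx2q3, bx2q3_3, l2q3, l2q3_4, bx1q3, bx1q3_3, l4q3, l4q3_4, lm4r_v, hL]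
    all_goals (clear hL; subst hX; ((try push_cast); all_goals (first | ring1 | (split_ifs <;> first | (exfalso; linarith) | ring1 | ((repeat first | erw [if_pos (by linarith)] | erw [if_neg (by linarith)]); ring1)))))
  · intro X g0 g1
    refine lin_of g0 g1 fun L hL hX => ?_
    simp only [rxq3_47, rxq3_48, rxq3_60, rxq3_65, rxq3_66, l5q3, l5q3_4, l6q3, l6q3_7, l6q3_8, l6q3_9, l6q3_12, l6q3_14, bx5q3, bx5q3_3, bx4q3, bx4q3_3, l3q3, l3q3_4, l3q3_6, l3q3_18, l3q3_43, l3q3_51, l3q3_53, l3q3_81, l3q3_104, l3q3_142, l3q3_166, l3q3_218, bx3q3, bx3q3_3, bx3q3_42, bx2q3, bx2q3_3, l2q3, l2q3_4, bx1q3, bx1q3_3, lm5r_v, hL]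
    all_goals (clear hL; subst hX; ((try push_cast); all_goals (first | ring1 | (split_ifs <;> first | (exfalso; linarith) | ring1 | ((repeat first | erw [if_pos (by linarith)] | erw [if_neg (by linarith)]); ring1)))))
theorem pzeroU (x : ℝ) : ∀ j, PP.ρ j ≤ 1 → (nc j 0).v (crd j 0 0) x = (nc 0 0).v (crd 0 0 0) x := by
  intro j hj
  fin_cases j
  · rfl
  · show kc1q0.v 0 x = kc0q0.v 0 x
    simp only [kc1q0, bd1q0, bd1q0_3, kc0q0, kc0q0_3, kc0q0_8, cv1m, cv2m, cv3m, cv4m, cv5m, cv1p, cv2p, cv3p, cv4p, cv5p, cv1r, cv2r, cv3r, cv4r, cv5r, c1g_v, swg_v, c3g_v, c1n_zero, swn_zero]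
    ((try norm_num) <;> (try ring))
  · show kc2q0.v 0 x = kc0q0.v 0 x
    simp only [kc2q0, bd2q0, bd2q0_3, kc0q0, kc0q0_3, kc0q0_8, cv1m, cv2m, cv3m, cv4m, cv5m, cv1p, cv2p, cv3p, cv4p, cv5p, cv1r, cv2r, cv3r, cv4r, cv5r, c1g_v, swg_v, c3g_v, c1n_zero, swn_zero]
    ((try norm_num) <;> (try ring))
  · exact absurd (show (2071 / 2000 : ℝ) ≤ 1 from hj) (by norm_num)
  · exact absurd (show (23 / 20 : ℝ) ≤ 1 from hj) (by norm_num)
  · exact absurd (show (17 / 10 : ℝ) ≤ 1 from hj) (by norm_num)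
  · exact absurd (show (2 : ℝ) ≤ 1 from hj) (by norm_num)
theorem pmidU (x : ℝ) : ∀ j, PP.ρ j ≤ 1 → (nc j 2).v (crd j 2 1) x = (nc 0 2).v (crd 0 2 1) x := by
  intro j hj
  fin_cases j
  · rfl
  · show kc1q2.v 1 x = kcc02.v (c1n 1) x
    simp only [kc1q2, bd1q2, bd1q2_3, kcc02, kcc02_4, kcc02_19, cv1m, cv2m, cv3m, cv4m, cv5m, cv1p, cv2p, cv3p, cv4p, cv5p, cv1r, cv2r, cv3r, cv4r, cv5r, c1g_v, swg_v, c3g_v, c1n_one, swn_one, ya1]
    ((try norm_num) <;> (try ring))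
  · show kc2q2.v 1 x = kcc02.v (c1n 1) x
    simp only [kc2q2, bd2q2, bd2q2_3, kcc02, kcc02_4, kcc02_19, cv1m, cv2m, cv3m, cv4m, cv5m, cv1p, cv2p, cv3p, cv4p, cv5p, cv1r, cv2r, cv3r, cv4r, cv5r, c1g_v, swg_v, c3g_v, c1n_one, swn_one, ya1]
    ((try norm_num) <;> (try ring))
  · exact absurd (show (2071 / 2000 : ℝ) ≤ 1 from hj) (by norm_num)
  · exact absurd (show (23 / 20 : ℝ) ≤ 1 from hj) (by norm_num)
  · exact absurd (show (17 / 10 : ℝ) ≤ 1 from hj) (by norm_num)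
  · exact absurd (show (2 : ℝ) ≤ 1 from hj) (by norm_num)
theorem ptopU (x : ℝ) : ∀ j, j ≠ 0 → (nc j 3).v (crd j 3 2) x = 0 := by
  intro j hj
  fin_cases j
  · exact absurd rfl hj
  · show kc1q3.v 2 x = 0
    simp only [kc1q3, kc1q3_4, cv1m, cv2m, cv3m, cv4m, cv5m, cv1p, cv2p, cv3p, cv4p, cv5p, cv1r, cv2r, cv3r, cv4r, cv5r, c1g_v, swg_v, c3g_v, swn_two, c1n_two, c3n_two, yc0]
    norm_num
  · show kc2q3.v 2 x = 0
    simp only [kc2q3, kc2q3_4, cv1m, cv2m, cv3m, cv4m, cv5m, cv1p, cv2p, cv3p, cv4p, cv5p, cv1r, cv2r, cv3r, cv4r, cv5r, c1g_v, swg_v, c3g_v, swn_two, c1n_two, c3n_two, yc0]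
    norm_num
  · show kcc33.v (c3n 2) x = 0
    simp only [kcc33, kcc33_6, kcc33_9, kcc33_11, kcc33_33, kcc33_34, kcc33_38, kcc33_43, kcc33_45, kcc33_46, kcc33_72, kcc33_76, kcc33_99, kcc33_121, kcg, kcg_3, kcg_6, kcg_9, kcg_12, kcg_13, kcg_18, kcg_30, kcg_33, kcg_34, kcg_39, kcg_44, kcg_57, kcg_58, kcg_66, kcg_67, kcg_72, kcg_85, kcg_86, kcg_91, kcg_94, kcg_107, kcg_108, kcg_117, kcg_120, kcg_121, kcg_124, kcg_136, kcg_137, kcg_142, kcg_145, kcg_157, kcg_158, kcg_166, kcg_167, kcg_170, kcg_180, kcg_181, kcg_189, kcg_192, kcg_200, kcg_201, kcg_206, kcg_209, kcg_216, kcg_217, kcg_218, kcg_223, kcg_224, kcg_233, kcg_239, kcg_244, kcg_254, kcg_261, kcg_262, kcg_268, kcg_278, kcg_284, kcg_291, kcg_303, cv1m, cv2m, cv3m, cv4m, cv5m, cv1p, cv2p, cv3p, cv4p, cv5p, cv1r, cv2r, cv3r, cv4r, cv5r, c1g_v, swg_v, c3g_v, swn_two, c1n_two, c3n_two, yc0]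
    norm_num
  · show kcc43.v (c3n 2) x = 0
    simp only [kcc43, kcc43_11, kcc43_32, cv1m, cv2m, cv3m, cv4m, cv5m, cv1p, cv2p, cv3p, cv4p, cv5p, cv1r, cv2r, cv3r, cv4r, cv5r, c1g_v, swg_v, c3g_v, swn_two, c1n_two, c3n_two, yc0]
    norm_num
  · show kcc53.v (c3n 2) x = 0
    simp only [kcc53, kcc53_11, kcc53_33, cv1m, cv2m, cv3m, cv4m, cv5m, cv1p, cv2p, cv3p, cv4p, cv5p, cv1r, cv2r, cv3r, cv4r, cv5r, c1g_v, swg_v, c3g_v, swn_two, c1n_two, c3n_two, yc0]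
    norm_num
  · show kcc63.v (c3n 2) x = 0
    simp only [kcc63, kcc63_4, kcc63_9, kcc63_26, kcc63_45, cv1m, cv2m, cv3m, cv4m, cv5m, cv1p, cv2p, cv3p, cv4p, cv5p, cv1r, cv2r, cv3r, cv4r, cv5r, c1g_v, swg_v, c3g_v, swn_two, c1n_two, c3n_two, yc0]
    norm_num
theorem thU0 {x : ℝ} (h : Pins PP tU x) : ∀ X y, InQ 0 y → 1 ≤ qqn X y → qqn X y ≤ 3 →
    thd PP tU 0 X y x = (pd 0).v X y x := by
  intro X y hq k1 k3
  have hy0 := hq.nonneg
  have hy2 := hq.le_two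
  have hyl := hq.1
  have hyr := hq.2
  have on0 : h0 * y < 1 := on_half (by linarith)
  refine third6 h hq (F := fun X => rcq0.v X y x) (x0 := c1g.v y) (x1 := cv1m.v y) (x2 := cv2m.v y) (x3 := cv3m.v y) (x4 := cv4m.v y) (x5 := cv5m.v y) (x6 := c3g.v y)
    (v0 := kc0q0.v y x) (v1 := kc1q0.v y x) (v2 := kc2q0.v y x) (v3 := kc3q0.v y x) (v4 := kc4q0.v y x) (v5 := kc5q0.v y x) (v6 := kc6q0.v y x)
    ?_ ?_ ?_ ?_ ?_ ?_ ?_ ?_ ?_ ?_ ?_ ?_ ?_ ?_ (fun X => rfl) ?_ ?_ ?_ ?_ ?_ ?_ k1 k3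
  · rw [crv0]; rw [c1g_v]
  · exact ecv1q0
  · exact ecv2q0
  · exact ecv3q0
  · exact ecv4q0
  · exact ecv5q0
  · rw [crv6, c3g_v]
  · exact tbF_on ⟨hq, fun _ => on0⟩
  · exact tbF_on (onc hq (by decide))
  · exact tbF_on (onc hq (by decide))
  · exact tbF_on (onc hq (by decide))
  · exact tbF_on (onc hq (by decide))
  · exact tbF_on (onc hq (by decide))
  · exact tbF_on (onc hq (by decide))
  · intro X g0 g1
    refine lin_of g0 g1 fun L hL hX => ?_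
    simp only [rcq0_47, rcq0_49, rcq0_50, rcq0_54, rcq0_58, rcq0_60, rcq0_61, rcq0_88, rcq0_91, rcq0_92, kc5q0, kc6q0, kc6q0_3, kc6q0_6, kc3q0, kc3q0_4, kc3q0_46, kc3q0_47, kc3q0_51, kc3q0_55, kc3q0_57, kc3q0_58, kc3q0_88, bd3q0, bd3q0_3, kc2q0, kc0q0, kc0q0_3, kc0q0_8, kc1q0, lm0m_v, hL]
    all_goals (clear hL; subst hX; ((try push_cast); all_goals (first | ring1 | (split_ifs <;> first | (exfalso; linarith) | ring1 | ((repeat first | erw [if_pos (by linarith)] | erw [if_neg (by linarith)]); ring1)))))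
  · intro X g0 g1
    refine lin_of g0 g1 fun L hL hX => ?_
    simp only [rcq0_47, rcq0_49, rcq0_50, rcq0_54, rcq0_58, rcq0_60, rcq0_61, rcq0_88, rcq0_91, rcq0_92, kc5q0, kc6q0, kc6q0_3, kc6q0_6, kc3q0, kc3q0_4, kc3q0_46, kc3q0_47, kc3q0_51, kc3q0_55, kc3q0_57, kc3q0_58, kc3q0_88, bd3q0, bd3q0_3, kc2q0, kc0q0, kc0q0_3, kc0q0_8, kc1q0, lm1m_v, hL]
    all_goals (clear hL; subst hX; ((try push_cast); all_goals (first | ring1 | (split_ifs <;> first | (exfalso; linarith) | ring1 | ((repeat first | erw [if_pos (by linarith)] | erw [if_neg (by linarith)]); ring1)))))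
  · intro X g0 g1
    refine lin_of g0 g1 fun L hL hX => ?_
    simp only [rcq0_47, rcq0_49, rcq0_50, rcq0_54, rcq0_58, rcq0_60, rcq0_61, rcq0_88, rcq0_91, rcq0_92, kc5q0, kc6q0, kc6q0_3, kc6q0_6, kc3q0, kc3q0_4, kc3q0_46, kc3q0_47, kc3q0_51, kc3q0_55, kc3q0_57, kc3q0_58, kc3q0_88, bd3q0, bd3q0_3, kc2q0, kc0q0, kc0q0_3, kc0q0_8, lm2m_v, hL]
    all_goals (clear hL; subst hX; ((try push_cast); all_goals (first | ring1 | (split_ifs <;> first | (exfalso; linarith) | ring1 | ((repeat first | erw [if_pos (by linarith)] | erw [if_neg (by linarith)]); ring1)))))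
  · intro X g0 g1
    refine lin_of g0 g1 fun L hL hX => ?_
    simp only [rcq0_47, rcq0_49, rcq0_50, rcq0_54, rcq0_58, rcq0_60, rcq0_61, rcq0_88, rcq0_91, rcq0_92, kc5q0, kc6q0, kc6q0_3, kc6q0_6, kc3q0, kc3q0_4, kc3q0_46, kc3q0_47, kc3q0_51, kc3q0_55, kc3q0_57, kc3q0_58, kc3q0_88, bd3q0, bd3q0_3, kc2q0, kc0q0, kc0q0_3, kc0q0_8, kc4q0, lm3m_v, hL]
    all_goals (clear hL; subst hX; ((try push_cast); all_goals (first | ring1 | (split_ifs <;> first | (exfalso; linarith) | ring1 | ((repeat first | erw [if_pos (by linarith)] | erw [if_neg (by linarith)]); ring1)))))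
  · intro X g0 g1
    refine lin_of g0 g1 fun L hL hX => ?_
    simp only [rcq0_47, rcq0_49, rcq0_50, rcq0_54, rcq0_58, rcq0_60, rcq0_61, rcq0_88, rcq0_91, rcq0_92, kc5q0, kc6q0, kc6q0_3, kc6q0_6, kc3q0, kc3q0_4, kc3q0_46, kc3q0_47, kc3q0_51, kc3q0_55, kc3q0_57, kc3q0_58, kc3q0_88, bd3q0, bd3q0_3, kc2q0, kc0q0, kc0q0_3, kc0q0_8, kc4q0, lm4m_v, hL]
    all_goals (clear hL; subst hX; ((try push_cast); all_goals (first | ring1 | (split_ifs <;> first | (exfalso; linarith) | ring1 | ((repeat first | erw [if_pos (by linarith)] | erw [if_neg (by linarith)]); ring1)))))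
  · intro X g0 g1
    refine lin_of g0 g1 fun L hL hX => ?_
    simp only [rcq0_47, rcq0_49, rcq0_50, rcq0_54, rcq0_58, rcq0_60, rcq0_61, rcq0_88, rcq0_91, rcq0_92, kc5q0, kc6q0, kc6q0_3, kc6q0_6, kc3q0, kc3q0_4, kc3q0_46, kc3q0_47, kc3q0_51, kc3q0_55, kc3q0_57, kc3q0_58, kc3q0_88, bd3q0, bd3q0_3, kc2q0, kc0q0, kc0q0_3, kc0q0_8, lm5m_v, hL]
    all_goals (clear hL; subst hX; ((try push_cast); all_goals (first | ring1 | (split_ifs <;> first | (exfalso; linarith) | ring1 | ((repeat first | erw [if_pos (by linarith)] | erw [if_neg (by linarith)]); ring1)))))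
theorem thU1 {x : ℝ} (h : Pins PP tU x) : ∀ X y, InQ 1 y → 1 ≤ qqn X y → qqn X y ≤ 3 →
    thd PP tU 1 X y x = (pd 1).v X y x := by
  intro X y hq k1 k3
  have hy0 := hq.nonneg
  have hy2 := hq.le_two
  have hyl := hq.1
  have hyr := hq.2
  have on0 : h0 * y < 1 := on_half (by linarith)
  refine third6 h hq (F := fun X => rcq1.v X y x) (x0 := c1g.v y) (x1 := cv1m.v y) (x2 := cv2m.v y) (x3 := cv3m.v y) (x4 := cv4m.v y) (x5 := cv5m.v y) (x6 := c3g.v y)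
    (v0 := kc0q1.v y x) (v1 := kc1q1.v y x) (v2 := kc2q1.v y x) (v3 := kc3q1.v y x) (v4 := kc4q1.v y x) (v5 := kc5q1.v y x) (v6 := kc6q1.v y x)
    ?_ ?_ ?_ ?_ ?_ ?_ ?_ ?_ ?_ ?_ ?_ ?_ ?_ ?_ (fun X => rfl) ?_ ?_ ?_ ?_ ?_ ?_ k1 k3
  · rw [crv0]; rw [c1g_v]
  · exact ecv1q1
  · exact ecv2q1
  · exact ecv3q1
  · exact ecv4q1
  · exact ecv5q1
  · rw [crv6, c3g_v]
  · exact tbF_on ⟨hq, fun _ => on0⟩
  · exact tbF_on (onc hq (by decide))
  · exact tbF_on (onc hq (by decide))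
  · exact tbF_on (onc hq (by decide))
  · exact tbF_on (onc hq (by decide))
  · exact tbF_on (onc hq (by decide))
  · exact tbF_on (onc hq (by decide))
  · intro X g0 g1
    refine lin_of g0 g1 fun L hL hX => ?_
    simp only [kc5q1, kc6q1, kc6q1_3, kc6q1_7, kc0q1, kc0q1_3, kc0q1_9, kc1q1, lm0m_v, hL]
    all_goals (clear hL; subst hX; ((try push_cast); all_goals (first | ring1 | (split_ifs <;> first | (exfalso; linarith) | ring1 | ((repeat first | erw [if_pos (by linarith)] | erw [if_neg (by linarith)]); ring1)))))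
  · intro X g0 g1
    refine lin_of g0 g1 fun L hL hX => ?_
    simp only [kc5q1, kc6q1, kc6q1_3, kc6q1_7, kc0q1, kc0q1_3, kc0q1_9, kc1q1, kc2q1, lm1m_v, hL]
    all_goals (clear hL; subst hX; ((try push_cast); all_goals (first | ring1 | (split_ifs <;> first | (exfalso; linarith) | ring1 | ((repeat first | erw [if_pos (by linarith)] | erw [if_neg (by linarith)]); ring1)))))
  · intro X g0 g1
    refine lin_of g0 g1 fun L hL hX => ?_
    simp only [kc5q1, kc6q1, kc6q1_3, kc6q1_7, kc0q1, kc0q1_3, kc0q1_9, kc2q1, kc3q1, lm2m_v, hL]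
    all_goals (clear hL; subst hX; ((try push_cast); all_goals (first | ring1 | (split_ifs <;> first | (exfalso; linarith) | ring1 | ((repeat first | erw [if_pos (by linarith)] | erw [if_neg (by linarith)]); ring1)))))
  · intro X g0 g1
    refine lin_of g0 g1 fun L hL hX => ?_
    simp only [kc5q1, kc6q1, kc6q1_3, kc6q1_7, kc0q1, kc0q1_3, kc0q1_9, kc3q1, kc4q1, lm3m_v, hL]
    all_goals (clear hL; subst hX; ((try push_cast); all_goals (first | ring1 | (split_ifs <;> first | (exfalso; linarith) | ring1 | ((repeat first | erw [if_pos (by linarith)] | erw [if_neg (by linarith)]); ring1)))))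
  · intro X g0 g1
    refine lin_of g0 g1 fun L hL hX => ?_
    simp only [kc5q1, kc6q1, kc6q1_3, kc6q1_7, kc0q1, kc0q1_3, kc0q1_9, kc4q1, lm4m_v, hL]
    all_goals (clear hL; subst hX; ((try push_cast); all_goals (first | ring1 | (split_ifs <;> first | (exfalso; linarith) | ring1 | ((repeat first | erw [if_pos (by linarith)] | erw [if_neg (by linarith)]); ring1)))))
  · intro X g0 g1
    refine lin_of g0 g1 fun L hL hX => ?_
    simp only [kc5q1, kc6q1, kc6q1_3, kc6q1_7, kc0q1, kc0q1_3, kc0q1_9, lm5m_v, hL]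
    all_goals (clear hL; subst hX; ((try push_cast); all_goals (first | ring1 | (split_ifs <;> first | (exfalso; linarith) | ring1 | ((repeat first | erw [if_pos (by linarith)] | erw [if_neg (by linarith)]); ring1)))))
theorem thU2 {x : ℝ} (h : Pins PP tU x) : ∀ X y, InQ 2 y → 1 ≤ qqn X y → qqn X y ≤ 3 →
    thd PP tU 2 X y x = (pd 2).v X y x := by
  intro X y hq k1 k3
  have hy0 := hq.nonneg
  have hy2 := hq.le_two
  have hyl := hq.1
  have hyr := hq.2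
  refine third6 h hq (F := fun X => rcq2.v X y x) (x0 := c1g.v y) (x1 := cv1p.v y) (x2 := cv2p.v y) (x3 := cv3p.v y) (x4 := cv4p.v y) (x5 := cv5p.v y) (x6 := c3g.v y)
    (v0 := tU 0 2 y x) (v1 := kc1q2.v y x) (v2 := kc2q2.v y x) (v3 := kc3q2.v y x) (v4 := kc4q2.v y x) (v5 := kc5q2.v y x) (v6 := kc6q2.v y x)
    ?_ ?_ ?_ ?_ ?_ ?_ ?_ ?_ ?_ ?_ ?_ ?_ ?_ ?_ (fun X => rfl) ?_ ?_ ?_ ?_ ?_ ?_ k1 k3
  · rw [crv0]; rw [c1g_v]
  · exact ecv1q2
  · exact ecv2q2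
  · exact ecv3q2
  · exact ecv4q2
  · exact ecv5q2
  · rw [crv6, c3g_v]
  · rfl
  · exact tbF_on (onc hq (by decide))
  · exact tbF_on (onc hq (by decide))
  · exact tbF_on (onc hq (by decide))
  · exact tbF_on (onc hq (by decide))
  · exact tbF_on (onc hq (by decide))
  · exact tbF_on (onc hq (by decide))
  · intro X g0 g1
    refine lin_of g0 g1 fun L hL hX => ?_
    by_cases on : h0 * y < 1
    · have e0 : tU 0 2 y x = kcc02.v (c1g.v y) x := by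
        rw [c1g_v]; exact tbF_on ⟨hq, fun _ => on⟩
      have e1 : yag.v (c1g.v y) = y := by rw [c1g_v]; exact yag_v hy0 on
      have hlt := on_lt on
      obtain ⟨c0, c2⟩ := c1g_sq hy0 on
      rw [e0]
      rcases le_or_gt (y - (1149 : ℕ) / (1000 : ℕ)) 0 with c | c
      · simp only [rcq2_62, rcq2_64, kc5q2, kc6q2, kc6q2_3, kc6q2_9, kc6q2_26, kc6q2_45, kc0q2, kc0q2_3, kc0q2_19, n0d, kc1q2, kcc02, kcc02_4, kcc02_19, lm0p_v, hL, e1, if_pos c]
        all_goals (clear hL; subst hX; ((try push_cast); all_goals (first | ring1 | (split_ifs <;> first | (exfalso; linarith) | ring1 | ((repeat first | erw [if_pos (by linarith)] | erw [if_neg (by linarith)]); ring1)))))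
      · have hc1 : c1g.v y < 1 / 10 := by
          push_cast at c
          nlinarith
        have hc' : ¬ (y - (1149 : ℕ) / (1000 : ℕ) ≤ 0) := not_le.2 c
        simp only [rcq2_62, rcq2_64, kc5q2, kc6q2, kc6q2_3, kc6q2_9, kc6q2_26, kc6q2_45, kc0q2, kc0q2_3, kc0q2_19, n0d, kc1q2, kcc02, kcc02_4, kcc02_19, lm0p_v, hL, e1, if_neg hc', abs_neg, abs_of_nonneg c0, neg_neg]
        all_goals (clear hL; subst hX; (try push_cast); (try simp only [← c2]); ((try push_cast); all_goals (first | ring1 | (split_ifs <;> first | (exfalso; linarith) | ring1 | ((repeat first | erw [if_pos (by linarith)] | erw [if_neg (by linarith)]); ring1)))))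
    · have off : 1 ≤ h0 * y := not_lt.1 on
      have hc := c1g_off off
      have e0 : tU 0 2 y x = 0 := tbF_off off
      have hlt := lt_off off
      simp only [rcq2_62, rcq2_64, kc5q2, kc6q2, kc6q2_3, kc6q2_9, kc6q2_26, kc6q2_45, kc0q2, kc0q2_3, kc0q2_19, n0d, kc1q2, lm0p_v, hL, hc, e0]
      all_goals (clear hL; subst hX; (try simp only [hc]); ((try push_cast); all_goals (first | ring1 | (split_ifs <;> first | (exfalso; linarith) | ring1 | ((repeat first | erw [if_pos (by linarith)] | erw [if_neg (by linarith)]); ring1)))))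
  · intro X g0 g1
    refine lin_of g0 g1 fun L hL hX => ?_
    simp only [rcq2_62, rcq2_64, kc5q2, kc6q2, kc6q2_3, kc6q2_9, kc6q2_26, kc6q2_45, kc0q2, kc0q2_3, kc0q2_19, n0d, kc1q2, kc2q2, lm1p_v, hL]
    all_goals (clear hL; subst hX; ((try push_cast); all_goals (first | ring1 | (split_ifs <;> first | (exfalso; linarith) | ring1 | ((repeat first | erw [if_pos (by linarith)] | erw [if_neg (by linarith)]); ring1)))))
  · intro X g0 g1
    refine lin_of g0 g1 fun L hL hX => ?_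
    simp only [rcq2_62, rcq2_64, kc5q2, kc6q2, kc6q2_3, kc6q2_9, kc6q2_26, kc6q2_45, kc0q2, kc0q2_3, kc0q2_19, n0d, kc2q2, kc3q2, lm2p_v, hL]
    all_goals (clear hL; subst hX; ((try push_cast); all_goals (first | ring1 | (split_ifs <;> first | (exfalso; linarith) | ring1 | ((repeat first | erw [if_pos (by linarith)] | erw [if_neg (by linarith)]); ring1)))))
  · intro X g0 g1
    refine lin_of g0 g1 fun L hL hX => ?_
    simp only [rcq2_62, rcq2_64, kc5q2, kc6q2, kc6q2_3, kc6q2_9, kc6q2_26, kc6q2_45, kc0q2, kc0q2_3, kc0q2_19, n0d, kc3q2, kc4q2, lm3p_v, hL]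
    all_goals (clear hL; subst hX; ((try push_cast); all_goals (first | ring1 | (split_ifs <;> first | (exfalso; linarith) | ring1 | ((repeat first | erw [if_pos (by linarith)] | erw [if_neg (by linarith)]); ring1)))))
  · intro X g0 g1
    refine lin_of g0 g1 fun L hL hX => ?_
    simp only [rcq2_62, rcq2_64, kc5q2, kc6q2, kc6q2_3, kc6q2_9, kc6q2_26, kc6q2_45, kc0q2, kc0q2_3, kc0q2_19, n0d, kc4q2, lm4p_v, hL]
    all_goals (clear hL; subst hX; ((try push_cast); all_goals (first | ring1 | (split_ifs <;> first | (exfalso; linarith) | ring1 | ((repeat first | erw [if_pos (by linarith)] | erw [if_neg (by linarith)]); ring1)))))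
  · intro X g0 g1
    refine lin_of g0 g1 fun L hL hX => ?_
    simp only [rcq2_62, rcq2_64, kc5q2, kc6q2, kc6q2_3, kc6q2_9, kc6q2_26, kc6q2_45, kc0q2, kc0q2_3, kc0q2_19, n0d, lm5p_v, hL]
    all_goals (clear hL; subst hX; ((try push_cast); all_goals (first | ring1 | (split_ifs <;> first | (exfalso; linarith) | ring1 | ((repeat first | erw [if_pos (by linarith)] | erw [if_neg (by linarith)]); ring1)))))
theorem thU3 {x : ℝ} (h : Pins PP tU x) : ∀ X y, InQ 3 y → 1 ≤ qqn X y → qqn X y ≤ 3 →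
    thd PP tU 3 X y x = (pd 3).v X y x := by
  intro X y hq k1 k3
  have hy0 := hq.nonneg
  have hy2 := hq.le_two
  have hyl := hq.1
  have hyr := hq.2
  refine third6 h hq (F := fun X => rcq3.v X y x) (x0 := 0) (x1 := cv1r.v y) (x2 := cv2r.v y) (x3 := cv3r.v y) (x4 := cv4r.v y) (x5 := cv5r.v y) (x6 := c3g.v y)
    (v0 := 0) (v1 := kc1q3.v y x) (v2 := kc2q3.v y x) (v3 := kc3q3.v y x) (v4 := kc4q3.v y x) (v5 := kc5q3.v y x) (v6 := kc6q3.v y x)
    ?_ ?_ ?_ ?_ ?_ ?_ ?_ ?_ ?_ ?_ ?_ ?_ ?_ ?_ (fun X => rfl) ?_ ?_ ?_ ?_ ?_ ?_ k1 k3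
  · rw [crv0]; exact c1n_off (off_y hyl)
  · exact ecv1q3 hyl
  · exact ecv2q3 hyl
  · exact ecv3q3 hyl
  · exact ecv4q3 hyl
  · exact ecv5q3 hyl
  · rw [crv6, c3g_v]
  · exact tbF_off (off_y hyl)
  · exact tbF_on (onc hq (by decide))
  · exact tbF_on (onc hq (by decide))
  · refine (tbF_on (onc hq (by decide))).trans ?_
    show kcc33.v (c3n y) x = _
    simp only [kc3q3, kc3q3_4, kc3q3_27, kc3q3_28, kc3q3_32, kc3q3_37, kc3q3_39, kc3q3_40, kc3q3_71, kc3q3_94, kc3q3_116, kcc33, kcc33_6, kcc33_9, kcc33_11, kcc33_33, kcc33_34, kcc33_38, kcc33_43, kcc33_45, kcc33_46, kcc33_72, kcc33_76, kcc33_99, kcc33_121, ycg_v hy0 hy2, c3g_v, cv1r, cv2r, cv3r, cv4r, cv5r]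
    all_goals (try rfl)
  · refine (tbF_on (onc hq (by decide))).trans ?_
    show kcc43.v (c3n y) x = _
    simp only [kc4q3, kc4q3_4, kc4q3_26, kcc43, kcc43_11, kcc43_32, ycg_v hy0 hy2, c3g_v, cv1r, cv2r, cv3r, cv4r, cv5r]
    all_goals (try rfl)
  · refine (tbF_on (onc hq (by decide))).trans ?_
    show kcc53.v (c3n y) x = _
    simp only [kc5q3, kc5q3_4, kc5q3_27, kcc53, kcc53_11, kcc53_33, ycg_v hy0 hy2, c3g_v, cv1r, cv2r, cv3r, cv4r, cv5r]
    all_goals (try rfl)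
  · refine (tbF_on (onc hq (by decide))).trans ?_
    show kcc63.v (c3n y) x = _
    simp only [kc6q3, kc6q3_3, kc6q3_9, kc6q3_26, kc6q3_45, kcc63, kcc63_4, kcc63_9, kcc63_26, kcc63_45, ycg_v hy0 hy2, c3g_v, c3g_v]
    all_goals (try rfl)
  · intro X g0 g1
    refine lin_of g0 g1 fun L hL hX => ?_
    simp only [rcq3_47, rcq3_48, rcq3_49, rcq3_53, rcq3_58, rcq3_60, rcq3_61, rcq3_87, rcq3_91, rcq3_92, kc5q3, kc5q3_4, kc5q3_27, kc6q3, kc6q3_3, kc6q3_9, kc6q3_26, kc6q3_45, bd5q3, bd5q3_3, bd5q3_26, bd4q3, bd4q3_3, bd4q3_25, kc3q3, kc3q3_4, kc3q3_27, kc3q3_28, kc3q3_32, kc3q3_37, kc3q3_39, kc3q3_40, kc3q3_71, kc3q3_94, kc3q3_116, bd3q3, bd3q3_3, bd2q3, bd2q3_3, kc2q3, kc2q3_4, bd1q3, bd1q3_3, kc1q3, kc1q3_4, hL]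
    all_goals (clear hL; subst hX; ((try push_cast); all_goals (first | ring1 | (split_ifs <;> first | (exfalso; linarith) | ring1 | ((repeat first | erw [if_pos (by linarith)] | erw [if_neg (by linarith)]); ring1)))))
  · intro X g0 g1
    refine lin_of g0 g1 fun L hL hX => ?_
    simp only [rcq3_47, rcq3_48, rcq3_49, rcq3_53, rcq3_58, rcq3_60, rcq3_61, rcq3_87, rcq3_91, rcq3_92, kc5q3, kc5q3_4, kc5q3_27, kc6q3, kc6q3_3, kc6q3_9, kc6q3_26, kc6q3_45, bd5q3, bd5q3_3, bd5q3_26, bd4q3, bd4q3_3, bd4q3_25, kc3q3, kc3q3_4, kc3q3_27, kc3q3_28, kc3q3_32, kc3q3_37, kc3q3_39, kc3q3_40, kc3q3_71, kc3q3_94, kc3q3_116, bd3q3, bd3q3_3, bd2q3, bd2q3_3, kc2q3, kc2q3_4, bd1q3, bd1q3_3, kc1q3, kc1q3_4, lm1r_v, hL]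
    all_goals (clear hL; subst hX; ((try push_cast); all_goals (first | ring1 | (split_ifs <;> first | (exfalso; linarith) | ring1 | ((repeat first | erw [if_pos (by linarith)] | erw [if_neg (by linarith)]); ring1)))))
  · intro X g0 g1
    refine lin_of g0 g1 fun L hL hX => ?_
    simp only [rcq3_47, rcq3_48, rcq3_49, rcq3_53, rcq3_58, rcq3_60, rcq3_61, rcq3_87, rcq3_91, rcq3_92, kc5q3, kc5q3_4, kc5q3_27, kc6q3, kc6q3_3, kc6q3_9, kc6q3_26, kc6q3_45, bd5q3, bd5q3_3, bd5q3_26, bd4q3, bd4q3_3, bd4q3_25, kc3q3, kc3q3_4, kc3q3_27, kc3q3_28, kc3q3_32, kc3q3_37, kc3q3_39, kc3q3_40, kc3q3_71, kc3q3_94, kc3q3_116, bd3q3, bd3q3_3, bd2q3, bd2q3_3, kc2q3, kc2q3_4, bd1q3, bd1q3_3, lm2r_v, hL]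
    all_goals (clear hL; subst hX; ((try push_cast); all_goals (first | ring1 | (split_ifs <;> first | (exfalso; linarith) | ring1 | ((repeat first | erw [if_pos (by linarith)] | erw [if_neg (by linarith)]); ring1)))))
  · intro X g0 g1
    refine lin_of g0 g1 fun L hL hX => ?_
    simp only [rcq3_47, rcq3_48, rcq3_49, rcq3_53, rcq3_58, rcq3_60, rcq3_61, rcq3_87, rcq3_91, rcq3_92, kc5q3, kc5q3_4, kc5q3_27, kc6q3, kc6q3_3, kc6q3_9, kc6q3_26, kc6q3_45, bd5q3, bd5q3_3, bd5q3_26, bd4q3, bd4q3_3, bd4q3_25, kc3q3, kc3q3_4, kc3q3_27, kc3q3_28, kc3q3_32, kc3q3_37, kc3q3_39, kc3q3_40, kc3q3_71, kc3q3_94, kc3q3_116, bd3q3, bd3q3_3, bd2q3, bd2q3_3, kc2q3, kc2q3_4, bd1q3, bd1q3_3, kc4q3, kc4q3_4, kc4q3_26, lm3r_v, hL]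
    all_goals (clear hL; subst hX; ((try push_cast); all_goals (first | ring1 | (split_ifs <;> first | (exfalso; linarith) | ring1 | ((repeat first | erw [if_pos (by linarith)] | erw [if_neg (by linarith)]); ring1)))))
  · intro X g0 g1
    refine lin_of g0 g1 fun L hL hX => ?_
    simp only [rcq3_47, rcq3_48, rcq3_49, rcq3_53, rcq3_58, rcq3_60, rcq3_61, rcq3_87, rcq3_91, rcq3_92, kc5q3, kc5q3_4, kc5q3_27, kc6q3, kc6q3_3, kc6q3_9, kc6q3_26, kc6q3_45, bd5q3, bd5q3_3, bd5q3_26, bd4q3, bd4q3_3, bd4q3_25, kc3q3, kc3q3_4, kc3q3_27, kc3q3_28, kc3q3_32, kc3q3_37, kc3q3_39, kc3q3_40, kc3q3_71, kc3q3_94, kc3q3_116, bd3q3, bd3q3_3, bd2q3, bd2q3_3, kc2q3, kc2q3_4, bd1q3, bd1q3_3, kc4q3, kc4q3_4, kc4q3_26, lm4r_v, hL]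
    all_goals (clear hL; subst hX; ((try push_cast); all_goals (first | ring1 | (split_ifs <;> first | (exfalso; linarith) | ring1 | ((repeat first | erw [if_pos (by linarith)] | erw [if_neg (by linarith)]); ring1)))))
  · intro X g0 g1
    refine lin_of g0 g1 fun L hL hX => ?_
    simp only [rcq3_47, rcq3_48, rcq3_49, rcq3_53, rcq3_58, rcq3_60, rcq3_61, rcq3_87, rcq3_91, rcq3_92, kc5q3, kc5q3_4, kc5q3_27, kc6q3, kc6q3_3, kc6q3_9, kc6q3_26, kc6q3_45, bd5q3, bd5q3_3, bd5q3_26, bd4q3, bd4q3_3, bd4q3_25, kc3q3, kc3q3_4, kc3q3_27, kc3q3_28, kc3q3_32, kc3q3_37, kc3q3_39, kc3q3_40, kc3q3_71, kc3q3_94, kc3q3_116, bd3q3, bd3q3_3, bd2q3, bd2q3_3, kc2q3, kc2q3_4, bd1q3, bd1q3_3, lm5r_v, hL]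
    all_goals (clear hL; subst hX; ((try push_cast); all_goals (first | ring1 | (split_ifs <;> first | (exfalso; linarith) | ring1 | ((repeat first | erw [if_pos (by linarith)] | erw [if_neg (by linarith)]); ring1)))))
theorem bx00 : BoxC crd (0 : Fin 7) 0 0 536870912 := by
  refine boxC_of (lo := 0) (hi := 1 / 2) ?_ (by norm_num) (by norm_num)
  intro y h
  obtain ⟨h1, h2⟩ := onC_rng h
  push_cast at h1 h2
  show 0 ≤ y ∧ y ≤ 1 / 2
  constructor <;> linarith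
theorem bx01 : BoxC crd (0 : Fin 7) 1 536870912 536870912 := by
  refine boxC_of (lo := 1 / 2) (hi := 1) ?_ (by norm_num) (by norm_num)
  intro y h
  obtain ⟨h1, h2⟩ := onC_rng h
  push_cast at h1 h2
  show 1 / 2 ≤ y ∧ y ≤ 1
  constructor <;> linarith
theorem bx02 : BoxC crd (0 : Fin 7) 2 0 536870912 := by
  refine boxC_of (lo := 0) (hi := 1 / 2) ?_ (by norm_num) (by norm_num)
  intro y h
  obtain ⟨h1, h2⟩ := onC_rng h
  push_cast at h1 h2
  exact c1n_half (by linarith)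
theorem bx10 : BoxC crd (1 : Fin 7) 0 0 536870912 := by
  refine boxC_of (lo := 0) (hi := 1 / 2) ?_ (by norm_num) (by norm_num)
  intro y h
  obtain ⟨h1, h2⟩ := onC_rng h
  push_cast at h1 h2
  show 0 ≤ y ∧ y ≤ 1 / 2
  constructor <;> linarith
theorem bx11 : BoxC crd (1 : Fin 7) 1 536870912 536870912 := by
  refine boxC_of (lo := 1 / 2) (hi := 1) ?_ (by norm_num) (by norm_num)
  intro y h
  obtain ⟨h1, h2⟩ := onC_rng h
  push_cast at h1 h2
  show 1 / 2 ≤ y ∧ y ≤ 1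
  constructor <;> linarith
theorem bx12 : BoxC crd (1 : Fin 7) 2 1073741824 536870912 := by
  refine boxC_of (lo := 1) (hi := 3 / 2) ?_ (by norm_num) (by norm_num)
  intro y h
  obtain ⟨h1, h2⟩ := onC_rng h
  push_cast at h1 h2
  show 1 ≤ y ∧ y ≤ 3 / 2
  constructor <;> linarith
theorem bx13 : BoxC crd (1 : Fin 7) 3 1610612736 536870912 := by
  refine boxC_of (lo := 3 / 2) (hi := 2) ?_ (by norm_num) (by norm_num)
  intro y h
  obtain ⟨h1, h2⟩ := onC_rng h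
  push_cast at h1 h2
  show 3 / 2 ≤ y ∧ y ≤ 2
  constructor <;> linarith
theorem bx20 : BoxC crd (2 : Fin 7) 0 0 536870912 := by
  refine boxC_of (lo := 0) (hi := 1 / 2) ?_ (by norm_num) (by norm_num)
  intro y h
  obtain ⟨h1, h2⟩ := onC_rng h
  push_cast at h1 h2
  show 0 ≤ y ∧ y ≤ 1 / 2
  constructor <;> linarith
theorem bx21 : BoxC crd (2 : Fin 7) 1 536870912 536870912 := by
  refine boxC_of (lo := 1 / 2) (hi := 1) ?_ (by norm_num) (by norm_num)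
  intro y h
  obtain ⟨h1, h2⟩ := onC_rng h
  push_cast at h1 h2
  show 1 / 2 ≤ y ∧ y ≤ 1
  constructor <;> linarith
theorem bx22 : BoxC crd (2 : Fin 7) 2 1073741824 536870912 := by
  refine boxC_of (lo := 1) (hi := 3 / 2) ?_ (by norm_num) (by norm_num)
  intro y h
  obtain ⟨h1, h2⟩ := onC_rng h
  push_cast at h1 h2
  show 1 ≤ y ∧ y ≤ 3 / 2
  constructor <;> linarith
theorem bx23 : BoxC crd (2 : Fin 7) 3 1610612736 536870912 := by
  refine boxC_of (lo := 3 / 2) (hi := 2) ?_ (by norm_num) (by norm_num)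
  intro y h
  obtain ⟨h1, h2⟩ := onC_rng h
  push_cast at h1 h2
  show 3 / 2 ≤ y ∧ y ≤ 2
  constructor <;> linarith
theorem bx30 : BoxC crd (3 : Fin 7) 0 0 536870912 := by
  refine boxC_of (lo := 0) (hi := 1 / 2) ?_ (by norm_num) (by norm_num)
  intro y h
  obtain ⟨h1, h2⟩ := onC_rng h
  push_cast at h1 h2
  show 0 ≤ y ∧ y ≤ 1 / 2
  constructor <;> linarith
theorem bx31 : BoxC crd (3 : Fin 7) 1 536870912 536870912 := by
  refine boxC_of (lo := 1 / 2) (hi := 1) ?_ (by norm_num) (by norm_num)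
  intro y h
  obtain ⟨h1, h2⟩ := onC_rng h
  push_cast at h1 h2
  show 1 / 2 ≤ y ∧ y ≤ 1
  constructor <;> linarith
theorem bx32 : BoxC crd (3 : Fin 7) 2 1073741824 536870912 := by
  refine boxC_of (lo := 1) (hi := 3 / 2) ?_ (by norm_num) (by norm_num)
  intro y h
  obtain ⟨h1, h2⟩ := onC_rng h
  push_cast at h1 h2
  show 1 ≤ y ∧ y ≤ 3 / 2
  constructor <;> linarith
theorem bx33 : BoxC crd (3 : Fin 7) 3 0 1230186008 := by
  refine boxC_of (lo := 0) (hi := 11457 / 10000) ?_ (by norm_num) (by norm_num)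
  intro y h
  obtain ⟨h1, h2⟩ := onC_rng h
  push_cast at h1 h2
  exact c3n_box (by linarith)
theorem bx40 : BoxC crd (4 : Fin 7) 0 0 536870912 := by
  refine boxC_of (lo := 0) (hi := 1 / 2) ?_ (by norm_num) (by norm_num)
  intro y h
  obtain ⟨h1, h2⟩ := onC_rng h
  push_cast at h1 h2
  show 0 ≤ y ∧ y ≤ 1 / 2
  constructor <;> linarith
theorem bx41 : BoxC crd (4 : Fin 7) 1 536870912 536870912 := by
  refine boxC_of (lo := 1 / 2) (hi := 1) ?_ (by norm_num) (by norm_num)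
  intro y h
  obtain ⟨h1, h2⟩ := onC_rng h
  push_cast at h1 h2
  show 1 / 2 ≤ y ∧ y ≤ 1
  constructor <;> linarith
theorem bx42 : BoxC crd (4 : Fin 7) 2 1073741824 536870912 := by
  refine boxC_of (lo := 1) (hi := 3 / 2) ?_ (by norm_num) (by norm_num)
  intro y h
  obtain ⟨h1, h2⟩ := onC_rng h
  push_cast at h1 h2
  show 1 ≤ y ∧ y ≤ 3 / 2
  constructor <;> linarith
theorem bx43 : BoxC crd (4 : Fin 7) 3 0 1230186008 := by
  refine boxC_of (lo := 0) (hi := 11457 / 10000) ?_ (by norm_num) (by norm_num)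
  intro y h
  obtain ⟨h1, h2⟩ := onC_rng h
  push_cast at h1 h2
  exact c3n_box (by linarith)
theorem bx50 : BoxC crd (5 : Fin 7) 0 0 536870912 := by
  refine boxC_of (lo := 0) (hi := 1 / 2) ?_ (by norm_num) (by norm_num)
  intro y h
  obtain ⟨h1, h2⟩ := onC_rng h
  push_cast at h1 h2
  show 0 ≤ y ∧ y ≤ 1 / 2
  constructor <;> linarith
theorem bx51 : BoxC crd (5 : Fin 7) 1 536870912 536870912 := by
  refine boxC_of (lo := 1 / 2) (hi := 1) ?_ (by norm_num) (by norm_num)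
  intro y h
  obtain ⟨h1, h2⟩ := onC_rng h
  push_cast at h1 h2
  show 1 / 2 ≤ y ∧ y ≤ 1
  constructor <;> linarith
theorem bx52 : BoxC crd (5 : Fin 7) 2 1073741824 536870912 := by
  refine boxC_of (lo := 1) (hi := 3 / 2) ?_ (by norm_num) (by norm_num)
  intro y h
  obtain ⟨h1, h2⟩ := onC_rng h
  push_cast at h1 h2
  show 1 ≤ y ∧ y ≤ 3 / 2
  constructor <;> linarith
theorem bx53 : BoxC crd (5 : Fin 7) 3 0 1230186008 := by
  refine boxC_of (lo := 0) (hi := 11457 / 10000) ?_ (by norm_num) (by norm_num)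
  intro y h
  obtain ⟨h1, h2⟩ := onC_rng h
  push_cast at h1 h2
  exact c3n_box (by linarith)
theorem bx60 : BoxC crd (6 : Fin 7) 0 0 536870912 := by
  refine boxC_of (lo := 0) (hi := 1 / 2) ?_ (by norm_num) (by norm_num)
  intro y h
  obtain ⟨h1, h2⟩ := onC_rng h
  push_cast at h1 h2
  show 0 ≤ y ∧ y ≤ 1 / 2
  constructor <;> linarith
theorem bx61 : BoxC crd (6 : Fin 7) 1 536870912 536870912 := by
  refine boxC_of (lo := 1 / 2) (hi := 1) ?_ (by norm_num) (by norm_num)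
  intro y h
  obtain ⟨h1, h2⟩ := onC_rng h
  push_cast at h1 h2
  show 1 / 2 ≤ y ∧ y ≤ 1
  constructor <;> linarith
theorem bx62 : BoxC crd (6 : Fin 7) 2 1073741824 536870912 := by
  refine boxC_of (lo := 1) (hi := 3 / 2) ?_ (by norm_num) (by norm_num)
  intro y h
  obtain ⟨h1, h2⟩ := onC_rng h
  push_cast at h1 h2
  show 1 ≤ y ∧ y ≤ 3 / 2
  constructor <;> linarith
theorem bx63 : BoxC crd (6 : Fin 7) 3 0 1230186008 := by
  refine boxC_of (lo := 0) (hi := 11457 / 10000) ?_ (by norm_num) (by norm_num)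
  intro y h
  obtain ⟨h1, h2⟩ := onC_rng h
  push_cast at h1 h2
  exact c3n_box (by linarith)
theorem bdK00 : ∃ t, chk3 (onCell 0 536870912 0 0 1045395039 1503240 (bndR ((ndB 0 0).K))) t 1 1 1 = true := ⟨fullT 4 0, by decide +kernel⟩
theorem bdK01 : ∃ t, chk3 (onCell 536870912 536870912 0 0 1045395039 1503240 (bndR ((ndB 0 1).K))) t 1 1 1 = true := ⟨fullT 4 0, by decide +kernel⟩
theorem bdK02 : ∃ t, chk3 (onCell 0 536870912 0 0 1045395039 1503240 (bndR ((ndB 0 2).K))) t 1 1 1 = true := ⟨fullT 4 0, by decide +kernel⟩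
theorem bdK10 : ∃ t, chk3 (onCell 0 536870912 0 0 1045395039 1503240 (bndR ((ndB 1 0).K))) t 1 1 1 = true := ⟨fullT 4 0, by decide +kernel⟩
theorem bdK11 : ∃ t, chk3 (onCell 536870912 536870912 0 0 1045395039 1503240 (bndR ((ndB 1 1).K))) t 1 1 1 = true := ⟨fullT 4 0, by decide +kernel⟩
theorem bdK12 : ∃ t, chk3 (onCell 1073741824 536870912 0 0 1045395039 1503240 (bndR ((ndB 1 2).K))) t 1 1 1 = true := ⟨fullT 4 0, by decide +kernel⟩
theorem bdK13 : ∃ t, chk3 (onCell 1610612736 536870912 0 0 1045395039 1503240 (bndR ((ndB 1 3).K))) t 1 1 1 = true := ⟨fullT 4 0, by decide +kernel⟩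
theorem bdK20 : ∃ t, chk3 (onCell 0 536870912 0 0 1045395039 1503240 (bndR ((ndB 2 0).K))) t 1 1 1 = true := ⟨fullT 4 0, by decide +kernel⟩
theorem bdK21 : ∃ t, chk3 (onCell 536870912 536870912 0 0 1045395039 1503240 (bndR ((ndB 2 1).K))) t 1 1 1 = true := ⟨fullT 4 0, by decide +kernel⟩
theorem bdK22 : ∃ t, chk3 (onCell 1073741824 536870912 0 0 1045395039 1503240 (bndR ((ndB 2 2).K))) t 1 1 1 = true := ⟨fullT 4 0, by decide +kernel⟩
theorem bdK23 : ∃ t, chk3 (onCell 1610612736 536870912 0 0 1045395039 1503240 (bndR ((ndB 2 3).K))) t 1 1 1 = true := ⟨fullT 4 0, by decide +kernel⟩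
theorem bdK30 : ∃ t, chk3 (onCell 0 536870912 0 0 1045395039 1503240 (bndR ((ndB 3 0).K))) t 1 1 1 = true := ⟨fullT 6 0, by decide +kernel⟩
theorem bdK31 : ∃ t, chk3 (onCell 536870912 536870912 0 0 1045395039 1503240 (bndR ((ndB 3 1).K))) t 1 1 1 = true := ⟨fullT 4 0, by decide +kernel⟩
theorem bdK32 : ∃ t, chk3 (onCell 1073741824 536870912 0 0 1045395039 1503240 (bndR ((ndB 3 2).K))) t 1 1 1 = true := ⟨fullT 4 0, by decide +kernel⟩
theorem bdK33 : ∃ t, chk3 (onCell 0 1230186008 0 0 1045395039 1503240 (bndR ((ndB 3 3).K))) t 1 1 1 = true := ⟨fullT 4 0, by decide +kernel⟩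
theorem bdK40 : ∃ t, chk3 (onCell 0 536870912 0 0 1045395039 1503240 (bndR ((ndB 4 0).K))) t 1 1 1 = true := ⟨fullT 6 0, by decide +kernel⟩
theorem bdK41 : ∃ t, chk3 (onCell 536870912 536870912 0 0 1045395039 1503240 (bndR ((ndB 4 1).K))) t 1 1 1 = true := ⟨fullT 4 0, by decide +kernel⟩
theorem bdK42 : ∃ t, chk3 (onCell 1073741824 536870912 0 0 1045395039 1503240 (bndR ((ndB 4 2).K))) t 1 1 1 = true := ⟨fullT 4 0, by decide +kernel⟩
theorem bdK43 : ∃ t, chk3 (onCell 0 1230186008 0 0 1045395039 1503240 (bndR ((ndB 4 3).K))) t 1 1 1 = true := ⟨fullT 4 0, by decide +kernel⟩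
theorem bdK50 : ∃ t, chk3 (onCell 0 536870912 0 0 1045395039 1503240 (bndR ((ndB 5 0).K))) t 1 1 1 = true := ⟨fullT 6 0, by decide +kernel⟩
theorem bdK51 : ∃ t, chk3 (onCell 536870912 536870912 0 0 1045395039 1503240 (bndR ((ndB 5 1).K))) t 1 1 1 = true := ⟨fullT 4 0, by decide +kernel⟩
theorem bdK52 : ∃ t, chk3 (onCell 1073741824 536870912 0 0 1045395039 1503240 (bndR ((ndB 5 2).K))) t 1 1 1 = true := ⟨fullT 4 0, by decide +kernel⟩
theorem bdK53 : ∃ t, chk3 (onCell 0 1230186008 0 0 1045395039 1503240 (bndR ((ndB 5 3).K))) t 1 1 1 = true := ⟨fullT 4 0, by decide +kernel⟩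
theorem bdK60 : ∃ t, chk3 (onCell 0 536870912 0 0 1045395039 1503240 (bndR ((ndB 6 0).K))) t 1 1 1 = true := ⟨fullT 6 0, by decide +kernel⟩
theorem bdK61 : ∃ t, chk3 (onCell 536870912 536870912 0 0 1045395039 1503240 (bndR ((ndB 6 1).K))) t 1 1 1 = true := ⟨fullT 4 0, by decide +kernel⟩
theorem bdK62 : ∃ t, chk3 (onCell 1073741824 536870912 0 0 1045395039 1503240 (bndR ((ndB 6 2).K))) t 1 1 1 = true := ⟨fullT 4 0, by decide +kernel⟩
theorem bdK63 : ∃ t, chk3 (onCell 0 1230186008 0 0 1045395039 1503240 (bndR ((ndB 6 3).K))) t 1 1 1 = true := ⟨fullT 4 0, by decide +kernel⟩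
theorem bddK {x : ℝ} (hx : ((1045395039 : ℕ) : ℝ) / S ≤ x) (hx' : x ≤ (((1045395039 : ℕ) : ℝ) + (1503240 : ℕ)) / S) : ∃ C, ∀ j q y, OnC j q y → |((ndB j q).K).v (crd j q y) x| ≤ C := by
  refine ⟨64, ?_⟩
  intro j q y h
  fin_cases j
  · match q, h with
    | 0, h => exact bnd_sound bdK00 (bx00 y h).1 (bx00 y h).2 hx hx'
    | 1, h => exact bnd_sound bdK01 (bx01 y h).1 (bx01 y h).2 hx hx'
    | 2, h => exact bnd_sound bdK02 (bx02 y h).1 (bx02 y h).2 hx hx'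
    | 3, h => exact absurd h.1.1 (by linarith [y_lt (h.2 rfl)])
    | _ + 4, h => exact h.1.elim
  · match q, h with
    | 0, h => exact bnd_sound bdK10 (bx10 y h).1 (bx10 y h).2 hx hx'
    | 1, h => exact bnd_sound bdK11 (bx11 y h).1 (bx11 y h).2 hx hx'
    | 2, h => exact bnd_sound bdK12 (bx12 y h).1 (bx12 y h).2 hx hx'
    | 3, h => exact bnd_sound bdK13 (bx13 y h).1 (bx13 y h).2 hx hx'
    | _ + 4, h => exact h.1.elim
  · match q, h with
    | 0, h => exact bnd_sound bdK20 (bx20 y h).1 (bx20 y h).2 hx hx'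
    | 1, h => exact bnd_sound bdK21 (bx21 y h).1 (bx21 y h).2 hx hx'
    | 2, h => exact bnd_sound bdK22 (bx22 y h).1 (bx22 y h).2 hx hx'
    | 3, h => exact bnd_sound bdK23 (bx23 y h).1 (bx23 y h).2 hx hx'
    | _ + 4, h => exact h.1.elim
  · match q, h with
    | 0, h => exact bnd_sound bdK30 (bx30 y h).1 (bx30 y h).2 hx hx'
    | 1, h => exact bnd_sound bdK31 (bx31 y h).1 (bx31 y h).2 hx hx'
    | 2, h => exact bnd_sound bdK32 (bx32 y h).1 (bx32 y h).2 hx hx'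
    | 3, h => exact bnd_sound bdK33 (bx33 y h).1 (bx33 y h).2 hx hx'
    | _ + 4, h => exact h.1.elim
  · match q, h with
    | 0, h => exact bnd_sound bdK40 (bx40 y h).1 (bx40 y h).2 hx hx'
    | 1, h => exact bnd_sound bdK41 (bx41 y h).1 (bx41 y h).2 hx hx'
    | 2, h => exact bnd_sound bdK42 (bx42 y h).1 (bx42 y h).2 hx hx'
    | 3, h => exact bnd_sound bdK43 (bx43 y h).1 (bx43 y h).2 hx hx'
    | _ + 4, h => exact h.1.elim
  · match q, h with
    | 0, h => exact bnd_sound bdK50 (bx50 y h).1 (bx50 y h).2 hx hx'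
    | 1, h => exact bnd_sound bdK51 (bx51 y h).1 (bx51 y h).2 hx hx'
    | 2, h => exact bnd_sound bdK52 (bx52 y h).1 (bx52 y h).2 hx hx'
    | 3, h => exact bnd_sound bdK53 (bx53 y h).1 (bx53 y h).2 hx hx'
    | _ + 4, h => exact h.1.elim
  · match q, h with
    | 0, h => exact bnd_sound bdK60 (bx60 y h).1 (bx60 y h).2 hx hx'
    | 1, h => exact bnd_sound bdK61 (bx61 y h).1 (bx61 y h).2 hx hx'
    | 2, h => exact bnd_sound bdK62 (bx62 y h).1 (bx62 y h).2 hx hx'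
    | 3, h => exact bnd_sound bdK63 (bx63 y h).1 (bx63 y h).2 hx hx'
    | _ + 4, h => exact h.1.elim
theorem bdL00 : ∃ t, chk3 (onCell 0 536870912 0 0 1045395039 1503240 (bndR ((ndB 0 0).L))) t 1 1 1 = true := ⟨fullT 4 0, by decide +kernel⟩
theorem bdL01 : ∃ t, chk3 (onCell 536870912 536870912 0 0 1045395039 1503240 (bndR ((ndB 0 1).L))) t 1 1 1 = true := ⟨fullT 4 0, by decide +kernel⟩
theorem bdL02 : ∃ t, chk3 (onCell 0 536870912 0 0 1045395039 1503240 (bndR ((ndB 0 2).L))) t 1 1 1 = true := ⟨fullT 4 0, by decide +kernel⟩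
theorem bdL10 : ∃ t, chk3 (onCell 0 536870912 0 0 1045395039 1503240 (bndR ((ndB 1 0).L))) t 1 1 1 = true := ⟨fullT 4 0, by decide +kernel⟩
theorem bdL11 : ∃ t, chk3 (onCell 536870912 536870912 0 0 1045395039 1503240 (bndR ((ndB 1 1).L))) t 1 1 1 = true := ⟨fullT 4 0, by decide +kernel⟩
theorem bdL12 : ∃ t, chk3 (onCell 1073741824 536870912 0 0 1045395039 1503240 (bndR ((ndB 1 2).L))) t 1 1 1 = true := ⟨fullT 4 0, by decide +kernel⟩
theorem bdL13 : ∃ t, chk3 (onCell 1610612736 536870912 0 0 1045395039 1503240 (bndR ((ndB 1 3).L))) t 1 1 1 = true := ⟨fullT 4 0, by decide +kernel⟩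
theorem bdL20 : ∃ t, chk3 (onCell 0 536870912 0 0 1045395039 1503240 (bndR ((ndB 2 0).L))) t 1 1 1 = true := ⟨fullT 4 0, by decide +kernel⟩
theorem bdL21 : ∃ t, chk3 (onCell 536870912 536870912 0 0 1045395039 1503240 (bndR ((ndB 2 1).L))) t 1 1 1 = true := ⟨fullT 4 0, by decide +kernel⟩
theorem bdL22 : ∃ t, chk3 (onCell 1073741824 536870912 0 0 1045395039 1503240 (bndR ((ndB 2 2).L))) t 1 1 1 = true := ⟨fullT 4 0, by decide +kernel⟩
theorem bdL23 : ∃ t, chk3 (onCell 1610612736 536870912 0 0 1045395039 1503240 (bndR ((ndB 2 3).L))) t 1 1 1 = true := ⟨fullT 4 0, by decide +kernel⟩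
theorem bdL30 : ∃ t, chk3 (onCell 0 536870912 0 0 1045395039 1503240 (bndR ((ndB 3 0).L))) t 1 1 1 = true := ⟨fullT 6 0, by decide +kernel⟩
theorem bdL31 : ∃ t, chk3 (onCell 536870912 536870912 0 0 1045395039 1503240 (bndR ((ndB 3 1).L))) t 1 1 1 = true := ⟨fullT 4 0, by decide +kernel⟩
theorem bdL32 : ∃ t, chk3 (onCell 1073741824 536870912 0 0 1045395039 1503240 (bndR ((ndB 3 2).L))) t 1 1 1 = true := ⟨fullT 4 0, by decide +kernel⟩
theorem bdL33 : ∃ t, chk3 (onCell 0 1230186008 0 0 1045395039 1503240 (bndR ((ndB 3 3).L))) t 1 1 1 = true := ⟨fullT 4 0, by decide +kernel⟩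
theorem bdL40 : ∃ t, chk3 (onCell 0 536870912 0 0 1045395039 1503240 (bndR ((ndB 4 0).L))) t 1 1 1 = true := ⟨fullT 6 0, by decide +kernel⟩
theorem bdL41 : ∃ t, chk3 (onCell 536870912 536870912 0 0 1045395039 1503240 (bndR ((ndB 4 1).L))) t 1 1 1 = true := ⟨fullT 4 0, by decide +kernel⟩
theorem bdL42 : ∃ t, chk3 (onCell 1073741824 536870912 0 0 1045395039 1503240 (bndR ((ndB 4 2).L))) t 1 1 1 = true := ⟨fullT 4 0, by decide +kernel⟩
theorem bdL43 : ∃ t, chk3 (onCell 0 1230186008 0 0 1045395039 1503240 (bndR ((ndB 4 3).L))) t 1 1 1 = true := ⟨fullT 4 0, by decide +kernel⟩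
theorem bdL50 : ∃ t, chk3 (onCell 0 536870912 0 0 1045395039 1503240 (bndR ((ndB 5 0).L))) t 1 1 1 = true := ⟨fullT 6 0, by decide +kernel⟩
theorem bdL51 : ∃ t, chk3 (onCell 536870912 536870912 0 0 1045395039 1503240 (bndR ((ndB 5 1).L))) t 1 1 1 = true := ⟨fullT 4 0, by decide +kernel⟩
theorem bdL52 : ∃ t, chk3 (onCell 1073741824 536870912 0 0 1045395039 1503240 (bndR ((ndB 5 2).L))) t 1 1 1 = true := ⟨fullT 4 0, by decide +kernel⟩
theorem bdL53 : ∃ t, chk3 (onCell 0 1230186008 0 0 1045395039 1503240 (bndR ((ndB 5 3).L))) t 1 1 1 = true := ⟨fullT 4 0, by decide +kernel⟩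
theorem bdL60 : ∃ t, chk3 (onCell 0 536870912 0 0 1045395039 1503240 (bndR ((ndB 6 0).L))) t 1 1 1 = true := ⟨fullT 6 0, by decide +kernel⟩
theorem bdL61 : ∃ t, chk3 (onCell 536870912 536870912 0 0 1045395039 1503240 (bndR ((ndB 6 1).L))) t 1 1 1 = true := ⟨fullT 4 0, by decide +kernel⟩
theorem bdL62 : ∃ t, chk3 (onCell 1073741824 536870912 0 0 1045395039 1503240 (bndR ((ndB 6 2).L))) t 1 1 1 = true := ⟨fullT 4 0, by decide +kernel⟩
theorem bdL63 : ∃ t, chk3 (onCell 0 1230186008 0 0 1045395039 1503240 (bndR ((ndB 6 3).L))) t 1 1 1 = true := ⟨fullT 4 0, by decide +kernel⟩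
theorem bddL {x : ℝ} (hx : ((1045395039 : ℕ) : ℝ) / S ≤ x) (hx' : x ≤ (((1045395039 : ℕ) : ℝ) + (1503240 : ℕ)) / S) : ∃ C, ∀ j q y, OnC j q y → |((ndB j q).L).v (crd j q y) x| ≤ C := by
  refine ⟨64, ?_⟩
  intro j q y h
  fin_cases j
  · match q, h with
    | 0, h => exact bnd_sound bdL00 (bx00 y h).1 (bx00 y h).2 hx hx'
    | 1, h => exact bnd_sound bdL01 (bx01 y h).1 (bx01 y h).2 hx hx'
    | 2, h => exact bnd_sound bdL02 (bx02 y h).1 (bx02 y h).2 hx hx'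
    | 3, h => exact absurd h.1.1 (by linarith [y_lt (h.2 rfl)])
    | _ + 4, h => exact h.1.elim
  · match q, h with
    | 0, h => exact bnd_sound bdL10 (bx10 y h).1 (bx10 y h).2 hx hx'
    | 1, h => exact bnd_sound bdL11 (bx11 y h).1 (bx11 y h).2 hx hx'
    | 2, h => exact bnd_sound bdL12 (bx12 y h).1 (bx12 y h).2 hx hx'
    | 3, h => exact bnd_sound bdL13 (bx13 y h).1 (bx13 y h).2 hx hx'
    | _ + 4, h => exact h.1.elim
  · match q, h with
    | 0, h => exact bnd_sound bdL20 (bx20 y h).1 (bx20 y h).2 hx hx'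
    | 1, h => exact bnd_sound bdL21 (bx21 y h).1 (bx21 y h).2 hx hx'
    | 2, h => exact bnd_sound bdL22 (bx22 y h).1 (bx22 y h).2 hx hx'
    | 3, h => exact bnd_sound bdL23 (bx23 y h).1 (bx23 y h).2 hx hx'
    | _ + 4, h => exact h.1.elim
  · match q, h with
    | 0, h => exact bnd_sound bdL30 (bx30 y h).1 (bx30 y h).2 hx hx'
    | 1, h => exact bnd_sound bdL31 (bx31 y h).1 (bx31 y h).2 hx hx'
    | 2, h => exact bnd_sound bdL32 (bx32 y h).1 (bx32 y h).2 hx hx'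
    | 3, h => exact bnd_sound bdL33 (bx33 y h).1 (bx33 y h).2 hx hx'
    | _ + 4, h => exact h.1.elim
  · match q, h with
    | 0, h => exact bnd_sound bdL40 (bx40 y h).1 (bx40 y h).2 hx hx'
    | 1, h => exact bnd_sound bdL41 (bx41 y h).1 (bx41 y h).2 hx hx'
    | 2, h => exact bnd_sound bdL42 (bx42 y h).1 (bx42 y h).2 hx hx'
    | 3, h => exact bnd_sound bdL43 (bx43 y h).1 (bx43 y h).2 hx hx'
    | _ + 4, h => exact h.1.elim
  · match q, h with
    | 0, h => exact bnd_sound bdL50 (bx50 y h).1 (bx50 y h).2 hx hx'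
    | 1, h => exact bnd_sound bdL51 (bx51 y h).1 (bx51 y h).2 hx hx'
    | 2, h => exact bnd_sound bdL52 (bx52 y h).1 (bx52 y h).2 hx hx'
    | 3, h => exact bnd_sound bdL53 (bx53 y h).1 (bx53 y h).2 hx hx'
    | _ + 4, h => exact h.1.elim
  · match q, h with
    | 0, h => exact bnd_sound bdL60 (bx60 y h).1 (bx60 y h).2 hx hx'
    | 1, h => exact bnd_sound bdL61 (bx61 y h).1 (bx61 y h).2 hx hx'
    | 2, h => exact bnd_sound bdL62 (bx62 y h).1 (bx62 y h).2 hx hx'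
    | 3, h => exact bnd_sound bdL63 (bx63 y h).1 (bx63 y h).2 hx hx'
    | _ + 4, h => exact h.1.elim
theorem bdU00 : ∃ t, chk3 (onCell 0 536870912 0 0 1045395039 1503240 (bndM ((nc 0 0)))) t 1 1 1 = true := ⟨fullT 6 0, by decide +kernel⟩
theorem bdU01 : ∃ t, chk3 (onCell 536870912 536870912 0 0 1045395039 1503240 (bndM ((nc 0 1)))) t 1 1 1 = true := ⟨fullT 6 0, by decide +kernel⟩
theorem bdU02 : ∃ t, chk3 (onCell 0 536870912 0 0 1045395039 1503240 (bndM ((nc 0 2)))) t 1 1 1 = true := ⟨fullT 6 0, by decide +kernel⟩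
theorem bdU10 : ∃ t, chk3 (onCell 0 536870912 0 0 1045395039 1503240 (bndM ((nc 1 0)))) t 1 1 1 = true := ⟨fullT 6 0, by decide +kernel⟩
theorem bdU11 : ∃ t, chk3 (onCell 536870912 536870912 0 0 1045395039 1503240 (bndM ((nc 1 1)))) t 1 1 1 = true := ⟨fullT 6 0, by decide +kernel⟩
theorem bdU12 : ∃ t, chk3 (onCell 1073741824 536870912 0 0 1045395039 1503240 (bndM ((nc 1 2)))) t 1 1 1 = true := ⟨fullT 6 0, by decide +kernel⟩
theorem bdU13 : ∃ t, chk3 (onCell 1610612736 536870912 0 0 1045395039 1503240 (bndM ((nc 1 3)))) t 1 1 1 = true := ⟨fullT 6 0, by decide +kernel⟩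
theorem bdU20 : ∃ t, chk3 (onCell 0 536870912 0 0 1045395039 1503240 (bndM ((nc 2 0)))) t 1 1 1 = true := ⟨fullT 6 0, by decide +kernel⟩
theorem bdU21 : ∃ t, chk3 (onCell 536870912 536870912 0 0 1045395039 1503240 (bndM ((nc 2 1)))) t 1 1 1 = true := ⟨fullT 6 0, by decide +kernel⟩
theorem bdU22 : ∃ t, chk3 (onCell 1073741824 536870912 0 0 1045395039 1503240 (bndM ((nc 2 2)))) t 1 1 1 = true := ⟨fullT 6 0, by decide +kernel⟩
theorem bdU23 : ∃ t, chk3 (onCell 1610612736 536870912 0 0 1045395039 1503240 (bndM ((nc 2 3)))) t 1 1 1 = true := ⟨fullT 6 0, by decide +kernel⟩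
theorem bdU30 : ∃ t, chk3 (onCell 0 536870912 0 0 1045395039 1503240 (bndM ((nc 3 0)))) t 1 1 1 = true := ⟨fullT 6 0, by decide +kernel⟩
theorem bdU31 : ∃ t, chk3 (onCell 536870912 536870912 0 0 1045395039 1503240 (bndM ((nc 3 1)))) t 1 1 1 = true := ⟨fullT 6 0, by decide +kernel⟩
theorem bdU32 : ∃ t, chk3 (onCell 1073741824 536870912 0 0 1045395039 1503240 (bndM ((nc 3 2)))) t 1 1 1 = true := ⟨fullT 6 0, by decide +kernel⟩
theorem bdU33 : ∃ t, chk3 (onCell 0 1230186008 0 0 1045395039 1503240 (bndM ((nc 3 3)))) t 1 1 1 = true := ⟨fullT 6 0, by decide +kernel⟩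
theorem bdU40 : ∃ t, chk3 (onCell 0 536870912 0 0 1045395039 1503240 (bndM ((nc 4 0)))) t 1 1 1 = true := ⟨fullT 6 0, by decide +kernel⟩
theorem bdU41 : ∃ t, chk3 (onCell 536870912 536870912 0 0 1045395039 1503240 (bndM ((nc 4 1)))) t 1 1 1 = true := ⟨fullT 6 0, by decide +kernel⟩
theorem bdU42 : ∃ t, chk3 (onCell 1073741824 536870912 0 0 1045395039 1503240 (bndM ((nc 4 2)))) t 1 1 1 = true := ⟨fullT 6 0, by decide +kernel⟩
theorem bdU43 : ∃ t, chk3 (onCell 0 1230186008 0 0 1045395039 1503240 (bndM ((nc 4 3)))) t 1 1 1 = true := ⟨fullT 6 0, by decide +kernel⟩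
theorem bdU50 : ∃ t, chk3 (onCell 0 536870912 0 0 1045395039 1503240 (bndM ((nc 5 0)))) t 1 1 1 = true := ⟨fullT 6 0, by decide +kernel⟩
theorem bdU51 : ∃ t, chk3 (onCell 536870912 536870912 0 0 1045395039 1503240 (bndM ((nc 5 1)))) t 1 1 1 = true := ⟨fullT 6 0, by decide +kernel⟩
theorem bdU52 : ∃ t, chk3 (onCell 1073741824 536870912 0 0 1045395039 1503240 (bndM ((nc 5 2)))) t 1 1 1 = true := ⟨fullT 6 0, by decide +kernel⟩
theorem bdU53 : ∃ t, chk3 (onCell 0 1230186008 0 0 1045395039 1503240 (bndM ((nc 5 3)))) t 1 1 1 = true := ⟨fullT 6 0, by decide +kernel⟩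
theorem bdU60 : ∃ t, chk3 (onCell 0 536870912 0 0 1045395039 1503240 (bndM ((nc 6 0)))) t 1 1 1 = true := ⟨fullT 6 0, by decide +kernel⟩
theorem bdU61 : ∃ t, chk3 (onCell 536870912 536870912 0 0 1045395039 1503240 (bndM ((nc 6 1)))) t 1 1 1 = true := ⟨fullT 6 0, by decide +kernel⟩
theorem bdU62 : ∃ t, chk3 (onCell 1073741824 536870912 0 0 1045395039 1503240 (bndM ((nc 6 2)))) t 1 1 1 = true := ⟨fullT 6 0, by decide +kernel⟩
theorem bdU63 : ∃ t, chk3 (onCell 0 1230186008 0 0 1045395039 1503240 (bndM ((nc 6 3)))) t 1 1 1 = true := ⟨fullT 6 0, by decide +kernel⟩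
theorem bddU {x : ℝ} (hx : ((1045395039 : ℕ) : ℝ) / S ≤ x) (hx' : x ≤ (((1045395039 : ℕ) : ℝ) + (1503240 : ℕ)) / S) : ∃ C, ∀ j q y, OnC j q y → |((nc j q)).v (crd j q y) x| ≤ C := by
  refine ⟨256, ?_⟩
  intro j q y h
  fin_cases j
  · match q, h with
    | 0, h => exact bndM_sound bdU00 (bx00 y h).1 (bx00 y h).2 hx hx'
    | 1, h => exact bndM_sound bdU01 (bx01 y h).1 (bx01 y h).2 hx hx'
    | 2, h => exact bndM_sound bdU02 (bx02 y h).1 (bx02 y h).2 hx hx'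
    | 3, h => exact absurd h.1.1 (by linarith [y_lt (h.2 rfl)])
    | _ + 4, h => exact h.1.elim
  · match q, h with
    | 0, h => exact bndM_sound bdU10 (bx10 y h).1 (bx10 y h).2 hx hx'
    | 1, h => exact bndM_sound bdU11 (bx11 y h).1 (bx11 y h).2 hx hx'
    | 2, h => exact bndM_sound bdU12 (bx12 y h).1 (bx12 y h).2 hx hx'
    | 3, h => exact bndM_sound bdU13 (bx13 y h).1 (bx13 y h).2 hx hx'
    | _ + 4, h => exact h.1.elim
  · match q, h with
    | 0, h => exact bndM_sound bdU20 (bx20 y h).1 (bx20 y h).2 hx hx'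
    | 1, h => exact bndM_sound bdU21 (bx21 y h).1 (bx21 y h).2 hx hx'
    | 2, h => exact bndM_sound bdU22 (bx22 y h).1 (bx22 y h).2 hx hx'
    | 3, h => exact bndM_sound bdU23 (bx23 y h).1 (bx23 y h).2 hx hx'
    | _ + 4, h => exact h.1.elim
  · match q, h with
    | 0, h => exact bndM_sound bdU30 (bx30 y h).1 (bx30 y h).2 hx hx'
    | 1, h => exact bndM_sound bdU31 (bx31 y h).1 (bx31 y h).2 hx hx'
    | 2, h => exact bndM_sound bdU32 (bx32 y h).1 (bx32 y h).2 hx hx'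
    | 3, h => exact bndM_sound bdU33 (bx33 y h).1 (bx33 y h).2 hx hx'
    | _ + 4, h => exact h.1.elim
  · match q, h with
    | 0, h => exact bndM_sound bdU40 (bx40 y h).1 (bx40 y h).2 hx hx'
    | 1, h => exact bndM_sound bdU41 (bx41 y h).1 (bx41 y h).2 hx hx'
    | 2, h => exact bndM_sound bdU42 (bx42 y h).1 (bx42 y h).2 hx hx'
    | 3, h => exact bndM_sound bdU43 (bx43 y h).1 (bx43 y h).2 hx hx'
    | _ + 4, h => exact h.1.elim
  · match q, h with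
    | 0, h => exact bndM_sound bdU50 (bx50 y h).1 (bx50 y h).2 hx hx'
    | 1, h => exact bndM_sound bdU51 (bx51 y h).1 (bx51 y h).2 hx hx'
    | 2, h => exact bndM_sound bdU52 (bx52 y h).1 (bx52 y h).2 hx hx'
    | 3, h => exact bndM_sound bdU53 (bx53 y h).1 (bx53 y h).2 hx hx'
    | _ + 4, h => exact h.1.elim
  · match q, h with
    | 0, h => exact bndM_sound bdU60 (bx60 y h).1 (bx60 y h).2 hx hx'
    | 1, h => exact bndM_sound bdU61 (bx61 y h).1 (bx61 y h).2 hx hx'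
    | 2, h => exact bndM_sound bdU62 (bx62 y h).1 (bx62 y h).2 hx hx'
    | 3, h => exact bndM_sound bdU63 (bx63 y h).1 (bx63 y h).2 hx hx'
    | _ + 4, h => exact h.1.elim
theorem pinK {x : ℝ} (hx : ((1045395039 : ℕ) : ℝ) / S ≤ x) (hx' : x ≤ (((1045395039 : ℕ) : ℝ) + (1503240 : ℕ)) / S) : Pins PP tK x :=
  pins_of (fn := fun j q => (ndB j q).K) (pzeroK x) (pmidK x) (ptopK x) (bddK hx hx')
theorem thK {x : ℝ} (h : Pins PP tK x) : ∀ q X y, InQ q y → 1 ≤ qqn X y → qqn X y ≤ 3 →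
    thd PP tK q X y x = (pcB q).K.v X y x
  | 0 => thK0 h
  | 1 => thK1 h
  | 2 => thK2 h
  | 3 => thK3 h
  | _ + 4 => fun _ _ h => h.elim
theorem pinL {x : ℝ} (hx : ((1045395039 : ℕ) : ℝ) / S ≤ x) (hx' : x ≤ (((1045395039 : ℕ) : ℝ) + (1503240 : ℕ)) / S) : Pins PP tL x :=
  pins_of (fn := fun j q => (ndB j q).L) (pzeroL x) (pmidL x) (ptopL x) (bddL hx hx')
theorem thL {x : ℝ} (h : Pins PP tL x) : ∀ q X y, InQ q y → 1 ≤ qqn X y → qqn X y ≤ 3 →
    thd PP tL q X y x = (pcB q).L.v X y x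
  | 0 => thL0 h
  | 1 => thL1 h
  | 2 => thL2 h
  | 3 => thL3 h
  | _ + 4 => fun _ _ h => h.elim
theorem pinU {x : ℝ} (hx : ((1045395039 : ℕ) : ℝ) / S ≤ x) (hx' : x ≤ (((1045395039 : ℕ) : ℝ) + (1503240 : ℕ)) / S) : Pins PP tU x :=
  pins_of (fn := nc) (pzeroU x) (pmidU x) (ptopU x) (bddU hx hx')
theorem thU {x : ℝ} (h : Pins PP tU x) : ∀ q X y, InQ q y → 1 ≤ qqn X y → qqn X y ≤ 3 →
    thd PP tU q X y x = (pd q).v X y x
  | 0 => thU0 h
  | 1 => thU1 h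
  | 2 => thU2 h
  | 3 => thU3 h
  | _ + 4 => fun _ _ h => h.elim
theorem sideB {x : ℝ} (hx : ((1045395039 : ℕ) : ℝ) / S ≤ x) (hx' : x ≤ (((1045395039 : ℕ) : ℝ) + (1503240 : ℕ)) / S) : SideOk PP tK tL pcB x :=
  ⟨pinK hx hx', pinL hx hx', thK (pinK hx hx'), thL (pinL hx hx')⟩
theorem thrB {x : ℝ} (hx : ((1045395039 : ℕ) : ℝ) / S ≤ x) (hx' : x ≤ (((1045395039 : ℕ) : ℝ) + (1503240 : ℕ)) / S) : ThrOk PP tC (scP esg pd) x :=
  ThrOk.sc ⟨pinU hx hx', thU (pinU hx hx')⟩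
theorem atB00 {y x : ℝ} (h : OnC (0 : Fin 7) 0 y) : AtC PP tK tL tC ndB0q0 (Fn2.sc esg cd0q0) 0 0 y (y) x :=
  (atC_main (fC := nc) (nBY0 0) (nBX0 0) rfl rfl rfl h).sc
theorem covB00 {x : ℝ} : CovC PP tK tL tC ndB0q0 (Fn2.sc esg cd0q0) 0 0 0 536870912 (fun _ => True) x :=
  (covC_main (fC := nc) (nBY0 0) (nBX0 0) rfl rfl rfl bx00).sc
theorem atB01 {y x : ℝ} (h : OnC (0 : Fin 7) 1 y) : AtC PP tK tL tC ndB0q1 (Fn2.sc esg cd0q1) 0 1 y (y) x :=
  (atC_main (fC := nc) (nBY0 1) (nBX0 1) rfl rfl rfl h).sc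
theorem covB01 {x : ℝ} : CovC PP tK tL tC ndB0q1 (Fn2.sc esg cd0q1) 0 1 536870912 536870912 (fun _ => True) x :=
  (covC_main (fC := nc) (nBY0 1) (nBX0 1) rfl rfl rfl bx01).sc
theorem atB02 {y x : ℝ} (h : OnC (0 : Fin 7) 2 y) : AtC PP tK tL tC ndB0q2 (Fn2.sc esg cd0q2) 0 2 y (c1n y) x :=
  (atC_main (fC := nc) (nBY0 2) (nBX0 2) rfl rfl rfl h).sc
theorem covB02 {x : ℝ} : CovC PP tK tL tC ndB0q2 (Fn2.sc esg cd0q2) 0 2 0 536870912 (fun _ => True) x :=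
  (covC_main (fC := nc) (nBY0 2) (nBX0 2) rfl rfl rfl bx02).sc
theorem atB10 {y x : ℝ} (h : OnC (1 : Fin 7) 0 y) : AtC PP tK tL tC ndB1q0 (Fn2.sc esg cd1q0) 1 0 y (y) x :=
  (atC_main (fC := nc) (nBY1 0) (nBX1 0) rfl rfl rfl h).sc
theorem covB10 {x : ℝ} : CovC PP tK tL tC ndB1q0 (Fn2.sc esg cd1q0) 1 0 0 536870912 (fun _ => True) x :=
  (covC_main (fC := nc) (nBY1 0) (nBX1 0) rfl rfl rfl bx10).sc
theorem atB11 {y x : ℝ} (h : OnC (1 : Fin 7) 1 y) : AtC PP tK tL tC ndB1q1 (Fn2.sc esg cd1q1) 1 1 y (y) x :=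
  (atC_main (fC := nc) (nBY1 1) (nBX1 1) rfl rfl rfl h).sc
theorem covB11 {x : ℝ} : CovC PP tK tL tC ndB1q1 (Fn2.sc esg cd1q1) 1 1 536870912 536870912 (fun _ => True) x :=
  (covC_main (fC := nc) (nBY1 1) (nBX1 1) rfl rfl rfl bx11).sc
theorem atB12 {y x : ℝ} (h : OnC (1 : Fin 7) 2 y) : AtC PP tK tL tC ndB1q2 (Fn2.sc esg cd1q2) 1 2 y (y) x :=
  (atC_main (fC := nc) (nBY1 2) (nBX1 2) rfl rfl rfl h).sc
theorem covB12 {x : ℝ} : CovC PP tK tL tC ndB1q2 (Fn2.sc esg cd1q2) 1 2 1073741824 536870912 (fun _ => True) x :=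
  (covC_main (fC := nc) (nBY1 2) (nBX1 2) rfl rfl rfl bx12).sc
theorem atB13 {y x : ℝ} (h : OnC (1 : Fin 7) 3 y) : AtC PP tK tL tC ndB1q3 (Fn2.sc esg cd1q3) 1 3 y (y) x :=
  (atC_main (fC := nc) (nBY1 3) (nBX1 3) rfl rfl rfl h).sc
theorem covB13 {x : ℝ} : CovC PP tK tL tC ndB1q3 (Fn2.sc esg cd1q3) 1 3 1610612736 536870912 (fun _ => True) x :=
  (covC_main (fC := nc) (nBY1 3) (nBX1 3) rfl rfl rfl bx13).sc
theorem atB20 {y x : ℝ} (h : OnC (2 : Fin 7) 0 y) : AtC PP tK tL tC ndB2q0 (Fn2.sc esg cd2q0) 2 0 y (y) x :=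
  (atC_main (fC := nc) (nBY2 0) (nBX2 0) rfl rfl rfl h).sc
theorem covB20 {x : ℝ} : CovC PP tK tL tC ndB2q0 (Fn2.sc esg cd2q0) 2 0 0 536870912 (fun _ => True) x :=
  (covC_main (fC := nc) (nBY2 0) (nBX2 0) rfl rfl rfl bx20).sc
theorem atB21 {y x : ℝ} (h : OnC (2 : Fin 7) 1 y) : AtC PP tK tL tC ndB2q1 (Fn2.sc esg cd2q1) 2 1 y (y) x :=
  (atC_main (fC := nc) (nBY2 1) (nBX2 1) rfl rfl rfl h).sc
theorem covB21 {x : ℝ} : CovC PP tK tL tC ndB2q1 (Fn2.sc esg cd2q1) 2 1 536870912 536870912 (fun _ => True) x :=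
  (covC_main (fC := nc) (nBY2 1) (nBX2 1) rfl rfl rfl bx21).sc
theorem atB22 {y x : ℝ} (h : OnC (2 : Fin 7) 2 y) : AtC PP tK tL tC ndB2q2 (Fn2.sc esg cd2q2) 2 2 y (y) x :=
  (atC_main (fC := nc) (nBY2 2) (nBX2 2) rfl rfl rfl h).sc
theorem covB22 {x : ℝ} : CovC PP tK tL tC ndB2q2 (Fn2.sc esg cd2q2) 2 2 1073741824 536870912 (fun _ => True) x :=
  (covC_main (fC := nc) (nBY2 2) (nBX2 2) rfl rfl rfl bx22).sc
theorem atB23 {y x : ℝ} (h : OnC (2 : Fin 7) 3 y) : AtC PP tK tL tC ndB2q3 (Fn2.sc esg cd2q3) 2 3 y (y) x :=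
  (atC_main (fC := nc) (nBY2 3) (nBX2 3) rfl rfl rfl h).sc
theorem covB23 {x : ℝ} : CovC PP tK tL tC ndB2q3 (Fn2.sc esg cd2q3) 2 3 1610612736 536870912 (fun _ => True) x :=
  (covC_main (fC := nc) (nBY2 3) (nBX2 3) rfl rfl rfl bx23).sc
theorem atB30 {y x : ℝ} (h : OnC (3 : Fin 7) 0 y) : AtC PP tK tL tC ndB3q0 (Fn2.sc esg cd3q0) 3 0 y (y) x :=
  (atC_main (fC := nc) (nBY3 0) (nBX3 0) rfl rfl rfl h).sc
theorem covB30 {x : ℝ} : CovC PP tK tL tC ndB3q0 (Fn2.sc esg cd3q0) 3 0 0 536870912 (fun _ => True) x :=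
  (covC_main (fC := nc) (nBY3 0) (nBX3 0) rfl rfl rfl bx30).sc
theorem atB31 {y x : ℝ} (h : OnC (3 : Fin 7) 1 y) : AtC PP tK tL tC ndB3q1 (Fn2.sc esg cd3q1) 3 1 y (y) x :=
  (atC_main (fC := nc) (nBY3 1) (nBX3 1) rfl rfl rfl h).sc
theorem covB31 {x : ℝ} : CovC PP tK tL tC ndB3q1 (Fn2.sc esg cd3q1) 3 1 536870912 536870912 (fun _ => True) x :=
  (covC_main (fC := nc) (nBY3 1) (nBX3 1) rfl rfl rfl bx31).sc
theorem atB32 {y x : ℝ} (h : OnC (3 : Fin 7) 2 y) : AtC PP tK tL tC ndB3q2 (Fn2.sc esg cd3q2) 3 2 y (y) x :=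
  (atC_main (fC := nc) (nBY3 2) (nBX3 2) rfl rfl rfl h).sc
theorem covB32 {x : ℝ} : CovC PP tK tL tC ndB3q2 (Fn2.sc esg cd3q2) 3 2 1073741824 536870912 (fun _ => True) x :=
  (covC_main (fC := nc) (nBY3 2) (nBX3 2) rfl rfl rfl bx32).sc
theorem atB33 {y x : ℝ} (h : OnC (3 : Fin 7) 3 y) : AtC PP tK tL tC ndB3q3 (Fn2.sc esg cd3q3) 3 3 y (c3n y) x :=
  (atC_main (fC := nc) (nBY3 3) (nBX3 3) rfl rfl rfl h).sc
theorem covB33 {x : ℝ} : CovC PP tK tL tC ndB3q3 (Fn2.sc esg cd3q3) 3 3 0 1230186008 (fun _ => True) x :=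
  (covC_main (fC := nc) (nBY3 3) (nBX3 3) rfl rfl rfl bx33).sc
theorem atB40 {y x : ℝ} (h : OnC (4 : Fin 7) 0 y) : AtC PP tK tL tC ndB4q0 (Fn2.sc esg cd4q0) 4 0 y (y) x :=
  (atC_main (fC := nc) (nBY4 0) (nBX4 0) rfl rfl rfl h).sc
theorem covB40 {x : ℝ} : CovC PP tK tL tC ndB4q0 (Fn2.sc esg cd4q0) 4 0 0 536870912 (fun _ => True) x :=
  (covC_main (fC := nc) (nBY4 0) (nBX4 0) rfl rfl rfl bx40).sc
theorem atB41 {y x : ℝ} (h : OnC (4 : Fin 7) 1 y) : AtC PP tK tL tC ndB4q1 (Fn2.sc esg cd4q1) 4 1 y (y) x :=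
  (atC_main (fC := nc) (nBY4 1) (nBX4 1) rfl rfl rfl h).sc
theorem covB41 {x : ℝ} : CovC PP tK tL tC ndB4q1 (Fn2.sc esg cd4q1) 4 1 536870912 536870912 (fun _ => True) x :=
  (covC_main (fC := nc) (nBY4 1) (nBX4 1) rfl rfl rfl bx41).sc
theorem atB42 {y x : ℝ} (h : OnC (4 : Fin 7) 2 y) : AtC PP tK tL tC ndB4q2 (Fn2.sc esg cd4q2) 4 2 y (y) x :=
  (atC_main (fC := nc) (nBY4 2) (nBX4 2) rfl rfl rfl h).sc
theorem covB42 {x : ℝ} : CovC PP tK tL tC ndB4q2 (Fn2.sc esg cd4q2) 4 2 1073741824 536870912 (fun _ => True) x :=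
  (covC_main (fC := nc) (nBY4 2) (nBX4 2) rfl rfl rfl bx42).sc
theorem atB43 {y x : ℝ} (h : OnC (4 : Fin 7) 3 y) : AtC PP tK tL tC ndB4q3 (Fn2.sc esg cd4q3) 4 3 y (c3n y) x :=
  (atC_main (fC := nc) (nBY4 3) (nBX4 3) rfl rfl rfl h).sc
theorem covB43 {x : ℝ} : CovC PP tK tL tC ndB4q3 (Fn2.sc esg cd4q3) 4 3 0 1230186008 (fun _ => True) x :=
  (covC_main (fC := nc) (nBY4 3) (nBX4 3) rfl rfl rfl bx43).sc
theorem atB50 {y x : ℝ} (h : OnC (5 : Fin 7) 0 y) : AtC PP tK tL tC ndB5q0 (Fn2.sc esg cd5q0) 5 0 y (y) x :=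
  (atC_main (fC := nc) (nBY5 0) (nBX5 0) rfl rfl rfl h).sc
theorem covB50 {x : ℝ} : CovC PP tK tL tC ndB5q0 (Fn2.sc esg cd5q0) 5 0 0 536870912 (fun _ => True) x :=
  (covC_main (fC := nc) (nBY5 0) (nBX5 0) rfl rfl rfl bx50).sc
theorem atB51 {y x : ℝ} (h : OnC (5 : Fin 7) 1 y) : AtC PP tK tL tC ndB5q1 (Fn2.sc esg cd5q1) 5 1 y (y) x :=
  (atC_main (fC := nc) (nBY5 1) (nBX5 1) rfl rfl rfl h).sc
theorem covB51 {x : ℝ} : CovC PP tK tL tC ndB5q1 (Fn2.sc esg cd5q1) 5 1 536870912 536870912 (fun _ => True) x :=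
  (covC_main (fC := nc) (nBY5 1) (nBX5 1) rfl rfl rfl bx51).sc
theorem atB52 {y x : ℝ} (h : OnC (5 : Fin 7) 2 y) : AtC PP tK tL tC ndB5q2 (Fn2.sc esg cd5q2) 5 2 y (y) x :=
  (atC_main (fC := nc) (nBY5 2) (nBX5 2) rfl rfl rfl h).sc
theorem covB52 {x : ℝ} : CovC PP tK tL tC ndB5q2 (Fn2.sc esg cd5q2) 5 2 1073741824 536870912 (fun _ => True) x :=
  (covC_main (fC := nc) (nBY5 2) (nBX5 2) rfl rfl rfl bx52).sc
theorem atB53 {y x : ℝ} (h : OnC (5 : Fin 7) 3 y) : AtC PP tK tL tC ndB5q3 (Fn2.sc esg cd5q3) 5 3 y (c3n y) x :=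
  (atC_main (fC := nc) (nBY5 3) (nBX5 3) rfl rfl rfl h).sc
theorem covB53 {x : ℝ} : CovC PP tK tL tC ndB5q3 (Fn2.sc esg cd5q3) 5 3 0 1230186008 (fun _ => True) x :=
  (covC_main (fC := nc) (nBY5 3) (nBX5 3) rfl rfl rfl bx53).sc
theorem atB60 {y x : ℝ} (h : OnC (6 : Fin 7) 0 y) : AtC PP tK tL tC ndB6q0 (Fn2.sc esg cd6q0) 6 0 y (y) x :=
  (atC_main (fC := nc) (nBY6 0) (nBX6 0) rfl rfl rfl h).sc
theorem covB60 {x : ℝ} : CovC PP tK tL tC ndB6q0 (Fn2.sc esg cd6q0) 6 0 0 536870912 (fun _ => True) x :=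
  (covC_main (fC := nc) (nBY6 0) (nBX6 0) rfl rfl rfl bx60).sc
theorem atB61 {y x : ℝ} (h : OnC (6 : Fin 7) 1 y) : AtC PP tK tL tC ndB6q1 (Fn2.sc esg cd6q1) 6 1 y (y) x :=
  (atC_main (fC := nc) (nBY6 1) (nBX6 1) rfl rfl rfl h).sc
theorem covB61 {x : ℝ} : CovC PP tK tL tC ndB6q1 (Fn2.sc esg cd6q1) 6 1 536870912 536870912 (fun _ => True) x :=
  (covC_main (fC := nc) (nBY6 1) (nBX6 1) rfl rfl rfl bx61).sc
theorem atB62 {y x : ℝ} (h : OnC (6 : Fin 7) 2 y) : AtC PP tK tL tC ndB6q2 (Fn2.sc esg cd6q2) 6 2 y (y) x :=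
  (atC_main (fC := nc) (nBY6 2) (nBX6 2) rfl rfl rfl h).sc
theorem covB62 {x : ℝ} : CovC PP tK tL tC ndB6q2 (Fn2.sc esg cd6q2) 6 2 1073741824 536870912 (fun _ => True) x :=
  (covC_main (fC := nc) (nBY6 2) (nBX6 2) rfl rfl rfl bx62).sc
theorem atB63 {y x : ℝ} (h : OnC (6 : Fin 7) 3 y) : AtC PP tK tL tC ndB6q3 (Fn2.sc esg cd6q3) 6 3 y (c3n y) x :=
  (atC_main (fC := nc) (nBY6 3) (nBX6 3) rfl rfl rfl h).sc
theorem covB63 {x : ℝ} : CovC PP tK tL tC ndB6q3 (Fn2.sc esg cd6q3) 6 3 0 1230186008 (fun _ => True) x :=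
  (covC_main (fC := nc) (nBY6 3) (nBX6 3) rfl rfl rfl bx63).sc
theorem mu_v (x : ℝ) : mug3.v x = mun 3 x := by
  simp only [mug3, mun, gsg, c1n]
  push_cast
  rw [one_div]
  congr 1
  ring_nf
theorem esg_v (x : ℝ) : esg.v x = esn x := by
  simp only [esg, gsg, esn, c1n]
  push_cast
  ring_nf
theorem mo_v (x : ℝ) : mog.v x = mun 3 x * (esg.v x * (1 / 20)) := by
  rw [← mu_v]
  simp only [mog]
  push_cast
  ring
theorem gug_nn {x : ℝ} (hx : 0 ≤ x) : 0 ≤ gug.v x := by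
  have h : gsg.v x ≤ 1 := by
    simp only [gsg]
    apply Real.sqrt_le_one.2 <;> (push_cast; nlinarith)
  simp only [gug]
  push_cast
  nlinarith
theorem en_v (x : ℝ) : eng.v x = 1 + mun 3 x * gug.v x := by
  rw [← mu_v]
  simp only [eng]
  push_cast
  ring
theorem en_pos {x : ℝ} (hx : 0 ≤ x) : 0 < eng.v x := by
  have h1 : 0 ≤ mun 3 x := by
    unfold mun
    have : 0 ≤ c1n x := Real.sqrt_nonneg _
    positivity
  have h2 := gug_nn hx
  rw [en_v]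
  positivity
theorem esg_rng {x : ℝ} (h0x : 0 ≤ x) (h1x : x ≤ 1) : 0 ≤ esg.v x ∧ esg.v x ≤ 31 / 200 := by
  rw [esg_v]
  exact esn_rng h0x h1x
theorem one0 {x : ℝ} (hx : ((1045395039 : ℕ) : ℝ) / S ≤ x) (hx' : x ≤ (((1045395039 : ℕ) : ℝ) + (1503240 : ℕ)) / S) : 0 ≤ crv PP 0 2 1 - 1 / 2 + mun 3 x * (tL 0 2 1 x - h0 * (1 / 20) * (2 * |smT h0⁻¹ tC 0 2 1 x|)) := by
  unfold smT
  have e1 : crv PP 0 2 1 - 1 / 2 = 0 := by
    rw [crv0]
    simp only [c1n_one, swn_one]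
    norm_num
  have e2 : tL 0 2 1 x = 0 := by
    refine (tbF_on (onC_one 0)).trans ?_
    show (ndB 0 2).L.v (c1n 1) x = 0
    rw [c1n_one]
    exact (corB02 x).2.2.1
  have e3 : tC 0 2 1 x = 0 := by
    refine (tbF_sc (F := esg) (fn := nc) (crd := crd) _ _ _ _).trans ?_
    have : tU 0 2 1 x = 0 := by
      refine (tbF_on (onC_one 0)).trans ?_
      show (nc 0 2).v (c1n 1) x = 0
      rw [c1n_one]
      exact (corB02 x).2.2.2
    exact (congrArg (esg.v x * ·) this).trans (mul_zero _)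
  rw [e1, e2, e3]
  norm_num
theorem one1 {x : ℝ} (hx : ((1045395039 : ℕ) : ℝ) / S ≤ x) (hx' : x ≤ (((1045395039 : ℕ) : ℝ) + (1503240 : ℕ)) / S) : 0 ≤ crv PP 1 2 1 - 1 / 2 + mun 3 x * (tL 1 2 1 x - h0 * (1 / 20) * (2 * |smT h0⁻¹ tC 1 2 1 x|)) := by
  unfold smT
  have e1 : crv PP 1 2 1 - 1 / 2 = 0 := by
    rw [crv1]
    simp only [wn2, c1n_one, swn_one]
    norm_num
  have e2 : tL 1 2 1 x = 0 := by
    refine (tbF_on (onC_one 1)).trans ?_
    show (ndB 1 2).L.v 1 x = 0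
    exact (corB12 x).2.2.1
  have e3 : tC 1 2 1 x = 0 := by
    refine (tbF_sc (F := esg) (fn := nc) (crd := crd) _ _ _ _).trans ?_
    have : tU 1 2 1 x = 0 := by
      refine (tbF_on (onC_one 1)).trans ?_
      show (nc 1 2).v 1 x = 0
      exact (corB12 x).2.2.2
    exact (congrArg (esg.v x * ·) this).trans (mul_zero _)
  rw [e1, e2, e3]
  norm_num
theorem one2 {x : ℝ} (hx : ((1045395039 : ℕ) : ℝ) / S ≤ x) (hx' : x ≤ (((1045395039 : ℕ) : ℝ) + (1503240 : ℕ)) / S) : 0 ≤ crv PP 2 2 1 - 1 / 2 + mun 3 x * (tL 2 2 1 x - h0 * (1 / 20) * (2 * |smT h0⁻¹ tC 2 2 1 x|)) := by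
  unfold smT
  have e1 : crv PP 2 2 1 - 1 / 2 = 0 := by
    rw [crv2]
    simp only [wn2, c1n_one, swn_one]
    norm_num
  have e2 : tL 2 2 1 x = 0 := by
    refine (tbF_on (onC_one 2)).trans ?_
    show (ndB 2 2).L.v 1 x = 0
    exact (corB22 x).2.2.1
  have e3 : tC 2 2 1 x = 0 := by
    refine (tbF_sc (F := esg) (fn := nc) (crd := crd) _ _ _ _).trans ?_
    have : tU 2 2 1 x = 0 := by
      refine (tbF_on (onC_one 2)).trans ?_
      show (nc 2 2).v 1 x = 0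
      exact (corB22 x).2.2.2
    exact (congrArg (esg.v x * ·) this).trans (mul_zero _)
  rw [e1, e2, e3]
  norm_num
theorem one3 {x : ℝ} (hx : ((1045395039 : ℕ) : ℝ) / S ≤ x) (hx' : x ≤ (((1045395039 : ℕ) : ℝ) + (1503240 : ℕ)) / S) : 0 ≤ crv PP 3 2 1 - 1 / 2 + mun 3 x * (tL 3 2 1 x - h0 * (1 / 20) * (2 * |smT h0⁻¹ tC 3 2 1 x|)) := by
  unfold smT
  have e1 : crv PP 3 2 1 - 1 / 2 = 71 / 2000 := by
    rw [crv3]
    simp only [wn2, c1n_one, swn_one, c3n_one]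
    norm_num
  have e2 : tL 3 2 1 x = l3q2.v 1 x := tbF_on (onC_one 3)
  have e3 : tC 3 2 1 x = esg.v x * kc3q2.v 1 x := by
    refine (tbF_sc (F := esg) (fn := nc) (crd := crd) _ _ _ _).trans ?_
    exact congrArg _ (tbF_on (onC_one 3))
  have hr := esg_rng (x := x) (by rw [S_num] at hx; norm_num at hx; linarith) (by rw [S_num] at hx'; norm_num at hx'; linarith)
  have hb : |kc3q2.v 1 x| ≤ 5 / 4 := by
    refine abs_le.2 ⟨?_, ?_⟩
    all_goals
      simp only [kc3q2, bd3q2, bd3q2_3, cv1m, cv2m, cv3m, cv4m, cv5m, cv1p, cv2p, cv3p, cv4p, cv5p, cv1r, cv2r, cv3r, cv4r, cv5r, c1g_v, swg_v, c3g_v, c1n_one, swn_one, c3n_one]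
      rw [S_num] at hx hx'
      norm_num at hx hx' ⊢
      try nlinarith
  rw [e1, e2, e3]
  refine oneE_of (by norm_num) (by norm_num) ?_
  refine sub_abs (B := 31 / 160) (by norm_num) (by
    rw [abs_mul, abs_of_nonneg hr.1]
    calc _ ≤ 31 / 200 * (5 / 4 : ℝ) := mul_le_mul hr.2 hb (abs_nonneg _) (by norm_num)
      _ ≤ _ := by norm_num) ?_
  simp only [l3q2, bx3q2, bx3q2_3, cv1m, cv2m, cv3m, cv4m, cv5m, cv1p, cv2p, cv3p, cv4p, cv5p, cv1r, cv2r, cv3r, cv4r, cv5r, c1g_v, swg_v, c3g_v, c1n_one, swn_one, c3n_one]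
  rw [S_num] at hx hx'
  norm_num at hx hx' ⊢
  try nlinarith
theorem one4 {x : ℝ} (hx : ((1045395039 : ℕ) : ℝ) / S ≤ x) (hx' : x ≤ (((1045395039 : ℕ) : ℝ) + (1503240 : ℕ)) / S) : 0 ≤ crv PP 4 2 1 - 1 / 2 + mun 3 x * (tL 4 2 1 x - h0 * (1 / 20) * (2 * |smT h0⁻¹ tC 4 2 1 x|)) := by
  unfold smT
  have e1 : crv PP 4 2 1 - 1 / 2 = 3 / 20 := by
    rw [crv4]
    simp only [wn2, c1n_one, swn_one, c3n_one]
    norm_num
  have e2 : tL 4 2 1 x = l4q2.v 1 x := tbF_on (onC_one 4)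
  have e3 : tC 4 2 1 x = esg.v x * kc4q2.v 1 x := by
    refine (tbF_sc (F := esg) (fn := nc) (crd := crd) _ _ _ _).trans ?_
    exact congrArg _ (tbF_on (onC_one 4))
  have hr := esg_rng (x := x) (by rw [S_num] at hx; norm_num at hx; linarith) (by rw [S_num] at hx'; norm_num at hx'; linarith)
  have hb : |kc4q2.v 1 x| ≤ 393 / 25 := by
    refine abs_le.2 ⟨?_, ?_⟩
    all_goals
      simp only [kc4q2, bd4q2, bd4q2_3, cv1m, cv2m, cv3m, cv4m, cv5m, cv1p, cv2p, cv3p, cv4p, cv5p, cv1r, cv2r, cv3r, cv4r, cv5r, c1g_v, swg_v, c3g_v, c1n_one, swn_one, c3n_one]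
      rw [S_num] at hx hx'
      norm_num at hx hx' ⊢
      try nlinarith
  rw [e1, e2, e3]
  refine oneE_of (by norm_num) (by norm_num) ?_
  refine sub_abs (B := 12183 / 5000) (by norm_num) (by
    rw [abs_mul, abs_of_nonneg hr.1]
    calc _ ≤ 31 / 200 * (393 / 25 : ℝ) := mul_le_mul hr.2 hb (abs_nonneg _) (by norm_num)
      _ ≤ _ := by norm_num) ?_
  simp only [l4q2, bx4q2, bx4q2_3, cv1m, cv2m, cv3m, cv4m, cv5m, cv1p, cv2p, cv3p, cv4p, cv5p, cv1r, cv2r, cv3r, cv4r, cv5r, c1g_v, swg_v, c3g_v, c1n_one, swn_one, c3n_one]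
  rw [S_num] at hx hx'
  norm_num at hx hx' ⊢
  try nlinarith
theorem one5 {x : ℝ} (hx : ((1045395039 : ℕ) : ℝ) / S ≤ x) (hx' : x ≤ (((1045395039 : ℕ) : ℝ) + (1503240 : ℕ)) / S) : 0 ≤ crv PP 5 2 1 - 1 / 2 + mun 3 x * (tL 5 2 1 x - h0 * (1 / 20) * (2 * |smT h0⁻¹ tC 5 2 1 x|)) := by
  unfold smT
  have e1 : crv PP 5 2 1 - 1 / 2 = 7 / 10 := by
    rw [crv5]
    simp only [wn2, c1n_one, swn_one, c3n_one]
    norm_num
  have e2 : tL 5 2 1 x = l5q2.v 1 x := tbF_on (onC_one 5)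
  have e3 : tC 5 2 1 x = esg.v x * kc5q2.v 1 x := by
    refine (tbF_sc (F := esg) (fn := nc) (crd := crd) _ _ _ _).trans ?_
    exact congrArg _ (tbF_on (onC_one 5))
  have hr := esg_rng (x := x) (by rw [S_num] at hx; norm_num at hx; linarith) (by rw [S_num] at hx'; norm_num at hx'; linarith)
  have hb : |kc5q2.v 1 x| ≤ 3019 / 50 := by
    refine abs_le.2 ⟨?_, ?_⟩
    all_goals
      simp only [kc5q2, bd5q2, bd5q2_3, cv1m, cv2m, cv3m, cv4m, cv5m, cv1p, cv2p, cv3p, cv4p, cv5p, cv1r, cv2r, cv3r, cv4r, cv5r, c1g_v, swg_v, c3g_v, c1n_one, swn_one, c3n_one]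
      rw [S_num] at hx hx'
      norm_num at hx hx' ⊢
      try nlinarith
  rw [e1, e2, e3]
  refine oneE_of (by norm_num) (by norm_num) ?_
  refine sub_abs (B := 93589 / 10000) (by norm_num) (by
    rw [abs_mul, abs_of_nonneg hr.1]
    calc _ ≤ 31 / 200 * (3019 / 50 : ℝ) := mul_le_mul hr.2 hb (abs_nonneg _) (by norm_num)
      _ ≤ _ := by norm_num) ?_
  simp only [l5q2, bx5q2, bx5q2_3, cv1m, cv2m, cv3m, cv4m, cv5m, cv1p, cv2p, cv3p, cv4p, cv5p, cv1r, cv2r, cv3r, cv4r, cv5r, c1g_v, swg_v, c3g_v, c1n_one, swn_one, c3n_one]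
  rw [S_num] at hx hx'
  norm_num at hx hx' ⊢
  try nlinarith
theorem one6 {x : ℝ} (hx : ((1045395039 : ℕ) : ℝ) / S ≤ x) (hx' : x ≤ (((1045395039 : ℕ) : ℝ) + (1503240 : ℕ)) / S) : 0 ≤ crv PP 6 2 1 - 1 / 2 + mun 3 x * (tL 6 2 1 x - h0 * (1 / 20) * (2 * |smT h0⁻¹ tC 6 2 1 x|)) := by
  unfold smT
  have e1 : crv PP 6 2 1 - 1 / 2 = 1 := by
    rw [crv6]
    simp only [c3n_one]
    norm_num
  have e2 : tL 6 2 1 x = l6q2.v 1 x := tbF_on (onC_one 6)
  have e3 : tC 6 2 1 x = esg.v x * kc6q2.v 1 x := by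
    refine (tbF_sc (F := esg) (fn := nc) (crd := crd) _ _ _ _).trans ?_
    exact congrArg _ (tbF_on (onC_one 6))
  have hr := esg_rng (x := x) (by rw [S_num] at hx; norm_num at hx; linarith) (by rw [S_num] at hx'; norm_num at hx'; linarith)
  have hb : |kc6q2.v 1 x| ≤ 1 / 50 := by
    refine abs_le.2 ⟨?_, ?_⟩
    all_goals
      simp only [kc6q2, kc6q2_3, kc6q2_9, kc6q2_26, kc6q2_45, cv1m, cv2m, cv3m, cv4m, cv5m, cv1p, cv2p, cv3p, cv4p, cv5p, cv1r, cv2r, cv3r, cv4r, cv5r, c1g_v, swg_v, c3g_v, c1n_one, swn_one, c3n_one]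
      rw [S_num] at hx hx'
      norm_num at hx hx' ⊢
      try nlinarith
  rw [e1, e2, e3]
  refine oneE_of (by norm_num) (by norm_num) ?_
  refine sub_abs (B := 31 / 10000) (by norm_num) (by
    rw [abs_mul, abs_of_nonneg hr.1]
    calc _ ≤ 31 / 200 * (1 / 50 : ℝ) := mul_le_mul hr.2 hb (abs_nonneg _) (by norm_num)
      _ ≤ _ := by norm_num) ?_
  simp only [l6q2, l6q2_7, l6q2_8, l6q2_9, l6q2_12, l6q2_14, txg, txg_4, txg_6, txg_26, txg_29, txg_32, txg_35, txg_38, txg_55, txg_58, txg_59, txg_77, txg_78, txg_86, txg_100, txg_101, txg_121, txg_122, txg_131, txg_134, txg_152, txg_153, txg_172, txg_173, txg_181, txg_196, txg_197, txg_216, txg_217, txg_227, txg_230, txg_233, txg_248, txg_249, txg_268, txg_269, txg_277, txg_292, txg_293, txg_312, txg_313, txg_322, txg_325, txg_337, txg_338, txg_354, txg_355, txg_363, txg_376, txg_377, txg_396, txg_397, txg_406, txg_408, txg_411, txg_413, txg_428,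 txg_429, txg_448, txg_449, txg_455, txg_470, txg_471, txg_490, txg_491, txg_498, txg_499, txg_512, txg_513, txg_531, txg_532, txg_538, txg_552, txg_553, txg_571, txg_572, txg_580, txg_581, txg_582, txg_598, txg_599, txg_617, txg_618, txg_624, txg_640, txg_641, txg_661, txg_662, txg_669, txg_670, txg_687, txg_688, txg_709, txg_710, txg_716, txg_733, txg_734, txg_753, txg_764, txg_765, txg_776, txg_777, txg_800, txg_801, txg_806, txg_821, txg_822, txg_843, txg_844, kcg, kcg_3, kcg_6, kcg_9, kcg_12, kcg_13, kcg_18, kcg_30, kcg_33, kcg_34, kcg_39, kcg_44, kcg_57, kcg_58, kcg_66, kcg_67, kcg_72, kcg_85, kcg_86, kcg_91, kcg_94, kcg_107, kcg_108, kcg_117, kcg_120, kcg_121, kcg_124, kcg_136, kcg_137, kcg_142, kcg_145, kcg_157, kcg_158, kcg_166, kcg_167, kcg_170, kcg_180, kcg_181, kcg_189, kcg_192, kcg_200, kcg_201, kcg_206, kcg_209, kcg_216, kcg_217, kcg_218, kcg_223, kcg_224, kcg_233, kcg_239, kcg_244,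 kcg_254, kcg_261, kcg_262, kcg_268, kcg_278, kcg_284, kcg_291, kcg_303, cv1m, cv2m, cv3m, cv4m, cv5m, cv1p, cv2p, cv3p, cv4p, cv5p, cv1r, cv2r, cv3r, cv4r, cv5r, c1g_v, swg_v, c3g_v, c1n_one, swn_one, c3n_one]
  rw [S_num] at hx hx'
  norm_num at hx hx' ⊢
  try nlinarith
theorem atu12a {y x : ℝ} (h : OnC (1 : Fin 7) 2 y) (hv : h0 * y < 1) : AtC PP tK tL tU ndB1q2a cd1q2a 1 2 y (c1n y) x := by
  have h1 := h.1.nonneg
  have e := yag_v h1 hv
  have hc : ((1 : ℝ) - 3 / 4 * y ^ 2 ≤ 0) = False := eq_false (by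
    have := on_sq h1 hv
    linarith)
  refine ⟨⟨?_, ?_, ?_, ?_⟩, ?_⟩
  · exact e
  · rw [← nBX1 2 y h]
    show xc12a.v (c1n y) = cv1p.v y
    simp only [xc12a, cv1p, e, c1g_v]
    all_goals ((try push_cast); (try ring))
  · refine Eq.trans ?_ (tbF_on h).symm
    show kfc12a.v (c1n y) x = kf1q2.v y x
    simp only [kfc12a, bf1q2, bf1q2_3, kf1q2, cv1p, e, c1g_v]
    all_goals ((try push_cast); (try simp only [hc, if_true, if_false]); (try ring1))
  · refine Eq.trans ?_ (tbF_on h).symm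
    show lc12a.v (c1n y) x = l1q2.v y x
    simp only [lc12a, bx1q2, bx1q2_3, l1q2, cv1p, e, c1g_v]
    all_goals ((try push_cast); (try simp only [hc, if_true, if_false]); (try ring1))
  · refine Eq.trans ?_ (tbF_on h).symm
    show kcc12a.v (c1n y) x = kc1q2.v y x
    simp only [kcc12a, bd1q2, bd1q2_3, kc1q2, cv1p, e, c1g_v]
    all_goals ((try push_cast); (try simp only [hc, if_true, if_false]); (try ring1))
theorem atB12a {y x : ℝ} (h : OnC (1 : Fin 7) 2 y) (hv : h0 * y < 1) : AtC PP tK tL tC ndB1q2a (Fn2.sc esg cd1q2a) 1 2 y (c1n y) x :=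
  (atu12a h hv).sc
theorem covB12a {x : ℝ} : CovC PP tK tL tC ndB1q2a (Fn2.sc esg cd1q2a) 1 2 0 536870912 (fun y => h0 * y < 1) x :=
  covC_var (lo := 0) (hi := 1 / 2) (fun y => c1n y) (fun y h hv => atB12a h hv)
    (fun y h hv => c1n_half (by have := h.1.1; linarith)) (by norm_num) (by norm_num)
theorem atu12b {y x : ℝ} (h : OnC (1 : Fin 7) 2 y) (hv : 1 ≤ h0 * y) : AtC PP tK tL tU ndB1q2b cd1q2b 1 2 y (y) x := by
  have h1 := h.1.nonneg
  have e := c1g_off hv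
  have hc : ((1 : ℝ) - 3 / 4 * y ^ 2 ≤ 0) = True := eq_true (by
    have := off_sq hv
    linarith)
  refine ⟨⟨?_, ?_, ?_, ?_⟩, ?_⟩
  · exact rfl
  · rw [← nBX1 2 y h]
    show xc12b.v (y) = cv1p.v y
    simp only [xc12b, cv1p, e]
    all_goals ((try push_cast); (try ring))
  · refine Eq.trans ?_ (tbF_on h).symm
    show kfc12b.v (y) x = kf1q2.v y x
    simp only [kfc12b, bf1q2, bf1q2_3, kf1q2, cv1p, e]
    all_goals ((try push_cast); (try simp only [hc, if_true, if_false]); (try ring1))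
  · refine Eq.trans ?_ (tbF_on h).symm
    show lc12b.v (y) x = l1q2.v y x
    simp only [lc12b, bx1q2, bx1q2_3, l1q2, cv1p, e]
    all_goals ((try push_cast); (try simp only [hc, if_true, if_false]); (try ring1))
  · refine Eq.trans ?_ (tbF_on h).symm
    show kcc12b.v (y) x = kc1q2.v y x
    simp only [kcc12b, bd1q2, bd1q2_3, kc1q2, cv1p, e]
    all_goals ((try push_cast); (try simp only [hc, if_true, if_false]); (try ring1))
theorem atB12b {y x : ℝ} (h : OnC (1 : Fin 7) 2 y) (hv : 1 ≤ h0 * y) : AtC PP tK tL tC ndB1q2b (Fn2.sc esg cd1q2b) 1 2 y (y) x :=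
  (atu12b h hv).sc
theorem covB12b {x : ℝ} : CovC PP tK tL tC ndB1q2b (Fn2.sc esg cd1q2b) 1 2 1239849684 370763052 (fun y => 1 ≤ h0 * y) x :=
  covC_var (lo := 11547 / 10000) (hi := 3 / 2) (fun y => y) (fun y h hv => atB12b h hv)
    (fun y h hv => ⟨(lt_off hv).le, by have := h.1.2; linarith⟩) (by norm_num) (by norm_num)
theorem atu22a {y x : ℝ} (h : OnC (2 : Fin 7) 2 y) (hv : h0 * y < 1) : AtC PP tK tL tU ndB2q2a cd2q2a 2 2 y (c1n y) x := by
  have h1 := h.1.nonneg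
  have e := yag_v h1 hv
  have hc : ((1 : ℝ) - 3 / 4 * y ^ 2 ≤ 0) = False := eq_false (by
    have := on_sq h1 hv
    linarith)
  refine ⟨⟨?_, ?_, ?_, ?_⟩, ?_⟩
  · exact e
  · rw [← nBX2 2 y h]
    show xc22a.v (c1n y) = cv2p.v y
    simp only [xc22a, cv2p, e, c1g_v]
    all_goals ((try push_cast); (try ring))
  · refine Eq.trans ?_ (tbF_on h).symm
    show kfc22a.v (c1n y) x = kf2q2.v y x
    simp only [kfc22a, bf2q2, bf2q2_3, kf2q2, cv2p, e, c1g_v]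
    all_goals ((try push_cast); (try simp only [hc, if_true, if_false]); (try ring1))
  · refine Eq.trans ?_ (tbF_on h).symm
    show lc22a.v (c1n y) x = l2q2.v y x
    simp only [lc22a, bx2q2, bx2q2_3, l2q2, cv2p, e, c1g_v]
    all_goals ((try push_cast); (try simp only [hc, if_true, if_false]); (try ring1))
  · refine Eq.trans ?_ (tbF_on h).symm
    show kcc22a.v (c1n y) x = kc2q2.v y x
    simp only [kcc22a, bd2q2, bd2q2_3, kc2q2, cv2p, e, c1g_v]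
    all_goals ((try push_cast); (try simp only [hc, if_true, if_false]); (try ring1))
theorem atB22a {y x : ℝ} (h : OnC (2 : Fin 7) 2 y) (hv : h0 * y < 1) : AtC PP tK tL tC ndB2q2a (Fn2.sc esg cd2q2a) 2 2 y (c1n y) x :=
  (atu22a h hv).sc
theorem covB22a {x : ℝ} : CovC PP tK tL tC ndB2q2a (Fn2.sc esg cd2q2a) 2 2 0 536870912 (fun y => h0 * y < 1) x :=
  covC_var (lo := 0) (hi := 1 / 2) (fun y => c1n y) (fun y h hv => atB22a h hv)
    (fun y h hv => c1n_half (by have := h.1.1; linarith)) (by norm_num) (by norm_num)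
theorem atu22b {y x : ℝ} (h : OnC (2 : Fin 7) 2 y) (hv : 1 ≤ h0 * y) : AtC PP tK tL tU ndB2q2b cd2q2b 2 2 y (y) x := by
  have h1 := h.1.nonneg
  have e := c1g_off hv
  have hc : ((1 : ℝ) - 3 / 4 * y ^ 2 ≤ 0) = True := eq_true (by
    have := off_sq hv
    linarith)
  refine ⟨⟨?_, ?_, ?_, ?_⟩, ?_⟩
  · exact rfl
  · rw [← nBX2 2 y h]
    show xc22b.v (y) = cv2p.v y
    simp only [xc22b, cv2p, e]
    all_goals ((try push_cast); (try ring))
  · refine Eq.trans ?_ (tbF_on h).symm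
    show kfc22b.v (y) x = kf2q2.v y x
    simp only [kfc22b, bf2q2, bf2q2_3, kf2q2, cv2p, e]
    all_goals ((try push_cast); (try simp only [hc, if_true, if_false]); (try ring1))
  · refine Eq.trans ?_ (tbF_on h).symm
    show lc22b.v (y) x = l2q2.v y x
    simp only [lc22b, bx2q2, bx2q2_3, l2q2, cv2p, e]
    all_goals ((try push_cast); (try simp only [hc, if_true, if_false]); (try ring1))
  · refine Eq.trans ?_ (tbF_on h).symm
    show kcc22b.v (y) x = kc2q2.v y x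
    simp only [kcc22b, bd2q2, bd2q2_3, kc2q2, cv2p, e]
    all_goals ((try push_cast); (try simp only [hc, if_true, if_false]); (try ring1))
theorem atB22b {y x : ℝ} (h : OnC (2 : Fin 7) 2 y) (hv : 1 ≤ h0 * y) : AtC PP tK tL tC ndB2q2b (Fn2.sc esg cd2q2b) 2 2 y (y) x :=
  (atu22b h hv).sc
theorem covB22b {x : ℝ} : CovC PP tK tL tC ndB2q2b (Fn2.sc esg cd2q2b) 2 2 1239849684 370763052 (fun y => 1 ≤ h0 * y) x :=
  covC_var (lo := 11547 / 10000) (hi := 3 / 2) (fun y => y) (fun y h hv => atB22b h hv)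
    (fun y h hv => ⟨(lt_off hv).le, by have := h.1.2; linarith⟩) (by norm_num) (by norm_num)

end Pool.Agent.Strip051.G.I9736_9750.Tab
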