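import Pool.Agent.Strip051.G.I9736_9750.MolD

/-! # The tight charts of a table: certificates (generated) -/

set_option linter.all false
set_option maxRecDepth 100000

namespace Pool.Agent.Strip051.G.I9736_9750.Tab.Mo

open Pool.Agent.Strip051.PB Pool.Agent.Strip051.PB.Mol Pool.Agent.Strip051.PB.T
open Pool.Agent.Strip051.G.I9736_9750.Tab

noncomputable def f0Ap : ℕ → ℕ → ℕ → ℕ → Bool :=
  onCell 0 92274688 0 1048576 1045395039 1503240 (c0_Ap.row false 46137344)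

def h0_0Ap : ∃ t, chk3 f0Ap t 2 1 1 = true :=
  ⟨(a (l 7) (a (l 7) (a (a (l 7) (l 16)) (a (a (l 16) (l 16)) (a (a (l 16) (c (l 8) (l 8))) (c (a (l 8) (l 10)) (a (l 8) (l 10)))))))), by decide +kernel⟩

def h1_0Ap : ∃ t, chk3 f0Ap t 24 1 1 = true :=
  ⟨(a (a (a (c (l 10) (l 10)) (c (l 2) (l 2))) (c (a (l 2) (l 2)) (a (l 2) (l 2)))) (a (c (a (b (l 2) (l 2)) (b (l 2) (l 2))) (a (b (l 2) (l 2)) (b (l 2) (l 2)))) (c (a (b (l 2) (l 2)) (b (l 2) (c (l 2) (l 2)))) (a (b (l 2) (c (l 2) (l 2))) (b (c (l 2) (l 2)) (c (l 2) (l 2))))))), by decide +kernel⟩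

def h2_0Ap : ∃ t, chk3 f0Ap t 50 1 1 = true :=
  ⟨(a (c (a (b (c (l 2) (l 2)) (c (l 2) (l 2))) (b (c (l 2) (l 2)) (c (a (l 2) (l 2)) (a (l 2) (l 2))))) (a (b (c (l 2) (l 2)) (c (l 2) (a (l 2) (l 2)))) (b (c (a (l 2) (l 2)) (a (l 2) (l 2))) (c (a (l 2) (l 2)) (a (l 2) (l 2)))))) (c (a (b (c (a (l 2) (l 2)) (a (l 2) (l 2))) (c (a (l 2) (l 2)) (a (l 2) (l 2)))) (b (c (a (l 2) (l 2)) (a (l 2) (l 2))) (c (a (l 2) (b (l 2) (l 2))) (a (l 2) (b (l 2) (l 2)))))) (a (b (c (a (l 2) (l 2)) (a (l 2) (l 2))) (c (a (l 2) (l 2)) (a (l 2) (b (l 2) (l 2))))) (b (c (a (l 2) (b (l 2) (l 2))) (a (l 2) (b (l 2) (l 2)))) (c (a (b (l 2) (l 2)) (b (l 2) (l 2))) (a (b (l 2) (l 2)) (b (l 2) (c (l 2) (l 2))))))))), by decide +kernel⟩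

def h3_0Ap : ∃ t, chk3 f0Ap t 102 1 2 = true :=
  ⟨(a (b (c (a (l 2) (b (l 2) (l 2))) (a (b (l 2) (l 2)) (b (l 2) (l 2)))) (c (a (b (l 2) (l 2)) (b (l 2) (l 2))) (a (b (l 2) (l 2)) (b (c (l 2) (l 2)) (c (l 2) (l 2)))))) (b (c (a (b (l 2) (l 2)) (b (l 2) (c (l 2) (l 2)))) (a (b (l 2) (c (l 2) (l 2))) (b (c (l 2) (l 2)) (c (l 2) (a (l 2) (b (l 2) (l 2))))))) (c (a (b (c (l 2) (l 2)) (c (l 2) (l 2))) (b (c (l 2) (a (l 2) (l 2))) (c (a (l 2) (b (l 2) (l 2))) (a (b (l 2) (l 2)) (b (l 2) (c (l 2) (l 9))))))) (a (b (c (l 2) (a (l 2) (l 2))) (c (a (l 2) (b (l 2) (l 2))) (a (b (l 2) (l 2)) (b (l 2) (c (l 2) (l 9)))))) (b (c (a (l 2) (b (l 2) (c (l 2) (l 2)))) (a (b (l 2) (c (l 2) (l 2))) (b (c (l 2) (l 9)) (l 9)))) (c (a (b (l 2) (c (l 2) (l 9))) (l 9)) (l 9))))))), by decide +kernel⟩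

def h4_0Ap : ∃ t, chk3 f0Ap t 204 1 3 = true :=
  ⟨(b (c (a (b (l 2) (l 2)) (c (l 2) (l 2))) (a (b (l 2) (l 2)) (b (c (l 2) (l 2)) (c (l 2) (a (l 2) (b (l 2) (l 2))))))) (c (a (b (l 2) (c (l 2) (l 2))) (b (c (l 2) (a (l 2) (l 2))) (c (a (l 2) (b (l 2) (l 2))) (a (b (l 2) (l 2)) (b (l 2) (l 9)))))) (a (b (c (l 2) (a (l 2) (l 2))) (c (a (l 2) (b (l 2) (l 2))) (a (b (l 2) (l 2)) (b (l 2) (l 9))))) (b (c (a (l 2) (b (l 2) (c (l 2) (l 9)))) (a (b (l 2) (c (l 2) (l 9))) (b (c (l 2) (l 9)) (l 9)))) (c (a (b (l 2) (l 9)) (l 9)) (l 9)))))), by decide +kernel⟩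

def h5_0Ap : ∃ t, chk3 f0Ap t 205 1 3 = true :=
  ⟨(b (c (a (b (c (l 2) (l 2)) (c (l 2) (a (l 2) (b (l 2) (l 2))))) (b (c (a (l 2) (l 2)) (a (l 2) (b (l 2) (c (l 2) (l 9))))) (c (a (b (l 2) (l 2)) (b (l 2) (l 9))) (a (b (l 2) (l 9)) (l 9))))) (a (b (c (a (l 2) (l 2)) (a (l 2) (b (l 2) (c (l 2) (l 9))))) (c (a (b (l 2) (l 2)) (b (l 2) (l 9))) (a (b (l 2) (l 9)) (l 9)))) (b (c (a (b (l 2) (c (l 2) (l 9))) (b (c (l 2) (l 5)) (l 9))) (l 5)) (l 9)))) (c (a (b (c (a (l 2) (b (l 2) (c (l 2) (l 9)))) (a (b (l 2) (c (l 2) (l 9))) (b (c (l 2) (l 9)) (l 9)))) (c (a (b (l 2) (c (l 2) (l 9))) (l 9)) (l 9))) (b (c (a (b (c (l 2) (l 9)) (l 9)) (l 9)) (l 9)) (l 9))) (a (b (c (a (b (c (l 2) (l 9)) (l 9)) (l 9)) (l 9)) (l 9)) (l 9)))), by decide +kernel⟩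

def h6_0Ap : ∃ t, chk3 f0Ap t 103 1 2 = true :=
  ⟨(a (b (c (a (b (c (l 2) (l 2)) (c (l 2) (a (l 2) (b (l 2) (l 2))))) (b (c (a (l 2) (l 2)) (a (l 2) (b (l 2) (c (l 2) (l 9))))) (c (a (b (l 2) (l 2)) (b (l 2) (c (l 2) (l 9)))) (a (b (l 2) (c (l 2) (l 9))) (l 9))))) (a (b (c (a (l 2) (l 2)) (a (l 2) (b (l 2) (c (l 2) (l 9))))) (c (a (b (l 2) (l 2)) (b (l 2) (c (l 2) (l 9)))) (a (b (l 2) (l 9)) (l 9)))) (b (c (a (b (l 2) (c (l 2) (l 9))) (b (c (l 2) (l 5)) (l 9))) (a (b (c (l 2) (l 5)) (l 9)) (l 5))) (l 9)))) (c (a (b (c (a (l 2) (b (l 2) (c (l 2) (l 2)))) (a (b (l 2) (c (l 2) (l 2))) (b (c (l 2) (l 9)) (l 9)))) (c (a (b (l 2) (c (l 2) (l 9))) (l 9)) (l 9))) (b (c (a (b (c (l 2) (l 9)) (l 9)) (l 9)) (l 9)) (l 9))) (a (b (c (a (b (c (l 2) (l 9)) (l 9)) (l 9)) (l 9)) (l 9)) (l 9)))) (b (c (a (b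 (c (a (b (l 2) (c (l 2) (l 2))) (b (c (l 2) (l 5)) (l 9))) (a (b (c (l 2) (l 5)) (l 9)) (l 5))) (l 9)) (l 5)) (l 5)) (l 9))), by decide +kernel⟩

def h7_0Ap : ∃ t, chk3 f0Ap t 103 1 3 = true :=
  ⟨(a (b (c (a (b (c (a (b (l 2) (c (l 2) (l 9))) (b (c (l 2) (l 5)) (l 9))) (a (b (c (l 2) (l 5)) (l 9)) (l 5))) (l 9)) (l 5)) (l 5)) (l 9)) (l 5)), by decide +kernel⟩

def h8_0Ap : ∃ t, chk3 f0Ap t 13 1 1 = true :=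
  ⟨(l 5), by decide +kernel⟩

def h9_0Ap : ∃ t, chk3 f0Ap t 7 1 1 = true :=
  ⟨(l 5), by decide +kernel⟩

theorem h10_0Ap : ∃ t, chk3 f0Ap t 103 1 1 = true := ex3_c h6_0Ap h7_0Ap

theorem h11_0Ap : ∃ t, chk3 f0Ap t 102 1 3 = true := ex3_a h4_0Ap h5_0Ap

theorem h12_0Ap : ∃ t, chk3 f0Ap t 102 1 1 = true := ex3_c h3_0Ap h11_0Ap

theorem h13_0Ap : ∃ t, chk3 f0Ap t 51 1 1 = true := ex3_a h12_0Ap h10_0Ap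

theorem h14_0Ap : ∃ t, chk3 f0Ap t 25 1 1 = true := ex3_a h2_0Ap h13_0Ap

theorem h15_0Ap : ∃ t, chk3 f0Ap t 12 1 1 = true := ex3_a h1_0Ap h14_0Ap

theorem h16_0Ap : ∃ t, chk3 f0Ap t 6 1 1 = true := ex3_a h15_0Ap h8_0Ap

theorem h17_0Ap : ∃ t, chk3 f0Ap t 3 1 1 = true := ex3_a h16_0Ap h9_0Ap

theorem h18_0Ap : ∃ t, chk3 f0Ap t 1 1 1 = true := ex3_a h0_0Ap h17_0Ap

theorem ct_0Ap : ∃ t, chk3 f0Ap t 1 1 1 = true := h18_0Ap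

noncomputable def f0Apk1 : ℕ → ℕ → ℕ → ℕ → Bool :=
  onCell 0 92274688 0 1048576 1045395039 1503240 (c0_Apk1.row false 46137344)

def h0_0Apk1 : ∃ t, chk3 f0Apk1 t 1 1 1 = true :=
  ⟨(a (a (l 7) (a (l 7) (a (a (l 7) (l 8)) (a (l 8) (l 10))))) (a (a (a (a (l 10) (l 2)) (a (a (l 2) (l 2)) (a (l 2) (c (l 2) (l 2))))) (l 5)) (l 5))), by decide +kernel⟩

theorem ct_0Apk1 : ∃ t, chk3 f0Apk1 t 1 1 1 = true := h0_0Apk1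

noncomputable def f0Apk2 : ℕ → ℕ → ℕ → ℕ → Bool :=
  onCell 0 92274688 0 1048576 1045395039 1503240 (c0_Apk2.row false 46137344)

def h0_0Apk2 : ∃ t, chk3 f0Apk2 t 1 1 1 = true :=
  ⟨(a (a (l 7) (a (l 7) (a (l 8) (l 10)))) (a (a (a (a (l 10) (l 2)) (a (l 2) (a (l 2) (l 2)))) (l 5)) (l 5))), by decide +kernel⟩

theorem ct_0Apk2 : ∃ t, chk3 f0Apk2 t 1 1 1 = true := h0_0Apk2

noncomputable def f0Am : ℕ → ℕ → ℕ → ℕ → Bool :=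
  onCell 0 92274688 0 1048576 1045395039 1503240 (c0_Am.row true 46137344)

def h0_0Am : ∃ t, chk3 f0Am t 1 1 1 = true :=
  ⟨(a (a (l 7) (a (l 7) (a (a (l 7) (l 8)) (a (l 8) (a (l 8) (l 10)))))) (a (a (a (a (a (a (l 10) (c (l 10) (l 10))) (l 2)) (a (c (l 2) (l 2)) (c (l 2) (l 2)))) (a (a (c (l 2) (l 2)) (c (l 2) (l 2))) (a (c (a (l 2) (l 2)) (a (l 2) (l 2))) (c (a (l 2) (l 2)) (a (l 2) (l 5)))))) (l 5)) (l 5))), by decide +kernel⟩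

theorem ct_0Am : ∃ t, chk3 f0Am t 1 1 1 = true := h0_0Am

noncomputable def f0Bp : ℕ → ℕ → ℕ → ℕ → Bool :=
  onCell 0 92274688 0 1048576 1045395039 1503240 (c0_Bp.row false 46137344)

def h0_0Bp : ∃ t, chk3 f0Bp t 2 1 1 = true :=
  ⟨(a (l 7) (a (l 7) (a (a (l 7) (l 16)) (a (a (l 16) (c (l 8) (l 8))) (a (a (c (l 8) (l 8)) (c (l 8) (l 8))) (c (a (l 8) (b (l 10) (l 8))) (a (b (l 8) (l 8)) (b (l 10) (l 8))))))))), by decide +kernel⟩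

def h1_0Bp : ∃ t, chk3 f0Bp t 24 1 1 = true :=
  ⟨(a (a (c (a (b (c (l 10) (a (l 10) (l 10))) (c (l 10) (l 10))) (b (c (l 2) (l 2)) (a (c (l 10) (l 10)) (l 2)))) (a (b (c (a (l 10) (b (l 2) (l 10))) (a (l 10) (l 10))) (c (l 10) (a (l 8) (l 10)))) (b (l 2) (a (c (b (l 10) (l 10)) (b (l 10) (l 10))) (l 2))))) (c (a (b (c (l 2) (l 2)) (c (l 2) (l 2))) (b (l 2) (c (l 2) (l 2)))) (a (b (l 2) (l 2)) (b (l 2) (l 2))))) (a (c (a (b (c (l 2) (l 2)) (c (l 2) (l 2))) (b (c (l 2) (l 2)) (c (l 2) (l 2)))) (a (b (c (l 2) (l 2)) (c (l 2) (l 2))) (b (c (l 2) (l 2)) (c (l 2) (l 2))))) (c (a (b (c (l 2) (l 2)) (c (l 2) (l 2))) (b (c (a (l 2) (l 2)) (a (l 2) (l 2))) (a (l 2) (c (l 2) (l 2))))) (a (b (c (l 2) (a (l 2) (l 2))) (c (l 2) (l 2))) (b (c (a (l 2) (l 2)) (a (l 2) (l 2))) (c (a (l 2) (l 2)) (a (l 2)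 (l 2)))))))), by decide +kernel⟩

def h2_0Bp : ∃ t, chk3 f0Bp t 100 1 1 = true :=
  ⟨(c (a (b (c (a (l 2) (l 2)) (a (l 2) (l 2))) (c (a (l 2) (l 2)) (a (l 2) (l 2)))) (b (c (a (l 2) (b (l 2) (l 2))) (a (l 2) (b (l 2) (l 2)))) (c (a (l 2) (b (l 2) (l 2))) (a (b (l 2) (l 2)) (b (l 2) (l 2)))))) (a (b (c (a (l 2) (l 2)) (a (l 2) (b (l 2) (l 2)))) (c (a (l 2) (l 2)) (a (l 2) (b (l 2) (l 2))))) (b (c (a (b (l 2) (l 2)) (b (l 2) (l 2))) (a (b (l 2) (l 2)) (b (l 2) (l 2)))) (c (a (b (l 2) (l 2)) (b (l 2) (l 2))) (a (b (l 2) (l 2)) (b (l 2) (l 2))))))), by decide +kernel⟩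

def h3_0Bp : ∃ t, chk3 f0Bp t 101 1 1 = true :=
  ⟨(c (a (b (c (a (b (l 2) (l 2)) (b (l 2) (l 2))) (a (b (l 2) (l 2)) (b (l 2) (l 2)))) (c (a (b (l 2) (l 2)) (b (l 2) (l 2))) (a (b (l 2) (l 2)) (b (l 2) (l 2))))) (b (c (a (b (l 2) (l 2)) (b (l 2) (l 2))) (a (b (l 2) (l 2)) (b (l 2) (c (l 2) (l 2))))) (c (a (b (l 2) (l 2)) (b (c (l 2) (l 2)) (c (l 2) (l 2)))) (a (b (l 2) (c (l 2) (l 2))) (b (c (l 2) (l 2)) (c (l 2) (l 2))))))) (a (b (c (a (b (l 2) (l 2)) (b (l 2) (l 2))) (a (b (l 2) (l 2)) (b (l 2) (l 2)))) (c (a (b (l 2) (l 2)) (b (l 2) (l 2))) (a (b (l 2) (l 2)) (b (c (l 2) (l 2)) (c (l 2) (l 2)))))) (b (c (a (b (l 2) (l 2)) (b (c (l 2) (l 2)) (c (l 2) (l 2)))) (a (b (l 2) (c (l 2) (l 2))) (b (c (l 2) (l 2)) (c (l 2) (l 2))))) (c (a (b (c (l 2) (l 2)) (c (l 2) (l 2))) (b (c (l 2) (l 2)) (c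 (l 2) (l 2)))) (a (b (c (l 2) (l 2)) (c (l 2) (l 2))) (b (c (l 2) (l 2)) (c (l 2) (l 2)))))))), by decide +kernel⟩

def h4_0Bp : ∃ t, chk3 f0Bp t 102 1 2 = true :=
  ⟨(a (b (c (a (b (l 2) (c (l 2) (l 2))) (b (c (l 2) (l 2)) (c (l 2) (l 2)))) (a (b (c (l 2) (l 2)) (c (l 2) (l 2))) (b (c (l 2) (l 2)) (c (l 2) (l 2))))) (c (a (b (c (l 2) (l 2)) (c (l 2) (l 2))) (b (c (l 2) (l 2)) (c (l 2) (l 2)))) (a (b (c (l 2) (l 2)) (c (l 2) (l 2))) (b (c (l 2) (l 2)) (c (l 2) (l 2)))))) (b (c (a (b (c (l 2) (l 2)) (c (l 2) (l 2))) (b (c (l 2) (l 2)) (c (l 2) (l 2)))) (a (b (c (l 2) (l 2)) (c (l 2) (l 2))) (b (c (l 2) (l 2)) (c (l 2) (l 2))))) (c (a (b (c (l 2) (l 2)) (c (l 2) (l 2))) (b (c (l 2) (l 2)) (c (l 2) (l 2)))) (a (b (c (l 2) (l 2)) (c (l 2) (l 2))) (b (c (l 2) (l 2)) (c (l 2) (a (l 2) (l 2)))))))),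 by decide +kernel⟩

def h5_0Bp : ∃ t, chk3 f0Bp t 102 1 3 = true :=
  ⟨(a (b (c (a (b (c (l 2) (l 2)) (c (l 2) (l 2))) (b (c (l 2) (l 2)) (c (l 2) (l 2)))) (a (b (c (l 2) (l 2)) (c (l 2) (l 2))) (b (c (l 2) (l 2)) (c (l 2) (l 2))))) (c (a (b (c (l 2) (l 2)) (c (l 2) (l 2))) (b (c (l 2) (l 2)) (c (l 2) (l 2)))) (a (b (c (l 2) (l 2)) (c (l 2) (l 2))) (b (c (l 2) (l 2)) (c (l 2) (a (l 2) (l 2))))))) (b (c (a (b (c (l 2) (l 2)) (c (l 2) (l 2))) (b (c (l 2) (l 2)) (c (l 2) (l 2)))) (a (b (c (l 2) (l 2)) (c (l 2) (l 2))) (c (b (l 2) (l 2)) (l 5)))) (c (a (b (c (l 2) (l 2)) (c (l 2) (a (l 2) (l 2)))) (b (c (l 2) (l 2)) (c (a (l 2) (l 2)) (a (l 2) (l 2))))) (a (b (c (l 2) (l 2)) (c (a (l 2) (l 2)) (a (l 2) (l 2)))) (c (b (l 2) (a (l 2) (l 2))) (l 5)))))), by decide +kernel⟩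

def h6_0Bp : ∃ t, chk3 f0Bp t 103 1 1 = true :=
  ⟨(c (a (b (c (a (b (c (l 2) (l 2)) (c (l 2) (l 2))) (b (c (l 2) (l 2)) (c (l 2) (l 2)))) (a (b (c (l 2) (l 2)) (c (l 2) (l 2))) (b (c (l 2) (l 2)) (c (l 2) (l 2))))) (c (a (b (c (l 2) (l 2)) (c (l 2) (a (l 2) (l 2)))) (b (c (l 2) (l 2)) (c (a (l 2) (l 2)) (a (l 2) (l 2))))) (a (b (c (l 2) (l 2)) (c (a (l 2) (l 2)) (a (l 2) (l 2)))) (b (c (l 2) (l 2)) (c (a (l 2) (l 2)) (a (l 2) (l 5))))))) (c (a (b (b (c (l 2) (l 2)) (c (l 2) (l 2))) (b (c (l 2) (l 2)) (c (a (l 2) (l 2)) (a (l 2) (l 5))))) (l 5)) (l 5))) (a (c (a (b (b (c (l 2) (l 2)) (c (l 2) (l 2))) (b (c (l 2) (l 2)) (c (a (l 2) (l 2)) (a (l 2) (l 5))))) (l 5)) (l 5)) (l 5))), by decide +kernel⟩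

def h7_0Bp : ∃ t, chk3 f0Bp t 13 1 1 = true :=
  ⟨(l 5), by decide +kernel⟩

def h8_0Bp : ∃ t, chk3 f0Bp t 7 1 1 = true :=
  ⟨(l 5), by decide +kernel⟩

theorem h9_0Bp : ∃ t, chk3 f0Bp t 102 1 1 = true := ex3_c h4_0Bp h5_0Bp

theorem h10_0Bp : ∃ t, chk3 f0Bp t 51 1 1 = true := ex3_a h9_0Bp h6_0Bp

theorem h11_0Bp : ∃ t, chk3 f0Bp t 50 1 1 = true := ex3_a h2_0Bp h3_0Bp

theorem h12_0Bp : ∃ t, chk3 f0Bp t 25 1 1 = true := ex3_a h11_0Bp h10_0Bp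

theorem h13_0Bp : ∃ t, chk3 f0Bp t 12 1 1 = true := ex3_a h1_0Bp h12_0Bp

theorem h14_0Bp : ∃ t, chk3 f0Bp t 6 1 1 = true := ex3_a h13_0Bp h7_0Bp

theorem h15_0Bp : ∃ t, chk3 f0Bp t 3 1 1 = true := ex3_a h14_0Bp h8_0Bp

theorem h16_0Bp : ∃ t, chk3 f0Bp t 1 1 1 = true := ex3_a h0_0Bp h15_0Bp

theorem ct_0Bp : ∃ t, chk3 f0Bp t 1 1 1 = true := h16_0Bp

noncomputable def f0Bpk1 : ℕ → ℕ → ℕ → ℕ → Bool :=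
  onCell 0 92274688 0 1048576 1045395039 1503240 (c0_Bpk1.row false 46137344)

def h0_0Bpk1 : ∃ t, chk3 f0Bpk1 t 1 1 1 = true :=
  ⟨(a (a (l 7) (a (l 7) (a (a (l 7) (l 8)) (a (l 8) (a (l 8) (l 10)))))) (a (a (a (a (a (c (l 10) (l 10)) (l 2)) (a (l 2) (c (l 2) (l 2)))) (a (a (c (l 2) (l 2)) (c (a (l 2) (l 2)) (a (l 2) (l 2)))) (a (c (a (l 2) (l 2)) (a (l 2) (l 2))) (c (a (l 2) (b (l 2) (l 2))) (a (b (l 2) (l 2)) (l 5)))))) (l 5)) (l 5))), by decide +kernel⟩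

theorem ct_0Bpk1 : ∃ t, chk3 f0Bpk1 t 1 1 1 = true := h0_0Bpk1

noncomputable def f0Bpk2 : ℕ → ℕ → ℕ → ℕ → Bool :=
  onCell 0 92274688 0 1048576 1045395039 1503240 (c0_Bpk2.row false 46137344)

def h0_0Bpk2 : ∃ t, chk3 f0Bpk2 t 1 1 1 = true :=
  ⟨(a (a (l 7) (a (l 7) (a (a (l 7) (l 8)) (a (l 8) (l 10))))) (a (a (a (a (a (l 10) (l 2)) (a (l 2) (l 2))) (a (a (c (l 2) (l 2)) (c (l 2) (l 2))) (a (c (a (l 2) (l 2)) (a (l 2) (l 2))) (c (a (l 2) (l 2)) (a (l 2) (l 5)))))) (l 5)) (l 5))), by decide +kernel⟩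

theorem ct_0Bpk2 : ∃ t, chk3 f0Bpk2 t 1 1 1 = true := h0_0Bpk2

noncomputable def f0Bm : ℕ → ℕ → ℕ → ℕ → Bool :=
  onCell 0 92274688 0 1048576 1045395039 1503240 (c0_Bm.row true 46137344)

def h0_0Bm : ∃ t, chk3 f0Bm t 1 1 1 = true :=
  ⟨(a (a (l 7) (a (l 7) (a (a (l 7) (l 16)) (a (a (l 16) (b (l 16) (l 16))) (a (a (c (l 8) (l 8)) (c (l 8) (b (l 8) (l 8)))) (c (a (l 8) (b (l 10) (l 10))) (a (b (l 8) (c (l 8) (l 8))) (b (l 10) (c (l 10) (l 10)))))))))) (a (a (a (a (a (a (c (b (l 10) (l 2)) (b (l 10) (l 2))) (c (l 2) (l 2))) (c (a (l 2) (l 2)) (a (l 2) (l 2)))) (a (c (a (l 2) (l 2)) (a (l 2) (l 2))) (c (a (l 2) (l 2)) (a (l 2) (l 2))))) (a (a (c (a (l 2) (l 2)) (a (l 2) (b (l 2) (l 2)))) (c (a (b (l 2) (l 2)) (b (l 2) (l 2))) (a (b (l 2) (l 2)) (b (l 2) (c (l 2) (l 2)))))) (a (c (a (b (l 2)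 (c (l 2) (l 2))) (b (c (l 2) (l 2)) (c (l 2) (l 2)))) (a (b (c (l 2) (l 2)) (c (l 2) (l 2))) (b (c (l 2) (l 2)) (c (l 2) (a (l 2) (l 9)))))) (c (a (b (c (l 2) (l 2)) (c (l 2) (a (l 2) (l 9)))) (b (c (a (l 2) (l 5)) (l 5)) (l 9))) (a (b (c (a (l 2) (l 5)) (l 5)) (l 9)) (l 5)))))) (l 5)) (l 5))), by decide +kernel⟩

theorem ct_0Bm : ∃ t, chk3 f0Bm t 1 1 1 = true := h0_0Bm

end Pool.Agent.Strip051.G.I9736_9750.Tab.Mo
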