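import Pool.Agent.Strip051.G.I9736_9750.MolD

/-! # The tight charts of a table: certificates (generated) -/

set_option linter.all false
set_option maxRecDepth 100000

namespace Pool.Agent.Strip051.G.I9736_9750.Tab.Mo

open Pool.Agent.Strip051.PB Pool.Agent.Strip051.PB.Mol Pool.Agent.Strip051.PB.T
open Pool.Agent.Strip051.G.I9736_9750.Tab

noncomputable def f3Ap : ℕ → ℕ → ℕ → ℕ → Bool :=
  onCell 0 92274688 0 1048576 1045395039 1503240 (c3_Ap.row false 46137344)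

def h0_3Ap : ∃ t, chk3 f3Ap t 2 1 1 = true :=
  ⟨(a (l 7) (a (l 7) (a (l 13) (a (l 13) (a (l 13) (a (l 13) (c (l 10) (l 10)))))))), by decide +kernel⟩

def h1_3Ap : ∃ t, chk3 f3Ap t 24 1 1 = true :=
  ⟨(a (a (a (c (l 10) (l 10)) (c (l 2) (l 2))) (c (a (l 2) (l 2)) (a (l 2) (l 2)))) (a (c (a (l 2) (b (l 2) (l 2))) (a (b (l 2) (l 2)) (b (l 2) (l 2)))) (c (a (b (l 2) (l 2)) (b (l 2) (l 2))) (a (b (l 2) (l 2)) (b (l 2) (l 2)))))), by decide +kernel⟩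

def h2_3Ap : ∃ t, chk3 f3Ap t 25 1 1 = true :=
  ⟨(a (a (c (a (b (l 2) (l 2)) (b (l 2) (l 2))) (a (b (l 2) (l 2)) (b (c (l 2) (l 2)) (c (l 2) (l 2))))) (c (a (b (c (l 2) (l 2)) (c (l 2) (l 2))) (b (c (l 2) (l 2)) (c (l 2) (l 2)))) (a (b (c (l 2) (l 2)) (c (l 2) (l 2))) (b (c (l 2) (l 2)) (c (l 2) (a (l 2) (l 2))))))) (a (c (a (b (c (l 2) (l 2)) (c (l 2) (a (l 2) (l 2)))) (b (c (l 2) (a (l 2) (b (l 2) (l 2)))) (c (a (l 2) (b (l 2) (l 2))) (a (b (l 2) (l 2)) (b (l 2) (l 2)))))) (a (b (c (l 2) (a (l 2) (b (l 2) (l 2)))) (c (a (l 2) (b (l 2) (l 2))) (a (b (l 2) (l 2)) (b (l 2) (l 2))))) (b (c (a (b (l 2) (l 2)) (b (l 2) (l 2))) (a (b (l 2) (l 2)) (b (l 2) (l 9)))) (c (a (b (l 2) (l 2)) (b (l 2) (l 9))) (a (b (l 2) (l 9)) (l 9)))))) (b (c (a (c (a (b (l 2) (l 2)) (b (l 2) (l 2))) (a (b (l 2) (l 2))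 (b (l 2) (l 9)))) (c (a (b (l 2) (l 9)) (l 5)) (l 5))) (a (c (a (b (l 2) (l 9)) (l 5)) (l 5)) (l 5))) (c (a (c (a (b (l 2) (l 2)) (b (l 2) (l 9))) (a (b (l 2) (l 9)) (l 9))) (l 9)) (l 9))))), by decide +kernel⟩

def h3_3Ap : ∃ t, chk3 f3Ap t 13 1 1 = true :=
  ⟨(l 5), by decide +kernel⟩

def h4_3Ap : ∃ t, chk3 f3Ap t 7 1 1 = true :=
  ⟨(l 5), by decide +kernel⟩

theorem h5_3Ap : ∃ t, chk3 f3Ap t 12 1 1 = true := ex3_a h1_3Ap h2_3Ap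

theorem h6_3Ap : ∃ t, chk3 f3Ap t 6 1 1 = true := ex3_a h5_3Ap h3_3Ap

theorem h7_3Ap : ∃ t, chk3 f3Ap t 3 1 1 = true := ex3_a h6_3Ap h4_3Ap

theorem h8_3Ap : ∃ t, chk3 f3Ap t 1 1 1 = true := ex3_a h0_3Ap h7_3Ap

theorem ct_3Ap : ∃ t, chk3 f3Ap t 1 1 1 = true := h8_3Ap

noncomputable def f3Apk1 : ℕ → ℕ → ℕ → ℕ → Bool :=
  onCell 0 92274688 0 1048576 1045395039 1503240 (c3_Apk1.row false 46137344)

def h0_3Apk1 : ∃ t, chk3 f3Apk1 t 1 1 1 = true :=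
  ⟨(a (a (l 7) (a (l 7) (a (l 13) (a (l 13) (a (l 13) (l 10)))))) (a (a (a (a (a (l 10) (l 2)) (a (l 2) (l 2))) (a (a (l 2) (c (l 2) (l 2))) (a (c (a (l 2) (l 2)) (a (l 2) (l 2))) (b (c (l 2) (l 2)) (c (a (l 2) (l 9)) (l 9)))))) (l 5)) (l 5))), by decide +kernel⟩

theorem ct_3Apk1 : ∃ t, chk3 f3Apk1 t 1 1 1 = true := h0_3Apk1

noncomputable def f3Apk2 : ℕ → ℕ → ℕ → ℕ → Bool :=
  onCell 0 92274688 0 1048576 1045395039 1503240 (c3_Apk2.row false 46137344)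

def h0_3Apk2 : ∃ t, chk3 f3Apk2 t 1 1 1 = true :=
  ⟨(a (a (l 7) (a (l 7) (a (l 13) (l 10)))) (a (a (a (a (l 10) (l 2)) (a (l 2) (a (c (l 2) (l 2)) (c (l 2) (a (l 2) (l 5)))))) (l 5)) (l 5))), by decide +kernel⟩

theorem ct_3Apk2 : ∃ t, chk3 f3Apk2 t 1 1 1 = true := h0_3Apk2

noncomputable def f3Am : ℕ → ℕ → ℕ → ℕ → Bool :=
  onCell 0 92274688 0 1048576 1045395039 1503240 (c3_Am.row true 46137344)

def h0_3Am : ∃ t, chk3 f3Am t 1 1 1 = true :=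
  ⟨(a (a (l 7) (a (l 7) (a (l 13) (a (l 13) (a (l 13) (c (l 10) (l 10))))))) (a (a (a (a (a (c (a (l 10) (b (l 2) (l 10))) (a (l 10) (b (l 2) (l 10)))) (c (l 2) (l 2))) (a (c (l 2) (a (l 2) (l 2))) (c (a (l 2) (l 2)) (a (l 2) (l 2))))) (a (a (c (a (l 2) (l 2)) (a (l 2) (l 2))) (c (a (l 2) (l 2)) (a (l 2) (l 2)))) (a (b (c (a (l 2) (l 2)) (a (l 2) (c (l 2) (l 2)))) (c (a (l 2) (l 2)) (a (l 2) (l 2)))) (c (b (a (c (l 2) (l 2)) (c (l 2) (l 5))) (a (l 2) (c (l 2) (l 5)))) (a (c (b (l 2) (l 2)) (l 5)) (l 5)))))) (l 5)) (l 5))), by decide +kernel⟩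

theorem ct_3Am : ∃ t, chk3 f3Am t 1 1 1 = true := h0_3Am

noncomputable def f3Bp : ℕ → ℕ → ℕ → ℕ → Bool :=
  onCell 0 92274688 0 1048576 1045395039 1503240 (c3_Bp.row false 46137344)

def h0_3Bp : ∃ t, chk3 f3Bp t 2 1 1 = true :=
  ⟨(a (l 7) (a (l 7) (a (l 13) (a (l 13) (a (l 13) (a (l 13) (a (l 13) (a (l 13) (a (l 13) (c (b (l 10) (l 8)) (l 10))))))))))), by decide +kernel⟩

def h1_3Bp : ∃ t, chk3 f3Bp t 24 1 1 = true :=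
  ⟨(a (a (b (a (c (a (l 10) (c (l 10) (l 10))) (c (a (l 10) (b (l 2) (l 10))) (a (l 10) (b (l 2) (l 10))))) (c (c (l 2) (l 2)) (c (l 2) (l 2)))) (c (a (a (l 8) (c (l 10) (l 10))) (a (b (c (l 10) (l 10)) (l 18)) (l 2))) (a (a (l 8) (c (l 10) (l 10))) (a (c (b (l 10) (l 10)) (b (l 10) (l 10))) (l 2))))) (b (c (a (c (l 2) (l 2)) (c (l 2) (l 2))) (a (c (l 2) (l 2)) (c (l 2) (l 2)))) (c (a (c (l 2) (l 2)) (c (l 2) (l 2))) (a (c (l 2) (l 2)) (c (l 2) (l 2)))))) (a (b (c (a (c (l 2) (l 2)) (c (l 2) (l 2))) (a (c (l 2) (l 2)) (c (a (l 2) (l 2)) (a (l 2) (l 2))))) (c (a (c (l 2) (l 2)) (c (l 2) (l 2))) (a (c (l 2) (l 2)) (c (a (l 2) (l 2)) (a (l 2) (l 2)))))) (b (c (a (c (a (l 2) (l 2)) (a (l 2) (l 2))) (c (a (l 2) (l 2)) (a (l 2) (l 2)))) (a (c (a (l 2) (l 2)) (a (l 2) (l 2))) (c (a (l 2) (l 2)) (a (l 2)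 (l 2))))) (c (a (c (a (l 2) (l 2)) (a (l 2) (l 2))) (c (a (l 2) (l 2)) (a (l 2) (l 2)))) (a (c (a (l 2) (l 2)) (a (l 2) (l 2))) (c (a (l 2) (l 2)) (a (l 2) (l 2)))))))), by decide +kernel⟩

def h2_3Bp : ∃ t, chk3 f3Bp t 100 1 1 = true :=
  ⟨(c (b (a (c (a (l 2) (l 2)) (a (l 2) (b (l 2) (l 2)))) (c (a (b (l 2) (l 2)) (b (l 2) (l 2))) (a (b (l 2) (l 2)) (b (l 2) (l 2))))) (a (c (a (l 2) (l 2)) (a (l 2) (b (l 2) (l 2)))) (c (a (b (l 2) (l 2)) (b (l 2) (l 2))) (a (b (l 2) (l 2)) (b (l 2) (l 2)))))) (b (a (c (a (l 2) (b (l 2) (l 2))) (a (b (l 2) (l 2)) (b (l 2) (l 2)))) (c (a (b (l 2) (l 2)) (b (l 2) (l 2))) (a (b (l 2) (l 2)) (b (l 2) (l 2))))) (a (c (a (b (l 2) (l 2)) (b (l 2) (l 2))) (a (b (l 2) (l 2)) (b (l 2) (l 2)))) (c (a (b (l 2) (l 2)) (b (l 2) (l 2))) (a (b (l 2) (l 2)) (b (l 2) (l 2))))))),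 by decide +kernel⟩

def h3_3Bp : ∃ t, chk3 f3Bp t 101 1 1 = true :=
  ⟨(c (b (a (c (a (b (l 2) (l 2)) (b (l 2) (l 2))) (a (b (l 2) (l 2)) (b (l 2) (l 2)))) (c (a (b (l 2) (l 2)) (b (l 2) (l 2))) (a (b (l 2) (l 2)) (b (l 2) (l 2))))) (a (c (a (b (l 2) (l 2)) (b (l 2) (l 2))) (a (b (l 2) (l 2)) (b (l 2) (l 2)))) (c (a (b (l 2) (l 2)) (b (l 2) (l 2))) (a (b (l 2) (l 2)) (b (l 2) (l 2)))))) (b (a (c (a (b (l 2) (l 2)) (b (l 2) (l 2))) (a (b (l 2) (l 2)) (b (l 2) (l 2)))) (c (a (b (l 2) (l 2)) (b (l 2) (l 2))) (a (b (l 2) (l 2)) (b (l 2) (l 2))))) (a (c (a (b (l 2) (l 2)) (b (l 2) (l 2))) (a (b (l 2) (l 2)) (b (l 2) (l 2)))) (c (a (b (l 2) (l 2)) (b (l 2) (l 2))) (a (b (l 2) (l 2)) (b (l 2) (l 2))))))), by decide +kernel⟩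

def h4_3Bp : ∃ t, chk3 f3Bp t 102 1 1 = true :=
  ⟨(c (a (b (c (a (b (l 2) (l 2)) (b (l 2) (l 2))) (a (b (l 2) (l 2)) (b (l 2) (l 2)))) (c (a (b (l 2) (l 2)) (b (l 2) (l 2))) (a (b (l 2) (l 2)) (b (l 2) (c (l 2) (l 2)))))) (b (c (a (b (l 2) (l 2)) (b (l 2) (l 2))) (a (b (l 2) (l 2)) (b (l 2) (l 2)))) (c (a (b (l 2) (c (l 2) (l 2))) (b (c (l 2) (l 2)) (c (l 2) (l 2)))) (a (b (c (l 2) (l 2)) (c (l 2) (l 2))) (b (c (l 2) (l 2)) (c (l 2) (l 2))))))) (b (a (c (a (b (l 2) (l 2)) (b (l 2) (l 2))) (a (b (l 2) (l 2)) (b (l 2) (l 2)))) (c (a (b (l 2) (l 2)) (b (l 2) (c (l 2) (l 2)))) (a (b (l 2) (c (l 2) (l 2))) (c (b (l 2) (l 2)) (l 5))))) (a (c (a (b (l 2) (c (l 2) (l 2))) (b (c (l 2) (l 2)) (c (l 2) (l 2)))) (a (b (l 2) (c (l 2) (l 2))) (b (c (l 2) (l 2)) (c (l 2) (l 2))))) (c (a (b (c (l 2) (l 2)) (c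 (l 2) (l 2))) (b (c (l 2) (l 2)) (c (l 2) (l 2)))) (a (b (c (l 2) (l 2)) (c (l 2) (l 2))) (c (b (l 2) (l 2)) (l 5))))))), by decide +kernel⟩

def h5_3Bp : ∃ t, chk3 f3Bp t 103 1 1 = true :=
  ⟨(b (c (a (c (a (b (l 2) (l 2)) (b (l 2) (l 2))) (a (b (l 2) (l 2)) (b (c (l 2) (l 2)) (c (l 2) (l 2))))) (c (a (b (c (l 2) (l 2)) (c (l 2) (l 2))) (l 5)) (l 5))) (a (c (a (b (c (l 2) (l 2)) (c (l 2) (l 2))) (l 5)) (l 5)) (l 5))) (c (a (c (a (b (c (l 2) (l 2)) (c (l 2) (l 2))) (b (c (l 2) (l 2)) (c (l 2) (l 2)))) (a (b (c (l 2) (l 2)) (c (l 2) (l 2))) (b (c (l 2) (l 2)) (c (l 2) (l 2))))) (c (a (b (c (l 2) (l 2)) (c (l 2) (l 2))) (l 5)) (l 5))) (a (c (a (b (c (l 2) (l 2)) (c (l 2) (l 2))) (l 5)) (l 5)) (l 5)))), by decide +kernel⟩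

def h6_3Bp : ∃ t, chk3 f3Bp t 13 1 1 = true :=
  ⟨(l 5), by decide +kernel⟩

def h7_3Bp : ∃ t, chk3 f3Bp t 7 1 1 = true :=
  ⟨(l 5), by decide +kernel⟩

theorem h8_3Bp : ∃ t, chk3 f3Bp t 51 1 1 = true := ex3_a h4_3Bp h5_3Bp

theorem h9_3Bp : ∃ t, chk3 f3Bp t 50 1 1 = true := ex3_a h2_3Bp h3_3Bp

theorem h10_3Bp : ∃ t, chk3 f3Bp t 25 1 1 = true := ex3_a h9_3Bp h8_3Bp

theorem h11_3Bp : ∃ t, chk3 f3Bp t 12 1 1 = true := ex3_a h1_3Bp h10_3Bp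

theorem h12_3Bp : ∃ t, chk3 f3Bp t 6 1 1 = true := ex3_a h11_3Bp h6_3Bp

theorem h13_3Bp : ∃ t, chk3 f3Bp t 3 1 1 = true := ex3_a h12_3Bp h7_3Bp

theorem h14_3Bp : ∃ t, chk3 f3Bp t 1 1 1 = true := ex3_a h0_3Bp h13_3Bp

theorem ct_3Bp : ∃ t, chk3 f3Bp t 1 1 1 = true := h14_3Bp

noncomputable def f3Bpk1 : ℕ → ℕ → ℕ → ℕ → Bool :=
  onCell 0 92274688 0 1048576 1045395039 1503240 (c3_Bpk1.row false 46137344)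

def h0_3Bpk1 : ∃ t, chk3 f3Bpk1 t 1 1 1 = true :=
  ⟨(a (a (l 7) (a (l 7) (a (l 13) (a (l 13) (a (l 13) (c (l 10) (l 10))))))) (a (a (a (a (a (a (l 10) (c (l 10) (l 10))) (c (l 2) (l 2))) (a (c (l 2) (l 2)) (c (l 2) (l 2)))) (a (a (c (a (l 2) (l 2)) (a (l 2) (l 2))) (c (a (l 2) (l 2)) (a (l 2) (l 2)))) (a (c (a (l 2) (b (l 2) (l 2))) (a (l 2) (b (l 2) (l 2)))) (b (c (a (l 2) (l 2)) (a (l 2) (l 5))) (c (a (l 2) (c (l 2) (l 5))) (a (c (l 2) (l 5)) (l 5))))))) (l 5)) (l 5))), by decide +kernel⟩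

theorem ct_3Bpk1 : ∃ t, chk3 f3Bpk1 t 1 1 1 = true := h0_3Bpk1

noncomputable def f3Bpk2 : ℕ → ℕ → ℕ → ℕ → Bool :=
  onCell 0 92274688 0 1048576 1045395039 1503240 (c3_Bpk2.row false 46137344)

def h0_3Bpk2 : ∃ t, chk3 f3Bpk2 t 1 1 1 = true :=
  ⟨(a (a (l 7) (a (l 7) (a (l 13) (a (l 13) (a (l 13) (l 10)))))) (a (a (a (a (a (l 10) (l 2)) (a (l 2) (c (l 2) (l 2)))) (a (a (c (l 2) (l 2)) (c (a (l 2) (l 2)) (a (l 2) (l 2)))) (a (c (a (l 2) (l 2)) (a (l 2) (b (l 2) (l 2)))) (c (a (b (l 2) (l 2)) (b (l 2) (l 2))) (a (b (l 2) (l 2)) (l 5)))))) (l 5)) (l 5))), by decide +kernel⟩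

theorem ct_3Bpk2 : ∃ t, chk3 f3Bpk2 t 1 1 1 = true := h0_3Bpk2

noncomputable def f3Bm : ℕ → ℕ → ℕ → ℕ → Bool :=
  onCell 0 92274688 0 1048576 1045395039 1503240 (c3_Bm.row true 46137344)

def h0_3Bm : ∃ t, chk3 f3Bm t 1 1 1 = true :=
  ⟨(a (a (l 7) (a (l 7) (a (l 13) (a (l 13) (a (l 13) (a (l 13) (a (l 13) (c (l 10) (b (l 10) (l 10)))))))))) (a (a (a (a (a (a (c (b (l 10) (l 2)) (b (l 10) (l 2))) (c (l 2) (l 2))) (c (a (l 2) (l 2)) (a (l 2) (l 2)))) (a (c (a (l 2) (l 2)) (a (l 2) (l 2))) (c (a (l 2) (l 2)) (a (l 2) (b (l 2) (l 2)))))) (a (a (c (a (b (l 2) (l 2)) (b (l 2) (l 2))) (a (b (l 2) (l 2)) (b (l 2) (l 2)))) (c (a (b (l 2) (l 2)) (b (l 2) (c (l 2) (l 2)))) (a (b (l 2) (c (l 2) (l 2))) (b (c (l 2) (l 2)) (c (l 2) (l 2)))))) (a (c (a (b (c (l 2) (l 2)) (c (l 2) (l 2))) (b (c (l 2) (a (l 2)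 (l 2))) (c (a (l 2) (l 2)) (a (l 2) (l 2))))) (a (b (c (l 2) (a (l 2) (l 2))) (c (a (l 2) (l 2)) (a (l 2) (l 2)))) (b (c (a (l 2) (l 2)) (a (l 2) (l 2))) (c (a (l 2) (b (l 2) (l 9))) (a (b (l 2) (l 9)) (l 9)))))) (b (c (a (c (a (l 2) (l 2)) (a (l 2) (l 2))) (c (a (l 2) (l 5)) (l 5))) (a (c (a (l 2) (l 5)) (l 5)) (l 5))) (c (a (c (a (l 2) (b (l 2) (l 9))) (a (b (l 2) (l 9)) (l 9))) (l 9)) (l 9)))))) (l 5)) (l 5))), by decide +kernel⟩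

theorem ct_3Bm : ∃ t, chk3 f3Bm t 1 1 1 = true := h0_3Bm

end Pool.Agent.Strip051.G.I9736_9750.Tab.Mo
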