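import Pool.Agent.Strip051.PB.StripC
import Pool.Agent.Strip051.G.I9736_9750.Fact

/-! # Facts about the strips of a table (generated) -/

set_option linter.all false
set_option maxRecDepth 4000

namespace Pool.Agent.Strip051.G.I9736_9750.Tab.St

open Pool.Agent.Strip051.PB Pool.Agent.StripNear Pool.Agent.Strip051.LC
open Pool.Agent.Strip051.G.I9736_9750.Tab

noncomputable def sl1 : Fn1 := ⟨_, _, fun h1 => (enc_norm (enc_subr 230618103 10000000 (enc_neg (enc_scaleT 65830423 500000 (enc_subr 9743 10000 h1)))))⟩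
noncomputable def sv1 : Fn1 := ⟨_, _, fun h1 => (enc_norm (enc_subr 12393381327 1000000000 (enc_neg (enc_scaleT 3128460731 50000000 (enc_subr 9743 10000 h1)))))⟩
noncomputable def sw1 : Fn1 := ⟨_, _, fun h1 => (enc_norm (enc_subr 79 1250 (enc_scaleT 4473 500 (enc_subr 9743 10000 h1))))⟩
noncomputable def sl2 : Fn1 := ⟨_, _, fun h1 => (enc_norm (enc_subr 1609806003 70000000 (enc_neg (enc_scaleT 13209151 125000 (enc_subr 9743 10000 h1)))))⟩
noncomputable def sv2 : Fn1 := ⟨_, _, fun h1 => (enc_norm (enc_subr 12377558891 1000000000 (enc_neg (enc_scaleT 281011219 5000000 (enc_subr 9743 10000 h1)))))⟩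
noncomputable def sw2 : Fn1 := ⟨_, _, fun h1 => (enc_norm (enc_add (enc_scaleT 4433 125 (enc_subr 9743 10000 h1)) (enc_rat _ 27 10000)))⟩
noncomputable def sl3 : Fn1 := ⟨_, _, fun h1 => (enc_norm (enc_add (enc_scaleT 2653378986119431 3093356750000 (enc_subr 9743 10000 h1)) (enc_rat _ 280032794380277357 123734270000000)))⟩
noncomputable def sv3 : Fn1 := ⟨_, _, fun h1 => (enc_norm (enc_add (enc_scaleT 218352056477061917 1237342700000000 (enc_subr 9743 10000 h1)) (enc_rat _ 6678359080349535899 12373427000000000)))⟩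
noncomputable def sw3 : Fn1 := ⟨_, _, fun h1 => (enc_norm (enc_add (enc_scaleT 516407 500 (enc_subr 9743 10000 h1)) (enc_rat _ 23666447 10000)))⟩
noncomputable def sl4 : Fn1 := ⟨_, _, fun h1 => (enc_norm (enc_add (enc_scaleT 611206935594605367979 666643492993750000 (enc_subr 9743 10000 h1)) (enc_rat _ 398120571613621976069 53331479439500000000)))⟩
noncomputable def sv4 : Fn1 := ⟨_, _, fun h1 => (enc_norm (enc_add (enc_scaleT 2032412137385686809201 10666295887900000000 (enc_subr 9743 10000 h1)) (enc_rat _ 238210407249047899937 106662958879000000000)))⟩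
noncomputable def sw4 : Fn1 := ⟨_, _, fun h1 => (enc_norm (enc_add (enc_scaleT 547397 500 (enc_subr 9743 10000 h1)) (enc_rat _ 11 500)))⟩
noncomputable def sl5 : Fn1 := ⟨_, _, fun h1 => (enc_norm (enc_subr 1397586229137759 31006030000000 (enc_scaleT 255330152666473 281873000000 (enc_subr 9743 10000 h1))))⟩
noncomputable def sv5 : Fn1 := ⟨_, _, fun h1 => (enc_norm (enc_subr 7525628210402783 775150750000000 (enc_scaleT 5300429037695269 28187300000000 (enc_subr 9743 10000 h1))))⟩
noncomputable def sw5 : Fn1 := ⟨_, _, fun h1 => (enc_norm (enc_subr 115533 2000 (enc_scaleT 541343 500 (enc_subr 9743 10000 h1))))⟩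
noncomputable def sl6 : Fn1 := ⟨_, _, fun h1 => (enc_norm (enc_subr 5633881 125000 (enc_scaleT 59927069 100000 (enc_subr 9743 10000 h1))))⟩
noncomputable def sv6 : Fn1 := ⟨_, _, fun h1 => (enc_norm (enc_subr 1941564677 200000000 (enc_scaleT 1221320489 10000000 (enc_subr 9743 10000 h1))))⟩
noncomputable def sw6 : Fn1 := ⟨_, _, fun h1 => (enc_norm (enc_subr 577623 10000 (enc_scaleT 726217 1000 (enc_subr 9743 10000 h1))))⟩
noncomputable def sl7 : Fn1 := ⟨_, _, fun h1 => (enc_norm (enc_add (enc_scaleT 47461 10000 (enc_subr 9743 10000 h1)) (enc_rat _ 4562829 2000000)))⟩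
noncomputable def sv7 : Fn1 := ⟨_, _, fun h1 => (enc_norm (enc_subr 11353 20000000 (enc_scaleT 25451 100000 (enc_subr 9743 10000 h1))))⟩
noncomputable def sw7 : Fn1 := ⟨_, _, fun h1 => (enc_norm (enc_subr 77 5000 (enc_scaleT 1187 1000 (enc_subr 9743 10000 h1))))⟩
noncomputable def sl8 : Fn1 := ⟨_, _, fun h1 => (enc_norm (enc_add (enc_scaleT 29263 10000 (enc_subr 9743 10000 h1)) (enc_rat _ 228449 100000)))⟩
noncomputable def sv8 : Fn1 := ⟨_, _, fun h1 => (enc_norm (enc_subr 13 125000 (enc_neg (enc_scaleT 923 50000 (enc_subr 9743 10000 h1)))))⟩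
noncomputable def sw8 : Fn1 := ⟨_, _, fun h1 => (enc_norm (enc_subr 103 10000 (enc_neg (enc_scaleT 923 500 (enc_subr 9743 10000 h1)))))⟩
noncomputable def sl9 : Fn1 := ⟨_, _, fun h1 => (enc_norm (enc_add (enc_scaleT 6591 2000 (enc_subr 9743 10000 h1)) (enc_rat _ 14291 6250)))⟩
noncomputable def sv9 : Fn1 := ⟨_, _, fun h1 => (enc_pnc _ 0)⟩
noncomputable def sl10 : Fn1 := ⟨_, _, fun h1 => (enc_norm (enc_add (enc_scaleT 29263 10000 (enc_subr 9743 10000 h1)) (enc_rat _ 228449 100000)))⟩
noncomputable def sv10 : Fn1 := ⟨_, _, fun h1 => (enc_norm (enc_add (enc_scaleT 923 50000 (enc_subr 9743 10000 h1)) (enc_rat _ 13 125000)))⟩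
noncomputable def sw10 : Fn1 := ⟨_, _, fun h1 => (enc_norm (enc_add (enc_scaleT 923 500 (enc_subr 9743 10000 h1)) (enc_rat _ 103 10000)))⟩
noncomputable def sl11 : Fn1 := ⟨_, _, fun h1 => (enc_norm (enc_add (enc_scaleT 47461 10000 (enc_subr 9743 10000 h1)) (enc_rat _ 4562829 2000000)))⟩
noncomputable def sv11 : Fn1 := ⟨_, _, fun h1 => (enc_norm (enc_sub (enc_rat _ 11353 20000000) (enc_scaleT 25451 100000 (enc_subr 9743 10000 h1))))⟩
noncomputable def sw11 : Fn1 := ⟨_, _, fun h1 => (enc_norm (enc_sub (enc_rat _ 77 5000) (enc_scaleT 1187 1000 (enc_subr 9743 10000 h1))))⟩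
noncomputable def sl12 : Fn1 := ⟨_, _, fun h1 => (enc_norm (enc_subr 5633881 125000 (enc_scaleT 59927069 100000 (enc_subr 9743 10000 h1))))⟩
noncomputable def sv12 : Fn1 := ⟨_, _, fun h1 => (enc_norm (enc_sub (enc_rat _ 1941564677 200000000) (enc_scaleT 1221320489 10000000 (enc_subr 9743 10000 h1))))⟩
noncomputable def sw12 : Fn1 := ⟨_, _, fun h1 => (enc_norm (enc_sub (enc_rat _ 577623 10000) (enc_scaleT 726217 1000 (enc_subr 9743 10000 h1))))⟩
noncomputable def sl13 : Fn1 := ⟨_, _, fun h1 => (enc_norm (enc_subr 1397586229137759 31006030000000 (enc_scaleT 255330152666473 281873000000 (enc_subr 9743 10000 h1))))⟩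
noncomputable def sv13 : Fn1 := ⟨_, _, fun h1 => (enc_norm (enc_sub (enc_rat _ 7525628210402783 775150750000000) (enc_scaleT 5300429037695269 28187300000000 (enc_subr 9743 10000 h1))))⟩
noncomputable def sw13 : Fn1 := ⟨_, _, fun h1 => (enc_norm (enc_sub (enc_rat _ 115533 2000) (enc_scaleT 541343 500 (enc_subr 9743 10000 h1))))⟩
noncomputable def sl14 : Fn1 := ⟨_, _, fun h1 => (enc_norm (enc_add (enc_scaleT 611206935594605367979 666643492993750000 (enc_subr 9743 10000 h1)) (enc_rat _ 398120571613621976069 53331479439500000000)))⟩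
noncomputable def sv14 : Fn1 := ⟨_, _, fun h1 => (enc_norm (enc_subr 238210407249047899937 106662958879000000000 (enc_neg (enc_scaleT 2032412137385686809201 10666295887900000000 (enc_subr 9743 10000 h1)))))⟩
noncomputable def sw14 : Fn1 := ⟨_, _, fun h1 => (enc_norm (enc_subr 11 500 (enc_neg (enc_scaleT 547397 500 (enc_subr 9743 10000 h1)))))⟩
noncomputable def sl15 : Fn1 := ⟨_, _, fun h1 => (enc_norm (enc_add (enc_scaleT 2653378986119431 3093356750000 (enc_subr 9743 10000 h1)) (enc_rat _ 280032794380277357 123734270000000)))⟩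
noncomputable def sv15 : Fn1 := ⟨_, _, fun h1 => (enc_norm (enc_subr 6678359080349535899 12373427000000000 (enc_neg (enc_scaleT 218352056477061917 1237342700000000 (enc_subr 9743 10000 h1)))))⟩
noncomputable def sw15 : Fn1 := ⟨_, _, fun h1 => (enc_norm (enc_subr 23666447 10000 (enc_neg (enc_scaleT 516407 500 (enc_subr 9743 10000 h1)))))⟩
noncomputable def sl16 : Fn1 := ⟨_, _, fun h1 => (enc_norm (enc_subr 1609806003 70000000 (enc_neg (enc_scaleT 13209151 125000 (enc_subr 9743 10000 h1)))))⟩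
noncomputable def sv16 : Fn1 := ⟨_, _, fun h1 => (enc_norm (enc_add (enc_scaleT 281011219 5000000 (enc_subr 9743 10000 h1)) (enc_rat _ 12377558891 1000000000)))⟩
noncomputable def sw16 : Fn1 := ⟨_, _, fun h1 => (enc_norm (enc_subr 27 10000 (enc_neg (enc_scaleT 4433 125 (enc_subr 9743 10000 h1)))))⟩
noncomputable def sl17 : Fn1 := ⟨_, _, fun h1 => (enc_norm (enc_subr 230618103 10000000 (enc_neg (enc_scaleT 65830423 500000 (enc_subr 9743 10000 h1)))))⟩
noncomputable def sv17 : Fn1 := ⟨_, _, fun h1 => (enc_norm (enc_add (enc_scaleT 3128460731 50000000 (enc_subr 9743 10000 h1)) (enc_rat _ 12393381327 1000000000)))⟩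
noncomputable def sw17 : Fn1 := ⟨_, _, fun h1 => (enc_norm (enc_sub (enc_rat _ 79 1250) (enc_scaleT 4473 500 (enc_subr 9743 10000 h1))))⟩
noncomputable def sl34 : Fn1 := ⟨_, _, fun h1 => (enc_norm (enc_add (enc_scaleT 1899143 5000 (enc_subr 9743 10000 h1)) (enc_rat _ 15071 12500)))⟩
noncomputable def sv34 : Fn1 := ⟨_, _, fun h1 => (enc_norm (enc_add (enc_scaleT 1863911 20000 (enc_subr 9743 10000 h1)) (enc_rat _ 15747 50000)))⟩
noncomputable def sw34 : Fn1 := ⟨_, _, fun h1 => (enc_norm (enc_add (enc_scaleT 3095 8 (enc_subr 9743 10000 h1)) (enc_rat _ 2879 2500)))⟩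
noncomputable def sl35 : Fn1 := ⟨_, _, fun h1 => (enc_norm (enc_sub (enc_rat _ 32656537 35000000) (enc_scaleT 64734247 700000 (enc_subr 9743 10000 h1))))⟩
noncomputable def sv35 : Fn1 := ⟨_, _, fun h1 => (enc_norm (enc_sub (enc_rat _ 124072069 500000000) (enc_scaleT 28149303 1250000 (enc_subr 9743 10000 h1))))⟩
noncomputable def sw35 : Fn1 := ⟨_, _, fun h1 => (enc_norm (enc_sub (enc_rat _ 4367 5000) (enc_scaleT 9507 100 (enc_subr 9743 10000 h1))))⟩
noncomputable def sl36 : Fn1 := ⟨_, _, fun h1 => (enc_norm (enc_subr 593130571223 125625000000 (enc_neg (enc_scaleT 1088303162381 8375000000 (enc_subr 9743 10000 h1)))))⟩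
noncomputable def sv36 : Fn1 := ⟨_, _, fun h1 => (enc_norm (enc_subr 93583352738431 83750000000000 (enc_neg (enc_scaleT 264383912673273 8375000000000 (enc_subr 9743 10000 h1)))))⟩
noncomputable def sw36 : Fn1 := ⟨_, _, fun h1 => (enc_norm (enc_subr 49801 10000 (enc_neg (enc_scaleT 66929 500 (enc_subr 9743 10000 h1)))))⟩
noncomputable def sl37 : Fn1 := ⟨_, _, fun h1 => (enc_norm (enc_subr 329767357883 258875000000 (enc_scaleT 2279677748397 258875000000 (enc_subr 9743 10000 h1))))⟩
noncomputable def sv37 : Fn1 := ⟨_, _, fun h1 => (enc_norm (enc_subr 1915075855717 6471875000000 (enc_scaleT 9671065398753 6471875000000 (enc_subr 9743 10000 h1))))⟩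
noncomputable def sw37 : Fn1 := ⟨_, _, fun h1 => (enc_norm (enc_subr 1363 1000 (enc_scaleT 11717 1000 (enc_subr 9743 10000 h1))))⟩
noncomputable def sl38 : Fn1 := ⟨_, _, fun h1 => (enc_norm (enc_subr 3408426112671 13535000000000 (enc_scaleT 37531823766227 338375000000 (enc_subr 9743 10000 h1))))⟩
noncomputable def sv38 : Fn1 := ⟨_, _, fun h1 => (enc_norm (enc_subr 41175162846433 676750000000000 (enc_scaleT 105657715703149 4229687500000 (enc_subr 9743 10000 h1))))⟩
noncomputable def sw38 : Fn1 := ⟨_, _, fun h1 => (enc_norm (enc_subr 2521 10000 (enc_scaleT 30677 250 (enc_subr 9743 10000 h1))))⟩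
noncomputable def sl39 : Fn1 := ⟨_, _, fun h1 => (enc_norm (enc_add (enc_scaleT 495160490681639 1823250000000 (enc_subr 9743 10000 h1)) (enc_rat _ 7301317512949 935000000000)))⟩
noncomputable def sv39 : Fn1 := ⟨_, _, fun h1 => (enc_norm (enc_add (enc_scaleT 63707762672441 1035937500000 (enc_subr 9743 10000 h1)) (enc_rat _ 3764017714199 2125000000000)))⟩
noncomputable def sw39 : Fn1 := ⟨_, _, fun h1 => (enc_norm (enc_add (enc_scaleT 149711 500 (enc_subr 9743 10000 h1)) (enc_rat _ 86139 10000)))⟩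
noncomputable def sl40 : Fn1 := ⟨_, _, fun h1 => (enc_norm (enc_add (enc_scaleT 24907171 100000 (enc_subr 9743 10000 h1)) (enc_rat _ 976277 125000)))⟩
noncomputable def sv40 : Fn1 := ⟨_, _, fun h1 => (enc_norm (enc_add (enc_scaleT 565455919 10000000 (enc_subr 9743 10000 h1)) (enc_rat _ 177159297 100000000)))⟩
noncomputable def sw40 : Fn1 := ⟨_, _, fun h1 => (enc_norm (enc_add (enc_scaleT 273843 1000 (enc_subr 9743 10000 h1)) (enc_rat _ 43077 5000)))⟩
noncomputable def sl41 : Fn1 := ⟨_, _, fun h1 => (enc_norm (enc_add (enc_scaleT 765261 3125 (enc_subr 9743 10000 h1)) (enc_rat _ 7788199 1000000)))⟩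
noncomputable def sv41 : Fn1 := ⟨_, _, fun h1 => (enc_norm (enc_add (enc_scaleT 139112833 2500000 (enc_subr 9743 10000 h1)) (enc_rat _ 17668591 10000000)))⟩
noncomputable def sw41 : Fn1 := ⟨_, _, fun h1 => (enc_norm (enc_add (enc_scaleT 268973 1000 (enc_subr 9743 10000 h1)) (enc_rat _ 42949 5000)))⟩
noncomputable def sl42 : Fn1 := ⟨_, _, fun h1 => (enc_norm (enc_add (enc_scaleT 23155021 100000 (enc_subr 9743 10000 h1)) (enc_rat _ 308719 40000)))⟩
noncomputable def sv42 : Fn1 := ⟨_, _, fun h1 => (enc_norm (enc_add (enc_scaleT 264225701 5000000 (enc_subr 9743 10000 h1)) (enc_rat _ 87605603 50000000)))⟩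
noncomputable def sw42 : Fn1 := ⟨_, _, fun h1 => (enc_norm (enc_add (enc_scaleT 2531 10 (enc_subr 9743 10000 h1)) (enc_rat _ 42531 5000)))⟩
noncomputable def sl43 : Fn1 := ⟨_, _, fun h1 => (enc_norm (enc_add (enc_scaleT 20513473 100000 (enc_subr 9743 10000 h1)) (enc_rat _ 921379 200000)))⟩
noncomputable def sv43 : Fn1 := ⟨_, _, fun h1 => (enc_norm (enc_add (enc_scaleT 118574917 2500000 (enc_subr 9743 10000 h1)) (enc_rat _ 55717033 50000000)))⟩
noncomputable def sw43 : Fn1 := ⟨_, _, fun h1 => (enc_norm (enc_add (enc_scaleT 110443 500 (enc_subr 9743 10000 h1)) (enc_rat _ 23561 5000)))⟩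
noncomputable def sl44 : Fn1 := ⟨_, _, fun h1 => (enc_norm (enc_add (enc_scaleT 14880353 100000 (enc_subr 9743 10000 h1)) (enc_rat _ 2286687 500000)))⟩
noncomputable def sv44 : Fn1 := ⟨_, _, fun h1 => (enc_norm (enc_add (enc_scaleT 90409317 2500000 (enc_subr 9743 10000 h1)) (enc_rat _ 55381813 50000000)))⟩
noncomputable def sw44 : Fn1 := ⟨_, _, fun h1 => (enc_norm (enc_add (enc_scaleT 18809 125 (enc_subr 9743 10000 h1)) (enc_rat _ 46703 10000)))⟩
noncomputable def sl45 : Fn1 := ⟨_, _, fun h1 => (enc_norm (enc_add (enc_scaleT 28058413 300000 (enc_subr 9743 10000 h1)) (enc_rat _ 7273657 3000000)))⟩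
noncomputable def sv45 : Fn1 := ⟨_, _, fun h1 => (enc_norm (enc_add (enc_scaleT 31731257 1250000 (enc_subr 9743 10000 h1)) (enc_rat _ 6886161 10000000)))⟩
noncomputable def sw45 : Fn1 := ⟨_, _, fun h1 => (enc_norm (enc_add (enc_scaleT 39803 500 (enc_subr 9743 10000 h1)) (enc_rat _ 9577 5000)))⟩
noncomputable def sl46 : Fn1 := ⟨_, _, fun h1 => (enc_norm (enc_subr 7067729 10000000 (enc_neg (enc_scaleT 35766441 200000 (enc_subr 9743 10000 h1)))))⟩
noncomputable def sv46 : Fn1 := ⟨_, _, fun h1 => (enc_norm (enc_sub (enc_rat _ 4059703 40000000) (enc_scaleT 513650813 20000000 (enc_subr 9743 10000 h1))))⟩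
noncomputable def sw46 : Fn1 := ⟨_, _, fun h1 => (enc_norm (enc_subr 22597 10000 (enc_neg (enc_scaleT 283541 1000 (enc_subr 9743 10000 h1)))))⟩
noncomputable def sl47 : Fn1 := ⟨_, _, fun h1 => (enc_norm (enc_subr 549477 1250000 (enc_neg (enc_scaleT 81373791 500000 (enc_subr 9743 10000 h1)))))⟩
noncomputable def sv47 : Fn1 := ⟨_, _, fun h1 => (enc_norm (enc_sub (enc_rat _ 1853141 12500000) (enc_scaleT 57169319 2500000 (enc_subr 9743 10000 h1))))⟩
noncomputable def sw47 : Fn1 := ⟨_, _, fun h1 => (enc_norm (enc_subr 939 500 (enc_neg (enc_scaleT 260563 1000 (enc_subr 9743 10000 h1)))))⟩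
noncomputable def sl48 : Fn1 := ⟨_, _, fun h1 => (enc_norm (enc_sub (enc_rat _ 3399217 5000000) (enc_scaleT 2342689 250000 (enc_subr 9743 10000 h1))))⟩
noncomputable def sv48 : Fn1 := ⟨_, _, fun h1 => (enc_norm (enc_add (enc_scaleT 694001 5000000 (enc_subr 9743 10000 h1)) (enc_rat _ 15808289 50000000)))⟩
noncomputable def sw48 : Fn1 := ⟨_, _, fun h1 => (enc_norm (enc_subr 123 10000 (enc_neg (enc_scaleT 987 200 (enc_subr 9743 10000 h1)))))⟩
noncomputable def sl49 : Fn1 := ⟨_, _, fun h1 => (enc_norm (enc_add (enc_scaleT 285817 250000 (enc_subr 9743 10000 h1)) (enc_rat _ 3226479 5000000)))⟩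
noncomputable def sv49 : Fn1 := ⟨_, _, fun h1 => (enc_norm (enc_add (enc_scaleT 7265281 5000000 (enc_subr 9743 10000 h1)) (enc_rat _ 31184763 100000000)))⟩
noncomputable def sw49 : Fn1 := ⟨_, _, fun h1 => (enc_norm (enc_subr 407 5000 (enc_scaleT 16093 1000 (enc_subr 9743 10000 h1))))⟩
noncomputable def sl50 : Fn1 := ⟨_, _, fun h1 => (enc_norm (enc_add (enc_scaleT 514917 250000 (enc_subr 9743 10000 h1)) (enc_rat _ 59479 5000000)))⟩
noncomputable def sv50 : Fn1 := ⟨_, _, fun h1 => (enc_norm (enc_add (enc_scaleT 7723481 5000000 (enc_subr 9743 10000 h1)) (enc_rat _ 24850763 100000000)))⟩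
noncomputable def sw50 : Fn1 := ⟨_, _, fun h1 => (enc_norm (enc_subr 16649 10000 (enc_scaleT 2298 125 (enc_subr 9743 10000 h1))))⟩
noncomputable def sl51 : Fn1 := ⟨_, _, fun h1 => (enc_norm (enc_add (enc_scaleT 20759 500000 (enc_subr 9743 10000 h1)) (enc_rat _ 32971 2500000)))⟩
noncomputable def sv51 : Fn1 := ⟨_, _, fun h1 => (enc_norm (enc_add (enc_scaleT 108854 78125 (enc_subr 9743 10000 h1)) (enc_rat _ 24860477 100000000)))⟩
noncomputable def sw51 : Fn1 := ⟨_, _, fun h1 => (enc_norm (enc_subr 8303 5000 (enc_scaleT 11657 1000 (enc_subr 9743 10000 h1))))⟩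
noncomputable def sl52 : Fn1 := ⟨_, _, fun h1 => (enc_norm (enc_sub (enc_rat _ 2676217 20000000) (enc_scaleT 76813 2000000 (enc_subr 9743 10000 h1))))⟩
noncomputable def sv52 : Fn1 := ⟨_, _, fun h1 => (enc_norm (enc_add (enc_scaleT 1111463 800000 (enc_subr 9743 10000 h1)) (enc_rat _ 50927203 200000000)))⟩
noncomputable def sw52 : Fn1 := ⟨_, _, fun h1 => (enc_norm (enc_subr 423 400 (enc_scaleT 5629 500 (enc_subr 9743 10000 h1))))⟩
noncomputable def sl53 : Fn1 := ⟨_, _, fun h1 => (enc_norm (enc_add (enc_scaleT 13967 100000 (enc_subr 9743 10000 h1)) (enc_rat _ 427571 2500000)))⟩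
noncomputable def sv53 : Fn1 := ⟨_, _, fun h1 => (enc_norm (enc_add (enc_scaleT 13804311 10000000 (enc_subr 9743 10000 h1)) (enc_rat _ 12638763 50000000)))⟩
noncomputable def sw53 : Fn1 := ⟨_, _, fun h1 => (enc_norm (enc_subr 3109 2500 (enc_scaleT 10367 1000 (enc_subr 9743 10000 h1))))⟩
noncomputable def sl54 : Fn1 := ⟨_, _, fun h1 => (enc_norm (enc_add (enc_scaleT 3455967 250000 (enc_subr 9743 10000 h1)) (enc_rat _ 19169 78125)))⟩
noncomputable def sv54 : Fn1 := ⟨_, _, fun h1 => (enc_norm (enc_add (enc_scaleT 885291 2500000 (enc_subr 9743 10000 h1)) (enc_rat _ 12360027 50000000)))⟩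
noncomputable def sw54 : Fn1 := ⟨_, _, fun h1 => (enc_norm (enc_subr 7457 5000 (enc_neg (enc_scaleT 35247 1000 (enc_subr 9743 10000 h1)))))⟩
noncomputable def sl55 : Fn1 := ⟨_, _, fun h1 => (enc_norm (enc_add (enc_scaleT 9115547 500000 (enc_subr 9743 10000 h1)) (enc_rat _ 1656817 5000000)))⟩
noncomputable def sv55 : Fn1 := ⟨_, _, fun h1 => (enc_norm (enc_sub (enc_rat _ 477201 2000000) (enc_scaleT 108261 1250000 (enc_subr 9743 10000 h1))))⟩
noncomputable def sw55 : Fn1 := ⟨_, _, fun h1 => (enc_norm (enc_subr 2133 1250 (enc_neg (enc_scaleT 9253 200 (enc_subr 9743 10000 h1)))))⟩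
noncomputable def sl56 : Fn1 := ⟨_, _, fun h1 => (enc_norm (enc_add (enc_scaleT 6877797 500000 (enc_subr 9743 10000 h1)) (enc_rat _ 1079921 2500000)))⟩
noncomputable def sv56 : Fn1 := ⟨_, _, fun h1 => (enc_norm (enc_add (enc_scaleT 4728287 10000000 (enc_subr 9743 10000 h1)) (enc_rat _ 904097 4000000)))⟩
noncomputable def sw56 : Fn1 := ⟨_, _, fun h1 => (enc_norm (enc_subr 4769 2500 (enc_neg (enc_scaleT 18657 500 (enc_subr 9743 10000 h1)))))⟩
noncomputable def sl57 : Fn1 := ⟨_, _, fun h1 => (enc_norm (enc_sub (enc_rat _ 1060871 2500000) (enc_scaleT 3910791 500000 (enc_subr 9743 10000 h1))))⟩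
noncomputable def sv57 : Fn1 := ⟨_, _, fun h1 => (enc_norm (enc_add (enc_scaleT 7418803 2000000 (enc_subr 9743 10000 h1)) (enc_rat _ 908669 4000000)))⟩
noncomputable def sw57 : Fn1 := ⟨_, _, fun h1 => (enc_norm (enc_subr 18949 10000 (enc_neg (enc_scaleT 169 125 (enc_subr 9743 10000 h1)))))⟩
noncomputable def sl58 : Fn1 := ⟨_, _, fun h1 => (enc_norm (enc_sub (enc_rat _ 2106673 5000000) (enc_scaleT 2432089 250000 (enc_subr 9743 10000 h1))))⟩
noncomputable def sv58 : Fn1 := ⟨_, _, fun h1 => (enc_norm (enc_add (enc_scaleT 5053853 1250000 (enc_subr 9743 10000 h1)) (enc_rat _ 22769533 100000000)))⟩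
noncomputable def sw58 : Fn1 := ⟨_, _, fun h1 => (enc_norm (enc_subr 9453 5000 (enc_scaleT 343 250 (enc_subr 9743 10000 h1))))⟩
noncomputable def sl59 : Fn1 := ⟨_, _, fun h1 => (enc_norm (enc_add (enc_scaleT 215743 300000 (enc_subr 9743 10000 h1)) (enc_rat _ 615671 1200000)))⟩
noncomputable def sv59 : Fn1 := ⟨_, _, fun h1 => (enc_norm (enc_add (enc_scaleT 5210441 2500000 (enc_subr 9743 10000 h1)) (enc_rat _ 42099411 200000000)))⟩
noncomputable def sw59 : Fn1 := ⟨_, _, fun h1 => (enc_norm (enc_subr 20129 10000 (enc_neg (enc_scaleT 6279 500 (enc_subr 9743 10000 h1)))))⟩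
noncomputable def sl60 : Fn1 := ⟨_, _, fun h1 => (enc_norm (enc_subr 643603 1000000 (enc_neg (enc_scaleT 133931 6250 (enc_subr 9743 10000 h1)))))⟩
noncomputable def sv60 : Fn1 := ⟨_, _, fun h1 => (enc_norm (enc_add (enc_scaleT 16007643 2500000 (enc_subr 9743 10000 h1)) (enc_rat _ 43604621 100000000)))⟩
noncomputable def sw60 : Fn1 := ⟨_, _, fun h1 => (enc_norm (enc_subr 53 100 (enc_scaleT 15837 1000 (enc_subr 9743 10000 h1))))⟩
noncomputable def sl61 : Fn1 := ⟨_, _, fun h1 => (enc_norm (enc_subr 1060241 1000000 (enc_neg (enc_scaleT 163658 3125 (enc_subr 9743 10000 h1)))))⟩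
noncomputable def sv61 : Fn1 := ⟨_, _, fun h1 => (enc_norm (enc_add (enc_scaleT 31478443 2500000 (enc_subr 9743 10000 h1)) (enc_rat _ 51937341 100000000)))⟩
noncomputable def sw61 : Fn1 := ⟨_, _, fun h1 => (enc_norm (enc_subr 23 2500 (enc_scaleT 27257 500 (enc_subr 9743 10000 h1))))⟩
noncomputable def sl62 : Fn1 := ⟨_, _, fun h1 => (enc_norm (enc_subr 593627 200000 (enc_neg (enc_scaleT 5707163 100000 (enc_subr 9743 10000 h1)))))⟩
noncomputable def sv62 : Fn1 := ⟨_, _, fun h1 => (enc_norm (enc_add (enc_scaleT 67775493 5000000 (enc_subr 9743 10000 h1)) (enc_rat _ 5690573 6250000)))⟩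
noncomputable def sw62 : Fn1 := ⟨_, _, fun h1 => (enc_norm (enc_add (enc_scaleT 60247 1000 (enc_subr 9743 10000 h1)) (enc_rat _ 927 400)))⟩
noncomputable def sl63 : Fn1 := ⟨_, _, fun h1 => (enc_norm (enc_subr 800939 250000 (enc_neg (enc_scaleT 5166791 100000 (enc_subr 9743 10000 h1)))))⟩
noncomputable def sv63 : Fn1 := ⟨_, _, fun h1 => (enc_norm (enc_add (enc_scaleT 62101587 5000000 (enc_subr 9743 10000 h1)) (enc_rat _ 9599723 10000000)))⟩
noncomputable def sw63 : Fn1 := ⟨_, _, fun h1 => (enc_norm (enc_add (enc_scaleT 26907 500 (enc_subr 9743 10000 h1)) (enc_rat _ 1299 500)))⟩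
noncomputable def sl64 : Fn1 := ⟨_, _, fun h1 => (enc_norm (enc_subr 797843 250000 (enc_neg (enc_scaleT 2473101 50000 (enc_subr 9743 10000 h1)))))⟩
noncomputable def sv64 : Fn1 := ⟨_, _, fun h1 => (enc_norm (enc_add (enc_scaleT 29865133 2500000 (enc_subr 9743 10000 h1)) (enc_rat _ 47865487 50000000)))⟩
noncomputable def sw64 : Fn1 := ⟨_, _, fun h1 => (enc_norm (enc_add (enc_scaleT 51249 1000 (enc_subr 9743 10000 h1)) (enc_rat _ 6459 2500)))⟩
noncomputable def sl65_2 : Fn1 := ⟨_, _, fun h1 => (enc_subr 9743 10000 h1)⟩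
noncomputable def sl65 : Fn1 := ⟨_, _, fun h1 => (enc_norm (enc_sub (enc_subr 10348684660686409 2874178125000000 (enc_neg (enc_scaleT 30888499157945717 287417812500000 (sl65_2.enc h1)))) (enc_scaleT 3612630143 16423875000 (enc_sq (enc_norm (sl65_2.enc h1))))))⟩
noncomputable def sv65_2 : Fn1 := ⟨_, _, fun h1 => (enc_subr 9743 10000 h1)⟩
noncomputable def sv65 : Fn1 := ⟨_, _, fun h1 => (enc_norm (enc_add (enc_add (enc_scaleT 88767498336156131 3592722656250000 (sv65_2.enc h1)) (enc_rat _ 150511172631697873 143708906250000000)) (enc_scaleT 19866042823 410596875000 (enc_sq (enc_norm (sv65_2.enc h1))))))⟩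
noncomputable def sw65_2 : Fn1 := ⟨_, _, fun h1 => (enc_subr 9743 10000 h1)⟩
noncomputable def sw65 : Fn1 := ⟨_, _, fun h1 => (enc_norm (enc_add (enc_add (enc_scaleT 58583 500 (sw65_2.enc h1)) (enc_rat _ 15243 5000)) (enc_scaleT 1 4 (enc_sq (enc_norm (sw65_2.enc h1))))))⟩
noncomputable def sl67_2 : Fn1 := ⟨_, _, fun h1 => (enc_subr 9743 10000 h1)⟩
noncomputable def sl67 : Fn1 := ⟨_, _, fun h1 => (enc_norm (enc_add (enc_add (enc_scaleT 120553117121160831 6186713500000000 (sl67_2.enc h1)) (enc_rat _ 109605460854923857 61867135000000000)) (enc_scaleT 1972045129742701 1237342700000 (enc_sq (enc_norm (sl67_2.enc h1))))))⟩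
noncomputable def sv67_2 : Fn1 := ⟨_, _, fun h1 => (enc_subr 9743 10000 h1)⟩
noncomputable def sv67 : Fn1 := ⟨_, _, fun h1 => (enc_norm (enc_sub (enc_subr 11620277960969943431 61867135000000000000 (enc_neg (enc_scaleT 25889013702726005373 6186713500000000000 (sv67_2.enc h1)))) (enc_scaleT 238124447690788911 618671350000000 (enc_sq (enc_norm (sv67_2.enc h1))))))⟩
noncomputable def sw67_2 : Fn1 := ⟨_, _, fun h1 => (enc_subr 9743 10000 h1)⟩
noncomputable def sw67 : Fn1 := ⟨_, _, fun h1 => (enc_norm (enc_sub (enc_subr 27953 10000 (enc_neg (enc_scaleT 5571 250 (sw67_2.enc h1)))) (enc_scaleT 164987 100 (enc_sq (enc_norm (sw67_2.enc h1))))))⟩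
noncomputable def sl68 : Fn1 := ⟨_, _, fun h1 => (enc_norm (enc_subr 34875611 35000000 (enc_scaleT 449663821 7000000 (enc_subr 9743 10000 h1))))⟩
noncomputable def sv68 : Fn1 := ⟨_, _, fun h1 => (enc_norm (enc_sub (enc_rat _ 240331547 500000000) (enc_scaleT 1499219337 100000000 (enc_subr 9743 10000 h1))))⟩
noncomputable def sw68 : Fn1 := ⟨_, _, fun h1 => (enc_norm (enc_sub (enc_rat _ 351 5000) (enc_scaleT 68611 1000 (enc_subr 9743 10000 h1))))⟩
noncomputable def sl69 : Fn1 := ⟨_, _, fun h1 => (enc_norm (enc_subr 54693 50000 (enc_neg (enc_scaleT 383067 2000 (enc_subr 9743 10000 h1)))))⟩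
noncomputable def sv69 : Fn1 := ⟨_, _, fun h1 => (enc_norm (enc_add (enc_scaleT 190687 4000 (enc_subr 9743 10000 h1)) (enc_rat _ 50453 100000)))⟩
noncomputable def sw69 : Fn1 := ⟨_, _, fun h1 => (enc_norm (enc_add (enc_scaleT 9619 50 (enc_subr 9743 10000 h1)) (enc_rat _ 106 625)))⟩
noncomputable def skf0 : Fn2 := ⟨_, _, fun h1 h2 => (enc_norm (enc_add (bf1q0.enc h1 h2) (enc_mul (enc_norm (enc_sub (enc_mul (c1g.enc h1) (bf1q0.enc h1 h2)) (kf0q0.enc h1 h2))) (enc_inv (enc_sub (cv1m.enc h1) (c1g.enc h1))))))⟩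
noncomputable def sxf0 : Fn2 := ⟨_, _, fun h1 h2 => (enc_norm (enc_mul (enc_norm (enc_sub (l1q0.enc h1 h2) (l0q0.enc h1 h2))) (enc_inv (enc_sub (cv1m.enc h1) (c1g.enc h1)))))⟩
noncomputable def skl0 : Fn2 := ⟨_, _, fun h1 h2 => (enc_norm (enc_add (bf5q0.enc h1 h2) (enc_mul (enc_norm (enc_sub (kf6q0.enc h1 h2) (enc_mul (c3g.enc h1) (bf5q0.enc h1 h2)))) (enc_inv (enc_sub (c3g.enc h1) (cv5m.enc h1))))))⟩
noncomputable def sxl0 : Fn2 := ⟨_, _, fun h1 h2 => (enc_norm (enc_mul (enc_norm (enc_sub (l6q0.enc h1 h2) (l5q0.enc h1 h2))) (enc_inv (enc_sub (c3g.enc h1) (cv5m.enc h1)))))⟩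
noncomputable def skf1 : Fn2 := ⟨_, _, fun h1 h2 => (enc_norm (enc_add (bf1q1.enc h1 h2) (enc_mul (enc_norm (enc_sub (enc_mul (c1g.enc h1) (bf1q1.enc h1 h2)) (kf0q1.enc h1 h2))) (enc_inv (enc_sub (cv1m.enc h1) (c1g.enc h1))))))⟩
noncomputable def sxf1 : Fn2 := ⟨_, _, fun h1 h2 => (enc_norm (enc_mul (enc_norm (enc_sub (l1q1.enc h1 h2) (l0q1.enc h1 h2))) (enc_inv (enc_sub (cv1m.enc h1) (c1g.enc h1)))))⟩
noncomputable def skl1 : Fn2 := ⟨_, _, fun h1 h2 => (enc_norm (enc_add (bf5q1.enc h1 h2) (enc_mul (enc_norm (enc_sub (kf6q1.enc h1 h2) (enc_mul (c3g.enc h1) (bf5q1.enc h1 h2)))) (enc_inv (enc_sub (c3g.enc h1) (cv5m.enc h1))))))⟩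
noncomputable def sxl1 : Fn2 := ⟨_, _, fun h1 h2 => (enc_norm (enc_mul (enc_norm (enc_sub (l6q1.enc h1 h2) (l5q1.enc h1 h2))) (enc_inv (enc_sub (c3g.enc h1) (cv5m.enc h1)))))⟩
noncomputable def skf2 : Fn2 := ⟨_, _, fun h1 h2 => (enc_norm (enc_add (bf1q2.enc h1 h2) (enc_mul (enc_norm (enc_add (enc_mul (c1g.enc h1) (enc_norm (enc_subn 1 (bf1q2.enc h1 h2)))) (enc_mul (enc_norm (enc_subn 1 h1)) (kcg.enc (c1g.enc h1) h2)))) (enc_inv (enc_sub (cv1p.enc h1) (c1g.enc h1))))))⟩
noncomputable def sxf2 : Fn2 := ⟨_, _, fun h1 h2 => (enc_norm (enc_mul (enc_norm (enc_sub (l1q2.enc h1 h2) (l0q2.enc h1 h2))) (enc_inv (enc_sub (cv1p.enc h1) (c1g.enc h1)))))⟩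
noncomputable def skl2 : Fn2 := ⟨_, _, fun h1 h2 => (enc_norm (enc_add (bf5q2.enc h1 h2) (enc_mul (enc_norm (enc_sub (kf6q2.enc h1 h2) (enc_mul (c3g.enc h1) (bf5q2.enc h1 h2)))) (enc_inv (enc_sub (c3g.enc h1) (cv5p.enc h1))))))⟩
noncomputable def sxl2 : Fn2 := ⟨_, _, fun h1 h2 => (enc_norm (enc_mul (enc_norm (enc_sub (l6q2.enc h1 h2) (l5q2.enc h1 h2))) (enc_inv (enc_sub (c3g.enc h1) (cv5p.enc h1)))))⟩
noncomputable def skl3 : Fn2 := ⟨_, _, fun h1 h2 => (enc_norm (enc_add (bf5q3.enc h1 h2) (enc_mul (enc_norm (enc_sub (kf6q3.enc h1 h2) (enc_mul (c3g.enc h1) (bf5q3.enc h1 h2)))) (enc_inv (enc_sub (c3g.enc h1) (cv5r.enc h1))))))⟩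
noncomputable def sxl3 : Fn2 := ⟨_, _, fun h1 h2 => (enc_norm (enc_mul (enc_norm (enc_sub (l6q3.enc h1 h2) (l5q3.enc h1 h2))) (enc_inv (enc_sub (c3g.enc h1) (cv5r.enc h1)))))⟩
noncomputable def rhk : Fn2 := ⟨_, _, fun h1 h2 => (enc_norm (enc_mul (enc_norm (enc_sub (bf1q2.enc h1 h2) (n0b.enc h1 h2))) (enc_norm (enc_mul (cv1p.enc h1) (enc_inv (enc_sub (cv1p.enc h1) (c1g.enc h1)))))))⟩
noncomputable def rhx : Fn2 := ⟨_, _, fun h1 h2 => (enc_norm (enc_mul (enc_norm (enc_sub (bx1q2.enc h1 h2) (n0x.enc h1 h2))) (enc_norm (enc_mul (cv1p.enc h1) (enc_inv (enc_sub (cv1p.enc h1) (c1g.enc h1)))))))⟩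
noncomputable def sbk : Fn1 := ⟨_, _, fun h1 => (enc_norm (enc_subr 1 72500 (enc_scaleT 23 580 (enc_subr 9743 10000 h1))))⟩
noncomputable def sbx : Fn1 := ⟨_, _, fun h1 => (enc_norm (enc_sub (enc_rat _ 1931317 1450000) (enc_scaleT 97 5000 (enc_subr 9743 10000 h1))))⟩
noncomputable def k0c : Fn1 := ⟨_, _, fun h1 => (enc_norm (enc_add (enc_scaleT 6591 2000 (enc_subr 9743 10000 h1)) (enc_rat _ 14291 6250)))⟩
noncomputable def m0c : Fn1 := ⟨_, _, fun h1 => (enc_norm (enc_subr 2676217 10000000 (enc_scaleT 76813 1000000 (enc_subr 9743 10000 h1))))⟩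
noncomputable def sl105 : Fn1 := ⟨_, _, fun h1 => (enc_norm (enc_subr 56723 80000 (enc_neg (enc_scaleT 778047 40000 (enc_subr 9743 10000 h1)))))⟩
noncomputable def sv105 : Fn1 := ⟨_, _, fun h1 => (enc_norm (enc_subr 7324713 100000000 (enc_neg (enc_scaleT 307933 200000 (enc_subr 9743 10000 h1)))))⟩
noncomputable def sw105 : Fn1 := ⟨_, _, fun h1 => (enc_norm (enc_subr 13 8 (enc_neg (enc_scaleT 31179 500 (enc_subr 9743 10000 h1)))))⟩
noncomputable def sl106 : Fn1 := ⟨_, _, fun h1 => (enc_norm (enc_sub (enc_rat _ 103627 10000000) (enc_scaleT 15960349 1000000 (enc_subr 9743 10000 h1))))⟩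
noncomputable def sv106 : Fn1 := ⟨_, _, fun h1 => (enc_norm (enc_subr 130709 100000000 (enc_neg (enc_scaleT 5952899 5000000 (enc_subr 9743 10000 h1)))))⟩
noncomputable def sw106 : Fn1 := ⟨_, _, fun h1 => (enc_norm (enc_sub (enc_rat _ 347 2000) (enc_scaleT 53631 1000 (enc_subr 9743 10000 h1))))⟩
noncomputable def sl107 : Fn1 := ⟨_, _, fun h1 => (enc_norm (enc_sub (enc_rat _ 834049 10000000) (enc_scaleT 258001 1000000 (enc_subr 9743 10000 h1))))⟩
noncomputable def sv107 : Fn1 := ⟨_, _, fun h1 => (enc_norm (enc_sub (enc_rat _ 417049 100000000) (enc_scaleT 129001 10000000 (enc_subr 9743 10000 h1))))⟩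
noncomputable def sw107 : Fn1 := ⟨_, _, fun h1 => (enc_norm (enc_sub (enc_rat _ 417 1000) (enc_scaleT 129 100 (enc_subr 9743 10000 h1))))⟩
noncomputable def sl108 : Fn1 := ⟨_, _, fun h1 => (enc_pnc _ 0)⟩
noncomputable def sv108 : Fn1 := ⟨_, _, fun h1 => (enc_pnc _ 0)⟩
noncomputable def sl109 : Fn1 := ⟨_, _, fun h1 => (enc_norm (enc_sub (enc_rat _ 834049 10000000) (enc_scaleT 258001 1000000 (enc_subr 9743 10000 h1))))⟩
noncomputable def sv109 : Fn1 := ⟨_, _, fun h1 => (enc_norm (enc_subr 417049 100000000 (enc_scaleT 129001 10000000 (enc_subr 9743 10000 h1))))⟩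
noncomputable def sw109 : Fn1 := ⟨_, _, fun h1 => (enc_norm (enc_subr 417 1000 (enc_scaleT 129 100 (enc_subr 9743 10000 h1))))⟩
noncomputable def sl110 : Fn1 := ⟨_, _, fun h1 => (enc_norm (enc_sub (enc_rat _ 103627 10000000) (enc_scaleT 15960349 1000000 (enc_subr 9743 10000 h1))))⟩
noncomputable def sv110 : Fn1 := ⟨_, _, fun h1 => (enc_norm (enc_add (enc_scaleT 5952899 5000000 (enc_subr 9743 10000 h1)) (enc_rat _ 130709 100000000)))⟩
noncomputable def sw110 : Fn1 := ⟨_, _, fun h1 => (enc_norm (enc_subr 347 2000 (enc_scaleT 53631 1000 (enc_subr 9743 10000 h1))))⟩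
noncomputable def sl111 : Fn1 := ⟨_, _, fun h1 => (enc_norm (enc_subr 56723 80000 (enc_neg (enc_scaleT 778047 40000 (enc_subr 9743 10000 h1)))))⟩
noncomputable def sv111 : Fn1 := ⟨_, _, fun h1 => (enc_norm (enc_add (enc_scaleT 307933 200000 (enc_subr 9743 10000 h1)) (enc_rat _ 7324713 100000000)))⟩
noncomputable def sw111 : Fn1 := ⟨_, _, fun h1 => (enc_norm (enc_add (enc_scaleT 31179 500 (enc_subr 9743 10000 h1)) (enc_rat _ 13 8)))⟩
noncomputable def kqf : Fn2 := ⟨_, _, fun h1 h2 => (enc_norm (enc_mul (enc_norm (enc_subn 1 h1)) (enc_norm (enc_case (enc_subr 1 10 (c1g.enc h1)) (enc_add (enc_scaleT 6591 2000 (enc_subr 9743 10000 h2)) (enc_rat _ 14291 6250)) (enc_mul (kcg.enc (c1g.enc h1) h2) (enc_inv (c1g.enc h1)))))))⟩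
noncomputable def skm : Fn2 := ⟨_, _, fun h1 h2 => (enc_norm (enc_sub (enc_mul (enc_norm (enc_mul (cv1p.enc h1) (enc_inv (enc_sub (cv1p.enc h1) (c1g.enc h1))))) (enc_norm (enc_add (enc_subn 1 (bf1q2.enc h1 h2)) (kqf.enc h1 h2)))) (kqf.enc h1 h2)))⟩
noncomputable def dt1 : DT := .quad sw1 sl1 sv1
noncomputable def dt2 : DT := .quad sw2 sl2 sv2
noncomputable def dt3 : DT := .quad sw3 sl3 sv3
noncomputable def dt4 : DT := .quad sw4 sl4 sv4
noncomputable def dt5 : DT := .quad sw5 sl5 sv5
noncomputable def dt6 : DT := .quad sw6 sl6 sv6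
noncomputable def dt7 : DT := .quad sw7 sl7 sv7
noncomputable def dt8 : DT := .quad sw8 sl8 sv8
noncomputable def dt9 : DT := .lin sl9 sv9
noncomputable def dt10 : DT := .quad sw10 sl10 sv10
noncomputable def dt11 : DT := .quad sw11 sl11 sv11
noncomputable def dt12 : DT := .quad sw12 sl12 sv12
noncomputable def dt13 : DT := .quad sw13 sl13 sv13
noncomputable def dt14 : DT := .quad sw14 sl14 sv14
noncomputable def dt15 : DT := .quad sw15 sl15 sv15
noncomputable def dt16 : DT := .quad sw16 sl16 sv16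
noncomputable def dt17 : DT := .quad sw17 sl17 sv17
noncomputable def dt18 : DT := .node ((Cn.rt 49 100).ng) dt1 dt2
noncomputable def dt19 : DT := .node ((Cn.rt 661 1387).ng) dt3 dt4
noncomputable def dt20 : DT := .node ((Cn.rt 483 1000).ng) dt18 dt19
noncomputable def dt21 : DT := .node ((Cn.rt 43 100).ng) dt5 dt6
noncomputable def dt22 : DT := .node ((Cn.rt 3 10).ng) dt7 dt8
noncomputable def dt23 : DT := .node ((Cn.rt 41 100).ng) dt21 dt22
noncomputable def dt24 : DT := .node ((Cn.rt 1021 2246).ng) dt20 dt23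
noncomputable def dt25 : DT := .node (Cn.rt 1 10) dt9 dt10
noncomputable def dt26 : DT := .node (Cn.rt 41 100) dt11 dt12
noncomputable def dt27 : DT := .node (Cn.rt 3 10) dt25 dt26
noncomputable def dt28 : DT := .node (Cn.rt 1021 2246) dt13 dt14
noncomputable def dt29 : DT := .node (Cn.rt 49 100) dt16 dt17
noncomputable def dt30 : DT := .node (Cn.rt 483 1000) dt15 dt29
noncomputable def dt31 : DT := .node (Cn.rt 661 1387) dt28 dt30
noncomputable def dt32 : DT := .node (Cn.rt 43 100) dt27 dt31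
noncomputable def dt33 : DT := .node ((Cn.rt 1 10).ng) dt24 dt32
noncomputable def dt34 : DT := .quad sw34 sl34 sv34
noncomputable def dt35 : DT := .quad sw35 sl35 sv35
noncomputable def dt36 : DT := .quad sw36 sl36 sv36
noncomputable def dt37 : DT := .quad sw37 sl37 sv37
noncomputable def dt38 : DT := .quad sw38 sl38 sv38
noncomputable def dt39 : DT := .quad sw39 sl39 sv39
noncomputable def dt40 : DT := .quad sw40 sl40 sv40
noncomputable def dt41 : DT := .quad sw41 sl41 sv41
noncomputable def dt42 : DT := .quad sw42 sl42 sv42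
noncomputable def dt43 : DT := .quad sw43 sl43 sv43
noncomputable def dt44 : DT := .quad sw44 sl44 sv44
noncomputable def dt45 : DT := .quad sw45 sl45 sv45
noncomputable def dt46 : DT := .quad sw46 sl46 sv46
noncomputable def dt47 : DT := .quad sw47 sl47 sv47
noncomputable def dt48 : DT := .quad sw48 sl48 sv48
noncomputable def dt49 : DT := .quad sw49 sl49 sv49
noncomputable def dt50 : DT := .quad sw50 sl50 sv50
noncomputable def dt51 : DT := .quad sw51 sl51 sv51
noncomputable def dt52 : DT := .quad sw52 sl52 sv52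
noncomputable def dt53 : DT := .quad sw53 sl53 sv53
noncomputable def dt54 : DT := .quad sw54 sl54 sv54
noncomputable def dt55 : DT := .quad sw55 sl55 sv55
noncomputable def dt56 : DT := .quad sw56 sl56 sv56
noncomputable def dt57 : DT := .quad sw57 sl57 sv57
noncomputable def dt58 : DT := .quad sw58 sl58 sv58
noncomputable def dt59 : DT := .quad sw59 sl59 sv59
noncomputable def dt60 : DT := .quad sw60 sl60 sv60
noncomputable def dt61 : DT := .quad sw61 sl61 sv61
noncomputable def dt62 : DT := .quad sw62 sl62 sv62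
noncomputable def dt63 : DT := .quad sw63 sl63 sv63
noncomputable def dt64 : DT := .quad sw64 sl64 sv64
noncomputable def dt65 : DT := .quad sw65 sl65 sv65
noncomputable def dt66 : DT := .clo
noncomputable def dt67 : DT := .quad sw67 sl67 sv67
noncomputable def dt68 : DT := .quad sw68 sl68 sv68
noncomputable def dt69 : DT := .quad sw69 sl69 sv69
noncomputable def dt70 : DT := .node ((Cn.rt 49 100).ng) dt34 dt35
noncomputable def dt71 : DT := .node ((Cn.rt 59571 125000).ng) dt36 dt37
noncomputable def dt72 : DT := .node ((Cn.rt 483 1000).ng) dt70 dt71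
noncomputable def dt73 : DT := .node ((Cn.rt 227293 500000).ng) dt38 dt39
noncomputable def dt74 : DT := .node ((Cn.rt 21 50).ng) dt41 dt42
noncomputable def dt75 : DT := .node ((Cn.rt 43 100).ng) dt40 dt74
noncomputable def dt76 : DT := .node ((Cn.rt 11 25).ng) dt73 dt75
noncomputable def dt77 : DT := .node ((Cn.rt 23 50).ng) dt72 dt76
noncomputable def dt78 : DT := .node ((Cn.rt 2 5).ng) dt43 dt44
noncomputable def dt79 : DT := .node ((Cn.rt 3 8).ng) dt45 dt46
noncomputable def dt80 : DT := .node ((Cn.rt 39 100).ng) dt78 dt79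
noncomputable def dt81 : DT := .node ((Cn.rt 3 10).ng) dt47 dt48
noncomputable def dt82 : DT := .node ((Cn.rt 3 20).ng) dt50 dt51
noncomputable def dt83 : DT := .node ((Cn.rt 1 5).ng) dt49 dt82
noncomputable def dt84 : DT := .node ((Cn.rt 1 4).ng) dt81 dt83
noncomputable def dt85 : DT := .node ((Cn.rt 7 20).ng) dt80 dt84
noncomputable def dt86 : DT := .node ((Cn.rt 41 100).ng) dt77 dt85
noncomputable def dt87 : DT := .node (Cn.rt 1 10) dt52 dt53
noncomputable def dt88 : DT := .node (Cn.rt 1 5) dt54 dt55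
noncomputable def dt89 : DT := .node (Cn.rt 3 20) dt87 dt88
noncomputable def dt90 : DT := .node (Cn.rt 3 10) dt56 dt57
noncomputable def dt91 : DT := .node (Cn.rt 39 100) dt59 dt60
noncomputable def dt92 : DT := .node (Cn.rt 3 8) dt58 dt91
noncomputable def dt93 : DT := .node (Cn.rt 7 20) dt90 dt92
noncomputable def dt94 : DT := .node (Cn.rt 1 4) dt89 dt93
noncomputable def dt95 : DT := .node (Cn.rt 41 100) dt61 dt62
noncomputable def dt96 : DT := .node (Cn.rt 43 100) dt63 dt64
noncomputable def dt97 : DT := .node (Cn.rt 21 50) dt95 dt96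
noncomputable def dt98 : DT := .node (Cn.rt 1021 2246) dt65 dt66
noncomputable def dt99 : DT := .node (Cn.rt 49 100) dt68 dt69
noncomputable def dt100 : DT := .node (Cn.rt 483 1000) dt67 dt99
noncomputable def dt101 : DT := .node (Cn.rt 661 1387) dt98 dt100
noncomputable def dt102 : DT := .node (Cn.rt 11 25) dt97 dt101
noncomputable def dt103 : DT := .node (Cn.rt 2 5) dt94 dt102
noncomputable def dt104 : DT := .node ((Cn.rt 1 10).ng) dt86 dt103
noncomputable def dt105 : DT := .quad sw105 sl105 sv105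
noncomputable def dt106 : DT := .quad sw106 sl106 sv106
noncomputable def dt107 : DT := .quad sw107 sl107 sv107
noncomputable def dt108 : DT := .lin sl108 sv108
noncomputable def dt109 : DT := .quad sw109 sl109 sv109
noncomputable def dt110 : DT := .quad sw110 sl110 sv110
noncomputable def dt111 : DT := .quad sw111 sl111 sv111
noncomputable def dt112 : DT := .node ((Cn.rt 3 20).ng) dt106 dt107
noncomputable def dt113 : DT := .node ((Cn.rt 1 5).ng) dt105 dt112
noncomputable def dt114 : DT := .node (Cn.rt 1 10) dt108 dt109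
noncomputable def dt115 : DT := .node (Cn.rt 1 5) dt110 dt111
noncomputable def dt116 : DT := .node (Cn.rt 3 20) dt114 dt115
noncomputable def dt117 : DT := .node ((Cn.rt 1 10).ng) dt113 dt116
noncomputable def dd : SDat := ⟨dt33, kcg, dt104, Kh.T⟩
noncomputable def gf0 : Sg := ⟨cv1m, skf0, sxf0⟩
noncomputable def gf1 : Sg := ⟨cv1m, skf1, sxf1⟩
noncomputable def gf2 : Sg := ⟨cv1p, skf2, sxf2⟩
noncomputable def gf3 : Sg := ⟨cv1r, skf2, sxf2⟩
noncomputable def gl0 : Sg := ⟨cv5m, skl0, sxl0⟩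
noncomputable def gl1 : Sg := ⟨cv5m, skl1, sxl1⟩
noncomputable def gl2 : Sg := ⟨cv5p, skl2, sxl2⟩
noncomputable def gl3 : Sg := ⟨cv5r, skl3, sxl3⟩
noncomputable def vv : Vt := ⟨(Cn.rt 1 10), (Cn.rt 577 500), (Cn.rt 231 200), (Cn.rt 13 10), k0c, m0c, sbk, sbx, rhk, rhx, bf1q2, bx1q2, (Cn.rt 1 4), (Cn.rt 577 500), skm, dt117⟩
noncomputable def ff (q : ℕ) : Sg := match q with
  | 0 => gf0
  | 1 => gf1
  | 2 => gf2
  | _ => gf3
noncomputable def fl (q : ℕ) : Sg := match q with
  | 0 => gl0
  | 1 => gl1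
  | 2 => gl2
  | _ => gl3
noncomputable def tt : STab 6 := ⟨dd, 0, 5, ff, fl, vv⟩
theorem kcl0 {p x : ℝ} (h1 : -1 / 2 ≤ p) (h2 : p ≤ -49 / 100) : kcg.v p x = (-12393381327 / 1000000000 + (x - 9743 / 10000) * (-3128460731 / 50000000)) + (-230618103 / 10000000 + (x - 9743 / 10000) * (-65830423 / 500000)) * p + (-79 / 1250 + (x - 9743 / 10000) * (4473 / 500)) * p ^ 2 := by
  simp only [kcg, kcg_3, kcg_6, kcg_9, kcg_12, kcg_13, kcg_18, kcg_30, kcg_33, kcg_34, kcg_39, kcg_44, kcg_57, kcg_58, kcg_66, kcg_67, kcg_72, kcg_85, kcg_86, kcg_91, kcg_94, kcg_107, kcg_108, kcg_117, kcg_120, kcg_121, kcg_124, kcg_136, kcg_137, kcg_142, kcg_145, kcg_157, kcg_158, kcg_166, kcg_167, kcg_170, kcg_180, kcg_181, kcg_189, kcg_192, kcg_200, kcg_201, kcg_206, kcg_209, kcg_216, kcg_217, kcg_218, kcg_223, kcg_224, kcg_233, kcg_239, kcg_244, kcg_254, kcg_261, kcg_262, kcg_268, kcg_278, kcg_284, kcg_291, kcg_303]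
  rcases eq_or_lt_of_le h1 with h | h1
  · subst h
    ((try push_cast); (repeat first | rw [if_pos (by linarith)] | rw [if_neg (by linarith)] | erw [if_pos (by linarith)] | erw [if_neg (by linarith)]); (try push_cast); (try ring1))
  rcases eq_or_lt_of_le h2 with h | h2
  · subst h
    ((try push_cast); (repeat first | rw [if_pos (by linarith)] | rw [if_neg (by linarith)] | erw [if_pos (by linarith)] | erw [if_neg (by linarith)]); (try push_cast); (try ring1))
  · ((try push_cast); (repeat first | rw [if_pos (by linarith)] | rw [if_neg (by linarith)] | erw [if_pos (by linarith)] | erw [if_neg (by linarith)]); (try push_cast); (try ring1))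
theorem kcl1 {p x : ℝ} (h1 : -49 / 100 ≤ p) (h2 : p ≤ -483 / 1000) : kcg.v p x = (-12377558891 / 1000000000 + (x - 9743 / 10000) * (-281011219 / 5000000)) + (-1609806003 / 70000000 + (x - 9743 / 10000) * (-13209151 / 125000)) * p + (27 / 10000 + (x - 9743 / 10000) * (4433 / 125)) * p ^ 2 := by
  simp only [kcg, kcg_3, kcg_6, kcg_9, kcg_12, kcg_13, kcg_18, kcg_30, kcg_33, kcg_34, kcg_39, kcg_44, kcg_57, kcg_58, kcg_66, kcg_67, kcg_72, kcg_85, kcg_86, kcg_91, kcg_94, kcg_107, kcg_108, kcg_117, kcg_120, kcg_121, kcg_124, kcg_136, kcg_137, kcg_142, kcg_145, kcg_157, kcg_158, kcg_166, kcg_167, kcg_170, kcg_180, kcg_181, kcg_189, kcg_192, kcg_200, kcg_201, kcg_206, kcg_209, kcg_216, kcg_217, kcg_218, kcg_223, kcg_224, kcg_233, kcg_239, kcg_244, kcg_254, kcg_261, kcg_262, kcg_268, kcg_278, kcg_284, kcg_291, kcg_303]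
  rcases eq_or_lt_of_le h1 with h | h1
  · subst h
    ((try push_cast); (repeat first | rw [if_pos (by linarith)] | rw [if_neg (by linarith)] | erw [if_pos (by linarith)] | erw [if_neg (by linarith)]); (try push_cast); (try ring1))
  rcases eq_or_lt_of_le h2 with h | h2
  · subst h
    ((try push_cast); (repeat first | rw [if_pos (by linarith)] | rw [if_neg (by linarith)] | erw [if_pos (by linarith)] | erw [if_neg (by linarith)]); (try push_cast); (try ring1))
  · ((try push_cast); (repeat first | rw [if_pos (by linarith)] | rw [if_neg (by linarith)] | erw [if_pos (by linarith)] | erw [if_neg (by linarith)]); (try push_cast); (try ring1))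
theorem kcl2 {p x : ℝ} (h1 : -483 / 1000 ≤ p) (h2 : p ≤ -661 / 1387) : kcg.v p x = (6678359080349535899 / 12373427000000000 + (x - 9743 / 10000) * (218352056477061917 / 1237342700000000)) + (280032794380277357 / 123734270000000 + (x - 9743 / 10000) * (2653378986119431 / 3093356750000)) * p + (23666447 / 10000 + (x - 9743 / 10000) * (516407 / 500)) * p ^ 2 := by
  simp only [kcg, kcg_3, kcg_6, kcg_9, kcg_12, kcg_13, kcg_18, kcg_30, kcg_33, kcg_34, kcg_39, kcg_44, kcg_57, kcg_58, kcg_66, kcg_67, kcg_72, kcg_85, kcg_86, kcg_91, kcg_94, kcg_107, kcg_108, kcg_117, kcg_120, kcg_121, kcg_124, kcg_136, kcg_137, kcg_142, kcg_145, kcg_157, kcg_158, kcg_166, kcg_167, kcg_170, kcg_180, kcg_181, kcg_189, kcg_192, kcg_200, kcg_201, kcg_206, kcg_209, kcg_216, kcg_217, kcg_218, kcg_223, kcg_224, kcg_233, kcg_239, kcg_244, kcg_254, kcg_261, kcg_262, kcg_268, kcg_278, kcg_284, kcg_291, kcg_303]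
  rcases eq_or_lt_of_le h1 with h | h1
  · subst h
    ((try push_cast); (repeat first | rw [if_pos (by linarith)] | rw [if_neg (by linarith)] | erw [if_pos (by linarith)] | erw [if_neg (by linarith)]); (try push_cast); (try ring1))
  rcases eq_or_lt_of_le h2 with h | h2
  · subst h
    ((try push_cast); (repeat first | rw [if_pos (by linarith)] | rw [if_neg (by linarith)] | erw [if_pos (by linarith)] | erw [if_neg (by linarith)]); (try push_cast); (try ring1))
  · ((try push_cast); (repeat first | rw [if_pos (by linarith)] | rw [if_neg (by linarith)] | erw [if_pos (by linarith)] | erw [if_neg (by linarith)]); (try push_cast); (try ring1))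
theorem kcl3 {p x : ℝ} (h1 : -661 / 1387 ≤ p) (h2 : p ≤ -1021 / 2246) : kcg.v p x = (238210407249047899937 / 106662958879000000000 + (x - 9743 / 10000) * (2032412137385686809201 / 10666295887900000000)) + (398120571613621976069 / 53331479439500000000 + (x - 9743 / 10000) * (611206935594605367979 / 666643492993750000)) * p + (11 / 500 + (x - 9743 / 10000) * (547397 / 500)) * p ^ 2 := by
  simp only [kcg, kcg_3, kcg_6, kcg_9, kcg_12, kcg_13, kcg_18, kcg_30, kcg_33, kcg_34, kcg_39, kcg_44, kcg_57, kcg_58, kcg_66, kcg_67, kcg_72, kcg_85, kcg_86, kcg_91, kcg_94, kcg_107, kcg_108, kcg_117, kcg_120, kcg_121, kcg_124, kcg_136, kcg_137, kcg_142, kcg_145, kcg_157, kcg_158, kcg_166, kcg_167, kcg_170, kcg_180, kcg_181, kcg_189, kcg_192, kcg_200, kcg_201, kcg_206, kcg_209, kcg_216, kcg_217, kcg_218, kcg_223, kcg_224, kcg_233, kcg_239, kcg_244, kcg_254, kcg_261, kcg_262, kcg_268, kcg_278, kcg_284, kcg_291, kcg_303]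
  rcases eq_or_lt_of_le h1 with h | h1
  · subst h
    ((try push_cast); (repeat first | rw [if_pos (by linarith)] | rw [if_neg (by linarith)] | erw [if_pos (by linarith)] | erw [if_neg (by linarith)]); (try push_cast); (try ring1))
  rcases eq_or_lt_of_le h2 with h | h2
  · subst h
    ((try push_cast); (repeat first | rw [if_pos (by linarith)] | rw [if_neg (by linarith)] | erw [if_pos (by linarith)] | erw [if_neg (by linarith)]); (try push_cast); (try ring1))
  · ((try push_cast); (repeat first | rw [if_pos (by linarith)] | rw [if_neg (by linarith)] | erw [if_pos (by linarith)] | erw [if_neg (by linarith)]); (try push_cast); (try ring1))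
theorem kcl4 {p x : ℝ} (h1 : -1021 / 2246 ≤ p) (h2 : p ≤ -43 / 100) : kcg.v p x = (-7525628210402783 / 775150750000000 + (x - 9743 / 10000) * (5300429037695269 / 28187300000000)) + (-1397586229137759 / 31006030000000 + (x - 9743 / 10000) * (255330152666473 / 281873000000)) * p + (-115533 / 2000 + (x - 9743 / 10000) * (541343 / 500)) * p ^ 2 := by
  simp only [kcg, kcg_3, kcg_6, kcg_9, kcg_12, kcg_13, kcg_18, kcg_30, kcg_33, kcg_34, kcg_39, kcg_44, kcg_57, kcg_58, kcg_66, kcg_67, kcg_72, kcg_85, kcg_86, kcg_91, kcg_94, kcg_107, kcg_108, kcg_117, kcg_120, kcg_121, kcg_124, kcg_136, kcg_137, kcg_142, kcg_145, kcg_157, kcg_158, kcg_166, kcg_167, kcg_170, kcg_180, kcg_181, kcg_189, kcg_192, kcg_200, kcg_201, kcg_206, kcg_209, kcg_216, kcg_217, kcg_218, kcg_223, kcg_224, kcg_233, kcg_239, kcg_244, kcg_254, kcg_261, kcg_262, kcg_268, kcg_278, kcg_284, kcg_291, kcg_303]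
  rcases eq_or_lt_of_le h1 with h | h1
  · subst h
    ((try push_cast); (repeat first | rw [if_pos (by linarith)] | rw [if_neg (by linarith)] | erw [if_pos (by linarith)] | erw [if_neg (by linarith)]); (try push_cast); (try ring1))
  rcases eq_or_lt_of_le h2 with h | h2
  · subst h
    ((try push_cast); (repeat first | rw [if_pos (by linarith)] | rw [if_neg (by linarith)] | erw [if_pos (by linarith)] | erw [if_neg (by linarith)]); (try push_cast); (try ring1))
  · ((try push_cast); (repeat first | rw [if_pos (by linarith)] | rw [if_neg (by linarith)] | erw [if_pos (by linarith)] | erw [if_neg (by linarith)]); (try push_cast); (try ring1))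
theorem kcl5 {p x : ℝ} (h1 : -43 / 100 ≤ p) (h2 : p ≤ -41 / 100) : kcg.v p x = (-1941564677 / 200000000 + (x - 9743 / 10000) * (1221320489 / 10000000)) + (-5633881 / 125000 + (x - 9743 / 10000) * (59927069 / 100000)) * p + (-577623 / 10000 + (x - 9743 / 10000) * (726217 / 1000)) * p ^ 2 := by
  simp only [kcg, kcg_3, kcg_6, kcg_9, kcg_12, kcg_13, kcg_18, kcg_30, kcg_33, kcg_34, kcg_39, kcg_44, kcg_57, kcg_58, kcg_66, kcg_67, kcg_72, kcg_85, kcg_86, kcg_91, kcg_94, kcg_107, kcg_108, kcg_117, kcg_120, kcg_121, kcg_124, kcg_136, kcg_137, kcg_142, kcg_145, kcg_157, kcg_158, kcg_166, kcg_167, kcg_170, kcg_180, kcg_181, kcg_189, kcg_192, kcg_200, kcg_201, kcg_206, kcg_209, kcg_216, kcg_217, kcg_218, kcg_223, kcg_224, kcg_233, kcg_239, kcg_244, kcg_254, kcg_261, kcg_262, kcg_268, kcg_278, kcg_284, kcg_291, kcg_303]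
  rcases eq_or_lt_of_le h1 with h | h1
  · subst h
    ((try push_cast); (repeat first | rw [if_pos (by linarith)] | rw [if_neg (by linarith)] | erw [if_pos (by linarith)] | erw [if_neg (by linarith)]); (try push_cast); (try ring1))
  rcases eq_or_lt_of_le h2 with h | h2
  · subst h
    ((try push_cast); (repeat first | rw [if_pos (by linarith)] | rw [if_neg (by linarith)] | erw [if_pos (by linarith)] | erw [if_neg (by linarith)]); (try push_cast); (try ring1))
  · ((try push_cast); (repeat first | rw [if_pos (by linarith)] | rw [if_neg (by linarith)] | erw [if_pos (by linarith)] | erw [if_neg (by linarith)]); (try push_cast); (try ring1))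
theorem kcl6 {p x : ℝ} (h1 : -41 / 100 ≤ p) (h2 : p ≤ -3 / 10) : kcg.v p x = (-11353 / 20000000 + (x - 9743 / 10000) * (25451 / 100000)) + (4562829 / 2000000 + (x - 9743 / 10000) * (47461 / 10000)) * p + (-77 / 5000 + (x - 9743 / 10000) * (1187 / 1000)) * p ^ 2 := by
  simp only [kcg, kcg_3, kcg_6, kcg_9, kcg_12, kcg_13, kcg_18, kcg_30, kcg_33, kcg_34, kcg_39, kcg_44, kcg_57, kcg_58, kcg_66, kcg_67, kcg_72, kcg_85, kcg_86, kcg_91, kcg_94, kcg_107, kcg_108, kcg_117, kcg_120, kcg_121, kcg_124, kcg_136, kcg_137, kcg_142, kcg_145, kcg_157, kcg_158, kcg_166, kcg_167, kcg_170, kcg_180, kcg_181, kcg_189, kcg_192, kcg_200, kcg_201, kcg_206, kcg_209, kcg_216, kcg_217, kcg_218, kcg_223, kcg_224, kcg_233, kcg_239, kcg_244, kcg_254, kcg_261, kcg_262, kcg_268, kcg_278, kcg_284, kcg_291, kcg_303]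
  rcases eq_or_lt_of_le h1 with h | h1
  · subst h
    ((try push_cast); (repeat first | rw [if_pos (by linarith)] | rw [if_neg (by linarith)] | erw [if_pos (by linarith)] | erw [if_neg (by linarith)]); (try push_cast); (try ring1))
  rcases eq_or_lt_of_le h2 with h | h2
  · subst h
    ((try push_cast); (repeat first | rw [if_pos (by linarith)] | rw [if_neg (by linarith)] | erw [if_pos (by linarith)] | erw [if_neg (by linarith)]); (try push_cast); (try ring1))
  · ((try push_cast); (repeat first | rw [if_pos (by linarith)] | rw [if_neg (by linarith)] | erw [if_pos (by linarith)] | erw [if_neg (by linarith)]); (try push_cast); (try ring1))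
theorem kcl7 {p x : ℝ} (h1 : -3 / 10 ≤ p) (h2 : p ≤ -1 / 10) : kcg.v p x = (-13 / 125000 + (x - 9743 / 10000) * (-923 / 50000)) + (228449 / 100000 + (x - 9743 / 10000) * (29263 / 10000)) * p + (-103 / 10000 + (x - 9743 / 10000) * (-923 / 500)) * p ^ 2 := by
  simp only [kcg, kcg_3, kcg_6, kcg_9, kcg_12, kcg_13, kcg_18, kcg_30, kcg_33, kcg_34, kcg_39, kcg_44, kcg_57, kcg_58, kcg_66, kcg_67, kcg_72, kcg_85, kcg_86, kcg_91, kcg_94, kcg_107, kcg_108, kcg_117, kcg_120, kcg_121, kcg_124, kcg_136, kcg_137, kcg_142, kcg_145, kcg_157, kcg_158, kcg_166, kcg_167, kcg_170, kcg_180, kcg_181, kcg_189, kcg_192, kcg_200, kcg_201, kcg_206, kcg_209, kcg_216, kcg_217, kcg_218, kcg_223, kcg_224, kcg_233, kcg_239, kcg_244, kcg_254, kcg_261, kcg_262, kcg_268, kcg_278, kcg_284, kcg_291, kcg_303]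
  rcases eq_or_lt_of_le h1 with h | h1
  · subst h
    ((try push_cast); (repeat first | rw [if_pos (by linarith)] | rw [if_neg (by linarith)] | erw [if_pos (by linarith)] | erw [if_neg (by linarith)]); (try push_cast); (try ring1))
  rcases eq_or_lt_of_le h2 with h | h2
  · subst h
    ((try push_cast); (repeat first | rw [if_pos (by linarith)] | rw [if_neg (by linarith)] | erw [if_pos (by linarith)] | erw [if_neg (by linarith)]); (try push_cast); (try ring1))
  · ((try push_cast); (repeat first | rw [if_pos (by linarith)] | rw [if_neg (by linarith)] | erw [if_pos (by linarith)] | erw [if_neg (by linarith)]); (try push_cast); (try ring1))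
theorem kcl8 {p x : ℝ} (h1 : -1 / 10 ≤ p) (h2 : p ≤ 1 / 10) : kcg.v p x = (0) + (14291 / 6250 + (x - 9743 / 10000) * (6591 / 2000)) * p := by
  simp only [kcg, kcg_3, kcg_6, kcg_9, kcg_12, kcg_13, kcg_18, kcg_30, kcg_33, kcg_34, kcg_39, kcg_44, kcg_57, kcg_58, kcg_66, kcg_67, kcg_72, kcg_85, kcg_86, kcg_91, kcg_94, kcg_107, kcg_108, kcg_117, kcg_120, kcg_121, kcg_124, kcg_136, kcg_137, kcg_142, kcg_145, kcg_157, kcg_158, kcg_166, kcg_167, kcg_170, kcg_180, kcg_181, kcg_189, kcg_192, kcg_200, kcg_201, kcg_206, kcg_209, kcg_216, kcg_217, kcg_218, kcg_223, kcg_224, kcg_233, kcg_239, kcg_244, kcg_254, kcg_261, kcg_262, kcg_268, kcg_278, kcg_284, kcg_291, kcg_303]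
  rcases eq_or_lt_of_le h1 with h | h1
  · subst h
    ((try push_cast); (repeat first | rw [if_pos (by linarith)] | rw [if_neg (by linarith)] | erw [if_pos (by linarith)] | erw [if_neg (by linarith)]); (try push_cast); (try ring1))
  rcases eq_or_lt_of_le h2 with h | h2
  · subst h
    ((try push_cast); (repeat first | rw [if_pos (by linarith)] | rw [if_neg (by linarith)] | erw [if_pos (by linarith)] | erw [if_neg (by linarith)]); (try push_cast); (try ring1))
  rcases lt_trichotomy p 0 with h | h | h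
  · ((try push_cast); (repeat first | rw [if_pos (by linarith)] | rw [if_neg (by linarith)] | erw [if_pos (by linarith)] | erw [if_neg (by linarith)]); (try push_cast); (try ring1))
  · subst h
    ((try push_cast); (repeat first | rw [if_pos (by linarith)] | rw [if_neg (by linarith)] | erw [if_pos (by linarith)] | erw [if_neg (by linarith)]); (try push_cast); (try ring1))
  · ((try push_cast); (repeat first | rw [if_pos (by linarith)] | rw [if_neg (by linarith)] | erw [if_pos (by linarith)] | erw [if_neg (by linarith)]); (try push_cast); (try ring1))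
theorem kcl9 {p x : ℝ} (h1 : 1 / 10 ≤ p) (h2 : p ≤ 3 / 10) : kcg.v p x = (13 / 125000 + (x - 9743 / 10000) * (923 / 50000)) + (228449 / 100000 + (x - 9743 / 10000) * (29263 / 10000)) * p + (103 / 10000 + (x - 9743 / 10000) * (923 / 500)) * p ^ 2 := by
  simp only [kcg, kcg_3, kcg_6, kcg_9, kcg_12, kcg_13, kcg_18, kcg_30, kcg_33, kcg_34, kcg_39, kcg_44, kcg_57, kcg_58, kcg_66, kcg_67, kcg_72, kcg_85, kcg_86, kcg_91, kcg_94, kcg_107, kcg_108, kcg_117, kcg_120, kcg_121, kcg_124, kcg_136, kcg_137, kcg_142, kcg_145, kcg_157, kcg_158, kcg_166, kcg_167, kcg_170, kcg_180, kcg_181, kcg_189, kcg_192, kcg_200, kcg_201, kcg_206, kcg_209, kcg_216, kcg_217, kcg_218, kcg_223, kcg_224, kcg_233, kcg_239, kcg_244, kcg_254, kcg_261, kcg_262, kcg_268, kcg_278, kcg_284, kcg_291, kcg_303]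
  rcases eq_or_lt_of_le h1 with h | h1
  · subst h
    ((try push_cast); (repeat first | rw [if_pos (by linarith)] | rw [if_neg (by linarith)] | erw [if_pos (by linarith)] | erw [if_neg (by linarith)]); (try push_cast); (try ring1))
  rcases eq_or_lt_of_le h2 with h | h2
  · subst h
    ((try push_cast); (repeat first | rw [if_pos (by linarith)] | rw [if_neg (by linarith)] | erw [if_pos (by linarith)] | erw [if_neg (by linarith)]); (try push_cast); (try ring1))
  · ((try push_cast); (repeat first | rw [if_pos (by linarith)] | rw [if_neg (by linarith)] | erw [if_pos (by linarith)] | erw [if_neg (by linarith)]); (try push_cast); (try ring1))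
theorem kcl10 {p x : ℝ} (h1 : 3 / 10 ≤ p) (h2 : p ≤ 41 / 100) : kcg.v p x = (11353 / 20000000 + (x - 9743 / 10000) * (-25451 / 100000)) + (4562829 / 2000000 + (x - 9743 / 10000) * (47461 / 10000)) * p + (77 / 5000 + (x - 9743 / 10000) * (-1187 / 1000)) * p ^ 2 := by
  simp only [kcg, kcg_3, kcg_6, kcg_9, kcg_12, kcg_13, kcg_18, kcg_30, kcg_33, kcg_34, kcg_39, kcg_44, kcg_57, kcg_58, kcg_66, kcg_67, kcg_72, kcg_85, kcg_86, kcg_91, kcg_94, kcg_107, kcg_108, kcg_117, kcg_120, kcg_121, kcg_124, kcg_136, kcg_137, kcg_142, kcg_145, kcg_157, kcg_158, kcg_166, kcg_167, kcg_170, kcg_180, kcg_181, kcg_189, kcg_192, kcg_200, kcg_201, kcg_206, kcg_209, kcg_216, kcg_217, kcg_218, kcg_223, kcg_224, kcg_233, kcg_239, kcg_244, kcg_254, kcg_261, kcg_262, kcg_268, kcg_278, kcg_284, kcg_291, kcg_303]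
  rcases eq_or_lt_of_le h1 with h | h1
  · subst h
    ((try push_cast); (repeat first | rw [if_pos (by linarith)] | rw [if_neg (by linarith)] | erw [if_pos (by linarith)] | erw [if_neg (by linarith)]); (try push_cast); (try ring1))
  rcases eq_or_lt_of_le h2 with h | h2
  · subst h
    ((try push_cast); (repeat first | rw [if_pos (by linarith)] | rw [if_neg (by linarith)] | erw [if_pos (by linarith)] | erw [if_neg (by linarith)]); (try push_cast); (try ring1))
  · ((try push_cast); (repeat first | rw [if_pos (by linarith)] | rw [if_neg (by linarith)] | erw [if_pos (by linarith)] | erw [if_neg (by linarith)]); (try push_cast); (try ring1))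
theorem kcl11 {p x : ℝ} (h1 : 41 / 100 ≤ p) (h2 : p ≤ 43 / 100) : kcg.v p x = (1941564677 / 200000000 + (x - 9743 / 10000) * (-1221320489 / 10000000)) + (-5633881 / 125000 + (x - 9743 / 10000) * (59927069 / 100000)) * p + (577623 / 10000 + (x - 9743 / 10000) * (-726217 / 1000)) * p ^ 2 := by
  simp only [kcg, kcg_3, kcg_6, kcg_9, kcg_12, kcg_13, kcg_18, kcg_30, kcg_33, kcg_34, kcg_39, kcg_44, kcg_57, kcg_58, kcg_66, kcg_67, kcg_72, kcg_85, kcg_86, kcg_91, kcg_94, kcg_107, kcg_108, kcg_117, kcg_120, kcg_121, kcg_124, kcg_136, kcg_137, kcg_142, kcg_145, kcg_157, kcg_158, kcg_166, kcg_167, kcg_170, kcg_180, kcg_181, kcg_189, kcg_192, kcg_200, kcg_201, kcg_206, kcg_209, kcg_216, kcg_217, kcg_218, kcg_223, kcg_224, kcg_233, kcg_239, kcg_244, kcg_254, kcg_261, kcg_262, kcg_268, kcg_278, kcg_284, kcg_291, kcg_303]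
  rcases eq_or_lt_of_le h1 with h | h1
  · subst h
    ((try push_cast); (repeat first | rw [if_pos (by linarith)] | rw [if_neg (by linarith)] | erw [if_pos (by linarith)] | erw [if_neg (by linarith)]); (try push_cast); (try ring1))
  rcases eq_or_lt_of_le h2 with h | h2
  · subst h
    ((try push_cast); (repeat first | rw [if_pos (by linarith)] | rw [if_neg (by linarith)] | erw [if_pos (by linarith)] | erw [if_neg (by linarith)]); (try push_cast); (try ring1))
  · ((try push_cast); (repeat first | rw [if_pos (by linarith)] | rw [if_neg (by linarith)] | erw [if_pos (by linarith)] | erw [if_neg (by linarith)]); (try push_cast); (try ring1))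
theorem kcl12 {p x : ℝ} (h1 : 43 / 100 ≤ p) (h2 : p ≤ 1021 / 2246) : kcg.v p x = (7525628210402783 / 775150750000000 + (x - 9743 / 10000) * (-5300429037695269 / 28187300000000)) + (-1397586229137759 / 31006030000000 + (x - 9743 / 10000) * (255330152666473 / 281873000000)) * p + (115533 / 2000 + (x - 9743 / 10000) * (-541343 / 500)) * p ^ 2 := by
  simp only [kcg, kcg_3, kcg_6, kcg_9, kcg_12, kcg_13, kcg_18, kcg_30, kcg_33, kcg_34, kcg_39, kcg_44, kcg_57, kcg_58, kcg_66, kcg_67, kcg_72, kcg_85, kcg_86, kcg_91, kcg_94, kcg_107, kcg_108, kcg_117, kcg_120, kcg_121, kcg_124, kcg_136, kcg_137, kcg_142, kcg_145, kcg_157, kcg_158, kcg_166, kcg_167, kcg_170, kcg_180, kcg_181, kcg_189, kcg_192, kcg_200, kcg_201, kcg_206, kcg_209, kcg_216, kcg_217, kcg_218, kcg_223, kcg_224, kcg_233, kcg_239, kcg_244, kcg_254, kcg_261, kcg_262, kcg_268, kcg_278, kcg_284, kcg_291, kcg_303]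
  rcases eq_or_lt_of_le h1 with h | h1
  · subst h
    ((try push_cast); (repeat first | rw [if_pos (by linarith)] | rw [if_neg (by linarith)] | erw [if_pos (by linarith)] | erw [if_neg (by linarith)]); (try push_cast); (try ring1))
  rcases eq_or_lt_of_le h2 with h | h2
  · subst h
    ((try push_cast); (repeat first | rw [if_pos (by linarith)] | rw [if_neg (by linarith)] | erw [if_pos (by linarith)] | erw [if_neg (by linarith)]); (try push_cast); (try ring1))
  · ((try push_cast); (repeat first | rw [if_pos (by linarith)] | rw [if_neg (by linarith)] | erw [if_pos (by linarith)] | erw [if_neg (by linarith)]); (try push_cast); (try ring1))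
theorem kcl13 {p x : ℝ} (h1 : 1021 / 2246 ≤ p) (h2 : p ≤ 661 / 1387) : kcg.v p x = (-238210407249047899937 / 106662958879000000000 + (x - 9743 / 10000) * (-2032412137385686809201 / 10666295887900000000)) + (398120571613621976069 / 53331479439500000000 + (x - 9743 / 10000) * (611206935594605367979 / 666643492993750000)) * p + (-11 / 500 + (x - 9743 / 10000) * (-547397 / 500)) * p ^ 2 := by
  simp only [kcg, kcg_3, kcg_6, kcg_9, kcg_12, kcg_13, kcg_18, kcg_30, kcg_33, kcg_34, kcg_39, kcg_44, kcg_57, kcg_58, kcg_66, kcg_67, kcg_72, kcg_85, kcg_86, kcg_91, kcg_94, kcg_107, kcg_108, kcg_117, kcg_120, kcg_121, kcg_124, kcg_136, kcg_137, kcg_142, kcg_145, kcg_157, kcg_158, kcg_166, kcg_167, kcg_170, kcg_180, kcg_181, kcg_189, kcg_192, kcg_200, kcg_201, kcg_206, kcg_209, kcg_216, kcg_217, kcg_218, kcg_223, kcg_224, kcg_233, kcg_239, kcg_244, kcg_254, kcg_261, kcg_262, kcg_268, kcg_278, kcg_284, kcg_291, kcg_303]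
  rcases eq_or_lt_of_le h1 with h | h1
  · subst h
    ((try push_cast); (repeat first | rw [if_pos (by linarith)] | rw [if_neg (by linarith)] | erw [if_pos (by linarith)] | erw [if_neg (by linarith)]); (try push_cast); (try ring1))
  rcases eq_or_lt_of_le h2 with h | h2
  · subst h
    ((try push_cast); (repeat first | rw [if_pos (by linarith)] | rw [if_neg (by linarith)] | erw [if_pos (by linarith)] | erw [if_neg (by linarith)]); (try push_cast); (try ring1))
  · ((try push_cast); (repeat first | rw [if_pos (by linarith)] | rw [if_neg (by linarith)] | erw [if_pos (by linarith)] | erw [if_neg (by linarith)]); (try push_cast); (try ring1))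
theorem kcl14 {p x : ℝ} (h1 : 661 / 1387 ≤ p) (h2 : p ≤ 483 / 1000) : kcg.v p x = (-6678359080349535899 / 12373427000000000 + (x - 9743 / 10000) * (-218352056477061917 / 1237342700000000)) + (280032794380277357 / 123734270000000 + (x - 9743 / 10000) * (2653378986119431 / 3093356750000)) * p + (-23666447 / 10000 + (x - 9743 / 10000) * (-516407 / 500)) * p ^ 2 := by
  simp only [kcg, kcg_3, kcg_6, kcg_9, kcg_12, kcg_13, kcg_18, kcg_30, kcg_33, kcg_34, kcg_39, kcg_44, kcg_57, kcg_58, kcg_66, kcg_67, kcg_72, kcg_85, kcg_86, kcg_91, kcg_94, kcg_107, kcg_108, kcg_117, kcg_120, kcg_121, kcg_124, kcg_136, kcg_137, kcg_142, kcg_145, kcg_157, kcg_158, kcg_166, kcg_167, kcg_170, kcg_180, kcg_181, kcg_189, kcg_192, kcg_200, kcg_201, kcg_206, kcg_209, kcg_216, kcg_217, kcg_218, kcg_223, kcg_224, kcg_233, kcg_239, kcg_244, kcg_254, kcg_261, kcg_262, kcg_268, kcg_278, kcg_284, kcg_291, kcg_303]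
  rcases eq_or_lt_of_le h1 with h | h1
  · subst h
    ((try push_cast); (repeat first | rw [if_pos (by linarith)] | rw [if_neg (by linarith)] | erw [if_pos (by linarith)] | erw [if_neg (by linarith)]); (try push_cast); (try ring1))
  rcases eq_or_lt_of_le h2 with h | h2
  · subst h
    ((try push_cast); (repeat first | rw [if_pos (by linarith)] | rw [if_neg (by linarith)] | erw [if_pos (by linarith)] | erw [if_neg (by linarith)]); (try push_cast); (try ring1))
  · ((try push_cast); (repeat first | rw [if_pos (by linarith)] | rw [if_neg (by linarith)] | erw [if_pos (by linarith)] | erw [if_neg (by linarith)]); (try push_cast); (try ring1))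
theorem kcl15 {p x : ℝ} (h1 : 483 / 1000 ≤ p) (h2 : p ≤ 49 / 100) : kcg.v p x = (12377558891 / 1000000000 + (x - 9743 / 10000) * (281011219 / 5000000)) + (-1609806003 / 70000000 + (x - 9743 / 10000) * (-13209151 / 125000)) * p + (-27 / 10000 + (x - 9743 / 10000) * (-4433 / 125)) * p ^ 2 := by
  simp only [kcg, kcg_3, kcg_6, kcg_9, kcg_12, kcg_13, kcg_18, kcg_30, kcg_33, kcg_34, kcg_39, kcg_44, kcg_57, kcg_58, kcg_66, kcg_67, kcg_72, kcg_85, kcg_86, kcg_91, kcg_94, kcg_107, kcg_108, kcg_117, kcg_120, kcg_121, kcg_124, kcg_136, kcg_137, kcg_142, kcg_145, kcg_157, kcg_158, kcg_166, kcg_167, kcg_170, kcg_180, kcg_181, kcg_189, kcg_192, kcg_200, kcg_201, kcg_206, kcg_209, kcg_216, kcg_217, kcg_218, kcg_223, kcg_224, kcg_233, kcg_239, kcg_244, kcg_254, kcg_261, kcg_262, kcg_268, kcg_278, kcg_284, kcg_291, kcg_303]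
  rcases eq_or_lt_of_le h1 with h | h1
  · subst h
    ((try push_cast); (repeat first | rw [if_pos (by linarith)] | rw [if_neg (by linarith)] | erw [if_pos (by linarith)] | erw [if_neg (by linarith)]); (try push_cast); (try ring1))
  rcases eq_or_lt_of_le h2 with h | h2
  · subst h
    ((try push_cast); (repeat first | rw [if_pos (by linarith)] | rw [if_neg (by linarith)] | erw [if_pos (by linarith)] | erw [if_neg (by linarith)]); (try push_cast); (try ring1))
  · ((try push_cast); (repeat first | rw [if_pos (by linarith)] | rw [if_neg (by linarith)] | erw [if_pos (by linarith)] | erw [if_neg (by linarith)]); (try push_cast); (try ring1))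
theorem kcl16 {p x : ℝ} (h1 : 49 / 100 ≤ p) (h2 : p ≤ 1 / 2) : kcg.v p x = (12393381327 / 1000000000 + (x - 9743 / 10000) * (3128460731 / 50000000)) + (-230618103 / 10000000 + (x - 9743 / 10000) * (-65830423 / 500000)) * p + (79 / 1250 + (x - 9743 / 10000) * (-4473 / 500)) * p ^ 2 := by
  simp only [kcg, kcg_3, kcg_6, kcg_9, kcg_12, kcg_13, kcg_18, kcg_30, kcg_33, kcg_34, kcg_39, kcg_44, kcg_57, kcg_58, kcg_66, kcg_67, kcg_72, kcg_85, kcg_86, kcg_91, kcg_94, kcg_107, kcg_108, kcg_117, kcg_120, kcg_121, kcg_124, kcg_136, kcg_137, kcg_142, kcg_145, kcg_157, kcg_158, kcg_166, kcg_167, kcg_170, kcg_180, kcg_181, kcg_189, kcg_192, kcg_200, kcg_201, kcg_206, kcg_209, kcg_216, kcg_217, kcg_218, kcg_223, kcg_224, kcg_233, kcg_239, kcg_244, kcg_254, kcg_261, kcg_262, kcg_268, kcg_278, kcg_284, kcg_291, kcg_303]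
  rcases eq_or_lt_of_le h1 with h | h1
  · subst h
    ((try push_cast); (repeat first | rw [if_pos (by linarith)] | rw [if_neg (by linarith)] | erw [if_pos (by linarith)] | erw [if_neg (by linarith)]); (try push_cast); (try ring1))
  rcases eq_or_lt_of_le h2 with h | h2
  · subst h
    ((try push_cast); (repeat first | rw [if_pos (by linarith)] | rw [if_neg (by linarith)] | erw [if_pos (by linarith)] | erw [if_neg (by linarith)]); (try push_cast); (try ring1))
  · ((try push_cast); (repeat first | rw [if_pos (by linarith)] | rw [if_neg (by linarith)] | erw [if_pos (by linarith)] | erw [if_neg (by linarith)]); (try push_cast); (try ring1))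
theorem kvh0 {p x : ℝ} (h2 : p ≤ -49 / 100) : dt33.kv p x = (-12393381327 / 1000000000 + (x - 9743 / 10000) * (-3128460731 / 50000000)) + (-230618103 / 10000000 + (x - 9743 / 10000) * (-65830423 / 500000)) * p + (-79 / 1250 + (x - 9743 / 10000) * (4473 / 500)) * p ^ 2 := by
  refine (DT.kv_le (by simp only [Cn.rt_v, Cn.ng_v]; push_cast; linarith)).trans ?_
  refine (DT.kv_le (by simp only [Cn.rt_v, Cn.ng_v]; push_cast; linarith)).trans ?_
  refine (DT.kv_le (by simp only [Cn.rt_v, Cn.ng_v]; push_cast; linarith)).trans ?_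
  refine (DT.kv_le (by simp only [Cn.rt_v, Cn.ng_v]; push_cast; linarith)).trans ?_
  simp only [dt1, DT.kv, sw1, sl1, sv1]
  ((try push_cast); ring1)
theorem kvh1 {p x : ℝ} (h1 : -49 / 100 < p) (h2 : p ≤ -483 / 1000) : dt33.kv p x = (-12377558891 / 1000000000 + (x - 9743 / 10000) * (-281011219 / 5000000)) + (-1609806003 / 70000000 + (x - 9743 / 10000) * (-13209151 / 125000)) * p + (27 / 10000 + (x - 9743 / 10000) * (4433 / 125)) * p ^ 2 := by
  refine (DT.kv_le (by simp only [Cn.rt_v, Cn.ng_v]; push_cast; linarith)).trans ?_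
  refine (DT.kv_le (by simp only [Cn.rt_v, Cn.ng_v]; push_cast; linarith)).trans ?_
  refine (DT.kv_le (by simp only [Cn.rt_v, Cn.ng_v]; push_cast; linarith)).trans ?_
  refine (DT.kv_gt (by simp only [Cn.rt_v, Cn.ng_v]; push_cast; linarith)).trans ?_
  simp only [dt2, DT.kv, sw2, sl2, sv2]
  ((try push_cast); ring1)
theorem kvh2 {p x : ℝ} (h1 : -483 / 1000 < p) (h2 : p ≤ -661 / 1387) : dt33.kv p x = (6678359080349535899 / 12373427000000000 + (x - 9743 / 10000) * (218352056477061917 / 1237342700000000)) + (280032794380277357 / 123734270000000 + (x - 9743 / 10000) * (2653378986119431 / 3093356750000)) * p + (23666447 / 10000 + (x - 9743 / 10000) * (516407 / 500)) * p ^ 2 := by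
  refine (DT.kv_le (by simp only [Cn.rt_v, Cn.ng_v]; push_cast; linarith)).trans ?_
  refine (DT.kv_le (by simp only [Cn.rt_v, Cn.ng_v]; push_cast; linarith)).trans ?_
  refine (DT.kv_gt (by simp only [Cn.rt_v, Cn.ng_v]; push_cast; linarith)).trans ?_
  refine (DT.kv_le (by simp only [Cn.rt_v, Cn.ng_v]; push_cast; linarith)).trans ?_
  simp only [dt3, DT.kv, sw3, sl3, sv3]
  ((try push_cast); ring1)
theorem kvh3 {p x : ℝ} (h1 : -661 / 1387 < p) (h2 : p ≤ -1021 / 2246) : dt33.kv p x = (238210407249047899937 / 106662958879000000000 + (x - 9743 / 10000) * (2032412137385686809201 / 10666295887900000000)) + (398120571613621976069 / 53331479439500000000 + (x - 9743 / 10000) * (611206935594605367979 / 666643492993750000)) * p + (11 / 500 + (x - 9743 / 10000) * (547397 / 500)) * p ^ 2 := by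
  refine (DT.kv_le (by simp only [Cn.rt_v, Cn.ng_v]; push_cast; linarith)).trans ?_
  refine (DT.kv_le (by simp only [Cn.rt_v, Cn.ng_v]; push_cast; linarith)).trans ?_
  refine (DT.kv_gt (by simp only [Cn.rt_v, Cn.ng_v]; push_cast; linarith)).trans ?_
  refine (DT.kv_gt (by simp only [Cn.rt_v, Cn.ng_v]; push_cast; linarith)).trans ?_
  simp only [dt4, DT.kv, sw4, sl4, sv4]
  ((try push_cast); ring1)
theorem kvh4 {p x : ℝ} (h1 : -1021 / 2246 < p) (h2 : p ≤ -43 / 100) : dt33.kv p x = (-7525628210402783 / 775150750000000 + (x - 9743 / 10000) * (5300429037695269 / 28187300000000)) + (-1397586229137759 / 31006030000000 + (x - 9743 / 10000) * (255330152666473 / 281873000000)) * p + (-115533 / 2000 + (x - 9743 / 10000) * (541343 / 500)) * p ^ 2 := by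
  refine (DT.kv_le (by simp only [Cn.rt_v, Cn.ng_v]; push_cast; linarith)).trans ?_
  refine (DT.kv_gt (by simp only [Cn.rt_v, Cn.ng_v]; push_cast; linarith)).trans ?_
  refine (DT.kv_le (by simp only [Cn.rt_v, Cn.ng_v]; push_cast; linarith)).trans ?_
  refine (DT.kv_le (by simp only [Cn.rt_v, Cn.ng_v]; push_cast; linarith)).trans ?_
  simp only [dt5, DT.kv, sw5, sl5, sv5]
  ((try push_cast); ring1)
theorem kvh5 {p x : ℝ} (h1 : -43 / 100 < p) (h2 : p ≤ -41 / 100) : dt33.kv p x = (-1941564677 / 200000000 + (x - 9743 / 10000) * (1221320489 / 10000000)) + (-5633881 / 125000 + (x - 9743 / 10000) * (59927069 / 100000)) * p + (-577623 / 10000 + (x - 9743 / 10000) * (726217 / 1000)) * p ^ 2 := by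
  refine (DT.kv_le (by simp only [Cn.rt_v, Cn.ng_v]; push_cast; linarith)).trans ?_
  refine (DT.kv_gt (by simp only [Cn.rt_v, Cn.ng_v]; push_cast; linarith)).trans ?_
  refine (DT.kv_le (by simp only [Cn.rt_v, Cn.ng_v]; push_cast; linarith)).trans ?_
  refine (DT.kv_gt (by simp only [Cn.rt_v, Cn.ng_v]; push_cast; linarith)).trans ?_
  simp only [dt6, DT.kv, sw6, sl6, sv6]
  ((try push_cast); ring1)
theorem kvh6 {p x : ℝ} (h1 : -41 / 100 < p) (h2 : p ≤ -3 / 10) : dt33.kv p x = (-11353 / 20000000 + (x - 9743 / 10000) * (25451 / 100000)) + (4562829 / 2000000 + (x - 9743 / 10000) * (47461 / 10000)) * p + (-77 / 5000 + (x - 9743 / 10000) * (1187 / 1000)) * p ^ 2 := by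
  refine (DT.kv_le (by simp only [Cn.rt_v, Cn.ng_v]; push_cast; linarith)).trans ?_
  refine (DT.kv_gt (by simp only [Cn.rt_v, Cn.ng_v]; push_cast; linarith)).trans ?_
  refine (DT.kv_gt (by simp only [Cn.rt_v, Cn.ng_v]; push_cast; linarith)).trans ?_
  refine (DT.kv_le (by simp only [Cn.rt_v, Cn.ng_v]; push_cast; linarith)).trans ?_
  simp only [dt7, DT.kv, sw7, sl7, sv7]
  ((try push_cast); ring1)
theorem kvh7 {p x : ℝ} (h1 : -3 / 10 < p) (h2 : p ≤ -1 / 10) : dt33.kv p x = (-13 / 125000 + (x - 9743 / 10000) * (-923 / 50000)) + (228449 / 100000 + (x - 9743 / 10000) * (29263 / 10000)) * p + (-103 / 10000 + (x - 9743 / 10000) * (-923 / 500)) * p ^ 2 := by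
  refine (DT.kv_le (by simp only [Cn.rt_v, Cn.ng_v]; push_cast; linarith)).trans ?_
  refine (DT.kv_gt (by simp only [Cn.rt_v, Cn.ng_v]; push_cast; linarith)).trans ?_
  refine (DT.kv_gt (by simp only [Cn.rt_v, Cn.ng_v]; push_cast; linarith)).trans ?_
  refine (DT.kv_gt (by simp only [Cn.rt_v, Cn.ng_v]; push_cast; linarith)).trans ?_
  simp only [dt8, DT.kv, sw8, sl8, sv8]
  ((try push_cast); ring1)
theorem kvh8 {p x : ℝ} (h1 : -1 / 10 < p) (h2 : p ≤ 1 / 10) : dt33.kv p x = (0) + (14291 / 6250 + (x - 9743 / 10000) * (6591 / 2000)) * p := by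
  refine (DT.kv_gt (by simp only [Cn.rt_v, Cn.ng_v]; push_cast; linarith)).trans ?_
  refine (DT.kv_le (by simp only [Cn.rt_v, Cn.ng_v]; push_cast; linarith)).trans ?_
  refine (DT.kv_le (by simp only [Cn.rt_v, Cn.ng_v]; push_cast; linarith)).trans ?_
  refine (DT.kv_le (by simp only [Cn.rt_v, Cn.ng_v]; push_cast; linarith)).trans ?_
  simp only [dt9, DT.kv, sl9, sv9]
  ((try push_cast); ring1)
theorem kvh9 {p x : ℝ} (h1 : 1 / 10 < p) (h2 : p ≤ 3 / 10) : dt33.kv p x = (13 / 125000 + (x - 9743 / 10000) * (923 / 50000)) + (228449 / 100000 + (x - 9743 / 10000) * (29263 / 10000)) * p + (103 / 10000 + (x - 9743 / 10000) * (923 / 500)) * p ^ 2 := by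
  refine (DT.kv_gt (by simp only [Cn.rt_v, Cn.ng_v]; push_cast; linarith)).trans ?_
  refine (DT.kv_le (by simp only [Cn.rt_v, Cn.ng_v]; push_cast; linarith)).trans ?_
  refine (DT.kv_le (by simp only [Cn.rt_v, Cn.ng_v]; push_cast; linarith)).trans ?_
  refine (DT.kv_gt (by simp only [Cn.rt_v, Cn.ng_v]; push_cast; linarith)).trans ?_
  simp only [dt10, DT.kv, sw10, sl10, sv10]
  ((try push_cast); ring1)
theorem kvh10 {p x : ℝ} (h1 : 3 / 10 < p) (h2 : p ≤ 41 / 100) : dt33.kv p x = (11353 / 20000000 + (x - 9743 / 10000) * (-25451 / 100000)) + (4562829 / 2000000 + (x - 9743 / 10000) * (47461 / 10000)) * p + (77 / 5000 + (x - 9743 / 10000) * (-1187 / 1000)) * p ^ 2 := by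
  refine (DT.kv_gt (by simp only [Cn.rt_v, Cn.ng_v]; push_cast; linarith)).trans ?_
  refine (DT.kv_le (by simp only [Cn.rt_v, Cn.ng_v]; push_cast; linarith)).trans ?_
  refine (DT.kv_gt (by simp only [Cn.rt_v, Cn.ng_v]; push_cast; linarith)).trans ?_
  refine (DT.kv_le (by simp only [Cn.rt_v, Cn.ng_v]; push_cast; linarith)).trans ?_
  simp only [dt11, DT.kv, sw11, sl11, sv11]
  ((try push_cast); ring1)
theorem kvh11 {p x : ℝ} (h1 : 41 / 100 < p) (h2 : p ≤ 43 / 100) : dt33.kv p x = (1941564677 / 200000000 + (x - 9743 / 10000) * (-1221320489 / 10000000)) + (-5633881 / 125000 + (x - 9743 / 10000) * (59927069 / 100000)) * p + (577623 / 10000 + (x - 9743 / 10000) * (-726217 / 1000)) * p ^ 2 := by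
  refine (DT.kv_gt (by simp only [Cn.rt_v, Cn.ng_v]; push_cast; linarith)).trans ?_
  refine (DT.kv_le (by simp only [Cn.rt_v, Cn.ng_v]; push_cast; linarith)).trans ?_
  refine (DT.kv_gt (by simp only [Cn.rt_v, Cn.ng_v]; push_cast; linarith)).trans ?_
  refine (DT.kv_gt (by simp only [Cn.rt_v, Cn.ng_v]; push_cast; linarith)).trans ?_
  simp only [dt12, DT.kv, sw12, sl12, sv12]
  ((try push_cast); ring1)
theorem kvh12 {p x : ℝ} (h1 : 43 / 100 < p) (h2 : p ≤ 1021 / 2246) : dt33.kv p x = (7525628210402783 / 775150750000000 + (x - 9743 / 10000) * (-5300429037695269 / 28187300000000)) + (-1397586229137759 / 31006030000000 + (x - 9743 / 10000) * (255330152666473 / 281873000000)) * p + (115533 / 2000 + (x - 9743 / 10000) * (-541343 / 500)) * p ^ 2 := by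
  refine (DT.kv_gt (by simp only [Cn.rt_v, Cn.ng_v]; push_cast; linarith)).trans ?_
  refine (DT.kv_gt (by simp only [Cn.rt_v, Cn.ng_v]; push_cast; linarith)).trans ?_
  refine (DT.kv_le (by simp only [Cn.rt_v, Cn.ng_v]; push_cast; linarith)).trans ?_
  refine (DT.kv_le (by simp only [Cn.rt_v, Cn.ng_v]; push_cast; linarith)).trans ?_
  simp only [dt13, DT.kv, sw13, sl13, sv13]
  ((try push_cast); ring1)
theorem kvh13 {p x : ℝ} (h1 : 1021 / 2246 < p) (h2 : p ≤ 661 / 1387) : dt33.kv p x = (-238210407249047899937 / 106662958879000000000 + (x - 9743 / 10000) * (-2032412137385686809201 / 10666295887900000000)) + (398120571613621976069 / 53331479439500000000 + (x - 9743 / 10000) * (611206935594605367979 / 666643492993750000)) * p + (-11 / 500 + (x - 9743 / 10000) * (-547397 / 500)) * p ^ 2 := by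
  refine (DT.kv_gt (by simp only [Cn.rt_v, Cn.ng_v]; push_cast; linarith)).trans ?_
  refine (DT.kv_gt (by simp only [Cn.rt_v, Cn.ng_v]; push_cast; linarith)).trans ?_
  refine (DT.kv_le (by simp only [Cn.rt_v, Cn.ng_v]; push_cast; linarith)).trans ?_
  refine (DT.kv_gt (by simp only [Cn.rt_v, Cn.ng_v]; push_cast; linarith)).trans ?_
  simp only [dt14, DT.kv, sw14, sl14, sv14]
  ((try push_cast); ring1)
theorem kvh14 {p x : ℝ} (h1 : 661 / 1387 < p) (h2 : p ≤ 483 / 1000) : dt33.kv p x = (-6678359080349535899 / 12373427000000000 + (x - 9743 / 10000) * (-218352056477061917 / 1237342700000000)) + (280032794380277357 / 123734270000000 + (x - 9743 / 10000) * (2653378986119431 / 3093356750000)) * p + (-23666447 / 10000 + (x - 9743 / 10000) * (-516407 / 500)) * p ^ 2 := by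
  refine (DT.kv_gt (by simp only [Cn.rt_v, Cn.ng_v]; push_cast; linarith)).trans ?_
  refine (DT.kv_gt (by simp only [Cn.rt_v, Cn.ng_v]; push_cast; linarith)).trans ?_
  refine (DT.kv_gt (by simp only [Cn.rt_v, Cn.ng_v]; push_cast; linarith)).trans ?_
  refine (DT.kv_le (by simp only [Cn.rt_v, Cn.ng_v]; push_cast; linarith)).trans ?_
  simp only [dt15, DT.kv, sw15, sl15, sv15]
  ((try push_cast); ring1)
theorem kvh15 {p x : ℝ} (h1 : 483 / 1000 < p) (h2 : p ≤ 49 / 100) : dt33.kv p x = (12377558891 / 1000000000 + (x - 9743 / 10000) * (281011219 / 5000000)) + (-1609806003 / 70000000 + (x - 9743 / 10000) * (-13209151 / 125000)) * p + (-27 / 10000 + (x - 9743 / 10000) * (-4433 / 125)) * p ^ 2 := by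
  refine (DT.kv_gt (by simp only [Cn.rt_v, Cn.ng_v]; push_cast; linarith)).trans ?_
  refine (DT.kv_gt (by simp only [Cn.rt_v, Cn.ng_v]; push_cast; linarith)).trans ?_
  refine (DT.kv_gt (by simp only [Cn.rt_v, Cn.ng_v]; push_cast; linarith)).trans ?_
  refine (DT.kv_gt (by simp only [Cn.rt_v, Cn.ng_v]; push_cast; linarith)).trans ?_
  refine (DT.kv_le (by simp only [Cn.rt_v, Cn.ng_v]; push_cast; linarith)).trans ?_
  simp only [dt16, DT.kv, sw16, sl16, sv16]
  ((try push_cast); ring1)
theorem kvh16 {p x : ℝ} (h1 : 49 / 100 < p) (h2 : p ≤ 1 / 2) : dt33.kv p x = (12393381327 / 1000000000 + (x - 9743 / 10000) * (3128460731 / 50000000)) + (-230618103 / 10000000 + (x - 9743 / 10000) * (-65830423 / 500000)) * p + (79 / 1250 + (x - 9743 / 10000) * (-4473 / 500)) * p ^ 2 := by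
  refine (DT.kv_gt (by simp only [Cn.rt_v, Cn.ng_v]; push_cast; linarith)).trans ?_
  refine (DT.kv_gt (by simp only [Cn.rt_v, Cn.ng_v]; push_cast; linarith)).trans ?_
  refine (DT.kv_gt (by simp only [Cn.rt_v, Cn.ng_v]; push_cast; linarith)).trans ?_
  refine (DT.kv_gt (by simp only [Cn.rt_v, Cn.ng_v]; push_cast; linarith)).trans ?_
  refine (DT.kv_gt (by simp only [Cn.rt_v, Cn.ng_v]; push_cast; linarith)).trans ?_
  simp only [dt17, DT.kv, sw17, sl17, sv17]
  ((try push_cast); ring1)
theorem kvl0 {p x : ℝ} (h1 : -1 / 2 ≤ p) (h2 : p ≤ -49 / 100) : dt33.kv p x = (-12393381327 / 1000000000 + (x - 9743 / 10000) * (-3128460731 / 50000000)) + (-230618103 / 10000000 + (x - 9743 / 10000) * (-65830423 / 500000)) * p + (-79 / 1250 + (x - 9743 / 10000) * (4473 / 500)) * p ^ 2 := by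
  exact kvh0 h2
theorem kvl1 {p x : ℝ} (h1 : -49 / 100 ≤ p) (h2 : p ≤ -483 / 1000) : dt33.kv p x = (-12377558891 / 1000000000 + (x - 9743 / 10000) * (-281011219 / 5000000)) + (-1609806003 / 70000000 + (x - 9743 / 10000) * (-13209151 / 125000)) * p + (27 / 10000 + (x - 9743 / 10000) * (4433 / 125)) * p ^ 2 := by
  rcases eq_or_lt_of_le h1 with h | h1
  · subst h
    rw [kvh0 (by norm_num)]
    ring1
  · exact kvh1 h1 h2
theorem kvl2 {p x : ℝ} (h1 : -483 / 1000 ≤ p) (h2 : p ≤ -661 / 1387) : dt33.kv p x = (6678359080349535899 / 12373427000000000 + (x - 9743 / 10000) * (218352056477061917 / 1237342700000000)) + (280032794380277357 / 123734270000000 + (x - 9743 / 10000) * (2653378986119431 / 3093356750000)) * p + (23666447 / 10000 + (x - 9743 / 10000) * (516407 / 500)) * p ^ 2 := by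
  rcases eq_or_lt_of_le h1 with h | h1
  · subst h
    rw [kvh1 (by norm_num) (by norm_num)]
    ring1
  · exact kvh2 h1 h2
theorem kvl3 {p x : ℝ} (h1 : -661 / 1387 ≤ p) (h2 : p ≤ -1021 / 2246) : dt33.kv p x = (238210407249047899937 / 106662958879000000000 + (x - 9743 / 10000) * (2032412137385686809201 / 10666295887900000000)) + (398120571613621976069 / 53331479439500000000 + (x - 9743 / 10000) * (611206935594605367979 / 666643492993750000)) * p + (11 / 500 + (x - 9743 / 10000) * (547397 / 500)) * p ^ 2 := by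
  rcases eq_or_lt_of_le h1 with h | h1
  · subst h
    rw [kvh2 (by norm_num) (by norm_num)]
    ring1
  · exact kvh3 h1 h2
theorem kvl4 {p x : ℝ} (h1 : -1021 / 2246 ≤ p) (h2 : p ≤ -43 / 100) : dt33.kv p x = (-7525628210402783 / 775150750000000 + (x - 9743 / 10000) * (5300429037695269 / 28187300000000)) + (-1397586229137759 / 31006030000000 + (x - 9743 / 10000) * (255330152666473 / 281873000000)) * p + (-115533 / 2000 + (x - 9743 / 10000) * (541343 / 500)) * p ^ 2 := by
  rcases eq_or_lt_of_le h1 with h | h1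
  · subst h
    rw [kvh3 (by norm_num) (by norm_num)]
    ring1
  · exact kvh4 h1 h2
theorem kvl5 {p x : ℝ} (h1 : -43 / 100 ≤ p) (h2 : p ≤ -41 / 100) : dt33.kv p x = (-1941564677 / 200000000 + (x - 9743 / 10000) * (1221320489 / 10000000)) + (-5633881 / 125000 + (x - 9743 / 10000) * (59927069 / 100000)) * p + (-577623 / 10000 + (x - 9743 / 10000) * (726217 / 1000)) * p ^ 2 := by
  rcases eq_or_lt_of_le h1 with h | h1
  · subst h
    rw [kvh4 (by norm_num) (by norm_num)]
    ring1
  · exact kvh5 h1 h2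
theorem kvl6 {p x : ℝ} (h1 : -41 / 100 ≤ p) (h2 : p ≤ -3 / 10) : dt33.kv p x = (-11353 / 20000000 + (x - 9743 / 10000) * (25451 / 100000)) + (4562829 / 2000000 + (x - 9743 / 10000) * (47461 / 10000)) * p + (-77 / 5000 + (x - 9743 / 10000) * (1187 / 1000)) * p ^ 2 := by
  rcases eq_or_lt_of_le h1 with h | h1
  · subst h
    rw [kvh5 (by norm_num) (by norm_num)]
    ring1
  · exact kvh6 h1 h2
theorem kvl7 {p x : ℝ} (h1 : -3 / 10 ≤ p) (h2 : p ≤ -1 / 10) : dt33.kv p x = (-13 / 125000 + (x - 9743 / 10000) * (-923 / 50000)) + (228449 / 100000 + (x - 9743 / 10000) * (29263 / 10000)) * p + (-103 / 10000 + (x - 9743 / 10000) * (-923 / 500)) * p ^ 2 := by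
  rcases eq_or_lt_of_le h1 with h | h1
  · subst h
    rw [kvh6 (by norm_num) (by norm_num)]
    ring1
  · exact kvh7 h1 h2
theorem kvl8 {p x : ℝ} (h1 : -1 / 10 ≤ p) (h2 : p ≤ 1 / 10) : dt33.kv p x = (0) + (14291 / 6250 + (x - 9743 / 10000) * (6591 / 2000)) * p := by
  rcases eq_or_lt_of_le h1 with h | h1
  · subst h
    rw [kvh7 (by norm_num) (by norm_num)]
    ring1
  · exact kvh8 h1 h2
theorem kvl9 {p x : ℝ} (h1 : 1 / 10 ≤ p) (h2 : p ≤ 3 / 10) : dt33.kv p x = (13 / 125000 + (x - 9743 / 10000) * (923 / 50000)) + (228449 / 100000 + (x - 9743 / 10000) * (29263 / 10000)) * p + (103 / 10000 + (x - 9743 / 10000) * (923 / 500)) * p ^ 2 := by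
  rcases eq_or_lt_of_le h1 with h | h1
  · subst h
    rw [kvh8 (by norm_num) (by norm_num)]
    ring1
  · exact kvh9 h1 h2
theorem kvl10 {p x : ℝ} (h1 : 3 / 10 ≤ p) (h2 : p ≤ 41 / 100) : dt33.kv p x = (11353 / 20000000 + (x - 9743 / 10000) * (-25451 / 100000)) + (4562829 / 2000000 + (x - 9743 / 10000) * (47461 / 10000)) * p + (77 / 5000 + (x - 9743 / 10000) * (-1187 / 1000)) * p ^ 2 := by
  rcases eq_or_lt_of_le h1 with h | h1
  · subst h
    rw [kvh9 (by norm_num) (by norm_num)]
    ring1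
  · exact kvh10 h1 h2
theorem kvl11 {p x : ℝ} (h1 : 41 / 100 ≤ p) (h2 : p ≤ 43 / 100) : dt33.kv p x = (1941564677 / 200000000 + (x - 9743 / 10000) * (-1221320489 / 10000000)) + (-5633881 / 125000 + (x - 9743 / 10000) * (59927069 / 100000)) * p + (577623 / 10000 + (x - 9743 / 10000) * (-726217 / 1000)) * p ^ 2 := by
  rcases eq_or_lt_of_le h1 with h | h1
  · subst h
    rw [kvh10 (by norm_num) (by norm_num)]
    ring1
  · exact kvh11 h1 h2
theorem kvl12 {p x : ℝ} (h1 : 43 / 100 ≤ p) (h2 : p ≤ 1021 / 2246) : dt33.kv p x = (7525628210402783 / 775150750000000 + (x - 9743 / 10000) * (-5300429037695269 / 28187300000000)) + (-1397586229137759 / 31006030000000 + (x - 9743 / 10000) * (255330152666473 / 281873000000)) * p + (115533 / 2000 + (x - 9743 / 10000) * (-541343 / 500)) * p ^ 2 := by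
  rcases eq_or_lt_of_le h1 with h | h1
  · subst h
    rw [kvh11 (by norm_num) (by norm_num)]
    ring1
  · exact kvh12 h1 h2
theorem kvl13 {p x : ℝ} (h1 : 1021 / 2246 ≤ p) (h2 : p ≤ 661 / 1387) : dt33.kv p x = (-238210407249047899937 / 106662958879000000000 + (x - 9743 / 10000) * (-2032412137385686809201 / 10666295887900000000)) + (398120571613621976069 / 53331479439500000000 + (x - 9743 / 10000) * (611206935594605367979 / 666643492993750000)) * p + (-11 / 500 + (x - 9743 / 10000) * (-547397 / 500)) * p ^ 2 := by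
  rcases eq_or_lt_of_le h1 with h | h1
  · subst h
    rw [kvh12 (by norm_num) (by norm_num)]
    ring1
  · exact kvh13 h1 h2
theorem kvl14 {p x : ℝ} (h1 : 661 / 1387 ≤ p) (h2 : p ≤ 483 / 1000) : dt33.kv p x = (-6678359080349535899 / 12373427000000000 + (x - 9743 / 10000) * (-218352056477061917 / 1237342700000000)) + (280032794380277357 / 123734270000000 + (x - 9743 / 10000) * (2653378986119431 / 3093356750000)) * p + (-23666447 / 10000 + (x - 9743 / 10000) * (-516407 / 500)) * p ^ 2 := by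
  rcases eq_or_lt_of_le h1 with h | h1
  · subst h
    rw [kvh13 (by norm_num) (by norm_num)]
    ring1
  · exact kvh14 h1 h2
theorem kvl15 {p x : ℝ} (h1 : 483 / 1000 ≤ p) (h2 : p ≤ 49 / 100) : dt33.kv p x = (12377558891 / 1000000000 + (x - 9743 / 10000) * (281011219 / 5000000)) + (-1609806003 / 70000000 + (x - 9743 / 10000) * (-13209151 / 125000)) * p + (-27 / 10000 + (x - 9743 / 10000) * (-4433 / 125)) * p ^ 2 := by
  rcases eq_or_lt_of_le h1 with h | h1
  · subst h
    rw [kvh14 (by norm_num) (by norm_num)]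
    ring1
  · exact kvh15 h1 h2
theorem kvl16 {p x : ℝ} (h1 : 49 / 100 ≤ p) (h2 : p ≤ 1 / 2) : dt33.kv p x = (12393381327 / 1000000000 + (x - 9743 / 10000) * (3128460731 / 50000000)) + (-230618103 / 10000000 + (x - 9743 / 10000) * (-65830423 / 500000)) * p + (79 / 1250 + (x - 9743 / 10000) * (-4473 / 500)) * p ^ 2 := by
  rcases eq_or_lt_of_le h1 with h | h1
  · subst h
    rw [kvh15 (by norm_num) (by norm_num)]
    ring1
  · exact kvh16 h1 h2
theorem kfe {x p : ℝ} (h : |p| ≤ 1 / 2) : kcg.v p x = dt33.kv p x := by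
  obtain ⟨h1, h2⟩ := abs_le.1 h
  rcases le_total p (-49 / 100) with g0 | g1000
  · rw [kcl0 (by linarith) g0, kvl0 (by linarith) g0]
  rcases le_total p (-483 / 1000) with g1 | g1001
  · rw [kcl1 g1000 g1, kvl1 g1000 g1]
  rcases le_total p (-661 / 1387) with g2 | g1002
  · rw [kcl2 g1001 g2, kvl2 g1001 g2]
  rcases le_total p (-1021 / 2246) with g3 | g1003
  · rw [kcl3 g1002 g3, kvl3 g1002 g3]
  rcases le_total p (-43 / 100) with g4 | g1004
  · rw [kcl4 g1003 g4, kvl4 g1003 g4]
  rcases le_total p (-41 / 100) with g5 | g1005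
  · rw [kcl5 g1004 g5, kvl5 g1004 g5]
  rcases le_total p (-3 / 10) with g6 | g1006
  · rw [kcl6 g1005 g6, kvl6 g1005 g6]
  rcases le_total p (-1 / 10) with g7 | g1007
  · rw [kcl7 g1006 g7, kvl7 g1006 g7]
  rcases le_total p (1 / 10) with g8 | g1008
  · rw [kcl8 g1007 g8, kvl8 g1007 g8]
  rcases le_total p (3 / 10) with g9 | g1009
  · rw [kcl9 g1008 g9, kvl9 g1008 g9]
  rcases le_total p (41 / 100) with g10 | g1010
  · rw [kcl10 g1009 g10, kvl10 g1009 g10]
  rcases le_total p (43 / 100) with g11 | g1011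
  · rw [kcl11 g1010 g11, kvl11 g1010 g11]
  rcases le_total p (1021 / 2246) with g12 | g1012
  · rw [kcl12 g1011 g12, kvl12 g1011 g12]
  rcases le_total p (661 / 1387) with g13 | g1013
  · rw [kcl13 g1012 g13, kvl13 g1012 g13]
  rcases le_total p (483 / 1000) with g14 | g1014
  · rw [kcl14 g1013 g14, kvl14 g1013 g14]
  rcases le_total p (49 / 100) with g15 | g1015
  · rw [kcl15 g1014 g15, kvl15 g1014 g15]
  · rw [kcl16 g1015 (by linarith), kvl16 g1015 (by linarith)]
theorem odd {x p : ℝ} (h : |p| ≤ 1 / 2) : kcg.v (-p) x = -kcg.v p x := by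
  obtain ⟨h1, h2⟩ := abs_le.1 h
  rcases le_total p (-49 / 100) with g0 | g1000
  · rw [kcl0 (by linarith) g0, kcl16 (p := -p) (by linarith) (by linarith)]; ring
  rcases le_total p (-483 / 1000) with g1 | g1001
  · rw [kcl1 g1000 g1, kcl15 (p := -p) (by linarith) (by linarith)]; ring
  rcases le_total p (-661 / 1387) with g2 | g1002
  · rw [kcl2 g1001 g2, kcl14 (p := -p) (by linarith) (by linarith)]; ring
  rcases le_total p (-1021 / 2246) with g3 | g1003
  · rw [kcl3 g1002 g3, kcl13 (p := -p) (by linarith) (by linarith)]; ring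
  rcases le_total p (-43 / 100) with g4 | g1004
  · rw [kcl4 g1003 g4, kcl12 (p := -p) (by linarith) (by linarith)]; ring
  rcases le_total p (-41 / 100) with g5 | g1005
  · rw [kcl5 g1004 g5, kcl11 (p := -p) (by linarith) (by linarith)]; ring
  rcases le_total p (-3 / 10) with g6 | g1006
  · rw [kcl6 g1005 g6, kcl10 (p := -p) (by linarith) (by linarith)]; ring
  rcases le_total p (-1 / 10) with g7 | g1007
  · rw [kcl7 g1006 g7, kcl9 (p := -p) (by linarith) (by linarith)]; ring
  rcases le_total p (1 / 10) with g8 | g1008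
  · rw [kcl8 g1007 g8, kcl8 (p := -p) (by linarith) (by linarith)]; ring
  rcases le_total p (3 / 10) with g9 | g1009
  · rw [kcl9 g1008 g9, kcl7 (p := -p) (by linarith) (by linarith)]; ring
  rcases le_total p (41 / 100) with g10 | g1010
  · rw [kcl10 g1009 g10, kcl6 (p := -p) (by linarith) (by linarith)]; ring
  rcases le_total p (43 / 100) with g11 | g1011
  · rw [kcl11 g1010 g11, kcl5 (p := -p) (by linarith) (by linarith)]; ring
  rcases le_total p (1021 / 2246) with g12 | g1012
  · rw [kcl12 g1011 g12, kcl4 (p := -p) (by linarith) (by linarith)]; ring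
  rcases le_total p (661 / 1387) with g13 | g1013
  · rw [kcl13 g1012 g13, kcl3 (p := -p) (by linarith) (by linarith)]; ring
  rcases le_total p (483 / 1000) with g14 | g1014
  · rw [kcl14 g1013 g14, kcl2 (p := -p) (by linarith) (by linarith)]; ring
  rcases le_total p (49 / 100) with g15 | g1015
  · rw [kcl15 g1014 g15, kcl1 (p := -p) (by linarith) (by linarith)]; ring
  · rw [kcl16 g1015 (by linarith), kcl0 (p := -p) (by linarith) (by linarith)]; ring
theorem ctA : cT (1021 / 2246) = 611 / 1123 := by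
  unfold cT
  rw [show (3 / 4 * (1 - (1021 / 2246 : ℝ) ^ 2)) = (3465 / 4492) ^ 2 by norm_num, Real.sqrt_sq (by norm_num)]
  norm_num
theorem ctB : cT (661 / 1387) = 1451 / 2774 := by
  unfold cT
  rw [show (3 / 4 * (1 - (661 / 1387 : ℝ) ^ 2)) = (1056 / 1387) ^ 2 by norm_num, Real.sqrt_sq (by norm_num)]
  norm_num
theorem kgA {x : ℝ} : kcg.v (1021 / 2246) x = (577823347 / 500000000 + (x - 9743 / 10000) * (94297 / 100000000)) := by
  rw [kcl12 (by norm_num) (by norm_num)]
  ring
theorem kgB {x : ℝ} : kcg.v (661 / 1387) x = (1319293963 / 1000000000 + (x - 9743 / 10000) * (-225398271 / 100000000)) := by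
  rw [kcl13 (by norm_num) (by norm_num)]
  ring
theorem ka_dt1 (x : ℝ) : dt1.kv (-1 / 2) x = (-878276177 / 1000000000 + (x - 9743 / 10000) * (274885419 / 50000000)) := by
  simp only [dt1, DT.kv, sw1, sl1, sv1]
  ((try push_cast); ring1)
theorem kb_dt1 (x : ℝ) : dt1.kv (-49 / 100) x = (-5541343 / 5000000 + (x - 9743 / 10000) * (102313363 / 25000000)) := by
  simp only [dt1, DT.kv, sw1, sl1, sv1]
  ((try push_cast); ring1)
theorem ka_dt2 (x : ℝ) : dt2.kv (-49 / 100) x = (-5541343 / 5000000 + (x - 9743 / 10000) * (102313363 / 25000000)) := by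
  simp only [dt2, DT.kv, sw2, sl2, sv2]
  ((try push_cast); ring1)
theorem kb_dt2 (x : ℝ) : dt2.kv (-483 / 1000) x = (-126926759 / 100000000 + (x - 9743 / 10000) * (77781919 / 25000000)) := by
  simp only [dt2, DT.kv, sw2, sl2, sv2]
  ((try push_cast); ring1)
theorem ka_dt18 (x : ℝ) : dt18.kv (-1 / 2) x = (-878276177 / 1000000000 + (x - 9743 / 10000) * (274885419 / 50000000)) :=
  (DT.kv_le (by simp only [Cn.rt_v, Cn.ng_v]; norm_num)).trans (ka_dt1 x)
theorem kb_dt18 (x : ℝ) : dt18.kv (-483 / 1000) x = (-126926759 / 100000000 + (x - 9743 / 10000) * (77781919 / 25000000)) :=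
  (DT.kv_gt (by simp only [Cn.rt_v, Cn.ng_v]; norm_num)).trans (kb_dt2 x)
theorem ka_dt3 (x : ℝ) : dt3.kv (-483 / 1000) x = (-126926759 / 100000000 + (x - 9743 / 10000) * (77781919 / 25000000)) := by
  simp only [dt3, DT.kv, sw3, sl3, sv3]
  ((try push_cast); ring1)
theorem kb_dt3 (x : ℝ) : dt3.kv (-661 / 1387) x = (-1319293963 / 1000000000 + (x - 9743 / 10000) * (225398271 / 100000000)) := by
  simp only [dt3, DT.kv, sw3, sl3, sv3]
  ((try push_cast); ring1)
theorem ka_dt4 (x : ℝ) : dt4.kv (-661 / 1387) x = (-1319293963 / 1000000000 + (x - 9743 / 10000) * (225398271 / 100000000)) := by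
  simp only [dt4, DT.kv, sw4, sl4, sv4]
  ((try push_cast); ring1)
theorem kb_dt4 (x : ℝ) : dt4.kv (-1021 / 2246) x = (-577823347 / 500000000 + (x - 9743 / 10000) * (-94297 / 100000000)) := by
  simp only [dt4, DT.kv, sw4, sl4, sv4]
  ((try push_cast); ring1)
theorem ka_dt19 (x : ℝ) : dt19.kv (-483 / 1000) x = (-126926759 / 100000000 + (x - 9743 / 10000) * (77781919 / 25000000)) :=
  (DT.kv_le (by simp only [Cn.rt_v, Cn.ng_v]; norm_num)).trans (ka_dt3 x)
theorem kb_dt19 (x : ℝ) : dt19.kv (-1021 / 2246) x = (-577823347 / 500000000 + (x - 9743 / 10000) * (-94297 / 100000000)) :=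
  (DT.kv_gt (by simp only [Cn.rt_v, Cn.ng_v]; norm_num)).trans (kb_dt4 x)
theorem ka_dt20 (x : ℝ) : dt20.kv (-1 / 2) x = (-878276177 / 1000000000 + (x - 9743 / 10000) * (274885419 / 50000000)) :=
  (DT.kv_le (by simp only [Cn.rt_v, Cn.ng_v]; norm_num)).trans (ka_dt18 x)
theorem kb_dt20 (x : ℝ) : dt20.kv (-1021 / 2246) x = (-577823347 / 500000000 + (x - 9743 / 10000) * (-94297 / 100000000)) :=
  (DT.kv_gt (by simp only [Cn.rt_v, Cn.ng_v]; norm_num)).trans (kb_dt19 x)
theorem ka_dt5 (x : ℝ) : dt5.kv (-1021 / 2246) x = (-577823347 / 500000000 + (x - 9743 / 10000) * (-94297 / 100000000)) := by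
  simp only [dt5, DT.kv, sw5, sl5, sv5]
  ((try push_cast); ring1)
theorem kb_dt5 (x : ℝ) : dt5.kv (-43 / 100) x = (-201504403 / 200000000 + (x - 9743 / 10000) * (-2553649 / 2000000)) := by
  simp only [dt5, DT.kv, sw5, sl5, sv5]
  ((try push_cast); ring1)
theorem ka_dt6 (x : ℝ) : dt6.kv (-43 / 100) x = (-201504403 / 200000000 + (x - 9743 / 10000) * (-2553649 / 2000000)) := by
  simp only [dt6, DT.kv, sw6, sl6, sv6]
  ((try push_cast); ring1)
theorem kb_dt6 (x : ℝ) : dt6.kv (-41 / 100) x = (-187707267 / 200000000 + (x - 9743 / 10000) * (-14918563 / 10000000)) := by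
  simp only [dt6, DT.kv, sw6, sl6, sv6]
  ((try push_cast); ring1)
theorem ka_dt21 (x : ℝ) : dt21.kv (-1021 / 2246) x = (-577823347 / 500000000 + (x - 9743 / 10000) * (-94297 / 100000000)) :=
  (DT.kv_le (by simp only [Cn.rt_v, Cn.ng_v]; norm_num)).trans (ka_dt5 x)
theorem kb_dt21 (x : ℝ) : dt21.kv (-41 / 100) x = (-187707267 / 200000000 + (x - 9743 / 10000) * (-14918563 / 10000000)) :=
  (DT.kv_gt (by simp only [Cn.rt_v, Cn.ng_v]; norm_num)).trans (kb_dt6 x)
theorem ka_dt7 (x : ℝ) : dt7.kv (-41 / 100) x = (-187707267 / 200000000 + (x - 9743 / 10000) * (-14918563 / 10000000)) := by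
  simp only [dt7, DT.kv, sw7, sl7, sv7]
  ((try push_cast); ring1)
theorem kb_dt7 (x : ℝ) : dt7.kv (-3 / 10) x = (-343189 / 500000 + (x - 9743 / 10000) * (-106249 / 100000)) := by
  simp only [dt7, DT.kv, sw7, sl7, sv7]
  ((try push_cast); ring1)
theorem ka_dt8 (x : ℝ) : dt8.kv (-3 / 10) x = (-343189 / 500000 + (x - 9743 / 10000) * (-106249 / 100000)) := by
  simp only [dt8, DT.kv, sw8, sl8, sv8]
  ((try push_cast); ring1)
theorem kb_dt8 (x : ℝ) : dt8.kv (-1 / 10) x = (-14291 / 62500 + (x - 9743 / 10000) * (-6591 / 20000)) := by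
  simp only [dt8, DT.kv, sw8, sl8, sv8]
  ((try push_cast); ring1)
theorem ka_dt22 (x : ℝ) : dt22.kv (-41 / 100) x = (-187707267 / 200000000 + (x - 9743 / 10000) * (-14918563 / 10000000)) :=
  (DT.kv_le (by simp only [Cn.rt_v, Cn.ng_v]; norm_num)).trans (ka_dt7 x)
theorem kb_dt22 (x : ℝ) : dt22.kv (-1 / 10) x = (-14291 / 62500 + (x - 9743 / 10000) * (-6591 / 20000)) :=
  (DT.kv_gt (by simp only [Cn.rt_v, Cn.ng_v]; norm_num)).trans (kb_dt8 x)
theorem ka_dt23 (x : ℝ) : dt23.kv (-1021 / 2246) x = (-577823347 / 500000000 + (x - 9743 / 10000) * (-94297 / 100000000)) :=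
  (DT.kv_le (by simp only [Cn.rt_v, Cn.ng_v]; norm_num)).trans (ka_dt21 x)
theorem kb_dt23 (x : ℝ) : dt23.kv (-1 / 10) x = (-14291 / 62500 + (x - 9743 / 10000) * (-6591 / 20000)) :=
  (DT.kv_gt (by simp only [Cn.rt_v, Cn.ng_v]; norm_num)).trans (kb_dt22 x)
theorem ka_dt24 (x : ℝ) : dt24.kv (-1 / 2) x = (-878276177 / 1000000000 + (x - 9743 / 10000) * (274885419 / 50000000)) :=
  (DT.kv_le (by simp only [Cn.rt_v, Cn.ng_v]; norm_num)).trans (ka_dt20 x)
theorem kb_dt24 (x : ℝ) : dt24.kv (-1 / 10) x = (-14291 / 62500 + (x - 9743 / 10000) * (-6591 / 20000)) :=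
  (DT.kv_gt (by simp only [Cn.rt_v, Cn.ng_v]; norm_num)).trans (kb_dt23 x)
theorem ka_dt9 (x : ℝ) : dt9.kv (-1 / 10) x = (-14291 / 62500 + (x - 9743 / 10000) * (-6591 / 20000)) := by
  simp only [dt9, DT.kv, sl9, sv9]
  ((try push_cast); ring1)
theorem kb_dt9 (x : ℝ) : dt9.kv (1 / 10) x = (14291 / 62500 + (x - 9743 / 10000) * (6591 / 20000)) := by
  simp only [dt9, DT.kv, sl9, sv9]
  ((try push_cast); ring1)
theorem ka_dt10 (x : ℝ) : dt10.kv (1 / 10) x = (14291 / 62500 + (x - 9743 / 10000) * (6591 / 20000)) := by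
  simp only [dt10, DT.kv, sw10, sl10, sv10]
  ((try push_cast); ring1)
theorem kb_dt10 (x : ℝ) : dt10.kv (3 / 10) x = (343189 / 500000 + (x - 9743 / 10000) * (106249 / 100000)) := by
  simp only [dt10, DT.kv, sw10, sl10, sv10]
  ((try push_cast); ring1)
theorem ka_dt25 (x : ℝ) : dt25.kv (-1 / 10) x = (-14291 / 62500 + (x - 9743 / 10000) * (-6591 / 20000)) :=
  (DT.kv_le (by simp only [Cn.rt_v, Cn.ng_v]; norm_num)).trans (ka_dt9 x)
theorem kb_dt25 (x : ℝ) : dt25.kv (3 / 10) x = (343189 / 500000 + (x - 9743 / 10000) * (106249 / 100000)) :=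
  (DT.kv_gt (by simp only [Cn.rt_v, Cn.ng_v]; norm_num)).trans (kb_dt10 x)
theorem ka_dt11 (x : ℝ) : dt11.kv (3 / 10) x = (343189 / 500000 + (x - 9743 / 10000) * (106249 / 100000)) := by
  simp only [dt11, DT.kv, sw11, sl11, sv11]
  ((try push_cast); ring1)
theorem kb_dt11 (x : ℝ) : dt11.kv (41 / 100) x = (187707267 / 200000000 + (x - 9743 / 10000) * (14918563 / 10000000)) := by
  simp only [dt11, DT.kv, sw11, sl11, sv11]
  ((try push_cast); ring1)
theorem ka_dt12 (x : ℝ) : dt12.kv (41 / 100) x = (187707267 / 200000000 + (x - 9743 / 10000) * (14918563 / 10000000)) := by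
  simp only [dt12, DT.kv, sw12, sl12, sv12]
  ((try push_cast); ring1)
theorem kb_dt12 (x : ℝ) : dt12.kv (43 / 100) x = (201504403 / 200000000 + (x - 9743 / 10000) * (2553649 / 2000000)) := by
  simp only [dt12, DT.kv, sw12, sl12, sv12]
  ((try push_cast); ring1)
theorem ka_dt26 (x : ℝ) : dt26.kv (3 / 10) x = (343189 / 500000 + (x - 9743 / 10000) * (106249 / 100000)) :=
  (DT.kv_le (by simp only [Cn.rt_v, Cn.ng_v]; norm_num)).trans (ka_dt11 x)
theorem kb_dt26 (x : ℝ) : dt26.kv (43 / 100) x = (201504403 / 200000000 + (x - 9743 / 10000) * (2553649 / 2000000)) :=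
  (DT.kv_gt (by simp only [Cn.rt_v, Cn.ng_v]; norm_num)).trans (kb_dt12 x)
theorem ka_dt27 (x : ℝ) : dt27.kv (-1 / 10) x = (-14291 / 62500 + (x - 9743 / 10000) * (-6591 / 20000)) :=
  (DT.kv_le (by simp only [Cn.rt_v, Cn.ng_v]; norm_num)).trans (ka_dt25 x)
theorem kb_dt27 (x : ℝ) : dt27.kv (43 / 100) x = (201504403 / 200000000 + (x - 9743 / 10000) * (2553649 / 2000000)) :=
  (DT.kv_gt (by simp only [Cn.rt_v, Cn.ng_v]; norm_num)).trans (kb_dt26 x)
theorem ka_dt13 (x : ℝ) : dt13.kv (43 / 100) x = (201504403 / 200000000 + (x - 9743 / 10000) * (2553649 / 2000000)) := by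
  simp only [dt13, DT.kv, sw13, sl13, sv13]
  ((try push_cast); ring1)
theorem kb_dt13 (x : ℝ) : dt13.kv (1021 / 2246) x = (577823347 / 500000000 + (x - 9743 / 10000) * (94297 / 100000000)) := by
  simp only [dt13, DT.kv, sw13, sl13, sv13]
  ((try push_cast); ring1)
theorem ka_dt14 (x : ℝ) : dt14.kv (1021 / 2246) x = (577823347 / 500000000 + (x - 9743 / 10000) * (94297 / 100000000)) := by
  simp only [dt14, DT.kv, sw14, sl14, sv14]
  ((try push_cast); ring1)
theorem kb_dt14 (x : ℝ) : dt14.kv (661 / 1387) x = (1319293963 / 1000000000 + (x - 9743 / 10000) * (-225398271 / 100000000)) := by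
  simp only [dt14, DT.kv, sw14, sl14, sv14]
  ((try push_cast); ring1)
theorem ka_dt28 (x : ℝ) : dt28.kv (43 / 100) x = (201504403 / 200000000 + (x - 9743 / 10000) * (2553649 / 2000000)) :=
  (DT.kv_le (by simp only [Cn.rt_v, Cn.ng_v]; norm_num)).trans (ka_dt13 x)
theorem kb_dt28 (x : ℝ) : dt28.kv (661 / 1387) x = (1319293963 / 1000000000 + (x - 9743 / 10000) * (-225398271 / 100000000)) :=
  (DT.kv_gt (by simp only [Cn.rt_v, Cn.ng_v]; norm_num)).trans (kb_dt14 x)
theorem ka_dt15 (x : ℝ) : dt15.kv (661 / 1387) x = (1319293963 / 1000000000 + (x - 9743 / 10000) * (-225398271 / 100000000)) := by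
  simp only [dt15, DT.kv, sw15, sl15, sv15]
  ((try push_cast); ring1)
theorem kb_dt15 (x : ℝ) : dt15.kv (483 / 1000) x = (126926759 / 100000000 + (x - 9743 / 10000) * (-77781919 / 25000000)) := by
  simp only [dt15, DT.kv, sw15, sl15, sv15]
  ((try push_cast); ring1)
theorem ka_dt16 (x : ℝ) : dt16.kv (483 / 1000) x = (126926759 / 100000000 + (x - 9743 / 10000) * (-77781919 / 25000000)) := by
  simp only [dt16, DT.kv, sw16, sl16, sv16]
  ((try push_cast); ring1)
theorem kb_dt16 (x : ℝ) : dt16.kv (49 / 100) x = (5541343 / 5000000 + (x - 9743 / 10000) * (-102313363 / 25000000)) := by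
  simp only [dt16, DT.kv, sw16, sl16, sv16]
  ((try push_cast); ring1)
theorem ka_dt17 (x : ℝ) : dt17.kv (49 / 100) x = (5541343 / 5000000 + (x - 9743 / 10000) * (-102313363 / 25000000)) := by
  simp only [dt17, DT.kv, sw17, sl17, sv17]
  ((try push_cast); ring1)
theorem kb_dt17 (x : ℝ) : dt17.kv (1 / 2) x = (878276177 / 1000000000 + (x - 9743 / 10000) * (-274885419 / 50000000)) := by
  simp only [dt17, DT.kv, sw17, sl17, sv17]
  ((try push_cast); ring1)
theorem ka_dt29 (x : ℝ) : dt29.kv (483 / 1000) x = (126926759 / 100000000 + (x - 9743 / 10000) * (-77781919 / 25000000)) :=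
  (DT.kv_le (by simp only [Cn.rt_v, Cn.ng_v]; norm_num)).trans (ka_dt16 x)
theorem kb_dt29 (x : ℝ) : dt29.kv (1 / 2) x = (878276177 / 1000000000 + (x - 9743 / 10000) * (-274885419 / 50000000)) :=
  (DT.kv_gt (by simp only [Cn.rt_v, Cn.ng_v]; norm_num)).trans (kb_dt17 x)
theorem ka_dt30 (x : ℝ) : dt30.kv (661 / 1387) x = (1319293963 / 1000000000 + (x - 9743 / 10000) * (-225398271 / 100000000)) :=
  (DT.kv_le (by simp only [Cn.rt_v, Cn.ng_v]; norm_num)).trans (ka_dt15 x)
theorem kb_dt30 (x : ℝ) : dt30.kv (1 / 2) x = (878276177 / 1000000000 + (x - 9743 / 10000) * (-274885419 / 50000000)) :=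
  (DT.kv_gt (by simp only [Cn.rt_v, Cn.ng_v]; norm_num)).trans (kb_dt29 x)
theorem ka_dt31 (x : ℝ) : dt31.kv (43 / 100) x = (201504403 / 200000000 + (x - 9743 / 10000) * (2553649 / 2000000)) :=
  (DT.kv_le (by simp only [Cn.rt_v, Cn.ng_v]; norm_num)).trans (ka_dt28 x)
theorem kb_dt31 (x : ℝ) : dt31.kv (1 / 2) x = (878276177 / 1000000000 + (x - 9743 / 10000) * (-274885419 / 50000000)) :=
  (DT.kv_gt (by simp only [Cn.rt_v, Cn.ng_v]; norm_num)).trans (kb_dt30 x)
theorem ka_dt32 (x : ℝ) : dt32.kv (-1 / 10) x = (-14291 / 62500 + (x - 9743 / 10000) * (-6591 / 20000)) :=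
  (DT.kv_le (by simp only [Cn.rt_v, Cn.ng_v]; norm_num)).trans (ka_dt27 x)
theorem kb_dt32 (x : ℝ) : dt32.kv (1 / 2) x = (878276177 / 1000000000 + (x - 9743 / 10000) * (-274885419 / 50000000)) :=
  (DT.kv_gt (by simp only [Cn.rt_v, Cn.ng_v]; norm_num)).trans (kb_dt31 x)
theorem ka_dt33 (x : ℝ) : dt33.kv (-1 / 2) x = (-878276177 / 1000000000 + (x - 9743 / 10000) * (274885419 / 50000000)) :=
  (DT.kv_le (by simp only [Cn.rt_v, Cn.ng_v]; norm_num)).trans (ka_dt24 x)
theorem kb_dt33 (x : ℝ) : dt33.kv (1 / 2) x = (878276177 / 1000000000 + (x - 9743 / 10000) * (-274885419 / 50000000)) :=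
  (DT.kv_gt (by simp only [Cn.rt_v, Cn.ng_v]; norm_num)).trans (kb_dt32 x)
theorem ko_dt1 (x : ℝ) : dt1.KOk x := trivial
theorem ko_dt2 (x : ℝ) : dt2.KOk x := trivial
theorem ko_dt18 (x : ℝ) : dt18.KOk x :=
  DT.kOk_node (v := -49 / 100) (by simp only [Cn.rt_v, Cn.ng_v]; norm_num) (kb_dt1 x) (ka_dt2 x) (by ring1) (ko_dt1 x) (ko_dt2 x)
theorem ko_dt3 (x : ℝ) : dt3.KOk x := trivial
theorem ko_dt4 (x : ℝ) : dt4.KOk x := trivial
theorem ko_dt19 (x : ℝ) : dt19.KOk x :=
  DT.kOk_node (v := -661 / 1387) (by simp only [Cn.rt_v, Cn.ng_v]; norm_num) (kb_dt3 x) (ka_dt4 x) (by ring1) (ko_dt3 x) (ko_dt4 x)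
theorem ko_dt20 (x : ℝ) : dt20.KOk x :=
  DT.kOk_node (v := -483 / 1000) (by simp only [Cn.rt_v, Cn.ng_v]; norm_num) (kb_dt18 x) (ka_dt19 x) (by ring1) (ko_dt18 x) (ko_dt19 x)
theorem ko_dt5 (x : ℝ) : dt5.KOk x := trivial
theorem ko_dt6 (x : ℝ) : dt6.KOk x := trivial
theorem ko_dt21 (x : ℝ) : dt21.KOk x :=
  DT.kOk_node (v := -43 / 100) (by simp only [Cn.rt_v, Cn.ng_v]; norm_num) (kb_dt5 x) (ka_dt6 x) (by ring1) (ko_dt5 x) (ko_dt6 x)
theorem ko_dt7 (x : ℝ) : dt7.KOk x := trivial
theorem ko_dt8 (x : ℝ) : dt8.KOk x := trivial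
theorem ko_dt22 (x : ℝ) : dt22.KOk x :=
  DT.kOk_node (v := -3 / 10) (by simp only [Cn.rt_v, Cn.ng_v]; norm_num) (kb_dt7 x) (ka_dt8 x) (by ring1) (ko_dt7 x) (ko_dt8 x)
theorem ko_dt23 (x : ℝ) : dt23.KOk x :=
  DT.kOk_node (v := -41 / 100) (by simp only [Cn.rt_v, Cn.ng_v]; norm_num) (kb_dt21 x) (ka_dt22 x) (by ring1) (ko_dt21 x) (ko_dt22 x)
theorem ko_dt24 (x : ℝ) : dt24.KOk x :=
  DT.kOk_node (v := -1021 / 2246) (by simp only [Cn.rt_v, Cn.ng_v]; norm_num) (kb_dt20 x) (ka_dt23 x) (by ring1) (ko_dt20 x) (ko_dt23 x)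
theorem ko_dt9 (x : ℝ) : dt9.KOk x := trivial
theorem ko_dt10 (x : ℝ) : dt10.KOk x := trivial
theorem ko_dt25 (x : ℝ) : dt25.KOk x :=
  DT.kOk_node (v := 1 / 10) (by simp only [Cn.rt_v, Cn.ng_v]; norm_num) (kb_dt9 x) (ka_dt10 x) (by ring1) (ko_dt9 x) (ko_dt10 x)
theorem ko_dt11 (x : ℝ) : dt11.KOk x := trivial
theorem ko_dt12 (x : ℝ) : dt12.KOk x := trivial
theorem ko_dt26 (x : ℝ) : dt26.KOk x :=
  DT.kOk_node (v := 41 / 100) (by simp only [Cn.rt_v, Cn.ng_v]; norm_num) (kb_dt11 x) (ka_dt12 x) (by ring1) (ko_dt11 x) (ko_dt12 x)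
theorem ko_dt27 (x : ℝ) : dt27.KOk x :=
  DT.kOk_node (v := 3 / 10) (by simp only [Cn.rt_v, Cn.ng_v]; norm_num) (kb_dt25 x) (ka_dt26 x) (by ring1) (ko_dt25 x) (ko_dt26 x)
theorem ko_dt13 (x : ℝ) : dt13.KOk x := trivial
theorem ko_dt14 (x : ℝ) : dt14.KOk x := trivial
theorem ko_dt28 (x : ℝ) : dt28.KOk x :=
  DT.kOk_node (v := 1021 / 2246) (by simp only [Cn.rt_v, Cn.ng_v]; norm_num) (kb_dt13 x) (ka_dt14 x) (by ring1) (ko_dt13 x) (ko_dt14 x)
theorem ko_dt15 (x : ℝ) : dt15.KOk x := trivial
theorem ko_dt16 (x : ℝ) : dt16.KOk x := trivial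
theorem ko_dt17 (x : ℝ) : dt17.KOk x := trivial
theorem ko_dt29 (x : ℝ) : dt29.KOk x :=
  DT.kOk_node (v := 49 / 100) (by simp only [Cn.rt_v, Cn.ng_v]; norm_num) (kb_dt16 x) (ka_dt17 x) (by ring1) (ko_dt16 x) (ko_dt17 x)
theorem ko_dt30 (x : ℝ) : dt30.KOk x :=
  DT.kOk_node (v := 483 / 1000) (by simp only [Cn.rt_v, Cn.ng_v]; norm_num) (kb_dt15 x) (ka_dt29 x) (by ring1) (ko_dt15 x) (ko_dt29 x)
theorem ko_dt31 (x : ℝ) : dt31.KOk x :=
  DT.kOk_node (v := 661 / 1387) (by simp only [Cn.rt_v, Cn.ng_v]; norm_num) (kb_dt28 x) (ka_dt30 x) (by ring1) (ko_dt28 x) (ko_dt30 x)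
theorem ko_dt32 (x : ℝ) : dt32.KOk x :=
  DT.kOk_node (v := 43 / 100) (by simp only [Cn.rt_v, Cn.ng_v]; norm_num) (kb_dt27 x) (ka_dt31 x) (by ring1) (ko_dt27 x) (ko_dt31 x)
theorem ko_dt33 (x : ℝ) : dt33.KOk x :=
  DT.kOk_node (v := -1 / 10) (by simp only [Cn.rt_v, Cn.ng_v]; norm_num) (kb_dt24 x) (ka_dt32 x) (by ring1) (ko_dt24 x) (ko_dt32 x)
theorem txl0 {p c x : ℝ} (h1 : -1 / 2 ≤ p) (h2 : p ≤ -49 / 100) : txg.v p c x = dt104.val (fun p x => kcg.v p x) p c x := by
  symm
  refine (DT.val_le (by simp only [Cn.rt_v, Cn.ng_v]; push_cast; linarith)).trans ?_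
  refine (DT.val_le (by simp only [Cn.rt_v, Cn.ng_v]; push_cast; linarith)).trans ?_
  refine (DT.val_le (by simp only [Cn.rt_v, Cn.ng_v]; push_cast; linarith)).trans ?_
  refine (DT.val_le (by simp only [Cn.rt_v, Cn.ng_v]; push_cast; linarith)).trans ?_
  refine (DT.val_le (by simp only [Cn.rt_v, Cn.ng_v]; push_cast; linarith)).trans ?_
  simp only [dt34, DT.val, cloR, sw34, sl34, sv34, txg, txg_4, txg_6, txg_26, txg_29, txg_32, txg_35, txg_38, txg_55, txg_58, txg_59, txg_77, txg_78, txg_86, txg_100, txg_101, txg_121, txg_122, txg_131, txg_134, txg_152, txg_153, txg_172, txg_173, txg_181, txg_196, txg_197, txg_216, txg_217, txg_227, txg_230, txg_233, txg_248, txg_249, txg_268, txg_269, txg_277, txg_292, txg_293, txg_312, txg_313, txg_322, txg_325, txg_337, txg_338, txg_354, txg_355, txg_363, txg_376, txg_377, txg_396, txg_397, txg_406, txg_408, txg_411, txg_413, txg_428, txg_429, txg_448, txg_449, txg_455, txg_470, txg_471, txg_490, txg_491, txg_498, txg_499, txg_512, txg_513,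 txg_531, txg_532, txg_538, txg_552, txg_553, txg_571, txg_572, txg_580, txg_581, txg_582, txg_598, txg_599, txg_617, txg_618, txg_624, txg_640, txg_641, txg_661, txg_662, txg_669, txg_670, txg_687, txg_688, txg_709, txg_710, txg_716, txg_733, txg_734, txg_753, txg_764, txg_765, txg_776, txg_777, txg_800, txg_801, txg_806, txg_821, txg_822, txg_843, txg_844]
  rcases eq_or_lt_of_le h1 with h | h1
  · subst h
    ((try push_cast); (repeat first | rw [if_pos (by linarith)] | rw [if_neg (by linarith)] | erw [if_pos (by linarith)] | erw [if_neg (by linarith)]); (try push_cast); (try ring1))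
  rcases eq_or_lt_of_le h2 with h | h2
  · subst h
    ((try push_cast); (repeat first | rw [if_pos (by linarith)] | rw [if_neg (by linarith)] | erw [if_pos (by linarith)] | erw [if_neg (by linarith)]); (try push_cast); (try ring1))
  · ((try push_cast); (repeat first | rw [if_pos (by linarith)] | rw [if_neg (by linarith)] | erw [if_pos (by linarith)] | erw [if_neg (by linarith)]); (try push_cast); (try ring1))
theorem txl1 {p c x : ℝ} (h1 : -49 / 100 < p) (h2 : p ≤ -483 / 1000) : txg.v p c x = dt104.val (fun p x => kcg.v p x) p c x := by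
  symm
  refine (DT.val_le (by simp only [Cn.rt_v, Cn.ng_v]; push_cast; linarith)).trans ?_
  refine (DT.val_le (by simp only [Cn.rt_v, Cn.ng_v]; push_cast; linarith)).trans ?_
  refine (DT.val_le (by simp only [Cn.rt_v, Cn.ng_v]; push_cast; linarith)).trans ?_
  refine (DT.val_le (by simp only [Cn.rt_v, Cn.ng_v]; push_cast; linarith)).trans ?_
  refine (DT.val_gt (by simp only [Cn.rt_v, Cn.ng_v]; push_cast; linarith)).trans ?_
  simp only [dt35, DT.val, cloR, sw35, sl35, sv35, txg, txg_4, txg_6, txg_26, txg_29, txg_32, txg_35, txg_38, txg_55, txg_58, txg_59, txg_77, txg_78, txg_86, txg_100, txg_101, txg_121, txg_122, txg_131, txg_134, txg_152, txg_153, txg_172, txg_173, txg_181, txg_196, txg_197, txg_216, txg_217, txg_227, txg_230, txg_233, txg_248, txg_249, txg_268, txg_269, txg_277, txg_292, txg_293, txg_312, txg_313, txg_322, txg_325, txg_337, txg_338, txg_354, txg_355, txg_363, txg_376, txg_377, txg_396, txg_397, txg_406, txg_408, txg_411, txg_413, txg_428, txg_429,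 txg_448, txg_449, txg_455, txg_470, txg_471, txg_490, txg_491, txg_498, txg_499, txg_512, txg_513, txg_531, txg_532, txg_538, txg_552, txg_553, txg_571, txg_572, txg_580, txg_581, txg_582, txg_598, txg_599, txg_617, txg_618, txg_624, txg_640, txg_641, txg_661, txg_662, txg_669, txg_670, txg_687, txg_688, txg_709, txg_710, txg_716, txg_733, txg_734, txg_753, txg_764, txg_765, txg_776, txg_777, txg_800, txg_801, txg_806, txg_821, txg_822, txg_843, txg_844]
  rcases eq_or_lt_of_le h2 with h | h2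
  · subst h
    ((try push_cast); (repeat first | rw [if_pos (by linarith)] | rw [if_neg (by linarith)] | erw [if_pos (by linarith)] | erw [if_neg (by linarith)]); (try push_cast); (try ring1))
  · ((try push_cast); (repeat first | rw [if_pos (by linarith)] | rw [if_neg (by linarith)] | erw [if_pos (by linarith)] | erw [if_neg (by linarith)]); (try push_cast); (try ring1))
theorem txl2 {p c x : ℝ} (h1 : -483 / 1000 < p) (h2 : p ≤ -59571 / 125000) : txg.v p c x = dt104.val (fun p x => kcg.v p x) p c x := by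
  symm
  refine (DT.val_le (by simp only [Cn.rt_v, Cn.ng_v]; push_cast; linarith)).trans ?_
  refine (DT.val_le (by simp only [Cn.rt_v, Cn.ng_v]; push_cast; linarith)).trans ?_
  refine (DT.val_le (by simp only [Cn.rt_v, Cn.ng_v]; push_cast; linarith)).trans ?_
  refine (DT.val_gt (by simp only [Cn.rt_v, Cn.ng_v]; push_cast; linarith)).trans ?_
  refine (DT.val_le (by simp only [Cn.rt_v, Cn.ng_v]; push_cast; linarith)).trans ?_
  simp only [dt36, DT.val, cloR, sw36, sl36, sv36, txg, txg_4, txg_6, txg_26, txg_29, txg_32, txg_35, txg_38, txg_55, txg_58, txg_59, txg_77, txg_78, txg_86, txg_100, txg_101, txg_121, txg_122, txg_131, txg_134, txg_152, txg_153, txg_172, txg_173, txg_181, txg_196, txg_197, txg_216, txg_217, txg_227, txg_230, txg_233, txg_248, txg_249, txg_268, txg_269, txg_277, txg_292, txg_293, txg_312, txg_313, txg_322, txg_325, txg_337, txg_338, txg_354, txg_355, txg_363, txg_376, txg_377, txg_396, txg_397, txg_406, txg_408, txg_411, txg_413, txg_428, txg_429,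 txg_448, txg_449, txg_455, txg_470, txg_471, txg_490, txg_491, txg_498, txg_499, txg_512, txg_513, txg_531, txg_532, txg_538, txg_552, txg_553, txg_571, txg_572, txg_580, txg_581, txg_582, txg_598, txg_599, txg_617, txg_618, txg_624, txg_640, txg_641, txg_661, txg_662, txg_669, txg_670, txg_687, txg_688, txg_709, txg_710, txg_716, txg_733, txg_734, txg_753, txg_764, txg_765, txg_776, txg_777, txg_800, txg_801, txg_806, txg_821, txg_822, txg_843, txg_844]
  rcases eq_or_lt_of_le h2 with h | h2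
  · subst h
    ((try push_cast); (repeat first | rw [if_pos (by linarith)] | rw [if_neg (by linarith)] | erw [if_pos (by linarith)] | erw [if_neg (by linarith)]); (try push_cast); (try ring1))
  · ((try push_cast); (repeat first | rw [if_pos (by linarith)] | rw [if_neg (by linarith)] | erw [if_pos (by linarith)] | erw [if_neg (by linarith)]); (try push_cast); (try ring1))
theorem txl3 {p c x : ℝ} (h1 : -59571 / 125000 < p) (h2 : p ≤ -23 / 50) : txg.v p c x = dt104.val (fun p x => kcg.v p x) p c x := by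
  symm
  refine (DT.val_le (by simp only [Cn.rt_v, Cn.ng_v]; push_cast; linarith)).trans ?_
  refine (DT.val_le (by simp only [Cn.rt_v, Cn.ng_v]; push_cast; linarith)).trans ?_
  refine (DT.val_le (by simp only [Cn.rt_v, Cn.ng_v]; push_cast; linarith)).trans ?_
  refine (DT.val_gt (by simp only [Cn.rt_v, Cn.ng_v]; push_cast; linarith)).trans ?_
  refine (DT.val_gt (by simp only [Cn.rt_v, Cn.ng_v]; push_cast; linarith)).trans ?_
  simp only [dt37, DT.val, cloR, sw37, sl37, sv37, txg, txg_4, txg_6, txg_26, txg_29, txg_32, txg_35, txg_38, txg_55, txg_58, txg_59, txg_77, txg_78, txg_86, txg_100, txg_101, txg_121, txg_122, txg_131, txg_134, txg_152, txg_153, txg_172, txg_173, txg_181, txg_196, txg_197, txg_216, txg_217, txg_227, txg_230, txg_233, txg_248, txg_249, txg_268, txg_269, txg_277, txg_292, txg_293, txg_312, txg_313, txg_322, txg_325, txg_337, txg_338, txg_354, txg_355, txg_363, txg_376, txg_377, txg_396, txg_397, txg_406, txg_408, txg_411, txg_413, txg_428, txg_429,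 txg_448, txg_449, txg_455, txg_470, txg_471, txg_490, txg_491, txg_498, txg_499, txg_512, txg_513, txg_531, txg_532, txg_538, txg_552, txg_553, txg_571, txg_572, txg_580, txg_581, txg_582, txg_598, txg_599, txg_617, txg_618, txg_624, txg_640, txg_641, txg_661, txg_662, txg_669, txg_670, txg_687, txg_688, txg_709, txg_710, txg_716, txg_733, txg_734, txg_753, txg_764, txg_765, txg_776, txg_777, txg_800, txg_801, txg_806, txg_821, txg_822, txg_843, txg_844]
  rcases eq_or_lt_of_le h2 with h | h2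
  · subst h
    ((try push_cast); (repeat first | rw [if_pos (by linarith)] | rw [if_neg (by linarith)] | erw [if_pos (by linarith)] | erw [if_neg (by linarith)]); (try push_cast); (try ring1))
  · ((try push_cast); (repeat first | rw [if_pos (by linarith)] | rw [if_neg (by linarith)] | erw [if_pos (by linarith)] | erw [if_neg (by linarith)]); (try push_cast); (try ring1))
theorem txl4 {p c x : ℝ} (h1 : -23 / 50 < p) (h2 : p ≤ -227293 / 500000) : txg.v p c x = dt104.val (fun p x => kcg.v p x) p c x := by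
  symm
  refine (DT.val_le (by simp only [Cn.rt_v, Cn.ng_v]; push_cast; linarith)).trans ?_
  refine (DT.val_le (by simp only [Cn.rt_v, Cn.ng_v]; push_cast; linarith)).trans ?_
  refine (DT.val_gt (by simp only [Cn.rt_v, Cn.ng_v]; push_cast; linarith)).trans ?_
  refine (DT.val_le (by simp only [Cn.rt_v, Cn.ng_v]; push_cast; linarith)).trans ?_
  refine (DT.val_le (by simp only [Cn.rt_v, Cn.ng_v]; push_cast; linarith)).trans ?_
  simp only [dt38, DT.val, cloR, sw38, sl38, sv38, txg, txg_4, txg_6, txg_26, txg_29, txg_32, txg_35, txg_38, txg_55, txg_58, txg_59, txg_77, txg_78, txg_86, txg_100, txg_101, txg_121, txg_122, txg_131, txg_134, txg_152, txg_153, txg_172, txg_173, txg_181, txg_196, txg_197, txg_216, txg_217, txg_227, txg_230, txg_233, txg_248, txg_249, txg_268, txg_269, txg_277, txg_292, txg_293, txg_312, txg_313, txg_322, txg_325, txg_337, txg_338, txg_354, txg_355, txg_363, txg_376, txg_377, txg_396, txg_397, txg_406, txg_408, txg_411, txg_413, txg_428, txg_429,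 txg_448, txg_449, txg_455, txg_470, txg_471, txg_490, txg_491, txg_498, txg_499, txg_512, txg_513, txg_531, txg_532, txg_538, txg_552, txg_553, txg_571, txg_572, txg_580, txg_581, txg_582, txg_598, txg_599, txg_617, txg_618, txg_624, txg_640, txg_641, txg_661, txg_662, txg_669, txg_670, txg_687, txg_688, txg_709, txg_710, txg_716, txg_733, txg_734, txg_753, txg_764, txg_765, txg_776, txg_777, txg_800, txg_801, txg_806, txg_821, txg_822, txg_843, txg_844]
  rcases eq_or_lt_of_le h2 with h | h2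
  · subst h
    ((try push_cast); (repeat first | rw [if_pos (by linarith)] | rw [if_neg (by linarith)] | erw [if_pos (by linarith)] | erw [if_neg (by linarith)]); (try push_cast); (try ring1))
  · ((try push_cast); (repeat first | rw [if_pos (by linarith)] | rw [if_neg (by linarith)] | erw [if_pos (by linarith)] | erw [if_neg (by linarith)]); (try push_cast); (try ring1))
theorem txl5 {p c x : ℝ} (h1 : -227293 / 500000 < p) (h2 : p ≤ -11 / 25) : txg.v p c x = dt104.val (fun p x => kcg.v p x) p c x := by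
  symm
  refine (DT.val_le (by simp only [Cn.rt_v, Cn.ng_v]; push_cast; linarith)).trans ?_
  refine (DT.val_le (by simp only [Cn.rt_v, Cn.ng_v]; push_cast; linarith)).trans ?_
  refine (DT.val_gt (by simp only [Cn.rt_v, Cn.ng_v]; push_cast; linarith)).trans ?_
  refine (DT.val_le (by simp only [Cn.rt_v, Cn.ng_v]; push_cast; linarith)).trans ?_
  refine (DT.val_gt (by simp only [Cn.rt_v, Cn.ng_v]; push_cast; linarith)).trans ?_
  simp only [dt39, DT.val, cloR, sw39, sl39, sv39, txg, txg_4, txg_6, txg_26, txg_29, txg_32, txg_35, txg_38, txg_55, txg_58, txg_59, txg_77, txg_78, txg_86, txg_100, txg_101, txg_121, txg_122, txg_131, txg_134, txg_152, txg_153, txg_172, txg_173, txg_181, txg_196, txg_197, txg_216, txg_217, txg_227, txg_230, txg_233, txg_248, txg_249, txg_268, txg_269, txg_277, txg_292, txg_293, txg_312, txg_313, txg_322, txg_325, txg_337, txg_338, txg_354, txg_355, txg_363, txg_376, txg_377, txg_396, txg_397, txg_406, txg_408, txg_411, txg_413, txg_428, txg_429,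 txg_448, txg_449, txg_455, txg_470, txg_471, txg_490, txg_491, txg_498, txg_499, txg_512, txg_513, txg_531, txg_532, txg_538, txg_552, txg_553, txg_571, txg_572, txg_580, txg_581, txg_582, txg_598, txg_599, txg_617, txg_618, txg_624, txg_640, txg_641, txg_661, txg_662, txg_669, txg_670, txg_687, txg_688, txg_709, txg_710, txg_716, txg_733, txg_734, txg_753, txg_764, txg_765, txg_776, txg_777, txg_800, txg_801, txg_806, txg_821, txg_822, txg_843, txg_844]
  rcases eq_or_lt_of_le h2 with h | h2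
  · subst h
    ((try push_cast); (repeat first | rw [if_pos (by linarith)] | rw [if_neg (by linarith)] | erw [if_pos (by linarith)] | erw [if_neg (by linarith)]); (try push_cast); (try ring1))
  · ((try push_cast); (repeat first | rw [if_pos (by linarith)] | rw [if_neg (by linarith)] | erw [if_pos (by linarith)] | erw [if_neg (by linarith)]); (try push_cast); (try ring1))
theorem txl6 {p c x : ℝ} (h1 : -11 / 25 < p) (h2 : p ≤ -43 / 100) : txg.v p c x = dt104.val (fun p x => kcg.v p x) p c x := by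
  symm
  refine (DT.val_le (by simp only [Cn.rt_v, Cn.ng_v]; push_cast; linarith)).trans ?_
  refine (DT.val_le (by simp only [Cn.rt_v, Cn.ng_v]; push_cast; linarith)).trans ?_
  refine (DT.val_gt (by simp only [Cn.rt_v, Cn.ng_v]; push_cast; linarith)).trans ?_
  refine (DT.val_gt (by simp only [Cn.rt_v, Cn.ng_v]; push_cast; linarith)).trans ?_
  refine (DT.val_le (by simp only [Cn.rt_v, Cn.ng_v]; push_cast; linarith)).trans ?_
  simp only [dt40, DT.val, cloR, sw40, sl40, sv40, txg, txg_4, txg_6, txg_26, txg_29, txg_32, txg_35, txg_38, txg_55, txg_58, txg_59, txg_77, txg_78, txg_86, txg_100, txg_101, txg_121, txg_122, txg_131, txg_134, txg_152, txg_153, txg_172, txg_173, txg_181, txg_196, txg_197, txg_216, txg_217, txg_227, txg_230, txg_233, txg_248, txg_249, txg_268, txg_269, txg_277, txg_292, txg_293, txg_312, txg_313, txg_322, txg_325, txg_337, txg_338, txg_354, txg_355, txg_363, txg_376, txg_377, txg_396, txg_397, txg_406, txg_408, txg_411, txg_413, txg_428, txg_429,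 txg_448, txg_449, txg_455, txg_470, txg_471, txg_490, txg_491, txg_498, txg_499, txg_512, txg_513, txg_531, txg_532, txg_538, txg_552, txg_553, txg_571, txg_572, txg_580, txg_581, txg_582, txg_598, txg_599, txg_617, txg_618, txg_624, txg_640, txg_641, txg_661, txg_662, txg_669, txg_670, txg_687, txg_688, txg_709, txg_710, txg_716, txg_733, txg_734, txg_753, txg_764, txg_765, txg_776, txg_777, txg_800, txg_801, txg_806, txg_821, txg_822, txg_843, txg_844]
  rcases eq_or_lt_of_le h2 with h | h2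
  · subst h
    ((try push_cast); (repeat first | rw [if_pos (by linarith)] | rw [if_neg (by linarith)] | erw [if_pos (by linarith)] | erw [if_neg (by linarith)]); (try push_cast); (try ring1))
  · ((try push_cast); (repeat first | rw [if_pos (by linarith)] | rw [if_neg (by linarith)] | erw [if_pos (by linarith)] | erw [if_neg (by linarith)]); (try push_cast); (try ring1))
theorem txl7 {p c x : ℝ} (h1 : -43 / 100 < p) (h2 : p ≤ -21 / 50) : txg.v p c x = dt104.val (fun p x => kcg.v p x) p c x := by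
  symm
  refine (DT.val_le (by simp only [Cn.rt_v, Cn.ng_v]; push_cast; linarith)).trans ?_
  refine (DT.val_le (by simp only [Cn.rt_v, Cn.ng_v]; push_cast; linarith)).trans ?_
  refine (DT.val_gt (by simp only [Cn.rt_v, Cn.ng_v]; push_cast; linarith)).trans ?_
  refine (DT.val_gt (by simp only [Cn.rt_v, Cn.ng_v]; push_cast; linarith)).trans ?_
  refine (DT.val_gt (by simp only [Cn.rt_v, Cn.ng_v]; push_cast; linarith)).trans ?_
  refine (DT.val_le (by simp only [Cn.rt_v, Cn.ng_v]; push_cast; linarith)).trans ?_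
  simp only [dt41, DT.val, cloR, sw41, sl41, sv41, txg, txg_4, txg_6, txg_26, txg_29, txg_32, txg_35, txg_38, txg_55, txg_58, txg_59, txg_77, txg_78, txg_86, txg_100, txg_101, txg_121, txg_122, txg_131, txg_134, txg_152, txg_153, txg_172, txg_173, txg_181, txg_196, txg_197, txg_216, txg_217, txg_227, txg_230, txg_233, txg_248, txg_249, txg_268, txg_269, txg_277, txg_292, txg_293, txg_312, txg_313, txg_322, txg_325, txg_337, txg_338, txg_354, txg_355, txg_363, txg_376, txg_377, txg_396, txg_397, txg_406, txg_408, txg_411, txg_413, txg_428, txg_429, txg_448, txg_449, txg_455, txg_470, txg_471, txg_490, txg_491, txg_498, txg_499, txg_512, txg_513, txg_531, txg_532, txg_538, txg_552, txg_553, txg_571, txg_572, txg_580, txg_581, txg_582, txg_598, txg_599, txg_617, txg_618, txg_624, txg_640, txg_641, txg_661, txg_662, txg_669, txg_670, txg_687, txg_688, txg_709, txg_710, txg_716, txg_733, txg_734, txg_753, txg_764, txg_765, txg_776, txg_777, txg_800, txg_801, txg_806, txg_821,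 txg_822, txg_843, txg_844]
  rcases eq_or_lt_of_le h2 with h | h2
  · subst h
    ((try push_cast); (repeat first | rw [if_pos (by linarith)] | rw [if_neg (by linarith)] | erw [if_pos (by linarith)] | erw [if_neg (by linarith)]); (try push_cast); (try ring1))
  · ((try push_cast); (repeat first | rw [if_pos (by linarith)] | rw [if_neg (by linarith)] | erw [if_pos (by linarith)] | erw [if_neg (by linarith)]); (try push_cast); (try ring1))
theorem txl8 {p c x : ℝ} (h1 : -21 / 50 < p) (h2 : p ≤ -41 / 100) : txg.v p c x = dt104.val (fun p x => kcg.v p x) p c x := by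
  symm
  refine (DT.val_le (by simp only [Cn.rt_v, Cn.ng_v]; push_cast; linarith)).trans ?_
  refine (DT.val_le (by simp only [Cn.rt_v, Cn.ng_v]; push_cast; linarith)).trans ?_
  refine (DT.val_gt (by simp only [Cn.rt_v, Cn.ng_v]; push_cast; linarith)).trans ?_
  refine (DT.val_gt (by simp only [Cn.rt_v, Cn.ng_v]; push_cast; linarith)).trans ?_
  refine (DT.val_gt (by simp only [Cn.rt_v, Cn.ng_v]; push_cast; linarith)).trans ?_
  refine (DT.val_gt (by simp only [Cn.rt_v, Cn.ng_v]; push_cast; linarith)).trans ?_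
  simp only [dt42, DT.val, cloR, sw42, sl42, sv42, txg, txg_4, txg_6, txg_26, txg_29, txg_32, txg_35, txg_38, txg_55, txg_58, txg_59, txg_77, txg_78, txg_86, txg_100, txg_101, txg_121, txg_122, txg_131, txg_134, txg_152, txg_153, txg_172, txg_173, txg_181, txg_196, txg_197, txg_216, txg_217, txg_227, txg_230, txg_233, txg_248, txg_249, txg_268, txg_269, txg_277, txg_292, txg_293, txg_312, txg_313, txg_322, txg_325, txg_337, txg_338, txg_354, txg_355, txg_363, txg_376, txg_377, txg_396, txg_397, txg_406, txg_408, txg_411, txg_413, txg_428, txg_429, txg_448, txg_449, txg_455, txg_470, txg_471, txg_490, txg_491, txg_498, txg_499, txg_512, txg_513, txg_531, txg_532, txg_538, txg_552, txg_553, txg_571, txg_572, txg_580, txg_581, txg_582, txg_598, txg_599, txg_617, txg_618, txg_624, txg_640, txg_641, txg_661, txg_662, txg_669, txg_670, txg_687, txg_688, txg_709, txg_710, txg_716, txg_733, txg_734, txg_753, txg_764, txg_765, txg_776, txg_777, txg_800, txg_801, txg_806, txg_821,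 txg_822, txg_843, txg_844]
  rcases eq_or_lt_of_le h2 with h | h2
  · subst h
    ((try push_cast); (repeat first | rw [if_pos (by linarith)] | rw [if_neg (by linarith)] | erw [if_pos (by linarith)] | erw [if_neg (by linarith)]); (try push_cast); (try ring1))
  · ((try push_cast); (repeat first | rw [if_pos (by linarith)] | rw [if_neg (by linarith)] | erw [if_pos (by linarith)] | erw [if_neg (by linarith)]); (try push_cast); (try ring1))
theorem txl9 {p c x : ℝ} (h1 : -41 / 100 < p) (h2 : p ≤ -2 / 5) : txg.v p c x = dt104.val (fun p x => kcg.v p x) p c x := by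
  symm
  refine (DT.val_le (by simp only [Cn.rt_v, Cn.ng_v]; push_cast; linarith)).trans ?_
  refine (DT.val_gt (by simp only [Cn.rt_v, Cn.ng_v]; push_cast; linarith)).trans ?_
  refine (DT.val_le (by simp only [Cn.rt_v, Cn.ng_v]; push_cast; linarith)).trans ?_
  refine (DT.val_le (by simp only [Cn.rt_v, Cn.ng_v]; push_cast; linarith)).trans ?_
  refine (DT.val_le (by simp only [Cn.rt_v, Cn.ng_v]; push_cast; linarith)).trans ?_
  simp only [dt43, DT.val, cloR, sw43, sl43, sv43, txg, txg_4, txg_6, txg_26, txg_29, txg_32, txg_35, txg_38, txg_55, txg_58, txg_59, txg_77, txg_78, txg_86, txg_100, txg_101, txg_121, txg_122, txg_131, txg_134, txg_152, txg_153, txg_172, txg_173, txg_181, txg_196, txg_197, txg_216, txg_217, txg_227, txg_230, txg_233, txg_248, txg_249, txg_268, txg_269, txg_277, txg_292, txg_293, txg_312, txg_313, txg_322, txg_325, txg_337, txg_338, txg_354, txg_355, txg_363, txg_376, txg_377, txg_396, txg_397, txg_406, txg_408, txg_411, txg_413, txg_428, txg_429,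 txg_448, txg_449, txg_455, txg_470, txg_471, txg_490, txg_491, txg_498, txg_499, txg_512, txg_513, txg_531, txg_532, txg_538, txg_552, txg_553, txg_571, txg_572, txg_580, txg_581, txg_582, txg_598, txg_599, txg_617, txg_618, txg_624, txg_640, txg_641, txg_661, txg_662, txg_669, txg_670, txg_687, txg_688, txg_709, txg_710, txg_716, txg_733, txg_734, txg_753, txg_764, txg_765, txg_776, txg_777, txg_800, txg_801, txg_806, txg_821, txg_822, txg_843, txg_844]
  rcases eq_or_lt_of_le h2 with h | h2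
  · subst h
    ((try push_cast); (repeat first | rw [if_pos (by linarith)] | rw [if_neg (by linarith)] | erw [if_pos (by linarith)] | erw [if_neg (by linarith)]); (try push_cast); (try ring1))
  · ((try push_cast); (repeat first | rw [if_pos (by linarith)] | rw [if_neg (by linarith)] | erw [if_pos (by linarith)] | erw [if_neg (by linarith)]); (try push_cast); (try ring1))
theorem txl10 {p c x : ℝ} (h1 : -2 / 5 < p) (h2 : p ≤ -39 / 100) : txg.v p c x = dt104.val (fun p x => kcg.v p x) p c x := by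
  symm
  refine (DT.val_le (by simp only [Cn.rt_v, Cn.ng_v]; push_cast; linarith)).trans ?_
  refine (DT.val_gt (by simp only [Cn.rt_v, Cn.ng_v]; push_cast; linarith)).trans ?_
  refine (DT.val_le (by simp only [Cn.rt_v, Cn.ng_v]; push_cast; linarith)).trans ?_
  refine (DT.val_le (by simp only [Cn.rt_v, Cn.ng_v]; push_cast; linarith)).trans ?_
  refine (DT.val_gt (by simp only [Cn.rt_v, Cn.ng_v]; push_cast; linarith)).trans ?_
  simp only [dt44, DT.val, cloR, sw44, sl44, sv44, txg, txg_4, txg_6, txg_26, txg_29, txg_32, txg_35, txg_38, txg_55, txg_58, txg_59, txg_77, txg_78, txg_86, txg_100, txg_101, txg_121, txg_122, txg_131, txg_134, txg_152, txg_153, txg_172, txg_173, txg_181, txg_196, txg_197, txg_216, txg_217, txg_227, txg_230, txg_233, txg_248, txg_249, txg_268, txg_269, txg_277, txg_292, txg_293, txg_312, txg_313, txg_322, txg_325, txg_337, txg_338, txg_354, txg_355, txg_363, txg_376, txg_377, txg_396, txg_397, txg_406, txg_408, txg_411, txg_413, txg_428, txg_429,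 txg_448, txg_449, txg_455, txg_470, txg_471, txg_490, txg_491, txg_498, txg_499, txg_512, txg_513, txg_531, txg_532, txg_538, txg_552, txg_553, txg_571, txg_572, txg_580, txg_581, txg_582, txg_598, txg_599, txg_617, txg_618, txg_624, txg_640, txg_641, txg_661, txg_662, txg_669, txg_670, txg_687, txg_688, txg_709, txg_710, txg_716, txg_733, txg_734, txg_753, txg_764, txg_765, txg_776, txg_777, txg_800, txg_801, txg_806, txg_821, txg_822, txg_843, txg_844]
  rcases eq_or_lt_of_le h2 with h | h2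
  · subst h
    ((try push_cast); (repeat first | rw [if_pos (by linarith)] | rw [if_neg (by linarith)] | erw [if_pos (by linarith)] | erw [if_neg (by linarith)]); (try push_cast); (try ring1))
  · ((try push_cast); (repeat first | rw [if_pos (by linarith)] | rw [if_neg (by linarith)] | erw [if_pos (by linarith)] | erw [if_neg (by linarith)]); (try push_cast); (try ring1))
theorem txl11 {p c x : ℝ} (h1 : -39 / 100 < p) (h2 : p ≤ -3 / 8) : txg.v p c x = dt104.val (fun p x => kcg.v p x) p c x := by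
  symm
  refine (DT.val_le (by simp only [Cn.rt_v, Cn.ng_v]; push_cast; linarith)).trans ?_
  refine (DT.val_gt (by simp only [Cn.rt_v, Cn.ng_v]; push_cast; linarith)).trans ?_
  refine (DT.val_le (by simp only [Cn.rt_v, Cn.ng_v]; push_cast; linarith)).trans ?_
  refine (DT.val_gt (by simp only [Cn.rt_v, Cn.ng_v]; push_cast; linarith)).trans ?_
  refine (DT.val_le (by simp only [Cn.rt_v, Cn.ng_v]; push_cast; linarith)).trans ?_
  simp only [dt45, DT.val, cloR, sw45, sl45, sv45, txg, txg_4, txg_6, txg_26, txg_29, txg_32, txg_35, txg_38, txg_55, txg_58, txg_59, txg_77, txg_78, txg_86, txg_100, txg_101, txg_121, txg_122, txg_131, txg_134, txg_152, txg_153, txg_172, txg_173, txg_181, txg_196, txg_197, txg_216, txg_217, txg_227, txg_230, txg_233, txg_248, txg_249, txg_268, txg_269, txg_277, txg_292, txg_293, txg_312, txg_313, txg_322, txg_325, txg_337, txg_338, txg_354, txg_355, txg_363, txg_376, txg_377, txg_396, txg_397, txg_406, txg_408, txg_411, txg_413, txg_428, txg_429,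 txg_448, txg_449, txg_455, txg_470, txg_471, txg_490, txg_491, txg_498, txg_499, txg_512, txg_513, txg_531, txg_532, txg_538, txg_552, txg_553, txg_571, txg_572, txg_580, txg_581, txg_582, txg_598, txg_599, txg_617, txg_618, txg_624, txg_640, txg_641, txg_661, txg_662, txg_669, txg_670, txg_687, txg_688, txg_709, txg_710, txg_716, txg_733, txg_734, txg_753, txg_764, txg_765, txg_776, txg_777, txg_800, txg_801, txg_806, txg_821, txg_822, txg_843, txg_844]
  rcases eq_or_lt_of_le h2 with h | h2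
  · subst h
    ((try push_cast); (repeat first | rw [if_pos (by linarith)] | rw [if_neg (by linarith)] | erw [if_pos (by linarith)] | erw [if_neg (by linarith)]); (try push_cast); (try ring1))
  · ((try push_cast); (repeat first | rw [if_pos (by linarith)] | rw [if_neg (by linarith)] | erw [if_pos (by linarith)] | erw [if_neg (by linarith)]); (try push_cast); (try ring1))
theorem txl12 {p c x : ℝ} (h1 : -3 / 8 < p) (h2 : p ≤ -7 / 20) : txg.v p c x = dt104.val (fun p x => kcg.v p x) p c x := by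
  symm
  refine (DT.val_le (by simp only [Cn.rt_v, Cn.ng_v]; push_cast; linarith)).trans ?_
  refine (DT.val_gt (by simp only [Cn.rt_v, Cn.ng_v]; push_cast; linarith)).trans ?_
  refine (DT.val_le (by simp only [Cn.rt_v, Cn.ng_v]; push_cast; linarith)).trans ?_
  refine (DT.val_gt (by simp only [Cn.rt_v, Cn.ng_v]; push_cast; linarith)).trans ?_
  refine (DT.val_gt (by simp only [Cn.rt_v, Cn.ng_v]; push_cast; linarith)).trans ?_
  simp only [dt46, DT.val, cloR, sw46, sl46, sv46, txg, txg_4, txg_6, txg_26, txg_29, txg_32, txg_35, txg_38, txg_55, txg_58, txg_59, txg_77, txg_78, txg_86, txg_100, txg_101, txg_121, txg_122, txg_131, txg_134, txg_152, txg_153, txg_172, txg_173, txg_181, txg_196, txg_197, txg_216, txg_217, txg_227, txg_230, txg_233, txg_248, txg_249, txg_268, txg_269, txg_277, txg_292, txg_293, txg_312, txg_313, txg_322, txg_325, txg_337, txg_338, txg_354, txg_355, txg_363, txg_376, txg_377, txg_396, txg_397, txg_406, txg_408, txg_411, txg_413, txg_428, txg_429,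 txg_448, txg_449, txg_455, txg_470, txg_471, txg_490, txg_491, txg_498, txg_499, txg_512, txg_513, txg_531, txg_532, txg_538, txg_552, txg_553, txg_571, txg_572, txg_580, txg_581, txg_582, txg_598, txg_599, txg_617, txg_618, txg_624, txg_640, txg_641, txg_661, txg_662, txg_669, txg_670, txg_687, txg_688, txg_709, txg_710, txg_716, txg_733, txg_734, txg_753, txg_764, txg_765, txg_776, txg_777, txg_800, txg_801, txg_806, txg_821, txg_822, txg_843, txg_844]
  rcases eq_or_lt_of_le h2 with h | h2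
  · subst h
    ((try push_cast); (repeat first | rw [if_pos (by linarith)] | rw [if_neg (by linarith)] | erw [if_pos (by linarith)] | erw [if_neg (by linarith)]); (try push_cast); (try ring1))
  · ((try push_cast); (repeat first | rw [if_pos (by linarith)] | rw [if_neg (by linarith)] | erw [if_pos (by linarith)] | erw [if_neg (by linarith)]); (try push_cast); (try ring1))
theorem txl13 {p c x : ℝ} (h1 : -7 / 20 < p) (h2 : p ≤ -3 / 10) : txg.v p c x = dt104.val (fun p x => kcg.v p x) p c x := by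
  symm
  refine (DT.val_le (by simp only [Cn.rt_v, Cn.ng_v]; push_cast; linarith)).trans ?_
  refine (DT.val_gt (by simp only [Cn.rt_v, Cn.ng_v]; push_cast; linarith)).trans ?_
  refine (DT.val_gt (by simp only [Cn.rt_v, Cn.ng_v]; push_cast; linarith)).trans ?_
  refine (DT.val_le (by simp only [Cn.rt_v, Cn.ng_v]; push_cast; linarith)).trans ?_
  refine (DT.val_le (by simp only [Cn.rt_v, Cn.ng_v]; push_cast; linarith)).trans ?_
  simp only [dt47, DT.val, cloR, sw47, sl47, sv47, txg, txg_4, txg_6, txg_26, txg_29, txg_32, txg_35, txg_38, txg_55, txg_58, txg_59, txg_77, txg_78, txg_86, txg_100, txg_101, txg_121, txg_122, txg_131, txg_134, txg_152, txg_153, txg_172, txg_173, txg_181, txg_196, txg_197, txg_216, txg_217, txg_227, txg_230, txg_233, txg_248, txg_249, txg_268, txg_269, txg_277, txg_292, txg_293, txg_312, txg_313, txg_322, txg_325, txg_337, txg_338, txg_354, txg_355, txg_363, txg_376, txg_377, txg_396, txg_397, txg_406, txg_408, txg_411, txg_413, txg_428, txg_429,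 txg_448, txg_449, txg_455, txg_470, txg_471, txg_490, txg_491, txg_498, txg_499, txg_512, txg_513, txg_531, txg_532, txg_538, txg_552, txg_553, txg_571, txg_572, txg_580, txg_581, txg_582, txg_598, txg_599, txg_617, txg_618, txg_624, txg_640, txg_641, txg_661, txg_662, txg_669, txg_670, txg_687, txg_688, txg_709, txg_710, txg_716, txg_733, txg_734, txg_753, txg_764, txg_765, txg_776, txg_777, txg_800, txg_801, txg_806, txg_821, txg_822, txg_843, txg_844]
  rcases eq_or_lt_of_le h2 with h | h2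
  · subst h
    ((try push_cast); (repeat first | rw [if_pos (by linarith)] | rw [if_neg (by linarith)] | erw [if_pos (by linarith)] | erw [if_neg (by linarith)]); (try push_cast); (try ring1))
  · ((try push_cast); (repeat first | rw [if_pos (by linarith)] | rw [if_neg (by linarith)] | erw [if_pos (by linarith)] | erw [if_neg (by linarith)]); (try push_cast); (try ring1))
theorem txl14 {p c x : ℝ} (h1 : -3 / 10 < p) (h2 : p ≤ -1 / 4) : txg.v p c x = dt104.val (fun p x => kcg.v p x) p c x := by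
  symm
  refine (DT.val_le (by simp only [Cn.rt_v, Cn.ng_v]; push_cast; linarith)).trans ?_
  refine (DT.val_gt (by simp only [Cn.rt_v, Cn.ng_v]; push_cast; linarith)).trans ?_
  refine (DT.val_gt (by simp only [Cn.rt_v, Cn.ng_v]; push_cast; linarith)).trans ?_
  refine (DT.val_le (by simp only [Cn.rt_v, Cn.ng_v]; push_cast; linarith)).trans ?_
  refine (DT.val_gt (by simp only [Cn.rt_v, Cn.ng_v]; push_cast; linarith)).trans ?_
  simp only [dt48, DT.val, cloR, sw48, sl48, sv48, txg, txg_4, txg_6, txg_26, txg_29, txg_32, txg_35, txg_38, txg_55, txg_58, txg_59, txg_77, txg_78, txg_86, txg_100, txg_101, txg_121, txg_122, txg_131, txg_134, txg_152, txg_153, txg_172, txg_173, txg_181, txg_196, txg_197, txg_216, txg_217, txg_227, txg_230, txg_233, txg_248, txg_249, txg_268, txg_269, txg_277, txg_292, txg_293, txg_312, txg_313, txg_322, txg_325, txg_337, txg_338, txg_354, txg_355, txg_363, txg_376, txg_377, txg_396, txg_397, txg_406, txg_408, txg_411, txg_413, txg_428, txg_429,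 txg_448, txg_449, txg_455, txg_470, txg_471, txg_490, txg_491, txg_498, txg_499, txg_512, txg_513, txg_531, txg_532, txg_538, txg_552, txg_553, txg_571, txg_572, txg_580, txg_581, txg_582, txg_598, txg_599, txg_617, txg_618, txg_624, txg_640, txg_641, txg_661, txg_662, txg_669, txg_670, txg_687, txg_688, txg_709, txg_710, txg_716, txg_733, txg_734, txg_753, txg_764, txg_765, txg_776, txg_777, txg_800, txg_801, txg_806, txg_821, txg_822, txg_843, txg_844]
  rcases eq_or_lt_of_le h2 with h | h2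
  · subst h
    ((try push_cast); (repeat first | rw [if_pos (by linarith)] | rw [if_neg (by linarith)] | erw [if_pos (by linarith)] | erw [if_neg (by linarith)]); (try push_cast); (try ring1))
  · ((try push_cast); (repeat first | rw [if_pos (by linarith)] | rw [if_neg (by linarith)] | erw [if_pos (by linarith)] | erw [if_neg (by linarith)]); (try push_cast); (try ring1))
theorem txl15 {p c x : ℝ} (h1 : -1 / 4 < p) (h2 : p ≤ -1 / 5) : txg.v p c x = dt104.val (fun p x => kcg.v p x) p c x := by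
  symm
  refine (DT.val_le (by simp only [Cn.rt_v, Cn.ng_v]; push_cast; linarith)).trans ?_
  refine (DT.val_gt (by simp only [Cn.rt_v, Cn.ng_v]; push_cast; linarith)).trans ?_
  refine (DT.val_gt (by simp only [Cn.rt_v, Cn.ng_v]; push_cast; linarith)).trans ?_
  refine (DT.val_gt (by simp only [Cn.rt_v, Cn.ng_v]; push_cast; linarith)).trans ?_
  refine (DT.val_le (by simp only [Cn.rt_v, Cn.ng_v]; push_cast; linarith)).trans ?_
  simp only [dt49, DT.val, cloR, sw49, sl49, sv49, txg, txg_4, txg_6, txg_26, txg_29, txg_32, txg_35, txg_38, txg_55, txg_58, txg_59, txg_77, txg_78, txg_86, txg_100, txg_101, txg_121, txg_122, txg_131, txg_134, txg_152, txg_153, txg_172, txg_173, txg_181, txg_196, txg_197, txg_216, txg_217, txg_227, txg_230, txg_233, txg_248, txg_249, txg_268, txg_269, txg_277, txg_292, txg_293, txg_312, txg_313, txg_322, txg_325, txg_337, txg_338, txg_354, txg_355, txg_363, txg_376, txg_377, txg_396, txg_397, txg_406, txg_408, txg_411, txg_413, txg_428, txg_429,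 txg_448, txg_449, txg_455, txg_470, txg_471, txg_490, txg_491, txg_498, txg_499, txg_512, txg_513, txg_531, txg_532, txg_538, txg_552, txg_553, txg_571, txg_572, txg_580, txg_581, txg_582, txg_598, txg_599, txg_617, txg_618, txg_624, txg_640, txg_641, txg_661, txg_662, txg_669, txg_670, txg_687, txg_688, txg_709, txg_710, txg_716, txg_733, txg_734, txg_753, txg_764, txg_765, txg_776, txg_777, txg_800, txg_801, txg_806, txg_821, txg_822, txg_843, txg_844]
  rcases eq_or_lt_of_le h2 with h | h2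
  · subst h
    ((try push_cast); (repeat first | rw [if_pos (by linarith)] | rw [if_neg (by linarith)] | erw [if_pos (by linarith)] | erw [if_neg (by linarith)]); (try push_cast); (try ring1))
  · ((try push_cast); (repeat first | rw [if_pos (by linarith)] | rw [if_neg (by linarith)] | erw [if_pos (by linarith)] | erw [if_neg (by linarith)]); (try push_cast); (try ring1))
theorem txl16 {p c x : ℝ} (h1 : -1 / 5 < p) (h2 : p ≤ -3 / 20) : txg.v p c x = dt104.val (fun p x => kcg.v p x) p c x := by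
  symm
  refine (DT.val_le (by simp only [Cn.rt_v, Cn.ng_v]; push_cast; linarith)).trans ?_
  refine (DT.val_gt (by simp only [Cn.rt_v, Cn.ng_v]; push_cast; linarith)).trans ?_
  refine (DT.val_gt (by simp only [Cn.rt_v, Cn.ng_v]; push_cast; linarith)).trans ?_
  refine (DT.val_gt (by simp only [Cn.rt_v, Cn.ng_v]; push_cast; linarith)).trans ?_
  refine (DT.val_gt (by simp only [Cn.rt_v, Cn.ng_v]; push_cast; linarith)).trans ?_
  refine (DT.val_le (by simp only [Cn.rt_v, Cn.ng_v]; push_cast; linarith)).trans ?_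
  simp only [dt50, DT.val, cloR, sw50, sl50, sv50, txg, txg_4, txg_6, txg_26, txg_29, txg_32, txg_35, txg_38, txg_55, txg_58, txg_59, txg_77, txg_78, txg_86, txg_100, txg_101, txg_121, txg_122, txg_131, txg_134, txg_152, txg_153, txg_172, txg_173, txg_181, txg_196, txg_197, txg_216, txg_217, txg_227, txg_230, txg_233, txg_248, txg_249, txg_268, txg_269, txg_277, txg_292, txg_293, txg_312, txg_313, txg_322, txg_325, txg_337, txg_338, txg_354, txg_355, txg_363, txg_376, txg_377, txg_396, txg_397, txg_406, txg_408, txg_411, txg_413, txg_428, txg_429, txg_448, txg_449, txg_455, txg_470, txg_471, txg_490, txg_491, txg_498, txg_499, txg_512, txg_513, txg_531, txg_532, txg_538, txg_552, txg_553, txg_571, txg_572, txg_580, txg_581, txg_582, txg_598, txg_599, txg_617, txg_618, txg_624, txg_640, txg_641, txg_661, txg_662, txg_669, txg_670, txg_687, txg_688, txg_709, txg_710, txg_716, txg_733, txg_734, txg_753, txg_764, txg_765, txg_776, txg_777, txg_800, txg_801, txg_806, txg_821,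 txg_822, txg_843, txg_844]
  rcases eq_or_lt_of_le h2 with h | h2
  · subst h
    ((try push_cast); (repeat first | rw [if_pos (by linarith)] | rw [if_neg (by linarith)] | erw [if_pos (by linarith)] | erw [if_neg (by linarith)]); (try push_cast); (try ring1))
  · ((try push_cast); (repeat first | rw [if_pos (by linarith)] | rw [if_neg (by linarith)] | erw [if_pos (by linarith)] | erw [if_neg (by linarith)]); (try push_cast); (try ring1))
theorem txl17 {p c x : ℝ} (h1 : -3 / 20 < p) (h2 : p ≤ -1 / 10) : txg.v p c x = dt104.val (fun p x => kcg.v p x) p c x := by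
  symm
  refine (DT.val_le (by simp only [Cn.rt_v, Cn.ng_v]; push_cast; linarith)).trans ?_
  refine (DT.val_gt (by simp only [Cn.rt_v, Cn.ng_v]; push_cast; linarith)).trans ?_
  refine (DT.val_gt (by simp only [Cn.rt_v, Cn.ng_v]; push_cast; linarith)).trans ?_
  refine (DT.val_gt (by simp only [Cn.rt_v, Cn.ng_v]; push_cast; linarith)).trans ?_
  refine (DT.val_gt (by simp only [Cn.rt_v, Cn.ng_v]; push_cast; linarith)).trans ?_
  refine (DT.val_gt (by simp only [Cn.rt_v, Cn.ng_v]; push_cast; linarith)).trans ?_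
  simp only [dt51, DT.val, cloR, sw51, sl51, sv51, txg, txg_4, txg_6, txg_26, txg_29, txg_32, txg_35, txg_38, txg_55, txg_58, txg_59, txg_77, txg_78, txg_86, txg_100, txg_101, txg_121, txg_122, txg_131, txg_134, txg_152, txg_153, txg_172, txg_173, txg_181, txg_196, txg_197, txg_216, txg_217, txg_227, txg_230, txg_233, txg_248, txg_249, txg_268, txg_269, txg_277, txg_292, txg_293, txg_312, txg_313, txg_322, txg_325, txg_337, txg_338, txg_354, txg_355, txg_363, txg_376, txg_377, txg_396, txg_397, txg_406, txg_408, txg_411, txg_413, txg_428, txg_429, txg_448, txg_449, txg_455, txg_470, txg_471, txg_490, txg_491, txg_498, txg_499, txg_512, txg_513, txg_531, txg_532, txg_538, txg_552, txg_553, txg_571, txg_572, txg_580, txg_581, txg_582, txg_598, txg_599, txg_617, txg_618, txg_624, txg_640, txg_641, txg_661, txg_662, txg_669, txg_670, txg_687, txg_688, txg_709, txg_710, txg_716, txg_733, txg_734, txg_753, txg_764, txg_765, txg_776, txg_777, txg_800, txg_801, txg_806, txg_821,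 txg_822, txg_843, txg_844]
  rcases eq_or_lt_of_le h2 with h | h2
  · subst h
    ((try push_cast); (repeat first | rw [if_pos (by linarith)] | rw [if_neg (by linarith)] | erw [if_pos (by linarith)] | erw [if_neg (by linarith)]); (try push_cast); (try ring1))
  · ((try push_cast); (repeat first | rw [if_pos (by linarith)] | rw [if_neg (by linarith)] | erw [if_pos (by linarith)] | erw [if_neg (by linarith)]); (try push_cast); (try ring1))
theorem txl18 {p c x : ℝ} (h1 : -1 / 10 < p) (h2 : p ≤ 1 / 10) : txg.v p c x = dt104.val (fun p x => kcg.v p x) p c x := by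
  symm
  refine (DT.val_gt (by simp only [Cn.rt_v, Cn.ng_v]; push_cast; linarith)).trans ?_
  refine (DT.val_le (by simp only [Cn.rt_v, Cn.ng_v]; push_cast; linarith)).trans ?_
  refine (DT.val_le (by simp only [Cn.rt_v, Cn.ng_v]; push_cast; linarith)).trans ?_
  refine (DT.val_le (by simp only [Cn.rt_v, Cn.ng_v]; push_cast; linarith)).trans ?_
  refine (DT.val_le (by simp only [Cn.rt_v, Cn.ng_v]; push_cast; linarith)).trans ?_
  simp only [dt52, DT.val, cloR, sw52, sl52, sv52, txg, txg_4, txg_6, txg_26, txg_29, txg_32, txg_35, txg_38, txg_55, txg_58, txg_59, txg_77, txg_78, txg_86, txg_100, txg_101, txg_121, txg_122, txg_131, txg_134, txg_152, txg_153, txg_172, txg_173, txg_181, txg_196, txg_197, txg_216, txg_217, txg_227, txg_230, txg_233, txg_248, txg_249, txg_268, txg_269, txg_277, txg_292, txg_293, txg_312, txg_313, txg_322, txg_325, txg_337, txg_338, txg_354, txg_355, txg_363, txg_376, txg_377, txg_396, txg_397, txg_406, txg_408, txg_411, txg_413, txg_428, txg_429,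 txg_448, txg_449, txg_455, txg_470, txg_471, txg_490, txg_491, txg_498, txg_499, txg_512, txg_513, txg_531, txg_532, txg_538, txg_552, txg_553, txg_571, txg_572, txg_580, txg_581, txg_582, txg_598, txg_599, txg_617, txg_618, txg_624, txg_640, txg_641, txg_661, txg_662, txg_669, txg_670, txg_687, txg_688, txg_709, txg_710, txg_716, txg_733, txg_734, txg_753, txg_764, txg_765, txg_776, txg_777, txg_800, txg_801, txg_806, txg_821, txg_822, txg_843, txg_844]
  rcases eq_or_lt_of_le h2 with h | h2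
  · subst h
    ((try push_cast); (repeat first | rw [if_pos (by linarith)] | rw [if_neg (by linarith)] | erw [if_pos (by linarith)] | erw [if_neg (by linarith)]); (try push_cast); (try ring1))
  · ((try push_cast); (repeat first | rw [if_pos (by linarith)] | rw [if_neg (by linarith)] | erw [if_pos (by linarith)] | erw [if_neg (by linarith)]); (try push_cast); (try ring1))
theorem txl19 {p c x : ℝ} (h1 : 1 / 10 < p) (h2 : p ≤ 3 / 20) : txg.v p c x = dt104.val (fun p x => kcg.v p x) p c x := by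
  symm
  refine (DT.val_gt (by simp only [Cn.rt_v, Cn.ng_v]; push_cast; linarith)).trans ?_
  refine (DT.val_le (by simp only [Cn.rt_v, Cn.ng_v]; push_cast; linarith)).trans ?_
  refine (DT.val_le (by simp only [Cn.rt_v, Cn.ng_v]; push_cast; linarith)).trans ?_
  refine (DT.val_le (by simp only [Cn.rt_v, Cn.ng_v]; push_cast; linarith)).trans ?_
  refine (DT.val_gt (by simp only [Cn.rt_v, Cn.ng_v]; push_cast; linarith)).trans ?_
  simp only [dt53, DT.val, cloR, sw53, sl53, sv53, txg, txg_4, txg_6, txg_26, txg_29, txg_32, txg_35, txg_38, txg_55, txg_58, txg_59, txg_77, txg_78, txg_86, txg_100, txg_101, txg_121, txg_122, txg_131, txg_134, txg_152, txg_153, txg_172, txg_173, txg_181, txg_196, txg_197, txg_216, txg_217, txg_227, txg_230, txg_233, txg_248, txg_249, txg_268, txg_269, txg_277, txg_292, txg_293, txg_312, txg_313, txg_322, txg_325, txg_337, txg_338, txg_354, txg_355, txg_363, txg_376, txg_377, txg_396, txg_397, txg_406, txg_408, txg_411, txg_413, txg_428, txg_429,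 txg_448, txg_449, txg_455, txg_470, txg_471, txg_490, txg_491, txg_498, txg_499, txg_512, txg_513, txg_531, txg_532, txg_538, txg_552, txg_553, txg_571, txg_572, txg_580, txg_581, txg_582, txg_598, txg_599, txg_617, txg_618, txg_624, txg_640, txg_641, txg_661, txg_662, txg_669, txg_670, txg_687, txg_688, txg_709, txg_710, txg_716, txg_733, txg_734, txg_753, txg_764, txg_765, txg_776, txg_777, txg_800, txg_801, txg_806, txg_821, txg_822, txg_843, txg_844]
  rcases eq_or_lt_of_le h2 with h | h2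
  · subst h
    ((try push_cast); (repeat first | rw [if_pos (by linarith)] | rw [if_neg (by linarith)] | erw [if_pos (by linarith)] | erw [if_neg (by linarith)]); (try push_cast); (try ring1))
  · ((try push_cast); (repeat first | rw [if_pos (by linarith)] | rw [if_neg (by linarith)] | erw [if_pos (by linarith)] | erw [if_neg (by linarith)]); (try push_cast); (try ring1))
theorem txl20 {p c x : ℝ} (h1 : 3 / 20 < p) (h2 : p ≤ 1 / 5) : txg.v p c x = dt104.val (fun p x => kcg.v p x) p c x := by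
  symm
  refine (DT.val_gt (by simp only [Cn.rt_v, Cn.ng_v]; push_cast; linarith)).trans ?_
  refine (DT.val_le (by simp only [Cn.rt_v, Cn.ng_v]; push_cast; linarith)).trans ?_
  refine (DT.val_le (by simp only [Cn.rt_v, Cn.ng_v]; push_cast; linarith)).trans ?_
  refine (DT.val_gt (by simp only [Cn.rt_v, Cn.ng_v]; push_cast; linarith)).trans ?_
  refine (DT.val_le (by simp only [Cn.rt_v, Cn.ng_v]; push_cast; linarith)).trans ?_
  simp only [dt54, DT.val, cloR, sw54, sl54, sv54, txg, txg_4, txg_6, txg_26, txg_29, txg_32, txg_35, txg_38, txg_55, txg_58, txg_59, txg_77, txg_78, txg_86, txg_100, txg_101, txg_121, txg_122, txg_131, txg_134, txg_152, txg_153, txg_172, txg_173, txg_181, txg_196, txg_197, txg_216, txg_217, txg_227, txg_230, txg_233, txg_248, txg_249, txg_268, txg_269, txg_277, txg_292, txg_293, txg_312, txg_313, txg_322, txg_325, txg_337, txg_338, txg_354, txg_355, txg_363, txg_376, txg_377, txg_396, txg_397, txg_406, txg_408, txg_411, txg_413, txg_428, txg_429,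 txg_448, txg_449, txg_455, txg_470, txg_471, txg_490, txg_491, txg_498, txg_499, txg_512, txg_513, txg_531, txg_532, txg_538, txg_552, txg_553, txg_571, txg_572, txg_580, txg_581, txg_582, txg_598, txg_599, txg_617, txg_618, txg_624, txg_640, txg_641, txg_661, txg_662, txg_669, txg_670, txg_687, txg_688, txg_709, txg_710, txg_716, txg_733, txg_734, txg_753, txg_764, txg_765, txg_776, txg_777, txg_800, txg_801, txg_806, txg_821, txg_822, txg_843, txg_844]
  rcases eq_or_lt_of_le h2 with h | h2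
  · subst h
    ((try push_cast); (repeat first | rw [if_pos (by linarith)] | rw [if_neg (by linarith)] | erw [if_pos (by linarith)] | erw [if_neg (by linarith)]); (try push_cast); (try ring1))
  · ((try push_cast); (repeat first | rw [if_pos (by linarith)] | rw [if_neg (by linarith)] | erw [if_pos (by linarith)] | erw [if_neg (by linarith)]); (try push_cast); (try ring1))
theorem txl21 {p c x : ℝ} (h1 : 1 / 5 < p) (h2 : p ≤ 1 / 4) : txg.v p c x = dt104.val (fun p x => kcg.v p x) p c x := by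
  symm
  refine (DT.val_gt (by simp only [Cn.rt_v, Cn.ng_v]; push_cast; linarith)).trans ?_
  refine (DT.val_le (by simp only [Cn.rt_v, Cn.ng_v]; push_cast; linarith)).trans ?_
  refine (DT.val_le (by simp only [Cn.rt_v, Cn.ng_v]; push_cast; linarith)).trans ?_
  refine (DT.val_gt (by simp only [Cn.rt_v, Cn.ng_v]; push_cast; linarith)).trans ?_
  refine (DT.val_gt (by simp only [Cn.rt_v, Cn.ng_v]; push_cast; linarith)).trans ?_
  simp only [dt55, DT.val, cloR, sw55, sl55, sv55, txg, txg_4, txg_6, txg_26, txg_29, txg_32, txg_35, txg_38, txg_55, txg_58, txg_59, txg_77, txg_78, txg_86, txg_100, txg_101, txg_121, txg_122, txg_131, txg_134, txg_152, txg_153, txg_172, txg_173, txg_181, txg_196, txg_197, txg_216, txg_217, txg_227, txg_230, txg_233, txg_248, txg_249, txg_268, txg_269, txg_277, txg_292, txg_293, txg_312, txg_313, txg_322, txg_325, txg_337, txg_338, txg_354, txg_355, txg_363, txg_376, txg_377, txg_396, txg_397, txg_406, txg_408, txg_411, txg_413, txg_428, txg_429,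 txg_448, txg_449, txg_455, txg_470, txg_471, txg_490, txg_491, txg_498, txg_499, txg_512, txg_513, txg_531, txg_532, txg_538, txg_552, txg_553, txg_571, txg_572, txg_580, txg_581, txg_582, txg_598, txg_599, txg_617, txg_618, txg_624, txg_640, txg_641, txg_661, txg_662, txg_669, txg_670, txg_687, txg_688, txg_709, txg_710, txg_716, txg_733, txg_734, txg_753, txg_764, txg_765, txg_776, txg_777, txg_800, txg_801, txg_806, txg_821, txg_822, txg_843, txg_844]
  rcases eq_or_lt_of_le h2 with h | h2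
  · subst h
    ((try push_cast); (repeat first | rw [if_pos (by linarith)] | rw [if_neg (by linarith)] | erw [if_pos (by linarith)] | erw [if_neg (by linarith)]); (try push_cast); (try ring1))
  · ((try push_cast); (repeat first | rw [if_pos (by linarith)] | rw [if_neg (by linarith)] | erw [if_pos (by linarith)] | erw [if_neg (by linarith)]); (try push_cast); (try ring1))
theorem txl22 {p c x : ℝ} (h1 : 1 / 4 < p) (h2 : p ≤ 3 / 10) : txg.v p c x = dt104.val (fun p x => kcg.v p x) p c x := by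
  symm
  refine (DT.val_gt (by simp only [Cn.rt_v, Cn.ng_v]; push_cast; linarith)).trans ?_
  refine (DT.val_le (by simp only [Cn.rt_v, Cn.ng_v]; push_cast; linarith)).trans ?_
  refine (DT.val_gt (by simp only [Cn.rt_v, Cn.ng_v]; push_cast; linarith)).trans ?_
  refine (DT.val_le (by simp only [Cn.rt_v, Cn.ng_v]; push_cast; linarith)).trans ?_
  refine (DT.val_le (by simp only [Cn.rt_v, Cn.ng_v]; push_cast; linarith)).trans ?_
  simp only [dt56, DT.val, cloR, sw56, sl56, sv56, txg, txg_4, txg_6, txg_26, txg_29, txg_32, txg_35, txg_38, txg_55, txg_58, txg_59, txg_77, txg_78, txg_86, txg_100, txg_101, txg_121, txg_122, txg_131, txg_134, txg_152, txg_153, txg_172, txg_173, txg_181, txg_196, txg_197, txg_216, txg_217, txg_227, txg_230, txg_233, txg_248, txg_249, txg_268, txg_269, txg_277, txg_292, txg_293, txg_312, txg_313, txg_322, txg_325, txg_337, txg_338, txg_354, txg_355, txg_363, txg_376, txg_377, txg_396, txg_397, txg_406, txg_408, txg_411, txg_413, txg_428, txg_429,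 txg_448, txg_449, txg_455, txg_470, txg_471, txg_490, txg_491, txg_498, txg_499, txg_512, txg_513, txg_531, txg_532, txg_538, txg_552, txg_553, txg_571, txg_572, txg_580, txg_581, txg_582, txg_598, txg_599, txg_617, txg_618, txg_624, txg_640, txg_641, txg_661, txg_662, txg_669, txg_670, txg_687, txg_688, txg_709, txg_710, txg_716, txg_733, txg_734, txg_753, txg_764, txg_765, txg_776, txg_777, txg_800, txg_801, txg_806, txg_821, txg_822, txg_843, txg_844]
  rcases eq_or_lt_of_le h2 with h | h2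
  · subst h
    ((try push_cast); (repeat first | rw [if_pos (by linarith)] | rw [if_neg (by linarith)] | erw [if_pos (by linarith)] | erw [if_neg (by linarith)]); (try push_cast); (try ring1))
  · ((try push_cast); (repeat first | rw [if_pos (by linarith)] | rw [if_neg (by linarith)] | erw [if_pos (by linarith)] | erw [if_neg (by linarith)]); (try push_cast); (try ring1))
theorem txl23 {p c x : ℝ} (h1 : 3 / 10 < p) (h2 : p ≤ 7 / 20) : txg.v p c x = dt104.val (fun p x => kcg.v p x) p c x := by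
  symm
  refine (DT.val_gt (by simp only [Cn.rt_v, Cn.ng_v]; push_cast; linarith)).trans ?_
  refine (DT.val_le (by simp only [Cn.rt_v, Cn.ng_v]; push_cast; linarith)).trans ?_
  refine (DT.val_gt (by simp only [Cn.rt_v, Cn.ng_v]; push_cast; linarith)).trans ?_
  refine (DT.val_le (by simp only [Cn.rt_v, Cn.ng_v]; push_cast; linarith)).trans ?_
  refine (DT.val_gt (by simp only [Cn.rt_v, Cn.ng_v]; push_cast; linarith)).trans ?_
  simp only [dt57, DT.val, cloR, sw57, sl57, sv57, txg, txg_4, txg_6, txg_26, txg_29, txg_32, txg_35, txg_38, txg_55, txg_58, txg_59, txg_77, txg_78, txg_86, txg_100, txg_101, txg_121, txg_122, txg_131, txg_134, txg_152, txg_153, txg_172, txg_173, txg_181, txg_196, txg_197, txg_216, txg_217, txg_227, txg_230, txg_233, txg_248, txg_249, txg_268, txg_269, txg_277, txg_292, txg_293, txg_312, txg_313, txg_322, txg_325, txg_337, txg_338, txg_354, txg_355, txg_363, txg_376, txg_377, txg_396, txg_397, txg_406, txg_408, txg_411, txg_413, txg_428, txg_429,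 txg_448, txg_449, txg_455, txg_470, txg_471, txg_490, txg_491, txg_498, txg_499, txg_512, txg_513, txg_531, txg_532, txg_538, txg_552, txg_553, txg_571, txg_572, txg_580, txg_581, txg_582, txg_598, txg_599, txg_617, txg_618, txg_624, txg_640, txg_641, txg_661, txg_662, txg_669, txg_670, txg_687, txg_688, txg_709, txg_710, txg_716, txg_733, txg_734, txg_753, txg_764, txg_765, txg_776, txg_777, txg_800, txg_801, txg_806, txg_821, txg_822, txg_843, txg_844]
  rcases eq_or_lt_of_le h2 with h | h2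
  · subst h
    ((try push_cast); (repeat first | rw [if_pos (by linarith)] | rw [if_neg (by linarith)] | erw [if_pos (by linarith)] | erw [if_neg (by linarith)]); (try push_cast); (try ring1))
  · ((try push_cast); (repeat first | rw [if_pos (by linarith)] | rw [if_neg (by linarith)] | erw [if_pos (by linarith)] | erw [if_neg (by linarith)]); (try push_cast); (try ring1))
theorem txl24 {p c x : ℝ} (h1 : 7 / 20 < p) (h2 : p ≤ 3 / 8) : txg.v p c x = dt104.val (fun p x => kcg.v p x) p c x := by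
  symm
  refine (DT.val_gt (by simp only [Cn.rt_v, Cn.ng_v]; push_cast; linarith)).trans ?_
  refine (DT.val_le (by simp only [Cn.rt_v, Cn.ng_v]; push_cast; linarith)).trans ?_
  refine (DT.val_gt (by simp only [Cn.rt_v, Cn.ng_v]; push_cast; linarith)).trans ?_
  refine (DT.val_gt (by simp only [Cn.rt_v, Cn.ng_v]; push_cast; linarith)).trans ?_
  refine (DT.val_le (by simp only [Cn.rt_v, Cn.ng_v]; push_cast; linarith)).trans ?_
  simp only [dt58, DT.val, cloR, sw58, sl58, sv58, txg, txg_4, txg_6, txg_26, txg_29, txg_32, txg_35, txg_38, txg_55, txg_58, txg_59, txg_77, txg_78, txg_86, txg_100, txg_101, txg_121, txg_122, txg_131, txg_134, txg_152, txg_153, txg_172, txg_173, txg_181, txg_196, txg_197, txg_216, txg_217, txg_227, txg_230, txg_233, txg_248, txg_249, txg_268, txg_269, txg_277, txg_292, txg_293, txg_312, txg_313, txg_322, txg_325, txg_337, txg_338, txg_354, txg_355, txg_363, txg_376, txg_377, txg_396, txg_397, txg_406, txg_408, txg_411, txg_413, txg_428, txg_429,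 txg_448, txg_449, txg_455, txg_470, txg_471, txg_490, txg_491, txg_498, txg_499, txg_512, txg_513, txg_531, txg_532, txg_538, txg_552, txg_553, txg_571, txg_572, txg_580, txg_581, txg_582, txg_598, txg_599, txg_617, txg_618, txg_624, txg_640, txg_641, txg_661, txg_662, txg_669, txg_670, txg_687, txg_688, txg_709, txg_710, txg_716, txg_733, txg_734, txg_753, txg_764, txg_765, txg_776, txg_777, txg_800, txg_801, txg_806, txg_821, txg_822, txg_843, txg_844]
  rcases eq_or_lt_of_le h2 with h | h2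
  · subst h
    ((try push_cast); (repeat first | rw [if_pos (by linarith)] | rw [if_neg (by linarith)] | erw [if_pos (by linarith)] | erw [if_neg (by linarith)]); (try push_cast); (try ring1))
  · ((try push_cast); (repeat first | rw [if_pos (by linarith)] | rw [if_neg (by linarith)] | erw [if_pos (by linarith)] | erw [if_neg (by linarith)]); (try push_cast); (try ring1))
theorem txl25 {p c x : ℝ} (h1 : 3 / 8 < p) (h2 : p ≤ 39 / 100) : txg.v p c x = dt104.val (fun p x => kcg.v p x) p c x := by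
  symm
  refine (DT.val_gt (by simp only [Cn.rt_v, Cn.ng_v]; push_cast; linarith)).trans ?_
  refine (DT.val_le (by simp only [Cn.rt_v, Cn.ng_v]; push_cast; linarith)).trans ?_
  refine (DT.val_gt (by simp only [Cn.rt_v, Cn.ng_v]; push_cast; linarith)).trans ?_
  refine (DT.val_gt (by simp only [Cn.rt_v, Cn.ng_v]; push_cast; linarith)).trans ?_
  refine (DT.val_gt (by simp only [Cn.rt_v, Cn.ng_v]; push_cast; linarith)).trans ?_
  refine (DT.val_le (by simp only [Cn.rt_v, Cn.ng_v]; push_cast; linarith)).trans ?_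
  simp only [dt59, DT.val, cloR, sw59, sl59, sv59, txg, txg_4, txg_6, txg_26, txg_29, txg_32, txg_35, txg_38, txg_55, txg_58, txg_59, txg_77, txg_78, txg_86, txg_100, txg_101, txg_121, txg_122, txg_131, txg_134, txg_152, txg_153, txg_172, txg_173, txg_181, txg_196, txg_197, txg_216, txg_217, txg_227, txg_230, txg_233, txg_248, txg_249, txg_268, txg_269, txg_277, txg_292, txg_293, txg_312, txg_313, txg_322, txg_325, txg_337, txg_338, txg_354, txg_355, txg_363, txg_376, txg_377, txg_396, txg_397, txg_406, txg_408, txg_411, txg_413, txg_428, txg_429, txg_448, txg_449, txg_455, txg_470, txg_471, txg_490, txg_491, txg_498, txg_499, txg_512, txg_513, txg_531, txg_532, txg_538, txg_552, txg_553, txg_571, txg_572, txg_580, txg_581, txg_582, txg_598, txg_599, txg_617, txg_618, txg_624, txg_640, txg_641, txg_661, txg_662, txg_669, txg_670, txg_687, txg_688, txg_709, txg_710, txg_716, txg_733, txg_734, txg_753, txg_764, txg_765, txg_776, txg_777, txg_800, txg_801, txg_806, txg_821,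 txg_822, txg_843, txg_844]
  rcases eq_or_lt_of_le h2 with h | h2
  · subst h
    ((try push_cast); (repeat first | rw [if_pos (by linarith)] | rw [if_neg (by linarith)] | erw [if_pos (by linarith)] | erw [if_neg (by linarith)]); (try push_cast); (try ring1))
  · ((try push_cast); (repeat first | rw [if_pos (by linarith)] | rw [if_neg (by linarith)] | erw [if_pos (by linarith)] | erw [if_neg (by linarith)]); (try push_cast); (try ring1))
theorem txl26 {p c x : ℝ} (h1 : 39 / 100 < p) (h2 : p ≤ 2 / 5) : txg.v p c x = dt104.val (fun p x => kcg.v p x) p c x := by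
  symm
  refine (DT.val_gt (by simp only [Cn.rt_v, Cn.ng_v]; push_cast; linarith)).trans ?_
  refine (DT.val_le (by simp only [Cn.rt_v, Cn.ng_v]; push_cast; linarith)).trans ?_
  refine (DT.val_gt (by simp only [Cn.rt_v, Cn.ng_v]; push_cast; linarith)).trans ?_
  refine (DT.val_gt (by simp only [Cn.rt_v, Cn.ng_v]; push_cast; linarith)).trans ?_
  refine (DT.val_gt (by simp only [Cn.rt_v, Cn.ng_v]; push_cast; linarith)).trans ?_
  refine (DT.val_gt (by simp only [Cn.rt_v, Cn.ng_v]; push_cast; linarith)).trans ?_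
  simp only [dt60, DT.val, cloR, sw60, sl60, sv60, txg, txg_4, txg_6, txg_26, txg_29, txg_32, txg_35, txg_38, txg_55, txg_58, txg_59, txg_77, txg_78, txg_86, txg_100, txg_101, txg_121, txg_122, txg_131, txg_134, txg_152, txg_153, txg_172, txg_173, txg_181, txg_196, txg_197, txg_216, txg_217, txg_227, txg_230, txg_233, txg_248, txg_249, txg_268, txg_269, txg_277, txg_292, txg_293, txg_312, txg_313, txg_322, txg_325, txg_337, txg_338, txg_354, txg_355, txg_363, txg_376, txg_377, txg_396, txg_397, txg_406, txg_408, txg_411, txg_413, txg_428, txg_429, txg_448, txg_449, txg_455, txg_470, txg_471, txg_490, txg_491, txg_498, txg_499, txg_512, txg_513, txg_531, txg_532, txg_538, txg_552, txg_553, txg_571, txg_572, txg_580, txg_581, txg_582, txg_598, txg_599, txg_617, txg_618, txg_624, txg_640, txg_641, txg_661, txg_662, txg_669, txg_670, txg_687, txg_688, txg_709, txg_710, txg_716, txg_733, txg_734, txg_753, txg_764, txg_765, txg_776, txg_777, txg_800, txg_801, txg_806, txg_821,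 txg_822, txg_843, txg_844]
  rcases eq_or_lt_of_le h2 with h | h2
  · subst h
    ((try push_cast); (repeat first | rw [if_pos (by linarith)] | rw [if_neg (by linarith)] | erw [if_pos (by linarith)] | erw [if_neg (by linarith)]); (try push_cast); (try ring1))
  · ((try push_cast); (repeat first | rw [if_pos (by linarith)] | rw [if_neg (by linarith)] | erw [if_pos (by linarith)] | erw [if_neg (by linarith)]); (try push_cast); (try ring1))
theorem txl27 {p c x : ℝ} (h1 : 2 / 5 < p) (h2 : p ≤ 41 / 100) : txg.v p c x = dt104.val (fun p x => kcg.v p x) p c x := by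
  symm
  refine (DT.val_gt (by simp only [Cn.rt_v, Cn.ng_v]; push_cast; linarith)).trans ?_
  refine (DT.val_gt (by simp only [Cn.rt_v, Cn.ng_v]; push_cast; linarith)).trans ?_
  refine (DT.val_le (by simp only [Cn.rt_v, Cn.ng_v]; push_cast; linarith)).trans ?_
  refine (DT.val_le (by simp only [Cn.rt_v, Cn.ng_v]; push_cast; linarith)).trans ?_
  refine (DT.val_le (by simp only [Cn.rt_v, Cn.ng_v]; push_cast; linarith)).trans ?_
  simp only [dt61, DT.val, cloR, sw61, sl61, sv61, txg, txg_4, txg_6, txg_26, txg_29, txg_32, txg_35, txg_38, txg_55, txg_58, txg_59, txg_77, txg_78, txg_86, txg_100, txg_101, txg_121, txg_122, txg_131, txg_134, txg_152, txg_153, txg_172, txg_173, txg_181, txg_196, txg_197, txg_216, txg_217, txg_227, txg_230, txg_233, txg_248, txg_249, txg_268, txg_269, txg_277, txg_292, txg_293, txg_312, txg_313, txg_322, txg_325, txg_337, txg_338, txg_354, txg_355, txg_363, txg_376, txg_377, txg_396, txg_397, txg_406, txg_408, txg_411, txg_413, txg_428, txg_429,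 txg_448, txg_449, txg_455, txg_470, txg_471, txg_490, txg_491, txg_498, txg_499, txg_512, txg_513, txg_531, txg_532, txg_538, txg_552, txg_553, txg_571, txg_572, txg_580, txg_581, txg_582, txg_598, txg_599, txg_617, txg_618, txg_624, txg_640, txg_641, txg_661, txg_662, txg_669, txg_670, txg_687, txg_688, txg_709, txg_710, txg_716, txg_733, txg_734, txg_753, txg_764, txg_765, txg_776, txg_777, txg_800, txg_801, txg_806, txg_821, txg_822, txg_843, txg_844]
  rcases eq_or_lt_of_le h2 with h | h2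
  · subst h
    ((try push_cast); (repeat first | rw [if_pos (by linarith)] | rw [if_neg (by linarith)] | erw [if_pos (by linarith)] | erw [if_neg (by linarith)]); (try push_cast); (try ring1))
  · ((try push_cast); (repeat first | rw [if_pos (by linarith)] | rw [if_neg (by linarith)] | erw [if_pos (by linarith)] | erw [if_neg (by linarith)]); (try push_cast); (try ring1))
theorem txl28 {p c x : ℝ} (h1 : 41 / 100 < p) (h2 : p ≤ 21 / 50) : txg.v p c x = dt104.val (fun p x => kcg.v p x) p c x := by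
  symm
  refine (DT.val_gt (by simp only [Cn.rt_v, Cn.ng_v]; push_cast; linarith)).trans ?_
  refine (DT.val_gt (by simp only [Cn.rt_v, Cn.ng_v]; push_cast; linarith)).trans ?_
  refine (DT.val_le (by simp only [Cn.rt_v, Cn.ng_v]; push_cast; linarith)).trans ?_
  refine (DT.val_le (by simp only [Cn.rt_v, Cn.ng_v]; push_cast; linarith)).trans ?_
  refine (DT.val_gt (by simp only [Cn.rt_v, Cn.ng_v]; push_cast; linarith)).trans ?_
  simp only [dt62, DT.val, cloR, sw62, sl62, sv62, txg, txg_4, txg_6, txg_26, txg_29, txg_32, txg_35, txg_38, txg_55, txg_58, txg_59, txg_77, txg_78, txg_86, txg_100, txg_101, txg_121, txg_122, txg_131, txg_134, txg_152, txg_153, txg_172, txg_173, txg_181, txg_196, txg_197, txg_216, txg_217, txg_227, txg_230, txg_233, txg_248, txg_249, txg_268, txg_269, txg_277, txg_292, txg_293, txg_312, txg_313, txg_322, txg_325, txg_337, txg_338, txg_354, txg_355, txg_363, txg_376, txg_377, txg_396, txg_397, txg_406, txg_408, txg_411, txg_413, txg_428, txg_429,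 txg_448, txg_449, txg_455, txg_470, txg_471, txg_490, txg_491, txg_498, txg_499, txg_512, txg_513, txg_531, txg_532, txg_538, txg_552, txg_553, txg_571, txg_572, txg_580, txg_581, txg_582, txg_598, txg_599, txg_617, txg_618, txg_624, txg_640, txg_641, txg_661, txg_662, txg_669, txg_670, txg_687, txg_688, txg_709, txg_710, txg_716, txg_733, txg_734, txg_753, txg_764, txg_765, txg_776, txg_777, txg_800, txg_801, txg_806, txg_821, txg_822, txg_843, txg_844]
  rcases eq_or_lt_of_le h2 with h | h2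
  · subst h
    ((try push_cast); (repeat first | rw [if_pos (by linarith)] | rw [if_neg (by linarith)] | erw [if_pos (by linarith)] | erw [if_neg (by linarith)]); (try push_cast); (try ring1))
  · ((try push_cast); (repeat first | rw [if_pos (by linarith)] | rw [if_neg (by linarith)] | erw [if_pos (by linarith)] | erw [if_neg (by linarith)]); (try push_cast); (try ring1))
theorem txl29 {p c x : ℝ} (h1 : 21 / 50 < p) (h2 : p ≤ 43 / 100) : txg.v p c x = dt104.val (fun p x => kcg.v p x) p c x := by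
  symm
  refine (DT.val_gt (by simp only [Cn.rt_v, Cn.ng_v]; push_cast; linarith)).trans ?_
  refine (DT.val_gt (by simp only [Cn.rt_v, Cn.ng_v]; push_cast; linarith)).trans ?_
  refine (DT.val_le (by simp only [Cn.rt_v, Cn.ng_v]; push_cast; linarith)).trans ?_
  refine (DT.val_gt (by simp only [Cn.rt_v, Cn.ng_v]; push_cast; linarith)).trans ?_
  refine (DT.val_le (by simp only [Cn.rt_v, Cn.ng_v]; push_cast; linarith)).trans ?_
  simp only [dt63, DT.val, cloR, sw63, sl63, sv63, txg, txg_4, txg_6, txg_26, txg_29, txg_32, txg_35, txg_38, txg_55, txg_58, txg_59, txg_77, txg_78, txg_86, txg_100, txg_101, txg_121, txg_122, txg_131, txg_134, txg_152, txg_153, txg_172, txg_173, txg_181, txg_196, txg_197, txg_216, txg_217, txg_227, txg_230, txg_233, txg_248, txg_249, txg_268, txg_269, txg_277, txg_292, txg_293, txg_312, txg_313, txg_322, txg_325, txg_337, txg_338, txg_354, txg_355, txg_363, txg_376, txg_377, txg_396, txg_397, txg_406, txg_408, txg_411, txg_413, txg_428, txg_429,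 txg_448, txg_449, txg_455, txg_470, txg_471, txg_490, txg_491, txg_498, txg_499, txg_512, txg_513, txg_531, txg_532, txg_538, txg_552, txg_553, txg_571, txg_572, txg_580, txg_581, txg_582, txg_598, txg_599, txg_617, txg_618, txg_624, txg_640, txg_641, txg_661, txg_662, txg_669, txg_670, txg_687, txg_688, txg_709, txg_710, txg_716, txg_733, txg_734, txg_753, txg_764, txg_765, txg_776, txg_777, txg_800, txg_801, txg_806, txg_821, txg_822, txg_843, txg_844]
  rcases eq_or_lt_of_le h2 with h | h2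
  · subst h
    ((try push_cast); (repeat first | rw [if_pos (by linarith)] | rw [if_neg (by linarith)] | erw [if_pos (by linarith)] | erw [if_neg (by linarith)]); (try push_cast); (try ring1))
  · ((try push_cast); (repeat first | rw [if_pos (by linarith)] | rw [if_neg (by linarith)] | erw [if_pos (by linarith)] | erw [if_neg (by linarith)]); (try push_cast); (try ring1))
theorem txl30 {p c x : ℝ} (h1 : 43 / 100 < p) (h2 : p ≤ 11 / 25) : txg.v p c x = dt104.val (fun p x => kcg.v p x) p c x := by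
  symm
  refine (DT.val_gt (by simp only [Cn.rt_v, Cn.ng_v]; push_cast; linarith)).trans ?_
  refine (DT.val_gt (by simp only [Cn.rt_v, Cn.ng_v]; push_cast; linarith)).trans ?_
  refine (DT.val_le (by simp only [Cn.rt_v, Cn.ng_v]; push_cast; linarith)).trans ?_
  refine (DT.val_gt (by simp only [Cn.rt_v, Cn.ng_v]; push_cast; linarith)).trans ?_
  refine (DT.val_gt (by simp only [Cn.rt_v, Cn.ng_v]; push_cast; linarith)).trans ?_
  simp only [dt64, DT.val, cloR, sw64, sl64, sv64, txg, txg_4, txg_6, txg_26, txg_29, txg_32, txg_35, txg_38, txg_55, txg_58, txg_59, txg_77, txg_78, txg_86, txg_100, txg_101, txg_121, txg_122, txg_131, txg_134, txg_152, txg_153, txg_172, txg_173, txg_181, txg_196, txg_197, txg_216, txg_217, txg_227, txg_230, txg_233, txg_248, txg_249, txg_268, txg_269, txg_277, txg_292, txg_293, txg_312, txg_313, txg_322, txg_325, txg_337, txg_338, txg_354, txg_355, txg_363, txg_376, txg_377, txg_396, txg_397, txg_406, txg_408, txg_411, txg_413, txg_428, txg_429,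 txg_448, txg_449, txg_455, txg_470, txg_471, txg_490, txg_491, txg_498, txg_499, txg_512, txg_513, txg_531, txg_532, txg_538, txg_552, txg_553, txg_571, txg_572, txg_580, txg_581, txg_582, txg_598, txg_599, txg_617, txg_618, txg_624, txg_640, txg_641, txg_661, txg_662, txg_669, txg_670, txg_687, txg_688, txg_709, txg_710, txg_716, txg_733, txg_734, txg_753, txg_764, txg_765, txg_776, txg_777, txg_800, txg_801, txg_806, txg_821, txg_822, txg_843, txg_844]
  rcases eq_or_lt_of_le h2 with h | h2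
  · subst h
    ((try push_cast); (repeat first | rw [if_pos (by linarith)] | rw [if_neg (by linarith)] | erw [if_pos (by linarith)] | erw [if_neg (by linarith)]); (try push_cast); (try ring1))
  · ((try push_cast); (repeat first | rw [if_pos (by linarith)] | rw [if_neg (by linarith)] | erw [if_pos (by linarith)] | erw [if_neg (by linarith)]); (try push_cast); (try ring1))
theorem txl31 {p c x : ℝ} (h1 : 11 / 25 < p) (h2 : p ≤ 1021 / 2246) : txg.v p c x = dt104.val (fun p x => kcg.v p x) p c x := by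
  symm
  refine (DT.val_gt (by simp only [Cn.rt_v, Cn.ng_v]; push_cast; linarith)).trans ?_
  refine (DT.val_gt (by simp only [Cn.rt_v, Cn.ng_v]; push_cast; linarith)).trans ?_
  refine (DT.val_gt (by simp only [Cn.rt_v, Cn.ng_v]; push_cast; linarith)).trans ?_
  refine (DT.val_le (by simp only [Cn.rt_v, Cn.ng_v]; push_cast; linarith)).trans ?_
  refine (DT.val_le (by simp only [Cn.rt_v, Cn.ng_v]; push_cast; linarith)).trans ?_
  simp only [dt65, DT.val, cloR, sw65, sw65_2, sl65, sl65_2, sv65, sv65_2, txg, txg_4, txg_6, txg_26, txg_29, txg_32, txg_35, txg_38, txg_55, txg_58, txg_59, txg_77, txg_78, txg_86, txg_100, txg_101, txg_121, txg_122, txg_131, txg_134, txg_152, txg_153, txg_172, txg_173, txg_181, txg_196, txg_197, txg_216, txg_217, txg_227, txg_230, txg_233, txg_248, txg_249, txg_268, txg_269, txg_277, txg_292, txg_293, txg_312, txg_313, txg_322, txg_325, txg_337, txg_338, txg_354, txg_355, txg_363, txg_376, txg_377, txg_396, txg_397, txg_406, txg_408, txg_411, txg_413,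 txg_428, txg_429, txg_448, txg_449, txg_455, txg_470, txg_471, txg_490, txg_491, txg_498, txg_499, txg_512, txg_513, txg_531, txg_532, txg_538, txg_552, txg_553, txg_571, txg_572, txg_580, txg_581, txg_582, txg_598, txg_599, txg_617, txg_618, txg_624, txg_640, txg_641, txg_661, txg_662, txg_669, txg_670, txg_687, txg_688, txg_709, txg_710, txg_716, txg_733, txg_734, txg_753, txg_764, txg_765, txg_776, txg_777, txg_800, txg_801, txg_806, txg_821, txg_822, txg_843, txg_844]
  rcases eq_or_lt_of_le h2 with h | h2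
  · subst h
    ((try push_cast); (repeat first | rw [if_pos (by linarith)] | rw [if_neg (by linarith)] | erw [if_pos (by linarith)] | erw [if_neg (by linarith)]); (try push_cast); (try ring1))
  · ((try push_cast); (repeat first | rw [if_pos (by linarith)] | rw [if_neg (by linarith)] | erw [if_pos (by linarith)] | erw [if_neg (by linarith)]); (try push_cast); (try ring1))
theorem txl32 {p c x : ℝ} (h1 : 1021 / 2246 < p) (h2 : p ≤ 661 / 1387) : txg.v p c x = dt104.val (fun p x => kcg.v p x) p c x := by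
  symm
  refine (DT.val_gt (by simp only [Cn.rt_v, Cn.ng_v]; push_cast; linarith)).trans ?_
  refine (DT.val_gt (by simp only [Cn.rt_v, Cn.ng_v]; push_cast; linarith)).trans ?_
  refine (DT.val_gt (by simp only [Cn.rt_v, Cn.ng_v]; push_cast; linarith)).trans ?_
  refine (DT.val_le (by simp only [Cn.rt_v, Cn.ng_v]; push_cast; linarith)).trans ?_
  refine (DT.val_gt (by simp only [Cn.rt_v, Cn.ng_v]; push_cast; linarith)).trans ?_
  simp only [dt66, DT.val, cloR, txg, txg_4, txg_6, txg_26, txg_29, txg_32, txg_35, txg_38, txg_55, txg_58, txg_59, txg_77, txg_78, txg_86, txg_100, txg_101, txg_121, txg_122, txg_131, txg_134, txg_152, txg_153, txg_172, txg_173, txg_181, txg_196, txg_197, txg_216, txg_217, txg_227, txg_230, txg_233, txg_248, txg_249, txg_268, txg_269, txg_277, txg_292, txg_293, txg_312, txg_313, txg_322, txg_325, txg_337, txg_338, txg_354, txg_355, txg_363, txg_376, txg_377, txg_396, txg_397, txg_406, txg_408, txg_411, txg_413, txg_428, txg_429, txg_448, txg_449,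 txg_455, txg_470, txg_471, txg_490, txg_491, txg_498, txg_499, txg_512, txg_513, txg_531, txg_532, txg_538, txg_552, txg_553, txg_571, txg_572, txg_580, txg_581, txg_582, txg_598, txg_599, txg_617, txg_618, txg_624, txg_640, txg_641, txg_661, txg_662, txg_669, txg_670, txg_687, txg_688, txg_709, txg_710, txg_716, txg_733, txg_734, txg_753, txg_764, txg_765, txg_776, txg_777, txg_800, txg_801, txg_806, txg_821, txg_822, txg_843, txg_844]
  rcases eq_or_lt_of_le h2 with h | h2
  · subst h
    ((try push_cast); (repeat first | rw [if_pos (by linarith)] | rw [if_neg (by linarith)] | erw [if_pos (by linarith)] | erw [if_neg (by linarith)]); (try push_cast); (try ring1))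
  · ((try push_cast); (repeat first | rw [if_pos (by linarith)] | rw [if_neg (by linarith)] | erw [if_pos (by linarith)] | erw [if_neg (by linarith)]); (try push_cast); (try ring1))
theorem txl33 {p c x : ℝ} (h1 : 661 / 1387 < p) (h2 : p ≤ 483 / 1000) : txg.v p c x = dt104.val (fun p x => kcg.v p x) p c x := by
  symm
  refine (DT.val_gt (by simp only [Cn.rt_v, Cn.ng_v]; push_cast; linarith)).trans ?_
  refine (DT.val_gt (by simp only [Cn.rt_v, Cn.ng_v]; push_cast; linarith)).trans ?_
  refine (DT.val_gt (by simp only [Cn.rt_v, Cn.ng_v]; push_cast; linarith)).trans ?_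
  refine (DT.val_gt (by simp only [Cn.rt_v, Cn.ng_v]; push_cast; linarith)).trans ?_
  refine (DT.val_le (by simp only [Cn.rt_v, Cn.ng_v]; push_cast; linarith)).trans ?_
  simp only [dt67, DT.val, cloR, sw67, sw67_2, sl67, sl67_2, sv67, sv67_2, txg, txg_4, txg_6, txg_26, txg_29, txg_32, txg_35, txg_38, txg_55, txg_58, txg_59, txg_77, txg_78, txg_86, txg_100, txg_101, txg_121, txg_122, txg_131, txg_134, txg_152, txg_153, txg_172, txg_173, txg_181, txg_196, txg_197, txg_216, txg_217, txg_227, txg_230, txg_233, txg_248, txg_249, txg_268, txg_269, txg_277, txg_292, txg_293, txg_312, txg_313, txg_322, txg_325, txg_337, txg_338, txg_354, txg_355, txg_363, txg_376, txg_377, txg_396, txg_397, txg_406, txg_408, txg_411, txg_413, txg_428, txg_429, txg_448, txg_449, txg_455, txg_470, txg_471, txg_490, txg_491, txg_498, txg_499, txg_512, txg_513, txg_531, txg_532, txg_538, txg_552, txg_553, txg_571, txg_572, txg_580, txg_581, txg_582, txg_598, txg_599, txg_617, txg_618, txg_624, txg_640,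 txg_641, txg_661, txg_662, txg_669, txg_670, txg_687, txg_688, txg_709, txg_710, txg_716, txg_733, txg_734, txg_753, txg_764, txg_765, txg_776, txg_777, txg_800, txg_801, txg_806, txg_821, txg_822, txg_843, txg_844]
  rcases eq_or_lt_of_le h2 with h | h2
  · subst h
    ((try push_cast); (repeat first | rw [if_pos (by linarith)] | rw [if_neg (by linarith)] | erw [if_pos (by linarith)] | erw [if_neg (by linarith)]); (try push_cast); (try ring1))
  · ((try push_cast); (repeat first | rw [if_pos (by linarith)] | rw [if_neg (by linarith)] | erw [if_pos (by linarith)] | erw [if_neg (by linarith)]); (try push_cast); (try ring1))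
theorem txl34 {p c x : ℝ} (h1 : 483 / 1000 < p) (h2 : p ≤ 49 / 100) : txg.v p c x = dt104.val (fun p x => kcg.v p x) p c x := by
  symm
  refine (DT.val_gt (by simp only [Cn.rt_v, Cn.ng_v]; push_cast; linarith)).trans ?_
  refine (DT.val_gt (by simp only [Cn.rt_v, Cn.ng_v]; push_cast; linarith)).trans ?_
  refine (DT.val_gt (by simp only [Cn.rt_v, Cn.ng_v]; push_cast; linarith)).trans ?_
  refine (DT.val_gt (by simp only [Cn.rt_v, Cn.ng_v]; push_cast; linarith)).trans ?_
  refine (DT.val_gt (by simp only [Cn.rt_v, Cn.ng_v]; push_cast; linarith)).trans ?_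
  refine (DT.val_le (by simp only [Cn.rt_v, Cn.ng_v]; push_cast; linarith)).trans ?_
  simp only [dt68, DT.val, cloR, sw68, sl68, sv68, txg, txg_4, txg_6, txg_26, txg_29, txg_32, txg_35, txg_38, txg_55, txg_58, txg_59, txg_77, txg_78, txg_86, txg_100, txg_101, txg_121, txg_122, txg_131, txg_134, txg_152, txg_153, txg_172, txg_173, txg_181, txg_196, txg_197, txg_216, txg_217, txg_227, txg_230, txg_233, txg_248, txg_249, txg_268, txg_269, txg_277, txg_292, txg_293, txg_312, txg_313, txg_322, txg_325, txg_337, txg_338, txg_354, txg_355, txg_363, txg_376, txg_377, txg_396, txg_397, txg_406, txg_408, txg_411, txg_413, txg_428, txg_429, txg_448, txg_449, txg_455, txg_470, txg_471, txg_490, txg_491, txg_498, txg_499, txg_512, txg_513, txg_531, txg_532, txg_538, txg_552, txg_553, txg_571, txg_572, txg_580, txg_581, txg_582, txg_598, txg_599, txg_617, txg_618, txg_624, txg_640, txg_641, txg_661, txg_662, txg_669, txg_670, txg_687, txg_688, txg_709, txg_710, txg_716, txg_733, txg_734,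 txg_753, txg_764, txg_765, txg_776, txg_777, txg_800, txg_801, txg_806, txg_821, txg_822, txg_843, txg_844]
  rcases eq_or_lt_of_le h2 with h | h2
  · subst h
    ((try push_cast); (repeat first | rw [if_pos (by linarith)] | rw [if_neg (by linarith)] | erw [if_pos (by linarith)] | erw [if_neg (by linarith)]); (try push_cast); (try ring1))
  · ((try push_cast); (repeat first | rw [if_pos (by linarith)] | rw [if_neg (by linarith)] | erw [if_pos (by linarith)] | erw [if_neg (by linarith)]); (try push_cast); (try ring1))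
theorem txl35 {p c x : ℝ} (h1 : 49 / 100 < p) (h2 : p ≤ 1 / 2) : txg.v p c x = dt104.val (fun p x => kcg.v p x) p c x := by
  symm
  refine (DT.val_gt (by simp only [Cn.rt_v, Cn.ng_v]; push_cast; linarith)).trans ?_
  refine (DT.val_gt (by simp only [Cn.rt_v, Cn.ng_v]; push_cast; linarith)).trans ?_
  refine (DT.val_gt (by simp only [Cn.rt_v, Cn.ng_v]; push_cast; linarith)).trans ?_
  refine (DT.val_gt (by simp only [Cn.rt_v, Cn.ng_v]; push_cast; linarith)).trans ?_
  refine (DT.val_gt (by simp only [Cn.rt_v, Cn.ng_v]; push_cast; linarith)).trans ?_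
  refine (DT.val_gt (by simp only [Cn.rt_v, Cn.ng_v]; push_cast; linarith)).trans ?_
  simp only [dt69, DT.val, cloR, sw69, sl69, sv69, txg, txg_4, txg_6, txg_26, txg_29, txg_32, txg_35, txg_38, txg_55, txg_58, txg_59, txg_77, txg_78, txg_86, txg_100, txg_101, txg_121, txg_122, txg_131, txg_134, txg_152, txg_153, txg_172, txg_173, txg_181, txg_196, txg_197, txg_216, txg_217, txg_227, txg_230, txg_233, txg_248, txg_249, txg_268, txg_269, txg_277, txg_292, txg_293, txg_312, txg_313, txg_322, txg_325, txg_337, txg_338, txg_354, txg_355, txg_363, txg_376, txg_377, txg_396, txg_397, txg_406, txg_408, txg_411, txg_413, txg_428, txg_429, txg_448, txg_449, txg_455, txg_470, txg_471, txg_490, txg_491, txg_498, txg_499, txg_512, txg_513, txg_531, txg_532, txg_538, txg_552, txg_553, txg_571, txg_572, txg_580, txg_581, txg_582, txg_598, txg_599, txg_617, txg_618, txg_624, txg_640, txg_641, txg_661, txg_662, txg_669, txg_670, txg_687, txg_688, txg_709, txg_710, txg_716, txg_733, txg_734,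 txg_753, txg_764, txg_765, txg_776, txg_777, txg_800, txg_801, txg_806, txg_821, txg_822, txg_843, txg_844]
  rcases eq_or_lt_of_le h2 with h | h2
  · subst h
    ((try push_cast); (repeat first | rw [if_pos (by linarith)] | rw [if_neg (by linarith)] | erw [if_pos (by linarith)] | erw [if_neg (by linarith)]); (try push_cast); (try ring1))
  · ((try push_cast); (repeat first | rw [if_pos (by linarith)] | rw [if_neg (by linarith)] | erw [if_pos (by linarith)] | erw [if_neg (by linarith)]); (try push_cast); (try ring1))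
theorem txe {x : ℝ} (p c : ℝ) (h : |p| ≤ 1 / 2) : txg.v p c x = dt104.val (fun p x => kcg.v p x) p c x := by
  obtain ⟨h1, h2⟩ := abs_le.1 h
  rcases le_or_gt p (-49 / 100) with g0 | g1000
  · exact txl0 (by linarith) g0
  rcases le_or_gt p (-483 / 1000) with g1 | g1001
  · exact txl1 g1000 g1
  rcases le_or_gt p (-59571 / 125000) with g2 | g1002
  · exact txl2 g1001 g2
  rcases le_or_gt p (-23 / 50) with g3 | g1003
  · exact txl3 g1002 g3
  rcases le_or_gt p (-227293 / 500000) with g4 | g1004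
  · exact txl4 g1003 g4
  rcases le_or_gt p (-11 / 25) with g5 | g1005
  · exact txl5 g1004 g5
  rcases le_or_gt p (-43 / 100) with g6 | g1006
  · exact txl6 g1005 g6
  rcases le_or_gt p (-21 / 50) with g7 | g1007
  · exact txl7 g1006 g7
  rcases le_or_gt p (-41 / 100) with g8 | g1008
  · exact txl8 g1007 g8
  rcases le_or_gt p (-2 / 5) with g9 | g1009
  · exact txl9 g1008 g9
  rcases le_or_gt p (-39 / 100) with g10 | g1010
  · exact txl10 g1009 g10
  rcases le_or_gt p (-3 / 8) with g11 | g1011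
  · exact txl11 g1010 g11
  rcases le_or_gt p (-7 / 20) with g12 | g1012
  · exact txl12 g1011 g12
  rcases le_or_gt p (-3 / 10) with g13 | g1013
  · exact txl13 g1012 g13
  rcases le_or_gt p (-1 / 4) with g14 | g1014
  · exact txl14 g1013 g14
  rcases le_or_gt p (-1 / 5) with g15 | g1015
  · exact txl15 g1014 g15
  rcases le_or_gt p (-3 / 20) with g16 | g1016
  · exact txl16 g1015 g16
  rcases le_or_gt p (-1 / 10) with g17 | g1017
  · exact txl17 g1016 g17
  rcases le_or_gt p (1 / 10) with g18 | g1018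
  · exact txl18 g1017 g18
  rcases le_or_gt p (3 / 20) with g19 | g1019
  · exact txl19 g1018 g19
  rcases le_or_gt p (1 / 5) with g20 | g1020
  · exact txl20 g1019 g20
  rcases le_or_gt p (1 / 4) with g21 | g1021
  · exact txl21 g1020 g21
  rcases le_or_gt p (3 / 10) with g22 | g1022
  · exact txl22 g1021 g22
  rcases le_or_gt p (7 / 20) with g23 | g1023
  · exact txl23 g1022 g23
  rcases le_or_gt p (3 / 8) with g24 | g1024
  · exact txl24 g1023 g24
  rcases le_or_gt p (39 / 100) with g25 | g1025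
  · exact txl25 g1024 g25
  rcases le_or_gt p (2 / 5) with g26 | g1026
  · exact txl26 g1025 g26
  rcases le_or_gt p (41 / 100) with g27 | g1027
  · exact txl27 g1026 g27
  rcases le_or_gt p (21 / 50) with g28 | g1028
  · exact txl28 g1027 g28
  rcases le_or_gt p (43 / 100) with g29 | g1029
  · exact txl29 g1028 g29
  rcases le_or_gt p (11 / 25) with g30 | g1030
  · exact txl30 g1029 g30
  rcases le_or_gt p (1021 / 2246) with g31 | g1031
  · exact txl31 g1030 g31
  rcases le_or_gt p (661 / 1387) with g32 | g1032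
  · exact txl32 g1031 g32
  rcases le_or_gt p (483 / 1000) with g33 | g1033
  · exact txl33 g1032 g33
  rcases le_or_gt p (49 / 100) with g34 | g1034
  · exact txl34 g1033 g34
  · exact txl35 g1034 (by linarith)
theorem ta_dt34 (x : ℝ) : dt34.val (fun p x => kcg.v p x) (-1 / 2) (cT (-1 / 2)) x = (0) := by
  simp only [dt34, DT.val, sw34, sl34, sv34]
  ((try push_cast); ring1)
theorem tb_dt34 (x : ℝ) : dt34.val (fun p x => kcg.v p x) (-49 / 100) (cT (-49 / 100)) x = (16399 / 25000000 + (x - 9743 / 10000) * (-63553 / 2000000)) := by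
  simp only [dt34, DT.val, sw34, sl34, sv34]
  ((try push_cast); ring1)
theorem ta_dt35 (x : ℝ) : dt35.val (fun p x => kcg.v p x) (-49 / 100) (cT (-49 / 100)) x = (16399 / 25000000 + (x - 9743 / 10000) * (-63553 / 2000000)) := by
  simp only [dt35, DT.val, sw35, sl35, sv35]
  ((try push_cast); ring1)
theorem tb_dt35 (x : ℝ) : dt35.val (fun p x => kcg.v p x) (-483 / 1000) (cT (-483 / 1000)) x = (61927 / 50000000 + (x - 9743 / 10000) * (-78993 / 2500000)) := by
  simp only [dt35, DT.val, sw35, sl35, sv35]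
  ((try push_cast); ring1)
theorem ta_dt70 (x : ℝ) : dt70.val (fun p x => kcg.v p x) (-1 / 2) (cT (-1 / 2)) x = (0) :=
  (DT.val_le (by simp only [Cn.rt_v, Cn.ng_v]; norm_num)).trans (ta_dt34 x)
theorem tb_dt70 (x : ℝ) : dt70.val (fun p x => kcg.v p x) (-483 / 1000) (cT (-483 / 1000)) x = (61927 / 50000000 + (x - 9743 / 10000) * (-78993 / 2500000)) :=
  (DT.val_gt (by simp only [Cn.rt_v, Cn.ng_v]; norm_num)).trans (tb_dt35 x)
theorem ta_dt36 (x : ℝ) : dt36.val (fun p x => kcg.v p x) (-483 / 1000) (cT (-483 / 1000)) x = (61927 / 50000000 + (x - 9743 / 10000) * (-78993 / 2500000)) := by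
  simp only [dt36, DT.val, sw36, sl36, sv36]
  ((try push_cast); ring1)
theorem tb_dt36 (x : ℝ) : dt36.val (fun p x => kcg.v p x) (-59571 / 125000) (cT (-59571 / 125000)) x = (80357 / 50000000 + (x - 9743 / 10000) * (-412503 / 10000000)) := by
  simp only [dt36, DT.val, sw36, sl36, sv36]
  ((try push_cast); ring1)
theorem ta_dt37 (x : ℝ) : dt37.val (fun p x => kcg.v p x) (-59571 / 125000) (cT (-59571 / 125000)) x = (80357 / 50000000 + (x - 9743 / 10000) * (-412503 / 10000000)) := by
  simp only [dt37, DT.val, sw37, sl37, sv37]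
  ((try push_cast); ring1)
theorem tb_dt37 (x : ℝ) : dt37.val (fun p x => kcg.v p x) (-23 / 50) (cT (-23 / 50)) x = (82589 / 50000000 + (x - 9743 / 10000) * (-771643 / 10000000)) := by
  simp only [dt37, DT.val, sw37, sl37, sv37]
  ((try push_cast); ring1)
theorem ta_dt71 (x : ℝ) : dt71.val (fun p x => kcg.v p x) (-483 / 1000) (cT (-483 / 1000)) x = (61927 / 50000000 + (x - 9743 / 10000) * (-78993 / 2500000)) :=
  (DT.val_le (by simp only [Cn.rt_v, Cn.ng_v]; norm_num)).trans (ta_dt36 x)
theorem tb_dt71 (x : ℝ) : dt71.val (fun p x => kcg.v p x) (-23 / 50) (cT (-23 / 50)) x = (82589 / 50000000 + (x - 9743 / 10000) * (-771643 / 10000000)) :=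
  (DT.val_gt (by simp only [Cn.rt_v, Cn.ng_v]; norm_num)).trans (tb_dt37 x)
theorem ta_dt72 (x : ℝ) : dt72.val (fun p x => kcg.v p x) (-1 / 2) (cT (-1 / 2)) x = (0) :=
  (DT.val_le (by simp only [Cn.rt_v, Cn.ng_v]; norm_num)).trans (ta_dt70 x)
theorem tb_dt72 (x : ℝ) : dt72.val (fun p x => kcg.v p x) (-23 / 50) (cT (-23 / 50)) x = (82589 / 50000000 + (x - 9743 / 10000) * (-771643 / 10000000)) :=
  (DT.val_gt (by simp only [Cn.rt_v, Cn.ng_v]; norm_num)).trans (tb_dt71 x)
theorem ta_dt38 (x : ℝ) : dt38.val (fun p x => kcg.v p x) (-23 / 50) (cT (-23 / 50)) x = (82589 / 50000000 + (x - 9743 / 10000) * (-771643 / 10000000)) := by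
  simp only [dt38, DT.val, sw38, sl38, sv38]
  ((try push_cast); ring1)
theorem tb_dt38 (x : ℝ) : dt38.val (fun p x => kcg.v p x) (-227293 / 500000) (cT (-227293 / 500000)) x = (15367 / 10000000 + (x - 9743 / 10000) * (-421261 / 5000000)) := by
  simp only [dt38, DT.val, sw38, sl38, sv38]
  ((try push_cast); ring1)
theorem ta_dt39 (x : ℝ) : dt39.val (fun p x => kcg.v p x) (-227293 / 500000) (cT (-227293 / 500000)) x = (15367 / 10000000 + (x - 9743 / 10000) * (-421261 / 5000000)) := by
  simp only [dt39, DT.val, sw39, sl39, sv39]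
  ((try push_cast); ring1)
theorem tb_dt39 (x : ℝ) : dt39.val (fun p x => kcg.v p x) (-11 / 25) (cT (-11 / 25)) x = (303937 / 100000000 + (x - 9743 / 10000) * (-299557 / 10000000)) := by
  simp only [dt39, DT.val, sw39, sl39, sv39]
  ((try push_cast); ring1)
theorem ta_dt73 (x : ℝ) : dt73.val (fun p x => kcg.v p x) (-23 / 50) (cT (-23 / 50)) x = (82589 / 50000000 + (x - 9743 / 10000) * (-771643 / 10000000)) :=
  (DT.val_le (by simp only [Cn.rt_v, Cn.ng_v]; norm_num)).trans (ta_dt38 x)
theorem tb_dt73 (x : ℝ) : dt73.val (fun p x => kcg.v p x) (-11 / 25) (cT (-11 / 25)) x = (303937 / 100000000 + (x - 9743 / 10000) * (-299557 / 10000000)) :=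
  (DT.val_gt (by simp only [Cn.rt_v, Cn.ng_v]; norm_num)).trans (tb_dt39 x)
theorem ta_dt40 (x : ℝ) : dt40.val (fun p x => kcg.v p x) (-11 / 25) (cT (-11 / 25)) x = (303937 / 100000000 + (x - 9743 / 10000) * (-299557 / 10000000)) := by
  simp only [dt40, DT.val, sw40, sl40, sv40]
  ((try push_cast); ring1)
theorem tb_dt40 (x : ℝ) : dt40.val (fun p x => kcg.v p x) (-43 / 100) (cT (-43 / 100)) x = (123751 / 20000000 + (x - 9743 / 10000) * (783273 / 10000000)) := by
  simp only [dt40, DT.val, sw40, sl40, sv40]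
  ((try push_cast); ring1)
theorem ta_dt41 (x : ℝ) : dt41.val (fun p x => kcg.v p x) (-43 / 100) (cT (-43 / 100)) x = (123751 / 20000000 + (x - 9743 / 10000) * (783273 / 10000000)) := by
  simp only [dt41, DT.val, sw41, sl41, sv41]
  ((try push_cast); ring1)
theorem tb_dt41 (x : ℝ) : dt41.val (fun p x => kcg.v p x) (-21 / 50) (cT (-21 / 50)) x = (138203 / 12500000 + (x - 9743 / 10000) * (60223 / 250000)) := by
  simp only [dt41, DT.val, sw41, sl41, sv41]
  ((try push_cast); ring1)
theorem ta_dt42 (x : ℝ) : dt42.val (fun p x => kcg.v p x) (-21 / 50) (cT (-21 / 50)) x = (138203 / 12500000 + (x - 9743 / 10000) * (60223 / 250000)) := by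
  simp only [dt42, DT.val, sw42, sl42, sv42]
  ((try push_cast); ring1)
theorem tb_dt42 (x : ℝ) : dt42.val (fun p x => kcg.v p x) (-41 / 100) (cT (-41 / 100)) x = (1763453 / 100000000 + (x - 9743 / 10000) * (4556641 / 10000000)) := by
  simp only [dt42, DT.val, sw42, sl42, sv42]
  ((try push_cast); ring1)
theorem ta_dt74 (x : ℝ) : dt74.val (fun p x => kcg.v p x) (-43 / 100) (cT (-43 / 100)) x = (123751 / 20000000 + (x - 9743 / 10000) * (783273 / 10000000)) :=
  (DT.val_le (by simp only [Cn.rt_v, Cn.ng_v]; norm_num)).trans (ta_dt41 x)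
theorem tb_dt74 (x : ℝ) : dt74.val (fun p x => kcg.v p x) (-41 / 100) (cT (-41 / 100)) x = (1763453 / 100000000 + (x - 9743 / 10000) * (4556641 / 10000000)) :=
  (DT.val_gt (by simp only [Cn.rt_v, Cn.ng_v]; norm_num)).trans (tb_dt42 x)
theorem ta_dt75 (x : ℝ) : dt75.val (fun p x => kcg.v p x) (-11 / 25) (cT (-11 / 25)) x = (303937 / 100000000 + (x - 9743 / 10000) * (-299557 / 10000000)) :=
  (DT.val_le (by simp only [Cn.rt_v, Cn.ng_v]; norm_num)).trans (ta_dt40 x)
theorem tb_dt75 (x : ℝ) : dt75.val (fun p x => kcg.v p x) (-41 / 100) (cT (-41 / 100)) x = (1763453 / 100000000 + (x - 9743 / 10000) * (4556641 / 10000000)) :=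
  (DT.val_gt (by simp only [Cn.rt_v, Cn.ng_v]; norm_num)).trans (tb_dt74 x)
theorem ta_dt76 (x : ℝ) : dt76.val (fun p x => kcg.v p x) (-23 / 50) (cT (-23 / 50)) x = (82589 / 50000000 + (x - 9743 / 10000) * (-771643 / 10000000)) :=
  (DT.val_le (by simp only [Cn.rt_v, Cn.ng_v]; norm_num)).trans (ta_dt73 x)
theorem tb_dt76 (x : ℝ) : dt76.val (fun p x => kcg.v p x) (-41 / 100) (cT (-41 / 100)) x = (1763453 / 100000000 + (x - 9743 / 10000) * (4556641 / 10000000)) :=
  (DT.val_gt (by simp only [Cn.rt_v, Cn.ng_v]; norm_num)).trans (tb_dt75 x)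
theorem ta_dt77 (x : ℝ) : dt77.val (fun p x => kcg.v p x) (-1 / 2) (cT (-1 / 2)) x = (0) :=
  (DT.val_le (by simp only [Cn.rt_v, Cn.ng_v]; norm_num)).trans (ta_dt72 x)
theorem tb_dt77 (x : ℝ) : dt77.val (fun p x => kcg.v p x) (-41 / 100) (cT (-41 / 100)) x = (1763453 / 100000000 + (x - 9743 / 10000) * (4556641 / 10000000)) :=
  (DT.val_gt (by simp only [Cn.rt_v, Cn.ng_v]; norm_num)).trans (tb_dt76 x)
theorem ta_dt43 (x : ℝ) : dt43.val (fun p x => kcg.v p x) (-41 / 100) (cT (-41 / 100)) x = (1763453 / 100000000 + (x - 9743 / 10000) * (4556641 / 10000000)) := by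
  simp only [dt43, DT.val, sw43, sl43, sv43]
  ((try push_cast); ring1)
theorem tb_dt43 (x : ℝ) : dt43.val (fun p x => kcg.v p x) (-2 / 5) (cT (-2 / 5)) x = (1276733 / 50000000 + (x - 9743 / 10000) * (1794587 / 2500000)) := by
  simp only [dt43, DT.val, sw43, sl43, sv43]
  ((try push_cast); ring1)
theorem ta_dt44 (x : ℝ) : dt44.val (fun p x => kcg.v p x) (-2 / 5) (cT (-2 / 5)) x = (1276733 / 50000000 + (x - 9743 / 10000) * (1794587 / 2500000)) := by
  simp only [dt44, DT.val, sw44, sl44, sv44]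
  ((try push_cast); ring1)
theorem tb_dt44 (x : ℝ) : dt44.val (fun p x => kcg.v p x) (-39 / 100) (cT (-39 / 100)) x = (3437303 / 100000000 + (x - 9743 / 10000) * (10171413 / 10000000)) := by
  simp only [dt44, DT.val, sw44, sl44, sv44]
  ((try push_cast); ring1)
theorem ta_dt78 (x : ℝ) : dt78.val (fun p x => kcg.v p x) (-41 / 100) (cT (-41 / 100)) x = (1763453 / 100000000 + (x - 9743 / 10000) * (4556641 / 10000000)) :=
  (DT.val_le (by simp only [Cn.rt_v, Cn.ng_v]; norm_num)).trans (ta_dt43 x)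
theorem tb_dt78 (x : ℝ) : dt78.val (fun p x => kcg.v p x) (-39 / 100) (cT (-39 / 100)) x = (3437303 / 100000000 + (x - 9743 / 10000) * (10171413 / 10000000)) :=
  (DT.val_gt (by simp only [Cn.rt_v, Cn.ng_v]; norm_num)).trans (tb_dt44 x)
theorem ta_dt45 (x : ℝ) : dt45.val (fun p x => kcg.v p x) (-39 / 100) (cT (-39 / 100)) x = (3437303 / 100000000 + (x - 9743 / 10000) * (10171413 / 10000000)) := by
  simp only [dt45, DT.val, sw45, sl45, sv45]
  ((try push_cast); ring1)
theorem tb_dt45 (x : ℝ) : dt45.val (fun p x => kcg.v p x) (-3 / 8) (cT (-3 / 8)) x = (487621 / 10000000 + (x - 9743 / 10000) * (15065831 / 10000000)) := by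
  simp only [dt45, DT.val, sw45, sl45, sv45]
  ((try push_cast); ring1)
theorem ta_dt46 (x : ℝ) : dt46.val (fun p x => kcg.v p x) (-3 / 8) (cT (-3 / 8)) x = (487621 / 10000000 + (x - 9743 / 10000) * (15065831 / 10000000)) := by
  simp only [dt46, DT.val, sw46, sl46, sv46]
  ((try push_cast); ring1)
theorem tb_dt46 (x : ℝ) : dt46.val (fun p x => kcg.v p x) (-7 / 20) (cT (-7 / 20)) x = (900623 / 12500000 + (x - 9743 / 10000) * (10874793 / 5000000)) := by
  simp only [dt46, DT.val, sw46, sl46, sv46]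
  ((try push_cast); ring1)
theorem ta_dt79 (x : ℝ) : dt79.val (fun p x => kcg.v p x) (-39 / 100) (cT (-39 / 100)) x = (3437303 / 100000000 + (x - 9743 / 10000) * (10171413 / 10000000)) :=
  (DT.val_le (by simp only [Cn.rt_v, Cn.ng_v]; norm_num)).trans (ta_dt45 x)
theorem tb_dt79 (x : ℝ) : dt79.val (fun p x => kcg.v p x) (-7 / 20) (cT (-7 / 20)) x = (900623 / 12500000 + (x - 9743 / 10000) * (10874793 / 5000000)) :=
  (DT.val_gt (by simp only [Cn.rt_v, Cn.ng_v]; norm_num)).trans (tb_dt46 x)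
theorem ta_dt80 (x : ℝ) : dt80.val (fun p x => kcg.v p x) (-41 / 100) (cT (-41 / 100)) x = (1763453 / 100000000 + (x - 9743 / 10000) * (4556641 / 10000000)) :=
  (DT.val_le (by simp only [Cn.rt_v, Cn.ng_v]; norm_num)).trans (ta_dt78 x)
theorem tb_dt80 (x : ℝ) : dt80.val (fun p x => kcg.v p x) (-7 / 20) (cT (-7 / 20)) x = (900623 / 12500000 + (x - 9743 / 10000) * (10874793 / 5000000)) :=
  (DT.val_gt (by simp only [Cn.rt_v, Cn.ng_v]; norm_num)).trans (tb_dt79 x)
theorem ta_dt47 (x : ℝ) : dt47.val (fun p x => kcg.v p x) (-7 / 20) (cT (-7 / 20)) x = (900623 / 12500000 + (x - 9743 / 10000) * (10874793 / 5000000)) := by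
  simp only [dt47, DT.val, sw47, sl47, sv47]
  ((try push_cast); ring1)
theorem tb_dt47 (x : ℝ) : dt47.val (fun p x => kcg.v p x) (-3 / 10) (cT (-3 / 10)) x = (694411 / 6250000 + (x - 9743 / 10000) * (2505877 / 1000000)) := by
  simp only [dt47, DT.val, sw47, sl47, sv47]
  ((try push_cast); ring1)
theorem ta_dt48 (x : ℝ) : dt48.val (fun p x => kcg.v p x) (-3 / 10) (cT (-3 / 10)) x = (694411 / 6250000 + (x - 9743 / 10000) * (2505877 / 1000000)) := by
  simp only [dt48, DT.val, sw48, sl48, sv48]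
  ((try push_cast); ring1)
theorem tb_dt48 (x : ℝ) : dt48.val (fun p x => kcg.v p x) (-1 / 4) (cT (-1 / 4)) x = (7271809 / 50000000 + (x - 9743 / 10000) * (21730517 / 10000000)) := by
  simp only [dt48, DT.val, sw48, sl48, sv48]
  ((try push_cast); ring1)
theorem ta_dt81 (x : ℝ) : dt81.val (fun p x => kcg.v p x) (-7 / 20) (cT (-7 / 20)) x = (900623 / 12500000 + (x - 9743 / 10000) * (10874793 / 5000000)) :=
  (DT.val_le (by simp only [Cn.rt_v, Cn.ng_v]; norm_num)).trans (ta_dt47 x)
theorem tb_dt81 (x : ℝ) : dt81.val (fun p x => kcg.v p x) (-1 / 4) (cT (-1 / 4)) x = (7271809 / 50000000 + (x - 9743 / 10000) * (21730517 / 10000000)) :=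
  (DT.val_gt (by simp only [Cn.rt_v, Cn.ng_v]; norm_num)).trans (tb_dt48 x)
theorem ta_dt49 (x : ℝ) : dt49.val (fun p x => kcg.v p x) (-1 / 4) (cT (-1 / 4)) x = (7271809 / 50000000 + (x - 9743 / 10000) * (21730517 / 10000000)) := by
  simp only [dt49, DT.val, sw49, sl49, sv49]
  ((try push_cast); ring1)
theorem tb_dt49 (x : ℝ) : dt49.val (fun p x => kcg.v p x) (-1 / 5) (cT (-1 / 5)) x = (17953247 / 100000000 + (x - 9743 / 10000) * (9340613 / 5000000)) := by
  simp only [dt49, DT.val, sw49, sl49, sv49]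
  ((try push_cast); ring1)
theorem ta_dt50 (x : ℝ) : dt50.val (fun p x => kcg.v p x) (-1 / 5) (cT (-1 / 5)) x = (17953247 / 100000000 + (x - 9743 / 10000) * (9340613 / 5000000)) := by
  simp only [dt50, DT.val, sw50, sl50, sv50]
  ((try push_cast); ring1)
theorem tb_dt50 (x : ℝ) : dt50.val (fun p x => kcg.v p x) (-3 / 20) (cT (-3 / 20)) x = (20926301 / 100000000 + (x - 9743 / 10000) * (824693 / 500000)) := by
  simp only [dt50, DT.val, sw50, sl50, sv50]
  ((try push_cast); ring1)
theorem ta_dt51 (x : ℝ) : dt51.val (fun p x => kcg.v p x) (-3 / 20) (cT (-3 / 20)) x = (20926301 / 100000000 + (x - 9743 / 10000) * (824693 / 500000)) := by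
  simp only [dt51, DT.val, sw51, sl51, sv51]
  ((try push_cast); ring1)
theorem tb_dt51 (x : ℝ) : dt51.val (fun p x => kcg.v p x) (-1 / 10) (cT (-1 / 10)) x = (23067993 / 100000000 + (x - 9743 / 10000) * (7528747 / 5000000)) := by
  simp only [dt51, DT.val, sw51, sl51, sv51]
  ((try push_cast); ring1)
theorem ta_dt82 (x : ℝ) : dt82.val (fun p x => kcg.v p x) (-1 / 5) (cT (-1 / 5)) x = (17953247 / 100000000 + (x - 9743 / 10000) * (9340613 / 5000000)) :=
  (DT.val_le (by simp only [Cn.rt_v, Cn.ng_v]; norm_num)).trans (ta_dt50 x)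
theorem tb_dt82 (x : ℝ) : dt82.val (fun p x => kcg.v p x) (-1 / 10) (cT (-1 / 10)) x = (23067993 / 100000000 + (x - 9743 / 10000) * (7528747 / 5000000)) :=
  (DT.val_gt (by simp only [Cn.rt_v, Cn.ng_v]; norm_num)).trans (tb_dt51 x)
theorem ta_dt83 (x : ℝ) : dt83.val (fun p x => kcg.v p x) (-1 / 4) (cT (-1 / 4)) x = (7271809 / 50000000 + (x - 9743 / 10000) * (21730517 / 10000000)) :=
  (DT.val_le (by simp only [Cn.rt_v, Cn.ng_v]; norm_num)).trans (ta_dt49 x)
theorem tb_dt83 (x : ℝ) : dt83.val (fun p x => kcg.v p x) (-1 / 10) (cT (-1 / 10)) x = (23067993 / 100000000 + (x - 9743 / 10000) * (7528747 / 5000000)) :=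
  (DT.val_gt (by simp only [Cn.rt_v, Cn.ng_v]; norm_num)).trans (tb_dt82 x)
theorem ta_dt84 (x : ℝ) : dt84.val (fun p x => kcg.v p x) (-7 / 20) (cT (-7 / 20)) x = (900623 / 12500000 + (x - 9743 / 10000) * (10874793 / 5000000)) :=
  (DT.val_le (by simp only [Cn.rt_v, Cn.ng_v]; norm_num)).trans (ta_dt81 x)
theorem tb_dt84 (x : ℝ) : dt84.val (fun p x => kcg.v p x) (-1 / 10) (cT (-1 / 10)) x = (23067993 / 100000000 + (x - 9743 / 10000) * (7528747 / 5000000)) :=
  (DT.val_gt (by simp only [Cn.rt_v, Cn.ng_v]; norm_num)).trans (tb_dt83 x)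
theorem ta_dt85 (x : ℝ) : dt85.val (fun p x => kcg.v p x) (-41 / 100) (cT (-41 / 100)) x = (1763453 / 100000000 + (x - 9743 / 10000) * (4556641 / 10000000)) :=
  (DT.val_le (by simp only [Cn.rt_v, Cn.ng_v]; norm_num)).trans (ta_dt80 x)
theorem tb_dt85 (x : ℝ) : dt85.val (fun p x => kcg.v p x) (-1 / 10) (cT (-1 / 10)) x = (23067993 / 100000000 + (x - 9743 / 10000) * (7528747 / 5000000)) :=
  (DT.val_gt (by simp only [Cn.rt_v, Cn.ng_v]; norm_num)).trans (tb_dt84 x)
theorem ta_dt86 (x : ℝ) : dt86.val (fun p x => kcg.v p x) (-1 / 2) (cT (-1 / 2)) x = (0) :=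
  (DT.val_le (by simp only [Cn.rt_v, Cn.ng_v]; norm_num)).trans (ta_dt77 x)
theorem tb_dt86 (x : ℝ) : dt86.val (fun p x => kcg.v p x) (-1 / 10) (cT (-1 / 10)) x = (23067993 / 100000000 + (x - 9743 / 10000) * (7528747 / 5000000)) :=
  (DT.val_gt (by simp only [Cn.rt_v, Cn.ng_v]; norm_num)).trans (tb_dt85 x)
theorem ta_dt52 (x : ℝ) : dt52.val (fun p x => kcg.v p x) (-1 / 10) (cT (-1 / 10)) x = (23067993 / 100000000 + (x - 9743 / 10000) * (7528747 / 5000000)) := by
  simp only [dt52, DT.val, sw52, sl52, sv52]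
  ((try push_cast); ring1)
theorem tb_dt52 (x : ℝ) : dt52.val (fun p x => kcg.v p x) (1 / 10) (cT (1 / 10)) x = (2574421 / 10000000 + (x - 9743 / 10000) * (14980681 / 10000000)) := by
  simp only [dt52, DT.val, sw52, sl52, sv52]
  ((try push_cast); ring1)
theorem ta_dt53 (x : ℝ) : dt53.val (fun p x => kcg.v p x) (1 / 10) (cT (1 / 10)) x = (2574421 / 10000000 + (x - 9743 / 10000) * (14980681 / 10000000)) := by
  simp only [dt53, DT.val, sw53, sl53, sv53]
  ((try push_cast); ring1)
theorem tb_dt53 (x : ℝ) : dt53.val (fun p x => kcg.v p x) (3 / 20) (cT (3 / 20)) x = (6261213 / 25000000 + (x - 9743 / 10000) * (16346391 / 10000000)) := by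
  simp only [dt53, DT.val, sw53, sl53, sv53]
  ((try push_cast); ring1)
theorem ta_dt87 (x : ℝ) : dt87.val (fun p x => kcg.v p x) (-1 / 10) (cT (-1 / 10)) x = (23067993 / 100000000 + (x - 9743 / 10000) * (7528747 / 5000000)) :=
  (DT.val_le (by simp only [Cn.rt_v, Cn.ng_v]; norm_num)).trans (ta_dt52 x)
theorem tb_dt87 (x : ℝ) : dt87.val (fun p x => kcg.v p x) (3 / 20) (cT (3 / 20)) x = (6261213 / 25000000 + (x - 9743 / 10000) * (16346391 / 10000000)) :=
  (DT.val_gt (by simp only [Cn.rt_v, Cn.ng_v]; norm_num)).trans (tb_dt53 x)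
theorem ta_dt54 (x : ℝ) : dt54.val (fun p x => kcg.v p x) (3 / 20) (cT (3 / 20)) x = (6261213 / 25000000 + (x - 9743 / 10000) * (16346391 / 10000000)) := by
  simp only [dt54, DT.val, sw54, sl54, sv54]
  ((try push_cast); ring1)
theorem tb_dt54 (x : ℝ) : dt54.val (fun p x => kcg.v p x) (1 / 5) (cT (1 / 5)) x = (11830859 / 50000000 + (x - 9743 / 10000) * (170901 / 100000)) := by
  simp only [dt54, DT.val, sw54, sl54, sv54]
  ((try push_cast); ring1)
theorem ta_dt55 (x : ℝ) : dt55.val (fun p x => kcg.v p x) (1 / 5) (cT (1 / 5)) x = (11830859 / 50000000 + (x - 9743 / 10000) * (170901 / 100000)) := by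
  simp only [dt55, DT.val, sw55, sl55, sv55]
  ((try push_cast); ring1)
theorem tb_dt55 (x : ℝ) : dt55.val (fun p x => kcg.v p x) (1 / 4) (cT (1 / 4)) x = (4295827 / 20000000 + (x - 9743 / 10000) * (7898011 / 5000000)) := by
  simp only [dt55, DT.val, sw55, sl55, sv55]
  ((try push_cast); ring1)
theorem ta_dt88 (x : ℝ) : dt88.val (fun p x => kcg.v p x) (3 / 20) (cT (3 / 20)) x = (6261213 / 25000000 + (x - 9743 / 10000) * (16346391 / 10000000)) :=
  (DT.val_le (by simp only [Cn.rt_v, Cn.ng_v]; norm_num)).trans (ta_dt54 x)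
theorem tb_dt88 (x : ℝ) : dt88.val (fun p x => kcg.v p x) (1 / 4) (cT (1 / 4)) x = (4295827 / 20000000 + (x - 9743 / 10000) * (7898011 / 5000000)) :=
  (DT.val_gt (by simp only [Cn.rt_v, Cn.ng_v]; norm_num)).trans (tb_dt55 x)
theorem ta_dt89 (x : ℝ) : dt89.val (fun p x => kcg.v p x) (-1 / 10) (cT (-1 / 10)) x = (23067993 / 100000000 + (x - 9743 / 10000) * (7528747 / 5000000)) :=
  (DT.val_le (by simp only [Cn.rt_v, Cn.ng_v]; norm_num)).trans (ta_dt87 x)
theorem tb_dt89 (x : ℝ) : dt89.val (fun p x => kcg.v p x) (1 / 4) (cT (1 / 4)) x = (4295827 / 20000000 + (x - 9743 / 10000) * (7898011 / 5000000)) :=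
  (DT.val_gt (by simp only [Cn.rt_v, Cn.ng_v]; norm_num)).trans (tb_dt88 x)
theorem ta_dt56 (x : ℝ) : dt56.val (fun p x => kcg.v p x) (1 / 4) (cT (1 / 4)) x = (4295827 / 20000000 + (x - 9743 / 10000) * (7898011 / 5000000)) := by
  simp only [dt56, DT.val, sw56, sl56, sv56]
  ((try push_cast); ring1)
theorem tb_dt56 (x : ℝ) : dt56.val (fun p x => kcg.v p x) (3 / 10) (cT (3 / 10)) x = (18393077 / 100000000 + (x - 9743 / 10000) * (12412469 / 10000000)) := by
  simp only [dt56, DT.val, sw56, sl56, sv56]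
  ((try push_cast); ring1)
theorem ta_dt57 (x : ℝ) : dt57.val (fun p x => kcg.v p x) (3 / 10) (cT (3 / 10)) x = (18393077 / 100000000 + (x - 9743 / 10000) * (12412469 / 10000000)) := by
  simp only [dt57, DT.val, sw57, sl57, sv57]
  ((try push_cast); ring1)
theorem tb_dt57 (x : ℝ) : dt57.val (fun p x => kcg.v p x) (7 / 20) (cT (7 / 20)) x = (7178197 / 50000000 + (x - 9743 / 10000) * (4031139 / 5000000)) := by
  simp only [dt57, DT.val, sw57, sl57, sv57]
  ((try push_cast); ring1)
theorem ta_dt90 (x : ℝ) : dt90.val (fun p x => kcg.v p x) (1 / 4) (cT (1 / 4)) x = (4295827 / 20000000 + (x - 9743 / 10000) * (7898011 / 5000000)) :=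
  (DT.val_le (by simp only [Cn.rt_v, Cn.ng_v]; norm_num)).trans (ta_dt56 x)
theorem tb_dt90 (x : ℝ) : dt90.val (fun p x => kcg.v p x) (7 / 20) (cT (7 / 20)) x = (7178197 / 50000000 + (x - 9743 / 10000) * (4031139 / 5000000)) :=
  (DT.val_gt (by simp only [Cn.rt_v, Cn.ng_v]; norm_num)).trans (tb_dt57 x)
theorem ta_dt58 (x : ℝ) : dt58.val (fun p x => kcg.v p x) (7 / 20) (cT (7 / 20)) x = (7178197 / 50000000 + (x - 9743 / 10000) * (4031139 / 5000000)) := by
  simp only [dt58, DT.val, sw58, sl58, sv58]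
  ((try push_cast); ring1)
theorem tb_dt58 (x : ℝ) : dt58.val (fun p x => kcg.v p x) (3 / 8) (cT (3 / 8)) x = (5991509 / 50000000 + (x - 9743 / 10000) * (367429 / 625000)) := by
  simp only [dt58, DT.val, sw58, sl58, sv58]
  ((try push_cast); ring1)
theorem ta_dt59 (x : ℝ) : dt59.val (fun p x => kcg.v p x) (3 / 8) (cT (3 / 8)) x = (5991509 / 50000000 + (x - 9743 / 10000) * (367429 / 625000)) := by
  simp only [dt59, DT.val, sw59, sl59, sv59]
  ((try push_cast); ring1)
theorem tb_dt59 (x : ℝ) : dt59.val (fun p x => kcg.v p x) (39 / 100) (cT (39 / 100)) x = (2610701 / 25000000 + (x - 9743 / 10000) * (909141 / 2000000)) := by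
  simp only [dt59, DT.val, sw59, sl59, sv59]
  ((try push_cast); ring1)
theorem ta_dt60 (x : ℝ) : dt60.val (fun p x => kcg.v p x) (39 / 100) (cT (39 / 100)) x = (2610701 / 25000000 + (x - 9743 / 10000) * (909141 / 2000000)) := by
  simp only [dt60, DT.val, sw60, sl60, sv60]
  ((try push_cast); ring1)
theorem tb_dt60 (x : ℝ) : dt60.val (fun p x => kcg.v p x) (2 / 5) (cT (2 / 5)) x = (9380501 / 100000000 + (x - 9743 / 10000) * (913483 / 2500000)) := by
  simp only [dt60, DT.val, sw60, sl60, sv60]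
  ((try push_cast); ring1)
theorem ta_dt91 (x : ℝ) : dt91.val (fun p x => kcg.v p x) (3 / 8) (cT (3 / 8)) x = (5991509 / 50000000 + (x - 9743 / 10000) * (367429 / 625000)) :=
  (DT.val_le (by simp only [Cn.rt_v, Cn.ng_v]; norm_num)).trans (ta_dt59 x)
theorem tb_dt91 (x : ℝ) : dt91.val (fun p x => kcg.v p x) (2 / 5) (cT (2 / 5)) x = (9380501 / 100000000 + (x - 9743 / 10000) * (913483 / 2500000)) :=
  (DT.val_gt (by simp only [Cn.rt_v, Cn.ng_v]; norm_num)).trans (tb_dt60 x)
theorem ta_dt92 (x : ℝ) : dt92.val (fun p x => kcg.v p x) (7 / 20) (cT (7 / 20)) x = (7178197 / 50000000 + (x - 9743 / 10000) * (4031139 / 5000000)) :=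
  (DT.val_le (by simp only [Cn.rt_v, Cn.ng_v]; norm_num)).trans (ta_dt58 x)
theorem tb_dt92 (x : ℝ) : dt92.val (fun p x => kcg.v p x) (2 / 5) (cT (2 / 5)) x = (9380501 / 100000000 + (x - 9743 / 10000) * (913483 / 2500000)) :=
  (DT.val_gt (by simp only [Cn.rt_v, Cn.ng_v]; norm_num)).trans (tb_dt91 x)
theorem ta_dt93 (x : ℝ) : dt93.val (fun p x => kcg.v p x) (1 / 4) (cT (1 / 4)) x = (4295827 / 20000000 + (x - 9743 / 10000) * (7898011 / 5000000)) :=
  (DT.val_le (by simp only [Cn.rt_v, Cn.ng_v]; norm_num)).trans (ta_dt90 x)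
theorem tb_dt93 (x : ℝ) : dt93.val (fun p x => kcg.v p x) (2 / 5) (cT (2 / 5)) x = (9380501 / 100000000 + (x - 9743 / 10000) * (913483 / 2500000)) :=
  (DT.val_gt (by simp only [Cn.rt_v, Cn.ng_v]; norm_num)).trans (tb_dt92 x)
theorem ta_dt94 (x : ℝ) : dt94.val (fun p x => kcg.v p x) (-1 / 10) (cT (-1 / 10)) x = (23067993 / 100000000 + (x - 9743 / 10000) * (7528747 / 5000000)) :=
  (DT.val_le (by simp only [Cn.rt_v, Cn.ng_v]; norm_num)).trans (ta_dt89 x)
theorem tb_dt94 (x : ℝ) : dt94.val (fun p x => kcg.v p x) (2 / 5) (cT (2 / 5)) x = (9380501 / 100000000 + (x - 9743 / 10000) * (913483 / 2500000)) :=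
  (DT.val_gt (by simp only [Cn.rt_v, Cn.ng_v]; norm_num)).trans (tb_dt93 x)
theorem ta_dt61 (x : ℝ) : dt61.val (fun p x => kcg.v p x) (2 / 5) (cT (2 / 5)) x = (9380501 / 100000000 + (x - 9743 / 10000) * (913483 / 2500000)) := by
  simp only [dt61, DT.val, sw61, sl61, sv61]
  ((try push_cast); ring1)
theorem tb_dt61 (x : ℝ) : dt61.val (fun p x => kcg.v p x) (41 / 100) (cT (41 / 100)) x = (1039101 / 12500000 + (x - 9743 / 10000) * (283251 / 1000000)) := by
  simp only [dt61, DT.val, sw61, sl61, sv61]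
  ((try push_cast); ring1)
theorem ta_dt62 (x : ℝ) : dt62.val (fun p x => kcg.v p x) (41 / 100) (cT (41 / 100)) x = (1039101 / 12500000 + (x - 9743 / 10000) * (283251 / 1000000)) := by
  simp only [dt62, DT.val, sw62, sl62, sv62]
  ((try push_cast); ring1)
theorem tb_dt62 (x : ℝ) : dt62.val (fun p x => kcg.v p x) (21 / 50) (cT (21 / 50)) x = (3634099 / 50000000 + (x - 9743 / 10000) * (265731 / 1250000)) := by
  simp only [dt62, DT.val, sw62, sl62, sv62]
  ((try push_cast); ring1)
theorem ta_dt95 (x : ℝ) : dt95.val (fun p x => kcg.v p x) (2 / 5) (cT (2 / 5)) x = (9380501 / 100000000 + (x - 9743 / 10000) * (913483 / 2500000)) :=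
  (DT.val_le (by simp only [Cn.rt_v, Cn.ng_v]; norm_num)).trans (ta_dt61 x)
theorem tb_dt95 (x : ℝ) : dt95.val (fun p x => kcg.v p x) (21 / 50) (cT (21 / 50)) x = (3634099 / 50000000 + (x - 9743 / 10000) * (265731 / 1250000)) :=
  (DT.val_gt (by simp only [Cn.rt_v, Cn.ng_v]; norm_num)).trans (tb_dt62 x)
theorem ta_dt63 (x : ℝ) : dt63.val (fun p x => kcg.v p x) (21 / 50) (cT (21 / 50)) x = (3634099 / 50000000 + (x - 9743 / 10000) * (265731 / 1250000)) := by
  simp only [dt63, DT.val, sw63, sl63, sv63]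
  ((try push_cast); ring1)
theorem tb_dt63 (x : ℝ) : dt63.val (fun p x => kcg.v p x) (43 / 100) (cT (43 / 100)) x = (3136371 / 50000000 + (x - 9743 / 10000) * (1533247 / 10000000)) := by
  simp only [dt63, DT.val, sw63, sl63, sv63]
  ((try push_cast); ring1)
theorem ta_dt64 (x : ℝ) : dt64.val (fun p x => kcg.v p x) (43 / 100) (cT (43 / 100)) x = (3136371 / 50000000 + (x - 9743 / 10000) * (1533247 / 10000000)) := by
  simp only [dt64, DT.val, sw64, sl64, sv64]
  ((try push_cast); ring1)
theorem tb_dt64 (x : ℝ) : dt64.val (fun p x => kcg.v p x) (11 / 25) (cT (11 / 25)) x = (2664551 / 50000000 + (x - 9743 / 10000) * (261427 / 2500000)) := by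
  simp only [dt64, DT.val, sw64, sl64, sv64]
  ((try push_cast); ring1)
theorem ta_dt96 (x : ℝ) : dt96.val (fun p x => kcg.v p x) (21 / 50) (cT (21 / 50)) x = (3634099 / 50000000 + (x - 9743 / 10000) * (265731 / 1250000)) :=
  (DT.val_le (by simp only [Cn.rt_v, Cn.ng_v]; norm_num)).trans (ta_dt63 x)
theorem tb_dt96 (x : ℝ) : dt96.val (fun p x => kcg.v p x) (11 / 25) (cT (11 / 25)) x = (2664551 / 50000000 + (x - 9743 / 10000) * (261427 / 2500000)) :=
  (DT.val_gt (by simp only [Cn.rt_v, Cn.ng_v]; norm_num)).trans (tb_dt64 x)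
theorem ta_dt97 (x : ℝ) : dt97.val (fun p x => kcg.v p x) (2 / 5) (cT (2 / 5)) x = (9380501 / 100000000 + (x - 9743 / 10000) * (913483 / 2500000)) :=
  (DT.val_le (by simp only [Cn.rt_v, Cn.ng_v]; norm_num)).trans (ta_dt95 x)
theorem tb_dt97 (x : ℝ) : dt97.val (fun p x => kcg.v p x) (11 / 25) (cT (11 / 25)) x = (2664551 / 50000000 + (x - 9743 / 10000) * (261427 / 2500000)) :=
  (DT.val_gt (by simp only [Cn.rt_v, Cn.ng_v]; norm_num)).trans (tb_dt96 x)
theorem ta_dt65 (x : ℝ) : dt65.val (fun p x => kcg.v p x) (11 / 25) (cT (11 / 25)) x = (2664551 / 50000000 + (x - 9743 / 10000) * (261427 / 2500000)) := by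
  simp only [dt65, DT.val, sw65, sw65_2, sl65, sl65_2, sv65, sv65_2]
  ((try push_cast); ring1)
theorem tb_dt65 (x : ℝ) : dt65.val (fun p x => kcg.v p x) (1021 / 2246) (611 / 1123) x = (3995471997448983 / 98525703125000000 + (x - 9743 / 10000) * (1297797026160533 / 19705140625000000) + (x - 9743 / 10000) ^ 2 * (94297 / 1754687500)) := by
  simp only [dt65, DT.val, sw65, sw65_2, sl65, sl65_2, sv65, sv65_2]
  ((try push_cast); ring1)
theorem ta_dt66 (x : ℝ) : dt66.val (fun p x => kcg.v p x) (1021 / 2246) (611 / 1123) x = (3995471997448983 / 98525703125000000 + (x - 9743 / 10000) * (1297797026160533 / 19705140625000000) + (x - 9743 / 10000) ^ 2 * (94297 / 1754687500)) := by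
  simp only [dt66, DT.val, cloR, kgA]
  ring1
theorem tb_dt66 (x : ℝ) : dt66.val (fun p x => kcg.v p x) (661 / 1387) (1451 / 2774) x = (207899379767162643 / 9618845000000000000 + (x - 9743 / 10000) * (39072985336211169 / 961884500000000000) + (x - 9743 / 10000) ^ 2 * (-4733363691 / 69350000000)) := by
  simp only [dt66, DT.val, cloR, kgB]
  ring1
theorem ta_dt98 (x : ℝ) : dt98.val (fun p x => kcg.v p x) (11 / 25) (cT (11 / 25)) x = (2664551 / 50000000 + (x - 9743 / 10000) * (261427 / 2500000)) :=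
  (DT.val_le (by simp only [Cn.rt_v, Cn.ng_v]; norm_num)).trans (ta_dt65 x)
theorem tb_dt98 (x : ℝ) : dt98.val (fun p x => kcg.v p x) (661 / 1387) (1451 / 2774) x = (207899379767162643 / 9618845000000000000 + (x - 9743 / 10000) * (39072985336211169 / 961884500000000000) + (x - 9743 / 10000) ^ 2 * (-4733363691 / 69350000000)) :=
  (DT.val_gt (by simp only [Cn.rt_v, Cn.ng_v]; norm_num)).trans (tb_dt66 x)
theorem ta_dt67 (x : ℝ) : dt67.val (fun p x => kcg.v p x) (661 / 1387) (1451 / 2774) x = (207899379767162643 / 9618845000000000000 + (x - 9743 / 10000) * (39072985336211169 / 961884500000000000) + (x - 9743 / 10000) ^ 2 * (-4733363691 / 69350000000)) := by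
  simp only [dt67, DT.val, sw67, sw67_2, sl67, sl67_2, sv67, sv67_2]
  ((try push_cast); ring1)
theorem tb_dt67 (x : ℝ) : dt67.val (fun p x => kcg.v p x) (483 / 1000) (cT (483 / 1000)) x = (315131 / 20000000 + (x - 9743 / 10000) * (284187 / 10000000)) := by
  simp only [dt67, DT.val, sw67, sw67_2, sl67, sl67_2, sv67, sv67_2]
  ((try push_cast); ring1)
theorem ta_dt68 (x : ℝ) : dt68.val (fun p x => kcg.v p x) (483 / 1000) (cT (483 / 1000)) x = (315131 / 20000000 + (x - 9743 / 10000) * (284187 / 10000000)) := by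
  simp only [dt68, DT.val, sw68, sl68, sv68]
  ((try push_cast); ring1)
theorem tb_dt68 (x : ℝ) : dt68.val (fun p x => kcg.v p x) (49 / 100) (cT (49 / 100)) x = (231489 / 25000000 + (x - 9743 / 10000) * (10773 / 1000000)) := by
  simp only [dt68, DT.val, sw68, sl68, sv68]
  ((try push_cast); ring1)
theorem ta_dt69 (x : ℝ) : dt69.val (fun p x => kcg.v p x) (49 / 100) (cT (49 / 100)) x = (231489 / 25000000 + (x - 9743 / 10000) * (10773 / 1000000)) := by
  simp only [dt69, DT.val, sw69, sl69, sv69]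
  ((try push_cast); ring1)
theorem tb_dt69 (x : ℝ) : dt69.val (fun p x => kcg.v p x) (1 / 2) (cT (1 / 2)) x = (0) := by
  simp only [dt69, DT.val, sw69, sl69, sv69]
  ((try push_cast); ring1)
theorem ta_dt99 (x : ℝ) : dt99.val (fun p x => kcg.v p x) (483 / 1000) (cT (483 / 1000)) x = (315131 / 20000000 + (x - 9743 / 10000) * (284187 / 10000000)) :=
  (DT.val_le (by simp only [Cn.rt_v, Cn.ng_v]; norm_num)).trans (ta_dt68 x)
theorem tb_dt99 (x : ℝ) : dt99.val (fun p x => kcg.v p x) (1 / 2) (cT (1 / 2)) x = (0) :=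
  (DT.val_gt (by simp only [Cn.rt_v, Cn.ng_v]; norm_num)).trans (tb_dt69 x)
theorem ta_dt100 (x : ℝ) : dt100.val (fun p x => kcg.v p x) (661 / 1387) (1451 / 2774) x = (207899379767162643 / 9618845000000000000 + (x - 9743 / 10000) * (39072985336211169 / 961884500000000000) + (x - 9743 / 10000) ^ 2 * (-4733363691 / 69350000000)) :=
  (DT.val_le (by simp only [Cn.rt_v, Cn.ng_v]; norm_num)).trans (ta_dt67 x)
theorem tb_dt100 (x : ℝ) : dt100.val (fun p x => kcg.v p x) (1 / 2) (cT (1 / 2)) x = (0) :=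
  (DT.val_gt (by simp only [Cn.rt_v, Cn.ng_v]; norm_num)).trans (tb_dt99 x)
theorem ta_dt101 (x : ℝ) : dt101.val (fun p x => kcg.v p x) (11 / 25) (cT (11 / 25)) x = (2664551 / 50000000 + (x - 9743 / 10000) * (261427 / 2500000)) :=
  (DT.val_le (by simp only [Cn.rt_v, Cn.ng_v]; norm_num)).trans (ta_dt98 x)
theorem tb_dt101 (x : ℝ) : dt101.val (fun p x => kcg.v p x) (1 / 2) (cT (1 / 2)) x = (0) :=
  (DT.val_gt (by simp only [Cn.rt_v, Cn.ng_v]; norm_num)).trans (tb_dt100 x)
theorem ta_dt102 (x : ℝ) : dt102.val (fun p x => kcg.v p x) (2 / 5) (cT (2 / 5)) x = (9380501 / 100000000 + (x - 9743 / 10000) * (913483 / 2500000)) :=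
  (DT.val_le (by simp only [Cn.rt_v, Cn.ng_v]; norm_num)).trans (ta_dt97 x)
theorem tb_dt102 (x : ℝ) : dt102.val (fun p x => kcg.v p x) (1 / 2) (cT (1 / 2)) x = (0) :=
  (DT.val_gt (by simp only [Cn.rt_v, Cn.ng_v]; norm_num)).trans (tb_dt101 x)
theorem ta_dt103 (x : ℝ) : dt103.val (fun p x => kcg.v p x) (-1 / 10) (cT (-1 / 10)) x = (23067993 / 100000000 + (x - 9743 / 10000) * (7528747 / 5000000)) :=
  (DT.val_le (by simp only [Cn.rt_v, Cn.ng_v]; norm_num)).trans (ta_dt94 x)
theorem tb_dt103 (x : ℝ) : dt103.val (fun p x => kcg.v p x) (1 / 2) (cT (1 / 2)) x = (0) :=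
  (DT.val_gt (by simp only [Cn.rt_v, Cn.ng_v]; norm_num)).trans (tb_dt102 x)
theorem ta_dt104 (x : ℝ) : dt104.val (fun p x => kcg.v p x) (-1 / 2) (cT (-1 / 2)) x = (0) :=
  (DT.val_le (by simp only [Cn.rt_v, Cn.ng_v]; norm_num)).trans (ta_dt86 x)
theorem tb_dt104 (x : ℝ) : dt104.val (fun p x => kcg.v p x) (1 / 2) (cT (1 / 2)) x = (0) :=
  (DT.val_gt (by simp only [Cn.rt_v, Cn.ng_v]; norm_num)).trans (tb_dt103 x)
theorem to_dt34 (x : ℝ) : dt34.Ok (fun p x => kcg.v p x) x := trivial
theorem to_dt35 (x : ℝ) : dt35.Ok (fun p x => kcg.v p x) x := trivial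
theorem to_dt70 (x : ℝ) : dt70.Ok (fun p x => kcg.v p x) x :=
  DT.ok_node (v := -49 / 100) (by simp only [Cn.rt_v, Cn.ng_v]; norm_num) (by rw [abs_le]; constructor <;> norm_num) rfl (tb_dt34 x) (ta_dt35 x) (by ring1) (to_dt34 x) (to_dt35 x)
theorem to_dt36 (x : ℝ) : dt36.Ok (fun p x => kcg.v p x) x := trivial
theorem to_dt37 (x : ℝ) : dt37.Ok (fun p x => kcg.v p x) x := trivial
theorem to_dt71 (x : ℝ) : dt71.Ok (fun p x => kcg.v p x) x :=
  DT.ok_node (v := -59571 / 125000) (by simp only [Cn.rt_v, Cn.ng_v]; norm_num) (by rw [abs_le]; constructor <;> norm_num) rfl (tb_dt36 x) (ta_dt37 x) (by ring1) (to_dt36 x) (to_dt37 x)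
theorem to_dt72 (x : ℝ) : dt72.Ok (fun p x => kcg.v p x) x :=
  DT.ok_node (v := -483 / 1000) (by simp only [Cn.rt_v, Cn.ng_v]; norm_num) (by rw [abs_le]; constructor <;> norm_num) rfl (tb_dt70 x) (ta_dt71 x) (by ring1) (to_dt70 x) (to_dt71 x)
theorem to_dt38 (x : ℝ) : dt38.Ok (fun p x => kcg.v p x) x := trivial
theorem to_dt39 (x : ℝ) : dt39.Ok (fun p x => kcg.v p x) x := trivial
theorem to_dt73 (x : ℝ) : dt73.Ok (fun p x => kcg.v p x) x :=
  DT.ok_node (v := -227293 / 500000) (by simp only [Cn.rt_v, Cn.ng_v]; norm_num) (by rw [abs_le]; constructor <;> norm_num) rfl (tb_dt38 x) (ta_dt39 x) (by ring1) (to_dt38 x) (to_dt39 x)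
theorem to_dt40 (x : ℝ) : dt40.Ok (fun p x => kcg.v p x) x := trivial
theorem to_dt41 (x : ℝ) : dt41.Ok (fun p x => kcg.v p x) x := trivial
theorem to_dt42 (x : ℝ) : dt42.Ok (fun p x => kcg.v p x) x := trivial
theorem to_dt74 (x : ℝ) : dt74.Ok (fun p x => kcg.v p x) x :=
  DT.ok_node (v := -21 / 50) (by simp only [Cn.rt_v, Cn.ng_v]; norm_num) (by rw [abs_le]; constructor <;> norm_num) rfl (tb_dt41 x) (ta_dt42 x) (by ring1) (to_dt41 x) (to_dt42 x)
theorem to_dt75 (x : ℝ) : dt75.Ok (fun p x => kcg.v p x) x :=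
  DT.ok_node (v := -43 / 100) (by simp only [Cn.rt_v, Cn.ng_v]; norm_num) (by rw [abs_le]; constructor <;> norm_num) rfl (tb_dt40 x) (ta_dt74 x) (by ring1) (to_dt40 x) (to_dt74 x)
theorem to_dt76 (x : ℝ) : dt76.Ok (fun p x => kcg.v p x) x :=
  DT.ok_node (v := -11 / 25) (by simp only [Cn.rt_v, Cn.ng_v]; norm_num) (by rw [abs_le]; constructor <;> norm_num) rfl (tb_dt73 x) (ta_dt75 x) (by ring1) (to_dt73 x) (to_dt75 x)
theorem to_dt77 (x : ℝ) : dt77.Ok (fun p x => kcg.v p x) x :=
  DT.ok_node (v := -23 / 50) (by simp only [Cn.rt_v, Cn.ng_v]; norm_num) (by rw [abs_le]; constructor <;> norm_num) rfl (tb_dt72 x) (ta_dt76 x) (by ring1) (to_dt72 x) (to_dt76 x)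
theorem to_dt43 (x : ℝ) : dt43.Ok (fun p x => kcg.v p x) x := trivial
theorem to_dt44 (x : ℝ) : dt44.Ok (fun p x => kcg.v p x) x := trivial
theorem to_dt78 (x : ℝ) : dt78.Ok (fun p x => kcg.v p x) x :=
  DT.ok_node (v := -2 / 5) (by simp only [Cn.rt_v, Cn.ng_v]; norm_num) (by rw [abs_le]; constructor <;> norm_num) rfl (tb_dt43 x) (ta_dt44 x) (by ring1) (to_dt43 x) (to_dt44 x)
theorem to_dt45 (x : ℝ) : dt45.Ok (fun p x => kcg.v p x) x := trivial
theorem to_dt46 (x : ℝ) : dt46.Ok (fun p x => kcg.v p x) x := trivial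
theorem to_dt79 (x : ℝ) : dt79.Ok (fun p x => kcg.v p x) x :=
  DT.ok_node (v := -3 / 8) (by simp only [Cn.rt_v, Cn.ng_v]; norm_num) (by rw [abs_le]; constructor <;> norm_num) rfl (tb_dt45 x) (ta_dt46 x) (by ring1) (to_dt45 x) (to_dt46 x)
theorem to_dt80 (x : ℝ) : dt80.Ok (fun p x => kcg.v p x) x :=
  DT.ok_node (v := -39 / 100) (by simp only [Cn.rt_v, Cn.ng_v]; norm_num) (by rw [abs_le]; constructor <;> norm_num) rfl (tb_dt78 x) (ta_dt79 x) (by ring1) (to_dt78 x) (to_dt79 x)
theorem to_dt47 (x : ℝ) : dt47.Ok (fun p x => kcg.v p x) x := trivial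
theorem to_dt48 (x : ℝ) : dt48.Ok (fun p x => kcg.v p x) x := trivial
theorem to_dt81 (x : ℝ) : dt81.Ok (fun p x => kcg.v p x) x :=
  DT.ok_node (v := -3 / 10) (by simp only [Cn.rt_v, Cn.ng_v]; norm_num) (by rw [abs_le]; constructor <;> norm_num) rfl (tb_dt47 x) (ta_dt48 x) (by ring1) (to_dt47 x) (to_dt48 x)
theorem to_dt49 (x : ℝ) : dt49.Ok (fun p x => kcg.v p x) x := trivial
theorem to_dt50 (x : ℝ) : dt50.Ok (fun p x => kcg.v p x) x := trivial
theorem to_dt51 (x : ℝ) : dt51.Ok (fun p x => kcg.v p x) x := trivial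
theorem to_dt82 (x : ℝ) : dt82.Ok (fun p x => kcg.v p x) x :=
  DT.ok_node (v := -3 / 20) (by simp only [Cn.rt_v, Cn.ng_v]; norm_num) (by rw [abs_le]; constructor <;> norm_num) rfl (tb_dt50 x) (ta_dt51 x) (by ring1) (to_dt50 x) (to_dt51 x)
theorem to_dt83 (x : ℝ) : dt83.Ok (fun p x => kcg.v p x) x :=
  DT.ok_node (v := -1 / 5) (by simp only [Cn.rt_v, Cn.ng_v]; norm_num) (by rw [abs_le]; constructor <;> norm_num) rfl (tb_dt49 x) (ta_dt82 x) (by ring1) (to_dt49 x) (to_dt82 x)
theorem to_dt84 (x : ℝ) : dt84.Ok (fun p x => kcg.v p x) x :=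
  DT.ok_node (v := -1 / 4) (by simp only [Cn.rt_v, Cn.ng_v]; norm_num) (by rw [abs_le]; constructor <;> norm_num) rfl (tb_dt81 x) (ta_dt83 x) (by ring1) (to_dt81 x) (to_dt83 x)
theorem to_dt85 (x : ℝ) : dt85.Ok (fun p x => kcg.v p x) x :=
  DT.ok_node (v := -7 / 20) (by simp only [Cn.rt_v, Cn.ng_v]; norm_num) (by rw [abs_le]; constructor <;> norm_num) rfl (tb_dt80 x) (ta_dt84 x) (by ring1) (to_dt80 x) (to_dt84 x)
theorem to_dt86 (x : ℝ) : dt86.Ok (fun p x => kcg.v p x) x :=
  DT.ok_node (v := -41 / 100) (by simp only [Cn.rt_v, Cn.ng_v]; norm_num) (by rw [abs_le]; constructor <;> norm_num) rfl (tb_dt77 x) (ta_dt85 x) (by ring1) (to_dt77 x) (to_dt85 x)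
theorem to_dt52 (x : ℝ) : dt52.Ok (fun p x => kcg.v p x) x := trivial
theorem to_dt53 (x : ℝ) : dt53.Ok (fun p x => kcg.v p x) x := trivial
theorem to_dt87 (x : ℝ) : dt87.Ok (fun p x => kcg.v p x) x :=
  DT.ok_node (v := 1 / 10) (by simp only [Cn.rt_v, Cn.ng_v]; norm_num) (by rw [abs_le]; constructor <;> norm_num) rfl (tb_dt52 x) (ta_dt53 x) (by ring1) (to_dt52 x) (to_dt53 x)
theorem to_dt54 (x : ℝ) : dt54.Ok (fun p x => kcg.v p x) x := trivial
theorem to_dt55 (x : ℝ) : dt55.Ok (fun p x => kcg.v p x) x := trivial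
theorem to_dt88 (x : ℝ) : dt88.Ok (fun p x => kcg.v p x) x :=
  DT.ok_node (v := 1 / 5) (by simp only [Cn.rt_v, Cn.ng_v]; norm_num) (by rw [abs_le]; constructor <;> norm_num) rfl (tb_dt54 x) (ta_dt55 x) (by ring1) (to_dt54 x) (to_dt55 x)
theorem to_dt89 (x : ℝ) : dt89.Ok (fun p x => kcg.v p x) x :=
  DT.ok_node (v := 3 / 20) (by simp only [Cn.rt_v, Cn.ng_v]; norm_num) (by rw [abs_le]; constructor <;> norm_num) rfl (tb_dt87 x) (ta_dt88 x) (by ring1) (to_dt87 x) (to_dt88 x)
theorem to_dt56 (x : ℝ) : dt56.Ok (fun p x => kcg.v p x) x := trivial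
theorem to_dt57 (x : ℝ) : dt57.Ok (fun p x => kcg.v p x) x := trivial
theorem to_dt90 (x : ℝ) : dt90.Ok (fun p x => kcg.v p x) x :=
  DT.ok_node (v := 3 / 10) (by simp only [Cn.rt_v, Cn.ng_v]; norm_num) (by rw [abs_le]; constructor <;> norm_num) rfl (tb_dt56 x) (ta_dt57 x) (by ring1) (to_dt56 x) (to_dt57 x)
theorem to_dt58 (x : ℝ) : dt58.Ok (fun p x => kcg.v p x) x := trivial
theorem to_dt59 (x : ℝ) : dt59.Ok (fun p x => kcg.v p x) x := trivial
theorem to_dt60 (x : ℝ) : dt60.Ok (fun p x => kcg.v p x) x := trivial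
theorem to_dt91 (x : ℝ) : dt91.Ok (fun p x => kcg.v p x) x :=
  DT.ok_node (v := 39 / 100) (by simp only [Cn.rt_v, Cn.ng_v]; norm_num) (by rw [abs_le]; constructor <;> norm_num) rfl (tb_dt59 x) (ta_dt60 x) (by ring1) (to_dt59 x) (to_dt60 x)
theorem to_dt92 (x : ℝ) : dt92.Ok (fun p x => kcg.v p x) x :=
  DT.ok_node (v := 3 / 8) (by simp only [Cn.rt_v, Cn.ng_v]; norm_num) (by rw [abs_le]; constructor <;> norm_num) rfl (tb_dt58 x) (ta_dt91 x) (by ring1) (to_dt58 x) (to_dt91 x)
theorem to_dt93 (x : ℝ) : dt93.Ok (fun p x => kcg.v p x) x :=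
  DT.ok_node (v := 7 / 20) (by simp only [Cn.rt_v, Cn.ng_v]; norm_num) (by rw [abs_le]; constructor <;> norm_num) rfl (tb_dt90 x) (ta_dt92 x) (by ring1) (to_dt90 x) (to_dt92 x)
theorem to_dt94 (x : ℝ) : dt94.Ok (fun p x => kcg.v p x) x :=
  DT.ok_node (v := 1 / 4) (by simp only [Cn.rt_v, Cn.ng_v]; norm_num) (by rw [abs_le]; constructor <;> norm_num) rfl (tb_dt89 x) (ta_dt93 x) (by ring1) (to_dt89 x) (to_dt93 x)
theorem to_dt61 (x : ℝ) : dt61.Ok (fun p x => kcg.v p x) x := trivial
theorem to_dt62 (x : ℝ) : dt62.Ok (fun p x => kcg.v p x) x := trivial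
theorem to_dt95 (x : ℝ) : dt95.Ok (fun p x => kcg.v p x) x :=
  DT.ok_node (v := 41 / 100) (by simp only [Cn.rt_v, Cn.ng_v]; norm_num) (by rw [abs_le]; constructor <;> norm_num) rfl (tb_dt61 x) (ta_dt62 x) (by ring1) (to_dt61 x) (to_dt62 x)
theorem to_dt63 (x : ℝ) : dt63.Ok (fun p x => kcg.v p x) x := trivial
theorem to_dt64 (x : ℝ) : dt64.Ok (fun p x => kcg.v p x) x := trivial
theorem to_dt96 (x : ℝ) : dt96.Ok (fun p x => kcg.v p x) x :=
  DT.ok_node (v := 43 / 100) (by simp only [Cn.rt_v, Cn.ng_v]; norm_num) (by rw [abs_le]; constructor <;> norm_num) rfl (tb_dt63 x) (ta_dt64 x) (by ring1) (to_dt63 x) (to_dt64 x)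
theorem to_dt97 (x : ℝ) : dt97.Ok (fun p x => kcg.v p x) x :=
  DT.ok_node (v := 21 / 50) (by simp only [Cn.rt_v, Cn.ng_v]; norm_num) (by rw [abs_le]; constructor <;> norm_num) rfl (tb_dt95 x) (ta_dt96 x) (by ring1) (to_dt95 x) (to_dt96 x)
theorem to_dt65 (x : ℝ) : dt65.Ok (fun p x => kcg.v p x) x := trivial
theorem to_dt66 (x : ℝ) : dt66.Ok (fun p x => kcg.v p x) x := trivial
theorem to_dt98 (x : ℝ) : dt98.Ok (fun p x => kcg.v p x) x :=
  DT.ok_node (v := 1021 / 2246) (by simp only [Cn.rt_v, Cn.ng_v]; norm_num) (by rw [abs_le]; constructor <;> norm_num) ctA (tb_dt65 x) (ta_dt66 x) (by ring1) (to_dt65 x) (to_dt66 x)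
theorem to_dt67 (x : ℝ) : dt67.Ok (fun p x => kcg.v p x) x := trivial
theorem to_dt68 (x : ℝ) : dt68.Ok (fun p x => kcg.v p x) x := trivial
theorem to_dt69 (x : ℝ) : dt69.Ok (fun p x => kcg.v p x) x := trivial
theorem to_dt99 (x : ℝ) : dt99.Ok (fun p x => kcg.v p x) x :=
  DT.ok_node (v := 49 / 100) (by simp only [Cn.rt_v, Cn.ng_v]; norm_num) (by rw [abs_le]; constructor <;> norm_num) rfl (tb_dt68 x) (ta_dt69 x) (by ring1) (to_dt68 x) (to_dt69 x)
theorem to_dt100 (x : ℝ) : dt100.Ok (fun p x => kcg.v p x) x :=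
  DT.ok_node (v := 483 / 1000) (by simp only [Cn.rt_v, Cn.ng_v]; norm_num) (by rw [abs_le]; constructor <;> norm_num) rfl (tb_dt67 x) (ta_dt99 x) (by ring1) (to_dt67 x) (to_dt99 x)
theorem to_dt101 (x : ℝ) : dt101.Ok (fun p x => kcg.v p x) x :=
  DT.ok_node (v := 661 / 1387) (by simp only [Cn.rt_v, Cn.ng_v]; norm_num) (by rw [abs_le]; constructor <;> norm_num) ctB (tb_dt98 x) (ta_dt100 x) (by ring1) (to_dt98 x) (to_dt100 x)
theorem to_dt102 (x : ℝ) : dt102.Ok (fun p x => kcg.v p x) x :=
  DT.ok_node (v := 11 / 25) (by simp only [Cn.rt_v, Cn.ng_v]; norm_num) (by rw [abs_le]; constructor <;> norm_num) rfl (tb_dt97 x) (ta_dt101 x) (by ring1) (to_dt97 x) (to_dt101 x)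
theorem to_dt103 (x : ℝ) : dt103.Ok (fun p x => kcg.v p x) x :=
  DT.ok_node (v := 2 / 5) (by simp only [Cn.rt_v, Cn.ng_v]; norm_num) (by rw [abs_le]; constructor <;> norm_num) rfl (tb_dt94 x) (ta_dt102 x) (by ring1) (to_dt94 x) (to_dt102 x)
theorem to_dt104 (x : ℝ) : dt104.Ok (fun p x => kcg.v p x) x :=
  DT.ok_node (v := -1 / 10) (by simp only [Cn.rt_v, Cn.ng_v]; norm_num) (by rw [abs_le]; constructor <;> norm_num) rfl (tb_dt86 x) (ta_dt103 x) (by ring1) (to_dt86 x) (to_dt103 x)
theorem dok (x : ℝ) : dd.Ok x := ⟨ko_dt33 x, fun p h => kfe h, to_dt104 x⟩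
theorem K0_ (x : ℝ) : ∀ q y, OnC (0 : Fin 7) q y → TightK (tyO q) q (fun p => dd.kf.v p x) (c1n y) y (tK 0 q y x) := by
  refine K0_of (R := fun q y => tK 0 q y x) (kc := fun p => kcg.v p x) ?_ ?_ ?_
  · intro y h
    show tK 0 0 y x = _
    ·
      rw [← (atB00 h).K]
      show kf0q0.v y x = _
      simp only [kf0q0, kf0q0_9, kf0q0_12, c1g_v]
      ((try push_cast); (try simp only [mul_inv]); (try ring_nf))
  · intro y h
    show tK 0 1 y x = _
    ·
      rw [← (atB01 h).K]
      show kf0q1.v y x = _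
      simp only [kf0q1, kf0q1_10, c1g_v]
      ((try push_cast); (try simp only [mul_inv]); (try ring_nf))
  · intro y h
    show tK 0 2 y x = _
    ·
      have ey := yag_v h.1.nonneg (h.2 rfl)
      rw [← (atB02 h).K]
      show kfc02.v (c1n y) x = _
      simp only [kfc02, c1g_v, ey]
      ((try push_cast); (try simp only [mul_inv]); (try ring_nf))
theorem L0_ (x : ℝ) : ∀ q y, OnC (0 : Fin 7) q y → TightL (tyO q) (fun p c => dd.TX.val dd.kf.v p c x) (c1n y) y (tL 0 q y x) := by
  refine L0_of (R := fun q y => tL 0 q y x) (tx := fun p c => txg.v p c x) txe ?_ ?_ ?_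
  · intro y h
    show tL 0 0 y x = _
    ·
      rw [← (atB00 h).L]
      show l0q0.v y x = _
      simp only [l0q0, c1g_v]
      ((try push_cast); (try simp only [mul_inv]); (try ring_nf))
  · intro y h
    show tL 0 1 y x = _
    ·
      rw [← (atB01 h).L]
      show l0q1.v y x = _
      simp only [l0q1, c1g_v]
      ((try push_cast); (try simp only [mul_inv]); (try ring_nf))
  · intro y h
    show tL 0 2 y x = _
    ·
      have ey := yag_v h.1.nonneg (h.2 rfl)
      rw [← (atB02 h).L]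
      show lc02.v (c1n y) x = _
      simp only [lc02, lc02_7, lc02_8, c1g_v, ey]
      ((try push_cast); (try simp only [mul_inv]); (try ring_nf))
theorem Kn_ (x : ℝ) : ∀ q y, InQ q y → TightK (tyN q) q (fun p => dd.kf.v p x) (c3n y) y (tK (Fin.last 6) q y x) := by
  refine Kn_of (R := fun q y => tK 6 q y x) (kc := fun p => kcg.v p x) ?_ ?_ ?_ ?_
  · intro y h
    show tK 6 0 y x = _
    ·
      rw [← (atB60 (onc h (by decide))).K]
      show kf6q0.v y x = _
      simp only [kf6q0, c3g_v]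
      ((try push_cast); (try simp only [mul_inv]); (try ring_nf))
  · intro y h
    show tK 6 1 y x = _
    ·
      rw [← (atB61 (onc h (by decide))).K]
      show kf6q1.v y x = _
      simp only [kf6q1, c3g_v]
      ((try push_cast); (try simp only [mul_inv]); (try ring_nf))
  · intro y h
    show tK 6 2 y x = _
    ·
      rw [← (atB62 (onc h (by decide))).K]
      show kf6q2.v y x = _
      simp only [kf6q2, c3g_v]
      ((try push_cast); (try simp only [mul_inv]); (try ring_nf))
  · intro y h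
    show tK 6 3 y x = _
    ·
      have ey := ycg_v h.nonneg h.le_two
      rw [← (atB63 (onc h (by decide))).K]
      show kfc63.v (c3n y) x = _
      simp only [kfc63, c3g_v, ey]
      ((try push_cast); (try simp only [mul_inv]); (try ring_nf))
theorem Ln_ (x : ℝ) : ∀ q y, InQ q y → TightL (tyN q) (fun p c => dd.TX.val dd.kf.v p c x) (c3n y) y (tL (Fin.last 6) q y x) := by
  refine Ln_of (R := fun q y => tL 6 q y x) (tx := fun p c => txg.v p c x) txe ?_ ?_ ?_ ?_
  · intro y h
    show tL 6 0 y x = _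
    ·
      rw [← (atB60 (onc h (by decide))).L]
      show l6q0.v y x = _
      simp only [l6q0, l6q0_6, l6q0_7, l6q0_8, c3g_v]
      ((try push_cast); (try simp only [mul_inv]); (try ring_nf))
  · intro y h
    show tL 6 1 y x = _
    ·
      rw [← (atB61 (onc h (by decide))).L]
      show l6q1.v y x = _
      simp only [l6q1, l6q1_7, l6q1_8, l6q1_9, c3g_v]
      ((try push_cast); (try simp only [mul_inv]); (try ring_nf))
  · intro y h
    show tL 6 2 y x = _
    ·
      rw [← (atB62 (onc h (by decide))).L]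
      show l6q2.v y x = _
      simp only [l6q2, l6q2_7, l6q2_8, l6q2_9, l6q2_12, l6q2_14, c3g_v]
      ((try push_cast); (try simp only [mul_inv]); (try ring_nf))
  · intro y h
    show tL 6 3 y x = _
    ·
      have ey := ycg_v h.nonneg h.le_two
      rw [← (atB63 (onc h (by decide))).L]
      show lc63.v (c3n y) x = _
      simp only [lc63, lc63_7, lc63_8, lc63_9, lc63_12, lc63_14, c3g_v, ey]
      ((try push_cast); (try simp only [mul_inv]); (try ring_nf))
theorem f0_ : ∀ q y, InQ q y → (ff q).f.v y = crv PP 1 q y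
  | 0, y, _ => ecv1q0.symm
  | 1, y, _ => ecv1q1.symm
  | 2, y, _ => ecv1q2.symm
  | 3, y, h => (ecv1q3 h.1).symm
theorem fn_ : ∀ q y, InQ q y → (fl q).f.v y = crv PP 5 q y
  | 0, y, _ => ecv5q0.symm
  | 1, y, _ => ecv5q1.symm
  | 2, y, _ => ecv5q2.symm
  | 3, y, h => (ecv5q3 h.1).symm
theorem yK00 {y x : ℝ} (h : OnC (0 : Fin 7) 0 y) : tK 0 0 y x = kf0q0.v y x := (atB00 h).K.symm
theorem yK10 {y x : ℝ} (h : InQ 0 y) : tK 1 0 y x = kf1q0.v y x := (atB10 (onc h (by decide))).K.symm
theorem yK01 {y x : ℝ} (h : OnC (0 : Fin 7) 1 y) : tK 0 1 y x = kf0q1.v y x := (atB01 h).K.symm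
theorem yK11 {y x : ℝ} (h : InQ 1 y) : tK 1 1 y x = kf1q1.v y x := (atB11 (onc h (by decide))).K.symm
theorem yK02 {y x : ℝ} (h : OnC (0 : Fin 7) 2 y) : tK 0 2 y x = kf0q2.v y x := by
  rw [← (atB02 h).K]
  show kfc02.v (c1n y) x = _
  have ey := yag_v h.1.nonneg (h.2 rfl)
  simp only [kfc02, kf0q2, ey, c1g_v, c3g_v, swg_v]
  ((try push_cast); (try ring_nf))
theorem yK12 {y x : ℝ} (h : InQ 2 y) : tK 1 2 y x = kf1q2.v y x := (atB12 (onc h (by decide))).K.symm
theorem yK60 {y x : ℝ} (h : InQ 0 y) : tK 6 0 y x = kf6q0.v y x := (atB60 (onc h (by decide))).K.symm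
theorem yK50 {y x : ℝ} (h : InQ 0 y) : tK 5 0 y x = kf5q0.v y x := (atB50 (onc h (by decide))).K.symm
theorem yK61 {y x : ℝ} (h : InQ 1 y) : tK 6 1 y x = kf6q1.v y x := (atB61 (onc h (by decide))).K.symm
theorem yK51 {y x : ℝ} (h : InQ 1 y) : tK 5 1 y x = kf5q1.v y x := (atB51 (onc h (by decide))).K.symm
theorem yK62 {y x : ℝ} (h : InQ 2 y) : tK 6 2 y x = kf6q2.v y x := (atB62 (onc h (by decide))).K.symm
theorem yK52 {y x : ℝ} (h : InQ 2 y) : tK 5 2 y x = kf5q2.v y x := (atB52 (onc h (by decide))).K.symm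
theorem yK63 {y x : ℝ} (h : InQ 3 y) : tK 6 3 y x = kf6q3.v y x := by
  rw [← (atB63 (onc h (by decide))).K]
  show kfc63.v (c3n y) x = _
  have ey := ycg_v h.nonneg h.le_two
  simp only [kfc63, kf6q3, ey, c1g_v, c3g_v, swg_v]
  ((try push_cast); (try ring_nf))
theorem yK53 {y x : ℝ} (h : InQ 3 y) : tK 5 3 y x = kf5q3.v y x := by
  rw [← (atB53 (onc h (by decide))).K]
  show kfc53.v (c3n y) x = _
  have ey := ycg_v h.nonneg h.le_two
  simp only [kfc53, kfc53_11, kf5q3, kf5q3_4, cv5r, ey, c1g_v, c3g_v, swg_v]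
  ((try push_cast); (try ring_nf))
theorem yL00 {y x : ℝ} (h : OnC (0 : Fin 7) 0 y) : tL 0 0 y x = l0q0.v y x := (atB00 h).L.symm
theorem yL10 {y x : ℝ} (h : InQ 0 y) : tL 1 0 y x = l1q0.v y x := (atB10 (onc h (by decide))).L.symm
theorem yL01 {y x : ℝ} (h : OnC (0 : Fin 7) 1 y) : tL 0 1 y x = l0q1.v y x := (atB01 h).L.symm
theorem yL11 {y x : ℝ} (h : InQ 1 y) : tL 1 1 y x = l1q1.v y x := (atB11 (onc h (by decide))).L.symm
theorem yL02 {y x : ℝ} (h : OnC (0 : Fin 7) 2 y) : tL 0 2 y x = l0q2.v y x := by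
  rw [← (atB02 h).L]
  show lc02.v (c1n y) x = _
  have ey := yag_v h.1.nonneg (h.2 rfl)
  simp only [lc02, lc02_7, lc02_8, l0q2, l0q2_7, l0q2_8, ey, c1g_v, c3g_v, swg_v]
  ((try push_cast); (try ring_nf))
theorem yL12 {y x : ℝ} (h : InQ 2 y) : tL 1 2 y x = l1q2.v y x := (atB12 (onc h (by decide))).L.symm
theorem yL60 {y x : ℝ} (h : InQ 0 y) : tL 6 0 y x = l6q0.v y x := (atB60 (onc h (by decide))).L.symm
theorem yL50 {y x : ℝ} (h : InQ 0 y) : tL 5 0 y x = l5q0.v y x := (atB50 (onc h (by decide))).L.symm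
theorem yL61 {y x : ℝ} (h : InQ 1 y) : tL 6 1 y x = l6q1.v y x := (atB61 (onc h (by decide))).L.symm
theorem yL51 {y x : ℝ} (h : InQ 1 y) : tL 5 1 y x = l5q1.v y x := (atB51 (onc h (by decide))).L.symm
theorem yL62 {y x : ℝ} (h : InQ 2 y) : tL 6 2 y x = l6q2.v y x := (atB62 (onc h (by decide))).L.symm
theorem yL52 {y x : ℝ} (h : InQ 2 y) : tL 5 2 y x = l5q2.v y x := (atB52 (onc h (by decide))).L.symm
theorem yL63 {y x : ℝ} (h : InQ 3 y) : tL 6 3 y x = l6q3.v y x := by
  rw [← (atB63 (onc h (by decide))).L]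
  show lc63.v (c3n y) x = _
  have ey := ycg_v h.nonneg h.le_two
  simp only [lc63, lc63_7, lc63_8, lc63_9, lc63_12, lc63_14, l6q3, l6q3_7, l6q3_8, l6q3_9, l6q3_12, l6q3_14, ey, c1g_v, c3g_v, swg_v]
  ((try push_cast); (try ring_nf))
theorem yL53 {y x : ℝ} (h : InQ 3 y) : tL 5 3 y x = l5q3.v y x := by
  rw [← (atB53 (onc h (by decide))).L]
  show lc53.v (c3n y) x = _
  have ey := ycg_v h.nonneg h.le_two
  simp only [lc53, lc53_11, l5q3, l5q3_4, cv5r, ey, c1g_v, c3g_v, swg_v]
  ((try push_cast); (try ring_nf))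
theorem sK0_ (x : ℝ) : ∀ q y, OnC (0 : Fin 7) q y → c1n y < crv PP 1 q y →
    (ff q).SK.v y x * (crv PP 1 q y - c1n y) = tK 1 q y x - tK 0 q y x := by
  intro q y h hlt
  rcases onC_q h with rfl | rfl | rfl
  · rw [yK10 h.1, yK00 h]
    rw [ecv1q0, ← c1g_v] at hlt ⊢
    have hd : 0 < cv1m.v y - c1g.v y := sub_pos.2 hlt
    have hi := inv_mul_cancel₀ hd.ne'
    show skf0.v y x * _ = _
    simp only [skf0, kf1q0]
    (try push_cast)
    linear_combination (c1g.v y * bf1q0.v y x - kf0q0.v y x) * hi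
  · rw [yK11 h.1, yK01 h]
    rw [ecv1q1, ← c1g_v] at hlt ⊢
    have hd : 0 < cv1m.v y - c1g.v y := sub_pos.2 hlt
    have hi := inv_mul_cancel₀ hd.ne'
    show skf1.v y x * _ = _
    simp only [skf1, kf1q1]
    (try push_cast)
    linear_combination (c1g.v y * bf1q1.v y x - kf0q1.v y x) * hi
  · rw [yK12 h.1, yK02 h]
    rw [ecv1q2, ← c1g_v] at hlt ⊢
    have hd : 0 < cv1p.v y - c1g.v y := sub_pos.2 hlt
    have hi := inv_mul_cancel₀ hd.ne'
    have hb : |c1g.v y| ≤ 1 / 2 := by rw [c1g_v]; exact bnd_O h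
    have eo := odd (x := x) hb
    show skf2.v y x * _ = _
    simp only [skf2, kf1q2, kf0q2, eo]
    (try push_cast)
    linear_combination (c1g.v y * (bf1q2.v y x - 1) + (y - 1) * kcg.v (c1g.v y) x) * hi
theorem sX0_ (x : ℝ) : ∀ q y, OnC (0 : Fin 7) q y → c1n y < crv PP 1 q y →
    (ff q).SX.v y x * (crv PP 1 q y - c1n y) = tL 1 q y x - tL 0 q y x := by
  intro q y h hlt
  rcases onC_q h with rfl | rfl | rfl
  · rw [yL10 h.1, yL00 h]
    rw [ecv1q0, ← c1g_v] at hlt ⊢
    have hd : 0 < cv1m.v y - c1g.v y := sub_pos.2 hlt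
    have hi := inv_mul_cancel₀ hd.ne'
    show sxf0.v y x * _ = _
    simp only [sxf0]
    (try push_cast)
    linear_combination (l1q0.v y x - l0q0.v y x) * hi
  · rw [yL11 h.1, yL01 h]
    rw [ecv1q1, ← c1g_v] at hlt ⊢
    have hd : 0 < cv1m.v y - c1g.v y := sub_pos.2 hlt
    have hi := inv_mul_cancel₀ hd.ne'
    show sxf1.v y x * _ = _
    simp only [sxf1]
    (try push_cast)
    linear_combination (l1q1.v y x - l0q1.v y x) * hi
  · rw [yL12 h.1, yL02 h]
    rw [ecv1q2, ← c1g_v] at hlt ⊢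
    have hd : 0 < cv1p.v y - c1g.v y := sub_pos.2 hlt
    have hi := inv_mul_cancel₀ hd.ne'
    show sxf2.v y x * _ = _
    simp only [sxf2]
    (try push_cast)
    linear_combination (l1q2.v y x - l0q2.v y x) * hi
theorem sKn_ (x : ℝ) : ∀ q y, InQ q y → crv PP 5 q y < c3n y →
    (fl q).SK.v y x * (c3n y - crv PP 5 q y) = tK 6 q y x - tK 5 q y x := by
  intro q y h hlt
  match q, h with
  | 0, h =>
    rw [yK60 h, yK50 h]
    rw [ecv5q0, ← c3g_v] at hlt ⊢
    have hd : 0 < c3g.v y - cv5m.v y := sub_pos.2 hlt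
    have hi := inv_mul_cancel₀ hd.ne'
    show skl0.v y x * _ = _
    simp only [skl0, kf5q0]
    (try push_cast)
    linear_combination (kf6q0.v y x - c3g.v y * bf5q0.v y x) * hi
  | 1, h =>
    rw [yK61 h, yK51 h]
    rw [ecv5q1, ← c3g_v] at hlt ⊢
    have hd : 0 < c3g.v y - cv5m.v y := sub_pos.2 hlt
    have hi := inv_mul_cancel₀ hd.ne'
    show skl1.v y x * _ = _
    simp only [skl1, kf5q1]
    (try push_cast)
    linear_combination (kf6q1.v y x - c3g.v y * bf5q1.v y x) * hi
  | 2, h =>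
    rw [yK62 h, yK52 h]
    rw [ecv5q2, ← c3g_v] at hlt ⊢
    have hd : 0 < c3g.v y - cv5p.v y := sub_pos.2 hlt
    have hi := inv_mul_cancel₀ hd.ne'
    show skl2.v y x * _ = _
    simp only [skl2, kf5q2]
    (try push_cast)
    linear_combination (kf6q2.v y x - c3g.v y * bf5q2.v y x) * hi
  | 3, h =>
    rw [yK63 h, yK53 h]
    rw [ecv5q3 h.1, ← c3g_v] at hlt ⊢
    have hd : 0 < c3g.v y - cv5r.v y := sub_pos.2 hlt
    have hi := inv_mul_cancel₀ hd.ne'
    have hB : kf5q3.v y x = cv5r.v y * bf5q3.v y x := by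
      simp only [kf5q3, kf5q3_4, bf5q3, bf5q3_3]
    show skl3.v y x * _ = _
    simp only [skl3, hB]
    (try push_cast)
    linear_combination (kf6q3.v y x - c3g.v y * bf5q3.v y x) * hi
theorem sXn_ (x : ℝ) : ∀ q y, InQ q y → crv PP 5 q y < c3n y →
    (fl q).SX.v y x * (c3n y - crv PP 5 q y) = tL 6 q y x - tL 5 q y x := by
  intro q y h hlt
  match q, h with
  | 0, h =>
    rw [yL60 h, yL50 h]
    rw [ecv5q0, ← c3g_v] at hlt ⊢
    have hd : 0 < c3g.v y - cv5m.v y := sub_pos.2 hlt
    have hi := inv_mul_cancel₀ hd.ne'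
    show sxl0.v y x * _ = _
    simp only [sxl0]
    (try push_cast)
    linear_combination (l6q0.v y x - l5q0.v y x) * hi
  | 1, h =>
    rw [yL61 h, yL51 h]
    rw [ecv5q1, ← c3g_v] at hlt ⊢
    have hd : 0 < c3g.v y - cv5m.v y := sub_pos.2 hlt
    have hi := inv_mul_cancel₀ hd.ne'
    show sxl1.v y x * _ = _
    simp only [sxl1]
    (try push_cast)
    linear_combination (l6q1.v y x - l5q1.v y x) * hi
  | 2, h =>
    rw [yL62 h, yL52 h]
    rw [ecv5q2, ← c3g_v] at hlt ⊢
    have hd : 0 < c3g.v y - cv5p.v y := sub_pos.2 hlt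
    have hi := inv_mul_cancel₀ hd.ne'
    show sxl2.v y x * _ = _
    simp only [sxl2]
    (try push_cast)
    linear_combination (l6q2.v y x - l5q2.v y x) * hi
  | 3, h =>
    rw [yL63 h, yL53 h]
    rw [ecv5q3 h.1, ← c3g_v] at hlt ⊢
    have hd : 0 < c3g.v y - cv5r.v y := sub_pos.2 hlt
    have hi := inv_mul_cancel₀ hd.ne'
    show sxl3.v y x * _ = _
    simp only [sxl3]
    (try push_cast)
    linear_combination (l6q3.v y x - l5q3.v y x) * hi
theorem kn_ (x : ℝ) : ∀ X, |X| ≤ vv.k1.v → kcg.v (-X) x = -(k0c.v x * X) := by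
  intro X h
  have h : |X| ≤ 1 / 10 := by
    refine h.trans_eq ?_
    show (Cn.rt 1 10).v = _
    rw [Cn.rt_v]
    norm_num
  obtain ⟨h1, h2⟩ := abs_le.1 h
  rw [kcl8 (p := -X) (by linarith) (by linarith)]
  simp only [k0c]
  push_cast
  ring
theorem tvm {p c x : ℝ} (h1 : -1 / 10 ≤ p) (h2 : p ≤ 1 / 10) : dt104.val (fun p x => kcg.v p x) p c x = (50927203 / 200000000 + (x - 9743 / 10000) * (1111463 / 800000)) + (2676217 / 20000000 + (x - 9743 / 10000) * (-76813 / 2000000)) * p + (-423 / 400 + (x - 9743 / 10000) * (5629 / 500)) * p ^ 2 := by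
  rcases eq_or_lt_of_le h1 with h | h1
  · subst h
    refine (DT.val_le (by simp only [Cn.rt_v, Cn.ng_v]; push_cast; linarith)).trans ?_
    refine (DT.val_gt (by simp only [Cn.rt_v, Cn.ng_v]; push_cast; linarith)).trans ?_
    refine (DT.val_gt (by simp only [Cn.rt_v, Cn.ng_v]; push_cast; linarith)).trans ?_
    refine (DT.val_gt (by simp only [Cn.rt_v, Cn.ng_v]; push_cast; linarith)).trans ?_
    refine (DT.val_gt (by simp only [Cn.rt_v, Cn.ng_v]; push_cast; linarith)).trans ?_
    refine (DT.val_gt (by simp only [Cn.rt_v, Cn.ng_v]; push_cast; linarith)).trans ?_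
    simp only [dt51, DT.val, sw51, sl51, sv51]
    ((try push_cast); ring1)
  ·
    refine (DT.val_gt (by simp only [Cn.rt_v, Cn.ng_v]; push_cast; linarith)).trans ?_
    refine (DT.val_le (by simp only [Cn.rt_v, Cn.ng_v]; push_cast; linarith)).trans ?_
    refine (DT.val_le (by simp only [Cn.rt_v, Cn.ng_v]; push_cast; linarith)).trans ?_
    refine (DT.val_le (by simp only [Cn.rt_v, Cn.ng_v]; push_cast; linarith)).trans ?_
    refine (DT.val_le (by simp only [Cn.rt_v, Cn.ng_v]; push_cast; linarith)).trans ?_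
    simp only [dt52, DT.val, sw52, sl52, sv52]
    ((try push_cast); ring1)
theorem tn_ (x : ℝ) : ∀ X, |X| ≤ vv.k1.v → dd.tF x (-X) - dd.tF x X = m0c.v x * X := by
  intro X h
  have h : |X| ≤ 1 / 10 := by
    refine h.trans_eq ?_
    show (Cn.rt 1 10).v = _
    rw [Cn.rt_v]
    norm_num
  obtain ⟨h1, h2⟩ := abs_le.1 h
  show dt104.val (fun p x => kcg.v p x) (-X) (cT (-X)) x - dt104.val (fun p x => kcg.v p x) X (cT X) x = _
  rw [tvm (by linarith) (by linarith), tvm (by linarith) (by linarith)]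
  simp only [m0c]
  push_cast
  ring
theorem vK_ (x : ℝ) : ∀ y, InQ 2 y → tK 1 2 y x = crv PP 1 2 y * bf1q2.v y x := by
  intro y h
  rw [yK12 h, ecv1q2]
  simp only [kf1q2]
theorem vX_ (x : ℝ) : ∀ y, InQ 2 y → tL 1 2 y x = crv PP 1 2 y * bx1q2.v y x := by
  intro y h
  rw [yL12 h, ecv1q2]
  simp only [l1q2]
theorem n0_rK (y x : ℝ) : n0b.v y x = (1 - (y - 1) * k0c.v x) := by
  simp only [n0b, k0c]
  all_goals (try push_cast)
  all_goals (try ring)
theorem rK_ (x : ℝ) : ∀ y, OnC (0 : Fin 7) 2 y → c1n y < crv PP 1 2 y →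
    rhk.v y x * (crv PP 1 2 y - c1n y) = crv PP 1 2 y * (bf1q2.v y x - (1 - (y - 1) * k0c.v x)) := by
  intro y h hlt
  rw [ecv1q2, ← c1g_v] at hlt ⊢
  have hd : 0 < cv1p.v y - c1g.v y := sub_pos.2 hlt
  have hi := inv_mul_cancel₀ hd.ne'
  rw [← n0_rK]
  simp only [rhk]
  linear_combination ((bf1q2.v y x - n0b.v y x) * cv1p.v y) * hi
theorem n0_rX (y x : ℝ) : n0x.v y x = m0c.v x := by
  simp only [n0x, m0c]
  all_goals (try push_cast)
  all_goals (try ring)
theorem rX_ (x : ℝ) : ∀ y, OnC (0 : Fin 7) 2 y → c1n y < crv PP 1 2 y →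
    rhx.v y x * (crv PP 1 2 y - c1n y) = crv PP 1 2 y * (bx1q2.v y x - m0c.v x) := by
  intro y h hlt
  rw [ecv1q2, ← c1g_v] at hlt ⊢
  have hd : 0 < cv1p.v y - c1g.v y := sub_pos.2 hlt
  have hi := inv_mul_cancel₀ hd.ne'
  rw [← n0_rX]
  simp only [rhx]
  linear_combination ((bx1q2.v y x - n0x.v y x) * cv1p.v y) * hi
theorem flat_ (x : ℝ) : ∀ y, InQ 2 y → vv.ya.v ≤ y → y ≤ vv.yb.v → bf1q2.v y x = 1 - (y - 1) * k0c.v x ∧ bx1q2.v y x = m0c.v x := by
  intro y h h1 h2
  have ea : vv.ya.v = 577 / 500 := by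
    show (Cn.rt 577 500).v = _
    rw [Cn.rt_v]
    norm_num
  have eb : vv.yb.v = 231 / 200 := by
    show (Cn.rt 231 200).v = _
    rw [Cn.rt_v]
    norm_num
  rw [ea] at h1
  rw [eb] at h2
  constructor
  · simp only [bf1q2, bf1q2_3, k0c]
    rcases eq_or_lt_of_le h1 with g | h1
    · subst g
      ((try push_cast); (repeat first | rw [if_pos (by linarith)] | rw [if_neg (by linarith)] | erw [if_pos (by linarith)] | erw [if_neg (by linarith)]); (try push_cast); (try ring1))
    rcases eq_or_lt_of_le h2 with g | h2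
    · subst g
      ((try push_cast); (repeat first | rw [if_pos (by linarith)] | rw [if_neg (by linarith)] | erw [if_pos (by linarith)] | erw [if_neg (by linarith)]); (try push_cast); (try ring1))
    · ((try push_cast); (repeat first | rw [if_pos (by linarith)] | rw [if_neg (by linarith)] | erw [if_pos (by linarith)] | erw [if_neg (by linarith)]); (try push_cast); (try ring1))
  · simp only [bx1q2, bx1q2_3, m0c]
    rcases eq_or_lt_of_le h1 with g | h1
    · subst g
      ((try push_cast); (repeat first | rw [if_pos (by linarith)] | rw [if_neg (by linarith)] | erw [if_pos (by linarith)] | erw [if_neg (by linarith)]); (try push_cast); (try ring1))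
    rcases eq_or_lt_of_le h2 with g | h2
    · subst g
      ((try push_cast); (repeat first | rw [if_pos (by linarith)] | rw [if_neg (by linarith)] | erw [if_pos (by linarith)] | erw [if_neg (by linarith)]); (try push_cast); (try ring1))
    · ((try push_cast); (repeat first | rw [if_pos (by linarith)] | rw [if_neg (by linarith)] | erw [if_pos (by linarith)] | erw [if_neg (by linarith)]); (try push_cast); (try ring1))
theorem abk_ (x : ℝ) : ∀ y, InQ 2 y → vv.yb.v ≤ y → y ≤ vv.yk.v → bf1q2.v y x = 1 - (y - 1) * k0c.v x + sbk.v x * (y - vv.yb.v) ∧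
    bx1q2.v y x = m0c.v x + sbx.v x * (y - vv.yb.v) := by
  intro y h h1 h2
  have eb : vv.yb.v = 231 / 200 := by
    show (Cn.rt 231 200).v = _
    rw [Cn.rt_v]
    norm_num
  have ek : vv.yk.v = 13 / 10 := by
    show (Cn.rt 13 10).v = _
    rw [Cn.rt_v]
    norm_num
  rw [eb] at h1 ⊢
  rw [ek] at h2
  constructor
  · simp only [bf1q2, bf1q2_3, k0c, sbk]
    rcases eq_or_lt_of_le h1 with g | h1
    · subst g
      ((try push_cast); (repeat first | rw [if_pos (by linarith)] | rw [if_neg (by linarith)] | erw [if_pos (by linarith)] | erw [if_neg (by linarith)]); (try push_cast); (try ring1))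
    rcases eq_or_lt_of_le h2 with g | h2
    · subst g
      ((try push_cast); (repeat first | rw [if_pos (by linarith)] | rw [if_neg (by linarith)] | erw [if_pos (by linarith)] | erw [if_neg (by linarith)]); (try push_cast); (try ring1))
    · ((try push_cast); (repeat first | rw [if_pos (by linarith)] | rw [if_neg (by linarith)] | erw [if_pos (by linarith)] | erw [if_neg (by linarith)]); (try push_cast); (try ring1))
  · simp only [bx1q2, bx1q2_3, m0c, sbx]
    rcases eq_or_lt_of_le h1 with g | h1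
    · subst g
      ((try push_cast); (repeat first | rw [if_pos (by linarith)] | rw [if_neg (by linarith)] | erw [if_pos (by linarith)] | erw [if_neg (by linarith)]); (try push_cast); (try ring1))
    rcases eq_or_lt_of_le h2 with g | h2
    · subst g
      ((try push_cast); (repeat first | rw [if_pos (by linarith)] | rw [if_neg (by linarith)] | erw [if_pos (by linarith)] | erw [if_neg (by linarith)]); (try push_cast); (try ring1))
    · ((try push_cast); (repeat first | rw [if_pos (by linarith)] | rw [if_neg (by linarith)] | erw [if_pos (by linarith)] | erw [if_neg (by linarith)]); (try push_cast); (try ring1))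
theorem ka_dt105 (x : ℝ) : dt105.kv (-1 / 4) x = (489949 / 200000000 + (x - 9743 / 10000) * (-459397 / 800000)) := by
  simp only [dt105, DT.kv, sw105, sl105, sv105]
  ((try push_cast); ring1)
theorem kb_dt105 (x : ℝ) : dt105.kv (-1 / 5) x = (356037 / 100000000 + (x - 9743 / 10000) * (-23 / 160)) := by
  simp only [dt105, DT.kv, sw105, sl105, sv105]
  ((try push_cast); ring1)
theorem ka_dt106 (x : ℝ) : dt106.kv (-1 / 5) x = (356037 / 100000000 + (x - 9743 / 10000) * (-23 / 160)) := by
  simp only [dt106, DT.kv, sw106, sl106, sv106]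
  ((try push_cast); ring1)
theorem kb_dt106 (x : ℝ) : dt106.kv (-3 / 20) x = (208451 / 200000000 + (x - 9743 / 10000) * (-64499 / 20000000)) := by
  simp only [dt106, DT.kv, sw106, sl106, sv106]
  ((try push_cast); ring1)
theorem ka_dt107 (x : ℝ) : dt107.kv (-3 / 20) x = (208451 / 200000000 + (x - 9743 / 10000) * (-64499 / 20000000)) := by
  simp only [dt107, DT.kv, sw107, sl107, sv107]
  ((try push_cast); ring1)
theorem kb_dt107 (x : ℝ) : dt107.kv (-1 / 10) x = (0) := by
  simp only [dt107, DT.kv, sw107, sl107, sv107]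
  ((try push_cast); ring1)
theorem ka_dt112 (x : ℝ) : dt112.kv (-1 / 5) x = (356037 / 100000000 + (x - 9743 / 10000) * (-23 / 160)) :=
  (DT.kv_le (by simp only [Cn.rt_v, Cn.ng_v]; norm_num)).trans (ka_dt106 x)
theorem kb_dt112 (x : ℝ) : dt112.kv (-1 / 10) x = (0) :=
  (DT.kv_gt (by simp only [Cn.rt_v, Cn.ng_v]; norm_num)).trans (kb_dt107 x)
theorem ka_dt113 (x : ℝ) : dt113.kv (-1 / 4) x = (489949 / 200000000 + (x - 9743 / 10000) * (-459397 / 800000)) :=
  (DT.kv_le (by simp only [Cn.rt_v, Cn.ng_v]; norm_num)).trans (ka_dt105 x)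
theorem kb_dt113 (x : ℝ) : dt113.kv (-1 / 10) x = (0) :=
  (DT.kv_gt (by simp only [Cn.rt_v, Cn.ng_v]; norm_num)).trans (kb_dt112 x)
theorem ka_dt108 (x : ℝ) : dt108.kv (-1 / 10) x = (0) := by
  simp only [dt108, DT.kv, sl108, sv108]
  ((try push_cast); ring1)
theorem kb_dt108 (x : ℝ) : dt108.kv (1 / 10) x = (0) := by
  simp only [dt108, DT.kv, sl108, sv108]
  ((try push_cast); ring1)
theorem ka_dt109 (x : ℝ) : dt109.kv (1 / 10) x = (0) := by
  simp only [dt109, DT.kv, sw109, sl109, sv109]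
  ((try push_cast); ring1)
theorem kb_dt109 (x : ℝ) : dt109.kv (3 / 20) x = (-208451 / 200000000 + (x - 9743 / 10000) * (64499 / 20000000)) := by
  simp only [dt109, DT.kv, sw109, sl109, sv109]
  ((try push_cast); ring1)
theorem ka_dt114 (x : ℝ) : dt114.kv (-1 / 10) x = (0) :=
  (DT.kv_le (by simp only [Cn.rt_v, Cn.ng_v]; norm_num)).trans (ka_dt108 x)
theorem kb_dt114 (x : ℝ) : dt114.kv (3 / 20) x = (-208451 / 200000000 + (x - 9743 / 10000) * (64499 / 20000000)) :=
  (DT.kv_gt (by simp only [Cn.rt_v, Cn.ng_v]; norm_num)).trans (kb_dt109 x)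
theorem ka_dt110 (x : ℝ) : dt110.kv (3 / 20) x = (-208451 / 200000000 + (x - 9743 / 10000) * (64499 / 20000000)) := by
  simp only [dt110, DT.kv, sw110, sl110, sv110]
  ((try push_cast); ring1)
theorem kb_dt110 (x : ℝ) : dt110.kv (1 / 5) x = (-356037 / 100000000 + (x - 9743 / 10000) * (23 / 160)) := by
  simp only [dt110, DT.kv, sw110, sl110, sv110]
  ((try push_cast); ring1)
theorem ka_dt111 (x : ℝ) : dt111.kv (1 / 5) x = (-356037 / 100000000 + (x - 9743 / 10000) * (23 / 160)) := by
  simp only [dt111, DT.kv, sw111, sl111, sv111]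
  ((try push_cast); ring1)
theorem kb_dt111 (x : ℝ) : dt111.kv (1 / 4) x = (-489949 / 200000000 + (x - 9743 / 10000) * (459397 / 800000)) := by
  simp only [dt111, DT.kv, sw111, sl111, sv111]
  ((try push_cast); ring1)
theorem ka_dt115 (x : ℝ) : dt115.kv (3 / 20) x = (-208451 / 200000000 + (x - 9743 / 10000) * (64499 / 20000000)) :=
  (DT.kv_le (by simp only [Cn.rt_v, Cn.ng_v]; norm_num)).trans (ka_dt110 x)
theorem kb_dt115 (x : ℝ) : dt115.kv (1 / 4) x = (-489949 / 200000000 + (x - 9743 / 10000) * (459397 / 800000)) :=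
  (DT.kv_gt (by simp only [Cn.rt_v, Cn.ng_v]; norm_num)).trans (kb_dt111 x)
theorem ka_dt116 (x : ℝ) : dt116.kv (-1 / 10) x = (0) :=
  (DT.kv_le (by simp only [Cn.rt_v, Cn.ng_v]; norm_num)).trans (ka_dt114 x)
theorem kb_dt116 (x : ℝ) : dt116.kv (1 / 4) x = (-489949 / 200000000 + (x - 9743 / 10000) * (459397 / 800000)) :=
  (DT.kv_gt (by simp only [Cn.rt_v, Cn.ng_v]; norm_num)).trans (kb_dt115 x)
theorem ka_dt117 (x : ℝ) : dt117.kv (-1 / 4) x = (489949 / 200000000 + (x - 9743 / 10000) * (-459397 / 800000)) :=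
  (DT.kv_le (by simp only [Cn.rt_v, Cn.ng_v]; norm_num)).trans (ka_dt113 x)
theorem kb_dt117 (x : ℝ) : dt117.kv (1 / 4) x = (-489949 / 200000000 + (x - 9743 / 10000) * (459397 / 800000)) :=
  (DT.kv_gt (by simp only [Cn.rt_v, Cn.ng_v]; norm_num)).trans (kb_dt116 x)
theorem ko_dt105 (x : ℝ) : dt105.KOk x := trivial
theorem ko_dt106 (x : ℝ) : dt106.KOk x := trivial
theorem ko_dt107 (x : ℝ) : dt107.KOk x := trivial
theorem ko_dt112 (x : ℝ) : dt112.KOk x :=
  DT.kOk_node (v := -3 / 20) (by simp only [Cn.rt_v, Cn.ng_v]; norm_num) (kb_dt106 x) (ka_dt107 x) (by ring1) (ko_dt106 x) (ko_dt107 x)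
theorem ko_dt113 (x : ℝ) : dt113.KOk x :=
  DT.kOk_node (v := -1 / 5) (by simp only [Cn.rt_v, Cn.ng_v]; norm_num) (kb_dt105 x) (ka_dt112 x) (by ring1) (ko_dt105 x) (ko_dt112 x)
theorem ko_dt108 (x : ℝ) : dt108.KOk x := trivial
theorem ko_dt109 (x : ℝ) : dt109.KOk x := trivial
theorem ko_dt114 (x : ℝ) : dt114.KOk x :=
  DT.kOk_node (v := 1 / 10) (by simp only [Cn.rt_v, Cn.ng_v]; norm_num) (kb_dt108 x) (ka_dt109 x) (by ring1) (ko_dt108 x) (ko_dt109 x)
theorem ko_dt110 (x : ℝ) : dt110.KOk x := trivial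
theorem ko_dt111 (x : ℝ) : dt111.KOk x := trivial
theorem ko_dt115 (x : ℝ) : dt115.KOk x :=
  DT.kOk_node (v := 1 / 5) (by simp only [Cn.rt_v, Cn.ng_v]; norm_num) (kb_dt110 x) (ka_dt111 x) (by ring1) (ko_dt110 x) (ko_dt111 x)
theorem ko_dt116 (x : ℝ) : dt116.KOk x :=
  DT.kOk_node (v := 3 / 20) (by simp only [Cn.rt_v, Cn.ng_v]; norm_num) (kb_dt114 x) (ka_dt115 x) (by ring1) (ko_dt114 x) (ko_dt115 x)
theorem ko_dt117 (x : ℝ) : dt117.KOk x :=
  DT.kOk_node (v := -1 / 10) (by simp only [Cn.rt_v, Cn.ng_v]; norm_num) (kb_dt113 x) (ka_dt116 x) (by ring1) (ko_dt113 x) (ko_dt116 x)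
theorem phl0 {p x : ℝ} (h2 : p ≤ -1 / 5) : dt117.kv p x = (-7324713 / 100000000 + (x - 9743 / 10000) * (-307933 / 200000)) + (-56723 / 80000 + (x - 9743 / 10000) * (-778047 / 40000)) * p + (-13 / 8 + (x - 9743 / 10000) * (-31179 / 500)) * p ^ 2 := by
  refine (DT.kv_le (by simp only [Cn.rt_v, Cn.ng_v]; push_cast; linarith)).trans ?_
  refine (DT.kv_le (by simp only [Cn.rt_v, Cn.ng_v]; push_cast; linarith)).trans ?_
  simp only [dt105, DT.kv, sw105, sl105, sv105]
  ((try push_cast); ring1)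
theorem phl1 {p x : ℝ} (h1 : -1 / 5 < p) (h2 : p ≤ -3 / 20) : dt117.kv p x = (-130709 / 100000000 + (x - 9743 / 10000) * (-5952899 / 5000000)) + (103627 / 10000000 + (x - 9743 / 10000) * (-15960349 / 1000000)) * p + (347 / 2000 + (x - 9743 / 10000) * (-53631 / 1000)) * p ^ 2 := by
  refine (DT.kv_le (by simp only [Cn.rt_v, Cn.ng_v]; push_cast; linarith)).trans ?_
  refine (DT.kv_gt (by simp only [Cn.rt_v, Cn.ng_v]; push_cast; linarith)).trans ?_
  refine (DT.kv_le (by simp only [Cn.rt_v, Cn.ng_v]; push_cast; linarith)).trans ?_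
  simp only [dt106, DT.kv, sw106, sl106, sv106]
  ((try push_cast); ring1)
theorem phl2 {p x : ℝ} (h1 : -3 / 20 < p) (h2 : p ≤ -1 / 10) : dt117.kv p x = (417049 / 100000000 + (x - 9743 / 10000) * (-129001 / 10000000)) + (834049 / 10000000 + (x - 9743 / 10000) * (-258001 / 1000000)) * p + (417 / 1000 + (x - 9743 / 10000) * (-129 / 100)) * p ^ 2 := by
  refine (DT.kv_le (by simp only [Cn.rt_v, Cn.ng_v]; push_cast; linarith)).trans ?_
  refine (DT.kv_gt (by simp only [Cn.rt_v, Cn.ng_v]; push_cast; linarith)).trans ?_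
  refine (DT.kv_gt (by simp only [Cn.rt_v, Cn.ng_v]; push_cast; linarith)).trans ?_
  simp only [dt107, DT.kv, sw107, sl107, sv107]
  ((try push_cast); ring1)
theorem phl3 {p x : ℝ} (h1 : -1 / 10 < p) (h2 : p ≤ 1 / 10) : dt117.kv p x = (0) + (0) * p := by
  refine (DT.kv_gt (by simp only [Cn.rt_v, Cn.ng_v]; push_cast; linarith)).trans ?_
  refine (DT.kv_le (by simp only [Cn.rt_v, Cn.ng_v]; push_cast; linarith)).trans ?_
  refine (DT.kv_le (by simp only [Cn.rt_v, Cn.ng_v]; push_cast; linarith)).trans ?_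
  simp only [dt108, DT.kv, sl108, sv108]
  ((try push_cast); ring1)
theorem phl4 {p x : ℝ} (h1 : 1 / 10 < p) (h2 : p ≤ 3 / 20) : dt117.kv p x = (-417049 / 100000000 + (x - 9743 / 10000) * (129001 / 10000000)) + (834049 / 10000000 + (x - 9743 / 10000) * (-258001 / 1000000)) * p + (-417 / 1000 + (x - 9743 / 10000) * (129 / 100)) * p ^ 2 := by
  refine (DT.kv_gt (by simp only [Cn.rt_v, Cn.ng_v]; push_cast; linarith)).trans ?_
  refine (DT.kv_le (by simp only [Cn.rt_v, Cn.ng_v]; push_cast; linarith)).trans ?_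
  refine (DT.kv_gt (by simp only [Cn.rt_v, Cn.ng_v]; push_cast; linarith)).trans ?_
  simp only [dt109, DT.kv, sw109, sl109, sv109]
  ((try push_cast); ring1)
theorem phl5 {p x : ℝ} (h1 : 3 / 20 < p) (h2 : p ≤ 1 / 5) : dt117.kv p x = (130709 / 100000000 + (x - 9743 / 10000) * (5952899 / 5000000)) + (103627 / 10000000 + (x - 9743 / 10000) * (-15960349 / 1000000)) * p + (-347 / 2000 + (x - 9743 / 10000) * (53631 / 1000)) * p ^ 2 := by
  refine (DT.kv_gt (by simp only [Cn.rt_v, Cn.ng_v]; push_cast; linarith)).trans ?_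
  refine (DT.kv_gt (by simp only [Cn.rt_v, Cn.ng_v]; push_cast; linarith)).trans ?_
  refine (DT.kv_le (by simp only [Cn.rt_v, Cn.ng_v]; push_cast; linarith)).trans ?_
  simp only [dt110, DT.kv, sw110, sl110, sv110]
  ((try push_cast); ring1)
theorem phl6 {p x : ℝ} (h1 : 1 / 5 < p) (h2 : p ≤ 1 / 4) : dt117.kv p x = (7324713 / 100000000 + (x - 9743 / 10000) * (307933 / 200000)) + (-56723 / 80000 + (x - 9743 / 10000) * (-778047 / 40000)) * p + (13 / 8 + (x - 9743 / 10000) * (31179 / 500)) * p ^ 2 := by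
  refine (DT.kv_gt (by simp only [Cn.rt_v, Cn.ng_v]; push_cast; linarith)).trans ?_
  refine (DT.kv_gt (by simp only [Cn.rt_v, Cn.ng_v]; push_cast; linarith)).trans ?_
  refine (DT.kv_gt (by simp only [Cn.rt_v, Cn.ng_v]; push_cast; linarith)).trans ?_
  simp only [dt111, DT.kv, sw111, sl111, sv111]
  ((try push_cast); ring1)
theorem tvc15 {p x : ℝ} (h1 : -1 / 4 ≤ p) (h2 : p ≤ -1 / 5) : dt104.val (fun p x => kcg.v p x) p (cT p) x = (31184763 / 100000000 + (x - 9743 / 10000) * (7265281 / 5000000)) + (3226479 / 5000000 + (x - 9743 / 10000) * (285817 / 250000)) * p + (-407 / 5000 + (x - 9743 / 10000) * (16093 / 1000)) * p ^ 2 := by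
  rcases eq_or_lt_of_le h1 with h | h1
  · subst h
    refine (DT.val_le (by simp only [Cn.rt_v, Cn.ng_v]; push_cast; linarith)).trans ?_
    refine (DT.val_gt (by simp only [Cn.rt_v, Cn.ng_v]; push_cast; linarith)).trans ?_
    refine (DT.val_gt (by simp only [Cn.rt_v, Cn.ng_v]; push_cast; linarith)).trans ?_
    refine (DT.val_le (by simp only [Cn.rt_v, Cn.ng_v]; push_cast; linarith)).trans ?_
    refine (DT.val_gt (by simp only [Cn.rt_v, Cn.ng_v]; push_cast; linarith)).trans ?_
    simp only [dt48, DT.val, sw48, sl48, sv48]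
    ((try push_cast); ring1)
  ·
    refine (DT.val_le (by simp only [Cn.rt_v, Cn.ng_v]; push_cast; linarith)).trans ?_
    refine (DT.val_gt (by simp only [Cn.rt_v, Cn.ng_v]; push_cast; linarith)).trans ?_
    refine (DT.val_gt (by simp only [Cn.rt_v, Cn.ng_v]; push_cast; linarith)).trans ?_
    refine (DT.val_gt (by simp only [Cn.rt_v, Cn.ng_v]; push_cast; linarith)).trans ?_
    refine (DT.val_le (by simp only [Cn.rt_v, Cn.ng_v]; push_cast; linarith)).trans ?_
    simp only [dt49, DT.val, sw49, sl49, sv49]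
    ((try push_cast); ring1)
theorem tvc16 {p x : ℝ} (h1 : -1 / 5 ≤ p) (h2 : p ≤ -3 / 20) : dt104.val (fun p x => kcg.v p x) p (cT p) x = (24850763 / 100000000 + (x - 9743 / 10000) * (7723481 / 5000000)) + (59479 / 5000000 + (x - 9743 / 10000) * (514917 / 250000)) * p + (-16649 / 10000 + (x - 9743 / 10000) * (2298 / 125)) * p ^ 2 := by
  rcases eq_or_lt_of_le h1 with h | h1
  · subst h
    refine (DT.val_le (by simp only [Cn.rt_v, Cn.ng_v]; push_cast; linarith)).trans ?_
    refine (DT.val_gt (by simp only [Cn.rt_v, Cn.ng_v]; push_cast; linarith)).trans ?_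
    refine (DT.val_gt (by simp only [Cn.rt_v, Cn.ng_v]; push_cast; linarith)).trans ?_
    refine (DT.val_gt (by simp only [Cn.rt_v, Cn.ng_v]; push_cast; linarith)).trans ?_
    refine (DT.val_le (by simp only [Cn.rt_v, Cn.ng_v]; push_cast; linarith)).trans ?_
    simp only [dt49, DT.val, sw49, sl49, sv49]
    ((try push_cast); ring1)
  ·
    refine (DT.val_le (by simp only [Cn.rt_v, Cn.ng_v]; push_cast; linarith)).trans ?_
    refine (DT.val_gt (by simp only [Cn.rt_v, Cn.ng_v]; push_cast; linarith)).trans ?_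
    refine (DT.val_gt (by simp only [Cn.rt_v, Cn.ng_v]; push_cast; linarith)).trans ?_
    refine (DT.val_gt (by simp only [Cn.rt_v, Cn.ng_v]; push_cast; linarith)).trans ?_
    refine (DT.val_gt (by simp only [Cn.rt_v, Cn.ng_v]; push_cast; linarith)).trans ?_
    refine (DT.val_le (by simp only [Cn.rt_v, Cn.ng_v]; push_cast; linarith)).trans ?_
    simp only [dt50, DT.val, sw50, sl50, sv50]
    ((try push_cast); ring1)
theorem tvc17 {p x : ℝ} (h1 : -3 / 20 ≤ p) (h2 : p ≤ -1 / 10) : dt104.val (fun p x => kcg.v p x) p (cT p) x = (24860477 / 100000000 + (x - 9743 / 10000) * (108854 / 78125)) + (32971 / 2500000 + (x - 9743 / 10000) * (20759 / 500000)) * p + (-8303 / 5000 + (x - 9743 / 10000) * (11657 / 1000)) * p ^ 2 := by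
  rcases eq_or_lt_of_le h1 with h | h1
  · subst h
    refine (DT.val_le (by simp only [Cn.rt_v, Cn.ng_v]; push_cast; linarith)).trans ?_
    refine (DT.val_gt (by simp only [Cn.rt_v, Cn.ng_v]; push_cast; linarith)).trans ?_
    refine (DT.val_gt (by simp only [Cn.rt_v, Cn.ng_v]; push_cast; linarith)).trans ?_
    refine (DT.val_gt (by simp only [Cn.rt_v, Cn.ng_v]; push_cast; linarith)).trans ?_
    refine (DT.val_gt (by simp only [Cn.rt_v, Cn.ng_v]; push_cast; linarith)).trans ?_
    refine (DT.val_le (by simp only [Cn.rt_v, Cn.ng_v]; push_cast; linarith)).trans ?_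
    simp only [dt50, DT.val, sw50, sl50, sv50]
    ((try push_cast); ring1)
  ·
    refine (DT.val_le (by simp only [Cn.rt_v, Cn.ng_v]; push_cast; linarith)).trans ?_
    refine (DT.val_gt (by simp only [Cn.rt_v, Cn.ng_v]; push_cast; linarith)).trans ?_
    refine (DT.val_gt (by simp only [Cn.rt_v, Cn.ng_v]; push_cast; linarith)).trans ?_
    refine (DT.val_gt (by simp only [Cn.rt_v, Cn.ng_v]; push_cast; linarith)).trans ?_
    refine (DT.val_gt (by simp only [Cn.rt_v, Cn.ng_v]; push_cast; linarith)).trans ?_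
    refine (DT.val_gt (by simp only [Cn.rt_v, Cn.ng_v]; push_cast; linarith)).trans ?_
    simp only [dt51, DT.val, sw51, sl51, sv51]
    ((try push_cast); ring1)
theorem tvc18 {p x : ℝ} (h1 : -1 / 10 ≤ p) (h2 : p ≤ 1 / 10) : dt104.val (fun p x => kcg.v p x) p (cT p) x = (50927203 / 200000000 + (x - 9743 / 10000) * (1111463 / 800000)) + (2676217 / 20000000 + (x - 9743 / 10000) * (-76813 / 2000000)) * p + (-423 / 400 + (x - 9743 / 10000) * (5629 / 500)) * p ^ 2 := by
  rcases eq_or_lt_of_le h1 with h | h1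
  · subst h
    refine (DT.val_le (by simp only [Cn.rt_v, Cn.ng_v]; push_cast; linarith)).trans ?_
    refine (DT.val_gt (by simp only [Cn.rt_v, Cn.ng_v]; push_cast; linarith)).trans ?_
    refine (DT.val_gt (by simp only [Cn.rt_v, Cn.ng_v]; push_cast; linarith)).trans ?_
    refine (DT.val_gt (by simp only [Cn.rt_v, Cn.ng_v]; push_cast; linarith)).trans ?_
    refine (DT.val_gt (by simp only [Cn.rt_v, Cn.ng_v]; push_cast; linarith)).trans ?_
    refine (DT.val_gt (by simp only [Cn.rt_v, Cn.ng_v]; push_cast; linarith)).trans ?_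
    simp only [dt51, DT.val, sw51, sl51, sv51]
    ((try push_cast); ring1)
  ·
    refine (DT.val_gt (by simp only [Cn.rt_v, Cn.ng_v]; push_cast; linarith)).trans ?_
    refine (DT.val_le (by simp only [Cn.rt_v, Cn.ng_v]; push_cast; linarith)).trans ?_
    refine (DT.val_le (by simp only [Cn.rt_v, Cn.ng_v]; push_cast; linarith)).trans ?_
    refine (DT.val_le (by simp only [Cn.rt_v, Cn.ng_v]; push_cast; linarith)).trans ?_
    refine (DT.val_le (by simp only [Cn.rt_v, Cn.ng_v]; push_cast; linarith)).trans ?_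
    simp only [dt52, DT.val, sw52, sl52, sv52]
    ((try push_cast); ring1)
theorem tvc19 {p x : ℝ} (h1 : 1 / 10 ≤ p) (h2 : p ≤ 3 / 20) : dt104.val (fun p x => kcg.v p x) p (cT p) x = (12638763 / 50000000 + (x - 9743 / 10000) * (13804311 / 10000000)) + (427571 / 2500000 + (x - 9743 / 10000) * (13967 / 100000)) * p + (-3109 / 2500 + (x - 9743 / 10000) * (10367 / 1000)) * p ^ 2 := by
  rcases eq_or_lt_of_le h1 with h | h1
  · subst h
    refine (DT.val_gt (by simp only [Cn.rt_v, Cn.ng_v]; push_cast; linarith)).trans ?_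
    refine (DT.val_le (by simp only [Cn.rt_v, Cn.ng_v]; push_cast; linarith)).trans ?_
    refine (DT.val_le (by simp only [Cn.rt_v, Cn.ng_v]; push_cast; linarith)).trans ?_
    refine (DT.val_le (by simp only [Cn.rt_v, Cn.ng_v]; push_cast; linarith)).trans ?_
    refine (DT.val_le (by simp only [Cn.rt_v, Cn.ng_v]; push_cast; linarith)).trans ?_
    simp only [dt52, DT.val, sw52, sl52, sv52]
    ((try push_cast); ring1)
  ·
    refine (DT.val_gt (by simp only [Cn.rt_v, Cn.ng_v]; push_cast; linarith)).trans ?_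
    refine (DT.val_le (by simp only [Cn.rt_v, Cn.ng_v]; push_cast; linarith)).trans ?_
    refine (DT.val_le (by simp only [Cn.rt_v, Cn.ng_v]; push_cast; linarith)).trans ?_
    refine (DT.val_le (by simp only [Cn.rt_v, Cn.ng_v]; push_cast; linarith)).trans ?_
    refine (DT.val_gt (by simp only [Cn.rt_v, Cn.ng_v]; push_cast; linarith)).trans ?_
    simp only [dt53, DT.val, sw53, sl53, sv53]
    ((try push_cast); ring1)
theorem tvc20 {p x : ℝ} (h1 : 3 / 20 ≤ p) (h2 : p ≤ 1 / 5) : dt104.val (fun p x => kcg.v p x) p (cT p) x = (12360027 / 50000000 + (x - 9743 / 10000) * (885291 / 2500000)) + (19169 / 78125 + (x - 9743 / 10000) * (3455967 / 250000)) * p + (-7457 / 5000 + (x - 9743 / 10000) * (-35247 / 1000)) * p ^ 2 := by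
  rcases eq_or_lt_of_le h1 with h | h1
  · subst h
    refine (DT.val_gt (by simp only [Cn.rt_v, Cn.ng_v]; push_cast; linarith)).trans ?_
    refine (DT.val_le (by simp only [Cn.rt_v, Cn.ng_v]; push_cast; linarith)).trans ?_
    refine (DT.val_le (by simp only [Cn.rt_v, Cn.ng_v]; push_cast; linarith)).trans ?_
    refine (DT.val_le (by simp only [Cn.rt_v, Cn.ng_v]; push_cast; linarith)).trans ?_
    refine (DT.val_gt (by simp only [Cn.rt_v, Cn.ng_v]; push_cast; linarith)).trans ?_
    simp only [dt53, DT.val, sw53, sl53, sv53]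
    ((try push_cast); ring1)
  ·
    refine (DT.val_gt (by simp only [Cn.rt_v, Cn.ng_v]; push_cast; linarith)).trans ?_
    refine (DT.val_le (by simp only [Cn.rt_v, Cn.ng_v]; push_cast; linarith)).trans ?_
    refine (DT.val_le (by simp only [Cn.rt_v, Cn.ng_v]; push_cast; linarith)).trans ?_
    refine (DT.val_gt (by simp only [Cn.rt_v, Cn.ng_v]; push_cast; linarith)).trans ?_
    refine (DT.val_le (by simp only [Cn.rt_v, Cn.ng_v]; push_cast; linarith)).trans ?_
    simp only [dt54, DT.val, sw54, sl54, sv54]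
    ((try push_cast); ring1)
theorem tvc21 {p x : ℝ} (h1 : 1 / 5 ≤ p) (h2 : p ≤ 1 / 4) : dt104.val (fun p x => kcg.v p x) p (cT p) x = (477201 / 2000000 + (x - 9743 / 10000) * (-108261 / 1250000)) + (1656817 / 5000000 + (x - 9743 / 10000) * (9115547 / 500000)) * p + (-2133 / 1250 + (x - 9743 / 10000) * (-9253 / 200)) * p ^ 2 := by
  rcases eq_or_lt_of_le h1 with h | h1
  · subst h
    refine (DT.val_gt (by simp only [Cn.rt_v, Cn.ng_v]; push_cast; linarith)).trans ?_
    refine (DT.val_le (by simp only [Cn.rt_v, Cn.ng_v]; push_cast; linarith)).trans ?_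
    refine (DT.val_le (by simp only [Cn.rt_v, Cn.ng_v]; push_cast; linarith)).trans ?_
    refine (DT.val_gt (by simp only [Cn.rt_v, Cn.ng_v]; push_cast; linarith)).trans ?_
    refine (DT.val_le (by simp only [Cn.rt_v, Cn.ng_v]; push_cast; linarith)).trans ?_
    simp only [dt54, DT.val, sw54, sl54, sv54]
    ((try push_cast); ring1)
  ·
    refine (DT.val_gt (by simp only [Cn.rt_v, Cn.ng_v]; push_cast; linarith)).trans ?_
    refine (DT.val_le (by simp only [Cn.rt_v, Cn.ng_v]; push_cast; linarith)).trans ?_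
    refine (DT.val_le (by simp only [Cn.rt_v, Cn.ng_v]; push_cast; linarith)).trans ?_
    refine (DT.val_gt (by simp only [Cn.rt_v, Cn.ng_v]; push_cast; linarith)).trans ?_
    refine (DT.val_gt (by simp only [Cn.rt_v, Cn.ng_v]; push_cast; linarith)).trans ?_
    simp only [dt55, DT.val, sw55, sl55, sv55]
    ((try push_cast); ring1)
theorem ph_ (x : ℝ) : ∀ u, |u| ≤ vv.k2.v → dd.tF x (-u) - dd.tF x u = m0c.v x * u + dt117.kv u x := by
  intro u h
  have h : |u| ≤ 1 / 4 := by
    refine h.trans_eq ?_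
    show (Cn.rt 1 4).v = _
    rw [Cn.rt_v]
    norm_num
  obtain ⟨h1, h2⟩ := abs_le.1 h
  show dt104.val (fun p x => kcg.v p x) (-u) (cT (-u)) x - dt104.val (fun p x => kcg.v p x) u (cT u) x = _
  rcases le_or_gt u (-1 / 5) with g0 | g1000
  ·
    rw [tvc21 (p := -u) (by linarith) (by linarith), tvc15 (p := u) (by linarith) (by linarith), phl0 g0]
    simp only [m0c]
    push_cast
    ring
  rcases le_or_gt u (-3 / 20) with g1 | g1001
  ·
    rw [tvc20 (p := -u) (by linarith) (by linarith), tvc16 (p := u) (by linarith) (by linarith), phl1 g1000 g1]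
    simp only [m0c]
    push_cast
    ring
  rcases le_or_gt u (-1 / 10) with g2 | g1002
  ·
    rw [tvc19 (p := -u) (by linarith) (by linarith), tvc17 (p := u) (by linarith) (by linarith), phl2 g1001 g2]
    simp only [m0c]
    push_cast
    ring
  rcases le_or_gt u (1 / 10) with g3 | g1003
  ·
    rw [tvc18 (p := -u) (by linarith) (by linarith), tvc18 (p := u) (by linarith) (by linarith), phl3 g1002 g3]
    simp only [m0c]
    push_cast
    ring
  rcases le_or_gt u (3 / 20) with g4 | g1004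
  ·
    rw [tvc17 (p := -u) (by linarith) (by linarith), tvc19 (p := u) (by linarith) (by linarith), phl4 g1003 g4]
    simp only [m0c]
    push_cast
    ring
  rcases le_or_gt u (1 / 5) with g5 | g1005
  ·
    rw [tvc16 (p := -u) (by linarith) (by linarith), tvc20 (p := u) (by linarith) (by linarith), phl5 g1004 g5]
    simp only [m0c]
    push_cast
    ring
  ·
    rw [tvc15 (p := -u) (by linarith) (by linarith), tvc21 (p := u) (by linarith) (by linarith), phl6 g1005 (by linarith)]
    simp only [m0c]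
    push_cast
    ring
theorem kqf_ {y : ℝ} (x : ℝ) (h : OnC (0 : Fin 7) 2 y) : kqf.v y x * c1g.v y = (y - 1) * kcg.v (c1g.v y) x := by
  have h0 : 0 ≤ c1g.v y := by rw [c1g_v]; exact c1n_nn y
  simp only [kqf]
  (try push_cast)
  split_ifs with hh
  · rw [kcl8 (p := c1g.v y) (by linarith) (by linarith)]
    ring
  · have hc : c1g.v y ≠ 0 := by
      intro e
      rw [e] at hh
      exact hh (by norm_num)
    have hi := inv_mul_cancel₀ hc
    linear_combination ((y - 1) * kcg.v (c1g.v y) x) * hi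
theorem sM_ (x : ℝ) : ∀ y, OnC (0 : Fin 7) 2 y → c1n y < crv PP 1 2 y →
    (1 + skm.v y x) * (crv PP 1 2 y - c1n y) = tK 1 2 y x - tK 0 2 y x := by
  intro y h hlt
  rw [yK12 h.1, yK02 h]
  rw [ecv1q2, ← c1g_v] at hlt ⊢
  have hd : 0 < cv1p.v y - c1g.v y := sub_pos.2 hlt
  have hi := inv_mul_cancel₀ hd.ne'
  have hb : |c1g.v y| ≤ 1 / 2 := by rw [c1g_v]; exact bnd_O h
  have eo := odd (x := x) hb
  have hk := kqf_ x h
  simp only [skm, kf1q2, kf0q2, eo]
  (try push_cast)
  linear_combination (cv1p.v y * ((bf1q2.v y x - 1) + kqf.v y x)) * hi + hk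
theorem ok (x : ℝ) : tt.Ok PP tK tL x where
  i0 := rfl
  il := rfl
  rl := by
    show 1 < PP.ρ 5
    have e : PP.ρ 5 = 17 / 10 := rfl
    rw [e]
    norm_num
  ok := dok x
  kh := rfl
  odd := fun p h => odd h
  K0 := K0_ x
  L0 := L0_ x
  Kn := Kn_ x
  Ln := Ln_ x
  f0 := f0_
  fn := fn_
  sK0 := sK0_ x
  sX0 := sX0_ x
  sKn := sKn_ x
  sXn := sXn_ x
  k1 := by
    show 0 ≤ (Cn.rt 1 10).v ∧ (Cn.rt 1 10).v ≤ 1 / 2
    rw [Cn.rt_v]
    constructor <;> norm_num
  kn := kn_ x
  tn := tn_ x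
  vK := vK_ x
  vX := vX_ x
  rK := rK_ x
  rX := rX_ x
  yb := by
    show 0 ≤ (Cn.rt 231 200).v ∧ 1 ≤ 3 / 4 * (Cn.rt 231 200).v ^ 2
    rw [Cn.rt_v]
    constructor <;> norm_num
  flat := flat_ x
  abk := abk_ x
  phk := ko_dt117 x
  ph := ph_ x
  sM := sM_ x
  yz := by
    show (Cn.rt 577 500).v ≤ (Cn.rt 577 500).v ∧ 0 ≤ (Cn.rt 577 500).v ∧ 1 ≤ 3 / 4 * (Cn.rt 577 500).v ^ 2 + (Cn.rt 1 10).v ^ 2
    simp only [Cn.rt_v]
    refine ⟨?_, ?_, ?_⟩ <;> norm_num
theorem okx {x : ℝ} (hx : ((1045395039 : ℕ) : ℝ) / S ≤ x) (hx' : x ≤ (((1045395039 : ℕ) : ℝ) + (1503240 : ℕ)) / S) : tt.Ok PP tK tL x := ok x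

end Pool.Agent.Strip051.G.I9736_9750.Tab.St
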