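import Pool.Agent.Strip051.G.I9736_9750.StH
import Pool.Agent.Strip051.G.I9736_9750.StF

/-! # Unit strips 1 (generated) -/

set_option linter.all false
set_option maxRecDepth 100000

namespace Pool.Agent.Strip051.G.I9736_9750.Tab.St.C

open Pool.Agent.Strip051.PB Pool.Agent.Strip051.PB.T Pool.Agent.StripNear Pool.Agent.Strip051.LC
open Pool.Agent.Strip051.G.I9736_9750.Tab Pool.Agent.Strip051.G.I9736_9750.Tab.St

noncomputable def cut_B00pm_102_s1 : Cut := Cut.of [[⟨4, 0, 0, 1100585369⟩], [⟨0, 1, 0, 8388608⟩, ⟨1, 0, 0, 8388608⟩, ⟨2, 1, 0, 8388608⟩], [⟨0, 0, 1, 46137344⟩, ⟨1, 1, 2, 46137344⟩, ⟨2, 1, 0, 1048576⟩, ⟨0, 0, 0, 1056440320⟩, ⟨0, 1, 0, 33457795⟩, ⟨1, 0, 0, 33457795⟩, ⟨1, 1, 0, 1056440320⟩]]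

noncomputable def xt_B00pm_102_s1 : Ext := strExt dd false true false .u0 .u2 .u0m .npp 1 0 2 rfl rfl gf0 vv ndB0q1 ndB0q2

noncomputable def f_B00pm_102_s1 : ℕ → ℕ → ℕ → ℕ → Bool := onCell 536870912 536870912 0 536870912 1045395039 1503240
    (rowF 0 false true false .npp 1 0 2 (qsf 536870912 536870912 0 536870912 0) ndB0q1 ndB0q2 pcB0 cut_B00pm_102_s1 xt_B00pm_102_s1)

def k0_B00pm_102_s1 : ∃ t, chk3 f_B00pm_102_s1 t 2 1 1 = true :=
  ⟨(b (a (b (l 2) (l 6)) (b (a (b (a (l 531342351) (l 3)) (a (b (l 531614223) (a (l 2) (l 531617039))) (b (a (l 531187471) (l 3)) (a (l 531348239) (l 531107087))))) (a (b (l 3) (b (l 3) (l 530793231))) (l 3))) (a (b (a (l 6) (b (a (l 6) (l 531257615)) (l 6))) (l 6)) (b (a (b (a (l 531054095) (l 530877199)) (l 530839567)) (b (l 530387727) (l 530824719))) (a (l 6) (b (a (l 6) (l 530935567)) (l 6))))))) (l 6)), by decide +kernel⟩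

def k1_B00pm_102_s1 : ∃ t, chk3 f_B00pm_102_s1 t 3 2 1 = true :=
  ⟨(a (b (l 3) (a (b (a (a (l 530587663) (l 3)) (l 3)) (a (a (b (l 530846223) (l 6)) (b (l 530768399) (l 530600719))) (b (l 529950479) (l 529656335)))) (l 3))) (l 3)), by decide +kernel⟩

def k2_B00pm_102_s1 : ∃ t, chk3 f_B00pm_102_s1 t 6 3 1 = true :=
  ⟨(b (a (b (b (a (l 6) (a (l 529660943) (l 528959503))) (l 6)) (l 6)) (b (a (b (a (l 528196111) (l 527366159)) (b (a (l 527849487) (l 526981135)) (a (l 6) (b (l 526767375) (l 526615823))))) (b (l 3) (a (b (a (l 526284303) (l 3)) (a (b (l 526052367) (l 525887759)) (b (l 525546767) (l 525372431)))) (b (l 3) (a (l 524926991) (l 3)))))) (a (l 6) (b (b (a (a (l 525624591) (l 525093647)) (a (l 524538895) (l 523958287))) (a (l 6) (a (l 524108559) (l 523501327)))) (a (l 6) (b (l 6) (l 6))))))) (l 6)), by decide +kernel⟩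

def k3_B00pm_102_s1 : ∃ t, chk3 f_B00pm_102_s1 t 7 6 1 = true :=
  ⟨(b (l 3) (a (a (b (a (a (l 523110671) (l 522458639)) (l 3)) (a (b (a (l 522323215) (l 521619983)) (a (l 6) (l 520972047))) (b (a (l 520880655) (l 3)) (a (l 520188175) (l 519361551))))) (a (b (l 3) (a (b (l 3) (l 518488591)) (l 3))) (l 3))) (l 3))), by decide +kernel⟩

def k4_B00pm_102_s1 : ∃ t, chk3 f_B00pm_102_s1 t 14 7 1 = true :=
  ⟨(b (a (b (a (l 6) (b (a (l 6) (l 518523407)) (l 6))) (l 6)) (a (b (b (a (l 517589263) (l 516599311)) (a (b (l 516835343) (l 6)) (l 515495951))) (l 6)) (b (b (a (l 515548687) (l 3)) (a (l 514360079) (a (l 513481487) (l 512864015)))) (b (a (b (l 513364751) (l 6)) (b (a (l 512375311) (l 511757839)) (a (l 16722968) (l 511059983)))) (a (l 6) (b (l 510595855) (l 6))))))) (l 6)), by decide +kernel⟩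

def k5_B00pm_102_s1 : ∃ t, chk3 f_B00pm_102_s1 t 15 14 1 = true :=
  ⟨(b (l 3) (a (a (a (b (b (a (l 511145999) (l 3)) (a (l 510411791) (l 509747471))) (b (a (l 509602063) (l 508897807)) (a (l 6) (l 507956495)))) (b (a (b (l 3) (l 509056783)) (l 3)) (a (b (l 508167183) (l 507185423)) (b (a (l 507616783) (l 3)) (a (l 506606095) (l 506205711)))))) (a (b (l 3) (a (b (l 3) (l 505579535)) (l 3))) (l 3))) (l 3))), by decide +kernel⟩

def k6_B00pm_102_s1 : ∃ t, chk3 f_B00pm_102_s1 t 30 15 1 = true :=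
  ⟨(b (a (b (a (l 6) (b (a (l 506105615) (a (l 505498895) (l 505081615))) (a (l 6) (l 504063503)))) (l 6)) (b (a (a (b (b (l 504729103) (l 504133391)) (a (l 503433487) (l 503005455))) (b (a (b (l 504119567) (l 503517967)) (b (l 503701007) (l 503097359))) (a (l 502581007) (l 502162703)))) (a (b (a (b (l 3) (l 502681103)) (l 3)) (a (l 501753103) (l 501355791))) (b (l 3) (a (l 500974351) (a (l 500711695) (l 500538127)))))) (b (a (a (l 6) (a (l 501285647) (b (l 501208591) (l 6)))) (a (b (a (l 500817167) (l 500445711)) (a (l 16650416) (l 499847951))) (a (b (b (l 500243983) (l 499958031)) (l 499537167)) (b (b (a (l 500008975) (l 499860751)) (a (l 499736847) (l 499593487))) (a (l 499341071) (l 499217679)))))) (a (l 6) (a (b (a (l 6) (l 499276303)) (l 6)) (a (b (l 499016207) (l 6)) (a (l 498662159) (l 498599695)))))))) (l 6)), by decide +kernel⟩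

def k7_B00pm_102_s1 : ∃ t, chk3 f_B00pm_102_s1 t 31 30 1 = true :=
  ⟨(b (l 3) (a (b (a (a (a (b (b (a (l 499712527) (l 3)) (l 499382287)) (l 499043087)) (b (l 3) (l 498885135))) (a (b (l 3) (l 498810383)) (l 3))) (l 3)) (a (a (a (b (l 498672399) (l 498430735)) (b (l 498621967) (l 498524943))) (a (a (l 498660111) (l 498769167)) (a (l 498919695) (l 499115791)))) (b (l 3) (a (a (a (l 499664911) (l 500053007)) (a (l 500515087) (l 3))) (l 3))))) (l 3))), by decide +kernel⟩

def k8_B00pm_102_s1 : ∃ t, chk3 f_B00pm_102_s1 t 124 62 1 = true :=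
  ⟨(b (a (b (a (b (l 16602544) (l 6)) (b (l 16680320) (l 16614344))) (a (l 6) (b (b (l 16596664) (l 6)) (l 6)))) (a (b (a (l 499016975) (l 499315215)) (b (l 16649336) (b (a (l 6) (l 16621624)) (l 6)))) (a (b (l 499677199) (l 500764431)) (b (l 500110351) (l 501429775))))) (b (a (l 6) (b (a (l 6) (b (a (a (l 6) (l 16626040)) (l 16640688)) (a (l 6) (a (b (l 16629216) (l 6)) (l 16637008))))) (l 6))) (l 6))), by decide +kernel⟩

def k9_B00pm_102_s1 : ∃ t, chk3 f_B00pm_102_s1 t 125 124 1 = true :=
  ⟨(a (a (a (b (l 500622863) (l 502203919)) (b (l 501224719) (l 503100175))) (a (b (l 501926927) (a (l 503868175) (l 504423183))) (b (l 502742031) (a (l 505018383) (l 505656591))))) (a (a (b (l 503684367) (a (l 506340367) (l 507072783))) (b (a (l 3) (l 3)) (a (l 507857423) (l 508697615)))) (b (l 3) (a (a (l 509596943) (l 510559503)) (b (l 3) (a (l 513011471) (a (l 513911567) (b (l 3) (b (l 3) (b (l 3) (l 516021007))))))))))), by decide +kernel⟩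

def k10_B00pm_102_s1 : ∃ t, chk3 f_B00pm_102_s1 t 250 250 1 = true :=
  ⟨(a (b (a (l 16676728) (b (l 16678784) (l 16671040))) (b (a (b (a (a (l 16638560) (l 16643568)) (l 16651016)) (a (l 6) (a (b (l 16645872) (a (l 6) (l 16645416))) (l 16650024)))) (l 16664048)) (a (a (l 6) (b (b (a (l 6) (b (l 16647968) (a (l 6) (l 16648440)))) (l 6)) (l 6))) (b (a (a (b (l 16652616) (b (l 16651464) (a (l 6) (l 16651976)))) (l 16656880)) (l 16664360)) (a (b (a (b (a (l 6) (b (a (l 6) (l 16652064)) (l 6))) (l 6)) (b (a (a (l 16653152) (l 16654432)) (l 16656328)) (a (b (a (l 16652592) (l 16653896)) (l 16652848)) (b (l 16655808) (a (l 16654824) (l 16656104)))))) (a (l 6) (a (l 6) (b (b (a (l 16654440) (l 16655752)) (l 16654712)) (l 16654128))))) (a (b (l 16659776) (b (a (b (l 16657672) (a (l 16656696) (l 16657976))) (l 16660048)) (a (b (a (l 16656320) (l 16657640)) (l 16656600)) (b (l 16659560) (a (l 16658592) (l 16659888)))))) (l 16664152))))))) (b (a (b (l 16697032) (l 16689728)) (b (l 16714512) (l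 16707632))) (a (b (l 16683264) (l 16677784)) (b (l 16701688) (l 16696824))))), by decide +kernel⟩

def k11_B00pm_102_s1 : ∃ t, chk3 f_B00pm_102_s1 t 251 250 1 = true :=
  ⟨(a (b (a (b (c (l 16754112) (l 16728840)) (l 16724520)) (b (b (l 16758376) (l 16744576)) (b (l 16741520) (l 16738736)))) (a (b (l 16719072) (l 16714824)) (a (b (l 16731248) (l 16727440)) (b (l 16738872) (l 16735352))))) (a (b (b (a (l 512914447) (b (l 513728271) (l 16761376))) (a (l 16750704) (b (l 16758504) (l 16755944)))) (a (b (l 16746056) (l 16742800)) (b (b (l 16753712) (l 16751832)) (l 16749736)))) (a (b (b (b (b (l 514784271) (l 515201551)) (a (l 16765808) (l 516189455))) (a (l 516836623) (l 517567247))) (b (b (l 16759768) (l 16757992)) (l 16766568))) (b (a (b (b (a (l 515828239) (l 516169743)) (l 516893711)) (l 518322447)) (l 518101519)) (a (l 521522447) (l 522425615)))))), by decide +kernel⟩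

def k12_B00pm_102_s1 : ∃ t, chk3 f_B00pm_102_s1 t 500 502 1 = true :=
  ⟨(b (a (l 6) (a (l 6) (b (b (a (a (l 16655664) (b (a (l 16658040) (l 16659376)) (l 16657976))) (b (a (b (l 16661488) (a (l 16660520) (l 16661816))) (l 16663880)) (a (l 16660656) (b (a (l 16662800) (l 16664080)) (a (l 16662472) (b (l 16663864) (l 16663712))))))) (l 16658256)) (l 16656192)))) (l 6)), by decide +kernel⟩

def k13_B00pm_102_s1 : ∃ t, chk3 f_B00pm_102_s1 t 501 1004 1 = true :=
  ⟨(a (b (a (b (l 16669912) (a (b (a (b (a (b (l 16664856) (l 16664704)) (l 16666064)) (a (l 16664456) (b (l 16665856) (l 16665704)))) (l 16667832)) (a (l 16664632) (b (a (b (l 16666864) (l 16666720)) (l 16668080)) (a (l 16666480) (b (l 16667880) (l 16667736)))))) (l 16671376))) (l 16679376)) (a (b (a (l 16665016) (b (a (b (a (l 16668832) (l 16670128)) (l 16669200)) (a (b (l 16671400) (l 16671160)) (l 16672552))) (a (l 16668744) (b (a (l 16670904) (b (l 16672272) (l 16672152))) (l 16671280))))) (l 16666512)) (b (a (a (b (l 16674456)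 (a (b (l 16673488) (b (l 16673320) (l 16673200))) (l 16674648))) (l 16676760)) (l 16680528)) (a (b (a (b (a (l 16673000) (b (l 16674376) (l 16674264))) (l 16673400)) (b (l 16676240) (a (b (l 16675448) (l 16675336)) (l 16676672)))) (a (l 16672992) (b (a (l 16675136) (b (l 16676520) (l 16676408))) (l 16675552)))) (a (b (l 16678672) (b (l 16678384) (a (b (l 16677608) (l 16677496)) (l 16678840)))) (l 16681008)))))) (l 16693208)), by decide +kernel⟩

def k14_B00pm_102_s1 : ∃ t, chk3 f_B00pm_102_s1 t 501 1005 1 = true :=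
  ⟨(a (a (b (l 16664808) (l 6)) (b (b (a (l 16673568) (b (a (b (a (l 16677312) (b (l 16678696) (l 16678584))) (l 16677736)) (b (l 16680576) (a (b (l 16679800) (l 16679688)) (l 16702016)))) (a (l 16677384) (a (l 16679400) (b (l 16680856) (l 16680632)))))) (l 16675328)) (l 16674032))) (b (a (b (a (b (l 16684288) (a (b (a (b (l 16682200) (l 16682120)) (l 16683440)) (a (l 16681976) (b (l 16683328) (l 16683248)))) (l 16685264))) (l 16689168)) (a (b (a (l 16682328) (b (a (b (l 16684456) (l 16684376)) (l 16685696)) (a (l 16684240) (b (l 16685600) (l 16685520))))) (l 16683272)) (b (l 16688792) (a (b (a (b (l 16686744) (l 16686672)) (l 16687992)) (a (l 16686536) (b (a (l 16687584) (l 16688232)) (l 16687832)))) (l 16689840))))) (l 16696368)) (a (a (l 16682352) (b (b (a (l 16686952) (b (a (b (a (l 16688752) (l 16689400)) (l 16689000)) (l 16690328)) (a (l 16688880) (b (a (l 16689928) (l 16690584)) (l 16690184))))) (l 16687968)) (l 16687520))) (b (a (b (a (a (b (l 16691600) (b (l 16691536) (l 16691488)))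 (l 16692816)) (l 16694704)) (a (b (a (b (l 16691440) (l 16691368)) (b (l 16692728) (a (l 16692368) (l 16693008)))) (a (l 16691264) (l 16692600))) (a (b (l 16693976) (b (l 16693928) (a (l 16693568) (l 16694216)))) (l 16695208)))) (l 16698392)) (a (b (a (l 16691728) (b (a (l 16693808) (b (l 16695136) (a (l 16694776) (l 16695432)))) (l 16694352))) (l 16692832)) (b (a (b (l 16697024) (a (b (l 16696360) (a (l 16696000) (l 16696656))) (l 16697616))) (l 16699512)) (a (b (a (l 16696248) (b (a (l 16697272) (l 16697912)) (l 16708048))) (l 16696816)) (b (l 16699480) (a (b (a (l 16698512) (l 16699152)) (l 16698800)) (l 16700096)))))))))), by decide +kernel⟩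

def k15_B00pm_102_s1 : ∃ t, chk3 f_B00pm_102_s1 t 250 503 1 = true :=
  ⟨(a (l 6) (b (a (a (l 6) (l 16692824)) (b (a (l 16683912) (a (l 16692296) (b (a (l 16696584) (b (b (a (l 16698736) (b (a (l 16699760) (l 16700400)) (l 16700056))) (l 16699320)) (l 16699208))) (l 16697648)))) (a (l 16683032) (l 16694536)))) (a (l 6) (a (l 6) (b (l 16694368) (l 6)))))), by decide +kernel⟩

def k16_B00pm_102_s1 : ∃ t, chk3 f_B00pm_102_s1 t 1004 502 1 = true :=
  ⟨(b (l 16732912) (l 16731600)), by decide +kernel⟩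

def k17_B00pm_102_s1 : ∃ t, chk3 f_B00pm_102_s1 t 1004 2012 1 = true :=
  ⟨(a (b (a (b (a (b (l 16701976) (a (b (a (l 16701016) (l 16701664)) (l 16701312)) (b (l 16702616) (l 16702616)))) (l 16704496)) (a (b (a (l 16701264) (b (a (l 16702280) (l 16702936)) (l 16702584))) (l 16701872)) (b (a (b (l 16703888) (a (l 16703576) (l 16704216))) (l 16705152)) (a (b (a (l 16703560) (l 16704224)) (l 16703872)) (b (l 16705176) (a (l 16704864) (l 16705504))))))) (l 16708248)) (a (a (l 16701744) (b (a (l 16703816) (b (l 16705176) (l 16705136))) (l 16704424))) (b (a (b (a (b (l 16706472) (a (l 16706160) (l 16706808))) (l 16707744)) (a (l 16706480) (b (l 16707776) (a (l 16707472) (l 16708120))))) (l 16709640)) (a (l 16707112) (b (a (b (a (l 16708784) (l 16709416)) (a (l 16708784) (l 16709440))) (l 16710376)) (a (l 16709120) (b (a (l 16710112) (l 16710744)) (a (l 16710120) (l 16710776))))))))) (a (l 16713280) (l 16718136))), by decide +kernel⟩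

def k18_B00pm_102_s1 : ∃ t, chk3 f_B00pm_102_s1 t 1004 2013 1 = true :=
  ⟨(a (l 16705736) (b (a (b (a (b (a (b (a (l 16711448) (l 16712088)) (l 16711792)) (l 16713048)) (a (l 16711800) (b (a (l 16712800) (l 16713440)) (l 16713144)))) (a (b (l 16714296) (b (l 16714384) (l 16714432))) (l 16715600))) (a (l 16712512) (b (a (b (a (l 16714160) (l 16714808)) (l 16714504)) (b (l 16715752) (a (l 16715488) (l 16716128)))) (a (l 16714536) (b (a (l 16715528) (l 16716184)) (l 16715880)))))) (a (b (l 16717448) (b (l 16717648) (a (b (l 16717128) (a (l 16716872) (l 16717512))) (l 16718408)))) (l 16720040))) (a (l 16713992) (b (a (b (a (b (a (l 16716912) (l 16717568)) (l 16717272)) (b (l 16718512) (a (l 16718264) (l 16718904)))) (l 16717992)) (b (l 16720416) (a (b (l 16719920) (a (l 16719672) (l 16720312))) (l 16721208)))) (a (l 16718104) (b (a (l 16720064) (b (a (l 16721024) (l 16721648)) (a (l 16721088) (l 16721736)))) (l 16720824))))))), by decide +kernel⟩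

def k19_B00pm_102_s1 : ∃ t, chk3 f_B00pm_102_s1 t 1004 1007 1 = true :=
  ⟨(a (b (l 16705976) (l 16706616)) (b (l 16738192) (l 16718312))), by decide +kernel⟩

def k20_B00pm_102_s1 : ∃ t, chk3 f_B00pm_102_s1 t 1005 502 1 = true :=
  ⟨(b (b (l 16729680) (l 16729016)) (l 16749848)), by decide +kernel⟩

def k21_B00pm_102_s1 : ∃ t, chk3 f_B00pm_102_s1 t 1005 1006 1 = true :=
  ⟨(a (b (l 16725240) (a (b (l 16723680) (b (l 16724184) (a (b (l 16723240) (a (b (a (l 16722448) (l 16723080)) (a (l 16722512) (l 16723168))) (l 16724056))) (l 16725800)))) (l 16728816))) (l 16735016)), by decide +kernel⟩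

def k22_B00pm_102_s1 : ∃ t, chk3 f_B00pm_102_s1 t 1005 1007 1 = true :=
  ⟨(b (a (b (a (b (a (b (a (l 16722928) (b (a (l 16723888) (l 16724520)) (a (l 16723952) (l 16724608)))) (l 16723712)) (b (l 16726112) (a (b (a (l 16725336) (l 16725968)) (l 16725736)) (l 16726952)))) (a (l 16723912) (b (a (l 16725840) (b (a (l 16726792) (l 16727432)) (l 16727200))) (l 16726648)))) (b (l 16729896) (a (b (a (b (l 16728368) (a (l 16728176) (l 16728800))) (l 16729656)) (a (b (a (l 16728272) (l 16728912)) (l 16728680)) (b (l 16729848) (a (l 16729656) (l 16730288))))) (l 16731616)))) (a (l 16725704) (b (a (b (a (l 16728808) (b (a (l 16729752) (l 16730408)) (l 16730176))) (l 16729648)) (b (a (b (l 16731336) (a (l 16731152) (l 16731784))) (l 16732640)) (a (b (l 16752552) (l 16731680)) (b (l 16732848) (a (l 16732664) (l 16733296)))))) (l 16752240)))) (b (l 16737328) (a (b (l 16735816) (a (b (a (b (l 16734368) (a (l 16734184) (l 16734824))) (l 16735672)) (a (l 16734680) (b (a (l 16735592) (l 16736216)) (a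 (l 16735720) (l 16736368))))) (l 16737648))) (l 16740912)))) (a (a (l 16726824) (l 16732360)) (b (a (b (a (l 16735680) (b (a (b (a (l 16737136) (l 16737760)) (a (l 16737272) (l 16737920))) (l 16738760)) (a (l 16737784) (b (a (l 16738696) (l 16739320)) (l 16739160))))) (l 16737504)) (b (l 16762920) (a (b (a (b (a (l 16740272) (l 16740904)) (l 16740736)) (b (l 16741816) (l 16762968))) (a (l 16740944) (b (a (l 16741856) (l 16742488)) (l 16742328)))) (b (l 16743720) (a (b (l 16743408) (a (l 16743288) (l 16743904))) (l 16744712)))))) (a (l 16738328) (b (a (l 16742040) (b (a (b (a (l 16743456) (l 16744096)) (l 16743936)) (b (l 16745016) (a (l 16744904) (l 16745520)))) (a (l 16744168) (b (a (l 16745072) (l 16745712)) (l 16745560))))) (l 16743992)))))), by decide +kernel⟩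

def k23_B00pm_102_s1 : ∃ t, chk3 f_B00pm_102_s1 t 503 251 1 = true :=
  ⟨(b (a (a (b (l 16741176) (l 16741408)) (b (l 16748440) (l 16749104))) (a (b (l 16755112) (l 16756192)) (a (l 526604047) (l 527702287)))) (b (a (b (l 16747088) (l 16749008)) (a (l 16759616) (l 16766520))) (a (b (l 16751584) (a (b (l 16749416) (a (b (a (b (l 16746920) (a (b (l 16746632) (a (l 16746528) (l 16747152))) (l 16747944))) (l 16749512)) (a (b (a (l 16747112) (b (l 16748272) (a (l 16748168) (l 16748792)))) (l 16748112)) (b (l 16750184) (a (b (l 16760408) (a (l 16749824) (l 16750448))) (l 16751240))))) (l 16753488))) (l 16759320))) (a (l 16765760) (l 16773312))))), by decide +kernel⟩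

def k24_B00pm_102_s1 : ∃ t, chk3 f_B00pm_102_s1 t 63 62 1 = true :=
  ⟨(b (l 3) (a (a (a (b (a (a (b (l 519263503) (b (l 522609167) (l 525134095))) (b (l 520917007) (a (l 525338895) (l 526382863)))) (a (b (l 522695183) (a (l 527465487) (l 528588559))) (b (l 3) (a (l 529753871) (l 530962959))))) (a (b (a (a (l 528841231) (l 530022159)) (a (l 531247119) (l 532517903))) (a (b (l 16772632) (l 16776640)) (b (b (l 16776320) (l 16776624)) (l 16776688)))) (b (a (a (l 533836559) (l 535204879)) (a (l 536285967) (l 536289551))) (a (b (b (l 16776672) (l 16776712)) (l 16776768)) (b (b (l 16776792) (l 16776816)) (a (l 16776848) (l 16776896))))))) (b (a (a (b (l 3) (a (l 532217615) (l 533520143))) (l 3)) (l 3)) (a (b (a (a (l 536297487) (l 536310287)) (a (l 536327439) (l 536349199))) (b (a (b (l 536507151) (l 16776936)) (a (l 536586255) (l 536617743))) (a (a (l 16776952) (l 16777008)) (b (l 536715023) (l 16777104))))) (b (a (a (l 536375567) (l 536406543)) (a (l 536441871) (l 536481807))) (a (b (b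 (l 536627727) (a (l 16777112) (l 536741647))) (a (l 536797199) (l 536837903))) (b (b (l 536715279) (a (l 536787215) (b (l 536816143) (l 536854799)))) (a (l 536610319) (b (l 536896015) (l 16777256))))))))) (a (b (l 3) (b (l 3) (a (a (b (a (b (l 536791567) (a (l 536883471) (b (l 536877583) (l 536908303)))) (b (l 3) (l 536956687))) (a (a (l 536958735) (l 536998671)) (l 537058063))) (b (b (l 3) (a (l 537044239) (l 3))) (a (l 537145359) (l 537232399)))) (a (b (l 3) (a (l 537319183) (l 3))) (l 3))))) (l 3))) (l 3))), by decide +kernel⟩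

def k25_B00pm_102_s1 : ∃ t, chk3 f_B00pm_102_s1 t 124 126 1 = true :=
  ⟨(l 6), by decide +kernel⟩

def k26_B00pm_102_s1 : ∃ t, chk3 f_B00pm_102_s1 t 250 252 1 = true :=
  ⟨(l 6), by decide +kernel⟩

def k27_B00pm_102_s1 : ∃ t, chk3 f_B00pm_102_s1 t 502 252 1 = true :=
  ⟨(b (a (b (a (b (l 16707704) (l 6)) (b (l 16719864) (l 16721928))) (l 6)) (b (a (b (l 16731640) (l 16734216)) (b (a (l 16740184) (l 16745720)) (l 16746080))) (a (b (l 16737384) (l 16741184)) (b (l 16749808) (l 16754208))))) (a (l 6) (b (a (l 6) (b (l 16759352) (l 6))) (l 6)))), by decide +kernel⟩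

def k28_B00pm_102_s1 : ∃ t, chk3 f_B00pm_102_s1 t 1006 1008 1 = true :=
  ⟨(b (a (b (a (b (a (l 16748648) (b (a (l 16750424) (b (a (l 16751288) (l 16751896)) (a (l 16751488) (l 16752120)))) (l 16751448))) (l 16750720)) (b (a (b (l 16753504) (a (b (a (l 16752968) (l 16753576)) (a (l 16753168) (l 16753808))) (l 16754592))) (l 16756120)) (a (b (a (l 16753800) (b (a (l 16754664) (l 16755272)) (l 16755192))) (l 16754864)) (b (l 16756888) (a (b (a (l 16756368) (l 16756992)) (l 16756912)) (b (l 16757888) (l 16768632))))))) (a (l 16751944) (b (a (l 16755504) (b (a (l 16757240) (b (a (l 16758096) (l 16758720)) (l 16758640))) (l 16758336))) (l 16757720)))) (b (l 16762416) (a (b (a (b (a (b (l 16759616) (a (l 16759592) (l 16760192))) (l 16760936)) (a (b (a (l 16759832) (l 16760464)) (l 16760384)) (b (l 16761360) (a (l 16761344) (l 16761944))))) (l 16762976)) (a (b (a (l 16760744) (b (l 16761904) (l 16762152))) (l 16761880)) (b (a (b (l 16763120) (a (l 16763112) (l 16763720))) (l 16764448)) (a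 (l 16763808) (b (l 16764904) (a (l 16764896) (l 16765504))))))) (l 16767024)))) (a (l 16767904) (b (a (l 16764464) (b (a (b (a (b (l 16766696) (a (l 16766688) (l 16767312))) (l 16768032)) (a (l 16767416) (b (a (l 16768216) (l 16768816)) (a (l 16768504) (l 16769128))))) (l 16770096)) (a (l 16768888) (b (a (b (a (l 16770048) (l 16770648)) (l 16770656)) (l 16771680)) (a (l 16771096) (b (a (l 16771896) (l 16772496)) (l 16772504))))))) (l 16769328)))), by decide +kernel⟩

def k29_B00pm_102_s1 : ∃ t, chk3 f_B00pm_102_s1 t 1007 1008 1 = true :=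
  ⟨(b (l 16776552) (a (b (a (b (l 16773504) (a (l 16773752) (l 16776032))) (l 16776736)) (a (b (a (b (a (b (a (l 16773752) (l 16774360)) (l 16774376)) (b (l 16775232) (l 16775592))) (a (l 16774840) (b (a (l 16775632) (l 16776240)) (l 16776264)))) (b (l 16776752) (a (b (l 16776760) (a (l 16776824) (l 16776768))) (l 16776752)))) (a (l 16776440) (b (a (b (l 16776928) (l 16777152)) (b (l 16776776) (a (l 16776856) (l 16776784)))) (l 16766800)))) (b (l 16776752) (a (b (l 16776760) (a (b (l 16776792) (a (l 16776888) (l 16776800))) (l 16776768))) (l 16776760))))) (l 16776736))), by decide +kernel⟩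

def k30_B00pm_102_s1 : ∃ t, chk3 f_B00pm_102_s1 t 503 1009 1 = true :=
  ⟨(a (a (b (l 16761736) (l 16766768)) (b (l 16773088) (l 16778760))) (b (a (b (a (l 16736968) (b (a (b (a (l 16777128) (b (l 16776800) (a (l 16776936) (l 16776816)))) (l 16777400)) (b (l 16776768) (a (b (l 16776816) (a (l 16777000) (l 16776832))) (l 16776784)))) (a (l 16778104) (b (a (l 16777248) (b (a (l 16776848) (l 16776792)) (l 16776952))) (l 16777504))))) (l 16737992)) (b (a (b (l 16776768) (a (b (l 16776792) (a (b (a (l 16776880) (l 16776800)) (l 16776992)) (l 16776808))) (l 16776776))) (l 16776768)) (a (b (a (b (a (l 16777344) (b (a (l 16776920) (l 16776816)) (l 16777040))) (l 16777600)) (b (l 16776824) (a (b (a (l 16776968) (l 16776840)) (l 16777096)) (b (l 16776792) (l 16776840))))) (a (l 16778296) (b (a (l 16777448) (b (l 16776936) (l 16777152))) (l 16777704)))) (a (b (l 16776784) (b (a (b (l 16776800) (l 16776856)) (l 16776800)) (a (l 16777080) (b (l 16776816) (l 16774256))))) (l 16776792))))) (a (b (a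 (l 16740696) (l 16738992)) (a (l 16742520) (l 16740816))) (b (a (l 16737320) (b (a (l 16767064) (b (a (b (l 16776832) (l 16774280)) (l 16776808)) (a (l 16777184) (b (l 16776856) (l 16776936))))) (l 16778080))) (l 16759280))))), by decide +kernel⟩

def k31_B00pm_102_s1 : ∃ t, chk3 f_B00pm_102_s1 t 503 505 1 = true :=
  ⟨(b (b (a (a (l 16772576) (l 16759704)) (a (a (l 16740616) (l 16741840)) (b (a (l 16740928) (l 16739272)) (l 16741864)))) (a (a (l 16733256) (l 16756864)) (a (a (l 16737792) (l 16739032)) (l 16761800)))) (a (a (b (l 16730480) (l 6)) (b (l 16764600) (l 16751472))) (a (b (l 16756672) (l 16754064)) (b (l 16759112) (l 16756536))))), by decide +kernel⟩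

def k32_B00pm_102_s1 : ∃ t, chk3 f_B00pm_102_s1 t 125 253 1 = true :=
  ⟨(a (l 6) (a (l 6) (b (a (l 6) (b (a (b (l 16751552) (l 16749160)) (b (l 16754064) (l 16751704))) (a (l 6) (b (l 16759952) (l 6))))) (l 6)))), by decide +kernel⟩

def k33_B00pm_102_s1 : ∃ t, chk3 f_B00pm_102_s1 t 62 127 1 = true :=
  ⟨(l 6), by decide +kernel⟩

def k34_B00pm_102_s1 : ∃ t, chk3 f_B00pm_102_s1 t 504 504 1 = true :=
  ⟨(b (a (a (l 16776720) (l 16776776)) (a (l 16776856) (l 16776960))) (a (b (l 16776824) (a (b (a (b (l 16776824) (a (b (a (b (l 16776872) (l 16776968)) (l 16776840)) (a (l 16777296) (b (l 16776896) (l 16777016)))) (l 16776864))) (l 16776848)) (a (b (a (l 16777776) (b (a (b (l 16776928) (l 16777064)) (l 16776888)) (a (l 16777408) (b (l 16776960) (l 16777120))))) (l 16778272)) (b (a (l 16776912) (l 16776880)) (a (b (a (b (l 16776992) (l 16777184)) (l 16776936)) (a (l 16777520) (l 16777136))) (b (l 16776896) (a (b (l 16776912) (l 16776968)) (l 16776904))))))) (l 16776920))) (a (l 16776976)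 (l 16777088)))), by decide +kernel⟩

def k35_B00pm_102_s1 : ∃ t, chk3 f_B00pm_102_s1 t 504 1010 1 = true :=
  ⟨(a (b (a (b (a (l 16737664) (b (a (l 16777992) (b (a (l 16777184) (b (l 16776936) (l 16777000))) (l 16777432))) (l 16778488))) (l 16759600)) (b (a (b (a (b (l 16776928) (a (b (l 16776960) (l 16777032)) (l 16776944))) (l 16776952)) (a (b (a (l 16777312) (b (l 16776992) (l 16777072))) (l 16777568)) (b (l 16776976) (a (b (l 16777024) (l 16777120)) (l 16777000))))) (l 16777000)) (a (b (a (l 16778216) (b (a (l 16777440) (b (l 16777056) (l 16777176))) (l 16777688))) (l 16778704)) (b (a (b (l 16777040) (a (b (l 16777096) (l 16777240)) (l 16777064))) (l 16777040)) (a (b (a (l 16777568) (b (l 16777136) (l 16777304))) (l 16777816)) (b (l 16777104) (a (l 16777272) (l 16777128)))))))) (a (b (a (l 16741144) (l 16739576)) (l 16763024)) (b (a (l 16738048) (b (a (l 16778456) (b (l 16777504) (l 16777936))) (l 16778936))) (l 16759960)))) (b (l 16777160) (a (b (a (b (a (b (a (b (l 16777120) (l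 16777176)) (l 16777120)) (a (l 16777392) (b (l 16777152) (l 16777216)))) (l 16777152)) (a (l 16777840) (b (a (b (l 16777192) (l 16777264)) (l 16777176)) (a (l 16777536) (b (l 16777224) (l 16777312)))))) (l 16777224)) (a (l 16778760) (b (a (b (a (b (l 16777264) (l 16777368)) (l 16777248)) (a (l 16777680) (b (l 16777312) (l 16777432)))) (l 16777296)) (a (l 16778128) (b (a (b (l 16777360) (l 16777504)) (l 16777336)) (a (l 16777816) (l 16777488))))))) (a (b (l 16777272) (b (l 16777320) (a (l 16777376) (l 16777368)))) (l 16777376))))), by decide +kernel⟩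

def k36_B00pm_102_s1 : ∃ t, chk3 f_B00pm_102_s1 t 504 1011 1 = true :=
  ⟨(a (b (a (l 16761400) (b (l 16761616) (l 16762856))) (a (l 16758856) (a (l 16739496) (l 16761480)))) (b (a (b (l 16758728) (a (l 16740080) (l 16738672))) (b (a (b (a (b (a (l 16777552) (l 16777416)) (l 16777776)) (b (l 16777392) (a (l 16777464) (l 16777416)))) (a (l 16778400) (b (a (l 16777688) (b (l 16777456) (l 16777520))) (l 16777928)))) (b (l 16777456) (a (b (l 16777464) (a (b (l 16777504) (l 16777576)) (l 16777496))) (l 16777512)))) (a (l 16779264) (b (a (b (a (l 16777848) (b (l 16777544) (l 16777632))) (l 16778080)) (b (l 16777552) (a (b (l 16777600) (l 16777696)) (l 16777584)))) (a (l 16778672) (b (a (l 16777992) (b (l 16777648) (l 16777768))) (l 16778232))))))) (a (a (l 16762440) (l 16762008)) (b (l 16759200) (l 16760744))))), by decide +kernel⟩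

def k37_B00pm_102_s1 : ∃ t, chk3 f_B00pm_102_s1 t 505 252 1 = true :=
  ⟨(a (b (a (b (a (l 16777040) (l 16777096)) (l 16777208)) (b (a (l 16777152) (l 16777200)) (a (l 16777296) (l 16777352)))) (b (a (l 16777416) (l 16777552)) (b (a (a (b (l 16777552) (b (l 16777608) (a (b (l 16777648) (a (b (l 16777704) (l 16777848)) (l 16777680))) (l 16777664)))) (l 16777664)) (l 16777784)) (a (b (a (b (a (b (a (l 16778144) (l 16777840)) (l 16778376)) (b (l 16777744) (a (l 16777904) (l 16777784)))) (a (l 16778952) (l 16778312))) (b (l 16777768) (a (b (a (l 16777832) (l 16777792)) (a (l 16778056) (b (l 16777832) (l 16777896)))) (l 16777832)))) (a (l 16779784) (b (a (l 16778472) (b (a (b (l 16777888) (l 16777960)) (l 16777880)) (a (l 16778224) (b (l 16777936) (l 16778024))))) (l 16778936)))) (a (b (l 16777872) (b (l 16777960) (a (b (a (b (l 16777992) (l 16778096)) (l 16777992)) (a (l 16778376) (b (l 16778048) (l 16778176)))) (l 16778048)))) (l 16778000)))))) (a (a (b (b (l 536895503) (l 16777408)) (l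 537174287)) (b (b (l 536934927) (l 16777456)) (l 537231375))) (b (a (b (l 536983567) (l 16777504)) (b (l 537039887) (l 537167631))) (a (l 537294351) (l 537363983))))), by decide +kernel⟩

def k38_B00pm_102_s1 : ∃ t, chk3 f_B00pm_102_s1 t 504 506 1 = true :=
  ⟨(b (a (b (a (l 16756416) (l 16769064)) (a (l 16764584) (l 16766784))) (b (a (a (l 16760072) (l 16761000)) (a (l 16761880) (l 16762336))) (a (a (l 16778784) (l 16758768)) (a (l 16759672) (l 16760520))))) (a (a (b (l 16762384) (l 16765552)) (b (a (l 16774568) (l 16775640)) (a (l 16772528) (l 16773616)))) (b (a (a (l 16776656) (l 16777632)) (b (l 16769016) (l 16768016))) (a (a (l 16774664) (l 16775656)) (a (l 16776600) (l 16777496)))))), by decide +kernel⟩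

def k39_B00pm_102_s1 : ∃ t, chk3 f_B00pm_102_s1 t 1010 506 1 = true :=
  ⟨(b (b (a (a (l 16761048) (l 16759808)) (b (a (b (a (l 16778784) (b (a (b (l 16778112) (l 16778256)) (l 16778096)) (a (l 16778536) (l 16778256)))) (l 16779224)) (b (a (l 16778152) (l 16778152)) (a (b (a (l 16778328) (l 16778208)) (l 16778536)) (b (l 16778192) (a (b (l 16778216) (l 16778272)) (l 16778224)))))) (a (l 16759336) (b (a (l 16779088) (b (a (l 16778480) (b (l 16778272) (l 16778336))) (l 16778704))) (l 16779520))))) (a (a (l 16761328) (l 16762080)) (b (a (l 16760752) (l 16759600)) (a (l 16762128) (l 16760968))))) (b (a (a (l 16769768) (l 16770544)) (b (l 16772096) (l 16771136))) (a (a (l 16767864) (l 16768656)) (a (l 16769408) (l 16770104))))), by decide +kernel⟩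

def k40_B00pm_102_s1 : ∃ t, chk3 f_B00pm_102_s1 t 1011 506 1 = true :=
  ⟨(b (b (a (b (l 16778280) (a (b (a (b (l 16778288) (a (b (l 16778328) (l 16778408)) (l 16778328))) (l 16778344)) (a (b (a (l 16778656) (b (l 16778392) (l 16778472))) (l 16778872)) (b (l 16778400) (a (b (l 16778448) (l 16778552)) (l 16778448))))) (l 16778440))) (l 16778496)) (a (b (a (b (a (l 16779392) (b (a (l 16778816) (b (l 16778512) (l 16778632))) (l 16779032))) (l 16779808)) (b (a (b (l 16778520) (a (b (l 16778576) (l 16778720)) (l 16778568))) (l 16778544)) (a (a (l 16779144) (b (l 16778712) (l 16779056))) (b (l 16778632) (a (l 16778792) (l 16778680)))))) (a (l 16759856) (b (a (l 16779696) (l 16779160)) (l 16780096)))) (b (l 16778680) (a (b (a (b (a (b (l 16778696) (l 16778752)) (l 16778712)) (a (l 16778952) (b (l 16778760) (l 16778824)))) (l 16778760)) (a (l 16779328) (b (a (b (l 16778816) (l 16778888)) (l 16778824)) (a (l 16779128) (b (l 16778880) (l 16778968)))))) (l 16778872))))) (b (a (b (a (l 16761184)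 (l 16760112)) (a (l 16761616) (l 16761384))) (b (a (l 16769576) (b (a (b (a (b (l 16778944) (l 16779040)) (l 16778944)) (a (l 16779288) (b (l 16779008) (l 16779128)))) (l 16779008)) (a (l 16779648) (b (a (b (l 16779080) (l 16779216)) (l 16779072)) (a (l 16779456) (l 16779216)))))) (a (l 16760360) (l 16769864)))) (a (a (l 16770752) (l 16771344)) (a (l 16771888) (b (l 16771080) (l 16771968)))))), by decide +kernel⟩

def k41_B00pm_102_s1 : ∃ t, chk3 f_B00pm_102_s1 t 252 507 1 = true :=
  ⟨(a (b (a (a (l 6) (b (a (l 16770608) (l 16771728)) (a (l 6) (l 16769976)))) (a (b (a (l 16772800) (l 16773816)) (a (l 16771072) (l 16772120))) (b (a (l 16774784) (l 16775712)) (a (l 16773120) (l 16774064))))) (a (l 6) (a (b (b (l 16770408) (l 16764424)) (l 6)) (a (b (l 16771592) (b (l 16770552) (l 16769912))) (b (l 16767328) (b (l 16771560) (l 16770928))))))) (a (b (a (b (b (l 16766936) (l 16771344)) (b (l 16770544) (l 16769776))) (b (a (l 16767696) (l 16768416)) (a (l 16771376) (l 16772120)))) (a (b (a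 (l 16768256) (b (l 16774728) (l 16774048))) (a (b (l 16772512) (l 16771904)) (b (l 16773416) (l 16772824)))) (b (a (b (l 16775552) (l 16774888)) (b (l 16776320) (l 16775680))) (a (b (l 16774272) (l 16773696)) (b (l 16775072) (l 16774520)))))) (b (a (b (a (l 16774328) (l 16774952)) (a (l 16772824) (l 16773472))) (b (b (a (l 16781152) (l 16771168)) (l 16775408)) (a (l 16774064) (l 16774608)))) (a (b (a (b (l 16777040) (l 16776416)) (b (l 16777712) (l 16777104))) (a (b (l 16775832) (l 16775288)) (b (l 16776536) (l 16776008)))) (b (a (b (l 16778336) (l 16777736)) (l 16773360)) (a (b (l 16777184) (l 16776680)) (b (l 16777784) (l 16777296)))))))), by decide +kernel⟩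

def k42_B00pm_102_s1 : ∃ t, chk3 f_B00pm_102_s1 t 253 252 1 = true :=
  ⟨(b (a (a (a (a (l 536907023) (l 537259279)) (a (l 537346063) (l 537432847))) (a (a (l 537519631) (l 537606159)) (a (l 537692687) (l 537779215)))) (a (a (a (l 537865743) (l 537952015)) (a (l 538038287) (l 3))) (l 3))) (a (a (a (a (l 537441295) (l 537526031)) (a (l 537612559) (l 537698831))) (a (a (l 537785103) (l 537871375)) (a (l 537957391) (l 538043663)))) (a (a (a (l 538129423) (l 538215439)) (a (l 538032911) (l 538118671))) (a (a (l 538204431) (l 538289935)) (a (l 538375695) (l 538461199)))))), by decide +kernel⟩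

def k43_B00pm_102_s1 : ∃ t, chk3 f_B00pm_102_s1 t 253 506 1 = true :=
  ⟨(a (a (b (a (b (l 16778640) (l 16778896)) (b (l 16778736) (l 16779000))) (b (a (b (a (a (b (l 16779016) (b (l 16779064) (a (l 16779128) (l 16779112)))) (l 16779088)) (l 16779144)) (a (b (a (b (a (l 16779296) (l 16779192)) (l 16779488)) (b (l 16779176) (a (b (l 16779216) (l 16779272)) (l 16779224)))) (a (l 16779960) (b (a (l 16779456) (b (l 16779280) (l 16779336))) (l 16779656)))) (a (b (l 16779232) (b (l 16779288) (a (b (l 16779344) (l 16779408)) (l 16779344)))) (l 16779304)))) (l 16779296)) (a (b (a (l 16770144) (b (a (a (l 16779776) (b (b (l 16779400) (l 16779488)) (l 16779712))) (b (l 16779416) (a (b (l 16779464) (l 16779560)) (l 16779472)))) (a (l 16780256) (a (l 16779936) (b (b (l 16779528) (l 16779640)) (l 16779864)))))) (a (l 16771312) (l 16770416))) (b (a (b (l 16779464) (a (b (l 16779536) (a (b (l 16779600) (l 16779728)) (l 16779584))) (l 16779552))) (l 16779544)) (a (b (a (a (l 16780080) (b (l 16779728)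 (l 16780016))) (b (a (l 16779648) (l 16779624)) (a (l 16779800) (l 16779704)))) (l 16775080)) (b (l 16779664) (a (b (a (b (l 16779720) (l 16779776)) (l 16779720)) (a (l 16779952) (b (l 16779776) (l 16779840)))) (l 16779760)))))))) (a (a (l 538049551) (l 538135311)) (a (l 537952783) (l 538038287)))) (a (a (a (l 538123791) (l 538209551)) (a (l 538295055) (l 538380559))) (a (a (l 538466063) (l 538551567)) (a (a (l 538614799) (l 538657551)) (a (l 538700303) (l 538675471)))))), by decide +kernel⟩

def k44_B00pm_102_s1 : ∃ t, chk3 f_B00pm_102_s1 t 1012 507 1 = true :=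
  ⟨(b (a (b (a (b (l 16771624) (l 16781376)) (b (l 16771528) (l 16771304))) (a (l 16775096) (a (l 16770192) (l 16770392)))) (b (b (a (l 16770664) (b (a (l 16780264) (b (a (b (l 16779832) (l 16779904)) (l 16779832)) (a (l 16780104) (b (l 16779888) (l 16779968))))) (l 16780600))) (a (l 16771672) (l 16770888))) (a (b (l 16771000) (l 16780864)) (b (l 16771344) (l 16781216))))) (a (b (a (l 16773880) (l 16774352)) (a (b (l 16778328) (l 16777864)) (b (l 16778824) (l 16778376)))) (b (a (l 16774768) (l 16775152)) (a (b (l 16779272) (l 16778840)) (b (l 16779680) (l 16779264)))))), by decide +kernel⟩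

def k45_B00pm_102_s1 : ∃ t, chk3 f_B00pm_102_s1 t 1013 507 1 = true :=
  ⟨(b (a (b (b (a (b (l 16779880) (a (b (a (b (l 16779944) (l 16780032)) (l 16779944)) (a (l 16780240) (b (l 16780000) (l 16780104)))) (l 16779976))) (l 16779904)) (a (b (a (l 16780528) (b (a (l 16780112) (l 16780048)) (a (l 16780368) (l 16780176)))) (l 16770352)) (b (a (b (l 16780016) (l 16780104)) (l 16780040)) (a (b (a (l 16780240) (l 16780144)) (l 16780392)) (b (l 16780112) (a (l 16780200) (l 16780152))))))) (b (a (l 16771088) (b (a (l 16780768) (b (a (l 16780368) (b (l 16780208) (l 16780264))) (l 16780528))) (l 16770576))) (a (l 16771040) (l 16771264)))) (b (l 16779968) (b (a (b (a (b (l 16780200) (a (b (l 16780256) (l 16780320)) (l 16780248))) (l 16780208)) (a (b (a (l 16780496) (b (l 16780304) (l 16780376))) (l 16780640)) (b (l 16780296) (a (b (l 16780352) (l 16780440)) (l 16780344))))) (l 16780232)) (a (b (a (l 16780984) (b (a (l 16780616) (l 16780448)) (l 16780752))) (l 16770768)) (b (a (b (l 16780392) (a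 (l 16780496) (l 16780432))) (l 16780368)) (a (a (l 16780832) (l 16778032)) (b (l 16780480) (a (l 16780608) (l 16780520))))))))) (a (b (a (l 16775480) (b (l 16770768) (l 16780776))) (a (b (l 16780032) (l 16779640)) (b (l 16780344) (l 16779968)))) (b (b (a (l 16771000) (b (a (l 16770688) (l 16775600)) (l 16770936))) (a (l 16781016) (l 16770720))) (a (b (l 16780600) (l 16780240)) (b (l 16780808) (l 16780464)))))), by decide +kernel⟩

def k46_B00pm_102_s1 : ∃ t, chk3 f_B00pm_102_s1 t 507 507 1 = true :=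
  ⟨(a (b (a (b (l 16774616) (l 16775008)) (a (l 538489359) (l 538574607))) (a (b (a (b (b (a (b (a (l 16780560) (l 16780520)) (a (l 16780720) (l 16780608))) (l 16780528)) (a (l 16780944) (b (a (b (l 16780616) (l 16780672)) (l 16780600)) (a (l 16780824) (b (l 16780656) (l 16780720)))))) (l 16770848)) (b (a (l 16780560) (l 16780504)) (b (a (b (a (b (l 16780696) (l 16780768)) (l 16780680)) (a (l 16780912) (l 16778152))) (l 16780688)) (a (l 16781120) (b (a (l 16780816) (l 16780760)) (b (l 16775640) (l 16780976))))))) (a (a (l 16775512) (l 16775568)) (b (l 16770552) (l 16780736)))) (b (a (b (l 16780440) (b (l 16780600) (a (b (l 16780704) (l 16780784)) (l 16780688)))) (l 16769960)) (a (b (b (a (b (a (l 16775656) (b (l 16780800) (l 16780840))) (l 16781008)) (b (l 16780768) (a (l 16780864) (l 16780816)))) (a (l 16780984) (b (a (l 16780992) (l 16780896)) (l 16780952)))) (l 16780776)) (b (b (l 16770232) (a (b (l 16780840) (a (l 16778304) (l 16780840))) (l 16780688))) (b (a (b (a (l 16780872) (l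 16780848)) (l 16780800)) (a (b (l 16780768) (l 16780776)) (l 16775432))) (a (l 16780704) (b (l 16780720) (l 16780656))))))))) (b (a (a (l 538659855) (l 538678543)) (a (l 538592015) (l 538505743))) (a (a (b (l 16774952) (b (l 16769888) (a (b (l 16780552) (b (a (l 16780624) (l 16780544)) (a (l 16780632) (l 16780552)))) (l 16780384)))) (l 538549519)) (a (l 538463247) (l 538376975))))), by decide +kernel⟩

def k47_B00pm_102_s1 : ∃ t, chk3 f_B00pm_102_s1 t 127 126 1 = true :=
  ⟨(b (l 3) (a (a (b (a (a (a (a (l 538631951) (l 538588431)) (a (l 538545167) (l 538501647))) (a (a (l 538458383) (l 538415119)) (a (l 538371599) (l 538328335)))) (a (a (a (l 538285071) (l 538241807)) (a (l 538198543) (l 3))) (l 3))) (a (a (a (a (l 538373647) (l 538330639)) (a (l 538287375) (l 538244111))) (a (a (l 538200847) (l 538157839)) (a (l 538114575) (l 538071567)))) (a (a (a (l 538028303) (l 537985295)) (a (l 537942031) (l 537899023))) (a (a (l 537855759) (l 537812751)) (a (l 537769743) (b (l 538063631) (l 537936655)))))))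 (b (l 3) (b (l 3) (a (a (a (a (l 537893903) (l 537850895)) (a (l 537808143) (l 537765391))) (a (a (l 537722383) (l 537679887)) (l 3))) (l 3))))) (l 3))), by decide +kernel⟩

def k48_B00pm_102_s1 : ∃ t, chk3 f_B00pm_102_s1 t 252 254 1 = true :=
  ⟨(b (a (a (l 6) (b (a (l 6) (b (a (l 6) (b (l 16770344) (l 6))) (l 6))) (l 6))) (a (a (b (b (a (b (l 16771336) (l 16770808)) (b (l 16772272) (l 16771768))) (b (a (l 16770328) (l 16771304)) (a (l 6) (l 16770896)))) (l 6)) (b (b (a (b (l 16773160) (l 16772680)) (b (l 16774008) (l 16773536))) (b (a (l 16772240) (l 16773120)) (a (l 16771840) (l 16772744)))) (b (b (a (l 16771496) (l 16772424)) (a (l 6) (l 16772152))) (b (a (l 6) (l 16771928)) (l 6))))) (b (a (b (a (b (l 16774792) (l 16774344)) (b (l 16775536) (l 16775104))) (b (a (l 16773944) (l 16774728)) (a (l 16773592) (l 16774400)))) (b (a (b (l 16776224) (l 16775816)) (b (l 16776856) (l 16776472))) (a (b (l 16775456) (l 16775144)) (b (l 16776128) (l 16775848))))) (b (a (b (a (l 16773296) (l 16774120))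 (a (l 16773048) (l 16773888))) (b (a (l 16774888) (l 16775616)) (a (l 16774688) (l 16775432)))) (a (b (a (l 16772848) (l 16773720)) (a (l 16772704) (l 16773600))) (b (a (l 16774544) (l 16775312)) (a (l 16774448) (l 16775248)))))))) (a (l 6) (a (l 6) (b (b (a (a (l 6) (b (l 16773544) (l 16773544))) (b (a (l 16774416) (l 16775240)) (a (l 16774448) (l 16775304)))) (a (l 6) (b (a (l 16774536) (l 16775424)) (a (l 6) (l 16775608))))) (b (a (l 6) (b (a (l 6) (l 16775856)) (l 6))) (l 6)))))), by decide +kernel⟩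

def k49_B00pm_102_s1 : ∃ t, chk3 f_B00pm_102_s1 t 506 508 1 = true :=
  ⟨(b (a (a (b (a (b (l 16777440) (l 16777072)) (b (l 16777976) (l 16777624))) (a (b (l 16776752) (l 16776488)) (b (l 16777328) (l 16777088)))) (b (a (l 16775664) (l 16776120)) (a (b (l 16777856) (l 16777632)) (l 16775608)))) (a (b (b (l 16776856) (l 16776576)) (b (l 16776352) (l 16776192))) (b (b (l 16777448) (l 16777208)) (a (l 16779432) (l 16779728))))) (a (a (b (b (a (l 16776280) (l 16776896)) (a (l 16776128) (l 16776768))) (b (a (l 16776032) (l 16776696)) (a (l 16775992) (l 16776688)))) (b (b (a (l 16777472) (l 16778000)) (a (l 16777368) (l 16777920))) (b (a (l 16777320) (l 16777904)) (a (l 16777344) (l 16777952))))) (a (b (b (l 16776088) (l 16776048)) (b (l 16776072) (l 16776160))) (b (a (l 16779304) (l 16779648)) (b (l 16776952) (l 16777096)))))), by decide +kernel⟩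

def k50_B00pm_102_s1 : ∃ t, chk3 f_B00pm_102_s1 t 507 508 1 = true :=
  ⟨(b (a (a (b (a (l 16780256) (l 16777768)) (a (l 16779968) (l 16780144))) (b (a (l 16777840) (b (l 16780544) (l 16780400))) (a (l 16780264) (l 16780312)))) (a (b (b (a (b (a (l 16780552) (b (a (l 16780488) (l 16780408)) (a (l 16780488) (l 16780416)))) (l 16780432)) (b (l 16780192) (a (b (a (l 16780352) (l 16780272)) (a (l 16780336) (l 16780288))) (l 16780144)))) (a (l 16780344) (b (a (l 16780280) (b (a (l 16780224) (l 16780136)) (a (l 16780200) (l 16780152)))) (l 16780200)))) (a (l 16780288) (b (l 16780184) (l 16780216)))) (b (a (b (l 16779864) (b (l 16777296) (a (b (a (l 16780096) (l 16780000)) (l 16780064)) (a (l 16779920) (l 16779856))))) (l 16779576)) (b (a (b (a (l 16780048) (b (a (l 16779968) (l 16779880)) (l 16779936))) (l 16780000)) (b (a (a (b (l 16779800) (l 16779816)) (l 16779728)) (l 16779608)) (a (b (a (l 16779840) (l 16779760)) (l 16779816)) (b (l 16779640) (a (l 16779696) (l 16779616)))))) (a (l 16780048)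 (b (a (l 16779848) (b (a (l 16779720) (l 16779640)) (l 16779712))) (l 16779832))))))) (a (a (b (a (l 16779936) (l 16780168)) (b (l 16777616) (l 16777824))) (b (a (l 16780328) (l 16780432)) (b (l 16778032) (l 16778296)))) (a (b (a (b (l 16780384) (l 16780544)) (b (l 16780328) (l 16780512))) (a (b (l 16780784) (l 16781096)) (b (l 16780776) (l 16781128)))) (b (a (b (l 16780184) (l 16780400)) (b (l 16779960) (l 16780200))) (a (b (l 16780696) (l 16775824)) (b (l 16780520) (l 16775688))))))), by decide +kernel⟩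

def k51_B00pm_102_s1 : ∃ t, chk3 f_B00pm_102_s1 t 506 509 1 = true :=
  ⟨(a (b (b (a (b (a (l 16776016) (l 16776744)) (a (l 16776104) (l 16776856))) (b (a (l 16777424) (l 16778064)) (a (l 16777568) (l 16778240)))) (a (b (a (l 16776256) (l 16777040)) (a (l 16776472) (l 16777296))) (b (a (l 16777784) (l 16778496)) (a (l 16778072) (l 16778816))))) (b (a (b (a (l 16776760) (l 16777616)) (a (l 16777120) (l 16778008))) (b (a (l 16778432) (l 16779208)) (a (l 16778864) (l 16779680)))) (a (a (l 6) (a (l 16775888) (l 16776352))) (b (a (l 16779376) (l 16780232)) (b (l 16775016) (l 16775336)))))) (b (b (a (b (l 16776320) (a (l 16778872) (l 16779456))) (a (l 16777216) (l 16777680))) (a (b (a (l 16779152) (l 16779768)) (a (l 16779512) (l 16780160))) (b (a (l 16780336) (l 16780856)) (a (l 16780768) (l 16781320))))) (a (b (b (a (l 16779944) (l 16780632)) (a (l 16780456) (l 16781184))) (b (l 16776192) (l 16776896))) (b (b (l 16776336) (l 16776952)) (b (b (l 16772224) (l 16772600)) (a (l 16772832) (l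 16773560))))))), by decide +kernel⟩

def k52_B00pm_102_s1 : ∃ t, chk3 f_B00pm_102_s1 t 507 509 1 = true :=
  ⟨(a (b (b (a (b (a (l 16780552) (l 16780888)) (a (l 16780896) (l 16781264))) (a (b (l 16781152) (l 16781568)) (b (l 16781360) (l 16781808)))) (a (b (l 16776280) (l 16776808)) (b (a (l 16782064) (l 16771856)) (a (l 16772160) (l 16772480))))) (a (b (b (a (l 16782416) (l 16772408)) (a (l 16772608) (l 16773136))) (b (a (l 16773376) (l 16773144)) (a (l 16773712) (l 16772576)))) (a (b (b (l 16772840) (l 16772632)) (b (l 16772120) (l 16771496))) (b (b (l 16772184) (l 16771720)) (b (l 16771152) (l 16780968)))))) (a (b (b (a (b (l 16781496) (l 16771496)) (b (l 16771072) (l 16771592))) (b (a (l 16772064) (l 16771472)) (a (l 16771800) (l 16771112)))) (b (b (a (l 16771384) (l 16781144)) (a (l 16770872) (l 16780576))) (b (b (l 16775240) (l 16774896)) (b (l 16774520) (l 16774112))))) (b (b (a (b (l 16776296) (l 16771216)) (b (l 16776192) (l 16776016))) (a (b (l 16776152) (l 16780992)) (a (l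 16775584) (l 16775352)))) (b (b (a (l 16780488) (l 16779920)) (a (l 16779880) (l 16779264))) (b (a (l 16779160) (l 16778488)) (a (l 16778320) (a (l 16777768) (b (l 16777664) (a (l 16777288) (l 16777232)))))))))), by decide +kernel⟩

def k53_B00pm_102_s1 : ∃ t, chk3 f_B00pm_102_s1 t 252 255 1 = true :=
  ⟨(l 6), by decide +kernel⟩

def k54_B00pm_102_s1 : ∃ t, chk3 f_B00pm_102_s1 t 506 510 1 = true :=
  ⟨(a (a (l 6) (b (a (b (b (l 16780632) (l 6)) (l 6)) (b (b (l 16781576) (b (l 16782176) (a (l 6) (b (l 16782736) (a (l 6) (l 16780416)))))) (l 16782216))) (l 6))) (b (b (a (b (b (l 16772232) (l 16772648)) (a (l 16778080) (l 16773768))) (b (a (l 16773688) (l 16774336)) (a (l 16774648) (l 16773672)))) (a (b (b (a (b (a (b (a (l 16783424) (l 16783712)) (l 16783544)) (a (l 16781376) (l 16784256))) (l 16778600)) (b (l 16774384) (a (b (l 16779544) (l 16779608)) (l 16774848)))) (b (a (l 16783736) (b (a (l 16784800) (b (l 16780240) (l 16775008))) (l 16774624))) (l 16773856))) (l 16773624)) (b (b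 (l 16773792) (a (b (a (b (l 16774632) (a (l 16774768) (l 16774368))) (l 16784344)) (a (l 16774656) (b (l 16778992) (l 16778984)))) (a (l 16778328) (l 16782840)))) (a (l 16774632) (b (b (a (a (l 16783648) (l 16780552)) (b (l 16782584) (a (l 16782728) (l 16782312)))) (l 16772624)) (l 16772896)))))) (a (b (l 16773072) (l 6)) (b (a (l 16775160) (l 16773808)) (l 16775104))))), by decide +kernel⟩

def k55_B00pm_102_s1 : ∃ t, chk3 f_B00pm_102_s1 t 1014 510 1 = true :=
  ⟨(b (b (a (b (a (l 16773096) (l 16771904)) (a (l 16772376) (l 16771136))) (b (a (l 16770776) (l 16780184)) (a (l 16769944) (l 16779296)))) (a (b (a (l 16771552) (l 16770248)) (b (a (b (l 16781480) (a (b (a (l 16781872) (l 16781480)) (l 16781704)) (b (l 16780944) (l 16780864)))) (l 16780000)) (a (a (l 16781936) (b (l 16778248) (l 16781064))) (b (a (b (l 16780040) (a (l 16780200) (l 16779760))) (l 16779280)) (a (l 16780096) (b (a (l 16779328) (l 16778920)) (l 16779168))))))) (b (b (l 16773888) (l 16773368)) (a (b (l 16778696)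 (a (b (l 16778600) (b (l 16778392) (a (l 16778480) (l 16778096)))) (l 16777808))) (l 16771912))))) (a (b (c (l 16771056) (l 16770784)) (a (l 16773344) (l 16771424))) (b (b (b (a (b (a (l 16778328) (b (a (l 16777640) (l 16777272)) (a (l 16777656) (l 16777192)))) (l 16778040)) (b (a (l 16776728) (l 16776064)) (a (b (a (l 16776776) (l 16776352)) (l 16776624)) (b (l 16775824) (a (l 16775904) (l 16775520)))))) (a (l 16778320) (a (l 16776856) (l 16775872)))) (a (l 16778872) (a (l 16777416) (b (l 16776256) (a (l 16776888) (l 16776560)))))) (a (b (l 16779616) (a (l 16775616) (b (l 16777184) (l 16780496)))) (b (a (b (l 16778008) (l 16775984)) (b (l 16777456) (l 16778320))) (l 16779744)))))), by decide +kernel⟩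

def k56_B00pm_102_s1 : ∃ t, chk3 f_B00pm_102_s1 t 1015 1020 1 = true :=
  ⟨(a (b (b (b (l 16773680) (l 16773224)) (b (l 16772728) (l 16772208))) (a (b (l 16771904) (a (l 16776240) (l 16773032))) (b (a (l 16776336) (b (l 16776128) (a (l 16775656) (b (l 16775608) (l 16775456))))) (a (b (a (l 16775552) (b (l 16775440) (l 16775184))) (a (b (l 16775088) (l 16774872)) (l 16774976))) (b (l 16775296) (l 16775096)))))) (b (a (b (a (l 16777576) (l 16774544)) (a (b (l 16776792) (a (l 16776344) (b (l 16776264) (l 16776032)))) (b (a (l 16776480) (l 16776400)) (l 16776152)))) (b (a (b (a (l 16777128) (b (l 16777072) (l 16776872))) (a (b (l 16776760) (l 16776584)) (l 16776696))) (l 16776904)) (l 16776472))) (b (a (b (a (a (b (l 16775928) (l 16775736)) (l 16775848)) (l 16775968)) (l 16775704)) (l 16776120)) (l 16775600)))), by decide +kernel⟩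

def k57_B00pm_102_s1 : ∃ t, chk3 f_B00pm_102_s1 t 1015 1021 1 = true :=
  ⟨(b (b (a (b (a (a (l 16775272) (a (l 16774824) (b (l 16774752) (l 16774584)))) (l 16774832)) (a (a (b (b (a (b (l 16775064) (l 16775032)) (l 16774696)) (a (l 16775104) (b (l 16774608) (l 16774640)))) (a (l 16775240) (l 16774832))) (b (a (b (l 16774464) (b (l 16774400) (l 16774408))) (l 16774488)) (b (a (l 16774536) (b (l 16774456) (l 16774504))) (l 16774720)))) (b (l 16774696) (a (b (l 16774560) (a (l 16774584) (l 16774584))) (l 16774688))))) (l 16775240)) (a (b (a (a (a (b (l 16775456) (l 16775768)) (l 16775416)) (l 16775280)) (b (a (l 16774880) (b (a (b (l 16774624) (l 16774688)) (l 16774680)) (l 16774808))) (l 16775232))) (l 16776080)) (b (a (b (a (b (l 16774784) (a (b (l 16774728) (l 16774752)) (l 16774784))) (l 16774928)) (a (b (a (l 16774896) (b (l 16774792) (l 16774864))) (l 16775072)) (b (l 16774880) (a (l 16774936) (b (l 16774880) (l 16774912)))))) (l 16775136)) (a (l 16775536) (b (a (b (a (l 16774992)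 (l 16775000)) (l 16775152)) (b (l 16775088) (a (b (l 16775032) (l 16775080)) (l 16775096)))) (a (l 16775488) (b (a (l 16775240) (l 16775152)) (l 16775416)))))))) (a (b (l 16772168) (l 16773912)) (b (a (l 16776848) (l 16776480)) (l 16773136)))), by decide +kernel⟩

def k58_B00pm_102_s1 : ∃ t, chk3 f_B00pm_102_s1 t 253 511 1 = true :=
  ⟨(a (l 6) (b (a (b (a (a (l 16774816) (b (a (l 16783504) (b (l 16782360) (l 16782840))) (a (b (l 16784088) (l 16774176)) (l 16773456)))) (b (a (b (a (l 16781640) (l 16781352)) (l 16782320)) (l 16781480)) (l 16772920))) (a (a (l 6) (l 16775320)) (l 16775216))) (b (b (a (l 16775632) (l 16774832)) (a (l 16772080) (l 16771256))) (a (l 16774576) (b (l 16772896) (l 16774280))))) (b (a (a (l 6) (l 16772624)) (b (a (l 16783640) (l 16773040)) (l 16777120))) (a (l 6) (a (l 16775352) (l 16775312)))))), by decide +kernel⟩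

def k59_B00pm_102_s1 : ∃ t, chk3 f_B00pm_102_s1 t 1016 508 1 = true :=
  ⟨(b (a (b (a (l 16779264) (l 16778976)) (a (b (l 16779392) (b (a (b (l 16779520) (a (l 16779584) (l 16779496))) (l 16779376)) (a (b (a (l 16779616) (l 16779536)) (l 16779608)) (b (l 16779400) (a (l 16779480) (l 16779376)))))) (l 16779136))) (a (b (l 16778704) (l 16778864)) (b (l 16778456) (l 16778608)))) (a (b (b (a (b (a (l 16779680) (b (l 16779480) (l 16779520))) (l 16779704)) (b (a (b (l 16779280) (a (l 16779376) (l 16779272))) (l 16779152)) (a (l 16779416) (b (a (l 16779216) (l 16779144)) (a (l 16779280) (l 16779168)))))) (a (l 16779912) (a (l 16779632) (l 16779424)))) (a (b (l 16780264) (a (l 16770280) (l 16770144))) (b (l 16774664) (l 16775136)))) (b (b (l 16778832) (a (b (a (b (a (l 16779120) (l 16779032)) (a (l 16779184) (l 16779072))) (l 16778936)) (a (l 16779256) (b (a (l 16779024) (l 16778928)) (l 16779048)))) (a (l 16778816) (l 16778696)))) (b (a (l 16774200) (b (a (b (a (l 16778936) (l 16778824)) (l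 16778976)) (a (l 16778768) (l 16778704))) (a (l 16779144) (b (a (l 16778864) (l 16778736)) (l 16778904))))) (a (l 16774704) (c (l 16774160) (l 16774160))))))), by decide +kernel⟩

def k60_B00pm_102_s1 : ∃ t, chk3 f_B00pm_102_s1 t 1017 508 1 = true :=
  ⟨(b (a (a (a (l 538109711) (l 538066703)) (a (l 538023951) (l 537980943))) (a (a (l 537938191) (l 537895439)) (a (l 537852687) (l 537809935)))) (a (a (b (l 16778488) (b (a (b (l 16778616) (a (b (l 16778664) (l 16778688)) (l 16778608))) (l 16778512)) (b (a (b (a (l 16778792) (l 16778648)) (l 16778840)) (b (l 16778536) (a (l 16778608) (l 16778520)))) (a (l 16779072) (a (l 16778808) (b (l 16778568) (a (l 16778752) (l 16778656)))))))) (b (l 16778264) (b (l 16778344) (b (l 16778376) (a (a (a (b (a (l 16778496) (l 16778480)) (l 16778568)) (b (l 16778456) (l 16778496))) (l 16778416)) (l 16778336)))))) (a (b (l 16778064) (l 16778160)) (a (l 537726991) (l 537684751))))), by decide +kernel⟩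

def k61_B00pm_102_s1 : ∃ t, chk3 f_B00pm_102_s1 t 1016 1018 1 = true :=
  ⟨(a (b (a (b (l 16775952) (l 16775672)) (b (l 16775696) (l 16775416))) (a (b (l 16780528) (l 16780040)) (b (l 16780240) (l 16779704)))) (b (a (b (l 16775304) (l 16775272)) (b (l 16774792) (a (l 16775232) (b (a (l 16780512) (b (l 16780272) (a (l 16780504) (l 16780432)))) (a (b (l 16780424) (a (l 16780304) (l 16780320))) (b (l 16777832) (l 16780368))))))) (a (b (b (l 16780176) (a (l 16779952) (b (l 16779952) (l 16779816)))) (a (b (l 16779672) (a (l 16779392) (b (l 16779424) (l 16779296)))) (b (a (b (l 16779680) (l 16779544)) (b (l 16779688) (l 16779592))) (l 16779432)))) (b (a (b (a (l 16780120) (b (l 16780176) (l 16780072))) (a (b (l 16779936) (l 16779832)) (l 16779944))) (b (l 16780216) (l 16780048))) (l 16779728))))), by decide +kernel⟩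

def k62_B00pm_102_s1 : ∃ t, chk3 f_B00pm_102_s1 t 1017 1018 1 = true :=
  ⟨(a (b (a (b (a (b (l 16779408) (a (l 16779840) (b (a (l 16779624) (l 16779544)) (a (l 16779808) (l 16779712))))) (b (a (b (l 16779056) (a (l 16779280) (l 16779184))) (a (b (l 16778920) (l 16779088)) (l 16778904))) (a (l 16779480) (l 16779288)))) (a (b (a (b (a (l 16774920) (l 16774832)) (l 16780288)) (l 16780008)) (l 16769960)) (l 16774640))) (b (b (a (b (a (l 16778672) (l 16778496)) (l 16778744)) (b (l 16778352) (a (l 16778464) (l 16778344)))) (a (l 16778992) (a (l 16778696) (l 16778512)))) (l 16774048))) (a (l 16774936) (b (a (l 16774912) (l 16774528)) (l 16775048)))) (b (b (a (b (l 16778200) (a (b (a (l 16778304) (l 16778240)) (a (l 16778400) (b (l 16778248) (l 16778272)))) (l 16778168))) (l 16778024)) (a (b (a (l 16778552) (b (a (b (l 16778208) (l 16778240)) (l 16778152)) (a (l 16778344) (b (l 16778168) (l 16778208))))) (l 16773440)) (b (l 16778040) (a (b (a (b (l 16778128) (l 16778176)) (l 16778072)) (a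 (l 16778288) (b (l 16778096) (l 16778144)))) (l 16778008))))) (a (b (l 16773944) (a (l 16774808) (l 16774424))) (b (b (a (l 16778440) (b (a (b (l 16778064) (l 16778120)) (l 16777992)) (a (l 16778240) (b (l 16778032) (l 16778096))))) (l 16778584)) (l 16773848))))), by decide +kernel⟩

def k63_B00pm_102_s1 : ∃ t, chk3 f_B00pm_102_s1 t 508 1019 1 = true :=
  ⟨(a (a (b (a (b (l 16779440) (b (l 16778920) (a (l 16778664) (l 16778416)))) (b (a (l 16779144) (b (l 16779160) (a (b (l 16778928) (l 16778768)) (b (l 16778896) (l 16778800))))) (a (b (a (l 16778648) (b (l 16778648) (l 16778504))) (a (b (l 16778376) (l 16778240)) (l 16778352))) (l 16778552)))) (a (b (a (b (l 16778256) (a (l 16777888) (b (l 16777864) (l 16777696)))) (b (a (l 16778072) (b (l 16778096) (l 16777984))) (l 16777824))) (a (b (a (b (l 16777576) (l 16777424)) (l 16777528)) (l 16777320)) (l 16777560))) (l 16777960))) (b (a (b (a (b (a (b (l 16779160) (l 16779040)) (l 16779152)) (l 16778952)) (l 16779184)) (l 16778776)) (l 16779232))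 (a (l 16778264) (l 16778552)))) (a (b (a (l 16779512) (b (l 16774720) (l 16779624))) (c (l 16776400) (l 16776312))) (b (a (b (l 16774984) (l 16774648)) (b (a (l 16774712) (l 16774328)) (l 16774912))) (b (a (l 16779552) (l 16774568)) (l 16776720))))), by decide +kernel⟩

def k64_B00pm_102_s1 : ∃ t, chk3 f_B00pm_102_s1 t 509 508 1 = true :=
  ⟨(a (a (a (a (b (l 537767183) (l 537642767)) (b (l 537724687) (l 537600527))) (a (b (l 537682191) (l 537558543)) (b (l 537639951) (l 537516559)))) (a (a (b (l 537597711) (l 537474319)) (b (l 537555471) (l 537164047))) (a (b (l 537244943) (a (l 537401615) (l 537380623))) (b (a (l 537482255) (l 537461263)) (a (l 537359631) (l 537338639)))))) (b (b (l 3) (a (a (a (l 537400847) (l 537358863)) (a (a (l 537327887) (l 3)) (l 3))) (l 3))) (a (a (a (a (l 537317647) (l 537296655)) (a (l 537275663) (l 537254927))) (a (a (l 537233935) (l 537212943)) (a (l 537191951) (l 537171215)))) (a (a (a (l 537150223) (l 537129231)) (a (l 537108495) (l 537087503))) (a (a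 (l 537066511) (l 537045775)) (a (l 537024783) (l 537004047))))))), by decide +kernel⟩

def k65_B00pm_102_s1 : ∃ t, chk3 f_B00pm_102_s1 t 1018 1018 1 = true :=
  ⟨(a (b (a (l 16777864) (c (l 16777720) (l 16777704))) (b (a (b (a (a (l 16777952) (l 16777912)) (l 16777848)) (a (b (a (l 16778040) (l 16777920)) (a (l 16778192) (l 16778016))) (b (l 16777856) (a (b (l 16777880) (l 16777896)) (l 16777840))))) (l 16777736)) (a (b (a (l 16778352) (b (a (l 16777992) (b (l 16777840) (l 16777864))) (l 16778056))) (l 16778496)) (b (a (b (l 16777784) (a (b (l 16777808) (l 16777840)) (l 16777768))) (l 16777712)) (a (b (a (l 16777944) (b (l 16777776) (l 16777816))) (l 16778016)) (b (l 16777712) (a (b (l 16777744) (l 16777792)) (l 16777696)))))))) (a (a (b (l 16777608) (l 16777640)) (b (l 16777552) (l 16777576))) (a (b (l 537301519) (l 16777520)) (b (l 537259791) (l 16777464))))), by decide +kernel⟩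

def k66_B00pm_102_s1 : ∃ t, chk3 f_B00pm_102_s1 t 1018 1019 1 = true :=
  ⟨(a (b (b (a (c (l 16773760) (l 16773760)) (b (a (l 16778272) (b (a (l 16777904) (b (l 16777712) (l 16777768))) (l 16777976))) (l 16778416))) (a (a (l 16774632) (l 16774248)) (a (l 16773872) (l 16773496)))) (a (b (l 16774824) (l 16774480)) (b (l 16774368) (l 16774720)))) (b (b (a (b (a (b (l 16777640) (a (b (l 16777688) (l 16777744)) (l 16777632))) (l 16777576)) (a (b (a (l 16777864) (b (l 16777664) (l 16777728))) (l 16777944)) (b (a (b (l 16777600) (l 16777600)) (l 16777568)) (a (b (l 16777640) (l 16777712)) (b (l 16777568) (l 16777576)))))) (l 16777488)) (a (b (a (l 16778200) (a (l 16777920) (b (b (l 16777624) (l 16777696)) (l 16777824)))) (l 16775728)) (b (a (b (a (b (l 16777528) (a (l 16777568) (l 16777528))) (l 16777504)) (a (l 16777648) (b (l 16777504) (a (l 16777552) (l 16777496))))) (l 16777456)) (a (a (l 16777888) (l 16777712)) (b (a (b (l 16777472) (a (l 16777536) (l 16777472))) (l 16777440)) (a (l 16777616)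 (b (l 16777448) (a (l 16777520) (l 16777448))))))))) (a (b (a (l 16773808) (c (l 16778680) (l 16778680))) (a (l 16774496) (l 16774128))) (b (a (l 16775688) (l 16775328)) (a (l 16773752) (l 14)))))), by decide +kernel⟩

def k67_B00pm_102_s1 : ∃ t, chk3 f_B00pm_102_s1 t 1019 509 1 = true :=
  ⟨(b (a (a (a (a (l 537195535) (l 537174543)) (a (l 537153807) (l 537132815))) (a (a (l 537112079) (l 537091087)) (a (l 537070351) (l 537049615)))) (a (a (a (l 537028623) (l 537007887)) (a (l 536986895) (l 536966159))) (a (a (l 536945423) (l 536924687)) (a (l 536903695) (l 536882959))))) (a (b (a (b (l 16777392) (l 16777384)) (b (l 16777304) (l 14))) (l 14)) (l 14))), by decide +kernel⟩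

def k68_B00pm_102_s1 : ∃ t, chk3 f_B00pm_102_s1 t 255 254 1 = true :=
  ⟨(b (l 3) (l 14)), by decide +kernel⟩

def k69_B00pm_102_s1 : ∃ t, chk3 f_B00pm_102_s1 t 508 1020 1 = true :=
  ⟨(a (b (a (a (l 16776960) (l 16777272)) (a (l 16777568) (l 16777856))) (a (b (l 16776584) (l 16776232)) (b (l 16777184) (l 16776824)))) (a (b (a (l 16778144) (l 16778416)) (b (l 16777752) (l 16777392))) (b (a (l 16778688) (l 16776328)) (b (l 16778288) (l 16777928))))), by decide +kernel⟩

def k70_B00pm_102_s1 : ∃ t, chk3 f_B00pm_102_s1 t 508 1021 1 = true :=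
  ⟨(b (a (a (b (l 16775864) (b (l 16775592) (a (b (l 16775296) (a (b (a (l 16775152) (l 16775192)) (a (l 16775280) (b (l 16775184) (l 16775240)))) (l 16775304))) (l 16775560)))) (b (l 16776464) (l 16776096))) (a (b (l 16777032) (l 16776664)) (b (l 16777568) (l 16777200)))) (a (b (a (b (a (b (a (l 16775560) (b (a (l 16775312) (b (l 16775272) (l 16775296))) (l 16775480))) (l 16775896)) (b (a (b (l 16775376) (a (b (l 16775336) (l 16775400)) (l 16775384))) (l 16775496)) (a (l 16775616) (b (a (b (l 16775416) (l 16775448)) (l 16775472)) (a (l 16775592) (l 16775520)))))) (l 16776352)) (b (a (a (b (l 16775648) (c (l 16775696) (l 16775456))) (l 16775752)) (l 16775968)) (a (b (a (b (a (l 16775624) (b (l 16775552) (l 16775592))) (l 16775792)) (b (l 16775640) (a (l 16775664) (l 16775656)))) (l 16776016)) (b (l 16775824) (a (b (a (b (l 16775688) (l 16775736)) (l 16775736)) (l 16775840)) (b (l 16775832) (a (l 16775784) (l 16775816)))))))) (a (a (l 16777808) (l 16777432)) (a (l 16777056) (b (b (a (l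 16776160) (b (a (l 16775920) (b (l 16775816) (l 16775872))) (l 16776080))) (l 16776480)) (l 16777096))))) (b (a (l 16776296) (l 16776832)) (a (b (a (b (a (b (l 16775896) (a (l 16775936) (b (l 16775888) (l 16775912)))) (l 16776000)) (a (l 16776200) (b (a (l 16775976) (l 16775984)) (l 16776120)))) (b (l 16776200) (a (b (l 16776064) (a (b (l 16776008) (l 16776040)) (l 16776056))) (l 16776176)))) (a (l 16776720) (b (a (b (a (l 16776192) (l 16776104)) (l 16776344)) (a (b (l 16776096) (l 16776208)) (l 14))) (l 16776560)))) (l 14))))), by decide +kernel⟩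

def k71_B00pm_102_s1 : ∃ t, chk3 f_B00pm_102_s1 t 509 510 1 = true :=
  ⟨(b (a (a (b (a (l 16776576) (b (l 16774376) (l 16779272))) (b (l 16778792) (l 16778432))) (a (b (b (l 16774616) (l 14)) (l 14)) (l 14))) (l 14)) (l 14)), by decide +kernel⟩

def k72_B00pm_102_s1 : ∃ t, chk3 f_B00pm_102_s1 t 254 511 1 = true :=
  ⟨(a (b (b (a (a (b (l 16774040) (l 16775680)) (b (l 16773264) (l 16774880))) (a (b (c (l 16772600) (l 16772400)) (l 16774088)) (l 14))) (a (b (a (l 16772056) (a (l 16771432) (l 16771016))) (a (l 16773640) (l 16772776))) (l 14))) (a (b (a (a (l 16772352) (l 16772296)) (a (l 16772232) (l 14))) (a (l 16775256) (l 14))) (l 14))) (l 14)), by decide +kernel⟩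

def k73_B00pm_102_s1 : ∃ t, chk3 f_B00pm_102_s1 t 255 255 1 = true :=
  ⟨(l 14), by decide +kernel⟩

theorem t74_B00pm_102_s1 : ∃ t, chk3 f_B00pm_102_s1 t 508 510 1 = true := ex3_b k69_B00pm_102_s1 k70_B00pm_102_s1

theorem t75_B00pm_102_s1 : ∃ t, chk3 f_B00pm_102_s1 t 254 510 1 = true := ex3_a t74_B00pm_102_s1 k71_B00pm_102_s1

theorem t76_B00pm_102_s1 : ∃ t, chk3 f_B00pm_102_s1 t 254 255 1 = true := ex3_b t75_B00pm_102_s1 k72_B00pm_102_s1

theorem t77_B00pm_102_s1 : ∃ t, chk3 f_B00pm_102_s1 t 127 255 1 = true := ex3_a t76_B00pm_102_s1 k73_B00pm_102_s1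

theorem t78_B00pm_102_s1 : ∃ t, chk3 f_B00pm_102_s1 t 1018 509 1 = true := ex3_b k65_B00pm_102_s1 k66_B00pm_102_s1

theorem t79_B00pm_102_s1 : ∃ t, chk3 f_B00pm_102_s1 t 509 509 1 = true := ex3_a t78_B00pm_102_s1 k67_B00pm_102_s1

theorem t80_B00pm_102_s1 : ∃ t, chk3 f_B00pm_102_s1 t 509 254 1 = true := ex3_b k64_B00pm_102_s1 t79_B00pm_102_s1

theorem t81_B00pm_102_s1 : ∃ t, chk3 f_B00pm_102_s1 t 508 1018 1 = true := ex3_a k61_B00pm_102_s1 k62_B00pm_102_s1

theorem t82_B00pm_102_s1 : ∃ t, chk3 f_B00pm_102_s1 t 508 509 1 = true := ex3_b t81_B00pm_102_s1 k63_B00pm_102_s1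

theorem t83_B00pm_102_s1 : ∃ t, chk3 f_B00pm_102_s1 t 508 508 1 = true := ex3_a k59_B00pm_102_s1 k60_B00pm_102_s1

theorem t84_B00pm_102_s1 : ∃ t, chk3 f_B00pm_102_s1 t 508 254 1 = true := ex3_b t83_B00pm_102_s1 t82_B00pm_102_s1

theorem t85_B00pm_102_s1 : ∃ t, chk3 f_B00pm_102_s1 t 254 254 1 = true := ex3_a t84_B00pm_102_s1 t80_B00pm_102_s1

theorem t86_B00pm_102_s1 : ∃ t, chk3 f_B00pm_102_s1 t 127 254 1 = true := ex3_a t85_B00pm_102_s1 k68_B00pm_102_s1

theorem t87_B00pm_102_s1 : ∃ t, chk3 f_B00pm_102_s1 t 127 127 1 = true := ex3_b t86_B00pm_102_s1 t77_B00pm_102_s1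

theorem t88_B00pm_102_s1 : ∃ t, chk3 f_B00pm_102_s1 t 1015 510 1 = true := ex3_b k56_B00pm_102_s1 k57_B00pm_102_s1

theorem t89_B00pm_102_s1 : ∃ t, chk3 f_B00pm_102_s1 t 507 510 1 = true := ex3_a k55_B00pm_102_s1 t88_B00pm_102_s1

theorem t90_B00pm_102_s1 : ∃ t, chk3 f_B00pm_102_s1 t 253 510 1 = true := ex3_a k54_B00pm_102_s1 t89_B00pm_102_s1

theorem t91_B00pm_102_s1 : ∃ t, chk3 f_B00pm_102_s1 t 253 255 1 = true := ex3_b t90_B00pm_102_s1 k58_B00pm_102_s1

theorem t92_B00pm_102_s1 : ∃ t, chk3 f_B00pm_102_s1 t 126 255 1 = true := ex3_a k53_B00pm_102_s1 t91_B00pm_102_s1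

theorem t93_B00pm_102_s1 : ∃ t, chk3 f_B00pm_102_s1 t 253 509 1 = true := ex3_a k51_B00pm_102_s1 k52_B00pm_102_s1

theorem t94_B00pm_102_s1 : ∃ t, chk3 f_B00pm_102_s1 t 253 508 1 = true := ex3_a k49_B00pm_102_s1 k50_B00pm_102_s1

theorem t95_B00pm_102_s1 : ∃ t, chk3 f_B00pm_102_s1 t 253 254 1 = true := ex3_b t94_B00pm_102_s1 t93_B00pm_102_s1

theorem t96_B00pm_102_s1 : ∃ t, chk3 f_B00pm_102_s1 t 126 254 1 = true := ex3_a k48_B00pm_102_s1 t95_B00pm_102_s1

theorem t97_B00pm_102_s1 : ∃ t, chk3 f_B00pm_102_s1 t 126 127 1 = true := ex3_b t96_B00pm_102_s1 t92_B00pm_102_s1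

theorem t98_B00pm_102_s1 : ∃ t, chk3 f_B00pm_102_s1 t 63 127 1 = true := ex3_a t97_B00pm_102_s1 t87_B00pm_102_s1

theorem t99_B00pm_102_s1 : ∃ t, chk3 f_B00pm_102_s1 t 506 507 1 = true := ex3_a k44_B00pm_102_s1 k45_B00pm_102_s1

theorem t100_B00pm_102_s1 : ∃ t, chk3 f_B00pm_102_s1 t 253 507 1 = true := ex3_a t99_B00pm_102_s1 k46_B00pm_102_s1

theorem t101_B00pm_102_s1 : ∃ t, chk3 f_B00pm_102_s1 t 253 253 1 = true := ex3_b k43_B00pm_102_s1 t100_B00pm_102_s1

theorem t102_B00pm_102_s1 : ∃ t, chk3 f_B00pm_102_s1 t 253 126 1 = true := ex3_b k42_B00pm_102_s1 t101_B00pm_102_s1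

theorem t103_B00pm_102_s1 : ∃ t, chk3 f_B00pm_102_s1 t 505 506 1 = true := ex3_a k39_B00pm_102_s1 k40_B00pm_102_s1

theorem t104_B00pm_102_s1 : ∃ t, chk3 f_B00pm_102_s1 t 252 506 1 = true := ex3_a k38_B00pm_102_s1 t103_B00pm_102_s1

theorem t105_B00pm_102_s1 : ∃ t, chk3 f_B00pm_102_s1 t 252 253 1 = true := ex3_b t104_B00pm_102_s1 k41_B00pm_102_s1

theorem t106_B00pm_102_s1 : ∃ t, chk3 f_B00pm_102_s1 t 504 505 1 = true := ex3_b k35_B00pm_102_s1 k36_B00pm_102_s1

theorem t107_B00pm_102_s1 : ∃ t, chk3 f_B00pm_102_s1 t 504 252 1 = true := ex3_b k34_B00pm_102_s1 t106_B00pm_102_s1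

theorem t108_B00pm_102_s1 : ∃ t, chk3 f_B00pm_102_s1 t 252 252 1 = true := ex3_a t107_B00pm_102_s1 k37_B00pm_102_s1

theorem t109_B00pm_102_s1 : ∃ t, chk3 f_B00pm_102_s1 t 252 126 1 = true := ex3_b t108_B00pm_102_s1 t105_B00pm_102_s1

theorem t110_B00pm_102_s1 : ∃ t, chk3 f_B00pm_102_s1 t 126 126 1 = true := ex3_a t109_B00pm_102_s1 t102_B00pm_102_s1

theorem t111_B00pm_102_s1 : ∃ t, chk3 f_B00pm_102_s1 t 63 126 1 = true := ex3_a t110_B00pm_102_s1 k47_B00pm_102_s1

theorem t112_B00pm_102_s1 : ∃ t, chk3 f_B00pm_102_s1 t 63 63 1 = true := ex3_b t111_B00pm_102_s1 t98_B00pm_102_s1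

theorem t113_B00pm_102_s1 : ∃ t, chk3 f_B00pm_102_s1 t 503 1008 1 = true := ex3_a k28_B00pm_102_s1 k29_B00pm_102_s1

theorem t114_B00pm_102_s1 : ∃ t, chk3 f_B00pm_102_s1 t 503 504 1 = true := ex3_b t113_B00pm_102_s1 k30_B00pm_102_s1

theorem t115_B00pm_102_s1 : ∃ t, chk3 f_B00pm_102_s1 t 503 252 1 = true := ex3_b t114_B00pm_102_s1 k31_B00pm_102_s1

theorem t116_B00pm_102_s1 : ∃ t, chk3 f_B00pm_102_s1 t 251 252 1 = true := ex3_a k27_B00pm_102_s1 t115_B00pm_102_s1

theorem t117_B00pm_102_s1 : ∃ t, chk3 f_B00pm_102_s1 t 125 252 1 = true := ex3_a k26_B00pm_102_s1 t116_B00pm_102_s1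

theorem t118_B00pm_102_s1 : ∃ t, chk3 f_B00pm_102_s1 t 125 126 1 = true := ex3_b t117_B00pm_102_s1 k32_B00pm_102_s1

theorem t119_B00pm_102_s1 : ∃ t, chk3 f_B00pm_102_s1 t 62 126 1 = true := ex3_a k25_B00pm_102_s1 t118_B00pm_102_s1

theorem t120_B00pm_102_s1 : ∃ t, chk3 f_B00pm_102_s1 t 62 63 1 = true := ex3_b t119_B00pm_102_s1 k33_B00pm_102_s1

theorem t121_B00pm_102_s1 : ∃ t, chk3 f_B00pm_102_s1 t 31 63 1 = true := ex3_a t120_B00pm_102_s1 t112_B00pm_102_s1

theorem t122_B00pm_102_s1 : ∃ t, chk3 f_B00pm_102_s1 t 1005 503 1 = true := ex3_b k21_B00pm_102_s1 k22_B00pm_102_s1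

theorem t123_B00pm_102_s1 : ∃ t, chk3 f_B00pm_102_s1 t 1005 251 1 = true := ex3_b k20_B00pm_102_s1 t122_B00pm_102_s1

theorem t124_B00pm_102_s1 : ∃ t, chk3 f_B00pm_102_s1 t 1004 1006 1 = true := ex3_b k17_B00pm_102_s1 k18_B00pm_102_s1

theorem t125_B00pm_102_s1 : ∃ t, chk3 f_B00pm_102_s1 t 1004 503 1 = true := ex3_b t124_B00pm_102_s1 k19_B00pm_102_s1

theorem t126_B00pm_102_s1 : ∃ t, chk3 f_B00pm_102_s1 t 1004 251 1 = true := ex3_b k16_B00pm_102_s1 t125_B00pm_102_s1

theorem t127_B00pm_102_s1 : ∃ t, chk3 f_B00pm_102_s1 t 502 251 1 = true := ex3_a t126_B00pm_102_s1 t123_B00pm_102_s1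

theorem t128_B00pm_102_s1 : ∃ t, chk3 f_B00pm_102_s1 t 251 251 1 = true := ex3_a t127_B00pm_102_s1 k23_B00pm_102_s1

theorem t129_B00pm_102_s1 : ∃ t, chk3 f_B00pm_102_s1 t 501 502 1 = true := ex3_b k13_B00pm_102_s1 k14_B00pm_102_s1

theorem t130_B00pm_102_s1 : ∃ t, chk3 f_B00pm_102_s1 t 250 502 1 = true := ex3_a k12_B00pm_102_s1 t129_B00pm_102_s1

theorem t131_B00pm_102_s1 : ∃ t, chk3 f_B00pm_102_s1 t 250 251 1 = true := ex3_b t130_B00pm_102_s1 k15_B00pm_102_s1

theorem t132_B00pm_102_s1 : ∃ t, chk3 f_B00pm_102_s1 t 125 251 1 = true := ex3_a t131_B00pm_102_s1 t128_B00pm_102_s1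

theorem t133_B00pm_102_s1 : ∃ t, chk3 f_B00pm_102_s1 t 125 250 1 = true := ex3_a k10_B00pm_102_s1 k11_B00pm_102_s1

theorem t134_B00pm_102_s1 : ∃ t, chk3 f_B00pm_102_s1 t 125 125 1 = true := ex3_b t133_B00pm_102_s1 t132_B00pm_102_s1

theorem t135_B00pm_102_s1 : ∃ t, chk3 f_B00pm_102_s1 t 125 62 1 = true := ex3_b k9_B00pm_102_s1 t134_B00pm_102_s1

theorem t136_B00pm_102_s1 : ∃ t, chk3 f_B00pm_102_s1 t 62 62 1 = true := ex3_a k8_B00pm_102_s1 t135_B00pm_102_s1

theorem t137_B00pm_102_s1 : ∃ t, chk3 f_B00pm_102_s1 t 31 62 1 = true := ex3_a t136_B00pm_102_s1 k24_B00pm_102_s1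

theorem t138_B00pm_102_s1 : ∃ t, chk3 f_B00pm_102_s1 t 31 31 1 = true := ex3_b t137_B00pm_102_s1 t121_B00pm_102_s1

theorem t139_B00pm_102_s1 : ∃ t, chk3 f_B00pm_102_s1 t 31 15 1 = true := ex3_b k7_B00pm_102_s1 t138_B00pm_102_s1

theorem t140_B00pm_102_s1 : ∃ t, chk3 f_B00pm_102_s1 t 15 15 1 = true := ex3_a k6_B00pm_102_s1 t139_B00pm_102_s1

theorem t141_B00pm_102_s1 : ∃ t, chk3 f_B00pm_102_s1 t 15 7 1 = true := ex3_b k5_B00pm_102_s1 t140_B00pm_102_s1

theorem t142_B00pm_102_s1 : ∃ t, chk3 f_B00pm_102_s1 t 7 7 1 = true := ex3_a k4_B00pm_102_s1 t141_B00pm_102_s1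

theorem t143_B00pm_102_s1 : ∃ t, chk3 f_B00pm_102_s1 t 7 3 1 = true := ex3_b k3_B00pm_102_s1 t142_B00pm_102_s1

theorem t144_B00pm_102_s1 : ∃ t, chk3 f_B00pm_102_s1 t 3 3 1 = true := ex3_a k2_B00pm_102_s1 t143_B00pm_102_s1

theorem t145_B00pm_102_s1 : ∃ t, chk3 f_B00pm_102_s1 t 3 1 1 = true := ex3_b k1_B00pm_102_s1 t144_B00pm_102_s1

theorem t146_B00pm_102_s1 : ∃ t, chk3 f_B00pm_102_s1 t 1 1 1 = true := ex3_a k0_B00pm_102_s1 t145_B00pm_102_s1

theorem c_B00pm_102_s1 : CertF 536870912 536870912 0 536870912 1045395039 1503240 false true false .npp 1 0 2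
    ndB0q1 ndB0q2 pcB0 cut_B00pm_102_s1 xt_B00pm_102_s1 :=
  certF0 (fam := false) (s1 := true) (s2 := false) (a := 1) (b := 0) (c := 2) (cn := .npp) (n1 := ndB0q1) (n2 := ndB0q2) (pc := pcB0) (cut := cut_B00pm_102_s1) (xt := xt_B00pm_102_s1) (P1 := 536870912) (W1 := 536870912) (P2 := 0) (W2 := 536870912) (P3 := 1045395039) (W3 := 1503240)
    rfl t146_B00pm_102_s1

theorem s_B00pm_102_s1 {κ x : ℝ} (hκ : κ * h0 = ken x) (hx : ((1045395039 : ℕ) : ℝ) / S ≤ x)
    (hx' : x ≤ (((1045395039 : ℕ) : ℝ) + (1503240 : ℕ)) / S)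
    (H : CutB (VFD κ) PP tK tL pcB (Cut.of [[⟨0, 1, 0, 8388608⟩, ⟨1, 0, 0, 8388608⟩, ⟨2, 1, 0, 8388608⟩], [⟨0, 0, 1, 46137344⟩, ⟨1, 1, 2, 46137344⟩, ⟨2, 1, 0, 1048576⟩, ⟨0, 0, 0, 1056440320⟩, ⟨0, 1, 0, 33457795⟩, ⟨1, 0, 0, 33457795⟩, ⟨1, 1, 0, 1056440320⟩]]) 1 0 2 0 0 (sgb true) (sgb false) x) :
    AltB (VFD κ) PP tK tL pcB [⟨3, 0, 0, 1100585369⟩] 1 0 2 0 0 (sgb true) (sgb false) x :=
  strip_altBD (m := 1100585369) true rfl hκ (SH.κ0 hκ (SH.hx1 hx).le (SH.hx2 hx').le) (SH.hx1 hx).le (SH.hx2 hx') (covB01).cov (covB02).cov hx hx' c_B00pm_102_s1 H ((okx hx hx').extB (T := tt) (sideB hx hx') hκ rfl rfl (.O 1 true) (.O 2 false) (Or.inl rfl))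

noncomputable def cut_A00pp_022_s3 : Cut := Cut.of [[⟨3, 0, 0, 2845415833⟩], [⟨0, 0, 0, 16777216⟩, ⟨1, 1, 0, 16777216⟩, ⟨2, 1, 0, 16777216⟩]]

noncomputable def xt_A00pp_022_s3 : Ext := strExt dd true true true .u0 .u2 .s2 .pp 0 2 2 rfl rfl gl2 vv ndB0q0 ndB0q2

noncomputable def f_A00pp_022_s3 : ℕ → ℕ → ℕ → ℕ → Bool := onCell 0 536870912 0 536870912 1045395039 1503240
    (rowF 0 true true true .pp 0 2 2 (qsf 0 536870912 0 536870912 2) ndB0q0 ndB0q2 pcB2 cut_A00pp_022_s3 xt_A00pp_022_s3)

def k0_A00pp_022_s3 : ∃ t, chk3 f_A00pp_022_s3 t 4 2 1 = true :=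
  ⟨(a (l 6) (b (l 6) (b (l 6) (b (l 6) (a (a (l 6) (b (l 6) (l 16199480))) (a (b (a (l 6) (l 16055000)) (a (l 16159424) (l 16137544))) (b (a (l 16033864) (l 16016376)) (a (l 16119224) (l 16125448))))))))), by decide +kernel⟩

def k1_A00pp_022_s3 : ∃ t, chk3 f_A00pp_022_s3 t 5 2 1 = true :=
  ⟨(b (a (l 6) (b (l 6) (a (l 6) (b (l 6) (a (l 6) (l 15199776)))))) (b (a (a (l 6) (b (l 6) (a (b (l 6) (l 15666280)) (b (l 15552384) (l 15669544))))) (a (b (a (a (l 6) (l 15382456)) (l 513752591)) (a (b (l 15565464) (l 15687064)) (b (l 15592416) (l 15718104)))) (b (a (l 512590351) (b (l 15411416) (l 15549456))) (a (l 513164815) (b (l 15684944) (l 15817720)))))) (a (a (b (a (b (l 6) (a (l 15909224) (l 15896912))) (b (a (l 15787096) (l 15779952)) (a (l 15888488) (l 15883872)))) (b (a (a (l 16002792) (a (l 15995160) (l 15991280))) (a (a (l 15988344) (l 15986344)) (b (l 15960032) (l 16009912)))) (a (a (a (l 16095912) (l 16091400)) (b (l 16063360) (l 16067304))) (a (b (l 16059360) (l 16064544)) (b (l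 16059024) (l 16086368)))))) (b (a (b (a (l 15776600) (l 15776960)) (a (l 15882960) (l 15885672))) (b (a (l 15780936) (l 15788432)) (a (l 15891912) (l 15901592)))) (a (b (a (a (l 15985832) (l 15987464)) (l 16007288)) (a (b (l 16062256) (l 16069776)) (b (l 16068960) (l 16077592)))) (b (a (l 16020984) (l 16032800)) (a (b (l 16079048) (l 16130704)) (b (l 16092440) (l 16145128))))))) (a (a (b (b (l 516030479) (a (l 15914624) (l 15930896))) (a (b (l 16047872) (b (l 16109032) (l 16162712))) (b (l 16076600) (l 517062159)))) (b (b (l 514802191) (l 515139087)) (b (a (l 16097928) (l 515460367)) (a (l 516439055) (l 515830031))))) (b (a (b (l 513899279) (a (l 15998328) (l 16026680))) (b (l 512786191) (l 513112591))) (a (b (a (l 16159920) (l 514291983)) (a (l 515234831) (l 514654223))) (a (b (l 513729295) (l 514087695)) (l 514164751)))))))), by decide +kernel⟩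

def k2_A00pp_022_s3 : ∃ t, chk3 f_A00pp_022_s3 t 8 6 1 = true :=
  ⟨(b (b (a (l 6) (a (l 6) (l 16358840))) (a (a (l 16259608) (l 16252712)) (a (l 16476824) (l 16424136)))) (b (a (a (b (l 16254192) (l 16257256)) (a (l 16367080) (l 16439200))) (a (a (l 16502536) (l 16558904)) (b (l 16536224) (l 16542832)))) (a (a (b (l 16266616) (a (l 16249632) (l 16315984))) (b (a (l 16371648) (l 16439160)) (a (l 16382864) (l 16447312)))) (a (b (l 16524832) (l 16444712)) (b (l 16534520) (a (l 16596632) (l 16635576))))))), by decide +kernel⟩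

def k3_A00pp_022_s3 : ∃ t, chk3 f_A00pp_022_s3 t 9 6 1 = true :=
  ⟨(a (b (b (a (b (l 16333608) (l 16396680)) (b (l 16271784) (l 16257024))) (a (a (l 16415480) (l 16387736)) (b (l 16322616) (a (l 16477656) (l 16459664))))) (a (b (b (l 16479936) (l 16527120)) (a (b (l 16663176) (l 16669616)) (b (l 16644976) (l 16599672)))) (b (a (b (l 16533520) (l 16584824)) (b (l 16518432) (l 16572472))) (a (b (l 16631176) (l 16630216)) (b (l 16537464) (b (l 16654480) (l 16674792))))))) (b (a (b (b (a (l 16236160) (l 16217120)) (a (l 16309640) (l 16293392))) (a (b (l 16379504) (l 16445392)) (b (l 16366008) (l 16434616)))) (b (b (a (l 16222536) (b (l 16168512) (l 16210192))) (a (a (l 16283472) (l 16277880)) (b (l 16251008) (l 16290912)))) (a (b (b (l 16337352) (l 16374016)) (b (l 16409640) (l 16444192))) (b (b (l 16329856) (l 16367808)) (b (l 16404712) (l 16440536)))))) (a (b (a (b (l 16506920) (l 16563704)) (b (l 16498832) (l 16516336))) (a (b (l 16573376) (b (l 16650336) (l 16671904))) (b (b (l 16599472)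 (l 16625248)) (b (l 16649592) (l 529447439))))) (b (a (b (b (l 16477608) (l 16509864)) (b (l 16540888) (l 16570640))) (b (b (l 16475224) (l 16508728)) (b (l 16541016) (l 16572024)))) (a (b (b (l 16599080) (l 16626136)) (a (l 529239055) (l 528840207))) (b (b (l 16601712) (l 527760911)) (b (l 528072207) (l 528391183)))))))), by decide +kernel⟩

def k4_A00pp_022_s3 : ∃ t, chk3 f_A00pp_022_s3 t 8 28 1 = true :=
  ⟨(a (a (b (a (l 16275248) (l 16338024)) (b (a (l 16299936) (l 16360000)) (a (l 16319160) (l 16377408)))) (b (a (l 16401536) (l 16462752)) (a (b (l 16420848) (l 16436472)) (b (l 16479600) (l 16493504))))) (a (a (b (l 16515728) (b (l 16530224) (l 16542496))) (b (l 16562120) (b (l 16574416) (l 16585208)))) (a (b (l 16603472) (b (l 16613656) (l 16623024))) (b (l 16597856) (b (l 16647976) (l 16614048)))))), by decide +kernel⟩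

def k5_A00pp_022_s3 : ∃ t, chk3 f_A00pp_022_s3 t 16 29 1 = true :=
  ⟨(b (a (a (b (a (l 16326704) (l 16354760)) (a (l 16351520) (l 16378640))) (a (b (l 16382960) (l 16405912)) (b (l 16411320) (l 16433344)))) (a (a (b (l 16439824) (l 16460944)) (b (l 16468536) (l 16488752))) (a (b (l 16496776) (l 16516096)) (b (l 16522664) (l 16541112))))) (a (b (a (a (b (l 16372080) (l 16386928)) (l 16416088)) (a (b (l 16425136) (l 16438904)) (b (l 16451872) (l 16465168)))) (a (b (a (l 16402824) (l 16427736)) (a (l 16419560) (l 16448880))) (a (b (l 16453424) (a (l 16462272) (l 16474984))) (b (l 16479208) (l 16493992))))) (b (a (a (b (l 16478776) (l 16491608)) (b (l 16505896) (l 16518272))) (a (b (l 16532568) (l 16544480)) (b (l 16556904) (l 16568368)))) (b (a (a (l 16505184) (l 16531376)) (a (l 16557128) (l 16580560))) (a (a (l 16519496) (b (l 16541688) (l 16548792))) (a (a (l 16564336) (l 16576528)) (a (l 16588088) (l 16598872)))))))), by decide +kernel⟩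

def k6_A00pp_022_s3 : ∃ t, chk3 f_A00pp_022_s3 t 17 29 1 = true :=
  ⟨(a (a (b (b (l 16557008) (b (l 16569584) (l 16578888))) (b (a (b (l 16578656) (l 16589664)) (b (l 16598928) (l 16609504))) (a (b (l 16601416) (l 16613880)) (b (l 16620800) (a (l 16628184) (l 16637376)))))) (b (b (l 16556240) (a (l 16604248) (l 16622880))) (a (b (b (l 16618088) (l 16628224)) (b (l 16639080) (a (l 16646296) (l 16654936)))) (b (b (l 16636120) (l 16645840)) (b (l 16656272) (b (l 16664544) (l 16670288))))))) (b (a (a (b (l 16625896) (l 16640328)) (b (l 16642880) (l 16656592))) (a (b (l 16658680) (b (l 16668160) (l 16675368))) (b (l 16673296) (l 528471823)))) (a (a (a (b (l 16653520) (l 526324495)) (b (l 16661576) (l 526584335))) (a (b (l 16658848) (l 526841615)) (b (l 527626255) (l 527096079)))) (a (b (b (l 16683264) (l 16691856)) (a (l 527346703) (l 527593487))) (b (b (l 16696672) (l 528346639)) (a (l 527835151) (l 528072975))))))), by decide +kernel⟩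

def k7_A00pp_022_s3 : ∃ t, chk3 f_A00pp_022_s3 t 18 28 1 = true :=
  ⟨(a (b (a (b (l 16670184) (l 16672920)) (b (l 16697976) (l 16699520))) (a (b (l 16593736) (a (l 16677648) (l 16690768))) (b (l 16682048) (a (l 16702856) (l 16671992))))) (b (a (b (l 16699280) (l 16673584)) (a (l 531996431) (l 531584783))) (a (b (a (l 16719392) (l 16687152)) (a (l 16703064) (l 16722696))) (b (a (l 16685576) (l 532385039)) (a (l 532910351) (l 532234255)))))), by decide +kernel⟩

def k8_A00pp_022_s3 : ∃ t, chk3 f_A00pp_022_s3 t 18 29 1 = true :=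
  ⟨(a (b (a (a (b (l 16686816) (l 529209615)) (b (l 16688808) (b (l 16707272) (l 16702984)))) (b (a (l 530928143) (l 531374351)) (a (l 529857807) (b (l 16717808) (l 530710799))))) (a (b (a (b (l 16698520) (l 528817423)) (a (l 529297167) (l 529526799))) (a (a (l 528308751) (l 528542735)) (a (l 528774927) (l 529005327)))) (b (a (a (l 529754639) (l 529980687)) (a (l 530204943) (l 530427663))) (a (a (b (l 529363983) (l 529105167)) (b (l 529590287) (l 529331983))) (a (b (l 529815055) (l 529557007)) (b (l 530038031) (a (l 529724687) (l 529835791)))))))) (b (a (b (a (l 531545615) (l 531709711)) (a (b (l 531415823) (l 531151631)) (b (l 531849231) (l 531585295)))) (b (a (l 532135439) (b (l 533088271) (l 532691727))) (a (b (l 532275727) (a (l 531906831) (l 532118543))) (b (l 532427279) (a (l 532328719) (l 532537103)))))) (a (b (a (a (l 530648335) (l 530867471)) (a (l 530816271) (b (l 531431183) (l 531170575)))) (a (a (b (l 530259215) (a (l 529946383) (l 530056719))) (b (l 530478351) (l 529952527)))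 (b (a (l 530695951) (b (l 530976527) (l 530847759))) (a (b (l 530503183) (l 530374927)) (b (l 530719247) (a (l 530537487) (l 4))))))) (b (a (b (a (l 531644943) (l 531856911)) (a (l 531384591) (b (l 531661839) (l 531532303)))) (a (b (l 532067087) (a (b (l 531819791) (l 531690255)) (a (l 531833615) (l 531885839)))) (b (l 532275727) (l 532016143)))) (a (b (a (b (l 531190799) (l 531061775)) (b (b (l 531435279) (l 531370767)) (l 531274255))) (a (b (a (l 530880271) (l 4)) (l 4)) (l 4))) (b (b (a (a (l 531561231) (b (a (l 531403791) (l 531456271)) (l 4))) (l 4)) (l 4)) (l 4))))))), by decide +kernel⟩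

def k9_A00pp_022_s3 : ∃ t, chk3 f_A00pp_022_s3 t 19 28 1 = true :=
  ⟨(a (b (a (b (l 530812431) (a (l 16710360) (l 16700472))) (b (a (l 16693024) (l 16673752)) (a (l 530830607) (l 530449167)))) (a (a (b (l 531971855) (l 532082447)) (b (l 531566351) (l 531668751))) (b (a (l 531170063) (l 530783503)) (a (b (l 531437071) (l 531626255)) (b (l 531042831) (l 531225103)))))) (b (a (b (a (l 529728271) (l 529329935)) (a (l 530064143) (l 529667855))) (b (l 528450063) (a (l 529259279) (l 528851983)))) (a (b (a (b (l 530319375) (l 530489615)) (a (l 530114575) (l 529913359))) (a (b (l 530660111) (a (l 530931471) (l 530739727))) (a (b (l 530377231) (b (l 530509327) (l 530595343))) (b (l 530178319) (a (l 530408463) (l 530306831)))))) (b (a (l 529604367) (l 528792335)) (b (a (l 529868303) (b (l 529413135) (l 529501711))) (a (l 530047503) (b (l 529590543) (l 529680143)))))))), by decide +kernel⟩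

def k10_A00pp_022_s3 : ∃ t, chk3 f_A00pp_022_s3 t 19 29 1 = true :=
  ⟨(a (b (a (b (a (b (l 532663823) (l 532894991)) (b (l 532244751) (l 532207375))) (a (b (l 532840207) (b (l 532643343) (l 532512527))) (b (l 532439567) (b (l 532611599) (l 532456975))))) (b (b (a (a (l 531934479) (l 531729167)) (b (l 531371279) (l 531477775))) (a (a (l 532165391) (l 531959823)) (l 531384847))) (a (b (a (l 532398095) (l 532192783)) (a (b (l 532570383) (l 532684303)) (b (a (l 532416527) (l 532314127)) (a (a (l 532556047) (l 532505103)) (l 4))))) (b (a (l 531988751) (l 531785743)) (b (a (l 532161295) (l 4)) (l 4)))))) (b (a (a (b (a (l 532482575) (l 532419599)) (a (l 531954703) (b (l 532493583) (l 4)))) (b (a (l 532623119) (l 532791567)) (l 4))) (a (b (a (b (l 532528911) (l 4)) (l 4)) (l 4)) (l 4))) (l 4))) (b (a (b (a (b (b (l 530972943) (a (l 531174927) (l 530974991))) (a (l 531350287) (l 531149583))) (b (a (b (l 530683151) (b (l 530752015) (l 530804751))) (a (b (l 530544655) (b (l 530345743) (l 530384143)))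 (b (l 530442767) (a (b (l 530537231) (c (l 530318607) (l 530580495))) (l 530508815))))) (a (b (l 530890767) (l 531009039)) (a (l 530834959) (a (a (l 530739727) (l 4)) (l 4)))))) (b (a (b (a (l 531525903) (l 531325711)) (l 4)) (l 4)) (l 4))) (b (b (a (b (l 530183183) (a (l 530378767) (l 4))) (b (a (l 529873679) (l 4)) (l 4))) (l 4)) (l 4))) (l 4))), by decide +kernel⟩

def k11_A00pp_022_s3 : ∃ t, chk3 f_A00pp_022_s3 t 32 30 1 = true :=
  ⟨(b (b (b (a (b (a (l 16432936) (l 16456128)) (a (l 16442184) (l 16464840))) (a (a (l 16478504) (l 16490776)) (a (l 16503280) (l 16515744)))) (a (b (a (l 16451680) (l 16473832)) (a (l 16461424) (l 16483096))) (a (a (l 16495592) (l 16507488)) (a (l 16519568) (l 16531864))))) (a (a (b (a (l 16471336) (l 16481744)) (a (l 16492192) (l 16502336))) (a (b (l 16492160) (l 16512504)) (b (l 16502872) (l 16522704)))) (b (a (a (l 16513832) (l 16525104)) (a (l 16542008) (b (l 16544416) (l 16552992)))) (a (a (l 16533160) (l 16543880)) (a (b (l 16550248) (l 16559624))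 (b (l 16561800) (l 16570840))))))) (b (a (a (b (a (l 16513528) (l 16523656)) (a (l 16535256) (l 16545368))) (a (b (l 16533600) (l 16555320)) (b (l 16543544) (l 16565080)))) (a (a (b (l 16553512) (l 16574800)) (a (b (l 16561152) (l 16582088)) (b (l 16566320) (l 16587024)))) (a (a (b (l 16571560) (l 16592008)) (b (l 16576864) (l 16597056))) (a (b (l 16582248) (l 16602160)) (b (l 16587712) (l 16607344)))))) (a (a (b (a (l 16557328) (l 16567432)) (a (l 16579744) (l 16589840))) (a (b (l 16577376) (l 16599784)) (b (l 16587152) (l 16609560)))) (b (a (a (l 16596728) (b (l 16600760) (l 16611784))) (a (b (l 16610376) (l 16621224)) (b (l 16620224) (l 16630848)))) (a (a (l 16619168) (b (l 16622952) (l 16634272))) (a (b (l 16632312) (l 16643552)) (b (l 16641696) (l 16652776)))))))), by decide +kernel⟩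

def k12_A00pp_022_s3 : ∃ t, chk3 f_A00pp_022_s3 t 66 30 1 = true :=
  ⟨(a (b (b (a (b (l 16528256) (l 16544136)) (b (l 16540816) (l 16556456))) (b (a (l 16560728) (l 16572808)) (a (b (l 16573568) (l 16582440)) (b (l 16585528) (l 16594232))))) (a (b (a (b (l 16593280) (l 16612600)) (b (l 16598960) (l 16617944))) (b (b (l 16630328) (l 16640688)) (b (l 16651304) (l 16662152)))) (b (b (b (l 16603064) (l 16612144)) (b (l 16621432) (l 16630928))) (b (b (l 16640736) (l 16650808)) (b (l 16661152) (l 16671752)))))) (b (b (a (b (l 16553424) (l 16568824)) (b (l 16566080) (l 16581248))) (a (b (l 16584936) (b (l 16597480) (l 16606064))) (b (l 16602368) (b (l 16609488) (l 16617952))))) (b (b (a (b (l 16614816) (l 16623736)) (b (l 16626584) (l 16635384))) (a (b (l 16632776) (l 16642032)) (b (l 16644328) (l 16653424)))) (b (a (b (l 16651560) (l 16661264)) (b (l 16662656) (b (l 16669728) (l 16674520)))) (b (a (l 16671304) (b (l 16679352) (l 16684280))) (a (b (l 16679008) (l 16684240)) (b (l 16689280)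 (l 16694352)))))))), by decide +kernel⟩

def k13_A00pp_022_s3 : ∃ t, chk3 f_A00pp_022_s3 t 67 30 1 = true :=
  ⟨(a (b (a (b (b (l 16578552) (l 16593488)) (b (l 16614376) (b (l 16621320) (l 16629656)))) (b (b (l 16590512) (l 16605216)) (b (l 16625864) (b (l 16632632) (l 16640856))))) (b (b (a (b (l 16638176) (l 16646848)) (b (l 16649248) (l 16657808))) (a (b (l 16655680) (l 16664656)) (b (l 16666512) (l 16675376)))) (b (a (b (l 16673776) (b (l 16680720) (l 16685376))) (b (l 16684376) (l 16693536))) (a (a (b (l 16689832) (l 16699568)) (b (l 16695120) (l 16704728))) (a (b (l 16700312) (l 16709808)) (b (l 16705344) (l 16714784))))))) (b (a (b (b (l 16601840) (l 16616312)) (a (b (l 16628832) (l 16644760)) (b (l 16634088) (l 16649896)))) (b (b (l 16612400) (l 16626640)) (a (b (l 16639144) (l 16654840)) (b (l 16643992) (l 16659568))))) (a (b (b (b (l 16659696) (l 16668136)) (b (l 16676728) (l 16685464))) (a (b (b (l 16691920) (l 16700992)) (b (l 16710216) (l 16719592))) (b (l 521541135) (l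 521269775)))) (b (b (b (l 16669384) (l 16677704)) (b (l 16686176) (l 16694792))) (a (b (l 521723151) (l 521468175)) (a (l 521719823) (l 521791247))))))), by decide +kernel⟩

def k14_A00pp_022_s3 : ∃ t, chk3 f_A00pp_022_s3 t 68 30 1 = true :=
  ⟨(b (a (a (b (b (l 16622264) (l 16636272)) (a (b (l 16648672) (l 16664128)) (b (l 16653272) (l 16671232)))) (b (b (l 16631784) (l 16645568)) (a (b (l 16657800) (l 16675648)) (a (l 523221775) (l 523287567))))) (a (b (b (l 16641032) (l 16659824)) (b (a (l 16666656) (l 16670984)) (b (l 16679968) (l 16687608)))) (b (b (l 16650000) (l 16668568)) (a (b (l 16680480) (l 523525647)) (b (l 524172815) (l 523656207)))))) (a (a (b (b (b (l 16678376) (l 16686584)) (b (l 16694936) (l 16703440))) (a (l 521891343) (l 522024463))) (b (b (b (l 16687032) (l 16695120)) (b (l 16703360) (b (l 16709632) (l 16713856)))) (a (l 522157327) (l 522290191)))) (a (b (b (b (l 16695416) (b (l 16701376) (l 16705400))) (a (l 523054351) (l 523185935))) (a (l 522422543) (l 522554895)))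 (b (b (a (b (l 16701520) (l 16709408)) (b (l 16705512) (l 16713336))) (a (l 523317263) (l 523448591))) (a (l 522686735) (l 522818319)))))), by decide +kernel⟩

def k15_A00pp_022_s3 : ∃ t, chk3 f_A00pp_022_s3 t 69 30 1 = true :=
  ⟨(b (a (a (b (b (l 16658688) (b (l 16668448) (l 16675168))) (a (b (l 524303631) (l 523786511)) (b (l 524433935) (l 524185359)))) (b (b (l 16667112) (b (l 16676696) (l 16683312))) (b (b (l 16690096) (l 16697048)) (b (l 16706800) (l 524050447))))) (b (a (b (l 16675264) (l 524875791)) (b (l 16683144) (l 525135631))) (a (b (b (l 16697856) (l 16704696)) (b (l 524431887) (l 524309263))) (b (b (l 16705352) (l 524815375)) (b (l 524690191) (l 524567311)))))) (a (b (a (b (b (b (l 16709456) (l 16713288)) (l 523553551)) (a (l 523579407) (l 523709967))) (b (a (l 523807759) (l 523937551)) (a (l 523840271) (l 523970575)))) (a (a (l 522949903) (l 523080975)) (a (l 523211791) (l 523342607)))) (b (a (b (b (l 524189967) (l 524072975)) (a (l 524100367) (l 524229903))) (b (b (l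 524447759) (l 524331023)) (l 524154895))) (a (a (l 523472911) (l 523602959)) (a (l 523733007) (l 523862543)))))), by decide +kernel⟩

def k16_A00pp_022_s3 : ∃ t, chk3 f_A00pp_022_s3 t 35 30 1 = true :=
  ⟨(a (b (b (a (a (b (l 16690760) (l 525394703)) (b (l 525916943) (l 525653775))) (a (b (l 526176271) (l 525912335)) (b (l 526702095) (l 526170639)))) (a (a (b (l 525136911) (b (l 524947471) (l 524824335))) (b (l 525394447) (b (l 525204239) (l 525080335)))) (a (b (l 525651983) (b (l 525460495) (l 525335567))) (b (l 525909263) (b (l 525716239) (l 525590287)))))) (b (a (a (b (b (l 524704527) (l 524588303)) (l 524546831)) (b (b (l 524960527) (l 524844303)) (l 524669455))) (a (b (b (l 525215247) (l 525099535)) (l 524924943)) (b (b (l 525469199) (l 525353487)) (l 525179407)))) (b (a (a (l 524176143) (l 524433679)) (a (l 524689935) (l 4))) (l 4)))) (b (b (a (a (b (l 526955279) (l 526426895)) (a (l 527012879) (l 527136271))) (a (b (l 527447055) (l 526921999)) (b (l 527685391) (l 527428879))))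 (a (a (b (l 526166287) (b (l 525972239) (l 525844751))) (b (a (l 526626831) (l 526752271)) (a (l 526099727) (b (l 526560783) (l 526431759))))) (a (a (b (l 526875407) (l 526353423)) (l 526868751)) (b (l 526906127) (l 526653711))))) (b (a (b (a (b (a (l 525927439) (l 526053903)) (l 525874959)) (b (b (l 526004495) (l 525944847)) (l 526126863))) (a (l 525433103) (l 4))) (b (a (b (a (b (l 526197519) (b (l 526552591) (l 526386703))) (b (l 526586639) (l 526256143))) (a (l 526315535) (l 4))) (b (a (l 526406671) (l 526525967)) (l 4))) (l 4))) (l 4)))), by decide +kernel⟩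

def k17_A00pp_022_s3 : ∃ t, chk3 f_A00pp_022_s3 t 32 62 1 = true :=
  ⟨(b (b (a (a (a (l 16602480) (l 16612584)) (a (l 16622528) (l 16632312))) (a (a (b (l 16636208) (l 16647672)) (b (l 16645656) (l 16657128))) (a (b (l 16654904) (l 16666424)) (b (l 16664080) (l 16675528))))) (a (a (a (l 16625536) (l 16635656)) (a (l 16645616) (b (l 16649600) (l 16661232)))) (a (a (b (l 16659232) (l 16670872)) (b (l 16668696) (l 16680344))) (a (b (l 16677992) (l 16689648)) (b (l 16687120) (l 16698784)))))) (b (a (a (b (a (l 16642936) (l 16653072)) (a (l 16654256) (l 16664408))) (a (b (l 16663048) (l 16674400)) (b (l 16672856) (l 16684224)))) (a (a (b (l 16682504) (l 16693888)) (b (l 16691984) (l 16703384))) (a (a (b (l 16698984) (l 16710392)) (b (l 16703600) (l 16715016))) (a (b (l 16708176) (l 16719592)) (b (l 16712704) (l 16724136)))))) (a (b (a (a (l 14) (l 16675456)) (a (l 16685464) (l 16695304))) (a (l 14) (a (b (l 16693664) (l 16699160)) (b (l 16703520) (l 16709032))))) (b (b (a (a (l 16702224)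 (l 16711736)) (a (l 16721072) (l 16725008))) (a (a (l 16707736) (l 16717248)) (a (l 16726600) (a (l 16733504) (l 16738048))))) (a (a (a (l 16713560) (l 16718368)) (b (l 16722744) (l 16723024))) (a (a (b (l 16729776) (l 16735312)) (b (l 16734416) (l 16739960))) (a (b (l 16739016) (l 16744560)) (b (l 16743568) (l 16743872))))))))), by decide +kernel⟩

def k18_A00pp_022_s3 : ∃ t, chk3 f_A00pp_022_s3 t 132 62 1 = true :=
  ⟨(b (b (b (a (l 16673240) (a (l 16680240) (l 16684976))) (a (a (l 16682304) (l 16686816)) (b (l 16690896) (l 16696504)))) (a (a (b (l 16693848) (l 16705528)) (b (l 16698304) (l 16709952))) (a (b (l 16702768) (l 16714368)) (b (l 16707280) (l 16718776))))) (a (b (b (a (l 16717192) (l 16721640)) (b (l 16722792) (a (l 16731440) (l 16735896)))) (a (a (b (l 16733424) (l 519002383)) (b (l 519265807) (l 519043855))) (b (b (l 16741480) (l 16747024)) (a (l 519085327) (l 519127055))))) (b (a (a (b (l 16724952) (l 16731152)) (b (l 16727128) (l 519451151))) (a (b (l 16724072) (l 519474447))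 (b (l 519413775) (l 519495439)))) (a (a (b (l 519377679) (l 519168527)) (b (l 519413519) (l 519210255))) (a (b (l 519448591) (l 519251727)) (b (l 519482639) (b (l 519364367) (l 519223823)))))))), by decide +kernel⟩

def k19_A00pp_022_s3 : ∃ t, chk3 f_A00pp_022_s3 t 133 62 1 = true :=
  ⟨(b (a (b (a (b (l 16689776) (l 16700680)) (b (l 16694640) (l 16705416))) (a (b (l 16711840) (b (l 16720360) (l 16726112))) (b (b (l 16713664) (l 16719240)) (b (l 16724880) (l 16730584))))) (a (b (b (l 16699584) (l 16710224)) (b (b (l 16718368) (l 16723888)) (b (l 16729464) (l 16735104)))) (b (b (l 16704600) (b (l 16712440) (l 16717752))) (b (b (l 16723128) (l 16728576)) (b (l 16734088) (l 16739672)))))) (a (b (a (a (b (l 519426831) (l 519513615)) (b (l 519445775) (l 519529487))) (b (b (l 16736320) (l 16742024)) (a (l 519545615) (l 519567887)))) (a (a (b (l 519514895) (b (l 519405839) (l 519265551))) (b (l 519544847) (b (l 519447311) (l 519307791)))) (a (b (l 519571983) (b (l 519488015) (l 519349775)))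 (b (b (l 519592207) (l 519590159)) (b (l 519522319) (l 519391759)))))) (b (a (a (b (l 519551759) (l 519603727)) (b (l 519609359) (l 519655951))) (a (b (l 519682063) (l 519728399)) (l 519791631))) (a (b (a (b (l 519611919) (l 519616271)) (a (l 519632655) (l 519664399))) (b (a (b (l 519595535) (l 519541007)) (b (a (l 519619855) (l 519618831)) (l 519612687))) (l 519454735))) (b (a (l 519715343) (l 519796751)) (b (a (b (l 519676431) (l 519645199)) (l 519742735)) (l 4))))))), by decide +kernel⟩

def k20_A00pp_022_s3 : ∃ t, chk3 f_A00pp_022_s3 t 67 62 1 = true :=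
  ⟨(a (b (a (b (a (b (l 16709616) (b (l 16717336) (l 16722568))) (b (l 16714584) (b (l 16722176) (l 16727336)))) (a (b (b (l 16727872) (l 16733248)) (b (l 16738696) (l 16738968))) (a (b (l 519981071) (l 519935503)) (b (l 520079375) (l 520025103))))) (b (a (a (b (l 16718280) (l 16728320)) (b (l 16720744) (l 16730680))) (a (b (l 16723168) (l 16733032)) (l 520505103))) (a (b (b (l 16737192) (l 16742416)) (b (b (l 16746384) (l 16749048)) (b (l 16751728) (l 16754432)))) (a (b (l 520397839) (b (l 16751016) (l 520313615))) (b (l 520512783) (b (l 16753200) (l 520413199))))))) (b (a (a (a (l 519873551) (l 519958287)) (a (l 520045327) (l 520135183))) (a (a (l 520227599) (l 520322575)) (a (l 520420367) (l 520520463)))) (b (a (a (a (l 519881231) (l 519968271)) (l 520103439)) (a (l 520293391) (l 4))) (l 4)))) (b (b (a (a (a (l 520638223) (l 520773135)) (b (b (l 16731312) (l 16736096)) (l 520883727))) (a (a (l 521414415) (l 521519887)) (l 521382159))) (a (a (b (a (l 520632847) (l 520758799)) (b (l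 520592655) (a (l 520515343) (l 520620815)))) (b (l 520689679) (b (l 520829967) (a (l 520729359) (l 520841743))))) (a (a (b (l 521169423) (l 520709135)) (b (l 521303823) (c (l 520866319) (l 520847375)))) (a (a (b (l 521389583) (b (l 521275919) (l 521180175))) (l 521116943)) (a (b (l 521481999) (l 521355791)) (l 521453583)))))) (b (b (a (a (l 520636431) (l 520850447)) (a (l 521074447) (b (a (l 521221903) (b (a (b (l 521286415) (l 4)) (l 521329935)) (l 4))) (l 4)))) (a (a (l 520699919) (l 520917519)) (l 4))) (l 4)))), by decide +kernel⟩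

def k21_A00pp_022_s3 : ∃ t, chk3 f_A00pp_022_s3 t 17 62 1 = true :=
  ⟨(b (a (a (a (a (a (l 521394191) (l 521528079)) (a (l 521661711) (l 521795087))) (a (a (l 521928207) (l 522061071)) (a (l 522193679) (l 522326287)))) (a (b (a (l 522648335) (l 522911247)) (l 4)) (l 4))) (l 4)) (l 4)), by decide +kernel⟩

def k22_A00pp_022_s3 : ∃ t, chk3 f_A00pp_022_s3 t 8 63 1 = true :=
  ⟨(a (a (b (a (a (l 14) (b (b (a (b (l 16704744) (l 14)) (b (l 16714624) (l 16720312))) (a (l 14) (a (c (l 16716096) (l 16716032)) (b (l 16728536) (l 16734408))))) (l 14))) (a (a (a (b (b (l 16724760) (a (l 16735120) (l 16732304))) (b (b (l 16745248) (a (l 14) (l 16752528))) (l 14))) (b (b (b (l 16726736) (l 16732440)) (b (l 16738232) (l 16744112))) (a (a (l 517148175) (a (l 517431823) (l 517442063))) (a (a (l 517452047) (l 517462287)) (a (l 517472271) (l 517482511)))))) (b (a (b (b (l 16731512) (l 16737216)) (b (l 16743016) (l 16743664))) (a (b (l 16732664) (l 517751055)) (a (l 518193167) (l 518213647)))) (a (a (b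 (a (l 517641743) (l 517661967)) (a (l 517353999) (l 517374223))) (b (a (l 517682191) (l 517702671)) (a (l 517394447) (l 517414671)))) (a (a (b (l 517722895) (l 517435151)) (b (l 517743375) (l 517455375))) (a (b (l 517763599) (l 517475599)) (l 517639695)))))) (a (a (a (b (a (l 518234127) (l 518254607)) (a (l 517659919) (l 517680399))) (b (l 518016527) (a (l 517700623) (l 517721103)))) (a (b (l 518057487) (l 517483023)) (b (l 518098703) (l 517523727)))) (a (a (b (l 518139663) (l 517564687)) (b (l 518180879) (l 517605903))) (a (a (l 517923343) (l 517944079)) (a (l 517964559) (l 517985295))))))) (a (l 14) (a (a (l 14) (a (a (l 14) (b (b (a (l 517105679) (l 4)) (l 4)) (l 4))) (l 4))) (l 4)))) (b (b (a (a (a (a (a (a (l 518563343) (l 518584079)) (l 518883343)) (a (l 518656271) (l 518697743))) (a (a (l 518739471) (l 518781199)) (a (l 518822927) (l 518864655)))) (a (a (l 518658319) (l 518742287)) (l 4))) (l 4)) (l 4)) (l 4))) (l 4)), by decide +kernel⟩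

def k23_A00pp_022_s3 : ∃ t, chk3 f_A00pp_022_s3 t 9 15 1 = true :=
  ⟨(b (b (a (a (a (a (b (b (a (l 527921679) (l 528156175)) (a (l 527665679) (l 527900431))) (a (b (l 527143183) (l 526891023)) (b (l 527378191) (b (l 527189263) (l 4))))) (b (b (a (l 528388623) (l 528619535)) (a (l 528133135) (l 528364303))) (a (b (l 527611407) (a (l 527301903) (l 4))) (b (b (l 527905807) (l 527913999)) (l 4))))) (a (b (b (a (b (l 528912655) (l 528784655)) (b (l 529139471) (l 528743183))) (a (l 528593423) (b (l 528615951) (l 528623375)))) (a (b (a (l 528015119) (l 528263439)) (l 4)) (l 4))) (b (b (a (b (l 529364751) (a (l 529180943) (l 529024783))) (b (a (l 529532431) (l 529643791)) (b (a (l 529436687) (l 529548047)) (l 529160207)))) (b (a (l 528841231) (a (l 529277711) (l 4))) (l 4))) (l 4)))) (a (b (a (b (a (b (a (l 529620239) (l 529864719)) (b (a (a (b (l 529647119) (l 529615375)) (l 529686543)) (b (l 529785103) (l 4))) (l 4))) (b (b (l 529792783) (l 529863183)) (l 4))) (l 4)) (l 4)) (l 4)) (l 4)))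 (l 4)) (l 4)) (l 4)), by decide +kernel⟩

def k24_A00pp_022_s3 : ∃ t, chk3 f_A00pp_022_s3 t 20 6 1 = true :=
  ⟨(b (a (b (a (b (b (l 16117592) (l 16160568)) (b (l 16244600) (l 16285768))) (b (b (l 16133352) (a (l 16199192) (l 16198120))) (a (b (l 16242216) (l 16284304)) (b (l 16241752) (l 16284456))))) (a (b (b (l 16325976) (l 16365168)) (b (l 16403320) (l 16440376))) (b (a (b (l 16325432) (l 16365544)) (b (l 16326176) (l 16366888))) (a (b (l 16404600) (l 16442560)) (b (l 16406544) (l 16445096)))))) (b (a (b (b (a (l 16152824) (l 16152952)) (b (l 16144992) (l 16167480))) (a (b (l 16242192) (l 16264512)) (b (l 16222536) (l 16266416)))) (b (b (a (l 16153968) (l 16155872)) (b (l 16147904) (l 16191952))) (b (a (l 16224720) (l 16227760)) (a (l 16290152) (l 16293760))))) (a (b (a (b (l 16327800) (l 16369096)) (b (l 16330288) (l 16372160))) (a (b (l 16409336) (l 16448472)) (b (l 16412976) (l 16452688)))) (b (a (b (l 16333624) (l 16376072)) (b (l 16337800) (l 522350351))) (b (a (l 16417448)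 (l 522593551)) (a (l 16457728) (l 522842895))))))) (b (a (a (b (b (l 16476296) (l 16511032)) (b (l 16544536) (l 16582016))) (b (a (l 525099791) (l 524451087)) (a (l 525652239) (l 525268751)))) (a (b (a (l 524073743) (l 523699983)) (a (l 524620303) (l 524243215))) (b (a (l 523329295) (l 522961679)) (a (l 523869711) (l 523499279))))) (a (a (b (a (l 527015695) (l 526622735)) (a (l 527632911) (l 527236623))) (b (b (l 525889551) (l 526186255)) (b (l 526490639) (l 526802447)))) (b (a (b (l 525124623) (l 525417999)) (b (l 523835663) (a (l 524850703) (l 524476175)))) (a (b (l 525718799) (l 526027023)) (b (l 524959759) (l 525264399))))))), by decide +kernel⟩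

def k25_A00pp_022_s3 : ∃ t, chk3 f_A00pp_022_s3 t 21 6 1 = true :=
  ⟨(b (a (b (a (b (a (b (l 16158632) (l 16206088)) (b (l 16162248) (l 16210264))) (a (b (l 16231656) (l 16298216)) (b (l 16257352) (l 16303488)))) (b (b (l 16169264) (b (l 16205968) (l 16188216))) (a (b (l 16262912) (l 16309584)) (b (l 16269280) (l 16316480))))) (a (b (b (a (l 16342808) (l 16351248)) (a (l 521990927) (l 521634831))) (b (a (l 522232847) (l 521875471)) (a (l 522480911) (l 522122255)))) (b (a (b (l 16360504) (l 521281807)) (b (l 16367928) (l 520932367))) (b (a (l 521521423) (l 521170447)) (l 521321487))))) (b (a (b (b (l 16181488) (a (l 16227752) (l 16235200))) (a (b (l 16276448) (l 16324168)) (b (l 16284408) (l 16332640)))) (b (b (l 16196936) (l 519393039)) (a (b (l 16293144) (l 16341888)) (b (l 16302656) (l 16351888))))) (b (a (a (b (l 16376136) (l 520586255)) (b (l 520013839) (l 520243471))) (a (b (l 519675663) (l 519904015)) (b (l 519340815) (l 519568143)))) (a (b (a (l 520823055) (l 520478991)) (a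 (l 521065743) (l 520720399))) (b (a (l 520138255) (l 519800847)) (a (l 520378383) (l 520039439))))))) (b (a (a (b (a (l 522597647) (l 522236687)) (a (l 523131919) (l 522768143))) (b (b (l 521572367) (l 521829391)) (a (l 522407439) (l 522050063)))) (a (b (b (a (l 521314575) (l 520967695)) (l 521125903)) (a (l 521964559) (l 521613583))) (b (a (b (l 520624143) (l 520875791)) (l 520409359)) (b (a (l 521133583) (l 520790287)) (l 521224719))))) (a (b (a (b (l 523364879) (l 523651599)) (b (l 522907151) (l 523190287))) (a (a (b (l 524399375) (l 524701199)) (l 524179983)) (l 523629839))) (b (b (a (l 522194191) (l 521225743)) (a (l 522473743) (l 521770255))) (a (l 522907663) (l 4)))))), by decide +kernel⟩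

def k26_A00pp_022_s3 : ∃ t, chk3 f_A00pp_022_s3 t 11 6 1 = true :=
  ⟨(b (a (b (a (a (b (a (l 518261007) (l 517937167)) (a (l 519218447) (l 518355471))) (b (a (l 517616655) (l 517299471)) (b (l 517765903) (l 517978383)))) (b (a (a (l 516985871) (l 516675855)) (l 516217359)) (a (b (l 517135375) (l 517345295)) (b (l 516518671) (l 516726287))))) (a (b (a (a (b (l 519009295) (l 519235343)) (b (l 518681359) (l 518906127))) (b (l 518195727) (l 518418703))) (a (a (b (l 519467023) (l 519704079)) (l 519254799)) (b (l 518646799) (l 518880271)))) (b (a (b (l 517560591) (l 517780751)) (b (l 516939023) (l 517156367))) (b (a (l 518006031) (l 517378831)) (a (l 518236687) (l 517606671)))))) (b (a (b (a (l 515618063) (l 515033103)) (a (b (l 515916047) (l 516121359)) (b (l 515327503) (l 515530255)))) (a (b (l 514462223) (l 514853647)) (b (l 513905679) (l 514291983)))) (a (b (a (b (l 516331279) (l 516546063)) (b (l 515737615) (l 515949583))) (a (b (l 516765711) (l 516990479)) (b (l 516166159) (l 516388111))))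 (b (a (b (l 515157775) (l 515366927)) (a (l 514836239) (l 514556175))) (a (b (l 515580687) (l 515799567)) (b (b (l 514956047) (l 515062543)) (l 515224847))))))) (a (b (a (a (b (a (l 520071695) (l 519737615)) (a (l 520581135) (l 520243727))) (b (b (l 519119375) (l 519364367)) (l 519475215))) (b (b (a (l 518472719) (l 517839631)) (a (l 518714383) (l 518078223))) (b (a (l 518961679) (l 518322191)) (l 518824207)))) (b (a (a (b (a (l 520977935) (l 520637967)) (a (l 521251343) (l 4))) (b (l 520134159) (l 4))) (l 4)) (l 4))) (b (b (a (b (a (l 517220367) (l 516614671)) (l 516880911)) (a (l 516137743) (l 4))) (l 4)) (l 4)))), by decide +kernel⟩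

def k27_A00pp_022_s3 : ∃ t, chk3 f_A00pp_022_s3 t 5 7 1 = true :=
  ⟨(b (a (b (a (a (b (a (a (b (l 528114959) (l 528447759)) (b (l 527715855) (b (l 527962639) (l 528130063)))) (b (a (l 527319823) (l 526926863)) (a (l 527648527) (b (l 527170831) (l 527336207))))) (b (a (a (b (l 528702223) (l 528874767)) (b (l 528299535) (l 528471055))) (a (l 527985679) (a (l 527687695) (l 527490063)))) (a (b (a (b (l 529005583) (l 529093647)) (b (a (l 528702223) (l 528500751)) (l 4))) (a (b (l 529181967) (l 4)) (l 4))) (l 4)))) (b (a (b (l 526343183) (a (b (l 526779663) (l 526809871)) (l 526473743))) (b (l 525576463) (b (l 525815055) (l 4)))) (b (a (a (b (a (l 527208719) (l 4)) (l 4)) (l 4)) (l 4)) (l 4)))) (b (a (a (a (l 525236751) (b (l 524636687) (l 4))) (l 4)) (l 4)) (l 4))) (l 4)) (l 4)) (l 4)), by decide +kernel⟩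

def k28_A00pp_022_s3 : ∃ t, chk3 f_A00pp_022_s3 t 3 1 1 = true :=
  ⟨(b (a (b (a (b (b (l 6) (a (l 6) (a (l 6) (l 14840968)))) (a (b (a (l 6) (l 15013552)) (a (l 15252280) (l 15316936))) (b (a (l 15083768) (l 15165352)) (a (l 508293391) (l 507435791))))) (a (b (b (a (l 6) (l 14682088)) (a (l 14928312) (l 15026248))) (b (a (l 15257496) (l 15359376)) (a (l 506641423) (l 505910799)))) (a (b (b (l 14786008) (l 15133952)) (b (l 504755983) (l 505244175))) (l 2)))) (a (b (a (b (a (l 510712847) (l 509730319)) (a (l 511278095) (l 510289935))) (b (a (l 508808975) (l 507949583)) (a (l 509362191) (l 508495631)))) (a (b (a (b (l 511731727) (l 512052239)) (b (l 510736655) (l 511051023))) (a (b (l 512386319) (l 512734479)) (b (l 511377679) (l 511717647)))) (b (a (l 509956111) (l 509078031)) (a (b (l 510428431) (l 510759439)) (b (l 509538831) (l 509860879)))))) (b (a (b (l 506508047) (l 507042831)) (b (a (l 505747727) (l 505141263)) (a (l 506269199) (l 505653263)))) (a (b (a (l 508260879) (l 507505423))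 (a (l 508866575) (l 508093711))) (b (a (l 506812431) (l 506182159)) (a (l 507382287) (l 4))))))) (b (l 2) (b (l 2) (b (l 2) (l 4))))) (b (b (a (a (a (b (a (b (a (l 513363471) (l 512835599)) (a (l 513744911) (l 513211919))) (b (l 512071183) (a (l 512693263) (l 512189455)))) (a (b (a (b (l 514040847) (l 514244111)) (l 513604367)) (a (b (a (l 514589967) (l 514314767)) (l 4)) (l 4))) (b (a (l 513080079) (l 4)) (l 4)))) (b (a (b (l 511103503) (l 511460879)) (b (l 510194703) (l 4))) (l 4))) (l 4)) (l 4)) (l 4)) (l 4))), by decide +kernel⟩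

theorem t29_A00pp_022_s3 : ∃ t, chk3 f_A00pp_022_s3 t 10 6 1 = true := ex3_a k24_A00pp_022_s3 k25_A00pp_022_s3

theorem t30_A00pp_022_s3 : ∃ t, chk3 f_A00pp_022_s3 t 5 6 1 = true := ex3_a t29_A00pp_022_s3 k26_A00pp_022_s3

theorem t31_A00pp_022_s3 : ∃ t, chk3 f_A00pp_022_s3 t 5 3 1 = true := ex3_b t30_A00pp_022_s3 k27_A00pp_022_s3

theorem t32_A00pp_022_s3 : ∃ t, chk3 f_A00pp_022_s3 t 66 62 1 = true := ex3_a k18_A00pp_022_s3 k19_A00pp_022_s3

theorem t33_A00pp_022_s3 : ∃ t, chk3 f_A00pp_022_s3 t 33 62 1 = true := ex3_a t32_A00pp_022_s3 k20_A00pp_022_s3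

theorem t34_A00pp_022_s3 : ∃ t, chk3 f_A00pp_022_s3 t 16 62 1 = true := ex3_a k17_A00pp_022_s3 t33_A00pp_022_s3

theorem t35_A00pp_022_s3 : ∃ t, chk3 f_A00pp_022_s3 t 8 62 1 = true := ex3_a t34_A00pp_022_s3 k21_A00pp_022_s3

theorem t36_A00pp_022_s3 : ∃ t, chk3 f_A00pp_022_s3 t 8 31 1 = true := ex3_b t35_A00pp_022_s3 k22_A00pp_022_s3

theorem t37_A00pp_022_s3 : ∃ t, chk3 f_A00pp_022_s3 t 34 30 1 = true := ex3_a k14_A00pp_022_s3 k15_A00pp_022_s3

theorem t38_A00pp_022_s3 : ∃ t, chk3 f_A00pp_022_s3 t 17 30 1 = true := ex3_a t37_A00pp_022_s3 k16_A00pp_022_s3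

theorem t39_A00pp_022_s3 : ∃ t, chk3 f_A00pp_022_s3 t 33 30 1 = true := ex3_a k12_A00pp_022_s3 k13_A00pp_022_s3

theorem t40_A00pp_022_s3 : ∃ t, chk3 f_A00pp_022_s3 t 16 30 1 = true := ex3_a k11_A00pp_022_s3 t39_A00pp_022_s3

theorem t41_A00pp_022_s3 : ∃ t, chk3 f_A00pp_022_s3 t 8 30 1 = true := ex3_a t40_A00pp_022_s3 t38_A00pp_022_s3

theorem t42_A00pp_022_s3 : ∃ t, chk3 f_A00pp_022_s3 t 8 15 1 = true := ex3_b t41_A00pp_022_s3 t36_A00pp_022_s3

theorem t43_A00pp_022_s3 : ∃ t, chk3 f_A00pp_022_s3 t 4 15 1 = true := ex3_a t42_A00pp_022_s3 k23_A00pp_022_s3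

theorem t44_A00pp_022_s3 : ∃ t, chk3 f_A00pp_022_s3 t 19 14 1 = true := ex3_b k9_A00pp_022_s3 k10_A00pp_022_s3

theorem t45_A00pp_022_s3 : ∃ t, chk3 f_A00pp_022_s3 t 18 14 1 = true := ex3_b k7_A00pp_022_s3 k8_A00pp_022_s3

theorem t46_A00pp_022_s3 : ∃ t, chk3 f_A00pp_022_s3 t 9 14 1 = true := ex3_a t45_A00pp_022_s3 t44_A00pp_022_s3

theorem t47_A00pp_022_s3 : ∃ t, chk3 f_A00pp_022_s3 t 8 29 1 = true := ex3_a k5_A00pp_022_s3 k6_A00pp_022_s3

theorem t48_A00pp_022_s3 : ∃ t, chk3 f_A00pp_022_s3 t 8 14 1 = true := ex3_b k4_A00pp_022_s3 t47_A00pp_022_s3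

theorem t49_A00pp_022_s3 : ∃ t, chk3 f_A00pp_022_s3 t 4 14 1 = true := ex3_a t48_A00pp_022_s3 t46_A00pp_022_s3

theorem t50_A00pp_022_s3 : ∃ t, chk3 f_A00pp_022_s3 t 4 7 1 = true := ex3_b t49_A00pp_022_s3 t43_A00pp_022_s3

theorem t51_A00pp_022_s3 : ∃ t, chk3 f_A00pp_022_s3 t 4 6 1 = true := ex3_a k2_A00pp_022_s3 k3_A00pp_022_s3

theorem t52_A00pp_022_s3 : ∃ t, chk3 f_A00pp_022_s3 t 4 3 1 = true := ex3_b t51_A00pp_022_s3 t50_A00pp_022_s3

theorem t53_A00pp_022_s3 : ∃ t, chk3 f_A00pp_022_s3 t 2 3 1 = true := ex3_a t52_A00pp_022_s3 t31_A00pp_022_s3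

theorem t54_A00pp_022_s3 : ∃ t, chk3 f_A00pp_022_s3 t 2 2 1 = true := ex3_a k0_A00pp_022_s3 k1_A00pp_022_s3

theorem t55_A00pp_022_s3 : ∃ t, chk3 f_A00pp_022_s3 t 2 1 1 = true := ex3_b t54_A00pp_022_s3 t53_A00pp_022_s3

theorem t56_A00pp_022_s3 : ∃ t, chk3 f_A00pp_022_s3 t 1 1 1 = true := ex3_a t55_A00pp_022_s3 k28_A00pp_022_s3

theorem c_A00pp_022_s3 : CertF 0 536870912 0 536870912 1045395039 1503240 true true true .pp 0 2 2
    ndB0q0 ndB0q2 pcB2 cut_A00pp_022_s3 xt_A00pp_022_s3 :=
  certF0 (fam := true) (s1 := true) (s2 := true) (a := 0) (b := 2) (c := 2) (cn := .pp) (n1 := ndB0q0) (n2 := ndB0q2) (pc := pcB2) (cut := cut_A00pp_022_s3) (xt := xt_A00pp_022_s3) (P1 := 0) (W1 := 536870912) (P2 := 0) (W2 := 536870912) (P3 := 1045395039) (W3 := 1503240)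
    rfl t56_A00pp_022_s3

theorem s_A00pp_022_s3 {κ x : ℝ} (hκ : κ * h0 = ken x) (hx : ((1045395039 : ℕ) : ℝ) / S ≤ x)
    (hx' : x ≤ (((1045395039 : ℕ) : ℝ) + (1503240 : ℕ)) / S)
    (H : CutA (VFD κ) PP tK tL pcB (Cut.of [[⟨0, 0, 0, 16777216⟩, ⟨1, 1, 0, 16777216⟩, ⟨2, 1, 0, 16777216⟩]]) 0 2 2 0 0 (sgb true) (sgb true) x) :
    AltA (VFD κ) PP tK tL pcB [⟨4, 0, 0, 2845415833⟩] 0 2 2 0 0 (sgb true) (sgb true) x :=
  strip_altAD (m := 2845415833) false rfl hκ (SH.κ0 hκ (SH.hx1 hx).le (SH.hx2 hx').le) (SH.hx1 hx).le (SH.hx2 hx') (covB00).cov (covB02).cov hx hx' c_A00pp_022_s3 H ((okx hx hx').extA (T := tt) (sideB hx hx') hκ rfl rfl (.O 0 true) (.O 2 true) (Or.inl rfl))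

end Pool.Agent.Strip051.G.I9736_9750.Tab.St.C
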