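import Pool.Agent.Strip051.G.I9736_9750.StH
import Pool.Agent.Strip051.G.I9736_9750.StF

/-! # Unit strips 2 (generated) -/

set_option linter.all false
set_option maxRecDepth 100000

namespace Pool.Agent.Strip051.G.I9736_9750.Tab.St.C

open Pool.Agent.Strip051.PB Pool.Agent.Strip051.PB.T Pool.Agent.StripNear Pool.Agent.Strip051.LC
open Pool.Agent.Strip051.G.I9736_9750.Tab Pool.Agent.Strip051.G.I9736_9750.Tab.St

noncomputable def cut_A00mm_202_s3 : Cut := Cut.of [[⟨3, 0, 0, 2845415833⟩], [⟨0, 1, 0, 16777216⟩, ⟨1, 0, 0, 16777216⟩, ⟨2, 1, 0, 16777216⟩]]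

noncomputable def xt_A00mm_202_s3 : Ext := strExt dd true false false .u2 .u0m .s2m .pp 2 0 2 rfl rfl gl2 vv ndB0q2 ndB0q0

noncomputable def f_A00mm_202_s3 : ℕ → ℕ → ℕ → ℕ → Bool := onCell 0 536870912 0 536870912 1045395039 1503240
    (rowF 0 true false false .pp 2 0 2 (qsf 0 536870912 0 536870912 2) ndB0q2 ndB0q0 pcB2 cut_A00mm_202_s3 xt_A00mm_202_s3)

def k0_A00mm_202_s3 : ∃ t, chk3 f_A00mm_202_s3 t 2 4 1 = true :=
  ⟨(b (l 6) (a (l 6) (a (l 6) (a (l 6) (b (b (l 6) (a (l 6) (l 16199480))) (b (a (b (l 6) (l 16055000)) (b (l 16159424) (l 16137544))) (a (b (l 16033864) (l 16016376)) (b (l 16119224) (l 16125448))))))))), by decide +kernel⟩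

def k1_A00mm_202_s3 : ∃ t, chk3 f_A00mm_202_s3 t 2 5 1 = true :=
  ⟨(a (b (l 6) (a (l 6) (b (l 6) (a (l 6) (b (l 6) (l 15199776)))))) (a (b (b (l 6) (a (l 6) (b (a (l 6) (l 15666280)) (a (l 15552384) (l 15669544))))) (b (a (b (b (l 6) (l 15382456)) (a (l 15333840) (l 15464264))) (b (a (l 15565464) (l 15687064)) (a (l 15592416) (l 15718104)))) (a (b (a (l 15366072) (l 15500488)) (a (l 15411416) (l 15549456))) (b (a (l 15632496) (l 15761912)) (l 512057103))))) (b (b (a (b (a (l 6) (b (l 15909224) (l 15896912))) (a (b (l 15787096) (l 15779952)) (b (l 15888488) (l 15883872)))) (a (b (b (l 16002792) (b (l 15995160) (l 15991280))) (b (b (l 15988344) (l 15986344)) (a (l 15960032) (l 16009912)))) (b (b (b (l 16095912) (l 16091400)) (a (l 16063360) (l 16067304))) (b (a (l 16059360) (l 16064544)) (a (l 16059024) (l 16086368)))))) (a (b (a (b (l 15776600) (l 15776960)) (b (l 15882960) (l 15885672))) (a (l 517315855)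 (b (l 15891912) (l 15901592)))) (a (b (b (a (l 15960920) (l 16011976)) (l 16007288)) (b (l 16020984) (l 16032800))) (b (b (a (l 16062256) (l 16069776)) (a (l 16068960) (l 16077592))) (a (a (l 518532879) (l 518361871)) (b (l 16130704) (l 16145128))))))) (a (b (b (a (l 516030479) (l 516506383)) (a (b (l 15831136) (l 15851800)) (l 515138319))) (a (b (l 513898767) (l 512785423)) (b (b (l 15998328) (l 16026680)) (l 513111567)))) (b (a (b (a (l 516907791) (l 516823567)) (a (l 515669775) (l 515851023))) (b (a (l 517012751) (l 517240079)) (a (l 516573455) (b (l 16207008) (l 16233528))))) (a (b (a (l 514488847) (l 514666511)) (a (l 513365263) (l 513539343))) (b (a (l 514848527) (l 515840015)) (a (l 513717519) (l 513899535))))))))), by decide +kernel⟩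

def k2_A00mm_202_s3 : ∃ t, chk3 f_A00mm_202_s3 t 6 8 1 = true :=
  ⟨(b (a (a (l 6) (b (l 16259608) (l 16294656))) (b (a (a (l 16254192) (l 16257256)) (a (l 16266616) (b (l 16249632) (l 16315984)))) (a (b (l 16367080) (l 16439200)) (a (b (l 16371648) (l 16439160)) (b (l 16382864) (l 16447312)))))) (a (a (b (l 6) (l 16358840)) (b (l 16476824) (a (l 16440176) (l 16490096)))) (a (b (b (l 16502536) (l 16558904)) (a (l 16536224) (l 16542832))) (a (b (l 16524832) (l 16534520)) (b (l 16444712) (b (l 16596632) (l 16635576))))))), by decide +kernel⟩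

def k3_A00mm_202_s3 : ∃ t, chk3 f_A00mm_202_s3 t 6 9 1 = true :=
  ⟨(a (b (a (b (a (l 16333608) (l 16396680)) (a (l 16187896) (l 16257024))) (b (b (l 16415480) (l 16387736)) (a (l 16322616) (b (l 16477656) (l 16459664))))) (b (a (a (b (l 16236160) (l 16217120)) (b (l 16309640) (l 16293392))) (a (b (l 16379504) (l 16366008)) (b (l 16445392) (l 16434616)))) (a (a (b (l 16222536) (a (l 16168512) (l 16210192))) (b (b (l 16283472) (l 16277880)) (a (l 16251008) (l 16290912)))) (a (a (b (l 16337352) (l 16329856)) (b (l 16374016) (l 16367808))) (a (b (l 16409640) (l 16404712)) (b (l 16444192) (l 16440536))))))) (b (a (b (a (l 16479936) (l 16527120)) (a (b (l 16533520) (l 16518432)) (b (l 16584824) (l 16572472)))) (a (b (a (l 16559416) (l 16579392)) (b (l 16631176) (l 16537464))) (b (a (l 16598048) (l 16642448)) (b (l 16630216) (a (l 16654480) (l 16674792)))))) (a (b (a (b (l 16506920) (l 16498832)) (b (l 16563704)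 (l 16516336))) (a (a (b (l 16477608) (l 16475224)) (b (l 16509864) (l 16508728))) (a (b (l 16540888) (l 16541016)) (b (l 16570640) (l 16572024))))) (b (a (b (l 16583864) (a (l 16599472) (l 16625248))) (a (b (l 16650336) (l 16649592)) (b (l 16671904) (l 529984783)))) (a (a (b (l 16599080) (l 16601712)) (b (l 16626136) (l 527760911))) (a (b (l 528877583) (l 528071951)) (b (a (l 16670032) (l 16681728)) (l 528390927)))))))), by decide +kernel⟩

def k4_A00mm_202_s3 : ∃ t, chk3 f_A00mm_202_s3 t 14 16 1 = true :=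
  ⟨(a (b (a (b (l 16275248) (l 16338024)) (a (b (l 16299936) (l 16360000)) (b (l 16319160) (l 16377408)))) (a (b (l 16401536) (l 16462752)) (b (a (l 16420848) (l 16436472)) (a (l 16479600) (l 16493504))))) (a (b (a (b (b (l 16326704) (l 16354760)) (b (l 16382960) (l 16411320))) (b (b (l 16351520) (l 16378640)) (b (l 16405912) (l 16433344)))) (a (b (b (l 16439824) (l 16468536)) (b (l 16496776) (l 16522664))) (b (b (l 16460944) (l 16488752)) (b (l 16516096) (l 16541112))))) (b (a (b (a (b (l 16372080) (l 16398568)) (b (l 16386928) (l 16412816))) (a (b (l 16425136) (l 16451872)) (b (l 16438904) (l 16465168)))) (b (a (b (l 16402824) (l 16427736)) (b (l 16424808) (l 16448880))) (a (b (l 16453424) (l 16479208)) (b (b (l 16462272) (l 16474984)) (l 16493992))))) (a (b (a (b (l 16478776) (l 16505896)) (b (l 16491608) (l 16518272))) (a (b (l 16532568) (l 16556904)) (b (l 16544480) (l 16568368)))) (b (a (b (l 16505184)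 (l 16531376)) (b (l 16519496) (b (l 16538736) (l 16551624)))) (a (b (l 16557128) (l 16580560)) (b (b (l 16564336) (l 16576528)) (b (l 16588088) (l 16598872))))))))), by decide +kernel⟩

def k5_A00mm_202_s3 : ∃ t, chk3 f_A00mm_202_s3 t 14 17 1 = true :=
  ⟨(a (a (b (b (l 16515728) (l 16562120)) (b (l 16603472) (l 16597856))) (b (a (b (l 16530224) (l 16574416)) (b (l 16542496) (l 16585208))) (a (b (l 16613656) (l 16647976)) (b (l 16623024) (l 16614048))))) (a (b (a (b (l 16557008) (l 16556240)) (a (b (l 16569584) (l 16609536)) (b (l 16578888) (l 16618048)))) (a (a (b (l 16631440) (l 16663376)) (b (l 16637784) (l 16627088))) (a (b (l 16644824) (l 528906511)) (b (l 527652111) (l 528370447))))) (a (b (a (b (b (l 16578656) (l 16598928)) (l 525812239)) (b (b (l 16589664) (l 16609504)) (b (l 16628224) (l 16645840)))) (a (b (l 527382799) (b (l 16683264) (l 16696672))) (b (b (l 16662336) (l 16677672)) (b (l 16691856)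 (l 528347663))))) (b (a (b (b (l 16601416) (l 16620800)) (b (l 16639080) (l 16656272))) (b (b (l 16613880) (a (l 16629744) (l 16635936))) (a (l 525606159) (l 525070607)))) (a (b (b (l 16672352) (l 16676832)) (a (l 527911439) (l 527780623))) (b (a (l 526648335) (l 526515471)) (a (l 527650063) (b (l 527276047) (l 527760655))))))))), by decide +kernel⟩

def k6_A00mm_202_s3 : ∃ t, chk3 f_A00mm_202_s3 t 30 32 1 = true :=
  ⟨(b (a (a (a (b (b (l 16431960) (l 16443152)) (b (l 16454608) (l 16466472))) (a (b (l 16451680) (l 16473832)) (b (l 16461424) (l 16483096)))) (a (b (b (l 16471336) (l 16481744)) (b (l 16492160) (l 16502872))) (b (b (l 16492192) (l 16502336)) (b (l 16512504) (l 16522704))))) (b (a (a (b (l 16513528) (l 16523656)) (b (l 16535256) (l 16545368))) (a (a (l 16556856) (l 16567976)) (b (l 16579744) (l 16589840)))) (a (a (b (l 16533600) (l 16543544)) (b (l 16555320) (l 16565080))) (a (b (l 16577376)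 (l 16587152)) (b (l 16599784) (l 16609560)))))) (a (b (a (a (b (l 16478504) (l 16490776)) (b (l 16495592) (l 16507488))) (a (b (l 16513832) (l 16525104)) (b (l 16533160) (l 16543880)))) (b (a (a (l 16503280) (l 16519568)) (a (l 16542008) (a (l 16550248) (l 16559624)))) (a (a (l 16515744) (l 16531864)) (a (a (l 16544416) (l 16552992)) (a (l 16561800) (l 16570840)))))) (b (b (a (a (l 16553512) (l 16574800)) (a (l 16596728) (l 16619168))) (a (a (a (l 16558672) (l 16568848)) (a (l 16579256) (l 16589888))) (a (a (l 16600760) (l 16611784)) (a (l 16622952) (l 16634272))))) (a (a (a (b (l 16569272) (l 16580192)) (b (l 16579192) (l 16589816))) (a (b (l 16589352) (l 16599704)) (b (l 16599752) (l 16609840)))) (a (a (b (l 16610376) (l 16620224)) (b (l 16621224) (l 16630848))) (a (b (l 16632312) (l 16641696)) (b (l 16643552) (l 16652776)))))))), by decide +kernel⟩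

def k7_A00mm_202_s3 : ∃ t, chk3 f_A00mm_202_s3 t 31 64 1 = true :=
  ⟨(a (a (b (a (b (l 16602480) (l 16612584)) (b (l 16625536) (l 16635656))) (a (b (l 16622528) (l 16632312)) (b (l 16645616) (a (l 16649600) (l 16661232))))) (b (a (a (b (l 16642936) (l 16653072)) (b (l 16654256) (l 16664408))) (a (b (l 14) (l 16675456)) (l 14))) (a (a (b (l 16663048) (l 16672856)) (b (l 16674400) (l 16684224))) (a (b (l 16685464) (l 16695304)) (a (b (l 16693664) (l 16703520)) (b (l 16699160) (l 16709032))))))) (a (a (b (l 14) (b (a (b (l 14) (l 16710056)) (l 14)) (a (b (l 16715000) (l 16719904)) (a (b (l 16723624) (l 16728536)) (b (l 14) (l 16734408)))))) (l 14)) (l 14))), by decide +kernel⟩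

def k8_A00mm_202_s3 : ∃ t, chk3 f_A00mm_202_s3 t 62 65 1 = true :=
  ⟨(a (b (a (a (b (l 16636208) (l 16645656)) (b (l 16647672) (l 16657128))) (a (b (l 16659232) (l 16668696)) (b (l 16670872) (l 16680344)))) (a (a (b (l 16654904) (l 16664080)) (b (l 16666424) (l 16675528))) (a (b (l 16677992) (l 16687120)) (b (l 16689648) (l 16698784))))) (a (b (a (b (l 16682504) (l 16691984)) (b (l 16693888) (l 16703384))) (a (a (b (l 16698424) (l 16707568)) (b (l 16704200) (l 16713352))) (a (b (l 16709888) (l 16719048)) (b (l 16715512) (l 16724672))))) (b (a (a (b (l 16702224) (l 16711736)) (b (l 16707736) (l 16717248))) (a (b (l 16713216) (l 16722744)) (b (l 16718736) (l 16723024)))) (b (a (a (l 16721072) (l 16726600)) (a (b (l 16729776) (l 16734416)) (b (l 16735312) (l 16739960)))) (a (a (l 16725008) (b (l 16733504) (l 16738048))) (a (b (l 16739016) (l 16743568)) (b (l 16744560) (l 16743872)))))))), by decide +kernel⟩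

def k9_A00mm_202_s3 : ∃ t, chk3 f_A00mm_202_s3 t 63 130 1 = true :=
  ⟨(b (a (b (a (a (l 16724760) (a (l 16733408) (l 16739280))) (a (a (l 16745248) (b (l 14) (l 16752528))) (l 14))) (a (a (a (l 16726736) (l 16732440)) (a (l 16738232) (l 16744112))) (a (a (b (l 16748880) (l 16751296)) (a (l 16754632) (b (l 16756480) (l 16758896)))) (a (a (b (l 16759560) (l 16761976)) (b (l 14) (b (l 16764472) (l 16765680)))) (l 14))))) (l 14)) (a (a (b (a (a (l 16731512) (l 16737216)) (a (l 16743016) (l 16743664))) (a (a (l 16736248) (l 16741960)) (a (l 16742520) (b (l 16752472) (l 16754832))))) (a (a (a (a (l 517838607) (l 517802767)) (a (l 517766927) (l 517731087))) (a (a (l 517694991) (l 518330127)) (a (a (l 517632271) (l 517614351)) (a (l 517596175) (l 517578255))))) (a (a (a (a (l 517560335) (l 517542415)) (a (l 517524239) (l 517506319))) (a (a (l 517488399) (l 517470223)) (a (l 517452303) (l 517434383)))) (a (a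 (a (l 517416207) (l 517398287)) (a (l 517380111) (l 517362191))) (a (a (l 517344015) (l 517326095)) (a (l 517307919) (l 517289999))))))) (b (b (l 14) (b (b (l 14) (b (l 14) (l 4))) (l 4))) (l 4)))), by decide +kernel⟩

def k10_A00mm_202_s3 : ∃ t, chk3 f_A00mm_202_s3 t 63 131 1 = true :=
  ⟨(a (a (a (a (a (a (l 518656783) (l 518620943)) (a (l 518585359) (l 518549519))) (a (a (l 518513935) (l 518478095)) (a (l 518442511) (l 518406671)))) (a (a (a (b (l 518288655) (l 518453007)) (b (l 518252815) (l 518417167))) (a (b (l 518216975) (l 518381327)) (b (l 518181135) (l 518345487)))) (a (a (b (l 518145295) (l 518309647)) (b (l 518109455) (l 518273807))) (b (a (l 518073615) (l 518037775)) (a (l 518237711) (l 518201871)))))) (a (a (a (b (a (l 518001935) (l 517965839)) (a (l 518165775) (l 518129935))) (b (a (l 517929999) (l 517893903)) (a (l 518093839) (l 518057999)))) (a (a (a (l 517949199) (l 517931023)) (a (l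 517913103) (l 517895183))) (a (a (l 517877007) (l 518395919)) (b (a (l 517758991) (l 517741071)) (l 4))))) (b (a (a (a (a (l 517723151) (l 517704975)) (a (l 517687055) (l 517668879))) (a (a (l 517650959) (l 517632783)) (a (l 517614863) (l 517596687)))) (l 4)) (l 4)))) (l 4)), by decide +kernel⟩

def k11_A00mm_202_s3 : ∃ t, chk3 f_A00mm_202_s3 t 30 66 1 = true :=
  ⟨(a (a (a (b (b (l 16528256) (l 16540816)) (b (l 16553424) (l 16566080))) (b (b (l 16544136) (l 16556456)) (b (l 16568824) (l 16581248)))) (a (b (b (l 16560728) (l 16572808)) (b (l 16584936) (l 16602368))) (b (a (b (l 16573568) (l 16585528)) (b (l 16582440) (l 16594232))) (a (b (l 16597480) (l 16609488)) (b (l 16606064) (l 16617952)))))) (a (a (b (a (b (l 16591496) (l 16603064)) (b (l 16600784) (l 16612144))) (a (b (l 16614816) (l 16626584)) (b (l 16623736) (l 16635384)))) (b (a (b (l 16610368) (l 16621432)) (b (l 16620216) (l 16630928))) (a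 (b (l 16632776) (l 16644328)) (b (l 16642032) (l 16653424))))) (a (b (a (b (l 16630328) (l 16640736)) (b (l 16640688) (l 16650808))) (a (b (l 16651560) (l 16662656)) (b (l 16661264) (a (l 16669728) (l 16674520))))) (a (b (b (l 16651304) (l 16661152)) (b (l 16671304) (a (l 16679352) (l 16684280)))) (b (b (l 16662152) (l 16671752)) (a (b (l 16679008) (l 16689280)) (b (l 16684240) (l 16694352)))))))), by decide +kernel⟩

def k12_A00mm_202_s3 : ∃ t, chk3 f_A00mm_202_s3 t 30 67 1 = true :=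
  ⟨(a (b (b (a (a (l 16578552) (l 16593488)) (a (l 16614376) (a (l 16621320) (l 16629656)))) (a (a (l 16590512) (l 16605216)) (a (a (l 16616704) (l 16624584)) (a (l 16632632) (l 16640856))))) (a (a (b (l 16601840) (l 16612400)) (b (l 16616312) (l 16626640))) (a (a (b (l 16627624) (l 16637776)) (b (l 16635384) (l 16645416))) (a (b (l 16643320) (l 16653232)) (b (l 16651424) (l 16661224)))))) (a (a (a (b (b (l 16638176) (l 16649248)) (b (l 16659696) (l 16669384))) (b (b (l 16646848) (l 16657808)) (b (l 16668136) (l 16677704)))) (a (b (b (l 16655680) (l 16666512)) (b (l 16676728) (l 16686176))) (b (b (l 16664656) (l 16675376)) (b (l 16685464) (l 16694792))))) (a (a (b (b (l 16673776) (l 16684376)) (b (l 16694352) (a (l 16701352) (l 16705776)))) (b (b (a (l 16680720) (l 16685376)) (l 16693536)) (a (b (l 16701120) (l 16710240)) (b (l 16705672) (l 16714736))))) (b (a (a (b (l 16690104) (l 16700504)) (b (l 16694880)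 (l 16705200))) (a (b (l 16699728) (l 16709904)) (b (l 16704608) (l 520552975)))) (b (a (a (l 16710272) (l 16714904)) (a (l 16719584) (l 16724296))) (a (b (l 16719408) (l 16723696)) (b (l 16728664) (a (l 16730576) (l 16735216))))))))), by decide +kernel⟩

def k13_A00mm_202_s3 : ∃ t, chk3 f_A00mm_202_s3 t 124 66 1 = true :=
  ⟨(a (a (b (b (l 16673240) (a (l 16679864) (l 16685352))) (a (b (l 16689528) (l 16699496)) (b (l 16694888) (l 16704704)))) (b (b (b (l 16682304) (l 16686816)) (a (l 16690896) (l 16696504))) (b (a (l 16700304) (l 16705792)) (b (l 16710224) (a (l 16712440) (l 16717752)))))) (a (b (a (b (l 16693184) (l 16702168)) (b (l 16698984) (l 16707888))) (b (a (l 16711336) (b (l 16714664) (l 16719240))) (a (b (l 16718368) (l 16723128)) (b (l 16723888) (l 16728576))))) (b (b (a (l 16704808) (l 16710680)) (b (l 16714368) (l 16718776))) (b (a (b (l 16720360) (l 16724880)) (b (l 16726112) (l 16730584)))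 (a (b (l 16729464) (l 16734088)) (b (l 16735104) (l 16739672))))))), by decide +kernel⟩

def k14_A00mm_202_s3 : ∃ t, chk3 f_A00mm_202_s3 t 250 66 1 = true :=
  ⟨(a (b (a (b (l 16716544) (b (l 16723152) (l 16727528))) (b (l 16722336) (b (l 16728960) (l 16733320)))) (a (b (b (l 16731904) (l 16736320)) (b (l 16740784) (a (l 16743888) (l 16746696)))) (b (b (l 16737664) (l 16742024)) (a (b (l 16745032) (l 16749488)) (b (l 16747840) (l 16752272)))))) (b (a (b (l 16722792) (b (l 16734664) (l 16739032))) (b (b (l 16731440) (l 16735896)) (b (l 16740304) (l 16744680)))) (a (b (b (l 16743360) (a (l 16746272) (l 16749080))) (a (b (l 16750640) (l 519757583)) (b (l 16753432) (l 519765519)))) (b (a (b (l 16747592) (l 16751896)) (b (l 16750408) (l 16754696))) (a (b (l 519629839) (l 519769871)) (b (l 519632143) (l 519770639))))))), by decide +kernel⟩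

def k15_A00mm_202_s3 : ∃ t, chk3 f_A00mm_202_s3 t 251 66 1 = true :=
  ⟨(a (a (b (b (b (l 16737016) (l 16741480)) (b (l 16745896) (l 16745024))) (b (b (a (l 16753208) (l 16755992)) (a (l 519578383) (b (l 16759216) (l 16761344)))) (a (b (l 519631375) (l 519767567)) (b (l 519628303) (l 519760655))))) (b (a (a (b (l 16742720) (l 519425295)) (l 519334927)) (a (l 519315215) (l 519292431))) (b (a (a (b (l 16758080) (l 16759752)) (l 519550223)) (a (l 519540495) (l 519527183))) (a (b (a (l 519625231) (l 519622415)) (l 519750159)) (b (b (a (l 519612175) (l 519608847)) (l 519901199)) (l 519736079)))))) (a (b (a (a (l 519266319) (l 519236623)) (a (l 519202575) (l 519166991))) (a (a (b (l 519509519) (b (b (l 519601423) (l 519624975)) (l 519723023))) (b (l 519485711) (b (b (l 519587087) (a (l 519647503) (l 519628303))) (l 519713039)))) (b (a (l 519453967) (l 519418383)) (b (a (l 519580687) (l 519544847)) (a (b (a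 (b (l 519643151) (l 4)) (l 519645199)) (l 4)) (l 4)))))) (b (a (a (l 519131407) (l 519095567)) (a (l 519059983) (l 519024143))) (a (b (a (l 519382543) (l 519346703)) (b (l 519490831) (l 4))) (b (a (l 519310863) (l 519275279)) (l 4)))))), by decide +kernel⟩

def k16_A00mm_202_s3 : ∃ t, chk3 f_A00mm_202_s3 t 63 66 1 = true :=
  ⟨(a (a (b (a (a (a (a (l 518988303) (l 518952463)) (l 518630415)) (a (a (l 518845199) (l 518809359)) (a (l 518773519) (l 518737423)))) (a (a (a (l 518701583) (l 518665743)) (a (l 519166735) (a (l 518602767) (l 518584847)))) (b (a (a (l 518474767) (l 518438927)) (a (l 518402831) (l 518366735))) (l 4)))) (b (a (a (a (a (l 519239439) (l 519203343)) (a (l 519167503) (l 519131663))) (l 4)) (l 4)) (l 4))) (l 4)) (l 4)), by decide +kernel⟩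

def k17_A00mm_202_s3 : ∃ t, chk3 f_A00mm_202_s3 t 124 67 1 = true :=
  ⟨(a (b (b (a (b (l 16709616) (l 16714584)) (a (b (l 16717336) (l 16722176)) (b (l 16722568) (l 16727336)))) (a (a (l 520457743) (b (l 16721976) (l 16726808))) (a (b (l 16726976) (l 16731712)) (b (l 16732048) (l 16736696))))) (a (a (b (l 520969999) (l 521395727)) (b (l 520887311) (l 521330703))) (b (a (l 520798735) (b (l 16741288) (l 16740512))) (a (l 521264399) (b (l 16744824) (a (l 16752960) (l 16755368))))))) (a (b (a (b (b (l 16727872) (l 16732568)) (b (l 16737192) (l 16741760))) (a (a (l 519855375) (l 519843599)) (a (l 519832847) (l 519823631)))) (b (a (a (l 520630799) (l 520581647)) (a (l 520534287) (l 520492303))) (a (a (l 521145103) (l 521108751)) (b (l 520927247) (a (l 521443599) (l 521410319)))))) (a (b (a (a (l 519815695) (l 519809551)) (a (l 519805455) (l 519803151))) (b (a (l 520456207) (l 520427279)) (b (b (a (l 16762520)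 (l 16762400)) (l 520901647)) (a (l 521375759) (b (l 521285903) (l 521388047)))))) (b (a (a (l 519803407) (l 519806223)) (l 519817231)) (b (a (l 520409103) (l 520409615)) (a (b (a (l 521040911) (l 521024527)) (b (a (l 521252111) (l 521228047)) (l 521354511))) (b (a (l 521013775) (l 521013007)) (b (a (b (l 521169423) (l 521238543)) (a (l 521190927) (l 521195023))) (b (a (l 521308431) (a (l 521310991) (l 521276431))) (l 521342479)))))))))), by decide +kernel⟩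

def k18_A00mm_202_s3 : ∃ t, chk3 f_A00mm_202_s3 t 125 67 1 = true :=
  ⟨(b (a (a (a (a (l 519842575) (l 519867407)) (a (l 519888399) (l 519906063))) (a (a (l 519919887) (l 519929871)) (a (l 519936271) (l 519938831)))) (a (a (a (l 519937807) (l 519932943)) (a (l 519924495) (l 519912207))) (l 4))) (a (b (a (a (a (l 520702735) (l 520730127)) (a (l 520753935) (l 520773903))) (a (a (l 520790287) (l 520802831)) (l 4))) (a (a (a (a (a (a (l 520865039) (l 520868623)) (l 520874255)) (l 520885007)) (l 520906511)) (a (l 520931855) (l 4))) (l 4))) (l 4))), by decide +kernel⟩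

def k19_A00mm_202_s3 : ∃ t, chk3 f_A00mm_202_s3 t 63 67 1 = true :=
  ⟨(l 4), by decide +kernel⟩

def k20_A00mm_202_s3 : ∃ t, chk3 f_A00mm_202_s3 t 60 34 1 = true :=
  ⟨(a (a (b (a (b (l 16623696) (l 16642296)) (b (l 16630472) (l 16648840))) (a (b (l 16659800) (l 16676208)) (b (l 16666120) (l 525201935)))) (b (a (b (l 16637416) (l 16655560)) (a (l 523936527) (l 523872783))) (a (b (l 524550415) (l 525071375)) (b (l 524421647) (l 524941839))))) (a (a (b (a (l 523809295) (l 523746319)) (a (b (l 524594447) (l 525114127)) (a (l 524806927) (l 524775183)))) (b (a (l 523683343) (l 523621135)) (a (a (l 524743695) (l 524712207)) (a (l 524680719) (l 524649487))))) (a (b (a (l 523626255) (l 523564559)) (a (a (l 524618255) (l 524587279)) (a (l 524556303) (l 524525583)))) (b (a (a (l 523451663) (l 523421199)) (a (l 523390991) (l 523360783))) (a (a (l 524494863) (l 524464399)) (a (l 524434191) (l 524403983))))))), by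 decide +kernel⟩

def k21_A00mm_202_s3 : ∃ t, chk3 f_A00mm_202_s3 t 61 34 1 = true :=
  ⟨(a (a (a (b (a (a (l 523330831) (l 523300879)) (a (l 523271183) (l 523241743))) (a (a (l 524374031) (l 524344591)) (a (l 524315151) (l 524285967)))) (b (a (l 523264527) (l 523205135)) (a (a (l 524256527) (l 524227343)) (a (l 524198159) (l 524168719))))) (a (b (a (l 523179279) (a (l 523033871) (l 523003919))) (a (a (l 524139279) (l 524109839)) (b (l 523536911) (l 524056079)))) (b (a (a (l 522973967) (l 522944015)) (a (l 522914063) (l 522883855))) (a (b (l 523477519) (l 523997199)) (b (l 523417871) (l 523937807)))))) (a (a (b (a (a (l 522853903) (l 522823695)) (b (l 522244623) (l 522773519))) (a (b (l 523358223) (l 523878415)) (b (l 523298319) (l 523819023)))) (b (a (b (l 522183951) (l 522713103)) (b (l 522122767) (l 522652431))) (a (b (l 523238159) (l 523759119)) (b (l 523177743) (l 523699215))))) (a (b (a (b (l 522061583)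 (l 522591503)) (b (l 522000143) (l 522530575))) (a (a (l 523662607) (l 523632143)) (a (l 523601935) (l 523571727)))) (b (a (a (l 522488591) (l 522457871)) (a (l 522426895) (l 522396175))) (a (a (l 523541263) (l 523511055)) (a (l 523480591) (l 523449871))))))), by decide +kernel⟩

def k22_A00mm_202_s3 : ∃ t, chk3 f_A00mm_202_s3 t 31 34 1 = true :=
  ⟨(a (a (b (a (a (a (a (l 522365199) (l 522334223)) (a (l 522303247) (l 522272271))) (a (a (l 522241039) (l 522209807)) (a (l 522178575) (l 522147343)))) (a (a (a (l 522116111) (l 522084623)) (a (l 522053391) (l 522021903))) (a (a (l 521990415) (l 521958927)) (a (l 521927183) (l 521895439))))) (a (a (b (a (l 522873359) (l 522811663)) (l 4)) (l 4)) (l 4))) (l 4)) (l 4)), by decide +kernel⟩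

def k23_A00mm_202_s3 : ∃ t, chk3 f_A00mm_202_s3 t 60 35 1 = true :=
  ⟨(a (a (b (a (b (l 16691560) (l 526640399)) (b (l 525990159) (l 526508559))) (a (b (l 527145743) (l 527631375)) (b (l 527016207) (l 527502607)))) (b (a (b (l 525858831) (l 526376975)) (b (l 525728271) (l 526245391))) (a (b (l 526886671) (l 527374351)) (b (l 526757391) (l 527246351))))) (a (b (a (b (b (l 16712576) (l 525459215)) (b (l 525717007) (l 525974799))) (b (a (l 525502991) (l 525439503)) (a (l 526017295) (l 525684495)))) (a (b (l 526695439) (b (l 526731023) (l 526969871))) (b (a (l 526531599) (l 526198543)) (a (l 526755599) (l 526692367))))) (b (a (b (a (l 525376271) (l 525045263)) (a (l 525620495) (l 525557263))) (b (a (l 524983567) (l 524922639)) (a (l 525494543) (l 525432847)))) (a (b (a (l 526133775) (b (l 526208783) (l 526465295))) (a (l 526629135) (b (l 526714639) (l 526953999)))) (b (b (a (l 526145039) (l 525813775)) (a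 (l 526132495) (l 526068239))) (a (b (l 526651407) (l 526891279)) (b (l 526318607) (l 526828559)))))))), by decide +kernel⟩

def k24_A00mm_202_s3 : ∃ t, chk3 f_A00mm_202_s3 t 61 35 1 = true :=
  ⟨(a (a (b (a (a (b (l 524862479) (l 525372175)) (b (l 524803855) (l 525313551))) (a (b (l 524745999) (l 525255951)) (b (l 524687887) (l 525198095)))) (a (b (a (b (l 525752079) (b (l 525941519) (l 526067727))) (a (b (l 525975823) (a (l 526234895) (l 526220303))) (l 526073103))) (a (b (b (a (l 526479887) (l 526181903)) (l 526586639)) (l 526497551)) (b (a (b (a (l 526422543) (l 526408207)) (l 526271503)) (b (l 526386959) (l 526242063))) (l 4)))) (b (a (l 525761807) (l 525704207)) (a (b (b (l 526343951) (l 4)) (l 4)) (l 4))))) (a (b (a (b (l 524629775) (l 525140239)) (b (l 524571151) (l 525082127))) (b (a (l 525646607) (l 525589007)) (l 4))) (b (a (b (l 524512527) (l 525023759)) (b (l 524453647) (l 524965391))) (l 4))))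 (b (a (b (a (a (l 524394767) (l 524335375)) (a (l 524275983) (l 524216335))) (a (a (l 524906767) (l 4)) (l 4))) (l 4)) (l 4))), by decide +kernel⟩

def k25_A00mm_202_s3 : ∃ t, chk3 f_A00mm_202_s3 t 31 35 1 = true :=
  ⟨(l 4), by decide +kernel⟩

def k26_A00mm_202_s3 : ∃ t, chk3 f_A00mm_202_s3 t 28 18 1 = true :=
  ⟨(a (b (a (b (l 16670184) (l 16697976)) (b (l 16672920) (l 16699520))) (a (b (l 16699280) (l 16651776)) (b (l 16673584) (a (l 16706944) (l 16715288))))) (b (a (b (l 16593736) (l 16682048)) (a (b (l 16682456) (l 16665000)) (b (l 16686344) (l 16689248)))) (a (b (b (l 16719392) (l 16687152)) (a (l 16702272) (l 532151567))) (a (b (l 532397071) (l 532077327)) (b (l 532151823) (l 532280847)))))), by decide +kernel⟩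

def k27_A00mm_202_s3 : ∃ t, chk3 f_A00mm_202_s3 t 58 18 1 = true :=
  ⟨(a (b (a (b (l 16669784) (l 531287055)) (b (l 530112783) (l 531020303))) (a (b (l 531628303) (b (l 16734896) (l 532819727))) (b (b (l 16722304) (l 532115215)) (b (l 532272911) (l 532692239))))) (b (a (b (l 529845007) (l 530216719)) (b (b (l 16701800) (l 16702984)) (a (l 530554895) (l 530422799)))) (b (a (b (l 531416335) (l 531849743)) (a (l 531167759) (l 531304463))) (a (b (l 532007951) (a (l 532762383) (l 532630543))) (a (b (l 532078863) (l 532498959)) (b (l 531947535) (l 532367887))))))), by decide +kernel⟩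

def k28_A00mm_202_s3 : ∃ t, chk3 f_A00mm_202_s3 t 59 18 1 = true :=
  ⟨(a (b (a (b (b (l 16698520) (l 529544207)) (a (l 530290959) (l 530159631))) (b (a (l 529116943) (l 528985871)) (a (l 530028815) (b (l 529672719) (l 530121743))))) (b (a (a (l 530636303) (b (l 530824207) (l 531258639))) (a (b (l 530693647) (l 531128335)) (b (l 530563599) (a (l 531031055) (l 530966287))))) (a (b (a (l 531816719) (b (l 531579919) (l 531791887))) (a (l 531968783) (b (l 532002319) (l 532210959)))) (b (a (b (l 531449871) (l 531393551)) (a (l 531458831) (l 531394063))) (a (b (a (l 531904783) (l 531840015)) (l 532081167)) (b (b (a (l 531722767) (l 531657999)) (a (l 531827727) (b (l 531736847) (l 531789071)))) (a (l 531984143) (l 531919375)))))))) (b (a (b (a (l 528855311) (b (l 528492047) (l 528956175))) (a (b (l 529542671) (l 529991951)) (b (l 529412879) (l 529862415)))) (b (a (b (l 528362255) (l 528826639)) (b (l 528232719)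 (l 528697615))) (a (b (l 529283599) (a (l 529765647) (l 529701391))) (b (a (l 529187087) (l 529122831)) (b (l 529493007) (a (l 529748239) (l 529684239))))))) (b (a (a (b (l 530434063) (a (l 530901519) (l 530836751))) (b (a (l 530337039) (l 530272527)) (a (l 530772495) (l 530707983)))) (b (a (a (l 530208271) (l 530144015)) (a (l 530180367) (b (l 529905679) (l 529856783)))) (a (a (l 530643727) (b (l 530471183) (l 530687247))) (a (b (l 530407183) (l 530623247)) (b (l 530343183) (l 4)))))) (a (b (a (a (a (l 531345679) (l 531313423)) (l 531265039)) (a (b (l 531094287) (l 531306511)) (b (l 531029775) (l 531242255)))) (a (b (a (b (a (l 531609615) (l 531577359)) (a (b (a (l 531696399) (l 531680271)) (l 531472399)) (b (l 531656207) (l 4)))) (b (l 531529231) (l 4))) (l 4)) (l 4))) (b (a (a (b (l 530965775) (l 4)) (l 4)) (l 4)) (l 4)))))), by decide +kernel⟩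

def k29_A00mm_202_s3 : ∃ t, chk3 f_A00mm_202_s3 t 15 18 1 = true :=
  ⟨(a (a (a (b (a (b (a (b (l 528103951) (l 528568847)) (a (l 528509711) (l 528445711))) (a (b (a (l 529058575) (l 528994575)) (a (b (l 529397007) (l 529351695)) (b (l 529333007) (b (l 529500687) (l 529343503))))) (b (a (l 528930575) (l 528866831)) (a (a (l 529397007) (l 529365263)) (a (l 529333263) (l 529301519)))))) (b (a (b (l 527847439) (a (l 528345103) (l 528281359))) (b (a (l 527751951) (l 527688207)) (a (l 528217615) (l 528154127)))) (b (a (a (l 528803087) (l 528739599)) (a (a (l 528691983) (l 528660239)) (b (l 528230415) (l 528457743)))) (a (a (a (l 529269775) (l 529238031)) (b (l 528809743) (l 4))) (l 4))))) (a (b (b (a (a (b (l 529707535) (l 529793039)) (b (b (l 529454095) (l 529832975)) (b (l 529674511) (l 4)))) (b (a (a (b (l 529406479) (l 529785103)) (b (b (l 529615375) (l 4)) (l 4))) (l 4)) (l 4))) (l 4)) (l 4)) (l 4)))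 (b (a (b (a (b (a (l 527624719) (l 527561487)) (a (l 528090895) (l 528027663))) (b (a (l 527498255) (l 527166735)) (a (b (l 527848719) (l 527811599)) (b (l 527517199) (l 4))))) (a (b (b (a (l 528166927) (l 528103951)) (l 4)) (l 4)) (l 4))) (b (b (a (a (l 527103759) (l 527241999)) (b (a (l 526860047) (l 526797327)) (l 4))) (a (a (b (l 527454223) (l 4)) (l 4)) (l 4))) (l 4))) (l 4))) (l 4)) (l 4)), by decide +kernel⟩

def k30_A00mm_202_s3 : ∃ t, chk3 f_A00mm_202_s3 t 28 19 1 = true :=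
  ⟨(a (b (a (b (l 530277391) (b (l 16693024) (l 16673752))) (b (b (l 16710360) (l 16700472)) (a (l 530557455) (l 530455055)))) (a (b (a (l 529446415) (l 529613071)) (a (l 528636175) (l 528801807))) (b (a (l 529781775) (l 529683727)) (a (l 528969743) (l 528870927))))) (b (a (b (a (l 531677967) (l 531589903)) (a (b (l 16725984) (l 530699535)) (b (l 531256847) (l 530868495)))) (b (a (b (l 16717696) (l 531840527)) (a (l 532192015) (l 532025103))) (b (a (l 531436815) (a (l 531577871) (l 531675663))) (a (a (l 530998799) (l 531087631)) (a (l 531178767) (l 531272719)))))) (a (b (a (b (l 530319119) (l 529926159)) (b (l 530490383) (l 530101263))) (a (a (l 529268495) (l 529355279)) (a (l 529442319) (l 529529871)))) (b (a (b (a (l 530618895) (l 530704655)) (a (l 530234127) (l 530322959))) (b (a (l 530790927) (b (l 530977039) (l 530783759))) (b (a (l 530508815) (l 530596367)) (a (l 530312463) (l 530402831))))) (a (a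 (l 529081103) (l 529438479)) (a (b (l 530002447) (l 529590799)) (a (l 529595151) (l 529371919)))))))), by decide +kernel⟩

def k31_A00mm_202_s3 : ∃ t, chk3 f_A00mm_202_s3 t 58 19 1 = true :=
  ⟨(b (a (b (a (a (l 532130575) (l 531973135)) (a (l 532089615) (b (l 532953359) (l 532534543)))) (a (a (b (l 531777807) (l 531371535)) (b (l 531886863) (l 531209487))) (b (a (l 532003599) (l 532120591)) (a (l 531594511) (l 531712015))))) (b (a (a (a (l 532293391) (l 532351247)) (a (l 532408847) (l 532466191))) (a (b (l 532643855) (l 532611855)) (b (l 532513039) (l 532457231)))) (a (b (a (l 531968527) (b (l 532455439) (l 532250127))) (a (l 531560207) (a (l 531915791) (l 531705103)))) (a (b (b (a (l 532541711) (l 532598799)) (a (l 532336655) (b (l 532444943) (l 532342799)))) (a (l 531762703) (l 4))) (b (b (l 532415759) (a (b (b (l 532527631) (l 532476431)) (l 4)) (l 4))) (l 4)))))) (a (a (b (b (a (a (l 530949391) (l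 530997519)) (a (l 531047951) (l 531102223))) (a (b (b (l 530461967) (l 530368271)) (b (l 530542607) (l 530442767))) (b (a (a (l 530740239) (l 530764047)) (a (l 530789391) (l 530816783))) (a (b (b (l 530632207) (l 530585615)) (l 530510863)) (b (a (b (l 530666767) (l 530349583)) (a (l 530662159) (l 530674959))) (a (l 530277135) (b (a (l 530318351) (l 530332431)) (a (l 530537487) (l 530416143))))))))) (b (a (l 530183439) (a (l 530251791) (a (l 530286351) (l 4)))) (a (a (l 529747983) (l 4)) (l 4)))) (b (b (a (l 531190543) (a (l 531279119) (l 531337743))) (a (b (l 530890767) (b (l 530473487) (a (b (l 530637839) (l 4)) (l 4)))) (b (a (l 530979599) (l 4)) (l 4)))) (l 4))) (b (a (a (b (a (l 531128079) (b (l 531555087) (l 4))) (l 4)) (l 4)) (l 4)) (l 4)))), by decide +kernel⟩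

def k32_A00mm_202_s3 : ∃ t, chk3 f_A00mm_202_s3 t 59 19 1 = true :=
  ⟨(a (b (b (a (a (b (l 532382479) (a (l 532810511) (l 532757263))) (b (b (l 532417807) (l 532354831)) (a (l 532692239) (l 532627215)))) (b (a (a (l 532423439) (l 532090383)) (a (b (l 532191247) (l 4)) (l 4))) (l 4))) (a (b (a (b (a (l 532769295) (l 4)) (l 4)) (l 4)) (l 4)) (l 4))) (l 4)) (l 4)), by decide +kernel⟩

def k33_A00mm_202_s3 : ∃ t, chk3 f_A00mm_202_s3 t 15 19 1 = true :=
  ⟨(l 4), by decide +kernel⟩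

def k34_A00mm_202_s3 : ∃ t, chk3 f_A00mm_202_s3 t 12 20 1 = true :=
  ⟨(a (b (a (b (a (l 16117592) (l 16160568)) (a (l 16133352) (b (l 16199192) (l 16198120)))) (b (a (l 16244600) (l 16285768)) (a (a (l 16189176) (l 16210616)) (a (l 16231816) (l 16252768))))) (a (b (a (b (l 16152824) (l 16152952)) (a (l 16144992) (l 16167480))) (a (a (l 16143024) (l 16166544)) (a (l 16147904) (l 16191952)))) (a (b (a (l 16210720) (l 16232752)) (b (l 16224720) (l 16227760))) (b (b (l 16264512) (l 16266416)) (b (l 16290152) (l 16293760)))))) (b (a (a (b (l 16325976) (a (l 16294456) (l 16314920))) (b (l 16365168) (b (l 16365544) (l 16366888)))) (a (b (l 16403320) (b (l 16404600) (l 16406544))) (b (l 16440376) (b (l 16442560) (l 16445096))))) (a (a (b (a (l 522695439) (l 522813967)) (b (l 16333624) (l 16337800))) (b (a (l 522934031) (l 523055631)) (a (b (l 16365552) (l 16370152)) (l 522322703)))) (a (b (b (l 16409336) (l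 16412976)) (a (l 522444815) (l 522836495))) (b (b (l 16448472) (l 16452688)) (a (l 522961679) (l 523088143))))))), by decide +kernel⟩

def k35_A00mm_202_s3 : ∃ t, chk3 f_A00mm_202_s3 t 12 21 1 = true :=
  ⟨(a (a (b (a (b (b (l 16158632) (l 16162248)) (l 16169264)) (a (b (l 16154280) (l 16205968)) (b (l 16177920) (l 16188216)))) (a (b (l 16181488) (l 16196936)) (a (a (l 518841871) (l 518894095)) (b (l 16201760) (l 16218480))))) (b (a (a (b (l 16222304) (l 16233136)) (b (l 16255960) (l 16267336))) (a (b (l 521559055) (l 520590351)) (b (l 521672463) (l 520702479)))) (a (a (b (l 16247216) (l 16264440)) (b (l 16281936) (l 16299664))) (a (b (l 519903503) (l 16334648)) (b (l 520014607) (l 519340047)))))) (a (b (a (b (b (l 16342808) (l 16351248)) (b (l 16360504) (l 16367928))) (b (a (b (l 16375576) (l 16381808)) (b (l 16397096) (l 16403600))) (a (l 521047567) (l 521165327)))) (a (a (b (l 520126991) (l 519451151))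 (b (l 520240655) (l 519563791))) (a (b (l 520355855) (l 519677711)) (b (l 520472591) (l 519793167))))) (b (a (b (a (l 522260751) (l 522114575)) (a (l 521284879) (l 521405711))) (b (a (l 522238223) (l 522363407)) (a (l 521528079) (l 521651983)))) (a (a (b (l 520590607) (l 519909903)) (b (l 520710159) (l 520027919))) (a (b (l 520830991) (l 520147471)) (b (l 520953615) (l 520268559))))))), by decide +kernel⟩

def k36_A00mm_202_s3 : ∃ t, chk3 f_A00mm_202_s3 t 13 10 1 = true :=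
  ⟨(a (b (b (a (a (b (l 16476296) (l 524237071)) (b (l 16511032) (l 524773903))) (a (b (l 16544536) (l 525317647)) (b (l 16582016) (l 525599759)))) (a (a (b (b (l 16486464) (l 16491248)) (a (l 523216399) (l 523346191))) (b (b (l 16523264) (l 16528624)) (a (l 523477519) (l 523610639)))) (a (b (b (l 16558840) (l 16564768)) (a (l 523745295) (l 523881487))) (b (l 524837903) (l 523820559))))) (a (b (a (b (a (l 522490127) (l 522618639)) (a (l 521777167) (l 521904143))) (b (a (l 522748431) (l 522880015)) (a (l 522032655) (l 522162703)))) (a (a (b (l 521077519) (l 520391183)) (b (l 521202959) (l 520515087))) (b (a (l 521329935) (l 521458447)) (a (l 520640527) (l 520767503))))) (b (a (b (a (l 523013135) (l 523148047)) (a (l 522294287) (l 522427663))) (a (b (l 523284495) (l 522562319)) (b (l 523422735) (l 522699023)))) (a (b (a (l 521588495) (l 521720335)) (a (l 520896015) (l 521026063))) (b (a (l 521853455) (l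 521988367)) (a (l 521157647) (l 521290767))))))) (b (a (b (a (b (l 526667023) (l 525889295)) (b (l 526967055) (l 526185999))) (a (b (a (l 525052175) (l 525197071)) (a (l 524300815) (l 524444175))) (b (l 525417487) (a (l 524589071) (l 524736015))))) (b (a (b (l 527274767) (l 526490127)) (b (a (l 527511055) (l 527670799)) (a (l 526723599) (l 526881551)))) (a (b (a (l 525642767) (l 525794831)) (a (l 524884495) (l 525035023))) (b (a (l 525948943) (l 526105103)) (a (l 525187087) (a (l 525302799) (l 525380367))))))) (a (a (b (a (l 523197711) (l 523607055)) (a (b (l 522124815) (l 521425679)) (a (l 521876239) (l 521945103)))) (b (b (l 523919119) (l 522920975)) (a (l 522049295) (l 522189839)))) (a (b (b (b (l 524129807) (l 523759887)) (l 523479311)) (a (l 522332175) (l 522476047))) (b (b (a (l 524169743) (l 524321807)) (a (l 523702031) (l 523852303))) (l 4)))))), by decide +kernel⟩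

def k37_A00mm_202_s3 : ∃ t, chk3 f_A00mm_202_s3 t 12 11 1 = true :=
  ⟨(a (b (a (b (a (b (l 16215512) (l 16237120)) (b (l 518200335) (l 517558031))) (a (b (l 16272144) (l 16304784)) (b (l 516929807) (l 516315663)))) (b (a (a (l 517781263) (b (l 16330920) (l 16354640))) (a (b (l 16358520) (l 517924367)) (b (l 518679055) (l 518031887)))) (a (b (l 517135119) (l 516518415)) (b (a (l 517292047) (l 517398287)) (a (l 516673551) (l 516778511)))))) (b (a (a (b (l 515519247) (l 514935311)) (b (l 515715343) (l 515129103))) (a (b (l 515915791) (l 515327247)) (b (l 516120847) (l 515529743)))) (a (a (l 514085647) (b (l 514557199) (l 513999375))) (a (b (l 514752783) (l 514192399)) (b (l 514952719) (l 514390031)))))) (b (a (b (a (a (b (l 518789135) (l 518140431)) (b (l 518900495) (l 518250511))) (a (b (l 519013135) (l 518362127)) (b (l 519127055) (l 518474767)))) (a (b (a (l 517505807) (l 517614607)) (a (l 516884751)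 (l 516992271))) (b (a (l 517724687) (l 517836047)) (a (l 517101071) (l 517211151))))) (b (a (a (b (l 519242511) (l 518588687)) (b (l 519359247) (l 518704143))) (a (b (l 519477519) (l 518820879)) (l 519131919))) (a (b (a (l 517948687) (l 518062607)) (a (l 517322255) (l 517434895))) (a (l 517592847) (l 517708815))))) (a (b (a (b (a (l 516277775) (l 516384015)) (a (l 515684879) (l 515789583))) (b (a (l 516491279) (l 516599823)) (a (l 515895567) (l 516002575)))) (a (b (a (l 515105807) (l 515209231)) (l 514591759)) (b (a (l 515313679) (l 515419407)) (a (l 514745871) (b (l 514991375) (l 514710287)))))) (b (a (a (b (l 516709647) (l 516111119)) (b (l 516820751) (l 516220687))) (b (a (l 516933135) (l 517046799)) (a (l 516331535) (l 516443663)))) (a (a (b (l 515526415) (b (l 515097103) (l 514815247))) (b (l 515634447) (l 515062287))) (b (l 515798799) (l 515224079))))))), by decide +kernel⟩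

def k38_A00mm_202_s3 : ∃ t, chk3 f_A00mm_202_s3 t 13 11 1 = true :=
  ⟨(a (b (a (b (a (a (l 519117839) (l 519239695)) (a (l 519362831) (l 519487503))) (a (a (l 517826063) (l 517944591)) (a (l 518064655) (l 518185999)))) (b (a (a (l 519613455) (b (l 520345359) (l 519677967))) (a (b (l 520475151) (l 519806223)) (b (l 520606735) (l 519936015)))) (a (a (l 518308879) (l 518433039)) (a (l 518558735) (l 518685967))))) (a (b (a (b (a (l 517161743) (l 517277967)) (l 516614159)) (b (l 517723151) (l 516845839))) (a (b (l 516022287) (l 4)) (l 4))) (l 4))) (a (b (b (a (a (b (b (l 520910095) (l 520570383)) (l 520067087)) (b (b (l 521045263) (l 520704783)) (l 4))) (b (b (l 521250319) (l 4)) (l 4))) (l 4)) (l 4)) (l 4))), by decide +kernel⟩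

def k39_A00mm_202_s3 : ∃ t, chk3 f_A00mm_202_s3 t 7 5 1 = true :=
  ⟨(a (a (b (b (a (b (a (b (a (l 527832591) (l 527996175)) (a (l 527041551) (l 527203343))) (b (a (l 527893519) (a (l 528288015) (l 528372495))) (a (b (l 527564815) (l 526902031)) (a (b (l 527689743) (l 527294735)) (a (l 527554319) (l 527596303)))))) (a (a (b (l 526263055) (l 525497359)) (b (l 526422799) (l 525655311))) (a (b (l 526584847) (l 525815055)) (b (a (l 526707727) (b (l 526716943) (l 4))) (l 4))))) (b (b (a (a (b (l 528701711) (l 528299023)) (b (a (l 528831503) (l 528918287)) (a (l 528428047) (l 528514319)))) (a (a (b (a (l 528983823) (l 529027855)) (a (l 528579599) (a (l 528612367) (l 528634127)))) (b (l 529093647) (l 4))) (b (a (l 529182223) (l 4)) (l 4)))) (a (a (a (l 527659023) (l 527743759)) (a (l 527828751) (l 527377423))) (l 4))) (a (a (b (a (b (b (l 527166735) (l 4)) (l 4)) (l 4)) (l 4)) (l 4)) (l 4)))) (a (a (b (b (a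 (b (l 524931599) (l 524558351)) (l 4)) (l 4)) (l 4)) (l 4)) (l 4))) (l 4)) (l 4)) (l 4)), by decide +kernel⟩

def k40_A00mm_202_s3 : ∃ t, chk3 f_A00mm_202_s3 t 2 3 1 = true :=
  ⟨(b (a (b (a (a (l 6) (b (l 6) (b (l 6) (l 14840968)))) (b (a (b (l 6) (l 15013552)) (b (l 15252280) (l 15316936))) (a (b (l 15083768) (l 15165352)) (b (l 508293135) (l 507435791))))) (b (a (a (b (l 6) (l 14682088)) (b (l 14928312) (l 15026248))) (a (b (l 15257496) (l 15359376)) (b (l 506641167) (l 505910287)))) (b (a (a (l 14786008) (l 15133952)) (a (l 504755727) (l 505243663))) (l 2)))) (b (a (b (a (a (l 509806607) (l 510076431)) (a (l 510625807) (l 510918415))) (a (a (b (l 15618360) (l 15708344)) (l 508231183)) (a (l 508505871) (l 508789775)))) (a (b (a (b (l 511730703) (l 510735631)) (b (l 512050959) (l 511049487))) (a (l 509083663) (b (l 510107663) (l 509226255)))) (b (a (b (l 512384783) (l 511376143)) (b (a (l 512644367)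 (l 512822031)) (a (l 511629327) (l 511802639)))) (a (b (l 510426639) (l 509537039)) (b (l 510757647) (l 509858831)))))) (a (b (a (b (l 507151631) (l 506417423)) (b (l 507689743) (l 506947343))) (a (b (l 505746959) (l 505140495)) (b (l 506267919) (l 505651727)))) (a (b (a (b (l 508112399) (l 507361039)) (b (l 508405775) (l 507646735))) (b (a (l 506672143) (l 506949647)) (a (l 506046223) (l 506315535)))) (b (a (b (l 508708111) (l 507940367)) (b (l 509020431) (l 4))) (b (a (l 507234319) (l 4)) (l 4))))))) (a (l 2) (a (l 2) (a (l 2) (l 4))))), by decide +kernel⟩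

def k41_A00mm_202_s3 : ∃ t, chk3 f_A00mm_202_s3 t 3 3 1 = true :=
  ⟨(a (b (a (b (a (b (a (a (b (l 513003535) (l 511979535)) (b (l 513189135) (l 512160015))) (b (a (l 513378319) (l 514376975)) (a (l 512344079) (l 512531983)))) (b (a (a (l 511014159) (l 511189263)) (a (l 511367951) (l 511550223))) (a (a (l 510107919) (l 510277903)) (l 4)))) (b (a (a (b (b (l 514040335) (l 513503247)) (l 512992271)) (b (b (l 514243599) (l 513703439)) (l 4))) (a (b (a (b (l 514398991) (l 4)) (l 4)) (l 4)) (l 4))) (l 4))) (l 4)) (l 4)) (l 4)) (l 4)), by decide +kernel⟩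

theorem t42_A00mm_202_s3 : ∃ t, chk3 f_A00mm_202_s3 t 1 3 1 = true := ex3_a k40_A00mm_202_s3 k41_A00mm_202_s3

theorem t43_A00mm_202_s3 : ∃ t, chk3 f_A00mm_202_s3 t 6 11 1 = true := ex3_a k37_A00mm_202_s3 k38_A00mm_202_s3

theorem t44_A00mm_202_s3 : ∃ t, chk3 f_A00mm_202_s3 t 12 10 1 = true := ex3_b k34_A00mm_202_s3 k35_A00mm_202_s3

theorem t45_A00mm_202_s3 : ∃ t, chk3 f_A00mm_202_s3 t 6 10 1 = true := ex3_a t44_A00mm_202_s3 k36_A00mm_202_s3

theorem t46_A00mm_202_s3 : ∃ t, chk3 f_A00mm_202_s3 t 6 5 1 = true := ex3_b t45_A00mm_202_s3 t43_A00mm_202_s3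

theorem t47_A00mm_202_s3 : ∃ t, chk3 f_A00mm_202_s3 t 3 5 1 = true := ex3_a t46_A00mm_202_s3 k39_A00mm_202_s3

theorem t48_A00mm_202_s3 : ∃ t, chk3 f_A00mm_202_s3 t 29 19 1 = true := ex3_a k31_A00mm_202_s3 k32_A00mm_202_s3

theorem t49_A00mm_202_s3 : ∃ t, chk3 f_A00mm_202_s3 t 14 19 1 = true := ex3_a k30_A00mm_202_s3 t48_A00mm_202_s3

theorem t50_A00mm_202_s3 : ∃ t, chk3 f_A00mm_202_s3 t 7 19 1 = true := ex3_a t49_A00mm_202_s3 k33_A00mm_202_s3

theorem t51_A00mm_202_s3 : ∃ t, chk3 f_A00mm_202_s3 t 29 18 1 = true := ex3_a k27_A00mm_202_s3 k28_A00mm_202_s3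

theorem t52_A00mm_202_s3 : ∃ t, chk3 f_A00mm_202_s3 t 14 18 1 = true := ex3_a k26_A00mm_202_s3 t51_A00mm_202_s3

theorem t53_A00mm_202_s3 : ∃ t, chk3 f_A00mm_202_s3 t 7 18 1 = true := ex3_a t52_A00mm_202_s3 k29_A00mm_202_s3

theorem t54_A00mm_202_s3 : ∃ t, chk3 f_A00mm_202_s3 t 7 9 1 = true := ex3_b t53_A00mm_202_s3 t50_A00mm_202_s3

theorem t55_A00mm_202_s3 : ∃ t, chk3 f_A00mm_202_s3 t 30 35 1 = true := ex3_a k23_A00mm_202_s3 k24_A00mm_202_s3

theorem t56_A00mm_202_s3 : ∃ t, chk3 f_A00mm_202_s3 t 15 35 1 = true := ex3_a t55_A00mm_202_s3 k25_A00mm_202_s3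

theorem t57_A00mm_202_s3 : ∃ t, chk3 f_A00mm_202_s3 t 30 34 1 = true := ex3_a k20_A00mm_202_s3 k21_A00mm_202_s3

theorem t58_A00mm_202_s3 : ∃ t, chk3 f_A00mm_202_s3 t 15 34 1 = true := ex3_a t57_A00mm_202_s3 k22_A00mm_202_s3

theorem t59_A00mm_202_s3 : ∃ t, chk3 f_A00mm_202_s3 t 15 17 1 = true := ex3_b t58_A00mm_202_s3 t56_A00mm_202_s3

theorem t60_A00mm_202_s3 : ∃ t, chk3 f_A00mm_202_s3 t 62 67 1 = true := ex3_a k17_A00mm_202_s3 k18_A00mm_202_s3

theorem t61_A00mm_202_s3 : ∃ t, chk3 f_A00mm_202_s3 t 31 67 1 = true := ex3_a t60_A00mm_202_s3 k19_A00mm_202_s3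

theorem t62_A00mm_202_s3 : ∃ t, chk3 f_A00mm_202_s3 t 125 66 1 = true := ex3_a k14_A00mm_202_s3 k15_A00mm_202_s3

theorem t63_A00mm_202_s3 : ∃ t, chk3 f_A00mm_202_s3 t 62 66 1 = true := ex3_a k13_A00mm_202_s3 t62_A00mm_202_s3

theorem t64_A00mm_202_s3 : ∃ t, chk3 f_A00mm_202_s3 t 31 66 1 = true := ex3_a t63_A00mm_202_s3 k16_A00mm_202_s3

theorem t65_A00mm_202_s3 : ∃ t, chk3 f_A00mm_202_s3 t 31 33 1 = true := ex3_b t64_A00mm_202_s3 t61_A00mm_202_s3

theorem t66_A00mm_202_s3 : ∃ t, chk3 f_A00mm_202_s3 t 30 33 1 = true := ex3_b k11_A00mm_202_s3 k12_A00mm_202_s3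

theorem t67_A00mm_202_s3 : ∃ t, chk3 f_A00mm_202_s3 t 15 33 1 = true := ex3_a t66_A00mm_202_s3 t65_A00mm_202_s3

theorem t68_A00mm_202_s3 : ∃ t, chk3 f_A00mm_202_s3 t 63 65 1 = true := ex3_b k9_A00mm_202_s3 k10_A00mm_202_s3

theorem t69_A00mm_202_s3 : ∃ t, chk3 f_A00mm_202_s3 t 31 65 1 = true := ex3_a k8_A00mm_202_s3 t68_A00mm_202_s3

theorem t70_A00mm_202_s3 : ∃ t, chk3 f_A00mm_202_s3 t 31 32 1 = true := ex3_b k7_A00mm_202_s3 t69_A00mm_202_s3

theorem t71_A00mm_202_s3 : ∃ t, chk3 f_A00mm_202_s3 t 15 32 1 = true := ex3_a k6_A00mm_202_s3 t70_A00mm_202_s3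

theorem t72_A00mm_202_s3 : ∃ t, chk3 f_A00mm_202_s3 t 15 16 1 = true := ex3_b t71_A00mm_202_s3 t67_A00mm_202_s3

theorem t73_A00mm_202_s3 : ∃ t, chk3 f_A00mm_202_s3 t 15 8 1 = true := ex3_b t72_A00mm_202_s3 t59_A00mm_202_s3

theorem t74_A00mm_202_s3 : ∃ t, chk3 f_A00mm_202_s3 t 14 8 1 = true := ex3_b k4_A00mm_202_s3 k5_A00mm_202_s3

theorem t75_A00mm_202_s3 : ∃ t, chk3 f_A00mm_202_s3 t 7 8 1 = true := ex3_a t74_A00mm_202_s3 t73_A00mm_202_s3

theorem t76_A00mm_202_s3 : ∃ t, chk3 f_A00mm_202_s3 t 7 4 1 = true := ex3_b t75_A00mm_202_s3 t54_A00mm_202_s3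

theorem t77_A00mm_202_s3 : ∃ t, chk3 f_A00mm_202_s3 t 6 4 1 = true := ex3_b k2_A00mm_202_s3 k3_A00mm_202_s3

theorem t78_A00mm_202_s3 : ∃ t, chk3 f_A00mm_202_s3 t 3 4 1 = true := ex3_a t77_A00mm_202_s3 t76_A00mm_202_s3

theorem t79_A00mm_202_s3 : ∃ t, chk3 f_A00mm_202_s3 t 3 2 1 = true := ex3_b t78_A00mm_202_s3 t47_A00mm_202_s3

theorem t80_A00mm_202_s3 : ∃ t, chk3 f_A00mm_202_s3 t 2 2 1 = true := ex3_b k0_A00mm_202_s3 k1_A00mm_202_s3

theorem t81_A00mm_202_s3 : ∃ t, chk3 f_A00mm_202_s3 t 1 2 1 = true := ex3_a t80_A00mm_202_s3 t79_A00mm_202_s3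

theorem t82_A00mm_202_s3 : ∃ t, chk3 f_A00mm_202_s3 t 1 1 1 = true := ex3_b t81_A00mm_202_s3 t42_A00mm_202_s3

theorem c_A00mm_202_s3 : CertF 0 536870912 0 536870912 1045395039 1503240 true false false .pp 2 0 2
    ndB0q2 ndB0q0 pcB2 cut_A00mm_202_s3 xt_A00mm_202_s3 :=
  certF0 (fam := true) (s1 := false) (s2 := false) (a := 2) (b := 0) (c := 2) (cn := .pp) (n1 := ndB0q2) (n2 := ndB0q0) (pc := pcB2) (cut := cut_A00mm_202_s3) (xt := xt_A00mm_202_s3) (P1 := 0) (W1 := 536870912) (P2 := 0) (W2 := 536870912) (P3 := 1045395039) (W3 := 1503240)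
    rfl t82_A00mm_202_s3

theorem s_A00mm_202_s3 {κ x : ℝ} (hκ : κ * h0 = ken x) (hx : ((1045395039 : ℕ) : ℝ) / S ≤ x)
    (hx' : x ≤ (((1045395039 : ℕ) : ℝ) + (1503240 : ℕ)) / S)
    (H : CutA (VFD κ) PP tK tL pcB (Cut.of [[⟨0, 1, 0, 16777216⟩, ⟨1, 0, 0, 16777216⟩, ⟨2, 1, 0, 16777216⟩]]) 2 0 2 0 0 (sgb false) (sgb false) x) :
    AltA (VFD κ) PP tK tL pcB [⟨4, 0, 0, 2845415833⟩] 2 0 2 0 0 (sgb false) (sgb false) x :=
  strip_altAD (m := 2845415833) false rfl hκ (SH.κ0 hκ (SH.hx1 hx).le (SH.hx2 hx').le) (SH.hx1 hx).le (SH.hx2 hx') (covB02).cov (covB00).cov hx hx' c_A00mm_202_s3 H ((okx hx hx').extA (T := tt) (sideB hx hx') hκ rfl rfl (.O 2 false) (.O 0 false) (Or.inl rfl))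

noncomputable def cut_A00pp_001_s1 : Cut := Cut.of [[⟨4, 0, 0, 1449551462⟩]]

noncomputable def f_A00pp_001_s1 : ℕ → ℕ → ℕ → ℕ → Bool := onCell 0 536870912 0 536870912 1045395039 1503240
    (rowF 0 true true true .up 0 0 1 (qsf 0 536870912 0 536870912 1) ndB0q0 ndB0q0 pcB1 cut_A00pp_001_s1 Ext.none)

def k0_A00pp_001_s1 : ∃ t, chk3 f_A00pp_001_s1 t 1 1 1 = true :=
  ⟨(l 4), by decide +kernel⟩

theorem c_A00pp_001_s1 : CertF 0 536870912 0 536870912 1045395039 1503240 true true true .up 0 0 1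
    ndB0q0 ndB0q0 pcB1 cut_A00pp_001_s1 Ext.none :=
  certF0 (fam := true) (s1 := true) (s2 := true) (a := 0) (b := 0) (c := 1) (cn := .up) (n1 := ndB0q0) (n2 := ndB0q0) (pc := pcB1) (cut := cut_A00pp_001_s1) (xt := Ext.none) (P1 := 0) (W1 := 536870912) (P2 := 0) (W2 := 536870912) (P3 := 1045395039) (W3 := 1503240)
    rfl k0_A00pp_001_s1

theorem s_A00pp_001_s1 {κ x : ℝ} (hκ : κ * h0 = ken x) (hx : ((1045395039 : ℕ) : ℝ) / S ≤ x)
    (hx' : x ≤ (((1045395039 : ℕ) : ℝ) + (1503240 : ℕ)) / S) :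
    AltA (VFD κ) PP tK tL pcB [⟨3, 0, 0, 1449551462⟩] 0 0 1 0 0 (sgb true) (sgb true) x :=
  strip_altAD (m := 1449551462) true rfl hκ (SH.κ0 hκ (SH.hx1 hx).le (SH.hx2 hx').le) (SH.hx1 hx).le (SH.hx2 hx') (covB00).cov (covB00).cov hx hx' c_A00pp_001_s1 cutA_nil (noExt_A)

noncomputable def cut_A00pp_001_s3 : Cut := Cut.of [[⟨3, 0, 0, 2845415833⟩]]

noncomputable def f_A00pp_001_s3 : ℕ → ℕ → ℕ → ℕ → Bool := onCell 0 536870912 0 536870912 1045395039 1503240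
    (rowF 0 true true true .up 0 0 1 (qsf 0 536870912 0 536870912 1) ndB0q0 ndB0q0 pcB1 cut_A00pp_001_s3 Ext.none)

def k0_A00pp_001_s3 : ∃ t, chk3 f_A00pp_001_s3 t 1 1 1 = true :=
  ⟨(l 4), by decide +kernel⟩

theorem c_A00pp_001_s3 : CertF 0 536870912 0 536870912 1045395039 1503240 true true true .up 0 0 1
    ndB0q0 ndB0q0 pcB1 cut_A00pp_001_s3 Ext.none :=
  certF0 (fam := true) (s1 := true) (s2 := true) (a := 0) (b := 0) (c := 1) (cn := .up) (n1 := ndB0q0) (n2 := ndB0q0) (pc := pcB1) (cut := cut_A00pp_001_s3) (xt := Ext.none) (P1 := 0) (W1 := 536870912) (P2 := 0) (W2 := 536870912) (P3 := 1045395039) (W3 := 1503240)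
    rfl k0_A00pp_001_s3

theorem s_A00pp_001_s3 {κ x : ℝ} (hκ : κ * h0 = ken x) (hx : ((1045395039 : ℕ) : ℝ) / S ≤ x)
    (hx' : x ≤ (((1045395039 : ℕ) : ℝ) + (1503240 : ℕ)) / S) :
    AltA (VFD κ) PP tK tL pcB [⟨4, 0, 0, 2845415833⟩] 0 0 1 0 0 (sgb true) (sgb true) x :=
  strip_altAD (m := 2845415833) false rfl hκ (SH.κ0 hκ (SH.hx1 hx).le (SH.hx2 hx').le) (SH.hx1 hx).le (SH.hx2 hx') (covB00).cov (covB00).cov hx hx' c_A00pp_001_s3 cutA_nil (noExt_A)

noncomputable def cut_A00pp_011_s1 : Cut := Cut.of [[⟨4, 0, 0, 1449551462⟩], [⟨0, 0, 0, 26843545⟩, ⟨1, 1, 0, 26843545⟩, ⟨2, 1, 0, 26843545⟩]]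

noncomputable def f_A00pp_011_s1 : ℕ → ℕ → ℕ → ℕ → Bool := onCell 0 536870912 536870912 536870912 1045395039 1503240
    (rowF 0 true true true .pnn 0 1 1 (qsf 0 536870912 536870912 536870912 1) ndB0q0 ndB0q1 pcB1 cut_A00pp_011_s1 Ext.none)

def k0_A00pp_011_s1 : ∃ t, chk3 f_A00pp_011_s1 t 1 1 1 = true :=
  ⟨(l 6), by decide +kernel⟩

theorem c_A00pp_011_s1 : CertF 0 536870912 536870912 536870912 1045395039 1503240 true true true .pnn 0 1 1
    ndB0q0 ndB0q1 pcB1 cut_A00pp_011_s1 Ext.none :=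
  certF0 (fam := true) (s1 := true) (s2 := true) (a := 0) (b := 1) (c := 1) (cn := .pnn) (n1 := ndB0q0) (n2 := ndB0q1) (pc := pcB1) (cut := cut_A00pp_011_s1) (xt := Ext.none) (P1 := 0) (W1 := 536870912) (P2 := 536870912) (W2 := 536870912) (P3 := 1045395039) (W3 := 1503240)
    rfl k0_A00pp_011_s1

theorem s_A00pp_011_s1 {κ x : ℝ} (hκ : κ * h0 = ken x) (hx : ((1045395039 : ℕ) : ℝ) / S ≤ x)
    (hx' : x ≤ (((1045395039 : ℕ) : ℝ) + (1503240 : ℕ)) / S)
    (H : CutA (VFD κ) PP tK tL pcB (Cut.of [[⟨0, 0, 0, 26843545⟩, ⟨1, 1, 0, 26843545⟩, ⟨2, 1, 0, 26843545⟩]]) 0 1 1 0 0 (sgb true) (sgb true) x) :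
    AltA (VFD κ) PP tK tL pcB [⟨3, 0, 0, 1449551462⟩] 0 1 1 0 0 (sgb true) (sgb true) x :=
  strip_altAD (m := 1449551462) true rfl hκ (SH.κ0 hκ (SH.hx1 hx).le (SH.hx2 hx').le) (SH.hx1 hx).le (SH.hx2 hx') (covB00).cov (covB01).cov hx hx' c_A00pp_011_s1 H (noExt_A)

noncomputable def cut_A00pp_011_s3 : Cut := Cut.of [[⟨3, 0, 0, 2845415833⟩], [⟨0, 0, 0, 26843545⟩, ⟨1, 1, 0, 26843545⟩, ⟨2, 1, 0, 26843545⟩]]

noncomputable def f_A00pp_011_s3 : ℕ → ℕ → ℕ → ℕ → Bool := onCell 0 536870912 536870912 536870912 1045395039 1503240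
    (rowF 0 true true true .pnn 0 1 1 (qsf 0 536870912 536870912 536870912 1) ndB0q0 ndB0q1 pcB1 cut_A00pp_011_s3 Ext.none)

def k0_A00pp_011_s3 : ∃ t, chk3 f_A00pp_011_s3 t 1 1 1 = true :=
  ⟨(b (l 4) (a (b (l 4) (a (b (l 4) (a (b (l 4) (a (b (l 4) (a (l 14) (l 4))) (l 4))) (l 4))) (l 4))) (l 4))), by decide +kernel⟩

theorem c_A00pp_011_s3 : CertF 0 536870912 536870912 536870912 1045395039 1503240 true true true .pnn 0 1 1
    ndB0q0 ndB0q1 pcB1 cut_A00pp_011_s3 Ext.none :=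
  certF0 (fam := true) (s1 := true) (s2 := true) (a := 0) (b := 1) (c := 1) (cn := .pnn) (n1 := ndB0q0) (n2 := ndB0q1) (pc := pcB1) (cut := cut_A00pp_011_s3) (xt := Ext.none) (P1 := 0) (W1 := 536870912) (P2 := 536870912) (W2 := 536870912) (P3 := 1045395039) (W3 := 1503240)
    rfl k0_A00pp_011_s3

theorem s_A00pp_011_s3 {κ x : ℝ} (hκ : κ * h0 = ken x) (hx : ((1045395039 : ℕ) : ℝ) / S ≤ x)
    (hx' : x ≤ (((1045395039 : ℕ) : ℝ) + (1503240 : ℕ)) / S)
    (H : CutA (VFD κ) PP tK tL pcB (Cut.of [[⟨0, 0, 0, 26843545⟩, ⟨1, 1, 0, 26843545⟩, ⟨2, 1, 0, 26843545⟩]]) 0 1 1 0 0 (sgb true) (sgb true) x) :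
    AltA (VFD κ) PP tK tL pcB [⟨4, 0, 0, 2845415833⟩] 0 1 1 0 0 (sgb true) (sgb true) x :=
  strip_altAD (m := 2845415833) false rfl hκ (SH.κ0 hκ (SH.hx1 hx).le (SH.hx2 hx').le) (SH.hx1 hx).le (SH.hx2 hx') (covB00).cov (covB01).cov hx hx' c_A00pp_011_s3 H (noExt_A)

noncomputable def cut_A00pp_012_s1 : Cut := Cut.of [[⟨4, 0, 0, 1449551462⟩], [⟨0, 0, 0, 26843545⟩, ⟨1, 1, 0, 26843545⟩, ⟨2, 1, 0, 26843545⟩]]

noncomputable def f_A00pp_012_s1 : ℕ → ℕ → ℕ → ℕ → Bool := onCell 0 536870912 536870912 536870912 1045395039 1503240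
    (rowF 0 true true true .pnp 0 1 2 (qsf 0 536870912 536870912 536870912 2) ndB0q0 ndB0q1 pcB2 cut_A00pp_012_s1 Ext.none)

def k0_A00pp_012_s1 : ∃ t, chk3 f_A00pp_012_s1 t 1 1 1 = true :=
  ⟨(l 6), by decide +kernel⟩

theorem c_A00pp_012_s1 : CertF 0 536870912 536870912 536870912 1045395039 1503240 true true true .pnp 0 1 2
    ndB0q0 ndB0q1 pcB2 cut_A00pp_012_s1 Ext.none :=
  certF0 (fam := true) (s1 := true) (s2 := true) (a := 0) (b := 1) (c := 2) (cn := .pnp) (n1 := ndB0q0) (n2 := ndB0q1) (pc := pcB2) (cut := cut_A00pp_012_s1) (xt := Ext.none) (P1 := 0) (W1 := 536870912) (P2 := 536870912) (W2 := 536870912) (P3 := 1045395039) (W3 := 1503240)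
    rfl k0_A00pp_012_s1

theorem s_A00pp_012_s1 {κ x : ℝ} (hκ : κ * h0 = ken x) (hx : ((1045395039 : ℕ) : ℝ) / S ≤ x)
    (hx' : x ≤ (((1045395039 : ℕ) : ℝ) + (1503240 : ℕ)) / S)
    (H : CutA (VFD κ) PP tK tL pcB (Cut.of [[⟨0, 0, 0, 26843545⟩, ⟨1, 1, 0, 26843545⟩, ⟨2, 1, 0, 26843545⟩]]) 0 1 2 0 0 (sgb true) (sgb true) x) :
    AltA (VFD κ) PP tK tL pcB [⟨3, 0, 0, 1449551462⟩] 0 1 2 0 0 (sgb true) (sgb true) x :=
  strip_altAD (m := 1449551462) true rfl hκ (SH.κ0 hκ (SH.hx1 hx).le (SH.hx2 hx').le) (SH.hx1 hx).le (SH.hx2 hx') (covB00).cov (covB01).cov hx hx' c_A00pp_012_s1 H (noExt_A)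

noncomputable def cut_A00pp_012_s3 : Cut := Cut.of [[⟨3, 0, 0, 2845415833⟩], [⟨0, 0, 0, 26843545⟩, ⟨1, 1, 0, 26843545⟩, ⟨2, 1, 0, 26843545⟩]]

noncomputable def f_A00pp_012_s3 : ℕ → ℕ → ℕ → ℕ → Bool := onCell 0 536870912 536870912 536870912 1045395039 1503240
    (rowF 0 true true true .pnp 0 1 2 (qsf 0 536870912 536870912 536870912 2) ndB0q0 ndB0q1 pcB2 cut_A00pp_012_s3 Ext.none)

def k0_A00pp_012_s3 : ∃ t, chk3 f_A00pp_012_s3 t 1 1 1 = true :=
  ⟨(b (l 4) (a (b (l 4) (a (b (l 4) (a (b (l 4) (a (b (l 4) (a (l 14) (l 4))) (l 4))) (l 4))) (l 4))) (l 4))), by decide +kernel⟩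

theorem c_A00pp_012_s3 : CertF 0 536870912 536870912 536870912 1045395039 1503240 true true true .pnp 0 1 2
    ndB0q0 ndB0q1 pcB2 cut_A00pp_012_s3 Ext.none :=
  certF0 (fam := true) (s1 := true) (s2 := true) (a := 0) (b := 1) (c := 2) (cn := .pnp) (n1 := ndB0q0) (n2 := ndB0q1) (pc := pcB2) (cut := cut_A00pp_012_s3) (xt := Ext.none) (P1 := 0) (W1 := 536870912) (P2 := 536870912) (W2 := 536870912) (P3 := 1045395039) (W3 := 1503240)
    rfl k0_A00pp_012_s3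

theorem s_A00pp_012_s3 {κ x : ℝ} (hκ : κ * h0 = ken x) (hx : ((1045395039 : ℕ) : ℝ) / S ≤ x)
    (hx' : x ≤ (((1045395039 : ℕ) : ℝ) + (1503240 : ℕ)) / S)
    (H : CutA (VFD κ) PP tK tL pcB (Cut.of [[⟨0, 0, 0, 26843545⟩, ⟨1, 1, 0, 26843545⟩, ⟨2, 1, 0, 26843545⟩]]) 0 1 2 0 0 (sgb true) (sgb true) x) :
    AltA (VFD κ) PP tK tL pcB [⟨4, 0, 0, 2845415833⟩] 0 1 2 0 0 (sgb true) (sgb true) x :=
  strip_altAD (m := 2845415833) false rfl hκ (SH.κ0 hκ (SH.hx1 hx).le (SH.hx2 hx').le) (SH.hx1 hx).le (SH.hx2 hx') (covB00).cov (covB01).cov hx hx' c_A00pp_012_s3 H (noExt_A)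

noncomputable def cut_A00pp_022_s1 : Cut := Cut.of [[⟨4, 0, 0, 1449551462⟩], [⟨0, 0, 0, 16777216⟩, ⟨1, 1, 0, 16777216⟩, ⟨2, 1, 0, 16777216⟩]]

noncomputable def f_A00pp_022_s1 : ℕ → ℕ → ℕ → ℕ → Bool := onCell 0 536870912 0 536870912 1045395039 1503240
    (rowF 0 true true true .pp 0 2 2 (qsf 0 536870912 0 536870912 2) ndB0q0 ndB0q2 pcB2 cut_A00pp_022_s1 Ext.none)

def k0_A00pp_022_s1 : ∃ t, chk3 f_A00pp_022_s1 t 1 1 1 = true :=
  ⟨(l 6), by decide +kernel⟩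

theorem c_A00pp_022_s1 : CertF 0 536870912 0 536870912 1045395039 1503240 true true true .pp 0 2 2
    ndB0q0 ndB0q2 pcB2 cut_A00pp_022_s1 Ext.none :=
  certF0 (fam := true) (s1 := true) (s2 := true) (a := 0) (b := 2) (c := 2) (cn := .pp) (n1 := ndB0q0) (n2 := ndB0q2) (pc := pcB2) (cut := cut_A00pp_022_s1) (xt := Ext.none) (P1 := 0) (W1 := 536870912) (P2 := 0) (W2 := 536870912) (P3 := 1045395039) (W3 := 1503240)
    rfl k0_A00pp_022_s1

theorem s_A00pp_022_s1 {κ x : ℝ} (hκ : κ * h0 = ken x) (hx : ((1045395039 : ℕ) : ℝ) / S ≤ x)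
    (hx' : x ≤ (((1045395039 : ℕ) : ℝ) + (1503240 : ℕ)) / S)
    (H : CutA (VFD κ) PP tK tL pcB (Cut.of [[⟨0, 0, 0, 16777216⟩, ⟨1, 1, 0, 16777216⟩, ⟨2, 1, 0, 16777216⟩]]) 0 2 2 0 0 (sgb true) (sgb true) x) :
    AltA (VFD κ) PP tK tL pcB [⟨3, 0, 0, 1449551462⟩] 0 2 2 0 0 (sgb true) (sgb true) x :=
  strip_altAD (m := 1449551462) true rfl hκ (SH.κ0 hκ (SH.hx1 hx).le (SH.hx2 hx').le) (SH.hx1 hx).le (SH.hx2 hx') (covB00).cov (covB02).cov hx hx' c_A00pp_022_s1 H (noExt_A)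

noncomputable def cut_A00pp_023_s1 : Cut := Cut.of [[⟨4, 0, 0, 1449551462⟩]]

noncomputable def f_A00pp_023_s1 : ℕ → ℕ → ℕ → ℕ → Bool := onCell 0 536870912 0 536870912 1045395039 1503240
    (rowF 0 true true true .up 0 2 3 (qsf 0 536870912 0 536870912 3) ndB0q0 ndB0q2 pcB3 cut_A00pp_023_s1 Ext.none)

def k0_A00pp_023_s1 : ∃ t, chk3 f_A00pp_023_s1 t 1 1 1 = true :=
  ⟨(l 6), by decide +kernel⟩

theorem c_A00pp_023_s1 : CertF 0 536870912 0 536870912 1045395039 1503240 true true true .up 0 2 3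
    ndB0q0 ndB0q2 pcB3 cut_A00pp_023_s1 Ext.none :=
  certF0 (fam := true) (s1 := true) (s2 := true) (a := 0) (b := 2) (c := 3) (cn := .up) (n1 := ndB0q0) (n2 := ndB0q2) (pc := pcB3) (cut := cut_A00pp_023_s1) (xt := Ext.none) (P1 := 0) (W1 := 536870912) (P2 := 0) (W2 := 536870912) (P3 := 1045395039) (W3 := 1503240)
    rfl k0_A00pp_023_s1

theorem s_A00pp_023_s1 {κ x : ℝ} (hκ : κ * h0 = ken x) (hx : ((1045395039 : ℕ) : ℝ) / S ≤ x)
    (hx' : x ≤ (((1045395039 : ℕ) : ℝ) + (1503240 : ℕ)) / S) :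
    AltA (VFD κ) PP tK tL pcB [⟨3, 0, 0, 1449551462⟩] 0 2 3 0 0 (sgb true) (sgb true) x :=
  strip_altAD (m := 1449551462) true rfl hκ (SH.κ0 hκ (SH.hx1 hx).le (SH.hx2 hx').le) (SH.hx1 hx).le (SH.hx2 hx') (covB00).cov (covB02).cov hx hx' c_A00pp_023_s1 cutA_nil (noExt_A)

noncomputable def cut_A00pp_023_s3 : Cut := Cut.of [[⟨3, 0, 0, 2845415833⟩]]

noncomputable def xt_A00pp_023_s3 : Ext := strExt dd true true true .u0 .u2 .s2 .up 0 2 3 rfl rfl gl3 vv ndB0q0 ndB0q2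

noncomputable def f_A00pp_023_s3 : ℕ → ℕ → ℕ → ℕ → Bool := onCell 1610612736 536870912 0 536870912 1045395039 1503240
    (rowF 2 true true true .up 0 2 3 (qsf 0 536870912 0 536870912 3) ndB0q0 ndB0q2 pcB3 cut_A00pp_023_s3 xt_A00pp_023_s3)

def k0_A00pp_023_s3 : ∃ t, chk3 f_A00pp_023_s3 t 1 1 1 = true :=
  ⟨(a (b (a (b (a (b (a (l 16642400) (l 16679496)) (a (l 534026767) (l 534348047))) (b (a (l 534433551) (l 534209807)) (a (b (l 534368015) (l 534301711)) (l 534129935)))) (a (b (a (l 533760527) (l 534072079)) (a (l 533479695) (l 4))) (b (a (l 534167567) (b (l 4) (l 4))) (l 4)))) (b (a (b (a (l 534069519) (l 2)) (a (l 534009103) (l 2))) (l 2)) (l 4))) (l 4)) (l 2)), by decide +kernel⟩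

theorem c_A00pp_023_s3 : CertF 0 536870912 0 536870912 1045395039 1503240 true true true .up 0 2 3
    ndB0q0 ndB0q2 pcB3 cut_A00pp_023_s3 xt_A00pp_023_s3 :=
  certF2 (fam := true) (s1 := true) (s2 := true) (a := 0) (b := 2) (c := 3) (cn := .up) (n1 := ndB0q0) (n2 := ndB0q2) (pc := pcB3) (cut := cut_A00pp_023_s3) (xt := xt_A00pp_023_s3) (P1 := 0) (W1 := 536870912) (P2 := 0) (W2 := 536870912) (P3 := 1045395039) (W3 := 1503240)
    rfl (fun _ => rfl) k0_A00pp_023_s3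

theorem s_A00pp_023_s3 {κ x : ℝ} (hκ : κ * h0 = ken x) (hx : ((1045395039 : ℕ) : ℝ) / S ≤ x)
    (hx' : x ≤ (((1045395039 : ℕ) : ℝ) + (1503240 : ℕ)) / S) :
    AltA (VFD κ) PP tK tL pcB [⟨4, 0, 0, 2845415833⟩] 0 2 3 0 0 (sgb true) (sgb true) x :=
  strip_altAD (m := 2845415833) false rfl hκ (SH.κ0 hκ (SH.hx1 hx).le (SH.hx2 hx').le) (SH.hx1 hx).le (SH.hx2 hx') (covB00).cov (covB02).cov hx hx' c_A00pp_023_s3 cutA_nil ((okx hx hx').extA (T := tt) (sideB hx hx') hκ rfl rfl (.O 0 true) (.O 2 true) (Or.inr rfl))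

noncomputable def cut_A00pp_101_s1 : Cut := Cut.of [[⟨4, 0, 0, 1449551462⟩]]

noncomputable def f_A00pp_101_s1 : ℕ → ℕ → ℕ → ℕ → Bool := onCell 536870912 536870912 0 536870912 1045395039 1503240
    (rowF 0 true true true .npn 1 0 1 (qsf 536870912 536870912 0 536870912 1) ndB0q1 ndB0q0 pcB1 cut_A00pp_101_s1 Ext.none)

def k0_A00pp_101_s1 : ∃ t, chk3 f_A00pp_101_s1 t 1 1 1 = true :=
  ⟨(l 6), by decide +kernel⟩

theorem c_A00pp_101_s1 : CertF 536870912 536870912 0 536870912 1045395039 1503240 true true true .npn 1 0 1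
    ndB0q1 ndB0q0 pcB1 cut_A00pp_101_s1 Ext.none :=
  certF0 (fam := true) (s1 := true) (s2 := true) (a := 1) (b := 0) (c := 1) (cn := .npn) (n1 := ndB0q1) (n2 := ndB0q0) (pc := pcB1) (cut := cut_A00pp_101_s1) (xt := Ext.none) (P1 := 536870912) (W1 := 536870912) (P2 := 0) (W2 := 536870912) (P3 := 1045395039) (W3 := 1503240)
    rfl k0_A00pp_101_s1

theorem s_A00pp_101_s1 {κ x : ℝ} (hκ : κ * h0 = ken x) (hx : ((1045395039 : ℕ) : ℝ) / S ≤ x)
    (hx' : x ≤ (((1045395039 : ℕ) : ℝ) + (1503240 : ℕ)) / S) :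
    AltA (VFD κ) PP tK tL pcB [⟨3, 0, 0, 1449551462⟩] 1 0 1 0 0 (sgb true) (sgb true) x :=
  strip_altAD (m := 1449551462) true rfl hκ (SH.κ0 hκ (SH.hx1 hx).le (SH.hx2 hx').le) (SH.hx1 hx).le (SH.hx2 hx') (covB01).cov (covB00).cov hx hx' c_A00pp_101_s1 cutA_nil (noExt_A)

noncomputable def cut_A00pp_101_s3 : Cut := Cut.of [[⟨3, 0, 0, 2845415833⟩]]

noncomputable def f_A00pp_101_s3 : ℕ → ℕ → ℕ → ℕ → Bool := onCell 536870912 536870912 0 536870912 1045395039 1503240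
    (rowF 0 true true true .npn 1 0 1 (qsf 536870912 536870912 0 536870912 1) ndB0q1 ndB0q0 pcB1 cut_A00pp_101_s3 Ext.none)

def k0_A00pp_101_s3 : ∃ t, chk3 f_A00pp_101_s3 t 1 1 1 = true :=
  ⟨(a (l 4) (l 5)), by decide +kernel⟩

theorem c_A00pp_101_s3 : CertF 536870912 536870912 0 536870912 1045395039 1503240 true true true .npn 1 0 1
    ndB0q1 ndB0q0 pcB1 cut_A00pp_101_s3 Ext.none :=
  certF0 (fam := true) (s1 := true) (s2 := true) (a := 1) (b := 0) (c := 1) (cn := .npn) (n1 := ndB0q1) (n2 := ndB0q0) (pc := pcB1) (cut := cut_A00pp_101_s3) (xt := Ext.none) (P1 := 536870912) (W1 := 536870912) (P2 := 0) (W2 := 536870912) (P3 := 1045395039) (W3 := 1503240)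
    rfl k0_A00pp_101_s3

theorem s_A00pp_101_s3 {κ x : ℝ} (hκ : κ * h0 = ken x) (hx : ((1045395039 : ℕ) : ℝ) / S ≤ x)
    (hx' : x ≤ (((1045395039 : ℕ) : ℝ) + (1503240 : ℕ)) / S) :
    AltA (VFD κ) PP tK tL pcB [⟨4, 0, 0, 2845415833⟩] 1 0 1 0 0 (sgb true) (sgb true) x :=
  strip_altAD (m := 2845415833) false rfl hκ (SH.κ0 hκ (SH.hx1 hx).le (SH.hx2 hx').le) (SH.hx1 hx).le (SH.hx2 hx') (covB01).cov (covB00).cov hx hx' c_A00pp_101_s3 cutA_nil (noExt_A)

noncomputable def cut_A00pp_102_s1 : Cut := Cut.of [[⟨4, 0, 0, 1449551462⟩]]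

noncomputable def f_A00pp_102_s1 : ℕ → ℕ → ℕ → ℕ → Bool := onCell 536870912 536870912 0 536870912 1045395039 1503240
    (rowF 0 true true true .npp 1 0 2 (qsf 536870912 536870912 0 536870912 2) ndB0q1 ndB0q0 pcB2 cut_A00pp_102_s1 Ext.none)

def k0_A00pp_102_s1 : ∃ t, chk3 f_A00pp_102_s1 t 1 1 1 = true :=
  ⟨(l 6), by decide +kernel⟩

theorem c_A00pp_102_s1 : CertF 536870912 536870912 0 536870912 1045395039 1503240 true true true .npp 1 0 2
    ndB0q1 ndB0q0 pcB2 cut_A00pp_102_s1 Ext.none :=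
  certF0 (fam := true) (s1 := true) (s2 := true) (a := 1) (b := 0) (c := 2) (cn := .npp) (n1 := ndB0q1) (n2 := ndB0q0) (pc := pcB2) (cut := cut_A00pp_102_s1) (xt := Ext.none) (P1 := 536870912) (W1 := 536870912) (P2 := 0) (W2 := 536870912) (P3 := 1045395039) (W3 := 1503240)
    rfl k0_A00pp_102_s1

theorem s_A00pp_102_s1 {κ x : ℝ} (hκ : κ * h0 = ken x) (hx : ((1045395039 : ℕ) : ℝ) / S ≤ x)
    (hx' : x ≤ (((1045395039 : ℕ) : ℝ) + (1503240 : ℕ)) / S) :
    AltA (VFD κ) PP tK tL pcB [⟨3, 0, 0, 1449551462⟩] 1 0 2 0 0 (sgb true) (sgb true) x :=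
  strip_altAD (m := 1449551462) true rfl hκ (SH.κ0 hκ (SH.hx1 hx).le (SH.hx2 hx').le) (SH.hx1 hx).le (SH.hx2 hx') (covB01).cov (covB00).cov hx hx' c_A00pp_102_s1 cutA_nil (noExt_A)

noncomputable def cut_A00pp_102_s3 : Cut := Cut.of [[⟨3, 0, 0, 2845415833⟩]]

noncomputable def f_A00pp_102_s3 : ℕ → ℕ → ℕ → ℕ → Bool := onCell 536870912 536870912 0 536870912 1045395039 1503240
    (rowF 0 true true true .npp 1 0 2 (qsf 536870912 536870912 0 536870912 2) ndB0q1 ndB0q0 pcB2 cut_A00pp_102_s3 Ext.none)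

def k0_A00pp_102_s3 : ∃ t, chk3 f_A00pp_102_s3 t 1 1 1 = true :=
  ⟨(a (l 4) (l 5)), by decide +kernel⟩

theorem c_A00pp_102_s3 : CertF 536870912 536870912 0 536870912 1045395039 1503240 true true true .npp 1 0 2
    ndB0q1 ndB0q0 pcB2 cut_A00pp_102_s3 Ext.none :=
  certF0 (fam := true) (s1 := true) (s2 := true) (a := 1) (b := 0) (c := 2) (cn := .npp) (n1 := ndB0q1) (n2 := ndB0q0) (pc := pcB2) (cut := cut_A00pp_102_s3) (xt := Ext.none) (P1 := 536870912) (W1 := 536870912) (P2 := 0) (W2 := 536870912) (P3 := 1045395039) (W3 := 1503240)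
    rfl k0_A00pp_102_s3

theorem s_A00pp_102_s3 {κ x : ℝ} (hκ : κ * h0 = ken x) (hx : ((1045395039 : ℕ) : ℝ) / S ≤ x)
    (hx' : x ≤ (((1045395039 : ℕ) : ℝ) + (1503240 : ℕ)) / S) :
    AltA (VFD κ) PP tK tL pcB [⟨4, 0, 0, 2845415833⟩] 1 0 2 0 0 (sgb true) (sgb true) x :=
  strip_altAD (m := 2845415833) false rfl hκ (SH.κ0 hκ (SH.hx1 hx).le (SH.hx2 hx').le) (SH.hx1 hx).le (SH.hx2 hx') (covB01).cov (covB00).cov hx hx' c_A00pp_102_s3 cutA_nil (noExt_A)

noncomputable def cut_A00pp_112_s1 : Cut := Cut.of [[⟨4, 0, 0, 1449551462⟩]]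

noncomputable def f_A00pp_112_s1 : ℕ → ℕ → ℕ → ℕ → Bool := onCell 536870912 536870912 536870912 536870912 1045395039 1503240
    (rowF 0 true true true .dn 1 1 2 (qsf 536870912 536870912 536870912 536870912 2) ndB0q1 ndB0q1 pcB2 cut_A00pp_112_s1 Ext.none)

def k0_A00pp_112_s1 : ∃ t, chk3 f_A00pp_112_s1 t 1 1 1 = true :=
  ⟨(l 4), by decide +kernel⟩

theorem c_A00pp_112_s1 : CertF 536870912 536870912 536870912 536870912 1045395039 1503240 true true true .dn 1 1 2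
    ndB0q1 ndB0q1 pcB2 cut_A00pp_112_s1 Ext.none :=
  certF0 (fam := true) (s1 := true) (s2 := true) (a := 1) (b := 1) (c := 2) (cn := .dn) (n1 := ndB0q1) (n2 := ndB0q1) (pc := pcB2) (cut := cut_A00pp_112_s1) (xt := Ext.none) (P1 := 536870912) (W1 := 536870912) (P2 := 536870912) (W2 := 536870912) (P3 := 1045395039) (W3 := 1503240)
    rfl k0_A00pp_112_s1

theorem s_A00pp_112_s1 {κ x : ℝ} (hκ : κ * h0 = ken x) (hx : ((1045395039 : ℕ) : ℝ) / S ≤ x)
    (hx' : x ≤ (((1045395039 : ℕ) : ℝ) + (1503240 : ℕ)) / S) :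
    AltA (VFD κ) PP tK tL pcB [⟨3, 0, 0, 1449551462⟩] 1 1 2 0 0 (sgb true) (sgb true) x :=
  strip_altAD (m := 1449551462) true rfl hκ (SH.κ0 hκ (SH.hx1 hx).le (SH.hx2 hx').le) (SH.hx1 hx).le (SH.hx2 hx') (covB01).cov (covB01).cov hx hx' c_A00pp_112_s1 cutA_nil (noExt_A)

noncomputable def cut_A00pp_112_s3 : Cut := Cut.of [[⟨3, 0, 0, 2845415833⟩]]

noncomputable def f_A00pp_112_s3 : ℕ → ℕ → ℕ → ℕ → Bool := onCell 536870912 536870912 536870912 536870912 1045395039 1503240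
    (rowF 0 true true true .dn 1 1 2 (qsf 536870912 536870912 536870912 536870912 2) ndB0q1 ndB0q1 pcB2 cut_A00pp_112_s3 Ext.none)

def k0_A00pp_112_s3 : ∃ t, chk3 f_A00pp_112_s3 t 1 1 1 = true :=
  ⟨(l 4), by decide +kernel⟩

theorem c_A00pp_112_s3 : CertF 536870912 536870912 536870912 536870912 1045395039 1503240 true true true .dn 1 1 2
    ndB0q1 ndB0q1 pcB2 cut_A00pp_112_s3 Ext.none :=
  certF0 (fam := true) (s1 := true) (s2 := true) (a := 1) (b := 1) (c := 2) (cn := .dn) (n1 := ndB0q1) (n2 := ndB0q1) (pc := pcB2) (cut := cut_A00pp_112_s3) (xt := Ext.none) (P1 := 536870912) (W1 := 536870912) (P2 := 536870912) (W2 := 536870912) (P3 := 1045395039) (W3 := 1503240)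
    rfl k0_A00pp_112_s3

theorem s_A00pp_112_s3 {κ x : ℝ} (hκ : κ * h0 = ken x) (hx : ((1045395039 : ℕ) : ℝ) / S ≤ x)
    (hx' : x ≤ (((1045395039 : ℕ) : ℝ) + (1503240 : ℕ)) / S) :
    AltA (VFD κ) PP tK tL pcB [⟨4, 0, 0, 2845415833⟩] 1 1 2 0 0 (sgb true) (sgb true) x :=
  strip_altAD (m := 2845415833) false rfl hκ (SH.κ0 hκ (SH.hx1 hx).le (SH.hx2 hx').le) (SH.hx1 hx).le (SH.hx2 hx') (covB01).cov (covB01).cov hx hx' c_A00pp_112_s3 cutA_nil (noExt_A)

noncomputable def cut_A00pp_113_s1 : Cut := Cut.of [[⟨4, 0, 0, 1449551462⟩]]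

noncomputable def f_A00pp_113_s1 : ℕ → ℕ → ℕ → ℕ → Bool := onCell 536870912 536870912 536870912 536870912 1045395039 1503240
    (rowF 0 true true true .nn 1 1 3 (qsf 536870912 536870912 536870912 536870912 3) ndB0q1 ndB0q1 pcB3 cut_A00pp_113_s1 Ext.none)

def k0_A00pp_113_s1 : ∃ t, chk3 f_A00pp_113_s1 t 1 1 1 = true :=
  ⟨(l 4), by decide +kernel⟩

theorem c_A00pp_113_s1 : CertF 536870912 536870912 536870912 536870912 1045395039 1503240 true true true .nn 1 1 3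
    ndB0q1 ndB0q1 pcB3 cut_A00pp_113_s1 Ext.none :=
  certF0 (fam := true) (s1 := true) (s2 := true) (a := 1) (b := 1) (c := 3) (cn := .nn) (n1 := ndB0q1) (n2 := ndB0q1) (pc := pcB3) (cut := cut_A00pp_113_s1) (xt := Ext.none) (P1 := 536870912) (W1 := 536870912) (P2 := 536870912) (W2 := 536870912) (P3 := 1045395039) (W3 := 1503240)
    rfl k0_A00pp_113_s1

theorem s_A00pp_113_s1 {κ x : ℝ} (hκ : κ * h0 = ken x) (hx : ((1045395039 : ℕ) : ℝ) / S ≤ x)
    (hx' : x ≤ (((1045395039 : ℕ) : ℝ) + (1503240 : ℕ)) / S) :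
    AltA (VFD κ) PP tK tL pcB [⟨3, 0, 0, 1449551462⟩] 1 1 3 0 0 (sgb true) (sgb true) x :=
  strip_altAD (m := 1449551462) true rfl hκ (SH.κ0 hκ (SH.hx1 hx).le (SH.hx2 hx').le) (SH.hx1 hx).le (SH.hx2 hx') (covB01).cov (covB01).cov hx hx' c_A00pp_113_s1 cutA_nil (noExt_A)

noncomputable def cut_A00pp_113_s3 : Cut := Cut.of [[⟨3, 0, 0, 2845415833⟩]]

noncomputable def f_A00pp_113_s3 : ℕ → ℕ → ℕ → ℕ → Bool := onCell 536870912 536870912 536870912 536870912 1045395039 1503240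
    (rowF 0 true true true .nn 1 1 3 (qsf 536870912 536870912 536870912 536870912 3) ndB0q1 ndB0q1 pcB3 cut_A00pp_113_s3 Ext.none)

def k0_A00pp_113_s3 : ∃ t, chk3 f_A00pp_113_s3 t 1 1 1 = true :=
  ⟨(l 4), by decide +kernel⟩

theorem c_A00pp_113_s3 : CertF 536870912 536870912 536870912 536870912 1045395039 1503240 true true true .nn 1 1 3
    ndB0q1 ndB0q1 pcB3 cut_A00pp_113_s3 Ext.none :=
  certF0 (fam := true) (s1 := true) (s2 := true) (a := 1) (b := 1) (c := 3) (cn := .nn) (n1 := ndB0q1) (n2 := ndB0q1) (pc := pcB3) (cut := cut_A00pp_113_s3) (xt := Ext.none) (P1 := 536870912) (W1 := 536870912) (P2 := 536870912) (W2 := 536870912) (P3 := 1045395039) (W3 := 1503240)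
    rfl k0_A00pp_113_s3

theorem s_A00pp_113_s3 {κ x : ℝ} (hκ : κ * h0 = ken x) (hx : ((1045395039 : ℕ) : ℝ) / S ≤ x)
    (hx' : x ≤ (((1045395039 : ℕ) : ℝ) + (1503240 : ℕ)) / S) :
    AltA (VFD κ) PP tK tL pcB [⟨4, 0, 0, 2845415833⟩] 1 1 3 0 0 (sgb true) (sgb true) x :=
  strip_altAD (m := 2845415833) false rfl hκ (SH.κ0 hκ (SH.hx1 hx).le (SH.hx2 hx').le) (SH.hx1 hx).le (SH.hx2 hx') (covB01).cov (covB01).cov hx hx' c_A00pp_113_s3 cutA_nil (noExt_A)

noncomputable def cut_A00pp_123_s1 : Cut := Cut.of [[⟨4, 0, 0, 1449551462⟩]]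

noncomputable def f_A00pp_123_s1 : ℕ → ℕ → ℕ → ℕ → Bool := onCell 536870912 536870912 0 536870912 1045395039 1503240
    (rowF 0 true true true .npn 1 2 3 (qsf 536870912 536870912 0 536870912 3) ndB0q1 ndB0q2 pcB3 cut_A00pp_123_s1 Ext.none)

def k0_A00pp_123_s1 : ∃ t, chk3 f_A00pp_123_s1 t 1 1 1 = true :=
  ⟨(l 6), by decide +kernel⟩

theorem c_A00pp_123_s1 : CertF 536870912 536870912 0 536870912 1045395039 1503240 true true true .npn 1 2 3
    ndB0q1 ndB0q2 pcB3 cut_A00pp_123_s1 Ext.none :=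
  certF0 (fam := true) (s1 := true) (s2 := true) (a := 1) (b := 2) (c := 3) (cn := .npn) (n1 := ndB0q1) (n2 := ndB0q2) (pc := pcB3) (cut := cut_A00pp_123_s1) (xt := Ext.none) (P1 := 536870912) (W1 := 536870912) (P2 := 0) (W2 := 536870912) (P3 := 1045395039) (W3 := 1503240)
    rfl k0_A00pp_123_s1

theorem s_A00pp_123_s1 {κ x : ℝ} (hκ : κ * h0 = ken x) (hx : ((1045395039 : ℕ) : ℝ) / S ≤ x)
    (hx' : x ≤ (((1045395039 : ℕ) : ℝ) + (1503240 : ℕ)) / S) :
    AltA (VFD κ) PP tK tL pcB [⟨3, 0, 0, 1449551462⟩] 1 2 3 0 0 (sgb true) (sgb true) x :=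
  strip_altAD (m := 1449551462) true rfl hκ (SH.κ0 hκ (SH.hx1 hx).le (SH.hx2 hx').le) (SH.hx1 hx).le (SH.hx2 hx') (covB01).cov (covB02).cov hx hx' c_A00pp_123_s1 cutA_nil (noExt_A)

noncomputable def cut_A00pp_123_s3 : Cut := Cut.of [[⟨3, 0, 0, 2845415833⟩]]

noncomputable def xt_A00pp_123_s3 : Ext := strExt dd true true true .u0 .u2 .s2 .npn 1 2 3 rfl rfl gl3 vv ndB0q1 ndB0q2

noncomputable def f_A00pp_123_s3 : ℕ → ℕ → ℕ → ℕ → Bool := onCell 536870912 536870912 0 536870912 1045395039 1503240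
    (rowF 0 true true true .npn 1 2 3 (qsf 536870912 536870912 0 536870912 3) ndB0q1 ndB0q2 pcB3 cut_A00pp_123_s3 xt_A00pp_123_s3)

def k0_A00pp_123_s3 : ∃ t, chk3 f_A00pp_123_s3 t 1 1 1 = true :=
  ⟨(a (b (a (b (a (b (a (l 534006543) (l 533998863)) (a (l 533966095) (l 4))) (b (a (l 534035727) (l 4)) (l 4))) (l 4)) (l 4)) (l 4)) (l 4)), by decide +kernel⟩

theorem c_A00pp_123_s3 : CertF 536870912 536870912 0 536870912 1045395039 1503240 true true true .npn 1 2 3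
    ndB0q1 ndB0q2 pcB3 cut_A00pp_123_s3 xt_A00pp_123_s3 :=
  certF0 (fam := true) (s1 := true) (s2 := true) (a := 1) (b := 2) (c := 3) (cn := .npn) (n1 := ndB0q1) (n2 := ndB0q2) (pc := pcB3) (cut := cut_A00pp_123_s3) (xt := xt_A00pp_123_s3) (P1 := 536870912) (W1 := 536870912) (P2 := 0) (W2 := 536870912) (P3 := 1045395039) (W3 := 1503240)
    rfl k0_A00pp_123_s3

theorem s_A00pp_123_s3 {κ x : ℝ} (hκ : κ * h0 = ken x) (hx : ((1045395039 : ℕ) : ℝ) / S ≤ x)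
    (hx' : x ≤ (((1045395039 : ℕ) : ℝ) + (1503240 : ℕ)) / S) :
    AltA (VFD κ) PP tK tL pcB [⟨4, 0, 0, 2845415833⟩] 1 2 3 0 0 (sgb true) (sgb true) x :=
  strip_altAD (m := 2845415833) false rfl hκ (SH.κ0 hκ (SH.hx1 hx).le (SH.hx2 hx').le) (SH.hx1 hx).le (SH.hx2 hx') (covB01).cov (covB02).cov hx hx' c_A00pp_123_s3 cutA_nil ((okx hx hx').extA (T := tt) (sideB hx hx') hκ rfl rfl (.O 1 true) (.O 2 true) (Or.inr rfl))

noncomputable def cut_A00pp_202_s1 : Cut := Cut.of [[⟨4, 0, 0, 1449551462⟩]]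

noncomputable def f_A00pp_202_s1 : ℕ → ℕ → ℕ → ℕ → Bool := onCell 0 536870912 0 536870912 1045395039 1503240
    (rowF 0 true true true .pp 2 0 2 (qsf 0 536870912 0 536870912 2) ndB0q2 ndB0q0 pcB2 cut_A00pp_202_s1 Ext.none)

def k0_A00pp_202_s1 : ∃ t, chk3 f_A00pp_202_s1 t 1 1 1 = true :=
  ⟨(l 5), by decide +kernel⟩

theorem c_A00pp_202_s1 : CertF 0 536870912 0 536870912 1045395039 1503240 true true true .pp 2 0 2
    ndB0q2 ndB0q0 pcB2 cut_A00pp_202_s1 Ext.none :=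
  certF0 (fam := true) (s1 := true) (s2 := true) (a := 2) (b := 0) (c := 2) (cn := .pp) (n1 := ndB0q2) (n2 := ndB0q0) (pc := pcB2) (cut := cut_A00pp_202_s1) (xt := Ext.none) (P1 := 0) (W1 := 536870912) (P2 := 0) (W2 := 536870912) (P3 := 1045395039) (W3 := 1503240)
    rfl k0_A00pp_202_s1

theorem s_A00pp_202_s1 {κ x : ℝ} (hκ : κ * h0 = ken x) (hx : ((1045395039 : ℕ) : ℝ) / S ≤ x)
    (hx' : x ≤ (((1045395039 : ℕ) : ℝ) + (1503240 : ℕ)) / S) :
    AltA (VFD κ) PP tK tL pcB [⟨3, 0, 0, 1449551462⟩] 2 0 2 0 0 (sgb true) (sgb true) x :=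
  strip_altAD (m := 1449551462) true rfl hκ (SH.κ0 hκ (SH.hx1 hx).le (SH.hx2 hx').le) (SH.hx1 hx).le (SH.hx2 hx') (covB02).cov (covB00).cov hx hx' c_A00pp_202_s1 cutA_nil (noExt_A)

noncomputable def cut_A00pp_202_s3 : Cut := Cut.of [[⟨3, 0, 0, 2845415833⟩]]

noncomputable def f_A00pp_202_s3 : ℕ → ℕ → ℕ → ℕ → Bool := onCell 0 536870912 0 536870912 1045395039 1503240
    (rowF 0 true true true .pp 2 0 2 (qsf 0 536870912 0 536870912 2) ndB0q2 ndB0q0 pcB2 cut_A00pp_202_s3 Ext.none)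

def k0_A00pp_202_s3 : ∃ t, chk3 f_A00pp_202_s3 t 1 1 1 = true :=
  ⟨(l 5), by decide +kernel⟩

theorem c_A00pp_202_s3 : CertF 0 536870912 0 536870912 1045395039 1503240 true true true .pp 2 0 2
    ndB0q2 ndB0q0 pcB2 cut_A00pp_202_s3 Ext.none :=
  certF0 (fam := true) (s1 := true) (s2 := true) (a := 2) (b := 0) (c := 2) (cn := .pp) (n1 := ndB0q2) (n2 := ndB0q0) (pc := pcB2) (cut := cut_A00pp_202_s3) (xt := Ext.none) (P1 := 0) (W1 := 536870912) (P2 := 0) (W2 := 536870912) (P3 := 1045395039) (W3 := 1503240)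
    rfl k0_A00pp_202_s3

theorem s_A00pp_202_s3 {κ x : ℝ} (hκ : κ * h0 = ken x) (hx : ((1045395039 : ℕ) : ℝ) / S ≤ x)
    (hx' : x ≤ (((1045395039 : ℕ) : ℝ) + (1503240 : ℕ)) / S) :
    AltA (VFD κ) PP tK tL pcB [⟨4, 0, 0, 2845415833⟩] 2 0 2 0 0 (sgb true) (sgb true) x :=
  strip_altAD (m := 2845415833) false rfl hκ (SH.κ0 hκ (SH.hx1 hx).le (SH.hx2 hx').le) (SH.hx1 hx).le (SH.hx2 hx') (covB02).cov (covB00).cov hx hx' c_A00pp_202_s3 cutA_nil (noExt_A)

noncomputable def cut_A00pp_203_s1 : Cut := Cut.of [[⟨4, 0, 0, 1449551462⟩]]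

noncomputable def f_A00pp_203_s1 : ℕ → ℕ → ℕ → ℕ → Bool := onCell 0 536870912 0 536870912 1045395039 1503240
    (rowF 0 true true true .up 2 0 3 (qsf 0 536870912 0 536870912 3) ndB0q2 ndB0q0 pcB3 cut_A00pp_203_s1 Ext.none)

def k0_A00pp_203_s1 : ∃ t, chk3 f_A00pp_203_s1 t 1 1 1 = true :=
  ⟨(l 5), by decide +kernel⟩

theorem c_A00pp_203_s1 : CertF 0 536870912 0 536870912 1045395039 1503240 true true true .up 2 0 3
    ndB0q2 ndB0q0 pcB3 cut_A00pp_203_s1 Ext.none :=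
  certF0 (fam := true) (s1 := true) (s2 := true) (a := 2) (b := 0) (c := 3) (cn := .up) (n1 := ndB0q2) (n2 := ndB0q0) (pc := pcB3) (cut := cut_A00pp_203_s1) (xt := Ext.none) (P1 := 0) (W1 := 536870912) (P2 := 0) (W2 := 536870912) (P3 := 1045395039) (W3 := 1503240)
    rfl k0_A00pp_203_s1

theorem s_A00pp_203_s1 {κ x : ℝ} (hκ : κ * h0 = ken x) (hx : ((1045395039 : ℕ) : ℝ) / S ≤ x)
    (hx' : x ≤ (((1045395039 : ℕ) : ℝ) + (1503240 : ℕ)) / S) :
    AltA (VFD κ) PP tK tL pcB [⟨3, 0, 0, 1449551462⟩] 2 0 3 0 0 (sgb true) (sgb true) x :=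
  strip_altAD (m := 1449551462) true rfl hκ (SH.κ0 hκ (SH.hx1 hx).le (SH.hx2 hx').le) (SH.hx1 hx).le (SH.hx2 hx') (covB02).cov (covB00).cov hx hx' c_A00pp_203_s1 cutA_nil (noExt_A)

noncomputable def cut_A00pp_203_s3 : Cut := Cut.of [[⟨3, 0, 0, 2845415833⟩]]

noncomputable def f_A00pp_203_s3 : ℕ → ℕ → ℕ → ℕ → Bool := onCell 0 536870912 0 536870912 1045395039 1503240
    (rowF 0 true true true .up 2 0 3 (qsf 0 536870912 0 536870912 3) ndB0q2 ndB0q0 pcB3 cut_A00pp_203_s3 Ext.none)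

def k0_A00pp_203_s3 : ∃ t, chk3 f_A00pp_203_s3 t 1 1 1 = true :=
  ⟨(l 5), by decide +kernel⟩

theorem c_A00pp_203_s3 : CertF 0 536870912 0 536870912 1045395039 1503240 true true true .up 2 0 3
    ndB0q2 ndB0q0 pcB3 cut_A00pp_203_s3 Ext.none :=
  certF0 (fam := true) (s1 := true) (s2 := true) (a := 2) (b := 0) (c := 3) (cn := .up) (n1 := ndB0q2) (n2 := ndB0q0) (pc := pcB3) (cut := cut_A00pp_203_s3) (xt := Ext.none) (P1 := 0) (W1 := 536870912) (P2 := 0) (W2 := 536870912) (P3 := 1045395039) (W3 := 1503240)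
    rfl k0_A00pp_203_s3

theorem s_A00pp_203_s3 {κ x : ℝ} (hκ : κ * h0 = ken x) (hx : ((1045395039 : ℕ) : ℝ) / S ≤ x)
    (hx' : x ≤ (((1045395039 : ℕ) : ℝ) + (1503240 : ℕ)) / S) :
    AltA (VFD κ) PP tK tL pcB [⟨4, 0, 0, 2845415833⟩] 2 0 3 0 0 (sgb true) (sgb true) x :=
  strip_altAD (m := 2845415833) false rfl hκ (SH.κ0 hκ (SH.hx1 hx).le (SH.hx2 hx').le) (SH.hx1 hx).le (SH.hx2 hx') (covB02).cov (covB00).cov hx hx' c_A00pp_203_s3 cutA_nil (noExt_A)

noncomputable def cut_A00pp_213_s1 : Cut := Cut.of [[⟨4, 0, 0, 1449551462⟩]]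

noncomputable def f_A00pp_213_s1 : ℕ → ℕ → ℕ → ℕ → Bool := onCell 0 536870912 536870912 536870912 1045395039 1503240
    (rowF 0 true true true .pnn 2 1 3 (qsf 0 536870912 536870912 536870912 3) ndB0q2 ndB0q1 pcB3 cut_A00pp_213_s1 Ext.none)

def k0_A00pp_213_s1 : ∃ t, chk3 f_A00pp_213_s1 t 1 1 1 = true :=
  ⟨(l 6), by decide +kernel⟩

theorem c_A00pp_213_s1 : CertF 0 536870912 536870912 536870912 1045395039 1503240 true true true .pnn 2 1 3
    ndB0q2 ndB0q1 pcB3 cut_A00pp_213_s1 Ext.none :=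
  certF0 (fam := true) (s1 := true) (s2 := true) (a := 2) (b := 1) (c := 3) (cn := .pnn) (n1 := ndB0q2) (n2 := ndB0q1) (pc := pcB3) (cut := cut_A00pp_213_s1) (xt := Ext.none) (P1 := 0) (W1 := 536870912) (P2 := 536870912) (W2 := 536870912) (P3 := 1045395039) (W3 := 1503240)
    rfl k0_A00pp_213_s1

theorem s_A00pp_213_s1 {κ x : ℝ} (hκ : κ * h0 = ken x) (hx : ((1045395039 : ℕ) : ℝ) / S ≤ x)
    (hx' : x ≤ (((1045395039 : ℕ) : ℝ) + (1503240 : ℕ)) / S) :
    AltA (VFD κ) PP tK tL pcB [⟨3, 0, 0, 1449551462⟩] 2 1 3 0 0 (sgb true) (sgb true) x :=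
  strip_altAD (m := 1449551462) true rfl hκ (SH.κ0 hκ (SH.hx1 hx).le (SH.hx2 hx').le) (SH.hx1 hx).le (SH.hx2 hx') (covB02).cov (covB01).cov hx hx' c_A00pp_213_s1 cutA_nil (noExt_A)

noncomputable def cut_A00pp_213_s3 : Cut := Cut.of [[⟨3, 0, 0, 2845415833⟩]]

noncomputable def f_A00pp_213_s3 : ℕ → ℕ → ℕ → ℕ → Bool := onCell 0 536870912 536870912 536870912 1045395039 1503240
    (rowF 0 true true true .pnn 2 1 3 (qsf 0 536870912 536870912 536870912 3) ndB0q2 ndB0q1 pcB3 cut_A00pp_213_s3 Ext.none)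

def k0_A00pp_213_s3 : ∃ t, chk3 f_A00pp_213_s3 t 1 1 1 = true :=
  ⟨(a (l 5) (l 4)), by decide +kernel⟩

theorem c_A00pp_213_s3 : CertF 0 536870912 536870912 536870912 1045395039 1503240 true true true .pnn 2 1 3
    ndB0q2 ndB0q1 pcB3 cut_A00pp_213_s3 Ext.none :=
  certF0 (fam := true) (s1 := true) (s2 := true) (a := 2) (b := 1) (c := 3) (cn := .pnn) (n1 := ndB0q2) (n2 := ndB0q1) (pc := pcB3) (cut := cut_A00pp_213_s3) (xt := Ext.none) (P1 := 0) (W1 := 536870912) (P2 := 536870912) (W2 := 536870912) (P3 := 1045395039) (W3 := 1503240)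
    rfl k0_A00pp_213_s3

theorem s_A00pp_213_s3 {κ x : ℝ} (hκ : κ * h0 = ken x) (hx : ((1045395039 : ℕ) : ℝ) / S ≤ x)
    (hx' : x ≤ (((1045395039 : ℕ) : ℝ) + (1503240 : ℕ)) / S) :
    AltA (VFD κ) PP tK tL pcB [⟨4, 0, 0, 2845415833⟩] 2 1 3 0 0 (sgb true) (sgb true) x :=
  strip_altAD (m := 2845415833) false rfl hκ (SH.κ0 hκ (SH.hx1 hx).le (SH.hx2 hx').le) (SH.hx1 hx).le (SH.hx2 hx') (covB02).cov (covB01).cov hx hx' c_A00pp_213_s3 cutA_nil (noExt_A)

noncomputable def cut_A00pm_001_s1 : Cut := Cut.of [[⟨4, 0, 0, 1449551462⟩]]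

noncomputable def f_A00pm_001_s1 : ℕ → ℕ → ℕ → ℕ → Bool := onCell 0 536870912 0 536870912 1045395039 1503240
    (rowF 0 true true false .up 0 0 1 (qsf 0 536870912 0 536870912 1) ndB0q0 ndB0q0 pcB1 cut_A00pm_001_s1 Ext.none)

def k0_A00pm_001_s1 : ∃ t, chk3 f_A00pm_001_s1 t 1 1 1 = true :=
  ⟨(l 3), by decide +kernel⟩

theorem c_A00pm_001_s1 : CertF 0 536870912 0 536870912 1045395039 1503240 true true false .up 0 0 1
    ndB0q0 ndB0q0 pcB1 cut_A00pm_001_s1 Ext.none :=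
  certF0 (fam := true) (s1 := true) (s2 := false) (a := 0) (b := 0) (c := 1) (cn := .up) (n1 := ndB0q0) (n2 := ndB0q0) (pc := pcB1) (cut := cut_A00pm_001_s1) (xt := Ext.none) (P1 := 0) (W1 := 536870912) (P2 := 0) (W2 := 536870912) (P3 := 1045395039) (W3 := 1503240)
    rfl k0_A00pm_001_s1

theorem s_A00pm_001_s1 {κ x : ℝ} (hκ : κ * h0 = ken x) (hx : ((1045395039 : ℕ) : ℝ) / S ≤ x)
    (hx' : x ≤ (((1045395039 : ℕ) : ℝ) + (1503240 : ℕ)) / S) :
    AltA (VFD κ) PP tK tL pcB [⟨3, 0, 0, 1449551462⟩] 0 0 1 0 0 (sgb true) (sgb false) x :=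
  strip_altAD (m := 1449551462) true rfl hκ (SH.κ0 hκ (SH.hx1 hx).le (SH.hx2 hx').le) (SH.hx1 hx).le (SH.hx2 hx') (covB00).cov (covB00).cov hx hx' c_A00pm_001_s1 cutA_nil (noExt_A)

noncomputable def cut_A00pm_001_s3 : Cut := Cut.of [[⟨3, 0, 0, 2845415833⟩]]

noncomputable def f_A00pm_001_s3 : ℕ → ℕ → ℕ → ℕ → Bool := onCell 0 536870912 0 536870912 1045395039 1503240
    (rowF 0 true true false .up 0 0 1 (qsf 0 536870912 0 536870912 1) ndB0q0 ndB0q0 pcB1 cut_A00pm_001_s3 Ext.none)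

def k0_A00pm_001_s3 : ∃ t, chk3 f_A00pm_001_s3 t 1 1 1 = true :=
  ⟨(l 3), by decide +kernel⟩

theorem c_A00pm_001_s3 : CertF 0 536870912 0 536870912 1045395039 1503240 true true false .up 0 0 1
    ndB0q0 ndB0q0 pcB1 cut_A00pm_001_s3 Ext.none :=
  certF0 (fam := true) (s1 := true) (s2 := false) (a := 0) (b := 0) (c := 1) (cn := .up) (n1 := ndB0q0) (n2 := ndB0q0) (pc := pcB1) (cut := cut_A00pm_001_s3) (xt := Ext.none) (P1 := 0) (W1 := 536870912) (P2 := 0) (W2 := 536870912) (P3 := 1045395039) (W3 := 1503240)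
    rfl k0_A00pm_001_s3

theorem s_A00pm_001_s3 {κ x : ℝ} (hκ : κ * h0 = ken x) (hx : ((1045395039 : ℕ) : ℝ) / S ≤ x)
    (hx' : x ≤ (((1045395039 : ℕ) : ℝ) + (1503240 : ℕ)) / S) :
    AltA (VFD κ) PP tK tL pcB [⟨4, 0, 0, 2845415833⟩] 0 0 1 0 0 (sgb true) (sgb false) x :=
  strip_altAD (m := 2845415833) false rfl hκ (SH.κ0 hκ (SH.hx1 hx).le (SH.hx2 hx').le) (SH.hx1 hx).le (SH.hx2 hx') (covB00).cov (covB00).cov hx hx' c_A00pm_001_s3 cutA_nil (noExt_A)

noncomputable def cut_A00pm_011_s1 : Cut := Cut.of [[⟨4, 0, 0, 1449551462⟩], [⟨0, 0, 0, 26843545⟩, ⟨1, 1, 0, 26843545⟩, ⟨2, 1, 0, 26843545⟩]]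

noncomputable def f_A00pm_011_s1 : ℕ → ℕ → ℕ → ℕ → Bool := onCell 536870912 536870912 536870912 536870912 1045395039 1503240
    (rowF 2 true true false .pnn 0 1 1 (qsf 0 536870912 536870912 536870912 1) ndB0q0 ndB0q1 pcB1 cut_A00pm_011_s1 Ext.none)

def k0_A00pm_011_s1 : ∃ t, chk3 f_A00pm_011_s1 t 1 1 1 = true :=
  ⟨(a (l 3) (b (l 3) (a (l 3) (b (l 3) (a (l 3) (b (l 3) (a (l 3) (b (l 3) (a (l 3) (b (l 3) (l 14))))))))))), by decide +kernel⟩

theorem c_A00pm_011_s1 : CertF 0 536870912 536870912 536870912 1045395039 1503240 true true false .pnn 0 1 1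
    ndB0q0 ndB0q1 pcB1 cut_A00pm_011_s1 Ext.none :=
  certF2 (fam := true) (s1 := true) (s2 := false) (a := 0) (b := 1) (c := 1) (cn := .pnn) (n1 := ndB0q0) (n2 := ndB0q1) (pc := pcB1) (cut := cut_A00pm_011_s1) (xt := Ext.none) (P1 := 0) (W1 := 536870912) (P2 := 536870912) (W2 := 536870912) (P3 := 1045395039) (W3 := 1503240)
    rfl (fun _ => rfl) k0_A00pm_011_s1

theorem s_A00pm_011_s1 {κ x : ℝ} (hκ : κ * h0 = ken x) (hx : ((1045395039 : ℕ) : ℝ) / S ≤ x)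
    (hx' : x ≤ (((1045395039 : ℕ) : ℝ) + (1503240 : ℕ)) / S)
    (H : CutA (VFD κ) PP tK tL pcB (Cut.of [[⟨0, 0, 0, 26843545⟩, ⟨1, 1, 0, 26843545⟩, ⟨2, 1, 0, 26843545⟩]]) 0 1 1 0 0 (sgb true) (sgb false) x) :
    AltA (VFD κ) PP tK tL pcB [⟨3, 0, 0, 1449551462⟩] 0 1 1 0 0 (sgb true) (sgb false) x :=
  strip_altAD (m := 1449551462) true rfl hκ (SH.κ0 hκ (SH.hx1 hx).le (SH.hx2 hx').le) (SH.hx1 hx).le (SH.hx2 hx') (covB00).cov (covB01).cov hx hx' c_A00pm_011_s1 H (noExt_A)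

noncomputable def cut_A00pm_011_s3 : Cut := Cut.of [[⟨3, 0, 0, 2845415833⟩], [⟨0, 0, 0, 26843545⟩, ⟨1, 1, 0, 26843545⟩, ⟨2, 1, 0, 26843545⟩]]

noncomputable def f_A00pm_011_s3 : ℕ → ℕ → ℕ → ℕ → Bool := onCell 0 536870912 536870912 536870912 1045395039 1503240
    (rowF 0 true true false .pnn 0 1 1 (qsf 0 536870912 536870912 536870912 1) ndB0q0 ndB0q1 pcB1 cut_A00pm_011_s3 Ext.none)

def k0_A00pm_011_s3 : ∃ t, chk3 f_A00pm_011_s3 t 1 1 1 = true :=
  ⟨(l 6), by decide +kernel⟩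

theorem c_A00pm_011_s3 : CertF 0 536870912 536870912 536870912 1045395039 1503240 true true false .pnn 0 1 1
    ndB0q0 ndB0q1 pcB1 cut_A00pm_011_s3 Ext.none :=
  certF0 (fam := true) (s1 := true) (s2 := false) (a := 0) (b := 1) (c := 1) (cn := .pnn) (n1 := ndB0q0) (n2 := ndB0q1) (pc := pcB1) (cut := cut_A00pm_011_s3) (xt := Ext.none) (P1 := 0) (W1 := 536870912) (P2 := 536870912) (W2 := 536870912) (P3 := 1045395039) (W3 := 1503240)
    rfl k0_A00pm_011_s3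

theorem s_A00pm_011_s3 {κ x : ℝ} (hκ : κ * h0 = ken x) (hx : ((1045395039 : ℕ) : ℝ) / S ≤ x)
    (hx' : x ≤ (((1045395039 : ℕ) : ℝ) + (1503240 : ℕ)) / S)
    (H : CutA (VFD κ) PP tK tL pcB (Cut.of [[⟨0, 0, 0, 26843545⟩, ⟨1, 1, 0, 26843545⟩, ⟨2, 1, 0, 26843545⟩]]) 0 1 1 0 0 (sgb true) (sgb false) x) :
    AltA (VFD κ) PP tK tL pcB [⟨4, 0, 0, 2845415833⟩] 0 1 1 0 0 (sgb true) (sgb false) x :=
  strip_altAD (m := 2845415833) false rfl hκ (SH.κ0 hκ (SH.hx1 hx).le (SH.hx2 hx').le) (SH.hx1 hx).le (SH.hx2 hx') (covB00).cov (covB01).cov hx hx' c_A00pm_011_s3 H (noExt_A)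

noncomputable def cut_A00pm_012_s3 : Cut := Cut.of [[⟨3, 0, 0, 2845415833⟩], [⟨0, 0, 0, 13421772⟩, ⟨1, 1, 0, 13421772⟩, ⟨2, 1, 0, 13421772⟩]]

noncomputable def f_A00pm_012_s3 : ℕ → ℕ → ℕ → ℕ → Bool := onCell 0 536870912 536870912 536870912 1045395039 1503240
    (rowF 0 true true false .pnp 0 1 2 (qsf 0 536870912 536870912 536870912 2) ndB0q0 ndB0q1 pcB2 cut_A00pm_012_s3 Ext.none)

def k0_A00pm_012_s3 : ∃ t, chk3 f_A00pm_012_s3 t 1 1 1 = true :=
  ⟨(l 6), by decide +kernel⟩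

theorem c_A00pm_012_s3 : CertF 0 536870912 536870912 536870912 1045395039 1503240 true true false .pnp 0 1 2
    ndB0q0 ndB0q1 pcB2 cut_A00pm_012_s3 Ext.none :=
  certF0 (fam := true) (s1 := true) (s2 := false) (a := 0) (b := 1) (c := 2) (cn := .pnp) (n1 := ndB0q0) (n2 := ndB0q1) (pc := pcB2) (cut := cut_A00pm_012_s3) (xt := Ext.none) (P1 := 0) (W1 := 536870912) (P2 := 536870912) (W2 := 536870912) (P3 := 1045395039) (W3 := 1503240)
    rfl k0_A00pm_012_s3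

theorem s_A00pm_012_s3 {κ x : ℝ} (hκ : κ * h0 = ken x) (hx : ((1045395039 : ℕ) : ℝ) / S ≤ x)
    (hx' : x ≤ (((1045395039 : ℕ) : ℝ) + (1503240 : ℕ)) / S)
    (H : CutA (VFD κ) PP tK tL pcB (Cut.of [[⟨0, 0, 0, 13421772⟩, ⟨1, 1, 0, 13421772⟩, ⟨2, 1, 0, 13421772⟩]]) 0 1 2 0 0 (sgb true) (sgb false) x) :
    AltA (VFD κ) PP tK tL pcB [⟨4, 0, 0, 2845415833⟩] 0 1 2 0 0 (sgb true) (sgb false) x :=
  strip_altAD (m := 2845415833) false rfl hκ (SH.κ0 hκ (SH.hx1 hx).le (SH.hx2 hx').le) (SH.hx1 hx).le (SH.hx2 hx') (covB00).cov (covB01).cov hx hx' c_A00pm_012_s3 H (noExt_A)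

noncomputable def cut_A00pm_022_s1 : Cut := Cut.of [[⟨4, 0, 0, 1449551462⟩], [⟨0, 0, 0, 22369621⟩, ⟨1, 1, 0, 22369621⟩, ⟨2, 1, 0, 22369621⟩]]

noncomputable def f_A00pm_022_s1 : ℕ → ℕ → ℕ → ℕ → Bool := onCell 1073741824 536870912 0 536870912 1045395039 1503240
    (rowF 2 true true false .pp 0 2 2 (qsf 0 536870912 0 536870912 2) ndB0q0 ndB0q2 pcB2 cut_A00pm_022_s1 Ext.none)

def k0_A00pm_022_s1 : ∃ t, chk3 f_A00pm_022_s1 t 4 2 1 = true :=
  ⟨(a (l 1) (l 6)), by decide +kernel⟩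

def k1_A00pm_022_s1 : ∃ t, chk3 f_A00pm_022_s1 t 8 3 1 = true :=
  ⟨(b (l 1) (b (a (l 1) (b (a (l 1) (l 16507696)) (a (b (l 1) (l 16555048)) (b (l 16522112) (b (l 16618088) (l 16545440)))))) (a (b (a (l 1) (b (a (l 1) (l 16533464)) (b (a (l 1) (l 16553016)) (a (b (l 16539976) (a (l 1) (l 16559488))) (b (l 16565008) (l 16556928)))))) (a (l 14) (a (a (l 14) (b (b (l 16590424) (b (l 16623424) (l 16647632))) (b (l 16643360) (b (l 16722152) (l 16662584))))) (b (b (a (l 16601120) (l 16613088)) (b (l 16638168) (l 16661176))) (b (a (l 16608808) (l 16618048)) (a (b (l 16644496) (l 16663792)) (l 16711840))))))) (b (a (b (b (l 16569976) (l 16582384)) (b (a (l 16581440) (l 16613704)) (a (b (l 16593936) (l 16606184)) (b (l 16626992) (l 16554744))))) (b (a (l 16544256) (l 16580536)) (b (a (l 16649432) (l 16682824)) (a (b (l 16660312) (l 16586760)) (b (l 16691160) (l 16697064)))))) (a (b (a (b (a (l 16626272) (l 16640904))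 (b (l 16579024) (l 16600424))) (b (a (l 16655992) (l 16670592)) (b (l 16605104) (l 16623024)))) (a (b (a (l 16627792) (l 16637200)) (a (l 16644936) (l 16631552))) (b (a (l 16644104) (l 16629136)) (l 16612456)))) (b (b (a (l 16648688) (l 16612304)) (a (l 16629048) (l 16595256))) (b (a (l 16606080) (l 16659224)) (a (l 16669240) (l 16641616))))))))), by decide +kernel⟩

def k2_A00pm_022_s1 : ∃ t, chk3 f_A00pm_022_s1 t 9 3 1 = true :=
  ⟨(b (b (a (l 1) (l 6)) (a (b (a (l 1) (l 16474192)) (a (b (l 16581392) (l 16580688)) (b (l 16490144) (l 16392816)))) (b (a (l 16289128) (l 6)) (a (b (l 16304936) (l 16284672)) (b (l 16285928) (l 16267832)))))) (b (a (b (a (b (l 16604520) (l 16536336)) (b (l 16415256) (l 16434064))) (a (b (a (l 16656800) (l 16606544)) (b (l 16553736) (l 16557680))) (b (l 16447264) (l 16549760)))) (b (a (b (l 16392584) (a (l 16440984) (l 16398280))) (l 16317168)) (b (l 16320672) (l 16347496))))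 (b (a (a (b (a (l 16581720) (l 16624624)) (b (l 16565872) (b (l 16567104) (l 16566664)))) (b (l 16565664) (b (l 16575552) (a (l 16514400) (l 16564416))))) (b (a (l 16491768) (l 16422152)) (a (b (l 16506504) (a (l 16531400) (l 16499056))) (b (l 16440464) (a (l 16467184) (l 16435624)))))) (a (b (a (b (l 16601368) (b (l 16550144) (l 16542232))) (b (l 16534576) (a (l 16582128) (l 16550800)))) (a (b (a (l 16628744) (l 16598496)) (a (l 16613600) (l 16585240))) (a (b (l 16568248) (l 16556352)) (b (l 16537920) (l 16526968))))) (b (a (b (l 16471168) (a (l 16519712) (l 16488744))) (b (l 16451248) (a (l 16457760) (l 16426600)))) (a (a (l 16459920) (l 16471232)) (a (l 16439800) (l 16408144)))))))), by decide +kernel⟩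

def k3_A00pm_022_s1 : ∃ t, chk3 f_A00pm_022_s1 t 5 1 1 = true :=
  ⟨(b (l 6) (b (a (a (b (l 6) (b (l 6) (b (l 6) (a (l 16178280) (l 6))))) (l 6)) (l 6)) (b (a (a (b (a (l 16232368) (l 16152080)) (b (l 16250808) (l 16202576))) (b (a (l 6) (l 6)) (a (l 16162608) (l 16094208)))) (l 6)) (a (b (a (a (b (l 16354656) (a (l 16398712) (l 16366784))) (b (l 16288008) (l 16319328))) (a (l 16240944) (l 16180344))) (a (a (b (b (a (l 16404928) (l 16373696)) (l 16379288)) (a (l 16376016) (l 16343352))) (a (b (b (l 16342896) (l 16332056)) (l 16310456)) (a (b (l 16313008) (l 16285064)) (b (a (l 16301080) (b (a (l 16261952) (l 16299664)) (l 16287800))) (a (l 16271136) (l 16261632)))))) (b (a (l 16261664) (l 16207872)) (l 16205536)))) (b (a (l 16094720) (l 6)) (b (a (l 16131744) (l 6)) (l 16064728))))))), by decide +kernel⟩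

def k4_A00pm_022_s1 : ∃ t, chk3 f_A00pm_022_s1 t 3 1 1 = true :=
  ⟨(b (l 6) (l 6)), by decide +kernel⟩

theorem t5_A00pm_022_s1 : ∃ t, chk3 f_A00pm_022_s1 t 4 3 1 = true := ex3_a k1_A00pm_022_s1 k2_A00pm_022_s1

theorem t6_A00pm_022_s1 : ∃ t, chk3 f_A00pm_022_s1 t 4 1 1 = true := ex3_b k0_A00pm_022_s1 t5_A00pm_022_s1

theorem t7_A00pm_022_s1 : ∃ t, chk3 f_A00pm_022_s1 t 2 1 1 = true := ex3_a t6_A00pm_022_s1 k3_A00pm_022_s1

theorem t8_A00pm_022_s1 : ∃ t, chk3 f_A00pm_022_s1 t 1 1 1 = true := ex3_a t7_A00pm_022_s1 k4_A00pm_022_s1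

theorem c_A00pm_022_s1 : CertF 0 536870912 0 536870912 1045395039 1503240 true true false .pp 0 2 2
    ndB0q0 ndB0q2 pcB2 cut_A00pm_022_s1 Ext.none :=
  certF2 (fam := true) (s1 := true) (s2 := false) (a := 0) (b := 2) (c := 2) (cn := .pp) (n1 := ndB0q0) (n2 := ndB0q2) (pc := pcB2) (cut := cut_A00pm_022_s1) (xt := Ext.none) (P1 := 0) (W1 := 536870912) (P2 := 0) (W2 := 536870912) (P3 := 1045395039) (W3 := 1503240)
    rfl (fun _ => rfl) t8_A00pm_022_s1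

theorem s_A00pm_022_s1 {κ x : ℝ} (hκ : κ * h0 = ken x) (hx : ((1045395039 : ℕ) : ℝ) / S ≤ x)
    (hx' : x ≤ (((1045395039 : ℕ) : ℝ) + (1503240 : ℕ)) / S)
    (H : CutA (VFD κ) PP tK tL pcB (Cut.of [[⟨0, 0, 0, 22369621⟩, ⟨1, 1, 0, 22369621⟩, ⟨2, 1, 0, 22369621⟩]]) 0 2 2 0 0 (sgb true) (sgb false) x) :
    AltA (VFD κ) PP tK tL pcB [⟨3, 0, 0, 1449551462⟩] 0 2 2 0 0 (sgb true) (sgb false) x :=
  strip_altAD (m := 1449551462) true rfl hκ (SH.κ0 hκ (SH.hx1 hx).le (SH.hx2 hx').le) (SH.hx1 hx).le (SH.hx2 hx') (covB00).cov (covB02).cov hx hx' c_A00pm_022_s1 H (noExt_A)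

noncomputable def cut_A00pm_022_s3 : Cut := Cut.of [[⟨3, 0, 0, 2845415833⟩], [⟨0, 0, 0, 22369621⟩, ⟨1, 1, 0, 22369621⟩, ⟨2, 1, 0, 22369621⟩]]

noncomputable def f_A00pm_022_s3 : ℕ → ℕ → ℕ → ℕ → Bool := onCell 1073741824 536870912 0 536870912 1045395039 1503240
    (rowF 2 true true false .pp 0 2 2 (qsf 0 536870912 0 536870912 2) ndB0q0 ndB0q2 pcB2 cut_A00pm_022_s3 Ext.none)

def k0_A00pm_022_s3 : ∃ t, chk3 f_A00pm_022_s3 t 1 1 1 = true :=
  ⟨(a (l 6) (b (l 6) (l 6))), by decide +kernel⟩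

theorem c_A00pm_022_s3 : CertF 0 536870912 0 536870912 1045395039 1503240 true true false .pp 0 2 2
    ndB0q0 ndB0q2 pcB2 cut_A00pm_022_s3 Ext.none :=
  certF2 (fam := true) (s1 := true) (s2 := false) (a := 0) (b := 2) (c := 2) (cn := .pp) (n1 := ndB0q0) (n2 := ndB0q2) (pc := pcB2) (cut := cut_A00pm_022_s3) (xt := Ext.none) (P1 := 0) (W1 := 536870912) (P2 := 0) (W2 := 536870912) (P3 := 1045395039) (W3 := 1503240)
    rfl (fun _ => rfl) k0_A00pm_022_s3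

theorem s_A00pm_022_s3 {κ x : ℝ} (hκ : κ * h0 = ken x) (hx : ((1045395039 : ℕ) : ℝ) / S ≤ x)
    (hx' : x ≤ (((1045395039 : ℕ) : ℝ) + (1503240 : ℕ)) / S)
    (H : CutA (VFD κ) PP tK tL pcB (Cut.of [[⟨0, 0, 0, 22369621⟩, ⟨1, 1, 0, 22369621⟩, ⟨2, 1, 0, 22369621⟩]]) 0 2 2 0 0 (sgb true) (sgb false) x) :
    AltA (VFD κ) PP tK tL pcB [⟨4, 0, 0, 2845415833⟩] 0 2 2 0 0 (sgb true) (sgb false) x :=
  strip_altAD (m := 2845415833) false rfl hκ (SH.κ0 hκ (SH.hx1 hx).le (SH.hx2 hx').le) (SH.hx1 hx).le (SH.hx2 hx') (covB00).cov (covB02).cov hx hx' c_A00pm_022_s3 H (noExt_A)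

noncomputable def cut_A00pm_023_s1 : Cut := Cut.of [[⟨4, 0, 0, 1449551462⟩]]

noncomputable def f_A00pm_023_s1 : ℕ → ℕ → ℕ → ℕ → Bool := onCell 1610612736 536870912 0 536870912 1045395039 1503240
    (rowF 2 true true false .up 0 2 3 (qsf 0 536870912 0 536870912 3) ndB0q0 ndB0q2 pcB3 cut_A00pm_023_s1 Ext.none)

def k0_A00pm_023_s1 : ∃ t, chk3 f_A00pm_023_s1 t 1 1 1 = true :=
  ⟨(l 6), by decide +kernel⟩

theorem c_A00pm_023_s1 : CertF 0 536870912 0 536870912 1045395039 1503240 true true false .up 0 2 3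
    ndB0q0 ndB0q2 pcB3 cut_A00pm_023_s1 Ext.none :=
  certF2 (fam := true) (s1 := true) (s2 := false) (a := 0) (b := 2) (c := 3) (cn := .up) (n1 := ndB0q0) (n2 := ndB0q2) (pc := pcB3) (cut := cut_A00pm_023_s1) (xt := Ext.none) (P1 := 0) (W1 := 536870912) (P2 := 0) (W2 := 536870912) (P3 := 1045395039) (W3 := 1503240)
    rfl (fun _ => rfl) k0_A00pm_023_s1

theorem s_A00pm_023_s1 {κ x : ℝ} (hκ : κ * h0 = ken x) (hx : ((1045395039 : ℕ) : ℝ) / S ≤ x)
    (hx' : x ≤ (((1045395039 : ℕ) : ℝ) + (1503240 : ℕ)) / S) :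
    AltA (VFD κ) PP tK tL pcB [⟨3, 0, 0, 1449551462⟩] 0 2 3 0 0 (sgb true) (sgb false) x :=
  strip_altAD (m := 1449551462) true rfl hκ (SH.κ0 hκ (SH.hx1 hx).le (SH.hx2 hx').le) (SH.hx1 hx).le (SH.hx2 hx') (covB00).cov (covB02).cov hx hx' c_A00pm_023_s1 cutA_nil (noExt_A)

noncomputable def cut_A00pm_023_s3 : Cut := Cut.of [[⟨3, 0, 0, 2845415833⟩]]

noncomputable def xt_A00pm_023_s3 : Ext := strExt dd true true false .u0 .u2 .s2 .up 0 2 3 rfl rfl gl3 vv ndB0q0 ndB0q2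

noncomputable def f_A00pm_023_s3 : ℕ → ℕ → ℕ → ℕ → Bool := onCell 0 536870912 0 536870912 1045395039 1503240
    (rowF 0 true true false .up 0 2 3 (qsf 0 536870912 0 536870912 3) ndB0q0 ndB0q2 pcB3 cut_A00pm_023_s3 xt_A00pm_023_s3)

def k0_A00pm_023_s3 : ∃ t, chk3 f_A00pm_023_s3 t 1 1 1 = true :=
  ⟨(a (l 1) (b (a (b (a (l 1) (b (a (l 1) (l 16607864)) (l 6))) (l 6)) (b (a (b (a (l 16647136) (l 16646888)) (l 6)) (b (a (l 16657136) (l 534063887)) (a (b (l 16616368) (l 6)) (b (l 16631928) (a (l 16592640) (l 16602784)))))) (a (l 6) (l 6)))) (l 6))), by decide +kernel⟩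

theorem c_A00pm_023_s3 : CertF 0 536870912 0 536870912 1045395039 1503240 true true false .up 0 2 3
    ndB0q0 ndB0q2 pcB3 cut_A00pm_023_s3 xt_A00pm_023_s3 :=
  certF0 (fam := true) (s1 := true) (s2 := false) (a := 0) (b := 2) (c := 3) (cn := .up) (n1 := ndB0q0) (n2 := ndB0q2) (pc := pcB3) (cut := cut_A00pm_023_s3) (xt := xt_A00pm_023_s3) (P1 := 0) (W1 := 536870912) (P2 := 0) (W2 := 536870912) (P3 := 1045395039) (W3 := 1503240)
    rfl k0_A00pm_023_s3

theorem s_A00pm_023_s3 {κ x : ℝ} (hκ : κ * h0 = ken x) (hx : ((1045395039 : ℕ) : ℝ) / S ≤ x)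
    (hx' : x ≤ (((1045395039 : ℕ) : ℝ) + (1503240 : ℕ)) / S) :
    AltA (VFD κ) PP tK tL pcB [⟨4, 0, 0, 2845415833⟩] 0 2 3 0 0 (sgb true) (sgb false) x :=
  strip_altAD (m := 2845415833) false rfl hκ (SH.κ0 hκ (SH.hx1 hx).le (SH.hx2 hx').le) (SH.hx1 hx).le (SH.hx2 hx') (covB00).cov (covB02).cov hx hx' c_A00pm_023_s3 cutA_nil ((okx hx hx').extA (T := tt) (sideB hx hx') hκ rfl rfl (.O 0 true) (.O 2 false) (Or.inr rfl))

noncomputable def cut_A00pm_101_s1 : Cut := Cut.of [[⟨4, 0, 0, 1449551462⟩], [⟨0, 1, 0, 26843545⟩, ⟨1, 0, 0, 26843545⟩, ⟨2, 1, 0, 26843545⟩]]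

noncomputable def f_A00pm_101_s1 : ℕ → ℕ → ℕ → ℕ → Bool := onCell 536870912 536870912 536870912 536870912 1045395039 1503240
    (rowF 1 true true false .npn 1 0 1 (qsf 536870912 536870912 0 536870912 1) ndB0q1 ndB0q0 pcB1 cut_A00pm_101_s1 Ext.none)

def k0_A00pm_101_s1 : ∃ t, chk3 f_A00pm_101_s1 t 1 1 1 = true :=
  ⟨(b (l 3) (a (l 3) (b (l 3) (a (l 3) (b (l 3) (a (l 3) (b (l 3) (a (l 3) (b (l 3) (a (l 3) (l 14))))))))))), by decide +kernel⟩

theorem c_A00pm_101_s1 : CertF 536870912 536870912 0 536870912 1045395039 1503240 true true false .npn 1 0 1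
    ndB0q1 ndB0q0 pcB1 cut_A00pm_101_s1 Ext.none :=
  certF1 (fam := true) (s1 := true) (s2 := false) (a := 1) (b := 0) (c := 1) (cn := .npn) (n1 := ndB0q1) (n2 := ndB0q0) (pc := pcB1) (cut := cut_A00pm_101_s1) (xt := Ext.none) (P1 := 536870912) (W1 := 536870912) (P2 := 0) (W2 := 536870912) (P3 := 1045395039) (W3 := 1503240)
    rfl (fun _ => rfl) k0_A00pm_101_s1

theorem s_A00pm_101_s1 {κ x : ℝ} (hκ : κ * h0 = ken x) (hx : ((1045395039 : ℕ) : ℝ) / S ≤ x)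
    (hx' : x ≤ (((1045395039 : ℕ) : ℝ) + (1503240 : ℕ)) / S)
    (H : CutA (VFD κ) PP tK tL pcB (Cut.of [[⟨0, 1, 0, 26843545⟩, ⟨1, 0, 0, 26843545⟩, ⟨2, 1, 0, 26843545⟩]]) 1 0 1 0 0 (sgb true) (sgb false) x) :
    AltA (VFD κ) PP tK tL pcB [⟨3, 0, 0, 1449551462⟩] 1 0 1 0 0 (sgb true) (sgb false) x :=
  strip_altAD (m := 1449551462) true rfl hκ (SH.κ0 hκ (SH.hx1 hx).le (SH.hx2 hx').le) (SH.hx1 hx).le (SH.hx2 hx') (covB01).cov (covB00).cov hx hx' c_A00pm_101_s1 H (noExt_A)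

noncomputable def cut_A00pm_101_s3 : Cut := Cut.of [[⟨3, 0, 0, 2845415833⟩], [⟨0, 1, 0, 26843545⟩, ⟨1, 0, 0, 26843545⟩, ⟨2, 1, 0, 26843545⟩]]

noncomputable def f_A00pm_101_s3 : ℕ → ℕ → ℕ → ℕ → Bool := onCell 536870912 536870912 0 536870912 1045395039 1503240
    (rowF 0 true true false .npn 1 0 1 (qsf 536870912 536870912 0 536870912 1) ndB0q1 ndB0q0 pcB1 cut_A00pm_101_s3 Ext.none)

def k0_A00pm_101_s3 : ∃ t, chk3 f_A00pm_101_s3 t 1 1 1 = true :=
  ⟨(l 6), by decide +kernel⟩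

theorem c_A00pm_101_s3 : CertF 536870912 536870912 0 536870912 1045395039 1503240 true true false .npn 1 0 1
    ndB0q1 ndB0q0 pcB1 cut_A00pm_101_s3 Ext.none :=
  certF0 (fam := true) (s1 := true) (s2 := false) (a := 1) (b := 0) (c := 1) (cn := .npn) (n1 := ndB0q1) (n2 := ndB0q0) (pc := pcB1) (cut := cut_A00pm_101_s3) (xt := Ext.none) (P1 := 536870912) (W1 := 536870912) (P2 := 0) (W2 := 536870912) (P3 := 1045395039) (W3 := 1503240)
    rfl k0_A00pm_101_s3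

theorem s_A00pm_101_s3 {κ x : ℝ} (hκ : κ * h0 = ken x) (hx : ((1045395039 : ℕ) : ℝ) / S ≤ x)
    (hx' : x ≤ (((1045395039 : ℕ) : ℝ) + (1503240 : ℕ)) / S)
    (H : CutA (VFD κ) PP tK tL pcB (Cut.of [[⟨0, 1, 0, 26843545⟩, ⟨1, 0, 0, 26843545⟩, ⟨2, 1, 0, 26843545⟩]]) 1 0 1 0 0 (sgb true) (sgb false) x) :
    AltA (VFD κ) PP tK tL pcB [⟨4, 0, 0, 2845415833⟩] 1 0 1 0 0 (sgb true) (sgb false) x :=
  strip_altAD (m := 2845415833) false rfl hκ (SH.κ0 hκ (SH.hx1 hx).le (SH.hx2 hx').le) (SH.hx1 hx).le (SH.hx2 hx') (covB01).cov (covB00).cov hx hx' c_A00pm_101_s3 H (noExt_A)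

noncomputable def cut_A00pm_102_s3 : Cut := Cut.of [[⟨3, 0, 0, 2845415833⟩], [⟨0, 1, 0, 13421772⟩, ⟨1, 0, 0, 13421772⟩, ⟨2, 1, 0, 13421772⟩]]

noncomputable def f_A00pm_102_s3 : ℕ → ℕ → ℕ → ℕ → Bool := onCell 536870912 536870912 0 536870912 1045395039 1503240
    (rowF 0 true true false .npp 1 0 2 (qsf 536870912 536870912 0 536870912 2) ndB0q1 ndB0q0 pcB2 cut_A00pm_102_s3 Ext.none)

def k0_A00pm_102_s3 : ∃ t, chk3 f_A00pm_102_s3 t 1 1 1 = true :=
  ⟨(l 6), by decide +kernel⟩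

theorem c_A00pm_102_s3 : CertF 536870912 536870912 0 536870912 1045395039 1503240 true true false .npp 1 0 2
    ndB0q1 ndB0q0 pcB2 cut_A00pm_102_s3 Ext.none :=
  certF0 (fam := true) (s1 := true) (s2 := false) (a := 1) (b := 0) (c := 2) (cn := .npp) (n1 := ndB0q1) (n2 := ndB0q0) (pc := pcB2) (cut := cut_A00pm_102_s3) (xt := Ext.none) (P1 := 536870912) (W1 := 536870912) (P2 := 0) (W2 := 536870912) (P3 := 1045395039) (W3 := 1503240)
    rfl k0_A00pm_102_s3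

theorem s_A00pm_102_s3 {κ x : ℝ} (hκ : κ * h0 = ken x) (hx : ((1045395039 : ℕ) : ℝ) / S ≤ x)
    (hx' : x ≤ (((1045395039 : ℕ) : ℝ) + (1503240 : ℕ)) / S)
    (H : CutA (VFD κ) PP tK tL pcB (Cut.of [[⟨0, 1, 0, 13421772⟩, ⟨1, 0, 0, 13421772⟩, ⟨2, 1, 0, 13421772⟩]]) 1 0 2 0 0 (sgb true) (sgb false) x) :
    AltA (VFD κ) PP tK tL pcB [⟨4, 0, 0, 2845415833⟩] 1 0 2 0 0 (sgb true) (sgb false) x :=
  strip_altAD (m := 2845415833) false rfl hκ (SH.κ0 hκ (SH.hx1 hx).le (SH.hx2 hx').le) (SH.hx1 hx).le (SH.hx2 hx') (covB01).cov (covB00).cov hx hx' c_A00pm_102_s3 H (noExt_A)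

noncomputable def cut_A00pm_112_s1 : Cut := Cut.of [[⟨4, 0, 0, 1449551462⟩]]

noncomputable def xt_A00pm_112_s1 : Ext := strExt dd true true false .u0 .u0m .u2 .dn 1 1 2 rfl rfl gf2 vv ndB0q1 ndB0q1

noncomputable def f_A00pm_112_s1 : ℕ → ℕ → ℕ → ℕ → Bool := onCell 536870912 536870912 1073741824 536870912 1045395039 1503240
    (rowF 1 true true false .dn 1 1 2 (qsf 536870912 536870912 536870912 536870912 2) ndB0q1 ndB0q1 pcB2 cut_A00pm_112_s1 xt_A00pm_112_s1)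

def k0_A00pm_112_s1 : ∃ t, chk3 f_A00pm_112_s1 t 2 2 1 = true :=
  ⟨(a (b (l 3) (b (b (b (l 3) (b (l 3) (b (a (l 529532991) (l 3)) (b (a (l 529814335) (a (l 3) (l 529833295))) (b (b (a (l 529819951) (l 529833263)) (b (b (a (l 529821487) (l 529835055)) (b (a (l 529821999) (l 529835567)) (b (a (l 529821999) (l 529835823)) (a (a (a (a (l 16770136) (l 16771448)) (a (l 16772600) (l 16773608))) (a (a (a (l 16774272) (l 16774656)) (a (l 16775016) (l 16775336))) (a (a (l 16775616) (l 16775856)) (a (l 16776072) (l 16776240))))) (a (a (a (a (l 16776376) (l 16776480)) (a (l 16776544) (l 16776576))) (a (a (l 16776568) (l 16776528)) (a (l 16776456) (l 16776336)))) (a (a (a (l 16776192) (l 16776008)) (a (l 16775784) (l 16775528))) (a (a (l 16775232) (l 16774904)) (a (l 16774544) (l 16774136))))))))) (a (l 529822815) (l 529836383)))) (a (l 529824863) (l 529838687))))))) (a (l 529871455) (l 529888863))) (a (a (a (b (l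 16625224) (l 16599968)) (b (l 16587128) (l 16604072))) (b (l 530021215) (l 16525792))) (a (l 530081119) (l 530084191))))) (b (l 3) (a (b (b (b (l 3) (a (b (l 3) (b (l 529787215) (b (l 529803343) (b (b (l 529809967) (a (a (a (l 16773664) (l 16773192)) (l 16772400)) (a (l 16771224) (l 16769888)))) (l 529816159))))) (b (l 1) (b (l 1) (a (a (b (l 1) (l 16762680)) (l 1)) (l 1)))))) (a (l 529880415) (a (l 529860703) (b (a (l 167537177463) (l 1)) (l 16632424))))) (a (l 530070879) (l 530041439))) (b (b (l 1) (a (a (b (l 1) (l 16670312)) (l 1)) (l 1))) (a (b (b (a (l 16682432) (l 16678072)) (l 16566776)) (b (l 16621176) (l 16591864))) (b (a (l 176126873687) (l 1)) (b (l 16613248) (l 16583744)))))))), by decide +kernel⟩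

def k1_A00pm_112_s1 : ∃ t, chk3 f_A00pm_112_s1 t 2 3 1 = true :=
  ⟨(a (b (a (b (a (b (l 16452160) (l 16472880)) (b (l 16543656) (l 16478040))) (b (a (l 16412232) (l 16414616)) (l 6))) (b (a (b (l 16550696) (l 16485672)) (l 530313071)) (b (a (l 16420424) (l 16427624)) (l 6)))) (l 6)) (b (b (a (a (l 530314351) (l 530303855)) (a (b (l 16547928) (l 16489344)) (b (l 16456208) (l 16482152)))) (b (a (l 16347768) (a (l 16430464) (l 16424440))) (l 6))) (l 6))), by decide +kernel⟩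

def k2_A00pm_112_s1 : ∃ t, chk3 f_A00pm_112_s1 t 3 1 1 = true :=
  ⟨(b (a (b (l 1) (b (l 1) (a (b (l 1) (a (l 165389301015) (l 1))) (l 1)))) (l 1)) (b (b (a (a (a (b (l 16534160) (l 16475448)) (b (l 16529576) (l 16471832))) (a (b (l 1) (l 16469008)) (l 1))) (l 1)) (b (a (a (a (l 16417152) (l 16413840)) (a (l 16412288) (l 16412376))) (l 1)) (a (l 6) (l 6)))) (l 6))), by decide +kernel⟩

theorem t3_A00pm_112_s1 : ∃ t, chk3 f_A00pm_112_s1 t 2 1 1 = true := ex3_b k0_A00pm_112_s1 k1_A00pm_112_s1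

theorem t4_A00pm_112_s1 : ∃ t, chk3 f_A00pm_112_s1 t 1 1 1 = true := ex3_a t3_A00pm_112_s1 k2_A00pm_112_s1

theorem c_A00pm_112_s1 : CertF 536870912 536870912 536870912 536870912 1045395039 1503240 true true false .dn 1 1 2
    ndB0q1 ndB0q1 pcB2 cut_A00pm_112_s1 xt_A00pm_112_s1 :=
  certF1 (fam := true) (s1 := true) (s2 := false) (a := 1) (b := 1) (c := 2) (cn := .dn) (n1 := ndB0q1) (n2 := ndB0q1) (pc := pcB2) (cut := cut_A00pm_112_s1) (xt := xt_A00pm_112_s1) (P1 := 536870912) (W1 := 536870912) (P2 := 536870912) (W2 := 536870912) (P3 := 1045395039) (W3 := 1503240)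
    rfl (fun _ => rfl) t4_A00pm_112_s1

theorem s_A00pm_112_s1 {κ x : ℝ} (hκ : κ * h0 = ken x) (hx : ((1045395039 : ℕ) : ℝ) / S ≤ x)
    (hx' : x ≤ (((1045395039 : ℕ) : ℝ) + (1503240 : ℕ)) / S) :
    AltA (VFD κ) PP tK tL pcB [⟨3, 0, 0, 1449551462⟩] 1 1 2 0 0 (sgb true) (sgb false) x :=
  strip_altAD (m := 1449551462) true rfl hκ (SH.κ0 hκ (SH.hx1 hx).le (SH.hx2 hx').le) (SH.hx1 hx).le (SH.hx2 hx') (covB01).cov (covB01).cov hx hx' c_A00pm_112_s1 cutA_nil ((okx hx hx').extA (T := tt) (sideB hx hx') hκ rfl rfl (.O 1 true) (.O 1 false) rfl)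

noncomputable def cut_A00pm_112_s3 : Cut := Cut.of [[⟨3, 0, 0, 2845415833⟩]]

noncomputable def f_A00pm_112_s3 : ℕ → ℕ → ℕ → ℕ → Bool := onCell 536870912 536870912 1073741824 536870912 1045395039 1503240
    (rowF 1 true true false .dn 1 1 2 (qsf 536870912 536870912 536870912 536870912 2) ndB0q1 ndB0q1 pcB2 cut_A00pm_112_s3 Ext.none)

def k0_A00pm_112_s3 : ∃ t, chk3 f_A00pm_112_s3 t 1 1 1 = true :=
  ⟨(l 6), by decide +kernel⟩

theorem c_A00pm_112_s3 : CertF 536870912 536870912 536870912 536870912 1045395039 1503240 true true false .dn 1 1 2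
    ndB0q1 ndB0q1 pcB2 cut_A00pm_112_s3 Ext.none :=
  certF1 (fam := true) (s1 := true) (s2 := false) (a := 1) (b := 1) (c := 2) (cn := .dn) (n1 := ndB0q1) (n2 := ndB0q1) (pc := pcB2) (cut := cut_A00pm_112_s3) (xt := Ext.none) (P1 := 536870912) (W1 := 536870912) (P2 := 536870912) (W2 := 536870912) (P3 := 1045395039) (W3 := 1503240)
    rfl (fun _ => rfl) k0_A00pm_112_s3

theorem s_A00pm_112_s3 {κ x : ℝ} (hκ : κ * h0 = ken x) (hx : ((1045395039 : ℕ) : ℝ) / S ≤ x)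
    (hx' : x ≤ (((1045395039 : ℕ) : ℝ) + (1503240 : ℕ)) / S) :
    AltA (VFD κ) PP tK tL pcB [⟨4, 0, 0, 2845415833⟩] 1 1 2 0 0 (sgb true) (sgb false) x :=
  strip_altAD (m := 2845415833) false rfl hκ (SH.κ0 hκ (SH.hx1 hx).le (SH.hx2 hx').le) (SH.hx1 hx).le (SH.hx2 hx') (covB01).cov (covB01).cov hx hx' c_A00pm_112_s3 cutA_nil (noExt_A)

noncomputable def cut_A00pm_113_s1 : Cut := Cut.of [[⟨4, 0, 0, 1449551462⟩], [⟨0, 1, 0, 14155776⟩, ⟨1, 1, 0, 14155776⟩, ⟨2, 2, 0, 524288⟩], [⟨0, 0, 1, 46137344⟩, ⟨1, 1, 0, 1048576⟩, ⟨2, 1, 1, 46137344⟩, ⟨0, 0, 0, 1056440320⟩, ⟨0, 1, 0, 33457795⟩, ⟨2, 1, 0, 1056440320⟩, ⟨2, 2, 0, 33457795⟩], [⟨0, 1, 0, 1048576⟩, ⟨1, 0, 1, 46137344⟩, ⟨2, 1, 1, 46137344⟩, ⟨1, 0, 0, 1056440320⟩, ⟨1, 1, 0, 33457795⟩, ⟨2, 1, 0, 1056440320⟩, ⟨2, 2, 0, 33457795⟩]]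

noncomputable def f_A00pm_113_s1 : ℕ → ℕ → ℕ → ℕ → Bool := onCell 1610612736 536870912 536870912 536870912 1045395039 1503240
    (rowF 2 true true false .nn 1 1 3 (qsf 536870912 536870912 536870912 536870912 3) ndB0q1 ndB0q1 pcB3 cut_A00pm_113_s1 Ext.none)

def k0_A00pm_113_s1 : ∃ t, chk3 f_A00pm_113_s1 t 1 1 1 = true :=
  ⟨(a (b (a (l 6) (l 6)) (l 6)) (l 6)), by decide +kernel⟩

theorem c_A00pm_113_s1 : CertF 536870912 536870912 536870912 536870912 1045395039 1503240 true true false .nn 1 1 3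
    ndB0q1 ndB0q1 pcB3 cut_A00pm_113_s1 Ext.none :=
  certF2 (fam := true) (s1 := true) (s2 := false) (a := 1) (b := 1) (c := 3) (cn := .nn) (n1 := ndB0q1) (n2 := ndB0q1) (pc := pcB3) (cut := cut_A00pm_113_s1) (xt := Ext.none) (P1 := 536870912) (W1 := 536870912) (P2 := 536870912) (W2 := 536870912) (P3 := 1045395039) (W3 := 1503240)
    rfl (fun _ => rfl) k0_A00pm_113_s1

theorem s_A00pm_113_s1 {κ x : ℝ} (hκ : κ * h0 = ken x) (hx : ((1045395039 : ℕ) : ℝ) / S ≤ x)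
    (hx' : x ≤ (((1045395039 : ℕ) : ℝ) + (1503240 : ℕ)) / S)
    (H : CutA (VFD κ) PP tK tL pcB (Cut.of [[⟨0, 1, 0, 14155776⟩, ⟨1, 1, 0, 14155776⟩, ⟨2, 2, 0, 524288⟩], [⟨0, 0, 1, 46137344⟩, ⟨1, 1, 0, 1048576⟩, ⟨2, 1, 1, 46137344⟩, ⟨0, 0, 0, 1056440320⟩, ⟨0, 1, 0, 33457795⟩, ⟨2, 1, 0, 1056440320⟩, ⟨2, 2, 0, 33457795⟩], [⟨0, 1, 0, 1048576⟩, ⟨1, 0, 1, 46137344⟩, ⟨2, 1, 1, 46137344⟩, ⟨1, 0, 0, 1056440320⟩, ⟨1, 1, 0, 33457795⟩, ⟨2, 1, 0, 1056440320⟩, ⟨2, 2, 0, 33457795⟩]]) 1 1 3 0 0 (sgb true) (sgb false) x) :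
    AltA (VFD κ) PP tK tL pcB [⟨3, 0, 0, 1449551462⟩] 1 1 3 0 0 (sgb true) (sgb false) x :=
  strip_altAD (m := 1449551462) true rfl hκ (SH.κ0 hκ (SH.hx1 hx).le (SH.hx2 hx').le) (SH.hx1 hx).le (SH.hx2 hx') (covB01).cov (covB01).cov hx hx' c_A00pm_113_s1 H (noExt_A)

noncomputable def cut_A00pm_113_s3 : Cut := Cut.of [[⟨3, 0, 0, 3194381926⟩], [⟨0, 1, 0, 14155776⟩, ⟨1, 1, 0, 14155776⟩, ⟨2, 2, 0, 524288⟩], [⟨0, 0, 1, 46137344⟩, ⟨1, 1, 0, 1048576⟩, ⟨2, 1, 1, 46137344⟩, ⟨0, 0, 0, 1056440320⟩, ⟨0, 1, 0, 33457795⟩, ⟨2, 1, 0, 1056440320⟩, ⟨2, 2, 0, 33457795⟩], [⟨0, 1, 0, 1048576⟩, ⟨1, 0, 1, 46137344⟩, ⟨2, 1, 1, 46137344⟩, ⟨1, 0, 0, 1056440320⟩, ⟨1, 1, 0, 33457795⟩, ⟨2, 1, 0, 1056440320⟩, ⟨2, 2, 0, 33457795⟩]]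

noncomputable def f_A00pm_113_s3 : ℕ → ℕ → ℕ → ℕ → Bool := onCell 536870912 536870912 536870912 536870912 1045395039 1503240
    (rowF 0 true true false .nn 1 1 3 (qsf 536870912 536870912 536870912 536870912 3) ndB0q1 ndB0q1 pcB3 cut_A00pm_113_s3 Ext.none)

def k0_A00pm_113_s3 : ∃ t, chk3 f_A00pm_113_s3 t 2 1 1 = true :=
  ⟨(l 6), by decide +kernel⟩

def k1_A00pm_113_s3 : ∃ t, chk3 f_A00pm_113_s3 t 3 2 1 = true :=
  ⟨(l 6), by decide +kernel⟩

def k2_A00pm_113_s3 : ∃ t, chk3 f_A00pm_113_s3 t 6 3 1 = true :=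
  ⟨(l 6), by decide +kernel⟩

def k3_A00pm_113_s3 : ∃ t, chk3 f_A00pm_113_s3 t 7 6 1 = true :=
  ⟨(l 6), by decide +kernel⟩

def k4_A00pm_113_s3 : ∃ t, chk3 f_A00pm_113_s3 t 14 7 1 = true :=
  ⟨(l 6), by decide +kernel⟩

def k5_A00pm_113_s3 : ∃ t, chk3 f_A00pm_113_s3 t 15 14 1 = true :=
  ⟨(l 6), by decide +kernel⟩

def k6_A00pm_113_s3 : ∃ t, chk3 f_A00pm_113_s3 t 30 15 1 = true :=
  ⟨(l 6), by decide +kernel⟩

def k7_A00pm_113_s3 : ∃ t, chk3 f_A00pm_113_s3 t 31 30 1 = true :=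
  ⟨(l 6), by decide +kernel⟩

def k8_A00pm_113_s3 : ∃ t, chk3 f_A00pm_113_s3 t 62 31 1 = true :=
  ⟨(l 6), by decide +kernel⟩

def k9_A00pm_113_s3 : ∃ t, chk3 f_A00pm_113_s3 t 63 62 1 = true :=
  ⟨(l 6), by decide +kernel⟩

def k10_A00pm_113_s3 : ∃ t, chk3 f_A00pm_113_s3 t 126 63 1 = true :=
  ⟨(b (l 6) (b (l 6) (a (l 6) (b (l 6) (a (l 6) (b (l 6) (a (l 6) (b (a (l 6) (b (l 6) (l 16775312))) (a (b (l 6) (l 16773968)) (b (l 16775144) (a (l 16774808) (b (b (l 16775344) (l 16775320)) (a (b (l 16775200) (a (l 16775136) (l 16772608))) (b (a (l 16772736) (l 16775392)) (l 16775264))))))))))))))), by decide +kernel⟩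

def k11_A00pm_113_s3 : ∃ t, chk3 f_A00pm_113_s3 t 127 126 1 = true :=
  ⟨(a (l 6) (b (l 6) (a (l 6) (b (l 6) (a (l 6) (b (l 6) (a (b (l 6) (a (l 6) (l 16775312))) (b (a (l 6) (l 16773968)) (a (l 16775144) (b (l 16774808) (a (a (l 16775344) (l 16775320)) (b (a (l 16775200) (b (l 16775136) (l 16772608))) (a (b (l 16772736) (l 16775392)) (l 16775264)))))))))))))), by decide +kernel⟩

def k12_A00pm_113_s3 : ∃ t, chk3 f_A00pm_113_s3 t 254 254 1 = true :=
  ⟨(a (l 6) (a (l 6) (b (l 6) (b (l 6) (a (l 16765112) (l 16764616)))))), by decide +kernel⟩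

def k13_A00pm_113_s3 : ∃ t, chk3 f_A00pm_113_s3 t 510 254 1 = true :=
  ⟨(a (b (l 6) (b (a (b (l 6) (l 16783288)) (b (a (l 6) (l 16781256)) (a (l 16782192) (b (l 16781440) (l 16781624))))) (a (l 16773608) (b (l 16782360) (l 16782872))))) (b (b (l 6) (a (l 16780200) (l 16779424))) (b (a (b (l 16780640) (l 16780872)) (l 16780008)) (a (b (a (b (l 16781232) (l 16781416)) (l 16780840)) (a (l 16781784) (b (l 16781000) (l 16781192)))) (b (l 16780296) (a (l 16780592) (l 16780248))))))), by decide +kernel⟩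

def k14_A00pm_113_s3 : ∃ t, chk3 f_A00pm_113_s3 t 511 254 1 = true :=
  ⟨(b (a (b (b (a (l 6) (l 16776832)) (a (l 16778136) (a (l 16777608) (b (l 16777144) (a (l 16777496) (l 16777344)))))) (a (l 16778728) (b (a (b (a (l 16778040) (l 16777880)) (l 16778152)) (l 16777696)) (a (l 16778424) (l 16778032))))) (b (a (b (a (l 16776376) (b (l 16775976) (a (l 16776408) (a (l 16776328) (l 16776264))))) (a (b (a (l 16776952) (b (l 16776768) (l 16776880))) (l 16777080)) (a (l 16776704) (l 16776488)))) (b (a (b (a (l 16775864) (b (a (l 16775728) (b (l 16775656) (l 16775744))) (a (b (l 16775872) (l 16775912)) (l 16775792)))) (a (l 16776120) (l 16775896))) (b (b (b (b (l 16775448) (l 16772840)) (l 16775472)) (l 16775488)) (l 16775520))) (a (l 16776120) (l 16775584)))) (a (b (l 16777048) (l 16777296)) (b (a (l 16776272) (l 16775680)) (a (l 16776432) (l 16775776)))))) (a (a (b (l 16779328) (b (l 16779632) (l 16779768)))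 (b (b (a (l 16778744) (l 16778352)) (a (l 16778992) (l 16778664))) (b (a (l 16779184) (l 16778912)) (l 16779192)))) (a (b (b (a (l 16777840) (l 16777248)) (a (l 16778136) (l 16777488))) (a (b (l 16778432) (a (l 16778856) (l 16778576))) (b (l 16777736) (l 16778000)))) (b (b (a (l 16776600) (l 16775880)) (a (l 16776776) (l 16776000))) (b (a (l 16776960) (l 16776128)) (a (l 16777168) (a (l 16776496) (l 16776032)))))))), by decide +kernel⟩

def k15_A00pm_113_s3 : ∃ t, chk3 f_A00pm_113_s3 t 254 510 1 = true :=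
  ⟨(b (a (l 6) (a (b (a (l 6) (l 16783288)) (a (b (l 6) (l 16781256)) (b (l 16782192) (a (l 16781440) (l 16781624))))) (b (l 16773608) (a (l 16782360) (l 16782872))))) (a (a (l 6) (b (l 16780200) (l 16779424))) (a (b (a (l 16780640) (l 16780872)) (l 16780008)) (b (a (b (a (l 16781232) (l 16781416)) (l 16780840)) (b (l 16781784) (a (l 16781000) (l 16781192)))) (a (l 16780296) (b (l 16780592) (l 16780248))))))), by decide +kernel⟩

def k16_A00pm_113_s3 : ∃ t, chk3 f_A00pm_113_s3 t 254 511 1 = true :=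
  ⟨(a (b (a (a (b (l 6) (l 16776832)) (b (l 16778136) (b (l 16777608) (a (l 16777144) (b (l 16777496) (l 16777344)))))) (b (l 16778728) (a (b (a (b (l 16778040) (l 16777880)) (l 16778152)) (l 16777696)) (b (l 16778424) (l 16778032))))) (a (b (a (b (l 16776376) (a (l 16775976) (b (l 16776408) (b (l 16776328) (l 16776264))))) (b (a (b (l 16776952) (a (l 16776768) (l 16776880))) (l 16777080)) (b (l 16776704) (l 16776488)))) (a (b (a (b (l 16775864) (a (a (l 16775664) (b (l 16775792) (l 16775744))) (b (a (l 16775872) (l 16775912)) (l 16775792)))) (b (l 16776120) (l 16775896))) (a (a (a (a (l 16775448) (l 16772840)) (l 16775472)) (l 16775488)) (l 16775520))) (b (l 16776120) (l 16775584)))) (b (a (l 16777048) (l 16777296)) (a (b (l 16776272) (l 16775680)) (b (l 16776432) (l 16775776)))))) (b (b (a (l 16779328) (a (l 16779632) (l 16779768))) (a (a (b (l 16778744) (l 16778352)) (b (l 16778992) (l 16778664))) (a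 (b (l 16779184) (l 16778912)) (l 16779192)))) (b (a (a (b (l 16777840) (l 16777248)) (b (l 16778136) (l 16777488))) (b (a (l 16778432) (b (l 16778856) (l 16778576))) (a (l 16777736) (l 16778000)))) (a (a (b (l 16776600) (l 16775880)) (b (l 16776776) (l 16776000))) (a (b (l 16776960) (l 16776128)) (b (l 16777168) (b (l 16776496) (l 16776032)))))))), by decide +kernel⟩

def k17_A00pm_113_s3 : ∃ t, chk3 f_A00pm_113_s3 t 510 255 1 = true :=
  ⟨(b (a (b (a (l 16773616) (l 16773112)) (b (b (l 16772024) (l 16776544)) (a (b (a (l 16780760) (l 16780952)) (a (l 16780304) (l 16780360))) (b (l 16781304) (a (l 16780504) (l 16780704)))))) (b (a (a (l 16772024) (l 16776544)) (b (a (b (l 16780760) (l 16780952)) (b (l 16780304) (l 16780360))) (a (l 16781304) (b (l 16780504) (l 16780704))))) (a (b (l 16772336) (b (l 16771256) (l 16781032))) (b (a (l 16771256) (l 16781032)) (l 16771320))))) (b (b (a (a (l 16779840) (b (a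 (l 16780008) (b (l 16780192) (l 16779936))) (l 16779712))) (b (a (a (l 16780232) (l 16780432)) (l 16775504)) (a (a (b (l 16779784) (l 16779616)) (b (l 16779912) (l 16779624))) (a (l 16779944) (l 16780144))))) (a (a (l 16779280) (l 16779312)) (a (b (l 16779392) (l 16779160)) (b (a (b (l 16779472) (l 16779264)) (b (l 16779616) (l 16779312))) (a (l 16779096) (b (l 16779088) (l 16778976))))))) (a (b (a (b (b (l 16778976) (l 16778816)) (a (l 16778208) (l 16778336))) (b (l 16778960) (b (a (l 16778688) (l 16778768)) (l 16778336)))) (a (b (b (l 16777608) (l 16777144)) (b (l 16776664) (l 16776160))) (b (a (l 16777552) (l 16777664)) (b (l 16776840) (a (l 16776272) (l 16776344)))))) (b (a (b (l 16778936) (b (l 16778792) (a (l 16778536) (l 16778616)))) (b (l 16778848) (a (b (l 16778736) (l 16778632)) (l 16778632)))) (b (b (a (l 16778112) (a (l 16778312) (b (l 16778504) (l 16778312)))) (a (a (l 16777520) (l 16777640))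 (a (l 16777760) (l 16777888)))) (a (a (b (l 16776984) (l 16776424)) (b (l 16777080) (l 16776512))) (a (b (l 16777184) (l 16776592)) (b (l 16777296) (b (l 16776840) (l 16776528)))))))))), by decide +kernel⟩

def k18_A00pm_113_s3 : ∃ t, chk3 f_A00pm_113_s3 t 511 510 1 = true :=
  ⟨(a (a (b (b (l 16779840) (a (b (l 16780008) (a (l 16780192) (l 16779936))) (l 16779712))) (a (b (b (l 16780232) (l 16780432)) (l 16775504)) (b (b (a (l 16779784) (l 16779616)) (a (l 16779912) (l 16779624))) (b (l 16779944) (l 16780144))))) (b (b (l 16779280) (l 16779312)) (b (a (l 16779392) (l 16779160)) (a (b (a (l 16779472) (l 16779264)) (a (l 16779616) (l 16779312))) (b (l 16779096) (a (l 16779088) (l 16778976))))))) (b (a (b (a (a (l 16778976) (l 16778816)) (b (l 16778208) (l 16778336))) (a (l 16778960) (a (b (l 16778688) (l 16778768)) (l 16778336)))) (b (a (a (l 16777608) (l 16777144)) (a (l 16776664) (l 16776160))) (a (b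 (l 16777552) (l 16777664)) (a (l 16776840) (a (l 16776440) (l 16776168)))))) (a (b (a (l 16778936) (a (l 16778792) (b (l 16778536) (l 16778616)))) (a (l 16778848) (b (a (l 16778736) (l 16778632)) (l 16778632)))) (a (a (b (l 16778112) (b (l 16778312) (a (l 16778504) (l 16778312)))) (b (b (l 16777520) (l 16777640)) (b (l 16777760) (l 16777888)))) (b (b (a (l 16776984) (l 16776424)) (a (l 16777080) (l 16776512))) (b (a (l 16777184) (l 16776592)) (a (l 16777296) (a (l 16776840) (l 16776528))))))))), by decide +kernel⟩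

def k19_A00pm_113_s3 : ∃ t, chk3 f_A00pm_113_s3 t 1022 511 1 = true :=
  ⟨(b (a (b (b (l 16775448) (l 16775192)) (b (l 16774496) (a (b (a (l 16779104) (l 16779176)) (a (l 16778920) (l 16778896))) (b (l 16779312) (b (l 16779056) (l 16778904)))))) (b (a (l 16774496) (b (a (b (l 16779104) (l 16779176)) (b (l 16778920) (l 16778896))) (a (l 16779312) (a (l 16779056) (l 16778904))))) (a (l 16774432) (b (l 16774088) (l 16774272))))) (b (a (b (a (l 16778744) (b (a (l 16778720) (l 16778720)) (l 16778600))) (a (l 16778560) (l 16778472))) (b (b (a (b (l 16778896) (l 16778736)) (b (l 16779080) (l 16778912))) (a (a (l 16778536) (b (l 16778608) (l 16778472))) (b (l 16778736) (l 16778568)))) (a (b (l 16778400) (l 16778328)) (b (a (b (l 16778376) (l 16778296)) (b (l 16778440) (l 16778288))) (a (l 16778240) (b (l 16778192) (l 16778152))))))) (a (b (a (b (b (l 16778464) (l 16778384)) (b (l 16778168) (l 16777864))) (b (l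 16778360) (b (a (l 16778248) (l 16778256)) (l 16778000)))) (a (b (b (l 16777560) (l 16777256)) (b (l 16776944) (l 16776624))) (b (b (l 16777680) (l 16777368)) (b (l 16777048) (a (l 16776696) (l 16776744)))))) (b (b (a (l 16778256) (l 16778136)) (a (b (l 16778208) (a (l 16778088) (b (l 16778152) (l 16778072)))) (a (b (l 16778120) (l 16778088)) (l 16778048)))) (b (a (b (l 16777808) (l 16777480)) (a (b (b (l 16777984) (l 16777824)) (l 16777576)) (b (b (l 16777992) (l 16777888)) (l 16777632)))) (a (b (a (l 16777128) (l 16777176)) (a (l 16776792) (l 16776840))) (b (a (l 16777232) (l 16777296)) (a (l 16776896) (b (l 16777032) (l 16776856)))))))))), by decide +kernel⟩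

def k20_A00pm_113_s3 : ∃ t, chk3 f_A00pm_113_s3 t 1023 1022 1 = true :=
  ⟨(a (b (a (b (l 16778744) (a (b (l 16778720) (l 16778720)) (l 16778600))) (b (l 16778560) (l 16778472))) (a (a (b (a (l 16778896) (l 16778736)) (a (l 16779080) (l 16778912))) (b (b (l 16778536) (a (l 16778608) (l 16778472))) (a (l 16778736) (l 16778568)))) (b (a (l 16778400) (l 16778328)) (a (b (a (l 16778376) (l 16778296)) (a (l 16778440) (l 16778288))) (b (l 16778240) (a (l 16778192) (l 16778152))))))) (b (a (b (a (a (l 16778464) (l 16778384)) (a (l 16778168) (l 16777864))) (a (l 16778360) (a (b (l 16778248) (l 16778256)) (l 16778000)))) (b (a (a (l 16777560) (l 16777256)) (a (l 16776944) (l 16776624))) (a (a (l 16777680) (l 16777368)) (a (l 16777048) (b (l 16776696) (l 16776744)))))) (a (a (b (l 16778256) (l 16778136)) (b (a (l 16778208) (b (l 16778088) (a (l 16778152) (l 16778072)))) (b (a (l 16778120) (l 16778088)) (l 16778048))))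 (a (b (a (l 16777808) (l 16777480)) (b (a (a (l 16777984) (l 16777824)) (l 16777576)) (a (a (l 16777992) (l 16777888)) (l 16777632)))) (b (a (b (l 16777128) (l 16777176)) (b (l 16776792) (l 16776840))) (a (b (l 16777232) (l 16777296)) (b (l 16776896) (a (l 16777032) (l 16776856))))))))), by decide +kernel⟩

def k21_A00pm_113_s3 : ∃ t, chk3 f_A00pm_113_s3 t 2046 1023 1 = true :=
  ⟨(b (a (b (a (b (l 16773888) (l 16776168)) (b (l 16776168) (a (l 16778856) (l 16778792)))) (b (b (l 16775952) (l 16778400)) (a (b (l 16778200) (a (l 16778104) (l 16778080))) (b (l 16778272) (l 16778112))))) (b (a (a (l 16775952) (l 16778400)) (b (a (l 16778200) (b (l 16778104) (l 16778080))) (a (l 16778272) (l 16778112)))) (a (b (a (l 16775976) (l 16778536)) (l 16775656)) (b (l 16775656) (a (l 16775720) (l 16775656)))))) (b (a (b (a (l 16778032) (b (a (l 16777992) (l 16777984)) (l 16777944))) (a (l 16777976) (l 16777904))) (a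 (b (b (l 16778024) (a (l 16777888) (b (l 16777920) (l 16777848)))) (b (l 16777832) (l 16777808))) (a (b (b (l 16778088) (l 16777920)) (b (b (l 16777800) (l 16777768)) (l 16777752))) (b (b (l 16778128) (l 16777960)) (b (b (l 16777832) (l 16777760)) (b (l 16777712) (l 16777696))))))) (b (a (b (a (b (l 16777944) (l 16777904)) (l 16777864)) (a (b (l 16777784) (l 16777608)) (b (a (l 16777816) (l 16777816)) (l 16777672)))) (b (a (l 16777784) (l 16777704)) (a (b (l 16777776) (b (a (l 16777752) (l 16777744)) (l 16777688))) (a (b (l 16777712) (l 16777696)) (l 16777664))))) (a (a (b (b (l 16777440) (l 16777264)) (b (l 16777088) (l 16776912))) (b (b (l 16777496) (l 16777320)) (b (l 16777144) (a (l 16776952) (l 16776976))))) (b (a (b (l 16777560) (l 16777376)) (b (b (a (l 16777648) (l 16777648)) (l 16777576)) (a (l 16777424) (l 16777448)))) (b (a (a (l 16777184) (l 16777216)) (a (l 16777240) (l 16777272))) (a (a (l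 16777008) (l 16777032)) (a (l 16777056) (b (l 16777128) (l 16777040)))))))))), by decide +kernel⟩

def k22_A00pm_113_s3 : ∃ t, chk3 f_A00pm_113_s3 t 2047 2046 1 = true :=
  ⟨(a (b (a (b (l 16778032) (a (b (l 16777992) (l 16777984)) (l 16777944))) (b (l 16777976) (l 16777904))) (b (a (a (l 16778024) (b (l 16777888) (a (l 16777920) (l 16777848)))) (a (l 16777832) (l 16777808))) (b (a (a (l 16778088) (l 16777920)) (a (a (l 16777800) (l 16777768)) (l 16777752))) (a (a (l 16778128) (l 16777960)) (a (a (l 16777832) (l 16777760)) (a (l 16777712) (l 16777696))))))) (a (b (a (b (a (l 16777944) (l 16777904)) (l 16777864)) (b (a (l 16777784) (l 16777608)) (a (b (l 16777816) (l 16777816)) (l 16777672)))) (a (b (l 16777784) (l 16777704)) (b (a (l 16777776) (a (b (l 16777752) (l 16777744)) (l 16777688))) (b (a (l 16777712) (l 16777696)) (l 16777664))))) (b (b (a (a (l 16777440) (l 16777264)) (a (l 16777088) (l 16776912)))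 (a (a (l 16777496) (l 16777320)) (a (l 16777144) (b (l 16776952) (l 16776976))))) (a (b (a (l 16777560) (l 16777376)) (a (a (b (l 16777648) (l 16777648)) (l 16777576)) (b (l 16777424) (l 16777448)))) (a (b (b (l 16777184) (l 16777216)) (b (l 16777240) (l 16777272))) (b (b (l 16777008) (l 16777032)) (b (l 16777056) (a (l 16777128) (l 16777040))))))))), by decide +kernel⟩

def k23_A00pm_113_s3 : ∃ t, chk3 f_A00pm_113_s3 t 4094 2047 1 = true :=
  ⟨(b (a (b (a (b (c (l 16775552) (l 16775552)) (b (l 16778048) (l 16777960))) (a (b (l 16778048) (l 16778040)) (l 16777984))) (b (b (a (l 16777872) (l 16777920)) (l 16777808)) (a (b (l 16777712) (a (l 16777664) (l 16777648))) (b (l 16777744) (l 16777664))))) (b (a (a (b (l 16777872) (l 16777920)) (l 16777808)) (b (a (l 16777712) (b (l 16777664) (l 16777648))) (a (l 16777744) (l 16777664)))) (a (b (a (b (l 16777952) (l 16777864)) (a (l 16777896) (l 16777856))) (b (l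 16777792) (l 16777704))) (b (a (l 16777792) (l 16777704)) (a (b (a (l 16777816) (l 16777800)) (l 16777736)) (a (b (l 16777760) (l 16777752)) (l 16777728))))))) (b (a (b (a (l 16777640) (b (a (l 16777608) (l 16777600)) (l 16777584))) (a (l 16777624) (l 16777576))) (b (a (b (l 16777624) (a (l 16777552) (b (l 16777568) (l 16777536)))) (b (b (l 16777688) (l 16777640)) (l 16777576))) (a (b (l 16777528) (l 16777520)) (b (a (b (l 16777512) (l 14)) (l 14)) (l 14))))) (b (a (b (a (b (l 16777608) (a (l 16777600) (l 16777592))) (l 16777560)) (b (a (l 16777528) (b (l 16777552) (l 16777528))) (a (l 16777432) (l 16777464)))) (b (a (l 16777520) (l 14)) (l 14))) (a (b (a (b (l 16777344) (l 16777248)) (b (l 16777376) (l 14))) (a (b (l 16777160) (l 16777064)) (l 14))) (l 14))))), by decide +kernel⟩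

def k24_A00pm_113_s3 : ∃ t, chk3 f_A00pm_113_s3 t 4095 2047 1 = true :=
  ⟨(b (a (b (a (b (l 16777640) (a (b (l 16777608) (l 16777600)) (l 16777584))) (b (l 16777624) (l 16777576))) (a (b (a (l 16777624) (b (l 16777552) (a (l 16777568) (l 16777536)))) (a (a (l 16777688) (l 16777640)) (l 16777576))) (b (a (l 16777528) (l 16777520)) (a (b (a (l 16777512) (l 14)) (l 14)) (l 14))))) (a (b (a (b (a (l 16777608) (b (l 16777600) (l 16777592))) (l 16777560)) (a (b (l 16777528) (a (l 16777552) (l 16777528))) (b (l 16777432) (l 16777464)))) (a (b (l 16777520) (l 14)) (l 14))) (b (a (b (a (l 16777344) (l 16777248)) (a (l 16777376) (l 14))) (b (a (l 16777160) (l 16777064)) (l 14))) (l 14)))) (a (b (a (b (a (b (a (l 16777688) (l 14)) (l 14)) (l 14)) (l 14)) (l 14)) (l 14)) (l 14))), by decide +kernel⟩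

theorem t25_A00pm_113_s3 : ∃ t, chk3 f_A00pm_113_s3 t 2047 2047 1 = true := ex3_a k23_A00pm_113_s3 k24_A00pm_113_s3

theorem t26_A00pm_113_s3 : ∃ t, chk3 f_A00pm_113_s3 t 2047 1023 1 = true := ex3_b k22_A00pm_113_s3 t25_A00pm_113_s3

theorem t27_A00pm_113_s3 : ∃ t, chk3 f_A00pm_113_s3 t 1023 1023 1 = true := ex3_a k21_A00pm_113_s3 t26_A00pm_113_s3

theorem t28_A00pm_113_s3 : ∃ t, chk3 f_A00pm_113_s3 t 1023 511 1 = true := ex3_b k20_A00pm_113_s3 t27_A00pm_113_s3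

theorem t29_A00pm_113_s3 : ∃ t, chk3 f_A00pm_113_s3 t 511 511 1 = true := ex3_a k19_A00pm_113_s3 t28_A00pm_113_s3

theorem t30_A00pm_113_s3 : ∃ t, chk3 f_A00pm_113_s3 t 511 255 1 = true := ex3_b k18_A00pm_113_s3 t29_A00pm_113_s3

theorem t31_A00pm_113_s3 : ∃ t, chk3 f_A00pm_113_s3 t 255 255 1 = true := ex3_a k17_A00pm_113_s3 t30_A00pm_113_s3

theorem t32_A00pm_113_s3 : ∃ t, chk3 f_A00pm_113_s3 t 254 255 1 = true := ex3_b k15_A00pm_113_s3 k16_A00pm_113_s3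

theorem t33_A00pm_113_s3 : ∃ t, chk3 f_A00pm_113_s3 t 127 255 1 = true := ex3_a t32_A00pm_113_s3 t31_A00pm_113_s3

theorem t34_A00pm_113_s3 : ∃ t, chk3 f_A00pm_113_s3 t 255 254 1 = true := ex3_a k13_A00pm_113_s3 k14_A00pm_113_s3

theorem t35_A00pm_113_s3 : ∃ t, chk3 f_A00pm_113_s3 t 127 254 1 = true := ex3_a k12_A00pm_113_s3 t34_A00pm_113_s3

theorem t36_A00pm_113_s3 : ∃ t, chk3 f_A00pm_113_s3 t 127 127 1 = true := ex3_b t35_A00pm_113_s3 t33_A00pm_113_s3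

theorem t37_A00pm_113_s3 : ∃ t, chk3 f_A00pm_113_s3 t 127 63 1 = true := ex3_b k11_A00pm_113_s3 t36_A00pm_113_s3

theorem t38_A00pm_113_s3 : ∃ t, chk3 f_A00pm_113_s3 t 63 63 1 = true := ex3_a k10_A00pm_113_s3 t37_A00pm_113_s3

theorem t39_A00pm_113_s3 : ∃ t, chk3 f_A00pm_113_s3 t 63 31 1 = true := ex3_b k9_A00pm_113_s3 t38_A00pm_113_s3

theorem t40_A00pm_113_s3 : ∃ t, chk3 f_A00pm_113_s3 t 31 31 1 = true := ex3_a k8_A00pm_113_s3 t39_A00pm_113_s3

theorem t41_A00pm_113_s3 : ∃ t, chk3 f_A00pm_113_s3 t 31 15 1 = true := ex3_b k7_A00pm_113_s3 t40_A00pm_113_s3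

theorem t42_A00pm_113_s3 : ∃ t, chk3 f_A00pm_113_s3 t 15 15 1 = true := ex3_a k6_A00pm_113_s3 t41_A00pm_113_s3

theorem t43_A00pm_113_s3 : ∃ t, chk3 f_A00pm_113_s3 t 15 7 1 = true := ex3_b k5_A00pm_113_s3 t42_A00pm_113_s3

theorem t44_A00pm_113_s3 : ∃ t, chk3 f_A00pm_113_s3 t 7 7 1 = true := ex3_a k4_A00pm_113_s3 t43_A00pm_113_s3

theorem t45_A00pm_113_s3 : ∃ t, chk3 f_A00pm_113_s3 t 7 3 1 = true := ex3_b k3_A00pm_113_s3 t44_A00pm_113_s3

theorem t46_A00pm_113_s3 : ∃ t, chk3 f_A00pm_113_s3 t 3 3 1 = true := ex3_a k2_A00pm_113_s3 t45_A00pm_113_s3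

theorem t47_A00pm_113_s3 : ∃ t, chk3 f_A00pm_113_s3 t 3 1 1 = true := ex3_b k1_A00pm_113_s3 t46_A00pm_113_s3

theorem t48_A00pm_113_s3 : ∃ t, chk3 f_A00pm_113_s3 t 1 1 1 = true := ex3_a k0_A00pm_113_s3 t47_A00pm_113_s3

theorem c_A00pm_113_s3 : CertF 536870912 536870912 536870912 536870912 1045395039 1503240 true true false .nn 1 1 3
    ndB0q1 ndB0q1 pcB3 cut_A00pm_113_s3 Ext.none :=
  certF0 (fam := true) (s1 := true) (s2 := false) (a := 1) (b := 1) (c := 3) (cn := .nn) (n1 := ndB0q1) (n2 := ndB0q1) (pc := pcB3) (cut := cut_A00pm_113_s3) (xt := Ext.none) (P1 := 536870912) (W1 := 536870912) (P2 := 536870912) (W2 := 536870912) (P3 := 1045395039) (W3 := 1503240)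
    rfl t48_A00pm_113_s3

theorem s_A00pm_113_s3 {κ x : ℝ} (hκ : κ * h0 = ken x) (hx : ((1045395039 : ℕ) : ℝ) / S ≤ x)
    (hx' : x ≤ (((1045395039 : ℕ) : ℝ) + (1503240 : ℕ)) / S)
    (H : CutA (VFD κ) PP tK tL pcB (Cut.of [[⟨0, 1, 0, 14155776⟩, ⟨1, 1, 0, 14155776⟩, ⟨2, 2, 0, 524288⟩], [⟨0, 0, 1, 46137344⟩, ⟨1, 1, 0, 1048576⟩, ⟨2, 1, 1, 46137344⟩, ⟨0, 0, 0, 1056440320⟩, ⟨0, 1, 0, 33457795⟩, ⟨2, 1, 0, 1056440320⟩, ⟨2, 2, 0, 33457795⟩], [⟨0, 1, 0, 1048576⟩, ⟨1, 0, 1, 46137344⟩, ⟨2, 1, 1, 46137344⟩, ⟨1, 0, 0, 1056440320⟩, ⟨1, 1, 0, 33457795⟩, ⟨2, 1, 0, 1056440320⟩, ⟨2, 2, 0, 33457795⟩]]) 1 1 3 0 0 (sgb true) (sgb false) x) :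
    AltA (VFD κ) PP tK tL pcB [⟨4, 0, 0, 3194381926⟩] 1 1 3 0 0 (sgb true) (sgb false) x :=
  strip_altAD (m := 3194381926) false rfl hκ (SH.κ0 hκ (SH.hx1 hx).le (SH.hx2 hx').le) (SH.hx1 hx).le (SH.hx2 hx') (covB01).cov (covB01).cov hx hx' c_A00pm_113_s3 H (noExt_A)

noncomputable def cut_A00pm_123_s1 : Cut := Cut.of [[⟨4, 0, 0, 1449551462⟩], [⟨0, 1, 0, 14155776⟩, ⟨1, 1, 0, 14155776⟩, ⟨2, 2, 0, 524288⟩], [⟨0, 0, 1, 46137344⟩, ⟨1, 1, 0, 1048576⟩, ⟨2, 1, 1, 46137344⟩, ⟨0, 0, 0, 1056440320⟩, ⟨0, 1, 0, 33457795⟩, ⟨2, 1, 0, 1056440320⟩, ⟨2, 2, 0, 33457795⟩], [⟨0, 1, 0, 1048576⟩, ⟨1, 0, 1, 46137344⟩, ⟨2, 1, 1, 46137344⟩, ⟨1, 0, 0, 1056440320⟩, ⟨1, 1, 0, 33457795⟩, ⟨2, 1, 0, 1056440320⟩, ⟨2, 2, 0, 33457795⟩]]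

noncomputable def f_A00pm_123_s1 : ℕ → ℕ → ℕ → ℕ → Bool := onCell 536870912 536870912 0 536870912 1045395039 1503240
    (rowF 0 true true false .npn 1 2 3 (qsf 536870912 536870912 0 536870912 3) ndB0q1 ndB0q2 pcB3 cut_A00pm_123_s1 Ext.none)

def k0_A00pm_123_s1 : ∃ t, chk3 f_A00pm_123_s1 t 1 1 1 = true :=
  ⟨(l 6), by decide +kernel⟩

theorem c_A00pm_123_s1 : CertF 536870912 536870912 0 536870912 1045395039 1503240 true true false .npn 1 2 3
    ndB0q1 ndB0q2 pcB3 cut_A00pm_123_s1 Ext.none :=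
  certF0 (fam := true) (s1 := true) (s2 := false) (a := 1) (b := 2) (c := 3) (cn := .npn) (n1 := ndB0q1) (n2 := ndB0q2) (pc := pcB3) (cut := cut_A00pm_123_s1) (xt := Ext.none) (P1 := 536870912) (W1 := 536870912) (P2 := 0) (W2 := 536870912) (P3 := 1045395039) (W3 := 1503240)
    rfl k0_A00pm_123_s1

theorem s_A00pm_123_s1 {κ x : ℝ} (hκ : κ * h0 = ken x) (hx : ((1045395039 : ℕ) : ℝ) / S ≤ x)
    (hx' : x ≤ (((1045395039 : ℕ) : ℝ) + (1503240 : ℕ)) / S)
    (H : CutA (VFD κ) PP tK tL pcB (Cut.of [[⟨0, 1, 0, 14155776⟩, ⟨1, 1, 0, 14155776⟩, ⟨2, 2, 0, 524288⟩], [⟨0, 0, 1, 46137344⟩, ⟨1, 1, 0, 1048576⟩, ⟨2, 1, 1, 46137344⟩, ⟨0, 0, 0, 1056440320⟩, ⟨0, 1, 0, 33457795⟩, ⟨2, 1, 0, 1056440320⟩, ⟨2, 2, 0, 33457795⟩], [⟨0, 1, 0, 1048576⟩, ⟨1, 0, 1, 46137344⟩, ⟨2, 1, 1, 46137344⟩, ⟨1, 0, 0, 1056440320⟩, ⟨1, 1, 0, 33457795⟩, ⟨2, 1, 0, 1056440320⟩, ⟨2, 2, 0, 33457795⟩]]) 1 2 3 0 0 (sgb true) (sgb false) x) :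
    AltA (VFD κ) PP tK tL pcB [⟨3, 0, 0, 1449551462⟩] 1 2 3 0 0 (sgb true) (sgb false) x :=
  strip_altAD (m := 1449551462) true rfl hκ (SH.κ0 hκ (SH.hx1 hx).le (SH.hx2 hx').le) (SH.hx1 hx).le (SH.hx2 hx') (covB01).cov (covB02).cov hx hx' c_A00pm_123_s1 H (noExt_A)

noncomputable def cut_A00pm_202_s1 : Cut := Cut.of [[⟨4, 0, 0, 1449551462⟩], [⟨0, 1, 0, 22369621⟩, ⟨1, 0, 0, 22369621⟩, ⟨2, 1, 0, 22369621⟩]]

noncomputable def f_A00pm_202_s1 : ℕ → ℕ → ℕ → ℕ → Bool := onCell 0 536870912 1073741824 536870912 1045395039 1503240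
    (rowF 1 true true false .pp 2 0 2 (qsf 0 536870912 0 536870912 2) ndB0q2 ndB0q0 pcB2 cut_A00pm_202_s1 Ext.none)

def k0_A00pm_202_s1 : ∃ t, chk3 f_A00pm_202_s1 t 2 1 1 = true :=
  ⟨(b (b (b (l 1) (l 6)) (l 6)) (l 6)), by decide +kernel⟩

def k1_A00pm_202_s1 : ∃ t, chk3 f_A00pm_202_s1 t 3 8 1 = true :=
  ⟨(a (l 1) (a (b (l 1) (a (b (l 1) (a (l 1) (l 16594608))) (b (a (l 1) (b (l 16540568) (l 16570624))) (a (l 16522112) (a (l 16618088) (l 16545440)))))) (b (a (b (l 1) (a (a (l 1) (b (l 1) (l 16539344))) (a (b (l 1) (l 16553016)) (b (b (l 1) (a (l 16545864) (l 16559488))) (a (l 16565008) (l 16556928)))))) (b (l 14) (b (b (l 14) (a (a (l 16548480) (a (l 16623424) (l 16647632))) (a (l 16643360) (a (l 16722152) (l 16662584))))) (a (a (b (l 16601120) (l 16613088)) (a (l 16638168) (l 16661176))) (a (b (l 16608808) (l 16618048)) (b (l 16708560) (l 16711840))))))) (a (b (a (a (l 16569976) (l 16582384)) (a (b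 (l 16581440) (l 16613704)) (b (a (l 16593936) (l 16606184)) (a (l 16626992) (l 16554744))))) (a (b (l 16544256) (l 16580536)) (a (b (l 16649432) (l 16682824)) (b (a (l 16660312) (l 16586760)) (a (l 16691160) (l 16697064)))))) (b (a (b (a (b (l 16626272) (l 16640904)) (a (l 16579024) (l 16600424))) (a (b (l 16655992) (l 16670592)) (a (l 16605104) (l 16623024)))) (b (a (b (l 16627792) (l 16637200)) (b (l 16644936) (l 16631552))) (a (b (l 16644104) (l 16629136)) (l 16612456)))) (a (a (b (l 16648688) (l 16612304)) (b (l 16629048) (l 16595256))) (a (b (l 16606080) (l 16659224)) (b (l 16669240) (l 16641616))))))))), by decide +kernel⟩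

def k2_A00pm_202_s1 : ∃ t, chk3 f_A00pm_202_s1 t 3 9 1 = true :=
  ⟨(a (a (b (l 1) (l 6)) (b (a (b (l 1) (l 16474192)) (b (a (l 16581392) (l 16580688)) (a (l 16490144) (l 16392816)))) (a (b (a (l 16479768) (l 16435288)) (l 6)) (b (a (l 16304936) (l 16284672)) (a (l 16285928) (l 16267832)))))) (a (b (a (b (a (l 16604520) (l 16536336)) (a (l 16415256) (l 16434064))) (b (a (b (l 16656800) (l 16606544)) (a (l 16553736) (l 16557680))) (a (l 16447264) (l 16549760)))) (a (b (a (l 16392584) (b (l 16440984) (l 16398280))) (l 16317168)) (a (l 16320672) (l 16347496)))) (a (b (b (a (b (l 16581720) (l 16624624)) (a (l 16565872) (a (l 16567104) (l 16566664)))) (a (l 16565664) (a (l 16575552) (b (l 16514400) (l 16564416))))) (a (b (l 16491768) (l 16422152)) (b (a (l 16506504) (b (l 16531400) (l 16499056))) (a (l 16440464) (b (l 16467184) (l 16435624)))))) (b (a (b (a (l 16601368) (a (l 16550144) (l 16542232))) (a (l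 16534576) (b (l 16582128) (l 16550800)))) (b (a (b (l 16628744) (l 16598496)) (b (l 16613600) (l 16585240))) (b (a (l 16568248) (l 16556352)) (a (l 16537920) (l 16526968))))) (a (b (a (l 16471168) (b (l 16519712) (l 16488744))) (a (l 16451248) (b (l 16457760) (l 16426600)))) (b (b (l 16501856) (l 16471232)) (b (l 16439800) (l 16408144)))))))), by decide +kernel⟩

def k3_A00pm_202_s1 : ∃ t, chk3 f_A00pm_202_s1 t 3 5 1 = true :=
  ⟨(a (b (b (a (l 6) (a (l 6) (a (l 6) (b (l 16178280) (l 6))))) (l 6)) (l 6)) (a (b (b (a (b (l 16232368) (l 16152080)) (a (l 16250808) (l 16202576))) (a (b (l 6) (l 6)) (b (l 16162608) (l 16094208)))) (l 6)) (b (a (b (b (a (l 16354656) (b (l 16398712) (l 16366784))) (a (l 16288008) (l 16319328))) (b (l 16240944) (l 16180344))) (b (b (a (a (a (l 16391056) (l 16387496)) (l 16379288)) (b (l 16376016) (l 16343352))) (b (a (a (l 16342896) (l 16332056)) (l 16310456)) (b (a (l 16313008)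 (l 16285064)) (a (b (l 16301080) (a (b (l 16261952) (l 16299664)) (l 16287800))) (b (l 16271136) (l 16261632)))))) (a (b (l 16261664) (l 16207872)) (l 16205536)))) (a (b (l 16094720) (l 6)) (a (b (l 16131744) (l 6)) (l 16064728)))))), by decide +kernel⟩

def k4_A00pm_202_s1 : ∃ t, chk3 f_A00pm_202_s1 t 3 3 1 = true :=
  ⟨(l 6), by decide +kernel⟩

theorem t5_A00pm_202_s1 : ∃ t, chk3 f_A00pm_202_s1 t 3 4 1 = true := ex3_b k1_A00pm_202_s1 k2_A00pm_202_s1

theorem t6_A00pm_202_s1 : ∃ t, chk3 f_A00pm_202_s1 t 3 2 1 = true := ex3_b t5_A00pm_202_s1 k3_A00pm_202_s1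

theorem t7_A00pm_202_s1 : ∃ t, chk3 f_A00pm_202_s1 t 3 1 1 = true := ex3_b t6_A00pm_202_s1 k4_A00pm_202_s1

theorem t8_A00pm_202_s1 : ∃ t, chk3 f_A00pm_202_s1 t 1 1 1 = true := ex3_a k0_A00pm_202_s1 t7_A00pm_202_s1

theorem c_A00pm_202_s1 : CertF 0 536870912 0 536870912 1045395039 1503240 true true false .pp 2 0 2
    ndB0q2 ndB0q0 pcB2 cut_A00pm_202_s1 Ext.none :=
  certF1 (fam := true) (s1 := true) (s2 := false) (a := 2) (b := 0) (c := 2) (cn := .pp) (n1 := ndB0q2) (n2 := ndB0q0) (pc := pcB2) (cut := cut_A00pm_202_s1) (xt := Ext.none) (P1 := 0) (W1 := 536870912) (P2 := 0) (W2 := 536870912) (P3 := 1045395039) (W3 := 1503240)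
    rfl (fun _ => rfl) t8_A00pm_202_s1

theorem s_A00pm_202_s1 {κ x : ℝ} (hκ : κ * h0 = ken x) (hx : ((1045395039 : ℕ) : ℝ) / S ≤ x)
    (hx' : x ≤ (((1045395039 : ℕ) : ℝ) + (1503240 : ℕ)) / S)
    (H : CutA (VFD κ) PP tK tL pcB (Cut.of [[⟨0, 1, 0, 22369621⟩, ⟨1, 0, 0, 22369621⟩, ⟨2, 1, 0, 22369621⟩]]) 2 0 2 0 0 (sgb true) (sgb false) x) :
    AltA (VFD κ) PP tK tL pcB [⟨3, 0, 0, 1449551462⟩] 2 0 2 0 0 (sgb true) (sgb false) x :=
  strip_altAD (m := 1449551462) true rfl hκ (SH.κ0 hκ (SH.hx1 hx).le (SH.hx2 hx').le) (SH.hx1 hx).le (SH.hx2 hx') (covB02).cov (covB00).cov hx hx' c_A00pm_202_s1 H (noExt_A)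

noncomputable def cut_A00pm_202_s3 : Cut := Cut.of [[⟨3, 0, 0, 2845415833⟩], [⟨0, 1, 0, 22369621⟩, ⟨1, 0, 0, 22369621⟩, ⟨2, 1, 0, 22369621⟩]]

noncomputable def f_A00pm_202_s3 : ℕ → ℕ → ℕ → ℕ → Bool := onCell 0 536870912 1073741824 536870912 1045395039 1503240
    (rowF 1 true true false .pp 2 0 2 (qsf 0 536870912 0 536870912 2) ndB0q2 ndB0q0 pcB2 cut_A00pm_202_s3 Ext.none)

def k0_A00pm_202_s3 : ∃ t, chk3 f_A00pm_202_s3 t 1 1 1 = true :=
  ⟨(a (b (l 6) (l 6)) (l 6)), by decide +kernel⟩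

theorem c_A00pm_202_s3 : CertF 0 536870912 0 536870912 1045395039 1503240 true true false .pp 2 0 2
    ndB0q2 ndB0q0 pcB2 cut_A00pm_202_s3 Ext.none :=
  certF1 (fam := true) (s1 := true) (s2 := false) (a := 2) (b := 0) (c := 2) (cn := .pp) (n1 := ndB0q2) (n2 := ndB0q0) (pc := pcB2) (cut := cut_A00pm_202_s3) (xt := Ext.none) (P1 := 0) (W1 := 536870912) (P2 := 0) (W2 := 536870912) (P3 := 1045395039) (W3 := 1503240)
    rfl (fun _ => rfl) k0_A00pm_202_s3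

theorem s_A00pm_202_s3 {κ x : ℝ} (hκ : κ * h0 = ken x) (hx : ((1045395039 : ℕ) : ℝ) / S ≤ x)
    (hx' : x ≤ (((1045395039 : ℕ) : ℝ) + (1503240 : ℕ)) / S)
    (H : CutA (VFD κ) PP tK tL pcB (Cut.of [[⟨0, 1, 0, 22369621⟩, ⟨1, 0, 0, 22369621⟩, ⟨2, 1, 0, 22369621⟩]]) 2 0 2 0 0 (sgb true) (sgb false) x) :
    AltA (VFD κ) PP tK tL pcB [⟨4, 0, 0, 2845415833⟩] 2 0 2 0 0 (sgb true) (sgb false) x :=
  strip_altAD (m := 2845415833) false rfl hκ (SH.κ0 hκ (SH.hx1 hx).le (SH.hx2 hx').le) (SH.hx1 hx).le (SH.hx2 hx') (covB02).cov (covB00).cov hx hx' c_A00pm_202_s3 H (noExt_A)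

noncomputable def cut_A00pm_203_s1 : Cut := Cut.of [[⟨4, 0, 0, 1449551462⟩]]

noncomputable def f_A00pm_203_s1 : ℕ → ℕ → ℕ → ℕ → Bool := onCell 0 536870912 1610612736 536870912 1045395039 1503240
    (rowF 1 true true false .up 2 0 3 (qsf 0 536870912 0 536870912 3) ndB0q2 ndB0q0 pcB3 cut_A00pm_203_s1 Ext.none)

def k0_A00pm_203_s1 : ∃ t, chk3 f_A00pm_203_s1 t 1 1 1 = true :=
  ⟨(l 6), by decide +kernel⟩

theorem c_A00pm_203_s1 : CertF 0 536870912 0 536870912 1045395039 1503240 true true false .up 2 0 3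
    ndB0q2 ndB0q0 pcB3 cut_A00pm_203_s1 Ext.none :=
  certF1 (fam := true) (s1 := true) (s2 := false) (a := 2) (b := 0) (c := 3) (cn := .up) (n1 := ndB0q2) (n2 := ndB0q0) (pc := pcB3) (cut := cut_A00pm_203_s1) (xt := Ext.none) (P1 := 0) (W1 := 536870912) (P2 := 0) (W2 := 536870912) (P3 := 1045395039) (W3 := 1503240)
    rfl (fun _ => rfl) k0_A00pm_203_s1

theorem s_A00pm_203_s1 {κ x : ℝ} (hκ : κ * h0 = ken x) (hx : ((1045395039 : ℕ) : ℝ) / S ≤ x)
    (hx' : x ≤ (((1045395039 : ℕ) : ℝ) + (1503240 : ℕ)) / S) :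
    AltA (VFD κ) PP tK tL pcB [⟨3, 0, 0, 1449551462⟩] 2 0 3 0 0 (sgb true) (sgb false) x :=
  strip_altAD (m := 1449551462) true rfl hκ (SH.κ0 hκ (SH.hx1 hx).le (SH.hx2 hx').le) (SH.hx1 hx).le (SH.hx2 hx') (covB02).cov (covB00).cov hx hx' c_A00pm_203_s1 cutA_nil (noExt_A)

noncomputable def cut_A00pm_203_s3 : Cut := Cut.of [[⟨3, 0, 0, 2845415833⟩]]

noncomputable def f_A00pm_203_s3 : ℕ → ℕ → ℕ → ℕ → Bool := onCell 0 536870912 0 536870912 1045395039 1503240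
    (rowF 0 true true false .up 2 0 3 (qsf 0 536870912 0 536870912 3) ndB0q2 ndB0q0 pcB3 cut_A00pm_203_s3 Ext.none)

def k0_A00pm_203_s3 : ∃ t, chk3 f_A00pm_203_s3 t 1 1 1 = true :=
  ⟨(a (b (l 1) (b (a (b (l 1) (a (b (l 1) (l 16607864)) (l 6))) (l 6)) (a (b (a (b (l 16647136) (l 16646888)) (l 6)) (a (b (l 16657136) (b (l 16670000) (l 16596576))) (b (a (l 16616368) (l 6)) (a (l 16631928) (b (l 16592640) (l 16602784)))))) (b (l 6) (l 6))))) (l 6)), by decide +kernel⟩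

theorem c_A00pm_203_s3 : CertF 0 536870912 0 536870912 1045395039 1503240 true true false .up 2 0 3
    ndB0q2 ndB0q0 pcB3 cut_A00pm_203_s3 Ext.none :=
  certF0 (fam := true) (s1 := true) (s2 := false) (a := 2) (b := 0) (c := 3) (cn := .up) (n1 := ndB0q2) (n2 := ndB0q0) (pc := pcB3) (cut := cut_A00pm_203_s3) (xt := Ext.none) (P1 := 0) (W1 := 536870912) (P2 := 0) (W2 := 536870912) (P3 := 1045395039) (W3 := 1503240)
    rfl k0_A00pm_203_s3

theorem s_A00pm_203_s3 {κ x : ℝ} (hκ : κ * h0 = ken x) (hx : ((1045395039 : ℕ) : ℝ) / S ≤ x)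
    (hx' : x ≤ (((1045395039 : ℕ) : ℝ) + (1503240 : ℕ)) / S) :
    AltA (VFD κ) PP tK tL pcB [⟨4, 0, 0, 2845415833⟩] 2 0 3 0 0 (sgb true) (sgb false) x :=
  strip_altAD (m := 2845415833) false rfl hκ (SH.κ0 hκ (SH.hx1 hx).le (SH.hx2 hx').le) (SH.hx1 hx).le (SH.hx2 hx') (covB02).cov (covB00).cov hx hx' c_A00pm_203_s3 cutA_nil (noExt_A)

noncomputable def cut_A00pm_213_s1 : Cut := Cut.of [[⟨4, 0, 0, 1449551462⟩], [⟨0, 1, 0, 14155776⟩, ⟨1, 1, 0, 14155776⟩, ⟨2, 2, 0, 524288⟩], [⟨0, 0, 1, 46137344⟩, ⟨1, 1, 0, 1048576⟩, ⟨2, 1, 1, 46137344⟩, ⟨0, 0, 0, 1056440320⟩, ⟨0, 1, 0, 33457795⟩, ⟨2, 1, 0, 1056440320⟩, ⟨2, 2, 0, 33457795⟩], [⟨0, 1, 0, 1048576⟩, ⟨1, 0, 1, 46137344⟩, ⟨2, 1, 1, 46137344⟩, ⟨1, 0, 0, 1056440320⟩, ⟨1, 1, 0, 33457795⟩, ⟨2, 1, 0, 1056440320⟩, ⟨2, 2, 0, 33457795⟩]]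

noncomputable def f_A00pm_213_s1 : ℕ → ℕ → ℕ → ℕ → Bool := onCell 0 536870912 536870912 536870912 1045395039 1503240
    (rowF 0 true true false .pnn 2 1 3 (qsf 0 536870912 536870912 536870912 3) ndB0q2 ndB0q1 pcB3 cut_A00pm_213_s1 Ext.none)

def k0_A00pm_213_s1 : ∃ t, chk3 f_A00pm_213_s1 t 1 1 1 = true :=
  ⟨(l 6), by decide +kernel⟩

theorem c_A00pm_213_s1 : CertF 0 536870912 536870912 536870912 1045395039 1503240 true true false .pnn 2 1 3
    ndB0q2 ndB0q1 pcB3 cut_A00pm_213_s1 Ext.none :=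
  certF0 (fam := true) (s1 := true) (s2 := false) (a := 2) (b := 1) (c := 3) (cn := .pnn) (n1 := ndB0q2) (n2 := ndB0q1) (pc := pcB3) (cut := cut_A00pm_213_s1) (xt := Ext.none) (P1 := 0) (W1 := 536870912) (P2 := 536870912) (W2 := 536870912) (P3 := 1045395039) (W3 := 1503240)
    rfl k0_A00pm_213_s1

theorem s_A00pm_213_s1 {κ x : ℝ} (hκ : κ * h0 = ken x) (hx : ((1045395039 : ℕ) : ℝ) / S ≤ x)
    (hx' : x ≤ (((1045395039 : ℕ) : ℝ) + (1503240 : ℕ)) / S)
    (H : CutA (VFD κ) PP tK tL pcB (Cut.of [[⟨0, 1, 0, 14155776⟩, ⟨1, 1, 0, 14155776⟩, ⟨2, 2, 0, 524288⟩], [⟨0, 0, 1, 46137344⟩, ⟨1, 1, 0, 1048576⟩, ⟨2, 1, 1, 46137344⟩, ⟨0, 0, 0, 1056440320⟩, ⟨0, 1, 0, 33457795⟩, ⟨2, 1, 0, 1056440320⟩, ⟨2, 2, 0, 33457795⟩], [⟨0, 1, 0, 1048576⟩, ⟨1, 0, 1, 46137344⟩, ⟨2, 1, 1, 46137344⟩, ⟨1, 0, 0, 1056440320⟩, ⟨1, 1, 0, 33457795⟩, ⟨2, 1, 0, 1056440320⟩, ⟨2, 2, 0, 33457795⟩]]) 2 1 3 0 0 (sgb true) (sgb false) x) :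
    AltA (VFD κ) PP tK tL pcB [⟨3, 0, 0, 1449551462⟩] 2 1 3 0 0 (sgb true) (sgb false) x :=
  strip_altAD (m := 1449551462) true rfl hκ (SH.κ0 hκ (SH.hx1 hx).le (SH.hx2 hx').le) (SH.hx1 hx).le (SH.hx2 hx') (covB02).cov (covB01).cov hx hx' c_A00pm_213_s1 H (noExt_A)

noncomputable def cut_A00mm_001_s1 : Cut := Cut.of [[⟨4, 0, 0, 1449551462⟩]]

noncomputable def f_A00mm_001_s1 : ℕ → ℕ → ℕ → ℕ → Bool := onCell 0 536870912 0 536870912 1045395039 1503240
    (rowF 0 true false false .up 0 0 1 (qsf 0 536870912 0 536870912 1) ndB0q0 ndB0q0 pcB1 cut_A00mm_001_s1 Ext.none)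

def k0_A00mm_001_s1 : ∃ t, chk3 f_A00mm_001_s1 t 1 1 1 = true :=
  ⟨(l 4), by decide +kernel⟩

theorem c_A00mm_001_s1 : CertF 0 536870912 0 536870912 1045395039 1503240 true false false .up 0 0 1
    ndB0q0 ndB0q0 pcB1 cut_A00mm_001_s1 Ext.none :=
  certF0 (fam := true) (s1 := false) (s2 := false) (a := 0) (b := 0) (c := 1) (cn := .up) (n1 := ndB0q0) (n2 := ndB0q0) (pc := pcB1) (cut := cut_A00mm_001_s1) (xt := Ext.none) (P1 := 0) (W1 := 536870912) (P2 := 0) (W2 := 536870912) (P3 := 1045395039) (W3 := 1503240)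
    rfl k0_A00mm_001_s1

theorem s_A00mm_001_s1 {κ x : ℝ} (hκ : κ * h0 = ken x) (hx : ((1045395039 : ℕ) : ℝ) / S ≤ x)
    (hx' : x ≤ (((1045395039 : ℕ) : ℝ) + (1503240 : ℕ)) / S) :
    AltA (VFD κ) PP tK tL pcB [⟨3, 0, 0, 1449551462⟩] 0 0 1 0 0 (sgb false) (sgb false) x :=
  strip_altAD (m := 1449551462) true rfl hκ (SH.κ0 hκ (SH.hx1 hx).le (SH.hx2 hx').le) (SH.hx1 hx).le (SH.hx2 hx') (covB00).cov (covB00).cov hx hx' c_A00mm_001_s1 cutA_nil (noExt_A)

noncomputable def cut_A00mm_001_s3 : Cut := Cut.of [[⟨3, 0, 0, 2845415833⟩]]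

noncomputable def f_A00mm_001_s3 : ℕ → ℕ → ℕ → ℕ → Bool := onCell 0 536870912 0 536870912 1045395039 1503240
    (rowF 0 true false false .up 0 0 1 (qsf 0 536870912 0 536870912 1) ndB0q0 ndB0q0 pcB1 cut_A00mm_001_s3 Ext.none)

def k0_A00mm_001_s3 : ∃ t, chk3 f_A00mm_001_s3 t 1 1 1 = true :=
  ⟨(l 4), by decide +kernel⟩

theorem c_A00mm_001_s3 : CertF 0 536870912 0 536870912 1045395039 1503240 true false false .up 0 0 1
    ndB0q0 ndB0q0 pcB1 cut_A00mm_001_s3 Ext.none :=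
  certF0 (fam := true) (s1 := false) (s2 := false) (a := 0) (b := 0) (c := 1) (cn := .up) (n1 := ndB0q0) (n2 := ndB0q0) (pc := pcB1) (cut := cut_A00mm_001_s3) (xt := Ext.none) (P1 := 0) (W1 := 536870912) (P2 := 0) (W2 := 536870912) (P3 := 1045395039) (W3 := 1503240)
    rfl k0_A00mm_001_s3

theorem s_A00mm_001_s3 {κ x : ℝ} (hκ : κ * h0 = ken x) (hx : ((1045395039 : ℕ) : ℝ) / S ≤ x)
    (hx' : x ≤ (((1045395039 : ℕ) : ℝ) + (1503240 : ℕ)) / S) :
    AltA (VFD κ) PP tK tL pcB [⟨4, 0, 0, 2845415833⟩] 0 0 1 0 0 (sgb false) (sgb false) x :=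
  strip_altAD (m := 2845415833) false rfl hκ (SH.κ0 hκ (SH.hx1 hx).le (SH.hx2 hx').le) (SH.hx1 hx).le (SH.hx2 hx') (covB00).cov (covB00).cov hx hx' c_A00mm_001_s3 cutA_nil (noExt_A)

noncomputable def cut_A00mm_011_s1 : Cut := Cut.of [[⟨4, 0, 0, 1449551462⟩]]

noncomputable def f_A00mm_011_s1 : ℕ → ℕ → ℕ → ℕ → Bool := onCell 0 536870912 536870912 536870912 1045395039 1503240
    (rowF 0 true false false .pnn 0 1 1 (qsf 0 536870912 536870912 536870912 1) ndB0q0 ndB0q1 pcB1 cut_A00mm_011_s1 Ext.none)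

def k0_A00mm_011_s1 : ∃ t, chk3 f_A00mm_011_s1 t 1 1 1 = true :=
  ⟨(l 6), by decide +kernel⟩

theorem c_A00mm_011_s1 : CertF 0 536870912 536870912 536870912 1045395039 1503240 true false false .pnn 0 1 1
    ndB0q0 ndB0q1 pcB1 cut_A00mm_011_s1 Ext.none :=
  certF0 (fam := true) (s1 := false) (s2 := false) (a := 0) (b := 1) (c := 1) (cn := .pnn) (n1 := ndB0q0) (n2 := ndB0q1) (pc := pcB1) (cut := cut_A00mm_011_s1) (xt := Ext.none) (P1 := 0) (W1 := 536870912) (P2 := 536870912) (W2 := 536870912) (P3 := 1045395039) (W3 := 1503240)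
    rfl k0_A00mm_011_s1

theorem s_A00mm_011_s1 {κ x : ℝ} (hκ : κ * h0 = ken x) (hx : ((1045395039 : ℕ) : ℝ) / S ≤ x)
    (hx' : x ≤ (((1045395039 : ℕ) : ℝ) + (1503240 : ℕ)) / S) :
    AltA (VFD κ) PP tK tL pcB [⟨3, 0, 0, 1449551462⟩] 0 1 1 0 0 (sgb false) (sgb false) x :=
  strip_altAD (m := 1449551462) true rfl hκ (SH.κ0 hκ (SH.hx1 hx).le (SH.hx2 hx').le) (SH.hx1 hx).le (SH.hx2 hx') (covB00).cov (covB01).cov hx hx' c_A00mm_011_s1 cutA_nil (noExt_A)

noncomputable def cut_A00mm_011_s3 : Cut := Cut.of [[⟨3, 0, 0, 2845415833⟩]]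

noncomputable def f_A00mm_011_s3 : ℕ → ℕ → ℕ → ℕ → Bool := onCell 0 536870912 536870912 536870912 1045395039 1503240
    (rowF 0 true false false .pnn 0 1 1 (qsf 0 536870912 536870912 536870912 1) ndB0q0 ndB0q1 pcB1 cut_A00mm_011_s3 Ext.none)

def k0_A00mm_011_s3 : ∃ t, chk3 f_A00mm_011_s3 t 1 1 1 = true :=
  ⟨(b (l 4) (l 5)), by decide +kernel⟩

theorem c_A00mm_011_s3 : CertF 0 536870912 536870912 536870912 1045395039 1503240 true false false .pnn 0 1 1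
    ndB0q0 ndB0q1 pcB1 cut_A00mm_011_s3 Ext.none :=
  certF0 (fam := true) (s1 := false) (s2 := false) (a := 0) (b := 1) (c := 1) (cn := .pnn) (n1 := ndB0q0) (n2 := ndB0q1) (pc := pcB1) (cut := cut_A00mm_011_s3) (xt := Ext.none) (P1 := 0) (W1 := 536870912) (P2 := 536870912) (W2 := 536870912) (P3 := 1045395039) (W3 := 1503240)
    rfl k0_A00mm_011_s3

theorem s_A00mm_011_s3 {κ x : ℝ} (hκ : κ * h0 = ken x) (hx : ((1045395039 : ℕ) : ℝ) / S ≤ x)
    (hx' : x ≤ (((1045395039 : ℕ) : ℝ) + (1503240 : ℕ)) / S) :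
    AltA (VFD κ) PP tK tL pcB [⟨4, 0, 0, 2845415833⟩] 0 1 1 0 0 (sgb false) (sgb false) x :=
  strip_altAD (m := 2845415833) false rfl hκ (SH.κ0 hκ (SH.hx1 hx).le (SH.hx2 hx').le) (SH.hx1 hx).le (SH.hx2 hx') (covB00).cov (covB01).cov hx hx' c_A00mm_011_s3 cutA_nil (noExt_A)

noncomputable def cut_A00mm_012_s1 : Cut := Cut.of [[⟨4, 0, 0, 1449551462⟩]]

noncomputable def f_A00mm_012_s1 : ℕ → ℕ → ℕ → ℕ → Bool := onCell 0 536870912 536870912 536870912 1045395039 1503240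
    (rowF 0 true false false .pnp 0 1 2 (qsf 0 536870912 536870912 536870912 2) ndB0q0 ndB0q1 pcB2 cut_A00mm_012_s1 Ext.none)

def k0_A00mm_012_s1 : ∃ t, chk3 f_A00mm_012_s1 t 1 1 1 = true :=
  ⟨(l 6), by decide +kernel⟩

theorem c_A00mm_012_s1 : CertF 0 536870912 536870912 536870912 1045395039 1503240 true false false .pnp 0 1 2
    ndB0q0 ndB0q1 pcB2 cut_A00mm_012_s1 Ext.none :=
  certF0 (fam := true) (s1 := false) (s2 := false) (a := 0) (b := 1) (c := 2) (cn := .pnp) (n1 := ndB0q0) (n2 := ndB0q1) (pc := pcB2) (cut := cut_A00mm_012_s1) (xt := Ext.none) (P1 := 0) (W1 := 536870912) (P2 := 536870912) (W2 := 536870912) (P3 := 1045395039) (W3 := 1503240)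
    rfl k0_A00mm_012_s1

theorem s_A00mm_012_s1 {κ x : ℝ} (hκ : κ * h0 = ken x) (hx : ((1045395039 : ℕ) : ℝ) / S ≤ x)
    (hx' : x ≤ (((1045395039 : ℕ) : ℝ) + (1503240 : ℕ)) / S) :
    AltA (VFD κ) PP tK tL pcB [⟨3, 0, 0, 1449551462⟩] 0 1 2 0 0 (sgb false) (sgb false) x :=
  strip_altAD (m := 1449551462) true rfl hκ (SH.κ0 hκ (SH.hx1 hx).le (SH.hx2 hx').le) (SH.hx1 hx).le (SH.hx2 hx') (covB00).cov (covB01).cov hx hx' c_A00mm_012_s1 cutA_nil (noExt_A)

noncomputable def cut_A00mm_012_s3 : Cut := Cut.of [[⟨3, 0, 0, 2845415833⟩]]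

noncomputable def f_A00mm_012_s3 : ℕ → ℕ → ℕ → ℕ → Bool := onCell 0 536870912 536870912 536870912 1045395039 1503240
    (rowF 0 true false false .pnp 0 1 2 (qsf 0 536870912 536870912 536870912 2) ndB0q0 ndB0q1 pcB2 cut_A00mm_012_s3 Ext.none)

def k0_A00mm_012_s3 : ∃ t, chk3 f_A00mm_012_s3 t 1 1 1 = true :=
  ⟨(b (l 4) (l 5)), by decide +kernel⟩

theorem c_A00mm_012_s3 : CertF 0 536870912 536870912 536870912 1045395039 1503240 true false false .pnp 0 1 2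
    ndB0q0 ndB0q1 pcB2 cut_A00mm_012_s3 Ext.none :=
  certF0 (fam := true) (s1 := false) (s2 := false) (a := 0) (b := 1) (c := 2) (cn := .pnp) (n1 := ndB0q0) (n2 := ndB0q1) (pc := pcB2) (cut := cut_A00mm_012_s3) (xt := Ext.none) (P1 := 0) (W1 := 536870912) (P2 := 536870912) (W2 := 536870912) (P3 := 1045395039) (W3 := 1503240)
    rfl k0_A00mm_012_s3

theorem s_A00mm_012_s3 {κ x : ℝ} (hκ : κ * h0 = ken x) (hx : ((1045395039 : ℕ) : ℝ) / S ≤ x)
    (hx' : x ≤ (((1045395039 : ℕ) : ℝ) + (1503240 : ℕ)) / S) :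
    AltA (VFD κ) PP tK tL pcB [⟨4, 0, 0, 2845415833⟩] 0 1 2 0 0 (sgb false) (sgb false) x :=
  strip_altAD (m := 2845415833) false rfl hκ (SH.κ0 hκ (SH.hx1 hx).le (SH.hx2 hx').le) (SH.hx1 hx).le (SH.hx2 hx') (covB00).cov (covB01).cov hx hx' c_A00mm_012_s3 cutA_nil (noExt_A)

noncomputable def cut_A00mm_022_s1 : Cut := Cut.of [[⟨4, 0, 0, 1449551462⟩]]

noncomputable def f_A00mm_022_s1 : ℕ → ℕ → ℕ → ℕ → Bool := onCell 0 536870912 0 536870912 1045395039 1503240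
    (rowF 0 true false false .pp 0 2 2 (qsf 0 536870912 0 536870912 2) ndB0q0 ndB0q2 pcB2 cut_A00mm_022_s1 Ext.none)

def k0_A00mm_022_s1 : ∃ t, chk3 f_A00mm_022_s1 t 1 1 1 = true :=
  ⟨(l 5), by decide +kernel⟩

theorem c_A00mm_022_s1 : CertF 0 536870912 0 536870912 1045395039 1503240 true false false .pp 0 2 2
    ndB0q0 ndB0q2 pcB2 cut_A00mm_022_s1 Ext.none :=
  certF0 (fam := true) (s1 := false) (s2 := false) (a := 0) (b := 2) (c := 2) (cn := .pp) (n1 := ndB0q0) (n2 := ndB0q2) (pc := pcB2) (cut := cut_A00mm_022_s1) (xt := Ext.none) (P1 := 0) (W1 := 536870912) (P2 := 0) (W2 := 536870912) (P3 := 1045395039) (W3 := 1503240)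
    rfl k0_A00mm_022_s1

theorem s_A00mm_022_s1 {κ x : ℝ} (hκ : κ * h0 = ken x) (hx : ((1045395039 : ℕ) : ℝ) / S ≤ x)
    (hx' : x ≤ (((1045395039 : ℕ) : ℝ) + (1503240 : ℕ)) / S) :
    AltA (VFD κ) PP tK tL pcB [⟨3, 0, 0, 1449551462⟩] 0 2 2 0 0 (sgb false) (sgb false) x :=
  strip_altAD (m := 1449551462) true rfl hκ (SH.κ0 hκ (SH.hx1 hx).le (SH.hx2 hx').le) (SH.hx1 hx).le (SH.hx2 hx') (covB00).cov (covB02).cov hx hx' c_A00mm_022_s1 cutA_nil (noExt_A)

noncomputable def cut_A00mm_022_s3 : Cut := Cut.of [[⟨3, 0, 0, 2845415833⟩]]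

noncomputable def f_A00mm_022_s3 : ℕ → ℕ → ℕ → ℕ → Bool := onCell 0 536870912 0 536870912 1045395039 1503240
    (rowF 0 true false false .pp 0 2 2 (qsf 0 536870912 0 536870912 2) ndB0q0 ndB0q2 pcB2 cut_A00mm_022_s3 Ext.none)

def k0_A00mm_022_s3 : ∃ t, chk3 f_A00mm_022_s3 t 1 1 1 = true :=
  ⟨(l 5), by decide +kernel⟩

theorem c_A00mm_022_s3 : CertF 0 536870912 0 536870912 1045395039 1503240 true false false .pp 0 2 2
    ndB0q0 ndB0q2 pcB2 cut_A00mm_022_s3 Ext.none :=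
  certF0 (fam := true) (s1 := false) (s2 := false) (a := 0) (b := 2) (c := 2) (cn := .pp) (n1 := ndB0q0) (n2 := ndB0q2) (pc := pcB2) (cut := cut_A00mm_022_s3) (xt := Ext.none) (P1 := 0) (W1 := 536870912) (P2 := 0) (W2 := 536870912) (P3 := 1045395039) (W3 := 1503240)
    rfl k0_A00mm_022_s3

theorem s_A00mm_022_s3 {κ x : ℝ} (hκ : κ * h0 = ken x) (hx : ((1045395039 : ℕ) : ℝ) / S ≤ x)
    (hx' : x ≤ (((1045395039 : ℕ) : ℝ) + (1503240 : ℕ)) / S) :
    AltA (VFD κ) PP tK tL pcB [⟨4, 0, 0, 2845415833⟩] 0 2 2 0 0 (sgb false) (sgb false) x :=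
  strip_altAD (m := 2845415833) false rfl hκ (SH.κ0 hκ (SH.hx1 hx).le (SH.hx2 hx').le) (SH.hx1 hx).le (SH.hx2 hx') (covB00).cov (covB02).cov hx hx' c_A00mm_022_s3 cutA_nil (noExt_A)

noncomputable def cut_A00mm_023_s1 : Cut := Cut.of [[⟨4, 0, 0, 1449551462⟩]]

noncomputable def f_A00mm_023_s1 : ℕ → ℕ → ℕ → ℕ → Bool := onCell 0 536870912 0 536870912 1045395039 1503240
    (rowF 0 true false false .up 0 2 3 (qsf 0 536870912 0 536870912 3) ndB0q0 ndB0q2 pcB3 cut_A00mm_023_s1 Ext.none)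

def k0_A00mm_023_s1 : ∃ t, chk3 f_A00mm_023_s1 t 1 1 1 = true :=
  ⟨(l 5), by decide +kernel⟩

theorem c_A00mm_023_s1 : CertF 0 536870912 0 536870912 1045395039 1503240 true false false .up 0 2 3
    ndB0q0 ndB0q2 pcB3 cut_A00mm_023_s1 Ext.none :=
  certF0 (fam := true) (s1 := false) (s2 := false) (a := 0) (b := 2) (c := 3) (cn := .up) (n1 := ndB0q0) (n2 := ndB0q2) (pc := pcB3) (cut := cut_A00mm_023_s1) (xt := Ext.none) (P1 := 0) (W1 := 536870912) (P2 := 0) (W2 := 536870912) (P3 := 1045395039) (W3 := 1503240)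
    rfl k0_A00mm_023_s1

theorem s_A00mm_023_s1 {κ x : ℝ} (hκ : κ * h0 = ken x) (hx : ((1045395039 : ℕ) : ℝ) / S ≤ x)
    (hx' : x ≤ (((1045395039 : ℕ) : ℝ) + (1503240 : ℕ)) / S) :
    AltA (VFD κ) PP tK tL pcB [⟨3, 0, 0, 1449551462⟩] 0 2 3 0 0 (sgb false) (sgb false) x :=
  strip_altAD (m := 1449551462) true rfl hκ (SH.κ0 hκ (SH.hx1 hx).le (SH.hx2 hx').le) (SH.hx1 hx).le (SH.hx2 hx') (covB00).cov (covB02).cov hx hx' c_A00mm_023_s1 cutA_nil (noExt_A)

noncomputable def cut_A00mm_023_s3 : Cut := Cut.of [[⟨3, 0, 0, 2845415833⟩]]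

noncomputable def f_A00mm_023_s3 : ℕ → ℕ → ℕ → ℕ → Bool := onCell 0 536870912 0 536870912 1045395039 1503240
    (rowF 0 true false false .up 0 2 3 (qsf 0 536870912 0 536870912 3) ndB0q0 ndB0q2 pcB3 cut_A00mm_023_s3 Ext.none)

def k0_A00mm_023_s3 : ∃ t, chk3 f_A00mm_023_s3 t 1 1 1 = true :=
  ⟨(l 5), by decide +kernel⟩

theorem c_A00mm_023_s3 : CertF 0 536870912 0 536870912 1045395039 1503240 true false false .up 0 2 3
    ndB0q0 ndB0q2 pcB3 cut_A00mm_023_s3 Ext.none :=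
  certF0 (fam := true) (s1 := false) (s2 := false) (a := 0) (b := 2) (c := 3) (cn := .up) (n1 := ndB0q0) (n2 := ndB0q2) (pc := pcB3) (cut := cut_A00mm_023_s3) (xt := Ext.none) (P1 := 0) (W1 := 536870912) (P2 := 0) (W2 := 536870912) (P3 := 1045395039) (W3 := 1503240)
    rfl k0_A00mm_023_s3

theorem s_A00mm_023_s3 {κ x : ℝ} (hκ : κ * h0 = ken x) (hx : ((1045395039 : ℕ) : ℝ) / S ≤ x)
    (hx' : x ≤ (((1045395039 : ℕ) : ℝ) + (1503240 : ℕ)) / S) :
    AltA (VFD κ) PP tK tL pcB [⟨4, 0, 0, 2845415833⟩] 0 2 3 0 0 (sgb false) (sgb false) x :=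
  strip_altAD (m := 2845415833) false rfl hκ (SH.κ0 hκ (SH.hx1 hx).le (SH.hx2 hx').le) (SH.hx1 hx).le (SH.hx2 hx') (covB00).cov (covB02).cov hx hx' c_A00mm_023_s3 cutA_nil (noExt_A)

noncomputable def cut_A00mm_101_s1 : Cut := Cut.of [[⟨4, 0, 0, 1449551462⟩], [⟨0, 1, 0, 26843545⟩, ⟨1, 0, 0, 26843545⟩, ⟨2, 1, 0, 26843545⟩]]

noncomputable def f_A00mm_101_s1 : ℕ → ℕ → ℕ → ℕ → Bool := onCell 536870912 536870912 0 536870912 1045395039 1503240
    (rowF 0 true false false .npn 1 0 1 (qsf 536870912 536870912 0 536870912 1) ndB0q1 ndB0q0 pcB1 cut_A00mm_101_s1 Ext.none)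

def k0_A00mm_101_s1 : ∃ t, chk3 f_A00mm_101_s1 t 1 1 1 = true :=
  ⟨(l 6), by decide +kernel⟩

theorem c_A00mm_101_s1 : CertF 536870912 536870912 0 536870912 1045395039 1503240 true false false .npn 1 0 1
    ndB0q1 ndB0q0 pcB1 cut_A00mm_101_s1 Ext.none :=
  certF0 (fam := true) (s1 := false) (s2 := false) (a := 1) (b := 0) (c := 1) (cn := .npn) (n1 := ndB0q1) (n2 := ndB0q0) (pc := pcB1) (cut := cut_A00mm_101_s1) (xt := Ext.none) (P1 := 536870912) (W1 := 536870912) (P2 := 0) (W2 := 536870912) (P3 := 1045395039) (W3 := 1503240)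
    rfl k0_A00mm_101_s1

theorem s_A00mm_101_s1 {κ x : ℝ} (hκ : κ * h0 = ken x) (hx : ((1045395039 : ℕ) : ℝ) / S ≤ x)
    (hx' : x ≤ (((1045395039 : ℕ) : ℝ) + (1503240 : ℕ)) / S)
    (H : CutA (VFD κ) PP tK tL pcB (Cut.of [[⟨0, 1, 0, 26843545⟩, ⟨1, 0, 0, 26843545⟩, ⟨2, 1, 0, 26843545⟩]]) 1 0 1 0 0 (sgb false) (sgb false) x) :
    AltA (VFD κ) PP tK tL pcB [⟨3, 0, 0, 1449551462⟩] 1 0 1 0 0 (sgb false) (sgb false) x :=
  strip_altAD (m := 1449551462) true rfl hκ (SH.κ0 hκ (SH.hx1 hx).le (SH.hx2 hx').le) (SH.hx1 hx).le (SH.hx2 hx') (covB01).cov (covB00).cov hx hx' c_A00mm_101_s1 H (noExt_A)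

noncomputable def cut_A00mm_101_s3 : Cut := Cut.of [[⟨3, 0, 0, 2845415833⟩], [⟨0, 1, 0, 26843545⟩, ⟨1, 0, 0, 26843545⟩, ⟨2, 1, 0, 26843545⟩]]

noncomputable def f_A00mm_101_s3 : ℕ → ℕ → ℕ → ℕ → Bool := onCell 536870912 536870912 0 536870912 1045395039 1503240
    (rowF 0 true false false .npn 1 0 1 (qsf 536870912 536870912 0 536870912 1) ndB0q1 ndB0q0 pcB1 cut_A00mm_101_s3 Ext.none)

def k0_A00mm_101_s3 : ∃ t, chk3 f_A00mm_101_s3 t 1 1 1 = true :=
  ⟨(a (l 4) (b (a (l 4) (b (a (l 4) (b (a (l 4) (b (a (l 4) (b (l 14) (l 4))) (l 4))) (l 4))) (l 4))) (l 4))), by decide +kernel⟩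

theorem c_A00mm_101_s3 : CertF 536870912 536870912 0 536870912 1045395039 1503240 true false false .npn 1 0 1
    ndB0q1 ndB0q0 pcB1 cut_A00mm_101_s3 Ext.none :=
  certF0 (fam := true) (s1 := false) (s2 := false) (a := 1) (b := 0) (c := 1) (cn := .npn) (n1 := ndB0q1) (n2 := ndB0q0) (pc := pcB1) (cut := cut_A00mm_101_s3) (xt := Ext.none) (P1 := 536870912) (W1 := 536870912) (P2 := 0) (W2 := 536870912) (P3 := 1045395039) (W3 := 1503240)
    rfl k0_A00mm_101_s3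

theorem s_A00mm_101_s3 {κ x : ℝ} (hκ : κ * h0 = ken x) (hx : ((1045395039 : ℕ) : ℝ) / S ≤ x)
    (hx' : x ≤ (((1045395039 : ℕ) : ℝ) + (1503240 : ℕ)) / S)
    (H : CutA (VFD κ) PP tK tL pcB (Cut.of [[⟨0, 1, 0, 26843545⟩, ⟨1, 0, 0, 26843545⟩, ⟨2, 1, 0, 26843545⟩]]) 1 0 1 0 0 (sgb false) (sgb false) x) :
    AltA (VFD κ) PP tK tL pcB [⟨4, 0, 0, 2845415833⟩] 1 0 1 0 0 (sgb false) (sgb false) x :=
  strip_altAD (m := 2845415833) false rfl hκ (SH.κ0 hκ (SH.hx1 hx).le (SH.hx2 hx').le) (SH.hx1 hx).le (SH.hx2 hx') (covB01).cov (covB00).cov hx hx' c_A00mm_101_s3 H (noExt_A)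

noncomputable def cut_A00mm_102_s1 : Cut := Cut.of [[⟨4, 0, 0, 1449551462⟩], [⟨0, 1, 0, 26843545⟩, ⟨1, 0, 0, 26843545⟩, ⟨2, 1, 0, 26843545⟩]]

noncomputable def f_A00mm_102_s1 : ℕ → ℕ → ℕ → ℕ → Bool := onCell 536870912 536870912 0 536870912 1045395039 1503240
    (rowF 0 true false false .npp 1 0 2 (qsf 536870912 536870912 0 536870912 2) ndB0q1 ndB0q0 pcB2 cut_A00mm_102_s1 Ext.none)

def k0_A00mm_102_s1 : ∃ t, chk3 f_A00mm_102_s1 t 1 1 1 = true :=
  ⟨(l 6), by decide +kernel⟩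

theorem c_A00mm_102_s1 : CertF 536870912 536870912 0 536870912 1045395039 1503240 true false false .npp 1 0 2
    ndB0q1 ndB0q0 pcB2 cut_A00mm_102_s1 Ext.none :=
  certF0 (fam := true) (s1 := false) (s2 := false) (a := 1) (b := 0) (c := 2) (cn := .npp) (n1 := ndB0q1) (n2 := ndB0q0) (pc := pcB2) (cut := cut_A00mm_102_s1) (xt := Ext.none) (P1 := 536870912) (W1 := 536870912) (P2 := 0) (W2 := 536870912) (P3 := 1045395039) (W3 := 1503240)
    rfl k0_A00mm_102_s1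

theorem s_A00mm_102_s1 {κ x : ℝ} (hκ : κ * h0 = ken x) (hx : ((1045395039 : ℕ) : ℝ) / S ≤ x)
    (hx' : x ≤ (((1045395039 : ℕ) : ℝ) + (1503240 : ℕ)) / S)
    (H : CutA (VFD κ) PP tK tL pcB (Cut.of [[⟨0, 1, 0, 26843545⟩, ⟨1, 0, 0, 26843545⟩, ⟨2, 1, 0, 26843545⟩]]) 1 0 2 0 0 (sgb false) (sgb false) x) :
    AltA (VFD κ) PP tK tL pcB [⟨3, 0, 0, 1449551462⟩] 1 0 2 0 0 (sgb false) (sgb false) x :=
  strip_altAD (m := 1449551462) true rfl hκ (SH.κ0 hκ (SH.hx1 hx).le (SH.hx2 hx').le) (SH.hx1 hx).le (SH.hx2 hx') (covB01).cov (covB00).cov hx hx' c_A00mm_102_s1 H (noExt_A)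

noncomputable def cut_A00mm_102_s3 : Cut := Cut.of [[⟨3, 0, 0, 2845415833⟩], [⟨0, 1, 0, 26843545⟩, ⟨1, 0, 0, 26843545⟩, ⟨2, 1, 0, 26843545⟩]]

noncomputable def f_A00mm_102_s3 : ℕ → ℕ → ℕ → ℕ → Bool := onCell 536870912 536870912 0 536870912 1045395039 1503240
    (rowF 0 true false false .npp 1 0 2 (qsf 536870912 536870912 0 536870912 2) ndB0q1 ndB0q0 pcB2 cut_A00mm_102_s3 Ext.none)

def k0_A00mm_102_s3 : ∃ t, chk3 f_A00mm_102_s3 t 1 1 1 = true :=
  ⟨(a (l 4) (b (a (l 4) (b (a (l 4) (b (a (l 4) (b (a (l 4) (b (l 14) (l 4))) (l 4))) (l 4))) (l 4))) (l 4))), by decide +kernel⟩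

theorem c_A00mm_102_s3 : CertF 536870912 536870912 0 536870912 1045395039 1503240 true false false .npp 1 0 2
    ndB0q1 ndB0q0 pcB2 cut_A00mm_102_s3 Ext.none :=
  certF0 (fam := true) (s1 := false) (s2 := false) (a := 1) (b := 0) (c := 2) (cn := .npp) (n1 := ndB0q1) (n2 := ndB0q0) (pc := pcB2) (cut := cut_A00mm_102_s3) (xt := Ext.none) (P1 := 536870912) (W1 := 536870912) (P2 := 0) (W2 := 536870912) (P3 := 1045395039) (W3 := 1503240)
    rfl k0_A00mm_102_s3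

theorem s_A00mm_102_s3 {κ x : ℝ} (hκ : κ * h0 = ken x) (hx : ((1045395039 : ℕ) : ℝ) / S ≤ x)
    (hx' : x ≤ (((1045395039 : ℕ) : ℝ) + (1503240 : ℕ)) / S)
    (H : CutA (VFD κ) PP tK tL pcB (Cut.of [[⟨0, 1, 0, 26843545⟩, ⟨1, 0, 0, 26843545⟩, ⟨2, 1, 0, 26843545⟩]]) 1 0 2 0 0 (sgb false) (sgb false) x) :
    AltA (VFD κ) PP tK tL pcB [⟨4, 0, 0, 2845415833⟩] 1 0 2 0 0 (sgb false) (sgb false) x :=
  strip_altAD (m := 2845415833) false rfl hκ (SH.κ0 hκ (SH.hx1 hx).le (SH.hx2 hx').le) (SH.hx1 hx).le (SH.hx2 hx') (covB01).cov (covB00).cov hx hx' c_A00mm_102_s3 H (noExt_A)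

noncomputable def cut_A00mm_112_s1 : Cut := Cut.of [[⟨4, 0, 0, 1449551462⟩]]

noncomputable def f_A00mm_112_s1 : ℕ → ℕ → ℕ → ℕ → Bool := onCell 536870912 536870912 536870912 536870912 1045395039 1503240
    (rowF 0 true false false .dn 1 1 2 (qsf 536870912 536870912 536870912 536870912 2) ndB0q1 ndB0q1 pcB2 cut_A00mm_112_s1 Ext.none)

def k0_A00mm_112_s1 : ∃ t, chk3 f_A00mm_112_s1 t 1 1 1 = true :=
  ⟨(l 4), by decide +kernel⟩

theorem c_A00mm_112_s1 : CertF 536870912 536870912 536870912 536870912 1045395039 1503240 true false false .dn 1 1 2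
    ndB0q1 ndB0q1 pcB2 cut_A00mm_112_s1 Ext.none :=
  certF0 (fam := true) (s1 := false) (s2 := false) (a := 1) (b := 1) (c := 2) (cn := .dn) (n1 := ndB0q1) (n2 := ndB0q1) (pc := pcB2) (cut := cut_A00mm_112_s1) (xt := Ext.none) (P1 := 536870912) (W1 := 536870912) (P2 := 536870912) (W2 := 536870912) (P3 := 1045395039) (W3 := 1503240)
    rfl k0_A00mm_112_s1

theorem s_A00mm_112_s1 {κ x : ℝ} (hκ : κ * h0 = ken x) (hx : ((1045395039 : ℕ) : ℝ) / S ≤ x)
    (hx' : x ≤ (((1045395039 : ℕ) : ℝ) + (1503240 : ℕ)) / S) :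
    AltA (VFD κ) PP tK tL pcB [⟨3, 0, 0, 1449551462⟩] 1 1 2 0 0 (sgb false) (sgb false) x :=
  strip_altAD (m := 1449551462) true rfl hκ (SH.κ0 hκ (SH.hx1 hx).le (SH.hx2 hx').le) (SH.hx1 hx).le (SH.hx2 hx') (covB01).cov (covB01).cov hx hx' c_A00mm_112_s1 cutA_nil (noExt_A)

noncomputable def cut_A00mm_112_s3 : Cut := Cut.of [[⟨3, 0, 0, 2845415833⟩]]

noncomputable def f_A00mm_112_s3 : ℕ → ℕ → ℕ → ℕ → Bool := onCell 536870912 536870912 536870912 536870912 1045395039 1503240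
    (rowF 0 true false false .dn 1 1 2 (qsf 536870912 536870912 536870912 536870912 2) ndB0q1 ndB0q1 pcB2 cut_A00mm_112_s3 Ext.none)

def k0_A00mm_112_s3 : ∃ t, chk3 f_A00mm_112_s3 t 1 1 1 = true :=
  ⟨(l 4), by decide +kernel⟩

theorem c_A00mm_112_s3 : CertF 536870912 536870912 536870912 536870912 1045395039 1503240 true false false .dn 1 1 2
    ndB0q1 ndB0q1 pcB2 cut_A00mm_112_s3 Ext.none :=
  certF0 (fam := true) (s1 := false) (s2 := false) (a := 1) (b := 1) (c := 2) (cn := .dn) (n1 := ndB0q1) (n2 := ndB0q1) (pc := pcB2) (cut := cut_A00mm_112_s3) (xt := Ext.none) (P1 := 536870912) (W1 := 536870912) (P2 := 536870912) (W2 := 536870912) (P3 := 1045395039) (W3 := 1503240)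
    rfl k0_A00mm_112_s3

theorem s_A00mm_112_s3 {κ x : ℝ} (hκ : κ * h0 = ken x) (hx : ((1045395039 : ℕ) : ℝ) / S ≤ x)
    (hx' : x ≤ (((1045395039 : ℕ) : ℝ) + (1503240 : ℕ)) / S) :
    AltA (VFD κ) PP tK tL pcB [⟨4, 0, 0, 2845415833⟩] 1 1 2 0 0 (sgb false) (sgb false) x :=
  strip_altAD (m := 2845415833) false rfl hκ (SH.κ0 hκ (SH.hx1 hx).le (SH.hx2 hx').le) (SH.hx1 hx).le (SH.hx2 hx') (covB01).cov (covB01).cov hx hx' c_A00mm_112_s3 cutA_nil (noExt_A)

noncomputable def cut_A00mm_113_s1 : Cut := Cut.of [[⟨4, 0, 0, 1449551462⟩]]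

noncomputable def f_A00mm_113_s1 : ℕ → ℕ → ℕ → ℕ → Bool := onCell 536870912 536870912 536870912 536870912 1045395039 1503240
    (rowF 0 true false false .nn 1 1 3 (qsf 536870912 536870912 536870912 536870912 3) ndB0q1 ndB0q1 pcB3 cut_A00mm_113_s1 Ext.none)

def k0_A00mm_113_s1 : ∃ t, chk3 f_A00mm_113_s1 t 1 1 1 = true :=
  ⟨(l 4), by decide +kernel⟩

theorem c_A00mm_113_s1 : CertF 536870912 536870912 536870912 536870912 1045395039 1503240 true false false .nn 1 1 3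
    ndB0q1 ndB0q1 pcB3 cut_A00mm_113_s1 Ext.none :=
  certF0 (fam := true) (s1 := false) (s2 := false) (a := 1) (b := 1) (c := 3) (cn := .nn) (n1 := ndB0q1) (n2 := ndB0q1) (pc := pcB3) (cut := cut_A00mm_113_s1) (xt := Ext.none) (P1 := 536870912) (W1 := 536870912) (P2 := 536870912) (W2 := 536870912) (P3 := 1045395039) (W3 := 1503240)
    rfl k0_A00mm_113_s1

theorem s_A00mm_113_s1 {κ x : ℝ} (hκ : κ * h0 = ken x) (hx : ((1045395039 : ℕ) : ℝ) / S ≤ x)
    (hx' : x ≤ (((1045395039 : ℕ) : ℝ) + (1503240 : ℕ)) / S) :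
    AltA (VFD κ) PP tK tL pcB [⟨3, 0, 0, 1449551462⟩] 1 1 3 0 0 (sgb false) (sgb false) x :=
  strip_altAD (m := 1449551462) true rfl hκ (SH.κ0 hκ (SH.hx1 hx).le (SH.hx2 hx').le) (SH.hx1 hx).le (SH.hx2 hx') (covB01).cov (covB01).cov hx hx' c_A00mm_113_s1 cutA_nil (noExt_A)

noncomputable def cut_A00mm_113_s3 : Cut := Cut.of [[⟨3, 0, 0, 2845415833⟩]]

noncomputable def f_A00mm_113_s3 : ℕ → ℕ → ℕ → ℕ → Bool := onCell 536870912 536870912 536870912 536870912 1045395039 1503240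
    (rowF 0 true false false .nn 1 1 3 (qsf 536870912 536870912 536870912 536870912 3) ndB0q1 ndB0q1 pcB3 cut_A00mm_113_s3 Ext.none)

def k0_A00mm_113_s3 : ∃ t, chk3 f_A00mm_113_s3 t 1 1 1 = true :=
  ⟨(l 4), by decide +kernel⟩

theorem c_A00mm_113_s3 : CertF 536870912 536870912 536870912 536870912 1045395039 1503240 true false false .nn 1 1 3
    ndB0q1 ndB0q1 pcB3 cut_A00mm_113_s3 Ext.none :=
  certF0 (fam := true) (s1 := false) (s2 := false) (a := 1) (b := 1) (c := 3) (cn := .nn) (n1 := ndB0q1) (n2 := ndB0q1) (pc := pcB3) (cut := cut_A00mm_113_s3) (xt := Ext.none) (P1 := 536870912) (W1 := 536870912) (P2 := 536870912) (W2 := 536870912) (P3 := 1045395039) (W3 := 1503240)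
    rfl k0_A00mm_113_s3

theorem s_A00mm_113_s3 {κ x : ℝ} (hκ : κ * h0 = ken x) (hx : ((1045395039 : ℕ) : ℝ) / S ≤ x)
    (hx' : x ≤ (((1045395039 : ℕ) : ℝ) + (1503240 : ℕ)) / S) :
    AltA (VFD κ) PP tK tL pcB [⟨4, 0, 0, 2845415833⟩] 1 1 3 0 0 (sgb false) (sgb false) x :=
  strip_altAD (m := 2845415833) false rfl hκ (SH.κ0 hκ (SH.hx1 hx).le (SH.hx2 hx').le) (SH.hx1 hx).le (SH.hx2 hx') (covB01).cov (covB01).cov hx hx' c_A00mm_113_s3 cutA_nil (noExt_A)

noncomputable def cut_A00mm_123_s1 : Cut := Cut.of [[⟨4, 0, 0, 1449551462⟩]]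

noncomputable def f_A00mm_123_s1 : ℕ → ℕ → ℕ → ℕ → Bool := onCell 536870912 536870912 0 536870912 1045395039 1503240
    (rowF 0 true false false .npn 1 2 3 (qsf 536870912 536870912 0 536870912 3) ndB0q1 ndB0q2 pcB3 cut_A00mm_123_s1 Ext.none)

def k0_A00mm_123_s1 : ∃ t, chk3 f_A00mm_123_s1 t 1 1 1 = true :=
  ⟨(l 6), by decide +kernel⟩

theorem c_A00mm_123_s1 : CertF 536870912 536870912 0 536870912 1045395039 1503240 true false false .npn 1 2 3
    ndB0q1 ndB0q2 pcB3 cut_A00mm_123_s1 Ext.none :=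
  certF0 (fam := true) (s1 := false) (s2 := false) (a := 1) (b := 2) (c := 3) (cn := .npn) (n1 := ndB0q1) (n2 := ndB0q2) (pc := pcB3) (cut := cut_A00mm_123_s1) (xt := Ext.none) (P1 := 536870912) (W1 := 536870912) (P2 := 0) (W2 := 536870912) (P3 := 1045395039) (W3 := 1503240)
    rfl k0_A00mm_123_s1

theorem s_A00mm_123_s1 {κ x : ℝ} (hκ : κ * h0 = ken x) (hx : ((1045395039 : ℕ) : ℝ) / S ≤ x)
    (hx' : x ≤ (((1045395039 : ℕ) : ℝ) + (1503240 : ℕ)) / S) :
    AltA (VFD κ) PP tK tL pcB [⟨3, 0, 0, 1449551462⟩] 1 2 3 0 0 (sgb false) (sgb false) x :=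
  strip_altAD (m := 1449551462) true rfl hκ (SH.κ0 hκ (SH.hx1 hx).le (SH.hx2 hx').le) (SH.hx1 hx).le (SH.hx2 hx') (covB01).cov (covB02).cov hx hx' c_A00mm_123_s1 cutA_nil (noExt_A)

noncomputable def cut_A00mm_123_s3 : Cut := Cut.of [[⟨3, 0, 0, 2845415833⟩]]

noncomputable def f_A00mm_123_s3 : ℕ → ℕ → ℕ → ℕ → Bool := onCell 536870912 536870912 0 536870912 1045395039 1503240
    (rowF 0 true false false .npn 1 2 3 (qsf 536870912 536870912 0 536870912 3) ndB0q1 ndB0q2 pcB3 cut_A00mm_123_s3 Ext.none)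

def k0_A00mm_123_s3 : ∃ t, chk3 f_A00mm_123_s3 t 1 1 1 = true :=
  ⟨(a (l 5) (l 4)), by decide +kernel⟩

theorem c_A00mm_123_s3 : CertF 536870912 536870912 0 536870912 1045395039 1503240 true false false .npn 1 2 3
    ndB0q1 ndB0q2 pcB3 cut_A00mm_123_s3 Ext.none :=
  certF0 (fam := true) (s1 := false) (s2 := false) (a := 1) (b := 2) (c := 3) (cn := .npn) (n1 := ndB0q1) (n2 := ndB0q2) (pc := pcB3) (cut := cut_A00mm_123_s3) (xt := Ext.none) (P1 := 536870912) (W1 := 536870912) (P2 := 0) (W2 := 536870912) (P3 := 1045395039) (W3 := 1503240)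
    rfl k0_A00mm_123_s3

theorem s_A00mm_123_s3 {κ x : ℝ} (hκ : κ * h0 = ken x) (hx : ((1045395039 : ℕ) : ℝ) / S ≤ x)
    (hx' : x ≤ (((1045395039 : ℕ) : ℝ) + (1503240 : ℕ)) / S) :
    AltA (VFD κ) PP tK tL pcB [⟨4, 0, 0, 2845415833⟩] 1 2 3 0 0 (sgb false) (sgb false) x :=
  strip_altAD (m := 2845415833) false rfl hκ (SH.κ0 hκ (SH.hx1 hx).le (SH.hx2 hx').le) (SH.hx1 hx).le (SH.hx2 hx') (covB01).cov (covB02).cov hx hx' c_A00mm_123_s3 cutA_nil (noExt_A)

noncomputable def cut_A00mm_202_s1 : Cut := Cut.of [[⟨4, 0, 0, 1449551462⟩], [⟨0, 1, 0, 16777216⟩, ⟨1, 0, 0, 16777216⟩, ⟨2, 1, 0, 16777216⟩]]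

noncomputable def f_A00mm_202_s1 : ℕ → ℕ → ℕ → ℕ → Bool := onCell 0 536870912 0 536870912 1045395039 1503240
    (rowF 0 true false false .pp 2 0 2 (qsf 0 536870912 0 536870912 2) ndB0q2 ndB0q0 pcB2 cut_A00mm_202_s1 Ext.none)

def k0_A00mm_202_s1 : ∃ t, chk3 f_A00mm_202_s1 t 1 1 1 = true :=
  ⟨(l 6), by decide +kernel⟩

theorem c_A00mm_202_s1 : CertF 0 536870912 0 536870912 1045395039 1503240 true false false .pp 2 0 2
    ndB0q2 ndB0q0 pcB2 cut_A00mm_202_s1 Ext.none :=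
  certF0 (fam := true) (s1 := false) (s2 := false) (a := 2) (b := 0) (c := 2) (cn := .pp) (n1 := ndB0q2) (n2 := ndB0q0) (pc := pcB2) (cut := cut_A00mm_202_s1) (xt := Ext.none) (P1 := 0) (W1 := 536870912) (P2 := 0) (W2 := 536870912) (P3 := 1045395039) (W3 := 1503240)
    rfl k0_A00mm_202_s1

theorem s_A00mm_202_s1 {κ x : ℝ} (hκ : κ * h0 = ken x) (hx : ((1045395039 : ℕ) : ℝ) / S ≤ x)
    (hx' : x ≤ (((1045395039 : ℕ) : ℝ) + (1503240 : ℕ)) / S)
    (H : CutA (VFD κ) PP tK tL pcB (Cut.of [[⟨0, 1, 0, 16777216⟩, ⟨1, 0, 0, 16777216⟩, ⟨2, 1, 0, 16777216⟩]]) 2 0 2 0 0 (sgb false) (sgb false) x) :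
    AltA (VFD κ) PP tK tL pcB [⟨3, 0, 0, 1449551462⟩] 2 0 2 0 0 (sgb false) (sgb false) x :=
  strip_altAD (m := 1449551462) true rfl hκ (SH.κ0 hκ (SH.hx1 hx).le (SH.hx2 hx').le) (SH.hx1 hx).le (SH.hx2 hx') (covB02).cov (covB00).cov hx hx' c_A00mm_202_s1 H (noExt_A)

noncomputable def cut_A00mm_203_s1 : Cut := Cut.of [[⟨4, 0, 0, 1449551462⟩]]

noncomputable def f_A00mm_203_s1 : ℕ → ℕ → ℕ → ℕ → Bool := onCell 0 536870912 0 536870912 1045395039 1503240
    (rowF 0 true false false .up 2 0 3 (qsf 0 536870912 0 536870912 3) ndB0q2 ndB0q0 pcB3 cut_A00mm_203_s1 Ext.none)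

def k0_A00mm_203_s1 : ∃ t, chk3 f_A00mm_203_s1 t 1 1 1 = true :=
  ⟨(l 6), by decide +kernel⟩

theorem c_A00mm_203_s1 : CertF 0 536870912 0 536870912 1045395039 1503240 true false false .up 2 0 3
    ndB0q2 ndB0q0 pcB3 cut_A00mm_203_s1 Ext.none :=
  certF0 (fam := true) (s1 := false) (s2 := false) (a := 2) (b := 0) (c := 3) (cn := .up) (n1 := ndB0q2) (n2 := ndB0q0) (pc := pcB3) (cut := cut_A00mm_203_s1) (xt := Ext.none) (P1 := 0) (W1 := 536870912) (P2 := 0) (W2 := 536870912) (P3 := 1045395039) (W3 := 1503240)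
    rfl k0_A00mm_203_s1

theorem s_A00mm_203_s1 {κ x : ℝ} (hκ : κ * h0 = ken x) (hx : ((1045395039 : ℕ) : ℝ) / S ≤ x)
    (hx' : x ≤ (((1045395039 : ℕ) : ℝ) + (1503240 : ℕ)) / S) :
    AltA (VFD κ) PP tK tL pcB [⟨3, 0, 0, 1449551462⟩] 2 0 3 0 0 (sgb false) (sgb false) x :=
  strip_altAD (m := 1449551462) true rfl hκ (SH.κ0 hκ (SH.hx1 hx).le (SH.hx2 hx').le) (SH.hx1 hx).le (SH.hx2 hx') (covB02).cov (covB00).cov hx hx' c_A00mm_203_s1 cutA_nil (noExt_A)

noncomputable def cut_A00mm_203_s3 : Cut := Cut.of [[⟨3, 0, 0, 2845415833⟩]]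

noncomputable def xt_A00mm_203_s3 : Ext := strExt dd true false false .u2 .u0m .s2m .up 2 0 3 rfl rfl gl3 vv ndB0q2 ndB0q0

noncomputable def f_A00mm_203_s3 : ℕ → ℕ → ℕ → ℕ → Bool := onCell 0 536870912 1610612736 536870912 1045395039 1503240
    (rowF 1 true false false .up 2 0 3 (qsf 0 536870912 0 536870912 3) ndB0q2 ndB0q0 pcB3 cut_A00mm_203_s3 xt_A00mm_203_s3)

def k0_A00mm_203_s3 : ∃ t, chk3 f_A00mm_203_s3 t 1 1 1 = true :=
  ⟨(b (a (a (b (b (a (b (l 16642400) (l 16679496)) (a (b (l 16674544) (l 16707880)) (b (l 16700272) (l 534283023)))) (a (b (l 534170895) (b (l 16704304) (l 16713784))) (a (b (l 534368271) (l 534160911)) (b (l 534301967) (l 534104335))))) (b (b (a (a (l 534078223) (l 534066703)) (a (l 534036495) (l 533988879))) (a (l 2) (l 2))) (l 2))) (b (a (b (a (b (l 533831951) (l 534144783)) (b (l 533695503) (l 534001935))) (a (b (l 534219535) (l 4)) (l 4))) (b (a (b (l 533554703) (l 4)) (l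 4)) (l 4))) (l 4))) (l 4)) (l 2)), by decide +kernel⟩

theorem c_A00mm_203_s3 : CertF 0 536870912 0 536870912 1045395039 1503240 true false false .up 2 0 3
    ndB0q2 ndB0q0 pcB3 cut_A00mm_203_s3 xt_A00mm_203_s3 :=
  certF1 (fam := true) (s1 := false) (s2 := false) (a := 2) (b := 0) (c := 3) (cn := .up) (n1 := ndB0q2) (n2 := ndB0q0) (pc := pcB3) (cut := cut_A00mm_203_s3) (xt := xt_A00mm_203_s3) (P1 := 0) (W1 := 536870912) (P2 := 0) (W2 := 536870912) (P3 := 1045395039) (W3 := 1503240)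
    rfl (fun _ => rfl) k0_A00mm_203_s3

theorem s_A00mm_203_s3 {κ x : ℝ} (hκ : κ * h0 = ken x) (hx : ((1045395039 : ℕ) : ℝ) / S ≤ x)
    (hx' : x ≤ (((1045395039 : ℕ) : ℝ) + (1503240 : ℕ)) / S) :
    AltA (VFD κ) PP tK tL pcB [⟨4, 0, 0, 2845415833⟩] 2 0 3 0 0 (sgb false) (sgb false) x :=
  strip_altAD (m := 2845415833) false rfl hκ (SH.κ0 hκ (SH.hx1 hx).le (SH.hx2 hx').le) (SH.hx1 hx).le (SH.hx2 hx') (covB02).cov (covB00).cov hx hx' c_A00mm_203_s3 cutA_nil ((okx hx hx').extA (T := tt) (sideB hx hx') hκ rfl rfl (.O 2 false) (.O 0 false) (Or.inr rfl))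

noncomputable def cut_A00mm_213_s1 : Cut := Cut.of [[⟨4, 0, 0, 1449551462⟩]]

noncomputable def f_A00mm_213_s1 : ℕ → ℕ → ℕ → ℕ → Bool := onCell 0 536870912 536870912 536870912 1045395039 1503240
    (rowF 0 true false false .pnn 2 1 3 (qsf 0 536870912 536870912 536870912 3) ndB0q2 ndB0q1 pcB3 cut_A00mm_213_s1 Ext.none)

def k0_A00mm_213_s1 : ∃ t, chk3 f_A00mm_213_s1 t 1 1 1 = true :=
  ⟨(l 6), by decide +kernel⟩

theorem c_A00mm_213_s1 : CertF 0 536870912 536870912 536870912 1045395039 1503240 true false false .pnn 2 1 3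
    ndB0q2 ndB0q1 pcB3 cut_A00mm_213_s1 Ext.none :=
  certF0 (fam := true) (s1 := false) (s2 := false) (a := 2) (b := 1) (c := 3) (cn := .pnn) (n1 := ndB0q2) (n2 := ndB0q1) (pc := pcB3) (cut := cut_A00mm_213_s1) (xt := Ext.none) (P1 := 0) (W1 := 536870912) (P2 := 536870912) (W2 := 536870912) (P3 := 1045395039) (W3 := 1503240)
    rfl k0_A00mm_213_s1

theorem s_A00mm_213_s1 {κ x : ℝ} (hκ : κ * h0 = ken x) (hx : ((1045395039 : ℕ) : ℝ) / S ≤ x)
    (hx' : x ≤ (((1045395039 : ℕ) : ℝ) + (1503240 : ℕ)) / S) :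
    AltA (VFD κ) PP tK tL pcB [⟨3, 0, 0, 1449551462⟩] 2 1 3 0 0 (sgb false) (sgb false) x :=
  strip_altAD (m := 1449551462) true rfl hκ (SH.κ0 hκ (SH.hx1 hx).le (SH.hx2 hx').le) (SH.hx1 hx).le (SH.hx2 hx') (covB02).cov (covB01).cov hx hx' c_A00mm_213_s1 cutA_nil (noExt_A)

noncomputable def cut_A00mm_213_s3 : Cut := Cut.of [[⟨3, 0, 0, 2845415833⟩]]

noncomputable def xt_A00mm_213_s3 : Ext := strExt dd true false false .u2 .u0m .s2m .pnn 2 1 3 rfl rfl gl3 vv ndB0q2 ndB0q1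

noncomputable def f_A00mm_213_s3 : ℕ → ℕ → ℕ → ℕ → Bool := onCell 0 536870912 536870912 536870912 1045395039 1503240
    (rowF 0 true false false .pnn 2 1 3 (qsf 0 536870912 536870912 536870912 3) ndB0q2 ndB0q1 pcB3 cut_A00mm_213_s3 xt_A00mm_213_s3)

def k0_A00mm_213_s3 : ∃ t, chk3 f_A00mm_213_s3 t 1 1 1 = true :=
  ⟨(a (b (b (a (b (a (b (a (l 534010895) (l 534009615)) (a (l 534000143) (l 534006287))) (a (b (l 533989391) (l 4)) (l 4))) (a (b (a (l 534033935) (l 4)) (l 4)) (l 4))) (l 4)) (l 4)) (l 4)) (l 4)), by decide +kernel⟩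

theorem c_A00mm_213_s3 : CertF 0 536870912 536870912 536870912 1045395039 1503240 true false false .pnn 2 1 3
    ndB0q2 ndB0q1 pcB3 cut_A00mm_213_s3 xt_A00mm_213_s3 :=
  certF0 (fam := true) (s1 := false) (s2 := false) (a := 2) (b := 1) (c := 3) (cn := .pnn) (n1 := ndB0q2) (n2 := ndB0q1) (pc := pcB3) (cut := cut_A00mm_213_s3) (xt := xt_A00mm_213_s3) (P1 := 0) (W1 := 536870912) (P2 := 536870912) (W2 := 536870912) (P3 := 1045395039) (W3 := 1503240)
    rfl k0_A00mm_213_s3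

theorem s_A00mm_213_s3 {κ x : ℝ} (hκ : κ * h0 = ken x) (hx : ((1045395039 : ℕ) : ℝ) / S ≤ x)
    (hx' : x ≤ (((1045395039 : ℕ) : ℝ) + (1503240 : ℕ)) / S) :
    AltA (VFD κ) PP tK tL pcB [⟨4, 0, 0, 2845415833⟩] 2 1 3 0 0 (sgb false) (sgb false) x :=
  strip_altAD (m := 2845415833) false rfl hκ (SH.κ0 hκ (SH.hx1 hx).le (SH.hx2 hx').le) (SH.hx1 hx).le (SH.hx2 hx') (covB02).cov (covB01).cov hx hx' c_A00mm_213_s3 cutA_nil ((okx hx hx').extA (T := tt) (sideB hx hx') hκ rfl rfl (.O 2 false) (.O 1 false) (Or.inr rfl))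

noncomputable def cut_A06pp_001_s1 : Cut := Cut.of [[⟨4, 0, 0, 1449551462⟩]]

noncomputable def f_A06pp_001_s1 : ℕ → ℕ → ℕ → ℕ → Bool := onCell 0 536870912 0 536870912 1045395039 1503240
    (rowF 0 true true true .up 0 0 1 (qsf 0 536870912 0 536870912 1) ndB0q0 ndB6q0 pcB1 cut_A06pp_001_s1 Ext.none)

def k0_A06pp_001_s1 : ∃ t, chk3 f_A06pp_001_s1 t 1 1 1 = true :=
  ⟨(l 4), by decide +kernel⟩

theorem c_A06pp_001_s1 : CertF 0 536870912 0 536870912 1045395039 1503240 true true true .up 0 0 1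
    ndB0q0 ndB6q0 pcB1 cut_A06pp_001_s1 Ext.none :=
  certF0 (fam := true) (s1 := true) (s2 := true) (a := 0) (b := 0) (c := 1) (cn := .up) (n1 := ndB0q0) (n2 := ndB6q0) (pc := pcB1) (cut := cut_A06pp_001_s1) (xt := Ext.none) (P1 := 0) (W1 := 536870912) (P2 := 0) (W2 := 536870912) (P3 := 1045395039) (W3 := 1503240)
    rfl k0_A06pp_001_s1

theorem s_A06pp_001_s1 {κ x : ℝ} (hκ : κ * h0 = ken x) (hx : ((1045395039 : ℕ) : ℝ) / S ≤ x)
    (hx' : x ≤ (((1045395039 : ℕ) : ℝ) + (1503240 : ℕ)) / S) :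
    AltA (VFD κ) PP tK tL pcB [⟨3, 0, 0, 1449551462⟩] 0 0 1 0 6 (sgb true) (sgb true) x :=
  strip_altAD (m := 1449551462) true rfl hκ (SH.κ0 hκ (SH.hx1 hx).le (SH.hx2 hx').le) (SH.hx1 hx).le (SH.hx2 hx') (covB00).cov (covB60).cov hx hx' c_A06pp_001_s1 cutA_nil (noExt_A)

noncomputable def cut_A06pp_011_s1 : Cut := Cut.of [[⟨4, 0, 0, 1449551462⟩]]

noncomputable def f_A06pp_011_s1 : ℕ → ℕ → ℕ → ℕ → Bool := onCell 0 536870912 536870912 536870912 1045395039 1503240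
    (rowF 0 true true true .pnn 0 1 1 (qsf 0 536870912 536870912 536870912 1) ndB0q0 ndB6q1 pcB1 cut_A06pp_011_s1 Ext.none)

def k0_A06pp_011_s1 : ∃ t, chk3 f_A06pp_011_s1 t 1 1 1 = true :=
  ⟨(l 4), by decide +kernel⟩

theorem c_A06pp_011_s1 : CertF 0 536870912 536870912 536870912 1045395039 1503240 true true true .pnn 0 1 1
    ndB0q0 ndB6q1 pcB1 cut_A06pp_011_s1 Ext.none :=
  certF0 (fam := true) (s1 := true) (s2 := true) (a := 0) (b := 1) (c := 1) (cn := .pnn) (n1 := ndB0q0) (n2 := ndB6q1) (pc := pcB1) (cut := cut_A06pp_011_s1) (xt := Ext.none) (P1 := 0) (W1 := 536870912) (P2 := 536870912) (W2 := 536870912) (P3 := 1045395039) (W3 := 1503240)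
    rfl k0_A06pp_011_s1

theorem s_A06pp_011_s1 {κ x : ℝ} (hκ : κ * h0 = ken x) (hx : ((1045395039 : ℕ) : ℝ) / S ≤ x)
    (hx' : x ≤ (((1045395039 : ℕ) : ℝ) + (1503240 : ℕ)) / S) :
    AltA (VFD κ) PP tK tL pcB [⟨3, 0, 0, 1449551462⟩] 0 1 1 0 6 (sgb true) (sgb true) x :=
  strip_altAD (m := 1449551462) true rfl hκ (SH.κ0 hκ (SH.hx1 hx).le (SH.hx2 hx').le) (SH.hx1 hx).le (SH.hx2 hx') (covB00).cov (covB61).cov hx hx' c_A06pp_011_s1 cutA_nil (noExt_A)

noncomputable def cut_A06pp_012_s1 : Cut := Cut.of [[⟨4, 0, 0, 1449551462⟩]]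

noncomputable def f_A06pp_012_s1 : ℕ → ℕ → ℕ → ℕ → Bool := onCell 0 536870912 536870912 536870912 1045395039 1503240
    (rowF 0 true true true .pnp 0 1 2 (qsf 0 536870912 536870912 536870912 2) ndB0q0 ndB6q1 pcB2 cut_A06pp_012_s1 Ext.none)

def k0_A06pp_012_s1 : ∃ t, chk3 f_A06pp_012_s1 t 1 1 1 = true :=
  ⟨(l 4), by decide +kernel⟩

theorem c_A06pp_012_s1 : CertF 0 536870912 536870912 536870912 1045395039 1503240 true true true .pnp 0 1 2
    ndB0q0 ndB6q1 pcB2 cut_A06pp_012_s1 Ext.none :=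
  certF0 (fam := true) (s1 := true) (s2 := true) (a := 0) (b := 1) (c := 2) (cn := .pnp) (n1 := ndB0q0) (n2 := ndB6q1) (pc := pcB2) (cut := cut_A06pp_012_s1) (xt := Ext.none) (P1 := 0) (W1 := 536870912) (P2 := 536870912) (W2 := 536870912) (P3 := 1045395039) (W3 := 1503240)
    rfl k0_A06pp_012_s1

theorem s_A06pp_012_s1 {κ x : ℝ} (hκ : κ * h0 = ken x) (hx : ((1045395039 : ℕ) : ℝ) / S ≤ x)
    (hx' : x ≤ (((1045395039 : ℕ) : ℝ) + (1503240 : ℕ)) / S) :
    AltA (VFD κ) PP tK tL pcB [⟨3, 0, 0, 1449551462⟩] 0 1 2 0 6 (sgb true) (sgb true) x :=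
  strip_altAD (m := 1449551462) true rfl hκ (SH.κ0 hκ (SH.hx1 hx).le (SH.hx2 hx').le) (SH.hx1 hx).le (SH.hx2 hx') (covB00).cov (covB61).cov hx hx' c_A06pp_012_s1 cutA_nil (noExt_A)

noncomputable def cut_A06pp_022_s1 : Cut := Cut.of [[⟨4, 0, 0, 1449551462⟩]]

noncomputable def f_A06pp_022_s1 : ℕ → ℕ → ℕ → ℕ → Bool := onCell 0 536870912 1073741824 536870912 1045395039 1503240
    (rowF 0 true true true .pp 0 2 2 (qsf 0 536870912 1073741824 536870912 2) ndB0q0 ndB6q2 pcB2 cut_A06pp_022_s1 Ext.none)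

def k0_A06pp_022_s1 : ∃ t, chk3 f_A06pp_022_s1 t 1 1 1 = true :=
  ⟨(l 4), by decide +kernel⟩

theorem c_A06pp_022_s1 : CertF 0 536870912 1073741824 536870912 1045395039 1503240 true true true .pp 0 2 2
    ndB0q0 ndB6q2 pcB2 cut_A06pp_022_s1 Ext.none :=
  certF0 (fam := true) (s1 := true) (s2 := true) (a := 0) (b := 2) (c := 2) (cn := .pp) (n1 := ndB0q0) (n2 := ndB6q2) (pc := pcB2) (cut := cut_A06pp_022_s1) (xt := Ext.none) (P1 := 0) (W1 := 536870912) (P2 := 1073741824) (W2 := 536870912) (P3 := 1045395039) (W3 := 1503240)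
    rfl k0_A06pp_022_s1

theorem s_A06pp_022_s1 {κ x : ℝ} (hκ : κ * h0 = ken x) (hx : ((1045395039 : ℕ) : ℝ) / S ≤ x)
    (hx' : x ≤ (((1045395039 : ℕ) : ℝ) + (1503240 : ℕ)) / S) :
    AltA (VFD κ) PP tK tL pcB [⟨3, 0, 0, 1449551462⟩] 0 2 2 0 6 (sgb true) (sgb true) x :=
  strip_altAD (m := 1449551462) true rfl hκ (SH.κ0 hκ (SH.hx1 hx).le (SH.hx2 hx').le) (SH.hx1 hx).le (SH.hx2 hx') (covB00).cov (covB62).cov hx hx' c_A06pp_022_s1 cutA_nil (noExt_A)

noncomputable def cut_A06pp_023_s1 : Cut := Cut.of [[⟨4, 0, 0, 1449551462⟩]]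

noncomputable def f_A06pp_023_s1 : ℕ → ℕ → ℕ → ℕ → Bool := onCell 0 536870912 1073741824 536870912 1045395039 1503240
    (rowF 0 true true true .up 0 2 3 (qsf 0 536870912 1073741824 536870912 3) ndB0q0 ndB6q2 pcB3 cut_A06pp_023_s1 Ext.none)

def k0_A06pp_023_s1 : ∃ t, chk3 f_A06pp_023_s1 t 1 1 1 = true :=
  ⟨(l 4), by decide +kernel⟩

theorem c_A06pp_023_s1 : CertF 0 536870912 1073741824 536870912 1045395039 1503240 true true true .up 0 2 3
    ndB0q0 ndB6q2 pcB3 cut_A06pp_023_s1 Ext.none :=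
  certF0 (fam := true) (s1 := true) (s2 := true) (a := 0) (b := 2) (c := 3) (cn := .up) (n1 := ndB0q0) (n2 := ndB6q2) (pc := pcB3) (cut := cut_A06pp_023_s1) (xt := Ext.none) (P1 := 0) (W1 := 536870912) (P2 := 1073741824) (W2 := 536870912) (P3 := 1045395039) (W3 := 1503240)
    rfl k0_A06pp_023_s1

theorem s_A06pp_023_s1 {κ x : ℝ} (hκ : κ * h0 = ken x) (hx : ((1045395039 : ℕ) : ℝ) / S ≤ x)
    (hx' : x ≤ (((1045395039 : ℕ) : ℝ) + (1503240 : ℕ)) / S) :
    AltA (VFD κ) PP tK tL pcB [⟨3, 0, 0, 1449551462⟩] 0 2 3 0 6 (sgb true) (sgb true) x :=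
  strip_altAD (m := 1449551462) true rfl hκ (SH.κ0 hκ (SH.hx1 hx).le (SH.hx2 hx').le) (SH.hx1 hx).le (SH.hx2 hx') (covB00).cov (covB62).cov hx hx' c_A06pp_023_s1 cutA_nil (noExt_A)

noncomputable def cut_A06pp_033_s1 : Cut := Cut.of [[⟨4, 0, 0, 1449551462⟩]]

noncomputable def f_A06pp_033_s1 : ℕ → ℕ → ℕ → ℕ → Bool := onCell 0 536870912 0 1230186008 1045395039 1503240
    (rowF 0 true true true .pnn 0 3 3 (qsf 0 536870912 0 1230186008 3) ndB0q0 ndB6q3 pcB3 cut_A06pp_033_s1 Ext.none)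

def k0_A06pp_033_s1 : ∃ t, chk3 f_A06pp_033_s1 t 1 1 1 = true :=
  ⟨(l 4), by decide +kernel⟩

theorem c_A06pp_033_s1 : CertF 0 536870912 0 1230186008 1045395039 1503240 true true true .pnn 0 3 3
    ndB0q0 ndB6q3 pcB3 cut_A06pp_033_s1 Ext.none :=
  certF0 (fam := true) (s1 := true) (s2 := true) (a := 0) (b := 3) (c := 3) (cn := .pnn) (n1 := ndB0q0) (n2 := ndB6q3) (pc := pcB3) (cut := cut_A06pp_033_s1) (xt := Ext.none) (P1 := 0) (W1 := 536870912) (P2 := 0) (W2 := 1230186008) (P3 := 1045395039) (W3 := 1503240)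
    rfl k0_A06pp_033_s1

theorem s_A06pp_033_s1 {κ x : ℝ} (hκ : κ * h0 = ken x) (hx : ((1045395039 : ℕ) : ℝ) / S ≤ x)
    (hx' : x ≤ (((1045395039 : ℕ) : ℝ) + (1503240 : ℕ)) / S) :
    AltA (VFD κ) PP tK tL pcB [⟨3, 0, 0, 1449551462⟩] 0 3 3 0 6 (sgb true) (sgb true) x :=
  strip_altAD (m := 1449551462) true rfl hκ (SH.κ0 hκ (SH.hx1 hx).le (SH.hx2 hx').le) (SH.hx1 hx).le (SH.hx2 hx') (covB00).cov (covB63).cov hx hx' c_A06pp_033_s1 cutA_nil (noExt_A)

noncomputable def cut_A06pp_101_s1 : Cut := Cut.of [[⟨4, 0, 0, 1449551462⟩]]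

noncomputable def f_A06pp_101_s1 : ℕ → ℕ → ℕ → ℕ → Bool := onCell 536870912 536870912 0 536870912 1045395039 1503240
    (rowF 0 true true true .npn 1 0 1 (qsf 536870912 536870912 0 536870912 1) ndB0q1 ndB6q0 pcB1 cut_A06pp_101_s1 Ext.none)

def k0_A06pp_101_s1 : ∃ t, chk3 f_A06pp_101_s1 t 1 1 1 = true :=
  ⟨(l 4), by decide +kernel⟩

theorem c_A06pp_101_s1 : CertF 536870912 536870912 0 536870912 1045395039 1503240 true true true .npn 1 0 1
    ndB0q1 ndB6q0 pcB1 cut_A06pp_101_s1 Ext.none :=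
  certF0 (fam := true) (s1 := true) (s2 := true) (a := 1) (b := 0) (c := 1) (cn := .npn) (n1 := ndB0q1) (n2 := ndB6q0) (pc := pcB1) (cut := cut_A06pp_101_s1) (xt := Ext.none) (P1 := 536870912) (W1 := 536870912) (P2 := 0) (W2 := 536870912) (P3 := 1045395039) (W3 := 1503240)
    rfl k0_A06pp_101_s1

theorem s_A06pp_101_s1 {κ x : ℝ} (hκ : κ * h0 = ken x) (hx : ((1045395039 : ℕ) : ℝ) / S ≤ x)
    (hx' : x ≤ (((1045395039 : ℕ) : ℝ) + (1503240 : ℕ)) / S) :
    AltA (VFD κ) PP tK tL pcB [⟨3, 0, 0, 1449551462⟩] 1 0 1 0 6 (sgb true) (sgb true) x :=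
  strip_altAD (m := 1449551462) true rfl hκ (SH.κ0 hκ (SH.hx1 hx).le (SH.hx2 hx').le) (SH.hx1 hx).le (SH.hx2 hx') (covB01).cov (covB60).cov hx hx' c_A06pp_101_s1 cutA_nil (noExt_A)

noncomputable def cut_A06pp_102_s1 : Cut := Cut.of [[⟨4, 0, 0, 1449551462⟩]]

noncomputable def f_A06pp_102_s1 : ℕ → ℕ → ℕ → ℕ → Bool := onCell 536870912 536870912 0 536870912 1045395039 1503240
    (rowF 0 true true true .npp 1 0 2 (qsf 536870912 536870912 0 536870912 2) ndB0q1 ndB6q0 pcB2 cut_A06pp_102_s1 Ext.none)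

def k0_A06pp_102_s1 : ∃ t, chk3 f_A06pp_102_s1 t 1 1 1 = true :=
  ⟨(l 4), by decide +kernel⟩

theorem c_A06pp_102_s1 : CertF 536870912 536870912 0 536870912 1045395039 1503240 true true true .npp 1 0 2
    ndB0q1 ndB6q0 pcB2 cut_A06pp_102_s1 Ext.none :=
  certF0 (fam := true) (s1 := true) (s2 := true) (a := 1) (b := 0) (c := 2) (cn := .npp) (n1 := ndB0q1) (n2 := ndB6q0) (pc := pcB2) (cut := cut_A06pp_102_s1) (xt := Ext.none) (P1 := 536870912) (W1 := 536870912) (P2 := 0) (W2 := 536870912) (P3 := 1045395039) (W3 := 1503240)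
    rfl k0_A06pp_102_s1

theorem s_A06pp_102_s1 {κ x : ℝ} (hκ : κ * h0 = ken x) (hx : ((1045395039 : ℕ) : ℝ) / S ≤ x)
    (hx' : x ≤ (((1045395039 : ℕ) : ℝ) + (1503240 : ℕ)) / S) :
    AltA (VFD κ) PP tK tL pcB [⟨3, 0, 0, 1449551462⟩] 1 0 2 0 6 (sgb true) (sgb true) x :=
  strip_altAD (m := 1449551462) true rfl hκ (SH.κ0 hκ (SH.hx1 hx).le (SH.hx2 hx').le) (SH.hx1 hx).le (SH.hx2 hx') (covB01).cov (covB60).cov hx hx' c_A06pp_102_s1 cutA_nil (noExt_A)

noncomputable def cut_A06pp_112_s1 : Cut := Cut.of [[⟨4, 0, 0, 1449551462⟩]]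

noncomputable def f_A06pp_112_s1 : ℕ → ℕ → ℕ → ℕ → Bool := onCell 536870912 536870912 536870912 536870912 1045395039 1503240
    (rowF 0 true true true .dn 1 1 2 (qsf 536870912 536870912 536870912 536870912 2) ndB0q1 ndB6q1 pcB2 cut_A06pp_112_s1 Ext.none)

def k0_A06pp_112_s1 : ∃ t, chk3 f_A06pp_112_s1 t 1 1 1 = true :=
  ⟨(l 4), by decide +kernel⟩

theorem c_A06pp_112_s1 : CertF 536870912 536870912 536870912 536870912 1045395039 1503240 true true true .dn 1 1 2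
    ndB0q1 ndB6q1 pcB2 cut_A06pp_112_s1 Ext.none :=
  certF0 (fam := true) (s1 := true) (s2 := true) (a := 1) (b := 1) (c := 2) (cn := .dn) (n1 := ndB0q1) (n2 := ndB6q1) (pc := pcB2) (cut := cut_A06pp_112_s1) (xt := Ext.none) (P1 := 536870912) (W1 := 536870912) (P2 := 536870912) (W2 := 536870912) (P3 := 1045395039) (W3 := 1503240)
    rfl k0_A06pp_112_s1

theorem s_A06pp_112_s1 {κ x : ℝ} (hκ : κ * h0 = ken x) (hx : ((1045395039 : ℕ) : ℝ) / S ≤ x)
    (hx' : x ≤ (((1045395039 : ℕ) : ℝ) + (1503240 : ℕ)) / S) :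
    AltA (VFD κ) PP tK tL pcB [⟨3, 0, 0, 1449551462⟩] 1 1 2 0 6 (sgb true) (sgb true) x :=
  strip_altAD (m := 1449551462) true rfl hκ (SH.κ0 hκ (SH.hx1 hx).le (SH.hx2 hx').le) (SH.hx1 hx).le (SH.hx2 hx') (covB01).cov (covB61).cov hx hx' c_A06pp_112_s1 cutA_nil (noExt_A)

noncomputable def cut_A06pp_113_s1 : Cut := Cut.of [[⟨4, 0, 0, 1449551462⟩]]

noncomputable def f_A06pp_113_s1 : ℕ → ℕ → ℕ → ℕ → Bool := onCell 536870912 536870912 536870912 536870912 1045395039 1503240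
    (rowF 0 true true true .nn 1 1 3 (qsf 536870912 536870912 536870912 536870912 3) ndB0q1 ndB6q1 pcB3 cut_A06pp_113_s1 Ext.none)

def k0_A06pp_113_s1 : ∃ t, chk3 f_A06pp_113_s1 t 1 1 1 = true :=
  ⟨(l 4), by decide +kernel⟩

theorem c_A06pp_113_s1 : CertF 536870912 536870912 536870912 536870912 1045395039 1503240 true true true .nn 1 1 3
    ndB0q1 ndB6q1 pcB3 cut_A06pp_113_s1 Ext.none :=
  certF0 (fam := true) (s1 := true) (s2 := true) (a := 1) (b := 1) (c := 3) (cn := .nn) (n1 := ndB0q1) (n2 := ndB6q1) (pc := pcB3) (cut := cut_A06pp_113_s1) (xt := Ext.none) (P1 := 536870912) (W1 := 536870912) (P2 := 536870912) (W2 := 536870912) (P3 := 1045395039) (W3 := 1503240)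
    rfl k0_A06pp_113_s1

theorem s_A06pp_113_s1 {κ x : ℝ} (hκ : κ * h0 = ken x) (hx : ((1045395039 : ℕ) : ℝ) / S ≤ x)
    (hx' : x ≤ (((1045395039 : ℕ) : ℝ) + (1503240 : ℕ)) / S) :
    AltA (VFD κ) PP tK tL pcB [⟨3, 0, 0, 1449551462⟩] 1 1 3 0 6 (sgb true) (sgb true) x :=
  strip_altAD (m := 1449551462) true rfl hκ (SH.κ0 hκ (SH.hx1 hx).le (SH.hx2 hx').le) (SH.hx1 hx).le (SH.hx2 hx') (covB01).cov (covB61).cov hx hx' c_A06pp_113_s1 cutA_nil (noExt_A)

noncomputable def cut_A06pp_123_s1 : Cut := Cut.of [[⟨4, 0, 0, 1449551462⟩]]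

noncomputable def f_A06pp_123_s1 : ℕ → ℕ → ℕ → ℕ → Bool := onCell 536870912 536870912 1073741824 536870912 1045395039 1503240
    (rowF 0 true true true .npn 1 2 3 (qsf 536870912 536870912 1073741824 536870912 3) ndB0q1 ndB6q2 pcB3 cut_A06pp_123_s1 Ext.none)

def k0_A06pp_123_s1 : ∃ t, chk3 f_A06pp_123_s1 t 1 1 1 = true :=
  ⟨(l 4), by decide +kernel⟩

theorem c_A06pp_123_s1 : CertF 536870912 536870912 1073741824 536870912 1045395039 1503240 true true true .npn 1 2 3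
    ndB0q1 ndB6q2 pcB3 cut_A06pp_123_s1 Ext.none :=
  certF0 (fam := true) (s1 := true) (s2 := true) (a := 1) (b := 2) (c := 3) (cn := .npn) (n1 := ndB0q1) (n2 := ndB6q2) (pc := pcB3) (cut := cut_A06pp_123_s1) (xt := Ext.none) (P1 := 536870912) (W1 := 536870912) (P2 := 1073741824) (W2 := 536870912) (P3 := 1045395039) (W3 := 1503240)
    rfl k0_A06pp_123_s1

theorem s_A06pp_123_s1 {κ x : ℝ} (hκ : κ * h0 = ken x) (hx : ((1045395039 : ℕ) : ℝ) / S ≤ x)
    (hx' : x ≤ (((1045395039 : ℕ) : ℝ) + (1503240 : ℕ)) / S) :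
    AltA (VFD κ) PP tK tL pcB [⟨3, 0, 0, 1449551462⟩] 1 2 3 0 6 (sgb true) (sgb true) x :=
  strip_altAD (m := 1449551462) true rfl hκ (SH.κ0 hκ (SH.hx1 hx).le (SH.hx2 hx').le) (SH.hx1 hx).le (SH.hx2 hx') (covB01).cov (covB62).cov hx hx' c_A06pp_123_s1 cutA_nil (noExt_A)

noncomputable def cut_A06pp_133_s1 : Cut := Cut.of [[⟨4, 0, 0, 1449551462⟩]]

noncomputable def f_A06pp_133_s1 : ℕ → ℕ → ℕ → ℕ → Bool := onCell 536870912 536870912 0 1230186008 1045395039 1503240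
    (rowF 0 true true true .dn 1 3 3 (qsf 536870912 536870912 0 1230186008 3) ndB0q1 ndB6q3 pcB3 cut_A06pp_133_s1 Ext.none)

def k0_A06pp_133_s1 : ∃ t, chk3 f_A06pp_133_s1 t 1 1 1 = true :=
  ⟨(l 4), by decide +kernel⟩

theorem c_A06pp_133_s1 : CertF 536870912 536870912 0 1230186008 1045395039 1503240 true true true .dn 1 3 3
    ndB0q1 ndB6q3 pcB3 cut_A06pp_133_s1 Ext.none :=
  certF0 (fam := true) (s1 := true) (s2 := true) (a := 1) (b := 3) (c := 3) (cn := .dn) (n1 := ndB0q1) (n2 := ndB6q3) (pc := pcB3) (cut := cut_A06pp_133_s1) (xt := Ext.none) (P1 := 536870912) (W1 := 536870912) (P2 := 0) (W2 := 1230186008) (P3 := 1045395039) (W3 := 1503240)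
    rfl k0_A06pp_133_s1

theorem s_A06pp_133_s1 {κ x : ℝ} (hκ : κ * h0 = ken x) (hx : ((1045395039 : ℕ) : ℝ) / S ≤ x)
    (hx' : x ≤ (((1045395039 : ℕ) : ℝ) + (1503240 : ℕ)) / S) :
    AltA (VFD κ) PP tK tL pcB [⟨3, 0, 0, 1449551462⟩] 1 3 3 0 6 (sgb true) (sgb true) x :=
  strip_altAD (m := 1449551462) true rfl hκ (SH.κ0 hκ (SH.hx1 hx).le (SH.hx2 hx').le) (SH.hx1 hx).le (SH.hx2 hx') (covB01).cov (covB63).cov hx hx' c_A06pp_133_s1 cutA_nil (noExt_A)

noncomputable def cut_A06pp_202_s1 : Cut := Cut.of [[⟨4, 0, 0, 1449551462⟩]]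

noncomputable def f_A06pp_202_s1 : ℕ → ℕ → ℕ → ℕ → Bool := onCell 0 536870912 0 536870912 1045395039 1503240
    (rowF 0 true true true .pp 2 0 2 (qsf 0 536870912 0 536870912 2) ndB0q2 ndB6q0 pcB2 cut_A06pp_202_s1 Ext.none)

def k0_A06pp_202_s1 : ∃ t, chk3 f_A06pp_202_s1 t 1 1 1 = true :=
  ⟨(l 4), by decide +kernel⟩

theorem c_A06pp_202_s1 : CertF 0 536870912 0 536870912 1045395039 1503240 true true true .pp 2 0 2
    ndB0q2 ndB6q0 pcB2 cut_A06pp_202_s1 Ext.none :=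
  certF0 (fam := true) (s1 := true) (s2 := true) (a := 2) (b := 0) (c := 2) (cn := .pp) (n1 := ndB0q2) (n2 := ndB6q0) (pc := pcB2) (cut := cut_A06pp_202_s1) (xt := Ext.none) (P1 := 0) (W1 := 536870912) (P2 := 0) (W2 := 536870912) (P3 := 1045395039) (W3 := 1503240)
    rfl k0_A06pp_202_s1

theorem s_A06pp_202_s1 {κ x : ℝ} (hκ : κ * h0 = ken x) (hx : ((1045395039 : ℕ) : ℝ) / S ≤ x)
    (hx' : x ≤ (((1045395039 : ℕ) : ℝ) + (1503240 : ℕ)) / S) :
    AltA (VFD κ) PP tK tL pcB [⟨3, 0, 0, 1449551462⟩] 2 0 2 0 6 (sgb true) (sgb true) x :=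
  strip_altAD (m := 1449551462) true rfl hκ (SH.κ0 hκ (SH.hx1 hx).le (SH.hx2 hx').le) (SH.hx1 hx).le (SH.hx2 hx') (covB02).cov (covB60).cov hx hx' c_A06pp_202_s1 cutA_nil (noExt_A)

noncomputable def cut_A06pp_203_s1 : Cut := Cut.of [[⟨4, 0, 0, 1449551462⟩]]

noncomputable def f_A06pp_203_s1 : ℕ → ℕ → ℕ → ℕ → Bool := onCell 0 536870912 0 536870912 1045395039 1503240
    (rowF 0 true true true .up 2 0 3 (qsf 0 536870912 0 536870912 3) ndB0q2 ndB6q0 pcB3 cut_A06pp_203_s1 Ext.none)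

def k0_A06pp_203_s1 : ∃ t, chk3 f_A06pp_203_s1 t 1 1 1 = true :=
  ⟨(l 4), by decide +kernel⟩

theorem c_A06pp_203_s1 : CertF 0 536870912 0 536870912 1045395039 1503240 true true true .up 2 0 3
    ndB0q2 ndB6q0 pcB3 cut_A06pp_203_s1 Ext.none :=
  certF0 (fam := true) (s1 := true) (s2 := true) (a := 2) (b := 0) (c := 3) (cn := .up) (n1 := ndB0q2) (n2 := ndB6q0) (pc := pcB3) (cut := cut_A06pp_203_s1) (xt := Ext.none) (P1 := 0) (W1 := 536870912) (P2 := 0) (W2 := 536870912) (P3 := 1045395039) (W3 := 1503240)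
    rfl k0_A06pp_203_s1

theorem s_A06pp_203_s1 {κ x : ℝ} (hκ : κ * h0 = ken x) (hx : ((1045395039 : ℕ) : ℝ) / S ≤ x)
    (hx' : x ≤ (((1045395039 : ℕ) : ℝ) + (1503240 : ℕ)) / S) :
    AltA (VFD κ) PP tK tL pcB [⟨3, 0, 0, 1449551462⟩] 2 0 3 0 6 (sgb true) (sgb true) x :=
  strip_altAD (m := 1449551462) true rfl hκ (SH.κ0 hκ (SH.hx1 hx).le (SH.hx2 hx').le) (SH.hx1 hx).le (SH.hx2 hx') (covB02).cov (covB60).cov hx hx' c_A06pp_203_s1 cutA_nil (noExt_A)

noncomputable def cut_A06pp_213_s1 : Cut := Cut.of [[⟨4, 0, 0, 1449551462⟩]]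

noncomputable def f_A06pp_213_s1 : ℕ → ℕ → ℕ → ℕ → Bool := onCell 0 536870912 536870912 536870912 1045395039 1503240
    (rowF 0 true true true .pnn 2 1 3 (qsf 0 536870912 536870912 536870912 3) ndB0q2 ndB6q1 pcB3 cut_A06pp_213_s1 Ext.none)

def k0_A06pp_213_s1 : ∃ t, chk3 f_A06pp_213_s1 t 1 1 1 = true :=
  ⟨(l 4), by decide +kernel⟩

theorem c_A06pp_213_s1 : CertF 0 536870912 536870912 536870912 1045395039 1503240 true true true .pnn 2 1 3
    ndB0q2 ndB6q1 pcB3 cut_A06pp_213_s1 Ext.none :=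
  certF0 (fam := true) (s1 := true) (s2 := true) (a := 2) (b := 1) (c := 3) (cn := .pnn) (n1 := ndB0q2) (n2 := ndB6q1) (pc := pcB3) (cut := cut_A06pp_213_s1) (xt := Ext.none) (P1 := 0) (W1 := 536870912) (P2 := 536870912) (W2 := 536870912) (P3 := 1045395039) (W3 := 1503240)
    rfl k0_A06pp_213_s1

theorem s_A06pp_213_s1 {κ x : ℝ} (hκ : κ * h0 = ken x) (hx : ((1045395039 : ℕ) : ℝ) / S ≤ x)
    (hx' : x ≤ (((1045395039 : ℕ) : ℝ) + (1503240 : ℕ)) / S) :
    AltA (VFD κ) PP tK tL pcB [⟨3, 0, 0, 1449551462⟩] 2 1 3 0 6 (sgb true) (sgb true) x :=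
  strip_altAD (m := 1449551462) true rfl hκ (SH.κ0 hκ (SH.hx1 hx).le (SH.hx2 hx').le) (SH.hx1 hx).le (SH.hx2 hx') (covB02).cov (covB61).cov hx hx' c_A06pp_213_s1 cutA_nil (noExt_A)

noncomputable def cut_A06pm_001_s1 : Cut := Cut.of [[⟨4, 0, 0, 1449551462⟩]]

noncomputable def xt_A06pm_001_s1 : Ext := strExt dd true true false .u0 .s0m .u0m .up 0 0 1 rfl rfl gf1 vv ndB0q0 ndB6q0

noncomputable def f_A06pm_001_s1 : ℕ → ℕ → ℕ → ℕ → Bool := onCell 0 536870912 536870912 536870912 1045395039 1503240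
    (rowF 1 true true false .up 0 0 1 (qsf 0 536870912 0 536870912 1) ndB0q0 ndB6q0 pcB1 cut_A06pm_001_s1 xt_A06pm_001_s1)

def k0_A06pm_001_s1 : ∃ t, chk3 f_A06pm_001_s1 t 1 1 1 = true :=
  ⟨(a (b (l 3) (b (b (l 3) (l 2)) (l 2))) (b (b (l 3) (a (l 3) (a (b (l 3) (l 525278991)) (b (l 527532047) (a (l 526134031) (l 526628367)))))) (a (b (a (b (a (l 3) (b (l 3) (l 523382287))) (a (l 2) (l 523098127))) (b (a (l 523757327) (l 524259855)) (a (l 524256783) (l 524564495)))) (b (a (l 2) (b (l 524866319) (l 2))) (l 2))) (b (b (a (a (l 524713231) (l 525119247)) (a (l 525479439) (l 525794831))) (a (b (l 524904975) (l 525004047)) (b (l 16381184) (l 16445200)))) (b (a (b (l 525173775) (l 188004473303)) (b (l 16384224) (l 16324976))) (b (a (l 16335304) (l 16238424)) (a (l 2) (l 196593940583)))))))), by decide +kernel⟩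

theorem c_A06pm_001_s1 : CertF 0 536870912 0 536870912 1045395039 1503240 true true false .up 0 0 1
    ndB0q0 ndB6q0 pcB1 cut_A06pm_001_s1 xt_A06pm_001_s1 :=
  certF1 (fam := true) (s1 := true) (s2 := false) (a := 0) (b := 0) (c := 1) (cn := .up) (n1 := ndB0q0) (n2 := ndB6q0) (pc := pcB1) (cut := cut_A06pm_001_s1) (xt := xt_A06pm_001_s1) (P1 := 0) (W1 := 536870912) (P2 := 0) (W2 := 536870912) (P3 := 1045395039) (W3 := 1503240)
    rfl (fun _ => rfl) k0_A06pm_001_s1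

theorem s_A06pm_001_s1 {κ x : ℝ} (hκ : κ * h0 = ken x) (hx : ((1045395039 : ℕ) : ℝ) / S ≤ x)
    (hx' : x ≤ (((1045395039 : ℕ) : ℝ) + (1503240 : ℕ)) / S) :
    AltA (VFD κ) PP tK tL pcB [⟨3, 0, 0, 1449551462⟩] 0 0 1 0 6 (sgb true) (sgb false) x :=
  strip_altAD (m := 1449551462) true rfl hκ (SH.κ0 hκ (SH.hx1 hx).le (SH.hx2 hx').le) (SH.hx1 hx).le (SH.hx2 hx') (covB00).cov (covB60).cov hx hx' c_A06pm_001_s1 cutA_nil ((okx hx hx').extA (T := tt) (sideB hx hx') hκ rfl rfl (.O 0 true) (.N 0 false) (Or.inr rfl))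

noncomputable def cut_A06pm_011_s1 : Cut := Cut.of [[⟨4, 0, 0, 1449551462⟩], [⟨0, 0, 0, 16777216⟩, ⟨1, 1, 0, 16777216⟩, ⟨2, 1, 0, 16777216⟩]]

noncomputable def xt_A06pm_011_s1 : Ext := strExt dd true true false .u0 .s0m .u0m .pnn 0 1 1 rfl rfl gf1 vv ndB0q0 ndB6q1

noncomputable def f_A06pm_011_s1 : ℕ → ℕ → ℕ → ℕ → Bool := onCell 0 536870912 536870912 536870912 1045395039 1503240
    (rowF 1 true true false .pnn 0 1 1 (qsf 0 536870912 536870912 536870912 1) ndB0q0 ndB6q1 pcB1 cut_A06pm_011_s1 xt_A06pm_011_s1)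

def k0_A06pm_011_s1 : ∃ t, chk3 f_A06pm_011_s1 t 1 2 1 = true :=
  ⟨(a (l 3) (a (b (l 1) (l 3)) (l 1))), by decide +kernel⟩

def k1_A06pm_011_s1 : ∃ t, chk3 f_A06pm_011_s1 t 2 6 1 = true :=
  ⟨(a (l 3) (a (l 3) (b (l 3) (b (l 3) (a (l 523106319) (l 523507727)))))), by decide +kernel⟩

def k2_A06pm_011_s1 : ∃ t, chk3 f_A06pm_011_s1 t 2 14 1 = true :=
  ⟨(a (a (l 3) (a (l 3) (b (l 3) (a (l 3) (b (l 3) (a (l 524036879) (l 524073999))))))) (a (a (b (l 3) (a (b (l 3) (l 524041743)) (b (l 523910671) (l 524019215)))) (b (l 523503119) (b (l 524099343) (l 523977999)))) (b (a (l 523846415) (l 524150287)) (a (l 524172047) (l 524204815))))), by decide +kernel⟩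

def k3_A06pm_011_s1 : ∃ t, chk3 f_A06pm_011_s1 t 4 30 1 = true :=
  ⟨(a (b (l 3) (b (l 3) (a (l 3) (a (l 3) (a (l 3) (l 523761423)))))) (a (b (a (l 3) (a (l 3) (l 523797263))) (a (a (l 523748623) (l 523677199)) (a (l 523653391) (l 523676431)))) (a (b (a (l 523844623) (l 523935247)) (a (l 523745551) (l 523859471))) (b (b (l 523939343) (a (l 524106767) (l 16746432))) (b (l 16734936) (l 16718144)))))), by decide +kernel⟩

def k4_A06pm_011_s1 : ∃ t, chk3 f_A06pm_011_s1 t 8 62 1 = true :=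
  ⟨(b (a (l 3) (a (a (l 3) (a (l 3) (l 523792399))) (a (l 523588623) (l 523388943)))) (a (a (l 3) (a (l 3) (a (l 3) (a (l 3) (a (l 3) (l 523725583)))))) (a (a (a (a (l 523676175) (l 523611407)) (l 523505935)) (a (l 523379215) (l 523253007))) (a (a (l 523129359) (l 523005455)) (l 522812687))))), by decide +kernel⟩

def k5_A06pm_011_s1 : ∃ t, chk3 f_A06pm_011_s1 t 8 63 1 = true :=
  ⟨(b (a (b (a (l 3) (a (a (l 3) (a (l 3) (a (l 3) (l 524068367)))) (a (a (l 523940111) (l 523605263)) (a (l 523142159) (b (l 522569999) (l 522176271)))))) (a (a (l 3) (a (l 3) (a (l 3) (a (l 3) (l 523051023))))) (a (a (a (a (l 523189007) (l 523326479)) (l 523524111)) (a (l 523798799) (b (a (l 523622927) (l 523616527)) (l 523594255)))) (a (a (b (l 523467535) (l 16759008)) (b (l 523102223) (l 16767128))) (b (l 522148111) (l 16762600)))))) (a (a (b (a (b (a (l 522980367) (l 16770616)) (b (l 16767792) (l 16723104))) (b (l 16767128)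 (l 16719672))) (a (b (l 16740088) (l 16755992)) (b (l 16671696) (l 16750112)))) (b (b (l 16759968) (l 16670456)) (l 16703496))) (a (b (l 16747248) (l 16651264)) (b (l 16652928) (l 16724432))))) (a (a (b (a (b (l 3) (l 14)) (a (a (a (a (l 523248655) (l 523319311)) (a (l 523389711) (l 523460111))) (a (a (l 523529999) (l 523599887)) (l 523699215))) (a (a (l 523839247) (l 523978511)) (a (l 524117519) (l 524147983))))) (a (l 14) (a (a (l 14) (a (l 14) (b (l 16766096) (l 14)))) (a (b (l 16764368) (l 16764856)) (b (l 16767232) (l 16720352)))))) (a (a (a (a (l 523496719) (l 523356943)) (b (l 523638799) (l 16759584))) (a (b (l 523363343) (l 16714888)) (l 522587663))) (a (b (b (l 16763792) (l 16758504)) (l 16708120)) (b (b (l 16759224) (l 16755824)) (l 16747040))))) (a (a (a (b (l 16750344) (l 16745616)) (b (l 16659896) (l 16737616))) (b (l 16692840) (l 16643536))) (b (l 16635032) (l 16626496))))), by decide +kernel⟩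

def k6_A06pm_011_s1 : ∃ t, chk3 f_A06pm_011_s1 t 9 31 1 = true :=
  ⟨(b (a (a (b (a (l 523250447) (l 523186191)) (a (l 522657807) (l 522629391))) (b (l 523206415) (l 522674703))) (a (b (l 16717720) (l 16698912)) (b (l 16700080) (l 16681288)))) (a (b (a (b (l 16637056) (l 16624184)) (l 16693712)) (a (l 16607824) (l 16670064))) (b (a (l 16590544) (l 16656912)) (l 16641568)))), by decide +kernel⟩

def k7_A06pm_011_s1 : ∃ t, chk3 f_A06pm_011_s1 t 5 15 1 = true :=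
  ⟨(b (a (a (b (a (b (l 523976975) (l 16732024)) (l 523886607)) (a (l 16718632) (l 16688192))) (b (l 523781903) (l 16656352))) (a (b (l 16647080) (l 16612792)) (l 16585720))) (b (a (a (b (l 16672488) (l 16654592)) (b (l 16631296) (l 16613008))) (b (l 16563184) (l 16544624))) (a (a (b (l 16630936) (l 16607424)) (l 16537168)) (a (l 16534208) (l 16488040))))), by decide +kernel⟩

def k8_A06pm_011_s1 : ∃ t, chk3 f_A06pm_011_s1 t 3 3 1 = true :=
  ⟨(a (b (a (b (a (l 3) (l 522433039)) (a (l 523598863) (l 523968783))) (b (a (l 523779343) (l 1)) (a (l 524299791) (l 524592655)))) (b (a (b (l 524507151) (a (l 524264463) (l 16570568))) (b (l 524921615) (l 524521487))) (b (a (a (l 16540368) (l 16494080)) (l 16423408)) (b (a (l 16461248) (l 16363752)) (a (l 16416888) (l 16319952)))))) (b (b (l 1) (a (l 524951823) (l 1))) (b (a (b (l 16487432) (l 16412904)) (l 311417385847)) (b (a (l 16327904) (l 16232536)) (a (l 16242632)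 (l 16158272)))))), by decide +kernel⟩

theorem t9_A06pm_011_s1 : ∃ t, chk3 f_A06pm_011_s1 t 8 31 1 = true := ex3_b k4_A06pm_011_s1 k5_A06pm_011_s1

theorem t10_A06pm_011_s1 : ∃ t, chk3 f_A06pm_011_s1 t 4 31 1 = true := ex3_a t9_A06pm_011_s1 k6_A06pm_011_s1

theorem t11_A06pm_011_s1 : ∃ t, chk3 f_A06pm_011_s1 t 4 15 1 = true := ex3_b k3_A06pm_011_s1 t10_A06pm_011_s1

theorem t12_A06pm_011_s1 : ∃ t, chk3 f_A06pm_011_s1 t 2 15 1 = true := ex3_a t11_A06pm_011_s1 k7_A06pm_011_s1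

theorem t13_A06pm_011_s1 : ∃ t, chk3 f_A06pm_011_s1 t 2 7 1 = true := ex3_b k2_A06pm_011_s1 t12_A06pm_011_s1

theorem t14_A06pm_011_s1 : ∃ t, chk3 f_A06pm_011_s1 t 2 3 1 = true := ex3_b k1_A06pm_011_s1 t13_A06pm_011_s1

theorem t15_A06pm_011_s1 : ∃ t, chk3 f_A06pm_011_s1 t 1 3 1 = true := ex3_a t14_A06pm_011_s1 k8_A06pm_011_s1

theorem t16_A06pm_011_s1 : ∃ t, chk3 f_A06pm_011_s1 t 1 1 1 = true := ex3_b k0_A06pm_011_s1 t15_A06pm_011_s1

theorem c_A06pm_011_s1 : CertF 0 536870912 536870912 536870912 1045395039 1503240 true true false .pnn 0 1 1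
    ndB0q0 ndB6q1 pcB1 cut_A06pm_011_s1 xt_A06pm_011_s1 :=
  certF1 (fam := true) (s1 := true) (s2 := false) (a := 0) (b := 1) (c := 1) (cn := .pnn) (n1 := ndB0q0) (n2 := ndB6q1) (pc := pcB1) (cut := cut_A06pm_011_s1) (xt := xt_A06pm_011_s1) (P1 := 0) (W1 := 536870912) (P2 := 536870912) (W2 := 536870912) (P3 := 1045395039) (W3 := 1503240)
    rfl (fun _ => rfl) t16_A06pm_011_s1

theorem s_A06pm_011_s1 {κ x : ℝ} (hκ : κ * h0 = ken x) (hx : ((1045395039 : ℕ) : ℝ) / S ≤ x)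
    (hx' : x ≤ (((1045395039 : ℕ) : ℝ) + (1503240 : ℕ)) / S)
    (H : CutA (VFD κ) PP tK tL pcB (Cut.of [[⟨0, 0, 0, 16777216⟩, ⟨1, 1, 0, 16777216⟩, ⟨2, 1, 0, 16777216⟩]]) 0 1 1 0 6 (sgb true) (sgb false) x) :
    AltA (VFD κ) PP tK tL pcB [⟨3, 0, 0, 1449551462⟩] 0 1 1 0 6 (sgb true) (sgb false) x :=
  strip_altAD (m := 1449551462) true rfl hκ (SH.κ0 hκ (SH.hx1 hx).le (SH.hx2 hx').le) (SH.hx1 hx).le (SH.hx2 hx') (covB00).cov (covB61).cov hx hx' c_A06pm_011_s1 H ((okx hx hx').extA (T := tt) (sideB hx hx') hκ rfl rfl (.O 0 true) (.N 1 false) (Or.inr rfl))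

noncomputable def cut_A06pm_012_s1 : Cut := Cut.of [[⟨4, 0, 0, 1449551462⟩], [⟨0, 0, 0, 26843545⟩, ⟨1, 1, 0, 26843545⟩, ⟨2, 1, 0, 26843545⟩]]

noncomputable def f_A06pm_012_s1 : ℕ → ℕ → ℕ → ℕ → Bool := onCell 1073741824 536870912 536870912 536870912 1045395039 1503240
    (rowF 2 true true false .pnp 0 1 2 (qsf 0 536870912 536870912 536870912 2) ndB0q0 ndB6q1 pcB2 cut_A06pm_012_s1 Ext.none)

def k0_A06pm_012_s1 : ∃ t, chk3 f_A06pm_012_s1 t 4 1 1 = true :=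
  ⟨(b (b (a (b (a (l 16138928) (l 6)) (a (l 16236384) (l 16122304))) (l 6)) (b (a (a (l 16233944) (l 16132432)) (l 15961472)) (a (a (a (l 16191648) (l 16142504)) (l 16156808)) (b (l 15997784) (l 16017088))))) (a (b (b (a (b (l 16353824) (l 16441176)) (b (l 16241344) (l 16343664))) (a (b (l 16526512) (l 16465368)) (b (l 16431304) (l 16428696)))) (b (a (a (b (l 16612128) (b (l 16591584) (a (l 16525808) (l 16568928)))) (b (l 16437800) (b (l 16517256) (l 16510232)))) (b (l 16337536) (a (l 16356072) (l 16370208)))) (a (b (a (a (b (l 16545248) (b (l 16646848) (l 16613752))) (b (l 16579272) (b (l 16589416) (l 16592720)))) (b (l 16510296) (a (l 16535192) (l 16484112)))) (a (b (a (b (a (a (l 16693096) (l 16673832)) (l 16646344)) (a (b (l 16613088) (l 14)) (b (l 16656352) (l 16665256)))) (b (l 16595952) (a (l 16621464) (l 16585144)))) (b (a (l 14) (a (b (l 16633600) (l 14)) (l 16556536))) (l 14))) (b (a (l 16534152)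 (l 16475072)) (a (b (a (l 16559680) (l 16524200)) (a (l 16533472) (l 16536592))) (b (l 16475800) (l 16397312)))))) (b (b (a (l 16425768) (l 16346728)) (a (l 16413792) (l 16327832))) (a (b (l 16394992) (a (l 16415832) (l 16358888))) (b (l 16300760) (l 16281512))))))) (b (b (b (a (l 16122144) (l 16013672)) (a (l 16229056) (l 16013216))) (b (a (l 16333472) (l 16226592)) (a (l 16321216) (l 16227024)))) (b (b (a (l 16301664) (l 16197040)) (a (l 16270000) (l 16152168))) (b (a (b (a (l 16271248) (l 16199256)) (a (l 16247480) (l 16171576))) (b (l 16019280) (a (l 16100616) (l 16032528)))) (a (a (b (l 16215984) (l 16190240)) (l 16037024)) (a (l 16045976) (l 15975168)))))))), by decide +kernel⟩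

def k1_A06pm_012_s1 : ∃ t, chk3 f_A06pm_012_s1 t 5 1 1 = true :=
  ⟨(b (b (l 6) (l 6)) (b (a (b (b (l 6) (a (l 15889024) (l 6))) (b (a (l 16089416) (l 6)) (a (l 16145888) (l 16077112)))) (l 6)) (b (a (b (a (l 16107720) (l 16033400)) (a (l 16051664) (l 15968600))) (l 6)) (a (b (b (l 15779760) (a (a (l 15969560) (l 15916600)) (l 15845224))) (a (a (l 15907896) (a (l 15859864) (a (l 15836424) (a (l 15824936) (l 15816840))))) (b (l 15777032) (l 15733544)))) (a (a (b (l 15813480) (l 15675248)) (l 6)) (l 6)))))), by decide +kernel⟩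

def k2_A06pm_012_s1 : ∃ t, chk3 f_A06pm_012_s1 t 3 1 1 = true :=
  ⟨(b (l 6) (l 6)), by decide +kernel⟩

theorem t3_A06pm_012_s1 : ∃ t, chk3 f_A06pm_012_s1 t 2 1 1 = true := ex3_a k0_A06pm_012_s1 k1_A06pm_012_s1

theorem t4_A06pm_012_s1 : ∃ t, chk3 f_A06pm_012_s1 t 1 1 1 = true := ex3_a t3_A06pm_012_s1 k2_A06pm_012_s1

theorem c_A06pm_012_s1 : CertF 0 536870912 536870912 536870912 1045395039 1503240 true true false .pnp 0 1 2
    ndB0q0 ndB6q1 pcB2 cut_A06pm_012_s1 Ext.none :=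
  certF2 (fam := true) (s1 := true) (s2 := false) (a := 0) (b := 1) (c := 2) (cn := .pnp) (n1 := ndB0q0) (n2 := ndB6q1) (pc := pcB2) (cut := cut_A06pm_012_s1) (xt := Ext.none) (P1 := 0) (W1 := 536870912) (P2 := 536870912) (W2 := 536870912) (P3 := 1045395039) (W3 := 1503240)
    rfl (fun _ => rfl) t4_A06pm_012_s1

theorem s_A06pm_012_s1 {κ x : ℝ} (hκ : κ * h0 = ken x) (hx : ((1045395039 : ℕ) : ℝ) / S ≤ x)
    (hx' : x ≤ (((1045395039 : ℕ) : ℝ) + (1503240 : ℕ)) / S)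
    (H : CutA (VFD κ) PP tK tL pcB (Cut.of [[⟨0, 0, 0, 26843545⟩, ⟨1, 1, 0, 26843545⟩, ⟨2, 1, 0, 26843545⟩]]) 0 1 2 0 6 (sgb true) (sgb false) x) :
    AltA (VFD κ) PP tK tL pcB [⟨3, 0, 0, 1449551462⟩] 0 1 2 0 6 (sgb true) (sgb false) x :=
  strip_altAD (m := 1449551462) true rfl hκ (SH.κ0 hκ (SH.hx1 hx).le (SH.hx2 hx').le) (SH.hx1 hx).le (SH.hx2 hx') (covB00).cov (covB61).cov hx hx' c_A06pm_012_s1 H (noExt_A)

noncomputable def cut_A06pm_022_s1 : Cut := Cut.of [[⟨4, 0, 0, 1449551462⟩], [⟨0, 0, 0, 26843545⟩, ⟨1, 1, 0, 26843545⟩, ⟨2, 1, 0, 26843545⟩]]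

noncomputable def f_A06pm_022_s1 : ℕ → ℕ → ℕ → ℕ → Bool := onCell 0 536870912 1073741824 536870912 1045395039 1503240
    (rowF 1 true true false .pp 0 2 2 (qsf 0 536870912 1073741824 536870912 2) ndB0q0 ndB6q2 pcB2 cut_A06pm_022_s1 Ext.none)

def k0_A06pm_022_s1 : ∃ t, chk3 f_A06pm_022_s1 t 2 4 1 = true :=
  ⟨(b (a (a (b (a (a (b (l 14) (b (l 14) (a (l 16609672) (l 16626384)))) (a (b (l 14) (b (l 14) (l 16556560))) (b (l 1) (a (l 80563587431) (l 74121079511))))) (a (b (l 1) (a (b (l 1) (l 16423416)) (l 1))) (l 1))) (a (a (b (b (a (l 16687824) (l 16620816)) (b (l 16568576) (l 16566096))) (b (l 16561640) (l 16559080))) (b (a (l 16549944) (l 16480816)) (a (l 16466336) (l 16483512)))) (a (b (a (l 16417704) (l 16359080)) (l 16388832)) (b (b (l 1) (l 16276200)) (l 16276280))))) (a (b (l 1) (a (b (l 1) (l 16175664)) (l 1))) (l 1))) (l 1)) (a (a (a (b (a (b (l 16620856) (l 16570824)) (b (a (l 16552248) (l 16489128))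 (l 16519512))) (a (l 16320976) (b (l 16517088) (l 16517464)))) (b (a (b (a (l 16430136) (l 16371984)) (l 16327608)) (b (l 16285192) (l 16220104))) (b (a (l 16422680) (l 16324320)) (l 16303328)))) (b (a (a (b (l 16180752) (l 16196192)) (b (l 16086200) (l 16096232))) (b (l 1) (l 15960816))) (a (b (a (l 16221928) (l 16117320)) (a (l 16249712) (l 16149384))) (b (l 15971856) (l 15994416))))) (a (b (l 1) (a (b (l 1) (l 15814368)) (l 1))) (l 1)))), by decide +kernel⟩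

def k1_A06pm_022_s1 : ∃ t, chk3 f_A06pm_022_s1 t 2 5 1 = true :=
  ⟨(a (a (b (b (a (b (a (l 16394952) (l 16469512)) (b (a (l 16337312) (l 16413064)) (a (b (l 16301680) (l 16269944)) (b (l 16378792) (l 16264840))))) (b (l 16402120) (b (l 16418008) (b (l 16430864) (l 16361096))))) (a (a (l 16211048) (l 16205648)) (l 16309640))) (a (b (a (l 16134456) (l 16211984)) (l 15938608)) (b (l 16312304) (l 16242104)))) (b (b (a (b (a (l 16278296) (l 16184720)) (b (l 16257176) (b (l 16271640) (l 16202104)))) (b (a (l 16083800) (l 15977752)) (b (a (l 16118248) (l 16012416)) (b (l 16000568) (a (l 16154720) (l 16049248)))))) (a (l 16297232) (a (l 16176176) (b (l 16070552) (l 16096448))))) (b (a (l 16291144) (l 16153456)) (a (l 16273912) (l 16155408))))) (b (a (b (b (a (l 15829832) (l 1)) (b (a (l 15852856) (l 1)) (b (a (l 15868296) (l 1)) (a (b (l 15878064) (l 15885168)) (b (l 1) (l 15689880)))))) (a (b (a (l 15963336)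 (l 15852912)) (a (l 15998168) (l 15893056))) (a (l 15765616) (l 15671464)))) (b (l 1) (a (a (l 15591568) (l 1)) (l 1)))) (b (a (a (a (l 16034336) (b (l 15929696) (l 15959360))) (a (b (l 15826616) (l 15865112)) (b (l 15720304) (l 15764008)))) (a (a (l 15642904) (l 15559288)) (l 15400936))) (a (a (l 16021008) (a (l 15907160) (l 6))) (l 6))))), by decide +kernel⟩

def k2_A06pm_022_s1 : ∃ t, chk3 f_A06pm_022_s1 t 2 3 1 = true :=
  ⟨(b (b (a (a (a (b (l 15969536) (l 16011296)) (l 16157016)) (b (a (l 16246784) (l 16147112)) (l 6))) (l 6)) (l 6)) (l 6)), by decide +kernel⟩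

def k3_A06pm_022_s1 : ∃ t, chk3 f_A06pm_022_s1 t 3 1 1 = true :=
  ⟨(b (a (b (l 1) (b (l 1) (l 6))) (l 1)) (l 6)), by decide +kernel⟩

theorem t4_A06pm_022_s1 : ∃ t, chk3 f_A06pm_022_s1 t 2 2 1 = true := ex3_b k0_A06pm_022_s1 k1_A06pm_022_s1

theorem t5_A06pm_022_s1 : ∃ t, chk3 f_A06pm_022_s1 t 2 1 1 = true := ex3_b t4_A06pm_022_s1 k2_A06pm_022_s1

theorem t6_A06pm_022_s1 : ∃ t, chk3 f_A06pm_022_s1 t 1 1 1 = true := ex3_a t5_A06pm_022_s1 k3_A06pm_022_s1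

theorem c_A06pm_022_s1 : CertF 0 536870912 1073741824 536870912 1045395039 1503240 true true false .pp 0 2 2
    ndB0q0 ndB6q2 pcB2 cut_A06pm_022_s1 Ext.none :=
  certF1 (fam := true) (s1 := true) (s2 := false) (a := 0) (b := 2) (c := 2) (cn := .pp) (n1 := ndB0q0) (n2 := ndB6q2) (pc := pcB2) (cut := cut_A06pm_022_s1) (xt := Ext.none) (P1 := 0) (W1 := 536870912) (P2 := 1073741824) (W2 := 536870912) (P3 := 1045395039) (W3 := 1503240)
    rfl (fun _ => rfl) t6_A06pm_022_s1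

theorem s_A06pm_022_s1 {κ x : ℝ} (hκ : κ * h0 = ken x) (hx : ((1045395039 : ℕ) : ℝ) / S ≤ x)
    (hx' : x ≤ (((1045395039 : ℕ) : ℝ) + (1503240 : ℕ)) / S)
    (H : CutA (VFD κ) PP tK tL pcB (Cut.of [[⟨0, 0, 0, 26843545⟩, ⟨1, 1, 0, 26843545⟩, ⟨2, 1, 0, 26843545⟩]]) 0 2 2 0 6 (sgb true) (sgb false) x) :
    AltA (VFD κ) PP tK tL pcB [⟨3, 0, 0, 1449551462⟩] 0 2 2 0 6 (sgb true) (sgb false) x :=
  strip_altAD (m := 1449551462) true rfl hκ (SH.κ0 hκ (SH.hx1 hx).le (SH.hx2 hx').le) (SH.hx1 hx).le (SH.hx2 hx') (covB00).cov (covB62).cov hx hx' c_A06pm_022_s1 H (noExt_A)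

noncomputable def cut_A06pm_023_s1 : Cut := Cut.of [[⟨4, 0, 0, 1449551462⟩]]

noncomputable def f_A06pm_023_s1 : ℕ → ℕ → ℕ → ℕ → Bool := onCell 1610612736 536870912 1073741824 536870912 1045395039 1503240
    (rowF 2 true true false .up 0 2 3 (qsf 0 536870912 1073741824 536870912 3) ndB0q0 ndB6q2 pcB3 cut_A06pm_023_s1 Ext.none)

def k0_A06pm_023_s1 : ∃ t, chk3 f_A06pm_023_s1 t 1 1 1 = true :=
  ⟨(a (l 6) (l 6)), by decide +kernel⟩

theorem c_A06pm_023_s1 : CertF 0 536870912 1073741824 536870912 1045395039 1503240 true true false .up 0 2 3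
    ndB0q0 ndB6q2 pcB3 cut_A06pm_023_s1 Ext.none :=
  certF2 (fam := true) (s1 := true) (s2 := false) (a := 0) (b := 2) (c := 3) (cn := .up) (n1 := ndB0q0) (n2 := ndB6q2) (pc := pcB3) (cut := cut_A06pm_023_s1) (xt := Ext.none) (P1 := 0) (W1 := 536870912) (P2 := 1073741824) (W2 := 536870912) (P3 := 1045395039) (W3 := 1503240)
    rfl (fun _ => rfl) k0_A06pm_023_s1

theorem s_A06pm_023_s1 {κ x : ℝ} (hκ : κ * h0 = ken x) (hx : ((1045395039 : ℕ) : ℝ) / S ≤ x)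
    (hx' : x ≤ (((1045395039 : ℕ) : ℝ) + (1503240 : ℕ)) / S) :
    AltA (VFD κ) PP tK tL pcB [⟨3, 0, 0, 1449551462⟩] 0 2 3 0 6 (sgb true) (sgb false) x :=
  strip_altAD (m := 1449551462) true rfl hκ (SH.κ0 hκ (SH.hx1 hx).le (SH.hx2 hx').le) (SH.hx1 hx).le (SH.hx2 hx') (covB00).cov (covB62).cov hx hx' c_A06pm_023_s1 cutA_nil (noExt_A)

noncomputable def cut_A06pm_033_s1 : Cut := Cut.of [[⟨4, 0, 0, 1449551462⟩]]

noncomputable def f_A06pm_033_s1 : ℕ → ℕ → ℕ → ℕ → Bool := onCell 1610612736 536870912 0 1230186008 1045395039 1503240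
    (rowF 2 true true false .pnn 0 3 3 (qsf 0 536870912 0 1230186008 3) ndB0q0 ndB6q3 pcB3 cut_A06pm_033_s1 Ext.none)

def k0_A06pm_033_s1 : ∃ t, chk3 f_A06pm_033_s1 t 1 1 1 = true :=
  ⟨(b (l 6) (l 6)), by decide +kernel⟩

theorem c_A06pm_033_s1 : CertF 0 536870912 0 1230186008 1045395039 1503240 true true false .pnn 0 3 3
    ndB0q0 ndB6q3 pcB3 cut_A06pm_033_s1 Ext.none :=
  certF2 (fam := true) (s1 := true) (s2 := false) (a := 0) (b := 3) (c := 3) (cn := .pnn) (n1 := ndB0q0) (n2 := ndB6q3) (pc := pcB3) (cut := cut_A06pm_033_s1) (xt := Ext.none) (P1 := 0) (W1 := 536870912) (P2 := 0) (W2 := 1230186008) (P3 := 1045395039) (W3 := 1503240)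
    rfl (fun _ => rfl) k0_A06pm_033_s1

theorem s_A06pm_033_s1 {κ x : ℝ} (hκ : κ * h0 = ken x) (hx : ((1045395039 : ℕ) : ℝ) / S ≤ x)
    (hx' : x ≤ (((1045395039 : ℕ) : ℝ) + (1503240 : ℕ)) / S) :
    AltA (VFD κ) PP tK tL pcB [⟨3, 0, 0, 1449551462⟩] 0 3 3 0 6 (sgb true) (sgb false) x :=
  strip_altAD (m := 1449551462) true rfl hκ (SH.κ0 hκ (SH.hx1 hx).le (SH.hx2 hx').le) (SH.hx1 hx).le (SH.hx2 hx') (covB00).cov (covB63).cov hx hx' c_A06pm_033_s1 cutA_nil (noExt_A)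

noncomputable def cut_A06pm_101_s1 : Cut := Cut.of [[⟨4, 0, 0, 1449551462⟩]]

noncomputable def xt_A06pm_101_s1 : Ext := strExt dd true true false .u0 .s0m .u0m .npn 1 0 1 rfl rfl gf1 vv ndB0q1 ndB6q0

noncomputable def f_A06pm_101_s1 : ℕ → ℕ → ℕ → ℕ → Bool := onCell 536870912 536870912 536870912 536870912 1045395039 1503240
    (rowF 1 true true false .npn 1 0 1 (qsf 536870912 536870912 0 536870912 1) ndB0q1 ndB6q0 pcB1 cut_A06pm_101_s1 xt_A06pm_101_s1)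

def k0_A06pm_101_s1 : ∃ t, chk3 f_A06pm_101_s1 t 1 1 1 = true :=
  ⟨(b (a (b (a (b (a (l 3) (l 531204879)) (a (l 530415119) (l 531564559))) (a (b (l 1) (l 531395087)) (l 1))) (a (b (a (l 528748815) (l 529716495)) (a (l 527270927) (l 527950607))) (b (a (l 530450959) (b (l 1) (l 16378288))) (a (l 528435471) (a (l 16236088) (l 16113632)))))) (a (b (l 1) (a (b (l 1) (l 366714572039)) (l 1))) (l 1))) (a (b (a (b (a (l 526185743) (l 526569999)) (a (l 525559823) (b (l 16297400) (l 16221720)))) (b (a (b (l 16348152) (l 16259688)) (b (l 16217800) (l 16122504))) (a (l 15959608) (l 15991952)))) (b (a (a (b (l 16273424) (l 16210032)) (b (l 16149488) (l 16086192))) (a (l 15989736) (l 6))) (a (a (b (l 16151216) (l 16098624)) (l 16003192)) (l 6)))) (a (b (b (l 6) (l 6)) (l 6)) (l 6)))), by decide +kernel⟩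

theorem c_A06pm_101_s1 : CertF 536870912 536870912 0 536870912 1045395039 1503240 true true false .npn 1 0 1
    ndB0q1 ndB6q0 pcB1 cut_A06pm_101_s1 xt_A06pm_101_s1 :=
  certF1 (fam := true) (s1 := true) (s2 := false) (a := 1) (b := 0) (c := 1) (cn := .npn) (n1 := ndB0q1) (n2 := ndB6q0) (pc := pcB1) (cut := cut_A06pm_101_s1) (xt := xt_A06pm_101_s1) (P1 := 536870912) (W1 := 536870912) (P2 := 0) (W2 := 536870912) (P3 := 1045395039) (W3 := 1503240)
    rfl (fun _ => rfl) k0_A06pm_101_s1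

theorem s_A06pm_101_s1 {κ x : ℝ} (hκ : κ * h0 = ken x) (hx : ((1045395039 : ℕ) : ℝ) / S ≤ x)
    (hx' : x ≤ (((1045395039 : ℕ) : ℝ) + (1503240 : ℕ)) / S) :
    AltA (VFD κ) PP tK tL pcB [⟨3, 0, 0, 1449551462⟩] 1 0 1 0 6 (sgb true) (sgb false) x :=
  strip_altAD (m := 1449551462) true rfl hκ (SH.κ0 hκ (SH.hx1 hx).le (SH.hx2 hx').le) (SH.hx1 hx).le (SH.hx2 hx') (covB01).cov (covB60).cov hx hx' c_A06pm_101_s1 cutA_nil ((okx hx hx').extA (T := tt) (sideB hx hx') hκ rfl rfl (.O 1 true) (.N 0 false) (Or.inr rfl))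

noncomputable def cut_A06pm_102_s1 : Cut := Cut.of [[⟨4, 0, 0, 1449551462⟩]]

noncomputable def f_A06pm_102_s1 : ℕ → ℕ → ℕ → ℕ → Bool := onCell 536870912 536870912 1073741824 536870912 1045395039 1503240
    (rowF 1 true true false .npp 1 0 2 (qsf 536870912 536870912 0 536870912 2) ndB0q1 ndB6q0 pcB2 cut_A06pm_102_s1 Ext.none)

def k0_A06pm_102_s1 : ∃ t, chk3 f_A06pm_102_s1 t 1 1 1 = true :=
  ⟨(a (b (b (a (b (a (b (l 16066800) (l 6)) (l 6)) (l 6)) (l 6)) (l 6)) (l 6)) (l 6)), by decide +kernel⟩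

theorem c_A06pm_102_s1 : CertF 536870912 536870912 0 536870912 1045395039 1503240 true true false .npp 1 0 2
    ndB0q1 ndB6q0 pcB2 cut_A06pm_102_s1 Ext.none :=
  certF1 (fam := true) (s1 := true) (s2 := false) (a := 1) (b := 0) (c := 2) (cn := .npp) (n1 := ndB0q1) (n2 := ndB6q0) (pc := pcB2) (cut := cut_A06pm_102_s1) (xt := Ext.none) (P1 := 536870912) (W1 := 536870912) (P2 := 0) (W2 := 536870912) (P3 := 1045395039) (W3 := 1503240)
    rfl (fun _ => rfl) k0_A06pm_102_s1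

theorem s_A06pm_102_s1 {κ x : ℝ} (hκ : κ * h0 = ken x) (hx : ((1045395039 : ℕ) : ℝ) / S ≤ x)
    (hx' : x ≤ (((1045395039 : ℕ) : ℝ) + (1503240 : ℕ)) / S) :
    AltA (VFD κ) PP tK tL pcB [⟨3, 0, 0, 1449551462⟩] 1 0 2 0 6 (sgb true) (sgb false) x :=
  strip_altAD (m := 1449551462) true rfl hκ (SH.κ0 hκ (SH.hx1 hx).le (SH.hx2 hx').le) (SH.hx1 hx).le (SH.hx2 hx') (covB01).cov (covB60).cov hx hx' c_A06pm_102_s1 cutA_nil (noExt_A)

noncomputable def cut_A06pm_112_s1 : Cut := Cut.of [[⟨4, 0, 0, 1449551462⟩]]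

noncomputable def f_A06pm_112_s1 : ℕ → ℕ → ℕ → ℕ → Bool := onCell 536870912 536870912 536870912 536870912 1045395039 1503240
    (rowF 0 true true false .dn 1 1 2 (qsf 536870912 536870912 536870912 536870912 2) ndB0q1 ndB6q1 pcB2 cut_A06pm_112_s1 Ext.none)

def k0_A06pm_112_s1 : ∃ t, chk3 f_A06pm_112_s1 t 1 1 1 = true :=
  ⟨(a (b (a (b (a (b (l 15973984) (l 6)) (l 6)) (l 6)) (l 6)) (l 6)) (l 6)), by decide +kernel⟩

theorem c_A06pm_112_s1 : CertF 536870912 536870912 536870912 536870912 1045395039 1503240 true true false .dn 1 1 2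
    ndB0q1 ndB6q1 pcB2 cut_A06pm_112_s1 Ext.none :=
  certF0 (fam := true) (s1 := true) (s2 := false) (a := 1) (b := 1) (c := 2) (cn := .dn) (n1 := ndB0q1) (n2 := ndB6q1) (pc := pcB2) (cut := cut_A06pm_112_s1) (xt := Ext.none) (P1 := 536870912) (W1 := 536870912) (P2 := 536870912) (W2 := 536870912) (P3 := 1045395039) (W3 := 1503240)
    rfl k0_A06pm_112_s1

theorem s_A06pm_112_s1 {κ x : ℝ} (hκ : κ * h0 = ken x) (hx : ((1045395039 : ℕ) : ℝ) / S ≤ x)
    (hx' : x ≤ (((1045395039 : ℕ) : ℝ) + (1503240 : ℕ)) / S) :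
    AltA (VFD κ) PP tK tL pcB [⟨3, 0, 0, 1449551462⟩] 1 1 2 0 6 (sgb true) (sgb false) x :=
  strip_altAD (m := 1449551462) true rfl hκ (SH.κ0 hκ (SH.hx1 hx).le (SH.hx2 hx').le) (SH.hx1 hx).le (SH.hx2 hx') (covB01).cov (covB61).cov hx hx' c_A06pm_112_s1 cutA_nil (noExt_A)

noncomputable def cut_A06pm_113_s1 : Cut := Cut.of [[⟨4, 0, 0, 1449551462⟩]]

noncomputable def f_A06pm_113_s1 : ℕ → ℕ → ℕ → ℕ → Bool := onCell 536870912 536870912 1610612736 536870912 1045395039 1503240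
    (rowF 1 true true false .nn 1 1 3 (qsf 536870912 536870912 536870912 536870912 3) ndB0q1 ndB6q1 pcB3 cut_A06pm_113_s1 Ext.none)

def k0_A06pm_113_s1 : ∃ t, chk3 f_A06pm_113_s1 t 1 1 1 = true :=
  ⟨(l 6), by decide +kernel⟩

theorem c_A06pm_113_s1 : CertF 536870912 536870912 536870912 536870912 1045395039 1503240 true true false .nn 1 1 3
    ndB0q1 ndB6q1 pcB3 cut_A06pm_113_s1 Ext.none :=
  certF1 (fam := true) (s1 := true) (s2 := false) (a := 1) (b := 1) (c := 3) (cn := .nn) (n1 := ndB0q1) (n2 := ndB6q1) (pc := pcB3) (cut := cut_A06pm_113_s1) (xt := Ext.none) (P1 := 536870912) (W1 := 536870912) (P2 := 536870912) (W2 := 536870912) (P3 := 1045395039) (W3 := 1503240)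
    rfl (fun _ => rfl) k0_A06pm_113_s1

theorem s_A06pm_113_s1 {κ x : ℝ} (hκ : κ * h0 = ken x) (hx : ((1045395039 : ℕ) : ℝ) / S ≤ x)
    (hx' : x ≤ (((1045395039 : ℕ) : ℝ) + (1503240 : ℕ)) / S) :
    AltA (VFD κ) PP tK tL pcB [⟨3, 0, 0, 1449551462⟩] 1 1 3 0 6 (sgb true) (sgb false) x :=
  strip_altAD (m := 1449551462) true rfl hκ (SH.κ0 hκ (SH.hx1 hx).le (SH.hx2 hx').le) (SH.hx1 hx).le (SH.hx2 hx') (covB01).cov (covB61).cov hx hx' c_A06pm_113_s1 cutA_nil (noExt_A)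

noncomputable def cut_A06pm_123_s1 : Cut := Cut.of [[⟨4, 0, 0, 1449551462⟩]]

noncomputable def f_A06pm_123_s1 : ℕ → ℕ → ℕ → ℕ → Bool := onCell 536870912 536870912 1073741824 536870912 1045395039 1503240
    (rowF 0 true true false .npn 1 2 3 (qsf 536870912 536870912 1073741824 536870912 3) ndB0q1 ndB6q2 pcB3 cut_A06pm_123_s1 Ext.none)

def k0_A06pm_123_s1 : ∃ t, chk3 f_A06pm_123_s1 t 1 1 1 = true :=
  ⟨(l 6), by decide +kernel⟩

theorem c_A06pm_123_s1 : CertF 536870912 536870912 1073741824 536870912 1045395039 1503240 true true false .npn 1 2 3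
    ndB0q1 ndB6q2 pcB3 cut_A06pm_123_s1 Ext.none :=
  certF0 (fam := true) (s1 := true) (s2 := false) (a := 1) (b := 2) (c := 3) (cn := .npn) (n1 := ndB0q1) (n2 := ndB6q2) (pc := pcB3) (cut := cut_A06pm_123_s1) (xt := Ext.none) (P1 := 536870912) (W1 := 536870912) (P2 := 1073741824) (W2 := 536870912) (P3 := 1045395039) (W3 := 1503240)
    rfl k0_A06pm_123_s1

theorem s_A06pm_123_s1 {κ x : ℝ} (hκ : κ * h0 = ken x) (hx : ((1045395039 : ℕ) : ℝ) / S ≤ x)
    (hx' : x ≤ (((1045395039 : ℕ) : ℝ) + (1503240 : ℕ)) / S) :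
    AltA (VFD κ) PP tK tL pcB [⟨3, 0, 0, 1449551462⟩] 1 2 3 0 6 (sgb true) (sgb false) x :=
  strip_altAD (m := 1449551462) true rfl hκ (SH.κ0 hκ (SH.hx1 hx).le (SH.hx2 hx').le) (SH.hx1 hx).le (SH.hx2 hx') (covB01).cov (covB62).cov hx hx' c_A06pm_123_s1 cutA_nil (noExt_A)

noncomputable def cut_A06pm_133_s1 : Cut := Cut.of [[⟨4, 0, 0, 1449551462⟩]]

noncomputable def f_A06pm_133_s1 : ℕ → ℕ → ℕ → ℕ → Bool := onCell 536870912 536870912 0 1230186008 1045395039 1503240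
    (rowF 0 true true false .dn 1 3 3 (qsf 536870912 536870912 0 1230186008 3) ndB0q1 ndB6q3 pcB3 cut_A06pm_133_s1 Ext.none)

def k0_A06pm_133_s1 : ∃ t, chk3 f_A06pm_133_s1 t 1 1 1 = true :=
  ⟨(l 6), by decide +kernel⟩

theorem c_A06pm_133_s1 : CertF 536870912 536870912 0 1230186008 1045395039 1503240 true true false .dn 1 3 3
    ndB0q1 ndB6q3 pcB3 cut_A06pm_133_s1 Ext.none :=
  certF0 (fam := true) (s1 := true) (s2 := false) (a := 1) (b := 3) (c := 3) (cn := .dn) (n1 := ndB0q1) (n2 := ndB6q3) (pc := pcB3) (cut := cut_A06pm_133_s1) (xt := Ext.none) (P1 := 536870912) (W1 := 536870912) (P2 := 0) (W2 := 1230186008) (P3 := 1045395039) (W3 := 1503240)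
    rfl k0_A06pm_133_s1

theorem s_A06pm_133_s1 {κ x : ℝ} (hκ : κ * h0 = ken x) (hx : ((1045395039 : ℕ) : ℝ) / S ≤ x)
    (hx' : x ≤ (((1045395039 : ℕ) : ℝ) + (1503240 : ℕ)) / S) :
    AltA (VFD κ) PP tK tL pcB [⟨3, 0, 0, 1449551462⟩] 1 3 3 0 6 (sgb true) (sgb false) x :=
  strip_altAD (m := 1449551462) true rfl hκ (SH.κ0 hκ (SH.hx1 hx).le (SH.hx2 hx').le) (SH.hx1 hx).le (SH.hx2 hx') (covB01).cov (covB63).cov hx hx' c_A06pm_133_s1 cutA_nil (noExt_A)

noncomputable def cut_A06pm_202_s1 : Cut := Cut.of [[⟨4, 0, 0, 1449551462⟩]]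

noncomputable def f_A06pm_202_s1 : ℕ → ℕ → ℕ → ℕ → Bool := onCell 0 536870912 0 536870912 1045395039 1503240
    (rowF 0 true true false .pp 2 0 2 (qsf 0 536870912 0 536870912 2) ndB0q2 ndB6q0 pcB2 cut_A06pm_202_s1 Ext.none)

def k0_A06pm_202_s1 : ∃ t, chk3 f_A06pm_202_s1 t 1 1 1 = true :=
  ⟨(l 6), by decide +kernel⟩

theorem c_A06pm_202_s1 : CertF 0 536870912 0 536870912 1045395039 1503240 true true false .pp 2 0 2
    ndB0q2 ndB6q0 pcB2 cut_A06pm_202_s1 Ext.none :=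
  certF0 (fam := true) (s1 := true) (s2 := false) (a := 2) (b := 0) (c := 2) (cn := .pp) (n1 := ndB0q2) (n2 := ndB6q0) (pc := pcB2) (cut := cut_A06pm_202_s1) (xt := Ext.none) (P1 := 0) (W1 := 536870912) (P2 := 0) (W2 := 536870912) (P3 := 1045395039) (W3 := 1503240)
    rfl k0_A06pm_202_s1

theorem s_A06pm_202_s1 {κ x : ℝ} (hκ : κ * h0 = ken x) (hx : ((1045395039 : ℕ) : ℝ) / S ≤ x)
    (hx' : x ≤ (((1045395039 : ℕ) : ℝ) + (1503240 : ℕ)) / S) :
    AltA (VFD κ) PP tK tL pcB [⟨3, 0, 0, 1449551462⟩] 2 0 2 0 6 (sgb true) (sgb false) x :=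
  strip_altAD (m := 1449551462) true rfl hκ (SH.κ0 hκ (SH.hx1 hx).le (SH.hx2 hx').le) (SH.hx1 hx).le (SH.hx2 hx') (covB02).cov (covB60).cov hx hx' c_A06pm_202_s1 cutA_nil (noExt_A)

noncomputable def cut_A06pm_203_s1 : Cut := Cut.of [[⟨4, 0, 0, 1449551462⟩]]

noncomputable def f_A06pm_203_s1 : ℕ → ℕ → ℕ → ℕ → Bool := onCell 0 536870912 0 536870912 1045395039 1503240
    (rowF 0 true true false .up 2 0 3 (qsf 0 536870912 0 536870912 3) ndB0q2 ndB6q0 pcB3 cut_A06pm_203_s1 Ext.none)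

def k0_A06pm_203_s1 : ∃ t, chk3 f_A06pm_203_s1 t 1 1 1 = true :=
  ⟨(l 6), by decide +kernel⟩

theorem c_A06pm_203_s1 : CertF 0 536870912 0 536870912 1045395039 1503240 true true false .up 2 0 3
    ndB0q2 ndB6q0 pcB3 cut_A06pm_203_s1 Ext.none :=
  certF0 (fam := true) (s1 := true) (s2 := false) (a := 2) (b := 0) (c := 3) (cn := .up) (n1 := ndB0q2) (n2 := ndB6q0) (pc := pcB3) (cut := cut_A06pm_203_s1) (xt := Ext.none) (P1 := 0) (W1 := 536870912) (P2 := 0) (W2 := 536870912) (P3 := 1045395039) (W3 := 1503240)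
    rfl k0_A06pm_203_s1

theorem s_A06pm_203_s1 {κ x : ℝ} (hκ : κ * h0 = ken x) (hx : ((1045395039 : ℕ) : ℝ) / S ≤ x)
    (hx' : x ≤ (((1045395039 : ℕ) : ℝ) + (1503240 : ℕ)) / S) :
    AltA (VFD κ) PP tK tL pcB [⟨3, 0, 0, 1449551462⟩] 2 0 3 0 6 (sgb true) (sgb false) x :=
  strip_altAD (m := 1449551462) true rfl hκ (SH.κ0 hκ (SH.hx1 hx).le (SH.hx2 hx').le) (SH.hx1 hx).le (SH.hx2 hx') (covB02).cov (covB60).cov hx hx' c_A06pm_203_s1 cutA_nil (noExt_A)

noncomputable def cut_A06pm_213_s1 : Cut := Cut.of [[⟨4, 0, 0, 1449551462⟩]]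

noncomputable def f_A06pm_213_s1 : ℕ → ℕ → ℕ → ℕ → Bool := onCell 0 536870912 536870912 536870912 1045395039 1503240
    (rowF 0 true true false .pnn 2 1 3 (qsf 0 536870912 536870912 536870912 3) ndB0q2 ndB6q1 pcB3 cut_A06pm_213_s1 Ext.none)

def k0_A06pm_213_s1 : ∃ t, chk3 f_A06pm_213_s1 t 1 1 1 = true :=
  ⟨(l 6), by decide +kernel⟩

theorem c_A06pm_213_s1 : CertF 0 536870912 536870912 536870912 1045395039 1503240 true true false .pnn 2 1 3
    ndB0q2 ndB6q1 pcB3 cut_A06pm_213_s1 Ext.none :=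
  certF0 (fam := true) (s1 := true) (s2 := false) (a := 2) (b := 1) (c := 3) (cn := .pnn) (n1 := ndB0q2) (n2 := ndB6q1) (pc := pcB3) (cut := cut_A06pm_213_s1) (xt := Ext.none) (P1 := 0) (W1 := 536870912) (P2 := 536870912) (W2 := 536870912) (P3 := 1045395039) (W3 := 1503240)
    rfl k0_A06pm_213_s1

theorem s_A06pm_213_s1 {κ x : ℝ} (hκ : κ * h0 = ken x) (hx : ((1045395039 : ℕ) : ℝ) / S ≤ x)
    (hx' : x ≤ (((1045395039 : ℕ) : ℝ) + (1503240 : ℕ)) / S) :
    AltA (VFD κ) PP tK tL pcB [⟨3, 0, 0, 1449551462⟩] 2 1 3 0 6 (sgb true) (sgb false) x :=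
  strip_altAD (m := 1449551462) true rfl hκ (SH.κ0 hκ (SH.hx1 hx).le (SH.hx2 hx').le) (SH.hx1 hx).le (SH.hx2 hx') (covB02).cov (covB61).cov hx hx' c_A06pm_213_s1 cutA_nil (noExt_A)

noncomputable def cut_A06mm_001_s1 : Cut := Cut.of [[⟨4, 0, 0, 1449551462⟩]]

noncomputable def f_A06mm_001_s1 : ℕ → ℕ → ℕ → ℕ → Bool := onCell 0 536870912 0 536870912 1045395039 1503240
    (rowF 0 true false false .up 0 0 1 (qsf 0 536870912 0 536870912 1) ndB0q0 ndB6q0 pcB1 cut_A06mm_001_s1 Ext.none)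

def k0_A06mm_001_s1 : ∃ t, chk3 f_A06mm_001_s1 t 1 1 1 = true :=
  ⟨(l 4), by decide +kernel⟩

theorem c_A06mm_001_s1 : CertF 0 536870912 0 536870912 1045395039 1503240 true false false .up 0 0 1
    ndB0q0 ndB6q0 pcB1 cut_A06mm_001_s1 Ext.none :=
  certF0 (fam := true) (s1 := false) (s2 := false) (a := 0) (b := 0) (c := 1) (cn := .up) (n1 := ndB0q0) (n2 := ndB6q0) (pc := pcB1) (cut := cut_A06mm_001_s1) (xt := Ext.none) (P1 := 0) (W1 := 536870912) (P2 := 0) (W2 := 536870912) (P3 := 1045395039) (W3 := 1503240)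
    rfl k0_A06mm_001_s1

theorem s_A06mm_001_s1 {κ x : ℝ} (hκ : κ * h0 = ken x) (hx : ((1045395039 : ℕ) : ℝ) / S ≤ x)
    (hx' : x ≤ (((1045395039 : ℕ) : ℝ) + (1503240 : ℕ)) / S) :
    AltA (VFD κ) PP tK tL pcB [⟨3, 0, 0, 1449551462⟩] 0 0 1 0 6 (sgb false) (sgb false) x :=
  strip_altAD (m := 1449551462) true rfl hκ (SH.κ0 hκ (SH.hx1 hx).le (SH.hx2 hx').le) (SH.hx1 hx).le (SH.hx2 hx') (covB00).cov (covB60).cov hx hx' c_A06mm_001_s1 cutA_nil (noExt_A)

noncomputable def cut_A06mm_011_s1 : Cut := Cut.of [[⟨4, 0, 0, 1449551462⟩]]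

noncomputable def f_A06mm_011_s1 : ℕ → ℕ → ℕ → ℕ → Bool := onCell 0 536870912 536870912 536870912 1045395039 1503240
    (rowF 0 true false false .pnn 0 1 1 (qsf 0 536870912 536870912 536870912 1) ndB0q0 ndB6q1 pcB1 cut_A06mm_011_s1 Ext.none)

def k0_A06mm_011_s1 : ∃ t, chk3 f_A06mm_011_s1 t 1 1 1 = true :=
  ⟨(l 4), by decide +kernel⟩

theorem c_A06mm_011_s1 : CertF 0 536870912 536870912 536870912 1045395039 1503240 true false false .pnn 0 1 1
    ndB0q0 ndB6q1 pcB1 cut_A06mm_011_s1 Ext.none :=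
  certF0 (fam := true) (s1 := false) (s2 := false) (a := 0) (b := 1) (c := 1) (cn := .pnn) (n1 := ndB0q0) (n2 := ndB6q1) (pc := pcB1) (cut := cut_A06mm_011_s1) (xt := Ext.none) (P1 := 0) (W1 := 536870912) (P2 := 536870912) (W2 := 536870912) (P3 := 1045395039) (W3 := 1503240)
    rfl k0_A06mm_011_s1

theorem s_A06mm_011_s1 {κ x : ℝ} (hκ : κ * h0 = ken x) (hx : ((1045395039 : ℕ) : ℝ) / S ≤ x)
    (hx' : x ≤ (((1045395039 : ℕ) : ℝ) + (1503240 : ℕ)) / S) :
    AltA (VFD κ) PP tK tL pcB [⟨3, 0, 0, 1449551462⟩] 0 1 1 0 6 (sgb false) (sgb false) x :=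
  strip_altAD (m := 1449551462) true rfl hκ (SH.κ0 hκ (SH.hx1 hx).le (SH.hx2 hx').le) (SH.hx1 hx).le (SH.hx2 hx') (covB00).cov (covB61).cov hx hx' c_A06mm_011_s1 cutA_nil (noExt_A)

noncomputable def cut_A06mm_012_s1 : Cut := Cut.of [[⟨4, 0, 0, 1449551462⟩]]

noncomputable def f_A06mm_012_s1 : ℕ → ℕ → ℕ → ℕ → Bool := onCell 0 536870912 536870912 536870912 1045395039 1503240
    (rowF 0 true false false .pnp 0 1 2 (qsf 0 536870912 536870912 536870912 2) ndB0q0 ndB6q1 pcB2 cut_A06mm_012_s1 Ext.none)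

def k0_A06mm_012_s1 : ∃ t, chk3 f_A06mm_012_s1 t 1 1 1 = true :=
  ⟨(l 4), by decide +kernel⟩

theorem c_A06mm_012_s1 : CertF 0 536870912 536870912 536870912 1045395039 1503240 true false false .pnp 0 1 2
    ndB0q0 ndB6q1 pcB2 cut_A06mm_012_s1 Ext.none :=
  certF0 (fam := true) (s1 := false) (s2 := false) (a := 0) (b := 1) (c := 2) (cn := .pnp) (n1 := ndB0q0) (n2 := ndB6q1) (pc := pcB2) (cut := cut_A06mm_012_s1) (xt := Ext.none) (P1 := 0) (W1 := 536870912) (P2 := 536870912) (W2 := 536870912) (P3 := 1045395039) (W3 := 1503240)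
    rfl k0_A06mm_012_s1

theorem s_A06mm_012_s1 {κ x : ℝ} (hκ : κ * h0 = ken x) (hx : ((1045395039 : ℕ) : ℝ) / S ≤ x)
    (hx' : x ≤ (((1045395039 : ℕ) : ℝ) + (1503240 : ℕ)) / S) :
    AltA (VFD κ) PP tK tL pcB [⟨3, 0, 0, 1449551462⟩] 0 1 2 0 6 (sgb false) (sgb false) x :=
  strip_altAD (m := 1449551462) true rfl hκ (SH.κ0 hκ (SH.hx1 hx).le (SH.hx2 hx').le) (SH.hx1 hx).le (SH.hx2 hx') (covB00).cov (covB61).cov hx hx' c_A06mm_012_s1 cutA_nil (noExt_A)

noncomputable def cut_A06mm_022_s1 : Cut := Cut.of [[⟨4, 0, 0, 1449551462⟩]]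

noncomputable def f_A06mm_022_s1 : ℕ → ℕ → ℕ → ℕ → Bool := onCell 0 536870912 1073741824 536870912 1045395039 1503240
    (rowF 0 true false false .pp 0 2 2 (qsf 0 536870912 1073741824 536870912 2) ndB0q0 ndB6q2 pcB2 cut_A06mm_022_s1 Ext.none)

def k0_A06mm_022_s1 : ∃ t, chk3 f_A06mm_022_s1 t 1 1 1 = true :=
  ⟨(l 4), by decide +kernel⟩

theorem c_A06mm_022_s1 : CertF 0 536870912 1073741824 536870912 1045395039 1503240 true false false .pp 0 2 2
    ndB0q0 ndB6q2 pcB2 cut_A06mm_022_s1 Ext.none :=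
  certF0 (fam := true) (s1 := false) (s2 := false) (a := 0) (b := 2) (c := 2) (cn := .pp) (n1 := ndB0q0) (n2 := ndB6q2) (pc := pcB2) (cut := cut_A06mm_022_s1) (xt := Ext.none) (P1 := 0) (W1 := 536870912) (P2 := 1073741824) (W2 := 536870912) (P3 := 1045395039) (W3 := 1503240)
    rfl k0_A06mm_022_s1

theorem s_A06mm_022_s1 {κ x : ℝ} (hκ : κ * h0 = ken x) (hx : ((1045395039 : ℕ) : ℝ) / S ≤ x)
    (hx' : x ≤ (((1045395039 : ℕ) : ℝ) + (1503240 : ℕ)) / S) :
    AltA (VFD κ) PP tK tL pcB [⟨3, 0, 0, 1449551462⟩] 0 2 2 0 6 (sgb false) (sgb false) x :=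
  strip_altAD (m := 1449551462) true rfl hκ (SH.κ0 hκ (SH.hx1 hx).le (SH.hx2 hx').le) (SH.hx1 hx).le (SH.hx2 hx') (covB00).cov (covB62).cov hx hx' c_A06mm_022_s1 cutA_nil (noExt_A)

noncomputable def cut_A06mm_023_s1 : Cut := Cut.of [[⟨4, 0, 0, 1449551462⟩]]

noncomputable def f_A06mm_023_s1 : ℕ → ℕ → ℕ → ℕ → Bool := onCell 0 536870912 1073741824 536870912 1045395039 1503240
    (rowF 0 true false false .up 0 2 3 (qsf 0 536870912 1073741824 536870912 3) ndB0q0 ndB6q2 pcB3 cut_A06mm_023_s1 Ext.none)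

def k0_A06mm_023_s1 : ∃ t, chk3 f_A06mm_023_s1 t 1 1 1 = true :=
  ⟨(l 4), by decide +kernel⟩

theorem c_A06mm_023_s1 : CertF 0 536870912 1073741824 536870912 1045395039 1503240 true false false .up 0 2 3
    ndB0q0 ndB6q2 pcB3 cut_A06mm_023_s1 Ext.none :=
  certF0 (fam := true) (s1 := false) (s2 := false) (a := 0) (b := 2) (c := 3) (cn := .up) (n1 := ndB0q0) (n2 := ndB6q2) (pc := pcB3) (cut := cut_A06mm_023_s1) (xt := Ext.none) (P1 := 0) (W1 := 536870912) (P2 := 1073741824) (W2 := 536870912) (P3 := 1045395039) (W3 := 1503240)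
    rfl k0_A06mm_023_s1

theorem s_A06mm_023_s1 {κ x : ℝ} (hκ : κ * h0 = ken x) (hx : ((1045395039 : ℕ) : ℝ) / S ≤ x)
    (hx' : x ≤ (((1045395039 : ℕ) : ℝ) + (1503240 : ℕ)) / S) :
    AltA (VFD κ) PP tK tL pcB [⟨3, 0, 0, 1449551462⟩] 0 2 3 0 6 (sgb false) (sgb false) x :=
  strip_altAD (m := 1449551462) true rfl hκ (SH.κ0 hκ (SH.hx1 hx).le (SH.hx2 hx').le) (SH.hx1 hx).le (SH.hx2 hx') (covB00).cov (covB62).cov hx hx' c_A06mm_023_s1 cutA_nil (noExt_A)

noncomputable def cut_A06mm_033_s1 : Cut := Cut.of [[⟨4, 0, 0, 1449551462⟩]]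

noncomputable def f_A06mm_033_s1 : ℕ → ℕ → ℕ → ℕ → Bool := onCell 0 536870912 0 1230186008 1045395039 1503240
    (rowF 0 true false false .pnn 0 3 3 (qsf 0 536870912 0 1230186008 3) ndB0q0 ndB6q3 pcB3 cut_A06mm_033_s1 Ext.none)

def k0_A06mm_033_s1 : ∃ t, chk3 f_A06mm_033_s1 t 1 1 1 = true :=
  ⟨(l 4), by decide +kernel⟩

theorem c_A06mm_033_s1 : CertF 0 536870912 0 1230186008 1045395039 1503240 true false false .pnn 0 3 3
    ndB0q0 ndB6q3 pcB3 cut_A06mm_033_s1 Ext.none :=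
  certF0 (fam := true) (s1 := false) (s2 := false) (a := 0) (b := 3) (c := 3) (cn := .pnn) (n1 := ndB0q0) (n2 := ndB6q3) (pc := pcB3) (cut := cut_A06mm_033_s1) (xt := Ext.none) (P1 := 0) (W1 := 536870912) (P2 := 0) (W2 := 1230186008) (P3 := 1045395039) (W3 := 1503240)
    rfl k0_A06mm_033_s1

theorem s_A06mm_033_s1 {κ x : ℝ} (hκ : κ * h0 = ken x) (hx : ((1045395039 : ℕ) : ℝ) / S ≤ x)
    (hx' : x ≤ (((1045395039 : ℕ) : ℝ) + (1503240 : ℕ)) / S) :
    AltA (VFD κ) PP tK tL pcB [⟨3, 0, 0, 1449551462⟩] 0 3 3 0 6 (sgb false) (sgb false) x :=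
  strip_altAD (m := 1449551462) true rfl hκ (SH.κ0 hκ (SH.hx1 hx).le (SH.hx2 hx').le) (SH.hx1 hx).le (SH.hx2 hx') (covB00).cov (covB63).cov hx hx' c_A06mm_033_s1 cutA_nil (noExt_A)

noncomputable def cut_A06mm_101_s1 : Cut := Cut.of [[⟨4, 0, 0, 1449551462⟩]]

noncomputable def f_A06mm_101_s1 : ℕ → ℕ → ℕ → ℕ → Bool := onCell 536870912 536870912 0 536870912 1045395039 1503240
    (rowF 0 true false false .npn 1 0 1 (qsf 536870912 536870912 0 536870912 1) ndB0q1 ndB6q0 pcB1 cut_A06mm_101_s1 Ext.none)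

def k0_A06mm_101_s1 : ∃ t, chk3 f_A06mm_101_s1 t 1 1 1 = true :=
  ⟨(l 4), by decide +kernel⟩

theorem c_A06mm_101_s1 : CertF 536870912 536870912 0 536870912 1045395039 1503240 true false false .npn 1 0 1
    ndB0q1 ndB6q0 pcB1 cut_A06mm_101_s1 Ext.none :=
  certF0 (fam := true) (s1 := false) (s2 := false) (a := 1) (b := 0) (c := 1) (cn := .npn) (n1 := ndB0q1) (n2 := ndB6q0) (pc := pcB1) (cut := cut_A06mm_101_s1) (xt := Ext.none) (P1 := 536870912) (W1 := 536870912) (P2 := 0) (W2 := 536870912) (P3 := 1045395039) (W3 := 1503240)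
    rfl k0_A06mm_101_s1

theorem s_A06mm_101_s1 {κ x : ℝ} (hκ : κ * h0 = ken x) (hx : ((1045395039 : ℕ) : ℝ) / S ≤ x)
    (hx' : x ≤ (((1045395039 : ℕ) : ℝ) + (1503240 : ℕ)) / S) :
    AltA (VFD κ) PP tK tL pcB [⟨3, 0, 0, 1449551462⟩] 1 0 1 0 6 (sgb false) (sgb false) x :=
  strip_altAD (m := 1449551462) true rfl hκ (SH.κ0 hκ (SH.hx1 hx).le (SH.hx2 hx').le) (SH.hx1 hx).le (SH.hx2 hx') (covB01).cov (covB60).cov hx hx' c_A06mm_101_s1 cutA_nil (noExt_A)

noncomputable def cut_A06mm_102_s1 : Cut := Cut.of [[⟨4, 0, 0, 1449551462⟩]]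

noncomputable def f_A06mm_102_s1 : ℕ → ℕ → ℕ → ℕ → Bool := onCell 536870912 536870912 0 536870912 1045395039 1503240
    (rowF 0 true false false .npp 1 0 2 (qsf 536870912 536870912 0 536870912 2) ndB0q1 ndB6q0 pcB2 cut_A06mm_102_s1 Ext.none)

def k0_A06mm_102_s1 : ∃ t, chk3 f_A06mm_102_s1 t 1 1 1 = true :=
  ⟨(l 4), by decide +kernel⟩

theorem c_A06mm_102_s1 : CertF 536870912 536870912 0 536870912 1045395039 1503240 true false false .npp 1 0 2
    ndB0q1 ndB6q0 pcB2 cut_A06mm_102_s1 Ext.none :=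
  certF0 (fam := true) (s1 := false) (s2 := false) (a := 1) (b := 0) (c := 2) (cn := .npp) (n1 := ndB0q1) (n2 := ndB6q0) (pc := pcB2) (cut := cut_A06mm_102_s1) (xt := Ext.none) (P1 := 536870912) (W1 := 536870912) (P2 := 0) (W2 := 536870912) (P3 := 1045395039) (W3 := 1503240)
    rfl k0_A06mm_102_s1

theorem s_A06mm_102_s1 {κ x : ℝ} (hκ : κ * h0 = ken x) (hx : ((1045395039 : ℕ) : ℝ) / S ≤ x)
    (hx' : x ≤ (((1045395039 : ℕ) : ℝ) + (1503240 : ℕ)) / S) :
    AltA (VFD κ) PP tK tL pcB [⟨3, 0, 0, 1449551462⟩] 1 0 2 0 6 (sgb false) (sgb false) x :=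
  strip_altAD (m := 1449551462) true rfl hκ (SH.κ0 hκ (SH.hx1 hx).le (SH.hx2 hx').le) (SH.hx1 hx).le (SH.hx2 hx') (covB01).cov (covB60).cov hx hx' c_A06mm_102_s1 cutA_nil (noExt_A)

noncomputable def cut_A06mm_112_s1 : Cut := Cut.of [[⟨4, 0, 0, 1449551462⟩]]

noncomputable def f_A06mm_112_s1 : ℕ → ℕ → ℕ → ℕ → Bool := onCell 536870912 536870912 536870912 536870912 1045395039 1503240
    (rowF 0 true false false .dn 1 1 2 (qsf 536870912 536870912 536870912 536870912 2) ndB0q1 ndB6q1 pcB2 cut_A06mm_112_s1 Ext.none)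

def k0_A06mm_112_s1 : ∃ t, chk3 f_A06mm_112_s1 t 1 1 1 = true :=
  ⟨(l 4), by decide +kernel⟩

theorem c_A06mm_112_s1 : CertF 536870912 536870912 536870912 536870912 1045395039 1503240 true false false .dn 1 1 2
    ndB0q1 ndB6q1 pcB2 cut_A06mm_112_s1 Ext.none :=
  certF0 (fam := true) (s1 := false) (s2 := false) (a := 1) (b := 1) (c := 2) (cn := .dn) (n1 := ndB0q1) (n2 := ndB6q1) (pc := pcB2) (cut := cut_A06mm_112_s1) (xt := Ext.none) (P1 := 536870912) (W1 := 536870912) (P2 := 536870912) (W2 := 536870912) (P3 := 1045395039) (W3 := 1503240)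
    rfl k0_A06mm_112_s1

theorem s_A06mm_112_s1 {κ x : ℝ} (hκ : κ * h0 = ken x) (hx : ((1045395039 : ℕ) : ℝ) / S ≤ x)
    (hx' : x ≤ (((1045395039 : ℕ) : ℝ) + (1503240 : ℕ)) / S) :
    AltA (VFD κ) PP tK tL pcB [⟨3, 0, 0, 1449551462⟩] 1 1 2 0 6 (sgb false) (sgb false) x :=
  strip_altAD (m := 1449551462) true rfl hκ (SH.κ0 hκ (SH.hx1 hx).le (SH.hx2 hx').le) (SH.hx1 hx).le (SH.hx2 hx') (covB01).cov (covB61).cov hx hx' c_A06mm_112_s1 cutA_nil (noExt_A)

noncomputable def cut_A06mm_113_s1 : Cut := Cut.of [[⟨4, 0, 0, 1449551462⟩]]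

noncomputable def f_A06mm_113_s1 : ℕ → ℕ → ℕ → ℕ → Bool := onCell 536870912 536870912 536870912 536870912 1045395039 1503240
    (rowF 0 true false false .nn 1 1 3 (qsf 536870912 536870912 536870912 536870912 3) ndB0q1 ndB6q1 pcB3 cut_A06mm_113_s1 Ext.none)

def k0_A06mm_113_s1 : ∃ t, chk3 f_A06mm_113_s1 t 1 1 1 = true :=
  ⟨(l 4), by decide +kernel⟩

theorem c_A06mm_113_s1 : CertF 536870912 536870912 536870912 536870912 1045395039 1503240 true false false .nn 1 1 3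
    ndB0q1 ndB6q1 pcB3 cut_A06mm_113_s1 Ext.none :=
  certF0 (fam := true) (s1 := false) (s2 := false) (a := 1) (b := 1) (c := 3) (cn := .nn) (n1 := ndB0q1) (n2 := ndB6q1) (pc := pcB3) (cut := cut_A06mm_113_s1) (xt := Ext.none) (P1 := 536870912) (W1 := 536870912) (P2 := 536870912) (W2 := 536870912) (P3 := 1045395039) (W3 := 1503240)
    rfl k0_A06mm_113_s1

theorem s_A06mm_113_s1 {κ x : ℝ} (hκ : κ * h0 = ken x) (hx : ((1045395039 : ℕ) : ℝ) / S ≤ x)
    (hx' : x ≤ (((1045395039 : ℕ) : ℝ) + (1503240 : ℕ)) / S) :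
    AltA (VFD κ) PP tK tL pcB [⟨3, 0, 0, 1449551462⟩] 1 1 3 0 6 (sgb false) (sgb false) x :=
  strip_altAD (m := 1449551462) true rfl hκ (SH.κ0 hκ (SH.hx1 hx).le (SH.hx2 hx').le) (SH.hx1 hx).le (SH.hx2 hx') (covB01).cov (covB61).cov hx hx' c_A06mm_113_s1 cutA_nil (noExt_A)

noncomputable def cut_A06mm_123_s1 : Cut := Cut.of [[⟨4, 0, 0, 1449551462⟩]]

noncomputable def f_A06mm_123_s1 : ℕ → ℕ → ℕ → ℕ → Bool := onCell 536870912 536870912 1073741824 536870912 1045395039 1503240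
    (rowF 0 true false false .npn 1 2 3 (qsf 536870912 536870912 1073741824 536870912 3) ndB0q1 ndB6q2 pcB3 cut_A06mm_123_s1 Ext.none)

def k0_A06mm_123_s1 : ∃ t, chk3 f_A06mm_123_s1 t 1 1 1 = true :=
  ⟨(l 4), by decide +kernel⟩

theorem c_A06mm_123_s1 : CertF 536870912 536870912 1073741824 536870912 1045395039 1503240 true false false .npn 1 2 3
    ndB0q1 ndB6q2 pcB3 cut_A06mm_123_s1 Ext.none :=
  certF0 (fam := true) (s1 := false) (s2 := false) (a := 1) (b := 2) (c := 3) (cn := .npn) (n1 := ndB0q1) (n2 := ndB6q2) (pc := pcB3) (cut := cut_A06mm_123_s1) (xt := Ext.none) (P1 := 536870912) (W1 := 536870912) (P2 := 1073741824) (W2 := 536870912) (P3 := 1045395039) (W3 := 1503240)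
    rfl k0_A06mm_123_s1

theorem s_A06mm_123_s1 {κ x : ℝ} (hκ : κ * h0 = ken x) (hx : ((1045395039 : ℕ) : ℝ) / S ≤ x)
    (hx' : x ≤ (((1045395039 : ℕ) : ℝ) + (1503240 : ℕ)) / S) :
    AltA (VFD κ) PP tK tL pcB [⟨3, 0, 0, 1449551462⟩] 1 2 3 0 6 (sgb false) (sgb false) x :=
  strip_altAD (m := 1449551462) true rfl hκ (SH.κ0 hκ (SH.hx1 hx).le (SH.hx2 hx').le) (SH.hx1 hx).le (SH.hx2 hx') (covB01).cov (covB62).cov hx hx' c_A06mm_123_s1 cutA_nil (noExt_A)

noncomputable def cut_A06mm_133_s1 : Cut := Cut.of [[⟨4, 0, 0, 1449551462⟩]]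

noncomputable def f_A06mm_133_s1 : ℕ → ℕ → ℕ → ℕ → Bool := onCell 536870912 536870912 0 1230186008 1045395039 1503240
    (rowF 0 true false false .dn 1 3 3 (qsf 536870912 536870912 0 1230186008 3) ndB0q1 ndB6q3 pcB3 cut_A06mm_133_s1 Ext.none)

def k0_A06mm_133_s1 : ∃ t, chk3 f_A06mm_133_s1 t 1 1 1 = true :=
  ⟨(l 4), by decide +kernel⟩

theorem c_A06mm_133_s1 : CertF 536870912 536870912 0 1230186008 1045395039 1503240 true false false .dn 1 3 3
    ndB0q1 ndB6q3 pcB3 cut_A06mm_133_s1 Ext.none :=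
  certF0 (fam := true) (s1 := false) (s2 := false) (a := 1) (b := 3) (c := 3) (cn := .dn) (n1 := ndB0q1) (n2 := ndB6q3) (pc := pcB3) (cut := cut_A06mm_133_s1) (xt := Ext.none) (P1 := 536870912) (W1 := 536870912) (P2 := 0) (W2 := 1230186008) (P3 := 1045395039) (W3 := 1503240)
    rfl k0_A06mm_133_s1

theorem s_A06mm_133_s1 {κ x : ℝ} (hκ : κ * h0 = ken x) (hx : ((1045395039 : ℕ) : ℝ) / S ≤ x)
    (hx' : x ≤ (((1045395039 : ℕ) : ℝ) + (1503240 : ℕ)) / S) :
    AltA (VFD κ) PP tK tL pcB [⟨3, 0, 0, 1449551462⟩] 1 3 3 0 6 (sgb false) (sgb false) x :=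
  strip_altAD (m := 1449551462) true rfl hκ (SH.κ0 hκ (SH.hx1 hx).le (SH.hx2 hx').le) (SH.hx1 hx).le (SH.hx2 hx') (covB01).cov (covB63).cov hx hx' c_A06mm_133_s1 cutA_nil (noExt_A)

noncomputable def cut_A06mm_202_s1 : Cut := Cut.of [[⟨4, 0, 0, 1449551462⟩]]

noncomputable def f_A06mm_202_s1 : ℕ → ℕ → ℕ → ℕ → Bool := onCell 0 536870912 0 536870912 1045395039 1503240
    (rowF 0 true false false .pp 2 0 2 (qsf 0 536870912 0 536870912 2) ndB0q2 ndB6q0 pcB2 cut_A06mm_202_s1 Ext.none)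

def k0_A06mm_202_s1 : ∃ t, chk3 f_A06mm_202_s1 t 1 1 1 = true :=
  ⟨(l 4), by decide +kernel⟩

theorem c_A06mm_202_s1 : CertF 0 536870912 0 536870912 1045395039 1503240 true false false .pp 2 0 2
    ndB0q2 ndB6q0 pcB2 cut_A06mm_202_s1 Ext.none :=
  certF0 (fam := true) (s1 := false) (s2 := false) (a := 2) (b := 0) (c := 2) (cn := .pp) (n1 := ndB0q2) (n2 := ndB6q0) (pc := pcB2) (cut := cut_A06mm_202_s1) (xt := Ext.none) (P1 := 0) (W1 := 536870912) (P2 := 0) (W2 := 536870912) (P3 := 1045395039) (W3 := 1503240)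
    rfl k0_A06mm_202_s1

theorem s_A06mm_202_s1 {κ x : ℝ} (hκ : κ * h0 = ken x) (hx : ((1045395039 : ℕ) : ℝ) / S ≤ x)
    (hx' : x ≤ (((1045395039 : ℕ) : ℝ) + (1503240 : ℕ)) / S) :
    AltA (VFD κ) PP tK tL pcB [⟨3, 0, 0, 1449551462⟩] 2 0 2 0 6 (sgb false) (sgb false) x :=
  strip_altAD (m := 1449551462) true rfl hκ (SH.κ0 hκ (SH.hx1 hx).le (SH.hx2 hx').le) (SH.hx1 hx).le (SH.hx2 hx') (covB02).cov (covB60).cov hx hx' c_A06mm_202_s1 cutA_nil (noExt_A)

noncomputable def cut_A06mm_203_s1 : Cut := Cut.of [[⟨4, 0, 0, 1449551462⟩]]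

noncomputable def f_A06mm_203_s1 : ℕ → ℕ → ℕ → ℕ → Bool := onCell 0 536870912 0 536870912 1045395039 1503240
    (rowF 0 true false false .up 2 0 3 (qsf 0 536870912 0 536870912 3) ndB0q2 ndB6q0 pcB3 cut_A06mm_203_s1 Ext.none)

def k0_A06mm_203_s1 : ∃ t, chk3 f_A06mm_203_s1 t 1 1 1 = true :=
  ⟨(l 4), by decide +kernel⟩

theorem c_A06mm_203_s1 : CertF 0 536870912 0 536870912 1045395039 1503240 true false false .up 2 0 3
    ndB0q2 ndB6q0 pcB3 cut_A06mm_203_s1 Ext.none :=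
  certF0 (fam := true) (s1 := false) (s2 := false) (a := 2) (b := 0) (c := 3) (cn := .up) (n1 := ndB0q2) (n2 := ndB6q0) (pc := pcB3) (cut := cut_A06mm_203_s1) (xt := Ext.none) (P1 := 0) (W1 := 536870912) (P2 := 0) (W2 := 536870912) (P3 := 1045395039) (W3 := 1503240)
    rfl k0_A06mm_203_s1

theorem s_A06mm_203_s1 {κ x : ℝ} (hκ : κ * h0 = ken x) (hx : ((1045395039 : ℕ) : ℝ) / S ≤ x)
    (hx' : x ≤ (((1045395039 : ℕ) : ℝ) + (1503240 : ℕ)) / S) :
    AltA (VFD κ) PP tK tL pcB [⟨3, 0, 0, 1449551462⟩] 2 0 3 0 6 (sgb false) (sgb false) x :=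
  strip_altAD (m := 1449551462) true rfl hκ (SH.κ0 hκ (SH.hx1 hx).le (SH.hx2 hx').le) (SH.hx1 hx).le (SH.hx2 hx') (covB02).cov (covB60).cov hx hx' c_A06mm_203_s1 cutA_nil (noExt_A)

noncomputable def cut_A06mm_213_s1 : Cut := Cut.of [[⟨4, 0, 0, 1449551462⟩]]

noncomputable def f_A06mm_213_s1 : ℕ → ℕ → ℕ → ℕ → Bool := onCell 0 536870912 536870912 536870912 1045395039 1503240
    (rowF 0 true false false .pnn 2 1 3 (qsf 0 536870912 536870912 536870912 3) ndB0q2 ndB6q1 pcB3 cut_A06mm_213_s1 Ext.none)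

def k0_A06mm_213_s1 : ∃ t, chk3 f_A06mm_213_s1 t 1 1 1 = true :=
  ⟨(l 4), by decide +kernel⟩

theorem c_A06mm_213_s1 : CertF 0 536870912 536870912 536870912 1045395039 1503240 true false false .pnn 2 1 3
    ndB0q2 ndB6q1 pcB3 cut_A06mm_213_s1 Ext.none :=
  certF0 (fam := true) (s1 := false) (s2 := false) (a := 2) (b := 1) (c := 3) (cn := .pnn) (n1 := ndB0q2) (n2 := ndB6q1) (pc := pcB3) (cut := cut_A06mm_213_s1) (xt := Ext.none) (P1 := 0) (W1 := 536870912) (P2 := 536870912) (W2 := 536870912) (P3 := 1045395039) (W3 := 1503240)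
    rfl k0_A06mm_213_s1

theorem s_A06mm_213_s1 {κ x : ℝ} (hκ : κ * h0 = ken x) (hx : ((1045395039 : ℕ) : ℝ) / S ≤ x)
    (hx' : x ≤ (((1045395039 : ℕ) : ℝ) + (1503240 : ℕ)) / S) :
    AltA (VFD κ) PP tK tL pcB [⟨3, 0, 0, 1449551462⟩] 2 1 3 0 6 (sgb false) (sgb false) x :=
  strip_altAD (m := 1449551462) true rfl hκ (SH.κ0 hκ (SH.hx1 hx).le (SH.hx2 hx').le) (SH.hx1 hx).le (SH.hx2 hx') (covB02).cov (covB61).cov hx hx' c_A06mm_213_s1 cutA_nil (noExt_A)

noncomputable def cut_B00pp_001_s1 : Cut := Cut.of [[⟨4, 0, 0, 1449551462⟩]]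

noncomputable def f_B00pp_001_s1 : ℕ → ℕ → ℕ → ℕ → Bool := onCell 0 536870912 0 536870912 1045395039 1503240
    (rowF 1 false true true .up 0 0 1 (qsf 0 536870912 536870912 536870912 0) ndB0q0 ndB0q1 pcB0 cut_B00pp_001_s1 Ext.none)

def k0_B00pp_001_s1 : ∃ t, chk3 f_B00pp_001_s1 t 1 1 1 = true :=
  ⟨(l 3), by decide +kernel⟩

theorem c_B00pp_001_s1 : CertF 0 536870912 536870912 536870912 1045395039 1503240 false true true .up 0 0 1
    ndB0q0 ndB0q1 pcB0 cut_B00pp_001_s1 Ext.none :=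
  certF1 (fam := false) (s1 := true) (s2 := true) (a := 0) (b := 0) (c := 1) (cn := .up) (n1 := ndB0q0) (n2 := ndB0q1) (pc := pcB0) (cut := cut_B00pp_001_s1) (xt := Ext.none) (P1 := 0) (W1 := 536870912) (P2 := 536870912) (W2 := 536870912) (P3 := 1045395039) (W3 := 1503240)
    rfl (fun _ => rfl) k0_B00pp_001_s1

theorem s_B00pp_001_s1 {κ x : ℝ} (hκ : κ * h0 = ken x) (hx : ((1045395039 : ℕ) : ℝ) / S ≤ x)
    (hx' : x ≤ (((1045395039 : ℕ) : ℝ) + (1503240 : ℕ)) / S) :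
    AltB (VFD κ) PP tK tL pcB [⟨3, 0, 0, 1449551462⟩] 0 0 1 0 0 (sgb true) (sgb true) x :=
  strip_altBD (m := 1449551462) true rfl hκ (SH.κ0 hκ (SH.hx1 hx).le (SH.hx2 hx').le) (SH.hx1 hx).le (SH.hx2 hx') (covB00).cov (covB01).cov hx hx' c_B00pp_001_s1 cutB_nil (noExt_B)

noncomputable def cut_B00pp_001_s3 : Cut := Cut.of [[⟨3, 0, 0, 2845415833⟩]]

noncomputable def f_B00pp_001_s3 : ℕ → ℕ → ℕ → ℕ → Bool := onCell 0 536870912 536870912 536870912 1045395039 1503240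
    (rowF 0 false true true .up 0 0 1 (qsf 0 536870912 536870912 536870912 0) ndB0q0 ndB0q1 pcB0 cut_B00pp_001_s3 Ext.none)

def k0_B00pp_001_s3 : ∃ t, chk3 f_B00pp_001_s3 t 1 1 1 = true :=
  ⟨(l 6), by decide +kernel⟩

theorem c_B00pp_001_s3 : CertF 0 536870912 536870912 536870912 1045395039 1503240 false true true .up 0 0 1
    ndB0q0 ndB0q1 pcB0 cut_B00pp_001_s3 Ext.none :=
  certF0 (fam := false) (s1 := true) (s2 := true) (a := 0) (b := 0) (c := 1) (cn := .up) (n1 := ndB0q0) (n2 := ndB0q1) (pc := pcB0) (cut := cut_B00pp_001_s3) (xt := Ext.none) (P1 := 0) (W1 := 536870912) (P2 := 536870912) (W2 := 536870912) (P3 := 1045395039) (W3 := 1503240)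
    rfl k0_B00pp_001_s3

theorem s_B00pp_001_s3 {κ x : ℝ} (hκ : κ * h0 = ken x) (hx : ((1045395039 : ℕ) : ℝ) / S ≤ x)
    (hx' : x ≤ (((1045395039 : ℕ) : ℝ) + (1503240 : ℕ)) / S) :
    AltB (VFD κ) PP tK tL pcB [⟨4, 0, 0, 2845415833⟩] 0 0 1 0 0 (sgb true) (sgb true) x :=
  strip_altBD (m := 2845415833) false rfl hκ (SH.κ0 hκ (SH.hx1 hx).le (SH.hx2 hx').le) (SH.hx1 hx).le (SH.hx2 hx') (covB00).cov (covB01).cov hx hx' c_B00pp_001_s3 cutB_nil (noExt_B)

noncomputable def cut_B00pp_011_s1 : Cut := Cut.of [[⟨4, 0, 0, 1449551462⟩], [⟨0, 0, 0, 26843545⟩, ⟨1, 1, 0, 26843545⟩, ⟨2, 1, 0, 26843545⟩]]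

noncomputable def f_B00pp_011_s1 : ℕ → ℕ → ℕ → ℕ → Bool := onCell 536870912 536870912 536870912 536870912 1045395039 1503240
    (rowF 2 false true true .pnn 0 1 1 (qsf 0 536870912 536870912 536870912 1) ndB0q0 ndB0q1 pcB1 cut_B00pp_011_s1 Ext.none)

def k0_B00pp_011_s1 : ∃ t, chk3 f_B00pp_011_s1 t 1 1 1 = true :=
  ⟨(a (l 3) (b (l 3) (a (l 3) (b (l 3) (a (l 3) (b (l 3) (a (l 3) (b (l 3) (b (l 3) (a (l 3) (l 14))))))))))), by decide +kernel⟩

theorem c_B00pp_011_s1 : CertF 0 536870912 536870912 536870912 1045395039 1503240 false true true .pnn 0 1 1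
    ndB0q0 ndB0q1 pcB1 cut_B00pp_011_s1 Ext.none :=
  certF2 (fam := false) (s1 := true) (s2 := true) (a := 0) (b := 1) (c := 1) (cn := .pnn) (n1 := ndB0q0) (n2 := ndB0q1) (pc := pcB1) (cut := cut_B00pp_011_s1) (xt := Ext.none) (P1 := 0) (W1 := 536870912) (P2 := 536870912) (W2 := 536870912) (P3 := 1045395039) (W3 := 1503240)
    rfl (fun _ => rfl) k0_B00pp_011_s1

theorem s_B00pp_011_s1 {κ x : ℝ} (hκ : κ * h0 = ken x) (hx : ((1045395039 : ℕ) : ℝ) / S ≤ x)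
    (hx' : x ≤ (((1045395039 : ℕ) : ℝ) + (1503240 : ℕ)) / S)
    (H : CutB (VFD κ) PP tK tL pcB (Cut.of [[⟨0, 0, 0, 26843545⟩, ⟨1, 1, 0, 26843545⟩, ⟨2, 1, 0, 26843545⟩]]) 0 1 1 0 0 (sgb true) (sgb true) x) :
    AltB (VFD κ) PP tK tL pcB [⟨3, 0, 0, 1449551462⟩] 0 1 1 0 0 (sgb true) (sgb true) x :=
  strip_altBD (m := 1449551462) true rfl hκ (SH.κ0 hκ (SH.hx1 hx).le (SH.hx2 hx').le) (SH.hx1 hx).le (SH.hx2 hx') (covB00).cov (covB01).cov hx hx' c_B00pp_011_s1 H (noExt_B)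

noncomputable def cut_B00pp_011_s3 : Cut := Cut.of [[⟨3, 0, 0, 2845415833⟩], [⟨0, 0, 0, 26843545⟩, ⟨1, 1, 0, 26843545⟩, ⟨2, 1, 0, 26843545⟩]]

noncomputable def f_B00pp_011_s3 : ℕ → ℕ → ℕ → ℕ → Bool := onCell 0 536870912 536870912 536870912 1045395039 1503240
    (rowF 0 false true true .pnn 0 1 1 (qsf 0 536870912 536870912 536870912 1) ndB0q0 ndB0q1 pcB1 cut_B00pp_011_s3 Ext.none)

def k0_B00pp_011_s3 : ∃ t, chk3 f_B00pp_011_s3 t 1 1 1 = true :=
  ⟨(l 6), by decide +kernel⟩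

theorem c_B00pp_011_s3 : CertF 0 536870912 536870912 536870912 1045395039 1503240 false true true .pnn 0 1 1
    ndB0q0 ndB0q1 pcB1 cut_B00pp_011_s3 Ext.none :=
  certF0 (fam := false) (s1 := true) (s2 := true) (a := 0) (b := 1) (c := 1) (cn := .pnn) (n1 := ndB0q0) (n2 := ndB0q1) (pc := pcB1) (cut := cut_B00pp_011_s3) (xt := Ext.none) (P1 := 0) (W1 := 536870912) (P2 := 536870912) (W2 := 536870912) (P3 := 1045395039) (W3 := 1503240)
    rfl k0_B00pp_011_s3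

theorem s_B00pp_011_s3 {κ x : ℝ} (hκ : κ * h0 = ken x) (hx : ((1045395039 : ℕ) : ℝ) / S ≤ x)
    (hx' : x ≤ (((1045395039 : ℕ) : ℝ) + (1503240 : ℕ)) / S)
    (H : CutB (VFD κ) PP tK tL pcB (Cut.of [[⟨0, 0, 0, 26843545⟩, ⟨1, 1, 0, 26843545⟩, ⟨2, 1, 0, 26843545⟩]]) 0 1 1 0 0 (sgb true) (sgb true) x) :
    AltB (VFD κ) PP tK tL pcB [⟨4, 0, 0, 2845415833⟩] 0 1 1 0 0 (sgb true) (sgb true) x :=
  strip_altBD (m := 2845415833) false rfl hκ (SH.κ0 hκ (SH.hx1 hx).le (SH.hx2 hx').le) (SH.hx1 hx).le (SH.hx2 hx') (covB00).cov (covB01).cov hx hx' c_B00pp_011_s3 H (noExt_B)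

end Pool.Agent.Strip051.G.I9736_9750.Tab.St.C
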