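import Pool.Agent.Strip051.G.I9736_9750.StH
import Pool.Agent.Strip051.G.I9736_9750.Sp5_0
import Pool.Agent.Strip051.G.I9736_9750.Sp5_1
import Pool.Agent.Strip051.G.I9736_9750.Sp5_2
import Pool.Agent.Strip051.G.I9736_9750.Sp5_3
import Pool.Agent.Strip051.G.I9736_9750.StF

/-! # Unit strips 5 (generated) -/

set_option linter.all false
set_option maxRecDepth 100000

namespace Pool.Agent.Strip051.G.I9736_9750.Tab.St.C

open Pool.Agent.Strip051.PB Pool.Agent.Strip051.PB.T Pool.Agent.StripNear Pool.Agent.Strip051.LC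
open Pool.Agent.Strip051.G.I9736_9750.Tab Pool.Agent.Strip051.G.I9736_9750.Tab.St

theorem t366_A00pm_123_s3 : ∃ t, chk3 f_A00pm_123_s3 t 4094 31 1 = true := ex3_b k363_A00pm_123_s3 k364_A00pm_123_s3

theorem t367_A00pm_123_s3 : ∃ t, chk3 f_A00pm_123_s3 t 2047 31 1 = true := ex3_a t366_A00pm_123_s3 k365_A00pm_123_s3

theorem t368_A00pm_123_s3 : ∃ t, chk3 f_A00pm_123_s3 t 2046 2046 1 = true := ex3_b k360_A00pm_123_s3 k361_A00pm_123_s3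

theorem t369_A00pm_123_s3 : ∃ t, chk3 f_A00pm_123_s3 t 2046 1023 1 = true := ex3_b t368_A00pm_123_s3 k362_A00pm_123_s3

theorem t370_A00pm_123_s3 : ∃ t, chk3 f_A00pm_123_s3 t 2046 511 1 = true := ex3_b k359_A00pm_123_s3 t369_A00pm_123_s3

theorem t371_A00pm_123_s3 : ∃ t, chk3 f_A00pm_123_s3 t 4093 1020 1 = true := ex3_a k356_A00pm_123_s3 k357_A00pm_123_s3

theorem t372_A00pm_123_s3 : ∃ t, chk3 f_A00pm_123_s3 t 4093 510 1 = true := ex3_b t371_A00pm_123_s3 k358_A00pm_123_s3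

theorem t373_A00pm_123_s3 : ∃ t, chk3 f_A00pm_123_s3 t 4092 510 1 = true := ex3_b k354_A00pm_123_s3 k355_A00pm_123_s3

theorem t374_A00pm_123_s3 : ∃ t, chk3 f_A00pm_123_s3 t 2046 510 1 = true := ex3_a t373_A00pm_123_s3 t372_A00pm_123_s3

theorem t375_A00pm_123_s3 : ∃ t, chk3 f_A00pm_123_s3 t 2046 255 1 = true := ex3_b t374_A00pm_123_s3 t370_A00pm_123_s3

theorem t376_A00pm_123_s3 : ∃ t, chk3 f_A00pm_123_s3 t 2046 254 1 = true := ex3_b k352_A00pm_123_s3 k353_A00pm_123_s3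

theorem t377_A00pm_123_s3 : ∃ t, chk3 f_A00pm_123_s3 t 2046 127 1 = true := ex3_b t376_A00pm_123_s3 t375_A00pm_123_s3

theorem t378_A00pm_123_s3 : ∃ t, chk3 f_A00pm_123_s3 t 131007 16163 1 = true := ex3_a k346_A00pm_123_s3 k347_A00pm_123_s3

theorem t379_A00pm_123_s3 : ∃ t, chk3 f_A00pm_123_s3 t 131007 8081 1 = true := ex3_b k345_A00pm_123_s3 t378_A00pm_123_s3

theorem t380_A00pm_123_s3 : ∃ t, chk3 f_A00pm_123_s3 t 131006 16162 1 = true := ex3_a k342_A00pm_123_s3 k343_A00pm_123_s3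

theorem t381_A00pm_123_s3 : ∃ t, chk3 f_A00pm_123_s3 t 131006 8081 1 = true := ex3_b t380_A00pm_123_s3 k344_A00pm_123_s3

theorem t382_A00pm_123_s3 : ∃ t, chk3 f_A00pm_123_s3 t 65503 8081 1 = true := ex3_a t381_A00pm_123_s3 t379_A00pm_123_s3

theorem t383_A00pm_123_s3 : ∃ t, chk3 f_A00pm_123_s3 t 65503 4040 1 = true := ex3_b k341_A00pm_123_s3 t382_A00pm_123_s3

theorem t384_A00pm_123_s3 : ∃ t, chk3 f_A00pm_123_s3 t 131005 16160 1 = true := ex3_a k337_A00pm_123_s3 k338_A00pm_123_s3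

theorem t385_A00pm_123_s3 : ∃ t, chk3 f_A00pm_123_s3 t 131005 8080 1 = true := ex3_b t384_A00pm_123_s3 k339_A00pm_123_s3

theorem t386_A00pm_123_s3 : ∃ t, chk3 f_A00pm_123_s3 t 65502 8080 1 = true := ex3_a k336_A00pm_123_s3 t385_A00pm_123_s3

theorem t387_A00pm_123_s3 : ∃ t, chk3 f_A00pm_123_s3 t 65502 4040 1 = true := ex3_b t386_A00pm_123_s3 k340_A00pm_123_s3

theorem t388_A00pm_123_s3 : ∃ t, chk3 f_A00pm_123_s3 t 32751 4040 1 = true := ex3_a t387_A00pm_123_s3 t383_A00pm_123_s3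

theorem t389_A00pm_123_s3 : ∃ t, chk3 f_A00pm_123_s3 t 32751 2020 1 = true := ex3_b t388_A00pm_123_s3 k348_A00pm_123_s3

theorem t390_A00pm_123_s3 : ∃ t, chk3 f_A00pm_123_s3 t 16375 2020 1 = true := ex3_a k335_A00pm_123_s3 t389_A00pm_123_s3

theorem t391_A00pm_123_s3 : ∃ t, chk3 f_A00pm_123_s3 t 16375 1010 1 = true := ex3_b t390_A00pm_123_s3 k349_A00pm_123_s3

theorem t392_A00pm_123_s3 : ∃ t, chk3 f_A00pm_123_s3 t 16375 505 1 = true := ex3_b t391_A00pm_123_s3 k350_A00pm_123_s3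

theorem t393_A00pm_123_s3 : ∃ t, chk3 f_A00pm_123_s3 t 8187 505 1 = true := ex3_a k334_A00pm_123_s3 t392_A00pm_123_s3

theorem t394_A00pm_123_s3 : ∃ t, chk3 f_A00pm_123_s3 t 131004 16158 1 = true := ex3_a k329_A00pm_123_s3 k330_A00pm_123_s3

theorem t395_A00pm_123_s3 : ∃ t, chk3 f_A00pm_123_s3 t 131004 8079 1 = true := ex3_b t394_A00pm_123_s3 k331_A00pm_123_s3

theorem t396_A00pm_123_s3 : ∃ t, chk3 f_A00pm_123_s3 t 65502 8079 1 = true := ex3_a t395_A00pm_123_s3 k332_A00pm_123_s3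

theorem t397_A00pm_123_s3 : ∃ t, chk3 f_A00pm_123_s3 t 65502 4039 1 = true := ex3_b k328_A00pm_123_s3 t396_A00pm_123_s3

theorem t398_A00pm_123_s3 : ∃ t, chk3 f_A00pm_123_s3 t 32751 4039 1 = true := ex3_a t397_A00pm_123_s3 k333_A00pm_123_s3

theorem t399_A00pm_123_s3 : ∃ t, chk3 f_A00pm_123_s3 t 32751 2019 1 = true := ex3_b k327_A00pm_123_s3 t398_A00pm_123_s3

theorem t400_A00pm_123_s3 : ∃ t, chk3 f_A00pm_123_s3 t 131003 16157 1 = true := ex3_a k324_A00pm_123_s3 k325_A00pm_123_s3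

theorem t401_A00pm_123_s3 : ∃ t, chk3 f_A00pm_123_s3 t 131003 8078 1 = true := ex3_b k323_A00pm_123_s3 t400_A00pm_123_s3

theorem t402_A00pm_123_s3 : ∃ t, chk3 f_A00pm_123_s3 t 65501 8078 1 = true := ex3_a k322_A00pm_123_s3 t401_A00pm_123_s3

theorem t403_A00pm_123_s3 : ∃ t, chk3 f_A00pm_123_s3 t 65501 4039 1 = true := ex3_b t402_A00pm_123_s3 k326_A00pm_123_s3

theorem t404_A00pm_123_s3 : ∃ t, chk3 f_A00pm_123_s3 t 32750 4039 1 = true := ex3_a k321_A00pm_123_s3 t403_A00pm_123_s3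

theorem t405_A00pm_123_s3 : ∃ t, chk3 f_A00pm_123_s3 t 131002 16155 1 = true := ex3_a k318_A00pm_123_s3 k319_A00pm_123_s3

theorem t406_A00pm_123_s3 : ∃ t, chk3 f_A00pm_123_s3 t 131002 8077 1 = true := ex3_b k317_A00pm_123_s3 t405_A00pm_123_s3

theorem t407_A00pm_123_s3 : ∃ t, chk3 f_A00pm_123_s3 t 65501 8077 1 = true := ex3_a t406_A00pm_123_s3 k320_A00pm_123_s3

theorem t408_A00pm_123_s3 : ∃ t, chk3 f_A00pm_123_s3 t 65501 4038 1 = true := ex3_b k316_A00pm_123_s3 t407_A00pm_123_s3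

theorem t409_A00pm_123_s3 : ∃ t, chk3 f_A00pm_123_s3 t 65500 8076 1 = true := ex3_a k313_A00pm_123_s3 k314_A00pm_123_s3

theorem t410_A00pm_123_s3 : ∃ t, chk3 f_A00pm_123_s3 t 65500 4038 1 = true := ex3_b t409_A00pm_123_s3 k315_A00pm_123_s3

theorem t411_A00pm_123_s3 : ∃ t, chk3 f_A00pm_123_s3 t 32750 4038 1 = true := ex3_a t410_A00pm_123_s3 t408_A00pm_123_s3

theorem t412_A00pm_123_s3 : ∃ t, chk3 f_A00pm_123_s3 t 32750 2019 1 = true := ex3_b t411_A00pm_123_s3 t404_A00pm_123_s3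

theorem t413_A00pm_123_s3 : ∃ t, chk3 f_A00pm_123_s3 t 16375 2019 1 = true := ex3_a t412_A00pm_123_s3 t399_A00pm_123_s3

theorem t414_A00pm_123_s3 : ∃ t, chk3 f_A00pm_123_s3 t 16375 1009 1 = true := ex3_b k312_A00pm_123_s3 t413_A00pm_123_s3

theorem t415_A00pm_123_s3 : ∃ t, chk3 f_A00pm_123_s3 t 130999 8075 1 = true := ex3_b k309_A00pm_123_s3 k310_A00pm_123_s3

theorem t416_A00pm_123_s3 : ∃ t, chk3 f_A00pm_123_s3 t 65499 8075 1 = true := ex3_a k308_A00pm_123_s3 t415_A00pm_123_s3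

theorem t417_A00pm_123_s3 : ∃ t, chk3 f_A00pm_123_s3 t 130998 8074 1 = true := ex3_b k305_A00pm_123_s3 k306_A00pm_123_s3

theorem t418_A00pm_123_s3 : ∃ t, chk3 f_A00pm_123_s3 t 65499 8074 1 = true := ex3_a t417_A00pm_123_s3 k307_A00pm_123_s3

theorem t419_A00pm_123_s3 : ∃ t, chk3 f_A00pm_123_s3 t 65499 4037 1 = true := ex3_b t418_A00pm_123_s3 t416_A00pm_123_s3

theorem t420_A00pm_123_s3 : ∃ t, chk3 f_A00pm_123_s3 t 32749 4037 1 = true := ex3_a k304_A00pm_123_s3 t419_A00pm_123_s3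

theorem t421_A00pm_123_s3 : ∃ t, chk3 f_A00pm_123_s3 t 130997 8073 1 = true := ex3_b k301_A00pm_123_s3 k302_A00pm_123_s3

theorem t422_A00pm_123_s3 : ∃ t, chk3 f_A00pm_123_s3 t 65498 8073 1 = true := ex3_a k300_A00pm_123_s3 t421_A00pm_123_s3

theorem t423_A00pm_123_s3 : ∃ t, chk3 f_A00pm_123_s3 t 65498 4036 1 = true := ex3_b k299_A00pm_123_s3 t422_A00pm_123_s3

theorem t424_A00pm_123_s3 : ∃ t, chk3 f_A00pm_123_s3 t 32749 4036 1 = true := ex3_a t423_A00pm_123_s3 k303_A00pm_123_s3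

theorem t425_A00pm_123_s3 : ∃ t, chk3 f_A00pm_123_s3 t 32749 2018 1 = true := ex3_b t424_A00pm_123_s3 t420_A00pm_123_s3

theorem t426_A00pm_123_s3 : ∃ t, chk3 f_A00pm_123_s3 t 16374 2018 1 = true := ex3_a k298_A00pm_123_s3 t425_A00pm_123_s3

theorem t427_A00pm_123_s3 : ∃ t, chk3 f_A00pm_123_s3 t 16374 1009 1 = true := ex3_b t426_A00pm_123_s3 k311_A00pm_123_s3

theorem t428_A00pm_123_s3 : ∃ t, chk3 f_A00pm_123_s3 t 8187 1009 1 = true := ex3_a t427_A00pm_123_s3 t414_A00pm_123_s3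

theorem t429_A00pm_123_s3 : ∃ t, chk3 f_A00pm_123_s3 t 130994 8071 1 = true := ex3_b k293_A00pm_123_s3 k294_A00pm_123_s3

theorem t430_A00pm_123_s3 : ∃ t, chk3 f_A00pm_123_s3 t 65497 8071 1 = true := ex3_a t429_A00pm_123_s3 k295_A00pm_123_s3

theorem t431_A00pm_123_s3 : ∃ t, chk3 f_A00pm_123_s3 t 65497 4035 1 = true := ex3_b k292_A00pm_123_s3 t430_A00pm_123_s3

theorem t432_A00pm_123_s3 : ∃ t, chk3 f_A00pm_123_s3 t 130993 8070 1 = true := ex3_b k289_A00pm_123_s3 k290_A00pm_123_s3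

theorem t433_A00pm_123_s3 : ∃ t, chk3 f_A00pm_123_s3 t 65496 8070 1 = true := ex3_a k288_A00pm_123_s3 t432_A00pm_123_s3

theorem t434_A00pm_123_s3 : ∃ t, chk3 f_A00pm_123_s3 t 65496 4035 1 = true := ex3_b t433_A00pm_123_s3 k291_A00pm_123_s3

theorem t435_A00pm_123_s3 : ∃ t, chk3 f_A00pm_123_s3 t 32748 4035 1 = true := ex3_a t434_A00pm_123_s3 t431_A00pm_123_s3

theorem t436_A00pm_123_s3 : ∃ t, chk3 f_A00pm_123_s3 t 32748 2017 1 = true := ex3_b k287_A00pm_123_s3 t435_A00pm_123_s3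

theorem t437_A00pm_123_s3 : ∃ t, chk3 f_A00pm_123_s3 t 16374 2017 1 = true := ex3_a t436_A00pm_123_s3 k296_A00pm_123_s3

theorem t438_A00pm_123_s3 : ∃ t, chk3 f_A00pm_123_s3 t 16374 1008 1 = true := ex3_b k286_A00pm_123_s3 t437_A00pm_123_s3

theorem t439_A00pm_123_s3 : ∃ t, chk3 f_A00pm_123_s3 t 8187 1008 1 = true := ex3_a t438_A00pm_123_s3 k297_A00pm_123_s3

theorem t440_A00pm_123_s3 : ∃ t, chk3 f_A00pm_123_s3 t 8187 504 1 = true := ex3_b t439_A00pm_123_s3 t428_A00pm_123_s3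

theorem t441_A00pm_123_s3 : ∃ t, chk3 f_A00pm_123_s3 t 8187 252 1 = true := ex3_b t440_A00pm_123_s3 t393_A00pm_123_s3

theorem t442_A00pm_123_s3 : ∃ t, chk3 f_A00pm_123_s3 t 65495 8068 1 = true := ex3_a k280_A00pm_123_s3 k281_A00pm_123_s3

theorem t443_A00pm_123_s3 : ∃ t, chk3 f_A00pm_123_s3 t 65495 4034 1 = true := ex3_b t442_A00pm_123_s3 k282_A00pm_123_s3

theorem t444_A00pm_123_s3 : ∃ t, chk3 f_A00pm_123_s3 t 32747 4034 1 = true := ex3_a k279_A00pm_123_s3 t443_A00pm_123_s3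

theorem t445_A00pm_123_s3 : ∃ t, chk3 f_A00pm_123_s3 t 32747 2017 1 = true := ex3_b t444_A00pm_123_s3 k283_A00pm_123_s3

theorem t446_A00pm_123_s3 : ∃ t, chk3 f_A00pm_123_s3 t 16373 2017 1 = true := ex3_a k278_A00pm_123_s3 t445_A00pm_123_s3

theorem t447_A00pm_123_s3 : ∃ t, chk3 f_A00pm_123_s3 t 65494 8067 1 = true := ex3_a k275_A00pm_123_s3 k276_A00pm_123_s3

theorem t448_A00pm_123_s3 : ∃ t, chk3 f_A00pm_123_s3 t 65494 4033 1 = true := ex3_b k274_A00pm_123_s3 t447_A00pm_123_s3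

theorem t449_A00pm_123_s3 : ∃ t, chk3 f_A00pm_123_s3 t 65494 2016 1 = true := ex3_b k273_A00pm_123_s3 t448_A00pm_123_s3

theorem t450_A00pm_123_s3 : ∃ t, chk3 f_A00pm_123_s3 t 32747 2016 1 = true := ex3_a t449_A00pm_123_s3 k277_A00pm_123_s3

theorem t451_A00pm_123_s3 : ∃ t, chk3 f_A00pm_123_s3 t 65493 8065 1 = true := ex3_a k270_A00pm_123_s3 k271_A00pm_123_s3

theorem t452_A00pm_123_s3 : ∃ t, chk3 f_A00pm_123_s3 t 65493 4032 1 = true := ex3_b k269_A00pm_123_s3 t451_A00pm_123_s3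

theorem t453_A00pm_123_s3 : ∃ t, chk3 f_A00pm_123_s3 t 65492 8064 1 = true := ex3_a k266_A00pm_123_s3 k267_A00pm_123_s3

theorem t454_A00pm_123_s3 : ∃ t, chk3 f_A00pm_123_s3 t 65492 4032 1 = true := ex3_b t453_A00pm_123_s3 k268_A00pm_123_s3

theorem t455_A00pm_123_s3 : ∃ t, chk3 f_A00pm_123_s3 t 32746 4032 1 = true := ex3_a t454_A00pm_123_s3 t452_A00pm_123_s3

theorem t456_A00pm_123_s3 : ∃ t, chk3 f_A00pm_123_s3 t 32746 2016 1 = true := ex3_b t455_A00pm_123_s3 k272_A00pm_123_s3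

theorem t457_A00pm_123_s3 : ∃ t, chk3 f_A00pm_123_s3 t 16373 2016 1 = true := ex3_a t456_A00pm_123_s3 t450_A00pm_123_s3

theorem t458_A00pm_123_s3 : ∃ t, chk3 f_A00pm_123_s3 t 16373 1008 1 = true := ex3_b t457_A00pm_123_s3 t446_A00pm_123_s3

theorem t459_A00pm_123_s3 : ∃ t, chk3 f_A00pm_123_s3 t 8186 1008 1 = true := ex3_a k265_A00pm_123_s3 t458_A00pm_123_s3

theorem t460_A00pm_123_s3 : ∃ t, chk3 f_A00pm_123_s3 t 8186 504 1 = true := ex3_b t459_A00pm_123_s3 k284_A00pm_123_s3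

theorem t461_A00pm_123_s3 : ∃ t, chk3 f_A00pm_123_s3 t 8186 252 1 = true := ex3_b t460_A00pm_123_s3 k285_A00pm_123_s3

theorem t462_A00pm_123_s3 : ∃ t, chk3 f_A00pm_123_s3 t 4093 252 1 = true := ex3_a t461_A00pm_123_s3 t441_A00pm_123_s3

theorem t463_A00pm_123_s3 : ∃ t, chk3 f_A00pm_123_s3 t 4093 126 1 = true := ex3_b t462_A00pm_123_s3 k351_A00pm_123_s3

theorem t464_A00pm_123_s3 : ∃ t, chk3 f_A00pm_123_s3 t 2046 126 1 = true := ex3_a k264_A00pm_123_s3 t463_A00pm_123_s3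

theorem t465_A00pm_123_s3 : ∃ t, chk3 f_A00pm_123_s3 t 2046 63 1 = true := ex3_b t464_A00pm_123_s3 t377_A00pm_123_s3

theorem t466_A00pm_123_s3 : ∃ t, chk3 f_A00pm_123_s3 t 16375 1007 1 = true := ex3_a k262_A00pm_123_s3 k263_A00pm_123_s3

theorem t467_A00pm_123_s3 : ∃ t, chk3 f_A00pm_123_s3 t 8187 1007 1 = true := ex3_a k261_A00pm_123_s3 t466_A00pm_123_s3

theorem t468_A00pm_123_s3 : ∃ t, chk3 f_A00pm_123_s3 t 16375 2013 1 = true := ex3_a k259_A00pm_123_s3 k260_A00pm_123_s3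

theorem t469_A00pm_123_s3 : ∃ t, chk3 f_A00pm_123_s3 t 16375 2012 1 = true := ex3_b k257_A00pm_123_s3 k258_A00pm_123_s3

theorem t470_A00pm_123_s3 : ∃ t, chk3 f_A00pm_123_s3 t 16375 1006 1 = true := ex3_b t469_A00pm_123_s3 t468_A00pm_123_s3

theorem t471_A00pm_123_s3 : ∃ t, chk3 f_A00pm_123_s3 t 8187 1006 1 = true := ex3_a k256_A00pm_123_s3 t470_A00pm_123_s3

theorem t472_A00pm_123_s3 : ∃ t, chk3 f_A00pm_123_s3 t 8187 503 1 = true := ex3_b t471_A00pm_123_s3 t467_A00pm_123_s3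

theorem t473_A00pm_123_s3 : ∃ t, chk3 f_A00pm_123_s3 t 16373 503 1 = true := ex3_b k254_A00pm_123_s3 k255_A00pm_123_s3

theorem t474_A00pm_123_s3 : ∃ t, chk3 f_A00pm_123_s3 t 65491 4031 1 = true := ex3_b k252_A00pm_123_s3 k253_A00pm_123_s3

theorem t475_A00pm_123_s3 : ∃ t, chk3 f_A00pm_123_s3 t 32745 4031 1 = true := ex3_a k251_A00pm_123_s3 t474_A00pm_123_s3

theorem t476_A00pm_123_s3 : ∃ t, chk3 f_A00pm_123_s3 t 65490 4030 1 = true := ex3_b k248_A00pm_123_s3 k249_A00pm_123_s3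

theorem t477_A00pm_123_s3 : ∃ t, chk3 f_A00pm_123_s3 t 32745 4030 1 = true := ex3_a t476_A00pm_123_s3 k250_A00pm_123_s3

theorem t478_A00pm_123_s3 : ∃ t, chk3 f_A00pm_123_s3 t 32745 2015 1 = true := ex3_b t477_A00pm_123_s3 t475_A00pm_123_s3

theorem t479_A00pm_123_s3 : ∃ t, chk3 f_A00pm_123_s3 t 16372 2015 1 = true := ex3_a k247_A00pm_123_s3 t478_A00pm_123_s3

theorem t480_A00pm_123_s3 : ∃ t, chk3 f_A00pm_123_s3 t 65488 4029 1 = true := ex3_b k243_A00pm_123_s3 k244_A00pm_123_s3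

theorem t481_A00pm_123_s3 : ∃ t, chk3 f_A00pm_123_s3 t 32744 4029 1 = true := ex3_a t480_A00pm_123_s3 k245_A00pm_123_s3

theorem t482_A00pm_123_s3 : ∃ t, chk3 f_A00pm_123_s3 t 16372 4029 1 = true := ex3_a t481_A00pm_123_s3 k246_A00pm_123_s3

theorem t483_A00pm_123_s3 : ∃ t, chk3 f_A00pm_123_s3 t 16372 2014 1 = true := ex3_b k242_A00pm_123_s3 t482_A00pm_123_s3

theorem t484_A00pm_123_s3 : ∃ t, chk3 f_A00pm_123_s3 t 16372 1007 1 = true := ex3_b t483_A00pm_123_s3 t479_A00pm_123_s3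

theorem t485_A00pm_123_s3 : ∃ t, chk3 f_A00pm_123_s3 t 16372 503 1 = true := ex3_b k241_A00pm_123_s3 t484_A00pm_123_s3

theorem t486_A00pm_123_s3 : ∃ t, chk3 f_A00pm_123_s3 t 8186 503 1 = true := ex3_a t485_A00pm_123_s3 t473_A00pm_123_s3

theorem t487_A00pm_123_s3 : ∃ t, chk3 f_A00pm_123_s3 t 4093 503 1 = true := ex3_a t486_A00pm_123_s3 t472_A00pm_123_s3

theorem t488_A00pm_123_s3 : ∃ t, chk3 f_A00pm_123_s3 t 32751 1005 1 = true := ex3_b k239_A00pm_123_s3 k240_A00pm_123_s3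

theorem t489_A00pm_123_s3 : ∃ t, chk3 f_A00pm_123_s3 t 16375 1005 1 = true := ex3_a k238_A00pm_123_s3 t488_A00pm_123_s3

theorem t490_A00pm_123_s3 : ∃ t, chk3 f_A00pm_123_s3 t 16375 1004 1 = true := ex3_a k236_A00pm_123_s3 k237_A00pm_123_s3

theorem t491_A00pm_123_s3 : ∃ t, chk3 f_A00pm_123_s3 t 16375 502 1 = true := ex3_b t490_A00pm_123_s3 t489_A00pm_123_s3

theorem t492_A00pm_123_s3 : ∃ t, chk3 f_A00pm_123_s3 t 16374 1005 1 = true := ex3_a k234_A00pm_123_s3 k235_A00pm_123_s3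

theorem t493_A00pm_123_s3 : ∃ t, chk3 f_A00pm_123_s3 t 16374 502 1 = true := ex3_b k233_A00pm_123_s3 t492_A00pm_123_s3

theorem t494_A00pm_123_s3 : ∃ t, chk3 f_A00pm_123_s3 t 8187 502 1 = true := ex3_a t493_A00pm_123_s3 t491_A00pm_123_s3

theorem t495_A00pm_123_s3 : ∃ t, chk3 f_A00pm_123_s3 t 16373 502 1 = true := ex3_b k231_A00pm_123_s3 k232_A00pm_123_s3

theorem t496_A00pm_123_s3 : ∃ t, chk3 f_A00pm_123_s3 t 8186 502 1 = true := ex3_a k230_A00pm_123_s3 t495_A00pm_123_s3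

theorem t497_A00pm_123_s3 : ∃ t, chk3 f_A00pm_123_s3 t 4093 502 1 = true := ex3_a t496_A00pm_123_s3 t494_A00pm_123_s3

theorem t498_A00pm_123_s3 : ∃ t, chk3 f_A00pm_123_s3 t 4093 251 1 = true := ex3_b t497_A00pm_123_s3 t487_A00pm_123_s3

theorem t499_A00pm_123_s3 : ∃ t, chk3 f_A00pm_123_s3 t 16374 501 1 = true := ex3_b k227_A00pm_123_s3 k228_A00pm_123_s3

theorem t500_A00pm_123_s3 : ∃ t, chk3 f_A00pm_123_s3 t 8187 501 1 = true := ex3_a t499_A00pm_123_s3 k229_A00pm_123_s3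

theorem t501_A00pm_123_s3 : ∃ t, chk3 f_A00pm_123_s3 t 8187 250 1 = true := ex3_b k226_A00pm_123_s3 t500_A00pm_123_s3

theorem t502_A00pm_123_s3 : ∃ t, chk3 f_A00pm_123_s3 t 16373 501 1 = true := ex3_b k224_A00pm_123_s3 k225_A00pm_123_s3

theorem t503_A00pm_123_s3 : ∃ t, chk3 f_A00pm_123_s3 t 16372 501 1 = true := ex3_b k222_A00pm_123_s3 k223_A00pm_123_s3

theorem t504_A00pm_123_s3 : ∃ t, chk3 f_A00pm_123_s3 t 8186 501 1 = true := ex3_a t503_A00pm_123_s3 t502_A00pm_123_s3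

theorem t505_A00pm_123_s3 : ∃ t, chk3 f_A00pm_123_s3 t 16372 1000 1 = true := ex3_a k218_A00pm_123_s3 k219_A00pm_123_s3

theorem t506_A00pm_123_s3 : ∃ t, chk3 f_A00pm_123_s3 t 16372 500 1 = true := ex3_b t505_A00pm_123_s3 k220_A00pm_123_s3

theorem t507_A00pm_123_s3 : ∃ t, chk3 f_A00pm_123_s3 t 8186 500 1 = true := ex3_a t506_A00pm_123_s3 k221_A00pm_123_s3

theorem t508_A00pm_123_s3 : ∃ t, chk3 f_A00pm_123_s3 t 8186 250 1 = true := ex3_b t507_A00pm_123_s3 t504_A00pm_123_s3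

theorem t509_A00pm_123_s3 : ∃ t, chk3 f_A00pm_123_s3 t 4093 250 1 = true := ex3_a t508_A00pm_123_s3 t501_A00pm_123_s3

theorem t510_A00pm_123_s3 : ∃ t, chk3 f_A00pm_123_s3 t 4093 125 1 = true := ex3_b t509_A00pm_123_s3 t498_A00pm_123_s3

theorem t511_A00pm_123_s3 : ∃ t, chk3 f_A00pm_123_s3 t 65487 4028 1 = true := ex3_b k214_A00pm_123_s3 k215_A00pm_123_s3

theorem t512_A00pm_123_s3 : ∃ t, chk3 f_A00pm_123_s3 t 32743 4028 1 = true := ex3_a k213_A00pm_123_s3 t511_A00pm_123_s3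

theorem t513_A00pm_123_s3 : ∃ t, chk3 f_A00pm_123_s3 t 32743 2014 1 = true := ex3_b t512_A00pm_123_s3 k216_A00pm_123_s3

theorem t514_A00pm_123_s3 : ∃ t, chk3 f_A00pm_123_s3 t 16371 2014 1 = true := ex3_a k212_A00pm_123_s3 t513_A00pm_123_s3

theorem t515_A00pm_123_s3 : ∃ t, chk3 f_A00pm_123_s3 t 16371 1007 1 = true := ex3_b t514_A00pm_123_s3 k217_A00pm_123_s3

theorem t516_A00pm_123_s3 : ∃ t, chk3 f_A00pm_123_s3 t 8185 1007 1 = true := ex3_a k211_A00pm_123_s3 t515_A00pm_123_s3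

theorem t517_A00pm_123_s3 : ∃ t, chk3 f_A00pm_123_s3 t 65484 4026 1 = true := ex3_b k206_A00pm_123_s3 k207_A00pm_123_s3

theorem t518_A00pm_123_s3 : ∃ t, chk3 f_A00pm_123_s3 t 32742 4026 1 = true := ex3_a t517_A00pm_123_s3 k208_A00pm_123_s3

theorem t519_A00pm_123_s3 : ∃ t, chk3 f_A00pm_123_s3 t 32742 2013 1 = true := ex3_b t518_A00pm_123_s3 k209_A00pm_123_s3

theorem t520_A00pm_123_s3 : ∃ t, chk3 f_A00pm_123_s3 t 32742 1006 1 = true := ex3_b k205_A00pm_123_s3 t519_A00pm_123_s3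

theorem t521_A00pm_123_s3 : ∃ t, chk3 f_A00pm_123_s3 t 16371 1006 1 = true := ex3_a t520_A00pm_123_s3 k210_A00pm_123_s3

theorem t522_A00pm_123_s3 : ∃ t, chk3 f_A00pm_123_s3 t 32741 4025 1 = true := ex3_a k202_A00pm_123_s3 k203_A00pm_123_s3

theorem t523_A00pm_123_s3 : ∃ t, chk3 f_A00pm_123_s3 t 32741 2012 1 = true := ex3_b k201_A00pm_123_s3 t522_A00pm_123_s3

theorem t524_A00pm_123_s3 : ∃ t, chk3 f_A00pm_123_s3 t 32740 4024 1 = true := ex3_a k198_A00pm_123_s3 k199_A00pm_123_s3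

theorem t525_A00pm_123_s3 : ∃ t, chk3 f_A00pm_123_s3 t 32740 2012 1 = true := ex3_b t524_A00pm_123_s3 k200_A00pm_123_s3

theorem t526_A00pm_123_s3 : ∃ t, chk3 f_A00pm_123_s3 t 16370 2012 1 = true := ex3_a t525_A00pm_123_s3 t523_A00pm_123_s3

theorem t527_A00pm_123_s3 : ∃ t, chk3 f_A00pm_123_s3 t 16370 1006 1 = true := ex3_b t526_A00pm_123_s3 k204_A00pm_123_s3

theorem t528_A00pm_123_s3 : ∃ t, chk3 f_A00pm_123_s3 t 8185 1006 1 = true := ex3_a t527_A00pm_123_s3 t521_A00pm_123_s3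

theorem t529_A00pm_123_s3 : ∃ t, chk3 f_A00pm_123_s3 t 8185 503 1 = true := ex3_b t528_A00pm_123_s3 t516_A00pm_123_s3

theorem t530_A00pm_123_s3 : ∃ t, chk3 f_A00pm_123_s3 t 4092 503 1 = true := ex3_a k197_A00pm_123_s3 t529_A00pm_123_s3

theorem t531_A00pm_123_s3 : ∃ t, chk3 f_A00pm_123_s3 t 8185 1005 1 = true := ex3_a k195_A00pm_123_s3 k196_A00pm_123_s3

theorem t532_A00pm_123_s3 : ∃ t, chk3 f_A00pm_123_s3 t 8185 502 1 = true := ex3_b k194_A00pm_123_s3 t531_A00pm_123_s3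

theorem t533_A00pm_123_s3 : ∃ t, chk3 f_A00pm_123_s3 t 32739 4022 1 = true := ex3_a k191_A00pm_123_s3 k192_A00pm_123_s3

theorem t534_A00pm_123_s3 : ∃ t, chk3 f_A00pm_123_s3 t 32739 2011 1 = true := ex3_b t533_A00pm_123_s3 k193_A00pm_123_s3

theorem t535_A00pm_123_s3 : ∃ t, chk3 f_A00pm_123_s3 t 16369 2011 1 = true := ex3_a k190_A00pm_123_s3 t534_A00pm_123_s3

theorem t536_A00pm_123_s3 : ∃ t, chk3 f_A00pm_123_s3 t 32738 4021 1 = true := ex3_a k187_A00pm_123_s3 k188_A00pm_123_s3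

theorem t537_A00pm_123_s3 : ∃ t, chk3 f_A00pm_123_s3 t 16369 4021 1 = true := ex3_a t536_A00pm_123_s3 k189_A00pm_123_s3

theorem t538_A00pm_123_s3 : ∃ t, chk3 f_A00pm_123_s3 t 16369 2010 1 = true := ex3_b k186_A00pm_123_s3 t537_A00pm_123_s3

theorem t539_A00pm_123_s3 : ∃ t, chk3 f_A00pm_123_s3 t 16369 1005 1 = true := ex3_b t538_A00pm_123_s3 t535_A00pm_123_s3

theorem t540_A00pm_123_s3 : ∃ t, chk3 f_A00pm_123_s3 t 32737 4020 1 = true := ex3_a k182_A00pm_123_s3 k183_A00pm_123_s3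

theorem t541_A00pm_123_s3 : ∃ t, chk3 f_A00pm_123_s3 t 16368 4020 1 = true := ex3_a k181_A00pm_123_s3 t540_A00pm_123_s3

theorem t542_A00pm_123_s3 : ∃ t, chk3 f_A00pm_123_s3 t 16368 2010 1 = true := ex3_b t541_A00pm_123_s3 k184_A00pm_123_s3

theorem t543_A00pm_123_s3 : ∃ t, chk3 f_A00pm_123_s3 t 16368 1005 1 = true := ex3_b t542_A00pm_123_s3 k185_A00pm_123_s3

theorem t544_A00pm_123_s3 : ∃ t, chk3 f_A00pm_123_s3 t 8184 1005 1 = true := ex3_a t543_A00pm_123_s3 t539_A00pm_123_s3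

theorem t545_A00pm_123_s3 : ∃ t, chk3 f_A00pm_123_s3 t 32736 2009 1 = true := ex3_b k177_A00pm_123_s3 k178_A00pm_123_s3

theorem t546_A00pm_123_s3 : ∃ t, chk3 f_A00pm_123_s3 t 32736 1004 1 = true := ex3_b k176_A00pm_123_s3 t545_A00pm_123_s3

theorem t547_A00pm_123_s3 : ∃ t, chk3 f_A00pm_123_s3 t 16368 1004 1 = true := ex3_a t546_A00pm_123_s3 k179_A00pm_123_s3

theorem t548_A00pm_123_s3 : ∃ t, chk3 f_A00pm_123_s3 t 8184 1004 1 = true := ex3_a t547_A00pm_123_s3 k180_A00pm_123_s3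

theorem t549_A00pm_123_s3 : ∃ t, chk3 f_A00pm_123_s3 t 8184 502 1 = true := ex3_b t548_A00pm_123_s3 t544_A00pm_123_s3

theorem t550_A00pm_123_s3 : ∃ t, chk3 f_A00pm_123_s3 t 4092 502 1 = true := ex3_a t549_A00pm_123_s3 t532_A00pm_123_s3

theorem t551_A00pm_123_s3 : ∃ t, chk3 f_A00pm_123_s3 t 4092 251 1 = true := ex3_b t550_A00pm_123_s3 t530_A00pm_123_s3

theorem t552_A00pm_123_s3 : ∃ t, chk3 f_A00pm_123_s3 t 8185 501 1 = true := ex3_a k174_A00pm_123_s3 k175_A00pm_123_s3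

theorem t553_A00pm_123_s3 : ∃ t, chk3 f_A00pm_123_s3 t 8185 500 1 = true := ex3_b k172_A00pm_123_s3 k173_A00pm_123_s3

theorem t554_A00pm_123_s3 : ∃ t, chk3 f_A00pm_123_s3 t 8185 250 1 = true := ex3_b t553_A00pm_123_s3 t552_A00pm_123_s3

theorem t555_A00pm_123_s3 : ∃ t, chk3 f_A00pm_123_s3 t 8184 250 1 = true := ex3_b k170_A00pm_123_s3 k171_A00pm_123_s3

theorem t556_A00pm_123_s3 : ∃ t, chk3 f_A00pm_123_s3 t 4092 250 1 = true := ex3_a t555_A00pm_123_s3 t554_A00pm_123_s3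

theorem t557_A00pm_123_s3 : ∃ t, chk3 f_A00pm_123_s3 t 4092 125 1 = true := ex3_b t556_A00pm_123_s3 t551_A00pm_123_s3

theorem t558_A00pm_123_s3 : ∃ t, chk3 f_A00pm_123_s3 t 2046 125 1 = true := ex3_a t557_A00pm_123_s3 t510_A00pm_123_s3

theorem t559_A00pm_123_s3 : ∃ t, chk3 f_A00pm_123_s3 t 2046 62 1 = true := ex3_b k169_A00pm_123_s3 t558_A00pm_123_s3

theorem t560_A00pm_123_s3 : ∃ t, chk3 f_A00pm_123_s3 t 2046 31 1 = true := ex3_b t559_A00pm_123_s3 t465_A00pm_123_s3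

theorem t561_A00pm_123_s3 : ∃ t, chk3 f_A00pm_123_s3 t 1023 31 1 = true := ex3_a t560_A00pm_123_s3 t367_A00pm_123_s3

theorem t562_A00pm_123_s3 : ∃ t, chk3 f_A00pm_123_s3 t 1022 511 1 = true := ex3_a k167_A00pm_123_s3 k168_A00pm_123_s3

theorem t563_A00pm_123_s3 : ∃ t, chk3 f_A00pm_123_s3 t 1022 255 1 = true := ex3_b k166_A00pm_123_s3 t562_A00pm_123_s3

theorem t564_A00pm_123_s3 : ∃ t, chk3 f_A00pm_123_s3 t 2045 1019 1 = true := ex3_a k164_A00pm_123_s3 k165_A00pm_123_s3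

theorem t565_A00pm_123_s3 : ∃ t, chk3 f_A00pm_123_s3 t 2045 509 1 = true := ex3_b k163_A00pm_123_s3 t564_A00pm_123_s3

theorem t566_A00pm_123_s3 : ∃ t, chk3 f_A00pm_123_s3 t 1022 509 1 = true := ex3_a k162_A00pm_123_s3 t565_A00pm_123_s3

theorem t567_A00pm_123_s3 : ∃ t, chk3 f_A00pm_123_s3 t 1022 254 1 = true := ex3_b k161_A00pm_123_s3 t566_A00pm_123_s3

theorem t568_A00pm_123_s3 : ∃ t, chk3 f_A00pm_123_s3 t 1022 127 1 = true := ex3_b t567_A00pm_123_s3 t563_A00pm_123_s3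

theorem t569_A00pm_123_s3 : ∃ t, chk3 f_A00pm_123_s3 t 1022 126 1 = true := ex3_b k159_A00pm_123_s3 k160_A00pm_123_s3

theorem t570_A00pm_123_s3 : ∃ t, chk3 f_A00pm_123_s3 t 1022 63 1 = true := ex3_b t569_A00pm_123_s3 t568_A00pm_123_s3

theorem t571_A00pm_123_s3 : ∃ t, chk3 f_A00pm_123_s3 t 32734 4016 1 = true := ex3_a k152_A00pm_123_s3 k153_A00pm_123_s3

theorem t572_A00pm_123_s3 : ∃ t, chk3 f_A00pm_123_s3 t 32734 2008 1 = true := ex3_b t571_A00pm_123_s3 k154_A00pm_123_s3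

theorem t573_A00pm_123_s3 : ∃ t, chk3 f_A00pm_123_s3 t 16367 2008 1 = true := ex3_a t572_A00pm_123_s3 k155_A00pm_123_s3

theorem t574_A00pm_123_s3 : ∃ t, chk3 f_A00pm_123_s3 t 16367 1004 1 = true := ex3_b t573_A00pm_123_s3 k156_A00pm_123_s3

theorem t575_A00pm_123_s3 : ∃ t, chk3 f_A00pm_123_s3 t 8183 1004 1 = true := ex3_a k151_A00pm_123_s3 t574_A00pm_123_s3

theorem t576_A00pm_123_s3 : ∃ t, chk3 f_A00pm_123_s3 t 8183 502 1 = true := ex3_b t575_A00pm_123_s3 k157_A00pm_123_s3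

theorem t577_A00pm_123_s3 : ∃ t, chk3 f_A00pm_123_s3 t 4091 502 1 = true := ex3_a k150_A00pm_123_s3 t576_A00pm_123_s3

theorem t578_A00pm_123_s3 : ∃ t, chk3 f_A00pm_123_s3 t 4091 251 1 = true := ex3_b t577_A00pm_123_s3 k158_A00pm_123_s3

theorem t579_A00pm_123_s3 : ∃ t, chk3 f_A00pm_123_s3 t 2045 251 1 = true := ex3_a k149_A00pm_123_s3 t578_A00pm_123_s3

theorem t580_A00pm_123_s3 : ∃ t, chk3 f_A00pm_123_s3 t 32733 4015 1 = true := ex3_a k146_A00pm_123_s3 k147_A00pm_123_s3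

theorem t581_A00pm_123_s3 : ∃ t, chk3 f_A00pm_123_s3 t 32733 2007 1 = true := ex3_b k145_A00pm_123_s3 t580_A00pm_123_s3

theorem t582_A00pm_123_s3 : ∃ t, chk3 f_A00pm_123_s3 t 16366 2007 1 = true := ex3_a k144_A00pm_123_s3 t581_A00pm_123_s3

theorem t583_A00pm_123_s3 : ∃ t, chk3 f_A00pm_123_s3 t 8183 2007 1 = true := ex3_a t582_A00pm_123_s3 k148_A00pm_123_s3

theorem t584_A00pm_123_s3 : ∃ t, chk3 f_A00pm_123_s3 t 8183 1003 1 = true := ex3_b k143_A00pm_123_s3 t583_A00pm_123_s3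

theorem t585_A00pm_123_s3 : ∃ t, chk3 f_A00pm_123_s3 t 8183 501 1 = true := ex3_b k142_A00pm_123_s3 t584_A00pm_123_s3

theorem t586_A00pm_123_s3 : ∃ t, chk3 f_A00pm_123_s3 t 8183 250 1 = true := ex3_b k141_A00pm_123_s3 t585_A00pm_123_s3

theorem t587_A00pm_123_s3 : ∃ t, chk3 f_A00pm_123_s3 t 32731 2006 1 = true := ex3_b k138_A00pm_123_s3 k139_A00pm_123_s3

theorem t588_A00pm_123_s3 : ∃ t, chk3 f_A00pm_123_s3 t 16365 2006 1 = true := ex3_a k137_A00pm_123_s3 t587_A00pm_123_s3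

theorem t589_A00pm_123_s3 : ∃ t, chk3 f_A00pm_123_s3 t 16365 1003 1 = true := ex3_b t588_A00pm_123_s3 k140_A00pm_123_s3

theorem t590_A00pm_123_s3 : ∃ t, chk3 f_A00pm_123_s3 t 8182 1003 1 = true := ex3_a k136_A00pm_123_s3 t589_A00pm_123_s3

theorem t591_A00pm_123_s3 : ∃ t, chk3 f_A00pm_123_s3 t 32729 2005 1 = true := ex3_b k133_A00pm_123_s3 k134_A00pm_123_s3

theorem t592_A00pm_123_s3 : ∃ t, chk3 f_A00pm_123_s3 t 16364 2005 1 = true := ex3_a k132_A00pm_123_s3 t591_A00pm_123_s3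

theorem t593_A00pm_123_s3 : ∃ t, chk3 f_A00pm_123_s3 t 16364 1002 1 = true := ex3_b k131_A00pm_123_s3 t592_A00pm_123_s3

theorem t594_A00pm_123_s3 : ∃ t, chk3 f_A00pm_123_s3 t 8182 1002 1 = true := ex3_a t593_A00pm_123_s3 k135_A00pm_123_s3

theorem t595_A00pm_123_s3 : ∃ t, chk3 f_A00pm_123_s3 t 8182 501 1 = true := ex3_b t594_A00pm_123_s3 t590_A00pm_123_s3

theorem t596_A00pm_123_s3 : ∃ t, chk3 f_A00pm_123_s3 t 8182 250 1 = true := ex3_b k130_A00pm_123_s3 t595_A00pm_123_s3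

theorem t597_A00pm_123_s3 : ∃ t, chk3 f_A00pm_123_s3 t 4091 250 1 = true := ex3_a t596_A00pm_123_s3 t586_A00pm_123_s3

theorem t598_A00pm_123_s3 : ∃ t, chk3 f_A00pm_123_s3 t 16363 2004 1 = true := ex3_a k126_A00pm_123_s3 k127_A00pm_123_s3

theorem t599_A00pm_123_s3 : ∃ t, chk3 f_A00pm_123_s3 t 16363 1002 1 = true := ex3_b t598_A00pm_123_s3 k128_A00pm_123_s3

theorem t600_A00pm_123_s3 : ∃ t, chk3 f_A00pm_123_s3 t 8181 1002 1 = true := ex3_a k125_A00pm_123_s3 t599_A00pm_123_s3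

theorem t601_A00pm_123_s3 : ∃ t, chk3 f_A00pm_123_s3 t 8181 501 1 = true := ex3_b t600_A00pm_123_s3 k129_A00pm_123_s3

theorem t602_A00pm_123_s3 : ∃ t, chk3 f_A00pm_123_s3 t 4090 501 1 = true := ex3_a k124_A00pm_123_s3 t601_A00pm_123_s3

theorem t603_A00pm_123_s3 : ∃ t, chk3 f_A00pm_123_s3 t 16362 1001 1 = true := ex3_b k121_A00pm_123_s3 k122_A00pm_123_s3

theorem t604_A00pm_123_s3 : ∃ t, chk3 f_A00pm_123_s3 t 8181 1001 1 = true := ex3_a t603_A00pm_123_s3 k123_A00pm_123_s3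

theorem t605_A00pm_123_s3 : ∃ t, chk3 f_A00pm_123_s3 t 8181 500 1 = true := ex3_b k120_A00pm_123_s3 t604_A00pm_123_s3

theorem t606_A00pm_123_s3 : ∃ t, chk3 f_A00pm_123_s3 t 16360 1000 1 = true := ex3_b k116_A00pm_123_s3 k117_A00pm_123_s3

theorem t607_A00pm_123_s3 : ∃ t, chk3 f_A00pm_123_s3 t 8180 1000 1 = true := ex3_a t606_A00pm_123_s3 k118_A00pm_123_s3

theorem t608_A00pm_123_s3 : ∃ t, chk3 f_A00pm_123_s3 t 8180 500 1 = true := ex3_b t607_A00pm_123_s3 k119_A00pm_123_s3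

theorem t609_A00pm_123_s3 : ∃ t, chk3 f_A00pm_123_s3 t 4090 500 1 = true := ex3_a t608_A00pm_123_s3 t605_A00pm_123_s3

theorem t610_A00pm_123_s3 : ∃ t, chk3 f_A00pm_123_s3 t 4090 250 1 = true := ex3_b t609_A00pm_123_s3 t602_A00pm_123_s3

theorem t611_A00pm_123_s3 : ∃ t, chk3 f_A00pm_123_s3 t 2045 250 1 = true := ex3_a t610_A00pm_123_s3 t597_A00pm_123_s3

theorem t612_A00pm_123_s3 : ∃ t, chk3 f_A00pm_123_s3 t 2045 125 1 = true := ex3_b t611_A00pm_123_s3 t579_A00pm_123_s3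

theorem t613_A00pm_123_s3 : ∃ t, chk3 f_A00pm_123_s3 t 2044 125 1 = true := ex3_b k114_A00pm_123_s3 k115_A00pm_123_s3

theorem t614_A00pm_123_s3 : ∃ t, chk3 f_A00pm_123_s3 t 1022 125 1 = true := ex3_a t613_A00pm_123_s3 t612_A00pm_123_s3

theorem t615_A00pm_123_s3 : ∃ t, chk3 f_A00pm_123_s3 t 2045 249 1 = true := ex3_a k112_A00pm_123_s3 k113_A00pm_123_s3

theorem t616_A00pm_123_s3 : ∃ t, chk3 f_A00pm_123_s3 t 2045 248 1 = true := ex3_a k110_A00pm_123_s3 k111_A00pm_123_s3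

theorem t617_A00pm_123_s3 : ∃ t, chk3 f_A00pm_123_s3 t 2045 124 1 = true := ex3_b t616_A00pm_123_s3 t615_A00pm_123_s3

theorem t618_A00pm_123_s3 : ∃ t, chk3 f_A00pm_123_s3 t 16358 999 1 = true := ex3_b k107_A00pm_123_s3 k108_A00pm_123_s3

theorem t619_A00pm_123_s3 : ∃ t, chk3 f_A00pm_123_s3 t 8179 999 1 = true := ex3_a t618_A00pm_123_s3 k109_A00pm_123_s3

theorem t620_A00pm_123_s3 : ∃ t, chk3 f_A00pm_123_s3 t 8179 499 1 = true := ex3_b k106_A00pm_123_s3 t619_A00pm_123_s3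

theorem t621_A00pm_123_s3 : ∃ t, chk3 f_A00pm_123_s3 t 8178 998 1 = true := ex3_b k103_A00pm_123_s3 k104_A00pm_123_s3

theorem t622_A00pm_123_s3 : ∃ t, chk3 f_A00pm_123_s3 t 8178 499 1 = true := ex3_b t621_A00pm_123_s3 k105_A00pm_123_s3

theorem t623_A00pm_123_s3 : ∃ t, chk3 f_A00pm_123_s3 t 4089 499 1 = true := ex3_a t622_A00pm_123_s3 t620_A00pm_123_s3

theorem t624_A00pm_123_s3 : ∃ t, chk3 f_A00pm_123_s3 t 4089 249 1 = true := ex3_b k102_A00pm_123_s3 t623_A00pm_123_s3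

theorem t625_A00pm_123_s3 : ∃ t, chk3 f_A00pm_123_s3 t 4089 124 1 = true := ex3_b k101_A00pm_123_s3 t624_A00pm_123_s3

theorem t626_A00pm_123_s3 : ∃ t, chk3 f_A00pm_123_s3 t 4088 997 1 = true := ex3_a k98_A00pm_123_s3 k99_A00pm_123_s3

theorem t627_A00pm_123_s3 : ∃ t, chk3 f_A00pm_123_s3 t 4088 498 1 = true := ex3_b k97_A00pm_123_s3 t626_A00pm_123_s3

theorem t628_A00pm_123_s3 : ∃ t, chk3 f_A00pm_123_s3 t 4088 249 1 = true := ex3_b t627_A00pm_123_s3 k100_A00pm_123_s3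

theorem t629_A00pm_123_s3 : ∃ t, chk3 f_A00pm_123_s3 t 4088 124 1 = true := ex3_b k96_A00pm_123_s3 t628_A00pm_123_s3

theorem t630_A00pm_123_s3 : ∃ t, chk3 f_A00pm_123_s3 t 2044 124 1 = true := ex3_a t629_A00pm_123_s3 t625_A00pm_123_s3

theorem t631_A00pm_123_s3 : ∃ t, chk3 f_A00pm_123_s3 t 1022 124 1 = true := ex3_a t630_A00pm_123_s3 t617_A00pm_123_s3

theorem t632_A00pm_123_s3 : ∃ t, chk3 f_A00pm_123_s3 t 1022 62 1 = true := ex3_b t631_A00pm_123_s3 t614_A00pm_123_s3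

theorem t633_A00pm_123_s3 : ∃ t, chk3 f_A00pm_123_s3 t 1022 31 1 = true := ex3_b t632_A00pm_123_s3 t570_A00pm_123_s3

theorem t634_A00pm_123_s3 : ∃ t, chk3 f_A00pm_123_s3 t 511 31 1 = true := ex3_a t633_A00pm_123_s3 t561_A00pm_123_s3

theorem t635_A00pm_123_s3 : ∃ t, chk3 f_A00pm_123_s3 t 510 255 1 = true := ex3_b k94_A00pm_123_s3 k95_A00pm_123_s3

theorem t636_A00pm_123_s3 : ∃ t, chk3 f_A00pm_123_s3 t 1021 254 1 = true := ex3_b k92_A00pm_123_s3 k93_A00pm_123_s3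

theorem t637_A00pm_123_s3 : ∃ t, chk3 f_A00pm_123_s3 t 510 254 1 = true := ex3_a k91_A00pm_123_s3 t636_A00pm_123_s3

theorem t638_A00pm_123_s3 : ∃ t, chk3 f_A00pm_123_s3 t 510 127 1 = true := ex3_b t637_A00pm_123_s3 t635_A00pm_123_s3

theorem t639_A00pm_123_s3 : ∃ t, chk3 f_A00pm_123_s3 t 510 63 1 = true := ex3_b k90_A00pm_123_s3 t638_A00pm_123_s3

theorem t640_A00pm_123_s3 : ∃ t, chk3 f_A00pm_123_s3 t 4087 497 1 = true := ex3_b k86_A00pm_123_s3 k87_A00pm_123_s3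

theorem t641_A00pm_123_s3 : ∃ t, chk3 f_A00pm_123_s3 t 4087 248 1 = true := ex3_b k85_A00pm_123_s3 t640_A00pm_123_s3

theorem t642_A00pm_123_s3 : ∃ t, chk3 f_A00pm_123_s3 t 4086 248 1 = true := ex3_b k83_A00pm_123_s3 k84_A00pm_123_s3

theorem t643_A00pm_123_s3 : ∃ t, chk3 f_A00pm_123_s3 t 2043 248 1 = true := ex3_a t642_A00pm_123_s3 t641_A00pm_123_s3

theorem t644_A00pm_123_s3 : ∃ t, chk3 f_A00pm_123_s3 t 2043 124 1 = true := ex3_b t643_A00pm_123_s3 k88_A00pm_123_s3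

theorem t645_A00pm_123_s3 : ∃ t, chk3 f_A00pm_123_s3 t 1021 124 1 = true := ex3_a k82_A00pm_123_s3 t644_A00pm_123_s3

theorem t646_A00pm_123_s3 : ∃ t, chk3 f_A00pm_123_s3 t 510 124 1 = true := ex3_a k81_A00pm_123_s3 t645_A00pm_123_s3

theorem t647_A00pm_123_s3 : ∃ t, chk3 f_A00pm_123_s3 t 510 62 1 = true := ex3_b t646_A00pm_123_s3 k89_A00pm_123_s3

theorem t648_A00pm_123_s3 : ∃ t, chk3 f_A00pm_123_s3 t 510 31 1 = true := ex3_b t647_A00pm_123_s3 t639_A00pm_123_s3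

theorem t649_A00pm_123_s3 : ∃ t, chk3 f_A00pm_123_s3 t 255 31 1 = true := ex3_a t648_A00pm_123_s3 t634_A00pm_123_s3

theorem t650_A00pm_123_s3 : ∃ t, chk3 f_A00pm_123_s3 t 254 255 1 = true := ex3_a k79_A00pm_123_s3 k80_A00pm_123_s3

theorem t651_A00pm_123_s3 : ∃ t, chk3 f_A00pm_123_s3 t 254 127 1 = true := ex3_b k78_A00pm_123_s3 t650_A00pm_123_s3

theorem t652_A00pm_123_s3 : ∃ t, chk3 f_A00pm_123_s3 t 254 126 1 = true := ex3_a k76_A00pm_123_s3 k77_A00pm_123_s3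

theorem t653_A00pm_123_s3 : ∃ t, chk3 f_A00pm_123_s3 t 254 63 1 = true := ex3_b t652_A00pm_123_s3 t651_A00pm_123_s3

theorem t654_A00pm_123_s3 : ∃ t, chk3 f_A00pm_123_s3 t 254 31 1 = true := ex3_b k75_A00pm_123_s3 t653_A00pm_123_s3

theorem t655_A00pm_123_s3 : ∃ t, chk3 f_A00pm_123_s3 t 127 31 1 = true := ex3_a t654_A00pm_123_s3 t649_A00pm_123_s3

theorem t656_A00pm_123_s3 : ∃ t, chk3 f_A00pm_123_s3 t 1015 63 1 = true := ex3_b k73_A00pm_123_s3 k74_A00pm_123_s3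

theorem t657_A00pm_123_s3 : ∃ t, chk3 f_A00pm_123_s3 t 1015 31 1 = true := ex3_b k72_A00pm_123_s3 t656_A00pm_123_s3

theorem t658_A00pm_123_s3 : ∃ t, chk3 f_A00pm_123_s3 t 507 31 1 = true := ex3_a k71_A00pm_123_s3 t657_A00pm_123_s3

theorem t659_A00pm_123_s3 : ∃ t, chk3 f_A00pm_123_s3 t 253 31 1 = true := ex3_a k70_A00pm_123_s3 t658_A00pm_123_s3

theorem t660_A00pm_123_s3 : ∃ t, chk3 f_A00pm_123_s3 t 126 31 1 = true := ex3_a k69_A00pm_123_s3 t659_A00pm_123_s3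

theorem t661_A00pm_123_s3 : ∃ t, chk3 f_A00pm_123_s3 t 63 31 1 = true := ex3_a t660_A00pm_123_s3 t655_A00pm_123_s3

theorem t662_A00pm_123_s3 : ∃ t, chk3 f_A00pm_123_s3 t 31 31 1 = true := ex3_a k68_A00pm_123_s3 t661_A00pm_123_s3

theorem t663_A00pm_123_s3 : ∃ t, chk3 f_A00pm_123_s3 t 1022 123 1 = true := ex3_a k65_A00pm_123_s3 k66_A00pm_123_s3

theorem t664_A00pm_123_s3 : ∃ t, chk3 f_A00pm_123_s3 t 511 123 1 = true := ex3_a t663_A00pm_123_s3 k67_A00pm_123_s3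

theorem t665_A00pm_123_s3 : ∃ t, chk3 f_A00pm_123_s3 t 511 61 1 = true := ex3_b k64_A00pm_123_s3 t664_A00pm_123_s3

theorem t666_A00pm_123_s3 : ∃ t, chk3 f_A00pm_123_s3 t 511 30 1 = true := ex3_b k63_A00pm_123_s3 t665_A00pm_123_s3

theorem t667_A00pm_123_s3 : ∃ t, chk3 f_A00pm_123_s3 t 2042 247 1 = true := ex3_a k60_A00pm_123_s3 k61_A00pm_123_s3

theorem t668_A00pm_123_s3 : ∃ t, chk3 f_A00pm_123_s3 t 1021 247 1 = true := ex3_a t667_A00pm_123_s3 k62_A00pm_123_s3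

theorem t669_A00pm_123_s3 : ∃ t, chk3 f_A00pm_123_s3 t 1021 123 1 = true := ex3_b k59_A00pm_123_s3 t668_A00pm_123_s3

theorem t670_A00pm_123_s3 : ∃ t, chk3 f_A00pm_123_s3 t 1021 122 1 = true := ex3_a k57_A00pm_123_s3 k58_A00pm_123_s3

theorem t671_A00pm_123_s3 : ∃ t, chk3 f_A00pm_123_s3 t 1021 61 1 = true := ex3_b t670_A00pm_123_s3 t669_A00pm_123_s3

theorem t672_A00pm_123_s3 : ∃ t, chk3 f_A00pm_123_s3 t 2041 494 1 = true := ex3_a k54_A00pm_123_s3 k55_A00pm_123_s3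

theorem t673_A00pm_123_s3 : ∃ t, chk3 f_A00pm_123_s3 t 2041 247 1 = true := ex3_b t672_A00pm_123_s3 k56_A00pm_123_s3

theorem t674_A00pm_123_s3 : ∃ t, chk3 f_A00pm_123_s3 t 1020 247 1 = true := ex3_a k53_A00pm_123_s3 t673_A00pm_123_s3

theorem t675_A00pm_123_s3 : ∃ t, chk3 f_A00pm_123_s3 t 2040 246 1 = true := ex3_b k50_A00pm_123_s3 k51_A00pm_123_s3

theorem t676_A00pm_123_s3 : ∃ t, chk3 f_A00pm_123_s3 t 1020 246 1 = true := ex3_a t675_A00pm_123_s3 k52_A00pm_123_s3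

theorem t677_A00pm_123_s3 : ∃ t, chk3 f_A00pm_123_s3 t 1020 123 1 = true := ex3_b t676_A00pm_123_s3 t674_A00pm_123_s3

theorem t678_A00pm_123_s3 : ∃ t, chk3 f_A00pm_123_s3 t 1020 61 1 = true := ex3_b k49_A00pm_123_s3 t677_A00pm_123_s3

theorem t679_A00pm_123_s3 : ∃ t, chk3 f_A00pm_123_s3 t 510 61 1 = true := ex3_a t678_A00pm_123_s3 t671_A00pm_123_s3

theorem t680_A00pm_123_s3 : ∃ t, chk3 f_A00pm_123_s3 t 510 30 1 = true := ex3_b k48_A00pm_123_s3 t679_A00pm_123_s3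

theorem t681_A00pm_123_s3 : ∃ t, chk3 f_A00pm_123_s3 t 255 30 1 = true := ex3_a t680_A00pm_123_s3 t666_A00pm_123_s3

theorem t682_A00pm_123_s3 : ∃ t, chk3 f_A00pm_123_s3 t 2038 490 1 = true := ex3_a k43_A00pm_123_s3 k44_A00pm_123_s3

theorem t683_A00pm_123_s3 : ∃ t, chk3 f_A00pm_123_s3 t 2038 245 1 = true := ex3_b t682_A00pm_123_s3 k45_A00pm_123_s3

theorem t684_A00pm_123_s3 : ∃ t, chk3 f_A00pm_123_s3 t 2038 122 1 = true := ex3_b k42_A00pm_123_s3 t683_A00pm_123_s3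

theorem t685_A00pm_123_s3 : ∃ t, chk3 f_A00pm_123_s3 t 1019 122 1 = true := ex3_a t684_A00pm_123_s3 k46_A00pm_123_s3

theorem t686_A00pm_123_s3 : ∃ t, chk3 f_A00pm_123_s3 t 4074 489 1 = true := ex3_b k38_A00pm_123_s3 k39_A00pm_123_s3

theorem t687_A00pm_123_s3 : ∃ t, chk3 f_A00pm_123_s3 t 2037 489 1 = true := ex3_a t686_A00pm_123_s3 k40_A00pm_123_s3

theorem t688_A00pm_123_s3 : ∃ t, chk3 f_A00pm_123_s3 t 2037 244 1 = true := ex3_b k37_A00pm_123_s3 t687_A00pm_123_s3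

theorem t689_A00pm_123_s3 : ∃ t, chk3 f_A00pm_123_s3 t 2036 488 1 = true := ex3_a k34_A00pm_123_s3 k35_A00pm_123_s3

theorem t690_A00pm_123_s3 : ∃ t, chk3 f_A00pm_123_s3 t 2036 244 1 = true := ex3_b t689_A00pm_123_s3 k36_A00pm_123_s3

theorem t691_A00pm_123_s3 : ∃ t, chk3 f_A00pm_123_s3 t 1018 244 1 = true := ex3_a t690_A00pm_123_s3 t688_A00pm_123_s3

theorem t692_A00pm_123_s3 : ∃ t, chk3 f_A00pm_123_s3 t 1018 122 1 = true := ex3_b t691_A00pm_123_s3 k41_A00pm_123_s3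

theorem t693_A00pm_123_s3 : ∃ t, chk3 f_A00pm_123_s3 t 509 122 1 = true := ex3_a t692_A00pm_123_s3 t685_A00pm_123_s3

theorem t694_A00pm_123_s3 : ∃ t, chk3 f_A00pm_123_s3 t 509 61 1 = true := ex3_b t693_A00pm_123_s3 k47_A00pm_123_s3

theorem t695_A00pm_123_s3 : ∃ t, chk3 f_A00pm_123_s3 t 254 61 1 = true := ex3_a k33_A00pm_123_s3 t694_A00pm_123_s3

theorem t696_A00pm_123_s3 : ∃ t, chk3 f_A00pm_123_s3 t 1017 487 1 = true := ex3_a k30_A00pm_123_s3 k31_A00pm_123_s3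

theorem t697_A00pm_123_s3 : ∃ t, chk3 f_A00pm_123_s3 t 1017 243 1 = true := ex3_b k29_A00pm_123_s3 t696_A00pm_123_s3

theorem t698_A00pm_123_s3 : ∃ t, chk3 f_A00pm_123_s3 t 1017 121 1 = true := ex3_b k28_A00pm_123_s3 t697_A00pm_123_s3

theorem t699_A00pm_123_s3 : ∃ t, chk3 f_A00pm_123_s3 t 1017 60 1 = true := ex3_b k27_A00pm_123_s3 t698_A00pm_123_s3

theorem t700_A00pm_123_s3 : ∃ t, chk3 f_A00pm_123_s3 t 1016 121 1 = true := ex3_b k25_A00pm_123_s3 k26_A00pm_123_s3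

theorem t701_A00pm_123_s3 : ∃ t, chk3 f_A00pm_123_s3 t 1016 60 1 = true := ex3_b k24_A00pm_123_s3 t700_A00pm_123_s3

theorem t702_A00pm_123_s3 : ∃ t, chk3 f_A00pm_123_s3 t 508 60 1 = true := ex3_a t701_A00pm_123_s3 t699_A00pm_123_s3

theorem t703_A00pm_123_s3 : ∃ t, chk3 f_A00pm_123_s3 t 254 60 1 = true := ex3_a t702_A00pm_123_s3 k32_A00pm_123_s3

theorem t704_A00pm_123_s3 : ∃ t, chk3 f_A00pm_123_s3 t 254 30 1 = true := ex3_b t703_A00pm_123_s3 t695_A00pm_123_s3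

theorem t705_A00pm_123_s3 : ∃ t, chk3 f_A00pm_123_s3 t 127 30 1 = true := ex3_a t704_A00pm_123_s3 t681_A00pm_123_s3

theorem t706_A00pm_123_s3 : ∃ t, chk3 f_A00pm_123_s3 t 253 120 1 = true := ex3_a k20_A00pm_123_s3 k21_A00pm_123_s3

theorem t707_A00pm_123_s3 : ∃ t, chk3 f_A00pm_123_s3 t 253 60 1 = true := ex3_b t706_A00pm_123_s3 k22_A00pm_123_s3

theorem t708_A00pm_123_s3 : ∃ t, chk3 f_A00pm_123_s3 t 126 60 1 = true := ex3_a k19_A00pm_123_s3 t707_A00pm_123_s3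

theorem t709_A00pm_123_s3 : ∃ t, chk3 f_A00pm_123_s3 t 126 30 1 = true := ex3_b t708_A00pm_123_s3 k23_A00pm_123_s3

theorem t710_A00pm_123_s3 : ∃ t, chk3 f_A00pm_123_s3 t 63 30 1 = true := ex3_a t709_A00pm_123_s3 t705_A00pm_123_s3

theorem t711_A00pm_123_s3 : ∃ t, chk3 f_A00pm_123_s3 t 31 30 1 = true := ex3_a k18_A00pm_123_s3 t710_A00pm_123_s3

theorem t712_A00pm_123_s3 : ∃ t, chk3 f_A00pm_123_s3 t 31 15 1 = true := ex3_b t711_A00pm_123_s3 t662_A00pm_123_s3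

theorem t713_A00pm_123_s3 : ∃ t, chk3 f_A00pm_123_s3 t 15 15 1 = true := ex3_a k17_A00pm_123_s3 t712_A00pm_123_s3

theorem t714_A00pm_123_s3 : ∃ t, chk3 f_A00pm_123_s3 t 254 59 1 = true := ex3_a k14_A00pm_123_s3 k15_A00pm_123_s3

theorem t715_A00pm_123_s3 : ∃ t, chk3 f_A00pm_123_s3 t 254 29 1 = true := ex3_b k13_A00pm_123_s3 t714_A00pm_123_s3

theorem t716_A00pm_123_s3 : ∃ t, chk3 f_A00pm_123_s3 t 127 29 1 = true := ex3_a t715_A00pm_123_s3 k16_A00pm_123_s3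

theorem t717_A00pm_123_s3 : ∃ t, chk3 f_A00pm_123_s3 t 127 14 1 = true := ex3_b k12_A00pm_123_s3 t716_A00pm_123_s3

theorem t718_A00pm_123_s3 : ∃ t, chk3 f_A00pm_123_s3 t 253 29 1 = true := ex3_b k10_A00pm_123_s3 k11_A00pm_123_s3

theorem t719_A00pm_123_s3 : ∃ t, chk3 f_A00pm_123_s3 t 126 29 1 = true := ex3_a k9_A00pm_123_s3 t718_A00pm_123_s3

theorem t720_A00pm_123_s3 : ∃ t, chk3 f_A00pm_123_s3 t 126 14 1 = true := ex3_b k8_A00pm_123_s3 t719_A00pm_123_s3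

theorem t721_A00pm_123_s3 : ∃ t, chk3 f_A00pm_123_s3 t 63 14 1 = true := ex3_a t720_A00pm_123_s3 t717_A00pm_123_s3

theorem t722_A00pm_123_s3 : ∃ t, chk3 f_A00pm_123_s3 t 62 14 1 = true := ex3_b k6_A00pm_123_s3 k7_A00pm_123_s3

theorem t723_A00pm_123_s3 : ∃ t, chk3 f_A00pm_123_s3 t 31 14 1 = true := ex3_a t722_A00pm_123_s3 t721_A00pm_123_s3

theorem t724_A00pm_123_s3 : ∃ t, chk3 f_A00pm_123_s3 t 15 14 1 = true := ex3_a k5_A00pm_123_s3 t723_A00pm_123_s3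

theorem t725_A00pm_123_s3 : ∃ t, chk3 f_A00pm_123_s3 t 15 7 1 = true := ex3_b t724_A00pm_123_s3 t713_A00pm_123_s3

theorem t726_A00pm_123_s3 : ∃ t, chk3 f_A00pm_123_s3 t 7 7 1 = true := ex3_a k4_A00pm_123_s3 t725_A00pm_123_s3

theorem t727_A00pm_123_s3 : ∃ t, chk3 f_A00pm_123_s3 t 7 3 1 = true := ex3_b k3_A00pm_123_s3 t726_A00pm_123_s3

theorem t728_A00pm_123_s3 : ∃ t, chk3 f_A00pm_123_s3 t 3 3 1 = true := ex3_a k2_A00pm_123_s3 t727_A00pm_123_s3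

theorem t729_A00pm_123_s3 : ∃ t, chk3 f_A00pm_123_s3 t 3 1 1 = true := ex3_b k1_A00pm_123_s3 t728_A00pm_123_s3

theorem t730_A00pm_123_s3 : ∃ t, chk3 f_A00pm_123_s3 t 1 1 1 = true := ex3_a k0_A00pm_123_s3 t729_A00pm_123_s3

theorem c_A00pm_123_s3 : CertF 536870912 536870912 0 536870912 1045395039 1503240 true true false .npn 1 2 3
    ndB0q1 ndB0q2 pcB3 cut_A00pm_123_s3 xt_A00pm_123_s3 :=
  certF2 (fam := true) (s1 := true) (s2 := false) (a := 1) (b := 2) (c := 3) (cn := .npn) (n1 := ndB0q1) (n2 := ndB0q2) (pc := pcB3) (cut := cut_A00pm_123_s3) (xt := xt_A00pm_123_s3) (P1 := 536870912) (W1 := 536870912) (P2 := 0) (W2 := 536870912) (P3 := 1045395039) (W3 := 1503240)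
    rfl (fun _ => rfl) t730_A00pm_123_s3

theorem s_A00pm_123_s3 {κ x : ℝ} (hκ : κ * h0 = ken x) (hx : ((1045395039 : ℕ) : ℝ) / S ≤ x)
    (hx' : x ≤ (((1045395039 : ℕ) : ℝ) + (1503240 : ℕ)) / S)
    (H : CutA (VFD κ) PP tK tL pcB (Cut.of [[⟨0, 1, 0, 14155776⟩, ⟨1, 1, 0, 14155776⟩, ⟨2, 2, 0, 524288⟩], [⟨0, 0, 1, 46137344⟩, ⟨1, 1, 0, 1048576⟩, ⟨2, 1, 1, 46137344⟩, ⟨0, 0, 0, 1056440320⟩, ⟨0, 1, 0, 33457795⟩, ⟨2, 1, 0, 1056440320⟩, ⟨2, 2, 0, 33457795⟩], [⟨0, 1, 0, 1048576⟩, ⟨1, 0, 1, 46137344⟩, ⟨2, 1, 1, 46137344⟩, ⟨1, 0, 0, 1056440320⟩, ⟨1, 1, 0, 33457795⟩, ⟨2, 1, 0, 1056440320⟩, ⟨2, 2, 0, 33457795⟩]]) 1 2 3 0 0 (sgb true) (sgb false) x) :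
    AltA (VFD κ) PP tK tL pcB [⟨4, 0, 0, 3194381926⟩] 1 2 3 0 0 (sgb true) (sgb false) x :=
  strip_altAD (m := 3194381926) false rfl hκ (SH.κ0 hκ (SH.hx1 hx).le (SH.hx2 hx').le) (SH.hx1 hx).le (SH.hx2 hx') (covB01).cov (covB02).cov hx hx' c_A00pm_123_s3 H ((okx hx hx').extAN (T := tt) (sideB hx hx') hκ rfl rfl (.O 1 true) (.O 2 false) (Or.inr rfl))

end Pool.Agent.Strip051.G.I9736_9750.Tab.St.C
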