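import Pool.Agent.Strip051.G.I9736_9750.St0
import Pool.Agent.Strip051.G.I9736_9750.St5
import Pool.Agent.Strip051.G.I9736_9750.StH
import Pool.Agent.Strip051.PB.StripMir

/-! # Unit strips by reflection (generated) -/

set_option linter.all false

namespace Pool.Agent.Strip051.G.I9736_9750.Tab.St.C

open Pool.Agent.Strip051.PB Pool.Agent.Strip051.PB.T Pool.Agent.StripNear Pool.Agent.Strip051.LC
open Pool.Agent.Strip051.G.I9736_9750.Tab Pool.Agent.Strip051.G.I9736_9750.Tab.St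

theorem c1n_ltM {y z : ℝ} (h0 : 0 ≤ y) (h : y < z) (h1 : y < 1) : c1n z < c1n y := by
  unfold c1n
  rw [Real.sqrt_lt_sqrt_iff_of_pos (by nlinarith)]
  nlinarith

theorem s_A00pm_102_s1 {κ x : ℝ} (hκ : κ * h0 = ken x) (hx : ((1045395039 : ℕ) : ℝ) / S ≤ x)
    (hx' : x ≤ (((1045395039 : ℕ) : ℝ) + (1503240 : ℕ)) / S)
    (H : CutA (VFD κ) PP tK tL pcB (Cut.of [[⟨0, 1, 0, 13421772⟩, ⟨1, 0, 0, 13421772⟩, ⟨2, 1, 0, 13421772⟩]]) 1 0 2 0 0 (sgb true) (sgb false) x) :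
    AltA (VFD κ) PP tK tL pcB [⟨3, 0, 0, 1449551462⟩] 1 0 2 0 0 (sgb true) (sgb false) x := by
  have q : ∀ X Y : ℝ, qqn (-X) Y = qqn X Y := fun X Y => by unfold qqn; ring
  have c2 : ∀ (q : ℕ) (y : ℝ), crv PP 0 q y = c1n y := fun q y => crv0 q y
  refine AltA.mirror (s1 := true) (s2 := false) (mirVF (SH.hx1 hx).le (SH.hx2 hx')) (sideB hx hx') ?_ ?_
    (s_A00pm_012_s1 hκ hx hx' (CutA.mirror (s1 := true) (s2 := false) (mirVF (SH.hx1 hx).le (SH.hx2 hx'))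
      (sideB hx hx') ?_ ?_ H))
  · intro y y' X Y h d hd
    have h2 := h d hd
    simp only [List.mem_singleton] at hd
    subst hd
    simpa only [Cc.P, q] using h2
  · intro y y' F
    have h1 := c1n_ltM (y := y) (z := y') (by linarith [F.q1.1, F.q2.1]) (by linarith [F.q1.1, F.q1.2, F.q2.1, F.q2.2]) (by linarith [F.q1.2, F.q2.2])
    simp only [sgb, cond_true, cond_false, c2]
    linarith
  · rintro y y' X Y ⟨l, hl, h⟩
    simp only [List.mem_cons, List.not_mem_nil, or_false] at hl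
    rcases hl with rfl
    · refine ⟨[⟨0, 1, 0, 13421772⟩, ⟨1, 0, 0, 13421772⟩, ⟨2, 1, 0, 13421772⟩], by simp, ?_⟩
      simp only [List.mem_cons, List.not_mem_nil, or_false, forall_eq_or_imp, forall_eq] at h ⊢
      simp only [Cc.P, Cc.cen, q, add_comm y' y] at h ⊢
      obtain ⟨a0, a1, a2⟩ := h
      exact ⟨a1, a0, a2⟩
  · intro y y' F
    have h1 := c1n_ltM (y := y') (z := y) (by linarith [F.q1.1, F.q2.1]) (by linarith [F.q1.1, F.q1.2, F.q2.1, F.q2.2]) (by linarith [F.q1.2, F.q2.2])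
    simp only [sgb, cond_true, cond_false, c2]
    linarith

theorem s_A00pm_213_s3 {κ x : ℝ} (hκ : κ * h0 = ken x) (hx : ((1045395039 : ℕ) : ℝ) / S ≤ x)
    (hx' : x ≤ (((1045395039 : ℕ) : ℝ) + (1503240 : ℕ)) / S)
    (H : CutA (VFD κ) PP tK tL pcB (Cut.of [[⟨0, 1, 0, 14155776⟩, ⟨1, 1, 0, 14155776⟩, ⟨2, 2, 0, 524288⟩], [⟨0, 0, 1, 46137344⟩, ⟨1, 1, 0, 1048576⟩, ⟨2, 1, 1, 46137344⟩, ⟨0, 0, 0, 1056440320⟩, ⟨0, 1, 0, 33457795⟩, ⟨2, 1, 0, 1056440320⟩, ⟨2, 2, 0, 33457795⟩], [⟨0, 1, 0, 1048576⟩, ⟨1, 0, 1, 46137344⟩, ⟨2, 1, 1, 46137344⟩, ⟨1, 0, 0, 1056440320⟩, ⟨1, 1, 0, 33457795⟩, ⟨2, 1, 0, 1056440320⟩, ⟨2, 2, 0, 33457795⟩]]) 2 1 3 0 0 (sgb true) (sgb false) x) :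
    AltA (VFD κ) PP tK tL pcB [⟨4, 0, 0, 3194381926⟩] 2 1 3 0 0 (sgb true) (sgb false) x := by
  have q : ∀ X Y : ℝ, qqn (-X) Y = qqn X Y := fun X Y => by unfold qqn; ring
  have c2 : ∀ (q : ℕ) (y : ℝ), crv PP 0 q y = c1n y := fun q y => crv0 q y
  refine AltA.mirror (s1 := true) (s2 := false) (mirVF (SH.hx1 hx).le (SH.hx2 hx')) (sideB hx hx') ?_ ?_
    (s_A00pm_123_s3 hκ hx hx' (CutA.mirror (s1 := true) (s2 := false) (mirVF (SH.hx1 hx).le (SH.hx2 hx'))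
      (sideB hx hx') ?_ ?_ H))
  · intro y y' X Y h d hd
    have h2 := h d hd
    simp only [List.mem_singleton] at hd
    subst hd
    simpa only [Cc.P, q] using h2
  · intro y y' F
    have h1 := c1n_ltM (y := y) (z := y') (by linarith [F.q1.1, F.q2.1]) (by linarith [F.q1.1, F.q1.2, F.q2.1, F.q2.2]) (by linarith [F.q1.2, F.q2.2])
    simp only [sgb, cond_true, cond_false, c2]
    linarith
  · rintro y y' X Y ⟨l, hl, h⟩
    simp only [List.mem_cons, List.not_mem_nil, or_false] at hl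
    rcases hl with rfl | rfl | rfl
    · refine ⟨[⟨0, 1, 0, 14155776⟩, ⟨1, 1, 0, 14155776⟩, ⟨2, 2, 0, 524288⟩], by simp, ?_⟩
      simp only [List.mem_cons, List.not_mem_nil, or_false, forall_eq_or_imp, forall_eq] at h ⊢
      simp only [Cc.P, Cc.cen, q, add_comm y' y] at h ⊢
      obtain ⟨a0, a1, a2⟩ := h
      exact ⟨a1, a0, a2⟩
    · refine ⟨[⟨0, 1, 0, 1048576⟩, ⟨1, 0, 1, 46137344⟩, ⟨2, 1, 1, 46137344⟩, ⟨1, 0, 0, 1056440320⟩, ⟨1, 1, 0, 33457795⟩, ⟨2, 1, 0, 1056440320⟩, ⟨2, 2, 0, 33457795⟩], by simp, ?_⟩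
      simp only [List.mem_cons, List.not_mem_nil, or_false, forall_eq_or_imp, forall_eq] at h ⊢
      simp only [Cc.P, Cc.cen, q, add_comm y' y] at h ⊢
      obtain ⟨a0, a1, a2, a3, a4, a5, a6⟩ := h
      exact ⟨a1, a0, a2, a3, a4, a5, a6⟩
    · refine ⟨[⟨0, 0, 1, 46137344⟩, ⟨1, 1, 0, 1048576⟩, ⟨2, 1, 1, 46137344⟩, ⟨0, 0, 0, 1056440320⟩, ⟨0, 1, 0, 33457795⟩, ⟨2, 1, 0, 1056440320⟩, ⟨2, 2, 0, 33457795⟩], by simp, ?_⟩
      simp only [List.mem_cons, List.not_mem_nil, or_false, forall_eq_or_imp, forall_eq] at h ⊢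
      simp only [Cc.P, Cc.cen, q, add_comm y' y] at h ⊢
      obtain ⟨a0, a1, a2, a3, a4, a5, a6⟩ := h
      exact ⟨a1, a0, a2, a3, a4, a5, a6⟩
  · intro y y' F
    have h1 := c1n_ltM (y := y') (z := y) (by linarith [F.q1.1, F.q2.1]) (by linarith [F.q1.1, F.q1.2, F.q2.1, F.q2.2]) (by linarith [F.q1.2, F.q2.2])
    simp only [sgb, cond_true, cond_false, c2]
    linarith

end Pool.Agent.Strip051.G.I9736_9750.Tab.St.C
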