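import Pool.Agent.Strip051.G.I9736_9750.Fact
import Pool.Agent.Strip051.G.I9736_9750.StH
import Pool.Agent.Strip051.PB.GlueD3
import Pool.Agent.Strip051.PB.MolR

/-! # Facts for the strips (generated) -/

set_option linter.all false
set_option maxRecDepth 100000

namespace Pool.Agent.Strip051.G.I9736_9750.Tab.SE

open Pool.Agent.Strip051.PB Pool.Agent.StripNear Pool.Agent.StripSquare Pool.Agent.Strip051.LC
open Pool.Agent.Strip051.G.I9736_9750.Tab Pool.Agent.Strip051.G.I9736_9750.Tab.SH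

/-- constants of the leaves of type D -/
abbrev dp : DPn := ⟨4, 1, 1, 5, 33, 5, 163, 200, 81, 200, 1, 64⟩

theorem dth : dp.r.th = 1 / 5 := by simp [DPn.r]

theorem dok : DParOk dp.r := DPn.ok (by decide) (by decide) (by decide) (by decide) (by decide)

theorem hxa {x : ℝ} (hx : ((1045395039 : ℕ) : ℝ) / S ≤ x) : (1045395039 / 1073741824 : ℝ) ≤ x := by
  rw [S_num] at hx
  refine le_trans (le_of_eq ?_) hx
  norm_num

theorem hxb {x : ℝ} (hx' : x ≤ (((1045395039 : ℕ) : ℝ) + (1503240 : ℕ)) / S) : x ≤ (1046898279 / 1073741824 : ℝ) := by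
  rw [S_num] at hx'
  refine hx'.trans (le_of_eq ?_)
  norm_num

theorem dc {x : ℝ} (hx : ((1045395039 : ℕ) : ℝ) / S ≤ x) (hx' : x ≤ (((1045395039 : ℕ) : ℝ) + (1503240 : ℕ)) / S) : DC2 dp.r.th dp.r.K (1581 / 10000) dp.r.A x := by
  have h : DC2 (1 / 5) (33 / 5) (1581 / 10000) (1 / 64) x := by
    refine DC2.intv (xa := 1045395039 / 1073741824) (xb := 1046898279 / 1073741824) ?_ ?_ ?_ ?_ ?_ ?_ ?_ ?_ ?_ ?_ ?_ ?_ (hxa hx) (hxb hx') <;> norm_num
  have e1 : dp.r.th = 1 / 5 := by simp [DPn.r]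
  have e2 : dp.r.K = 33 / 5 := by simp [DPn.r]
  have e3 : dp.r.A = 1 / 64 := by simp [DPn.r]
  rw [e1, e2, e3]
  exact h

theorem dn {x : ℝ} (hx : ((1045395039 : ℕ) : ℝ) / S ≤ x) (hx' : x ≤ (((1045395039 : ℕ) : ℝ) + (1503240 : ℕ)) / S) : DN dp.r.th (8053 / 10000 / x) (2027 / 2000) dp.r.K1 dp.r.K2 dp.r.A x := by
  have h : DN (1 / 5) (8053 / 10000 / x) (2027 / 2000) (163 / 200) (81 / 200) (1 / 64) x := by
    refine DN.intv (xa := 1045395039 / 1073741824) (xb := 1046898279 / 1073741824) ?_ ?_ ?_ ?_ ?_ ?_ ?_ ?_ ?_ ?_ ?_ ?_ ?_ (hxa hx) (hxb hx')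
    all_goals first | norm_num | (left; norm_num; done) | (right; norm_num; done)
  have e1 : dp.r.th = 1 / 5 := by simp [DPn.r]
  have e2 : dp.r.K1 = 163 / 200 := by simp [DPn.r]
  have e3 : dp.r.K2 = 81 / 200 := by simp [DPn.r]
  have e4 : dp.r.A = 1 / 64 := by simp [DPn.r]
  rw [e1, e2, e3, e4]
  exact h

end Pool.Agent.Strip051.G.I9736_9750.Tab.SE
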