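import Pool.Agent.Strip051.G.I9736_9750.Tab
import Pool.Agent.Strip051.PB.StripB

/-! # Strips, near vertex: certificates 0 (generated) -/

set_option linter.all false
set_option maxRecDepth 100000

namespace Pool.Agent.Strip051.G.I9736_9750.Tab.CS.BA00

open Pool.Agent.Strip051.PB Pool.Agent.Strip051.PB.T
open Pool.Agent.Strip051.G.I9736_9750.Tab

noncomputable def cut_pp_001_s : Cut := Cut.of [[⟨4, 0, 0, 1449551462⟩]]

noncomputable def f_pp_001_s : ℕ → ℕ → ℕ → ℕ → Bool := onCell 0 536870912 0 536870912 1045395039 1503240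
    (rowNE 3 eng mog cd0q0 cd0q0 pd1 0 true true true .up 0 0 1 (qsf 0 536870912 0 536870912 1) ndB0q0 ndB0q0 pcB1 cut_pp_001_s Ext.none)

def k0_pp_001_s : ∃ t, chk3 f_pp_001_s t 1 1 1 = true :=
  ⟨(l 4), by decide +kernel⟩

theorem c_pp_001_s : CertNE 0 536870912 0 536870912 1045395039 1503240 3 eng mog cd0q0 cd0q0 pd1 true true true .up 0 0 1
    ndB0q0 ndB0q0 pcB1 cut_pp_001_s Ext.none :=
  certNE0 (fam := true) (s1 := true) (s2 := true) (a := 0) (b := 0) (c := 1) (cn := .up) (n1 := ndB0q0) (n2 := ndB0q0) (pc := pcB1) (cut := cut_pp_001_s) (xt := Ext.none) (P1 := 0) (W1 := 536870912) (P2 := 0) (W2 := 536870912) (P3 := 1045395039) (W3 := 1503240) (N0 := 3) (En := eng) (mo := mog) (C1 := cd0q0) (C2 := cd0q0) (C3 := pd1)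
    rfl k0_pp_001_s

noncomputable def cut_pp_001_t : Cut := Cut.of [[⟨3, 0, 0, 2845415833⟩]]

noncomputable def f_pp_001_t : ℕ → ℕ → ℕ → ℕ → Bool := onCell 0 536870912 0 536870912 1045395039 1503240
    (rowNE 3 eng mog cd0q0 cd0q0 pd1 0 true true true .up 0 0 1 (qsf 0 536870912 0 536870912 1) ndB0q0 ndB0q0 pcB1 cut_pp_001_t Ext.none)

def k0_pp_001_t : ∃ t, chk3 f_pp_001_t t 1 1 1 = true :=
  ⟨(l 4), by decide +kernel⟩

theorem c_pp_001_t : CertNE 0 536870912 0 536870912 1045395039 1503240 3 eng mog cd0q0 cd0q0 pd1 true true true .up 0 0 1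
    ndB0q0 ndB0q0 pcB1 cut_pp_001_t Ext.none :=
  certNE0 (fam := true) (s1 := true) (s2 := true) (a := 0) (b := 0) (c := 1) (cn := .up) (n1 := ndB0q0) (n2 := ndB0q0) (pc := pcB1) (cut := cut_pp_001_t) (xt := Ext.none) (P1 := 0) (W1 := 536870912) (P2 := 0) (W2 := 536870912) (P3 := 1045395039) (W3 := 1503240) (N0 := 3) (En := eng) (mo := mog) (C1 := cd0q0) (C2 := cd0q0) (C3 := pd1)
    rfl k0_pp_001_t

noncomputable def cut_pp_011_s : Cut := Cut.of [[⟨4, 0, 0, 1449551462⟩], [⟨0, 0, 0, 26843545⟩, ⟨1, 1, 0, 26843545⟩, ⟨2, 1, 0, 26843545⟩]]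

noncomputable def f_pp_011_s : ℕ → ℕ → ℕ → ℕ → Bool := onCell 0 536870912 536870912 536870912 1045395039 1503240
    (rowNE 3 eng mog cd0q0 cd0q1 pd1 0 true true true .pnn 0 1 1 (qsf 0 536870912 536870912 536870912 1) ndB0q0 ndB0q1 pcB1 cut_pp_011_s Ext.none)

def k0_pp_011_s : ∃ t, chk3 f_pp_011_s t 1 1 1 = true :=
  ⟨(l 6), by decide +kernel⟩

theorem c_pp_011_s : CertNE 0 536870912 536870912 536870912 1045395039 1503240 3 eng mog cd0q0 cd0q1 pd1 true true true .pnn 0 1 1
    ndB0q0 ndB0q1 pcB1 cut_pp_011_s Ext.none :=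
  certNE0 (fam := true) (s1 := true) (s2 := true) (a := 0) (b := 1) (c := 1) (cn := .pnn) (n1 := ndB0q0) (n2 := ndB0q1) (pc := pcB1) (cut := cut_pp_011_s) (xt := Ext.none) (P1 := 0) (W1 := 536870912) (P2 := 536870912) (W2 := 536870912) (P3 := 1045395039) (W3 := 1503240) (N0 := 3) (En := eng) (mo := mog) (C1 := cd0q0) (C2 := cd0q1) (C3 := pd1)
    rfl k0_pp_011_s

noncomputable def cut_pp_011_t : Cut := Cut.of [[⟨3, 0, 0, 2845415833⟩], [⟨0, 0, 0, 26843545⟩, ⟨1, 1, 0, 26843545⟩, ⟨2, 1, 0, 26843545⟩]]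

noncomputable def f_pp_011_t : ℕ → ℕ → ℕ → ℕ → Bool := onCell 0 536870912 536870912 536870912 1045395039 1503240
    (rowNE 3 eng mog cd0q0 cd0q1 pd1 0 true true true .pnn 0 1 1 (qsf 0 536870912 536870912 536870912 1) ndB0q0 ndB0q1 pcB1 cut_pp_011_t Ext.none)

def k0_pp_011_t : ∃ t, chk3 f_pp_011_t t 1 1 1 = true :=
  ⟨(a (b (l 4) (b (l 4) (a (b (l 4) (a (b (l 4) (a (b (l 4) (a (l 14) (l 4))) (l 4))) (l 4))) (l 4)))) (l 4)), by decide +kernel⟩

theorem c_pp_011_t : CertNE 0 536870912 536870912 536870912 1045395039 1503240 3 eng mog cd0q0 cd0q1 pd1 true true true .pnn 0 1 1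
    ndB0q0 ndB0q1 pcB1 cut_pp_011_t Ext.none :=
  certNE0 (fam := true) (s1 := true) (s2 := true) (a := 0) (b := 1) (c := 1) (cn := .pnn) (n1 := ndB0q0) (n2 := ndB0q1) (pc := pcB1) (cut := cut_pp_011_t) (xt := Ext.none) (P1 := 0) (W1 := 536870912) (P2 := 536870912) (W2 := 536870912) (P3 := 1045395039) (W3 := 1503240) (N0 := 3) (En := eng) (mo := mog) (C1 := cd0q0) (C2 := cd0q1) (C3 := pd1)
    rfl k0_pp_011_t

noncomputable def cut_pp_012_s : Cut := Cut.of [[⟨4, 0, 0, 1449551462⟩], [⟨0, 0, 0, 26843545⟩, ⟨1, 1, 0, 26843545⟩, ⟨2, 1, 0, 26843545⟩]]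

noncomputable def f_pp_012_s : ℕ → ℕ → ℕ → ℕ → Bool := onCell 0 536870912 536870912 536870912 1045395039 1503240
    (rowNE 3 eng mog cd0q0 cd0q1 pd2 0 true true true .pnp 0 1 2 (qsf 0 536870912 536870912 536870912 2) ndB0q0 ndB0q1 pcB2 cut_pp_012_s Ext.none)

def k0_pp_012_s : ∃ t, chk3 f_pp_012_s t 1 1 1 = true :=
  ⟨(l 6), by decide +kernel⟩

theorem c_pp_012_s : CertNE 0 536870912 536870912 536870912 1045395039 1503240 3 eng mog cd0q0 cd0q1 pd2 true true true .pnp 0 1 2
    ndB0q0 ndB0q1 pcB2 cut_pp_012_s Ext.none :=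
  certNE0 (fam := true) (s1 := true) (s2 := true) (a := 0) (b := 1) (c := 2) (cn := .pnp) (n1 := ndB0q0) (n2 := ndB0q1) (pc := pcB2) (cut := cut_pp_012_s) (xt := Ext.none) (P1 := 0) (W1 := 536870912) (P2 := 536870912) (W2 := 536870912) (P3 := 1045395039) (W3 := 1503240) (N0 := 3) (En := eng) (mo := mog) (C1 := cd0q0) (C2 := cd0q1) (C3 := pd2)
    rfl k0_pp_012_s

noncomputable def cut_pp_012_t : Cut := Cut.of [[⟨3, 0, 0, 2845415833⟩], [⟨0, 0, 0, 26843545⟩, ⟨1, 1, 0, 26843545⟩, ⟨2, 1, 0, 26843545⟩]]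

noncomputable def f_pp_012_t : ℕ → ℕ → ℕ → ℕ → Bool := onCell 0 536870912 536870912 536870912 1045395039 1503240
    (rowNE 3 eng mog cd0q0 cd0q1 pd2 0 true true true .pnp 0 1 2 (qsf 0 536870912 536870912 536870912 2) ndB0q0 ndB0q1 pcB2 cut_pp_012_t Ext.none)

def k0_pp_012_t : ∃ t, chk3 f_pp_012_t t 1 1 1 = true :=
  ⟨(a (b (l 4) (b (l 4) (a (b (l 4) (a (b (l 4) (a (b (l 4) (a (l 14) (l 4))) (l 4))) (l 4))) (l 4)))) (l 4)), by decide +kernel⟩

theorem c_pp_012_t : CertNE 0 536870912 536870912 536870912 1045395039 1503240 3 eng mog cd0q0 cd0q1 pd2 true true true .pnp 0 1 2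
    ndB0q0 ndB0q1 pcB2 cut_pp_012_t Ext.none :=
  certNE0 (fam := true) (s1 := true) (s2 := true) (a := 0) (b := 1) (c := 2) (cn := .pnp) (n1 := ndB0q0) (n2 := ndB0q1) (pc := pcB2) (cut := cut_pp_012_t) (xt := Ext.none) (P1 := 0) (W1 := 536870912) (P2 := 536870912) (W2 := 536870912) (P3 := 1045395039) (W3 := 1503240) (N0 := 3) (En := eng) (mo := mog) (C1 := cd0q0) (C2 := cd0q1) (C3 := pd2)
    rfl k0_pp_012_t

noncomputable def cut_pp_022_s : Cut := Cut.of [[⟨4, 0, 0, 1449551462⟩], [⟨0, 0, 0, 16777216⟩, ⟨1, 1, 0, 16777216⟩, ⟨2, 1, 0, 16777216⟩]]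

noncomputable def f_pp_022_s : ℕ → ℕ → ℕ → ℕ → Bool := onCell 0 536870912 0 536870912 1045395039 1503240
    (rowNE 3 eng mog cd0q0 cd0q2 pd2 0 true true true .pp 0 2 2 (qsf 0 536870912 0 536870912 2) ndB0q0 ndB0q2 pcB2 cut_pp_022_s Ext.none)

def k0_pp_022_s : ∃ t, chk3 f_pp_022_s t 1 1 1 = true :=
  ⟨(l 6), by decide +kernel⟩

theorem c_pp_022_s : CertNE 0 536870912 0 536870912 1045395039 1503240 3 eng mog cd0q0 cd0q2 pd2 true true true .pp 0 2 2
    ndB0q0 ndB0q2 pcB2 cut_pp_022_s Ext.none :=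
  certNE0 (fam := true) (s1 := true) (s2 := true) (a := 0) (b := 2) (c := 2) (cn := .pp) (n1 := ndB0q0) (n2 := ndB0q2) (pc := pcB2) (cut := cut_pp_022_s) (xt := Ext.none) (P1 := 0) (W1 := 536870912) (P2 := 0) (W2 := 536870912) (P3 := 1045395039) (W3 := 1503240) (N0 := 3) (En := eng) (mo := mog) (C1 := cd0q0) (C2 := cd0q2) (C3 := pd2)
    rfl k0_pp_022_s

noncomputable def cut_pp_022_t : Cut := Cut.of [[⟨3, 0, 0, 2845415833⟩], [⟨0, 0, 0, 16777216⟩, ⟨1, 1, 0, 16777216⟩, ⟨2, 1, 0, 16777216⟩]]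

noncomputable def f_pp_022_t : ℕ → ℕ → ℕ → ℕ → Bool := onCell 0 536870912 0 536870912 1045395039 1503240
    (rowNE 3 eng mog cd0q0 cd0q2 pd2 0 true true true .pp 0 2 2 (qsf 0 536870912 0 536870912 2) ndB0q0 ndB0q2 pcB2 cut_pp_022_t Ext.none)

def k0_pp_022_t : ∃ t, chk3 f_pp_022_t t 2 2 1 = true :=
  ⟨(a (a (l 6) (b (l 6) (b (l 6) (b (l 6) (a (a (l 6) (b (l 6) (l 16199480))) (a (b (l 16066936) (l 16127056)) (b (l 16024688) (a (l 16119224) (l 16104472))))))))) (b (a (l 6) (b (l 6) (a (l 6) (b (l 6) (a (l 6) (l 15199776)))))) (a (b (a (l 6) (b (l 6) (a (b (l 6) (l 15666280)) (b (l 15552384) (l 15669544))))) (a (b (a (b (l 6) (l 15902600)) (b (l 15783072) (l 15885736))) (a (b (l 15997488) (l 16089528)) (b (l 15985720) (l 16082736)))) (b (a (b (l 15776360) (l 15883896)) (b (l 15784288) (l 15896360))) (a (b (l 15988640) (l 16090312)) (b (l 16005536) (l 16111544)))))) (b (a (b (a (l 15378728) (l 15399240)) (a (b (l 15565464) (l 15687064)) (l 15655480))) (b (a (l 15433432) (l 15480560))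 (a (l 15697392) (l 15751488)))) (a (b (a (b (l 15806120) (l 15922392)) (b (l 15841120) (l 15961256))) (a (b (l 16035664) (l 16145688)) (b (l 16078288) (l 16192016)))) (b (a (b (l 15888536) (l 16012192)) (l 15864424)) (a (b (l 16132672) (l 16249776)) (b (l 16198056) (l 16318224))))))))), by decide +kernel⟩

def k1_pp_022_t : ∃ t, chk3 f_pp_022_t t 4 6 1 = true :=
  ⟨(a (a (b (b (l 6) (b (l 6) (a (l 16256680) (l 16309464)))) (a (b (b (l 16254192) (a (l 16220680) (l 16293832))) (b (a (l 16231696) (l 16301480)) (a (l 16249632) (l 16315984)))) (b (a (l 16346112) (l 16418224)) (a (b (l 16371648) (l 16382864)) (b (l 16439160) (l 16447312)))))) (b (b (a (l 6) (b (l 6) (l 16449416))) (a (a (l 16487000) (l 16570008)) (b (l 16482112) (l 16511064)))) (b (a (b (l 16494872) (l 16506784)) (a (l 16567848) (l 16563712))) (a (b (l 16482888) (a (l 16503256) (l 16552536))) (b (a (l 16596992) (l 16638528)) (a (l 16596632) (l 16635576))))))) (b (a (b (a (b (l 16333608) (l 16396680)) (b (l 16271784)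 (l 16319936))) (a (b (l 16435264) (l 16491120)) (b (l 16385528) (l 16426224)))) (b (a (b (l 16163272) (a (l 16309640) (l 16293392))) (b (a (l 16201568) (l 16189488)) (a (l 16280552) (l 16271104)))) (a (b (a (l 16379504) (l 16366008)) (a (l 16445392) (l 16434616))) (b (a (l 16355840) (l 16348984)) (a (l 16427080) (l 16422776)))))) (a (b (a (b (l 16521880) (l 16548088)) (b (a (l 16533520) (l 16518432)) (a (l 16584824) (l 16572472)))) (a (b (a (l 16663176) (l 16624000)) (a (l 16648648) (l 16662584))) (b (a (l 16631176) (l 16621352)) (a (l 16651184) (l 16622944))))) (b (a (b (a (l 16506920) (l 16498832)) (a (l 16563704) (l 16558280))) (b (a (l 16493904) (l 16492136)) (a (l 16555944) (l 16556688)))) (b (a (a (l 16615320) (l 16612544)) (a (l 16612792) (l 16616048))) (a (a (b (l 16650336) (l 16671904)) (b (l 16649592) (l 16672456))) (a (b (l 16651776) (l 16675928)) (b (l 16656912) (l 16682320))))))))), by decide +kernel⟩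

def k2_pp_022_t : ∃ t, chk3 f_pp_022_t t 16 14 1 = true :=
  ⟨(a (b (b (a (b (l 16268104) (l 16282944)) (b (l 16331768) (l 16344816))) (a (b (l 16299936) (a (l 16304664) (l 16333648))) (b (l 16360000) (a (l 16362776) (l 16392040))))) (b (a (b (a (l 16326704) (l 16354760)) (a (b (l 16345024) (l 16358208)) (b (l 16372376) (l 16385088)))) (b (a (l 16382960) (l 16411320)) (a (b (l 16399880) (l 16412128)) (l 16433344)))) (a (b (a (b (l 16372080) (b (l 16383136) (l 16390776))) (b (l 16398568) (l 16412816))) (a (b (b (l 16398720) (l 16406784)) (a (l 16413744) (l 16425440))) (b (a (l 16421416) (l 16434192)) (a (l 16437528) (l 16449808))))) (b (a (b (l 16425136) (l 16438904)) (b (l 16451872) (l 16465168))) (a (b (l 16453424) (a (l 16462272) (l 16474984))) (b (l 16479208) (a (l 16487640) (l 16500344)))))))) (b (b (a (b (l 16396144) (l 16407456)) (b (l 16458200) (l 16467856))) (a (b (l 16420848) (a (l 16421448) (l 16451048))) (b (l 16479600) (a (l 16480160) (l 16506928))))) (b (a (b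 (a (l 16439824) (l 16468536)) (a (l 16460944) (l 16488752))) (b (a (l 16496776) (l 16522664)) (a (l 16516096) (l 16541112)))) (a (b (a (b (l 16478776) (l 16491608)) (b (l 16505896) (l 16518272))) (a (b (l 16505184) (a (l 16513096) (l 16525888))) (b (l 16531376) (a (l 16538736) (l 16551624))))) (b (a (b (l 16532568) (l 16544480)) (b (l 16556904) (l 16568368))) (a (b (l 16557128) (l 16570512)) (b (l 16580560) (l 16593480)))))))), by decide +kernel⟩

def k3_pp_022_t : ∃ t, chk3 f_pp_022_t t 17 14 1 = true :=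
  ⟨(b (a (b (a (l 16515728) (l 16562120)) (a (b (l 16530224) (l 16542496)) (b (l 16574416) (l 16585208)))) (b (a (l 16582496) (l 16608344)) (a (b (l 16613656) (l 16623024)) (b (l 16647976) (l 16655992))))) (a (b (b (a (a (l 16545960) (l 16567736)) (l 16566728)) (a (a (l 16563520) (l 16584464)) (a (l 16604248) (l 16622880)))) (a (b (a (b (l 16578656) (l 16589664)) (b (l 16598928) (l 16609504))) (a (b (l 16601416) (l 16613880)) (b (l 16620800) (l 16632824)))) (b (a (b (l 16618088) (l 16628224)) (b (l 16636120) (l 16645840))) (a (b (l 16639080) (l 16650656)) (b (l 16656272) (l 16667400)))))) (b (b (a (a (l 16625896) (l 16642880)) (a (l 16658680) (l 16673296))) (a (a (l 16640328) (l 16656592)) (a (l 16671688) (l 16685616)))) (a (b (a (b (l 16653000) (l 16662336)) (b (l 16668712) (l 16677672))) (a (b (l 16672352) (l 16683072)) (b (l 16687320) (l 16697648)))) (b (a (b (l 16683264) (l 16691856)) (b (l 16696672) (l 16704904))) (a (b (l 16701136) (l 16700600)) (b (l 16713816) (a (l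 16720424) (l 16726312))))))))), by decide +kernel⟩

def k4_pp_022_t : ∃ t, chk3 f_pp_022_t t 32 60 1 = true :=
  ⟨(a (b (a (b (a (l 16431960) (l 16443152)) (a (l 16453800) (l 16461912))) (b (a (l 16454608) (l 16466472)) (a (l 16472864) (l 16484072)))) (a (b (a (a (l 16468752) (l 16473912)) (a (l 16479112) (l 16484272))) (a (a (l 16489624) (l 16494744)) (a (l 16499800) (l 16504856)))) (b (a (a (l 16489520) (l 16494816)) (a (l 16500168) (l 16505584))) (a (a (l 16509936) (l 16514992)) (b (l 16517648) (l 16527808)))))) (b (a (b (a (l 16478504) (l 16490776)) (a (l 16495592) (l 16510112))) (b (a (l 16503280) (l 16515744)) (a (b (l 16515480) (l 16523808)) (l 16531864)))) (a (b (a (a (l 16511064) (l 16516616)) (b (l 16520584) (l 16529688))) (a (b (l 16528232) (l 16538152)) (b (l 16539080) (l 16548744)))) (b (a (b (l 16532384) (l 16541208)) (b (l 16544416) (l 16552992))) (a (b (l 16550248) (l 16559624)) (b (l 16561800) (l 16570840))))))), by decide +kernel⟩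

def k5_pp_022_t : ∃ t, chk3 f_pp_022_t t 32 61 1 = true :=
  ⟨(a (b (a (b (a (a (l 16510968) (l 16516072)) (b (l 16518280) (l 16529048))) (a (b (l 16529792) (l 16540744)) (b (l 16539904) (l 16550848)))) (b (a (b (l 16528248) (l 16538984)) (b (l 16538208) (l 16548848))) (a (b (l 16549856) (l 16560792)) (b (l 16559640) (l 16570536))))) (a (a (b (b (l 16551776) (l 16562896)) (a (l 16577184) (l 16582280))) (b (b (l 16561880) (l 16573000)) (b (l 16584208) (l 16595496)))) (b (a (b (l 16571824) (l 16582936)) (b (l 16581600) (l 16592720))) (a (b (l 16594144) (l 16605432)) (b (l 16603920) (l 16615208)))))) (b (a (b (a (b (l 16548336) (l 16558744)) (b (l 16558672) (l 16568848))) (a (b (l 16569376) (l 16580216)) (b (l 16579256) (l 16589888)))) (b (a (b (l 16569272) (l 16579192)) (b (l 16580192) (l 16589816))) (a (b (l 16589352) (l 16599752)) (b (l 16599704) (l 16609840))))) (a (b (a (b (l 16591200) (l 16602328)) (b (l 16600760) (l 16611784))) (a (b (l 16613536) (l 16624824)) (b (l 16622952)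 (l 16634272)))) (b (a (b (l 16610376) (l 16621224)) (b (l 16620224) (l 16630848))) (a (b (l 16632312) (l 16643552)) (b (l 16641696) (l 16652776))))))), by decide +kernel⟩

def k6_pp_022_t : ∃ t, chk3 f_pp_022_t t 33 60 1 = true :=
  ⟨(a (b (a (b (a (l 16528256) (l 16540816)) (a (l 16544136) (l 16556456))) (b (a (l 16553424) (l 16566080)) (a (l 16568824) (l 16581248)))) (a (b (a (l 16560728) (l 16572808)) (a (b (l 16573568) (l 16582440)) (b (l 16585528) (l 16594232)))) (b (a (l 16584936) (l 16597128)) (a (l 16601752) (b (l 16609488) (l 16617952)))))) (b (a (b (a (l 16578552) (l 16590512)) (a (l 16593488) (l 16605216))) (b (a (l 16601840) (l 16612400)) (a (l 16616312) (l 16626640)))) (a (b (a (l 16609128) (l 16620624)) (a (l 16625472) (l 16636728))) (b (a (l 16631488) (l 16641576)) (a (l 16647352) (l 16657208)))))), by decide +kernel⟩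

def k7_pp_022_t : ∃ t, chk3 f_pp_022_t t 33 61 1 = true :=
  ⟨(a (b (a (b (a (b (l 16591496) (l 16600784)) (b (l 16603064) (l 16612144))) (a (b (l 16610368) (l 16620216)) (b (l 16621432) (l 16630928)))) (b (a (b (l 16614816) (l 16623736)) (b (l 16626584) (l 16635384))) (a (b (l 16632776) (l 16642032)) (b (l 16644328) (l 16653424))))) (a (b (a (b (l 16630328) (l 16640688)) (b (l 16640736) (l 16650808))) (a (b (l 16651304) (l 16664776)) (b (l 16661152) (a (l 16669328) (l 16674192))))) (b (a (b (l 16651560) (l 16661264)) (b (l 16662656) (l 16672120))) (a (b (l 16671304) (a (l 16679120) (l 16684128))) (b (a (l 16679144) (l 16684480)) (a (l 16689224) (l 16694392))))))) (b (a (b (a (b (l 16638176) (l 16646848)) (b (l 16649248) (l 16657808))) (a (b (l 16655680) (l 16664656)) (b (l 16666512) (l 16675376)))) (b (a (b (l 16659696) (l 16668136)) (b (l 16669384) (l 16677704))) (a (b (l 16676728) (l 16685464)) (b (l 16686176) (l 16694792))))) (a (b (a (b (l 16673776) (a (l 16680336) (l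 16685728))) (b (l 16684376) (l 16693536))) (a (b (a (l 16689832) (l 16695120)) (a (l 16699568) (l 16704728))) (b (l 16702848) (a (l 16709808) (l 16714784))))) (b (a (b (l 16694352) (l 16703392)) (b (l 16703560) (l 16712480))) (a (b (l 16712584) (a (l 16719592) (l 16724224))) (b (a (l 16719408) (l 16723696)) (a (l 16728664) (l 16732896)))))))), by decide +kernel⟩

def k8_pp_022_t : ∃ t, chk3 f_pp_022_t t 64 62 1 = true :=
  ⟨(b (a (a (b (a (l 16599920) (l 16605016)) (a (l 16625600) (l 16628080))) (b (b (l 16606864) (l 16618320)) (b (l 16629856) (l 16641472)))) (b (a (b (l 16616808) (l 16628272)) (b (l 16626592) (l 16638056))) (a (b (l 16639808) (l 16651432)) (b (l 16649600) (l 16661232))))) (a (b (a (b (a (l 16640368) (l 16645480)) (a (l 14) (l 16656808))) (b (l 16655688) (a (l 16661888) (l 16666920)))) (a (l 14) (b (a (l 14) (l 16677976)) (l 14)))) (b (a (b (l 16665664) (a (l 16671912) (l 16676872))) (b (a (l 16670416) (l 16675280)) (a (l 16681784) (l 16686656)))) (a (b (a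 (l 16682976) (l 16687936)) (a (l 16693920) (l 16698888))) (b (a (l 16692856) (l 16697736)) (a (l 16706440) (l 16711336))))))), by decide +kernel⟩

def k9_pp_022_t : ∃ t, chk3 f_pp_022_t t 65 62 1 = true :=
  ⟨(b (a (b (a (b (l 16636208) (l 16647672)) (b (l 16645656) (l 16657128))) (a (b (l 16659232) (l 16670872)) (b (l 16668696) (l 16682312)))) (b (a (b (l 16657520) (l 16666424)) (b (a (l 16661792) (l 16666360)) (a (l 16673280) (l 16677792)))) (a (b (l 16680608) (a (l 16687336) (l 16691944))) (b (a (l 16684848) (l 16689376)) (a (l 16696512) (l 16701040)))))) (b (a (a (b (a (l 16680104) (l 16684888)) (a (l 16691488) (l 16696272))) (b (b (l 16689112) (l 16694888)) (a (l 16701024) (l 16705728)))) (b (a (b (l 16698424) (l 16704200)) (b (l 16707568) (l 16713352))) (a (b (l 16709888) (l 16715512)) (b (l 16719048) (a (l 16722400) (l 16726936)))))) (a (a (b (a (l 16702576) (l 16707376)) (b (a (l 16710808) (l 16715616)) (a (l 16716320) (l 16721128)))) (a (b (l 16712136) (b (l 16720376)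 (l 16725904))) (b (l 16718816) (b (l 16725096) (l 16730624))))) (b (a (a (b (l 16718752) (l 16724280)) (b (l 16723384) (l 16728912))) (b (a (l 16727968) (l 16732512)) (a (l 16733504) (l 16738048)))) (a (b (a (l 16729776) (l 16734416)) (a (l 16735312) (l 16739960))) (b (a (l 16739016) (l 16743568)) (a (l 16744560) (l 16743872)))))))), by decide +kernel⟩

def k10_pp_022_t : ∃ t, chk3 f_pp_022_t t 64 63 1 = true :=
  ⟨(b (a (l 14) (b (a (b (a (l 14) (b (l 16707232) (l 14))) (l 14)) (b (a (b (l 16712168) (l 16717848)) (b (l 16717064) (l 16722752))) (a (b (l 16723624) (l 14)) (b (l 16728536) (l 16734408))))) (l 14))) (l 14)), by decide +kernel⟩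

def k11_pp_022_t : ∃ t, chk3 f_pp_022_t t 65 252 1 = true :=
  ⟨(a (a (b (a (b (l 16721920) (l 16727616)) (b (l 16726736) (l 16732440))) (b (a (l 16733408) (l 16738232)) (a (b (l 16737800) (l 16740768)) (b (l 16742632) (l 16745600))))) (b (b (a (l 16731512) (l 16736248)) (a (l 16737216) (l 16741960))) (b (a (b (l 16741560) (l 16744480)) (b (l 16746296) (l 16749224))) (a (b (l 16747424) (l 16750392)) (a (l 16752472) (l 16749592)))))) (b (a (b (a (l 16740936) (l 16740344)) (a (b (l 16745216) (l 16748096)) (b (l 16749864) (l 16752752)))) (a (b (b (l 16748776) (l 16751616)) (a (l 16754768) (l 16751824))) (b (b (l 16753336) (l 16756184)) (b (l 16753808) (l 16758000))))) (a (a (b (b (l 16751000) (l 16753928)) (b (l 16754256) (a (l 16758680) (l 16761024)))) (b (a (l 16750720) (l 16754344)) (b (a (l 16760376) (l 16762696)) (a (l 16763352) (l 16763056))))) (b (a (b (l 16756344) (a (l 16762056) (l 16764352))) (b (b (l 16758872) (l 16762960)) (a (l 16761400) (l 16766296)))) (a (a (b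 (l 16765008) (l 16765368)) (b (l 16764688) (l 16767672))) (b (a (l 16766976) (a (l 16768688) (l 16769824))) (a (b (l 16769216) (l 16770712)) (b (l 16771496) (a (l 16772416) (b (l 16773184) (a (l 16773648) (a (l 16774072) (a (l 16775592) (b (l 16776864) (l 118883351191))))))))))))))), by decide +kernel⟩

def k12_pp_022_t : ∃ t, chk3 f_pp_022_t t 130 506 1 = true :=
  ⟨(a (a (b (b (l 16743752) (l 16746760)) (b (l 16749792) (l 14))) (b (a (l 16748880) (l 16746048)) (b (a (l 16753424) (l 16755832)) (a (l 16756480) (l 16758896))))) (b (a (b (l 16748136) (a (l 16755200) (l 16757584))) (b (a (l 16756952) (l 16759320)) (b (l 16757776) (l 16758632)))) (a (b (a (l 16758232) (l 16760624)) (a (l 16761296) (l 16761064))) (b (a (l 16763008) (l 16762752)) (a (l 16763448) (b (l 16767672) (l 16766584))))))), by decide +kernel⟩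

def k13_pp_022_t : ∃ t, chk3 f_pp_022_t t 260 507 1 = true :=
  ⟨(b (a (l 14) (a (b (l 16759560) (l 14)) (b (l 16761976) (b (l 16764304) (l 16765856))))) (l 14)), by decide +kernel⟩

def k14_pp_022_t : ∃ t, chk3 f_pp_022_t t 261 1014 1 = true :=
  ⟨(a (a (b (l 16761760) (b (l 16766704) (l 16765640))) (b (b (l 16766000) (l 16767544)) (b (l 16766480) (l 16768688)))) (b (a (a (l 16765936) (l 16767128)) (b (l 16768128) (b (l 16769288) (l 16770064)))) (a (b (l 16769512) (a (l 16769824) (l 16771016))) (b (a (l 16770640) (l 16771824)) (a (l 16773512) (b (l 16772992) (a (l 16773480) (b (l 16773880) (b (l 16774168) (b (l 16775624) (a (l 16776888) (a (l 16777112) (l 16777208))))))))))))), by decide +kernel⟩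

def k15_pp_022_t : ∃ t, chk3 f_pp_022_t t 522 1015 1 = true :=
  ⟨(b (a (b (l 16767208) (b (l 16768384) (l 16769168))) (b (a (l 16771624) (l 16770200)) (a (l 16770576) (l 16773080)))) (a (b (a (l 14) (l 16772264)) (l 14)) (b (a (l 16773464) (b (l 16774264) (a (l 16773440) (b (l 16773840) (b (l 16774136) (b (l 16775600) (a (l 16776856) (c (l 118883351927) (l 118883351927))))))))) (a (b (l 16774648) (a (l 14) (a (b (l 16774080) (b (l 16775688) (l 14))) (b (b (l 16774280) (b (l 16775736) (a (l 16777080) (l 16777192)))) (a (b (b (l 16777160) (l 104924708983)) (l 4)) (l 235384340631)))))) (b (a (a (l 16775392) (b (l 16774184) (b (b (l 16775744) (a (l 16777080) (l 16777192))) (a (b (l 16777168) (l 92576678023)) (l 247732371543))))) (b (a (a (l 16776368) (b (l 16775768) (a (l 143579414503) (l 169349218407)))) (a (b (a (l 16777176) (l 102777225335)) (l 4)) (l 282092109927))) (b (b (a (a (l 93113548935) (l 4)) (l 4)) (l 4)) (l 4)))) (a (b (a (b (a (l 16776464) (a (l 134989479911) (l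 165591122023))) (b (a (l 137136963671) (l 4)) (l 4))) (l 4)) (l 4)) (l 4))))))), by decide +kernel⟩

def k16_pp_022_t : ∃ t, chk3 f_pp_022_t t 523 2030 1 = true :=
  ⟨(a (b (a (l 16772704) (l 16773888)) (a (l 16774112) (b (a (l 16773464) (b (l 16773856) (b (l 16774152) (b (l 16775608) (a (l 16776872) (l 125862673799)))))) (a (b (l 16774056) (a (l 16775608) (b (b (l 16775752) (a (l 16777096) (l 16777200))) (a (a (l 16777176) (l 111367159927)) (l 4))))) (b (a (a (l 16776712) (b (l 16775784) (a (l 156464316423) (l 227331276871)))) (a (b (a (l 16777184) (l 100092870791)) (l 4)) (l 4))) (b (a (a (a (l 119420223623) (l 4)) (l 4)) (l 4)) (l 4))))))) (b (a (b (l 16774688) (a (l 16773864) (a (b (l 16774112) (a (l 16776712) (b (l 16775784) (a (l 96871645303) (l 237531824199))))) (b (a (l 16774336) (a (l 16775752) (b (l 16777040) (l 16777200)))) (a (b (l 150021864775) (l 4)) (l 4)))))) (b (a (b (l 16774072) (a (l 16775624) (b (b (l 16775768) (a (l 16777104) (l 16777208))) (a (l 148948122967)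 (l 4))))) (b (a (a (l 16776720) (b (l 16777104) (a (l 16777248) (l 247732371527)))) (a (b (l 155927444823) (l 4)) (l 4))) (l 305714430055))) (a (b (a (a (b (l 16776480) (l 184381603959)) (a (b (l 99555999863) (l 4)) (l 235384340615))) (l 4)) (l 4)) (l 4)))) (a (b (a (b (a (l 16775616) (b (b (l 16775760) (a (l 16777096) (l 16777200))) (b (a (l 16777176) (l 4)) (l 199413989495)))) (a (a (b (l 16776480) (l 147337511063)) (a (b (l 103850967143) (l 4)) (l 227331276935))) (l 4))) (a (a (b (b (l 181160378487) (l 4)) (l 4)) (l 4)) (l 4))) (l 4)) (l 4)))), by decide +kernel⟩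

def k17_pp_022_t : ∃ t, chk3 f_pp_022_t t 523 2031 1 = true :=
  ⟨(a (b (a (b (a (l 16775160) (b (b (l 16774144) (b (l 16775608) (a (l 16776864) (l 122641448327)))) (a (b (l 16775704) (b (l 121567706503) (a (l 16777168) (l 244511146055)))) (a (b (a (l 16777176) (l 108682805367)) (l 4)) (l 287997689959))))) (a (a (b (l 16775600) (b (a (l 16776464) (a (l 151632478183) (l 173107314791))) (b (a (l 95797903495) (l 4)) (l 4)))) (b (a (a (l 94724160631) (b (l 16777072) (l 105461579895))) (b (a (l 16777144) (l 16777192)) (l 257932918871))) (l 4))) (b (b (b (a (a (l 97945387143) (l 4)) (l 4)) (l 4)) (l 4)) (l 4)))) (b (a (b (a (a (b (l 16776472) (a (l 116735869063) (l 4))) (a (b (l 168275476455) (l 4)) (l 222499438727))) (l 4)) (l 4)) (l 4)) (l 4))) (l 4)) (l 4)), by decide +kernel⟩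

def k18_pp_022_t : ∃ t, chk3 f_pp_022_t t 262 506 1 = true :=
  ⟨(b (a (a (b (l 16761672) (l 16762072)) (b (l 16764016) (l 16764416))) (b (a (l 16763728) (l 16766056)) (a (b (l 16768616) (l 16767512)) (b (l 16768320) (l 16769840))))) (a (b (a (b (l 16766968) (l 16768496)) (a (l 16766872) (l 16768048))) (a (b (l 16767408) (l 16768944)) (b (l 16769760) (a (l 16770712) (l 16771880))))) (b (a (b (l 16769032) (l 16771216)) (b (l 16772016) (a (l 16772304) (b (l 16773088) (a (l 16773560) (b (l 16773952) (b (l 16774240) (a (l 16776904) (a (l 16777112) (l 16777200)))))))))) (a (b (a (l 16771512) (l 16772680)) (a (l 16774360) (b (a (l 16773544) (b (l 16773928) (a (l 16774168) (a (l 16774384) (b (l 16777056) (l 141968801783)))))) (a (b (l 16774120) (a (l 16775664) (a (b (l 16777096) (l 99555999911)) (b (l 150021865431) (l 4))))) (b (b (a (l 16775760) (a (l 102240354471) (l 4))) (a (a (l 16777168) (l 183307862135)) (l 4))) (l 4)))))) (b (a (b (l 16773456) (a (l 16773936) (b (b (l 16774232)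 (a (l 16776896) (a (l 16777112) (l 16777200)))) (b (a (l 16775768) (a (l 107072192679) (l 4))) (a (a (l 16777176) (l 190824054903)) (l 4)))))) (b (a (b (l 16774136) (a (l 16775680) (a (b (l 16777112) (l 135526350983)) (b (l 16777200) (l 4))))) (b (b (a (l 16775776) (a (l 138747576455) (l 4))) (a (a (l 16777176) (l 198340247671)) (l 4))) (l 4))) (a (b (b (a (a (l 16777176) (l 194582151287)) (l 4)) (l 4)) (l 4)) (l 4)))) (a (b (a (b (a (l 16775672) (a (b (l 16777104) (l 104924709031)) (b (l 16777200) (l 4)))) (b (a (a (l 16777176) (l 187065958519)) (l 4)) (l 4))) (l 4)) (l 4)) (l 4))))))), by decide +kernel⟩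

def k19_pp_022_t : ∃ t, chk3 f_pp_022_t t 526 1012 1 = true :=
  ⟨(b (a (a (l 16767792) (l 16768944)) (b (l 16769920) (l 16771424))) (a (b (l 16770632) (a (l 16771576) (l 16772728))) (b (a (l 16772360) (b (l 16773136) (a (l 16773608) (b (l 16773992) (b (l 16774272) (a (l 16776944) (a (l 16777144) (l 16777216)))))))) (a (b (l 16773504) (a (l 16773976) (b (b (l 16774264) (a (l 16776936) (a (l 16777136) (l 16777216)))) (b (a (l 16775792) (l 188139700391)) (a (a (l 16777192) (l 4)) (l 4)))))) (b (a (b (l 16774176) (a (l 16776360) (b (a (l 16777136) (l 16777216)) (l 191360925863)))) (b (a (a (l 124252061015) (b (l 16777168) (l 4))) (l 219278213319)) (l 4))) (a (b (b (a (a (l 16777192) (l 4)) (l 4)) (l 4)) (l 4)) (l 4))))))), by decide +kernel⟩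

def k20_pp_022_t : ∃ t, chk3 f_pp_022_t t 527 1012 1 = true :=
  ⟨(b (a (b (l 16772208) (a (l 16773144) (b (a (l 16773624) (b (l 16774008) (a (l 16774240) (b (l 16777048) (l 125862673063))))) (a (b (l 16774192) (a (l 16776376) (b (l 119420222119) (l 228941889671)))) (b (a (b (l 16777120) (a (l 16777200) (l 4))) (l 228405018823)) (l 4)))))) (b (a (b (l 16773544) (a (l 16774008) (b (a (l 16771632) (b (l 16777056) (l 133378867159))) (a (b (l 16777128) (l 117272739399)) (l 256859177127))))) (b (a (a (l 74859936119) (b (l 16774352) (a (l 152169347799) (l 195655893159)))) (a (b (b (l 16777136) (l 112977772775)) (l 4)) (l 325041782903))) (a (a (b (b (l 119420223703) (l 4)) (l 4)) (l 4)) (l 4)))) (a (b (a (b (a (l 16776384) (b (l 126936416215) (l 235921211527))) (a (a (a (l 105461579991) (l 182234120359)) (l 4)) (l 4))) (l 4)) (l 4)) (l 4)))) (a (b (a (b (a (l 16773992) (b (b (l 16774280) (a (l 16776952) (l 112977771175))) (a (b (l 16777112) (a (l 16777200) (l 4))) (l 223573180615))))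 (a (b (a (l 16776368) (a (b (l 16777144) (l 16777232)) (l 159148671175))) (b (a (a (l 16777200) (l 4)) (l 4)) (l 4))) (l 4))) (b (a (b (b (a (a (l 16777200) (l 4)) (l 4)) (l 4)) (l 4)) (l 4)) (l 4))) (l 4)) (l 4))), by decide +kernel⟩

def k21_pp_022_t : ∃ t, chk3 f_pp_022_t t 263 1013 1 = true :=
  ⟨(a (b (a (b (a (l 16773096) (b (a (l 16773584) (b (l 16773968) (b (l 16774256) (a (l 16776920) (a (l 16777128) (l 16777208)))))) (a (b (l 16774152) (a (l 16776344) (b (a (l 16777128) (l 16777208)) (l 157538058439)))) (a (b (a (l 117272739143) (b (l 16777160) (l 16777232))) (l 4)) (l 299808850023))))) (a (b (a (l 16773952) (b (b (l 16774248) (a (l 16776912) (a (l 16777120) (l 16777208)))) (b (a (l 16775776) (l 154853703879)) (a (a (l 16777184) (l 243974275159)) (l 4))))) (a (b (a (l 16776336) (a (b (l 16777120) (l 142505672839)) (b (l 16777208) (l 4)))) (b (a (a (l 16777184) (l 202098344055)) (l 4)) (l 4))) (l 4))) (b (a (b (b (a (a (l 16777184) (l 16777232)) (l 4)) (l 4)) (l 4))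 (l 4)) (l 4)))) (b (a (b (a (b (a (l 56606323095) (b (a (l 16777128) (l 16777208)) (l 185455345831))) (b (a (a (l 16777192) (l 16777232)) (l 4)) (l 4))) (l 4)) (l 4)) (l 4)) (l 4))) (l 4)) (l 4)), by decide +kernel⟩

def k22_pp_022_t : ∃ t, chk3 f_pp_022_t t 524 2028 1 = true :=
  ⟨(a (b (b (l 16770104) (l 16770880)) (a (l 16771448) (l 16773936))) (b (a (l 16772256) (b (l 16773040) (a (l 16773520) (b (l 16773912) (b (l 16774200) (a (l 16776872) (a (l 16777088) (l 126399545303)))))))) (a (b (l 16773416) (a (l 16773896) (b (b (l 16774192) (a (l 16776864) (a (l 16777080) (l 110830288855)))) (b (a (l 16775744) (a (l 97945386503) (l 4))) (a (a (l 16777152) (l 133915738263)) (l 4)))))) (b (a (b (l 16774104) (a (l 16775648) (a (b (l 16777088) (l 100092870807)) (b (l 126936416199) (l 4))))) (b (b (a (l 16775744) (a (l 102777225367) (l 4))) (a (a (l 16777160) (l 139284447383)) (l 4))) (l 318062461047))) (a (b (b (a (a (l 16777160) (l 136600092823)) (l 4)) (l 272428433575)) (l 4)) (l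 4)))))), by decide +kernel⟩

def k23_pp_022_t : ∃ t, chk3 f_pp_022_t t 524 2029 1 = true :=
  ⟨(a (b (a (l 16774320) (b (a (l 16773504) (a (l 16773944) (a (l 16774160) (b (l 16776736) (b (l 16777032) (l 103850965671)))))) (a (b (l 16774088) (a (l 16775632) (a (a (l 111367159111) (b (l 16777112) (l 16777224))) (b (l 104924707479) (l 4))))) (b (b (a (l 16775736) (a (a (l 16777192) (l 16777224)) (l 4))) (a (a (l 16777152) (l 141431931015)) (l 4))) (l 313767493735))))) (a (b (a (l 16773880) (a (b (l 16774128) (a (l 16776728) (b (l 16777112) (a (l 16777216) (l 16777232))))) (a (b (l 16774352) (b (l 146800640023) (l 4))) (b (a (l 16775760) (b (l 16777056) (l 16777200))) (l 4))))) (a (b (a (l 16775624) (b (b (l 16775776) (a (l 16777112) (l 16777208))) (a (l 154853703671) (l 4)))) (a (b (a (l 16777144) (a (l 16777208) (l 255785435207))) (l 225183793287)) (l 4))) (b (l 309472526439) (l 4)))) (b (a (b (a (b (a (l 16777152) (l 163980509287)) (l 230552502407)) (l 4)) (l 4)) (l 4)) (l 4))))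 (b (a (b (a (b (a (l 16775640) (a (a (l 115125255511) (b (l 16777112) (l 16777224))) (b (l 103314096087) (l 4)))) (a (b (a (l 16777152) (l 144653156487)) (l 235921211527)) (l 4))) (l 320209944727)) (l 4)) (l 4)) (l 4))), by decide +kernel⟩

def k24_pp_022_t : ∃ t, chk3 f_pp_022_t t 525 1014 1 = true :=
  ⟨(b (a (b (a (b (a (l 16773920) (b (b (l 16774208) (a (l 16776880) (a (l 16777096) (l 133915738087)))) (b (a (l 16775752) (a (l 97408516263) (l 4))) (a (a (l 16777168) (l 145190027415)) (l 4))))) (a (b (a (l 16775656) (a (b (l 16777096) (l 94724161703)) (b (l 134452608983) (l 4)))) (b (a (a (l 16777160) (l 141968801943)) (l 4)) (l 276186529959))) (l 4))) (b (a (b (b (a (a (l 16777168) (l 179549765751)) (l 4)) (l 4)) (l 4)) (l 4)) (l 4))) (l 4)) (l 4)) (l 4)), by decide +kernel⟩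

def k25_pp_022_t : ∃ t, chk3 f_pp_022_t t 262 1015 1 = true :=
  ⟨(l 4), by decide +kernel⟩

def k26_pp_022_t : ∃ t, chk3 f_pp_022_t t 263 507 1 = true :=
  ⟨(l 4), by decide +kernel⟩

def k27_pp_022_t : ∃ t, chk3 f_pp_022_t t 65 127 1 = true :=
  ⟨(b (a (b (a (l 14) (b (a (a (l 14) (a (a (l 14) (a (l 14) (l 4))) (l 4))) (l 4)) (l 4))) (l 4)) (l 4)) (l 4)), by decide +kernel⟩

def k28_pp_022_t : ∃ t, chk3 f_pp_022_t t 66 124 1 = true :=
  ⟨(a (b (a (b (a (l 16670928) (l 16675560)) (a (l 16682304) (l 16686816))) (b (a (l 16680240) (l 16684976)) (a (l 16691392) (l 16696008)))) (a (b (a (l 16693848) (l 16698304)) (a (l 16705528) (l 16709952))) (b (a (l 16702768) (l 16707280)) (a (l 16714368) (l 16720088))))) (b (a (b (a (l 16689776) (l 16694640)) (a (l 16700680) (l 16705416))) (b (a (l 16699584) (l 16704600)) (a (l 16710224) (l 16715088)))) (a (b (a (l 16711840) (l 16716448)) (a (b (l 16720360) (l 16726112)) (b (l 16724880) (l 16730584)))) (b (a (l 16721120) (b (l 16723128) (l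 16728576))) (a (b (l 16729464) (l 16735104)) (b (l 16734088) (l 16739672))))))), by decide +kernel⟩

def k29_pp_022_t : ∃ t, chk3 f_pp_022_t t 66 250 1 = true :=
  ⟨(a (b (b (a (l 16716544) (a (l 16723152) (l 16727528))) (a (l 16723648) (a (l 16728960) (l 16733320)))) (a (b (a (l 16725808) (l 16730256)) (a (l 16731440) (l 16735896))) (b (a (l 16734664) (l 16739032)) (a (l 16740304) (l 16744680))))) (a (b (b (a (l 16731904) (l 16736320)) (a (l 16737664) (l 16742024))) (b (a (l 16743360) (l 16747680)) (a (l 16749000) (l 16748056)))) (b (a (b (l 16740784) (l 16746440)) (b (l 16745288) (l 16750880))) (a (b (l 16746792) (b (l 16756216) (l 16758992))) (b (l 16751184) (b (l 16760568) (l 16758072))))))), by decide +kernel⟩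

def k30_pp_022_t : ∃ t, chk3 f_pp_022_t t 132 251 1 = true :=
  ⟨(b (a (b (a (l 16737016) (l 16741480)) (a (l 16742560) (l 16747024))) (a (b (l 16745896) (l 16746200)) (b (l 16750272) (l 16750584)))) (a (b (a (l 16748080) (l 16747304)) (a (b (l 16752240) (l 16755040)) (b (l 16756712) (l 16759512)))) (b (a (b (l 16755592) (l 16758360)) (a (l 16755024) (l 16757208))) (a (a (l 16756192) (l 16758400)) (a (l 16761904) (b (l 16766616) (l 16764184))))))), by decide +kernel⟩

def k31_pp_022_t : ∃ t, chk3 f_pp_022_t t 133 502 1 = true :=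
  ⟨(a (b (a (l 16749360) (b (l 16757488) (l 16760280))) (a (b (l 16758776) (l 16761544)) (a (l 16758144) (l 16760280)))) (b (a (a (l 16756848) (l 16758984)) (a (l 16761136) (l 16764584))) (a (b (l 16764696) (b (l 16764160) (l 16765544))) (b (a (l 16765264) (l 16767384)) (a (l 16768024) (b (l 16769448) (a (l 16770296) (b (l 16771000) (a (l 16771424) (a (l 16777016) (a (l 122104577975) (l 100629736695)))))))))))), by decide +kernel⟩

def k32_pp_022_t : ∃ t, chk3 f_pp_022_t t 133 503 1 = true :=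
  ⟨(a (b (a (b (l 16759072) (l 16763152)) (b (l 16764680) (a (l 16765072) (l 16767216)))) (a (b (b (l 16763928) (l 16767952)) (a (l 16766360) (l 16771144))) (b (a (l 16767864) (b (l 16769304) (a (l 16770168) (b (l 16770888) (a (l 16771320) (b (l 16771664) (a (l 16777104) (l 131768254743)))))))) (a (b (l 16769968) (a (l 16773464) (b (a (l 16771296) (a (l 16774296) (b (l 16777016) (l 317525589671)))) (b (a (l 16776368) (l 235384340711)) (l 324504909559))))) (b (a (b (l 16773840) (a (l 87207966775) (a (l 266522852231) (l 192434667815)))) (b (b (a (l 16776384) (l 231626244359)) (l 326115521975)) (l 4))) (a (l 339537294903) (l 4))))))) (b (a (b (a (l 16766568) (l 16768680)) (b (a (l 16768648) (a (l 16770232) (b (l 16770944) (a (l 16771376) (b (l 16776952) (a (l 16777128) (l 16776488))))))) (a (l 16770032) (a (b (l 16773888) (a (a (l 16771576) (l 114051513015)) (b (l 270817819783) (l 262764757223)))) (b (b (a (l 16777072) (l 4)) (l 329873617719)) (l 4)))))) (b (a (b (l 16770096)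 (a (l 16773568) (b (a (l 16771400) (a (l 16774376) (l 261691013943))) (a (b (l 16777088) (l 133915738519)) (l 4))))) (b (a (b (l 16773936) (a (b (l 16776824) (l 16777096)) (a (a (l 81302386487) (l 109756547495)) (l 278870884519)))) (b (a (b (l 16777104) (l 169349218631)) (l 4)) (l 4))) (l 341684780791))) (a (b (a (b (a (b (l 16776800) (l 16777080)) (l 305714429271)) (l 333631712855)) (l 4)) (l 4)) (l 4)))) (a (b (a (b (a (l 16773520) (b (a (l 16771344) (b (l 16776928) (l 264912239495))) (b (a (l 16777056) (l 267059724503)) (l 327726134391)))) (a (b (a (l 91502934103) (a (l 275112787159) (l 184918475095))) (l 333094842711)) (l 4))) (b (a (l 339537291207) (l 4)) (l 4))) (l 4)) (l 4)))), by decide +kernel⟩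

def k33_pp_022_t : ∃ t, chk3 f_pp_022_t t 67 124 1 = true :=
  ⟨(a (b (a (a (b (l 16709616) (l 16719944)) (b (l 16714584) (l 16724752))) (a (b (l 16719528) (l 16729504)) (b (l 16724376) (l 16728952)))) (a (b (a (b (l 16727872) (l 16733248)) (b (l 16732568) (l 16737864))) (a (b (l 16738696) (l 16744208)) (b (l 16743240) (l 16748680)))) (b (a (b (l 16737192) (l 16742416)) (b (l 16741760) (l 16746896))) (a (b (l 16747712) (l 16753080)) (b (l 16752112) (l 16752152)))))) (b (a (a (b (l 16729096) (l 16730960)) (b (l 16733696) (b (l 16740912) (l 16745752)))) (b (b (l 16737808) (l 16737296)) (a (l 16742408) (b (l 16749368) (l 16754160))))) (b (a (a (b (l 16746248) (l 16751304)) (a (l 16746816) (l 16748968))) (a (b (l 16754936) (l 16754592)) (b (l 16759000) (l 16758632)))) (a (a (b (l 16756432) (l 16756392)) (b (l 16755416) (l 16760536))) (b (a (l 16759552) (a (l 16762568) (l 16764520))) (a (a (l 16763576) (l 16765568)) (b (l 16767256) (a (l 16768792) (a (l 16764992) (b (l 16765320)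 (a (l 16772832) (b (l 16776944) (l 150558720903))))))))))))), by decide +kernel⟩

def k34_pp_022_t : ∃ t, chk3 f_pp_022_t t 134 250 1 = true :=
  ⟨(b (a (a (b (l 16749760) (l 16750048)) (b (l 16748920) (l 16754384))) (b (a (l 16753248) (l 16757496)) (a (b (l 16762544) (l 16759984)) (b (l 16761488) (l 16764136))))) (a (b (a (b (l 16759408) (l 16762144)) (a (l 16758744) (l 16760864))) (a (b (l 16759632) (l 16762360)) (a (l 16764160) (l 16767552)))) (b (a (b (l 16762664) (l 16765328)) (b (l 16766776) (a (l 16768400) (b (l 16769760) (a (l 16765328) (b (l 16771240) (b (l 16772984) (a (l 16777024) (l 241826791607))))))))) (a (b (a (l 16766968) (l 16769016)) (a (l 16769640) (b (a (l 16770504) (b (l 16771184) (a (l 16771576) (b (l 16777104) (l 147874382199))))) (a (b (l 16774088) (a (b (l 16776968) (l 16777264)) (l 179012895159))) (l 315914975335))))) (b (a (b (l 16770384) (a (l 61438160775) (b (a (l 16776848) (b (l 16777120) (l 163443638631))) (l 308935650695)))) (b (a (b (l 38352707335)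 (a (a (l 16777032) (l 89892323703)) (l 212835762551))) (l 317525582167)) (l 4))) (a (b (a (b (a (a (l 16777016) (l 81302389111)) (l 217667600711)) (l 4)) (l 4)) (l 4)) (l 4))))))), by decide +kernel⟩

def k35_pp_022_t : ∃ t, chk3 f_pp_022_t t 135 250 1 = true :=
  ⟨(b (a (b (a (a (l 16760616) (l 16762672)) (b (l 16764416) (l 16767000))) (a (b (l 16765584) (a (l 16767192) (l 16769192))) (b (a (l 16768592) (b (l 16764680) (a (l 16765472) (b (l 16771360) (a (l 16776960) (b (l 16776656) (l 4))))))) (a (b (l 16770520) (a (a (l 16765832) (b (l 16776488) (l 16777048))) (a (b (l 16776936) (l 180086636951)) (l 302493199255)))) (b (a (b (l 95797900999) (l 297124494359)) (l 320746806359)) (l 4)))))) (b (a (b (a (l 16762168) (l 16769368)) (a (l 16772576) (b (a (l 16765544) (a (l 16774088) (b (l 16776896) (l 148411237655)))) (a (b (a (l 16776736) (l 138747566423)) (a (l 142505660279) (l 4))) (l 322357418471))))) (b (a (b (l 16773280) (a (b (l 16765896) (a (l 16776760) (l 139284436903)))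 (a (b (l 16777024) (l 154316815175)) (l 308935649047)))) (a (b (a (b (l 16776792) (l 144653143383)) (l 297124494263)) (l 4)) (l 327189250119))) (a (b (a (l 300882590055) (l 4)) (l 4)) (l 4)))) (a (b (a (b (a (b (l 16765824) (a (l 16776704) (b (l 16777008) (l 16776592)))) (b (a (l 16776984) (l 147337495943)) (l 319136196263))) (a (l 298735106999) (l 4))) (l 4)) (l 4)) (l 4)))) (a (b (a (b (a (l 16769800) (b (a (l 16765400) (b (l 16771304) (a (l 16776912) (b (l 16776912) (l 155390560951))))) (a (b (b (l 16771448) (l 37815836151)) (a (l 118883347255) (l 307325042823))) (l 319136194247)))) (a (b (a (a (l 16765768) (a (l 16771376) (l 38352707303))) (a (b (l 16776896) (l 148411250583)) (l 299271974359))) (a (b (a (l 104924706151) (l 255785435399)) (l 4)) (l 4))) (l 4))) (b (a (a (a (b (l 298735106823) (l 4)) (l 335242316343)) (l 4)) (l 4)) (l 4))) (l 4)) (l 4))), by decide +kernel⟩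

def k36_pp_022_t : ∃ t, chk3 f_pp_022_t t 67 251 1 = true :=
  ⟨(a (b (a (b (a (b (l 16766392) (a (l 16766752) (l 16768848))) (b (a (l 16768216) (b (l 16769600) (a (l 16770432) (a (l 16771200) (b (l 16766136) (b (l 16777064) (l 129083900279))))))) (a (a (b (l 16774968) (l 16773680)) (b (l 16770752) (b (a (l 16771504) (b (l 16777048) (l 309472525799))) (l 301419461687)))) (b (a (b (l 16774040) (a (b (l 16776928) (l 255248563111)) (b (l 139284447559) (l 4)))) (b (l 303566942423) (l 4))) (l 344905993575))))) (a (b (a (b (l 16768800) (b (l 16769824) (l 16770512))) (b (a (l 16770368) (b (l 16771064) (a (l 16771480) (b (l 16777032) (l 116198998375))))) (a (b (l 16773992) (a (l 110830287287) (a (l 305714429463) (l 4)))) (b (a (b (l 16777112) (l 195119022391)) (l 4)) (l 4))))) (a (b (a (l 16773624) (b (a (l 16771448) (b (l 16777008) (l 95261030231))) (a (b (l 16777120) (l 179012895047)) (l 4)))) (a (a (b (l 105998449047) (l 265985982631)) (l 319673068951)) (l 4))) (l 347053489079)))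 (b (a (b (a (a (b (b (l 16776904) (l 16777080)) (l 218741342599)) (l 321820551927)) (l 4)) (l 4)) (l 4)) (l 4)))) (b (a (b (a (b (a (l 46405773159) (b (a (l 16771552) (l 262764755831)) (l 305177554887))) (a (b (a (b (l 16776944) (l 16777208)) (l 224110051559)) (l 344369128935)) (l 4))) (l 4)) (l 4)) (l 4)) (l 4))) (l 4)) (l 4)), by decide +kernel⟩

def k37_pp_022_t : ∃ t, chk3 f_pp_022_t t 132 504 1 = true :=
  ⟨(a (b (a (a (l 16752912) (l 16755160)) (b (l 16757096) (a (l 16764072) (l 16766296)))) (a (b (a (l 16762448) (l 16764696)) (a (l 16765336) (l 16762344))) (b (a (l 16766936) (l 16763928)) (a (l 16767216) (l 16769448))))) (b (a (a (b (l 16765672) (l 16763272)) (b (l 16767872) (l 16765488))) (b (a (l 16764832) (l 16769640)) (a (l 16770304) (b (l 16769152) (a (l 16770040) (b (l 16770776) (a (l 16771216) (b (l 16771584) (a (l 16777032) (l 289608302071)))))))))) (a (b (a (l 16768768) (l 16770984)) (a (b (l 16770944) (l 16772392)) (b (a (l 16769976) (a (l 16770808) (a (l 16773840)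 (b (l 16776376) (b (l 16776920) (l 156464316343)))))) (a (b (l 16771072) (a (l 16775440) (a (b (l 16776992) (l 304103816663)) (l 307861912887)))) (b (a (b (l 16774320) (a (c (l 16777128) (l 16777128)) (l 177939153127))) (l 342221651079)) (l 4)))))) (b (a (b (l 16772456) (a (l 16773352) (b (a (l 16771192) (b (l 16771560) (a (l 16777016) (l 94187289559)))) (a (b (l 16774336) (a (c (l 16777136) (l 16777136)) (l 223036309671))) (l 343832263431))))) (b (a (b (l 16771120) (a (l 16776136) (b (a (l 16777024) (l 284239592839)) (a (l 126936416535) (l 4))))) (b (a (b (l 16775664) (l 286923947223)) (l 345442875783)) (l 4))) (a (b (a (b (l 284776463655) (l 4)) (l 4)) (l 4)) (l 4)))) (a (b (a (a (b (l 16774968) (b (a (c (l 16777136) (l 16777136)) (l 199950860487)) (l 4))) (a (b (b (l 16777008) (a (l 16776776) (l 243437404295))) (l 4)) (l 337926683911))) (l 4)) (l 4)) (l 4)))))), by decide +kernel⟩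

def k38_pp_022_t : ∃ t, chk3 f_pp_022_t t 264 1010 1 = true :=
  ⟨(a (b (a (l 16765632) (l 16767888)) (a (l 16768568) (b (l 16770088) (l 16771560)))) (b (a (l 16770128) (b (l 16771632) (a (l 16769920) (b (l 16770664) (a (l 16771120) (a (l 16774160) (a (l 16776312) (b (l 16776944) (l 102777225431))))))))) (a (b (l 16772328) (a (l 16773248) (b (a (l 16771096) (a (l 16774136) (a (l 16775640) (b (l 16776920) (l 93113549015))))) (a (b (l 16774264) (a (l 116735868023) (a (l 99555999991) (l 4)))) (a (b (a (l 116735868887) (l 133378867431)) (l 4)) (l 4)))))) (b (a (b (l 16771016) (a (l 16775400) (b (a (l 16774328) (a (l 16777128) (l 97945387223))) (a (a (l 134989479879) (l 157538058439)) (l 4))))) (b (a (b (l 16774280) (a (l 123178319031) (a (l 108682805495) (l 4)))) (a (b (a (l 16777184) (l 153243091159)) (l 4)) (l 4))) (l 364770230279))) (a (b (a (b (a (l 119957093511) (a (l 103850967287) (l 4))) (l 231626244359)) (l 4)) (l 4)) (l 4)))))), by decide +kernel⟩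

def k39_pp_022_t : ∃ t, chk3 f_pp_022_t t 264 1011 1 = true :=
  ⟨(a (b (a (b (l 16770784) (l 16772272)) (b (a (l 16772480) (b (l 16770616) (a (l 16771072) (a (l 16774112) (a (l 16775624) (b (l 16776904) (l 146800639991))))))) (a (b (l 16773592) (a (l 16774048) (a (b (l 16774288) (b (l 16777152) (l 147874382023))) (b (a (l 16777104) (l 139821318119)) (l 4))))) (b (a (b (l 16774248) (a (l 16776744) (b (l 89892323543) (l 4)))) (a (b (a (l 96334774215) (l 105998450951)) (l 4)) (l 4))) (a (l 297661366407) (l 4)))))) (a (b (a (l 16773192) (b (a (l 16771048) (a (l 16774096) (a (l 16775608) (b (l 16776880) (l 132841996247))))) (a (b (l 16774224) (a (l 16776728) (b (l 148948123655) (l 4)))) (a (b (b (l 16777144) (l 141968801991)) (l 4)) (l 4))))) (a (b (a (l 16774032) (a (b (l 16771648) (b (l 16777136) (l 117272740071))) (b (a (l 16777088) (l 120493963959)) (l 4)))) (a (b (a (l 16776728) (b (l 141431930871) (l 4))) (a (a (l 130694512215) (l 4)) (l 4))) (l 4))) (b (b (b (b (l 289608302055)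 (l 4)) (l 4)) (l 4)) (l 4)))) (b (a (b (b (a (a (l 16776736) (b (l 85597356247) (l 4))) (l 4)) (b (l 293903270023) (l 4))) (l 4)) (l 4)) (l 4)))) (b (a (b (a (b (a (l 16774072) (b (a (l 16774312) (a (l 16777112) (l 93650419911))) (a (a (l 109219676103) (l 128010158311)) (l 4)))) (b (a (a (l 113514642535) (a (l 102240354535) (l 282628980839))) (l 4)) (l 300882591911))) (b (a (l 300882591895) (l 4)) (l 4))) (l 4)) (l 4)) (l 4))), by decide +kernel⟩

def k40_pp_022_t : ∃ t, chk3 f_pp_022_t t 265 505 1 = true :=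
  ⟨(b (a (b (a (b (a (a (l 16770400) (l 16770952)) (b (a (l 16771144) (a (l 16774176) (b (l 16776896) (l 131231382183)))) (a (b (l 16774296) (a (l 16777120) (l 144116285719))) (l 340611038743)))) (a (b (a (l 16775424) (b (a (l 16776968) (c (l 119957093031) (l 120493963943))) (b (a (l 16777184) (l 4)) (l 256859177143)))) (a (b (a (l 16777104) (l 147337509863)) (l 253637951719)) (l 4))) (l 379265743815))) (b (a (b (a (b (a (c (l 16777120) (l 16777120)) (l 156464316679)) (l 4)) (l 4)) (l 4)) (l 4)) (l 4))) (l 4)) (l 4)) (l 4)), by decide +kernel⟩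

def k41_pp_022_t : ∃ t, chk3 f_pp_022_t t 133 252 1 = true :=
  ⟨(b (a (b (a (b (a (b (l 16768480) (l 16769904)) (b (a (l 16770104) (b (l 16770832) (a (l 16771272) (b (l 16771624) (a (l 16777072) (l 93650420039)))))) (a (b (l 16773792) (a (l 79691773927) (b (a (l 16777056) (l 89355452743)) (l 190287184183)))) (a (b (a (l 116735867575) (l 283165850839)) (l 4)) (l 353495937175))))) (a (b (a (l 16773408) (b (a (l 16771240) (b (l 16771600) (a (l 16777048) (l 91502936375)))) (a (b (l 16775680) (a (l 16777144) (l 243437404343))) (l 347053488135)))) (a (a (b (l 16776152) (b (a (l 16777176) (l 253101080727)) (l 4))) (a (b (b (l 16777040) (l 143579414791)) (l 4)) (l 339537295063))) (l 4))) (b (a (a (a (l 328263007287) (l 367454581447)) (l 4)) (l 4)) (l 4)))) (b (a (b (a (b (a (l 83449870343) (b (a (l 16777080) (l 103850967351)) (l 211225149719))) (l 330947361175)) (l 4)) (l 4)) (l 4)) (l 4))) (l 4)) (l 4)) (l 4)), by decide +kernel⟩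

def k42_pp_022_t : ∃ t, chk3 f_pp_022_t t 66 253 1 = true :=
  ⟨(l 4), by decide +kernel⟩

def k43_pp_022_t : ∃ t, chk3 f_pp_022_t t 66 127 1 = true :=
  ⟨(l 4), by decide +kernel⟩

def k44_pp_022_t : ∃ t, chk3 f_pp_022_t t 67 63 1 = true :=
  ⟨(l 4), by decide +kernel⟩

def k45_pp_022_t : ∃ t, chk3 f_pp_022_t t 34 60 1 = true :=
  ⟨(a (b (a (b (l 16627064) (a (l 16636272) (l 16645568))) (b (l 16645552) (a (l 16654584) (l 16663320)))) (a (a (b (l 16650984) (l 16666384)) (b (l 16660040) (l 16675216))) (b (a (l 16668832) (l 16677344)) (a (l 16673280) (b (l 16688304) (l 16695832)))))) (b (a (b (l 16662944) (a (l 16671792) (l 16679984))) (b (l 16668760) (a (l 16687912) (l 16695576)))) (a (b (a (l 16685584) (l 16693560)) (a (b (l 16696376) (l 16703784)) (b (l 16704176) (l 16711472)))) (b (a (l 16701256) (l 16698208)) (a (b (l 16711712) (l 16718896)) (b (l 16718984) (l 16726056))))))), by decide +kernel⟩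

def k46_pp_022_t : ∃ t, chk3 f_pp_022_t t 34 122 1 = true :=
  ⟨(a (a (b (a (b (l 16678376) (l 16686584)) (b (l 16687032) (l 16695120))) (a (b (l 16694936) (l 16703440)) (b (l 16703360) (l 16711744)))) (b (a (b (l 16695416) (l 16703384)) (b (l 16703528) (l 16711384))) (a (b (l 16711504) (l 16719776)) (b (l 16719384) (l 16727536))))) (a (b (a (b (l 16711368) (l 16719112)) (b (l 16718944) (l 16726568))) (a (b (l 16727000) (l 16735032)) (b (l 16734344) (l 16731776)))) (b (a (b (l 16726248) (l 16733760)) (b (l 16733288) (l 16740688))) (a (b (l 16730936) (b (l 16747256) (l 16751200))) (b (l 16740368) (b (l 16753992) (l 16747384))))))), by decide +kernel⟩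

def k47_pp_022_t : ∃ t, chk3 f_pp_022_t t 68 123 1 = true :=
  ⟨(a (b (a (b (l 16712088) (l 16720888)) (b (l 16720272) (l 16718472))) (a (b (l 16719360) (b (l 16736664) (l 16741256))) (b (b (l 16735576) (l 16740032)) (b (l 16744528) (l 16738576))))) (b (a (b (l 16728192) (l 16728896)) (b (l 16725352) (b (l 16742160) (l 16746424)))) (b (a (b (l 16743280) (l 16747680)) (a (l 16740576) (l 16749456))) (a (b (l 16741632) (l 16751352)) (b (l 16754200) (a (l 16762072) (l 16755152))))))), by decide +kernel⟩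

def k48_pp_022_t : ∃ t, chk3 f_pp_022_t t 69 246 1 = true :=
  ⟨(a (a (b (b (l 16741152) (l 16745288)) (b (l 16749456) (l 16743176))) (b (b (l 16748296) (l 16752368)) (b (l 16745992) (l 16755384)))) (b (a (b (l 16744688) (l 16753952)) (b (l 16756552) (a (l 16764136) (l 16756864)))) (b (a (l 16758000) (a (l 16757656) (l 16766088))) (a (b (l 16761064) (l 16763120)) (a (l 16766952) (b (l 16763856) (a (l 16770328) (b (a (l 16765760) (b (l 16776752) (l 142505662615))) (a (a (l 16773040) (l 145190019047)) (l 295513873847)))))))))), by decide +kernel⟩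

def k49_pp_022_t : ∃ t, chk3 f_pp_022_t t 138 247 1 = true :=
  ⟨(b (a (b (l 16752656) (b (l 16750624) (l 16758016))) (b (a (l 16763112) (l 16756016)) (a (l 16756864) (l 16765464)))) (a (b (b (l 16760176) (l 16762344)) (a (l 16763896) (b (l 16760992) (l 16768424)))) (a (b (l 16766384) (b (a (l 16763536) (l 16773056)) (a (a (l 16765288) (b (l 16776064) (b (l 16776840) (l 144653148119)))) (b (a (b (l 16776624) (l 34057738631)) (l 280481491687)) (l 298198224679))))) (b (b (l 16768648) (a (l 16764712) (b (l 16773656) (a (b (l 16776696) (l 141431925527)) (l 283165845575))))) (b (a (b (a (l 16765904) (a (l 16773000) (b (l 16777080) (l 4)))) (a (b (l 140358184103) (l 150558718855)) (l 4))) (l 300882572919)) (l 4)))))), by decide +kernel⟩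

def k50_pp_022_t : ∃ t, chk3 f_pp_022_t t 139 247 1 = true :=
  ⟨(b (a (b (a (l 16764584) (b (l 16761568) (l 16763632))) (a (b (l 16762472) (a (l 16763752) (a (l 16764976) (b (l 16775744) (l 16772808))))) (b (a (l 16764904) (a (a (l 16773744) (b (l 16776272) (l 143042536871))) (b (l 33520868711) (l 289608295175)))) (a (b (a (l 16771296) (b (l 16771760) (l 148411237479))) (a (b (l 143042531991) (l 153243072391)) (l 4))) (l 4))))) (b (a (b (a (l 16763968) (b (l 16765048) (b (l 16765808) (a (l 16776416) (l 33520868279))))) (a (b (l 16765512) (a (l 16771360) (b (l 16772464) (l 150021849671)))) (b (a (b (l 16776888) (l 145190014551)) (l 292292649047)) (l 4)))) (b (a (b (a (l 16771432) (b (l 141968792039) (l 151095590871))) (a (l 278870878839) (l 4))) (l 4)) (l 4))) (a (a (b (b (b (l 278870883319) (l 4)) (l 4)) (l 4)) (l 4)) (l 4)))) (a (b (a (b (a (a (l 16770696) (b (l 16765744) (b (l 16776952) (l 147337496263)))) (b (a (b (l 16776760) (l 142505666695)) (l 286387070375)) (l 301419448935)))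 (a (b (a (b (l 141968796135) (l 152169331079)) (l 4)) (l 4)) (l 4))) (l 4)) (l 4)) (l 4))), by decide +kernel⟩

def k51_pp_022_t : ∃ t, chk3 f_pp_022_t t 35 60 1 = true :=
  ⟨(a (b (b (a (a (l 16690760) (l 16698120)) (a (l 16705200) (l 16712008))) (a (a (l 16702976) (l 16710104)) (b (l 16717328) (l 16712848)))) (a (b (b (l 16705608) (a (l 16719200) (l 16726056))) (a (b (l 16725984) (l 16732944)) (b (l 16732728) (l 16739576)))) (b (b (a (l 16726248) (l 16732696)) (a (l 16732648) (l 16738984))) (b (a (l 16739216) (l 16745440)) (a (l 16745952) (l 16741584)))))) (b (a (b (a (l 16718544) (l 16724792)) (a (l 16719432) (l 16725496))) (b (a (l 16730760) (l 16725984)) (a (b (l 16738952) (l 16744616)) (b (l 16744520) (l 16750088))))) (b (a (a (b (l 16738880) (l 16745064)) (b (l 16744800) (l 16750880))) (a (b (l 16750440) (l 16745944)) (b (l 16745336) (l 16756472)))) (a (a (b (l 16740928) (b (l 16756280) (l 16759584))) (b (l 16751888) (b (l 16751432) (l 16759920)))) (b (a (b (l 16761024)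 (l 16753656)) (b (l 16755752) (l 16764064))) (a (a (l 16762328) (l 16764936)) (b (a (l 16760664) (l 16763168)) (a (b (l 16763032) (l 16764624)) (b (a (l 16764896) (b (l 16765736) (a (l 16776688) (l 143042532615)))) (a (b (l 16771296) (a (l 16771728) (l 147337495175))) (b (l 267596588615) (l 4)))))))))))), by decide +kernel⟩

def k52_pp_022_t : ∃ t, chk3 f_pp_022_t t 70 122 1 = true :=
  ⟨(a (b (a (b (l 16740072) (l 16736872)) (b (l 16736104) (b (l 16751960) (l 16755584)))) (b (a (a (l 16753176) (l 16745904)) (b (l 16748752) (l 16757696))) (a (b (l 16755216) (l 16759040)) (b (l 16761424) (a (l 16758440) (l 16766696)))))) (b (a (b (l 16747608) (a (l 16747912) (l 16750928))) (b (b (l 16757144) (l 16750096)) (b (l 16758816) (l 16762328)))) (b (a (a (l 16760392) (b (l 16766784) (l 16759920))) (b (a (l 16759200) (l 16767288)) (a (a (l 16762088) (l 16763512)) (b (l 16772576) (a (b (l 16765368) (a (l 16765920) (b (l 16776856) (l 144653146791)))) (b (a (l 16771592) (b (l 145190017303)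 (l 4))) (l 283702712311))))))) (a (b (a (l 16760672) (l 16768832)) (a (b (l 16763464) (a (l 16764608) (b (l 16765592) (a (l 16771392) (b (l 16771808) (l 148948109943)))))) (b (a (a (l 16765280) (b (l 16776024) (l 16772936))) (b (a (l 16771464) (b (l 16771856) (l 150558722023))) (l 279944622583))) (a (b (a (b (l 16776896) (l 145726887367)) (l 285313327991)) (l 4)) (l 4))))) (b (a (b (a (l 16764816) (b (l 16771008) (a (l 16771528) (b (l 16772880) (l 151632463271))))) (a (a (a (l 16773936) (b (l 16776496) (l 145726886519))) (b (l 32447126823) (l 288534552759))) (b (l 281555229367) (l 4)))) (b (a (b (a (a (l 16771792) (l 146800627559)) (l 292292648423)) (l 4)) (l 4)) (l 4))) (l 4)))))), by decide +kernel⟩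

def k53_pp_022_t : ∃ t, chk3 f_pp_022_t t 71 244 1 = true :=
  ⟨(a (b (a (b (l 16752440) (l 16761064)) (b (l 16763208) (a (l 16759944) (l 16762616)))) (a (b (l 16764480) (a (l 16761312) (b (l 16763192) (l 30299643879)))) (b (a (a (l 16762648) (l 16763992)) (b (b (l 16764704) (a (l 16775376) (l 30836514631))) (a (b (l 16765736) (b (l 16774176) (a (l 16776920) (l 148948111095)))) (b (a (b (l 16776952) (l 146263759047)) (l 281555231783)) (l 4))))) (a (b (a (l 16765216) (b (l 16773936) (a (b (l 16776888) (l 16772600)) (l 278870877975)))) (a (b (b (l 16771488) (a (l 16776856) (l 147874370055))) (l 272428431543)) (l 4))) (b (a (b (l 274575909207) (l 4)) (l 4)) (l 4)))))) (b (a (a (b (l 16761936) (b (l 16764400) (a (l 16770648) (b (a (l 16776448) (l 31910256183)) (a (l 143579408663) (l 284239585591)))))) (b (b (l 16763704) (a (l 16764688) (b (l 16765552) (a (l 16766048) (l 31910255479))))) (b (a (b (l 16771144) (a (l 16776856) (l 146263754695))) (b (a (l 144116278839) (l 4)) (l 4)))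 (a (l 280481483079) (l 4))))) (b (a (b (a (l 16770824) (b (a (l 16776608) (l 142505667703)) (l 266522851511))) (a (b (a (l 16771672) (l 146800624983)) (l 279407745207)) (l 4))) (b (a (l 281555223559) (l 4)) (l 4))) (l 4))) (a (b (a (b (a (b (b (l 31373385671) (a (l 16776984) (l 150021852135))) (l 276186521207)) (l 4)) (l 4)) (l 4)) (l 4)) (l 4)))), by decide +kernel⟩

def k54_pp_022_t : ∃ t, chk3 f_pp_022_t t 71 245 1 = true :=
  ⟨(a (b (a (b (a (b (l 16763944) (a (l 16765016) (a (l 31373385911) (b (l 16776744) (a (l 146800627863) (l 152706203767)))))) (b (a (a (l 16765648) (b (l 16776376) (l 143042537527))) (b (a (l 31910256119) (l 148948106391)) (l 286923936407))) (a (b (a (b (l 16771864) (l 150558722807)) (l 4)) (l 4)) (l 4)))) (a (b (a (b (b (l 16771344) (a (l 16776712) (l 145726887815))) (a (a (l 16773152) (l 147874368775)) (l 4))) (l 286387061239)) (l 4)) (l 4))) (l 4)) (l 4)) (l 4)), by decide +kernel⟩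

def k55_pp_022_t : ∃ t, chk3 f_pp_022_t t 35 123 1 = true :=
  ⟨(a (b (a (b (a (b (b (l 16761936) (l 16763880)) (a (l 16765256) (b (l 16762120) (b (l 16763584) (l 16764568))))) (b (a (l 16767504) (a (b (l 16774040) (l 16773304)) (b (l 16765032) (b (a (l 16771320) (a (l 16773096) (l 146263755927))) (b (l 270817818487) (l 292829518007)))))) (a (b (a (l 16764400) (b (l 16765416) (a (l 16766000) (a (l 16771728) (l 145190014871))))) (a (b (l 16771072) (a (l 32447126999) (a (l 146800626503) (l 152706201719)))) (b (a (b (l 16773160) (l 150558721079)) (l 4)) (l 4)))) (b (a (b (a (b (l 16776768) (l 143042534343)) (l 279407749415)) (l 292829515719)) (l 4)) (l 4))))) (a (b (a (b (l 16762976) (a (l 16764184) (b (l 16765232) (a (l 16765840) (b (l 16776824) (l 144116274599)))))) (b (a (l 16770512) (b (a (l 16765920) (b (l 16776888) (l 145190015671))) (a (b (l 16771800) (l 149484979975)) (l 4)))) (a (b (a (l 16772864) (b (l 144653145143) (l 4))) (l 289071420647)) (l 4)))) (a (b (a (b (l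 16770920) (a (l 16771496) (b (l 143042533159) (l 152169332071)))) (b (a (a (l 32983997751) (l 146263755047)) (l 299271969559)) (l 4))) (a (b (l 287460808567) (l 4)) (l 4))) (l 4))) (b (a (b (a (l 292292640135) (l 4)) (l 4)) (l 4)) (l 4)))) (b (a (b (a (b (a (b (l 16773192) (a (b (l 16776832) (l 144116275399)) (l 282092103239))) (a (a (l 276723398599) (l 290682033079)) (l 4))) (a (l 296050735335) (l 4))) (l 4)) (l 4)) (l 4)) (l 4))) (l 4)) (l 4)), by decide +kernel⟩

def k56_pp_022_t : ∃ t, chk3 f_pp_022_t t 68 248 1 = true :=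
  ⟨(a (b (a (a (l 16735768) (l 16744936)) (b (l 16748392) (a (l 16756352) (l 16760128)))) (a (b (l 16748720) (b (l 16753592) (l 16755976))) (b (a (l 16761016) (l 16754280)) (a (l 16760480) (l 16764200))))) (b (a (a (b (l 16759264) (l 16763832)) (b (l 16762936) (l 16762232))) (b (a (l 16756056) (l 16764832)) (a (l 16765808) (b (l 16768192) (a (l 16764328) (b (l 16770736) (a (l 16774016) (b (l 140895053255) (l 152169329671))))))))) (a (b (a (l 16763200) (b (l 16760416) (l 16767960))) (a (b (l 16766680) (a (l 16762864) (a (l 16764224) (l 16765120)))) (b (a (l 16764136) (b (l 16765336) (a (l 16771272) (b (a (l 16776896) (l 16771280)) (a (l 147337498791) (l 4)))))) (a (b (b (l 16765584) (a (l 16776208) (a (l 16776864) (l 16771440)))) (a (b (l 16771520) (b (l 139821308407) (l 147337496999))) (l 297661358551))) (a (a (b (l 216593853319) (l 4)) (l 308935642295)) (l 4)))))) (b (a (b (l 16769216) (a (b (l 16764808) (a (l 16765512) (a (l 16771400) (b (l 16776808) (l 16772424))))) (b (a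 (l 16771328) (b (l 139821312263) (l 151095588167))) (a (l 283165848743) (l 4))))) (b (a (b (a (l 16765592) (b (l 16776656) (l 140358182871))) (b (a (l 16771632) (l 151632458759)) (l 287997687687))) (b (a (l 286387070951) (l 4)) (l 4))) (l 4))) (a (b (a (b (a (b (l 16771576) (a (l 16777104) (l 152169334775))) (l 300345712487)) (l 4)) (l 4)) (l 4)) (l 4)))))), by decide +kernel⟩

def k57_pp_022_t : ∃ t, chk3 f_pp_022_t t 136 249 1 = true :=
  ⟨(b (a (b (a (l 16752408) (l 16761472)) (a (l 16762496) (b (l 16759840) (l 16767504)))) (b (a (l 16765224) (b (l 16767728) (a (l 16763944) (b (l 16765176) (a (l 16771136) (b (l 35131481191) (l 236994942855))))))) (a (a (b (l 16773128) (b (l 16764448) (b (l 16765352) (l 35668352391)))) (b (l 16764496) (b (a (l 16771072) (b (l 16772936) (l 294440139735))) (b (a (a (l 16776952) (l 145726885863)) (l 4)) (l 310546257543))))) (b (a (b (b (l 16765432) (a (l 16776056) (l 16772960))) (a (b (l 16771400) (l 196729631639)) (l 292292650663))) (b (a (b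 (a (l 16777000) (l 147874368887)) (l 309472519687)) (l 4)) (l 4))) (a (b (l 312693737879) (l 4)) (l 4)))))) (a (b (a (b (l 16766160) (a (l 16772904) (l 16764312))) (b (a (l 16763752) (b (l 16765008) (a (l 16765760) (b (l 16771576) (a (l 16771800) (l 154316816423)))))) (a (b (l 16773424) (a (b (l 16766032) (a (l 16776872) (l 143042532183))) (b (a (l 16777104) (l 153243074903)) (l 4)))) (b (b (a (a (l 16776904) (l 144116273719)) (l 4)) (l 308935645415)) (l 4))))) (a (b (a (l 16772744) (b (a (l 16765688) (b (l 16771528) (a (l 16777080) (l 152169333207)))) (b (a (a (l 16776848) (l 142505661559)) (l 4)) (l 306788162375)))) (a (b (a (b (l 16765960) (a (l 16776824) (l 141431920023))) (b (a (l 16777064) (l 151632462599)) (l 4))) (a (l 303566938775) (l 4))) (l 4))) (b (a (b (l 310546265943) (l 4)) (l 4)) (l 4)))) (b (a (b (a (b (a (b (l 16766096) (a (l 16776928) (l 145190015255))) (l 289071428423)) (l 311619996663)) (l 4)) (l 4)) (l 4)) (l 4)))), by decide +kernel⟩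

def k58_pp_022_t : ∃ t, chk3 f_pp_022_t t 137 249 1 = true :=
  ⟨(b (a (b (a (b (a (b (l 16764624) (b (l 16765512) (a (l 16776128) (l 35131480919)))) (b (a (l 16771200) (a (a (l 16775632) (l 140358187703)) (l 228941888759))) (a (b (b (l 16772488) (l 146263755335)) (l 313230615463)) (l 4)))) (a (b (a (b (l 16771464) (b (l 16771816) (l 145190013831))) (l 294977004599)) (l 313767479111)) (l 4))) (l 4)) (l 4)) (l 4)) (l 4)), by decide +kernel⟩

def k59_pp_022_t : ∃ t, chk3 f_pp_022_t t 69 124 1 = true :=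
  ⟨(b (a (b (a (b (a (b (l 16761960) (l 16772032)) (b (a (l 16764520) (b (l 16770888) (a (a (l 16766120) (l 34057739415)) (l 277260269511)))) (a (b (a (l 16765752) (b (l 16776784) (l 143042535911))) (b (a (l 16773040) (l 308935648119)) (l 292829519383))) (b (l 296587612551) (l 4))))) (a (b (a (a (l 16765112) (b (l 16775896) (b (l 16776720) (l 141431923847)))) (b (a (l 34057739911) (b (l 142505665335) (l 153243070855))) (l 294977005671))) (a (b (b (a (l 16776928) (l 152706200263)) (l 290682036375)) (l 4)) (l 4))) (l 4))) (b (a (b (a (b (a (b (l 34057739079) (l 149484977543)) (l 4)) (l 4)) (l 4)) (l 4)) (l 4)) (l 4))) (l 4)) (l 4)) (l 4)), by decide +kernel⟩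

def k60_pp_022_t : ∃ t, chk3 f_pp_022_t t 34 125 1 = true :=
  ⟨(l 4), by decide +kernel⟩

def k61_pp_022_t : ∃ t, chk3 f_pp_022_t t 35 62 1 = true :=
  ⟨(l 4), by decide +kernel⟩

def k62_pp_022_t : ∃ t, chk3 f_pp_022_t t 17 63 1 = true :=
  ⟨(l 4), by decide +kernel⟩

def k63_pp_022_t : ∃ t, chk3 f_pp_022_t t 18 28 1 = true :=
  ⟨(a (b (a (b (l 16670184) (l 16672920)) (b (l 16697976) (l 16699520))) (a (b (l 16677624) (l 16663384)) (b (l 16682048) (l 16687560)))) (b (a (a (l 16688512) (l 16685056)) (b (l 16693720) (l 16690192))) (a (b (l 16703408) (b (l 16706472) (l 16709168))) (b (l 16706096) (a (l 16720424) (l 16741472)))))), by decide +kernel⟩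

def k64_pp_022_t : ∃ t, chk3 f_pp_022_t t 18 29 1 = true :=
  ⟨(a (b (a (b (a (l 16686816) (l 16699296)) (a (l 16677496) (b (l 16707272) (l 16713464)))) (b (b (l 16693040) (l 16697416)) (a (b (l 16718272) (l 16724144)) (b (l 16728296) (l 16733856))))) (a (b (a (b (l 16709008) (l 16716896)) (b (l 16720344) (l 16727888))) (b (a (l 16714968) (a (l 16733536) (l 16738616))) (a (a (l 16731952) (l 16737344)) (a (l 16742504) (l 16736928))))) (b (b (a (l 16730696) (l 16740096)) (a (l 16727432) (l 16736512))) (a (b (a (l 16743464) (l 16748072)) (a (l 16741608) (l 16746048))) (b (a (l 16731480) (l 16735624)) (a (l 16752888) (b (l 16762632) (l 16745896)))))))) (b (a (b (a (l 16709800) (l 16718376)) (a (b (l 16737368) (l 16742632)) (b (l 16745520) (l 16729512)))) (b (a (l 16726040) (l 16732808)) (a (b (l 16731792) (l 16736472)) (b (l 16759128) (l 16742560))))) (b (a (a (b (l 16727592) (l 16747288)) (b (l 16735144) (b (l 16739800) (l 16743104)))) (b (a (l 16741816) (l 16747632)) (a (a (l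 16746304) (l 16749280)) (b (l 16751848) (a (l 16774552) (b (l 16776224) (l 231089368055))))))) (a (b (a (b (l 16739552) (l 16753824)) (a (l 16757208) (a (l 16749184) (l 16750760)))) (a (b (l 16761704) (a (l 16749616) (l 16770136))) (b (a (a (l 16751584) (l 16753208)) (b (l 16765032) (a (l 30836502071) (l 243974260375)))) (a (b (a (l 16754576) (a (l 16766160) (l 131768227047))) (a (b (l 16766416) (l 249342971751)) (l 4))) (b (l 251490435927) (l 4)))))) (b (a (b (a (l 16751280) (l 16764584)) (a (b (l 16753904) (a (l 16775936) (l 129083869255))) (b (a (l 16766328) (l 243437386535)) (l 267059690135)))) (b (a (b (a (l 16776272) (l 126936383479)) (l 239679285783)) (l 4)) (l 4))) (a (b (a (b (a (l 237531815623) (l 4)) (l 4)) (l 4)) (l 4)) (l 4))))))), by decide +kernel⟩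

def k65_pp_022_t : ∃ t, chk3 f_pp_022_t t 19 14 1 = true :=
  ⟨(b (a (b (a (b (l 16691992) (l 16710536)) (b (l 16693736) (l 16692528))) (a (b (l 16706608) (a (l 16721336) (l 16723048))) (b (l 16715928) (a (l 16725608) (l 16729016))))) (b (a (b (l 16698544) (l 16698592)) (b (l 16706192) (l 16707496))) (a (b (b (l 16734248) (l 16743472)) (a (l 16733248) (l 16738208))) (b (l 16728128) (b (l 16742488) (a (l 16748296) (l 16744096))))))) (b (a (a (b (a (l 16734864) (l 16737136)) (a (b (l 16743656) (l 16747800)) (b (l 16746400) (l 16751840)))) (b (b (l 16738544) (a (l 16743624) (l 16747688))) (b (a (l 16749928) (a (l 16774088) (l 34594561607))) (a (b (l 16754320) (a (l 16755864) (l 227331245607))) (b (l 223036270759) (l 4)))))) (b (a (b (a (l 16745168) (l 16771528)) (a (l 16752552) (b (l 16745128) (l 217130686151)))) (b (a (b (l 16775504) (l 107072108471)) (l 248806045735)) (l 4))) (a (b (a (b (l 214446355719) (l 4)) (l 4)) (l 4)) (l 4)))) (a (b (a (b (a (b (l 16751336) (l 29225883527))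 (b (b (l 16754904) (a (l 16776120) (l 227868131095))) (a (l 226257530391) (l 4)))) (a (b (a (b (l 16775752) (l 33520841623)) (l 232699959895)) (a (l 260617235879) (l 4))) (l 4))) (b (a (b (l 260080342423) (l 4)) (l 4)) (l 4))) (l 4)) (l 4)))), by decide +kernel⟩

def k66_pp_022_t : ∃ t, chk3 f_pp_022_t t 36 120 1 = true :=
  ⟨(a (b (a (a (l 16731448) (b (l 16744632) (l 16749696))) (a (b (l 16749656) (l 16754632)) (b (l 16754440) (l 16759328)))) (a (a (b (l 16749840) (l 16755320)) (b (l 16754920) (l 16749824))) (a (b (l 16749280) (l 16759824)) (b (l 16753888) (l 16764344))))) (b (a (a (b (l 16758984) (l 16753304)) (b (l 16763304) (l 16757536))) (b (a (l 16756904) (l 16760768)) (a (a (l 16760560) (l 16762504)) (b (l 16769400) (a (b (l 16754496) (l 30299637463)) (b (b (l 16768992) (l 136063198327)) (l 258469773527))))))) (a (b (a (l 16763512) (a (l 16761400) (b (l 16772672) (b (l 16774520) (l 16765272))))) (a (b (l 16762088) (a (l 16763648) (b (l 16765072) (a (l 16776336) (b (l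 16771704) (l 140358170343)))))) (b (a (b (l 16754056) (l 29225898823)) (b (a (l 16776488) (b (l 16771808) (l 140358169063))) (a (l 254174815271) (l 4)))) (a (b (a (b (l 16776728) (l 138210690647)) (l 261691004423)) (l 4)) (l 4))))) (b (a (b (a (l 16753672) (b (l 16765464) (a (l 16776632) (l 137136941975)))) (a (b (l 29762768071) (a (l 136063215783) (l 262764744743))) (b (l 258469774967) (l 4)))) (b (a (b (a (l 135526333015) (l 4)) (l 4)) (l 4)) (l 4))) (l 4))))), by decide +kernel⟩

def k67_pp_022_t : ∃ t, chk3 f_pp_022_t t 72 121 1 = true :=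
  ⟨(b (a (b (a (l 16755720) (l 16760288)) (a (b (l 16754808) (l 16762992)) (a (l 16765144) (b (l 16771296) (l 16763688))))) (b (a (a (l 16758896) (l 16766408)) (b (a (l 16762016) (l 16764184)) (a (l 16772600) (b (a (l 16765680) (b (l 16776832) (l 140895042567))) (a (b (a (l 16776896) (l 16770488)) (l 265985974407)) (l 4)))))) (a (b (a (l 16763104) (b (l 16764640) (a (l 16765496) (a (l 16771504) (b (l 16776952) (l 144116270007)))))) (a (b (l 16770480) (a (b (l 16765760) (l 30836513079)) (b (b (l 16772144) (l 142505657783)) (l 274575906679)))) (b (a (b (l 31373383207) (l 262764750503)) (l 4)) (l 4)))) (b (a (b (a (b (l 16765936) (a (l 16776832) (l 16770912))) (l 259006658199)) (a (l 267059712807) (l 4))) (l 4)) (l 4))))) (a (b (a (b (l 16765968) (a (l 16762536) (b (l 16764184) (a (l 16765104) (b (l 16765904) (b (l 16771656) (l 142505665351))))))) (b (a (l 16769544) (b (a (l 16765304) (a (l 16771368) (b (l 16776832) (l 143579400375)))) (a (b (l 30836514023) (l 260080397543)) (l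 274575903095)))) (a (b (a (l 29762772343) (b (b (l 16771712) (l 142505659271)) (l 271891553623))) (a (b (a (l 141431920695) (l 282092102327)) (l 4)) (l 4))) (l 4)))) (a (b (a (a (l 16773176) (b (l 16765440) (b (a (l 16776760) (l 143042531783)) (l 269207200583)))) (b (a (b (l 16771440) (a (l 31910255383) (l 275649652151))) (l 273502162679)) (l 4))) (a (b (a (b (a (l 16773096) (l 147337494567)) (l 4)) (l 4)) (l 4)) (l 4))) (l 4))) (b (a (b (a (b (a (l 265985975095) (l 4)) (l 4)) (l 4)) (l 4)) (l 4)) (l 4)))), by decide +kernel⟩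

def k68_pp_022_t : ∃ t, chk3 f_pp_022_t t 73 121 1 = true :=
  ⟨(b (a (b (a (b (a (b (l 16772144) (a (b (l 16776584) (l 138210692359)) (l 260617264135))) (b (a (l 252564208087) (l 4)) (l 4))) (a (b (l 269207188647) (l 4)) (l 4))) (l 4)) (l 4)) (l 4)) (l 4)), by decide +kernel⟩

def k69_pp_022_t : ∃ t, chk3 f_pp_022_t t 37 60 1 = true :=
  ⟨(b (a (b (a (b (a (b (l 16752832) (a (l 16754144) (a (l 16765880) (b (l 16776704) (l 136063197383))))) (b (a (b (l 16754896) (l 31373376359)) (b (l 133378840871) (l 4))) (a (l 252027320487) (l 4)))) (a (b (a (b (l 30299635927) (l 248806103943)) (l 271891537463)) (l 4)) (l 4))) (l 4)) (l 4)) (l 4)) (l 4)), by decide +kernel⟩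

def k70_pp_022_t : ∃ t, chk3 f_pp_022_t t 18 61 1 = true :=
  ⟨(l 4), by decide +kernel⟩

def k71_pp_022_t : ∃ t, chk3 f_pp_022_t t 19 30 1 = true :=
  ⟨(l 4), by decide +kernel⟩

def k72_pp_022_t : ∃ t, chk3 f_pp_022_t t 9 31 1 = true :=
  ⟨(l 4), by decide +kernel⟩

def k73_pp_022_t : ∃ t, chk3 f_pp_022_t t 10 6 1 = true :=
  ⟨(b (b (a (a (b (a (l 16181160) (l 16176560)) (a (l 16265320) (l 16263208))) (b (l 16186984) (a (l 16264664) (l 16269600)))) (a (b (l 16188648) (l 16241416)) (b (l 16214136) (l 16313040)))) (a (a (b (a (l 16345720) (l 16346040)) (a (l 16422000) (l 16424736))) (b (a (l 16349864) (l 16357096)) (a (l 16430904) (l 16440408)))) (a (b (a (l 16367656) (l 16381440)) (a (l 16453168) (l 16469080))) (b (l 16366048) (l 16435768))))) (a (b (a (b (a (l 16493816) (l 16498952)) (a (l 16560816) (l 16568328))) (b (a (l 16507440) (l 16519200)) (a (l 16579136) (l 16593144)))) (b (a (a (l 16601640) (l 16611528)) (a (l 16624648) (l 16640904))) (a (a (b (l 16665320) (l 16691944))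 (b (l 16676992) (l 16704808))) (a (l 16661936) (l 16683072))))) (b (a (b (a (l 16534144) (l 16552184)) (a (l 16610272) (l 16630416))) (b (a (l 16573224) (l 16597168)) (b (l 16625320) (l 16664696)))) (b (a (a (l 16660208) (l 16661504)) (a (l 16686632) (b (l 16716824) (l 53921873079)))) (a (a (b (l 16730760) (l 16719216)) (b (l 16733384) (b (l 16731192) (l 16704784)))) (b (a (a (l 16750456) (l 16718360)) (l 4)) (l 4))))))), by decide +kernel⟩

def k74_pp_022_t : ∃ t, chk3 f_pp_022_t t 11 6 1 = true :=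
  ⟨(b (a (b (a (b (l 16252232) (l 16355032)) (b (l 16302192) (l 16408600))) (a (b (l 16432864) (l 16485456)) (b (l 16490000) (l 16546152)))) (b (a (b (l 16363288) (l 16472992)) (b (l 16434768) (l 16526512))) (a (b (l 16536712) (l 16596144)) (b (l 16593232) (b (a (l 16714104) (l 16732208)) (a (l 16738936) (l 16757504))))))) (a (b (a (b (l 16554456) (a (l 16666176) (a (l 16689384) (l 16683184)))) (b (b (l 16658728) (l 16662168)) (a (b (l 16709056) (l 16717416)) (b (l 16724176) (l 4))))) (b (a (a (b (l 16743576) (l 119420055719)) (b (l 119420081175) (l 4))) (l 4)) (l 4))) (b (b (a (b (a (l 16733880) (l 16744912)) (a (l 16728920) (l 16744480))) (a (l 116735666407) (l 4))) (l 4)) (l 4)))), by decide +kernel⟩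

def k75_pp_022_t : ∃ t, chk3 f_pp_022_t t 5 7 1 = true :=
  ⟨(b (b (a (a (b (a (a (b (l 16717040) (l 16719576)) (b (l 16710128) (l 16734832))) (b (a (l 16727312) (b (l 16740480) (l 16731512))) (a (a (l 16747720) (l 90429083143)) (b (l 86670952327) (l 4))))) (a (b (a (b (l 16736136) (l 16746560)) (b (a (l 16768912) (l 16733160)) (a (l 16736768) (l 4)))) (a (b (a (l 16773592) (l 100092763495)) (a (l 241826741831) (l 4))) (l 4))) (b (a (l 239679195959) (l 4)) (l 4)))) (b (a (b (a (b (l 82912887751) (l 4)) (l 4)) (l 4)) (l 4)) (l 4))) (l 4)) (l 4)) (l 4)), by decide +kernel⟩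

def k76_pp_022_t : ∃ t, chk3 f_pp_022_t t 3 2 1 = true :=
  ⟨(a (b (a (b (a (l 6) (b (l 6) (a (l 6) (l 14840968)))) (a (b (a (l 6) (l 15013552)) (a (l 15252280) (l 15316936))) (b (a (l 15083768) (l 15165352)) (a (l 15392944) (l 15479512))))) (a (b (b (a (l 6) (l 14682088)) (a (l 14928312) (l 15026248))) (b (a (l 15257496) (l 15359376)) (a (l 15575824) (l 15681056)))) (a (b (b (l 14786008) (l 15133952)) (b (l 15470152) (l 15794376))) (l 2)))) (a (b (a (b (a (l 15539832) (l 15610472)) (a (l 15817000) (l 15893152))) (b (a (l 15691704) (l 15782720)) (a (l 15979168) (l 16074256)))) (a (b (a (l 15956760) (l 16038088)) (a (b (l 16273672) (l 16396600)) (b (l 16358776) (l 16484144)))) (b (a (l 16128592) (l 16206528)) (a (b (l 16452576) (l 16559120)) (b (l 16554304) (l 16556552)))))) (b (a (b (a (l 15882720) (l 15990880)) (a (l 16135664) (l 16225512))) (b (a (l 16106384) (l 16207440)) (a (l 16301040) (l 16382400)))) (a (b (a (l 16292080) (l 16384440)) (a (b (a (l 16635264) (l 16649152))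 (b (l 45331796279) (l 16717392))) (b (b (l 16673072) (l 16721512)) (l 4)))) (b (a (b (l 16580608) (a (l 16693840) (l 16742072))) (b (a (l 16690496) (l 16733792)) (l 16705488))) (a (b (l 16702304) (l 4)) (l 4))))))) (b (l 2) (b (l 2) (b (l 2) (l 4))))), by decide +kernel⟩

def k77_pp_022_t : ∃ t, chk3 f_pp_022_t t 3 3 1 = true :=
  ⟨(b (b (a (a (a (b (a (a (l 16447432) (l 16490888)) (b (l 16563912) (b (l 16652744) (a (l 16728520) (l 16765896))))) (a (b (a (l 16656184) (b (l 16737480) (l 16766696))) (a (l 164517285655) (l 4))) (a (b (l 119420101447) (l 4)) (l 4)))) (b (a (b (a (l 16657688) (l 16641720)) (a (b (l 16760392) (l 16755088)) (l 16725712))) (b (b (a (l 16747568) (l 16765592)) (l 16711128)) (l 4))) (l 4))) (l 4)) (l 4)) (l 4)) (l 4)), by decide +kernel⟩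

theorem s78_pp_022_t : ∃ t, chk3 f_pp_022_t t 3 1 1 = true := ex3_b k76_pp_022_t k77_pp_022_t

theorem s79_pp_022_t : ∃ t, chk3 f_pp_022_t t 5 6 1 = true := ex3_a k73_pp_022_t k74_pp_022_t

theorem s80_pp_022_t : ∃ t, chk3 f_pp_022_t t 5 3 1 = true := ex3_b s79_pp_022_t k75_pp_022_t

theorem s81_pp_022_t : ∃ t, chk3 f_pp_022_t t 36 121 1 = true := ex3_a k67_pp_022_t k68_pp_022_t

theorem s82_pp_022_t : ∃ t, chk3 f_pp_022_t t 36 60 1 = true := ex3_b k66_pp_022_t s81_pp_022_t

theorem s83_pp_022_t : ∃ t, chk3 f_pp_022_t t 18 60 1 = true := ex3_a s82_pp_022_t k69_pp_022_t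

theorem s84_pp_022_t : ∃ t, chk3 f_pp_022_t t 18 30 1 = true := ex3_b s83_pp_022_t k70_pp_022_t

theorem s85_pp_022_t : ∃ t, chk3 f_pp_022_t t 9 30 1 = true := ex3_a s84_pp_022_t k71_pp_022_t

theorem s86_pp_022_t : ∃ t, chk3 f_pp_022_t t 9 15 1 = true := ex3_b s85_pp_022_t k72_pp_022_t

theorem s87_pp_022_t : ∃ t, chk3 f_pp_022_t t 18 14 1 = true := ex3_b k63_pp_022_t k64_pp_022_t

theorem s88_pp_022_t : ∃ t, chk3 f_pp_022_t t 9 14 1 = true := ex3_a s87_pp_022_t k65_pp_022_t

theorem s89_pp_022_t : ∃ t, chk3 f_pp_022_t t 9 7 1 = true := ex3_b s88_pp_022_t s86_pp_022_t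

theorem s90_pp_022_t : ∃ t, chk3 f_pp_022_t t 68 249 1 = true := ex3_a k57_pp_022_t k58_pp_022_t

theorem s91_pp_022_t : ∃ t, chk3 f_pp_022_t t 68 124 1 = true := ex3_b k56_pp_022_t s90_pp_022_t

theorem s92_pp_022_t : ∃ t, chk3 f_pp_022_t t 34 124 1 = true := ex3_a s91_pp_022_t k59_pp_022_t

theorem s93_pp_022_t : ∃ t, chk3 f_pp_022_t t 34 62 1 = true := ex3_b s92_pp_022_t k60_pp_022_t

theorem s94_pp_022_t : ∃ t, chk3 f_pp_022_t t 17 62 1 = true := ex3_a s93_pp_022_t k61_pp_022_t

theorem s95_pp_022_t : ∃ t, chk3 f_pp_022_t t 17 31 1 = true := ex3_b s94_pp_022_t k62_pp_022_t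

theorem s96_pp_022_t : ∃ t, chk3 f_pp_022_t t 71 122 1 = true := ex3_b k53_pp_022_t k54_pp_022_t

theorem s97_pp_022_t : ∃ t, chk3 f_pp_022_t t 35 122 1 = true := ex3_a k52_pp_022_t s96_pp_022_t

theorem s98_pp_022_t : ∃ t, chk3 f_pp_022_t t 35 61 1 = true := ex3_b s97_pp_022_t k55_pp_022_t

theorem s99_pp_022_t : ∃ t, chk3 f_pp_022_t t 35 30 1 = true := ex3_b k51_pp_022_t s98_pp_022_t

theorem s100_pp_022_t : ∃ t, chk3 f_pp_022_t t 69 247 1 = true := ex3_a k49_pp_022_t k50_pp_022_t

theorem s101_pp_022_t : ∃ t, chk3 f_pp_022_t t 69 123 1 = true := ex3_b k48_pp_022_t s100_pp_022_t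

theorem s102_pp_022_t : ∃ t, chk3 f_pp_022_t t 34 123 1 = true := ex3_a k47_pp_022_t s101_pp_022_t

theorem s103_pp_022_t : ∃ t, chk3 f_pp_022_t t 34 61 1 = true := ex3_b k46_pp_022_t s102_pp_022_t

theorem s104_pp_022_t : ∃ t, chk3 f_pp_022_t t 34 30 1 = true := ex3_b k45_pp_022_t s103_pp_022_t

theorem s105_pp_022_t : ∃ t, chk3 f_pp_022_t t 17 30 1 = true := ex3_a s104_pp_022_t s99_pp_022_t

theorem s106_pp_022_t : ∃ t, chk3 f_pp_022_t t 17 15 1 = true := ex3_b s105_pp_022_t s95_pp_022_t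

theorem s107_pp_022_t : ∃ t, chk3 f_pp_022_t t 264 505 1 = true := ex3_b k38_pp_022_t k39_pp_022_t

theorem s108_pp_022_t : ∃ t, chk3 f_pp_022_t t 132 505 1 = true := ex3_a s107_pp_022_t k40_pp_022_t

theorem s109_pp_022_t : ∃ t, chk3 f_pp_022_t t 132 252 1 = true := ex3_b k37_pp_022_t s108_pp_022_t

theorem s110_pp_022_t : ∃ t, chk3 f_pp_022_t t 66 252 1 = true := ex3_a s109_pp_022_t k41_pp_022_t

theorem s111_pp_022_t : ∃ t, chk3 f_pp_022_t t 66 126 1 = true := ex3_b s110_pp_022_t k42_pp_022_t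

theorem s112_pp_022_t : ∃ t, chk3 f_pp_022_t t 66 63 1 = true := ex3_b s111_pp_022_t k43_pp_022_t

theorem s113_pp_022_t : ∃ t, chk3 f_pp_022_t t 33 63 1 = true := ex3_a s112_pp_022_t k44_pp_022_t

theorem s114_pp_022_t : ∃ t, chk3 f_pp_022_t t 67 250 1 = true := ex3_a k34_pp_022_t k35_pp_022_t

theorem s115_pp_022_t : ∃ t, chk3 f_pp_022_t t 67 125 1 = true := ex3_b s114_pp_022_t k36_pp_022_t

theorem s116_pp_022_t : ∃ t, chk3 f_pp_022_t t 67 62 1 = true := ex3_b k33_pp_022_t s115_pp_022_t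

theorem s117_pp_022_t : ∃ t, chk3 f_pp_022_t t 133 251 1 = true := ex3_b k31_pp_022_t k32_pp_022_t

theorem s118_pp_022_t : ∃ t, chk3 f_pp_022_t t 66 251 1 = true := ex3_a k30_pp_022_t s117_pp_022_t

theorem s119_pp_022_t : ∃ t, chk3 f_pp_022_t t 66 125 1 = true := ex3_b k29_pp_022_t s118_pp_022_t

theorem s120_pp_022_t : ∃ t, chk3 f_pp_022_t t 66 62 1 = true := ex3_b k28_pp_022_t s119_pp_022_t

theorem s121_pp_022_t : ∃ t, chk3 f_pp_022_t t 33 62 1 = true := ex3_a s120_pp_022_t s116_pp_022_t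

theorem s122_pp_022_t : ∃ t, chk3 f_pp_022_t t 33 31 1 = true := ex3_b s121_pp_022_t s113_pp_022_t

theorem s123_pp_022_t : ∃ t, chk3 f_pp_022_t t 524 1014 1 = true := ex3_b k22_pp_022_t k23_pp_022_t

theorem s124_pp_022_t : ∃ t, chk3 f_pp_022_t t 262 1014 1 = true := ex3_a s123_pp_022_t k24_pp_022_t

theorem s125_pp_022_t : ∃ t, chk3 f_pp_022_t t 262 507 1 = true := ex3_b s124_pp_022_t k25_pp_022_t

theorem s126_pp_022_t : ∃ t, chk3 f_pp_022_t t 131 507 1 = true := ex3_a s125_pp_022_t k26_pp_022_t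

theorem s127_pp_022_t : ∃ t, chk3 f_pp_022_t t 263 1012 1 = true := ex3_a k19_pp_022_t k20_pp_022_t

theorem s128_pp_022_t : ∃ t, chk3 f_pp_022_t t 263 506 1 = true := ex3_b s127_pp_022_t k21_pp_022_t

theorem s129_pp_022_t : ∃ t, chk3 f_pp_022_t t 131 506 1 = true := ex3_a k18_pp_022_t s128_pp_022_t

theorem s130_pp_022_t : ∃ t, chk3 f_pp_022_t t 131 253 1 = true := ex3_b s129_pp_022_t s126_pp_022_t

theorem s131_pp_022_t : ∃ t, chk3 f_pp_022_t t 523 1015 1 = true := ex3_b k16_pp_022_t k17_pp_022_t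

theorem s132_pp_022_t : ∃ t, chk3 f_pp_022_t t 261 1015 1 = true := ex3_a k15_pp_022_t s131_pp_022_t

theorem s133_pp_022_t : ∃ t, chk3 f_pp_022_t t 261 507 1 = true := ex3_b k14_pp_022_t s132_pp_022_t

theorem s134_pp_022_t : ∃ t, chk3 f_pp_022_t t 130 507 1 = true := ex3_a k13_pp_022_t s133_pp_022_t

theorem s135_pp_022_t : ∃ t, chk3 f_pp_022_t t 130 253 1 = true := ex3_b k12_pp_022_t s134_pp_022_t

theorem s136_pp_022_t : ∃ t, chk3 f_pp_022_t t 65 253 1 = true := ex3_a s135_pp_022_t s130_pp_022_t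

theorem s137_pp_022_t : ∃ t, chk3 f_pp_022_t t 65 126 1 = true := ex3_b k11_pp_022_t s136_pp_022_t

theorem s138_pp_022_t : ∃ t, chk3 f_pp_022_t t 65 63 1 = true := ex3_b s137_pp_022_t k27_pp_022_t

theorem s139_pp_022_t : ∃ t, chk3 f_pp_022_t t 32 63 1 = true := ex3_a k10_pp_022_t s138_pp_022_t

theorem s140_pp_022_t : ∃ t, chk3 f_pp_022_t t 32 62 1 = true := ex3_a k8_pp_022_t k9_pp_022_t

theorem s141_pp_022_t : ∃ t, chk3 f_pp_022_t t 32 31 1 = true := ex3_b s140_pp_022_t s139_pp_022_t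

theorem s142_pp_022_t : ∃ t, chk3 f_pp_022_t t 16 31 1 = true := ex3_a s141_pp_022_t s122_pp_022_t

theorem s143_pp_022_t : ∃ t, chk3 f_pp_022_t t 33 30 1 = true := ex3_b k6_pp_022_t k7_pp_022_t

theorem s144_pp_022_t : ∃ t, chk3 f_pp_022_t t 32 30 1 = true := ex3_b k4_pp_022_t k5_pp_022_t

theorem s145_pp_022_t : ∃ t, chk3 f_pp_022_t t 16 30 1 = true := ex3_a s144_pp_022_t s143_pp_022_t

theorem s146_pp_022_t : ∃ t, chk3 f_pp_022_t t 16 15 1 = true := ex3_b s145_pp_022_t s142_pp_022_t

theorem s147_pp_022_t : ∃ t, chk3 f_pp_022_t t 8 15 1 = true := ex3_a s146_pp_022_t s106_pp_022_t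

theorem s148_pp_022_t : ∃ t, chk3 f_pp_022_t t 8 14 1 = true := ex3_a k2_pp_022_t k3_pp_022_t

theorem s149_pp_022_t : ∃ t, chk3 f_pp_022_t t 8 7 1 = true := ex3_b s148_pp_022_t s147_pp_022_t

theorem s150_pp_022_t : ∃ t, chk3 f_pp_022_t t 4 7 1 = true := ex3_a s149_pp_022_t s89_pp_022_t

theorem s151_pp_022_t : ∃ t, chk3 f_pp_022_t t 4 3 1 = true := ex3_b k1_pp_022_t s150_pp_022_t

theorem s152_pp_022_t : ∃ t, chk3 f_pp_022_t t 2 3 1 = true := ex3_a s151_pp_022_t s80_pp_022_t

theorem s153_pp_022_t : ∃ t, chk3 f_pp_022_t t 2 1 1 = true := ex3_b k0_pp_022_t s152_pp_022_t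

theorem s154_pp_022_t : ∃ t, chk3 f_pp_022_t t 1 1 1 = true := ex3_a s153_pp_022_t s78_pp_022_t

theorem c_pp_022_t : CertNE 0 536870912 0 536870912 1045395039 1503240 3 eng mog cd0q0 cd0q2 pd2 true true true .pp 0 2 2
    ndB0q0 ndB0q2 pcB2 cut_pp_022_t Ext.none :=
  certNE0 (fam := true) (s1 := true) (s2 := true) (a := 0) (b := 2) (c := 2) (cn := .pp) (n1 := ndB0q0) (n2 := ndB0q2) (pc := pcB2) (cut := cut_pp_022_t) (xt := Ext.none) (P1 := 0) (W1 := 536870912) (P2 := 0) (W2 := 536870912) (P3 := 1045395039) (W3 := 1503240) (N0 := 3) (En := eng) (mo := mog) (C1 := cd0q0) (C2 := cd0q2) (C3 := pd2)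
    rfl s154_pp_022_t

noncomputable def cut_pp_023_s : Cut := Cut.of [[⟨4, 0, 0, 1449551462⟩]]

noncomputable def f_pp_023_s : ℕ → ℕ → ℕ → ℕ → Bool := onCell 0 536870912 0 536870912 1045395039 1503240
    (rowNE 3 eng mog cd0q0 cd0q2 pd3 0 true true true .up 0 2 3 (qsf 0 536870912 0 536870912 3) ndB0q0 ndB0q2 pcB3 cut_pp_023_s Ext.none)

def k0_pp_023_s : ∃ t, chk3 f_pp_023_s t 1 1 1 = true :=
  ⟨(l 6), by decide +kernel⟩

theorem c_pp_023_s : CertNE 0 536870912 0 536870912 1045395039 1503240 3 eng mog cd0q0 cd0q2 pd3 true true true .up 0 2 3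
    ndB0q0 ndB0q2 pcB3 cut_pp_023_s Ext.none :=
  certNE0 (fam := true) (s1 := true) (s2 := true) (a := 0) (b := 2) (c := 3) (cn := .up) (n1 := ndB0q0) (n2 := ndB0q2) (pc := pcB3) (cut := cut_pp_023_s) (xt := Ext.none) (P1 := 0) (W1 := 536870912) (P2 := 0) (W2 := 536870912) (P3 := 1045395039) (W3 := 1503240) (N0 := 3) (En := eng) (mo := mog) (C1 := cd0q0) (C2 := cd0q2) (C3 := pd3)
    rfl k0_pp_023_s

noncomputable def cut_pp_023_t : Cut := Cut.of [[⟨3, 0, 0, 2845415833⟩]]

noncomputable def f_pp_023_t : ℕ → ℕ → ℕ → ℕ → Bool := onCell 1610612736 536870912 0 536870912 1045395039 1503240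
    (rowNE 3 eng mog cd0q0 cd0q2 pd3 2 true true true .up 0 2 3 (qsf 0 536870912 0 536870912 3) ndB0q0 ndB0q2 pcB3 cut_pp_023_t Ext.none)

def k0_pp_023_t : ∃ t, chk3 f_pp_023_t t 1 1 1 = true :=
  ⟨(a (b (a (a (b (a (l 16665608) (l 16700112)) (b (a (b (l 16729248) (l 16739584)) (b (l 16757080) (l 95260831559))) (a (b (l 99018862359) (l 4)) (l 4)))) (b (a (l 16716576) (b (l 16708912) (l 16699504))) (b (a (b (l 16688368) (l 4)) (l 169885934039)) (l 4)))) (a (b (a (b (l 16730192) (l 90428991463)) (b (l 2) (l 2))) (l 4)) (l 2))) (l 4)) (l 2)), by decide +kernel⟩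

theorem c_pp_023_t : CertNE 0 536870912 0 536870912 1045395039 1503240 3 eng mog cd0q0 cd0q2 pd3 true true true .up 0 2 3
    ndB0q0 ndB0q2 pcB3 cut_pp_023_t Ext.none :=
  certNE2 (fam := true) (s1 := true) (s2 := true) (a := 0) (b := 2) (c := 3) (cn := .up) (n1 := ndB0q0) (n2 := ndB0q2) (pc := pcB3) (cut := cut_pp_023_t) (xt := Ext.none) (P1 := 0) (W1 := 536870912) (P2 := 0) (W2 := 536870912) (P3 := 1045395039) (W3 := 1503240) (N0 := 3) (En := eng) (mo := mog) (C1 := cd0q0) (C2 := cd0q2) (C3 := pd3)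
    rfl (fun _ => rfl) k0_pp_023_t

noncomputable def cut_pp_101_s : Cut := Cut.of [[⟨4, 0, 0, 1449551462⟩]]

noncomputable def f_pp_101_s : ℕ → ℕ → ℕ → ℕ → Bool := onCell 536870912 536870912 0 536870912 1045395039 1503240
    (rowNE 3 eng mog cd0q1 cd0q0 pd1 0 true true true .npn 1 0 1 (qsf 536870912 536870912 0 536870912 1) ndB0q1 ndB0q0 pcB1 cut_pp_101_s Ext.none)

def k0_pp_101_s : ∃ t, chk3 f_pp_101_s t 1 1 1 = true :=
  ⟨(l 6), by decide +kernel⟩

theorem c_pp_101_s : CertNE 536870912 536870912 0 536870912 1045395039 1503240 3 eng mog cd0q1 cd0q0 pd1 true true true .npn 1 0 1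
    ndB0q1 ndB0q0 pcB1 cut_pp_101_s Ext.none :=
  certNE0 (fam := true) (s1 := true) (s2 := true) (a := 1) (b := 0) (c := 1) (cn := .npn) (n1 := ndB0q1) (n2 := ndB0q0) (pc := pcB1) (cut := cut_pp_101_s) (xt := Ext.none) (P1 := 536870912) (W1 := 536870912) (P2 := 0) (W2 := 536870912) (P3 := 1045395039) (W3 := 1503240) (N0 := 3) (En := eng) (mo := mog) (C1 := cd0q1) (C2 := cd0q0) (C3 := pd1)
    rfl k0_pp_101_s

noncomputable def cut_pp_101_t : Cut := Cut.of [[⟨3, 0, 0, 2845415833⟩]]

noncomputable def f_pp_101_t : ℕ → ℕ → ℕ → ℕ → Bool := onCell 536870912 536870912 0 536870912 1045395039 1503240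
    (rowNE 3 eng mog cd0q1 cd0q0 pd1 0 true true true .npn 1 0 1 (qsf 536870912 536870912 0 536870912 1) ndB0q1 ndB0q0 pcB1 cut_pp_101_t Ext.none)

def k0_pp_101_t : ∃ t, chk3 f_pp_101_t t 1 1 1 = true :=
  ⟨(a (l 4) (l 5)), by decide +kernel⟩

theorem c_pp_101_t : CertNE 536870912 536870912 0 536870912 1045395039 1503240 3 eng mog cd0q1 cd0q0 pd1 true true true .npn 1 0 1
    ndB0q1 ndB0q0 pcB1 cut_pp_101_t Ext.none :=
  certNE0 (fam := true) (s1 := true) (s2 := true) (a := 1) (b := 0) (c := 1) (cn := .npn) (n1 := ndB0q1) (n2 := ndB0q0) (pc := pcB1) (cut := cut_pp_101_t) (xt := Ext.none) (P1 := 536870912) (W1 := 536870912) (P2 := 0) (W2 := 536870912) (P3 := 1045395039) (W3 := 1503240) (N0 := 3) (En := eng) (mo := mog) (C1 := cd0q1) (C2 := cd0q0) (C3 := pd1)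
    rfl k0_pp_101_t

noncomputable def cut_pp_102_s : Cut := Cut.of [[⟨4, 0, 0, 1449551462⟩]]

noncomputable def f_pp_102_s : ℕ → ℕ → ℕ → ℕ → Bool := onCell 536870912 536870912 0 536870912 1045395039 1503240
    (rowNE 3 eng mog cd0q1 cd0q0 pd2 0 true true true .npp 1 0 2 (qsf 536870912 536870912 0 536870912 2) ndB0q1 ndB0q0 pcB2 cut_pp_102_s Ext.none)

def k0_pp_102_s : ∃ t, chk3 f_pp_102_s t 1 1 1 = true :=
  ⟨(l 6), by decide +kernel⟩

theorem c_pp_102_s : CertNE 536870912 536870912 0 536870912 1045395039 1503240 3 eng mog cd0q1 cd0q0 pd2 true true true .npp 1 0 2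
    ndB0q1 ndB0q0 pcB2 cut_pp_102_s Ext.none :=
  certNE0 (fam := true) (s1 := true) (s2 := true) (a := 1) (b := 0) (c := 2) (cn := .npp) (n1 := ndB0q1) (n2 := ndB0q0) (pc := pcB2) (cut := cut_pp_102_s) (xt := Ext.none) (P1 := 536870912) (W1 := 536870912) (P2 := 0) (W2 := 536870912) (P3 := 1045395039) (W3 := 1503240) (N0 := 3) (En := eng) (mo := mog) (C1 := cd0q1) (C2 := cd0q0) (C3 := pd2)
    rfl k0_pp_102_s

noncomputable def cut_pp_102_t : Cut := Cut.of [[⟨3, 0, 0, 2845415833⟩]]

noncomputable def f_pp_102_t : ℕ → ℕ → ℕ → ℕ → Bool := onCell 536870912 536870912 0 536870912 1045395039 1503240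
    (rowNE 3 eng mog cd0q1 cd0q0 pd2 0 true true true .npp 1 0 2 (qsf 536870912 536870912 0 536870912 2) ndB0q1 ndB0q0 pcB2 cut_pp_102_t Ext.none)

def k0_pp_102_t : ∃ t, chk3 f_pp_102_t t 1 1 1 = true :=
  ⟨(a (l 4) (l 5)), by decide +kernel⟩

theorem c_pp_102_t : CertNE 536870912 536870912 0 536870912 1045395039 1503240 3 eng mog cd0q1 cd0q0 pd2 true true true .npp 1 0 2
    ndB0q1 ndB0q0 pcB2 cut_pp_102_t Ext.none :=
  certNE0 (fam := true) (s1 := true) (s2 := true) (a := 1) (b := 0) (c := 2) (cn := .npp) (n1 := ndB0q1) (n2 := ndB0q0) (pc := pcB2) (cut := cut_pp_102_t) (xt := Ext.none) (P1 := 536870912) (W1 := 536870912) (P2 := 0) (W2 := 536870912) (P3 := 1045395039) (W3 := 1503240) (N0 := 3) (En := eng) (mo := mog) (C1 := cd0q1) (C2 := cd0q0) (C3 := pd2)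
    rfl k0_pp_102_t

noncomputable def cut_pp_112_s : Cut := Cut.of [[⟨4, 0, 0, 1449551462⟩]]

noncomputable def f_pp_112_s : ℕ → ℕ → ℕ → ℕ → Bool := onCell 536870912 536870912 536870912 536870912 1045395039 1503240
    (rowNE 3 eng mog cd0q1 cd0q1 pd2 0 true true true .dn 1 1 2 (qsf 536870912 536870912 536870912 536870912 2) ndB0q1 ndB0q1 pcB2 cut_pp_112_s Ext.none)

def k0_pp_112_s : ∃ t, chk3 f_pp_112_s t 1 1 1 = true :=
  ⟨(l 4), by decide +kernel⟩

theorem c_pp_112_s : CertNE 536870912 536870912 536870912 536870912 1045395039 1503240 3 eng mog cd0q1 cd0q1 pd2 true true true .dn 1 1 2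
    ndB0q1 ndB0q1 pcB2 cut_pp_112_s Ext.none :=
  certNE0 (fam := true) (s1 := true) (s2 := true) (a := 1) (b := 1) (c := 2) (cn := .dn) (n1 := ndB0q1) (n2 := ndB0q1) (pc := pcB2) (cut := cut_pp_112_s) (xt := Ext.none) (P1 := 536870912) (W1 := 536870912) (P2 := 536870912) (W2 := 536870912) (P3 := 1045395039) (W3 := 1503240) (N0 := 3) (En := eng) (mo := mog) (C1 := cd0q1) (C2 := cd0q1) (C3 := pd2)
    rfl k0_pp_112_s

noncomputable def cut_pp_112_t : Cut := Cut.of [[⟨3, 0, 0, 2845415833⟩]]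

noncomputable def f_pp_112_t : ℕ → ℕ → ℕ → ℕ → Bool := onCell 536870912 536870912 536870912 536870912 1045395039 1503240
    (rowNE 3 eng mog cd0q1 cd0q1 pd2 0 true true true .dn 1 1 2 (qsf 536870912 536870912 536870912 536870912 2) ndB0q1 ndB0q1 pcB2 cut_pp_112_t Ext.none)

def k0_pp_112_t : ∃ t, chk3 f_pp_112_t t 1 1 1 = true :=
  ⟨(l 4), by decide +kernel⟩

theorem c_pp_112_t : CertNE 536870912 536870912 536870912 536870912 1045395039 1503240 3 eng mog cd0q1 cd0q1 pd2 true true true .dn 1 1 2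
    ndB0q1 ndB0q1 pcB2 cut_pp_112_t Ext.none :=
  certNE0 (fam := true) (s1 := true) (s2 := true) (a := 1) (b := 1) (c := 2) (cn := .dn) (n1 := ndB0q1) (n2 := ndB0q1) (pc := pcB2) (cut := cut_pp_112_t) (xt := Ext.none) (P1 := 536870912) (W1 := 536870912) (P2 := 536870912) (W2 := 536870912) (P3 := 1045395039) (W3 := 1503240) (N0 := 3) (En := eng) (mo := mog) (C1 := cd0q1) (C2 := cd0q1) (C3 := pd2)
    rfl k0_pp_112_t

noncomputable def cut_pp_113_s : Cut := Cut.of [[⟨4, 0, 0, 1449551462⟩]]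

noncomputable def f_pp_113_s : ℕ → ℕ → ℕ → ℕ → Bool := onCell 536870912 536870912 536870912 536870912 1045395039 1503240
    (rowNE 3 eng mog cd0q1 cd0q1 pd3 0 true true true .nn 1 1 3 (qsf 536870912 536870912 536870912 536870912 3) ndB0q1 ndB0q1 pcB3 cut_pp_113_s Ext.none)

def k0_pp_113_s : ∃ t, chk3 f_pp_113_s t 1 1 1 = true :=
  ⟨(l 4), by decide +kernel⟩

theorem c_pp_113_s : CertNE 536870912 536870912 536870912 536870912 1045395039 1503240 3 eng mog cd0q1 cd0q1 pd3 true true true .nn 1 1 3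
    ndB0q1 ndB0q1 pcB3 cut_pp_113_s Ext.none :=
  certNE0 (fam := true) (s1 := true) (s2 := true) (a := 1) (b := 1) (c := 3) (cn := .nn) (n1 := ndB0q1) (n2 := ndB0q1) (pc := pcB3) (cut := cut_pp_113_s) (xt := Ext.none) (P1 := 536870912) (W1 := 536870912) (P2 := 536870912) (W2 := 536870912) (P3 := 1045395039) (W3 := 1503240) (N0 := 3) (En := eng) (mo := mog) (C1 := cd0q1) (C2 := cd0q1) (C3 := pd3)
    rfl k0_pp_113_s

noncomputable def cut_pp_113_t : Cut := Cut.of [[⟨3, 0, 0, 2845415833⟩]]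

noncomputable def f_pp_113_t : ℕ → ℕ → ℕ → ℕ → Bool := onCell 536870912 536870912 536870912 536870912 1045395039 1503240
    (rowNE 3 eng mog cd0q1 cd0q1 pd3 0 true true true .nn 1 1 3 (qsf 536870912 536870912 536870912 536870912 3) ndB0q1 ndB0q1 pcB3 cut_pp_113_t Ext.none)

def k0_pp_113_t : ∃ t, chk3 f_pp_113_t t 1 1 1 = true :=
  ⟨(l 4), by decide +kernel⟩

theorem c_pp_113_t : CertNE 536870912 536870912 536870912 536870912 1045395039 1503240 3 eng mog cd0q1 cd0q1 pd3 true true true .nn 1 1 3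
    ndB0q1 ndB0q1 pcB3 cut_pp_113_t Ext.none :=
  certNE0 (fam := true) (s1 := true) (s2 := true) (a := 1) (b := 1) (c := 3) (cn := .nn) (n1 := ndB0q1) (n2 := ndB0q1) (pc := pcB3) (cut := cut_pp_113_t) (xt := Ext.none) (P1 := 536870912) (W1 := 536870912) (P2 := 536870912) (W2 := 536870912) (P3 := 1045395039) (W3 := 1503240) (N0 := 3) (En := eng) (mo := mog) (C1 := cd0q1) (C2 := cd0q1) (C3 := pd3)
    rfl k0_pp_113_t

noncomputable def cut_pp_123_s : Cut := Cut.of [[⟨4, 0, 0, 1449551462⟩]]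

noncomputable def f_pp_123_s : ℕ → ℕ → ℕ → ℕ → Bool := onCell 536870912 536870912 0 536870912 1045395039 1503240
    (rowNE 3 eng mog cd0q1 cd0q2 pd3 0 true true true .npn 1 2 3 (qsf 536870912 536870912 0 536870912 3) ndB0q1 ndB0q2 pcB3 cut_pp_123_s Ext.none)

def k0_pp_123_s : ∃ t, chk3 f_pp_123_s t 1 1 1 = true :=
  ⟨(l 6), by decide +kernel⟩

theorem c_pp_123_s : CertNE 536870912 536870912 0 536870912 1045395039 1503240 3 eng mog cd0q1 cd0q2 pd3 true true true .npn 1 2 3
    ndB0q1 ndB0q2 pcB3 cut_pp_123_s Ext.none :=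
  certNE0 (fam := true) (s1 := true) (s2 := true) (a := 1) (b := 2) (c := 3) (cn := .npn) (n1 := ndB0q1) (n2 := ndB0q2) (pc := pcB3) (cut := cut_pp_123_s) (xt := Ext.none) (P1 := 536870912) (W1 := 536870912) (P2 := 0) (W2 := 536870912) (P3 := 1045395039) (W3 := 1503240) (N0 := 3) (En := eng) (mo := mog) (C1 := cd0q1) (C2 := cd0q2) (C3 := pd3)
    rfl k0_pp_123_s

noncomputable def cut_pp_123_t : Cut := Cut.of [[⟨3, 0, 0, 2845415833⟩]]

noncomputable def f_pp_123_t : ℕ → ℕ → ℕ → ℕ → Bool := onCell 536870912 536870912 0 536870912 1045395039 1503240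
    (rowNE 3 eng mog cd0q1 cd0q2 pd3 0 true true true .npn 1 2 3 (qsf 536870912 536870912 0 536870912 3) ndB0q1 ndB0q2 pcB3 cut_pp_123_t Ext.none)

def k0_pp_123_t : ∃ t, chk3 f_pp_123_t t 1 1 1 = true :=
  ⟨(a (b (b (a (a (b (a (l 16752984) (l 83449715959)) (a (b (l 16692944) (l 4)) (l 4))) (b (a (l 105461352407) (l 4)) (l 4))) (l 4)) (l 4)) (l 4)) (l 4)), by decide +kernel⟩

theorem c_pp_123_t : CertNE 536870912 536870912 0 536870912 1045395039 1503240 3 eng mog cd0q1 cd0q2 pd3 true true true .npn 1 2 3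
    ndB0q1 ndB0q2 pcB3 cut_pp_123_t Ext.none :=
  certNE0 (fam := true) (s1 := true) (s2 := true) (a := 1) (b := 2) (c := 3) (cn := .npn) (n1 := ndB0q1) (n2 := ndB0q2) (pc := pcB3) (cut := cut_pp_123_t) (xt := Ext.none) (P1 := 536870912) (W1 := 536870912) (P2 := 0) (W2 := 536870912) (P3 := 1045395039) (W3 := 1503240) (N0 := 3) (En := eng) (mo := mog) (C1 := cd0q1) (C2 := cd0q2) (C3 := pd3)
    rfl k0_pp_123_t

noncomputable def cut_pp_202_s : Cut := Cut.of [[⟨4, 0, 0, 1449551462⟩]]

noncomputable def f_pp_202_s : ℕ → ℕ → ℕ → ℕ → Bool := onCell 0 536870912 0 536870912 1045395039 1503240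
    (rowNE 3 eng mog cd0q2 cd0q0 pd2 0 true true true .pp 2 0 2 (qsf 0 536870912 0 536870912 2) ndB0q2 ndB0q0 pcB2 cut_pp_202_s Ext.none)

def k0_pp_202_s : ∃ t, chk3 f_pp_202_s t 1 1 1 = true :=
  ⟨(l 5), by decide +kernel⟩

theorem c_pp_202_s : CertNE 0 536870912 0 536870912 1045395039 1503240 3 eng mog cd0q2 cd0q0 pd2 true true true .pp 2 0 2
    ndB0q2 ndB0q0 pcB2 cut_pp_202_s Ext.none :=
  certNE0 (fam := true) (s1 := true) (s2 := true) (a := 2) (b := 0) (c := 2) (cn := .pp) (n1 := ndB0q2) (n2 := ndB0q0) (pc := pcB2) (cut := cut_pp_202_s) (xt := Ext.none) (P1 := 0) (W1 := 536870912) (P2 := 0) (W2 := 536870912) (P3 := 1045395039) (W3 := 1503240) (N0 := 3) (En := eng) (mo := mog) (C1 := cd0q2) (C2 := cd0q0) (C3 := pd2)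
    rfl k0_pp_202_s

noncomputable def cut_pp_202_t : Cut := Cut.of [[⟨3, 0, 0, 2845415833⟩]]

noncomputable def f_pp_202_t : ℕ → ℕ → ℕ → ℕ → Bool := onCell 0 536870912 0 536870912 1045395039 1503240
    (rowNE 3 eng mog cd0q2 cd0q0 pd2 0 true true true .pp 2 0 2 (qsf 0 536870912 0 536870912 2) ndB0q2 ndB0q0 pcB2 cut_pp_202_t Ext.none)

def k0_pp_202_t : ∃ t, chk3 f_pp_202_t t 1 1 1 = true :=
  ⟨(l 5), by decide +kernel⟩

theorem c_pp_202_t : CertNE 0 536870912 0 536870912 1045395039 1503240 3 eng mog cd0q2 cd0q0 pd2 true true true .pp 2 0 2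
    ndB0q2 ndB0q0 pcB2 cut_pp_202_t Ext.none :=
  certNE0 (fam := true) (s1 := true) (s2 := true) (a := 2) (b := 0) (c := 2) (cn := .pp) (n1 := ndB0q2) (n2 := ndB0q0) (pc := pcB2) (cut := cut_pp_202_t) (xt := Ext.none) (P1 := 0) (W1 := 536870912) (P2 := 0) (W2 := 536870912) (P3 := 1045395039) (W3 := 1503240) (N0 := 3) (En := eng) (mo := mog) (C1 := cd0q2) (C2 := cd0q0) (C3 := pd2)
    rfl k0_pp_202_t

noncomputable def cut_pp_203_s : Cut := Cut.of [[⟨4, 0, 0, 1449551462⟩]]

noncomputable def f_pp_203_s : ℕ → ℕ → ℕ → ℕ → Bool := onCell 0 536870912 0 536870912 1045395039 1503240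
    (rowNE 3 eng mog cd0q2 cd0q0 pd3 0 true true true .up 2 0 3 (qsf 0 536870912 0 536870912 3) ndB0q2 ndB0q0 pcB3 cut_pp_203_s Ext.none)

def k0_pp_203_s : ∃ t, chk3 f_pp_203_s t 1 1 1 = true :=
  ⟨(l 5), by decide +kernel⟩

theorem c_pp_203_s : CertNE 0 536870912 0 536870912 1045395039 1503240 3 eng mog cd0q2 cd0q0 pd3 true true true .up 2 0 3
    ndB0q2 ndB0q0 pcB3 cut_pp_203_s Ext.none :=
  certNE0 (fam := true) (s1 := true) (s2 := true) (a := 2) (b := 0) (c := 3) (cn := .up) (n1 := ndB0q2) (n2 := ndB0q0) (pc := pcB3) (cut := cut_pp_203_s) (xt := Ext.none) (P1 := 0) (W1 := 536870912) (P2 := 0) (W2 := 536870912) (P3 := 1045395039) (W3 := 1503240) (N0 := 3) (En := eng) (mo := mog) (C1 := cd0q2) (C2 := cd0q0) (C3 := pd3)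
    rfl k0_pp_203_s

noncomputable def cut_pp_203_t : Cut := Cut.of [[⟨3, 0, 0, 2845415833⟩]]

noncomputable def f_pp_203_t : ℕ → ℕ → ℕ → ℕ → Bool := onCell 0 536870912 0 536870912 1045395039 1503240
    (rowNE 3 eng mog cd0q2 cd0q0 pd3 0 true true true .up 2 0 3 (qsf 0 536870912 0 536870912 3) ndB0q2 ndB0q0 pcB3 cut_pp_203_t Ext.none)

def k0_pp_203_t : ∃ t, chk3 f_pp_203_t t 1 1 1 = true :=
  ⟨(l 5), by decide +kernel⟩

theorem c_pp_203_t : CertNE 0 536870912 0 536870912 1045395039 1503240 3 eng mog cd0q2 cd0q0 pd3 true true true .up 2 0 3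
    ndB0q2 ndB0q0 pcB3 cut_pp_203_t Ext.none :=
  certNE0 (fam := true) (s1 := true) (s2 := true) (a := 2) (b := 0) (c := 3) (cn := .up) (n1 := ndB0q2) (n2 := ndB0q0) (pc := pcB3) (cut := cut_pp_203_t) (xt := Ext.none) (P1 := 0) (W1 := 536870912) (P2 := 0) (W2 := 536870912) (P3 := 1045395039) (W3 := 1503240) (N0 := 3) (En := eng) (mo := mog) (C1 := cd0q2) (C2 := cd0q0) (C3 := pd3)
    rfl k0_pp_203_t

noncomputable def cut_pp_213_s : Cut := Cut.of [[⟨4, 0, 0, 1449551462⟩]]

noncomputable def f_pp_213_s : ℕ → ℕ → ℕ → ℕ → Bool := onCell 0 536870912 536870912 536870912 1045395039 1503240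
    (rowNE 3 eng mog cd0q2 cd0q1 pd3 0 true true true .pnn 2 1 3 (qsf 0 536870912 536870912 536870912 3) ndB0q2 ndB0q1 pcB3 cut_pp_213_s Ext.none)

def k0_pp_213_s : ∃ t, chk3 f_pp_213_s t 1 1 1 = true :=
  ⟨(l 6), by decide +kernel⟩

theorem c_pp_213_s : CertNE 0 536870912 536870912 536870912 1045395039 1503240 3 eng mog cd0q2 cd0q1 pd3 true true true .pnn 2 1 3
    ndB0q2 ndB0q1 pcB3 cut_pp_213_s Ext.none :=
  certNE0 (fam := true) (s1 := true) (s2 := true) (a := 2) (b := 1) (c := 3) (cn := .pnn) (n1 := ndB0q2) (n2 := ndB0q1) (pc := pcB3) (cut := cut_pp_213_s) (xt := Ext.none) (P1 := 0) (W1 := 536870912) (P2 := 536870912) (W2 := 536870912) (P3 := 1045395039) (W3 := 1503240) (N0 := 3) (En := eng) (mo := mog) (C1 := cd0q2) (C2 := cd0q1) (C3 := pd3)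
    rfl k0_pp_213_s

noncomputable def cut_pp_213_t : Cut := Cut.of [[⟨3, 0, 0, 2845415833⟩]]

noncomputable def f_pp_213_t : ℕ → ℕ → ℕ → ℕ → Bool := onCell 0 536870912 536870912 536870912 1045395039 1503240
    (rowNE 3 eng mog cd0q2 cd0q1 pd3 0 true true true .pnn 2 1 3 (qsf 0 536870912 536870912 536870912 3) ndB0q2 ndB0q1 pcB3 cut_pp_213_t Ext.none)

def k0_pp_213_t : ∃ t, chk3 f_pp_213_t t 1 1 1 = true :=
  ⟨(a (l 5) (l 4)), by decide +kernel⟩

theorem c_pp_213_t : CertNE 0 536870912 536870912 536870912 1045395039 1503240 3 eng mog cd0q2 cd0q1 pd3 true true true .pnn 2 1 3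
    ndB0q2 ndB0q1 pcB3 cut_pp_213_t Ext.none :=
  certNE0 (fam := true) (s1 := true) (s2 := true) (a := 2) (b := 1) (c := 3) (cn := .pnn) (n1 := ndB0q2) (n2 := ndB0q1) (pc := pcB3) (cut := cut_pp_213_t) (xt := Ext.none) (P1 := 0) (W1 := 536870912) (P2 := 536870912) (W2 := 536870912) (P3 := 1045395039) (W3 := 1503240) (N0 := 3) (En := eng) (mo := mog) (C1 := cd0q2) (C2 := cd0q1) (C3 := pd3)
    rfl k0_pp_213_t

noncomputable def cut_pm_001_s : Cut := Cut.of [[⟨4, 0, 0, 1449551462⟩]]

noncomputable def f_pm_001_s : ℕ → ℕ → ℕ → ℕ → Bool := onCell 0 536870912 0 536870912 1045395039 1503240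
    (rowNE 3 eng mog cd0q0 cd0q0 pd1 0 true true false .up 0 0 1 (qsf 0 536870912 0 536870912 1) ndB0q0 ndB0q0 pcB1 cut_pm_001_s Ext.none)

def k0_pm_001_s : ∃ t, chk3 f_pm_001_s t 1 1 1 = true :=
  ⟨(l 3), by decide +kernel⟩

theorem c_pm_001_s : CertNE 0 536870912 0 536870912 1045395039 1503240 3 eng mog cd0q0 cd0q0 pd1 true true false .up 0 0 1
    ndB0q0 ndB0q0 pcB1 cut_pm_001_s Ext.none :=
  certNE0 (fam := true) (s1 := true) (s2 := false) (a := 0) (b := 0) (c := 1) (cn := .up) (n1 := ndB0q0) (n2 := ndB0q0) (pc := pcB1) (cut := cut_pm_001_s) (xt := Ext.none) (P1 := 0) (W1 := 536870912) (P2 := 0) (W2 := 536870912) (P3 := 1045395039) (W3 := 1503240) (N0 := 3) (En := eng) (mo := mog) (C1 := cd0q0) (C2 := cd0q0) (C3 := pd1)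
    rfl k0_pm_001_s

noncomputable def cut_pm_001_t : Cut := Cut.of [[⟨3, 0, 0, 2845415833⟩]]

noncomputable def f_pm_001_t : ℕ → ℕ → ℕ → ℕ → Bool := onCell 0 536870912 0 536870912 1045395039 1503240
    (rowNE 3 eng mog cd0q0 cd0q0 pd1 0 true true false .up 0 0 1 (qsf 0 536870912 0 536870912 1) ndB0q0 ndB0q0 pcB1 cut_pm_001_t Ext.none)

def k0_pm_001_t : ∃ t, chk3 f_pm_001_t t 1 1 1 = true :=
  ⟨(l 3), by decide +kernel⟩

theorem c_pm_001_t : CertNE 0 536870912 0 536870912 1045395039 1503240 3 eng mog cd0q0 cd0q0 pd1 true true false .up 0 0 1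
    ndB0q0 ndB0q0 pcB1 cut_pm_001_t Ext.none :=
  certNE0 (fam := true) (s1 := true) (s2 := false) (a := 0) (b := 0) (c := 1) (cn := .up) (n1 := ndB0q0) (n2 := ndB0q0) (pc := pcB1) (cut := cut_pm_001_t) (xt := Ext.none) (P1 := 0) (W1 := 536870912) (P2 := 0) (W2 := 536870912) (P3 := 1045395039) (W3 := 1503240) (N0 := 3) (En := eng) (mo := mog) (C1 := cd0q0) (C2 := cd0q0) (C3 := pd1)
    rfl k0_pm_001_t

noncomputable def cut_pm_011_s : Cut := Cut.of [[⟨4, 0, 0, 1449551462⟩], [⟨0, 0, 0, 26843545⟩, ⟨1, 1, 0, 26843545⟩, ⟨2, 1, 0, 26843545⟩]]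

noncomputable def f_pm_011_s : ℕ → ℕ → ℕ → ℕ → Bool := onCell 536870912 536870912 536870912 536870912 1045395039 1503240
    (rowNE 3 eng mog cd0q0 cd0q1 pd1 2 true true false .pnn 0 1 1 (qsf 0 536870912 536870912 536870912 1) ndB0q0 ndB0q1 pcB1 cut_pm_011_s Ext.none)

def k0_pm_011_s : ∃ t, chk3 f_pm_011_s t 1 1 1 = true :=
  ⟨(a (l 3) (b (l 3) (a (l 3) (b (l 3) (a (l 3) (b (l 3) (b (l 3) (a (l 3) (a (l 3) (b (l 3) (l 14))))))))))), by decide +kernel⟩

theorem c_pm_011_s : CertNE 0 536870912 536870912 536870912 1045395039 1503240 3 eng mog cd0q0 cd0q1 pd1 true true false .pnn 0 1 1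
    ndB0q0 ndB0q1 pcB1 cut_pm_011_s Ext.none :=
  certNE2 (fam := true) (s1 := true) (s2 := false) (a := 0) (b := 1) (c := 1) (cn := .pnn) (n1 := ndB0q0) (n2 := ndB0q1) (pc := pcB1) (cut := cut_pm_011_s) (xt := Ext.none) (P1 := 0) (W1 := 536870912) (P2 := 536870912) (W2 := 536870912) (P3 := 1045395039) (W3 := 1503240) (N0 := 3) (En := eng) (mo := mog) (C1 := cd0q0) (C2 := cd0q1) (C3 := pd1)
    rfl (fun _ => rfl) k0_pm_011_s

noncomputable def cut_pm_011_t : Cut := Cut.of [[⟨3, 0, 0, 2845415833⟩], [⟨0, 0, 0, 26843545⟩, ⟨1, 1, 0, 26843545⟩, ⟨2, 1, 0, 26843545⟩]]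

noncomputable def f_pm_011_t : ℕ → ℕ → ℕ → ℕ → Bool := onCell 0 536870912 536870912 536870912 1045395039 1503240
    (rowNE 3 eng mog cd0q0 cd0q1 pd1 0 true true false .pnn 0 1 1 (qsf 0 536870912 536870912 536870912 1) ndB0q0 ndB0q1 pcB1 cut_pm_011_t Ext.none)

def k0_pm_011_t : ∃ t, chk3 f_pm_011_t t 1 1 1 = true :=
  ⟨(l 6), by decide +kernel⟩

theorem c_pm_011_t : CertNE 0 536870912 536870912 536870912 1045395039 1503240 3 eng mog cd0q0 cd0q1 pd1 true true false .pnn 0 1 1
    ndB0q0 ndB0q1 pcB1 cut_pm_011_t Ext.none :=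
  certNE0 (fam := true) (s1 := true) (s2 := false) (a := 0) (b := 1) (c := 1) (cn := .pnn) (n1 := ndB0q0) (n2 := ndB0q1) (pc := pcB1) (cut := cut_pm_011_t) (xt := Ext.none) (P1 := 0) (W1 := 536870912) (P2 := 536870912) (W2 := 536870912) (P3 := 1045395039) (W3 := 1503240) (N0 := 3) (En := eng) (mo := mog) (C1 := cd0q0) (C2 := cd0q1) (C3 := pd1)
    rfl k0_pm_011_t

noncomputable def cut_pm_012_s : Cut := Cut.of [[⟨4, 0, 0, 1449551462⟩], [⟨0, 0, 0, 13421772⟩, ⟨1, 1, 0, 13421772⟩, ⟨2, 1, 0, 13421772⟩]]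

noncomputable def f_pm_012_s : ℕ → ℕ → ℕ → ℕ → Bool := onCell 1073741824 536870912 536870912 536870912 1045395039 1503240
    (rowNE 3 eng mog cd0q0 cd0q1 pd2 2 true true false .pnp 0 1 2 (qsf 0 536870912 536870912 536870912 2) ndB0q0 ndB0q1 pcB2 cut_pm_012_s Ext.none)

def k0_pm_012_s : ∃ t, chk3 f_pm_012_s t 2 2 1 = true :=
  ⟨(a (a (l 3) (l 3)) (b (a (a (a (l 3) (l 2)) (l 2)) (l 2)) (b (a (a (a (l 3) (a (b (l 3) (l 16766000)) (a (b (l 16773408) (l 16774832)) (l 16770120)))) (b (l 16738648) (l 16733128))) (b (l 2) (a (l 16672896) (l 2)))) (a (a (a (b (l 3) (a (l 3) (l 16770304))) (a (b (l 16776632) (l 16766112)) (a (b (l 16766192) (l 16754952)) (b (l 16759168) (a (l 16750560) (l 16749096)))))) (b (l 16725432) (l 16718200))) (b (a (l 16665536) (l 16606504)) (a (l 16657920) (l 16598520))))))), by decide +kernel⟩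

def k1_pm_012_s : ∃ t, chk3 f_pm_012_s t 4 6 1 = true :=
  ⟨(a (l 3) (a (b (l 3) (a (l 3) (b (l 3) (a (l 3) (b (l 3) (l 16685776)))))) (b (a (l 3) (b (l 3) (a (b (l 3) (l 16747312)) (b (l 16761936) (l 16774080))))) (a (b (a (l 3) (b (l 3) (l 16763848))) (a (b (l 16744656) (l 16769328)) (b (l 16768312) (l 16753184)))) (b (a (b (l 16773856) (l 16766112)) (l 16756656)) (a (b (l 16752392) (l 16717848)) (b (l 16738104) (l 16727968)))))))), by decide +kernel⟩

def k2_pm_012_s : ∃ t, chk3 f_pm_012_s t 8 14 1 = true :=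
  ⟨(a (l 3) (b (l 3) (a (l 3) (b (l 3) (a (b (l 3) (a (l 3) (b (l 3) (a (l 430201316903) (l 127406102279))))) (b (a (l 413558282551) (b (l 232095889831) (l 16774304))) (a (b (l 110226215271) (l 16771032)) (l 16744288)))))))), by decide +kernel⟩

def k3_pm_012_s : ∃ t, chk3 f_pm_012_s t 16 30 1 = true :=
  ⟨(a (l 3) (b (l 3) (a (l 3) (b (l 3) (a (l 3) (b (l 3) (a (b (l 3) (a (l 3) (b (l 3) (a (b (l 3) (a (l 3) (b (l 417853334871) (a (l 200420611527) (l 16776944))))) (b (a (l 405505301655) (b (l 355039441207) (l 16776880))) (b (l 105394461687) (l 16765480))))))) (b (a (b (l 3) (a (l 3) (b (l 3) (l 409800270135)))) (b (a (l 3) (b (l 3) (a (l 446844359799) (b (l 396378499287) (l 16771832))))) (a (b (a (l 3) (l 352355087543)) (a (b (l 215989862903) (l 16776864)) (l 16765944))) (a (b (l 127943037447) (l 16775680)) (l 16765064))))) (b (a (a (b (l 453286805559) (a (a (l 420000817127) (l 341617668455)) (b (a (l 226727284743) (l 16777064)) (l 16776632)))) (b (a (b (l 410874013287) (l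 153175971719)) (l 16772744)) (l 16765312))) (l 16768920)) (a (a (l 16772776) (l 16763384)) (l 16761144))))))))))), by decide +kernel⟩

def k4_pm_012_s : ∃ t, chk3 f_pm_012_s t 32 62 1 = true :=
  ⟨(a (l 3) (b (l 3) (a (l 3) (b (l 3) (a (l 3) (b (l 3) (a (l 3) (b (l 3) (a (b (l 3) (a (l 3) (b (l 3) (b (a (l 3) (a (l 394231021303) (b (l 272898195255) (l 16777032)))) (a (a (l 439865048855) (b (l 363629379351) (l 16777080))) (l 16774192)))))) (b (a (l 485499069095) (b (l 464024238055) (a (b (l 457044916119) (a (b (l 450602467127) (l 16777144)) (l 16774392))) (b (b (a (l 400136601383) (l 16777080)) (l 16774352)) (l 16776632))))) (a (b (a (b (l 497847105079) (a (l 337322704631) (l 84456504119))) (b (a (l 294373029015) (l 16775744)) (l 16771480))) (l 16773648)) (l 16774408)))))))))))), by decide +kernel⟩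

def k5_pm_012_s : ∃ t, chk3 f_pm_012_s t 64 126 1 = true :=
  ⟨(b (l 3) (a (l 3) (a (l 3) (b (l 3) (a (l 3) (b (l 3) (a (l 3) (b (l 3) (a (l 3) (b (l 3) (a (b (l 3) (a (l 3) (l 381346119335))) (b (a (l 541870522295) (l 368461217447)) (a (b (l 232096005975) (l 16777056)) (l 16774344)))))))))))))), by decide +kernel⟩

def k6_pm_012_s : ∃ t, chk3 f_pm_012_s t 128 254 1 = true :=
  ⟨(l 14), by decide +kernel⟩

def k7_pm_012_s : ∃ t, chk3 f_pm_012_s t 258 254 1 = true :=
  ⟨(b (b (l 3) (b (l 3) (l 14))) (l 14)), by decide +kernel⟩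

def k8_pm_012_s : ∃ t, chk3 f_pm_012_s t 259 508 1 = true :=
  ⟨(a (b (a (l 3) (b (l 3) (a (l 3) (b (l 3) (a (l 522543169399) (b (l 498920849319) (b (a (l 451139338039) (l 16777168)) (l 77477182775)))))))) (a (b (a (l 3) (b (l 3) (a (l 3) (b (l 540259909527) (a (b (l 3) (l 263234517559)) (b (l 250349615671) (l 16774456))))))) (a (l 14) (b (a (b (a (b (l 3) (l 14)) (b (l 276119419447) (l 16777088))) (l 14)) (l 16775496)) (l 14)))) (b (a (b (a (l 537038684007) (b (l 522006298535) (a (b (l 483351592759) (l 181630138999)) (b (l 174650815815) (l 16777056))))) (a (b (a (b (l 498920849207) (l 236927842871)) (b (l 223506070071) (l 16777064))) (l 16774312)) (l 16774152))) (b (a (b (b (a (l 467245465399) (l 16777184)) (a (l 167671493943) (l 16777040))) (l 16774280)) (l 16774120)) (l 16773696))) (a (a (l 16774936) (l 16773320)) (l 16774160))))) (b (a (b (a (l 3) (b (l 3) (a (l 487109687911) (b (l 433959467687) (a (b (l 381346119335) (l 16777120)) (l 16777040)))))) (a (b (a (l 509121396599)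 (b (l 467245465527) (a (b (l 417316470599) (l 16777152)) (l 16777064)))) (a (b (a (b (l 434496339783) (l 16777160)) (l 16777080)) (l 16774248)) (l 16774080))) (b (a (b (a (b (l 400136601415) (l 16777136)) (l 16777056)) (l 16774208)) (l 16774040)) (l 16773600)))) (b (a (b (a (b (l 3) (l 416779598503)) (b (a (l 3) (l 394231021223)) (a (b (l 300278611799) (l 16777088)) (l 16777000)))) (a (b (a (b (l 333564608343) (l 16777104)) (l 16777016)) (l 16776792)) (l 16773992))) (b (a (a (b (b (l 259476422503) (l 16777072)) (l 16776832)) (l 16774208)) (l 16773952)) (l 16773488))) (a (l 16774544) (l 16772536)))) (a (b (a (l 16774664) (l 16772696)) (b (l 16772152) (l 16771568))) (b (a (l 16772008) (l 16773904)) (a (l 16773416) (b (l 16772976) (l 16772424))))))), by decide +kernel⟩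

def k9_pm_012_s : ∃ t, chk3 f_pm_012_s t 259 509 1 = true :=
  ⟨(a (b (b (a (l 14) (b (l 16772336) (l 14))) (l 14)) (l 14)) (b (a (b (b (l 16773608) (a (l 16773408) (b (l 16772864) (l 16772696)))) (a (l 14) (l 16772664))) (b (b (a (l 16771296) (l 16772104)) (l 16772232)) (l 16772224))) (a (l 14) (l 16772216)))), by decide +kernel⟩

def k10_pm_012_s : ∃ t, chk3 f_pm_012_s t 64 255 1 = true :=
  ⟨(l 14), by decide +kernel⟩

def k11_pm_012_s : ∃ t, chk3 f_pm_012_s t 130 252 1 = true :=
  ⟨(a (l 3) (b (l 3) (a (l 3) (b (l 3) (a (l 3) (b (l 3) (b (a (l 3) (a (b (l 3) (l 399599728023)) (b (l 391009795751) (l 80161536631)))) (a (a (l 489257172887) (b (l 426980147159) (a (l 200957490215) (l 16776960)))) (a (a (b (b (l 360408153639) (l 16777048)) (l 16776720)) (l 16771456)) (l 16771096)))))))))), by decide +kernel⟩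

def k12_pm_012_s : ∃ t, chk3 f_pm_012_s t 260 253 1 = true :=
  ⟨(b (a (l 3) (b (l 3) (a (l 3) (b (l 3) (a (l 521469427431) (b (a (l 3) (l 454897433207)) (a (b (l 426980147143) (a (l 170892719319) (l 16776992))) (a (b (b (l 359334411975) (l 16777072)) (l 16776784)) (l 16774152))))))))) (a (b (a (l 3) (b (l 3) (a (l 3) (b (l 3) (a (b (l 3) (a (l 414095244951) (b (l 296520515431) (l 16777080)))) (b (a (l 399599730343) (b (l 256255197031) (l 16777064))) (l 16774272))))))) (a (b (a (l 3) (b (l 3) (a (b (l 3) (a (l 483351592903) (l 279877515687))) (b (a (l 457044918231) (l 258402679191)) (l 16775664))))) (a (b (a (b (l 3) (a (l 528448749511) (l 356113186327))) (b (a (l 508047654855) (b (l 459192401719) (l 16777176))) (l 74255956791))) (a (b (l 76403440487) (l 16776712)) (l 16773904))) (b (a (l 67813504999) (l 16773848)) (l 16773360)))) (b (a (b (a (b (l 3) (a (l 442012532359) (b (l 381882990423) (l 16777120)))) (b (a (l 428590759575) (b (l 343228284759) (l 16777104))) (l 16774312)))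 (l 62981665671)) (b (l 16775240) (l 16773232))) (a (l 16772960) (l 16772184))))) (b (a (b (a (l 541333651159) (b (l 524153782087) (a (b (l 516637589415) (a (l 314774126279) (l 16777080))) (b (a (l 285246223495) (l 16777064)) (l 16771552))))) (a (b (a (b (l 546165489575) (a (l 385104215719) (b (l 16776880) (l 16777040)))) (b (a (l 369534959127) (l 16777104)) (l 16771600))) (l 16773872)) (l 16774760))) (b (a (b (a (b (l 472077303735) (a (l 255181452423) (l 16777040))) (a (b (l 238001583191) (l 16776840)) (l 16774208))) (l 16773760)) (l 16773312)) (a (l 16772640) (l 16769176)))) (a (b (a (l 16772800) (l 16772000)) (l 16770976)) (b (l 16770728) (l 16766624)))))), by decide +kernel⟩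

def k13_pm_012_s : ∃ t, chk3 f_pm_012_s t 261 253 1 = true :=
  ⟨(b (a (b (a (l 3) (b (l 3) (a (b (l 3) (a (l 3) (b (l 3) (a (l 445770628759) (l 219211101239))))) (b (a (l 3) (b (l 3) (a (l 411410890407) (l 16777088)))) (a (b (a (l 429127630487) (l 152102237351)) (l 16774248)) (l 16774016)))))) (a (b (a (b (l 3) (a (l 3) (b (l 3) (l 386177957527)))) (b (a (l 3) (b (l 3) (l 329806510487))) (a (b (l 358260668807) (l 16775672)) (l 16775448)))) (a (b (a (b (l 380272375191) (l 81772149607)) (a (l 75329698263) (l 16771472))) (l 16773624)) (l 16773160))) (b (a (b (a (b (a (l 459729272455) (l 237464712295)) (l 16774312)) (l 16774080)) (l 16770864)) (l 16773000)) (b (l 16772224) (l 16768792))))) (b (a (b (a (b (l 3) (a (l 3) (b (l 534891200423) (a (l 328732769991) (l 16777080))))) (b (a (l 526838136711) (b (l 482814721975) (a (l 253033968775) (l 16777016)))) (a (b (a (l 286856838871) (l 16777048)) (l 16771504)) (l 16771248)))) (a (b (a (b (a (l 369534959287) (l 16777104)) (l 16771568))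 (l 16771320)) (l 16770712)) (l 16772824))) (b (a (b (b (a (a (l 227264164951) (l 16776992)) (l 16776640)) (l 16771192)) (l 16770536)) (l 16772616)) (b (l 16771784) (l 16768296)))) (a (b (b (l 16772024) (l 16768560)) (l 16769920)) (a (l 16769264) (l 16765600))))) (a (b (a (b (b (l 16772416) (l 16771632)) (l 16770472)) (a (l 16769872) (l 16766288))) (b (a (l 16771544) (l 16769616)) (a (l 16767432) (b (l 16767264) (l 16768192))))) (b (a (a (l 16765304) (l 16769520)) (b (l 16768784) (b (l 16767504) (l 16764240)))) (b (a (b (l 16768024) (a (l 16767808) (l 16767144))) (l 16766512)) (l 16766920))))), by decide +kernel⟩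

def k14_pm_012_s : ∃ t, chk3 f_pm_012_s t 262 252 1 = true :=
  ⟨(b (a (l 3) (b (l 3) (a (b (l 3) (a (l 3) (b (l 3) (a (l 3) (l 456508046759))))) (b (a (l 3) (a (l 3) (a (l 490867783431) (b (l 3) (b (l 3) (l 193978168359)))))) (a (a (b (l 3) (b (l 376514279783) (l 79624665671))) (b (b (l 3) (a (l 495699623399) (l 298667996167))) (l 70497858967))) (b (a (b (a (l 474761658135) (l 238001583159)) (l 16774272)) (l 16773992)) (l 16773304))))))) (a (b (a (l 3) (b (l 535964941975) (a (b (l 3) (a (b (l 3) (b (l 409800277671) (l 176798299127))) (b (a (l 381882990263) (b (l 16776560) (l 16777008))) (l 16771544)))) (b (a (b (l 538649296807) (a (l 334101479111) (l 16775768))) (b (a (l 285783094423) (l 16774424)) (l 16771472))) (l 16773640))))) (a (b (b (a (l 3) (b (a (l 3) (a (l 446844370583) (l 198810006567))) (a (a (l 467782336135) (l 228337906775)) (l 16774240)))) (a (a (b (l 3) (l 357723797911)) (b (a (l 505900171207) (l 253033968791)) (l 16775624))) (l 58149826135))) (a (b (a (a (l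 73182214183) (l 16771384)) (l 16771016)) (l 16770360)) (l 16772424))) (b (a (b (l 16773728) (l 16770176)) (l 16772232)) (b (l 16771336) (l 16767768))))) (b (a (b (a (b (l 502142074503) (a (b (l 484425334711) (a (l 246054646919) (l 16774384))) (a (b (l 217600488519) (l 16776760)) (l 16774112)))) (b (a (b (l 428590759687) (a (l 188609459207) (l 16776936))) (a (b (l 265918872615) (l 16776680)) (l 16771416))) (l 16773472))) (a (l 16773088) (l 16772040))) (b (a (l 16772912) (l 16771848)) (l 16770440))) (a (b (l 16770976) (l 16766088)) (b (l 16765848) (l 16769104)))))), by decide +kernel⟩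

def k15_pm_012_s : ∃ t, chk3 f_pm_012_s t 263 252 1 = true :=
  ⟨(b (a (b (a (b (l 3) (a (l 3) (b (l 3) (a (l 502142072663) (b (l 480130366087) (b (l 341080800567) (l 16774416))))))) (b (a (l 3) (b (l 3) (a (l 451139337431) (b (a (l 3) (l 312626640023)) (a (l 243907165159) (l 16776864)))))) (b (a (a (l 476372268887) (b (l 443623144215) (a (b (l 366313733943) (l 16777080)) (l 16774328)))) (a (a (b (l 269140097943) (l 16776688)) (l 16774040)) (l 16771032))) (a (a (b (a (l 259476420887) (l 16774368)) (l 16771400)) (l 16771120)) (l 16770328))))) (b (a (a (b (a (l 3) (b (l 3) (b (l 390472924599) (l 254644583415)))) (b (a (a (l 405505310455) (l 270213839767)) (l 16774152)) (l 16773936))) (b (a (b (a (l 312089769127) (l 16776408)) (l 16771488)) (l 16771208)) (l 16770504))) (a (l 16772552) (l 16768864))) (a (a (l 16772728) (l 16771664)) (l 16770048)))) (b (a (b (a (b (a (b (l 3) (a (l 488183429735) (b (l 471540432743) (l 16777152)))) (b (a (l 473151045399) (l 255718324487)) (l 16775584)))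 (a (a (l 75329697767) (l 16771336)) (l 16770944))) (b (l 16775048) (l 16770160))) (a (l 16772376) (l 16768696))) (b (a (l 16772216) (l 16768560)) (l 16769744))) (a (b (l 16769880) (l 16770504)) (b (l 16770368) (l 16768344))))) (a (b (a (b (l 16770240) (l 16765624)) (a (l 16764976) (l 16763872))) (a (l 16764576) (l 16760336))) (b (b (l 16764104) (l 16760080)) (b (l 16758024) (a (l 16762312) (l 16760560)))))), by decide +kernel⟩

def k16_pm_012_s : ∃ t, chk3 f_pm_012_s t 131 253 1 = true :=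
  ⟨(a (b (a (b (a (b (b (l 16771552) (l 16768016)) (l 16769272)) (b (l 16768968) (l 16769704))) (a (b (l 16770104) (l 16768336)) (b (l 16767864) (l 16766072)))) (b (a (b (l 16769376) (l 16767440)) (l 16760872)) (b (a (l 16765544) (b (l 16763720) (l 16763120))) (a (b (l 16764304) (l 16763872)) (l 16762880))))) (a (b (b (a (a (l 16767144) (l 16766104)) (b (l 16765008) (l 16764736))) (a (b (l 16765760) (l 16765632)) (l 16764736))) (l 16765216)) (b (l 16763344) (l 16763448)))) (b (b (a (b (a (l 16764800) (l 16762576)) (a (l 16760344) (l 16761416))) (a (b (l 16760912) (l 16760496)) (l 16759816))) (a (a (l 16762016) (l 16761120)) (l 16759832))) (a (l 16761528) (l 16759744)))), by decide +kernel⟩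

def k17_pm_012_s : ∃ t, chk3 f_pm_012_s t 65 127 1 = true :=
  ⟨(b (a (b (a (b (a (a (b (a (l 16774408) (l 16772368)) (l 16772744)) (b (l 16772520) (l 16767232))) (b (a (l 16766936) (a (l 16770856) (b (l 16770304) (l 16769688)))) (a (b (l 16771136) (a (l 16770912) (l 16770240))) (a (b (l 16769960) (l 16769824)) (l 16769456))))) (a (b (a (l 16771472) (b (a (l 16771888) (l 16771128)) (a (l 16771352) (l 16770848)))) (a (b (a (l 16772240) (l 16771592)) (a (l 16771832) (l 16771488))) (l 16771008))) (a (b (a (l 16770512) (l 16770168)) (l 16770336)) (l 16769640)))) (b (a (a (b (b (a (l 16769432) (l 16768752)) (l 16768904)) (l 16768904)) (l 16768136)) (l 16766960)) (a (l 16768560) (l 16767056)))) (a (a (b (a (l 16771624) (l 16771000)) (l 16771352)) (b (l 16770024) (l 16770128))) (a (l 16763496) (b (l 16767232) (b (l 16767408) (l 16767680)))))) (b (a (a (l 16765392) (l 16763720)) (a (l 16761976) (l 16760152))) (a (b (l 16762272) (b (a (l 16766072) (l 16764512)) (l 16755128))) (b (b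 (l 16751240) (l 16756592)) (l 16762704))))) (a (b (a (b (a (b (l 16771424) (l 14)) (b (l 16749368) (l 16769240))) (a (l 14) (l 16747104))) (b (a (b (l 16769152) (l 16769600)) (l 16768432)) (l 16745312))) (a (l 14) (l 16755288))) (b (a (l 16745296) (l 16764488)) (a (l 16738312) (l 16737584))))), by decide +kernel⟩

def k18_pm_012_s : ∃ t, chk3 f_pm_012_s t 66 124 1 = true :=
  ⟨(a (l 3) (b (l 3) (a (l 3) (b (l 3) (a (b (l 3) (a (b (l 3) (a (l 3) (b (l 3) (l 408189664823)))) (b (a (l 3) (a (l 453823683127) (a (l 409800277047) (b (l 3) (l 180019523975))))) (a (b (a (l 3) (l 308868543495)) (a (b (l 251423358631) (l 16776896)) (l 16776640))) (a (b (l 142438556455) (l 16776192)) (l 16770888)))))) (b (a (b (l 3) (a (l 3) (b (l 3) (b (l 368461214855) (a (l 348596993383) (l 16776888)))))) (b (a (l 449528713751) (b (l 418927077047) (b (a (l 251960218119) (l 16777024)) (l 16774240)))) (a (b (a (b (l 284172470775) (l 181093261895)) (l 16774320)) (l 16771168)) (l 16770664)))) (a (b (a (b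 (a (l 414095240855) (b (l 228337899079) (l 16776992))) (l 16774008)) (l 16770888)) (l 16769768)) (l 16768776)))))))), by decide +kernel⟩

def k19_pm_012_s : ∃ t, chk3 f_pm_012_s t 134 124 1 = true :=
  ⟨(b (a (b (l 3) (a (l 3) (b (l 3) (a (l 3) (b (l 3) (a (l 3) (b (l 3) (l 365776861927)))))))) (b (a (l 3) (b (l 3) (a (l 3) (b (l 453823676119) (a (b (l 3) (a (l 400673468311) (l 167134617143))) (b (a (l 227264154855) (l 16777032)) (l 16776560))))))) (a (b (a (l 3) (b (l 3) (a (l 443086262999) (b (l 409263400887) (a (l 189146322647) (l 16776856)))))) (a (b (a (l 3) (a (l 410874012423) (b (l 3) (l 155860328679)))) (a (b (a (l 419463949575) (l 181630135495)) (l 16771472)) (l 16770992))) (b (a (b (a (b (l 286856826935) (l 16777144)) (l 16776968)) (l 16776480)) (l 16765512)) (l 16764496)))) (b (a (b (a (l 403894694535) (b (l 352355088375) (l 16771560))) (a (l 111836912871) (l 16765272))) (l 16772608)) (l 16770608))))) (a (b (a (b (l 3) (a (b (l 3) (a (b (l 3) (l 393694148071)) (b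 (a (l 462950492071) (b (l 273435053687) (l 16777152))) (l 128479912103)))) (b (a (b (l 3) (a (l 423758916791) (b (l 239612188263) (l 16777040)))) (b (a (l 388325437895) (l 161765907895)) (l 16771344))) (l 91972691863)))) (b (a (b (a (l 3) (l 431811974791)) (a (a (l 394231020487) (b (l 441475656183) (l 16776976))) (b (a (b (l 257328927671) (l 16777104)) (l 16776864)) (l 16765864)))) (b (a (b (l 392620403559) (a (l 172503330679) (l 16776752))) (l 106468204535)) (l 16770192))) (a (l 16772296) (l 16767976)))) (a (b (a (b (a (a (b (b (l 362018766247) (l 16776968)) (l 16776400)) (l 16771096)) (l 16770440)) (l 16769344)) (l 16768376)) (l 16766168)) (a (l 16765144) (l 16763472)))) (b (a (b (a (l 16769232) (l 16762328)) (l 16765472)) (a (l 16764496) (l 16757656))) (a (l 16761024) (l 16752616))))), by decide +kernel⟩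

def k20_pm_012_s : ∃ t, chk3 f_pm_012_s t 135 124 1 = true :=
  ⟨(b (a (b (a (b (a (b (l 3) (a (l 3) (l 408189656199))) (b (a (l 3) (a (l 424295784279) (l 346986380119))) (a (b (l 358797537607) (l 16776856)) (l 16771160)))) (a (b (a (b (l 417853334967) (a (l 199346869687) (l 16776912))) (l 113447525255)) (l 16770448)) (l 16769528))) (b (a (b (a (b (b (l 220284833079) (l 16773160)) (l 16776616)) (l 16765672)) (l 16764728)) (l 16769072)) (l 16767168))) (a (b (l 16767576) (l 16759552)) (l 16763744))) (b (a (a (l 16766208) (l 16764712)) (l 16762520)) (b (l 16760672) (l 16752088)))) (a (b (a (l 16760560) (l 16762784)) (a (l 16760048) (b (l 16758544) (a (l 16756400) (b (l 16755688) (l 16754448)))))) (b (a (l 16759888) (b (l 16758472) (l 16755800))) (b (a (a (l 16756408) (l 16755112)) (b (a (l 16754432) (l 16753512)) (l 16753376))) (a (b (a (l 16754432) (l 16753616)) (l 16753536)) (l 16753064)))))), by decide +kernel⟩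

def k21_pm_012_s : ∃ t, chk3 f_pm_012_s t 132 250 1 = true :=
  ⟨(a (l 3) (b (l 3) (a (b (l 3) (a (l 3) (b (l 3) (a (l 3) (b (l 3) (a (l 3) (b (l 3) (a (l 372219313895) (l 16777112))))))))) (b (a (l 3) (b (l 3) (a (l 3) (b (l 3) (a (b (l 3) (l 257865806935)) (b (l 202031232119) (l 16776832))))))) (a (b (a (l 3) (b (l 3) (a (l 437717560887) (b (l 416242728519) (l 16774408))))) (a (b (a (l 466708589287) (b (l 440938787783) (l 258939550567))) (b (a (l 284709354439) (l 16776720)) (l 16771280))) (a (b (a (l 91972696503) (l 16771512)) (l 16776016)) (l 16770728)))) (b (b (a (a (l 408726532519) (b (l 303499837095) (l 16776928))) (l 16773808)) (l 81772145191)) (l 16769528))))))), by decide +kernel⟩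

def k22_pm_012_s : ∃ t, chk3 f_pm_012_s t 133 250 1 = true :=
  ⟨(a (b (a (b (l 3) (a (l 3) (b (l 3) (a (b (l 3) (a (l 3) (l 387251697863))) (b (a (l 3) (b (l 466171719703) (l 189146329735))) (a (b (l 324437802151) (l 16776872)) (l 16776608))))))) (b (a (l 3) (b (l 464024234103) (a (b (l 3) (a (l 389936050887) (b (l 256255196823) (l 16776896)))) (b (a (l 358260669495) (b (l 269676968887) (l 16776784))) (l 16771160))))) (a (b (a (b (l 3) (a (l 452213074551) (b (l 261623903111) (l 16777096)))) (b (a (l 421074562711) (b (l 353428831943) (l 16777000))) (l 16773992))) (a (a (b (l 145659786487) (l 16776144)) (l 16770848)) (l 16770152))) (b (l 16773024) (l 16768768))))) (a (b (a (b (a (l 459192401223) (b (l 431275113399) (a (b (l 436643823191) (l 16777072)) (l 16774192)))) (b (a (a (b (l 457044914583) (l 183240749783)) (b (l 254107712359) (l 16776728))) (l 16770984)) (l 16770608))) (b (a (b (a (b (l 336785833655) (l 16776976)) (l 16771472)) (l 16770872)) (l 16770352)) (l 16769152)))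 (a (l 16771112) (l 16766616))) (b (a (l 16768128) (l 16761056)) (l 16763872)))) (b (a (b (a (b (a (b (l 431811978567) (a (b (l 263234505751) (l 16777104)) (l 16774240))) (b (b (a (l 233169747127) (l 16776952)) (l 16771536)) (l 16770944))) (l 16770192)) (l 16771800)) (b (l 16767672) (l 16760808))) (b (l 16767824) (l 16758088))) (a (b (l 16758360) (l 16765552)) (l 16753248)))), by decide +kernel⟩

def k23_pm_012_s : ∃ t, chk3 f_pm_012_s t 132 502 1 = true :=
  ⟨(a (a (l 3) (b (a (l 3) (b (l 3) (l 482277847255))) (a (b (l 3) (b (a (l 3) (a (l 430201371767) (b (l 370608701015) (l 16774352)))) (b (a (l 444696883335) (a (l 89288342167) (l 16776528))) (a (a (l 443623142935) (a (l 195588781095) (l 16776952))) (l 16771088))))) (b (a (b (l 3) (b (a (l 3) (a (l 445770628887) (l 197736267367))) (a (l 371145571703) (l 16774256)))) (b (a (b (l 3) (a (l 400136601319) (l 16776808))) (b (a (l 380809248279) (l 16777088)) (l 16776784))) (l 16773744))) (a (l 76940306887) (l 16769776)))))) (b (a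 (a (b (a (l 3) (b (l 3) (l 437717564919))) (a (b (l 458118653623) (a (b (l 457581786023) (a (l 273971937015) (l 16777048))) (a (b (l 208473685767) (l 16776808)) (l 16774160)))) (b (a (b (l 417316468375) (l 228337908455)) (l 82845889799)) (l 16770928)))) (b (a (b (a (l 3) (b (l 3) (l 302962963527))) (a (b (l 365239991863) (l 16774344)) (l 16774080))) (b (b (a (a (l 418927083303) (l 16776504)) (l 16776816)) (l 16774008)) (l 16770728))) (l 16772520))) (a (a (l 16771944) (l 16768368)) (l 16766936))) (a (a (b (l 16772712) (l 16768304)) (l 16767256)) (l 16764392)))), by decide +kernel⟩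

def k24_pm_012_s : ∃ t, chk3 f_pm_012_s t 132 503 1 = true :=
  ⟨(a (a (b (a (b (l 3) (a (b (l 3) (a (l 3) (b (l 3) (l 401210341927)))) (a (b (l 3) (b (a (l 476909140007) (l 257328936119)) (l 16776456))) (b (b (l 3) (a (l 468319207223) (l 227801035863))) (l 16775368))))) (b (a (b (l 3) (a (l 3) (b (l 3) (a (l 394767892183) (l 255181454375))))) (b (a (l 487646555607) (b (l 462950495479) (b (l 340543929687) (l 16774432)))) (a (b (a (l 324974673671) (l 16774464)) (l 16771528)) (l 16771248)))) (a (b (a (b (a (l 438791306935) (l 188609459223)) (l 16774240)) (l 16773968)) (l 16770680)) (l 16772752)))) (a (b (a (b (a (b (l 420000823607) (a (l 176261428215) (l 16776920))) (b (b (l 242833423335) (l 16776888)) (l 16776544))) (l 16773480)) (l 16772928)) (l 16771568)) (b (l 16771416) (l 16766936)))) (b (a (b (a (b (a (b (a (l 214916134071) (l 16777000)) (l 16776672)) (l 16771160)) (l 16770496)) (l 16769952)) (l 16768632)) (l 16769856)) (b (l 16768432) (l 16763976)))) (b (a (a (l 16765616)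 (l 16768936)) (l 16766112)) (a (l 16761048) (l 16762552)))), by decide +kernel⟩

def k25_pm_012_s : ∃ t, chk3 f_pm_012_s t 133 251 1 = true :=
  ⟨(a (b (a (b (l 16764136) (l 16765928)) (l 16758800)) (b (a (l 16762440) (b (l 16759760) (a (l 16758912) (l 16757544)))) (a (b (l 16759856) (a (l 16759024) (l 16757840))) (b (l 16757384) (l 16757080))))) (b (b (a (l 16762224) (a (l 16759664) (l 16758040))) (a (a (l 16759720) (b (l 16758848) (l 16757344))) (b (a (l 16757280) (l 16756216)) (l 16756160)))) (b (a (b (a (l 16757432) (l 16756568)) (l 16756592)) (l 16755880)) (l 16755928)))), by decide +kernel⟩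

def k26_pm_012_s : ∃ t, chk3 f_pm_012_s t 67 125 1 = true :=
  ⟨(b (a (a (b (a (b (l 16768304) (l 16765160)) (l 16752936)) (b (l 16749864) (a (l 16758792) (b (a (l 16757160) (l 16755808)) (a (l 16755880) (l 16755160)))))) (b (a (l 16760216) (b (l 16758640) (b (l 16756432) (a (l 16755688) (l 16754648))))) (b (a (b (l 16756472) (a (l 16755752) (l 16754856))) (l 16754416)) (l 16754352)))) (a (b (b (a (b (l 16756392) (a (l 16755664) (l 16754512))) (b (a (l 16754472) (l 16753800)) (l 16753768))) (a (a (b (l 16754568) (l 16754184)) (l 16753960)) (l 16753480))) (l 16753208)) (b (l 16752760) (l 16751912)))) (a (b (a (a (b (b (a (l 16757192) (l 16755968)) (l 16755824)) (l 16755456)) (l 16754888)) (l 16753792)) (a (l 16754552) (l 16753016))) (b (a (l 16752376) (l 16751016)) (l 16745576)))), by decide +kernel⟩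

def k27_pm_012_s : ∃ t, chk3 f_pm_012_s t 33 63 1 = true :=
  ⟨(b (a (b (a (b (a (a (b (a (b (l 16767040) (l 16770304)) (l 16766016)) (a (l 16762024) (l 16765248))) (b (l 16762440) (a (l 16763272) (l 16756144)))) (b (a (l 16762552) (b (a (l 16760720) (l 16759072)) (a (l 16759080) (l 16758128)))) (a (b (a (l 16760520) (l 16759056)) (a (l 16759000) (l 16758312))) (l 16757824)))) (a (b (a (b (l 16763128) (a (l 16762080) (l 16760208))) (b (a (l 16760216) (l 16758944)) (l 16758688))) (a (b (a (l 16760320) (l 16759184)) (l 16759160)) (l 16758040))) (a (l 16757400) (l 16756416)))) (b (a (a (b (l 16757616) (l 16756928)) (l 16756424)) (l 16755144)) (a (l 16755072) (l 16753288)))) (a (b (a (b (l 16757944) (l 16757408)) (b (l 16755432) (l 16754568))) (a (l 16757056) (l 16753872))) (b (a (l 16752808) (l 16750976)) (a (l 16751360) (b (l 16749400) (l 16748568)))))) (b (a (b (a (l 16753480) (l 16751872)) (l 16740240)) (b (l 16749576) (l 16747488))) (a (b (a (l 16749176) (l 16747600)) (a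 (b (l 16747616) (l 16746120)) (l 16744216))) (b (a (b (l 16746440) (l 16744640)) (l 16743088)) (l 16740048))))) (a (b (a (b (a (b (l 16757272) (a (l 16758632) (l 16756776))) (b (l 16753912) (l 16748568))) (a (b (l 16747648) (l 16759240)) (l 16754784))) (b (a (b (l 16750512) (l 16750392)) (l 16747320)) (l 16748376))) (a (b (a (l 16760776) (l 16756360)) (l 16758712)) (b (l 16728048) (l 16729256)))) (b (a (b (l 16742528) (l 16740232)) (l 16734072)) (a (b (l 16739000) (l 16738360)) (l 16717608))))), by decide +kernel⟩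

def k28_pm_012_s : ∃ t, chk3 f_pm_012_s t 34 60 1 = true :=
  ⟨(a (l 3) (b (l 3) (a (b (l 3) (a (l 3) (b (a (l 3) (l 348060098679)) (a (b (l 413021482679) (l 132774857207)) (l 16765048))))) (b (a (b (l 3) (a (l 3) (l 286319958695))) (b (a (l 340007036519) (l 16755800)) (l 16753512))) (a (b (a (l 122574300887) (l 16774440)) (l 16751016)) (l 16748256)))))), by decide +kernel⟩

def k29_pm_012_s : ∃ t, chk3 f_pm_012_s t 68 61 1 = true :=
  ⟨(b (a (b (l 3) (a (l 3) (b (l 3) (a (l 3) (b (l 3) (a (l 3) (l 372756170503))))))) (b (a (l 3) (b (l 3) (a (l 444696848199) (b (l 400136582055) (a (l 163913371383) (l 16776160)))))) (a (b (a (l 3) (b (l 3) (a (l 391009779047) (b (l 211158013559) (l 16776736))))) (b (a (a (l 3) (l 319069090119)) (l 76940295351)) (a (a (b (l 311552896551) (l 16776488)) (l 16754704)) (l 16773672)))) (b (a (b (a (l 335175211239) (l 16766208)) (l 16764808)) (l 16752776)) (l 16765624))))) (a (b (a (b (l 3) (a (b (l 3) (a (l 3) (b (l 438791292791) (a (l 338396442023)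 (l 16771608))))) (b (a (b (l 3) (l 386714817639)) (b (l 350744475095) (l 109152554103))) (a (b (a (b (l 238001569415) (l 16777024)) (l 16776600)) (l 16765288)) (l 16764448))))) (b (a (b (l 448454953671) (a (b (l 3) (l 314774124663)) (b (a (l 346986375847) (l 16776936)) (l 16765680)))) (b (a (b (l 387251688343) (l 136532966663)) (l 16770952)) (l 16764160))) (a (b (l 57076078791) (l 16762328)) (l 16760744)))) (a (b (a (b (a (b (a (l 386177949975) (b (l 203104962519) (l 16776832))) (l 16771040)) (l 16770184)) (l 16768464)) (a (l 16767520) (l 16760864))) (a (l 16764752) (l 16756712))) (b (a (l 16758792) (l 16766608)) (a (l 16764496) (l 16761904))))) (b (a (b (b (l 16767576) (l 16765376)) (a (l 16768576) (l 16766016))) (b (l 16756152) (l 16751848))) (a (b (l 16757528) (l 16747696)) (b (l 16757960) (a (b (l 16755776) (b (l 16754096) (a (l 16753520) (l 16752632)))) (b (a (l 16754056) (b (l 16753488) (l 16752584))) (b (a (l 16752608) (l 16752144)) (l 16752096))))))))), by decide +kernel⟩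

def k30_pm_012_s : ∃ t, chk3 f_pm_012_s t 69 61 1 = true :=
  ⟨(b (a (b (a (b (a (b (l 3) (l 322827177959)) (b (l 282024995783) (l 16775696))) (a (l 69424097351) (l 16751792))) (b (l 16752016) (l 16748200))) (a (b (l 16759528) (l 16745008)) (l 16752864))) (b (a (l 16745496) (l 16762080)) (a (l 16737968) (b (l 16756600) (a (l 16753952) (b (l 16752832) (l 16751400))))))) (a (b (a (b (l 16761872) (l 16757704)) (b (l 16757392) (a (l 16754504) (b (l 16753376) (a (l 16752112) (l 16751584)))))) (a (b (a (b (l 16755632) (a (l 16754024) (l 16753064))) (b (l 16753544) (b (l 16752248) (l 16751840)))) (a (b (b (a (l 16752560) (l 16752016)) (l 16751968)) (l 16751736)) (l 16751464))) (b (a (b (a (l 16752200) (l 16751696)) (l 16751512)) (l 16751232)) (l 16750808)))) (b (a (b (a (l 16754264) (b (l 16753144) (l 16751680))) (a (b (l 16751792) (l 16751272)) (l 16750984))) (b (a (b (l 16751552) (l 16751000)) (l 16750704)) (l 16750336))) (a (l 16750264) (l 16749384))))), by decide +kernel⟩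

def k31_pm_012_s : ∃ t, chk3 f_pm_012_s t 35 30 1 = true :=
  ⟨(b (a (b (a (b (a (l 3) (l 312089735639)) (a (b (l 401747180935) (l 118816193559)) (l 16752896))) (b (a (l 16744400) (l 16750472)) (l 16746392))) (a (b (a (l 16750704) (l 16767304)) (l 16752240)) (a (l 16738816) (b (l 16758888) (b (l 16754064) (l 16751176)))))) (b (a (l 16740840) (b (l 16756120) (a (l 16752304) (l 16748480)))) (a (b (a (l 16754720) (l 16750952)) (a (b (l 16750368) (l 16748488)) (l 16747448))) (b (a (l 16747640) (l 16745520)) (l 16745728))))) (b (a (a (b (a (l 16757872) (b (l 16755520) (a (l 16753096) (l 16751424)))) (a (b (a (l 16753568) (l 16751888)) (a (l 16750936) (l 16750360))) (b (l 16750224) (l 16749680)))) (b (a (b (l 16751856) (l 16749744)) (l 16748856)) (l 16748520))) (a (l 16746944) (l 16744728))) (a (a (b (l 16749304) (l 16748064)) (b (l 16747456) (l 16746232))) (a (l 16744944) (l 16742912))))), by decide +kernel⟩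

def k32_pm_012_s : ∃ t, chk3 f_pm_012_s t 17 62 1 = true :=
  ⟨(b (a (a (a (b (a (b (a (l 16754464) (l 16762232)) (a (l 16759768) (l 16757128))) (b (l 16753104) (b (a (l 16755872) (b (a (l 16754640) (l 16753520)) (a (l 16753512) (l 16752776)))) (a (b (a (l 16754584) (l 16753496)) (a (l 16753480) (l 16752848))) (l 16752568))))) (b (a (b (a (l 16755808) (b (a (l 16754512) (l 16753472)) (a (l 16753464) (l 16752952)))) (a (b (a (l 16754456) (l 16753464)) (a (l 16753480) (l 16753072))) (l 16752784))) (a (l 16752464) (l 16751984))) (a (l 16752432) (l 16751376)))) (b (a (b (a (b (l 16755864) (b (l 16754136) (a (l 16753528) (l 16752720)))) (b (b (l 16754120) (a (l 16753536) (l 16752680))) (a (b (l 16752696) (l 16752424)) (l 16752280)))) (b (a (a (l 16752616) (l 16752376)) (l 16752032)) (l 16751880))) (b (a (b (a (b (l 16752656) (l 16752320)) (l 16752176)) (l 16751944)) (l 16751664)) (l 16751144))) (a (b (l 16751264) (l 16750360)) (l 16749848)))) (a (b (a (l 16750616) (l 16749712))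 (a (l 16748896) (l 16747960))) (b (l 16743136) (l 16746568)))) (a (a (b (l 16746584) (l 16744728)) (l 16741208)) (a (l 16720968) (b (l 16740912) (l 16737336))))) (a (a (b (a (a (l 16751128) (l 16749976)) (a (l 16748880) (l 16747816))) (a (b (l 16749080) (l 16748072)) (b (l 16746680) (l 16745544)))) (b (a (l 16735808) (l 16744352)) (a (b (l 16744488) (a (l 16743816) (l 16742432))) (b (l 16721440) (l 16728288))))) (a (b (a (l 16742488) (b (l 16741192) (l 16738152))) (a (b (l 16717480) (l 16732360)) (l 16707600))) (b (a (l 16721384) (l 16727344)) (l 16694968))))), by decide +kernel⟩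

def k33_pm_012_s : ∃ t, chk3 f_pm_012_s t 17 63 1 = true :=
  ⟨(b (a (a (b (a (b (l 16746704) (b (l 16745152) (l 16722016))) (b (b (l 16744584) (l 16722040)) (l 16738840))) (a (b (l 16738928) (l 16733328)) (l 16729056))) (b (a (b (l 16718000) (l 16732280)) (l 16707792)) (b (l 16720704) (l 16713048)))) (a (b (l 16695712) (l 16677680)) (b (l 16677384) (l 16657304)))) (a (b (a (a (l 16725952) (l 16717080)) (l 16681632)) (a (a (l 16718096) (l 16707456)) (l 16690568))) (a (b (l 16681608) (l 16666720)) (b (l 16659008) (l 16641848))))), by decide +kernel⟩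

def k34_pm_012_s : ∃ t, chk3 f_pm_012_s t 9 14 1 = true :=
  ⟨(a (b (a (a (l 3) (b (l 3) (a (l 363629286311) (l 103246826551)))) (a (b (a (l 254107502183) (l 16740544)) (a (l 16771376) (l 16763000))) (b (l 16769008) (l 16730256)))) (a (b (a (b (l 364703039687) (a (l 111299913495) (l 16771136))) (a (l 16746968) (l 16738472))) (a (b (a (l 16768496) (l 16759864)) (a (l 16756568) (b (l 16751048) (l 16745760)))) (b (a (l 16751320) (l 16743992)) (a (b (l 16743520) (l 16740168)) (l 16737896))))) (b (a (b (l 16752176) (a (l 16746080) (l 16739160))) (b (l 16717184) (l 16732976))) (a (b (l 16715352) (l 16733680)) (l 16728840))))) (b (a (b (a (l 16731672) (l 16717600)) (a (b (l 16740240) (l 16733464)) (l 16728288))) (a (b (l 16728176) (l 16722584)) (l 16719392))) (a (b (l 16726040) (l 16698904)) (b (l 16713712) (a (l 16710080) (l 16702176)))))), by decide +kernel⟩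

def k35_pm_012_s : ∃ t, chk3 f_pm_012_s t 9 15 1 = true :=
  ⟨(b (a (b (a (a (b (a (b (l 16727120) (l 16744232)) (l 16741400)) (l 16741920)) (b (l 16737240) (l 16736000))) (a (l 16730512) (l 16724368))) (a (a (b (l 16740904) (l 16718640)) (b (l 16735432) (a (l 16731040) (l 16726168)))) (a (b (l 16729080) (b (l 16721280) (l 16719968))) (b (l 16719880) (l 16704984))))) (a (b (a (l 16718008) (b (l 16712512) (l 16706520))) (b (a (l 16707648) (l 16685152)) (l 16624168))) (b (a (b (l 16703752) (l 16687808)) (b (l 16687184) (l 16658712))) (b (l 16620712) (l 16608160))))) (a (b (b (a (a (b (a (l 16735024) (l 16729704)) (a (l 16733096) (l 16725472))) (a (l 16702016) (l 16692624))) (a (l 16675672) (l 16651176))) (a (b (a (l 16692768) (l 16693232)) (a (l 16675768) (l 16675144))) (b (l 16615536) (a (l 16651352) (l 16625512))))) (b (a (a (b (l 16677640) (l 16655960)) (b (l 16654872) (l 16631936))) (a (b (l 16630224) (l 16606360)) (l 16570568))) (a (a (b (l 16635040) (l 16616040)) (b (l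 16609688) (l 16589272))) (a (l 16551144) (l 16543976))))) (b (b (a (l 16610312) (l 16571976)) (a (a (l 16587824) (l 16579536)) (l 16491528))) (b (a (a (l 16563040) (l 16533320)) (l 16444360)) (a (a (l 16514800) (l 16484360)) (l 16395160)))))), by decide +kernel⟩

def k36_pm_012_s : ∃ t, chk3 f_pm_012_s t 5 6 1 = true :=
  ⟨(a (a (a (b (a (b (l 16767880) (l 16763672)) (b (l 16766648) (l 16748936))) (b (a (l 16700720) (l 16731288)) (a (l 16724824) (l 16719272)))) (a (b (b (l 16730984) (l 16736976)) (b (l 16725288) (l 16713680))) (b (a (b (l 16742656) (l 16732368)) (b (l 16741048) (l 16731528))) (b (a (l 16721760) (a (l 16721024) (l 16720336))) (a (l 16709600) (a (l 16708280) (l 16706872))))))) (b (b (l 16710656) (l 16701888)) (b (l 16691632) (l 16679560)))) (b (b (l 16622256) (a (l 16643976) (l 16586504))) (b (a (l 16635672) (l 16580088)) (a (l 16626224) (l 16573192))))), by decide +kernel⟩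

def k37_pm_012_s : ∃ t, chk3 f_pm_012_s t 5 7 1 = true :=
  ⟨(b (a (a (a (b (b (l 16713784) (l 16707352)) (b (a (l 16703592) (l 16694688)) (a (b (l 16697264) (l 16684656)) (b (l 16679544) (l 16653560))))) (b (a (l 16699296) (a (b (l 16699320) (l 16684576)) (a (b (l 16694408) (l 16668400)) (b (l 16687120) (l 16650080))))) (a (b (a (l 16684600) (l 16670928)) (l 16607592)) (a (b (l 16647144) (l 16594104)) (a (l 16553552) (l 16536128)))))) (b (b (l 16658760) (l 16617280)) (b (l 16569480) (l 16515624)))) (b (b (a (l 16611224) (l 16563656)) (l 16484952)) (a (l 16423680) (l 16415608)))) (b (a (a (a (b (a (l 16642408) (l 16608056)) (l 16497536)) (a (b (l 16569568) (l 16506400)) (a (l 16463744) (a (l 16484320) (l 16427112))))) (b (l 16457144) (l 16394944))) (a (l 16295568) (l 16297192))) (a (a (a (b (b (l 16506968) (l 16468272)) (b (l 16420952) (l 16371480))) (b (a (b (l 16453888) (l 16415920)) (a (b (l 16423480) (l 16386512)) (b (a (l 16404408) (l 16390920)) (a (l 16368496) (l 16355840)))))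 (a (b (l 16369424) (l 16320856)) (a (b (l 16341096) (l 16293712)) (a (b (l 16324232) (l 16278088)) (b (l 16312464) (l 16267280))))))) (b (b (l 16343360) (l 16306240)) (b (l 16260728) (l 16213296)))) (b (b (l 16230128) (l 16186600)) (a (l 16126776) (l 16067152)))))), by decide +kernel⟩

def k38_pm_012_s : ∃ t, chk3 f_pm_012_s t 3 1 1 = true :=
  ⟨(a (a (b (b (l 2) (b (l 2) (b (l 2) (l 16490248)))) (b (b (b (l 16504768) (l 16500656)) (b (l 16475936) (l 16451744))) (b (b (b (l 16447760) (a (l 16485256) (l 16445496))) (a (l 16390936) (l 16348920))) (b (a (l 16241912) (l 6)) (l 6))))) (b (l 2) (a (b (b (l 16414584) (l 16390472)) (l 6)) (b (l 6) (l 6))))) (b (l 2) (l 6))), by decide +kernel⟩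

theorem s39_pm_012_s : ∃ t, chk3 f_pm_012_s t 5 3 1 = true := ex3_b k36_pm_012_s k37_pm_012_s

theorem s40_pm_012_s : ∃ t, chk3 f_pm_012_s t 9 7 1 = true := ex3_b k34_pm_012_s k35_pm_012_s

theorem s41_pm_012_s : ∃ t, chk3 f_pm_012_s t 17 31 1 = true := ex3_b k32_pm_012_s k33_pm_012_s

theorem s42_pm_012_s : ∃ t, chk3 f_pm_012_s t 34 61 1 = true := ex3_a k29_pm_012_s k30_pm_012_s

theorem s43_pm_012_s : ∃ t, chk3 f_pm_012_s t 34 30 1 = true := ex3_b k28_pm_012_s s42_pm_012_s

theorem s44_pm_012_s : ∃ t, chk3 f_pm_012_s t 17 30 1 = true := ex3_a s43_pm_012_s k31_pm_012_s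

theorem s45_pm_012_s : ∃ t, chk3 f_pm_012_s t 17 15 1 = true := ex3_b s44_pm_012_s s41_pm_012_s

theorem s46_pm_012_s : ∃ t, chk3 f_pm_012_s t 132 251 1 = true := ex3_b k23_pm_012_s k24_pm_012_s

theorem s47_pm_012_s : ∃ t, chk3 f_pm_012_s t 66 251 1 = true := ex3_a s46_pm_012_s k25_pm_012_s

theorem s48_pm_012_s : ∃ t, chk3 f_pm_012_s t 66 250 1 = true := ex3_a k21_pm_012_s k22_pm_012_s

theorem s49_pm_012_s : ∃ t, chk3 f_pm_012_s t 66 125 1 = true := ex3_b s48_pm_012_s s47_pm_012_s

theorem s50_pm_012_s : ∃ t, chk3 f_pm_012_s t 33 125 1 = true := ex3_a s49_pm_012_s k26_pm_012_s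

theorem s51_pm_012_s : ∃ t, chk3 f_pm_012_s t 67 124 1 = true := ex3_a k19_pm_012_s k20_pm_012_s

theorem s52_pm_012_s : ∃ t, chk3 f_pm_012_s t 33 124 1 = true := ex3_a k18_pm_012_s s51_pm_012_s

theorem s53_pm_012_s : ∃ t, chk3 f_pm_012_s t 33 62 1 = true := ex3_b s52_pm_012_s s50_pm_012_s

theorem s54_pm_012_s : ∃ t, chk3 f_pm_012_s t 33 31 1 = true := ex3_b s53_pm_012_s k27_pm_012_s

theorem s55_pm_012_s : ∃ t, chk3 f_pm_012_s t 131 252 1 = true := ex3_a k14_pm_012_s k15_pm_012_s

theorem s56_pm_012_s : ∃ t, chk3 f_pm_012_s t 131 126 1 = true := ex3_b s55_pm_012_s k16_pm_012_s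

theorem s57_pm_012_s : ∃ t, chk3 f_pm_012_s t 130 253 1 = true := ex3_a k12_pm_012_s k13_pm_012_s

theorem s58_pm_012_s : ∃ t, chk3 f_pm_012_s t 130 126 1 = true := ex3_b k11_pm_012_s s57_pm_012_s

theorem s59_pm_012_s : ∃ t, chk3 f_pm_012_s t 65 126 1 = true := ex3_a s58_pm_012_s s56_pm_012_s

theorem s60_pm_012_s : ∃ t, chk3 f_pm_012_s t 65 63 1 = true := ex3_b s59_pm_012_s k17_pm_012_s

theorem s61_pm_012_s : ∃ t, chk3 f_pm_012_s t 259 254 1 = true := ex3_b k8_pm_012_s k9_pm_012_s

theorem s62_pm_012_s : ∃ t, chk3 f_pm_012_s t 129 254 1 = true := ex3_a k7_pm_012_s s61_pm_012_s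

theorem s63_pm_012_s : ∃ t, chk3 f_pm_012_s t 64 254 1 = true := ex3_a k6_pm_012_s s62_pm_012_s

theorem s64_pm_012_s : ∃ t, chk3 f_pm_012_s t 64 127 1 = true := ex3_b s63_pm_012_s k10_pm_012_s

theorem s65_pm_012_s : ∃ t, chk3 f_pm_012_s t 64 63 1 = true := ex3_b k5_pm_012_s s64_pm_012_s

theorem s66_pm_012_s : ∃ t, chk3 f_pm_012_s t 32 63 1 = true := ex3_a s65_pm_012_s s60_pm_012_s

theorem s67_pm_012_s : ∃ t, chk3 f_pm_012_s t 32 31 1 = true := ex3_b k4_pm_012_s s66_pm_012_s

theorem s68_pm_012_s : ∃ t, chk3 f_pm_012_s t 16 31 1 = true := ex3_a s67_pm_012_s s54_pm_012_s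

theorem s69_pm_012_s : ∃ t, chk3 f_pm_012_s t 16 15 1 = true := ex3_b k3_pm_012_s s68_pm_012_s

theorem s70_pm_012_s : ∃ t, chk3 f_pm_012_s t 8 15 1 = true := ex3_a s69_pm_012_s s45_pm_012_s

theorem s71_pm_012_s : ∃ t, chk3 f_pm_012_s t 8 7 1 = true := ex3_b k2_pm_012_s s70_pm_012_s

theorem s72_pm_012_s : ∃ t, chk3 f_pm_012_s t 4 7 1 = true := ex3_a s71_pm_012_s s40_pm_012_s

theorem s73_pm_012_s : ∃ t, chk3 f_pm_012_s t 4 3 1 = true := ex3_b k1_pm_012_s s72_pm_012_s

theorem s74_pm_012_s : ∃ t, chk3 f_pm_012_s t 2 3 1 = true := ex3_a s73_pm_012_s s39_pm_012_s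

theorem s75_pm_012_s : ∃ t, chk3 f_pm_012_s t 2 1 1 = true := ex3_b k0_pm_012_s s74_pm_012_s

theorem s76_pm_012_s : ∃ t, chk3 f_pm_012_s t 1 1 1 = true := ex3_a s75_pm_012_s k38_pm_012_s

theorem c_pm_012_s : CertNE 0 536870912 536870912 536870912 1045395039 1503240 3 eng mog cd0q0 cd0q1 pd2 true true false .pnp 0 1 2
    ndB0q0 ndB0q1 pcB2 cut_pm_012_s Ext.none :=
  certNE2 (fam := true) (s1 := true) (s2 := false) (a := 0) (b := 1) (c := 2) (cn := .pnp) (n1 := ndB0q0) (n2 := ndB0q1) (pc := pcB2) (cut := cut_pm_012_s) (xt := Ext.none) (P1 := 0) (W1 := 536870912) (P2 := 536870912) (W2 := 536870912) (P3 := 1045395039) (W3 := 1503240) (N0 := 3) (En := eng) (mo := mog) (C1 := cd0q0) (C2 := cd0q1) (C3 := pd2)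
    rfl (fun _ => rfl) s76_pm_012_s

noncomputable def cut_pm_012_t : Cut := Cut.of [[⟨3, 0, 0, 2845415833⟩], [⟨0, 0, 0, 13421772⟩, ⟨1, 1, 0, 13421772⟩, ⟨2, 1, 0, 13421772⟩]]

noncomputable def f_pm_012_t : ℕ → ℕ → ℕ → ℕ → Bool := onCell 0 536870912 536870912 536870912 1045395039 1503240
    (rowNE 3 eng mog cd0q0 cd0q1 pd2 0 true true false .pnp 0 1 2 (qsf 0 536870912 536870912 536870912 2) ndB0q0 ndB0q1 pcB2 cut_pm_012_t Ext.none)

def k0_pm_012_t : ∃ t, chk3 f_pm_012_t t 1 1 1 = true :=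
  ⟨(l 6), by decide +kernel⟩

theorem c_pm_012_t : CertNE 0 536870912 536870912 536870912 1045395039 1503240 3 eng mog cd0q0 cd0q1 pd2 true true false .pnp 0 1 2
    ndB0q0 ndB0q1 pcB2 cut_pm_012_t Ext.none :=
  certNE0 (fam := true) (s1 := true) (s2 := false) (a := 0) (b := 1) (c := 2) (cn := .pnp) (n1 := ndB0q0) (n2 := ndB0q1) (pc := pcB2) (cut := cut_pm_012_t) (xt := Ext.none) (P1 := 0) (W1 := 536870912) (P2 := 536870912) (W2 := 536870912) (P3 := 1045395039) (W3 := 1503240) (N0 := 3) (En := eng) (mo := mog) (C1 := cd0q0) (C2 := cd0q1) (C3 := pd2)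
    rfl k0_pm_012_t

noncomputable def cut_pm_022_s : Cut := Cut.of [[⟨4, 0, 0, 1449551462⟩], [⟨0, 0, 0, 22369621⟩, ⟨1, 1, 0, 22369621⟩, ⟨2, 1, 0, 22369621⟩]]

noncomputable def f_pm_022_s : ℕ → ℕ → ℕ → ℕ → Bool := onCell 1073741824 536870912 0 536870912 1045395039 1503240
    (rowNE 3 eng mog cd0q0 cd0q2 pd2 2 true true false .pp 0 2 2 (qsf 0 536870912 0 536870912 2) ndB0q0 ndB0q2 pcB2 cut_pm_022_s Ext.none)

def k0_pm_022_s : ∃ t, chk3 f_pm_022_s t 4 2 1 = true :=
  ⟨(a (l 1) (l 6)), by decide +kernel⟩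

def k1_pm_022_s : ∃ t, chk3 f_pm_022_s t 8 3 1 = true :=
  ⟨(b (l 1) (b (a (l 1) (b (a (l 1) (b (l 1) (l 16573632))) (a (b (l 1) (a (l 16540568) (l 16570624))) (b (l 16564056) (a (l 16604568) (l 16601320)))))) (a (a (b (l 1) (l 14)) (a (a (b (l 1) (l 14)) (b (b (l 1) (b (l 1) (b (l 16545864) (l 16559488)))) (b (b (b (l 16579888) (l 16601088)) (b (l 16623424) (l 16647632))) (b (b (l 16672792) (l 16697648)) (b (l 16722152) (l 16725496)))))) (b (b (b (l 1) (l 16539344)) (b (l 16563504) (b (l 16565008) (a (l 16571472) (l 16584552))))) (b (b (a (l 16601120) (l 16613088)) (b (l 16617200) (l 16640208))) (b (a (l 16671720) (l 16659992)) (a (b (l 16707416) (l 16726704)) (b (l 16714584) (l 16713480)))))))) (b (a (b (a (b (l 16555008) (l 16567088)) (l 16592192)) (a (b (l 16581440) (b (l 16593936) (l 16606184))) (b (l 16613704) (b (l 16626992) (l 16617664))))) (b (a (b (l 16620808) (l 16634528)) (a (l 16635104) (l 16673912))) (a (b (l 16628464) (b (l 16660312) (l 16649680))) (b (l 16682824)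 (b (l 16691160) (l 16697064)))))) (a (b (b (a (a (l 16626272) (l 16640904)) (b (l 16633992) (l 16650200))) (a (b (l 16641936) (l 16663336)) (b (l 16668016) (l 16685936)))) (a (b (a (l 16669736) (l 16700112)) (a (l 16707856) (l 16683976))) (b (a (l 16707024) (l 16692048)) (l 16675368)))) (b (b (a (l 16648688) (l 16675216)) (b (l 16659472) (l 16649008))) (b (a (l 16668992) (l 16659224)) (a (l 16669240) (l 16641616))))))))), by decide +kernel⟩

def k2_pm_022_s : ∃ t, chk3 f_pm_022_s t 9 3 1 = true :=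
  ⟨(b (b (a (l 1) (l 6)) (a (b (a (l 1) (l 16474192)) (a (b (l 16539448) (l 16559712)) (b (l 16469168) (a (l 16504976) (l 16449872))))) (b (a (b (l 16479768) (l 16393344)) (l 6)) (a (b (a (l 16413712) (l 16361872)) (a (l 16394744) (l 16339816))) (b (a (l 16310592) (l 16264784)) (l 16267832)))))) (b (a (b (a (b (l 16562576) (a (l 16646752) (l 16595168))) (b (l 16415256) (a (l 16542488) (l 16490488)))) (a (b (a (l 16656800) (l 16585568)) (a (l 16642280) (l 16613968))) (b (a (l 16555376) (l 16507424)) (l 16549760)))) (b (a (b (a (l 16418344) (l 16369856)) (a (l 16440984) (l 16398280))) (l 16317168)) (b (a (l 16445624) (l 16364440)) (a (l 16469432) (l 16394336))))) (b (a (a (b (a (l 16623664) (l 16624624)) (b (l 16628784) (b (l 16630024) (l 16608600)))) (b (l 16565664) (b (l 16575552) (b (l 16579464) (l 16560400))))) (b (a (l 16491768) (l 16422152)) (a (b (l 16506504) (a (l 16531400) (l 16499056))) (a (l 16462768) (l 16430624))))) (a (b (a (b (l 16601368) (b (l 16613056) (l 16605144)))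 (b (l 16555544) (a (l 16582128) (l 16550800)))) (a (b (a (l 16628744) (l 16598496)) (a (l 16613600) (l 16585240))) (a (b (l 16568248) (l 16556352)) (l 16532048)))) (b (a (b (l 16513112) (l 16483256)) (b (l 16451248) (l 16442192))) (a (a (l 16501856) (l 16471232)) (a (l 16439800) (l 16408144)))))))), by decide +kernel⟩

def k3_pm_022_s : ∃ t, chk3 f_pm_022_s t 5 1 1 = true :=
  ⟨(b (l 6) (b (a (a (b (l 6) (a (b (l 6) (b (l 6) (l 16157304))) (l 6))) (l 6)) (l 6)) (b (a (a (b (a (l 16232368) (l 16152080)) (a (b (l 16287864) (l 16322432)) (l 16191024))) (b (a (l 6) (l 6)) (a (l 16162608) (l 16094208)))) (l 6)) (a (b (a (a (b (l 16354656) (a (l 16398712) (l 16366784))) (b (l 16288008) (l 16319328))) (a (l 16240944) (l 16180344))) (a (a (b (b (l 16388848) (l 16379288)) (a (l 16376016) (l 16343352))) (a (b (l 16336136) (l 16310456)) (a (b (l 16313008) (l 16285064)) (b (a (l 16301080) (b (l 16302112) (l 16287800))) (a (l 16271136) (l 16261632)))))) (b (b (l 16241984) (l 16230096))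 (l 16205536)))) (b (a (l 16094720) (l 6)) (b (a (l 16131744) (l 6)) (l 16064728))))))), by decide +kernel⟩

def k4_pm_022_s : ∃ t, chk3 f_pm_022_s t 3 1 1 = true :=
  ⟨(b (l 6) (l 6)), by decide +kernel⟩

theorem s5_pm_022_s : ∃ t, chk3 f_pm_022_s t 4 3 1 = true := ex3_a k1_pm_022_s k2_pm_022_s

theorem s6_pm_022_s : ∃ t, chk3 f_pm_022_s t 4 1 1 = true := ex3_b k0_pm_022_s s5_pm_022_s

theorem s7_pm_022_s : ∃ t, chk3 f_pm_022_s t 2 1 1 = true := ex3_a s6_pm_022_s k3_pm_022_s

theorem s8_pm_022_s : ∃ t, chk3 f_pm_022_s t 1 1 1 = true := ex3_a s7_pm_022_s k4_pm_022_s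

theorem c_pm_022_s : CertNE 0 536870912 0 536870912 1045395039 1503240 3 eng mog cd0q0 cd0q2 pd2 true true false .pp 0 2 2
    ndB0q0 ndB0q2 pcB2 cut_pm_022_s Ext.none :=
  certNE2 (fam := true) (s1 := true) (s2 := false) (a := 0) (b := 2) (c := 2) (cn := .pp) (n1 := ndB0q0) (n2 := ndB0q2) (pc := pcB2) (cut := cut_pm_022_s) (xt := Ext.none) (P1 := 0) (W1 := 536870912) (P2 := 0) (W2 := 536870912) (P3 := 1045395039) (W3 := 1503240) (N0 := 3) (En := eng) (mo := mog) (C1 := cd0q0) (C2 := cd0q2) (C3 := pd2)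
    rfl (fun _ => rfl) s8_pm_022_s

noncomputable def cut_pm_022_t : Cut := Cut.of [[⟨3, 0, 0, 2845415833⟩], [⟨0, 0, 0, 22369621⟩, ⟨1, 1, 0, 22369621⟩, ⟨2, 1, 0, 22369621⟩]]

noncomputable def f_pm_022_t : ℕ → ℕ → ℕ → ℕ → Bool := onCell 1073741824 536870912 0 536870912 1045395039 1503240
    (rowNE 3 eng mog cd0q0 cd0q2 pd2 2 true true false .pp 0 2 2 (qsf 0 536870912 0 536870912 2) ndB0q0 ndB0q2 pcB2 cut_pm_022_t Ext.none)

def k0_pm_022_t : ∃ t, chk3 f_pm_022_t t 1 1 1 = true :=
  ⟨(a (l 6) (b (l 6) (l 6))), by decide +kernel⟩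

theorem c_pm_022_t : CertNE 0 536870912 0 536870912 1045395039 1503240 3 eng mog cd0q0 cd0q2 pd2 true true false .pp 0 2 2
    ndB0q0 ndB0q2 pcB2 cut_pm_022_t Ext.none :=
  certNE2 (fam := true) (s1 := true) (s2 := false) (a := 0) (b := 2) (c := 2) (cn := .pp) (n1 := ndB0q0) (n2 := ndB0q2) (pc := pcB2) (cut := cut_pm_022_t) (xt := Ext.none) (P1 := 0) (W1 := 536870912) (P2 := 0) (W2 := 536870912) (P3 := 1045395039) (W3 := 1503240) (N0 := 3) (En := eng) (mo := mog) (C1 := cd0q0) (C2 := cd0q2) (C3 := pd2)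
    rfl (fun _ => rfl) k0_pm_022_t

noncomputable def cut_pm_023_s : Cut := Cut.of [[⟨4, 0, 0, 1449551462⟩]]

noncomputable def f_pm_023_s : ℕ → ℕ → ℕ → ℕ → Bool := onCell 1610612736 536870912 0 536870912 1045395039 1503240
    (rowNE 3 eng mog cd0q0 cd0q2 pd3 2 true true false .up 0 2 3 (qsf 0 536870912 0 536870912 3) ndB0q0 ndB0q2 pcB3 cut_pm_023_s Ext.none)

def k0_pm_023_s : ∃ t, chk3 f_pm_023_s t 1 1 1 = true :=
  ⟨(l 6), by decide +kernel⟩

theorem c_pm_023_s : CertNE 0 536870912 0 536870912 1045395039 1503240 3 eng mog cd0q0 cd0q2 pd3 true true false .up 0 2 3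
    ndB0q0 ndB0q2 pcB3 cut_pm_023_s Ext.none :=
  certNE2 (fam := true) (s1 := true) (s2 := false) (a := 0) (b := 2) (c := 3) (cn := .up) (n1 := ndB0q0) (n2 := ndB0q2) (pc := pcB3) (cut := cut_pm_023_s) (xt := Ext.none) (P1 := 0) (W1 := 536870912) (P2 := 0) (W2 := 536870912) (P3 := 1045395039) (W3 := 1503240) (N0 := 3) (En := eng) (mo := mog) (C1 := cd0q0) (C2 := cd0q2) (C3 := pd3)
    rfl (fun _ => rfl) k0_pm_023_s

noncomputable def cut_pm_023_t : Cut := Cut.of [[⟨3, 0, 0, 2845415833⟩]]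

noncomputable def f_pm_023_t : ℕ → ℕ → ℕ → ℕ → Bool := onCell 0 536870912 0 536870912 1045395039 1503240
    (rowNE 3 eng mog cd0q0 cd0q2 pd3 0 true true false .up 0 2 3 (qsf 0 536870912 0 536870912 3) ndB0q0 ndB0q2 pcB3 cut_pm_023_t Ext.none)

def k0_pm_023_t : ∃ t, chk3 f_pm_023_t t 1 1 1 = true :=
  ⟨(a (l 1) (b (a (a (l 1) (a (l 6) (b (l 16606672) (l 6)))) (b (a (b (a (l 16647136) (l 16646888)) (l 6)) (b (l 16644456) (a (l 16598000) (l 16613808)))) (a (l 6) (l 6)))) (l 6))), by decide +kernel⟩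

theorem c_pm_023_t : CertNE 0 536870912 0 536870912 1045395039 1503240 3 eng mog cd0q0 cd0q2 pd3 true true false .up 0 2 3
    ndB0q0 ndB0q2 pcB3 cut_pm_023_t Ext.none :=
  certNE0 (fam := true) (s1 := true) (s2 := false) (a := 0) (b := 2) (c := 3) (cn := .up) (n1 := ndB0q0) (n2 := ndB0q2) (pc := pcB3) (cut := cut_pm_023_t) (xt := Ext.none) (P1 := 0) (W1 := 536870912) (P2 := 0) (W2 := 536870912) (P3 := 1045395039) (W3 := 1503240) (N0 := 3) (En := eng) (mo := mog) (C1 := cd0q0) (C2 := cd0q2) (C3 := pd3)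
    rfl k0_pm_023_t

noncomputable def cut_pm_101_s : Cut := Cut.of [[⟨4, 0, 0, 1449551462⟩], [⟨0, 1, 0, 26843545⟩, ⟨1, 0, 0, 26843545⟩, ⟨2, 1, 0, 26843545⟩]]

noncomputable def f_pm_101_s : ℕ → ℕ → ℕ → ℕ → Bool := onCell 536870912 536870912 536870912 536870912 1045395039 1503240
    (rowNE 3 eng mog cd0q1 cd0q0 pd1 1 true true false .npn 1 0 1 (qsf 536870912 536870912 0 536870912 1) ndB0q1 ndB0q0 pcB1 cut_pm_101_s Ext.none)

def k0_pm_101_s : ∃ t, chk3 f_pm_101_s t 1 1 1 = true :=
  ⟨(a (l 3) (b (l 3) (b (l 3) (a (l 3) (b (l 3) (a (l 3) (a (l 3) (b (l 3) (b (l 3) (a (l 3) (l 14))))))))))), by decide +kernel⟩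

theorem c_pm_101_s : CertNE 536870912 536870912 0 536870912 1045395039 1503240 3 eng mog cd0q1 cd0q0 pd1 true true false .npn 1 0 1
    ndB0q1 ndB0q0 pcB1 cut_pm_101_s Ext.none :=
  certNE1 (fam := true) (s1 := true) (s2 := false) (a := 1) (b := 0) (c := 1) (cn := .npn) (n1 := ndB0q1) (n2 := ndB0q0) (pc := pcB1) (cut := cut_pm_101_s) (xt := Ext.none) (P1 := 536870912) (W1 := 536870912) (P2 := 0) (W2 := 536870912) (P3 := 1045395039) (W3 := 1503240) (N0 := 3) (En := eng) (mo := mog) (C1 := cd0q1) (C2 := cd0q0) (C3 := pd1)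
    rfl (fun _ => rfl) k0_pm_101_s

noncomputable def cut_pm_101_t : Cut := Cut.of [[⟨3, 0, 0, 2845415833⟩], [⟨0, 1, 0, 26843545⟩, ⟨1, 0, 0, 26843545⟩, ⟨2, 1, 0, 26843545⟩]]

noncomputable def f_pm_101_t : ℕ → ℕ → ℕ → ℕ → Bool := onCell 536870912 536870912 0 536870912 1045395039 1503240
    (rowNE 3 eng mog cd0q1 cd0q0 pd1 0 true true false .npn 1 0 1 (qsf 536870912 536870912 0 536870912 1) ndB0q1 ndB0q0 pcB1 cut_pm_101_t Ext.none)

def k0_pm_101_t : ∃ t, chk3 f_pm_101_t t 1 1 1 = true :=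
  ⟨(l 6), by decide +kernel⟩

theorem c_pm_101_t : CertNE 536870912 536870912 0 536870912 1045395039 1503240 3 eng mog cd0q1 cd0q0 pd1 true true false .npn 1 0 1
    ndB0q1 ndB0q0 pcB1 cut_pm_101_t Ext.none :=
  certNE0 (fam := true) (s1 := true) (s2 := false) (a := 1) (b := 0) (c := 1) (cn := .npn) (n1 := ndB0q1) (n2 := ndB0q0) (pc := pcB1) (cut := cut_pm_101_t) (xt := Ext.none) (P1 := 536870912) (W1 := 536870912) (P2 := 0) (W2 := 536870912) (P3 := 1045395039) (W3 := 1503240) (N0 := 3) (En := eng) (mo := mog) (C1 := cd0q1) (C2 := cd0q0) (C3 := pd1)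
    rfl k0_pm_101_t

noncomputable def cut_pm_102_s : Cut := Cut.of [[⟨4, 0, 0, 1449551462⟩], [⟨0, 1, 0, 13421772⟩, ⟨1, 0, 0, 13421772⟩, ⟨2, 1, 0, 13421772⟩]]

noncomputable def f_pm_102_s : ℕ → ℕ → ℕ → ℕ → Bool := onCell 536870912 536870912 1073741824 536870912 1045395039 1503240
    (rowNE 3 eng mog cd0q1 cd0q0 pd2 1 true true false .npp 1 0 2 (qsf 536870912 536870912 0 536870912 2) ndB0q1 ndB0q0 pcB2 cut_pm_102_s Ext.none)

def k0_pm_102_s : ∃ t, chk3 f_pm_102_s t 2 1 1 = true :=
  ⟨(b (b (b (l 3) (l 3)) (a (b (b (b (l 3) (l 2)) (l 2)) (l 2)) (a (b (b (b (l 3) (b (a (l 3) (l 16766000)) (b (a (l 16773408) (l 16774832)) (l 16770120)))) (a (l 16738648) (l 16733128))) (a (l 2) (b (l 16672896) (l 2)))) (b (b (b (a (l 3) (b (l 3) (l 16770304))) (b (a (l 16776632) (l 16766112)) (b (a (l 16766192) (l 16754952)) (a (l 16738200) (b (l 16750560) (l 16749096)))))) (a (l 16725432) (l 16718200))) (a (b (l 16665536) (l 16606504)) (b (l 16657920) (l 16598520))))))) (a (l 2) (b (a (l 2)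 (b (a (l 2) (l 16490248)) (l 2))) (l 2)))), by decide +kernel⟩

def k1_pm_102_s : ∃ t, chk3 f_pm_102_s t 6 4 1 = true :=
  ⟨(b (l 3) (b (a (l 3) (b (l 3) (a (l 3) (b (l 3) (a (l 3) (l 16685776)))))) (a (b (l 3) (a (l 3) (b (l 310479049511) (l 65129028631)))) (b (a (b (l 3) (a (l 3) (l 16763848))) (b (a (l 16744656) (l 16769328)) (a (l 16768312) (l 16753184)))) (a (b (a (l 16773856) (l 16766112)) (l 16756656)) (b (a (l 16752392) (l 16717848)) (a (l 16738104) (l 16727968)))))))), by decide +kernel⟩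

def k2_pm_102_s : ∃ t, chk3 f_pm_102_s t 14 8 1 = true :=
  ⟨(b (l 3) (a (l 3) (b (l 3) (a (l 3) (b (a (l 3) (b (l 3) (a (l 3) (b (l 430201316903) (l 127406102279))))) (a (b (l 413558282551) (l 102709992407)) (b (a (l 111299957095) (l 16771032)) (l 16744288)))))))), by decide +kernel⟩

def k3_pm_102_s : ∃ t, chk3 f_pm_102_s t 30 16 1 = true :=
  ⟨(b (l 3) (a (l 3) (b (l 3) (a (l 3) (b (l 3) (a (l 3) (b (a (l 3) (b (l 3) (a (l 3) (b (a (l 3) (b (l 3) (a (l 417853334871) (b (l 200420611527) (l 16776944))))) (a (b (l 405505301655) (a (l 355039441207) (l 16776880))) (a (l 105394461687) (l 16765480))))))) (a (b (a (l 3) (b (l 3) (a (l 3) (l 409800264871)))) (a (b (l 3) (a (l 3) (b (l 446844359799) (l 305647319383)))) (b (a (b (l 3) (l 352355084919)) (b (a (l 215989862903) (l 16776864)) (l 16765944))) (b (a (l 127943037447) (l 16775680)) (l 16765064))))) (a (b (b (a (l 453286805559) (b (l 361481893895) (a (l 176798289671) (l 16776632)))) (a (b (a (l 410874013287) (l 153175971719))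 (l 16774056)) (l 16765312))) (l 16768920)) (b (b (l 16772776) (l 16763384)) (l 16761144))))))))))), by decide +kernel⟩

def k4_pm_102_s : ∃ t, chk3 f_pm_102_s t 62 32 1 = true :=
  ⟨(b (l 3) (a (l 3) (b (l 3) (a (l 3) (b (l 3) (a (l 3) (b (l 3) (a (l 3) (b (a (l 3) (b (l 3) (a (l 3) (a (b (l 3) (b (l 394231021303) (a (l 273435066167) (l 16777032)))) (b (b (l 439865048855) (a (l 363629379351) (l 16777080))) (l 16774192)))))) (a (b (l 485499069095) (a (l 464024238055) (b (a (l 457044916119) (b (a (l 450602467127) (l 16777144)) (l 16774392))) (a (a (b (l 400673472295) (l 16777080)) (l 16774352)) (l 16771392))))) (b (a (b (a (l 497847105079) (b (l 336785832407) (a (l 305110449623) (l 16776992)))) (a (b (l 293299288503) (l 81235278567)) (l 16771480))) (l 16773648)) (l 16774408)))))))))))), by decide +kernel⟩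

def k5_pm_102_s : ∃ t, chk3 f_pm_102_s t 126 64 1 = true :=
  ⟨(b (l 3) (a (l 3) (b (l 3) (a (l 3) (b (l 3) (a (l 3) (b (l 3) (a (l 3) (b (l 3) (a (l 3) (b (a (l 3) (b (l 3) (l 381346119335))) (a (b (l 541870522295) (l 368461217447)) (b (a (l 232096005975) (l 16777056)) (l 16774344)))))))))))))), by decide +kernel⟩

def k6_pm_102_s : ∃ t, chk3 f_pm_102_s t 254 128 1 = true :=
  ⟨(l 14), by decide +kernel⟩

def k7_pm_102_s : ∃ t, chk3 f_pm_102_s t 254 258 1 = true :=
  ⟨(a (a (l 3) (a (l 3) (l 14))) (l 14)), by decide +kernel⟩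

def k8_pm_102_s : ∃ t, chk3 f_pm_102_s t 508 259 1 = true :=
  ⟨(b (a (b (l 3) (a (l 3) (b (l 3) (a (l 3) (b (l 522543169399) (a (l 498920849319) (a (b (l 451139338039) (l 16777168)) (l 77477182775)))))))) (b (a (b (l 3) (a (l 3) (b (l 3) (a (l 540259909527) (b (a (l 3) (l 263234517559)) (a (l 250349615671) (l 16774456))))))) (b (l 14) (a (b (a (b (a (l 3) (l 14)) (a (l 276119419447) (l 16777088))) (l 14)) (l 16775496)) (l 14)))) (a (b (a (b (l 537038684007) (a (l 522006298535) (b (a (l 483351592759) (l 181630138999)) (a (l 174650815815) (l 16777056))))) (b (a (b (a (l 498920849207) (l 236927842871)) (a (l 223506070071) (l 16777064))) (l 16774312)) (l 16774152))) (a (b (a (a (b (l 467245465399) (l 16777184)) (b (l 167671493943) (l 16777040))) (l 16774280)) (l 16774120)) (l 16773696))) (b (b (l 16774936) (l 16773320)) (l 16774160))))) (a (b (a (b (l 3) (a (l 3) (b (l 487109687911) (a (l 433959467687) (b (a (l 381346119335) (l 16777120)) (l 16777040)))))) (b (a (b (l 509121396599)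 (a (l 467245465527) (b (a (l 417316470599) (l 16777152)) (l 16777064)))) (b (a (a (b (l 434496339783) (l 16777152)) (l 16776432)) (l 16774248)) (l 16774080))) (a (b (a (b (a (l 400136601415) (l 16777136)) (l 16777056)) (l 16774208)) (l 16774040)) (l 16773600)))) (a (b (a (b (a (l 3) (l 416779598503)) (a (b (l 3) (l 394231021223)) (b (a (l 300278611799) (l 16777088)) (l 16777000)))) (b (a (b (a (l 333564608343) (l 16777104)) (l 16777016)) (l 16776792)) (l 16773992))) (a (b (b (a (a (l 259476422503) (l 16777072)) (l 16776832)) (l 16774208)) (l 16773952)) (l 16773488))) (b (l 16774544) (l 16772536)))) (b (a (b (l 16774664) (l 16772696)) (b (l 16772200) (l 16774136))) (a (b (l 16772008) (l 16773904)) (b (l 16773416) (a (l 16772976) (l 16772424))))))), by decide +kernel⟩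

def k9_pm_102_s : ∃ t, chk3 f_pm_102_s t 509 259 1 = true :=
  ⟨(b (a (a (b (l 14) (a (l 16772336) (l 14))) (l 14)) (l 14)) (a (b (a (a (l 16773608) (b (l 16773408) (a (l 16772864) (l 16772696)))) (b (l 14) (l 16772664))) (a (a (b (l 16771296) (l 16772104)) (l 16772232)) (l 16772224))) (b (l 14) (l 16772216)))), by decide +kernel⟩

def k10_pm_102_s : ∃ t, chk3 f_pm_102_s t 255 64 1 = true :=
  ⟨(l 14), by decide +kernel⟩

def k11_pm_102_s : ∃ t, chk3 f_pm_102_s t 252 130 1 = true :=
  ⟨(b (l 3) (a (l 3) (b (l 3) (a (l 3) (b (l 3) (a (l 3) (a (b (l 3) (b (a (l 3) (l 399599728023)) (a (l 391009795751) (l 80161536631)))) (b (b (l 489257172887) (a (l 426980147159) (b (l 200957490215) (l 16776960)))) (b (b (a (a (l 360408153639) (l 16777048)) (l 16776720)) (l 16771456)) (l 16771096)))))))))), by decide +kernel⟩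

def k12_pm_102_s : ∃ t, chk3 f_pm_102_s t 253 260 1 = true :=
  ⟨(a (b (l 3) (a (l 3) (b (l 3) (a (l 3) (b (l 521469427431) (a (b (l 3) (l 454897433207)) (b (a (l 426980147143) (b (a (l 382956732087) (l 16777096)) (l 16776992))) (b (a (a (l 359334411975) (l 16777072)) (l 16776784)) (l 16774152))))))))) (b (a (b (l 3) (a (l 3) (b (l 3) (a (l 3) (b (a (l 3) (b (l 414095244951) (a (l 296520515431) (l 16777080)))) (a (b (l 399599730343) (a (l 256255197031) (l 16777064))) (l 16774272))))))) (b (a (b (l 3) (a (l 3) (b (a (l 3) (b (l 483351592903) (a (l 439328177991) (l 16777152)))) (a (b (l 457044918231) (l 258939550103)) (l 16775664))))) (b (a (b (a (l 3) (b (l 528448749511) (l 356113186327))) (a (b (l 508047654855) (a (l 459192401719) (l 16777176))) (l 74255956791))) (a (b (c (l 75866569735) (l 78014053383)) (l 16776688)) (l 16773912))) (a (b (l 67813504999) (l 16773848)) (l 16773360)))) (a (b (a (b (a (l 3) (b (l 442549403271) (a (l 381882990423) (l 16777120)))) (a (b (l 428590759575)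 (a (l 343228284759) (l 16777104))) (l 16774312))) (b (l 16775472) (l 16773800))) (a (l 16775240) (l 16773232))) (b (l 16772960) (l 16772184))))) (a (b (a (b (l 541333651159) (a (l 524153782087) (b (a (l 516637589415) (b (l 314774124967) (l 16777080))) (a (b (l 285246224807) (l 16777064)) (l 16771552))))) (b (a (b (a (l 546165489575) (b (l 385104215719) (a (l 16776880) (l 16777040)))) (a (b (l 369534959127) (l 16777104)) (l 16771600))) (l 16773872)) (l 16774760))) (a (b (a (b (a (l 472614174647) (b (l 255181452423) (l 16777040))) (b (a (l 238001583191) (l 16776840)) (l 16774208))) (l 16773760)) (l 16773312)) (b (l 16772640) (l 16769176)))) (b (a (b (l 16772800) (l 16772000)) (l 16770976)) (b (l 16771080) (l 16769536)))))), by decide +kernel⟩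

def k13_pm_102_s : ∃ t, chk3 f_pm_102_s t 253 261 1 = true :=
  ⟨(a (b (a (b (l 3) (a (l 3) (b (a (l 3) (b (l 3) (a (l 3) (b (l 445770628759) (l 219211101239))))) (a (b (l 3) (a (l 3) (b (l 411410890407) (a (l 16776568) (l 16777040))))) (b (a (b (l 429127630487) (l 152102237351)) (l 16774248)) (l 16774016)))))) (b (a (b (a (l 3) (b (l 3) (a (l 3) (l 386177957527)))) (a (b (l 3) (a (l 3) (b (l 476909141639) (l 258402677911)))) (b (a (l 358260668807) (l 16775672)) (l 16775448)))) (b (a (a (b (l 380272375191) (l 78550923927)) (b (c (l 80698407783) (l 82309020519)) (l 16776624))) (l 16773624)) (l 16773160))) (a (b (a (b (a (b (l 459729272455) (l 237464712295)) (l 16774312)) (l 16774080)) (l 16770864)) (l 16773000)) (a (l 16772224) (l 16771416))))) (a (b (a (b (a (l 3) (b (l 3) (a (l 534891200423) (b (l 328732769991) (l 16777080))))) (a (b (l 526838136711) (a (l 482814721975) (b (l 253033968775) (l 16777016)))) (b (a (b (l 286856838871) (l 16777048)) (l 16771504)) (l 16771248))))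 (b (a (b (a (b (l 369534959287) (l 16777104)) (l 16771568)) (l 16771320)) (l 16770712)) (l 16772824))) (a (b (a (a (b (b (l 227264164951) (l 16776992)) (l 16776640)) (l 16771192)) (l 16770536)) (l 16772616)) (a (l 16771784) (l 16768296)))) (b (a (a (l 16772024) (l 16768560)) (l 16769920)) (b (l 16769264) (l 16765600))))) (b (a (b (a (a (l 16772416) (l 16771632)) (l 16770472)) (b (l 16769872) (l 16766288))) (a (b (l 16771544) (l 16769616)) (b (l 16767432) (a (l 16767264) (l 16768192))))) (a (b (b (l 16765304) (l 16769520)) (a (l 16768784) (a (l 16767504) (l 16766864)))) (a (b (a (l 16768024) (l 16766200)) (l 16766512)) (l 16766920))))), by decide +kernel⟩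

def k14_pm_102_s : ∃ t, chk3 f_pm_102_s t 252 262 1 = true :=
  ⟨(a (b (l 3) (a (l 3) (b (a (l 3) (b (l 3) (a (l 3) (b (l 3) (l 456508046759))))) (a (b (l 3) (a (l 3) (b (l 3) (a (l 3) (a (l 435570081511) (b (l 391546666823) (l 16777080))))))) (b (a (b (l 3) (a (l 3) (b (l 495699623399) (l 298667996167)))) (a (b (b (l 3) (l 369534958967)) (l 16776280)) (b (l 79624665671) (l 16776464)))) (a (b (a (b (l 474761658135) (l 238001583159)) (l 16774272)) (l 16773992)) (l 16773304))))))) (b (a (b (l 3) (a (l 535964941975) (b (a (l 3) (b (a (l 3) (a (l 409800277671) (l 176798299127))) (a (b (l 381882990263) (a (l 16776560) (l 16777008))) (l 16771544)))) (a (b (a (l 538649296807) (b (l 334101479111) (l 16775768))) (a (b (l 285783094423) (l 16774424)) (l 16771472))) (l 16773640))))) (b (a (a (b (l 3) (a (b (l 3) (b (l 446844370583) (l 198810006567))) (b (b (l 467782336135) (l 228337906775)) (l 16774240)))) (b (b (a (l 3) (l 357723797911)) (a (b (l 505900171207) (l 253033968791)) (l 16775624)))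 (b (l 16774048) (l 16770936)))) (b (a (b (b (l 73182214183) (l 16771384)) (l 16771016)) (l 16770360)) (l 16772424))) (a (b (a (l 16773728) (l 16770176)) (l 16772232)) (a (l 16771336) (l 16767768))))) (a (b (a (b (a (l 502142074503) (b (a (l 484425334711) (b (l 246054646919) (l 16774384))) (a (b (l 217600488519) (l 16776968)) (l 16776632)))) (a (b (a (l 428590759687) (b (l 189146330119) (l 16776936))) (b (a (l 265918872615) (l 16776680)) (l 16771416))) (l 16773472))) (b (l 16773088) (l 16772040))) (a (b (l 16772912) (l 16771848)) (l 16770440))) (b (a (l 16770976) (l 16766088)) (a (l 16765848) (l 16769104)))))), by decide +kernel⟩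

def k15_pm_102_s : ∃ t, chk3 f_pm_102_s t 252 263 1 = true :=
  ⟨(a (b (a (b (a (l 3) (b (l 3) (a (l 3) (b (l 502142072663) (a (l 480130366087) (a (l 341080800567) (l 16775720))))))) (a (b (l 3) (a (l 3) (b (a (l 3) (l 425369533303)) (a (b (l 3) (l 312626640023)) (b (l 243907165159) (l 16776864)))))) (a (b (b (l 476372268887) (a (l 443623144215) (b (a (l 366313733943) (l 16777080)) (l 16774328)))) (b (b (a (a (l 285246226247) (l 16777040)) (l 16776688)) (l 16774040)) (l 16771032))) (b (b (a (b (l 259476420887) (l 16774368)) (l 16771400)) (l 16771120)) (l 16770328))))) (a (b (b (a (b (l 3) (a (l 3) (a (l 390472924599) (l 254644583415)))) (a (b (b (l 405505310455) (l 270213839767)) (l 16774152)) (l 16773936))) (a (b (a (b (l 312089769127) (l 16776408)) (l 16771488)) (l 16771208)) (l 16770504))) (b (l 16772552) (l 16768864))) (b (b (l 16772728) (l 16771664)) (l 16770048)))) (a (b (a (b (a (b (a (l 3) (b (l 488183429735) (a (l 471540432743) (l 16777152)))) (a (b (l 473151045399)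 (l 255718324487)) (l 16775584))) (a (b (l 78550923767) (l 16776424)) (l 16770968))) (a (l 16775048) (l 16770160))) (b (l 16772376) (l 16768696))) (a (b (l 16772216) (l 16768560)) (l 16769744))) (b (a (l 16769880) (l 16770504)) (a (l 16770368) (l 16768344))))) (b (a (b (a (l 16770240) (l 16765624)) (b (l 16764976) (l 16763872))) (b (l 16764576) (l 16760336))) (a (b (l 16762208) (l 16765264)) (a (l 16758024) (b (l 16762312) (l 16760560)))))), by decide +kernel⟩

def k16_pm_102_s : ∃ t, chk3 f_pm_102_s t 253 131 1 = true :=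
  ⟨(b (a (b (a (b (a (a (l 16771552) (l 16768016)) (l 16769272)) (a (l 16768968) (l 16769704))) (b (a (l 16770104) (l 16768336)) (a (l 16767864) (l 16766072)))) (a (b (a (l 16769376) (l 16767440)) (l 16760872)) (a (b (l 16765544) (a (l 16763720) (l 16763120))) (b (a (l 16764304) (l 16763872)) (l 16762880))))) (b (a (a (b (b (l 16767144) (l 16766104)) (a (l 16765008) (l 16764736))) (b (a (l 16765760) (l 16765632)) (l 16764736))) (l 16765216)) (a (l 16763344) (l 16763448)))) (a (a (b (a (b (l 16764800) (l 16762576)) (b (l 16760344) (l 16761416))) (b (a (l 16760912) (l 16760496)) (l 16759816))) (b (b (l 16762016) (l 16761120)) (l 16759832))) (b (l 16761528) (l 16759744)))), by decide +kernel⟩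

def k17_pm_102_s : ∃ t, chk3 f_pm_102_s t 127 65 1 = true :=
  ⟨(a (b (a (b (a (b (b (a (b (l 16774408) (l 16772368)) (l 16772744)) (a (l 16772520) (l 16767232))) (a (b (l 16766936) (b (l 16770856) (l 16768720))) (b (a (l 16771136) (b (l 16770912) (l 16770240))) (b (a (l 16769960) (l 16769824)) (l 16769456))))) (b (a (b (l 16771472) (a (b (l 16771888) (l 16771128)) (b (l 16771352) (l 16770848)))) (b (a (b (l 16772240) (l 16771592)) (b (l 16771832) (l 16771488))) (l 16771008))) (b (a (l 16769672) (l 16770336)) (l 16769640)))) (a (b (b (a (a (b (l 16769432) (l 16768752)) (l 16768904)) (l 16768904)) (l 16768136)) (l 16766960)) (b (l 16768560) (l 16767056)))) (b (b (a (b (l 16771624) (l 16771000)) (l 16771352)) (a (l 16770024) (l 16770128))) (b (l 16763496) (a (l 16767232) (a (l 16767408) (l 16767680)))))) (a (b (b (l 16765392) (l 16763720)) (b (l 16761976) (l 16760152))) (b (a (l 16762432) (a (b (l 16766072) (l 16764512)) (l 16755128))) (a (a (l 16751240) (l 16756592)) (l 16762704)))))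 (b (a (b (a (b (a (l 16771424) (l 14)) (a (l 16749368) (l 16770552))) (b (l 14) (l 16747104))) (a (b (a (l 16769152) (l 16769600)) (l 16768432)) (l 16745312))) (b (l 14) (l 16755456))) (a (b (l 16745296) (l 16764488)) (b (l 16738312) (l 16737584))))), by decide +kernel⟩

def k18_pm_102_s : ∃ t, chk3 f_pm_102_s t 124 66 1 = true :=
  ⟨(b (l 3) (a (l 3) (b (l 3) (a (l 3) (b (a (l 3) (b (a (l 3) (b (l 3) (a (l 3) (l 408189664823)))) (a (a (l 3) (a (l 444160006423) (b (l 3) (b (l 275582536391) (l 16777096))))) (b (a (b (l 3) (a (l 466708590455) (l 243907165623))) (b (a (l 251423358631) (l 16776896)) (l 16776640))) (b (a (l 142438556455) (l 16776192)) (l 16770888)))))) (a (b (a (l 3) (b (l 3) (a (l 3) (a (l 368461214855) (b (l 348596993383) (l 16776888)))))) (a (b (l 449528713751) (a (l 418927077047) (a (b (l 251960218119) (l 16777024)) (l 16774240)))) (b (a (b (a (l 284172470775) (l 181093261895)) (l 16774320)) (l 16771168)) (l 16770664)))) (b (a (b (a (b (l 414095240855) (a (l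 228337899079) (l 16776992))) (l 16774008)) (l 16770888)) (l 16769768)) (l 16768776)))))))), by decide +kernel⟩

def k19_pm_102_s : ∃ t, chk3 f_pm_102_s t 124 134 1 = true :=
  ⟨(a (b (a (l 3) (b (l 3) (a (l 3) (b (l 3) (a (l 3) (b (l 3) (a (l 3) (l 365776861927)))))))) (a (b (l 3) (a (l 3) (b (l 3) (a (l 453823676119) (b (a (l 3) (b (l 400673468311) (l 167134617143))) (a (b (l 227264154855) (l 16777032)) (l 16776560))))))) (b (a (b (l 3) (a (l 3) (b (l 443086262999) (a (l 409263400887) (b (l 189146327895) (l 16776856)))))) (b (a (a (l 3) (a (l 403894695447) (b (l 3) (l 163376520343)))) (b (a (b (l 419463949575) (l 181630135495)) (l 16771472)) (l 16770992))) (a (b (a (b (a (l 286856826935) (l 16777144)) (l 16776968)) (l 16776480)) (l 16765512)) (l 16764496)))) (a (b (a (b (a (l 3) (l 380809243975)) (a (l 352355088375) (l 16774184))) (b (b (l 123111202103) (l 16771136)) (l 16765272))) (l 16772936)) (l 16769296))))) (b (a (b (a (l 3) (b (a (l 3) (b (a (l 3) (l 393694148071)) (a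 (b (l 462950492071) (a (l 273435053687) (l 16777152))) (l 128479917351)))) (a (b (a (l 3) (b (l 423758916791) (a (l 239612188263) (l 16777040)))) (a (b (l 388325437895) (l 161765913143)) (l 16771344))) (l 91972691863)))) (a (b (a (b (l 3) (l 431811974791)) (b (a (l 445770621143) (a (b (l 295983631271) (l 16777160)) (l 185925103031))) (a (b (a (l 257328927671) (l 16777104)) (l 16776864)) (l 16765864)))) (a (b (a (l 392620403559) (b (l 172503330679) (l 16776752))) (l 106468204535)) (l 16770192))) (b (l 16772296) (l 16767976)))) (b (a (b (a (b (b (a (a (l 362018766247) (l 16776968)) (l 16776400)) (l 16771096)) (l 16770440)) (l 16769344)) (l 16768376)) (l 16766168)) (a (l 16765816) (l 16757544)))) (a (b (a (b (l 16769232) (l 16762328)) (l 16765472)) (a (l 16765128) (l 16767488))) (b (a (l 16767760) (l 16764768)) (l 16752616))))), by decide +kernel⟩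

def k20_pm_102_s : ∃ t, chk3 f_pm_102_s t 124 135 1 = true :=
  ⟨(a (b (a (b (a (b (a (l 3) (b (l 3) (l 408189661447))) (a (b (l 3) (a (l 3) (b (l 408726531655) (l 171966455079)))) (b (a (l 358797537607) (l 16776856)) (l 16771160)))) (b (a (b (a (l 417853334967) (b (l 199346869687) (l 16776912))) (b (l 126332427207) (l 16771208))) (l 16770448)) (l 16769528))) (a (b (a (b (a (a (l 220284833079) (l 16773160)) (l 16776616)) (l 16765672)) (l 16764728)) (l 16769072)) (l 16767168))) (b (a (l 16767576) (l 16759552)) (b (l 16758608) (l 16757088)))) (a (b (b (l 16766208) (l 16764712)) (a (l 16769064) (l 16766472))) (b (a (l 16766712) (l 16764008)) (l 16757264)))) (b (a (b (a (l 16767224) (l 16764376)) (l 16752304)) (b (l 16760048) (a (l 16758544) (b (l 16756400) (a (l 16755688) (l 16754448)))))) (a (b (l 16759888) (a (l 16758472) (l 16755800))) (a (b (b (l 16756408) (l 16755112)) (a (b (l 16754432) (l 16753512)) (l 16753376))) (b (a (b (l 16754432) (l 16753616)) (l 16753536)) (l 16753064)))))),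 by decide +kernel⟩

def k21_pm_102_s : ∃ t, chk3 f_pm_102_s t 250 132 1 = true :=
  ⟨(b (l 3) (a (l 3) (b (a (l 3) (b (l 3) (a (l 3) (b (l 3) (a (l 3) (b (l 3) (a (l 3) (b (l 372219313895) (l 16777112))))))))) (a (b (l 3) (a (l 3) (b (l 3) (a (l 3) (b (a (l 3) (l 257865806935)) (b (a (l 374903668455) (l 16776952)) (l 16774288))))))) (b (a (b (l 3) (a (l 3) (b (l 437717560887) (a (l 416242728519) (l 16774408))))) (b (a (b (l 466708589287) (a (l 440938787783) (l 258939550567))) (a (b (b (l 303499837175) (l 16777072)) (l 16776720)) (l 16771280))) (b (a (b (a (l 209010556535) (l 16776784)) (l 16771512)) (l 16776016)) (l 16770728)))) (a (a (b (b (l 408726535143) (a (l 303499834471) (l 16776928))) (l 16773808)) (l 81772145191)) (l 16769528))))))), by decide +kernel⟩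

def k22_pm_102_s : ∃ t, chk3 f_pm_102_s t 250 133 1 = true :=
  ⟨(b (a (b (a (l 3) (b (l 3) (a (l 3) (b (a (l 3) (b (l 3) (l 387251697863))) (a (b (l 3) (a (l 466171719703) (l 189146329735))) (a (b (l 324437802151) (l 16776816)) (l 16771392))))))) (a (b (l 3) (a (l 464024236727) (b (a (l 3) (b (l 389936050887) (a (l 256255196823) (l 16776896)))) (a (b (a (l 472077299559) (l 189683201175)) (a (l 269676968887) (l 16776784))) (l 16771160))))) (b (a (b (a (l 3) (b (l 452213074551) (a (l 261623903111) (l 238538455959)))) (a (b (l 421074562711) (a (l 353428831943) (l 16777000))) (l 16773992))) (b (b (a (l 145659786487) (l 16776144)) (l 16770848)) (l 16770152))) (a (l 16773680) (l 16768768))))) (b (a (b (a (b (l 459192401223) (a (l 431275113399) (a (b (l 436643823191) (l 16777024)) (l 87140857191)))) (a (b (a (b (l 457044914583) (l 254107712359)) (b (l 183240749783) (l 16776728))) (l 16770984)) (l 16770608))) (a (b (a (b (a (l 336785833655) (l 16776976)) (l 16771472)) (l 16770872))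 (l 16770352)) (l 16769152))) (b (b (l 16768960) (l 16768016)) (l 16766616))) (a (b (l 16770744) (l 16766296)) (l 16763872)))) (a (b (a (b (a (b (a (l 431811978567) (a (b (l 263234505751) (l 16777056)) (l 175724558087))) (a (a (b (l 233169747127) (l 16776952)) (l 16774160)) (l 16770944))) (l 16770192)) (l 16771800)) (b (l 16767760) (l 16760728))) (a (a (l 16767304) (l 16765720)) (l 16763336))) (b (a (l 16763600) (l 16765552)) (l 16753248)))), by decide +kernel⟩

def k23_pm_102_s : ∃ t, chk3 f_pm_102_s t 502 132 1 = true :=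
  ⟨(b (b (l 3) (a (b (l 3) (a (l 3) (l 482277847255))) (b (a (l 3) (a (b (l 3) (b (l 430201371767) (a (l 370608699703) (l 16776312)))) (b (b (l 457044914167) (a (l 424295790423) (b (l 195588781095) (l 16776952)))) (b (b (a (l 158544688087) (l 16776704)) (l 16771440)) (l 16771064))))) (a (b (a (l 3) (a (b (l 3) (b (l 445770628887) (l 197736267367))) (b (b (l 474761658039) (l 222969197735)) (l 16774256)))) (a (b (a (l 3) (a (l 370071830263) (l 263234517911))) (a (b (l 380809248279) (l 16777088)) (l 16776784))) (l 16773744))) (b (b (l 16774944) (l 16770520)) (l 16769776)))))) (a (b (b (a (b (l 3) (a (l 3) (l 437717564919))) (b (a (l 458118653623) (b (a (l 457581786023) (b (l 273971937015) (l 16777048))) (b (a (l 208473685767) (l 16776808)) (l 16774160)))) (a (b (a (l 417316468375) (l 228337908455)) (l 82845889799)) (l 16770928)))) (a (b (a (b (l 3) (a (l 3) (l 302962963527))) (b (a (l 365239991863) (l 16774344)) (l 16774080))) (a (a (b (b (l 418927083303) (l 16776992)) (l 16776816))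 (l 16774008)) (l 16770728))) (l 16772520))) (b (a (l 16772336) (l 16767976)) (l 16769560))) (b (b (a (b (l 16773200) (l 16769600)) (l 16768304)) (l 16769552)) (l 16765704)))), by decide +kernel⟩

def k24_pm_102_s : ∃ t, chk3 f_pm_102_s t 503 132 1 = true :=
  ⟨(b (b (a (b (a (l 3) (b (a (l 3) (b (l 3) (a (l 3) (l 401210342583)))) (b (a (l 3) (a (b (l 476909140007) (l 257328936119)) (l 83919632919))) (a (a (l 3) (b (l 468319207223) (l 227801035863))) (l 16775368))))) (a (b (a (l 3) (b (l 3) (a (l 3) (b (l 394767892183) (l 255181454359))))) (a (b (l 487646555607) (a (l 462950495479) (a (l 340543929687) (l 16774432)))) (b (a (b (l 324974673671) (l 16775776)) (l 16771528)) (l 16771248)))) (b (a (b (a (b (l 438791306935) (l 188609459223)) (l 16774240)) (l 16773968)) (l 16773296)) (l 16772752)))) (b (a (b (a (b (a (l 420000823607) (b (l 176261429527) (l 16776920))) (a (a (l 242833423335) (l 16776888)) (l 16776544))) (l 16773480)) (l 16772928)) (l 16771568)) (a (l 16771416) (l 16766936))))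 (a (b (a (b (a (b (a (b (l 214916134071) (l 16777000)) (l 16776672)) (l 16771160)) (l 16770496)) (l 16772576)) (l 16771256)) (b (l 16770680) (l 16767072))) (a (l 16767776) (l 16763976)))) (a (b (b (l 16765616) (l 16768936)) (l 16766112)) (b (l 16761048) (l 16762552)))), by decide +kernel⟩

def k25_pm_102_s : ∃ t, chk3 f_pm_102_s t 251 133 1 = true :=
  ⟨(b (a (b (a (l 16764136) (l 16765928)) (l 16758800)) (a (b (l 16762440) (a (l 16759760) (b (l 16758912) (l 16757544)))) (b (a (l 16759856) (b (l 16759024) (l 16757840))) (a (b (l 16757680) (l 16757040)) (l 16757080))))) (a (a (b (l 16762224) (b (l 16759664) (l 16758040))) (b (b (l 16759720) (a (l 16758848) (l 16757344))) (a (b (l 16757280) (l 16756216)) (l 16756160)))) (a (b (a (b (l 16757432) (l 16756568)) (l 16756592)) (l 16755880)) (l 16755928)))), by decide +kernel⟩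

def k26_pm_102_s : ∃ t, chk3 f_pm_102_s t 125 67 1 = true :=
  ⟨(a (b (b (a (b (a (l 16763064) (l 16765160)) (l 16752936)) (a (l 16749864) (b (l 16758792) (a (b (l 16757160) (l 16755808)) (b (l 16755880) (l 16755160)))))) (a (b (l 16760216) (a (l 16758640) (a (l 16756432) (b (l 16755688) (l 16754648))))) (a (b (a (l 16756472) (b (l 16755752) (l 16754856))) (l 16754416)) (l 16754352)))) (b (a (a (b (a (l 16756392) (b (l 16755664) (l 16754512))) (a (b (l 16754472) (l 16753800)) (l 16753768))) (b (b (a (l 16754568) (l 16754184)) (l 16753960)) (l 16753480))) (l 16753208)) (a (l 16752760) (l 16751912)))) (b (a (b (b (a (a (b (l 16757192) (l 16755968)) (l 16755824)) (l 16755456)) (l 16754888)) (l 16753792)) (b (l 16754552) (l 16753016))) (a (b (l 16752376) (l 16751016)) (l 16745576)))), by decide +kernel⟩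

def k27_pm_102_s : ∃ t, chk3 f_pm_102_s t 63 33 1 = true :=
  ⟨(a (b (a (b (a (b (b (a (b (a (l 16767040) (l 16770304)) (l 16766016)) (b (l 16762024) (l 16765248))) (a (l 16762440) (b (l 16763272) (l 16758768)))) (a (b (l 16762552) (a (b (l 16760720) (l 16759072)) (b (l 16759080) (l 16758128)))) (b (a (b (l 16760520) (l 16759056)) (b (l 16759000) (l 16758312))) (l 16757824)))) (b (a (b (a (l 16763128) (b (l 16762080) (l 16760208))) (a (b (l 16760216) (l 16758944)) (l 16758688))) (b (a (b (l 16760320) (l 16759184)) (l 16759160)) (l 16758040))) (b (l 16757400) (l 16756416)))) (a (b (b (a (l 16757616) (l 16756928)) (l 16756424)) (l 16755144)) (b (l 16755072) (l 16753288)))) (b (a (b (a (l 16757944) (l 16757408)) (a (l 16755432) (l 16754568))) (b (l 16757056) (l 16753872))) (a (b (l 16752808) (l 16750976)) (b (l 16751360) (a (l 16749400) (l 16748568)))))) (a (b (a (b (l 16753480) (l 16751872)) (l 16740240)) (a (l 16749576) (l 16747488))) (b (a (b (l 16749176) (l 16747600)) (b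 (a (l 16747616) (l 16746120)) (l 16744216))) (a (b (a (l 16746440) (l 16744640)) (l 16743088)) (l 16740048))))) (b (a (b (a (b (a (l 16757272) (b (l 16758632) (l 16756776))) (a (l 16753912) (l 16743328))) (b (a (l 16747648) (l 16759240)) (l 16754784))) (a (b (a (l 16750512) (l 16750392)) (l 16747320)) (l 16748376))) (b (a (b (l 16760776) (l 16756360)) (l 16758712)) (a (l 16728048) (l 16729256)))) (a (b (a (l 16742528) (l 16740232)) (l 16734072)) (b (a (l 16739000) (l 16738360)) (l 16707128))))), by decide +kernel⟩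

def k28_pm_102_s : ∃ t, chk3 f_pm_102_s t 60 34 1 = true :=
  ⟨(b (l 3) (a (l 3) (b (a (l 3) (b (l 3) (a (l 407115905159) (b (a (l 413021482679) (l 16761288)) (l 16775528))))) (a (a (b (l 3) (l 271824444711)) (b (b (l 3) (l 287393700519)) (l 16774488))) (b (a (b (l 123648042711) (l 16774440)) (l 16751016)) (l 16748256)))))), by decide +kernel⟩

def k29_pm_102_s : ∃ t, chk3 f_pm_102_s t 61 68 1 = true :=
  ⟨(a (b (a (l 3) (b (l 3) (a (l 3) (b (l 3) (a (l 3) (b (l 3) (l 372756170503))))))) (a (b (l 3) (a (l 3) (b (l 444696848199) (a (l 400136582055) (l 123111181431))))) (b (a (b (l 3) (a (l 3) (b (l 391009779047) (l 153712825239)))) (b (a (b (l 3) (l 319069091431)) (b (a (l 311552896551) (l 16776488)) (l 16754704))) (b (l 69960972023) (l 16753112)))) (a (b (a (b (l 335175211239) (l 16766208)) (l 16754320)) (l 16752776)) (l 16765624))))) (b (a (b (a (l 3) (b (a (l 3) (b (l 3) (a (l 438791292791) (b (l 338396442023) (l 16771608))))) (a (b (a (l 3) (l 386714817639)) (a (l 350744469847)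 (l 109152554103))) (b (a (b (l 174650801431) (l 16776600)) (l 16765288)) (l 16764448))))) (a (b (a (l 448454953671) (b (a (l 3) (l 314774122039)) (a (b (l 346986375847) (l 16776936)) (l 16776168)))) (a (b (a (l 387251688343) (l 136532966663)) (l 16770952)) (l 16764160))) (b (a (l 16772520) (l 16762328)) (l 16760744)))) (b (a (b (a (b (a (b (l 386177949975) (l 151565354695)) (l 16771040)) (l 16770184)) (l 16768464)) (b (l 16767520) (l 16760864))) (b (l 16766056) (l 16756712))) (a (b (l 16758792) (l 16766608)) (b (l 16754016) (l 16761904))))) (a (b (a (a (l 16767576) (l 16765376)) (b (l 16758088) (l 16766016))) (a (l 16756152) (l 16757096))) (b (a (b (l 16764032) (l 16761536)) (l 16752936)) (a (l 16747480) (b (a (l 16755776) (a (l 16754096) (b (l 16753520) (l 16752632)))) (a (b (l 16754056) (a (l 16753488) (l 16752584))) (a (b (l 16752608) (l 16752144)) (l 16752096))))))))), by decide +kernel⟩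

def k30_pm_102_s : ∃ t, chk3 f_pm_102_s t 61 69 1 = true :=
  ⟨(a (b (a (b (a (b (a (l 3) (l 322290307047)) (a (l 280951253959) (l 16775696))) (b (l 16766064) (l 16751792))) (a (l 16752016) (l 16748200))) (b (a (l 16759528) (l 16745008)) (a (l 16765304) (l 16761384)))) (a (b (l 16745496) (l 16762080)) (b (l 16748456) (a (l 16756600) (b (l 16753952) (a (l 16752832) (l 16751400))))))) (b (a (b (b (l 16755696) (l 16748176)) (a (l 16757392) (b (l 16754504) (a (l 16753376) (b (l 16752112) (l 16751584)))))) (b (a (b (a (l 16755632) (b (l 16754024) (l 16753064))) (a (l 16753544) (a (b (l 16752512) (l 16751904)) (l 16751840)))) (b (a (a (b (l 16752560) (l 16752016)) (l 16751968)) (l 16751736)) (l 16751464))) (a (b (a (b (l 16752200) (l 16751696)) (l 16751512)) (l 16751232)) (l 16750808)))) (a (b (a (b (l 16754264) (a (l 16753144) (l 16751680))) (b (a (l 16749168) (l 16751272)) (l 16750984))) (a (b (a (l 16751552) (l 16751000)) (l 16750704)) (l 16750336))) (b (l 16750264) (l 16749384))))),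 by decide +kernel⟩

def k31_pm_102_s : ∃ t, chk3 f_pm_102_s t 30 35 1 = true :=
  ⟨(a (b (a (b (a (b (l 3) (l 312089735639)) (b (a (l 401747180935) (l 120426806295)) (l 16752896))) (a (b (l 16744400) (l 16750472)) (l 16746392))) (b (a (b (l 16750704) (l 16767304)) (l 16752240)) (b (l 16738816) (a (l 16758888) (a (l 16754064) (l 16751176)))))) (a (b (l 16740840) (a (l 16756120) (b (l 16752304) (l 16748480)))) (b (a (b (l 16754720) (l 16743088)) (b (a (l 16750368) (l 16748488)) (l 16747448))) (a (b (l 16726672) (l 16745520)) (l 16745728))))) (a (b (b (a (b (l 16757872) (a (l 16755520) (b (l 16753096) (l 16751424)))) (b (a (b (l 16753568) (l 16751888)) (b (l 16750936) (l 16750360))) (a (l 16750224) (l 16749680)))) (a (b (a (l 16751856) (l 16749744)) (l 16748856)) (l 16748520))) (b (l 16746944) (l 16744728))) (b (b (a (l 16749304) (l 16748064)) (a (l 16747456) (l 16746232))) (b (l 16744944) (l 16742912))))), by decide +kernel⟩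

def k32_pm_102_s : ∃ t, chk3 f_pm_102_s t 62 17 1 = true :=
  ⟨(a (b (b (b (a (b (a (b (l 16759704) (l 16756992)) (b (l 16759768) (l 16757128))) (a (b (l 16759616) (l 16757096)) (a (b (l 16755872) (a (b (l 16754640) (l 16753520)) (b (l 16753512) (l 16752776)))) (b (a (b (l 16754584) (l 16753496)) (b (l 16753480) (l 16752848))) (l 16752568))))) (a (b (a (b (l 16755808) (a (b (l 16754512) (l 16753472)) (b (l 16753464) (l 16752952)))) (b (a (b (l 16754456) (l 16753464)) (b (l 16753480) (l 16753072))) (l 16752784))) (b (l 16752464) (l 16751984))) (b (l 16752432) (l 16751376)))) (a (b (a (b (a (l 16755864) (a (l 16754136) (b (l 16753528) (l 16752720)))) (a (a (l 16754120) (b (l 16753536) (l 16752680))) (b (a (l 16752696) (l 16752424)) (l 16752280)))) (a (b (b (l 16752616) (l 16752376)) (l 16752032)) (l 16751880))) (a (b (a (b (a (l 16752656) (l 16752320)) (l 16752176)) (l 16751944)) (l 16751664)) (l 16751144))) (b (a (l 16751264) (l 16750360)) (l 16749848)))) (b (a (b (l 16750616)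 (l 16749712)) (b (l 16748896) (l 16747960))) (a (l 16743136) (l 16746568)))) (b (b (a (l 16746584) (l 16744728)) (l 16742520)) (b (l 16720968) (a (l 16740912) (l 16737336))))) (b (b (a (b (b (l 16751128) (l 16749976)) (b (l 16748880) (l 16747816))) (b (a (l 16749080) (l 16748072)) (a (l 16746680) (l 16745544)))) (a (b (l 16735808) (l 16744352)) (b (a (l 16744488) (b (l 16743816) (l 16742432))) (a (l 16721440) (l 16728288))))) (b (a (b (l 16742488) (a (l 16741192) (l 16738152))) (b (a (l 16717480) (l 16732360)) (l 16707600))) (a (b (a (l 16737744) (l 16731720)) (l 16727344)) (l 16694968))))), by decide +kernel⟩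

def k33_pm_102_s : ∃ t, chk3 f_pm_102_s t 63 17 1 = true :=
  ⟨(a (b (b (a (b (a (l 16746704) (b (l 16724224) (l 16743000))) (a (a (l 16744584) (l 16722040)) (l 16738840))) (b (a (l 16738928) (l 16733328)) (l 16729056))) (a (b (a (l 16718000) (l 16732280)) (l 16707792)) (a (l 16720704) (l 16713048)))) (b (a (l 16695712) (l 16677680)) (a (l 16677384) (l 16657304)))) (b (a (b (l 16705888) (l 16681632)) (b (l 16691888) (l 16690568))) (b (a (l 16681608) (l 16666720)) (a (l 16659008) (l 16641848))))), by decide +kernel⟩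

def k34_pm_102_s : ∃ t, chk3 f_pm_102_s t 14 9 1 = true :=
  ⟨(b (a (b (b (l 3) (a (l 3) (b (l 363629286311) (l 16703408)))) (b (a (b (l 254107502183) (l 16761512)) (b (l 16771376) (l 16763000))) (a (l 16769008) (l 16730256)))) (b (a (b (a (l 364703039687) (b (l 111299913495) (l 16771136))) (b (l 16746968) (l 16738472))) (b (a (l 16743216) (b (l 16756568) (a (l 16751048) (l 16745760)))) (a (b (l 16751320) (l 16723024)) (b (a (l 16743520) (l 16740168)) (l 16737896))))) (a (b (a (l 16752176) (b (l 16746080) (l 16739160))) (a (l 16717184) (l 16732976))) (b (a (l 16715352) (l 16733680)) (l 16728840))))) (a (b (a (b (l 16752640) (l 16717600)) (b (b (l 16718912) (l 16712864)) (l 16728288))) (b (a (l 16728176) (l 16722584)) (l 16719392))) (b (a (l 16726040) (l 16698904)) (a (l 16713712) (b (l 16710080) (l 16702176)))))), by decide +kernel⟩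

def k35_pm_102_s : ∃ t, chk3 f_pm_102_s t 15 9 1 = true :=
  ⟨(a (b (a (b (b (a (b (a (b (l 16749608) (l 16745920)) (l 16744232)) (l 16741400)) (l 16741920)) (a (l 16737240) (l 16736000))) (b (l 16730512) (l 16724368))) (b (b (a (l 16719928) (l 16718640)) (a (l 16735424) (b (l 16731040) (l 16726168)))) (b (a (l 16729080) (a (l 16721280) (l 16719968))) (a (l 16719880) (l 16704984))))) (b (a (b (l 16718008) (a (l 16712512) (l 16706520))) (a (b (l 16707648) (l 16685152)) (l 16624168))) (a (b (a (l 16703752) (l 16687808)) (a (l 16687184) (l 16658712))) (a (l 16620712) (l 16608160))))) (b (a (a (b (b (a (b (l 16735024) (l 16729704)) (b (l 16733096) (l 16725472))) (b (l 16702016) (l 16692624))) (b (l 16675672) (l 16651176))) (b (a (b (l 16692768) (l 16693232)) (b (l 16675768) (l 16675144))) (a (l 16615536) (b (l 16651352) (l 16625512))))) (a (b (b (a (l 16677640) (l 16655960)) (a (l 16654872) (l 16631936))) (b (a (l 16630224) (l 16606360)) (l 16570568))) (b (b (a (l 16635040) (l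 16616040)) (a (l 16609688) (l 16589272))) (b (l 16572112) (l 16543976))))) (a (a (b (l 16610312) (l 16571976)) (b (b (l 16587824) (l 16579536)) (l 16491528))) (a (b (b (l 16563040) (l 16533320)) (l 16444360)) (b (b (l 16514800) (l 16484360)) (l 16395160)))))), by decide +kernel⟩

def k36_pm_102_s : ∃ t, chk3 f_pm_102_s t 6 5 1 = true :=
  ⟨(b (b (b (a (b (a (l 16767880) (l 16763672)) (a (l 16766648) (l 16748936))) (a (b (l 16700720) (l 16731288)) (b (l 16724824) (l 16719272)))) (b (a (a (l 16730984) (l 16736976)) (a (l 16725288) (l 16713680))) (a (b (a (l 16742656) (l 16732368)) (a (l 16741048) (l 16731528))) (b (a (l 16721760) (l 16709600)) (b (a (l 16721024) (l 16708280)) (a (l 16720336) (l 16706872))))))) (a (a (l 16710656) (l 16701888)) (a (l 16691632) (l 16679560)))) (a (a (l 16622256) (b (l 16643976) (l 16586504))) (a (b (l 16635672) (l 16580088)) (b (l 16626224) (l 16573192))))), by decide +kernel⟩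

def k37_pm_102_s : ∃ t, chk3 f_pm_102_s t 7 5 1 = true :=
  ⟨(a (b (b (b (a (a (l 16713784) (l 16707352)) (a (b (l 16703592) (l 16694688)) (b (a (l 16697264) (l 16684656)) (a (l 16679544) (l 16653560))))) (a (b (l 16699296) (b (a (l 16699320) (l 16684576)) (b (a (l 16694408) (l 16668400)) (a (l 16687120) (l 16650080))))) (b (a (b (l 16684600) (l 16670928)) (l 16607592)) (b (a (l 16647144) (l 16594104)) (b (l 16553552) (l 16536128)))))) (a (a (l 16658760) (l 16617280)) (a (l 16569480) (l 16515624)))) (a (a (b (l 16611224) (l 16563656)) (l 16484952)) (b (l 16423680) (l 16415608)))) (a (b (b (b (a (b (l 16642408) (l 16608056)) (l 16497536)) (b (a (l 16569568) (l 16506400)) (b (l 16463744) (b (l 16484320) (l 16427112))))) (a (l 16457144) (l 16394944))) (b (l 16295568) (l 16297192))) (b (b (b (a (a (l 16506968) (l 16468272)) (a (l 16420952) (l 16371480))) (b (a (a (l 16453888) (l 16415920)) (a (l 16369424) (l 16320856))) (a (b (a (l 16423480) (l 16386512)) (a (b (l 16404408) (l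 16390920)) (b (l 16368496) (l 16355840)))) (b (a (l 16341096) (l 16293712)) (b (a (l 16324232) (l 16278088)) (a (l 16312464) (l 16267280))))))) (a (a (l 16343360) (l 16306240)) (a (l 16260728) (l 16213296)))) (a (a (l 16230128) (l 16186600)) (b (l 16126776) (l 16067152)))))), by decide +kernel⟩

def k38_pm_102_s : ∃ t, chk3 f_pm_102_s t 3 3 1 = true :=
  ⟨(b (b (a (a (a (l 16483800) (l 16500656)) (a (l 16475936) (l 16451744))) (a (a (a (l 16447760) (b (l 16485256) (l 16445496))) (b (l 16390936) (l 16348920))) (a (b (l 16241912) (l 6)) (l 6)))) (a (b (a (l 16414584) (l 16390472)) (l 6)) (a (l 6) (l 6)))) (l 6)), by decide +kernel⟩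

theorem s39_pm_102_s : ∃ t, chk3 f_pm_102_s t 3 5 1 = true := ex3_a k36_pm_102_s k37_pm_102_s

theorem s40_pm_102_s : ∃ t, chk3 f_pm_102_s t 7 9 1 = true := ex3_a k34_pm_102_s k35_pm_102_s

theorem s41_pm_102_s : ∃ t, chk3 f_pm_102_s t 31 17 1 = true := ex3_a k32_pm_102_s k33_pm_102_s

theorem s42_pm_102_s : ∃ t, chk3 f_pm_102_s t 61 34 1 = true := ex3_b k29_pm_102_s k30_pm_102_s

theorem s43_pm_102_s : ∃ t, chk3 f_pm_102_s t 30 34 1 = true := ex3_a k28_pm_102_s s42_pm_102_s

theorem s44_pm_102_s : ∃ t, chk3 f_pm_102_s t 30 17 1 = true := ex3_b s43_pm_102_s k31_pm_102_s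

theorem s45_pm_102_s : ∃ t, chk3 f_pm_102_s t 15 17 1 = true := ex3_a s44_pm_102_s s41_pm_102_s

theorem s46_pm_102_s : ∃ t, chk3 f_pm_102_s t 251 132 1 = true := ex3_a k23_pm_102_s k24_pm_102_s

theorem s47_pm_102_s : ∃ t, chk3 f_pm_102_s t 251 66 1 = true := ex3_b s46_pm_102_s k25_pm_102_s

theorem s48_pm_102_s : ∃ t, chk3 f_pm_102_s t 250 66 1 = true := ex3_b k21_pm_102_s k22_pm_102_s

theorem s49_pm_102_s : ∃ t, chk3 f_pm_102_s t 125 66 1 = true := ex3_a s48_pm_102_s s47_pm_102_s

theorem s50_pm_102_s : ∃ t, chk3 f_pm_102_s t 125 33 1 = true := ex3_b s49_pm_102_s k26_pm_102_s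

theorem s51_pm_102_s : ∃ t, chk3 f_pm_102_s t 124 67 1 = true := ex3_b k19_pm_102_s k20_pm_102_s

theorem s52_pm_102_s : ∃ t, chk3 f_pm_102_s t 124 33 1 = true := ex3_b k18_pm_102_s s51_pm_102_s

theorem s53_pm_102_s : ∃ t, chk3 f_pm_102_s t 62 33 1 = true := ex3_a s52_pm_102_s s50_pm_102_s

theorem s54_pm_102_s : ∃ t, chk3 f_pm_102_s t 31 33 1 = true := ex3_a s53_pm_102_s k27_pm_102_s

theorem s55_pm_102_s : ∃ t, chk3 f_pm_102_s t 252 131 1 = true := ex3_b k14_pm_102_s k15_pm_102_s

theorem s56_pm_102_s : ∃ t, chk3 f_pm_102_s t 126 131 1 = true := ex3_a s55_pm_102_s k16_pm_102_s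

theorem s57_pm_102_s : ∃ t, chk3 f_pm_102_s t 253 130 1 = true := ex3_b k12_pm_102_s k13_pm_102_s

theorem s58_pm_102_s : ∃ t, chk3 f_pm_102_s t 126 130 1 = true := ex3_a k11_pm_102_s s57_pm_102_s

theorem s59_pm_102_s : ∃ t, chk3 f_pm_102_s t 126 65 1 = true := ex3_b s58_pm_102_s s56_pm_102_s

theorem s60_pm_102_s : ∃ t, chk3 f_pm_102_s t 63 65 1 = true := ex3_a s59_pm_102_s k17_pm_102_s

theorem s61_pm_102_s : ∃ t, chk3 f_pm_102_s t 254 259 1 = true := ex3_a k8_pm_102_s k9_pm_102_s

theorem s62_pm_102_s : ∃ t, chk3 f_pm_102_s t 254 129 1 = true := ex3_b k7_pm_102_s s61_pm_102_s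

theorem s63_pm_102_s : ∃ t, chk3 f_pm_102_s t 254 64 1 = true := ex3_b k6_pm_102_s s62_pm_102_s

theorem s64_pm_102_s : ∃ t, chk3 f_pm_102_s t 127 64 1 = true := ex3_a s63_pm_102_s k10_pm_102_s

theorem s65_pm_102_s : ∃ t, chk3 f_pm_102_s t 63 64 1 = true := ex3_a k5_pm_102_s s64_pm_102_s

theorem s66_pm_102_s : ∃ t, chk3 f_pm_102_s t 63 32 1 = true := ex3_b s65_pm_102_s s60_pm_102_s

theorem s67_pm_102_s : ∃ t, chk3 f_pm_102_s t 31 32 1 = true := ex3_a k4_pm_102_s s66_pm_102_s

theorem s68_pm_102_s : ∃ t, chk3 f_pm_102_s t 31 16 1 = true := ex3_b s67_pm_102_s s54_pm_102_s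

theorem s69_pm_102_s : ∃ t, chk3 f_pm_102_s t 15 16 1 = true := ex3_a k3_pm_102_s s68_pm_102_s

theorem s70_pm_102_s : ∃ t, chk3 f_pm_102_s t 15 8 1 = true := ex3_b s69_pm_102_s s45_pm_102_s

theorem s71_pm_102_s : ∃ t, chk3 f_pm_102_s t 7 8 1 = true := ex3_a k2_pm_102_s s70_pm_102_s

theorem s72_pm_102_s : ∃ t, chk3 f_pm_102_s t 7 4 1 = true := ex3_b s71_pm_102_s s40_pm_102_s

theorem s73_pm_102_s : ∃ t, chk3 f_pm_102_s t 3 4 1 = true := ex3_a k1_pm_102_s s72_pm_102_s

theorem s74_pm_102_s : ∃ t, chk3 f_pm_102_s t 3 2 1 = true := ex3_b s73_pm_102_s s39_pm_102_s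

theorem s75_pm_102_s : ∃ t, chk3 f_pm_102_s t 3 1 1 = true := ex3_b s74_pm_102_s k38_pm_102_s

theorem s76_pm_102_s : ∃ t, chk3 f_pm_102_s t 1 1 1 = true := ex3_a k0_pm_102_s s75_pm_102_s

theorem c_pm_102_s : CertNE 536870912 536870912 0 536870912 1045395039 1503240 3 eng mog cd0q1 cd0q0 pd2 true true false .npp 1 0 2
    ndB0q1 ndB0q0 pcB2 cut_pm_102_s Ext.none :=
  certNE1 (fam := true) (s1 := true) (s2 := false) (a := 1) (b := 0) (c := 2) (cn := .npp) (n1 := ndB0q1) (n2 := ndB0q0) (pc := pcB2) (cut := cut_pm_102_s) (xt := Ext.none) (P1 := 536870912) (W1 := 536870912) (P2 := 0) (W2 := 536870912) (P3 := 1045395039) (W3 := 1503240) (N0 := 3) (En := eng) (mo := mog) (C1 := cd0q1) (C2 := cd0q0) (C3 := pd2)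
    rfl (fun _ => rfl) s76_pm_102_s

noncomputable def cut_pm_102_t : Cut := Cut.of [[⟨3, 0, 0, 2845415833⟩], [⟨0, 1, 0, 13421772⟩, ⟨1, 0, 0, 13421772⟩, ⟨2, 1, 0, 13421772⟩]]

noncomputable def f_pm_102_t : ℕ → ℕ → ℕ → ℕ → Bool := onCell 536870912 536870912 0 536870912 1045395039 1503240
    (rowNE 3 eng mog cd0q1 cd0q0 pd2 0 true true false .npp 1 0 2 (qsf 536870912 536870912 0 536870912 2) ndB0q1 ndB0q0 pcB2 cut_pm_102_t Ext.none)

def k0_pm_102_t : ∃ t, chk3 f_pm_102_t t 1 1 1 = true :=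
  ⟨(l 6), by decide +kernel⟩

theorem c_pm_102_t : CertNE 536870912 536870912 0 536870912 1045395039 1503240 3 eng mog cd0q1 cd0q0 pd2 true true false .npp 1 0 2
    ndB0q1 ndB0q0 pcB2 cut_pm_102_t Ext.none :=
  certNE0 (fam := true) (s1 := true) (s2 := false) (a := 1) (b := 0) (c := 2) (cn := .npp) (n1 := ndB0q1) (n2 := ndB0q0) (pc := pcB2) (cut := cut_pm_102_t) (xt := Ext.none) (P1 := 536870912) (W1 := 536870912) (P2 := 0) (W2 := 536870912) (P3 := 1045395039) (W3 := 1503240) (N0 := 3) (En := eng) (mo := mog) (C1 := cd0q1) (C2 := cd0q0) (C3 := pd2)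
    rfl k0_pm_102_t

noncomputable def cut_pm_112_s : Cut := Cut.of [[⟨4, 0, 0, 1449551462⟩]]

noncomputable def f_pm_112_s : ℕ → ℕ → ℕ → ℕ → Bool := onCell 536870912 536870912 1073741824 536870912 1045395039 1503240
    (rowNE 3 eng mog cd0q1 cd0q1 pd2 1 true true false .dn 1 1 2 (qsf 536870912 536870912 536870912 536870912 2) ndB0q1 ndB0q1 pcB2 cut_pm_112_s Ext.none)

def k0_pm_112_s : ∃ t, chk3 f_pm_112_s t 1 1 1 = true :=
  ⟨(a (b (b (b (l 3) (l 3)) (b (b (a (b (l 3) (b (l 3) (b (a (a (l 16772624) (l 3)) (l 3)) (a (l 16774992) (l 16777120))))) (a (b (l 3) (b (a (l 3) (l 1)) (b (a (l 16773392) (l 1)) (l 16770328)))) (l 1))) (a (a (a (l 16735672) (l 16740072)) (a (l 16742016) (l 16741552))) (a (a (l 16738672) (l 16733304)) (a (l 16725856) (l 1))))) (a (a (a (b (l 16668880) (l 16601968)) (l 16578664)) (b (a (l 16678616) (l 16679408)) (l 16573480))) (b (a (a (l 16677520) (l 16672920)) (a (l 16665704) (l 16658344))) (a (l 16572432) (a (l 16606528) (l 16598688))))))) (a (b (a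 (b (a (l 16461664) (l 16489128)) (a (l 16382120) (l 16383928))) (b (a (l 16517312) (l 16522376)) (a (l 16387752) (l 16394232)))) (l 6)) (b (b (a (a (l 16524216) (l 16522864)) (a (l 16518312) (l 16490240))) (b (a (l 16431656) (l 16426760)) (l 6))) (l 6)))) (b (a (b (l 1) (b (l 1) (a (a (b (l 1) (l 16592968)) (l 1)) (l 1)))) (l 1)) (b (b (a (a (a (l 16463040) (l 16438416)) (a (l 164852109751) (l 1))) (l 1)) (a (b (a (l 16393600) (l 16349208)) (l 6)) (a (l 6) (l 1)))) (l 6)))), by decide +kernel⟩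

theorem c_pm_112_s : CertNE 536870912 536870912 536870912 536870912 1045395039 1503240 3 eng mog cd0q1 cd0q1 pd2 true true false .dn 1 1 2
    ndB0q1 ndB0q1 pcB2 cut_pm_112_s Ext.none :=
  certNE1 (fam := true) (s1 := true) (s2 := false) (a := 1) (b := 1) (c := 2) (cn := .dn) (n1 := ndB0q1) (n2 := ndB0q1) (pc := pcB2) (cut := cut_pm_112_s) (xt := Ext.none) (P1 := 536870912) (W1 := 536870912) (P2 := 536870912) (W2 := 536870912) (P3 := 1045395039) (W3 := 1503240) (N0 := 3) (En := eng) (mo := mog) (C1 := cd0q1) (C2 := cd0q1) (C3 := pd2)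
    rfl (fun _ => rfl) k0_pm_112_s

noncomputable def cut_pm_112_t : Cut := Cut.of [[⟨3, 0, 0, 2845415833⟩]]

noncomputable def f_pm_112_t : ℕ → ℕ → ℕ → ℕ → Bool := onCell 536870912 536870912 1073741824 536870912 1045395039 1503240
    (rowNE 3 eng mog cd0q1 cd0q1 pd2 1 true true false .dn 1 1 2 (qsf 536870912 536870912 536870912 536870912 2) ndB0q1 ndB0q1 pcB2 cut_pm_112_t Ext.none)

def k0_pm_112_t : ∃ t, chk3 f_pm_112_t t 1 1 1 = true :=
  ⟨(l 6), by decide +kernel⟩

theorem c_pm_112_t : CertNE 536870912 536870912 536870912 536870912 1045395039 1503240 3 eng mog cd0q1 cd0q1 pd2 true true false .dn 1 1 2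
    ndB0q1 ndB0q1 pcB2 cut_pm_112_t Ext.none :=
  certNE1 (fam := true) (s1 := true) (s2 := false) (a := 1) (b := 1) (c := 2) (cn := .dn) (n1 := ndB0q1) (n2 := ndB0q1) (pc := pcB2) (cut := cut_pm_112_t) (xt := Ext.none) (P1 := 536870912) (W1 := 536870912) (P2 := 536870912) (W2 := 536870912) (P3 := 1045395039) (W3 := 1503240) (N0 := 3) (En := eng) (mo := mog) (C1 := cd0q1) (C2 := cd0q1) (C3 := pd2)
    rfl (fun _ => rfl) k0_pm_112_t

noncomputable def cut_pm_113_s : Cut := Cut.of [[⟨4, 0, 0, 1449551462⟩], [⟨0, 1, 0, 14155776⟩, ⟨1, 1, 0, 14155776⟩, ⟨2, 2, 0, 524288⟩], [⟨0, 0, 1, 46137344⟩, ⟨1, 1, 0, 1048576⟩, ⟨2, 1, 1, 46137344⟩, ⟨0, 0, 0, 1056440320⟩, ⟨0, 1, 0, 33457795⟩, ⟨2, 1, 0, 1056440320⟩, ⟨2, 2, 0, 33457795⟩], [⟨0, 1, 0, 1048576⟩, ⟨1, 0, 1, 46137344⟩, ⟨2, 1, 1, 46137344⟩, ⟨1, 0, 0, 1056440320⟩, ⟨1, 1, 0, 33457795⟩, ⟨2, 1, 0, 1056440320⟩, ⟨2, 2, 0, 33457795⟩]]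

noncomputable def f_pm_113_s : ℕ → ℕ → ℕ → ℕ → Bool := onCell 1610612736 536870912 536870912 536870912 1045395039 1503240
    (rowNE 3 eng mog cd0q1 cd0q1 pd3 2 true true false .nn 1 1 3 (qsf 536870912 536870912 536870912 536870912 3) ndB0q1 ndB0q1 pcB3 cut_pm_113_s Ext.none)

def k0_pm_113_s : ∃ t, chk3 f_pm_113_s t 1 1 1 = true :=
  ⟨(a (b (a (l 6) (l 6)) (l 6)) (l 6)), by decide +kernel⟩

theorem c_pm_113_s : CertNE 536870912 536870912 536870912 536870912 1045395039 1503240 3 eng mog cd0q1 cd0q1 pd3 true true false .nn 1 1 3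
    ndB0q1 ndB0q1 pcB3 cut_pm_113_s Ext.none :=
  certNE2 (fam := true) (s1 := true) (s2 := false) (a := 1) (b := 1) (c := 3) (cn := .nn) (n1 := ndB0q1) (n2 := ndB0q1) (pc := pcB3) (cut := cut_pm_113_s) (xt := Ext.none) (P1 := 536870912) (W1 := 536870912) (P2 := 536870912) (W2 := 536870912) (P3 := 1045395039) (W3 := 1503240) (N0 := 3) (En := eng) (mo := mog) (C1 := cd0q1) (C2 := cd0q1) (C3 := pd3)
    rfl (fun _ => rfl) k0_pm_113_s

end Pool.Agent.Strip051.G.I9736_9750.Tab.CS.BA00

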