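import Pool.Agent.Strip051.G.I9736_9750.Tab
import Pool.Agent.Strip051.PB.StripB
import Pool.Agent.Strip051.PB.ExtD3

/-! # Strips, near vertex: certificates 1 (generated) -/

set_option linter.all false
set_option maxRecDepth 100000

namespace Pool.Agent.Strip051.G.I9736_9750.Tab.CS.BA00

open Pool.Agent.Strip051.PB Pool.Agent.Strip051.PB.T
open Pool.Agent.Strip051.G.I9736_9750.Tab

noncomputable def cut_pm_113_t : Cut := Cut.of [[⟨3, 0, 0, 3194381926⟩], [⟨0, 1, 0, 14155776⟩, ⟨1, 1, 0, 14155776⟩, ⟨2, 2, 0, 524288⟩], [⟨0, 0, 1, 46137344⟩, ⟨1, 1, 0, 1048576⟩, ⟨2, 1, 1, 46137344⟩, ⟨0, 0, 0, 1056440320⟩, ⟨0, 1, 0, 33457795⟩, ⟨2, 1, 0, 1056440320⟩, ⟨2, 2, 0, 33457795⟩], [⟨0, 1, 0, 1048576⟩, ⟨1, 0, 1, 46137344⟩, ⟨2, 1, 1, 46137344⟩, ⟨1, 0, 0, 1056440320⟩, ⟨1, 1, 0, 33457795⟩, ⟨2, 1, 0, 1056440320⟩, ⟨2, 2, 0, 33457795⟩]]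

noncomputable def xt_pm_113_t : Ext := extD3 3 ⟨4, 1, 1, 5, 33, 5, 163, 200, 81, 200, 1, 64⟩ eng cd0q1 cd0q1 pd3 true true false .nn 1 1 3 rfl ndB0q1 ndB0q1 pcB3

noncomputable def f_pm_113_t : ℕ → ℕ → ℕ → ℕ → Bool := onCell 536870912 536870912 536870912 536870912 1045395039 1503240
    (rowNE 3 eng mog cd0q1 cd0q1 pd3 0 true true false .nn 1 1 3 (qsf 536870912 536870912 536870912 536870912 3) ndB0q1 ndB0q1 pcB3 cut_pm_113_t xt_pm_113_t)

def k0_pm_113_t : ∃ t, chk3 f_pm_113_t t 2 1 1 = true :=
  ⟨(l 6), by decide +kernel⟩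

def k1_pm_113_t : ∃ t, chk3 f_pm_113_t t 3 2 1 = true :=
  ⟨(l 6), by decide +kernel⟩

def k2_pm_113_t : ∃ t, chk3 f_pm_113_t t 6 3 1 = true :=
  ⟨(l 6), by decide +kernel⟩

def k3_pm_113_t : ∃ t, chk3 f_pm_113_t t 7 6 1 = true :=
  ⟨(l 6), by decide +kernel⟩

def k4_pm_113_t : ∃ t, chk3 f_pm_113_t t 14 7 1 = true :=
  ⟨(l 6), by decide +kernel⟩

def k5_pm_113_t : ∃ t, chk3 f_pm_113_t t 15 14 1 = true :=
  ⟨(l 6), by decide +kernel⟩

def k6_pm_113_t : ∃ t, chk3 f_pm_113_t t 30 15 1 = true :=
  ⟨(l 6), by decide +kernel⟩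

def k7_pm_113_t : ∃ t, chk3 f_pm_113_t t 31 30 1 = true :=
  ⟨(l 6), by decide +kernel⟩

def k8_pm_113_t : ∃ t, chk3 f_pm_113_t t 62 31 1 = true :=
  ⟨(l 6), by decide +kernel⟩

def k9_pm_113_t : ∃ t, chk3 f_pm_113_t t 63 62 1 = true :=
  ⟨(l 6), by decide +kernel⟩

def k10_pm_113_t : ∃ t, chk3 f_pm_113_t t 126 63 1 = true :=
  ⟨(b (l 6) (b (l 6) (a (l 6) (b (l 6) (a (l 6) (b (l 6) (a (l 6) (b (l 604418522329421578903055) (b (l 604341564818989071179279) (a (l 604608754377681706587663) (l 604601548618277915956751))))))))))), by decide +kernel⟩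

def k11_pm_113_t : ∃ t, chk3 f_pm_113_t t 127 126 1 = true :=
  ⟨(a (l 6) (b (l 6) (a (l 6) (b (l 6) (a (l 6) (b (l 6) (a (l 604418522329421578903071) (a (l 604341564818989071179295) (b (l 604608754377681706587679) (l 604601548618277915956767)))))))))), by decide +kernel⟩

def k12_pm_113_t : ∃ t, chk3 f_pm_113_t t 127 254 1 = true :=
  ⟨(b (a (l 6) (a (a (l 6) (b (l 6) (a (l 16779544) (l 604104207066501153631839)))) (a (a (b (l 604510467819413980929567) (l 604341708859685242629727)) (b (l 604507009054900158897695) (l 604445039524027542642207))) (a (l 604477897786908824542751) (a (l 604496632761358684462623) (b (l 604613366063700137186847) (l 604562637517497436296735))))))) (a (a (l 6) (a (l 6) (l 16781880))) (a (a (a (b (l 144105739138236511) (l 16773608)) (b (l 144117627615772767) (l 144098523592392799))) (a (b (l 144113023419531359) (l 144120582552469599)) (b (l 144095637390442591) (l 144121956950704223)))) (a (b (a (l 604189523241830422031967) (l 604459595076247028100703)) (a (l 604028690710698184797791)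 (a (l 604152341521382705737311) (l 604407137161943629426271)))) (a (b (l 604314182933254664805919) (l 604407713652245295443551)) (b (b (l 604532373328001507644959) (l 604536985014019935327775)) (b (l 604433798539357622851103) (l 604342285340709787575903)))))))), by decide +kernel⟩

def k13_pm_113_t : ∃ t, chk3 f_pm_113_t t 254 255 1 = true :=
  ⟨(b (a (a (l 6) (b (l 6) (b (l 16778888) (l 16778112)))) (a (b (b (l 144105739138236495) (l 144117627615772751)) (b (l 144113023419531343) (l 144095637390442575))) (b (b (l 16773608) (l 144098523592392783)) (b (l 144120582552469583) (l 144121956950704207))))) (a (b (b (a (l 604510467819413980929551) (l 604341708859685242629711)) (a (l 604507009054900158897679) (l 604445039524027542642191))) (b (l 604477897786908824542735) (a (b (l 604339835436732163677711) (l 604613366063700137186831)) (l 604576472575552719115791)))) (b (a (b (l 604189523241830422031951) (l 604459595076247028100687)) (b (l 604028690710698184797775) (b (l 604152341521382705737295) (l 604407137161943629426255))))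 (b (a (l 604314182933254664805903) (l 604407713652245295443535)) (a (a (l 604532373328001507644943) (l 604536985014019935327759)) (a (l 604433798539357622851087) (l 604342285340709787575887))))))), by decide +kernel⟩

def k14_pm_113_t : ∃ t, chk3 f_pm_113_t t 510 255 1 = true :=
  ⟨(a (b (b (a (l 16773616) (l 16778360)) (b (l 16776904) (l 144109587435208783))) (b (b (l 144129516081430607) (l 604243710603261917621839)) (a (b (l 604336520761361742556751) (l 604310580005517847193167)) (b (l 604290403907705808563791) (l 604245151738375113975375))))) (a (b (b (l 16776904) (l 16776856)) (b (b (l 144105464265031759) (l 144117146585169999)) (b (l 604252069272213116513871) (l 144100722620825679)))) (b (b (l 144109587435208799) (l 16778976)) (b (b (l 144099623110148175) (l 144105876585611343)) (b (l 144101959574388815) (b (l 144112198774997071) (l 144097561524142159))))))), by decide +kernel⟩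

def k15_pm_113_t : ∃ t, chk3 f_pm_113_t t 511 510 1 = true :=
  ⟨(b (a (a (l 144129516081430623) (l 604243710603261917621855)) (a (a (l 604311156496987766222431) (l 604313174099381614308959)) (b (l 604310580005517847193183) (l 604245151738375113975391)))) (b (a (a (l 144105464265031775) (l 144117146585170015)) (a (l 604252069272213116513887) (l 144100722620825695))) (a (a (l 144099623110148191) (l 144105876585611359)) (a (l 144101959574388831) (a (l 144112198774997087) (l 144097561524142175)))))), by decide +kernel⟩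

def k16_pm_113_t : ∃ t, chk3 f_pm_113_t t 1022 511 1 = true :=
  ⟨(a (b (b (a (l 16775448) (l 16777816)) (b (l 16777120) (l 144117902493745231))) (b (b (l 144100997506957391) (l 144097011776929871)) (b (l 144114603956912207) (l 144106701217661007)))) (b (a (b (l 16777120) (l 16777056)) (b (l 144117902493745247) (l 16776800))) (b (b (a (l 144114397799546959) (l 144110137192251471)) (b (l 144114878835261519) (l 144113023414468687))) (b (b (l 144112061341679695) (l 144115291151482959)) (b (c (l 144113160849555535) (l 144113298288541775)) (l 144110343351042127)))))), by decide +kernel⟩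

def k17_pm_113_t : ∃ t, chk3 f_pm_113_t t 1023 1022 1 = true :=
  ⟨(b (a (a (l 144100997506957407) (l 144097011776929887)) (a (l 144114603956912223) (l 144106701217661023))) (a (a (b (l 144114397799546975) (l 144110137192251487)) (a (l 144114878835261535) (l 144113023414468703))) (a (a (l 144112061341679711) (l 144115291151482975)) (a (c (l 144113160849555551) (l 144113298288541791)) (l 144110343351042143))))), by decide +kernel⟩

def k18_pm_113_t : ∃ t, chk3 f_pm_113_t t 1023 1023 1 = true :=
  ⟨(a (a (b (b (l 16777696) (b (l 16777176) (l 144113023408963663))) (b (b (l 144107457136328783) (l 144116734265557071)) (b (l 144114397800333391) (l 144111374143520847)))) (a (b (l 16777920) (b (b (a (l 144106288905125967) (l 144115428595564623)) (l 144115703473176655)) (b (c (l 144117215298830415) (l 144117215298846799)) (l 144114397800677455)))) (b (b (l 144113023408963679) (l 16777016)) (b (b (c (l 144110755668574287) (l 144110824388051023)) (b (l 604409731302124323761743) (l 144113023413387343))) (b (b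 (l 144112336218570831) (l 144115222436560975)) (b (l 144115428593287247) (l 144114672678993999))))))) (b (a (a (b (l 144107457136328799) (b (a (l 144115634754109535) (l 144116115790184543)) (c (l 144110755668574303) (l 144110824388051039)))) (b (l 144116734265557087) (b (l 144115703473176671) (a (l 604409731302124323761759) (l 144113023413387359))))) (a (b (l 144114397800333407) (a (l 144112404938129503) (a (l 144116115787153503) (l 144115428592304223)))) (b (l 144111374143520863) (b (l 144114397800677471) (a (l 144115428593287263) (l 144114672678994015)))))) (a (b (b (a (l 16777456) (a (l 16777200) (a (l 144111855182299231) (l 604425583970201327529567)))) (b (l 16777240) (a (a (l 604414631216182440422991) (l 144111099268005967)) (l 16777112)))) (b (a (a (l 144116665545457743) (b (l 144110412073009231) (l 144115359875285071))) (a (b (b (l 16777536) (l 604441148413880774094415)) (l 604432789733247252295247)) (a (b (l 16777280) (l 604439419030730510495311)) (b (l 16776976) (l 14))))) (b (b (a (l 144115978349232207)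 (l 144113367008952399)) (a (a (l 144113779327123535) (l 144115497312731215)) (l 14))) (a (l 144114535240155215) (l 14))))) (a (b (b (b (l 144116665545457759) (a (l 144110412073009247) (l 144115359875285087))) (b (a (a (l 144110412073058399) (l 604441148413880774094431)) (l 604432789733247252295263)) (b (a (l 16777448) (l 604439419030730510495327)) (a (l 16776976) (l 14))))) (b (b (a (l 16777336) (l 14)) (l 14)) (l 14))) (b (a (a (b (l 144115978349232223) (l 144113367008952415)) (b (a (l 144115703472570463) (l 144113504449151071)) (l 14))) (b (l 144114535240155231) (l 14))) (l 14)))))), by decide +kernel⟩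

theorem s19_pm_113_t : ∃ t, chk3 f_pm_113_t t 1023 511 1 = true := ex3_b k17_pm_113_t k18_pm_113_t

theorem s20_pm_113_t : ∃ t, chk3 f_pm_113_t t 511 511 1 = true := ex3_a k16_pm_113_t s19_pm_113_t

theorem s21_pm_113_t : ∃ t, chk3 f_pm_113_t t 511 255 1 = true := ex3_b k15_pm_113_t s20_pm_113_t

theorem s22_pm_113_t : ∃ t, chk3 f_pm_113_t t 255 255 1 = true := ex3_a k14_pm_113_t s21_pm_113_t

theorem s23_pm_113_t : ∃ t, chk3 f_pm_113_t t 127 255 1 = true := ex3_a k13_pm_113_t s22_pm_113_t

theorem s24_pm_113_t : ∃ t, chk3 f_pm_113_t t 127 127 1 = true := ex3_b k12_pm_113_t s23_pm_113_t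

theorem s25_pm_113_t : ∃ t, chk3 f_pm_113_t t 127 63 1 = true := ex3_b k11_pm_113_t s24_pm_113_t

theorem s26_pm_113_t : ∃ t, chk3 f_pm_113_t t 63 63 1 = true := ex3_a k10_pm_113_t s25_pm_113_t

theorem s27_pm_113_t : ∃ t, chk3 f_pm_113_t t 63 31 1 = true := ex3_b k9_pm_113_t s26_pm_113_t

theorem s28_pm_113_t : ∃ t, chk3 f_pm_113_t t 31 31 1 = true := ex3_a k8_pm_113_t s27_pm_113_t

theorem s29_pm_113_t : ∃ t, chk3 f_pm_113_t t 31 15 1 = true := ex3_b k7_pm_113_t s28_pm_113_t

theorem s30_pm_113_t : ∃ t, chk3 f_pm_113_t t 15 15 1 = true := ex3_a k6_pm_113_t s29_pm_113_t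

theorem s31_pm_113_t : ∃ t, chk3 f_pm_113_t t 15 7 1 = true := ex3_b k5_pm_113_t s30_pm_113_t

theorem s32_pm_113_t : ∃ t, chk3 f_pm_113_t t 7 7 1 = true := ex3_a k4_pm_113_t s31_pm_113_t

theorem s33_pm_113_t : ∃ t, chk3 f_pm_113_t t 7 3 1 = true := ex3_b k3_pm_113_t s32_pm_113_t

theorem s34_pm_113_t : ∃ t, chk3 f_pm_113_t t 3 3 1 = true := ex3_a k2_pm_113_t s33_pm_113_t

theorem s35_pm_113_t : ∃ t, chk3 f_pm_113_t t 3 1 1 = true := ex3_b k1_pm_113_t s34_pm_113_t

theorem s36_pm_113_t : ∃ t, chk3 f_pm_113_t t 1 1 1 = true := ex3_a k0_pm_113_t s35_pm_113_t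

theorem c_pm_113_t : CertNE 536870912 536870912 536870912 536870912 1045395039 1503240 3 eng mog cd0q1 cd0q1 pd3 true true false .nn 1 1 3
    ndB0q1 ndB0q1 pcB3 cut_pm_113_t xt_pm_113_t :=
  certNE0 (fam := true) (s1 := true) (s2 := false) (a := 1) (b := 1) (c := 3) (cn := .nn) (n1 := ndB0q1) (n2 := ndB0q1) (pc := pcB3) (cut := cut_pm_113_t) (xt := xt_pm_113_t) (P1 := 536870912) (W1 := 536870912) (P2 := 536870912) (W2 := 536870912) (P3 := 1045395039) (W3 := 1503240) (N0 := 3) (En := eng) (mo := mog) (C1 := cd0q1) (C2 := cd0q1) (C3 := pd3)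
    rfl s36_pm_113_t

noncomputable def cut_pm_123_s : Cut := Cut.of [[⟨4, 0, 0, 1449551462⟩], [⟨0, 1, 0, 14155776⟩, ⟨1, 1, 0, 14155776⟩, ⟨2, 2, 0, 524288⟩], [⟨0, 0, 1, 46137344⟩, ⟨1, 1, 0, 1048576⟩, ⟨2, 1, 1, 46137344⟩, ⟨0, 0, 0, 1056440320⟩, ⟨0, 1, 0, 33457795⟩, ⟨2, 1, 0, 1056440320⟩, ⟨2, 2, 0, 33457795⟩], [⟨0, 1, 0, 1048576⟩, ⟨1, 0, 1, 46137344⟩, ⟨2, 1, 1, 46137344⟩, ⟨1, 0, 0, 1056440320⟩, ⟨1, 1, 0, 33457795⟩, ⟨2, 1, 0, 1056440320⟩, ⟨2, 2, 0, 33457795⟩]]

noncomputable def f_pm_123_s : ℕ → ℕ → ℕ → ℕ → Bool := onCell 536870912 536870912 0 536870912 1045395039 1503240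
    (rowNE 3 eng mog cd0q1 cd0q2 pd3 0 true true false .npn 1 2 3 (qsf 536870912 536870912 0 536870912 3) ndB0q1 ndB0q2 pcB3 cut_pm_123_s Ext.none)

def k0_pm_123_s : ∃ t, chk3 f_pm_123_s t 1 1 1 = true :=
  ⟨(l 6), by decide +kernel⟩

theorem c_pm_123_s : CertNE 536870912 536870912 0 536870912 1045395039 1503240 3 eng mog cd0q1 cd0q2 pd3 true true false .npn 1 2 3
    ndB0q1 ndB0q2 pcB3 cut_pm_123_s Ext.none :=
  certNE0 (fam := true) (s1 := true) (s2 := false) (a := 1) (b := 2) (c := 3) (cn := .npn) (n1 := ndB0q1) (n2 := ndB0q2) (pc := pcB3) (cut := cut_pm_123_s) (xt := Ext.none) (P1 := 536870912) (W1 := 536870912) (P2 := 0) (W2 := 536870912) (P3 := 1045395039) (W3 := 1503240) (N0 := 3) (En := eng) (mo := mog) (C1 := cd0q1) (C2 := cd0q2) (C3 := pd3)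
    rfl k0_pm_123_s

noncomputable def cut_pm_123_t : Cut := Cut.of [[⟨3, 0, 0, 3194381926⟩], [⟨0, 1, 0, 14155776⟩, ⟨1, 1, 0, 14155776⟩, ⟨2, 2, 0, 524288⟩], [⟨0, 0, 1, 46137344⟩, ⟨1, 1, 0, 1048576⟩, ⟨2, 1, 1, 46137344⟩, ⟨0, 0, 0, 1056440320⟩, ⟨0, 1, 0, 33457795⟩, ⟨2, 1, 0, 1056440320⟩, ⟨2, 2, 0, 33457795⟩], [⟨0, 1, 0, 1048576⟩, ⟨1, 0, 1, 46137344⟩, ⟨2, 1, 1, 46137344⟩, ⟨1, 0, 0, 1056440320⟩, ⟨1, 1, 0, 33457795⟩, ⟨2, 1, 0, 1056440320⟩, ⟨2, 2, 0, 33457795⟩]]

noncomputable def xt_pm_123_t : Ext := extD3 3 ⟨4, 1, 1, 5, 33, 5, 163, 200, 81, 200, 1, 64⟩ eng cd0q1 cd0q2 pd3 true true false .npn 1 2 3 rfl ndB0q1 ndB0q2 pcB3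

noncomputable def f_pm_123_t : ℕ → ℕ → ℕ → ℕ → Bool := onCell 1610612736 536870912 0 536870912 1045395039 1503240
    (rowNE 3 eng mog cd0q1 cd0q2 pd3 2 true true false .npn 1 2 3 (qsf 536870912 536870912 0 536870912 3) ndB0q1 ndB0q2 pcB3 cut_pm_123_t xt_pm_123_t)

def k0_pm_123_t : ∃ t, chk3 f_pm_123_t t 2 1 1 = true :=
  ⟨(b (a (l 6) (a (l 6) (b (a (l 16698112) (b (l 16753768) (l 6))) (l 6)))) (l 6)), by decide +kernel⟩

def k1_pm_123_t : ∃ t, chk3 f_pm_123_t t 3 2 1 = true :=
  ⟨(a (a (b (a (b (l 82375970071) (l 16727728)) (b (l 115125022343) (l 16711824))) (l 6)) (b (b (l 4) (a (a (l 16732032) (l 96334614535)) (a (l 132841805431) (l 4)))) (a (b (l 16725072) (l 6)) (b (a (l 16751960) (l 77007285015)) (l 6))))) (a (b (l 4) (a (b (a (l 121567521847) (l 4)) (a (l 16723872) (b (l 16750120) (l 16731688)))) (b (l 4) (a (a (l 72175445591) (l 79691609399)) (a (l 124788743287) (l 4)))))) (l 4))), by decide +kernel⟩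

def k2_pm_123_t : ∃ t, chk3 f_pm_123_t t 6 3 1 = true :=
  ⟨(l 6), by decide +kernel⟩

def k3_pm_123_t : ∃ t, chk3 f_pm_123_t t 7 6 1 = true :=
  ⟨(a (a (l 6) (b (a (b (l 16719224) (l 6)) (b (a (l 16749176) (l 16747920)) (l 16684696))) (l 6))) (a (b (a (b (a (l 16722216) (l 4)) (a (l 16742384) (l 51774392023))) (a (b (l 4) (b (l 4) (l 101166528711))) (l 4))) (a (b (a (l 6) (l 16707520)) (l 6)) (a (b (l 16699712) (b (l 16686768) (l 6))) (b (a (l 16727880) (l 97408418615)) (a (l 16697392) (l 16719992)))))) (a (b (l 4) (a (b (a (l 349200928407) (l 4)) (a (l 16712696) (b (l 94724094679) (l 16751224)))) (b (l 4) (b (l 4) (a (b (l 196729580455) (l 16749224)) (a (l 243437334871) (l 4))))))) (l 4)))), by decide +kernel⟩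

def k4_pm_123_t : ∃ t, chk3 f_pm_123_t t 14 7 1 = true :=
  ⟨(l 6), by decide +kernel⟩

def k5_pm_123_t : ∃ t, chk3 f_pm_123_t t 30 14 1 = true :=
  ⟨(a (l 6) (l 6)), by decide +kernel⟩

def k6_pm_123_t : ∃ t, chk3 f_pm_123_t t 62 14 1 = true :=
  ⟨(b (a (b (a (l 16682584) (l 16711024)) (a (l 6) (b (l 16677760) (l 6)))) (a (b (l 16741168) (l 16698984)) (b (a (l 16743992) (a (l 16755752) (l 16753952))) (a (l 16725008) (l 16742800))))) (a (l 6) (b (a (b (a (l 6) (l 16673000)) (l 6)) (b (l 16702088) (a (b (l 16674928) (l 16660576)) (b (l 16695800) (l 16684528))))) (a (l 6) (b (a (l 6) (b (a (l 16664536) (l 16677992)) (l 16654952))) (l 16614272)))))), by decide +kernel⟩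

def k7_pm_123_t : ∃ t, chk3 f_pm_123_t t 63 14 1 = true :=
  ⟨(a (b (a (b (a (b (l 4) (l 261690970471)) (l 4)) (a (b (l 16749432) (l 16751032)) (a (l 82376089351) (b (l 4) (l 16753848))))) (b (l 4) (a (b (l 4) (a (l 393761249287) (l 4))) (l 4)))) (a (b (a (b (l 16731008) (l 16710616)) (b (l 16750632) (l 16731064))) (b (a (b (l 16695024) (a (l 16676528) (l 16689504))) (l 16721992)) (a (l 16660176) (b (a (b (l 16693280) (l 16686544)) (l 16702696)) (a (l 16675608) (l 16691008)))))) (b (a (b (a (l 16765920) (b (l 182234099287) (l 16771688))) (l 16752184)) (b (a (b (l 4) (l 563949331175)) (l 4)) (a (a (l 16765840) (l 16760800)) (b (a (l 252027320775) (l 4)) (a (l 16772416) (l 182770977399)))))) (a (b (l 16733600) (b (l 16720240) (a (b (l 16707816) (l 16702664)) (l 16717648)))) (b (a (l 16750440) (l 16761840)) (a (l 16733432) (l 16745104))))))) (a (b (l 4) (b (a (b (l 4) (a (b (l 4) (l 729305565831)) (l 4))) (l 4)) (a (b (a (b (a (l 16764288) (b (l 4) (l 238068684135))) (l 16769112)) (b (l 4) (a (b (l 585961041479)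 (l 16765208)) (l 807151851447)))) (a (b (l 16760792) (l 16752992)) (a (l 16765632) (b (b (a (l 16776032) (l 338463545895)) (l 16773528)) (l 16767704))))) (b (l 4) (a (b (a (b (l 4) (a (l 274039037911) (l 4))) (l 4)) (a (b (a (l 16774064) (l 16774128)) (l 16771736)) (b (l 857617720183) (a (l 16770776) (b (l 4) (l 347053483703)))))) (l 4)))))) (l 4))), by decide +kernel⟩

def k8_pm_123_t : ∃ t, chk3 f_pm_123_t t 30 15 1 = true :=
  ⟨(l 6), by decide +kernel⟩

def k9_pm_123_t : ∃ t, chk3 f_pm_123_t t 62 30 1 = true :=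
  ⟨(l 6), by decide +kernel⟩

def k10_pm_123_t : ∃ t, chk3 f_pm_123_t t 126 30 1 = true :=
  ⟨(a (b (b (a (l 16630032) (l 16662744)) (a (l 6) (l 16639664))) (b (a (l 6) (b (l 16628448) (l 6))) (l 6))) (b (b (a (b (a (l 16693352) (b (a (l 16708040) (l 16714728)) (l 16706144))) (l 16689472)) (b (a (b (l 16723880) (l 16720144)) (l 16734088)) (a (b (a (l 16712440) (l 16719768)) (l 16711224)) (b (l 16729352) (a (b (l 16723904) (l 16721992)) (l 16729512)))))) (a (b (l 16679080) (l 16670808)) (b (a (l 16704224) (b (a (l 16718608) (b (l 16727368) (l 16725536))) (l 16718560))) (l 16705272)))) (b (a (b (l 16665552) (l 16664520)) (b (a (l 16692464) (l 16709720)) (a (l 16692512) (l 16710296)))) (b (a (a (l 16659336) (l 16679408)) (a (l 16698784) (l 16717216))) (a (a (l 6) (l 16693456)) (a (l 16713984) (l 16733304))))))), by decide +kernel⟩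

def k11_pm_123_t : ∃ t, chk3 f_pm_123_t t 254 60 1 = true :=
  ⟨(a (b (a (b (l 16745936) (l 16739912)) (b (l 16757664) (l 16751616))) (a (b (b (a (l 16733144) (l 16739272)) (a (b (a (l 16729472) (l 16733128)) (l 16729608)) (b (l 16737832) (a (l 16735272) (l 16738488))))) (b (a (l 16727168) (b (a (l 16733816) (l 16737544)) (l 16734288))) (l 16728504))) (b (l 16747008) (a (b (b (l 16742208) (a (l 16739936) (l 16743120))) (b (a (l 16738760) (l 16742464)) (l 16739584))) (b (l 16747656) (b (l 16747000) (a (l 16745112) (l 16748200)))))))) (b (a (a (b (l 16766400) (l 16760208)) (b (a (l 16770752) (l 16773608)) (l 16765840))) (a (b (b (a (b (l 894661816711) (l 275649654071)) (l 4)) (a (l 16774800) (b (l 743264220567) (l 212298886855)))) (l 16771416)) (b (l 4) (a (b (b (a (l 16771712) (l 993982936167)) (l 16773640)) (l 16774064)) (b (l 989687966167) (b (a (l 16766264) (l 852249016151)) (l 16775968))))))) (a (b (a (l 16755456) (l 16760896)) (a (l 16752680) (l 16757904))) (a (b (l 16766200) (l 16762888)) (b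 (l 16771368) (l 16767624)))))), by decide +kernel⟩

def k12_pm_123_t : ∃ t, chk3 f_pm_123_t t 254 61 1 = true :=
  ⟨(a (b (a (b (l 16726192) (l 16727088)) (b (b (a (l 16738376) (b (a (l 16744304) (l 16747888)) (l 16745504))) (l 16741392)) (l 16742584))) (b (a (l 16734384) (l 16749888)) (l 602676313551117298016271))) (b (a (b (a (b (a (b (l 16750904) (b (l 16750896) (l 16750720))) (l 16753576)) (b (a (l 16750440) (a (l 16753032) (l 16754624))) (l 16752048))) (b (l 16757408) (a (b (l 16756608) (a (l 16756224) (b (l 16757672) (l 16757832)))) (l 16759256)))) (b (a (l 16752440) (a (l 16757344) (b (a (l 16759536) (b (l 16760800) (l 16761128))) (l 16760712)))) (l 16757440))) (b (a (l 16762272) (l 16766488)) (a (b (a (b (l 16762664) (a (l 16762952) (b (l 16764000) (l 16764072)))) (l 16765208)) (a (l 16764584) (b (a (l 16764576) (b (l 16765136) (l 16764944))) (l 16765128)))) (b (l 16767960) (a (b (l 16766176) (a (b (l 16765392) (l 16765488)) (b (l 16766048) (l 16765840)))) (l 16767424)))))) (a (b (l 16763248)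 (l 16762288)) (b (a (l 16766152) (b (a (l 16766096) (b (a (b (l 16766304) (l 16766248)) (l 16766944)) (a (l 16766592) (l 16766736)))) (l 16767152))) (l 143909270123823119))))), by decide +kernel⟩

def k13_pm_123_t : ∃ t, chk3 f_pm_123_t t 510 60 1 = true :=
  ⟨(a (b (a (a (a (b (l 4) (b (l 4) (l 873723851303))) (l 4)) (l 4)) (l 4)) (a (b (a (b (a (l 16775832) (b (l 789435120007) (l 16776432))) (l 16773952)) (b (b (l 4) (a (b (l 1046596286391) (l 369602065495)) (l 4))) (a (l 16775760) (b (a (l 351885325511) (l 959623198871)) (l 16776352))))) (a (l 16771024) (l 16773224))) (b (a (b (l 4) (a (b (l 4) (a (l 338463552823) (l 951033264391))) (l 4))) (l 4)) (a (b (a (l 16775816) (b (a (l 333094843751) (l 954254489927)) (l 16776392))) (l 16774504)) (b (a (b (l 4) (a (b (l 16775456) (l 16776920)) (l 968750004551))) (l 4)) (a (l 16775992) (b (a (b (l 527442113735) (l 16776944)) (l 998814775575)) (l 16776520)))))))) (b (l 4) (a (b (l 4) (a (b (l 4) (a (b (l 4) (a (b (l 556433142903) (l 16776976)) (l 1044448802983)))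 (l 4))) (l 4))) (l 4)))), by decide +kernel⟩

def k14_pm_123_t : ∃ t, chk3 f_pm_123_t t 510 122 1 = true :=
  ⟨(a (a (b (a (l 16769400) (l 16771208)) (l 16759848)) (b (a (l 16772920) (l 16771912)) (a (l 16772392) (l 16773664)))) (a (b (a (b (a (l 16775600) (b (a (b (l 597235332071) (l 16777016)) (l 1106188957671)) (l 16776376))) (l 16775640)) (b (a (b (l 4) (a (b (l 1105652087479) (l 16774432)) (l 1184572110551))) (l 4)) (a (b (a (l 16776688) (b (l 16775752) (l 16776888))) (l 16776408)) (b (a (b (l 1222689945991) (c (l 384097580823) (l 384634452391))) (l 4)) (a (l 16776832) (b (b (l 559654369367) (l 16771864)) (l 16777000))))))) (a (l 16769592) (a (l 16770384) (l 16770880)))) (b (a (b (l 4) (a (b (l 4) (a (a (b (l 4) (l 16771864)) (l 1176519047495)) (l 4))) (l 4))) (l 4)) (a (b (a (a (l 16776824) (b (b (a (l 16774440) (l 721252513431)) (l 16777080)) (l 16776848))) (b (a (b (l 4) (l 601530299543)) (l 4)) (a (l 16774448) (b (l 1122295085895) (l 16776448))))) (l 16773824)) (b (a (a (l 1291409420311) (l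 4)) (l 4)) (a (b (a (a (l 16777088) (b (l 507577891127) (l 16777088))) (b (l 1396636121319) (a (l 16771912) (l 622468266023)))) (l 16776904)) (b (l 4) (a (b (a (l 16776440) (l 738432382039)) (l 16777136)) (a (b (l 4) (l 548380080375)) (l 4)))))))))), by decide +kernel⟩

def k15_pm_123_t : ∃ t, chk3 f_pm_123_t t 510 123 1 = true :=
  ⟨(a (b (a (b (a (b (l 16768056) (a (b (l 16767248) (l 16767088)) (l 16767880))) (l 16769312)) (a (b (a (l 16767352) (b (a (l 16767376) (l 16767656)) (l 16767632))) (l 16767832)) (b (a (b (l 16768176) (a (l 16767808) (l 16768128))) (l 16768824)) (a (l 16768064) (b (l 16768480) (l 16768368)))))) (a (b (l 16770800) (a (l 16769400) (l 16770088))) (l 16771704))) (a (l 16768960) (b (a (b (a (b (a (l 16768688) (l 16768904)) (l 16768928)) (b (l 16769432) (a (l 16769088) (l 16769392)))) (l 16769256)) (b (l 16770432) (a (b (a (l 16769544) (l 16769872)) (a (l 16769616) (l 16769720))) (l 16770368)))) (a (l 16769800) (b (a (l 16769912) (b (a (l 16769952) (l 16768872)) (l 16770184)))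 (l 16770320)))))) (a (b (a (l 16762560) (l 16771664)) (b (a (l 16771656) (l 16773032)) (a (b (a (b (l 16770696) (a (b (l 16770368) (l 16770360)) (l 16770680))) (l 16771312)) (a (b (l 16770504) (l 16770688)) (b (a (b (l 16770856) (l 16770776)) (l 16771152)) (a (l 16770832) (b (l 16771024) (l 16770976)))))) (a (l 16771872) (l 16772528))))) (a (b (b (l 16765264) (l 16775032)) (b (l 16774296) (l 16773536))) (b (a (l 16770880) (b (b (a (l 16776896) (b (l 16776544) (l 16777008))) (l 16776704)) (l 16776264))) (a (l 16764320) (l 16770104)))))), by decide +kernel⟩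

def k16_pm_123_t : ∃ t, chk3 f_pm_123_t t 511 30 1 = true :=
  ⟨(a (b (l 4) (b (l 4) (a (b (a (b (a (b (a (a (b (l 689577129895) (l 16777160)) (b (l 4) (a (l 16774520) (l 616025815271)))) (l 1467503080839)) (a (l 16776984) (a (l 16775848) (b (l 654143649815) (l 16777144))))) (b (l 4) (a (a (b (l 4) (b (l 16776304) (l 16777224))) (l 1416500344839)) (l 4)))) (a (l 16771432) (b (a (l 16776448) (a (b (l 643943102535) (l 16777144)) (b (l 4) (b (l 657364875847) (l 16777216))))) (l 16776920)))) (b (l 4) (a (b (a (l 1457839404487) (l 4)) (a (a (l 16775848) (b (b (l 944053941991) (l 16776408)) (l 16777152))) (a (b (l 4) (b (l 691724614183) (l 16777216))) (l 1502399690695)))) (l 4)))) (a (a (l 16773232) (b (l 16776552) (l 16776040))) (b (a (b (a (l 16776936) (a (l 16777056) (b (l 16776552) (l 16777080)))) (l 16776800)) (b (a (a (b (b (l 4) (l 606362139319)) (l 16777168)) (b (l 4) (b (l 773328992343) (l 16774560)))) (l 1648965448855)) (a (l 16777048) (b (a (b (l 540327017239) (l 16777184)) (b (l 4) (l 723399997639)))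 (l 16775856))))) (a (l 16776464) (l 16774208))))) (b (l 4) (a (b (a (b (l 4) (a (a (b (l 4) (b (l 892514334583) (l 498451086151))) (l 4)) (l 4))) (l 4)) (a (b (b (a (a (l 16777152) (b (l 695482710279) (l 16774600))) (l 1585614682231)) (a (l 16777096) (a (a (l 16777192) (b (l 16775744) (l 16777192))) (b (l 4) (l 692261484823))))) (a (l 16776968) (b (l 16775856) (l 16777064)))) (b (l 4) (b (a (a (a (b (l 16776472) (l 16777216)) (l 829163567095)) (l 4)) (l 4)) (a (a (l 16777160) (a (l 16776696) (b (l 1004720355671) (l 16774552)))) (l 1664534706199)))))) (l 4)))))) (l 4)), by decide +kernel⟩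

def k17_pm_123_t : ∃ t, chk3 f_pm_123_t t 62 31 1 = true :=
  ⟨(l 6), by decide +kernel⟩

def k18_pm_123_t : ∃ t, chk3 f_pm_123_t t 126 31 1 = true :=
  ⟨(a (l 6) (b (b (a (a (l 6) (b (l 16719976) (l 16764944))) (b (l 603078106642490054696975) (l 602446305854159629541391))) (a (l 6) (b (b (l 143961703077838927) (l 143946859672649807)) (b (l 143935520959955023) (l 144015647870369999))))) (a (l 6) (b (b (b (l 144047877305761999) (a (b (l 16776152) (l 144036882236211407)) (b (l 144045540885856463) (a (l 16777880) (l 16776384))))) (a (l 6) (b (b (a (b (a (l 144037294551351503) (b (l 16777944) (l 144040180768702671))) (l 16778112)) (b (a (l 16777592) (l 16777192)) (l 144050626128117967))) (l 144051450762297423)) (l 144046434240757839)))) (a (l 6) (b (b (l 144011181139935311) (b (l 144019633637425231) (a (b (l 144183735758372943) (l 603980556329758789379663)) (b (l 604071637137899861485135) (l 604322397557317831206479))))) (a (a (l 6) (b (b (b (l 16780464) (l 16779504)) (b (l 604410740109265492366863) (l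 604402093197980936263183))) (b (l 604597225162635641165327) (l 604604719152415585785359)))) (b (b (l 604449507149008843908687) (b (l 604524302877469269169679) (l 604492309305716427216399))) (b (b (l 604503550290386338453007) (l 604514214814303948953103)) (b (l 604619418901599326279183) (l 604635559802663819302415))))))))))), by decide +kernel⟩

def k19_pm_123_t : ∃ t, chk3 f_pm_123_t t 254 62 1 = true :=
  ⟨(b (b (a (l 601975337399736515272719) (l 143900267891359759)) (a (l 143934833787453455) (b (l 143966238597103695) (a (l 16771856) (l 143974759814201551))))) (a (b (b (l 143908308061880399) (l 143983899487600847)) (b (a (l 143896831933710543) (l 144014204797993167)) (a (l 144022244978950351) (b (l 16772560) (a (l 16774128) (l 16773632)))))) (b (a (b (l 143950020804231375) (b (l 16773064) (l 16773176))) (b (a (l 16772560) (l 16772592)) (a (l 16772912) (l 16772872)))) (b (a (a (l 16773352) (l 16773072)) (a (b (l 16772904) (l 16772792)) (b (l 16772808) (l 16772680)))) (a (a (b (l 16773256) (l 16773192))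 (b (l 16772912) (l 16772848))) (a (b (l 16772680) (l 16772624)) (b (l 16772560) (l 16769936)))))))), by decide +kernel⟩

def k20_pm_123_t : ∃ t, chk3 f_pm_123_t t 254 126 1 = true :=
  ⟨(b (b (b (a (a (l 16773784) (a (l 16774200) (l 16773664))) (a (a (l 16773240) (l 16772920)) (a (l 16772752) (l 16772720)))) (a (a (a (l 16775640) (l 16774944)) (a (l 16774344) (l 16773840))) (a (a (l 16773432) (l 16773176)) (c (l 144044991121752143) (l 144035576553439311))))) (a (a (a (b (l 16774592) (b (l 16776168) (l 16776384))) (b (l 16775216) (l 16775616))) (b (a (l 16774616) (l 16774152)) (l 144044510089166927))) (b (a (l 144053306179797071) (l 144060040688091215)) (l 144064919761322063)))) (a (b (a (b (a (l 144046228080230607) (l 16776200)) (l 144068561910202447)) (a (l 144060934046859343) (l 144038806374531151))) (b (l 144083474025971791) (l 144085329453039695))) (b (a (l 144054199536517199) (l 144071173241405519)) (a (b (l 143996062851022927) (a (l 143985892380377167) (l 143973041838112847))) (b (l 144058253987627087)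 (l 144053718498230351)))))), by decide +kernel⟩

def k21_pm_123_t : ∃ t, chk3 f_pm_123_t t 254 254 1 = true :=
  ⟨(a (b (a (l 144020801866743887) (b (a (l 144001010666782799) (b (l 16777664) (l 16777936))) (b (a (l 16778424) (l 16778200)) (l 604055207800025901622863)))) (b (a (a (a (l 144004171766906959) (l 16779816)) (l 604130435937203751790159)) (l 604194999709412135298639)) (a (b (l 604293286100141787276879) (l 604398778596277795628623)) (l 604360155711785971361359)))) (b (a (b (a (l 603895528168408036042319) (l 144146214920323151)) (l 604083454455572569073231)) (b (l 604112277488308656236111) (l 604306256525342725334607))) (b (a (l 604429330902212980106831) (l 604421548671267925091919)) (a (l 604467809723743529506319) (l 604441580759513717102095))))), by decide +kernel⟩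

def k22_pm_123_t : ∃ t, chk3 f_pm_123_t t 254 255 1 = true :=
  ⟨(b (a (a (b (l 604566672742763568797199) (b (a (l 604516808887689321715215) (c (l 604498073913239464678927) (l 604511044280166291625487))) (a (l 604523149955964663240207) (c (l 604481644781798816110095) (a (l 16779752) (l 604513926583927807596047)))))) (a (b (l 604496344530982552213007) (b (b (l 16780800) (l 16780952)) (b (b (a (b (l 16781200) (l 16781136)) (a (l 16780984) (l 16780848))) (l 16780840)) (l 16780392)))) (b (l 604467809723743531750927) (b (c (l 16779680) (l 604472997870514263348751)) (b (b (l 16780488) (c (c (l 604455704047945160988175) (l 604461180425092043478543)) (c (l 604466368571862774257167) (l 604471844949009656763919)))) (l 16780104)))))) (a (a (b (l 604483374164055723251215) (b (l 604498073913239461238287) (c (b (l 604466656802238925035023) (l 604466080341486621201935)) (b (l 604477609556532690032143) (l 604476456635028082791951))))) (b (l 604497497452487156258319) (b (l 604453974665688248358415) (b (l 604479050708413447558671)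 (b (a (l 604474439022395020531215) (l 16779416)) (c (l 604470980257881199498767) (l 604481068321046509360655))))))) (a (b (l 604488562310826452407823) (b (l 604494038687973335373327) (b (l 604472709640138108933647) (b (l 16779048) (c (a (l 604468097954119681906191) (l 16778976)) (a (l 604477609556532688344591) (l 604472997870514260579855))))))) (b (l 604469250875624287016463) (a (b (l 16778584) (l 16778696)) (b (l 16778392) (l 16778488))))))) (a (b (a (a (b (l 604534967401386880669199) (l 604547361307561401505295)) (b (a (l 16778480) (l 16778368)) (l 604547073077185249482255))) (a (a (c (l 604492597536092576994831) (l 604504703211890948871695)) (l 604502685599257886709263)) (c (l 604499803295496369296911) (l 604511044280166286054927)))) (a (a (c (l 604582237183075754448399) (l 604608177916929408554511)) (l 604561484595992831170063)) (c (l 604567537433892017034767) (l 604579931340066540688911)))) (b (b (b (a (c (l 604473862561642716173839) (l 604483950624808026052111)) (a (a (l 16778872) (l 16778752))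 (b (a (b (l 16778744) (l 16778680)) (b (l 16778544) (l 16778536))) (l 16778480)))) (a (l 604505856133395555161615) (a (l 16778064) (a (l 16778248) (l 16778152))))) (a (l 604510467819413981058575) (a (c (l 604491156384211815978511) (l 604500667986624822466063)) (l 604492597536092574275087)))) (a (a (l 604514791275056253785615) (l 604541884930414514673167)) (b (a (l 604530643945744598783503) (l 604445615984779843753487)) (a (l 604433798539357621933583) (l 604392581595567927268879))))))), by decide +kernel⟩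

def k23_pm_123_t : ∃ t, chk3 f_pm_123_t t 510 124 1 = true :=
  ⟨(a (b (b (l 143843368171487311) (l 143963833415598159)) (b (a (l 16771472) (l 16771880)) (a (l 16772152) (l 16772480)))) (b (a (b (a (l 16771160) (b (a (b (a (b (l 16771192) (l 16771232)) (l 16771496)) (l 16771352)) (b (l 16771992) (a (b (l 16771680) (l 16771608)) (l 16771968)))) (a (l 16771592) (b (a (l 16771680) (b (l 16771848) (l 16771808))) (l 16771864))))) (l 16771896)) (a (b (a (b (l 16772608) (b (l 16772344) (a (b (c (l 16771376) (l 16771528)) (l 16772056)) (b (l 16772328) (l 16772272))))) (l 16773104)) (b (a (b (a (l 16772152) (b (l 16772216) (l 16772296))) (l 16772328)) (b (a (a (b (l 16772424) (l 16772368)) (l 16772568)) (l 16772800)) (a (l 16772472) (b (l 16772696) (a (l 16772608) (l 16772688)))))) (l 16772616))) (b (l 16768840) (b (a (l 16773256) (l 16773896)) (a (b (a (b (a (l 16772776) (l 16772936)) (l 16772840)) (l 16773176)) (a (l 16772944) (a (l 16773008) (b (l 16773112) (l 16773104))))) (a (a (b (l 16773392) (b (l 16773256)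 (l 16773200))) (l 16773480)) (l 16773728))))))) (a (b (l 16772432) (l 16772944)) (b (a (l 16772960) (b (a (l 16773160) (b (a (a (l 16773248) (b (l 16773296) (l 16773336))) (a (b (l 16773448) (l 16773384)) (l 16773592))) (a (l 16773376) (b (l 16773448) (l 16773520))))) (l 16773472))) (l 16772920))))), by decide +kernel⟩

def k24_pm_123_t : ∃ t, chk3 f_pm_123_t t 510 125 1 = true :=
  ⟨(b (a (b (a (b (l 16772632) (l 16772840)) (b (l 16772896) (l 16773064))) (a (b (l 16772920) (l 16772904)) (b (l 16773104) (b (l 16773072) (l 16773016))))) (a (b (b (l 16773296) (l 16773424)) (b (a (l 16773336) (l 16773520)) (a (l 16773248) (l 16773440)))) (b (b (l 16773856) (l 16773936)) (b (a (l 16773760) (l 16774056)) (a (l 16773680) (l 16773984)))))) (a (a (b (b (l 16772800) (l 16772688)) (b (l 16772600) (l 16772632))) (b (b (a (l 16772888) (l 16772992)) (l 16772840)) (b (l 16772808) (l 16772872)))) (a (b (b (l 16773240) (l 16773192)) (b (a (l 16773080) (l 16773312)) (a (l 16773152) (l 16773392)))) (b (b (a (l 16773616)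 (l 16773936)) (a (l 16773592) (l 16773920))) (b (a (l 16773592) (l 16773928)) (a (l 16773680) (l 16774008))))))), by decide +kernel⟩

def k25_pm_123_t : ∃ t, chk3 f_pm_123_t t 510 63 1 = true :=
  ⟨(b (b (b (b (a (a (l 16772832) (l 16773080)) (a (b (l 16773408) (l 16773552)) (l 144052000510492751))) (a (l 144048014779236431) (a (l 144054062094368847) (l 144056467277135951)))) (a (l 144040180755071055) (a (l 144044029046718543) (l 144039699723255887)))) (b (a (b (l 144056261119787087) (l 144047602467045455)) (b (l 144045403440611407) (l 144040386919678031))) (a (b (l 144044578811347023) (b (l 144042585947488335) (l 604199323055446836192847))) (b (l 144035576557191247) (b (l 604170788238655813625423) (l 604235640072190437582415)))))) (b (a (a (b (b (l 604288674470885641709135) (l 604406560779943843423823)) (l 604456568739073610634767)) (b (b (l 604284927471803778623055) (l 604406704883999363913231)) (b (l 604403822580237846992399) (b (l 604461180425092037744143) (l 604436104382366838904335))))) (b (b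 (l 604311444705579838531151) (a (l 604403678426498141660751) (a (l 604364911479457362859535) (l 604439851377256810403343)))) (b (a (l 604422269324311556396559) (a (b (l 16776208) (l 16776192)) (b (b (l 604387393448797199209999) (l 16777512)) (l 16777496)))) (a (a (b (l 16776264) (l 16776280)) (a (l 16776880) (l 16776856))) (a (a (l 16776840) (l 16777472)) (a (l 16777464) (l 16777448))))))) (b (a (b (b (a (l 604451957053055183623695) (a (l 16777800) (l 16777696))) (a (c (l 604454839356816700888591) (l 604479915399541899793935)) (a (l 16777848) (l 16777728)))) (b (a (a (l 16778216) (l 16778048)) (a (l 16777896) (l 16777752))) (a (a (l 16778296) (l 16778112)) (l 604456568739073610749455)))) (b (a (a (c (l 604438121994999900689935) (l 604463198037725099611663)) (l 604442445450642176185871)) (c (l 604437257303871445161487) (l 604438121994999900296719))) (a (l 604471844949009650882063) (l 604447345367036754974223)))) (b (b (a (b (a (a (b (l 16778352) (l 604480203629918051997199)) (l 604468962645248134977039))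 (l 604476168404651927229967)) (a (l 604476744865404230882831) (l 604506432594147856733711))) (a (l 604449651210045966439951) (l 604433077963623403628111))) (a (a (l 604455992278321306637839) (l 604438986686128355415567)) (a (l 604427889816096758457935) (b (l 604401372622109276202575) (l 604364767363856972179023))))) (b (a (a (l 604365776170585819551247) (l 604393590396524340504143)) (a (l 604340844239956319970895) (l 604303374292774584362575))) (a (a (l 604363902659946692568655) (l 604301356672376220411471)) (a (l 604253510433508449232463) (l 144112611094020175)))))))), by decide +kernel⟩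

def k26_pm_123_t : ∃ t, chk3 f_pm_123_t t 2044 124 1 = true :=
  ⟨(b (a (a (b (l 16774976) (l 16774368)) (b (l 16775512) (l 16774960))) (a (b (l 16776000) (l 16775512)) (b (l 16771184) (l 16776000)))) (a (b (b (a (a (b (l 16773816) (b (l 16773728) (a (l 16773592) (l 16773728)))) (l 16774064)) (l 16774544)) (a (b (a (l 16773688) (a (b (l 16773160) (l 16773816)) (b (l 16773952) (b (l 16773920) (l 16773888))))) (l 16773856)) (b (l 16774336) (a (a (b (b (l 16774008) (l 16773984)) (l 16774032)) (b (l 16774152) (b (l 16774096) (l 16774088)))) (l 16774368))))) (b (a (l 16773992) (b (a (l 16774120) (a (b (b (l 16774192) (l 16774192)) (l 16774232)) (b (l 16774344) (b (l 16774288) (l 16774304))))) (l 16774264))) (l 16774272))) (b (a (l 16775008) (l 16775560)) (a (b (b (a (a (l 16774480) (l 16774600)) (l 16774832)) (b (a (a (a (l 16774384) (l 16774408)) (l 16774528)) (l 16774736)) (b (a (l 16773784) (l 16774704)) (a (l 16774480) (a (l 16774600) (l 16774736)))))) (b (a (l 16774528) (a (l 16774592) (b (b (l 16774720)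 (l 16774360)) (l 16774680)))) (l 16774656))) (b (l 16775216) (b (b (l 16775072) (a (a (a (b (l 16774768) (l 16774744)) (l 16774840)) (l 16774936)) (l 16775160))) (b (a (a (l 16774784) (a (b (l 16774864) (l 16774840)) (l 16774936))) (l 16775104)) (a (l 16774848) (a (a (b (l 16774960) (l 16774944)) (l 16775032)) (l 16775120)))))))))), by decide +kernel⟩

def k27_pm_123_t : ∃ t, chk3 f_pm_123_t t 2045 124 1 = true :=
  ⟨(b (a (a (b (l 16774160) (l 16773808)) (b (b (a (l 16777080) (a (a (l 16777160) (b (b (l 766349671079) (l 16777200)) (l 16777144))) (a (b (b (l 4) (l 16776432)) (l 16777176)) (b (l 4) (l 16776544))))) (l 16774376)) (a (l 16776704) (l 16776864)))) (b (a (b (a (a (a (b (l 4) (b (l 974655584679) (l 16777192))) (l 1681714575591)) (l 4)) (l 4)) (b (a (a (l 16777184) (b (l 859765209127) (a (l 16777200) (l 633205685383)))) (l 4)) (a (l 16777144) (a (b (a (l 16776488) (l 1011162806663)) (l 16775912)) (l 1717684927175))))) (l 4)) (a (a (l 16777000) (a (l 16777080) (a (l 16776632) (b (b (b (l 820036762263)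 (l 16777216)) (l 16777168)) (l 16777096))))) (b (a (a (a (b (b (l 4) (l 720178772727)) (l 16777192)) (b (l 4) (b (b (l 16776400) (l 16777192)) (l 16777200)))) (a (b (l 4) (b (l 1162560403703) (b (l 16775792) (l 16777216)))) (l 1869082523671))) (l 4)) (b (a (b (b (a (l 16777168) (l 16776864)) (l 16777184)) (l 16777168)) (a (b (l 1748286569543) (a (l 16774584) (l 896272431703))) (l 4))) (a (l 16777136) (a (l 16777200) (a (b (b (l 1094914669399) (l 16776464)) (l 16777216)) (b (l 4) (b (l 1004183485383) (l 16775840))))))))))) (a (a (b (l 16774744) (a (l 16775528) (l 16775792))) (b (a (l 16776384) (l 16776576)) (a (l 16776040) (l 16776272)))) (a (b (a (l 16776744) (l 16776896)) (a (l 16776480) (l 16776664))) (b (a (l 16774400) (b (l 16776504) (l 16777080))) (a (l 16774208) (b (l 16777008) (l 16776920))))))), by decide +kernel⟩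

def k28_pm_123_t : ∃ t, chk3 f_pm_123_t t 2044 125 1 = true :=
  ⟨(b (b (b (a (l 16774416) (a (l 16774744) (b (b (a (l 16774896) (a (l 16774976) (a (b (l 16775056) (l 16775032)) (l 16775120)))) (l 16774960)) (l 16775000)))) (a (l 16774448) (l 16774872))) (b (a (l 16774416) (l 16774832)) (a (l 16774352) (l 16774792)))) (a (b (b (l 16774320) (l 16774304)) (b (l 16774320) (l 16774400))) (b (b (l 16774768) (l 16774760)) (b (l 16774768) (l 16774840))))), by decide +kernel⟩

def k29_pm_123_t : ∃ t, chk3 f_pm_123_t t 4090 250 1 = true :=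
  ⟨(b (a (b (b (b (l 16775432) (a (a (a (b (l 16775144) (l 16775120)) (l 16775208)) (l 16775296)) (l 16775512))) (b (a (a (l 16775144) (a (b (l 16775224) (l 16775200)) (l 16775288))) (l 16775448)) (a (l 16775184) (a (a (b (l 16775296) (l 16775264)) (l 16775360)) (l 16775448))))) (b (a (l 16775184) (b (a (l 16775272) (a (b (l 16775360) (l 16775328)) (l 16775416))) (l 16775296))) (l 16775232))) (b (a (l 16775744) (l 16776000)) (b (b (l 16775712) (a (a (a (b (l 16775424) (l 16775384)) (l 16775480)) (l 16775568)) (l 16775776))) (a (a (l 16775384) (b (a (b (l 16775488) (l 16775448)) (l 16775552)) (l 16775456))) (a (a (b (l 16775600) (b (l 16775560) (l 16775520))) (l 16775656)) (l 16775736)))))) (b (b (a (l 16775216) (a (l 16775424) (a (a (l 16775520) (b (b (l 16775552) (l 16775560)) (l 16775552))) (a (b (b (l 16775632) (l 16775592)) (l 16775592)) (b (l 16775688) (b (l 16775624) (l 16775624))))))) (l 16775344)) (l 16775320))), by decide +kernel⟩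

def k30_pm_123_t : ∃ t, chk3 f_pm_123_t t 4091 250 1 = true :=
  ⟨(b (a (b (a (l 16776240) (l 16776456)) (a (l 16776008) (l 16776248))) (b (a (l 16776648) (b (l 16776856) (l 16776784))) (a (l 16776472) (l 16776664)))) (a (b (a (b (a (a (b (l 16775744) (b (l 16775704) (l 16775664))) (l 16775792)) (l 16775880)) (a (a (l 16775656) (b (b (l 16775704) (l 16775696)) (l 16775696))) (a (b (b (l 16775776) (l 16775744)) (l 16775736)) (b (l 16775824) (b (l 16775784) (l 16775768)))))) (a (a (b (l 16775984) (b (l 16775896) (b (l 16775848) (l 16775832)))) (l 16775992)) (l 16776088))) (b (a (l 16775704) (b (a (a (l 16775800) (b (l 16775872) (l 16775840))) (l 16775976)) (a (l 16775824) (a (l 16775872) (b (l 16775960) (l 16775920)))))) (l 16775776))) (a (b (l 16776280) (b (c (l 16775496) (l 16775496)) (b (a (a (b (l 16775960) (l 16775968)) (b (l 16776040) (l 16775680))) (l 16776128)) (a (l 16775984) (a (b (l 16775400) (l 16776040)) (b (l 16776120) (l 16776104))))))) (b (l 16776496) (l 16776328))))), by decide +kernel⟩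

def k31_pm_123_t : ∃ t, chk3 f_pm_123_t t 2045 251 1 = true :=
  ⟨(a (b (b (l 16775304) (l 16775288)) (b (l 16775288) (l 16775360))) (b (b (a (l 16775760) (b (a (l 16776000) (b (a (a (b (l 16776152) (l 16776120)) (l 16776216)) (l 16776272)) (b (a (a (l 16776128) (l 16776160)) (l 16776256)) (a (l 16776144) (a (a (l 16776192) (l 16776216)) (l 16776248)))))) (b (b (a (l 16776008) (a (l 16776144) (a (l 16776208) (a (l 16776208) (l 16776232))))) (l 16776072)) (l 16776088)))) (l 16774592)) (b (l 16775240) (l 16774624)))), by decide +kernel⟩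

def k32_pm_123_t : ∃ t, chk3 f_pm_123_t t 1022 63 1 = true :=
  ⟨(b (b (a (a (b (l 144054474411720783) (l 144033308812722255)) (b (b (l 16775016) (l 16775248)) (l 144026574305968207))) (a (b (b (l 16775496) (l 16775680)) (b (l 16775856) (l 16776040))) (b (b (l 16776048) (l 16776160)) (b (l 16776280) (l 16776408))))) (a (b (b (l 144041898748411983) (l 144037775583051855)) (b (l 144032896500744271) (l 604208546505480301602383))) (b (a (b (l 16776224) (l 16776408)) (b (l 16775872) (l 144033033938927695))) (b (l 144079694463664207) (l 604205375927018569639503))))) (b (a (b (b (l 604302221375461865743951) (a (l 16777240) (l 16777016))) (b (b (a (a (b (l 16777456) (a (l 16777520) (l 16777512))) (l 16777448)) (l 16777368)) (b (a (a (l 16777512) (a (l 16777512) (l 16777512))) (a (b (l 16777472) (l 16777504)) (l 16777440))) (a (l 16776184) (a (l 16777496) (c (l 604414198873779308369423) (l 604406704883999363880463)))))) (b (a (l 16777464) (l 604416792947164673709583)) (l 604432069157100712990223)))) (b (b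 (c (l 604310868240498208040527) (l 604290403884890948150863)) (b (l 604390275752558714164751) (a (l 16777208) (l 604408434266256273544719)))) (a (b (c (l 604408434266256273839631) (l 604412757721898549532175)) (b (a (l 604417945868669280572943) (l 604418522329421583980047)) (l 604392869825944081569295))) (b (l 604417945868669279573519) (b (l 604426016319201527715343) (a (l 604438410225376051353103) (l 604436969073495293138447))))))) (b (a (b (c (l 604430628005219954267663) (l 604442445450642175137295)) (c (l 604425295742573952640591) (l 604416360578923017021007))) (b (a (l 604429763314091500131855) (b (l 604411028339641638966799) (l 604413478298663562094159))) (a (l 604394455092944195364431) (a (l 604384655260429915743823) (l 604378890653113039611471))))) (a (b (b (l 604383214108068119438927) (b (l 604377449478279974692431) (a (l 604344591237732510688847) (l 604380908264990187333199)))) (l 144106495059738703)) (a (b (b (l 604359867447599832000079) (a (l 604363037981806218880591) (l 604382637647384535246415)))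 (l 144110068472660047)) (b (b (l 604396760935884690024015) (c (l 604379755332284305122895) (l 144103883720884303))) (b (l 144103952440082511) (l 144110961827184719)))))))), by decide +kernel⟩

def k33_pm_123_t : ∃ t, chk3 f_pm_123_t t 2046 124 1 = true :=
  ⟨(b (b (l 4) (l 4)) (a (a (b (b (b (a (a (a (b (b (l 911841688599) (l 16775864)) (l 16777200)) (b (l 4) (b (l 819499891815) (l 16777200)))) (l 2064503536007)) (l 4)) (a (a (l 16777184) (a (b (b (l 733063675047) (l 16777216)) (l 16777200)) (b (l 1109410183527) (b (l 16776808) (l 16777216))))) (a (b (l 4) (l 1901294779367)) (l 4)))) (a (l 16777152) (b (a (a (b (b (l 16776496) (l 16777208)) (l 16777192)) (b (l 1022437095911) (l 16776544))) (a (b (l 4) (l 984319261223)) (l 4))) (a (l 16777176) (a (l 16776896) (b (b (l 4) (l 835069148263)) (l 16775912))))))) (a (b (l 16777080) (l 16777008)) (b (l 16777144) (l 16777072)))) (a (b (a (a (b (l 4) (a (b (l 4) (b (l 4) (l 796414442615))) (l 2100473886823))) (l 4)) (l 4)) (b (b (a (b (a (l 16775912) (a (b (l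 16776384) (l 16777192)) (l 1164171017031))) (l 16775896)) (a (a (b (l 4) (b (l 16776408) (l 16777200))) (l 2046249925687)) (l 4))) (a (l 16777176) (b (a (l 16777216) (a (b (l 16776744) (l 16777208)) (l 1125516311431))) (l 16777200)))) (l 16777144))) (b (l 4) (b (b (l 4) (b (l 4) (a (a (a (b (l 16776752) (l 16777208)) (l 1116389505943)) (l 4)) (l 4)))) (b (b (a (a (l 16777216) (a (b (l 1015994645623) (l 16777216)) (l 1115315764135))) (l 4)) (a (l 16777200) (a (a (b (l 1013847161975) (l 16777216)) (l 1122295085991)) (l 4)))) (a (l 16777176) (b (a (l 16777208) (a (b (l 1024584580215) (l 16777216)) (l 1137327471511))) (l 16775888)))))))) (a (b (l 4) (b (l 4) (b (l 4) (b (l 4) (a (a (a (a (b (l 1049280642167) (l 16777208)) (l 1162023533447)) (l 4)) (l 4)) (l 4)))))) (l 4)))), by decide +kernel⟩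

def k34_pm_123_t : ∃ t, chk3 f_pm_123_t t 4092 250 1 = true :=
  ⟨(a (b (b (a (l 16776248) (b (l 16777016) (l 16776960))) (a (l 16776776) (l 16776864))) (b (a (l 16776624) (l 16776728)) (a (l 16776472) (l 16776584)))) (b (a (b (b (l 16777088) (l 16777040)) (l 16775648)) (b (b (l 16777152) (l 16777112)) (c (l 16776712) (l 16776720)))) (a (b (l 16776832) (l 16776704)) (b (l 16776280) (l 16775512))))), by decide +kernel⟩

def k35_pm_123_t : ∃ t, chk3 f_pm_123_t t 8186 250 1 = true :=
  ⟨(b (b (b (a (b (a (a (l 16777216) (a (b (l 1119610731607) (l 16777208)) (l 1232353622903))) (l 4)) (a (l 16776880) (a (a (b (l 1171687210055) (l 16777200)) (l 1277450779479)) (l 4)))) (l 4)) (a (a (l 16777168) (a (l 16776880) (b (a (b (l 1238796074023) (l 16775880)) (l 1332211612455)) (l 16776896)))) (a (a (a (b (l 4) (b (l 1321474194423) (l 16775872))) (l 2414006500279)) (l 4)) (l 4)))) (a (a (l 16777112) (l 16777152)) (b (a (a (a (l 16777192) (b (l 16776872) (l 16777192))) (a (b (b (l 1420795313079) (l 16776504)) (l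 16777200)) (b (l 4) (b (l 16776824) (l 16777208))))) (a (a (b (l 4) (b (l 4) (l 16776816))) (l 4)) (l 4))) (a (l 16777168) (a (a (l 16777200) (b (b (l 935464008903) (l 16777216)) (l 16777200))) (a (b (l 1168465984471) (l 16777208)) (b (l 4) (b (l 1087398476935) (l 16777216))))))))) (a (a (b (l 16777016) (l 16776904)) (b (l 16777064) (l 16776960))) (a (b (l 16777112) (l 16777016)) (b (l 16777152) (l 16777072))))), by decide +kernel⟩

def k36_pm_123_t : ∃ t, chk3 f_pm_123_t t 8187 250 1 = true :=
  ⟨(a (a (b (a (a (b (l 4) (b (l 4) (b (l 4) (l 1282282617735)))) (l 4)) (l 4)) (b (b (b (a (a (l 16777224) (b (l 1254902201399) (l 16777200))) (l 2447292497063)) (a (l 16777192) (a (l 16776552) (b (l 1436364569543) (l 16776512))))) (l 16777176)) (l 16777120))) (b (l 4) (b (b (l 2643250378823) (b (a (a (b (l 16776496) (l 16777208)) (b (l 4) (l 953717619911))) (l 4)) (a (l 16777200) (a (b (l 1070755478679) (l 16777216)) (l 1318789839751))))) (a (l 16777152) (b (l 16775888) (l 16777160)))))) (b (l 4) (b (l 4)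 (a (b (a (a (b (b (l 1317716098087) (l 16777192)) (l 16777200)) (b (l 1495420369655) (l 16776544))) (a (b (l 4) (b (l 1577561619335) (l 16776824))) (l 4))) (a (l 16777176) (a (l 16777192) (b (b (l 1020289612983) (l 16777216)) (l 16777200))))) (b (l 4) (a (a (b (l 1321474194327) (l 16777216)) (b (l 4) (b (l 1335432838183) (l 16777192)))) (l 2716264823447))))))), by decide +kernel⟩

def k37_pm_123_t : ∃ t, chk3 f_pm_123_t t 4092 251 1 = true :=
  ⟨(b (a (a (b (b (l 16776352) (a (a (b (b (l 16776248) (l 16775584)) (l 16776216)) (b (l 16776272) (b (l 16776256) (l 16776224)))) (l 16776080))) (b (b (a (l 16776224) (a (b (l 16776232) (l 16776240)) (a (b (l 16776272) (l 16776240)) (l 16776288)))) (l 16776232)) (l 16776224))) (b (l 16776440) (b (b (l 16776360) (a (a (a (l 16776248) (b (l 16776280) (l 16776256))) (b (l 16776296) (l 16776296))) (l 16776344))) (a (b (l 16775920) (l 16776264)) (b (a (b (l 16776312) (c (l 16775952) (l 16775952))) (l 16776336)) (a (l 16776288) (a (l 16776280) (b (l 16776312) (l 16776296)))))))))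 (b (a (l 16776568) (l 16776696)) (a (a (a (a (b (l 16776400) (b (l 16776352) (b (l 16776320) (l 16776304)))) (l 16776400)) (l 16776408)) (l 16776464)) (l 16776568)))) (a (b (l 16776240) (l 16776280)) (a (b (b (b (a (a (l 16776296) (b (l 16776344) (l 16776312))) (l 16776400)) (a (l 16776312) (a (a (l 16776320) (b (l 16776352) (l 16776344))) (a (b (l 16776360) (l 16776344)) (l 16776384))))) (b (l 16776304) (l 16776336))) (l 16776368)) (b (b (l 16776472) (a (b (a (b (l 16776384) (l 16776024)) (l 16776416)) (a (l 16776368) (a (l 16776368) (b (l 16776400) (l 16776392))))) (a (a (b (l 16776432) (b (l 16776408) (l 16776392))) (l 16776448)) (l 16776464)))) (b (b (a (l 16776392) (a (l 16776392) (b (l 16776448) (a (l 16776424) (l 16776432))))) (l 16776416)) (l 16776440)))))), by decide +kernel⟩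

def k38_pm_123_t : ∃ t, chk3 f_pm_123_t t 4093 251 1 = true :=
  ⟨(a (b (a (b (l 16776496) (l 16776048)) (a (b (l 16776912) (l 16776800)) (b (l 16776968) (l 16776864)))) (b (a (l 16775272) (a (l 16776688) (l 16776768))) (b (a (a (b (l 16776496) (a (a (l 16776440) (b (l 16776472) (l 16776456))) (b (l 16776488) (c (l 16776168) (l 16776168))))) (l 16776552)) (l 16776656)) (a (a (a (l 16776480) (b (b (l 16775816) (l 16776488)) (l 16776504))) (b (a (a (b (l 16776512) (l 16776488)) (l 16776528)) (l 16776544)) (a (l 16776512) (b (a (l 16776520) (l 16776544)) (l 16776520))))) (a (b (l 16776600) (l 16776280)) (l 16776664)))))) (b (b (a (a (l 16777024) (l 16777080)) (a (l 16777136) (b (b (a (l 16777192) (a (l 16776864) (b (l 4) (l 16776816)))) (l 16777192)) (l 16777160)))) (a (a (l 16776928) (l 16776992)) (a (l 16777048) (l 16777104)))) (a (a (b (l 16776832) (l 16776752)) (b (l 16776896) (l 16776816))) (a (b (l 16776960) (l 16776888)) (b (l 16777024) (l 16776944)))))), by decide +kernel⟩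

def k39_pm_123_t : ∃ t, chk3 f_pm_123_t t 2047 62 1 = true :=
  ⟨(b (l 4) (a (b (l 4) (a (a (a (a (a (b (b (b (b (l 4) (b (l 1131421891735) (l 16777216))) (l 16777192)) (l 16777136)) (b (l 16777056) (l 16776984))) (l 14)) (l 14)) (l 14)) (l 14)) (l 14))) (l 4))), by decide +kernel⟩

def k40_pm_123_t : ∃ t, chk3 f_pm_123_t t 2046 126 1 = true :=
  ⟨(a (b (b (b (l 16776408) (l 16776488)) (b (l 16776568) (l 16776648))) (b (b (l 16776736) (l 16776816)) (b (l 16776744) (l 604205664158356795369039)))) (b (a (a (b (l 16776576) (l 16776704)) (b (b (b (b (a (a (a (l 16776544) (b (l 16776560) (l 16776568))) (a (b (l 16776576) (l 16776568)) (l 16776600))) (l 16776632)) (a (a (l 16776568) (l 16776568)) (a (b (l 16776624) (a (l 16776592) (l 16776608))) (l 16776640)))) (b (a (l 16776592) (a (l 16776608) (b (a (l 16776616) (l 16776640)) (l 16776616)))) (l 16776616))) (l 16776656)) (l 16776744))) (b (b (b (a (l 16776736) (l 16776864)) (a (a (b (a (l 16776680) (l 16776688)) (a (a (l 16776640) (b (l 16776656) (l 16776656)))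 (a (b (l 16776672) (l 16776664)) (l 16776696)))) (l 16776736)) (l 16776832))) (b (a (b (a (a (l 16776664) (a (l 16776672) (b (l 16776672) (l 16776680)))) (a (a (b (l 16776704) (l 16776680)) (l 16776064)) (l 16776728))) (a (l 16776680) (a (l 16776696) (a (b (l 16776712) (l 16776712)) (b (l 16776728) (l 16776392)))))) (a (l 16776792) (l 16776840))) (a (l 16776712) (b (a (a (b (a (l 16776728) (l 16776752)) (l 16776728)) (a (l 16776448) (l 16776776))) (l 16776816)) (b (a (a (l 16776744) (a (l 16776744) (l 16776440))) (l 16776808)) (a (l 16776752) (a (a (b (l 16776784) (l 16776768)) (l 16776800)) (l 16776816)))))))) (b (b (a (l 16776744) (a (l 16776776) (a (a (l 16776784) (b (b (b (l 16776784) (l 16776776)) (l 16776792)) (l 16776800))) (a (b (b (l 16776808) (l 16776456)) (l 16776808)) (b (l 16776824) (l 16776792)))))) (l 16776784)) (l 16776824)))) (a (b (b (l 16776816) (l 16776888)) (b (l 16776952) (l 16777024))) (b (b (l 16776880) (l 16776936)) (b (l 16776992) (l 16777048)))))), by decide +kernel⟩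

def k41_pm_123_t : ∃ t, chk3 f_pm_123_t t 2046 127 1 = true :=
  ⟨(b (a (b (b (l 604397337353962198394447) (l 604374423081870370838031)) (b (l 604383646453907226121743) (b (l 604391140443687171102223) (a (l 604391428674063322977807) (l 16777360))))) (b (b (c (l 604390708054829672031823) (l 604372261311718035170895)) (c (l 604382637603266632083023) (l 604394166819206054094415))) (b (c (l 604390419846306314528335) (l 604390131616686077060687)) (b (l 604393878611438610458191) (l 604391860999011706971727))))) (b (b (a (a (b (a (l 16777392) (l 604404110810613997917711)) (l 604403822580237846402575)) (b (a (l 604402093197980935951887) (l 604401228506852480800271)) (l 604398202089620874651215))) (a (b (l 604399931472358821307983) (b (a (l 604397625629280888481359) (l 604393878634528355182159)) (l 604388402257106594686543))) (b (l 16777320) (a (b (l 16777352) (l 604384078801739196606031)) (l 604380043576541792265807))))) (a (a (c (l 604378314192429456008783) (l 604370531972685676324431)) (b (l 604379755345066128926287)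 (l 604408866612507695834703))) (a (b (a (l 16777272) (l 16777288)) (l 604406849000149511644751)) (a (b (l 16777296) (l 604405984309295934613071)) (b (b (l 604375143660009774196303) (l 16777296)) (l 604405696079057221723727)))))) (b (b (a (c (l 604393878632191892072015) (l 144115428593434703)) (a (l 144115634752258127) (c (l 144115772190933071) (l 144116047069003855)))) (a (c (l 144114810117980239) (l 144114947556933711)) (a (l 144115084996280399) (c (l 144115222434955343) (l 144115359873908815))))) (b (b (a (a (l 144114810118176847) (l 144114810117537871)) (a (l 144109243840315471) (l 144114947556933711))) (a (l 144115566032371791) (a (l 144115359874023503) (l 144109449998712911)))) (a (l 144114054203129935) (b (l 144113435728003151) (l 144114466520481871))))))), by decide +kernel⟩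

def k42_pm_123_t : ∃ t, chk3 f_pm_123_t t 2047 63 1 = true :=
  ⟨(a (a (a (b (a (b (a (a (b (l 16776896) (b (b (b (l 16776824) (b (l 16776824) (l 16776808))) (l 16776832)) (l 16776864))) (l 14)) (l 14)) (b (l 16776616) (b (l 16777016) (l 16777064)))) (l 14)) (a (b (b (b (l 16777112) (l 16777160)) (b (l 16777216) (l 16777264))) (b (b (c (l 16777312) (l 16777312)) (b (b (l 604420684059510464308815) (l 16777304)) (l 16777248))) (b (b (l 144116115788693583) (l 144115497313239119)) (b (b (l 16776944) (l 144115016276705359)) (l 144115153715691599))))) (l 14))) (l 14)) (l 14)) (l 14)), by decide +kernel⟩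

theorem s43_pm_123_t : ∃ t, chk3 f_pm_123_t t 2046 63 1 = true := ex3_b k40_pm_123_t k41_pm_123_t

theorem s44_pm_123_t : ∃ t, chk3 f_pm_123_t t 1023 63 1 = true := ex3_a s43_pm_123_t k42_pm_123_t

theorem s45_pm_123_t : ∃ t, chk3 f_pm_123_t t 2046 251 1 = true := ex3_a k37_pm_123_t k38_pm_123_t

theorem s46_pm_123_t : ∃ t, chk3 f_pm_123_t t 4093 250 1 = true := ex3_a k35_pm_123_t k36_pm_123_t

theorem s47_pm_123_t : ∃ t, chk3 f_pm_123_t t 2046 250 1 = true := ex3_a k34_pm_123_t s46_pm_123_t

theorem s48_pm_123_t : ∃ t, chk3 f_pm_123_t t 2046 125 1 = true := ex3_b s47_pm_123_t s45_pm_123_t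

theorem s49_pm_123_t : ∃ t, chk3 f_pm_123_t t 2046 62 1 = true := ex3_b k33_pm_123_t s48_pm_123_t

theorem s50_pm_123_t : ∃ t, chk3 f_pm_123_t t 1023 62 1 = true := ex3_a s49_pm_123_t k39_pm_123_t

theorem s51_pm_123_t : ∃ t, chk3 f_pm_123_t t 1023 31 1 = true := ex3_b s50_pm_123_t s44_pm_123_t

theorem s52_pm_123_t : ∃ t, chk3 f_pm_123_t t 2045 250 1 = true := ex3_a k29_pm_123_t k30_pm_123_t

theorem s53_pm_123_t : ∃ t, chk3 f_pm_123_t t 2045 125 1 = true := ex3_b s52_pm_123_t k31_pm_123_t

theorem s54_pm_123_t : ∃ t, chk3 f_pm_123_t t 1022 125 1 = true := ex3_a k28_pm_123_t s53_pm_123_t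

theorem s55_pm_123_t : ∃ t, chk3 f_pm_123_t t 1022 124 1 = true := ex3_a k26_pm_123_t k27_pm_123_t

theorem s56_pm_123_t : ∃ t, chk3 f_pm_123_t t 1022 62 1 = true := ex3_b s55_pm_123_t s54_pm_123_t

theorem s57_pm_123_t : ∃ t, chk3 f_pm_123_t t 1022 31 1 = true := ex3_b s56_pm_123_t k32_pm_123_t

theorem s58_pm_123_t : ∃ t, chk3 f_pm_123_t t 511 31 1 = true := ex3_a s57_pm_123_t s51_pm_123_t

theorem s59_pm_123_t : ∃ t, chk3 f_pm_123_t t 510 62 1 = true := ex3_b k23_pm_123_t k24_pm_123_t

theorem s60_pm_123_t : ∃ t, chk3 f_pm_123_t t 510 31 1 = true := ex3_b s59_pm_123_t k25_pm_123_t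

theorem s61_pm_123_t : ∃ t, chk3 f_pm_123_t t 255 31 1 = true := ex3_a s60_pm_123_t s58_pm_123_t

theorem s62_pm_123_t : ∃ t, chk3 f_pm_123_t t 254 127 1 = true := ex3_b k21_pm_123_t k22_pm_123_t

theorem s63_pm_123_t : ∃ t, chk3 f_pm_123_t t 254 63 1 = true := ex3_b k20_pm_123_t s62_pm_123_t

theorem s64_pm_123_t : ∃ t, chk3 f_pm_123_t t 254 31 1 = true := ex3_b k19_pm_123_t s63_pm_123_t

theorem s65_pm_123_t : ∃ t, chk3 f_pm_123_t t 127 31 1 = true := ex3_a s64_pm_123_t s61_pm_123_t

theorem s66_pm_123_t : ∃ t, chk3 f_pm_123_t t 63 31 1 = true := ex3_a k18_pm_123_t s65_pm_123_t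

theorem s67_pm_123_t : ∃ t, chk3 f_pm_123_t t 31 31 1 = true := ex3_a k17_pm_123_t s66_pm_123_t

theorem s68_pm_123_t : ∃ t, chk3 f_pm_123_t t 510 61 1 = true := ex3_b k14_pm_123_t k15_pm_123_t

theorem s69_pm_123_t : ∃ t, chk3 f_pm_123_t t 510 30 1 = true := ex3_b k13_pm_123_t s68_pm_123_t

theorem s70_pm_123_t : ∃ t, chk3 f_pm_123_t t 255 30 1 = true := ex3_a s69_pm_123_t k16_pm_123_t

theorem s71_pm_123_t : ∃ t, chk3 f_pm_123_t t 254 30 1 = true := ex3_b k11_pm_123_t k12_pm_123_t

theorem s72_pm_123_t : ∃ t, chk3 f_pm_123_t t 127 30 1 = true := ex3_a s71_pm_123_t s70_pm_123_t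

theorem s73_pm_123_t : ∃ t, chk3 f_pm_123_t t 63 30 1 = true := ex3_a k10_pm_123_t s72_pm_123_t

theorem s74_pm_123_t : ∃ t, chk3 f_pm_123_t t 31 30 1 = true := ex3_a k9_pm_123_t s73_pm_123_t

theorem s75_pm_123_t : ∃ t, chk3 f_pm_123_t t 31 15 1 = true := ex3_b s74_pm_123_t s67_pm_123_t

theorem s76_pm_123_t : ∃ t, chk3 f_pm_123_t t 15 15 1 = true := ex3_a k8_pm_123_t s75_pm_123_t

theorem s77_pm_123_t : ∃ t, chk3 f_pm_123_t t 31 14 1 = true := ex3_a k6_pm_123_t k7_pm_123_t

theorem s78_pm_123_t : ∃ t, chk3 f_pm_123_t t 15 14 1 = true := ex3_a k5_pm_123_t s77_pm_123_t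

theorem s79_pm_123_t : ∃ t, chk3 f_pm_123_t t 15 7 1 = true := ex3_b s78_pm_123_t s76_pm_123_t

theorem s80_pm_123_t : ∃ t, chk3 f_pm_123_t t 7 7 1 = true := ex3_a k4_pm_123_t s79_pm_123_t

theorem s81_pm_123_t : ∃ t, chk3 f_pm_123_t t 7 3 1 = true := ex3_b k3_pm_123_t s80_pm_123_t

theorem s82_pm_123_t : ∃ t, chk3 f_pm_123_t t 3 3 1 = true := ex3_a k2_pm_123_t s81_pm_123_t

theorem s83_pm_123_t : ∃ t, chk3 f_pm_123_t t 3 1 1 = true := ex3_b k1_pm_123_t s82_pm_123_t

theorem s84_pm_123_t : ∃ t, chk3 f_pm_123_t t 1 1 1 = true := ex3_a k0_pm_123_t s83_pm_123_t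

theorem c_pm_123_t : CertNE 536870912 536870912 0 536870912 1045395039 1503240 3 eng mog cd0q1 cd0q2 pd3 true true false .npn 1 2 3
    ndB0q1 ndB0q2 pcB3 cut_pm_123_t xt_pm_123_t :=
  certNE2 (fam := true) (s1 := true) (s2 := false) (a := 1) (b := 2) (c := 3) (cn := .npn) (n1 := ndB0q1) (n2 := ndB0q2) (pc := pcB3) (cut := cut_pm_123_t) (xt := xt_pm_123_t) (P1 := 536870912) (W1 := 536870912) (P2 := 0) (W2 := 536870912) (P3 := 1045395039) (W3 := 1503240) (N0 := 3) (En := eng) (mo := mog) (C1 := cd0q1) (C2 := cd0q2) (C3 := pd3)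
    rfl (fun _ => rfl) s84_pm_123_t

noncomputable def cut_pm_202_s : Cut := Cut.of [[⟨4, 0, 0, 1449551462⟩], [⟨0, 1, 0, 22369621⟩, ⟨1, 0, 0, 22369621⟩, ⟨2, 1, 0, 22369621⟩]]

noncomputable def f_pm_202_s : ℕ → ℕ → ℕ → ℕ → Bool := onCell 0 536870912 1073741824 536870912 1045395039 1503240
    (rowNE 3 eng mog cd0q2 cd0q0 pd2 1 true true false .pp 2 0 2 (qsf 0 536870912 0 536870912 2) ndB0q2 ndB0q0 pcB2 cut_pm_202_s Ext.none)

def k0_pm_202_s : ∃ t, chk3 f_pm_202_s t 2 1 1 = true :=
  ⟨(b (b (b (l 1) (l 6)) (l 6)) (l 6)), by decide +kernel⟩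

def k1_pm_202_s : ∃ t, chk3 f_pm_202_s t 3 8 1 = true :=
  ⟨(a (l 1) (a (b (l 1) (a (b (l 1) (b (l 1) (l 16588824))) (b (a (l 1) (b (l 16540568) (l 16570624))) (a (l 16564056) (b (l 16604568) (l 16601320)))))) (b (b (a (l 1) (l 14)) (b (b (a (l 1) (l 14)) (a (a (l 1) (a (l 1) (a (l 16545864) (l 16559488)))) (a (a (a (l 16579888) (l 16601088)) (a (l 16623424) (l 16647632))) (a (a (l 16672792) (l 16697648)) (a (l 16722152) (l 16725496)))))) (a (a (a (l 1) (l 16539344)) (a (b (l 16546536) (l 16559768)) (a (l 16565008) (b (l 16571472) (l 16584552))))) (a (a (b (l 16601120) (l 16613088)) (a (l 16617200) (l 16640208))) (a (b (l 16671720) (l 16670480)) (b (a (l 16707416) (l 16726704)) (a (l 16714584) (l 16713480)))))))) (a (b (a (b (a (l 16555008) (l 16567088)) (l 16592192)) (b (a (l 16581440) (a (l 16593936) (l 16606184))) (a (l 16613704) (a (l 16626992) (l 16617664))))) (a (b (a (l 16620808) (l 16634528)) (b (l 16635104) (l 16673912))) (b (a (l 16628464) (a (l 16660312) (l 16649680))) (a (l 16682824) (b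 (l 16666112) (l 16677488)))))) (b (a (a (b (b (l 16626272) (l 16640904)) (b (l 16655992) (l 16670592))) (b (a (l 16641936) (l 16663336)) (a (l 16668016) (l 16685936)))) (b (a (b (l 16669736) (l 16700112)) (b (l 16707856) (l 16694464))) (a (b (l 16707024) (l 16692048)) (l 16675368)))) (a (a (b (l 16648688) (l 16675216)) (a (l 16659472) (l 16649008))) (a (b (l 16668992) (l 16659224)) (b (l 16669240) (l 16641616))))))))), by decide +kernel⟩

def k2_pm_202_s : ∃ t, chk3 f_pm_202_s t 3 9 1 = true :=
  ⟨(a (a (b (l 1) (l 6)) (b (a (b (l 1) (l 16453216)) (b (a (l 16518472) (l 16538744)) (a (l 16469168) (b (l 16504976) (l 16449872))))) (a (b (a (l 16479768) (l 16393344)) (l 6)) (b (a (b (l 16413712) (l 16361872)) (b (l 16394744) (l 16339816))) (a (b (l 16310592) (l 16264784)) (l 16267832)))))) (a (b (a (b (a (l 16562576) (b (l 16646752) (l 16595168))) (a (l 16415256) (b (l 16542488) (l 16490488)))) (b (a (b (l 16656800) (l 16585568)) (b (l 16642280) (l 16613968))) (a (b (l 16555376) (l 16507424)) (l 16549760))))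 (a (b (a (b (l 16418344) (l 16369856)) (b (l 16440984) (l 16398280))) (l 16317168)) (a (b (l 16445624) (l 16364440)) (b (l 16469432) (l 16394336))))) (a (b (b (a (b (l 16623664) (l 16624624)) (a (l 16628784) (a (l 16630024) (l 16608600)))) (a (l 16565664) (a (l 16575552) (a (l 16579464) (l 16539432))))) (a (b (l 16491768) (l 16422152)) (b (a (l 16506504) (b (l 16531400) (l 16499056))) (b (l 16462768) (l 16430624))))) (b (a (b (a (l 16601368) (a (l 16613056) (l 16605144))) (a (l 16555544) (b (l 16582128) (l 16550800)))) (b (b (a (l 16628744) (l 16613600)) (a (l 16598496) (l 16585240))) (b (l 16519952) (l 16532048)))) (a (b (a (l 16513112) (l 16483256)) (a (l 16451248) (l 16442192))) (b (b (l 16501856) (l 16471232)) (b (l 16439800) (l 16408144)))))))), by decide +kernel⟩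

def k3_pm_202_s : ∃ t, chk3 f_pm_202_s t 3 5 1 = true :=
  ⟨(a (b (b (a (l 6) (a (l 6) (a (l 6) (b (l 16136336) (l 6))))) (l 6)) (l 6)) (a (b (b (a (b (l 16232368) (l 16152080)) (b (a (l 16287864) (l 16322432)) (l 16191024))) (a (b (l 6) (l 6)) (b (l 16162608) (l 16094208)))) (l 6)) (b (a (b (b (a (l 16354656) (b (l 16398712) (l 16366784))) (a (l 16288008) (l 16319328))) (b (l 16240944) (l 16180344))) (b (b (a (a (l 16388848) (l 16379288)) (b (l 16376016) (l 16343352))) (b (a (l 16336136) (l 16310456)) (b (a (l 16313008) (l 16285064)) (a (b (l 16301080) (a (l 16302112) (l 16287800))) (b (l 16271136) (l 16261632)))))) (a (a (l 16241984) (l 16230096)) (l 16205536)))) (a (b (l 16094720) (l 6)) (a (b (l 16131744) (l 6)) (l 16064728)))))), by decide +kernel⟩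

def k4_pm_202_s : ∃ t, chk3 f_pm_202_s t 3 3 1 = true :=
  ⟨(l 6), by decide +kernel⟩

theorem s5_pm_202_s : ∃ t, chk3 f_pm_202_s t 3 4 1 = true := ex3_b k1_pm_202_s k2_pm_202_s

theorem s6_pm_202_s : ∃ t, chk3 f_pm_202_s t 3 2 1 = true := ex3_b s5_pm_202_s k3_pm_202_s

theorem s7_pm_202_s : ∃ t, chk3 f_pm_202_s t 3 1 1 = true := ex3_b s6_pm_202_s k4_pm_202_s

theorem s8_pm_202_s : ∃ t, chk3 f_pm_202_s t 1 1 1 = true := ex3_a k0_pm_202_s s7_pm_202_s

theorem c_pm_202_s : CertNE 0 536870912 0 536870912 1045395039 1503240 3 eng mog cd0q2 cd0q0 pd2 true true false .pp 2 0 2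
    ndB0q2 ndB0q0 pcB2 cut_pm_202_s Ext.none :=
  certNE1 (fam := true) (s1 := true) (s2 := false) (a := 2) (b := 0) (c := 2) (cn := .pp) (n1 := ndB0q2) (n2 := ndB0q0) (pc := pcB2) (cut := cut_pm_202_s) (xt := Ext.none) (P1 := 0) (W1 := 536870912) (P2 := 0) (W2 := 536870912) (P3 := 1045395039) (W3 := 1503240) (N0 := 3) (En := eng) (mo := mog) (C1 := cd0q2) (C2 := cd0q0) (C3 := pd2)
    rfl (fun _ => rfl) s8_pm_202_s

noncomputable def cut_pm_202_t : Cut := Cut.of [[⟨3, 0, 0, 2845415833⟩], [⟨0, 1, 0, 22369621⟩, ⟨1, 0, 0, 22369621⟩, ⟨2, 1, 0, 22369621⟩]]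

noncomputable def f_pm_202_t : ℕ → ℕ → ℕ → ℕ → Bool := onCell 0 536870912 1073741824 536870912 1045395039 1503240
    (rowNE 3 eng mog cd0q2 cd0q0 pd2 1 true true false .pp 2 0 2 (qsf 0 536870912 0 536870912 2) ndB0q2 ndB0q0 pcB2 cut_pm_202_t Ext.none)

def k0_pm_202_t : ∃ t, chk3 f_pm_202_t t 1 1 1 = true :=
  ⟨(a (b (l 6) (l 6)) (l 6)), by decide +kernel⟩

theorem c_pm_202_t : CertNE 0 536870912 0 536870912 1045395039 1503240 3 eng mog cd0q2 cd0q0 pd2 true true false .pp 2 0 2
    ndB0q2 ndB0q0 pcB2 cut_pm_202_t Ext.none :=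
  certNE1 (fam := true) (s1 := true) (s2 := false) (a := 2) (b := 0) (c := 2) (cn := .pp) (n1 := ndB0q2) (n2 := ndB0q0) (pc := pcB2) (cut := cut_pm_202_t) (xt := Ext.none) (P1 := 0) (W1 := 536870912) (P2 := 0) (W2 := 536870912) (P3 := 1045395039) (W3 := 1503240) (N0 := 3) (En := eng) (mo := mog) (C1 := cd0q2) (C2 := cd0q0) (C3 := pd2)
    rfl (fun _ => rfl) k0_pm_202_t

noncomputable def cut_pm_203_s : Cut := Cut.of [[⟨4, 0, 0, 1449551462⟩]]

noncomputable def f_pm_203_s : ℕ → ℕ → ℕ → ℕ → Bool := onCell 0 536870912 1610612736 536870912 1045395039 1503240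
    (rowNE 3 eng mog cd0q2 cd0q0 pd3 1 true true false .up 2 0 3 (qsf 0 536870912 0 536870912 3) ndB0q2 ndB0q0 pcB3 cut_pm_203_s Ext.none)

def k0_pm_203_s : ∃ t, chk3 f_pm_203_s t 1 1 1 = true :=
  ⟨(l 6), by decide +kernel⟩

theorem c_pm_203_s : CertNE 0 536870912 0 536870912 1045395039 1503240 3 eng mog cd0q2 cd0q0 pd3 true true false .up 2 0 3
    ndB0q2 ndB0q0 pcB3 cut_pm_203_s Ext.none :=
  certNE1 (fam := true) (s1 := true) (s2 := false) (a := 2) (b := 0) (c := 3) (cn := .up) (n1 := ndB0q2) (n2 := ndB0q0) (pc := pcB3) (cut := cut_pm_203_s) (xt := Ext.none) (P1 := 0) (W1 := 536870912) (P2 := 0) (W2 := 536870912) (P3 := 1045395039) (W3 := 1503240) (N0 := 3) (En := eng) (mo := mog) (C1 := cd0q2) (C2 := cd0q0) (C3 := pd3)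
    rfl (fun _ => rfl) k0_pm_203_s

noncomputable def cut_pm_203_t : Cut := Cut.of [[⟨3, 0, 0, 2845415833⟩]]

noncomputable def f_pm_203_t : ℕ → ℕ → ℕ → ℕ → Bool := onCell 0 536870912 0 536870912 1045395039 1503240
    (rowNE 3 eng mog cd0q2 cd0q0 pd3 0 true true false .up 2 0 3 (qsf 0 536870912 0 536870912 3) ndB0q2 ndB0q0 pcB3 cut_pm_203_t Ext.none)

def k0_pm_203_t : ∃ t, chk3 f_pm_203_t t 1 1 1 = true :=
  ⟨(a (b (l 1) (b (a (b (l 1) (b (l 6) (l 16606672))) (l 6)) (a (b (a (b (l 16647136) (l 16646888)) (l 6)) (a (l 16644456) (b (l 16598000) (l 16613808)))) (b (l 6) (l 6))))) (l 6)), by decide +kernel⟩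

theorem c_pm_203_t : CertNE 0 536870912 0 536870912 1045395039 1503240 3 eng mog cd0q2 cd0q0 pd3 true true false .up 2 0 3
    ndB0q2 ndB0q0 pcB3 cut_pm_203_t Ext.none :=
  certNE0 (fam := true) (s1 := true) (s2 := false) (a := 2) (b := 0) (c := 3) (cn := .up) (n1 := ndB0q2) (n2 := ndB0q0) (pc := pcB3) (cut := cut_pm_203_t) (xt := Ext.none) (P1 := 0) (W1 := 536870912) (P2 := 0) (W2 := 536870912) (P3 := 1045395039) (W3 := 1503240) (N0 := 3) (En := eng) (mo := mog) (C1 := cd0q2) (C2 := cd0q0) (C3 := pd3)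
    rfl k0_pm_203_t

noncomputable def cut_pm_213_s : Cut := Cut.of [[⟨4, 0, 0, 1449551462⟩], [⟨0, 1, 0, 14155776⟩, ⟨1, 1, 0, 14155776⟩, ⟨2, 2, 0, 524288⟩], [⟨0, 0, 1, 46137344⟩, ⟨1, 1, 0, 1048576⟩, ⟨2, 1, 1, 46137344⟩, ⟨0, 0, 0, 1056440320⟩, ⟨0, 1, 0, 33457795⟩, ⟨2, 1, 0, 1056440320⟩, ⟨2, 2, 0, 33457795⟩], [⟨0, 1, 0, 1048576⟩, ⟨1, 0, 1, 46137344⟩, ⟨2, 1, 1, 46137344⟩, ⟨1, 0, 0, 1056440320⟩, ⟨1, 1, 0, 33457795⟩, ⟨2, 1, 0, 1056440320⟩, ⟨2, 2, 0, 33457795⟩]]

noncomputable def f_pm_213_s : ℕ → ℕ → ℕ → ℕ → Bool := onCell 0 536870912 536870912 536870912 1045395039 1503240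
    (rowNE 3 eng mog cd0q2 cd0q1 pd3 0 true true false .pnn 2 1 3 (qsf 0 536870912 536870912 536870912 3) ndB0q2 ndB0q1 pcB3 cut_pm_213_s Ext.none)

def k0_pm_213_s : ∃ t, chk3 f_pm_213_s t 1 1 1 = true :=
  ⟨(l 6), by decide +kernel⟩

theorem c_pm_213_s : CertNE 0 536870912 536870912 536870912 1045395039 1503240 3 eng mog cd0q2 cd0q1 pd3 true true false .pnn 2 1 3
    ndB0q2 ndB0q1 pcB3 cut_pm_213_s Ext.none :=
  certNE0 (fam := true) (s1 := true) (s2 := false) (a := 2) (b := 1) (c := 3) (cn := .pnn) (n1 := ndB0q2) (n2 := ndB0q1) (pc := pcB3) (cut := cut_pm_213_s) (xt := Ext.none) (P1 := 0) (W1 := 536870912) (P2 := 536870912) (W2 := 536870912) (P3 := 1045395039) (W3 := 1503240) (N0 := 3) (En := eng) (mo := mog) (C1 := cd0q2) (C2 := cd0q1) (C3 := pd3)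
    rfl k0_pm_213_s

noncomputable def cut_pm_213_t : Cut := Cut.of [[⟨3, 0, 0, 3194381926⟩], [⟨0, 1, 0, 14155776⟩, ⟨1, 1, 0, 14155776⟩, ⟨2, 2, 0, 524288⟩], [⟨0, 0, 1, 46137344⟩, ⟨1, 1, 0, 1048576⟩, ⟨2, 1, 1, 46137344⟩, ⟨0, 0, 0, 1056440320⟩, ⟨0, 1, 0, 33457795⟩, ⟨2, 1, 0, 1056440320⟩, ⟨2, 2, 0, 33457795⟩], [⟨0, 1, 0, 1048576⟩, ⟨1, 0, 1, 46137344⟩, ⟨2, 1, 1, 46137344⟩, ⟨1, 0, 0, 1056440320⟩, ⟨1, 1, 0, 33457795⟩, ⟨2, 1, 0, 1056440320⟩, ⟨2, 2, 0, 33457795⟩]]

noncomputable def xt_pm_213_t : Ext := extD3 3 ⟨4, 1, 1, 5, 33, 5, 163, 200, 81, 200, 1, 64⟩ eng cd0q2 cd0q1 pd3 true true false .pnn 2 1 3 rfl ndB0q2 ndB0q1 pcB3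

noncomputable def f_pm_213_t : ℕ → ℕ → ℕ → ℕ → Bool := onCell 0 536870912 1610612736 536870912 1045395039 1503240
    (rowNE 3 eng mog cd0q2 cd0q1 pd3 1 true true false .pnn 2 1 3 (qsf 0 536870912 536870912 536870912 3) ndB0q2 ndB0q1 pcB3 cut_pm_213_t xt_pm_213_t)

def k0_pm_213_t : ∃ t, chk3 f_pm_213_t t 2 1 1 = true :=
  ⟨(b (b (l 6) (b (l 6) (a (b (l 16698112) (a (l 16753768) (l 6))) (l 6)))) (a (b (a (b (b (l 82375970071) (l 115125022343)) (l 4)) (b (b (l 16727728) (l 24930841047)) (b (b (l 16732032) (l 96334614535)) (b (l 132841805431) (l 4))))) (l 4)) (b (b (l 6) (b (a (l 16725072) (l 6)) (a (b (l 16751960) (l 77007285015)) (l 6)))) (b (b (a (b (l 121567521847) (l 4)) (b (l 16723872) (a (l 16750120) (l 16731688)))) (a (l 4) (b (b (l 72712316503) (l 79691610711)) (b (l 124788743287) (l 4))))) (l 4))))), by decide +kernel⟩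

def k1_pm_213_t : ∃ t, chk3 f_pm_213_t t 3 2 1 = true :=
  ⟨(l 6), by decide +kernel⟩

def k2_pm_213_t : ∃ t, chk3 f_pm_213_t t 6 3 1 = true :=
  ⟨(b (l 6) (b (b (l 6) (a (b (a (l 16719224) (l 6)) (a (b (l 16749176) (l 16768888)) (l 16684696))) (l 6))) (b (a (b (a (b (l 16722216) (l 4)) (b (l 16742384) (l 51774402503))) (b (a (l 4) (a (l 4) (l 101166528711))) (l 4))) (b (a (b (l 6) (l 16707520)) (l 6)) (b (a (l 16699712) (a (l 16686768) (l 6))) (a (b (l 16727880) (l 96871547703)) (b (l 16697392) (l 16719992)))))) (b (a (l 4) (b (a (b (l 348664057495) (l 4)) (b (l 16712696) (a (l 94724094679) (l 16751224)))) (a (l 4) (a (l 4) (a (b (l 196729580455) (l 4)) (b (l 16749224) (l 441542741287))))))) (l 4))))), by decide +kernel⟩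

def k3_pm_213_t : ∃ t, chk3 f_pm_213_t t 7 6 1 = true :=
  ⟨(l 6), by decide +kernel⟩

def k4_pm_213_t : ∃ t, chk3 f_pm_213_t t 14 14 1 = true :=
  ⟨(l 6), by decide +kernel⟩

def k5_pm_213_t : ∃ t, chk3 f_pm_213_t t 14 30 1 = true :=
  ⟨(b (l 6) (l 6)), by decide +kernel⟩

def k6_pm_213_t : ∃ t, chk3 f_pm_213_t t 14 62 1 = true :=
  ⟨(a (b (a (b (l 16682584) (l 16711024)) (b (l 6) (a (l 16677760) (l 6)))) (b (a (l 16741168) (l 16698984)) (a (b (l 16743992) (b (l 16755752) (l 16751168))) (b (l 16725008) (l 16742800))))) (b (l 6) (a (b (a (b (l 6) (l 16673000)) (l 6)) (a (l 16702088) (b (a (l 16674928) (l 16660576)) (a (l 16695800) (l 16684528))))) (b (l 6) (a (b (l 6) (a (b (l 16664536) (l 16677992)) (l 16654952))) (l 16614272)))))), by decide +kernel⟩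

def k7_pm_213_t : ∃ t, chk3 f_pm_213_t t 14 63 1 = true :=
  ⟨(b (a (b (a (b (a (l 4) (l 261690970471)) (l 4)) (b (a (l 16749432) (l 16751032)) (a (b (l 16751736) (l 4)) (l 16763064)))) (a (l 4) (b (a (l 4) (b (l 393761249287) (l 4))) (l 4)))) (b (a (b (a (l 16731008) (l 16710616)) (a (l 16750632) (l 16731064))) (a (b (a (l 16695024) (b (l 16676528) (l 16689504))) (l 16711504)) (b (l 16660176) (a (b (a (l 16693280) (l 16686544)) (l 16702696)) (b (l 16675608) (l 16691008)))))) (a (b (a (b (l 16765920) (a (l 182234099287) (l 16771688))) (l 16752184)) (a (b (a (l 4) (l 563949331175)) (l 4)) (b (b (l 16765840) (l 16760800)) (a (b (l 252027320775) (l 4)) (b (l 16772416) (l 182770977399)))))) (b (a (l 16733600) (a (l 16720240) (b (a (l 16707816) (l 16702664)) (l 16717648)))) (a (b (l 16750440) (l 16761840)) (b (l 16733432) (l 16745104))))))) (b (a (l 4) (a (b (a (l 4) (b (a (l 4) (l 729305565831)) (l 4))) (l 4)) (b (a (b (a (b (l 16764288) (a (l 4) (l 238068684135))) (l 16769112)) (a (l 4) (b (a (l 585961041479)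 (l 16765208)) (l 807151851447)))) (b (a (l 16760792) (l 16752992)) (b (l 16765632) (a (a (b (l 16776032) (l 338463545895)) (l 16773528)) (l 16767704))))) (a (l 4) (b (a (b (a (l 4) (b (l 274575908823) (l 4))) (l 4)) (b (a (b (l 16774064) (l 16774128)) (l 16771736)) (a (l 857617720183) (b (l 16770776) (a (l 4) (l 347053483703)))))) (l 4)))))) (l 4))), by decide +kernel⟩

def k8_pm_213_t : ∃ t, chk3 f_pm_213_t t 15 14 1 = true :=
  ⟨(l 6), by decide +kernel⟩

def k9_pm_213_t : ∃ t, chk3 f_pm_213_t t 15 30 1 = true :=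
  ⟨(l 6), by decide +kernel⟩

def k10_pm_213_t : ∃ t, chk3 f_pm_213_t t 30 62 1 = true :=
  ⟨(l 6), by decide +kernel⟩

def k11_pm_213_t : ∃ t, chk3 f_pm_213_t t 30 126 1 = true :=
  ⟨(b (a (a (b (l 16630032) (l 16662744)) (b (l 6) (l 16639664))) (a (b (l 6) (a (l 16628448) (l 6))) (l 6))) (a (a (b (a (b (l 16693352) (a (b (l 16708040) (l 16714728)) (l 16706144))) (l 16689472)) (a (b (a (l 16723880) (l 16720144)) (l 16734088)) (b (a (b (l 16712440) (l 16719768)) (l 16711224)) (a (l 16729352) (b (a (l 16723904) (l 16721992)) (l 16729512)))))) (b (a (l 16679080) (l 16670808)) (a (b (l 16704224) (a (b (l 16718608) (a (l 16727368) (l 16725536))) (l 16718560))) (l 16705272)))) (a (b (a (l 16665552) (l 16664520)) (a (b (l 16692464) (l 16709720)) (b (l 16692512) (l 16710296)))) (a (b (b (l 16659336) (l 16679408)) (b (l 16698784) (l 16717216))) (b (b (l 6) (l 16693456)) (b (l 16713984) (l 16733304))))))), by decide +kernel⟩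

def k12_pm_213_t : ∃ t, chk3 f_pm_213_t t 60 254 1 = true :=
  ⟨(b (a (b (a (l 16745936) (l 16739912)) (a (l 16757664) (l 16751616))) (b (a (a (b (l 16733144) (l 16739272)) (b (a (b (l 16729472) (l 16733128)) (l 16729608)) (a (l 16737832) (b (l 16735272) (l 16738488))))) (a (b (l 16727168) (a (b (l 16733816) (l 16737544)) (l 16734288))) (l 16728504))) (a (l 16747008) (b (a (a (l 16742208) (b (l 16739936) (l 16743120))) (a (b (l 16738760) (l 16742464)) (l 16739584))) (a (l 16747656) (a (l 16747000) (b (l 16745112) (l 16748200)))))))) (a (b (b (a (l 16766400) (l 16760208)) (a (b (l 16770752) (l 16773608)) (l 16765840))) (b (a (a (b (a (l 894661816711) (l 275649654071)) (l 4)) (b (l 16774800) (a (l 743264220567) (l 212298886855)))) (l 16771416)) (a (l 4) (b (a (a (b (l 16771712) (l 993982936167)) (l 16773640)) (l 16774064)) (a (l 990224837079) (a (b (l 16766264) (l 852249016151)) (l 16775968))))))) (b (a (b (l 16755456) (l 16760896)) (b (l 16752680) (l 16757904))) (b (a (l 16766200) (l 16762888)) (a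 (b (l 16770088) (l 16772648)) (l 16767624)))))), by decide +kernel⟩

def k13_pm_213_t : ∃ t, chk3 f_pm_213_t t 61 254 1 = true :=
  ⟨(b (a (b (a (l 16726192) (l 16727088)) (a (a (b (l 16738376) (a (b (l 16744304) (a (l 16748040) (l 16747752))) (l 16745504))) (l 16741392)) (l 16742584))) (a (b (l 16734384) (l 16749888)) (l 602676313551117298016287))) (a (b (a (b (a (b (a (l 16750904) (a (l 16750896) (l 16750720))) (l 16753576)) (a (b (l 16750440) (b (l 16753032) (l 16754624))) (l 16752048))) (a (l 16757408) (b (a (l 16756608) (b (l 16756224) (a (l 16757672) (l 16757832)))) (l 16759256)))) (a (b (l 16752440) (a (b (l 16757160) (b (l 16759536) (a (l 16760800) (l 16761128)))) (l 16759184))) (l 16757440))) (a (b (l 16762272) (l 16766488)) (b (a (b (a (l 16762664) (b (l 16762952) (a (l 16764000) (l 16764072)))) (l 16765208)) (b (l 16764584) (a (b (l 16764576) (a (l 16765136) (l 16764944))) (l 16765128)))) (a (l 16767960) (b (a (l 16766176) (b (a (l 16765392) (l 16765488)) (a (l 16766048) (l 16765840))))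 (l 16767424)))))) (b (a (l 16763248) (l 16764904)) (a (b (l 16766152) (a (b (l 16766096) (a (b (a (l 16766304) (l 16766248)) (l 16766944)) (b (l 16766592) (l 16766736)))) (l 16767152))) (l 143909270123823135))))), by decide +kernel⟩

def k14_pm_213_t : ∃ t, chk3 f_pm_213_t t 60 510 1 = true :=
  ⟨(b (a (b (a (l 4) (a (l 4) (b (b (l 873723851303) (l 4)) (l 4)))) (l 4)) (b (a (b (a (b (l 16775832) (a (l 789435120007) (l 16776432))) (l 16773952)) (a (a (l 4) (b (a (l 1046596286391) (l 369602065495)) (l 4))) (b (l 16775760) (a (b (l 351885325511) (l 959623198871)) (l 16776352))))) (b (l 16771024) (l 16773224))) (a (b (a (l 4) (b (a (l 4) (b (l 338463552823) (l 951033264391))) (l 4))) (l 4)) (b (a (b (l 16775816) (a (b (l 333094843751) (l 954254489927)) (l 16776392))) (l 16774504)) (a (b (a (l 4) (b (a (l 16775456) (l 16776920)) (l 968750004551))) (l 4)) (b (l 16775992) (a (b (a (l 527442113735) (l 16776944)) (l 999351646487)) (l 16776520)))))))) (a (l 4) (b (a (l 4) (b (a (l 4) (b (a (l 4) (b (a (l 556433142903)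 (l 16776976)) (l 1044448802983))) (l 4))) (l 4))) (l 4)))), by decide +kernel⟩

def k15_pm_213_t : ∃ t, chk3 f_pm_213_t t 122 510 1 = true :=
  ⟨(b (b (a (b (l 16769400) (l 16771208)) (l 16759848)) (a (b (l 16772920) (l 16771912)) (b (l 16772392) (l 16773664)))) (b (a (b (a (b (l 16775600) (a (b (a (l 597235332071) (l 16777016)) (l 1106188957671)) (l 16776376))) (l 16775640)) (a (b (a (l 4) (b (a (l 1105652087479) (l 16774432)) (l 1184572110551))) (l 4)) (b (a (b (l 16776688) (a (l 16775752) (l 16776888))) (l 16776408)) (a (b (a (l 1222689945991) (l 384634452391)) (l 4)) (b (l 16776832) (a (a (l 559654369367) (l 16771864)) (l 16777000))))))) (b (l 16769592) (b (l 16770384) (l 16770880)))) (a (b (a (l 4) (b (a (l 4) (a (l 4) (a (l 1153433598215) (b (l 16774472) (l 4))))) (l 4))) (l 4)) (b (a (b (a (b (l 16776968) (a (c (l 538716403047) (l 539790145527)) (l 16777080))) (l 16776744)) (a (b (a (l 4) (l 601530299543)) (l 4)) (b (l 16774448) (a (l 1122295085895) (l 16776448))))) (l 16773824)) (a (b (b (l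 1291409420311) (l 4)) (l 4)) (b (a (b (a (a (l 475902507367) (l 16777160)) (l 16777040)) (a (l 1396636121319) (a (l 586497914327) (l 16775824)))) (l 16776904)) (a (l 4) (b (a (b (l 16775784) (l 738432382039)) (l 16777136)) (a (l 4) (a (l 1350465223383) (l 576297367047))))))))))), by decide +kernel⟩

def k16_pm_213_t : ∃ t, chk3 f_pm_213_t t 123 510 1 = true :=
  ⟨(b (a (b (a (b (a (l 16768056) (b (a (l 16767248) (l 16767088)) (l 16767880))) (l 16769312)) (b (a (b (l 16767352) (a (b (l 16767376) (l 16767656)) (l 16767632))) (l 16767832)) (a (b (a (l 16768176) (b (l 16767808) (l 16768128))) (l 16768824)) (b (l 16768064) (a (l 16768480) (l 16768368)))))) (b (a (l 16770800) (b (l 16769400) (l 16770088))) (l 16771704))) (b (l 16768960) (a (b (a (b (a (b (l 16768688) (l 16768904)) (l 16768928)) (a (l 16769432) (b (l 16769088) (l 16769392)))) (l 16769256)) (a (l 16770432) (b (a (b (l 16769544) (l 16769872)) (b (l 16769616) (l 16769720))) (l 16770368)))) (b (l 16769800) (a (b (l 16769912) (a (b (l 16769952)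 (a (l 16770208) (l 16770128))) (l 16770184))) (l 16770320)))))) (b (a (b (l 16762560) (l 16771664)) (a (b (l 16771656) (l 16773032)) (b (a (b (a (l 16770696) (b (a (l 16770368) (l 16770360)) (l 16770680))) (l 16771312)) (b (a (l 16770504) (l 16770688)) (a (b (a (l 16770856) (l 16770776)) (l 16771152)) (b (l 16770832) (a (l 16771024) (l 16770976)))))) (b (l 16771872) (l 16772528))))) (b (a (a (l 16765264) (l 16775032)) (a (l 16774296) (l 16773536))) (a (b (l 16770880) (a (a (b (l 16776896) (a (l 16776544) (l 16777008))) (l 16776704)) (l 16776264))) (b (l 16764320) (l 16770104)))))), by decide +kernel⟩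

def k17_pm_213_t : ∃ t, chk3 f_pm_213_t t 30 511 1 = true :=
  ⟨(b (a (l 4) (a (l 4) (b (a (b (a (b (a (b (a (c (l 1240406686375) (l 1243627911847)) (b (l 16777160) (l 493619247479))) (l 1467503080839)) (a (b (l 16777056) (b (l 16774584) (l 654143649815))) (l 16777008))) (a (l 4) (b (b (a (l 4) (a (l 16776304) (l 16777224))) (l 1416500344839)) (l 4)))) (b (l 16771432) (a (b (l 16776448) (b (a (l 643943102535) (l 16777144)) (a (l 4) (a (l 657364875847) (l 16777216))))) (l 16776920)))) (a (l 4) (b (a (b (l 1457839404487) (l 4)) (b (b (l 16775848) (a (a (l 944053941991) (l 16776408)) (l 16777152))) (b (a (l 4) (a (l 691724614183) (l 16777216))) (l 1502399690695)))) (l 4)))) (b (b (l 16773232) (a (l 16776552) (l 16776040))) (a (b (a (a (b (l 16776992) (b (l 16777112) (l 16776552))) (l 16776968)) (l 16776800)) (a (b (b (a (a (l 4) (l 606362139319)) (l 16777168)) (a (l 4) (a (l 773328992343) (l 16774560)))) (l 1648965448855)) (b (l 16777048) (a (b (a (l 540327017239) (l 16777184)) (a (l 4) (l 723936868551)))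 (l 16775856))))) (b (l 16776464) (l 16774208))))) (a (l 4) (b (a (b (a (l 4) (b (b (a (l 4) (a (l 892514334583) (l 498451086151))) (l 4)) (l 4))) (l 4)) (b (a (a (b (a (b (l 16777176) (l 695482710279)) (l 16775872)) (l 1585614682231)) (b (l 16777096) (b (b (l 16777192) (a (l 16775744) (l 16777192))) (a (l 4) (l 692261484823))))) (b (l 16776968) (a (l 16775856) (l 16777064)))) (a (l 4) (a (b (b (b (a (l 16776472) (l 16777216)) (l 829163567095)) (l 4)) (l 4)) (b (b (l 16777160) (b (l 16776528) (a (l 1004720355671) (l 16774552)))) (l 1664534706199)))))) (l 4)))))) (l 4)), by decide +kernel⟩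

def k18_pm_213_t : ∃ t, chk3 f_pm_213_t t 62 62 1 = true :=
  ⟨(l 6), by decide +kernel⟩

def k19_pm_213_t : ∃ t, chk3 f_pm_213_t t 62 126 1 = true :=
  ⟨(b (l 6) (a (b (b (l 6) (a (l 16719976) (l 603737866127020658827295))) (a (l 603078106642490054696991) (l 602446305854159629541407))) (b (l 6) (a (a (l 143961703077838943) (l 143946859672649823)) (a (l 143935520959955039) (l 144015647870370015)))))), by decide +kernel⟩

def k20_pm_213_t : ∃ t, chk3 f_pm_213_t t 62 254 1 = true :=
  ⟨(a (a (b (l 601975337399736515272735) (l 143900267891359775)) (b (l 143934833787453471) (a (l 143966238597103711) (b (l 16771856) (l 143974759814201567))))) (b (a (a (l 143908308061880415) (l 143983899487600863)) (a (b (l 143896831933710559) (l 144014204797993183)) (b (l 144022244978950367) (a (l 16773216) (b (l 16774128) (l 16773632)))))) (a (b (a (l 143950020804231391) (a (l 16773064) (l 16773176))) (a (b (l 16772560) (l 16772592)) (b (l 16772912) (l 16772872)))) (a (b (b (l 16773352) (l 16773072)) (b (a (l 16772904)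 (l 16772792)) (a (l 16772808) (l 16772680)))) (b (a (a (l 16773096) (b (l 16773240) (l 16772896))) (b (l 16772536) (l 16772848))) (b (a (l 16772680) (l 16772624)) (a (l 16772560) (l 16769936)))))))), by decide +kernel⟩

def k21_pm_213_t : ∃ t, chk3 f_pm_213_t t 124 510 1 = true :=
  ⟨(b (a (a (l 143843368171487327) (l 143963833415598175)) (a (b (l 16771472) (l 16771880)) (b (l 16772152) (l 16772480)))) (a (b (a (b (l 16771160) (a (b (a (b (a (l 16771192) (l 16771232)) (l 16771496)) (l 16771352)) (a (l 16771992) (b (a (l 16771680) (l 16771608)) (l 16771968)))) (b (l 16771592) (a (b (l 16771680) (a (l 16771848) (l 16771808))) (l 16771864))))) (l 16771896)) (b (a (b (a (l 16772608) (a (l 16772344) (b (a (a (l 16772032) (l 16772008)) (l 16772056)) (a (l 16772328) (l 16772272))))) (l 16773104)) (a (b (a (b (l 16772152) (a (l 16772216) (l 16772296))) (l 16772328)) (a (a (l 16772704) (b (a (l 16772456) (l 16772424)) (l 16772752))) (b (l 16772472) (a (l 16772696) (a (l 16772632) (l 16772632)))))) (l 16772616)))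 (a (l 16768840) (a (b (l 16773256) (l 16773896)) (b (a (b (a (a (l 16772880) (l 16772840)) (l 16772840)) (l 16773176)) (a (b (l 16772912) (b (l 16772984) (l 16773112))) (l 16773016))) (b (a (l 16773472) (a (l 16773344) (a (l 16773304) (l 16772616)))) (l 16773728))))))) (b (a (l 16772432) (l 16772944)) (a (b (l 16772960) (b (l 16773264) (a (a (b (a (b (l 16773224) (l 16773296)) (l 16773304)) (a (l 16773536) (b (l 16773384) (l 16773544)))) (b (l 16773376) (a (l 16773448) (l 16773520)))) (l 16773584)))) (l 16772920))))), by decide +kernel⟩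

def k22_pm_213_t : ∃ t, chk3 f_pm_213_t t 125 510 1 = true :=
  ⟨(a (b (a (b (a (l 16772632) (l 16772840)) (a (l 16772896) (l 16773064))) (b (a (l 16772920) (l 16772904)) (a (l 16773104) (a (l 16773072) (l 16773016))))) (b (a (a (l 16773296) (l 16773424)) (a (b (l 16773336) (l 16773520)) (b (l 16773248) (l 16773440)))) (a (a (l 16773856) (l 16773936)) (a (b (l 16773760) (l 16774056)) (b (l 16773680) (l 16773984)))))) (b (b (a (a (l 16772800) (l 16772688)) (a (l 16772600) (l 16772632))) (a (a (b (l 16772888) (l 16772992)) (l 16772840)) (a (l 16772808) (l 16772872)))) (b (a (a (l 16773240) (l 16773192)) (a (b (l 16773080) (l 16773312)) (b (l 16773152) (l 16773392)))) (a (a (b (l 16773616) (l 16773936)) (b (l 16773592) (l 16773920))) (a (b (l 16773592) (l 16773928)) (b (l 16773680) (l 16774008))))))), by decide +kernel⟩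

def k23_pm_213_t : ∃ t, chk3 f_pm_213_t t 124 2044 1 = true :=
  ⟨(a (b (b (a (l 16774976) (l 16774368)) (a (l 16775512) (l 16774960))) (b (a (l 16776000) (l 16775512)) (a (l 16771184) (l 16776000)))) (b (a (a (b (b (a (l 16773816) (a (l 16773728) (b (l 16773592) (l 16773728)))) (l 16774064)) (l 16774544)) (b (a (b (l 16773688) (b (a (l 16773160) (l 16773816)) (a (l 16773952) (a (l 16773920) (l 16773888))))) (l 16773856)) (a (l 16774336) (b (b (a (a (l 16774008) (l 16773984)) (l 16774032)) (a (l 16774152) (a (l 16774096) (l 16774088)))) (l 16774368))))) (a (b (l 16773992) (a (b (l 16774120) (b (a (a (l 16774192) (l 16774192)) (l 16774232)) (a (l 16774344) (a (l 16774288) (l 16774304))))) (l 16774264))) (l 16774272))) (a (b (l 16775008) (l 16775560)) (b (a (a (a (l 16774712) (b (l 16774520) (l 16774800))) (a (b (b (l 16774056) (l 16774528)) (l 16774736)) (a (b (l 16774440) (l 16774704)) (b (l 16774480) (b (l 16774600) (l 16774736)))))) (a (b (l 16774528) (b (l 16774592) (a (a (l 16774720) (l 16774032))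 (l 16774680)))) (l 16774656))) (a (l 16775216) (a (a (l 16775072) (b (b (b (a (l 16774768) (l 16774744)) (l 16774840)) (l 16774936)) (l 16775160))) (a (b (b (l 16774784) (b (a (l 16774864) (l 16774840)) (l 16774936))) (l 16775104)) (b (l 16774848) (b (b (a (l 16774960) (l 16774944)) (l 16775032)) (l 16775120)))))))))), by decide +kernel⟩

def k24_pm_213_t : ∃ t, chk3 f_pm_213_t t 124 2045 1 = true :=
  ⟨(a (b (b (a (l 16774160) (l 16773808)) (a (a (b (l 16777080) (b (b (l 16777160) (a (a (l 766349671079) (l 16777200)) (l 16777144))) (b (a (a (l 4) (l 16776432)) (l 16777176)) (a (l 4) (l 16776544))))) (l 16774376)) (b (l 16776704) (l 16776864)))) (a (b (a (b (b (b (a (l 4) (a (l 974655584679) (l 16777192))) (l 1681714575591)) (l 4)) (l 4)) (a (b (b (l 16777184) (a (l 859765209127) (b (l 16777200) (l 633205685383)))) (l 4)) (b (l 16777144) (b (a (b (l 16775832) (l 1011162806663)) (l 16775912)) (l 1717684927175))))) (l 4)) (b (b (l 16777000) (b (l 16777080) (b (l 16776472) (a (a (a (l 820036762263) (l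 16777216)) (l 16777168)) (l 16777096))))) (a (b (b (b (a (a (l 4) (l 720178772727)) (l 16777192)) (a (l 4) (a (a (l 16776400) (l 16777192)) (l 16777200)))) (b (a (l 4) (a (l 1162560403703) (l 16776816))) (l 1869082523671))) (l 4)) (a (b (b (l 16777152) (b (l 16777184) (l 16776728))) (b (a (l 1748286569543) (b (l 16774584) (l 896272431703))) (l 4))) (b (l 16777136) (b (l 16777200) (b (a (a (l 1094914669399) (l 16776464)) (l 16777216)) (a (l 4) (a (l 1004183485383) (l 16775840))))))))))) (b (b (a (l 16774744) (b (l 16775528) (l 16775792))) (a (b (l 16776384) (l 16776576)) (b (l 16776040) (l 16776272)))) (b (a (b (l 16776744) (l 16776896)) (b (l 16776480) (l 16776664))) (a (b (l 16774400) (a (l 16776504) (l 16777080))) (b (l 16774208) (a (l 16777008) (l 16776920))))))), by decide +kernel⟩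

def k25_pm_213_t : ∃ t, chk3 f_pm_213_t t 125 2044 1 = true :=
  ⟨(a (a (a (b (l 16774416) (b (l 16774744) (a (a (b (l 16774896) (b (l 16774976) (b (a (l 16775056) (l 16775032)) (l 16775120)))) (l 16774960)) (l 16775000)))) (b (l 16774448) (l 16774872))) (a (b (l 16774416) (l 16774832)) (b (l 16774352) (l 16774792)))) (b (a (a (l 16774320) (l 16774304)) (a (l 16774320) (l 16774400))) (a (a (l 16774768) (l 16774760)) (a (l 16774768) (l 16774840))))), by decide +kernel⟩

def k26_pm_213_t : ∃ t, chk3 f_pm_213_t t 250 4090 1 = true :=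
  ⟨(a (b (a (a (a (l 16775432) (b (b (b (a (l 16775144) (l 16775120)) (l 16775208)) (l 16775296)) (l 16775512))) (a (b (b (l 16775144) (b (a (l 16775224) (l 16775200)) (l 16775288))) (l 16775448)) (b (l 16775184) (b (b (a (l 16775296) (l 16775264)) (l 16775360)) (l 16775448))))) (a (b (l 16775184) (a (b (l 16775272) (b (a (l 16775360) (l 16775328)) (l 16775416))) (l 16775296))) (l 16775232))) (a (a (l 16775936) (l 16775824)) (a (a (l 16775712) (b (b (b (a (l 16775424) (l 16775384)) (l 16775480)) (l 16775568)) (l 16775776))) (b (b (l 16775384) (a (b (a (l 16775488) (l 16775448)) (l 16775552)) (l 16775456))) (b (b (a (l 16775600) (a (l 16775560) (l 16775520))) (l 16775656)) (l 16775736)))))) (a (a (b (l 16775216) (b (l 16775424) (b (a (b (l 16775520) (l 16775216)) (l 16775536)) (b (a (a (l 16775632) (l 16775592)) (l 16775592)) (a (l 16775688) (a (l 16775624) (l 16775624))))))) (l 16775344)) (l 16775320))), by decide +kernel⟩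

def k27_pm_213_t : ∃ t, chk3 f_pm_213_t t 250 4091 1 = true :=
  ⟨(a (b (a (b (l 16776240) (l 16776456)) (b (l 16776008) (l 16776248))) (a (b (l 16776648) (a (l 16776856) (l 16776784))) (b (l 16776472) (l 16776664)))) (b (a (b (a (b (b (a (l 16775744) (a (l 16775704) (l 16775664))) (l 16775792)) (l 16775880)) (b (b (l 16775656) (a (a (l 16775704) (l 16775696)) (l 16775696))) (b (a (a (l 16775776) (l 16775744)) (l 16775736)) (a (l 16775824) (a (l 16775784) (l 16775768)))))) (b (b (a (l 16775984) (a (l 16775896) (a (l 16775848) (l 16775832)))) (l 16775992)) (l 16776088))) (a (b (l 16775704) (a (b (b (l 16775800) (a (l 16775872) (l 16775840))) (l 16775976)) (b (l 16775824) (b (l 16775872) (a (l 16775960) (l 16775920)))))) (l 16775776))) (b (a (l 16776280) (a (l 16775824) (a (b (b (a (l 16775960) (l 16775968)) (a (l 16776040) (l 16775352))) (l 16776128)) (b (l 16775984) (b (a (l 16775400) (l 16776040)) (a (l 16776120) (l 16776104))))))) (a (l 16776496) (l 16776328))))), by decide +kernel⟩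

def k28_pm_213_t : ∃ t, chk3 f_pm_213_t t 251 2045 1 = true :=
  ⟨(b (a (a (l 16775304) (l 16775288)) (a (l 16775288) (l 16775360))) (a (a (b (l 16775760) (a (b (l 16776000) (b (b (a (a (l 16776152) (l 16776120)) (l 16776120)) (a (l 16776216) (a (l 16776160) (l 16776168)))) (b (a (l 16776256) (a (l 16776240) (c (l 16775872) (l 16775872)))) (l 16776280)))) (a (a (b (l 16776008) (b (l 16776144) (b (l 16776208) (c (l 16775896) (l 16775896))))) (l 16776072)) (l 16776088)))) (l 16774592)) (a (l 16775240) (l 16774624)))), by decide +kernel⟩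

def k29_pm_213_t : ∃ t, chk3 f_pm_213_t t 124 2046 1 = true :=
  ⟨(a (a (l 4) (l 4)) (b (b (a (a (a (b (b (b (a (a (l 911841688599) (l 16775864)) (l 16777200)) (a (l 4) (a (l 820036762727) (l 16777200)))) (l 2064503536007)) (l 4)) (b (b (l 16777184) (b (a (a (l 733063675047) (l 16777216)) (l 16777200)) (a (l 1109410183527) (a (l 16776808) (l 16777216))))) (a (l 4) (b (l 1901294779367) (l 4))))) (b (l 16777152) (a (b (b (a (a (l 16776496) (l 16777208)) (l 16777192)) (a (l 1022437095911) (l 16776544))) (b (a (l 4) (l 984319261223)) (l 4))) (b (l 16777176) (b (l 16776568) (a (a (l 4) (l 835069148263)) (l 16775912))))))) (b (a (l 16777080) (l 16777008)) (a (l 16777144) (l 16777072)))) (b (a (b (b (a (l 4) (a (l 4) (a (l 4) (a (l 1208194431767) (l 788361378951))))) (l 4)) (l 4)) (a (a (b (a (b (l 16775912) (b (a (l 16776384) (l 16777192)) (l 1164171017031))) (l 16775896)) (b (b (a (l 4) (a (l 16776408) (l 16777200))) (l 2046249925687)) (l 4))) (b (l 16777176) (a (b (l 16777216) (b (a (l 16776744) (l 16777208))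 (l 1125516311431))) (l 16777200)))) (l 16777144))) (a (l 4) (a (a (l 4) (a (l 4) (b (b (b (a (l 16776752) (l 16777208)) (l 1116389505943)) (l 4)) (l 4)))) (a (a (b (b (l 16777216) (b (a (l 1015994645623) (l 16777216)) (l 1115315764135))) (l 4)) (b (l 16777200) (b (b (a (l 1014384032887) (l 16777216)) (l 1122295085991)) (l 4)))) (b (l 16777176) (a (b (l 16777208) (b (a (l 1024584580215) (l 16777216)) (l 1137327471511))) (l 16775888)))))))) (b (a (l 4) (a (l 4) (a (l 4) (a (l 4) (b (b (b (b (a (l 1049280642167) (l 16777208)) (l 1162023533447)) (l 4)) (l 4)) (l 4)))))) (l 4)))), by decide +kernel⟩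

def k30_pm_213_t : ∃ t, chk3 f_pm_213_t t 250 4092 1 = true :=
  ⟨(b (a (a (b (l 16776248) (a (l 16777016) (l 16776960))) (b (l 16776776) (l 16776864))) (a (b (l 16776624) (l 16776728)) (b (l 16776472) (l 16776584)))) (a (b (a (a (l 16777088) (l 16777040)) (l 16775648)) (a (a (l 16777152) (l 16777112)) (c (l 16776392) (l 16776392)))) (b (a (l 16776832) (l 16776704)) (a (l 16776280) (l 16775512))))), by decide +kernel⟩

def k31_pm_213_t : ∃ t, chk3 f_pm_213_t t 250 8186 1 = true :=
  ⟨(a (a (a (b (a (b (b (l 16777216) (b (a (l 1119610731607) (l 16777208)) (l 1232353622903))) (l 4)) (b (l 16776880) (b (b (a (l 1171687210055) (l 16777200)) (l 1276913908567)) (l 4)))) (l 4)) (b (b (l 16777168) (b (l 16776880) (a (b (a (l 1238796074023) (l 16775880)) (l 1332211612455)) (l 16776896)))) (b (b (b (a (l 4) (a (l 1321474194423) (l 16775872))) (l 2414006500279)) (l 4)) (l 4)))) (b (a (l 16777152) (l 16777112)) (a (b (b (b (l 16777192) (a (l 16776872) (l 16777192))) (b (a (a (l 1421332183991) (l 16776504)) (l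 16777200)) (a (l 4) (a (l 16776496) (l 16777208))))) (b (b (a (l 4) (a (l 4) (l 16776816))) (l 4)) (l 4))) (b (l 16777168) (b (b (l 16777200) (a (a (l 935464008903) (l 16777216)) (l 16777200))) (b (a (l 1169002855383) (l 16777208)) (a (l 4) (a (l 1087398476935) (l 16777216))))))))) (b (a (a (l 16774440) (l 16777016)) (c (l 16776608) (l 16776608))) (b (a (l 16777112) (l 16777016)) (a (l 16777152) (l 16777072))))), by decide +kernel⟩

def k32_pm_213_t : ∃ t, chk3 f_pm_213_t t 250 8187 1 = true :=
  ⟨(b (b (a (b (b (a (l 4) (a (l 4) (a (l 4) (l 1282282617735)))) (l 4)) (l 4)) (a (a (a (b (b (l 16777224) (a (l 1254902201399) (l 16777200))) (l 2447292497063)) (b (l 16777192) (b (l 16776552) (a (l 1436364569543) (l 16776512))))) (l 16777176)) (l 16777120))) (a (l 4) (a (a (l 2643250378823) (a (b (b (a (l 16776496) (l 16777208)) (a (l 4) (l 954254490823))) (l 4)) (b (l 16777200) (b (a (l 1070755478679) (l 16777216)) (l 1318252968839))))) (b (l 16777152) (a (l 16775888) (l 16777160)))))) (a (l 4) (a (l 4)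 (b (a (b (b (a (a (l 1317716098087) (l 16777192)) (l 16777200)) (a (l 1495957240567) (l 16776544))) (b (a (l 4) (a (l 1578098490247) (l 16776496))) (l 4))) (b (l 16777176) (b (l 16777192) (a (a (l 1020289612983) (l 16777216)) (l 16777200))))) (a (l 4) (b (b (a (l 1321474194327) (l 16777216)) (a (l 4) (a (l 1335432838183) (l 16777192)))) (l 2716264823447))))))), by decide +kernel⟩

def k33_pm_213_t : ∃ t, chk3 f_pm_213_t t 251 4092 1 = true :=
  ⟨(a (b (b (a (a (l 16776352) (b (b (a (a (l 16776248) (l 16776240)) (l 16776216)) (a (l 16776272) (a (l 16776256) (l 16776224)))) (l 16776000))) (a (a (b (l 16776224) (b (a (l 16776232) (l 16776240)) (b (a (l 16776272) (l 16776240)) (l 16776288)))) (l 16776232)) (l 16776224))) (a (l 16776440) (a (a (l 16776360) (b (b (a (c (l 16775944) (l 16775944)) (l 16776256)) (a (l 16776296) (l 16776296))) (l 16776344))) (b (a (l 16775592) (l 16776264)) (a (b (a (l 16776312) (l 16775952)) (l 16776336)) (b (l 16776288) (b (l 16776280) (a (l 16776312) (l 16776296)))))))))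 (a (b (l 16776568) (l 16776696)) (b (b (b (a (l 16776408) (a (l 16776360) (a (l 16776328) (c (l 16775992) (l 16776160))))) (l 16776408)) (l 16776464)) (l 16776568)))) (b (a (l 16776240) (l 16776280)) (b (a (a (a (b (b (l 16776296) (a (l 16776344) (l 16776312))) (l 16776400)) (b (l 16776312) (b (b (l 16776320) (a (l 16776352) (l 16776344))) (b (a (l 16776360) (l 16776344)) (l 16776384))))) (a (l 16776304) (l 16776336))) (l 16776368)) (a (a (l 16776472) (b (a (b (a (l 16776384) (l 16775696)) (l 16776416)) (b (l 16776368) (b (l 16776368) (a (l 16776400) (l 16776392))))) (b (b (a (l 16776432) (a (l 16776408) (l 16776392))) (l 16776448)) (l 16776464)))) (a (a (b (l 16776392) (b (l 16776392) (a (l 16776448) (a (l 16776424) (l 16776424))))) (l 16776416)) (l 16776440)))))), by decide +kernel⟩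

def k34_pm_213_t : ∃ t, chk3 f_pm_213_t t 251 4093 1 = true :=
  ⟨(b (a (b (a (l 16776168) (l 16776048)) (b (a (l 16776912) (l 16776800)) (a (l 16776968) (l 16776864)))) (a (b (l 16775272) (a (l 16776752) (l 16776704))) (a (b (b (a (l 16776496) (b (b (l 16776440) (a (l 16776472) (l 16776456))) (a (l 16776488) (l 16776248)))) (l 16776552)) (l 16776656)) (b (b (b (l 16776480) (a (a (l 16776144) (l 16776488)) (l 16776504))) (a (b (b (a (l 16776512) (l 16776488)) (l 16776528)) (l 16776544)) (b (l 16776512) (a (a (l 16776544) (l 16776528)) (l 16776520))))) (a (l 16776632) (b (l 16776280) (l 16776656))))))) (a (a (b (a (l 16775768) (l 16775720)) (b (l 16777136) (a (a (b (l 16777192) (b (l 16776864) (a (l 4) (l 16776816)))) (l 16777192)) (l 16777160)))) (b (a (l 16775672) (l 16776936)) (b (l 16777048) (l 16777104)))) (a (a (b (l 16776888) (l 16776680)) (b (l 16776840) (l 16776312))) (a (b (l 16776800) (l 16775624)) (b (l 16776768) (l 16776896)))))), by decide +kernel⟩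

def k35_pm_213_t : ∃ t, chk3 f_pm_213_t t 62 2047 1 = true :=
  ⟨(a (l 4) (b (a (l 4) (b (b (b (b (b (a (a (a (a (l 4) (a (l 1131958762647) (l 16777216))) (l 16777192)) (l 16777136)) (a (l 16777056) (l 16776984))) (l 14)) (l 14)) (l 14)) (l 14)) (l 14))) (l 4))), by decide +kernel⟩

def k36_pm_213_t : ∃ t, chk3 f_pm_213_t t 63 62 1 = true :=
  ⟨(l 6), by decide +kernel⟩

def k37_pm_213_t : ∃ t, chk3 f_pm_213_t t 63 126 1 = true :=
  ⟨(b (l 6) (b (l 6) (a (a (a (l 144047877305762015) (b (a (l 16776152) (l 144036882236211423)) (a (l 144045540885856479) (b (l 16777880) (a (l 16776928) (l 16777144)))))) (b (l 6) (a (a (b (a (b (l 144037294551351519) (a (l 16777944) (l 144040180768702687))) (l 16778112)) (a (a (l 16777320) (l 16777472)) (l 144050626128117983))) (l 144051450762297439)) (l 144046434240757855)))) (b (l 6) (a (a (l 144011181139935327) (a (l 144019633637425247) (b (a (l 144183735758372959) (l 603980556329758789379679)) (a (l 604071637137899861485151) (l 604322397557317831206495))))) (b (b (l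 6) (a (a (a (l 604363326259461378909791) (l 16779504)) (a (l 604410740109265492366879) (l 604402093197980936263199))) (a (l 604597225162635641165343) (l 604604719152415585785375)))) (a (a (l 604449507149008843908703) (a (l 604524302877469269169695) (l 604492309305716427216415))) (a (a (l 604503550290386338453023) (l 604514214814303948953119)) (a (l 604619418901599326279199) (l 604635559802663819302431)))))))))), by decide +kernel⟩

def k38_pm_213_t : ∃ t, chk3 f_pm_213_t t 126 254 1 = true :=
  ⟨(a (a (a (b (b (l 16773784) (b (l 16774200) (l 16773008))) (b (b (b (l 16773336) (l 16773144)) (l 16772920)) (b (l 16772752) (l 16772720)))) (b (b (b (l 16775640) (a (l 16774912) (l 16775008))) (b (l 16773688) (a (l 16773776) (l 16773888)))) (b (b (l 16773432) (l 16773176)) (c (l 144044991121752159) (l 144035576553439327))))) (b (b (b (a (a (l 16775832) (l 16775984)) (a (l 16776168) (l 16776384))) (a (a (l 16775136) (l 16775304)) (l 16775616))) (a (b (l 16774616) (l 16774152)) (l 144044510089166943))) (a (b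 (l 144053306179797087) (l 144060040688091231)) (l 144064919761322079)))) (b (a (a (b (a (l 144036607352373343) (l 144047533750026335)) (l 144022794735861855)) (b (l 144068561910202463) (l 144044166494863455))) (a (l 144083474025971807) (l 144085329453039711))) (a (b (l 144054199536517215) (l 144071173241405535)) (b (a (l 143996062851022943) (b (l 143985892380377183) (l 143973041838112863))) (a (l 144058253987627103) (l 144053718498230367)))))), by decide +kernel⟩

def k39_pm_213_t : ∃ t, chk3 f_pm_213_t t 254 254 1 = true :=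
  ⟨(b (a (b (l 144020801866743903) (a (b (l 144001010666782815) (a (l 16777664) (l 16777936))) (a (b (l 16778424) (l 16778200)) (l 604055207800025901622879)))) (a (b (b (a (l 144004103046824031) (l 604082877935584080979551)) (l 604130435937203751790175)) (l 604194999709412135298655)) (b (a (l 604293286100141787276895) (l 604398778596277795628639)) (l 604360155711785971361375)))) (a (b (a (b (l 603895528168408036042335) (l 144146214920323167)) (l 604083454455572569073247)) (a (l 604112277488308656236127) (l 604306256525342725334623))) (a (b (l 604429330902212980106847) (l 604421548671267925091935)) (b (l 604467809723743529506335) (l 604441580759513717102111))))), by decide +kernel⟩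

def k40_pm_213_t : ∃ t, chk3 f_pm_213_t t 255 254 1 = true :=
  ⟨(a (b (b (a (l 604566672742763568797215) (a (b (l 604516808887689321715231) (c (l 604498073913239464678943) (l 604511044280166291625503))) (b (l 604523149955964663240223) (c (l 604481644781798816110111) (b (l 16779752) (l 604513926583927807596063)))))) (b (a (l 604496344530982552213023) (a (a (l 16780800) (l 16780952)) (a (a (a (b (l 16781200) (l 16780904)) (b (l 16781136) (l 16780920))) (l 16780840)) (l 16780392)))) (a (l 604467809723743531750943) (a (c (l 16779680) (l 604472997870514263348767)) (a (a (l 16780488) (c (c (l 604455704047945160988191) (l 604461180425092043478559)) (c (l 604466368571862774257183) (l 604471844949009656763935)))) (l 16780104)))))) (b (b (a (l 604483374164055723251231) (a (l 604498073913239461238303) (c (a (l 604466656802238925035039) (l 604466080341486621201951)) (a (l 604477609556532690032159) (l 604476456635028082791967))))) (a (l 604497497452487156258335) (a (l 604453974665688248358431) (a (l 604479050708413447558687)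 (a (b (l 604474439022395020531231) (l 16779416)) (c (l 604470980257881199498783) (l 604481068321046509360671))))))) (b (a (l 604488562310826452407839) (a (l 604494038687973335373343) (a (l 604472709640138108933663) (a (l 16779048) (c (b (l 604468097954119681906207) (l 16778976)) (b (l 604477609556532688344607) (l 604472997870514260579871))))))) (a (l 604469250875624287016479) (a (c (l 604470115566752742495775) (l 604481933012174962644511)) (b (l 16778696) (l 16778488))))))) (b (a (b (b (a (l 604534967401386880669215) (l 604547361307561401505311)) (a (a (l 16779400) (l 16778760)) (l 604547073077185249482271))) (a (b (a (l 16779800) (l 16779208)) (l 604524014647093114213919)) (a (l 604519979421826988709407) (l 604549090689818310432287)))) (a (b (b (l 604574454962919659640351) (l 604578490188185783473695)) (l 604592325246241065440799)) (b (l 604608754377681710585375) (l 604555143527717492282911)))) (a (a (a (b (c (l 604473862561642716173855) (l 604483950624808026052127)) (b (b (l 16778872) (l 16778752))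 (a (b (a (l 16778744) (l 16778680)) (a (l 16778544) (l 16778536))) (l 16778480)))) (b (l 604505856133395555161631) (b (l 604495191609477941220895) (a (l 16778296) (l 16778104))))) (b (l 604510467819413981058591) (b (c (l 604491156384211815978527) (l 604500667986624822466079)) (l 604492597536092574275103)))) (b (b (l 604514791275056253785631) (l 604541884930414514673183)) (a (b (l 604530643945744598783519) (l 604445615984779843753503)) (b (l 604433798539357621933599) (l 604392581595567927268895))))))), by decide +kernel⟩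

def k41_pm_213_t : ∃ t, chk3 f_pm_213_t t 63 510 1 = true :=
  ⟨(a (a (a (a (b (b (l 16772832) (l 16773080)) (b (a (l 16773408) (l 16773552)) (l 144052000510492767))) (b (l 144048014779236447) (b (l 144054062094368863) (l 144056467277135967)))) (b (l 144040180755071071) (b (l 144044029046718559) (l 144039699723255903)))) (a (b (a (l 144056261119787103) (l 144047602467045471)) (a (l 144045403440611423) (l 144040386919678047))) (b (a (l 144044578811347039) (a (l 144042585947488351) (l 604199323055446836192863))) (a (l 144035576557191263) (a (l 604170788238655813625439) (l 604235640072190437582431)))))) (a (b (b (a (a (l 604288674470885641709151) (l 604406560779943843423839)) (l 604456568739073610634783)) (a (a (l 604284927471803778623071) (l 604406704883999363913247)) (a (l 604403822580237846992415) (a (l 604461180425092037744159) (l 604436104382366838904351))))) (a (a (l 604311444705579838531167) (b (l 604403678426498141660767) (b (l 604364911479457362859551) (l 604439851377256810403359)))) (a (b (l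 604422269324311556396575) (b (a (l 16776208) (l 16776192)) (a (a (l 604387393448797199210015) (l 16777512)) (l 16777496)))) (b (b (a (l 16776264) (l 16776280)) (a (l 16776216) (l 16776872))) (b (a (l 16776832) (l 16776816)) (a (l 16777472) (l 16777440))))))) (a (b (a (a (b (l 604451957053055183623711) (b (l 16777800) (l 16777696))) (b (c (l 604454839356816700888607) (l 604479915399541899793951)) (b (l 16777848) (l 16777728)))) (a (b (b (l 16778216) (l 16778048)) (b (l 16777896) (l 16777752))) (b (b (l 16778296) (l 16778112)) (l 604456568739073610749471)))) (a (a (b (b (l 16776944) (l 16776864)) (l 604441292529137569142303)) (b (l 604452245283431334467103) (l 604445904215155996481055))) (b (l 604471844949009650882079) (l 604447345367036754974239)))) (a (a (b (a (b (b (a (l 16778352) (l 604480203629918051997215)) (l 604468962645248134977055)) (l 604476168404651927229983)) (b (l 604476744865404230882847) (l 604506432594147856733727))) (b (l 604449651210045966439967) (l 604433077963623403628127))) (b (b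 (l 604455992278321306637855) (l 604438986686128355415583)) (b (l 604427889816096758457951) (a (l 604401372622109276202591) (l 604364767363856972179039))))) (a (b (b (l 604365776170585819551263) (l 604393590396524340504159)) (b (l 604340844239956319970911) (l 604303374292774584362591))) (b (b (l 604363902659946692568671) (l 604301356672376220411487)) (b (l 604253510433508449232479) (l 144112611094020191)))))))), by decide +kernel⟩

def k42_pm_213_t : ∃ t, chk3 f_pm_213_t t 63 1022 1 = true :=
  ⟨(a (a (b (a (b (l 144054474411720799) (a (l 16775016) (l 16775248))) (a (l 144025955830071391) (l 144034064727523423))) (b (a (a (l 16775496) (l 16775680)) (a (l 16775856) (l 16776040))) (a (a (l 16776048) (l 16776160)) (a (l 16776280) (l 16776408))))) (b (a (a (l 144041898748411999) (l 144037775583051871)) (a (l 144032896500744287) (l 604208546505480301602399))) (a (a (a (l 144026711746379871) (l 144031247232008287)) (c (l 144037225826713695) (l 144036195034562655))) (a (l 144079694463664223) (l 604205375927018569639519)))))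 (a (b (a (a (l 604302221375461865743967) (b (l 16777240) (l 604398057972714811889183))) (a (a (b (b (a (l 16777456) (a (l 16777512) (l 16777520))) (l 16777448)) (l 16777368)) (a (b (b (l 16777512) (a (l 16777512) (l 16777512))) (a (l 16777440) (b (l 16777504) (l 16777448)))) (b (l 16776184) (b (l 16777496) (a (l 16777488) (l 16777496)))))) (a (b (l 16777464) (l 604416792947164673709599)) (l 604432069157100712990239)))) (a (a (c (l 604310868240498208040543) (l 604290403884890948150879)) (a (l 604390275752558714164767) (b (l 16777208) (l 604408434266256273544735)))) (b (a (c (l 604408434266256273839647) (l 604412757721898549532191)) (a (a (l 604412757721898549761567) (l 604423710476192314775071)) (l 604392869825944081569311))) (a (l 604417945868669279573535) (a (l 604426016319201527715359) (b (l 604438410225376051353119) (l 604436969073495293138463))))))) (a (b (a (c (l 604430628005219954267679) (l 604442445450642175137311)) (c (l 604425295742573952640607) (l 604416360578923017021023))) (a (b (l 604429763314091500131871)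 (a (l 604411028339641638966815) (l 604413478298663562094175))) (b (l 604394455092944195364447) (a (l 604391861020108586509919) (l 604370531971929762309727))))) (b (a (a (l 604383214108068119438943) (a (l 604377449478279974692447) (a (l 604393590401540862715487) (l 144115016276754527)))) (l 144106495059738719)) (b (a (a (l 604359867447599832000095) (a (l 604342861855269441955423) (l 144114878837784671))) (l 144110068472660063)) (a (a (l 604396760935884690024031) (c (l 604379755332284305122911) (l 144103883720884319))) (a (l 144103952440082527) (l 144110961827184735)))))))), by decide +kernel⟩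

def k43_pm_213_t : ∃ t, chk3 f_pm_213_t t 126 2046 1 = true :=
  ⟨(b (a (a (a (l 16776408) (l 16776488)) (a (l 16776568) (l 16776648))) (a (a (l 16776736) (l 16776816)) (a (l 16776744) (l 604205664158356795369055)))) (a (b (b (a (l 16776576) (l 16776704)) (a (a (a (a (b (b (b (l 16776544) (a (l 16776560) (l 16776568))) (b (a (l 16776576) (l 16776568)) (l 16776600))) (l 16776632)) (b (a (l 16775896) (l 16776584)) (b (a (l 16776624) (a (l 16776440) (l 16776592))) (l 16776640)))) (a (b (l 16776592) (b (l 16776608) (a (b (l 16776616) (l 16776640)) (l 16776616)))) (l 16776616))) (l 16776656)) (l 16776744))) (a (a (a (b (l 16776736) (l 16776864)) (b (b (a (b (l 16776680) (l 16776688)) (b (b (l 16776640) (a (l 16776656) (l 16776656))) (b (a (l 16776672) (l 16776664)) (l 16776696)))) (l 16776736)) (l 16776832))) (a (b (a (b (b (l 16776664) (b (l 16776672) (a (l 16776672) (l 16776680)))) (b (b (a (l 16776704) (l 16776680)) (l 16776392)) (l 16776728))) (b (l 16776680) (b (l 16776696) (b (a (l 16776056) (l 16776712))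 (a (l 16776728) (l 16776392)))))) (b (l 16776792) (l 16776840))) (b (l 16776712) (a (b (b (a (b (l 16776728) (l 16776752)) (l 16776728)) (b (l 16776608) (l 16776776))) (l 16776816)) (a (b (b (l 16776744) (b (l 16776744) (l 16776440))) (l 16776808)) (b (l 16776752) (b (b (a (l 16776784) (l 16776768)) (l 16776800)) (l 16776816)))))))) (a (a (b (l 16776744) (b (l 16776776) (b (b (l 16776784) (a (a (a (l 16776784) (l 16776776)) (l 16776792)) (l 16776800))) (b (a (a (l 16776808) (l 16776456)) (l 16776808)) (a (l 16776824) (l 16776792)))))) (l 16776784)) (l 16776824)))) (b (a (a (l 16776816) (l 16776888)) (a (l 16776952) (l 16777024))) (a (a (l 16776880) (l 16776936)) (a (l 16776992) (l 16777048)))))), by decide +kernel⟩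

def k44_pm_213_t : ∃ t, chk3 f_pm_213_t t 127 2046 1 = true :=
  ⟨(a (b (a (a (l 604397337353962198394463) (l 604374423081870370838047)) (a (l 604383646453907226121759) (a (l 604391140443687171102239) (a (l 16777200) (l 604394310977824839751199))))) (a (a (c (l 604390708054829672031839) (l 604372261311718035170911)) (c (l 604382637603266632083039) (l 604394166819206054094431))) (a (c (l 604390419846306314528351) (l 604390131616686077060703)) (a (l 604393878611438610458207) (l 604391860999011706971743))))) (a (a (b (b (a (a (l 604400075585347874330143) (l 16777376)) (l 604403822580237846402591)) (a (a (l 604398634433467115755039) (l 604404975501742453052959)) (l 604398202089620874651231))) (b (a (l 604399931472358821307999) (a (a (l 604397337399042175395423) (l 604393878634459635361375)) (l 604388402257106594686559))) (a (l 16777320) (a (l 16777336) (b (l 604384078801739196606047) (l 604379755346165640734303)))))) (b (a (a (l 604386096413272746796639) (l 604376584810584862320223)) (c (l 604413190067806373766751)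 (l 604405984308814897849951))) (b (a (a (l 16777296) (l 604371973125116191139423)) (l 604406849000149511644767)) (b (a (l 16777296) (l 604405984309295934613087)) (a (a (l 604375143660009774196319) (l 16777296)) (l 604405696079057221723743)))))) (a (a (b (c (l 604393878632191892072031) (l 144115428593434719)) (b (l 144115634752258143) (c (l 144115772190933087) (l 144116047069003871)))) (b (c (l 144114810117980255) (l 144114947556933727)) (b (l 144115084996280415) (c (l 144115222434955359) (l 144115359873908831))))) (a (a (b (b (l 144114810118176863) (l 144114810117537887)) (b (l 144109243840315487) (l 144114947556933727))) (b (l 144115566032371807) (b (l 144115359874023519) (l 144109449998712927)))) (b (l 144114054203129951) (a (l 144113435728003167) (l 144114466520481887))))))), by decide +kernel⟩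

def k45_pm_213_t : ∃ t, chk3 f_pm_213_t t 63 2047 1 = true :=
  ⟨(b (b (b (a (b (a (b (b (a (l 16776896) (a (a (a (l 16776824) (a (l 16776824) (l 16776808))) (l 16776832)) (l 16776864))) (l 14)) (l 14)) (a (l 16776616) (a (l 16777016) (l 16777064)))) (l 14)) (b (a (a (a (l 16777112) (l 16777160)) (a (l 16777216) (l 16777264))) (a (a (c (l 16777312) (l 16777312)) (a (a (l 604420684059510464308831) (l 16777304)) (l 16777248))) (a (a (l 144116115788693599) (l 144115497313239135)) (a (a (l 16776944) (l 144115016276705375)) (l 144115153715691615))))) (l 14))) (l 14)) (l 14)) (l 14)), by decide +kernel⟩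

theorem s46_pm_213_t : ∃ t, chk3 f_pm_213_t t 63 2046 1 = true := ex3_a k43_pm_213_t k44_pm_213_t

theorem s47_pm_213_t : ∃ t, chk3 f_pm_213_t t 63 1023 1 = true := ex3_b s46_pm_213_t k45_pm_213_t

theorem s48_pm_213_t : ∃ t, chk3 f_pm_213_t t 63 511 1 = true := ex3_b k42_pm_213_t s47_pm_213_t

theorem s49_pm_213_t : ∃ t, chk3 f_pm_213_t t 63 255 1 = true := ex3_b k41_pm_213_t s48_pm_213_t

theorem s50_pm_213_t : ∃ t, chk3 f_pm_213_t t 127 254 1 = true := ex3_a k39_pm_213_t k40_pm_213_t

theorem s51_pm_213_t : ∃ t, chk3 f_pm_213_t t 63 254 1 = true := ex3_a k38_pm_213_t s50_pm_213_t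

theorem s52_pm_213_t : ∃ t, chk3 f_pm_213_t t 63 127 1 = true := ex3_b s51_pm_213_t s49_pm_213_t

theorem s53_pm_213_t : ∃ t, chk3 f_pm_213_t t 63 63 1 = true := ex3_b k37_pm_213_t s52_pm_213_t

theorem s54_pm_213_t : ∃ t, chk3 f_pm_213_t t 63 31 1 = true := ex3_b k36_pm_213_t s53_pm_213_t

theorem s55_pm_213_t : ∃ t, chk3 f_pm_213_t t 251 2046 1 = true := ex3_b k33_pm_213_t k34_pm_213_t

theorem s56_pm_213_t : ∃ t, chk3 f_pm_213_t t 250 4093 1 = true := ex3_b k31_pm_213_t k32_pm_213_t

theorem s57_pm_213_t : ∃ t, chk3 f_pm_213_t t 250 2046 1 = true := ex3_b k30_pm_213_t s56_pm_213_t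

theorem s58_pm_213_t : ∃ t, chk3 f_pm_213_t t 125 2046 1 = true := ex3_a s57_pm_213_t s55_pm_213_t

theorem s59_pm_213_t : ∃ t, chk3 f_pm_213_t t 62 2046 1 = true := ex3_a k29_pm_213_t s58_pm_213_t

theorem s60_pm_213_t : ∃ t, chk3 f_pm_213_t t 62 1023 1 = true := ex3_b s59_pm_213_t k35_pm_213_t

theorem s61_pm_213_t : ∃ t, chk3 f_pm_213_t t 250 2045 1 = true := ex3_b k26_pm_213_t k27_pm_213_t

theorem s62_pm_213_t : ∃ t, chk3 f_pm_213_t t 125 2045 1 = true := ex3_a s61_pm_213_t k28_pm_213_t

theorem s63_pm_213_t : ∃ t, chk3 f_pm_213_t t 125 1022 1 = true := ex3_b k25_pm_213_t s62_pm_213_t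

theorem s64_pm_213_t : ∃ t, chk3 f_pm_213_t t 124 1022 1 = true := ex3_b k23_pm_213_t k24_pm_213_t

theorem s65_pm_213_t : ∃ t, chk3 f_pm_213_t t 62 1022 1 = true := ex3_a s64_pm_213_t s63_pm_213_t

theorem s66_pm_213_t : ∃ t, chk3 f_pm_213_t t 62 511 1 = true := ex3_b s65_pm_213_t s60_pm_213_t

theorem s67_pm_213_t : ∃ t, chk3 f_pm_213_t t 62 510 1 = true := ex3_a k21_pm_213_t k22_pm_213_t

theorem s68_pm_213_t : ∃ t, chk3 f_pm_213_t t 62 255 1 = true := ex3_b s67_pm_213_t s66_pm_213_t

theorem s69_pm_213_t : ∃ t, chk3 f_pm_213_t t 62 127 1 = true := ex3_b k20_pm_213_t s68_pm_213_t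

theorem s70_pm_213_t : ∃ t, chk3 f_pm_213_t t 62 63 1 = true := ex3_b k19_pm_213_t s69_pm_213_t

theorem s71_pm_213_t : ∃ t, chk3 f_pm_213_t t 62 31 1 = true := ex3_b k18_pm_213_t s70_pm_213_t

theorem s72_pm_213_t : ∃ t, chk3 f_pm_213_t t 31 31 1 = true := ex3_a s71_pm_213_t s54_pm_213_t

theorem s73_pm_213_t : ∃ t, chk3 f_pm_213_t t 61 510 1 = true := ex3_a k15_pm_213_t k16_pm_213_t

theorem s74_pm_213_t : ∃ t, chk3 f_pm_213_t t 30 510 1 = true := ex3_a k14_pm_213_t s73_pm_213_t

theorem s75_pm_213_t : ∃ t, chk3 f_pm_213_t t 30 255 1 = true := ex3_b s74_pm_213_t k17_pm_213_t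

theorem s76_pm_213_t : ∃ t, chk3 f_pm_213_t t 30 254 1 = true := ex3_a k12_pm_213_t k13_pm_213_t

theorem s77_pm_213_t : ∃ t, chk3 f_pm_213_t t 30 127 1 = true := ex3_b s76_pm_213_t s75_pm_213_t

theorem s78_pm_213_t : ∃ t, chk3 f_pm_213_t t 30 63 1 = true := ex3_b k11_pm_213_t s77_pm_213_t

theorem s79_pm_213_t : ∃ t, chk3 f_pm_213_t t 30 31 1 = true := ex3_b k10_pm_213_t s78_pm_213_t

theorem s80_pm_213_t : ∃ t, chk3 f_pm_213_t t 15 31 1 = true := ex3_a s79_pm_213_t s72_pm_213_t

theorem s81_pm_213_t : ∃ t, chk3 f_pm_213_t t 15 15 1 = true := ex3_b k9_pm_213_t s80_pm_213_t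

theorem s82_pm_213_t : ∃ t, chk3 f_pm_213_t t 15 7 1 = true := ex3_b k8_pm_213_t s81_pm_213_t

theorem s83_pm_213_t : ∃ t, chk3 f_pm_213_t t 14 31 1 = true := ex3_b k6_pm_213_t k7_pm_213_t

theorem s84_pm_213_t : ∃ t, chk3 f_pm_213_t t 14 15 1 = true := ex3_b k5_pm_213_t s83_pm_213_t

theorem s85_pm_213_t : ∃ t, chk3 f_pm_213_t t 14 7 1 = true := ex3_b k4_pm_213_t s84_pm_213_t

theorem s86_pm_213_t : ∃ t, chk3 f_pm_213_t t 7 7 1 = true := ex3_a s85_pm_213_t s82_pm_213_t

theorem s87_pm_213_t : ∃ t, chk3 f_pm_213_t t 7 3 1 = true := ex3_b k3_pm_213_t s86_pm_213_t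

theorem s88_pm_213_t : ∃ t, chk3 f_pm_213_t t 3 3 1 = true := ex3_a k2_pm_213_t s87_pm_213_t

theorem s89_pm_213_t : ∃ t, chk3 f_pm_213_t t 3 1 1 = true := ex3_b k1_pm_213_t s88_pm_213_t

theorem s90_pm_213_t : ∃ t, chk3 f_pm_213_t t 1 1 1 = true := ex3_a k0_pm_213_t s89_pm_213_t

theorem c_pm_213_t : CertNE 0 536870912 536870912 536870912 1045395039 1503240 3 eng mog cd0q2 cd0q1 pd3 true true false .pnn 2 1 3
    ndB0q2 ndB0q1 pcB3 cut_pm_213_t xt_pm_213_t :=
  certNE1 (fam := true) (s1 := true) (s2 := false) (a := 2) (b := 1) (c := 3) (cn := .pnn) (n1 := ndB0q2) (n2 := ndB0q1) (pc := pcB3) (cut := cut_pm_213_t) (xt := xt_pm_213_t) (P1 := 0) (W1 := 536870912) (P2 := 536870912) (W2 := 536870912) (P3 := 1045395039) (W3 := 1503240) (N0 := 3) (En := eng) (mo := mog) (C1 := cd0q2) (C2 := cd0q1) (C3 := pd3)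
    rfl (fun _ => rfl) s90_pm_213_t

noncomputable def cut_mm_001_s : Cut := Cut.of [[⟨4, 0, 0, 1449551462⟩]]

noncomputable def f_mm_001_s : ℕ → ℕ → ℕ → ℕ → Bool := onCell 0 536870912 0 536870912 1045395039 1503240
    (rowNE 3 eng mog cd0q0 cd0q0 pd1 0 true false false .up 0 0 1 (qsf 0 536870912 0 536870912 1) ndB0q0 ndB0q0 pcB1 cut_mm_001_s Ext.none)

def k0_mm_001_s : ∃ t, chk3 f_mm_001_s t 1 1 1 = true :=
  ⟨(l 4), by decide +kernel⟩

theorem c_mm_001_s : CertNE 0 536870912 0 536870912 1045395039 1503240 3 eng mog cd0q0 cd0q0 pd1 true false false .up 0 0 1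
    ndB0q0 ndB0q0 pcB1 cut_mm_001_s Ext.none :=
  certNE0 (fam := true) (s1 := false) (s2 := false) (a := 0) (b := 0) (c := 1) (cn := .up) (n1 := ndB0q0) (n2 := ndB0q0) (pc := pcB1) (cut := cut_mm_001_s) (xt := Ext.none) (P1 := 0) (W1 := 536870912) (P2 := 0) (W2 := 536870912) (P3 := 1045395039) (W3 := 1503240) (N0 := 3) (En := eng) (mo := mog) (C1 := cd0q0) (C2 := cd0q0) (C3 := pd1)
    rfl k0_mm_001_s

noncomputable def cut_mm_001_t : Cut := Cut.of [[⟨3, 0, 0, 2845415833⟩]]

noncomputable def f_mm_001_t : ℕ → ℕ → ℕ → ℕ → Bool := onCell 0 536870912 0 536870912 1045395039 1503240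
    (rowNE 3 eng mog cd0q0 cd0q0 pd1 0 true false false .up 0 0 1 (qsf 0 536870912 0 536870912 1) ndB0q0 ndB0q0 pcB1 cut_mm_001_t Ext.none)

def k0_mm_001_t : ∃ t, chk3 f_mm_001_t t 1 1 1 = true :=
  ⟨(l 4), by decide +kernel⟩

theorem c_mm_001_t : CertNE 0 536870912 0 536870912 1045395039 1503240 3 eng mog cd0q0 cd0q0 pd1 true false false .up 0 0 1
    ndB0q0 ndB0q0 pcB1 cut_mm_001_t Ext.none :=
  certNE0 (fam := true) (s1 := false) (s2 := false) (a := 0) (b := 0) (c := 1) (cn := .up) (n1 := ndB0q0) (n2 := ndB0q0) (pc := pcB1) (cut := cut_mm_001_t) (xt := Ext.none) (P1 := 0) (W1 := 536870912) (P2 := 0) (W2 := 536870912) (P3 := 1045395039) (W3 := 1503240) (N0 := 3) (En := eng) (mo := mog) (C1 := cd0q0) (C2 := cd0q0) (C3 := pd1)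
    rfl k0_mm_001_t

noncomputable def cut_mm_011_s : Cut := Cut.of [[⟨4, 0, 0, 1449551462⟩]]

noncomputable def f_mm_011_s : ℕ → ℕ → ℕ → ℕ → Bool := onCell 0 536870912 536870912 536870912 1045395039 1503240
    (rowNE 3 eng mog cd0q0 cd0q1 pd1 0 true false false .pnn 0 1 1 (qsf 0 536870912 536870912 536870912 1) ndB0q0 ndB0q1 pcB1 cut_mm_011_s Ext.none)

def k0_mm_011_s : ∃ t, chk3 f_mm_011_s t 1 1 1 = true :=
  ⟨(l 6), by decide +kernel⟩

theorem c_mm_011_s : CertNE 0 536870912 536870912 536870912 1045395039 1503240 3 eng mog cd0q0 cd0q1 pd1 true false false .pnn 0 1 1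
    ndB0q0 ndB0q1 pcB1 cut_mm_011_s Ext.none :=
  certNE0 (fam := true) (s1 := false) (s2 := false) (a := 0) (b := 1) (c := 1) (cn := .pnn) (n1 := ndB0q0) (n2 := ndB0q1) (pc := pcB1) (cut := cut_mm_011_s) (xt := Ext.none) (P1 := 0) (W1 := 536870912) (P2 := 536870912) (W2 := 536870912) (P3 := 1045395039) (W3 := 1503240) (N0 := 3) (En := eng) (mo := mog) (C1 := cd0q0) (C2 := cd0q1) (C3 := pd1)
    rfl k0_mm_011_s

noncomputable def cut_mm_011_t : Cut := Cut.of [[⟨3, 0, 0, 2845415833⟩]]

noncomputable def f_mm_011_t : ℕ → ℕ → ℕ → ℕ → Bool := onCell 0 536870912 536870912 536870912 1045395039 1503240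
    (rowNE 3 eng mog cd0q0 cd0q1 pd1 0 true false false .pnn 0 1 1 (qsf 0 536870912 536870912 536870912 1) ndB0q0 ndB0q1 pcB1 cut_mm_011_t Ext.none)

def k0_mm_011_t : ∃ t, chk3 f_mm_011_t t 1 1 1 = true :=
  ⟨(a (l 5) (l 4)), by decide +kernel⟩

theorem c_mm_011_t : CertNE 0 536870912 536870912 536870912 1045395039 1503240 3 eng mog cd0q0 cd0q1 pd1 true false false .pnn 0 1 1
    ndB0q0 ndB0q1 pcB1 cut_mm_011_t Ext.none :=
  certNE0 (fam := true) (s1 := false) (s2 := false) (a := 0) (b := 1) (c := 1) (cn := .pnn) (n1 := ndB0q0) (n2 := ndB0q1) (pc := pcB1) (cut := cut_mm_011_t) (xt := Ext.none) (P1 := 0) (W1 := 536870912) (P2 := 536870912) (W2 := 536870912) (P3 := 1045395039) (W3 := 1503240) (N0 := 3) (En := eng) (mo := mog) (C1 := cd0q0) (C2 := cd0q1) (C3 := pd1)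
    rfl k0_mm_011_t

noncomputable def cut_mm_012_s : Cut := Cut.of [[⟨4, 0, 0, 1449551462⟩]]

noncomputable def f_mm_012_s : ℕ → ℕ → ℕ → ℕ → Bool := onCell 0 536870912 536870912 536870912 1045395039 1503240
    (rowNE 3 eng mog cd0q0 cd0q1 pd2 0 true false false .pnp 0 1 2 (qsf 0 536870912 536870912 536870912 2) ndB0q0 ndB0q1 pcB2 cut_mm_012_s Ext.none)

def k0_mm_012_s : ∃ t, chk3 f_mm_012_s t 1 1 1 = true :=
  ⟨(l 6), by decide +kernel⟩

theorem c_mm_012_s : CertNE 0 536870912 536870912 536870912 1045395039 1503240 3 eng mog cd0q0 cd0q1 pd2 true false false .pnp 0 1 2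
    ndB0q0 ndB0q1 pcB2 cut_mm_012_s Ext.none :=
  certNE0 (fam := true) (s1 := false) (s2 := false) (a := 0) (b := 1) (c := 2) (cn := .pnp) (n1 := ndB0q0) (n2 := ndB0q1) (pc := pcB2) (cut := cut_mm_012_s) (xt := Ext.none) (P1 := 0) (W1 := 536870912) (P2 := 536870912) (W2 := 536870912) (P3 := 1045395039) (W3 := 1503240) (N0 := 3) (En := eng) (mo := mog) (C1 := cd0q0) (C2 := cd0q1) (C3 := pd2)
    rfl k0_mm_012_s

noncomputable def cut_mm_012_t : Cut := Cut.of [[⟨3, 0, 0, 2845415833⟩]]

noncomputable def f_mm_012_t : ℕ → ℕ → ℕ → ℕ → Bool := onCell 0 536870912 536870912 536870912 1045395039 1503240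
    (rowNE 3 eng mog cd0q0 cd0q1 pd2 0 true false false .pnp 0 1 2 (qsf 0 536870912 536870912 536870912 2) ndB0q0 ndB0q1 pcB2 cut_mm_012_t Ext.none)

def k0_mm_012_t : ∃ t, chk3 f_mm_012_t t 1 1 1 = true :=
  ⟨(a (l 5) (l 4)), by decide +kernel⟩

theorem c_mm_012_t : CertNE 0 536870912 536870912 536870912 1045395039 1503240 3 eng mog cd0q0 cd0q1 pd2 true false false .pnp 0 1 2
    ndB0q0 ndB0q1 pcB2 cut_mm_012_t Ext.none :=
  certNE0 (fam := true) (s1 := false) (s2 := false) (a := 0) (b := 1) (c := 2) (cn := .pnp) (n1 := ndB0q0) (n2 := ndB0q1) (pc := pcB2) (cut := cut_mm_012_t) (xt := Ext.none) (P1 := 0) (W1 := 536870912) (P2 := 536870912) (W2 := 536870912) (P3 := 1045395039) (W3 := 1503240) (N0 := 3) (En := eng) (mo := mog) (C1 := cd0q0) (C2 := cd0q1) (C3 := pd2)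
    rfl k0_mm_012_t

noncomputable def cut_mm_022_s : Cut := Cut.of [[⟨4, 0, 0, 1449551462⟩]]

noncomputable def f_mm_022_s : ℕ → ℕ → ℕ → ℕ → Bool := onCell 0 536870912 0 536870912 1045395039 1503240
    (rowNE 3 eng mog cd0q0 cd0q2 pd2 0 true false false .pp 0 2 2 (qsf 0 536870912 0 536870912 2) ndB0q0 ndB0q2 pcB2 cut_mm_022_s Ext.none)

def k0_mm_022_s : ∃ t, chk3 f_mm_022_s t 1 1 1 = true :=
  ⟨(l 5), by decide +kernel⟩

theorem c_mm_022_s : CertNE 0 536870912 0 536870912 1045395039 1503240 3 eng mog cd0q0 cd0q2 pd2 true false false .pp 0 2 2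
    ndB0q0 ndB0q2 pcB2 cut_mm_022_s Ext.none :=
  certNE0 (fam := true) (s1 := false) (s2 := false) (a := 0) (b := 2) (c := 2) (cn := .pp) (n1 := ndB0q0) (n2 := ndB0q2) (pc := pcB2) (cut := cut_mm_022_s) (xt := Ext.none) (P1 := 0) (W1 := 536870912) (P2 := 0) (W2 := 536870912) (P3 := 1045395039) (W3 := 1503240) (N0 := 3) (En := eng) (mo := mog) (C1 := cd0q0) (C2 := cd0q2) (C3 := pd2)
    rfl k0_mm_022_s

noncomputable def cut_mm_022_t : Cut := Cut.of [[⟨3, 0, 0, 2845415833⟩]]

noncomputable def f_mm_022_t : ℕ → ℕ → ℕ → ℕ → Bool := onCell 0 536870912 0 536870912 1045395039 1503240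
    (rowNE 3 eng mog cd0q0 cd0q2 pd2 0 true false false .pp 0 2 2 (qsf 0 536870912 0 536870912 2) ndB0q0 ndB0q2 pcB2 cut_mm_022_t Ext.none)

def k0_mm_022_t : ∃ t, chk3 f_mm_022_t t 1 1 1 = true :=
  ⟨(l 5), by decide +kernel⟩

theorem c_mm_022_t : CertNE 0 536870912 0 536870912 1045395039 1503240 3 eng mog cd0q0 cd0q2 pd2 true false false .pp 0 2 2
    ndB0q0 ndB0q2 pcB2 cut_mm_022_t Ext.none :=
  certNE0 (fam := true) (s1 := false) (s2 := false) (a := 0) (b := 2) (c := 2) (cn := .pp) (n1 := ndB0q0) (n2 := ndB0q2) (pc := pcB2) (cut := cut_mm_022_t) (xt := Ext.none) (P1 := 0) (W1 := 536870912) (P2 := 0) (W2 := 536870912) (P3 := 1045395039) (W3 := 1503240) (N0 := 3) (En := eng) (mo := mog) (C1 := cd0q0) (C2 := cd0q2) (C3 := pd2)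
    rfl k0_mm_022_t

noncomputable def cut_mm_023_s : Cut := Cut.of [[⟨4, 0, 0, 1449551462⟩]]

noncomputable def f_mm_023_s : ℕ → ℕ → ℕ → ℕ → Bool := onCell 0 536870912 0 536870912 1045395039 1503240
    (rowNE 3 eng mog cd0q0 cd0q2 pd3 0 true false false .up 0 2 3 (qsf 0 536870912 0 536870912 3) ndB0q0 ndB0q2 pcB3 cut_mm_023_s Ext.none)

def k0_mm_023_s : ∃ t, chk3 f_mm_023_s t 1 1 1 = true :=
  ⟨(l 5), by decide +kernel⟩

theorem c_mm_023_s : CertNE 0 536870912 0 536870912 1045395039 1503240 3 eng mog cd0q0 cd0q2 pd3 true false false .up 0 2 3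
    ndB0q0 ndB0q2 pcB3 cut_mm_023_s Ext.none :=
  certNE0 (fam := true) (s1 := false) (s2 := false) (a := 0) (b := 2) (c := 3) (cn := .up) (n1 := ndB0q0) (n2 := ndB0q2) (pc := pcB3) (cut := cut_mm_023_s) (xt := Ext.none) (P1 := 0) (W1 := 536870912) (P2 := 0) (W2 := 536870912) (P3 := 1045395039) (W3 := 1503240) (N0 := 3) (En := eng) (mo := mog) (C1 := cd0q0) (C2 := cd0q2) (C3 := pd3)
    rfl k0_mm_023_s

noncomputable def cut_mm_023_t : Cut := Cut.of [[⟨3, 0, 0, 2845415833⟩]]

noncomputable def f_mm_023_t : ℕ → ℕ → ℕ → ℕ → Bool := onCell 0 536870912 0 536870912 1045395039 1503240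
    (rowNE 3 eng mog cd0q0 cd0q2 pd3 0 true false false .up 0 2 3 (qsf 0 536870912 0 536870912 3) ndB0q0 ndB0q2 pcB3 cut_mm_023_t Ext.none)

def k0_mm_023_t : ∃ t, chk3 f_mm_023_t t 1 1 1 = true :=
  ⟨(l 5), by decide +kernel⟩

theorem c_mm_023_t : CertNE 0 536870912 0 536870912 1045395039 1503240 3 eng mog cd0q0 cd0q2 pd3 true false false .up 0 2 3
    ndB0q0 ndB0q2 pcB3 cut_mm_023_t Ext.none :=
  certNE0 (fam := true) (s1 := false) (s2 := false) (a := 0) (b := 2) (c := 3) (cn := .up) (n1 := ndB0q0) (n2 := ndB0q2) (pc := pcB3) (cut := cut_mm_023_t) (xt := Ext.none) (P1 := 0) (W1 := 536870912) (P2 := 0) (W2 := 536870912) (P3 := 1045395039) (W3 := 1503240) (N0 := 3) (En := eng) (mo := mog) (C1 := cd0q0) (C2 := cd0q2) (C3 := pd3)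
    rfl k0_mm_023_t

noncomputable def cut_mm_101_s : Cut := Cut.of [[⟨4, 0, 0, 1449551462⟩], [⟨0, 1, 0, 26843545⟩, ⟨1, 0, 0, 26843545⟩, ⟨2, 1, 0, 26843545⟩]]

noncomputable def f_mm_101_s : ℕ → ℕ → ℕ → ℕ → Bool := onCell 536870912 536870912 0 536870912 1045395039 1503240
    (rowNE 3 eng mog cd0q1 cd0q0 pd1 0 true false false .npn 1 0 1 (qsf 536870912 536870912 0 536870912 1) ndB0q1 ndB0q0 pcB1 cut_mm_101_s Ext.none)

def k0_mm_101_s : ∃ t, chk3 f_mm_101_s t 1 1 1 = true :=
  ⟨(l 6), by decide +kernel⟩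

theorem c_mm_101_s : CertNE 536870912 536870912 0 536870912 1045395039 1503240 3 eng mog cd0q1 cd0q0 pd1 true false false .npn 1 0 1
    ndB0q1 ndB0q0 pcB1 cut_mm_101_s Ext.none :=
  certNE0 (fam := true) (s1 := false) (s2 := false) (a := 1) (b := 0) (c := 1) (cn := .npn) (n1 := ndB0q1) (n2 := ndB0q0) (pc := pcB1) (cut := cut_mm_101_s) (xt := Ext.none) (P1 := 536870912) (W1 := 536870912) (P2 := 0) (W2 := 536870912) (P3 := 1045395039) (W3 := 1503240) (N0 := 3) (En := eng) (mo := mog) (C1 := cd0q1) (C2 := cd0q0) (C3 := pd1)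
    rfl k0_mm_101_s

noncomputable def cut_mm_101_t : Cut := Cut.of [[⟨3, 0, 0, 2845415833⟩], [⟨0, 1, 0, 26843545⟩, ⟨1, 0, 0, 26843545⟩, ⟨2, 1, 0, 26843545⟩]]

noncomputable def f_mm_101_t : ℕ → ℕ → ℕ → ℕ → Bool := onCell 536870912 536870912 0 536870912 1045395039 1503240
    (rowNE 3 eng mog cd0q1 cd0q0 pd1 0 true false false .npn 1 0 1 (qsf 536870912 536870912 0 536870912 1) ndB0q1 ndB0q0 pcB1 cut_mm_101_t Ext.none)

def k0_mm_101_t : ∃ t, chk3 f_mm_101_t t 1 1 1 = true :=
  ⟨(a (l 4) (b (a (l 4) (b (a (l 4) (b (a (l 4) (b (a (l 4) (b (l 14) (l 4))) (l 4))) (l 4))) (l 4))) (l 4))), by decide +kernel⟩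

theorem c_mm_101_t : CertNE 536870912 536870912 0 536870912 1045395039 1503240 3 eng mog cd0q1 cd0q0 pd1 true false false .npn 1 0 1
    ndB0q1 ndB0q0 pcB1 cut_mm_101_t Ext.none :=
  certNE0 (fam := true) (s1 := false) (s2 := false) (a := 1) (b := 0) (c := 1) (cn := .npn) (n1 := ndB0q1) (n2 := ndB0q0) (pc := pcB1) (cut := cut_mm_101_t) (xt := Ext.none) (P1 := 536870912) (W1 := 536870912) (P2 := 0) (W2 := 536870912) (P3 := 1045395039) (W3 := 1503240) (N0 := 3) (En := eng) (mo := mog) (C1 := cd0q1) (C2 := cd0q0) (C3 := pd1)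
    rfl k0_mm_101_t

noncomputable def cut_mm_102_s : Cut := Cut.of [[⟨4, 0, 0, 1449551462⟩], [⟨0, 1, 0, 26843545⟩, ⟨1, 0, 0, 26843545⟩, ⟨2, 1, 0, 26843545⟩]]

noncomputable def f_mm_102_s : ℕ → ℕ → ℕ → ℕ → Bool := onCell 536870912 536870912 0 536870912 1045395039 1503240
    (rowNE 3 eng mog cd0q1 cd0q0 pd2 0 true false false .npp 1 0 2 (qsf 536870912 536870912 0 536870912 2) ndB0q1 ndB0q0 pcB2 cut_mm_102_s Ext.none)

def k0_mm_102_s : ∃ t, chk3 f_mm_102_s t 1 1 1 = true :=
  ⟨(l 6), by decide +kernel⟩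

theorem c_mm_102_s : CertNE 536870912 536870912 0 536870912 1045395039 1503240 3 eng mog cd0q1 cd0q0 pd2 true false false .npp 1 0 2
    ndB0q1 ndB0q0 pcB2 cut_mm_102_s Ext.none :=
  certNE0 (fam := true) (s1 := false) (s2 := false) (a := 1) (b := 0) (c := 2) (cn := .npp) (n1 := ndB0q1) (n2 := ndB0q0) (pc := pcB2) (cut := cut_mm_102_s) (xt := Ext.none) (P1 := 536870912) (W1 := 536870912) (P2 := 0) (W2 := 536870912) (P3 := 1045395039) (W3 := 1503240) (N0 := 3) (En := eng) (mo := mog) (C1 := cd0q1) (C2 := cd0q0) (C3 := pd2)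
    rfl k0_mm_102_s

noncomputable def cut_mm_102_t : Cut := Cut.of [[⟨3, 0, 0, 2845415833⟩], [⟨0, 1, 0, 26843545⟩, ⟨1, 0, 0, 26843545⟩, ⟨2, 1, 0, 26843545⟩]]

noncomputable def f_mm_102_t : ℕ → ℕ → ℕ → ℕ → Bool := onCell 536870912 536870912 0 536870912 1045395039 1503240
    (rowNE 3 eng mog cd0q1 cd0q0 pd2 0 true false false .npp 1 0 2 (qsf 536870912 536870912 0 536870912 2) ndB0q1 ndB0q0 pcB2 cut_mm_102_t Ext.none)

def k0_mm_102_t : ∃ t, chk3 f_mm_102_t t 1 1 1 = true :=
  ⟨(a (l 4) (b (a (l 4) (b (a (l 4) (b (a (l 4) (b (a (l 4) (b (l 14) (l 4))) (l 4))) (l 4))) (l 4))) (l 4))), by decide +kernel⟩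

theorem c_mm_102_t : CertNE 536870912 536870912 0 536870912 1045395039 1503240 3 eng mog cd0q1 cd0q0 pd2 true false false .npp 1 0 2
    ndB0q1 ndB0q0 pcB2 cut_mm_102_t Ext.none :=
  certNE0 (fam := true) (s1 := false) (s2 := false) (a := 1) (b := 0) (c := 2) (cn := .npp) (n1 := ndB0q1) (n2 := ndB0q0) (pc := pcB2) (cut := cut_mm_102_t) (xt := Ext.none) (P1 := 536870912) (W1 := 536870912) (P2 := 0) (W2 := 536870912) (P3 := 1045395039) (W3 := 1503240) (N0 := 3) (En := eng) (mo := mog) (C1 := cd0q1) (C2 := cd0q0) (C3 := pd2)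
    rfl k0_mm_102_t

noncomputable def cut_mm_112_s : Cut := Cut.of [[⟨4, 0, 0, 1449551462⟩]]

noncomputable def f_mm_112_s : ℕ → ℕ → ℕ → ℕ → Bool := onCell 536870912 536870912 536870912 536870912 1045395039 1503240
    (rowNE 3 eng mog cd0q1 cd0q1 pd2 0 true false false .dn 1 1 2 (qsf 536870912 536870912 536870912 536870912 2) ndB0q1 ndB0q1 pcB2 cut_mm_112_s Ext.none)

def k0_mm_112_s : ∃ t, chk3 f_mm_112_s t 1 1 1 = true :=
  ⟨(l 4), by decide +kernel⟩

theorem c_mm_112_s : CertNE 536870912 536870912 536870912 536870912 1045395039 1503240 3 eng mog cd0q1 cd0q1 pd2 true false false .dn 1 1 2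
    ndB0q1 ndB0q1 pcB2 cut_mm_112_s Ext.none :=
  certNE0 (fam := true) (s1 := false) (s2 := false) (a := 1) (b := 1) (c := 2) (cn := .dn) (n1 := ndB0q1) (n2 := ndB0q1) (pc := pcB2) (cut := cut_mm_112_s) (xt := Ext.none) (P1 := 536870912) (W1 := 536870912) (P2 := 536870912) (W2 := 536870912) (P3 := 1045395039) (W3 := 1503240) (N0 := 3) (En := eng) (mo := mog) (C1 := cd0q1) (C2 := cd0q1) (C3 := pd2)
    rfl k0_mm_112_s

noncomputable def cut_mm_112_t : Cut := Cut.of [[⟨3, 0, 0, 2845415833⟩]]

noncomputable def f_mm_112_t : ℕ → ℕ → ℕ → ℕ → Bool := onCell 536870912 536870912 536870912 536870912 1045395039 1503240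
    (rowNE 3 eng mog cd0q1 cd0q1 pd2 0 true false false .dn 1 1 2 (qsf 536870912 536870912 536870912 536870912 2) ndB0q1 ndB0q1 pcB2 cut_mm_112_t Ext.none)

def k0_mm_112_t : ∃ t, chk3 f_mm_112_t t 1 1 1 = true :=
  ⟨(l 4), by decide +kernel⟩

theorem c_mm_112_t : CertNE 536870912 536870912 536870912 536870912 1045395039 1503240 3 eng mog cd0q1 cd0q1 pd2 true false false .dn 1 1 2
    ndB0q1 ndB0q1 pcB2 cut_mm_112_t Ext.none :=
  certNE0 (fam := true) (s1 := false) (s2 := false) (a := 1) (b := 1) (c := 2) (cn := .dn) (n1 := ndB0q1) (n2 := ndB0q1) (pc := pcB2) (cut := cut_mm_112_t) (xt := Ext.none) (P1 := 536870912) (W1 := 536870912) (P2 := 536870912) (W2 := 536870912) (P3 := 1045395039) (W3 := 1503240) (N0 := 3) (En := eng) (mo := mog) (C1 := cd0q1) (C2 := cd0q1) (C3 := pd2)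
    rfl k0_mm_112_t

noncomputable def cut_mm_113_s : Cut := Cut.of [[⟨4, 0, 0, 1449551462⟩]]

noncomputable def f_mm_113_s : ℕ → ℕ → ℕ → ℕ → Bool := onCell 536870912 536870912 536870912 536870912 1045395039 1503240
    (rowNE 3 eng mog cd0q1 cd0q1 pd3 0 true false false .nn 1 1 3 (qsf 536870912 536870912 536870912 536870912 3) ndB0q1 ndB0q1 pcB3 cut_mm_113_s Ext.none)

def k0_mm_113_s : ∃ t, chk3 f_mm_113_s t 1 1 1 = true :=
  ⟨(l 4), by decide +kernel⟩

theorem c_mm_113_s : CertNE 536870912 536870912 536870912 536870912 1045395039 1503240 3 eng mog cd0q1 cd0q1 pd3 true false false .nn 1 1 3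
    ndB0q1 ndB0q1 pcB3 cut_mm_113_s Ext.none :=
  certNE0 (fam := true) (s1 := false) (s2 := false) (a := 1) (b := 1) (c := 3) (cn := .nn) (n1 := ndB0q1) (n2 := ndB0q1) (pc := pcB3) (cut := cut_mm_113_s) (xt := Ext.none) (P1 := 536870912) (W1 := 536870912) (P2 := 536870912) (W2 := 536870912) (P3 := 1045395039) (W3 := 1503240) (N0 := 3) (En := eng) (mo := mog) (C1 := cd0q1) (C2 := cd0q1) (C3 := pd3)
    rfl k0_mm_113_s

noncomputable def cut_mm_113_t : Cut := Cut.of [[⟨3, 0, 0, 2845415833⟩]]

noncomputable def f_mm_113_t : ℕ → ℕ → ℕ → ℕ → Bool := onCell 536870912 536870912 536870912 536870912 1045395039 1503240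
    (rowNE 3 eng mog cd0q1 cd0q1 pd3 0 true false false .nn 1 1 3 (qsf 536870912 536870912 536870912 536870912 3) ndB0q1 ndB0q1 pcB3 cut_mm_113_t Ext.none)

def k0_mm_113_t : ∃ t, chk3 f_mm_113_t t 1 1 1 = true :=
  ⟨(l 4), by decide +kernel⟩

theorem c_mm_113_t : CertNE 536870912 536870912 536870912 536870912 1045395039 1503240 3 eng mog cd0q1 cd0q1 pd3 true false false .nn 1 1 3
    ndB0q1 ndB0q1 pcB3 cut_mm_113_t Ext.none :=
  certNE0 (fam := true) (s1 := false) (s2 := false) (a := 1) (b := 1) (c := 3) (cn := .nn) (n1 := ndB0q1) (n2 := ndB0q1) (pc := pcB3) (cut := cut_mm_113_t) (xt := Ext.none) (P1 := 536870912) (W1 := 536870912) (P2 := 536870912) (W2 := 536870912) (P3 := 1045395039) (W3 := 1503240) (N0 := 3) (En := eng) (mo := mog) (C1 := cd0q1) (C2 := cd0q1) (C3 := pd3)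
    rfl k0_mm_113_t

noncomputable def cut_mm_123_s : Cut := Cut.of [[⟨4, 0, 0, 1449551462⟩]]

noncomputable def f_mm_123_s : ℕ → ℕ → ℕ → ℕ → Bool := onCell 536870912 536870912 0 536870912 1045395039 1503240
    (rowNE 3 eng mog cd0q1 cd0q2 pd3 0 true false false .npn 1 2 3 (qsf 536870912 536870912 0 536870912 3) ndB0q1 ndB0q2 pcB3 cut_mm_123_s Ext.none)

def k0_mm_123_s : ∃ t, chk3 f_mm_123_s t 1 1 1 = true :=
  ⟨(l 6), by decide +kernel⟩

theorem c_mm_123_s : CertNE 536870912 536870912 0 536870912 1045395039 1503240 3 eng mog cd0q1 cd0q2 pd3 true false false .npn 1 2 3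
    ndB0q1 ndB0q2 pcB3 cut_mm_123_s Ext.none :=
  certNE0 (fam := true) (s1 := false) (s2 := false) (a := 1) (b := 2) (c := 3) (cn := .npn) (n1 := ndB0q1) (n2 := ndB0q2) (pc := pcB3) (cut := cut_mm_123_s) (xt := Ext.none) (P1 := 536870912) (W1 := 536870912) (P2 := 0) (W2 := 536870912) (P3 := 1045395039) (W3 := 1503240) (N0 := 3) (En := eng) (mo := mog) (C1 := cd0q1) (C2 := cd0q2) (C3 := pd3)
    rfl k0_mm_123_s

noncomputable def cut_mm_123_t : Cut := Cut.of [[⟨3, 0, 0, 2845415833⟩]]

noncomputable def f_mm_123_t : ℕ → ℕ → ℕ → ℕ → Bool := onCell 536870912 536870912 0 536870912 1045395039 1503240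
    (rowNE 3 eng mog cd0q1 cd0q2 pd3 0 true false false .npn 1 2 3 (qsf 536870912 536870912 0 536870912 3) ndB0q1 ndB0q2 pcB3 cut_mm_123_t Ext.none)

def k0_mm_123_t : ∃ t, chk3 f_mm_123_t t 1 1 1 = true :=
  ⟨(a (l 5) (l 4)), by decide +kernel⟩

theorem c_mm_123_t : CertNE 536870912 536870912 0 536870912 1045395039 1503240 3 eng mog cd0q1 cd0q2 pd3 true false false .npn 1 2 3
    ndB0q1 ndB0q2 pcB3 cut_mm_123_t Ext.none :=
  certNE0 (fam := true) (s1 := false) (s2 := false) (a := 1) (b := 2) (c := 3) (cn := .npn) (n1 := ndB0q1) (n2 := ndB0q2) (pc := pcB3) (cut := cut_mm_123_t) (xt := Ext.none) (P1 := 536870912) (W1 := 536870912) (P2 := 0) (W2 := 536870912) (P3 := 1045395039) (W3 := 1503240) (N0 := 3) (En := eng) (mo := mog) (C1 := cd0q1) (C2 := cd0q2) (C3 := pd3)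
    rfl k0_mm_123_t

noncomputable def cut_mm_202_s : Cut := Cut.of [[⟨4, 0, 0, 1449551462⟩], [⟨0, 1, 0, 16777216⟩, ⟨1, 0, 0, 16777216⟩, ⟨2, 1, 0, 16777216⟩]]

noncomputable def f_mm_202_s : ℕ → ℕ → ℕ → ℕ → Bool := onCell 0 536870912 0 536870912 1045395039 1503240
    (rowNE 3 eng mog cd0q2 cd0q0 pd2 0 true false false .pp 2 0 2 (qsf 0 536870912 0 536870912 2) ndB0q2 ndB0q0 pcB2 cut_mm_202_s Ext.none)

def k0_mm_202_s : ∃ t, chk3 f_mm_202_s t 1 1 1 = true :=
  ⟨(l 6), by decide +kernel⟩

theorem c_mm_202_s : CertNE 0 536870912 0 536870912 1045395039 1503240 3 eng mog cd0q2 cd0q0 pd2 true false false .pp 2 0 2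
    ndB0q2 ndB0q0 pcB2 cut_mm_202_s Ext.none :=
  certNE0 (fam := true) (s1 := false) (s2 := false) (a := 2) (b := 0) (c := 2) (cn := .pp) (n1 := ndB0q2) (n2 := ndB0q0) (pc := pcB2) (cut := cut_mm_202_s) (xt := Ext.none) (P1 := 0) (W1 := 536870912) (P2 := 0) (W2 := 536870912) (P3 := 1045395039) (W3 := 1503240) (N0 := 3) (En := eng) (mo := mog) (C1 := cd0q2) (C2 := cd0q0) (C3 := pd2)
    rfl k0_mm_202_s

end Pool.Agent.Strip051.G.I9736_9750.Tab.CS.BA00

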