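import Pool.Agent.Strip051.G.I9736_9750.Tab
import Pool.Agent.Strip051.PB.StripB

/-! # Strips, near vertex: certificates 2 (generated) -/

set_option linter.all false
set_option maxRecDepth 100000

namespace Pool.Agent.Strip051.G.I9736_9750.Tab.CS.BA00

open Pool.Agent.Strip051.PB Pool.Agent.Strip051.PB.T
open Pool.Agent.Strip051.G.I9736_9750.Tab

noncomputable def cut_mm_202_t : Cut := Cut.of [[⟨3, 0, 0, 2845415833⟩], [⟨0, 1, 0, 16777216⟩, ⟨1, 0, 0, 16777216⟩, ⟨2, 1, 0, 16777216⟩]]

noncomputable def f_mm_202_t : ℕ → ℕ → ℕ → ℕ → Bool := onCell 0 536870912 0 536870912 1045395039 1503240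
    (rowNE 3 eng mog cd0q2 cd0q0 pd2 0 true false false .pp 2 0 2 (qsf 0 536870912 0 536870912 2) ndB0q2 ndB0q0 pcB2 cut_mm_202_t Ext.none)

def k0_mm_202_t : ∃ t, chk3 f_mm_202_t t 2 2 1 = true :=
  ⟨(b (b (l 6) (a (l 6) (a (l 6) (a (l 6) (b (b (l 6) (a (l 6) (l 16199480))) (b (a (l 16066936) (l 16127056)) (a (l 16024688) (b (l 16119224) (l 16104472))))))))) (a (b (l 6) (a (l 6) (b (l 6) (a (l 6) (b (l 6) (l 15199776)))))) (b (a (b (l 6) (a (l 6) (b (a (l 6) (l 15666280)) (a (l 15552384) (l 15669544))))) (b (a (b (a (l 6) (l 15902600)) (a (l 15783072) (l 15885736))) (b (a (l 15997488) (l 16089528)) (a (l 15985720) (l 16082736)))) (a (b (a (l 15776360) (l 15883896)) (a (l 15784288) (l 15896360))) (b (a (l 15988640) (l 16090312)) (a (l 16005536) (l 16111544)))))) (a (b (a (b (l 15378728) (l 15399240)) (b (a (l 15565464) (l 15687064)) (l 15655480))) (a (b (l 15433432) (l 15480560)) (b (l 15697392) (l 15751488)))) (b (a (b (a (l 15806120) (l 15922392)) (a (l 15841120) (l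 15961256))) (b (a (l 16035664) (l 16145688)) (a (l 16078288) (l 16192016)))) (a (b (a (l 15888536) (l 16012192)) (l 15864424)) (b (a (l 16132672) (l 16249776)) (a (l 16198056) (l 16318224))))))))), by decide +kernel⟩

def k1_mm_202_t : ∃ t, chk3 f_mm_202_t t 6 4 1 = true :=
  ⟨(b (b (a (a (l 6) (a (l 6) (b (l 16256680) (l 16309464)))) (b (a (a (l 16254192) (b (l 16220680) (l 16293832))) (a (b (l 16231696) (l 16301480)) (b (l 16249632) (l 16315984)))) (a (b (l 16346112) (l 16418224)) (b (a (l 16371648) (l 16382864)) (a (l 16439160) (l 16447312)))))) (a (a (b (l 6) (a (l 6) (l 16449416))) (b (b (l 16487000) (l 16570008)) (a (l 16482112) (l 16511064)))) (a (b (a (l 16494872) (l 16506784)) (b (l 16567848) (l 16563712))) (b (a (l 16482888) (b (l 16503256) (l 16552536))) (a (b (l 16596992) (l 16638528)) (b (l 16596632) (l 16635576))))))) (a (b (a (b (a (l 16333608) (l 16396680)) (a (l 16271784) (l 16319936))) (b (a (l 16435264) (l 16491120)) (a (l 16385528) (l 16426224))))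 (a (b (a (l 16163272) (b (l 16309640) (l 16293392))) (a (b (l 16201568) (l 16189488)) (b (l 16280552) (l 16271104)))) (b (a (b (l 16379504) (l 16366008)) (b (l 16445392) (l 16434616))) (a (b (l 16355840) (l 16348984)) (b (l 16427080) (l 16422776)))))) (b (a (b (a (l 16521880) (l 16548088)) (a (b (l 16533520) (l 16518432)) (b (l 16584824) (l 16572472)))) (b (a (b (l 16663176) (l 16624000)) (b (l 16648648) (l 16662584))) (a (b (l 16631176) (l 16621352)) (b (l 16651184) (l 16622944))))) (a (b (a (b (l 16506920) (l 16498832)) (b (l 16563704) (l 16558280))) (a (b (l 16493904) (l 16492136)) (b (l 16555944) (l 16556688)))) (a (b (b (l 16615320) (l 16612544)) (b (l 16612792) (l 16616048))) (b (b (a (l 16650336) (l 16671904)) (a (l 16649592) (l 16672456))) (b (a (l 16651776) (l 16675928)) (a (l 16656912) (l 16682320))))))))), by decide +kernel⟩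

def k2_mm_202_t : ∃ t, chk3 f_mm_202_t t 14 16 1 = true :=
  ⟨(b (a (a (b (a (l 16268104) (l 16282944)) (a (l 16331768) (l 16344816))) (b (a (l 16299936) (b (l 16304664) (l 16333648))) (a (l 16360000) (b (l 16362776) (l 16392040))))) (a (b (a (b (l 16326704) (l 16354760)) (b (a (l 16345024) (l 16358208)) (a (l 16372376) (l 16385088)))) (a (b (l 16382960) (l 16411320)) (b (a (l 16399880) (l 16412128)) (l 16433344)))) (b (a (b (a (l 16377328) (a (l 16383136) (l 16390776))) (a (l 16398568) (l 16412816))) (b (a (a (l 16398720) (l 16406784)) (b (l 16413744) (l 16425440))) (a (b (l 16421416) (l 16434192)) (b (l 16437528) (l 16449808))))) (a (b (a (l 16425136) (l 16438904)) (a (l 16451872) (l 16465168))) (b (a (l 16453424) (b (l 16462272) (l 16474984))) (a (l 16479208) (b (l 16487640) (l 16500344)))))))) (a (a (b (a (l 16396144) (l 16407456)) (a (l 16458200) (l 16467856))) (b (a (l 16420848) (b (l 16421448) (l 16451048))) (a (l 16479600) (b (l 16480160) (l 16506928))))) (a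 (b (a (b (l 16439824) (l 16468536)) (b (l 16460944) (l 16488752))) (a (b (l 16496776) (l 16522664)) (b (l 16516096) (l 16541112)))) (b (a (b (a (l 16478776) (l 16491608)) (a (l 16505896) (l 16518272))) (b (a (l 16505184) (b (l 16513096) (l 16525888))) (a (l 16531376) (b (l 16538736) (l 16551624))))) (a (b (a (l 16532568) (l 16544480)) (a (l 16556904) (l 16568368))) (b (a (l 16557128) (l 16570512)) (a (l 16580560) (l 16593480)))))))), by decide +kernel⟩

def k3_mm_202_t : ∃ t, chk3 f_mm_202_t t 14 17 1 = true :=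
  ⟨(a (b (a (b (l 16515728) (l 16562120)) (b (a (l 16530224) (l 16542496)) (a (l 16574416) (l 16585208)))) (a (b (l 16582496) (l 16608344)) (b (a (l 16613656) (l 16623024)) (a (l 16647976) (l 16655992))))) (b (a (a (b (b (l 16545960) (l 16567736)) (l 16566728)) (b (b (l 16563520) (l 16584464)) (b (l 16604248) (l 16622880)))) (b (a (b (a (l 16578656) (l 16589664)) (a (l 16598928) (l 16609504))) (b (a (l 16601416) (l 16613880)) (a (l 16620800) (l 16632824)))) (a (b (a (l 16618088) (l 16628224)) (a (l 16636120) (l 16645840))) (b (a (l 16639080) (l 16650656)) (a (l 16656272) (l 16667400)))))) (a (a (b (b (l 16625896) (l 16642880)) (b (l 16658680) (l 16673296))) (b (b (l 16640328) (l 16656592)) (b (l 16671688) (l 16685616)))) (b (a (b (a (l 16653000) (l 16662336)) (a (l 16668712) (l 16677672))) (b (a (l 16672352) (l 16683072)) (a (l 16687320) (l 16697648)))) (a (b (a (l 16683264) (l 16691856)) (a (l 16696672) (l 16704904))) (b (a (l 16701136) (l 16700600)) (a (l 16713816)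 (b (l 16720424) (l 16726312))))))))), by decide +kernel⟩

def k4_mm_202_t : ∃ t, chk3 f_mm_202_t t 60 32 1 = true :=
  ⟨(b (a (b (a (b (l 16431960) (l 16443152)) (b (l 16453800) (l 16461912))) (a (b (l 16454608) (l 16466472)) (b (l 16472864) (l 16484072)))) (b (a (b (b (l 16468752) (l 16473912)) (b (l 16479112) (l 16484272))) (b (b (l 16489624) (l 16494744)) (b (l 16499800) (l 16504856)))) (a (b (b (l 16489520) (l 16494816)) (b (l 16500168) (l 16505584))) (b (b (l 16509936) (l 16514992)) (a (l 16517648) (l 16527808)))))) (a (b (a (b (l 16478504) (l 16490776)) (b (l 16495592) (l 16510112))) (a (b (l 16503280) (l 16515744)) (b (a (l 16515480) (l 16523808)) (l 16531864)))) (b (a (b (b (l 16511064) (l 16516616)) (a (l 16520584) (l 16529688))) (b (a (l 16528232) (l 16538152)) (a (l 16539080) (l 16548744)))) (a (b (a (l 16532384) (l 16541208)) (a (l 16544416) (l 16552992))) (b (a (l 16550248) (l 16559624)) (a (l 16561800) (l 16570840))))))), by decide +kernel⟩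

def k5_mm_202_t : ∃ t, chk3 f_mm_202_t t 61 32 1 = true :=
  ⟨(b (a (b (a (b (b (l 16510968) (l 16516072)) (a (l 16518280) (l 16529048))) (b (a (l 16529792) (l 16540744)) (a (l 16539904) (l 16550848)))) (a (b (a (l 16528248) (l 16538984)) (a (l 16538208) (l 16548848))) (b (a (l 16549856) (l 16560792)) (a (l 16559640) (l 16570536))))) (b (b (a (a (l 16551776) (l 16562896)) (b (l 16577184) (l 16582280))) (a (a (l 16561880) (l 16573000)) (a (l 16584208) (l 16595496)))) (a (b (a (l 16571824) (l 16582936)) (a (l 16581600) (l 16592720))) (b (a (l 16594144) (l 16605432)) (a (l 16603920) (l 16615208)))))) (a (b (a (b (a (l 16548336) (l 16558744)) (a (l 16558672) (l 16568848))) (b (a (l 16569376) (l 16580216)) (a (l 16579256) (l 16589888)))) (a (b (a (l 16569272) (l 16579192)) (a (l 16580192) (l 16589816))) (b (a (l 16589352) (l 16599752)) (a (l 16599704) (l 16609840))))) (b (a (b (a (l 16591200) (l 16602328)) (a (l 16600760) (l 16611784))) (b (a (l 16613536) (l 16624824)) (a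 (l 16622952) (l 16634272)))) (a (b (a (l 16610376) (l 16621224)) (a (l 16620224) (l 16630848))) (b (a (l 16632312) (l 16643552)) (a (l 16641696) (l 16652776))))))), by decide +kernel⟩

def k6_mm_202_t : ∃ t, chk3 f_mm_202_t t 60 33 1 = true :=
  ⟨(b (a (b (a (b (l 16528256) (l 16540816)) (b (l 16544136) (l 16556456))) (a (b (l 16553424) (l 16566080)) (b (l 16568824) (l 16581248)))) (b (a (b (l 16560728) (l 16572808)) (b (a (l 16573568) (l 16582440)) (a (l 16585528) (l 16594232)))) (a (b (l 16584936) (l 16597128)) (b (l 16601096) (a (l 16609488) (l 16617952)))))) (a (b (a (b (l 16578552) (l 16590512)) (b (l 16593488) (l 16605216))) (a (b (l 16601840) (l 16612400)) (b (l 16616312) (l 16626640)))) (b (a (b (l 16609128) (l 16620624)) (b (l 16625472) (l 16636728))) (a (b (l 16631488) (l 16641576)) (b (l 16647352) (l 16657208)))))), by decide +kernel⟩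

def k7_mm_202_t : ∃ t, chk3 f_mm_202_t t 61 33 1 = true :=
  ⟨(b (a (b (a (b (a (l 16591496) (l 16600784)) (a (l 16603064) (l 16612144))) (b (a (l 16610368) (l 16620216)) (a (l 16621432) (l 16630928)))) (a (b (a (l 16614816) (l 16623736)) (a (l 16626584) (l 16635384))) (b (a (l 16632776) (l 16642032)) (a (l 16644328) (l 16653424))))) (b (a (b (a (l 16630328) (l 16640688)) (a (l 16640736) (l 16650808))) (b (a (l 16651304) (l 16664776)) (a (l 16661152) (b (l 16669328) (l 16674192))))) (a (b (a (l 16651560) (l 16661264)) (a (l 16662656) (l 16672120))) (b (a (l 16671304) (b (l 16679120) (l 16684128))) (a (b (l 16679144) (l 16684480)) (b (l 16689224) (l 16694392))))))) (a (b (a (b (a (l 16638176) (l 16646848)) (a (l 16649248) (l 16657808))) (b (a (l 16655680) (l 16664656)) (a (l 16666512) (l 16675376)))) (a (b (a (l 16659696) (l 16668136)) (a (l 16669384) (l 16677704))) (b (a (l 16676728) (l 16685464)) (a (l 16686176) (l 16694792))))) (b (a (b (a (l 16673776) (b (l 16680336)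 (l 16685728))) (a (l 16684376) (l 16693536))) (b (a (b (l 16689832) (l 16695120)) (b (l 16699568) (l 16704728))) (a (l 16702848) (b (l 16709808) (l 16714784))))) (a (b (a (l 16694352) (l 16703392)) (a (l 16703560) (l 16712480))) (b (a (l 16712584) (b (l 16719592) (l 16724224))) (a (b (l 16719408) (l 16723696)) (b (l 16728664) (l 16732896)))))))), by decide +kernel⟩

def k8_mm_202_t : ∃ t, chk3 f_mm_202_t t 62 64 1 = true :=
  ⟨(a (b (b (a (b (l 16599920) (l 16605016)) (b (l 16625600) (l 16628080))) (a (a (l 16606864) (l 16618320)) (a (l 16629856) (l 16641472)))) (a (b (a (l 16616808) (l 16628272)) (a (l 16626592) (l 16638056))) (b (a (l 16639808) (l 16651432)) (a (l 16649600) (l 16661232))))) (b (a (b (a (b (l 16640368) (l 16645480)) (b (l 14) (l 16656808))) (a (l 16655688) (b (l 16661888) (l 16666920)))) (b (l 14) (a (b (l 14) (l 16677976)) (l 14)))) (a (b (a (l 16665664) (b (l 16671912) (l 16676872))) (a (b (l 16670416) (l 16675280)) (b (l 16681784) (l 16686656))))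 (b (a (b (l 16682976) (l 16687936)) (b (l 16693920) (l 16698888))) (a (b (l 16692856) (l 16697736)) (b (l 16706440) (l 16711336))))))), by decide +kernel⟩

def k9_mm_202_t : ∃ t, chk3 f_mm_202_t t 62 65 1 = true :=
  ⟨(a (b (a (b (a (l 16636208) (l 16647672)) (a (l 16645656) (l 16657128))) (b (a (l 16659232) (l 16670872)) (a (l 16668696) (l 16682312)))) (a (b (a (l 16657520) (l 16666424)) (a (b (l 16661792) (l 16666360)) (b (l 16673280) (l 16677792)))) (b (a (l 16680608) (b (l 16687336) (l 16691944))) (a (b (l 16684848) (l 16689376)) (b (l 16696512) (l 16701040)))))) (a (b (a (b (b (l 16680104) (l 16684888)) (a (l 16689112) (l 16694888))) (b (b (l 16691488) (l 16696272)) (b (l 16701024) (l 16705728)))) (a (b (a (l 16698424) (l 16704200)) (a (l 16707568) (l 16713352))) (a (b (l 16709888) (l 16719048)) (b (l 16715512) (a (l 16723272) (l 16726072)))))) (b (b (a (b (l 16702576) (l 16707376)) (a (b (l 16710808) (l 16715616)) (b (l 16716320) (l 16721128)))) (b (a (l 16712136)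 (a (l 16720376) (l 16725904))) (a (l 16718816) (a (l 16725096) (l 16730624))))) (a (b (b (a (l 16718752) (l 16724280)) (a (l 16723384) (l 16728912))) (a (b (l 16727968) (l 16732512)) (b (l 16733504) (l 16738048)))) (b (a (b (l 16729776) (l 16734416)) (b (l 16735312) (l 16739960))) (a (b (l 16739016) (l 16743568)) (b (l 16744560) (l 16743872)))))))), by decide +kernel⟩

def k10_mm_202_t : ∃ t, chk3 f_mm_202_t t 63 64 1 = true :=
  ⟨(a (b (l 14) (a (b (a (b (l 14) (a (l 16707232) (l 14))) (l 14)) (a (b (a (l 16712168) (l 16717848)) (a (l 16717064) (l 16722752))) (b (a (l 16723624) (l 14)) (a (l 16728536) (l 16734408))))) (l 14))) (l 14)), by decide +kernel⟩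

def k11_mm_202_t : ∃ t, chk3 f_mm_202_t t 252 65 1 = true :=
  ⟨(b (b (a (b (a (l 16721920) (l 16727616)) (a (l 16726736) (l 16732440))) (a (b (l 16733408) (l 16738232)) (b (a (l 16737800) (l 16740768)) (a (l 16742632) (l 16745600))))) (a (a (b (l 16731512) (l 16736248)) (b (l 16737216) (l 16741960))) (a (b (a (l 16741560) (l 16744480)) (a (l 16746296) (l 16749224))) (b (a (l 16747424) (l 16750392)) (b (l 16752472) (l 16749592)))))) (a (b (a (b (l 16740936) (l 16740344)) (b (a (l 16745216) (l 16748096)) (a (l 16749864) (l 16752752)))) (b (a (a (l 16748776) (l 16751616)) (b (l 16754768) (l 16751824))) (a (a (l 16753336) (l 16756184)) (a (l 16753808) (l 16758000))))) (b (b (a (a (l 16751000) (l 16753928)) (a (l 16754256) (a (l 16759104) (l 16760600)))) (a (b (l 16750720) (l 16754344)) (a (b (l 16760376) (l 16762696)) (b (l 16763352) (l 16763056))))) (a (b (a (l 16756344) (b (l 16762056) (l 16764352))) (a (a (l 16758872) (l 16762960)) (b (l 16761400) (l 16766296)))) (b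 (b (a (l 16765008) (l 16765368)) (a (l 16764688) (l 16767672))) (a (b (l 16766976) (b (l 16768688) (l 16769824))) (b (a (l 16769216) (l 16770712)) (a (l 16771496) (b (l 16772416) (a (l 16773184) (b (l 16773648) (a (l 16771408) (a (l 16774304) (b (l 16776976) (l 145726898135))))))))))))))), by decide +kernel⟩

def k12_mm_202_t : ∃ t, chk3 f_mm_202_t t 506 130 1 = true :=
  ⟨(b (b (a (a (l 16743752) (l 16746760)) (a (l 16749792) (l 14))) (a (b (l 16748880) (l 16746048)) (a (b (l 16753424) (l 16755832)) (b (l 16756480) (l 16758896))))) (a (b (a (l 16748136) (b (l 16755200) (l 16757584))) (a (b (l 16756952) (l 16759320)) (a (l 16757776) (l 16758632)))) (b (a (b (l 16758232) (l 16760624)) (b (l 16761296) (l 16761064))) (a (b (l 16763008) (l 16762752)) (b (l 16763448) (a (l 16767672) (l 16766584))))))), by decide +kernel⟩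

def k13_mm_202_t : ∃ t, chk3 f_mm_202_t t 507 260 1 = true :=
  ⟨(a (b (l 14) (b (a (l 16759560) (l 14)) (a (l 16761976) (a (l 16764304) (l 16765856))))) (l 14)), by decide +kernel⟩

def k14_mm_202_t : ∃ t, chk3 f_mm_202_t t 1014 261 1 = true :=
  ⟨(b (b (a (l 16761760) (a (l 16766704) (l 16765640))) (a (a (l 16766000) (l 16767544)) (a (l 16766480) (l 16768688)))) (a (b (b (l 16765936) (l 16767128)) (a (l 16768128) (a (l 16769288) (l 16770064)))) (b (a (l 16769512) (b (l 16769824) (l 16771016))) (a (b (l 16770640) (l 16771824)) (b (l 16773512) (a (l 16772992) (b (l 16773480) (a (l 16773880) (a (l 16774168) (a (l 16775624) (b (l 16776888) (b (l 16777112) (l 16777208))))))))))))), by decide +kernel⟩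

def k15_mm_202_t : ∃ t, chk3 f_mm_202_t t 1015 522 1 = true :=
  ⟨(a (b (a (l 16767208) (b (l 16770800) (l 16772000))) (a (b (l 16771624) (l 16770200)) (b (l 16770576) (l 16773080)))) (b (a (b (l 14) (l 16772264)) (l 14)) (a (b (l 16773464) (a (l 16774264) (b (l 16773440) (a (l 16773840) (a (l 16774136) (a (l 16775600) (b (l 16776856) (b (l 16777080) (l 122104578023))))))))) (b (a (l 16774648) (b (l 14) (a (b (l 16774080) (b (l 16774304) (a (l 16776976) (a (l 16777128) (l 115125256151))))) (b (a (l 16775688) (l 14)) (a (b (a (l 16777160) (l 103850967159)) (l 243974275159)) (l 4)))))) (a (b (a (l 16774040) (b (l 16775592) (a (a (l 16775744) (b (l 16777080) (l 124252061655))) (b (a (l 16777168) (l 91502936199)) (l 247732371543))))) (a (b (a (l 16775696) (b (l 16776464) (a (l 129083899863) (l 234310598727)))) (b (a (a (l 16777168) (l 93113548935)) (l 4)) (l 282092109927))) (a (a (b (b (l 92576678023) (l 4)) (l 4)) (l 4)) (l 4)))) (b (a (b (a (b (l 16776464) (a (l 119957094359)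 (l 229478760519))) (a (b (l 136063221847) (l 4)) (l 4))) (l 4)) (l 4)) (l 4))))))), by decide +kernel⟩

def k16_mm_202_t : ∃ t, chk3 f_mm_202_t t 2030 523 1 = true :=
  ⟨(b (a (b (l 16772704) (l 16773888)) (b (l 16774112) (a (b (l 16773464) (a (l 16773856) (a (l 16774152) (a (l 16775608) (b (l 16776872) (b (l 16777096) (l 16777200))))))) (b (a (l 16774056) (b (l 16775608) (a (a (l 16775752) (b (l 16777096) (l 16777200))) (b (a (l 16777176) (l 137136963687)) (l 4))))) (a (b (a (l 16775712) (b (l 16776800) (a (l 16777200) (l 4)))) (a (b (a (l 16777176) (l 140895060071)) (l 4)) (l 4))) (a (a (b (b (l 139284447335) (l 4)) (l 4)) (l 4)) (l 4))))))) (a (b (a (l 16774688) (b (l 16773864) (b (a (l 16774112) (a (l 16775712) (b (l 16776808) (a (l 16777208) (l 4))))) (a (b (l 16774336) (b (l 16776408) (a (l 16777040) (l 136600092647)))) (b (a (a (l 16777184) (l 16777224)) (l 4)) (l 4)))))) (a (b (a (l 16774072) (b (l 16775624) (a (a (l 16775768) (b (l 16777104) (l 16777208))) (a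 (b (l 16777184) (l 4)) (l 205319569527))))) (a (b (a (l 16775720) (b (l 16776816) (a (l 16777208) (l 4)))) (a (a (b (l 16777184) (l 4)) (l 208540794999)) (l 4))) (l 305714430055))) (b (a (b (b (a (l 16776808) (l 184381603959)) (b (a (l 99019128951) (l 4)) (l 235384340615))) (l 4)) (l 4)) (l 4)))) (b (a (b (a (b (l 16775616) (a (a (l 16775760) (b (l 16777096) (l 16777200))) (a (b (l 16777176) (l 4)) (l 198877118583)))) (b (b (a (l 16776808) (l 146800640151)) (b (a (l 103314096231) (l 4)) (l 227331276935))) (l 4))) (a (a (a (b (l 200487731319) (l 4)) (l 4)) (l 4)) (l 4))) (l 4)) (l 4)))), by decide +kernel⟩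

def k17_mm_202_t : ∃ t, chk3 f_mm_202_t t 2031 523 1 = true :=
  ⟨(b (a (b (a (b (l 16775160) (a (a (l 16774144) (a (l 16775608) (b (l 16776864) (b (l 16777088) (l 16777200))))) (b (a (l 16775704) (b (l 16776472) (a (l 16777200) (l 244511146055)))) (a (b (a (l 16777168) (l 98482258055)) (l 261691015255)) (l 4))))) (b (a (b (l 16775600) (a (a (l 16775752) (b (l 16777088) (l 16777200))) (b (a (l 16777168) (l 95797903495)) (l 257932918871)))) (b (a (b (l 16776464) (a (l 126936416231) (l 239679307847))) (a (b (l 94724161671) (l 4)) (l 4))) (l 4))) (a (a (a (b (b (l 96871645319) (l 4)) (l 4)) (l 4)) (l 4)) (l 4)))) (a (b (a (b (a (b (l 16776800) (a (l 16777200) (l 252027338823))) (a (b (l 152706220119) (l 4)) (l 4))) (l 4)) (l 4)) (l 4)) (l 4))) (l 4)) (l 4)), by decide +kernel⟩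

def k18_mm_202_t : ∃ t, chk3 f_mm_202_t t 506 262 1 = true :=
  ⟨(a (b (a (b (l 16761672) (l 16764016)) (b (l 16762072) (l 16764416))) (a (b (l 16763728) (l 16766056)) (b (a (l 16768616) (l 16767512)) (a (l 16768320) (l 16769840))))) (b (a (b (a (l 16766968) (l 16768496)) (b (l 16766872) (l 16768048))) (b (a (l 16767408) (l 16768944)) (a (l 16769760) (b (l 16770712) (l 16771880))))) (a (b (a (l 16769032) (l 16771216)) (a (l 16772016) (b (l 16772304) (a (l 16773088) (b (l 16773560) (a (l 16773952) (a (l 16774240) (a (l 16776336) (b (l 16776952) (l 136600092615)))))))))) (b (a (b (l 16771512) (l 16772680)) (b (l 16774360) (a (b (l 16773544) (a (l 16773928) (b (l 16774168) (a (l 16774368) (b (l 16777104) (l 157001187287)))))) (b (a (l 16774120) (b (l 16776320) (b (a (l 16777096) (l 99019128999)) (a (l 148948123607) (l 4))))) (a (a (b (l 16775760) (b (l 101166612647) (l 4))) (b (b (l 16777168) (l 182770991223)) (l 4))) (l 4)))))) (a (b (a (l 16773456) (b (l 16773936) (a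 (a (l 16774232) (b (l 16776896) (b (l 16777112) (l 156464316407)))) (a (b (l 16776424) (a (l 118346481191) (l 4))) (b (b (l 16777176) (l 190824054903)) (l 4)))))) (a (b (a (l 16774136) (b (l 16776336) (a (a (l 16777128) (l 122104576695)) (a (l 120493965495) (l 4))))) (a (a (b (l 16776432) (a (l 123178320055) (l 4))) (b (a (l 125862673079) (l 121567707319)) (l 4))) (l 4))) (b (a (a (b (b (l 16777176) (l 194582151287)) (l 4)) (l 4)) (l 4)) (l 4)))) (b (a (b (a (b (l 16776328) (a (b (l 16777104) (l 148948123639)) (b (l 103850967207) (l 4)))) (a (b (b (l 16777176) (l 186529087607)) (l 4)) (l 4))) (l 4)) (l 4)) (l 4))))))), by decide +kernel⟩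

def k19_mm_202_t : ∃ t, chk3 f_mm_202_t t 1012 526 1 = true :=
  ⟨(a (b (b (l 16767792) (l 16768944)) (a (l 16769920) (l 16771424))) (b (a (l 16770632) (b (l 16771576) (l 16772728))) (a (b (l 16772360) (a (l 16773136) (b (l 16773608) (a (l 16773992) (a (l 16774272) (a (l 90429193207) (b (l 16776992) (l 84523614391)))))))) (b (a (l 16773504) (b (l 16773976) (a (a (l 16774264) (a (l 16776688) (b (l 16776976) (l 151632478215)))) (a (b (l 16776448) (l 188139700391)) (b (a (l 148411252743) (l 165591122071)) (l 4)))))) (a (b (a (l 16774176) (b (l 16776688) (a (a (l 16777152) (l 103314096263)) (l 190824054951)))) (a (b (a (l 16776456) (a (l 104924708999) (l 201024602231))) (l 218741342407)) (l 4))) (b (a (a (b (a (l 101703483527) (l 168812347543)) (l 4)) (l 4)) (l 4)) (l 4))))))), by decide +kernel⟩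

def k20_mm_202_t : ∃ t, chk3 f_mm_202_t t 1012 527 1 = true :=
  ⟨(a (b (a (l 16772208) (b (l 16773144) (a (b (l 16773624) (a (l 16774008) (a (l 16774288) (a (l 95261031431) (b (l 16777008) (l 111367159959)))))) (b (a (l 16774192) (b (l 93650418695) (a (a (l 16777160) (l 108682805399)) (l 228941889671)))) (a (b (a (l 16776464) (a (l 109756547223) (l 217130729591))) (l 228405018823)) (l 4)))))) (a (b (a (l 16773544) (b (l 16775320) (a (a (l 16774296) (b (l 16776968) (l 132841994935))) (b (a (l 16777128) (a (l 107072192679) (l 16777256))) (l 256859177127))))) (a (b (a (l 16774208) (b (l 99555998759) (a (l 133915736775) (l 246121758855)))) (a (b (a (l 16777136) (l 111904030295)) (l 261154144423)) (l 4))) (b (a (a (b (l 118883352135) (l 4)) (l 4)) (l 4)) (l 4)))) (b (a (b (a (b (l 96334773271) (a (a (l 16777168) (l 105461579943)) (l 235921211527))) (a (a (b (l 112977772695) (l 4)) (l 250416726183)) (l 4))) (l 4)) (l 4)) (l 4)))) (b (a (b (a (b (l 16773992) (a (b (l 16774232)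 (a (l 16777040) (a (l 16777160) (l 88818581687)))) (b (a (l 16776456) (a (l 87744839863) (l 209077665911))) (l 223573180615)))) (b (a (b (l 90966064119) (a (a (l 16777152) (l 86671098039)) (l 196729634983))) (a (a (b (l 85597356215) (l 4)) (l 220888826055)) (l 4))) (l 4))) (a (b (a (a (a (b (l 107072192663) (l 4)) (l 225720664263)) (l 4)) (l 4)) (l 4)) (l 4))) (l 4)) (l 4))), by decide +kernel⟩

def k21_mm_202_t : ∃ t, chk3 f_mm_202_t t 1013 263 1 = true :=
  ⟨(b (a (b (a (b (l 16773096) (a (b (l 16773584) (a (l 16773968) (a (l 16774256) (a (l 57680067543) (b (l 16776968) (l 144653156343)))))) (b (a (l 16774152) (b (l 16776344) (a (a (l 16777136) (l 143579414503)) (l 157001187527)))) (b (a (a (l 16776440) (a (l 147337510887) (l 158611800215))) (l 4)) (l 299271979111))))) (b (a (b (l 16773952) (a (a (l 16774248) (a (l 16776672) (b (l 16776960) (l 136600092647)))) (a (b (l 16776432) (c (l 153779962055) (l 154316832967))) (b (a (l 133378867175) (l 126936416439)) (l 4)))))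 (b (a (b (l 16776336) (a (a (l 16777136) (l 136600092631)) (a (l 125862674615) (l 4)))) (a (b (a (l 140358188999) (l 124252061879)) (l 4)) (l 4))) (l 4))) (a (b (a (a (b (a (l 140358189031) (l 155390574743)) (l 4)) (l 4)) (l 4)) (l 4)) (l 4)))) (a (b (a (b (a (b (l 16776680) (a (a (l 16777144) (l 151095607287)) (l 185455345831))) (a (b (a (l 147874381815) (l 161833025687)) (l 4)) (l 4))) (l 4)) (l 4)) (l 4)) (l 4))) (l 4)) (l 4)), by decide +kernel⟩

def k22_mm_202_t : ∃ t, chk3 f_mm_202_t t 2028 524 1 = true :=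
  ⟨(b (a (a (l 16770104) (l 16770880)) (b (l 16771448) (l 16773936))) (a (b (l 16772256) (a (l 16773040) (b (l 16773520) (a (l 16773912) (b (l 16774152) (a (l 16774352) (b (l 16777088) (l 125862674391)))))))) (b (a (l 16773416) (b (l 16773896) (a (a (l 16774192) (a (l 16775648) (b (l 16776912) (b (l 16777128) (l 16777216))))) (b (a (l 16775744) (b (l 16777152) (l 132841996439))) (a (a (b (l 16777192) (l 4)) (l 262764757079)) (l 4)))))) (a (b (a (l 16774104) (b (l 16775648) (b (a (l 16777088) (a (l 16777200) (l 16777232))) (a (l 126936416199) (l 4))))) (a (a (b (l 16775744) (a (b (l 16777200) (l 4)) (l 271354691671))) (b (b (l 16777160) (l 138747576471)) (l 4))) (l 318062461047))) (b (a (a (b (b (l 16777160) (l 135526350999)) (l 4)) (l 272428433575)) (l 4)) (l 4)))))), by decide +kernel⟩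

def k23_mm_202_t : ∃ t, chk3 f_mm_202_t t 2029 524 1 = true :=
  ⟨(b (a (b (l 16774320) (a (b (l 16773504) (a (l 16773896) (a (l 16774184) (a (l 16775640) (b (l 16776904) (b (l 16777120) (l 16777216))))))) (b (a (l 16774088) (b (l 16775632) (a (a (l 16775776) (b (l 16777120) (l 16777216))) (a (b (l 16777192) (l 4)) (l 218204471415))))) (a (b (a (l 16775736) (b (l 16776824) (l 140358189191))) (a (a (b (l 16777192) (l 4)) (l 254711693399)) (l 4))) (l 313767493735))))) (b (a (b (l 16773880) (a (a (l 16774176) (a (l 16775632) (b (l 16776896) (b (l 16777120) (l 16777208))))) (b (a (l 16775728) (b (l 16776816) (a (l 16777208) (l 4)))) (a (a (b (l 16777192) (l 4)) (l 214983245943)) (l 4))))) (b (a (b (l 16775624) (a (a (l 16775776) (b (l 16777112) (l 16777208))) (a (b (l 16777184) (l 4)) (l 211762020471)))) (b (a (b (l 16776816) (a (l 16777208) (l 4))) (l 224646922375)) (l 4))) (a (l 309472526439) (l 4)))) (a (b (a (b (a (b (l 16776824) (l 163443638375)) (l 230552502407)) (l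 4)) (l 4)) (l 4)) (l 4)))) (a (b (a (b (a (b (l 16775640) (a (a (l 16775784) (b (l 16777128) (l 16777216))) (a (b (l 16777192) (l 4)) (l 258469789783)))) (b (a (b (l 16777152) (l 143579414663)) (l 235921211527)) (l 4))) (l 320209944727)) (l 4)) (l 4)) (l 4))), by decide +kernel⟩

def k24_mm_202_t : ∃ t, chk3 f_mm_202_t t 1014 525 1 = true :=
  ⟨(a (b (a (b (a (b (l 16773920) (a (b (l 16774160) (a (l 16774360) (b (l 16777096) (l 133378867175)))) (a (b (l 16775752) (b (l 96334773783) (l 4))) (b (b (l 16777168) (l 144653156503)) (l 4))))) (b (a (b (l 16775656) (b (a (l 16777096) (a (l 16777200) (l 16777232))) (a (l 133915738071) (l 4)))) (a (b (b (l 16777160) (l 141968801943)) (l 4)) (l 276186529959))) (l 4))) (a (b (a (a (b (b (l 16777168) (l 179012894839)) (l 4)) (l 4)) (l 4)) (l 4)) (l 4))) (l 4)) (l 4)) (l 4)), by decide +kernel⟩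

def k25_mm_202_t : ∃ t, chk3 f_mm_202_t t 1015 262 1 = true :=
  ⟨(l 4), by decide +kernel⟩

def k26_mm_202_t : ∃ t, chk3 f_mm_202_t t 507 263 1 = true :=
  ⟨(l 4), by decide +kernel⟩

def k27_mm_202_t : ∃ t, chk3 f_mm_202_t t 127 65 1 = true :=
  ⟨(a (b (a (b (l 14) (a (b (b (l 14) (b (b (l 14) (b (l 14) (l 4))) (l 4))) (l 4)) (l 4))) (l 4)) (l 4)) (l 4)), by decide +kernel⟩

def k28_mm_202_t : ∃ t, chk3 f_mm_202_t t 124 66 1 = true :=
  ⟨(b (a (b (a (b (l 16670928) (l 16675560)) (b (l 16682304) (l 16686816))) (a (b (l 16680240) (l 16684976)) (b (l 16691392) (l 16696008)))) (b (a (b (l 16693848) (l 16698304)) (b (l 16705528) (l 16709952))) (a (b (l 16702768) (l 16707280)) (b (l 16714368) (l 16720088))))) (a (b (a (b (l 16689776) (l 16694640)) (b (l 16700680) (l 16705416))) (a (b (l 16699584) (l 16704600)) (b (l 16710224) (l 16715088)))) (b (a (b (l 16711840) (l 16716448)) (b (a (l 16720360) (l 16726112)) (a (l 16724880) (l 16730584)))) (b (a (l 16721120) (a (l 16729464)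 (l 16735104))) (a (a (l 16723128) (l 16728576)) (a (l 16734088) (l 16739672))))))), by decide +kernel⟩

def k29_mm_202_t : ∃ t, chk3 f_mm_202_t t 250 66 1 = true :=
  ⟨(b (a (a (b (l 16716544) (b (l 16723152) (l 16727528))) (b (l 16723648) (b (l 16728960) (l 16733320)))) (b (a (b (l 16725808) (l 16730256)) (b (l 16731440) (l 16735896))) (a (b (l 16734664) (l 16739032)) (b (l 16740304) (l 16744680))))) (b (a (a (b (l 16731904) (l 16736320)) (b (l 16737664) (l 16742024))) (a (b (l 16743360) (l 16747680)) (b (l 16749000) (l 16748056)))) (a (b (a (l 16740784) (l 16746440)) (a (l 16745288) (l 16750880))) (b (a (l 16746792) (a (l 16756216) (l 16758992))) (a (l 16751184) (a (l 16760568) (l 16758072))))))), by decide +kernel⟩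

def k30_mm_202_t : ∃ t, chk3 f_mm_202_t t 251 132 1 = true :=
  ⟨(a (b (a (b (l 16737016) (l 16741480)) (b (l 16742560) (l 16747024))) (a (b (l 16745896) (l 16750272)) (b (l 16746200) (l 16750584)))) (b (a (b (l 16748080) (l 16747304)) (b (a (l 16752240) (l 16755040)) (a (l 16756712) (l 16759512)))) (a (b (a (l 16755592) (l 16758360)) (b (l 16755024) (l 16757208))) (b (b (l 16756192) (l 16758400)) (b (l 16761904) (a (l 16766616) (l 16764184))))))), by decide +kernel⟩

def k31_mm_202_t : ∃ t, chk3 f_mm_202_t t 502 133 1 = true :=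
  ⟨(b (a (b (l 16749360) (a (l 16757488) (l 16760280))) (b (a (l 16758776) (l 16761544)) (b (l 16758144) (l 16760280)))) (a (b (b (l 16756848) (l 16758984)) (b (l 16761136) (l 16764584))) (b (a (l 16764696) (a (l 16764160) (l 16765544))) (a (b (l 16765264) (l 16767384)) (b (l 16768024) (a (l 16769448) (b (l 16770296) (a (l 16771000) (a (l 16774120) (a (l 103850965223) (b (l 16776928) (l 188139700423)))))))))))), by decide +kernel⟩

def k32_mm_202_t : ∃ t, chk3 f_mm_202_t t 503 266 1 = true :=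
  ⟨(a (b (a (l 16759072) (l 16763152)) (a (l 16764680) (b (l 16765072) (l 16767216)))) (b (a (a (l 16763928) (l 16767952)) (b (l 16766360) (l 16771144))) (a (b (l 16767864) (a (l 16769304) (b (l 16770168) (a (l 16770888) (b (l 16771320) (a (l 16774288) (b (l 16777104) (l 130694512919)))))))) (b (a (l 16769968) (b (l 16773464) (a (b (l 16771296) (a (l 16771648) (b (l 16777088) (l 316451847847)))) (a (b (l 109219674967) (l 235384340711)) (l 323968038647))))) (a (b (a (l 16773840) (b (b (l 16771528) (l 104387836535)) (a (b (l 16777096) (l 153243091159)) (l 233773727991)))) (a (a (b (l 114588384119) (l 231626244359)) (l 325578651063)) (l 4))) (b (a (l 331484232999) (l 4)) (l 4))))))), by decide +kernel⟩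

def k33_mm_202_t : ∃ t, chk3 f_mm_202_t t 503 267 1 = true :=
  ⟨(a (b (a (b (l 16766568) (l 16768680)) (a (b (l 16768648) (b (l 16770232) (a (l 16770944) (b (l 16771376) (a (l 16774328) (b (l 16777128) (l 16777144))))))) (b (l 16770032) (b (a (l 16773888) (b (b (l 16771576) (l 114588383927)) (a (l 270280948871) (l 262764757223)))) (a (a (a (b (l 16777032) (l 4)) (l 303566945591)) (l 329336746807)) (l 4)))))) (a (b (a (l 16770096) (b (l 16773568) (a (b (l 16771400) (b (l 16774376) (l 262227884855))) (b (a (b (l 16777024) (l 16776960)) (l 133915737207)) (l 4))))) (a (b (a (l 16773936) (b (a (l 16776824) (l 16777136)) (a (a (l 16777032) (l 327189266087)) (l 4)))) (a (b (a (l 16777104) (l 169349218631)) (l 4)) (l 4))) (l 341684780791))) (b (a (b (a (b (a (l 16776800) (b (l 16777008) (l 16777000))) (l 305714429271)) (l 333631712855)) (l 4)) (l 4)) (l 4)))) (b (a (b (a (b (l 16773520) (a (b (l 16771344) (a (l 16774312) (l 264912239495))) (a (b (b (l 16776976) (l 16777112))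 (l 267059724503)) (l 327726134391)))) (b (a (b (b (l 16771552) (l 109756545687)) (b (l 274575916247) (l 184381604183))) (l 332557971799)) (l 4))) (a (b (l 339537296455) (l 4)) (l 4))) (l 4)) (l 4))), by decide +kernel⟩

def k34_mm_202_t : ∃ t, chk3 f_mm_202_t t 124 67 1 = true :=
  ⟨(b (a (b (a (b (l 16709616) (l 16714584)) (b (l 16719944) (l 16724752))) (a (b (l 16719528) (l 16724376)) (b (l 16729504) (l 16728952)))) (b (a (b (a (l 16727872) (l 16733248)) (a (l 16732568) (l 16737864))) (b (a (l 16738696) (l 16744208)) (a (l 16743240) (l 16748680)))) (a (b (a (l 16737192) (l 16742416)) (a (l 16741760) (l 16746896))) (a (b (l 16747712) (l 16752112)) (b (l 16753080) (l 16752152)))))) (a (b (a (b (l 16729096) (l 16733696)) (b (l 16730960) (a (l 16740912) (l 16745752)))) (a (a (l 16737808) (l 16737296)) (b (l 16742408) (a (l 16749368) (l 16754160))))) (a (b (b (a (l 16746248) (l 16751304)) (b (l 16746816) (l 16748968))) (b (a (l 16754936) (l 16754592)) (a (l 16759000) (l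 16758632)))) (b (b (a (l 16756432) (l 16756392)) (a (l 16755416) (l 16760536))) (a (b (l 16759552) (b (l 16762568) (l 16764520))) (b (b (l 16763576) (l 16765568)) (a (l 16767256) (b (l 16768792) (a (l 16764848) (a (l 16771008) (b (l 16765928) (b (l 16777048) (l 150558720903))))))))))))), by decide +kernel⟩

def k35_mm_202_t : ∃ t, chk3 f_mm_202_t t 250 134 1 = true :=
  ⟨(a (b (b (a (l 16749760) (l 16750048)) (a (l 16748920) (l 16754384))) (a (b (l 16753248) (l 16757496)) (b (a (l 16762544) (l 16759984)) (a (l 16761488) (l 16764136))))) (b (a (b (a (l 16759408) (l 16762144)) (b (l 16758744) (l 16760864))) (b (a (l 16759632) (l 16762360)) (b (l 16764160) (l 16767552)))) (a (b (a (l 16762664) (l 16765328)) (a (l 16766776) (b (l 16768400) (a (l 16769760) (b (l 16765328) (a (l 16771240) (a (l 37815836407) (b (l 16777024) (l 241826791607))))))))) (b (a (b (l 16766968) (l 16769016)) (b (l 16769640) (a (b (l 16770504) (a (l 16771184) (b (l 16771576) (a (l 16777104) (l 147874382199)))))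 (b (a (l 16775400) (b (a (l 16776968) (l 102240354583)) (l 179012895159))) (l 315914975335))))) (a (b (a (l 16770384) (b (l 61438160775) (a (b (l 16771600) (a (l 16777120) (l 163443638631))) (l 308935650695)))) (a (b (a (l 38352707335) (b (a (l 16777016) (l 16777400)) (l 212835762551))) (l 317525582167)) (l 4))) (b (a (b (a (b (a (l 16776992) (l 91502936439)) (l 217667600711)) (l 4)) (l 4)) (l 4)) (l 4))))))), by decide +kernel⟩

def k36_mm_202_t : ∃ t, chk3 f_mm_202_t t 250 135 1 = true :=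
  ⟨(a (b (a (b (b (l 16760616) (l 16762672)) (a (l 16764416) (l 16767008))) (b (a (l 16765584) (b (l 16767192) (l 16769192))) (a (b (l 16768592) (a (l 16764680) (b (l 16765472) (a (l 16771360) (b (l 16776960) (a (l 16776656) (l 4))))))) (b (a (l 16770520) (b (a (l 16776248) (b (l 16776640) (l 16777048))) (b (a (l 16776936) (l 180086636951)) (l 302493199255)))) (a (b (a (l 95797900999) (l 297124494359)) (l 320746806359)) (l 4)))))) (a (b (a (b (l 16762168) (l 16769368)) (b (l 16772576) (a (a (l 16770944) (b (l 16765856) (b (l 16777000) (l 148411237655)))) (b (a (b (l 16776736) (l 138747566423)) (b (l 143042531191) (l 4))) (l 322357418471))))) (a (b (a (l 16773280) (b (a (l 16765896) (b (l 16776760) (l 139284436903))) (a (b (l 16777024) (l 149484979367)) (l 321820550231)))) (a (a (b (b (l 16776792) (l 140358178471)) (l 325578646327)) (l 305177555495)) (l 4))) (b (a (b (l 300882590055) (l 4)) (l 4)) (l 4)))) (b (a (b (a (b (a (l 16765824) (b (l 16776704) (a (l 16777008)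 (l 16776592)))) (a (b (l 16776984) (l 147337495943)) (l 319136196263))) (b (l 298735106999) (l 4))) (l 4)) (l 4)) (l 4)))) (b (a (b (a (b (l 16769800) (a (b (l 16765400) (a (l 16771304) (b (l 16776912) (a (l 16776912) (l 155390560951))))) (b (a (a (l 16771448) (l 37815836151)) (b (l 118883347255) (l 307325042823))) (l 319136194247)))) (b (a (b (b (l 16765768) (b (l 16771376) (l 38352707127))) (a (b (l 16776896) (l 287997689063)) (l 312156875575))) (b (a (b (l 104924706151) (l 255785435399)) (l 4)) (l 4))) (l 4))) (a (b (a (b (a (b (l 139821316967) (l 278870884615)) (l 4)) (l 4)) (l 4)) (l 4)) (l 4))) (l 4)) (l 4))), by decide +kernel⟩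

def k37_mm_202_t : ∃ t, chk3 f_mm_202_t t 251 67 1 = true :=
  ⟨(b (a (b (a (b (a (l 16766392) (b (l 16766752) (l 16768848))) (a (b (l 16768216) (a (l 16769600) (b (l 16770432) (b (l 16771200) (a (l 16766136) (a (l 16777064) (l 129083900279))))))) (b (b (a (l 16774968) (l 16773680)) (a (l 16770752) (a (a (l 16774192) (b (l 16776912) (l 309472525799))) (l 301419461687)))) (a (b (a (l 16774040) (b (a (l 16776928) (l 255248563111)) (a (l 139284447559) (l 4)))) (a (l 303566945047) (l 4))) (l 344905993575))))) (b (a (b (a (l 16768800) (a (l 16769824) (l 16770512))) (a (b (l 16770368) (a (l 16771064) (b (l 16771480) (a (l 16777032) (l 116198998375))))) (b (a (l 16773992) (b (l 110830287287) (b (l 305714429463) (l 4)))) (a (b (a (l 104387837879) (l 195119022391)) (l 4)) (l 4))))) (b (a (b (l 16773624) (b (a (l 16771448) (b (l 114588382567) (l 152169349479))) (b (a (l 16777032) (l 4)) (l 306251300103)))) (b (b (a (l 105998449047) (l 265985982631)) (l 319673068951)) (l 4))) (l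 346516618167))) (a (b (a (b (b (a (a (l 16776904) (l 114051514295)) (l 218741342599)) (l 321820551927)) (l 4)) (l 4)) (l 4)) (l 4)))) (a (b (a (b (a (b (l 46405773159) (a (b (l 16771552) (l 262764755831)) (l 305177554887))) (b (a (b (a (l 16776944) (l 83449872711)) (l 224110051559)) (l 344369128935)) (l 4))) (l 4)) (l 4)) (l 4)) (l 4))) (l 4)) (l 4)), by decide +kernel⟩

def k38_mm_202_t : ∃ t, chk3 f_mm_202_t t 504 132 1 = true :=
  ⟨(b (a (b (b (l 16752912) (l 16755160)) (a (l 16757096) (b (l 16764072) (l 16766296)))) (b (a (b (l 16762448) (l 16764696)) (b (l 16765336) (l 16762344))) (a (b (l 16766936) (l 16763928)) (b (l 16767216) (l 16769448))))) (a (b (b (a (l 16765672) (l 16763272)) (a (l 16767872) (l 16765488))) (a (b (l 16764832) (l 16769640)) (b (l 16770304) (a (l 16769152) (b (l 16770040) (a (l 16770776) (b (l 16771216) (a (l 16771584) (b (l 16777032) (l 289071431159)))))))))) (b (a (b (l 16768768) (l 16770984)) (b (a (l 16770944) (l 16772392)) (a (b (l 16769976)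 (b (l 16770808) (b (l 16773840) (a (l 16776376) (a (l 16776920) (l 155927442807)))))) (b (a (l 16771072) (b (l 16776096) (b (a (l 16776992) (l 303566945751)) (a (c (l 141431929511) (l 141431929511)) (l 4))))) (a (b (a (l 16775624) (b (a (l 16777080) (l 16777160)) (l 177402282215))) (l 341684780167)) (l 4)))))) (a (b (a (l 16772456) (b (l 16773352) (a (a (l 16771288) (a (l 73249322887) (b (l 16776704) (b (l 16777104) (l 16776984))))) (b (a (l 16776296) (b (a (l 16777096) (l 16775808)) (l 223036309671))) (l 343295392519))))) (a (b (a (l 16773736) (b (l 73786193815) (a (b (l 16777024) (l 283702721927)) (b (l 126399545623) (l 4))))) (a (b (a (l 16776320) (b (l 101703480679) (l 227331276983))) (l 344906004871)) (l 4))) (b (a (b (a (b (l 89892320615) (l 202635215063)) (l 4)) (l 4)) (l 4)) (l 4)))) (b (a (b (a (b (l 53385098135) (b (a (l 16777008) (a (l 16777128) (l 4))) (a (l 154853701031) (l 4)))) (b (a (b (a (l 16777088) (l 16777136)) (l 199413989575)) (l 4)) (l 4))) (l 4))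 (l 4)) (l 4)))))), by decide +kernel⟩

def k39_mm_202_t : ∃ t, chk3 f_mm_202_t t 1010 264 1 = true :=
  ⟨(b (a (b (l 16765632) (l 16767888)) (b (l 16768568) (a (l 16770088) (l 16771560)))) (a (b (l 16770128) (a (l 16771632) (b (l 16769920) (a (l 16770664) (b (l 16771120) (a (l 16771496) (a (l 16774376) (b (l 16777048) (l 111367160023))))))))) (b (a (l 16772328) (b (l 16773248) (a (b (l 16771096) (a (l 16771472) (a (l 16774360) (b (l 16777032) (l 108682805447))))) (b (a (l 16775576) (b (l 116735868023) (a (l 90966065383) (l 4)))) (a (a (b (l 16777168) (l 4)) (l 207467053303)) (l 4)))))) (a (b (a (l 16771016) (b (l 16775400) (a (a (l 16774368) (b (l 16777040) (l 89355452663))) (a (b (l 16777168) (l 4)) (l 237531824327))))) (a (b (a (l 16775592) (b (l 123715189943) (a (l 100092870887) (l 4)))) (a (a (b (l 16777176) (l 4)) (l 251490468023)) (l 4))) (l 364770230279))) (b (a (b (a (b (l 119957093511) (a (l 111367160007) (l 4))) (l 231626244359)) (l 4)) (l 4)) (l 4)))))), by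 decide +kernel⟩

def k40_mm_202_t : ∃ t, chk3 f_mm_202_t t 1011 264 1 = true :=
  ⟨(b (a (b (a (l 16770784) (l 16772272)) (a (b (l 16772480) (a (l 16770616) (b (l 16771072) (a (l 16771448) (a (l 16774336) (b (l 16777016) (l 85060484039))))))) (b (a (l 16773592) (b (l 16775360) (b (a (l 16774288) (a (l 16777152) (l 146800640199))) (a (a (l 16777088) (l 87207967671)) (l 4))))) (a (b (a (l 16774248) (b (l 110830287959) (a (l 89355451319) (l 4)))) (b (a (a (l 16777160) (l 152706220231)) (l 4)) (l 4))) (b (l 297124495495) (l 4)))))) (b (a (b (l 16773192) (a (b (l 16771048) (b (l 16774096) (b (l 16776264) (a (l 16776880) (l 132305124023))))) (b (a (l 16774224) (b (l 104924707895) (a (l 148411252743) (l 4)))) (a (b (a (l 16777144) (l 141431931079)) (l 4)) (l 4))))) (b (a (b (l 16775344) (b (a (l 16774272) (a (l 16777136) (l 116198998247))) (a (a (l 16777072) (l 147337510903)) (l 4)))) (b (a (b (l 102240353335) (a (l 141431930871) (l 4))) (a (b (l 114051513943) (l 4)) (l 4)))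 (l 4))) (a (b (a (a (b (l 118883352807) (l 4)) (l 4)) (l 4)) (l 4)) (l 4)))) (a (b (a (b (a (b (l 108145933383) (a (a (l 16777184) (l 16777224)) (l 4))) (a (b (l 144116285639) (l 4)) (l 4))) (l 4)) (l 4)) (l 4)) (l 4)))) (a (b (a (b (a (b (l 16775384) (a (a (l 16774352) (b (l 16777024) (l 88818581735))) (a (b (l 16777160) (l 4)) (l 203172086007)))) (a (b (b (l 114051513447) (a (l 86671098087) (l 4))) (l 4)) (l 300882591911))) (a (b (l 300345720983) (l 4)) (l 4))) (l 4)) (l 4)) (l 4))), by decide +kernel⟩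

def k41_mm_202_t : ∃ t, chk3 f_mm_202_t t 505 265 1 = true :=
  ⟨(a (b (a (b (a (b (b (l 16770400) (l 16770952)) (a (b (l 16771144) (a (l 16771512) (a (l 16774392) (b (l 16777072) (l 323968040647))))) (b (a (l 16774952) (a (b (l 16777064) (l 319136202295)) (l 306251300039))) (l 340074167831)))) (b (a (b (l 16775424) (a (a (l 16774384) (b (l 16777056) (l 107609063655))) (a (b (l 16777184) (l 4)) (l 256859177143)))) (b (a (a (b (l 16777056) (l 131768254647)) (b (l 16777176) (l 4))) (l 253637951719)) (l 4))) (l 379265743815))) (a (b (a (b (a (a (b (l 16777072) (l 16777120)) (l 311620009399)) (l 4)) (l 4)) (l 4)) (l 4)) (l 4))) (l 4)) (l 4)) (l 4)), by decide +kernel⟩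

def k42_mm_202_t : ∃ t, chk3 f_mm_202_t t 252 133 1 = true :=
  ⟨(a (b (a (b (a (b (a (l 16768480) (l 16769904)) (a (b (l 16770104) (a (l 16770832) (b (l 16771272) (a (l 16771624) (b (l 16777072) (l 92576678215)))))) (b (a (l 16773792) (b (b (l 16771480) (l 94724160039)) (a (b (l 16777056) (l 88818580519)) (l 189750313271)))) (a (a (b (l 102777223815) (l 181697249623)) (l 322357427559)) (l 4))))) (b (a (b (l 16773408) (a (b (l 16771240) (a (l 16771600) (b (l 16777048) (l 90966064151)))) (b (a (l 97945385575) (b (l 116735868871) (l 243437404343))) (l 346516617223)))) (b (b (a (l 77544290231) (a (b (l 109219673463) (l 253101080727)) (l 4))) (b (a (a (l 16777040) (l 143042543879)) (l 4)) (l 339000424151))) (l 4))) (a (b (a (b (a (b (l 140895059863) (l 282092109959)) (l 4)) (l 4)) (l 4)) (l 4)) (l 4)))) (a (b (a (b (a (a (b (l 16776704) (b (l 16777080) (l 103314096439))) (b (l 105461578407) (l 210688278807))) (b (l 324504911319) (l 4))) (l 4)) (l 4)) (l 4)) (l 4))) (l 4))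 (l 4)) (l 4)), by decide +kernel⟩

def k43_mm_202_t : ∃ t, chk3 f_mm_202_t t 253 66 1 = true :=
  ⟨(l 4), by decide +kernel⟩

def k44_mm_202_t : ∃ t, chk3 f_mm_202_t t 127 66 1 = true :=
  ⟨(l 4), by decide +kernel⟩

def k45_mm_202_t : ∃ t, chk3 f_mm_202_t t 63 67 1 = true :=
  ⟨(l 4), by decide +kernel⟩

def k46_mm_202_t : ∃ t, chk3 f_mm_202_t t 60 34 1 = true :=
  ⟨(b (a (b (a (l 16627064) (b (l 16636272) (l 16645568))) (a (l 16645552) (b (l 16654584) (l 16663320)))) (b (a (b (l 16650984) (l 16660040)) (b (l 16666384) (l 16675216))) (a (b (l 16668832) (l 16677344)) (b (l 16673280) (a (l 16688304) (l 16695832)))))) (a (b (a (l 16662944) (b (l 16671792) (l 16679984))) (a (l 16668760) (b (l 16687912) (l 16695576)))) (b (a (b (l 16685584) (l 16693560)) (b (a (l 16696376) (l 16703784)) (a (l 16704176) (l 16711472)))) (a (b (l 16701256) (l 16698208)) (b (a (l 16711712) (l 16718896)) (a (l 16718984) (l 16726056))))))), by decide +kernel⟩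

def k47_mm_202_t : ∃ t, chk3 f_mm_202_t t 122 34 1 = true :=
  ⟨(b (b (a (b (a (l 16678376) (l 16686584)) (a (l 16687032) (l 16695120))) (b (a (l 16694936) (l 16703440)) (a (l 16703360) (l 16711744)))) (a (b (a (l 16695416) (l 16703384)) (a (l 16703528) (l 16711384))) (b (a (l 16711504) (l 16719776)) (a (l 16719384) (l 16727536))))) (b (a (b (a (l 16711368) (l 16719112)) (a (l 16718944) (l 16726568))) (b (a (l 16727000) (l 16735032)) (a (l 16734344) (l 16731776)))) (a (b (a (l 16726248) (l 16733760)) (a (l 16733288) (l 16740688))) (b (a (l 16730936) (a (l 16747256) (l 16751200))) (a (l 16740368) (a (l 16753992) (l 16747384))))))), by decide +kernel⟩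

def k48_mm_202_t : ∃ t, chk3 f_mm_202_t t 123 68 1 = true :=
  ⟨(b (a (b (a (l 16712088) (l 16720888)) (a (l 16720272) (l 16718472))) (b (a (l 16719360) (a (l 16736664) (l 16741256))) (a (a (l 16735576) (l 16740032)) (a (l 16744528) (l 16738576))))) (a (b (a (l 16728192) (l 16728896)) (a (l 16725352) (a (l 16742160) (l 16746424)))) (a (b (a (l 16743280) (l 16747680)) (b (l 16740576) (l 16749456))) (b (a (l 16741632) (l 16751352)) (a (l 16754200) (b (l 16762072) (l 16755152))))))), by decide +kernel⟩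

def k49_mm_202_t : ∃ t, chk3 f_mm_202_t t 246 69 1 = true :=
  ⟨(b (b (a (a (l 16741152) (l 16745288)) (a (l 16749456) (l 16743176))) (a (a (l 16748296) (l 16752368)) (a (l 16745992) (l 16755384)))) (a (b (a (l 16744688) (l 16753952)) (a (l 16756552) (b (l 16764136) (l 16756864)))) (a (b (l 16758000) (b (l 16757656) (l 16766088))) (b (a (l 16761064) (l 16763120)) (b (l 16766952) (a (l 16763856) (b (l 16770328) (a (b (l 16765760) (a (l 16776752) (l 142505662615))) (b (b (l 16771728) (l 145190013799)) (l 295513873847)))))))))), by decide +kernel⟩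

def k50_mm_202_t : ∃ t, chk3 f_mm_202_t t 247 69 1 = true :=
  ⟨(b (a (b (a (l 16752656) (a (l 16750624) (l 16758016))) (a (b (l 16763112) (l 16756016)) (b (l 16756864) (l 16765464)))) (b (a (a (l 16760176) (l 16762344)) (b (l 16763896) (a (l 16760992) (l 16768424)))) (b (a (l 16766384) (b (a (l 16763536) (a (l 16765160) (a (l 16771192) (b (l 16776584) (l 144653148119))))) (a (l 16773056) (a (b (a (l 16776624) (l 34057738631)) (l 280481491687)) (l 298198224679))))) (a (a (l 16768648) (b (l 16764712) (a (l 16773656) (b (a (l 16776696) (l 141431925527)) (l 283165845575))))) (a (b (a (a (l 16773888) (b (l 16776656) (l 145726884151))) (b (a (l 140358184103) (l 150558718855)) (l 4))) (l 300882572919)) (l 4)))))) (a (b (a (b (l 16764584) (a (l 16761568) (l 16763632))) (b (a (l 16762472) (b (l 16763752) (b (l 16764976) (l 33520869063)))) (a (b (l 16764904) (a (b (l 16776072) (l 33520868711)) (b (a (l 16776824) (l 144116273463)) (l 289608295175)))) (b (a (b (l 16771296) (a (l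 16771760) (l 148411237479))) (a (l 276186528135) (l 301956322359))) (l 4))))) (a (b (a (b (l 16763968) (a (l 16765048) (a (l 16765808) (b (l 16776416) (l 33520868279))))) (b (a (l 16765512) (b (l 16771360) (a (l 16773120) (l 150021849671)))) (a (b (a (l 16776888) (l 145190014551)) (l 292292649047)) (l 4)))) (a (b (a (b (l 16771432) (a (l 141968792039) (l 151095590871))) (l 285313330823)) (l 4)) (l 4))) (b (a (a (a (b (l 278870883319) (l 4)) (l 4)) (l 4)) (l 4)) (l 4)))) (b (a (b (a (b (a (l 16765336) (a (l 16773952) (b (l 16776728) (l 147337496263)))) (a (b (a (l 16776760) (l 142505661447)) (l 286387070375)) (l 301419448935))) (b (a (b (a (l 141968790887) (l 152169331079)) (l 4)) (l 4)) (l 4))) (l 4)) (l 4)) (l 4)))), by decide +kernel⟩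

def k51_mm_202_t : ∃ t, chk3 f_mm_202_t t 60 35 1 = true :=
  ⟨(b (a (a (b (b (l 16690760) (l 16698120)) (b (l 16705200) (l 16712008))) (b (b (l 16702976) (l 16710104)) (a (l 16717328) (l 16712848)))) (b (a (a (l 16705608) (b (l 16719200) (l 16726056))) (a (b (l 16725984) (l 16732728)) (b (l 16732944) (l 16739576)))) (a (a (b (l 16726248) (l 16732696)) (b (l 16732648) (l 16738984))) (a (b (l 16739216) (l 16745440)) (b (l 16745952) (l 16741584)))))) (a (b (a (b (l 16718544) (l 16724792)) (b (l 16719432) (l 16725496))) (a (b (l 16730760) (l 16725984)) (b (a (l 16738952) (l 16744616)) (a (l 16744520) (l 16750088))))) (a (b (b (a (l 16738880) (l 16745064)) (a (l 16744800) (l 16750880))) (b (a (l 16750440) (l 16745944)) (a (l 16745336) (l 16756472)))) (b (b (a (l 16740928) (a (l 16756280) (l 16759584))) (a (l 16751888) (a (l 16751432) (l 16759920)))) (a (b (a (l 16761024) (l 16753656)) (a (l 16755752) (l 16764064))) (b (b (l 16762328) (l 16764936)) (a (b (l 16760664) (l 16763168))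 (b (a (l 16763032) (l 16764624)) (a (b (l 16764896) (a (l 16765736) (b (l 16776688) (l 143042532615)))) (b (a (l 16771296) (b (l 16771728) (l 147337495175))) (a (l 267596588615) (l 4)))))))))))), by decide +kernel⟩

def k52_mm_202_t : ∃ t, chk3 f_mm_202_t t 122 70 1 = true :=
  ⟨(b (a (b (a (l 16740072) (l 16736872)) (a (l 16736104) (a (l 16751960) (l 16755584)))) (a (b (b (l 16753176) (l 16745904)) (a (l 16748752) (l 16757696))) (b (a (l 16755216) (l 16759040)) (a (l 16761424) (b (l 16758440) (l 16766696)))))) (a (b (a (l 16747608) (b (l 16747912) (l 16750928))) (a (a (l 16757144) (l 16750096)) (a (l 16758816) (l 16762328)))) (a (b (b (l 16760392) (a (l 16766784) (l 16759920))) (a (b (l 16759200) (l 16767288)) (a (b (l 16772384) (l 16772576)) (b (l 16763704) (b (a (l 16765368) (b (l 16765920) (a (l 16776856) (l 16772680)))) (a (b (l 16771592) (a (l 145190017303) (l 4))) (l 283702712311))))))) (b (a (b (l 16760672) (l 16768832)) (b (a (l 16763464) (b (l 16764608) (a (l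 16765592) (b (l 16771392) (a (l 16771808) (l 148948109943)))))) (a (b (b (l 16765280) (a (l 16776024) (l 16772936))) (a (b (l 16771464) (a (l 16771856) (l 150558722023))) (l 279944617335))) (b (a (b (a (l 16776896) (l 145726887367)) (l 285313327991)) (l 4)) (l 4))))) (a (b (a (b (l 16764816) (a (l 16771008) (b (l 16771528) (a (l 16772880) (l 151632463271))))) (b (a (b (l 16776320) (l 32447126823)) (b (a (l 16776960) (l 146800628407)) (l 288534552759))) (a (l 281555229367) (l 4)))) (a (b (a (b (b (l 16771792) (l 146800627559)) (l 292292648423)) (l 4)) (l 4)) (l 4))) (l 4)))))), by decide +kernel⟩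

def k53_mm_202_t : ∃ t, chk3 f_mm_202_t t 244 71 1 = true :=
  ⟨(b (a (b (a (l 16752440) (l 16761064)) (a (l 16763208) (b (l 16759944) (l 16762616)))) (b (a (l 16764480) (b (l 16761312) (a (l 16763192) (l 30299643879)))) (a (b (b (l 16762648) (l 16763992)) (a (a (l 16764704) (b (l 16775376) (l 30836514631))) (b (a (l 16765736) (a (l 16774176) (b (l 16776920) (l 148948111095)))) (a (b (a (l 16776952) (l 16772192)) (l 281555231783)) (l 4))))) (b (a (b (l 16765216) (a (l 16773936) (b (l 32447126327) (l 278870877975)))) (b (a (b (l 16776648) (l 144116278551)) (l 272428431543)) (l 4))) (a (b (a (l 274575909207) (l 4)) (l 4)) (l 4)))))) (a (b (b (a (l 16761936) (a (l 16764400) (b (l 16770648) (a (b (l 16776448) (l 16773056)) (b (l 143579408663) (l 284239585591)))))) (a (a (l 16763704) (b (l 16764688) (a (l 16765552) (b (l 16766048) (l 31910255479))))) (a (b (a (l 16771144) (b (l 16776856) (l 146263754695))) (a (b (l 144116278839) (l 4)) (l 4))) (b (l 280481483079) (l 4)))))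 (a (b (a (b (l 16770824) (a (b (l 16776608) (l 142505662455)) (l 266522850199))) (b (a (b (l 16776912) (l 146800624983)) (l 279407745207)) (l 4))) (a (b (l 281555223575) (l 4)) (l 4))) (l 4))) (b (a (b (a (b (a (a (l 16772928) (b (l 16776984) (l 150021852135))) (l 276186521207)) (l 4)) (l 4)) (l 4)) (l 4)) (l 4)))), by decide +kernel⟩

def k54_mm_202_t : ∃ t, chk3 f_mm_202_t t 245 71 1 = true :=
  ⟨(b (a (b (a (b (a (l 16763944) (b (l 16765016) (b (l 31373385911) (a (l 16776744) (b (l 146800627863) (l 152706203767)))))) (a (b (a (l 16765552) (b (l 16776568) (l 143042537527))) (a (b (l 31910256119) (l 148948106391)) (l 286923936407))) (b (b (b (l 269207206263) (l 282092100423)) (l 4)) (l 4)))) (b (a (b (a (a (l 16771344) (b (l 16776712) (l 145726887815))) (b (b (l 16771840) (l 147874368775)) (l 4))) (l 286387061239)) (l 4)) (l 4))) (l 4)) (l 4)) (l 4)), by decide +kernel⟩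

def k55_mm_202_t : ∃ t, chk3 f_mm_202_t t 123 35 1 = true :=
  ⟨(b (a (b (a (b (a (a (l 16761936) (l 16763880)) (b (l 16760016) (a (l 16762120) (a (l 16763584) (l 16764568))))) (a (b (l 16767504) (b (a (l 16774040) (l 16773304)) (a (l 16765032) (a (b (l 16771320) (b (l 16771784) (l 146263755927))) (a (l 270817818487) (l 292829518007)))))) (b (a (b (l 16764400) (a (l 16765416) (b (l 16766000) (a (l 16776944) (l 146800627655))))) (b (a (l 16771072) (b (l 32447126999) (b (l 146800626503) (l 152706201719)))) (a (b (a (l 16771848) (l 150558721079)) (l 4)) (l 4)))) (a (b (a (b (a (l 16776768) (l 16772416)) (l 279407749415)) (l 292829515719)) (l 4)) (l 4))))) (b (a (b (a (l 16762976) (b (l 16764184) (a (l 16765232) (b (l 16765840) (a (l 16776824) (l 144116274599)))))) (a (b (l 16770512) (a (b (l 16765920) (a (l 16776888) (l 145190015671))) (b (a (l 16771800) (l 149484979975)) (l 4)))) (b (a (b (l 16772864) (a (l 144653145143) (l 4))) (l 289071420647)) (l 4)))) (b (a (b (a (l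 16770920) (b (l 16771496) (a (l 143579404071) (l 152169332071)))) (a (b (b (l 16772432) (l 146800625959)) (l 299271969559)) (l 4))) (b (a (l 287460808567) (l 4)) (l 4))) (l 4))) (a (b (a (b (l 292292640135) (l 4)) (l 4)) (l 4)) (l 4)))) (a (b (a (b (a (b (a (l 16773848) (b (a (l 16776832) (l 144116275399)) (l 282092103239))) (a (l 277797138327) (l 4))) (b (l 296050735335) (l 4))) (l 4)) (l 4)) (l 4)) (l 4))) (l 4)) (l 4)), by decide +kernel⟩

def k56_mm_202_t : ∃ t, chk3 f_mm_202_t t 248 68 1 = true :=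
  ⟨(b (a (b (b (l 16735768) (l 16744936)) (a (l 16748392) (b (l 16756352) (l 16760128)))) (b (a (l 16748720) (a (l 16753592) (l 16755976))) (a (b (l 16761016) (l 16754280)) (b (l 16760480) (l 16764200))))) (a (b (b (a (l 16759264) (l 16763832)) (a (l 16762936) (l 16762232))) (a (b (l 16756056) (l 16764832)) (b (l 16765808) (a (l 16768192) (b (l 16764328) (a (l 16770736) (b (l 16774016) (a (l 140895058487) (l 152169329671))))))))) (b (a (b (l 16763200) (a (l 16760416) (l 16767960))) (b (a (l 16766680) (b (l 16762864) (b (l 16764224) (l 16765120)))) (a (b (l 16764136) (a (l 16765336) (b (l 16771272) (a (b (l 16776896) (l 16771280)) (b (l 147337498791) (l 4)))))) (b (a (a (l 16765584) (b (l 16776208) (b (l 16776864) (l 16771440)))) (b (a (l 16771520) (a (l 140358179319) (l 147337496999))) (l 297661358551))) (a (b (b (l 217130724231) (l 305714422775)) (l 4)) (l 4)))))) (a (b (a (l 16769216) (b (a (l 16764808) (b (l 16765512) (b (l 16771400) (a (l 16776808) (l 16772424)))))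 (a (b (l 16771328) (a (l 139821312263) (l 151095588167))) (b (l 283165848743) (l 4))))) (a (b (a (a (l 16770984) (b (l 16776360) (l 140358182871))) (a (b (l 16771632) (l 151632458759)) (l 287997687687))) (a (b (l 286387070951) (l 4)) (l 4))) (l 4))) (b (a (b (a (b (a (l 16771576) (b (l 16777104) (l 152169334775))) (l 300345712487)) (l 4)) (l 4)) (l 4)) (l 4)))))), by decide +kernel⟩

def k57_mm_202_t : ∃ t, chk3 f_mm_202_t t 249 136 1 = true :=
  ⟨(a (b (a (b (l 16752408) (l 16761472)) (b (l 16762496) (a (l 16759840) (l 16767504)))) (a (b (l 16765224) (a (l 16767728) (b (l 16763944) (a (l 16765176) (b (l 16771136) (a (l 35131481191) (l 236994942855))))))) (b (b (a (l 16773128) (a (l 16764448) (l 35668352455))) (a (l 16764496) (a (b (l 16771072) (a (l 16772936) (l 294440139735))) (a (a (b (l 16776992) (l 4)) (l 290145172631)) (l 310546257543))))) (a (b (a (b (l 16775760) (l 35131481255)) (b (a (l 16771400) (l 196729631639)) (l 292292650663))) (a (b (a (b (l 16777000) (l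 147874368887)) (l 309472519687)) (l 4)) (l 4))) (b (a (l 312693737879) (l 4)) (l 4)))))) (b (a (b (a (l 16766160) (b (l 16772904) (l 16764312))) (a (b (l 16763752) (a (l 16765008) (b (l 16765760) (a (l 16771576) (b (l 16771800) (l 154316816423)))))) (b (a (l 16773424) (b (a (l 16766032) (b (l 16776872) (l 143579403095))) (a (b (l 16777104) (l 153243074903)) (l 4)))) (a (a (b (b (l 16776904) (l 144116273719)) (l 4)) (l 308935645415)) (l 4))))) (b (a (b (l 16772744) (a (b (l 16765688) (a (l 16771528) (b (l 16777080) (l 152169333207)))) (a (b (b (l 16776848) (l 142505661559)) (l 4)) (l 306788162375)))) (b (a (b (a (l 16765960) (b (l 16776824) (l 141431920023))) (a (b (l 16777064) (l 151632462599)) (l 4))) (b (l 303566938775) (l 4))) (l 4))) (a (b (a (l 310546265943) (l 4)) (l 4)) (l 4)))) (a (b (a (b (a (b (a (l 16766096) (b (l 16776928) (l 145190015255))) (l 289071428423)) (l 311619996663)) (l 4)) (l 4)) (l 4)) (l 4)))), by decide +kernel⟩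

def k58_mm_202_t : ∃ t, chk3 f_mm_202_t t 249 137 1 = true :=
  ⟨(a (b (a (b (a (b (a (l 16764624) (a (l 16765512) (b (l 16776128) (l 35131480919)))) (a (b (l 16771200) (b (a (l 16776832) (l 145726886695)) (l 228941888759))) (b (b (l 211762015415) (l 301956327015)) (l 4)))) (b (a (b (b (l 16771504) (l 195655890679)) (l 294977004599)) (l 313767479111)) (l 4))) (l 4)) (l 4)) (l 4)) (l 4)), by decide +kernel⟩

def k59_mm_202_t : ∃ t, chk3 f_mm_202_t t 124 69 1 = true :=
  ⟨(a (b (a (b (a (b (a (l 16761960) (l 16772032)) (a (b (l 16764520) (a (l 16770888) (b (a (l 16776552) (l 34057739527)) (l 277260269511)))) (b (a (a (l 16771128) (b (l 16766024) (l 143042536071))) (b (a (l 16773040) (l 148411236375)) (l 308935645207))) (a (l 296587612551) (l 4))))) (b (a (b (a (l 16764984) (a (l 16771056) (b (l 16776440) (l 141431929079)))) (a (b (l 34057739911) (a (l 142505665335) (l 153243070855))) (l 294977005671))) (b (a (a (b (l 16776928) (l 152706200263)) (l 290682036375)) (l 4))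 (l 4))) (l 4))) (a (b (a (b (a (b (a (l 34057738999) (l 149484977543)) (l 4)) (l 4)) (l 4)) (l 4)) (l 4)) (l 4))) (l 4)) (l 4)) (l 4)), by decide +kernel⟩

def k60_mm_202_t : ∃ t, chk3 f_mm_202_t t 125 34 1 = true :=
  ⟨(l 4), by decide +kernel⟩

def k61_mm_202_t : ∃ t, chk3 f_mm_202_t t 62 35 1 = true :=
  ⟨(l 4), by decide +kernel⟩

def k62_mm_202_t : ∃ t, chk3 f_mm_202_t t 63 17 1 = true :=
  ⟨(l 4), by decide +kernel⟩

def k63_mm_202_t : ∃ t, chk3 f_mm_202_t t 28 18 1 = true :=
  ⟨(b (a (b (a (l 16670184) (l 16672920)) (a (l 16697976) (l 16699520))) (b (a (l 16677624) (l 16663384)) (a (l 16682048) (l 16687560)))) (a (b (b (l 16688512) (l 16685056)) (a (l 16693720) (l 16690192))) (b (a (l 16703408) (a (l 16706472) (l 16709168))) (a (l 16706096) (b (l 16720424) (l 16741472)))))), by decide +kernel⟩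

def k64_mm_202_t : ∃ t, chk3 f_mm_202_t t 29 18 1 = true :=
  ⟨(b (a (b (a (b (l 16686816) (l 16699296)) (b (l 16677496) (a (l 16707272) (l 16713464)))) (a (a (l 16693040) (l 16697416)) (b (a (l 16718272) (l 16724144)) (a (l 16728296) (l 16733856))))) (b (a (b (a (l 16709008) (l 16716896)) (a (l 16720344) (l 16727888))) (a (b (l 16714968) (b (l 16733536) (l 16738616))) (b (b (l 16731952) (l 16737344)) (b (l 16742504) (l 16736928))))) (a (a (b (l 16730696) (l 16740096)) (b (l 16727432) (l 16736512))) (b (a (b (l 16743464) (l 16748072)) (b (l 16741608) (l 16746048))) (a (b (l 16731480) (l 16735624)) (b (l 16752888) (a (l 16762632) (l 16745896)))))))) (a (b (a (b (l 16709800) (l 16718376)) (b (a (l 16737368) (l 16742632)) (a (l 16745520) (l 16729512)))) (a (b (l 16726040) (l 16732808)) (b (a (l 16731792) (l 16736472)) (a (l 16759128) (l 16742560))))) (a (b (b (a (l 16727592) (l 16747288)) (a (l 16735144) (a (l 16739800) (l 16743104)))) (a (b (l 16741816) (l 16747632)) (b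 (b (l 16746304) (l 16749280)) (a (l 16751848) (b (l 16774552) (a (l 16776224) (l 231089368055))))))) (b (a (b (a (l 16739552) (l 16753824)) (b (l 16757208) (b (l 16749184) (l 16750760)))) (b (a (l 16761704) (b (l 16749616) (l 16770136))) (a (b (b (l 16751584) (l 16753208)) (a (l 16765032) (b (l 16766744) (l 243974260375)))) (b (a (b (l 16754576) (b (l 16766160) (l 131768227047))) (b (a (l 16766416) (l 249342971751)) (l 4))) (a (l 251490435927) (l 4)))))) (a (b (a (b (l 16751280) (l 16764584)) (b (a (l 16753904) (b (l 16775936) (l 129083869255))) (a (b (l 16766328) (l 243437386535)) (l 267059690135)))) (a (b (a (b (l 16776272) (l 126936383479)) (l 239679285783)) (l 4)) (l 4))) (b (a (b (a (b (l 237531815623) (l 4)) (l 4)) (l 4)) (l 4)) (l 4))))))), by decide +kernel⟩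

def k65_mm_202_t : ∃ t, chk3 f_mm_202_t t 14 19 1 = true :=
  ⟨(a (b (a (b (a (l 16691992) (l 16710536)) (a (l 16693736) (l 16692528))) (b (a (l 16706608) (b (l 16721336) (l 16723048))) (a (l 16715928) (b (l 16725608) (l 16729016))))) (a (b (a (l 16698544) (l 16698592)) (a (l 16706192) (l 16707496))) (b (a (a (l 16734248) (l 16743472)) (b (l 16733248) (l 16738208))) (a (l 16728128) (a (l 16742488) (b (l 16748296) (l 16733608))))))) (a (b (b (a (b (l 16734864) (l 16737136)) (b (a (l 16743656) (l 16747800)) (a (l 16746400) (l 16751840)))) (a (a (l 16738544) (l 16756688)) (a (b (l 16749928) (a (l 16773648) (l 35131432295))) (b (a (l 16754320) (b (l 16755864) (l 227331245607))) (a (l 223036270759) (l 4)))))) (a (b (a (b (l 16745168) (l 16771528)) (b (l 16752552) (a (l 16745128) (l 217130686151)))) (a (b (a (l 16775504) (l 107072108471)) (l 248806045735)) (l 4))) (b (a (b (a (l 214446355719) (l 4)) (l 4)) (l 4)) (l 4)))) (b (a (b (a (b (a (l 16751336) (l 29225883527)) (a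 (a (l 16754904) (b (l 16776120) (l 227868131095))) (b (l 226257530391) (l 4)))) (b (a (b (a (l 16775752) (l 33520841623)) (l 232699959895)) (b (l 260617235879) (l 4))) (l 4))) (a (b (a (l 260080342423) (l 4)) (l 4)) (l 4))) (l 4)) (l 4)))), by decide +kernel⟩

def k66_mm_202_t : ∃ t, chk3 f_mm_202_t t 120 36 1 = true :=
  ⟨(b (a (b (b (l 16731448) (a (l 16744632) (l 16749696))) (b (a (l 16749656) (l 16754632)) (a (l 16754440) (l 16759328)))) (b (b (a (l 16749840) (l 16755320)) (a (l 16754920) (l 16749824))) (b (a (l 16749280) (l 16759824)) (a (l 16753888) (l 16764344))))) (a (b (b (a (l 16758984) (l 16753304)) (a (l 16763304) (l 16757536))) (a (b (l 16756904) (l 16760768)) (b (b (l 16760560) (l 16762504)) (a (l 16769400) (b (a (l 16754496) (l 30299637463)) (a (a (l 16768992) (l 136063198327)) (l 258469773527))))))) (b (a (b (l 16763512) (b (l 16761400) (a (l 16772672) (a (l 16774520) (l 16765272))))) (b (a (l 16762088) (b (l 16763648) (a (l 16765072) (b (l 16776336) (a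 (l 16771704) (l 140358170343)))))) (a (b (a (l 16754056) (l 29225898823)) (a (b (l 16776488) (a (l 16771808) (l 140358169063))) (l 257932909447))) (b (a (b (a (l 16776728) (l 138210690647)) (l 261691004423)) (l 4)) (l 4))))) (a (b (a (b (l 16753672) (a (l 16765464) (b (l 16776632) (l 137136941975)))) (b (a (l 29762768071) (b (l 136063215783) (l 262764744743))) (a (l 258469774967) (l 4)))) (a (b (a (b (l 135526333015) (l 4)) (l 4)) (l 4)) (l 4))) (l 4))))), by decide +kernel⟩

def k67_mm_202_t : ∃ t, chk3 f_mm_202_t t 121 72 1 = true :=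
  ⟨(a (b (a (b (l 16755720) (l 16760288)) (b (a (l 16754808) (l 16762992)) (b (l 16765144) (a (l 16771296) (l 16763688))))) (a (b (b (l 16758896) (l 16766408)) (a (b (l 16762016) (l 16764184)) (b (l 16772600) (a (b (l 16765680) (a (l 16776832) (l 140895042567))) (b (a (l 31910252359) (l 265985974407)) (l 4)))))) (b (a (b (l 16763104) (a (l 16764640) (b (l 16765496) (b (l 16771504) (a (l 16776952) (l 144116270007)))))) (b (a (l 16770480) (b (a (l 16765760) (l 30836513079)) (a (a (l 16771816) (l 142505657783)) (l 274575906679)))) (a (b (a (l 31373383207) (l 262764750503)) (l 4)) (l 4)))) (a (b (a (b (a (l 16765936) (l 31910253239)) (l 259006658199)) (b (l 267059712807) (l 4))) (l 4)) (l 4))))) (b (a (b (a (l 16765968) (b (l 16762536) (a (l 16764184) (b (l 16765104) (a (l 16765904) (a (l 16771656) (l 142505665351))))))) (a (b (l 16769544) (a (b (l 16765304) (b (l 16771368) (a (l 16776832) (l 143579400375)))) (b (a (l 16772880) (l 260080397543)) (l 274575903095)))) (b (a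 (b (l 29762772343) (a (a (l 16771712) (l 142505659271)) (l 271891553623))) (b (a (l 258469788247) (l 4)) (l 4))) (l 4)))) (b (a (b (b (l 16772848) (a (l 16765440) (a (b (l 16776760) (l 143042531783)) (l 269207200583)))) (a (b (a (l 16771440) (b (l 16772488) (l 275649652151))) (l 273502162679)) (l 4))) (b (a (b (a (b (l 16773096) (l 147337494471)) (l 4)) (l 4)) (l 4)) (l 4))) (l 4))) (a (b (a (b (a (b (l 265985977719) (l 4)) (l 4)) (l 4)) (l 4)) (l 4)) (l 4)))), by decide +kernel⟩

def k68_mm_202_t : ∃ t, chk3 f_mm_202_t t 121 73 1 = true :=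
  ⟨(a (b (a (b (a (b (a (l 16772144) (b (a (l 16776584) (l 138210692359)) (l 260617264135))) (a (b (l 252564206775) (l 4)) (l 4))) (b (a (l 269207188647) (l 4)) (l 4))) (l 4)) (l 4)) (l 4)) (l 4)), by decide +kernel⟩

def k69_mm_202_t : ∃ t, chk3 f_mm_202_t t 60 37 1 = true :=
  ⟨(a (b (a (b (a (b (a (l 16752832) (b (l 16754144) (b (l 16765880) (a (l 16776704) (l 136063197383))))) (a (b (l 29762763287) (a (l 133378840871) (l 4))) (b (l 252027320487) (l 4)))) (b (a (b (a (l 30299635927) (l 248806103943)) (l 271891537463)) (l 4)) (l 4))) (l 4)) (l 4)) (l 4)) (l 4)), by decide +kernel⟩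

def k70_mm_202_t : ∃ t, chk3 f_mm_202_t t 61 18 1 = true :=
  ⟨(l 4), by decide +kernel⟩

def k71_mm_202_t : ∃ t, chk3 f_mm_202_t t 30 19 1 = true :=
  ⟨(l 4), by decide +kernel⟩

def k72_mm_202_t : ∃ t, chk3 f_mm_202_t t 31 9 1 = true :=
  ⟨(l 4), by decide +kernel⟩

def k73_mm_202_t : ∃ t, chk3 f_mm_202_t t 6 10 1 = true :=
  ⟨(a (a (b (b (a (l 16191512) (b (l 16265320) (l 16263208))) (a (l 16176496) (b (l 16264664) (l 16269600)))) (b (a (l 16188648) (l 16241416)) (a (l 16214136) (l 16313040)))) (b (b (a (b (l 16345720) (l 16346040)) (b (l 16422000) (l 16424736))) (a (b (l 16349864) (l 16357096)) (b (l 16430904) (l 16440408)))) (b (a (b (l 16367656) (l 16381440)) (b (l 16453168) (l 16469080))) (a (l 16387016) (l 16435768))))) (b (a (b (a (b (l 16493816) (l 16498952)) (b (l 16560816) (l 16568328))) (a (b (l 16507440) (l 16519200)) (b (l 16579136) (l 16593144)))) (a (b (b (l 16601640) (l 16611528)) (b (l 16624648) (l 16640904))) (b (b (a (l 16665320) (l 16691944)) (a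 (l 16676992) (l 16704808))) (b (l 16659312) (l 16683072))))) (a (b (a (b (l 16534144) (l 16552184)) (b (l 16610272) (l 16630416))) (a (b (l 16573224) (l 16597168)) (a (l 16625320) (l 16664696)))) (a (b (b (l 16660208) (l 16661504)) (b (l 16686632) (a (l 16716824) (l 53921873079)))) (b (b (a (l 16730760) (l 16719216)) (a (l 16733384) (a (l 16731192) (l 16704784)))) (a (b (b (l 16750456) (l 16718360)) (l 4)) (l 4))))))), by decide +kernel⟩

def k74_mm_202_t : ∃ t, chk3 f_mm_202_t t 6 11 1 = true :=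
  ⟨(a (b (a (b (a (l 16252232) (l 16355032)) (a (l 16302192) (l 16408600))) (b (a (l 16432864) (l 16485456)) (a (l 16490000) (l 16546152)))) (a (b (a (l 16363288) (l 16472992)) (a (l 16434768) (l 16526512))) (b (a (l 16536712) (l 16596144)) (a (l 16593232) (a (l 17951373575) (b (l 16738936) (l 16757504))))))) (b (a (b (a (l 16554456) (b (l 16666176) (b (l 16689384) (l 16683184)))) (a (a (l 16658728) (l 16662168)) (b (a (l 16709056) (l 16717416)) (a (l 16724176) (l 4))))) (a (b (b (a (l 16743576) (l 119420055719)) (a (l 119420081175) (l 4))) (l 4)) (l 4))) (a (a (b (a (b (l 16733880) (l 16744912)) (b (l 16728920) (l 16744480))) (b (l 116735666407) (l 4))) (l 4)) (l 4)))), by decide +kernel⟩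

def k75_mm_202_t : ∃ t, chk3 f_mm_202_t t 7 5 1 = true :=
  ⟨(a (a (b (b (a (b (b (a (l 16717040) (l 16719576)) (a (l 16710128) (l 16734832))) (a (b (l 16727312) (a (l 16740480) (l 16731512))) (b (b (l 16747720) (l 90429083143)) (a (l 86670952327) (l 4))))) (b (a (b (a (l 16736136) (l 16746560)) (a (l 41573864199) (b (l 16726280) (l 4)))) (b (a (b (l 16773592) (l 100092763495)) (b (l 241826741831) (l 4))) (l 4))) (a (b (l 239679201191) (l 4)) (l 4)))) (a (b (a (b (a (l 82912887751) (l 4)) (l 4)) (l 4)) (l 4)) (l 4))) (l 4)) (l 4)) (l 4)), by decide +kernel⟩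

def k76_mm_202_t : ∃ t, chk3 f_mm_202_t t 2 3 1 = true :=
  ⟨(b (a (b (a (b (l 6) (a (l 6) (b (l 6) (l 14840968)))) (b (a (b (l 6) (l 15013552)) (b (l 15252280) (l 15316936))) (a (b (l 15083768) (l 15165352)) (b (l 15392944) (l 15479512))))) (b (a (a (b (l 6) (l 14682088)) (b (l 14928312) (l 15026248))) (a (b (l 15257496) (l 15359376)) (b (l 15575824) (l 15681056)))) (b (a (a (l 14786008) (l 15133952)) (a (l 15470152) (l 15794376))) (l 2)))) (b (a (b (a (b (l 15539832) (l 15610472)) (b (l 15817000) (l 15893152))) (a (b (l 15691704) (l 15782720)) (b (l 15979168) (l 16074256)))) (b (a (b (l 15956760) (l 16038088)) (b (a (l 16273672) (l 16396600)) (a (l 16358776) (l 16484144)))) (a (b (l 16128592) (l 16206528)) (b (a (l 16452576) (l 16559120)) (a (l 16554304) (l 16556552)))))) (a (b (a (b (l 15882720) (l 15990880)) (b (l 16135664) (l 16225512))) (a (b (l 16106384) (l 16207440)) (b (l 16301040) (l 16382400)))) (b (a (b (l 16292080) (l 16384440)) (b (a (b (l 16635264) (l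 16649152)) (b (l 16666408) (l 16739264))) (a (a (l 16673072) (l 16721512)) (l 4)))) (a (b (a (l 16580608) (b (l 16693840) (l 16742072))) (a (b (l 16690496) (l 16733792)) (l 16708112))) (b (a (l 16702304) (l 4)) (l 4))))))) (a (l 2) (a (l 2) (a (l 2) (l 4))))), by decide +kernel⟩

def k77_mm_202_t : ∃ t, chk3 f_mm_202_t t 3 3 1 = true :=
  ⟨(a (a (b (b (b (a (b (b (l 16447432) (l 16490888)) (a (l 16563912) (a (l 16652744) (b (l 16728520) (l 16765896))))) (b (a (b (l 16656184) (a (l 16737480) (l 16766696))) (b (l 164517285655) (l 4))) (a (b (l 118883230535) (l 4)) (l 4)))) (a (b (a (b (l 16657688) (l 16641720)) (b (a (l 16760392) (l 16755088)) (l 16725712))) (a (a (b (l 16747568) (l 16765592)) (l 16711128)) (l 4))) (l 4))) (l 4)) (l 4)) (l 4)) (l 4)), by decide +kernel⟩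

theorem s78_mm_202_t : ∃ t, chk3 f_mm_202_t t 1 3 1 = true := ex3_a k76_mm_202_t k77_mm_202_t

theorem s79_mm_202_t : ∃ t, chk3 f_mm_202_t t 6 5 1 = true := ex3_b k73_mm_202_t k74_mm_202_t

theorem s80_mm_202_t : ∃ t, chk3 f_mm_202_t t 3 5 1 = true := ex3_a s79_mm_202_t k75_mm_202_t

theorem s81_mm_202_t : ∃ t, chk3 f_mm_202_t t 121 36 1 = true := ex3_b k67_mm_202_t k68_mm_202_t

theorem s82_mm_202_t : ∃ t, chk3 f_mm_202_t t 60 36 1 = true := ex3_a k66_mm_202_t s81_mm_202_t

theorem s83_mm_202_t : ∃ t, chk3 f_mm_202_t t 60 18 1 = true := ex3_b s82_mm_202_t k69_mm_202_t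

theorem s84_mm_202_t : ∃ t, chk3 f_mm_202_t t 30 18 1 = true := ex3_a s83_mm_202_t k70_mm_202_t

theorem s85_mm_202_t : ∃ t, chk3 f_mm_202_t t 30 9 1 = true := ex3_b s84_mm_202_t k71_mm_202_t

theorem s86_mm_202_t : ∃ t, chk3 f_mm_202_t t 15 9 1 = true := ex3_a s85_mm_202_t k72_mm_202_t

theorem s87_mm_202_t : ∃ t, chk3 f_mm_202_t t 14 18 1 = true := ex3_a k63_mm_202_t k64_mm_202_t

theorem s88_mm_202_t : ∃ t, chk3 f_mm_202_t t 14 9 1 = true := ex3_b s87_mm_202_t k65_mm_202_t

theorem s89_mm_202_t : ∃ t, chk3 f_mm_202_t t 7 9 1 = true := ex3_a s88_mm_202_t s86_mm_202_t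

theorem s90_mm_202_t : ∃ t, chk3 f_mm_202_t t 249 68 1 = true := ex3_b k57_mm_202_t k58_mm_202_t

theorem s91_mm_202_t : ∃ t, chk3 f_mm_202_t t 124 68 1 = true := ex3_a k56_mm_202_t s90_mm_202_t

theorem s92_mm_202_t : ∃ t, chk3 f_mm_202_t t 124 34 1 = true := ex3_b s91_mm_202_t k59_mm_202_t

theorem s93_mm_202_t : ∃ t, chk3 f_mm_202_t t 62 34 1 = true := ex3_a s92_mm_202_t k60_mm_202_t

theorem s94_mm_202_t : ∃ t, chk3 f_mm_202_t t 62 17 1 = true := ex3_b s93_mm_202_t k61_mm_202_t

theorem s95_mm_202_t : ∃ t, chk3 f_mm_202_t t 31 17 1 = true := ex3_a s94_mm_202_t k62_mm_202_t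

theorem s96_mm_202_t : ∃ t, chk3 f_mm_202_t t 122 71 1 = true := ex3_a k53_mm_202_t k54_mm_202_t

theorem s97_mm_202_t : ∃ t, chk3 f_mm_202_t t 122 35 1 = true := ex3_b k52_mm_202_t s96_mm_202_t

theorem s98_mm_202_t : ∃ t, chk3 f_mm_202_t t 61 35 1 = true := ex3_a s97_mm_202_t k55_mm_202_t

theorem s99_mm_202_t : ∃ t, chk3 f_mm_202_t t 30 35 1 = true := ex3_a k51_mm_202_t s98_mm_202_t

theorem s100_mm_202_t : ∃ t, chk3 f_mm_202_t t 123 69 1 = true := ex3_a k49_mm_202_t k50_mm_202_t

theorem s101_mm_202_t : ∃ t, chk3 f_mm_202_t t 123 34 1 = true := ex3_b k48_mm_202_t s100_mm_202_t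

theorem s102_mm_202_t : ∃ t, chk3 f_mm_202_t t 61 34 1 = true := ex3_a k47_mm_202_t s101_mm_202_t

theorem s103_mm_202_t : ∃ t, chk3 f_mm_202_t t 30 34 1 = true := ex3_a k46_mm_202_t s102_mm_202_t

theorem s104_mm_202_t : ∃ t, chk3 f_mm_202_t t 30 17 1 = true := ex3_b s103_mm_202_t s99_mm_202_t

theorem s105_mm_202_t : ∃ t, chk3 f_mm_202_t t 15 17 1 = true := ex3_a s104_mm_202_t s95_mm_202_t

theorem s106_mm_202_t : ∃ t, chk3 f_mm_202_t t 505 264 1 = true := ex3_a k39_mm_202_t k40_mm_202_t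

theorem s107_mm_202_t : ∃ t, chk3 f_mm_202_t t 505 132 1 = true := ex3_b s106_mm_202_t k41_mm_202_t

theorem s108_mm_202_t : ∃ t, chk3 f_mm_202_t t 252 132 1 = true := ex3_a k38_mm_202_t s107_mm_202_t

theorem s109_mm_202_t : ∃ t, chk3 f_mm_202_t t 252 66 1 = true := ex3_b s108_mm_202_t k42_mm_202_t

theorem s110_mm_202_t : ∃ t, chk3 f_mm_202_t t 126 66 1 = true := ex3_a s109_mm_202_t k43_mm_202_t

theorem s111_mm_202_t : ∃ t, chk3 f_mm_202_t t 63 66 1 = true := ex3_a s110_mm_202_t k44_mm_202_t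

theorem s112_mm_202_t : ∃ t, chk3 f_mm_202_t t 63 33 1 = true := ex3_b s111_mm_202_t k45_mm_202_t

theorem s113_mm_202_t : ∃ t, chk3 f_mm_202_t t 250 67 1 = true := ex3_b k35_mm_202_t k36_mm_202_t

theorem s114_mm_202_t : ∃ t, chk3 f_mm_202_t t 125 67 1 = true := ex3_a s113_mm_202_t k37_mm_202_t

theorem s115_mm_202_t : ∃ t, chk3 f_mm_202_t t 62 67 1 = true := ex3_a k34_mm_202_t s114_mm_202_t

theorem s116_mm_202_t : ∃ t, chk3 f_mm_202_t t 503 133 1 = true := ex3_b k32_mm_202_t k33_mm_202_t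

theorem s117_mm_202_t : ∃ t, chk3 f_mm_202_t t 251 133 1 = true := ex3_a k31_mm_202_t s116_mm_202_t

theorem s118_mm_202_t : ∃ t, chk3 f_mm_202_t t 251 66 1 = true := ex3_b k30_mm_202_t s117_mm_202_t

theorem s119_mm_202_t : ∃ t, chk3 f_mm_202_t t 125 66 1 = true := ex3_a k29_mm_202_t s118_mm_202_t

theorem s120_mm_202_t : ∃ t, chk3 f_mm_202_t t 62 66 1 = true := ex3_a k28_mm_202_t s119_mm_202_t

theorem s121_mm_202_t : ∃ t, chk3 f_mm_202_t t 62 33 1 = true := ex3_b s120_mm_202_t s115_mm_202_t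

theorem s122_mm_202_t : ∃ t, chk3 f_mm_202_t t 31 33 1 = true := ex3_a s121_mm_202_t s112_mm_202_t

theorem s123_mm_202_t : ∃ t, chk3 f_mm_202_t t 1014 524 1 = true := ex3_a k22_mm_202_t k23_mm_202_t

theorem s124_mm_202_t : ∃ t, chk3 f_mm_202_t t 1014 262 1 = true := ex3_b s123_mm_202_t k24_mm_202_t

theorem s125_mm_202_t : ∃ t, chk3 f_mm_202_t t 507 262 1 = true := ex3_a s124_mm_202_t k25_mm_202_t

theorem s126_mm_202_t : ∃ t, chk3 f_mm_202_t t 507 131 1 = true := ex3_b s125_mm_202_t k26_mm_202_t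

theorem s127_mm_202_t : ∃ t, chk3 f_mm_202_t t 1012 263 1 = true := ex3_b k19_mm_202_t k20_mm_202_t

theorem s128_mm_202_t : ∃ t, chk3 f_mm_202_t t 506 263 1 = true := ex3_a s127_mm_202_t k21_mm_202_t

theorem s129_mm_202_t : ∃ t, chk3 f_mm_202_t t 506 131 1 = true := ex3_b k18_mm_202_t s128_mm_202_t

theorem s130_mm_202_t : ∃ t, chk3 f_mm_202_t t 253 131 1 = true := ex3_a s129_mm_202_t s126_mm_202_t

theorem s131_mm_202_t : ∃ t, chk3 f_mm_202_t t 1015 523 1 = true := ex3_a k16_mm_202_t k17_mm_202_t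

theorem s132_mm_202_t : ∃ t, chk3 f_mm_202_t t 1015 261 1 = true := ex3_b k15_mm_202_t s131_mm_202_t

theorem s133_mm_202_t : ∃ t, chk3 f_mm_202_t t 507 261 1 = true := ex3_a k14_mm_202_t s132_mm_202_t

theorem s134_mm_202_t : ∃ t, chk3 f_mm_202_t t 507 130 1 = true := ex3_b k13_mm_202_t s133_mm_202_t

theorem s135_mm_202_t : ∃ t, chk3 f_mm_202_t t 253 130 1 = true := ex3_a k12_mm_202_t s134_mm_202_t

theorem s136_mm_202_t : ∃ t, chk3 f_mm_202_t t 253 65 1 = true := ex3_b s135_mm_202_t s130_mm_202_t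

theorem s137_mm_202_t : ∃ t, chk3 f_mm_202_t t 126 65 1 = true := ex3_a k11_mm_202_t s136_mm_202_t

theorem s138_mm_202_t : ∃ t, chk3 f_mm_202_t t 63 65 1 = true := ex3_a s137_mm_202_t k27_mm_202_t

theorem s139_mm_202_t : ∃ t, chk3 f_mm_202_t t 63 32 1 = true := ex3_b k10_mm_202_t s138_mm_202_t

theorem s140_mm_202_t : ∃ t, chk3 f_mm_202_t t 62 32 1 = true := ex3_b k8_mm_202_t k9_mm_202_t

theorem s141_mm_202_t : ∃ t, chk3 f_mm_202_t t 31 32 1 = true := ex3_a s140_mm_202_t s139_mm_202_t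

theorem s142_mm_202_t : ∃ t, chk3 f_mm_202_t t 31 16 1 = true := ex3_b s141_mm_202_t s122_mm_202_t

theorem s143_mm_202_t : ∃ t, chk3 f_mm_202_t t 30 33 1 = true := ex3_a k6_mm_202_t k7_mm_202_t

theorem s144_mm_202_t : ∃ t, chk3 f_mm_202_t t 30 32 1 = true := ex3_a k4_mm_202_t k5_mm_202_t

theorem s145_mm_202_t : ∃ t, chk3 f_mm_202_t t 30 16 1 = true := ex3_b s144_mm_202_t s143_mm_202_t

theorem s146_mm_202_t : ∃ t, chk3 f_mm_202_t t 15 16 1 = true := ex3_a s145_mm_202_t s142_mm_202_t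

theorem s147_mm_202_t : ∃ t, chk3 f_mm_202_t t 15 8 1 = true := ex3_b s146_mm_202_t s105_mm_202_t

theorem s148_mm_202_t : ∃ t, chk3 f_mm_202_t t 14 8 1 = true := ex3_b k2_mm_202_t k3_mm_202_t

theorem s149_mm_202_t : ∃ t, chk3 f_mm_202_t t 7 8 1 = true := ex3_a s148_mm_202_t s147_mm_202_t

theorem s150_mm_202_t : ∃ t, chk3 f_mm_202_t t 7 4 1 = true := ex3_b s149_mm_202_t s89_mm_202_t

theorem s151_mm_202_t : ∃ t, chk3 f_mm_202_t t 3 4 1 = true := ex3_a k1_mm_202_t s150_mm_202_t

theorem s152_mm_202_t : ∃ t, chk3 f_mm_202_t t 3 2 1 = true := ex3_b s151_mm_202_t s80_mm_202_t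

theorem s153_mm_202_t : ∃ t, chk3 f_mm_202_t t 1 2 1 = true := ex3_a k0_mm_202_t s152_mm_202_t

theorem s154_mm_202_t : ∃ t, chk3 f_mm_202_t t 1 1 1 = true := ex3_b s153_mm_202_t s78_mm_202_t

theorem c_mm_202_t : CertNE 0 536870912 0 536870912 1045395039 1503240 3 eng mog cd0q2 cd0q0 pd2 true false false .pp 2 0 2
    ndB0q2 ndB0q0 pcB2 cut_mm_202_t Ext.none :=
  certNE0 (fam := true) (s1 := false) (s2 := false) (a := 2) (b := 0) (c := 2) (cn := .pp) (n1 := ndB0q2) (n2 := ndB0q0) (pc := pcB2) (cut := cut_mm_202_t) (xt := Ext.none) (P1 := 0) (W1 := 536870912) (P2 := 0) (W2 := 536870912) (P3 := 1045395039) (W3 := 1503240) (N0 := 3) (En := eng) (mo := mog) (C1 := cd0q2) (C2 := cd0q0) (C3 := pd2)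
    rfl s154_mm_202_t

noncomputable def cut_mm_203_s : Cut := Cut.of [[⟨4, 0, 0, 1449551462⟩]]

noncomputable def f_mm_203_s : ℕ → ℕ → ℕ → ℕ → Bool := onCell 0 536870912 0 536870912 1045395039 1503240
    (rowNE 3 eng mog cd0q2 cd0q0 pd3 0 true false false .up 2 0 3 (qsf 0 536870912 0 536870912 3) ndB0q2 ndB0q0 pcB3 cut_mm_203_s Ext.none)

def k0_mm_203_s : ∃ t, chk3 f_mm_203_s t 1 1 1 = true :=
  ⟨(l 6), by decide +kernel⟩

theorem c_mm_203_s : CertNE 0 536870912 0 536870912 1045395039 1503240 3 eng mog cd0q2 cd0q0 pd3 true false false .up 2 0 3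
    ndB0q2 ndB0q0 pcB3 cut_mm_203_s Ext.none :=
  certNE0 (fam := true) (s1 := false) (s2 := false) (a := 2) (b := 0) (c := 3) (cn := .up) (n1 := ndB0q2) (n2 := ndB0q0) (pc := pcB3) (cut := cut_mm_203_s) (xt := Ext.none) (P1 := 0) (W1 := 536870912) (P2 := 0) (W2 := 536870912) (P3 := 1045395039) (W3 := 1503240) (N0 := 3) (En := eng) (mo := mog) (C1 := cd0q2) (C2 := cd0q0) (C3 := pd3)
    rfl k0_mm_203_s

noncomputable def cut_mm_203_t : Cut := Cut.of [[⟨3, 0, 0, 2845415833⟩]]

noncomputable def f_mm_203_t : ℕ → ℕ → ℕ → ℕ → Bool := onCell 0 536870912 1610612736 536870912 1045395039 1503240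
    (rowNE 3 eng mog cd0q2 cd0q0 pd3 1 true false false .up 2 0 3 (qsf 0 536870912 0 536870912 3) ndB0q2 ndB0q0 pcB3 cut_mm_203_t Ext.none)

def k0_mm_203_t : ∃ t, chk3 f_mm_203_t t 1 1 1 = true :=
  ⟨(b (a (b (b (a (b (l 16665608) (l 16700112)) (a (b (a (l 16729248) (l 16760552)) (a (l 16757080) (l 95260831559))) (b (a (l 98481991447) (l 4)) (l 4)))) (a (b (l 16716576) (a (l 16708912) (l 16720472))) (a (b (a (l 16709336) (l 4)) (l 169885934039)) (l 4)))) (b (a (b (a (l 16730192) (l 90428991463)) (a (l 2) (l 2))) (l 4)) (l 2))) (l 4)) (l 2)), by decide +kernel⟩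

theorem c_mm_203_t : CertNE 0 536870912 0 536870912 1045395039 1503240 3 eng mog cd0q2 cd0q0 pd3 true false false .up 2 0 3
    ndB0q2 ndB0q0 pcB3 cut_mm_203_t Ext.none :=
  certNE1 (fam := true) (s1 := false) (s2 := false) (a := 2) (b := 0) (c := 3) (cn := .up) (n1 := ndB0q2) (n2 := ndB0q0) (pc := pcB3) (cut := cut_mm_203_t) (xt := Ext.none) (P1 := 0) (W1 := 536870912) (P2 := 0) (W2 := 536870912) (P3 := 1045395039) (W3 := 1503240) (N0 := 3) (En := eng) (mo := mog) (C1 := cd0q2) (C2 := cd0q0) (C3 := pd3)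
    rfl (fun _ => rfl) k0_mm_203_t

noncomputable def cut_mm_213_s : Cut := Cut.of [[⟨4, 0, 0, 1449551462⟩]]

noncomputable def f_mm_213_s : ℕ → ℕ → ℕ → ℕ → Bool := onCell 0 536870912 536870912 536870912 1045395039 1503240
    (rowNE 3 eng mog cd0q2 cd0q1 pd3 0 true false false .pnn 2 1 3 (qsf 0 536870912 536870912 536870912 3) ndB0q2 ndB0q1 pcB3 cut_mm_213_s Ext.none)

def k0_mm_213_s : ∃ t, chk3 f_mm_213_s t 1 1 1 = true :=
  ⟨(l 6), by decide +kernel⟩

theorem c_mm_213_s : CertNE 0 536870912 536870912 536870912 1045395039 1503240 3 eng mog cd0q2 cd0q1 pd3 true false false .pnn 2 1 3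
    ndB0q2 ndB0q1 pcB3 cut_mm_213_s Ext.none :=
  certNE0 (fam := true) (s1 := false) (s2 := false) (a := 2) (b := 1) (c := 3) (cn := .pnn) (n1 := ndB0q2) (n2 := ndB0q1) (pc := pcB3) (cut := cut_mm_213_s) (xt := Ext.none) (P1 := 0) (W1 := 536870912) (P2 := 536870912) (W2 := 536870912) (P3 := 1045395039) (W3 := 1503240) (N0 := 3) (En := eng) (mo := mog) (C1 := cd0q2) (C2 := cd0q1) (C3 := pd3)
    rfl k0_mm_213_s

noncomputable def cut_mm_213_t : Cut := Cut.of [[⟨3, 0, 0, 2845415833⟩]]

noncomputable def f_mm_213_t : ℕ → ℕ → ℕ → ℕ → Bool := onCell 0 536870912 536870912 536870912 1045395039 1503240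
    (rowNE 3 eng mog cd0q2 cd0q1 pd3 0 true false false .pnn 2 1 3 (qsf 0 536870912 536870912 536870912 3) ndB0q2 ndB0q1 pcB3 cut_mm_213_t Ext.none)

def k0_mm_213_t : ∃ t, chk3 f_mm_213_t t 1 1 1 = true :=
  ⟨(a (b (a (b (b (a (b (l 16752984) (l 83449715959)) (b (l 106535066263) (l 4))) (a (b (l 105461352407) (l 4)) (l 4))) (l 4)) (l 4)) (l 4)) (l 4)), by decide +kernel⟩

theorem c_mm_213_t : CertNE 0 536870912 536870912 536870912 1045395039 1503240 3 eng mog cd0q2 cd0q1 pd3 true false false .pnn 2 1 3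
    ndB0q2 ndB0q1 pcB3 cut_mm_213_t Ext.none :=
  certNE0 (fam := true) (s1 := false) (s2 := false) (a := 2) (b := 1) (c := 3) (cn := .pnn) (n1 := ndB0q2) (n2 := ndB0q1) (pc := pcB3) (cut := cut_mm_213_t) (xt := Ext.none) (P1 := 0) (W1 := 536870912) (P2 := 536870912) (W2 := 536870912) (P3 := 1045395039) (W3 := 1503240) (N0 := 3) (En := eng) (mo := mog) (C1 := cd0q2) (C2 := cd0q1) (C3 := pd3)
    rfl k0_mm_213_t

end Pool.Agent.Strip051.G.I9736_9750.Tab.CS.BA00

namespace Pool.Agent.Strip051.G.I9736_9750.Tab.CS.BA06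

open Pool.Agent.Strip051.PB Pool.Agent.Strip051.PB.T
open Pool.Agent.Strip051.G.I9736_9750.Tab

noncomputable def cut_pp_001_s : Cut := Cut.of [[⟨4, 0, 0, 1449551462⟩]]

noncomputable def f_pp_001_s : ℕ → ℕ → ℕ → ℕ → Bool := onCell 0 536870912 0 536870912 1045395039 1503240
    (rowNE 3 eng mog cd0q0 cd6q0 pd1 0 true true true .up 0 0 1 (qsf 0 536870912 0 536870912 1) ndB0q0 ndB6q0 pcB1 cut_pp_001_s Ext.none)

def k0_pp_001_s : ∃ t, chk3 f_pp_001_s t 1 1 1 = true :=
  ⟨(l 4), by decide +kernel⟩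

theorem c_pp_001_s : CertNE 0 536870912 0 536870912 1045395039 1503240 3 eng mog cd0q0 cd6q0 pd1 true true true .up 0 0 1
    ndB0q0 ndB6q0 pcB1 cut_pp_001_s Ext.none :=
  certNE0 (fam := true) (s1 := true) (s2 := true) (a := 0) (b := 0) (c := 1) (cn := .up) (n1 := ndB0q0) (n2 := ndB6q0) (pc := pcB1) (cut := cut_pp_001_s) (xt := Ext.none) (P1 := 0) (W1 := 536870912) (P2 := 0) (W2 := 536870912) (P3 := 1045395039) (W3 := 1503240) (N0 := 3) (En := eng) (mo := mog) (C1 := cd0q0) (C2 := cd6q0) (C3 := pd1)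
    rfl k0_pp_001_s

noncomputable def cut_pp_011_s : Cut := Cut.of [[⟨4, 0, 0, 1449551462⟩]]

noncomputable def f_pp_011_s : ℕ → ℕ → ℕ → ℕ → Bool := onCell 0 536870912 536870912 536870912 1045395039 1503240
    (rowNE 3 eng mog cd0q0 cd6q1 pd1 0 true true true .pnn 0 1 1 (qsf 0 536870912 536870912 536870912 1) ndB0q0 ndB6q1 pcB1 cut_pp_011_s Ext.none)

def k0_pp_011_s : ∃ t, chk3 f_pp_011_s t 1 1 1 = true :=
  ⟨(l 4), by decide +kernel⟩

theorem c_pp_011_s : CertNE 0 536870912 536870912 536870912 1045395039 1503240 3 eng mog cd0q0 cd6q1 pd1 true true true .pnn 0 1 1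
    ndB0q0 ndB6q1 pcB1 cut_pp_011_s Ext.none :=
  certNE0 (fam := true) (s1 := true) (s2 := true) (a := 0) (b := 1) (c := 1) (cn := .pnn) (n1 := ndB0q0) (n2 := ndB6q1) (pc := pcB1) (cut := cut_pp_011_s) (xt := Ext.none) (P1 := 0) (W1 := 536870912) (P2 := 536870912) (W2 := 536870912) (P3 := 1045395039) (W3 := 1503240) (N0 := 3) (En := eng) (mo := mog) (C1 := cd0q0) (C2 := cd6q1) (C3 := pd1)
    rfl k0_pp_011_s

noncomputable def cut_pp_012_s : Cut := Cut.of [[⟨4, 0, 0, 1449551462⟩]]

noncomputable def f_pp_012_s : ℕ → ℕ → ℕ → ℕ → Bool := onCell 0 536870912 536870912 536870912 1045395039 1503240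
    (rowNE 3 eng mog cd0q0 cd6q1 pd2 0 true true true .pnp 0 1 2 (qsf 0 536870912 536870912 536870912 2) ndB0q0 ndB6q1 pcB2 cut_pp_012_s Ext.none)

def k0_pp_012_s : ∃ t, chk3 f_pp_012_s t 1 1 1 = true :=
  ⟨(l 4), by decide +kernel⟩

theorem c_pp_012_s : CertNE 0 536870912 536870912 536870912 1045395039 1503240 3 eng mog cd0q0 cd6q1 pd2 true true true .pnp 0 1 2
    ndB0q0 ndB6q1 pcB2 cut_pp_012_s Ext.none :=
  certNE0 (fam := true) (s1 := true) (s2 := true) (a := 0) (b := 1) (c := 2) (cn := .pnp) (n1 := ndB0q0) (n2 := ndB6q1) (pc := pcB2) (cut := cut_pp_012_s) (xt := Ext.none) (P1 := 0) (W1 := 536870912) (P2 := 536870912) (W2 := 536870912) (P3 := 1045395039) (W3 := 1503240) (N0 := 3) (En := eng) (mo := mog) (C1 := cd0q0) (C2 := cd6q1) (C3 := pd2)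
    rfl k0_pp_012_s

noncomputable def cut_pp_022_s : Cut := Cut.of [[⟨4, 0, 0, 1449551462⟩]]

noncomputable def f_pp_022_s : ℕ → ℕ → ℕ → ℕ → Bool := onCell 0 536870912 1073741824 536870912 1045395039 1503240
    (rowNE 3 eng mog cd0q0 cd6q2 pd2 0 true true true .pp 0 2 2 (qsf 0 536870912 1073741824 536870912 2) ndB0q0 ndB6q2 pcB2 cut_pp_022_s Ext.none)

def k0_pp_022_s : ∃ t, chk3 f_pp_022_s t 1 1 1 = true :=
  ⟨(l 4), by decide +kernel⟩

theorem c_pp_022_s : CertNE 0 536870912 1073741824 536870912 1045395039 1503240 3 eng mog cd0q0 cd6q2 pd2 true true true .pp 0 2 2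
    ndB0q0 ndB6q2 pcB2 cut_pp_022_s Ext.none :=
  certNE0 (fam := true) (s1 := true) (s2 := true) (a := 0) (b := 2) (c := 2) (cn := .pp) (n1 := ndB0q0) (n2 := ndB6q2) (pc := pcB2) (cut := cut_pp_022_s) (xt := Ext.none) (P1 := 0) (W1 := 536870912) (P2 := 1073741824) (W2 := 536870912) (P3 := 1045395039) (W3 := 1503240) (N0 := 3) (En := eng) (mo := mog) (C1 := cd0q0) (C2 := cd6q2) (C3 := pd2)
    rfl k0_pp_022_s

noncomputable def cut_pp_023_s : Cut := Cut.of [[⟨4, 0, 0, 1449551462⟩]]

noncomputable def f_pp_023_s : ℕ → ℕ → ℕ → ℕ → Bool := onCell 0 536870912 1073741824 536870912 1045395039 1503240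
    (rowNE 3 eng mog cd0q0 cd6q2 pd3 0 true true true .up 0 2 3 (qsf 0 536870912 1073741824 536870912 3) ndB0q0 ndB6q2 pcB3 cut_pp_023_s Ext.none)

def k0_pp_023_s : ∃ t, chk3 f_pp_023_s t 1 1 1 = true :=
  ⟨(l 4), by decide +kernel⟩

theorem c_pp_023_s : CertNE 0 536870912 1073741824 536870912 1045395039 1503240 3 eng mog cd0q0 cd6q2 pd3 true true true .up 0 2 3
    ndB0q0 ndB6q2 pcB3 cut_pp_023_s Ext.none :=
  certNE0 (fam := true) (s1 := true) (s2 := true) (a := 0) (b := 2) (c := 3) (cn := .up) (n1 := ndB0q0) (n2 := ndB6q2) (pc := pcB3) (cut := cut_pp_023_s) (xt := Ext.none) (P1 := 0) (W1 := 536870912) (P2 := 1073741824) (W2 := 536870912) (P3 := 1045395039) (W3 := 1503240) (N0 := 3) (En := eng) (mo := mog) (C1 := cd0q0) (C2 := cd6q2) (C3 := pd3)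
    rfl k0_pp_023_s

noncomputable def cut_pp_033_s : Cut := Cut.of [[⟨4, 0, 0, 1449551462⟩]]

noncomputable def f_pp_033_s : ℕ → ℕ → ℕ → ℕ → Bool := onCell 0 536870912 0 1230186008 1045395039 1503240
    (rowNE 3 eng mog cd0q0 cd6q3 pd3 0 true true true .pnn 0 3 3 (qsf 0 536870912 0 1230186008 3) ndB0q0 ndB6q3 pcB3 cut_pp_033_s Ext.none)

def k0_pp_033_s : ∃ t, chk3 f_pp_033_s t 1 1 1 = true :=
  ⟨(l 4), by decide +kernel⟩

theorem c_pp_033_s : CertNE 0 536870912 0 1230186008 1045395039 1503240 3 eng mog cd0q0 cd6q3 pd3 true true true .pnn 0 3 3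
    ndB0q0 ndB6q3 pcB3 cut_pp_033_s Ext.none :=
  certNE0 (fam := true) (s1 := true) (s2 := true) (a := 0) (b := 3) (c := 3) (cn := .pnn) (n1 := ndB0q0) (n2 := ndB6q3) (pc := pcB3) (cut := cut_pp_033_s) (xt := Ext.none) (P1 := 0) (W1 := 536870912) (P2 := 0) (W2 := 1230186008) (P3 := 1045395039) (W3 := 1503240) (N0 := 3) (En := eng) (mo := mog) (C1 := cd0q0) (C2 := cd6q3) (C3 := pd3)
    rfl k0_pp_033_s

noncomputable def cut_pp_101_s : Cut := Cut.of [[⟨4, 0, 0, 1449551462⟩]]

noncomputable def f_pp_101_s : ℕ → ℕ → ℕ → ℕ → Bool := onCell 536870912 536870912 0 536870912 1045395039 1503240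
    (rowNE 3 eng mog cd0q1 cd6q0 pd1 0 true true true .npn 1 0 1 (qsf 536870912 536870912 0 536870912 1) ndB0q1 ndB6q0 pcB1 cut_pp_101_s Ext.none)

def k0_pp_101_s : ∃ t, chk3 f_pp_101_s t 1 1 1 = true :=
  ⟨(l 4), by decide +kernel⟩

theorem c_pp_101_s : CertNE 536870912 536870912 0 536870912 1045395039 1503240 3 eng mog cd0q1 cd6q0 pd1 true true true .npn 1 0 1
    ndB0q1 ndB6q0 pcB1 cut_pp_101_s Ext.none :=
  certNE0 (fam := true) (s1 := true) (s2 := true) (a := 1) (b := 0) (c := 1) (cn := .npn) (n1 := ndB0q1) (n2 := ndB6q0) (pc := pcB1) (cut := cut_pp_101_s) (xt := Ext.none) (P1 := 536870912) (W1 := 536870912) (P2 := 0) (W2 := 536870912) (P3 := 1045395039) (W3 := 1503240) (N0 := 3) (En := eng) (mo := mog) (C1 := cd0q1) (C2 := cd6q0) (C3 := pd1)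
    rfl k0_pp_101_s

noncomputable def cut_pp_102_s : Cut := Cut.of [[⟨4, 0, 0, 1449551462⟩]]

noncomputable def f_pp_102_s : ℕ → ℕ → ℕ → ℕ → Bool := onCell 536870912 536870912 0 536870912 1045395039 1503240
    (rowNE 3 eng mog cd0q1 cd6q0 pd2 0 true true true .npp 1 0 2 (qsf 536870912 536870912 0 536870912 2) ndB0q1 ndB6q0 pcB2 cut_pp_102_s Ext.none)

def k0_pp_102_s : ∃ t, chk3 f_pp_102_s t 1 1 1 = true :=
  ⟨(l 4), by decide +kernel⟩

theorem c_pp_102_s : CertNE 536870912 536870912 0 536870912 1045395039 1503240 3 eng mog cd0q1 cd6q0 pd2 true true true .npp 1 0 2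
    ndB0q1 ndB6q0 pcB2 cut_pp_102_s Ext.none :=
  certNE0 (fam := true) (s1 := true) (s2 := true) (a := 1) (b := 0) (c := 2) (cn := .npp) (n1 := ndB0q1) (n2 := ndB6q0) (pc := pcB2) (cut := cut_pp_102_s) (xt := Ext.none) (P1 := 536870912) (W1 := 536870912) (P2 := 0) (W2 := 536870912) (P3 := 1045395039) (W3 := 1503240) (N0 := 3) (En := eng) (mo := mog) (C1 := cd0q1) (C2 := cd6q0) (C3 := pd2)
    rfl k0_pp_102_s

noncomputable def cut_pp_112_s : Cut := Cut.of [[⟨4, 0, 0, 1449551462⟩]]

noncomputable def f_pp_112_s : ℕ → ℕ → ℕ → ℕ → Bool := onCell 536870912 536870912 536870912 536870912 1045395039 1503240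
    (rowNE 3 eng mog cd0q1 cd6q1 pd2 0 true true true .dn 1 1 2 (qsf 536870912 536870912 536870912 536870912 2) ndB0q1 ndB6q1 pcB2 cut_pp_112_s Ext.none)

def k0_pp_112_s : ∃ t, chk3 f_pp_112_s t 1 1 1 = true :=
  ⟨(l 4), by decide +kernel⟩

theorem c_pp_112_s : CertNE 536870912 536870912 536870912 536870912 1045395039 1503240 3 eng mog cd0q1 cd6q1 pd2 true true true .dn 1 1 2
    ndB0q1 ndB6q1 pcB2 cut_pp_112_s Ext.none :=
  certNE0 (fam := true) (s1 := true) (s2 := true) (a := 1) (b := 1) (c := 2) (cn := .dn) (n1 := ndB0q1) (n2 := ndB6q1) (pc := pcB2) (cut := cut_pp_112_s) (xt := Ext.none) (P1 := 536870912) (W1 := 536870912) (P2 := 536870912) (W2 := 536870912) (P3 := 1045395039) (W3 := 1503240) (N0 := 3) (En := eng) (mo := mog) (C1 := cd0q1) (C2 := cd6q1) (C3 := pd2)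
    rfl k0_pp_112_s

noncomputable def cut_pp_113_s : Cut := Cut.of [[⟨4, 0, 0, 1449551462⟩]]

noncomputable def f_pp_113_s : ℕ → ℕ → ℕ → ℕ → Bool := onCell 536870912 536870912 536870912 536870912 1045395039 1503240
    (rowNE 3 eng mog cd0q1 cd6q1 pd3 0 true true true .nn 1 1 3 (qsf 536870912 536870912 536870912 536870912 3) ndB0q1 ndB6q1 pcB3 cut_pp_113_s Ext.none)

def k0_pp_113_s : ∃ t, chk3 f_pp_113_s t 1 1 1 = true :=
  ⟨(l 4), by decide +kernel⟩

theorem c_pp_113_s : CertNE 536870912 536870912 536870912 536870912 1045395039 1503240 3 eng mog cd0q1 cd6q1 pd3 true true true .nn 1 1 3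
    ndB0q1 ndB6q1 pcB3 cut_pp_113_s Ext.none :=
  certNE0 (fam := true) (s1 := true) (s2 := true) (a := 1) (b := 1) (c := 3) (cn := .nn) (n1 := ndB0q1) (n2 := ndB6q1) (pc := pcB3) (cut := cut_pp_113_s) (xt := Ext.none) (P1 := 536870912) (W1 := 536870912) (P2 := 536870912) (W2 := 536870912) (P3 := 1045395039) (W3 := 1503240) (N0 := 3) (En := eng) (mo := mog) (C1 := cd0q1) (C2 := cd6q1) (C3 := pd3)
    rfl k0_pp_113_s

noncomputable def cut_pp_123_s : Cut := Cut.of [[⟨4, 0, 0, 1449551462⟩]]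

noncomputable def f_pp_123_s : ℕ → ℕ → ℕ → ℕ → Bool := onCell 536870912 536870912 1073741824 536870912 1045395039 1503240
    (rowNE 3 eng mog cd0q1 cd6q2 pd3 0 true true true .npn 1 2 3 (qsf 536870912 536870912 1073741824 536870912 3) ndB0q1 ndB6q2 pcB3 cut_pp_123_s Ext.none)

def k0_pp_123_s : ∃ t, chk3 f_pp_123_s t 1 1 1 = true :=
  ⟨(l 4), by decide +kernel⟩

theorem c_pp_123_s : CertNE 536870912 536870912 1073741824 536870912 1045395039 1503240 3 eng mog cd0q1 cd6q2 pd3 true true true .npn 1 2 3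
    ndB0q1 ndB6q2 pcB3 cut_pp_123_s Ext.none :=
  certNE0 (fam := true) (s1 := true) (s2 := true) (a := 1) (b := 2) (c := 3) (cn := .npn) (n1 := ndB0q1) (n2 := ndB6q2) (pc := pcB3) (cut := cut_pp_123_s) (xt := Ext.none) (P1 := 536870912) (W1 := 536870912) (P2 := 1073741824) (W2 := 536870912) (P3 := 1045395039) (W3 := 1503240) (N0 := 3) (En := eng) (mo := mog) (C1 := cd0q1) (C2 := cd6q2) (C3 := pd3)
    rfl k0_pp_123_s

noncomputable def cut_pp_133_s : Cut := Cut.of [[⟨4, 0, 0, 1449551462⟩]]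

noncomputable def f_pp_133_s : ℕ → ℕ → ℕ → ℕ → Bool := onCell 536870912 536870912 0 1230186008 1045395039 1503240
    (rowNE 3 eng mog cd0q1 cd6q3 pd3 0 true true true .dn 1 3 3 (qsf 536870912 536870912 0 1230186008 3) ndB0q1 ndB6q3 pcB3 cut_pp_133_s Ext.none)

def k0_pp_133_s : ∃ t, chk3 f_pp_133_s t 1 1 1 = true :=
  ⟨(l 4), by decide +kernel⟩

theorem c_pp_133_s : CertNE 536870912 536870912 0 1230186008 1045395039 1503240 3 eng mog cd0q1 cd6q3 pd3 true true true .dn 1 3 3
    ndB0q1 ndB6q3 pcB3 cut_pp_133_s Ext.none :=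
  certNE0 (fam := true) (s1 := true) (s2 := true) (a := 1) (b := 3) (c := 3) (cn := .dn) (n1 := ndB0q1) (n2 := ndB6q3) (pc := pcB3) (cut := cut_pp_133_s) (xt := Ext.none) (P1 := 536870912) (W1 := 536870912) (P2 := 0) (W2 := 1230186008) (P3 := 1045395039) (W3 := 1503240) (N0 := 3) (En := eng) (mo := mog) (C1 := cd0q1) (C2 := cd6q3) (C3 := pd3)
    rfl k0_pp_133_s

noncomputable def cut_pp_202_s : Cut := Cut.of [[⟨4, 0, 0, 1449551462⟩]]

noncomputable def f_pp_202_s : ℕ → ℕ → ℕ → ℕ → Bool := onCell 0 536870912 0 536870912 1045395039 1503240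
    (rowNE 3 eng mog cd0q2 cd6q0 pd2 0 true true true .pp 2 0 2 (qsf 0 536870912 0 536870912 2) ndB0q2 ndB6q0 pcB2 cut_pp_202_s Ext.none)

def k0_pp_202_s : ∃ t, chk3 f_pp_202_s t 1 1 1 = true :=
  ⟨(l 4), by decide +kernel⟩

theorem c_pp_202_s : CertNE 0 536870912 0 536870912 1045395039 1503240 3 eng mog cd0q2 cd6q0 pd2 true true true .pp 2 0 2
    ndB0q2 ndB6q0 pcB2 cut_pp_202_s Ext.none :=
  certNE0 (fam := true) (s1 := true) (s2 := true) (a := 2) (b := 0) (c := 2) (cn := .pp) (n1 := ndB0q2) (n2 := ndB6q0) (pc := pcB2) (cut := cut_pp_202_s) (xt := Ext.none) (P1 := 0) (W1 := 536870912) (P2 := 0) (W2 := 536870912) (P3 := 1045395039) (W3 := 1503240) (N0 := 3) (En := eng) (mo := mog) (C1 := cd0q2) (C2 := cd6q0) (C3 := pd2)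
    rfl k0_pp_202_s

noncomputable def cut_pp_203_s : Cut := Cut.of [[⟨4, 0, 0, 1449551462⟩]]

noncomputable def f_pp_203_s : ℕ → ℕ → ℕ → ℕ → Bool := onCell 0 536870912 0 536870912 1045395039 1503240
    (rowNE 3 eng mog cd0q2 cd6q0 pd3 0 true true true .up 2 0 3 (qsf 0 536870912 0 536870912 3) ndB0q2 ndB6q0 pcB3 cut_pp_203_s Ext.none)

def k0_pp_203_s : ∃ t, chk3 f_pp_203_s t 1 1 1 = true :=
  ⟨(l 4), by decide +kernel⟩

theorem c_pp_203_s : CertNE 0 536870912 0 536870912 1045395039 1503240 3 eng mog cd0q2 cd6q0 pd3 true true true .up 2 0 3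
    ndB0q2 ndB6q0 pcB3 cut_pp_203_s Ext.none :=
  certNE0 (fam := true) (s1 := true) (s2 := true) (a := 2) (b := 0) (c := 3) (cn := .up) (n1 := ndB0q2) (n2 := ndB6q0) (pc := pcB3) (cut := cut_pp_203_s) (xt := Ext.none) (P1 := 0) (W1 := 536870912) (P2 := 0) (W2 := 536870912) (P3 := 1045395039) (W3 := 1503240) (N0 := 3) (En := eng) (mo := mog) (C1 := cd0q2) (C2 := cd6q0) (C3 := pd3)
    rfl k0_pp_203_s

noncomputable def cut_pp_213_s : Cut := Cut.of [[⟨4, 0, 0, 1449551462⟩]]

noncomputable def f_pp_213_s : ℕ → ℕ → ℕ → ℕ → Bool := onCell 0 536870912 536870912 536870912 1045395039 1503240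
    (rowNE 3 eng mog cd0q2 cd6q1 pd3 0 true true true .pnn 2 1 3 (qsf 0 536870912 536870912 536870912 3) ndB0q2 ndB6q1 pcB3 cut_pp_213_s Ext.none)

def k0_pp_213_s : ∃ t, chk3 f_pp_213_s t 1 1 1 = true :=
  ⟨(l 4), by decide +kernel⟩

theorem c_pp_213_s : CertNE 0 536870912 536870912 536870912 1045395039 1503240 3 eng mog cd0q2 cd6q1 pd3 true true true .pnn 2 1 3
    ndB0q2 ndB6q1 pcB3 cut_pp_213_s Ext.none :=
  certNE0 (fam := true) (s1 := true) (s2 := true) (a := 2) (b := 1) (c := 3) (cn := .pnn) (n1 := ndB0q2) (n2 := ndB6q1) (pc := pcB3) (cut := cut_pp_213_s) (xt := Ext.none) (P1 := 0) (W1 := 536870912) (P2 := 536870912) (W2 := 536870912) (P3 := 1045395039) (W3 := 1503240) (N0 := 3) (En := eng) (mo := mog) (C1 := cd0q2) (C2 := cd6q1) (C3 := pd3)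
    rfl k0_pp_213_s

noncomputable def cut_pm_001_s : Cut := Cut.of [[⟨4, 0, 0, 1449551462⟩]]

noncomputable def f_pm_001_s : ℕ → ℕ → ℕ → ℕ → Bool := onCell 0 536870912 536870912 536870912 1045395039 1503240
    (rowNE 3 eng mog cd0q0 cd6q0 pd1 1 true true false .up 0 0 1 (qsf 0 536870912 0 536870912 1) ndB0q0 ndB6q0 pcB1 cut_pm_001_s Ext.none)

def k0_pm_001_s : ∃ t, chk3 f_pm_001_s t 1 1 1 = true :=
  ⟨(a (b (l 3) (b (b (l 3) (l 2)) (l 2))) (b (b (l 3) (a (l 3) (b (a (l 3) (b (a (l 3) (l 577303892279)) (a (l 585893830823) (l 16684024)))) (a (b (a (l 3) (l 591799420679)) (a (l 559050272535) (l 16708920))) (b (a (l 16697496) (l 16719632)) (a (l 16708216) (l 16666976))))))) (b (a (b (a (b (l 3) (a (l 3) (b (l 3) (l 648707696663)))) (b (a (l 3) (b (l 634749092391) (l 16707744))) (a (a (l 284172206343) (l 16697264)) (l 16725648)))) (a (b (a (l 2) (b (l 234713031527) (l 2))) (l 2)) (b (a (b (l 16726504) (l 16696704)) (l 16666720)) (a (l 16651312) (l 16608496))))) (b (a (b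 (a (l 16718272) (l 16695440)) (a (l 16681512) (l 16637632))) (b (l 16586224) (l 16568464))) (a (b (a (l 16622952) (l 16578568)) (l 16476320)) (b (l 16507016) (l 16445200))))) (b (a (a (l 2) (b (a (l 2) (l 16551808)) (l 2))) (a (b (l 16481528) (l 16419416)) (b (l 16384224) (l 16324976)))) (a (l 2) (b (a (l 16335304) (l 16238424)) (a (l 2) (l 185856600983)))))))), by decide +kernel⟩

theorem c_pm_001_s : CertNE 0 536870912 0 536870912 1045395039 1503240 3 eng mog cd0q0 cd6q0 pd1 true true false .up 0 0 1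
    ndB0q0 ndB6q0 pcB1 cut_pm_001_s Ext.none :=
  certNE1 (fam := true) (s1 := true) (s2 := false) (a := 0) (b := 0) (c := 1) (cn := .up) (n1 := ndB0q0) (n2 := ndB6q0) (pc := pcB1) (cut := cut_pm_001_s) (xt := Ext.none) (P1 := 0) (W1 := 536870912) (P2 := 0) (W2 := 536870912) (P3 := 1045395039) (W3 := 1503240) (N0 := 3) (En := eng) (mo := mog) (C1 := cd0q0) (C2 := cd6q0) (C3 := pd1)
    rfl (fun _ => rfl) k0_pm_001_s

noncomputable def cut_pm_011_s : Cut := Cut.of [[⟨4, 0, 0, 1449551462⟩], [⟨0, 0, 0, 16777216⟩, ⟨1, 1, 0, 16777216⟩, ⟨2, 1, 0, 16777216⟩]]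

noncomputable def f_pm_011_s : ℕ → ℕ → ℕ → ℕ → Bool := onCell 0 536870912 536870912 536870912 1045395039 1503240
    (rowNE 3 eng mog cd0q0 cd6q1 pd1 1 true true false .pnn 0 1 1 (qsf 0 536870912 536870912 536870912 1) ndB0q0 ndB6q1 pcB1 cut_pm_011_s Ext.none)

def k0_pm_011_s : ∃ t, chk3 f_pm_011_s t 2 2 1 = true :=
  ⟨(l 3), by decide +kernel⟩

def k1_pm_011_s : ∃ t, chk3 f_pm_011_s t 2 6 1 = true :=
  ⟨(a (l 3) (b (l 3) (a (l 3) (b (l 3) (a (b (l 3) (a (l 3) (l 715816519415))) (b (a (l 3) (l 632064761719)) (l 296520263559))))))), by decide +kernel⟩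

def k2_pm_011_s : ∃ t, chk3 f_pm_011_s t 4 14 1 = true :=
  ⟨(a (l 3) (a (l 3) (b (l 3) (b (l 3) (a (l 3) (b (l 3) (a (b (l 3) (a (l 3) (l 700784247847))) (b (l 791515441047) (l 309405313799))))))))), by decide +kernel⟩

def k3_pm_011_s : ∃ t, chk3 f_pm_011_s t 8 30 1 = true :=
  ⟨(a (l 3) (b (l 3) (a (l 3) (b (l 3) (a (l 3) (b (l 3) (a (l 3) (b (l 3) (a (b (l 3) (a (l 3) (b (l 3) (a (b (l 3) (l 766819427063)) (b (l 755008268375) (l 16776912)))))) (b (a (l 3) (b (a (l 3) (l 842518210903)) (a (b (l 3) (l 720111663159)) (b (l 366850586391) (l 16776712))))) (a (b (a (b (l 3) (l 743197109671)) (b (l 731385950967) (l 16776816))) (l 16771072)) (l 16770448)))))))))))), by decide +kernel⟩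

def k4_pm_011_s : ∃ t, chk3 f_pm_011_s t 16 62 1 = true :=
  ⟨(a (l 3) (b (l 3) (a (l 3) (b (l 3) (a (l 3) (b (l 3) (a (l 3) (b (l 3) (a (l 3) (b (l 3) (a (b (l 3) (a (l 3) (b (l 3) (a (a (l 917143287767) (a (l 857013747431) (b (l 3) (b (l 431811985463) (l 16777168))))) (b (b (a (l 3) (a (l 423222045207) (l 16777064))) (a (a (l 428053883303) (l 285783097431)) (l 16777176))) (l 16777112)))))) (b (a (l 3) (b (a (l 3) (l 957408606391)) (a (b (l 3) (b (a (l 3) (a (l 407652794471) (l 16777208))) (b (l 371145570215) (l 16777176)))) (b (a (b (l 3) (l 226190420951)) (a (a (l 177872040167) (l 16777192)) (l 16777168))) (l 16777088))))) (b (a (a (b (l 3) (b (a (l 3) (l 394767892359)) (a (l 396915375815) (l 16777168)))) (b (b (a (l 3) (l 391546664727)) (a (l 392620406279) (l 16777160))) (l 16777096))) (l 16776952)) (l 16775512)))))))))))))), by decide +kernel⟩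

def k5_pm_011_s : ∃ t, chk3 f_pm_011_s t 32 126 1 = true :=
  ⟨(a (l 3) (b (l 3) (b (l 3) (a (l 3) (a (l 3) (b (l 3) (a (l 3) (b (l 3) (a (l 3) (b (l 3) (a (l 3) (b (l 3) (a (b (l 3) (a (l 3) (b (l 3) (a (l 462950498375) (l 16777200))))) (b (a (l 3) (b (l 653002801335) (a (l 312626643047) (l 16777200)))) (b (b (a (l 435033210951) (l 16777168)) (l 16777168)) (l 16777120)))))))))))))))), by decide +kernel⟩

def k6_pm_011_s : ∃ t, chk3 f_pm_011_s t 64 127 1 = true :=
  ⟨(b (b (l 3) (l 14)) (l 14)), by decide +kernel⟩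

def k7_pm_011_s : ∃ t, chk3 f_pm_011_s t 130 508 1 = true :=
  ⟨(a (l 3) (b (l 3) (a (l 3) (b (l 3) (a (l 3) (b (l 3) (a (l 3) (b (l 3) (b (l 3) (a (l 3) (a (b (l 3) (b (l 605221290087) (a (l 535964942407) (l 16777208)))) (b (b (l 588578291815) (a (l 511805751367) (l 16777200))) (l 16777168))))))))))))), by decide +kernel⟩

def k8_pm_011_s : ∃ t, chk3 f_pm_011_s t 262 1016 1 = true :=
  ⟨(a (l 3) (b (l 3) (a (l 3) (b (l 3) (a (l 3) (b (l 3) (a (b (l 3) (b (l 3) (a (l 3) (a (l 3) (l 584283324503))))) (b (b (l 3) (a (l 3) (a (l 3) (l 545628618839)))) (a (b (a (l 3) (l 564955971671)) (l 16777200)) (l 16777168)))))))))), by decide +kernel⟩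

def k9_pm_011_s : ∃ t, chk3 f_pm_011_s t 524 1017 1 = true :=
  ⟨(b (a (l 3) (b (l 3) (a (l 3) (b (l 3) (a (l 3) (b (l 3) (a (b (l 3) (a (l 448454983751) (l 16777200))) (a (b (l 430738243655) (l 16777168)) (l 16777168))))))))) (a (b (a (l 3) (b (l 3) (a (l 3) (b (l 3) (a (b (l 3) (b (l 526301266007) (a (l 336785834055) (l 16777192)))) (b (a (a (l 623474901095) (l 462950498375)) (l 16777248)) (l 16777160))))))) (a (b (b (l 3) (a (l 3) (a (b (l 3) (b (l 592873259095) (a (l 436643823687) (l 16777200)))) (b (b (l 576767131735) (a (l 411947761735) (l 16777200))) (l 16777168))))) (b (a (a (b (l 3) (a (l 577304002663) (a (l 377588023351) (l 16777208)))) (b (b (l 609516257367) (a (l 461876756551) (l 16777200))) (l 16777168))) (l 16777104)) (l 16775728))) (a (b (b (a (b (l 3) (b (l 560124133463) (a (l 386714828871) (l 16777200)))) (b (b (l 543481135191) (a (l 361481896007) (l 16777200))) (l 16777168))) (l 16777096)) (l 16776904)) (l 16775584)))) (b (a (b (a (l 3) (b (l 3) (a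 (b (l 3) (b (a (l 3) (l 16777216)) (l 16777208))) (a (b (a (l 607368773719) (l 380809248839)) (l 16777176)) (l 16777176))))) (a (b (a (b (l 3) (b (a (l 3) (l 16777224)) (l 16777208))) (b (b (a (l 3) (l 16777224)) (l 16777208)) (l 16777160))) (l 16777096)) (l 16775712))) (a (b (b (b (a (l 3) (a (l 465634852935) (l 16777200))) (a (a (l 482814722119) (l 16777200)) (l 16777152))) (l 16777088)) (l 16776888)) (l 16775576))) (l 16775256)))), by decide +kernel⟩

def k10_pm_011_s : ∃ t, chk3 f_pm_011_s t 525 1017 1 = true :=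
  ⟨(b (a (b (a (l 3) (b (l 3) (a (b (l 3) (a (l 3) (l 840370749575))) (b (a (l 3) (a (l 3) (b (l 3) (l 644412866663)))) (b (b (a (l 3) (l 336248963127)) (a (l 666424574055) (l 16777192))) (b (a (a (l 542944264279) (l 16777208)) (l 16777160)) (l 16777160))))))) (a (b (a (b (l 3) (a (l 3) (l 883320422535))) (b (a (l 3) (l 859698102407)) (b (b (a (l 3) (a (l 625622384727) (l 16777208))) (a (l 685215055991) (l 16777200))) (b (a (a (l 653002801239) (l 16777216)) (l 16777160)) (l 16777168))))) (a (b (b (b (a (l 3) (a (l 684678185047) (l 16777216))) (a (l 723332890743) (l 16777200))) (b (a (a (l 3) (l 16777216)) (l 16777168)) (l 16777168))) (l 16777080)) (l 16777016))) (a (b (b (b (b (a (l 3) (a (l 570324680791) (l 16777208))) (a (l 703468666983) (l 16777192))) (b (a (a (l 598241968215) (l 16777208)) (l 16777160)) (l 16777160))) (l 16777080)) (l 16776880)) (l 16775568)))) (b (a (b (a (b (l 3) (a (l 3) (l 829096460407))) (b (b (l 3) (a (l 3) (a (l 3) (l 568714068071)))) (b (b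 (a (l 3) (l 156934077895)) (a (l 591262646375) (l 16777184))) (a (a (l 178945785287) (l 16777184)) (l 16777136))))) (a (b (b (b (a (l 3) (l 195051912647)) (a (l 520395686023) (l 16777192))) (a (a (l 215989878215) (l 16777192)) (l 16777136))) (l 16777072)) (l 16777008))) (a (b (b (b (a (a (l 3) (l 603610677335)) (l 16777240)) (a (a (l 140827951191) (l 16777184)) (l 16777136))) (l 16777064)) (l 16776872)) (l 16774248))) (l 16773920))) (a (l 16775640) (l 16770520))), by decide +kernel⟩

def k11_pm_011_s : ∃ t, chk3 f_pm_011_s t 526 1016 1 = true :=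
  ⟨(b (a (l 3) (b (l 3) (a (l 3) (b (l 3) (a (b (l 3) (b (l 3) (a (l 3) (a (l 696489345127) (l 213842395239))))) (b (b (l 3) (a (l 3) (a (l 654613413991) (l 16777240)))) (b (a (a (l 675551379559) (l 351281348663)) (l 16777176)) (l 16777144)))))))) (a (b (a (l 3) (b (l 3) (a (b (l 3) (b (l 3) (a (l 3) (a (l 3) (l 481204109383))))) (b (b (l 3) (a (l 3) (a (l 3) (l 440938790983)))) (b (a (a (l 3) (l 461339885639)) (l 16777184)) (l 16777152)))))) (a (b (a (b (l 3) (b (l 3) (a (l 3) (a (l 3) (l 399599730807))))) (b (b (l 3) (a (l 3) (a (l 3) (l 360408154231)))) (b (a (a (l 3) (l 379735507063)) (l 16777192)) (l 16777160)))) (a (b (b (a (a (l 3) (l 418927083639)) (l 16777192)) (l 16777160)) (l 16777064)) (l 16776992))) (a (b (b (b (a (a (l 3) (l 342154543223)) (l 16777192)) (l 16777160)) (l 16777056)) (l 16776856)) (l 16774232)))) (b (a (b (a (b (l 3) (b (l 3) (a (l 3) (a (l 3) (l 294909902951))))) (b (b (l 3) (a (l 3) (a (l 682530701431) (l 254644584551)))) (b (a (a (l 708837376119)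 (l 274508808295)) (l 16777184)) (l 16777152)))) (a (b (b (a (a (l 3) (l 314774126695)) (l 16777184)) (l 16777152)) (l 16777048)) (l 16776984))) (a (b (b (b (a (a (l 717427310695) (l 234243489895)) (l 16777176)) (l 16777144)) (l 16777048)) (l 16776848)) (l 16774224))) (l 16773896)))), by decide +kernel⟩

def k12_pm_011_s : ∃ t, chk3 f_pm_011_s t 527 1016 1 = true :=
  ⟨(b (a (b (a (l 3) (b (l 3) (a (b (l 3) (b (l 3) (a (l 3) (a (l 582135840855) (l 16777216))))) (a (b (l 3) (a (b (l 560661004375) (l 16777184)) (l 16777184))) (b (b (l 3) (a (l 539723038807) (l 16777208))) (l 16777128)))))) (a (b (a (b (l 3) (b (l 3) (a (l 3) (a (l 612737482855) (l 16777216))))) (b (b (l 3) (a (l 3) (a (l 570861551719) (l 16777216)))) (b (a (a (l 591799517287) (l 16777216)) (l 16777168)) (l 16777136)))) (a (b (a (a (b (l 633675448423) (l 16777192)) (l 25400705015)) (l 16777136)) (l 16777040)) (l 16776968))) (a (b (b (b (a (a (l 603610677335) (l 16777216)) (l 16777168)) (l 16777136)) (l 16777032))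 (l 16776832)) (l 16774208)))) (b (a (b (a (b (l 3) (b (l 3) (a (l 3) (a (l 389399183479) (l 16777208))))) (b (a (l 3) (b (l 3) (a (l 346449510519) (l 16777208)))) (b (a (a (l 367924346999) (l 16777208)) (l 16777160)) (l 16777128)))) (a (b (b (a (a (l 410874019959) (l 16777208)) (l 16777160)) (l 16777128)) (l 16777024)) (l 16776960))) (a (b (b (a (a (b (l 484425334855) (l 16777176)) (l 16777176)) (l 16777120)) (l 16777024)) (l 16776824)) (l 16774200))) (l 16773872))) (a (l 16774936) (l 16770472))), by decide +kernel⟩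

def k13_pm_011_s : ∃ t, chk3 f_pm_011_s t 263 1017 1 = true :=
  ⟨(a (b (a (l 16774960) (l 16770496)) (l 16769744)) (l 16771832)), by decide +kernel⟩

def k14_pm_011_s : ∃ t, chk3 f_pm_011_s t 260 2036 1 = true :=
  ⟨(l 3), by decide +kernel⟩

def k15_pm_011_s : ∃ t, chk3 f_pm_011_s t 261 2036 1 = true :=
  ⟨(a (a (l 3) (b (l 3) (a (l 3) (b (l 3) (a (l 3) (b (l 3) (b (b (l 3) (a (l 3) (a (l 3) (l 252497100855)))) (b (a (l 3) (a (l 264308260919) (l 16777192))) (a (a (l 3) (l 275582550071)) (l 16777176)))))))))) (a (b (a (l 3) (b (l 3) (b (l 3) (a (l 3) (a (b (l 3) (b (l 685751926903) (a (l 648170963031) (l 16777216)))) (b (b (l 719574794343) (a (l 624548642903) (l 16777208))) (l 16777184))))))) (a (b (a (l 3) (b (l 3) (a (a (l 3) (b (l 3) (b (l 3) (l 16777216)))) (b (b (l 3) (a (l 3) (l 16777216))) (l 16777184))))) (a (b (b (b (l 3) (a (l 3) (a (l 3) (l 16777216)))) (b (a (l 3) (a (l 16777216) (l 16777184))) (a (a (l 3) (l 229948522551)) (l 16777168)))) (b (b (a (a (l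 241222811703) (l 16777184)) (l 16777136)) (l 16777136)) (l 16777088))) (c (l 230485392759) (c (l 231022263671) (l 231022263671))))) (b (b (a (a (a (l 3) (b (l 3) (b (l 686825668695) (l 16777216)))) (b (b (l 701858054263) (a (l 678235734103) (l 16777216))) (l 16777184))) (l 16776952)) (l 215989878135)) (l 16774232)))) (b (a (b (b (l 3) (a (l 3) (a (b (l 3) (b (l 671256412263) (a (l 552607940695) (l 16777208)))) (b (b (l 654613413991) (a (l 528448749655) (l 16777208))) (l 16777176))))) (b (a (a (b (l 3) (b (l 703468666983) (a (l 600926322775) (l 16777208)))) (b (b (l 687362539623) (a (l 576767131735) (l 16777208))) (l 16777176))) (l 16776456)) (l 215989878119))) (a (b (b (a (b (l 3) (b (l 638507286631) (a (l 504289558615) (l 16777208)))) (b (b (c (l 620790546535) (l 621327417447)) (a (l 480130367575) (l 16777208))) (l 16777176))) (l 16776456)) (l 16776912)) (l 16776584))) (l 16775272)))), by decide +kernel⟩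

def k16_pm_011_s : ∃ t, chk3 f_pm_011_s t 130 2037 1 = true :=
  ⟨(a (l 14) (a (a (b (b (l 3) (l 14)) (l 14)) (b (a (b (a (l 3) (b (l 3) (b (b (l 3) (a (l 3) (a (l 3) (l 342691414071)))) (b (a (l 3) (a (l 353965703223) (l 16777192))) (a (a (l 3) (l 364703121463)) (l 16777176)))))) (a (b (b (b (l 3) (l 14)) (l 14)) (l 14)) (b (b (b (a (a (l 375977410615) (l 16777192)) (l 16777144)) (l 16777144)) (l 16777096)) (l 16776992)))) (b (a (b (b (b (l 3) (a (l 3) (a (l 3) (l 298131128375)))) (b (a (l 3) (a (l 309405417527) (l 16777192))) (a (a (l 3) (l 320142835767)) (l 16777176)))) (b (b (a (a (l 331417124919) (l 16777192)) (l 16777144)) (l 16777144)) (l 16777096))) (b (b (b (a (a (l 286856839223) (l 16777192)) (l 16777136)) (l 16777136)) (l 16777088)) (l 16776992))) (l 16775552))) (l 16775944))) (a (a (l 16775808) (l 16773576)) (l 16770560)))), by decide +kernel⟩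

def k17_pm_011_s : ∃ t, chk3 f_pm_011_s t 130 1019 1 = true :=
  ⟨(a (l 14) (a (b (a (l 14) (l 16773200)) (l 14)) (a (l 16772176) (l 16763800)))), by decide +kernel⟩

def k18_pm_011_s : ∃ t, chk3 f_pm_011_s t 131 509 1 = true :=
  ⟨(a (b (a (b (a (a (l 16775136) (l 16773560)) (l 16770544)) (l 16769784)) (l 16771880)) (l 16771968)) (b (l 16770288) (l 16770704))), by decide +kernel⟩

def k19_pm_011_s : ∃ t, chk3 f_pm_011_s t 65 255 1 = true :=
  ⟨(b (a (a (l 14) (b (a (l 14) (l 16772440)) (l 14))) (b (b (l 16764920) (l 16758528)) (l 16756768))) (a (l 14) (b (l 16764832) (l 16741352)))), by decide +kernel⟩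

def k20_pm_011_s : ∃ t, chk3 f_pm_011_s t 66 252 1 = true :=
  ⟨(a (l 3) (b (l 3) (a (l 3) (b (l 3) (a (l 3) (b (l 3) (a (l 3) (b (l 3) (a (b (l 3) (a (l 986399632983) (a (l 849497553223) (b (l 575693389975) (l 16777144))))) (b (a (l 969756634871) (b (l 925196351143) (a (c (l 16777200) (l 16777280)) (l 16777136)))) (a (a (a (b (l 205252460679) (l 16777088)) (l 16777128)) (l 16777072)) (l 16776968)))))))))))), by decide +kernel⟩

def k21_pm_011_s : ∃ t, chk3 f_pm_011_s t 132 506 1 = true :=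
  ⟨(a (l 3) (b (l 3) (a (l 3) (b (l 3) (a (l 3) (b (l 3) (a (l 1050824144615) (b (l 1021833114407) (a (a (l 859698101431) (b (a (l 578377744615) (l 449528725655)) (l 16777144))) (a (b (l 231022263063) (l 16777072)) (l 16777072))))))))))), by decide +kernel⟩

def k22_pm_011_s : ∃ t, chk3 f_pm_011_s t 132 1014 1 = true :=
  ⟨(a (a (l 3) (b (l 3) (a (l 3) (b (l 3) (a (l 3) (b (l 3) (a (a (l 1008411344759) (b (l 3) (b (l 331953995879) (l 16777168)))) (b (b (a (l 3) (l 216526748519)) (a (l 234780359527) (l 16777168))) (l 16777096))))))))) (b (a (a (l 3) (b (l 3) (a (l 1098605655031) (b (l 1076057077495) (a (a (l 932175674647) (b (a (l 3) (l 610053128391)) (l 16777176))) (a (b (b (l 716890439783) (l 16777200)) (l 16777104)) (l 16777104))))))) (a (b (a (l 1071762108391) (b (l 1048676660423) (a (a (l 895668452519) (b (a (l 3) (l 547776102567)) (l 16777160))) (a (b (b (l 516637589623) (l 16777192)) (l 16777088)) (l 16777088))))) (a (b (a (a (l 913922063575) (b (a (l 3) (l 612737482919))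 (l 16777168))) (a (b (b (l 677161992279) (l 16777192)) (l 16777096)) (l 16777096))) (l 16776928)) (l 16774168))) (a (b (b (a (a (l 877414841511) (b (b (l 3) (l 376514281623)) (l 16777152))) (a (b (b (l 515026976855) (l 16777184)) (l 16777080)) (l 16777080))) (l 16776920)) (l 16776520)) (l 16773888)))) (a (a (b (a (l 3) (b (l 1109879945687) (a (a (l 969756638727) (b (l 3) (l 16777184))) (a (b (b (l 3) (l 16777208)) (l 16777120)) (l 16777120))))) (a (b (a (a (l 989083991719) (a (l 882783551287) (b (l 3) (l 16777176)))) (b (b (a (l 3) (l 220284846183)) (a (l 278266904663) (l 16777160))) (l 16777088))) (l 16776960)) (l 16774200))) (a (b (b (a (a (l 950966156663) (b (l 1088941981031) (l 16777176))) (a (b (b (l 714206085255) (l 16777208)) (l 16777112)) (l 16777112))) (l 16776944)) (l 16776552)) (l 16773920))) (l 16773248)))), by decide +kernel⟩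

def k23_pm_011_s : ∃ t, chk3 f_pm_011_s t 132 1015 1 = true :=
  ⟨(a (a (b (a (l 3) (b (l 3) (b (l 3) (a (l 3) (a (b (l 3) (b (a (l 3) (l 498383978647)) (a (l 515563847831) (l 16777192)))) (b (b (a (l 3) (l 463487369367)) (a (l 481204109463) (l 16777192))) (l 16777128))))))) (a (b (a (l 3) (b (l 3) (a (b (l 3) (b (a (l 3) (l 594483871911)) (a (l 611126870183) (l 16777208)))) (b (b (a (l 3) (l 560661004455)) (a (l 577840873639) (l 16777200))) (l 16777144))))) (a (b (a (b (l 3) (a (l 883320422535) (b (l 618643062967) (l 193978171463)))) (a (b (b (l 3) (l 643339124903)) (b (l 16777208) (l 16777144))) (b (b (l 626696126631) (l 16777208)) (l 16777112)))) (a (a (b (b (l 171429591863) (l 16777152)) (l 16777048)) (l 16777048)) (l 16776944))) (b (a (b (l 16777144) (l 16777008)) (l 16776936)) (l 16776744)))) (b (a (b (a (b (l 3) (b (a (l 3) (l 567103455383)) (a (l 543481135271) (l 16777200)))) (b (b (a (l 3) (l 532743717015)) (a (l 549923586199) (l 16777200))) (l 16777136))) (l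 16776840)) (l 74255956983)) (l 16773848)))) (b (a (b (a (l 3) (b (l 3) (a (b (l 3) (b (a (l 3) (l 397452247175)) (a (l 415168987271) (l 16777184)))) (b (b (a (l 3) (l 401747214455)) (a (l 419463954551) (l 16777176))) (l 16777112))))) (a (b (a (b (l 3) (b (a (l 3) (l 468319207559)) (a (l 486035947655) (l 16777192)))) (b (b (a (l 3) (l 433422598279)) (a (l 451139338375) (l 16777184))) (l 16777120))) (l 16775680)) (l 16775536))) (b (a (b (b (b (l 889762872055) (a (l 3) (a (l 307794803559) (l 16777168)))) (a (b (a (l 3) (l 404968439911)) (a (l 383493603447) (l 16777176))) (l 16777104))) (l 16776976)) (l 16774216)) (l 16771200))) (l 16775272))) (a (b (l 16774592) (l 16774880)) (l 16769104))), by decide +kernel⟩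

def k24_pm_011_s : ∃ t, chk3 f_pm_011_s t 266 506 1 = true :=
  ⟨(b (a (l 3) (b (l 3) (a (l 3) (b (l 3) (a (b (l 3) (l 938618125303)) (b (a (l 3) (l 881172938007)) (a (b (b (l 528985619351) (a (l 498383978583) (l 16777176))) (l 16777112)) (l 16777040)))))))) (a (b (a (l 3) (b (l 3) (a (b (l 3) (l 982641540119)) (b (l 970293509095) (a (b (a (c (l 798494818471) (l 715279827159)) (a (l 438791307431) (l 210621169799))) (l 16777144)) (l 16777072)))))) (a (b (a (l 1030423051927) (b (l 995526439463) (a (b (a (l 3) (a (l 608979386519) (l 315847867255))) (l 16777160)) (l 16777088)))) (b (a (a (b (l 951503026919) (a (a (l 187535717943) (l 16777184)) (l 16777136))) (a (a (b (l 154249721399) (l 16777080)) (l 16777112)) (l 16777064))) (l 16776896)) (l 16774144))) (a (b (b (a (b (a (l 3) (b (l 3) (l 16777200))) (l 16777152)) (l 16777080)) (l 16776888)) (l 16776488)) (l 16773856)))) (b (a (b (a (b (l 3) (l 957408607191)) (b (l 945060576215) (a (b (a (l 652465930423) (a (l 299204870311)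 (l 16777208))) (l 16777128)) (l 16777056)))) (a (a (b (b (a (c (l 656224026839) (l 656760897751)) (a (l 465634852983) (l 16777192))) (l 16777136)) (l 16776936)) (l 16774312)) (l 16776728))) (a (b (b (a (b (a (l 565492842695) (a (l 260013293719) (l 16777200))) (l 16777120)) (l 16777048)) (l 16776848)) (l 16776456)) (l 16773824))) (l 16773184)))), by decide +kernel⟩

def k25_pm_011_s : ∃ t, chk3 f_pm_011_s t 267 506 1 = true :=
  ⟨(b (a (b (a (l 3) (b (l 3) (a (a (l 1052971622247) (a (l 979957185991) (b (l 3) (b (l 617569321239) (l 16777176))))) (b (a (l 1035791756487) (a (l 904258385671) (b (l 691657507015) (l 16777176)))) (a (a (b (a (l 418927083703) (l 189683204247)) (l 16777112)) (l 16777112)) (l 16777008)))))) (a (b (a (b (l 3) (a (l 3) (l 866140552599))) (b (a (l 3) (l 851108167207)) (a (b (b (l 565492842583) (l 16777192)) (l 16777096)) (l 16777024)))) (a (b (a (b (a (a (l 676625121447) (l 445233758343)) (l 16777200)) (l 16777104)) (l 16777032)) (l 16776832)) (l 16776696)))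 (a (b (b (a (a (b (a (l 559050391703) (l 360408154215)) (l 16777120)) (l 16777120)) (l 16777016)) (l 16776816)) (l 16776416)) (l 16773792)))) (b (a (b (a (b (l 3) (a (l 1019685629239) (a (l 886004774839) (b (l 599852581079) (l 16777160))))) (b (a (l 1002505760183) (a (l 867751164023) (b (l 615421837479) (l 16777152)))) (a (a (a (b (l 268066356119) (l 16777112)) (l 16777144)) (l 16777088)) (l 16776984)))) (a (b (a (a (b (a (l 439328178311) (l 16777192)) (l 16777104)) (l 16777096)) (l 16776992)) (l 16776800)) (l 16776656))) (a (b (b (a (a (a (b (l 220821714535) (l 16777104)) (l 16777136)) (l 16777080)) (l 16776976)) (l 16776776)) (l 16776376)) (l 16773744))) (l 16773096))) (a (a (l 16772896) (l 16769744)) (l 16768936))), by decide +kernel⟩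

def k26_pm_011_s : ∃ t, chk3 f_pm_011_s t 133 507 1 = true :=
  ⟨(a (b (a (a (l 16774280) (l 16769816)) (l 16763792)) (l 16762256)) (a (l 16766904) (l 16760536))), by decide +kernel⟩

def k27_pm_011_s : ∃ t, chk3 f_pm_011_s t 134 504 1 = true :=
  ⟨(a (l 3) (b (l 3) (a (l 3) (b (l 3) (a (b (l 3) (a (l 3) (b (l 3) (a (l 3) (l 922511996823))))) (b (a (l 3) (b (l 3) (a (l 3) (l 890836613671)))) (b (b (a (l 3) (a (a (l 723332890839) (b (l 789368012903) (l 16777208))) (l 16777144))) (a (l 907479611527) (l 16777072))) (a (a (b (a (l 3) (b (l 3) (l 16777128))) (l 16777160)) (l 16777088)) (l 16776872))))))))), by decide +kernel⟩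

def k28_pm_011_s : ∃ t, chk3 f_pm_011_s t 268 505 1 = true :=
  ⟨(b (a (l 3) (b (l 3) (a (l 3) (b (l 3) (b (a (l 3) (a (a (l 925196349991) (b (l 3) (l 16777192))) (a (b (a (l 540796780727) (l 374366797943)) (l 16777128)) (l 16777120)))) (a (a (c (l 860234971831) (l 858087489319)) (b (a (a (l 692731248791) (l 555829166151)) (a (l 16777208) (l 16777184))) (l 16777096))) (l 16776960))))))) (a (b (a (l 3) (b (l 3) (a (b (l 3) (b (l 914995805127) (a (a (l 724943503575) (a (l 447381242023) (l 249275875447))) (l 16777144)))) (b (b (l 899426548919) (a (a (l 655687155927) (a (l 460803014775) (l 16777208))) (l 16777128))) (l 16777000))))) (a (b (a (b (l 3) (a (l 953650507703) (b (a (l 3) (a (l 666961444983) (l 371145572471))) (l 16777160)))) (b (b (l 930565058727) (a (a (l 3) (l 514490105943)) (l 16777152))) (l 16777016))) (a (b (a (b (l 16777168) (l 16777032)) (l 16776960)) (l 16776760)) (l 16776616))) (a (b (l 16776216) (l 16776328)) (l 16773696)))) (b (a (b (a (b (l 3) (a (l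 889762872679) (b (a (l 712595472503) (a (l 335712092279) (l 16777200))) (l 16777120)))) (b (b (l 868824907447) (a (b (l 663740219511) (a (l 467245465719) (l 16777184))) (l 16777112))) (l 16776976))) (l 16775400)) (l 16775768)) (l 16772992)))), by decide +kernel⟩

def k29_pm_011_s : ∃ t, chk3 f_pm_011_s t 269 505 1 = true :=
  ⟨(b (a (b (a (b (l 3) (a (l 3) (b (l 3) (l 992305214599)))) (b (a (l 3) (b (l 3) (l 967072283591))) (a (b (l 979420312967) (a (a (l 869361776023) (b (l 636896673991) (l 16777168))) (a (a (b (l 342691412855) (l 16777112)) (l 16777144)) (l 16777088)))) (b (b (b (l 841444490343) (a (l 648707834007) (l 16777152))) (a (a (a (l 298667998071) (l 16777200)) (l 16777152)) (l 16777048))) (l 16776912))))) (a (b (a (b (l 1005190110983) (a (a (l 906405868359) (b (l 697563087095) (l 16777184))) (a (b (a (l 486035947687) (l 319605964903)) (l 16777112)) (l 16777112)))) (b (a (a (l 887615386727) (b (l 683604443351) (l 16777176))) (a (b (a (l 430738243735) (l 232096006247))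 (l 16777104)) (l 16777104))) (l 16776936))) (l 16774048)) (l 16775064))) (b (a (b (a (b (a (l 3) (l 938618121239)) (b (a (l 919290770423) (a (b (l 320142835847) (l 16777176)) (l 16777136))) (a (a (b (l 414632116343) (l 16777176)) (l 16777144)) (l 16777040)))) (b (a (b (l 896742192455) (a (a (l 182703879735) (l 16777184)) (l 16777128))) (a (b (b (l 364166250567) (l 16777160)) (l 16777064)) (l 16777056))) (l 16776896))) (l 16774008)) (l 16775024)) (l 16772888))) (b (a (l 16772944) (l 16774384)) (l 16768608))), by decide +kernel⟩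

def k30_pm_011_s : ∃ t, chk3 f_pm_011_s t 270 504 1 = true :=
  ⟨(b (a (l 3) (b (l 3) (a (b (l 3) (b (l 3) (a (l 3) (b (l 962777310791) (b (l 863456198119) (a (b (l 3) (l 690583765175)) (l 16777176))))))) (b (a (l 3) (b (l 3) (a (l 938081254743) (b (l 908553351831) (a (b (l 406579051287) (l 16777184)) (l 16777144)))))) (a (b (a (l 954187381719) (a (l 846813198967) (b (a (l 3) (l 693804990567)) (l 16777160)))) (a (b (b (a (a (l 3) (l 976199090151)) (l 16777200)) (l 16777168)) (l 16777064)) (l 16776992))) (b (a (a (b (b (l 411947761431) (l 16777192)) (l 16777088)) (l 16777088)) (l 16776984)) (l 16776784))))))) (a (b (a (b (l 3) (a (l 3) (b (l 3) (a (l 3) (a (l 939691863575) (l 833391426647)))))) (b (a (l 3) (b (l 3) (a (l 3) (a (l 902110900455) (b (l 3) (b (l 224579813495) (l 16777160))))))) (a (b (a (l 3) (a (l 920901382007) (l 815137816007))) (a (b (b (a (l 3) (l 360945025159)) (a (l 429127630967) (l 16777176))) (l 16777112)) (l 16777040))) (b (a (b (b (a (l 3) (l 244444037255))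 (a (l 389936054359) (l 16777168))) (l 16777104)) (l 16777024)) (l 16776824))))) (a (b (a (a (b (l 3) (b (b (a (l 3) (l 592336388231)) (a (l 861845585959) (l 16777200))) (l 16777136))) (b (a (l 959019216055) (l 851108166375)) (l 16777064))) (a (b (b (b (a (l 3) (l 397989118119)) (a (l 426443276455) (l 16777192))) (l 16777120)) (l 16776920)) (l 16774296))) (l 16773960)) (l 16774976))) (b (a (b (a (b (a (l 3) (a (l 883320421527) (b (l 980494054071) (l 16777184)))) (a (b (b (a (l 3) (l 281488130119)) (a (l 233706618983) (l 16777152))) (l 16777088)) (l 16777016))) (b (a (a (b (b (l 732459696263) (l 16777208)) (l 16777112)) (l 16777112)) (l 16777000)) (l 16776800))) (l 16773912)) (l 16773616)) (l 16770168)))), by decide +kernel⟩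

def k31_pm_011_s : ∃ t, chk3 f_pm_011_s t 271 504 1 = true :=
  ⟨(b (a (b (a (b (l 3) (a (l 3) (b (l 3) (a (b (l 3) (l 874193614055)) (b (l 863456196023) (a (b (l 223506066423) (l 16777160)) (l 16777120))))))) (b (a (l 3) (b (l 3) (a (a (l 955261119063) (a (l 898352804199) (l 843055102791))) (b (b (a (l 3) (a (l 3) (l 900500291575))) (a (a (l 3) (l 465097982087)) (l 16777200))) (l 16777136))))) (b (a (b (b (l 960092957015) (b (l 907479611991) (l 857013747431))) (a (l 852181907079) (a (b (l 177335167959) (l 16777152)) (l 16777112)))) (l 229948518311)) (a (a (a (b (b (l 277730033735) (l 16777152)) (l 16777056)) (l 16777048)) (l 16776944)) (l 16776728))))) (a (b (a (b (a (b (l 3) (l 896742191959)) (b (l 886004773927) (a (b (l 397989112167) (l 16777176)) (l 16777136)))) (a (a (b (b (l 402284079111) (l 16777176)) (l 16777080)) (l 16777072)) (l 16776968))) (a (a (b (b (b (l 394231016231) (l 16777168)) (l 16777064)) (l 16776864)) (l 16776928)) (l 16776824))) (l 16773864)) (l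 16773568))) (b (a (b (a (b (a (a (l 935933766631) (a (l 877414841671) (b (l 3) (l 379198633735)))) (b (b (a (l 3) (a (l 3) (l 413021503575))) (a (a (l 3) (l 507510784071)) (l 16777192))) (l 16777120))) (l 16775680)) (l 16775536)) (l 16776440)) (l 16773520)) (l 16770048))) (a (l 16774120) (l 16773520))), by decide +kernel⟩

def k32_pm_011_s : ∃ t, chk3 f_pm_011_s t 135 505 1 = true :=
  ⟨(b (a (a (b (l 16770216) (l 16774320)) (l 16773672)) (l 16771712)) (a (l 16771936) (l 16748224))), by decide +kernel⟩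

def k33_pm_011_s : ∃ t, chk3 f_pm_011_s t 67 253 1 = true :=
  ⟨(a (b (a (b (a (a (l 16774096) (l 16769592)) (l 16763472)) (l 16761992)) (b (l 16761656) (l 16769984))) (a (l 16759008) (l 16767128))) (b (a (l 16768408) (l 16744488)) (l 16752112))), by decide +kernel⟩

def k34_pm_011_s : ∃ t, chk3 f_pm_011_s t 33 127 1 = true :=
  ⟨(a (b (a (b (a (b (a (b (a (l 16773600) (l 16770448)) (l 16764448)) (l 16769160)) (l 16767616)) (a (l 16769656) (l 16760656))) (a (l 16764272) (l 16767120))) (b (a (l 16758904) (l 16766976)) (l 16752808))) (b (a (l 16752992) (l 16737120)) (a (l 16737312) (l 16731584)))) (b (a (a (l 16754312) (l 16749856)) (a (l 16737968) (l 16756072))) (a (b (l 16731992) (l 16747088)) (l 16747040)))), by decide +kernel⟩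

def k35_pm_011_s : ∃ t, chk3 f_pm_011_s t 34 124 1 = true :=
  ⟨(a (l 3) (b (l 3) (a (l 3) (b (l 3) (a (l 3) (b (l 3) (a (b (l 3) (a (b (l 3) (a (l 3) (l 842518222647))) (b (a (l 3) (l 826948967447)) (a (b (l 814064069287) (l 16771880)) (l 16776968))))) (b (a (b (l 3) (a (l 3) (l 810842841319))) (b (b (l 3) (l 797421074695)) (a (b (a (l 401210328087) (l 16772256)) (l 16777048)) (l 16776896)))) (a (b (a (b (l 791515492199) (l 16777088)) (l 16776928)) (l 16776536)) (l 16776240)))))))))), by decide +kernel⟩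

def k36_pm_011_s : ∃ t, chk3 f_pm_011_s t 70 124 1 = true :=
  ⟨(b (a (l 3) (b (l 3) (a (b (l 3) (a (l 3) (b (l 3) (a (l 3) (b (l 3) (l 818359029703)))))) (b (a (l 3) (b (l 3) (a (l 3) (b (l 3) (l 770577526487))))) (a (b (a (l 3) (b (l 3) (l 794199846583))) (a (b (l 806011000071) (a (l 369534944967) (l 16776912))) (l 210621156279))) (b (a (b (l 782388685223) (l 206863061815)) (l 16771416)) (l 16775888))))))) (a (b (a (l 3) (b (l 3) (a (b (l 3) (a (b (l 3) (a (l 826412096199) (b (l 796347329959) (l 16777104)))) (b (a (l 810305970119) (b (l 385104200823) (l 16777064))) (l 16776808)))) (b (a (b (l 3) (a (l 794736714951) (b (l 379735493287) (l 16777024)))) (b (a (l 779704330695) (l 200957481255)) (l 16776728))) (l 16770976))))) (a (b (a (b (l 3) (a (b (l 3) (a (l 3) (l 780241204439))) (b (a (l 3) (l 764671949223)) (a (l 203104964551) (l 16776816))))) (b (a (b (l 3) (a (l 858624348359) (l 749102692695))) (b (a (l 842518222279) (b (l 818895906999) (l 16771896))) (l 16771648)))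 (a (l 216526738439) (l 16776088)))) (a (b (a (b (a (b (l 378661751175) (l 16777008)) (l 16776856)) (l 16776464)) (l 16776160)) (l 16775376)) (l 16774768))) (a (b (l 222969191511) (l 16773616)) (l 16768296)))) (b (a (b (a (b (a (l 3) (b (l 3) (l 842518218071))) (a (b (l 861845569559) (a (l 764671946439) (l 16771840))) (b (a (l 749639562183) (l 16771792)) (l 16776648)))) (b (a (b (l 830170188423) (a (l 734070306999) (l 16776992))) (b (a (b (l 389936038199) (l 16777104)) (l 16776952)) (l 16776560))) (l 16770808))) (l 16772408)) (a (l 16771744) (l 16762720))) (l 16768000)))), by decide +kernel⟩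

def k37_pm_011_s : ∃ t, chk3 f_pm_011_s t 71 124 1 = true :=
  ⟨(b (a (b (a (b (l 3) (a (l 3) (b (l 3) (b (l 3) (a (l 3) (a (l 777556846823) (l 199346868887))))))) (b (a (l 3) (b (l 3) (a (b (l 3) (l 816748416375)) (b (l 804400386775) (l 200420607351))))) (a (b (a (l 850571273415) (b (l 829096445959) (a (l 745881465671) (l 16777048)))) (a (b (a (l 761450720791) (l 16771848)) (l 16776704)) (l 16776392))) (b (a (b (a (l 730849081463) (l 16777000)) (l 16776616)) (l 16776304)) (l 16775528))))) (a (b (a (b (a (l 3) (b (l 3) (a (l 809232227959) (l 371145557447)))) (a (b (l 759303239975) (l 16776880)) (l 16776576))) (b (a (b (a (l 793126101927) (l 196125641847)) (l 16776792)) (l 16776480)) (l 16775712))) (l 16769448)) (l 16770824))) (b (a (b (a (b (a (b (l 3) (l 792589228103)) (b (l 779704327591) (l 16771768))) (l 214379252183)) (l 221895447623)) (l 16763848)) (l 16767840)) (l 16759448))) (a (b (l 16765040) (l 16765872)) (l 16742312))), by decide +kernel⟩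

def k38_pm_011_s : ∃ t, chk3 f_pm_011_s t 68 250 1 = true :=
  ⟨(a (l 3) (b (l 3) (b (l 3) (a (l 3) (a (b (l 3) (a (l 3) (b (l 3) (a (l 3) (b (l 3) (l 823727748487)))))) (b (a (l 3) (b (l 3) (b (l 3) (a (l 3) (l 779167464951))))) (a (b (a (l 3) (b (l 3) (l 801716042183))) (a (b (l 812453459879) (l 210621162215)) (l 218137355655))) (b (b (a (l 789904882647) (l 16777040)) (l 16774296)) (l 16776512))))))))), by decide +kernel⟩

def k39_pm_011_s : ∃ t, chk3 f_pm_011_s t 138 250 1 = true :=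
  ⟨(b (a (l 3) (b (l 3) (a (b (l 3) (b (l 3) (a (l 3) (a (b (l 3) (l 832317679671)) (b (l 820506520183) (l 206863065063)))))) (b (a (l 3) (b (l 3) (a (b (l 3) (l 786683654455)) (b (l 775409365879) (l 16777048))))) (a (b (a (b (l 3) (l 809232231607)) (b (l 797957943031) (l 16777080))) (l 255181449671)) (l 16773904)))))) (a (b (a (b (l 3) (a (l 3) (a (l 3) (b (l 3) (a (l 843055098679) (b (l 3) (l 201494356215))))))) (b (a (l 3) (b (l 3) (a (b (l 3) (l 877951704887)) (a (l 805474137095) (b (l 856476871399) (l 16777112)))))) (a (b (a (l 3) (a (l 824264617879) (b (l 887078512247) (l 16777144)))) (a (b (a (b (l 3) (l 16773664)) (l 313700379911)) (l 16776960)) (l 16776808))) (b (a (b (a (b (l 406579040695) (l 16777200)) (l 16777128)) (l 16776928)) (l 16776776)) (l 16776384))))) (a (b (a (b (a (l 3) (b (l 3) (l 757155757335))) (a (b (c (l 767893175063) (l 767893174999)) (l 16777024)) (l 16776880))) (b (a (b (a (l 820506521767) (l 199346871943)) (l 16776992)) (l 16776840)) (l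 16776448))) (l 16770688)) (l 16772712))) (b (a (b (a (b (a (b (l 3) (l 854866256823)) (b (l 843591968247) (l 203104967255))) (a (b (a (l 375440529143) (l 16777096)) (l 16776896)) (l 16776744))) (b (l 216526740471) (l 16776320))) (l 16770560)) (l 16769960)) (l 16763128)))), by decide +kernel⟩

def k40_pm_011_s : ∃ t, chk3 f_pm_011_s t 139 250 1 = true :=
  ⟨(b (a (b (a (b (l 3) (a (l 3) (b (l 3) (a (a (l 840370741191) (l 768430046327)) (b (a (l 389936041047) (l 16777168)) (l 16776976)))))) (b (a (b (l 3) (a (l 3) (l 874730474903))) (b (a (l 3) (l 858624348775)) (a (b (l 860234965287) (l 368461206759)) (l 208473675687)))) (a (b (a (a (l 821580260471) (l 750713306103)) (b (a (l 383493591783) (l 16777136)) (l 16776944))) (l 16776680)) (l 16771136)))) (a (b (a (b (b (b (l 846813191383) (l 781851818103)) (a (l 764671948231) (l 16777008))) (l 16776752)) (l 16771208)) (l 16775664)) (l 16769816))) (b (a (b (b (a (a (b (l 837149517287) (l 201494354791)) (l 16773072)) (l 16776576))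 (l 16771088)) (l 16775528)) (l 16764432)) (l 16773336))) (a (l 16767152) (l 16770064))), by decide +kernel⟩

def k41_pm_011_s : ∃ t, chk3 f_pm_011_s t 136 502 1 = true :=
  ⟨(b (l 3) (a (l 3) (a (l 3) (b (l 3) (a (b (l 3) (a (b (l 3) (a (l 897279060023) (b (l 870435517015) (l 203641842007)))) (b (a (l 882246674983) (b (a (l 3) (a (l 409263398983) (l 389399176967))) (l 16774552))) (l 217600485975)))) (b (a (b (l 3) (a (l 866677419015) (b (a (l 3) (l 388325434039)) (l 16777160)))) (b (a (l 851645033975) (a (b (a (l 3) (l 413021495111)) (l 16777176)) (l 316921605415))) (l 16777008))) (l 224579808199))))))), by decide +kernel⟩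

def k42_pm_011_s : ∃ t, chk3 f_pm_011_s t 137 502 1 = true :=
  ⟨(a (b (a (b (l 3) (a (l 3) (b (l 3) (a (l 3) (b (l 3) (l 926270085863)))))) (b (a (l 3) (b (l 3) (a (l 3) (b (l 3) (l 869898647431))))) (a (b (a (l 3) (b (l 3) (l 892984090343))) (a (b (l 904795249895) (a (l 777019981031) (l 298131123591))) (b (a (b (a (l 3) (l 404431559655)) (l 199883745159)) (l 16774504)) (l 16776928)))) (b (a (b (l 881172930807) (a (b (a (l 3) (l 398525980471)) (l 16777184)) (l 16777112))) (b (a (b (a (l 3) (l 391546659287)) (l 16777168)) (l 16777096)) (l 16776896))) (l 16774016))))) (a (b (a (b (l 3) (a (b (l 3) (a (l 836075778023) (a (b (a (l 3) (l 403894690279)) (l 16777160)) (l 206863067271)))) (b (a (l 821043395607) (b (a (l 399599721879) (l 16777208)) (l 16777112))) (l 16776984)))) (b (a (b (l 3) (a (l 806547881495) (b (l 564419095399) (l 16777096)))) (b (b (l 786683657063) (a (l 553144806503) (l 16777080))) (l 16776952))) (l 16774072))) (l 203641843767)) (a (l 16774552) (l 16770048))))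 (b (a (b (a (b (a (l 3) (b (l 3) (l 846813199271))) (a (b (l 858087487895) (a (b (a (l 3) (l 386177951015)) (l 16777152)) (l 16777080))) (b (a (b (a (l 410337139463) (l 16774280)) (l 16777136)) (l 16777064)) (l 16776864)))) (b (a (b (l 835002039735) (a (b (l 384030465383) (l 16777120)) (l 16777048))) (b (a (b (l 575693384599) (l 16777104)) (l 16777032)) (l 16776832))) (l 16776576))) (l 16773432)) (l 16774144)) (l 16768624))), by decide +kernel⟩

def k43_pm_011_s : ∃ t, chk3 f_pm_011_s t 272 1006 1 = true :=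
  ⟨(a (l 3) (b (l 3) (a (b (l 3) (a (b (l 3) (a (l 3) (a (l 3) (l 855940004839)))) (b (b (l 3) (b (l 934860024215) (l 841444490503))) (a (b (b (a (l 3) (a (l 3) (l 417316465287))) (a (a (l 3) (l 428053883319)) (l 16777208))) (l 343228284551)) (l 16777080))))) (b (a (b (l 3) (a (l 3) (a (l 911237704599) (l 819969654647)))) (b (a (l 3) (a (l 892984094055) (l 802252913703))) (a (a (b (b (l 3) (l 400136595383)) (l 16777160)) (l 413021502967)) (l 16777048)))) (b (a (a (b (b (a (l 3) (l 408189658551)) (a (l 409263400103) (l 16777200))) (l 16777136)) (l 16777064)) (l 16776848)) (l 16774104)))))), by decide +kernel⟩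

def k44_pm_011_s : ∃ t, chk3 f_pm_011_s t 272 1007 1 = true :=
  ⟨(a (b (a (b (l 3) (a (b (l 3) (a (l 3) (l 932175675271))) (b (a (l 3) (b (l 3) (l 903184642247))) (a (b (l 914458931175) (b (a (a (l 3) (l 597168226391)) (l 16777200)) (l 16777168))) (a (b (a (b (l 3) (l 16777208)) (l 371682438503)) (l 16777096)) (l 16777096)))))) (b (a (b (l 3) (a (l 3) (b (l 3) (l 881172935303)))) (b (a (l 3) (b (l 3) (l 859161228359))) (a (b (l 869898646375) (a (l 371145571847) (l 16777136))) (a (a (b (l 376514276231) (l 16777088)) (l 16777120)) (l 16777064))))) (a (b (a (b (l 891910353319) (a (b (a (l 3) (l 315847868535)) (l 16777192)) (l 16777152))) (a (b (b (l 395841628391) (l 16777184)) (l 16777080)) (l 16777080))) (l 16776920)) (l 16774152)))) (a (b (a (b (a (a (a (l 894594707495) (l 841981361975)) (b (l 932712542967) (b (l 167671491527) (l 16777144)))) (b (b (a (a (l 3) (l 578377744503)) (l 16777200)) (l 16777176)) (l 16777072))) (l 16776944)) (l 16774176)) (l 16776400)) (l 16773488)))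 (b (a (b (a (b (a (b (l 847886939431) (l 209010551911)) (l 315310996855)) (l 16776888)) (l 16774120)) (l 16776352)) (l 16770816)) (l 16775264))), by decide +kernel⟩

def k45_pm_011_s : ∃ t, chk3 f_pm_011_s t 273 503 1 = true :=
  ⟨(b (a (b (a (b (l 3) (a (b (l 3) (b (l 3) (b (l 872046128903) (l 789368012119)))) (b (a (l 3) (a (l 856476872983) (b (l 3) (l 16777192)))) (a (a (b (b (l 3) (l 16774984)) (l 16777128)) (l 16774832)) (l 16777024))))) (b (a (b (l 3) (a (l 937544377463) (a (l 838760133367) (b (b (l 3) (l 410874012887)) (l 16777176))))) (b (a (l 912848315991) (b (l 892984094839) (l 481204108951))) (a (a (l 443086274071) (l 16777104)) (l 16776992)))) (a (b (a (a (a (b (l 400673464935) (l 16777136)) (l 206863067463)) (l 16777112)) (l 16777008)) (l 16776808)) (l 16776664)))) (a (b (a (b (a (a (b (b (l 3) (l 392083532503)) (l 16777144)) (l 210621164199)) (l 16777032)) (l 16776840)) (l 16776688)) (l 16776296)) (l 16770760))) (b (a (b (a (b (a (b (l 201494357879) (l 16777056))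 (l 16776984)) (l 16776784)) (l 16776640)) (l 16776240)) (l 16775944)) (l 16775152))) (b (l 16769400) (l 16773560))), by decide +kernel⟩

def k46_pm_011_s : ∃ t, chk3 f_pm_011_s t 137 503 1 = true :=
  ⟨(b (a (l 16768744) (l 16771696)) (l 16760176)), by decide +kernel⟩

def k47_pm_011_s : ∃ t, chk3 f_pm_011_s t 69 251 1 = true :=
  ⟨(b (a (b (a (l 16768504) (l 16771440)) (l 16759920)) (l 16766816)) (a (l 16756648) (l 16762360))), by decide +kernel⟩

def k48_pm_011_s : ∃ t, chk3 f_pm_011_s t 35 125 1 = true :=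
  ⟨(b (a (a (a (b (l 16761616) (l 16767712)) (l 16757072)) (l 16753480)) (l 16751360)) (a (b (l 16759584) (l 16755000)) (l 16747416))), by decide +kernel⟩

def k49_pm_011_s : ∃ t, chk3 f_pm_011_s t 17 63 1 = true :=
  ⟨(a (b (a (b (a (b (a (b (a (l 16773384) (l 16773560)) (l 16771656)) (l 16765376)) (b (l 16767792) (l 16744072))) (b (l 16756648) (l 16740648))) (a (b (l 16750576) (l 16735016)) (b (l 16734616) (l 16750112)))) (b (b (l 16749488) (l 16733368)) (a (l 16726976) (l 16721936)))) (a (b (a (l 16750344) (l 16722816)) (a (l 16745616) (l 16737616))) (b (a (l 16737600) (l 16732416)) (l 16706448)))) (b (a (b (l 16747248) (l 16714184)) (b (l 16715840) (l 16724432))) (b (l 16697944) (l 16689416)))), by decide +kernel⟩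

def k50_pm_011_s : ∃ t, chk3 f_pm_011_s t 18 60 1 = true :=
  ⟨(a (l 3) (b (l 3) (a (l 3) (b (l 3) (a (b (l 3) (a (l 3) (b (l 819969613223) (l 351281298551)))) (b (a (l 816748373191) (b (l 735144021959) (l 16755624))) (l 266992569959))))))), by decide +kernel⟩

def k51_pm_011_s : ∃ t, chk3 f_pm_011_s t 36 61 1 = true :=
  ⟨(b (a (l 3) (b (l 3) (a (b (l 3) (a (l 3) (b (l 3) (a (l 3) (l 785073012135))))) (b (a (l 3) (b (l 3) (a (l 3) (l 749102673383)))) (a (b (a (l 3) (l 766819407351)) (a (b (l 765208803991) (l 227264145735)) (l 16765808))) (b (a (b (l 739975877063) (l 16776688)) (l 16776048)) (l 16774552))))))) (a (b (b (l 3) (a (l 3) (a (b (l 3) (a (b (l 3) (a (l 3) (l 742660240919))) (b (a (l 831780794967) (l 726554113735)) (l 223506054887)))) (b (a (b (l 3) (a (l 791515479511) (l 710447986551))) (b (a (l 774872484167) (l 360945002007)) (l 16776440))) (l 235854088199))))) (a (b (a (b (l 3) (a (b (l 3) (a (l 3) (l 809769088199))) (b (a (l 3) (l 792589221911)) (a (b (l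 790441743879) (l 207936801431)) (l 16771544))))) (b (a (b (l 3) (a (l 3) (l 775946226519))) (b (a (l 3) (l 759303231095)) (a (b (l 742660238327) (l 16776888)) (l 16776576)))) (a (b (a (b (l 766282555655) (l 16771752)) (l 16776680)) (l 16775920)) (l 16775288)))) (a (b (a (b (a (b (l 814600932087) (l 364166233703)) (l 212768637911)) (l 16776112)) (l 16765008)) (l 16773960)) (l 16762216))) (b (a (b (a (b (l 218674213463) (l 16775712)) (l 16775080)) (l 16773560)) (l 16772296)) (l 16769208)))) (b (b (a (a (b (a (l 3) (l 836612613367)) (a (b (l 3) (a (l 758229488791) (l 218137342823))) (b (a (l 741586493399) (l 16766496)) (l 16776216)))) (b (a (b (l 821580243719) (a (l 725480368903) (l 16776864))) (l 230485367143)) (l 16764520))) (l 16769960)) (a (a (l 16771568) (l 16771872)) (l 16768376))) (a (l 16761424) (l 16761968))))), by decide +kernel⟩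

def k52_pm_011_s : ∃ t, chk3 f_pm_011_s t 37 61 1 = true :=
  ⟨(b (a (b (a (b (l 3) (a (l 3) (b (l 3) (a (l 829096424855) (l 713669205127))))) (b (a (l 3) (b (l 3) (a (l 747492058775) (l 16758720)))) (a (b (a (l 765745663559) (l 696489341767)) (l 16765408)) (l 16753632)))) (a (b (a (b (a (l 3) (l 731385939303)) (a (l 230485357479) (l 16775800))) (l 250349586087)) (l 16761632)) (l 16764312))) (b (a (b (a (b (a (l 729775324791) (l 16755864)) (l 16775368)) (l 16774072)) (l 16771120)) (l 16768544)) (l 16752088))) (a (a (b (l 16765824) (l 16757248)) (l 16746360)) (l 16739320))), by decide +kernel⟩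

def k53_pm_011_s : ∃ t, chk3 f_pm_011_s t 19 30 1 = true :=
  ⟨(b (a (b (a (l 3) (b (a (l 3) (l 818358949335)) (a (b (l 819432713367) (l 330343298503)) (l 290614861079)))) (a (b (a (b (l 3) (a (l 734070266055) (l 260550097783))) (b (a (l 714742926103) (l 16755448)) (l 16773544))) (a (l 221895423031) (l 16767464))) (b (l 16758136) (l 16760560)))) (b (a (b (a (b (l 793126065703) (l 16754712)) (l 16773032)) (l 16767424)) (l 16741064)) (a (l 16755512) (l 16746432)))) (a (b (a (a (l 16738800) (l 16755152)) (l 16748296)) (a (l 16740480) (l 16731336))) (b (l 16734936) (l 16718144)))), by decide +kernel⟩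

def k54_pm_011_s : ∃ t, chk3 f_pm_011_s t 9 31 1 = true :=
  ⟨(b (a (b (a (b (a (b (a (l 16759104) (l 16764896)) (l 16752352)) (l 16755552)) (a (l 16756040) (l 16746368))) (a (l 16741336) (l 16731760))) (a (b (a (l 16746624) (l 16715720)) (a (l 16716104) (l 16705928))) (b (l 16721984) (l 16690968)))) (b (a (l 16717720) (l 16700080)) (a (l 16698912) (l 16681288)))) (a (b (a (b (l 16699968) (l 16687104)) (a (l 16677824) (l 16667840))) (a (a (l 16697352) (l 16686128)) (l 16649096))) (b (a (l 16653456) (l 16656912)) (a (l 16650344) (l 16632832))))), by decide +kernel⟩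

def k55_pm_011_s : ∃ t, chk3 f_pm_011_s t 5 7 1 = true :=
  ⟨(b (a (b (a (l 3) (b (l 3) (a (b (l 3) (l 749102565335)) (b (l 666961371127) (l 16747400))))) (a (b (a (l 3) (b (l 790441563255) (a (l 663203295751) (l 16750408)))) (a (b (a (b (l 3) (l 668035137735)) (l 313700213303)) (a (l 227264085495) (l 16758832))) (b (l 16760584) (l 16744296)))) (b (a (b (l 293835979655) (l 16757056)) (l 16745424)) (a (l 16732608) (l 16712616))))) (b (b (a (a (b (l 3) (l 469929677271)) (l 16703904)) (l 16736040)) (a (a (l 16756240) (l 16736280)) (l 16706328))) (a (b (l 16716168) (l 16681936)) (b (l 16675456) (l 16639792))))) (b (a (a (b (a (b (l 16747848) (l 16732024)) (l 16719808)) (a (l 16708144) (l 16688192))) (b (l 16689232) (l 16656352))) (a (b (l 16647080) (l 16612792)) (l 16585720))) (a (b (b (a (l 16672488) (l 16631296)) (a (l 16654592) (l 16613008))) (a (b (l 16630936) (l 16607424)) (b (l 16590384) (l 16547200)))) (b (a (l 16557808) (l 16532576)) (a (l 16534208) (l 16488040)))))),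 by decide +kernel⟩

def k56_pm_011_s : ∃ t, chk3 f_pm_011_s t 3 1 1 = true :=
  ⟨(b (b (l 1) (a (l 3) (l 1))) (b (a (b (a (b (l 3) (a (l 3) (b (l 3) (l 648707696039)))) (b (l 1) (a (l 245383269015) (l 1)))) (a (b (a (b (l 3) (a (l 650318318295) (l 16732824))) (b (l 16667400) (l 16741936))) (a (b (l 16712928) (l 16724520)) (l 16696992))) (b (a (l 16713016) (l 16669216)) (a (l 16654328) (l 16611200))))) (b (l 1) (a (b (l 1) (l 16544720)) (l 1)))) (b (a (a (b (a (l 16680416) (l 16639424)) (a (l 16614120) (l 16570568))) (b (l 16576432) (l 16503800))) (a (b (l 16487432) (l 16412904)) (l 283500098423))) (b (a (a (a (l 16540368) (l 16494080)) (l 16423408)) (a (l 16327904) (l 16232536))) (a (a (b (l 16461248) (l 16416888)) (b (l 16363752) (l 16319952))) (a (l 16242632) (l 16158272))))))), by decide +kernel⟩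

theorem s57_pm_011_s : ∃ t, chk3 f_pm_011_s t 18 61 1 = true := ex3_a k51_pm_011_s k52_pm_011_s

theorem s58_pm_011_s : ∃ t, chk3 f_pm_011_s t 18 30 1 = true := ex3_b k50_pm_011_s s57_pm_011_s

theorem s59_pm_011_s : ∃ t, chk3 f_pm_011_s t 9 30 1 = true := ex3_a s58_pm_011_s k53_pm_011_s

theorem s60_pm_011_s : ∃ t, chk3 f_pm_011_s t 9 15 1 = true := ex3_b s59_pm_011_s k54_pm_011_s

theorem s61_pm_011_s : ∃ t, chk3 f_pm_011_s t 272 503 1 = true := ex3_b k43_pm_011_s k44_pm_011_s

theorem s62_pm_011_s : ∃ t, chk3 f_pm_011_s t 136 503 1 = true := ex3_a s61_pm_011_s k45_pm_011_s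

theorem s63_pm_011_s : ∃ t, chk3 f_pm_011_s t 68 503 1 = true := ex3_a s62_pm_011_s k46_pm_011_s

theorem s64_pm_011_s : ∃ t, chk3 f_pm_011_s t 68 502 1 = true := ex3_a k41_pm_011_s k42_pm_011_s

theorem s65_pm_011_s : ∃ t, chk3 f_pm_011_s t 68 251 1 = true := ex3_b s64_pm_011_s s63_pm_011_s

theorem s66_pm_011_s : ∃ t, chk3 f_pm_011_s t 34 251 1 = true := ex3_a s65_pm_011_s k47_pm_011_s

theorem s67_pm_011_s : ∃ t, chk3 f_pm_011_s t 69 250 1 = true := ex3_a k39_pm_011_s k40_pm_011_s

theorem s68_pm_011_s : ∃ t, chk3 f_pm_011_s t 34 250 1 = true := ex3_a k38_pm_011_s s67_pm_011_s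

theorem s69_pm_011_s : ∃ t, chk3 f_pm_011_s t 34 125 1 = true := ex3_b s68_pm_011_s s66_pm_011_s

theorem s70_pm_011_s : ∃ t, chk3 f_pm_011_s t 17 125 1 = true := ex3_a s69_pm_011_s k48_pm_011_s

theorem s71_pm_011_s : ∃ t, chk3 f_pm_011_s t 35 124 1 = true := ex3_a k36_pm_011_s k37_pm_011_s

theorem s72_pm_011_s : ∃ t, chk3 f_pm_011_s t 17 124 1 = true := ex3_a k35_pm_011_s s71_pm_011_s

theorem s73_pm_011_s : ∃ t, chk3 f_pm_011_s t 17 62 1 = true := ex3_b s72_pm_011_s s70_pm_011_s

theorem s74_pm_011_s : ∃ t, chk3 f_pm_011_s t 17 31 1 = true := ex3_b s73_pm_011_s k49_pm_011_s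

theorem s75_pm_011_s : ∃ t, chk3 f_pm_011_s t 135 504 1 = true := ex3_a k30_pm_011_s k31_pm_011_s

theorem s76_pm_011_s : ∃ t, chk3 f_pm_011_s t 135 252 1 = true := ex3_b s75_pm_011_s k32_pm_011_s

theorem s77_pm_011_s : ∃ t, chk3 f_pm_011_s t 134 505 1 = true := ex3_a k28_pm_011_s k29_pm_011_s

theorem s78_pm_011_s : ∃ t, chk3 f_pm_011_s t 134 252 1 = true := ex3_b k27_pm_011_s s77_pm_011_s

theorem s79_pm_011_s : ∃ t, chk3 f_pm_011_s t 67 252 1 = true := ex3_a s78_pm_011_s s76_pm_011_s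

theorem s80_pm_011_s : ∃ t, chk3 f_pm_011_s t 67 126 1 = true := ex3_b s79_pm_011_s k33_pm_011_s

theorem s81_pm_011_s : ∃ t, chk3 f_pm_011_s t 133 506 1 = true := ex3_a k24_pm_011_s k25_pm_011_s

theorem s82_pm_011_s : ∃ t, chk3 f_pm_011_s t 133 253 1 = true := ex3_b s81_pm_011_s k26_pm_011_s

theorem s83_pm_011_s : ∃ t, chk3 f_pm_011_s t 132 507 1 = true := ex3_b k22_pm_011_s k23_pm_011_s

theorem s84_pm_011_s : ∃ t, chk3 f_pm_011_s t 132 253 1 = true := ex3_b k21_pm_011_s s83_pm_011_s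

theorem s85_pm_011_s : ∃ t, chk3 f_pm_011_s t 66 253 1 = true := ex3_a s84_pm_011_s s82_pm_011_s

theorem s86_pm_011_s : ∃ t, chk3 f_pm_011_s t 66 126 1 = true := ex3_b k20_pm_011_s s85_pm_011_s

theorem s87_pm_011_s : ∃ t, chk3 f_pm_011_s t 33 126 1 = true := ex3_a s86_pm_011_s s80_pm_011_s

theorem s88_pm_011_s : ∃ t, chk3 f_pm_011_s t 33 63 1 = true := ex3_b s87_pm_011_s k34_pm_011_s

theorem s89_pm_011_s : ∃ t, chk3 f_pm_011_s t 130 2036 1 = true := ex3_a k14_pm_011_s k15_pm_011_s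

theorem s90_pm_011_s : ∃ t, chk3 f_pm_011_s t 130 1018 1 = true := ex3_b s89_pm_011_s k16_pm_011_s

theorem s91_pm_011_s : ∃ t, chk3 f_pm_011_s t 130 509 1 = true := ex3_b s90_pm_011_s k17_pm_011_s

theorem s92_pm_011_s : ∃ t, chk3 f_pm_011_s t 65 509 1 = true := ex3_a s91_pm_011_s k18_pm_011_s

theorem s93_pm_011_s : ∃ t, chk3 f_pm_011_s t 263 1016 1 = true := ex3_a k11_pm_011_s k12_pm_011_s

theorem s94_pm_011_s : ∃ t, chk3 f_pm_011_s t 263 508 1 = true := ex3_b s93_pm_011_s k13_pm_011_s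

theorem s95_pm_011_s : ∃ t, chk3 f_pm_011_s t 262 1017 1 = true := ex3_a k9_pm_011_s k10_pm_011_s

theorem s96_pm_011_s : ∃ t, chk3 f_pm_011_s t 262 508 1 = true := ex3_b k8_pm_011_s s95_pm_011_s

theorem s97_pm_011_s : ∃ t, chk3 f_pm_011_s t 131 508 1 = true := ex3_a s96_pm_011_s s94_pm_011_s

theorem s98_pm_011_s : ∃ t, chk3 f_pm_011_s t 65 508 1 = true := ex3_a k7_pm_011_s s97_pm_011_s

theorem s99_pm_011_s : ∃ t, chk3 f_pm_011_s t 65 254 1 = true := ex3_b s98_pm_011_s s92_pm_011_s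

theorem s100_pm_011_s : ∃ t, chk3 f_pm_011_s t 65 127 1 = true := ex3_b s99_pm_011_s k19_pm_011_s

theorem s101_pm_011_s : ∃ t, chk3 f_pm_011_s t 32 127 1 = true := ex3_a k6_pm_011_s s100_pm_011_s

theorem s102_pm_011_s : ∃ t, chk3 f_pm_011_s t 32 63 1 = true := ex3_b k5_pm_011_s s101_pm_011_s

theorem s103_pm_011_s : ∃ t, chk3 f_pm_011_s t 16 63 1 = true := ex3_a s102_pm_011_s s88_pm_011_s

theorem s104_pm_011_s : ∃ t, chk3 f_pm_011_s t 16 31 1 = true := ex3_b k4_pm_011_s s103_pm_011_s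

theorem s105_pm_011_s : ∃ t, chk3 f_pm_011_s t 8 31 1 = true := ex3_a s104_pm_011_s s74_pm_011_s

theorem s106_pm_011_s : ∃ t, chk3 f_pm_011_s t 8 15 1 = true := ex3_b k3_pm_011_s s105_pm_011_s

theorem s107_pm_011_s : ∃ t, chk3 f_pm_011_s t 4 15 1 = true := ex3_a s106_pm_011_s s60_pm_011_s

theorem s108_pm_011_s : ∃ t, chk3 f_pm_011_s t 4 7 1 = true := ex3_b k2_pm_011_s s107_pm_011_s

theorem s109_pm_011_s : ∃ t, chk3 f_pm_011_s t 2 7 1 = true := ex3_a s108_pm_011_s k55_pm_011_s

theorem s110_pm_011_s : ∃ t, chk3 f_pm_011_s t 2 3 1 = true := ex3_b k1_pm_011_s s109_pm_011_s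

theorem s111_pm_011_s : ∃ t, chk3 f_pm_011_s t 2 1 1 = true := ex3_b k0_pm_011_s s110_pm_011_s

theorem s112_pm_011_s : ∃ t, chk3 f_pm_011_s t 1 1 1 = true := ex3_a s111_pm_011_s k56_pm_011_s

theorem c_pm_011_s : CertNE 0 536870912 536870912 536870912 1045395039 1503240 3 eng mog cd0q0 cd6q1 pd1 true true false .pnn 0 1 1
    ndB0q0 ndB6q1 pcB1 cut_pm_011_s Ext.none :=
  certNE1 (fam := true) (s1 := true) (s2 := false) (a := 0) (b := 1) (c := 1) (cn := .pnn) (n1 := ndB0q0) (n2 := ndB6q1) (pc := pcB1) (cut := cut_pm_011_s) (xt := Ext.none) (P1 := 0) (W1 := 536870912) (P2 := 536870912) (W2 := 536870912) (P3 := 1045395039) (W3 := 1503240) (N0 := 3) (En := eng) (mo := mog) (C1 := cd0q0) (C2 := cd6q1) (C3 := pd1)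
    rfl (fun _ => rfl) s112_pm_011_s

noncomputable def cut_pm_012_s : Cut := Cut.of [[⟨4, 0, 0, 1449551462⟩], [⟨0, 0, 0, 26843545⟩, ⟨1, 1, 0, 26843545⟩, ⟨2, 1, 0, 26843545⟩]]

noncomputable def f_pm_012_s : ℕ → ℕ → ℕ → ℕ → Bool := onCell 1073741824 536870912 536870912 536870912 1045395039 1503240
    (rowNE 3 eng mog cd0q0 cd6q1 pd2 2 true true false .pnp 0 1 2 (qsf 0 536870912 536870912 536870912 2) ndB0q0 ndB6q1 pcB2 cut_pm_012_s Ext.none)

def k0_pm_012_s : ∃ t, chk3 f_pm_012_s t 4 2 1 = true :=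
  ⟨(b (a (b (a (l 16138928) (l 6)) (a (l 16236384) (l 16122304))) (l 6)) (b (a (a (l 16233944) (l 16132432)) (l 15961472)) (a (a (b (l 16230136) (l 16269552)) (l 16156808)) (a (l 16059720) (l 15937664))))), by decide +kernel⟩

def k1_pm_012_s : ∃ t, chk3 f_pm_012_s t 4 3 1 = true :=
  ⟨(a (b (b (a (b (l 16353824) (l 16441176)) (b (l 16241344) (l 16343664))) (a (b (l 16526512) (a (l 16581000) (l 16517520))) (b (l 16431304) (l 16428696)))) (b (a (b (a (b (l 16589232) (l 16592072)) (l 16479744)) (a (b (l 16570616) (a (b (l 16607304) (l 16610960)) (l 16568928))) (b (l 16517256) (l 16489264)))) (b (l 16358504) (a (b (l 16445136) (l 16434040)) (l 16370208)))) (a (b (a (b (a (a (l 16642168) (l 16616352)) (l 16579272)) (a (b (l 16604904) (a (l 16672424) (l 16639392))) (b (l 16589416) (l 16592720)))) (b (l 16489328) (b (l 16511472) (l 16466360)))) (a (b (a (b (a (b (l 16679856) (l 16666568)) (b (l 16644584) (l 16649192))) (a (b (a (l 16707608) (l 16686472)) (l 14)) (b (l 16656352)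 (l 16665256)))) (b (l 16595952) (a (b (l 16618400) (l 16625136)) (l 16585144)))) (a (l 14) (b (a (b (l 16633600) (l 14)) (b (l 16594000) (l 16602120))) (l 14)))) (b (a (b (l 16533576) (l 16535664)) (l 16475072)) (a (b (a (l 16559680) (l 16524200)) (b (a (l 16570888) (l 16532352)) (a (l 14) (l 16539992)))) (b (l 16475800) (a (l 16498800) (l 16464216))))))) (b (b (a (l 16425768) (l 16346728)) (a (l 16371848) (l 16327832))) (b (a (a (l 16420592) (l 16370160)) (l 16300760)) (a (b (l 16387536) (l 16366024)) (a (l 16306248) (l 16257432)))))))) (b (b (b (a (l 16122144) (l 16013672)) (a (l 16229056) (l 16055152))) (b (a (l 16333472) (l 16226592)) (a (l 16321216) (l 16227024)))) (b (b (a (l 16301664) (l 16197040)) (a (l 16249024) (l 16152168))) (b (a (b (a (l 16271248) (l 16199256)) (a (l 16247480) (l 16171576))) (b (l 16103168) (a (l 16100616) (l 16032528)))) (a (a (b (l 16215984) (l 16190240)) (b (l 16136880) (l 16108064))) (a (l 16045976) (l 15975168))))))), by decide +kernel⟩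

def k2_pm_012_s : ∃ t, chk3 f_pm_012_s t 5 1 1 = true :=
  ⟨(b (b (l 6) (l 6)) (b (a (a (b (l 15947088) (l 16032632)) (a (b (l 6) (l 16048568)) (l 6))) (l 6)) (b (a (b (a (l 16107720) (l 16033400)) (a (l 16051664) (l 15968600))) (l 6)) (a (a (b (a (b (l 16019368) (l 15969560)) (l 15941200)) (a (l 15907896) (a (l 15859864) (a (l 15836424) (a (l 15824936) (l 15816840)))))) (b (l 15872544) (b (l 15777032) (l 15733544)))) (a (b (l 15797280) (l 15613136)) (l 6)))))), by decide +kernel⟩

def k3_pm_012_s : ∃ t, chk3 f_pm_012_s t 3 1 1 = true :=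
  ⟨(b (l 6) (l 6)), by decide +kernel⟩

theorem s4_pm_012_s : ∃ t, chk3 f_pm_012_s t 4 1 1 = true := ex3_b k0_pm_012_s k1_pm_012_s

theorem s5_pm_012_s : ∃ t, chk3 f_pm_012_s t 2 1 1 = true := ex3_a s4_pm_012_s k2_pm_012_s

theorem s6_pm_012_s : ∃ t, chk3 f_pm_012_s t 1 1 1 = true := ex3_a s5_pm_012_s k3_pm_012_s

theorem c_pm_012_s : CertNE 0 536870912 536870912 536870912 1045395039 1503240 3 eng mog cd0q0 cd6q1 pd2 true true false .pnp 0 1 2
    ndB0q0 ndB6q1 pcB2 cut_pm_012_s Ext.none :=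
  certNE2 (fam := true) (s1 := true) (s2 := false) (a := 0) (b := 1) (c := 2) (cn := .pnp) (n1 := ndB0q0) (n2 := ndB6q1) (pc := pcB2) (cut := cut_pm_012_s) (xt := Ext.none) (P1 := 0) (W1 := 536870912) (P2 := 536870912) (W2 := 536870912) (P3 := 1045395039) (W3 := 1503240) (N0 := 3) (En := eng) (mo := mog) (C1 := cd0q0) (C2 := cd6q1) (C3 := pd2)
    rfl (fun _ => rfl) s6_pm_012_s

noncomputable def cut_pm_022_s : Cut := Cut.of [[⟨4, 0, 0, 1449551462⟩], [⟨0, 0, 0, 26843545⟩, ⟨1, 1, 0, 26843545⟩, ⟨2, 1, 0, 26843545⟩]]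

noncomputable def f_pm_022_s : ℕ → ℕ → ℕ → ℕ → Bool := onCell 0 536870912 1073741824 536870912 1045395039 1503240
    (rowNE 3 eng mog cd0q0 cd6q2 pd2 1 true true false .pp 0 2 2 (qsf 0 536870912 1073741824 536870912 2) ndB0q0 ndB6q2 pcB2 cut_pm_022_s Ext.none)

def k0_pm_022_s : ∃ t, chk3 f_pm_022_s t 2 4 1 = true :=
  ⟨(b (a (a (b (a (b (a (l 14) (a (l 14) (l 1))) (b (a (l 14) (a (l 14) (b (l 1) (l 16491944)))) (a (a (l 16651616) (l 16626384)) (a (l 16556560) (l 16486888))))) (a (b (l 1) (a (b (l 1) (l 16423416)) (l 1))) (l 1))) (a (a (b (a (b (l 16666856) (l 16661360)) (b (l 16620816) (l 16618816))) (b (a (l 16659480) (l 16616840)) (l 16580056))) (b (a (l 16528968) (l 16459848)) (a (b (l 16550608) (l 16551776)) (l 16441568)))) (a (b (a (b (l 16419104) (l 16417088)) (l 16359080)) (l 16367864)) (b (b (l 1) (l 16276200)) (a (l 16303328) (l 16250120)))))) (b (l 1) (a (a (b (l 1) (l 16175664)) (l 1)) (l 1)))) (l 1)) (a (a (a (b (a (b (l 16578920) (l 16549848)) (b (a (l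 16510304) (l 16489128)) (l 16498544))) (a (b (l 16518000) (l 16439712)) (b (l 16517088) (l 16517464)))) (b (a (b (a (l 16430136) (l 16371984)) (a (l 16442616) (l 16387064))) (b (l 16285192) (a (l 16332864) (l 16278216)))) (a (l 16363792) (b (l 16261408) (l 16344168))))) (b (a (b (a (l 16180752) (l 16086200)) (a (l 16196192) (l 16096232))) (b (l 1) (a (l 16004528) (l 1)))) (a (b (a (l 16117072) (l 16117320)) (a (l 16249712) (l 16149384))) (b (l 15867000) (l 15994416))))) (a (b (l 1) (a (b (l 1) (l 15814368)) (l 1))) (l 1)))), by decide +kernel⟩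

def k1_pm_022_s : ∃ t, chk3 f_pm_022_s t 2 5 1 = true :=
  ⟨(a (a (b (b (a (b (a (l 16394952) (l 16469512)) (b (a (l 16337312) (l 16413064)) (a (b (l 16301680) (l 16269944)) (b (l 16378792) (l 16306784))))) (b (l 16360176) (b (l 16418008) (b (l 16430864) (l 16361096))))) (a (a (l 16211048) (l 16268560)) (l 16309640))) (a (a (l 16060616) (b (l 16211984) (l 16144432))) (b (l 16312304) (l 16242104)))) (b (b (a (b (a (l 16278296) (l 16184720)) (b (l 16257176) (b (l 16271640) (l 16223072)))) (b (a (l 16083800) (l 15977752)) (b (a (l 16118248) (l 16012416)) (b (l 16042512) (a (l 16154720) (l 16049248)))))) (a (l 16276264) (a (l 16176176) (b (l 16070552) (l 16096448))))) (a (b (l 16291144) (l 16273912)) (b (l 16153456) (l 16155408))))) (b (a (b (b (a (l 15829832) (l 1)) (b (a (l 15852856) (l 1)) (b (a (l 15868296) (l 1)) (a (b (l 15878064) (l 15885168)) (b (l 1) (l 15689880)))))) (a (b (a (l 15963336) (l 15852912)) (a (l 15998168) (l 15893056))) (a (l 15765616) (l 15671464))))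 (b (l 1) (a (a (l 15591568) (l 1)) (l 1)))) (b (a (a (a (l 16034336) (b (l 15929696) (l 15959360))) (b (a (l 15826616) (l 15720304)) (l 15604792))) (a (a (l 15642904) (l 15559288)) (l 15484816))) (a (a (l 16021008) (a (l 15907160) (l 6))) (l 6))))), by decide +kernel⟩

def k2_pm_022_s : ∃ t, chk3 f_pm_022_s t 2 3 1 = true :=
  ⟨(b (b (a (a (a (a (l 15999896) (l 16067872)) (l 16157016)) (b (a (l 16246784) (l 16147112)) (l 6))) (l 6)) (l 6)) (l 6)), by decide +kernel⟩

def k3_pm_022_s : ∃ t, chk3 f_pm_022_s t 3 1 1 = true :=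
  ⟨(b (a (b (l 1) (b (l 1) (l 6))) (l 1)) (l 6)), by decide +kernel⟩

theorem s4_pm_022_s : ∃ t, chk3 f_pm_022_s t 2 2 1 = true := ex3_b k0_pm_022_s k1_pm_022_s

theorem s5_pm_022_s : ∃ t, chk3 f_pm_022_s t 2 1 1 = true := ex3_b s4_pm_022_s k2_pm_022_s

theorem s6_pm_022_s : ∃ t, chk3 f_pm_022_s t 1 1 1 = true := ex3_a s5_pm_022_s k3_pm_022_s

theorem c_pm_022_s : CertNE 0 536870912 1073741824 536870912 1045395039 1503240 3 eng mog cd0q0 cd6q2 pd2 true true false .pp 0 2 2
    ndB0q0 ndB6q2 pcB2 cut_pm_022_s Ext.none :=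
  certNE1 (fam := true) (s1 := true) (s2 := false) (a := 0) (b := 2) (c := 2) (cn := .pp) (n1 := ndB0q0) (n2 := ndB6q2) (pc := pcB2) (cut := cut_pm_022_s) (xt := Ext.none) (P1 := 0) (W1 := 536870912) (P2 := 1073741824) (W2 := 536870912) (P3 := 1045395039) (W3 := 1503240) (N0 := 3) (En := eng) (mo := mog) (C1 := cd0q0) (C2 := cd6q2) (C3 := pd2)
    rfl (fun _ => rfl) s6_pm_022_s

noncomputable def cut_pm_023_s : Cut := Cut.of [[⟨4, 0, 0, 1449551462⟩]]

noncomputable def f_pm_023_s : ℕ → ℕ → ℕ → ℕ → Bool := onCell 1610612736 536870912 1073741824 536870912 1045395039 1503240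
    (rowNE 3 eng mog cd0q0 cd6q2 pd3 2 true true false .up 0 2 3 (qsf 0 536870912 1073741824 536870912 3) ndB0q0 ndB6q2 pcB3 cut_pm_023_s Ext.none)

def k0_pm_023_s : ∃ t, chk3 f_pm_023_s t 1 1 1 = true :=
  ⟨(a (l 6) (l 6)), by decide +kernel⟩

theorem c_pm_023_s : CertNE 0 536870912 1073741824 536870912 1045395039 1503240 3 eng mog cd0q0 cd6q2 pd3 true true false .up 0 2 3
    ndB0q0 ndB6q2 pcB3 cut_pm_023_s Ext.none :=
  certNE2 (fam := true) (s1 := true) (s2 := false) (a := 0) (b := 2) (c := 3) (cn := .up) (n1 := ndB0q0) (n2 := ndB6q2) (pc := pcB3) (cut := cut_pm_023_s) (xt := Ext.none) (P1 := 0) (W1 := 536870912) (P2 := 1073741824) (W2 := 536870912) (P3 := 1045395039) (W3 := 1503240) (N0 := 3) (En := eng) (mo := mog) (C1 := cd0q0) (C2 := cd6q2) (C3 := pd3)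
    rfl (fun _ => rfl) k0_pm_023_s

noncomputable def cut_pm_033_s : Cut := Cut.of [[⟨4, 0, 0, 1449551462⟩]]

noncomputable def f_pm_033_s : ℕ → ℕ → ℕ → ℕ → Bool := onCell 1610612736 536870912 0 1230186008 1045395039 1503240
    (rowNE 3 eng mog cd0q0 cd6q3 pd3 2 true true false .pnn 0 3 3 (qsf 0 536870912 0 1230186008 3) ndB0q0 ndB6q3 pcB3 cut_pm_033_s Ext.none)

def k0_pm_033_s : ∃ t, chk3 f_pm_033_s t 1 1 1 = true :=
  ⟨(b (l 6) (l 6)), by decide +kernel⟩

theorem c_pm_033_s : CertNE 0 536870912 0 1230186008 1045395039 1503240 3 eng mog cd0q0 cd6q3 pd3 true true false .pnn 0 3 3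
    ndB0q0 ndB6q3 pcB3 cut_pm_033_s Ext.none :=
  certNE2 (fam := true) (s1 := true) (s2 := false) (a := 0) (b := 3) (c := 3) (cn := .pnn) (n1 := ndB0q0) (n2 := ndB6q3) (pc := pcB3) (cut := cut_pm_033_s) (xt := Ext.none) (P1 := 0) (W1 := 536870912) (P2 := 0) (W2 := 1230186008) (P3 := 1045395039) (W3 := 1503240) (N0 := 3) (En := eng) (mo := mog) (C1 := cd0q0) (C2 := cd6q3) (C3 := pd3)
    rfl (fun _ => rfl) k0_pm_033_s

noncomputable def cut_pm_101_s : Cut := Cut.of [[⟨4, 0, 0, 1449551462⟩]]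

noncomputable def f_pm_101_s : ℕ → ℕ → ℕ → ℕ → Bool := onCell 536870912 536870912 536870912 536870912 1045395039 1503240
    (rowNE 3 eng mog cd0q1 cd6q0 pd1 1 true true false .npn 1 0 1 (qsf 536870912 536870912 0 536870912 1) ndB0q1 ndB6q0 pcB1 cut_pm_101_s Ext.none)

def k0_pm_101_s : ∃ t, chk3 f_pm_101_s t 1 1 1 = true :=
  ⟨(a (b (b (a (b (a (l 3) (b (l 1) (a (l 563345251271) (l 1)))) (a (b (a (l 3) (l 571935183735)) (a (l 575156407975) (l 290614785895))) (b (a (l 288467305335) (l 16752976)) (a (l 16745760) (l 16723048))))) (a (b (l 1) (b (l 1) (l 16697056))) (l 1))) (a (b (a (b (a (l 287930428199) (l 16738256)) (a (l 16729640) (l 16695256))) (a (l 16683344) (l 16611984))) (a (b (l 16596608) (l 16603184)) (b (l 16585624) (l 16520592)))) (b (a (b (l 16625408) (l 16581136)) (b (l 1) (l 16546056))) (a (l 16341520) (b (l 16444640) (l 16324424)))))) (b (a (b (a (b (l 16541464) (l 16475984)) (l 16324304)) (a (b (l 16408400) (l 16340376)) (l 16214400))) (b (a (b (l 16348152)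 (l 16259688)) (l 16163320)) (a (l 16127384) (l 15991952)))) (b (a (a (b (l 16273424) (l 16210032)) (l 16114640)) (a (l 15989736) (l 6))) (a (a (b (l 16151216) (l 16098624)) (l 16003192)) (l 6))))) (b (a (b (l 1) (a (b (l 1) (l 401074645959)) (l 1))) (l 1)) (a (b (a (l 6) (l 6)) (l 6)) (l 6)))), by decide +kernel⟩

theorem c_pm_101_s : CertNE 536870912 536870912 0 536870912 1045395039 1503240 3 eng mog cd0q1 cd6q0 pd1 true true false .npn 1 0 1
    ndB0q1 ndB6q0 pcB1 cut_pm_101_s Ext.none :=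
  certNE1 (fam := true) (s1 := true) (s2 := false) (a := 1) (b := 0) (c := 1) (cn := .npn) (n1 := ndB0q1) (n2 := ndB6q0) (pc := pcB1) (cut := cut_pm_101_s) (xt := Ext.none) (P1 := 536870912) (W1 := 536870912) (P2 := 0) (W2 := 536870912) (P3 := 1045395039) (W3 := 1503240) (N0 := 3) (En := eng) (mo := mog) (C1 := cd0q1) (C2 := cd6q0) (C3 := pd1)
    rfl (fun _ => rfl) k0_pm_101_s

noncomputable def cut_pm_102_s : Cut := Cut.of [[⟨4, 0, 0, 1449551462⟩]]

noncomputable def f_pm_102_s : ℕ → ℕ → ℕ → ℕ → Bool := onCell 536870912 536870912 1073741824 536870912 1045395039 1503240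
    (rowNE 3 eng mog cd0q1 cd6q0 pd2 1 true true false .npp 1 0 2 (qsf 536870912 536870912 0 536870912 2) ndB0q1 ndB6q0 pcB2 cut_pm_102_s Ext.none)

def k0_pm_102_s : ∃ t, chk3 f_pm_102_s t 1 1 1 = true :=
  ⟨(a (b (b (a (b (a (b (l 16066800) (l 6)) (l 6)) (l 6)) (l 6)) (l 6)) (l 6)) (l 6)), by decide +kernel⟩

theorem c_pm_102_s : CertNE 536870912 536870912 0 536870912 1045395039 1503240 3 eng mog cd0q1 cd6q0 pd2 true true false .npp 1 0 2
    ndB0q1 ndB6q0 pcB2 cut_pm_102_s Ext.none :=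
  certNE1 (fam := true) (s1 := true) (s2 := false) (a := 1) (b := 0) (c := 2) (cn := .npp) (n1 := ndB0q1) (n2 := ndB6q0) (pc := pcB2) (cut := cut_pm_102_s) (xt := Ext.none) (P1 := 536870912) (W1 := 536870912) (P2 := 0) (W2 := 536870912) (P3 := 1045395039) (W3 := 1503240) (N0 := 3) (En := eng) (mo := mog) (C1 := cd0q1) (C2 := cd6q0) (C3 := pd2)
    rfl (fun _ => rfl) k0_pm_102_s

noncomputable def cut_pm_112_s : Cut := Cut.of [[⟨4, 0, 0, 1449551462⟩]]

noncomputable def f_pm_112_s : ℕ → ℕ → ℕ → ℕ → Bool := onCell 536870912 536870912 536870912 536870912 1045395039 1503240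
    (rowNE 3 eng mog cd0q1 cd6q1 pd2 0 true true false .dn 1 1 2 (qsf 536870912 536870912 536870912 536870912 2) ndB0q1 ndB6q1 pcB2 cut_pm_112_s Ext.none)

def k0_pm_112_s : ∃ t, chk3 f_pm_112_s t 1 1 1 = true :=
  ⟨(a (b (a (b (a (b (l 15973984) (l 6)) (l 6)) (l 6)) (l 6)) (l 6)) (l 6)), by decide +kernel⟩

theorem c_pm_112_s : CertNE 536870912 536870912 536870912 536870912 1045395039 1503240 3 eng mog cd0q1 cd6q1 pd2 true true false .dn 1 1 2
    ndB0q1 ndB6q1 pcB2 cut_pm_112_s Ext.none :=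
  certNE0 (fam := true) (s1 := true) (s2 := false) (a := 1) (b := 1) (c := 2) (cn := .dn) (n1 := ndB0q1) (n2 := ndB6q1) (pc := pcB2) (cut := cut_pm_112_s) (xt := Ext.none) (P1 := 536870912) (W1 := 536870912) (P2 := 536870912) (W2 := 536870912) (P3 := 1045395039) (W3 := 1503240) (N0 := 3) (En := eng) (mo := mog) (C1 := cd0q1) (C2 := cd6q1) (C3 := pd2)
    rfl k0_pm_112_s

noncomputable def cut_pm_113_s : Cut := Cut.of [[⟨4, 0, 0, 1449551462⟩]]

noncomputable def f_pm_113_s : ℕ → ℕ → ℕ → ℕ → Bool := onCell 536870912 536870912 1610612736 536870912 1045395039 1503240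
    (rowNE 3 eng mog cd0q1 cd6q1 pd3 1 true true false .nn 1 1 3 (qsf 536870912 536870912 536870912 536870912 3) ndB0q1 ndB6q1 pcB3 cut_pm_113_s Ext.none)

def k0_pm_113_s : ∃ t, chk3 f_pm_113_s t 1 1 1 = true :=
  ⟨(l 6), by decide +kernel⟩

theorem c_pm_113_s : CertNE 536870912 536870912 536870912 536870912 1045395039 1503240 3 eng mog cd0q1 cd6q1 pd3 true true false .nn 1 1 3
    ndB0q1 ndB6q1 pcB3 cut_pm_113_s Ext.none :=
  certNE1 (fam := true) (s1 := true) (s2 := false) (a := 1) (b := 1) (c := 3) (cn := .nn) (n1 := ndB0q1) (n2 := ndB6q1) (pc := pcB3) (cut := cut_pm_113_s) (xt := Ext.none) (P1 := 536870912) (W1 := 536870912) (P2 := 536870912) (W2 := 536870912) (P3 := 1045395039) (W3 := 1503240) (N0 := 3) (En := eng) (mo := mog) (C1 := cd0q1) (C2 := cd6q1) (C3 := pd3)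
    rfl (fun _ => rfl) k0_pm_113_s

noncomputable def cut_pm_123_s : Cut := Cut.of [[⟨4, 0, 0, 1449551462⟩]]

noncomputable def f_pm_123_s : ℕ → ℕ → ℕ → ℕ → Bool := onCell 536870912 536870912 1073741824 536870912 1045395039 1503240
    (rowNE 3 eng mog cd0q1 cd6q2 pd3 0 true true false .npn 1 2 3 (qsf 536870912 536870912 1073741824 536870912 3) ndB0q1 ndB6q2 pcB3 cut_pm_123_s Ext.none)

def k0_pm_123_s : ∃ t, chk3 f_pm_123_s t 1 1 1 = true :=
  ⟨(l 6), by decide +kernel⟩

theorem c_pm_123_s : CertNE 536870912 536870912 1073741824 536870912 1045395039 1503240 3 eng mog cd0q1 cd6q2 pd3 true true false .npn 1 2 3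
    ndB0q1 ndB6q2 pcB3 cut_pm_123_s Ext.none :=
  certNE0 (fam := true) (s1 := true) (s2 := false) (a := 1) (b := 2) (c := 3) (cn := .npn) (n1 := ndB0q1) (n2 := ndB6q2) (pc := pcB3) (cut := cut_pm_123_s) (xt := Ext.none) (P1 := 536870912) (W1 := 536870912) (P2 := 1073741824) (W2 := 536870912) (P3 := 1045395039) (W3 := 1503240) (N0 := 3) (En := eng) (mo := mog) (C1 := cd0q1) (C2 := cd6q2) (C3 := pd3)
    rfl k0_pm_123_s

noncomputable def cut_pm_133_s : Cut := Cut.of [[⟨4, 0, 0, 1449551462⟩]]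

noncomputable def f_pm_133_s : ℕ → ℕ → ℕ → ℕ → Bool := onCell 536870912 536870912 0 1230186008 1045395039 1503240
    (rowNE 3 eng mog cd0q1 cd6q3 pd3 0 true true false .dn 1 3 3 (qsf 536870912 536870912 0 1230186008 3) ndB0q1 ndB6q3 pcB3 cut_pm_133_s Ext.none)

def k0_pm_133_s : ∃ t, chk3 f_pm_133_s t 1 1 1 = true :=
  ⟨(l 6), by decide +kernel⟩

theorem c_pm_133_s : CertNE 536870912 536870912 0 1230186008 1045395039 1503240 3 eng mog cd0q1 cd6q3 pd3 true true false .dn 1 3 3
    ndB0q1 ndB6q3 pcB3 cut_pm_133_s Ext.none :=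
  certNE0 (fam := true) (s1 := true) (s2 := false) (a := 1) (b := 3) (c := 3) (cn := .dn) (n1 := ndB0q1) (n2 := ndB6q3) (pc := pcB3) (cut := cut_pm_133_s) (xt := Ext.none) (P1 := 536870912) (W1 := 536870912) (P2 := 0) (W2 := 1230186008) (P3 := 1045395039) (W3 := 1503240) (N0 := 3) (En := eng) (mo := mog) (C1 := cd0q1) (C2 := cd6q3) (C3 := pd3)
    rfl k0_pm_133_s

noncomputable def cut_pm_202_s : Cut := Cut.of [[⟨4, 0, 0, 1449551462⟩]]

noncomputable def f_pm_202_s : ℕ → ℕ → ℕ → ℕ → Bool := onCell 0 536870912 0 536870912 1045395039 1503240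
    (rowNE 3 eng mog cd0q2 cd6q0 pd2 0 true true false .pp 2 0 2 (qsf 0 536870912 0 536870912 2) ndB0q2 ndB6q0 pcB2 cut_pm_202_s Ext.none)

def k0_pm_202_s : ∃ t, chk3 f_pm_202_s t 1 1 1 = true :=
  ⟨(l 6), by decide +kernel⟩

theorem c_pm_202_s : CertNE 0 536870912 0 536870912 1045395039 1503240 3 eng mog cd0q2 cd6q0 pd2 true true false .pp 2 0 2
    ndB0q2 ndB6q0 pcB2 cut_pm_202_s Ext.none :=
  certNE0 (fam := true) (s1 := true) (s2 := false) (a := 2) (b := 0) (c := 2) (cn := .pp) (n1 := ndB0q2) (n2 := ndB6q0) (pc := pcB2) (cut := cut_pm_202_s) (xt := Ext.none) (P1 := 0) (W1 := 536870912) (P2 := 0) (W2 := 536870912) (P3 := 1045395039) (W3 := 1503240) (N0 := 3) (En := eng) (mo := mog) (C1 := cd0q2) (C2 := cd6q0) (C3 := pd2)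
    rfl k0_pm_202_s

noncomputable def cut_pm_203_s : Cut := Cut.of [[⟨4, 0, 0, 1449551462⟩]]

noncomputable def f_pm_203_s : ℕ → ℕ → ℕ → ℕ → Bool := onCell 0 536870912 0 536870912 1045395039 1503240
    (rowNE 3 eng mog cd0q2 cd6q0 pd3 0 true true false .up 2 0 3 (qsf 0 536870912 0 536870912 3) ndB0q2 ndB6q0 pcB3 cut_pm_203_s Ext.none)

def k0_pm_203_s : ∃ t, chk3 f_pm_203_s t 1 1 1 = true :=
  ⟨(l 6), by decide +kernel⟩

theorem c_pm_203_s : CertNE 0 536870912 0 536870912 1045395039 1503240 3 eng mog cd0q2 cd6q0 pd3 true true false .up 2 0 3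
    ndB0q2 ndB6q0 pcB3 cut_pm_203_s Ext.none :=
  certNE0 (fam := true) (s1 := true) (s2 := false) (a := 2) (b := 0) (c := 3) (cn := .up) (n1 := ndB0q2) (n2 := ndB6q0) (pc := pcB3) (cut := cut_pm_203_s) (xt := Ext.none) (P1 := 0) (W1 := 536870912) (P2 := 0) (W2 := 536870912) (P3 := 1045395039) (W3 := 1503240) (N0 := 3) (En := eng) (mo := mog) (C1 := cd0q2) (C2 := cd6q0) (C3 := pd3)
    rfl k0_pm_203_s

noncomputable def cut_pm_213_s : Cut := Cut.of [[⟨4, 0, 0, 1449551462⟩]]

noncomputable def f_pm_213_s : ℕ → ℕ → ℕ → ℕ → Bool := onCell 0 536870912 536870912 536870912 1045395039 1503240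
    (rowNE 3 eng mog cd0q2 cd6q1 pd3 0 true true false .pnn 2 1 3 (qsf 0 536870912 536870912 536870912 3) ndB0q2 ndB6q1 pcB3 cut_pm_213_s Ext.none)

def k0_pm_213_s : ∃ t, chk3 f_pm_213_s t 1 1 1 = true :=
  ⟨(l 6), by decide +kernel⟩

theorem c_pm_213_s : CertNE 0 536870912 536870912 536870912 1045395039 1503240 3 eng mog cd0q2 cd6q1 pd3 true true false .pnn 2 1 3
    ndB0q2 ndB6q1 pcB3 cut_pm_213_s Ext.none :=
  certNE0 (fam := true) (s1 := true) (s2 := false) (a := 2) (b := 1) (c := 3) (cn := .pnn) (n1 := ndB0q2) (n2 := ndB6q1) (pc := pcB3) (cut := cut_pm_213_s) (xt := Ext.none) (P1 := 0) (W1 := 536870912) (P2 := 536870912) (W2 := 536870912) (P3 := 1045395039) (W3 := 1503240) (N0 := 3) (En := eng) (mo := mog) (C1 := cd0q2) (C2 := cd6q1) (C3 := pd3)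
    rfl k0_pm_213_s

noncomputable def cut_mm_001_s : Cut := Cut.of [[⟨4, 0, 0, 1449551462⟩]]

noncomputable def f_mm_001_s : ℕ → ℕ → ℕ → ℕ → Bool := onCell 0 536870912 0 536870912 1045395039 1503240
    (rowNE 3 eng mog cd0q0 cd6q0 pd1 0 true false false .up 0 0 1 (qsf 0 536870912 0 536870912 1) ndB0q0 ndB6q0 pcB1 cut_mm_001_s Ext.none)

def k0_mm_001_s : ∃ t, chk3 f_mm_001_s t 1 1 1 = true :=
  ⟨(l 4), by decide +kernel⟩

theorem c_mm_001_s : CertNE 0 536870912 0 536870912 1045395039 1503240 3 eng mog cd0q0 cd6q0 pd1 true false false .up 0 0 1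
    ndB0q0 ndB6q0 pcB1 cut_mm_001_s Ext.none :=
  certNE0 (fam := true) (s1 := false) (s2 := false) (a := 0) (b := 0) (c := 1) (cn := .up) (n1 := ndB0q0) (n2 := ndB6q0) (pc := pcB1) (cut := cut_mm_001_s) (xt := Ext.none) (P1 := 0) (W1 := 536870912) (P2 := 0) (W2 := 536870912) (P3 := 1045395039) (W3 := 1503240) (N0 := 3) (En := eng) (mo := mog) (C1 := cd0q0) (C2 := cd6q0) (C3 := pd1)
    rfl k0_mm_001_s

noncomputable def cut_mm_011_s : Cut := Cut.of [[⟨4, 0, 0, 1449551462⟩]]

noncomputable def f_mm_011_s : ℕ → ℕ → ℕ → ℕ → Bool := onCell 0 536870912 536870912 536870912 1045395039 1503240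
    (rowNE 3 eng mog cd0q0 cd6q1 pd1 0 true false false .pnn 0 1 1 (qsf 0 536870912 536870912 536870912 1) ndB0q0 ndB6q1 pcB1 cut_mm_011_s Ext.none)

def k0_mm_011_s : ∃ t, chk3 f_mm_011_s t 1 1 1 = true :=
  ⟨(l 4), by decide +kernel⟩

theorem c_mm_011_s : CertNE 0 536870912 536870912 536870912 1045395039 1503240 3 eng mog cd0q0 cd6q1 pd1 true false false .pnn 0 1 1
    ndB0q0 ndB6q1 pcB1 cut_mm_011_s Ext.none :=
  certNE0 (fam := true) (s1 := false) (s2 := false) (a := 0) (b := 1) (c := 1) (cn := .pnn) (n1 := ndB0q0) (n2 := ndB6q1) (pc := pcB1) (cut := cut_mm_011_s) (xt := Ext.none) (P1 := 0) (W1 := 536870912) (P2 := 536870912) (W2 := 536870912) (P3 := 1045395039) (W3 := 1503240) (N0 := 3) (En := eng) (mo := mog) (C1 := cd0q0) (C2 := cd6q1) (C3 := pd1)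
    rfl k0_mm_011_s

noncomputable def cut_mm_012_s : Cut := Cut.of [[⟨4, 0, 0, 1449551462⟩]]

noncomputable def f_mm_012_s : ℕ → ℕ → ℕ → ℕ → Bool := onCell 0 536870912 536870912 536870912 1045395039 1503240
    (rowNE 3 eng mog cd0q0 cd6q1 pd2 0 true false false .pnp 0 1 2 (qsf 0 536870912 536870912 536870912 2) ndB0q0 ndB6q1 pcB2 cut_mm_012_s Ext.none)

def k0_mm_012_s : ∃ t, chk3 f_mm_012_s t 1 1 1 = true :=
  ⟨(l 4), by decide +kernel⟩

theorem c_mm_012_s : CertNE 0 536870912 536870912 536870912 1045395039 1503240 3 eng mog cd0q0 cd6q1 pd2 true false false .pnp 0 1 2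
    ndB0q0 ndB6q1 pcB2 cut_mm_012_s Ext.none :=
  certNE0 (fam := true) (s1 := false) (s2 := false) (a := 0) (b := 1) (c := 2) (cn := .pnp) (n1 := ndB0q0) (n2 := ndB6q1) (pc := pcB2) (cut := cut_mm_012_s) (xt := Ext.none) (P1 := 0) (W1 := 536870912) (P2 := 536870912) (W2 := 536870912) (P3 := 1045395039) (W3 := 1503240) (N0 := 3) (En := eng) (mo := mog) (C1 := cd0q0) (C2 := cd6q1) (C3 := pd2)
    rfl k0_mm_012_s

noncomputable def cut_mm_022_s : Cut := Cut.of [[⟨4, 0, 0, 1449551462⟩]]

noncomputable def f_mm_022_s : ℕ → ℕ → ℕ → ℕ → Bool := onCell 0 536870912 1073741824 536870912 1045395039 1503240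
    (rowNE 3 eng mog cd0q0 cd6q2 pd2 0 true false false .pp 0 2 2 (qsf 0 536870912 1073741824 536870912 2) ndB0q0 ndB6q2 pcB2 cut_mm_022_s Ext.none)

def k0_mm_022_s : ∃ t, chk3 f_mm_022_s t 1 1 1 = true :=
  ⟨(l 4), by decide +kernel⟩

theorem c_mm_022_s : CertNE 0 536870912 1073741824 536870912 1045395039 1503240 3 eng mog cd0q0 cd6q2 pd2 true false false .pp 0 2 2
    ndB0q0 ndB6q2 pcB2 cut_mm_022_s Ext.none :=
  certNE0 (fam := true) (s1 := false) (s2 := false) (a := 0) (b := 2) (c := 2) (cn := .pp) (n1 := ndB0q0) (n2 := ndB6q2) (pc := pcB2) (cut := cut_mm_022_s) (xt := Ext.none) (P1 := 0) (W1 := 536870912) (P2 := 1073741824) (W2 := 536870912) (P3 := 1045395039) (W3 := 1503240) (N0 := 3) (En := eng) (mo := mog) (C1 := cd0q0) (C2 := cd6q2) (C3 := pd2)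
    rfl k0_mm_022_s

noncomputable def cut_mm_023_s : Cut := Cut.of [[⟨4, 0, 0, 1449551462⟩]]

noncomputable def f_mm_023_s : ℕ → ℕ → ℕ → ℕ → Bool := onCell 0 536870912 1073741824 536870912 1045395039 1503240
    (rowNE 3 eng mog cd0q0 cd6q2 pd3 0 true false false .up 0 2 3 (qsf 0 536870912 1073741824 536870912 3) ndB0q0 ndB6q2 pcB3 cut_mm_023_s Ext.none)

def k0_mm_023_s : ∃ t, chk3 f_mm_023_s t 1 1 1 = true :=
  ⟨(l 4), by decide +kernel⟩

theorem c_mm_023_s : CertNE 0 536870912 1073741824 536870912 1045395039 1503240 3 eng mog cd0q0 cd6q2 pd3 true false false .up 0 2 3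
    ndB0q0 ndB6q2 pcB3 cut_mm_023_s Ext.none :=
  certNE0 (fam := true) (s1 := false) (s2 := false) (a := 0) (b := 2) (c := 3) (cn := .up) (n1 := ndB0q0) (n2 := ndB6q2) (pc := pcB3) (cut := cut_mm_023_s) (xt := Ext.none) (P1 := 0) (W1 := 536870912) (P2 := 1073741824) (W2 := 536870912) (P3 := 1045395039) (W3 := 1503240) (N0 := 3) (En := eng) (mo := mog) (C1 := cd0q0) (C2 := cd6q2) (C3 := pd3)
    rfl k0_mm_023_s

noncomputable def cut_mm_033_s : Cut := Cut.of [[⟨4, 0, 0, 1449551462⟩]]

noncomputable def f_mm_033_s : ℕ → ℕ → ℕ → ℕ → Bool := onCell 0 536870912 0 1230186008 1045395039 1503240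
    (rowNE 3 eng mog cd0q0 cd6q3 pd3 0 true false false .pnn 0 3 3 (qsf 0 536870912 0 1230186008 3) ndB0q0 ndB6q3 pcB3 cut_mm_033_s Ext.none)

def k0_mm_033_s : ∃ t, chk3 f_mm_033_s t 1 1 1 = true :=
  ⟨(l 4), by decide +kernel⟩

theorem c_mm_033_s : CertNE 0 536870912 0 1230186008 1045395039 1503240 3 eng mog cd0q0 cd6q3 pd3 true false false .pnn 0 3 3
    ndB0q0 ndB6q3 pcB3 cut_mm_033_s Ext.none :=
  certNE0 (fam := true) (s1 := false) (s2 := false) (a := 0) (b := 3) (c := 3) (cn := .pnn) (n1 := ndB0q0) (n2 := ndB6q3) (pc := pcB3) (cut := cut_mm_033_s) (xt := Ext.none) (P1 := 0) (W1 := 536870912) (P2 := 0) (W2 := 1230186008) (P3 := 1045395039) (W3 := 1503240) (N0 := 3) (En := eng) (mo := mog) (C1 := cd0q0) (C2 := cd6q3) (C3 := pd3)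
    rfl k0_mm_033_s

noncomputable def cut_mm_101_s : Cut := Cut.of [[⟨4, 0, 0, 1449551462⟩]]

noncomputable def f_mm_101_s : ℕ → ℕ → ℕ → ℕ → Bool := onCell 536870912 536870912 0 536870912 1045395039 1503240
    (rowNE 3 eng mog cd0q1 cd6q0 pd1 0 true false false .npn 1 0 1 (qsf 536870912 536870912 0 536870912 1) ndB0q1 ndB6q0 pcB1 cut_mm_101_s Ext.none)

def k0_mm_101_s : ∃ t, chk3 f_mm_101_s t 1 1 1 = true :=
  ⟨(l 4), by decide +kernel⟩

theorem c_mm_101_s : CertNE 536870912 536870912 0 536870912 1045395039 1503240 3 eng mog cd0q1 cd6q0 pd1 true false false .npn 1 0 1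
    ndB0q1 ndB6q0 pcB1 cut_mm_101_s Ext.none :=
  certNE0 (fam := true) (s1 := false) (s2 := false) (a := 1) (b := 0) (c := 1) (cn := .npn) (n1 := ndB0q1) (n2 := ndB6q0) (pc := pcB1) (cut := cut_mm_101_s) (xt := Ext.none) (P1 := 536870912) (W1 := 536870912) (P2 := 0) (W2 := 536870912) (P3 := 1045395039) (W3 := 1503240) (N0 := 3) (En := eng) (mo := mog) (C1 := cd0q1) (C2 := cd6q0) (C3 := pd1)
    rfl k0_mm_101_s

noncomputable def cut_mm_102_s : Cut := Cut.of [[⟨4, 0, 0, 1449551462⟩]]

noncomputable def f_mm_102_s : ℕ → ℕ → ℕ → ℕ → Bool := onCell 536870912 536870912 0 536870912 1045395039 1503240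
    (rowNE 3 eng mog cd0q1 cd6q0 pd2 0 true false false .npp 1 0 2 (qsf 536870912 536870912 0 536870912 2) ndB0q1 ndB6q0 pcB2 cut_mm_102_s Ext.none)

def k0_mm_102_s : ∃ t, chk3 f_mm_102_s t 1 1 1 = true :=
  ⟨(l 4), by decide +kernel⟩

theorem c_mm_102_s : CertNE 536870912 536870912 0 536870912 1045395039 1503240 3 eng mog cd0q1 cd6q0 pd2 true false false .npp 1 0 2
    ndB0q1 ndB6q0 pcB2 cut_mm_102_s Ext.none :=
  certNE0 (fam := true) (s1 := false) (s2 := false) (a := 1) (b := 0) (c := 2) (cn := .npp) (n1 := ndB0q1) (n2 := ndB6q0) (pc := pcB2) (cut := cut_mm_102_s) (xt := Ext.none) (P1 := 536870912) (W1 := 536870912) (P2 := 0) (W2 := 536870912) (P3 := 1045395039) (W3 := 1503240) (N0 := 3) (En := eng) (mo := mog) (C1 := cd0q1) (C2 := cd6q0) (C3 := pd2)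
    rfl k0_mm_102_s

noncomputable def cut_mm_112_s : Cut := Cut.of [[⟨4, 0, 0, 1449551462⟩]]

noncomputable def f_mm_112_s : ℕ → ℕ → ℕ → ℕ → Bool := onCell 536870912 536870912 536870912 536870912 1045395039 1503240
    (rowNE 3 eng mog cd0q1 cd6q1 pd2 0 true false false .dn 1 1 2 (qsf 536870912 536870912 536870912 536870912 2) ndB0q1 ndB6q1 pcB2 cut_mm_112_s Ext.none)

def k0_mm_112_s : ∃ t, chk3 f_mm_112_s t 1 1 1 = true :=
  ⟨(l 4), by decide +kernel⟩

theorem c_mm_112_s : CertNE 536870912 536870912 536870912 536870912 1045395039 1503240 3 eng mog cd0q1 cd6q1 pd2 true false false .dn 1 1 2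
    ndB0q1 ndB6q1 pcB2 cut_mm_112_s Ext.none :=
  certNE0 (fam := true) (s1 := false) (s2 := false) (a := 1) (b := 1) (c := 2) (cn := .dn) (n1 := ndB0q1) (n2 := ndB6q1) (pc := pcB2) (cut := cut_mm_112_s) (xt := Ext.none) (P1 := 536870912) (W1 := 536870912) (P2 := 536870912) (W2 := 536870912) (P3 := 1045395039) (W3 := 1503240) (N0 := 3) (En := eng) (mo := mog) (C1 := cd0q1) (C2 := cd6q1) (C3 := pd2)
    rfl k0_mm_112_s

noncomputable def cut_mm_113_s : Cut := Cut.of [[⟨4, 0, 0, 1449551462⟩]]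

noncomputable def f_mm_113_s : ℕ → ℕ → ℕ → ℕ → Bool := onCell 536870912 536870912 536870912 536870912 1045395039 1503240
    (rowNE 3 eng mog cd0q1 cd6q1 pd3 0 true false false .nn 1 1 3 (qsf 536870912 536870912 536870912 536870912 3) ndB0q1 ndB6q1 pcB3 cut_mm_113_s Ext.none)

def k0_mm_113_s : ∃ t, chk3 f_mm_113_s t 1 1 1 = true :=
  ⟨(l 4), by decide +kernel⟩

theorem c_mm_113_s : CertNE 536870912 536870912 536870912 536870912 1045395039 1503240 3 eng mog cd0q1 cd6q1 pd3 true false false .nn 1 1 3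
    ndB0q1 ndB6q1 pcB3 cut_mm_113_s Ext.none :=
  certNE0 (fam := true) (s1 := false) (s2 := false) (a := 1) (b := 1) (c := 3) (cn := .nn) (n1 := ndB0q1) (n2 := ndB6q1) (pc := pcB3) (cut := cut_mm_113_s) (xt := Ext.none) (P1 := 536870912) (W1 := 536870912) (P2 := 536870912) (W2 := 536870912) (P3 := 1045395039) (W3 := 1503240) (N0 := 3) (En := eng) (mo := mog) (C1 := cd0q1) (C2 := cd6q1) (C3 := pd3)
    rfl k0_mm_113_s

noncomputable def cut_mm_123_s : Cut := Cut.of [[⟨4, 0, 0, 1449551462⟩]]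

noncomputable def f_mm_123_s : ℕ → ℕ → ℕ → ℕ → Bool := onCell 536870912 536870912 1073741824 536870912 1045395039 1503240
    (rowNE 3 eng mog cd0q1 cd6q2 pd3 0 true false false .npn 1 2 3 (qsf 536870912 536870912 1073741824 536870912 3) ndB0q1 ndB6q2 pcB3 cut_mm_123_s Ext.none)

def k0_mm_123_s : ∃ t, chk3 f_mm_123_s t 1 1 1 = true :=
  ⟨(l 4), by decide +kernel⟩

theorem c_mm_123_s : CertNE 536870912 536870912 1073741824 536870912 1045395039 1503240 3 eng mog cd0q1 cd6q2 pd3 true false false .npn 1 2 3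
    ndB0q1 ndB6q2 pcB3 cut_mm_123_s Ext.none :=
  certNE0 (fam := true) (s1 := false) (s2 := false) (a := 1) (b := 2) (c := 3) (cn := .npn) (n1 := ndB0q1) (n2 := ndB6q2) (pc := pcB3) (cut := cut_mm_123_s) (xt := Ext.none) (P1 := 536870912) (W1 := 536870912) (P2 := 1073741824) (W2 := 536870912) (P3 := 1045395039) (W3 := 1503240) (N0 := 3) (En := eng) (mo := mog) (C1 := cd0q1) (C2 := cd6q2) (C3 := pd3)
    rfl k0_mm_123_s

noncomputable def cut_mm_133_s : Cut := Cut.of [[⟨4, 0, 0, 1449551462⟩]]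

noncomputable def f_mm_133_s : ℕ → ℕ → ℕ → ℕ → Bool := onCell 536870912 536870912 0 1230186008 1045395039 1503240
    (rowNE 3 eng mog cd0q1 cd6q3 pd3 0 true false false .dn 1 3 3 (qsf 536870912 536870912 0 1230186008 3) ndB0q1 ndB6q3 pcB3 cut_mm_133_s Ext.none)

def k0_mm_133_s : ∃ t, chk3 f_mm_133_s t 1 1 1 = true :=
  ⟨(l 4), by decide +kernel⟩

theorem c_mm_133_s : CertNE 536870912 536870912 0 1230186008 1045395039 1503240 3 eng mog cd0q1 cd6q3 pd3 true false false .dn 1 3 3
    ndB0q1 ndB6q3 pcB3 cut_mm_133_s Ext.none :=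
  certNE0 (fam := true) (s1 := false) (s2 := false) (a := 1) (b := 3) (c := 3) (cn := .dn) (n1 := ndB0q1) (n2 := ndB6q3) (pc := pcB3) (cut := cut_mm_133_s) (xt := Ext.none) (P1 := 536870912) (W1 := 536870912) (P2 := 0) (W2 := 1230186008) (P3 := 1045395039) (W3 := 1503240) (N0 := 3) (En := eng) (mo := mog) (C1 := cd0q1) (C2 := cd6q3) (C3 := pd3)
    rfl k0_mm_133_s

noncomputable def cut_mm_202_s : Cut := Cut.of [[⟨4, 0, 0, 1449551462⟩]]

noncomputable def f_mm_202_s : ℕ → ℕ → ℕ → ℕ → Bool := onCell 0 536870912 0 536870912 1045395039 1503240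
    (rowNE 3 eng mog cd0q2 cd6q0 pd2 0 true false false .pp 2 0 2 (qsf 0 536870912 0 536870912 2) ndB0q2 ndB6q0 pcB2 cut_mm_202_s Ext.none)

def k0_mm_202_s : ∃ t, chk3 f_mm_202_s t 1 1 1 = true :=
  ⟨(l 4), by decide +kernel⟩

theorem c_mm_202_s : CertNE 0 536870912 0 536870912 1045395039 1503240 3 eng mog cd0q2 cd6q0 pd2 true false false .pp 2 0 2
    ndB0q2 ndB6q0 pcB2 cut_mm_202_s Ext.none :=
  certNE0 (fam := true) (s1 := false) (s2 := false) (a := 2) (b := 0) (c := 2) (cn := .pp) (n1 := ndB0q2) (n2 := ndB6q0) (pc := pcB2) (cut := cut_mm_202_s) (xt := Ext.none) (P1 := 0) (W1 := 536870912) (P2 := 0) (W2 := 536870912) (P3 := 1045395039) (W3 := 1503240) (N0 := 3) (En := eng) (mo := mog) (C1 := cd0q2) (C2 := cd6q0) (C3 := pd2)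
    rfl k0_mm_202_s

noncomputable def cut_mm_203_s : Cut := Cut.of [[⟨4, 0, 0, 1449551462⟩]]

noncomputable def f_mm_203_s : ℕ → ℕ → ℕ → ℕ → Bool := onCell 0 536870912 0 536870912 1045395039 1503240
    (rowNE 3 eng mog cd0q2 cd6q0 pd3 0 true false false .up 2 0 3 (qsf 0 536870912 0 536870912 3) ndB0q2 ndB6q0 pcB3 cut_mm_203_s Ext.none)

def k0_mm_203_s : ∃ t, chk3 f_mm_203_s t 1 1 1 = true :=
  ⟨(l 4), by decide +kernel⟩

theorem c_mm_203_s : CertNE 0 536870912 0 536870912 1045395039 1503240 3 eng mog cd0q2 cd6q0 pd3 true false false .up 2 0 3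
    ndB0q2 ndB6q0 pcB3 cut_mm_203_s Ext.none :=
  certNE0 (fam := true) (s1 := false) (s2 := false) (a := 2) (b := 0) (c := 3) (cn := .up) (n1 := ndB0q2) (n2 := ndB6q0) (pc := pcB3) (cut := cut_mm_203_s) (xt := Ext.none) (P1 := 0) (W1 := 536870912) (P2 := 0) (W2 := 536870912) (P3 := 1045395039) (W3 := 1503240) (N0 := 3) (En := eng) (mo := mog) (C1 := cd0q2) (C2 := cd6q0) (C3 := pd3)
    rfl k0_mm_203_s

noncomputable def cut_mm_213_s : Cut := Cut.of [[⟨4, 0, 0, 1449551462⟩]]

noncomputable def f_mm_213_s : ℕ → ℕ → ℕ → ℕ → Bool := onCell 0 536870912 536870912 536870912 1045395039 1503240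
    (rowNE 3 eng mog cd0q2 cd6q1 pd3 0 true false false .pnn 2 1 3 (qsf 0 536870912 536870912 536870912 3) ndB0q2 ndB6q1 pcB3 cut_mm_213_s Ext.none)

def k0_mm_213_s : ∃ t, chk3 f_mm_213_s t 1 1 1 = true :=
  ⟨(l 4), by decide +kernel⟩

theorem c_mm_213_s : CertNE 0 536870912 536870912 536870912 1045395039 1503240 3 eng mog cd0q2 cd6q1 pd3 true false false .pnn 2 1 3
    ndB0q2 ndB6q1 pcB3 cut_mm_213_s Ext.none :=
  certNE0 (fam := true) (s1 := false) (s2 := false) (a := 2) (b := 1) (c := 3) (cn := .pnn) (n1 := ndB0q2) (n2 := ndB6q1) (pc := pcB3) (cut := cut_mm_213_s) (xt := Ext.none) (P1 := 0) (W1 := 536870912) (P2 := 536870912) (W2 := 536870912) (P3 := 1045395039) (W3 := 1503240) (N0 := 3) (En := eng) (mo := mog) (C1 := cd0q2) (C2 := cd6q1) (C3 := pd3)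
    rfl k0_mm_213_s

end Pool.Agent.Strip051.G.I9736_9750.Tab.CS.BA06

namespace Pool.Agent.Strip051.G.I9736_9750.Tab.CS.BB00

open Pool.Agent.Strip051.PB Pool.Agent.Strip051.PB.T
open Pool.Agent.Strip051.G.I9736_9750.Tab

noncomputable def cut_pp_001_s : Cut := Cut.of [[⟨4, 0, 0, 1449551462⟩]]

noncomputable def f_pp_001_s : ℕ → ℕ → ℕ → ℕ → Bool := onCell 0 536870912 0 536870912 1045395039 1503240
    (rowNE 3 eng mog cd0q0 cd0q1 pd0 1 false true true .up 0 0 1 (qsf 0 536870912 536870912 536870912 0) ndB0q0 ndB0q1 pcB0 cut_pp_001_s Ext.none)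

def k0_pp_001_s : ∃ t, chk3 f_pp_001_s t 1 1 1 = true :=
  ⟨(l 3), by decide +kernel⟩

theorem c_pp_001_s : CertNE 0 536870912 536870912 536870912 1045395039 1503240 3 eng mog cd0q0 cd0q1 pd0 false true true .up 0 0 1
    ndB0q0 ndB0q1 pcB0 cut_pp_001_s Ext.none :=
  certNE1 (fam := false) (s1 := true) (s2 := true) (a := 0) (b := 0) (c := 1) (cn := .up) (n1 := ndB0q0) (n2 := ndB0q1) (pc := pcB0) (cut := cut_pp_001_s) (xt := Ext.none) (P1 := 0) (W1 := 536870912) (P2 := 536870912) (W2 := 536870912) (P3 := 1045395039) (W3 := 1503240) (N0 := 3) (En := eng) (mo := mog) (C1 := cd0q0) (C2 := cd0q1) (C3 := pd0)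
    rfl (fun _ => rfl) k0_pp_001_s

noncomputable def cut_pp_001_t : Cut := Cut.of [[⟨3, 0, 0, 2845415833⟩]]

noncomputable def f_pp_001_t : ℕ → ℕ → ℕ → ℕ → Bool := onCell 0 536870912 536870912 536870912 1045395039 1503240
    (rowNE 3 eng mog cd0q0 cd0q1 pd0 0 false true true .up 0 0 1 (qsf 0 536870912 536870912 536870912 0) ndB0q0 ndB0q1 pcB0 cut_pp_001_t Ext.none)

def k0_pp_001_t : ∃ t, chk3 f_pp_001_t t 1 1 1 = true :=
  ⟨(l 6), by decide +kernel⟩

theorem c_pp_001_t : CertNE 0 536870912 536870912 536870912 1045395039 1503240 3 eng mog cd0q0 cd0q1 pd0 false true true .up 0 0 1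
    ndB0q0 ndB0q1 pcB0 cut_pp_001_t Ext.none :=
  certNE0 (fam := false) (s1 := true) (s2 := true) (a := 0) (b := 0) (c := 1) (cn := .up) (n1 := ndB0q0) (n2 := ndB0q1) (pc := pcB0) (cut := cut_pp_001_t) (xt := Ext.none) (P1 := 0) (W1 := 536870912) (P2 := 536870912) (W2 := 536870912) (P3 := 1045395039) (W3 := 1503240) (N0 := 3) (En := eng) (mo := mog) (C1 := cd0q0) (C2 := cd0q1) (C3 := pd0)
    rfl k0_pp_001_t

noncomputable def cut_pp_011_s : Cut := Cut.of [[⟨4, 0, 0, 1449551462⟩], [⟨0, 0, 0, 26843545⟩, ⟨1, 1, 0, 26843545⟩, ⟨2, 1, 0, 26843545⟩]]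

noncomputable def f_pp_011_s : ℕ → ℕ → ℕ → ℕ → Bool := onCell 536870912 536870912 536870912 536870912 1045395039 1503240
    (rowNE 3 eng mog cd0q0 cd0q1 pd1 2 false true true .pnn 0 1 1 (qsf 0 536870912 536870912 536870912 1) ndB0q0 ndB0q1 pcB1 cut_pp_011_s Ext.none)

def k0_pp_011_s : ∃ t, chk3 f_pp_011_s t 1 1 1 = true :=
  ⟨(a (l 3) (b (l 3) (a (l 3) (b (l 3) (a (l 3) (b (l 3) (a (l 3) (b (l 3) (b (l 3) (a (l 3) (l 14))))))))))), by decide +kernel⟩

theorem c_pp_011_s : CertNE 0 536870912 536870912 536870912 1045395039 1503240 3 eng mog cd0q0 cd0q1 pd1 false true true .pnn 0 1 1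
    ndB0q0 ndB0q1 pcB1 cut_pp_011_s Ext.none :=
  certNE2 (fam := false) (s1 := true) (s2 := true) (a := 0) (b := 1) (c := 1) (cn := .pnn) (n1 := ndB0q0) (n2 := ndB0q1) (pc := pcB1) (cut := cut_pp_011_s) (xt := Ext.none) (P1 := 0) (W1 := 536870912) (P2 := 536870912) (W2 := 536870912) (P3 := 1045395039) (W3 := 1503240) (N0 := 3) (En := eng) (mo := mog) (C1 := cd0q0) (C2 := cd0q1) (C3 := pd1)
    rfl (fun _ => rfl) k0_pp_011_s

noncomputable def cut_pp_011_t : Cut := Cut.of [[⟨3, 0, 0, 2845415833⟩], [⟨0, 0, 0, 26843545⟩, ⟨1, 1, 0, 26843545⟩, ⟨2, 1, 0, 26843545⟩]]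

noncomputable def f_pp_011_t : ℕ → ℕ → ℕ → ℕ → Bool := onCell 0 536870912 536870912 536870912 1045395039 1503240
    (rowNE 3 eng mog cd0q0 cd0q1 pd1 0 false true true .pnn 0 1 1 (qsf 0 536870912 536870912 536870912 1) ndB0q0 ndB0q1 pcB1 cut_pp_011_t Ext.none)

def k0_pp_011_t : ∃ t, chk3 f_pp_011_t t 1 1 1 = true :=
  ⟨(l 6), by decide +kernel⟩

theorem c_pp_011_t : CertNE 0 536870912 536870912 536870912 1045395039 1503240 3 eng mog cd0q0 cd0q1 pd1 false true true .pnn 0 1 1
    ndB0q0 ndB0q1 pcB1 cut_pp_011_t Ext.none :=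
  certNE0 (fam := false) (s1 := true) (s2 := true) (a := 0) (b := 1) (c := 1) (cn := .pnn) (n1 := ndB0q0) (n2 := ndB0q1) (pc := pcB1) (cut := cut_pp_011_t) (xt := Ext.none) (P1 := 0) (W1 := 536870912) (P2 := 536870912) (W2 := 536870912) (P3 := 1045395039) (W3 := 1503240) (N0 := 3) (En := eng) (mo := mog) (C1 := cd0q0) (C2 := cd0q1) (C3 := pd1)
    rfl k0_pp_011_t

noncomputable def cut_pp_012_s : Cut := Cut.of [[⟨4, 0, 0, 1449551462⟩], [⟨0, 0, 0, 13421772⟩, ⟨1, 1, 0, 13421772⟩, ⟨2, 1, 0, 13421772⟩]]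

noncomputable def f_pp_012_s : ℕ → ℕ → ℕ → ℕ → Bool := onCell 536870912 536870912 0 536870912 1045395039 1503240
    (rowNE 3 eng mog cd0q0 cd0q2 pd1 2 false true true .pnp 0 1 2 (qsf 0 536870912 0 536870912 1) ndB0q0 ndB0q2 pcB1 cut_pp_012_s Ext.none)

def k0_pp_012_s : ∃ t, chk3 f_pp_012_s t 2 1 1 = true :=
  ⟨(b (b (a (l 2) (a (b (a (l 16677568) (l 16655312)) (a (l 131164064599) (b (l 16741072) (l 118816093127)))) (a (b (l 16611368) (l 16694160)) (b (l 16579176) (l 16671808))))) (a (l 3) (a (l 3) (b (a (b (l 120963558535) (l 3)) (b (l 16740456) (l 140827834999))) (l 3))))) (l 3)), by decide +kernel⟩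

def k1_pp_012_s : ∃ t, chk3 f_pp_012_s t 6 1 1 = true :=
  ⟨(b (b (a (b (a (l 16558704) (l 16550856)) (a (l 16639552) (l 16618872))) (b (a (l 16543504) (l 16527440)) (a (l 16606944) (l 16601936)))) (a (b (a (l 16719056) (l 16665200)) (a (b (l 118816032535) (l 3)) (a (l 107541772871) (l 16725544)))) (a (b (l 16664592) (a (l 16729912) (l 16694800))) (b (l 16632256) (a (l 16683408) (l 16674560)))))) (b (a (b (a (l 3) (b (l 198272962295) (l 3))) (l 3)) (b (a (b (a (l 16704232) (l 16760320)) (a (l 3) (l 151028309799))) (b (l 16716464) (a (l 16667240) (l 16756712)))) (a (l 3) (b (a (l 3) (b (l 16733600) (l 218674059143))) (l 3))))) (l 3))), by decide +kernel⟩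

def k2_pp_012_s : ∃ t, chk3 f_pp_012_s t 7 2 1 = true :=
  ⟨(b (a (b (l 6) (a (l 16591128) (l 16561696))) (l 6)) (a (a (b (l 16646832) (b (l 16677160) (l 16696024))) (b (b (l 16627664) (l 16643672)) (a (l 16677200) (l 16652144)))) (a (b (b (l 16590360) (a (l 16614528) (l 16617392))) (a (l 16607248) (b (l 16557272) (l 16613368)))) (b (b (l 6) (l 16562768)) (a (b (b (l 16600616) (l 16564880)) (a (l 16596288) (l 16588496))) (b (l 16607328) (b (l 16560400) (a (l 16581568) (l 16576816))))))))), by decide +kernel⟩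

def k3_pp_012_s : ∃ t, chk3 f_pp_012_s t 7 6 1 = true :=
  ⟨(a (a (b (b (l 16715936) (a (l 16743064) (l 16731920))) (b (a (b (l 16761248) (l 16710480)) (l 16753448)) (a (b (l 237464587271) (l 3)) (b (l 16707688) (a (l 252496949911) (l 84456287527)))))) (b (b (l 16692408) (a (l 16722888) (l 16703144))) (a (b (l 16741832) (b (l 16757184) (l 29158689047))) (b (l 16725200) (b (l 16741768) (l 16732008)))))) (a (b (a (l 16656808) (b (l 16636992) (l 16661688))) (a (b (l 16705952) (b (l 16723856) (l 16735984))) (b (l 16687840) (b (l 16685440) (l 16719088))))) (a (b (a (l 16613088) (b (l 16610224) (l 16636192))) (a (b (l 16672520) (l 16677352)) (b (l 16641248) (l 16666480)))) (b (a (b (l 16599784) (l 16624592)) (b (l 16590160) (l 16613880))) (a (b (l 16649424) (l 16652056)) (b (l 16636968) (l 16659288))))))), by decide +kernel⟩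

def k4_pp_012_s : ∃ t, chk3 f_pp_012_s t 14 7 1 = true :=
  ⟨(b (a (l 3) (b (a (b (a (l 266455634743) (b (l 16772696) (l 88751294391))) (l 3)) (b (a (l 16768408) (l 16760376)) (a (b (l 68350226375) (l 300278500919)) (a (b (l 16770904) (l 107004974247)) (l 16748872))))) (a (l 3) (b (a (l 3) (b (a (l 3) (b (l 16734776) (l 311015967239))) (l 3))) (l 3))))) (l 3)), by decide +kernel⟩

def k5_pp_012_s : ∃ t, chk3 f_pp_012_s t 15 14 1 = true :=
  ⟨(a (b (a (b (a (l 16752112) (l 16744216)) (a (b (l 16761000) (l 16745856)) (b (l 16753128) (l 16758992)))) (b (a (l 16735824) (l 16705760)) (a (l 16726728) (l 16738272)))) (a (b (a (b (a (l 62981601975) (l 16770600)) (a (b (l 247665222663) (l 3)) (b (l 16774880) (a (l 262160737527) (l 43117382471))))) (b (l 16754064) (a (l 16751296) (l 16747136)))) (a (l 3) (b (a (b (b (l 46875490951) (a (l 275582517655) (l 16776456))) (a (l 3) (b (l 264845113447) (l 3)))) (b (l 16751552) (b (l 16753808) (a (a (l 275045661767) (l 16776848)) (l 16775240)))))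 (a (l 3) (b (a (l 340543865303) (b (a (l 149954711799) (l 16776240)) (l 286856820199))) (l 3)))))) (b (a (b (l 16755952) (a (l 16763800) (l 16759312))) (b (l 16725520) (b (l 16729720) (l 16732664)))) (a (b (a (b (l 16768224) (l 16750288)) (l 16754808)) (a (b (b (l 16752584) (a (l 16760480) (l 16774008))) (a (b (a (l 302426067255) (b (l 16776816) (l 282024991287))) (l 3)) (b (l 16775560) (a (b (l 159081528535) (l 343228261847)) (l 16766120))))) (b (l 16748952) (b (l 16751288) (l 16763344))))) (b (a (l 16739672) (l 16734800)) (b (a (l 16744360) (l 16739552)) (a (l 16758024) (l 16742784)))))))) (a (b (a (b (l 16716176) (l 16706640)) (a (l 16692248) (l 16686056))) (a (b (b (l 16714896) (l 16720656)) (b (a (l 16729640) (l 16745072)) (a (l 16746616) (l 16730712)))) (b (a (l 16708968) (l 16702848)) (a (b (l 16739176) (l 16724912)) (b (l 16733160) (l 16719088)))))) (b (a (b (l 16689816) (l 16679976)) (b (l 16675496) (l 16686416))) (a (b (a (l 16695560) (l 16708048)) (b (a (l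 16726048) (l 16717608)) (a (l 16733104) (l 16724816)))) (b (b (l 16694792) (l 16700912)) (b (l 16686840) (a (l 16717928) (l 16713232)))))))), by decide +kernel⟩

def k6_pp_012_s : ∃ t, chk3 f_pp_012_s t 60 30 1 = true :=
  ⟨(l 3), by decide +kernel⟩

def k7_pp_012_s : ∃ t, chk3 f_pp_012_s t 61 60 1 = true :=
  ⟨(a (b (a (b (a (l 3) (b (a (l 3) (l 305647295255)) (l 3))) (l 3)) (b (a (b (a (b (l 16776672) (l 281488123735)) (l 16775952)) (a (l 3) (b (a (l 169818949783) (l 16776872)) (l 314237235687)))) (b (l 16774296) (a (l 39359327703) (l 16775320)))) (a (l 3) (b (a (b (l 296520512215) (l 3)) (b (l 16776512) (a (l 305110439975) (l 16766552)))) (a (l 3) (l 355039408119)))))) (l 3)) (b (a (b (b (l 16760416) (l 16768896)) (a (b (l 16764744) (a (b (a (l 169282093255) (l 16776704)) (a (l 3) (l 301352345735))) (b (l 16775864) (l 16768808)))) (a (l 16763856) (l 16762712)))) (b (l 16756536) (a (l 16766224) (l 16758624)))) (a (b (a (b (a (l 3) (b (a (l 326048400631) (b (l 16776984)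 (l 298131123783))) (l 3))) (l 3)) (b (a (b (l 16776336) (a (b (l 170355843207) (l 332490855079)) (l 16771624))) (l 16765120)) (a (b (a (l 3) (l 321753435623)) (l 3)) (b (a (b (l 16776888) (l 176261419911)) (l 16776520)) (a (l 362018746807) (b (a (l 176798286743) (l 16776984)) (l 324437793847))))))) (l 3)) (b (a (a (b (l 16774464) (l 16772144)) (l 16768888)) (a (l 16762488) (l 16761312))) (a (b (a (b (a (b (l 302426093959) (l 3)) (b (l 16776792) (a (l 184314476151) (l 16777064)))) (a (l 3) (l 342691396423))) (b (l 16776144) (a (b (l 24326950423) (l 315310996247)) (l 16776664)))) (a (l 3) (b (a (l 3) (b (a (l 324437797207) (l 16771888)) (l 351818205751))) (l 3)))) (b (l 16769584) (a (b (a (b (l 16776696) (a (l 179482651751) (l 16776960))) (l 16776328)) (a (b (l 328732766823) (l 3)) (b (l 16776944) (a (l 342154535111) (l 222432325703))))) (l 16770632)))))))), by decide +kernel⟩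

def k8_pp_012_s : ∃ t, chk3 f_pp_012_s t 61 61 1 = true :=
  ⟨(a (l 3) (b (a (l 3) (b (a (l 3) (b (a (l 3) (b (a (b (a (l 307257930951) (l 16777032)) (l 342154532183)) (b (l 16776592) (a (b (l 16777040) (l 182703870455)) (l 16776856)))) (a (l 3) (b (a (l 360408143943) (b (l 16777160) (l 197736250871))) (l 3))))) (l 3))) (l 3))) (l 3))), by decide +kernel⟩

def k9_pp_012_s : ∃ t, chk3 f_pp_012_s t 30 31 1 = true :=
  ⟨(l 3), by decide +kernel⟩

def k10_pp_012_s : ∃ t, chk3 f_pp_012_s t 124 60 1 = true :=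
  ⟨(b (a (b (l 16741104) (l 16760184)) (b (l 16756752) (l 16739224))) (b (a (a (l 16764768) (l 16757048)) (l 16758416)) (a (b (a (l 16762000) (l 16749080)) (a (l 16768880) (l 16761240))) (a (l 16757912) (l 16744864))))), by decide +kernel⟩

def k11_pp_012_s : ∃ t, chk3 f_pp_012_s t 124 122 1 = true :=
  ⟨(a (b (a (b (a (b (l 16765448) (a (b (l 16776832) (a (l 325511539847) (l 16771864))) (l 16776456))) (l 16769936)) (a (b (a (b (l 356650044631) (l 3)) (b (a (l 181630135591) (l 16776920)) (a (l 3) (l 315847867639)))) (l 3)) (b (a (l 16774072) (l 16776112)) (a (b (a (l 342691406951) (b (l 16777056) (l 187535717879))) (l 374903653495)) (b (l 16776720) (a (b (l 16771928) (l 342691409095)) (l 16776992))))))) (b (l 16768160) (b (l 16769408) (l 16772856)))) (a (b (a (l 3) (b (a (l 3) (b (l 343765151143) (l 3))) (l 3))) (l 3)) (b (a (b (a (b (a (b (l 16777000) (l 181630140023)) (l 16776816)) (a (l 359871274103) (b (l 16777128) (l 196125649175)))) (l 16771344)) (a (l 3) (b (a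 (l 321216576423) (l 16777056)) (l 356650056247)))) (b (l 16775712) (a (b (l 16776616) (a (b (l 16777064) (l 189683200279)) (l 16776872))) (l 16776240)))) (a (l 3) (b (a (a (l 3) (a (l 352355090231) (b (l 233169744471) (l 3)))) (b (l 16776848) (a (l 337322704471) (b (l 16777008) (l 183240751783))))) (a (l 3) (b (l 369534945703) (l 3)))))))) (b (a (b (l 16760480) (l 16762184)) (l 16764104)) (a (b (l 16772056) (a (b (l 16770936) (a (b (a (b (l 16777136) (l 331953992359)) (l 16776936)) (a (l 3) (b (l 187535717447) (l 372756178007)))) (b (l 16776496) (a (l 22179470151) (l 16776760))))) (l 16770176))) (b (l 16761448) (l 16771008))))), by decide +kernel⟩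

def k12_pp_012_s : ∃ t, chk3 f_pp_012_s t 124 123 1 = true :=
  ⟨(a (l 3) (b (a (b (a (b (a (l 3) (b (a (l 353965695623) (b (l 16777072) (l 300278608551))) (l 3))) (l 3)) (b (a (b (l 16776728) (a (b (a (l 191293806183) (l 16777112)) (l 353965697911)) (l 16777000))) (l 16776352)) (a (b (a (l 3) (l 340543929911)) (l 3)) (b (a (b (l 16777008) (a (l 196662513671) (l 16777144))) (l 16776816)) (a (l 370608692103) (b (l 16777128) (l 334101476039))))))) (l 3)) (b (a (l 16773920) (l 16769456)) (a (b (a (b (a (b (l 184851360743) (l 377051145383)) (b (l 16776944) (a (l 185925098215) (l 16777080)))) (l 365239990791)) (b (l 16776608) (a (b (l 16777064) (a (l 208473670615) (l 16777184))) (l 16776872)))) (a (l 3) (b (a (l 3) (b (a (l 191293805671) (l 16777104)) (l 356650052647))) (l 3)))) (b (l 16770696) (a (b (l 16774224) (a (b (l 335175220727) (l 3)) (b (l 16777000) (l 180019522407)))) (l 16771216)))))) (a (l 3) (b (a (l 3) (b (a (b (l 378661762007) (l 3)) (b (a (b (l 16777128) (l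 334638347207)) (l 16776928)) (a (l 3) (b (a (l 202031231287) (l 16777168)) (l 379198629367))))) (l 3))) (l 3))))), by decide +kernel⟩

def k13_pp_012_s : ∃ t, chk3 f_pp_012_s t 125 30 1 = true :=
  ⟨(b (b (a (b (l 16751104) (l 16754656)) (a (l 16748544) (l 16745648))) (a (b (l 16737280) (l 16751400)) (a (l 16745472) (l 16742720)))) (a (b (b (a (l 16756320) (l 16764208)) (a (l 16766400) (l 16762568))) (b (b (a (l 16767648) (l 16759944)) (a (a (l 16769920) (l 16763488)) (l 16766904))) (a (b (a (b (b (l 16770952) (a (a (b (l 16776936) (a (b (l 16777168) (l 346986380999)) (l 16777064))) (l 16776744)) (l 16776312))) (a (b (a (l 359334410487) (b (l 16777056) (a (l 384567344855) (l 16777176)))) (l 396378490183)) (b (l 16776712) (a (b (a (l 189683203319) (l 16777096)) (l 356650053063)) (l 16776976))))) (l 16773008)) (a (b (a (l 3) (a (l 3) (b (b (b (l 187535718743) (l 353965699687)) (l 3)) (l 3)))) (l 3)) (b (a (b (a (b (l 16776992) (a (l 218137357303) (l 16777120))) (l 16776800))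 (a (l 375977402119) (b (l 16777112) (l 332490865335)))) (l 16771320)) (a (l 3) (b (a (b (a (l 247665257479) (l 16777152)) (l 379735500903)) (b (l 16776920) (a (b (l 16777152) (l 224579813447)) (l 16777056)))) (a (l 3) (l 359871282087))))))) (b (a (l 16769192) (l 16762744)) (a (b (l 16770432) (b (l 16771048) (a (a (b (l 16777040) (a (l 291151806567) (l 16777168))) (l 16776848)) (l 16776408)))) (l 16769656)))))) (a (b (b (l 16761560) (l 16744264)) (b (l 16763560) (b (l 16760912) (l 16770472)))) (b (b (l 16758912) (l 16752176)) (b (b (l 16754912) (l 16756704)) (a (l 16759920) (l 16758672))))))), by decide +kernel⟩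

def k14_pp_012_s : ∃ t, chk3 f_pp_012_s t 63 30 1 = true :=
  ⟨(a (b (a (b (l 16730096) (a (l 16729160) (l 16725384))) (b (l 16721976) (a (l 16742216) (l 16738440)))) (a (b (a (b (l 16755944) (l 16759752)) (b (l 16752240) (l 16756104))) (a (b (l 16742488) (b (l 16745192) (l 16757448))) (b (l 16759856) (l 16753016)))) (b (a (b (l 16748160) (l 16752072)) (l 16735960)) (a (b (l 16755872) (a (l 16760432) (l 16758568))) (b (l 16741672) (l 16750896)))))) (b (a (b (l 16725760) (l 16723384)) (b (l 16721328) (a (l 16730552) (l 16707864)))) (a (b (b (a (l 16741352) (l 16738624)) (a (l 16745224) (l 16742904))) (a (b (l 16749328) (l 16753712)) (b (l 16747344) (l 16752392)))) (b (b (a (l 16736824) (l 16735792)) (a (l 16741344) (l 16740848))) (b (a (l 16746448) (l 16746600)) (a (l 16731096) (l 16731352))))))), by decide +kernel⟩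

def k15_pp_012_s : ∃ t, chk3 f_pp_012_s t 124 62 1 = true :=
  ⟨(l 3), by decide +kernel⟩

def k16_pp_012_s : ∃ t, chk3 f_pp_012_s t 250 124 1 = true :=
  ⟨(b (a (l 3) (b (a (b (a (b (a (l 393694140999) (b (a (l 157470944263) (l 16777080)) (l 354502570087))) (l 3)) (b (l 16774192) (a (b (a (l 368998085223) (b (l 16777144) (l 186461978743))) (l 3)) (b (l 16776968) (a (l 194515037175) (l 16777104)))))) (a (l 3) (b (a (l 3) (l 376514279223)) (l 3)))) (b (l 16773512) (a (b (a (b (l 16777088) (a (l 384567341079) (b (l 16777168) (l 251423359047)))) (l 16776896)) (a (l 3) (b (a (l 217063615511) (l 16777128)) (l 377051147255)))) (b (l 16776448) (b (l 16776760) (a (a (b (l 16777128) (l 198810009639)) (l 16777032)) (l 16776816))))))) (a (l 3) (b (a (l 3) (b (a (b (a (l 400673467911) (b (l 16777184) (l 309942288423))) (l 3)) (b (l 16777016) (a (l 272361319367) (l 16777152)))) (l 397989115991))) (l 3))))) (l 3)), by decide +kernel⟩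

def k17_pp_012_s : ∃ t, chk3 f_pp_012_s t 251 248 1 = true :=
  ⟨(a (b (a (l 16772744) (l 16768920)) (a (b (a (b (l 16776680) (a (b (a (b (l 16777152) (l 209010557047)) (l 16777056)) (l 349133864503)) (l 16776936))) (l 16771048)) (a (b (a (l 3) (b (a (l 359871280615) (b (l 16777120) (l 147807267815))) (l 400673466503))) (l 3)) (b (a (b (l 16776944) (a (b (l 16777176) (l 271824453703)) (l 16777080))) (l 16776752)) (a (b (l 359871282279) (l 3)) (b (l 16777064) (a (l 375440536599) (b (l 16777136) (l 189683198951)))))))) (b (l 16770160) (l 16773600)))) (a (b (l 16762472) (l 16769384)) (b (l 16761256) (l 16768184)))), by decide +kernel⟩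

def k18_pp_012_s : ∃ t, chk3 f_pp_012_s t 251 249 1 = true :=
  ⟨(a (b (a (b (a (l 3) (l 417316468663)) (l 3)) (b (a (b (a (b (a (b (l 16777192) (l 307257933911)) (l 16777096)) (l 371145571047)) (b (l 16776880) (a (b (l 16777104) (l 16777192)) (l 16777008)))) (a (l 3) (b (a (l 391009792663) (b (l 16777160) (l 230485393511))) (l 3)))) (b (l 16776536) (a (a (b (l 16777064) (a (l 307257933911) (l 305110449591))) (l 16777016)) (l 16776800)))) (a (l 3) (b (a (l 392620407431) (b (a (b (l 16777120) (l 167134620631)) (l 16777024)) (a (l 407115919719) (b (l 16777184) (l 369534959303))))) (l 3))))) (l 3)) (b (a (b (l 16773232) (a (b (l 16774136) (a (b (a (l 352891960935) (l 16777144)) (l 394767888023)) (b (l 16776920) (a (b (l 16777144) (l 199883746279)) (l 16777048))))) (l 16771136))) (a (l 16770136) (l 16769536))) (a (b (a (b (a (l 3) (b (a (l 3) (b (a (l 16777024) (l 16777160)) (l 351818219527))) (l 3))) (l 3)) (b (a (b (l 16777032) (a (l 360408152247) (b (l 16777104) (a (l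 244444037159) (l 16777176))))) (l 16776832)) (a (l 411410884103) (b (a (b (l 16777168) (l 231559130103)) (l 16777064)) (a (l 3) (b (l 147270399527) (l 401747212295))))))) (l 3)) (b (a (b (l 16776392) (a (l 16776296) (l 16776656))) (l 16770768)) (a (b (a (b (a (l 375440537559) (b (l 16777128) (l 178945783303))) (l 418927078983)) (b (l 16776952) (a (b (l 16777184) (l 276119421031)) (l 16777088)))) (a (l 3) (b (a (l 3) (l 350207606167)) (l 3)))) (b (l 16773992) (a (b (a (b (l 16777088) (a (l 311016029879) (l 16777152))) (l 16776992)) (a (l 391546664807) (a (l 309942287815) (l 16777160)))) (l 16776872)))))))), by decide +kernel⟩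

def k19_pp_012_s : ∃ t, chk3 f_pp_012_s t 125 125 1 = true :=
  ⟨(a (l 3) (b (a (l 3) (b (a (l 3) (b (a (l 3) (b (a (l 3) (b (a (b (a (l 215453007927) (l 16777160)) (l 325511544919)) (l 16777104)) (a (l 3) (l 371145570951)))) (l 3))) (l 3))) (l 3))) (l 3))), by decide +kernel⟩

def k20_pp_012_s : ∃ t, chk3 f_pp_012_s t 62 63 1 = true :=
  ⟨(l 3), by decide +kernel⟩

def k21_pp_012_s : ∃ t, chk3 f_pp_012_s t 126 124 1 = true :=
  ⟨(a (a (a (b (l 16768664) (b (l 16768560) (b (b (l 16769584) (l 16770000)) (a (l 16773576) (l 16770296))))) (b (l 16764488) (b (l 16767024) (a (l 16769184) (l 16768424))))) (b (a (b (l 16767104) (l 16768824)) (l 16755584)) (b (a (l 16760144) (l 16768912)) (a (l 16767296) (l 16760536))))) (a (b (b (l 16751864) (l 16753856)) (a (b (l 16767264) (l 16769536)) (l 16761768))) (b (b (l 16759312) (l 16761664)) (b (l 16753648) (l 16761456))))), by decide +kernel⟩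

def k22_pp_012_s : ∃ t, chk3 f_pp_012_s t 252 250 1 = true :=
  ⟨(a (b (a (b (a (b (b (l 16776720) (a (a (b (l 16777104) (a (l 232632877127) (l 16777176))) (l 16777008)) (l 16776784))) (a (b (a (l 414095243111) (b (l 16777168) (l 263771384759))) (l 3)) (b (l 16776992) (a (b (l 159081559575) (l 415168985703)) (l 16777120))))) (l 16775104)) (a (b (a (l 3) (l 414095244119)) (l 3)) (b (a (b (a (b (l 16777128) (l 169282106919)) (l 16777024)) (a (l 431275112439) (b (l 16777184) (l 305647321127)))) (l 16774288)) (a (l 3) (b (a (b (l 206326197175) (l 437717564087)) (b (l 16777088) (l 16777184))) (l 415705855895)))))) (b (a (l 16770536) (l 16769872)) (a (b (l 16776448) (a (b (l 16776912) (a (b (l 16777144) (l 196662523447)) (l 16777040))) (l 16776720))) (l 16773416)))) (a (l 3) (b (a (b (a (b (a (l 3) (b (a (l 327122157095) (l 16777160)) (l 320679706711))) (l 3)) (b (l 16777024) (a (l 374366797127) (b (l 16777104) (a (l 222432329799) (l 16777168)))))) (l 439328174567)) (b (l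 16774056) (a (b (a (b (l 16777160) (l 242833419223)) (l 16777064)) (a (l 3) (b (a (l 255181455415) (l 16777176)) (l 375440539687)))) (l 16776288)))) (a (l 3) (b (a (l 3) (b (a (l 390472924711) (b (l 16777120) (l 165524007895))) (l 442549402775))) (l 3)))))) (b (a (b (l 16768848) (l 16772448)) (b (l 16762200) (l 16763248))) (a (b (a (l 16773656) (l 16770416)) (a (b (a (b (l 16776952) (a (b (l 16777176) (l 373829926599)) (l 16777080))) (l 16776752)) (a (b (a (l 3) (b (l 174650816039) (l 442012532567))) (l 3)) (b (l 16777064) (a (l 374366797783) (b (l 16777136) (l 190220072487)))))) (l 16773888))) (b (l 16769456) (a (l 16770656) (l 16770040)))))), by decide +kernel⟩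

def k23_pp_012_s : ∃ t, chk3 f_pp_012_s t 252 251 1 = true :=
  ⟨(a (l 3) (b (a (b (a (b (l 433959469191) (l 3)) (b (a (b (a (b (l 16777184) (l 300815482983)) (l 16777096)) (a (l 3) (b (l 198810007095) (l 3)))) (b (l 16776872) (a (b (l 16777096) (a (l 16777208) (l 16777160))) (l 16777000)))) (a (l 3) (b (a (l 373829926951) (b (l 16777152) (l 213842392631))) (l 3))))) (l 3)) (b (a (b (l 16771288) (b (l 16774216) (a (a (b (a (l 212768653399) (l 16777168)) (l 331953995879)) (l 16777112)) (l 16776888)))) (l 16773520)) (a (b (a (b (a (l 3) (l 319605962199)) (l 3)) (b (a (b (l 16777112) (a (l 233706618967) (l 16777176))) (l 16777016)) (a (l 396915376167) (b (l 16777168) (l 243370290167))))) (l 3)) (b (l 16774128) (a (b (a (b (l 161229040599) (l 375977410631)) (l 16777128)) (l 370071827943)) (b (l 16776904) (a (b (l 16777128) (l 168745236007)) (l 16777032)))))))) (a (l 3) (b (a (l 3) (b (a (l 3) (b (a (l 419463954471) (b (l 16777176) (l 285246226519))) (l 3))) (l 3))) (l 3))))),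 by decide +kernel⟩

def k24_pp_012_s : ∃ t, chk3 f_pp_012_s t 253 125 1 = true :=
  ⟨(b (b (a (a (l 16769208) (l 16760144)) (a (l 16759168) (l 16758408))) (a (b (a (l 16768176) (l 16772280)) (a (l 16769120) (l 16762792))) (a (l 16761392) (l 16760600)))) (a (b (a (b (l 16773936) (a (l 16773744) (l 16770560))) (b (l 16768936) (l 16772392))) (a (b (a (b (a (b (l 16777008) (a (b (l 182703879719) (l 420537696295)) (l 16777144))) (l 16776824)) (a (b (l 385104216103) (l 3)) (b (a (b (l 16777144) (l 196125652519)) (l 16777048)) (a (l 442012532775) (b (l 16777184) (l 306721063015)))))) (b (l 16776400) (l 16775480))) (a (l 3) (b (a (b (a (b (l 202568103479) (l 3)) (b (l 16777096) (a (l 16777208) (l 16777160)))) (l 397452247095)) (b (l 16776936) (a (b (l 16777152) (l 215453005367)) (l 16777056)))) (a (l 3) (a (l 3) (a (l 374903666151) (b (l 178945783271) (l 3)))))))) (b (l 16773168) (a (b (l 16771368) (a (b (l 16777040) (a (l 320679704007) (b (l 16777112) (a (l 255718326311) (l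 16777176))))) (l 16776856))) (l 16771008))))) (b (a (l 16771056) (l 16762328)) (a (b (l 16769536) (l 16772848)) (b (l 16763360) (l 16769240)))))), by decide +kernel⟩

def k25_pp_012_s : ∃ t, chk3 f_pp_012_s t 127 62 1 = true :=
  ⟨(b (a (a (b (l 16753456) (b (l 16752256) (l 16754936))) (b (l 16747400) (a (l 16742504) (l 16763240)))) (a (b (l 16736680) (l 16741184)) (b (l 16736912) (l 16758352)))) (a (b (a (b (l 16765336) (l 16764568)) (a (l 16764688) (l 16760512))) (a (b (b (l 16760168) (l 16766104)) (a (l 16767880) (l 16766672))) (b (l 16763024) (a (l 16760160) (l 16758824))))) (b (a (b (l 16741808) (l 16742792)) (a (l 16739744) (l 16737952))) (a (b (l 16754800) (a (l 16746928) (l 16766440))) (b (l 16751576) (a (l 16764912) (l 14))))))), by decide +kernel⟩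

def k26_pp_012_s : ∃ t, chk3 f_pp_012_s t 252 126 1 = true :=
  ⟨(l 3), by decide +kernel⟩

def k27_pp_012_s : ∃ t, chk3 f_pp_012_s t 506 252 1 = true :=
  ⟨(b (a (l 3) (b (a (b (a (l 416779599943) (b (a (b (l 16777168) (l 249812743703)) (l 16777072)) (a (l 3) (b (l 153175979543) (l 368998088775))))) (l 3)) (b (a (l 64592280103) (l 16776672)) (a (b (a (l 334101476823) (b (l 16777128) (a (l 281488130103) (l 16777184)))) (l 420537696311)) (b (l 16776960) (a (b (l 16777176) (l 274508805655)) (l 16777080)))))) (a (l 3) (b (a (l 3) (b (a (l 3) (b (a (l 298667999287) (l 16777192)) (l 415705858071))) (l 3))) (l 3))))) (l 3)), by decide +kernel⟩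

def k28_pp_012_s : ∃ t, chk3 f_pp_012_s t 507 252 1 = true :=
  ⟨(b (a (b (a (l 16773832) (l 16770672)) (a (b (a (b (a (b (l 16777080) (l 16777176)) (l 16776992)) (a (l 351818216919) (b (l 16777136) (a (l 315847868471) (l 16777192))))) (l 16776872)) (a (l 440938790983) (b (a (b (a (l 166597754951) (l 16777152)) (l 298131128407)) (l 16777096)) (a (l 3) (b (a (l 332490866743) (l 16777192)) (l 445770629143)))))) (b (l 16771216) (b (l 16771496) (a (a (b (l 16777096) (a (l 182703882311) (l 16777152))) (l 16777000)) (l 16776792)))))) (b (l 16772528) (a (l 16773488) (l 16770344)))) (a (b (a (l 3) (b (a (b (a (l 368998088727) (b (l 16777152) (a (l 349133865015) (l 16777200)))) (l 3)) (b (l 16776984) (a (b (a (l 198273138759) (l 16777160)) (l 334101479479)) (l 16777104)))) (a (l 3) (b (a (l 3) (b (a (l 365776863287) (l 16777200)) (l 3))) (l 3))))) (l 3)) (b (a (b (l 16774040) (a (b (a (b (l 16777104) (a (l 213305524295) (l 16777168))) (l 16777008)) (a (l 385641086999) (b (l 16777160)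 (a (l 391546667047) (l 160155301367))))) (l 16774272))) (l 16773680)) (a (b (a (l 3) (b (a (b (a (l 228337909831) (l 16777176)) (l 369534959639)) (l 16777112)) (a (l 3) (b (a (l 407115923495) (l 165524010503)) (l 3))))) (l 3)) (b (a (b (l 16776904) (a (b (l 16777112) (a (l 261087035431) (l 16777176))) (l 16777024))) (l 16771472)) (a (b (a (l 401210343447) (b (l 16777168) (a (l 422685179943) (l 179482654215)))) (l 3)) (b (l 16774376) (a (b (a (l 273971937319) (l 16777184)) (l 389936054295)) (b (l 16777072) (a (b (l 16777184) (l 16777208)) (l 16777136))))))))))), by decide +kernel⟩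

def k29_pp_012_s : ∃ t, chk3 f_pp_012_s t 253 253 1 = true :=
  ⟨(a (l 3) (b (a (l 3) (b (a (l 3) (b (a (l 3) (b (a (l 3) (b (a (l 3) (l 191830686503)) (l 3))) (l 3))) (l 3))) (l 3))) (l 3))), by decide +kernel⟩

def k30_pp_012_s : ∃ t, chk3 f_pp_012_s t 126 127 1 = true :=
  ⟨(l 3), by decide +kernel⟩

def k31_pp_012_s : ∃ t, chk3 f_pp_012_s t 254 252 1 = true :=
  ⟨(a (b (a (b (l 16763704) (l 16769592)) (l 16770912)) (a (b (a (l 16773152) (l 16770024)) (a (l 16775184) (l 16773336))) (b (l 16769288) (l 16773888)))) (b (a (l 16767104) (l 16760616)) (a (b (l 16763056) (l 16768992)) (l 16770144)))), by decide +kernel⟩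

def k32_pp_012_s : ∃ t, chk3 f_pp_012_s t 508 253 1 = true :=
  ⟨(b (a (b (a (b (a (b (a (b (l 16777128) (a (l 287930581031) (l 16777184))) (l 16777032)) (a (l 415168987159) (b (a (b (l 16777184) (l 233169748007)) (l 16777136)) (a (l 3) (l 205252459303))))) (l 16775608)) (a (l 3) (b (a (b (a (l 292225548343) (l 16777184)) (l 410337148951)) (b (l 16777080) (a (l 151028497175) (l 16777144)))) (a (l 3) (b (a (l 3) (l 218137361191)) (l 3)))))) (b (l 16773880) (a (a (b (l 16776992) (b (l 16777136) (a (l 305647321143) (l 16777192)))) (l 16774320)) (l 16774112)))) (a (l 3) (b (a (b (a (l 429664501783) (b (a (b (l 16777192) (l 269676970023)) (l 16777144)) (a (l 3) (b (l 16777208) (l 408189665287))))) (l 3)) (b (l 16776360) (a (b (a (l 318532223031) (b (l 16777176) (l 191830687767))) (l 430201372695)) (b (l 16777088) (a (b (l 16777192) (l 286856839207)) (l 16777152)))))) (a (l 3) (b (a (l 3) (b (a (l 3) (l 261623905031)) (l 3))) (l 3)))))) (b (a (l 16775496) (l 16773008)) (a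 (b (l 16775384) (a (b (a (b (l 16777144) (a (l 330880254007) (b (l 16777176) (l 195051913255)))) (l 16777048)) (a (l 448454983703) (b (a (b (l 16777200) (l 316921610263)) (l 16777152)) (a (l 3) (b (l 202568106023) (l 445770629127)))))) (a (b (l 16776904) (l 16777016)) (l 16774240)))) (b (l 16773536) (l 16775208))))) (a (l 3) (b (a (b (a (l 3) (b (a (b (a (l 343228284983) (b (l 16777184) (l 210084298791))) (l 453286821911)) (b (l 16777096) (a (b (l 16777200) (l 332490866711)) (l 16777160)))) (a (l 3) (b (a (l 3) (b (l 217063620647) (l 3))) (l 3))))) (l 3)) (b (a (b (l 16774312) (a (b (a (l 16777184) (l 16777112)) (a (l 363092508711) (l 14))) (l 14))) (l 16774128)) (l 14))) (a (l 3) (l 14))))), by decide +kernel⟩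

def k33_pp_012_s : ∃ t, chk3 f_pp_012_s t 509 253 1 = true :=
  ⟨(b (a (b (l 16772256) (a (l 16774504) (l 14))) (b (l 16768696) (l 14))) (l 14)), by decide +kernel⟩

def k34_pp_012_s : ∃ t, chk3 f_pp_012_s t 255 126 1 = true :=
  ⟨(a (b (b (a (l 16759296) (l 16747432)) (a (l 16766296) (l 14))) (l 14)) (l 14)), by decide +kernel⟩

def k35_pp_012_s : ∃ t, chk3 f_pp_012_s t 127 127 1 = true :=
  ⟨(a (a (l 3) (l 14)) (l 14)), by decide +kernel⟩

theorem s36_pp_012_s : ∃ t, chk3 f_pp_012_s t 254 253 1 = true := ex3_a k32_pp_012_s k33_pp_012_s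

theorem s37_pp_012_s : ∃ t, chk3 f_pp_012_s t 254 126 1 = true := ex3_b k31_pp_012_s s36_pp_012_s

theorem s38_pp_012_s : ∃ t, chk3 f_pp_012_s t 127 126 1 = true := ex3_a s37_pp_012_s k34_pp_012_s

theorem s39_pp_012_s : ∃ t, chk3 f_pp_012_s t 127 63 1 = true := ex3_b s38_pp_012_s k35_pp_012_s

theorem s40_pp_012_s : ∃ t, chk3 f_pp_012_s t 253 252 1 = true := ex3_a k27_pp_012_s k28_pp_012_s

theorem s41_pp_012_s : ∃ t, chk3 f_pp_012_s t 253 126 1 = true := ex3_b s40_pp_012_s k29_pp_012_s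

theorem s42_pp_012_s : ∃ t, chk3 f_pp_012_s t 126 126 1 = true := ex3_a k26_pp_012_s s41_pp_012_s

theorem s43_pp_012_s : ∃ t, chk3 f_pp_012_s t 126 63 1 = true := ex3_b s42_pp_012_s k30_pp_012_s

theorem s44_pp_012_s : ∃ t, chk3 f_pp_012_s t 63 63 1 = true := ex3_a s43_pp_012_s s39_pp_012_s

theorem s45_pp_012_s : ∃ t, chk3 f_pp_012_s t 252 125 1 = true := ex3_b k22_pp_012_s k23_pp_012_s

theorem s46_pp_012_s : ∃ t, chk3 f_pp_012_s t 126 125 1 = true := ex3_a s45_pp_012_s k24_pp_012_s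

theorem s47_pp_012_s : ∃ t, chk3 f_pp_012_s t 126 62 1 = true := ex3_b k21_pp_012_s s46_pp_012_s

theorem s48_pp_012_s : ∃ t, chk3 f_pp_012_s t 63 62 1 = true := ex3_a s47_pp_012_s k25_pp_012_s

theorem s49_pp_012_s : ∃ t, chk3 f_pp_012_s t 63 31 1 = true := ex3_b s48_pp_012_s s44_pp_012_s

theorem s50_pp_012_s : ∃ t, chk3 f_pp_012_s t 251 124 1 = true := ex3_b k17_pp_012_s k18_pp_012_s

theorem s51_pp_012_s : ∃ t, chk3 f_pp_012_s t 125 124 1 = true := ex3_a k16_pp_012_s s50_pp_012_s

theorem s52_pp_012_s : ∃ t, chk3 f_pp_012_s t 125 62 1 = true := ex3_b s51_pp_012_s k19_pp_012_s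

theorem s53_pp_012_s : ∃ t, chk3 f_pp_012_s t 62 62 1 = true := ex3_a k15_pp_012_s s52_pp_012_s

theorem s54_pp_012_s : ∃ t, chk3 f_pp_012_s t 62 31 1 = true := ex3_b s53_pp_012_s k20_pp_012_s

theorem s55_pp_012_s : ∃ t, chk3 f_pp_012_s t 31 31 1 = true := ex3_a s54_pp_012_s s49_pp_012_s

theorem s56_pp_012_s : ∃ t, chk3 f_pp_012_s t 124 61 1 = true := ex3_b k11_pp_012_s k12_pp_012_s

theorem s57_pp_012_s : ∃ t, chk3 f_pp_012_s t 124 30 1 = true := ex3_b k10_pp_012_s s56_pp_012_s

theorem s58_pp_012_s : ∃ t, chk3 f_pp_012_s t 62 30 1 = true := ex3_a s57_pp_012_s k13_pp_012_s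

theorem s59_pp_012_s : ∃ t, chk3 f_pp_012_s t 31 30 1 = true := ex3_a s58_pp_012_s k14_pp_012_s

theorem s60_pp_012_s : ∃ t, chk3 f_pp_012_s t 31 15 1 = true := ex3_b s59_pp_012_s s55_pp_012_s

theorem s61_pp_012_s : ∃ t, chk3 f_pp_012_s t 61 30 1 = true := ex3_b k7_pp_012_s k8_pp_012_s

theorem s62_pp_012_s : ∃ t, chk3 f_pp_012_s t 30 30 1 = true := ex3_a k6_pp_012_s s61_pp_012_s

theorem s63_pp_012_s : ∃ t, chk3 f_pp_012_s t 30 15 1 = true := ex3_b s62_pp_012_s k9_pp_012_s

theorem s64_pp_012_s : ∃ t, chk3 f_pp_012_s t 15 15 1 = true := ex3_a s63_pp_012_s s60_pp_012_s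

theorem s65_pp_012_s : ∃ t, chk3 f_pp_012_s t 15 7 1 = true := ex3_b k5_pp_012_s s64_pp_012_s

theorem s66_pp_012_s : ∃ t, chk3 f_pp_012_s t 7 7 1 = true := ex3_a k4_pp_012_s s65_pp_012_s

theorem s67_pp_012_s : ∃ t, chk3 f_pp_012_s t 7 3 1 = true := ex3_b k3_pp_012_s s66_pp_012_s

theorem s68_pp_012_s : ∃ t, chk3 f_pp_012_s t 7 1 1 = true := ex3_b k2_pp_012_s s67_pp_012_s

theorem s69_pp_012_s : ∃ t, chk3 f_pp_012_s t 3 1 1 = true := ex3_a k1_pp_012_s s68_pp_012_s

theorem s70_pp_012_s : ∃ t, chk3 f_pp_012_s t 1 1 1 = true := ex3_a k0_pp_012_s s69_pp_012_s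

theorem c_pp_012_s : CertNE 0 536870912 0 536870912 1045395039 1503240 3 eng mog cd0q0 cd0q2 pd1 false true true .pnp 0 1 2
    ndB0q0 ndB0q2 pcB1 cut_pp_012_s Ext.none :=
  certNE2 (fam := false) (s1 := true) (s2 := true) (a := 0) (b := 1) (c := 2) (cn := .pnp) (n1 := ndB0q0) (n2 := ndB0q2) (pc := pcB1) (cut := cut_pp_012_s) (xt := Ext.none) (P1 := 0) (W1 := 536870912) (P2 := 0) (W2 := 536870912) (P3 := 1045395039) (W3 := 1503240) (N0 := 3) (En := eng) (mo := mog) (C1 := cd0q0) (C2 := cd0q2) (C3 := pd1)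
    rfl (fun _ => rfl) s70_pp_012_s

noncomputable def cut_pp_012_t : Cut := Cut.of [[⟨3, 0, 0, 2845415833⟩], [⟨0, 0, 0, 13421772⟩, ⟨1, 1, 0, 13421772⟩, ⟨2, 1, 0, 13421772⟩]]

noncomputable def f_pp_012_t : ℕ → ℕ → ℕ → ℕ → Bool := onCell 0 536870912 0 536870912 1045395039 1503240
    (rowNE 3 eng mog cd0q0 cd0q2 pd1 0 false true true .pnp 0 1 2 (qsf 0 536870912 0 536870912 1) ndB0q0 ndB0q2 pcB1 cut_pp_012_t Ext.none)

def k0_pp_012_t : ∃ t, chk3 f_pp_012_t t 1 1 1 = true :=
  ⟨(l 6), by decide +kernel⟩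

theorem c_pp_012_t : CertNE 0 536870912 0 536870912 1045395039 1503240 3 eng mog cd0q0 cd0q2 pd1 false true true .pnp 0 1 2
    ndB0q0 ndB0q2 pcB1 cut_pp_012_t Ext.none :=
  certNE0 (fam := false) (s1 := true) (s2 := true) (a := 0) (b := 1) (c := 2) (cn := .pnp) (n1 := ndB0q0) (n2 := ndB0q2) (pc := pcB1) (cut := cut_pp_012_t) (xt := Ext.none) (P1 := 0) (W1 := 536870912) (P2 := 0) (W2 := 536870912) (P3 := 1045395039) (W3 := 1503240) (N0 := 3) (En := eng) (mo := mog) (C1 := cd0q0) (C2 := cd0q2) (C3 := pd1)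
    rfl k0_pp_012_t

end Pool.Agent.Strip051.G.I9736_9750.Tab.CS.BB00

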