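import Pool.Agent.Strip051.G.I9736_9750.StH
import Pool.Agent.Strip051.G.I9736_9750.StF

/-! # Unit strips 3 (generated) -/

set_option linter.all false
set_option maxRecDepth 100000

namespace Pool.Agent.Strip051.G.I9736_9750.Tab.St.C

open Pool.Agent.Strip051.PB Pool.Agent.Strip051.PB.T Pool.Agent.StripNear Pool.Agent.Strip051.LC
open Pool.Agent.Strip051.G.I9736_9750.Tab Pool.Agent.Strip051.G.I9736_9750.Tab.St

noncomputable def cut_B00pp_012_s1 : Cut := Cut.of [[⟨4, 0, 0, 1449551462⟩], [⟨0, 0, 0, 13421772⟩, ⟨1, 1, 0, 13421772⟩, ⟨2, 1, 0, 13421772⟩]]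

noncomputable def xt_B00pp_012_s1 : Ext := strExt dd false true true .u0 .u2 .u0m .pnp 0 1 2 rfl rfl gf1 vv ndB0q0 ndB0q2

noncomputable def f_B00pp_012_s1 : ℕ → ℕ → ℕ → ℕ → Bool := onCell 536870912 536870912 0 536870912 1045395039 1503240
    (rowF 2 false true true .pnp 0 1 2 (qsf 0 536870912 0 536870912 1) ndB0q0 ndB0q2 pcB1 cut_B00pp_012_s1 xt_B00pp_012_s1)

def k0_B00pp_012_s1 : ∃ t, chk3 f_B00pp_012_s1 t 2 1 1 = true :=
  ⟨(b (a (b (l 2) (l 3)) (b (a (b (a (l 529608719) (a (l 530003471) (l 530284559))) (a (b (l 529407759) (l 3)) (b (l 529941775) (l 529749263)))) (b (a (l 530727951) (l 531353615)) (a (b (l 530535439) (l 530353167)) (b (l 531170575) (l 531000847))))) (a (l 3) (b (a (b (l 530128143) (l 3)) (b (l 530792719) (l 530543631))) (l 3))))) (l 3)), by decide +kernel⟩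

def k1_B00pp_012_s1 : ∃ t, chk3 f_B00pp_012_s1 t 6 1 1 = true :=
  ⟨(b (b (a (b (a (b (a (l 16541536) (l 16537640)) (l 16579856)) (b (l 16533712) (l 16567464))) (a (b (l 16620032) (l 531673103)) (l 532420367))) (b (a (l 16543504) (l 16527440)) (a (b (l 16593704) (l 16623168)) (b (l 16588776) (l 16617688))))) (a (b (a (b (l 531483919) (l 531259151)) (b (l 532181519) (l 531981327))) (a (b (l 530995471) (l 3)) (b (l 531748111) (l 531478799)))) (b (a (l 531970319) (b (l 16642240) (l 16664776))) (a (b (l 532484367) (l 532250127)) (b (l 533178383) (l 532708367)))))) (b (a (b (b (a (l 3) (a (l 3) (l 531379215))) (l 3)) (l 3)) (b (a (b (l 531177231) (b (l 531223567) (l 3))) (b (a (l 532565775) (l 532931343)) (a (b (l 532368399) (a (l 532125455) (l 532326671))) (b (l 532749327) (l 532617487))))) (b (a (l 3) (a (l 3) (l 532402447))) (l 3)))) (l 3))), by decide +kernel⟩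

def k2_B00pp_012_s1 : ∃ t, chk3 f_B00pp_012_s1 t 7 2 1 = true :=
  ⟨(b (a (b (l 6) (a (b (l 16569312) (l 16611408)) (l 16561696))) (l 6)) (a (a (b (b (l 16638488) (l 16659040)) (b (l 16677160) (a (l 16615376) (l 16693328)))) (b (b (a (l 16634928) (l 16621176)) (a (l 16652056) (l 16630056))) (a (l 16677200) (l 16652144)))) (a (b (b (l 16590360) (a (b (l 16620592) (l 16525368)) (l 16617392))) (a (b (l 16617128) (l 16636920)) (b (b (a (l 16596280) (l 16592512)) (l 16598088)) (l 16613368)))) (b (a (l 16575056) (l 6)) (a (b (b (l 16600616) (a (b (l 16584496) (l 16583728)) (l 16585528))) (a (l 16596288) (b (a (l 16582968) (l 16558680)) (l 16591416)))) (b (l 16523440) (b (a (b (l 16580288) (a (l 16576272) (b (l 16576048) (l 16573632)))) (l 16501320)) (a (a (l 16583656) (l 16579144)) (b (a (b (a (l 16572464) (l 16572968)) (l 16573624)) (b (l 16576792) (a (b (l 16572216) (a (l 16571440) (l 16560664))) (l 16573776))))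 (a (l 16577264) (a (l 16574232) (b (b (a (b (l 16560352) (l 16571088)) (b (l 16571752) (a (l 16560176) (l 16570968)))) (a (l 16572048) (l 16560848))) (l 16573736))))))))))))), by decide +kernel⟩

def k3_B00pp_012_s1 : ∃ t, chk3 f_B00pp_012_s1 t 7 6 1 = true :=
  ⟨(a (b (a (b (a (l 533275151) (l 16711984)) (a (b (l 533107471) (l 532986127)) (l 533381391))) (b (a (l 16704032) (l 16681720)) (a (l 16733376) (l 16703144)))) (a (b (a (l 532787727) (l 532338191)) (a (b (l 532577295) (l 3)) (b (l 532950543) (l 532810255)))) (b (a (l 533464079) (a (l 16730176) (l 16720520))) (a (b (l 533287183) (l 533157903)) (a (l 533261583) (l 532830479)))))) (a (b (a (b (l 16659040) (l 16598264)) (b (l 16636992) (l 16661688))) (b (a (l 16705952) (l 16687840)) (a (a (b (l 16728320) (l 16740224)) (l 16725856)) (a (l 16717456) (l 16624456))))) (b (a (b (a (l 16620672) (l 16610224)) (a (l 16646168) (l 16636192))) (a (b (b (l 16593192)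 (l 16605640)) (l 16540704)) (b (b (a (l 16586088) (l 16582040)) (l 16595880)) (l 16571936)))) (a (b (a (l 16672520) (l 16578336)) (a (l 16614440) (l 16603568))) (b (a (l 16565544) (l 16553088)) (a (l 16589136) (l 16659288))))))), by decide +kernel⟩

def k4_B00pp_012_s1 : ∃ t, chk3 f_B00pp_012_s1 t 14 7 1 = true :=
  ⟨(a (l 3) (b (b (a (b (a (l 532940303) (l 533109775)) (l 3)) (b (a (l 533210895) (l 533046031)) (a (b (l 533169935) (l 533101071)) (b (l 533023503) (l 533009167))))) (b (a (l 3) (b (a (l 3) (a (l 3) (b (l 532960015) (a (l 3) (l 532918799))))) (l 3))) (l 3))) (l 3))), by decide +kernel⟩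

def k5_B00pp_012_s1 : ∃ t, chk3 f_B00pp_012_s1 t 30 7 1 = true :=
  ⟨(b (b (a (b (a (b (l 16749088) (l 16755024)) (l 532922383)) (a (b (l 532910607) (a (l 532917775) (l 532944655))) (b (l 16753128) (l 532925455)))) (b (a (l 16735824) (l 16642848)) (a (b (l 16744792) (l 16750464)) (l 16738272)))) (a (a (b (b (b (l 532949263) (l 532886031)) (b (l 532557071) (a (l 3) (b (l 532774415) (l 532749839))))) (l 3)) (b (b (a (l 532864527) (l 532819727)) (a (b (l 532779791) (l 532727311)) (l 532434447))) (b (a (b (l 532682511) (l 532645391)) (b (l 532633615) (a (l 532610831) (l 532582927)))) (b (a (l 3) (a (b (l 532588559) (l 3)) (l 532554511))) (l 3))))) (b (a (b (l 532718607) (a (l 532639759) (l 532563983))) (b (l 532545039) (l 532427791))) (a (b (a (b (l 532570895) (l 532534543)) (l 532476175)) (a (b (l 532506383) (l 532218127)) (b (l 532431631) (a (l 532432143) (l 532391951))))) (b (a (l 532389391) (l 532292111)) (a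 (b (l 532344847) (l 532325391)) (b (l 532247567) (l 532228367)))))))) (b (a (l 3) (b (a (b (b (a (b (a (l 3) (l 532460047)) (l 3)) (a (b (l 532422927) (a (l 3) (l 532409871))) (b (l 532382735) (l 532379407)))) (a (l 3) (a (l 3) (l 532244495)))) (l 3)) (b (a (b (b (l 532316687) (l 532313359)) (a (l 532335631) (l 532290063))) (b (l 532217871) (a (l 532241679) (l 532190735)))) (a (b (a (b (l 532339983) (l 3)) (b (l 532294415) (l 532300303))) (l 3)) (b (a (l 532248847) (l 532197903)) (a (b (l 532260367) (a (l 3) (l 532258575))) (b (l 532209423) (l 532220175))))))) (b (a (l 3) (b (a (l 3) (a (l 3) (b (b (l 532229647) (b (l 532235023) (l 3))) (l 3)))) (l 3))) (l 3)))) (l 3))), by decide +kernel⟩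

def k6_B00pp_012_s1 : ∃ t, chk3 f_B00pp_012_s1 t 62 14 1 = true :=
  ⟨(b (a (b (l 16716176) (l 16643728)) (b (l 16621112) (l 16716424))) (b (a (b (l 16651984) (b (l 16740128) (l 16701192))) (a (l 16688000) (l 16681872))) (a (b (a (l 16729640) (l 16745072)) (a (b (l 16734472) (l 532116751)) (l 531446543))) (b (a (l 16739176) (l 16733160)) (a (b (l 16744176) (l 16747608)) (b (l 16738288) (l 16720856))))))), by decide +kernel⟩

def k7_B00pp_012_s1 : ∃ t, chk3 f_B00pp_012_s1 t 62 60 1 = true :=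
  ⟨(a (b (a (b (l 532104719) (a (l 532135183) (l 532064271))) (b (l 531954703) (a (l 531984911) (l 16748352)))) (a (b (a (l 532139535) (l 532065807)) (a (b (l 532151055) (a (l 532178191) (l 532137487))) (b (l 532068111) (b (l 532071951) (l 532077327))))) (b (a (l 531981071) (l 531901711)) (b (a (l 531986703) (l 531912975)) (a (l 531998479) (l 531928335)))))) (b (a (b (l 16730136) (b (l 16753760) (l 16745064))) (b (b (l 16744528) (l 16735872)) (a (l 16750368) (l 16747504)))) (a (b (a (l 531829263) (l 16751632)) (a (b (l 16757072) (l 531862543)) (b (l 16759624) (l 16756216)))) (b (a (l 16754080) (l 16740800)) (a (b (l 16756880) (l 16758752)) (b (l 16754136) (l 16756048))))))), by decide +kernel⟩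

def k8_B00pp_012_s1 : ∃ t, chk3 f_B00pp_012_s1 t 62 61 1 = true :=
  ⟨(a (b (b (a (b (a (a (b (l 532187919) (b (l 532193039) (l 532197903))) (b (l 532144399) (b (l 532150543) (l 532158735)))) (b (l 532085775) (l 532099087))) (a (l 532198159) (l 532123663))) (a (b (l 532020495) (l 532052495)) (b (l 531952399) (l 531984655)))) (a (a (b (a (l 3) (l 532212495)) (l 3)) (b (l 531888399) (a (l 3) (l 532172303)))) (a (b (l 531951375) (a (l 532136463) (l 532101647))) (b (l 531749135) (a (l 532067855) (l 532034575)))))) (a (l 3) (b (a (b (a (l 532170255) (l 532135439)) (l 3)) (b (a (l 532101391) (l 532068367)) (a (l 532135439) (l 532102159)))) (a (l 3) (b (a (l 3) (l 532136463)) (l 3)))))) (b (a (b (a (b (l 531888143) (l 531920143)) (b (l 531826959) (l 531859215))) (a (b (l 531953167) (l 531717903)) (b (l 531892239) (l 531656975)))) (b (a (b (l 16755384) (l 16757248)) (a (l 16754304) (l 16752952))) (a (b (l 531834639)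 (l 531867663)) (b (l 531779599) (a (l 16764184) (l 16762880)))))) (a (b (a (b (a (l 532035855) (l 532004367)) (a (l 532069903) (l 532038415))) (b (a (l 531973903) (l 531944207)) (a (l 532007695) (l 531977999)))) (a (b (a (l 532104207) (l 532072463)) (a (l 532138767) (l 532107023))) (b (a (l 532041999) (l 532012047)) (a (l 532076303) (l 532046607))))) (b (a (b (a (l 531915279) (l 16762040)) (a (l 531949071) (l 531921167))) (b (a (l 16766000) (l 16764712)) (a (l 16762536) (l 16761264)))) (a (b (a (l 531983119) (l 531955215)) (a (l 532017679) (l 531989519))) (b (a (l 531928079) (l 531901455)) (a (l 531962383) (l 531935759)))))))), by decide +kernel⟩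

def k9_B00pp_012_s1 : ∃ t, chk3 f_B00pp_012_s1 t 62 31 1 = true :=
  ⟨(b (a (l 3) (b (a (b (a (l 3) (b (a (l 532111375) (l 532081423)) (a (l 3) (l 532116495)))) (l 3)) (b (a (b (a (l 532052495) (l 532024335)) (a (l 532087567) (l 532059407))) (b (a (l 531997199) (l 531970319)) (a (l 532032015) (l 531736591)))) (a (b (a (l 532122895) (l 532094735)) (l 3)) (a (b (l 532067599) (b (l 532093967) (l 3))) (b (a (l 532047631) (l 532032527)) (a (l 532083215) (a (l 532073487) (b (l 532049679) (b (l 532054543) (l 531795215)))))))))) (a (l 3) (b (a (l 3) (b (b (a (l 3) (b (a (l 3) (a (l 3) (b (a (l 532092687) (l 532058639)) (l 532131343)))) (l 3))) (l 3)) (l 3))) (l 3))))) (l 3)), by decide +kernel⟩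

def k10_B00pp_012_s1 : ∃ t, chk3 f_B00pp_012_s1 t 63 14 1 = true :=
  ⟨(b (a (b (l 16689816) (l 16617064)) (b (l 16675496) (l 16686416))) (b (a (b (l 16709168) (l 16694168)) (b (l 16694792) (l 16700912))) (a (a (b (l 16726048) (l 16712128)) (b (l 16717608) (l 16703848))) (b (l 16686840) (a (l 16717928) (l 16713232)))))), by decide +kernel⟩

def k11_B00pp_012_s1 : ∃ t, chk3 f_B00pp_012_s1 t 63 30 1 = true :=
  ⟨(b (a (b (a (a (l 16731968) (l 16717600)) (b (l 16730504) (l 16723920))) (a (a (b (l 16748184) (l 16741576)) (b (l 16744384) (l 16748304))) (a (b (l 16740224) (l 16744192)) (b (l 16736424) (l 16740432))))) (b (a (l 16715280) (l 16721328)) (a (b (l 16731816) (l 16725416)) (b (l 16727584) (a (l 16732632) (l 16731096)))))) (a (a (b (a (b (a (l 16756752) (l 16755080)) (a (l 16755304) (l 16748424))) (b (a (l 16753224) (l 16751224)) (a (l 16757072) (l 16755104)))) (a (b (a (a (l 16759360) (l 16758616)) (a (l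 16757808) (l 16751704))) (a (b (l 16761688) (l 531866639)) (b (l 16765344) (l 16761872)))) (b (a (l 16755576) (l 16753624)) (b (a (l 16763552) (l 16761616)) (a (l 16760096) (l 16763416)))))) (b (b (a (l 16737680) (l 16744456)) (a (a (l 16753048) (l 16751080)) (l 16748408))) (b (a (a (l 16756840) (l 16754888)) (a (l 16753096) (l 16746160))) (a (b (a (l 16759608) (l 16757624)) (a (l 16756144) (l 16759504))) (b (a (l 16755896) (l 16754376)) (a (l 16757832) (l 16756456))))))) (b (a (a (b (l 16741352) (a (l 16746064) (l 16744616))) (b (l 16738624) (l 16742904))) (b (a (l 16736824) (l 16735792)) (a (l 16741344) (l 16740848)))) (a (b (a (a (l 16749960) (l 16748752)) (l 16736864)) (a (a (l 16743712) (l 16753288)) (a (l 16752632) (l 16752208)))) (b (a (l 16746448) (l 16725632)) (a (a (l 16752008) (l 16752048)) (l 16731352))))))), by decide +kernel⟩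

def k12_B00pp_012_s1 : ∃ t, chk3 f_B00pp_012_s1 t 126 124 1 = true :=
  ⟨(a (b (a (a (b (a (l 531925519) (l 16764816)) (a (l 531951119) (l 531850767))) (b (a (l 16764032) (l 16768440)) (a (l 531719695) (l 531571471)))) (b (a (a (l 16767560) (l 16766640)) (b (l 16764752) (l 16765624))) (a (b (l 531360527) (l 531308815)) (b (l 16761272) (l 531031055))))) (a (a (b (a (l 531698447) (b (l 531838479) (l 531813903))) (b (a (a (l 531994895) (l 531910415)) (l 531763471)) (a (b (a (l 531973135) (l 531870735)) (l 531910159)) (b (l 531736335) (l 531761679))))) (b (b (l 531323151) (a (l 531628815) (l 531450383))) (b (a (l 531581199) (l 531434511)) (b (l 531528207) (l 531584783))))) (b (a (b (l 530991119) (l 531238159)) (b (l 531020303) (l 531041295))) (b (a (a (l 531314703) (l 16769024)) (a (l 16770872) (l 16770096))) (a (a (l 531401231) (l 531321359)) (l 530828047)))))) (b (a (b (a (a (l 16763704) (l 16762752)) (l 16761432))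 (a (a (l 16765592) (l 16764720)) (a (l 16763920) (l 16763192)))) (b (a (l 16759952) (l 16758744)) (a (l 16762224) (l 16761160)))) (a (b (a (a (b (l 16767128) (l 16768208)) (l 16761632)) (a (l 16766160) (l 16765504))) (a (b (a (l 16769320) (l 16768592)) (a (l 16770472) (l 16769776))) (b (l 16767608) (a (l 16769136) (l 16768552))))) (b (a (l 16759392) (l 16763688)) (a (a (l 16767400) (l 16766920)) (l 16761064)))))), by decide +kernel⟩

def k13_B00pp_012_s1 : ∃ t, chk3 f_B00pp_012_s1 t 126 125 1 = true :=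
  ⟨(a (b (a (b (a (b (l 531977487) (l 531905039)) (b (l 531737359) (l 531932431))) (a (l 3) (b (l 531834895) (l 531981327)))) (b (a (b (l 531555599) (l 531749903)) (b (l 531431439) (l 531625231))) (a (b (l 531920143) (l 531797263)) (b (l 531794703) (l 531671311))))) (a (l 3) (b (a (b (l 531918095) (l 3)) (b (l 531791631) (l 531886863))) (a (l 3) (b (b (l 532210191) (l 3)) (l 3)))))) (b (a (b (a (a (b (l 531376399) (l 531569935)) (b (l 16770960) (l 531574799))) (b (a (l 16770352) (l 16769792)) (a (l 16771496) (l 16770960)))) (a (a (b (l 531739151) (l 531884047)) (b (l 531748879) (l 531901199))) (b (a (l 531816207) (l 16766792)) (a (l 531983631) (l 532101391))))) (b (a (b (l 16763824) (l 16765024)) (b (l 16768288) (l 16759024))) (a (b (a (l 16771576) (l 16771160)) (a (l 16767336) (l 16766912))) (b (l 16770600) (l 16766336))))) (a (b (a (a (b (l 532004623) (l 532103695)) (b (l 532034831) (a (l 532118543) (l 532191503))))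 (b (a (l 532140815) (l 532004879)) (a (l 532016655) (l 532399119)))) (a (b (a (b (l 532158223) (a (l 532175887) (l 532173583))) (b (l 532244495) (l 532233743))) (a (l 3) (l 532163343))) (b (b (a (l 532342031) (l 532426255)) (l 532085007)) (a (l 532242959) (l 532321807))))) (b (a (b (a (l 16768248) (l 16767808)) (a (l 532497935) (l 16768592))) (b (a (l 16767384) (l 16761744)) (a (l 16768152) (l 16767640)))) (a (b (a (l 532490767) (l 532569615)) (a (l 532132111) (l 532478479))) (b (a (l 532647695) (l 16768368)) (a (l 532556047) (l 532633103)))))))), by decide +kernel⟩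

def k14_B00pp_012_s1 : ∃ t, chk3 f_B00pp_012_s1 t 126 63 1 = true :=
  ⟨(b (a (l 3) (b (a (b (a (l 3) (b (a (l 532147983) (l 532227087)) (a (l 3) (l 532131855)))) (l 3)) (b (a (b (a (l 532305679) (l 532383759)) (a (l 532210447) (l 532020239))) (b (a (l 532461327) (l 532538383)) (a (l 532366351) (l 532443407)))) (a (b (a (l 3) (l 531924751)) (l 3)) (b (a (l 532002575) (l 532348175)) (a (l 531638543) (b (l 532276239) (l 532228367))))))) (a (l 3) (b (a (l 3) (b (a (l 3) (b (l 532180495) (l 3))) (l 3))) (l 3))))) (l 3)), by decide +kernel⟩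

def k15_B00pp_012_s1 : ∃ t, chk3 f_B00pp_012_s1 t 127 62 1 = true :=
  ⟨(b (a (b (a (b (l 16752160) (a (l 16760336) (l 16759736))) (a (l 16747568) (l 16736792))) (a (b (a (l 16762968) (l 16762472)) (a (l 16755192) (l 16754704))) (b (a (l 16762128) (l 16761912)) (l 16754176)))) (b (a (a (l 16736696) (l 16736696)) (l 16736912)) (a (l 16751672) (l 16758352)))) (a (b (a (b (a (a (l 16757928) (l 16757648)) (l 16757256)) (a (a (l 16760096) (l 16759672)) (l 16758624))) (b (a (l 16745920) (l 16765288)) (a (l 16757176) (l 16766144)))) (a (b (a (b (l 16760816) (l 16766736)) (l 16765088)) (a (b (l 16767488) (a (l 16768552) (l 16767992))) (b (l 16766264) (l 16767096)))) (b (a (l 16758488) (l 16757056)) (a (b (l 16759728) (l 16760600)) (b (l 16768848) (l 16769768)))))) (b (a (b (l 16752288) (l 16753280)) (a (l 16750232) (l 16748440))) (a (b (a (l 16766056) (l 16764504)) (a (l 16757416) (l 16766440))) (b (a (l 16762888) (l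 16761224)) (a (l 16764912) (l 14))))))), by decide +kernel⟩

def k16_B00pp_012_s1 : ∃ t, chk3 f_B00pp_012_s1 t 127 63 1 = true :=
  ⟨(a (b (b (a (b (a (b (a (l 532614927) (l 16768720)) (a (l 532520207) (l 532596239))) (b (a (l 16768192) (l 16762360)) (a (l 16768888) (l 16768392)))) (a (b (a (l 532223759) (l 531964431)) (a (a (l 532041743) (l 532079887)) (b (l 532429327) (l 532113167)))) (b (a (b (l 16769368) (l 532552719)) (a (l 16769176) (l 16768944))) (a (b (l 532505103) (l 532457231)) (b (l 16769544) (l 532532495)))))) (b (a (a (l 16767408) (l 16766800)) (a (l 16760928) (l 16760288))) (a (b (a (l 16768584) (l 16768008)) (a (a (l 16769344) (l 16769112)) (l 16768768))) (b (l 16767120) (a (l 16768208) (l 16772864)))))) (a (b (a (b (a (a (l 531945999) (l 531984143)) (b (l 532065295) (l 532017423))) (a (l 3) (b (l 531969295) (l 531921167)))) (b (a (b (l 532409615) (l 532361743)) (b (l 532484879) (l 532437007)))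 (a (b (l 532313615) (l 531997199)) (b (l 532389135) (l 532341007))))) (a (l 3) (b (a (b (l 531680783) (l 3)) (b (a (l 532273935) (l 532311567)) (l 14))) (a (l 3) (l 14))))) (b (a (b (a (b (l 532559631) (l 532511759)) (a (l 16769520) (l 16769280))) (a (b (l 532463887) (a (l 532397071) (l 14))) (l 14))) (b (a (l 16768928) (l 14)) (l 14))) (l 14)))) (a (l 3) (l 14))) (b (b (a (b (a (a (l 16759632) (l 16769440)) (l 16757920)) (a (a (l 16766608) (l 14)) (l 14))) (l 14)) (l 14)) (l 14))), by decide +kernel⟩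

theorem t17_B00pp_012_s1 : ∃ t, chk3 f_B00pp_012_s1 t 127 31 1 = true := ex3_b k15_B00pp_012_s1 k16_B00pp_012_s1

theorem t18_B00pp_012_s1 : ∃ t, chk3 f_B00pp_012_s1 t 126 62 1 = true := ex3_b k12_B00pp_012_s1 k13_B00pp_012_s1

theorem t19_B00pp_012_s1 : ∃ t, chk3 f_B00pp_012_s1 t 126 31 1 = true := ex3_b t18_B00pp_012_s1 k14_B00pp_012_s1

theorem t20_B00pp_012_s1 : ∃ t, chk3 f_B00pp_012_s1 t 63 31 1 = true := ex3_a t19_B00pp_012_s1 t17_B00pp_012_s1

theorem t21_B00pp_012_s1 : ∃ t, chk3 f_B00pp_012_s1 t 63 15 1 = true := ex3_b k11_B00pp_012_s1 t20_B00pp_012_s1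

theorem t22_B00pp_012_s1 : ∃ t, chk3 f_B00pp_012_s1 t 63 7 1 = true := ex3_b k10_B00pp_012_s1 t21_B00pp_012_s1

theorem t23_B00pp_012_s1 : ∃ t, chk3 f_B00pp_012_s1 t 62 30 1 = true := ex3_b k7_B00pp_012_s1 k8_B00pp_012_s1

theorem t24_B00pp_012_s1 : ∃ t, chk3 f_B00pp_012_s1 t 62 15 1 = true := ex3_b t23_B00pp_012_s1 k9_B00pp_012_s1

theorem t25_B00pp_012_s1 : ∃ t, chk3 f_B00pp_012_s1 t 62 7 1 = true := ex3_b k6_B00pp_012_s1 t24_B00pp_012_s1

theorem t26_B00pp_012_s1 : ∃ t, chk3 f_B00pp_012_s1 t 31 7 1 = true := ex3_a t25_B00pp_012_s1 t22_B00pp_012_s1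

theorem t27_B00pp_012_s1 : ∃ t, chk3 f_B00pp_012_s1 t 15 7 1 = true := ex3_a k5_B00pp_012_s1 t26_B00pp_012_s1

theorem t28_B00pp_012_s1 : ∃ t, chk3 f_B00pp_012_s1 t 7 7 1 = true := ex3_a k4_B00pp_012_s1 t27_B00pp_012_s1

theorem t29_B00pp_012_s1 : ∃ t, chk3 f_B00pp_012_s1 t 7 3 1 = true := ex3_b k3_B00pp_012_s1 t28_B00pp_012_s1

theorem t30_B00pp_012_s1 : ∃ t, chk3 f_B00pp_012_s1 t 7 1 1 = true := ex3_b k2_B00pp_012_s1 t29_B00pp_012_s1

theorem t31_B00pp_012_s1 : ∃ t, chk3 f_B00pp_012_s1 t 3 1 1 = true := ex3_a k1_B00pp_012_s1 t30_B00pp_012_s1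

theorem t32_B00pp_012_s1 : ∃ t, chk3 f_B00pp_012_s1 t 1 1 1 = true := ex3_a k0_B00pp_012_s1 t31_B00pp_012_s1

theorem c_B00pp_012_s1 : CertF 0 536870912 0 536870912 1045395039 1503240 false true true .pnp 0 1 2
    ndB0q0 ndB0q2 pcB1 cut_B00pp_012_s1 xt_B00pp_012_s1 :=
  certF2 (fam := false) (s1 := true) (s2 := true) (a := 0) (b := 1) (c := 2) (cn := .pnp) (n1 := ndB0q0) (n2 := ndB0q2) (pc := pcB1) (cut := cut_B00pp_012_s1) (xt := xt_B00pp_012_s1) (P1 := 0) (W1 := 536870912) (P2 := 0) (W2 := 536870912) (P3 := 1045395039) (W3 := 1503240)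
    rfl (fun _ => rfl) t32_B00pp_012_s1

theorem s_B00pp_012_s1 {κ x : ℝ} (hκ : κ * h0 = ken x) (hx : ((1045395039 : ℕ) : ℝ) / S ≤ x)
    (hx' : x ≤ (((1045395039 : ℕ) : ℝ) + (1503240 : ℕ)) / S)
    (H : CutB (VFD κ) PP tK tL pcB (Cut.of [[⟨0, 0, 0, 13421772⟩, ⟨1, 1, 0, 13421772⟩, ⟨2, 1, 0, 13421772⟩]]) 0 1 2 0 0 (sgb true) (sgb true) x) :
    AltB (VFD κ) PP tK tL pcB [⟨3, 0, 0, 1449551462⟩] 0 1 2 0 0 (sgb true) (sgb true) x :=
  strip_altBD (m := 1449551462) true rfl hκ (SH.κ0 hκ (SH.hx1 hx).le (SH.hx2 hx').le) (SH.hx1 hx).le (SH.hx2 hx') (covB00).cov (covB02).cov hx hx' c_B00pp_012_s1 H ((okx hx hx').extB (T := tt) (sideB hx hx') hκ rfl rfl (.O 0 true) (.O 2 true) (Or.inr rfl))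

noncomputable def cut_B00pp_012_s3 : Cut := Cut.of [[⟨3, 0, 0, 2845415833⟩], [⟨0, 0, 0, 13421772⟩, ⟨1, 1, 0, 13421772⟩, ⟨2, 1, 0, 13421772⟩]]

noncomputable def f_B00pp_012_s3 : ℕ → ℕ → ℕ → ℕ → Bool := onCell 0 536870912 0 536870912 1045395039 1503240
    (rowF 0 false true true .pnp 0 1 2 (qsf 0 536870912 0 536870912 1) ndB0q0 ndB0q2 pcB1 cut_B00pp_012_s3 Ext.none)

def k0_B00pp_012_s3 : ∃ t, chk3 f_B00pp_012_s3 t 1 1 1 = true :=
  ⟨(l 6), by decide +kernel⟩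

theorem c_B00pp_012_s3 : CertF 0 536870912 0 536870912 1045395039 1503240 false true true .pnp 0 1 2
    ndB0q0 ndB0q2 pcB1 cut_B00pp_012_s3 Ext.none :=
  certF0 (fam := false) (s1 := true) (s2 := true) (a := 0) (b := 1) (c := 2) (cn := .pnp) (n1 := ndB0q0) (n2 := ndB0q2) (pc := pcB1) (cut := cut_B00pp_012_s3) (xt := Ext.none) (P1 := 0) (W1 := 536870912) (P2 := 0) (W2 := 536870912) (P3 := 1045395039) (W3 := 1503240)
    rfl k0_B00pp_012_s3

theorem s_B00pp_012_s3 {κ x : ℝ} (hκ : κ * h0 = ken x) (hx : ((1045395039 : ℕ) : ℝ) / S ≤ x)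
    (hx' : x ≤ (((1045395039 : ℕ) : ℝ) + (1503240 : ℕ)) / S)
    (H : CutB (VFD κ) PP tK tL pcB (Cut.of [[⟨0, 0, 0, 13421772⟩, ⟨1, 1, 0, 13421772⟩, ⟨2, 1, 0, 13421772⟩]]) 0 1 2 0 0 (sgb true) (sgb true) x) :
    AltB (VFD κ) PP tK tL pcB [⟨4, 0, 0, 2845415833⟩] 0 1 2 0 0 (sgb true) (sgb true) x :=
  strip_altBD (m := 2845415833) false rfl hκ (SH.κ0 hκ (SH.hx1 hx).le (SH.hx2 hx').le) (SH.hx1 hx).le (SH.hx2 hx') (covB00).cov (covB02).cov hx hx' c_B00pp_012_s3 H (noExt_B)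

noncomputable def cut_B00pp_022_s1 : Cut := Cut.of [[⟨4, 0, 0, 1449551462⟩], [⟨0, 0, 0, 22369621⟩, ⟨1, 1, 0, 22369621⟩, ⟨2, 1, 0, 22369621⟩]]

noncomputable def f_B00pp_022_s1 : ℕ → ℕ → ℕ → ℕ → Bool := onCell 1073741824 536870912 0 536870912 1045395039 1503240
    (rowF 2 false true true .pp 0 2 2 (qsf 0 536870912 0 536870912 2) ndB0q0 ndB0q2 pcB2 cut_B00pp_022_s1 Ext.none)

def k0_B00pp_022_s1 : ∃ t, chk3 f_B00pp_022_s1 t 4 2 1 = true :=
  ⟨(a (b (l 6) (a (b (l 6) (b (l 6) (a (b (l 16448856) (l 16487008)) (l 16494000)))) (l 6))) (l 6)), by decide +kernel⟩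

def k1_B00pp_022_s1 : ∃ t, chk3 f_B00pp_022_s1 t 8 6 1 = true :=
  ⟨(a (b (a (b (b (l 16505352) (l 16503576)) (b (l 16545408) (l 16535368))) (b (l 16483648) (l 16615344))) (a (b (a (l 16484752) (l 16562888)) (b (b (l 16525160) (l 16538528)) (a (l 16574072) (l 16569568)))) (b (l 16554064) (b (l 16522640) (l 16563944))))) (b (a (l 16437400) (l 16509488)) (a (b (l 16543768) (a (l 16454768) (b (l 16512432) (l 16557800)))) (b (a (l 16533760) (l 16537240)) (b (l 16517920) (l 16477640)))))), by decide +kernel⟩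

def k2_B00pp_022_s1 : ∃ t, chk3 f_B00pp_022_s1 t 8 14 1 = true :=
  ⟨(a (a (b (a (b (b (l 16606224) (l 16627840)) (b (a (l 16649320) (l 16649784)) (a (b (l 16665352) (l 16670880)) (l 16672136)))) (b (l 16615824) (l 16578880))) (b (a (b (a (b (b (l 16684232) (l 16684416)) (a (b (l 16694528) (l 16694736)) (l 16698472))) (l 16652768)) (a (a (a (b (b (l 16705136) (l 16705416)) (b (l 16710984) (b (l 16709960) (l 16712776)))) (b (l 16708608) (l 16698904))) (l 16694448)) (l 16632448))) (a (l 16625392) (l 16618320))) (a (a (a (b (b (a (b (l 16712864) (l 16710048)) (l 16698296)) (b (l 16711024) (l 16708064))) (b (b (l 16710296) (l 16707232)) (a (l 16704112) (l 16700992)))) (b (l 16691208) (l 16699552))) (b (l 16661776) (a (l 16693352) (l 16687392)))) (a (b (l 16650976) (l 16677424)) (b (l 16680312) (l 16663160)))))) (b (b (l 16615232) (a (l 16665760) (l 16585384))) (b (a (a (l 16608384) (l 16596688)) (a (l 16583064)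 (l 16653784))) (a (b (l 16574760) (l 16638880)) (a (l 16626240) (l 16611056)))))) (a (b (b (a (l 16616096) (l 16621880)) (a (l 16591576) (l 16653152))) (b (a (l 16550168) (l 16609360)) (l 16495352))) (b (b (l 16627088) (l 16623424)) (b (l 16581776) (l 16542328))))), by decide +kernel⟩

def k3_B00pp_022_s1 : ∃ t, chk3 f_B00pp_022_s1 t 8 15 1 = true :=
  ⟨(a (b (a (b (a (a (b (a (b (l 16696168) (l 16689640)) (b (l 16689608) (l 16682848))) (b (l 16679376) (l 16671784))) (b (a (l 16679424) (l 16672120)) (l 16637888))) (b (a (l 16659984) (l 16643352)) (a (l 16641168) (l 16623224)))) (a (b (a (b (l 16663904) (l 16655176)) (l 16640672)) (b (a (l 16646856) (l 16627360)) (l 16638440))) (b (l 16613088) (b (l 16600168) (a (l 16608752) (l 16590408)))))) (b (a (b (l 16618728) (l 16598280)) (l 16577944)) (a (b (l 16579992) (b (l 16567496) (a (l 16573296) (l 16557368)))) (b (l 16550952) (b (l 16538968) (l 1)))))) (a (l 14)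 (b (a (b (a (l 14) (l 16563728)) (l 1)) (l 1)) (l 1)))) (b (a (b (a (l 16552104) (l 1)) (l 1)) (l 1)) (l 1))), by decide +kernel⟩

def k4_B00pp_022_s1 : ∃ t, chk3 f_B00pp_022_s1 t 9 3 1 = true :=
  ⟨(b (b (a (b (l 6) (a (l 16558736) (l 16546608))) (l 6)) (a (b (a (l 16453464) (l 16533032)) (b (l 16522864) (l 16469568))) (b (l 16500488) (l 1)))) (b (a (b (a (l 16621680) (l 1)) (l 1)) (l 1)) (l 1))), by decide +kernel⟩

def k5_B00pp_022_s1 : ∃ t, chk3 f_B00pp_022_s1 t 5 1 1 = true :=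
  ⟨(b (l 6) (b (l 1) (l 1))), by decide +kernel⟩

def k6_B00pp_022_s1 : ∃ t, chk3 f_B00pp_022_s1 t 3 1 1 = true :=
  ⟨(l 1), by decide +kernel⟩

theorem t7_B00pp_022_s1 : ∃ t, chk3 f_B00pp_022_s1 t 8 7 1 = true := ex3_b k2_B00pp_022_s1 k3_B00pp_022_s1

theorem t8_B00pp_022_s1 : ∃ t, chk3 f_B00pp_022_s1 t 8 3 1 = true := ex3_b k1_B00pp_022_s1 t7_B00pp_022_s1

theorem t9_B00pp_022_s1 : ∃ t, chk3 f_B00pp_022_s1 t 4 3 1 = true := ex3_a t8_B00pp_022_s1 k4_B00pp_022_s1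

theorem t10_B00pp_022_s1 : ∃ t, chk3 f_B00pp_022_s1 t 4 1 1 = true := ex3_b k0_B00pp_022_s1 t9_B00pp_022_s1

theorem t11_B00pp_022_s1 : ∃ t, chk3 f_B00pp_022_s1 t 2 1 1 = true := ex3_a t10_B00pp_022_s1 k5_B00pp_022_s1

theorem t12_B00pp_022_s1 : ∃ t, chk3 f_B00pp_022_s1 t 1 1 1 = true := ex3_a t11_B00pp_022_s1 k6_B00pp_022_s1

theorem c_B00pp_022_s1 : CertF 0 536870912 0 536870912 1045395039 1503240 false true true .pp 0 2 2
    ndB0q0 ndB0q2 pcB2 cut_B00pp_022_s1 Ext.none :=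
  certF2 (fam := false) (s1 := true) (s2 := true) (a := 0) (b := 2) (c := 2) (cn := .pp) (n1 := ndB0q0) (n2 := ndB0q2) (pc := pcB2) (cut := cut_B00pp_022_s1) (xt := Ext.none) (P1 := 0) (W1 := 536870912) (P2 := 0) (W2 := 536870912) (P3 := 1045395039) (W3 := 1503240)
    rfl (fun _ => rfl) t12_B00pp_022_s1

theorem s_B00pp_022_s1 {κ x : ℝ} (hκ : κ * h0 = ken x) (hx : ((1045395039 : ℕ) : ℝ) / S ≤ x)
    (hx' : x ≤ (((1045395039 : ℕ) : ℝ) + (1503240 : ℕ)) / S)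
    (H : CutB (VFD κ) PP tK tL pcB (Cut.of [[⟨0, 0, 0, 22369621⟩, ⟨1, 1, 0, 22369621⟩, ⟨2, 1, 0, 22369621⟩]]) 0 2 2 0 0 (sgb true) (sgb true) x) :
    AltB (VFD κ) PP tK tL pcB [⟨3, 0, 0, 1449551462⟩] 0 2 2 0 0 (sgb true) (sgb true) x :=
  strip_altBD (m := 1449551462) true rfl hκ (SH.κ0 hκ (SH.hx1 hx).le (SH.hx2 hx').le) (SH.hx1 hx).le (SH.hx2 hx') (covB00).cov (covB02).cov hx hx' c_B00pp_022_s1 H (noExt_B)

noncomputable def cut_B00pp_022_s3 : Cut := Cut.of [[⟨3, 0, 0, 2845415833⟩], [⟨0, 0, 0, 22369621⟩, ⟨1, 1, 0, 22369621⟩, ⟨2, 1, 0, 22369621⟩]]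

noncomputable def f_B00pp_022_s3 : ℕ → ℕ → ℕ → ℕ → Bool := onCell 0 536870912 0 536870912 1045395039 1503240
    (rowF 0 false true true .pp 0 2 2 (qsf 0 536870912 0 536870912 2) ndB0q0 ndB0q2 pcB2 cut_B00pp_022_s3 Ext.none)

def k0_B00pp_022_s3 : ∃ t, chk3 f_B00pp_022_s3 t 1 1 1 = true :=
  ⟨(l 6), by decide +kernel⟩

theorem c_B00pp_022_s3 : CertF 0 536870912 0 536870912 1045395039 1503240 false true true .pp 0 2 2
    ndB0q0 ndB0q2 pcB2 cut_B00pp_022_s3 Ext.none :=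
  certF0 (fam := false) (s1 := true) (s2 := true) (a := 0) (b := 2) (c := 2) (cn := .pp) (n1 := ndB0q0) (n2 := ndB0q2) (pc := pcB2) (cut := cut_B00pp_022_s3) (xt := Ext.none) (P1 := 0) (W1 := 536870912) (P2 := 0) (W2 := 536870912) (P3 := 1045395039) (W3 := 1503240)
    rfl k0_B00pp_022_s3

theorem s_B00pp_022_s3 {κ x : ℝ} (hκ : κ * h0 = ken x) (hx : ((1045395039 : ℕ) : ℝ) / S ≤ x)
    (hx' : x ≤ (((1045395039 : ℕ) : ℝ) + (1503240 : ℕ)) / S)
    (H : CutB (VFD κ) PP tK tL pcB (Cut.of [[⟨0, 0, 0, 22369621⟩, ⟨1, 1, 0, 22369621⟩, ⟨2, 1, 0, 22369621⟩]]) 0 2 2 0 0 (sgb true) (sgb true) x) :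
    AltB (VFD κ) PP tK tL pcB [⟨4, 0, 0, 2845415833⟩] 0 2 2 0 0 (sgb true) (sgb true) x :=
  strip_altBD (m := 2845415833) false rfl hκ (SH.κ0 hκ (SH.hx1 hx).le (SH.hx2 hx').le) (SH.hx1 hx).le (SH.hx2 hx') (covB00).cov (covB02).cov hx hx' c_B00pp_022_s3 H (noExt_B)

noncomputable def cut_B00pp_101_s1 : Cut := Cut.of [[⟨4, 0, 0, 1449551462⟩]]

noncomputable def f_B00pp_101_s1 : ℕ → ℕ → ℕ → ℕ → Bool := onCell 536870912 536870912 536870912 536870912 1045395039 1503240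
    (rowF 0 false true true .npn 1 0 1 (qsf 536870912 536870912 536870912 536870912 0) ndB0q1 ndB0q1 pcB0 cut_B00pp_101_s1 Ext.none)

def k0_B00pp_101_s1 : ∃ t, chk3 f_B00pp_101_s1 t 1 1 1 = true :=
  ⟨(l 3), by decide +kernel⟩

theorem c_B00pp_101_s1 : CertF 536870912 536870912 536870912 536870912 1045395039 1503240 false true true .npn 1 0 1
    ndB0q1 ndB0q1 pcB0 cut_B00pp_101_s1 Ext.none :=
  certF0 (fam := false) (s1 := true) (s2 := true) (a := 1) (b := 0) (c := 1) (cn := .npn) (n1 := ndB0q1) (n2 := ndB0q1) (pc := pcB0) (cut := cut_B00pp_101_s1) (xt := Ext.none) (P1 := 536870912) (W1 := 536870912) (P2 := 536870912) (W2 := 536870912) (P3 := 1045395039) (W3 := 1503240)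
    rfl k0_B00pp_101_s1

theorem s_B00pp_101_s1 {κ x : ℝ} (hκ : κ * h0 = ken x) (hx : ((1045395039 : ℕ) : ℝ) / S ≤ x)
    (hx' : x ≤ (((1045395039 : ℕ) : ℝ) + (1503240 : ℕ)) / S) :
    AltB (VFD κ) PP tK tL pcB [⟨3, 0, 0, 1449551462⟩] 1 0 1 0 0 (sgb true) (sgb true) x :=
  strip_altBD (m := 1449551462) true rfl hκ (SH.κ0 hκ (SH.hx1 hx).le (SH.hx2 hx').le) (SH.hx1 hx).le (SH.hx2 hx') (covB01).cov (covB01).cov hx hx' c_B00pp_101_s1 cutB_nil (noExt_B)

noncomputable def cut_B00pp_101_s3 : Cut := Cut.of [[⟨3, 0, 0, 2845415833⟩]]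

noncomputable def f_B00pp_101_s3 : ℕ → ℕ → ℕ → ℕ → Bool := onCell 536870912 536870912 536870912 536870912 1045395039 1503240
    (rowF 0 false true true .npn 1 0 1 (qsf 536870912 536870912 536870912 536870912 0) ndB0q1 ndB0q1 pcB0 cut_B00pp_101_s3 Ext.none)

def k0_B00pp_101_s3 : ∃ t, chk3 f_B00pp_101_s3 t 1 1 1 = true :=
  ⟨(l 3), by decide +kernel⟩

theorem c_B00pp_101_s3 : CertF 536870912 536870912 536870912 536870912 1045395039 1503240 false true true .npn 1 0 1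
    ndB0q1 ndB0q1 pcB0 cut_B00pp_101_s3 Ext.none :=
  certF0 (fam := false) (s1 := true) (s2 := true) (a := 1) (b := 0) (c := 1) (cn := .npn) (n1 := ndB0q1) (n2 := ndB0q1) (pc := pcB0) (cut := cut_B00pp_101_s3) (xt := Ext.none) (P1 := 536870912) (W1 := 536870912) (P2 := 536870912) (W2 := 536870912) (P3 := 1045395039) (W3 := 1503240)
    rfl k0_B00pp_101_s3

theorem s_B00pp_101_s3 {κ x : ℝ} (hκ : κ * h0 = ken x) (hx : ((1045395039 : ℕ) : ℝ) / S ≤ x)
    (hx' : x ≤ (((1045395039 : ℕ) : ℝ) + (1503240 : ℕ)) / S) :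
    AltB (VFD κ) PP tK tL pcB [⟨4, 0, 0, 2845415833⟩] 1 0 1 0 0 (sgb true) (sgb true) x :=
  strip_altBD (m := 2845415833) false rfl hκ (SH.κ0 hκ (SH.hx1 hx).le (SH.hx2 hx').le) (SH.hx1 hx).le (SH.hx2 hx') (covB01).cov (covB01).cov hx hx' c_B00pp_101_s3 cutB_nil (noExt_B)

noncomputable def cut_B00pp_102_s1 : Cut := Cut.of [[⟨4, 0, 0, 1449551462⟩]]

noncomputable def f_B00pp_102_s1 : ℕ → ℕ → ℕ → ℕ → Bool := onCell 0 536870912 0 536870912 1045395039 1503240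
    (rowF 2 false true true .npp 1 0 2 (qsf 536870912 536870912 0 536870912 0) ndB0q1 ndB0q2 pcB0 cut_B00pp_102_s1 Ext.none)

def k0_B00pp_102_s1 : ∃ t, chk3 f_B00pp_102_s1 t 1 1 1 = true :=
  ⟨(a (b (l 3) (l 3)) (l 3)), by decide +kernel⟩

theorem c_B00pp_102_s1 : CertF 536870912 536870912 0 536870912 1045395039 1503240 false true true .npp 1 0 2
    ndB0q1 ndB0q2 pcB0 cut_B00pp_102_s1 Ext.none :=
  certF2 (fam := false) (s1 := true) (s2 := true) (a := 1) (b := 0) (c := 2) (cn := .npp) (n1 := ndB0q1) (n2 := ndB0q2) (pc := pcB0) (cut := cut_B00pp_102_s1) (xt := Ext.none) (P1 := 536870912) (W1 := 536870912) (P2 := 0) (W2 := 536870912) (P3 := 1045395039) (W3 := 1503240)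
    rfl (fun _ => rfl) k0_B00pp_102_s1

theorem s_B00pp_102_s1 {κ x : ℝ} (hκ : κ * h0 = ken x) (hx : ((1045395039 : ℕ) : ℝ) / S ≤ x)
    (hx' : x ≤ (((1045395039 : ℕ) : ℝ) + (1503240 : ℕ)) / S) :
    AltB (VFD κ) PP tK tL pcB [⟨3, 0, 0, 1449551462⟩] 1 0 2 0 0 (sgb true) (sgb true) x :=
  strip_altBD (m := 1449551462) true rfl hκ (SH.κ0 hκ (SH.hx1 hx).le (SH.hx2 hx').le) (SH.hx1 hx).le (SH.hx2 hx') (covB01).cov (covB02).cov hx hx' c_B00pp_102_s1 cutB_nil (noExt_B)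

noncomputable def cut_B00pp_102_s3 : Cut := Cut.of [[⟨3, 0, 0, 2845415833⟩]]

noncomputable def f_B00pp_102_s3 : ℕ → ℕ → ℕ → ℕ → Bool := onCell 536870912 536870912 0 536870912 1045395039 1503240
    (rowF 0 false true true .npp 1 0 2 (qsf 536870912 536870912 0 536870912 0) ndB0q1 ndB0q2 pcB0 cut_B00pp_102_s3 Ext.none)

def k0_B00pp_102_s3 : ∃ t, chk3 f_B00pp_102_s3 t 1 1 1 = true :=
  ⟨(l 6), by decide +kernel⟩

theorem c_B00pp_102_s3 : CertF 536870912 536870912 0 536870912 1045395039 1503240 false true true .npp 1 0 2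
    ndB0q1 ndB0q2 pcB0 cut_B00pp_102_s3 Ext.none :=
  certF0 (fam := false) (s1 := true) (s2 := true) (a := 1) (b := 0) (c := 2) (cn := .npp) (n1 := ndB0q1) (n2 := ndB0q2) (pc := pcB0) (cut := cut_B00pp_102_s3) (xt := Ext.none) (P1 := 536870912) (W1 := 536870912) (P2 := 0) (W2 := 536870912) (P3 := 1045395039) (W3 := 1503240)
    rfl k0_B00pp_102_s3

theorem s_B00pp_102_s3 {κ x : ℝ} (hκ : κ * h0 = ken x) (hx : ((1045395039 : ℕ) : ℝ) / S ≤ x)
    (hx' : x ≤ (((1045395039 : ℕ) : ℝ) + (1503240 : ℕ)) / S) :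
    AltB (VFD κ) PP tK tL pcB [⟨4, 0, 0, 2845415833⟩] 1 0 2 0 0 (sgb true) (sgb true) x :=
  strip_altBD (m := 2845415833) false rfl hκ (SH.κ0 hκ (SH.hx1 hx).le (SH.hx2 hx').le) (SH.hx1 hx).le (SH.hx2 hx') (covB01).cov (covB02).cov hx hx' c_B00pp_102_s3 cutB_nil (noExt_B)

noncomputable def cut_B00pp_112_s1 : Cut := Cut.of [[⟨4, 0, 0, 1449551462⟩]]

noncomputable def xt_B00pp_112_s1 : Ext := strExt dd false true true .u0 .u2 .u0m .dn 1 1 2 rfl rfl gf1 vv ndB0q1 ndB0q2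

noncomputable def f_B00pp_112_s1 : ℕ → ℕ → ℕ → ℕ → Bool := onCell 536870912 536870912 0 536870912 1045395039 1503240
    (rowF 0 false true true .dn 1 1 2 (qsf 536870912 536870912 0 536870912 1) ndB0q1 ndB0q2 pcB1 cut_B00pp_112_s1 xt_B00pp_112_s1)

def k0_B00pp_112_s1 : ∃ t, chk3 f_B00pp_112_s1 t 1 1 1 = true :=
  ⟨(a (b (a (b (a (b (a (l 529570575) (l 529121295)) (a (b (l 529326351) (l 3)) (l 3))) (b (a (l 528769807) (l 3)) (l 3))) (l 3)) (l 3)) (l 3)) (l 1)), by decide +kernel⟩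

theorem c_B00pp_112_s1 : CertF 536870912 536870912 0 536870912 1045395039 1503240 false true true .dn 1 1 2
    ndB0q1 ndB0q2 pcB1 cut_B00pp_112_s1 xt_B00pp_112_s1 :=
  certF0 (fam := false) (s1 := true) (s2 := true) (a := 1) (b := 1) (c := 2) (cn := .dn) (n1 := ndB0q1) (n2 := ndB0q2) (pc := pcB1) (cut := cut_B00pp_112_s1) (xt := xt_B00pp_112_s1) (P1 := 536870912) (W1 := 536870912) (P2 := 0) (W2 := 536870912) (P3 := 1045395039) (W3 := 1503240)
    rfl k0_B00pp_112_s1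

theorem s_B00pp_112_s1 {κ x : ℝ} (hκ : κ * h0 = ken x) (hx : ((1045395039 : ℕ) : ℝ) / S ≤ x)
    (hx' : x ≤ (((1045395039 : ℕ) : ℝ) + (1503240 : ℕ)) / S) :
    AltB (VFD κ) PP tK tL pcB [⟨3, 0, 0, 1449551462⟩] 1 1 2 0 0 (sgb true) (sgb true) x :=
  strip_altBD (m := 1449551462) true rfl hκ (SH.κ0 hκ (SH.hx1 hx).le (SH.hx2 hx').le) (SH.hx1 hx).le (SH.hx2 hx') (covB01).cov (covB02).cov hx hx' c_B00pp_112_s1 cutB_nil ((okx hx hx').extB (T := tt) (sideB hx hx') hκ rfl rfl (.O 1 true) (.O 2 true) (Or.inr rfl))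

noncomputable def cut_B00pp_112_s3 : Cut := Cut.of [[⟨3, 0, 0, 2845415833⟩]]

noncomputable def f_B00pp_112_s3 : ℕ → ℕ → ℕ → ℕ → Bool := onCell 536870912 536870912 0 536870912 1045395039 1503240
    (rowF 0 false true true .dn 1 1 2 (qsf 536870912 536870912 0 536870912 1) ndB0q1 ndB0q2 pcB1 cut_B00pp_112_s3 Ext.none)

def k0_B00pp_112_s3 : ∃ t, chk3 f_B00pp_112_s3 t 1 1 1 = true :=
  ⟨(l 6), by decide +kernel⟩

theorem c_B00pp_112_s3 : CertF 536870912 536870912 0 536870912 1045395039 1503240 false true true .dn 1 1 2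
    ndB0q1 ndB0q2 pcB1 cut_B00pp_112_s3 Ext.none :=
  certF0 (fam := false) (s1 := true) (s2 := true) (a := 1) (b := 1) (c := 2) (cn := .dn) (n1 := ndB0q1) (n2 := ndB0q2) (pc := pcB1) (cut := cut_B00pp_112_s3) (xt := Ext.none) (P1 := 536870912) (W1 := 536870912) (P2 := 0) (W2 := 536870912) (P3 := 1045395039) (W3 := 1503240)
    rfl k0_B00pp_112_s3

theorem s_B00pp_112_s3 {κ x : ℝ} (hκ : κ * h0 = ken x) (hx : ((1045395039 : ℕ) : ℝ) / S ≤ x)
    (hx' : x ≤ (((1045395039 : ℕ) : ℝ) + (1503240 : ℕ)) / S) :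
    AltB (VFD κ) PP tK tL pcB [⟨4, 0, 0, 2845415833⟩] 1 1 2 0 0 (sgb true) (sgb true) x :=
  strip_altBD (m := 2845415833) false rfl hκ (SH.κ0 hκ (SH.hx1 hx).le (SH.hx2 hx').le) (SH.hx1 hx).le (SH.hx2 hx') (covB01).cov (covB02).cov hx hx' c_B00pp_112_s3 cutB_nil (noExt_B)

noncomputable def cut_B00pp_202_s1 : Cut := Cut.of [[⟨4, 0, 0, 1449551462⟩]]

noncomputable def f_B00pp_202_s1 : ℕ → ℕ → ℕ → ℕ → Bool := onCell 0 536870912 0 536870912 1045395039 1503240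
    (rowF 0 false true true .pp 2 0 2 (qsf 0 536870912 0 536870912 0) ndB0q2 ndB0q2 pcB0 cut_B00pp_202_s1 Ext.none)

def k0_B00pp_202_s1 : ∃ t, chk3 f_B00pp_202_s1 t 1 1 1 = true :=
  ⟨(l 3), by decide +kernel⟩

theorem c_B00pp_202_s1 : CertF 0 536870912 0 536870912 1045395039 1503240 false true true .pp 2 0 2
    ndB0q2 ndB0q2 pcB0 cut_B00pp_202_s1 Ext.none :=
  certF0 (fam := false) (s1 := true) (s2 := true) (a := 2) (b := 0) (c := 2) (cn := .pp) (n1 := ndB0q2) (n2 := ndB0q2) (pc := pcB0) (cut := cut_B00pp_202_s1) (xt := Ext.none) (P1 := 0) (W1 := 536870912) (P2 := 0) (W2 := 536870912) (P3 := 1045395039) (W3 := 1503240)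
    rfl k0_B00pp_202_s1

theorem s_B00pp_202_s1 {κ x : ℝ} (hκ : κ * h0 = ken x) (hx : ((1045395039 : ℕ) : ℝ) / S ≤ x)
    (hx' : x ≤ (((1045395039 : ℕ) : ℝ) + (1503240 : ℕ)) / S) :
    AltB (VFD κ) PP tK tL pcB [⟨3, 0, 0, 1449551462⟩] 2 0 2 0 0 (sgb true) (sgb true) x :=
  strip_altBD (m := 1449551462) true rfl hκ (SH.κ0 hκ (SH.hx1 hx).le (SH.hx2 hx').le) (SH.hx1 hx).le (SH.hx2 hx') (covB02).cov (covB02).cov hx hx' c_B00pp_202_s1 cutB_nil (noExt_B)

noncomputable def cut_B00pp_202_s3 : Cut := Cut.of [[⟨3, 0, 0, 2845415833⟩]]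

noncomputable def f_B00pp_202_s3 : ℕ → ℕ → ℕ → ℕ → Bool := onCell 0 536870912 0 536870912 1045395039 1503240
    (rowF 0 false true true .pp 2 0 2 (qsf 0 536870912 0 536870912 0) ndB0q2 ndB0q2 pcB0 cut_B00pp_202_s3 Ext.none)

def k0_B00pp_202_s3 : ∃ t, chk3 f_B00pp_202_s3 t 1 1 1 = true :=
  ⟨(l 3), by decide +kernel⟩

theorem c_B00pp_202_s3 : CertF 0 536870912 0 536870912 1045395039 1503240 false true true .pp 2 0 2
    ndB0q2 ndB0q2 pcB0 cut_B00pp_202_s3 Ext.none :=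
  certF0 (fam := false) (s1 := true) (s2 := true) (a := 2) (b := 0) (c := 2) (cn := .pp) (n1 := ndB0q2) (n2 := ndB0q2) (pc := pcB0) (cut := cut_B00pp_202_s3) (xt := Ext.none) (P1 := 0) (W1 := 536870912) (P2 := 0) (W2 := 536870912) (P3 := 1045395039) (W3 := 1503240)
    rfl k0_B00pp_202_s3

theorem s_B00pp_202_s3 {κ x : ℝ} (hκ : κ * h0 = ken x) (hx : ((1045395039 : ℕ) : ℝ) / S ≤ x)
    (hx' : x ≤ (((1045395039 : ℕ) : ℝ) + (1503240 : ℕ)) / S) :
    AltB (VFD κ) PP tK tL pcB [⟨4, 0, 0, 2845415833⟩] 2 0 2 0 0 (sgb true) (sgb true) x :=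
  strip_altBD (m := 2845415833) false rfl hκ (SH.κ0 hκ (SH.hx1 hx).le (SH.hx2 hx').le) (SH.hx1 hx).le (SH.hx2 hx') (covB02).cov (covB02).cov hx hx' c_B00pp_202_s3 cutB_nil (noExt_B)

noncomputable def cut_B00pm_001_s1 : Cut := Cut.of [[⟨4, 0, 0, 1449551462⟩]]

noncomputable def f_B00pm_001_s1 : ℕ → ℕ → ℕ → ℕ → Bool := onCell 0 536870912 536870912 536870912 1045395039 1503240
    (rowF 0 false true false .up 0 0 1 (qsf 0 536870912 536870912 536870912 0) ndB0q0 ndB0q1 pcB0 cut_B00pm_001_s1 Ext.none)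

def k0_B00pm_001_s1 : ∃ t, chk3 f_B00pm_001_s1 t 1 1 1 = true :=
  ⟨(l 6), by decide +kernel⟩

theorem c_B00pm_001_s1 : CertF 0 536870912 536870912 536870912 1045395039 1503240 false true false .up 0 0 1
    ndB0q0 ndB0q1 pcB0 cut_B00pm_001_s1 Ext.none :=
  certF0 (fam := false) (s1 := true) (s2 := false) (a := 0) (b := 0) (c := 1) (cn := .up) (n1 := ndB0q0) (n2 := ndB0q1) (pc := pcB0) (cut := cut_B00pm_001_s1) (xt := Ext.none) (P1 := 0) (W1 := 536870912) (P2 := 536870912) (W2 := 536870912) (P3 := 1045395039) (W3 := 1503240)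
    rfl k0_B00pm_001_s1

theorem s_B00pm_001_s1 {κ x : ℝ} (hκ : κ * h0 = ken x) (hx : ((1045395039 : ℕ) : ℝ) / S ≤ x)
    (hx' : x ≤ (((1045395039 : ℕ) : ℝ) + (1503240 : ℕ)) / S) :
    AltB (VFD κ) PP tK tL pcB [⟨3, 0, 0, 1449551462⟩] 0 0 1 0 0 (sgb true) (sgb false) x :=
  strip_altBD (m := 1449551462) true rfl hκ (SH.κ0 hκ (SH.hx1 hx).le (SH.hx2 hx').le) (SH.hx1 hx).le (SH.hx2 hx') (covB00).cov (covB01).cov hx hx' c_B00pm_001_s1 cutB_nil (noExt_B)

noncomputable def cut_B00pm_001_s3 : Cut := Cut.of [[⟨3, 0, 0, 2845415833⟩]]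

noncomputable def xt_B00pm_001_s3 : Ext := strExt dd false true false .u0 .u0m .s0m .up 0 0 1 rfl rfl gl0 vv ndB0q0 ndB0q1

noncomputable def f_B00pm_001_s3 : ℕ → ℕ → ℕ → ℕ → Bool := onCell 0 536870912 536870912 536870912 1045395039 1503240
    (rowF 0 false true false .up 0 0 1 (qsf 0 536870912 536870912 536870912 0) ndB0q0 ndB0q1 pcB0 cut_B00pm_001_s3 xt_B00pm_001_s3)

def k0_B00pm_001_s3 : ∃ t, chk3 f_B00pm_001_s3 t 2 1 1 = true :=
  ⟨(b (l 4) (b (b (l 4) (l 2)) (l 2))), by decide +kernel⟩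

def k1_B00pm_001_s3 : ∃ t, chk3 f_B00pm_001_s3 t 3 2 1 = true :=
  ⟨(b (l 4) (a (l 4) (a (b (l 4) (a (b (l 4) (a (b (l 4) (l 529801999)) (b (l 530446351) (l 530149135)))) (b (a (l 4) (l 531146767)) (a (b (l 530855439) (l 530530575)) (b (l 531283727) (l 530939407)))))) (b (a (b (l 4) (b (l 4) (l 529758735))) (b (a (l 4) (l 526536719)) (a (b (l 528252175) (l 528956943)) (l 526943759)))) (a (b (b (l 530138127) (l 530756623)) (b (l 531076111) (l 531058447))) (b (a (l 529153039) (l 529420559)) (a (l 530408719) (l 530188303)))))))), by decide +kernel⟩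

def k2_B00pm_001_s3 : ∃ t, chk3 f_B00pm_001_s3 t 6 6 1 = true :=
  ⟨(a (b (a (l 4) (b (l 4) (a (l 4) (b (l 4) (a (l 529599503) (b (l 4) (l 529796879))))))) (b (a (l 2) (a (l 2) (b (a (l 2) (l 530190863)) (l 2)))) (l 2))) (b (a (b (l 4) (a (b (b (l 4) (l 528972047)) (b (l 529386511) (b (l 529512463) (l 529606927)))) (b (b (l 528782351) (l 528853519)) (b (l 528948751) (l 529069071))))) (b (a (b (l 4) (a (l 528764943) (l 528818959))) (b (a (b (l 4) (l 528958735)) (l 529377551)) (a (b (l 528906767) (l 529138959)) (b (l 529269263) (l 529217039))))) (a (b (b (l 528795151) (l 528823311)) (a (l 528922383) (l 528894735))) (b (a (l 528851471) (b (l 529180687) (l 529161231))) (a (l 528888079) (l 528901391)))))) (a (b (a (b (a (l 529975567) (l 529791247)) (a (l 2) (l 530298127))) (b (a (l 529636111) (l 529508623)) (a (l 530078991) (l 529890575)))) (a (l 2) (b (a (l 2) (l 530401295)) (l 2)))) (b (a (b (a (l 529138959) (l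 529062671)) (a (l 529731855) (l 529600783))) (b (a (l 529009935) (l 528979471)) (a (l 529228047) (l 529148431)))) (a (b (a (l 530177807) (l 529985807)) (a (l 2) (l 530500111))) (b (a (l 529823247) (l 529688591)) (a (l 530272527) (l 530076431)))))))), by decide +kernel⟩

def k3_B00pm_001_s3 : ∃ t, chk3 f_B00pm_001_s3 t 7 12 1 = true :=
  ⟨(a (a (b (b (a (l 529579279) (l 529884175)) (a (b (l 529170703) (l 529096463)) (l 529659407))) (a (b (a (l 528971791) (l 529056271)) (a (l 528933391) (l 528983055))) (b (a (l 529423887) (l 529537039)) (b (l 529113615) (l 529068559))))) (b (a (b (l 530230031) (l 529962255)) (b (l 530610447) (l 530306575))) (a (b (l 529735183) (l 529556495)) (b (l 530036239) (l 529806607))))) (a (b (b (l 530704399) (l 530360335)) (a (b (l 530379023) (l 530105615)) (l 530340367))) (b (a (l 531177743) (l 531379471)) (b (l 530852111) (l 530767887))))), by decide +kernel⟩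

def k4_B00pm_001_s3 : ∃ t, chk3 f_B00pm_001_s3 t 7 13 1 = true :=
  ⟨(a (b (a (a (b (a (l 528970255) (l 528981007)) (a (l 529092879) (l 529059599))) (b (b (l 529040143) (l 529029391)) (b (l 529037839) (l 529066511)))) (b (a (a (l 529391887) (l 529472783)) (l 529626127)) (a (a (l 529352463) (l 529398031)) (l 529234191)))) (a (b (a (b (l 529209871) (l 529332751)) (b (l 529116687) (l 529190159))) (b (a (l 529751567) (l 529287951)) (a (a (l 16485440) (b (l 16467040) (a (l 16465392) (b (l 16456096) (b (l 16453000) (l 16450168)))))) (b (a (l 16445840) (b (a (l 16432520) (l 16379704)) (a (b (l 16428800) (l 16383752)) (l 16414184)))) (a (b (a (l 16402464) (b (l 16392528) (l 16430352))) (a (l 16437440) (l 16420480))) (l 16402640)))))) (b (a (b (l 16464368) (l 16431936)) (b (l 16423416) (a (l 16407376) (b (l 16398192) (b (l 16389192) (l 16339920)))))) (a (b (b (a (l 16425056) (l 16406944)) (a (b (l 16417544) (a (l 16417312)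 (l 16385608))) (b (a (l 16402928) (l 16350896)) (l 16388368)))) (a (b (a (b (b (l 16328928) (l 16408400)) (l 16398608)) (l 16390120)) (l 16371856)) (l 16355872))) (b (b (a (b (l 16350208) (a (l 16348472) (l 16379880))) (a (l 16373696) (l 16361384))) (l 16354504)) (a (l 16328808) (l 16303544))))))) (b (a (b (a (l 529873679) (l 16467792)) (a (l 529691407) (l 16415008))) (b (l 530169103) (b (l 16407808) (a (l 16341624) (l 6))))) (a (b (a (b (l 16396808) (b (a (l 16383744) (b (l 16373672) (l 16365888))) (a (b (l 16373192) (l 16363496)) (l 16347960)))) (b (a (l 16377888) (b (l 16376040) (l 16359712))) (a (l 16341744) (l 6)))) (a (b (l 16320824) (l 16269000)) (l 6))) (a (b (b (b (a (l 16366152) (l 6)) (l 6)) (l 6)) (l 6)) (l 6))))), by decide +kernel⟩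

def k5_B00pm_001_s3 : ∃ t, chk3 f_B00pm_001_s3 t 3 7 1 = true :=
  ⟨(b (a (a (l 2) (b (a (l 2) (b (a (l 2) (b (b (l 16512000) (l 2)) (l 2))) (l 2))) (l 2))) (a (b (a (b (b (a (b (a (b (l 16476840) (a (l 24796134919) (l 16464784))) (b (a (b (l 16418264) (l 16456392)) (l 16441792)) (l 16437512))) (a (l 16454632) (l 16417784))) (a (l 16396240) (l 16363352))) (a (b (l 16367184) (l 16297784)) (a (l 16342064) (l 16308792)))) (a (b (a (l 2) (l 16320704)) (l 2)) (b (a (l 16285224) (l 16251608)) (b (l 16223640) (l 6))))) (b (a (b (a (l 16332288) (l 16303048)) (a (l 16277368) (l 16247784))) (b (a (l 16275624) (l 6)) (l 6))) (l 6))) (a (a (l 2) (l 6)) (l 6))) (l 6))) (a (l 2) (l 6))), by decide +kernel⟩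

theorem t6_B00pm_001_s3 : ∃ t, chk3 f_B00pm_001_s3 t 7 6 1 = true := ex3_b k3_B00pm_001_s3 k4_B00pm_001_s3

theorem t7_B00pm_001_s3 : ∃ t, chk3 f_B00pm_001_s3 t 3 6 1 = true := ex3_a k2_B00pm_001_s3 t6_B00pm_001_s3

theorem t8_B00pm_001_s3 : ∃ t, chk3 f_B00pm_001_s3 t 3 3 1 = true := ex3_b t7_B00pm_001_s3 k5_B00pm_001_s3

theorem t9_B00pm_001_s3 : ∃ t, chk3 f_B00pm_001_s3 t 3 1 1 = true := ex3_b k1_B00pm_001_s3 t8_B00pm_001_s3

theorem t10_B00pm_001_s3 : ∃ t, chk3 f_B00pm_001_s3 t 1 1 1 = true := ex3_a k0_B00pm_001_s3 t9_B00pm_001_s3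

theorem c_B00pm_001_s3 : CertF 0 536870912 536870912 536870912 1045395039 1503240 false true false .up 0 0 1
    ndB0q0 ndB0q1 pcB0 cut_B00pm_001_s3 xt_B00pm_001_s3 :=
  certF0 (fam := false) (s1 := true) (s2 := false) (a := 0) (b := 0) (c := 1) (cn := .up) (n1 := ndB0q0) (n2 := ndB0q1) (pc := pcB0) (cut := cut_B00pm_001_s3) (xt := xt_B00pm_001_s3) (P1 := 0) (W1 := 536870912) (P2 := 536870912) (W2 := 536870912) (P3 := 1045395039) (W3 := 1503240)
    rfl t10_B00pm_001_s3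

theorem s_B00pm_001_s3 {κ x : ℝ} (hκ : κ * h0 = ken x) (hx : ((1045395039 : ℕ) : ℝ) / S ≤ x)
    (hx' : x ≤ (((1045395039 : ℕ) : ℝ) + (1503240 : ℕ)) / S) :
    AltB (VFD κ) PP tK tL pcB [⟨4, 0, 0, 2845415833⟩] 0 0 1 0 0 (sgb true) (sgb false) x :=
  strip_altBD (m := 2845415833) false rfl hκ (SH.κ0 hκ (SH.hx1 hx).le (SH.hx2 hx').le) (SH.hx1 hx).le (SH.hx2 hx') (covB00).cov (covB01).cov hx hx' c_B00pm_001_s3 cutB_nil ((okx hx hx').extB (T := tt) (sideB hx hx') hκ rfl rfl (.O 0 true) (.O 1 false) (Or.inl rfl))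

noncomputable def cut_B00pm_011_s1 : Cut := Cut.of [[⟨4, 0, 0, 1449551462⟩], [⟨0, 0, 0, 16777216⟩, ⟨1, 1, 0, 16777216⟩, ⟨2, 1, 0, 16777216⟩]]

noncomputable def f_B00pm_011_s1 : ℕ → ℕ → ℕ → ℕ → Bool := onCell 0 536870912 536870912 536870912 1045395039 1503240
    (rowF 0 false true false .pnn 0 1 1 (qsf 0 536870912 536870912 536870912 1) ndB0q0 ndB0q1 pcB1 cut_B00pm_011_s1 Ext.none)

def k0_B00pm_011_s1 : ∃ t, chk3 f_B00pm_011_s1 t 1 1 1 = true :=
  ⟨(l 6), by decide +kernel⟩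

theorem c_B00pm_011_s1 : CertF 0 536870912 536870912 536870912 1045395039 1503240 false true false .pnn 0 1 1
    ndB0q0 ndB0q1 pcB1 cut_B00pm_011_s1 Ext.none :=
  certF0 (fam := false) (s1 := true) (s2 := false) (a := 0) (b := 1) (c := 1) (cn := .pnn) (n1 := ndB0q0) (n2 := ndB0q1) (pc := pcB1) (cut := cut_B00pm_011_s1) (xt := Ext.none) (P1 := 0) (W1 := 536870912) (P2 := 536870912) (W2 := 536870912) (P3 := 1045395039) (W3 := 1503240)
    rfl k0_B00pm_011_s1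

theorem s_B00pm_011_s1 {κ x : ℝ} (hκ : κ * h0 = ken x) (hx : ((1045395039 : ℕ) : ℝ) / S ≤ x)
    (hx' : x ≤ (((1045395039 : ℕ) : ℝ) + (1503240 : ℕ)) / S)
    (H : CutB (VFD κ) PP tK tL pcB (Cut.of [[⟨0, 0, 0, 16777216⟩, ⟨1, 1, 0, 16777216⟩, ⟨2, 1, 0, 16777216⟩]]) 0 1 1 0 0 (sgb true) (sgb false) x) :
    AltB (VFD κ) PP tK tL pcB [⟨3, 0, 0, 1449551462⟩] 0 1 1 0 0 (sgb true) (sgb false) x :=
  strip_altBD (m := 1449551462) true rfl hκ (SH.κ0 hκ (SH.hx1 hx).le (SH.hx2 hx').le) (SH.hx1 hx).le (SH.hx2 hx') (covB00).cov (covB01).cov hx hx' c_B00pm_011_s1 H (noExt_B)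

noncomputable def cut_B00pm_011_s3 : Cut := Cut.of [[⟨3, 0, 0, 2845415833⟩], [⟨0, 0, 0, 16777216⟩, ⟨1, 1, 0, 16777216⟩, ⟨2, 1, 0, 16777216⟩]]

noncomputable def xt_B00pm_011_s3 : Ext := strExt dd false true false .u0 .u0m .s0m .pnn 0 1 1 rfl rfl gl1 vv ndB0q0 ndB0q1

noncomputable def f_B00pm_011_s3 : ℕ → ℕ → ℕ → ℕ → Bool := onCell 0 536870912 536870912 536870912 1045395039 1503240
    (rowF 0 false true false .pnn 0 1 1 (qsf 0 536870912 536870912 536870912 1) ndB0q0 ndB0q1 pcB1 cut_B00pm_011_s3 xt_B00pm_011_s3)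

def k0_B00pm_011_s3 : ∃ t, chk3 f_B00pm_011_s3 t 1 2 1 = true :=
  ⟨(a (l 4) (a (b (l 1) (l 4)) (l 1))), by decide +kernel⟩

def k1_B00pm_011_s3 : ∃ t, chk3 f_B00pm_011_s3 t 2 6 1 = true :=
  ⟨(a (l 4) (a (l 4) (b (l 4) (b (l 4) (a (a (l 4) (b (l 4) (a (l 4) (l 528199695)))) (a (b (l 4) (a (l 528170767) (l 528146447))) (b (b (a (l 4) (l 528291087)) (l 528059151)) (b (l 528097295) (l 528137999))))))))), by decide +kernel⟩

def k2_B00pm_011_s3 : ∃ t, chk3 f_B00pm_011_s3 t 4 14 1 = true :=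
  ⟨(a (l 4) (a (l 4) (b (l 4) (a (l 4) (b (l 4) (a (b (l 4) (l 530418703)) (l 530187279))))))), by decide +kernel⟩

def k3_B00pm_011_s3 : ∃ t, chk3 f_B00pm_011_s3 t 8 30 1 = true :=
  ⟨(a (l 4) (a (l 4) (b (l 4) (a (l 4) (b (l 4) (a (l 4) (b (l 4) (a (a (l 4) (l 530096655)) (l 530237711))))))))), by decide +kernel⟩

def k4_B00pm_011_s3 : ∃ t, chk3 f_B00pm_011_s3 t 16 62 1 = true :=
  ⟨(b (l 4) (a (l 4) (a (l 4) (a (l 4) (b (l 4) (a (l 4) (b (l 4) (a (l 4) (b (l 4) (a (a (l 4) (l 525611791)) (l 525660943))))))))))), by decide +kernel⟩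

def k5_B00pm_011_s3 : ∃ t, chk3 f_B00pm_011_s3 t 32 63 1 = true :=
  ⟨(b (b (l 4) (a (l 4) (a (l 4) (a (l 4) (a (l 4) (b (l 4) (l 529404943))))))) (b (a (b (l 4) (l 14)) (b (a (a (l 4) (a (l 4) (a (l 4) (l 531320335)))) (a (a (a (l 531154447) (l 530988559)) (a (l 530822927) (l 530657551))) (a (a (l 530492175) (l 530327311)) (l 529269263)))) (a (a (b (b (l 4) (l 14)) (l 14)) (a (a (l 531693071) (l 531794447)) (a (l 531896079) (l 531460879)))) (a (a (a (l 531562767) (l 531396367)) (b (a (l 531132431) (l 530966543)) (b (l 16766344) (b (l 16770616) (l 16764712))))) (b (a (l 530445071) (l 530383119)) (b (a (a (l 16770256) (l 16769280)) (b (l 16768120) (l 16767416))) (a (b (l 16763488) (l 16767888)) (l 16766104)))))))) (a (l 14) (a (b (b (a (l 14) (b (a (l 14) (b (l 16762264) (l 14))) (l 14))) (l 14)) (l 14)) (a (b (b (b (a (b (b (l 16760792) (l 16765720)) (l 16759896)) (l 16758248)) (a (l 16769008) (l 16766912)))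 (b (l 16755648) (l 16764256))) (b (l 16750896) (l 14))) (b (b (a (l 16755168) (l 16763424)) (l 16750384)) (b (l 16757048) (b (b (l 16743760) (l 16751704)) (b (l 16747496) (l 16739712)))))))))), by decide +kernel⟩

def k6_B00pm_011_s3 : ∃ t, chk3 f_B00pm_011_s3 t 33 126 1 = true :=
  ⟨(b (b (a (l 4) (a (a (l 4) (a (l 4) (l 525298447))) (a (l 525379855) (a (l 525564175) (a (l 525688079) (l 525856271)))))) (a (a (l 4) (a (l 4) (a (l 4) (l 526166543)))) (a (a (a (l 525999887) (l 525873679)) (a (l 525787919) (l 525742095))) (a (l 525741583) (l 525890319))))) (a (b (a (a (l 4) (a (l 4) (l 527972111))) (a (a (l 527648527) (l 527325455)) (a (b (a (l 526991119) (l 526831375)) (l 527106319)) (b (l 526637839) (l 526788879))))) (a (a (a (l 529345807) (l 529018895)) (a (l 528692751) (l 528367375))) (a (a (l 528042511) (l 527718415)) (a (l 527395087) (l 527031567))))) (a (a (b (b (a (l 526422031) (l 526254351)) (a (l 526600207)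 (l 526429455))) (a (l 526555663) (l 526626831))) (b (b (a (l 526146575) (l 526061839)) (l 526234639)) (b (l 526340111) (a (b (l 16753824) (l 16751496)) (b (l 16750888) (l 16749008)))))) (a (a (b (l 526076687) (b (l 16751768) (b (l 16748248) (l 16746544)))) (b (l 526061327) (b (b (l 16750280) (l 16747728)) (l 16745280)))) (b (b (l 526071055) (l 16744912)) (b (b (a (l 16747640) (l 16745168)) (a (l 16745496) (l 16743464))) (l 16742144))))))), by decide +kernel⟩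

def k7_B00pm_011_s3 : ∃ t, chk3 f_B00pm_011_s3 t 33 127 1 = true :=
  ⟨(b (a (a (b (a (a (l 529745935) (l 529417999)) (a (l 529090575) (b (l 528669199) (b (l 16765152) (l 16763336))))) (b (a (a (b (l 16768672) (b (l 16767536) (l 16766744))) (b (l 16766496) (b (l 16765288) (l 16764520)))) (b (a (b (l 16764528) (l 16763760)) (l 16761768)) (l 16761280))) (a (a (b (l 16765608) (l 16763808)) (l 16762336)) (l 16748192)))) (a (b (a (b (l 16760176) (b (l 16762616) (l 16755592))) (b (l 16752320) (b (l 16754616) (l 16758264)))) (b (l 16757016) (l 16753584))) (b (b (a (l 16754768) (b (l 16758152) (l 16756112))) (a (b (l 16757240) (l 16755520)) (l 16753616))) (b (l 16751664) (l 16748224))))) (a (b (a (b (b (a (l 16755120) (l 16752408)) (l 16752144)) (l 16749608)) (b (l 16747848) (l 16744544))) (a (l 16744584) (l 16739512))) (b (a (l 16741536) (l 16737480)) (a (l 16734880) (l 16730808))))) (a (b (a (b (a (l 16749480) (l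 16755120)) (a (l 16756272) (l 16751424))) (a (l 16737696) (l 16742816))) (a (b (a (l 16752448) (b (l 16748568) (l 16746312))) (b (a (b (l 16738888) (l 16745720)) (l 16731360)) (b (l 16717624) (a (l 16739472) (l 16733768))))) (b (b (l 16740760) (a (l 16730456) (b (l 16736536) (l 16734672)))) (b (l 16710928) (b (a (l 16729032) (l 16722424)) (l 16724816)))))) (b (a (a (l 16737432) (l 16732352)) (l 16725696)) (b (b (a (l 16730104) (a (l 16722632) (l 16718296))) (a (b (l 16717480) (l 16724808)) (l 16715360))) (b (a (l 16718704) (l 16707024)) (a (b (l 16702288) (l 16712544)) (b (l 16701520) (l 16701920)))))))), by decide +kernel⟩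

def k8_B00pm_011_s3 : ∃ t, chk3 f_B00pm_011_s3 t 17 62 1 = true :=
  ⟨(b (b (a (l 4) (a (a (l 4) (a (l 528943375) (l 529154319))) (a (a (l 529364239) (l 529573135)) (a (a (l 529716495) (b (l 529892111) (l 529771023))) (b (l 530037007) (l 529915919)))))) (a (a (l 4) (a (l 4) (a (l 4) (l 528033807)))) (a (a (a (l 528250383) (l 528465679)) (a (l 528679951) (l 528892943))) (a (a (l 529104655) (l 529315343)) (a (l 529524495) (l 529728527)))))) (a (b (a (a (l 4) (a (l 4) (l 526873103))) (a (a (l 527096591) (l 527319055)) (a (l 527539983) (l 527759631)))) (a (a (a (b (l 4) (l 525836815)) (b (l 526210575) (l 526066191))) (a (b (l 526437647) (l 526292495)) (b (l 526663439) (l 526519055)))) (a (a (l 526811663) (l 527035663)) (a (l 527258639) (l 527480591))))) (a (b (a (a (l 527978255) (l 528195599)) (a (l 528411663) (l 528626447))) (a (a (l 527701007) (l 527920143)) (b (a (l 16737992) (l 16729432)) (b (a (l 16736680)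 (b (l 16734552) (l 16732280))) (a (b (l 16733264) (a (l 16731872) (l 16730560))) (b (l 16730432) (l 16728520))))))) (b (a (a (l 528840207) (l 529052687)) (a (l 529263887) (l 529471247))) (b (a (b (l 16737392) (a (l 16734712) (b (l 16732872) (a (l 16731416) (l 16730200))))) (b (a (l 16733120) (b (l 16731552) (a (l 16730304) (l 16729200)))) (a (b (a (l 16730792) (l 16729680)) (l 16728416)) (l 16726984)))) (a (b (a (b (a (l 16732232) (l 16730808)) (l 16729704)) (l 16728168)) (l 16725664)) (b (l 16724520) (l 16720936)))))))), by decide +kernel⟩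

def k9_B00pm_011_s3 : ∃ t, chk3 f_B00pm_011_s3 t 17 126 1 = true :=
  ⟨(a (a (b (a (b (a (a (b (b (l 525757455) (l 525837071)) (l 525943567)) (b (l 525881359) (l 526011151))) (b (l 526019599) (l 526114063))) (a (a (l 526087183) (l 526190095)) (b (l 16749808) (l 16750248)))) (a (b (b (l 525960207) (l 16749736)) (l 526410767)) (b (l 526455823) (b (l 16745576) (b (l 16742080) (a (l 16740872) (l 16738656))))))) (b (a (b (a (l 16750248) (l 16745352)) (a (b (l 16746536) (a (l 16745144) (l 16743056))) (b (a (l 16742904) (l 16741032)) (l 16740408)))) (b (a (b (l 16741832) (a (l 16740800) (l 16739056))) (b (l 16738064) (l 16736496))) (l 16736040))) (a (b (a (l 16741800) (l 16738144)) (l 16736872)) (l 16731712)))) (b (b (a (a (l 526667791) (l 526882831)) (b (l 16729640) (a (l 16737360) (b (l 16734688) (l 16732968))))) (a (b (a (l 16741168) (b (l 16738104) (a (l 16736800) (l 16735128)))) (a (b (a (l 16738720) (l 16736808))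 (l 16736216)) (l 16733792))) (b (a (b (l 16734400) (l 16732768)) (l 16730560)) (l 16729184)))) (b (a (b (l 16732464) (l 16729720)) (l 16725080)) (a (l 16725368) (l 16719328))))) (b (a (b (a (b (a (b (l 16735640) (l 16730712)) (b (a (l 16732920) (l 16731472)) (l 16730488))) (a (l 16730936) (l 16727976))) (b (l 16727296) (l 16724000))) (a (l 16724912) (l 16719552))) (b (a (l 16720552) (l 16715808)) (a (l 16714488) (l 16709720)))) (a (b (a (l 16719384) (l 16713992)) (l 16710864)) (b (l 16706480) (l 16700624))))), by decide +kernel⟩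

def k10_B00pm_011_s3 : ∃ t, chk3 f_B00pm_011_s3 t 17 127 1 = true :=
  ⟨(a (b (a (b (a (l 16732192) (l 16725504)) (a (l 16725504) (l 16718792))) (b (l 16705584) (l 16709320))) (b (b (a (l 16716752) (l 16703936)) (a (a (l 16716424) (l 16709120)) (b (l 16701144) (a (l 16701416) (l 16694440))))) (a (b (b (a (l 16701864) (l 16704264)) (l 16700592)) (b (l 16671552) (b (l 16677648) (l 16688960)))) (b (l 16644896) (b (a (l 16678944) (l 16670464)) (l 16672864)))))) (b (a (b (l 16704560) (l 16697768)) (l 16690920)) (b (b (a (l 16692352) (b (l 16682920) (l 16680048))) (a (b (a (l 16691648) (l 16685584)) (l 16682504)) (l 16629632))) (b (a (l 16670392) (l 16655256)) (b (a (b (l 16660352) (l 16657160)) (b (l 16645184) (l 16643384))) (l 16630672)))))), by decide +kernel⟩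

def k11_B00pm_011_s3 : ∃ t, chk3 f_B00pm_011_s3 t 9 30 1 = true :=
  ⟨(b (a (a (l 4) (a (l 4) (b (l 4) (a (l 531301135) (l 531126543))))) (a (a (b (l 4) (l 531160335)) (b (l 530813967) (l 531173903))) (b (a (l 530723343) (l 530494223)) (a (l 530979855) (l 530827535))))) (a (a (a (b (l 4) (a (b (l 4) (a (l 530421519) (l 530600719))) (a (b (l 531026447) (l 530775055)) (b (l 531189263) (l 530944527))))) (b (b (l 4) (a (l 531385359) (l 531670031))) (a (a (l 530959631) (l 531385103)) (a (l 531537423) (l 531685135))))) (a (b (a (b (l 532406287) (l 532205327)) (l 532244495)) (a (b (l 532000527) (l 531792143)) (l 531627791))) (b (a (l 532297999) (l 532100111)) (a (l 532414991) (l 532539407))))) (a (b (a (a (l 531918351) (l 531752975)) (l 531532559)) (a (a (l 532333839) (b (l 16699808) (l 16735024))) (b (l 16690448) (b (l 16643168) (l 16724992))))) (a (b (l 531296271) (b (l 16677944) (l 16716208))) (b (l 16676728) (l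 16708560)))))), by decide +kernel⟩

def k12_B00pm_011_s3 : ∃ t, chk3 f_B00pm_011_s3 t 9 62 1 = true :=
  ⟨(a (b (a (a (a (b (b (a (l 530226703) (l 530407695)) (a (l 530104847) (l 530289167))) (a (b (l 529985807) (l 529862671)) (l 530111759))) (b (a (l 530526991) (l 530702095)) (a (l 530295055) (l 530475279)))) (b (a (a (l 530872847) (l 531039247)) (l 531278095)) (a (a (l 530650895) (l 530821903)) (b (l 16729992) (a (l 16735192) (b (l 16735096) (l 16731888))))))) (a (a (b (l 531583503) (b (l 16737088) (a (b (l 16733360) (l 16730160)) (l 16719544)))) (b (l 531870479) (b (b (l 16735488) (l 16732448)) (l 16727016)))) (b (b (l 16719624) (a (l 16694704) (l 16733856))) (a (b (l 16709680) (l 16722976)) (l 16722800))))) (a (b (a (b (a (a (l 529736975) (l 16733688)) (a (l 16736632) (b (l 16736192) (l 16730024)))) (a (b (l 16729432) (a (b (l 16733048) (a (l 16731728) (l 16730536))) (b (a (l 16731240) (l 16730200)) (l 16728976))))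 (b (a (b (l 16732176) (a (l 16730880) (l 16729912))) (b (l 16730136) (l 16728256))) (a (l 16727688) (l 16725488))))) (a (b (b (a (l 16734160) (b (l 16733096) (l 16731376))) (a (b (l 16731560) (l 16729912)) (l 16728792))) (l 16713688)) (b (a (b (l 16730408) (l 16726640)) (l 16726464)) (l 16720032)))) (a (b (a (b (a (b (l 16729368) (l 16727448)) (l 16726152)) (l 16723616)) (l 16721072)) (a (l 16718168) (l 16713792))) (b (a (l 16716824) (l 16712672)) (l 16707448)))) (b (a (a (l 16698712) (l 16715656)) (l 16667720)) (a (b (l 16706576) (l 16699256)) (l 16694664))))) (b (a (a (b (a (l 16723024) (l 16730192)) (l 16632864)) (l 16716184)) (a (l 16707392) (l 16698208))) (a (b (l 16676512) (l 16640504)) (a (l 16592088) (l 16582896))))), by decide +kernel⟩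

def k13_B00pm_011_s3 : ∃ t, chk3 f_B00pm_011_s3 t 9 63 1 = true :=
  ⟨(b (a (a (b (a (b (l 16698584) (l 16702944)) (b (l 16700512) (l 16694336))) (a (b (l 16697272) (l 16691360)) (l 16685584))) (b (a (l 16689096) (l 16680976)) (a (l 16677224) (l 16669000)))) (a (a (l 16582944) (l 16658352)) (l 16560944))) (a (a (b (a (l 16681592) (b (l 16676200) (l 16647360))) (b (b (a (b (l 16672744) (l 16668864)) (l 16617400)) (a (l 16656984) (l 16643512))) (b (a (l 16641200) (l 16627784)) (a (b (l 16631528) (l 16633240)) (l 16621056))))) (b (b (l 16663648) (b (l 16658472) (a (l 16657432) (l 16647712)))) (b (a (l 16638224) (l 16625384)) (b (a (l 16614608) (l 16601944)) (a (l 16609816) (l 16598720)))))) (b (b (a (l 16646912) (l 16626720)) (a (a (l 16556352) (l 16629624)) (l 16610584))) (b (a (l 16606176) (l 16579584)) (a (b (l 16541704) (l 16582664)) (l 16560416)))))), by decide +kernel⟩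

def k14_B00pm_011_s3 : ∃ t, chk3 f_B00pm_011_s3 t 5 14 1 = true :=
  ⟨(b (b (a (l 4) (a (a (a (b (l 4) (l 528763919)) (l 528403727)) (a (l 528357135) (l 528315407))) (a (a (l 528278031) (l 528245263)) (b (l 528181263) (l 528227343))))) (a (a (l 4) (a (a (l 4) (l 529090319)) (a (l 529014799) (l 528944399)))) (a (a (a (l 528879119) (l 528550159)) (b (l 528433679) (l 528503311))) (a (b (l 528345871) (l 528406287)) (b (l 528275983) (l 528327951)))))) (a (a (a (b (l 4) (l 530004495)) (b (l 529253391) (l 529231119))) (a (b (a (l 529382415) (l 529291279)) (l 529553423)) (b (a (l 529205519) (l 529125135)) (l 529360911)))) (b (a (a (a (l 529049615) (l 528979471)) (b (l 528576271) (l 528921615))) (b (a (l 528470031) (l 528382735)) (a (l 528537359) (a (l 16586088) (b (l 16574536) (b (l 16564768) (l 16558632))))))) (a (b (a (l 529147663) (l 529002255)) (a (b (l 16639080) (a (l 16635512) (l 16618728))) (b (a (l 16613072)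 (l 16597128)) (l 16578936)))) (b (a (b (l 16593792) (a (l 16590392) (b (l 16576520) (l 16574464)))) (b (a (b (l 16569944) (l 16565872)) (l 16555440)) (l 16560040))) (a (b (l 16579856) (l 16579688)) (l 16560424))))))), by decide +kernel⟩

def k15_B00pm_011_s3 : ∃ t, chk3 f_B00pm_011_s3 t 5 15 1 = true :=
  ⟨(b (a (b (a (a (b (l 530271759) (l 530538767)) (b (l 529997839) (l 16645352))) (b (a (l 16592288) (b (l 16648768) (l 16640888))) (a (l 16618864) (l 16639112)))) (a (a (b (a (l 16621816) (l 16693320)) (l 16696064)) (b (l 16594000) (l 16679568))) (b (l 16566744) (l 16653904)))) (a (b (b (a (b (l 16620232) (l 16618632)) (l 16599552)) (l 16611264)) (b (l 16530696) (l 16618176))) (b (b (l 16487328) (l 16573824)) (l 16495288)))) (a (b (a (b (a (l 16684656) (l 16667176)) (a (l 16569344) (l 16635776))) (b (l 16642288) (l 16610984))) (a (b (a (l 16626352) (b (l 16614944) (l 16600992))) (b (a (b (l 16606536) (l 16582480))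 (l 16572520)) (b (l 16540040) (l 16526304)))) (b (b (l 16589976) (b (l 16580392) (l 16485336))) (b (l 16535280) (l 16488648))))) (b (b (a (l 16610816) (l 16580936)) (a (l 16579720) (l 16550144))) (b (a (b (l 16558552) (b (l 16461400) (l 16530088))) (b (l 16525720) (l 16499608))) (b (a (l 16488040) (l 16445272)) (a (l 16447872) (l 16410736))))))), by decide +kernel⟩

def k16_B00pm_011_s3 : ∃ t, chk3 f_B00pm_011_s3 t 3 6 1 = true :=
  ⟨(a (a (b (a (l 4) (b (l 4) (a (l 4) (b (l 4) (b (l 4) (a (l 528319759) (l 528356367))))))) (a (b (b (l 4) (a (a (l 4) (l 528250895)) (l 527996175))) (a (b (b (l 528017935) (l 528046607)) (a (l 528366351) (l 528090127))) (b (a (l 528035343) (l 528041999)) (a (l 528354319) (l 528354319))))) (b (a (b (l 528010255) (l 528030479)) (b (a (l 528323855) (l 528356367)) (a (l 528335375) (l 528362255)))) (a (a (b (l 528321039) (l 528357903)) (b (l 528335119) (l 528365071))) (a (b (l 528352527)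 (l 528376335)) (b (l 528373519) (l 528390927))))))) (b (a (b (l 1) (a (b (l 1) (b (l 1) (l 528415247))) (l 1))) (l 1)) (a (b (a (b (a (l 528391951) (l 528430351)) (l 528138255)) (b (l 528223503) (l 528210959))) (a (a (b (l 528397839) (l 528409103)) (b (l 528425487) (l 528430607))) (a (b (l 528456207) (l 528455695)) (b (l 528490255) (l 528484111))))) (b (a (b (l 1) (l 528295183)) (l 1)) (a (a (b (l 528527119) (l 528515599)) (b (l 528567311) (l 528550415))) (a (b (l 528610063) (l 528588303)) (b (l 1) (l 528629007)))))))) (b (l 1) (b (l 1) (a (a (a (a (b (l 1) (l 528672783)) (l 1)) (l 1)) (l 1)) (l 1))))), by decide +kernel⟩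

def k17_B00pm_011_s3 : ∃ t, chk3 f_B00pm_011_s3 t 12 14 1 = true :=
  ⟨(b (a (a (b (a (l 528441103) (l 528425487)) (b (l 528224015) (l 528267279))) (b (b (l 528126223) (l 528156431)) (b (l 528189199) (l 528224271)))) (b (a (a (l 528402703) (l 528402959)) (a (l 528407311) (l 528415247))) (b (a (l 528170767) (l 528168463)) (a (a (l 16529960) (b (l 16518568) (b (l 16508480) (a (l 16506288) (l 16455720))))) (b (a (l 16500480) (b (l 16485744) (a (l 16463040) (l 16477464)))) (a (b (a (l 16494864) (l 16466312)) (l 16446744)) (l 16479216))))))) (b (a (b (a (l 528313615) (b (l 528522255) (a (b (l 16536376) (a (l 16534304) (l 16525680))) (b (a (l 16522680) (l 16473112)) (l 16516624))))) (a (b (a (l 16556368) (a (l 16542952) (b (l 16536856) (l 16533328)))) (a (b (a (l 16551144) (l 16543624)) (l 16545352)) (l 16535520))) (b (a (b (l 16526656) (l 16525752)) (l 16516288)) (l 16521208)))) (b (a (b (a (b (l 16513144) (a (l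 16469624) (l 16504920))) (b (a (l 16459104) (l 16495200)) (l 16497400))) (l 16502352)) (l 16483536)) (a (l 16502296) (l 16483680)))) (a (b (a (l 16540616) (l 16521664)) (l 16489880)) (b (l 16493336) (l 16493960))))), by decide +kernel⟩

def k18_B00pm_011_s3 : ∃ t, chk3 f_B00pm_011_s3 t 13 14 1 = true :=
  ⟨(b (a (b (a (a (l 528426767) (l 528442127)) (b (l 528470799) (a (l 16476520) (b (l 16465856) (b (l 16455688) (a (l 16453248) (l 16424048))))))) (b (a (b (l 528448015) (a (b (l 16481464) (a (l 16479152) (l 16449688))) (b (a (l 16468080) (l 16439712)) (l 16440944)))) (b (a (b (l 16459504) (a (l 16436672) (l 16451312))) (b (a (l 16426960) (l 16442432)) (l 16444232))) (l 16427544))) (a (b (a (b (a (l 16452848) (l 16468104)) (l 16470104)) (l 16461200)) (l 16465456)) (l 16447736)))) (b (b (a (l 528525327) (b (l 16433240) (a (a (l 16432304) (b (l 16427296) (l 16400080))) (b (a (l 16418952) (l 16370344)) (l 16371224)))))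 (a (b (a (l 16448560) (b (l 16392816) (a (l 16411832) (l 16426792)))) (a (b (a (l 16442672) (l 16414616)) (l 16415672)) (l 16427992))) (a (b (b (a (l 16402728) (l 16418496)) (l 16420064)) (l 16419512)) (l 16411664)))) (a (b (l 16389240) (l 16430288)) (b (l 16414336) (l 16413240))))) (b (a (b (a (l 16465280) (l 16447312)) (l 16456112)) (a (l 16429464) (l 16412136))) (a (b (l 16456312) (l 16456728)) (l 16388672)))), by decide +kernel⟩

def k19_B00pm_011_s3 : ∃ t, chk3 f_B00pm_011_s3 t 7 14 1 = true :=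
  ⟨(a (b (a (b (a (b (b (a (b (l 16411808) (a (l 16367848) (l 16404160))) (l 1)) (l 16401184)) (l 16399552)) (l 238403412711)) (a (l 16376232) (l 16297280))) (b (l 1) (l 6))) (a (b (a (l 16395224) (l 6)) (l 6)) (l 6))) (l 6)), by decide +kernel⟩

def k20_B00pm_011_s3 : ∃ t, chk3 f_B00pm_011_s3 t 3 15 1 = true :=
  ⟨(a (b (a (a (b (b (l 16533200) (l 16535824)) (l 16541264)) (b (l 16496312) (l 16503160))) (b (a (l 16458808) (l 6)) (l 6))) (a (a (b (b (l 16546720) (l 16521648)) (b (b (l 16411216) (l 6)) (l 6))) (b (l 6) (l 6))) (l 6))) (l 6)), by decide +kernel⟩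

theorem t21_B00pm_011_s3 : ∃ t, chk3 f_B00pm_011_s3 t 6 14 1 = true := ex3_a k17_B00pm_011_s3 k18_B00pm_011_s3

theorem t22_B00pm_011_s3 : ∃ t, chk3 f_B00pm_011_s3 t 3 14 1 = true := ex3_a t21_B00pm_011_s3 k19_B00pm_011_s3

theorem t23_B00pm_011_s3 : ∃ t, chk3 f_B00pm_011_s3 t 3 7 1 = true := ex3_b t22_B00pm_011_s3 k20_B00pm_011_s3

theorem t24_B00pm_011_s3 : ∃ t, chk3 f_B00pm_011_s3 t 3 3 1 = true := ex3_b k16_B00pm_011_s3 t23_B00pm_011_s3

theorem t25_B00pm_011_s3 : ∃ t, chk3 f_B00pm_011_s3 t 5 7 1 = true := ex3_b k14_B00pm_011_s3 k15_B00pm_011_s3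

theorem t26_B00pm_011_s3 : ∃ t, chk3 f_B00pm_011_s3 t 9 31 1 = true := ex3_b k12_B00pm_011_s3 k13_B00pm_011_s3

theorem t27_B00pm_011_s3 : ∃ t, chk3 f_B00pm_011_s3 t 9 15 1 = true := ex3_b k11_B00pm_011_s3 t26_B00pm_011_s3

theorem t28_B00pm_011_s3 : ∃ t, chk3 f_B00pm_011_s3 t 17 63 1 = true := ex3_b k9_B00pm_011_s3 k10_B00pm_011_s3

theorem t29_B00pm_011_s3 : ∃ t, chk3 f_B00pm_011_s3 t 17 31 1 = true := ex3_b k8_B00pm_011_s3 t28_B00pm_011_s3

theorem t30_B00pm_011_s3 : ∃ t, chk3 f_B00pm_011_s3 t 33 63 1 = true := ex3_b k6_B00pm_011_s3 k7_B00pm_011_s3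

theorem t31_B00pm_011_s3 : ∃ t, chk3 f_B00pm_011_s3 t 16 63 1 = true := ex3_a k5_B00pm_011_s3 t30_B00pm_011_s3

theorem t32_B00pm_011_s3 : ∃ t, chk3 f_B00pm_011_s3 t 16 31 1 = true := ex3_b k4_B00pm_011_s3 t31_B00pm_011_s3

theorem t33_B00pm_011_s3 : ∃ t, chk3 f_B00pm_011_s3 t 8 31 1 = true := ex3_a t32_B00pm_011_s3 t29_B00pm_011_s3

theorem t34_B00pm_011_s3 : ∃ t, chk3 f_B00pm_011_s3 t 8 15 1 = true := ex3_b k3_B00pm_011_s3 t33_B00pm_011_s3

theorem t35_B00pm_011_s3 : ∃ t, chk3 f_B00pm_011_s3 t 4 15 1 = true := ex3_a t34_B00pm_011_s3 t27_B00pm_011_s3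

theorem t36_B00pm_011_s3 : ∃ t, chk3 f_B00pm_011_s3 t 4 7 1 = true := ex3_b k2_B00pm_011_s3 t35_B00pm_011_s3

theorem t37_B00pm_011_s3 : ∃ t, chk3 f_B00pm_011_s3 t 2 7 1 = true := ex3_a t36_B00pm_011_s3 t25_B00pm_011_s3

theorem t38_B00pm_011_s3 : ∃ t, chk3 f_B00pm_011_s3 t 2 3 1 = true := ex3_b k1_B00pm_011_s3 t37_B00pm_011_s3

theorem t39_B00pm_011_s3 : ∃ t, chk3 f_B00pm_011_s3 t 1 3 1 = true := ex3_a t38_B00pm_011_s3 t24_B00pm_011_s3

theorem t40_B00pm_011_s3 : ∃ t, chk3 f_B00pm_011_s3 t 1 1 1 = true := ex3_b k0_B00pm_011_s3 t39_B00pm_011_s3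

theorem c_B00pm_011_s3 : CertF 0 536870912 536870912 536870912 1045395039 1503240 false true false .pnn 0 1 1
    ndB0q0 ndB0q1 pcB1 cut_B00pm_011_s3 xt_B00pm_011_s3 :=
  certF0 (fam := false) (s1 := true) (s2 := false) (a := 0) (b := 1) (c := 1) (cn := .pnn) (n1 := ndB0q0) (n2 := ndB0q1) (pc := pcB1) (cut := cut_B00pm_011_s3) (xt := xt_B00pm_011_s3) (P1 := 0) (W1 := 536870912) (P2 := 536870912) (W2 := 536870912) (P3 := 1045395039) (W3 := 1503240)
    rfl t40_B00pm_011_s3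

theorem s_B00pm_011_s3 {κ x : ℝ} (hκ : κ * h0 = ken x) (hx : ((1045395039 : ℕ) : ℝ) / S ≤ x)
    (hx' : x ≤ (((1045395039 : ℕ) : ℝ) + (1503240 : ℕ)) / S)
    (H : CutB (VFD κ) PP tK tL pcB (Cut.of [[⟨0, 0, 0, 16777216⟩, ⟨1, 1, 0, 16777216⟩, ⟨2, 1, 0, 16777216⟩]]) 0 1 1 0 0 (sgb true) (sgb false) x) :
    AltB (VFD κ) PP tK tL pcB [⟨4, 0, 0, 2845415833⟩] 0 1 1 0 0 (sgb true) (sgb false) x :=
  strip_altBD (m := 2845415833) false rfl hκ (SH.κ0 hκ (SH.hx1 hx).le (SH.hx2 hx').le) (SH.hx1 hx).le (SH.hx2 hx') (covB00).cov (covB01).cov hx hx' c_B00pm_011_s3 H ((okx hx hx').extB (T := tt) (sideB hx hx') hκ rfl rfl (.O 0 true) (.O 1 false) (Or.inr rfl))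

noncomputable def cut_B00pm_012_s1 : Cut := Cut.of [[⟨4, 0, 0, 1449551462⟩], [⟨0, 0, 0, 26843545⟩, ⟨1, 1, 0, 26843545⟩, ⟨2, 1, 0, 26843545⟩]]

noncomputable def xt_B00pm_012_s1 : Ext := strExt dd false true false .u0 .u2 .u0m .pnp 0 1 2 rfl rfl gf1 vv ndB0q0 ndB0q2

noncomputable def f_B00pm_012_s1 : ℕ → ℕ → ℕ → ℕ → Bool := onCell 0 536870912 0 536870912 1045395039 1503240
    (rowF 0 false true false .pnp 0 1 2 (qsf 0 536870912 0 536870912 1) ndB0q0 ndB0q2 pcB1 cut_B00pm_012_s1 xt_B00pm_012_s1)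

def k0_B00pm_012_s1 : ∃ t, chk3 f_B00pm_012_s1 t 1 1 1 = true :=
  ⟨(a (l 6) (b (a (b (a (l 6) (a (l 6) (b (l 16477040) (l 6)))) (l 6)) (b (a (b (a (l 16486488) (b (a (l 16508152) (b (l 16525080) (l 16501456))) (l 16473960))) (l 6)) (b (a (b (a (l 16523728) (l 16539104)) (a (l 16478392) (b (l 16494848) (l 16471720)))) (b (l 530231567) (a (b (l 16511184) (l 16479984)) (l 16514144)))) (a (l 16428056) (b (a (l 16449840) (b (a (l 16461696) (l 16468496)) (l 16443912))) (l 16418552))))) (l 6))) (l 6))), by decide +kernel⟩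

theorem c_B00pm_012_s1 : CertF 0 536870912 0 536870912 1045395039 1503240 false true false .pnp 0 1 2
    ndB0q0 ndB0q2 pcB1 cut_B00pm_012_s1 xt_B00pm_012_s1 :=
  certF0 (fam := false) (s1 := true) (s2 := false) (a := 0) (b := 1) (c := 2) (cn := .pnp) (n1 := ndB0q0) (n2 := ndB0q2) (pc := pcB1) (cut := cut_B00pm_012_s1) (xt := xt_B00pm_012_s1) (P1 := 0) (W1 := 536870912) (P2 := 0) (W2 := 536870912) (P3 := 1045395039) (W3 := 1503240)
    rfl k0_B00pm_012_s1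

theorem s_B00pm_012_s1 {κ x : ℝ} (hκ : κ * h0 = ken x) (hx : ((1045395039 : ℕ) : ℝ) / S ≤ x)
    (hx' : x ≤ (((1045395039 : ℕ) : ℝ) + (1503240 : ℕ)) / S)
    (H : CutB (VFD κ) PP tK tL pcB (Cut.of [[⟨0, 0, 0, 26843545⟩, ⟨1, 1, 0, 26843545⟩, ⟨2, 1, 0, 26843545⟩]]) 0 1 2 0 0 (sgb true) (sgb false) x) :
    AltB (VFD κ) PP tK tL pcB [⟨3, 0, 0, 1449551462⟩] 0 1 2 0 0 (sgb true) (sgb false) x :=
  strip_altBD (m := 1449551462) true rfl hκ (SH.κ0 hκ (SH.hx1 hx).le (SH.hx2 hx').le) (SH.hx1 hx).le (SH.hx2 hx') (covB00).cov (covB02).cov hx hx' c_B00pm_012_s1 H ((okx hx hx').extB (T := tt) (sideB hx hx') hκ rfl rfl (.O 0 true) (.O 2 false) (Or.inr rfl))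

noncomputable def cut_B00pm_012_s3 : Cut := Cut.of [[⟨3, 0, 0, 2845415833⟩], [⟨0, 0, 0, 26843545⟩, ⟨1, 1, 0, 26843545⟩, ⟨2, 1, 0, 26843545⟩]]

noncomputable def f_B00pm_012_s3 : ℕ → ℕ → ℕ → ℕ → Bool := onCell 536870912 536870912 0 536870912 1045395039 1503240
    (rowF 2 false true false .pnp 0 1 2 (qsf 0 536870912 0 536870912 1) ndB0q0 ndB0q2 pcB1 cut_B00pm_012_s3 Ext.none)

def k0_B00pm_012_s3 : ∃ t, chk3 f_B00pm_012_s3 t 2 1 1 = true :=
  ⟨(b (l 6) (b (l 6) (l 6))), by decide +kernel⟩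

def k1_B00pm_012_s3 : ∃ t, chk3 f_B00pm_012_s3 t 3 2 1 = true :=
  ⟨(l 6), by decide +kernel⟩

def k2_B00pm_012_s3 : ∃ t, chk3 f_B00pm_012_s3 t 6 3 1 = true :=
  ⟨(b (l 6) (b (l 6) (b (a (l 6) (a (l 16541024) (l 16476776))) (a (b (l 16469208) (l 16362696)) (b (a (l 16507280) (l 16453152)) (a (l 16495416) (l 16532752))))))), by decide +kernel⟩

def k3_B00pm_012_s3 : ∃ t, chk3 f_B00pm_012_s3 t 7 6 1 = true :=
  ⟨(l 6), by decide +kernel⟩

def k4_B00pm_012_s3 : ∃ t, chk3 f_B00pm_012_s3 t 14 7 1 = true :=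
  ⟨(b (b (l 6) (a (a (l 6) (l 16553504)) (a (b (l 6) (l 16585672)) (b (l 16472568) (b (l 16586936) (l 16607928)))))) (b (a (a (l 16493440) (b (l 16596568) (l 16583960))) (a (b (l 16524672) (a (l 16594784) (l 16602152))) (b (a (l 16617496) (l 16581112)) (a (l 16609072) (b (l 16616728) (l 16614896)))))) (b (a (a (l 16561664) (b (l 16578736) (l 16579192))) (a (b (l 16595592) (a (l 16592872) (l 16601576))) (b (a (l 16607376) (l 16615192)) (a (l 16610192) (l 16608408))))) (a (a (l 16563464) (b (l 16582608) (l 16585304))) (a (b (l 16581168) (a (l 16600800) (l 16611080))) (b (a (l 16616312) (l 16626032)) (a (l 16621520) (l 16632304)))))))), by decide +kernel⟩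

def k5_B00pm_012_s3 : ∃ t, chk3 f_B00pm_012_s3 t 15 14 1 = true :=
  ⟨(a (b (b (l 6) (a (l 6) (b (l 16531176) (l 16550816)))) (a (b (b (l 16558248) (l 16536032)) (a (l 16574624) (b (l 16601880) (l 16539256)))) (b (b (a (l 16567352) (l 16573856)) (a (l 16587520) (l 16594000))) (a (b (l 16566368) (l 16608552)) (b (b (l 16609512) (l 16619976)) (a (l 16592304) (l 16595360))))))) (b (b (a (b (l 6) (l 16524648)) (b (l 16518336) (l 16537704))) (a (a (l 16508800) (b (l 16547560) (l 16567128))) (a (b (l 16553960) (l 16573312)) (b (l 16560048) (l 16579040))))) (a (b (b (a (l 16580352) (l 16586656)) (a (l 16579400) (b (l 16601472) (l 16611480)))) (b (a (a (l 16577440) (l 16580440)) (a (l 16604296) (l 16607056))) (a (a (l 16619288) (l 16622120)) (a (b (l 16640664) (l 16609008)) (b (l 16643240) (l 16611416)))))) (b (b (a (l 16571648) (b (l 16593184) (l 16602544))) (a (b (l 16607144) (l 16616952)) (b (l 16612000) (l 16621480))))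 (b (a (a (l 16609600) (l 16611904)) (a (l 16624384) (b (l 16631856) (l 16641280)))) (a (b (a (l 16645568) (l 16647584)) (a (l 16613568) (l 16615384))) (a (b (l 16649288) (l 16637872)) (b (l 16650680) (l 16639064))))))))), by decide +kernel⟩

def k6_B00pm_012_s3 : ∃ t, chk3 f_B00pm_012_s3 t 30 15 1 = true :=
  ⟨(b (a (b (a (b (l 16630656) (l 16626072)) (b (l 16635560) (l 16631688))) (a (b (l 16623040) (l 16621992)) (b (l 16629464) (l 16629320)))) (b (a (b (l 16630040) (a (l 16636000) (l 16638984))) (b (b (l 16625512) (l 16624072)) (a (l 16642072) (l 16645296)))) (b (a (a (l 16634456) (l 16637928)) (a (l 16641544) (l 16645312))) (a (l 16631760) (a (l 16643272) (l 16647744)))))) (b (b (a (a (l 16623168) (l 16631504)) (a (l 16640384) (l 16629224))) (a (a (b (l 16625856) (l 16629528)) (b (l 16634968) (l 16639288))) (a (b (l 16644880) (l 16649896)) (b (l 16655864) (l 16661736))))) (a (b (a (l 16636168) (l 16646928))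 (a (b (l 16641832) (l 16645200)) (b (l 16653736) (l 16657824)))) (b (a (l 16648264) (b (l 16668520) (l 16675016))) (a (b (l 16666776) (l 16671736)) (b (l 16681160) (l 16686960))))))), by decide +kernel⟩

def k7_B00pm_012_s3 : ∃ t, chk3 f_B00pm_012_s3 t 31 30 1 = true :=
  ⟨(a (b (a (b (a (l 16628992) (l 16642472)) (a (l 16648672) (l 16652288))) (b (a (l 16645688) (l 16649168)) (a (l 16656168) (l 16655136)))) (b (a (a (l 16649352) (l 16653648)) (a (l 16658280) (l 16657992))) (a (a (l 16652472) (l 16657552)) (a (l 16662952) (l 16668672))))) (b (a (b (a (b (l 16621400) (l 16663584)) (b (l 16625064) (l 16646912))) (a (b (l 16664312) (l 16665544)) (b (l 16668976) (l 16670584)))) (b (b (a (l 16647344) (b (l 16667008) (l 16650648))) (a (l 16651536) (a (l 16634240) (l 16636680)))) (a (a (l 16663120) (l 16665792)) (b (a (l 16677920) (l 16659688)) (a (l 16680184) (l 16672592)))))) (a (b (a (b (l 16667328) (l 16669744))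 (b (l 16672744) (l 16675544))) (a (l 16653760) (b (a (l 16677464) (l 16680544)) (l 16672776)))) (b (a (b (a (l 16677016) (l 16679784)) (a (l 16679976) (l 16683280))) (b (a (l 16683000) (l 16676032)) (a (l 16686848) (l 16670048)))) (a (b (a (l 16683976) (l 16687744)) (a (l 16689072) (l 16693640))) (b (a (l 16692112) (l 16676080)) (a (l 16677744) (l 14)))))))), by decide +kernel⟩

def k8_B00pm_012_s3 : ∃ t, chk3 f_B00pm_012_s3 t 31 31 1 = true :=
  ⟨(a (b (a (b (a (l 16658368) (l 16664232)) (b (l 16668160) (l 16674872))) (b (a (l 16670424) (b (l 16674552) (l 16679024))) (b (a (l 16678232) (l 16674832)) (a (l 16674896) (a (l 16691376) (l 16695752)))))) (a (b (a (l 16682552) (b (l 16686224) (l 16693704))) (b (a (l 16692576) (l 16690928)) (a (l 16688824) (b (l 16707152) (l 16711224))))) (a (b (b (l 16693984) (a (l 16700352) (l 16705160))) (b (a (l 16708904) (l 16714688)) (b (l 16718664) (l 14)))) (b (b (l 16692832)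 (a (l 16710608) (l 16716432))) (l 14))))) (b (a (b (a (b (l 16670568) (l 16686640)) (b (a (l 16686680) (l 16690848)) (a (l 16693072) (l 16698056)))) (b (a (a (l 16691392) (l 16696128)) (b (l 16680744) (l 16685456))) (a (a (l 16700728) (l 16706208)) (l 14)))) (b (a (b (a (l 16695616) (l 16700840)) (a (l 16703424) (l 14))) (l 14)) (l 14))) (a (a (b (b (a (l 16711624) (l 14)) (l 14)) (l 14)) (l 14)) (l 14)))), by decide +kernel⟩

theorem t9_B00pm_012_s3 : ∃ t, chk3 f_B00pm_012_s3 t 31 15 1 = true := ex3_b k7_B00pm_012_s3 k8_B00pm_012_s3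

theorem t10_B00pm_012_s3 : ∃ t, chk3 f_B00pm_012_s3 t 15 15 1 = true := ex3_a k6_B00pm_012_s3 t9_B00pm_012_s3

theorem t11_B00pm_012_s3 : ∃ t, chk3 f_B00pm_012_s3 t 15 7 1 = true := ex3_b k5_B00pm_012_s3 t10_B00pm_012_s3

theorem t12_B00pm_012_s3 : ∃ t, chk3 f_B00pm_012_s3 t 7 7 1 = true := ex3_a k4_B00pm_012_s3 t11_B00pm_012_s3

theorem t13_B00pm_012_s3 : ∃ t, chk3 f_B00pm_012_s3 t 7 3 1 = true := ex3_b k3_B00pm_012_s3 t12_B00pm_012_s3

theorem t14_B00pm_012_s3 : ∃ t, chk3 f_B00pm_012_s3 t 3 3 1 = true := ex3_a k2_B00pm_012_s3 t13_B00pm_012_s3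

theorem t15_B00pm_012_s3 : ∃ t, chk3 f_B00pm_012_s3 t 3 1 1 = true := ex3_b k1_B00pm_012_s3 t14_B00pm_012_s3

theorem t16_B00pm_012_s3 : ∃ t, chk3 f_B00pm_012_s3 t 1 1 1 = true := ex3_a k0_B00pm_012_s3 t15_B00pm_012_s3

theorem c_B00pm_012_s3 : CertF 0 536870912 0 536870912 1045395039 1503240 false true false .pnp 0 1 2
    ndB0q0 ndB0q2 pcB1 cut_B00pm_012_s3 Ext.none :=
  certF2 (fam := false) (s1 := true) (s2 := false) (a := 0) (b := 1) (c := 2) (cn := .pnp) (n1 := ndB0q0) (n2 := ndB0q2) (pc := pcB1) (cut := cut_B00pm_012_s3) (xt := Ext.none) (P1 := 0) (W1 := 536870912) (P2 := 0) (W2 := 536870912) (P3 := 1045395039) (W3 := 1503240)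
    rfl (fun _ => rfl) t16_B00pm_012_s3

theorem s_B00pm_012_s3 {κ x : ℝ} (hκ : κ * h0 = ken x) (hx : ((1045395039 : ℕ) : ℝ) / S ≤ x)
    (hx' : x ≤ (((1045395039 : ℕ) : ℝ) + (1503240 : ℕ)) / S)
    (H : CutB (VFD κ) PP tK tL pcB (Cut.of [[⟨0, 0, 0, 26843545⟩, ⟨1, 1, 0, 26843545⟩, ⟨2, 1, 0, 26843545⟩]]) 0 1 2 0 0 (sgb true) (sgb false) x) :
    AltB (VFD κ) PP tK tL pcB [⟨4, 0, 0, 2845415833⟩] 0 1 2 0 0 (sgb true) (sgb false) x :=
  strip_altBD (m := 2845415833) false rfl hκ (SH.κ0 hκ (SH.hx1 hx).le (SH.hx2 hx').le) (SH.hx1 hx).le (SH.hx2 hx') (covB00).cov (covB02).cov hx hx' c_B00pm_012_s3 H (noExt_B)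

noncomputable def cut_B00pm_022_s1 : Cut := Cut.of [[⟨4, 0, 0, 1449551462⟩], [⟨0, 0, 0, 26843545⟩, ⟨1, 1, 0, 26843545⟩, ⟨2, 1, 0, 26843545⟩]]

noncomputable def f_B00pm_022_s1 : ℕ → ℕ → ℕ → ℕ → Bool := onCell 1073741824 536870912 0 536870912 1045395039 1503240
    (rowF 2 false true false .pp 0 2 2 (qsf 0 536870912 0 536870912 2) ndB0q0 ndB0q2 pcB2 cut_B00pm_022_s1 Ext.none)

def k0_B00pm_022_s1 : ∃ t, chk3 f_B00pm_022_s1 t 1 1 1 = true :=
  ⟨(l 6), by decide +kernel⟩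

theorem c_B00pm_022_s1 : CertF 0 536870912 0 536870912 1045395039 1503240 false true false .pp 0 2 2
    ndB0q0 ndB0q2 pcB2 cut_B00pm_022_s1 Ext.none :=
  certF2 (fam := false) (s1 := true) (s2 := false) (a := 0) (b := 2) (c := 2) (cn := .pp) (n1 := ndB0q0) (n2 := ndB0q2) (pc := pcB2) (cut := cut_B00pm_022_s1) (xt := Ext.none) (P1 := 0) (W1 := 536870912) (P2 := 0) (W2 := 536870912) (P3 := 1045395039) (W3 := 1503240)
    rfl (fun _ => rfl) k0_B00pm_022_s1

theorem s_B00pm_022_s1 {κ x : ℝ} (hκ : κ * h0 = ken x) (hx : ((1045395039 : ℕ) : ℝ) / S ≤ x)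
    (hx' : x ≤ (((1045395039 : ℕ) : ℝ) + (1503240 : ℕ)) / S)
    (H : CutB (VFD κ) PP tK tL pcB (Cut.of [[⟨0, 0, 0, 26843545⟩, ⟨1, 1, 0, 26843545⟩, ⟨2, 1, 0, 26843545⟩]]) 0 2 2 0 0 (sgb true) (sgb false) x) :
    AltB (VFD κ) PP tK tL pcB [⟨3, 0, 0, 1449551462⟩] 0 2 2 0 0 (sgb true) (sgb false) x :=
  strip_altBD (m := 1449551462) true rfl hκ (SH.κ0 hκ (SH.hx1 hx).le (SH.hx2 hx').le) (SH.hx1 hx).le (SH.hx2 hx') (covB00).cov (covB02).cov hx hx' c_B00pm_022_s1 H (noExt_B)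

noncomputable def cut_B00pm_022_s3 : Cut := Cut.of [[⟨3, 0, 0, 2845415833⟩], [⟨0, 0, 0, 26843545⟩, ⟨1, 1, 0, 26843545⟩, ⟨2, 1, 0, 26843545⟩]]

noncomputable def f_B00pm_022_s3 : ℕ → ℕ → ℕ → ℕ → Bool := onCell 0 536870912 0 536870912 1045395039 1503240
    (rowF 0 false true false .pp 0 2 2 (qsf 0 536870912 0 536870912 2) ndB0q0 ndB0q2 pcB2 cut_B00pm_022_s3 Ext.none)

def k0_B00pm_022_s3 : ∃ t, chk3 f_B00pm_022_s3 t 2 2 1 = true :=
  ⟨(l 6), by decide +kernel⟩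

def k1_B00pm_022_s3 : ∃ t, chk3 f_B00pm_022_s3 t 4 6 1 = true :=
  ⟨(b (l 6) (a (a (b (a (l 16163832) (l 16135144)) (a (b (l 16186048) (l 16209224)) (b (l 16167752) (a (l 16201016) (l 16194784))))) (b (l 6) (a (b (l 16138528) (l 16176648)) (b (l 6) (l 16134536))))) (a (b (l 6) (l 6)) (l 6)))), by decide +kernel⟩

def k2_B00pm_022_s3 : ∃ t, chk3 f_B00pm_022_s3 t 4 7 1 = true :=
  ⟨(a (b (a (b (a (b (a (l 16241800) (l 16238416)) (a (l 16279288) (a (l 16278720) (l 16279376)))) (b (a (l 16236568) (l 16236016)) (a (b (l 16269944) (l 16295560)) (l 16285768)))) (a (b (a (b (a (l 16313000) (l 16313712)) (a (l 16254736) (l 16340824))) (b (l 16316872) (l 16346208))) (a (b (a (l 16368176) (l 16371776)) (a (a (l 16400312) (l 16402808)) (l 16407008))) (b (a (l 16376664) (l 16381728)) (a (l 16412560) (l 16417992))))) (a (b (b (l 16323968) (l 16355136)) (b (l 16389240) (l 16425336))) (b (l 16303048) (b (l 16394896) (l 16430912))))))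 (b (a (b (l 16138048) (l 16275576)) (b (l 16183536) (l 16238120))) (a (b (a (l 16340592) (l 16328304)) (a (l 16408248) (l 16395912))) (b (a (l 16309880) (l 16285616)) (a (l 16377392) (l 1)))))) (b (b (a (a (a (b (a (b (l 16429464) (l 16449096)) (b (l 16435464) (l 16455320))) (a (b (l 16469336) (l 16490296)) (l 16485920))) (b (a (l 16451080) (l 16456288)) (a (l 16491480) (l 16496544)))) (a (b (l 16463504) (a (l 16501128) (l 16505312))) (b (l 16468872) (l 16508576)))) (a (a (b (l 16464200) (l 16503576)) (l 1)) (l 1))) (a (b (a (a (a (b (l 16511592) (l 16533272)) (b (l 16517536) (l 16539104))) (a (l 16533632) (l 16538488))) (a (a (l 16542864) (l 16546832)) (l 16507832))) (a (l 14) (a (l 14) (l 16550096)))) (l 1))) (a (a (l 14) (a (l 14) (l 1))) (l 1)))) (b (a (b (a (b (l 16123064) (l 16178784)) (l 1)) (l 1)) (l 1)) (l 1))), by decide +kernel⟩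

def k3_B00pm_022_s3 : ∃ t, chk3 f_B00pm_022_s3 t 5 3 1 = true :=
  ⟨(b (l 1) (l 1)), by decide +kernel⟩

def k4_B00pm_022_s3 : ∃ t, chk3 f_B00pm_022_s3 t 3 1 1 = true :=
  ⟨(l 1), by decide +kernel⟩

theorem t5_B00pm_022_s3 : ∃ t, chk3 f_B00pm_022_s3 t 4 3 1 = true := ex3_b k1_B00pm_022_s3 k2_B00pm_022_s3

theorem t6_B00pm_022_s3 : ∃ t, chk3 f_B00pm_022_s3 t 2 3 1 = true := ex3_a t5_B00pm_022_s3 k3_B00pm_022_s3

theorem t7_B00pm_022_s3 : ∃ t, chk3 f_B00pm_022_s3 t 2 1 1 = true := ex3_b k0_B00pm_022_s3 t6_B00pm_022_s3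

theorem t8_B00pm_022_s3 : ∃ t, chk3 f_B00pm_022_s3 t 1 1 1 = true := ex3_a t7_B00pm_022_s3 k4_B00pm_022_s3

theorem c_B00pm_022_s3 : CertF 0 536870912 0 536870912 1045395039 1503240 false true false .pp 0 2 2
    ndB0q0 ndB0q2 pcB2 cut_B00pm_022_s3 Ext.none :=
  certF0 (fam := false) (s1 := true) (s2 := false) (a := 0) (b := 2) (c := 2) (cn := .pp) (n1 := ndB0q0) (n2 := ndB0q2) (pc := pcB2) (cut := cut_B00pm_022_s3) (xt := Ext.none) (P1 := 0) (W1 := 536870912) (P2 := 0) (W2 := 536870912) (P3 := 1045395039) (W3 := 1503240)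
    rfl t8_B00pm_022_s3

theorem s_B00pm_022_s3 {κ x : ℝ} (hκ : κ * h0 = ken x) (hx : ((1045395039 : ℕ) : ℝ) / S ≤ x)
    (hx' : x ≤ (((1045395039 : ℕ) : ℝ) + (1503240 : ℕ)) / S)
    (H : CutB (VFD κ) PP tK tL pcB (Cut.of [[⟨0, 0, 0, 26843545⟩, ⟨1, 1, 0, 26843545⟩, ⟨2, 1, 0, 26843545⟩]]) 0 2 2 0 0 (sgb true) (sgb false) x) :
    AltB (VFD κ) PP tK tL pcB [⟨4, 0, 0, 2845415833⟩] 0 2 2 0 0 (sgb true) (sgb false) x :=
  strip_altBD (m := 2845415833) false rfl hκ (SH.κ0 hκ (SH.hx1 hx).le (SH.hx2 hx').le) (SH.hx1 hx).le (SH.hx2 hx') (covB00).cov (covB02).cov hx hx' c_B00pm_022_s3 H (noExt_B)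

noncomputable def cut_B00pm_101_s1 : Cut := Cut.of [[⟨4, 0, 0, 1116691496⟩], [⟨0, 1, 0, 8388608⟩, ⟨1, 0, 0, 8388608⟩, ⟨2, 1, 0, 8388608⟩], [⟨0, 0, 1, 46137344⟩, ⟨1, 1, 2, 46137344⟩, ⟨2, 1, 0, 1048576⟩, ⟨0, 0, 0, 1056440320⟩, ⟨0, 1, 0, 33457795⟩, ⟨1, 0, 0, 33457795⟩, ⟨1, 1, 0, 1056440320⟩]]

noncomputable def f_B00pm_101_s1 : ℕ → ℕ → ℕ → ℕ → Bool := onCell 0 536870912 536870912 536870912 1045395039 1503240
    (rowF 2 false true false .npn 1 0 1 (qsf 536870912 536870912 536870912 536870912 0) ndB0q1 ndB0q1 pcB0 cut_B00pm_101_s1 Ext.none)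

def k0_B00pm_101_s1 : ∃ t, chk3 f_B00pm_101_s1 t 2 2 1 = true :=
  ⟨(l 6), by decide +kernel⟩

def k1_B00pm_101_s1 : ∃ t, chk3 f_B00pm_101_s1 t 4 6 1 = true :=
  ⟨(l 6), by decide +kernel⟩

def k2_B00pm_101_s1 : ∃ t, chk3 f_B00pm_101_s1 t 8 14 1 = true :=
  ⟨(l 6), by decide +kernel⟩

def k3_B00pm_101_s1 : ∃ t, chk3 f_B00pm_101_s1 t 16 30 1 = true :=
  ⟨(l 6), by decide +kernel⟩

def k4_B00pm_101_s1 : ∃ t, chk3 f_B00pm_101_s1 t 32 62 1 = true :=
  ⟨(l 6), by decide +kernel⟩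

def k5_B00pm_101_s1 : ∃ t, chk3 f_B00pm_101_s1 t 32 126 1 = true :=
  ⟨(l 6), by decide +kernel⟩

def k6_B00pm_101_s1 : ∃ t, chk3 f_B00pm_101_s1 t 32 254 1 = true :=
  ⟨(a (b (b (l 6) (a (a (a (a (l 14) (l 16779864)) (a (l 16782216) (l 16784552))) (l 6)) (l 6))) (a (a (a (l 14) (b (b (l 16773112) (l 14)) (l 14))) (b (a (b (l 16777432) (l 16777248)) (b (l 6) (l 16769912))) (a (a (l 14) (l 16777760)) (a (l 16778608) (l 16777728))))) (a (b (l 6) (a (a (l 16776848) (l 16786464)) (a (l 16785592) (l 16784728)))) (l 6)))) (l 6)), by decide +kernel⟩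

def k7_B00pm_101_s1 : ∃ t, chk3 f_B00pm_101_s1 t 32 255 1 = true :=
  ⟨(a (b (a (a (l 14) (b (b (a (l 14) (l 16776096)) (l 14)) (l 14))) (a (b (a (a (l 16774464) (l 16784296)) (a (l 16783640) (l 16782984))) (a (b (l 16783112) (l 14)) (b (l 16782120) (l 16781416)))) (a (b (a (l 16782328) (l 16781680)) (a (l 16781088) (l 16780640))) (b (b (l 6) (l 16780488)) (a (l 16780184) (l 16779728)))))) (a (l 14) (a (b (a (l 14) (a (l 14) (b (l 16780640) (l 14)))) (l 14)) (b (a (b (l 16780200) (a (l 16779944) (l 16779744))) (a (l 16779632) (l 16779376))) (a (b (a (l 14) (l 16779512)) (l 14)) (b (a (l 16779408) (l 16779296)) (a (l 16779352) (l 16779336)))))))) (a (b (b (l 6) (a (b (a (a (l 16779360) (l 16778864)) (l 6)) (a (l 16779000) (a (l 16778400) (l 16777968)))) (l 6))) (a (b (a (a (l 16779112) (l 16778848)) (a (b (l 16778496) (l 16778672)) (b (l 16778184) (l 16778448)))) (a (b (a (l 16779176) (l 16779056)) (a (l 16779312)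 (l 16779288))) (b (a (l 16778920) (l 16778792)) (a (l 16779248) (l 16779200))))) (a (b (a (b (l 16777848) (l 16778224)) (a (l 16777800) (l 16777096))) (a (b (l 16778648) (l 16779152)) (a (b (l 16778552) (l 16779112)) (b (l 16777880) (l 16778448))))) (b (b (l 6) (a (l 16775432) (l 16772832))) (b (a (l 16775944) (l 16770736)) (a (l 16771248) (a (l 16774544) (l 16773240)))))))) (a (b (l 6) (b (l 6) (b (a (a (c (l 16770728) (l 16770744)) (c (l 16768072) (l 16765448))) (l 6)) (b (a (a (l 16771144) (l 16765864)) (a (c (l 16765784) (l 16765800)) (l 6))) (a (a (l 16771416) (c (l 16768736) (l 16768792))) (a (c (l 16766064) (l 16763480)) (a (l 16764032) (c (l 16762648) (l 16762664))))))))) (l 6)))), by decide +kernel⟩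

def k8_B00pm_101_s1 : ∃ t, chk3 f_B00pm_101_s1 t 33 31 1 = true :=
  ⟨(l 6), by decide +kernel⟩

def k9_B00pm_101_s1 : ∃ t, chk3 f_B00pm_101_s1 t 17 15 1 = true :=
  ⟨(l 6), by decide +kernel⟩

def k10_B00pm_101_s1 : ∃ t, chk3 f_B00pm_101_s1 t 9 7 1 = true :=
  ⟨(l 6), by decide +kernel⟩

def k11_B00pm_101_s1 : ∃ t, chk3 f_B00pm_101_s1 t 5 3 1 = true :=
  ⟨(l 6), by decide +kernel⟩

def k12_B00pm_101_s1 : ∃ t, chk3 f_B00pm_101_s1 t 3 1 1 = true :=
  ⟨(l 6), by decide +kernel⟩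

theorem t13_B00pm_101_s1 : ∃ t, chk3 f_B00pm_101_s1 t 32 127 1 = true := ex3_b k6_B00pm_101_s1 k7_B00pm_101_s1

theorem t14_B00pm_101_s1 : ∃ t, chk3 f_B00pm_101_s1 t 32 63 1 = true := ex3_b k5_B00pm_101_s1 t13_B00pm_101_s1

theorem t15_B00pm_101_s1 : ∃ t, chk3 f_B00pm_101_s1 t 32 31 1 = true := ex3_b k4_B00pm_101_s1 t14_B00pm_101_s1

theorem t16_B00pm_101_s1 : ∃ t, chk3 f_B00pm_101_s1 t 16 31 1 = true := ex3_a t15_B00pm_101_s1 k8_B00pm_101_s1

theorem t17_B00pm_101_s1 : ∃ t, chk3 f_B00pm_101_s1 t 16 15 1 = true := ex3_b k3_B00pm_101_s1 t16_B00pm_101_s1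

theorem t18_B00pm_101_s1 : ∃ t, chk3 f_B00pm_101_s1 t 8 15 1 = true := ex3_a t17_B00pm_101_s1 k9_B00pm_101_s1

theorem t19_B00pm_101_s1 : ∃ t, chk3 f_B00pm_101_s1 t 8 7 1 = true := ex3_b k2_B00pm_101_s1 t18_B00pm_101_s1

theorem t20_B00pm_101_s1 : ∃ t, chk3 f_B00pm_101_s1 t 4 7 1 = true := ex3_a t19_B00pm_101_s1 k10_B00pm_101_s1

theorem t21_B00pm_101_s1 : ∃ t, chk3 f_B00pm_101_s1 t 4 3 1 = true := ex3_b k1_B00pm_101_s1 t20_B00pm_101_s1

theorem t22_B00pm_101_s1 : ∃ t, chk3 f_B00pm_101_s1 t 2 3 1 = true := ex3_a t21_B00pm_101_s1 k11_B00pm_101_s1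

theorem t23_B00pm_101_s1 : ∃ t, chk3 f_B00pm_101_s1 t 2 1 1 = true := ex3_b k0_B00pm_101_s1 t22_B00pm_101_s1

theorem t24_B00pm_101_s1 : ∃ t, chk3 f_B00pm_101_s1 t 1 1 1 = true := ex3_a t23_B00pm_101_s1 k12_B00pm_101_s1

theorem c_B00pm_101_s1 : CertF 536870912 536870912 536870912 536870912 1045395039 1503240 false true false .npn 1 0 1
    ndB0q1 ndB0q1 pcB0 cut_B00pm_101_s1 Ext.none :=
  certF2 (fam := false) (s1 := true) (s2 := false) (a := 1) (b := 0) (c := 1) (cn := .npn) (n1 := ndB0q1) (n2 := ndB0q1) (pc := pcB0) (cut := cut_B00pm_101_s1) (xt := Ext.none) (P1 := 536870912) (W1 := 536870912) (P2 := 536870912) (W2 := 536870912) (P3 := 1045395039) (W3 := 1503240)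
    rfl (fun _ => rfl) t24_B00pm_101_s1

theorem s_B00pm_101_s1 {κ x : ℝ} (hκ : κ * h0 = ken x) (hx : ((1045395039 : ℕ) : ℝ) / S ≤ x)
    (hx' : x ≤ (((1045395039 : ℕ) : ℝ) + (1503240 : ℕ)) / S)
    (H : CutB (VFD κ) PP tK tL pcB (Cut.of [[⟨0, 1, 0, 8388608⟩, ⟨1, 0, 0, 8388608⟩, ⟨2, 1, 0, 8388608⟩], [⟨0, 0, 1, 46137344⟩, ⟨1, 1, 2, 46137344⟩, ⟨2, 1, 0, 1048576⟩, ⟨0, 0, 0, 1056440320⟩, ⟨0, 1, 0, 33457795⟩, ⟨1, 0, 0, 33457795⟩, ⟨1, 1, 0, 1056440320⟩]]) 1 0 1 0 0 (sgb true) (sgb false) x) :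
    AltB (VFD κ) PP tK tL pcB [⟨3, 0, 0, 1116691496⟩] 1 0 1 0 0 (sgb true) (sgb false) x :=
  strip_altBD (m := 1116691496) true rfl hκ (SH.κ0 hκ (SH.hx1 hx).le (SH.hx2 hx').le) (SH.hx1 hx).le (SH.hx2 hx') (covB01).cov (covB01).cov hx hx' c_B00pm_101_s1 H (noExt_B)

noncomputable def cut_B00pm_101_s3 : Cut := Cut.of [[⟨3, 0, 0, 2845415833⟩], [⟨0, 1, 0, 8388608⟩, ⟨1, 0, 0, 8388608⟩, ⟨2, 1, 0, 8388608⟩], [⟨0, 0, 1, 46137344⟩, ⟨1, 1, 2, 46137344⟩, ⟨2, 1, 0, 1048576⟩, ⟨0, 0, 0, 1056440320⟩, ⟨0, 1, 0, 33457795⟩, ⟨1, 0, 0, 33457795⟩, ⟨1, 1, 0, 1056440320⟩]]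

noncomputable def xt_B00pm_101_s3 : Ext := strExt dd false true false .u0 .u0m .s0m .npn 1 0 1 rfl rfl gl0 vv ndB0q1 ndB0q1

noncomputable def f_B00pm_101_s3 : ℕ → ℕ → ℕ → ℕ → Bool := onCell 536870912 536870912 0 536870912 1045395039 1503240
    (rowF 1 false true false .npn 1 0 1 (qsf 536870912 536870912 536870912 536870912 0) ndB0q1 ndB0q1 pcB0 cut_B00pm_101_s3 xt_B00pm_101_s3)

def k0_B00pm_101_s3 : ∃ t, chk3 f_B00pm_101_s3 t 1 1 1 = true :=
  ⟨(a (b (a (b (b (a (a (l 4) (b (l 520342287) (l 521925391))) (b (a (l 520582415) (l 520787471)) (a (l 522166543) (l 522379535)))) (a (b (a (l 523243279) (l 523512847)) (a (l 524820495) (l 525218831))) (a (b (l 523754511) (l 525326095)) (b (l 523705871) (l 525551375))))) (a (b (b (a (a (l 526302223) (l 526436111)) (a (l 526564623) (l 526688271))) (a (b (l 527499279) (l 528227343)) (b (l 527751183) (l 528475151)))) (b (b (a (l 528935695) (l 529179407)) (a (l 529621775)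 (l 529860623))) (a (b (l 530283279) (l 530917903)) (a (l 530773007) (l 530886415))))) (b (b (a (a (l 526807823) (l 526924047)) (a (l 527037711) (l 6))) (a (a (l 528287247) (l 528402703)) (l 6))) (a (a (b (l 529690383) (l 6)) (l 6)) (l 6))))) (a (b (b (a (b (l 520962063) (l 522301199)) (b (l 522185231) (l 6))) (a (b (l 523909903) (l 6)) (l 6))) (l 6)) (b (l 6) (l 6)))) (b (a (a (b (b (a (a (l 531485455) (l 531868175)) (a (b (l 16462928) (a (l 16481248) (l 6))) (l 6))) (a (a (l 531663375) (b (a (l 16482584) (l 6)) (l 6))) (l 6))) (b (a (a (b (a (l 16425552) (l 6)) (l 6)) (l 6)) (l 6)) (l 6))) (l 6)) (l 6)) (a (b (l 6) (l 6)) (l 6)))) (b (a (l 6) (l 6)) (l 6))), by decide +kernel⟩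

theorem c_B00pm_101_s3 : CertF 536870912 536870912 536870912 536870912 1045395039 1503240 false true false .npn 1 0 1
    ndB0q1 ndB0q1 pcB0 cut_B00pm_101_s3 xt_B00pm_101_s3 :=
  certF1 (fam := false) (s1 := true) (s2 := false) (a := 1) (b := 0) (c := 1) (cn := .npn) (n1 := ndB0q1) (n2 := ndB0q1) (pc := pcB0) (cut := cut_B00pm_101_s3) (xt := xt_B00pm_101_s3) (P1 := 536870912) (W1 := 536870912) (P2 := 536870912) (W2 := 536870912) (P3 := 1045395039) (W3 := 1503240)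
    rfl (fun _ => rfl) k0_B00pm_101_s3

theorem s_B00pm_101_s3 {κ x : ℝ} (hκ : κ * h0 = ken x) (hx : ((1045395039 : ℕ) : ℝ) / S ≤ x)
    (hx' : x ≤ (((1045395039 : ℕ) : ℝ) + (1503240 : ℕ)) / S)
    (H : CutB (VFD κ) PP tK tL pcB (Cut.of [[⟨0, 1, 0, 8388608⟩, ⟨1, 0, 0, 8388608⟩, ⟨2, 1, 0, 8388608⟩], [⟨0, 0, 1, 46137344⟩, ⟨1, 1, 2, 46137344⟩, ⟨2, 1, 0, 1048576⟩, ⟨0, 0, 0, 1056440320⟩, ⟨0, 1, 0, 33457795⟩, ⟨1, 0, 0, 33457795⟩, ⟨1, 1, 0, 1056440320⟩]]) 1 0 1 0 0 (sgb true) (sgb false) x) :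
    AltB (VFD κ) PP tK tL pcB [⟨4, 0, 0, 2845415833⟩] 1 0 1 0 0 (sgb true) (sgb false) x :=
  strip_altBD (m := 2845415833) false rfl hκ (SH.κ0 hκ (SH.hx1 hx).le (SH.hx2 hx').le) (SH.hx1 hx).le (SH.hx2 hx') (covB01).cov (covB01).cov hx hx' c_B00pm_101_s3 H ((okx hx hx').extB (T := tt) (sideB hx hx') hκ rfl rfl (.O 1 true) (.O 1 false) (Or.inl rfl))

noncomputable def cut_B00pm_102_s3 : Cut := Cut.of [[⟨3, 0, 0, 2845415833⟩], [⟨0, 1, 0, 8388608⟩, ⟨1, 0, 0, 8388608⟩, ⟨2, 1, 0, 8388608⟩], [⟨0, 0, 1, 46137344⟩, ⟨1, 1, 2, 46137344⟩, ⟨2, 1, 0, 1048576⟩, ⟨0, 0, 0, 1056440320⟩, ⟨0, 1, 0, 33457795⟩, ⟨1, 0, 0, 33457795⟩, ⟨1, 1, 0, 1056440320⟩]]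

noncomputable def f_B00pm_102_s3 : ℕ → ℕ → ℕ → ℕ → Bool := onCell 536870912 536870912 0 536870912 1045395039 1503240
    (rowF 0 false true false .npp 1 0 2 (qsf 536870912 536870912 0 536870912 0) ndB0q1 ndB0q2 pcB0 cut_B00pm_102_s3 Ext.none)

def k0_B00pm_102_s3 : ∃ t, chk3 f_B00pm_102_s3 t 1 1 1 = true :=
  ⟨(l 6), by decide +kernel⟩

theorem c_B00pm_102_s3 : CertF 536870912 536870912 0 536870912 1045395039 1503240 false true false .npp 1 0 2
    ndB0q1 ndB0q2 pcB0 cut_B00pm_102_s3 Ext.none :=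
  certF0 (fam := false) (s1 := true) (s2 := false) (a := 1) (b := 0) (c := 2) (cn := .npp) (n1 := ndB0q1) (n2 := ndB0q2) (pc := pcB0) (cut := cut_B00pm_102_s3) (xt := Ext.none) (P1 := 536870912) (W1 := 536870912) (P2 := 0) (W2 := 536870912) (P3 := 1045395039) (W3 := 1503240)
    rfl k0_B00pm_102_s3

theorem s_B00pm_102_s3 {κ x : ℝ} (hκ : κ * h0 = ken x) (hx : ((1045395039 : ℕ) : ℝ) / S ≤ x)
    (hx' : x ≤ (((1045395039 : ℕ) : ℝ) + (1503240 : ℕ)) / S)
    (H : CutB (VFD κ) PP tK tL pcB (Cut.of [[⟨0, 1, 0, 8388608⟩, ⟨1, 0, 0, 8388608⟩, ⟨2, 1, 0, 8388608⟩], [⟨0, 0, 1, 46137344⟩, ⟨1, 1, 2, 46137344⟩, ⟨2, 1, 0, 1048576⟩, ⟨0, 0, 0, 1056440320⟩, ⟨0, 1, 0, 33457795⟩, ⟨1, 0, 0, 33457795⟩, ⟨1, 1, 0, 1056440320⟩]]) 1 0 2 0 0 (sgb true) (sgb false) x) :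
    AltB (VFD κ) PP tK tL pcB [⟨4, 0, 0, 2845415833⟩] 1 0 2 0 0 (sgb true) (sgb false) x :=
  strip_altBD (m := 2845415833) false rfl hκ (SH.κ0 hκ (SH.hx1 hx).le (SH.hx2 hx').le) (SH.hx1 hx).le (SH.hx2 hx') (covB01).cov (covB02).cov hx hx' c_B00pm_102_s3 H (noExt_B)

noncomputable def cut_B00pm_112_s1 : Cut := Cut.of [[⟨4, 0, 0, 1449551462⟩]]

noncomputable def xt_B00pm_112_s1 : Ext := strExt dd false true false .u0 .u2 .u0m .dn 1 1 2 rfl rfl gf1 vv ndB0q1 ndB0q2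

noncomputable def f_B00pm_112_s1 : ℕ → ℕ → ℕ → ℕ → Bool := onCell 536870912 536870912 0 536870912 1045395039 1503240
    (rowF 0 false true false .dn 1 1 2 (qsf 536870912 536870912 0 536870912 1) ndB0q1 ndB0q2 pcB1 cut_B00pm_112_s1 xt_B00pm_112_s1)

def k0_B00pm_112_s1 : ∃ t, chk3 f_B00pm_112_s1 t 4 4 1 = true :=
  ⟨(a (b (a (l 529697295) (l 528698127)) (a (b (a (b (l 16484024) (a (l 16447856) (b (l 16462456) (l 16445768)))) (l 16489072)) (a (l 16423888) (b (a (b (l 16355240) (l 16429632)) (b (l 16447776) (l 16348976))) (l 16419784)))) (b (l 529177871) (a (b (a (l 16450544) (l 16463880)) (a (l 16402432) (b (b (l 16438584) (l 16345648)) (l 16421592)))) (b (l 16485328) (a (b (l 16447336) (b (l 16431784) (l 16381712))) (l 16451488))))))) (b (a (b (l 528875279) (l 528596751)) (b (l 528626703) (l 528338703))) (a (b (l 528529679) (a (l 528763151) (l 528597007))) (b (l 528264207) (a (l 528461071) (l 528089103)))))),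 by decide +kernel⟩

def k1_B00pm_112_s1 : ∃ t, chk3 f_B00pm_112_s1 t 4 5 1 = true :=
  ⟨(b (a (a (b (l 16394224) (l 6)) (b (a (l 16401968) (b (b (a (l 16416648) (b (l 16383584) (l 16376440))) (l 16410944)) (l 16400352))) (l 16373280))) (a (b (a (b (b (l 16442888) (a (a (l 16331120) (b (l 16422176) (l 16414600))) (a (l 16424680) (l 16432656)))) (a (l 16404912) (b (b (a (l 16412480) (l 16374712)) (l 16409720)) (l 16404784)))) (b (l 16423048) (b (a (a (b (l 16424104) (l 16372304)) (l 16426896)) (l 16440040)) (a (a (l 16407280) (b (l 16370128) (l 16407408))) (b (l 16422824) (a (l 16368184) (l 16415824))))))) (a (l 16384696) (b (a (l 16398136) (b (l 16384776) (l 16398784))) (l 16385776)))) (b (a (l 528009487) (l 527904271)) (b (a (b (a (b (a (l 16392560) (l 16422048)) (a (l 16406952) (a (l 16367664) (l 16412800)))) (l 16430304)) (a (l 16403088) (b (a (a (l 16408016) (l 16368848)) (l 16417136)) (a (l 16404728) (b (l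 16367448) (l 16406368)))))) (a (b (l 16449808) (a (l 16420944) (l 16430824))) (l 16458016))) (a (l 16395240) (b (a (b (a (l 16365016) (b (l 16415584) (l 16368344))) (l 16362624)) (a (b (l 16422672) (b (l 16413512) (l 16366936))) (l 16426824))) (a (l 16399512) (b (a (l 16405224) (a (l 16366208) (l 16369560))) (l 16403344))))))))) (a (l 6) (a (b (l 16356304) (l 6)) (b (a (l 16372312) (b (l 16391864) (l 16376496))) (l 16343552))))), by decide +kernel⟩

def k2_B00pm_112_s1 : ∃ t, chk3 f_B00pm_112_s1 t 5 2 1 = true :=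
  ⟨(a (b (b (a (b (l 3) (l 528217615)) (l 1)) (a (b (l 528134159) (a (l 528020751) (b (l 528299791) (l 528218639)))) (l 1))) (a (a (b (b (l 527834383) (b (l 527931151) (a (b (l 16442600) (b (l 16424104) (a (b (l 16368488) (l 16407080)) (l 16417000)))) (l 16451816)))) (b (b (b (a (b (a (l 16404448) (l 16387376)) (l 16402712)) (b (l 49424965847) (a (l 16407840) (l 1)))) (l 118681230791)) (l 16389976)) (l 16364904))) (b (b (l 527801871) (l 527562767)) (l 1))) (l 1))) (l 1)), by decide +kernel⟩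

def k3_B00pm_112_s1 : ∃ t, chk3 f_B00pm_112_s1 t 2 3 1 = true :=
  ⟨(a (b (l 6) (l 6)) (b (l 1) (l 1))), by decide +kernel⟩

def k4_B00pm_112_s1 : ∃ t, chk3 f_B00pm_112_s1 t 3 1 1 = true :=
  ⟨(l 1), by decide +kernel⟩

theorem t5_B00pm_112_s1 : ∃ t, chk3 f_B00pm_112_s1 t 4 2 1 = true := ex3_b k0_B00pm_112_s1 k1_B00pm_112_s1

theorem t6_B00pm_112_s1 : ∃ t, chk3 f_B00pm_112_s1 t 2 2 1 = true := ex3_a t5_B00pm_112_s1 k2_B00pm_112_s1

theorem t7_B00pm_112_s1 : ∃ t, chk3 f_B00pm_112_s1 t 2 1 1 = true := ex3_b t6_B00pm_112_s1 k3_B00pm_112_s1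

theorem t8_B00pm_112_s1 : ∃ t, chk3 f_B00pm_112_s1 t 1 1 1 = true := ex3_a t7_B00pm_112_s1 k4_B00pm_112_s1

theorem c_B00pm_112_s1 : CertF 536870912 536870912 0 536870912 1045395039 1503240 false true false .dn 1 1 2
    ndB0q1 ndB0q2 pcB1 cut_B00pm_112_s1 xt_B00pm_112_s1 :=
  certF0 (fam := false) (s1 := true) (s2 := false) (a := 1) (b := 1) (c := 2) (cn := .dn) (n1 := ndB0q1) (n2 := ndB0q2) (pc := pcB1) (cut := cut_B00pm_112_s1) (xt := xt_B00pm_112_s1) (P1 := 536870912) (W1 := 536870912) (P2 := 0) (W2 := 536870912) (P3 := 1045395039) (W3 := 1503240)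
    rfl t8_B00pm_112_s1

theorem s_B00pm_112_s1 {κ x : ℝ} (hκ : κ * h0 = ken x) (hx : ((1045395039 : ℕ) : ℝ) / S ≤ x)
    (hx' : x ≤ (((1045395039 : ℕ) : ℝ) + (1503240 : ℕ)) / S) :
    AltB (VFD κ) PP tK tL pcB [⟨3, 0, 0, 1449551462⟩] 1 1 2 0 0 (sgb true) (sgb false) x :=
  strip_altBD (m := 1449551462) true rfl hκ (SH.κ0 hκ (SH.hx1 hx).le (SH.hx2 hx').le) (SH.hx1 hx).le (SH.hx2 hx') (covB01).cov (covB02).cov hx hx' c_B00pm_112_s1 cutB_nil ((okx hx hx').extB (T := tt) (sideB hx hx') hκ rfl rfl (.O 1 true) (.O 2 false) (Or.inr rfl))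

noncomputable def cut_B00pm_112_s3 : Cut := Cut.of [[⟨3, 0, 0, 2845415833⟩]]

noncomputable def f_B00pm_112_s3 : ℕ → ℕ → ℕ → ℕ → Bool := onCell 536870912 536870912 0 536870912 1045395039 1503240
    (rowF 0 false true false .dn 1 1 2 (qsf 536870912 536870912 0 536870912 1) ndB0q1 ndB0q2 pcB1 cut_B00pm_112_s3 Ext.none)

def k0_B00pm_112_s3 : ∃ t, chk3 f_B00pm_112_s3 t 1 1 1 = true :=
  ⟨(l 6), by decide +kernel⟩

theorem c_B00pm_112_s3 : CertF 536870912 536870912 0 536870912 1045395039 1503240 false true false .dn 1 1 2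
    ndB0q1 ndB0q2 pcB1 cut_B00pm_112_s3 Ext.none :=
  certF0 (fam := false) (s1 := true) (s2 := false) (a := 1) (b := 1) (c := 2) (cn := .dn) (n1 := ndB0q1) (n2 := ndB0q2) (pc := pcB1) (cut := cut_B00pm_112_s3) (xt := Ext.none) (P1 := 536870912) (W1 := 536870912) (P2 := 0) (W2 := 536870912) (P3 := 1045395039) (W3 := 1503240)
    rfl k0_B00pm_112_s3

theorem s_B00pm_112_s3 {κ x : ℝ} (hκ : κ * h0 = ken x) (hx : ((1045395039 : ℕ) : ℝ) / S ≤ x)
    (hx' : x ≤ (((1045395039 : ℕ) : ℝ) + (1503240 : ℕ)) / S) :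
    AltB (VFD κ) PP tK tL pcB [⟨4, 0, 0, 2845415833⟩] 1 1 2 0 0 (sgb true) (sgb false) x :=
  strip_altBD (m := 2845415833) false rfl hκ (SH.κ0 hκ (SH.hx1 hx).le (SH.hx2 hx').le) (SH.hx1 hx).le (SH.hx2 hx') (covB01).cov (covB02).cov hx hx' c_B00pm_112_s3 cutB_nil (noExt_B)

noncomputable def cut_B00pm_202_s1 : Cut := Cut.of [[⟨4, 0, 0, 1449551462⟩], [⟨0, 1, 0, 26843545⟩, ⟨1, 0, 0, 26843545⟩, ⟨2, 1, 0, 26843545⟩], [⟨0, 0, 1, 46137344⟩, ⟨1, 1, 2, 46137344⟩, ⟨2, 1, 0, 1048576⟩, ⟨0, 0, 0, 1056440320⟩, ⟨0, 1, 0, 33457795⟩, ⟨1, 0, 0, 33457795⟩, ⟨1, 1, 0, 1056440320⟩]]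

noncomputable def f_B00pm_202_s1 : ℕ → ℕ → ℕ → ℕ → Bool := onCell 0 536870912 0 536870912 1045395039 1503240
    (rowF 0 false true false .pp 2 0 2 (qsf 0 536870912 0 536870912 0) ndB0q2 ndB0q2 pcB0 cut_B00pm_202_s1 Ext.none)

def k0_B00pm_202_s1 : ∃ t, chk3 f_B00pm_202_s1 t 1 1 1 = true :=
  ⟨(a (l 3) (b (l 3) (a (l 3) (b (l 3) (a (l 3) (b (l 3) (a (l 3) (b (l 3) (l 14))))))))), by decide +kernel⟩

theorem c_B00pm_202_s1 : CertF 0 536870912 0 536870912 1045395039 1503240 false true false .pp 2 0 2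
    ndB0q2 ndB0q2 pcB0 cut_B00pm_202_s1 Ext.none :=
  certF0 (fam := false) (s1 := true) (s2 := false) (a := 2) (b := 0) (c := 2) (cn := .pp) (n1 := ndB0q2) (n2 := ndB0q2) (pc := pcB0) (cut := cut_B00pm_202_s1) (xt := Ext.none) (P1 := 0) (W1 := 536870912) (P2 := 0) (W2 := 536870912) (P3 := 1045395039) (W3 := 1503240)
    rfl k0_B00pm_202_s1

theorem s_B00pm_202_s1 {κ x : ℝ} (hκ : κ * h0 = ken x) (hx : ((1045395039 : ℕ) : ℝ) / S ≤ x)
    (hx' : x ≤ (((1045395039 : ℕ) : ℝ) + (1503240 : ℕ)) / S)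
    (H : CutB (VFD κ) PP tK tL pcB (Cut.of [[⟨0, 1, 0, 26843545⟩, ⟨1, 0, 0, 26843545⟩, ⟨2, 1, 0, 26843545⟩], [⟨0, 0, 1, 46137344⟩, ⟨1, 1, 2, 46137344⟩, ⟨2, 1, 0, 1048576⟩, ⟨0, 0, 0, 1056440320⟩, ⟨0, 1, 0, 33457795⟩, ⟨1, 0, 0, 33457795⟩, ⟨1, 1, 0, 1056440320⟩]]) 2 0 2 0 0 (sgb true) (sgb false) x) :
    AltB (VFD κ) PP tK tL pcB [⟨3, 0, 0, 1449551462⟩] 2 0 2 0 0 (sgb true) (sgb false) x :=
  strip_altBD (m := 1449551462) true rfl hκ (SH.κ0 hκ (SH.hx1 hx).le (SH.hx2 hx').le) (SH.hx1 hx).le (SH.hx2 hx') (covB02).cov (covB02).cov hx hx' c_B00pm_202_s1 H (noExt_B)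

noncomputable def cut_B00pm_202_s3 : Cut := Cut.of [[⟨3, 0, 0, 2845415833⟩], [⟨0, 1, 0, 26843545⟩, ⟨1, 0, 0, 26843545⟩, ⟨2, 1, 0, 26843545⟩], [⟨0, 0, 1, 46137344⟩, ⟨1, 1, 2, 46137344⟩, ⟨2, 1, 0, 1048576⟩, ⟨0, 0, 0, 1056440320⟩, ⟨0, 1, 0, 33457795⟩, ⟨1, 0, 0, 33457795⟩, ⟨1, 1, 0, 1056440320⟩]]

noncomputable def f_B00pm_202_s3 : ℕ → ℕ → ℕ → ℕ → Bool := onCell 0 536870912 0 536870912 1045395039 1503240
    (rowF 0 false true false .pp 2 0 2 (qsf 0 536870912 0 536870912 0) ndB0q2 ndB0q2 pcB0 cut_B00pm_202_s3 Ext.none)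

def k0_B00pm_202_s3 : ∃ t, chk3 f_B00pm_202_s3 t 1 1 1 = true :=
  ⟨(l 6), by decide +kernel⟩

theorem c_B00pm_202_s3 : CertF 0 536870912 0 536870912 1045395039 1503240 false true false .pp 2 0 2
    ndB0q2 ndB0q2 pcB0 cut_B00pm_202_s3 Ext.none :=
  certF0 (fam := false) (s1 := true) (s2 := false) (a := 2) (b := 0) (c := 2) (cn := .pp) (n1 := ndB0q2) (n2 := ndB0q2) (pc := pcB0) (cut := cut_B00pm_202_s3) (xt := Ext.none) (P1 := 0) (W1 := 536870912) (P2 := 0) (W2 := 536870912) (P3 := 1045395039) (W3 := 1503240)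
    rfl k0_B00pm_202_s3

theorem s_B00pm_202_s3 {κ x : ℝ} (hκ : κ * h0 = ken x) (hx : ((1045395039 : ℕ) : ℝ) / S ≤ x)
    (hx' : x ≤ (((1045395039 : ℕ) : ℝ) + (1503240 : ℕ)) / S)
    (H : CutB (VFD κ) PP tK tL pcB (Cut.of [[⟨0, 1, 0, 26843545⟩, ⟨1, 0, 0, 26843545⟩, ⟨2, 1, 0, 26843545⟩], [⟨0, 0, 1, 46137344⟩, ⟨1, 1, 2, 46137344⟩, ⟨2, 1, 0, 1048576⟩, ⟨0, 0, 0, 1056440320⟩, ⟨0, 1, 0, 33457795⟩, ⟨1, 0, 0, 33457795⟩, ⟨1, 1, 0, 1056440320⟩]]) 2 0 2 0 0 (sgb true) (sgb false) x) :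
    AltB (VFD κ) PP tK tL pcB [⟨4, 0, 0, 2845415833⟩] 2 0 2 0 0 (sgb true) (sgb false) x :=
  strip_altBD (m := 2845415833) false rfl hκ (SH.κ0 hκ (SH.hx1 hx).le (SH.hx2 hx').le) (SH.hx1 hx).le (SH.hx2 hx') (covB02).cov (covB02).cov hx hx' c_B00pm_202_s3 H (noExt_B)

noncomputable def cut_B00mm_001_s1 : Cut := Cut.of [[⟨4, 0, 0, 1449551462⟩]]

noncomputable def f_B00mm_001_s1 : ℕ → ℕ → ℕ → ℕ → Bool := onCell 0 536870912 0 536870912 1045395039 1503240
    (rowF 1 false false false .up 0 0 1 (qsf 0 536870912 536870912 536870912 0) ndB0q0 ndB0q1 pcB0 cut_B00mm_001_s1 Ext.none)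

def k0_B00mm_001_s1 : ∃ t, chk3 f_B00mm_001_s1 t 1 1 1 = true :=
  ⟨(l 3), by decide +kernel⟩

theorem c_B00mm_001_s1 : CertF 0 536870912 536870912 536870912 1045395039 1503240 false false false .up 0 0 1
    ndB0q0 ndB0q1 pcB0 cut_B00mm_001_s1 Ext.none :=
  certF1 (fam := false) (s1 := false) (s2 := false) (a := 0) (b := 0) (c := 1) (cn := .up) (n1 := ndB0q0) (n2 := ndB0q1) (pc := pcB0) (cut := cut_B00mm_001_s1) (xt := Ext.none) (P1 := 0) (W1 := 536870912) (P2 := 536870912) (W2 := 536870912) (P3 := 1045395039) (W3 := 1503240)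
    rfl (fun _ => rfl) k0_B00mm_001_s1

theorem s_B00mm_001_s1 {κ x : ℝ} (hκ : κ * h0 = ken x) (hx : ((1045395039 : ℕ) : ℝ) / S ≤ x)
    (hx' : x ≤ (((1045395039 : ℕ) : ℝ) + (1503240 : ℕ)) / S) :
    AltB (VFD κ) PP tK tL pcB [⟨3, 0, 0, 1449551462⟩] 0 0 1 0 0 (sgb false) (sgb false) x :=
  strip_altBD (m := 1449551462) true rfl hκ (SH.κ0 hκ (SH.hx1 hx).le (SH.hx2 hx').le) (SH.hx1 hx).le (SH.hx2 hx') (covB00).cov (covB01).cov hx hx' c_B00mm_001_s1 cutB_nil (noExt_B)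

noncomputable def cut_B00mm_001_s3 : Cut := Cut.of [[⟨3, 0, 0, 2845415833⟩]]

noncomputable def f_B00mm_001_s3 : ℕ → ℕ → ℕ → ℕ → Bool := onCell 0 536870912 536870912 536870912 1045395039 1503240
    (rowF 0 false false false .up 0 0 1 (qsf 0 536870912 536870912 536870912 0) ndB0q0 ndB0q1 pcB0 cut_B00mm_001_s3 Ext.none)

def k0_B00mm_001_s3 : ∃ t, chk3 f_B00mm_001_s3 t 1 1 1 = true :=
  ⟨(l 6), by decide +kernel⟩

theorem c_B00mm_001_s3 : CertF 0 536870912 536870912 536870912 1045395039 1503240 false false false .up 0 0 1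
    ndB0q0 ndB0q1 pcB0 cut_B00mm_001_s3 Ext.none :=
  certF0 (fam := false) (s1 := false) (s2 := false) (a := 0) (b := 0) (c := 1) (cn := .up) (n1 := ndB0q0) (n2 := ndB0q1) (pc := pcB0) (cut := cut_B00mm_001_s3) (xt := Ext.none) (P1 := 0) (W1 := 536870912) (P2 := 536870912) (W2 := 536870912) (P3 := 1045395039) (W3 := 1503240)
    rfl k0_B00mm_001_s3

theorem s_B00mm_001_s3 {κ x : ℝ} (hκ : κ * h0 = ken x) (hx : ((1045395039 : ℕ) : ℝ) / S ≤ x)
    (hx' : x ≤ (((1045395039 : ℕ) : ℝ) + (1503240 : ℕ)) / S) :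
    AltB (VFD κ) PP tK tL pcB [⟨4, 0, 0, 2845415833⟩] 0 0 1 0 0 (sgb false) (sgb false) x :=
  strip_altBD (m := 2845415833) false rfl hκ (SH.κ0 hκ (SH.hx1 hx).le (SH.hx2 hx').le) (SH.hx1 hx).le (SH.hx2 hx') (covB00).cov (covB01).cov hx hx' c_B00mm_001_s3 cutB_nil (noExt_B)

noncomputable def cut_B00mm_011_s1 : Cut := Cut.of [[⟨4, 0, 0, 1449551462⟩]]

noncomputable def f_B00mm_011_s1 : ℕ → ℕ → ℕ → ℕ → Bool := onCell 0 536870912 536870912 536870912 1045395039 1503240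
    (rowF 1 false false false .pnn 0 1 1 (qsf 0 536870912 536870912 536870912 1) ndB0q0 ndB0q1 pcB1 cut_B00mm_011_s1 Ext.none)

def k0_B00mm_011_s1 : ∃ t, chk3 f_B00mm_011_s1 t 1 1 1 = true :=
  ⟨(l 5), by decide +kernel⟩

theorem c_B00mm_011_s1 : CertF 0 536870912 536870912 536870912 1045395039 1503240 false false false .pnn 0 1 1
    ndB0q0 ndB0q1 pcB1 cut_B00mm_011_s1 Ext.none :=
  certF1 (fam := false) (s1 := false) (s2 := false) (a := 0) (b := 1) (c := 1) (cn := .pnn) (n1 := ndB0q0) (n2 := ndB0q1) (pc := pcB1) (cut := cut_B00mm_011_s1) (xt := Ext.none) (P1 := 0) (W1 := 536870912) (P2 := 536870912) (W2 := 536870912) (P3 := 1045395039) (W3 := 1503240)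
    rfl (fun _ => rfl) k0_B00mm_011_s1

theorem s_B00mm_011_s1 {κ x : ℝ} (hκ : κ * h0 = ken x) (hx : ((1045395039 : ℕ) : ℝ) / S ≤ x)
    (hx' : x ≤ (((1045395039 : ℕ) : ℝ) + (1503240 : ℕ)) / S) :
    AltB (VFD κ) PP tK tL pcB [⟨3, 0, 0, 1449551462⟩] 0 1 1 0 0 (sgb false) (sgb false) x :=
  strip_altBD (m := 1449551462) true rfl hκ (SH.κ0 hκ (SH.hx1 hx).le (SH.hx2 hx').le) (SH.hx1 hx).le (SH.hx2 hx') (covB00).cov (covB01).cov hx hx' c_B00mm_011_s1 cutB_nil (noExt_B)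

noncomputable def cut_B00mm_011_s3 : Cut := Cut.of [[⟨3, 0, 0, 2845415833⟩]]

noncomputable def f_B00mm_011_s3 : ℕ → ℕ → ℕ → ℕ → Bool := onCell 0 536870912 536870912 536870912 1045395039 1503240
    (rowF 0 false false false .pnn 0 1 1 (qsf 0 536870912 536870912 536870912 1) ndB0q0 ndB0q1 pcB1 cut_B00mm_011_s3 Ext.none)

def k0_B00mm_011_s3 : ∃ t, chk3 f_B00mm_011_s3 t 1 1 1 = true :=
  ⟨(l 6), by decide +kernel⟩

theorem c_B00mm_011_s3 : CertF 0 536870912 536870912 536870912 1045395039 1503240 false false false .pnn 0 1 1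
    ndB0q0 ndB0q1 pcB1 cut_B00mm_011_s3 Ext.none :=
  certF0 (fam := false) (s1 := false) (s2 := false) (a := 0) (b := 1) (c := 1) (cn := .pnn) (n1 := ndB0q0) (n2 := ndB0q1) (pc := pcB1) (cut := cut_B00mm_011_s3) (xt := Ext.none) (P1 := 0) (W1 := 536870912) (P2 := 536870912) (W2 := 536870912) (P3 := 1045395039) (W3 := 1503240)
    rfl k0_B00mm_011_s3

theorem s_B00mm_011_s3 {κ x : ℝ} (hκ : κ * h0 = ken x) (hx : ((1045395039 : ℕ) : ℝ) / S ≤ x)
    (hx' : x ≤ (((1045395039 : ℕ) : ℝ) + (1503240 : ℕ)) / S) :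
    AltB (VFD κ) PP tK tL pcB [⟨4, 0, 0, 2845415833⟩] 0 1 1 0 0 (sgb false) (sgb false) x :=
  strip_altBD (m := 2845415833) false rfl hκ (SH.κ0 hκ (SH.hx1 hx).le (SH.hx2 hx').le) (SH.hx1 hx).le (SH.hx2 hx') (covB00).cov (covB01).cov hx hx' c_B00mm_011_s3 cutB_nil (noExt_B)

noncomputable def cut_B00mm_012_s1 : Cut := Cut.of [[⟨4, 0, 0, 1449551462⟩]]

noncomputable def f_B00mm_012_s1 : ℕ → ℕ → ℕ → ℕ → Bool := onCell 0 536870912 0 536870912 1045395039 1503240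
    (rowF 0 false false false .pnp 0 1 2 (qsf 0 536870912 0 536870912 1) ndB0q0 ndB0q2 pcB1 cut_B00mm_012_s1 Ext.none)

def k0_B00mm_012_s1 : ∃ t, chk3 f_B00mm_012_s1 t 1 1 1 = true :=
  ⟨(l 5), by decide +kernel⟩

theorem c_B00mm_012_s1 : CertF 0 536870912 0 536870912 1045395039 1503240 false false false .pnp 0 1 2
    ndB0q0 ndB0q2 pcB1 cut_B00mm_012_s1 Ext.none :=
  certF0 (fam := false) (s1 := false) (s2 := false) (a := 0) (b := 1) (c := 2) (cn := .pnp) (n1 := ndB0q0) (n2 := ndB0q2) (pc := pcB1) (cut := cut_B00mm_012_s1) (xt := Ext.none) (P1 := 0) (W1 := 536870912) (P2 := 0) (W2 := 536870912) (P3 := 1045395039) (W3 := 1503240)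
    rfl k0_B00mm_012_s1

theorem s_B00mm_012_s1 {κ x : ℝ} (hκ : κ * h0 = ken x) (hx : ((1045395039 : ℕ) : ℝ) / S ≤ x)
    (hx' : x ≤ (((1045395039 : ℕ) : ℝ) + (1503240 : ℕ)) / S) :
    AltB (VFD κ) PP tK tL pcB [⟨3, 0, 0, 1449551462⟩] 0 1 2 0 0 (sgb false) (sgb false) x :=
  strip_altBD (m := 1449551462) true rfl hκ (SH.κ0 hκ (SH.hx1 hx).le (SH.hx2 hx').le) (SH.hx1 hx).le (SH.hx2 hx') (covB00).cov (covB02).cov hx hx' c_B00mm_012_s1 cutB_nil (noExt_B)

noncomputable def cut_B00mm_012_s3 : Cut := Cut.of [[⟨3, 0, 0, 2845415833⟩]]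

noncomputable def f_B00mm_012_s3 : ℕ → ℕ → ℕ → ℕ → Bool := onCell 0 536870912 0 536870912 1045395039 1503240
    (rowF 0 false false false .pnp 0 1 2 (qsf 0 536870912 0 536870912 1) ndB0q0 ndB0q2 pcB1 cut_B00mm_012_s3 Ext.none)

def k0_B00mm_012_s3 : ∃ t, chk3 f_B00mm_012_s3 t 1 1 1 = true :=
  ⟨(l 5), by decide +kernel⟩

theorem c_B00mm_012_s3 : CertF 0 536870912 0 536870912 1045395039 1503240 false false false .pnp 0 1 2
    ndB0q0 ndB0q2 pcB1 cut_B00mm_012_s3 Ext.none :=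
  certF0 (fam := false) (s1 := false) (s2 := false) (a := 0) (b := 1) (c := 2) (cn := .pnp) (n1 := ndB0q0) (n2 := ndB0q2) (pc := pcB1) (cut := cut_B00mm_012_s3) (xt := Ext.none) (P1 := 0) (W1 := 536870912) (P2 := 0) (W2 := 536870912) (P3 := 1045395039) (W3 := 1503240)
    rfl k0_B00mm_012_s3

theorem s_B00mm_012_s3 {κ x : ℝ} (hκ : κ * h0 = ken x) (hx : ((1045395039 : ℕ) : ℝ) / S ≤ x)
    (hx' : x ≤ (((1045395039 : ℕ) : ℝ) + (1503240 : ℕ)) / S) :
    AltB (VFD κ) PP tK tL pcB [⟨4, 0, 0, 2845415833⟩] 0 1 2 0 0 (sgb false) (sgb false) x :=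
  strip_altBD (m := 2845415833) false rfl hκ (SH.κ0 hκ (SH.hx1 hx).le (SH.hx2 hx').le) (SH.hx1 hx).le (SH.hx2 hx') (covB00).cov (covB02).cov hx hx' c_B00mm_012_s3 cutB_nil (noExt_B)

noncomputable def cut_B00mm_022_s1 : Cut := Cut.of [[⟨4, 0, 0, 1449551462⟩]]

noncomputable def f_B00mm_022_s1 : ℕ → ℕ → ℕ → ℕ → Bool := onCell 0 536870912 0 536870912 1045395039 1503240
    (rowF 0 false false false .pp 0 2 2 (qsf 0 536870912 0 536870912 2) ndB0q0 ndB0q2 pcB2 cut_B00mm_022_s1 Ext.none)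

def k0_B00mm_022_s1 : ∃ t, chk3 f_B00mm_022_s1 t 1 1 1 = true :=
  ⟨(l 5), by decide +kernel⟩

theorem c_B00mm_022_s1 : CertF 0 536870912 0 536870912 1045395039 1503240 false false false .pp 0 2 2
    ndB0q0 ndB0q2 pcB2 cut_B00mm_022_s1 Ext.none :=
  certF0 (fam := false) (s1 := false) (s2 := false) (a := 0) (b := 2) (c := 2) (cn := .pp) (n1 := ndB0q0) (n2 := ndB0q2) (pc := pcB2) (cut := cut_B00mm_022_s1) (xt := Ext.none) (P1 := 0) (W1 := 536870912) (P2 := 0) (W2 := 536870912) (P3 := 1045395039) (W3 := 1503240)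
    rfl k0_B00mm_022_s1

theorem s_B00mm_022_s1 {κ x : ℝ} (hκ : κ * h0 = ken x) (hx : ((1045395039 : ℕ) : ℝ) / S ≤ x)
    (hx' : x ≤ (((1045395039 : ℕ) : ℝ) + (1503240 : ℕ)) / S) :
    AltB (VFD κ) PP tK tL pcB [⟨3, 0, 0, 1449551462⟩] 0 2 2 0 0 (sgb false) (sgb false) x :=
  strip_altBD (m := 1449551462) true rfl hκ (SH.κ0 hκ (SH.hx1 hx).le (SH.hx2 hx').le) (SH.hx1 hx).le (SH.hx2 hx') (covB00).cov (covB02).cov hx hx' c_B00mm_022_s1 cutB_nil (noExt_B)

noncomputable def cut_B00mm_022_s3 : Cut := Cut.of [[⟨3, 0, 0, 2845415833⟩]]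

noncomputable def f_B00mm_022_s3 : ℕ → ℕ → ℕ → ℕ → Bool := onCell 0 536870912 0 536870912 1045395039 1503240
    (rowF 0 false false false .pp 0 2 2 (qsf 0 536870912 0 536870912 2) ndB0q0 ndB0q2 pcB2 cut_B00mm_022_s3 Ext.none)

def k0_B00mm_022_s3 : ∃ t, chk3 f_B00mm_022_s3 t 1 1 1 = true :=
  ⟨(l 5), by decide +kernel⟩

theorem c_B00mm_022_s3 : CertF 0 536870912 0 536870912 1045395039 1503240 false false false .pp 0 2 2
    ndB0q0 ndB0q2 pcB2 cut_B00mm_022_s3 Ext.none :=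
  certF0 (fam := false) (s1 := false) (s2 := false) (a := 0) (b := 2) (c := 2) (cn := .pp) (n1 := ndB0q0) (n2 := ndB0q2) (pc := pcB2) (cut := cut_B00mm_022_s3) (xt := Ext.none) (P1 := 0) (W1 := 536870912) (P2 := 0) (W2 := 536870912) (P3 := 1045395039) (W3 := 1503240)
    rfl k0_B00mm_022_s3

theorem s_B00mm_022_s3 {κ x : ℝ} (hκ : κ * h0 = ken x) (hx : ((1045395039 : ℕ) : ℝ) / S ≤ x)
    (hx' : x ≤ (((1045395039 : ℕ) : ℝ) + (1503240 : ℕ)) / S) :
    AltB (VFD κ) PP tK tL pcB [⟨4, 0, 0, 2845415833⟩] 0 2 2 0 0 (sgb false) (sgb false) x :=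
  strip_altBD (m := 2845415833) false rfl hκ (SH.κ0 hκ (SH.hx1 hx).le (SH.hx2 hx').le) (SH.hx1 hx).le (SH.hx2 hx') (covB00).cov (covB02).cov hx hx' c_B00mm_022_s3 cutB_nil (noExt_B)

noncomputable def cut_B00mm_101_s1 : Cut := Cut.of [[⟨4, 0, 0, 1449551462⟩]]

noncomputable def f_B00mm_101_s1 : ℕ → ℕ → ℕ → ℕ → Bool := onCell 536870912 536870912 536870912 536870912 1045395039 1503240
    (rowF 0 false false false .npn 1 0 1 (qsf 536870912 536870912 536870912 536870912 0) ndB0q1 ndB0q1 pcB0 cut_B00mm_101_s1 Ext.none)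

def k0_B00mm_101_s1 : ∃ t, chk3 f_B00mm_101_s1 t 1 1 1 = true :=
  ⟨(l 3), by decide +kernel⟩

theorem c_B00mm_101_s1 : CertF 536870912 536870912 536870912 536870912 1045395039 1503240 false false false .npn 1 0 1
    ndB0q1 ndB0q1 pcB0 cut_B00mm_101_s1 Ext.none :=
  certF0 (fam := false) (s1 := false) (s2 := false) (a := 1) (b := 0) (c := 1) (cn := .npn) (n1 := ndB0q1) (n2 := ndB0q1) (pc := pcB0) (cut := cut_B00mm_101_s1) (xt := Ext.none) (P1 := 536870912) (W1 := 536870912) (P2 := 536870912) (W2 := 536870912) (P3 := 1045395039) (W3 := 1503240)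
    rfl k0_B00mm_101_s1

theorem s_B00mm_101_s1 {κ x : ℝ} (hκ : κ * h0 = ken x) (hx : ((1045395039 : ℕ) : ℝ) / S ≤ x)
    (hx' : x ≤ (((1045395039 : ℕ) : ℝ) + (1503240 : ℕ)) / S) :
    AltB (VFD κ) PP tK tL pcB [⟨3, 0, 0, 1449551462⟩] 1 0 1 0 0 (sgb false) (sgb false) x :=
  strip_altBD (m := 1449551462) true rfl hκ (SH.κ0 hκ (SH.hx1 hx).le (SH.hx2 hx').le) (SH.hx1 hx).le (SH.hx2 hx') (covB01).cov (covB01).cov hx hx' c_B00mm_101_s1 cutB_nil (noExt_B)

noncomputable def cut_B00mm_101_s3 : Cut := Cut.of [[⟨3, 0, 0, 2845415833⟩]]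

noncomputable def f_B00mm_101_s3 : ℕ → ℕ → ℕ → ℕ → Bool := onCell 536870912 536870912 536870912 536870912 1045395039 1503240
    (rowF 0 false false false .npn 1 0 1 (qsf 536870912 536870912 536870912 536870912 0) ndB0q1 ndB0q1 pcB0 cut_B00mm_101_s3 Ext.none)

def k0_B00mm_101_s3 : ∃ t, chk3 f_B00mm_101_s3 t 1 1 1 = true :=
  ⟨(l 3), by decide +kernel⟩

theorem c_B00mm_101_s3 : CertF 536870912 536870912 536870912 536870912 1045395039 1503240 false false false .npn 1 0 1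
    ndB0q1 ndB0q1 pcB0 cut_B00mm_101_s3 Ext.none :=
  certF0 (fam := false) (s1 := false) (s2 := false) (a := 1) (b := 0) (c := 1) (cn := .npn) (n1 := ndB0q1) (n2 := ndB0q1) (pc := pcB0) (cut := cut_B00mm_101_s3) (xt := Ext.none) (P1 := 536870912) (W1 := 536870912) (P2 := 536870912) (W2 := 536870912) (P3 := 1045395039) (W3 := 1503240)
    rfl k0_B00mm_101_s3

theorem s_B00mm_101_s3 {κ x : ℝ} (hκ : κ * h0 = ken x) (hx : ((1045395039 : ℕ) : ℝ) / S ≤ x)
    (hx' : x ≤ (((1045395039 : ℕ) : ℝ) + (1503240 : ℕ)) / S) :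
    AltB (VFD κ) PP tK tL pcB [⟨4, 0, 0, 2845415833⟩] 1 0 1 0 0 (sgb false) (sgb false) x :=
  strip_altBD (m := 2845415833) false rfl hκ (SH.κ0 hκ (SH.hx1 hx).le (SH.hx2 hx').le) (SH.hx1 hx).le (SH.hx2 hx') (covB01).cov (covB01).cov hx hx' c_B00mm_101_s3 cutB_nil (noExt_B)

noncomputable def cut_B00mm_102_s1 : Cut := Cut.of [[⟨4, 0, 0, 1449551462⟩]]

noncomputable def f_B00mm_102_s1 : ℕ → ℕ → ℕ → ℕ → Bool := onCell 536870912 536870912 0 536870912 1045395039 1503240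
    (rowF 0 false false false .npp 1 0 2 (qsf 536870912 536870912 0 536870912 0) ndB0q1 ndB0q2 pcB0 cut_B00mm_102_s1 Ext.none)

def k0_B00mm_102_s1 : ∃ t, chk3 f_B00mm_102_s1 t 1 1 1 = true :=
  ⟨(a (l 5) (l 3)), by decide +kernel⟩

theorem c_B00mm_102_s1 : CertF 536870912 536870912 0 536870912 1045395039 1503240 false false false .npp 1 0 2
    ndB0q1 ndB0q2 pcB0 cut_B00mm_102_s1 Ext.none :=
  certF0 (fam := false) (s1 := false) (s2 := false) (a := 1) (b := 0) (c := 2) (cn := .npp) (n1 := ndB0q1) (n2 := ndB0q2) (pc := pcB0) (cut := cut_B00mm_102_s1) (xt := Ext.none) (P1 := 536870912) (W1 := 536870912) (P2 := 0) (W2 := 536870912) (P3 := 1045395039) (W3 := 1503240)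
    rfl k0_B00mm_102_s1

theorem s_B00mm_102_s1 {κ x : ℝ} (hκ : κ * h0 = ken x) (hx : ((1045395039 : ℕ) : ℝ) / S ≤ x)
    (hx' : x ≤ (((1045395039 : ℕ) : ℝ) + (1503240 : ℕ)) / S) :
    AltB (VFD κ) PP tK tL pcB [⟨3, 0, 0, 1449551462⟩] 1 0 2 0 0 (sgb false) (sgb false) x :=
  strip_altBD (m := 1449551462) true rfl hκ (SH.κ0 hκ (SH.hx1 hx).le (SH.hx2 hx').le) (SH.hx1 hx).le (SH.hx2 hx') (covB01).cov (covB02).cov hx hx' c_B00mm_102_s1 cutB_nil (noExt_B)

noncomputable def cut_B00mm_102_s3 : Cut := Cut.of [[⟨3, 0, 0, 2845415833⟩]]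

noncomputable def f_B00mm_102_s3 : ℕ → ℕ → ℕ → ℕ → Bool := onCell 536870912 536870912 0 536870912 1045395039 1503240
    (rowF 0 false false false .npp 1 0 2 (qsf 536870912 536870912 0 536870912 0) ndB0q1 ndB0q2 pcB0 cut_B00mm_102_s3 Ext.none)

def k0_B00mm_102_s3 : ∃ t, chk3 f_B00mm_102_s3 t 1 1 1 = true :=
  ⟨(l 6), by decide +kernel⟩

theorem c_B00mm_102_s3 : CertF 536870912 536870912 0 536870912 1045395039 1503240 false false false .npp 1 0 2
    ndB0q1 ndB0q2 pcB0 cut_B00mm_102_s3 Ext.none :=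
  certF0 (fam := false) (s1 := false) (s2 := false) (a := 1) (b := 0) (c := 2) (cn := .npp) (n1 := ndB0q1) (n2 := ndB0q2) (pc := pcB0) (cut := cut_B00mm_102_s3) (xt := Ext.none) (P1 := 536870912) (W1 := 536870912) (P2 := 0) (W2 := 536870912) (P3 := 1045395039) (W3 := 1503240)
    rfl k0_B00mm_102_s3

theorem s_B00mm_102_s3 {κ x : ℝ} (hκ : κ * h0 = ken x) (hx : ((1045395039 : ℕ) : ℝ) / S ≤ x)
    (hx' : x ≤ (((1045395039 : ℕ) : ℝ) + (1503240 : ℕ)) / S) :
    AltB (VFD κ) PP tK tL pcB [⟨4, 0, 0, 2845415833⟩] 1 0 2 0 0 (sgb false) (sgb false) x :=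
  strip_altBD (m := 2845415833) false rfl hκ (SH.κ0 hκ (SH.hx1 hx).le (SH.hx2 hx').le) (SH.hx1 hx).le (SH.hx2 hx') (covB01).cov (covB02).cov hx hx' c_B00mm_102_s3 cutB_nil (noExt_B)

noncomputable def cut_B00mm_112_s1 : Cut := Cut.of [[⟨4, 0, 0, 1449551462⟩]]

noncomputable def f_B00mm_112_s1 : ℕ → ℕ → ℕ → ℕ → Bool := onCell 536870912 536870912 0 536870912 1045395039 1503240
    (rowF 2 false false false .dn 1 1 2 (qsf 536870912 536870912 0 536870912 1) ndB0q1 ndB0q2 pcB1 cut_B00mm_112_s1 Ext.none)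

def k0_B00mm_112_s1 : ∃ t, chk3 f_B00mm_112_s1 t 1 1 1 = true :=
  ⟨(l 5), by decide +kernel⟩

theorem c_B00mm_112_s1 : CertF 536870912 536870912 0 536870912 1045395039 1503240 false false false .dn 1 1 2
    ndB0q1 ndB0q2 pcB1 cut_B00mm_112_s1 Ext.none :=
  certF2 (fam := false) (s1 := false) (s2 := false) (a := 1) (b := 1) (c := 2) (cn := .dn) (n1 := ndB0q1) (n2 := ndB0q2) (pc := pcB1) (cut := cut_B00mm_112_s1) (xt := Ext.none) (P1 := 536870912) (W1 := 536870912) (P2 := 0) (W2 := 536870912) (P3 := 1045395039) (W3 := 1503240)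
    rfl (fun _ => rfl) k0_B00mm_112_s1

theorem s_B00mm_112_s1 {κ x : ℝ} (hκ : κ * h0 = ken x) (hx : ((1045395039 : ℕ) : ℝ) / S ≤ x)
    (hx' : x ≤ (((1045395039 : ℕ) : ℝ) + (1503240 : ℕ)) / S) :
    AltB (VFD κ) PP tK tL pcB [⟨3, 0, 0, 1449551462⟩] 1 1 2 0 0 (sgb false) (sgb false) x :=
  strip_altBD (m := 1449551462) true rfl hκ (SH.κ0 hκ (SH.hx1 hx).le (SH.hx2 hx').le) (SH.hx1 hx).le (SH.hx2 hx') (covB01).cov (covB02).cov hx hx' c_B00mm_112_s1 cutB_nil (noExt_B)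

noncomputable def cut_B00mm_112_s3 : Cut := Cut.of [[⟨3, 0, 0, 2845415833⟩]]

noncomputable def f_B00mm_112_s3 : ℕ → ℕ → ℕ → ℕ → Bool := onCell 536870912 536870912 0 536870912 1045395039 1503240
    (rowF 0 false false false .dn 1 1 2 (qsf 536870912 536870912 0 536870912 1) ndB0q1 ndB0q2 pcB1 cut_B00mm_112_s3 Ext.none)

def k0_B00mm_112_s3 : ∃ t, chk3 f_B00mm_112_s3 t 1 1 1 = true :=
  ⟨(l 6), by decide +kernel⟩

theorem c_B00mm_112_s3 : CertF 536870912 536870912 0 536870912 1045395039 1503240 false false false .dn 1 1 2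
    ndB0q1 ndB0q2 pcB1 cut_B00mm_112_s3 Ext.none :=
  certF0 (fam := false) (s1 := false) (s2 := false) (a := 1) (b := 1) (c := 2) (cn := .dn) (n1 := ndB0q1) (n2 := ndB0q2) (pc := pcB1) (cut := cut_B00mm_112_s3) (xt := Ext.none) (P1 := 536870912) (W1 := 536870912) (P2 := 0) (W2 := 536870912) (P3 := 1045395039) (W3 := 1503240)
    rfl k0_B00mm_112_s3

theorem s_B00mm_112_s3 {κ x : ℝ} (hκ : κ * h0 = ken x) (hx : ((1045395039 : ℕ) : ℝ) / S ≤ x)
    (hx' : x ≤ (((1045395039 : ℕ) : ℝ) + (1503240 : ℕ)) / S) :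
    AltB (VFD κ) PP tK tL pcB [⟨4, 0, 0, 2845415833⟩] 1 1 2 0 0 (sgb false) (sgb false) x :=
  strip_altBD (m := 2845415833) false rfl hκ (SH.κ0 hκ (SH.hx1 hx).le (SH.hx2 hx').le) (SH.hx1 hx).le (SH.hx2 hx') (covB01).cov (covB02).cov hx hx' c_B00mm_112_s3 cutB_nil (noExt_B)

noncomputable def cut_B00mm_202_s1 : Cut := Cut.of [[⟨4, 0, 0, 1449551462⟩]]

noncomputable def f_B00mm_202_s1 : ℕ → ℕ → ℕ → ℕ → Bool := onCell 0 536870912 0 536870912 1045395039 1503240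
    (rowF 0 false false false .pp 2 0 2 (qsf 0 536870912 0 536870912 0) ndB0q2 ndB0q2 pcB0 cut_B00mm_202_s1 Ext.none)

def k0_B00mm_202_s1 : ∃ t, chk3 f_B00mm_202_s1 t 1 1 1 = true :=
  ⟨(l 3), by decide +kernel⟩

theorem c_B00mm_202_s1 : CertF 0 536870912 0 536870912 1045395039 1503240 false false false .pp 2 0 2
    ndB0q2 ndB0q2 pcB0 cut_B00mm_202_s1 Ext.none :=
  certF0 (fam := false) (s1 := false) (s2 := false) (a := 2) (b := 0) (c := 2) (cn := .pp) (n1 := ndB0q2) (n2 := ndB0q2) (pc := pcB0) (cut := cut_B00mm_202_s1) (xt := Ext.none) (P1 := 0) (W1 := 536870912) (P2 := 0) (W2 := 536870912) (P3 := 1045395039) (W3 := 1503240)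
    rfl k0_B00mm_202_s1

theorem s_B00mm_202_s1 {κ x : ℝ} (hκ : κ * h0 = ken x) (hx : ((1045395039 : ℕ) : ℝ) / S ≤ x)
    (hx' : x ≤ (((1045395039 : ℕ) : ℝ) + (1503240 : ℕ)) / S) :
    AltB (VFD κ) PP tK tL pcB [⟨3, 0, 0, 1449551462⟩] 2 0 2 0 0 (sgb false) (sgb false) x :=
  strip_altBD (m := 1449551462) true rfl hκ (SH.κ0 hκ (SH.hx1 hx).le (SH.hx2 hx').le) (SH.hx1 hx).le (SH.hx2 hx') (covB02).cov (covB02).cov hx hx' c_B00mm_202_s1 cutB_nil (noExt_B)

noncomputable def cut_B00mm_202_s3 : Cut := Cut.of [[⟨3, 0, 0, 2845415833⟩]]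

noncomputable def f_B00mm_202_s3 : ℕ → ℕ → ℕ → ℕ → Bool := onCell 0 536870912 0 536870912 1045395039 1503240
    (rowF 0 false false false .pp 2 0 2 (qsf 0 536870912 0 536870912 0) ndB0q2 ndB0q2 pcB0 cut_B00mm_202_s3 Ext.none)

def k0_B00mm_202_s3 : ∃ t, chk3 f_B00mm_202_s3 t 1 1 1 = true :=
  ⟨(l 3), by decide +kernel⟩

theorem c_B00mm_202_s3 : CertF 0 536870912 0 536870912 1045395039 1503240 false false false .pp 2 0 2
    ndB0q2 ndB0q2 pcB0 cut_B00mm_202_s3 Ext.none :=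
  certF0 (fam := false) (s1 := false) (s2 := false) (a := 2) (b := 0) (c := 2) (cn := .pp) (n1 := ndB0q2) (n2 := ndB0q2) (pc := pcB0) (cut := cut_B00mm_202_s3) (xt := Ext.none) (P1 := 0) (W1 := 536870912) (P2 := 0) (W2 := 536870912) (P3 := 1045395039) (W3 := 1503240)
    rfl k0_B00mm_202_s3

theorem s_B00mm_202_s3 {κ x : ℝ} (hκ : κ * h0 = ken x) (hx : ((1045395039 : ℕ) : ℝ) / S ≤ x)
    (hx' : x ≤ (((1045395039 : ℕ) : ℝ) + (1503240 : ℕ)) / S) :
    AltB (VFD κ) PP tK tL pcB [⟨4, 0, 0, 2845415833⟩] 2 0 2 0 0 (sgb false) (sgb false) x :=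
  strip_altBD (m := 2845415833) false rfl hκ (SH.κ0 hκ (SH.hx1 hx).le (SH.hx2 hx').le) (SH.hx1 hx).le (SH.hx2 hx') (covB02).cov (covB02).cov hx hx' c_B00mm_202_s3 cutB_nil (noExt_B)

noncomputable def cut_B06pp_001_s1 : Cut := Cut.of [[⟨4, 0, 0, 1449551462⟩]]

noncomputable def f_B06pp_001_s1 : ℕ → ℕ → ℕ → ℕ → Bool := onCell 0 536870912 0 536870912 1045395039 1503240
    (rowF 1 false true true .up 0 0 1 (qsf 0 536870912 536870912 536870912 0) ndB0q0 ndB6q1 pcB0 cut_B06pp_001_s1 Ext.none)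

def k0_B06pp_001_s1 : ∃ t, chk3 f_B06pp_001_s1 t 1 1 1 = true :=
  ⟨(l 3), by decide +kernel⟩

theorem c_B06pp_001_s1 : CertF 0 536870912 536870912 536870912 1045395039 1503240 false true true .up 0 0 1
    ndB0q0 ndB6q1 pcB0 cut_B06pp_001_s1 Ext.none :=
  certF1 (fam := false) (s1 := true) (s2 := true) (a := 0) (b := 0) (c := 1) (cn := .up) (n1 := ndB0q0) (n2 := ndB6q1) (pc := pcB0) (cut := cut_B06pp_001_s1) (xt := Ext.none) (P1 := 0) (W1 := 536870912) (P2 := 536870912) (W2 := 536870912) (P3 := 1045395039) (W3 := 1503240)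
    rfl (fun _ => rfl) k0_B06pp_001_s1

theorem s_B06pp_001_s1 {κ x : ℝ} (hκ : κ * h0 = ken x) (hx : ((1045395039 : ℕ) : ℝ) / S ≤ x)
    (hx' : x ≤ (((1045395039 : ℕ) : ℝ) + (1503240 : ℕ)) / S) :
    AltB (VFD κ) PP tK tL pcB [⟨3, 0, 0, 1449551462⟩] 0 0 1 0 6 (sgb true) (sgb true) x :=
  strip_altBD (m := 1449551462) true rfl hκ (SH.κ0 hκ (SH.hx1 hx).le (SH.hx2 hx').le) (SH.hx1 hx).le (SH.hx2 hx') (covB00).cov (covB61).cov hx hx' c_B06pp_001_s1 cutB_nil (noExt_B)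

noncomputable def cut_B06pp_011_s1 : Cut := Cut.of [[⟨4, 0, 0, 1449551462⟩], [⟨0, 0, 0, 26843545⟩, ⟨1, 1, 0, 26843545⟩, ⟨2, 1, 0, 26843545⟩]]

noncomputable def f_B06pp_011_s1 : ℕ → ℕ → ℕ → ℕ → Bool := onCell 0 536870912 536870912 536870912 1045395039 1503240
    (rowF 1 false true true .pnn 0 1 1 (qsf 0 536870912 536870912 536870912 1) ndB0q0 ndB6q1 pcB1 cut_B06pp_011_s1 Ext.none)

def k0_B06pp_011_s1 : ∃ t, chk3 f_B06pp_011_s1 t 1 1 1 = true :=
  ⟨(b (l 3) (a (b (l 3) (a (b (l 3) (a (b (l 3) (a (b (l 3) (a (l 14) (l 3))) (l 3))) (l 3))) (l 3))) (l 3))), by decide +kernel⟩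

theorem c_B06pp_011_s1 : CertF 0 536870912 536870912 536870912 1045395039 1503240 false true true .pnn 0 1 1
    ndB0q0 ndB6q1 pcB1 cut_B06pp_011_s1 Ext.none :=
  certF1 (fam := false) (s1 := true) (s2 := true) (a := 0) (b := 1) (c := 1) (cn := .pnn) (n1 := ndB0q0) (n2 := ndB6q1) (pc := pcB1) (cut := cut_B06pp_011_s1) (xt := Ext.none) (P1 := 0) (W1 := 536870912) (P2 := 536870912) (W2 := 536870912) (P3 := 1045395039) (W3 := 1503240)
    rfl (fun _ => rfl) k0_B06pp_011_s1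

theorem s_B06pp_011_s1 {κ x : ℝ} (hκ : κ * h0 = ken x) (hx : ((1045395039 : ℕ) : ℝ) / S ≤ x)
    (hx' : x ≤ (((1045395039 : ℕ) : ℝ) + (1503240 : ℕ)) / S)
    (H : CutB (VFD κ) PP tK tL pcB (Cut.of [[⟨0, 0, 0, 26843545⟩, ⟨1, 1, 0, 26843545⟩, ⟨2, 1, 0, 26843545⟩]]) 0 1 1 0 6 (sgb true) (sgb true) x) :
    AltB (VFD κ) PP tK tL pcB [⟨3, 0, 0, 1449551462⟩] 0 1 1 0 6 (sgb true) (sgb true) x :=
  strip_altBD (m := 1449551462) true rfl hκ (SH.κ0 hκ (SH.hx1 hx).le (SH.hx2 hx').le) (SH.hx1 hx).le (SH.hx2 hx') (covB00).cov (covB61).cov hx hx' c_B06pp_011_s1 H (noExt_B)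

noncomputable def cut_B06pp_012_s1 : Cut := Cut.of [[⟨4, 0, 0, 1449551462⟩], [⟨0, 0, 0, 26843545⟩, ⟨1, 1, 0, 26843545⟩, ⟨2, 1, 0, 26843545⟩]]

noncomputable def f_B06pp_012_s1 : ℕ → ℕ → ℕ → ℕ → Bool := onCell 0 536870912 536870912 536870912 1045395039 1503240
    (rowF 1 false true true .pnp 0 1 2 (qsf 0 536870912 1073741824 536870912 1) ndB0q0 ndB6q2 pcB1 cut_B06pp_012_s1 Ext.none)

def k0_B06pp_012_s1 : ∃ t, chk3 f_B06pp_012_s1 t 1 1 1 = true :=
  ⟨(b (l 3) (a (b (l 3) (a (b (l 3) (a (a (a (b (l 1) (b (l 3) (l 14))) (l 3)) (l 3)) (l 3))) (l 3))) (l 3))), by decide +kernel⟩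

theorem c_B06pp_012_s1 : CertF 0 536870912 1073741824 536870912 1045395039 1503240 false true true .pnp 0 1 2
    ndB0q0 ndB6q2 pcB1 cut_B06pp_012_s1 Ext.none :=
  certF1 (fam := false) (s1 := true) (s2 := true) (a := 0) (b := 1) (c := 2) (cn := .pnp) (n1 := ndB0q0) (n2 := ndB6q2) (pc := pcB1) (cut := cut_B06pp_012_s1) (xt := Ext.none) (P1 := 0) (W1 := 536870912) (P2 := 1073741824) (W2 := 536870912) (P3 := 1045395039) (W3 := 1503240)
    rfl (fun _ => rfl) k0_B06pp_012_s1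

theorem s_B06pp_012_s1 {κ x : ℝ} (hκ : κ * h0 = ken x) (hx : ((1045395039 : ℕ) : ℝ) / S ≤ x)
    (hx' : x ≤ (((1045395039 : ℕ) : ℝ) + (1503240 : ℕ)) / S)
    (H : CutB (VFD κ) PP tK tL pcB (Cut.of [[⟨0, 0, 0, 26843545⟩, ⟨1, 1, 0, 26843545⟩, ⟨2, 1, 0, 26843545⟩]]) 0 1 2 0 6 (sgb true) (sgb true) x) :
    AltB (VFD κ) PP tK tL pcB [⟨3, 0, 0, 1449551462⟩] 0 1 2 0 6 (sgb true) (sgb true) x :=
  strip_altBD (m := 1449551462) true rfl hκ (SH.κ0 hκ (SH.hx1 hx).le (SH.hx2 hx').le) (SH.hx1 hx).le (SH.hx2 hx') (covB00).cov (covB62).cov hx hx' c_B06pp_012_s1 H (noExt_B)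

noncomputable def cut_B06pp_022_s1 : Cut := Cut.of [[⟨4, 0, 0, 1449551462⟩], [⟨0, 0, 0, 16777216⟩, ⟨1, 1, 0, 16777216⟩, ⟨2, 1, 0, 16777216⟩]]

noncomputable def xt_B06pp_022_s1 : Ext := strExt dd false true true .u0 .s2 .u2 .pp 0 2 2 rfl rfl gf2 vv ndB0q0 ndB6q2

noncomputable def f_B06pp_022_s1 : ℕ → ℕ → ℕ → ℕ → Bool := onCell 0 536870912 1073741824 536870912 1045395039 1503240
    (rowF 1 false true true .pp 0 2 2 (qsf 0 536870912 1073741824 536870912 2) ndB0q0 ndB6q2 pcB2 cut_B06pp_022_s1 xt_B06pp_022_s1)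

def k0_B06pp_022_s1 : ∃ t, chk3 f_B06pp_022_s1 t 32 32 1 = true :=
  ⟨(b (a (a (l 14) (b (l 14) (b (l 14) (a (l 14) (b (l 14) (l 16767528)))))) (b (a (a (l 14) (l 3)) (l 3)) (b (a (a (a (l 14) (a (l 14) (l 521069951))) (a (a (l 521002111) (l 520934527)) (a (l 520866687) (l 520798847)))) (a (a (l 520693119) (l 3)) (l 3))) (a (a (b (a (b (l 14) (l 16770256)) (l 16761728)) (a (l 16768392) (l 16748264))) (a (a (b (l 519633791) (l 16770072)) (l 519127167)) (a (l 519061119) (l 518995071)))) (a (a (a (l 518929023) (l 518862975)) (l 518760063)) (a (l 518628479) (l 518496895))))))) (a (a (b (a (l 14) (l 16759408)) (a (l 16748328) (l 16751024))) (b (b (a (l 16763160) (l 16764104)) (l 16758976)) (l 16751656))) (b (a (b (a (l 16744176) (b (a (l 16767336) (l 16768488)) (l 16765024))) (a (l 16760224) (l 16761176))) (b (a (b (b (l 16761048) (l 16769792)) (l 16756704)) (a (l 516868735) (l 516740223))) (a (b (l 16763792) (l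 16760872)) (b (l 16745456) (l 16762632))))) (a (b (l 16755496) (l 16750104)) (b (a (l 16756752) (l 16757752)) (l 16751480)))))), by decide +kernel⟩

def k1_B06pp_022_s1 : ∃ t, chk3 f_B06pp_022_s1 t 33 32 1 = true :=
  ⟨(b (a (b (l 3) (a (a (b (l 3) (a (l 518365311) (l 3))) (l 3)) (l 3))) (l 3)) (a (a (b (a (a (b (l 516611967) (l 514830719)) (b (l 516483711) (l 514702975))) (b (l 514673279) (a (l 514551679) (l 514426751)))) (b (b (a (l 16761528) (l 16764992)) (a (l 16757608) (l 16760448))) (a (l 16752752) (l 16733304)))) (b (a (b (l 516029055) (a (l 514302079) (l 514554239))) (b (l 3) (a (l 513533311) (l 514108543)))) (b (a (b (l 512755583) (l 16764104)) (l 511823487)) (a (b (l 16759400) (l 16754704)) (l 510440575))))) (b (a (b (l 3) (a (l 513492607) (l 3))) (l 3)) (a (a (b (l 512095359) (l 510642815)) (b (l 512501887) (l 511048831))) (a (b (l 513044351) (l 511567743)) (b (l 3) (b (l 512918399) (l 512086655)))))))),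 by decide +kernel⟩

def k2_B06pp_022_s1 : ∃ t, chk3 f_B06pp_022_s1 t 16 33 1 = true :=
  ⟨(a (a (b (a (b (l 16741232) (l 16730568)) (l 16735744)) (a (l 16712600) (l 16627896))) (b (a (b (l 16741680) (l 16729640)) (b (l 16742392) (l 16730112))) (b (l 16633808) (l 16706392)))) (b (a (b (a (b (l 16746992) (l 16740888)) (b (a (l 16749016) (l 16752096)) (l 16743928))) (a (l 16731816) (l 16736120))) (b (a (a (b (l 16756344) (l 16748360)) (b (l 16739912) (l 16752760))) (a (b (l 511381631) (l 16757440)) (l 512611455))) (a (b (l 16723360) (l 16739488)) (b (l 16741656) (l 16724720))))) (a (b (a (l 16721128) (l 16726320)) (l 16630336)) (b (a (l 16733056) (l 16738432)) (l 16643160))))), by decide +kernel⟩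

def k3_B06pp_022_s1 : ∃ t, chk3 f_B06pp_022_s1 t 17 16 1 = true :=
  ⟨(b (a (b (l 3) (b (l 3) (a (a (b (l 3) (a (l 512466815) (l 3))) (l 3)) (l 3)))) (l 3)) (a (a (b (a (b (l 512775551) (l 513600383)) (l 511674495)) (b (a (b (l 16745944) (l 16740400)) (b (l 16752848) (l 16746064))) (a (l 16734096) (b (l 16740248) (l 16735696))))) (b (a (l 513512575) (l 513739391)) (b (a (l 514859391) (l 515076479)) (a (b (l 16746304) (l 16740352)) (l 16707976))))) (b (a (a (l 513965695) (l 3)) (l 3)) (a (b (l 515383935) (a (l 516113279) (l 516266623))) (b (a (l 515723647) (l 3)) (a (l 516565887) (l 516731263))))))), by decide +kernel⟩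

def k4_B06pp_022_s1 : ∃ t, chk3 f_B06pp_022_s1 t 8 17 1 = true :=
  ⟨(a (a (b (a (b (a (l 16687304) (l 16688296)) (l 16664576)) (b (l 16606824) (l 16673192))) (a (l 16550248) (l 16563168))) (b (a (b (l 16617664) (l 16684640)) (b (l 16672664) (l 16698448))) (a (l 16576584) (l 16675440)))) (b (a (b (a (l 16703064) (b (a (l 16733480) (b (l 16740648) (l 16735480))) (l 16727832))) (a (l 16708608) (l 16633032))) (a (b (b (a (l 16723248) (l 16708544)) (a (l 16712792) (b (l 16741568) (l 16736248)))) (b (l 16686104) (l 16721152))) (b (a (b (l 517412479) (l 16744920)) (l 517952895)) (b (a (b (l 16736688) (l 16731936)) (l 16739816)) (a (l 16726544) (l 16730184)))))) (a (b (l 16698304) (l 16683928)) (b (a (l 16626872) (l 16634128)) (l 16700704))))), by decide +kernel⟩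

def k5_B06pp_022_s1 : ∃ t, chk3 f_B06pp_022_s1 t 9 8 1 = true :=
  ⟨(b (a (b (l 3) (a (b (l 3) (a (b (l 3) (l 516924287)) (l 3))) (l 3))) (l 3)) (b (a (a (b (a (b (l 517763967) (l 518514303)) (b (l 517977727) (l 518722687))) (a (b (l 519170687) (b (l 16739960) (l 16693056))) (b (l 519375487) (l 16727056)))) (b (a (b (l 3) (l 518875263)) (l 3)) (a (b (l 519523967) (l 520077439)) (b (l 519616895) (l 520168063))))) (a (b (l 3) (a (l 519936127) (l 3))) (l 3))) (a (a (b (a (b (a (l 16726224) (l 16730264)) (l 16721072)) (b (l 16716664) (a (l 16725824) (l 16730072)))) (a (l 16626944) (l 16632888))) (b (a (b (l 16705664) (l 16737160)) (b (l 520620927) (l 16662952))) (a (b (l 16685568) (l 16718968)) (b (l 16736344) (l 16726304))))) (a (b (a (l 520814975) (b (l 520634495) (l 520970879))) (a (l 521252735) (l 520608639))) (b (a (b (l 520558463) (l 520861311)) (b (l 3) (l 520928127))) (a (l 520927359) (l 521037183))))))),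 by decide +kernel⟩

def k6_B06pp_022_s1 : ∃ t, chk3 f_B06pp_022_s1 t 5 8 1 = true :=
  ⟨(a (b (l 3) (b (l 3) (a (b (l 3) (a (l 521212031) (l 3))) (l 3)))) (l 3)), by decide +kernel⟩

def k7_B06pp_022_s1 : ∃ t, chk3 f_B06pp_022_s1 t 2 9 1 = true :=
  ⟨(a (a (a (b (a (b (a (l 16591152) (l 16610528)) (l 16472608)) (b (a (l 16629320) (l 16645816)) (a (l 16594256) (l 16616032)))) (a (b (l 16507600) (l 16451928)) (b (l 16479272) (l 16509504)))) (b (b (a (b (l 16669872) (l 16655664)) (b (l 16686808) (l 16672720))) (a (l 16634296) (l 16651240))) (b (a (l 16602456) (l 16619568)) (a (l 16559232) (l 16585704))))) (b (b (a (a (b (l 16700008) (l 16685680)) (b (a (l 16708352) (l 16629512)) (l 16695872))) (a (b (b (a (l 16724400) (l 16732624)) (a (l 16714648) (l 16721816))) (b (l 16625296) (l 16701368))) (b (a (l 16693960) (l 521143423)) (b (l 16682192) (l 16629920))))) (a (a (l 16663112) (l 16672904)) (a (l 16681776) (b (l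 16616392) (l 16684624))))) (a (b (a (l 16631784) (l 16640616)) (l 16603592)) (b (a (l 16650000) (l 16661304)) (l 16624024))))) (b (a (a (a (b (b (a (l 521267071) (l 521390463)) (a (l 16648352) (l 16720240))) (b (b (l 16720536) (l 16710296)) (l 16612944))) (b (b (l 521566335) (l 521672319)) (b (l 521777279) (l 16669960)))) (b (b (a (l 521812095) (l 3)) (a (l 521918335) (l 522162303))) (a (b (l 522023807) (l 16686152)) (b (l 522268287) (l 522373503))))) (b (l 3) (a (b (l 522613375) (l 522719615)) (b (l 3) (l 523202687))))) (a (b (a (a (l 16673760) (b (l 16609368) (l 16677896))) (b (a (l 16665720) (l 16639232)) (a (l 16689600) (l 16619256)))) (a (a (l 16642512) (l 16654960)) (b (a (l 16674424) (l 16685968)) (l 16665200)))) (b (a (b (l 522824831) (l 522929279)) (b (l 523309695) (l 523415935))) (a (b (a (l 16614560) (l 16628408)) (a (l 16682376) (l 16693728))) (b (l 523520895) (a (l 16706520) (l 16719560)))))))),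 by decide +kernel⟩

def k8_B06pp_022_s1 : ∃ t, chk3 f_B06pp_022_s1 t 2 5 1 = true :=
  ⟨(a (a (b (b (a (b (a (l 16386320) (l 16359672)) (a (b (l 16327664) (b (l 16290912) (l 16257688))) (b (l 16384512) (b (l 16347160) (l 16229624))))) (b (a (l 16495960) (l 16534448)) (b (l 16457368) (b (l 16419976) (l 16302056))))) (a (a (l 16199496) (l 16256416)) (l 16248520))) (a (a (l 16012472) (l 16076048)) (b (l 16269640) (l 16218760)))) (b (b (a (b (l 16565000) (b (l 16526296) (b (l 16491648) (l 16457592)))) (b (l 16591960) (b (l 16565448) (b (l 16547016) (b (l 16528112) (l 16509488)))))) (a (l 16407632) (l 16473328))) (a (b (l 16351440) (l 16288128)) (b (l 16406552) (l 16325008))))) (b (b (b (a (a (l 16617944) (l 16642824)) (b (a (l 16673096) (a (l 16689264) (l 16700736))) (a (l 16658104) (l 16680064)))) (b (a (a (l 16594144) (l 16619712)) (a (l 16643440) (l 16665504))) (b (a (l 16512536) (a (l 16632672) (l 16654848)))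 (a (a (b (l 16574392) (l 16565656)) (l 16516832)) (a (b (l 16627992) (l 16624728)) (b (l 16650280) (l 16647136))))))) (a (a (l 16524048) (l 16556952)) (a (l 16582000) (l 16604984)))) (a (b (l 16385632) (l 16371856)) (b (b (l 16531640) (l 16489856)) (l 16427832))))), by decide +kernel⟩

def k9_B06pp_022_s1 : ∃ t, chk3 f_B06pp_022_s1 t 2 3 1 = true :=
  ⟨(b (b (a (a (a (b (l 15967808) (l 15919352)) (l 15949336)) (a (l 16077216) (l 16105800))) (a (b (l 16199824) (l 16195200)) (b (l 16260584) (l 16262184)))) (b (a (a (l 6) (l 16035312)) (a (l 16106968) (l 16183960))) (a (l 6) (l 6)))) (l 6)), by decide +kernel⟩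

def k10_B06pp_022_s1 : ∃ t, chk3 f_B06pp_022_s1 t 3 1 1 = true :=
  ⟨(b (b (b (l 3) (a (b (l 3) (a (b (a (b (l 523785599) (l 523894143)) (l 3)) (a (b (l 524001663) (l 524107391)) (b (l 524474239) (l 524583551)))) (b (l 3) (a (b (l 3) (l 525051519)) (l 3))))) (l 3))) (b (a (b (b (b (a (a (a (l 16712848) (l 16724840)) (l 524689535)) (a (l 525162367) (l 525627007))) (a (a (b (l 16621152) (l 16612904)) (a (l 16717200) (l 16644040))) (a (l 525266047) (b (l 525725055) (l 525783423))))) (b (a (a (l 16686072) (b (l 16709120) (l 16701392))) (a (b (l 16687048) (a (l 16714976) (l 16724272))) (b (l 525840511) (l 60230084503)))) (b (a (a (l 16675344) (l 16694320)) (a (l 16711816) (a (l 16724368) (l 2)))) (a (a (b (l 16670728) (l 16667576)) (b (l 16689488) (l 16686224))) (a (b (l 16706728) (l 16703232)) (b (l 16722536) (l 16718760))))))) (a (a (l 16626080) (b (l 16664800) (l 16625232))) (a (b (l 16682136) (l 16643528)) (b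 (l 16698008) (l 2))))) (b (b (b (b (l 3) (l 2)) (l 2)) (l 2)) (l 2))) (a (a (b (a (l 16545304) (l 16482768)) (l 43586860791)) (b (a (l 16502808) (l 2)) (l 2))) (l 2)))) (a (b (b (a (b (l 16317968) (l 2)) (l 2)) (l 2)) (l 2)) (l 2))), by decide +kernel⟩

theorem t11_B06pp_022_s1 : ∃ t, chk3 f_B06pp_022_s1 t 16 32 1 = true := ex3_a k0_B06pp_022_s1 k1_B06pp_022_s1

theorem t12_B06pp_022_s1 : ∃ t, chk3 f_B06pp_022_s1 t 16 16 1 = true := ex3_b t11_B06pp_022_s1 k2_B06pp_022_s1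

theorem t13_B06pp_022_s1 : ∃ t, chk3 f_B06pp_022_s1 t 8 16 1 = true := ex3_a t12_B06pp_022_s1 k3_B06pp_022_s1

theorem t14_B06pp_022_s1 : ∃ t, chk3 f_B06pp_022_s1 t 8 8 1 = true := ex3_b t13_B06pp_022_s1 k4_B06pp_022_s1

theorem t15_B06pp_022_s1 : ∃ t, chk3 f_B06pp_022_s1 t 4 8 1 = true := ex3_a t14_B06pp_022_s1 k5_B06pp_022_s1

theorem t16_B06pp_022_s1 : ∃ t, chk3 f_B06pp_022_s1 t 2 8 1 = true := ex3_a t15_B06pp_022_s1 k6_B06pp_022_s1

theorem t17_B06pp_022_s1 : ∃ t, chk3 f_B06pp_022_s1 t 2 4 1 = true := ex3_b t16_B06pp_022_s1 k7_B06pp_022_s1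

theorem t18_B06pp_022_s1 : ∃ t, chk3 f_B06pp_022_s1 t 2 2 1 = true := ex3_b t17_B06pp_022_s1 k8_B06pp_022_s1

theorem t19_B06pp_022_s1 : ∃ t, chk3 f_B06pp_022_s1 t 2 1 1 = true := ex3_b t18_B06pp_022_s1 k9_B06pp_022_s1

theorem t20_B06pp_022_s1 : ∃ t, chk3 f_B06pp_022_s1 t 1 1 1 = true := ex3_a t19_B06pp_022_s1 k10_B06pp_022_s1

theorem c_B06pp_022_s1 : CertF 0 536870912 1073741824 536870912 1045395039 1503240 false true true .pp 0 2 2
    ndB0q0 ndB6q2 pcB2 cut_B06pp_022_s1 xt_B06pp_022_s1 :=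
  certF1 (fam := false) (s1 := true) (s2 := true) (a := 0) (b := 2) (c := 2) (cn := .pp) (n1 := ndB0q0) (n2 := ndB6q2) (pc := pcB2) (cut := cut_B06pp_022_s1) (xt := xt_B06pp_022_s1) (P1 := 0) (W1 := 536870912) (P2 := 1073741824) (W2 := 536870912) (P3 := 1045395039) (W3 := 1503240)
    rfl (fun _ => rfl) t20_B06pp_022_s1

theorem s_B06pp_022_s1 {κ x : ℝ} (hκ : κ * h0 = ken x) (hx : ((1045395039 : ℕ) : ℝ) / S ≤ x)
    (hx' : x ≤ (((1045395039 : ℕ) : ℝ) + (1503240 : ℕ)) / S)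
    (H : CutB (VFD κ) PP tK tL pcB (Cut.of [[⟨0, 0, 0, 16777216⟩, ⟨1, 1, 0, 16777216⟩, ⟨2, 1, 0, 16777216⟩]]) 0 2 2 0 6 (sgb true) (sgb true) x) :
    AltB (VFD κ) PP tK tL pcB [⟨3, 0, 0, 1449551462⟩] 0 2 2 0 6 (sgb true) (sgb true) x :=
  strip_altBD (m := 1449551462) true rfl hκ (SH.κ0 hκ (SH.hx1 hx).le (SH.hx2 hx').le) (SH.hx1 hx).le (SH.hx2 hx') (covB00).cov (covB62).cov hx hx' c_B06pp_022_s1 H ((okx hx hx').extB (T := tt) (sideB hx hx') hκ rfl rfl (.O 0 true) (.N 2 true) rfl)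

noncomputable def cut_B06pp_023_s1 : Cut := Cut.of [[⟨4, 0, 0, 1449551462⟩]]

noncomputable def xt_B06pp_023_s1 : Ext := strExt dd false true true .u0 .s2 .u2 .up 0 2 3 rfl rfl gf2 vv ndB0q0 ndB6q3

noncomputable def f_B06pp_023_s1 : ℕ → ℕ → ℕ → ℕ → Bool := onCell 1073741824 536870912 0 1230186008 1045395039 1503240
    (rowF 2 false true true .up 0 2 3 (qsf 0 536870912 0 1230186008 2) ndB0q0 ndB6q3 pcB2 cut_B06pp_023_s1 xt_B06pp_023_s1)

def k0_B06pp_023_s1 : ∃ t, chk3 f_B06pp_023_s1 t 2 1 1 = true :=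
  ⟨(b (l 2) (a (b (l 2) (b (l 2) (l 3))) (b (a (l 2) (b (l 2) (b (l 2) (l 218607019383)))) (a (b (b (a (l 2) (l 528965983)) (a (a (l 3) (a (l 3) (a (l 527846719) (b (l 2) (a (l 527941183) (b (l 16746896) (l 16764776))))))) (l 528206943))) (b (a (a (l 3) (b (a (a (l 3) (b (l 527638911) (l 527421311))) (a (a (b (l 527629695) (l 527415935)) (l 527520895)) (b (a (l 16724096) (l 16761072)) (l 16717304)))) (a (a (l 527062143) (b (l 527196287) (l 526963583))) (a (a (b (l 527194495) (l 16719664)) (l 527078527)) (b (a (l 16756816) (a (a (b (l 16754944) (a (l 16752568) (l 16751896))) (l 16752272)) (l 16750336))) (a (l 16751096) (a (a (a (l 16748120) (l 16705432)) (l 16746304)) (l 16744336)))))))) (a (b (b (l 16654752) (l 16649944)) (b (l 16644376) (l 16721840))) (b (l 16695600) (l 16682656)))) (a (a (b (a (l 3) (a (l 3) (l 526579839))) (a (b (l 3) (l 525939071)) (a (l 526070911) (l 526073983)))) (a (b (a (l 526587007)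 (b (l 526722687) (l 526473087))) (a (l 525537919) (b (l 16664376) (l 16739224)))) (a (b (a (b (l 16755280) (l 16748064)) (l 526602111)) (b (a (l 16739880) (l 16734328)) (a (l 16730688) (l 16725312)))) (b (b (a (l 16702592) (l 16739152)) (a (l 16695256) (l 16731984))) (b (a (l 16729176) (l 16724256)) (a (l 16720664) (l 16715912))))))) (b (b (l 16609064) (l 16601040)) (b (l 16592432) (l 16583184)))))) (a (b (b (l 529116255) (b (l 16656112) (l 16646240))) (b (b (l 16633552) (l 16617600)) (b (l 16598536) (l 16577224)))) (b (b (l 16594128) (l 16571792)) (b (l 16454008) (b (l 16503928) (l 16478024))))))))), by decide +kernel⟩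

def k1_B06pp_023_s1 : ∃ t, chk3 f_B06pp_023_s1 t 3 1 1 = true :=
  ⟨(a (b (l 2) (b (b (a (l 2) (b (l 16420584) (l 16466744))) (a (b (l 16532392) (l 16507912)) (b (l 16414808) (l 16366992)))) (b (b (a (l 16482216) (l 16321360)) (a (l 16362952) (l 16265584))) (b (a (a (l 16446424) (l 16350120)) (l 16194208)) (a (b (l 16352088) (l 16318328)) (b (l 16129184) (l 16083696))))))) (b (l 6) (l 6))), by decide +kernel⟩

theorem t2_B06pp_023_s1 : ∃ t, chk3 f_B06pp_023_s1 t 1 1 1 = true := ex3_a k0_B06pp_023_s1 k1_B06pp_023_s1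

theorem c_B06pp_023_s1 : CertF 0 536870912 0 1230186008 1045395039 1503240 false true true .up 0 2 3
    ndB0q0 ndB6q3 pcB2 cut_B06pp_023_s1 xt_B06pp_023_s1 :=
  certF2 (fam := false) (s1 := true) (s2 := true) (a := 0) (b := 2) (c := 3) (cn := .up) (n1 := ndB0q0) (n2 := ndB6q3) (pc := pcB2) (cut := cut_B06pp_023_s1) (xt := xt_B06pp_023_s1) (P1 := 0) (W1 := 536870912) (P2 := 0) (W2 := 1230186008) (P3 := 1045395039) (W3 := 1503240)
    rfl (fun _ => rfl) t2_B06pp_023_s1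

theorem s_B06pp_023_s1 {κ x : ℝ} (hκ : κ * h0 = ken x) (hx : ((1045395039 : ℕ) : ℝ) / S ≤ x)
    (hx' : x ≤ (((1045395039 : ℕ) : ℝ) + (1503240 : ℕ)) / S) :
    AltB (VFD κ) PP tK tL pcB [⟨3, 0, 0, 1449551462⟩] 0 2 3 0 6 (sgb true) (sgb true) x :=
  strip_altBD (m := 1449551462) true rfl hκ (SH.κ0 hκ (SH.hx1 hx).le (SH.hx2 hx').le) (SH.hx1 hx).le (SH.hx2 hx') (covB00).cov (covB63).cov hx hx' c_B06pp_023_s1 cutB_nil ((okx hx hx').extB (T := tt) (sideB hx hx') hκ rfl rfl (.O 0 true) (.N 3 true) rfl)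

noncomputable def cut_B06pp_033_s1 : Cut := Cut.of [[⟨4, 0, 0, 1449551462⟩]]

noncomputable def f_B06pp_033_s1 : ℕ → ℕ → ℕ → ℕ → Bool := onCell 1610612736 536870912 0 1230186008 1045395039 1503240
    (rowF 2 false true true .pnn 0 3 3 (qsf 0 536870912 0 1230186008 3) ndB0q0 ndB6q3 pcB3 cut_B06pp_033_s1 Ext.none)

def k0_B06pp_033_s1 : ∃ t, chk3 f_B06pp_033_s1 t 1 1 1 = true :=
  ⟨(b (l 6) (l 6)), by decide +kernel⟩

theorem c_B06pp_033_s1 : CertF 0 536870912 0 1230186008 1045395039 1503240 false true true .pnn 0 3 3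
    ndB0q0 ndB6q3 pcB3 cut_B06pp_033_s1 Ext.none :=
  certF2 (fam := false) (s1 := true) (s2 := true) (a := 0) (b := 3) (c := 3) (cn := .pnn) (n1 := ndB0q0) (n2 := ndB6q3) (pc := pcB3) (cut := cut_B06pp_033_s1) (xt := Ext.none) (P1 := 0) (W1 := 536870912) (P2 := 0) (W2 := 1230186008) (P3 := 1045395039) (W3 := 1503240)
    rfl (fun _ => rfl) k0_B06pp_033_s1

theorem s_B06pp_033_s1 {κ x : ℝ} (hκ : κ * h0 = ken x) (hx : ((1045395039 : ℕ) : ℝ) / S ≤ x)
    (hx' : x ≤ (((1045395039 : ℕ) : ℝ) + (1503240 : ℕ)) / S) :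
    AltB (VFD κ) PP tK tL pcB [⟨3, 0, 0, 1449551462⟩] 0 3 3 0 6 (sgb true) (sgb true) x :=
  strip_altBD (m := 1449551462) true rfl hκ (SH.κ0 hκ (SH.hx1 hx).le (SH.hx2 hx').le) (SH.hx1 hx).le (SH.hx2 hx') (covB00).cov (covB63).cov hx hx' c_B06pp_033_s1 cutB_nil (noExt_B)

noncomputable def cut_B06pp_101_s1 : Cut := Cut.of [[⟨4, 0, 0, 1449551462⟩]]

noncomputable def f_B06pp_101_s1 : ℕ → ℕ → ℕ → ℕ → Bool := onCell 536870912 536870912 536870912 536870912 1045395039 1503240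
    (rowF 0 false true true .npn 1 0 1 (qsf 536870912 536870912 536870912 536870912 0) ndB0q1 ndB6q1 pcB0 cut_B06pp_101_s1 Ext.none)

def k0_B06pp_101_s1 : ∃ t, chk3 f_B06pp_101_s1 t 1 1 1 = true :=
  ⟨(a (l 3) (l 5)), by decide +kernel⟩

theorem c_B06pp_101_s1 : CertF 536870912 536870912 536870912 536870912 1045395039 1503240 false true true .npn 1 0 1
    ndB0q1 ndB6q1 pcB0 cut_B06pp_101_s1 Ext.none :=
  certF0 (fam := false) (s1 := true) (s2 := true) (a := 1) (b := 0) (c := 1) (cn := .npn) (n1 := ndB0q1) (n2 := ndB6q1) (pc := pcB0) (cut := cut_B06pp_101_s1) (xt := Ext.none) (P1 := 536870912) (W1 := 536870912) (P2 := 536870912) (W2 := 536870912) (P3 := 1045395039) (W3 := 1503240)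
    rfl k0_B06pp_101_s1

theorem s_B06pp_101_s1 {κ x : ℝ} (hκ : κ * h0 = ken x) (hx : ((1045395039 : ℕ) : ℝ) / S ≤ x)
    (hx' : x ≤ (((1045395039 : ℕ) : ℝ) + (1503240 : ℕ)) / S) :
    AltB (VFD κ) PP tK tL pcB [⟨3, 0, 0, 1449551462⟩] 1 0 1 0 6 (sgb true) (sgb true) x :=
  strip_altBD (m := 1449551462) true rfl hκ (SH.κ0 hκ (SH.hx1 hx).le (SH.hx2 hx').le) (SH.hx1 hx).le (SH.hx2 hx') (covB01).cov (covB61).cov hx hx' c_B06pp_101_s1 cutB_nil (noExt_B)

noncomputable def cut_B06pp_102_s1 : Cut := Cut.of [[⟨4, 0, 0, 1449551462⟩]]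

noncomputable def f_B06pp_102_s1 : ℕ → ℕ → ℕ → ℕ → Bool := onCell 536870912 536870912 1073741824 536870912 1045395039 1503240
    (rowF 0 false true true .npp 1 0 2 (qsf 536870912 536870912 1073741824 536870912 0) ndB0q1 ndB6q2 pcB0 cut_B06pp_102_s1 Ext.none)

def k0_B06pp_102_s1 : ∃ t, chk3 f_B06pp_102_s1 t 1 1 1 = true :=
  ⟨(a (l 3) (b (l 5) (l 3))), by decide +kernel⟩

theorem c_B06pp_102_s1 : CertF 536870912 536870912 1073741824 536870912 1045395039 1503240 false true true .npp 1 0 2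
    ndB0q1 ndB6q2 pcB0 cut_B06pp_102_s1 Ext.none :=
  certF0 (fam := false) (s1 := true) (s2 := true) (a := 1) (b := 0) (c := 2) (cn := .npp) (n1 := ndB0q1) (n2 := ndB6q2) (pc := pcB0) (cut := cut_B06pp_102_s1) (xt := Ext.none) (P1 := 536870912) (W1 := 536870912) (P2 := 1073741824) (W2 := 536870912) (P3 := 1045395039) (W3 := 1503240)
    rfl k0_B06pp_102_s1

theorem s_B06pp_102_s1 {κ x : ℝ} (hκ : κ * h0 = ken x) (hx : ((1045395039 : ℕ) : ℝ) / S ≤ x)
    (hx' : x ≤ (((1045395039 : ℕ) : ℝ) + (1503240 : ℕ)) / S) :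
    AltB (VFD κ) PP tK tL pcB [⟨3, 0, 0, 1449551462⟩] 1 0 2 0 6 (sgb true) (sgb true) x :=
  strip_altBD (m := 1449551462) true rfl hκ (SH.κ0 hκ (SH.hx1 hx).le (SH.hx2 hx').le) (SH.hx1 hx).le (SH.hx2 hx') (covB01).cov (covB62).cov hx hx' c_B06pp_102_s1 cutB_nil (noExt_B)

noncomputable def cut_B06pp_112_s1 : Cut := Cut.of [[⟨4, 0, 0, 1449551462⟩]]

noncomputable def f_B06pp_112_s1 : ℕ → ℕ → ℕ → ℕ → Bool := onCell 536870912 536870912 1073741824 536870912 1045395039 1503240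
    (rowF 0 false true true .dn 1 1 2 (qsf 536870912 536870912 1073741824 536870912 1) ndB0q1 ndB6q2 pcB1 cut_B06pp_112_s1 Ext.none)

def k0_B06pp_112_s1 : ∃ t, chk3 f_B06pp_112_s1 t 1 1 1 = true :=
  ⟨(a (l 3) (b (l 5) (l 3))), by decide +kernel⟩

theorem c_B06pp_112_s1 : CertF 536870912 536870912 1073741824 536870912 1045395039 1503240 false true true .dn 1 1 2
    ndB0q1 ndB6q2 pcB1 cut_B06pp_112_s1 Ext.none :=
  certF0 (fam := false) (s1 := true) (s2 := true) (a := 1) (b := 1) (c := 2) (cn := .dn) (n1 := ndB0q1) (n2 := ndB6q2) (pc := pcB1) (cut := cut_B06pp_112_s1) (xt := Ext.none) (P1 := 536870912) (W1 := 536870912) (P2 := 1073741824) (W2 := 536870912) (P3 := 1045395039) (W3 := 1503240)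
    rfl k0_B06pp_112_s1

theorem s_B06pp_112_s1 {κ x : ℝ} (hκ : κ * h0 = ken x) (hx : ((1045395039 : ℕ) : ℝ) / S ≤ x)
    (hx' : x ≤ (((1045395039 : ℕ) : ℝ) + (1503240 : ℕ)) / S) :
    AltB (VFD κ) PP tK tL pcB [⟨3, 0, 0, 1449551462⟩] 1 1 2 0 6 (sgb true) (sgb true) x :=
  strip_altBD (m := 1449551462) true rfl hκ (SH.κ0 hκ (SH.hx1 hx).le (SH.hx2 hx').le) (SH.hx1 hx).le (SH.hx2 hx') (covB01).cov (covB62).cov hx hx' c_B06pp_112_s1 cutB_nil (noExt_B)

noncomputable def cut_B06pp_113_s1 : Cut := Cut.of [[⟨4, 0, 0, 1449551462⟩], [⟨0, 1, 0, 14155776⟩, ⟨1, 1, 0, 14155776⟩, ⟨2, 2, 0, 524288⟩]]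

noncomputable def f_B06pp_113_s1 : ℕ → ℕ → ℕ → ℕ → Bool := onCell 536870912 536870912 0 1230186008 1045395039 1503240
    (rowF 2 false true true .nn 1 1 3 (qsf 536870912 536870912 0 1230186008 1) ndB0q1 ndB6q3 pcB1 cut_B06pp_113_s1 Ext.none)

def k0_B06pp_113_s1 : ∃ t, chk3 f_B06pp_113_s1 t 1 1 1 = true :=
  ⟨(a (b (l 2) (a (b (l 2) (b (l 2) (l 3))) (b (b (l 2) (a (l 2) (l 3))) (l 3)))) (b (a (l 2) (b (a (l 2) (a (l 2) (b (b (a (l 2) (b (a (l 2) (l 14)) (l 3))) (l 3)) (l 3)))) (l 3))) (b (a (l 3) (l 3)) (l 3)))), by decide +kernel⟩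

theorem c_B06pp_113_s1 : CertF 536870912 536870912 0 1230186008 1045395039 1503240 false true true .nn 1 1 3
    ndB0q1 ndB6q3 pcB1 cut_B06pp_113_s1 Ext.none :=
  certF2 (fam := false) (s1 := true) (s2 := true) (a := 1) (b := 1) (c := 3) (cn := .nn) (n1 := ndB0q1) (n2 := ndB6q3) (pc := pcB1) (cut := cut_B06pp_113_s1) (xt := Ext.none) (P1 := 536870912) (W1 := 536870912) (P2 := 0) (W2 := 1230186008) (P3 := 1045395039) (W3 := 1503240)
    rfl (fun _ => rfl) k0_B06pp_113_s1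

theorem s_B06pp_113_s1 {κ x : ℝ} (hκ : κ * h0 = ken x) (hx : ((1045395039 : ℕ) : ℝ) / S ≤ x)
    (hx' : x ≤ (((1045395039 : ℕ) : ℝ) + (1503240 : ℕ)) / S)
    (H : CutB (VFD κ) PP tK tL pcB (Cut.of [[⟨0, 1, 0, 14155776⟩, ⟨1, 1, 0, 14155776⟩, ⟨2, 2, 0, 524288⟩]]) 1 1 3 0 6 (sgb true) (sgb true) x) :
    AltB (VFD κ) PP tK tL pcB [⟨3, 0, 0, 1449551462⟩] 1 1 3 0 6 (sgb true) (sgb true) x :=
  strip_altBD (m := 1449551462) true rfl hκ (SH.κ0 hκ (SH.hx1 hx).le (SH.hx2 hx').le) (SH.hx1 hx).le (SH.hx2 hx') (covB01).cov (covB63).cov hx hx' c_B06pp_113_s1 H (noExt_B)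

noncomputable def cut_B06pp_123_s1 : Cut := Cut.of [[⟨4, 0, 0, 1449551462⟩], [⟨0, 1, 0, 14155776⟩, ⟨1, 1, 0, 14155776⟩, ⟨2, 2, 0, 524288⟩]]

noncomputable def xt_B06pp_123_s1 : Ext := strExt dd false true true .u0 .s2 .u2 .npn 1 2 3 rfl rfl gf2 vv ndB0q1 ndB6q3

noncomputable def f_B06pp_123_s1 : ℕ → ℕ → ℕ → ℕ → Bool := onCell 1073741824 536870912 0 1230186008 1045395039 1503240
    (rowF 2 false true true .npn 1 2 3 (qsf 536870912 536870912 0 1230186008 2) ndB0q1 ndB6q3 pcB2 cut_B06pp_123_s1 xt_B06pp_123_s1)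

def k0_B06pp_123_s1 : ∃ t, chk3 f_B06pp_123_s1 t 32 16 1 = true :=
  ⟨(b (a (l 14) (a (l 14) (b (l 16763272) (a (a (l 14) (b (b (l 16775552) (l 16773128)) (b (l 16770448) (b (l 16768144) (a (b (l 16767616) (l 16768712)) (l 16767184)))))) (b (l 16776880) (b (a (l 16770648) (l 16771000)) (a (l 16767880) (l 16768784)))))))) (a (l 3) (b (a (a (l 3) (l 3)) (b (a (b (a (l 524594575) (b (a (l 524107663) (b (l 16767872) (l 16769896))) (l 523956111))) (l 524183183)) (b (a (b (a (l 16766968) (l 16766288)) (a (l 16770136) (b (l 16766448) (l 16768144)))) (b (l 16766752) (l 16765968))) (a (l 523643535) (b (a (l 16768496) (l 16766264)) (l 523712399))))) (a (l 3) (l 523599135)))) (l 3)))), by decide +kernel⟩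

def k1_B06pp_123_s1 : ∃ t, chk3 f_B06pp_123_s1 t 33 16 1 = true :=
  ⟨(b (a (b (l 16771960) (a (b (l 16776256) (b (l 16773680) (a (l 16748888) (l 16771528)))) (l 16773712))) (b (l 16755640) (l 16763608))) (a (b (a (b (a (b (l 16767424) (a (b (l 16765440) (a (l 16767176) (l 16765392))) (b (l 16766184) (l 16765064)))) (b (l 16769312) (l 16766968))) (a (b (a (l 523986319) (b (a (l 16766040) (l 16764680)) (l 16758136))) (l 524066447)) (b (a (b (l 16764824) (a (l 16765064) (l 16764128))) (l 16765184)) (a (b (a (l 16768576) (l 16765952)) (l 524510607)) (b (l 16764200) (a (l 16767232) (l 16764904))))))) (b (b (l 16769688) (a (l 16768960) (l 16769392))) (a (b (l 16766624) (a (l 16764104) (l 16764880))) (b (l 16768752) (l 16766392))))) (a (a (l 523917455) (l 524531855)) (b (a (b (a (b (a (l 16765968) (l 16764016)) (l 16768600)) (b (l 16763336) (a (l 16764864) (l 16763304)))) (l 525169807)) (b (a (l 16763664) (l 16764712))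 (a (b (l 16763584) (l 16766176)) (b (l 16763080) (l 16762992))))) (a (l 525088911) (b (a (l 525572751) (b (l 16765128) (l 16768576))) (l 525672079)))))) (b (a (b (l 16768704) (a (l 16684648) (l 16768288))) (l 16764760)) (a (b (a (l 16765216) (l 16767912)) (a (b (a (b (l 16762544) (l 16764216)) (l 16762640)) (a (l 16758656) (b (l 16763440) (l 16766296)))) (b (l 16764208) (a (b (l 16762088) (l 16762800)) (l 16762632))))) (b (a (l 16768704) (l 16768080)) (a (l 16765472) (l 16768240))))))), by decide +kernel⟩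

def k2_B06pp_123_s1 : ∃ t, chk3 f_B06pp_123_s1 t 16 17 1 = true :=
  ⟨(a (l 3) (b (a (a (l 3) (b (a (l 3) (l 525546127)) (l 3))) (b (a (b (a (l 526206607) (b (a (l 16766896) (b (l 16762296) (l 16764384))) (l 526790799))) (l 526416015)) (a (b (b (a (l 16762136) (l 16762928)) (a (b (l 16763608) (l 16766464)) (b (l 16761712) (l 16762968)))) (l 527332751)) (b (b (l 16764752) (l 16762640)) (b (a (b (l 16762448) (l 16764688)) (l 16762056)) (a (l 16768968) (l 16765296)))))) (a (l 3) (l 527508511)))) (l 3))), by decide +kernel⟩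

def k3_B06pp_123_s1 : ∃ t, chk3 f_B06pp_123_s1 t 16 9 1 = true :=
  ⟨(l 3), by decide +kernel⟩

def k4_B06pp_123_s1 : ∃ t, chk3 f_B06pp_123_s1 t 17 8 1 = true :=
  ⟨(b (a (b (a (b (l 16711608) (l 16737392)) (l 16592584)) (a (b (l 16751792) (a (b (l 16765288) (l 16768696)) (l 16761216))) (l 16734648))) (b (l 16506312) (a (l 16613976) (l 16569920)))) (a (b (a (b (a (b (l 16767792) (a (b (l 16763128) (a (b (l 16761760) (l 16763312)) (l 16761888))) (l 16764616))) (b (l 16769728) (l 16768384))) (a (b (a (b (a (l 16767136) (l 16764024)) (l 528390031)) (b (a (l 16751680) (l 16762168)) (a (l 16765528) (b (l 16761984) (l 16763600))))) (l 528599951)) (b (a (b (l 16764120) (l 16762312)) (l 16765640)) (a (b (a (l 16764264) (l 16762376)) (l 16767216)) (b (l 16762600) (a (l 16763320) (l 16762016))))))) (b (a (b (l 16765336) (l 16770928)) (l 16760448)) (a (b (l 16769400) (l 16765472)) (b (l 16772128) (l 16770360))))) (a (b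 (a (l 528482703) (b (a (l 529265295) (b (l 16765960) (l 529692559))) (l 529422735))) (l 3)) (b (a (b (a (b (a (l 16762608) (l 16762008)) (a (l 16765824) (l 16763528))) (b (l 16763808) (l 16762376))) (a (l 530045327) (b (a (l 16764568) (l 16762776)) (l 16767104)))) (b (l 16766496) (a (b (l 16762440) (a (l 16763624) (l 16762224))) (l 16763736)))) (a (l 530133647) (b (a (l 16767576) (b (l 16752192) (l 16764800))) (l 530746511)))))) (b (a (b (l 16741448) (a (l 16768976) (l 16761016))) (l 16723248)) (a (b (a (l 16769232) (l 16772632)) (a (b (a (l 16741736) (l 16764688)) (a (b (l 16763872) (l 16766608)) (b (l 16762040) (l 16762984)))) (b (l 16767896) (l 16763912)))) (b (l 16764424) (a (l 16769912) (l 16772736))))))), by decide +kernel⟩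

def k5_B06pp_123_s1 : ∃ t, chk3 f_B06pp_123_s1 t 17 9 1 = true :=
  ⟨(b (a (b (a (l 3) (b (a (l 3) (l 530647695)) (l 3))) (l 3)) (b (a (a (l 529991455) (b (b (a (b (l 16762152) (l 16764048)) (l 16761832)) (a (l 16768448) (l 16743456))) (l 531288719))) (b (a (b (l 16764344) (a (b (l 16760848) (l 16761760)) (l 16761432))) (l 16766104)) (a (b (a (l 16765352) (b (l 16760656) (l 16762432))) (l 531371663)) (b (l 16760768) (a (l 16762640) (l 16759920)))))) (a (a (l 3) (l 530562591)) (b (l 531352719) (l 531243151))))) (l 3)), by decide +kernel⟩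

def k6_B06pp_123_s1 : ∃ t, chk3 f_B06pp_123_s1 t 9 4 1 = true :=
  ⟨(b (b (a (b (l 16392192) (a (b (l 16548056) (l 16601488)) (l 16452264))) (b (l 16113968) (l 16254344))) (a (a (b (l 16661720) (a (b (l 16736728) (l 16764192)) (l 16716712))) (b (l 16480424) (l 16653968))) (a (b (l 16462152) (l 16558336)) (b (l 16332976) (l 16461704))))) (a (b (a (b (a (b (l 16770856) (a (l 16762440) (l 16766104))) (b (l 16763976) (l 16770648))) (a (b (a (b (a (l 16760240) (l 16758696)) (a (l 16764592) (l 16760808))) (b (l 16761168) (l 16758560))) (a (l 531401871) (b (a (l 16761384) (l 16758472)) (l 16764544)))) (b (l 16764672) (a (b (l 16758064) (l 16737392)) (l 16760096))))) (b (a (l 16747976) (l 16712856)) (a (l 16767400) (l 16763656)))) (a (b (a (l 530767391) (b (a (b (l 16761568) (l 16766352)) (b (l 16756736) (l 16759016))) (l 531445391))) (a (l 3) (l 531292815))) (b (a (b (a (l 16757240) (l 16760680)) (a (b (l 16756712)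 (l 16759808)) (l 16755656))) (l 16762496)) (a (b (a (l 531493775) (b (l 16757224) (l 16760960))) (l 531435663)) (b (a (l 16754976) (l 16756136)) (a (l 16760064) (l 16754792))))))) (b (a (b (l 16647680) (a (l 16745880) (l 16708088))) (l 16598632)) (a (b (a (l 16767240) (l 16761648)) (a (b (l 16760520) (l 16755208)) (l 16763424))) (b (l 16718472) (a (l 16766032) (l 16756656))))))), by decide +kernel⟩

def k7_B06pp_123_s1 : ∃ t, chk3 f_B06pp_123_s1 t 5 4 1 = true :=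
  ⟨(b (a (b (a (b (l 15912312) (l 15981640)) (l 6)) (a (a (l 16204032) (l 16150184)) (l 15952000))) (l 6)) (a (a (b (a (l 16416400) (a (l 16430880) (a (l 16397616) (b (l 16344384) (l 16425984))))) (a (b (l 16627776) (l 16703592)) (a (l 16592328) (a (l 16553040) (l 16522856))))) (b (b (l 16216096) (l 16330920)) (l 16449400))) (a (b (l 16062280) (l 16307992)) (b (l 6) (l 15908368))))), by decide +kernel⟩

def k8_B06pp_123_s1 : ∃ t, chk3 f_B06pp_123_s1 t 3 4 1 = true :=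
  ⟨(b (l 6) (l 6)), by decide +kernel⟩

def k9_B06pp_123_s1 : ∃ t, chk3 f_B06pp_123_s1 t 2 5 1 = true :=
  ⟨(a (a (l 3) (a (b (a (l 3) (b (b (a (l 531286415) (l 531474575)) (a (l 3) (l 531276431))) (l 3))) (l 3)) (b (b (a (b (a (b (a (l 16754840) (l 16752552)) (a (l 16761280) (l 16754920))) (b (l 16756744) (l 16752480))) (a (l 531455631) (b (a (l 16754944) (l 16750992)) (a (l 16761792) (l 16754856))))) (b (l 16762216) (a (b (l 16753904) (l 16750928)) (l 16756784)))) (a (b (a (l 531260047) (l 531429519)) (l 531173151)) (a (b (b (a (l 16754624) (l 16750056)) (a (l 16761352) (l 16754240))) (l 531393167)) (b (a (l 16750016) (l 16751464)) (a (l 16715048) (l 16730792)))))) (a (l 3) (b (b (l 529962015) (a (l 3) (l 531146383))) (b (a (l 3) (l 530949775)) (l 3))))))) (a (a (a (b (b (b (a (l 16762088) (l 16743904)) (l 16760040)) (a (b (l 16754848) (l 16665728)) (l 16756056))) (b (a (b (a (l 16713240) (l 16666376)) (l 531272079))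 (b (l 16749272) (a (l 16668912) (l 16748936)))) (a (b (l 531127583) (a (l 3) (l 530943119))) (b (a (l 531207823) (l 16755312)) (l 531057439))))) (b (b (a (b (l 16697696) (l 16748032)) (a (l 16685000) (l 16562600))) (a (l 16758360) (a (l 16754608) (a (l 16663000) (b (l 16718744) (l 16756000)))))) (a (b (b (l 16754352) (l 16750424)) (a (b (l 16750440) (l 16757456)) (b (l 16749840) (l 16668232)))) (a (b (l 16756256) (b (l 16753496) (l 16751544))) (b (a (l 16759096) (l 16760512)) (a (l 16756640) (b (l 16759528) (l 16758960)))))))) (b (b (l 16577536) (a (l 16713696) (l 16672000))) (b (a (l 16752488) (l 16733552)) (a (l 16749496) (l 16730408))))) (b (b (l 16336376) (l 16644912)) (b (a (l 16656336) (l 16639328)) (a (l 16705128) (l 16672688)))))), by decide +kernel⟩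

def k10_B06pp_123_s1 : ∃ t, chk3 f_B06pp_123_s1 t 3 5 1 = true :=
  ⟨(a (a (b (b (l 6) (l 16362184)) (b (l 16511008) (a (l 16632480) (l 16578976)))) (l 6)) (l 6)), by decide +kernel⟩

def k11_B06pp_123_s1 : ∃ t, chk3 f_B06pp_123_s1 t 1 6 1 = true :=
  ⟨(a (a (l 3) (a (a (a (a (l 3) (b (b (b (l 530849311) (a (l 3) (l 530632847))) (l 3)) (l 3))) (a (b (b (b (a (l 530887823) (l 16716880)) (a (l 530669967) (l 530779935))) (b (a (l 530445967) (l 530555167)) (a (l 3) (a (l 530285455) (l 530297487))))) (l 3)) (b (a (b (b (a (l 16753936) (l 16752624)) (a (l 16761024) (l 16757456))) (b (a (l 530594079) (l 16722200)) (a (a (l 530345103) (l 530365583)) (l 530383759)))) (b (b (a (l 16755584) (l 16758528)) (a (a (l 16755464) (l 16756080)) (l 16758192))) (b (a (a (l 16761272) (l 16717768)) (a (a (a (l 16759088) (b (l 16759968) (l 16739408))) (l 16760736)) (l 16759464))) (b (a (l 16764888) (a (a (a (l 16762704) (l 16741344))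 (l 16761600)) (l 16760192))) (l 16765680))))) (a (b (l 529997903) (l 3)) (b (b (b (l 16747184) (a (l 530094415) (l 16768376))) (a (l 529897807) (b (l 16770328) (a (l 16762552) (l 16770992))))) (a (b (l 529622607) (l 529330255)) (a (a (b (l 529633583) (l 529340207)) (b (b (l 16763448) (b (l 16774816) (l 16775296))) (b (b (l 16770456) (b (l 16775952) (l 16776096))) (a (a (l 529266991) (b (a (l 529306159) (l 16776328)) (b (l 16776520) (l 16776576)))) (b (l 16775992) (l 16776144)))))) (b (l 529644895) (l 529350239))))))))) (b (b (b (l 16736640) (l 16650696)) (a (b (l 16745384) (a (l 16711192) (l 16738392))) (l 16634544))) (b (a (b (a (l 16736464) (l 16741816)) (l 530003295)) (l 16678200)) (l 529628511)))) (a (b (b (l 16692320) (l 16680840)) (b (l 16591456) (l 529834335))) (b (b (l 16653136) (l 16633296)) (b (l 16617160) (l 16607704)))))) (a (b (a (b (l 16598240) (l 16564152)) (b (l 16504376) (l 16466200))) (a (b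 (l 16448304) (l 16422888)) (b (l 16413168) (l 1)))) (l 6))), by decide +kernel⟩

def k12_B06pp_123_s1 : ∃ t, chk3 f_B06pp_123_s1 t 1 7 1 = true :=
  ⟨(a (b (a (l 3) (a (a (a (l 3) (a (l 3) (a (b (l 3) (l 527846719)) (b (b (a (l 3) (a (a (l 529027119) (b (b (a (a (l 529150255) (b (l 16776608) (l 16776616))) (l 16770960)) (a (a (l 529070639) (b (l 16776600) (l 16776568))) (l 16770928))) (b (a (b (l 16774024) (l 16776560)) (l 16770808)) (b (l 16776176) (l 16776040))))) (l 529036127))) (a (l 528684351) (a (a (l 528692015) (b (b (b (l 16775880) (l 16775696)) (l 16770120)) (b (l 16774832) (l 16774192)))) (l 528699743)))) (b (a (l 528325951) (b (b (l 16762368) (l 16771976)) (b (l 16770968) (l 16769840)))) (a (l 527941183) (b (l 16746880) (l 1)))))))) (b (l 528965983) (l 528206943))) (b (a (l 529116255) (l 16509616)) (l 1)))) (a (l 3) (a (a (b (a (l 3) (l 1)) (l 1)) (l 1)) (l 1)))) (l 1)), by decide +kernel⟩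

theorem t13_B06pp_123_s1 : ∃ t, chk3 f_B06pp_123_s1 t 1 3 1 = true := ex3_b k11_B06pp_123_s1 k12_B06pp_123_s1

theorem t14_B06pp_123_s1 : ∃ t, chk3 f_B06pp_123_s1 t 1 5 1 = true := ex3_a k9_B06pp_123_s1 k10_B06pp_123_s1

theorem t15_B06pp_123_s1 : ∃ t, chk3 f_B06pp_123_s1 t 17 4 1 = true := ex3_b k4_B06pp_123_s1 k5_B06pp_123_s1

theorem t16_B06pp_123_s1 : ∃ t, chk3 f_B06pp_123_s1 t 16 16 1 = true := ex3_a k0_B06pp_123_s1 k1_B06pp_123_s1

theorem t17_B06pp_123_s1 : ∃ t, chk3 f_B06pp_123_s1 t 16 8 1 = true := ex3_b t16_B06pp_123_s1 k2_B06pp_123_s1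

theorem t18_B06pp_123_s1 : ∃ t, chk3 f_B06pp_123_s1 t 16 4 1 = true := ex3_b t17_B06pp_123_s1 k3_B06pp_123_s1

theorem t19_B06pp_123_s1 : ∃ t, chk3 f_B06pp_123_s1 t 8 4 1 = true := ex3_a t18_B06pp_123_s1 t15_B06pp_123_s1

theorem t20_B06pp_123_s1 : ∃ t, chk3 f_B06pp_123_s1 t 4 4 1 = true := ex3_a t19_B06pp_123_s1 k6_B06pp_123_s1

theorem t21_B06pp_123_s1 : ∃ t, chk3 f_B06pp_123_s1 t 2 4 1 = true := ex3_a t20_B06pp_123_s1 k7_B06pp_123_s1

theorem t22_B06pp_123_s1 : ∃ t, chk3 f_B06pp_123_s1 t 1 4 1 = true := ex3_a t21_B06pp_123_s1 k8_B06pp_123_s1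

theorem t23_B06pp_123_s1 : ∃ t, chk3 f_B06pp_123_s1 t 1 2 1 = true := ex3_b t22_B06pp_123_s1 t14_B06pp_123_s1

theorem t24_B06pp_123_s1 : ∃ t, chk3 f_B06pp_123_s1 t 1 1 1 = true := ex3_b t23_B06pp_123_s1 t13_B06pp_123_s1

theorem c_B06pp_123_s1 : CertF 536870912 536870912 0 1230186008 1045395039 1503240 false true true .npn 1 2 3
    ndB0q1 ndB6q3 pcB2 cut_B06pp_123_s1 xt_B06pp_123_s1 :=
  certF2 (fam := false) (s1 := true) (s2 := true) (a := 1) (b := 2) (c := 3) (cn := .npn) (n1 := ndB0q1) (n2 := ndB6q3) (pc := pcB2) (cut := cut_B06pp_123_s1) (xt := xt_B06pp_123_s1) (P1 := 536870912) (W1 := 536870912) (P2 := 0) (W2 := 1230186008) (P3 := 1045395039) (W3 := 1503240)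
    rfl (fun _ => rfl) t24_B06pp_123_s1

theorem s_B06pp_123_s1 {κ x : ℝ} (hκ : κ * h0 = ken x) (hx : ((1045395039 : ℕ) : ℝ) / S ≤ x)
    (hx' : x ≤ (((1045395039 : ℕ) : ℝ) + (1503240 : ℕ)) / S)
    (H : CutB (VFD κ) PP tK tL pcB (Cut.of [[⟨0, 1, 0, 14155776⟩, ⟨1, 1, 0, 14155776⟩, ⟨2, 2, 0, 524288⟩]]) 1 2 3 0 6 (sgb true) (sgb true) x) :
    AltB (VFD κ) PP tK tL pcB [⟨3, 0, 0, 1449551462⟩] 1 2 3 0 6 (sgb true) (sgb true) x :=
  strip_altBD (m := 1449551462) true rfl hκ (SH.κ0 hκ (SH.hx1 hx).le (SH.hx2 hx').le) (SH.hx1 hx).le (SH.hx2 hx') (covB01).cov (covB63).cov hx hx' c_B06pp_123_s1 H ((okx hx hx').extB (T := tt) (sideB hx hx') hκ rfl rfl (.O 1 true) (.N 3 true) rfl)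

noncomputable def cut_B06pp_133_s1 : Cut := Cut.of [[⟨4, 0, 0, 1449551462⟩]]

noncomputable def f_B06pp_133_s1 : ℕ → ℕ → ℕ → ℕ → Bool := onCell 1610612736 536870912 0 1230186008 1045395039 1503240
    (rowF 2 false true true .dn 1 3 3 (qsf 536870912 536870912 0 1230186008 3) ndB0q1 ndB6q3 pcB3 cut_B06pp_133_s1 Ext.none)

def k0_B06pp_133_s1 : ∃ t, chk3 f_B06pp_133_s1 t 1 1 1 = true :=
  ⟨(b (l 6) (l 1)), by decide +kernel⟩

theorem c_B06pp_133_s1 : CertF 536870912 536870912 0 1230186008 1045395039 1503240 false true true .dn 1 3 3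
    ndB0q1 ndB6q3 pcB3 cut_B06pp_133_s1 Ext.none :=
  certF2 (fam := false) (s1 := true) (s2 := true) (a := 1) (b := 3) (c := 3) (cn := .dn) (n1 := ndB0q1) (n2 := ndB6q3) (pc := pcB3) (cut := cut_B06pp_133_s1) (xt := Ext.none) (P1 := 536870912) (W1 := 536870912) (P2 := 0) (W2 := 1230186008) (P3 := 1045395039) (W3 := 1503240)
    rfl (fun _ => rfl) k0_B06pp_133_s1

theorem s_B06pp_133_s1 {κ x : ℝ} (hκ : κ * h0 = ken x) (hx : ((1045395039 : ℕ) : ℝ) / S ≤ x)
    (hx' : x ≤ (((1045395039 : ℕ) : ℝ) + (1503240 : ℕ)) / S) :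
    AltB (VFD κ) PP tK tL pcB [⟨3, 0, 0, 1449551462⟩] 1 3 3 0 6 (sgb true) (sgb true) x :=
  strip_altBD (m := 1449551462) true rfl hκ (SH.κ0 hκ (SH.hx1 hx).le (SH.hx2 hx').le) (SH.hx1 hx).le (SH.hx2 hx') (covB01).cov (covB63).cov hx hx' c_B06pp_133_s1 cutB_nil (noExt_B)

noncomputable def cut_B06pp_202_s1 : Cut := Cut.of [[⟨4, 0, 0, 1449551462⟩]]

noncomputable def f_B06pp_202_s1 : ℕ → ℕ → ℕ → ℕ → Bool := onCell 0 536870912 1073741824 536870912 1045395039 1503240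
    (rowF 0 false true true .pp 2 0 2 (qsf 0 536870912 1073741824 536870912 0) ndB0q2 ndB6q2 pcB0 cut_B06pp_202_s1 Ext.none)

def k0_B06pp_202_s1 : ∃ t, chk3 f_B06pp_202_s1 t 1 1 1 = true :=
  ⟨(l 5), by decide +kernel⟩

theorem c_B06pp_202_s1 : CertF 0 536870912 1073741824 536870912 1045395039 1503240 false true true .pp 2 0 2
    ndB0q2 ndB6q2 pcB0 cut_B06pp_202_s1 Ext.none :=
  certF0 (fam := false) (s1 := true) (s2 := true) (a := 2) (b := 0) (c := 2) (cn := .pp) (n1 := ndB0q2) (n2 := ndB6q2) (pc := pcB0) (cut := cut_B06pp_202_s1) (xt := Ext.none) (P1 := 0) (W1 := 536870912) (P2 := 1073741824) (W2 := 536870912) (P3 := 1045395039) (W3 := 1503240)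
    rfl k0_B06pp_202_s1

theorem s_B06pp_202_s1 {κ x : ℝ} (hκ : κ * h0 = ken x) (hx : ((1045395039 : ℕ) : ℝ) / S ≤ x)
    (hx' : x ≤ (((1045395039 : ℕ) : ℝ) + (1503240 : ℕ)) / S) :
    AltB (VFD κ) PP tK tL pcB [⟨3, 0, 0, 1449551462⟩] 2 0 2 0 6 (sgb true) (sgb true) x :=
  strip_altBD (m := 1449551462) true rfl hκ (SH.κ0 hκ (SH.hx1 hx).le (SH.hx2 hx').le) (SH.hx1 hx).le (SH.hx2 hx') (covB02).cov (covB62).cov hx hx' c_B06pp_202_s1 cutB_nil (noExt_B)

noncomputable def cut_B06pp_203_s1 : Cut := Cut.of [[⟨4, 0, 0, 1449551462⟩]]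

noncomputable def f_B06pp_203_s1 : ℕ → ℕ → ℕ → ℕ → Bool := onCell 0 536870912 0 1230186008 1045395039 1503240
    (rowF 0 false true true .up 2 0 3 (qsf 0 536870912 0 1230186008 0) ndB0q2 ndB6q3 pcB0 cut_B06pp_203_s1 Ext.none)

def k0_B06pp_203_s1 : ∃ t, chk3 f_B06pp_203_s1 t 1 1 1 = true :=
  ⟨(b (l 2) (a (l 5) (b (l 2) (l 3)))), by decide +kernel⟩

theorem c_B06pp_203_s1 : CertF 0 536870912 0 1230186008 1045395039 1503240 false true true .up 2 0 3
    ndB0q2 ndB6q3 pcB0 cut_B06pp_203_s1 Ext.none :=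
  certF0 (fam := false) (s1 := true) (s2 := true) (a := 2) (b := 0) (c := 3) (cn := .up) (n1 := ndB0q2) (n2 := ndB6q3) (pc := pcB0) (cut := cut_B06pp_203_s1) (xt := Ext.none) (P1 := 0) (W1 := 536870912) (P2 := 0) (W2 := 1230186008) (P3 := 1045395039) (W3 := 1503240)
    rfl k0_B06pp_203_s1

theorem s_B06pp_203_s1 {κ x : ℝ} (hκ : κ * h0 = ken x) (hx : ((1045395039 : ℕ) : ℝ) / S ≤ x)
    (hx' : x ≤ (((1045395039 : ℕ) : ℝ) + (1503240 : ℕ)) / S) :
    AltB (VFD κ) PP tK tL pcB [⟨3, 0, 0, 1449551462⟩] 2 0 3 0 6 (sgb true) (sgb true) x :=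
  strip_altBD (m := 1449551462) true rfl hκ (SH.κ0 hκ (SH.hx1 hx).le (SH.hx2 hx').le) (SH.hx1 hx).le (SH.hx2 hx') (covB02).cov (covB63).cov hx hx' c_B06pp_203_s1 cutB_nil (noExt_B)

noncomputable def cut_B06pp_213_s1 : Cut := Cut.of [[⟨4, 0, 0, 1449551462⟩], [⟨0, 1, 0, 14155776⟩, ⟨1, 1, 0, 14155776⟩, ⟨2, 2, 0, 524288⟩]]

noncomputable def f_B06pp_213_s1 : ℕ → ℕ → ℕ → ℕ → Bool := onCell 0 536870912 0 1230186008 1045395039 1503240
    (rowF 0 false true true .pnn 2 1 3 (qsf 0 536870912 0 1230186008 1) ndB0q2 ndB6q3 pcB1 cut_B06pp_213_s1 Ext.none)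

def k0_B06pp_213_s1 : ∃ t, chk3 f_B06pp_213_s1 t 1 1 1 = true :=
  ⟨(b (a (l 3) (b (a (l 3) (a (l 3) (b (a (l 3) (b (b (a (l 3) (b (l 14) (l 3))) (l 3)) (l 3))) (l 3)))) (l 3))) (a (l 5) (b (l 3) (l 3)))), by decide +kernel⟩

theorem c_B06pp_213_s1 : CertF 0 536870912 0 1230186008 1045395039 1503240 false true true .pnn 2 1 3
    ndB0q2 ndB6q3 pcB1 cut_B06pp_213_s1 Ext.none :=
  certF0 (fam := false) (s1 := true) (s2 := true) (a := 2) (b := 1) (c := 3) (cn := .pnn) (n1 := ndB0q2) (n2 := ndB6q3) (pc := pcB1) (cut := cut_B06pp_213_s1) (xt := Ext.none) (P1 := 0) (W1 := 536870912) (P2 := 0) (W2 := 1230186008) (P3 := 1045395039) (W3 := 1503240)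
    rfl k0_B06pp_213_s1

theorem s_B06pp_213_s1 {κ x : ℝ} (hκ : κ * h0 = ken x) (hx : ((1045395039 : ℕ) : ℝ) / S ≤ x)
    (hx' : x ≤ (((1045395039 : ℕ) : ℝ) + (1503240 : ℕ)) / S)
    (H : CutB (VFD κ) PP tK tL pcB (Cut.of [[⟨0, 1, 0, 14155776⟩, ⟨1, 1, 0, 14155776⟩, ⟨2, 2, 0, 524288⟩]]) 2 1 3 0 6 (sgb true) (sgb true) x) :
    AltB (VFD κ) PP tK tL pcB [⟨3, 0, 0, 1449551462⟩] 2 1 3 0 6 (sgb true) (sgb true) x :=
  strip_altBD (m := 1449551462) true rfl hκ (SH.κ0 hκ (SH.hx1 hx).le (SH.hx2 hx').le) (SH.hx1 hx).le (SH.hx2 hx') (covB02).cov (covB63).cov hx hx' c_B06pp_213_s1 H (noExt_B)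

noncomputable def cut_B06pm_001_s1 : Cut := Cut.of [[⟨4, 0, 0, 1449551462⟩]]

noncomputable def f_B06pm_001_s1 : ℕ → ℕ → ℕ → ℕ → Bool := onCell 0 536870912 536870912 536870912 1045395039 1503240
    (rowF 0 false true false .up 0 0 1 (qsf 0 536870912 536870912 536870912 0) ndB0q0 ndB6q1 pcB0 cut_B06pm_001_s1 Ext.none)

def k0_B06pm_001_s1 : ∃ t, chk3 f_B06pm_001_s1 t 1 1 1 = true :=
  ⟨(l 4), by decide +kernel⟩

theorem c_B06pm_001_s1 : CertF 0 536870912 536870912 536870912 1045395039 1503240 false true false .up 0 0 1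
    ndB0q0 ndB6q1 pcB0 cut_B06pm_001_s1 Ext.none :=
  certF0 (fam := false) (s1 := true) (s2 := false) (a := 0) (b := 0) (c := 1) (cn := .up) (n1 := ndB0q0) (n2 := ndB6q1) (pc := pcB0) (cut := cut_B06pm_001_s1) (xt := Ext.none) (P1 := 0) (W1 := 536870912) (P2 := 536870912) (W2 := 536870912) (P3 := 1045395039) (W3 := 1503240)
    rfl k0_B06pm_001_s1

theorem s_B06pm_001_s1 {κ x : ℝ} (hκ : κ * h0 = ken x) (hx : ((1045395039 : ℕ) : ℝ) / S ≤ x)
    (hx' : x ≤ (((1045395039 : ℕ) : ℝ) + (1503240 : ℕ)) / S) :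
    AltB (VFD κ) PP tK tL pcB [⟨3, 0, 0, 1449551462⟩] 0 0 1 0 6 (sgb true) (sgb false) x :=
  strip_altBD (m := 1449551462) true rfl hκ (SH.κ0 hκ (SH.hx1 hx).le (SH.hx2 hx').le) (SH.hx1 hx).le (SH.hx2 hx') (covB00).cov (covB61).cov hx hx' c_B06pm_001_s1 cutB_nil (noExt_B)

noncomputable def cut_B06pm_011_s1 : Cut := Cut.of [[⟨4, 0, 0, 1449551462⟩]]

noncomputable def f_B06pm_011_s1 : ℕ → ℕ → ℕ → ℕ → Bool := onCell 0 536870912 536870912 536870912 1045395039 1503240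
    (rowF 0 false true false .pnn 0 1 1 (qsf 0 536870912 536870912 536870912 1) ndB0q0 ndB6q1 pcB1 cut_B06pm_011_s1 Ext.none)

def k0_B06pm_011_s1 : ∃ t, chk3 f_B06pm_011_s1 t 1 1 1 = true :=
  ⟨(l 4), by decide +kernel⟩

theorem c_B06pm_011_s1 : CertF 0 536870912 536870912 536870912 1045395039 1503240 false true false .pnn 0 1 1
    ndB0q0 ndB6q1 pcB1 cut_B06pm_011_s1 Ext.none :=
  certF0 (fam := false) (s1 := true) (s2 := false) (a := 0) (b := 1) (c := 1) (cn := .pnn) (n1 := ndB0q0) (n2 := ndB6q1) (pc := pcB1) (cut := cut_B06pm_011_s1) (xt := Ext.none) (P1 := 0) (W1 := 536870912) (P2 := 536870912) (W2 := 536870912) (P3 := 1045395039) (W3 := 1503240)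
    rfl k0_B06pm_011_s1

theorem s_B06pm_011_s1 {κ x : ℝ} (hκ : κ * h0 = ken x) (hx : ((1045395039 : ℕ) : ℝ) / S ≤ x)
    (hx' : x ≤ (((1045395039 : ℕ) : ℝ) + (1503240 : ℕ)) / S) :
    AltB (VFD κ) PP tK tL pcB [⟨3, 0, 0, 1449551462⟩] 0 1 1 0 6 (sgb true) (sgb false) x :=
  strip_altBD (m := 1449551462) true rfl hκ (SH.κ0 hκ (SH.hx1 hx).le (SH.hx2 hx').le) (SH.hx1 hx).le (SH.hx2 hx') (covB00).cov (covB61).cov hx hx' c_B06pm_011_s1 cutB_nil (noExt_B)

noncomputable def cut_B06pm_012_s1 : Cut := Cut.of [[⟨4, 0, 0, 1449551462⟩]]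

noncomputable def f_B06pm_012_s1 : ℕ → ℕ → ℕ → ℕ → Bool := onCell 0 536870912 1073741824 536870912 1045395039 1503240
    (rowF 0 false true false .pnp 0 1 2 (qsf 0 536870912 1073741824 536870912 1) ndB0q0 ndB6q2 pcB1 cut_B06pm_012_s1 Ext.none)

def k0_B06pm_012_s1 : ∃ t, chk3 f_B06pm_012_s1 t 1 1 1 = true :=
  ⟨(l 4), by decide +kernel⟩

theorem c_B06pm_012_s1 : CertF 0 536870912 1073741824 536870912 1045395039 1503240 false true false .pnp 0 1 2
    ndB0q0 ndB6q2 pcB1 cut_B06pm_012_s1 Ext.none :=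
  certF0 (fam := false) (s1 := true) (s2 := false) (a := 0) (b := 1) (c := 2) (cn := .pnp) (n1 := ndB0q0) (n2 := ndB6q2) (pc := pcB1) (cut := cut_B06pm_012_s1) (xt := Ext.none) (P1 := 0) (W1 := 536870912) (P2 := 1073741824) (W2 := 536870912) (P3 := 1045395039) (W3 := 1503240)
    rfl k0_B06pm_012_s1

theorem s_B06pm_012_s1 {κ x : ℝ} (hκ : κ * h0 = ken x) (hx : ((1045395039 : ℕ) : ℝ) / S ≤ x)
    (hx' : x ≤ (((1045395039 : ℕ) : ℝ) + (1503240 : ℕ)) / S) :
    AltB (VFD κ) PP tK tL pcB [⟨3, 0, 0, 1449551462⟩] 0 1 2 0 6 (sgb true) (sgb false) x :=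
  strip_altBD (m := 1449551462) true rfl hκ (SH.κ0 hκ (SH.hx1 hx).le (SH.hx2 hx').le) (SH.hx1 hx).le (SH.hx2 hx') (covB00).cov (covB62).cov hx hx' c_B06pm_012_s1 cutB_nil (noExt_B)

noncomputable def cut_B06pm_022_s1 : Cut := Cut.of [[⟨4, 0, 0, 1449551462⟩]]

noncomputable def f_B06pm_022_s1 : ℕ → ℕ → ℕ → ℕ → Bool := onCell 0 536870912 1073741824 536870912 1045395039 1503240
    (rowF 0 false true false .pp 0 2 2 (qsf 0 536870912 1073741824 536870912 2) ndB0q0 ndB6q2 pcB2 cut_B06pm_022_s1 Ext.none)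

def k0_B06pm_022_s1 : ∃ t, chk3 f_B06pm_022_s1 t 1 1 1 = true :=
  ⟨(l 4), by decide +kernel⟩

theorem c_B06pm_022_s1 : CertF 0 536870912 1073741824 536870912 1045395039 1503240 false true false .pp 0 2 2
    ndB0q0 ndB6q2 pcB2 cut_B06pm_022_s1 Ext.none :=
  certF0 (fam := false) (s1 := true) (s2 := false) (a := 0) (b := 2) (c := 2) (cn := .pp) (n1 := ndB0q0) (n2 := ndB6q2) (pc := pcB2) (cut := cut_B06pm_022_s1) (xt := Ext.none) (P1 := 0) (W1 := 536870912) (P2 := 1073741824) (W2 := 536870912) (P3 := 1045395039) (W3 := 1503240)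
    rfl k0_B06pm_022_s1

theorem s_B06pm_022_s1 {κ x : ℝ} (hκ : κ * h0 = ken x) (hx : ((1045395039 : ℕ) : ℝ) / S ≤ x)
    (hx' : x ≤ (((1045395039 : ℕ) : ℝ) + (1503240 : ℕ)) / S) :
    AltB (VFD κ) PP tK tL pcB [⟨3, 0, 0, 1449551462⟩] 0 2 2 0 6 (sgb true) (sgb false) x :=
  strip_altBD (m := 1449551462) true rfl hκ (SH.κ0 hκ (SH.hx1 hx).le (SH.hx2 hx').le) (SH.hx1 hx).le (SH.hx2 hx') (covB00).cov (covB62).cov hx hx' c_B06pm_022_s1 cutB_nil (noExt_B)

noncomputable def cut_B06pm_023_s1 : Cut := Cut.of [[⟨4, 0, 0, 1449551462⟩]]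

noncomputable def f_B06pm_023_s1 : ℕ → ℕ → ℕ → ℕ → Bool := onCell 0 536870912 0 1230186008 1045395039 1503240
    (rowF 0 false true false .up 0 2 3 (qsf 0 536870912 0 1230186008 2) ndB0q0 ndB6q3 pcB2 cut_B06pm_023_s1 Ext.none)

def k0_B06pm_023_s1 : ∃ t, chk3 f_B06pm_023_s1 t 1 1 1 = true :=
  ⟨(l 6), by decide +kernel⟩

theorem c_B06pm_023_s1 : CertF 0 536870912 0 1230186008 1045395039 1503240 false true false .up 0 2 3
    ndB0q0 ndB6q3 pcB2 cut_B06pm_023_s1 Ext.none :=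
  certF0 (fam := false) (s1 := true) (s2 := false) (a := 0) (b := 2) (c := 3) (cn := .up) (n1 := ndB0q0) (n2 := ndB6q3) (pc := pcB2) (cut := cut_B06pm_023_s1) (xt := Ext.none) (P1 := 0) (W1 := 536870912) (P2 := 0) (W2 := 1230186008) (P3 := 1045395039) (W3 := 1503240)
    rfl k0_B06pm_023_s1

theorem s_B06pm_023_s1 {κ x : ℝ} (hκ : κ * h0 = ken x) (hx : ((1045395039 : ℕ) : ℝ) / S ≤ x)
    (hx' : x ≤ (((1045395039 : ℕ) : ℝ) + (1503240 : ℕ)) / S) :
    AltB (VFD κ) PP tK tL pcB [⟨3, 0, 0, 1449551462⟩] 0 2 3 0 6 (sgb true) (sgb false) x :=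
  strip_altBD (m := 1449551462) true rfl hκ (SH.κ0 hκ (SH.hx1 hx).le (SH.hx2 hx').le) (SH.hx1 hx).le (SH.hx2 hx') (covB00).cov (covB63).cov hx hx' c_B06pm_023_s1 cutB_nil (noExt_B)

noncomputable def cut_B06pm_033_s1 : Cut := Cut.of [[⟨4, 0, 0, 1449551462⟩]]

noncomputable def f_B06pm_033_s1 : ℕ → ℕ → ℕ → ℕ → Bool := onCell 0 536870912 0 1230186008 1045395039 1503240
    (rowF 0 false true false .pnn 0 3 3 (qsf 0 536870912 0 1230186008 3) ndB0q0 ndB6q3 pcB3 cut_B06pm_033_s1 Ext.none)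

def k0_B06pm_033_s1 : ∃ t, chk3 f_B06pm_033_s1 t 1 1 1 = true :=
  ⟨(l 6), by decide +kernel⟩

theorem c_B06pm_033_s1 : CertF 0 536870912 0 1230186008 1045395039 1503240 false true false .pnn 0 3 3
    ndB0q0 ndB6q3 pcB3 cut_B06pm_033_s1 Ext.none :=
  certF0 (fam := false) (s1 := true) (s2 := false) (a := 0) (b := 3) (c := 3) (cn := .pnn) (n1 := ndB0q0) (n2 := ndB6q3) (pc := pcB3) (cut := cut_B06pm_033_s1) (xt := Ext.none) (P1 := 0) (W1 := 536870912) (P2 := 0) (W2 := 1230186008) (P3 := 1045395039) (W3 := 1503240)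
    rfl k0_B06pm_033_s1

theorem s_B06pm_033_s1 {κ x : ℝ} (hκ : κ * h0 = ken x) (hx : ((1045395039 : ℕ) : ℝ) / S ≤ x)
    (hx' : x ≤ (((1045395039 : ℕ) : ℝ) + (1503240 : ℕ)) / S) :
    AltB (VFD κ) PP tK tL pcB [⟨3, 0, 0, 1449551462⟩] 0 3 3 0 6 (sgb true) (sgb false) x :=
  strip_altBD (m := 1449551462) true rfl hκ (SH.κ0 hκ (SH.hx1 hx).le (SH.hx2 hx').le) (SH.hx1 hx).le (SH.hx2 hx') (covB00).cov (covB63).cov hx hx' c_B06pm_033_s1 cutB_nil (noExt_B)

noncomputable def cut_B06pm_101_s1 : Cut := Cut.of [[⟨4, 0, 0, 1449551462⟩]]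

noncomputable def f_B06pm_101_s1 : ℕ → ℕ → ℕ → ℕ → Bool := onCell 536870912 536870912 536870912 536870912 1045395039 1503240
    (rowF 0 false true false .npn 1 0 1 (qsf 536870912 536870912 536870912 536870912 0) ndB0q1 ndB6q1 pcB0 cut_B06pm_101_s1 Ext.none)

def k0_B06pm_101_s1 : ∃ t, chk3 f_B06pm_101_s1 t 1 1 1 = true :=
  ⟨(l 4), by decide +kernel⟩

theorem c_B06pm_101_s1 : CertF 536870912 536870912 536870912 536870912 1045395039 1503240 false true false .npn 1 0 1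
    ndB0q1 ndB6q1 pcB0 cut_B06pm_101_s1 Ext.none :=
  certF0 (fam := false) (s1 := true) (s2 := false) (a := 1) (b := 0) (c := 1) (cn := .npn) (n1 := ndB0q1) (n2 := ndB6q1) (pc := pcB0) (cut := cut_B06pm_101_s1) (xt := Ext.none) (P1 := 536870912) (W1 := 536870912) (P2 := 536870912) (W2 := 536870912) (P3 := 1045395039) (W3 := 1503240)
    rfl k0_B06pm_101_s1

theorem s_B06pm_101_s1 {κ x : ℝ} (hκ : κ * h0 = ken x) (hx : ((1045395039 : ℕ) : ℝ) / S ≤ x)
    (hx' : x ≤ (((1045395039 : ℕ) : ℝ) + (1503240 : ℕ)) / S) :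
    AltB (VFD κ) PP tK tL pcB [⟨3, 0, 0, 1449551462⟩] 1 0 1 0 6 (sgb true) (sgb false) x :=
  strip_altBD (m := 1449551462) true rfl hκ (SH.κ0 hκ (SH.hx1 hx).le (SH.hx2 hx').le) (SH.hx1 hx).le (SH.hx2 hx') (covB01).cov (covB61).cov hx hx' c_B06pm_101_s1 cutB_nil (noExt_B)

noncomputable def cut_B06pm_102_s1 : Cut := Cut.of [[⟨4, 0, 0, 1449551462⟩]]

noncomputable def f_B06pm_102_s1 : ℕ → ℕ → ℕ → ℕ → Bool := onCell 536870912 536870912 1073741824 536870912 1045395039 1503240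
    (rowF 0 false true false .npp 1 0 2 (qsf 536870912 536870912 1073741824 536870912 0) ndB0q1 ndB6q2 pcB0 cut_B06pm_102_s1 Ext.none)

def k0_B06pm_102_s1 : ∃ t, chk3 f_B06pm_102_s1 t 1 1 1 = true :=
  ⟨(l 6), by decide +kernel⟩

theorem c_B06pm_102_s1 : CertF 536870912 536870912 1073741824 536870912 1045395039 1503240 false true false .npp 1 0 2
    ndB0q1 ndB6q2 pcB0 cut_B06pm_102_s1 Ext.none :=
  certF0 (fam := false) (s1 := true) (s2 := false) (a := 1) (b := 0) (c := 2) (cn := .npp) (n1 := ndB0q1) (n2 := ndB6q2) (pc := pcB0) (cut := cut_B06pm_102_s1) (xt := Ext.none) (P1 := 536870912) (W1 := 536870912) (P2 := 1073741824) (W2 := 536870912) (P3 := 1045395039) (W3 := 1503240)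
    rfl k0_B06pm_102_s1

theorem s_B06pm_102_s1 {κ x : ℝ} (hκ : κ * h0 = ken x) (hx : ((1045395039 : ℕ) : ℝ) / S ≤ x)
    (hx' : x ≤ (((1045395039 : ℕ) : ℝ) + (1503240 : ℕ)) / S) :
    AltB (VFD κ) PP tK tL pcB [⟨3, 0, 0, 1449551462⟩] 1 0 2 0 6 (sgb true) (sgb false) x :=
  strip_altBD (m := 1449551462) true rfl hκ (SH.κ0 hκ (SH.hx1 hx).le (SH.hx2 hx').le) (SH.hx1 hx).le (SH.hx2 hx') (covB01).cov (covB62).cov hx hx' c_B06pm_102_s1 cutB_nil (noExt_B)

noncomputable def cut_B06pm_112_s1 : Cut := Cut.of [[⟨4, 0, 0, 1449551462⟩]]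

noncomputable def f_B06pm_112_s1 : ℕ → ℕ → ℕ → ℕ → Bool := onCell 536870912 536870912 1073741824 536870912 1045395039 1503240
    (rowF 0 false true false .dn 1 1 2 (qsf 536870912 536870912 1073741824 536870912 1) ndB0q1 ndB6q2 pcB1 cut_B06pm_112_s1 Ext.none)

def k0_B06pm_112_s1 : ∃ t, chk3 f_B06pm_112_s1 t 1 1 1 = true :=
  ⟨(l 6), by decide +kernel⟩

theorem c_B06pm_112_s1 : CertF 536870912 536870912 1073741824 536870912 1045395039 1503240 false true false .dn 1 1 2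
    ndB0q1 ndB6q2 pcB1 cut_B06pm_112_s1 Ext.none :=
  certF0 (fam := false) (s1 := true) (s2 := false) (a := 1) (b := 1) (c := 2) (cn := .dn) (n1 := ndB0q1) (n2 := ndB6q2) (pc := pcB1) (cut := cut_B06pm_112_s1) (xt := Ext.none) (P1 := 536870912) (W1 := 536870912) (P2 := 1073741824) (W2 := 536870912) (P3 := 1045395039) (W3 := 1503240)
    rfl k0_B06pm_112_s1

theorem s_B06pm_112_s1 {κ x : ℝ} (hκ : κ * h0 = ken x) (hx : ((1045395039 : ℕ) : ℝ) / S ≤ x)
    (hx' : x ≤ (((1045395039 : ℕ) : ℝ) + (1503240 : ℕ)) / S) :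
    AltB (VFD κ) PP tK tL pcB [⟨3, 0, 0, 1449551462⟩] 1 1 2 0 6 (sgb true) (sgb false) x :=
  strip_altBD (m := 1449551462) true rfl hκ (SH.κ0 hκ (SH.hx1 hx).le (SH.hx2 hx').le) (SH.hx1 hx).le (SH.hx2 hx') (covB01).cov (covB62).cov hx hx' c_B06pm_112_s1 cutB_nil (noExt_B)

noncomputable def cut_B06pm_113_s1 : Cut := Cut.of [[⟨4, 0, 0, 1449551462⟩], [⟨0, 1, 0, 14155776⟩, ⟨1, 1, 0, 14155776⟩, ⟨2, 2, 0, 524288⟩]]

noncomputable def f_B06pm_113_s1 : ℕ → ℕ → ℕ → ℕ → Bool := onCell 536870912 536870912 0 1230186008 1045395039 1503240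
    (rowF 0 false true false .nn 1 1 3 (qsf 536870912 536870912 0 1230186008 1) ndB0q1 ndB6q3 pcB1 cut_B06pm_113_s1 Ext.none)

def k0_B06pm_113_s1 : ∃ t, chk3 f_B06pm_113_s1 t 1 1 1 = true :=
  ⟨(b (a (l 2) (a (l 2) (b (a (l 2) (a (l 2) (a (b (l 2) (b (l 2) (l 16668952))) (a (b (l 2) (b (l 16687728) (l 16717648))) (b (b (b (l 14) (l 16747224)) (l 16745744)) (b (l 16749192) (l 16768096))))))) (a (l 6) (a (l 6) (b (a (l 6) (l 15926112)) (l 6))))))) (b (l 6) (l 6))), by decide +kernel⟩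

theorem c_B06pm_113_s1 : CertF 536870912 536870912 0 1230186008 1045395039 1503240 false true false .nn 1 1 3
    ndB0q1 ndB6q3 pcB1 cut_B06pm_113_s1 Ext.none :=
  certF0 (fam := false) (s1 := true) (s2 := false) (a := 1) (b := 1) (c := 3) (cn := .nn) (n1 := ndB0q1) (n2 := ndB6q3) (pc := pcB1) (cut := cut_B06pm_113_s1) (xt := Ext.none) (P1 := 536870912) (W1 := 536870912) (P2 := 0) (W2 := 1230186008) (P3 := 1045395039) (W3 := 1503240)
    rfl k0_B06pm_113_s1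

theorem s_B06pm_113_s1 {κ x : ℝ} (hκ : κ * h0 = ken x) (hx : ((1045395039 : ℕ) : ℝ) / S ≤ x)
    (hx' : x ≤ (((1045395039 : ℕ) : ℝ) + (1503240 : ℕ)) / S)
    (H : CutB (VFD κ) PP tK tL pcB (Cut.of [[⟨0, 1, 0, 14155776⟩, ⟨1, 1, 0, 14155776⟩, ⟨2, 2, 0, 524288⟩]]) 1 1 3 0 6 (sgb true) (sgb false) x) :
    AltB (VFD κ) PP tK tL pcB [⟨3, 0, 0, 1449551462⟩] 1 1 3 0 6 (sgb true) (sgb false) x :=
  strip_altBD (m := 1449551462) true rfl hκ (SH.κ0 hκ (SH.hx1 hx).le (SH.hx2 hx').le) (SH.hx1 hx).le (SH.hx2 hx') (covB01).cov (covB63).cov hx hx' c_B06pm_113_s1 H (noExt_B)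

noncomputable def cut_B06pm_123_s1 : Cut := Cut.of [[⟨4, 0, 0, 1449551462⟩], [⟨0, 1, 0, 14155776⟩, ⟨1, 1, 0, 14155776⟩, ⟨2, 2, 0, 524288⟩]]

noncomputable def f_B06pm_123_s1 : ℕ → ℕ → ℕ → ℕ → Bool := onCell 1073741824 536870912 0 1230186008 1045395039 1503240
    (rowF 2 false true false .npn 1 2 3 (qsf 536870912 536870912 0 1230186008 2) ndB0q1 ndB6q3 pcB2 cut_B06pm_123_s1 Ext.none)

def k0_B06pm_123_s1 : ∃ t, chk3 f_B06pm_123_s1 t 1 1 1 = true :=
  ⟨(b (a (b (a (a (a (b (b (a (b (a (l 14) (b (a (l 14) (l 16662440)) (l 16668424))) (a (l 16668536) (l 16734152))) (b (a (b (a (l 16764384) (l 16767504)) (l 16736944)) (l 16699136)) (l 16628688))) (a (b (a (l 16709024) (l 16632400)) (a (b (l 16633128) (l 16598752)) (l 16474368))) (b (l 16523216) (l 16502568)))) (a (b (a (a (l 16544496) (l 16530544)) (b (l 16623632) (l 16724448))) (a (b (l 16658152) (l 6)) (l 16474752))) (b (l 16551312) (l 16268088)))) (b (a (b (l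 16462272) (b (l 16409616) (l 16447752))) (b (l 16328088) (l 16359064))) (b (l 16336544) (l 6)))) (b (b (a (a (l 16207144) (l 16186352)) (a (l 16097120) (l 16016480))) (a (l 16254408) (l 6))) (l 6))) (b (l 6) (l 6))) (b (l 6) (l 6))) (l 6)) (l 6)), by decide +kernel⟩

theorem c_B06pm_123_s1 : CertF 536870912 536870912 0 1230186008 1045395039 1503240 false true false .npn 1 2 3
    ndB0q1 ndB6q3 pcB2 cut_B06pm_123_s1 Ext.none :=
  certF2 (fam := false) (s1 := true) (s2 := false) (a := 1) (b := 2) (c := 3) (cn := .npn) (n1 := ndB0q1) (n2 := ndB6q3) (pc := pcB2) (cut := cut_B06pm_123_s1) (xt := Ext.none) (P1 := 536870912) (W1 := 536870912) (P2 := 0) (W2 := 1230186008) (P3 := 1045395039) (W3 := 1503240)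
    rfl (fun _ => rfl) k0_B06pm_123_s1

theorem s_B06pm_123_s1 {κ x : ℝ} (hκ : κ * h0 = ken x) (hx : ((1045395039 : ℕ) : ℝ) / S ≤ x)
    (hx' : x ≤ (((1045395039 : ℕ) : ℝ) + (1503240 : ℕ)) / S)
    (H : CutB (VFD κ) PP tK tL pcB (Cut.of [[⟨0, 1, 0, 14155776⟩, ⟨1, 1, 0, 14155776⟩, ⟨2, 2, 0, 524288⟩]]) 1 2 3 0 6 (sgb true) (sgb false) x) :
    AltB (VFD κ) PP tK tL pcB [⟨3, 0, 0, 1449551462⟩] 1 2 3 0 6 (sgb true) (sgb false) x :=
  strip_altBD (m := 1449551462) true rfl hκ (SH.κ0 hκ (SH.hx1 hx).le (SH.hx2 hx').le) (SH.hx1 hx).le (SH.hx2 hx') (covB01).cov (covB63).cov hx hx' c_B06pm_123_s1 H (noExt_B)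

noncomputable def cut_B06pm_133_s1 : Cut := Cut.of [[⟨4, 0, 0, 1449551462⟩]]

noncomputable def f_B06pm_133_s1 : ℕ → ℕ → ℕ → ℕ → Bool := onCell 1610612736 536870912 0 1230186008 1045395039 1503240
    (rowF 2 false true false .dn 1 3 3 (qsf 536870912 536870912 0 1230186008 3) ndB0q1 ndB6q3 pcB3 cut_B06pm_133_s1 Ext.none)

def k0_B06pm_133_s1 : ∃ t, chk3 f_B06pm_133_s1 t 1 1 1 = true :=
  ⟨(l 6), by decide +kernel⟩

theorem c_B06pm_133_s1 : CertF 536870912 536870912 0 1230186008 1045395039 1503240 false true false .dn 1 3 3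
    ndB0q1 ndB6q3 pcB3 cut_B06pm_133_s1 Ext.none :=
  certF2 (fam := false) (s1 := true) (s2 := false) (a := 1) (b := 3) (c := 3) (cn := .dn) (n1 := ndB0q1) (n2 := ndB6q3) (pc := pcB3) (cut := cut_B06pm_133_s1) (xt := Ext.none) (P1 := 536870912) (W1 := 536870912) (P2 := 0) (W2 := 1230186008) (P3 := 1045395039) (W3 := 1503240)
    rfl (fun _ => rfl) k0_B06pm_133_s1

theorem s_B06pm_133_s1 {κ x : ℝ} (hκ : κ * h0 = ken x) (hx : ((1045395039 : ℕ) : ℝ) / S ≤ x)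
    (hx' : x ≤ (((1045395039 : ℕ) : ℝ) + (1503240 : ℕ)) / S) :
    AltB (VFD κ) PP tK tL pcB [⟨3, 0, 0, 1449551462⟩] 1 3 3 0 6 (sgb true) (sgb false) x :=
  strip_altBD (m := 1449551462) true rfl hκ (SH.κ0 hκ (SH.hx1 hx).le (SH.hx2 hx').le) (SH.hx1 hx).le (SH.hx2 hx') (covB01).cov (covB63).cov hx hx' c_B06pm_133_s1 cutB_nil (noExt_B)

noncomputable def cut_B06pm_202_s1 : Cut := Cut.of [[⟨4, 0, 0, 1449551462⟩]]

noncomputable def f_B06pm_202_s1 : ℕ → ℕ → ℕ → ℕ → Bool := onCell 0 536870912 1073741824 536870912 1045395039 1503240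
    (rowF 0 false true false .pp 2 0 2 (qsf 0 536870912 1073741824 536870912 0) ndB0q2 ndB6q2 pcB0 cut_B06pm_202_s1 Ext.none)

def k0_B06pm_202_s1 : ∃ t, chk3 f_B06pm_202_s1 t 1 1 1 = true :=
  ⟨(a (b (l 6) (b (l 6) (l 6))) (l 6)), by decide +kernel⟩

theorem c_B06pm_202_s1 : CertF 0 536870912 1073741824 536870912 1045395039 1503240 false true false .pp 2 0 2
    ndB0q2 ndB6q2 pcB0 cut_B06pm_202_s1 Ext.none :=
  certF0 (fam := false) (s1 := true) (s2 := false) (a := 2) (b := 0) (c := 2) (cn := .pp) (n1 := ndB0q2) (n2 := ndB6q2) (pc := pcB0) (cut := cut_B06pm_202_s1) (xt := Ext.none) (P1 := 0) (W1 := 536870912) (P2 := 1073741824) (W2 := 536870912) (P3 := 1045395039) (W3 := 1503240)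
    rfl k0_B06pm_202_s1

theorem s_B06pm_202_s1 {κ x : ℝ} (hκ : κ * h0 = ken x) (hx : ((1045395039 : ℕ) : ℝ) / S ≤ x)
    (hx' : x ≤ (((1045395039 : ℕ) : ℝ) + (1503240 : ℕ)) / S) :
    AltB (VFD κ) PP tK tL pcB [⟨3, 0, 0, 1449551462⟩] 2 0 2 0 6 (sgb true) (sgb false) x :=
  strip_altBD (m := 1449551462) true rfl hκ (SH.κ0 hκ (SH.hx1 hx).le (SH.hx2 hx').le) (SH.hx1 hx).le (SH.hx2 hx') (covB02).cov (covB62).cov hx hx' c_B06pm_202_s1 cutB_nil (noExt_B)

noncomputable def cut_B06pm_203_s1 : Cut := Cut.of [[⟨4, 0, 0, 1449551462⟩]]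

noncomputable def f_B06pm_203_s1 : ℕ → ℕ → ℕ → ℕ → Bool := onCell 0 536870912 0 1230186008 1045395039 1503240
    (rowF 0 false true false .up 2 0 3 (qsf 0 536870912 0 1230186008 0) ndB0q2 ndB6q3 pcB0 cut_B06pm_203_s1 Ext.none)

def k0_B06pm_203_s1 : ∃ t, chk3 f_B06pm_203_s1 t 1 1 1 = true :=
  ⟨(b (l 2) (b (l 2) (a (b (b (l 2) (b (a (l 2) (l 2)) (a (a (a (l 16609624) (b (l 16557640) (l 16506080))) (l 16273304)) (l 6)))) (a (a (b (b (a (b (a (l 16584320) (l 16541784)) (l 16420968)) (l 16370920)) (l 16177800)) (b (l 16010216) (a (l 15879928) (l 6)))) (b (b (l 16003176) (l 6)) (l 6))) (l 6))) (l 6)))), by decide +kernel⟩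

theorem c_B06pm_203_s1 : CertF 0 536870912 0 1230186008 1045395039 1503240 false true false .up 2 0 3
    ndB0q2 ndB6q3 pcB0 cut_B06pm_203_s1 Ext.none :=
  certF0 (fam := false) (s1 := true) (s2 := false) (a := 2) (b := 0) (c := 3) (cn := .up) (n1 := ndB0q2) (n2 := ndB6q3) (pc := pcB0) (cut := cut_B06pm_203_s1) (xt := Ext.none) (P1 := 0) (W1 := 536870912) (P2 := 0) (W2 := 1230186008) (P3 := 1045395039) (W3 := 1503240)
    rfl k0_B06pm_203_s1

theorem s_B06pm_203_s1 {κ x : ℝ} (hκ : κ * h0 = ken x) (hx : ((1045395039 : ℕ) : ℝ) / S ≤ x)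
    (hx' : x ≤ (((1045395039 : ℕ) : ℝ) + (1503240 : ℕ)) / S) :
    AltB (VFD κ) PP tK tL pcB [⟨3, 0, 0, 1449551462⟩] 2 0 3 0 6 (sgb true) (sgb false) x :=
  strip_altBD (m := 1449551462) true rfl hκ (SH.κ0 hκ (SH.hx1 hx).le (SH.hx2 hx').le) (SH.hx1 hx).le (SH.hx2 hx') (covB02).cov (covB63).cov hx hx' c_B06pm_203_s1 cutB_nil (noExt_B)

noncomputable def cut_B06pm_213_s1 : Cut := Cut.of [[⟨4, 0, 0, 1449551462⟩], [⟨0, 1, 0, 14155776⟩, ⟨1, 1, 0, 14155776⟩, ⟨2, 2, 0, 524288⟩]]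

noncomputable def xt_B06pm_213_s1 : Ext := strExt dd false true false .u2 .s2m .u0m .pnn 2 1 3 rfl rfl gf1 vv ndB0q2 ndB6q3

noncomputable def f_B06pm_213_s1 : ℕ → ℕ → ℕ → ℕ → Bool := onCell 0 536870912 0 1230186008 1045395039 1503240
    (rowF 0 false true false .pnn 2 1 3 (qsf 0 536870912 0 1230186008 1) ndB0q2 ndB6q3 pcB1 cut_B06pm_213_s1 xt_B06pm_213_s1)

def k0_B06pm_213_s1 : ∃ t, chk3 f_B06pm_213_s1 t 2 2 1 = true :=
  ⟨(b (l 3) (a (l 3) (b (l 3) (a (b (l 3) (l 530728719)) (b (a (l 3) (l 530473743)) (l 530757903)))))), by decide +kernel⟩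

def k1_B06pm_213_s1 : ∃ t, chk3 f_B06pm_213_s1 t 3 4 1 = true :=
  ⟨(a (b (l 3) (a (l 3) (b (l 3) (a (l 3) (a (l 530590479) (l 530319119)))))) (b (a (b (l 3) (a (l 3) (a (l 3) (b (l 3) (a (l 532414479) (l 532432399)))))) (b (a (a (l 3) (a (l 3) (b (l 3) (a (l 536152591) (l 536171791))))) (b (a (a (l 3) (a (l 3) (l 14))) (b (l 14) (l 14))) (a (a (a (l 536197135) (a (l 536206863) (l 536220943))) (a (a (l 536250895) (l 536340495)) (b (a (l 536387087) (l 536439823)) (l 16775480)))) (a (a (b (l 16776048) (l 16775352)) (l 16775248)) (l 16774440))))) (a (a (b (a (l 533774351) (l 534134543)) (a (l 532565775) (l 532926991))) (a (b (a (l 534679823) (l 535277071)) (l 16755120)) (b (a (l 536162063) (l 536298255)) (l 16763896)))) (b (a (a (b (l 16774760) (l 16773512)) (l 16774696)) (a (l 16775072) (l 16773640))) (a (a (l 16772456) (l 16774072)) (l 16775104)))))) (a (a (b (b (l 3) (a (l 530997007) (l 530685455))) (a (l 529993231)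 (b (l 529929231) (l 16682128)))) (b (a (b (a (l 531410703) (l 531330575)) (a (l 530453263) (l 16734880))) (b (a (l 531259151) (l 531234319)) (l 16707408))) (a (b (l 16693376) (l 16633720)) (l 16612304)))) (b (a (a (b (l 16726080) (l 16670912)) (l 16757312)) (a (l 16774312) (a (l 16779376) (l 16778936)))) (a (l 16532080) (a (l 16511752) (l 16762264))))))), by decide +kernel⟩

def k2_B06pm_213_s1 : ∃ t, chk3 f_B06pm_213_s1 t 3 5 1 = true :=
  ⟨(a (b (a (b (a (l 3) (l 530477071)) (a (l 530362127) (l 530148111))) (a (b (l 530142991) (l 529804559)) (b (b (l 529782287) (l 16768840)) (l 16437328)))) (a (b (a (l 530361871) (l 530159887)) (a (l 530647055) (l 16590872))) (a (b (l 16512280) (l 16507424)) (b (l 16499872) (l 16407048))))) (a (b (a (b (b (l 16648640) (l 16589152)) (l 16495368)) (b (l 16497648) (l 16350216))) (b (a (l 16377544) (l 16219592)) (l 16206504))) (b (a (b (l 16173488) (l 16157848)) (b (a (l 16214920)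 (l 16188288)) (l 15910568))) (a (l 15966864) (l 6))))), by decide +kernel⟩

def k3_B06pm_213_s1 : ∃ t, chk3 f_B06pm_213_s1 t 1 3 1 = true :=
  ⟨(a (b (b (a (b (l 3) (a (l 3) (l 529635343))) (a (b (l 531146767) (a (l 530183695) (l 530571535))) (b (l 530990095) (a (l 16539048) (l 16567632))))) (a (b (a (l 528045839) (l 528733199)) (a (l 527208207) (l 527892495))) (a (b (a (l 529288975) (l 16556664)) (b (a (l 16516656) (l 16451312)) (a (l 16439552) (l 16418608)))) (b (b (l 16513792) (l 16473448)) (l 16453440))))) (b (a (b (a (l 526608911) (b (a (l 16521944) (l 16435040)) (a (l 16437752) (l 16397208)))) (a (a (b (l 16545568) (l 16464064)) (b (l 16447480) (l 16412536))) (b (l 16334760) (l 16469056)))) (a (b (b (l 16420632) (l 16446128)) (l 16538296)) (l 6))) (a (l 1) (l 6)))) (b (a (b (a (b (a (l 16590232) (l 16520032)) (a (l 16538936) (l 16472672))) (b (l 16390160) (l 16346352))) (b (l 16401384) (l 6))) (a (l 6)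 (l 6))) (l 6))), by decide +kernel⟩

theorem t4_B06pm_213_s1 : ∃ t, chk3 f_B06pm_213_s1 t 3 2 1 = true := ex3_b k1_B06pm_213_s1 k2_B06pm_213_s1

theorem t5_B06pm_213_s1 : ∃ t, chk3 f_B06pm_213_s1 t 1 2 1 = true := ex3_a k0_B06pm_213_s1 t4_B06pm_213_s1

theorem t6_B06pm_213_s1 : ∃ t, chk3 f_B06pm_213_s1 t 1 1 1 = true := ex3_b t5_B06pm_213_s1 k3_B06pm_213_s1

theorem c_B06pm_213_s1 : CertF 0 536870912 0 1230186008 1045395039 1503240 false true false .pnn 2 1 3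
    ndB0q2 ndB6q3 pcB1 cut_B06pm_213_s1 xt_B06pm_213_s1 :=
  certF0 (fam := false) (s1 := true) (s2 := false) (a := 2) (b := 1) (c := 3) (cn := .pnn) (n1 := ndB0q2) (n2 := ndB6q3) (pc := pcB1) (cut := cut_B06pm_213_s1) (xt := xt_B06pm_213_s1) (P1 := 0) (W1 := 536870912) (P2 := 0) (W2 := 1230186008) (P3 := 1045395039) (W3 := 1503240)
    rfl t6_B06pm_213_s1

theorem s_B06pm_213_s1 {κ x : ℝ} (hκ : κ * h0 = ken x) (hx : ((1045395039 : ℕ) : ℝ) / S ≤ x)
    (hx' : x ≤ (((1045395039 : ℕ) : ℝ) + (1503240 : ℕ)) / S)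
    (H : CutB (VFD κ) PP tK tL pcB (Cut.of [[⟨0, 1, 0, 14155776⟩, ⟨1, 1, 0, 14155776⟩, ⟨2, 2, 0, 524288⟩]]) 2 1 3 0 6 (sgb true) (sgb false) x) :
    AltB (VFD κ) PP tK tL pcB [⟨3, 0, 0, 1449551462⟩] 2 1 3 0 6 (sgb true) (sgb false) x :=
  strip_altBD (m := 1449551462) true rfl hκ (SH.κ0 hκ (SH.hx1 hx).le (SH.hx2 hx').le) (SH.hx1 hx).le (SH.hx2 hx') (covB02).cov (covB63).cov hx hx' c_B06pm_213_s1 H ((okx hx hx').extB (T := tt) (sideB hx hx') hκ rfl rfl (.O 2 true) (.N 3 false) (Or.inr rfl))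

noncomputable def cut_B06mm_001_s1 : Cut := Cut.of [[⟨4, 0, 0, 1449551462⟩]]

noncomputable def f_B06mm_001_s1 : ℕ → ℕ → ℕ → ℕ → Bool := onCell 0 536870912 0 536870912 1045395039 1503240
    (rowF 1 false false false .up 0 0 1 (qsf 0 536870912 536870912 536870912 0) ndB0q0 ndB6q1 pcB0 cut_B06mm_001_s1 Ext.none)

def k0_B06mm_001_s1 : ∃ t, chk3 f_B06mm_001_s1 t 1 1 1 = true :=
  ⟨(l 3), by decide +kernel⟩

theorem c_B06mm_001_s1 : CertF 0 536870912 536870912 536870912 1045395039 1503240 false false false .up 0 0 1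
    ndB0q0 ndB6q1 pcB0 cut_B06mm_001_s1 Ext.none :=
  certF1 (fam := false) (s1 := false) (s2 := false) (a := 0) (b := 0) (c := 1) (cn := .up) (n1 := ndB0q0) (n2 := ndB6q1) (pc := pcB0) (cut := cut_B06mm_001_s1) (xt := Ext.none) (P1 := 0) (W1 := 536870912) (P2 := 536870912) (W2 := 536870912) (P3 := 1045395039) (W3 := 1503240)
    rfl (fun _ => rfl) k0_B06mm_001_s1

theorem s_B06mm_001_s1 {κ x : ℝ} (hκ : κ * h0 = ken x) (hx : ((1045395039 : ℕ) : ℝ) / S ≤ x)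
    (hx' : x ≤ (((1045395039 : ℕ) : ℝ) + (1503240 : ℕ)) / S) :
    AltB (VFD κ) PP tK tL pcB [⟨3, 0, 0, 1449551462⟩] 0 0 1 0 6 (sgb false) (sgb false) x :=
  strip_altBD (m := 1449551462) true rfl hκ (SH.κ0 hκ (SH.hx1 hx).le (SH.hx2 hx').le) (SH.hx1 hx).le (SH.hx2 hx') (covB00).cov (covB61).cov hx hx' c_B06mm_001_s1 cutB_nil (noExt_B)

noncomputable def cut_B06mm_011_s1 : Cut := Cut.of [[⟨4, 0, 0, 1449551462⟩]]

noncomputable def f_B06mm_011_s1 : ℕ → ℕ → ℕ → ℕ → Bool := onCell 0 536870912 536870912 536870912 1045395039 1503240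
    (rowF 1 false false false .pnn 0 1 1 (qsf 0 536870912 536870912 536870912 1) ndB0q0 ndB6q1 pcB1 cut_B06mm_011_s1 Ext.none)

def k0_B06mm_011_s1 : ∃ t, chk3 f_B06mm_011_s1 t 1 1 1 = true :=
  ⟨(l 5), by decide +kernel⟩

theorem c_B06mm_011_s1 : CertF 0 536870912 536870912 536870912 1045395039 1503240 false false false .pnn 0 1 1
    ndB0q0 ndB6q1 pcB1 cut_B06mm_011_s1 Ext.none :=
  certF1 (fam := false) (s1 := false) (s2 := false) (a := 0) (b := 1) (c := 1) (cn := .pnn) (n1 := ndB0q0) (n2 := ndB6q1) (pc := pcB1) (cut := cut_B06mm_011_s1) (xt := Ext.none) (P1 := 0) (W1 := 536870912) (P2 := 536870912) (W2 := 536870912) (P3 := 1045395039) (W3 := 1503240)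
    rfl (fun _ => rfl) k0_B06mm_011_s1

theorem s_B06mm_011_s1 {κ x : ℝ} (hκ : κ * h0 = ken x) (hx : ((1045395039 : ℕ) : ℝ) / S ≤ x)
    (hx' : x ≤ (((1045395039 : ℕ) : ℝ) + (1503240 : ℕ)) / S) :
    AltB (VFD κ) PP tK tL pcB [⟨3, 0, 0, 1449551462⟩] 0 1 1 0 6 (sgb false) (sgb false) x :=
  strip_altBD (m := 1449551462) true rfl hκ (SH.κ0 hκ (SH.hx1 hx).le (SH.hx2 hx').le) (SH.hx1 hx).le (SH.hx2 hx') (covB00).cov (covB61).cov hx hx' c_B06mm_011_s1 cutB_nil (noExt_B)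

noncomputable def cut_B06mm_012_s1 : Cut := Cut.of [[⟨4, 0, 0, 1449551462⟩]]

noncomputable def f_B06mm_012_s1 : ℕ → ℕ → ℕ → ℕ → Bool := onCell 0 536870912 1073741824 536870912 1045395039 1503240
    (rowF 0 false false false .pnp 0 1 2 (qsf 0 536870912 1073741824 536870912 1) ndB0q0 ndB6q2 pcB1 cut_B06mm_012_s1 Ext.none)

def k0_B06mm_012_s1 : ∃ t, chk3 f_B06mm_012_s1 t 1 1 1 = true :=
  ⟨(l 5), by decide +kernel⟩

theorem c_B06mm_012_s1 : CertF 0 536870912 1073741824 536870912 1045395039 1503240 false false false .pnp 0 1 2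
    ndB0q0 ndB6q2 pcB1 cut_B06mm_012_s1 Ext.none :=
  certF0 (fam := false) (s1 := false) (s2 := false) (a := 0) (b := 1) (c := 2) (cn := .pnp) (n1 := ndB0q0) (n2 := ndB6q2) (pc := pcB1) (cut := cut_B06mm_012_s1) (xt := Ext.none) (P1 := 0) (W1 := 536870912) (P2 := 1073741824) (W2 := 536870912) (P3 := 1045395039) (W3 := 1503240)
    rfl k0_B06mm_012_s1

theorem s_B06mm_012_s1 {κ x : ℝ} (hκ : κ * h0 = ken x) (hx : ((1045395039 : ℕ) : ℝ) / S ≤ x)
    (hx' : x ≤ (((1045395039 : ℕ) : ℝ) + (1503240 : ℕ)) / S) :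
    AltB (VFD κ) PP tK tL pcB [⟨3, 0, 0, 1449551462⟩] 0 1 2 0 6 (sgb false) (sgb false) x :=
  strip_altBD (m := 1449551462) true rfl hκ (SH.κ0 hκ (SH.hx1 hx).le (SH.hx2 hx').le) (SH.hx1 hx).le (SH.hx2 hx') (covB00).cov (covB62).cov hx hx' c_B06mm_012_s1 cutB_nil (noExt_B)

noncomputable def cut_B06mm_022_s1 : Cut := Cut.of [[⟨4, 0, 0, 1449551462⟩]]

noncomputable def f_B06mm_022_s1 : ℕ → ℕ → ℕ → ℕ → Bool := onCell 0 536870912 1073741824 536870912 1045395039 1503240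
    (rowF 0 false false false .pp 0 2 2 (qsf 0 536870912 1073741824 536870912 2) ndB0q0 ndB6q2 pcB2 cut_B06mm_022_s1 Ext.none)

def k0_B06mm_022_s1 : ∃ t, chk3 f_B06mm_022_s1 t 1 1 1 = true :=
  ⟨(l 5), by decide +kernel⟩

theorem c_B06mm_022_s1 : CertF 0 536870912 1073741824 536870912 1045395039 1503240 false false false .pp 0 2 2
    ndB0q0 ndB6q2 pcB2 cut_B06mm_022_s1 Ext.none :=
  certF0 (fam := false) (s1 := false) (s2 := false) (a := 0) (b := 2) (c := 2) (cn := .pp) (n1 := ndB0q0) (n2 := ndB6q2) (pc := pcB2) (cut := cut_B06mm_022_s1) (xt := Ext.none) (P1 := 0) (W1 := 536870912) (P2 := 1073741824) (W2 := 536870912) (P3 := 1045395039) (W3 := 1503240)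
    rfl k0_B06mm_022_s1

theorem s_B06mm_022_s1 {κ x : ℝ} (hκ : κ * h0 = ken x) (hx : ((1045395039 : ℕ) : ℝ) / S ≤ x)
    (hx' : x ≤ (((1045395039 : ℕ) : ℝ) + (1503240 : ℕ)) / S) :
    AltB (VFD κ) PP tK tL pcB [⟨3, 0, 0, 1449551462⟩] 0 2 2 0 6 (sgb false) (sgb false) x :=
  strip_altBD (m := 1449551462) true rfl hκ (SH.κ0 hκ (SH.hx1 hx).le (SH.hx2 hx').le) (SH.hx1 hx).le (SH.hx2 hx') (covB00).cov (covB62).cov hx hx' c_B06mm_022_s1 cutB_nil (noExt_B)

noncomputable def cut_B06mm_023_s1 : Cut := Cut.of [[⟨4, 0, 0, 1449551462⟩]]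

noncomputable def f_B06mm_023_s1 : ℕ → ℕ → ℕ → ℕ → Bool := onCell 0 536870912 0 1230186008 1045395039 1503240
    (rowF 0 false false false .up 0 2 3 (qsf 0 536870912 0 1230186008 2) ndB0q0 ndB6q3 pcB2 cut_B06mm_023_s1 Ext.none)

def k0_B06mm_023_s1 : ∃ t, chk3 f_B06mm_023_s1 t 1 1 1 = true :=
  ⟨(l 5), by decide +kernel⟩

theorem c_B06mm_023_s1 : CertF 0 536870912 0 1230186008 1045395039 1503240 false false false .up 0 2 3
    ndB0q0 ndB6q3 pcB2 cut_B06mm_023_s1 Ext.none :=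
  certF0 (fam := false) (s1 := false) (s2 := false) (a := 0) (b := 2) (c := 3) (cn := .up) (n1 := ndB0q0) (n2 := ndB6q3) (pc := pcB2) (cut := cut_B06mm_023_s1) (xt := Ext.none) (P1 := 0) (W1 := 536870912) (P2 := 0) (W2 := 1230186008) (P3 := 1045395039) (W3 := 1503240)
    rfl k0_B06mm_023_s1

theorem s_B06mm_023_s1 {κ x : ℝ} (hκ : κ * h0 = ken x) (hx : ((1045395039 : ℕ) : ℝ) / S ≤ x)
    (hx' : x ≤ (((1045395039 : ℕ) : ℝ) + (1503240 : ℕ)) / S) :
    AltB (VFD κ) PP tK tL pcB [⟨3, 0, 0, 1449551462⟩] 0 2 3 0 6 (sgb false) (sgb false) x :=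
  strip_altBD (m := 1449551462) true rfl hκ (SH.κ0 hκ (SH.hx1 hx).le (SH.hx2 hx').le) (SH.hx1 hx).le (SH.hx2 hx') (covB00).cov (covB63).cov hx hx' c_B06mm_023_s1 cutB_nil (noExt_B)

noncomputable def cut_B06mm_033_s1 : Cut := Cut.of [[⟨4, 0, 0, 1449551462⟩]]

noncomputable def f_B06mm_033_s1 : ℕ → ℕ → ℕ → ℕ → Bool := onCell 0 536870912 0 1230186008 1045395039 1503240
    (rowF 0 false false false .pnn 0 3 3 (qsf 0 536870912 0 1230186008 3) ndB0q0 ndB6q3 pcB3 cut_B06mm_033_s1 Ext.none)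

def k0_B06mm_033_s1 : ∃ t, chk3 f_B06mm_033_s1 t 1 1 1 = true :=
  ⟨(l 5), by decide +kernel⟩

theorem c_B06mm_033_s1 : CertF 0 536870912 0 1230186008 1045395039 1503240 false false false .pnn 0 3 3
    ndB0q0 ndB6q3 pcB3 cut_B06mm_033_s1 Ext.none :=
  certF0 (fam := false) (s1 := false) (s2 := false) (a := 0) (b := 3) (c := 3) (cn := .pnn) (n1 := ndB0q0) (n2 := ndB6q3) (pc := pcB3) (cut := cut_B06mm_033_s1) (xt := Ext.none) (P1 := 0) (W1 := 536870912) (P2 := 0) (W2 := 1230186008) (P3 := 1045395039) (W3 := 1503240)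
    rfl k0_B06mm_033_s1

theorem s_B06mm_033_s1 {κ x : ℝ} (hκ : κ * h0 = ken x) (hx : ((1045395039 : ℕ) : ℝ) / S ≤ x)
    (hx' : x ≤ (((1045395039 : ℕ) : ℝ) + (1503240 : ℕ)) / S) :
    AltB (VFD κ) PP tK tL pcB [⟨3, 0, 0, 1449551462⟩] 0 3 3 0 6 (sgb false) (sgb false) x :=
  strip_altBD (m := 1449551462) true rfl hκ (SH.κ0 hκ (SH.hx1 hx).le (SH.hx2 hx').le) (SH.hx1 hx).le (SH.hx2 hx') (covB00).cov (covB63).cov hx hx' c_B06mm_033_s1 cutB_nil (noExt_B)

noncomputable def cut_B06mm_101_s1 : Cut := Cut.of [[⟨4, 0, 0, 1449551462⟩], [⟨0, 1, 0, 26843545⟩, ⟨1, 0, 0, 26843545⟩, ⟨2, 1, 0, 26843545⟩]]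

noncomputable def f_B06mm_101_s1 : ℕ → ℕ → ℕ → ℕ → Bool := onCell 536870912 536870912 0 536870912 1045395039 1503240
    (rowF 1 false false false .npn 1 0 1 (qsf 536870912 536870912 536870912 536870912 0) ndB0q1 ndB6q1 pcB0 cut_B06mm_101_s1 Ext.none)

def k0_B06mm_101_s1 : ∃ t, chk3 f_B06mm_101_s1 t 1 1 1 = true :=
  ⟨(a (l 3) (b (a (l 3) (b (a (l 3) (b (a (l 3) (b (b (a (l 3) (l 14)) (l 3)) (l 3))) (l 3))) (l 3))) (l 3))), by decide +kernel⟩

theorem c_B06mm_101_s1 : CertF 536870912 536870912 536870912 536870912 1045395039 1503240 false false false .npn 1 0 1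
    ndB0q1 ndB6q1 pcB0 cut_B06mm_101_s1 Ext.none :=
  certF1 (fam := false) (s1 := false) (s2 := false) (a := 1) (b := 0) (c := 1) (cn := .npn) (n1 := ndB0q1) (n2 := ndB6q1) (pc := pcB0) (cut := cut_B06mm_101_s1) (xt := Ext.none) (P1 := 536870912) (W1 := 536870912) (P2 := 536870912) (W2 := 536870912) (P3 := 1045395039) (W3 := 1503240)
    rfl (fun _ => rfl) k0_B06mm_101_s1

theorem s_B06mm_101_s1 {κ x : ℝ} (hκ : κ * h0 = ken x) (hx : ((1045395039 : ℕ) : ℝ) / S ≤ x)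
    (hx' : x ≤ (((1045395039 : ℕ) : ℝ) + (1503240 : ℕ)) / S)
    (H : CutB (VFD κ) PP tK tL pcB (Cut.of [[⟨0, 1, 0, 26843545⟩, ⟨1, 0, 0, 26843545⟩, ⟨2, 1, 0, 26843545⟩]]) 1 0 1 0 6 (sgb false) (sgb false) x) :
    AltB (VFD κ) PP tK tL pcB [⟨3, 0, 0, 1449551462⟩] 1 0 1 0 6 (sgb false) (sgb false) x :=
  strip_altBD (m := 1449551462) true rfl hκ (SH.κ0 hκ (SH.hx1 hx).le (SH.hx2 hx').le) (SH.hx1 hx).le (SH.hx2 hx') (covB01).cov (covB61).cov hx hx' c_B06mm_101_s1 H (noExt_B)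

noncomputable def cut_B06mm_102_s1 : Cut := Cut.of [[⟨4, 0, 0, 1449551462⟩], [⟨0, 1, 0, 26843545⟩, ⟨1, 0, 0, 26843545⟩, ⟨2, 1, 0, 26843545⟩]]

noncomputable def f_B06mm_102_s1 : ℕ → ℕ → ℕ → ℕ → Bool := onCell 536870912 536870912 0 536870912 1045395039 1503240
    (rowF 1 false false false .npp 1 0 2 (qsf 536870912 536870912 1073741824 536870912 0) ndB0q1 ndB6q2 pcB0 cut_B06mm_102_s1 Ext.none)

def k0_B06mm_102_s1 : ∃ t, chk3 f_B06mm_102_s1 t 1 1 1 = true :=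
  ⟨(a (l 3) (b (a (l 3) (b (a (l 3) (b (a (l 3) (b (b (a (l 3) (l 14)) (l 3)) (l 3))) (l 3))) (l 3))) (l 3))), by decide +kernel⟩

theorem c_B06mm_102_s1 : CertF 536870912 536870912 1073741824 536870912 1045395039 1503240 false false false .npp 1 0 2
    ndB0q1 ndB6q2 pcB0 cut_B06mm_102_s1 Ext.none :=
  certF1 (fam := false) (s1 := false) (s2 := false) (a := 1) (b := 0) (c := 2) (cn := .npp) (n1 := ndB0q1) (n2 := ndB6q2) (pc := pcB0) (cut := cut_B06mm_102_s1) (xt := Ext.none) (P1 := 536870912) (W1 := 536870912) (P2 := 1073741824) (W2 := 536870912) (P3 := 1045395039) (W3 := 1503240)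
    rfl (fun _ => rfl) k0_B06mm_102_s1

theorem s_B06mm_102_s1 {κ x : ℝ} (hκ : κ * h0 = ken x) (hx : ((1045395039 : ℕ) : ℝ) / S ≤ x)
    (hx' : x ≤ (((1045395039 : ℕ) : ℝ) + (1503240 : ℕ)) / S)
    (H : CutB (VFD κ) PP tK tL pcB (Cut.of [[⟨0, 1, 0, 26843545⟩, ⟨1, 0, 0, 26843545⟩, ⟨2, 1, 0, 26843545⟩]]) 1 0 2 0 6 (sgb false) (sgb false) x) :
    AltB (VFD κ) PP tK tL pcB [⟨3, 0, 0, 1449551462⟩] 1 0 2 0 6 (sgb false) (sgb false) x :=
  strip_altBD (m := 1449551462) true rfl hκ (SH.κ0 hκ (SH.hx1 hx).le (SH.hx2 hx').le) (SH.hx1 hx).le (SH.hx2 hx') (covB01).cov (covB62).cov hx hx' c_B06mm_102_s1 H (noExt_B)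

noncomputable def cut_B06mm_112_s1 : Cut := Cut.of [[⟨4, 0, 0, 1449551462⟩]]

noncomputable def f_B06mm_112_s1 : ℕ → ℕ → ℕ → ℕ → Bool := onCell 536870912 536870912 1073741824 536870912 1045395039 1503240
    (rowF 2 false false false .dn 1 1 2 (qsf 536870912 536870912 1073741824 536870912 1) ndB0q1 ndB6q2 pcB1 cut_B06mm_112_s1 Ext.none)

def k0_B06mm_112_s1 : ∃ t, chk3 f_B06mm_112_s1 t 1 1 1 = true :=
  ⟨(a (l 3) (l 5)), by decide +kernel⟩

theorem c_B06mm_112_s1 : CertF 536870912 536870912 1073741824 536870912 1045395039 1503240 false false false .dn 1 1 2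
    ndB0q1 ndB6q2 pcB1 cut_B06mm_112_s1 Ext.none :=
  certF2 (fam := false) (s1 := false) (s2 := false) (a := 1) (b := 1) (c := 2) (cn := .dn) (n1 := ndB0q1) (n2 := ndB6q2) (pc := pcB1) (cut := cut_B06mm_112_s1) (xt := Ext.none) (P1 := 536870912) (W1 := 536870912) (P2 := 1073741824) (W2 := 536870912) (P3 := 1045395039) (W3 := 1503240)
    rfl (fun _ => rfl) k0_B06mm_112_s1

theorem s_B06mm_112_s1 {κ x : ℝ} (hκ : κ * h0 = ken x) (hx : ((1045395039 : ℕ) : ℝ) / S ≤ x)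
    (hx' : x ≤ (((1045395039 : ℕ) : ℝ) + (1503240 : ℕ)) / S) :
    AltB (VFD κ) PP tK tL pcB [⟨3, 0, 0, 1449551462⟩] 1 1 2 0 6 (sgb false) (sgb false) x :=
  strip_altBD (m := 1449551462) true rfl hκ (SH.κ0 hκ (SH.hx1 hx).le (SH.hx2 hx').le) (SH.hx1 hx).le (SH.hx2 hx') (covB01).cov (covB62).cov hx hx' c_B06mm_112_s1 cutB_nil (noExt_B)

noncomputable def cut_B06mm_113_s1 : Cut := Cut.of [[⟨4, 0, 0, 1449551462⟩]]

noncomputable def f_B06mm_113_s1 : ℕ → ℕ → ℕ → ℕ → Bool := onCell 536870912 536870912 0 1230186008 1045395039 1503240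
    (rowF 0 false false false .nn 1 1 3 (qsf 536870912 536870912 0 1230186008 1) ndB0q1 ndB6q3 pcB1 cut_B06mm_113_s1 Ext.none)

def k0_B06mm_113_s1 : ∃ t, chk3 f_B06mm_113_s1 t 1 1 1 = true :=
  ⟨(a (l 5) (b (l 5) (a (b (l 5) (l 3)) (l 3)))), by decide +kernel⟩

theorem c_B06mm_113_s1 : CertF 536870912 536870912 0 1230186008 1045395039 1503240 false false false .nn 1 1 3
    ndB0q1 ndB6q3 pcB1 cut_B06mm_113_s1 Ext.none :=
  certF0 (fam := false) (s1 := false) (s2 := false) (a := 1) (b := 1) (c := 3) (cn := .nn) (n1 := ndB0q1) (n2 := ndB6q3) (pc := pcB1) (cut := cut_B06mm_113_s1) (xt := Ext.none) (P1 := 536870912) (W1 := 536870912) (P2 := 0) (W2 := 1230186008) (P3 := 1045395039) (W3 := 1503240)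
    rfl k0_B06mm_113_s1

theorem s_B06mm_113_s1 {κ x : ℝ} (hκ : κ * h0 = ken x) (hx : ((1045395039 : ℕ) : ℝ) / S ≤ x)
    (hx' : x ≤ (((1045395039 : ℕ) : ℝ) + (1503240 : ℕ)) / S) :
    AltB (VFD κ) PP tK tL pcB [⟨3, 0, 0, 1449551462⟩] 1 1 3 0 6 (sgb false) (sgb false) x :=
  strip_altBD (m := 1449551462) true rfl hκ (SH.κ0 hκ (SH.hx1 hx).le (SH.hx2 hx').le) (SH.hx1 hx).le (SH.hx2 hx') (covB01).cov (covB63).cov hx hx' c_B06mm_113_s1 cutB_nil (noExt_B)

noncomputable def cut_B06mm_123_s1 : Cut := Cut.of [[⟨4, 0, 0, 1449551462⟩]]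

noncomputable def f_B06mm_123_s1 : ℕ → ℕ → ℕ → ℕ → Bool := onCell 1073741824 536870912 0 1230186008 1045395039 1503240
    (rowF 2 false false false .npn 1 2 3 (qsf 536870912 536870912 0 1230186008 2) ndB0q1 ndB6q3 pcB2 cut_B06mm_123_s1 Ext.none)

def k0_B06mm_123_s1 : ∃ t, chk3 f_B06mm_123_s1 t 1 1 1 = true :=
  ⟨(b (l 5) (l 5)), by decide +kernel⟩

theorem c_B06mm_123_s1 : CertF 536870912 536870912 0 1230186008 1045395039 1503240 false false false .npn 1 2 3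
    ndB0q1 ndB6q3 pcB2 cut_B06mm_123_s1 Ext.none :=
  certF2 (fam := false) (s1 := false) (s2 := false) (a := 1) (b := 2) (c := 3) (cn := .npn) (n1 := ndB0q1) (n2 := ndB6q3) (pc := pcB2) (cut := cut_B06mm_123_s1) (xt := Ext.none) (P1 := 536870912) (W1 := 536870912) (P2 := 0) (W2 := 1230186008) (P3 := 1045395039) (W3 := 1503240)
    rfl (fun _ => rfl) k0_B06mm_123_s1

theorem s_B06mm_123_s1 {κ x : ℝ} (hκ : κ * h0 = ken x) (hx : ((1045395039 : ℕ) : ℝ) / S ≤ x)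
    (hx' : x ≤ (((1045395039 : ℕ) : ℝ) + (1503240 : ℕ)) / S) :
    AltB (VFD κ) PP tK tL pcB [⟨3, 0, 0, 1449551462⟩] 1 2 3 0 6 (sgb false) (sgb false) x :=
  strip_altBD (m := 1449551462) true rfl hκ (SH.κ0 hκ (SH.hx1 hx).le (SH.hx2 hx').le) (SH.hx1 hx).le (SH.hx2 hx') (covB01).cov (covB63).cov hx hx' c_B06mm_123_s1 cutB_nil (noExt_B)

noncomputable def cut_B06mm_133_s1 : Cut := Cut.of [[⟨4, 0, 0, 1449551462⟩]]

noncomputable def f_B06mm_133_s1 : ℕ → ℕ → ℕ → ℕ → Bool := onCell 1610612736 536870912 0 1230186008 1045395039 1503240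
    (rowF 2 false false false .dn 1 3 3 (qsf 536870912 536870912 0 1230186008 3) ndB0q1 ndB6q3 pcB3 cut_B06mm_133_s1 Ext.none)

def k0_B06mm_133_s1 : ∃ t, chk3 f_B06mm_133_s1 t 1 1 1 = true :=
  ⟨(l 5), by decide +kernel⟩

theorem c_B06mm_133_s1 : CertF 536870912 536870912 0 1230186008 1045395039 1503240 false false false .dn 1 3 3
    ndB0q1 ndB6q3 pcB3 cut_B06mm_133_s1 Ext.none :=
  certF2 (fam := false) (s1 := false) (s2 := false) (a := 1) (b := 3) (c := 3) (cn := .dn) (n1 := ndB0q1) (n2 := ndB6q3) (pc := pcB3) (cut := cut_B06mm_133_s1) (xt := Ext.none) (P1 := 536870912) (W1 := 536870912) (P2 := 0) (W2 := 1230186008) (P3 := 1045395039) (W3 := 1503240)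
    rfl (fun _ => rfl) k0_B06mm_133_s1

theorem s_B06mm_133_s1 {κ x : ℝ} (hκ : κ * h0 = ken x) (hx : ((1045395039 : ℕ) : ℝ) / S ≤ x)
    (hx' : x ≤ (((1045395039 : ℕ) : ℝ) + (1503240 : ℕ)) / S) :
    AltB (VFD κ) PP tK tL pcB [⟨3, 0, 0, 1449551462⟩] 1 3 3 0 6 (sgb false) (sgb false) x :=
  strip_altBD (m := 1449551462) true rfl hκ (SH.κ0 hκ (SH.hx1 hx).le (SH.hx2 hx').le) (SH.hx1 hx).le (SH.hx2 hx') (covB01).cov (covB63).cov hx hx' c_B06mm_133_s1 cutB_nil (noExt_B)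

end Pool.Agent.Strip051.G.I9736_9750.Tab.St.C
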