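import Pool.Agent.Strip051.G.I9736_9750.Tab
import Pool.Agent.Strip051.PB.StripB
import Pool.Agent.Strip051.PB.ExtD3

/-! # Strips, near vertex: certificates 3 (generated) -/

set_option linter.all false
set_option maxRecDepth 100000

namespace Pool.Agent.Strip051.G.I9736_9750.Tab.CS.BB00

open Pool.Agent.Strip051.PB Pool.Agent.Strip051.PB.T
open Pool.Agent.Strip051.G.I9736_9750.Tab

noncomputable def cut_pp_022_s : Cut := Cut.of [[⟨4, 0, 0, 1449551462⟩], [⟨0, 0, 0, 22369621⟩, ⟨1, 1, 0, 22369621⟩, ⟨2, 1, 0, 22369621⟩]]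

noncomputable def f_pp_022_s : ℕ → ℕ → ℕ → ℕ → Bool := onCell 1073741824 536870912 0 536870912 1045395039 1503240
    (rowNE 3 eng mog cd0q0 cd0q2 pd2 2 false true true .pp 0 2 2 (qsf 0 536870912 0 536870912 2) ndB0q0 ndB0q2 pcB2 cut_pp_022_s Ext.none)

def k0_pp_022_s : ∃ t, chk3 f_pp_022_s t 4 2 1 = true :=
  ⟨(a (b (l 6) (a (b (l 6) (b (l 6) (a (a (l 16487912) (l 16489768)) (l 16494000)))) (l 6))) (l 6)), by decide +kernel⟩

def k1_pp_022_s : ∃ t, chk3 f_pp_022_s t 8 6 1 = true :=
  ⟨(a (b (a (b (a (l 16546624) (l 16566920)) (b (l 16608328) (l 16598288))) (b (l 16546568) (l 16573400))) (b (a (a (l 16526696) (l 16562888)) (l 16533096)) (a (b (b (a (l 16526904) (l 16522120)) (l 16538528)) (a (b (l 16563272) (l 16584752)) (l 16569568))) (b (b (l 16517096) (l 16525808)) (l 16563944))))) (a (b (b (l 16570008) (l 16593216)) (b (l 16543768) (a (b (l 16516648) (l 16559632)) (b (l 16512432) (l 16557800))))) (b (l 16509488) (b (a (b (l 16547112) (l 16526216)) (l 16516272)) (b (a (l 16514024)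 (l 16517824)) (a (l 16560152) (l 16562312))))))), by decide +kernel⟩

def k2_pp_022_s : ∃ t, chk3 f_pp_022_s t 8 7 1 = true :=
  ⟨(b (a (b (a (b (a (b (l 16606224) (l 16627840)) (l 16615824)) (a (a (b (l 16649320) (l 16670752)) (l 16640024)) (l 16641792))) (b (l 16594264) (a (l 16644784) (l 16627328)))) (a (b (a (b (a (l 16679296) (l 16673744)) (b (l 16699984) (l 16703592))) (b (l 16677568) (l 16679640))) (a (a (b (l 16699232) (a (l 16705672) (l 16699552))) (b (l 16682752) (b (l 16693672) (l 16687024)))) (b (a (l 16671944) (l 16680312)) (a (l 16677424) (l 16663160))))) (a (b (b (l 16673704) (l 16657120)) (b (a (l 16666536) (l 16651808)) (l 16607424))) (b (b (l 16649320) (l 16629432)) (b (l 16629392) (l 16607824)))))) (b (a (b (a (l 16595120) (l 16600904)) (a (l 16612552) (l 16632184))) (b (a (l 16626232) (l 16629088)) (l 16623424))) (a (b (a (a (l 16619280) (l 16626776)) (l 16609360)) (a (l 16591200) (l 16568448))) (b (l 16581776) (l 16542328))))) (a (b (a (b (a (a (b (a (l 16692920)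 (l 16673336)) (b (l 16679376) (l 16671784))) (b (b (l 16679632) (l 16671872)) (b (l 16663680) (l 16654520)))) (b (a (l 16659984) (l 16643352)) (a (l 16641168) (l 16623224)))) (b (a (a (b (l 16663904) (l 16655176)) (l 16619704)) (l 16613088)) (a (b (a (a (l 16651768) (l 16641904)) (l 16627360)) (a (l 16648952) (l 16628248))) (b (a (l 16608960) (l 16591592)) (a (l 16608752) (l 16590408)))))) (b (a (b (a (l 16626568) (l 16610008)) (l 16598280)) (b (l 16587664) (l 16568600))) (a (b (l 16579992) (b (a (l 16575272) (l 16559984)) (a (l 16573296) (l 16557368)))) (b (l 16550952) (b (l 16538968) (l 1)))))) (a (l 14) (a (a (l 14) (a (a (l 14) (l 1)) (l 1))) (l 1)))) (b (a (b (a (l 16552104) (l 1)) (l 1)) (l 1)) (l 1)))), by decide +kernel⟩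

def k3_pp_022_s : ∃ t, chk3 f_pp_022_s t 9 3 1 = true :=
  ⟨(b (b (a (b (l 6) (a (a (l 16558160) (l 16554328)) (l 16546608))) (l 6)) (a (b (a (b (l 16541152) (l 16530728)) (l 16533032)) (b (a (l 16523320) (l 16516696)) (a (l 16560320) (l 1)))) (b (l 16500488) (l 1)))) (b (a (b (b (l 16553592) (l 16574752)) (l 1)) (l 1)) (l 1))), by decide +kernel⟩

def k4_pp_022_s : ∃ t, chk3 f_pp_022_s t 5 1 1 = true :=
  ⟨(b (l 6) (b (l 1) (l 1))), by decide +kernel⟩

def k5_pp_022_s : ∃ t, chk3 f_pp_022_s t 3 1 1 = true :=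
  ⟨(l 1), by decide +kernel⟩

theorem s6_pp_022_s : ∃ t, chk3 f_pp_022_s t 8 3 1 = true := ex3_b k1_pp_022_s k2_pp_022_s

theorem s7_pp_022_s : ∃ t, chk3 f_pp_022_s t 4 3 1 = true := ex3_a s6_pp_022_s k3_pp_022_s

theorem s8_pp_022_s : ∃ t, chk3 f_pp_022_s t 4 1 1 = true := ex3_b k0_pp_022_s s7_pp_022_s

theorem s9_pp_022_s : ∃ t, chk3 f_pp_022_s t 2 1 1 = true := ex3_a s8_pp_022_s k4_pp_022_s

theorem s10_pp_022_s : ∃ t, chk3 f_pp_022_s t 1 1 1 = true := ex3_a s9_pp_022_s k5_pp_022_s

theorem c_pp_022_s : CertNE 0 536870912 0 536870912 1045395039 1503240 3 eng mog cd0q0 cd0q2 pd2 false true true .pp 0 2 2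
    ndB0q0 ndB0q2 pcB2 cut_pp_022_s Ext.none :=
  certNE2 (fam := false) (s1 := true) (s2 := true) (a := 0) (b := 2) (c := 2) (cn := .pp) (n1 := ndB0q0) (n2 := ndB0q2) (pc := pcB2) (cut := cut_pp_022_s) (xt := Ext.none) (P1 := 0) (W1 := 536870912) (P2 := 0) (W2 := 536870912) (P3 := 1045395039) (W3 := 1503240) (N0 := 3) (En := eng) (mo := mog) (C1 := cd0q0) (C2 := cd0q2) (C3 := pd2)
    rfl (fun _ => rfl) s10_pp_022_s

noncomputable def cut_pp_022_t : Cut := Cut.of [[⟨3, 0, 0, 2845415833⟩], [⟨0, 0, 0, 22369621⟩, ⟨1, 1, 0, 22369621⟩, ⟨2, 1, 0, 22369621⟩]]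

noncomputable def f_pp_022_t : ℕ → ℕ → ℕ → ℕ → Bool := onCell 0 536870912 0 536870912 1045395039 1503240
    (rowNE 3 eng mog cd0q0 cd0q2 pd2 0 false true true .pp 0 2 2 (qsf 0 536870912 0 536870912 2) ndB0q0 ndB0q2 pcB2 cut_pp_022_t Ext.none)

def k0_pp_022_t : ∃ t, chk3 f_pp_022_t t 1 1 1 = true :=
  ⟨(l 6), by decide +kernel⟩

theorem c_pp_022_t : CertNE 0 536870912 0 536870912 1045395039 1503240 3 eng mog cd0q0 cd0q2 pd2 false true true .pp 0 2 2
    ndB0q0 ndB0q2 pcB2 cut_pp_022_t Ext.none :=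
  certNE0 (fam := false) (s1 := true) (s2 := true) (a := 0) (b := 2) (c := 2) (cn := .pp) (n1 := ndB0q0) (n2 := ndB0q2) (pc := pcB2) (cut := cut_pp_022_t) (xt := Ext.none) (P1 := 0) (W1 := 536870912) (P2 := 0) (W2 := 536870912) (P3 := 1045395039) (W3 := 1503240) (N0 := 3) (En := eng) (mo := mog) (C1 := cd0q0) (C2 := cd0q2) (C3 := pd2)
    rfl k0_pp_022_t

noncomputable def cut_pp_101_s : Cut := Cut.of [[⟨4, 0, 0, 1449551462⟩]]

noncomputable def f_pp_101_s : ℕ → ℕ → ℕ → ℕ → Bool := onCell 536870912 536870912 536870912 536870912 1045395039 1503240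
    (rowNE 3 eng mog cd0q1 cd0q1 pd0 0 false true true .npn 1 0 1 (qsf 536870912 536870912 536870912 536870912 0) ndB0q1 ndB0q1 pcB0 cut_pp_101_s Ext.none)

def k0_pp_101_s : ∃ t, chk3 f_pp_101_s t 1 1 1 = true :=
  ⟨(l 3), by decide +kernel⟩

theorem c_pp_101_s : CertNE 536870912 536870912 536870912 536870912 1045395039 1503240 3 eng mog cd0q1 cd0q1 pd0 false true true .npn 1 0 1
    ndB0q1 ndB0q1 pcB0 cut_pp_101_s Ext.none :=
  certNE0 (fam := false) (s1 := true) (s2 := true) (a := 1) (b := 0) (c := 1) (cn := .npn) (n1 := ndB0q1) (n2 := ndB0q1) (pc := pcB0) (cut := cut_pp_101_s) (xt := Ext.none) (P1 := 536870912) (W1 := 536870912) (P2 := 536870912) (W2 := 536870912) (P3 := 1045395039) (W3 := 1503240) (N0 := 3) (En := eng) (mo := mog) (C1 := cd0q1) (C2 := cd0q1) (C3 := pd0)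
    rfl k0_pp_101_s

noncomputable def cut_pp_101_t : Cut := Cut.of [[⟨3, 0, 0, 2845415833⟩]]

noncomputable def f_pp_101_t : ℕ → ℕ → ℕ → ℕ → Bool := onCell 536870912 536870912 536870912 536870912 1045395039 1503240
    (rowNE 3 eng mog cd0q1 cd0q1 pd0 0 false true true .npn 1 0 1 (qsf 536870912 536870912 536870912 536870912 0) ndB0q1 ndB0q1 pcB0 cut_pp_101_t Ext.none)

def k0_pp_101_t : ∃ t, chk3 f_pp_101_t t 1 1 1 = true :=
  ⟨(l 3), by decide +kernel⟩

theorem c_pp_101_t : CertNE 536870912 536870912 536870912 536870912 1045395039 1503240 3 eng mog cd0q1 cd0q1 pd0 false true true .npn 1 0 1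
    ndB0q1 ndB0q1 pcB0 cut_pp_101_t Ext.none :=
  certNE0 (fam := false) (s1 := true) (s2 := true) (a := 1) (b := 0) (c := 1) (cn := .npn) (n1 := ndB0q1) (n2 := ndB0q1) (pc := pcB0) (cut := cut_pp_101_t) (xt := Ext.none) (P1 := 536870912) (W1 := 536870912) (P2 := 536870912) (W2 := 536870912) (P3 := 1045395039) (W3 := 1503240) (N0 := 3) (En := eng) (mo := mog) (C1 := cd0q1) (C2 := cd0q1) (C3 := pd0)
    rfl k0_pp_101_t

noncomputable def cut_pp_102_s : Cut := Cut.of [[⟨4, 0, 0, 1449551462⟩]]

noncomputable def f_pp_102_s : ℕ → ℕ → ℕ → ℕ → Bool := onCell 0 536870912 0 536870912 1045395039 1503240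
    (rowNE 3 eng mog cd0q1 cd0q2 pd0 2 false true true .npp 1 0 2 (qsf 536870912 536870912 0 536870912 0) ndB0q1 ndB0q2 pcB0 cut_pp_102_s Ext.none)

def k0_pp_102_s : ∃ t, chk3 f_pp_102_s t 1 1 1 = true :=
  ⟨(a (b (l 3) (l 3)) (l 3)), by decide +kernel⟩

theorem c_pp_102_s : CertNE 536870912 536870912 0 536870912 1045395039 1503240 3 eng mog cd0q1 cd0q2 pd0 false true true .npp 1 0 2
    ndB0q1 ndB0q2 pcB0 cut_pp_102_s Ext.none :=
  certNE2 (fam := false) (s1 := true) (s2 := true) (a := 1) (b := 0) (c := 2) (cn := .npp) (n1 := ndB0q1) (n2 := ndB0q2) (pc := pcB0) (cut := cut_pp_102_s) (xt := Ext.none) (P1 := 536870912) (W1 := 536870912) (P2 := 0) (W2 := 536870912) (P3 := 1045395039) (W3 := 1503240) (N0 := 3) (En := eng) (mo := mog) (C1 := cd0q1) (C2 := cd0q2) (C3 := pd0)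
    rfl (fun _ => rfl) k0_pp_102_s

noncomputable def cut_pp_102_t : Cut := Cut.of [[⟨3, 0, 0, 2845415833⟩]]

noncomputable def f_pp_102_t : ℕ → ℕ → ℕ → ℕ → Bool := onCell 536870912 536870912 0 536870912 1045395039 1503240
    (rowNE 3 eng mog cd0q1 cd0q2 pd0 0 false true true .npp 1 0 2 (qsf 536870912 536870912 0 536870912 0) ndB0q1 ndB0q2 pcB0 cut_pp_102_t Ext.none)

def k0_pp_102_t : ∃ t, chk3 f_pp_102_t t 1 1 1 = true :=
  ⟨(l 6), by decide +kernel⟩

theorem c_pp_102_t : CertNE 536870912 536870912 0 536870912 1045395039 1503240 3 eng mog cd0q1 cd0q2 pd0 false true true .npp 1 0 2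
    ndB0q1 ndB0q2 pcB0 cut_pp_102_t Ext.none :=
  certNE0 (fam := false) (s1 := true) (s2 := true) (a := 1) (b := 0) (c := 2) (cn := .npp) (n1 := ndB0q1) (n2 := ndB0q2) (pc := pcB0) (cut := cut_pp_102_t) (xt := Ext.none) (P1 := 536870912) (W1 := 536870912) (P2 := 0) (W2 := 536870912) (P3 := 1045395039) (W3 := 1503240) (N0 := 3) (En := eng) (mo := mog) (C1 := cd0q1) (C2 := cd0q2) (C3 := pd0)
    rfl k0_pp_102_t

noncomputable def cut_pp_112_s : Cut := Cut.of [[⟨4, 0, 0, 1449551462⟩]]

noncomputable def f_pp_112_s : ℕ → ℕ → ℕ → ℕ → Bool := onCell 536870912 536870912 0 536870912 1045395039 1503240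
    (rowNE 3 eng mog cd0q1 cd0q2 pd1 0 false true true .dn 1 1 2 (qsf 536870912 536870912 0 536870912 1) ndB0q1 ndB0q2 pcB1 cut_pp_112_s Ext.none)

def k0_pp_112_s : ∃ t, chk3 f_pp_112_s t 1 1 1 = true :=
  ⟨(a (b (a (b (a (b (a (b (l 16681944) (l 16745256)) (b (l 16742216) (l 122574218119))) (a (l 164450167959) (l 3))) (b (a (l 155323387863) (l 3)) (l 3))) (l 3)) (l 3)) (l 3)) (l 1)), by decide +kernel⟩

theorem c_pp_112_s : CertNE 536870912 536870912 0 536870912 1045395039 1503240 3 eng mog cd0q1 cd0q2 pd1 false true true .dn 1 1 2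
    ndB0q1 ndB0q2 pcB1 cut_pp_112_s Ext.none :=
  certNE0 (fam := false) (s1 := true) (s2 := true) (a := 1) (b := 1) (c := 2) (cn := .dn) (n1 := ndB0q1) (n2 := ndB0q2) (pc := pcB1) (cut := cut_pp_112_s) (xt := Ext.none) (P1 := 536870912) (W1 := 536870912) (P2 := 0) (W2 := 536870912) (P3 := 1045395039) (W3 := 1503240) (N0 := 3) (En := eng) (mo := mog) (C1 := cd0q1) (C2 := cd0q2) (C3 := pd1)
    rfl k0_pp_112_s

noncomputable def cut_pp_112_t : Cut := Cut.of [[⟨3, 0, 0, 2845415833⟩]]

noncomputable def f_pp_112_t : ℕ → ℕ → ℕ → ℕ → Bool := onCell 536870912 536870912 0 536870912 1045395039 1503240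
    (rowNE 3 eng mog cd0q1 cd0q2 pd1 0 false true true .dn 1 1 2 (qsf 536870912 536870912 0 536870912 1) ndB0q1 ndB0q2 pcB1 cut_pp_112_t Ext.none)

def k0_pp_112_t : ∃ t, chk3 f_pp_112_t t 1 1 1 = true :=
  ⟨(l 6), by decide +kernel⟩

theorem c_pp_112_t : CertNE 536870912 536870912 0 536870912 1045395039 1503240 3 eng mog cd0q1 cd0q2 pd1 false true true .dn 1 1 2
    ndB0q1 ndB0q2 pcB1 cut_pp_112_t Ext.none :=
  certNE0 (fam := false) (s1 := true) (s2 := true) (a := 1) (b := 1) (c := 2) (cn := .dn) (n1 := ndB0q1) (n2 := ndB0q2) (pc := pcB1) (cut := cut_pp_112_t) (xt := Ext.none) (P1 := 536870912) (W1 := 536870912) (P2 := 0) (W2 := 536870912) (P3 := 1045395039) (W3 := 1503240) (N0 := 3) (En := eng) (mo := mog) (C1 := cd0q1) (C2 := cd0q2) (C3 := pd1)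
    rfl k0_pp_112_t

noncomputable def cut_pp_202_s : Cut := Cut.of [[⟨4, 0, 0, 1449551462⟩]]

noncomputable def f_pp_202_s : ℕ → ℕ → ℕ → ℕ → Bool := onCell 0 536870912 0 536870912 1045395039 1503240
    (rowNE 3 eng mog cd0q2 cd0q2 pd0 0 false true true .pp 2 0 2 (qsf 0 536870912 0 536870912 0) ndB0q2 ndB0q2 pcB0 cut_pp_202_s Ext.none)

def k0_pp_202_s : ∃ t, chk3 f_pp_202_s t 1 1 1 = true :=
  ⟨(l 3), by decide +kernel⟩

theorem c_pp_202_s : CertNE 0 536870912 0 536870912 1045395039 1503240 3 eng mog cd0q2 cd0q2 pd0 false true true .pp 2 0 2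
    ndB0q2 ndB0q2 pcB0 cut_pp_202_s Ext.none :=
  certNE0 (fam := false) (s1 := true) (s2 := true) (a := 2) (b := 0) (c := 2) (cn := .pp) (n1 := ndB0q2) (n2 := ndB0q2) (pc := pcB0) (cut := cut_pp_202_s) (xt := Ext.none) (P1 := 0) (W1 := 536870912) (P2 := 0) (W2 := 536870912) (P3 := 1045395039) (W3 := 1503240) (N0 := 3) (En := eng) (mo := mog) (C1 := cd0q2) (C2 := cd0q2) (C3 := pd0)
    rfl k0_pp_202_s

noncomputable def cut_pp_202_t : Cut := Cut.of [[⟨3, 0, 0, 2845415833⟩]]

noncomputable def f_pp_202_t : ℕ → ℕ → ℕ → ℕ → Bool := onCell 0 536870912 0 536870912 1045395039 1503240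
    (rowNE 3 eng mog cd0q2 cd0q2 pd0 0 false true true .pp 2 0 2 (qsf 0 536870912 0 536870912 0) ndB0q2 ndB0q2 pcB0 cut_pp_202_t Ext.none)

def k0_pp_202_t : ∃ t, chk3 f_pp_202_t t 1 1 1 = true :=
  ⟨(l 3), by decide +kernel⟩

theorem c_pp_202_t : CertNE 0 536870912 0 536870912 1045395039 1503240 3 eng mog cd0q2 cd0q2 pd0 false true true .pp 2 0 2
    ndB0q2 ndB0q2 pcB0 cut_pp_202_t Ext.none :=
  certNE0 (fam := false) (s1 := true) (s2 := true) (a := 2) (b := 0) (c := 2) (cn := .pp) (n1 := ndB0q2) (n2 := ndB0q2) (pc := pcB0) (cut := cut_pp_202_t) (xt := Ext.none) (P1 := 0) (W1 := 536870912) (P2 := 0) (W2 := 536870912) (P3 := 1045395039) (W3 := 1503240) (N0 := 3) (En := eng) (mo := mog) (C1 := cd0q2) (C2 := cd0q2) (C3 := pd0)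
    rfl k0_pp_202_t

noncomputable def cut_pm_001_s : Cut := Cut.of [[⟨4, 0, 0, 1449551462⟩]]

noncomputable def f_pm_001_s : ℕ → ℕ → ℕ → ℕ → Bool := onCell 0 536870912 536870912 536870912 1045395039 1503240
    (rowNE 3 eng mog cd0q0 cd0q1 pd0 0 false true false .up 0 0 1 (qsf 0 536870912 536870912 536870912 0) ndB0q0 ndB0q1 pcB0 cut_pm_001_s Ext.none)

def k0_pm_001_s : ∃ t, chk3 f_pm_001_s t 1 1 1 = true :=
  ⟨(l 6), by decide +kernel⟩

theorem c_pm_001_s : CertNE 0 536870912 536870912 536870912 1045395039 1503240 3 eng mog cd0q0 cd0q1 pd0 false true false .up 0 0 1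
    ndB0q0 ndB0q1 pcB0 cut_pm_001_s Ext.none :=
  certNE0 (fam := false) (s1 := true) (s2 := false) (a := 0) (b := 0) (c := 1) (cn := .up) (n1 := ndB0q0) (n2 := ndB0q1) (pc := pcB0) (cut := cut_pm_001_s) (xt := Ext.none) (P1 := 0) (W1 := 536870912) (P2 := 536870912) (W2 := 536870912) (P3 := 1045395039) (W3 := 1503240) (N0 := 3) (En := eng) (mo := mog) (C1 := cd0q0) (C2 := cd0q1) (C3 := pd0)
    rfl k0_pm_001_s

noncomputable def cut_pm_001_t : Cut := Cut.of [[⟨3, 0, 0, 2845415833⟩]]

noncomputable def f_pm_001_t : ℕ → ℕ → ℕ → ℕ → Bool := onCell 0 536870912 536870912 536870912 1045395039 1503240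
    (rowNE 3 eng mog cd0q0 cd0q1 pd0 0 false true false .up 0 0 1 (qsf 0 536870912 536870912 536870912 0) ndB0q0 ndB0q1 pcB0 cut_pm_001_t Ext.none)

def k0_pm_001_t : ∃ t, chk3 f_pm_001_t t 1 2 1 = true :=
  ⟨(a (l 4) (b (l 4) (a (l 4) (b (a (l 4) (b (a (l 4) (b (l 4) (l 123714978839))) (a (b (l 4) (l 123178112055)) (b (l 57143057463) (l 16741864))))) (a (b (a (l 4) (b (l 4) (l 122104377703))) (a (b (l 142505390983) (l 121567518839)) (b (l 16721464) (l 16731600)))) (b (a (b (l 16708984) (l 16745544)) (l 16694656)) (a (l 16686624) (l 16648784)))))))), by decide +kernel⟩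

def k1_pm_001_t : ∃ t, chk3 f_pm_001_t t 1 3 1 = true :=
  ⟨(a (b (b (l 4) (l 2)) (l 2)) (a (b (b (a (a (l 4) (b (l 4) (b (l 4) (a (l 4) (l 108145711143))))) (b (a (l 4) (b (l 118346208087) (a (l 16723064) (l 16753144)))) (a (b (a (l 16664112) (l 16731096)) (a (l 16743832) (l 16734616))) (b (l 16727096) (l 16664312))))) (a (b (a (l 2) (b (a (l 2) (l 16757440)) (l 2))) (l 2)) (b (a (a (b (l 16727864) (l 16694816)) (l 16634712)) (b (l 16623376) (l 16606128))) (a (b (l 16629712) (l 2)) (b (l 16572784) (l 16525984)))))) (b (a (l 2) (b (a (l 2) (b (a (l 2) (b (l 16504488) (l 2))) (l 2))) (l 2))) (l 2))) (b (b (a (b (a (b (l 16746816) (l 16707872)) (a (l 16687936) (l 16665024))) (a (l 16559592) (l 16527048))) (b (a (l 16636656) (l 16613168)) (a (l 16507568) (l 16525520)))) (a (b (a (l 16493376) (l 16475560)) (a (b (l 16495528) (b (l 16468584) (a (l 16472128) (l 16423936)))) (b (a (l 16442760) (l 16408608)) (b (a (l 16406512) (l 16366832)) (l 16326208))))) (b (a (l 16450248) (b (l 16449008)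 (l 16345904))) (a (b (a (l 16377960) (l 16352120)) (l 16274576)) (b (l 16271416) (l 6)))))) (b (a (b (a (b (a (b (l 16447536) (l 16395480)) (l 16352664)) (l 16210552)) (b (l 16261816) (l 6))) (a (b (l 16085616) (l 2)) (l 6))) (l 6)) (l 6))))), by decide +kernel⟩

theorem s2_pm_001_t : ∃ t, chk3 f_pm_001_t t 1 1 1 = true := ex3_b k0_pm_001_t k1_pm_001_t

theorem c_pm_001_t : CertNE 0 536870912 536870912 536870912 1045395039 1503240 3 eng mog cd0q0 cd0q1 pd0 false true false .up 0 0 1
    ndB0q0 ndB0q1 pcB0 cut_pm_001_t Ext.none :=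
  certNE0 (fam := false) (s1 := true) (s2 := false) (a := 0) (b := 0) (c := 1) (cn := .up) (n1 := ndB0q0) (n2 := ndB0q1) (pc := pcB0) (cut := cut_pm_001_t) (xt := Ext.none) (P1 := 0) (W1 := 536870912) (P2 := 536870912) (W2 := 536870912) (P3 := 1045395039) (W3 := 1503240) (N0 := 3) (En := eng) (mo := mog) (C1 := cd0q0) (C2 := cd0q1) (C3 := pd0)
    rfl s2_pm_001_t

noncomputable def cut_pm_011_s : Cut := Cut.of [[⟨4, 0, 0, 1449551462⟩], [⟨0, 0, 0, 16777216⟩, ⟨1, 1, 0, 16777216⟩, ⟨2, 1, 0, 16777216⟩]]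

noncomputable def f_pm_011_s : ℕ → ℕ → ℕ → ℕ → Bool := onCell 0 536870912 536870912 536870912 1045395039 1503240
    (rowNE 3 eng mog cd0q0 cd0q1 pd1 0 false true false .pnn 0 1 1 (qsf 0 536870912 536870912 536870912 1) ndB0q0 ndB0q1 pcB1 cut_pm_011_s Ext.none)

def k0_pm_011_s : ∃ t, chk3 f_pm_011_s t 1 1 1 = true :=
  ⟨(l 6), by decide +kernel⟩

theorem c_pm_011_s : CertNE 0 536870912 536870912 536870912 1045395039 1503240 3 eng mog cd0q0 cd0q1 pd1 false true false .pnn 0 1 1
    ndB0q0 ndB0q1 pcB1 cut_pm_011_s Ext.none :=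
  certNE0 (fam := false) (s1 := true) (s2 := false) (a := 0) (b := 1) (c := 1) (cn := .pnn) (n1 := ndB0q0) (n2 := ndB0q1) (pc := pcB1) (cut := cut_pm_011_s) (xt := Ext.none) (P1 := 0) (W1 := 536870912) (P2 := 536870912) (W2 := 536870912) (P3 := 1045395039) (W3 := 1503240) (N0 := 3) (En := eng) (mo := mog) (C1 := cd0q0) (C2 := cd0q1) (C3 := pd1)
    rfl k0_pm_011_s

noncomputable def cut_pm_011_t : Cut := Cut.of [[⟨3, 0, 0, 2845415833⟩], [⟨0, 0, 0, 16777216⟩, ⟨1, 1, 0, 16777216⟩, ⟨2, 1, 0, 16777216⟩]]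

noncomputable def f_pm_011_t : ℕ → ℕ → ℕ → ℕ → Bool := onCell 0 536870912 536870912 536870912 1045395039 1503240
    (rowNE 3 eng mog cd0q0 cd0q1 pd1 0 false true false .pnn 0 1 1 (qsf 0 536870912 536870912 536870912 1) ndB0q0 ndB0q1 pcB1 cut_pm_011_t Ext.none)

def k0_pm_011_t : ∃ t, chk3 f_pm_011_t t 2 2 1 = true :=
  ⟨(l 4), by decide +kernel⟩

def k1_pm_011_t : ∃ t, chk3 f_pm_011_t t 2 6 1 = true :=
  ⟨(a (l 4) (b (l 4) (a (l 4) (b (l 4) (a (b (l 4) (a (l 4) (b (l 4) (l 253637845031)))) (b (a (l 4) (b (l 137136702743) (l 16705280))) (a (b (l 117809396375) (l 26541505447)) (a (l 16751560) (l 16713896))))))))), by decide +kernel⟩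

def k2_pm_011_t : ∃ t, chk3 f_pm_011_t t 4 14 1 = true :=
  ⟨(a (l 4) (b (l 4) (a (l 4) (b (l 4) (a (l 4) (b (l 4) (a (b (l 4) (a (l 4) (b (l 4) (l 247732342487)))) (b (a (l 4) (b (l 274038980711) (l 114051435767))) (a (b (l 239142419815) (l 16773168)) (l 16769440)))))))))), by decide +kernel⟩

def k3_pm_011_t : ∃ t, chk3 f_pm_011_t t 8 30 1 = true :=
  ⟨(a (l 4) (a (l 4) (b (l 4) (b (l 4) (a (l 4) (b (l 4) (a (l 4) (b (l 4) (a (b (l 4) (a (l 4) (b (l 4) (a (b (l 4) (l 280481495191)) (b (l 277260269719) (l 16776760)))))) (b (a (l 4) (b (a (l 4) (l 301419441287)) (a (b (l 4) (a (l 281555233207) (l 16771864))) (b (a (l 277260267223) (l 16771800)) (l 16766024))))) (a (b (a (b (l 4) (a (l 289608294215) (l 147874368071))) (b (a (l 285313328247) (l 37815832327)) (l 16771392))) (a (l 1308610567) (l 16765008))) (b (b (l 16770920) (l 16764928)) (l 16763792))))))))))))), by decide +kernel⟩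

def k4_pm_011_t : ∃ t, chk3 f_pm_011_t t 16 62 1 = true :=
  ⟨(a (l 4) (b (l 4) (a (l 4) (b (l 4) (a (l 4) (b (l 4) (a (l 4) (b (l 4) (a (l 4) (b (l 4) (a (b (l 4) (a (l 4) (b (l 4) (a (b (l 4) (b (b (l 260617273527) (l 335242329879)) (a (a (l 4) (l 185992216631)) (l 16777128)))) (b (a (l 337926684343) (b (a (l 278334013511) (l 140895060039)) (l 16777112))) (l 16775640)))))) (b (a (l 4) (b (a (l 4) (l 337389812071)) (a (b (l 4) (a (c (l 313230622391) (l 312693751431)) (a (b (l 211762020407) (l 16777112)) (l 16777104)))) (b (b (a (l 4) (l 138747574999)) (a (l 156464315079) (l 16774432))) (l 16774272))))) (b (a (a (b (l 4) (b (a (l 4) (a (l 237531824215) (l 150558736375))) (a (a (l 234310598759) (l 271891562151)) (l 16777096)))) (b (b (a (l 4) (a (l 337926684519) (l 16777192))) (a (a (l 317525589991) (l 134989479927)) (l 16777088))) (l 16775616))) (l 16775264)) (a (l 16775952) (l 16773304))))))))))))))), by decide +kernel⟩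

def k5_pm_011_t : ∃ t, chk3 f_pm_011_t t 32 126 1 = true :=
  ⟨(a (l 4) (b (l 4) (a (l 4) (b (l 4) (a (l 4) (b (l 4) (a (l 4) (b (l 4) (a (l 4) (b (l 4) (a (l 4) (b (l 4) (a (a (l 4) (b (l 4) (b (l 4) (a (l 176865411143) (l 16777192))))) (b (a (l 4) (b (l 263301628055) (l 127473284583))) (a (b (l 119957093143) (l 16777112)) (l 16774432)))))))))))))))), by decide +kernel⟩

def k6_pm_011_t : ∃ t, chk3 f_pm_011_t t 64 254 1 = true :=
  ⟨(b (l 4) (l 14)), by decide +kernel⟩

def k7_pm_011_t : ∃ t, chk3 f_pm_011_t t 130 508 1 = true :=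
  ⟨(a (l 4) (b (l 4) (a (l 4) (b (l 4) (a (l 4) (b (l 4) (a (l 4) (b (l 4) (b (l 4) (a (l 4) (a (b (l 4) (b (l 239142436951) (a (l 199950860359) (l 16777200)))) (b (b (l 233773727831) (a (l 192434667591) (l 16777200))) (l 16777160))))))))))))), by decide +kernel⟩

def k8_pm_011_t : ∃ t, chk3 f_pm_011_t t 262 1016 1 = true :=
  ⟨(a (l 4) (b (l 4) (a (l 4) (b (l 4) (a (l 4) (b (l 4) (a (b (l 4) (a (l 4) (l 298198237271))) (b (a (l 4) (b (l 4) (l 233773727191))) (a (b (l 238605566055) (a (l 16777216) (l 16777168))) (c (l 16777144) (l 16777144))))))))))), by decide +kernel⟩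

def k9_pm_011_t : ∃ t, chk3 f_pm_011_t t 524 1017 1 = true :=
  ⟨(b (a (l 4) (b (l 4) (a (l 4) (b (l 4) (a (l 4) (b (l 4) (b (a (l 4) (a (a (l 215520116807) (l 143042543671)) (l 16777200))) (a (a (a (l 222499438663) (l 150021865527)) (l 16777200)) (l 16777128))))))))) (a (b (a (l 4) (b (l 4) (b (l 4) (a (l 4) (a (b (l 4) (b (l 213909504071) (a (l 161833025591) (l 16777192)))) (b (b (l 208540794951) (a (l 153779961911) (l 16777192))) (l 16777144))))))) (a (b (a (l 4) (b (l 4) (a (b (l 4) (b (l 218204470727) (a (l 219815084071) (l 16777200)))) (b (a (l 214446374343) (a (l 131231383607) (l 16777208))) (l 16777152))))) (b (a (a (b (l 4) (b (l 228941889623) (a (l 210151407671) (l 16777200)))) (b (b (l 223573180503) (a (l 227868147751) (l 16777200))) (l 16777160))) (l 16777072)) (l 16776336))) (a (b (b (a (b (l 4) (a (l 209077665223) (a (l 124252061751) (l 16777208)))) (b (b (l 219278213191) (a (l 169886089271) (l 16777192))) (l 16777152))) (l 16777072)) (l 16774200)) (l 16776320))))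 (b (a (b (a (l 4) (b (l 4) (b (a (l 4) (a (l 188139699639) (l 16777200))) (a (a (l 194045279671) (l 16777208)) (l 16777136))))) (a (b (a (b (l 4) (a (l 204782698567) (a (l 97945387063) (l 16777200)))) (b (a (l 199413988791) (a (l 16777216) (l 16777192))) (l 16777144))) (l 16777056)) (l 16776968))) (b (a (b (b (a (l 4) (a (a (l 229478760519) (l 157001187383)) (l 16777200))) (a (a (a (l 235921211463) (l 163980509239)) (l 16777200)) (l 16777136))) (l 16777048)) (l 16776960)) (l 16774080))) (a (l 16775240) (l 16773568))))), by decide +kernel⟩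

def k10_pm_011_t : ∃ t, chk3 f_pm_011_t t 525 1017 1 = true :=
  ⟨(b (a (b (a (l 4) (b (l 4) (a (b (l 4) (a (l 4) (l 313767493735))) (b (a (l 4) (l 307861913703)) (b (a (l 275112788071) (a (l 136063220503) (l 16777184))) (a (a (l 141968800535) (l 16777184)) (l 16777112))))))) (a (b (a (b (l 4) (a (l 4) (l 327189266535))) (b (a (l 4) (l 319673073767)) (b (a (l 279407755383) (a (l 159685540631) (l 16777192))) (a (a (l 165591121975) (l 16777192)) (l 16777120))))) (a (b (b (a (l 289608302711) (a (a (l 201561473095) (l 129083899959)) (l 16777192))) (a (a (a (l 208540794951) (l 136063221815)) (l 16777192)) (l 16777128))) (l 16777040)) (l 16775632))) (b (a (b (b (a (l 284239593575) (a (l 147874380567) (l 16777184))) (a (a (l 153779960599) (l 16777184)) (l 16777120))) (l 16774408)) (l 16775624)) (l 16774048)))) (b (a (b (a (b (l 4) (a (l 4) (l 301419462759))) (b (a (l 4) (l 304103817303)) (b (a (l 256859177063) (a (l 111367159863) (l 16777176))) (a (a (l 117809610807) (l 16777176)) (l 16777104)))))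 (a (b (b (a (l 265985982567) (a (l 123715189527) (l 16777176))) (a (a (l 129620769559) (l 16777176)) (l 16777112))) (l 16774400)) (l 16775608))) (b (a (b (b (a (l 247732371559) (a (l 99019128887) (l 16777168))) (a (a (l 105461579831) (l 16777168)) (l 16777096))) (l 16774384)) (l 16774288)) (l 16774016))) (a (l 16775160) (l 16773464)))) (a (b (a (l 16775200) (l 16773512)) (l 16773008)) (b (l 16772936) (l 16774848)))), by decide +kernel⟩

def k11_pm_011_t : ∃ t, chk3 f_pm_011_t t 526 1016 1 = true :=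
  ⟨(b (a (l 4) (b (l 4) (a (l 4) (b (l 4) (a (a (l 4) (b (l 4) (b (l 4) (a (l 267596595287) (l 147337510967))))) (b (a (l 4) (b (l 4) (a (l 254711693399) (l 134452609079)))) (a (b (a (l 261154144343) (l 140895060023)) (l 16777152)) (l 16774480)))))))) (a (b (a (l 4) (b (l 4) (a (a (l 4) (a (l 4) (b (l 4) (b (l 4) (l 181697249351))))) (b (a (l 4) (a (l 4) (b (l 4) (l 168812347463)))) (a (b (a (l 4) (l 175254798407)) (l 16777176)) (l 16777120)))))) (a (b (a (a (l 4) (b (l 4) (b (l 4) (l 237531824215)))) (b (a (l 4) (b (l 4) (l 228405018055))) (a (b (l 233236856919) (l 16777184)) (l 16777136)))) (a (b (a (b (l 242363662423) (l 16777184)) (l 16777136)) (l 16774376)) (l 16774272))) (b (a (a (b (b (a (l 4) (l 188139700295)) (l 16777176)) (l 16777032)) (l 16777032)) (l 16774264)) (l 16773976)))) (b (a (b (a (b (l 4) (a (l 4) (a (l 4) (b (l 4) (l 155927445575))))) (b (b (l 4) (a (l 4) (a (l 263301628007) (l 143042543687)))) (a (b (a (l 269744078951) (l 149484994631)) (l 16777168)) (l 16777112))))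 (a (b (a (b (a (l 4) (l 162369896519)) (l 16777168)) (l 16777120)) (l 16774352)) (l 16774248))) (b (a (a (b (b (a (l 274575917143) (l 153779961911)) (l 16777160)) (l 16777008)) (l 16775696)) (l 16774232)) (l 16773944))) (l 16774872)))), by decide +kernel⟩

def k12_pm_011_t : ∃ t, chk3 f_pm_011_t t 527 1016 1 = true :=
  ⟨(b (a (b (a (l 4) (b (l 4) (a (a (l 4) (b (l 4) (b (l 4) (a (l 214446374999) (l 16777216))))) (a (b (l 4) (a (b (l 207467053143) (l 16774544)) (l 16777160))) (b (b (l 4) (a (l 218204471367) (l 16777208))) (l 16774456)))))) (b (a (a (a (l 4) (b (l 4) (b (l 4) (a (l 241289920599) (l 16777216))))) (b (a (l 4) (b (l 4) (a (l 227868147799) (l 16777216)))) (a (b (a (l 234310598743) (l 16777216)) (l 16777144)) (l 16774472)))) (a (a (b (a (b (l 220888825943) (l 16777168)) (l 16777168)) (l 16776984)) (l 16774360)) (l 16774200))) (a (a (a (b (b (a (l 247732371543) (l 128010158135)) (l 16777152)) (l 16777000)) (l 16775688)) (l 16774216)) (l 16773904)))) (b (b (a (a (a (l 4)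 (b (l 4) (b (l 4) (l 145726896919)))) (b (a (l 4) (b (l 4) (l 135526349591))) (a (b (l 140895058711) (l 16774504)) (l 16774448)))) (a (a (b (b (l 130694511383) (l 16774496)) (l 16776960)) (l 16774336)) (l 16774176))) (a (a (a (a (b (b (l 211225149511) (l 16777160)) (l 16777000)) (l 16776392)) (l 16774352)) (l 16774192)) (l 16773864))) (l 16774768))) (a (b (l 16774816) (l 16772712)) (b (l 16772632) (l 16774448)))), by decide +kernel⟩

def k13_pm_011_t : ∃ t, chk3 f_pm_011_t t 263 1017 1 = true :=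
  ⟨(a (b (a (b (l 16775248) (l 16772864)) (b (l 16772792) (l 16774648))) (b (l 16771712) (l 16768360))) (b (b (l 16771480) (l 16768080)) (l 16766928))), by decide +kernel⟩

def k14_pm_011_t : ∃ t, chk3 f_pm_011_t t 260 509 1 = true :=
  ⟨(b (b (l 4) (l 14)) (l 14)), by decide +kernel⟩

def k15_pm_011_t : ∃ t, chk3 f_pm_011_t t 522 1018 1 = true :=
  ⟨(b (a (l 4) (b (l 4) (a (l 4) (b (l 4) (a (l 4) (b (l 4) (b (b (l 4) (a (l 4) (a (l 4) (l 111904030119)))) (b (a (l 4) (a (l 115662126503) (l 16777184))) (a (a (l 4) (l 119420222887)) (l 16777168)))))))))) (a (b (b (l 4) (l 14)) (l 14)) (a (b (b (a (l 4) (b (l 4) (b (b (l 4) (a (l 4) (a (l 4) (l 140358188455)))) (b (a (l 4) (a (l 144116284839) (l 16777192))) (a (a (l 4) (l 147337510311)) (l 16777176)))))) (b (b (b (a (l 4) (a (a (l 151095606695) (l 16777192)) (l 16777136))) (a (l 14) (l 16777136))) (a (l 14) (l 16777080))) (a (l 14) (l 16776976)))) (l 16776360)) (b (b (a (b (b (b (l 4) (a (l 4) (a (l 4) (l 126399544743)))) (b (a (l 4)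 (a (l 130157641127) (l 16777184))) (a (a (l 4) (l 133378866599)) (l 16777168)))) (b (b (a (a (l 137136962983) (l 16777192)) (l 16777136)) (l 16777136)) (l 16777080))) (a (a (b (b (b (l 122641448359) (l 16777184)) (l 16777128)) (l 16777024)) (l 16775744)) (l 16775688))) (l 16775512)) (l 16775072))))), by decide +kernel⟩

def k16_pm_011_t : ∃ t, chk3 f_pm_011_t t 523 1018 1 = true :=
  ⟨(b (a (b (a (l 4) (b (l 4) (a (l 4) (b (l 4) (a (a (l 321283686487) (b (l 4) (b (l 284239593527) (l 16777216)))) (b (b (l 257932918887) (a (l 254174822471) (l 16777216))) (l 16777176))))))) (a (b (a (l 4) (b (l 4) (b (b (l 4) (a (l 4) (a (l 4) (l 16777216)))) (b (a (l 4) (a (l 111367159847) (l 16777176))) (a (a (l 4) (l 115125256231)) (l 16777160)))))) (a (b (b (b (l 4) (a (l 4) (a (l 4) (l 97408514839)))) (b (a (l 4) (a (l 101166611879) (l 16777184))) (a (a (l 4) (l 104924708263)) (l 16777160)))) (b (b (a (a (l 108145933735) (l 16777184)) (l 16777128)) (l 16777128)) (l 16777072))) (b (b (b (a (a (l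 93650419767) (l 16777184)) (l 16777120)) (l 16777120)) (l 16777064)) (l 16776952)))) (b (a (b (b (b (l 323968041047) (a (l 4) (a (l 297661366327) (l 16777216)))) (b (a (l 274039046247) (l 16777200)) (a (a (l 4) (l 16777216)) (l 16777160)))) (c (l 86134226359) (a (b (a (l 16777200) (l 16777160)) (l 16777104)) (l 16777064)))) (b (l 83986742663) (l 16776944))) (l 16775480)))) (b (a (b (b (l 4) (a (l 4) (a (b (l 4) (b (l 260080402519) (a (l 231089373255) (l 16777208)))) (b (b (l 254711693399) (a (l 223573180487) (l 16777208))) (l 16777168))))) (a (b (a (b (l 4) (b (l 270280949847) (a (l 246658629703) (l 16777208)))) (b (b (l 264912240727) (a (l 238605566023) (l 16777208))) (l 16777168))) (l 82376129991)) (l 73786195079))) (b (b (a (a (b (l 4) (b (l 249342984279) (a (l 215520116807) (l 16777208)))) (b (b (l 244511146071) (a (l 208003924039) (l 16777208))) (l 16777168))) (l 16777080)) (l 72175582151)) (l 16776760))) (a (l 16775968) (l 16774976)))) (a (b (a (l 16776000) (l 16775024)) (l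 16774592)) (b (l 16774528) (l 16769984)))), by decide +kernel⟩

def k17_pm_011_t : ∃ t, chk3 f_pm_011_t t 261 1019 1 = true :=
  ⟨(a (b (a (l 14) (a (l 14) (l 16772912))) (l 14)) (a (b (l 16772416) (l 16763440)) (b (l 16769096) (l 16762712)))), by decide +kernel⟩

def k18_pm_011_t : ∃ t, chk3 f_pm_011_t t 131 509 1 = true :=
  ⟨(b (a (a (b (a (b (a (l 16775272) (l 16773616)) (l 16774456)) (a (l 16774568) (l 16772560))) (a (l 16769584) (l 16768832))) (b (a (l 16769368) (l 16768560)) (l 16767632))) (a (a (l 16767024) (l 16766128)) (l 16764704))) (a (b (a (l 16767984) (l 16761104)) (a (l 16761552) (b (l 16770616) (l 16764712)))) (b (a (l 16764504) (b (l 16768120) (l 16767416))) (a (l 16765720) (l 16766104))))), by decide +kernel⟩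

def k19_pm_011_t : ∃ t, chk3 f_pm_011_t t 32 255 1 = true :=
  ⟨(a (l 14) (a (b (b (a (l 14) (b (a (l 14) (b (l 16762264) (l 14))) (l 14))) (l 14)) (l 14)) (a (b (b (b (a (b (l 16768472) (l 16759896)) (l 16758248)) (l 16762728)) (a (l 16755752) (l 16764136))) (b (l 16750896) (l 14))) (b (b (a (l 16755168) (l 16763424)) (l 16750384)) (b (l 16757048) (b (b (l 16743760) (l 16751704)) (b (l 16747496) (l 16744952)))))))), by decide +kernel⟩

def k20_pm_011_t : ∃ t, chk3 f_pm_011_t t 66 252 1 = true :=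
  ⟨(a (l 4) (b (l 4) (a (l 4) (b (l 4) (a (l 4) (b (l 4) (a (l 4) (b (l 4) (a (b (l 4) (a (l 347590356679) (b (l 335779198487) (a (a (l 158074923959) (l 16777160)) (l 16777048))))) (b (b (l 340074166743) (a (l 332021102199) (a (a (l 122641446423) (l 16777136)) (l 16777024)))) (b (a (a (a (l 276186529239) (l 16777144)) (l 16777032)) (l 16776792)) (l 16774024)))))))))))), by decide +kernel⟩

def k21_pm_011_t : ∃ t, chk3 f_pm_011_t t 132 506 1 = true :=
  ⟨(a (l 4) (b (l 4) (a (l 4) (b (l 4) (a (l 4) (b (l 4) (a (b (l 4) (l 363159617191)) (b (l 358864649703) (b (a (l 344369134359) (a (b (l 172033572951) (l 16777128)) (l 16777064))) (a (a (a (l 276723399895) (l 16777168)) (l 16777072)) (l 16776864))))))))))), by decide +kernel⟩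

def k22_pm_011_t : ∃ t, chk3 f_pm_011_t t 264 1014 1 = true :=
  ⟨(a (l 4) (b (l 4) (a (l 4) (b (l 4) (a (l 4) (b (l 4) (a (a (l 335242330039) (b (l 4) (b (l 162369896519) (l 16777128)))) (b (a (l 325578653303) (b (l 162369896503) (l 16777120))) (l 16774384))))))))), by decide +kernel⟩

def k23_pm_011_t : ∃ t, chk3 f_pm_011_t t 528 1015 1 = true :=
  ⟨(b (a (l 4) (b (l 4) (a (l 4) (b (l 4) (a (b (l 4) (b (a (l 4) (l 239679307863)) (a (l 232163115111) (l 16777176)))) (b (b (a (l 4) (l 228405018711)) (a (l 233773727831) (l 16777168))) (l 16777064))))))) (a (b (a (l 4) (b (l 4) (a (b (l 4) (a (l 311083139175) (b (l 270280949863) (l 16777200)))) (a (b (a (l 4) (l 245584887975)) (l 16777144)) (b (b (l 259543531623) (l 16777192)) (l 16777032)))))) (a (b (a (b (l 4) (b (l 323431170151) (a (l 285313335415) (a (l 149484994631) (l 16777184))))) (b (a (l 317525590119) (b (l 280481497191) (a (l 135526350919) (l 16777176)))) (b (a (a (l 142505672775) (l 16777184)) (l 16777096)) (l 16774424))))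 (a (a (b (b (l 122104575463) (l 16777104)) (l 16776944)) (l 16774320)) (l 16774160))) (b (a (a (a (b (b (l 16777224) (l 16777120)) (l 16776960)) (l 16774392)) (l 16774312)) (l 16774136)) (l 16773816)))) (b (a (b (a (b (l 4) (b (a (l 4) (l 223036309639)) (a (l 228405018759) (l 16777192)))) (b (b (a (l 4) (l 238068695143)) (a (l 243437404263) (l 16777184))) (l 16777072))) (a (b (l 16777080) (l 16776864)) (l 16774120))) (b (a (l 16776632) (l 16774104)) (l 16773776))) (l 16774656)))), by decide +kernel⟩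

def k24_pm_011_t : ∃ t, chk3 f_pm_011_t t 529 1015 1 = true :=
  ⟨(b (a (b (a (l 4) (b (l 4) (a (b (l 4) (b (a (l 4) (l 195119022167)) (a (l 201024602199) (l 16777152)))) (b (b (a (l 4) (l 184381603927)) (a (l 189750313047) (l 16777152))) (l 16777032))))) (a (b (a (b (l 4) (b (a (l 4) (l 217667600471)) (a (l 223036309591) (l 16777168)))) (b (b (a (l 4) (l 182234120311)) (a (l 211762020439) (l 16777160))) (l 16777048))) (l 16776168)) (b (l 16775496) (l 16776352)))) (b (a (b (a (b (l 4) (b (a (l 4) (l 184918474823)) (a (l 178476023895) (l 16777144)))) (b (b (a (l 4) (l 161833025623)) (a (l 155927445607) (l 16777136))) (l 16777024))) (l 16775480)) (l 16775224)) (l 16773232))) (a (b (l 16773288) (l 16769768)) (l 16772832))), by decide +kernel⟩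

def k25_pm_011_t : ∃ t, chk3 f_pm_011_t t 265 507 1 = true :=
  ⟨(b (a (b (a (l 4) (b (l 4) (a (l 383560709303) (b (l 376044517239) (a (b (l 373897034807) (a (l 293903269383) (l 16777128))) (b (a (l 289608302087) (l 16777120)) (l 16774320))))))) (a (b (a (l 4) (b (l 386781936215) (a (a (l 343295393335) (b (l 4) (b (l 116735868999) (l 16777104)))) (b (a (l 308398784167) (b (l 105461579847) (l 16777096))) (l 16774352))))) (a (b (a (a (l 349737844455) (b (l 4) (b (l 150558736439) (l 16774496)))) (b (a (l 316451847735) (b (l 139284447287) (l 16774488))) (l 16774368))) (l 16774136)) (l 16775184))) (b (a (b (a (a (l 337389813159) (b (l 380339486103) (l 16777184))) (b (a (l 298198236663) (l 16777136)) (l 16774336))) (l 16774096)) (l 16773824)) (l 16773104)))) (b (a (b (a (l 374970776295) (b (l 367454582087) (a (b (l 358864649063) (a (b (l 209614536823) (l 16777168)) (l 16777104))) (a (b (b (l 243974275127) (l 16777160)) (l 16776968)) (l 16776968))))) (a (b (a (b (l 366380841911) (a (l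 282092109015) (l 16777112))) (a (b (b (l 221425696887) (l 16777176)) (l 16776992)) (l 16776984))) (l 16774056)) (l 16773776))) (b (a (b (a (b (l 351885327159) (a (a (l 293366398663) (l 16777176)) (l 16777088))) (a (b (a (l 287460818599) (l 16777168)) (l 16776952)) (l 16776952))) (l 16774016)) (l 16773728)) (l 16772968))) (a (a (l 16772808) (l 16772272)) (l 16771448)))) (a (b (a (a (l 16774256) (l 16772440)) (l 16771656)) (a (l 16768200) (l 16772376))) (b (a (l 16767952) (l 16772072)) (l 16770704)))), by decide +kernel⟩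

def k26_pm_011_t : ∃ t, chk3 f_pm_011_t t 266 506 1 = true :=
  ⟨(b (a (l 4) (b (l 4) (a (l 4) (b (l 4) (a (b (l 4) (a (l 4) (a (l 351348454631) (a (l 325578651943) (b (l 4) (l 16777168)))))) (b (a (l 4) (a (l 345442874679) (a (l 319673072039) (b (l 4) (l 16777152))))) (a (b (a (l 235921211511) (a (l 282092109415) (l 16777160))) (l 16776992)) (l 16774216)))))))) (a (b (a (l 4) (b (l 4) (a (b (l 4) (a (l 4) (l 337926683655))) (a (b (l 4) (b (a (l 326652395607) (l 298735107767)) (l 16777064))) (b (a (l 367454581895) (l 324504911511)) (l 16776264)))))) (a (b (a (b (l 4) (l 355106553175)) (b (a (l 4) (l 342758521879)) (a (b (l 330410490679) (a (b (l 286923947767) (l 16777104)) (l 16774416))) (a (b (b (l 152706218599) (l 16774480)) (l 16776896)) (l 16774272))))) (a (b (a (b (l 337389812503) (a (a (l 123715188231) (l 16777152)) (l 16777056))) (a (a (b (l 121030833655) (l 16776952)) (l 16777016)) (l 16774288))) (l 16773968)) (l 16773680))) (b (a (b (b (b (a (l 4) (l 16777136)) (a (a (l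 4) (l 16777192)) (l 16774392))) (l 95261030919)) (l 16773920)) (l 16773624)) (l 16772832)))) (b (a (b (a (b (l 4) (a (l 4) (b (l 4) (l 310546267783)))) (b (a (l 4) (a (l 355106550967) (a (l 330410490055) (b (l 4) (l 16777184))))) (a (b (l 306788171367) (l 16777032)) (l 16774256)))) (a (b (a (b (a (l 272965304471) (a (l 174717924935) (l 112440899095))) (l 16777048)) (l 16774280)) (l 16773872)) (l 16773568))) (b (a (b (a (b (a (l 229478760615) (a (l 157538058327) (l 16777176))) (l 16777008)) (l 16774240)) (l 16773824)) (l 16773512)) (l 16772680))) (a (a (l 16772504) (l 16769296)) (l 16768392))))), by decide +kernel⟩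

def k27_pm_011_t : ∃ t, chk3 f_pm_011_t t 267 506 1 = true :=
  ⟨(b (a (b (a (l 4) (b (l 4) (a (b (l 4) (a (l 368528321783) (a (l 328263007175) (b (l 387855679431) (l 16777128))))) (b (a (l 363159612743) (a (l 322357427287) (b (l 300345720935) (l 16777104)))) (a (a (b (a (l 334168588087) (l 281018367575)) (l 16776984)) (l 16775664)) (l 16774120)))))) (a (b (a (b (l 4) (a (l 4) (a (l 339537294759) (a (l 320746815063) (b (l 4) (l 16777128)))))) (b (a (l 4) (b (l 4) (a (l 197266504519) (c (l 16777144) (l 16777144))))) (a (b (a (l 206393310023) (b (l 16777096) (l 16777088))) (l 16776952)) (l 16774168)))) (a (b (a (b (b (a (l 4) (l 169349218375)) (a (l 305177558823) (l 16777112))) (l 16776968)) (l 16774192)) (l 16773768)) (l 16773448))) (b (a (b (a (b (a (l 312156880599) (l 16777136)) (l 16774304)) (l 16774144)) (l 16771088)) (l 16773384)) (l 16772520)))) (b (a (b (a (b (l 4) (a (l 357790903735) (b (l 350274712743) (a (l 283702722119) (l 16777088))))) (b (a (l 352959065655) (b (l 342758520151)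 (a (a (l 154316830263) (l 16777176)) (l 16777064)))) (a (a (b (l 272965303415) (l 16776936)) (l 16774304)) (l 16774072)))) (a (b (a (a (b (a (l 210688278599) (l 122104575495)) (l 16776960)) (l 16774328)) (l 16774096)) (l 16773656)) (l 16773328))) (b (a (b (a (a (b (a (l 150558733863) (l 16777168)) (l 16776912)) (l 16774280)) (l 16774048)) (l 16770976)) (l 16773264)) (l 16772368))) (a (a (l 16772168) (l 16768912)) (l 16767944)))) (a (b (a (l 16772688) (l 16768160)) (b (l 16767080) (l 16771200))) (b (b (l 16766816) (l 16770880)) (l 16763896)))), by decide +kernel⟩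

def k28_pm_011_t : ∃ t, chk3 f_pm_011_t t 133 507 1 = true :=
  ⟨(a (b (a (b (a (a (l 16772656) (l 16769472)) (l 16768616)) (a (l 16767696) (l 16771760))) (b (a (l 16767424) (l 16771448)) (l 16769928))) (a (a (l 16764672) (l 16758216)) (l 16761568))) (b (a (b (l 16769528) (l 16767344)) (l 16760488)) (a (l 16753656) (l 16761336)))), by decide +kernel⟩

def k29_pm_011_t : ∃ t, chk3 f_pm_011_t t 134 504 1 = true :=
  ⟨(a (l 4) (b (l 4) (a (l 4) (b (l 4) (a (b (l 4) (a (l 4) (b (l 4) (a (l 4) (b (l 4) (l 316451846983)))))) (b (a (l 4) (b (l 4) (a (l 4) (a (l 344369130471) (a (l 325578652871) (b (l 4) (l 152706218695))))))) (a (b (a (l 4) (b (l 4) (l 326652395143))) (b (a (a (l 4) (a (l 293903269895) (l 176328538903))) (l 110293416903)) (b (a (a (l 275649658471) (l 16777064)) (l 16776800)) (l 16774184)))) (b (a (b (a (l 259543531735) (l 297661365879)) (l 103314094775)) (b (l 59827547927) (l 16776688))) (l 16773744))))))))), by decide +kernel⟩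

def k30_pm_011_t : ∃ t, chk3 f_pm_011_t t 268 505 1 = true :=
  ⟨(b (a (l 4) (b (l 4) (a (l 4) (b (l 4) (a (b (l 4) (a (a (l 334168584567) (b (l 4) (a (l 163980506519) (l 16777136)))) (b (b (l 326652395127) (a (l 163980509271) (l 16777096))) (l 16776936)))) (b (a (a (l 328263007415) (b (l 4) (a (l 131768251799) (l 16777112)))) (b (b (a (l 4) (l 272428432887)) (a (l 279944625831) (l 16777072))) (l 16776912))) (l 16773968))))))) (a (b (a (l 4) (b (l 4) (a (b (l 4) (a (a (l 358327774679) (a (l 336852939671) (l 316451847319))) (b (l 317525589527) (l 16776376)))) (b (a (a (l 352422194871) (a (l 330410488967) (a (l 318062458743) (l 316451847639)))) (b (a (l 366917713671) (l 279407754727)) (l 16774384))) (l 77544290007))))) (a (b (a (b (l 4) (a (l 337389812311) (b (l 336852942535) (a (b (l 145726898247) (l 16777088)) (l 16777000))))) (b (a (l 332557974295) (b (a (l 286923948215) (l 305714429623)) (a (c (l 16777128) (l 16777128)) (l 16774352)))) (a (a (l 104387836679) (l 16774208)) (l 16773968))))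 (a (b (a (a (a (b (l 135526348231) (l 16776904)) (l 16774352)) (l 16774240)) (l 16773992)) (l 16770912)) (l 16773200))) (b (a (a (b (l 90966063511) (l 16776264)) (l 16773624)) (l 16773128)) (l 16772216)))) (b (a (b (a (b (l 4) (a (a (l 345979744135) (b (l 4) (b (l 220888825959) (l 16777152)))) (b (a (l 234847468423) (a (l 157001184807) (l 12582911943))) (l 16774360)))) (b (a (a (l 340074164343) (a (l 318062459799) (b (l 4) (l 16777160)))) (b (a (l 235384339287) (a (l 278870883879) (l 16777144))) (l 16776960))) (l 16775336))) (a (b (l 16775360) (l 16776040)) (l 16773064))) (b (a (l 16774984) (l 16773000)) (l 16769440))) (a (l 16772168) (l 16767552))))), by decide +kernel⟩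

def k31_pm_011_t : ∃ t, chk3 f_pm_011_t t 269 505 1 = true :=
  ⟨(b (a (b (a (b (l 4) (a (l 4) (b (l 4) (l 349200973703)))) (b (a (l 4) (b (l 4) (a (l 4) (l 337389813735)))) (a (b (a (l 4) (l 342221651655)) (a (b (l 340611035623) (a (a (l 196729632279) (l 137673831847)) (l 16777080))) (a (b (l 275112787287) (l 16776912)) (l 16775592)))) (b (a (b (l 333631714071) (a (b (l 215520116839) (l 16777144)) (l 16777056))) (a (b (b (l 328263008071) (l 16777128)) (l 16776888)) (l 16774256))) (l 16773856))))) (b (a (a (b (l 352959067223) (a (a (l 322894298583) (b (l 295513882791) (b (l 16777192) (l 16777056)))) (a (b (a (l 219815084151) (l 165591119335)) (l 16774344)) (l 95797901863)))) (b (a (b (l 347590357191) (a (a (l 215520116839) (l 277260271159)) (l 16777104))) (a (b (a (l 188139699047) (l 154316830119)) (l 16776944)) (l 16775128))) (l 16773912))) (a (l 16773560) (l 16772872))) (a (a (l 16774928) (l 16772936)) (l 16769296)))) (b (a (b (b (a (a (l 4) (b (l 4) (l 322894296295))) (a (b (l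 319673072295) (a (a (l 151095604631) (l 16777128)) (l 16777008))) (a (a (b (l 129083897255) (l 16776880)) (l 16775640)) (l 16774208)))) (a (a (b (l 326652392519) (a (b (l 202098344007) (l 16777120)) (l 16777032))) (a (a (b (l 272428432839) (l 16776904)) (l 60901289847)) (l 16774232))) (l 16773800))) (l 16774464)) (b (l 16774408) (l 16769160))) (a (l 16771200) (l 16767208)))) (a (b (a (l 16771344) (l 16767368)) (l 16765520)) (b (l 16765320) (l 16762800)))), by decide +kernel⟩

def k32_pm_011_t : ∃ t, chk3 f_pm_011_t t 270 1008 1 = true :=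
  ⟨(a (l 4) (b (l 4) (a (b (l 4) (a (l 4) (b (l 4) (a (l 341684779783) (a (a (l 323431169047) (b (l 4) (a (l 288534560455) (l 132305122727)))) (b (l 265449111719) (b (l 16777176) (l 16777016)))))))) (b (a (l 4) (b (l 4) (a (b (l 4) (l 326115521063)) (b (l 322894298407) (b (a (a (l 4) (l 254711693239)) (l 16777120)) (l 16775736)))))) (b (a (a (b (l 4) (l 333094842535)) (b (l 329873617255) (b (a (a (l 4) (l 255785435159)) (l 16777152)) (l 16775760)))) (b (b (a (a (a (l 4) (l 318599331655)) (l 16777136)) (l 16776880)) (l 16775576)) (l 16774016))) (a (a (b (b (a (a (l 4) (l 310546268151)) (l 16777160)) (l 108682804423)) (l 16774216)) (l 16774040)) (l 16773520))))))), by decide +kernel⟩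

def k33_pm_011_t : ∃ t, chk3 f_pm_011_t t 270 1009 1 = true :=
  ⟨(a (b (a (b (l 4) (a (l 4) (b (l 4) (a (l 4) (a (l 332557973703) (b (l 4) (b (l 325578653511) (l 16777128)))))))) (b (a (l 4) (b (l 4) (a (l 4) (b (l 4) (a (l 320209944167) (b (l 152706217463) (l 16777072))))))) (a (b (a (l 4) (a (l 327189264935) (b (l 4) (a (l 161833024183) (l 16777136))))) (a (b (a (l 342221651671) (b (l 197803376711) (l 16777112))) (l 16775640)) (l 16775464))) (b (a (b (b (a (l 4) (l 183844732951)) (a (l 158074926631) (l 16777088))) (l 16774304)) (l 16774120)) (l 16773632))))) (a (b (a (b (a (l 4) (a (l 338463550775) (b (l 4) (b (l 229478760551) (l 16777152))))) (a (b (a (l 269744078999) (b (l 256859177047) (l 16777160))) (l 60364419143)) (l 16776168))) (b (a (b (b (l 352959069927) (a (l 340074168103) (l 16777136))) (l 16775664)) (l 16775488)) (l 16773688))) (l 16774344)) (b (l 16774288) (l 16769032)))) (b (a (b (a (b (a (l 4) (b (l 345442872967) (b (a (l 4) (l 143579411863)) (a (l 154853701015)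 (l 16777048))))) (a (b (b (a (l 4) (l 153779959223)) (a (l 275112787543) (l 16777064))) (l 16774280)) (l 16774096))) (b (a (b (b (c (l 297124494919) (l 297661365879)) (a (a (l 297124495143) (l 16777160)) (l 16777032))) (l 16774248)) (l 16774064)) (l 16773576))) (l 16774232)) (b (l 16774176) (l 16768920))) (a (l 16770936) (l 16766952)))), by decide +kernel⟩

def k34_pm_011_t : ∃ t, chk3 f_pm_011_t t 271 1008 1 = true :=
  ⟨(a (b (a (b (l 4) (a (l 4) (b (l 4) (a (a (l 4) (b (l 4) (b (l 4) (l 174181053911)))) (a (b (l 4) (b (l 158074926567) (l 16777080))) (b (b (l 4) (l 274039045719)) (l 16776984))))))) (b (a (l 4) (b (l 4) (b (b (l 332557975543) (a (l 4) (b (a (l 4) (l 16777200)) (a (l 220888825959) (l 16777136))))) (a (b (l 332021101543) (b (a (l 4) (l 169886089207)) (a (l 243437404263) (l 16777144)))) (c (c (l 92576676487) (l 92576676503)) (l 92039805591)))))) (a (b (a (a (l 4) (b (l 4) (b (l 4) (l 147337508263)))) (b (b (l 336852939543) (b (a (l 4) (l 155390574663)) (a (l 159685535975)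 (l 16777160)))) (a (b (l 141968799127) (l 16777048)) (l 16774336)))) (a (a (b (b (l 165054248343) (l 16777064)) (l 16776816)) (l 16774184)) (l 16773928))) (b (a (a (a (b (b (l 155390574647) (l 16777072)) (l 16776824)) (l 16775592)) (l 16774152)) (l 16773896)) (l 16773408))))) (a (b (a (b (a (b (l 4) (l 319673073127)) (b (l 315914976935) (b (a (a (l 358864650039) (l 16776960)) (l 16777096)) (l 16775704)))) (a (a (b (b (a (l 273502175319) (l 167738605607)) (l 16777120)) (l 16776872)) (l 16775552)) (l 16773984))) (b (a (a (b (b (l 157538057015) (l 16777088)) (l 16776840)) (l 16775520)) (l 16773952)) (l 16773464))) (l 16774128)) (b (l 16774072) (l 16768824)))) (b (a (b (a (b (a (a (l 330947361735) (b (l 4) (b (a (l 4) (l 210688278599)) (l 16777152)))) (b (b (b (l 4) (a (l 4) (l 314841235287))) (a (a (l 4) (l 187065958487)) (l 16777136))) (l 16775672))) (a (b (l 59827549031) (l 16776672)) (l 16773872))) (b (l 63048774935) (l 16773352))) (l 16774024)) (b (l 16773976) (l 16768744))) (a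 (l 16770752) (l 16766808)))), by decide +kernel⟩

def k35_pm_011_t : ∃ t, chk3 f_pm_011_t t 271 1009 1 = true :=
  ⟨(a (b (a (l 16770840) (l 16766864)) (l 16764936)) (b (l 16764888) (l 16767576))), by decide +kernel⟩

def k36_pm_011_t : ∃ t, chk3 f_pm_011_t t 135 505 1 = true :=
  ⟨(a (b (a (b (a (l 16771056) (l 16767064)) (l 16765160)) (b (l 16765032) (l 16767704))) (a (b (l 16767848) (l 16765336)) (b (l 16765168) (l 16762664)))) (b (a (a (l 16761744) (l 16760440)) (b (l 16765040) (l 16762528))) (a (l 16761304) (l 16758792)))), by decide +kernel⟩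

def k37_pm_011_t : ∃ t, chk3 f_pm_011_t t 67 253 1 = true :=
  ⟨(a (b (a (b (a (b (a (a (l 16772008) (l 16768736)) (l 16767752)) (b (l 16766592) (l 16770632))) (b (l 16768376) (l 16763320))) (a (b (l 16763584) (l 16766456)) (l 16759688))) (b (a (b (l 16763048) (l 16765840)) (l 16760400)) (b (l 16756784) (l 16749104)))) (a (b (a (l 16752488) (l 16760176)) (a (l 16758456) (l 16755568))) (b (a (l 16757368) (l 16754560)) (b (l 16746984) (a (l 16751496) (l 16749008)))))) (b (a (b (b (l 16751032) (l 16759056)) (l 16750104)) (b (l 16749880) (l 16750160))) (b (a (a (l 16751768) (b (l 16750280) (l 16747728))) (b (a (l 16747640) (l 16745168)) (l 16739360))) (a (b (a (l 16748248) (l 16745992)) (l 16745432)) (l 16742144))))), by decide +kernel⟩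

def k38_pm_011_t : ∃ t, chk3 f_pm_011_t t 33 127 1 = true :=
  ⟨(b (a (a (b (a (b (a (b (a (b (l 16774712) (l 16769936)) (b (l 16769856) (l 16774232))) (a (l 16768688) (l 16772968))) (b (a (l 16768448) (l 16772672)) (l 16760960))) (a (b (l 16766568) (l 16770216)) (l 16763680))) (b (a (b (l 16760592) (l 16769280)) (l 16762632)) (a (l 16756192) (b (l 16765152) (l 16763336))))) (b (a (b (l 16762360) (a (l 16764480) (l 16759688))) (b (a (l 16761504) (l 16761768)) (l 16761280))) (a (a (b (l 16765608) (l 16763808)) (l 16762336)) (l 16758680)))) (b (a (b (b (l 16759864) (l 16752688)) (b (a (l 16762616) (l 16759856)) (a (l 16755592) (l 16758264)))) (b (a (l 16760008) (b (l 16758152) (l 16756112))) (a (b (l 16757240) (l 16755520)) (l 16753616)))) (a (b (l 16757016) (l 16753584)) (b (l 16751664) (l 16748224))))) (a (b (a (b (b (a (l 16755120) (l 16752408)) (l 16752144)) (l 16749608)) (b (l 16747848) (l 16744544))) (a (l 16744584) (l 16739512))) (b (a (l 16741536) (l 16737480)) (a (l 16734880)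 (l 16730808))))) (a (b (a (b (a (l 16749480) (l 16755120)) (a (l 16756272) (l 16751424))) (a (l 16737696) (l 16742816))) (a (b (a (l 16752448) (b (l 16748568) (l 16746312))) (b (b (a (l 16738888) (l 16743784)) (l 16721712)) (b (l 16717624) (a (l 16739472) (l 16733768))))) (b (b (l 16740760) (a (l 16730456) (b (l 16736536) (l 16734672)))) (b (l 16710928) (b (l 16715232) (l 16724816)))))) (b (a (a (l 16737432) (l 16732352)) (l 16725696)) (b (b (a (l 16730104) (a (l 16722632) (l 16718296))) (a (a (l 16719072) (l 16723784)) (l 16715360))) (b (a (l 16718704) (l 16707024)) (a (b (l 16712768) (l 16712544)) (b (l 16701520) (l 16701920)))))))), by decide +kernel⟩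

def k39_pm_011_t : ∃ t, chk3 f_pm_011_t t 34 124 1 = true :=
  ⟨(a (l 4) (b (l 4) (a (l 4) (b (l 4) (a (l 4) (b (l 4) (a (b (l 4) (a (b (l 4) (a (l 4) (l 302493199607))) (b (a (l 4) (l 298198230887)) (a (b (l 294977006407) (l 16773400)) (l 16773448))))) (b (a (b (l 4) (a (l 4) (l 294440137015))) (b (a (l 4) (a (l 303566937559) (l 285850204551))) (a (b (l 283165848711) (l 16776880)) (l 16771360)))) (a (b (a (b (l 289071427559) (l 16776944)) (l 16774040)) (l 16770672)) (l 16770104)))))))))), by decide +kernel⟩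

def k40_pm_011_t : ∃ t, chk3 f_pm_011_t t 70 248 1 = true :=
  ⟨(a (l 4) (b (l 4) (a (b (l 4) (a (l 4) (b (l 4) (a (l 4) (b (l 4) (l 294440131479)))))) (b (a (l 4) (b (l 4) (a (l 4) (b (l 4) (a (l 300882580839) (b (l 296050747079) (l 16771888))))))) (a (b (a (l 4) (b (l 4) (b (l 4) (l 282628977863)))) (a (b (a (l 4) (l 286387070663)) (a (b (l 149484980551) (l 16776944)) (l 16771448))) (b (a (b (l 148948111207) (l 16776880)) (l 16771384)) (l 16765488)))) (b (a (b (a (l 4) (l 277797141239)) (a (l 37815833815) (l 16766080))) (l 38352705735)) (l 16769760))))))), by decide +kernel⟩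

def k41_pm_011_t : ∃ t, chk3 f_pm_011_t t 70 249 1 = true :=
  ⟨(a (b (a (l 4) (b (l 4) (a (b (l 4) (a (b (l 4) (a (l 298198227959) (b (l 290145168951) (l 16776992)))) (b (b (l 291755783815) (a (l 286923944087) (l 16776928))) (l 16771224)))) (a (b (b (l 4) (a (l 289071430183) (b (l 150558728391) (l 16776864)))) (b (l 16771168) (l 16775456))) (b (b (a (l 284776461511) (b (l 149484982855) (l 16771560))) (l 16771104)) (l 16764440)))))) (b (a (a (b (l 4) (a (b (l 4) (a (l 4) (b (l 4) (a (l 152169336567) (l 16771888))))) (b (a (l 4) (b (l 307861905367) (l 152169343159))) (a (b (l 152169342327) (l 16771512)) (l 16771232))))) (b (a (b (l 4) (a (l 306251289143) (b (l 301956326567) (l 44795157191)))) (b (a (l 301956323095) (b (l 296050747767) (l 16773120))) (a (l 44258286887) (l 16765856)))) (a (b (a (b (a (l 152169338999) (l 16777040)) (l 16776688)) (l 16771168)) (l 16775680)) (l 16769888)))) (a (b (a (l 42647674839) (l 16764544)) (l 16763112)) (l 16767312))) (a (a (b (a (b (a (b (a (l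 152169335799) (l 16773232)) (l 16776816)) (l 16771296)) (l 16770560)) (l 16770000)) (l 16768512)) (l 16767432)) (l 16764400)))) (b (a (b (a (b (a (l 4) (b (l 4) (l 301419448119))) (a (b (l 304640672279) (a (b (l 308935647191) (l 148948112727)) (l 39963318231))) (b (a (b (l 299808842951) (l 16772552)) (l 16772952)) (l 16765736)))) (b (a (b (l 297661358279) (a (b (l 293366393271) (l 16771832)) (l 16776816))) (b (a (b (l 150021849879) (l 16777008)) (l 16776752)) (l 16765608))) (l 16769968))) (a (b (a (l 16770576) (l 16764344)) (l 16762952)) (l 16767192))) (b (a (b (l 16769864) (l 16762808)) (l 16767088)) (l 16764376))) (a (b (l 16764384) (l 16755288)) (b (l 16755416) (l 16762112))))), by decide +kernel⟩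

def k42_pm_011_t : ∃ t, chk3 f_pm_011_t t 71 124 1 = true :=
  ⟨(b (a (b (a (b (l 4) (a (l 4) (b (l 4) (a (l 4) (b (l 4) (a (l 283165845943) (l 37815833591))))))) (b (a (l 4) (b (l 4) (a (b (l 4) (l 293903257399)) (b (l 290682033271) (b (l 148948117191) (l 16776824)))))) (a (b (a (l 303566923751) (b (l 297124481527) (a (l 274575913927) (l 16771696)))) (a (b (a (l 278870879943) (l 16771760)) (l 16765920)) (l 16765448))) (b (a (b (a (l 270817819495) (l 16776872)) (l 16765800)) (l 16765336)) (l 16764136))))) (a (b (a (b (a (l 4) (b (l 4) (a (l 291755777943) (b (l 149484980343) (l 16777008))))) (a (b (a (l 296050743927) (b (l 289608297415) (l 16777072))) (l 16771416)) (l 771739367))) (b (a (b (a (l 287460811943) (b (l 148948111047) (l 16776936))) (l 16771288)) (l 16770808)) (l 16764320))) (a (l 16768792) (l 16761744))) (b (a (l 16768632) (l 16761656)) (l 16759136)))) (b (a (b (a (b (a (b (l 4) (l 287460809127)) (b (l 284239590247) (l 37278962647))) (a (b (a (b (l 149484982151) (l 16776976))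 (l 16766256)) (l 16765680)) (l 16765224))) (b (a (l 16772496) (l 16765112)) (l 16763960))) (a (l 16768480) (l 16761576))) (b (l 16770160) (l 16759160))) (a (b (l 16759152) (l 16755824)) (b (l 16755968) (l 16763192))))) (a (b (a (b (l 16764368) (l 16755544)) (b (l 16755680) (l 16762648))) (b (a (l 16762376) (l 16759048)) (l 16746504))) (a (b (l 16755960) (l 16754136)) (b (l 16758168) (l 16751224))))), by decide +kernel⟩

def k43_pm_011_t : ∃ t, chk3 f_pm_011_t t 68 250 1 = true :=
  ⟨(a (l 4) (b (l 4) (b (l 4) (a (l 4) (a (b (l 4) (a (l 4) (b (l 4) (a (l 4) (b (l 4) (a (l 4) (b (l 4) (l 215520114599)))))))) (b (a (l 4) (b (l 4) (b (l 4) (a (l 4) (a (l 309472520919) (b (a (l 4) (l 152169341815)) (l 16777104))))))) (a (b (a (l 4) (b (l 4) (a (l 318062454439) (b (a (l 4) (l 152706211031)) (l 48553257095))))) (a (b (a (l 4) (b (l 322894294631) (l 208540790567))) (a (b (l 212298889383) (l 16771696)) (l 16771536))) (b (a (b (a (l 151095600967) (l 16777112)) (l 16776904)) (l 16771504)) (l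 16776320)))) (b (a (b (a (l 313767487671) (b (a (l 4) (l 152706211959)) (l 16774512))) (l 52848224407)) (l 54995708439)) (l 16770448))))))))), by decide +kernel⟩

def k44_pm_011_t : ∃ t, chk3 f_pm_011_t t 138 500 1 = true :=
  ⟨(a (l 4) (b (l 4) (a (b (l 4) (b (l 4) (a (l 4) (a (b (l 4) (l 299808844007)) (b (l 296587621719) (a (b (l 151095599463) (l 16777008)) (l 16776856))))))) (b (a (l 4) (b (l 4) (a (b (l 4) (l 287460817895)) (b (a (l 306788166359) (b (l 151632468039) (l 16777120))) (l 16776864))))) (a (b (a (b (l 4) (l 293903267719)) (b (l 290682042807) (l 16773976))) (a (b (l 50163868439) (l 16776424)) (l 16770872))) (b (l 16774048) (l 16775256))))))), by decide +kernel⟩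

def k45_pm_011_t : ∃ t, chk3 f_pm_011_t t 138 501 1 = true :=
  ⟨(a (b (a (b (l 4) (a (l 4) (b (l 4) (a (l 4) (b (l 4) (a (l 292829524791) (b (l 151095599639) (l 16776984)))))))) (b (a (l 4) (b (l 4) (a (b (l 4) (l 312693743655)) (b (l 309472518743) (a (b (l 152706209175) (l 16777128)) (l 16776984)))))) (a (b (a (l 4) (b (l 315914968567) (a (b (l 153243078583) (l 151095600855)) (l 50163869607)))) (a (b (a (b (l 4) (l 150558728983)) (l 89355445255)) (l 16771432)) (l 16771120))) (b (a (b (a (b (l 153243079367) (l 16774536)) (l 16774392)) (l 16771368)) (l 16771056)) (l 16770232))))) (a (b (a (b (a (l 4) (b (l 4) (a (l 300882587383) (b (a (l 153779952919) (l 16774256)) (l 16777040))))) (a (b (a (l 305177554151) (b (a (l 4) (l 151632471607)) (l 16777072))) (l 16774176)) (l 16773864))) (b (a (b (a (l 296587620631) (b (l 151095598775) (l 16777016))) (l 16774112)) (l 16773800)) (l 16770336))) (l 16771832)) (b (l 16771744) (l 16766840)))) (b (a (b (a (b (a (b (l 4) (l 306251293831)) (b (l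 303030068919) (a (b (l 151632468775) (l 16777072)) (l 16776920)))) (a (b (a (b (l 152169339143) (l 16777104)) (l 16776952)) (l 16771304)) (l 16770992))) (b (a (b (a (b (l 151095598423) (l 16777040)) (l 16776888)) (l 16776488)) (l 16770936)) (l 16770120))) (l 16771656)) (b (l 16768944) (l 16761488))) (a (l 16765656) (l 16758136)))), by decide +kernel⟩

def k46_pm_011_t : ∃ t, chk3 f_pm_011_t t 139 250 1 = true :=
  ⟨(b (a (b (a (b (l 4) (a (l 4) (b (l 4) (a (a (l 301956325559) (b (l 4) (l 46942642519))) (b (a (b (l 4) (l 16774104)) (l 16773176)) (l 16771496)))))) (b (a (b (l 4) (a (l 4) (l 311083126551))) (b (a (l 4) (l 306788160455)) (a (b (l 307325035031) (a (l 151632472711) (l 16777016))) (b (a (l 151632468359) (l 16776984)) (l 16776608))))) (a (b (a (a (l 297124493767) (b (l 316451841639) (l 16774456))) (b (a (b (l 152169337783) (l 16777184)) (l 16777048)) (l 16771432))) (l 16770912)) (l 16770328)))) (a (b (a (b (a (b (l 4) (a (l 302493199639) (l 151095603143))) (b (a (l 298198232903)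 (b (l 152169340743) (l 16777056))) (l 16776800))) (l 16773656)) (b (l 16770976) (l 16775152))) (l 16768856)) (l 16769664))) (b (a (b (a (b (a (b (l 300882585255) (a (l 151632469095) (l 16776952))) (b (l 48016383655) (l 16776544))) (l 16770792)) (l 16770216)) (l 16768680)) (l 16767560)) (a (l 16765520) (l 16758144)))) (a (b (a (l 16765584) (l 16758144)) (l 16754824)) (b (l 16754936) (l 16750592)))), by decide +kernel⟩

def k47_pm_011_t : ∃ t, chk3 f_pm_011_t t 136 502 1 = true :=
  ⟨(a (l 4) (b (l 4) (a (l 4) (b (l 4) (a (b (l 4) (a (b (l 4) (a (l 318599331159) (b (l 311083135671) (a (l 150021862487) (l 16777056))))) (b (a (l 314304364343) (b (a (l 4) (a (l 153779953799) (l 151632471927))) (a (a (l 150021860567) (l 16777136)) (l 16777024)))) (a (a (a (b (l 150021860167) (l 16776936)) (l 16775688)) (l 16774264)) (l 16774016))))) (b (a (b (l 4) (a (a (l 4) (l 306251299719)) (b (a (l 4) (a (l 152706212775) (l 150558730823))) (l 103850965927)))) (b (a (a (l 326115518903) (l 300882591079))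 (b (a (a (l 4) (l 154316824471)) (c (l 150558734983) (l 150558734967))) (l 16777032))) (l 56606322551))) (a (a (b (b (l 52848225863) (l 16776776)) (l 16776312)) (l 16773680)) (l 16773192)))))))), by decide +kernel⟩

def k48_pm_011_t : ∃ t, chk3 f_pm_011_t t 272 1006 1 = true :=
  ⟨(a (l 4) (b (l 4) (a (b (l 4) (a (b (l 4) (a (l 4) (a (l 4) (b (l 4) (b (l 4) (l 158074926503)))))) (b (b (l 4) (b (l 327189260839) (a (l 4) (l 290682044007)))) (a (b (b (a (l 4) (a (l 4) (l 155390569207))) (a (a (l 4) (l 158611794487)) (l 127473284535))) (a (b (l 145726895527) (l 16777056)) (l 16774352))) (b (c (l 54995710087) (l 54995710087)) (l 16776720)))))) (b (a (b (l 4) (a (l 4) (a (l 322894294055) (a (l 307325042023) (b (l 4) (a (l 150021863735) (l 16777168))))))) (b (a (l 4) (a (l 317525588007) (b (l 4) (b (l 152169343607) (l 16777128))))) (a (b (a (l 248806110791) (b (l 152706214135) (l 16777144))) (l 16775680)) (l 16775504)))) (a (b (a (b (a (l 301956333655) (a (b (l 4) (l 16777176)) (l 149484992231)))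 (l 92039805927)) (l 16775536)) (l 16773760)) (l 16773408)))))), by decide +kernel⟩

def k49_pm_011_t : ∃ t, chk3 f_pm_011_t t 272 1007 1 = true :=
  ⟨(a (b (a (b (l 4) (a (b (l 4) (a (l 4) (b (l 4) (l 327189262199)))) (b (a (l 4) (b (l 4) (l 320746811687))) (a (b (l 323968036951) (b (a (a (l 4) (l 344906006407)) (c (l 16777160) (l 16777160))) (l 104387837127))) (a (b (b (a (l 4) (l 199950860375)) (l 16777160)) (l 16776920)) (l 16775600)))))) (b (a (b (l 4) (a (l 4) (b (l 4) (l 314304363799)))) (b (a (l 4) (b (l 4) (l 307325042375))) (a (b (l 311083138551) (b (a (a (l 311620010023) (l 148948123703)) (l 16777112)) (l 16775720))) (a (b (b (l 151095606103) (l 16777104)) (l 16776864)) (l 16774232))))) (a (b (a (b (l 317525589047) (b (a (a (l 4) (l 313230622535)) (l 16777136)) (l 16775752))) (a (b (b (a (l 159148665303) (l 184918474791)) (l 16777128)) (l 16776896)) (l 16775576))) (l 16773872)) (l 16774832)))) (a (b (a (b (a (b (l 330947358375) (b (b (a (l 4) (l 185455345671)) (a (l 155390568855)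 (l 16777160))) (a (a (l 184381603879) (l 16777160)) (l 16777040)))) (b (b (b (a (l 4) (l 268670336679)) (a (l 297124495399) (l 16777144))) (b (a (l 137136963655) (l 16777064)) (l 16777072))) (l 16774248))) (l 16775240)) (l 16774888)) (l 16772608)) (b (l 16772560) (l 16773880)))) (b (a (b (a (b (a (b (a (l 4) (l 312693751447)) (a (a (l 149484993703) (l 16777120)) (l 16777000))) (a (b (b (l 149484992663) (l 16777072)) (l 16776832)) (l 16774208))) (l 16773816)) (l 16773464)) (l 16772512)) (l 16772480)) (b (l 16770560) (l 16766640)))), by decide +kernel⟩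

def k50_pm_011_t : ∃ t, chk3 f_pm_011_t t 273 503 1 = true :=
  ⟨(b (a (b (a (b (l 4) (a (b (l 4) (a (l 4) (a (l 312156879335) (b (l 4) (a (l 150021863255) (l 16777128)))))) (b (a (l 4) (a (l 306788170679) (b (l 4) (l 125862673783)))) (a (b (b (a (l 4) (l 166664863767)) (a (l 150558731783) (l 16777088))) (l 16774312)) (l 16774136))))) (b (a (b (l 4) (a (l 330947355943) (a (l 301956332935) (b (b (l 4) (l 154316826023)) (l 16777112))))) (b (a (l 323431163655) (b (l 317525586135) (a (b (l 153243084711) (l 16777160)) (l 16777080)))) (a (a (b (b (l 153779955223) (l 16777176)) (l 16776952)) (l 16775632)) (l 16774080)))) (a (b (a (a (b (b (l 158074921815) (l 143579414519)) (l 16774360)) (l 55532580871)) (l 16774112)) (l 16773648)) (l 16773304)))) (a (b (a (b (a (b (b (l 332021104391) (a (l 152169343895) (l 16777112))) (l 16774336)) (l 16774168)) (l 16773704)) (l 16773360)) (l 16772416)) (l 16771744))) (b (a (b (a (b (a (a (a (b (l 151095606599) (l 16776960)) (l 53921967927)) (l 16774288))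 (l 16774048)) (l 16773592)) (l 16773248)) (l 16769704)) (l 16771656)) (l 16769800))) (a (b (l 16769856) (l 16764672)) (a (l 16764008) (l 16762736)))), by decide +kernel⟩

def k51_pm_011_t : ∃ t, chk3 f_pm_011_t t 274 502 1 = true :=
  ⟨(b (a (b (l 4) (a (l 4) (b (l 4) (a (l 4) (b (l 4) (l 327189257175)))))) (b (a (l 4) (b (l 4) (a (l 4) (b (l 4) (a (l 4) (l 306251296039)))))) (a (b (a (l 4) (b (l 4) (a (l 4) (l 314841229607)))) (a (b (l 320746811991) (a (b (l 320209940263) (a (l 151095605847) (l 16777112))) (b (a (l 150558729927) (l 16777096)) (l 16776880)))) (b (a (b (a (l 4) (l 153243081943)) (a (l 150558730343) (l 16777088))) (b (a (l 150021859847) (l 16777072)) (l 16776848))) (l 16773936)))) (b (a (b (a (l 4) (l 310546262823)) (a (b (a (l 4) (l 152169340775)) (l 50700741399)) (l 53385096215))) (b (a (b (a (l 4) (l 151632470695)) (l 16774472)) (l 16774312)) (l 16771256))) (l 16773296))))) (a (b (a (b (l 4) (a (b (l 4) (a (a (l 320746810279) (b (l 4) (l 150558735383))) (b (a (a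 (l 4) (l 153243083463)) (l 150021864871)) (l 16777008)))) (b (a (a (l 315378101639) (b (l 4) (l 150021865271))) (b (a (a (l 154316824231) (l 152169342327)) (l 48553257959)) (l 16776976))) (l 16774056)))) (b (a (b (l 4) (b (a (l 4) (l 214983244663)) (a (l 218204469895) (l 16776944)))) (b (a (b (l 4) (l 211762018135)) (b (l 207467051031) (l 16774296))) (l 16774000))) (a (l 16773720) (l 16770464)))) (a (b (l 57680063719) (l 16769608)) (l 16771576))) (b (a (b (l 16773352) (l 16769520)) (l 16768864)) (l 16767064)))), by decide +kernel⟩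

def k52_pm_011_t : ∃ t, chk3 f_pm_011_t t 275 502 1 = true :=
  ⟨(b (a (b (a (b (a (l 4) (b (l 4) (b (l 4) (l 298198235879)))) (a (b (a (l 4) (l 301956331879)) (a (b (a (l 4) (l 151095600455)) (l 16777064)) (l 16774280))) (b (a (b (a (l 153243081559) (l 150558730375)) (l 16777032)) (l 16774248)) (l 16771192)))) (b (a (b (a (l 4) (l 293366398311)) (a (b (a (l 152706211335) (l 16774544)) (l 16777000)) (l 16774216))) (b (a (b (l 219278210727) (l 16776968)) (l 16771568)) (l 16776376))) (l 16773184))) (a (l 16772640) (l 16768784))) (b (a (l 16772536) (l 16768696)) (l 16766952))) (a (a (l 16766416) (l 16765192)) (l 16763384))), by decide +kernel⟩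

def k53_pm_011_t : ∃ t, chk3 f_pm_011_t t 137 503 1 = true :=
  ⟨(b (a (a (a (l 16769136) (l 16765248)) (l 16763384)) (l 16759736)) (a (b (l 16755640) (l 16763600)) (b (l 16761288) (l 16758792)))), by decide +kernel⟩

def k54_pm_011_t : ∃ t, chk3 f_pm_011_t t 69 251 1 = true :=
  ⟨(b (a (a (b (a (l 16767040) (l 16763384)) (l 16759848)) (b (l 16759960) (l 16755320))) (a (b (l 16750336) (l 16756248)) (l 16749160))) (a (b (a (l 16755064) (l 16755840)) (a (l 16755424) (l 16751032))) (b (l 16739064) (l 16734352)))), by decide +kernel⟩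

def k55_pm_011_t : ∃ t, chk3 f_pm_011_t t 35 125 1 = true :=
  ⟨(b (a (a (b (a (b (b (l 16765440) (l 16758152)) (l 16755048)) (b (l 16755168) (l 16761584))) (a (b (l 16750848) (l 16757048)) (l 16744856))) (b (a (b (l 16761848) (l 16757848)) (l 16745800)) (a (l 16751696) (l 16748256)))) (a (b (a (l 16752920) (l 16749752)) (l 16732984)) (b (l 16734888) (l 16737792)))) (a (b (a (b (l 16740296) (l 16746376)) (l 16731064)) (a (b (l 16741880) (l 16737304)) (b (a (l 16736680) (l 16733312)) (a (b (l 16733264) (l 16731240)) (l 16729608))))) (b (a (a (l 16736808) (b (l 16735952) (l 16731720))) (b (a (l 16733120) (l 16730640)) (a (l 16729432) (l 16726984)))) (a (b (a (b (l 16731464) (l 16729704)) (l 16728168)) (l 16725664)) (l 16722688))))), by decide +kernel⟩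

def k56_pm_011_t : ∃ t, chk3 f_pm_011_t t 17 126 1 = true :=
  ⟨(a (a (b (a (b (a (b (a (b (b (l 16770648) (l 16766736)) (l 16764824)) (b (l 16764720) (l 16767432))) (a (l 16761024) (l 16758464))) (b (a (l 16760856) (l 16763560)) (b (l 16761104) (l 16758664)))) (a (b (b (l 16756016) (l 16758816)) (l 16755136)) (b (l 16755048) (l 16750248)))) (b (b (a (b (l 16761088) (l 16758616)) (l 16755096)) (a (l 16754976) (l 16750288))) (b (l 16737376) (a (l 16745480) (b (l 16742080) (l 16739672)))))) (b (a (b (a (l 16750248) (l 16745352)) (a (b (l 16746536) (a (l 16745144) (l 16743056))) (b (a (l 16742904) (l 16741032)) (l 16740408)))) (b (a (b (l 16741832) (l 16740000)) (l 16737472)) (l 16736040))) (a (b (a (l 16741800) (l 16738144)) (l 16736872)) (l 16731712)))) (b (b (a (a (l 16740296) (l 16733384)) (b (l 16740128) (a (l 16737360) (b (l 16734688) (l 16732968))))) (a (b (a (l 16741168) (b (l 16738104) (l 16735976))) (a (b (l 16737728) (l 16736216)) (l 16733792))) (b (a (b (l 16734400) (l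 16732768)) (l 16730560)) (l 16729184)))) (b (a (l 16720600) (l 16725080)) (a (l 16725368) (l 16719328))))) (b (a (b (a (b (a (b (l 16735640) (l 16733336)) (b (l 16732192) (l 16730488))) (l 16729592)) (l 16725712)) (a (l 16724912) (l 16719552))) (b (a (l 16720552) (l 16715808)) (l 16712088))) (a (b (l 16706168) (l 16710864)) (b (l 16706480) (l 16700624))))), by decide +kernel⟩

def k57_pm_011_t : ∃ t, chk3 f_pm_011_t t 17 127 1 = true :=
  ⟨(a (b (a (b (a (l 16732192) (l 16725504)) (a (l 16725504) (l 16718792))) (b (l 16716064) (l 16709320))) (b (b (a (l 16716752) (l 16703936)) (a (a (l 16716424) (l 16709120)) (b (l 16701144) (a (l 16701416) (l 16694440))))) (a (b (a (b (l 16701864) (l 16705240)) (l 16679512)) (b (l 16692520) (a (l 16692880) (l 16684512)))) (b (l 16665872) (b (l 16674664) (l 16672864)))))) (b (a (b (l 16704560) (l 16697768)) (l 16690920)) (b (b (a (l 16692352) (b (l 16682920) (l 16680048))) (a (b (l 16677792) (l 16682504)) (l 16671576))) (b (a (l 16670392) (l 16655256))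 (b (a (l 16658712) (l 16644424)) (l 16651640)))))), by decide +kernel⟩

def k58_pm_011_t : ∃ t, chk3 f_pm_011_t t 18 60 1 = true :=
  ⟨(a (l 4) (b (l 4) (a (l 4) (b (l 4) (a (b (l 4) (a (l 4) (b (l 297124455703) (a (l 261691004903) (l 16776472))))) (b (a (l 274038992631) (b (l 268133438743) (l 16760656))) (b (a (l 61974994823) (l 16774328)) (l 16752480)))))))), by decide +kernel⟩

def k59_pm_011_t : ∃ t, chk3 f_pm_011_t t 36 122 1 = true :=
  ⟨(a (l 4) (b (l 4) (a (b (l 4) (a (l 4) (b (l 4) (a (l 4) (b (l 4) (l 282092089911)))))) (b (a (l 4) (b (l 4) (a (l 4) (b (l 4) (l 268133457591))))) (a (b (a (l 4) (b (l 4) (l 275112773799))) (a (b (l 278870867319) (l 46942628967)) (l 16767712))) (b (a (b (l 271891551159) (l 16766184)) (l 16765528)) (l 16753448))))))), by decide +kernel⟩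

def k60_pm_011_t : ∃ t, chk3 f_pm_011_t t 36 123 1 = true :=
  ⟨(a (b (a (l 4) (b (l 4) (a (b (l 4) (a (b (l 4) (a (l 4) (b (l 4) (l 261691011623)))) (b (a (l 290682025303) (b (l 286923936807) (l 16769272))) (l 41037054183)))) (b (a (b (l 4) (a (l 286387060839) (b (l 280481488615) (l 16777000)))) (b (a (l 282092096375) (b (l 274575911335) (l 16776880))) (l 16776272))) (a (l 16770496) (l 16763872)))))) (a (b (a (b (l 4) (a (b (l 4) (a (l 4) (l 291218896775))) (b (a (l 4) (l 286923932279)) (a (b (l 286387066775) (l 38889573559)) (l 16771376))))) (b (a (b (l 4) (a (l 4) (l 282628973015))) (b (a (l 4) (l 278334008471)) (a (b (l 274039041223) (l 16776784)) (l 16776376)))) (a (b (a (b (l 280481489463) (l 16771664)) (l 16776496)) (l 16764984)) (l 16764192)))) (a (b (a (b (a (b (l 292829514983) (a (l 147874365655) (l 16776976))) (b (a (l 147874367303) (l 16776912)) (l 16765896))) (l 16765192)) (a (l 16764752) (l 16763984))) (l 16767432)) (b (l 16767344) (l 16759200)))) (b (a (b (a (b (a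 (b (l 268133463863) (l 16776656)) (l 16776264)) (l 16764792)) (l 16764024)) (l 16762016)) (b (l 16761944) (l 16748776))) (a (a (l 16758504) (l 16757120)) (l 16760360))))) (b (a (b (a (b (a (l 4) (l 300882553639)) (a (b (l 4) (a (l 277260260951) (l 43721405943))) (b (a (l 272965296439) (l 16766456)) (l 16776056)))) (b (a (b (l 285313312455) (a (l 268670331895) (l 16776816))) (b (a (l 264375367319) (l 16776696)) (l 16775848))) (l 16764224))) (a (b (l 16769632) (l 16761872)) (b (l 16751320) (l 16748848)))) (b (a (l 16762920) (l 16760560)) (a (l 16758160) (l 16745392)))) (a (b (a (l 16763224) (l 16755504)) (l 16751368)) (b (l 16741568) (l 16736384))))), by decide +kernel⟩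

def k61_pm_011_t : ∃ t, chk3 f_pm_011_t t 37 61 1 = true :=
  ⟨(b (a (b (a (b (l 4) (a (l 4) (b (l 4) (a (l 299271945111) (b (l 278870864583) (l 16766552)))))) (b (a (l 4) (b (l 4) (a (l 272428411543) (l 56606291559)))) (a (b (a (l 277797114695) (b (l 271891548535) (l 16776824))) (l 16765472)) (l 16764240)))) (a (b (a (b (a (l 4) (b (l 4) (l 261154141287))) (a (b (l 264912234903) (l 16776440)) (l 16775816))) (a (b (l 52848202535) (l 16774704)) (l 16753664))) (a (l 16762736) (l 16750080))) (b (a (l 16752088) (l 16750024)) (l 16757520)))) (b (a (b (a (b (a (l 267059708279) (l 16761000)) (l 16775376)) (l 16753056)) (l 16766000)) (a (l 16759040) (l 16745984))) (a (b (l 16746464) (l 16742840)) (l 16739504)))) (a (a (b (b (l 16765136) (l 16742208)) (a (l 16735912) (l 16734000))) (b (l 16756344) (l 16731344))) (b (a (l 16737136) (l 16732400)) (a (l 16728168) (l 16725368))))), by decide +kernel⟩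

def k62_pm_011_t : ∃ t, chk3 f_pm_011_t t 19 30 1 = true :=
  ⟨(b (a (b (a (l 4) (b (a (l 4) (b (l 4) (l 292829474183))) (a (b (l 298198170215) (a (l 253637934903) (l 16754328))) (b (b (l 126936349671) (l 16753736)) (l 16771048))))) (a (b (a (b (l 4) (a (l 267596558375) (b (l 259006645079) (l 16775768)))) (b (a (l 260617250119) (l 72175533607)) (l 16762400))) (a (a (b (l 16754016) (l 16770648)) (l 16749192)) (l 16745056))) (a (b (l 16759104) (l 16739320)) (b (l 16742736) (l 16754344))))) (b (a (b (a (b (l 255248522983) (l 83986689479)) (a (l 16752040) (l 16749080))) (a (l 16767512) (l 16740376))) (b (l 16741072) (l 16730792))) (a (a (l 16731888) (l 16725688)) (l 16716080)))) (a (b (a (b (a (l 16741984) (l 16736384)) (a (l 16755016) (l 16728288))) (b (l 16727536) (l 16719216))) (b (a (l 16723784) (l 16711416)) (a (l 16717280) (l 16726424)))) (b (a (l 16710792) (l 16697696)) (a (b (l 16698920) (l 16716208)) (l 16708560))))), by decide +kernel⟩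

def k63_pm_011_t : ∃ t, chk3 f_pm_011_t t 9 62 1 = true :=
  ⟨(a (b (a (a (b (a (b (a (a (l 16758400) (l 16762136)) (a (l 16755440) (l 16754016))) (a (l 16751360) (l 16759024))) (b (a (l 16751968) (l 16759864)) (l 16744624))) (a (b (a (l 16755304) (l 16752600)) (l 16736688)) (b (l 16727872) (l 16742328)))) (b (a (b (l 16735280) (l 16750432)) (a (l 16729192) (l 16727224))) (a (b (l 16744376) (l 16738088)) (b (l 16740480) (b (l 16735952) (l 16732680)))))) (a (a (b (l 16724496) (b (l 16737088) (l 16720344))) (b (l 16721264) (b (l 16712824) (l 16727016)))) (a (b (l 16718144) (l 16705984)) (b (l 16725848) (l 16722800))))) (a (b (a (b (a (l 16740136) (a (l 16736632) (l 16734328))) (a (b (l 16734672) (a (l 16731960) (l 16729872))) (b (a (l 16731200) (l 16729288)) (l 16726616)))) (b (a (b (l 16733056) (l 16729784)) (l 16706688)) (l 16711616))) (a (b (a (b (l 16727424) (l 16723616)) (l 16721072)) (l 16705488)) (b (l 16714744) (l 16707448)))) (b (a (l 16707192) (l 16709664)) (a (l 16681744)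 (l 16694664))))) (b (a (a (b (a (l 16712536) (l 16730192)) (l 16695784)) (l 16716184)) (l 16692400)) (a (b (l 16676512) (l 16661472)) (b (l 16679904) (l 16664816))))), by decide +kernel⟩

def k64_pm_011_t : ∃ t, chk3 f_pm_011_t t 9 63 1 = true :=
  ⟨(b (a (a (b (a (b (l 16709064) (l 16702944)) (l 16697344)) (a (l 16673296) (l 16685584))) (b (a (l 16689096) (l 16680976)) (l 16652168))) (a (b (l 16668664) (l 16656544)) (l 16623864))) (a (a (b (a (l 16681592) (b (l 16676200) (l 16668328))) (b (b (a (b (l 16672744) (l 16668864)) (l 16659344)) (l 16629248)) (b (a (l 16641200) (l 16627784)) (a (l 16632816) (l 16621056))))) (b (b (l 16663648) (a (l 16637912) (l 16628784))) (b (l 16589888) (b (a (l 16614608) (l 16601944)) (l 16604688))))) (b (b (a (l 16646912) (l 16626720)) (a (a (l 16619264) (l 16629624)) (l 16610584))) (b (a (l 16606176) (l 16579584)) (a (b (l 16583648) (l 16582664)) (l 16560416)))))), by decide +kernel⟩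

def k65_pm_011_t : ∃ t, chk3 f_pm_011_t t 5 14 1 = true :=
  ⟨(a (b (a (l 4) (b (l 4) (a (b (l 4) (a (l 4) (b (l 4) (l 16702184)))) (b (a (l 277797022439) (l 78617875447)) (a (l 64659282503) (l 16734640)))))) (a (b (a (l 4) (b (a (l 4) (b (l 4) (l 274038973671))) (a (b (l 289071332583) (b (l 139821196679) (l 16731512))) (b (l 84523519015) (l 16741688))))) (a (b (a (b (l 4) (a (l 295513801399) (l 108682692343))) (b (a (l 280481442199) (l 16733080)) (l 16746976))) (a (b (a (l 102777158535) (l 16746176)) (l 16738488)) (l 16730168))) (b (a (l 16759680) (l 16724176)) (l 16687552)))) (b (a (b (a (a (l 90429030487) (l 16730376)) (l 16762200)) (l 16704176)) (b (l 16718112) (l 16693816))) (a (b (l 16701456) (l 16698944)) (b (l 16690648) (l 16666664)))))) (b (a (b (a (b (l 276186370967) (a (l 131231182007) (l 16750024))) (b (a (l 16723256) (l 16764472)) (l 16748344))) (a (b (l 16713928) (l 16710480)) (l 16668720))) (b (a (l 16685280) (l 16671896)) (a (l 16655568) (l 16641632)))) (b (a (a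 (l 16652296) (l 16639440)) (a (l 16625568) (l 16569168))) (a (b (a (l 16657408) (l 16622912)) (a (l 16633232) (l 16603632))) (b (a (l 16589288) (l 16562184)) (l 16571000)))))), by decide +kernel⟩

def k66_pm_011_t : ∃ t, chk3 f_pm_011_t t 5 15 1 = true :=
  ⟨(b (a (a (b (a (b (a (l 16722488) (l 16729344)) (a (l 16723424) (l 16709128))) (b (l 16686320) (l 16666328))) (a (b (a (l 16684728) (l 16693320)) (l 16696064)) (b (l 16656912) (l 16679568)))) (b (b (a (l 16676176) (l 16624680)) (a (l 16660808) (l 16639112))) (b (l 16629656) (l 16653904)))) (a (b (a (b (l 16620160) (l 16620568)) (l 16600656)) (l 16616352)) (b (l 16572344) (l 16579176)))) (b (a (b (a (a (l 16684656) (l 16667176)) (l 16642288)) (a (b (l 16631952) (l 16616816)) (l 16610984))) (b (a (l 16610816) (l 16580936)) (a (l 16579720) (l 16550144)))) (a (b (b (a (l 16623760) (l 16589976)) (a (a (l 16620048) (l 16600992)) (b (l 16580392) (l 16548248)))) (b (a (a (b (l 16606536) (l 16582480)) (l 16551544)) (l 16514304)) (a (b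 (l 16540040) (l 16505328)) (l 16467680)))) (b (a (b (l 16558552) (l 16536968)) (b (l 16525720) (l 16499608))) (b (a (l 16488040) (l 16445272)) (a (l 16447872) (l 16410736))))))), by decide +kernel⟩

def k67_pm_011_t : ∃ t, chk3 f_pm_011_t t 3 1 1 = true :=
  ⟨(a (a (b (l 4) (b (b (b (l 4) (a (l 4) (b (l 4) (a (l 4) (l 108145712727))))) (b (a (b (l 4) (a (l 126399239159) (l 89355287351))) (b (a (l 99555803639) (l 16751544)) (a (l 16738952) (l 16704408)))) (a (b (a (b (l 16758088) (l 16746688)) (l 16703464)) (a (l 16687976) (l 16674040))) (b (l 16630256) (l 16579424))))) (b (b (a (b (a (l 16657936) (l 16622616)) (a (l 16606136) (l 16570256))) (b (l 16548336) (a (l 16534232) (b (l 16511664) (l 16489896))))) (b (a (a (b (l 16566952) (l 16546064)) (b (l 16532136) (l 16521904))) (a (l 16504640) (l 16483552))) (a (l 16531072) (l 16493280)))) (b (a (b (l 16534328) (l 16541264)) (b (l 16496312) (l 16503160))) (b (b (l 16527280) (l 16487232)) (b (a (b (l 16495104) (l 6)) (l 6)) (l 6)))))))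 (b (l 1) (b (b (b (l 1) (a (b (l 1) (a (l 16762224) (l 1))) (l 1))) (b (a (b (l 16701128) (l 16631776)) (l 16504632)) (a (b (l 16602864) (l 16551480)) (b (l 16535080) (l 16483200))))) (b (b (a (b (l 16435704) (b (l 16402664) (l 16457816))) (b (a (l 16449472) (l 16423848)) (l 16422072))) (a (b (l 16456080) (l 16456152)) (l 16397752))) (b (a (l 16461704) (l 6)) (l 6)))))) (b (l 1) (b (b (l 1) (b (l 1) (a (a (b (l 1) (l 154651510199)) (l 1)) (l 1)))) (b (a (b (a (b (l 16395112) (l 16389056)) (l 16359904)) (a (l 16384560) (l 6))) (l 6)) (l 6))))), by decide +kernel⟩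

theorem s68_pm_011_t : ∃ t, chk3 f_pm_011_t t 5 7 1 = true := ex3_b k65_pm_011_t k66_pm_011_t

theorem s69_pm_011_t : ∃ t, chk3 f_pm_011_t t 9 31 1 = true := ex3_b k63_pm_011_t k64_pm_011_t

theorem s70_pm_011_t : ∃ t, chk3 f_pm_011_t t 36 61 1 = true := ex3_b k59_pm_011_t k60_pm_011_t

theorem s71_pm_011_t : ∃ t, chk3 f_pm_011_t t 18 61 1 = true := ex3_a s70_pm_011_t k61_pm_011_t

theorem s72_pm_011_t : ∃ t, chk3 f_pm_011_t t 18 30 1 = true := ex3_b k58_pm_011_t s71_pm_011_t

theorem s73_pm_011_t : ∃ t, chk3 f_pm_011_t t 9 30 1 = true := ex3_a s72_pm_011_t k62_pm_011_t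

theorem s74_pm_011_t : ∃ t, chk3 f_pm_011_t t 9 15 1 = true := ex3_b s73_pm_011_t s69_pm_011_t

theorem s75_pm_011_t : ∃ t, chk3 f_pm_011_t t 17 63 1 = true := ex3_b k56_pm_011_t k57_pm_011_t

theorem s76_pm_011_t : ∃ t, chk3 f_pm_011_t t 137 502 1 = true := ex3_a k51_pm_011_t k52_pm_011_t

theorem s77_pm_011_t : ∃ t, chk3 f_pm_011_t t 137 251 1 = true := ex3_b s76_pm_011_t k53_pm_011_t

theorem s78_pm_011_t : ∃ t, chk3 f_pm_011_t t 272 503 1 = true := ex3_b k48_pm_011_t k49_pm_011_t

theorem s79_pm_011_t : ∃ t, chk3 f_pm_011_t t 136 503 1 = true := ex3_a s78_pm_011_t k50_pm_011_t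

theorem s80_pm_011_t : ∃ t, chk3 f_pm_011_t t 136 251 1 = true := ex3_b k47_pm_011_t s79_pm_011_t

theorem s81_pm_011_t : ∃ t, chk3 f_pm_011_t t 68 251 1 = true := ex3_a s80_pm_011_t s77_pm_011_t

theorem s82_pm_011_t : ∃ t, chk3 f_pm_011_t t 34 251 1 = true := ex3_a s81_pm_011_t k54_pm_011_t

theorem s83_pm_011_t : ∃ t, chk3 f_pm_011_t t 138 250 1 = true := ex3_b k44_pm_011_t k45_pm_011_t

theorem s84_pm_011_t : ∃ t, chk3 f_pm_011_t t 69 250 1 = true := ex3_a s83_pm_011_t k46_pm_011_t

theorem s85_pm_011_t : ∃ t, chk3 f_pm_011_t t 34 250 1 = true := ex3_a k43_pm_011_t s84_pm_011_t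

theorem s86_pm_011_t : ∃ t, chk3 f_pm_011_t t 34 125 1 = true := ex3_b s85_pm_011_t s82_pm_011_t

theorem s87_pm_011_t : ∃ t, chk3 f_pm_011_t t 17 125 1 = true := ex3_a s86_pm_011_t k55_pm_011_t

theorem s88_pm_011_t : ∃ t, chk3 f_pm_011_t t 70 124 1 = true := ex3_b k40_pm_011_t k41_pm_011_t

theorem s89_pm_011_t : ∃ t, chk3 f_pm_011_t t 35 124 1 = true := ex3_a s88_pm_011_t k42_pm_011_t

theorem s90_pm_011_t : ∃ t, chk3 f_pm_011_t t 17 124 1 = true := ex3_a k39_pm_011_t s89_pm_011_t

theorem s91_pm_011_t : ∃ t, chk3 f_pm_011_t t 17 62 1 = true := ex3_b s90_pm_011_t s87_pm_011_t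

theorem s92_pm_011_t : ∃ t, chk3 f_pm_011_t t 17 31 1 = true := ex3_b s91_pm_011_t s75_pm_011_t

theorem s93_pm_011_t : ∃ t, chk3 f_pm_011_t t 271 504 1 = true := ex3_b k34_pm_011_t k35_pm_011_t

theorem s94_pm_011_t : ∃ t, chk3 f_pm_011_t t 270 504 1 = true := ex3_b k32_pm_011_t k33_pm_011_t

theorem s95_pm_011_t : ∃ t, chk3 f_pm_011_t t 135 504 1 = true := ex3_a s94_pm_011_t s93_pm_011_t

theorem s96_pm_011_t : ∃ t, chk3 f_pm_011_t t 135 252 1 = true := ex3_b s95_pm_011_t k36_pm_011_t

theorem s97_pm_011_t : ∃ t, chk3 f_pm_011_t t 134 505 1 = true := ex3_a k30_pm_011_t k31_pm_011_t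

theorem s98_pm_011_t : ∃ t, chk3 f_pm_011_t t 134 252 1 = true := ex3_b k29_pm_011_t s97_pm_011_t

theorem s99_pm_011_t : ∃ t, chk3 f_pm_011_t t 67 252 1 = true := ex3_a s98_pm_011_t s96_pm_011_t

theorem s100_pm_011_t : ∃ t, chk3 f_pm_011_t t 67 126 1 = true := ex3_b s99_pm_011_t k37_pm_011_t

theorem s101_pm_011_t : ∃ t, chk3 f_pm_011_t t 133 506 1 = true := ex3_a k26_pm_011_t k27_pm_011_t

theorem s102_pm_011_t : ∃ t, chk3 f_pm_011_t t 133 253 1 = true := ex3_b s101_pm_011_t k28_pm_011_t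

theorem s103_pm_011_t : ∃ t, chk3 f_pm_011_t t 264 1015 1 = true := ex3_a k23_pm_011_t k24_pm_011_t

theorem s104_pm_011_t : ∃ t, chk3 f_pm_011_t t 264 507 1 = true := ex3_b k22_pm_011_t s103_pm_011_t

theorem s105_pm_011_t : ∃ t, chk3 f_pm_011_t t 132 507 1 = true := ex3_a s104_pm_011_t k25_pm_011_t

theorem s106_pm_011_t : ∃ t, chk3 f_pm_011_t t 132 253 1 = true := ex3_b k21_pm_011_t s105_pm_011_t

theorem s107_pm_011_t : ∃ t, chk3 f_pm_011_t t 66 253 1 = true := ex3_a s106_pm_011_t s102_pm_011_t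

theorem s108_pm_011_t : ∃ t, chk3 f_pm_011_t t 66 126 1 = true := ex3_b k20_pm_011_t s107_pm_011_t

theorem s109_pm_011_t : ∃ t, chk3 f_pm_011_t t 33 126 1 = true := ex3_a s108_pm_011_t s100_pm_011_t

theorem s110_pm_011_t : ∃ t, chk3 f_pm_011_t t 33 63 1 = true := ex3_b s109_pm_011_t k38_pm_011_t

theorem s111_pm_011_t : ∃ t, chk3 f_pm_011_t t 261 1018 1 = true := ex3_a k15_pm_011_t k16_pm_011_t

theorem s112_pm_011_t : ∃ t, chk3 f_pm_011_t t 261 509 1 = true := ex3_b s111_pm_011_t k17_pm_011_t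

theorem s113_pm_011_t : ∃ t, chk3 f_pm_011_t t 130 509 1 = true := ex3_a k14_pm_011_t s112_pm_011_t

theorem s114_pm_011_t : ∃ t, chk3 f_pm_011_t t 65 509 1 = true := ex3_a s113_pm_011_t k18_pm_011_t

theorem s115_pm_011_t : ∃ t, chk3 f_pm_011_t t 263 1016 1 = true := ex3_a k11_pm_011_t k12_pm_011_t

theorem s116_pm_011_t : ∃ t, chk3 f_pm_011_t t 263 508 1 = true := ex3_b s115_pm_011_t k13_pm_011_t

theorem s117_pm_011_t : ∃ t, chk3 f_pm_011_t t 262 1017 1 = true := ex3_a k9_pm_011_t k10_pm_011_t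

theorem s118_pm_011_t : ∃ t, chk3 f_pm_011_t t 262 508 1 = true := ex3_b k8_pm_011_t s117_pm_011_t

theorem s119_pm_011_t : ∃ t, chk3 f_pm_011_t t 131 508 1 = true := ex3_a s118_pm_011_t s116_pm_011_t

theorem s120_pm_011_t : ∃ t, chk3 f_pm_011_t t 65 508 1 = true := ex3_a k7_pm_011_t s119_pm_011_t

theorem s121_pm_011_t : ∃ t, chk3 f_pm_011_t t 65 254 1 = true := ex3_b s120_pm_011_t s114_pm_011_t

theorem s122_pm_011_t : ∃ t, chk3 f_pm_011_t t 32 254 1 = true := ex3_a k6_pm_011_t s121_pm_011_t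

theorem s123_pm_011_t : ∃ t, chk3 f_pm_011_t t 32 127 1 = true := ex3_b s122_pm_011_t k19_pm_011_t

theorem s124_pm_011_t : ∃ t, chk3 f_pm_011_t t 32 63 1 = true := ex3_b k5_pm_011_t s123_pm_011_t

theorem s125_pm_011_t : ∃ t, chk3 f_pm_011_t t 16 63 1 = true := ex3_a s124_pm_011_t s110_pm_011_t

theorem s126_pm_011_t : ∃ t, chk3 f_pm_011_t t 16 31 1 = true := ex3_b k4_pm_011_t s125_pm_011_t

theorem s127_pm_011_t : ∃ t, chk3 f_pm_011_t t 8 31 1 = true := ex3_a s126_pm_011_t s92_pm_011_t

theorem s128_pm_011_t : ∃ t, chk3 f_pm_011_t t 8 15 1 = true := ex3_b k3_pm_011_t s127_pm_011_t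

theorem s129_pm_011_t : ∃ t, chk3 f_pm_011_t t 4 15 1 = true := ex3_a s128_pm_011_t s74_pm_011_t

theorem s130_pm_011_t : ∃ t, chk3 f_pm_011_t t 4 7 1 = true := ex3_b k2_pm_011_t s129_pm_011_t

theorem s131_pm_011_t : ∃ t, chk3 f_pm_011_t t 2 7 1 = true := ex3_a s130_pm_011_t s68_pm_011_t

theorem s132_pm_011_t : ∃ t, chk3 f_pm_011_t t 2 3 1 = true := ex3_b k1_pm_011_t s131_pm_011_t

theorem s133_pm_011_t : ∃ t, chk3 f_pm_011_t t 2 1 1 = true := ex3_b k0_pm_011_t s132_pm_011_t

theorem s134_pm_011_t : ∃ t, chk3 f_pm_011_t t 1 1 1 = true := ex3_a s133_pm_011_t k67_pm_011_t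

theorem c_pm_011_t : CertNE 0 536870912 536870912 536870912 1045395039 1503240 3 eng mog cd0q0 cd0q1 pd1 false true false .pnn 0 1 1
    ndB0q0 ndB0q1 pcB1 cut_pm_011_t Ext.none :=
  certNE0 (fam := false) (s1 := true) (s2 := false) (a := 0) (b := 1) (c := 1) (cn := .pnn) (n1 := ndB0q0) (n2 := ndB0q1) (pc := pcB1) (cut := cut_pm_011_t) (xt := Ext.none) (P1 := 0) (W1 := 536870912) (P2 := 536870912) (W2 := 536870912) (P3 := 1045395039) (W3 := 1503240) (N0 := 3) (En := eng) (mo := mog) (C1 := cd0q0) (C2 := cd0q1) (C3 := pd1)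
    rfl s134_pm_011_t

noncomputable def cut_pm_012_s : Cut := Cut.of [[⟨4, 0, 0, 1449551462⟩], [⟨0, 0, 0, 26843545⟩, ⟨1, 1, 0, 26843545⟩, ⟨2, 1, 0, 26843545⟩]]

noncomputable def f_pm_012_s : ℕ → ℕ → ℕ → ℕ → Bool := onCell 0 536870912 0 536870912 1045395039 1503240
    (rowNE 3 eng mog cd0q0 cd0q2 pd1 0 false true false .pnp 0 1 2 (qsf 0 536870912 0 536870912 1) ndB0q0 ndB0q2 pcB1 cut_pm_012_s Ext.none)

def k0_pm_012_s : ∃ t, chk3 f_pm_012_s t 1 1 1 = true :=
  ⟨(a (l 6) (b (a (b (a (l 6) (a (l 6) (l 16435912))) (l 6)) (b (a (b (a (l 16486488) (l 16452408)) (l 6)) (b (a (b (l 16530728) (l 16482256)) (a (l 16525840) (l 16546400))) (a (l 16428056) (b (l 16454312) (l 16418552))))) (l 6))) (l 6))), by decide +kernel⟩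

theorem c_pm_012_s : CertNE 0 536870912 0 536870912 1045395039 1503240 3 eng mog cd0q0 cd0q2 pd1 false true false .pnp 0 1 2
    ndB0q0 ndB0q2 pcB1 cut_pm_012_s Ext.none :=
  certNE0 (fam := false) (s1 := true) (s2 := false) (a := 0) (b := 1) (c := 2) (cn := .pnp) (n1 := ndB0q0) (n2 := ndB0q2) (pc := pcB1) (cut := cut_pm_012_s) (xt := Ext.none) (P1 := 0) (W1 := 536870912) (P2 := 0) (W2 := 536870912) (P3 := 1045395039) (W3 := 1503240) (N0 := 3) (En := eng) (mo := mog) (C1 := cd0q0) (C2 := cd0q2) (C3 := pd1)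
    rfl k0_pm_012_s

noncomputable def cut_pm_012_t : Cut := Cut.of [[⟨3, 0, 0, 2845415833⟩], [⟨0, 0, 0, 26843545⟩, ⟨1, 1, 0, 26843545⟩, ⟨2, 1, 0, 26843545⟩]]

noncomputable def f_pm_012_t : ℕ → ℕ → ℕ → ℕ → Bool := onCell 0 536870912 0 536870912 1045395039 1503240
    (rowNE 3 eng mog cd0q0 cd0q2 pd1 0 false true false .pnp 0 1 2 (qsf 0 536870912 0 536870912 1) ndB0q0 ndB0q2 pcB1 cut_pm_012_t Ext.none)

def k0_pm_012_t : ∃ t, chk3 f_pm_012_t t 1 2 1 = true :=
  ⟨(l 6), by decide +kernel⟩

def k1_pm_012_t : ∃ t, chk3 f_pm_012_t t 4 6 1 = true :=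
  ⟨(a (l 2) (b (l 6) (a (b (l 6) (l 6)) (l 6)))), by decide +kernel⟩

def k2_pm_012_t : ∃ t, chk3 f_pm_012_t t 8 14 1 = true :=
  ⟨(a (l 2) (b (a (l 2) (a (l 2) (b (l 2) (b (l 16564512) (l 16580704))))) (b (a (l 2) (a (b (a (l 2) (l 16600360)) (a (l 16618728) (l 16616840))) (b (l 16596904) (l 16613440)))) (a (a (b (l 2) (a (l 2) (l 16635656))) (b (a (l 16638480) (l 16626776)) (a (b (l 16651424) (l 16660144)) (l 16633624)))) (a (b (l 16634848) (l 16631280)) (b (l 16630536) (l 16627040))))))), by decide +kernel⟩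

def k3_pm_012_t : ∃ t, chk3 f_pm_012_t t 8 15 1 = true :=
  ⟨(a (b (a (l 2) (b (a (l 2) (b (l 2) (a (l 2) (b (l 2) (a (l 2) (l 16685008)))))) (b (a (l 2) (a (b (l 16673560) (a (l 16696880) (l 16692152))) (b (a (l 16688056) (l 16684424)) (l 16686008)))) (a (l 14) (a (b (a (l 16697184) (l 16692352)) (l 16695296)) (l 16686248)))))) (a (l 14) (a (l 14) (b (b (a (b (l 16696192) (l 16697408)) (l 16687648)) (a (b (l 16699312) (l 16702616)) (b (l 16689864) (l 16692944)))) (b (a (b (l 16706408) (l 16709416)) (l 16687552)) (a (b (l 16711592) (l 16712928)) (b (l 16701272) (l 16702400)))))))) (b (a (b (a (b (a (b (l 2) (l 16678936)) (b (l 16648744) (l 16677240))) (a (b (l 16660448) (l 16680496)) (l 16675424))) (b (l 16660320) (l 16646752))) (a (b (a (l 16679552) (l 16673640)) (a (l 16679280) (l 16672984))) (b (l 16644416) (l 16664160)))) (b (a (b (l 16641440) (l 16658608)) (b (l 16655288) (l 16650752))) (a (b (l 16655528) (l 16653544)) (b (l 16646944) (l 16644200))))) (b (a (b (a (a (l 16680280)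 (l 16673592)) (l 16664184)) (a (b (l 16678656) (l 16681416)) (b (l 16665336) (l 16667656)))) (b (a (l 16652776) (l 16642664)) (a (l 16633504) (l 16643536)))) (a (b (a (b (l 16684648) (l 16687112)) (l 16671584)) (a (b (l 16688768) (l 16689592)) (l 16674056))) (b (a (l 16658488) (l 16646688)) (a (l 16660128) (l 16647496))))))), by decide +kernel⟩

def k4_pm_012_t : ∃ t, chk3 f_pm_012_t t 9 7 1 = true :=
  ⟨(b (a (b (a (b (a (b (l 16526416) (l 16542680)) (l 16528344)) (a (l 16567056) (l 16560960))) (b (l 16518560) (a (l 16554536) (l 16547960)))) (a (b (a (b (l 16591456) (l 16608056)) (l 16572776)) (a (a (l 16614336) (l 16611528)) (l 16607104))) (b (a (l 16587416) (l 16580920)) (a (l 16600880) (l 16594480))))) (b (a (b (l 6) (l 16538280)) (l 6)) (b (a (l 16550352) (l 16559680)) (a (l 16585000) (l 16594432))))) (b (a (a (b (a (b (l 16649192) (l 16643944)) (l 16619752)) (a (b (l 16639400) (l 16635912)) (l 16630336))) (b (b (l 16636096) (l 16608112)) (a (l 16623424) (l 16616720)))) (a (b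 (l 16601024) (l 16606600)) (b (l 16610320) (l 16592096)))) (a (b (a (b (l 16608344) (a (l 16633648) (l 16624384))) (b (l 16613176) (l 16611200))) (a (b (l 16630816) (a (l 16635920) (l 16624976))) (b (l 16611344) (l 16609288)))) (b (a (b (l 16597480) (l 16593896)) (l 16557784)) (a (l 16590920) (l 16570080)))))), by decide +kernel⟩

def k5_pm_012_t : ∃ t, chk3 f_pm_012_t t 5 3 1 = true :=
  ⟨(b (l 6) (b (a (b (l 6) (a (b (l 6) (l 16577472)) (l 6))) (l 6)) (b (a (a (b (l 16592616) (l 16549256)) (l 16558360)) (l 6)) (a (b (a (b (l 16555616) (l 16548080)) (l 16520800)) (a (l 16538832) (l 16500840))) (b (l 16480192) (l 16429848)))))), by decide +kernel⟩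

def k6_pm_012_t : ∃ t, chk3 f_pm_012_t t 3 3 1 = true :=
  ⟨(b (l 6) (l 6)), by decide +kernel⟩

theorem s7_pm_012_t : ∃ t, chk3 f_pm_012_t t 8 7 1 = true := ex3_b k2_pm_012_t k3_pm_012_t

theorem s8_pm_012_t : ∃ t, chk3 f_pm_012_t t 4 7 1 = true := ex3_a s7_pm_012_t k4_pm_012_t

theorem s9_pm_012_t : ∃ t, chk3 f_pm_012_t t 4 3 1 = true := ex3_b k1_pm_012_t s8_pm_012_t

theorem s10_pm_012_t : ∃ t, chk3 f_pm_012_t t 2 3 1 = true := ex3_a s9_pm_012_t k5_pm_012_t

theorem s11_pm_012_t : ∃ t, chk3 f_pm_012_t t 1 3 1 = true := ex3_a s10_pm_012_t k6_pm_012_t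

theorem s12_pm_012_t : ∃ t, chk3 f_pm_012_t t 1 1 1 = true := ex3_b k0_pm_012_t s11_pm_012_t

theorem c_pm_012_t : CertNE 0 536870912 0 536870912 1045395039 1503240 3 eng mog cd0q0 cd0q2 pd1 false true false .pnp 0 1 2
    ndB0q0 ndB0q2 pcB1 cut_pm_012_t Ext.none :=
  certNE0 (fam := false) (s1 := true) (s2 := false) (a := 0) (b := 1) (c := 2) (cn := .pnp) (n1 := ndB0q0) (n2 := ndB0q2) (pc := pcB1) (cut := cut_pm_012_t) (xt := Ext.none) (P1 := 0) (W1 := 536870912) (P2 := 0) (W2 := 536870912) (P3 := 1045395039) (W3 := 1503240) (N0 := 3) (En := eng) (mo := mog) (C1 := cd0q0) (C2 := cd0q2) (C3 := pd1)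
    rfl s12_pm_012_t

noncomputable def cut_pm_022_s : Cut := Cut.of [[⟨4, 0, 0, 1449551462⟩], [⟨0, 0, 0, 26843545⟩, ⟨1, 1, 0, 26843545⟩, ⟨2, 1, 0, 26843545⟩]]

noncomputable def f_pm_022_s : ℕ → ℕ → ℕ → ℕ → Bool := onCell 1073741824 536870912 0 536870912 1045395039 1503240
    (rowNE 3 eng mog cd0q0 cd0q2 pd2 2 false true false .pp 0 2 2 (qsf 0 536870912 0 536870912 2) ndB0q0 ndB0q2 pcB2 cut_pm_022_s Ext.none)

def k0_pm_022_s : ∃ t, chk3 f_pm_022_s t 1 1 1 = true :=
  ⟨(l 6), by decide +kernel⟩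

theorem c_pm_022_s : CertNE 0 536870912 0 536870912 1045395039 1503240 3 eng mog cd0q0 cd0q2 pd2 false true false .pp 0 2 2
    ndB0q0 ndB0q2 pcB2 cut_pm_022_s Ext.none :=
  certNE2 (fam := false) (s1 := true) (s2 := false) (a := 0) (b := 2) (c := 2) (cn := .pp) (n1 := ndB0q0) (n2 := ndB0q2) (pc := pcB2) (cut := cut_pm_022_s) (xt := Ext.none) (P1 := 0) (W1 := 536870912) (P2 := 0) (W2 := 536870912) (P3 := 1045395039) (W3 := 1503240) (N0 := 3) (En := eng) (mo := mog) (C1 := cd0q0) (C2 := cd0q2) (C3 := pd2)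
    rfl (fun _ => rfl) k0_pm_022_s

noncomputable def cut_pm_022_t : Cut := Cut.of [[⟨3, 0, 0, 2845415833⟩], [⟨0, 0, 0, 26843545⟩, ⟨1, 1, 0, 26843545⟩, ⟨2, 1, 0, 26843545⟩]]

noncomputable def f_pm_022_t : ℕ → ℕ → ℕ → ℕ → Bool := onCell 0 536870912 0 536870912 1045395039 1503240
    (rowNE 3 eng mog cd0q0 cd0q2 pd2 0 false true false .pp 0 2 2 (qsf 0 536870912 0 536870912 2) ndB0q0 ndB0q2 pcB2 cut_pm_022_t Ext.none)

def k0_pm_022_t : ∃ t, chk3 f_pm_022_t t 2 2 1 = true :=
  ⟨(l 6), by decide +kernel⟩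

def k1_pm_022_t : ∃ t, chk3 f_pm_022_t t 4 6 1 = true :=
  ⟨(b (l 6) (a (a (a (b (b (l 16159792) (l 16169840)) (b (l 16186048) (a (l 16212696) (l 16205992)))) (b (a (l 16142752) (l 6)) (a (b (l 16172824) (l 16201016)) (b (l 16163376) (l 16194784))))) (b (l 6) (a (b (a (l 16146928) (l 16127032)) (a (l 16183744) (l 16167400))) (b (l 6) (l 16134536))))) (a (b (l 6) (l 6)) (l 6)))), by decide +kernel⟩

def k2_pm_022_t : ∃ t, chk3 f_pm_022_t t 8 14 1 = true :=
  ⟨(a (b (a (b (a (l 16241800) (l 16238416)) (a (b (l 16248128) (l 16269096)) (b (l 16246896) (l 16269848)))) (b (a (a (l 16236528) (l 16236296)) (a (l 16236408) (l 16234632))) (a (b (l 16269944) (l 16295560)) (b (l 16272328) (l 16299792))))) (a (b (a (b (a (l 16313000) (l 16292736)) (a (a (l 16317264) (l 16318080)) (l 16340824))) (b (b (l 16288976) (l 16302448)) (a (l 16343888) (l 16348216)))) (a (b (a (b (l 16339352) (l 16354960)) (a (l 16370696) (l 16372888))) (a (b (l 16382256) (b (l 16385048) (l 16394216))) (b (l 16376912)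 (l 16395344)))) (b (a (l 16376664) (l 16381728)) (a (a (l 16411216) (l 16414056)) (l 16417992))))) (b (a (b (a (l 16321696) (l 16325784)) (a (l 16352776) (l 16357320))) (b (l 16329456) (l 16361016))) (a (b (a (l 16386704) (l 16391176)) (a (l 16422816) (l 16427256))) (b (l 16394896) (l 16441400)))))) (b (a (b (a (l 16228216) (l 16214880)) (a (l 16281072) (l 16268400))) (b (a (l 16195416) (l 16170264)) (a (l 16249664) (l 16225152)))) (a (b (a (b (l 16324992) (l 16356672)) (b (l 16312664) (l 16344424))) (a (b (l 16390552) (l 16426464)) (b (l 16378280) (l 16414056)))) (b (a (l 16309880) (l 16285616)) (a (l 16335448) (l 1)))))), by decide +kernel⟩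

def k3_pm_022_t : ∃ t, chk3 f_pm_022_t t 8 15 1 = true :=
  ⟨(b (a (a (b (a (b (a (b (a (l 16406928) (l 16430944)) (a (l 16426528) (l 16450672))) (b (l 16435464) (l 16455320))) (a (b (a (l 16467776) (l 16471040)) (a (l 16488688) (l 16491856))) (b (l 16475592) (l 16496344)))) (b (a (b (l 16441288) (l 16461000)) (l 16456288)) (a (b (l 16481200) (l 16501864)) (l 16496544)))) (b (a (a (b (a (l 16510016) (l 16513128)) (a (l 16531720) (l 16534776))) (b (l 16517536) (l 16539104))) (a (b (l 16522952) (l 16544400)) (l 16517520))) (l 14))) (b (a (b (a (l 16461032) (l 16465368)) (a (l 16501128) (l 16505312))) (b (a (l 16468664) (l 16469064)) (a (l 16508448) (l 16508688)))) (a (b (a (l 16542864) (l 16546832)) (l 14)) (b (a (l 16549752) (l 16549768)) (a (l 16592152) (l 1)))))) (a (b (a (b (l 16464200) (l 16503576)) (l 1)) (l 1)) (l 1))) (a (a (l 14) (a (l 14) (l 1))) (l 1))), by decide +kernel⟩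

def k4_pm_022_t : ∃ t, chk3 f_pm_022_t t 9 7 1 = true :=
  ⟨(b (a (b (a (b (l 16123064) (a (l 16195368) (l 1))) (l 1)) (l 1)) (l 1)) (l 1)), by decide +kernel⟩

def k5_pm_022_t : ∃ t, chk3 f_pm_022_t t 5 3 1 = true :=
  ⟨(b (l 1) (l 1)), by decide +kernel⟩

def k6_pm_022_t : ∃ t, chk3 f_pm_022_t t 3 1 1 = true :=
  ⟨(l 1), by decide +kernel⟩

theorem s7_pm_022_t : ∃ t, chk3 f_pm_022_t t 8 7 1 = true := ex3_b k2_pm_022_t k3_pm_022_t

theorem s8_pm_022_t : ∃ t, chk3 f_pm_022_t t 4 7 1 = true := ex3_a s7_pm_022_t k4_pm_022_t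

theorem s9_pm_022_t : ∃ t, chk3 f_pm_022_t t 4 3 1 = true := ex3_b k1_pm_022_t s8_pm_022_t

theorem s10_pm_022_t : ∃ t, chk3 f_pm_022_t t 2 3 1 = true := ex3_a s9_pm_022_t k5_pm_022_t

theorem s11_pm_022_t : ∃ t, chk3 f_pm_022_t t 2 1 1 = true := ex3_b k0_pm_022_t s10_pm_022_t

theorem s12_pm_022_t : ∃ t, chk3 f_pm_022_t t 1 1 1 = true := ex3_a s11_pm_022_t k6_pm_022_t

theorem c_pm_022_t : CertNE 0 536870912 0 536870912 1045395039 1503240 3 eng mog cd0q0 cd0q2 pd2 false true false .pp 0 2 2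
    ndB0q0 ndB0q2 pcB2 cut_pm_022_t Ext.none :=
  certNE0 (fam := false) (s1 := true) (s2 := false) (a := 0) (b := 2) (c := 2) (cn := .pp) (n1 := ndB0q0) (n2 := ndB0q2) (pc := pcB2) (cut := cut_pm_022_t) (xt := Ext.none) (P1 := 0) (W1 := 536870912) (P2 := 0) (W2 := 536870912) (P3 := 1045395039) (W3 := 1503240) (N0 := 3) (En := eng) (mo := mog) (C1 := cd0q0) (C2 := cd0q2) (C3 := pd2)
    rfl s12_pm_022_t

noncomputable def cut_pm_101_s : Cut := Cut.of [[⟨4, 0, 0, 1116691496⟩], [⟨0, 1, 0, 8388608⟩, ⟨1, 0, 0, 8388608⟩, ⟨2, 1, 0, 8388608⟩], [⟨0, 0, 1, 46137344⟩, ⟨1, 1, 2, 46137344⟩, ⟨2, 1, 0, 1048576⟩, ⟨0, 0, 0, 1056440320⟩, ⟨0, 1, 0, 33457795⟩, ⟨1, 0, 0, 33457795⟩, ⟨1, 1, 0, 1056440320⟩]]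

noncomputable def xt_pm_101_s : Ext := extD3 3 ⟨4, 1, 1, 5, 33, 5, 163, 200, 81, 200, 1, 64⟩ eng cd0q1 cd0q1 pd0 false true false .npn 1 0 1 rfl ndB0q1 ndB0q1 pcB0

noncomputable def f_pm_101_s : ℕ → ℕ → ℕ → ℕ → Bool := onCell 0 536870912 536870912 536870912 1045395039 1503240
    (rowNE 3 eng mog cd0q1 cd0q1 pd0 2 false true false .npn 1 0 1 (qsf 536870912 536870912 536870912 536870912 0) ndB0q1 ndB0q1 pcB0 cut_pm_101_s xt_pm_101_s)

def k0_pm_101_s : ∃ t, chk3 f_pm_101_s t 1 1 1 = true :=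
  ⟨(a (b (l 6) (a (b (l 6) (a (b (l 6) (a (b (l 6) (a (b (l 6) (b (l 6) (a (a (b (b (b (l 6) (a (a (a (l 14) (l 144023619378528367)) (a (l 144029735416774767) (l 144036676088709231))) (l 6))) (a (a (l 14) (b (l 144058734995898479) (l 14))) (a (b (l 144061071466725487) (l 144068355730178159)) (b (l 144077083112636527) (l 144082374506184815))))) (b (a (l 14) (b (a (l 14) (l 144095018884333679)) (l 14))) (l 14))) (b (a (b (l 6) (b (l 6) (a (l 144098867177013359) (l 144116940438782063)))) (l 6)) (b (a (a (a (l 144109587430654063) (l 144117009133027439)) (l 144129378637152367)) (a (l 144146695943045231) (b (l 144123812377395311) (l 144120582560399471)))) (b (a (a (l 14) (l 144129722251903087)) (l 144153155591962735)) (a (l 14) (a (l 144136731636400239) (l 144151025287331951))))))) (b (l 6) (a (b (a (a (l 144167998997823599) (l 144199884832505967)) (l 6)) (a (b (a (l 144134807490084975) (l 144159615220138095)) (l 144154873577570415)) (a (l 144170541605666927) (l 144134738750390383))))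 (b (l 6) (a (b (l 6) (a (l 144085947912339567) (b (l 6) (a (l 144031109772968047) (c (l 144041005371998319) (l 143994413566787695)))))) (l 6)))))))) (l 6))) (l 6))) (l 6))) (l 6))) (l 6)), by decide +kernel⟩

theorem c_pm_101_s : CertNE 536870912 536870912 536870912 536870912 1045395039 1503240 3 eng mog cd0q1 cd0q1 pd0 false true false .npn 1 0 1
    ndB0q1 ndB0q1 pcB0 cut_pm_101_s xt_pm_101_s :=
  certNE2 (fam := false) (s1 := true) (s2 := false) (a := 1) (b := 0) (c := 1) (cn := .npn) (n1 := ndB0q1) (n2 := ndB0q1) (pc := pcB0) (cut := cut_pm_101_s) (xt := xt_pm_101_s) (P1 := 536870912) (W1 := 536870912) (P2 := 536870912) (W2 := 536870912) (P3 := 1045395039) (W3 := 1503240) (N0 := 3) (En := eng) (mo := mog) (C1 := cd0q1) (C2 := cd0q1) (C3 := pd0)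
    rfl (fun _ => rfl) k0_pm_101_s

noncomputable def cut_pm_101_t : Cut := Cut.of [[⟨3, 0, 0, 2845415833⟩], [⟨0, 1, 0, 8388608⟩, ⟨1, 0, 0, 8388608⟩, ⟨2, 1, 0, 8388608⟩], [⟨0, 0, 1, 46137344⟩, ⟨1, 1, 2, 46137344⟩, ⟨2, 1, 0, 1048576⟩, ⟨0, 0, 0, 1056440320⟩, ⟨0, 1, 0, 33457795⟩, ⟨1, 0, 0, 33457795⟩, ⟨1, 1, 0, 1056440320⟩]]

noncomputable def f_pm_101_t : ℕ → ℕ → ℕ → ℕ → Bool := onCell 536870912 536870912 536870912 536870912 1045395039 1503240
    (rowNE 3 eng mog cd0q1 cd0q1 pd0 0 false true false .npn 1 0 1 (qsf 536870912 536870912 536870912 536870912 0) ndB0q1 ndB0q1 pcB0 cut_pm_101_t Ext.none)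

def k0_pm_101_t : ∃ t, chk3 f_pm_101_t t 1 1 1 = true :=
  ⟨(a (b (a (b (a (b (l 4) (a (b (l 4) (a (l 4) (l 125862458407))) (b (a (l 4) (l 128009940551)) (a (b (l 16749488) (l 16761656)) (b (l 16761400) (l 16705216)))))) (b (a (a (l 4) (l 1)) (l 1)) (b (a (a (b (l 16748696) (l 16760480)) (b (l 16759992) (l 16693352))) (a (l 112776145495) (l 1))) (a (b (l 16662544) (l 16576688)) (a (l 16504784) (l 16415160)))))) (b (a (b (a (a (b (l 16751992) (l 16760880)) (l 16736512)) (a (l 16683760) (l 16620408))) (a (a (l 16698248) (l 16648256)) (l 16478104))) (a (b (l 16366168) (l 16358032)) (b (l 16131712) (l 16207336)))) (a (a (b (l 16607384) (l 16563160)) (b (l 16474144) (l 16452848))) (b (a (l 16354968) (l 16184128)) (a (l 16314792) (l 16146040)))))) (b (a (b (l 1) (b (l 1) (a (b (l 1) (l 16239144)) (l 1)))) (l 1)) (b (a (b (a (a (l 16191656) (l 16087392)) (b (l 1) (l 15895312))) (a (l 15960320) (b (l 15834128) (l 15785656)))) (b (l 1) (a (l 6) (l 1)))) (a (b (a (l 15979640) (l 6)) (l 6))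 (l 6))))) (b (a (b (a (b (a (l 16540592) (l 16433720)) (a (l 16519208) (l 16435504))) (b (a (l 16299304) (l 6)) (l 6))) (a (b (a (b (l 16438560) (l 6)) (l 6)) (l 6)) (l 6))) (l 6)) (l 6))) (b (a (b (l 1) (l 6)) (l 1)) (l 6))), by decide +kernel⟩

theorem c_pm_101_t : CertNE 536870912 536870912 536870912 536870912 1045395039 1503240 3 eng mog cd0q1 cd0q1 pd0 false true false .npn 1 0 1
    ndB0q1 ndB0q1 pcB0 cut_pm_101_t Ext.none :=
  certNE0 (fam := false) (s1 := true) (s2 := false) (a := 1) (b := 0) (c := 1) (cn := .npn) (n1 := ndB0q1) (n2 := ndB0q1) (pc := pcB0) (cut := cut_pm_101_t) (xt := Ext.none) (P1 := 536870912) (W1 := 536870912) (P2 := 536870912) (W2 := 536870912) (P3 := 1045395039) (W3 := 1503240) (N0 := 3) (En := eng) (mo := mog) (C1 := cd0q1) (C2 := cd0q1) (C3 := pd0)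
    rfl k0_pm_101_t

noncomputable def cut_pm_102_s : Cut := Cut.of [[⟨4, 0, 0, 1100585369⟩], [⟨0, 1, 0, 8388608⟩, ⟨1, 0, 0, 8388608⟩, ⟨2, 1, 0, 8388608⟩], [⟨0, 0, 1, 46137344⟩, ⟨1, 1, 2, 46137344⟩, ⟨2, 1, 0, 1048576⟩, ⟨0, 0, 0, 1056440320⟩, ⟨0, 1, 0, 33457795⟩, ⟨1, 0, 0, 33457795⟩, ⟨1, 1, 0, 1056440320⟩]]

noncomputable def xt_pm_102_s : Ext := extD3 3 ⟨4, 1, 1, 5, 33, 5, 163, 200, 81, 200, 1, 64⟩ eng cd0q1 cd0q2 pd0 false true false .npp 1 0 2 rfl ndB0q1 ndB0q2 pcB0

noncomputable def f_pm_102_s : ℕ → ℕ → ℕ → ℕ → Bool := onCell 536870912 536870912 0 536870912 1045395039 1503240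
    (rowNE 3 eng mog cd0q1 cd0q2 pd0 0 false true false .npp 1 0 2 (qsf 536870912 536870912 0 536870912 0) ndB0q1 ndB0q2 pcB0 cut_pm_102_s xt_pm_102_s)

def k0_pm_102_s : ∃ t, chk3 f_pm_102_s t 2 1 1 = true :=
  ⟨(b (b (a (l 2) (a (b (a (l 173577008807) (l 3)) (a (b (l 16752488) (l 16709984)) (b (l 126332272791) (l 16710112)))) (b (l 3) (a (l 178945721399) (l 3))))) (a (l 6) (a (b (a (l 6) (l 16640976)) (l 6)) (b (a (b (a (l 16745536) (l 16765152)) (l 16707320)) (b (l 140827791959) (a (l 16748512) (l 16724952)))) (a (l 6) (b (l 16689656) (l 6))))))) (l 6)), by decide +kernel⟩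

def k1_pm_102_s : ∃ t, chk3 f_pm_102_s t 3 2 1 = true :=
  ⟨(a (b (l 3) (a (b (a (b (l 3) (l 182703840455)) (l 3)) (a (b (a (l 16752888) (l 93583197623)) (l 16673600)) (b (l 175187643975) (a (l 29158706759) (l 117205518727))))) (l 3))) (l 3)), by decide +kernel⟩

def k2_pm_102_s : ∃ t, chk3 f_pm_102_s t 6 3 1 = true :=
  ⟨(b (a (b (a (l 6) (b (a (l 16692528) (l 16727792)) (l 6))) (l 6)) (b (a (b (a (b (l 16749696) (l 16750672)) (l 107004980151)) (a (l 16683704) (b (l 16756400) (l 16707040)))) (b (l 3) (a (b (l 142438498983) (a (l 16749160) (l 16750408))) (l 192904400119)))) (a (l 6) (b (a (b (l 16709192) (l 6)) (b (a (l 16758760) (l 100025715703)) (l 16714192))) (a (l 6) (b (l 6) (l 6))))))) (l 6)), by decide +kernel⟩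

def k3_pm_102_s : ∃ t, chk3 f_pm_102_s t 7 6 1 = true :=
  ⟨(b (l 3) (a (a (b (a (b (l 3) (a (l 50096722663) (l 109689398727))) (l 3)) (a (b (a (l 16702184) (l 16745160)) (l 16561040)) (b (a (b (l 16750368) (l 16751872)) (l 3)) (a (l 16712464) (b (l 81772122023) (l 16742408)))))) (b (l 3) (a (b (l 3) (a (b (l 3) (l 93046411207)) (l 3))) (l 3)))) (l 3))), by decide +kernel⟩

def k4_pm_102_s : ∃ t, chk3 f_pm_102_s t 14 7 1 = true :=
  ⟨(b (a (b (a (l 6) (b (a (l 6) (l 16631552)) (l 6))) (l 6)) (a (b (b (a (b (l 34527488055) (l 16684056)) (b (l 186461965847) (a (l 16750984) (l 79087777847)))) (a (l 16542608) (b (l 16652192) (l 16659672)))) (l 6)) (b (b (a (l 209010531927) (l 3)) (a (b (a (b (l 16764752) (l 16752424)) (l 141901663479)) (a (l 16710128) (l 18958243031))) (b (l 3) (a (b (l 187535713751) (l 58149820087)) (l 217600478151))))) (b (a (b (a (l 16650440) (l 16686296)) (l 6)) (b (a (b (l 16739832) (l 16708704)) (b (a (l 16769904) (l 115058135479)) (l 16749000))) (a (l 16660056)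 (b (l 16716752) (l 16683432))))) (a (l 6) (b (l 16673936) (l 6))))))) (l 6)), by decide +kernel⟩

def k5_pm_102_s : ∃ t, chk3 f_pm_102_s t 15 14 1 = true :=
  ⟨(a (b (l 3) (a (b (a (b (a (b (l 3) (a (l 125795510903) (l 197736239975))) (l 3)) (a (a (l 16731840) (a (l 16774384) (b (l 71571596967) (l 16742432)))) (b (a (l 154786590167) (l 3)) (a (l 16769800) (b (l 192367554871) (l 64592276359)))))) (b (l 3) (a (l 224042927431) (l 3)))) (a (b (a (b (l 16691312) (l 16655456)) (b (l 16757080) (l 16721144))) (a (l 6) (l 16685536))) (b (a (b (a (b (a (l 16774200) (l 130627397319)) (l 16762544)) (b (l 3) (l 152102216279))) (a (b (l 16744560) (l 16726240)) (b (a (l 16762768) (l 68350374103)) (l 16729632)))) (b (l 3) (a (b (l 205789327095) (a (l 16769336) (l 138680440791))) (l 3)))) (b (a (a (l 16698080) (l 16743400)) (a (l 16768472) (b (a (b (l 110763176119) (l 16771560)) (l 206326199255)) (a (l 16736272) (l 44728055015))))) (a (l 16671328) (a (l 16708656) (b (a (l 16737824) (l 16750928))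 (l 16724544)))))))) (b (l 3) (a (b (l 3) (a (b (a (b (l 3) (a (l 151028475479) (l 3))) (l 3)) (a (b (a (l 16764224) (b (l 156934076919) (l 16772808))) (l 16751152)) (b (l 222969195447) (a (b (l 77477180551) (l 16766616)) (b (l 3) (l 143512283527)))))) (l 3))) (l 3))))) (l 3)), by decide +kernel⟩

def k6_pm_102_s : ∃ t, chk3 f_pm_102_s t 60 30 1 = true :=
  ⟨(a (l 6) (b (b (a (l 16651912) (b (l 16722984) (l 16638912))) (a (l 6) (l 16614176))) (l 6))), by decide +kernel⟩

def k7_pm_102_s : ∃ t, chk3 f_pm_102_s t 122 60 1 = true :=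
  ⟨(b (a (b (a (l 16741648) (b (a (l 16730464) (l 16776152)) (l 16758744))) (l 16744656)) (b (a (b (a (b (l 177335171239) (a (l 16770800) (l 90898953767))) (l 200420597367)) (a (l 16758872) (b (a (l 16776088) (l 173040204583)) (l 16768000)))) (b (l 3) (a (b (l 3) (a (l 101099500967) (l 3))) (l 3)))) (a (b (a (l 16737880) (b (l 16757504) (l 16746912))) (l 16723600)) (b (a (a (l 16763104) (b (l 69424117863) (l 16765128))) (b (l 210621167351) (a (l 16772504) (l 149417869111)))) (l 16776328))))) (a (b (l 16669352) (l 16602672)) (b (a (l 16711584) (l 16761752)) (l 16722512)))), by decide +kernel⟩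

def k8_pm_102_s : ∃ t, chk3 f_pm_102_s t 123 60 1 = true :=
  ⟨(b (a (b (l 3) (a (b (l 3) (a (b (a (b (l 116668758103) (l 16774056)) (l 203641846135)) (a (l 16755464) (l 49023023703))) (b (l 3) (a (b (l 3) (l 142438549623)) (l 3))))) (l 3))) (l 3)) (a (b (a (b (b (a (a (l 16755056) (l 16762608)) (a (l 16770208) (b (l 175724559527) (l 16776432)))) (l 16776376)) (l 16759672)) (b (a (b (l 199346856679) (a (b (l 88214600135) (l 16771816)) (b (l 3) (l 160155292807)))) (l 3)) (a (b (a (l 16773976) (l 16776496)) (l 16777144)) (b (a (b (l 198273137591) (l 74792827479)) (l 3)) (a (l 16767888) (b (a (l 16776592) (l 199883750647)) (l 16772952))))))) (a (l 16746464) (b (a (l 16760144) (l 16775816)) (l 16744920)))) (b (a (b (l 3) (a (b (l 3) (a (b (l 3) (l 183240752263)) (l 3))) (l 3))) (l 3)) (a (b (a (b (a (b (a (l 16773248) (l 139217325415)) (l 16769576)) (b (l 195051890855) (a (l 16775552) (l 178408914375)))) (l 16775496)) (b (l 3) (a (b (a (l 101099502359) (l 201494363095)) (l 48486153111))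 (l 214916135143)))) (a (l 16768712) (b (a (l 16765576) (b (a (l 16774512) (l 115058145623)) (l 16770784))) (l 16768528)))) (b (l 3) (a (b (a (b (l 3) (a (l 83919633111) (l 210621168807))) (l 3)) (a (b (l 16776824) (l 16772584)) (b (a (l 173577076215) (l 3)) (a (l 16773472) (b (l 138143595127) (l 16776128)))))) (l 200957483591))))))), by decide +kernel⟩

def k9_pm_102_s : ∃ t, chk3 f_pm_102_s t 61 61 1 = true :=
  ⟨(b (a (a (l 6) (b (l 16633200) (l 6))) (a (b (a (l 16657400) (l 16709544)) (a (l 16608472) (l 16639904))) (b (a (b (l 16753368) (l 16708608)) (a (b (l 16775160) (l 16733104)) (b (b (a (b (a (l 65129151639) (l 190220074343)) (l 16774720)) (b (l 3) (a (l 111300046679) (l 3)))) (a (l 16773776) (b (a (l 16772448) (b (l 150491619735) (l 16775136))) (l 16768640)))) (b (l 16776576) (l 16743688))))) (a (l 16693112) (b (l 16738272) (l 16692880)))))) (a (l 6) (b (a (l 16573608) (a (l 16622264) (l 16676624))) (a (l 6) (a (l 6) (l 16605232)))))), by decide +kernel⟩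

def k10_pm_102_s : ∃ t, chk3 f_pm_102_s t 30 31 1 = true :=
  ⟨(l 6), by decide +kernel⟩

def k11_pm_102_s : ∃ t, chk3 f_pm_102_s t 31 60 1 = true :=
  ⟨(l 3), by decide +kernel⟩

def k12_pm_102_s : ∃ t, chk3 f_pm_102_s t 124 122 1 = true :=
  ⟨(a (b (a (b (a (b (l 3) (a (b (l 216526748407) (a (l 16776192) (b (l 197199396119) (l 100025760983)))) (l 3))) (l 3)) (a (b (a (l 16773352) (b (a (b (l 132774886055) (l 16775872)) (l 190220063543)) (a (l 16771424) (l 62444797079)))) (l 16770888)) (b (a (b (l 3) (a (l 188609453783) (l 3))) (l 3)) (a (b (a (l 16773896) (b (l 205252460007) (l 16776632))) (l 16770048)) (b (l 3) (a (b (l 109152566103) (l 16774904)) (l 205789330679))))))) (l 3)) (a (b (a (l 16763360) (b (a (l 16771560) (b (l 32380026231) (l 16777032))) (l 16774240))) (l 16747544)) (b (a (b (a (b (a (b (l 193978149703) (l 96804535543)) (l 3)) (a (l 16772928) (b (l 157470942791) (l 16775696)))) (l 196662513351)) (a (l 16766040) (b (a (l 60834184407) (b (l 3) (l 117742500647))) (l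 16776824)))) (b (l 3) (a (b (l 3) (a (b (l 203104976375) (l 16776832)) (l 201494342039))) (l 3)))) (a (l 16773144) (b (a (b (a (l 16771984) (b (l 107005082487) (l 16774768))) (l 16768088)) (b (l 215989877527) (a (l 16776504) (b (l 191830676551) (l 96267664343))))) (l 16776408)))))) (b (l 3) (a (b (l 3) (a (b (l 3) (a (b (a (b (l 127943047895) (l 16775608)) (l 223506070599)) (a (l 16771064) (l 60297312199))) (b (l 3) (a (b (l 3) (l 117205629735)) (l 3))))) (l 3))) (l 3)))), by decide +kernel⟩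

def k13_pm_102_s : ∃ t, chk3 f_pm_102_s t 124 123 1 = true :=
  ⟨(a (b (a (b (l 16702040) (l 16677288)) (a (l 16757432) (b (l 16766024) (l 16720592)))) (a (l 16639888) (b (l 16687312) (l 16662760)))) (b (a (b (a (b (b (a (l 16772400) (a (l 16773648) (b (l 203641847287) (l 73719086423)))) (l 16775904)) (l 16777272)) (b (a (b (l 202568093863) (a (b (l 106468211591) (l 16774728)) (l 206863072503))) (l 3)) (a (b (l 33453767831) (l 16776768)) (b (a (b (l 192904418375) (l 96267664343)) (l 3)) (a (l 16772792) (b (l 181630140071) (l 16775616))))))) (a (l 16758992) (l 16776416))) (b (a (b (l 3) (a (l 196662518551) (l 3))) (l 3)) (a (b (a (b (a (b (l 86067117175) (l 16773896)) (b (l 3) (l 118279371559))) (l 16776768)) (b (l 3) (a (b (l 206863072743) (l 75866570055)) (l 203104965239)))) (a (l 16772936) (b (a (l 16771984) (b (l 108615695239) (l 16774800))) (l 16768112)))) (b (l 3) (a (b (a (l 210084297959) (l 3)) (a (l 47412411799) (b (l 194515031079) (l 98952018903)))) (l 3)))))) (a (b (l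 16764376) (l 16698264)) (b (a (b (l 16775696) (l 16742704)) (b (a (l 16775616) (b (a (b (a (l 152102232599) (l 3)) (l 16775728)) (l 228337908759)) (a (l 16771232) (b (l 89288342535) (l 16774048))))) (l 16770592))) (a (l 16724784) (l 16763272)))))), by decide +kernel⟩

def k14_pm_102_s : ∃ t, chk3 f_pm_102_s t 125 61 1 = true :=
  ⟨(b (l 3) (a (b (l 3) (a (b (a (b (a (b (l 3) (a (b (l 3) (a (l 16776864) (l 231022263815))) (l 3))) (l 3)) (a (b (a (l 16776488) (b (l 212231781831) (l 79624666391))) (l 16770064)) (b (l 3) (a (b (l 112373791591) (l 16774992)) (l 214916136119))))) (l 3)) (a (b (a (l 16771672) (b (a (l 16770560) (b (l 70497860951) (l 16773352))) (l 16777296))) (l 16774728)) (b (a (b (a (b (l 199346869239) (a (l 16776528) (l 144586046487))) (l 3)) (a (l 16773184) (b (a (l 154786587447) (l 3)) (l 61371055559)))) (l 202031227543)) (a (l 16777048) (b (a (b (a (l 16776184) (l 132238015591)) (l 16774328)) (b (l 3) (a (l 102710115623) (l 200420621767)))) (l 29158800663)))))) (b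 (l 3) (a (b (l 3) (a (b (l 3) (a (b (l 219211103623) (a (l 16775856) (l 156397200167))) (l 3))) (l 3))) (l 3))))) (l 3))), by decide +kernel⟩

def k15_pm_102_s : ∃ t, chk3 f_pm_102_s t 63 61 1 = true :=
  ⟨(l 3), by decide +kernel⟩

def k16_pm_102_s : ∃ t, chk3 f_pm_102_s t 124 62 1 = true :=
  ⟨(b (a (b (a (b (l 16602544) (l 6)) (l 16626280)) (a (l 6) (b (b (l 16596664) (l 6)) (l 6)))) (b (a (l 16704544) (b (l 16731120) (l 16687400))) (a (b (l 16628368) (b (a (l 6) (l 16621624)) (l 6))) (b (l 16665608) (l 16645144))))) (b (a (l 6) (a (l 6) (b (a (b (a (l 6) (l 16626040)) (l 6)) (b (l 16640688) (a (b (l 16629216) (l 6)) (l 16637008)))) (l 6)))) (l 6))), by decide +kernel⟩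

def k17_pm_102_s : ∃ t, chk3 f_pm_102_s t 250 124 1 = true :=
  ⟨(b (a (b (a (l 16757440) (b (l 16769776) (l 16748000))) (a (l 16714144) (l 16731528))) (b (a (b (a (b (a (l 16772600) (b (a (l 91435826375) (l 226727296535)) (l 16775312))) (l 16769000)) (b (a (l 220821716087) (l 3)) (a (b (a (l 16775552) (l 107541953799)) (l 16773752)) (b (l 204715578295) (a (l 16776808) (l 214916136551)))))) (a (l 16760592) (l 16273899111))) (b (l 3) (a (b (a (b (a (l 124721822871) (l 3)) (a (l 16775264) (l 96267664727))) (l 200420610711)) (a (l 16772136) (b (a (l 16776504) (l 141901691943)) (l 16774760)))) (b (l 3) (a (b (l 3) (a (l 113447533799) (l 3))) (l 3)))))) (a (b (l 16753784) (l 16743152)) (b (a (l 16776480) (b (a (b (l 61371055479) (l 16773296)) (b (l 228874779959) (a (l 16776224) (l 160692168375)))) (l 16776496))) (l 16769944))))) (a (b (l 16722864) (l 16682544)) (b (a (l 16727936) (l 16765432)) (a (l 16709352) (l 16726336))))), by decide +kernel⟩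

def k18_pm_102_s : ∃ t, chk3 f_pm_102_s t 251 248 1 = true :=
  ⟨(a (b (l 3) (a (b (a (b (l 3) (a (b (a (l 102173244727) (l 200957482199)) (l 16776968)) (l 228337908759))) (l 3)) (a (b (a (l 16771816) (b (a (l 16775976) (l 119889984711)) (l 16774328))) (l 16768592)) (b (a (b (l 3) (a (l 91972697319) (l 228337909255))) (l 3)) (a (l 16776864) (b (l 213305523655) (a (l 16775752) (l 109152566535))))))) (l 3))) (l 3)), by decide +kernel⟩

def k19_pm_102_s : ∃ t, chk3 f_pm_102_s t 251 249 1 = true :=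
  ⟨(a (b (a (b (l 16777040) (l 16755424)) (b (a (b (a (b (a (l 80698408391) (l 218674232919)) (l 16775320)) (b (l 3) (a (l 160155301751) (l 3)))) (a (l 16771696) (b (a (l 16775560) (l 98952019287)) (l 16774056)))) (b (l 3) (a (b (l 199346869223) (a (l 16776992) (l 209010556583))) (l 3)))) (a (l 16776960) (b (a (l 16776640) (b (a (l 116668759255) (l 3)) (a (l 16775416) (l 88751472055)))) (l 16771192))))) (a (l 16742360) (b (l 16771752) (l 16753296)))) (b (a (b (l 3) (a (b (l 198273131799) (a (b (a (l 16776472) (l 198810009319)) (l 16775072)) (b (l 3) (a (l 107005082919) (l 204178707623))))) (l 3))) (l 3)) (a (b (a (b (a (l 16771832) (b (a (l 16775312) (l 78550924775)) (l 16773984))) (l 16769312)) (b (a (b (l 226190425431) (a (l 16776320) (l 125258693783))) (l 3)) (a (l 16774008) (b (a (b (l 134922370215) (l 16776760)) (l 195051902183)) (a (l 16775256) (l 69424119319)))))) (l 16776512)) (b (a (b (l 3) (a (b (l 3) (a (l 208473685671) (l 3))) (l 3))) (l 3)) (a (b (a (b (a (l 16776208)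 (b (l 161229044775) (l 16776800))) (l 16775024)) (b (l 3) (a (b (l 158544684679) (l 16776632)) (l 228337909287)))) (a (l 16772312) (b (a (l 16775272) (l 10905190007)) (l 16774184)))) (b (l 3) (a (b (a (b (l 3) (l 156397205495)) (l 3)) (a (l 16776152) (b (l 167134621927) (l 16776984)))) (l 203104970391)))))))), by decide +kernel⟩

def k20_pm_102_s : ∃ t, chk3 f_pm_102_s t 125 250 1 = true :=
  ⟨(a (a (b (l 16665344) (a (b (b (l 16646048) (a (l 6) (l 16647504))) (a (l 6) (b (b (a (l 6) (l 598950792093823346153519)) (l 6)) (l 6)))) (b (l 16664048) (b (a (a (l 599142465293964243196975) (l 16656880)) (l 16664360)) (a (b (a (l 599027461373879705443375) (l 599264386743076423130159)) (l 16650520)) (a (b (l 16659776) (l 599429542748611361610799)) (l 16664152))))))) (b (a (l 16693272) (l 16710952)) (a (l 16680392) (l 16699112)))) (a (b (b (a (l 16730992) (l 16746200)) (l 16753456)) (a (l 16716784) (b (l 16735112) (l 16731448)))) (b (a (b (l 16759808) (l 16754008)) (b (a (l 16768728) (b (a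 (l 16774288) (b (a (b (l 105394470199) (l 16776544)) (l 216526749287)) (l 16776600))) (l 16772464))) (a (l 16763120) (l 16768440)))) (a (b (l 16749456) (l 16746336)) (b (a (l 16758832) (l 16764304)) (a (l 16756088) (l 16761776))))))), by decide +kernel⟩

def k21_pm_102_s : ∃ t, chk3 f_pm_102_s t 250 251 1 = true :=
  ⟨(b (a (a (l 6) (b (a (l 6) (b (b (a (l 16657008) (l 599600175131293182843951)) (l 16658256)) (l 16656192))) (l 6))) (a (b (b (a (b (l 16669912) (a (l 599776860351874190285871) (l 16671376))) (l 16679376)) (a (a (l 16664392) (b (l 599959598410354383920175) (l 16669224))) (b (l 16678008) (a (l 600148677537109958450223) (l 600378397146902840319023))))) (a (l 16663736) (b (a (l 16673072) (b (l 600344385962516936727599) (l 16678064))) (l 16674032)))) (b (l 16693208) (a (b (b (a (l 600573529111557590375471) (l 16689168)) (a (l 600547011916951599340591) (b (l 16688792) (l 600771543379973793193007)))) (l 600622816505879545846831)) (b (l 16696368) (b (a (b (l 16693440) (a (l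 600926899552719572884527) (l 16694568))) (l 16698392)) (a (l 600974169334408455576623) (b (l 601204177174577532394543) (a (l 601146242868971035499567) (l 601259229176422511811631)))))))))) (a (l 6) (a (l 599543970207943604050991) (b (a (l 16683432) (l 601060061986501669411887)) (l 600704097471954292366383))))), by decide +kernel⟩

def k22_pm_102_s : ∃ t, chk3 f_pm_102_s t 502 251 1 = true :=
  ⟨(b (a (b (l 16711936) (l 16710632)) (b (l 16729296) (l 16728872))) (a (b (a (b (a (b (b (l 601426979255342815747119) (a (l 16701904) (l 601486642943206222732335))) (l 16703104)) (b (l 16708248) (b (a (l 601603376245547671297071) (l 16709640)) (l 601666498697924941847599)))) (l 16705736)) (b (l 16715712) (b (a (a (l 601849236756405092408367) (b (l 16714968) (l 601967122980251148016687))) (l 16718800)) (a (l 16713992) (a (b (l 602093079654629451750447) (l 16718104)) (b (l 602117002775850049035311) (l 601791878911550918761519))))))) (l 601848083834900484643887)) (b (a (b (l 16725240) (a (b (l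 16723680) (a (b (l 16722968) (b (l 16723240) (l 602133431907290702601263))) (l 16725592))) (l 16728816))) (l 16735016)) (a (b (a (b (b (a (l 601805137508853903399983) (a (l 601952135000691280354351) (l 16726840))) (l 602049268637454406523951)) (l 16725704)) (a (b (a (b (l 16728072) (a (l 601965105367618112756783) (l 602049845098206717303855))) (l 16729520)) (l 601882959710414878055471)) (b (l 16731360) (b (b (l 16732016) (a (l 16731632) (l 16732904))) (l 16732592))))) (l 16729608)) (b (a (b (l 16734960) (a (b (l 16734608) (a (b (a (l 16734120) (l 16734744)) (l 16734680)) (a (b (l 16735368) (l 16735656)) (l 16736120)))) (l 16737328))) (l 16740272)) (a (b (a (l 16735928) (b (a (b (a (l 16737208) (l 16737832)) (l 16737784)) (b (l 16738760) (a (l 16738768) (l 16739400)))) (l 16738832))) (l 16738328)) (a (b (b (l 16740752) (b (a (a (l 16740344) (l 16740976)) (l 16741904)) (a (l 16740944) (a (l 16741928) (l 16742576))))) (l 16742344)) (b (l 16743520) (b (b (a (l 16743856) (l 16745104))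 (l 16744824)) (l 16745312)))))))))), by decide +kernel⟩

def k23_pm_102_s : ∃ t, chk3 f_pm_102_s t 503 251 1 = true :=
  ⟨(a (b (b (l 16744880) (l 16745328)) (b (l 16747968) (a (b (l 16747160) (a (b (l 16747080) (b (a (a (b (l 16746320) (c (l 16753152) (l 16740312))) (l 16747728)) (l 16749512)) (b (a (a (l 16747112) (a (l 16748064) (l 16748680))) (l 16750184)) (a (l 16748112) (a (a (l 16749720) (l 16750336)) (l 16751240)))))) (l 16752576))) (l 16757496)))) (b (b (a (l 16755112) (l 16761112)) (a (l 16756192) (l 16762584))) (b (a (l 16759616) (l 16766520)) (a (l 16765760) (l 16773312))))), by decide +kernel⟩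

def k24_pm_102_s : ∃ t, chk3 f_pm_102_s t 126 124 1 = true :=
  ⟨(l 3), by decide +kernel⟩

def k25_pm_102_s : ∃ t, chk3 f_pm_102_s t 252 250 1 = true :=
  ⟨(a (b (a (b (a (b (a (b (l 3) (a (b (l 237464714871) (l 97878277463)) (l 3))) (l 3)) (a (b (a (l 16776152) (b (l 131164273831) (l 16776888))) (l 16775256)) (b (l 238538456263) (a (b (l 91435826551) (l 16776520)) (l 207399943847))))) (l 3)) (a (b (a (l 16773232) (l 16776680)) (l 16771944)) (b (a (b (a (b (l 158007819303) (l 16776840)) (l 3)) (a (l 16776216) (b (l 118816242919) (l 16776840)))) (l 236390972295)) (a (l 16774952) (b (a (l 16776840) (b (l 3) (l 112373792007))) (l 16776176)))))) (b (l 3) (a (b (l 3) (a (b (l 3) (a (b (l 146196659287) (l 16775784)) (l 202031223959))) (l 3))) (l 3)))) (a (b (a (l 16769072) (l 16773056)) (a (l 16766744) (l 16770880))) (b (a (b (a (b (a (l 16776368) (b (l 106468212007) (l 16776856))) (l 16775864)) (b (l 226190425399) (a (l 16776872) (l 123111210119)))) (l 16775464)) (b (l 3) (a (b (a (b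 (l 134385499287) (l 16777080)) (l 238538456519)) (a (l 16776616) (l 67276635575))) (b (l 3) (a (l 209547427463) (l 3)))))) (a (l 16774104) (b (a (l 16776152) (b (a (l 16776984) (l 115058146503)) (l 16776792))) (l 16776120)))))) (b (l 3) (a (b (l 3) (a (b (a (b (l 3) (a (b (l 122574339287) (l 16777136)) (l 229411651063))) (l 3)) (a (b (a (l 16776984) (l 16776512)) (l 16777000)) (b (a (b (l 3) (l 117205630199)) (l 3)) (a (l 16777184) (b (l 166597750967) (l 16775896)))))) (l 3))) (l 3)))), by decide +kernel⟩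

def k26_pm_102_s : ∃ t, chk3 f_pm_102_s t 252 251 1 = true :=
  ⟨(a (b (a (b (a (l 16766344) (l 16770728)) (a (l 16768192) (l 16772928))) (b (a (l 16774152) (l 16776504)) (a (l 16776656) (l 16776792)))) (a (b (a (l 16772632) (l 16776600)) (a (l 16776640) (l 16776688))) (b (a (l 16776688) (l 16776800)) (a (l 16776768) (l 16776872))))) (b (a (b (a (l 16776872) (b (a (b (a (b (l 111836921095) (l 16777200)) (l 222432329271)) (l 16776520)) (b (l 3) (a (b (l 200420621879) (l 106468212007)) (l 3)))) (a (l 16777112) (b (a (l 16777184) (b (l 139754208375) (l 16775896))) (l 16777160))))) (a (l 16776928) (l 16774432))) (b (a (b (l 3) (a (b (l 200420610967) (a (l 72108473703) (l 214379265639))) (l 3))) (l 3)) (a (b (a (l 16776512) (b (a (l 119353113751) (l 3)) (a (l 16777192) (b (l 129553661095) (l 16777208))))) (l 16777144)) (b (l 198273131655) (a (b (a (l 64592280951) (l 206326202007)) (l 16775888)) (b (l 3) (a (b (l 158544690199) (l 16776568)) (l 3)))))))) (a (b (a (l 16776920) (l 16777032))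 (a (l 16776984) (l 16777088))) (b (a (l 16777128) (b (a (l 16777184) (b (a (l 16777208) (b (l 119889984727) (l 16777216))) (l 16777200))) (l 16777200))) (a (l 16777168) (l 16777232)))))), by decide +kernel⟩

def k27_pm_102_s : ∃ t, chk3 f_pm_102_s t 253 125 1 = true :=
  ⟨(b (l 3) (a (b (l 3) (a (b (a (b (a (b (l 233169747175) (a (l 16776560) (b (l 3) (l 114521275639)))) (l 3)) (a (l 16775904) (b (a (b (l 148344142919) (l 16775912)) (l 3)) (a (l 16777224) (b (l 110226308359) (l 16777224)))))) (b (l 3) (a (l 232632875943) (l 3)))) (a (l 16775960) (b (a (b (a (l 16775920) (l 126332435559)) (l 16777240)) (b (l 3) (a (b (l 139217337463) (l 16775920)) (l 198273127591)))) (a (l 16777280) (b (a (l 16777240) (b (l 101099502887) (l 16777232))) (l 16777264)))))) (b (l 3) (a (b (l 3) (a (b (l 222432329031) (a (l 16775928) (b (l 192367547767) (l 96804535623)))) (l 3))) (l 3))))) (l 3))), by decide +kernel⟩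

def k28_pm_102_s : ∃ t, chk3 f_pm_102_s t 127 62 1 = true :=
  ⟨(l 3), by decide +kernel⟩

def k29_pm_102_s : ∃ t, chk3 f_pm_102_s t 124 126 1 = true :=
  ⟨(l 6), by decide +kernel⟩

def k30_pm_102_s : ∃ t, chk3 f_pm_102_s t 250 126 1 = true :=
  ⟨(l 6), by decide +kernel⟩

def k31_pm_102_s : ∃ t, chk3 f_pm_102_s t 502 252 1 = true :=
  ⟨(a (b (l 601998540091251687857199) (l 6)) (b (a (l 602370357276487434869807) (b (b (l 16742968) (l 16746080)) (l 602834696412467875650607))) (l 603297161874669138947311))), by decide +kernel⟩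

def k32_pm_102_s : ∃ t, chk3 f_pm_102_s t 1006 504 1 = true :=
  ⟨(b (b (a (a (a (l 16749784) (b (b (b (a (l 16750424) (a (l 16751384) (l 16752008))) (l 16751448)) (l 16752040)) (l 16753288))) (b (a (b (a (b (l 16752912) (a (l 16753072) (l 16753688))) (l 16754344)) (a (l 16754000) (a (l 16754976) (b (l 16755392) (l 16755832))))) (b (l 16756120) (a (b (l 16756296) (a (l 16756480) (l 16757104))) (l 16757744)))) (b (a (l 16755504) (a (l 16757464) (a (l 16758432) (b (l 16758840) (l 16759304))))) (l 16757720)))) (a (b (l 16760128) (a (b (b (a (l 16759744) (l 16760936)) (a (l 16760272) (a (l 16761200) (l 16761800)))) (l 16761640)) (b (l 16762976) (a (b (a (l 16762968) (l 16763568)) (l 16763808)) (a (b (l 16764160) (l 16771304)) (l 16765040)))))) (l 16765816))) (b (a (l 16756448) (a (l 16764464) (a (b (b (a (a (l 16766544) (l 16767152)) (l 16768032)) (a (l 16767416) (a (l 16768360) (l 16768968)))) (l 16768888)) (b (l 16770096) (a (a (l 16770488) (b (l 16772112) (l 16771408))) (b (l 16771680)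 (b (l 16772192) (l 16772504)))))))) (a (l 16758440) (l 16769328)))) (b (a (l 16761736) (l 16773088)) (a (l 16766768) (a (l 16775824) (l 16781664))))), by decide +kernel⟩

def k33_pm_102_s : ∃ t, chk3 f_pm_102_s t 1007 504 1 = true :=
  ⟨(a (b (b (l 16772392) (a (b (l 16774184) (b (b (a (a (a (l 16773912) (a (l 16774376) (l 16774680))) (l 16775408)) (l 16776752)) (a (a (l 16774840) (a (l 16775792) (l 16776408))) (a (c (l 16774200) (l 16771744)) (l 16776752)))) (b (a (l 16776112) (a (l 16771792) (b (l 16776776) (l 16772904)))) (l 16772464)))) (b (l 16776736) (a (b (l 16776752) (a (a (b (l 16776760) (a (l 16776864) (l 16776824))) (l 16776792)) (l 16776760))) (l 16776760))))) (b (a (l 16758880) (b (b (b (a (a (l 16777128) (a (a (l 16776896) (l 16776840)) (l 16776808))) (l 16776768)) (a (l 16777400) (a (b (l 16776816) (l 16771672)) (l 16776784)))) (a (l 16778104) (a (l 16777480) (b (b (l 16776840) (l 16776952)) (l 16777296))))) (l 16758120))) (b (a (a (l 16762096) (l 16761240)) (l 16759960))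 (a (l 16763496) (l 16761784))))) (b (l 16776720) (b (b (a (a (b (l 16776768) (a (b (l 16776792) (a (l 16776984) (a (l 16776872) (l 16776832)))) (l 16776808))) (l 16776776)) (l 16776768)) (a (b (a (b (b (a (l 16777232) (a (l 16776920) (l 16776816))) (l 16777248)) (l 16777600)) (b (l 16776824) (b (a (a (l 16776968) (l 16776840)) (l 16776792)) (a (l 16777096) (l 16776840))))) (a (l 16778296) (a (l 16777680) (a (l 16777368) (a (l 16777200) (b (l 16776904) (l 16777344))))))) (a (b (l 16776784) (b (a (a (a (l 16776864) (l 16776832)) (l 16776808)) (l 16776800)) (a (l 16774456) (a (a (l 16776880) (l 16776848)) (l 16776824))))) (l 16776792)))) (a (l 16759200) (b (b (a (l 16772304) (a (b (a (a (l 16776912) (l 16776872)) (l 16776840)) (l 16777184)) (a (b (l 16776808) (a (l 16776952) (l 16776896))) (l 16776856)))) (l 16778080)) (l 16758456)))))), by decide +kernel⟩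

def k34_pm_102_s : ∃ t, chk3 f_pm_102_s t 503 505 1 = true :=
  ⟨(a (a (b (l 603168755418427715509295) (l 603779227355117031316527)) (b (b (l 603002446491388187827247) (l 602927794823964888669231)) (l 603371669603238516399151))) (a (b (b (a (l 16761592) (l 16762808)) (a (l 16758768) (l 16760000))) (a (l 603071910012040740150319) (b (l 16757296) (l 16765176)))) (b (b (b (a (l 16761896) (l 16760248)) (a (l 16763296) (l 16762008))) (a (l 16761208) (l 16762384))) (b (a (l 16758512) (l 16759704)) (a (l 16766416) (l 16767616)))))), by decide +kernel⟩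

def k35_pm_102_s : ∃ t, chk3 f_pm_102_s t 251 253 1 = true :=
  ⟨(a (l 6) (a (l 6) (b (a (b (l 603535096226516531960879) (l 6)) (b (a (l 603614647810334451260463) (l 603496473356112251968559)) (l 603702846305436867140655))) (l 6)))), by decide +kernel⟩

def k36_pm_102_s : ∃ t, chk3 f_pm_102_s t 62 127 1 = true :=
  ⟨(l 6), by decide +kernel⟩

def k37_pm_102_s : ∃ t, chk3 f_pm_102_s t 252 504 1 = true :=
  ⟨(a (a (b (a (l 16776720) (l 16776776)) (a (b (l 16776792) (b (a (b (l 16776824) (a (a (b (b (l 16776872) (l 16776968)) (l 16777296)) (b (l 16776840) (b (l 16776896) (l 16777016)))) (l 16776864))) (l 16776848)) (a (a (l 16778224) (b (a (a (l 16777264) (b (a (l 16776944) (l 16776904)) (l 16777312))) (b (l 16776888) (a (l 16777104) (a (l 16776984) (l 16776936))))) (l 16777880))) (b (a (l 16776912) (l 16776880)) (a (a (b (b (l 16775680) (l 16777184)) (l 16777520)) (b (l 16776608) (c (l 16774520) (l 16775816)))) (a (a (b (l 16776888) (l 16776960)) (l 16776912)) (l 16776904))))))) (l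 16776888))) (b (a (l 16776856) (l 16776960)) (a (l 16776976) (l 16777088)))) (a (b (a (l 16777072) (l 16777176)) (a (l 16777208) (l 16777320))) (b (a (l 16777264) (l 16777336)) (a (l 16777432) (l 16777528))))), by decide +kernel⟩

def k38_pm_102_s : ∃ t, chk3 f_pm_102_s t 504 1010 1 = true :=
  ⟨(a (a (b (b (a (l 16758632) (a (l 16778432) (b (a (l 16772152) (b (b (l 16776936) (l 16775688)) (l 16777248))) (l 16778104)))) (l 16759600)) (a (b (l 16762120) (l 16762832)) (b (l 16760544) (l 16762240)))) (a (a (b (b (b (a (b (l 16776928) (b (l 16776960) (l 16775720))) (l 16776936)) (a (l 16777528) (b (a (l 16776736) (l 16777000)) (l 16777376)))) (l 16778648)) (l 16760240)) (b (b (b (l 16776952) (a (b (l 16776968) (a (l 16777112) (l 16777032))) (l 16776992))) (b (a (l 16777656) (a (l 16772120) (b (l 16777072) (l 16777408)))) (l 16778336))) (l 16759488))) (b (b (l 16777000) (b (a (a (b (l 16777032) (a (l 16777224) (l 16776448))) (l 16777056)) (l 16777040)) (a (a (l 16777784) (a (l 16777496)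 (b (l 16777152) (l 16777544)))) (b (l 16777104) (a (a (l 16777360) (l 16777200)) (l 16777128)))))) (b (b (a (l 16778456) (b (a (l 16777696) (l 16777328)) (l 16777936))) (l 16778936)) (l 16759224))))) (b (l 16777160) (a (b (a (a (b (a (b (a (l 16777168) (l 16777128)) (l 16777392)) (a (b (l 16777120) (l 16777208)) (l 16777160))) (l 16777840)) (b (l 16777152) (a (b (a (l 16777248) (l 16777200)) (l 16777536)) (a (b (l 16777176) (l 16777304)) (l 16777232))))) (l 16777224)) (a (l 16757784) (a (b (a (b (a (l 16777360) (l 16777280)) (l 16777680)) (b (l 16777248) (a (l 16777416) (l 16777328)))) (l 16778128)) (b (l 16777296) (a (a (l 16777680) (b (l 16777376) (l 16777736))) (b (l 16777336) (a (l 16777560) (l 16777424)))))))) (a (b (l 16777272) (a (b (l 16777304) (l 16777376)) (l 16777352))) (l 16777376))))), by decide +kernel⟩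

def k39_pm_102_s : ∃ t, chk3 f_pm_102_s t 504 1011 1 = true :=
  ⟨(b (b (a (a (l 16772544) (a (l 16762368) (l 16760872))) (a (l 16769216) (a (b (a (b (a (l 16777552) (l 16777416)) (l 16777776)) (b (l 16777392) (a (c (l 16777464) (l 16777456)) (l 16777416)))) (b (a (l 16778192) (a (l 16777688) (a (l 16777512) (l 16777472)))) (l 16778256))) (a (b (l 16777440) (a (a (b (l 16777448) (l 16777560)) (l 16777504)) (l 16777480))) (l 16777496))))) (a (a (l 16771240) (l 16762856)) (a (a (l 16761048) (l 16759648)) (a (l 16758288) (a (a (l 16778440) (b (b (a (l 16777624) (l 16777560)) (l 16777920)) (l 16778512))) (a (b (b (l 16777536) (a (l 16777680) (l 16777608))) (l 16778192)) (b (l 16777576) (a (l 16777936) (b (l 16777664) (l 16777992)))))))))) (b (a (a (l 16769968) (l 16772080)) (a (b (l 16761536) (l 16762320)) (l 16769688))) (a (a (l 16768720) (l 16770856)) (a (l 16772792) (a (l 16761408) (l 16760088)))))), by decide +kernel⟩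

def k40_pm_102_s : ∃ t, chk3 f_pm_102_s t 505 505 1 = true :=
  ⟨(a (b (a (l 16777416) (l 16777552)) (b (a (b (l 16777592) (a (b (l 16777608) (a (a (b (l 16777632) (a (l 16777824) (l 16777720))) (l 16777672)) (l 16777664))) (l 16777704))) (l 16777784)) (a (b (a (b (a (a (l 16778336) (a (l 16778096) (b (l 16777776) (l 16778144)))) (b (l 16777744) (a (l 16777904) (l 16777784)))) (a (l 16778952) (l 16777000))) (a (b (l 16777752) (b (a (a (l 16777832) (l 16777800)) (l 16777792)) (a (l 16778056) (a (l 16777888) (l 16777848))))) (l 16777816))) (a (l 16758816) (b (a (l 16778472) (b (a (a (l 16777944) (l 16777904)) (l 16777880)) (a (l 16778224) (a (l 16778008) (l 16777952))))) (l 16778936)))) (a (b (l 16777872) (b (l 16777960) (a (a (a (l 16778256) (b (l 16778008) (l 16778304))) (b (l 16777992) (a (l 16778152) (l 16778072)))) (l 16778048)))) (l 16778000))))) (b (a (l 16777688) (l 16777808)) (a (l 16778024) (l 16778168)))), by decide +kernel⟩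

def k41_pm_102_s : ∃ t, chk3 f_pm_102_s t 252 253 1 = true :=
  ⟨(b (a (a (b (b (a (l 603510308414167540145199) (a (l 16768544) (l 16769576))) (l 603657882366757171158063)) (a (l 603594759914379937324079) (l 603543166677048785542191))) (a (b (b (a (l 16770552) (l 16771488)) (l 603509443723039045901359)) (l 603881837369027051068463)) (b (b (a (l 16772368) (l 16772816)) (l 603489555827084581493807)) (l 603855608404797249133615)))) (b (a (a (b (b (l 16770168) (l 603578619013315462553135)) (l 603671429194436314897967)) (b (a (b (b (a (l 16778784) (b (a (a (l 16778232) (l 16778128)) (l 16778096)) (a (l 16778536) (c (l 16778248) (l 16777600))))) (l 16779224)) (l 16759336)) (b (b (a (l 16777824) (l 16778152)) (b (a (a (l 16778328) (l 16778208)) (l 16778192)) (a (l 16778536) (a (a (l 16778264) (l 16778232)) (l 16778224))))) (b (a (l 16779088) (b (a (l 16778480) (a (l 16778320) (l 16778288))) (l 16778704))) (l 16779520)))) (l 603677770262711650803247))) (a (b (a (b (l 16778240) (a (b (a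 (a (b (l 16778272) (l 16778392)) (l 16778336)) (l 16778320)) (b (a (l 16778656) (c (l 603681229027225507356207) (l 603655864754124156739119))) (l 16778872))) (b (l 16778344) (b (l 16778400) (a (c (l 603666241047665618476591) (l 603641165004940419571247)) (l 16778448)))))) (l 16778376)) (b (a (b (a (l 16779392) (b (a (l 16778816) (l 603686128943620086734383)) (l 16779032))) (l 16779808)) (a (b (a (b (l 16778504) (l 603813238539502991744559)) (l 16778552)) (l 603668258660298681458223)) (b (l 16778544) (a (l 603801421094080771726895) (l 603892790123320864251439))))) (l 603755880694648761540143))) (b (l 16778496) (a (b (l 16778640) (a (b (a (l 603842349807494315056687) (l 603956777266826544487983)) (l 16779328)) (b (l 16778760) (l 603918154396422215491119)))) (l 16778824))))) (a (b (l 603724175353272075509295) (l 603577466091810850397743)) (a (l 603856761326301865008687) (b (a (l 603386945813174571343407) (b (a (b (l 603887601976550134308399) (l 16779648)) (b (l 16779008) (l 603952165580808118017583)))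 (l 16769864))) (l 603616088962215186128431)))))) (a (b (a (l 604047281604938140703791) (l 603950724428927326133295)) (a (l 6) (l 603893943044825443359791))) (a (b (l 603905472259871514648111) (l 603868722695253555719791)) (b (l 603915127848279986335343) (l 603788594698512141774447))))), by decide +kernel⟩

def k42_pm_102_s : ∃ t, chk3 f_pm_102_s t 506 252 1 = true :=
  ⟨(b (a (b (a (l 16777392) (l 16777392)) (a (l 16777608) (l 16777632))) (b (a (b (a (l 16774664) (b (a (b (l 130627402903) (l 16775920)) (l 235854101959)) (a (l 16777264) (b (l 92509568343) (l 16777240))))) (l 16777368)) (b (a (b (l 3) (a (b (l 3) (l 126332435639)) (l 3))) (l 3)) (a (b (a (l 16775944) (b (l 160155302919) (l 88214601063))) (l 16777288)) (b (l 3) (a (b (l 122037468359) (l 16775928)) (l 228337909223)))))) (a (l 16772328) (b (a (l 16777400) (b (a (l 16777288) (b (l 83919633783) (l 16777256))) (l 16777344))) (l 16777520))))) (a (b (a (l 16777904) (l 16777952)) (a (l 16778296) (l 16778368))) (b (a (l 16777920)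 (l 16772568)) (a (l 16778360) (l 16773024))))), by decide +kernel⟩

def k43_pm_102_s : ∃ t, chk3 f_pm_102_s t 507 252 1 = true :=
  ⟨(b (a (b (l 3) (a (b (a (b (a (b (l 3) (l 117742501079)) (l 3)) (a (l 16775952) (b (l 151565368359) (l 80161537399)))) (l 3)) (a (l 16774744) (b (a (b (l 113984404711) (l 16775944)) (l 222432329239)) (a (l 16777320) (b (l 76403441031) (l 16777272)))))) (b (l 3) (a (b (l 3) (a (b (l 3) (l 110226308343)) (l 3))) (l 3))))) (l 3)) (a (b (a (l 16776296) (b (a (b (a (l 16775976) (b (l 144049175639) (a (l 16777248) (l 16777016)))) (l 16777352)) (b (l 203641841623) (a (b (a (l 16775912) (l 149954756055)) (l 16774640)) (b (l 3) (l 140291079271))))) (a (l 16772280) (a (l 16772168) (b (b (a (l 16777256) (l 16777024)) (l 16777296)) (l 16777392)))))) (a (l 16775472) (l 16776528))) (b (a (b (l 3) (a (b (a (b (l 198273127767) (a (l 16775920) (l 145122917863))) (l 3)) (a (l 16775992) (b (l 136532982903) (a (l 16777264) (l 16777032))))) (l 200957486711))) (l 3)) (a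 (b (a (l 16774832) (b (a (b (a (l 16775920) (l 139754208759)) (l 16774656)) (b (l 3) (l 133311757447))) (a (l 16777384) (b (a (l 16777272) (l 16777040)) (l 16777320))))) (l 16775024)) (b (a (b (l 3) (a (b (l 233706618471) (a (l 16775928) (l 134922370567))) (l 3))) (l 3)) (a (b (a (l 16774704) (b (a (l 108078825063) (l 3)) (a (l 16777280) (l 16777040)))) (l 16772176)) (b (l 194515036183) (a (b (a (l 16775928) (l 130090532375)) (l 16774672)) (b (l 3) (a (l 103246986855) (l 180019527015))))))))))), by decide +kernel⟩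

def k44_pm_102_s : ∃ t, chk3 f_pm_102_s t 253 253 1 = true :=
  ⟨(a (b (a (b (l 603916568956455171944047) (a (b (b (l 603867714080595666345519) (a (a (l 604039499384782082137647) (b (l 604245295873354408910383) (l 603892790123320865971759))) (l 603949283277046601178671))) (a (l 16775976) (b (b (a (l 604336088441842198928943) (l 604372693699613465992751)) (l 603639291518971589144175)) (l 16770416)))) (b (l 16779296) (b (a (l 603699243426834502004335) (l 16779544)) (a (b (a (l 604468530304837871857263) (l 603743342672942606495343)) (l 16775080)) (b (l 16779664) (l 144110137197035631))))))) (b (a (l 16778880) (l 16773568)) (l 603798682901590319148655))) (b (a (b (a (l 603862381676043908197999) (b (a (l 16770664) (b (a (l 16780264) (l 144108900249354351)) (l 16780600))) (l 16776544))) (l 603859787603277037579887)) (b (a (b (a (b (l 16779880) (a (l 144108762810630255) (l 16779976))) (l 16779904)) (a (b (l 144110824392786031) (l 16780840)) (b (l 144109243847000175) (a (l 144110343359037551)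 (l 144109518725087343))))) (l 16779968)) (a (b (a (l 16771088) (l 144113916767469679)) (l 16779040)) (b (a (b (l 144110274639544431) (a (l 144111717749031023) (l 144110549517631599))) (l 16780232)) (a (l 144115153713119343) (b (l 144111167990415471) (a (l 16778112) (l 144111580310126703)))))))) (a (l 144083336591917167) (a (l 144048358369788015) (l 144080931419177071))))) (b (a (b (a (l 16773416) (l 16775808)) (a (l 16776696) (l 16776488))) (b (a (l 16777464) (b (a (l 16772416) (b (a (l 16772168) (b (a (l 16777288) (l 16777048)) (l 16777336))) (l 16772280))) (l 16772648))) (a (l 16777504) (b (l 16773016) (l 16773312))))) (a (b (a (l 16777432) (l 16777248)) (b (a (b (a (b (l 144111923907002479) (a (l 16780944) (l 144112404933443695))) (l 16780552)) (a (l 16770848) (b (a (l 144112748530991215) (l 16780688)) (l 144068974234091631)))) (a (l 144112267499651183) (l 16769960))) (a (l 144121613332873327) (b (a (b (a (l 144113367006593135) (l 144112473653198959)) (l 144114535243219055)) (b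 (l 16780720) (l 144112473658376303))) (a (l 16780776) (b (a (l 144113710603812975) (l 144112679811367023)) (l 144114741395669103))))))) (b (a (l 144111855180759151) (b (l 16773592) (l 16773848))) (a (b (l 16774768) (a (b (l 16769888) (b (l 16780456) (a (l 144112748530565231) (l 16780416)))) (l 16769576))) (l 16778784)))))), by decide +kernel⟩

def k45_pm_102_s : ∃ t, chk3 f_pm_102_s t 254 252 1 = true :=
  ⟨(l 3), by decide +kernel⟩

def k46_pm_102_s : ∃ t, chk3 f_pm_102_s t 508 506 1 = true :=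
  ⟨(a (b (a (b (a (b (a (b (l 225116683911) (a (l 16775936) (l 125258694183))) (l 3)) (a (l 16774728) (b (a (l 98952019575) (l 175187688503)) (a (l 16777296) (l 16777048))))) (b (l 3) (l 234243488951))) (a (l 16774904) (b (a (b (a (l 16775936) (l 120963726903)) (l 16774680)) (b (l 3) (a (l 94120181383) (l 193978165847)))) (a (l 16772176) (b (a (l 16777288) (l 16777056)) (l 16777336)))))) (b (l 3) (a (b (l 3) (a (b (l 217600491175) (a (l 16775936) (l 116668759623))) (l 3))) (l 3)))) (a (b (l 16775088) (l 16775376)) (b (a (b (a (l 16774712) (b (a (b (l 125795565143) (l 16777224)) (l 165524012439)) (a (l 16777288) (l 16777056)))) (l 16772184)) (b (a (b (l 3) (a (l 138680466935) (l 3))) (l 3)) (a (b (a (l 16775936) (b (l 156934077959) (l 16776872))) (l 16777296)) (b (l 3) (a (b (l 119889985111) (l 16777232)) (l 161229045159)))))) (a (l 16772384) (b (b (a (l 16777368) (a (l 16777288) (l 16777064))) (l 16772136)) (l 16772232)))))) (b (l 3) (a (b (l 3) (a (b (a (b (a (l 134922370567) (l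 3)) (a (l 16775936) (b (l 151565368855) (l 16776880)))) (l 3)) (a (l 16774704) (b (a (b (l 114521276007) (l 16777232)) (l 157470948791)) (a (l 16777280) (l 16777064))))) (b (l 3) (a (b (l 3) (a (l 130627403287) (l 3))) (l 3))))) (l 3)))), by decide +kernel⟩

def k47_pm_102_s : ∃ t, chk3 f_pm_102_s t 508 507 1 = true :=
  ⟨(a (b (a (b (l 16773016) (l 16773264)) (b (l 16775152) (l 16775384))) (a (b (l 16773488) (l 16773696)) (b (l 16775592) (l 16775784)))) (b (a (b (a (l 16774832) (b (a (b (a (l 16775936) (b (l 146196659751) (l 16776880))) (l 16777288)) (b (l 3) (a (b (l 108615695991) (l 16777232)) (l 153712852423)))) (b (a (l 16777344) (a (l 16777280) (l 16777064))) (l 16774736)))) (l 16776928)) (b (a (b (l 3) (a (b (a (b (l 180019527127) (l 106468212343)) (l 3)) (a (l 16775936) (b (l 140827950631) (l 16776880)))) (l 204178712807))) (l 3)) (a (b (a (l 16774688) (b (a (b (l 103783857783) (l 16777232)) (l 149954756055)) (a (l 16777272) (l 16777064)))) (l 16774752)) (b (a (b (l 3) (a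 (b (l 173040205271) (l 101099503239)) (l 3))) (l 3)) (a (b (a (l 16777248) (b (l 135996112439) (l 16776888))) (l 16777280)) (b (l 201494358455) (a (b (l 98415148679) (l 16777232)) (l 146196659671)))))))) (a (b (l 16776472) (l 16776648)) (b (a (l 16774888) (a (l 16774768) (b (b (a (l 16777272) (l 16777064)) (l 16777296)) (l 16777360)))) (a (l 16777680) (l 16774896)))))), by decide +kernel⟩

def k48_pm_102_s : ∃ t, chk3 f_pm_102_s t 509 253 1 = true :=
  ⟨(b (l 3) (a (b (l 3) (a (b (a (b (a (b (a (a (a (l 91972697751) (l 119889985111)) (l 152102239751)) (l 3)) (a (l 16777248) (b (l 130627403335) (l 16776888)))) (l 199883748151)) (a (l 16777296) (b (a (a (l 16776576) (b (l 133311757927) (l 16777224))) (b (l 3) (l 128479919687))) (a (l 16777264) (l 3388997335))))) (b (l 3) (a (b (l 3) (a (a (b (l 156397207095) (l 16777216)) (l 147807272455)) (l 3))) (l 3)))) (a (l 16776064) (b (a (b (a (l 16777240) (b (l 125795565127) (l 16776888))) (l 16777264)) (b (l 192904426503) (a (a (l 16776576)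 (b (l 126332436071) (l 16777224))) (a (b (l 3) (l 99488890679)) (l 180019527095))))) (a (l 16777320) (b (a (l 16777264) (b (l 16776888) (l 16777240))) (l 16777280)))))) (b (l 3) (a (b (l 3) (a (b (a (a (b (l 149954756167) (l 16777216)) (l 143512305175)) (l 3)) (a (l 16777240) (b (a (l 96267665207) (l 173040205351)) (l 16776888)))) (b (l 3) (l 234243489367)))) (l 3))))) (l 3))), by decide +kernel⟩

def k49_pm_102_s : ∃ t, chk3 f_pm_102_s t 255 126 1 = true :=
  ⟨(l 3), by decide +kernel⟩

def k50_pm_102_s : ∃ t, chk3 f_pm_102_s t 126 254 1 = true :=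
  ⟨(a (b (a (b (a (l 6) (a (l 6) (l 603593174580653236956271))) (l 6)) (a (a (b (l 603592598149037995830895) (l 6)) (b (l 603578762938219320651375) (l 144010012899754095))) (a (b (l 603551381078048556740207) (l 144037500694167663)) (b (l 143974210056044655) (l 144063201776418927))))) (a (l 6) (a (l 6) (b (b (l 144053855930892399) (l 144058666294231151)) (b (c (l 144066019279175791) (l 144065194645897327)) (l 6)))))) (a (b (b (a (l 144096462014136431) (l 144060040689582191)) (a (c (l 144099279511142511) (l 144097424085516399)) (l 144114810111901807))) (b (a (a (l 144095980970033263) (l 144105945297141871)) (l 144115566033076335)) (b (a (l 144122231813554287) (l 144064370009571439)) (a (l 144117833769058415) (l 144101684688126063))))) (b (a (b (l 144082237087694959) (b (l 144042311066271855) (l 144087734641066095))) (b (b (a (b (a (b (a (l 16780552) (l 144112748535660655)) (l 16780432)) (b (l 16780192) (a (l 144112748535382127) (l 16780144)))) (a (l 16780344) (a (l 16780256) (b (l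 144112679815659631) (l 16780160))))) (b (l 16779696) (a (b (l 16779920) (a (l 144112542376444015) (l 16779880))) (l 16779624)))) (a (l 144117421465059439) (b (a (a (l 16780048) (b (l 144112336217768047) (l 16779944))) (b (l 144112198778273903) (a (l 144112611100819567) (l 144112748539379823)))) (a (l 16780048) (l 144101890861138031))))) (a (l 144073372270559343) (l 144067393675673711)))) (a (b (b (l 144085535608356975) (l 144080587807998063)) (b (l 144072547631890543) (l 144066843913977967))) (a (b (l 144087459755966575) (a (l 144069798847873135) (l 144057223181975663))) (b (c (l 144077976476958831) (l 144079694463713391)) (b (l 144061689947226223) (a (l 144048152207982703) (l 144043341843234927))))))))), by decide +kernel⟩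

def k51_pm_102_s : ∃ t, chk3 f_pm_102_s t 252 255 1 = true :=
  ⟨(l 6), by decide +kernel⟩

def k52_pm_102_s : ∃ t, chk3 f_pm_102_s t 506 255 1 = true :=
  ⟨(b (b (b (a (a (l 6) (b (l 144092201418866799) (b (l 144134326453715055) (a (l 6) (l 144144153340723311))))) (a (l 144102784201392239) (l 144079075985408111))) (a (l 144119483038433391) (b (a (b (a (b (l 144103402677649519) (l 144149032431714415)) (l 144111786456055919)) (l 144120238950678639)) (b (l 144115016270151791) (a (b (l 144118658403401839) (l 144095637378547823)) (l 144104845785432175)))) (a (l 144057566787256431) (b (a (l 144120238951743599) (a (l 144107250989121647) (b (l 144098867211108463) (l 16777384)))) (l 144024787597328495)))))) (a (l 6) (l 144079557020762223))) (l 6)), by decide +kernel⟩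

def k53_pm_102_s : ∃ t, chk3 f_pm_102_s t 1014 510 1 = true :=
  ⟨(a (b (b (l 144056810869964911) (b (l 144044029044752495) (b (a (b (l 144089177762644079) (a (l 144090964469497967) (l 144083817642311791))) (l 16778688)) (a (l 144066088018378863) (b (a (l 144064438748037231) (l 144068905512501359)) (a (l 16780096) (c (l 144067806000906351) (l 144067668561363055)))))))) (l 144050145079738479)) (b (b (l 144036401180622959) (b (l 144044303917531247) (a (b (l 144064232586887279) (a (b (l 16778600) (c (l 144060590454243439) (l 144060384295223407))) (l 16776496))) (l 144027673822101615)))) (b (b (a (b (a (l 144061071490400367) (b (b (l 144052275395428463) (l 144051931797946479)) (l 16776240))) (l 144060040698036335)) (b (b (a (l 144045472165707887) (l 16774752)) (b (a (a (l 144045884482666607) (l 144042036191101039)) (l 144037294546124911)) (a (l 16775312) (a (l 144037981741056111) (l 144034339608002671))))) (l 144030903635886191))) (l 144034270872010863)) (l 144029666670624879)))), by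 decide +kernel⟩

def k54_pm_102_s : ∃ t, chk3 f_pm_102_s t 1015 510 1 = true :=
  ⟨(b (b (b (a (l 144045472148258927) (l 144033240089067631)) (a (l 144035301663686767) (l 144032552903639151))) (b (a (l 144024512703660143) (a (l 144041692592636015) (l 16775464))) (a (a (l 144016884861796463) (l 144023413210693743)) (a (l 144039356129640559) (l 144045540883202159))))) (b (b (a (b (c (l 144020389553389679) (l 144019839797002351)) (a (b (b (a (a (b (l 144030147718987887) (l 144029941560492143)) (l 144026780463874159)) (l 144025749671313519)) (b (a (c (l 144028429731905647) (a (l 16774928) (l 144025680951754863))) (l 144025337354338415)) (a (l 144028498451169391) (a (c (l 144024993757184111) (l 144024306561826927)) (l 16774456))))) (a (l 144030147718938735) (b (b (a (l 144025474793373807) (c (l 144026574305247343) (l 144025887109890159))) (l 144023962965016687)) (l 144028567170318447)))) (b (l 144030697474048111) (a (b (l 144025887110398063) (a (c (l 144029185645625455) (l 144028498450268271))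 (b (l 144029391803711599) (l 144026917902581871)))) (l 144032071863566447))))) (a (l 144037225825108079) (l 144041898750197871))) (a (b (a (l 144035095522050159) (b (a (l 144032415461343343) (b (a (b (l 144031247229714543) (l 144032003144089711)) (l 144032759058317423)) (l 144033858570207343))) (l 144037294544912495))) (l 144044166494322799)) (b (a (b (b (l 16774376) (a (a (c (l 144034958081998959) (l 144034270886658159)) (l 144035301679169647)) (l 16774904))) (b (a (a (l 16774896) (c (l 144035988874313839) (l 144035301678973039))) (c (l 144036195032842351) (l 144035576556994671))) (a (l 16774416) (a (l 144036469910585455) (b (l 144035782715703407) (l 144036126313152623)))))) (c (l 144039081251373167) (l 144038531495018607))) (a (l 144041967469953135) (b (b (a (c (a (l 144037225825222767) (l 144037500703129711)) (a (c (l 144036813507952751) (l 144036469910290543)) (l 144036882227298415))) (l 16775088)) (a (l 144038531495329903) (a (b (l 144037844300316783) (l 144038256617275503))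 (l 144038600214691951)))) (a (l 16774832) (a (l 16774696) (a (l 144040249482510447) (b (b (l 144038737653645423) (l 16775184)) (l 16775344)))))))))) (a (l 144043685441028207) (c (l 144038050442641519) (l 144037706844749935))))), by decide +kernel⟩

def k55_pm_102_s : ∃ t, chk3 f_pm_102_s t 507 511 1 = true :=
  ⟨(b (a (c (l 144061896116912239) (l 144062170994376815)) (a (l 144070623486394479) (l 144062514586419311))) (a (l 144100928772522095) (l 144128554001907823))), by decide +kernel⟩

def k56_pm_102_s : ∃ t, chk3 f_pm_102_s t 508 254 1 = true :=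
  ⟨(a (b (b (a (b (l 16773880) (a (b (l 16779392) (b (a (l 144113367014441071) (l 16779376)) (a (l 144113641892528239) (l 144113916767338607)))) (l 16779136))) (b (l 16775960) (l 16776112))) (b (a (b (a (l 144113573162451055) (b (a (l 144114397803462767) (l 16779152)) (a (l 16779416) (l 144114878839603311)))) (l 144113710601388143)) (b (l 16778832) (a (b (a (l 144115222436790383) (l 16778936)) (a (l 16779256) (l 144104296041152623))) (l 16778096)))) (a (l 144109999750971503) (b (a (l 16776824) (b (a (l 144104570918895727) (l 16778736)) (a (l 16779144) (l 144104708357685359)))) (l 144111374139228271))))) (a (b (c (l 144075021537935471) (l 144076808244199535)) (b (l 144057566787534959) (a (l 144043754170286191) (l 16777304)))) (b (b (l 144059971972579439) (l 144061415080067183)) (b (l 144065194649632879) (a (l 16777608) (l 16777240)))))) (b (b (a (b (l 16776808) (l 16776944)) (b (a (l 16777832) (l 16777664)) (c (l 16777216) (l 16777208)))) (a (b (l 16777064) (b (a (a (b (l 16778616)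 (l 144116321950138479)) (l 16778512)) (l 16778344)) (a (b (a (l 144104777077031023) (l 144116528107716719)) (a (l 16779072) (l 144104777075572847))) (b (l 16778376) (a (a (l 144094262995157103) (l 16778416)) (l 16778336)))))) (b (l 144090208544931951) (l 144092132693147759)))) (b (b (a (b (a (l 144066637759266927) (a (l 144103815003095151) (b (b (l 16778352) (l 144117009144447087)) (l 16777952)))) (l 144064507456077935)) (b (a (a (b (l 16778256) (b (l 16778272) (l 144105807869591663))) (l 16778160)) (l 16778024)) (a (b (a (l 16778552) (b (l 144117146582941807) (l 144105807869460591))) (l 16776064)) (b (l 16778040) (a (b (l 144117215302271087) (l 144105739149852783)) (l 16778008)))))) (a (l 144080931412328559) (b (a (l 16776560) (b (a (l 16778440) (b (l 144105945306611823) (l 144116871704969327))) (l 16775960))) (l 16778160)))) (b (a (l 144072959951667311) (l 144091789089390703)) (a (l 144075846179029103) (c (l 16778888) (l 144084023787061359))))))), by decide +kernel⟩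

def k57_pm_102_s : ∃ t, chk3 f_pm_102_s t 1018 508 1 = true :=
  ⟨(b (a (a (b (l 16776200) (l 16777632)) (b (l 16776080) (l 16777496))) (b (a (b (a (l 16777272) (b (a (a (l 16776576) (b (l 119353114391) (l 16777224))) (a (b (l 3) (l 93046439735)) (l 173040205255))) (a (l 16777256) (b (l 16777056) (l 16777240))))) (l 16776000)) (b (a (b (l 3) (a (b (l 154249723399) (a (l 16777216) (l 116131888919))) (l 3))) (l 3)) (a (b (a (l 16777240) (b (a (l 89825214263) (l 166597754407)) (l 16777056))) (l 16777256)) (b (a (l 159618432423) (l 3)) (a (a (l 16777224) (b (l 113447534375) (l 16777224))) (a (b (l 3) (l 86603988807)) (l 169282108871))))))) (a (l 16776728) (b (a (l 16777288) (b (a (l 16777248) (b (l 16777056) (l 16777232))) (l 16777264))) (l 16777312))))) (a (a (b (l 16777728) (l 16777808)) (b (l 16777592) (l 16777664))) (a (b (l 16777472) (l 16777536)) (b (l 16777040) (l 16777104))))), by decide +kernel⟩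

def k58_pm_102_s : ∃ t, chk3 f_pm_102_s t 1019 1016 1 = true :=
  ⟨(a (b (l 3) (a (b (a (b (a (b (l 149954756119) (a (l 16777216) (l 110226308903))) (l 3)) (a (l 16777232) (b (a (l 83919634247) (l 160692174391)) (l 16777056)))) (b (l 3) (a (b (l 3) (l 147807272471)) (l 3)))) (a (l 16777256) (b (a (a (l 16777224) (b (l 107541954343) (l 16777224))) (a (b (l 3) (a (l 16777216) (l 102710116151))) (l 165524012503))) (a (l 16777240) (b (l 16777056) (l 16777232)))))) (b (l 3) (a (b (l 3) (a (b (l 145659788823) (a (l 16777216) (a (l 16777040) (l 132774887191)))) (l 3))) (l 3))))) (l 3)), by decide +kernel⟩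

def k59_pm_102_s : ∃ t, chk3 f_pm_102_s t 1019 1017 1 = true :=
  ⟨(a (a (b (b (l 16777280) (l 16777304)) (b (l 16777336) (l 16777352))) (b (b (a (b (a (l 16777232) (b (a (a (l 16777216) (l 99488890679)) (l 155323465287)) (l 16777056))) (l 16777240)) (b (a (a (b (l 3) (l 129016790631)) (l 3)) (l 3)) (a (a (l 16777224) (b (a (l 16777040) (l 129553661719)) (l 16777224))) (a (b (l 180556398103) (a (l 16777216) (l 95730794295))) (l 162302787047))))) (a (l 16777264) (b (a (l 16777232) (b (l 16777056) (l 16777224))) (l 16777240)))) (b (l 16777272) (l 16777288)))) (b (a (b (l 3) (a (b (a (a (b (c (l 125258694423) (l 126332436071)) (l 16777216)) (a (b (l 3) (l 16777120)) (l 148881014295))) (l 204178715767)) (a (l 16777224) (b (a (a (l 16777216) (l 92509568839)) (l 149954756167)) (l 16777056)))) (b (l 3) (a (a (a (b (l 3) (l 107541954359)) (l 166060883447)) (l 3)) (l 3))))) (l 3)) (a (b (a (l 16777240) (b (a (a (l 16777224) (b (a (l 16777120) (l 122574339879)) (l 16777224))) (a (b (l 173577076247)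 (a (l 16777216) (l 89288343367))) (l 158544690663))) (a (l 16777232) (b (l 16777056) (l 16777224))))) (l 16777240)) (b (a (b (l 3) (a (a (b (a (l 104320728887) (l 152639110919)) (l 16777216)) (b (l 3) (a (l 71034732375) (l 119353114407)))) (l 200420619383))) (l 3)) (a (b (a (l 16777224) (b (a (b (l 94657052487) (l 16777216)) (l 144586047063)) (l 16777048))) (l 16777224)) (b (a (a (b (l 3) (b (l 165524012631) (l 93046439751))) (l 3)) (l 3)) (a (a (l 16777216) (b (a (l 67813506903) (l 116131888935)) (l 16777216))) (b (l 171429592535) (a (b (l 91435827015) (l 16777216)) (l 142438563415)))))))))), by decide +kernel⟩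

def k60_pm_102_s : ∃ t, chk3 f_pm_102_s t 509 509 1 = true :=
  ⟨(a (b (b (a (l 144103059088031855) (a (l 16777584) (l 16777304))) (a (b (a (b (l 144116528107028591) (a (b (l 144111511584096367) (l 16777776)) (l 144105532990685295))) (l 16777736)) (a (b (a (l 16778352) (b (l 144112748534562927) (l 16778056))) (l 16775872)) (b (a (b (l 16777784) (l 144105601709375599)) (l 16777712)) (a (b (a (l 16777944) (l 144117009143185519)) (l 16778016)) (b (l 16777712) (a (l 144116940423659631) (l 16777696))))))) (c (l 144103059087556719) (l 144104983233544303)))) (b (a (b (a (l 16776384) (b (a (l 16778272) (b (a (l 16777904) (l 144116802984640623)) (l 16777976))) (l 16775800))) (l 144085604334665839)) (b (a (b (a (b (l 16777640) (a (l 144105601709899887) (l 16777632))) (l 16777576)) (a (b (a (l 16777864) (l 144105945307234415)) (l 16777944)) (b (l 144117627618033775) (a (l 144117490179276911) (l 144118039934861423))))) (l 16777488)) (b (a (a (l 16778200) (l 144111030548791407)) (a (b (l 144107113537290351)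 (a (l 16777648) (l 144118727129530479))) (l 16777456))) (a (l 16775728) (a (l 16777152) (b (a (l 144107800732680303) (l 16777440)) (a (l 16777616) (l 144108144330014831)))))))) (b (a (l 16778672) (c (l 144100379025883247) (l 144102234451755119))) (a (l 16778536) (l 144096943048065135))))) (b (a (a (b (c (l 16777384) (l 16777208)) (l 144092407569678447)) (b (a (l 16777320) (l 16777296)) (l 144103196527034479))) (a (a (b (l 16777272) (l 16777272)) (b (l 16777080) (l 16777168))) (b (b (a (l 16777232) (b (a (l 16777224) (b (l 16777048) (l 14))) (l 16777224))) (l 16777224)) (l 14)))) (a (b (a (l 144106769940299887) (l 144106288903798895)) (l 14)) (l 14)))), by decide +kernel⟩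

def k61_pm_102_s : ∃ t, chk3 f_pm_102_s t 255 254 1 = true :=
  ⟨(b (l 3) (l 14)), by decide +kernel⟩

def k62_pm_102_s : ∃ t, chk3 f_pm_102_s t 508 1020 1 = true :=
  ⟨(a (a (b (a (l 144047602469961839) (l 144064576181354607)) (b (l 144056467281690735) (l 144052344112365679))) (a (b (l 144068905508995183) (l 144049251737190511)) (b (l 144072891239235695) (l 144053237467447407)))) (a (b (a (l 144076808249999471) (l 144069317827592303)) (b (l 144061071489024111) (a (l 16777256) (l 16777528)))) (a (b (l 144073028679893103) (b (l 16778160) (l 16777800))) (b (l 16778288) (a (l 16777520) (l 16777648)))))), by decide +kernel⟩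

def k63_pm_102_s : ∃ t, chk3 f_pm_102_s t 508 2042 1 = true :=
  ⟨(a (a (b (a (l 144046090638917743) (l 144050213808144495)) (b (l 144045747041288303) (a (b (l 16774648) (a (b (b (l 144039768445943919) (a (c (l 144039631007203439) (l 144039081250865263)) (l 16775184))) (b (a (l 16775224) (c (l 144040249482575983) (l 144039699726237807))) (l 144040730518847599))) (c (l 144041692591833199) (b (l 16775184) (l 144038119178469487))))) (l 144044922407501935)))) (b (a (l 144054199538417775) (l 16775952)) (a (l 144050007649583215) (l 144053855940870255)))) (a (a (b (l 16776240) (a (l 16776456) (l 16776592))) (b (l 16776512) (l 16776312))) (b (a (l 16776128) (l 16777696)) (a (l 16776416) (l 16776672))))), by decide +kernel⟩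

def k64_pm_102_s : ∃ t, chk3 f_pm_102_s t 1016 2043 1 = true :=
  ⟨(b (a (b (a (a (l 144045197285834863) (b (b (a (c (l 144041692591849583) (l 144041142835511407)) (b (l 144041280274645103) (a (l 144041486433124463) (l 144041417713631343)))) (l 16774824)) (l 16775152))) (a (b (b (l 144042654664392815) (b (a (c (l 144042311067172975) (l 144041830030327919)) (l 16775376)) (a (l 144042654664441967) (c (l 144042929542545519) (l 144042448505700463))))) (c (l 144045059846832239) (l 144044578809987183))) (b (l 16775496) (b (b (c (l 144043960334860399) (l 144043548017492079)) (a (a (l 16775456) (a (l 144043479298228335) (l 144043479298211951))) (l 144043960334631023))) (b (a (l 16775544) (a (l 144044029054124143) (a (l 144043960334631023) (l 144044097773584495)))) (l 16775600)))))) (l 144040043326275695)) (b (a (b (l 16775720) (b (l 16775648) (b (l 144046090638721135) (a (a (c (l 144042036189626479) (c (l 144044578809905263) (l 144042929542201455))) (l 16775560)) (l 16775664))))) (l 16775312))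 (a (b (b (a (a (l 144045678321877103) (b (c (l 144045472163545199) (a (l 144044853687730287) (l 16775432))) (c (l 144045884480487535) (a (l 16775488) (l 144045334724149359))))) (c (l 144046640394829935) (l 144043479298424943))) (a (l 16775792) (a (b (a (l 144046090638737519) (b (l 144045953199718511) (l 144046090638704751))) (l 16775704)) (b (l 144046502955630703) (a (c (l 144046709114306671) (l 144046296796971119)) (c (l 144046777833783407) (l 144046434235924591))))))) (c (l 16775480) (l 144049457893654639))) (b (l 16775168) (b (a (b (a (a (b (l 144046846553047151) (l 144047052711526511)) (l 144047190150496367)) (l 16775736)) (a (c (l 144047808626114671) (l 144047465028255855)) (a (c (l 144047739906588783) (l 144047396308729967)) (l 16775728)))) (l 16775832)) (b (a (a (l 16775840) (a (l 16775768) (b (a (l 144047739906375791) (l 16775064)) (l 16775424)))) (c (l 144048976857350255) (l 144048633259507823))) (a (l 16775896) (a (c (a (l 16775568) (l 144048633259917423)) (a (l 144048289662091375)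 (c (l 144048358381666415) (l 144048220942467183)))) (l 16775808))))))))) (a (l 144051794359402607) (a (l 144048083506495599) (b (b (b (b (a (l 16776000) (a (l 16775864) (a (b (a (l 144048701979181167) (l 16775456)) (l 16775824)) (c (l 16775760) (l 144048839417954415))))) (c (l 144050694844711023) (l 144050351246852207))) (l 144052000514850927)) (l 144054886733512815)) (l 144060659170820207))))), by decide +kernel⟩

def k65_pm_102_s : ∃ t, chk3 f_pm_102_s t 1017 2043 1 = true :=
  ⟨(b (a (a (c (l 16776264) (l 16775392)) (c (l 16776528) (l 16775680))) (a (a (l 16775976) (l 16776768)) (l 14))) (a (b (a (b (a (a (a (b (b (l 16775832) (a (b (l 144049183015583855) (l 16775848)) (c (l 16775616) (l 144049251734863983)))) (l 16775968)) (b (l 16775864) (b (b (c (l 16775640) (l 144049457893343343)) (l 16775896)) (l 16775968)))) (b (l 16775912) (b (a (a (c (l 16775816) (l 144049664051789935)) (l 16775872)) (l 16775896)) (b (a (l 16775896) (c (l 16775344) (l 144050007649222767))) (c (l 16775712)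 (l 144050351246688367)))))) (c (l 16776104) (l 144048633259917423))) (a (l 16776200) (b (a (b (b (a (c (l 16775704) (l 144050419966148719)) (l 16775928)) (a (l 16775960) (a (l 16775600) (l 16775600)))) (l 16776016)) (b (l 16775968) (a (b (c (l 16775400) (l 144050901002551407)) (l 16775648)) (c (l 16775424) (l 144051244599984239))))) (c (l 144052756429226095) (c (l 144052550270451823) (l 144052412831268975)))))) (a (b (l 16776128) (b (l 16776064) (a (b (b (l 16776000) (a (a (l 16775992) (a (l 16775328) (l 16775328))) (l 16776008))) (b (a (l 16776032) (a (l 16775680) (l 16775352))) (l 16776064))) (b (l 16776064) (a (a (a (b (l 16776016) (l 16775360)) (l 16775696)) (l 16776032)) (l 16776056)))))) (l 16776224))) (a (l 144052412832841839) (b (b (a (a (l 16776192) (a (c (l 16775568) (l 144052893867720815)) (b (b (l 16775712) (c (l 16775504) (c (l 16775672) (l 144052344111677551)))) (l 16776128)))) (a (b (l 16776088) (a (b (a (l 16776064) (l 16775736)) (l 16776104)) (l 14))) (l 14))) (a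 (l 16776344) (a (a (l 16776232) (l 14)) (l 14)))) (c (l 16776664) (l 16776448))))) (l 14))), by decide +kernel⟩

def k66_pm_102_s : ∃ t, chk3 f_pm_102_s t 509 510 1 = true :=
  ⟨(b (a (b (a (a (l 16778544) (l 16778792)) (a (l 16779024) (l 14))) (a (c (b (l 16777528) (l 16777176)) (a (l 16777784) (l 16777376))) (l 14))) (l 14)) (l 14)), by decide +kernel⟩

def k67_pm_102_s : ∃ t, chk3 f_pm_102_s t 254 511 1 = true :=
  ⟨(a (b (b (a (a (l 144063888970924143) (l 144058666289070191)) (a (a (l 144054611838746735) (a (l 144056742141935727) (l 14))) (l 14))) (a (l 144069386534797423) (l 14))) (a (l 144114603947786351) (l 14))) (l 14)), by decide +kernel⟩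

def k68_pm_102_s : ∃ t, chk3 f_pm_102_s t 255 255 1 = true :=
  ⟨(l 14), by decide +kernel⟩

theorem s69_pm_102_s : ∃ t, chk3 f_pm_102_s t 508 2043 1 = true := ex3_a k64_pm_102_s k65_pm_102_s

theorem s70_pm_102_s : ∃ t, chk3 f_pm_102_s t 508 1021 1 = true := ex3_b k63_pm_102_s s69_pm_102_s

theorem s71_pm_102_s : ∃ t, chk3 f_pm_102_s t 508 510 1 = true := ex3_b k62_pm_102_s s70_pm_102_s

theorem s72_pm_102_s : ∃ t, chk3 f_pm_102_s t 254 510 1 = true := ex3_a s71_pm_102_s k66_pm_102_s

theorem s73_pm_102_s : ∃ t, chk3 f_pm_102_s t 254 255 1 = true := ex3_b s72_pm_102_s k67_pm_102_s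

theorem s74_pm_102_s : ∃ t, chk3 f_pm_102_s t 127 255 1 = true := ex3_a s73_pm_102_s k68_pm_102_s

theorem s75_pm_102_s : ∃ t, chk3 f_pm_102_s t 1019 508 1 = true := ex3_b k58_pm_102_s k59_pm_102_s

theorem s76_pm_102_s : ∃ t, chk3 f_pm_102_s t 509 508 1 = true := ex3_a k57_pm_102_s s75_pm_102_s

theorem s77_pm_102_s : ∃ t, chk3 f_pm_102_s t 509 254 1 = true := ex3_b s76_pm_102_s k60_pm_102_s

theorem s78_pm_102_s : ∃ t, chk3 f_pm_102_s t 254 254 1 = true := ex3_a k56_pm_102_s s77_pm_102_s

theorem s79_pm_102_s : ∃ t, chk3 f_pm_102_s t 127 254 1 = true := ex3_a s78_pm_102_s k61_pm_102_s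

theorem s80_pm_102_s : ∃ t, chk3 f_pm_102_s t 127 127 1 = true := ex3_b s79_pm_102_s s74_pm_102_s

theorem s81_pm_102_s : ∃ t, chk3 f_pm_102_s t 507 510 1 = true := ex3_a k53_pm_102_s k54_pm_102_s

theorem s82_pm_102_s : ∃ t, chk3 f_pm_102_s t 507 255 1 = true := ex3_b s81_pm_102_s k55_pm_102_s

theorem s83_pm_102_s : ∃ t, chk3 f_pm_102_s t 253 255 1 = true := ex3_a k52_pm_102_s s82_pm_102_s

theorem s84_pm_102_s : ∃ t, chk3 f_pm_102_s t 126 255 1 = true := ex3_a k51_pm_102_s s83_pm_102_s

theorem s85_pm_102_s : ∃ t, chk3 f_pm_102_s t 126 127 1 = true := ex3_b k50_pm_102_s s84_pm_102_s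

theorem s86_pm_102_s : ∃ t, chk3 f_pm_102_s t 63 127 1 = true := ex3_a s85_pm_102_s s80_pm_102_s

theorem s87_pm_102_s : ∃ t, chk3 f_pm_102_s t 508 253 1 = true := ex3_b k46_pm_102_s k47_pm_102_s

theorem s88_pm_102_s : ∃ t, chk3 f_pm_102_s t 254 253 1 = true := ex3_a s87_pm_102_s k48_pm_102_s

theorem s89_pm_102_s : ∃ t, chk3 f_pm_102_s t 254 126 1 = true := ex3_b k45_pm_102_s s88_pm_102_s

theorem s90_pm_102_s : ∃ t, chk3 f_pm_102_s t 127 126 1 = true := ex3_a s89_pm_102_s k49_pm_102_s

theorem s91_pm_102_s : ∃ t, chk3 f_pm_102_s t 253 252 1 = true := ex3_a k42_pm_102_s k43_pm_102_s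

theorem s92_pm_102_s : ∃ t, chk3 f_pm_102_s t 253 126 1 = true := ex3_b s91_pm_102_s k44_pm_102_s

theorem s93_pm_102_s : ∃ t, chk3 f_pm_102_s t 504 505 1 = true := ex3_b k38_pm_102_s k39_pm_102_s

theorem s94_pm_102_s : ∃ t, chk3 f_pm_102_s t 252 505 1 = true := ex3_a s93_pm_102_s k40_pm_102_s

theorem s95_pm_102_s : ∃ t, chk3 f_pm_102_s t 252 252 1 = true := ex3_b k37_pm_102_s s94_pm_102_s

theorem s96_pm_102_s : ∃ t, chk3 f_pm_102_s t 252 126 1 = true := ex3_b s95_pm_102_s k41_pm_102_s

theorem s97_pm_102_s : ∃ t, chk3 f_pm_102_s t 126 126 1 = true := ex3_a s96_pm_102_s s92_pm_102_s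

theorem s98_pm_102_s : ∃ t, chk3 f_pm_102_s t 63 126 1 = true := ex3_a s97_pm_102_s s90_pm_102_s

theorem s99_pm_102_s : ∃ t, chk3 f_pm_102_s t 63 63 1 = true := ex3_b s98_pm_102_s s86_pm_102_s

theorem s100_pm_102_s : ∃ t, chk3 f_pm_102_s t 503 504 1 = true := ex3_a k32_pm_102_s k33_pm_102_s

theorem s101_pm_102_s : ∃ t, chk3 f_pm_102_s t 503 252 1 = true := ex3_b s100_pm_102_s k34_pm_102_s

theorem s102_pm_102_s : ∃ t, chk3 f_pm_102_s t 251 252 1 = true := ex3_a k31_pm_102_s s101_pm_102_s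

theorem s103_pm_102_s : ∃ t, chk3 f_pm_102_s t 251 126 1 = true := ex3_b s102_pm_102_s k35_pm_102_s

theorem s104_pm_102_s : ∃ t, chk3 f_pm_102_s t 125 126 1 = true := ex3_a k30_pm_102_s s103_pm_102_s

theorem s105_pm_102_s : ∃ t, chk3 f_pm_102_s t 62 126 1 = true := ex3_a k29_pm_102_s s104_pm_102_s

theorem s106_pm_102_s : ∃ t, chk3 f_pm_102_s t 62 63 1 = true := ex3_b s105_pm_102_s k36_pm_102_s

theorem s107_pm_102_s : ∃ t, chk3 f_pm_102_s t 31 63 1 = true := ex3_a s106_pm_102_s s99_pm_102_s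

theorem s108_pm_102_s : ∃ t, chk3 f_pm_102_s t 252 125 1 = true := ex3_b k25_pm_102_s k26_pm_102_s

theorem s109_pm_102_s : ∃ t, chk3 f_pm_102_s t 126 125 1 = true := ex3_a s108_pm_102_s k27_pm_102_s

theorem s110_pm_102_s : ∃ t, chk3 f_pm_102_s t 126 62 1 = true := ex3_b k24_pm_102_s s109_pm_102_s

theorem s111_pm_102_s : ∃ t, chk3 f_pm_102_s t 63 62 1 = true := ex3_a s110_pm_102_s k28_pm_102_s

theorem s112_pm_102_s : ∃ t, chk3 f_pm_102_s t 251 251 1 = true := ex3_a k22_pm_102_s k23_pm_102_s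

theorem s113_pm_102_s : ∃ t, chk3 f_pm_102_s t 125 251 1 = true := ex3_a k21_pm_102_s s112_pm_102_s

theorem s114_pm_102_s : ∃ t, chk3 f_pm_102_s t 125 125 1 = true := ex3_b k20_pm_102_s s113_pm_102_s

theorem s115_pm_102_s : ∃ t, chk3 f_pm_102_s t 251 124 1 = true := ex3_b k18_pm_102_s k19_pm_102_s

theorem s116_pm_102_s : ∃ t, chk3 f_pm_102_s t 125 124 1 = true := ex3_a k17_pm_102_s s115_pm_102_s

theorem s117_pm_102_s : ∃ t, chk3 f_pm_102_s t 125 62 1 = true := ex3_b s116_pm_102_s s114_pm_102_s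

theorem s118_pm_102_s : ∃ t, chk3 f_pm_102_s t 62 62 1 = true := ex3_a k16_pm_102_s s117_pm_102_s

theorem s119_pm_102_s : ∃ t, chk3 f_pm_102_s t 31 62 1 = true := ex3_a s118_pm_102_s s111_pm_102_s

theorem s120_pm_102_s : ∃ t, chk3 f_pm_102_s t 31 31 1 = true := ex3_b s119_pm_102_s s107_pm_102_s

theorem s121_pm_102_s : ∃ t, chk3 f_pm_102_s t 124 61 1 = true := ex3_b k12_pm_102_s k13_pm_102_s

theorem s122_pm_102_s : ∃ t, chk3 f_pm_102_s t 62 61 1 = true := ex3_a s121_pm_102_s k14_pm_102_s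

theorem s123_pm_102_s : ∃ t, chk3 f_pm_102_s t 31 61 1 = true := ex3_a s122_pm_102_s k15_pm_102_s

theorem s124_pm_102_s : ∃ t, chk3 f_pm_102_s t 31 30 1 = true := ex3_b k11_pm_102_s s123_pm_102_s

theorem s125_pm_102_s : ∃ t, chk3 f_pm_102_s t 31 15 1 = true := ex3_b s124_pm_102_s s120_pm_102_s

theorem s126_pm_102_s : ∃ t, chk3 f_pm_102_s t 61 60 1 = true := ex3_a k7_pm_102_s k8_pm_102_s

theorem s127_pm_102_s : ∃ t, chk3 f_pm_102_s t 61 30 1 = true := ex3_b s126_pm_102_s k9_pm_102_s

theorem s128_pm_102_s : ∃ t, chk3 f_pm_102_s t 30 30 1 = true := ex3_a k6_pm_102_s s127_pm_102_s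

theorem s129_pm_102_s : ∃ t, chk3 f_pm_102_s t 30 15 1 = true := ex3_b s128_pm_102_s k10_pm_102_s

theorem s130_pm_102_s : ∃ t, chk3 f_pm_102_s t 15 15 1 = true := ex3_a s129_pm_102_s s125_pm_102_s

theorem s131_pm_102_s : ∃ t, chk3 f_pm_102_s t 15 7 1 = true := ex3_b k5_pm_102_s s130_pm_102_s

theorem s132_pm_102_s : ∃ t, chk3 f_pm_102_s t 7 7 1 = true := ex3_a k4_pm_102_s s131_pm_102_s

theorem s133_pm_102_s : ∃ t, chk3 f_pm_102_s t 7 3 1 = true := ex3_b k3_pm_102_s s132_pm_102_s

theorem s134_pm_102_s : ∃ t, chk3 f_pm_102_s t 3 3 1 = true := ex3_a k2_pm_102_s s133_pm_102_s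

theorem s135_pm_102_s : ∃ t, chk3 f_pm_102_s t 3 1 1 = true := ex3_b k1_pm_102_s s134_pm_102_s

theorem s136_pm_102_s : ∃ t, chk3 f_pm_102_s t 1 1 1 = true := ex3_a k0_pm_102_s s135_pm_102_s

theorem c_pm_102_s : CertNE 536870912 536870912 0 536870912 1045395039 1503240 3 eng mog cd0q1 cd0q2 pd0 false true false .npp 1 0 2
    ndB0q1 ndB0q2 pcB0 cut_pm_102_s xt_pm_102_s :=
  certNE0 (fam := false) (s1 := true) (s2 := false) (a := 1) (b := 0) (c := 2) (cn := .npp) (n1 := ndB0q1) (n2 := ndB0q2) (pc := pcB0) (cut := cut_pm_102_s) (xt := xt_pm_102_s) (P1 := 536870912) (W1 := 536870912) (P2 := 0) (W2 := 536870912) (P3 := 1045395039) (W3 := 1503240) (N0 := 3) (En := eng) (mo := mog) (C1 := cd0q1) (C2 := cd0q2) (C3 := pd0)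
    rfl s136_pm_102_s

noncomputable def cut_pm_102_t : Cut := Cut.of [[⟨3, 0, 0, 2845415833⟩], [⟨0, 1, 0, 8388608⟩, ⟨1, 0, 0, 8388608⟩, ⟨2, 1, 0, 8388608⟩], [⟨0, 0, 1, 46137344⟩, ⟨1, 1, 2, 46137344⟩, ⟨2, 1, 0, 1048576⟩, ⟨0, 0, 0, 1056440320⟩, ⟨0, 1, 0, 33457795⟩, ⟨1, 0, 0, 33457795⟩, ⟨1, 1, 0, 1056440320⟩]]

noncomputable def f_pm_102_t : ℕ → ℕ → ℕ → ℕ → Bool := onCell 536870912 536870912 0 536870912 1045395039 1503240
    (rowNE 3 eng mog cd0q1 cd0q2 pd0 0 false true false .npp 1 0 2 (qsf 536870912 536870912 0 536870912 0) ndB0q1 ndB0q2 pcB0 cut_pm_102_t Ext.none)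

def k0_pm_102_t : ∃ t, chk3 f_pm_102_t t 1 1 1 = true :=
  ⟨(l 6), by decide +kernel⟩

theorem c_pm_102_t : CertNE 536870912 536870912 0 536870912 1045395039 1503240 3 eng mog cd0q1 cd0q2 pd0 false true false .npp 1 0 2
    ndB0q1 ndB0q2 pcB0 cut_pm_102_t Ext.none :=
  certNE0 (fam := false) (s1 := true) (s2 := false) (a := 1) (b := 0) (c := 2) (cn := .npp) (n1 := ndB0q1) (n2 := ndB0q2) (pc := pcB0) (cut := cut_pm_102_t) (xt := Ext.none) (P1 := 536870912) (W1 := 536870912) (P2 := 0) (W2 := 536870912) (P3 := 1045395039) (W3 := 1503240) (N0 := 3) (En := eng) (mo := mog) (C1 := cd0q1) (C2 := cd0q2) (C3 := pd0)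
    rfl k0_pm_102_t

noncomputable def cut_pm_112_s : Cut := Cut.of [[⟨4, 0, 0, 1449551462⟩]]

noncomputable def f_pm_112_s : ℕ → ℕ → ℕ → ℕ → Bool := onCell 536870912 536870912 0 536870912 1045395039 1503240
    (rowNE 3 eng mog cd0q1 cd0q2 pd1 0 false true false .dn 1 1 2 (qsf 536870912 536870912 0 536870912 1) ndB0q1 ndB0q2 pcB1 cut_pm_112_s Ext.none)

def k0_pm_112_s : ∃ t, chk3 f_pm_112_s t 1 1 1 = true :=
  ⟨(a (a (b (a (b (b (a (l 16582104) (l 16618496)) (a (b (l 16457576) (l 16428584)) (b (l 16529496) (a (l 16443336) (l 16464896))))) (b (a (l 16376656) (b (l 16406584) (l 16373280))) (l 6))) (b (b (a (b (l 16740184) (l 16669360)) (b (l 120963595047) (l 16718488))) (a (l 16552928) (l 16583264))) (b (a (b (a (l 16422696) (l 16445136)) (l 16389696)) (b (l 16497744) (a (l 16407760) (l 16410248)))) (a (l 16337488) (l 16360896))))) (b (l 6) (l 6))) (b (a (a (b (b (l 157470842919) (b (l 16698392) (l 16663928))) (b (b (l 16578896) (l 16445216)) (b (a (l 16399760) (l 1)) (l 16372872))))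 (b (b (l 1) (l 1)) (l 1))) (l 1)) (b (l 1) (l 1)))) (l 1)), by decide +kernel⟩

theorem c_pm_112_s : CertNE 536870912 536870912 0 536870912 1045395039 1503240 3 eng mog cd0q1 cd0q2 pd1 false true false .dn 1 1 2
    ndB0q1 ndB0q2 pcB1 cut_pm_112_s Ext.none :=
  certNE0 (fam := false) (s1 := true) (s2 := false) (a := 1) (b := 1) (c := 2) (cn := .dn) (n1 := ndB0q1) (n2 := ndB0q2) (pc := pcB1) (cut := cut_pm_112_s) (xt := Ext.none) (P1 := 536870912) (W1 := 536870912) (P2 := 0) (W2 := 536870912) (P3 := 1045395039) (W3 := 1503240) (N0 := 3) (En := eng) (mo := mog) (C1 := cd0q1) (C2 := cd0q2) (C3 := pd1)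
    rfl k0_pm_112_s

noncomputable def cut_pm_112_t : Cut := Cut.of [[⟨3, 0, 0, 2845415833⟩]]

noncomputable def f_pm_112_t : ℕ → ℕ → ℕ → ℕ → Bool := onCell 536870912 536870912 0 536870912 1045395039 1503240
    (rowNE 3 eng mog cd0q1 cd0q2 pd1 0 false true false .dn 1 1 2 (qsf 536870912 536870912 0 536870912 1) ndB0q1 ndB0q2 pcB1 cut_pm_112_t Ext.none)

def k0_pm_112_t : ∃ t, chk3 f_pm_112_t t 1 1 1 = true :=
  ⟨(l 6), by decide +kernel⟩

theorem c_pm_112_t : CertNE 536870912 536870912 0 536870912 1045395039 1503240 3 eng mog cd0q1 cd0q2 pd1 false true false .dn 1 1 2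
    ndB0q1 ndB0q2 pcB1 cut_pm_112_t Ext.none :=
  certNE0 (fam := false) (s1 := true) (s2 := false) (a := 1) (b := 1) (c := 2) (cn := .dn) (n1 := ndB0q1) (n2 := ndB0q2) (pc := pcB1) (cut := cut_pm_112_t) (xt := Ext.none) (P1 := 536870912) (W1 := 536870912) (P2 := 0) (W2 := 536870912) (P3 := 1045395039) (W3 := 1503240) (N0 := 3) (En := eng) (mo := mog) (C1 := cd0q1) (C2 := cd0q2) (C3 := pd1)
    rfl k0_pm_112_t

noncomputable def cut_pm_202_s : Cut := Cut.of [[⟨4, 0, 0, 1449551462⟩], [⟨0, 1, 0, 26843545⟩, ⟨1, 0, 0, 26843545⟩, ⟨2, 1, 0, 26843545⟩], [⟨0, 0, 1, 46137344⟩, ⟨1, 1, 2, 46137344⟩, ⟨2, 1, 0, 1048576⟩, ⟨0, 0, 0, 1056440320⟩, ⟨0, 1, 0, 33457795⟩, ⟨1, 0, 0, 33457795⟩, ⟨1, 1, 0, 1056440320⟩]]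

noncomputable def f_pm_202_s : ℕ → ℕ → ℕ → ℕ → Bool := onCell 0 536870912 0 536870912 1045395039 1503240
    (rowNE 3 eng mog cd0q2 cd0q2 pd0 0 false true false .pp 2 0 2 (qsf 0 536870912 0 536870912 0) ndB0q2 ndB0q2 pcB0 cut_pm_202_s Ext.none)

def k0_pm_202_s : ∃ t, chk3 f_pm_202_s t 1 1 1 = true :=
  ⟨(a (l 3) (b (l 3) (a (l 3) (b (l 3) (a (l 3) (b (l 3) (a (l 3) (b (l 3) (l 14))))))))), by decide +kernel⟩

theorem c_pm_202_s : CertNE 0 536870912 0 536870912 1045395039 1503240 3 eng mog cd0q2 cd0q2 pd0 false true false .pp 2 0 2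
    ndB0q2 ndB0q2 pcB0 cut_pm_202_s Ext.none :=
  certNE0 (fam := false) (s1 := true) (s2 := false) (a := 2) (b := 0) (c := 2) (cn := .pp) (n1 := ndB0q2) (n2 := ndB0q2) (pc := pcB0) (cut := cut_pm_202_s) (xt := Ext.none) (P1 := 0) (W1 := 536870912) (P2 := 0) (W2 := 536870912) (P3 := 1045395039) (W3 := 1503240) (N0 := 3) (En := eng) (mo := mog) (C1 := cd0q2) (C2 := cd0q2) (C3 := pd0)
    rfl k0_pm_202_s

noncomputable def cut_pm_202_t : Cut := Cut.of [[⟨3, 0, 0, 2845415833⟩], [⟨0, 1, 0, 26843545⟩, ⟨1, 0, 0, 26843545⟩, ⟨2, 1, 0, 26843545⟩], [⟨0, 0, 1, 46137344⟩, ⟨1, 1, 2, 46137344⟩, ⟨2, 1, 0, 1048576⟩, ⟨0, 0, 0, 1056440320⟩, ⟨0, 1, 0, 33457795⟩, ⟨1, 0, 0, 33457795⟩, ⟨1, 1, 0, 1056440320⟩]]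

noncomputable def f_pm_202_t : ℕ → ℕ → ℕ → ℕ → Bool := onCell 0 536870912 0 536870912 1045395039 1503240
    (rowNE 3 eng mog cd0q2 cd0q2 pd0 0 false true false .pp 2 0 2 (qsf 0 536870912 0 536870912 0) ndB0q2 ndB0q2 pcB0 cut_pm_202_t Ext.none)

def k0_pm_202_t : ∃ t, chk3 f_pm_202_t t 1 1 1 = true :=
  ⟨(l 6), by decide +kernel⟩

theorem c_pm_202_t : CertNE 0 536870912 0 536870912 1045395039 1503240 3 eng mog cd0q2 cd0q2 pd0 false true false .pp 2 0 2
    ndB0q2 ndB0q2 pcB0 cut_pm_202_t Ext.none :=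
  certNE0 (fam := false) (s1 := true) (s2 := false) (a := 2) (b := 0) (c := 2) (cn := .pp) (n1 := ndB0q2) (n2 := ndB0q2) (pc := pcB0) (cut := cut_pm_202_t) (xt := Ext.none) (P1 := 0) (W1 := 536870912) (P2 := 0) (W2 := 536870912) (P3 := 1045395039) (W3 := 1503240) (N0 := 3) (En := eng) (mo := mog) (C1 := cd0q2) (C2 := cd0q2) (C3 := pd0)
    rfl k0_pm_202_t

noncomputable def cut_mm_001_s : Cut := Cut.of [[⟨4, 0, 0, 1449551462⟩]]

noncomputable def f_mm_001_s : ℕ → ℕ → ℕ → ℕ → Bool := onCell 0 536870912 0 536870912 1045395039 1503240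
    (rowNE 3 eng mog cd0q0 cd0q1 pd0 1 false false false .up 0 0 1 (qsf 0 536870912 536870912 536870912 0) ndB0q0 ndB0q1 pcB0 cut_mm_001_s Ext.none)

def k0_mm_001_s : ∃ t, chk3 f_mm_001_s t 1 1 1 = true :=
  ⟨(l 3), by decide +kernel⟩

theorem c_mm_001_s : CertNE 0 536870912 536870912 536870912 1045395039 1503240 3 eng mog cd0q0 cd0q1 pd0 false false false .up 0 0 1
    ndB0q0 ndB0q1 pcB0 cut_mm_001_s Ext.none :=
  certNE1 (fam := false) (s1 := false) (s2 := false) (a := 0) (b := 0) (c := 1) (cn := .up) (n1 := ndB0q0) (n2 := ndB0q1) (pc := pcB0) (cut := cut_mm_001_s) (xt := Ext.none) (P1 := 0) (W1 := 536870912) (P2 := 536870912) (W2 := 536870912) (P3 := 1045395039) (W3 := 1503240) (N0 := 3) (En := eng) (mo := mog) (C1 := cd0q0) (C2 := cd0q1) (C3 := pd0)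
    rfl (fun _ => rfl) k0_mm_001_s

noncomputable def cut_mm_001_t : Cut := Cut.of [[⟨3, 0, 0, 2845415833⟩]]

noncomputable def f_mm_001_t : ℕ → ℕ → ℕ → ℕ → Bool := onCell 0 536870912 536870912 536870912 1045395039 1503240
    (rowNE 3 eng mog cd0q0 cd0q1 pd0 0 false false false .up 0 0 1 (qsf 0 536870912 536870912 536870912 0) ndB0q0 ndB0q1 pcB0 cut_mm_001_t Ext.none)

def k0_mm_001_t : ∃ t, chk3 f_mm_001_t t 1 1 1 = true :=
  ⟨(l 6), by decide +kernel⟩

theorem c_mm_001_t : CertNE 0 536870912 536870912 536870912 1045395039 1503240 3 eng mog cd0q0 cd0q1 pd0 false false false .up 0 0 1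
    ndB0q0 ndB0q1 pcB0 cut_mm_001_t Ext.none :=
  certNE0 (fam := false) (s1 := false) (s2 := false) (a := 0) (b := 0) (c := 1) (cn := .up) (n1 := ndB0q0) (n2 := ndB0q1) (pc := pcB0) (cut := cut_mm_001_t) (xt := Ext.none) (P1 := 0) (W1 := 536870912) (P2 := 536870912) (W2 := 536870912) (P3 := 1045395039) (W3 := 1503240) (N0 := 3) (En := eng) (mo := mog) (C1 := cd0q0) (C2 := cd0q1) (C3 := pd0)
    rfl k0_mm_001_t

noncomputable def cut_mm_011_s : Cut := Cut.of [[⟨4, 0, 0, 1449551462⟩]]

noncomputable def f_mm_011_s : ℕ → ℕ → ℕ → ℕ → Bool := onCell 0 536870912 536870912 536870912 1045395039 1503240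
    (rowNE 3 eng mog cd0q0 cd0q1 pd1 1 false false false .pnn 0 1 1 (qsf 0 536870912 536870912 536870912 1) ndB0q0 ndB0q1 pcB1 cut_mm_011_s Ext.none)

def k0_mm_011_s : ∃ t, chk3 f_mm_011_s t 1 1 1 = true :=
  ⟨(l 5), by decide +kernel⟩

theorem c_mm_011_s : CertNE 0 536870912 536870912 536870912 1045395039 1503240 3 eng mog cd0q0 cd0q1 pd1 false false false .pnn 0 1 1
    ndB0q0 ndB0q1 pcB1 cut_mm_011_s Ext.none :=
  certNE1 (fam := false) (s1 := false) (s2 := false) (a := 0) (b := 1) (c := 1) (cn := .pnn) (n1 := ndB0q0) (n2 := ndB0q1) (pc := pcB1) (cut := cut_mm_011_s) (xt := Ext.none) (P1 := 0) (W1 := 536870912) (P2 := 536870912) (W2 := 536870912) (P3 := 1045395039) (W3 := 1503240) (N0 := 3) (En := eng) (mo := mog) (C1 := cd0q0) (C2 := cd0q1) (C3 := pd1)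
    rfl (fun _ => rfl) k0_mm_011_s

noncomputable def cut_mm_011_t : Cut := Cut.of [[⟨3, 0, 0, 2845415833⟩]]

noncomputable def f_mm_011_t : ℕ → ℕ → ℕ → ℕ → Bool := onCell 0 536870912 536870912 536870912 1045395039 1503240
    (rowNE 3 eng mog cd0q0 cd0q1 pd1 0 false false false .pnn 0 1 1 (qsf 0 536870912 536870912 536870912 1) ndB0q0 ndB0q1 pcB1 cut_mm_011_t Ext.none)

def k0_mm_011_t : ∃ t, chk3 f_mm_011_t t 1 1 1 = true :=
  ⟨(l 6), by decide +kernel⟩

theorem c_mm_011_t : CertNE 0 536870912 536870912 536870912 1045395039 1503240 3 eng mog cd0q0 cd0q1 pd1 false false false .pnn 0 1 1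
    ndB0q0 ndB0q1 pcB1 cut_mm_011_t Ext.none :=
  certNE0 (fam := false) (s1 := false) (s2 := false) (a := 0) (b := 1) (c := 1) (cn := .pnn) (n1 := ndB0q0) (n2 := ndB0q1) (pc := pcB1) (cut := cut_mm_011_t) (xt := Ext.none) (P1 := 0) (W1 := 536870912) (P2 := 536870912) (W2 := 536870912) (P3 := 1045395039) (W3 := 1503240) (N0 := 3) (En := eng) (mo := mog) (C1 := cd0q0) (C2 := cd0q1) (C3 := pd1)
    rfl k0_mm_011_t

noncomputable def cut_mm_012_s : Cut := Cut.of [[⟨4, 0, 0, 1449551462⟩]]

noncomputable def f_mm_012_s : ℕ → ℕ → ℕ → ℕ → Bool := onCell 0 536870912 0 536870912 1045395039 1503240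
    (rowNE 3 eng mog cd0q0 cd0q2 pd1 0 false false false .pnp 0 1 2 (qsf 0 536870912 0 536870912 1) ndB0q0 ndB0q2 pcB1 cut_mm_012_s Ext.none)

def k0_mm_012_s : ∃ t, chk3 f_mm_012_s t 1 1 1 = true :=
  ⟨(l 5), by decide +kernel⟩

theorem c_mm_012_s : CertNE 0 536870912 0 536870912 1045395039 1503240 3 eng mog cd0q0 cd0q2 pd1 false false false .pnp 0 1 2
    ndB0q0 ndB0q2 pcB1 cut_mm_012_s Ext.none :=
  certNE0 (fam := false) (s1 := false) (s2 := false) (a := 0) (b := 1) (c := 2) (cn := .pnp) (n1 := ndB0q0) (n2 := ndB0q2) (pc := pcB1) (cut := cut_mm_012_s) (xt := Ext.none) (P1 := 0) (W1 := 536870912) (P2 := 0) (W2 := 536870912) (P3 := 1045395039) (W3 := 1503240) (N0 := 3) (En := eng) (mo := mog) (C1 := cd0q0) (C2 := cd0q2) (C3 := pd1)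
    rfl k0_mm_012_s

noncomputable def cut_mm_012_t : Cut := Cut.of [[⟨3, 0, 0, 2845415833⟩]]

noncomputable def f_mm_012_t : ℕ → ℕ → ℕ → ℕ → Bool := onCell 0 536870912 0 536870912 1045395039 1503240
    (rowNE 3 eng mog cd0q0 cd0q2 pd1 0 false false false .pnp 0 1 2 (qsf 0 536870912 0 536870912 1) ndB0q0 ndB0q2 pcB1 cut_mm_012_t Ext.none)

def k0_mm_012_t : ∃ t, chk3 f_mm_012_t t 1 1 1 = true :=
  ⟨(l 5), by decide +kernel⟩

theorem c_mm_012_t : CertNE 0 536870912 0 536870912 1045395039 1503240 3 eng mog cd0q0 cd0q2 pd1 false false false .pnp 0 1 2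
    ndB0q0 ndB0q2 pcB1 cut_mm_012_t Ext.none :=
  certNE0 (fam := false) (s1 := false) (s2 := false) (a := 0) (b := 1) (c := 2) (cn := .pnp) (n1 := ndB0q0) (n2 := ndB0q2) (pc := pcB1) (cut := cut_mm_012_t) (xt := Ext.none) (P1 := 0) (W1 := 536870912) (P2 := 0) (W2 := 536870912) (P3 := 1045395039) (W3 := 1503240) (N0 := 3) (En := eng) (mo := mog) (C1 := cd0q0) (C2 := cd0q2) (C3 := pd1)
    rfl k0_mm_012_t

noncomputable def cut_mm_022_s : Cut := Cut.of [[⟨4, 0, 0, 1449551462⟩]]

noncomputable def f_mm_022_s : ℕ → ℕ → ℕ → ℕ → Bool := onCell 0 536870912 0 536870912 1045395039 1503240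
    (rowNE 3 eng mog cd0q0 cd0q2 pd2 0 false false false .pp 0 2 2 (qsf 0 536870912 0 536870912 2) ndB0q0 ndB0q2 pcB2 cut_mm_022_s Ext.none)

def k0_mm_022_s : ∃ t, chk3 f_mm_022_s t 1 1 1 = true :=
  ⟨(l 5), by decide +kernel⟩

theorem c_mm_022_s : CertNE 0 536870912 0 536870912 1045395039 1503240 3 eng mog cd0q0 cd0q2 pd2 false false false .pp 0 2 2
    ndB0q0 ndB0q2 pcB2 cut_mm_022_s Ext.none :=
  certNE0 (fam := false) (s1 := false) (s2 := false) (a := 0) (b := 2) (c := 2) (cn := .pp) (n1 := ndB0q0) (n2 := ndB0q2) (pc := pcB2) (cut := cut_mm_022_s) (xt := Ext.none) (P1 := 0) (W1 := 536870912) (P2 := 0) (W2 := 536870912) (P3 := 1045395039) (W3 := 1503240) (N0 := 3) (En := eng) (mo := mog) (C1 := cd0q0) (C2 := cd0q2) (C3 := pd2)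
    rfl k0_mm_022_s

noncomputable def cut_mm_022_t : Cut := Cut.of [[⟨3, 0, 0, 2845415833⟩]]

noncomputable def f_mm_022_t : ℕ → ℕ → ℕ → ℕ → Bool := onCell 0 536870912 0 536870912 1045395039 1503240
    (rowNE 3 eng mog cd0q0 cd0q2 pd2 0 false false false .pp 0 2 2 (qsf 0 536870912 0 536870912 2) ndB0q0 ndB0q2 pcB2 cut_mm_022_t Ext.none)

def k0_mm_022_t : ∃ t, chk3 f_mm_022_t t 1 1 1 = true :=
  ⟨(l 5), by decide +kernel⟩

theorem c_mm_022_t : CertNE 0 536870912 0 536870912 1045395039 1503240 3 eng mog cd0q0 cd0q2 pd2 false false false .pp 0 2 2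
    ndB0q0 ndB0q2 pcB2 cut_mm_022_t Ext.none :=
  certNE0 (fam := false) (s1 := false) (s2 := false) (a := 0) (b := 2) (c := 2) (cn := .pp) (n1 := ndB0q0) (n2 := ndB0q2) (pc := pcB2) (cut := cut_mm_022_t) (xt := Ext.none) (P1 := 0) (W1 := 536870912) (P2 := 0) (W2 := 536870912) (P3 := 1045395039) (W3 := 1503240) (N0 := 3) (En := eng) (mo := mog) (C1 := cd0q0) (C2 := cd0q2) (C3 := pd2)
    rfl k0_mm_022_t

noncomputable def cut_mm_101_s : Cut := Cut.of [[⟨4, 0, 0, 1449551462⟩]]

noncomputable def f_mm_101_s : ℕ → ℕ → ℕ → ℕ → Bool := onCell 536870912 536870912 536870912 536870912 1045395039 1503240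
    (rowNE 3 eng mog cd0q1 cd0q1 pd0 0 false false false .npn 1 0 1 (qsf 536870912 536870912 536870912 536870912 0) ndB0q1 ndB0q1 pcB0 cut_mm_101_s Ext.none)

def k0_mm_101_s : ∃ t, chk3 f_mm_101_s t 1 1 1 = true :=
  ⟨(l 3), by decide +kernel⟩

theorem c_mm_101_s : CertNE 536870912 536870912 536870912 536870912 1045395039 1503240 3 eng mog cd0q1 cd0q1 pd0 false false false .npn 1 0 1
    ndB0q1 ndB0q1 pcB0 cut_mm_101_s Ext.none :=
  certNE0 (fam := false) (s1 := false) (s2 := false) (a := 1) (b := 0) (c := 1) (cn := .npn) (n1 := ndB0q1) (n2 := ndB0q1) (pc := pcB0) (cut := cut_mm_101_s) (xt := Ext.none) (P1 := 536870912) (W1 := 536870912) (P2 := 536870912) (W2 := 536870912) (P3 := 1045395039) (W3 := 1503240) (N0 := 3) (En := eng) (mo := mog) (C1 := cd0q1) (C2 := cd0q1) (C3 := pd0)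
    rfl k0_mm_101_s

noncomputable def cut_mm_101_t : Cut := Cut.of [[⟨3, 0, 0, 2845415833⟩]]

noncomputable def f_mm_101_t : ℕ → ℕ → ℕ → ℕ → Bool := onCell 536870912 536870912 536870912 536870912 1045395039 1503240
    (rowNE 3 eng mog cd0q1 cd0q1 pd0 0 false false false .npn 1 0 1 (qsf 536870912 536870912 536870912 536870912 0) ndB0q1 ndB0q1 pcB0 cut_mm_101_t Ext.none)

def k0_mm_101_t : ∃ t, chk3 f_mm_101_t t 1 1 1 = true :=
  ⟨(l 3), by decide +kernel⟩

theorem c_mm_101_t : CertNE 536870912 536870912 536870912 536870912 1045395039 1503240 3 eng mog cd0q1 cd0q1 pd0 false false false .npn 1 0 1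
    ndB0q1 ndB0q1 pcB0 cut_mm_101_t Ext.none :=
  certNE0 (fam := false) (s1 := false) (s2 := false) (a := 1) (b := 0) (c := 1) (cn := .npn) (n1 := ndB0q1) (n2 := ndB0q1) (pc := pcB0) (cut := cut_mm_101_t) (xt := Ext.none) (P1 := 536870912) (W1 := 536870912) (P2 := 536870912) (W2 := 536870912) (P3 := 1045395039) (W3 := 1503240) (N0 := 3) (En := eng) (mo := mog) (C1 := cd0q1) (C2 := cd0q1) (C3 := pd0)
    rfl k0_mm_101_t

noncomputable def cut_mm_102_s : Cut := Cut.of [[⟨4, 0, 0, 1449551462⟩]]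

noncomputable def f_mm_102_s : ℕ → ℕ → ℕ → ℕ → Bool := onCell 536870912 536870912 0 536870912 1045395039 1503240
    (rowNE 3 eng mog cd0q1 cd0q2 pd0 0 false false false .npp 1 0 2 (qsf 536870912 536870912 0 536870912 0) ndB0q1 ndB0q2 pcB0 cut_mm_102_s Ext.none)

def k0_mm_102_s : ∃ t, chk3 f_mm_102_s t 1 1 1 = true :=
  ⟨(a (l 5) (l 3)), by decide +kernel⟩

theorem c_mm_102_s : CertNE 536870912 536870912 0 536870912 1045395039 1503240 3 eng mog cd0q1 cd0q2 pd0 false false false .npp 1 0 2
    ndB0q1 ndB0q2 pcB0 cut_mm_102_s Ext.none :=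
  certNE0 (fam := false) (s1 := false) (s2 := false) (a := 1) (b := 0) (c := 2) (cn := .npp) (n1 := ndB0q1) (n2 := ndB0q2) (pc := pcB0) (cut := cut_mm_102_s) (xt := Ext.none) (P1 := 536870912) (W1 := 536870912) (P2 := 0) (W2 := 536870912) (P3 := 1045395039) (W3 := 1503240) (N0 := 3) (En := eng) (mo := mog) (C1 := cd0q1) (C2 := cd0q2) (C3 := pd0)
    rfl k0_mm_102_s

noncomputable def cut_mm_102_t : Cut := Cut.of [[⟨3, 0, 0, 2845415833⟩]]

noncomputable def f_mm_102_t : ℕ → ℕ → ℕ → ℕ → Bool := onCell 536870912 536870912 0 536870912 1045395039 1503240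
    (rowNE 3 eng mog cd0q1 cd0q2 pd0 0 false false false .npp 1 0 2 (qsf 536870912 536870912 0 536870912 0) ndB0q1 ndB0q2 pcB0 cut_mm_102_t Ext.none)

def k0_mm_102_t : ∃ t, chk3 f_mm_102_t t 1 1 1 = true :=
  ⟨(l 6), by decide +kernel⟩

theorem c_mm_102_t : CertNE 536870912 536870912 0 536870912 1045395039 1503240 3 eng mog cd0q1 cd0q2 pd0 false false false .npp 1 0 2
    ndB0q1 ndB0q2 pcB0 cut_mm_102_t Ext.none :=
  certNE0 (fam := false) (s1 := false) (s2 := false) (a := 1) (b := 0) (c := 2) (cn := .npp) (n1 := ndB0q1) (n2 := ndB0q2) (pc := pcB0) (cut := cut_mm_102_t) (xt := Ext.none) (P1 := 536870912) (W1 := 536870912) (P2 := 0) (W2 := 536870912) (P3 := 1045395039) (W3 := 1503240) (N0 := 3) (En := eng) (mo := mog) (C1 := cd0q1) (C2 := cd0q2) (C3 := pd0)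
    rfl k0_mm_102_t

noncomputable def cut_mm_112_s : Cut := Cut.of [[⟨4, 0, 0, 1449551462⟩]]

noncomputable def f_mm_112_s : ℕ → ℕ → ℕ → ℕ → Bool := onCell 536870912 536870912 0 536870912 1045395039 1503240
    (rowNE 3 eng mog cd0q1 cd0q2 pd1 2 false false false .dn 1 1 2 (qsf 536870912 536870912 0 536870912 1) ndB0q1 ndB0q2 pcB1 cut_mm_112_s Ext.none)

def k0_mm_112_s : ∃ t, chk3 f_mm_112_s t 1 1 1 = true :=
  ⟨(l 5), by decide +kernel⟩

theorem c_mm_112_s : CertNE 536870912 536870912 0 536870912 1045395039 1503240 3 eng mog cd0q1 cd0q2 pd1 false false false .dn 1 1 2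
    ndB0q1 ndB0q2 pcB1 cut_mm_112_s Ext.none :=
  certNE2 (fam := false) (s1 := false) (s2 := false) (a := 1) (b := 1) (c := 2) (cn := .dn) (n1 := ndB0q1) (n2 := ndB0q2) (pc := pcB1) (cut := cut_mm_112_s) (xt := Ext.none) (P1 := 536870912) (W1 := 536870912) (P2 := 0) (W2 := 536870912) (P3 := 1045395039) (W3 := 1503240) (N0 := 3) (En := eng) (mo := mog) (C1 := cd0q1) (C2 := cd0q2) (C3 := pd1)
    rfl (fun _ => rfl) k0_mm_112_s

noncomputable def cut_mm_112_t : Cut := Cut.of [[⟨3, 0, 0, 2845415833⟩]]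

noncomputable def f_mm_112_t : ℕ → ℕ → ℕ → ℕ → Bool := onCell 536870912 536870912 0 536870912 1045395039 1503240
    (rowNE 3 eng mog cd0q1 cd0q2 pd1 0 false false false .dn 1 1 2 (qsf 536870912 536870912 0 536870912 1) ndB0q1 ndB0q2 pcB1 cut_mm_112_t Ext.none)

def k0_mm_112_t : ∃ t, chk3 f_mm_112_t t 1 1 1 = true :=
  ⟨(l 6), by decide +kernel⟩

theorem c_mm_112_t : CertNE 536870912 536870912 0 536870912 1045395039 1503240 3 eng mog cd0q1 cd0q2 pd1 false false false .dn 1 1 2
    ndB0q1 ndB0q2 pcB1 cut_mm_112_t Ext.none :=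
  certNE0 (fam := false) (s1 := false) (s2 := false) (a := 1) (b := 1) (c := 2) (cn := .dn) (n1 := ndB0q1) (n2 := ndB0q2) (pc := pcB1) (cut := cut_mm_112_t) (xt := Ext.none) (P1 := 536870912) (W1 := 536870912) (P2 := 0) (W2 := 536870912) (P3 := 1045395039) (W3 := 1503240) (N0 := 3) (En := eng) (mo := mog) (C1 := cd0q1) (C2 := cd0q2) (C3 := pd1)
    rfl k0_mm_112_t

noncomputable def cut_mm_202_s : Cut := Cut.of [[⟨4, 0, 0, 1449551462⟩]]

noncomputable def f_mm_202_s : ℕ → ℕ → ℕ → ℕ → Bool := onCell 0 536870912 0 536870912 1045395039 1503240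
    (rowNE 3 eng mog cd0q2 cd0q2 pd0 0 false false false .pp 2 0 2 (qsf 0 536870912 0 536870912 0) ndB0q2 ndB0q2 pcB0 cut_mm_202_s Ext.none)

def k0_mm_202_s : ∃ t, chk3 f_mm_202_s t 1 1 1 = true :=
  ⟨(l 3), by decide +kernel⟩

theorem c_mm_202_s : CertNE 0 536870912 0 536870912 1045395039 1503240 3 eng mog cd0q2 cd0q2 pd0 false false false .pp 2 0 2
    ndB0q2 ndB0q2 pcB0 cut_mm_202_s Ext.none :=
  certNE0 (fam := false) (s1 := false) (s2 := false) (a := 2) (b := 0) (c := 2) (cn := .pp) (n1 := ndB0q2) (n2 := ndB0q2) (pc := pcB0) (cut := cut_mm_202_s) (xt := Ext.none) (P1 := 0) (W1 := 536870912) (P2 := 0) (W2 := 536870912) (P3 := 1045395039) (W3 := 1503240) (N0 := 3) (En := eng) (mo := mog) (C1 := cd0q2) (C2 := cd0q2) (C3 := pd0)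
    rfl k0_mm_202_s

noncomputable def cut_mm_202_t : Cut := Cut.of [[⟨3, 0, 0, 2845415833⟩]]

noncomputable def f_mm_202_t : ℕ → ℕ → ℕ → ℕ → Bool := onCell 0 536870912 0 536870912 1045395039 1503240
    (rowNE 3 eng mog cd0q2 cd0q2 pd0 0 false false false .pp 2 0 2 (qsf 0 536870912 0 536870912 0) ndB0q2 ndB0q2 pcB0 cut_mm_202_t Ext.none)

def k0_mm_202_t : ∃ t, chk3 f_mm_202_t t 1 1 1 = true :=
  ⟨(l 3), by decide +kernel⟩

theorem c_mm_202_t : CertNE 0 536870912 0 536870912 1045395039 1503240 3 eng mog cd0q2 cd0q2 pd0 false false false .pp 2 0 2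
    ndB0q2 ndB0q2 pcB0 cut_mm_202_t Ext.none :=
  certNE0 (fam := false) (s1 := false) (s2 := false) (a := 2) (b := 0) (c := 2) (cn := .pp) (n1 := ndB0q2) (n2 := ndB0q2) (pc := pcB0) (cut := cut_mm_202_t) (xt := Ext.none) (P1 := 0) (W1 := 536870912) (P2 := 0) (W2 := 536870912) (P3 := 1045395039) (W3 := 1503240) (N0 := 3) (En := eng) (mo := mog) (C1 := cd0q2) (C2 := cd0q2) (C3 := pd0)
    rfl k0_mm_202_t

end Pool.Agent.Strip051.G.I9736_9750.Tab.CS.BB00

namespace Pool.Agent.Strip051.G.I9736_9750.Tab.CS.BB06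

open Pool.Agent.Strip051.PB Pool.Agent.Strip051.PB.T
open Pool.Agent.Strip051.G.I9736_9750.Tab

noncomputable def cut_pp_001_s : Cut := Cut.of [[⟨4, 0, 0, 1449551462⟩]]

noncomputable def f_pp_001_s : ℕ → ℕ → ℕ → ℕ → Bool := onCell 0 536870912 0 536870912 1045395039 1503240
    (rowNE 3 eng mog cd0q0 cd6q1 pd0 1 false true true .up 0 0 1 (qsf 0 536870912 536870912 536870912 0) ndB0q0 ndB6q1 pcB0 cut_pp_001_s Ext.none)

def k0_pp_001_s : ∃ t, chk3 f_pp_001_s t 1 1 1 = true :=
  ⟨(l 3), by decide +kernel⟩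

theorem c_pp_001_s : CertNE 0 536870912 536870912 536870912 1045395039 1503240 3 eng mog cd0q0 cd6q1 pd0 false true true .up 0 0 1
    ndB0q0 ndB6q1 pcB0 cut_pp_001_s Ext.none :=
  certNE1 (fam := false) (s1 := true) (s2 := true) (a := 0) (b := 0) (c := 1) (cn := .up) (n1 := ndB0q0) (n2 := ndB6q1) (pc := pcB0) (cut := cut_pp_001_s) (xt := Ext.none) (P1 := 0) (W1 := 536870912) (P2 := 536870912) (W2 := 536870912) (P3 := 1045395039) (W3 := 1503240) (N0 := 3) (En := eng) (mo := mog) (C1 := cd0q0) (C2 := cd6q1) (C3 := pd0)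
    rfl (fun _ => rfl) k0_pp_001_s

noncomputable def cut_pp_011_s : Cut := Cut.of [[⟨4, 0, 0, 1449551462⟩], [⟨0, 0, 0, 26843545⟩, ⟨1, 1, 0, 26843545⟩, ⟨2, 1, 0, 26843545⟩]]

noncomputable def f_pp_011_s : ℕ → ℕ → ℕ → ℕ → Bool := onCell 0 536870912 536870912 536870912 1045395039 1503240
    (rowNE 3 eng mog cd0q0 cd6q1 pd1 1 false true true .pnn 0 1 1 (qsf 0 536870912 536870912 536870912 1) ndB0q0 ndB6q1 pcB1 cut_pp_011_s Ext.none)

def k0_pp_011_s : ∃ t, chk3 f_pp_011_s t 1 1 1 = true :=
  ⟨(a (b (l 3) (b (l 3) (a (b (l 3) (a (b (l 3) (a (b (l 3) (a (l 14) (l 3))) (l 3))) (l 3))) (l 3)))) (l 3)), by decide +kernel⟩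

theorem c_pp_011_s : CertNE 0 536870912 536870912 536870912 1045395039 1503240 3 eng mog cd0q0 cd6q1 pd1 false true true .pnn 0 1 1
    ndB0q0 ndB6q1 pcB1 cut_pp_011_s Ext.none :=
  certNE1 (fam := false) (s1 := true) (s2 := true) (a := 0) (b := 1) (c := 1) (cn := .pnn) (n1 := ndB0q0) (n2 := ndB6q1) (pc := pcB1) (cut := cut_pp_011_s) (xt := Ext.none) (P1 := 0) (W1 := 536870912) (P2 := 536870912) (W2 := 536870912) (P3 := 1045395039) (W3 := 1503240) (N0 := 3) (En := eng) (mo := mog) (C1 := cd0q0) (C2 := cd6q1) (C3 := pd1)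
    rfl (fun _ => rfl) k0_pp_011_s

noncomputable def cut_pp_012_s : Cut := Cut.of [[⟨4, 0, 0, 1449551462⟩], [⟨0, 0, 0, 26843545⟩, ⟨1, 1, 0, 26843545⟩, ⟨2, 1, 0, 26843545⟩]]

noncomputable def f_pp_012_s : ℕ → ℕ → ℕ → ℕ → Bool := onCell 0 536870912 536870912 536870912 1045395039 1503240
    (rowNE 3 eng mog cd0q0 cd6q2 pd1 1 false true true .pnp 0 1 2 (qsf 0 536870912 1073741824 536870912 1) ndB0q0 ndB6q2 pcB1 cut_pp_012_s Ext.none)

def k0_pp_012_s : ∃ t, chk3 f_pp_012_s t 1 1 1 = true :=
  ⟨(a (b (l 3) (b (l 3) (a (b (l 3) (a (b (l 3) (a (b (l 3) (a (l 14) (l 3))) (l 3))) (l 3))) (l 3)))) (l 3)), by decide +kernel⟩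

theorem c_pp_012_s : CertNE 0 536870912 1073741824 536870912 1045395039 1503240 3 eng mog cd0q0 cd6q2 pd1 false true true .pnp 0 1 2
    ndB0q0 ndB6q2 pcB1 cut_pp_012_s Ext.none :=
  certNE1 (fam := false) (s1 := true) (s2 := true) (a := 0) (b := 1) (c := 2) (cn := .pnp) (n1 := ndB0q0) (n2 := ndB6q2) (pc := pcB1) (cut := cut_pp_012_s) (xt := Ext.none) (P1 := 0) (W1 := 536870912) (P2 := 1073741824) (W2 := 536870912) (P3 := 1045395039) (W3 := 1503240) (N0 := 3) (En := eng) (mo := mog) (C1 := cd0q0) (C2 := cd6q2) (C3 := pd1)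
    rfl (fun _ => rfl) k0_pp_012_s

end Pool.Agent.Strip051.G.I9736_9750.Tab.CS.BB06

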