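import Pool.Agent.Strip051.G.I9736_9750.Tab
import Pool.Agent.Strip051.PB.ExtD3

/-! # Certificates B2 (generated) -/

set_option linter.all false
set_option maxRecDepth 100000

namespace Pool.Agent.Strip051.G.I9736_9750.Tab.C.BA00

open Pool.Agent.Strip051.PB Pool.Agent.Strip051.PB.T
open Pool.Agent.Strip051.G.I9736_9750.Tab

noncomputable def cut_pm_213 : Cut := Cut.of [[⟨3, 0, 0, 1449551462⟩], [⟨4, 0, 0, 3194381926⟩], [⟨0, 1, 0, 14155776⟩, ⟨1, 1, 0, 14155776⟩, ⟨2, 2, 0, 524288⟩], [⟨0, 0, 1, 46137344⟩, ⟨1, 1, 0, 1048576⟩, ⟨2, 1, 1, 46137344⟩, ⟨0, 0, 0, 1056440320⟩, ⟨0, 1, 0, 33457795⟩, ⟨2, 1, 0, 1056440320⟩, ⟨2, 2, 0, 33457795⟩], [⟨0, 1, 0, 1048576⟩, ⟨1, 0, 1, 46137344⟩, ⟨2, 1, 1, 46137344⟩, ⟨1, 0, 0, 1056440320⟩, ⟨1, 1, 0, 33457795⟩, ⟨2, 1, 0, 1056440320⟩, ⟨2, 2, 0, 33457795⟩]]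

noncomputable def xt_pm_213 : Ext := extD3 3 ⟨4, 1, 1, 5, 33, 5, 163, 200, 81, 200, 1, 64⟩ eng cd0q2 cd0q1 pd3 true true false .pnn 2 1 3 rfl ndB0q2 ndB0q1 pcB3

noncomputable def f_pm_213 : ℕ → ℕ → ℕ → ℕ → Bool := onCell 0 536870912 1610612736 536870912 1045395039 1503240
    (rowB 3 eng mog cd0q2 cd0q1 pd3 1 true true false .pnn 2 1 3 (qsf 0 536870912 536870912 536870912 3) ndB0q2 ndB0q1 pcB3 cut_pm_213 xt_pm_213)

def k0_pm_213 : ∃ t, chk3 f_pm_213 t 2 2 1 = true :=
  ⟨(b (a (l 1) (b (l 1) (a (l 1) (l 16401528)))) (b (a (b (b (l 1) (a (l 16682184) (a (l 16640256) (l 16609064)))) (a (b (l 16672960) (a (l 16699240) (l 16692704))) (b (a (l 16651616) (l 16621096)) (l 16649056)))) (a (b (l 16535280) (a (b (l 16580408) (a (l 16608200) (l 16584304))) (l 16534392))) (b (l 16426952) (l 16443664)))) (a (a (b (b (a (l 16733216) (l 16705880)) (a (b (l 16743112) (a (l 16756360) (l 16743104))) (l 16698480))) (a (b (b (a (b (l 16761280) (l 16754072)) (l 16749792)) (a (a (l 14) (b (l 16764584) (l 16767856))) (l 16756472)))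 (a (l 14) (b (b (l 16761456) (l 16758872)) (a (l 14) (b (l 16764872) (l 16768192)))))) (b (b (l 16729744) (l 16736632)) (b (l 16743504) (a (l 16756888) (l 16743816)))))) (b (b (l 16620520) (a (l 16691360) (l 16661496))) (b (a (l 16684624) (l 16676216)) (a (b (l 16716360) (l 16723544)) (l 16670208))))) (a (b (a (b (a (l 16623064) (a (l 16609040) (l 16596848))) (a (l 16637568) (b (l 16616136) (l 16624336)))) (b (l 16559880) (a (b (l 16590416) (l 16601416)) (l 16564672)))) (a (b (l 16644320) (l 16638912)) (a (b (a (b (l 16618424) (l 16626800)) (b (l 16605624) (a (l 16619720) (l 16613640)))) (b (l 16630216) (l 16638384))) (b (l 16587304) (a (b (a (l 16617728) (l 16610360)) (a (l 16627136) (b (l 16619544) (l 16624496)))) (b (l 16597536) (l 16610640))))))) (b (l 16471272) (a (b (l 16535904) (l 16559432)) (l 16472112))))))), by decide +kernel⟩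

def k1_pm_213 : ∃ t, chk3 f_pm_213 t 4 3 1 = true :=
  ⟨(b (b (a (b (a (l 14) (b (a (a (b (b (l 16765144) (l 16768480)) (l 14)) (b (l 16760432) (b (l 16765488) (l 16763560)))) (b (l 16750720) (a (l 16760816) (l 16754384)))) (a (l 14) (b (b (l 16752120) (a (a (l 14) (l 16767392)) (l 16762600))) (b (a (l 14) (l 16765888)) (l 14)))))) (l 14)) (b (b (a (b (l 16730720) (l 16727384)) (b (l 16702464) (l 16709984))) (a (a (b (l 16751600) (b (l 16756232) (l 16759456))) (b (l 16738352) (l 16745000))) (b (l 16696520) (l 16704000)))) (a (b (a (b (a (b (l 16766168) (l 14)) (b (l 16759488) (l 16762960))) (a (l 14) (b (l 16761352) (l 14)))) (b (l 16740712) (b (l 16756264) (a (l 16763344) (l 16756336))))) (a (l 14) (b (a (b (a (l 14) (l 16765392)) (l 14)) (b (l 16760032) (l 16763912))) (l 14)))) (b (b (a (l 16737984) (l 16724888)) (a (l 16744248) (l 16730576))) (b (a (a (l 16754768) (l 16747608)) (l 16736944)) (a (b (a (l 16760568) (l 16753192)) (a (l 16758136) (l 16757160))) (a (l 16747728) (l 16740320)))))))) (b (a (l 4) (a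 (l 14) (b (a (b (a (l 14) (b (l 16761320) (a (l 14) (l 16763736)))) (l 14)) (b (b (l 16749872) (l 16743528)) (a (b (l 16762328) (l 14)) (b (l 16754392) (l 16758896))))) (a (l 14) (b (a (l 14) (b (a (l 14) (l 16761560)) (l 14))) (l 14)))))) (l 14))) (l 4)), by decide +kernel⟩

def k2_pm_213 : ∃ t, chk3 f_pm_213 t 10 12 1 = true :=
  ⟨(b (b (a (a (l 16662640) (l 16646576)) (a (l 16629608) (b (a (l 16633080) (a (b (l 16623696) (l 16628224)) (b (l 16616592) (l 16622672)))) (l 16636728)))) (a (b (l 16687456) (l 16674360)) (b (l 16633072) (l 16641328)))) (b (a (b (l 16682216) (l 16699728)) (b (l 16649584) (l 16657824))) (a (b (a (l 16722744) (l 16708520)) (a (l 16729240) (l 16714432))) (b (l 16666056) (l 16671096))))), by decide +kernel⟩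

def k3_pm_213 : ∃ t, chk3 f_pm_213 t 11 12 1 = true :=
  ⟨(b (a (a (b (a (b (l 16606656) (a (b (l 16621392) (l 16626896)) (l 16616264))) (l 16595272)) (a (b (b (a (l 16631400) (a (l 16627688) (l 16624472))) (l 16633248)) (l 16639616)) (b (a (b (l 16617912) (a (l 16628704) (l 16622952))) (l 16612152)) (a (b (l 16630136) (l 16634560)) (b (a (b (l 16623920) (l 16627200)) (l 16621032)) (a (l 16630864) (b (l 16626528) (l 16629392)))))))) (b (l 16566776) (b (l 16587856) (a (a (l 16601896) (l 16607752)) (l 16592744))))) (l 16435648)) (a (a (b (b (l 16622384) (l 16630912)) (b (l 16660408) (l 16668928))) (b (a (b (a (b (a (b (l 16628880) (l 16631352)) (b (l 16624800) (l 16628264))) (l 16633312)) (b (l 16619336) (a (b (l 16627536) (l 16630520)) (l 16624728)))) (b (a (l 16637672) (b (a (l 16632848) (l 16629960)) (l 16633760))) (l 16639512))) (b (l 16608152) (a (b (a (b (l 16625712) (l 16631272)) (l 16622648)) (a (l 16633176) (b (l 16628536) (l 16631600)))) (b (l 16614960) (l 16623064))))) (b (a (l 16646008) (a (l 16638504)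 (b (a (b (a (l 16631976) (l 16630232)) (l 16633584)) (b (l 16626656) (a (l 16631424) (l 16629416)))) (l 16635544)))) (l 16628736)))) (b (a (l 16542736) (l 16540760)) (a (a (b (a (b (l 16620888) (a (b (a (l 16630744) (l 16628456)) (l 16632632)) (l 16626584))) (l 16614456)) (a (b (b (a (l 16635000) (a (l 16632992) (l 16631248))) (l 16635896)) (l 16639200)) (b (a (b (l 16627640) (a (l 16632424) (l 16630440))) (l 16624424)) (a (l 16635232) (b (a (l 16631744) (l 16629496)) (l 16633608)))))) (b (l 16598208) (a (b (l 16616320) (a (b (l 16625464) (l 16624416)) (l 16622192))) (l 16609632)))) (l 16572816))))), by decide +kernel⟩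

def k4_pm_213 : ∃ t, chk3 f_pm_213 t 5 26 1 = true :=
  ⟨(a (a (b (b (a (l 16736520) (l 16721112)) (a (a (l 16748624) (l 16740624)) (l 16728624))) (a (b (b (l 16751296) (a (l 16760200) (l 16751824))) (a (b (a (l 14) (l 16763112)) (l 14)) (b (l 16756720) (l 16751376)))) (b (l 16737024) (a (l 16750664) (l 16742040))))) (b (b (l 16676880) (a (l 16712520) (l 16696248))) (b (a (l 16720320) (l 16703448)) (a (l 16729072) (l 16711600))))) (a (b (b (a (l 16674008) (l 16636744)) (l 16650408)) (b (l 16656712) (l 16663976))) (b (a (a (b (l 16643216) (l 16649872)) (b (a (b (a (b (a (l 16633928) (l 16627000)) (l 16635504)) (b (l 16628680) (a (l 16633376) (l 16620976)))) (l 16637504)) (b (l 16622656) (a (b (a (l 16627480) (l 16630560)) (l 16634520)) (b (l 16626488) (a (l 16626720) (l 16629536)))))) (b (l 16628720) (l 16642272)))) (b (a (l 16589264) (l 16587072)) (a (a (b (a (b (l 16629744) (a (l 16634248) (l 16632456))) (l 16626488)) (a (l 16636640) (b (a (l 16633632) (l 16631624)) (l 16634976)))) (b (l 16617976) (a (b (l 16627616)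 (a (l 16632928) (l 16630688))) (l 16624208)))) (l 16605112)))) (a (b (l 16629952) (l 16657304)) (a (b (b (a (l 16638040) (a (l 16634632) (b (a (l 16632136) (l 16629656)) (l 16633048)))) (l 16638464)) (l 16643032)) (b (a (b (a (b (l 16625360) (l 16629872)) (l 16621896)) (a (b (a (l 16632472) (l 16631680)) (l 16633232)) (b (l 16628848) (a (l 16631552) (l 16630936))))) (l 16617832)) (a (l 16635768) (b (a (b (a (l 16630712) (l 16630272)) (l 16631336)) (b (l 16626632) (a (l 16629944) (l 16629696)))) (l 16632472))))))))), by decide +kernel⟩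

def k5_pm_213 : ∃ t, chk3 f_pm_213 t 5 27 1 = true :=
  ⟨(a (b (a (a (l 14) (a (b (b (l 16758416) (a (l 14) (l 16761664))) (l 14)) (b (l 16741744) (b (l 16760544) (l 14))))) (a (b (l 16717848) (b (l 16746808) (l 16741992))) (b (l 16720768) (l 16731000)))) (a (l 14) (b (a (a (b (a (l 14) (l 16760776)) (l 14)) (b (l 16753672) (l 16759832))) (a (l 16747152) (l 16737512))) (a (l 14) (b (l 16730632) (a (l 14) (l 16753152))))))) (b (a (b (l 16672264) (l 16681648)) (b (a (l 16664720) (l 16624088)) (a (l 16673248) (l 16653024)))) (a (b (a (l 16722936) (l 16703168)) (a (l 16734928) (l 16714640))) (b (l 16651720) (l 16662424))))), by decide +kernel⟩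

def k6_pm_213 : ∃ t, chk3 f_pm_213 t 5 7 1 = true :=
  ⟨(b (b (a (a (l 4) (b (a (l 14) (b (b (a (l 14) (l 16759936)) (l 14)) (l 14))) (l 4))) (b (a (b (a (b (l 16744696) (l 16735888)) (l 16727384)) (a (b (a (l 14) (l 16753608)) (l 14)) (b (l 16737768) (l 16745120)))) (b (l 16674440) (l 16687832))) (a (b (a (l 14) (b (l 16737072) (a (l 14) (l 16755336)))) (l 14)) (b (a (l 16713808) (l 16712200)) (a (b (l 16725952) (a (l 14) (l 16749792))) (l 16707328)))))) (a (l 4) (b (a (l 14) (a (l 14) (b (b (l 16741328) (a (l 16735376) (l 16744600))) (b (a (l 14) (l 16754144)) (l 14))))) (l 14)))) (l 4)), by decide +kernel⟩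

def k7_pm_213 : ∃ t, chk3 f_pm_213 t 3 2 1 = true :=
  ⟨(a (b (b (l 1) (a (b (l 1) (l 16299704)) (b (l 16170416) (l 16146592)))) (b (a (b (l 16295680) (l 16301584)) (b (l 16131472) (l 16125216))) (a (b (l 16317664) (l 16344392)) (b (l 16107168) (a (l 16197120) (l 16083552)))))) (a (b (b (a (l 16057384) (b (l 1) (l 15980744))) (a (l 15977400) (b (l 15935864) (l 15897144)))) (b (a (b (l 15979720) (l 15963120)) (b (l 15864752) (l 15839064))) (a (b (l 15954736) (l 15955264)) (b (l 15820712) (b (l 15812096) (l 15809528)))))) (b (a (b (b (l 15934832) (l 15885488)) (b (l 15841288) (l 15801712))) (b (a (a (l 15839096) (b (l 15847912) (l 15795736))) (b (l 15923120) (l 15863216))) (a (a (l 15752280) (b (l 15749424) (l 15708112))) (b (l 15806864) (l 15753656))))) (a (b (b (l 15766344) (l 15734928)) (b (l 15707440) (a (l 15709200) (l 15658040)))) (b (a (a (l 15681920) (b (l 15670960) (l 15637248))) (b (l 15703224) (l 15655336))) (a (b (b (l 15629208) (l 15614448)) (l 15595576)) (b (b (l 15620016) (l 15597264)) (a (b (l 15566720)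 (l 15549456)) (l 15576136))))))))), by decide +kernel⟩

def k8_pm_213 : ∃ t, chk3 f_pm_213 t 6 12 1 = true :=
  ⟨(a (b (l 16382536) (a (l 16463984) (l 16380800))) (b (a (l 16224712) (l 16103152)) (a (l 16264920) (l 16135176)))), by decide +kernel⟩

def k9_pm_213 : ∃ t, chk3 f_pm_213 t 12 13 1 = true :=
  ⟨(b (a (b (l 16492296) (a (b (l 16587392) (a (b (l 16614120) (a (a (b (a (l 16629264) (l 16628816)) (l 16629664)) (b (l 16624368) (l 16628728))) (l 16617776))) (l 16594256))) (l 16545352))) (l 16442920)) (a (b (a (b (a (a (b (b (a (l 16631080) (a (l 16629224) (l 16628400))) (l 16631512)) (l 16634184)) (b (a (b (l 16628080) (a (l 16628432) (l 16627768))) (l 16624560)) (a (l 16630304) (b (a (l 16627712) (l 16627208)) (l 16628616))))) (b (l 16609160) (a (a (b (l 16625904) (a (l 16624440) (l 16626720))) (l 16622304)) (l 16612992)))) (a (l 16637400) (b (a (a (l 16628840) (b (a (b (l 16626304) (l 16626472)) (l 16626288)) (l 16627208))) (a (b (l 16623704) (a (l 16625968) (l 16625920))) (l 16620056))) (a (l 16631416) (a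 (b (a (l 16627016) (l 16625984)) (l 16628376)) (b (l 16625576) (a (l 16626360) (b (l 16625152) (l 16625544))))))))) (b (l 16575328) (a (b (l 16604152) (a (l 16620960) (l 16608200))) (l 16582936)))) (a (b (a (l 16646160) (l 16614256)) (l 16629680)) (b (a (b (a (a (b (a (l 16625760) (b (l 16624760) (l 16624992))) (l 16627128)) (b (l 16624840) (a (l 16625224) (l 16624560)))) (l 16618800)) (a (l 16629120) (a (b (a (l 16624744) (l 16624192)) (l 16626032)) (b (l 16623592) (a (b (l 16623928) (l 16624504)) (l 16623872)))))) (l 16604648)) (a (b (l 16610120) (l 16636176)) (b (a (a (b (a (b (l 16623608) (l 16624064)) (l 16623592)) (l 16625144)) (b (l 16621600) (a (b (l 16623352) (l 16623680)) (l 16623352)))) (l 16614600)) (a (l 16617000) (a (b (a (b (l 16623136) (l 16623360)) (l 16623144)) (l 16619208)) (b (l 16619664) (a (l 16623096) (l 16622952)))))))))) (b (l 16479648) (a (b (l 16563008) (l 16617520)) (l 16514752))))), by decide +kernel⟩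

def k10_pm_213 : ∃ t, chk3 f_pm_213 t 13 13 1 = true :=
  ⟨(b (a (l 16320200) (l 16182472)) (a (l 16247560) (b (l 16230584) (l 16270184)))), by decide +kernel⟩

def k11_pm_213 : ∃ t, chk3 f_pm_213 t 24 28 1 = true :=
  ⟨(b (b (a (l 16661952) (b (a (l 16641640) (b (b (l 16620000) (l 16629088)) (l 16631160))) (l 16620544))) (a (l 16674680) (l 16629936))) (b (a (l 16688912) (l 16664744)) (a (l 16704696) (l 16680192)))), by decide +kernel⟩

def k12_pm_213 : ∃ t, chk3 f_pm_213 t 25 56 1 = true :=
  ⟨(a (b (a (b (a (a (b (a (l 16622888) (l 16622720)) (a (l 16624368) (b (l 16601816) (l 16623552)))) (b (l 16617816) (l 16622704))) (l 16610664)) (a (b (a (l 16626400) (a (l 16624144) (b (l 16622632) (l 16623344)))) (l 16627768)) (b (l 16619360) (a (a (l 16623960) (b (l 16622512) (l 16623184))) (l 16621864))))) (l 16595800)) (a (b (a (l 16632312) (b (a (l 16626080) (a (l 16623832) (b (l 16622432) (l 16623064)))) (l 16627576))) (l 16635552)) (b (a (b (l 16617792) (a (a (l 16623744) (b (l 16622368) (l 16622992))) (l 16620408)))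 (l 16607144)) (a (b (a (l 16625952) (b (a (l 16622976) (l 16622336)) (l 16623696))) (l 16627584)) (b (l 16616352) (a (b (a (l 16622960) (l 16622320)) (l 16623712)) (l 16619088))))))) (b (l 16551224) (l 16618968))), by decide +kernel⟩

def k13_pm_213 : ∃ t, chk3 f_pm_213 t 25 57 1 = true :=
  ⟨(a (b (b (a (l 16642312) (a (l 16632640) (b (a (l 16626016) (b (a (l 16622984) (l 16621992)) (l 16623760))) (l 16627784)))) (l 16622032)) (a (l 16661056) (l 16626880))) (b (a (b (a (b (l 16615080) (a (b (a (l 16623048) (l 16621456)) (a (l 16624480) (l 16623096))) (l 16617952))) (l 16604232)) (a (b (a (l 16626272) (b (a (l 16623144) (l 16620968)) (a (l 16624624) (l 16623200)))) (l 16628176)) (b (l 16614008) (a (b (a (b (l 16622904) (l 16623520)) (l 16620536)) (a (l 16624808) (b (l 16622728) (l 16623600)))) (l 16617032))))) (a (l 16575352) (l 16581248))) (a (b (b (a (l 16631880) (a (l 16626720) (b (a (b (l 16622544) (l 16623696)) (l 16620168)) (a (l 16625040) (b (l 16622368) (l 16623536)))))) (l 16611264)) (l 16617160)) (b (a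 (b (l 16613160) (a (b (a (b (l 16622216) (l 16623376)) (l 16619848)) (a (l 16624808) (b (l 16622064) (l 16623232)))) (l 16616344))) (l 16602160)) (a (b (a (l 16626616) (b (a (b (l 16621936) (l 16623096)) (l 16609112)) (a (l 16624552) (b (l 16621816) (l 16622976))))) (l 16628432)) (b (a (l 16621344) (l 16609000)) (a (b (a (b (a (l 16622408) (l 16621104)) (l 16622872)) (b (l 16618608) (l 16615000))) (a (l 16624344) (b (a (l 16622304) (l 16621024)) (l 16622776)))) (b (l 16614216) (a (b (l 16618544) (a (l 16620992) (l 16619392))) (l 16615920)))))))))), by decide +kernel⟩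

def k14_pm_213 : ∃ t, chk3 f_pm_213 t 13 28 1 = true :=
  ⟨(a (b (a (l 16499912) (l 16430640)) (a (b (l 16541240) (a (b (l 16579272) (l 16572992)) (l 16554432))) (l 16487144))) (b (l 16317112) (l 16372856))), by decide +kernel⟩

def k15_pm_213 : ∃ t, chk3 f_pm_213 t 12 29 1 = true :=
  ⟨(b (a (b (a (l 16701088) (l 16697288)) (a (b (l 16736104) (a (l 16752080) (l 16739856))) (l 16695120))) (b (a (l 16650312) (a (l 16629280) (b (b (a (l 16632360) (a (l 16626280) (b (a (b (a (l 16622216) (l 16620960)) (l 16622688)) (b (l 16618504) (a (l 16620936) (l 16619360)))) (a (l 16624192) (b (l 16624112) (l 16622616)))))) (l 16611376)) (l 16617648)))) (a (l 16668824) (b (l 16634408) (l 16643712))))) (a (b (a (b (a (l 14) (l 16750160)) (l 14)) (b (l 16731288) (a (l 16748376) (l 16735520)))) (a (l 14) (b (a (l 14) (l 16746600)) (l 14)))) (b (a (b (l 16704536) (l 16714936)) (b (l 16674560) (l 16685056))) (a (b (l 16705016) (a (l 16723760) (l 16730616))) (b (l 16696232) (l 16687168)))))), by decide +kernel⟩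

def k16_pm_213 : ∃ t, chk3 f_pm_213 t 52 116 1 = true :=
  ⟨(a (b (a (b (a (b (l 16614104) (a (b (l 16618488) (a (l 16620888) (l 16619352))) (l 16615856))) (l 16608688)) (a (b (a (b (l 16621440) (l 16622560)) (b (l 16618488) (a (l 16620864) (l 16619360)))) (l 16612520)) (b (l 16614080) (a (b (l 16618504) (a (l 16620840) (l 16619384))) (l 16615880))))) (l 16601224)) (a (b (a (l 16626184) (b (a (l 16621928) (b (l 16618544) (a (l 16620840) (l 16619424)))) (l 16623000))) (l 16628360)) (b (a (b (l 16614144) (a (b (l 16618592) (a (l 16620848) (l 16619480))) (l 16616000))) (l 16608728)) (a (b (a (l 16621944) (b (l 16618664) (a (l 16620872) (l 16619544)))) (l 16623056)) (b (l 16614312) (a (b (a (l 16619584) (l 16617952)) (a (l 16620904) (l 16619624))) (l 16616216))))))) (b (l 16577728) (a (l 16601296) (l 16585640)))), by decide +kernel⟩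

def k17_pm_213 : ∃ t, chk3 f_pm_213 t 52 117 1 = true :=
  ⟨(a (b (a (l 16635008) (b (a (l 16626376) (b (a (l 16622024) (b (a (l 16619672) (l 16618096)) (l 16622928))) (l 16623176))) (l 16628768))) (l 16619152)) (b (a (b (a (b (l 16614576) (a (b (a (l 16619776) (l 16618256)) (l 16620400)) (l 16616536))) (l 16609168)) (a (b (a (l 16622176) (b (a (l 16619888) (l 16618432)) (l 16620512))) (l 16623384)) (b (a (l 16621968) (l 16613136)) (a (b (a (l 16620008) (l 16618616)) (l 16620632)) (b (l 16616016) (a (l 16618712) (l 16617040))))))) (l 16622752)) (a (b (a (l 16626920) (b (a (l 16622408) (b (a (l 16620144) (l 16618816)) (l 16620776))) (l 16623680))) (l 16629552)) (b (a (b (a (b (l 16616272) (a (l 16618912) (l 16617304))) (l 16613616)) (a (b (a (l 16620288) (l 16619016)) (l 16620928)) (b (l 16616552) (a (l 16619128) (l 16617592))))) (l 16610064)) (a (b (l 16621584) (l 16624088)) (b (a (b (l 16616856) (a (l 16619344) (l 16617888))) (l 16614232)) (a (l 16620664) (b (l 16622408) (a (l 16619576) (l 16618192)))))))))),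 by decide +kernel⟩

def k18_pm_213 : ∃ t, chk3 f_pm_213 t 53 58 1 = true :=
  ⟨(b (l 16535056) (a (b (l 16577736) (a (l 16623728) (l 16586784))) (l 16552296))), by decide +kernel⟩

def k19_pm_213 : ∃ t, chk3 f_pm_213 t 26 59 1 = true :=
  ⟨(a (b (b (a (l 16650080) (a (l 16637096) (b (l 16625584) (l 16630768)))) (a (l 16660672) (l 16643312))) (b (l 16635888) (l 16654536))) (b (a (b (a (b (a (b (a (b (a (l 16618352) (l 16616688)) (a (l 16619816) (l 16618504))) (l 16614968)) (a (l 16621152) (b (a (l 16618664) (l 16617096)) (l 16619424)))) (l 16621960)) (a (l 16623904) (b (a (b (a (l 16618984) (l 16617504)) (l 16619744)) (b (l 16614816) (l 16622072))) (a (l 16621744) (b (a (l 16619312) (l 16617920)) (l 16620072)))))) (b (l 16599904) (a (b (l 16610264) (a (b (l 16615304) (a (l 16618128) (l 16616472))) (l 16612640))) (l 16604744)))) (a (l 16608712) (b (a (b (a (l 16624904) (b (l 16615824) (a (l 16618552) (l 16617000)))) (l 16621256)) (b (l 16611296) (a (b (l 16616360) (a (l 16618968) (l 16617520))) (l 16613752)))) (a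 (l 16625464) (b (a (l 16620488) (b (a (l 16617776) (l 16616064)) (l 16623928))) (l 16622128)))))) (b (l 16579784) (a (b (l 16601856) (a (b (l 16612480) (a (b (a (l 16618296) (l 16616696)) (l 16619176)) (l 16615008))) (l 16607032))) (l 16590216)))) (a (b (a (l 16641136) (l 16631784)) (l 16627784)) (b (a (b (a (b (a (l 16621392) (b (a (l 16618816) (l 16617328)) (l 16619688))) (l 16623120)) (b (a (b (l 16614608) (l 16622000)) (l 16611944)) (a (b (l 16618608) (l 16620208)) (b (l 16615336) (a (l 16618256) (l 16616640)))))) (a (l 16627608) (l 16622720))) (b (l 16604488) (a (b (a (b (l 16616096) (a (l 16618872) (l 16617376))) (l 16613480)) (a (l 16620568) (b (l 16616848) (l 16618760)))) (l 16610040)))) (a (l 16634528) (b (a (l 16624008) (b (a (b (a (l 16618456) (l 16616856)) (l 16619456)) (l 16615192)) (a (l 16621864) (b (l 16618392) (l 16620152))))) (l 16627952))))))), by decide +kernel⟩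

def k20_pm_213 : ∃ t, chk3 f_pm_213 t 27 29 1 = true :=
  ⟨(b (a (l 16478832) (l 16398936)) (a (b (l 16556840) (a (b (l 16584464) (a (b (a (b (l 16609408) (a (b (l 16614968) (l 16617224)) (l 16612312))) (l 16603872)) (a (b (a (l 16620000) (b (l 16615936) (l 16618088))) (l 16622064)) (b (l 16611360) (a (b (l 16616904) (l 16618968)) (l 16614368))))) (l 16596584))) (l 16559304))) (l 16541776))), by decide +kernel⟩

def k21_pm_213 : ∃ t, chk3 f_pm_213 t 12 30 1 = true :=
  ⟨(b (a (l 14) (b (a (b (a (l 14) (l 16732648)) (l 14)) (b (a (l 16728448) (l 16713048)) (a (b (l 16738448) (l 14)) (l 16726608)))) (a (l 14) (b (a (l 14) (b (l 16737360) (l 14))) (l 14))))) (l 14)), by decide +kernel⟩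

def k22_pm_213 : ∃ t, chk3 f_pm_213 t 13 60 1 = true :=
  ⟨(a (b (a (b (a (l 16696864) (l 16679840)) (a (l 16710576) (l 16693712))) (b (a (l 16661888) (l 16621960)) (a (l 16675936) (l 16657168)))) (a (b (a (l 16719952) (l 16708528)) (a (b (l 16736792) (l 14)) (b (l 16720288) (l 16728448)))) (b (a (l 16690960) (l 16672416)) (a (l 16707016) (l 16688752))))) (a (b (a (b (a (b (a (l 16627112) (b (a (l 16621600) (b (l 16617880) (l 16619848))) (l 16623728))) (l 16631512)) (b (a (b (l 16613520) (a (l 16619752) (b (l 16615384) (l 16617760)))) (l 16608144)) (a (l 16623792) (b (a (b (l 16616576) (l 16618832)) (l 16613984)) (a (l 16621704) (b (l 16617752) (l 16619904))))))) (b (l 16633616) (l 16641096))) (b (a (b (l 16595648) (l 16606560)) (l 16583760)) (a (b (a (b (a (l 16619904) (l 16616576)) (l 16622400)) (b (l 16610656) (a (b (l 16616720) (l 16619152)) (l 16614120)))) (a (l 16628144) (b (a (l 16622232) (b (l 16618120) (l 16620424))) (l 16624768)))) (b (l 16600960) (a (b (l 16613616) (a (l 16620544) (l 16617144))) (l 16608256))))))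 (b (a (l 16652816) (a (l 16637360) (b (a (l 16625280) (b (a (l 16618672) (l 16614848)) (a (l 16623264) (l 16620200)))) (l 16630816)))) (a (l 16669440) (l 16648992)))) (b (a (l 16589080) (l 16529304)) (a (b (a (b (l 16607424) (a (b (a (l 16621744) (l 16618328)) (l 16624696)) (b (l 16612272) (a (l 16620072) (l 16616256))))) (l 16596216)) (a (b (a (l 16631192) (b (l 16623288) (l 16627872))) (l 16637360)) (b (a (b (l 16616192) (a (l 16623568) (l 16620192))) (l 16610960)) (a (l 16629032) (b (l 16620232) (l 16625584)))))) (b (l 16568376) (a (b (l 16597800) (l 16611104)) (l 16586248))))))), by decide +kernel⟩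

def k23_pm_213 : ∃ t, chk3 f_pm_213 t 13 61 1 = true :=
  ⟨(b (a (b (a (a (l 14) (b (l 16736872) (l 14))) (a (b (l 16719776) (l 16728624)) (l 16706216))) (a (l 14) (a (l 14) (b (l 16720096) (l 16729720))))) (a (b (a (l 16687256) (l 16667184)) (a (l 16706320) (l 16686696))) (a (b (l 16645896) (l 16665896)) (b (a (b (a (b (l 16624376) (l 16629512)) (b (l 16616864) (l 16623120))) (l 16634008)) (b (l 16607272) (a (b (l 16621824) (l 16627744)) (l 16616984)))) (b (a (l 16644240) (a (l 16635680) (l 16629576))) (l 16649184)))))) (a (l 14) (a (b (a (b (l 16721464) (l 14)) (l 16718048)) (a (l 14) (b (l 16724144) (l 14)))) (b (a (l 16687336) (l 16665872)) (a (l 16720744) (l 16689520)))))), by decide +kernel⟩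

def k24_pm_213 : ∃ t, chk3 f_pm_213 t 6 31 1 = true :=
  ⟨(b (a (l 4) (b (a (l 14) (b (a (l 14) (a (l 14) (b (l 16708320) (l 14)))) (l 14))) (l 14))) (l 4)), by decide +kernel⟩

def k25_pm_213 : ∃ t, chk3 f_pm_213 t 7 6 1 = true :=
  ⟨(a (b (a (b (l 15965920) (b (l 15981776) (l 15996648))) (a (b (l 15851304) (l 15866200)) (b (l 15769264) (l 15778312)))) (a (b (b (l 16015576) (l 16039176)) (b (a (l 16111344) (l 16024752)) (a (l 16148096) (l 16059336)))) (b (b (a (l 15887088) (l 15794712)) (a (l 15906752) (l 15811392))) (b (a (l 15932072) (l 15833816)) (a (a (l 15988712) (l 15939664)) (b (l 15855184) (l 15871952))))))) (a (b (b (a (b (l 15696848) (l 15691944)) (l 15639248)) (a (b (l 15690200) (l 15692208)) (l 15627352))) (b (a (a (l 15749128) (b (l 15674312) (l 15684240))) (b (l 15625208) (l 15628296))) (a (b (b (l 15723408) (l 15734616)) (a (l 15783192) (l 15726888))) (b (a (l 15654192) (l 15618696)) (a (a (l 15683792) (l 15660400)) (l 15632656)))))) (b (a (b (l 15574072) (a (l 15578072) (l 15539416))) (b (a (b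 (l 15533704) (l 15519576)) (l 15531416)) (a (a (b (l 15512904) (l 15504416)) (l 15497016)) (l 15491312)))) (a (b (a (l 15573040) (l 15531176)) (a (b (l 15579808) (l 15592000)) (b (l 15534968) (l 15544960)))) (b (a (b (a (l 15498176) (l 15480256)) (a (l 15495080) (l 15473752))) (b (l 15466400) (l 15453672))) (a (a (l 15499904) (b (l 15472568) (l 15478208))) (b (l 15445560) (l 15444040)))))))), by decide +kernel⟩

def k26_pm_213 : ∃ t, chk3 f_pm_213 t 14 14 1 = true :=
  ⟨(b (a (b (a (l 16192664) (l 16102040)) (a (l 16246800) (a (l 16178584) (l 16130936)))) (b (a (a (l 16029880) (l 15979728)) (a (l 15928144) (l 15874840))) (a (a (l 16081520) (b (l 16016656) (l 16045224))) (b (a (l 15964376) (l 15910336)) (a (l 15992608) (l 15938216)))))) (a (b (a (l 16312848) (a (l 16244224) (l 16196256))) (a (l 16393896) (a (l 16325832) (l 16299168)))) (b (a (a (b (l 16128760) (l 16165208)) (b (l 16077448) (l 16113864))) (a (b (l 16024632) (l 16061024)) (b (l 15970040) (b (l 15996856) (l 16016304))))) (a (a (b (l 16206248) (l 16252568))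 (b (l 16155080) (l 16201840))) (a (b (a (l 16115792) (l 16089064)) (a (l 16162912) (l 16136440))) (b (b (l 16037112) (l 16059408)) (a (l 16109552) (b (l 16069568) (l 16095296))))))))), by decide +kernel⟩

def k27_pm_213 : ∃ t, chk3 f_pm_213 t 14 30 1 = true :=
  ⟨(b (a (a (b (l 16466752) (l 16522088)) (b (l 16376888) (l 16434664))) (a (b (a (l 16304984) (a (l 16267672) (l 16242376))) (a (l 16364432) (a (l 16328008) (l 16303328)))) (b (a (a (l 16216720) (l 16190712)) (b (a (l 16149872) (l 16122920)) (a (l 16179232) (l 16152608)))) (a (b (l 16249352) (l 16282536)) (b (a (l 16210744) (l 16184536)) (a (l 16244600) (l 16218896))))))) (a (b (a (a (b (l 16586848) (a (b (a (l 16643448) (l 16614088)) (a (l 16634744) (b (l 16625072) (l 16631496)))) (l 16608208))) (l 16563192)) (a (l 16521488) (l 16477632))) (a (a (b (a (l 16648896) (b (a (l 16634016) (l 16626912)) (l 16643120))) (l 16667496)) (b (a (b (l 16614016) (a (l 16633592) (l 16625984))) (l 16603840)) (a (l 16649984) (b (a (l 16633560) (l 16625464)) (l 16644440)))))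 (b (l 16553536) (a (b (l 16602040) (a (a (l 16634040) (l 16625512)) (l 16611488))) (l 16571688))))) (a (b (a (l 16431968) (b (l 16366712) (l 16403744))) (a (l 16508728) (b (l 16443352) (l 16485704)))) (b (a (b (l 16318112) (l 16356280)) (b (a (l 16280992) (l 16255888)) (a (l 16320120) (l 16295728)))) (a (b (l 16397232) (l 16441160)) (b (l 16350400) (l 16396120))))))), by decide +kernel⟩

def k28_pm_213 : ∃ t, chk3 f_pm_213 t 14 31 1 = true :=
  ⟨(b (a (b (a (b (a (l 16693664) (l 16671256)) (a (b (l 16714440) (l 14)) (b (l 16692888) (l 16707856)))) (b (a (b (a (a (l 16649408) (l 16642768)) (l 16630752)) (a (l 16660872) (a (l 16651752) (l 16644928)))) (b (l 16602408) (l 16665280))) (a (l 16677760) (b (a (b (l 16647088) (l 16655816)) (l 16635448)) (a (l 16668192) (b (a (l 16654752) (l 16647256)) (l 16660160))))))) (b (a (l 14) (a (b (l 16701808) (l 14)) (b (l 16679128) (l 16696576)))) (l 14))) (b (a (a (b (l 16572792) (b (l 16606864) (a (l 16639448) (l 16620744)))) (b (l 16530928) (l 16579080))) (a (b (l 16488248)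 (l 16538624)) (b (l 16445272) (l 16498024)))) (a (b (a (b (a (b (a (l 16659648) (l 16652192)) (l 16665600)) (b (l 16638800) (l 16650840))) (a (l 16679464) (b (a (l 16665776) (l 16658552)) (a (l 16675408) (l 16669376))))) (b (l 16616984) (a (b (l 16645496) (a (b (l 16659392) (l 16665384)) (l 16653912))) (l 16633920)))) (a (b (l 16692536) (l 14)) (b (a (b (a (l 16673352) (b (l 16663600) (a (l 16671496) (l 16667936)))) (l 16680544)) (b (l 16654016) (a (b (l 16668248) (a (l 16676072) (l 16672728))) (l 16663264)))) (a (l 14) (b (a (l 14) (b (a (l 14) (l 16671408)) (l 14))) (l 14)))))) (b (a (l 16592312) (l 16554416)) (a (b (l 16634512) (a (b (l 16664536) (a (l 14) (b (l 16671072) (l 14)))) (l 16654952))) (b (l 16598992) (l 16650640))))))) (b (a (l 14) (b (a (l 14) (a (l 14) (b (a (l 16668024) (l 16652440)) (l 14)))) (l 14))) (l 14))), by decide +kernel⟩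

def k29_pm_213 : ∃ t, chk3 f_pm_213 t 15 14 1 = true :=
  ⟨(a (b (a (b (b (l 15780872) (l 15864320)) (b (a (l 15854224) (l 15795704)) (a (l 15881736) (l 15822864)))) (b (a (b (l 15693576) (l 15712056)) (l 15655584)) (a (b (l 15734456) (l 15761216)) (a (b (l 15691296) (l 15714968)) (l 15680544))))) (a (b (b (a (l 15913376) (l 15854328)) (a (b (l 15940184) (l 15959712)) (l 15911808))) (b (a (b (l 15980688) (l 16003232)) (a (l 15948152) (l 15918312))) (a (b (l 16027464) (l 16095488)) (a (l 15997312) (l 15967976))))) (b (a (b (l 15792568) (l 15829272)) (a (b (l 15744672) (l 15781168)) (b (l 15718160) (l 15751424)))) (a (b (l 15872304) (a (l 15938112) (l 15907648))) (b (a (l 15824832) (a (l 15800472) (l 15785432))) (l 15881800)))))) (a (b (a (b (l 15613192) (l 15647120)) (b (l 15563928) (l 15595920))) (b (a (l 15699488) (l 15731192)) (a (b (l 15756128) (a (a (l 15822584) (l 15810760)) (l 15793752))) (a (l 15742632) (l 15714760))))) (b (a (b (a (l 15521848) (l 15493184)) (a (l 15551976) (l 15521672))) (b (l 15452184)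 (l 15474888))) (b (a (b (l 15571984) (l 15603704)) (b (l 15506128) (l 15536720))) (a (l 15669360) (b (l 15578032) (l 15633712))))))), by decide +kernel⟩

def k30_pm_213 : ∃ t, chk3 f_pm_213 t 15 30 1 = true :=
  ⟨(a (b (a (b (a (b (a (l 16095536) (l 16067712)) (a (l 16125600) (l 16098184))) (a (l 16083448) (l 16026128))) (a (b (a (l 16157984) (l 16131080)) (a (l 16192896) (l 16166608))) (a (a (l 16128376) (l 16114848)) (l 16094424)))) (a (b (a (l 15997232) (l 15967888)) (a (l 16067016) (l 16039400))) (b (l 15923048) (l 15997704)))) (a (b (a (b (a (l 16230552) (l 16205000)) (a (l 16271176) (l 16246512))) (b (a (l 16179288) (l 16153472)) (l 16209392))) (a (b (l 16303160) (l 16351032)) (b (l 16256088) (l 16306712)))) (b (a (a (l 16149640) (l 16124576)) (b (l 16063488) (l 16112816))) (a (b (l 16210176) (l 16264488)) (b (l 16167032) (l 16226608)))))) (a (b (a (b (a (a (l 15885352) (l 15871848)) (l 15855320)) (a (l 15956408) (a (l 15937568) (l 15927616)))) (b (l 15820064) (a (l 15912944) (l 15891552)))) (a (b (a (l 16052320)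 (b (l 16004088) (l 16059536))) (b (l 16129760) (l 16197168))) (b (a (l 16015272) (l 16000520)) (a (b (l 16110744) (a (l 16186272) (l 16185080))) (l 16143312))))) (b (a (b (l 15766688) (l 15857584)) (b (l 15709320) (a (l 15823968) (l 15802704)))) (a (b (l 15978872) (b (l 16097536) (a (l 16189896) (l 16200480)))) (b (a (a (l 15964192) (l 15959784)) (b (l 15912456) (l 16004928))) (a (b (a (l 16100104) (l 16104488)) (l 137895352736514079)) (b (a (l 16112560) (l 16124544)) (l 138645563342471199)))))))), by decide +kernel⟩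

def k31_pm_213 : ∃ t, chk3 f_pm_213 t 30 31 1 = true :=
  ⟨(b (b (a (a (b (l 16402672) (l 16458216)) (b (l 16361512) (l 16420648))) (a (b (l 16323600) (l 16387688)) (b (l 16291952) (l 16363376)))) (a (b (a (l 16517720) (l 16484128)) (a (b (l 16564816) (l 16597296)) (b (l 16534416) (l 16569088)))) (a (b (l 16456744) (b (l 16511520) (a (l 16553120) (l 16546376)))) (b (a (l 16443344) (l 16439744)) (b (a (l 16503024) (l 16503888)) (a (b (l 16533760) (l 16554544)) (b (l 16536968) (b (l 16553704) (l 16564992))))))))) (b (a (b (a (b (l 16630032) (a (l 14) (l 16656400))) (b (a (l 16610144) (l 16599128)) (a (l 16644776) (l 16635184)))) (l 14)) (b (b (a (a (l 16590744) (l 16585992)) (a (b (l 16575664) (l 16596816)) (b (l 16582088) (a (l 16602040) (l 16608320))))) (b (a (a (l 16619040) (l 16615776)) (a (l 16617896) (a (l 16624280) (l 16631488)))) (a (a (l 16637792) (l 16635472)) (a (a (l 16637312) (l 16640728)) (a (l 16646280) (l 16654400)))))) (b (b (a (a (l 16656360) (l 16654920)) (a (a (l 16657560) (l 16661608)) (a (l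 16667904) (b (l 16671312) (l 16682416))))) (a (l 14) (a (a (l 14) (l 16681976)) (a (b (l 16683744) (l 14)) (l 600224482126037865124383))))) (l 14)))) (l 14))), by decide +kernel⟩

def k32_pm_213 : ∃ t, chk3 f_pm_213 t 62 62 1 = true :=
  ⟨(b (a (b (l 16272096) (a (l 16355088) (l 16357000))) (a (b (a (l 16269792) (b (l 16249216) (l 16295760))) (b (l 16342032) (l 16393328))) (b (l 16280080) (b (l 587372001423056193786399) (a (l 589507212049588178391583) (l 16427376)))))) (a (a (b (l 16442288) (b (l 16512336) (b (l 16548576) (b (l 16566928) (l 16579304))))) (b (b (l 16428352) (l 16478800)) (b (b (l 16518040) (l 16544808)) (b (a (l 16564776) (l 16580224)) (a (b (l 16584752) (l 16598224)) (b (l 16601552) (l 16615928))))))) (b (a (b (l 590842583382299133694495) (a (l 16497056) (l 16514080))) (b (a (l 593278706521533450244639) (l 16492816)) (a (b (l 593600083390942706913823) (l 16552568)) (b (l 594592172345656951329311) (a (l 596553580055369408434719) (l 16589584)))))) (b (a (b (a (l 16540360) (l 16560784)) (a (l 16570008)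 (a (l 16586632) (l 16599464)))) (a (b (l 16607656) (a (l 16613872) (l 16630032))) (a (b (b (l 596955084969348798992927) (l 597750600807527561482783)) (l 16648120)) (b (l 598908422228529004958239) (a (b (l 599987844987217216360991) (c (l 600822560156552645743135) (l 599383714118803238113823))) (l 16715368)))))) (a (a (a (b (l 16594744) (b (l 16617272) (l 16632456))) (b (l 16606024) (b (l 16629456) (l 16645256)))) (a (b (l 16618712) (b (l 16643160) (l 16680600))) (b (l 16653936) (b (l 16700472) (a (l 16671552) (l 16680088)))))) (b (a (c (a (l 16683384) (l 16722936)) (l 599390919878207002448415)) (a (c (l 16733208) (l 16693008)) (a (l 16703464) (b (c (l 602269188414458152735263) (l 600778460909001435025951)) (a (l 16722784) (l 602798091154696561234463)))))) (b (c (a (a (l 16710272) (l 16730264)) (a (l 16731616) (l 602364016208212139872287))) (a (l 600572664420429076714015) (a (l 16701672) (l 602362286825955165000223)))) (a (a (a (l 16689120) (l 16719656)) (a (l 16708800) (l 16719496))) (a (c (l 602327987411193166058015)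 (l 16721672)) (l 602628899923895574188063)))))))))), by decide +kernel⟩

def k33_pm_213 : ∃ t, chk3 f_pm_213 t 62 63 1 = true :=
  ⟨(b (b (a (b (b (a (a (l 16592960) (l 16603944)) (a (a (l 16614552) (l 16622920)) (a (l 16632448) (l 16685184)))) (a (a (l 16617336) (l 16650592)) (a (a (l 16641360) (l 16650584)) (a (l 16682016) (l 599478253682181030498847))))) (b (a (a (l 16641592) (b (l 16648808) (l 16661536))) (a (c (l 599735643408084528140831) (l 598920527904327449563679)) (l 600460831034482262839839))) (a (a (b (l 16659624) (l 16671512)) (l 599557228805246615048735)) (l 601123184438878971417119)))) (a (a (a (b (b (a (l 16652248) (l 16679680)) (l 600129077871531622912543)) (l 602210389417723227770911)) (b (b (b (l 16661168) (l 16698120)) (l 600860030105452394615327)) (l 603051589444241957756959))) (b (b (c (b (a (l 16688520) (l 16706040)) (l 601570517982666390491679)) (l 600033961847401546060319)) (l 602125937917510765858847)) (l 602883839706651319902239))) (b (b (a (b (a (c (l 16725640) (l 16698448)) (l 602593159357252702933535))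 (l 602900124707854292176927)) (l 603027522534113386008607)) (a (l 603156361512253222129695) (l 603739307537630251868191))) (a (l 603449347587769159016479) (l 603098571210096922533919))))) (a (b (a (b (a (l 599859006009077474939423) (l 600699774016312051110431)) (l 601375097787635541955103)) (b (l 602417770712531586474015) (l 603737866127020658827295))) (a (l 14) (l 602446305854159629541407))) (b (a (a (l 603175816952279957741599) (l 602672854930983096508447)) (a (l 143978608078520415) (l 143968575035867231))) (b (a (l 143966444745424991) (l 143942118053101663)) (l 14))))) (l 14)), by decide +kernel⟩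

def k34_pm_213 : ∃ t, chk3 f_pm_213 t 63 124 1 = true :=
  ⟨(b (a (a (b (l 16268512) (l 16326560)) (b (l 16290936) (l 582868541176720298598943))) (a (a (b (l 16316128) (l 139870007255056415)) (b (l 139304445848961055) (l 140275933266264095))) (a (b (l 139626534099648543) (b (l 140433988095213599) (l 141010956968624159))) (b (l 140919834947780639) (a (b (l 140795590054363167) (l 141613420789973023)) (l 38)))))) (a (a (b (l 16452584) (l 590108312834174256095775)) (b (l 586612654622130804908575) (a (l 590576687721880783348255) (l 141415577294848031)))) (a (b (a (l 140850909242998815) (b (l 141077821028483103) (a (l 141508417307459615) (l 141802468040458271)))) (a (b (l 141658569399697439) (l 142237874693750815)) (b (a (l 142101878816702495) (a (l 142349475174957087) (l 142522029854441503))) (a (l 142735403830919199) (b (l 142937301728182303) (l 143287152647667743)))))) (a (b (b (a (l 141479898717552671) (l 141780477895540767)) (a (l 142114935688462367) (c (a (l 142640845767917599) (l 142831336236318751)) (l 142191214196949023))))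 (b (a (a (l 142701181563715615) (l 142890778678329375)) (a (c (l 143369409834106911) (l 142813263011217439)) (c (l 143588487523762207) (l 143018528169459743)))) (b (a (l 143336561949933599) (c (l 143787636599160863) (l 143492692600242207))) (a (l 143714244200349727) (c (l 143791622330351647) (l 143783925748498463)))))) (a (a (b (b (l 142029517370032159) (c (l 143032821823062047) (l 142469390691434527))) (b (c (b (l 143617693308272671) (l 143759873929150495)) (l 143235819195416607)) (c (b (l 143765165330448415) (l 143770250573316255)) (b (l 143758362101874719) (l 143763653503172639))))) (l 38)) (l 38)))))), by decide +kernel⟩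

def k35_pm_213 : ∃ t, chk3 f_pm_213 t 63 250 1 = true :=
  ⟨(a (b (a (b (l 592628023427562361905695) (l 594434075416084749181471)) (a (l 595006789595573295194655) (l 142514676933001247))) (a (b (l 596341008054470900376095) (l 598342626000143210566175)) (a (l 599900942478636534423583) (l 143747504460021791)))) (a (b (a (b (l 142854425993674783) (l 143511384267079711)) (b (a (l 143412840512569375) (a (l 143725651623264287) (b (l 143759049293037599) (l 143838145418674207)))) (a (l 143874979048505375) (a (l 143852782667530271) (c (l 143843780415094943) (l 143834503283114015)))))) (a (b (l 143926656089374751) (l 143931329017217055)) (b (a (l 143877521672650783) (b (a (l 143853882187202719) (l 143839451090796639)) (c (l 143850789805523039) (l 143842474742890591)))) (a (l 143879789429669983) (b (c (l 143850789807292511) (l 143842887066878047)) (c (l 143850789809094751) (l 143843161946587231))))))) (a (b (b (b (a (c (l 143822133779300383) (l 143813200246784031)) (c (l 143795401903112351) (l 143787911479705631))) (a (c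 (l 143824057926123679) (l 143815399271514143)) (c (l 143799044036919391) (l 143791691052466335)))) (a (b (c (l 143825775914500255) (l 143817323418337311)) (c (l 143827219025002591) (l 143818972687253663))) (a (c (l 143809764278829151) (l 143802342573539423)) (c (b (l 143796638856904799) (l 143800349710221407)) (b (l 143789835628298399) (l 143793752640045151)))))) (b (a (b (c (l 143828318538104927) (l 143820278358786143)) (c (l 143829143173300319) (l 143821309152428127))) (b (c (a (l 143813612570476639) (l 143803854405107807)) (a (l 143806534463914079) (l 143797394773885023))) (c (a (l 143815880314749023) (l 143807084222087263)) (a (l 143809008366616671) (l 143800899468771423))))) (a (b (c (l 143829555491651679) (l 143821996348670047)) (c (a (l 143832991466799199) (l 143826256958439647)) (a (l 143825432323801183) (l 143819247571304543)))) (b (c (a (l 143817873181114591) (l 143810176600113375)) (a (l 143811276110889055) (l 143804129285750879))) (c (a (l 143819591169573087) (l 143812925380755679)) (a (l 143813200257794143)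 (l 143807152944316639))))))) (a (a (b (b (c (b (l 143775335816200351) (l 143780214900637791)) (b (l 143768876185010335) (l 143773961427894431))) (c (b (l 143784956546138207) (l 143789560752685151)) (b (l 143778909231824991) (l 143783650877325407)))) (b (c (b (l 143794027520278623) (l 143798356848918751)) (b (l 143788323803349087) (l 143792790570958943))) (c (b (c (l 143803785689284831) (l 143801174349005023)) (c (l 143807702701080799) (l 143805091360784607))) (b (c (l 143798425569755359) (l 143795745509982431)) (c (l 143802548739981535) (l 143799937399685343)))))) (l 38)) (l 38))))), by decide +kernel⟩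

def k36_pm_213 : ∃ t, chk3 f_pm_213 t 126 251 1 = true :=
  ⟨(a (b (a (b (l 599454907021712711242271) (a (l 16731752) (l 16755424))) (b (l 601454361141077230964767) (l 603779803815869341585439))) (b (a (b (l 602952294405937739436063) (l 602934712352992531976223)) (l 603993382524597771440159)) (a (a (a (c (b (l 602630341075776363253791) (l 602848819700899350728735)) (b (l 603268483128576185897503) (l 602863807680459228188703))) (b (l 16774192) (l 16749472))) (b (l 16766776) (l 603402510253486779060255))) (b (l 603933718836734369501215) (l 604072069417287192399903))))) (b (b (l 602216297898816679731231) (l 602494728452693337989151)) (b (a (l 604017449587008706732063) (l 603001725831610011082847)) (b (l 602925632886137010856031) (l 602827346344361953665119))))), by decide +kernel⟩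

def k37_pm_213 : ∃ t, chk3 f_pm_213 t 254 251 1 = true :=
  ⟨(b (a (b (l 143936070686064735) (l 143940949772435551)) (b (a (l 143881713578606687) (b (a (l 143855668900839519) (c (l 143842543477145823) (l 143835121773084767))) (c (l 143850583654351071) (l 143843711706120287)))) (a (l 143883431574536287) (b (c (l 143850102619881695) (l 143843642988511455)) (c (l 143849552865935583) (l 143843436831965407)))))) (b (a (l 143765852560031839) (a (b (l 143884599813783775) (l 143885287010418911)) (b (c (l 143848796953575647) (l 143843093236465887)) (a (l 143855187873824991) (c (l 143838214159515871) (l 143832785320313055)))))) (b (a (l 143950089469165791) (a (l 143885974207070431) (a (l 143854775558865119) (c (l 143836908488704223) (l 143831823246901471))))) (a (l 143789629493919967) (a (l 143907139798515935) (a (l 143876697070141663) (b (c (l 143847697451565279) (l 143842818368209119)) (l 143868244572225759)))))))), by decide +kernel⟩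

def k38_pm_213 : ∃ t, chk3 f_pm_213 t 255 502 1 = true :=
  ⟨(a (b (a (b (c (a (l 143832166834569439) (l 143826463118377183)) (a (l 143824813850001503) (l 143819728609149151))) (c (a (l 143830998604988639) (l 143826256961454303)) (a (l 143823989217804511) (l 143819797330133215)))) (b (c (a (l 143820896841187551) (l 143815468003655903)) (a (l 143814780807299295) (l 143809901726302431))) (c (a (l 143821927634878687) (c (l 143819041417461983) (l 143816430077149407))) (a (l 143816017759437023) (c (l 143813750017360095) (l 143811069957554399)))))) (a (b (c (a (l 143829418058563807) (l 143825638487671007)) (a (l 143822683549286623) (l 143819453734273247))) (b (c (a (l 143827837511762143) (l 143824882574573791)) (a (l 143821377880391903) (l 143818835260113119))) (c (a (l 143826738000920799) (l 143824195380560095)) (a (l 143820415808520415) (l 143818354224546015))))) (b (c (a (c (l 143823989220851935) (l 143821171722076383)) (a (l 143820415808340191) (l 143818972699607263))) (a (c (l 143818354223300831) (l 143815536724541663))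 (c (l 143815811603251423) (l 143813268982415583)))) (c (a (c (l 143824195380838623) (l 143821515321016543)) (b (l 143820896846020831) (l 143821652761051359))) (a (c (l 143818766541717727) (l 143816086481912031)) (b (l 143815949043302623) (l 143816842397286623))))))) (a (a (b (c (b (c (l 143811413554446559) (l 143808870933627103)) (a (l 143814643371245791) (l 143812650507370719))) (b (c (l 143806397032300767) (l 143803923130958047)) (a (l 143809695568560351) (l 143807977581953247)))) (b (c (a (l 143817598310367455) (c (l 143817323432837343) (l 143815124409417951))) (a (l 143812856666112223) (c (l 143812925385998559) (l 143810657643102431)))) (c (a (c (l 143821377883291871) (l 143819110140395743)) (c (l 143820621969359071) (l 143818560384893151))) (a (c (l 143816842397483231) (l 143814643374047455)) (c (l 143816430080950495) (l 143814299777007839)))))) (l 38)) (l 38))), by decide +kernel⟩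

def k39_pm_213 : ∃ t, chk3 f_pm_213 t 255 1006 1 = true :=
  ⟨(a (a (b (a (c (a (a (l 143827837514252511) (l 143824126662459615)) (l 143823233308623071)) (a (a (l 143821721480265951) (l 143818010627801311)) (l 143817254713606367))) (c (b (l 143823370747609311) (l 143822408675688671)) (c (l 143818697823191263) (l 143815880324399327)))) (a (c (a (b (l 143824195382968543) (l 143823233311244511)) (b (l 143820828128067807) (l 143819041422426335))) (a (b (l 143818354226888927) (l 143817598313595103)) (b (l 143815055691481311) (l 143813475144270047)))) (c (b (l 143821309164830943) (l 143820072215003359)) (b (l 143815949045137631) (l 143814849534279903))))) (b (c (a (b (l 143822752272875743) (l 143822477395755231)) (b (l 143822271237816543) (c (l 143823920505487583) (l 143821652762558687)))) (a (b (l 143817529592201439) (l 143817460873511135)) (b (l 143817529593528543) (c (l 143819385019629791) (l 143817048557224159))))) (c (a (b (l 143822202519290079) (c (l 143822889714286815) (l 143820484532371679))) (b (c (l 143824332823150815)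 (l 143822133799698655)) (c (l 143824607701860575) (l 143822477397885151)))) (a (b (l 143817254715850975) (c (l 143818079350472927) (l 143815742888034527))) (b (c (l 143819866056769759) (l 143817667033317599)) (c (l 143820278374432991) (l 143818148070457567))))))) (a (a (b (c (b (c (l 143823027152109791) (l 143820896848167135)) (c (l 143824264103510239) (l 143822202519044319))) (b (c (l 143818835263701215) (l 143816704959742175)) (c (l 143820209654055135) (l 143818148069572831)))) (c (b (c (a (l 143825157457363167) (l 143825775932997855)) (l 143823439471116511)) (a (l 143825088739279071) (a (l 143825844653129951) (l 143826394409124063)))) (b (c (l 143821446606127327) (l 143819453741121759)) (a (l 143821034289807583) (a (l 143822065081581791) (l 143822683557052639)))))) (l 38)) (l 38))), by decide +kernel⟩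

def k40_pm_213 : ∃ t, chk3 f_pm_213 t 510 1007 1 = true :=
  ⟨(a (b (a (c (a (b (l 143822339959013599) (l 143821309167845599)) (b (l 143817254716801247) (c (l 143816704961921247) (l 143814093621526751)))) (a (b (l 143816911119810783) (l 143816086487072991)) (b (l 143811825877598431) (c (l 143811482281148639) (l 143808870940754143))))) (c (b (c (l 143819934776934623) (l 143817392156049631)) (c (l 143818354229739743) (l 143815880328331487))) (b (c (l 143814849535164639) (l 143812306914279647)) (c (l 143813406426923231) (l 143810932525514975))))) (b (a (a (c (l 143832647883407583) (l 143827562641604831)) (b (c (l 143820072217198815) (l 143814918255919327)) (c (l 143831617090650335) (l 143826463129354463)))) (a (c (l 143826669287833823) (l 143821721485000927)) (c (l 143828387275047135) (l 143823576911184095)))) (a (c (a (l 143856287386222815) (c (l 143850308790501599) (l 143847697450123487))) (a (l 143851202144436447) (c (l 143845086109745375) (l 143842474769367263)))) (c (l 143849965193150687) (l 143845017390350559)))))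 (b (a (c (b (c (l 143822271239782623) (l 143819934777344223)) (c (l 143821515326996703) (l 143819247584035039))) (b (c (l 143817598314922207) (l 143815261852483807)) (c (l 143816979840418015) (l 143814712097456351)))) (c (b (c (l 143824813861748959) (l 143822683557773535)) (c (a (l 143823989227995359) (l 143825775934734559)) (a (l 143821927643480287) (l 143823783069728991)))) (b (c (l 143820621973291231) (l 143818491668644063)) (c (a (l 143819797339504863) (l 143821790204707039)) (a (l 143817735755006175) (l 143819797339701471)))))) (b (b (c (a (c (l 143826600568602847) (l 143824332825657567)) (c (l 143830242701541599) (l 143828249836519647))) (a (c (l 143822133802172639) (l 143819934778704095)) (c (l 143826256971497695) (l 143824264106492127)))) (c (a (l 143836496174383327) (l 143840069587796191)) (a (l 143832029407953119) (l 143836015138291935)))) (c (a (l 143852988850634975) (l 143856218666598623)) (a (l 143848453364744415) (l 143852095497617631)))))), by decide +kernel⟩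

def k41_pm_213 : ∃ t, chk3 f_pm_213 t 1022 1007 1 = true :=
  ⟨(a (b (c (b (c (a (l 143826875445903583) (l 143828318555275487)) (a (l 143824951300391135) (l 143826463129256159))) (c (a (l 143827562641490143) (l 143829418067738847)) (a (l 143825707215454431) (l 143827700080656607)))) (b (c (a (l 143822958435385567) (l 143824676422697183)) (a (l 143821034289856735) (l 143822820996661471))) (c (a (l 143823851789402335) (l 143825913374097631)) (a (l 143821927643873503) (l 143824126667555039))))) (c (b (a (c (l 143838557759324383) (l 143836633613795551)) (c (l 143840481904345311) (l 143838763917263071))) (l 143859723360485599)) (b (b (c (l 143830586299302111) (l 143828799592743135)) (l 143840275746570463)) (l 143856012508430559)))) (b (b (l 38) (b (l 38) (b (l 38) (c (c (l 143832991482085599) (l 143831410933317855)) (c (l 143829830385205471) (l 143828249837109471)))))) (b (b (c (c (a (l 143837320808906975) (l 143839451113062623)) (a (l 143835671541317855) (l 143837939284443359))) (c (a (l 143834022273728735) (l 143836427455824095))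 (a (l 143832373006139615) (l 143834915627204831)))) (c (c (l 143848796962783455) (l 143847147695194335)) (c (l 143845567147098335) (l 143843917879525599)))) (c (l 143863434212180191) (c (l 143860960311492831) (l 143859311043920095)))))), by decide +kernel⟩

def k42_pm_213 : ∃ t, chk3 f_pm_213 t 1023 2014 1 = true :=
  ⟨(b (l 38) (b (l 38) (b (l 38) (b (l 38) (b (l 38) (b (l 38) (b (l 38) (b (l 38) (b (l 38) (a (c (c (a (l 143836564894908639) (l 143838901357527263)) (a (l 143835190505259231) (l 143837595687370975))) (c (a (l 143833747396133087) (l 143836290017214687)) (a (l 143832373006483679) (l 143834984347042015)))) (a (c (c (c (l 143841581417578719) (l 143841031661715679)) (c (l 143840413186375903) (l 143839863430512863))) (c (c (l 143839244955189471) (l 143838626479849695)) (c (l 143838008004509919) (l 143837389529170143)))) (c (a (c (c (l 143843436843761887) (l 143842887087915231)) (c (l 143842337332052191) (l 143841787576205535))) (c (c (a (l 143844330197123295) (c (l 143845086111482079) (l 143844811233558751)))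 (a (l 143843780441276639) (c (l 143844536355635423) (l 143844330197188831)))) (c (a (l 143843299404906719) (c (l 143844055319265503) (l 143843780441342175))) (a (l 143842749649043679) (c (a (l 143843368124432607) (l 143843711721881823)) (a (l 143843093246509279) (l 143843436843942111))))))) (a (c (c (l 143841237820342495) (l 143840619345019103)) (c (l 143840069589172447) (l 143839519833309407))) (c (c (a (l 143842199893197023) (c (c (l 143843093246525663) (l 143842955807555807)) (c (l 143842818368602335) (l 143842680929632479)))) (a (l 143841650137350367) (c (c (l 143842543490679007) (l 143842406051709151)) (c (l 143842268612755679) (l 143842199893262559))))) (c (a (l 143841100381487327) (c (a (l 143841787576352991) (c (l 143842199893278943) (l 143842062454325471))) (a (l 143841512698429663) (c (l 143841925015355615) (l 143841787576402143))))) (a (l 143840619345117407) (c (a (l 143841237820506335) (a (l 143841512698462431) (c (l 143841787576402143) (l 143841650137465055)))) (a (l 143840962942583007) (a (l 143841237820539103)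 (c (c (l 143841512698478815) (l 143841443979002079)) (c (l 143841375259525343) (l 143841306540032223)))))))))))))))))))))), by decide +kernel⟩

def k43_pm_213 : ∃ t, chk3 f_pm_213 t 2046 2015 1 = true :=
  ⟨(b (b (b (c (c (a (l 143839176235286751) (c (l 143841787575828703) (l 143841100381012191))) (a (l 143837733126160607) (c (l 143840481905672415) (l 143839794710855903)))) (c (a (l 143836290017034463) (c (l 143839176235516127) (l 143838489040699615))) (a (l 143834915627385055) (c (l 143837870565343455) (l 143837183370526943))))) (c (c (l 143845360988913887) (l 143843986599264479)) (c (l 143842612209615071) (l 143841237819965663)))) (c (c (l 143852988851585247) (l 143851614461935839)) (c (l 143850171352826079) (l 143848796963176671)))) (c (c (l 143868107137974495) (l 143866732748341471)) (c (l 143865289639231711) (l 143863846530105567)))), by decide +kernel⟩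

def k44_pm_213 : ∃ t, chk3 f_pm_213 t 4094 4030 1 = true :=
  ⟨(c (c (b (b (b (c (l 143842887087751391) (l 143842268612411615)) (l 143845086111236319)) (l 143848796963340511)) (l 143856287387042015)) (b (b (b (c (l 143841650137088223) (l 143841100381225183)) (l 143843849160556767)) (l 143847628732154079)) (l 143855050436378847))) (c (b (b (b (c (l 143840481905885407) (l 143839863430545631)) (l 143842680929370335)) (l 143846391781474527)) (l 143853813485699295)) (b (b (a (l 143839519833112799) (c (l 143841169100800223) (l 143840619344953567))) (l 143845154830811359)) (l 143852576535036127)))), by decide +kernel⟩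

def k45_pm_213 : ∃ t, chk3 f_pm_213 t 4095 4030 2 = true :=
  ⟨(a (c (b (b (b (c (l 143844673794474207) (l 143844124038611167)) (l 143846872817942751)) (l 143850583670046943)) (l 143858005374255327)) (b (b (b (c (l 143843574282764511) (l 143843024526901471)) (l 143845773306233055)) (l 143849484158337247)) (l 143856837143068895))) (c (a (b (b (c (c (l 143846941537485023) (l 143846666659561695)) (c (l 143846391781638367) (l 143846185623191775))) (l 143851477023408351)) (l 143858898727600351)) (b (b (a (c (c (l 143847422573904095) (l 143847147695980767)) (c (l 143846872818057439) (l 143846597940134111))) (b (c (c (l 143846460501164255) (l 143846185623077087)) (c (a (l 143845910745301215) (l 143846048184287455)) (a (l 143845635867377887) (l 143845773306364127)))) (c (l 143848796963602655) (l 143848315927232735)))) (a (l 143851958059811039) (c (l 143852507815706847) (l 143851958059843807)))) (c (l 143859723361272031) (l 143859173605327071)))) (a (b (b (c (c (l 143845910745268447) (l 143845635867345119)) (c (l 143845360989405407)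 (l 143845086111482079))) (l 143850446231175391)) (l 143857799215890655)) (a (b (b (c (c (l 143846391781687519) (l 143846116903764191)) (c (l 143845842025496799) (l 143845567147573471))) (l 143850858548117727)) (l 143858211532832991)) (c (b (b (a (c (l 143846597939822815) (l 143846323061899487)) (b (c (l 143845567147753695) (l 143845292269863135)) (l 143847834890879199))) (l 143851477023473887)) (l 143858830008025311)) (b (b (b (c (c (l 143845017392054495) (l 143844879953101023)) (c (l 143844742513967327) (l 143844605075079391))) (c (l 143847422573969631) (l 143847147696046303))) (l 143850927267463391)) (l 143858280252178655))))))), by decide +kernel⟩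

def k46_pm_213 : ∃ t, chk3 f_pm_213 t 4095 4030 3 = true :=
  ⟨(c (b (b (b (a (c (l 143842474771054815) (l 143841925015191775)) (b (b (c (a (l 143842543490613471) (c (c (l 143843368124465375) (l 143843299404972255)) (c (l 143843161966018783) (l 143843024527048927)))) (a (l 143841993734766815) (c (a (l 143842612210155743) (c (l 143843024527065311) (l 143842887088111839))) (a (l 143842406051692767) (c (l 143842818368618719) (l 143842680929665247)))))) (c (c (l 143843643002372319) (l 143843368124448991)) (c (l 143843093246509279) (l 143842818368667871)))) (c (c (l 143844536355651807) (l 143844261477728479)) (c (l 143843986599805151) (l 143843711721881823))))) (a (l 143844673794523359) (c (c (l 143846391781703903) (l 143846116903780575)) (c (l 143845842025857247) (l 143845567147933919))))) (a (l 143848315927150815) (a (l 143849346719482079) (c (c (l 143850377511764191) (l 143850102633840863)) (c (l 143849827755917535) (l 143849552877994207)))))) (a (l 143855737631359199) (a (l 143856699704197343) (a (l 143857180740616415)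 (c (l 143857730496331999) (l 143857180740403423)))))) (a (b (b (b (c (l 143841306539868383) (l 143840756784021727)) (l 143843505563353311)) (l 143847216415457503)) (l 143854569400189151)) (b (a (b (c (c (l 143843711721685215) (l 143843436843761887)) (a (l 143842887088062687) (c (l 143843368124465375) (l 143843093246542047)))) (l 143848247207772383)) (c (c (b (b (b (a (l 143842406051709151) (a (l 143842680929665247) (c (l 143842887088128223) (l 143842818368635103)))) (l 143843780441391327)) (l 143845635867443423)) (l 143849278000070879)) (b (b (b (b (a (l 143841856295846111) (a (l 143842131173802207) (c (l 143842337332265183) (l 143842199893311711)))) (l 143842612210188511)) (l 143843574282944735)) (l 143845360989520095)) (l 143849071841624287))) (b (b (b (b (b (c (a (l 143841443978952927) (a (l 143841718856909023) (b (c (l 143841856295895263) (l 143841718856925407)) (l 143841925015371999)))) (a (l 143841169101029599) (a (l 143841443978985695) (c (c (l 143841718856925407) (l 143841650137448671)) (c (l 143841581417988319)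 (l 143841512698511583)))))) (c (l 143841925015355615) (l 143841650137432287))) (c (l 143842337332265183) (l 143842062454341855))) (c (l 143843299405021407) (l 143843024527098079))) (c (l 143845086111596767) (l 143844811233673439))) (c (l 143848796963700959) (l 143848522085777631))))) (b (a (l 143853126291095775) (c (l 143854019644424415) (l 143853469888577759))) (c (l 143858623849791711) (l 143858005374451935)))))), by decide +kernel⟩

def k47_pm_213 : ∃ t, chk3 f_pm_213 t 2047 4031 1 = true :=
  ⟨(a (c (b (l 143865633236795615) (a (l 143874979086516447) (l 143875253964603615))) (b (l 143863090615992543) (a (l 143872367746236639) (l 143869962564731103)))) (c (b (a (c (l 143867694821425375) (l 143866526590238943)) (c (b (a (l 143866182992838879) (a (l 143866251712381151) (c (l 143866182992969951) (l 143865633237123295)))) (c (l 143866182993363167) (l 143865701956993247))) (b (a (l 143865083481145567) (a (l 143865152200687839) (c (l 143865152200753375) (l 143864602444906719)))) (c (l 143865152201146591) (l 143864602445299935)))))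 (a (c (l 143874291892125919) (l 143873123660955871)) (c (c (l 143871268235346143) (l 143870718479499487)) (c (l 143870168723652831) (l 143869687687282911))))) (b (b (a (l 143862472140767455) (c (a (l 143863915249959135) (a (l 143864052688994527) (c (l 143864052689060063) (l 143863502933213407)))) (a (l 143862815738265823) (a (l 143862953177301215) (c (l 143862953177366751) (l 143862403421520095)))))) (a (l 143864327567114463) (c (c (l 143864052689453279) (l 143863502933606623)) (c (l 143862953177759967) (l 143862334702436575))))) (a (c (l 143871955429785823) (l 143870787198599391)) (c (c (l 143869137931436255) (l 143868588175589599)) (c (l 143868038419742943) (l 143867488663896287))))))), by decide +kernel⟩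

def k48_pm_213 : ∃ t, chk3 f_pm_213 t 126 252 1 = true :=
  ⟨(b (a (a (b (a (b (l 603302206082585990123551) (l 603637562218215956897823)) (l 603875640367011546472479)) (l 603583374723468671361119)) (l 603265744925021934624863)) (b (l 602370213006130810380383) (l 144007607684005983))) (a (a (l 602589844586087389552735) (l 144015991479664735)) (l 144071379384746207))), by decide +kernel⟩

def k49_pm_213 : ∃ t, chk3 f_pm_213 t 254 252 1 = true :=
  ⟨(b (a (l 143878071475437791) (b (a (l 143788461269237983) (a (l 143851958066151647) (b (c (l 143904665904513247) (l 143899718101713119)) (l 143946584784912607)))) (a (l 143866526603559135) (b (l 143907208531198175) (l 143948508941418719))))) (a (b (l 143974759783809247) (l 144110137158566111)) (b (a (l 143940193890648287) (b (l 143988022645031135) (l 144019496169750751))) (b (l 144055917498466527) (l 144070760909324511))))), by decide +kernel⟩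

def k50_pm_213 : ∃ t, chk3 f_pm_213 t 510 252 1 = true :=
  ⟨(b (b (a (a (a (b (c (l 143891265598669023) (l 143886111640109279)) (c (l 143936964061446367) (l 143931741380755679))) (b (b (c (c (l 143873261098434783) (l 143870649758073055)) (c (l 143868038417694943) (l 143865358357856479))) (c (l 143894839015358687) (c (l 143890853286691039) (l 143888241946329311)))) (c (b (l 143917653885665503) (l 143940400035135711)) (b (c (l 143913668155654367) (l 143910988095832287)) (c (l 143936345585664223) (l 143933665525842143)))))) (b (b (c (l 143872230306169055) (l 143867213783892191)) (c (l 143894426699677919) (l 143889341457940703))) (c (l 143927412051935455) (b (l 143911331693019359) (l 143933115769635039))))) (b (b (c (l 143876147316949215) (a (l 143870168721850591) (l 143873398537748703))) (c (l 143897656515526879) (l 143893189748490463))) (b (c (l 143918959555657951) (l 143914424069832927)) (c (l 143940193876295903) (l 143935589670994143))))) (c (a (b (a (b (l 143966650873233631) (l 143989053430579423)) (c (l 143972492034048223)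 (l 143969880693719263))) (a (l 144021901338902751) (c (l 143968575028723935) (l 143965894968262879)))) (b (a (l 143925900228591839) (l 143921364743078111)) (l 143948371502039263))) (a (b (b (a (a (l 143965207769858271) (l 143957648625991903)) (l 143954831126773983)) (a (l 143983693308297439) (l 143976615203356895))) (b (a (l 144005614826619103) (l 143997918243569887)) (a (l 144027261464297695) (l 144016609943683295)))) (b (a (l 143921021145383135) (l 143916897976778975)) (a (l 143952288511983839) (l 143981563008893151)))))) (a (b (a (c (b (l 143968643754688735) (l 144078320044343519)) (b (l 143963352349245663) (l 144073440961151199))) (b (b (c (l 144034270852006111) (l 144029048171397343)) (c (l 144041898716348639) (l 144036950913663199))) (c (l 144052893833625823) (b (l 144044441339085023) (l 144051931764523231))))) (b (a (l 144089452598771935) (c (l 144067118772912223) (a (l 144068424440250591) (l 144057498045579359)))) (c (l 144002041428623455) (b (l 143994963323715679) (l 144001766554288223))))) (b (b (a (c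 (l 144018121775694047) (l 144013723728871647)) (l 143997231053603039)) (c (l 144022107509801055) (l 144018534096404575))) (b (b (l 144030560008470623) (l 144037294519877727)) (b (l 144044029030940767) (l 144050626103066719)))))), by decide +kernel⟩

def k51_pm_213 : ∃ t, chk3 f_pm_213 t 511 252 1 = true :=
  ⟨(b (a (a (b (b (c (l 143891059443859679) (c (l 143888173226950879) (l 143886249081454815))) (b (c (l 143922051932487903) (l 143918134922019039)) (l 143915179986157791))) (b (c (l 143909476273635551) (l 143905765421629663)) (l 143966032407199967))) (b (b (b (c (l 143883912619032799) (l 143880545364410591)) (c (l 143903909988843743) (l 143900405295284447))) (b (a (l 143897793955938527) (l 143893808227811551)) (l 143904391029227743))) (b (l 143936414307172575) (l 143948852538015967)))) (b (a (b (b (a (c (l 143886523959558367) (l 143883500302368991)) (c (b (l 143883294143938783) (l 143890922006839519)) (b (l 143880407925735647) (l 143888104508113119)))) (c (a (l 143902604319113439) (l 143896900602806495)) (a (l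 143899511942463711) (l 143894220543033567)))) (c (l 143909613708853471) (l 143907071088050399))) (b (b (a (c (b (l 143875872440762591) (l 143885149571088607)) (b (l 143873329819959519) (l 143882675669762271))) (a (c (l 143878277623169247) (l 143876078599782623)) (c (b (c (l 143873742137442527) (l 143872780064702687)) (c (l 143876490917445855) (l 143875528844706015))) (b (c (l 143871749272486111) (l 143870718479941855)) (c (l 143874566771982559) (l 143873604699242719)))))) (c (a (l 143889410180104415) (c (l 143882538232414431) (l 143881576159674591))) (a (l 143887142437208287) (c (l 143880614086934751) (l 143879652014031071))))) (b (c (c (l 143891815363215583) (l 143890922009952479)) (c (l 143889959937556703) (l 143888997864816863))) (a (l 143899924263878879) (c (l 143893189755453663) (l 143891746646327519)))))) (a (c (l 143882332077310047) (l 143880339212337247)) (b (a (l 143886111651348703) (c (l 143901504814366815) (l 143900336583163999))) (c (l 143916485664800863) (l 143915454872551519)))))) (a (b (b (l 143925006883242079)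 (l 143937445113544799)) (b (l 143949608465268831) (l 143916279523393631))) (b (b (a (l 143943836020408415) (l 143904391038107743)) (l 143901229948846175)) (a (l 143926449997660255) (b (a (l 143952151085023327) (b (l 143940537492340831) (b (l 143944110906572895) (l 603499787836662936446559)))) (a (b (l 143959504071966815) (b (l 603722589933989606631007) (l 603815111887002049799775))) (b (a (l 603504687758898672559711) (l 603624879821012292347487)) (a (l 603687425821914345170527) (l 603759051228786439280159))))))))), by decide +kernel⟩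

def k52_pm_213 : ∃ t, chk3 f_pm_213 t 63 506 1 = true :=
  ⟨(a (a (a (l 143955655775469663) (b (l 143961222054691039) (l 144021970069651679))) (b (l 144094881448968415) (a (l 144033171383795935) (a (b (l 144059559659077855) (l 144080312941641951)) (l 144091582933450975))))) (a (a (b (l 144131577640419551) (l 144113916739551327)) (a (b (l 144013655025352799) (l 144020458270752863)) (b (l 143970774075228255) (l 143985067734122591)))) (a (a (b (c (b (l 144014617097568351) (l 144026299413200991)) (a (l 144118452229341279) (b (l 144091308035539039) (l 144104433460379743)))) (b (c (l 143946928427401311) (l 143944935559675999)) (l 144135769550962783))) (b (b (b (l 144057154455699551) (l 144063545369378911)) (c (l 144073715855556703) (a (l 144083336582692959) (l 144061002751574111)))) (b (c (l 143995444370800735) (a (l 144096118407430239) (l 144072685067173983))) (a (b (l 144105807859941471) (l 144111511576150111)) (b (l 603755448315068420761183) (l 603963838882180071335519)))))) (b (a (b (l 143927480802426975) (a (l 144039218676416607)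 (b (a (l 144020114660016223) (l 603729219278889311463007)) (a (l 603790324134507676067423) (l 603924063017909514528351))))) (b (a (b (a (l 143988984732057695) (l 603624303391527355328095)) (a (l 603673879031275017528927) (l 603812517831758630004319))) (b (a (l 603765248035363778946655) (a (l 603871172845109457163807) (l 603941789287266626377247))) (a (l 603951589120055786903071) (b (l 604044687531552788944415) (l 604137209482297489331743))))) (a (b (a (l 603865552236020112778847) (l 604002029435882338801183)) (a (l 604057946128855773320735) (l 604192261484142470469151))) (b (a (l 604138938864554401420831) (l 604275848293226464040479)) (a (l 604326865069805319312927) (b (l 604414775334531590428191) (l 604506144363771683919391))))))) (a (b (a (b (l 603696937514624757032543) (l 603899275243699782624863)) (b (a (l 603988050177358115776095) (l 604119627429352242189855)) (a (l 604186785106995593680415) (l 604315912315511559869983)))) (a (b (l 604102189433252233700959) (l 604304671330841649010207)) (b (a (l 604385952296916428510751)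 (l 604500667986624809014815)) (l 604568690355396615296543)))) (a (b (b (a (l 604251348711253573850655) (l 604383069993154905511455)) (a (l 604443886602522919196191) (l 604540732008909893654047))) (l 604600395696773301032479)) (b (a (b (l 604503262060010168702495) (l 604593478167745656215071)) (l 604595207550002564978207)) (l 604636136263416111683103)))))))), by decide +kernel⟩

def k53_pm_213 : ∃ t, chk3 f_pm_213 t 63 507 1 = true :=
  ⟨(a (a (a (l 144047877305762015) (b (a (l 16776152) (l 144036882236211423)) (b (l 144046709118222559) (l 14)))) (a (a (b (b (l 16777784) (c (l 144048908143395039) (l 144029323092508895))) (b (a (b (l 144037294551351519) (l 14)) (l 16778112)) (l 14))) (b (b (l 144049801495888095) (c (l 144048358386598111) (l 144040180768850143))) (l 144051450762297439))) (a (b (c (l 144065057218461919) (l 144070898373935327)) (l 144031659553079391)) (l 144104364737642591)))) (b (a (a (l 144020045959725151) (a (l 144023000897355871) (l 143994963345981535))) (a (a (b (l 144143947172839519) (a (l 603872181692932580140639)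 (b (l 604069907716610283267679) (l 604278586512036500956767)))) (b (a (b (l 603921757277704650843743) (l 604230740245887090402911)) (b (l 604173094140145299088991) (l 604452533513807483131423))) (a (b (l 604437113200090801038943) (l 604485968237441085150751)) (l 604497209222110998877727)))) (a (b (a (b (l 604556008218845943682591) (l 604452821744183632844319)) (l 604453398204935933384223)) (l 604515944196560855455263)) (c (l 604704158632187910542879) (l 604688017731123420075551))))) (b (a (a (l 144012555539480671) (a (l 144021351633928287) (a (l 144183735758372959) (l 603980556329758789379679)))) (a (a (a (b (l 604183470502200088471135) (l 604363326259461378909791)) (l 604473430255248587449951)) (a (a (l 604457145199825917203999) (l 604441004298761420920351)) (l 604437257303871446816287))) (a (c (l 604621436514232384132639) (l 604447057136660598478367)) (l 604630948116645385491999)))) (l 14)))), by decide +kernel⟩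

def k54_pm_213 : ∃ t, chk3 f_pm_213 t 63 127 1 = true :=
  ⟨(l 14), by decide +kernel⟩

theorem s55_pm_213 : ∃ t, chk3 f_pm_213 t 63 253 1 = true := ex3_b k52_pm_213 k53_pm_213

theorem s56_pm_213 : ∃ t, chk3 f_pm_213 t 255 252 1 = true := ex3_a k50_pm_213 k51_pm_213

theorem s57_pm_213 : ∃ t, chk3 f_pm_213 t 127 252 1 = true := ex3_a k49_pm_213 s56_pm_213

theorem s58_pm_213 : ∃ t, chk3 f_pm_213 t 63 252 1 = true := ex3_a k48_pm_213 s57_pm_213

theorem s59_pm_213 : ∃ t, chk3 f_pm_213 t 63 126 1 = true := ex3_b s58_pm_213 s55_pm_213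

theorem s60_pm_213 : ∃ t, chk3 f_pm_213 t 63 63 1 = true := ex3_b s59_pm_213 k54_pm_213

theorem s61_pm_213 : ∃ t, chk3 f_pm_213 t 4095 4030 1 = true := ex3_c k45_pm_213 k46_pm_213

theorem s62_pm_213 : ∃ t, chk3 f_pm_213 t 2047 4030 1 = true := ex3_a k44_pm_213 s61_pm_213

theorem s63_pm_213 : ∃ t, chk3 f_pm_213 t 2047 2015 1 = true := ex3_b s62_pm_213 k47_pm_213

theorem s64_pm_213 : ∃ t, chk3 f_pm_213 t 1023 2015 1 = true := ex3_a k43_pm_213 s63_pm_213

theorem s65_pm_213 : ∃ t, chk3 f_pm_213 t 1023 1007 1 = true := ex3_b k42_pm_213 s64_pm_213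

theorem s66_pm_213 : ∃ t, chk3 f_pm_213 t 511 1007 1 = true := ex3_a k41_pm_213 s65_pm_213

theorem s67_pm_213 : ∃ t, chk3 f_pm_213 t 255 1007 1 = true := ex3_a k40_pm_213 s66_pm_213

theorem s68_pm_213 : ∃ t, chk3 f_pm_213 t 255 503 1 = true := ex3_b k39_pm_213 s67_pm_213

theorem s69_pm_213 : ∃ t, chk3 f_pm_213 t 255 251 1 = true := ex3_b k38_pm_213 s68_pm_213

theorem s70_pm_213 : ∃ t, chk3 f_pm_213 t 127 251 1 = true := ex3_a k37_pm_213 s69_pm_213

theorem s71_pm_213 : ∃ t, chk3 f_pm_213 t 63 251 1 = true := ex3_a k36_pm_213 s70_pm_213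

theorem s72_pm_213 : ∃ t, chk3 f_pm_213 t 63 125 1 = true := ex3_b k35_pm_213 s71_pm_213

theorem s73_pm_213 : ∃ t, chk3 f_pm_213 t 63 62 1 = true := ex3_b k34_pm_213 s72_pm_213

theorem s74_pm_213 : ∃ t, chk3 f_pm_213 t 63 31 1 = true := ex3_b s73_pm_213 s60_pm_213

theorem s75_pm_213 : ∃ t, chk3 f_pm_213 t 62 31 1 = true := ex3_b k32_pm_213 k33_pm_213

theorem s76_pm_213 : ∃ t, chk3 f_pm_213 t 31 31 1 = true := ex3_a s75_pm_213 s74_pm_213

theorem s77_pm_213 : ∃ t, chk3 f_pm_213 t 15 31 1 = true := ex3_a k31_pm_213 s76_pm_213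

theorem s78_pm_213 : ∃ t, chk3 f_pm_213 t 15 15 1 = true := ex3_b k30_pm_213 s77_pm_213

theorem s79_pm_213 : ∃ t, chk3 f_pm_213 t 15 7 1 = true := ex3_b k29_pm_213 s78_pm_213

theorem s80_pm_213 : ∃ t, chk3 f_pm_213 t 14 15 1 = true := ex3_b k27_pm_213 k28_pm_213

theorem s81_pm_213 : ∃ t, chk3 f_pm_213 t 14 7 1 = true := ex3_b k26_pm_213 s80_pm_213

theorem s82_pm_213 : ∃ t, chk3 f_pm_213 t 7 7 1 = true := ex3_a s81_pm_213 s79_pm_213

theorem s83_pm_213 : ∃ t, chk3 f_pm_213 t 7 3 1 = true := ex3_b k25_pm_213 s82_pm_213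

theorem s84_pm_213 : ∃ t, chk3 f_pm_213 t 13 30 1 = true := ex3_b k22_pm_213 k23_pm_213

theorem s85_pm_213 : ∃ t, chk3 f_pm_213 t 6 30 1 = true := ex3_a k21_pm_213 s84_pm_213

theorem s86_pm_213 : ∃ t, chk3 f_pm_213 t 6 15 1 = true := ex3_b s85_pm_213 k24_pm_213

theorem s87_pm_213 : ∃ t, chk3 f_pm_213 t 52 58 1 = true := ex3_b k16_pm_213 k17_pm_213

theorem s88_pm_213 : ∃ t, chk3 f_pm_213 t 26 58 1 = true := ex3_a s87_pm_213 k18_pm_213

theorem s89_pm_213 : ∃ t, chk3 f_pm_213 t 26 29 1 = true := ex3_b s88_pm_213 k19_pm_213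

theorem s90_pm_213 : ∃ t, chk3 f_pm_213 t 13 29 1 = true := ex3_a s89_pm_213 k20_pm_213

theorem s91_pm_213 : ∃ t, chk3 f_pm_213 t 6 29 1 = true := ex3_a k15_pm_213 s90_pm_213

theorem s92_pm_213 : ∃ t, chk3 f_pm_213 t 25 28 1 = true := ex3_b k12_pm_213 k13_pm_213

theorem s93_pm_213 : ∃ t, chk3 f_pm_213 t 12 28 1 = true := ex3_a k11_pm_213 s92_pm_213

theorem s94_pm_213 : ∃ t, chk3 f_pm_213 t 6 28 1 = true := ex3_a s93_pm_213 k14_pm_213

theorem s95_pm_213 : ∃ t, chk3 f_pm_213 t 6 14 1 = true := ex3_b s94_pm_213 s91_pm_213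

theorem s96_pm_213 : ∃ t, chk3 f_pm_213 t 6 7 1 = true := ex3_b s95_pm_213 s86_pm_213

theorem s97_pm_213 : ∃ t, chk3 f_pm_213 t 6 13 1 = true := ex3_a k9_pm_213 k10_pm_213

theorem s98_pm_213 : ∃ t, chk3 f_pm_213 t 6 6 1 = true := ex3_b k8_pm_213 s97_pm_213

theorem s99_pm_213 : ∃ t, chk3 f_pm_213 t 6 3 1 = true := ex3_b s98_pm_213 s96_pm_213

theorem s100_pm_213 : ∃ t, chk3 f_pm_213 t 3 3 1 = true := ex3_a s99_pm_213 s83_pm_213

theorem s101_pm_213 : ∃ t, chk3 f_pm_213 t 3 1 1 = true := ex3_b k7_pm_213 s100_pm_213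

theorem s102_pm_213 : ∃ t, chk3 f_pm_213 t 5 13 1 = true := ex3_b k4_pm_213 k5_pm_213

theorem s103_pm_213 : ∃ t, chk3 f_pm_213 t 5 12 1 = true := ex3_a k2_pm_213 k3_pm_213

theorem s104_pm_213 : ∃ t, chk3 f_pm_213 t 5 6 1 = true := ex3_b s103_pm_213 s102_pm_213

theorem s105_pm_213 : ∃ t, chk3 f_pm_213 t 5 3 1 = true := ex3_b s104_pm_213 k6_pm_213

theorem s106_pm_213 : ∃ t, chk3 f_pm_213 t 2 3 1 = true := ex3_a k1_pm_213 s105_pm_213

theorem s107_pm_213 : ∃ t, chk3 f_pm_213 t 2 1 1 = true := ex3_b k0_pm_213 s106_pm_213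

theorem s108_pm_213 : ∃ t, chk3 f_pm_213 t 1 1 1 = true := ex3_a s107_pm_213 s101_pm_213

theorem c_pm_213 : CertB 0 536870912 536870912 536870912 1045395039 1503240 3 eng mog cd0q2 cd0q1 pd3 true true false .pnn 2 1 3
    ndB0q2 ndB0q1 pcB3 cut_pm_213 xt_pm_213 :=
  certB1 (fam := true) (s1 := true) (s2 := false) (a := 2) (b := 1) (c := 3) (cn := .pnn) (n1 := ndB0q2) (n2 := ndB0q1) (pc := pcB3) (cut := cut_pm_213) (xt := xt_pm_213) (P1 := 0) (W1 := 536870912) (P2 := 536870912) (W2 := 536870912) (P3 := 1045395039) (W3 := 1503240) (N0 := 3) (En := eng) (mo := mog) (C1 := cd0q2) (C2 := cd0q1) (C3 := pd3)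
    rfl (fun _ => rfl) s108_pm_213

noncomputable def cut_mm_001 : Cut := Cut.of [[⟨3, 0, 0, 1449551462⟩], [⟨4, 0, 0, 2845415833⟩]]

noncomputable def f_mm_001 : ℕ → ℕ → ℕ → ℕ → Bool := onCell 0 536870912 0 536870912 1045395039 1503240
    (rowB 3 eng mog cd0q0 cd0q0 pd1 0 true false false .up 0 0 1 (qsf 0 536870912 0 536870912 1) ndB0q0 ndB0q0 pcB1 cut_mm_001 Ext.none)

def k0_mm_001 : ∃ t, chk3 f_mm_001 t 1 1 1 = true :=
  ⟨(l 4), by decide +kernel⟩

theorem c_mm_001 : CertB 0 536870912 0 536870912 1045395039 1503240 3 eng mog cd0q0 cd0q0 pd1 true false false .up 0 0 1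
    ndB0q0 ndB0q0 pcB1 cut_mm_001 Ext.none :=
  certB0 (fam := true) (s1 := false) (s2 := false) (a := 0) (b := 0) (c := 1) (cn := .up) (n1 := ndB0q0) (n2 := ndB0q0) (pc := pcB1) (cut := cut_mm_001) (xt := Ext.none) (P1 := 0) (W1 := 536870912) (P2 := 0) (W2 := 536870912) (P3 := 1045395039) (W3 := 1503240) (N0 := 3) (En := eng) (mo := mog) (C1 := cd0q0) (C2 := cd0q0) (C3 := pd1)
    rfl k0_mm_001

noncomputable def cut_mm_011 : Cut := Cut.of [[⟨3, 0, 0, 1449551462⟩], [⟨4, 0, 0, 2845415833⟩]]

noncomputable def f_mm_011 : ℕ → ℕ → ℕ → ℕ → Bool := onCell 0 536870912 536870912 536870912 1045395039 1503240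
    (rowB 3 eng mog cd0q0 cd0q1 pd1 0 true false false .pnn 0 1 1 (qsf 0 536870912 536870912 536870912 1) ndB0q0 ndB0q1 pcB1 cut_mm_011 Ext.none)

def k0_mm_011 : ∃ t, chk3 f_mm_011 t 1 1 1 = true :=
  ⟨(l 14), by decide +kernel⟩

theorem c_mm_011 : CertB 0 536870912 536870912 536870912 1045395039 1503240 3 eng mog cd0q0 cd0q1 pd1 true false false .pnn 0 1 1
    ndB0q0 ndB0q1 pcB1 cut_mm_011 Ext.none :=
  certB0 (fam := true) (s1 := false) (s2 := false) (a := 0) (b := 1) (c := 1) (cn := .pnn) (n1 := ndB0q0) (n2 := ndB0q1) (pc := pcB1) (cut := cut_mm_011) (xt := Ext.none) (P1 := 0) (W1 := 536870912) (P2 := 536870912) (W2 := 536870912) (P3 := 1045395039) (W3 := 1503240) (N0 := 3) (En := eng) (mo := mog) (C1 := cd0q0) (C2 := cd0q1) (C3 := pd1)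
    rfl k0_mm_011

noncomputable def cut_mm_012 : Cut := Cut.of [[⟨3, 0, 0, 1449551462⟩], [⟨4, 0, 0, 2845415833⟩]]

noncomputable def f_mm_012 : ℕ → ℕ → ℕ → ℕ → Bool := onCell 0 536870912 536870912 536870912 1045395039 1503240
    (rowB 3 eng mog cd0q0 cd0q1 pd2 0 true false false .pnp 0 1 2 (qsf 0 536870912 536870912 536870912 2) ndB0q0 ndB0q1 pcB2 cut_mm_012 Ext.none)

def k0_mm_012 : ∃ t, chk3 f_mm_012 t 1 1 1 = true :=
  ⟨(l 14), by decide +kernel⟩

theorem c_mm_012 : CertB 0 536870912 536870912 536870912 1045395039 1503240 3 eng mog cd0q0 cd0q1 pd2 true false false .pnp 0 1 2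
    ndB0q0 ndB0q1 pcB2 cut_mm_012 Ext.none :=
  certB0 (fam := true) (s1 := false) (s2 := false) (a := 0) (b := 1) (c := 2) (cn := .pnp) (n1 := ndB0q0) (n2 := ndB0q1) (pc := pcB2) (cut := cut_mm_012) (xt := Ext.none) (P1 := 0) (W1 := 536870912) (P2 := 536870912) (W2 := 536870912) (P3 := 1045395039) (W3 := 1503240) (N0 := 3) (En := eng) (mo := mog) (C1 := cd0q0) (C2 := cd0q1) (C3 := pd2)
    rfl k0_mm_012

noncomputable def cut_mm_022 : Cut := Cut.of [[⟨3, 0, 0, 1449551462⟩], [⟨4, 0, 0, 2845415833⟩]]

noncomputable def f_mm_022 : ℕ → ℕ → ℕ → ℕ → Bool := onCell 0 536870912 0 536870912 1045395039 1503240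
    (rowB 3 eng mog cd0q0 cd0q2 pd2 0 true false false .pp 0 2 2 (qsf 0 536870912 0 536870912 2) ndB0q0 ndB0q2 pcB2 cut_mm_022 Ext.none)

def k0_mm_022 : ∃ t, chk3 f_mm_022 t 1 1 1 = true :=
  ⟨(l 5), by decide +kernel⟩

theorem c_mm_022 : CertB 0 536870912 0 536870912 1045395039 1503240 3 eng mog cd0q0 cd0q2 pd2 true false false .pp 0 2 2
    ndB0q0 ndB0q2 pcB2 cut_mm_022 Ext.none :=
  certB0 (fam := true) (s1 := false) (s2 := false) (a := 0) (b := 2) (c := 2) (cn := .pp) (n1 := ndB0q0) (n2 := ndB0q2) (pc := pcB2) (cut := cut_mm_022) (xt := Ext.none) (P1 := 0) (W1 := 536870912) (P2 := 0) (W2 := 536870912) (P3 := 1045395039) (W3 := 1503240) (N0 := 3) (En := eng) (mo := mog) (C1 := cd0q0) (C2 := cd0q2) (C3 := pd2)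
    rfl k0_mm_022

noncomputable def cut_mm_023 : Cut := Cut.of [[⟨3, 0, 0, 1449551462⟩], [⟨4, 0, 0, 2845415833⟩]]

noncomputable def f_mm_023 : ℕ → ℕ → ℕ → ℕ → Bool := onCell 0 536870912 0 536870912 1045395039 1503240
    (rowB 3 eng mog cd0q0 cd0q2 pd3 0 true false false .up 0 2 3 (qsf 0 536870912 0 536870912 3) ndB0q0 ndB0q2 pcB3 cut_mm_023 Ext.none)

def k0_mm_023 : ∃ t, chk3 f_mm_023 t 1 1 1 = true :=
  ⟨(l 5), by decide +kernel⟩

theorem c_mm_023 : CertB 0 536870912 0 536870912 1045395039 1503240 3 eng mog cd0q0 cd0q2 pd3 true false false .up 0 2 3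
    ndB0q0 ndB0q2 pcB3 cut_mm_023 Ext.none :=
  certB0 (fam := true) (s1 := false) (s2 := false) (a := 0) (b := 2) (c := 3) (cn := .up) (n1 := ndB0q0) (n2 := ndB0q2) (pc := pcB3) (cut := cut_mm_023) (xt := Ext.none) (P1 := 0) (W1 := 536870912) (P2 := 0) (W2 := 536870912) (P3 := 1045395039) (W3 := 1503240) (N0 := 3) (En := eng) (mo := mog) (C1 := cd0q0) (C2 := cd0q2) (C3 := pd3)
    rfl k0_mm_023

noncomputable def cut_mm_101 : Cut := Cut.of [[⟨3, 0, 0, 1449551462⟩], [⟨4, 0, 0, 2845415833⟩], [⟨0, 1, 0, 26843545⟩, ⟨1, 0, 0, 26843545⟩, ⟨2, 1, 0, 26843545⟩]]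

noncomputable def f_mm_101 : ℕ → ℕ → ℕ → ℕ → Bool := onCell 536870912 536870912 0 536870912 1045395039 1503240
    (rowB 3 eng mog cd0q1 cd0q0 pd1 0 true false false .npn 1 0 1 (qsf 536870912 536870912 0 536870912 1) ndB0q1 ndB0q0 pcB1 cut_mm_101 Ext.none)

def k0_mm_101 : ∃ t, chk3 f_mm_101 t 1 1 1 = true :=
  ⟨(l 14), by decide +kernel⟩

theorem c_mm_101 : CertB 536870912 536870912 0 536870912 1045395039 1503240 3 eng mog cd0q1 cd0q0 pd1 true false false .npn 1 0 1
    ndB0q1 ndB0q0 pcB1 cut_mm_101 Ext.none :=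
  certB0 (fam := true) (s1 := false) (s2 := false) (a := 1) (b := 0) (c := 1) (cn := .npn) (n1 := ndB0q1) (n2 := ndB0q0) (pc := pcB1) (cut := cut_mm_101) (xt := Ext.none) (P1 := 536870912) (W1 := 536870912) (P2 := 0) (W2 := 536870912) (P3 := 1045395039) (W3 := 1503240) (N0 := 3) (En := eng) (mo := mog) (C1 := cd0q1) (C2 := cd0q0) (C3 := pd1)
    rfl k0_mm_101

noncomputable def cut_mm_102 : Cut := Cut.of [[⟨3, 0, 0, 1449551462⟩], [⟨4, 0, 0, 2845415833⟩], [⟨0, 1, 0, 26843545⟩, ⟨1, 0, 0, 26843545⟩, ⟨2, 1, 0, 26843545⟩]]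

noncomputable def f_mm_102 : ℕ → ℕ → ℕ → ℕ → Bool := onCell 536870912 536870912 0 536870912 1045395039 1503240
    (rowB 3 eng mog cd0q1 cd0q0 pd2 0 true false false .npp 1 0 2 (qsf 536870912 536870912 0 536870912 2) ndB0q1 ndB0q0 pcB2 cut_mm_102 Ext.none)

def k0_mm_102 : ∃ t, chk3 f_mm_102 t 1 1 1 = true :=
  ⟨(l 14), by decide +kernel⟩

theorem c_mm_102 : CertB 536870912 536870912 0 536870912 1045395039 1503240 3 eng mog cd0q1 cd0q0 pd2 true false false .npp 1 0 2
    ndB0q1 ndB0q0 pcB2 cut_mm_102 Ext.none :=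
  certB0 (fam := true) (s1 := false) (s2 := false) (a := 1) (b := 0) (c := 2) (cn := .npp) (n1 := ndB0q1) (n2 := ndB0q0) (pc := pcB2) (cut := cut_mm_102) (xt := Ext.none) (P1 := 536870912) (W1 := 536870912) (P2 := 0) (W2 := 536870912) (P3 := 1045395039) (W3 := 1503240) (N0 := 3) (En := eng) (mo := mog) (C1 := cd0q1) (C2 := cd0q0) (C3 := pd2)
    rfl k0_mm_102

noncomputable def cut_mm_112 : Cut := Cut.of [[⟨3, 0, 0, 1449551462⟩], [⟨4, 0, 0, 2845415833⟩]]

noncomputable def f_mm_112 : ℕ → ℕ → ℕ → ℕ → Bool := onCell 536870912 536870912 536870912 536870912 1045395039 1503240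
    (rowB 3 eng mog cd0q1 cd0q1 pd2 0 true false false .dn 1 1 2 (qsf 536870912 536870912 536870912 536870912 2) ndB0q1 ndB0q1 pcB2 cut_mm_112 Ext.none)

def k0_mm_112 : ∃ t, chk3 f_mm_112 t 1 1 1 = true :=
  ⟨(l 4), by decide +kernel⟩

theorem c_mm_112 : CertB 536870912 536870912 536870912 536870912 1045395039 1503240 3 eng mog cd0q1 cd0q1 pd2 true false false .dn 1 1 2
    ndB0q1 ndB0q1 pcB2 cut_mm_112 Ext.none :=
  certB0 (fam := true) (s1 := false) (s2 := false) (a := 1) (b := 1) (c := 2) (cn := .dn) (n1 := ndB0q1) (n2 := ndB0q1) (pc := pcB2) (cut := cut_mm_112) (xt := Ext.none) (P1 := 536870912) (W1 := 536870912) (P2 := 536870912) (W2 := 536870912) (P3 := 1045395039) (W3 := 1503240) (N0 := 3) (En := eng) (mo := mog) (C1 := cd0q1) (C2 := cd0q1) (C3 := pd2)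
    rfl k0_mm_112

noncomputable def cut_mm_113 : Cut := Cut.of [[⟨3, 0, 0, 1449551462⟩], [⟨4, 0, 0, 2845415833⟩]]

noncomputable def f_mm_113 : ℕ → ℕ → ℕ → ℕ → Bool := onCell 536870912 536870912 536870912 536870912 1045395039 1503240
    (rowB 3 eng mog cd0q1 cd0q1 pd3 0 true false false .nn 1 1 3 (qsf 536870912 536870912 536870912 536870912 3) ndB0q1 ndB0q1 pcB3 cut_mm_113 Ext.none)

def k0_mm_113 : ∃ t, chk3 f_mm_113 t 1 1 1 = true :=
  ⟨(l 4), by decide +kernel⟩

theorem c_mm_113 : CertB 536870912 536870912 536870912 536870912 1045395039 1503240 3 eng mog cd0q1 cd0q1 pd3 true false false .nn 1 1 3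
    ndB0q1 ndB0q1 pcB3 cut_mm_113 Ext.none :=
  certB0 (fam := true) (s1 := false) (s2 := false) (a := 1) (b := 1) (c := 3) (cn := .nn) (n1 := ndB0q1) (n2 := ndB0q1) (pc := pcB3) (cut := cut_mm_113) (xt := Ext.none) (P1 := 536870912) (W1 := 536870912) (P2 := 536870912) (W2 := 536870912) (P3 := 1045395039) (W3 := 1503240) (N0 := 3) (En := eng) (mo := mog) (C1 := cd0q1) (C2 := cd0q1) (C3 := pd3)
    rfl k0_mm_113

noncomputable def cut_mm_123 : Cut := Cut.of [[⟨3, 0, 0, 1449551462⟩], [⟨4, 0, 0, 2845415833⟩]]

noncomputable def f_mm_123 : ℕ → ℕ → ℕ → ℕ → Bool := onCell 536870912 536870912 0 536870912 1045395039 1503240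
    (rowB 3 eng mog cd0q1 cd0q2 pd3 0 true false false .npn 1 2 3 (qsf 536870912 536870912 0 536870912 3) ndB0q1 ndB0q2 pcB3 cut_mm_123 Ext.none)

def k0_mm_123 : ∃ t, chk3 f_mm_123 t 1 1 1 = true :=
  ⟨(a (l 5) (l 4)), by decide +kernel⟩

theorem c_mm_123 : CertB 536870912 536870912 0 536870912 1045395039 1503240 3 eng mog cd0q1 cd0q2 pd3 true false false .npn 1 2 3
    ndB0q1 ndB0q2 pcB3 cut_mm_123 Ext.none :=
  certB0 (fam := true) (s1 := false) (s2 := false) (a := 1) (b := 2) (c := 3) (cn := .npn) (n1 := ndB0q1) (n2 := ndB0q2) (pc := pcB3) (cut := cut_mm_123) (xt := Ext.none) (P1 := 536870912) (W1 := 536870912) (P2 := 0) (W2 := 536870912) (P3 := 1045395039) (W3 := 1503240) (N0 := 3) (En := eng) (mo := mog) (C1 := cd0q1) (C2 := cd0q2) (C3 := pd3)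
    rfl k0_mm_123

noncomputable def cut_mm_202 : Cut := Cut.of [[⟨3, 0, 0, 1449551462⟩], [⟨4, 0, 0, 2845415833⟩], [⟨0, 1, 0, 16777216⟩, ⟨1, 0, 0, 16777216⟩, ⟨2, 1, 0, 16777216⟩]]

noncomputable def f_mm_202 : ℕ → ℕ → ℕ → ℕ → Bool := onCell 0 536870912 0 536870912 1045395039 1503240
    (rowB 3 eng mog cd0q2 cd0q0 pd2 0 true false false .pp 2 0 2 (qsf 0 536870912 0 536870912 2) ndB0q2 ndB0q0 pcB2 cut_mm_202 Ext.none)

def k0_mm_202 : ∃ t, chk3 f_mm_202 t 2 4 1 = true :=
  ⟨(b (a (b (b (a (l 16301792) (l 16285136)) (a (l 16117576) (l 16125320))) (a (b (l 15940920) (l 15776648)) (a (l 15783960) (b (l 15992296) (a (l 15796408) (l 15719536)))))) (b (a (b (a (l 16341152) (l 16350336)) (a (b (l 16310720) (l 16210376)) (l 16240672))) (b (a (l 16290680) (l 16260320)) (a (l 16324320) (l 16363600)))) (a (b (a (l 15991832) (l 16199904)) (a (l 15922048) (l 16039168))) (a (b (l 16256928) (l 16132072)) (b (l 16350536) (l 16197632)))))) (a (a (b (b (l 15621112) (l 15472872)) (b (l 15330936) (a (l 15211016) (l 15176952)))) (b (a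 (b (l 15613576) (l 15454232)) (b (a (l 15564352) (b (l 15706296) (l 15640016))) (a (a (b (l 15497752) (l 15401672)) (b (l 15516256) (l 15456128))) (l 15549280)))) (a (a (b (l 15303576) (l 15158656)) (b (a (l 15300048) (b (l 15338456) (a (l 15262624) (b (l 15284824) (l 15255416))))) (a (a (l 15133416) (b (l 15189408) (b (l 15139112) (l 15112648)))) (a (b (b (l 15210688) (l 15182688)) (l 15149200)) (l 15196440))))) (b (a (b (a (l 15335536) (l 15401248)) (l 15327464)) (l 15445120)) (a (l 15259008) (l 15358760)))))) (a (b (a (b (l 15726320) (a (l 15634272) (l 15718904))) (b (l 15816664) (a (l 15802816) (l 15885672)))) (a (b (a (l 15537424) (l 15629136)) (a (l 15457992) (l 15556384))) (b (a (l 15719904) (l 15809392)) (a (l 15653616) (l 15749376))))) (b (b (a (a (l 16054496) (l 16127552)) (a (l 16198672) (l 16267480))) (a (a (l 15967112) (l 16046792)) (a (l 16124360) (l 16199480)))) (a (b (a (l 15897280) (l 15920328)) (a (b (l 15855368) (l 15832224)) (b (l 15945808) (l 15925520)))) (b (a (b (l 16079792) (l 16055000))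 (b (l 16159424) (l 16137544))) (a (b (l 16033864) (l 16016376)) (l 14)))))))), by decide +kernel⟩

def k1_mm_202 : ∃ t, chk3 f_mm_202 t 4 10 1 = true :=
  ⟨(a (b (a (l 15022728) (b (l 15043400) (l 14917088))) (a (l 14795848) (a (l 14753728) (b (a (l 14791744) (b (l 14812088) (a (l 14756096) (b (l 14770824) (l 14754168))))) (a (b (l 14708728) (a (l 14657704) (b (l 14670800) (l 14657464)))) (b (a (b (l 14719432) (l 14704432)) (l 14740520)) (l 14709616))))))) (b (a (a (b (a (l 15023336) (a (l 14998696) (b (l 15051136) (b (a (l 15000928) (l 15006776)) (l 14981496))))) (a (a (l 14896640) (b (l 14924584) (b (a (l 14878112) (l 14884152)) (l 14862096)))) (b (a (b (a (l 14938072) (l 14943968)) (l 14920344)) (l 14956688)) (l 14912864)))) (b (b (a (a (b (a (l 15066704) (l 15072544)) (l 15045592)) (l 15082072)) (l 15121600)) (l 15058816)) (l 15012792))) (b (a (l 15183528) (l 15290056)) (a (l 15126408) (l 15239312)))) (a (b (b (a (a (a (b (l 14845976) (l 14806712)) (l 14842928)) (l 14887616)) (l 14976816)) (l 14897488)) (l 14875608))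 (b (b (l 15154080) (l 15140048)) (l 15126792))))), by decide +kernel⟩

def k2_mm_202 : ∃ t, chk3 f_mm_202 t 4 11 1 = true :=
  ⟨(a (a (b (l 14597088) (a (l 14445832) (a (b (l 14456856) (b (l 14400616) (a (l 14368440) (b (l 14376872) (l 14377800))))) (b (b (l 14462464) (a (l 14425728) (b (l 14434992) (l 14432128)))) (b (a (b (l 14404688) (l 14403704)) (l 14439216)) (l 14432264)))))) (b (a (b (a (l 14603752) (b (l 14616208) (a (l 14570048) (b (l 14581680) (l 14571728))))) (a (b (l 14534224) (a (l 14492824) (b (l 14503168) (l 14496696)))) (b (a (b (l 14541120) (l 14532888)) (l 14568728)) (l 14550128)))) (b (b (a (a (b (l 14624896) (l 14613240)) (l 14649208)) (l 14698728)) (l 14658312)) (l 14654976))) (b (b (b (a (a (a (l 14467808) (l 14498000)) (l 14551784)) (l 14658904)) (l 14588816)) (l 14595936)) (l 14614024)))) (b (a (b (l 14860992) (l 14862432)) (b (l 15122952) (l 15134336))) (a (b (l 14879176) (l 14910472)) (b (l 15160200) (l 15199776))))), by decide +kernel⟩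

def k3_mm_202 : ∃ t, chk3 f_mm_202 t 5 5 1 = true :=
  ⟨(b (a (b (a (b (a (l 15395816) (l 15500496)) (a (l 15351200) (l 15461800))) (b (a (l 15603816) (l 15705472)) (a (l 15570832) (l 15678016)))) (a (b (b (l 15386456) (l 15377968)) (b (l 15373416) (l 15372712))) (b (a (l 15553928) (l 15666280)) (a (l 15552384) (l 15669544))))) (b (a (b (a (b (l 15813144) (l 15798136)) (b (l 15909224) (l 15896912))) (a (b (l 15787096) (l 15779952)) (b (l 15888488) (l 14)))) (b (a (b (l 16002792) (l 14)) (l 14)) (l 14))) (a (b (a (b (l 15776600) (l 14)) (l 14)) (l 14)) (l 14)))) (a (b (a (b (a (l 15315488) (l 15441528)) (a (l 15333840) (l 15464264))) (b (a (l 15565464) (l 14)) (l 14))) (a (a (a (l 15352944) (l 15421656)) (l 14)) (l 14))) (l 14))), by decide +kernel⟩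

def k4_mm_202 : ∃ t, chk3 f_mm_202 t 3 2 1 = true :=
  ⟨(b (a (b (b (a (b (a (l 16178848) (b (l 16218832) (l 16300200))) (a (b (l 16415368) (l 16457896)) (b (l 16381480) (l 16459712)))) (a (a (b (l 16254192) (l 14)) (l 14)) (l 14))) (a (a (b (l 16435680) (a (l 16413568) (l 16449416))) (b (b (l 16487000) (l 16570008)) (a (l 16482112) (l 14)))) (l 14))) (a (b (a (b (a (l 16333608) (l 16396680)) (a (l 16250808) (l 14))) (l 14)) (l 14)) (l 14))) (l 14)) (l 14)), by decide +kernel⟩

def k5_mm_202 : ∃ t, chk3 f_mm_202 t 1 3 1 = true :=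
  ⟨(a (a (b (b (a (b (a (a (b (a (l 14348504) (b (l 14348376) (a (l 14320680) (l 14331464)))) (a (b (l 14305440) (a (l 14282136) (l 14294472))) (b (a (l 14311784) (l 14349808)) (l 14353848)))) (b (b (a (a (b (l 14351504) (l 14354416)) (l 14389632)) (l 14447840)) (l 14427656)) (l 14462424))) (b (l 14650776) (l 14701384))) (a (b (b (b (l 14454088) (l 14429848)) (l 14453776)) (l 14507112)) (b (l 14765048) (l 14840968)))) (b (a (b (l 14955520) (l 15013552)) (b (l 15252280) (l 15316936))) (a (b (l 15083768) (l 15165352)) (l 14)))) (a (b (a (b (l 14588840) (l 14682088)) (b (l 14928312) (l 15026248))) (b (a (l 14786008) (l 14)) (l 2))) (l 14))) (l 2)) (l 14)) (l 14)), by decide +kernel⟩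

theorem s6_mm_202 : ∃ t, chk3 f_mm_202 t 4 5 1 = true := ex3_b k1_mm_202 k2_mm_202

theorem s7_mm_202 : ∃ t, chk3 f_mm_202 t 2 5 1 = true := ex3_a s6_mm_202 k3_mm_202

theorem s8_mm_202 : ∃ t, chk3 f_mm_202 t 2 2 1 = true := ex3_b k0_mm_202 s7_mm_202

theorem s9_mm_202 : ∃ t, chk3 f_mm_202 t 1 2 1 = true := ex3_a s8_mm_202 k4_mm_202

theorem s10_mm_202 : ∃ t, chk3 f_mm_202 t 1 1 1 = true := ex3_b s9_mm_202 k5_mm_202

theorem c_mm_202 : CertB 0 536870912 0 536870912 1045395039 1503240 3 eng mog cd0q2 cd0q0 pd2 true false false .pp 2 0 2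
    ndB0q2 ndB0q0 pcB2 cut_mm_202 Ext.none :=
  certB0 (fam := true) (s1 := false) (s2 := false) (a := 2) (b := 0) (c := 2) (cn := .pp) (n1 := ndB0q2) (n2 := ndB0q0) (pc := pcB2) (cut := cut_mm_202) (xt := Ext.none) (P1 := 0) (W1 := 536870912) (P2 := 0) (W2 := 536870912) (P3 := 1045395039) (W3 := 1503240) (N0 := 3) (En := eng) (mo := mog) (C1 := cd0q2) (C2 := cd0q0) (C3 := pd2)
    rfl s10_mm_202

noncomputable def cut_mm_203 : Cut := Cut.of [[⟨3, 0, 0, 1449551462⟩], [⟨4, 0, 0, 2845415833⟩]]

noncomputable def f_mm_203 : ℕ → ℕ → ℕ → ℕ → Bool := onCell 0 536870912 1610612736 536870912 1045395039 1503240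
    (rowB 3 eng mog cd0q2 cd0q0 pd3 1 true false false .up 2 0 3 (qsf 0 536870912 0 536870912 3) ndB0q2 ndB0q0 pcB3 cut_mm_203 Ext.none)

def k0_mm_203 : ∃ t, chk3 f_mm_203 t 1 1 1 = true :=
  ⟨(a (b (b (a (a (b (b (l 16642400) (l 14)) (l 14)) (l 14)) (l 14)) (l 14)) (l 2)) (l 14)), by decide +kernel⟩

theorem c_mm_203 : CertB 0 536870912 0 536870912 1045395039 1503240 3 eng mog cd0q2 cd0q0 pd3 true false false .up 2 0 3
    ndB0q2 ndB0q0 pcB3 cut_mm_203 Ext.none :=
  certB1 (fam := true) (s1 := false) (s2 := false) (a := 2) (b := 0) (c := 3) (cn := .up) (n1 := ndB0q2) (n2 := ndB0q0) (pc := pcB3) (cut := cut_mm_203) (xt := Ext.none) (P1 := 0) (W1 := 536870912) (P2 := 0) (W2 := 536870912) (P3 := 1045395039) (W3 := 1503240) (N0 := 3) (En := eng) (mo := mog) (C1 := cd0q2) (C2 := cd0q0) (C3 := pd3)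
    rfl (fun _ => rfl) k0_mm_203

noncomputable def cut_mm_213 : Cut := Cut.of [[⟨3, 0, 0, 1449551462⟩], [⟨4, 0, 0, 2845415833⟩]]

noncomputable def f_mm_213 : ℕ → ℕ → ℕ → ℕ → Bool := onCell 0 536870912 536870912 536870912 1045395039 1503240
    (rowB 3 eng mog cd0q2 cd0q1 pd3 0 true false false .pnn 2 1 3 (qsf 0 536870912 536870912 536870912 3) ndB0q2 ndB0q1 pcB3 cut_mm_213 Ext.none)

def k0_mm_213 : ∃ t, chk3 f_mm_213 t 1 1 1 = true :=
  ⟨(a (l 14) (l 4)), by decide +kernel⟩

theorem c_mm_213 : CertB 0 536870912 536870912 536870912 1045395039 1503240 3 eng mog cd0q2 cd0q1 pd3 true false false .pnn 2 1 3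
    ndB0q2 ndB0q1 pcB3 cut_mm_213 Ext.none :=
  certB0 (fam := true) (s1 := false) (s2 := false) (a := 2) (b := 1) (c := 3) (cn := .pnn) (n1 := ndB0q2) (n2 := ndB0q1) (pc := pcB3) (cut := cut_mm_213) (xt := Ext.none) (P1 := 0) (W1 := 536870912) (P2 := 536870912) (W2 := 536870912) (P3 := 1045395039) (W3 := 1503240) (N0 := 3) (En := eng) (mo := mog) (C1 := cd0q2) (C2 := cd0q1) (C3 := pd3)
    rfl k0_mm_213

end Pool.Agent.Strip051.G.I9736_9750.Tab.C.BA00

namespace Pool.Agent.Strip051.G.I9736_9750.Tab.C.BA01

open Pool.Agent.Strip051.PB Pool.Agent.Strip051.PB.T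
open Pool.Agent.Strip051.G.I9736_9750.Tab

noncomputable def f_pp_001 : ℕ → ℕ → ℕ → ℕ → Bool := onCell 0 536870912 0 536870912 1045395039 1503240
    (rowB 3 eng mog cd0q0 cd1q0 pd1 0 true true true .up 0 0 1 (qsf 0 536870912 0 536870912 1) ndB0q0 ndB1q0 pcB1 Cut.none Ext.none)

def k0_pp_001 : ∃ t, chk3 f_pp_001 t 1 1 1 = true :=
  ⟨(l 4), by decide +kernel⟩

theorem c_pp_001 : CertB 0 536870912 0 536870912 1045395039 1503240 3 eng mog cd0q0 cd1q0 pd1 true true true .up 0 0 1
    ndB0q0 ndB1q0 pcB1 Cut.none Ext.none :=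
  certB0 (fam := true) (s1 := true) (s2 := true) (a := 0) (b := 0) (c := 1) (cn := .up) (n1 := ndB0q0) (n2 := ndB1q0) (pc := pcB1) (cut := Cut.none) (xt := Ext.none) (P1 := 0) (W1 := 536870912) (P2 := 0) (W2 := 536870912) (P3 := 1045395039) (W3 := 1503240) (N0 := 3) (En := eng) (mo := mog) (C1 := cd0q0) (C2 := cd1q0) (C3 := pd1)
    rfl k0_pp_001

noncomputable def f_pp_011 : ℕ → ℕ → ℕ → ℕ → Bool := onCell 0 536870912 536870912 536870912 1045395039 1503240
    (rowB 3 eng mog cd0q0 cd1q1 pd1 0 true true true .pnn 0 1 1 (qsf 0 536870912 536870912 536870912 1) ndB0q0 ndB1q1 pcB1 Cut.none Ext.none)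

def k0_pp_011 : ∃ t, chk3 f_pp_011 t 1 1 1 = true :=
  ⟨(l 4), by decide +kernel⟩

theorem c_pp_011 : CertB 0 536870912 536870912 536870912 1045395039 1503240 3 eng mog cd0q0 cd1q1 pd1 true true true .pnn 0 1 1
    ndB0q0 ndB1q1 pcB1 Cut.none Ext.none :=
  certB0 (fam := true) (s1 := true) (s2 := true) (a := 0) (b := 1) (c := 1) (cn := .pnn) (n1 := ndB0q0) (n2 := ndB1q1) (pc := pcB1) (cut := Cut.none) (xt := Ext.none) (P1 := 0) (W1 := 536870912) (P2 := 536870912) (W2 := 536870912) (P3 := 1045395039) (W3 := 1503240) (N0 := 3) (En := eng) (mo := mog) (C1 := cd0q0) (C2 := cd1q1) (C3 := pd1)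
    rfl k0_pp_011

noncomputable def f_pp_012 : ℕ → ℕ → ℕ → ℕ → Bool := onCell 0 536870912 536870912 536870912 1045395039 1503240
    (rowB 3 eng mog cd0q0 cd1q1 pd2 0 true true true .pnp 0 1 2 (qsf 0 536870912 536870912 536870912 2) ndB0q0 ndB1q1 pcB2 Cut.none Ext.none)

def k0_pp_012 : ∃ t, chk3 f_pp_012 t 1 1 1 = true :=
  ⟨(l 4), by decide +kernel⟩

theorem c_pp_012 : CertB 0 536870912 536870912 536870912 1045395039 1503240 3 eng mog cd0q0 cd1q1 pd2 true true true .pnp 0 1 2
    ndB0q0 ndB1q1 pcB2 Cut.none Ext.none :=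
  certB0 (fam := true) (s1 := true) (s2 := true) (a := 0) (b := 1) (c := 2) (cn := .pnp) (n1 := ndB0q0) (n2 := ndB1q1) (pc := pcB2) (cut := Cut.none) (xt := Ext.none) (P1 := 0) (W1 := 536870912) (P2 := 536870912) (W2 := 536870912) (P3 := 1045395039) (W3 := 1503240) (N0 := 3) (En := eng) (mo := mog) (C1 := cd0q0) (C2 := cd1q1) (C3 := pd2)
    rfl k0_pp_012

noncomputable def cut_pp_022_a : Cut := Cut.of [[⟨0, 0, 0, 26843545⟩, ⟨1, 1, 0, 26843545⟩, ⟨2, 1, 0, 26843545⟩]]

noncomputable def f_pp_022_a : ℕ → ℕ → ℕ → ℕ → Bool := onCell 0 536870912 0 536870912 1045395039 1503240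
    (rowB 3 eng mog cd0q0 cd1q2a pd2 0 true true true .pp 0 2 2 (qsf 0 536870912 0 536870912 2) ndB0q0 ndB1q2a pcB2 cut_pp_022_a Ext.none)

def k0_pp_022_a : ∃ t, chk3 f_pp_022_a t 4 2 1 = true :=
  ⟨(a (b (a (a (b (l 16205032) (l 16322736)) (b (a (l 16187880) (l 16097872)) (l 16146024))) (b (a (l 15895208) (l 15801384)) (a (l 16095848) (l 15882528)))) (a (b (a (l 16304808) (b (l 16316528) (l 16391336))) (a (b (l 16378560) (l 16351880)) (b (l 16482344) (l 16425720)))) (b (a (l 16162240) (b (l 16174600) (l 16271376))) (b (a (l 16412856) (l 16364768)) (a (l 16491904) (l 16452576)))))) (b (a (b (a (b (l 15676752) (l 15779080)) (b (l 15575208) (l 15691864))) (a (b (l 15886216) (l 15995648)) (b (l 15812056) (l 15933384)))) (b (a (b (l 15492376) (l 15622712)) (b (l 15426648) (l 15570008))) (a (b (l 15755336) (l 15887992)) (b (l 15714448) (l 15857824))))) (b (a (a (b (l 16105056) (l 16212264)) (b (l 16053656) (l 16170808))) (a (b (l 16018584) (l 16145160)) (b (l 15998168) (l 16133640)))) (a (a (b (l 16315224) (l 16411944))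 (b (l 16282880) (l 16387992))) (b (a (l 16265864) (l 16262480)) (a (l 16378912) (b (l 16353704) (l 16411592)))))))), by decide +kernel⟩

def k1_pp_022_a : ∃ t, chk3 f_pp_022_a t 8 6 1 = true :=
  ⟨(a (b (a (b (l 16334936) (l 16330112)) (b (l 16400512) (a (l 16421768) (l 16480272)))) (a (b (a (l 16311272) (l 16368440)) (b (l 16358616) (l 16335328))) (b (a (l 16425984) (l 16480992)) (a (l 16426688) (l 16499352))))) (b (b (a (l 16550888) (l 16491216)) (a (l 16531328) (l 16562888))) (b (a (l 16506208) (l 16575360)) (a (b (l 16556472) (l 16568152)) (b (l 16600376) (l 16609280)))))), by decide +kernel⟩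

def k2_pp_022_a : ∃ t, chk3 f_pp_022_a t 8 14 1 = true :=
  ⟨(a (a (b (b (a (l 16376408) (l 16426400)) (a (l 16407664) (l 16455536))) (b (a (b (l 16435328) (l 16455920)) (l 16491176)) (a (b (l 16457024) (a (l 16492816) (l 16513176))) (b (l 16522432) (a (l 16534256) (l 16556472)))))) (b (a (b (l 16477376) (l 16504424)) (b (l 16526288) (l 16551464))) (a (b (l 16496040) (b (l 16567664) (l 16589776))) (b (l 16561992) (b (l 16611104) (l 16632184)))))) (b (a (b (l 16564152) (a (l 16590592) (l 16623616))) (b (l 16602480) (a (l 16651864) (l 16675408)))) (a (b (a (l 16620272) (l 16651584)) (a (b (l 16646880) (l 16666952)) (b (l 16676872) (l 16695976)))) (b (a (l 16657440) (b (l 16693648) (l 16707816))) (b (a (l 16702496) (a (l 16718744) (l 16706064))) (a (a (l 16714912) (l 16704608)) (a (l 161296038743) (l 184918379159)))))))), by decide +kernel⟩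

def k3_pp_022_a : ∃ t, chk3 f_pp_022_a t 16 15 1 = true :=
  ⟨(b (a (b (a (b (a (l 16521032) (l 16540288)) (a (l 16552632) (l 16570424))) (b (a (l 16560104) (l 16580912)) (a (l 16588464) (l 16608200)))) (a (b (a (l 16586168) (l 16582424)) (a (b (l 16612000) (l 16629544)) (b (l 16629616) (l 16647416)))) (b (a (b (l 16612136) (l 16629080)) (l 16617360)) (a (b (l 16646560) (l 16664488)) (b (l 16663424) (l 16681280)))))) (a (b (b (l 16571856) (a (l 16628704) (l 16650176))) (b (a (l 16636600) (b (l 16670808) (l 16685152))) (a (b (l 16681160) (l 16698208)) (b (l 16700336) (l 16695344))))) (b (b (l 16634200) (a (l 16670952) (l 16689456))) (b (a (l 16677256) (l 16695240)) (a (b (l 16719824) (a (l 16730584) (l 16718312))) (b (a (l 16733592) (l 16719576)) (a (l 141431848055) (l 16748272)))))))) (a (b (a (b (a (l 6) (b (l 16665472) (l 16662800))) (l 6)) (b (a (b (l 16682936) (l 16680536)) (b (l 16678704) (l 16697608))) (a (b (b (l 16715600) (l 16704104)) (l 6)) (b (a (l 16733408) (l 16720944)) (a (b (l 16747848) (l 38889527543))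 (b (l 37278912695) (a (l 86134185735) (l 4)))))))) (a (l 6) (a (l 6) (a (l 6) (l 4))))) (b (a (b (a (b (l 16695360) (a (l 16730904) (l 16718096))) (b (a (l 16728968) (l 16716736)) (a (b (l 16742544) (l 16742136)) (b (l 16738072) (l 4))))) (a (b (a (b (l 16745392) (l 36205168375)) (b (l 74322999927) (l 145189980263))) (a (b (l 143042499399) (l 4)) (l 4))) (b (a (l 173644133767) (l 4)) (l 4)))) (b (a (b (a (b (l 16742208) (l 16747792)) (l 174717856471)) (l 4)) (l 4)) (l 4))) (l 4)))), by decide +kernel⟩

def k4_pp_022_a : ∃ t, chk3 f_pp_022_a t 17 15 1 = true :=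
  ⟨(b (a (b (a (b (l 16688928) (a (l 16705432) (l 16699024))) (b (a (l 16710304) (l 16702080)) (a (b (l 16727408) (l 162906663623)) (l 166127888455)))) (a (b (a (b (l 16724904) (l 134989370599)) (b (l 137673727879) (l 176328460039))) (a (b (l 177402200711) (l 4)) (l 4))) (b (a (l 170422895111) (l 4)) (l 4)))) (b (b (a (a (b (l 16729336) (l 161832926679)) (l 169885989735)) (l 4)) (l 4)) (l 4))) (l 4)), by decide +kernel⟩

def k5_pp_022_a : ∃ t, chk3 f_pp_022_a t 9 3 1 = true :=
  ⟨(b (b (a (b (a (l 16479512) (l 16463304)) (a (b (l 16560136) (l 16596584)) (l 16527928))) (b (a (l 16440576) (b (l 16466880) (l 16519344))) (a (l 16512000) (b (l 16568776) (l 16614952))))) (a (b (a (b (l 16630016) (l 16660160)) (b (l 16625648) (l 16658848))) (a (b (l 16666752) (l 16673296)) (b (l 16688296) (l 16699304)))) (b (a (b (l 16635776) (l 16671896)) (b (l 16636680) (l 16675672))) (a (b (l 16704152) (a (l 16709152) (l 16711848))) (b (a (l 16710848) (l 16710680)) (a (l 103313997607) (l 193508256391))))))) (b (a (b (a (b (a (l 16676496)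 (l 16692592)) (a (l 16673504) (l 16688520))) (b (a (l 16683760) (l 16713064)) (b (a (l 16716032) (l 16701912)) (a (l 139284314215) (l 4))))) (a (b (a (b (l 16711792) (l 117809467143)) (b (l 113514506343) (l 168812233847))) (a (b (a (l 166664752791) (l 4)) (l 4)) (l 4))) (b (a (b (l 174717814679) (l 4)) (l 4)) (l 4)))) (b (a (b (a (l 62511818679) (l 192434520999)) (l 4)) (l 4)) (l 4))) (l 4))), by decide +kernel⟩

def k6_pp_022_a : ∃ t, chk3 f_pp_022_a t 5 2 1 = true :=
  ⟨(b (a (b (a (a (b (l 15377840) (l 15533568)) (b (l 15346224) (l 15513640))) (a (b (l 15331048) (l 15509496)) (b (l 15331568) (l 15520376)))) (a (a (b (l 15689184) (l 15842696)) (b (l 15679824) (l 15842872))) (a (b (l 15685600) (l 15857600)) (b (l 15705768) (l 15886136))))) (b (a (a (b (l 15347040) (l 15545520)) (b (l 15376704) (l 15584176))) (a (b (l 15419776) (l 15635568)) (b (l 15475496) (l 15698920)))) (a (b (a (l 15739584) (l 15786264)) (a (l 15927720) (l 15981576))) (b (a (l 15845040) (l 15915136)) (a (l 16046936) (l 16123008)))))) (a (b (a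 (b (a (l 15992232) (l 16001056)) (a (l 16136064) (l 16152744))) (b (a (l 16023880) (l 16059960)) (a (l 16182920) (l 16225832)))) (a (b (a (l 16188656) (b (l 16261360) (l 16330920))) (a (b (l 16369120) (l 16430368)) (b (l 16397984) (l 16462376)))) (b (a (l 16228392) (l 16277512)) (a (b (l 16439528) (l 16506848)) (b (l 16492984) (l 16563000)))))) (b (a (b (a (l 16108536) (l 16168832)) (a (l 16259752) (l 16304872))) (b (a (l 16240072) (l 16321472)) (a (l 16360408) (l 16404552)))) (a (b (a (l 16338128) (l 16388456)) (a (b (l 16557568) (l 16588080)) (b (l 16590472) (a (l 16686848) (l 16695560))))) (b (a (l 16448632) (b (l 16580008) (a (l 16681112) (l 16692840)))) (a (b (a (l 16673168) (l 16672984)) (a (l 16706016) (l 4))) (b (l 68954160583) (l 4)))))))), by decide +kernel⟩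

def k7_pp_022_a : ∃ t, chk3 f_pp_022_a t 5 3 1 = true :=
  ⟨(b (a (b (a (b (a (b (l 16488872) (l 16544432)) (b (l 16523896) (l 16582352))) (a (b (l 16596848) (l 16624928)) (b (l 16595608) (l 16647344)))) (b (a (b (l 16571168) (l 16590368)) (b (l 16587952) (a (l 16677200) (l 16688400)))) (a (b (l 16627048) (a (l 16711088) (l 16705992))) (b (a (l 16688544) (l 16704832)) (l 4))))) (a (b (a (b (l 16670408) (a (l 16712264) (l 16709368))) (b (a (l 16712176) (l 16707640)) (a (l 16688568) (l 4)))) (a (b (a (l 16711616) (l 4)) (l 4)) (l 4))) (b (a (b (a (l 16708136) (l 4)) (l 4)) (l 4)) (l 4)))) (b (a (b (a (b (a (l 16680936) (l 16694064)) (a (l 16665968) (l 16704496))) (b (a (l 16685680) (l 16705248)) (l 4))) (l 4)) (l 4)) (l 4))) (l 4)), by decide +kernel⟩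

def k8_pp_022_a : ∃ t, chk3 f_pp_022_a t 3 1 1 = true :=
  ⟨(b (b (a (a (b (a (a (b (l 15543064) (l 15773424)) (b (l 15621680) (l 15858304))) (b (a (l 15710552) (l 15808856)) (a (l 15952744) (l 16055920)))) (a (b (a (l 15995752) (l 16086088)) (a (l 16209008) (l 16283152))) (a (b (l 16185344) (l 16302672)) (b (l 16229776) (l 16371528))))) (a (b (a (b (l 15915768) (l 16146048)) (b (l 16030464) (l 16138400))) (b (a (l 16260480) (b (l 16469088) (l 16524520))) (a (b (l 16538176) (a (l 16660816) (l 16650472))) (b (a (l 16650096) (b (l 16704568) (l 16711648))) (a (l 92039610215) (l 4)))))) (a (b (b (l 16047232) (l 106399949207)) (b (b (l 16511112) (a (l 16639072) (l 2))) (b (a (l 102240171671) (l 4)) (l 4)))) (l 2)))) (l 2)) (a (a (b (a (b (a (l 16349296) (l 16385600)) (a (l 16436360) (b (l 16595952) (a (l 16697608) (l 16692768))))) (b (a (a (l 16527864) (l 45868344055)) (b (a (l 16650920) (l 16662352)) (a (l 51774275319) (l 16717208)))) (a (b (a (l 16663720) (l 16715008)) (l 4)) (l 4)))) (a (b (a (b (a (l 16689352) (l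 16692400)) (l 71638566279)) (b (l 4) (l 4))) (l 4)) (l 4))) (b (a (b (a (b (a (l 66269796439) (l 16720336)) (l 4)) (l 4)) (l 4)) (l 4)) (l 4))) (l 4))) (l 4)), by decide +kernel⟩

theorem s9_pp_022_a : ∃ t, chk3 f_pp_022_a t 5 1 1 = true := ex3_b k6_pp_022_a k7_pp_022_a

theorem s10_pp_022_a : ∃ t, chk3 f_pp_022_a t 8 15 1 = true := ex3_a k3_pp_022_a k4_pp_022_a

theorem s11_pp_022_a : ∃ t, chk3 f_pp_022_a t 8 7 1 = true := ex3_b k2_pp_022_a s10_pp_022_a

theorem s12_pp_022_a : ∃ t, chk3 f_pp_022_a t 8 3 1 = true := ex3_b k1_pp_022_a s11_pp_022_a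

theorem s13_pp_022_a : ∃ t, chk3 f_pp_022_a t 4 3 1 = true := ex3_a s12_pp_022_a k5_pp_022_a

theorem s14_pp_022_a : ∃ t, chk3 f_pp_022_a t 4 1 1 = true := ex3_b k0_pp_022_a s13_pp_022_a

theorem s15_pp_022_a : ∃ t, chk3 f_pp_022_a t 2 1 1 = true := ex3_a s14_pp_022_a s9_pp_022_a

theorem s16_pp_022_a : ∃ t, chk3 f_pp_022_a t 1 1 1 = true := ex3_a s15_pp_022_a k8_pp_022_a

theorem c_pp_022_a : CertB 0 536870912 0 536870912 1045395039 1503240 3 eng mog cd0q0 cd1q2a pd2 true true true .pp 0 2 2
    ndB0q0 ndB1q2a pcB2 cut_pp_022_a Ext.none :=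
  certB0 (fam := true) (s1 := true) (s2 := true) (a := 0) (b := 2) (c := 2) (cn := .pp) (n1 := ndB0q0) (n2 := ndB1q2a) (pc := pcB2) (cut := cut_pp_022_a) (xt := Ext.none) (P1 := 0) (W1 := 536870912) (P2 := 0) (W2 := 536870912) (P3 := 1045395039) (W3 := 1503240) (N0 := 3) (En := eng) (mo := mog) (C1 := cd0q0) (C2 := cd1q2a) (C3 := pd2)
    rfl s16_pp_022_a

noncomputable def cut_pp_022_b : Cut := Cut.of [[⟨0, 0, 0, 26843545⟩, ⟨1, 1, 0, 26843545⟩, ⟨2, 1, 0, 26843545⟩]]

noncomputable def f_pp_022_b : ℕ → ℕ → ℕ → ℕ → Bool := onCell 0 536870912 1073741824 536870912 1045395039 1503240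
    (rowB 3 eng mog cd0q0 cd1q2b pd2 1 true true true .pp 0 2 2 (qsf 0 536870912 1239849684 370763052 2) ndB0q0 ndB1q2b pcB2 cut_pp_022_b Ext.none)

def k0_pp_022_b : ∃ t, chk3 f_pp_022_b t 1 2 1 = true :=
  ⟨(a (a (b (l 1) (a (b (a (b (a (l 16260056) (l 1)) (a (l 16117520) (l 16010488))) (b (l 1) (l 288868442487))) (a (a (b (l 15813504) (l 15528416)) (b (l 15812384) (l 15535160))) (b (a (l 15813416) (l 200284140407)) (a (l 15540192) (l 15548000))))) (b (l 1) (b (a (a (l 269540494951) (l 1)) (l 1)) (a (b (l 274909184951) (l 166997874039)) (b (l 1) (l 170755950263))))))) (l 1)) (l 1)), by decide +kernel⟩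

def k1_pp_022_b : ∃ t, chk3 f_pp_022_b t 1 3 1 = true :=
  ⟨(a (a (a (b (a (b (a (l 15248128) (b (l 15334104) (l 15205712))) (b (l 15136224) (l 15137592))) (b (b (l 15348856) (l 15226688)) (b (l 15173392) (l 15184272)))) (b (a (b (l 15197496) (l 15309880)) (l 15289328)) (a (b (l 15467712) (l 15662312)) (l 15498056)))) (b (b (a (b (a (l 15365152) (l 15374200)) (l 15232720)) (b (a (b (l 15420008) (l 15345736)) (b (l 155723527447) (l 15349304))) (b (a (l 15289696) (l 15294416)) (l 15254416)))) (b (a (l 15207032) (b (l 15233888) (l 15229960))) (a (l 15224960) (l 15254000)))) (b (b (a (l 15302104) (l 15337608)) (l 15453216)) (b (l 15633296) (l 15851200))))) (b (b (a (a (b (a (b (l 1) (l 137469747111)) (l 1)) (b (a (l 15295808) (l 161628811319)) (a (l 15259864) (l 15259800)))) (b (l 1) (b (l 1) (l 180419213383)))) (l 1)) (a (b (a (b (l 15241768) (l 15240408)) (b (l 163239296135) (l 172902958807))) (a (b (l 15255152) (l 15285328)) (b (l 15256072) (l 15288688)))) (b (a (b (l 1) (l 168607955143)) (l 1)) (a (b (l 175587302295)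 (l 207799615143)) (b (l 1) (l 161628660759)))))) (b (a (b (a (l 15358192) (l 15365504)) (l 15508432)) (b (a (b (l 15329224) (l 15393200)) (b (l 205652168679) (l 15354168))) (a (l 15514456) (b (l 15454840) (l 15547352))))) (b (a (l 15702576) (a (l 15717816) (l 15708504))) (a (l 15935984) (l 15960120)))))) (b (l 1) (a (b (a (b (a (a (l 173439725015) (l 1)) (l 1)) (a (b (l 220147760327) (l 15519520)) (b (l 1) (l 428990811655)))) (l 1)) (a (b (a (b (l 15626368) (l 15744400)) (b (l 224979875015) (l 15664240))) (a (l 15940504) (b (l 15837120) (l 15977384)))) (b (a (b (l 1) (l 438117967271)) (l 1)) (a (b (l 253434391927) (l 187399552343)) (b (l 1) (l 455298257063)))))) (l 1)))), by decide +kernel⟩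

theorem s2_pp_022_b : ∃ t, chk3 f_pp_022_b t 1 1 1 = true := ex3_b k0_pp_022_b k1_pp_022_b

theorem c_pp_022_b : CertB 0 536870912 1239849684 370763052 1045395039 1503240 3 eng mog cd0q0 cd1q2b pd2 true true true .pp 0 2 2
    ndB0q0 ndB1q2b pcB2 cut_pp_022_b Ext.none :=
  certB1 (fam := true) (s1 := true) (s2 := true) (a := 0) (b := 2) (c := 2) (cn := .pp) (n1 := ndB0q0) (n2 := ndB1q2b) (pc := pcB2) (cut := cut_pp_022_b) (xt := Ext.none) (P1 := 0) (W1 := 536870912) (P2 := 1239849684) (W2 := 370763052) (P3 := 1045395039) (W3 := 1503240) (N0 := 3) (En := eng) (mo := mog) (C1 := cd0q0) (C2 := cd1q2b) (C3 := pd2)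
    rfl (fun _ => rfl) s2_pp_022_b

noncomputable def f_pp_023_a : ℕ → ℕ → ℕ → ℕ → Bool := onCell 1610612736 536870912 0 536870912 1045395039 1503240
    (rowB 3 eng mog cd0q0 cd1q2a pd3 2 true true true .up 0 2 3 (qsf 0 536870912 0 536870912 3) ndB0q0 ndB1q2a pcB3 Cut.none Ext.none)

def k0_pp_023_a : ∃ t, chk3 f_pp_023_a t 1 1 1 = true :=
  ⟨(b (a (b (a (a (a (b (a (l 16694840) (l 16690000)) (b (a (l 16699680) (l 95797773287)) (l 4))) (b (a (b (l 16718080) (l 61974904487)) (b (l 16731208) (l 98482152743))) (b (l 4) (l 4)))) (a (b (b (a (l 58753708663) (l 90965991799)) (l 4)) (l 4)) (l 4))) (l 4)) (l 4)) (l 2)) (l 4)), by decide +kernel⟩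

theorem c_pp_023_a : CertB 0 536870912 0 536870912 1045395039 1503240 3 eng mog cd0q0 cd1q2a pd3 true true true .up 0 2 3
    ndB0q0 ndB1q2a pcB3 Cut.none Ext.none :=
  certB2 (fam := true) (s1 := true) (s2 := true) (a := 0) (b := 2) (c := 3) (cn := .up) (n1 := ndB0q0) (n2 := ndB1q2a) (pc := pcB3) (cut := Cut.none) (xt := Ext.none) (P1 := 0) (W1 := 536870912) (P2 := 0) (W2 := 536870912) (P3 := 1045395039) (W3 := 1503240) (N0 := 3) (En := eng) (mo := mog) (C1 := cd0q0) (C2 := cd1q2a) (C3 := pd3)
    rfl (fun _ => rfl) k0_pp_023_a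

noncomputable def f_pp_023_b : ℕ → ℕ → ℕ → ℕ → Bool := onCell 1610612736 536870912 1239849684 370763052 1045395039 1503240
    (rowB 3 eng mog cd0q0 cd1q2b pd3 2 true true true .up 0 2 3 (qsf 0 536870912 1239849684 370763052 3) ndB0q0 ndB1q2b pcB3 Cut.none Ext.none)

def k0_pp_023_b : ∃ t, chk3 f_pp_023_b t 1 1 1 = true :=
  ⟨(a (a (a (b (b (b (a (b (l 16637432) (l 16596728)) (a (l 16611144) (l 16604784))) (a (l 16498808) (l 16537448))) (a (l 16219544) (l 16205248))) (b (a (b (l 16037816) (l 15853832)) (l 16013336)) (b (a (l 15664792) (l 15738520)) (a (b (a (l 15476824) (l 15531712)) (l 15383440)) (a (l 15524360) (l 4)))))) (b (b (a (b (b (a (l 16688568) (b (l 16713736) (l 16706504))) (l 16615232)) (l 16523752)) (b (l 4) (l 4))) (a (l 62510623847) (l 4))) (l 4))) (l 4)) (l 4)), by decide +kernel⟩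

theorem c_pp_023_b : CertB 0 536870912 1239849684 370763052 1045395039 1503240 3 eng mog cd0q0 cd1q2b pd3 true true true .up 0 2 3
    ndB0q0 ndB1q2b pcB3 Cut.none Ext.none :=
  certB2 (fam := true) (s1 := true) (s2 := true) (a := 0) (b := 2) (c := 3) (cn := .up) (n1 := ndB0q0) (n2 := ndB1q2b) (pc := pcB3) (cut := Cut.none) (xt := Ext.none) (P1 := 0) (W1 := 536870912) (P2 := 1239849684) (W2 := 370763052) (P3 := 1045395039) (W3 := 1503240) (N0 := 3) (En := eng) (mo := mog) (C1 := cd0q0) (C2 := cd1q2b) (C3 := pd3)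
    rfl (fun _ => rfl) k0_pp_023_b

noncomputable def f_pp_033 : ℕ → ℕ → ℕ → ℕ → Bool := onCell 0 536870912 1610612736 536870912 1045395039 1503240
    (rowB 3 eng mog cd0q0 cd1q3 pd3 0 true true true .pnn 0 3 3 (qsf 0 536870912 1610612736 536870912 3) ndB0q0 ndB1q3 pcB3 Cut.none Ext.none)

def k0_pp_033 : ∃ t, chk3 f_pp_033 t 1 1 1 = true :=
  ⟨(a (b (a (a (b (b (a (b (l 15009032) (l 14951440)) (b (l 15162824) (l 4))) (l 4)) (l 4)) (l 4)) (l 4)) (l 4)) (l 4)), by decide +kernel⟩

theorem c_pp_033 : CertB 0 536870912 1610612736 536870912 1045395039 1503240 3 eng mog cd0q0 cd1q3 pd3 true true true .pnn 0 3 3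
    ndB0q0 ndB1q3 pcB3 Cut.none Ext.none :=
  certB0 (fam := true) (s1 := true) (s2 := true) (a := 0) (b := 3) (c := 3) (cn := .pnn) (n1 := ndB0q0) (n2 := ndB1q3) (pc := pcB3) (cut := Cut.none) (xt := Ext.none) (P1 := 0) (W1 := 536870912) (P2 := 1610612736) (W2 := 536870912) (P3 := 1045395039) (W3 := 1503240) (N0 := 3) (En := eng) (mo := mog) (C1 := cd0q0) (C2 := cd1q3) (C3 := pd3)
    rfl k0_pp_033

noncomputable def f_pp_101 : ℕ → ℕ → ℕ → ℕ → Bool := onCell 536870912 536870912 0 536870912 1045395039 1503240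
    (rowB 3 eng mog cd0q1 cd1q0 pd1 0 true true true .npn 1 0 1 (qsf 536870912 536870912 0 536870912 1) ndB0q1 ndB1q0 pcB1 Cut.none Ext.none)

def k0_pp_101 : ∃ t, chk3 f_pp_101 t 1 1 1 = true :=
  ⟨(l 5), by decide +kernel⟩

theorem c_pp_101 : CertB 536870912 536870912 0 536870912 1045395039 1503240 3 eng mog cd0q1 cd1q0 pd1 true true true .npn 1 0 1
    ndB0q1 ndB1q0 pcB1 Cut.none Ext.none :=
  certB0 (fam := true) (s1 := true) (s2 := true) (a := 1) (b := 0) (c := 1) (cn := .npn) (n1 := ndB0q1) (n2 := ndB1q0) (pc := pcB1) (cut := Cut.none) (xt := Ext.none) (P1 := 536870912) (W1 := 536870912) (P2 := 0) (W2 := 536870912) (P3 := 1045395039) (W3 := 1503240) (N0 := 3) (En := eng) (mo := mog) (C1 := cd0q1) (C2 := cd1q0) (C3 := pd1)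
    rfl k0_pp_101

noncomputable def f_pp_102 : ℕ → ℕ → ℕ → ℕ → Bool := onCell 536870912 536870912 0 536870912 1045395039 1503240
    (rowB 3 eng mog cd0q1 cd1q0 pd2 0 true true true .npp 1 0 2 (qsf 536870912 536870912 0 536870912 2) ndB0q1 ndB1q0 pcB2 Cut.none Ext.none)

def k0_pp_102 : ∃ t, chk3 f_pp_102 t 1 1 1 = true :=
  ⟨(l 5), by decide +kernel⟩

theorem c_pp_102 : CertB 536870912 536870912 0 536870912 1045395039 1503240 3 eng mog cd0q1 cd1q0 pd2 true true true .npp 1 0 2
    ndB0q1 ndB1q0 pcB2 Cut.none Ext.none :=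
  certB0 (fam := true) (s1 := true) (s2 := true) (a := 1) (b := 0) (c := 2) (cn := .npp) (n1 := ndB0q1) (n2 := ndB1q0) (pc := pcB2) (cut := Cut.none) (xt := Ext.none) (P1 := 536870912) (W1 := 536870912) (P2 := 0) (W2 := 536870912) (P3 := 1045395039) (W3 := 1503240) (N0 := 3) (En := eng) (mo := mog) (C1 := cd0q1) (C2 := cd1q0) (C3 := pd2)
    rfl k0_pp_102

noncomputable def f_pp_112 : ℕ → ℕ → ℕ → ℕ → Bool := onCell 536870912 536870912 536870912 536870912 1045395039 1503240
    (rowB 3 eng mog cd0q1 cd1q1 pd2 0 true true true .dn 1 1 2 (qsf 536870912 536870912 536870912 536870912 2) ndB0q1 ndB1q1 pcB2 Cut.none Ext.none)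

def k0_pp_112 : ∃ t, chk3 f_pp_112 t 1 1 1 = true :=
  ⟨(l 4), by decide +kernel⟩

theorem c_pp_112 : CertB 536870912 536870912 536870912 536870912 1045395039 1503240 3 eng mog cd0q1 cd1q1 pd2 true true true .dn 1 1 2
    ndB0q1 ndB1q1 pcB2 Cut.none Ext.none :=
  certB0 (fam := true) (s1 := true) (s2 := true) (a := 1) (b := 1) (c := 2) (cn := .dn) (n1 := ndB0q1) (n2 := ndB1q1) (pc := pcB2) (cut := Cut.none) (xt := Ext.none) (P1 := 536870912) (W1 := 536870912) (P2 := 536870912) (W2 := 536870912) (P3 := 1045395039) (W3 := 1503240) (N0 := 3) (En := eng) (mo := mog) (C1 := cd0q1) (C2 := cd1q1) (C3 := pd2)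
    rfl k0_pp_112

noncomputable def f_pp_113 : ℕ → ℕ → ℕ → ℕ → Bool := onCell 536870912 536870912 536870912 536870912 1045395039 1503240
    (rowB 3 eng mog cd0q1 cd1q1 pd3 0 true true true .nn 1 1 3 (qsf 536870912 536870912 536870912 536870912 3) ndB0q1 ndB1q1 pcB3 Cut.none Ext.none)

def k0_pp_113 : ∃ t, chk3 f_pp_113 t 1 1 1 = true :=
  ⟨(l 4), by decide +kernel⟩

theorem c_pp_113 : CertB 536870912 536870912 536870912 536870912 1045395039 1503240 3 eng mog cd0q1 cd1q1 pd3 true true true .nn 1 1 3
    ndB0q1 ndB1q1 pcB3 Cut.none Ext.none :=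
  certB0 (fam := true) (s1 := true) (s2 := true) (a := 1) (b := 1) (c := 3) (cn := .nn) (n1 := ndB0q1) (n2 := ndB1q1) (pc := pcB3) (cut := Cut.none) (xt := Ext.none) (P1 := 536870912) (W1 := 536870912) (P2 := 536870912) (W2 := 536870912) (P3 := 1045395039) (W3 := 1503240) (N0 := 3) (En := eng) (mo := mog) (C1 := cd0q1) (C2 := cd1q1) (C3 := pd3)
    rfl k0_pp_113

noncomputable def f_pp_123_a : ℕ → ℕ → ℕ → ℕ → Bool := onCell 536870912 536870912 0 536870912 1045395039 1503240
    (rowB 3 eng mog cd0q1 cd1q2a pd3 0 true true true .npn 1 2 3 (qsf 536870912 536870912 0 536870912 3) ndB0q1 ndB1q2a pcB3 Cut.none Ext.none)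

def k0_pp_123_a : ∃ t, chk3 f_pp_123_a t 1 1 1 = true :=
  ⟨(a (l 4) (l 4)), by decide +kernel⟩

theorem c_pp_123_a : CertB 536870912 536870912 0 536870912 1045395039 1503240 3 eng mog cd0q1 cd1q2a pd3 true true true .npn 1 2 3
    ndB0q1 ndB1q2a pcB3 Cut.none Ext.none :=
  certB0 (fam := true) (s1 := true) (s2 := true) (a := 1) (b := 2) (c := 3) (cn := .npn) (n1 := ndB0q1) (n2 := ndB1q2a) (pc := pcB3) (cut := Cut.none) (xt := Ext.none) (P1 := 536870912) (W1 := 536870912) (P2 := 0) (W2 := 536870912) (P3 := 1045395039) (W3 := 1503240) (N0 := 3) (En := eng) (mo := mog) (C1 := cd0q1) (C2 := cd1q2a) (C3 := pd3)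
    rfl k0_pp_123_a

noncomputable def f_pp_123_b : ℕ → ℕ → ℕ → ℕ → Bool := onCell 536870912 536870912 1239849684 370763052 1045395039 1503240
    (rowB 3 eng mog cd0q1 cd1q2b pd3 0 true true true .npn 1 2 3 (qsf 536870912 536870912 1239849684 370763052 3) ndB0q1 ndB1q2b pcB3 Cut.none Ext.none)

def k0_pp_123_b : ∃ t, chk3 f_pp_123_b t 1 1 1 = true :=
  ⟨(a (l 4) (l 4)), by decide +kernel⟩

theorem c_pp_123_b : CertB 536870912 536870912 1239849684 370763052 1045395039 1503240 3 eng mog cd0q1 cd1q2b pd3 true true true .npn 1 2 3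
    ndB0q1 ndB1q2b pcB3 Cut.none Ext.none :=
  certB0 (fam := true) (s1 := true) (s2 := true) (a := 1) (b := 2) (c := 3) (cn := .npn) (n1 := ndB0q1) (n2 := ndB1q2b) (pc := pcB3) (cut := Cut.none) (xt := Ext.none) (P1 := 536870912) (W1 := 536870912) (P2 := 1239849684) (W2 := 370763052) (P3 := 1045395039) (W3 := 1503240) (N0 := 3) (En := eng) (mo := mog) (C1 := cd0q1) (C2 := cd1q2b) (C3 := pd3)
    rfl k0_pp_123_b

noncomputable def f_pp_133 : ℕ → ℕ → ℕ → ℕ → Bool := onCell 536870912 536870912 1610612736 536870912 1045395039 1503240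
    (rowB 3 eng mog cd0q1 cd1q3 pd3 0 true true true .dn 1 3 3 (qsf 536870912 536870912 1610612736 536870912 3) ndB0q1 ndB1q3 pcB3 Cut.none Ext.none)

def k0_pp_133 : ∃ t, chk3 f_pp_133 t 1 1 1 = true :=
  ⟨(l 4), by decide +kernel⟩

theorem c_pp_133 : CertB 536870912 536870912 1610612736 536870912 1045395039 1503240 3 eng mog cd0q1 cd1q3 pd3 true true true .dn 1 3 3
    ndB0q1 ndB1q3 pcB3 Cut.none Ext.none :=
  certB0 (fam := true) (s1 := true) (s2 := true) (a := 1) (b := 3) (c := 3) (cn := .dn) (n1 := ndB0q1) (n2 := ndB1q3) (pc := pcB3) (cut := Cut.none) (xt := Ext.none) (P1 := 536870912) (W1 := 536870912) (P2 := 1610612736) (W2 := 536870912) (P3 := 1045395039) (W3 := 1503240) (N0 := 3) (En := eng) (mo := mog) (C1 := cd0q1) (C2 := cd1q3) (C3 := pd3)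
    rfl k0_pp_133

noncomputable def f_pp_202 : ℕ → ℕ → ℕ → ℕ → Bool := onCell 0 536870912 0 536870912 1045395039 1503240
    (rowB 3 eng mog cd0q2 cd1q0 pd2 0 true true true .pp 2 0 2 (qsf 0 536870912 0 536870912 2) ndB0q2 ndB1q0 pcB2 Cut.none Ext.none)

def k0_pp_202 : ∃ t, chk3 f_pp_202 t 1 1 1 = true :=
  ⟨(l 5), by decide +kernel⟩

theorem c_pp_202 : CertB 0 536870912 0 536870912 1045395039 1503240 3 eng mog cd0q2 cd1q0 pd2 true true true .pp 2 0 2
    ndB0q2 ndB1q0 pcB2 Cut.none Ext.none :=
  certB0 (fam := true) (s1 := true) (s2 := true) (a := 2) (b := 0) (c := 2) (cn := .pp) (n1 := ndB0q2) (n2 := ndB1q0) (pc := pcB2) (cut := Cut.none) (xt := Ext.none) (P1 := 0) (W1 := 536870912) (P2 := 0) (W2 := 536870912) (P3 := 1045395039) (W3 := 1503240) (N0 := 3) (En := eng) (mo := mog) (C1 := cd0q2) (C2 := cd1q0) (C3 := pd2)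
    rfl k0_pp_202

noncomputable def f_pp_203 : ℕ → ℕ → ℕ → ℕ → Bool := onCell 0 536870912 0 536870912 1045395039 1503240
    (rowB 3 eng mog cd0q2 cd1q0 pd3 0 true true true .up 2 0 3 (qsf 0 536870912 0 536870912 3) ndB0q2 ndB1q0 pcB3 Cut.none Ext.none)

def k0_pp_203 : ∃ t, chk3 f_pp_203 t 1 1 1 = true :=
  ⟨(l 5), by decide +kernel⟩

theorem c_pp_203 : CertB 0 536870912 0 536870912 1045395039 1503240 3 eng mog cd0q2 cd1q0 pd3 true true true .up 2 0 3
    ndB0q2 ndB1q0 pcB3 Cut.none Ext.none :=
  certB0 (fam := true) (s1 := true) (s2 := true) (a := 2) (b := 0) (c := 3) (cn := .up) (n1 := ndB0q2) (n2 := ndB1q0) (pc := pcB3) (cut := Cut.none) (xt := Ext.none) (P1 := 0) (W1 := 536870912) (P2 := 0) (W2 := 536870912) (P3 := 1045395039) (W3 := 1503240) (N0 := 3) (En := eng) (mo := mog) (C1 := cd0q2) (C2 := cd1q0) (C3 := pd3)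
    rfl k0_pp_203

noncomputable def f_pp_213 : ℕ → ℕ → ℕ → ℕ → Bool := onCell 0 536870912 536870912 536870912 1045395039 1503240
    (rowB 3 eng mog cd0q2 cd1q1 pd3 0 true true true .pnn 2 1 3 (qsf 0 536870912 536870912 536870912 3) ndB0q2 ndB1q1 pcB3 Cut.none Ext.none)

def k0_pp_213 : ∃ t, chk3 f_pp_213 t 1 1 1 = true :=
  ⟨(l 5), by decide +kernel⟩

theorem c_pp_213 : CertB 0 536870912 536870912 536870912 1045395039 1503240 3 eng mog cd0q2 cd1q1 pd3 true true true .pnn 2 1 3
    ndB0q2 ndB1q1 pcB3 Cut.none Ext.none :=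
  certB0 (fam := true) (s1 := true) (s2 := true) (a := 2) (b := 1) (c := 3) (cn := .pnn) (n1 := ndB0q2) (n2 := ndB1q1) (pc := pcB3) (cut := Cut.none) (xt := Ext.none) (P1 := 0) (W1 := 536870912) (P2 := 536870912) (W2 := 536870912) (P3 := 1045395039) (W3 := 1503240) (N0 := 3) (En := eng) (mo := mog) (C1 := cd0q2) (C2 := cd1q1) (C3 := pd3)
    rfl k0_pp_213

noncomputable def f_pm_001 : ℕ → ℕ → ℕ → ℕ → Bool := onCell 0 536870912 0 536870912 1045395039 1503240
    (rowB 3 eng mog cd0q0 cd1q0 pd1 0 true true false .up 0 0 1 (qsf 0 536870912 0 536870912 1) ndB0q0 ndB1q0 pcB1 Cut.none Ext.none)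

def k0_pm_001 : ∃ t, chk3 f_pm_001 t 1 1 1 = true :=
  ⟨(l 3), by decide +kernel⟩

theorem c_pm_001 : CertB 0 536870912 0 536870912 1045395039 1503240 3 eng mog cd0q0 cd1q0 pd1 true true false .up 0 0 1
    ndB0q0 ndB1q0 pcB1 Cut.none Ext.none :=
  certB0 (fam := true) (s1 := true) (s2 := false) (a := 0) (b := 0) (c := 1) (cn := .up) (n1 := ndB0q0) (n2 := ndB1q0) (pc := pcB1) (cut := Cut.none) (xt := Ext.none) (P1 := 0) (W1 := 536870912) (P2 := 0) (W2 := 536870912) (P3 := 1045395039) (W3 := 1503240) (N0 := 3) (En := eng) (mo := mog) (C1 := cd0q0) (C2 := cd1q0) (C3 := pd1)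
    rfl k0_pm_001

noncomputable def f_pm_011 : ℕ → ℕ → ℕ → ℕ → Bool := onCell 0 536870912 536870912 536870912 1045395039 1503240
    (rowB 3 eng mog cd0q0 cd1q1 pd1 1 true true false .pnn 0 1 1 (qsf 0 536870912 536870912 536870912 1) ndB0q0 ndB1q1 pcB1 Cut.none Ext.none)

def k0_pm_011 : ∃ t, chk3 f_pm_011 t 1 1 1 = true :=
  ⟨(l 3), by decide +kernel⟩

theorem c_pm_011 : CertB 0 536870912 536870912 536870912 1045395039 1503240 3 eng mog cd0q0 cd1q1 pd1 true true false .pnn 0 1 1
    ndB0q0 ndB1q1 pcB1 Cut.none Ext.none :=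
  certB1 (fam := true) (s1 := true) (s2 := false) (a := 0) (b := 1) (c := 1) (cn := .pnn) (n1 := ndB0q0) (n2 := ndB1q1) (pc := pcB1) (cut := Cut.none) (xt := Ext.none) (P1 := 0) (W1 := 536870912) (P2 := 536870912) (W2 := 536870912) (P3 := 1045395039) (W3 := 1503240) (N0 := 3) (En := eng) (mo := mog) (C1 := cd0q0) (C2 := cd1q1) (C3 := pd1)
    rfl (fun _ => rfl) k0_pm_011

noncomputable def f_pm_012 : ℕ → ℕ → ℕ → ℕ → Bool := onCell 1073741824 536870912 536870912 536870912 1045395039 1503240
    (rowB 3 eng mog cd0q0 cd1q1 pd2 2 true true false .pnp 0 1 2 (qsf 0 536870912 536870912 536870912 2) ndB0q0 ndB1q1 pcB2 Cut.none Ext.none)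

def k0_pm_012 : ∃ t, chk3 f_pm_012 t 2 2 1 = true :=
  ⟨(a (l 3) (a (b (a (a (b (l 2) (l 3)) (l 2)) (l 2)) (a (a (l 3) (a (b (l 3) (l 3)) (a (b (b (a (l 16440616) (l 16445848)) (l 62444091639)) (l 3)) (b (b (l 16453696) (l 16466048)) (b (l 16483808) (l 16505816)))))) (b (b (a (l 16479800) (l 2)) (a (l 16488952) (l 16525656))) (b (l 16519256) (l 16535848))))) (b (l 2) (b (a (b (l 2) (l 16580536)) (l 2)) (a (b (l 16582048) (l 16588480)) (l 47881724151)))))), by decide +kernel⟩

def k1_pm_012 : ∃ t, chk3 f_pm_012 t 2 3 1 = true :=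
  ⟨(a (a (l 3) (b (l 3) (b (l 3) (a (l 3) (b (l 3) (a (l 3) (a (l 3) (b (a (l 3) (l 239074913431)) (a (a (l 3) (b (l 3) (b (l 233706205079) (a (l 197735850983) (l 16569488))))) (b (l 169281677815) (a (b (l 16569672) (l 16564864)) (l 16561112)))))))))))) (b (a (a (a (l 3) (a (b (l 3) (b (l 3) (l 16604752))) (a (b (l 3) (b (l 16581728) (l 16609560))) (b (l 16544032) (l 16599040))))) (b (b (l 16555880) (l 16578248)) (b (l 16601800) (l 16625240)))) (b (b (l 16535304) (l 16607248)) (b (l 16624136) (l 16555128)))) (a (a (a (b (a (l 3) (b (l 3) (l 16599536))) (a (b (b (l 3) (l 156933655719)) (b (a (l 16557400) (l 16566360)) (a (b (l 16561984) (a (l 16554992) (l 16548904))) (b (l 16549896) (l 16539824))))) (b (b (l 16598912) (l 16551720)) (b (a (l 16554440) (l 16542624)) (a (l 16532824) (l 16521296)))))) (a (b (b (l 16610336) (a (l 16624456) (l 16613240))) (b (a (l 16568344) (l 16557320)) (a (b (l 16531104) (l 16491296)) (b (l 16522408) (l 16508688))))) (a (b (b (l 16635136) (l 16602328)) (b (b (l 16560384) (l 16537320))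 (b (l 16520752) (l 16508512)))) (b (b (a (l 16636984) (l 16637000)) (a (l 16596296) (l 16595072))) (b (a (l 16548856) (l 16529920)) (a (b (l 16523064) (l 16510232)) (b (l 16524424) (b (l 16514024) (l 16508336))))))))) (b (b (l 16606736) (l 16552328)) (b (a (l 16508256) (l 16486648)) (b (l 16439696) (a (l 16468504) (l 16447832)))))) (b (b (l 16487240) (a (l 16468824) (l 16388888))) (b (a (l 16424904) (l 16345488)) (a (l 16372416) (l 16315456))))))), by decide +kernel⟩

def k2_pm_012 : ∃ t, chk3 f_pm_012 t 3 1 1 = true :=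
  ⟨(b (a (b (l 2) (b (l 2) (a (a (l 16634176) (l 2)) (l 2)))) (l 2)) (b (a (b (a (b (l 16621408) (l 16553912)) (b (l 2) (l 16423640))) (a (b (l 16441256) (l 16411192)) (b (l 16351144) (l 16277344)))) (b (l 2) (a (l 70965983047) (l 2)))) (a (b (a (b (l 16340032) (l 16276664)) (b (l 16204544) (l 16137088))) (a (b (l 16232504) (l 16204736)) (b (l 16088960) (l 16063976)))) (b (a (b (l 16076648) (l 16007008)) (l 15855008)) (a (b (l 15952480) (l 15928336)) (b (l 15824024) (l 15794776))))))), by decide +kernel⟩

theorem s3_pm_012 : ∃ t, chk3 f_pm_012 t 2 1 1 = true := ex3_b k0_pm_012 k1_pm_012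

theorem s4_pm_012 : ∃ t, chk3 f_pm_012 t 1 1 1 = true := ex3_a s3_pm_012 k2_pm_012

theorem c_pm_012 : CertB 0 536870912 536870912 536870912 1045395039 1503240 3 eng mog cd0q0 cd1q1 pd2 true true false .pnp 0 1 2
    ndB0q0 ndB1q1 pcB2 Cut.none Ext.none :=
  certB2 (fam := true) (s1 := true) (s2 := false) (a := 0) (b := 1) (c := 2) (cn := .pnp) (n1 := ndB0q0) (n2 := ndB1q1) (pc := pcB2) (cut := Cut.none) (xt := Ext.none) (P1 := 0) (W1 := 536870912) (P2 := 536870912) (W2 := 536870912) (P3 := 1045395039) (W3 := 1503240) (N0 := 3) (En := eng) (mo := mog) (C1 := cd0q0) (C2 := cd1q1) (C3 := pd2)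
    rfl (fun _ => rfl) s4_pm_012

noncomputable def cut_pm_022_a : Cut := Cut.of [[⟨0, 0, 0, 26843545⟩, ⟨1, 1, 0, 26843545⟩, ⟨2, 1, 0, 26843545⟩]]

noncomputable def f_pm_022_a : ℕ → ℕ → ℕ → ℕ → Bool := onCell 1073741824 536870912 0 536870912 1045395039 1503240
    (rowB 3 eng mog cd0q0 cd1q2a pd2 2 true true false .pp 0 2 2 (qsf 0 536870912 0 536870912 2) ndB0q0 ndB1q2a pcB2 cut_pm_022_a Ext.none)

def k0_pm_022_a : ∃ t, chk3 f_pm_022_a t 8 1 1 = true :=
  ⟨(b (l 1) (b (l 1) (a (b (l 1) (a (b (l 1) (l 6)) (a (b (b (l 1) (b (l 1) (l 6))) (l 6)) (b (b (b (l 1) (l 16521944)) (b (a (l 16541056) (l 16552432)) (a (l 16576304) (l 16586816)))) (b (b (a (l 16613824) (l 16623576)) (a (l 16653584) (l 16662560))) (b (a (l 16674672) (l 16682976)) (a (b (l 16707816) (l 16726784)) (b (l 16714536) (l 16713712))))))))) (b (b (a (l 1) (b (l 1) (l 16531784))) (a (b (l 1) (a (l 16507192) (l 16534104))) (b (l 16511400) (a (l 16564944) (l 16558632))))) (b (a (b (a (b (l 16529800) (l 16547304)) (l 16546232)) (a (b (b (l 16563504) (l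 16579424)) (l 16604944)) (b (l 16579904) (l 16591632)))) (b (a (b (l 16590296) (l 16610064)) (b (l 16626256) (l 16622768))) (a (b (b (l 16626168) (l 16640752)) (l 16619784)) (b (l 16622808) (l 16647520))))) (a (b (a (b (a (l 16634744) (l 16647544)) (a (l 16652328) (l 16663768))) (b (a (l 16660960) (l 16674040)) (l 16659016))) (a (b (a (l 16691872) (l 16700520)) (a (l 16708328) (l 16695176))) (b (b (l 16704048) (l 16694096)) (l 16676400)))) (b (a (b (l 16650120) (l 16690040)) (l 16645032)) (b (l 16623816) (a (l 16670616) (l 16643272)))))))))), by decide +kernel⟩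

def k1_pm_022_a : ∃ t, chk3 f_pm_022_a t 9 1 1 = true :=
  ⟨(b (b (l 1) (a (l 1) (b (l 1) (a (l 1) (l 16425888))))) (b (b (a (l 1) (a (b (l 16517224) (l 16420568)) (b (l 16425112) (a (l 16392528) (l 16341936))))) (a (b (a (l 1) (a (l 16560152) (l 16513720))) (a (l 16547288) (b (l 16547024) (l 16496600)))) (b (a (b (l 16430120) (l 16426816)) (b (a (l 16351560) (l 16300080)) (l 16322384))) (a (b (a (l 16491504) (l 16439184)) (a (l 16504904) (l 16453664))) (b (l 16278544) (l 16385792)))))) (b (a (b (a (b (l 16563144) (a (l 16583288) (l 16623464))) (b (l 16505592) (a (l 16618008) (l 16569400)))) (a (b (a (l 16587288) (l 16625648)) (a (l 16573800) (l 16660440))) (b (a (l 16618168) (l 16573072)) (l 16599792)))) (b (a (b (a (l 16514456) (l 16469728)) (a (l 16523216) (l 16483768))) (l 16414920)) (a (b (l 16515480) (l 16524064)) (l 16383648)))) (a (b (a (b (a (l 16626472) (l 16656808)) (b (a (l 16666520) (l 16629696)) (l 16615544))) (b (l 16579656) (b (b (l 16579296) (l 16596800)) (l 16568912)))) (a (b (a (l 16633088) (l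 16600696)) (a (b (l 16631448) (l 16615480)) (l 16552624))) (b (a (l 16589904) (l 16558712)) (a (l 16544296) (l 16535608))))) (b (b (a (l 16530304) (l 16464136)) (a (b (b (l 16533016) (l 16531504)) (l 16525928)) (b (b (l 16469200) (l 16469288)) (l 16463896)))) (a (b (a (l 16527640) (l 16496696)) (a (l 16505536) (l 16474960))) (b (a (l 16465728) (l 16434608)) (a (l 16443528) (l 16411816))))))))), by decide +kernel⟩

def k2_pm_022_a : ∃ t, chk3 f_pm_022_a t 5 1 1 = true :=
  ⟨(b (a (b (a (a (l 1) (l 16293424)) (a (b (l 16253416) (l 16239296)) (b (l 16113296) (l 16112120)))) (a (b (l 16222608) (a (b (l 16405024) (l 16346408)) (b (l 16293696) (l 16260464)))) (b (a (l 16088024) (b (l 16101528) (l 16094176))) (a (b (l 16184696) (l 16111424)) (l 16073712))))) (b (b (a (l 15919448) (l 15688632)) (a (l 15936616) (l 15727632))) (a (b (l 15944720) (b (l 15942768) (l 15936616))) (b (l 15758160) (l 15711816))))) (b (a (a (b (a (b (a (l 16348264) (l 16296288)) (a (l 16292216) (l 16242592))) (b (a (l 16246160) (l 16194072)) (l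 16177408))) (b (b (a (b (l 16229240) (l 16225384)) (l 16144528)) (l 16179880)) (a (l 16287440) (l 16205056)))) (b (b (l 16086048) (l 16034472)) (b (b (l 16008272) (a (l 16072824) (l 15993784))) (a (l 16126976) (l 16050504))))) (b (a (b (l 15925016) (l 15906464)) (b (l 15775240) (l 15767984))) (a (b (b (l 15888536) (a (l 15919264) (l 15848888))) (a (l 15976448) (l 15903832))) (b (a (l 15787856) (l 15724584)) (l 15801280))))) (b (a (a (b (a (l 16336704) (l 16262712)) (a (l 16377304) (l 16309136))) (b (a (l 16190096) (l 16119840)) (a (l 16243048) (l 16178688)))) (a (b (l 16017344) (l 16085176)) (b (l 15890624) (l 15970824)))) (b (a (a (b (a (l 16399928) (l 16336424)) (a (a (b (l 16423824) (l 16417928)) (l 16368056)) (a (b (l 16362736) (l 16356752)) (a (l 16335976) (a (l 16324864) (a (a (a (l 16320232) (l 16320016)) (l 16317768)) (l 16315040))))))) (b (l 16243808) (b (l 16258584) (l 16255264)))) (a (b (l 16128920) (l 16150616)) (b (l 16024024) (l 16054264)))) (a (a (a (a (b (l 16403080) (l 16379576)) (l 16359752)) (a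 (l 16326840) (a (l 16301976) (a (l 16288568) (l 16279544))))) (l 16201848)) (a (l 16124600) (l 16035752))))))), by decide +kernel⟩

def k3_pm_022_a : ∃ t, chk3 f_pm_022_a t 3 1 1 = true :=
  ⟨(b (a (a (b (a (b (l 15477864) (l 15535792)) (b (l 15284272) (l 15359696))) (a (b (l 15585296) (l 15622560)) (b (l 15427216) (l 15482448)))) (b (b (a (l 15111816) (l 14960984)) (a (l 15203160) (l 15066368))) (b (a (l 15287296) (l 15165272)) (a (l 15359912) (l 15253416))))) (b (a (b (a (l 14831968) (l 14724920)) (l 14899160)) (b (l 14606384) (l 14745568))) (a (b (l 15016664) (l 15124576)) (b (l 14880720) (l 14944792))))) (b (a (b (a (a (l 15638672) (l 15520104)) (a (l 15415792) (l 15325672))) (a (b (a (l 15637232) (l 15533264)) (a (l 15673640) (l 15564632))) (b (l 15403648) (a (l 15473304) (l 15398104))))) (b (a (l 15217808) (a (l 15139488) (l 15105048))) (a (a (l 15326840) (l 15273728)) (a (l 15209856) (l 15202952))))) (a (b (a (a (b (l 15775584) (l 15867008)) (l 15724168)) (a (l 15636448) (l 15559240))) (a (b (a (l 15951424)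 (l 15868416)) (l 15898824)) (b (a (l 15793448) (l 15726056)) (a (l 15820296) (l 15762312))))) (b (a (a (l 15492320) (b (l 15369952) (l 15497088))) (b (a (l 15318816) (b (l 15259208) (l 15317496))) (a (l 15451056) (l 15413712)))) (a (b (a (l 15665160) (l 15614008)) (a (l 15710392) (l 15664728))) (b (a (l 15569896) (l 15532464)) (a (l 15624744) (l 15589864)))))))), by decide +kernel⟩

theorem s4_pm_022_a : ∃ t, chk3 f_pm_022_a t 4 1 1 = true := ex3_a k0_pm_022_a k1_pm_022_a

theorem s5_pm_022_a : ∃ t, chk3 f_pm_022_a t 2 1 1 = true := ex3_a s4_pm_022_a k2_pm_022_a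

theorem s6_pm_022_a : ∃ t, chk3 f_pm_022_a t 1 1 1 = true := ex3_a s5_pm_022_a k3_pm_022_a

theorem c_pm_022_a : CertB 0 536870912 0 536870912 1045395039 1503240 3 eng mog cd0q0 cd1q2a pd2 true true false .pp 0 2 2
    ndB0q0 ndB1q2a pcB2 cut_pm_022_a Ext.none :=
  certB2 (fam := true) (s1 := true) (s2 := false) (a := 0) (b := 2) (c := 2) (cn := .pp) (n1 := ndB0q0) (n2 := ndB1q2a) (pc := pcB2) (cut := cut_pm_022_a) (xt := Ext.none) (P1 := 0) (W1 := 536870912) (P2 := 0) (W2 := 536870912) (P3 := 1045395039) (W3 := 1503240) (N0 := 3) (En := eng) (mo := mog) (C1 := cd0q0) (C2 := cd1q2a) (C3 := pd2)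
    rfl (fun _ => rfl) s6_pm_022_a

noncomputable def cut_pm_022_b : Cut := Cut.of [[⟨0, 0, 0, 26843545⟩, ⟨1, 1, 0, 26843545⟩, ⟨2, 1, 0, 26843545⟩]]

noncomputable def f_pm_022_b : ℕ → ℕ → ℕ → ℕ → Bool := onCell 0 536870912 1073741824 536870912 1045395039 1503240
    (rowB 3 eng mog cd0q0 cd1q2b pd2 1 true true false .pp 0 2 2 (qsf 0 536870912 1239849684 370763052 2) ndB0q0 ndB1q2b pcB2 cut_pm_022_b Ext.none)

def k0_pm_022_b : ∃ t, chk3 f_pm_022_b t 1 1 1 = true :=
  ⟨(a (a (b (b (l 1) (a (a (b (b (a (l 16428584) (l 1)) (a (l 16196456) (l 16174400))) (a (l 15832568) (l 15713720))) (b (b (l 1) (l 291016003255)) (b (l 15910168) (l 15686768)))) (b (l 1) (a (b (l 248602719271) (l 15668296)) (b (l 1) (l 184178165255)))))) (a (b (a (b (a (l 15374680) (l 15371664)) (a (l 14947784) (l 14955896))) (b (b (l 15471256) (l 15263512)) (l 14966424))) (a (b (l 14564688) (l 14215568)) (b (l 14600136) (l 14272776)))) (b (b (a (b (l 15462136) (l 15263824)) (b (l 15448000) (l 15259048))) (a (l 14980976) (l 15032240))) (b (a (l 14633672)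 (l 14661736)) (a (l 14325096) (l 14371616)))))) (b (l 1) (b (a (b (b (a (l 155186639047) (l 1)) (a (l 15245656) (l 15226760))) (a (l 15075424) (b (l 15065208) (l 14911784)))) (b (l 1) (b (l 197061748679) (l 148743044439)))) (b (a (a (l 14682376) (l 14697344)) (a (l 14707160) (l 130489118871))) (a (l 14429248) (a (l 14473648) (l 14496992))))))) (b (l 1) (b (l 1) (a (a (b (a (l 191692383159) (l 267391153015)) (a (l 14494512) (l 197060652871))) (b (l 1) (b (l 413956650775) (a (l 14505144) (l 419325390263))))) (l 1))))), by decide +kernel⟩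

theorem c_pm_022_b : CertB 0 536870912 1239849684 370763052 1045395039 1503240 3 eng mog cd0q0 cd1q2b pd2 true true false .pp 0 2 2
    ndB0q0 ndB1q2b pcB2 cut_pm_022_b Ext.none :=
  certB1 (fam := true) (s1 := true) (s2 := false) (a := 0) (b := 2) (c := 2) (cn := .pp) (n1 := ndB0q0) (n2 := ndB1q2b) (pc := pcB2) (cut := cut_pm_022_b) (xt := Ext.none) (P1 := 0) (W1 := 536870912) (P2 := 1239849684) (W2 := 370763052) (P3 := 1045395039) (W3 := 1503240) (N0 := 3) (En := eng) (mo := mog) (C1 := cd0q0) (C2 := cd1q2b) (C3 := pd2)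
    rfl (fun _ => rfl) k0_pm_022_b

noncomputable def f_pm_023_a : ℕ → ℕ → ℕ → ℕ → Bool := onCell 0 536870912 0 536870912 1045395039 1503240
    (rowB 3 eng mog cd0q0 cd1q2a pd3 0 true true false .up 0 2 3 (qsf 0 536870912 0 536870912 3) ndB0q0 ndB1q2a pcB3 Cut.none Ext.none)

def k0_pm_023_a : ∃ t, chk3 f_pm_023_a t 1 1 1 = true :=
  ⟨(a (l 1) (a (b (a (l 1) (b (l 16562224) (l 16485512))) (b (l 1) (l 1))) (b (a (b (l 16517920) (l 16388384)) (b (b (a (l 16545896) (l 16562824)) (l 16488616)) (l 16375448))) (b (a (b (l 16313560) (l 16238720)) (b (l 16245080) (l 16144152))) (b (a (l 16150432) (l 16014376)) (a (l 1) (b (l 15943160) (b (a (l 1) (b (l 15876880) (l 15910912))) (l 15856480))))))))), by decide +kernel⟩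

theorem c_pm_023_a : CertB 0 536870912 0 536870912 1045395039 1503240 3 eng mog cd0q0 cd1q2a pd3 true true false .up 0 2 3
    ndB0q0 ndB1q2a pcB3 Cut.none Ext.none :=
  certB0 (fam := true) (s1 := true) (s2 := false) (a := 0) (b := 2) (c := 3) (cn := .up) (n1 := ndB0q0) (n2 := ndB1q2a) (pc := pcB3) (cut := Cut.none) (xt := Ext.none) (P1 := 0) (W1 := 536870912) (P2 := 0) (W2 := 536870912) (P3 := 1045395039) (W3 := 1503240) (N0 := 3) (En := eng) (mo := mog) (C1 := cd0q0) (C2 := cd1q2a) (C3 := pd3)
    rfl k0_pm_023_a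

noncomputable def f_pm_023_b : ℕ → ℕ → ℕ → ℕ → Bool := onCell 0 536870912 1610612736 536870912 1045395039 1503240
    (rowB 3 eng mog cd0q0 cd1q2b pd3 1 true true false .up 0 2 3 (qsf 0 536870912 1239849684 370763052 3) ndB0q0 ndB1q2b pcB3 Cut.none Ext.none)

def k0_pm_023_b : ∃ t, chk3 f_pm_023_b t 1 1 1 = true :=
  ⟨(a (b (a (a (b (b (a (l 15154864) (l 15345696)) (a (l 2) (l 15256184))) (l 2)) (b (b (l 15581160) (l 15489848)) (b (l 15387408) (l 2)))) (b (b (a (l 15867576) (l 16120104)) (a (l 15774384) (l 16025456))) (b (a (l 15671024) (l 15922312)) (b (l 15729296) (l 15685656))))) (l 4)) (b (b (a (b (a (l 16339848) (l 16526176)) (a (l 16243128) (l 16430000))) (a (b (l 410739350535) (l 16525608)) (b (l 1) (b (l 282426963351) (l 231961186887))))) (a (b (a (l 16139144) (l 16324656)) (a (l 16044824) (l 16230184))) (b (a (l 16431552) (b (a (l 16610264) (l 16596120)) (l 16589928))) (a (l 16387264) (b (l 16542232) (l 16500496)))))) (b (b (a (b (l 16080928) (l 4)) (b (l 16191440) (l 16304280))) (l 4)) (l 4)))), by decide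 +kernel⟩

theorem c_pm_023_b : CertB 0 536870912 1239849684 370763052 1045395039 1503240 3 eng mog cd0q0 cd1q2b pd3 true true false .up 0 2 3
    ndB0q0 ndB1q2b pcB3 Cut.none Ext.none :=
  certB1 (fam := true) (s1 := true) (s2 := false) (a := 0) (b := 2) (c := 3) (cn := .up) (n1 := ndB0q0) (n2 := ndB1q2b) (pc := pcB3) (cut := Cut.none) (xt := Ext.none) (P1 := 0) (W1 := 536870912) (P2 := 1239849684) (W2 := 370763052) (P3 := 1045395039) (W3 := 1503240) (N0 := 3) (En := eng) (mo := mog) (C1 := cd0q0) (C2 := cd1q2b) (C3 := pd3)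
    rfl (fun _ => rfl) k0_pm_023_b

noncomputable def f_pm_033 : ℕ → ℕ → ℕ → ℕ → Bool := onCell 0 536870912 1610612736 536870912 1045395039 1503240
    (rowB 3 eng mog cd0q0 cd1q3 pd3 1 true true false .pnn 0 3 3 (qsf 0 536870912 1610612736 536870912 3) ndB0q0 ndB1q3 pcB3 Cut.none Ext.none)

def k0_pm_033 : ∃ t, chk3 f_pm_033 t 1 1 1 = true :=
  ⟨(a (b (a (a (b (b (a (l 15434968) (l 15592408)) (a (l 15320832) (l 15481336))) (b (a (l 15181248) (l 15344992)) (a (l 15040152) (l 15207296)))) (b (b (l 15778168) (l 15670432)) (b (l 15538048) (l 15404272)))) (b (b (l 1) (a (l 15898200) (l 1))) (b (a (l 15769840) (l 15973912)) (a (l 15639992) (l 15846600))))) (l 4)) (b (b (l 1) (a (b (l 1) (l 332354959735)) (l 1))) (b (b (a (a (l 4) (l 16065312)) (l 1)) (l 4)) (l 4)))), by decide +kernel⟩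

theorem c_pm_033 : CertB 0 536870912 1610612736 536870912 1045395039 1503240 3 eng mog cd0q0 cd1q3 pd3 true true false .pnn 0 3 3
    ndB0q0 ndB1q3 pcB3 Cut.none Ext.none :=
  certB1 (fam := true) (s1 := true) (s2 := false) (a := 0) (b := 3) (c := 3) (cn := .pnn) (n1 := ndB0q0) (n2 := ndB1q3) (pc := pcB3) (cut := Cut.none) (xt := Ext.none) (P1 := 0) (W1 := 536870912) (P2 := 1610612736) (W2 := 536870912) (P3 := 1045395039) (W3 := 1503240) (N0 := 3) (En := eng) (mo := mog) (C1 := cd0q0) (C2 := cd1q3) (C3 := pd3)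
    rfl (fun _ => rfl) k0_pm_033

noncomputable def cut_pm_101 : Cut := Cut.of [[⟨0, 1, 0, 26843545⟩, ⟨1, 0, 0, 26843545⟩, ⟨2, 1, 0, 26843545⟩]]

noncomputable def f_pm_101 : ℕ → ℕ → ℕ → ℕ → Bool := onCell 536870912 536870912 0 536870912 1045395039 1503240
    (rowB 3 eng mog cd0q1 cd1q0 pd1 2 true true false .npn 1 0 1 (qsf 536870912 536870912 0 536870912 1) ndB0q1 ndB1q0 pcB1 cut_pm_101 Ext.none)

def k0_pm_101 : ∃ t, chk3 f_pm_101 t 1 1 1 = true :=
  ⟨(a (l 3) (b (a (l 3) (b (a (l 3) (b (a (l 3) (b (a (l 3) (b (a (l 3) (l 6)) (l 3))) (l 3))) (l 3))) (l 3))) (l 3))), by decide +kernel⟩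

theorem c_pm_101 : CertB 536870912 536870912 0 536870912 1045395039 1503240 3 eng mog cd0q1 cd1q0 pd1 true true false .npn 1 0 1
    ndB0q1 ndB1q0 pcB1 cut_pm_101 Ext.none :=
  certB2 (fam := true) (s1 := true) (s2 := false) (a := 1) (b := 0) (c := 1) (cn := .npn) (n1 := ndB0q1) (n2 := ndB1q0) (pc := pcB1) (cut := cut_pm_101) (xt := Ext.none) (P1 := 536870912) (W1 := 536870912) (P2 := 0) (W2 := 536870912) (P3 := 1045395039) (W3 := 1503240) (N0 := 3) (En := eng) (mo := mog) (C1 := cd0q1) (C2 := cd1q0) (C3 := pd1)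
    rfl (fun _ => rfl) k0_pm_101

end Pool.Agent.Strip051.G.I9736_9750.Tab.C.BA01

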