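import Pool.Agent.Strip051.G.I9736_9750.Tab
import Pool.Agent.Strip051.PB.ExtD3

/-! # Certificates B3 (generated) -/

set_option linter.all false
set_option maxRecDepth 100000

namespace Pool.Agent.Strip051.G.I9736_9750.Tab.C.BA01

open Pool.Agent.Strip051.PB Pool.Agent.Strip051.PB.T
open Pool.Agent.Strip051.G.I9736_9750.Tab

noncomputable def cut_pm_102 : Cut := Cut.of [[⟨0, 1, 0, 26843545⟩, ⟨1, 0, 0, 26843545⟩, ⟨2, 1, 0, 26843545⟩]]

noncomputable def xt_pm_102 : Ext := extD3 3 ⟨4, 1, 1, 5, 33, 5, 163, 200, 81, 200, 1, 64⟩ eng cd0q1 cd1q0 pd2 true true false .npp 1 0 2 rfl ndB0q1 ndB1q0 pcB2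

noncomputable def f_pm_102 : ℕ → ℕ → ℕ → ℕ → Bool := onCell 536870912 536870912 1073741824 536870912 1045395039 1503240
    (rowB 3 eng mog cd0q1 cd1q0 pd2 1 true true false .npp 1 0 2 (qsf 536870912 536870912 0 536870912 2) ndB0q1 ndB1q0 pcB2 cut_pm_102 xt_pm_102)

def k0_pm_102 : ∃ t, chk3 f_pm_102 t 2 4 1 = true :=
  ⟨(b (l 3) (a (l 3) (b (l 3) (b (a (l 3) (a (l 3) (b (l 3) (a (l 3) (l 188609031991))))) (a (b (l 3) (a (l 3) (a (l 3) (l 110762771175)))) (a (b (a (l 3) (l 135995747127)) (a (l 78013636183) (l 16579064))) (b (a (l 79624298711) (l 16589192)) (a (l 16576080) (l 16573776))))))))), by decide +kernel⟩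

def k1_pm_102 : ∃ t, chk3 f_pm_102 t 2 5 1 = true :=
  ⟨(b (b (b (b (a (l 3) (a (a (a (l 66739372343) (l 47412003127)) (a (l 31305861431) (l 16573760))) (a (a (l 16568536) (l 16564232)) (a (l 16560896) (l 16559008))))) (a (l 2) (a (a (b (l 29158370535) (l 16576152)) (a (l 16566888) (l 16560064))) (a (a (l 16554480) (b (l 16553200) (l 16546864))) (a (l 16547984) (l 16548256)))))) (a (l 2) (a (a (b (b (l 16570192) (l 16564416)) (a (l 2) (b (l 16554936) (b (l 16532008) (b (b (a (l 2) (b (l 16550576) (l 16529840))) (l 16552544)) (l 16551432)))))) (b (b (a (l 16557208) (l 16550216)) (a (l 16551424) (l 16545152))) (b (b (l 16545112) (l 16543568)) (b (a (l 16524688) (l 16518936)) (a (b (b (b (l 16545224) (a (l 16526208) (l 16533456))) (l 16545272)) (l 16544104)) (b (b (b (l 16539464) (a (l 16530584) (l 16530704))) (l 16539528)) (l 16538304))))))) (b (a (b (l 16543432) (l 16539544)) (a (l 16539512) (l 16539560))) (b (a (b (l 16536736) (l 16514080)) (l 16512000)) (b (a (a (l 16514648) (l 16511720))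 (a (l 16531024) (l 16530488))) (a (a (b (b (b (l 16535144) (a (l 16525928) (l 16513624))) (l 16535192)) (l 16533920)) (b (b (b (l 16532168) (a (l 16512128) (l 16510952))) (l 16532184)) (l 16530856))) (a (b (b (b (l 16530416) (l 16509688)) (l 16530376)) (l 16529008)) (a (l 16507712) (l 16507608)))))))))) (a (l 2) (a (a (b (a (l 2) (l 16539056)) (l 2)) (b (a (l 16531056) (l 16524616)) (l 16503352))) (a (b (a (l 16519640) (l 16516032)) (l 16491048)) (b (a (l 16513680) (l 16512456)) (l 16484336)))))) (a (l 2) (a (a (l 2) (b (l 16469720) (l 2))) (a (b (l 16453768) (l 16408888)) (b (l 16443952) (l 16394592)))))), by decide +kernel⟩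

def k2_pm_102 : ∃ t, chk3 f_pm_102 t 2 3 1 = true :=
  ⟨(a (l 2) (b (a (l 2) (b (a (l 2) (l 16330672)) (l 2))) (l 2))), by decide +kernel⟩

def k3_pm_102 : ∃ t, chk3 f_pm_102 t 6 8 1 = true :=
  ⟨(a (l 3) (l 3)), by decide +kernel⟩

def k4_pm_102 : ∃ t, chk3 f_pm_102 t 14 8 1 = true :=
  ⟨(b (l 3) (a (b (l 3) (a (b (l 3) (b (a (l 3) (l 266455001351)) (a (l 237464004583) (l 16493192)))) (b (b (a (l 3) (l 352354399143)) (a (l 294372255863) (l 16477744))) (a (l 16505584) (l 16522280))))) (b (a (b (l 3) (b (a (l 3) (a (l 3) (l 374902905191))) (a (l 375976702119) (l 16469408)))) (b (a (b (l 3) (a (l 3) (l 371681683447))) (b (b (l 3) (l 289540437623)) (a (l 16456880) (l 16489624)))) (b (a (l 16469304) (l 16530960)) (a (l 16523376) (l 16545768))))) (a (b (a (b (l 16472392) (l 16519496)) (b (l 16519832) (l 16568528))) (a (b (l 16564624) (l 16608464)) (b (l 16615944) (l 16664008)))) (b (a (b (l 16575896) (l 16627296)) (b (l 16643576) (l 16698128))) (l 16718664)))))), by decide +kernel⟩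

def k5_pm_102 : ∃ t, chk3 f_pm_102 t 30 16 1 = true :=
  ⟨(b (l 3) (b (a (l 3) (a (b (l 3) (a (l 3) (b (l 3) (b (l 84455864487) (l 16499216))))) (b (b (l 3) (a (l 3) (b (a (l 3) (l 38821977655)) (l 999167041319946744957884975)))) (b (a (b (l 116668203687) (l 593045816377602961971759)) (l 2827064209031069740412475951)) (a (l 2382178291080698843871107631) (l 16604560)))))) (a (b (a (l 3) (b (l 3) (a (l 3) (l 16464840)))) (a (b (l 3) (a (l 3) (l 16450904))) (b (a (l 16456824) (l 16500352)) (l 16512336)))) (b (a (b (a (l 108078172135) (l 96267117415)) (a (l 16511944) (l 16562264))) (b (a (l 16581224) (l 16641768)) (a (l 16617808) (l 16680616)))) (a (a (b (l 16546864) (l 16581288)) (b (l 16597832) (l 16634136))) (a (l 16674840) (l 16738544))))))), by decide +kernel⟩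

def k6_pm_102 : ∃ t, chk3 f_pm_102 t 62 32 1 = true :=
  ⟨(b (l 3) (a (a (l 3) (b (l 3) (b (b (l 3) (a (l 3) (l 7217884445501908784625571887))) (b (a (l 3) (b (a (l 3) (l 598080048127468984457263)) (l 2179082246161139349123471407))) (a (b (l 3001150101786946388152539183) (l 1772882127664892653326653487)) (l 598345508303904721459247)))))) (b (a (b (l 3) (a (l 3) (b (l 3) (b (l 3) (a (l 3) (a (l 445233575095) (b (l 7749815615384996842694466607) (l 126332287207)))))))) (b (a (l 3) (b (l 3) (a (b (l 3) (l 480667219015)) (b (a (l 3) (b (l 3) (a (l 3) (b (l 3) (a (l 477446012103) (l 221358586823)))))) (a (b (a (l 3) (b (l 3) (l 453286821015))) (a (b (l 465097981047) (l 149417872743)) (l 188609457719))) (b (a (b (a (l 487646559399) (l 202031233927)) (l 16776864)) (l 16776960)) (l 16777152))))))) (a (b (a (l 3) (b (l 3) (b (a (l 3) (a (b (l 3) (l 178408857735)) (b (l 168745194151) (l 16742264)))) (a (a (l 461339783335) (b (l 168745170055) (l 142438492471))) (l 196125595607))))) (b (a (b (a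 (l 3) (b (l 466708475207) (l 3494397685248738338409520175))) (a (b (l 3) (l 183240625959)) (l 161228940151))) (b (l 3658811605651469566894349359) (l 16730056))) (l 3591111691154220808962497583))) (b (a (b (b (a (l 3) (a (b (l 484962180519) (l 117742474199)) (l 167134610727))) (a (a (b (l 3) (l 179482616983)) (l 145122891639)) (l 16762184))) (b (l 219747940935) (l 16751680))) (b (a (l 16772840) (l 16777640)) (l 16769440))) (a (l 16746488) (l 16761496)))))) (a (b (a (b (b (l 3) (a (l 3) (b (l 3) (l 3146224338969498181404498991)))) (b (a (l 7227557064067557536027547695) (l 2314483390639073621405015087)) (l 2614296743431304780865443887))) (b (b (a (b (l 3) (a (l 3) (l 109689250391))) (l 2972140724098284260791000111)) (l 3078525481413038771885857839)) (l 600661151145907683679279))) (a (b (l 599433577973877485017135) (l 16668704)) (l 601182848126742306659375))) (b (a (b (l 602035433579399110859823) (l 16721192)) (b (l 602302046677339508579375) (l 16751136))) (a (l 16732040) (l 16760496))))))),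 by decide +kernel⟩

def k7_pm_102 : ∃ t, chk3 f_pm_102 t 63 32 1 = true :=
  ⟨(b (l 6) (a (b (a (b (a (b (l 6) (a (b (l 6) (l 16777600)) (l 6))) (l 6)) (a (b (a (l 16778728) (l 16758520)) (l 16757904)) (b (l 6) (l 16777896)))) (l 6)) (a (b (l 16776576) (l 16773720)) (b (l 143601750454124655) (l 16770392)))) (l 6))), by decide +kernel⟩

def k8_pm_102 : ∃ t, chk3 f_pm_102 t 31 33 1 = true :=
  ⟨(a (a (b (b (a (b (b (a (l 3) (l 1956637763600185562811030063)) (l 1589124291378908201544784431)) (b (l 3078521702712807422725462575) (l 16606680))) (b (b (l 3475050988230585627065358383) (l 16642720)) (a (l 16649168) (l 16684496)))) (b (a (l 598698302284314416847407) (l 16702664)) (a (l 16670096) (l 16740720)))) (b (l 16763192) (l 16767944))) (b (b (a (b (a (l 16688408) (l 16723400)) (l 16737864)) (l 600444690133417887194159)) (a (l 16774816) (l 16770968))) (a (b (l 16771216) (l 16765144)) (l 16743064)))) (a (b (b (a (l 600932231298251629588079) (l 16766416)) (l 599267988694721969745519)) (l 16714160))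 (b (a (l 16760728) (l 16733416)) (l 16722088)))), by decide +kernel⟩

def k9_pm_102 : ∃ t, chk3 f_pm_102 t 15 17 1 = true :=
  ⟨(a (b (a (b (b (a (b (l 16464960) (l 16497072)) (a (l 16540464) (l 16584920))) (a (b (l 16528120) (l 16558728)) (l 16502920))) (a (b (l 16541976) (l 16665752)) (l 16725256))) (b (a (b (b (l 16601424) (l 16679632)) (l 16731640)) (l 16760368)) (a (l 16748432) (l 16727432)))) (a (b (l 16734312) (l 16702312)) (b (a (l 16736888) (l 16729104)) (l 16709632)))) (a (a (b (b (b (l 16762376) (l 16754928)) (l 16740032)) (l 16678944)) (b (b (l 16750808) (l 16705816)) (l 16640056))) (a (b (b (l 16712856) (l 16705832)) (l 16614160)) (b (b (l 16715864) (l 16683664)) (l 16607744))))), by decide +kernel⟩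

def k10_pm_102 : ∃ t, chk3 f_pm_102 t 6 9 1 = true :=
  ⟨(b (a (b (l 3) (a (l 3) (b (l 3) (a (b (l 3) (l 255180981623)) (b (a (l 275582050743) (l 189682678007)) (l 93582810407)))))) (b (a (b (l 3) (a (l 3) (b (l 3) (a (l 3) (l 219210551575))))) (b (a (b (l 3) (l 291688048759)) (b (a (l 331416482823) (l 166597076183)) (a (l 118815597495) (l 16512168)))) (a (b (a (l 255717744199) (l 100562017255)) (a (l 16494720) (l 16533008))) (b (l 16533344) (l 16564192))))) (a (b (a (b (a (l 3) (l 260012747623)) (a (l 235853587479) (l 131700602215))) (b (a (b (l 219210567191) (l 16521856)) (l 16528424)) (l 16526608))) (a (b (a (l 16543224) (l 16553456)) (l 16570776)) (l 16542144))) (b (a (b (l 16552360) (l 16579168)) (b (a (l 16581984) (l 16606632)) (a (l 16610560) (l 16638064)))) (a (b (a (l 16595528) (l 16615312)) (l 16632024)) (l 16648232)))))) (a (b (a (b (a (l 3) (l 207399450023)) (a (l 134921942439) (l 16595664))) (b (a (b (l 16539280) (l 16579240)) (l 16562496)) (a (l 16602232) (l 16603664))))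 (a (b (l 16587360) (a (l 16572440) (l 16572640))) (b (a (l 16587920) (l 16590656)) (l 16578000)))) (b (a (b (a (b (l 16592240) (l 16612960)) (b (l 16619104) (l 16619912))) (a (l 16585896) (l 16613992))) (b (l 16593536) (l 16625184))) (a (b (l 16600384) (l 16589744)) (a (l 16605112) (l 16611320)))))), by decide +kernel⟩

def k11_pm_102 : ∃ t, chk3 f_pm_102 t 7 9 1 = true :=
  ⟨(a (b (a (b (b (a (a (l 16520264) (l 16549296)) (a (b (l 16564168) (l 16602112)) (b (l 16604056) (l 16645608)))) (a (b (a (l 16570968) (l 16602136)) (a (l 16603744) (l 16638000))) (l 16681048))) (a (b (l 16665304) (l 16658160)) (l 16670880))) (b (a (b (l 16700080) (l 16693448)) (b (l 16709128) (l 16697384))) (a (b (l 16682544) (l 16669904)) (b (l 16680328) (l 16656128))))) (a (b (a (l 16641504) (b (l 16653592) (l 16639496))) (a (b (l 16623368) (l 16606128)) (b (l 16618896) (l 16587856)))) (b (a (b (l 16651728) (l 16625448)) (l 16605552)) (a (l 16571560) (l 16531880))))) (a (b (b (a (b (l 16685736) (l 16683440))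 (l 16643328)) (a (l 16635472) (l 16594776))) (b (a (l 16564144) (l 16519096)) (l 16380096))) (b (a (a (l 141833941512290351) (b (l 16611352) (l 16533368))) (a (l 141454953437511791) (b (l 16547680) (l 16462200)))) (a (a (l 16334640) (b (l 16451792) (l 16369064))) (a (b (l 16414656) (l 16330456)) (b (l 16373840) (l 16287128))))))), by decide +kernel⟩

def k12_pm_102 : ∃ t, chk3 f_pm_102 t 6 5 1 = true :=
  ⟨(b (b (b (a (a (b (a (l 16559040) (l 16562104)) (l 16550920)) (b (l 16568224) (l 16557768))) (a (b (l 16578496) (l 16566880)) (b (a (l 16587016) (l 16590160)) (a (l 16572800) (l 16566064))))) (a (b (a (l 16541456) (l 16547144)) (b (a (l 16513400) (l 16539072)) (b (a (l 16510376) (a (l 16534304) (l 16534800))) (a (a (l 16507856) (l 16508888)) (b (b (a (b (l 16533128) (l 16511576)) (b (l 16531400) (l 16527064))) (l 16527960)) (l 16526424)))))) (b (a (a (l 16553112) (l 16554264)) (a (l 16547416) (l 16526064))) (b (a (a (l 16541584) (l 16533992)) (l 16502416)) (b (a (a (l 16528360) (l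 16511296)) (l 16479392)) (a (l 16503600) (l 16463008))))))) (a (a (a (l 16497288) (l 16497616)) (a (l 16498112) (l 16488032))) (a (l 16418624) (a (l 16427552) (l 16401648))))) (a (a (b (l 16439440) (l 16386432)) (a (b (l 16438448) (l 16383384)) (l 16397032))) (a (b (l 16392088) (l 16329408)) (b (l 16336224) (l 16263976))))), by decide +kernel⟩

def k13_pm_102 : ∃ t, chk3 f_pm_102 t 7 5 1 = true :=
  ⟨(a (b (b (b (a (b (l 16565448) (l 16526080)) (a (l 16494120) (l 16453080))) (b (a (l 16483464) (l 16410136)) (a (b (l 16448080) (b (l 16425848) (l 16410168))) (b (l 16375664) (b (l 16354976) (a (l 16361160) (l 16322496))))))) (a (a (l 16372344) (l 16339280)) (a (l 16302040) (l 16259856)))) (a (b (l 16265520) (l 16181704)) (b (l 16175328) (l 16077880)))) (a (b (b (b (l 16299512) (b (l 16321480) (b (l 16288848) (b (l 16270560) (l 16258056))))) (l 16189848)) (b (l 16069264) (l 15955944))) (a (b (b (b (a (l 16317328) (l 16286800)) (b (l 16202200) (b (l 16213592) (b (l 16197744) (a (l 16198056)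 (l 16170752)))))) (a (l 16124568) (l 16092208))) (a (l 15880288) (b (l 15949672) (l 15801208)))) (a (b (b (b (l 16246656) (b (l 16185688) (b (l 16156072) (b (l 16141552) (l 16132640))))) (l 16044864)) (l 15796432)) (b (b (b (l 16200952) (l 16108496)) (l 15973256)) (l 15711432)))))), by decide +kernel⟩

def k14_pm_102 : ∃ t, chk3 f_pm_102 t 3 3 1 = true :=
  ⟨(a (b (a (b (a (l 16316184) (a (l 16309352) (l 16294744))) (a (l 2) (l 48417722055))) (b (a (l 16247216) (l 16168640)) (a (l 16159240) (l 16065952)))) (a (l 2) (b (a (l 2) (l 15992720)) (l 2)))) (a (b (b (a (l 16070080) (l 15946720)) (a (l 15948144) (l 15800976))) (a (b (l 15859464) (l 2)) (b (l 15691992) (l 15621752)))) (a (b (b (a (l 15840376) (l 15647544)) (a (l 15671664) (b (l 15607272) (l 15514568)))) (b (a (l 15535472) (l 15383016)) (a (a (l 15480480) (l 15397608)) (l 15247800)))) (b (b (a (a (l 15668704) (l 15584288)) (l 15270480)) (a (l 15381304) (l 15161896))) (b (a (l 15178456) (l 14935584)) (a (l 15029576) (b (l 14799944)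 (l 14741688)))))))), by decide +kernel⟩

theorem s15_pm_102 : ∃ t, chk3 f_pm_102 t 3 5 1 = true := ex3_a k12_pm_102 k13_pm_102

theorem s16_pm_102 : ∃ t, chk3 f_pm_102 t 3 9 1 = true := ex3_a k10_pm_102 k11_pm_102

theorem s17_pm_102 : ∃ t, chk3 f_pm_102 t 31 32 1 = true := ex3_a k6_pm_102 k7_pm_102

theorem s18_pm_102 : ∃ t, chk3 f_pm_102 t 31 16 1 = true := ex3_b s17_pm_102 k8_pm_102

theorem s19_pm_102 : ∃ t, chk3 f_pm_102 t 15 16 1 = true := ex3_a k5_pm_102 s18_pm_102

theorem s20_pm_102 : ∃ t, chk3 f_pm_102 t 15 8 1 = true := ex3_b s19_pm_102 k9_pm_102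

theorem s21_pm_102 : ∃ t, chk3 f_pm_102 t 7 8 1 = true := ex3_a k4_pm_102 s20_pm_102

theorem s22_pm_102 : ∃ t, chk3 f_pm_102 t 3 8 1 = true := ex3_a k3_pm_102 s21_pm_102

theorem s23_pm_102 : ∃ t, chk3 f_pm_102 t 3 4 1 = true := ex3_b s22_pm_102 s16_pm_102

theorem s24_pm_102 : ∃ t, chk3 f_pm_102 t 3 2 1 = true := ex3_b s23_pm_102 s15_pm_102

theorem s25_pm_102 : ∃ t, chk3 f_pm_102 t 3 1 1 = true := ex3_b s24_pm_102 k14_pm_102

theorem s26_pm_102 : ∃ t, chk3 f_pm_102 t 2 2 1 = true := ex3_b k0_pm_102 k1_pm_102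

theorem s27_pm_102 : ∃ t, chk3 f_pm_102 t 2 1 1 = true := ex3_b s26_pm_102 k2_pm_102

theorem s28_pm_102 : ∃ t, chk3 f_pm_102 t 1 1 1 = true := ex3_a s27_pm_102 s25_pm_102

theorem c_pm_102 : CertB 536870912 536870912 0 536870912 1045395039 1503240 3 eng mog cd0q1 cd1q0 pd2 true true false .npp 1 0 2
    ndB0q1 ndB1q0 pcB2 cut_pm_102 xt_pm_102 :=
  certB1 (fam := true) (s1 := true) (s2 := false) (a := 1) (b := 0) (c := 2) (cn := .npp) (n1 := ndB0q1) (n2 := ndB1q0) (pc := pcB2) (cut := cut_pm_102) (xt := xt_pm_102) (P1 := 536870912) (W1 := 536870912) (P2 := 0) (W2 := 536870912) (P3 := 1045395039) (W3 := 1503240) (N0 := 3) (En := eng) (mo := mog) (C1 := cd0q1) (C2 := cd1q0) (C3 := pd2)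
    rfl (fun _ => rfl) s28_pm_102

noncomputable def f_pm_112 : ℕ → ℕ → ℕ → ℕ → Bool := onCell 536870912 536870912 1073741824 536870912 1045395039 1503240
    (rowB 3 eng mog cd0q1 cd1q1 pd2 1 true true false .dn 1 1 2 (qsf 536870912 536870912 536870912 536870912 2) ndB0q1 ndB1q1 pcB2 Cut.none Ext.none)

def k0_pm_112 : ∃ t, chk3 f_pm_112 t 4 1 1 = true :=
  ⟨(b (b (l 3) (b (b (b (a (l 3) (b (l 3) (a (a (l 3) (b (l 3) (l 16401552))) (b (a (l 3) (l 16380776)) (a (l 16406984) (l 16414944)))))) (b (a (a (b (l 3) (l 16429416)) (b (a (l 3) (l 16410488)) (a (l 16424168) (l 16423056)))) (a (b (a (l 16411360) (l 16414480)) (a (l 16424032) (l 16427232))) (b (a (l 16419968) (l 16427968)) (a (l 16432776) (l 16440808))))) (b (a (a (b (l 16438400) (l 16444336)) (b (l 16411672) (l 16438760))) (a (b (l 16434832) (l 16441056)) (b (l 16446064) (l 16453000)))) (a (a (l 16453152) (b (l 16444816) (a (l 16451424) (l 16451096)))) (b (a (a (l 16445912) (l 16450120)) (a (l 16457568) (l 16447728))) (a (a (a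 (l 16452560) (l 16433976)) (a (l 16437488) (l 16462912))) (a (l 16449496) (a (l 16479160) (a (l 16483952) (l 16466352)))))))))) (a (a (l 16482608) (b (l 16477752) (l 16521952))) (a (a (l 16484184) (l 16471560)) (b (a (l 16479336) (l 16469944)) (l 16547600))))) (a (a (l 16529992) (l 16513008)) (a (b (l 16592376) (l 16662656)) (b (l 16567256) (l 16651664)))))) (b (a (b (a (l 16621352) (l 16684080)) (l 16199696)) (b (b (l 16607784) (l 16708552)) (a (l 16493448) (l 16557224)))) (a (b (l 16115128) (a (l 15830616) (l 15885128))) (b (l 16242296) (l 15992720))))), by decide +kernel⟩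

def k1_pm_112 : ∃ t, chk3 f_pm_112 t 5 1 1 = true :=
  ⟨(b (a (a (b (l 3) (b (b (b (b (a (b (l 3) (l 16377928)) (l 1)) (b (a (l 16412320) (l 1)) (a (l 16425552) (l 16438904)))) (b (b (a (l 16438592) (l 16451952)) (a (l 16451440) (l 16465160))) (b (b (l 16448144) (l 16478832)) (b (a (l 16483816) (l 16500960)) (a (b (b (b (l 16492168) (a (l 16491616) (l 16499112))) (l 16497816)) (l 16500088)) (b (b (b (l 16502912) (a (l 16500864) (l 14528505783))) (l 16499728)) (l 16500176))))))) (b (a (l 16489272) (l 16490696)) (l 16499368))) (b (l 16522880) (l 16585808)))) (b (l 1) (b (b (b (l 1) (b (l 1) (b (l 1) (b (l 1) (a (b (l 1) (l 16501112)) (l 1)))))) (b (a (l 17212857575) (l 178811011703)) (l 16503824))) (b (l 16510696) (l 16531528))))) (b (l 1) (b (b (l 1) (a (l 174515987911) (l 1))) (a (b (l 16490184) (l 16490064)) (b (l 16483040) (l 16461992)))))) (b (a (b (a (l 16589288) (l 16547000)) (a (l 16612648) (l 16657488))) (b (a (l 16517624) (l 16459496)) (a (l 16602848) (l 16508328)))) (a (b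 (a (l 16368552) (l 16430536)) (l 16056504)) (b (l 16425480) (l 16275072))))), by decide +kernel⟩

def k2_pm_112 : ∃ t, chk3 f_pm_112 t 3 1 1 = true :=
  ⟨(b (b (l 1) (a (b (l 1) (a (a (l 153577862567) (l 1)) (l 1))) (l 1))) (b (a (a (b (a (l 16414912) (a (l 16391896) (l 16408016))) (a (l 16425912) (a (l 16372416) (l 16363080)))) (b (a (l 16423016) (l 1)) (a (l 16426080) (l 16529920)))) (a (a (b (l 1) (l 16476112)) (l 1)) (l 1))) (a (a (b (a (l 16494520) (l 16401080)) (a (l 16364480) (l 16416528))) (b (a (l 16416224) (l 16503040)) (a (l 16441256) (l 16402736)))) (a (a (b (l 16414704) (l 16311232)) (b (l 16242512) (l 16160584))) (a (b (a (l 16068808) (l 1)) (a (l 15887104) (l 15799864))) (b (l 1) (a (l 15577504) (b (l 1) (l 15285832))))))))), by decide +kernel⟩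

theorem s3_pm_112 : ∃ t, chk3 f_pm_112 t 2 1 1 = true := ex3_a k0_pm_112 k1_pm_112

theorem s4_pm_112 : ∃ t, chk3 f_pm_112 t 1 1 1 = true := ex3_a s3_pm_112 k2_pm_112

theorem c_pm_112 : CertB 536870912 536870912 536870912 536870912 1045395039 1503240 3 eng mog cd0q1 cd1q1 pd2 true true false .dn 1 1 2
    ndB0q1 ndB1q1 pcB2 Cut.none Ext.none :=
  certB1 (fam := true) (s1 := true) (s2 := false) (a := 1) (b := 1) (c := 2) (cn := .dn) (n1 := ndB0q1) (n2 := ndB1q1) (pc := pcB2) (cut := Cut.none) (xt := Ext.none) (P1 := 536870912) (W1 := 536870912) (P2 := 536870912) (W2 := 536870912) (P3 := 1045395039) (W3 := 1503240) (N0 := 3) (En := eng) (mo := mog) (C1 := cd0q1) (C2 := cd1q1) (C3 := pd2)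
    rfl (fun _ => rfl) s4_pm_112

noncomputable def xt_pm_113 : Ext := extD3 3 ⟨4, 1, 1, 5, 33, 5, 163, 200, 81, 200, 1, 64⟩ eng cd0q1 cd1q1 pd3 true true false .nn 1 1 3 rfl ndB0q1 ndB1q1 pcB3

noncomputable def f_pm_113 : ℕ → ℕ → ℕ → ℕ → Bool := onCell 536870912 536870912 536870912 536870912 1045395039 1503240
    (rowB 3 eng mog cd0q1 cd1q1 pd3 0 true true false .nn 1 1 3 (qsf 536870912 536870912 536870912 536870912 3) ndB0q1 ndB1q1 pcB3 Cut.none xt_pm_113)

def k0_pm_113 : ∃ t, chk3 f_pm_113 t 2 1 1 = true :=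
  ⟨(b (a (l 1) (b (l 1) (a (l 1) (b (l 1) (a (l 1) (b (l 1) (l 16279720))))))) (b (a (a (l 1) (b (l 1) (l 16117288))) (a (b (a (l 1) (b (l 1) (l 16082520))) (a (l 16094256) (l 15860416))) (b (a (l 127807142055) (b (l 16154064) (l 16031840))) (a (b (a (l 16062720) (l 16010912)) (l 15923864)) (b (l 15921472) (a (l 15863360) (l 15798472))))))) (a (b (a (l 15886568) (l 15823040)) (a (a (b (l 179882490759) (l 15700768)) (b (l 15568360) (b (l 15486784) (l 15602416)))) (b (l 15529008) (b (a (l 15398920) (l 15361008)) (a (l 15434000) (l 15310576)))))) (b (a (l 15766072) (b (a (l 15792464) (a (l 15758488) (l 15716360))) (l 15626600))) (a (b (l 15499360) (a (l 15314288) (l 15298416))) (l 15383344)))))), by decide +kernel⟩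

def k1_pm_113 : ∃ t, chk3 f_pm_113 t 3 2 1 = true :=
  ⟨(a (b (a (l 1) (a (l 1) (b (l 1) (b (l 1) (l 15369000))))) (a (b (a (l 1) (b (l 1) (l 122436577799))) (a (b (l 15786480) (l 15988272)) (b (l 15429648) (l 15636160)))) (a (b (b (l 15082704) (a (l 15141648) (l 15337944))) (a (b (l 15109032) (l 15371840)) (l 15461032))) (b (b (l 15461392) (l 15546576)) (a (l 15608960) (l 15842184)))))) (a (b (a (b (l 1) (a (l 15750752) (l 15904544))) (a (b (l 1) (l 16126648)) (b (l 221759810231) (b (l 16279792) (l 16140216))))) (a (b (a (b (l 15883344) (l 15970912)) (l 16059792)) (a (l 16071976) (l 16091008))) (b (a (l 16196880) (b (l 15898488) (l 15971552))) (a (b (l 16019576) (l 15899984)) (b (l 15896384) (l 15798128)))))) (a (b (a (b (b (l 1) (l 16232328)) (l 15915096)) (l 16064912)) (b (l 15920472) (l 15744296))) (b (a (b (l 16128568) (l 15989400)) (b (l 16046480) (l 15913048))) (a (b (l 15830048) (l 15665048)) (l 15565216)))))), by decide +kernel⟩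

def k2_pm_113 : ∃ t, chk3 f_pm_113 t 3 3 1 = true :=
  ⟨(a (b (a (b (a (b (l 16087888) (l 15949640)) (b (l 15860664) (l 15892472))) (a (b (l 15819136) (l 15704656)) (b (l 15742248) (l 15604384)))) (b (a (a (b (l 15613408) (l 15838568)) (b (l 15650592) (l 15794488))) (b (l 15902640) (l 15882728))) (a (a (l 15627512) (b (l 15699152) (l 15529936))) (b (l 15716344) (a (l 15538528) (l 15554256)))))) (a (b (a (b (l 15619968) (a (l 15570032) (l 15514912))) (b (l 15487288) (l 15401120))) (a (b (l 15425592) (l 15285928)) (b (a (l 15382800) (l 15311128)) (a (l 15278376) (l 15256328))))) (b (a (b (l 15395584) (l 15279824)) (b (a (l 15372080) (l 15398504)) (a (l 15228832) (l 15248408)))) (a (b (l 15201192) (a (l 15206144) (l 15133976))) (b (a (l 15123032) (l 15121368)) (a (l 15070176) (l 15040736))))))) (b (a (a (b (a (l 15904560) (l 15829216)) (b (l 15665096) (l 15533112))) (b (a (b (l 15782248) (l 15670560)) (b (l 15697112) (l 15600752))) (a (b (l 15564376) (l 15506272)) (l 15462072)))) (a (b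 (l 15503984) (a (l 15419896) (l 15392136))) (a (b (l 15510272) (l 15387528)) (b (l 15478152) (l 15382024))))) (a (b (a (a (l 15324896) (l 15347224)) (a (b (l 15372504) (l 15292904)) (l 15309840))) (a (b (a (l 15170216) (l 15209640)) (a (l 15076496) (l 15146328))) (a (b (l 15232264) (l 15201888)) (l 15462104)))) (b (a (a (l 15302776) (l 15313768)) (a (l 15352544) (l 15402464))) (a (b (l 15321960) (a (l 15365912) (l 15577512))) (b (a (l 15509168) (b (a (l 15574184) (l 15672320)) (a (l 15779488) (l 15962128)))) (a (b (a (l 15712104) (l 15926456)) (a (l 16119408) (b (l 16377384) (l 16684256)))) (b (a (l 136281750716629071) (b (l 16429984) (l 16762512))) (a (b (l 16721296) (b (l 16681192) (l 16649200))) (b (a (l 16711840) (l 4)) (l 4))))))))))), by decide +kernel⟩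

theorem s3_pm_113 : ∃ t, chk3 f_pm_113 t 3 1 1 = true := ex3_b k1_pm_113 k2_pm_113

theorem s4_pm_113 : ∃ t, chk3 f_pm_113 t 1 1 1 = true := ex3_a k0_pm_113 s3_pm_113

theorem c_pm_113 : CertB 536870912 536870912 536870912 536870912 1045395039 1503240 3 eng mog cd0q1 cd1q1 pd3 true true false .nn 1 1 3
    ndB0q1 ndB1q1 pcB3 Cut.none xt_pm_113 :=
  certB0 (fam := true) (s1 := true) (s2 := false) (a := 1) (b := 1) (c := 3) (cn := .nn) (n1 := ndB0q1) (n2 := ndB1q1) (pc := pcB3) (cut := Cut.none) (xt := xt_pm_113) (P1 := 536870912) (W1 := 536870912) (P2 := 536870912) (W2 := 536870912) (P3 := 1045395039) (W3 := 1503240) (N0 := 3) (En := eng) (mo := mog) (C1 := cd0q1) (C2 := cd1q1) (C3 := pd3)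
    rfl s4_pm_113

noncomputable def cut_pm_123_a : Cut := Cut.of [[⟨0, 1, 0, 14155776⟩, ⟨1, 1, 0, 14155776⟩, ⟨2, 2, 0, 524288⟩], [⟨0, 0, 1, 46137344⟩, ⟨1, 1, 0, 1048576⟩, ⟨2, 1, 1, 46137344⟩, ⟨0, 0, 0, 1056440320⟩, ⟨0, 1, 0, 33457795⟩, ⟨2, 1, 0, 1056440320⟩, ⟨2, 2, 0, 33457795⟩]]

noncomputable def xt_pm_123_a : Ext := extD3 3 ⟨4, 1, 1, 5, 33, 5, 163, 200, 81, 200, 1, 64⟩ eng cd0q1 cd1q2a pd3 true true false .npn 1 2 3 rfl ndB0q1 ndB1q2a pcB3

noncomputable def f_pm_123_a : ℕ → ℕ → ℕ → ℕ → Bool := onCell 536870912 536870912 0 536870912 1045395039 1503240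
    (rowB 3 eng mog cd0q1 cd1q2a pd3 0 true true false .npn 1 2 3 (qsf 536870912 536870912 0 536870912 3) ndB0q1 ndB1q2a pcB3 cut_pm_123_a xt_pm_123_a)

def k0_pm_123_a : ∃ t, chk3 f_pm_123_a t 2 2 1 = true :=
  ⟨(a (b (a (b (a (b (a (l 16599576) (l 16614384)) (l 16573640)) (b (l 16615448) (a (l 16600664) (l 16598096)))) (a (l 16514872) (l 16546608))) (b (a (a (b (l 16659184) (l 16636720)) (l 16663808)) (a (l 16675400) (l 16681112))) (a (b (a (l 16602240) (b (l 16634272) (l 16615200))) (l 16564640)) (b (a (l 16644096) (l 16651384)) (a (l 16602368) (b (l 16639752) (l 16616296))))))) (a (b (l 16436728) (l 16331600)) (b (a (l 16480896) (l 16524672)) (l 16369864)))) (a (b (b (a (a (l 16688856) (l 16699104)) (a (l 16670376) (b (a (l 16738248) (l 16726608)) (l 16714824)))) (a (b (l 16659584) (a (b (l 16640600) (l 16633944)) (l 16640592))) (a (l 16660560) (l 16651576)))) (b (a (b (a (l 16599360) (b (l 16628416) (l 16613744))) (l 16545136)) (b (a (b (l 16629376) (l 16623328)) (l 16631424))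 (a (l 16591952) (b (l 16618856) (l 16606840))))) (a (l 16428064) (l 16482712)))) (b (a (b (a (b (b (l 113514584039) (l 100092778519)) (l 16702600)) (b (l 4) (a (l 116198891511) (l 105461495063)))) (a (l 16667352) (b (l 16703976) (l 16691640)))) (b (l 4) (a (b (a (l 16721184) (l 104387733287)) (l 16714880)) (b (b (l 4) (l 112440823095)) (a (l 16713448) (l 106535193879)))))) (a (b (b (l 16586992) (a (b (l 16620296) (l 16615136)) (l 16625384))) (b (a (l 16579456) (b (l 16612288) (l 16594888))) (l 16502936))) (b (a (l 16596632) (b (l 16703464) (l 16662840))) (b (a (b (l 16614808) (l 16610416)) (b (l 16631832) (l 16613800))) (a (l 16561072) (b (l 16609544) (l 16577584))))))))), by decide +kernel⟩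

def k1_pm_123_a : ∃ t, chk3 f_pm_123_a t 2 3 1 = true :=
  ⟨(b (a (a (b (l 16213984) (l 16083032)) (b (l 16221232) (l 16055672))) (a (b (l 16187088) (a (l 16058904) (l 16074040))) (b (a (l 16341200) (l 16408296)) (a (l 16101272) (l 16101184))))) (a (b (a (b (l 15977056) (l 15913248)) (b (l 15921200) (l 15839472))) (b (a (l 15845920) (l 15768192)) (a (b (a (b (l 15824720) (l 15849216)) (b (l 15778056) (l 15791712))) (a (l 15927696) (l 15867912))) (b (a (b (l 15735120) (l 15739560)) (b (l 15699136) (l 15694328))) (a (l 15811424) (l 15757832)))))) (b (a (b (l 15897176) (a (l 15798592) (l 15780128))) (b (a (l 15904344) (l 15924080)) (a (l 15770192) (l 15770984)))) (b (a (l 15706856) (a (l 15671784) (l 15654288))) (a (b (b (l 15651376) (a (l 15634040) (l 15599704))) (a (l 15706792) (l 15658104))) (b (a (a (l 15610896) (l 15597384)) (a (l 15584792) (l 15573232))) (a (l 15611800) (l 15547296)))))))), by decide +kernel⟩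

def k2_pm_123_a : ∃ t, chk3 f_pm_123_a t 3 2 1 = true :=
  ⟨(a (a (b (a (b (l 4) (a (b (l 4) (a (l 98482171319) (l 4))) (l 4))) (l 4)) (a (b (a (b (a (l 16725376) (l 16760152)) (l 16690264)) (b (a (l 53385051959) (l 85597277367)) (a (l 16714320) (l 16751560)))) (b (a (l 16645072) (l 16674712)) (a (b (l 16614144) (l 16609624)) (b (l 16636920) (l 16615968))))) (b (a (b (l 4) (a (b (l 16754576) (l 16737680)) (b (l 4) (l 16752024)))) (l 4)) (a (b (a (l 16700712) (l 16677648)) (l 16656168)) (b (a (b (l 16748888) (l 16726960)) (b (l 4) (l 16745048))) (a (l 16684224) (l 16663312))))))) (a (b (l 4) (b (l 4) (a (b (a (b (l 4) (l 142505602327)) (l 4)) (a (b (l 16761344) (l 16712328)) (b (a (l 16753992) (l 4)) (l 16734720)))) (b (l 4) (a (b (l 4) (a (l 106535246999) (l 155390521991))) (l 4)))))) (l 4))) (l 4)), by decide +kernel⟩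

def k3_pm_123_a : ∃ t, chk3 f_pm_123_a t 6 6 1 = true :=
  ⟨(a (b (a (b (a (l 16536392) (b (l 16610352) (l 16554976))) (l 16428200)) (b (a (b (l 16619384) (l 16607008)) (b (l 16649240) (a (l 16616632) (l 16628176)))) (a (l 16505304) (b (l 16599632) (l 16527560))))) (a (b (l 16282040) (l 16125568)) (b (l 16375928) (l 16202000)))) (b (a (b (a (b (l 16650296) (l 16658648)) (a (b (l 16685960) (l 16693848)) (b (a (l 16766000) (l 155927369287)) (l 16698768)))) (a (b (a (l 16622208) (l 16635848)) (l 16592408)) (b (l 16628624) (a (l 16629088) (l 16645704))))) (a (b (b (l 4) (a (b (a (l 16747000) (l 16757160)) (l 16705712)) (a (b (l 4) (l 16754872)) (l 4)))) (b (a (l 16710056) (b (a (l 16740136) (l 16752176)) (l 16707864))) (a (l 16670472) (l 16699016)))) (b (l 4) (a (b (b (l 4) (a (l 16728072) (l 163980478311))) (b (a (l 16731264) (l 16724464)) (l 16718632))) (b (l 4) (b (a (l 150021824615) (l 4)) (a (l 16741312) (b (l 112977760503) (l 16751080))))))))) (a (b (a (l 16468200) (b (l 16585800)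 (l 16496688))) (a (l 16280384) (l 16346512))) (b (a (b (a (l 16635680) (l 16657920)) (a (l 16559120) (l 16602216))) (b (a (l 16686360) (b (a (l 16720648) (l 16736640)) (l 16706840))) (a (b (l 16652760) (l 16623800)) (b (l 16683424) (l 16658896))))) (a (l 16426536) (b (a (l 16552608) (l 16603016)) (l 16465648))))))), by decide +kernel⟩

def k4_pm_123_a : ∃ t, chk3 f_pm_123_a t 6 7 1 = true :=
  ⟨(b (a (a (b (l 15959512) (b (l 15829080) (l 15740616))) (b (l 16016144) (l 15714120))) (a (b (a (l 16077528) (l 16131008)) (a (l 15861440) (l 15900600))) (b (a (l 16197360) (b (l 16343776) (l 16216336))) (a (l 15867072) (b (l 16084152) (l 15947496)))))) (a (b (a (l 15643528) (b (a (l 15673776) (l 15682480)) (l 15612592))) (b (a (a (l 15562896) (l 15554080)) (l 15544280)) (a (a (l 15538824) (l 15519168)) (b (a (l 15504480) (l 15493560)) (l 15490912))))) (b (a (b (a (l 15698144) (l 15722472)) (l 15624488)) (b (a (l 15757664) (l 15806760)) (a (l 15650704) (b (l 15706808) (l 15656040))))) (b (a (l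 15544328) (a (l 15558096) (l 15577656))) (a (b (a (l 15486128) (b (l 15492560) (l 15475032))) (a (l 15466104) (l 15453568))) (b (a (b (l 15497184) (l 15474616)) (b (l 15509272) (l 15481720))) (a (l 15445904) (l 15445264)))))))), by decide +kernel⟩

def k5_pm_123_a : ∃ t, chk3 f_pm_123_a t 7 6 1 = true :=
  ⟨(a (a (b (l 4) (a (b (a (b (b (a (b (l 16755904) (l 16747056)) (b (l 4) (l 150021846375))) (a (l 16731360) (b (l 16731200) (l 16742384)))) (b (l 16696336) (l 16692928))) (b (a (b (l 4) (b (l 4) (l 78618022023))) (l 4)) (a (b (l 150021737463) (l 16719288)) (b (b (l 185455318327) (l 16753304)) (l 16716080))))) (b (a (b (l 16664944) (l 16629824)) (b (l 16703448) (l 16672936))) (a (l 16549016) (b (l 16634944) (l 16580440))))) (b (a (b (l 4) (b (l 4) (a (b (a (l 16755168) (l 4)) (l 16727632)) (b (l 4) (a (l 16760872) (l 4)))))) (l 4)) (b (a (b (a (l 16731048) (b (a (l 16750424) (l 16758720)) (l 16743232))) (a (l 16704624) (l 16724376))) (b (a (b (l 4) (a (l 16756400) (l 4))) (l 4)) (a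 (b (l 16728392) (l 16737096)) (b (a (l 203172068471) (l 4)) (a (l 16751208) (l 131231371447)))))) (a (b (a (l 16671016) (l 16693464)) (a (l 16628104) (l 16656200))) (b (a (l 16716840) (b (l 16743560) (l 16730264))) (a (l 16681840) (l 16706256)))))))) (b (l 2) (a (b (l 4) (b (l 4) (a (b (a (b (a (l 16757696) (l 4)) (a (l 16745232) (l 16733992))) (b (l 4) (a (l 277797119671) (l 4)))) (a (l 16709144) (b (a (l 16752064) (l 183844695543)) (a (l 16738456) (l 16748992))))) (a (b (l 4) (b (l 4) (a (b (l 16762304) (l 16755816)) (l 4)))) (l 4))))) (l 4)))) (l 2)), by decide +kernel⟩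

def k6_pm_123_a : ∃ t, chk3 f_pm_123_a t 28 14 1 = true :=
  ⟨(b (a (b (l 16452208) (l 16315672)) (b (a (l 16550288) (b (a (l 16635960) (l 16666712)) (l 16589560))) (l 16358544))) (a (b (l 16173312) (l 16025872)) (b (l 16288712) (l 16128960)))), by decide +kernel⟩

def k7_pm_123_a : ∃ t, chk3 f_pm_123_a t 29 28 1 = true :=
  ⟨(a (b (a (b (a (l 16695080) (l 16699528)) (a (l 16646272) (b (l 16691608) (l 16667496)))) (b (a (b (a (l 16745744) (l 16756208)) (l 16716008)) (b (a (b (l 4) (l 16763160)) (l 4)) (a (l 16732176) (b (l 4) (l 16739144))))) (a (b (l 16719432) (l 16699624)) (b (a (l 16738656) (l 16749952)) (l 16727624))))) (a (b (l 16597600) (l 16520064)) (b (a (b (l 16674856) (l 16643856)) (b (l 16708464) (l 16683056))) (a (l 16586032) (l 16632544))))) (b (b (l 4) (a (a (b (a (b (l 257932906567) (l 16757000)) (l 4)) (a (l 16746616) (b (l 16760856) (l 16753816)))) (b (l 4) (a (b (l 4) (l 306251241767)) (l 4)))) (l 4))) (a (b (a (b (l 16715408) (l 16718152)) (b (a (b (l 16757616) (l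 16750584)) (b (l 4) (a (l 16758464) (l 16764368)))) (a (l 16738400) (l 16730048)))) (a (b (a (l 16682880) (l 16701512)) (l 16660312)) (b (l 16706272) (a (l 16692496) (l 16711824))))) (b (a (b (l 4) (a (b (a (l 16762576) (l 4)) (l 16737312)) (l 4))) (l 4)) (a (b (a (l 16747544) (a (l 16734872) (b (l 16765288) (l 16757416)))) (a (l 16729336) (l 16743088))) (b (a (b (l 4) (a (l 16742424) (l 4))) (l 4)) (a (b (a (l 16755792) (l 16761552)) (l 16751640)) (b (l 4) (a (l 16759760) (b (l 4) (l 16763776))))))))))), by decide +kernel⟩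

def k8_pm_123_a : ∃ t, chk3 f_pm_123_a t 29 29 1 = true :=
  ⟨(a (b (a (l 16397432) (l 16483424)) (a (l 16227576) (l 16306504))) (b (a (b (a (l 16599200) (b (a (l 16658216) (l 16681848)) (l 16629400))) (l 16536584)) (b (a (b (a (l 16702936) (l 16723008)) (a (l 16668888) (l 16692600))) (b (a (l 16738776) (b (l 16734616) (l 16747592))) (a (l 16714240) (l 16734320)))) (a (l 16617144) (b (a (l 16680280) (b (l 16712704) (l 16696040))) (l 16651136))))) (a (l 16397904) (b (l 16551896) (l 16454632))))), by decide +kernel⟩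

def k9_pm_123_a : ∃ t, chk3 f_pm_123_a t 14 15 1 = true :=
  ⟨(a (b (b (a (l 15873552) (l 15963776)) (a (b (l 15759624) (l 15697968)) (b (l 15837128) (l 15761136)))) (b (a (l 15609880) (l 15660744)) (b (b (l 15549960) (a (l 15500576) (l 15536064))) (a (l 15454952) (l 15480312))))) (b (b (a (a (l 16051744) (l 16123112)) (a (l 16206832) (l 16305152))) (a (b (l 15947888) (a (l 15829072) (l 15888152))) (b (l 16104376) (a (l 15960592) (l 16049160))))) (b (a (a (l 15716800) (l 15765928)) (b (a (l 15870480) (l 15951008)) (l 15818984))) (a (b (b (l 15639168) (l 15596992)) (l 15530536)) (b (a (l 15692624) (l 15761056)) (a (l 15594016) (l 15655440))))))), by decide +kernel⟩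

def k10_pm_123_a : ∃ t, chk3 f_pm_123_a t 30 28 1 = true :=
  ⟨(l 4), by decide +kernel⟩

def k11_pm_123_a : ∃ t, chk3 f_pm_123_a t 60 58 1 = true :=
  ⟨(a (b (a (b (a (b (a (l 16764272) (l 4)) (a (l 16756368) (l 16741312))) (b (l 4) (a (l 554822490759) (l 4)))) (a (b (l 16752144) (l 16743384)) (b (a (l 16760360) (b (l 4) (l 16764408))) (a (l 16753088) (l 16758504))))) (b (l 4) (a (b (l 4) (a (b (l 16767024) (l 16762232)) (l 4))) (l 4)))) (a (b (a (l 16726520) (l 16722616)) (a (b (l 16702208) (l 16682672)) (b (l 16725240) (l 16708608)))) (b (a (b (a (l 16756728) (b (l 16764616) (l 16760216))) (l 16751992)) (b (a (b (l 4) (l 411477994167)) (l 4)) (a (l 16739704) (b (l 4) (l 16743792))))) (a (l 16704984) (b (a (l 16752896) (l 16758704)) (l 16747736)))))) (b (l 4) (a (b (l 4) (a (b (a (b (l 461943837367) (l 16762424)) (l 4)) (a (l 16756840) (b (l 16743896) (l 16760280)))) (b (l 4) (a (b (l 4) (l 494692940455)) (l 4))))) (l 4)))), by decide +kernel⟩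

def k12_pm_123_a : ∃ t, chk3 f_pm_123_a t 60 59 1 = true :=
  ⟨(a (b (a (b (a (l 16649120) (l 16678472)) (l 16616640)) (b (a (b (l 16715264) (l 16696424)) (b (l 16738608) (l 16722160))) (a (l 16662712) (b (l 16703648) (l 16681728))))) (a (l 16542400) (l 16605536))) (b (a (b (a (b (l 16730880) (l 16743280)) (b (a (b (l 16762440) (l 16758376)) (b (l 4) (a (l 16762584) (l 4)))) (a (l 16752672) (b (l 16760240) (l 16756672))))) (a (b (l 16729320) (a (l 16704432) (l 16718128))) (b (l 16747536) (l 16736728)))) (b (a (b (l 4) (a (b (a (l 16765200) (l 4)) (l 16741448)) (l 4))) (l 4)) (a (b (a (l 16756696) (b (a (l 16762504) (l 16766720)) (l 16760168))) (a (l 16748368) (l 16754448))) (b (a (b (l 4) (a (l 16765168) (l 4))) (l 4)) (a (b (a (l 16760248) (l 16763728)) (l 16758208)) (b (l 4) (a (l 16762400) (l 16745744)))))))) (a (b (a (l 16677976) (b (a (l 16712328) (l 16725744)) (l 16697848))) (l 16646000)) (b (a (b (l 16742920) (a (l 16720384) (l 16733576))) (b (a (l 16752352) (b (l 16739088)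 (l 16756192))) (a (l 16743808) (l 16750216)))) (a (b (l 16706608) (l 16683304)) (b (a (l 16728616) (l 16741520)) (a (l 16707784) (l 16723280)))))))), by decide +kernel⟩

def k13_pm_123_a : ∃ t, chk3 f_pm_123_a t 61 29 1 = true :=
  ⟨(b (l 2) (a (b (l 4) (a (b (a (b (a (b (a (l 16765120) (l 4)) (a (l 16760112) (l 16763632))) (l 4)) (a (l 16735192) (b (a (l 16762272) (l 504356627687)) (a (l 16758360) (l 16761040))))) (b (l 4) (a (b (l 4) (a (l 16744080) (l 4))) (l 4)))) (a (b (a (l 16748008) (l 16754072)) (a (l 16737000) (l 16745720))) (b (a (b (a (l 16759960) (l 16763520)) (l 16757888)) (b (l 4) (a (l 16762128) (b (l 4) (l 16764648))))) (a (l 16751992) (b (a (l 16758208) (l 16760888)) (l 16755768)))))) (b (l 4) (a (b (l 4) (a (b (a (b (l 4) (l 16763016)) (l 4)) (a (l 16759800) (l 16752920))) (l 4))) (l 4))))) (l 4))), by decide +kernel⟩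

def k14_pm_123_a : ∃ t, chk3 f_pm_123_a t 31 14 1 = true :=
  ⟨(l 2), by decide +kernel⟩

def k15_pm_123_a : ∃ t, chk3 f_pm_123_a t 60 30 1 = true :=
  ⟨(b (a (b (l 16471928) (l 16368264)) (b (a (l 16569960) (b (l 16663896) (l 16613776))) (a (l 16465328) (l 16535896)))) (a (l 16210096) (b (l 16394384) (l 16287592)))), by decide +kernel⟩

def k16_pm_123_a : ∃ t, chk3 f_pm_123_a t 122 60 1 = true :=
  ⟨(b (a (b (a (b (a (l 16717336) (l 16732192)) (l 16702584)) (b (a (l 16743736) (l 16749848)) (a (l 16727024) (b (l 16743312) (l 16736944))))) (a (l 16666672) (b (l 16712864) (l 16689616)))) (b (a (b (a (b (l 16757584) (l 16753744)) (b (a (l 16741016) (b (l 4) (l 16764520))) (a (l 16757928) (l 16760728)))) (a (l 16747608) (b (l 16755576) (l 16751672)))) (b (a (b (l 4) (a (b (l 4) (l 16762848)) (l 4))) (l 4)) (a (b (a (l 16759648) (b (l 16764456) (l 16761416))) (l 16757360)) (b (l 4) (a (b (l 16762768) (l 16760248)) (b (l 4) (l 16764400))))))) (a (b (a (b (l 16741584) (l 16731976)) (b (l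 16747456) (l 16743552))) (a (l 16715344) (l 16731880))) (b (a (l 16751656) (b (a (l 16757704) (l 16739608)) (l 16755416))) (a (b (l 16745496) (l 16742152)) (b (l 16751512) (l 16747416))))))) (a (b (l 16635144) (l 16584216)) (b (a (l 16689400) (b (a (l 16726576) (b (l 16743968) (l 16737584))) (l 16713008))) (l 16660264)))), by decide +kernel⟩

def k17_pm_123_a : ∃ t, chk3 f_pm_123_a t 123 120 1 = true :=
  ⟨(a (b (l 4) (a (b (a (b (a (b (l 622468229863) (l 16762688)) (l 4)) (a (l 16759504) (b (l 16743376) (l 16761248)))) (b (l 4) (a (b (l 4) (l 627300066727)) (l 4)))) (a (b (l 16757184) (l 16753440)) (b (a (l 143772518330466319) (b (l 4) (l 143733073399021583))) (a (l 16757528) (l 143796707626598415))))) (b (l 4) (a (b (l 4) (a (b (l 689577091703) (l 16741584)) (l 4))) (l 4))))) (l 4)), by decide +kernel⟩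

def k18_pm_123_a : ∃ t, chk3 f_pm_123_a t 123 121 1 = true :=
  ⟨(a (b (a (b (a (b (l 16749336) (l 16745776)) (b (l 16755280) (l 16751376))) (a (l 16738160) (b (l 16747656) (l 16744736)))) (b (a (b (a (l 16759376) (b (l 143738158597275663) (l 16761104))) (a (l 16755656) (l 16758312))) (b (a (b (l 4) (l 12924625937643710284264112143)) (l 4)) (a (b (l 16752016) (l 16759984)) (b (l 4) (l 143742419226247183))))) (a (b (l 16753328) (l 16749560)) (b (a (l 16757400) (l 143808252455550991)) (l 16755192))))) (a (l 16714808) (b (a (b (a (l 16745136) (l 16747072)) (l 16744840)) (b (l 16751392) (a (l 16746504) (l 16748952)))) (a (l 16729944) (l 16745976))))) (b (a (b (l 4) (a (b (a (b (l 14123880350701425311789269007) (l 143772037338546191)) (l 4)) (a (l 16738200) (b (a (l 16762360) (l 4)) (l 16761000)))) (b (l 4) (a (b (l 4) (l 22412275769979144743970127887)) (l 4))))) (l 4)) (a (b (a (b (l 143869756423225359) (l 16753240)) (b (a (b (l 143775679470747663) (l 16759904)) (b (l 4) (a (l 16762304)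 (l 4)))) (a (l 16757328) (b (l 16750480) (l 16758992))))) (a (b (a (l 16748184) (l 16750840)) (l 16747168)) (b (l 16755160) (a (l 16750040) (l 16752696))))) (b (a (b (l 4) (a (b (a (l 16743288) (l 4)) (l 143778428206825487)) (l 4))) (l 4)) (a (b (a (l 143837595712389135) (b (a (l 16762256) (l 1429922081703)) (l 143804541647929359))) (l 143697751567548431)) (b (a (b (l 4) (a (l 647701161191) (l 4))) (l 4)) (a (b (l 143780283632697359) (l 16759848)) (b (l 4) (a (l 16762224) (l 1439585757175)))))))))), by decide +kernel⟩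

def k19_pm_123_a : ∃ t, chk3 f_pm_123_a t 61 61 1 = true :=
  ⟨(a (b (a (l 16506392) (b (l 16611488) (l 16561600))) (a (l 16402128) (l 16486528))) (b (b (a (l 16689552) (a (b (a (l 16743288) (b (a (l 16747728) (l 16749304)) (l 16747952))) (l 16733016)) (b (a (b (a (l 16751920) (l 16754640)) (a (l 16748856) (l 16751128))) (b (a (l 16757328) (b (l 143806465793261583) (l 16758952))) (l 143718710988013583))) (a (l 16748552) (b (a (l 16750424) (l 16753008)) (l 143846666663886863)))))) (a (l 16644976) (a (l 16704512) (l 16740240)))) (a (b (l 16599256) (l 16553248)) (l 598205282947724717023759)))), by decide +kernel⟩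

def k20_pm_123_a : ∃ t, chk3 f_pm_123_a t 30 31 1 = true :=
  ⟨(a (b (b (a (b (l 16077192) (l 16027624)) (b (l 16206952) (a (l 16119552) (l 16191080)))) (a (l 15954744) (l 16079056))) (b (a (l 15851128) (l 15971632)) (a (l 15739056) (b (l 15884736) (l 15824112))))) (b (a (b (a (b (l 16323856) (l 16271712)) (l 16386944)) (a (b (l 16221720) (l 16171120)) (b (b (l 16325392) (l 16301704)) (l 16265032)))) (b (a (l 16485040) (l 595910391846318117511695)) (b (a (l 589450718895862457324047) (l 593931260093141057196559)) (a (l 16373680) (l 592234588808396911288847))))) (b (a (a (l 16089568) (b (l 16213112) (l 16157720))) (a (b (l 16367520) (l 577656470350115117081103)) (b (l 589278497634903389970959) (b (l 16424936) (l 139932473274335247))))) (a (b (a (l 16001760) (l 16099240)) (l 15987872)) (b (a (l 137877966702739471) (b (l 139697521331470351) (l 139432470257500175))) (a (l 16161040) (b (l 139097806355398671) (l 138734142833082383)))))))), by decide +kernel⟩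

def k21_pm_123_a : ∃ t, chk3 f_pm_123_a t 62 60 1 = true :=
  ⟨(l 4), by decide +kernel⟩

def k22_pm_123_a : ∃ t, chk3 f_pm_123_a t 124 122 1 = true :=
  ⟨(a (b (a (b (a (b (a (b (a (l 650385515095) (l 4)) (a (l 16760792) (l 551601266423))) (l 4)) (a (l 143843574306799631) (b (a (l 16762216) (l 1449786303607)) (l 143813750057828367)))) (b (l 4) (a (b (l 4) (a (l 13321153606477357994152214543) (l 4))) (l 4)))) (a (b (a (l 16755608) (l 16758192)) (a (l 16752232) (l 16754680))) (b (a (b (a (l 16760800) (l 143778909287694351)) (l 16759792)) (b (l 4) (a (l 16741256) (l 26319524018973837342856429583)))) (a (l 16757408) (b (l 143823302065176591) (l 16759016)))))) (b (l 4) (a (b (l 4) (a (b (a (l 13495238924501872772926750735) (l 4)) (a (l 16760840) (l 143787361740488719))) (l 4))) (l 4)))) (a (b (a (b (l 143883019226742799) (l 16750456)) (b (a (l 16754112) (l 16756600)) (a (l 16751216) (l 143920471389683727)))) (a (l 16750592) (l 143859517208985615))) (b (a (b (a (l 143863021875937295) (b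 (a (l 143805503723356175) (l 26541966369782755731761463311)) (l 143831823237496847))) (a (l 16755880) (l 143883981357760527))) (b (a (b (l 4) (a (l 13688667055640220587704188943) (l 4))) (l 4)) (a (b (a (l 16760912) (l 11560957613118493512466513935)) (l 16759904)) (b (l 4) (a (l 143813062865960975) (l 26774080127148770099580895247)))))) (a (b (a (l 143930573151420431) (l 143926793585410063)) (l 143926449981227023)) (b (a (l 16757624) (b (l 143839382380118031) (l 16759224))) (a (l 143762897631920143) (l 143916829264920591))))))) (b (l 4) (a (b (l 4) (a (b (a (b (a (b (l 4) (l 16762904)) (l 4)) (a (l 16761008) (b (l 801783114039) (l 16761968)))) (l 4)) (a (b (l 16760024) (l 16758552)) (b (a (l 143819591173537807) (b (l 4) (l 802319985079))) (a (l 16760232) (l 143835671572480015))))) (b (l 4) (a (b (l 4) (a (b (l 4) (l 586497877383)) (l 4))) (l 4))))) (l 4)))), by decide +kernel⟩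

def k23_pm_123_a : ∃ t, chk3 f_pm_123_a t 124 123 1 = true :=
  ⟨(a (b (a (l 16743904) (b (a (l 16752080) (b (a (l 16752872) (l 143781451889344527)) (l 16752928))) (l 16752784))) (l 600231543223246625481231)) (b (a (b (a (b (a (l 143758018552971279) (l 143718642297323535)) (a (l 16753624) (l 143780283661991951))) (b (a (b (a (l 16761144) (b (l 16232246980109419337865920527) (l 16762080))) (l 16760176)) (b (a (b (l 4) (l 1785330625511)) (l 4)) (a (b (l 584887264775) (l 16761448)) (b (l 4) (l 16309618232564757941508816911))))) (a (l 143728331699699727) (b (a (l 16760392) (l 143841169130930191)) (l 16759584))))) (a (l 16753696) (b (a (l 143800899503751183) (b (l 16758056) (l 16756640))) (a (l 16754456) (l 143816086507552783))))) (b (a (b (l 4) (a (b (a (b (l 1792309946903) (l 143817529633554447)) (l 4)) (a (l 16761272) (b (l 16396660891577013303671472143) (l 16762232)))) (b (l 4) (a (b (l 4) (l 32412510149831416788211417231)) (l 4))))) (l 4)) (a (b (a (b (l 16739400) (l 16758960)) (b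 (a (b (l 143819728656990351) (l 16761624)) (b (l 4) (l 16483703550589268322237104271))) (a (l 16760600) (l 143845635897294991)))) (a (b (l 16757584) (l 16756000)) (b (l 16759816) (l 16758440)))) (b (a (b (l 4) (a (b (l 32547909841628256424008351887) (l 143821652802519183)) (l 4))) (l 4)) (a (b (a (l 16761440) (b (l 16590089022715357201438769295) (l 16762408))) (l 143878758682116239)) (b (a (b (l 4) (l 32692980939982012818325389391)) (l 4)) (a (b (l 143823302048694351) (l 16761832)) (b (l 4) (l 26348538238644464954147995727))))))))) (a (l 143857455631581199) (b (a (b (a (l 16755384) (b (l 16751696) (l 16755800))) (l 16755416)) (b (a (b (l 16759216) (l 16747432)) (b (a (l 16760840) (l 143849071828631631)) (l 16760080))) (a (l 143805434991165583) (b (l 16737888) (l 143959985096818767))))) (a (l 16755520) (b (l 143823576932941903) (l 16756232))))))), by decide +kernel⟩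

def k24_pm_123_a : ∃ t, chk3 f_pm_123_a t 125 61 1 = true :=
  ⟨(b (l 2) (a (b (l 4) (a (b (a (b (a (b (a (b (l 32838052038335768869044813903) (l 12179927632761213611610554447)) (l 4)) (a (l 16740680) (b (a (l 16763392) (l 4)) (l 143842887119405135)))) (b (l 4) (a (b (l 4) (l 33969606605495033807741829199)) (l 4)))) (a (b (l 143881713620189263) (l 16749200)) (b (a (b (l 12218613258988882844712026191) (l 16762064)) (b (l 4) (a (l 16753008) (l 4)))) (a (l 16761128) (b (l 143844055350771791) (l 16761760)))))) (b (l 4) (a (b (l 4) (a (b (a (l 1815395398263) (l 4)) (l 10738888055780397377036795983)) (l 4))) (l 4)))) (a (b (a (b (l 143943080107507791) (l 16757056)) (b (l 143899237085708367) (l 143745030577553487))) (a (l 16756968) (l 143792653149552719))) (b (a (b (a (l 143863983997288527) (b (a (l 650922389655) (l 2155771557127)) (l 143844948704231503))) (l 143883637766176847)) (b (a (b (l 4) (a (l 1817542881495) (l 4))) (l 4)) (a (b (a (l 16762720) (l 143817804471009487)) (l 16762312))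 (b (l 4) (a (l 646627421943) (l 2161677136791)))))) (a (b (l 143727232234979407) (l 143764959224545359)) (b (a (l 16761448) (b (l 143845567179800783) (l 16762064))) (l 143715481163153487)))))) (b (l 4) (a (b (l 4) (a (b (a (b (a (l 32780023598994474819960062159) (l 4)) (a (l 16762856) (l 143818216820342991))) (l 4)) (a (l 143865014790045903) (b (a (l 143829967860302031) (l 39066437860990351090240782543)) (l 143845910777479375)))) (b (l 4) (a (b (l 4) (a (l 32828380631779059986948276431) (l 4))) (l 4))))) (l 4))))) (l 2))), by decide +kernel⟩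

def k25_pm_123_a : ∃ t, chk3 f_pm_123_a t 63 30 1 = true :=
  ⟨(l 2), by decide +kernel⟩

def k26_pm_123_a : ∃ t, chk3 f_pm_123_a t 124 62 1 = true :=
  ⟨(b (a (l 599937547886216255300111) (b (l 143771762449285135) (l 600240766844391636459535))) (b (a (l 599287876248796879184399) (l 601306066517783153106959)) (a (b (a (l 16612392) (l 600401886900631879901711)) (l 598276475549436661637647)) (b (l 601508116013733219065871) (a (l 601579885311218145533967) (l 602770565062239835578383)))))), by decide +kernel⟩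

def k27_pm_123_a : ∃ t, chk3 f_pm_123_a t 250 124 1 = true :=
  ⟨(b (a (b (a (l 16757024) (b (a (l 16757672) (b (l 143746886004162639) (l 16758304))) (l 16757920))) (l 16757720)) (b (a (b (a (b (a (l 16761024) (l 16761984)) (l 143728125572890831)) (b (a (b (a (l 16762992) (l 17151030603016562455814750415)) (l 16762592)) (b (l 4) (a (l 143830174019010767) (l 39201837552787189076771193039)))) (a (l 16761816) (b (l 143845979454308559) (l 16762408))))) (a (b (l 143765234103304399) (l 16758824)) (b (a (l 16760760) (l 16761624)) (l 143747504437280975)))) (b (a (b (l 4) (a (b (a (l 32905751884234215659343593679) (l 4)) (a (l 16763144) (l 17180044822687313349848891599))) (l 4))) (l 4)) (a (b (a (l 143865014790734031) (b (a (l 143830105299828943) (l 39337237244584026719704072399)) (l 143845842037145807))) (a (l 16761392) (l 16762360))) (b (a (b (l 4) (a (l 32983123136689551376769302735) (l 4))) (l 4)) (a (b (a (l 16763296) (l 27383378740234783103332352207)) (l 16762912)) (b (l 4) (a (l 143829692961816783)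 (l 39462965529823946916922491087)))))))) (a (a (l 16758504) (b (l 143963421073801423) (l 16758968))) (b (a (b (a (l 16739224) (l 16761424)) (l 143942873951797455)) (b (a (l 16762216) (b (a (l 16763016) (l 143839794745344207)) (l 16762784))) (a (l 143905627998732495) (l 16762024)))) (a (l 16759504) (b (a (l 16760008) (l 143915180005392591)) (l 16760112))))))) (l 143185035472240719)), by decide +kernel⟩

def k28_pm_123_a : ∃ t, chk3 f_pm_123_a t 251 248 1 = true :=
  ⟨(a (b (l 4) (a (b (a (b (a (b (a (l 33050822982587969648479355087) (l 4)) (a (l 16763456) (b (l 2107990048471) (l 16764032)))) (l 4)) (a (l 143864052718797007) (b (a (l 13988480658904703323740881103) (l 39588693815063873848649466063)) (a (l 16763192) (l 143839107550920911))))) (b (l 4) (a (b (l 4) (a (b (l 4) (l 1639301742071)) (l 4))) (l 4)))) (a (b (a (l 143886249108144335) (l 143871268263592143)) (a (l 16750160) (l 143895045200740559))) (b (a (b (a (l 16763624) (b (l 2105305694231) (l 16764192))) (l 16752784)) (b (l 4)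 (a (l 13969137845790868363592057039) (b (l 4) (l 2104231952247))))) (a (l 143878896125214927) (b (a (l 16763384) (l 143838282917544143)) (l 16763184)))))) (b (l 4) (a (b (l 4) (a (b (a (b (l 4) (l 143821103050129615)) (l 4)) (a (l 16763808) (b (l 2103158210423) (l 16753864)))) (l 4))) (l 4))))) (l 4)), by decide +kernel⟩

def k29_pm_123_a : ∃ t, chk3 f_pm_123_a t 502 249 1 = true :=
  ⟨(b (a (b (a (b (l 16749808) (l 16760392)) (b (a (l 143904459768463567) (l 143879445881290959)) (a (l 16760968) (l 143913255860928719)))) (l 16760432)) (b (a (b (a (b (l 143855462785351887) (l 16763112)) (b (a (b (l 143820553294479567) (l 16763952)) (b (l 4) (l 38679581598713865055090835663))) (a (l 16763576) (l 143837183406276815)))) (a (l 143883843927457999) (l 143869481557999823))) (b (a (b (l 4) (a (b (l 4) (l 143819934797889743)) (l 4))) (l 4)) (a (b (a (l 16753488) (b (l 38650567379043113198983823567) (l 632668782775))) (l 143854019676766415)) (b (a (b (l 4) (l 47451547345837414304362922191)) (l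 4)) (a (b (l 143819247614050511) (l 16764136)) (b (l 4) (l 38640895972486195340952305871))))))) (a (b (a (l 16761256) (l 143893052336783567)) (l 16761400)) (b (a (b (l 16763336) (l 16763024)) (b (a (l 16763776) (l 143835808995655887)) (l 16763608))) (a (l 143902054587662543) (b (l 16763248) (l 16762880))))))) (a (l 16760504) (b (a (l 16761112) (b (l 143738021152620751) (l 16761672))) (l 16761240)))), by decide +kernel⟩

def k30_pm_123_a : ∃ t, chk3 f_pm_123_a t 503 249 1 = true :=
  ⟨(b (a (b (l 4) (a (b (a (b (a (b (l 47519247191735832438634381519) (l 28892118163113841069284081871)) (l 4)) (a (l 143843230719918287) (b (l 38631224565929097163014176975) (l 143830655056806095)))) (b (l 4) (a (b (l 4) (l 47596618444191167537584685263)) (l 4)))) (a (b (l 143852370409734351) (l 16763568)) (b (a (b (l 28795404097544669910674047183) (l 16764328)) (b (l 4) (l 38631224565929096200941043919))) (a (l 16763984) (l 9394562544369117407660884175))))) (b (l 4) (a (b (l 4) (a (b (l 47673989696646548266266886351)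 (l 28698690031975498683344552143)) (l 4))) (l 4))))) (l 4)) (a (b (a (b (a (b (l 16763328) (l 16762600)) (b (l 16763832) (l 16763648))) (a (l 16762120) (l 143709983608701135))) (b (a (b (a (l 143841444013899983) (b (l 38621553159372178068031963343) (l 143828937070280911))) (l 143850514984304847)) (b (a (b (l 4) (l 47751360949101878279975256271)) (l 4)) (a (b (l 28611647372963244351973425359) (l 16764528)) (b (l 4) (l 38631224565929093933198049487))))) (a (b (l 16763800) (l 143870787228942543)) (b (a (l 16764192) (b (l 143827974997803215) (l 16764392))) (l 16758824))))) (a (l 16762048) (b (a (l 143897244225355983) (b (l 143866732780585167) (l 143879652040933583))) (l 143908789096923343)))) (b (a (b (l 4) (a (b (a (b (l 47838403608114124502447571151) (l 28524604713950990020602462415)) (l 4)) (a (l 143839451149484239) (b (l 38640895972486009660925198543) (l 143826944205848783)))) (b (l 4) (a (b (l 4) (l 47925446267126369213091725519)) (l 4))))) (l 4)) (a (b (a (b (l 143848315961491663)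 (l 16764008)) (b (a (b (l 28447233461495652585190047951) (l 16764736)) (b (l 4) (l 38650567379042925388653019343))) (a (l 16764416) (b (l 143825844694433999) (l 16764616))))) (a (b (l 143868863084069071) (l 16763128)) (b (l 143854019678060751) (l 143860685467173071)))) (b (a (b (l 4) (a (b (a (l 2662040833735) (l 4)) (l 28360190802483398116380131535)) (l 4))) (l 4)) (a (b (a (l 143837114687701199) (b (a (l 1820764114263) (l 4)) (l 143824676463542479))) (l 143845910780281039)) (b (a (b (l 4) (a (l 2659356479047) (l 4))) (l 4)) (a (b (a (l 16765168) (l 2255092682039)) (l 16764936)) (b (l 4) (a (l 1808952953751) (l 4))))))))))), by decide +kernel⟩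

def k31_pm_123_a : ∃ t, chk3 f_pm_123_a t 125 125 1 = true :=
  ⟨(a (b (l 143762554054312015) (a (l 143977027520430159) (l 16749688))) (b (a (l 143852645283807439) (b (a (l 16761992) (b (a (b (a (l 16763040) (l 143885355714314447)) (l 16762960)) (b (a (b (l 143856905896558799) (l 143866801500209359)) (b (a (l 16764648) (b (l 143833197678887119) (l 16764848))) (l 143858280286060751))) (a (l 143888791731159247) (b (l 143862884490903759) (l 143881301309341903))))) (l 16762944))) (l 143795264522027215))) (l 143523410234294479))), by decide +kernel⟩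

def k32_pm_123_a : ∃ t, chk3 f_pm_123_a t 124 63 1 = true :=
  ⟨(b (a (b (a (l 16574528) (l 16660448)) (b (l 594704147803418347610639) (l 141899843529293839))) (b (a (b (l 602246850360401511702543) (l 16750368)) (b (l 602307666970525480951823) (l 601455369639461923315727))) (b (a (l 16742072) (l 600663024413486176460815)) (l 598891848658300520423439)))) (b (a (a (l 141070811599863823) (l 142221931764170767)) (b (l 143724620819038223) (a (l 143475375243558927) (l 143850995967082511)))) (a (b (l 141658707067256847) (b (a (l 140485321562341391) (l 141762954302324751)) (a (l 140331939668639759) (l 14)))) (b (b (l 143812581772017679) (l 143783169834401807)) (b (a (l 143236643744137231) (l 143760767286460431)) (l 14)))))), by decide +kernel⟩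

def k33_pm_123_a : ∃ t, chk3 f_pm_123_a t 125 126 1 = true :=
  ⟨(a (b (l 598033786723012481294415) (a (b (a (l 602299020058347550777423) (l 16767976)) (a (l 16756960) (l 600875738376729025733711))) (b (l 16760568) (a (l 601356506691291647780047) (l 16765080))))) (b (b (l 143708952836194511) (l 143741732029923535)) (b (l 143795882978459855) (l 143707990760947919)))), by decide +kernel⟩

def k34_pm_123_a : ∃ t, chk3 f_pm_123_a t 250 127 1 = true :=
  ⟨(b (a (b (l 143913736872591439) (l 143671363261530191)) (b (b (a (l 601934985129895397139663) (l 16758080)) (a (l 16749896) (l 143751490195128527))) (b (a (l 16745592) (l 143870787196371151)) (l 143834778180321487)))) (b (b (l 143826944154681423) (l 143813475136176207)) (b (a (l 143783238561873999) (l 143803854411481295)) (l 14)))), by decide +kernel⟩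

def k35_pm_123_a : ∃ t, chk3 f_pm_123_a t 251 254 1 = true :=
  ⟨(a (b (l 143900336599564495) (a (b (l 143740220198076623) (l 143667789858586831)) (l 143778977986887887))) (l 143599001656082639)), by decide +kernel⟩

def k36_pm_123_a : ∃ t, chk3 f_pm_123_a t 502 255 1 = true :=
  ⟨(b (b (l 143665934431649999) (l 143652465412178127)) (b (l 143821927640481999) (l 14))), by decide +kernel⟩

def k37_pm_123_a : ∃ t, chk3 f_pm_123_a t 503 510 1 = true :=
  ⟨(b (l 143799868708651215) (a (l 143704211186581711) (l 143785025300218063))), by decide +kernel⟩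

def k38_pm_123_a : ∃ t, chk3 f_pm_123_a t 503 1022 1 = true :=
  ⟨(a (l 143770250600087759) (l 143733142090039503)), by decide +kernel⟩

def k39_pm_123_a : ∃ t, chk3 f_pm_123_a t 503 2046 1 = true :=
  ⟨(a (l 143833472517062863) (a (l 143814231067312335) (l 143894839017423055))), by decide +kernel⟩

def k40_pm_123_a : ∃ t, chk3 f_pm_123_a t 1006 2047 1 = true :=
  ⟨(l 14), by decide +kernel⟩

def k41_pm_123_a : ∃ t, chk3 f_pm_123_a t 1007 4094 1 = true :=
  ⟨(a (a (l 143839725991248079) (l 143851202145288399)) (a (l 143870512320151759) (l 143883569022648527))), by decide +kernel⟩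

def k42_pm_123_a : ∃ t, chk3 f_pm_123_a t 1007 8190 1 = true :=
  ⟨(a (a (l 14) (c (l 143845910745104591) (l 143843711721685199))) (a (c (l 143862953177071823) (l 143860685434192079)) (l 143874841648365775))), by decide +kernel⟩

def k43_pm_123_a : ∃ t, chk3 f_pm_123_a t 1007 16382 1 = true :=
  ⟨(a (a (l 14) (a (l 14) (c (l 143845223550386383) (l 143843024526983375)))) (a (c (l 143858623849677007) (l 143856424826290383)) (c (l 143871611832664271) (l 143869481528754383)))), by decide +kernel⟩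

def k44_pm_123_a : ∃ t, chk3 f_pm_123_a t 1007 16383 1 = true :=
  ⟨(b (a (a (l 14) (c (c (l 143843505563156687) (l 143842406051463375)) (c (l 143841375259246799) (l 143840275747537103)))) (a (c (c (l 143857043301581007) (l 143855943789887695)) (c (l 143854844278177999) (l 143853744766484687))) (c (l 143869481528705231) (l 143867351224795343)))) (a (a (l 14) (a (l 14) (a (l 14) (a (l 14) (b (c (c (l 143845223550451919) (l 143844192758235343)) (c (l 143843161966018767) (l 143842062454309071))) (b (c (c (l 143844879953051855) (l 143843917880312015)) (c (l 143842887088079055) (l 143841787576385743))) (a (l 14) (a (l 14) (c (c (c (c (l 143845429708914895) (l 143845154830991567)) (c (l 143844879953068239) (l 143844673794621647))) (c (c (l 143844398916698319) (l 143844124038774991)) (c (l 143843917880328399) (l 143843643002405071)))) (c (c (c (l 143843368124481743) (l 143843093246558415)) (c (l 143842887088111823) (c (l 143842680929665231) (l 143842543490695375)))) (c (b (l 143842199893295311)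 (c (l 143842268612772047) (l 143841993734848719))) (c (c (l 143841856295895247) (l 143841718856925391)) (c (l 143841581417971919) (l 143841512698478799)))))))))))))) (a (a (b (c (c (l 143850995987071183) (l 143849965194854607)) (c (l 143848934402638031) (l 143847834890928335))) (a (c (c (c (c (l 143848247207739599) (l 143847972329816271)) (c (l 143847697451892943) (l 143847422573969615))) (c (c (l 143847216415523023) (l 143846941537419471)) (c (l 143846666659496143) (l 143846460501049551)))) (c (c (c (l 143846185623126223) (l 143845910745202895)) (c (l 143845635867279567) (l 143845360989307087))) (b (l 143844879953150159) (c (c (l 143844948672463055) (l 143844673794539727)) (c (c (l 143844467636256975) (l 143844330197139663)) (c (l 143844192758169807) (l 143844055319216335))))))) (c (c (c (l 143852988852093135) (l 143852507815723215)) (c (l 143851958059876559) (l 143851477023506639))) (c (c (l 143850927267659983) (l 143850377511813327)) (c (l 143849896475263183) (l 143849346719416527))))))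 (c (c (c (l 143860754153685199) (l 143860204397838543)) (c (l 143859654641664207) (l 143859173605294287))) (c (c (l 143858623849447631) (l 143858074093764815)) (c (l 143857524337918159) (l 143856974582071503))))) (a (c (c (c (l 143867419943862479) (l 143866870188015823)) (c (l 143866389151645903) (l 143865839395799247))) (c (c (l 143865289639952591) (l 143864739884105935)) (c (l 143864190128275663) (l 143863640372429007)))) (c (c (l 143869893845614799) (l 143868931772874959)) (c (l 143867900980658383) (c (l 143867145066709199) (l 143866595310862543)))))))), by decide +kernel⟩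

def k45_pm_123_a : ∃ t, chk3 f_pm_123_a t 126 124 1 = true :=
  ⟨(l 4), by decide +kernel⟩

def k46_pm_123_a : ∃ t, chk3 f_pm_123_a t 504 500 1 = true :=
  ⟨(a (b (a (b (a (b (a (b (a (l 2656672124711) (l 4)) (a (l 16765280) (l 2248113360247))) (l 4)) (a (l 143851064741937359) (b (a (l 1797141793927) (l 4)) (l 143845361026531535)))) (b (l 4) (a (b (l 4) (a (l 2655061511591) (l 4))) (l 4)))) (a (b (a (l 16764672) (l 16764912)) (l 143873054952734927)) (b (a (b (a (l 16765416) (l 2241134038343)) (l 16765200)) (b (l 4) (a (l 1785330634135) (l 55198343997927990628916166863)))) (a (l 16764936) (b (l 143857249474838735) (l 16765144)))))) (b (l 4) (a (b (l 4) (a (b (a (l 47790046575329737522435277007) (l 4)) (a (l 16765568) (l 40246349460934464597688697039))) (l 4))) (l 4)))) (a (b (a (b (l 143885012162019535) (l 16763928)) (b (l 143883294176067791) (l 143888241956896975))) (a (l 16763832) (l 143912018915590351))) (b (a (b (a (l 143874841681510607) (b (a (l 143856493583384783) (l 55256372437269504305454694607))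 (l 143869000505704655))) (a (l 16765000) (l 16765248))) (b (a (b (l 4) (a (l 47770703762215915069231562959) (l 4))) (l 4)) (a (b (a (l 16765744) (l 40130292582251471810508505295)) (l 16765536)) (b (l 4) (a (l 143868107153850575) (l 55324072283167934809232310479)))))) (a (b (a (l 16764928) (l 16765040)) (l 143909888613204175)) (b (a (l 16765296) (b (l 11241801196740317240982995151) (l 16765512))) (a (l 16765272) (l 16765344))))))) (b (l 4) (a (b (l 4) (a (b (a (b (a (l 47751360949101912227401466063) (l 4)) (a (l 16765928) (l 40014235703568478817170227407))) (l 4)) (a (l 143897862664044751) (b (a (l 143879583317590223) (l 55401443535623282140249194703)) (l 11183772757398826379310497999)))) (b (l 4) (a (b (l 4) (a (l 47741689542545006326559129807) (l 4))) (l 4))))) (l 4)))), by decide +kernel⟩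

def k47_pm_123_a : ∃ t, chk3 f_pm_123_a t 504 501 1 = true :=
  ⟨(a (b (a (l 16763688) (b (a (l 16764456) (b (l 143912774821494991) (l 16764624))) (l 16764392))) (l 16763832)) (b (a (b (a (b (a (l 16765400) (l 16760416)) (a (l 143920127816712399) (l 16765632))) (b (a (b (a (l 16766136) (l 39917521637999319684468211919)) (l 16765936)) (b (l 4) (a (l 31358326835127756947298910287) (l 55478814788078719356341846095)))) (a (l 16765720) (b (a (l 16766008) (l 143901023804817487)) (l 16765952))))) (a (b (l 143933528113987791) (l 16765080)) (b (a (l 143923357632987343) (l 16765792)) (a (l 16765248) (l 143933528115544143))))) (b (a (b (l 4) (a (b (a (l 47741689542545017252956061775) (l 4)) (a (l 16766360) (l 39820807572430160414327930959))) (l 4))) (l 4)) (a (b (a (l 143920059077427279) (b (a (l 31164898703989427343181807695) (l 55565857447090957950952833103)) (a (l 16766248) (l 143912087641047119)))) (a (l 16765832) (l 143929473667285071))) (b (a (b (l 4) (a (l 47751360949101945075311722575)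 (l 4))) (l 4)) (a (b (a (l 16766600) (l 39733764913417737788958228559)) (l 16761168)) (b (l 4) (a (l 30981141979408014635023433807) (l 55662571512660135912791113807)))))))) (a (b (a (l 16764848) (l 143954281396011087)) (l 16764864)) (b (a (b (a (l 143943904756482127) (l 143936620492865615)) (l 143955861944926287)) (b (a (l 16766216) (b (a (l 16766504) (l 143922945318879311)) (l 16766456))) (a (l 143946516097581135) (l 16766280)))) (a (l 16765576) (b (a (l 16765816) (l 143956755299598415)) (l 16766008))))))), by decide +kernel⟩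

def k48_pm_123_a : ∃ t, chk3 f_pm_123_a t 505 250 1 = true :=
  ⟨(b (l 2) (a (b (l 4) (a (b (a (b (a (b (a (l 47761032355658872691508985935) (l 4)) (a (l 16766848) (l 39646722254405495208618278991))) (l 4)) (a (b (l 143938613358772303) (l 16766536)) (b (a (l 30797385254826601720706990159) (b (l 4) (l 3056640958535))) (a (l 16766768) (l 143933734277251151))))) (b (l 4) (a (b (l 4) (a (b (l 4) (l 2391457898391)) (l 4))) (l 4)))) (a (b (a (l 143949471035949135) (l 143950776706170959)) (a (l 143966788343169103) (l 143959023043346511))) (b (a (b (a (l 16761872) (l 39569351001950169455517237327)) (l 143949196158746703)) (b (l 4) (a (l 30613628530245188668951625807) (b (l 4) (l 3050735379047))))) (a (l 143959572799340623) (b (a (l 16767048) (l 143944317077225551)) (l 16767008)))))) (b (l 4) (a (b (l 4) (a (a (a (b (l 43950498172233773944741052495) (l 16767216)) (l 6)) (l 6)) (l 4))) (l 4))))) (l 4))), by decide +kernel⟩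

def k49_pm_123_a : ∃ t, chk3 f_pm_123_a t 252 251 1 = true :=
  ⟨(a (l 143489737643032655) (b (a (b (a (b (a (l 143803304696496207) (b (a (l 143969262245380175) (l 143962046701174863)) (a (l 16766608) (l 143979432727904335)))) (l 16766296)) (b (a (b (a (b (l 143959641519784015) (l 16767104)) (b (l 6) (a (l 16767336) (l 6)))) (a (l 143971186391777359) (l 143971736147738703))) (b (l 6) (a (b (l 6) (l 143969949441900623)) (l 6)))) (a (b (a (l 143988366259978319) (l 143981288133427279)) (l 16766712)) (b (a (l 143978264498126927) (b (a (l 16767640) (l 6)) (l 16767608))) (a (l 143991458637447247) (b (l 16767520) (l 16767568))))))) (a (l 16766096) (b (a (l 16766896) (b (l 143823508225081423) (l 16767336))) (l 16766944)))) (b (a (b (l 4) (a (b (l 6) (a (b (l 143980188644573263) (l 16767720)) (b (l 6) (a (l 16767952) (l 6))))) (l 6))) (l 4)) (a (b (a (b (a (b (l 16767760) (l 16762360)) (b (l 16767928) (l 16767840))) (a (l 16767352) (l 143822958470922319))) (b (a (b (l 6) (l 143990221688832079))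 (l 6)) (a (b (l 16768048) (l 16768112)) (b (a (l 16768280) (l 6)) (l 16768256))))) (a (l 16767640) (b (a (l 144013242712719439) (b (l 16768160) (l 144009600581353551))) (l 143843574281420879)))) (b (l 6) (a (b (a (b (l 144000254733107279) (l 16768384)) (l 6)) (a (b (l 144010356496138319) (l 144019839783403599)) (b (l 16768592) (l 16768648)))) (b (l 6) (a (b (l 6) (l 144010150338445391)) (l 6)))))))) (a (l 143867351260971087) (b (a (l 16767600) (b (a (b (a (l 16768128) (b (l 144020252100886607) (l 16768272))) (l 16768408)) (b (a (b (l 16768720) (l 144020733137813583)) (b (l 6) (l 16768936))) (a (l 143853882247462991) (b (l 144021763930439759) (l 144030834900942927))))) (a (l 16768368) (b (l 143862472181989455) (l 16768800))))) (l 16762648))))), by decide +kernel⟩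

def k50_pm_123_a : ∃ t, chk3 f_pm_123_a t 253 125 1 = true :=
  ⟨(b (l 2) (a (b (l 4) (a (b (a (b (a (b (l 6) (a (b (l 144019977224323151) (l 16769056)) (l 6))) (l 6)) (a (b (a (b (l 144031178498932815) (l 16763584)) (b (l 16767320) (l 144031728255303759))) (a (l 16769024) (l 143865633271119951))) (b (a (b (l 6) (l 144029666671263823)) (l 6)) (a (b (l 144036057582354511) (l 144041623860068431)) (b (l 6) (l 144036607338692687)))))) (b (l 4) (l 6))) (a (b (a (l 16769128) (b (a (l 143873536019251279) (b (l 143861784990056527) (l 144051863062102095))) (l 16769488))) (l 16769264)) (b (a (b (a (b (l 6) (l 144042929531207759)) (l 6)) (a (b (l 143871955472662607) (l 16769544)) (b (l 144047052699844687) (l 143872161610235983)))) (l 6)) (a (b (a (l 16769776) (l 143886042943635535)) (l 16769912)) (b (a (b (l 143872780086067279) (l 143882606992179279)) (b (l 6) (l 143877453031882831))) (a (l 16764592) (b (l 143882606971338831) (l 143892296438431823)))))))) (b (l 2) (a (b (l 4) (a (b (l 6) (a (b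 (l 6) (a (l 16770504) (l 6))) (l 6))) (l 6))) (l 4))))) (l 2))), by decide +kernel⟩

def k51_pm_123_a : ∃ t, chk3 f_pm_123_a t 127 62 1 = true :=
  ⟨(l 2), by decide +kernel⟩

def k52_pm_123_a : ∃ t, chk3 f_pm_123_a t 252 126 1 = true :=
  ⟨(b (a (l 143496403452657743) (l 143747848051195983)) (b (l 143575362174697551) (l 143785162741301327))), by decide +kernel⟩

def k53_pm_123_a : ∃ t, chk3 f_pm_123_a t 506 252 1 = true :=
  ⟨(b (a (b (a (l 16769216) (l 16759416)) (l 16769688)) (b (a (b (a (b (a (b (l 143890303574179919) (l 16770320)) (b (a (l 16770696) (l 6)) (a (l 16770504) (l 16770784)))) (a (l 16770504) (l 143899030947594319))) (b (l 6) (a (b (a (l 16768184) (l 6)) (l 143893395951206479)) (l 6)))) (a (l 16770632) (b (a (l 16770800) (b (a (l 16770792) (l 144066775191961679)) (l 16770736))) (l 16770936)))) (b (l 6) (a (b (a (b (l 6) (a (l 143889959978319951) (l 6))) (l 6)) (a (b (l 143896419608772687) (l 16771128)) (b (l 6) (a (l 16771088) (l 143889685101002831))))) (l 6)))) (a (l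 16770704) (b (a (b (a (l 16771192) (l 143902810520240207)) (l 16771320)) (b (a (b (a (l 143893189794299983) (l 6)) (l 143899237107925071)) (l 6)) (a (l 16771472) (b (a (l 16771400) (l 6)) (l 16771600))))) (l 16771416))))) (a (l 16760064) (l 143947409417797711))), by decide +kernel⟩

def k54_pm_123_a : ∃ t, chk3 f_pm_123_a t 507 252 1 = true :=
  ⟨(b (a (b (l 4) (a (b (a (b (l 6) (a (b (l 6) (a (l 143896557049184335) (l 6))) (l 6))) (l 6)) (a (b (a (b (l 143901917168123983) (l 16771784)) (b (l 6) (a (l 16771736) (l 6)))) (l 16771872)) (b (l 6) (a (b (a (l 143899855584608335) (l 6)) (l 143904322350432335)) (l 6))))) (b (l 4) (l 6)))) (l 2)) (a (b (a (b (a (l 16771984) (b (a (l 16772112) (b (a (l 16772168) (l 6)) (l 16772232))) (l 16772232))) (l 16772136)) (b (a (b (l 6) (a (l 143910369643266127) (b (l 6) (a (l 16772472) (l 6))))) (l 6)) (a (l 16772504) (b (a (b (l 6) (l 16772656)) (l 6)) (a (l 16772712) (b (l 143909407582371919) (l 16772824))))))) (l 143935520950108239)) (b (a (b (l 4)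 (l 6)) (l 2)) (a (b (a (b (a (l 16772952) (b (l 6) (l 143912293790203983))) (l 16773064)) (b (l 6) (a (b (l 6) (l 16773224)) (l 6)))) (a (l 16773184) (b (a (l 16773280) (b (l 143914905109413967) (l 16773376))) (l 16773392)))) (b (a (l 6) (l 4)) (a (b (l 6) (a (l 16773504) (l 6))) (l 6))))))), by decide +kernel⟩

def k55_pm_123_a : ∃ t, chk3 f_pm_123_a t 253 253 1 = true :=
  ⟨(a (b (a (l 143973179269021775) (l 16767544)) (l 601142063396781715285583)) (b (a (l 143957717385969743) (b (a (l 16762824) (b (a (l 16773616) (b (a (b (l 6) (l 16773752)) (l 6)) (l 16773808))) (l 16773800))) (l 143950639238660175))) (a (l 603018443127524856456783) (l 602505104644942290462287)))), by decide +kernel⟩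

def k56_pm_123_a : ∃ t, chk3 f_pm_123_a t 126 127 1 = true :=
  ⟨(a (b (a (l 143859517208002639) (l 143854706854723663)) (b (a (l 143872505168199759) (b (l 143949402284884047) (l 143890784563544143))) (a (b (l 143786674553552975) (b (l 143838282887331919) (a (b (l 143898137556566223) (a (b (l 143883500305285327) (a (a (c (c (l 143874841649397967) (l 143873879576314063)) (c (l 143872917503590607) (l 143871886711374031))) (c (c (l 143877590429401295) (l 143876697076154575)) (c (l 143875735003414735) (l 143874772930674895)))) (c (c (l 143881782318907599) (l 143880888965660879)) (c (l 143880064331874511) (l 143879170978627791))))) (a (b (l 143892021523284175) (b (l 143887554756231375) (c (l 143885424452255951) (l 143883912623669455)))) (c (l 143895388778692815) (l 143894014389059791))))) (a (b (l 143915179992678479) (c (l 143903635118473295) (l 143902535606763599))) (c (l 143875597574766671) (l 143874772938293327)))))) (b (a (l 144001835269390415) (l 602964832335353744287311)) (a (a (a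 (l 143895732384317519) (l 143901161223618639)) (l 143908995246948431)) (b (a (l 143977096259207247) (l 603419371601917509576271)) (a (b (l 143957442486616143) (a (l 143942324199358543) (l 603508722978873395471951))) (b (l 603653126417047897204303) (a (l 603595480326630548055631) (l 603777786203236301198863)))))))))) (b (a (b (l 602280573390827318634063) (l 602780941327400107320911)) (b (l 602547474687945159386703) (l 602897674602459916428879))) (b (a (a (a (l 603309267557064567023183) (l 603734407369653646861903)) (l 603790035848468727981647)) (b (l 603991797119059192014415) (l 604040796274277609367119))) (b (a (a (l 603751989511315774940751) (l 604004047048515373700623)) (l 604250484020125115602447)) (a (b (a (a (l 603798682785729259152975) (l 604179867577967949649423)) (l 604398346203090952443407)) (a (a (a (l 603945824512532751783439) (l 604131733105150607709711)) (a (l 604317929928144615314959) (l 604502685599257864295951))) (l 604613366063700115084815))) (a (l 604697529333536422893071)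 (b (l 604370387856604246758927) (a (l 604615671906709349553679) (l 604637289184920729572879))))))))), by decide +kernel⟩

def k57_pm_123_a : ∃ t, chk3 f_pm_123_a t 127 126 1 = true :=
  ⟨(a (b (l 4) (a (b (a (b (a (b (l 6) (a (b (a (l 16774016) (l 6)) (l 16774112)) (b (l 6) (a (b (l 6) (l 16774240)) (l 6))))) (b (l 2) (a (l 6) (l 4)))) (a (b (l 143926106386464847) (l 16774408)) (b (a (b (l 6) (a (l 16774488) (l 6))) (l 6)) (a (l 16774592) (b (a (b (l 6) (l 16774704)) (l 6)) (l 16774752)))))) (b (l 2) (a (b (l 4) (l 6)) (l 2)))) (a (b (l 143947134546706511) (l 143949677211893839)) (b (a (b (a (b (a (l 16774928) (l 6)) (l 16775016)) (l 6)) (l 143931878824083535)) (b (a (l 6) (l 2)) (a (b (l 6) (a (l 16775336) (l 6))) (l 6)))) (a (l 143945828878598223) (b (a (l 16775432) (b (l 6) (l 16775544))) (l 16765104)))))) (b (l 2) (a (b (l 4) (a (b (l 6) (a (b (a (l 16775704) (l 6)) (l 16775784)) (l 6))) (b (l 2) (a (l 6) (l 2))))) (l 2))))) (l 2)), by decide +kernel⟩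

def k58_pm_123_a : ∃ t, chk3 f_pm_123_a t 254 127 1 = true :=
  ⟨(b (a (b (a (l 602716089451328122316367) (b (l 602704560234220469642831) (l 603501517220088064271951))) (b (l 603581645265895191569999) (l 603711637166776565524047))) (b (a (b (a (l 603293126652151780025935) (b (a (b (l 6) (l 16775992)) (l 6)) (a (l 16776120) (b (l 6) (l 16776200))))) (b (l 603433206616061024904783) (l 603616232910552361117263))) (b (a (b (l 4) (l 6)) (l 2)) (a (b (a (l 143933047057662031) (l 6)) (l 603432918381699144197711)) (b (a (l 6) (l 2)) (a (b (l 6) (l 16776520)) (l 6)))))) (a (b (l 603256809627093129717327) (l 603700396173585432733263)) (b (a (l 603590003944467129411151) (b (a (l 16776656) (b (l 6) (l 16776704))) (l 603564351434323838019151))) (b (l 603616232906978948408911) (l 603627762119551115519567)))))) (a (b (b (l 603858922891670151554639) (l 603934439250428059870799)) (b (l 604336232377741113960015) (a (b (l 604355399877044358010383) (l 604655735928994439435791)) (l 604596360471507187930639))))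 (a (b (b (l 603798970962160642549327) (l 603865263950256042649167)) (b (l 604284495204511038674447) (b (l 604325423917924579726863) (l 604534967401386872509967)))) (b (b (l 603673878978086122186319) (l 603781677139522777687631)) (b (l 604171652922912301540943) (a (l 604437545534247594874383) (l 604356120396634765452879))))))), by decide +kernel⟩

def k59_pm_123_a : ∃ t, chk3 f_pm_123_a t 255 127 1 = true :=
  ⟨(b (a (b (l 4) (a (b (a (b (l 6) (a (l 143934146570059855) (l 6))) (b (l 2) (a (l 6) (l 2)))) (a (b (l 603553975136865366353487) (l 603593462708156316608079)) (b (a (b (l 6) (l 143930848035930191)) (l 6)) (a (l 603566657273416041784911) (b (l 6) (l 16777064)))))) (b (l 2) (a (b (l 4) (l 6)) (l 2))))) (l 2)) (a (a (b (b (b (b (l 603572998349800298833487) (l 603582798181283786876495)) (l 603597209698854421866063)) (b (l 603627762117695711290959) (l 603658602767256749860431))) (b (b (l 604067889901048583415375) (l 604057225554770838562383)) (b (l 604221516774413155051087) (a (l 604325279791329069573711)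 (l 144107800730271823))))) (a (b (b (b (a (l 603549075217653310170703) (l 6)) (l 603755159943611181327951)) (b (l 603591733321982417413711) (l 603610468294851752158799))) (b (l 604100171792581624653391) (l 144091101892673615))) (b (b (b (a (l 6) (l 2)) (a (b (l 6) (l 603574151259278997661263)) (l 6))) (b (a (l 603584815791236789577295) (b (l 6) (l 603593462698054575121999))) (l 603937898092457478284879))) (b (b (l 603982285569010441610831) (l 144028086127951951)) (b (l 144116940421775439) (l 144102852928389199)))))) (b (a (b (l 4) (a (b (l 6) (a (b (l 603969603427855572510287) (l 143939506712100943)) (l 6))) (a (b (l 2) (l 6)) (l 2)))) (l 2)) (a (a (b (a (b (l 144029666665365583) (l 144028429725417551)) (b (b (l 603978538573570724505167) (l 144029735384907855)) (l 144031247224488015))) (b (l 144072478909677647) (l 144104983229759567))) (a (b (a (b (b (l 6) (l 16777208)) (l 144031384663507023)) (b (l 6) (l 144073509707595855))) (b (l 144072204037210191) (l 144106014023483471))) (b (b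 (l 6) (b (l 6) (l 604188658562452987504207))) (b (b (l 144072616354332751) (l 144072410201112655)) (l 144111992618106959))))) (b (a (b (l 4) (l 6)) (l 2)) (b (a (a (b (a (l 144074265622200399) (l 6)) (l 144094469150556239)) (l 6)) (a (l 6) (l 2))) (a (a (b (l 144095018908958799) (l 144112130057814095)) (a (b (l 144094675311706191) (l 144112061338501199)) (b (l 6) (l 144114741398192207)))) (a (a (b (l 6) (b (l 6) (l 144114603959631951))) (l 6)) (l 6))))))))), by decide +kernel⟩

theorem s60_pm_123_a : ∃ t, chk3 f_pm_123_a t 127 127 1 = true := ex3_a k58_pm_123_a k59_pm_123_a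

theorem s61_pm_123_a : ∃ t, chk3 f_pm_123_a t 127 63 1 = true := ex3_b k57_pm_123_a s60_pm_123_a

theorem s62_pm_123_a : ∃ t, chk3 f_pm_123_a t 253 252 1 = true := ex3_a k53_pm_123_a k54_pm_123_a

theorem s63_pm_123_a : ∃ t, chk3 f_pm_123_a t 253 126 1 = true := ex3_b s62_pm_123_a k55_pm_123_a

theorem s64_pm_123_a : ∃ t, chk3 f_pm_123_a t 126 126 1 = true := ex3_a k52_pm_123_a s63_pm_123_a

theorem s65_pm_123_a : ∃ t, chk3 f_pm_123_a t 126 63 1 = true := ex3_b s64_pm_123_a k56_pm_123_a

theorem s66_pm_123_a : ∃ t, chk3 f_pm_123_a t 63 63 1 = true := ex3_a s65_pm_123_a s61_pm_123_a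

theorem s67_pm_123_a : ∃ t, chk3 f_pm_123_a t 504 250 1 = true := ex3_b k46_pm_123_a k47_pm_123_a

theorem s68_pm_123_a : ∃ t, chk3 f_pm_123_a t 252 250 1 = true := ex3_a s67_pm_123_a k48_pm_123_a

theorem s69_pm_123_a : ∃ t, chk3 f_pm_123_a t 252 125 1 = true := ex3_b s68_pm_123_a k49_pm_123_a

theorem s70_pm_123_a : ∃ t, chk3 f_pm_123_a t 126 125 1 = true := ex3_a s69_pm_123_a k50_pm_123_a

theorem s71_pm_123_a : ∃ t, chk3 f_pm_123_a t 126 62 1 = true := ex3_b k45_pm_123_a s70_pm_123_a

theorem s72_pm_123_a : ∃ t, chk3 f_pm_123_a t 63 62 1 = true := ex3_a s71_pm_123_a k51_pm_123_a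

theorem s73_pm_123_a : ∃ t, chk3 f_pm_123_a t 63 31 1 = true := ex3_b s72_pm_123_a s66_pm_123_a

theorem s74_pm_123_a : ∃ t, chk3 f_pm_123_a t 1007 8191 1 = true := ex3_b k43_pm_123_a k44_pm_123_a

theorem s75_pm_123_a : ∃ t, chk3 f_pm_123_a t 1007 4095 1 = true := ex3_b k42_pm_123_a s74_pm_123_a

theorem s76_pm_123_a : ∃ t, chk3 f_pm_123_a t 1007 2047 1 = true := ex3_b k41_pm_123_a s75_pm_123_a

theorem s77_pm_123_a : ∃ t, chk3 f_pm_123_a t 503 2047 1 = true := ex3_a k40_pm_123_a s76_pm_123_a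

theorem s78_pm_123_a : ∃ t, chk3 f_pm_123_a t 503 1023 1 = true := ex3_b k39_pm_123_a s77_pm_123_a

theorem s79_pm_123_a : ∃ t, chk3 f_pm_123_a t 503 511 1 = true := ex3_b k38_pm_123_a s78_pm_123_a

theorem s80_pm_123_a : ∃ t, chk3 f_pm_123_a t 503 255 1 = true := ex3_b k37_pm_123_a s79_pm_123_a

theorem s81_pm_123_a : ∃ t, chk3 f_pm_123_a t 251 255 1 = true := ex3_a k36_pm_123_a s80_pm_123_a

theorem s82_pm_123_a : ∃ t, chk3 f_pm_123_a t 251 127 1 = true := ex3_b k35_pm_123_a s81_pm_123_a

theorem s83_pm_123_a : ∃ t, chk3 f_pm_123_a t 125 127 1 = true := ex3_a k34_pm_123_a s82_pm_123_a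

theorem s84_pm_123_a : ∃ t, chk3 f_pm_123_a t 125 63 1 = true := ex3_b k33_pm_123_a s83_pm_123_a

theorem s85_pm_123_a : ∃ t, chk3 f_pm_123_a t 62 63 1 = true := ex3_a k32_pm_123_a s84_pm_123_a

theorem s86_pm_123_a : ∃ t, chk3 f_pm_123_a t 251 249 1 = true := ex3_a k29_pm_123_a k30_pm_123_a

theorem s87_pm_123_a : ∃ t, chk3 f_pm_123_a t 251 124 1 = true := ex3_b k28_pm_123_a s86_pm_123_a

theorem s88_pm_123_a : ∃ t, chk3 f_pm_123_a t 125 124 1 = true := ex3_a k27_pm_123_a s87_pm_123_a

theorem s89_pm_123_a : ∃ t, chk3 f_pm_123_a t 125 62 1 = true := ex3_b s88_pm_123_a k31_pm_123_a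

theorem s90_pm_123_a : ∃ t, chk3 f_pm_123_a t 62 62 1 = true := ex3_a k26_pm_123_a s89_pm_123_a

theorem s91_pm_123_a : ∃ t, chk3 f_pm_123_a t 62 31 1 = true := ex3_b s90_pm_123_a s85_pm_123_a

theorem s92_pm_123_a : ∃ t, chk3 f_pm_123_a t 31 31 1 = true := ex3_a s91_pm_123_a s73_pm_123_a

theorem s93_pm_123_a : ∃ t, chk3 f_pm_123_a t 124 61 1 = true := ex3_b k22_pm_123_a k23_pm_123_a

theorem s94_pm_123_a : ∃ t, chk3 f_pm_123_a t 62 61 1 = true := ex3_a s93_pm_123_a k24_pm_123_a

theorem s95_pm_123_a : ∃ t, chk3 f_pm_123_a t 62 30 1 = true := ex3_b k21_pm_123_a s94_pm_123_a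

theorem s96_pm_123_a : ∃ t, chk3 f_pm_123_a t 31 30 1 = true := ex3_a s95_pm_123_a k25_pm_123_a

theorem s97_pm_123_a : ∃ t, chk3 f_pm_123_a t 31 15 1 = true := ex3_b s96_pm_123_a s92_pm_123_a

theorem s98_pm_123_a : ∃ t, chk3 f_pm_123_a t 123 60 1 = true := ex3_b k17_pm_123_a k18_pm_123_a

theorem s99_pm_123_a : ∃ t, chk3 f_pm_123_a t 61 60 1 = true := ex3_a k16_pm_123_a s98_pm_123_a

theorem s100_pm_123_a : ∃ t, chk3 f_pm_123_a t 61 30 1 = true := ex3_b s99_pm_123_a k19_pm_123_a

theorem s101_pm_123_a : ∃ t, chk3 f_pm_123_a t 30 30 1 = true := ex3_a k15_pm_123_a s100_pm_123_a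

theorem s102_pm_123_a : ∃ t, chk3 f_pm_123_a t 30 15 1 = true := ex3_b s101_pm_123_a k20_pm_123_a

theorem s103_pm_123_a : ∃ t, chk3 f_pm_123_a t 15 15 1 = true := ex3_a s102_pm_123_a s97_pm_123_a

theorem s104_pm_123_a : ∃ t, chk3 f_pm_123_a t 60 29 1 = true := ex3_b k11_pm_123_a k12_pm_123_a

theorem s105_pm_123_a : ∃ t, chk3 f_pm_123_a t 30 29 1 = true := ex3_a s104_pm_123_a k13_pm_123_a

theorem s106_pm_123_a : ∃ t, chk3 f_pm_123_a t 30 14 1 = true := ex3_b k10_pm_123_a s105_pm_123_a

theorem s107_pm_123_a : ∃ t, chk3 f_pm_123_a t 15 14 1 = true := ex3_a s106_pm_123_a k14_pm_123_a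

theorem s108_pm_123_a : ∃ t, chk3 f_pm_123_a t 15 7 1 = true := ex3_b s107_pm_123_a s103_pm_123_a

theorem s109_pm_123_a : ∃ t, chk3 f_pm_123_a t 29 14 1 = true := ex3_b k7_pm_123_a k8_pm_123_a

theorem s110_pm_123_a : ∃ t, chk3 f_pm_123_a t 14 14 1 = true := ex3_a k6_pm_123_a s109_pm_123_a

theorem s111_pm_123_a : ∃ t, chk3 f_pm_123_a t 14 7 1 = true := ex3_b s110_pm_123_a k9_pm_123_a

theorem s112_pm_123_a : ∃ t, chk3 f_pm_123_a t 7 7 1 = true := ex3_a s111_pm_123_a s108_pm_123_a

theorem s113_pm_123_a : ∃ t, chk3 f_pm_123_a t 7 3 1 = true := ex3_b k5_pm_123_a s112_pm_123_a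

theorem s114_pm_123_a : ∃ t, chk3 f_pm_123_a t 6 3 1 = true := ex3_b k3_pm_123_a k4_pm_123_a

theorem s115_pm_123_a : ∃ t, chk3 f_pm_123_a t 3 3 1 = true := ex3_a s114_pm_123_a s113_pm_123_a

theorem s116_pm_123_a : ∃ t, chk3 f_pm_123_a t 3 1 1 = true := ex3_b k2_pm_123_a s115_pm_123_a

theorem s117_pm_123_a : ∃ t, chk3 f_pm_123_a t 2 1 1 = true := ex3_b k0_pm_123_a k1_pm_123_a

theorem s118_pm_123_a : ∃ t, chk3 f_pm_123_a t 1 1 1 = true := ex3_a s117_pm_123_a s116_pm_123_a

theorem c_pm_123_a : CertB 536870912 536870912 0 536870912 1045395039 1503240 3 eng mog cd0q1 cd1q2a pd3 true true false .npn 1 2 3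
    ndB0q1 ndB1q2a pcB3 cut_pm_123_a xt_pm_123_a :=
  certB0 (fam := true) (s1 := true) (s2 := false) (a := 1) (b := 2) (c := 3) (cn := .npn) (n1 := ndB0q1) (n2 := ndB1q2a) (pc := pcB3) (cut := cut_pm_123_a) (xt := xt_pm_123_a) (P1 := 536870912) (W1 := 536870912) (P2 := 0) (W2 := 536870912) (P3 := 1045395039) (W3 := 1503240) (N0 := 3) (En := eng) (mo := mog) (C1 := cd0q1) (C2 := cd1q2a) (C3 := pd3)
    rfl s118_pm_123_a

noncomputable def cut_pm_123_b : Cut := Cut.of [[⟨0, 1, 0, 14155776⟩, ⟨1, 1, 0, 14155776⟩, ⟨2, 2, 0, 524288⟩], [⟨0, 0, 1, 46137344⟩, ⟨1, 1, 0, 1048576⟩, ⟨2, 1, 1, 46137344⟩, ⟨0, 0, 0, 1056440320⟩, ⟨0, 1, 0, 33457795⟩, ⟨2, 1, 0, 1056440320⟩, ⟨2, 2, 0, 33457795⟩]]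

noncomputable def f_pm_123_b : ℕ → ℕ → ℕ → ℕ → Bool := onCell 1610612736 536870912 1239849684 370763052 1045395039 1503240
    (rowB 3 eng mog cd0q1 cd1q2b pd3 2 true true false .npn 1 2 3 (qsf 536870912 536870912 1239849684 370763052 3) ndB0q1 ndB1q2b pcB3 cut_pm_123_b Ext.none)

def k0_pm_123_b : ∃ t, chk3 f_pm_123_b t 1 1 1 = true :=
  ⟨(a (b (a (l 1) (b (a (b (a (b (l 16604624) (l 1)) (b (l 16629560) (l 16620056))) (l 1)) (b (a (b (l 16657024) (l 16629008)) (b (l 16630032) (l 16639128))) (a (l 16570368) (l 16585184)))) (a (l 1) (a (l 1) (l 91837426471))))) (l 1)) (a (b (b (a (a (b (b (a (l 16680632) (l 16688576)) (l 16653768)) (l 16604328)) (b (b (a (l 16698720) (l 16711512)) (l 16676368)) (l 16630128))) (a (b (a (b (l 16706336) (l 16698904)) (b (a (l 16739840) (l 16725208)) (l 4))) (l 78080721847)) (l 4))) (a (a (b (l 16531840) (l 1)) (b (l 16560008) (l 16480096))) (l 4))) (a (l 1) (l 4))) (l 4))), by decide +kernel⟩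

theorem c_pm_123_b : CertB 536870912 536870912 1239849684 370763052 1045395039 1503240 3 eng mog cd0q1 cd1q2b pd3 true true false .npn 1 2 3
    ndB0q1 ndB1q2b pcB3 cut_pm_123_b Ext.none :=
  certB2 (fam := true) (s1 := true) (s2 := false) (a := 1) (b := 2) (c := 3) (cn := .npn) (n1 := ndB0q1) (n2 := ndB1q2b) (pc := pcB3) (cut := cut_pm_123_b) (xt := Ext.none) (P1 := 536870912) (W1 := 536870912) (P2 := 1239849684) (W2 := 370763052) (P3 := 1045395039) (W3 := 1503240) (N0 := 3) (En := eng) (mo := mog) (C1 := cd0q1) (C2 := cd1q2b) (C3 := pd3)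
    rfl (fun _ => rfl) k0_pm_123_b

noncomputable def f_pm_133 : ℕ → ℕ → ℕ → ℕ → Bool := onCell 536870912 536870912 1610612736 536870912 1045395039 1503240
    (rowB 3 eng mog cd0q1 cd1q3 pd3 0 true true false .dn 1 3 3 (qsf 536870912 536870912 1610612736 536870912 3) ndB0q1 ndB1q3 pcB3 Cut.none Ext.none)

def k0_pm_133 : ∃ t, chk3 f_pm_133 t 1 1 1 = true :=
  ⟨(l 4), by decide +kernel⟩

theorem c_pm_133 : CertB 536870912 536870912 1610612736 536870912 1045395039 1503240 3 eng mog cd0q1 cd1q3 pd3 true true false .dn 1 3 3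
    ndB0q1 ndB1q3 pcB3 Cut.none Ext.none :=
  certB0 (fam := true) (s1 := true) (s2 := false) (a := 1) (b := 3) (c := 3) (cn := .dn) (n1 := ndB0q1) (n2 := ndB1q3) (pc := pcB3) (cut := Cut.none) (xt := Ext.none) (P1 := 536870912) (W1 := 536870912) (P2 := 1610612736) (W2 := 536870912) (P3 := 1045395039) (W3 := 1503240) (N0 := 3) (En := eng) (mo := mog) (C1 := cd0q1) (C2 := cd1q3) (C3 := pd3)
    rfl k0_pm_133

noncomputable def cut_pm_202 : Cut := Cut.of [[⟨0, 1, 0, 22369621⟩, ⟨1, 0, 0, 22369621⟩, ⟨2, 1, 0, 22369621⟩]]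

noncomputable def f_pm_202 : ℕ → ℕ → ℕ → ℕ → Bool := onCell 0 536870912 1073741824 536870912 1045395039 1503240
    (rowB 3 eng mog cd0q2 cd1q0 pd2 1 true true false .pp 2 0 2 (qsf 0 536870912 0 536870912 2) ndB0q2 ndB1q0 pcB2 cut_pm_202 Ext.none)

def k0_pm_202 : ∃ t, chk3 f_pm_202 t 2 1 1 = true :=
  ⟨(b (a (b (l 1) (b (b (a (l 16252136) (l 16291768)) (a (l 16180424) (l 16175832))) (b (a (l 15850760) (l 15875128)) (a (l 15533360) (l 15584736))))) (b (b (l 1) (b (l 1) (a (l 1) (b (l 1) (l 16415104))))) (b (b (a (l 16270504) (l 16231376)) (a (l 16160832) (l 16129152))) (a (b (l 15888208) (l 15624248)) (b (l 15883856) (l 15645848)))))) (b (a (b (a (b (l 15231736) (l 14948896)) (b (l 15308048) (l 15047960))) (a (b (b (l 14750576) (l 14640848)) (a (a (b (l 14509672) (l 14544224)) (b (l 14498224) (l 14406416))) (l 14487144))) (l 14590160))) (b (a (b (l 15372160) (l 15134696)) (l 15267528)) (a (l 14811776) (l 14910672)))) (b (a (a (b (a (l 14532600) (b (l 14353968) (a (l 14328728) (l 14268008))))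 (b (a (l 14630144) (l 14312784)) (l 14550664))) (b (l 14391608) (a (a (b (l 14209024) (a (l 14184160) (l 14151232))) (l 14201048)) (l 14261376)))) (a (l 14452416) (l 14584288))) (a (a (b (l 14698328) (l 14941128)) (b (a (a (l 14278272) (a (l 14154352) (l 14096072))) (l 14137896)) (a (l 14407408) (b (a (l 14074400) (l 14062184)) (b (l 14104112) (l 14141696)))))) (a (l 14188248) (l 14343848)))))), by decide +kernel⟩

def k1_pm_202 : ∃ t, chk3 f_pm_202 t 3 4 1 = true :=
  ⟨(b (a (l 1) (a (b (l 1) (a (b (l 1) (a (l 1) (l 16544584))) (b (a (l 1) (b (l 16526992) (l 16571136))) (a (l 16569712) (l 16596168))))) (b (a (b (l 1) (a (b (l 1) (a (l 1) (l 16532312))) (b (a (l 1) (b (l 1) (a (l 16542960) (l 69289434567)))) (a (l 16532488) (a (l 16570168) (b (l 16574376) (l 16590856))))))) (b (l 6) (b (b (l 6) (a (a (l 16570488) (l 16594640)) (a (l 16684424) (l 16708984)))) (a (a (b (l 16603128) (l 16616136)) (l 16609192)) (a (l 16674568) (l 16716696)))))) (a (b (a (b (l 16541848) (l 16603888)) (b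 (l 16581176) (l 16640064))) (a (l 16624272) (l 16655648))) (a (b (a (b (l 16596480) (l 16649544)) (b (l 16653472) (l 16680368))) (a (l 16670248) (b (l 16678480) (l 16632728)))) (b (b (l 16671552) (l 16659280)) (l 16577560))))))) (a (a (b (l 1) (b (l 16407888) (l 16355488))) (b (a (b (l 1) (l 16495280)) (b (a (l 16507248) (l 16545792)) (a (l 16490792) (l 16444472)))) (a (l 16306344) (b (l 16316712) (l 16282432))))) (a (b (a (b (l 16518648) (l 16480984)) (a (l 16447192) (l 16471200))) (a (b (l 16358904) (l 16240440)) (l 16242216))) (a (b (b (l 16542648) (l 16499720)) (l 16235872)) (b (a (b (a (l 16591032) (l 16580504)) (l 16485040)) (b (a (l 16542008) (l 16543536)) (a (l 16469888) (l 16453504)))) (a (l 16334824) (b (l 16368640) (l 16270504)))))))), by decide +kernel⟩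

def k2_pm_202 : ∃ t, chk3 f_pm_202 t 3 5 1 = true :=
  ⟨(a (b (a (b (l 16168632) (l 16072992)) (b (a (l 16211048) (l 16141960)) (l 15982560))) (a (b (l 15854456) (l 15642104)) (b (l 15790504) (l 15603744)))) (a (b (a (b (a (l 16087352) (l 16072008)) (l 15891984)) (b (l 16098952) (b (l 15930448) (l 15819992)))) (a (l 15629656) (b (a (l 15672488) (l 15672984)) (l 15503352)))) (a (b (b (l 16129080) (l 15920600)) (b (l 15717552) (l 15522000))) (b (a (b (l 16134896) (l 15937848)) (b (l 16126832) (l 15937496))) (a (l 15653000) (l 15663648)))))), by decide +kernel⟩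

def k3_pm_202 : ∃ t, chk3 f_pm_202 t 3 3 1 = true :=
  ⟨(a (b (b (a (l 15341616) (l 15339504)) (a (l 14984848) (l 15025904))) (b (a (l 14692744) (l 14769872)) (a (l 14477832) (l 14582808)))) (a (b (b (b (l 15367016) (l 15219760)) (l 15023056)) (b (l 14805416) (l 14648928))) (b (a (b (b (l 15337792) (l 15185912)) (b (l 15057152) (l 14941072))) (b (a (l 15300664) (l 15324528)) (a (b (l 15064320) (l 14929320)) (l 15027824)))) (a (b (l 14804312) (l 14672240)) (b (a (l 14793240) (b (l 14836768) (l 14743336))) (b (l 14688880) (l 14637944))))))), by decide +kernel⟩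

theorem s4_pm_202 : ∃ t, chk3 f_pm_202 t 3 2 1 = true := ex3_b k1_pm_202 k2_pm_202

theorem s5_pm_202 : ∃ t, chk3 f_pm_202 t 3 1 1 = true := ex3_b s4_pm_202 k3_pm_202

theorem s6_pm_202 : ∃ t, chk3 f_pm_202 t 1 1 1 = true := ex3_a k0_pm_202 s5_pm_202

theorem c_pm_202 : CertB 0 536870912 0 536870912 1045395039 1503240 3 eng mog cd0q2 cd1q0 pd2 true true false .pp 2 0 2
    ndB0q2 ndB1q0 pcB2 cut_pm_202 Ext.none :=
  certB1 (fam := true) (s1 := true) (s2 := false) (a := 2) (b := 0) (c := 2) (cn := .pp) (n1 := ndB0q2) (n2 := ndB1q0) (pc := pcB2) (cut := cut_pm_202) (xt := Ext.none) (P1 := 0) (W1 := 536870912) (P2 := 0) (W2 := 536870912) (P3 := 1045395039) (W3 := 1503240) (N0 := 3) (En := eng) (mo := mog) (C1 := cd0q2) (C2 := cd1q0) (C3 := pd2)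
    rfl (fun _ => rfl) s6_pm_202

noncomputable def f_pm_203 : ℕ → ℕ → ℕ → ℕ → Bool := onCell 0 536870912 1610612736 536870912 1045395039 1503240
    (rowB 3 eng mog cd0q2 cd1q0 pd3 1 true true false .up 2 0 3 (qsf 0 536870912 0 536870912 3) ndB0q2 ndB1q0 pcB3 Cut.none Ext.none)

def k0_pm_203 : ∃ t, chk3 f_pm_203 t 1 1 1 = true :=
  ⟨(b (b (a (b (a (l 16389832) (l 16331224)) (a (b (l 16498392) (l 16516872)) (a (l 16415416) (l 16324496)))) (a (b (l 16145552) (l 16121008)) (a (l 15849088) (a (l 15670792) (l 15520096))))) (a (b (a (b (l 16545048) (l 16579688)) (a (l 16461512) (l 16372840))) (l 2)) (a (l 2) (l 2)))) (l 2)), by decide +kernel⟩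

theorem c_pm_203 : CertB 0 536870912 0 536870912 1045395039 1503240 3 eng mog cd0q2 cd1q0 pd3 true true false .up 2 0 3
    ndB0q2 ndB1q0 pcB3 Cut.none Ext.none :=
  certB1 (fam := true) (s1 := true) (s2 := false) (a := 2) (b := 0) (c := 3) (cn := .up) (n1 := ndB0q2) (n2 := ndB1q0) (pc := pcB3) (cut := Cut.none) (xt := Ext.none) (P1 := 0) (W1 := 536870912) (P2 := 0) (W2 := 536870912) (P3 := 1045395039) (W3 := 1503240) (N0 := 3) (En := eng) (mo := mog) (C1 := cd0q2) (C2 := cd1q0) (C3 := pd3)
    rfl (fun _ => rfl) k0_pm_203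

noncomputable def f_pm_213 : ℕ → ℕ → ℕ → ℕ → Bool := onCell 0 536870912 1610612736 536870912 1045395039 1503240
    (rowB 3 eng mog cd0q2 cd1q1 pd3 1 true true false .pnn 2 1 3 (qsf 0 536870912 536870912 536870912 3) ndB0q2 ndB1q1 pcB3 Cut.none Ext.none)

def k0_pm_213 : ∃ t, chk3 f_pm_213 t 1 1 1 = true :=
  ⟨(a (b (b (b (l 1) (a (l 1) (l 719976552103))) (b (a (b (l 16368808) (l 16365264)) (a (l 16342024) (l 16334784))) (a (b (l 16375168) (l 104386934471)) (b (l 16346080) (l 16368800))))) (a (l 4) (b (b (b (a (l 16413176) (l 16397128)) (a (l 4) (l 16449016))) (b (a (l 4) (l 16510944)) (l 4))) (l 4)))) (b (a (b (b (l 1) (l 16383624)) (b (a (l 16346544) (l 16357840)) (a (l 16344648) (l 16350576)))) (a (b (l 16221344) (b (l 16169448) (l 16122048))) (b (a (l 16091360) (b (l 16069736) (l 15954328))) (a (l 15860560) (b (l 15829464) (l 15707232)))))) (a (a (b (b (l 16398744) (b (l 16490264) (l 16535960))) (l 4)) (b (b (b (l 16362360) (l 16370936)) (b (l 16380080) (l 16394600))) (b (b (l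 16459360) (l 16559664)) (l 4)))) (b (a (b (l 16108552) (b (l 16134856) (a (l 16245312) (l 16086888)))) (a (b (l 15842264) (l 15844032)) (b (l 15605928) (l 15391872)))) (b (a (b (a (l 16279552) (l 16134184)) (b (l 16273552) (l 16341768))) (a (b (l 15921112) (b (l 15991504) (l 16053216))) (b (l 15602728) (a (l 15804720) (l 15620056))))) (b (a (b (l 16432096) (l 4)) (a (b (l 16147288) (l 16303440)) (b (a (l 15961352) (l 15810032)) (a (l 16154080) (l 16082240))))) (b (a (l 4) (a (l 4) (a (l 4) (l 16661864)))) (l 4)))))))), by decide +kernel⟩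

theorem c_pm_213 : CertB 0 536870912 536870912 536870912 1045395039 1503240 3 eng mog cd0q2 cd1q1 pd3 true true false .pnn 2 1 3
    ndB0q2 ndB1q1 pcB3 Cut.none Ext.none :=
  certB1 (fam := true) (s1 := true) (s2 := false) (a := 2) (b := 1) (c := 3) (cn := .pnn) (n1 := ndB0q2) (n2 := ndB1q1) (pc := pcB3) (cut := Cut.none) (xt := Ext.none) (P1 := 0) (W1 := 536870912) (P2 := 536870912) (W2 := 536870912) (P3 := 1045395039) (W3 := 1503240) (N0 := 3) (En := eng) (mo := mog) (C1 := cd0q2) (C2 := cd1q1) (C3 := pd3)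
    rfl (fun _ => rfl) k0_pm_213

noncomputable def f_mm_001 : ℕ → ℕ → ℕ → ℕ → Bool := onCell 0 536870912 0 536870912 1045395039 1503240
    (rowB 3 eng mog cd0q0 cd1q0 pd1 0 true false false .up 0 0 1 (qsf 0 536870912 0 536870912 1) ndB0q0 ndB1q0 pcB1 Cut.none Ext.none)

def k0_mm_001 : ∃ t, chk3 f_mm_001 t 1 1 1 = true :=
  ⟨(l 4), by decide +kernel⟩

theorem c_mm_001 : CertB 0 536870912 0 536870912 1045395039 1503240 3 eng mog cd0q0 cd1q0 pd1 true false false .up 0 0 1
    ndB0q0 ndB1q0 pcB1 Cut.none Ext.none :=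
  certB0 (fam := true) (s1 := false) (s2 := false) (a := 0) (b := 0) (c := 1) (cn := .up) (n1 := ndB0q0) (n2 := ndB1q0) (pc := pcB1) (cut := Cut.none) (xt := Ext.none) (P1 := 0) (W1 := 536870912) (P2 := 0) (W2 := 536870912) (P3 := 1045395039) (W3 := 1503240) (N0 := 3) (En := eng) (mo := mog) (C1 := cd0q0) (C2 := cd1q0) (C3 := pd1)
    rfl k0_mm_001

noncomputable def f_mm_011 : ℕ → ℕ → ℕ → ℕ → Bool := onCell 0 536870912 536870912 536870912 1045395039 1503240
    (rowB 3 eng mog cd0q0 cd1q1 pd1 0 true false false .pnn 0 1 1 (qsf 0 536870912 536870912 536870912 1) ndB0q0 ndB1q1 pcB1 Cut.none Ext.none)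

def k0_mm_011 : ∃ t, chk3 f_mm_011 t 1 1 1 = true :=
  ⟨(l 4), by decide +kernel⟩

theorem c_mm_011 : CertB 0 536870912 536870912 536870912 1045395039 1503240 3 eng mog cd0q0 cd1q1 pd1 true false false .pnn 0 1 1
    ndB0q0 ndB1q1 pcB1 Cut.none Ext.none :=
  certB0 (fam := true) (s1 := false) (s2 := false) (a := 0) (b := 1) (c := 1) (cn := .pnn) (n1 := ndB0q0) (n2 := ndB1q1) (pc := pcB1) (cut := Cut.none) (xt := Ext.none) (P1 := 0) (W1 := 536870912) (P2 := 536870912) (W2 := 536870912) (P3 := 1045395039) (W3 := 1503240) (N0 := 3) (En := eng) (mo := mog) (C1 := cd0q0) (C2 := cd1q1) (C3 := pd1)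
    rfl k0_mm_011

noncomputable def f_mm_012 : ℕ → ℕ → ℕ → ℕ → Bool := onCell 0 536870912 536870912 536870912 1045395039 1503240
    (rowB 3 eng mog cd0q0 cd1q1 pd2 0 true false false .pnp 0 1 2 (qsf 0 536870912 536870912 536870912 2) ndB0q0 ndB1q1 pcB2 Cut.none Ext.none)

def k0_mm_012 : ∃ t, chk3 f_mm_012 t 1 1 1 = true :=
  ⟨(l 4), by decide +kernel⟩

theorem c_mm_012 : CertB 0 536870912 536870912 536870912 1045395039 1503240 3 eng mog cd0q0 cd1q1 pd2 true false false .pnp 0 1 2
    ndB0q0 ndB1q1 pcB2 Cut.none Ext.none :=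
  certB0 (fam := true) (s1 := false) (s2 := false) (a := 0) (b := 1) (c := 2) (cn := .pnp) (n1 := ndB0q0) (n2 := ndB1q1) (pc := pcB2) (cut := Cut.none) (xt := Ext.none) (P1 := 0) (W1 := 536870912) (P2 := 536870912) (W2 := 536870912) (P3 := 1045395039) (W3 := 1503240) (N0 := 3) (En := eng) (mo := mog) (C1 := cd0q0) (C2 := cd1q1) (C3 := pd2)
    rfl k0_mm_012

noncomputable def f_mm_022_a : ℕ → ℕ → ℕ → ℕ → Bool := onCell 0 536870912 0 536870912 1045395039 1503240
    (rowB 3 eng mog cd0q0 cd1q2a pd2 0 true false false .pp 0 2 2 (qsf 0 536870912 0 536870912 2) ndB0q0 ndB1q2a pcB2 Cut.none Ext.none)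

def k0_mm_022_a : ∃ t, chk3 f_mm_022_a t 1 1 1 = true :=
  ⟨(l 5), by decide +kernel⟩

theorem c_mm_022_a : CertB 0 536870912 0 536870912 1045395039 1503240 3 eng mog cd0q0 cd1q2a pd2 true false false .pp 0 2 2
    ndB0q0 ndB1q2a pcB2 Cut.none Ext.none :=
  certB0 (fam := true) (s1 := false) (s2 := false) (a := 0) (b := 2) (c := 2) (cn := .pp) (n1 := ndB0q0) (n2 := ndB1q2a) (pc := pcB2) (cut := Cut.none) (xt := Ext.none) (P1 := 0) (W1 := 536870912) (P2 := 0) (W2 := 536870912) (P3 := 1045395039) (W3 := 1503240) (N0 := 3) (En := eng) (mo := mog) (C1 := cd0q0) (C2 := cd1q2a) (C3 := pd2)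
    rfl k0_mm_022_a

noncomputable def f_mm_022_b : ℕ → ℕ → ℕ → ℕ → Bool := onCell 0 536870912 1239849684 370763052 1045395039 1503240
    (rowB 3 eng mog cd0q0 cd1q2b pd2 0 true false false .pp 0 2 2 (qsf 0 536870912 1239849684 370763052 2) ndB0q0 ndB1q2b pcB2 Cut.none Ext.none)

def k0_mm_022_b : ∃ t, chk3 f_mm_022_b t 1 1 1 = true :=
  ⟨(l 5), by decide +kernel⟩

theorem c_mm_022_b : CertB 0 536870912 1239849684 370763052 1045395039 1503240 3 eng mog cd0q0 cd1q2b pd2 true false false .pp 0 2 2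
    ndB0q0 ndB1q2b pcB2 Cut.none Ext.none :=
  certB0 (fam := true) (s1 := false) (s2 := false) (a := 0) (b := 2) (c := 2) (cn := .pp) (n1 := ndB0q0) (n2 := ndB1q2b) (pc := pcB2) (cut := Cut.none) (xt := Ext.none) (P1 := 0) (W1 := 536870912) (P2 := 1239849684) (W2 := 370763052) (P3 := 1045395039) (W3 := 1503240) (N0 := 3) (En := eng) (mo := mog) (C1 := cd0q0) (C2 := cd1q2b) (C3 := pd2)
    rfl k0_mm_022_b

noncomputable def f_mm_023_a : ℕ → ℕ → ℕ → ℕ → Bool := onCell 0 536870912 0 536870912 1045395039 1503240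
    (rowB 3 eng mog cd0q0 cd1q2a pd3 0 true false false .up 0 2 3 (qsf 0 536870912 0 536870912 3) ndB0q0 ndB1q2a pcB3 Cut.none Ext.none)

def k0_mm_023_a : ∃ t, chk3 f_mm_023_a t 1 1 1 = true :=
  ⟨(l 5), by decide +kernel⟩

theorem c_mm_023_a : CertB 0 536870912 0 536870912 1045395039 1503240 3 eng mog cd0q0 cd1q2a pd3 true false false .up 0 2 3
    ndB0q0 ndB1q2a pcB3 Cut.none Ext.none :=
  certB0 (fam := true) (s1 := false) (s2 := false) (a := 0) (b := 2) (c := 3) (cn := .up) (n1 := ndB0q0) (n2 := ndB1q2a) (pc := pcB3) (cut := Cut.none) (xt := Ext.none) (P1 := 0) (W1 := 536870912) (P2 := 0) (W2 := 536870912) (P3 := 1045395039) (W3 := 1503240) (N0 := 3) (En := eng) (mo := mog) (C1 := cd0q0) (C2 := cd1q2a) (C3 := pd3)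
    rfl k0_mm_023_a

noncomputable def f_mm_023_b : ℕ → ℕ → ℕ → ℕ → Bool := onCell 0 536870912 1239849684 370763052 1045395039 1503240
    (rowB 3 eng mog cd0q0 cd1q2b pd3 0 true false false .up 0 2 3 (qsf 0 536870912 1239849684 370763052 3) ndB0q0 ndB1q2b pcB3 Cut.none Ext.none)

def k0_mm_023_b : ∃ t, chk3 f_mm_023_b t 1 1 1 = true :=
  ⟨(l 5), by decide +kernel⟩

theorem c_mm_023_b : CertB 0 536870912 1239849684 370763052 1045395039 1503240 3 eng mog cd0q0 cd1q2b pd3 true false false .up 0 2 3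
    ndB0q0 ndB1q2b pcB3 Cut.none Ext.none :=
  certB0 (fam := true) (s1 := false) (s2 := false) (a := 0) (b := 2) (c := 3) (cn := .up) (n1 := ndB0q0) (n2 := ndB1q2b) (pc := pcB3) (cut := Cut.none) (xt := Ext.none) (P1 := 0) (W1 := 536870912) (P2 := 1239849684) (W2 := 370763052) (P3 := 1045395039) (W3 := 1503240) (N0 := 3) (En := eng) (mo := mog) (C1 := cd0q0) (C2 := cd1q2b) (C3 := pd3)
    rfl k0_mm_023_b

noncomputable def f_mm_033 : ℕ → ℕ → ℕ → ℕ → Bool := onCell 0 536870912 1610612736 536870912 1045395039 1503240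
    (rowB 3 eng mog cd0q0 cd1q3 pd3 0 true false false .pnn 0 3 3 (qsf 0 536870912 1610612736 536870912 3) ndB0q0 ndB1q3 pcB3 Cut.none Ext.none)

def k0_mm_033 : ∃ t, chk3 f_mm_033 t 1 1 1 = true :=
  ⟨(l 5), by decide +kernel⟩

theorem c_mm_033 : CertB 0 536870912 1610612736 536870912 1045395039 1503240 3 eng mog cd0q0 cd1q3 pd3 true false false .pnn 0 3 3
    ndB0q0 ndB1q3 pcB3 Cut.none Ext.none :=
  certB0 (fam := true) (s1 := false) (s2 := false) (a := 0) (b := 3) (c := 3) (cn := .pnn) (n1 := ndB0q0) (n2 := ndB1q3) (pc := pcB3) (cut := Cut.none) (xt := Ext.none) (P1 := 0) (W1 := 536870912) (P2 := 1610612736) (W2 := 536870912) (P3 := 1045395039) (W3 := 1503240) (N0 := 3) (En := eng) (mo := mog) (C1 := cd0q0) (C2 := cd1q3) (C3 := pd3)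
    rfl k0_mm_033

noncomputable def cut_mm_101 : Cut := Cut.of [[⟨0, 1, 0, 26843545⟩, ⟨1, 0, 0, 26843545⟩, ⟨2, 1, 0, 26843545⟩]]

noncomputable def f_mm_101 : ℕ → ℕ → ℕ → ℕ → Bool := onCell 536870912 536870912 0 536870912 1045395039 1503240
    (rowB 3 eng mog cd0q1 cd1q0 pd1 0 true false false .npn 1 0 1 (qsf 536870912 536870912 0 536870912 1) ndB0q1 ndB1q0 pcB1 cut_mm_101 Ext.none)

def k0_mm_101 : ∃ t, chk3 f_mm_101 t 1 1 1 = true :=
  ⟨(a (l 4) (b (a (l 4) (b (a (l 4) (b (a (l 4) (b (a (l 4) (b (l 6) (l 4))) (l 4))) (l 4))) (l 4))) (l 4))), by decide +kernel⟩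

theorem c_mm_101 : CertB 536870912 536870912 0 536870912 1045395039 1503240 3 eng mog cd0q1 cd1q0 pd1 true false false .npn 1 0 1
    ndB0q1 ndB1q0 pcB1 cut_mm_101 Ext.none :=
  certB0 (fam := true) (s1 := false) (s2 := false) (a := 1) (b := 0) (c := 1) (cn := .npn) (n1 := ndB0q1) (n2 := ndB1q0) (pc := pcB1) (cut := cut_mm_101) (xt := Ext.none) (P1 := 536870912) (W1 := 536870912) (P2 := 0) (W2 := 536870912) (P3 := 1045395039) (W3 := 1503240) (N0 := 3) (En := eng) (mo := mog) (C1 := cd0q1) (C2 := cd1q0) (C3 := pd1)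
    rfl k0_mm_101

noncomputable def cut_mm_102 : Cut := Cut.of [[⟨0, 1, 0, 26843545⟩, ⟨1, 0, 0, 26843545⟩, ⟨2, 1, 0, 26843545⟩]]

noncomputable def f_mm_102 : ℕ → ℕ → ℕ → ℕ → Bool := onCell 536870912 536870912 0 536870912 1045395039 1503240
    (rowB 3 eng mog cd0q1 cd1q0 pd2 0 true false false .npp 1 0 2 (qsf 536870912 536870912 0 536870912 2) ndB0q1 ndB1q0 pcB2 cut_mm_102 Ext.none)

def k0_mm_102 : ∃ t, chk3 f_mm_102 t 1 1 1 = true :=
  ⟨(a (l 4) (b (a (l 4) (b (a (l 4) (b (a (l 4) (a (l 4) (b (b (l 6) (l 4)) (l 4)))) (l 4))) (l 4))) (l 4))), by decide +kernel⟩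

theorem c_mm_102 : CertB 536870912 536870912 0 536870912 1045395039 1503240 3 eng mog cd0q1 cd1q0 pd2 true false false .npp 1 0 2
    ndB0q1 ndB1q0 pcB2 cut_mm_102 Ext.none :=
  certB0 (fam := true) (s1 := false) (s2 := false) (a := 1) (b := 0) (c := 2) (cn := .npp) (n1 := ndB0q1) (n2 := ndB1q0) (pc := pcB2) (cut := cut_mm_102) (xt := Ext.none) (P1 := 536870912) (W1 := 536870912) (P2 := 0) (W2 := 536870912) (P3 := 1045395039) (W3 := 1503240) (N0 := 3) (En := eng) (mo := mog) (C1 := cd0q1) (C2 := cd1q0) (C3 := pd2)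
    rfl k0_mm_102

noncomputable def f_mm_112 : ℕ → ℕ → ℕ → ℕ → Bool := onCell 536870912 536870912 536870912 536870912 1045395039 1503240
    (rowB 3 eng mog cd0q1 cd1q1 pd2 0 true false false .dn 1 1 2 (qsf 536870912 536870912 536870912 536870912 2) ndB0q1 ndB1q1 pcB2 Cut.none Ext.none)

def k0_mm_112 : ∃ t, chk3 f_mm_112 t 1 1 1 = true :=
  ⟨(l 4), by decide +kernel⟩

theorem c_mm_112 : CertB 536870912 536870912 536870912 536870912 1045395039 1503240 3 eng mog cd0q1 cd1q1 pd2 true false false .dn 1 1 2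
    ndB0q1 ndB1q1 pcB2 Cut.none Ext.none :=
  certB0 (fam := true) (s1 := false) (s2 := false) (a := 1) (b := 1) (c := 2) (cn := .dn) (n1 := ndB0q1) (n2 := ndB1q1) (pc := pcB2) (cut := Cut.none) (xt := Ext.none) (P1 := 536870912) (W1 := 536870912) (P2 := 536870912) (W2 := 536870912) (P3 := 1045395039) (W3 := 1503240) (N0 := 3) (En := eng) (mo := mog) (C1 := cd0q1) (C2 := cd1q1) (C3 := pd2)
    rfl k0_mm_112

noncomputable def f_mm_113 : ℕ → ℕ → ℕ → ℕ → Bool := onCell 536870912 536870912 536870912 536870912 1045395039 1503240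
    (rowB 3 eng mog cd0q1 cd1q1 pd3 0 true false false .nn 1 1 3 (qsf 536870912 536870912 536870912 536870912 3) ndB0q1 ndB1q1 pcB3 Cut.none Ext.none)

def k0_mm_113 : ∃ t, chk3 f_mm_113 t 1 1 1 = true :=
  ⟨(l 4), by decide +kernel⟩

theorem c_mm_113 : CertB 536870912 536870912 536870912 536870912 1045395039 1503240 3 eng mog cd0q1 cd1q1 pd3 true false false .nn 1 1 3
    ndB0q1 ndB1q1 pcB3 Cut.none Ext.none :=
  certB0 (fam := true) (s1 := false) (s2 := false) (a := 1) (b := 1) (c := 3) (cn := .nn) (n1 := ndB0q1) (n2 := ndB1q1) (pc := pcB3) (cut := Cut.none) (xt := Ext.none) (P1 := 536870912) (W1 := 536870912) (P2 := 536870912) (W2 := 536870912) (P3 := 1045395039) (W3 := 1503240) (N0 := 3) (En := eng) (mo := mog) (C1 := cd0q1) (C2 := cd1q1) (C3 := pd3)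
    rfl k0_mm_113

noncomputable def f_mm_123_a : ℕ → ℕ → ℕ → ℕ → Bool := onCell 536870912 536870912 0 536870912 1045395039 1503240
    (rowB 3 eng mog cd0q1 cd1q2a pd3 0 true false false .npn 1 2 3 (qsf 536870912 536870912 0 536870912 3) ndB0q1 ndB1q2a pcB3 Cut.none Ext.none)

def k0_mm_123_a : ∃ t, chk3 f_mm_123_a t 1 1 1 = true :=
  ⟨(a (l 4) (l 4)), by decide +kernel⟩

theorem c_mm_123_a : CertB 536870912 536870912 0 536870912 1045395039 1503240 3 eng mog cd0q1 cd1q2a pd3 true false false .npn 1 2 3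
    ndB0q1 ndB1q2a pcB3 Cut.none Ext.none :=
  certB0 (fam := true) (s1 := false) (s2 := false) (a := 1) (b := 2) (c := 3) (cn := .npn) (n1 := ndB0q1) (n2 := ndB1q2a) (pc := pcB3) (cut := Cut.none) (xt := Ext.none) (P1 := 536870912) (W1 := 536870912) (P2 := 0) (W2 := 536870912) (P3 := 1045395039) (W3 := 1503240) (N0 := 3) (En := eng) (mo := mog) (C1 := cd0q1) (C2 := cd1q2a) (C3 := pd3)
    rfl k0_mm_123_a

noncomputable def f_mm_123_b : ℕ → ℕ → ℕ → ℕ → Bool := onCell 536870912 536870912 1239849684 370763052 1045395039 1503240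
    (rowB 3 eng mog cd0q1 cd1q2b pd3 0 true false false .npn 1 2 3 (qsf 536870912 536870912 1239849684 370763052 3) ndB0q1 ndB1q2b pcB3 Cut.none Ext.none)

def k0_mm_123_b : ∃ t, chk3 f_mm_123_b t 1 1 1 = true :=
  ⟨(l 5), by decide +kernel⟩

theorem c_mm_123_b : CertB 536870912 536870912 1239849684 370763052 1045395039 1503240 3 eng mog cd0q1 cd1q2b pd3 true false false .npn 1 2 3
    ndB0q1 ndB1q2b pcB3 Cut.none Ext.none :=
  certB0 (fam := true) (s1 := false) (s2 := false) (a := 1) (b := 2) (c := 3) (cn := .npn) (n1 := ndB0q1) (n2 := ndB1q2b) (pc := pcB3) (cut := Cut.none) (xt := Ext.none) (P1 := 536870912) (W1 := 536870912) (P2 := 1239849684) (W2 := 370763052) (P3 := 1045395039) (W3 := 1503240) (N0 := 3) (En := eng) (mo := mog) (C1 := cd0q1) (C2 := cd1q2b) (C3 := pd3)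
    rfl k0_mm_123_b

noncomputable def f_mm_133 : ℕ → ℕ → ℕ → ℕ → Bool := onCell 536870912 536870912 1610612736 536870912 1045395039 1503240
    (rowB 3 eng mog cd0q1 cd1q3 pd3 0 true false false .dn 1 3 3 (qsf 536870912 536870912 1610612736 536870912 3) ndB0q1 ndB1q3 pcB3 Cut.none Ext.none)

def k0_mm_133 : ∃ t, chk3 f_mm_133 t 1 1 1 = true :=
  ⟨(l 4), by decide +kernel⟩

theorem c_mm_133 : CertB 536870912 536870912 1610612736 536870912 1045395039 1503240 3 eng mog cd0q1 cd1q3 pd3 true false false .dn 1 3 3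
    ndB0q1 ndB1q3 pcB3 Cut.none Ext.none :=
  certB0 (fam := true) (s1 := false) (s2 := false) (a := 1) (b := 3) (c := 3) (cn := .dn) (n1 := ndB0q1) (n2 := ndB1q3) (pc := pcB3) (cut := Cut.none) (xt := Ext.none) (P1 := 536870912) (W1 := 536870912) (P2 := 1610612736) (W2 := 536870912) (P3 := 1045395039) (W3 := 1503240) (N0 := 3) (En := eng) (mo := mog) (C1 := cd0q1) (C2 := cd1q3) (C3 := pd3)
    rfl k0_mm_133

noncomputable def cut_mm_202 : Cut := Cut.of [[⟨0, 1, 0, 26843545⟩, ⟨1, 0, 0, 26843545⟩, ⟨2, 1, 0, 26843545⟩]]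

noncomputable def f_mm_202 : ℕ → ℕ → ℕ → ℕ → Bool := onCell 0 536870912 0 536870912 1045395039 1503240
    (rowB 3 eng mog cd0q2 cd1q0 pd2 0 true false false .pp 2 0 2 (qsf 0 536870912 0 536870912 2) ndB0q2 ndB1q0 pcB2 cut_mm_202 Ext.none)

def k0_mm_202 : ∃ t, chk3 f_mm_202 t 2 2 1 = true :=
  ⟨(b (a (b (b (a (l 16123952) (a (l 16159056) (l 16082320))) (a (l 15847328) (a (l 15861256) (b (l 16000336) (l 15833960))))) (a (b (l 15501040) (a (l 15187288) (b (l 15251632) (a (l 15093032) (l 15132856))))) (b (a (b (l 15596224) (a (l 15418216) (l 15481752))) (l 15653568)) (b (a (l 15346096) (l 15528656)) (l 15378176))))) (b (b (a (b (a (l 16360688) (l 16351976)) (b (l 16217712) (l 16242032))) (b (a (l 16293360) (l 16264232)) (a (l 16435184) (l 16441232)))) (a (a (l 15929464) (l 15992392)) (a (b (l 16340776) (l 16231032)) (b (l 16429176) (l 16352416))))) (a (b (a (l 15810608) (l 15964600)) (a (l 15683536) (l 15863080))) (b (a (l 16112584) (l 16188696)) (a (l 16034592) (l 16195360)))))) (a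 (b (a (b (a (a (l 14897928) (b (l 14952848) (l 14837936))) (b (l 15024328) (l 14984680))) (a (b (a (l 14713496) (l 14786688)) (l 14713104)) (l 14965968))) (b (a (l 15218664) (l 15433584)) (a (l 15210072) (l 15449360)))) (a (b (l 14872896) (l 14974520)) (b (a (l 15276616) (l 15537176)) (l 15318592)))) (b (a (b (a (l 15643560) (l 15846136)) (a (l 15681600) (l 15904624))) (b (a (l 16038888) (l 16219352)) (a (l 16116272) (l 16272376)))) (a (b (a (l 15788832) (l 16029688)) (a (l 15956616) (l 16212656))) (b (a (l 16257840) (b (l 16426864) (l 16471984))) (a (b (l 16400960) (l 16459184)) (b (l 16560856) (l 16620880)))))))), by decide +kernel⟩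

def k1_mm_202 : ∃ t, chk3 f_mm_202 t 6 4 1 = true :=
  ⟨(b (a (b (b (a (l 16226152) (b (l 16223176) (l 16308240))) (a (l 16392440) (l 16360192))) (a (b (l 16529192) (l 16442424)) (b (l 16511136) (l 16561064)))) (b (b (a (a (l 16262624) (l 16224776)) (a (b (l 16237840) (l 16314760)) (b (l 16256376) (l 16331008)))) (a (a (l 16412120) (l 16411840)) (a (l 16417912) (l 16388896)))) (a (a (l 16441152) (b (l 16531056) (l 16625440))) (b (a (l 16533064) (l 16542072)) (l 16562600))))) (a (b (a (l 16273840) (b (l 16508408) (l 16478960))) (a (l 16342632) (l 16389648))) (b (a (b (l 16598104) (l 16577128)) (b (l 16667128) (l 16653888))) (a (b (l 16577704) (l 16597608)) (b (a (l 16643560) (l 16657824)) (a (l 16645600) (l 16676776))))))), by decide +kernel⟩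

def k2_mm_202 : ∃ t, chk3 f_mm_202 t 14 8 1 = true :=
  ⟨(b (a (b (a (b (a (l 16275320) (l 16290488)) (l 16354904)) (b (a (l 16307816) (b (l 16309016) (l 16345344))) (a (l 16378352) (l 16396784)))) (a (b (l 16420824) (l 16480504)) (b (l 16450888) (l 16508408)))) (b (a (b (a (b (l 16331232) (l 16366992)) (b (a (l 16349696) (l 16362976)) (l 16391432))) (a (l 16417584) (l 16420192))) (b (a (b (a (l 16355976) (b (l 16383120) (l 16400608))) (l 16418976)) (b (a (b (l 16399176) (l 16416320)) (b (l 16416392) (l 16433024))) (a (l 16441552) (l 16457760)))) (a (b (l 16451952) (l 16483312)) (b (l 16460552) (l 16512752))))) (a (b (a (l 16479448) (l 16501888)) (l 16524608)) (b (a (l 16527416) (l 16555984)) (l 16531352))))) (a (b (a (l 16537720) (l 16520528)) (b (l 16591392) (l 16668296))) (b (a (b (l 16594952) (l 16638528)) (b (l 16620328) (l 16661760))) (a (l 16630440) (b (a (l 16706928) (l 16727304)) (a (l 16733096) (l 16742760))))))), by decide +kernel⟩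

def k3_mm_202 : ∃ t, chk3 f_mm_202 t 15 8 1 = true :=
  ⟨(a (b (b (a (b (b (a (a (b (l 16434664) (l 16450896)) (b (l 16453936) (l 16469824))) (a (b (b (l 16470168) (l 16478088)) (l 16489824)) (b (l 16495056) (l 16510576)))) (a (a (l 16475096) (l 16493192)) (a (l 16512576) (l 16512144)))) (a (b (l 16478304) (l 16544816)) (b (a (l 16542240) (l 16561840)) (l 16580632)))) (b (a (b (a (b (a (l 16511064) (l 16521864)) (l 16532072)) (b (a (l 16532760) (l 16543736)) (l 16553960))) (a (l 16533360) (l 16555288))) (b (a (b (a (l 16554808) (l 16565952)) (l 16576200)) (b (l 6) (l 16598784))) (a (l 16577768) (l 16600528)))) (a (b (a (l 16582504) (l 16604216)) (l 16599072)) (b (a (l 16626552) (l 16649432)) (l 16621880))))) (a (b (a (l 16566576) (b (l 16608280) (l 16635064))) (a (l 16638688) (l 16651032))) (b (a (b (l 16646400) (l 16671864)) (b (l 16667136) (l 16691160))) (a (l 16666032) (b (a (l 16725256) (l 16720592)) (l 98482148439)))))) (b (a (b (a (l 16683960) (l 16673112)) (a (l 16700312) (b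 (l 16715960) (l 4)))) (b (a (b (l 16714304) (l 16722480)) (l 4)) (l 4))) (a (b (a (l 16740528) (l 4)) (l 4)) (l 4)))) (b (b (a (b (a (b (l 6) (a (l 16623640) (b (l 6) (l 16675440)))) (l 6)) (a (b (a (l 16672912) (l 16675656)) (a (l 16698608) (l 16701664))) (b (a (l 16699360) (l 6)) (a (l 16725464) (a (b (l 16757744) (l 16766008)) (b (l 16745392) (l 4))))))) (b (l 6) (b (l 6) (b (l 6) (l 4))))) (a (b (a (b (a (l 16722344) (l 16724160)) (a (l 16721368) (l 93113478471))) (a (b (b (l 16739392) (l 16762752)) (l 4)) (l 4))) (a (b (l 150558659463) (l 4)) (l 4))) (l 4))) (l 4))), by decide +kernel⟩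

def k4_mm_202 : ∃ t, chk3 f_mm_202 t 7 9 1 = true :=
  ⟨(a (b (a (b (a (l 16702152) (l 16719680)) (a (l 16695632) (b (l 16716936) (l 16722072)))) (a (b (b (l 16731928) (l 16736648)) (l 4)) (l 4))) (a (b (a (l 16706960) (l 4)) (l 4)) (l 4))) (l 4)), by decide +kernel⟩

def k5_mm_202 : ∃ t, chk3 f_mm_202 t 3 5 1 = true :=
  ⟨(a (b (a (b (a (l 16322096) (b (l 16511856) (l 16559064))) (a (b (l 16462840) (l 16511448)) (b (a (l 16583968) (l 16640400)) (l 16646248)))) (b (a (b (a (l 16606976) (l 16656416)) (a (l 16647848) (l 16680056))) (b (a (l 16688912) (l 4)) (l 4))) (l 4))) (a (b (a (b (a (l 16569168) (l 16627656)) (l 16590800)) (l 4)) (l 4)) (l 4))) (l 4)), by decide +kernel⟩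

def k6_mm_202 : ∃ t, chk3 f_mm_202 t 1 3 1 = true :=
  ⟨(a (a (b (b (a (b (l 15139352) (l 15316944)) (b (l 15496000) (a (l 15841336) (l 16146976)))) (a (b (l 15519704) (l 15697040)) (b (a (l 16122792) (b (l 16360960) (l 16440904))) (b (a (l 16354120) (l 16560568)) (l 2))))) (l 2)) (b (b (a (b (a (l 16176368) (b (l 16382696) (l 16450440))) (a (b (l 16370040) (l 16444616)) (b (l 16525296) (l 16602032)))) (b (a (b (l 16573368) (l 16610600)) (l 4)) (l 4))) (a (b (a (b (l 16542096) (l 4)) (l 4)) (l 4)) (l 4))) (l 4))) (l 4)), by decide +kernel⟩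

theorem s7_mm_202 : ∃ t, chk3 f_mm_202 t 7 8 1 = true := ex3_a k2_mm_202 k3_mm_202

theorem s8_mm_202 : ∃ t, chk3 f_mm_202 t 7 4 1 = true := ex3_b s7_mm_202 k4_mm_202

theorem s9_mm_202 : ∃ t, chk3 f_mm_202 t 3 4 1 = true := ex3_a k1_mm_202 s8_mm_202

theorem s10_mm_202 : ∃ t, chk3 f_mm_202 t 3 2 1 = true := ex3_b s9_mm_202 k5_mm_202

theorem s11_mm_202 : ∃ t, chk3 f_mm_202 t 1 2 1 = true := ex3_a k0_mm_202 s10_mm_202

theorem s12_mm_202 : ∃ t, chk3 f_mm_202 t 1 1 1 = true := ex3_b s11_mm_202 k6_mm_202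

theorem c_mm_202 : CertB 0 536870912 0 536870912 1045395039 1503240 3 eng mog cd0q2 cd1q0 pd2 true false false .pp 2 0 2
    ndB0q2 ndB1q0 pcB2 cut_mm_202 Ext.none :=
  certB0 (fam := true) (s1 := false) (s2 := false) (a := 2) (b := 0) (c := 2) (cn := .pp) (n1 := ndB0q2) (n2 := ndB1q0) (pc := pcB2) (cut := cut_mm_202) (xt := Ext.none) (P1 := 0) (W1 := 536870912) (P2 := 0) (W2 := 536870912) (P3 := 1045395039) (W3 := 1503240) (N0 := 3) (En := eng) (mo := mog) (C1 := cd0q2) (C2 := cd1q0) (C3 := pd2)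
    rfl s12_mm_202

noncomputable def f_mm_203 : ℕ → ℕ → ℕ → ℕ → Bool := onCell 0 536870912 1610612736 536870912 1045395039 1503240
    (rowB 3 eng mog cd0q2 cd1q0 pd3 1 true false false .up 2 0 3 (qsf 0 536870912 0 536870912 3) ndB0q2 ndB1q0 pcB3 Cut.none Ext.none)

def k0_mm_203 : ∃ t, chk3 f_mm_203 t 1 1 1 = true :=
  ⟨(a (b (a (b (b (b (l 16563360) (l 72174944791)) (b (l 82375554247) (l 97407949703))) (l 4)) (l 4)) (l 2)) (l 4)), by decide +kernel⟩

theorem c_mm_203 : CertB 0 536870912 0 536870912 1045395039 1503240 3 eng mog cd0q2 cd1q0 pd3 true false false .up 2 0 3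
    ndB0q2 ndB1q0 pcB3 Cut.none Ext.none :=
  certB1 (fam := true) (s1 := false) (s2 := false) (a := 2) (b := 0) (c := 3) (cn := .up) (n1 := ndB0q2) (n2 := ndB1q0) (pc := pcB3) (cut := Cut.none) (xt := Ext.none) (P1 := 0) (W1 := 536870912) (P2 := 0) (W2 := 536870912) (P3 := 1045395039) (W3 := 1503240) (N0 := 3) (En := eng) (mo := mog) (C1 := cd0q2) (C2 := cd1q0) (C3 := pd3)
    rfl (fun _ => rfl) k0_mm_203

noncomputable def f_mm_213 : ℕ → ℕ → ℕ → ℕ → Bool := onCell 0 536870912 536870912 536870912 1045395039 1503240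
    (rowB 3 eng mog cd0q2 cd1q1 pd3 0 true false false .pnn 2 1 3 (qsf 0 536870912 536870912 536870912 3) ndB0q2 ndB1q1 pcB3 Cut.none Ext.none)

def k0_mm_213 : ∃ t, chk3 f_mm_213 t 1 1 1 = true :=
  ⟨(a (b (l 4) (l 4)) (l 4)), by decide +kernel⟩

theorem c_mm_213 : CertB 0 536870912 536870912 536870912 1045395039 1503240 3 eng mog cd0q2 cd1q1 pd3 true false false .pnn 2 1 3
    ndB0q2 ndB1q1 pcB3 Cut.none Ext.none :=
  certB0 (fam := true) (s1 := false) (s2 := false) (a := 2) (b := 1) (c := 3) (cn := .pnn) (n1 := ndB0q2) (n2 := ndB1q1) (pc := pcB3) (cut := Cut.none) (xt := Ext.none) (P1 := 0) (W1 := 536870912) (P2 := 536870912) (W2 := 536870912) (P3 := 1045395039) (W3 := 1503240) (N0 := 3) (En := eng) (mo := mog) (C1 := cd0q2) (C2 := cd1q1) (C3 := pd3)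
    rfl k0_mm_213

end Pool.Agent.Strip051.G.I9736_9750.Tab.C.BA01

namespace Pool.Agent.Strip051.G.I9736_9750.Tab.C.BA02

open Pool.Agent.Strip051.PB Pool.Agent.Strip051.PB.T
open Pool.Agent.Strip051.G.I9736_9750.Tab

noncomputable def f_pp_001 : ℕ → ℕ → ℕ → ℕ → Bool := onCell 0 536870912 0 536870912 1045395039 1503240
    (rowB 3 eng mog cd0q0 cd2q0 pd1 0 true true true .up 0 0 1 (qsf 0 536870912 0 536870912 1) ndB0q0 ndB2q0 pcB1 Cut.none Ext.none)

def k0_pp_001 : ∃ t, chk3 f_pp_001 t 1 1 1 = true :=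
  ⟨(l 4), by decide +kernel⟩

theorem c_pp_001 : CertB 0 536870912 0 536870912 1045395039 1503240 3 eng mog cd0q0 cd2q0 pd1 true true true .up 0 0 1
    ndB0q0 ndB2q0 pcB1 Cut.none Ext.none :=
  certB0 (fam := true) (s1 := true) (s2 := true) (a := 0) (b := 0) (c := 1) (cn := .up) (n1 := ndB0q0) (n2 := ndB2q0) (pc := pcB1) (cut := Cut.none) (xt := Ext.none) (P1 := 0) (W1 := 536870912) (P2 := 0) (W2 := 536870912) (P3 := 1045395039) (W3 := 1503240) (N0 := 3) (En := eng) (mo := mog) (C1 := cd0q0) (C2 := cd2q0) (C3 := pd1)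
    rfl k0_pp_001

noncomputable def f_pp_011 : ℕ → ℕ → ℕ → ℕ → Bool := onCell 0 536870912 536870912 536870912 1045395039 1503240
    (rowB 3 eng mog cd0q0 cd2q1 pd1 0 true true true .pnn 0 1 1 (qsf 0 536870912 536870912 536870912 1) ndB0q0 ndB2q1 pcB1 Cut.none Ext.none)

def k0_pp_011 : ∃ t, chk3 f_pp_011 t 1 1 1 = true :=
  ⟨(l 4), by decide +kernel⟩

theorem c_pp_011 : CertB 0 536870912 536870912 536870912 1045395039 1503240 3 eng mog cd0q0 cd2q1 pd1 true true true .pnn 0 1 1
    ndB0q0 ndB2q1 pcB1 Cut.none Ext.none :=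
  certB0 (fam := true) (s1 := true) (s2 := true) (a := 0) (b := 1) (c := 1) (cn := .pnn) (n1 := ndB0q0) (n2 := ndB2q1) (pc := pcB1) (cut := Cut.none) (xt := Ext.none) (P1 := 0) (W1 := 536870912) (P2 := 536870912) (W2 := 536870912) (P3 := 1045395039) (W3 := 1503240) (N0 := 3) (En := eng) (mo := mog) (C1 := cd0q0) (C2 := cd2q1) (C3 := pd1)
    rfl k0_pp_011

noncomputable def f_pp_012 : ℕ → ℕ → ℕ → ℕ → Bool := onCell 0 536870912 536870912 536870912 1045395039 1503240
    (rowB 3 eng mog cd0q0 cd2q1 pd2 0 true true true .pnp 0 1 2 (qsf 0 536870912 536870912 536870912 2) ndB0q0 ndB2q1 pcB2 Cut.none Ext.none)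

def k0_pp_012 : ∃ t, chk3 f_pp_012 t 1 1 1 = true :=
  ⟨(l 4), by decide +kernel⟩

theorem c_pp_012 : CertB 0 536870912 536870912 536870912 1045395039 1503240 3 eng mog cd0q0 cd2q1 pd2 true true true .pnp 0 1 2
    ndB0q0 ndB2q1 pcB2 Cut.none Ext.none :=
  certB0 (fam := true) (s1 := true) (s2 := true) (a := 0) (b := 1) (c := 2) (cn := .pnp) (n1 := ndB0q0) (n2 := ndB2q1) (pc := pcB2) (cut := Cut.none) (xt := Ext.none) (P1 := 0) (W1 := 536870912) (P2 := 536870912) (W2 := 536870912) (P3 := 1045395039) (W3 := 1503240) (N0 := 3) (En := eng) (mo := mog) (C1 := cd0q0) (C2 := cd2q1) (C3 := pd2)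
    rfl k0_pp_012

noncomputable def cut_pp_022_a : Cut := Cut.of [[⟨0, 0, 0, 26843545⟩, ⟨1, 1, 0, 26843545⟩, ⟨2, 1, 0, 26843545⟩]]

noncomputable def f_pp_022_a : ℕ → ℕ → ℕ → ℕ → Bool := onCell 0 536870912 0 536870912 1045395039 1503240
    (rowB 3 eng mog cd0q0 cd2q2a pd2 0 true true true .pp 0 2 2 (qsf 0 536870912 0 536870912 2) ndB0q0 ndB2q2a pcB2 cut_pp_022_a Ext.none)

def k0_pp_022_a : ∃ t, chk3 f_pp_022_a t 1 1 1 = true :=
  ⟨(a (a (b (a (b (a (a (b (l 16443552) (l 16464136)) (b (l 16400424) (l 16447832))) (b (l 16350640) (l 16415872))) (a (a (b (l 16458896) (l 16470592)) (b (l 16499032) (b (l 16519328) (l 16529392)))) (b (a (l 16493568) (l 16509856)) (a (l 16546424) (b (l 16553032) (l 16576256)))))) (b (a (b (l 16314264) (a (l 16467888) (l 16506784))) (b (a (l 16455624) (l 16486416)) (a (l 16528376) (l 16565624)))) (a (b (a (l 16539800) (l 16562232)) (a (l 121567195703) (l 4))) (b (l 4) (l 4))))) (a (b (a (b (a (b (l 16492480) (l 16493296)) (b (l 16545632) (l 16526024))) (a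 (b (l 16499784) (a (l 16561520) (l 16568544))) (b (a (l 16583776) (l 16606032)) (a (l 16613504) (l 4))))) (b (a (b (l 16580336) (l 16600496)) (l 4)) (l 4))) (a (b (a (b (a (l 16580680) (b (l 16617600) (l 16636104))) (b (a (l 16636024) (l 16633424)) (a (a (l 16654416) (l 16644904)) (l 4)))) (l 4)) (a (a (a (b (b (l 16664336) (b (l 16689296) (l 16725536))) (l 6)) (b (b (l 850101310567) (l 4)) (l 4))) (l 4)) (l 4))) (l 4))) (l 4))) (b (a (b (a (b (a (l 16493976) (l 16566064)) (l 4)) (l 4)) (l 4)) (l 4)) (l 4))) (l 4)), by decide +kernel⟩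

theorem c_pp_022_a : CertB 0 536870912 0 536870912 1045395039 1503240 3 eng mog cd0q0 cd2q2a pd2 true true true .pp 0 2 2
    ndB0q0 ndB2q2a pcB2 cut_pp_022_a Ext.none :=
  certB0 (fam := true) (s1 := true) (s2 := true) (a := 0) (b := 2) (c := 2) (cn := .pp) (n1 := ndB0q0) (n2 := ndB2q2a) (pc := pcB2) (cut := cut_pp_022_a) (xt := Ext.none) (P1 := 0) (W1 := 536870912) (P2 := 0) (W2 := 536870912) (P3 := 1045395039) (W3 := 1503240) (N0 := 3) (En := eng) (mo := mog) (C1 := cd0q0) (C2 := cd2q2a) (C3 := pd2)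
    rfl k0_pp_022_a

noncomputable def cut_pp_022_b : Cut := Cut.of [[⟨0, 0, 0, 26843545⟩, ⟨1, 1, 0, 26843545⟩, ⟨2, 1, 0, 26843545⟩]]

noncomputable def f_pp_022_b : ℕ → ℕ → ℕ → ℕ → Bool := onCell 0 536870912 1073741824 536870912 1045395039 1503240
    (rowB 3 eng mog cd0q0 cd2q2b pd2 1 true true true .pp 0 2 2 (qsf 0 536870912 1239849684 370763052 2) ndB0q0 ndB2q2b pcB2 cut_pp_022_b Ext.none)

def k0_pp_022_b : ∃ t, chk3 f_pp_022_b t 1 1 1 = true :=
  ⟨(b (a (a (b (l 1) (a (b (a (b (a (l 16431720) (l 1)) (a (l 16384880) (l 16406000))) (b (l 1) (l 380674115895))) (a (a (l 16256368) (b (l 16296936) (l 16242488))) (b (l 16335768) (l 16286744)))) (b (l 1) (b (a (l 396780214631) (l 1)) (a (l 16309536) (l 407517722967)))))) (l 1)) (l 1)) (b (a (b (a (a (a (b (l 16222096) (l 16150912)) (b (l 16288744) (l 16280488))) (b (a (l 16359256) (l 237329628487)) (a (l 16389936) (l 16418936)))) (a (b (a (l 393559180967) (l 1)) (a (l 225518644103) (l 520260872135))) (l 1))) (b (b (a (a (a (l 16012408)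 (l 16153864)) (l 4)) (a (l 4) (l 1))) (l 4)) (l 4))) (l 1)) (a (l 4) (a (l 4) (l 1))))), by decide +kernel⟩

theorem c_pp_022_b : CertB 0 536870912 1239849684 370763052 1045395039 1503240 3 eng mog cd0q0 cd2q2b pd2 true true true .pp 0 2 2
    ndB0q0 ndB2q2b pcB2 cut_pp_022_b Ext.none :=
  certB1 (fam := true) (s1 := true) (s2 := true) (a := 0) (b := 2) (c := 2) (cn := .pp) (n1 := ndB0q0) (n2 := ndB2q2b) (pc := pcB2) (cut := cut_pp_022_b) (xt := Ext.none) (P1 := 0) (W1 := 536870912) (P2 := 1239849684) (W2 := 370763052) (P3 := 1045395039) (W3 := 1503240) (N0 := 3) (En := eng) (mo := mog) (C1 := cd0q0) (C2 := cd2q2b) (C3 := pd2)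
    rfl (fun _ => rfl) k0_pp_022_b

noncomputable def f_pp_023_a : ℕ → ℕ → ℕ → ℕ → Bool := onCell 0 536870912 0 536870912 1045395039 1503240
    (rowB 3 eng mog cd0q0 cd2q2a pd3 0 true true true .up 0 2 3 (qsf 0 536870912 0 536870912 3) ndB0q0 ndB2q2a pcB3 Cut.none Ext.none)

def k0_pp_023_a : ∃ t, chk3 f_pp_023_a t 1 1 1 = true :=
  ⟨(a (l 1) (l 4)), by decide +kernel⟩

theorem c_pp_023_a : CertB 0 536870912 0 536870912 1045395039 1503240 3 eng mog cd0q0 cd2q2a pd3 true true true .up 0 2 3
    ndB0q0 ndB2q2a pcB3 Cut.none Ext.none :=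
  certB0 (fam := true) (s1 := true) (s2 := true) (a := 0) (b := 2) (c := 3) (cn := .up) (n1 := ndB0q0) (n2 := ndB2q2a) (pc := pcB3) (cut := Cut.none) (xt := Ext.none) (P1 := 0) (W1 := 536870912) (P2 := 0) (W2 := 536870912) (P3 := 1045395039) (W3 := 1503240) (N0 := 3) (En := eng) (mo := mog) (C1 := cd0q0) (C2 := cd2q2a) (C3 := pd3)
    rfl k0_pp_023_a

noncomputable def f_pp_023_b : ℕ → ℕ → ℕ → ℕ → Bool := onCell 1610612736 536870912 1239849684 370763052 1045395039 1503240
    (rowB 3 eng mog cd0q0 cd2q2b pd3 2 true true true .up 0 2 3 (qsf 0 536870912 1239849684 370763052 3) ndB0q0 ndB2q2b pcB3 Cut.none Ext.none)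

def k0_pp_023_b : ∃ t, chk3 f_pp_023_b t 1 1 1 = true :=
  ⟨(a (l 4) (l 4)), by decide +kernel⟩

theorem c_pp_023_b : CertB 0 536870912 1239849684 370763052 1045395039 1503240 3 eng mog cd0q0 cd2q2b pd3 true true true .up 0 2 3
    ndB0q0 ndB2q2b pcB3 Cut.none Ext.none :=
  certB2 (fam := true) (s1 := true) (s2 := true) (a := 0) (b := 2) (c := 3) (cn := .up) (n1 := ndB0q0) (n2 := ndB2q2b) (pc := pcB3) (cut := Cut.none) (xt := Ext.none) (P1 := 0) (W1 := 536870912) (P2 := 1239849684) (W2 := 370763052) (P3 := 1045395039) (W3 := 1503240) (N0 := 3) (En := eng) (mo := mog) (C1 := cd0q0) (C2 := cd2q2b) (C3 := pd3)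
    rfl (fun _ => rfl) k0_pp_023_b

noncomputable def f_pp_033 : ℕ → ℕ → ℕ → ℕ → Bool := onCell 0 536870912 1610612736 536870912 1045395039 1503240
    (rowB 3 eng mog cd0q0 cd2q3 pd3 0 true true true .pnn 0 3 3 (qsf 0 536870912 1610612736 536870912 3) ndB0q0 ndB2q3 pcB3 Cut.none Ext.none)

def k0_pp_033 : ∃ t, chk3 f_pp_033 t 1 1 1 = true :=
  ⟨(a (l 4) (l 4)), by decide +kernel⟩

theorem c_pp_033 : CertB 0 536870912 1610612736 536870912 1045395039 1503240 3 eng mog cd0q0 cd2q3 pd3 true true true .pnn 0 3 3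
    ndB0q0 ndB2q3 pcB3 Cut.none Ext.none :=
  certB0 (fam := true) (s1 := true) (s2 := true) (a := 0) (b := 3) (c := 3) (cn := .pnn) (n1 := ndB0q0) (n2 := ndB2q3) (pc := pcB3) (cut := Cut.none) (xt := Ext.none) (P1 := 0) (W1 := 536870912) (P2 := 1610612736) (W2 := 536870912) (P3 := 1045395039) (W3 := 1503240) (N0 := 3) (En := eng) (mo := mog) (C1 := cd0q0) (C2 := cd2q3) (C3 := pd3)
    rfl k0_pp_033

noncomputable def f_pp_101 : ℕ → ℕ → ℕ → ℕ → Bool := onCell 536870912 536870912 0 536870912 1045395039 1503240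
    (rowB 3 eng mog cd0q1 cd2q0 pd1 0 true true true .npn 1 0 1 (qsf 536870912 536870912 0 536870912 1) ndB0q1 ndB2q0 pcB1 Cut.none Ext.none)

def k0_pp_101 : ∃ t, chk3 f_pp_101 t 1 1 1 = true :=
  ⟨(l 5), by decide +kernel⟩

theorem c_pp_101 : CertB 536870912 536870912 0 536870912 1045395039 1503240 3 eng mog cd0q1 cd2q0 pd1 true true true .npn 1 0 1
    ndB0q1 ndB2q0 pcB1 Cut.none Ext.none :=
  certB0 (fam := true) (s1 := true) (s2 := true) (a := 1) (b := 0) (c := 1) (cn := .npn) (n1 := ndB0q1) (n2 := ndB2q0) (pc := pcB1) (cut := Cut.none) (xt := Ext.none) (P1 := 536870912) (W1 := 536870912) (P2 := 0) (W2 := 536870912) (P3 := 1045395039) (W3 := 1503240) (N0 := 3) (En := eng) (mo := mog) (C1 := cd0q1) (C2 := cd2q0) (C3 := pd1)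
    rfl k0_pp_101

noncomputable def f_pp_102 : ℕ → ℕ → ℕ → ℕ → Bool := onCell 536870912 536870912 0 536870912 1045395039 1503240
    (rowB 3 eng mog cd0q1 cd2q0 pd2 0 true true true .npp 1 0 2 (qsf 536870912 536870912 0 536870912 2) ndB0q1 ndB2q0 pcB2 Cut.none Ext.none)

def k0_pp_102 : ∃ t, chk3 f_pp_102 t 1 1 1 = true :=
  ⟨(l 5), by decide +kernel⟩

theorem c_pp_102 : CertB 536870912 536870912 0 536870912 1045395039 1503240 3 eng mog cd0q1 cd2q0 pd2 true true true .npp 1 0 2
    ndB0q1 ndB2q0 pcB2 Cut.none Ext.none :=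
  certB0 (fam := true) (s1 := true) (s2 := true) (a := 1) (b := 0) (c := 2) (cn := .npp) (n1 := ndB0q1) (n2 := ndB2q0) (pc := pcB2) (cut := Cut.none) (xt := Ext.none) (P1 := 536870912) (W1 := 536870912) (P2 := 0) (W2 := 536870912) (P3 := 1045395039) (W3 := 1503240) (N0 := 3) (En := eng) (mo := mog) (C1 := cd0q1) (C2 := cd2q0) (C3 := pd2)
    rfl k0_pp_102

noncomputable def f_pp_112 : ℕ → ℕ → ℕ → ℕ → Bool := onCell 536870912 536870912 536870912 536870912 1045395039 1503240
    (rowB 3 eng mog cd0q1 cd2q1 pd2 0 true true true .dn 1 1 2 (qsf 536870912 536870912 536870912 536870912 2) ndB0q1 ndB2q1 pcB2 Cut.none Ext.none)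

def k0_pp_112 : ∃ t, chk3 f_pp_112 t 1 1 1 = true :=
  ⟨(l 4), by decide +kernel⟩

theorem c_pp_112 : CertB 536870912 536870912 536870912 536870912 1045395039 1503240 3 eng mog cd0q1 cd2q1 pd2 true true true .dn 1 1 2
    ndB0q1 ndB2q1 pcB2 Cut.none Ext.none :=
  certB0 (fam := true) (s1 := true) (s2 := true) (a := 1) (b := 1) (c := 2) (cn := .dn) (n1 := ndB0q1) (n2 := ndB2q1) (pc := pcB2) (cut := Cut.none) (xt := Ext.none) (P1 := 536870912) (W1 := 536870912) (P2 := 536870912) (W2 := 536870912) (P3 := 1045395039) (W3 := 1503240) (N0 := 3) (En := eng) (mo := mog) (C1 := cd0q1) (C2 := cd2q1) (C3 := pd2)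
    rfl k0_pp_112

noncomputable def f_pp_113 : ℕ → ℕ → ℕ → ℕ → Bool := onCell 536870912 536870912 536870912 536870912 1045395039 1503240
    (rowB 3 eng mog cd0q1 cd2q1 pd3 0 true true true .nn 1 1 3 (qsf 536870912 536870912 536870912 536870912 3) ndB0q1 ndB2q1 pcB3 Cut.none Ext.none)

def k0_pp_113 : ∃ t, chk3 f_pp_113 t 1 1 1 = true :=
  ⟨(l 4), by decide +kernel⟩

theorem c_pp_113 : CertB 536870912 536870912 536870912 536870912 1045395039 1503240 3 eng mog cd0q1 cd2q1 pd3 true true true .nn 1 1 3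
    ndB0q1 ndB2q1 pcB3 Cut.none Ext.none :=
  certB0 (fam := true) (s1 := true) (s2 := true) (a := 1) (b := 1) (c := 3) (cn := .nn) (n1 := ndB0q1) (n2 := ndB2q1) (pc := pcB3) (cut := Cut.none) (xt := Ext.none) (P1 := 536870912) (W1 := 536870912) (P2 := 536870912) (W2 := 536870912) (P3 := 1045395039) (W3 := 1503240) (N0 := 3) (En := eng) (mo := mog) (C1 := cd0q1) (C2 := cd2q1) (C3 := pd3)
    rfl k0_pp_113

noncomputable def f_pp_123_a : ℕ → ℕ → ℕ → ℕ → Bool := onCell 536870912 536870912 0 536870912 1045395039 1503240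
    (rowB 3 eng mog cd0q1 cd2q2a pd3 0 true true true .npn 1 2 3 (qsf 536870912 536870912 0 536870912 3) ndB0q1 ndB2q2a pcB3 Cut.none Ext.none)

def k0_pp_123_a : ∃ t, chk3 f_pp_123_a t 1 1 1 = true :=
  ⟨(l 4), by decide +kernel⟩

theorem c_pp_123_a : CertB 536870912 536870912 0 536870912 1045395039 1503240 3 eng mog cd0q1 cd2q2a pd3 true true true .npn 1 2 3
    ndB0q1 ndB2q2a pcB3 Cut.none Ext.none :=
  certB0 (fam := true) (s1 := true) (s2 := true) (a := 1) (b := 2) (c := 3) (cn := .npn) (n1 := ndB0q1) (n2 := ndB2q2a) (pc := pcB3) (cut := Cut.none) (xt := Ext.none) (P1 := 536870912) (W1 := 536870912) (P2 := 0) (W2 := 536870912) (P3 := 1045395039) (W3 := 1503240) (N0 := 3) (En := eng) (mo := mog) (C1 := cd0q1) (C2 := cd2q2a) (C3 := pd3)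
    rfl k0_pp_123_a

noncomputable def f_pp_123_b : ℕ → ℕ → ℕ → ℕ → Bool := onCell 536870912 536870912 1239849684 370763052 1045395039 1503240
    (rowB 3 eng mog cd0q1 cd2q2b pd3 0 true true true .npn 1 2 3 (qsf 536870912 536870912 1239849684 370763052 3) ndB0q1 ndB2q2b pcB3 Cut.none Ext.none)

def k0_pp_123_b : ∃ t, chk3 f_pp_123_b t 1 1 1 = true :=
  ⟨(l 4), by decide +kernel⟩

theorem c_pp_123_b : CertB 536870912 536870912 1239849684 370763052 1045395039 1503240 3 eng mog cd0q1 cd2q2b pd3 true true true .npn 1 2 3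
    ndB0q1 ndB2q2b pcB3 Cut.none Ext.none :=
  certB0 (fam := true) (s1 := true) (s2 := true) (a := 1) (b := 2) (c := 3) (cn := .npn) (n1 := ndB0q1) (n2 := ndB2q2b) (pc := pcB3) (cut := Cut.none) (xt := Ext.none) (P1 := 536870912) (W1 := 536870912) (P2 := 1239849684) (W2 := 370763052) (P3 := 1045395039) (W3 := 1503240) (N0 := 3) (En := eng) (mo := mog) (C1 := cd0q1) (C2 := cd2q2b) (C3 := pd3)
    rfl k0_pp_123_b

noncomputable def f_pp_133 : ℕ → ℕ → ℕ → ℕ → Bool := onCell 536870912 536870912 1610612736 536870912 1045395039 1503240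
    (rowB 3 eng mog cd0q1 cd2q3 pd3 0 true true true .dn 1 3 3 (qsf 536870912 536870912 1610612736 536870912 3) ndB0q1 ndB2q3 pcB3 Cut.none Ext.none)

def k0_pp_133 : ∃ t, chk3 f_pp_133 t 1 1 1 = true :=
  ⟨(l 4), by decide +kernel⟩

theorem c_pp_133 : CertB 536870912 536870912 1610612736 536870912 1045395039 1503240 3 eng mog cd0q1 cd2q3 pd3 true true true .dn 1 3 3
    ndB0q1 ndB2q3 pcB3 Cut.none Ext.none :=
  certB0 (fam := true) (s1 := true) (s2 := true) (a := 1) (b := 3) (c := 3) (cn := .dn) (n1 := ndB0q1) (n2 := ndB2q3) (pc := pcB3) (cut := Cut.none) (xt := Ext.none) (P1 := 536870912) (W1 := 536870912) (P2 := 1610612736) (W2 := 536870912) (P3 := 1045395039) (W3 := 1503240) (N0 := 3) (En := eng) (mo := mog) (C1 := cd0q1) (C2 := cd2q3) (C3 := pd3)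
    rfl k0_pp_133

noncomputable def f_pp_202 : ℕ → ℕ → ℕ → ℕ → Bool := onCell 0 536870912 0 536870912 1045395039 1503240
    (rowB 3 eng mog cd0q2 cd2q0 pd2 0 true true true .pp 2 0 2 (qsf 0 536870912 0 536870912 2) ndB0q2 ndB2q0 pcB2 Cut.none Ext.none)

def k0_pp_202 : ∃ t, chk3 f_pp_202 t 1 1 1 = true :=
  ⟨(l 5), by decide +kernel⟩

theorem c_pp_202 : CertB 0 536870912 0 536870912 1045395039 1503240 3 eng mog cd0q2 cd2q0 pd2 true true true .pp 2 0 2
    ndB0q2 ndB2q0 pcB2 Cut.none Ext.none :=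
  certB0 (fam := true) (s1 := true) (s2 := true) (a := 2) (b := 0) (c := 2) (cn := .pp) (n1 := ndB0q2) (n2 := ndB2q0) (pc := pcB2) (cut := Cut.none) (xt := Ext.none) (P1 := 0) (W1 := 536870912) (P2 := 0) (W2 := 536870912) (P3 := 1045395039) (W3 := 1503240) (N0 := 3) (En := eng) (mo := mog) (C1 := cd0q2) (C2 := cd2q0) (C3 := pd2)
    rfl k0_pp_202

noncomputable def f_pp_203 : ℕ → ℕ → ℕ → ℕ → Bool := onCell 0 536870912 0 536870912 1045395039 1503240
    (rowB 3 eng mog cd0q2 cd2q0 pd3 0 true true true .up 2 0 3 (qsf 0 536870912 0 536870912 3) ndB0q2 ndB2q0 pcB3 Cut.none Ext.none)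

def k0_pp_203 : ∃ t, chk3 f_pp_203 t 1 1 1 = true :=
  ⟨(l 5), by decide +kernel⟩

theorem c_pp_203 : CertB 0 536870912 0 536870912 1045395039 1503240 3 eng mog cd0q2 cd2q0 pd3 true true true .up 2 0 3
    ndB0q2 ndB2q0 pcB3 Cut.none Ext.none :=
  certB0 (fam := true) (s1 := true) (s2 := true) (a := 2) (b := 0) (c := 3) (cn := .up) (n1 := ndB0q2) (n2 := ndB2q0) (pc := pcB3) (cut := Cut.none) (xt := Ext.none) (P1 := 0) (W1 := 536870912) (P2 := 0) (W2 := 536870912) (P3 := 1045395039) (W3 := 1503240) (N0 := 3) (En := eng) (mo := mog) (C1 := cd0q2) (C2 := cd2q0) (C3 := pd3)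
    rfl k0_pp_203

noncomputable def f_pp_213 : ℕ → ℕ → ℕ → ℕ → Bool := onCell 0 536870912 536870912 536870912 1045395039 1503240
    (rowB 3 eng mog cd0q2 cd2q1 pd3 0 true true true .pnn 2 1 3 (qsf 0 536870912 536870912 536870912 3) ndB0q2 ndB2q1 pcB3 Cut.none Ext.none)

def k0_pp_213 : ∃ t, chk3 f_pp_213 t 1 1 1 = true :=
  ⟨(l 4), by decide +kernel⟩

theorem c_pp_213 : CertB 0 536870912 536870912 536870912 1045395039 1503240 3 eng mog cd0q2 cd2q1 pd3 true true true .pnn 2 1 3
    ndB0q2 ndB2q1 pcB3 Cut.none Ext.none :=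
  certB0 (fam := true) (s1 := true) (s2 := true) (a := 2) (b := 1) (c := 3) (cn := .pnn) (n1 := ndB0q2) (n2 := ndB2q1) (pc := pcB3) (cut := Cut.none) (xt := Ext.none) (P1 := 0) (W1 := 536870912) (P2 := 536870912) (W2 := 536870912) (P3 := 1045395039) (W3 := 1503240) (N0 := 3) (En := eng) (mo := mog) (C1 := cd0q2) (C2 := cd2q1) (C3 := pd3)
    rfl k0_pp_213

noncomputable def f_pm_001 : ℕ → ℕ → ℕ → ℕ → Bool := onCell 0 536870912 0 536870912 1045395039 1503240
    (rowB 3 eng mog cd0q0 cd2q0 pd1 0 true true false .up 0 0 1 (qsf 0 536870912 0 536870912 1) ndB0q0 ndB2q0 pcB1 Cut.none Ext.none)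

def k0_pm_001 : ∃ t, chk3 f_pm_001 t 1 1 1 = true :=
  ⟨(l 3), by decide +kernel⟩

theorem c_pm_001 : CertB 0 536870912 0 536870912 1045395039 1503240 3 eng mog cd0q0 cd2q0 pd1 true true false .up 0 0 1
    ndB0q0 ndB2q0 pcB1 Cut.none Ext.none :=
  certB0 (fam := true) (s1 := true) (s2 := false) (a := 0) (b := 0) (c := 1) (cn := .up) (n1 := ndB0q0) (n2 := ndB2q0) (pc := pcB1) (cut := Cut.none) (xt := Ext.none) (P1 := 0) (W1 := 536870912) (P2 := 0) (W2 := 536870912) (P3 := 1045395039) (W3 := 1503240) (N0 := 3) (En := eng) (mo := mog) (C1 := cd0q0) (C2 := cd2q0) (C3 := pd1)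
    rfl k0_pm_001

noncomputable def f_pm_011 : ℕ → ℕ → ℕ → ℕ → Bool := onCell 0 536870912 536870912 536870912 1045395039 1503240
    (rowB 3 eng mog cd0q0 cd2q1 pd1 1 true true false .pnn 0 1 1 (qsf 0 536870912 536870912 536870912 1) ndB0q0 ndB2q1 pcB1 Cut.none Ext.none)

def k0_pm_011 : ∃ t, chk3 f_pm_011 t 1 1 1 = true :=
  ⟨(l 3), by decide +kernel⟩

theorem c_pm_011 : CertB 0 536870912 536870912 536870912 1045395039 1503240 3 eng mog cd0q0 cd2q1 pd1 true true false .pnn 0 1 1
    ndB0q0 ndB2q1 pcB1 Cut.none Ext.none :=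
  certB1 (fam := true) (s1 := true) (s2 := false) (a := 0) (b := 1) (c := 1) (cn := .pnn) (n1 := ndB0q0) (n2 := ndB2q1) (pc := pcB1) (cut := Cut.none) (xt := Ext.none) (P1 := 0) (W1 := 536870912) (P2 := 536870912) (W2 := 536870912) (P3 := 1045395039) (W3 := 1503240) (N0 := 3) (En := eng) (mo := mog) (C1 := cd0q0) (C2 := cd2q1) (C3 := pd1)
    rfl (fun _ => rfl) k0_pm_011

noncomputable def f_pm_012 : ℕ → ℕ → ℕ → ℕ → Bool := onCell 0 536870912 1073741824 536870912 1045395039 1503240
    (rowB 3 eng mog cd0q0 cd2q1 pd2 1 true true false .pnp 0 1 2 (qsf 0 536870912 536870912 536870912 2) ndB0q0 ndB2q1 pcB2 Cut.none Ext.none)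

def k0_pm_012 : ∃ t, chk3 f_pm_012 t 1 2 1 = true :=
  ⟨(b (b (l 3) (a (a (l 3) (a (l 3) (l 3))) (a (b (l 3) (a (b (l 3) (l 16061536)) (b (l 16056616) (l 16098280)))) (b (a (l 3) (b (l 3) (a (l 3) (l 16088272)))) (a (b (l 200955980951) (b (l 16121360) (l 16144752))) (b (b (l 16112768) (l 16135568)) (b (l 16160792) (l 16191040)))))))) (a (a (a (l 2) (b (b (b (l 3) (l 2)) (l 2)) (l 2))) (b (b (b (a (a (b (l 3) (l 15958736)) (l 15944872)) (b (l 16043544) (l 16060920))) (b (a (a (l 15994560) (l 16031560)) (l 16079544)) (b (a (a (l 16005208) (l 16043832)) (l 16097376)) (a (a (l 16016824) (l 16060432)) (l 16119776))))) (a (a (l 16048216) (l 16097792)) (l 16160424))) (a (a (l 2) (b (l 16137896) (l 2))) (a (b (l 16187280) (l 16219264)) (l 16251360))))) (b (b (b (a (a (b (l 16090192) (l 16110056)) (b (l 16129784) (l 16155416))) (a (b (l 16172184) (l 16207376)) (l 16245560))) (a (b (a (l 16135064) (l 16190464)) (a (b (l 16162464) (l 16184464)) (b (l 16218320) (l 16238712)))) (a (b (l 16243040)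 (a (l 16260936) (l 16282704))) (b (l 16296736) (b (l 16322032) (b (l 16333288) (l 16316112))))))) (a (a (l 16228744) (l 16285816)) (a (l 16337880) (l 16361728)))) (a (a (b (l 16287120) (l 16332880)) (l 16359952)) (a (l 16401696) (a (l 16490008) (l 16503672))))))), by decide +kernel⟩

def k1_pm_012 : ∃ t, chk3 f_pm_012 t 1 3 1 = true :=
  ⟨(a (a (l 2) (b (a (l 2) (b (a (l 2) (l 16297776)) (l 2))) (l 2))) (a (b (a (b (b (l 16365536) (l 16384600)) (a (l 2) (l 16394968))) (b (l 16464864) (l 16377424))) (a (l 2) (b (a (l 2) (l 16158592)) (l 2)))) (b (a (b (l 16543600) (l 16381576)) (b (a (l 16600960) (l 16620432)) (a (l 16398528) (l 16380528)))) (a (b (l 16092024) (a (l 2) (l 15940968))) (b (a (l 16169992) (l 16196248)) (a (l 15942624) (l 15960160))))))), by decide +kernel⟩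

theorem s2_pm_012 : ∃ t, chk3 f_pm_012 t 1 1 1 = true := ex3_b k0_pm_012 k1_pm_012

theorem c_pm_012 : CertB 0 536870912 536870912 536870912 1045395039 1503240 3 eng mog cd0q0 cd2q1 pd2 true true false .pnp 0 1 2
    ndB0q0 ndB2q1 pcB2 Cut.none Ext.none :=
  certB1 (fam := true) (s1 := true) (s2 := false) (a := 0) (b := 1) (c := 2) (cn := .pnp) (n1 := ndB0q0) (n2 := ndB2q1) (pc := pcB2) (cut := Cut.none) (xt := Ext.none) (P1 := 0) (W1 := 536870912) (P2 := 536870912) (W2 := 536870912) (P3 := 1045395039) (W3 := 1503240) (N0 := 3) (En := eng) (mo := mog) (C1 := cd0q0) (C2 := cd2q1) (C3 := pd2)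
    rfl (fun _ => rfl) s2_pm_012

noncomputable def cut_pm_022_a : Cut := Cut.of [[⟨0, 0, 0, 26843545⟩, ⟨1, 1, 0, 26843545⟩, ⟨2, 1, 0, 26843545⟩]]

noncomputable def f_pm_022_a : ℕ → ℕ → ℕ → ℕ → Bool := onCell 1073741824 536870912 0 536870912 1045395039 1503240
    (rowB 3 eng mog cd0q0 cd2q2a pd2 2 true true false .pp 0 2 2 (qsf 0 536870912 0 536870912 2) ndB0q0 ndB2q2a pcB2 cut_pm_022_a Ext.none)

def k0_pm_022_a : ∃ t, chk3 f_pm_022_a t 8 1 1 = true :=
  ⟨(b (l 1) (b (l 1) (a (b (l 1) (a (b (l 1) (l 6)) (a (b (b (l 1) (b (l 1) (l 6))) (l 6)) (b (b (b (l 1) (l 16498584)) (b (a (l 16530896) (l 16536976)) (a (l 16568048) (l 16574296)))) (b (b (a (l 16607368) (l 16613800)) (a (l 16648952) (l 16655552))) (b (a (l 16671880) (l 16678760)) (a (b (l 16706416) (l 16727232)) (b (l 16712416) (l 16714392))))))))) (b (b (a (l 1) (b (l 1) (a (l 1) (l 16396040)))) (a (b (l 1) (a (l 16454400) (b (l 16437512) (l 16467824)))) (b (a (b (l 16404520) (l 16431872)) (l 16424280)) (a (l 16476592) (b (l 16489328)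 (l 16521928)))))) (b (a (b (a (b (l 16479968) (l 16513520)) (b (l 16500056) (l 16534264))) (a (b (l 16549104) (l 16586792)) (b (l 16570520) (l 16567208)))) (b (a (b (l 16525320) (l 16560752)) (b (l 16555424) (l 16567704))) (a (b (l 16576192) (l 16590264)) (b (l 16622904) (l 16634856))))) (a (b (a (b (a (l 16621968) (l 16632064)) (b (l 16637208) (l 16658456))) (b (a (l 16643048) (l 16653928)) (l 16645384))) (a (b (a (l 16686376) (l 16693856)) (a (l 16710120) (l 16697352))) (b (b (l 16694480) (l 16700800)) (l 16679072)))) (a (b (b (l 16648080) (l 16681672)) (l 16645424)) (b (l 16660328) (l 16617760))))))))), by decide +kernel⟩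

def k1_pm_022_a : ∃ t, chk3 f_pm_022_a t 9 1 1 = true :=
  ⟨(b (b (l 1) (a (l 1) (b (l 1) (a (l 1) (l 16381128))))) (b (a (b (l 1) (b (a (l 1) (l 16352264)) (a (b (l 16332688) (l 16363016)) (b (l 16393584) (a (l 16410432) (l 16447856)))))) (b (a (b (l 16349328) (l 16377560)) (b (l 16423296) (a (l 16436040) (l 16480480)))) (b (a (b (l 16409632) (l 16375800)) (a (l 16422368) (b (l 16514536) (l 16540152)))) (a (a (b (l 16450424) (l 16486008)) (b (l 16490296) (l 16524736))) (b (a (l 16529864) (l 16563168)) (l 16572616)))))) (b (a (b (a (b (l 16399088) (a (l 16425312) (l 16438624))) (b (a (l 16450888) (l 16488248)) (a (l 16495392) (l 16530672)))) (a (b (a (b (l 16461608) (l 16491208)) (b (l 16496208) (l 16524608))) (a (b (l 16521984) (l 16553104)) (l 16527000))) (b (a (b (l 16530760) (l 16556624)) (b (l 16561600) (l 16583056))) (l 16565168)))) (b (a (b (a (l 16524944) (l 16556096)) (a (l 16521424) (l 16588512))) (l 16550856)) (a (b (b (l 16579040) (l 16599672)) (l 16599688)) (b (b (l 16606248)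 (l 16555144)) (l 16535864))))) (a (b (a (b (a (b (l 16585104) (l 16615584)) (l 16602800)) (l 16606400)) (b (l 16594192) (l 16577696))) (a (b (a (l 16636336) (l 16626576)) (a (l 16589624) (l 16582208))) (b (a (l 16596048) (l 16586712)) (a (l 16553320) (l 16544928))))) (b (a (b (l 16569160) (l 16514920)) (b (l 16527512) (l 16473744))) (a (b (a (l 16556208) (l 16525528)) (a (l 16515040) (l 16484552))) (b (a (l 16494560) (l 16463160)) (a (l 16453128) (l 16421320))))))))), by decide +kernel⟩

def k2_pm_022_a : ∃ t, chk3 f_pm_022_a t 5 2 1 = true :=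
  ⟨(a (b (a (b (l 16397184) (l 16320080)) (a (b (l 16311656) (l 16299976)) (b (l 16217216) (l 16212328)))) (a (b (b (a (l 16458744) (l 16375360)) (l 16323968)) (a (b (l 16480576) (l 16449656)) (b (l 16389632) (l 16392536)))) (b (a (b (l 16244016) (l 16304048)) (b (l 16197352) (l 16211064))) (a (b (l 16317400) (a (l 16385016) (l 16344872))) (l 16267688))))) (b (b (a (l 16088720) (l 15939016)) (a (l 16093368) (l 15954536))) (b (a (b (l 16088640) (a (l 16129672) (l 16057072))) (a (l 15992384) (l 15928704))) (a (a (l 16189520) (l 16115424)) (a (l 16043608) (l 15972216)))))), by decide +kernel⟩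

def k3_pm_022_a : ∃ t, chk3 f_pm_022_a t 5 3 1 = true :=
  ⟨(b (a (a (b (a (b (a (l 16469088) (l 16536080)) (a (l 16524184) (l 16546080))) (b (a (l 16495576) (l 16448552)) (l 16486472))) (a (b (b (l 16525584) (l 16569912)) (l 16545000)) (b (l 16494976) (l 16496528)))) (b (b (l 16331416) (l 16332520)) (b (l 16305816) (a (l 16430760) (l 16365960))))) (b (a (a (l 16256776) (l 16187824)) (b (l 16070816) (l 16105408))) (a (b (l 16258448) (l 16272248)) (b (l 16132160) (l 16152392))))) (a (a (b (b (a (l 16512096) (l 16490096)) (a (b (a (l 16555320) (l 16524632)) (l 16453840)) (a (b (l 16494400) (l 16471728)) (a (b (l 16471512) (l 16449280)) (a (b (l 16460320) (l 16438168)) (a (a (a (l 16444304) (a (l 16443584) (l 16422448))) (l 16441624)) (l 16438912))))))) (a (a (b (l 16464824) (l 16347336)) (b (l 16454288) (l 16377776))) (a (b (l 16422800) (l 16343992)) (a (b (l 16398648) (l 16318176)) (a (b (l 16385984) (l 16303936)) (b (b (l 16396224) (l 16358152)) (l 16294208))))))) (b (b (a (l 16427048)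 (l 16365856)) (b (l 16325672) (a (l 16397280) (l 16340880)))) (b (a (l 16345488) (l 16291896)) (a (l 16263496) (l 16212624))))) (b (a (b (l 16275984) (b (l 16272752) (l 16261120))) (b (l 16164256) (l 16167232))) (a (b (l 16216368) (l 16141048)) (l 16089424))))), by decide +kernel⟩

def k4_pm_022_a : ∃ t, chk3 f_pm_022_a t 3 1 1 = true :=
  ⟨(b (a (b (a (a (b (l 15802312) (l 15826728)) (l 15586848)) (a (l 15582736) (l 15487440))) (a (b (a (l 15838424) (l 15729136)) (a (b (a (l 15881384) (l 15820080)) (l 15896616)) (b (l 15741216) (l 15774040)))) (b (l 15589624) (a (l 15661008) (l 15580040))))) (a (b (b (l 15342736) (l 15399064)) (a (l 15496728) (l 15436216))) (b (l 15262712) (b (l 15351496) (l 15396728))))) (b (a (a (b (a (l 15962528) (l 15848200)) (a (l 16030232) (l 15927624))) (b (a (l 15745112) (l 15653304)) (a (l 15835016) (l 15752320)))) (a (b (a (l 15569568) (l 15504560)) (l 15647872)) (b (a (l 15458104) (l 15426944)) (l 15540792)))) (a (b (a (a (l 15966232) (l 15980560)) (a (l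 15897512) (l 15825072))) (a (a (l 16008136) (l 15849000)) (b (l 15862544) (l 15812040)))) (b (a (b (l 15713880) (l 15748584)) (a (l 15655640) (l 15614312))) (a (b (b (l 15766360) (l 15752080)) (l 15712424)) (b (b (l 15678544) (l 15669752)) (l 15614120))))))), by decide +kernel⟩

theorem s5_pm_022_a : ∃ t, chk3 f_pm_022_a t 5 1 1 = true := ex3_b k2_pm_022_a k3_pm_022_a

theorem s6_pm_022_a : ∃ t, chk3 f_pm_022_a t 4 1 1 = true := ex3_a k0_pm_022_a k1_pm_022_a

theorem s7_pm_022_a : ∃ t, chk3 f_pm_022_a t 2 1 1 = true := ex3_a s6_pm_022_a s5_pm_022_a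

theorem s8_pm_022_a : ∃ t, chk3 f_pm_022_a t 1 1 1 = true := ex3_a s7_pm_022_a k4_pm_022_a

theorem c_pm_022_a : CertB 0 536870912 0 536870912 1045395039 1503240 3 eng mog cd0q0 cd2q2a pd2 true true false .pp 0 2 2
    ndB0q0 ndB2q2a pcB2 cut_pm_022_a Ext.none :=
  certB2 (fam := true) (s1 := true) (s2 := false) (a := 0) (b := 2) (c := 2) (cn := .pp) (n1 := ndB0q0) (n2 := ndB2q2a) (pc := pcB2) (cut := cut_pm_022_a) (xt := Ext.none) (P1 := 0) (W1 := 536870912) (P2 := 0) (W2 := 536870912) (P3 := 1045395039) (W3 := 1503240) (N0 := 3) (En := eng) (mo := mog) (C1 := cd0q0) (C2 := cd2q2a) (C3 := pd2)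
    rfl (fun _ => rfl) s8_pm_022_a

noncomputable def cut_pm_022_b : Cut := Cut.of [[⟨0, 0, 0, 26843545⟩, ⟨1, 1, 0, 26843545⟩, ⟨2, 1, 0, 26843545⟩]]

noncomputable def f_pm_022_b : ℕ → ℕ → ℕ → ℕ → Bool := onCell 0 536870912 1073741824 536870912 1045395039 1503240
    (rowB 3 eng mog cd0q0 cd2q2b pd2 1 true true false .pp 0 2 2 (qsf 0 536870912 1239849684 370763052 2) ndB0q0 ndB2q2b pcB2 cut_pm_022_b Ext.none)

def k0_pm_022_b : ∃ t, chk3 f_pm_022_b t 1 1 1 = true :=
  ⟨(a (a (b (b (l 1) (a (a (b (a (l 208338296887) (l 225518050039)) (a (l 16120216) (l 16046352))) (b (b (l 1) (l 260951405383)) (b (l 16086136) (l 15989176)))) (b (l 1) (a (b (l 229812589111) (l 15930808)) (b (l 1) (l 233033526839)))))) (a (b (a (b (a (l 15875216) (l 15859728)) (a (l 15605528) (l 15606936))) (b (l 15791272) (l 15604768))) (a (b (a (l 15312736) (l 15331168)) (l 14832384)) (b (l 15353592) (l 15085312)))) (b (b (a (b (l 15842952) (l 15749616)) (b (l 15789568) (l 15710656))) (a (l 15598136) (l 15581320))) (b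 (a (l 15377320) (l 15390368)) (a (l 15139112) (l 15181816)))))) (b (l 1) (b (b (a (a (a (l 143376055623) (l 183104418343)) (l 239475443111)) (l 1)) (a (a (l 15551640) (l 15511728)) (b (l 244306932007) (l 15415224)))) (b (a (a (l 15390904) (l 15380752)) (a (l 15360584) (l 15330888))) (a (a (l 15212440) (l 15232000)) (l 15241552)))))) (b (l 1) (b (l 1) (a (a (b (l 212631148327) (l 15220280)) (b (l 1) (l 221220901223))) (l 1))))), by decide +kernel⟩

theorem c_pm_022_b : CertB 0 536870912 1239849684 370763052 1045395039 1503240 3 eng mog cd0q0 cd2q2b pd2 true true false .pp 0 2 2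
    ndB0q0 ndB2q2b pcB2 cut_pm_022_b Ext.none :=
  certB1 (fam := true) (s1 := true) (s2 := false) (a := 0) (b := 2) (c := 2) (cn := .pp) (n1 := ndB0q0) (n2 := ndB2q2b) (pc := pcB2) (cut := cut_pm_022_b) (xt := Ext.none) (P1 := 0) (W1 := 536870912) (P2 := 1239849684) (W2 := 370763052) (P3 := 1045395039) (W3 := 1503240) (N0 := 3) (En := eng) (mo := mog) (C1 := cd0q0) (C2 := cd2q2b) (C3 := pd2)
    rfl (fun _ => rfl) k0_pm_022_b

noncomputable def f_pm_023_a : ℕ → ℕ → ℕ → ℕ → Bool := onCell 0 536870912 0 536870912 1045395039 1503240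
    (rowB 3 eng mog cd0q0 cd2q2a pd3 0 true true false .up 0 2 3 (qsf 0 536870912 0 536870912 3) ndB0q0 ndB2q2a pcB3 Cut.none Ext.none)

def k0_pm_023_a : ∃ t, chk3 f_pm_023_a t 1 1 1 = true :=
  ⟨(a (l 1) (b (a (a (l 1) (l 16483400)) (a (l 16395888) (l 16263104))) (b (a (l 1) (a (l 16223056) (l 16027144))) (a (l 1) (b (a (l 16148016) (l 16038344)) (a (l 1) (b (a (l 283499521895) (b (l 15936176) (l 15922784))) (a (l 1) (l 15995264))))))))), by decide +kernel⟩

theorem c_pm_023_a : CertB 0 536870912 0 536870912 1045395039 1503240 3 eng mog cd0q0 cd2q2a pd3 true true false .up 0 2 3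
    ndB0q0 ndB2q2a pcB3 Cut.none Ext.none :=
  certB0 (fam := true) (s1 := true) (s2 := false) (a := 0) (b := 2) (c := 3) (cn := .up) (n1 := ndB0q0) (n2 := ndB2q2a) (pc := pcB3) (cut := Cut.none) (xt := Ext.none) (P1 := 0) (W1 := 536870912) (P2 := 0) (W2 := 536870912) (P3 := 1045395039) (W3 := 1503240) (N0 := 3) (En := eng) (mo := mog) (C1 := cd0q0) (C2 := cd2q2a) (C3 := pd3)
    rfl k0_pm_023_a

noncomputable def f_pm_023_b : ℕ → ℕ → ℕ → ℕ → Bool := onCell 0 536870912 1610612736 536870912 1045395039 1503240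
    (rowB 3 eng mog cd0q0 cd2q2b pd3 1 true true false .up 0 2 3 (qsf 0 536870912 1239849684 370763052 3) ndB0q0 ndB2q2b pcB3 Cut.none Ext.none)

def k0_pm_023_b : ∃ t, chk3 f_pm_023_b t 1 1 1 = true :=
  ⟨(a (b (a (a (b (a (b (l 14994152) (l 2)) (l 15170256)) (l 2)) (b (b (l 15468912) (l 15392264)) (b (a (l 2) (l 15371424)) (l 2)))) (b (a (b (l 15789624) (l 15712400)) (l 15971488)) (b (a (l 15608328) (l 15895872)) (a (l 15307232) (l 15787384))))) (a (l 2) (b (b (b (l 15615024) (l 2)) (l 2)) (l 2)))) (b (b (a (a (l 16209176) (l 16466968)) (a (l 169683611111) (l 340945568439))) (a (b (a (l 16139984) (l 16344584)) (a (l 16023328) (l 16226472))) (a (l 16209032) (b (l 16498936) (l 16546992))))) (a (b (b (a (l 15958216) (l 16148784)) (b (l 16048648) (l 4))) (l 4)) (b (b (a (l 16196864) (l 16326872)) (b (l 16305184) (a (l 16297480) (l 16418024)))) (b (l 4) (l 4)))))), by decide +kernel⟩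

theorem c_pm_023_b : CertB 0 536870912 1239849684 370763052 1045395039 1503240 3 eng mog cd0q0 cd2q2b pd3 true true false .up 0 2 3
    ndB0q0 ndB2q2b pcB3 Cut.none Ext.none :=
  certB1 (fam := true) (s1 := true) (s2 := false) (a := 0) (b := 2) (c := 3) (cn := .up) (n1 := ndB0q0) (n2 := ndB2q2b) (pc := pcB3) (cut := Cut.none) (xt := Ext.none) (P1 := 0) (W1 := 536870912) (P2 := 1239849684) (W2 := 370763052) (P3 := 1045395039) (W3 := 1503240) (N0 := 3) (En := eng) (mo := mog) (C1 := cd0q0) (C2 := cd2q2b) (C3 := pd3)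
    rfl (fun _ => rfl) k0_pm_023_b

noncomputable def f_pm_033 : ℕ → ℕ → ℕ → ℕ → Bool := onCell 0 536870912 1610612736 536870912 1045395039 1503240
    (rowB 3 eng mog cd0q0 cd2q3 pd3 1 true true false .pnn 0 3 3 (qsf 0 536870912 1610612736 536870912 3) ndB0q0 ndB2q3 pcB3 Cut.none Ext.none)

def k0_pm_033 : ∃ t, chk3 f_pm_033 t 1 1 1 = true :=
  ⟨(a (b (a (a (b (a (b (a (l 13748688) (l 13901440)) (a (l 13858240) (l 14001032))) (b (l 14122808) (l 14208808))) (b (a (b (l 14007912) (l 14074272)) (b (l 14274584) (l 14328248))) (a (b (l 14154968) (l 14245824)) (l 14228520)))) (b (b (a (l 14394304) (l 1)) (a (l 14464248) (l 14712864))) (b (a (b (l 14519744) (l 14560208)) (l 14731688)) (b (a (l 14619960) (l 14838704)) (l 14800848))))) (b (a (b (l 1) (a (l 14958808) (l 1))) (l 1)) (b (a (a (l 15006880) (l 15236192)) (l 15389072)) (a (b (l 15146848) (l 15222784)) (b (l 15579664) (l 15618672)))))) (b (b (b (a (a (a (l 14341504) (l 14569312)) (l 14882280)) (a (l 15294616) (l 15682216))) (a (a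 (l 4) (l 14962088)) (a (l 15373312) (l 15760808)))) (a (l 4) (a (l 4) (b (l 4) (l 4))))) (l 4))) (b (b (l 1) (a (b (l 1) (a (b (l 1) (l 15883448)) (l 1))) (l 1))) (a (b (b (a (b (l 15914144) (l 15965728)) (l 456908085191)) (b (a (l 16032856) (l 15744640)) (l 4))) (l 4)) (b (b (l 1) (b (l 1) (a (l 15555792) (l 1)))) (b (l 4) (l 4)))))), by decide +kernel⟩

theorem c_pm_033 : CertB 0 536870912 1610612736 536870912 1045395039 1503240 3 eng mog cd0q0 cd2q3 pd3 true true false .pnn 0 3 3
    ndB0q0 ndB2q3 pcB3 Cut.none Ext.none :=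
  certB1 (fam := true) (s1 := true) (s2 := false) (a := 0) (b := 3) (c := 3) (cn := .pnn) (n1 := ndB0q0) (n2 := ndB2q3) (pc := pcB3) (cut := Cut.none) (xt := Ext.none) (P1 := 0) (W1 := 536870912) (P2 := 1610612736) (W2 := 536870912) (P3 := 1045395039) (W3 := 1503240) (N0 := 3) (En := eng) (mo := mog) (C1 := cd0q0) (C2 := cd2q3) (C3 := pd3)
    rfl (fun _ => rfl) k0_pm_033

noncomputable def cut_pm_101 : Cut := Cut.of [[⟨0, 1, 0, 26843545⟩, ⟨1, 0, 0, 26843545⟩, ⟨2, 1, 0, 26843545⟩]]

noncomputable def f_pm_101 : ℕ → ℕ → ℕ → ℕ → Bool := onCell 536870912 536870912 0 536870912 1045395039 1503240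
    (rowB 3 eng mog cd0q1 cd2q0 pd1 2 true true false .npn 1 0 1 (qsf 536870912 536870912 0 536870912 1) ndB0q1 ndB2q0 pcB1 cut_pm_101 Ext.none)

def k0_pm_101 : ∃ t, chk3 f_pm_101 t 1 1 1 = true :=
  ⟨(a (l 3) (b (a (l 3) (b (a (l 3) (b (a (l 3) (b (a (l 3) (b (a (l 3) (l 6)) (l 3))) (l 3))) (l 3))) (l 3))) (l 3))), by decide +kernel⟩

theorem c_pm_101 : CertB 536870912 536870912 0 536870912 1045395039 1503240 3 eng mog cd0q1 cd2q0 pd1 true true false .npn 1 0 1
    ndB0q1 ndB2q0 pcB1 cut_pm_101 Ext.none :=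
  certB2 (fam := true) (s1 := true) (s2 := false) (a := 1) (b := 0) (c := 1) (cn := .npn) (n1 := ndB0q1) (n2 := ndB2q0) (pc := pcB1) (cut := cut_pm_101) (xt := Ext.none) (P1 := 536870912) (W1 := 536870912) (P2 := 0) (W2 := 536870912) (P3 := 1045395039) (W3 := 1503240) (N0 := 3) (En := eng) (mo := mog) (C1 := cd0q1) (C2 := cd2q0) (C3 := pd1)
    rfl (fun _ => rfl) k0_pm_101

end Pool.Agent.Strip051.G.I9736_9750.Tab.C.BA02

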