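import Pool.Agent.Strip051.G.I9736_9750.Tab
import Pool.Agent.Strip051.PB.ExtD3

/-! # Certificates B4 (generated) -/

set_option linter.all false
set_option maxRecDepth 100000

namespace Pool.Agent.Strip051.G.I9736_9750.Tab.C.BA02

open Pool.Agent.Strip051.PB Pool.Agent.Strip051.PB.T
open Pool.Agent.Strip051.G.I9736_9750.Tab

noncomputable def cut_pm_102 : Cut := Cut.of [[⟨0, 1, 0, 13421772⟩, ⟨1, 0, 0, 13421772⟩, ⟨2, 1, 0, 13421772⟩]]

noncomputable def xt_pm_102 : Ext := extD3 3 ⟨4, 1, 1, 5, 33, 5, 163, 200, 81, 200, 1, 64⟩ eng cd0q1 cd2q0 pd2 true true false .npp 1 0 2 rfl ndB0q1 ndB2q0 pcB2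

noncomputable def f_pm_102 : ℕ → ℕ → ℕ → ℕ → Bool := onCell 536870912 536870912 1073741824 536870912 1045395039 1503240
    (rowB 3 eng mog cd0q1 cd2q0 pd2 1 true true false .npp 1 0 2 (qsf 536870912 536870912 0 536870912 2) ndB0q1 ndB2q0 pcB2 cut_pm_102 xt_pm_102)

def k0_pm_102 : ∃ t, chk3 f_pm_102 t 2 4 1 = true :=
  ⟨(b (b (l 3) (a (l 3) (b (l 3) (a (a (l 3) (b (l 3) (b (l 3) (l 14988896)))) (a (b (b (l 3) (l 349130412199)) (a (l 205249035975) (l 15091640))) (a (b (l 270747555063) (l 15137216)) (b (l 294906775543) (l 15187776)))))))) (a (b (a (b (l 3) (l 2)) (b (a (b (l 3) (a (l 14873272) (l 14866168))) (b (a (l 3) (l 14893784)) (a (l 14865072) (l 14869832)))) (a (b (a (l 14858856) (l 14849008)) (a (l 2) (l 14833392))) (b (a (l 14845200) (l 14847360)) (a (l 14827120) (l 14827152)))))) (a (l 2) (b (a (b (a (l 2) (l 14819816)) (l 2)) (a (l 14804680) (l 14801760))) (a (l 2) (a (l 14779184) (l 14771688)))))) (b (a (b (b (a (a (l 14906888) (l 14925504)) (a (l 14949440) (l 14978520))) (a (a (l 14880304)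 (l 14896328)) (a (l 14918032) (l 14945224)))) (b (a (a (l 14855480) (l 14869520)) (a (l 14889784) (l 14916344))) (a (l 14839360) (l 14876576)))) (b (a (b (a (l 15012768) (l 15052136)) (l 14976040)) (b (a (l 15096728) (l 15147192)) (l 15085808))) (a (l 14930400) (l 15034304)))) (a (b (a (a (l 14805096) (l 14814528)) (a (l 14829920) (l 14851104))) (a (a (l 14770480) (l 14775376)) (b (a (l 14796776) (l 14814464)) (a (l 14775064) (l 14787784))))) (b (a (a (l 14877904) (b (l 14924792) (l 14894688))) (b (l 14961256) (l 14922200))) (a (b (a (l 14836144) (l 14860000)) (l 14811096)) (l 14855656))))))), by decide +kernel⟩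

def k1_pm_102 : ∃ t, chk3 f_pm_102 t 4 5 1 = true :=
  ⟨(b (b (b (a (l 2) (a (l 2) (b (l 14756672) (l 2)))) (l 2)) (l 2)) (l 2)), by decide +kernel⟩

def k2_pm_102 : ∃ t, chk3 f_pm_102 t 5 40 1 = true :=
  ⟨(a (a (b (a (l 14746792) (b (l 14752232) (l 14741416))) (a (l 14729128) (l 14723312))) (b (a (l 14749832) (l 14756416)) (a (l 14722064) (l 14725192)))) (a (b (a (l 14767192) (l 14781920)) (a (l 14732512) (l 14743832))) (b (a (l 14800384) (l 14822360)) (a (l 14758944) (l 14777616))))), by decide +kernel⟩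

def k3_pm_102 : ∃ t, chk3 f_pm_102 t 5 41 1 = true :=
  ⟨(a (a (a (b (l 14709360) (l 2)) (b (l 14699832) (b (l 14682392) (a (l 2) (b (b (l 14672072) (l 14668336)) (b (b (b (l 14665672) (b (l 14664520) (b (b (l 14663824) (l 14663440)) (l 14663208)))) (l 14662656)) (l 14661200))))))) (b (a (l 14694912) (l 14694432)) (b (a (l 14674576) (l 14671272)) (b (a (b (l 14665664) (l 14661488)) (b (l 14661120) (l 14656376))) (a (b (b (b (l 14658512) (b (l 14657232) (b (b (a (l 14658632) (l 14654616)) (a (l 14658224) (l 14654184))) (l 14666272)))) (a (l 14657368) (l 14653256))) (a (l 14655768) (l 14651512))) (b (b (b (l 14653016) (b (a (l 14652592) (l 14650904)) (b (b (a (l 14651760) (l 14650032)) (a (l 14651296) (l 14649552))) (a (l 14651016) (l 14649256))))) (a (l 14650304) (l 14648488))) (a (l 14648408) (l 14646448)))))))) (b (a (a (l 14698216) (l 14706064)) (a (l 14717792) (l 14733160))) (b (a (a (l 14672312) (l 14677512)) (a (l 14686664) (l 14699568))) (a (b (a (b (l 14660968) (l 14655696)) (b (l 14665024)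 (l 14659264))) (a (b (b (b (l 14651984) (b (l 14650424) (b (b (l 14649496) (a (l 14648920) (l 14649376))) (l 14648680)))) (l 14647824)) (l 14645560)) (b (b (b (l 14655224) (b (l 14653560) (b (b (l 14652576) (a (l 14650904) (l 14653472))) (l 14651696)))) (l 14650736)) (l 14648168)))) (b (a (b (l 14673088) (l 14666888)) (l 14681392)) (a (b (b (b (l 14662560) (b (l 14660792) (a (l 14657256) (l 14661832)))) (l 14657768)) (l 14654904)) (b (b (b (l 14673776) (b (l 14671936) (l 14670488))) (l 14668728)) (l 14665560)))))))), by decide +kernel⟩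

def k4_pm_102 : ∃ t, chk3 f_pm_102 t 5 21 1 = true :=
  ⟨(a (a (a (l 2) (b (a (l 2) (b (l 14652752) (l 2))) (l 2))) (a (b (a (b (l 14646448) (l 14631032)) (b (l 14641320) (l 14624352))) (a (l 2) (l 14622760))) (b (a (b (l 14637344) (l 14618800)) (b (l 14634496) (l 14614376))) (a (l 14614856) (l 14587088))))) (a (a (b (a (b (l 14632752) (l 14611048)) (b (l 14632096) (l 14608792))) (a (l 14581360) (l 14576696))) (b (a (b (l 14632504) (l 14607584)) (l 14620536)) (a (l 14573072) (l 14570456)))) (a (b (a (l 14622184) (l 14624816)) (a (l 14568824) (l 14568160))) (b (a (l 14628400) (l 14632920)) (a (l 14568432) (l 14569624)))))), by decide +kernel⟩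

def k5_pm_102 : ∃ t, chk3 f_pm_102 t 5 11 1 = true :=
  ⟨(a (b (a (l 2) (a (l 2) (b (a (l 2) (l 14556024)) (l 2)))) (l 2)) (a (b (a (b (a (l 14547096) (l 14539208)) (a (l 2) (l 14507944))) (b (a (l 14532328) (l 14526432)) (a (l 14497792) (l 14488600)))) (a (l 2) (b (l 14463232) (l 2)))) (a (b (b (a (l 14521504) (l 14517512)) (l 14476584)) (b (l 14440048) (l 14409920))) (b (b (l 14513256) (l 14463680)) (b (l 14420352) (l 14383408)))))), by decide +kernel⟩

def k6_pm_102 : ∃ t, chk3 f_pm_102 t 2 3 1 = true :=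
  ⟨(a (l 2) (b (a (l 2) (b (b (a (l 2) (a (l 2) (b (l 14352968) (l 2)))) (l 2)) (l 2))) (l 2))), by decide +kernel⟩

def k7_pm_102 : ∃ t, chk3 f_pm_102 t 6 8 1 = true :=
  ⟨(b (b (l 3) (a (l 3) (a (l 3) (b (l 3) (a (b (l 3) (b (l 377586084711) (l 15850488))) (b (l 376512518151) (b (l 305645533559) (l 15925816)))))))) (a (b (a (b (l 3) (a (l 316381847415) (l 313697628951))) (b (b (l 3) (a (l 3) (l 339467704439))) (b (a (l 15479224) (l 15546992)) (a (l 15451488) (l 15518968))))) (a (b (b (a (l 15301344) (l 15361264)) (l 15306336)) (b (l 15283008) (l 15261744))) (b (b (a (l 15425048) (l 15493184)) (l 15435112)) (l 15403104)))) (b (a (b (b (a (l 369532652311) (b (l 15759336) (l 15743520))) (a (l 202028878119) (b (l 15727640) (l 15712360)))) (a (b (l 15617600) (l 15590440)) (b (l 15691848) (l 15667896)))) (b (b (a (b (l 15834096) (l 15817992)) (a (l 15883600) (l 15923672))) (a (l 15796680) (l 15878904))) (a (l 15760344) (l 15843568)))) (a (b (l 15594256) (a (l 15511336) (l 15586840))) (b (a (l 15713536)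 (l 15792176)) (a (l 15660400) (l 15730904))))))), by decide +kernel⟩

def k8_pm_102 : ∃ t, chk3 f_pm_102 t 14 8 1 = true :=
  ⟨(b (b (b (l 3) (a (l 3) (b (l 3) (a (l 3) (a (b (l 3) (l 458117114903)) (b (l 462412057191) (l 380270886519))))))) (a (b (b (a (l 3) (b (l 3) (l 382955137511))) (a (l 387250131927) (a (l 385102724551) (b (l 16073744) (l 16098472))))) (a (b (a (l 387250100135) (b (l 16066320) (l 16051072))) (b (a (l 15998488) (l 16036880)) (l 16004480))) (b (a (b (l 16099040) (l 16087672)) (l 16129032)) (l 16094232)))) (b (a (b (b (l 447916609239) (a (l 439326723159) (b (l 16050416) (l 16063688)))) (a (b (b (l 16069496) (l 16081408)) (l 16101024)) (b (l 16085320) (l 16116216)))) (b (a (b (b (l 16037176) (l 16052008)) (l 16076608)) (b (a (l 16064824) (l 16084360)) (l 16112880))) (a (l 16126752) (l 16166136)))) (a (b (l 16151792) (l 16178504)) (b (l 16208472) (l 16257624)))))) (a (b (b (a (l 15975944) (b (l 16074088) (l 16050432))) (a (l 15885048) (l 16006440))) (b (a (l 15866960) (l 15941128))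 (l 15834576))) (a (b (b (b (l 16159160) (l 16132536)) (l 16084752)) (l 15977032)) (b (l 16175184) (l 16047048))))), by decide +kernel⟩

def k9_pm_102 : ∃ t, chk3 f_pm_102 t 30 16 1 = true :=
  ⟨(b (b (a (l 3) (b (l 3) (b (l 3) (a (l 3) (b (a (l 3) (b (l 3) (a (l 3) (l 469928878359)))) (a (l 9054854389052016871149830191) (b (a (l 16263160) (l 16310224)) (l 139355916639928367)))))))) (a (b (b (l 3) (a (l 477444469511) (b (l 483350114007) (l 297592823735)))) (a (b (l 350206116375) (b (l 16075272) (l 16095048))) (b (b (a (l 16083424) (l 16121592)) (l 16122552)) (l 16154680)))) (b (b (a (a (l 493550785623) (b (l 497845850423) (l 16166712))) (b (a (l 5263663018740892447606751279) (b (l 16296720) (l 16302744))) (a (l 139063652588077103) (l 16313704)))) (b (a (a (l 16129448) (l 16185056)) (l 16289200)) (a (a (l 16148376) (l 16204248)) (l 16306496)))) (b (a (b (l 16196872) (l 16216600)) (l 16333288)) (a (l 16247784) (l 16369304)))))) (a (b (b (a (b (l 16125824) (l 16163624)) (l 16214784)) (a (l 16218240)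 (l 16285800))) (l 16334176)) (b (b (a (l 16305104) (l 16421232)) (l 16422928)) (l 16462696)))), by decide +kernel⟩

def k10_pm_102 : ∃ t, chk3 f_pm_102 t 124 32 1 = true :=
  ⟨(b (b (l 3) (b (b (l 3) (a (b (l 3) (a (l 3) (b (l 3) (l 8803397818574206175618089007)))) (b (a (b (l 3) (a (l 3) (l 9141897048067238716313059375))) (a (b (l 3) (c (b (a (l 3) (b (l 8426212962856140275296305327) (a (l 7710528877644270458028392623) (l 142148745481027759)))) (a (b (l 7990999667794638683035484335) (l 5689204907248306050591932591)) (l 142075902821220527))) (b (l 8155413579261926572249907247) (l 5602162248235838207753584687)))) (c (b (b (a (l 3) (b (l 3) (a (l 8958140323487073060737286255) (l 7236629956355959931951726703)))) (a (b (l 8842083444803821613388398767) (a (l 8348841710401037242074415279) (l 6414560399017620941839679663))) (b (a (l 6878787913749889920797605999) (l 142644213003698287)) (l 142568690284134511)))) (b (l 5408734117098281560454692975) (l 142399571618644079))) (b (b (l 8551941248096038894614167727)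 (a (l 7932971228453286153704685743) (l 5814933192488600837759107247))) (l 142081812703133871))))) (a (b (a (l 8851754851359321513475915823) (b (a (l 8745369379233745556503969839) (l 5853618818715521646918402095)) (l 4934835195808292560863576111))) (a (l 5002535041706327790135410735) (l 141359158540402735))) (b (l 141984437181808687) (l 16558384)))))) (b (a (b (a (l 484961366535) (b (l 4828449723681280160401506351) (l 16416976))) (a (l 153175133799) (l 16416472))) (b (a (l 141154099578568751) (l 141891803305345071)) (a (l 141143173174902831) (l 16546104)))) (a (b (a (l 16361256) (l 16416720)) (l 140308781108346927)) (l 16507768))))) (b (b (a (b (l 16396272) (l 16405352)) (b (l 16506528) (l 16508672))) (a (l 16422744) (l 16517920))) (l 16506032))), by decide +kernel⟩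

def k11_pm_102 : ∃ t, chk3 f_pm_102 t 125 128 1 = true :=
  ⟨(b (l 3) (a (l 3) (b (l 3) (a (b (l 3) (b (l 3) (a (l 3) (b (a (l 3) (b (l 9141897048069661765539905775) (a (l 8822740631691396364878266607) (l 6298503520336055046140592367)))) (a (b (l 8726026566122207201762590959) (l 6462917431803617263539552495)) (l 5370048490872003828323778799)))))) (b (a (l 3) (b (l 3) (b (l 3) (a (a (l 3) (a (l 3) (b (l 3) (c (l 8851754851362195156412383471) (l 8880769071032945638130122991))))) (b (a (c (l 9190857487111544478109068527) (l 9393957063429672721228459247)) (a (b (l 3) (b (a (l 3) (c (l 7788503715493983486548286511) (l 7778832347848167233632230447))) (a (c (l 7479018696737496757119605807) (l 7459675922534763470805900335)) (l 5360980676625337131378908207)))) (c (b (a (l 8484845011515131111772216367) (b (l 8397802345441022008208125167) (l 6173378824956197465030110447))) (l 5467366130160350007567199471)) (b (a (l 8484845050426231892253858863) (a (l 7711132513478963045918661679) (l 7063148271859678799062785071)))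 (l 603612774097660028234991))))) (a (b (a (c (l 8939400891267425484760394991) (l 8958743739833595474619198703)) (a (c (c (l 7682118150125137986895490287) (l 7672446762879656086943313135)) (l 7672446791558810029956062255)) (c (l 6376478310193508633543830767) (l 6308778503062305339852037167)))) (a (a (c (l 7284986989141635745994178799) (l 7266247619178537962872204527)) (c (l 5950936325131979785967791343) (l 5873565111299513716958047471))) (l 603515063983445761567983))) (l 603561180854350273146095))))))) (b (a (b (a (l 3) (b (l 3) (b (l 3) (a (l 3) (a (l 9093540015285103399159120111) (c (l 7391372461267707720197423343) (l 7381701054710789862166380783))))))) (a (b (l 3) (a (l 3) (c (b (l 8542269841540819851103207663) (l 6424231805575989330858852591)) (l 7749214503873622494020468975)))) (b (b (a (l 8967811730045176604867739887) (c (l 5989018510514735678512988399) (l 5921318664616315482657177839))) (a (a (l 8464898589085489150202429679) (l 6085732576083900721088217327)) (l 143861372630450415))) (l 5205634579404450681899794671))))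 (b (a (b (b (a (l 3) (a (c (l 8329498897288670061537542383) (l 8339170303845586613899182319)) (c (l 6134089608868506022892814575) (l 6066389762970086445512311023)))) (a (a (l 3) (c (l 8020013887467321488117776623) (l 8020013887467320732203860207))) (c (l 5553805215453481820008841455) (l 5476433962998145140511047919)))) (b (a (a (c (l 7700857471089056293617287407) (l 7700857471089055537703289071)) (l 5408734117099721371240071407)) (l 143874360617763055)) (l 143870855922778351))) (l 603077530274783924727023)) (l 602477722851979164691695))) (a (b (a (b (a (c (l 7449400900609188617534193903) (l 7430058087495350565009457391)) (l 143847697448091887)) (l 143843299399385327)) (l 143854844276752623)) (l 143846048179355887)) (l 602335625271244968111343)))))))), by decide +kernel⟩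

def k12_pm_102 : ∃ t, chk3 f_pm_102 t 125 129 1 = true :=
  ⟨(b (b (a (a (b (l 3) (b (a (l 3) (b (l 3) (a (l 3) (l 8445555775971498128055828591)))) (a (b (l 9180582674296374766929117295) (a (c (l 8745369379235121183296209007) (l 8532598434982588282572374127)) (b (a (l 8755040785792366558412898415) (l 6414560399018572981627879535)) (l 5853618818716982142243831919)))) (b (a (b (l 8648655313666586848195674223) (l 6259817894108053485569065071)) (l 143522379366023279)) (l 143337661377593455))))) (b (b (a (l 3) (l 9083868608728100672535314671)) (a (b (l 3) (a (l 3) (b (l 8929126103817388349580165359) (l 7700857471088920847469986031)))) (b (a (l 7536443559621348322151170287) (l 4344879395838738777080250607)) (l 143763790917730543)))) (b (a (b (a (l 7633157625190484571249017071) (l 143741800686403823)) (l 143731973796643055)) (l 143758430806163695)) (l 143739120624025839)))) (b (a (b (a (b (a (l 9257953926752624797167714543) (b (l 8368184523516259923609075951) (l 5960004290843915721375252719))) (a (b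 (l 6840102287523352085379629295) (l 143787774036803823)) (l 143800212267466991))) (l 143818972684861679)) (l 143800693303165167)) (a (b (l 16743568) (l 143834572019810543)) (l 143861716224934127))) (a (b (l 143795127021650159) (l 143788667386855663)) (l 143840344412750063)))) (a (b (a (b (a (b (a (b (a (c (l 7807242943214205708647612527) (l 7575129185847894816222953647)) (l 5795590379375276188581101679)) (l 142664897572880495)) (l 142915105235140719)) (l 142754439067680879)) (l 143262138657947759)) (l 142930704558227567)) (a (l 143715618551824623) (l 143743037633233135))) (a (l 142818966666444911) (l 16714464))) (a (b (l 143781245635133679) (l 16725152)) (l 143843161945866479)))) (a (b (b (l 16626160) (l 16655624)) (l 142859030121906287)) (b (l 143639133797073135) (l 16721496)))), by decide +kernel⟩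

def k13_pm_102 : ∃ t, chk3 f_pm_102 t 125 65 1 = true :=
  ⟨(a (b (b (l 142716780768575599) (l 16618216)) (l 16630704)) (l 143645455886221551)), by decide +kernel⟩

def k14_pm_102 : ∃ t, chk3 f_pm_102 t 126 256 1 = true :=
  ⟨(a (l 3) (a (l 3) (l 6))), by decide +kernel⟩

def k15_pm_102 : ∃ t, chk3 f_pm_102 t 252 514 1 = true :=
  ⟨(b (l 3) (a (a (l 3) (b (l 3) (b (l 3) (a (l 3) (b (l 3) (a (l 3) (c (b (l 8996825949716114553357762671) (a (l 8832412038248523542489268335) (l 6743388221954457522737397871))) (b (l 9016168762829947658080780399) (a (l 8803397818577772167418888303) (c (l 6743388221954457247859753071) (l 6714374002283706078947655791))))))))))) (a (b (l 3) (a (b (b (l 3) (a (l 3) (c (l 8687340939894805631083036783) (l 8697012346451722389603270767)))) (b (b (a (l 3) (a (c (l 8223113425162792219884568687) (l 8203770612048957809492459631)) (l 5892304444945795211231363183))) (a (a (l 9577110343131154218126278767) (c (l 7314001208812581528496799855) (l 7304329802255664220221767791))) (l 144087528467955823)))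 (a (a (b (c (l 7023859012105061043278053487) (l 7004516198991226632885895279)) (l 144064370003558511)) (l 144073372256256111)) (l 144086222799880303)))) (b (b (a (l 9016168762830003595742576751) (c (l 7333344021926455864910987375) (l 7314001208812621385799336047))) (a (c (l 7033530418662009069163839599) (b (l 7575129185849363764066844783) (l 6163103828539485615383068783))) (l 144123537481482351))) (l 144112542362861679)))) (b (a (b (l 3) (b (l 8493912808756520076158828655) (a (l 7758885910430823751230013551) (l 144160508565602415)))) (b (b (l 9403025025106758392783421551) (l 7652500438304772392867266671)) (l 5940661477730383951641411695))) (b (l 144076121042337903) (l 16768320)))))), by decide +kernel⟩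

def k16_pm_102 : ∃ t, chk3 f_pm_102 t 1008 1030 1 = true :=
  ⟨(b (b (l 3) (a (l 3) (a (a (l 3) (b (l 3) (b (l 3) (b (a (l 3) (c (l 8194099205491919692357796079) (l 8145742172707334387931037935))) (a (c (l 7874942789113652573712761071) (c (l 7807242943215233271209967855) (l 7807242943215233202490720495))) (c (l 6134089608868590960182903023) (l 6095403982640922689153810671))))))) (b (b (l 3) (b (l 3) (a (l 3) (a (c (l 9151568454626720979573375215) (l 9132225641512886775339614447)) (c (l 7352686835040156959499157743) (c (l 7362358241597073924177559791) (l 7362358241597073855458296047))))))) (b (b (a (c (l 8929126103817617185517846767) (l 8929126103817617116798910703)) (a (c (l 7043201825218806942971281647) (c (l 7052873231775723907649683695) (l 7043201825218806805532803311))) (l 143981769180283119))) (a (a (c (l 8513255621870186811002814703) (l 8474569995642518539973705967)) (c (l 6743388221954373959841038575) (l 6714374002283622790929105135))) (l 143979089120182511))) (a (c (l 5989018510514842468605739247)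 (c (l 5969675697401008264371749103) (l 5950332884287174197576712431))) (l 143978401925054703))))))) (b (a (a (b (l 3) (b (b (l 3) (a (l 3) (a (l 3) (c (l 7662171844861443135622971631) (l 7653104099069196517879950575))))) (b (a (c (l 9142500678570214016108637423) (l 9171514938161080227170163759)) (a (c (l 7353290449399672905604082927) (l 7333947674620478798267493615)) (l 5370652120219665085741559023))) (a (a (c (l 8707287363909283515445832943) (l 8716958808945162198405635119)) (c (l 6821363080698780382523862255) (l 6773006086248835243713801455))) (l 603619691646822478916847))))) (a (a (b (l 3) (b (b (c (l 7971656854682793289589833967) (l 7972260523517914237492391151)) (c (l 143927961821577455) (l 603656585142735200447727))) (l 603619691653969305464047))) (b (b (l 3) (c (l 8590626874325487481489653999) (l 8591230572560107003025272047))) (c (l 5824604599047215723602968815) (l 5767179806058865131286195439)))) (b (c (b (l 9025840169386758519870947567) (b (a (l 8542269841540908430535622895) (l 6878787913751183084187042031))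 (l 6240475080994656131162505455))) (b (l 9026443889238655771748576495) (b (a (l 8542269841540908361816703215) (l 6859445100637348948672708847)) (l 6172775235096236828660007151)))) (l 143939163097792751)))) (b (a (a (b (b (a (c (l 9209596893968193836738314479) (l 9190254080854359701223997679)) (c (l 7555786372735385455067742447) (c (l 7497757933393883185962582255) (l 7497757933393883185962762479)))) (a (c (l 7217287143243284269627375855) (c (l 7188272923572533100715196655) (l 7178601517015616067317776623))) (l 143952494679064815))) (l 143949608460075247)) (c (l 5611833654795067858174345455) (l 5553805215453565520350101743))) (l 143972629487763695)) (l 143961909247344879))) (a (b (b (a (a (c (c (l 5921922245252989844101786863) (l 5854222418666005743763582191)) (l 5728494162249121924765297903)) (l 603602109593190029372655)) (l 143933321940975855)) (l 603574727711235188059375)) (l 603539275373662856735983)) (l 143959297905770735)))), by decide +kernel⟩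

def k17_pm_102 : ∃ t, chk3 f_pm_102 t 1009 1030 1 = true :=
  ⟨(b (b (a (b (l 3) (a (a (l 3) (c (l 9257953926752825870418215151) (l 9267625333309742628938514671))) (b (a (l 3) (c (a (l 8416541556301064786825969775) (l 6994844792434265069260079215)) (b (l 8474569995642569254955270255) (a (l 7768557316987622930708398319) (l 144020114654412911))))) (b (a (c (l 8049028107138210164729889007) (a (l 9093540015285247503933620463) (l 7207615736686430114561048815))) (l 5505448182669038902364782703)) (a (a (c (l 6917473539978914439705919727) (l 6898130726865080166752649455)) (l 144010562645393647)) (l 144017159715946607)))))) (b (b (a (a (l 3) (c (l 8474569995642583273731047535) (c (l 8406870149744164177386717295) (l 8406870149744164108667519087)))) (c (l 6192118048210181327669084271) (c (l 6143761015425595954522849391) (l 6114746795754844785610670191)))) (a (a (a (c (l 8842083444805422983697612911) (l 8803397818577754987546427503)) (c (l 7381701054710956094613782639) (a (l 7700857471089216959786057839)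 (l 7062544638332694817125744751)))) (c (l 6143761015425582279346143343) (l 6095403982640996837480546415))) (l 144049664033095791))) (b (c (l 5631176467908983013961220207) (l 5563476622010563436580765807)) (l 144039287390158959)))) (a (b (a (b (a (c (l 8764712192350047134092394735) (c (l 8697012346451627831589601519) (l 8697012346451627762870386927))) (b (a (c (l 8474569995642547677035790575) (l 8435884369414879406006698223)) (c (l 6617659936714481525295169775) (l 6588645717043730218944250095))) (c (l 6076061169527124974966604015) (l 6027704136742539670539960559)))) (b (a (a (c (l 7836257162886013577184739567) (c (l 7768557316987594274681979119) (l 7739543097316843105769783535))) (c (l 143991664786243823) (l 5969675697401030323327451375))) (l 143998193137565935)) (c (l 143993451492671727) (l 143993245334700271)))) (l 144011730873483375)) (l 144001148074754159)) (l 144037088365707375))) (l 144014410933452911)), by decide +kernel⟩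

def k18_pm_102 : ∃ t, chk3 f_pm_102 t 505 1030 1 = true :=
  ⟨(a (b (l 143910232213209199) (l 144084229930008687)) (b (l 143978195767361647) (l 16770648))), by decide +kernel⟩

def k19_pm_102 : ∃ t, chk3 f_pm_102 t 252 1031 1 = true :=
  ⟨(a (b (a (l 143935864559075567) (l 144008294896304239)) (a (l 143929748521877743) (l 16759216))) (l 143930160819109999)), by decide +kernel⟩

def k20_pm_102 : ∃ t, chk3 f_pm_102 t 253 257 1 = true :=
  ⟨(b (b (a (b (a (l 3) (a (a (l 3) (b (l 3) (l 8677669533337938419336626287))) (l 6))) (a (b (a (l 3) (a (l 3) (l 8281141864504359497640018031))) (a (b (l 9973638011964884666288062575) (l 8165084985821401070190919791)) (l 6559631497373129133402816623))) (a (b (l 7236629956357291509551267951) (l 16772936)) (l 16782128)))) (l 6)) (a (b (a (b (a (l 6230803674437975767681024111) (l 16780728)) (l 16776328)) (b (l 144124911851749487) (l 16772136))) (a (l 144019496183955567) (l 16760528))) (a (l 144063476636614767) (l 6)))) (b (a (a (l 144019633596186735) (l 16779288))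 (l 144017846900293743)) (a (l 143967200634552431) (l 16760168)))), by decide +kernel⟩

def k21_pm_102 : ∃ t, chk3 f_pm_102 t 126 129 1 = true :=
  ⟨(b (b (a (b (a (l 143778496910000239) (l 16742640)) (a (l 16751680) (l 16760760))) (l 143703867600863343)) (a (a (l 143957098858889327) (l 16757768)) (l 16751528))) (l 143612195779575919)), by decide +kernel⟩

def k22_pm_102 : ∃ t, chk3 f_pm_102 t 127 64 1 = true :=
  ⟨(b (l 6) (a (b (l 143635491705421935) (l 16745936)) (l 6))), by decide +kernel⟩

def k23_pm_102 : ∃ t, chk3 f_pm_102 t 63 65 1 = true :=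
  ⟨(a (b (l 143538459749400687) (l 16696576)) (a (l 143467816119844975) (b (a (l 16733808) (b (l 6) (l 16744304))) (l 16743712)))), by decide +kernel⟩

def k24_pm_102 : ∃ t, chk3 f_pm_102 t 31 33 1 = true :=
  ⟨(a (a (l 142771137449869359) (b (l 143204482923905135) (l 16568896))) (a (b (l 16630856) (l 16601408)) (b (a (l 16698104) (l 16675480)) (l 16633104)))), by decide +kernel⟩

def k25_pm_102 : ∃ t, chk3 f_pm_102 t 15 17 1 = true :=
  ⟨(a (b (a (l 16275840) (l 16271640)) (a (l 16116792) (l 16186448))) (a (b (a (l 16412200) (l 16364264)) (a (l 16233160) (l 140861010561597551))) (b (a (l 142284947270942831) (b (l 16547608) (l 16453616))) (a (l 16281576) (l 16295560))))), by decide +kernel⟩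

def k26_pm_102 : ∃ t, chk3 f_pm_102 t 3 9 1 = true :=
  ⟨(a (a (b (b (a (b (l 15232424) (l 15193648)) (b (l 15360680) (b (l 15328560) (l 15305536)))) (a (b (l 15154952) (l 15112920)) (b (l 15266960) (l 15210728)))) (b (a (a (l 15019792) (l 15059640)) (l 15123680)) (a (l 14936792) (l 15008184)))) (b (a (b (b (a (l 15465136) (l 15532928)) (l 15440448)) (l 15345352)) (b (a (l 15564928) (l 15628352)) (l 15394000))) (a (b (l 15216504) (l 15088392)) (b (l 15315176) (l 15174680))))) (a (b (a (b (a (l 15692320) (l 15756376)) (l 15550136)) (b (a (l 15819952) (l 15882024)) (a (l 15656304) (l 15709120)))) (a (b (l 15416400) (a (l 15241616) (l 15285512))) (b (a (l 15490592) (l 15536976)) (a (l 15327032) (l 15357024))))) (a (b (b (a (l 15941144) (b (l 16048648) (l 15954952))) (a (l 15761768) (l 15805344))) (b (l 15589160) (l 15393584))) (b (a (a (b (l 16037648) (l 15832256)) (l 15890520)) (a (l 15962936) (l 15970640))) (a (a (l 15521848) (l 15530128)) (a (l 15529984) (l 15527792))))))), by decide +kernel⟩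

def k27_pm_102 : ∃ t, chk3 f_pm_102 t 6 5 1 = true :=
  ⟨(b (b (a (b (a (a (b (l 14847600) (l 14799624)) (l 14828920)) (a (l 14879336) (l 14911272))) (b (a (a (l 14751952) (l 14773920)) (a (l 14798792) (l 14826296))) (b (a (a (l 14715992) (l 14735688)) (a (l 14758416) (l 14783888))) (b (a (a (l 14696672) (l 14715328)) (a (l 14737096) (l 14761720))) (a (a (b (b (b (l 14688648) (b (l 14686752) (l 14685272))) (l 14683400)) (l 14679912)) (b (b (b (l 14706944) (l 14704280)) (l 14701536)) (l 14697744))) (a (a (a (l 14714528) (l 14720016)) (l 14728584)) (l 14746896))))))) (b (a (l 14963056) (l 15037800)) (b (a (l 14871688) (l 14938568)) (b (a (l 14826440) (l 14890072)) (b (a (l 14803200) (l 14865824)) (a (a (l 14773640) (l 14802728)) (a (l 14833840) (l 14867232)))))))) (a (a (a (b (l 14641400) (l 14573064)) (b (l 14655672) (l 14580568))) (a (l 14610704) (l 14648648))) (a (a (l 14668240) (l 14690168)) (a (l 14711792) (a (l 14728760) (l 14738200)))))) (a (a (a (b (b (l 14510600) (l 14454184)) (b (l 14403952)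 (l 14360072))) (b (b (l 14511240) (l 14447872)) (b (l 14390640) (l 14339704)))) (b (a (b (l 14514920) (l 14444528)) (l 14503096)) (a (b (l 14380192) (l 14322080)) (l 14339096)))) (a (b (a (l 14487552) (a (l 14491680) (l 14493656))) (a (b (l 14365128) (a (l 14295072) (l 14284936))) (a (l 14292936) (l 14298960)))) (b (a (a (l 14495224) (l 14492304)) (l 14481640)) (l 14260096))))), by decide +kernel⟩

def k28_pm_102 : ∃ t, chk3 f_pm_102 t 7 5 1 = true :=
  ⟨(a (b (b (b (a (a (l 15096648) (l 15132616)) (a (l 15159232) (l 15176672))) (a (b (a (l 14990136) (l 15017824)) (b (l 14928800) (a (a (b (l 14907624) (l 14912864)) (l 14909512)) (l 14917944)))) (l 14992688))) (a (a (l 14743536) (l 14744432)) (l 14738184))) (a (b (l 14456872) (l 14188680)) (b (l 14410304) (l 14100152)))) (a (b (b (l 15102616) (l 14720088)) (b (l 14348536) (a (l 14022384) (l 13995296)))) (b (a (b (a (l 15107344) (l 15105280)) (l 14694760)) (b (l 15088168) (b (l 14758968) (l 14549096)))) (a (b (a (l 14302808) (l 14295744)) (l 13985176))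 (b (l 14288008) (l 13969912)))))), by decide +kernel⟩

def k29_pm_102 : ∃ t, chk3 f_pm_102 t 3 3 1 = true :=
  ⟨(a (b (b (a (a (b (a (b (l 14322664) (l 14291864)) (b (l 14295208) (l 14257288))) (b (l 38750520071) (l 2))) (b (a (b (l 14270368) (l 14225008)) (b (a (l 14253312) (l 14240328)) (a (l 14200104) (l 14178704)))) (a (b (a (l 14195816) (b (l 14185232) (l 14165064))) (a (l 2) (l 14133472))) (b (l 14134216) (l 14084560))))) (a (b (a (l 14156128) (l 14130128)) (a (l 14045824) (l 13980208))) (b (l 14054912) (l 13875752)))) (a (a (l 2) (b (b (l 61835675463) (l 2)) (l 2))) (a (b (b (l 13905320) (l 13856952)) (l 110153342631)) (b (a (l 13770760) (l 13678280)) (b (l 13631624) (a (l 13638096) (l 13584192))))))) (a (l 2) (b (a (l 2) (b (b (a (l 2) (l 13485240)) (l 2)) (l 2))) (l 2)))) (a (b (b (a (b (l 13942888) (l 13637616)) (b (a (l 13847584) (l 13781816)) (a (l 13606800) (l 13552744)))) (a (b (a (l 13557712) (l 13475504)) (a (b (l 13475128) (l 13425312)) (l 13365416))) (b (l 13394704) (l 13244592))))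 (b (a (b (l 13321024) (l 13266568)) (l 13073128)) (a (l 2) (l 12952152)))) (a (b (b (b (l 13736320) (l 13492384)) (l 13181432)) (b (l 12857936) (l 12659184))) (b (b (a (l 13568896) (l 13524456)) (a (l 13081696) (l 12997120))) (b (a (l 12698152) (l 12573896)) (a (l 12441176) (l 12279360))))))), by decide +kernel⟩

theorem s30_pm_102 : ∃ t, chk3 f_pm_102 t 3 5 1 = true := ex3_a k27_pm_102 k28_pm_102

theorem s31_pm_102 : ∃ t, chk3 f_pm_102 t 504 1030 1 = true := ex3_a k16_pm_102 k17_pm_102

theorem s32_pm_102 : ∃ t, chk3 f_pm_102 t 252 1030 1 = true := ex3_a s31_pm_102 k18_pm_102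

theorem s33_pm_102 : ∃ t, chk3 f_pm_102 t 252 515 1 = true := ex3_b s32_pm_102 k19_pm_102

theorem s34_pm_102 : ∃ t, chk3 f_pm_102 t 252 257 1 = true := ex3_b k15_pm_102 s33_pm_102

theorem s35_pm_102 : ∃ t, chk3 f_pm_102 t 126 257 1 = true := ex3_a s34_pm_102 k20_pm_102

theorem s36_pm_102 : ∃ t, chk3 f_pm_102 t 126 128 1 = true := ex3_b k14_pm_102 s35_pm_102

theorem s37_pm_102 : ∃ t, chk3 f_pm_102 t 126 64 1 = true := ex3_b s36_pm_102 k21_pm_102

theorem s38_pm_102 : ∃ t, chk3 f_pm_102 t 63 64 1 = true := ex3_a s37_pm_102 k22_pm_102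

theorem s39_pm_102 : ∃ t, chk3 f_pm_102 t 63 32 1 = true := ex3_b s38_pm_102 k23_pm_102

theorem s40_pm_102 : ∃ t, chk3 f_pm_102 t 125 64 1 = true := ex3_b k11_pm_102 k12_pm_102

theorem s41_pm_102 : ∃ t, chk3 f_pm_102 t 125 32 1 = true := ex3_b s40_pm_102 k13_pm_102

theorem s42_pm_102 : ∃ t, chk3 f_pm_102 t 62 32 1 = true := ex3_a k10_pm_102 s41_pm_102

theorem s43_pm_102 : ∃ t, chk3 f_pm_102 t 31 32 1 = true := ex3_a s42_pm_102 s39_pm_102

theorem s44_pm_102 : ∃ t, chk3 f_pm_102 t 31 16 1 = true := ex3_b s43_pm_102 k24_pm_102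

theorem s45_pm_102 : ∃ t, chk3 f_pm_102 t 15 16 1 = true := ex3_a k9_pm_102 s44_pm_102

theorem s46_pm_102 : ∃ t, chk3 f_pm_102 t 15 8 1 = true := ex3_b s45_pm_102 k25_pm_102

theorem s47_pm_102 : ∃ t, chk3 f_pm_102 t 7 8 1 = true := ex3_a k8_pm_102 s46_pm_102

theorem s48_pm_102 : ∃ t, chk3 f_pm_102 t 3 8 1 = true := ex3_a k7_pm_102 s47_pm_102

theorem s49_pm_102 : ∃ t, chk3 f_pm_102 t 3 4 1 = true := ex3_b s48_pm_102 k26_pm_102

theorem s50_pm_102 : ∃ t, chk3 f_pm_102 t 3 2 1 = true := ex3_b s49_pm_102 s30_pm_102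

theorem s51_pm_102 : ∃ t, chk3 f_pm_102 t 3 1 1 = true := ex3_b s50_pm_102 k29_pm_102

theorem s52_pm_102 : ∃ t, chk3 f_pm_102 t 5 20 1 = true := ex3_b k2_pm_102 k3_pm_102

theorem s53_pm_102 : ∃ t, chk3 f_pm_102 t 5 10 1 = true := ex3_b s52_pm_102 k4_pm_102

theorem s54_pm_102 : ∃ t, chk3 f_pm_102 t 5 5 1 = true := ex3_b s53_pm_102 k5_pm_102

theorem s55_pm_102 : ∃ t, chk3 f_pm_102 t 2 5 1 = true := ex3_a k1_pm_102 s54_pm_102

theorem s56_pm_102 : ∃ t, chk3 f_pm_102 t 2 2 1 = true := ex3_b k0_pm_102 s55_pm_102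

theorem s57_pm_102 : ∃ t, chk3 f_pm_102 t 2 1 1 = true := ex3_b s56_pm_102 k6_pm_102

theorem s58_pm_102 : ∃ t, chk3 f_pm_102 t 1 1 1 = true := ex3_a s57_pm_102 s51_pm_102

theorem c_pm_102 : CertB 536870912 536870912 0 536870912 1045395039 1503240 3 eng mog cd0q1 cd2q0 pd2 true true false .npp 1 0 2
    ndB0q1 ndB2q0 pcB2 cut_pm_102 xt_pm_102 :=
  certB1 (fam := true) (s1 := true) (s2 := false) (a := 1) (b := 0) (c := 2) (cn := .npp) (n1 := ndB0q1) (n2 := ndB2q0) (pc := pcB2) (cut := cut_pm_102) (xt := xt_pm_102) (P1 := 536870912) (W1 := 536870912) (P2 := 0) (W2 := 536870912) (P3 := 1045395039) (W3 := 1503240) (N0 := 3) (En := eng) (mo := mog) (C1 := cd0q1) (C2 := cd2q0) (C3 := pd2)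
    rfl (fun _ => rfl) s58_pm_102

noncomputable def f_pm_112 : ℕ → ℕ → ℕ → ℕ → Bool := onCell 536870912 536870912 1073741824 536870912 1045395039 1503240
    (rowB 3 eng mog cd0q1 cd2q1 pd2 1 true true false .dn 1 1 2 (qsf 536870912 536870912 536870912 536870912 2) ndB0q1 ndB2q1 pcB2 Cut.none Ext.none)

def k0_pm_112 : ∃ t, chk3 f_pm_112 t 2 1 1 = true :=
  ⟨(a (b (b (b (l 3) (b (a (b (l 3) (a (l 16108592) (l 16131392))) (b (a (l 189681755863) (l 1)) (a (l 16137712) (l 289942523319)))) (a (b (b (l 16156040) (l 16183464)) (a (l 16218856) (l 16253800))) (b (a (l 16216712) (l 16257728)) (l 16310648))))) (b (b (b (a (l 16307152) (a (l 16359824) (l 16391424))) (a (b (l 16354328) (b (l 16369528) (b (l 16364896) (l 16351216)))) (b (l 16378280) (b (l 16387904) (b (l 16370400) (l 16357048)))))) (a (l 16383672) (l 16384192))) (a (a (l 16489472) (l 16477568)) (a (l 16468328) (l 16462032))))) (b (a (b (a (l 16597512) (l 16573704)) (a (l 16469824) (l 16508480))) (b (a (l 16552392) (l 16533872)) (l 16470848)))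 (a (b (a (l 16257720) (l 16329072)) (a (a (l 15989760) (l 16040032)) (l 16119544))) (b (a (l 16379472) (l 16408544)) (a (l 16203856) (l 16262368)))))) (a (b (b (b (l 1) (b (l 1) (b (l 1) (a (l 16374632) (l 1))))) (b (b (b (a (l 16417824) (l 1)) (b (l 16414816) (b (l 16400008) (b (l 16385784) (l 16375000))))) (l 16375816)) (a (l 16458816) (l 16458536)))) (b (b (a (l 16518272) (l 16505424)) (l 16378792)) (b (a (l 16415736) (l 16400448)) (a (l 16294832) (l 16300824))))) (b (b (l 1) (b (b (l 1) (l 16357168)) (a (l 16460560) (l 16433320)))) (b (b (a (l 16488096) (l 16405728)) (a (l 16433032) (l 16359464))) (b (a (l 16362048) (b (l 16313280) (a (l 16299384) (l 16259552)))) (a (b (l 16301184) (l 16258880)) (b (l 16161008) (l 16209216)))))))), by decide +kernel⟩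

def k1_pm_112 : ∃ t, chk3 f_pm_112 t 3 1 1 = true :=
  ⟨(b (b (l 1) (a (b (l 1) (a (a (l 16326736) (l 1)) (l 1))) (l 1))) (b (a (b (a (a (l 16301064) (b (l 16181232) (a (l 16199712) (l 16115608)))) (a (b (l 1) (l 15966800)) (l 1))) (a (a (b (l 16249280) (a (l 16274016) (l 16208832))) (b (l 16124080) (l 16085048))) (a (l 15861176) (b (l 15679024) (l 15626128))))) (a (b (l 1) (a (b (l 1) (l 15367280)) (l 1))) (l 1))) (a (a (b (a (b (l 16208056) (l 16170896)) (l 15924136)) (a (l 16121992) (b (l 15977680) (l 15948272)))) (b (a (b (l 15838840) (l 15672344)) (b (a (l 15649552) (l 15529320)) (l 15574464))) (a (b (a (l 15823768) (l 15721552)) (l 15762960)) (l 15553624)))) (a (b (a (l 15336464) (l 15058560)) (a (l 15305072) (l 15012224))) (a (b (l 14744536) (l 14677000)) (b (l 1) (l 14281080))))))), by decide +kernel⟩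

theorem s2_pm_112 : ∃ t, chk3 f_pm_112 t 1 1 1 = true := ex3_a k0_pm_112 k1_pm_112

theorem c_pm_112 : CertB 536870912 536870912 536870912 536870912 1045395039 1503240 3 eng mog cd0q1 cd2q1 pd2 true true false .dn 1 1 2
    ndB0q1 ndB2q1 pcB2 Cut.none Ext.none :=
  certB1 (fam := true) (s1 := true) (s2 := false) (a := 1) (b := 1) (c := 2) (cn := .dn) (n1 := ndB0q1) (n2 := ndB2q1) (pc := pcB2) (cut := Cut.none) (xt := Ext.none) (P1 := 536870912) (W1 := 536870912) (P2 := 536870912) (W2 := 536870912) (P3 := 1045395039) (W3 := 1503240) (N0 := 3) (En := eng) (mo := mog) (C1 := cd0q1) (C2 := cd2q1) (C3 := pd2)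
    rfl (fun _ => rfl) s2_pm_112

noncomputable def f_pm_113 : ℕ → ℕ → ℕ → ℕ → Bool := onCell 536870912 536870912 1610612736 536870912 1045395039 1503240
    (rowB 3 eng mog cd0q1 cd2q1 pd3 1 true true false .nn 1 1 3 (qsf 536870912 536870912 536870912 536870912 3) ndB0q1 ndB2q1 pcB3 Cut.none Ext.none)

def k0_pm_113 : ∃ t, chk3 f_pm_113 t 2 1 1 = true :=
  ⟨(b (b (a (b (a (a (b (a (b (l 14650624) (l 14660488)) (a (l 67204778503) (l 14719408))) (a (l 2) (a (l 2) (b (l 14592920) (l 2))))) (b (l 14990104) (l 66668212951))) (a (b (l 15373232) (l 15201040)) (b (l 15682680) (l 15553616)))) (a (a (l 2) (b (a (l 2) (l 14777064)) (l 2))) (a (b (l 14965360) (l 152030972119)) (b (l 15418144) (l 15296184))))) (a (b (a (b (l 15919280) (l 15824504)) (b (l 16081800) (l 16013528))) (a (b (l 15728584) (l 15630320)) (b (a (l 15902608) (a (l 15970232) (l 16006640))) (a (l 15832464) (a (l 15912928) (l 15937504)))))) (b (a (b (a (l 16153768) (l 16164752)) (a (a (l 16087904) (l 16096472)) (l 16099968))) (l 16130680))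 (b (a (l 16004440) (l 16035128)) (l 15964112))))) (a (b (a (l 2) (b (a (l 2) (l 15205880)) (l 2))) (l 2)) (b (a (a (b (l 15536760) (l 15451560)) (b (a (l 15762688) (l 15848960)) (a (l 15690752) (l 15769080)))) (a (l 15845600) (l 15868696))) (a (a (l 2) (b (a (l 2) (l 15676256)) (l 2))) (a (l 15679320) (b (l 15764328) (l 15680784))))))) (a (l 2) (b (b (a (l 2) (a (l 2) (b (l 15578664) (l 2)))) (l 2)) (l 2)))), by decide +kernel⟩

def k1_pm_113 : ∃ t, chk3 f_pm_113 t 3 1 1 = true :=
  ⟨(b (a (b (a (b (a (l 16117600) (l 16093016)) (a (l 15999008) (l 15983368))) (b (l 16035152) (l 15941480))) (a (b (a (l 15870400) (l 15862304)) (a (l 15723728) (l 15721504))) (b (l 15838472) (l 15613504)))) (a (b (a (l 15915504) (l 15849544)) (a (b (l 15797848) (l 15707744)) (l 15580760))) (b (a (l 15777208) (l 15560200)) (a (b (l 15717696) (l 15684408)) (b (l 15663624) (a (l 15675720) (l 15648496))))))) (a (b (b (a (a (l 15531296) (l 15540584)) (a (l 15553920) (l 15572568))) (a (b (l 15224144) (l 2)) (b (l 72575998903)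 (a (l 15284912) (a (l 15296888) (l 15322840)))))) (a (l 2) (b (b (a (l 2) (l 398456401559)) (l 2)) (l 2)))) (a (b (b (a (l 15592872) (l 15463960)) (b (a (l 15476040) (l 15526840)) (a (l 15394096) (l 15474528)))) (b (b (a (l 15365992) (l 15440664)) (a (l 441406719527) (l 4))) (l 4))) (b (a (b (l 15623480) (b (l 15558696) (l 15520896))) (b (a (l 15628336) (l 15606816)) (b (l 15558224) (l 15533768)))) (b (a (b (l 15512536) (l 4)) (l 4)) (l 4)))))), by decide +kernel⟩

theorem s2_pm_113 : ∃ t, chk3 f_pm_113 t 1 1 1 = true := ex3_a k0_pm_113 k1_pm_113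

theorem c_pm_113 : CertB 536870912 536870912 536870912 536870912 1045395039 1503240 3 eng mog cd0q1 cd2q1 pd3 true true false .nn 1 1 3
    ndB0q1 ndB2q1 pcB3 Cut.none Ext.none :=
  certB1 (fam := true) (s1 := true) (s2 := false) (a := 1) (b := 1) (c := 3) (cn := .nn) (n1 := ndB0q1) (n2 := ndB2q1) (pc := pcB3) (cut := Cut.none) (xt := Ext.none) (P1 := 536870912) (W1 := 536870912) (P2 := 536870912) (W2 := 536870912) (P3 := 1045395039) (W3 := 1503240) (N0 := 3) (En := eng) (mo := mog) (C1 := cd0q1) (C2 := cd2q1) (C3 := pd3)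
    rfl (fun _ => rfl) s2_pm_113

noncomputable def cut_pm_123_a : Cut := Cut.of [[⟨0, 1, 0, 14155776⟩, ⟨1, 1, 0, 14155776⟩, ⟨2, 2, 0, 524288⟩], [⟨0, 0, 1, 46137344⟩, ⟨1, 1, 0, 1048576⟩, ⟨2, 1, 1, 46137344⟩, ⟨0, 0, 0, 1056440320⟩, ⟨0, 1, 0, 33457795⟩, ⟨2, 1, 0, 1056440320⟩, ⟨2, 2, 0, 33457795⟩]]

noncomputable def xt_pm_123_a : Ext := extD3 3 ⟨4, 1, 1, 5, 33, 5, 163, 200, 81, 200, 1, 64⟩ eng cd0q1 cd2q2a pd3 true true false .npn 1 2 3 rfl ndB0q1 ndB2q2a pcB3

noncomputable def f_pm_123_a : ℕ → ℕ → ℕ → ℕ → Bool := onCell 536870912 536870912 0 536870912 1045395039 1503240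
    (rowB 3 eng mog cd0q1 cd2q2a pd3 0 true true false .npn 1 2 3 (qsf 536870912 536870912 0 536870912 3) ndB0q1 ndB2q2a pcB3 cut_pm_123_a xt_pm_123_a)

def k0_pm_123_a : ∃ t, chk3 f_pm_123_a t 2 1 1 = true :=
  ⟨(b (a (a (b (l 16397776) (l 16283600)) (b (l 16446912) (l 16302128))) (a (b (l 16546224) (l 16325928)) (b (a (l 16652848) (b (a (l 16627632) (l 16635536)) (l 16642864))) (a (l 16455040) (l 16537360))))) (b (a (a (b (l 16158136) (l 16057816)) (b (l 16143024) (l 16012696))) (a (b (l 16169384) (a (l 16000168) (l 16005192))) (b (l 16249672) (l 16039832)))) (a (b (a (l 15952352) (l 15886232)) (a (b (b (l 15869320) (a (l 15868264) (l 15821072))) (a (l 15931776) (l 15872256))) (a (b (l 15697600) (l 15816376)) (b (l 15746528) (l 15763808))))) (b (a (a (l 15848224) (l 15830808)) (b (l 15827440) (l 15772352))) (a (b (a (l 15736416) (l 15706264)) (a (b (l 15698584) (l 15730416)) (b (l 15635936) (l 15679760)))) (b (l 15675728) (a (b (b (l 15624448) (l 15622928)) (l 15631224)) (b (b (l 15600536) (l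 15586912)) (l 15585200))))))))), by decide +kernel⟩

def k1_pm_123_a : ∃ t, chk3 f_pm_123_a t 3 2 1 = true :=
  ⟨(a (a (b (a (b (a (l 16664296) (l 16704576)) (a (l 16640256) (l 16664768))) (a (b (l 16726984) (l 16708528)) (b (l 268670097655) (a (l 16744464) (l 192434495271))))) (a (b (a (l 16656664) (l 16650600)) (l 16564688)) (b (a (l 16643104) (b (l 16716072) (l 16680960))) (a (l 16654368) (b (l 16662224) (l 16671528)))))) (a (b (b (l 4) (a (a (l 294976779799) (l 4)) (l 4))) (b (a (b (a (l 16755688) (l 295513711063)) (a (l 16720160) (l 16748816))) (a (b (l 4) (l 302493029303)) (l 4))) (a (b (l 16694552) (l 16673032)) (b (a (l 16736312) (b (l 16750504) (l 16755600))) (a (l 16689440) (l 16716640)))))) (b (l 4) (b (l 4) (a (b (a (b (l 4) (l 343295225815)) (l 4)) (a (b (l 16762256) (l 16735352)) (b (a (l 16744208) (l 4)) (l 270817684135)))) (b (l 4) (a (b (l 4) (a (l 402351024871) (l 4))) (l 4)))))))) (l 4)), by decide +kernel⟩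

def k2_pm_123_a : ∃ t, chk3 f_pm_123_a t 6 3 1 = true :=
  ⟨(b (a (b (a (l 16359936) (l 16470480)) (a (l 16111880) (l 16191672))) (b (a (a (l 16578776) (b (b (l 16679872) (l 16682944)) (l 16595840))) (a (b (a (l 16698632) (b (l 16739616) (l 16707408))) (a (l 16666120) (l 16694128))) (b (a (b (a (l 16765384) (l 383023697207)) (l 16741432)) (b (l 4) (a (l 16723632) (l 437247630535)))) (a (b (l 16709656) (l 16695080)) (b (a (l 16734360) (l 16753672)) (l 16711704)))))) (a (b (l 16395408) (l 16222896)) (b (a (l 16527168) (a (l 16608336) (b (l 16700328) (l 16620872)))) (l 16321488))))) (b (a (a (b (l 15900944) (l 15770944)) (b (l 15952000) (l 15792136))) (a (b (l 16035832) (b (l 15886952) (l 15793288))) (b (l 16168128) (b (l 15994976) (l 15876744))))) (a (b (a (l 15659016) (l 15659320)) (a (b (b (l 15582072) (l 15556216)) (l 15542720)) (a (b (l 15579464) (l 15514664)) (b (l 15554080) (l 15498280))))) (b (a (l 15676256) (b (l 15770448) (l 15675128))) (a (a (b (l 15553112) (l 15484728)) (b (l 15556688)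 (l 15475016))) (a (b (l 15566488) (l 15470664)) (b (l 15584984) (b (l 15500320) (l 15447496))))))))), by decide +kernel⟩

def k3_pm_123_a : ∃ t, chk3 f_pm_123_a t 7 6 1 = true :=
  ⟨(a (a (b (a (b (l 4) (a (b (a (b (l 16755576) (l 16763616)) (b (l 4) (l 460869998439))) (a (l 16734408) (b (l 16764288) (l 16744048)))) (b (l 4) (a (b (l 488787280791) (l 16764680)) (b (l 4) (l 517241428183)))))) (l 4)) (a (b (a (b (l 16692824) (l 16683704)) (b (a (l 16733320) (b (l 16764760) (l 16742488))) (b (l 16716608) (l 16709952)))) (l 16558736)) (b (a (b (a (b (l 542474355687) (l 16764520)) (b (l 4) (b (l 591866483127) (l 538179426455)))) (a (b (l 16741152) (l 16720048)) (b (l 16742864) (l 16739416)))) (b (l 4) (a (b (a (l 504356558935) (l 625152475671)) (a (l 16756672) (l 16768104))) (b (l 4) (a (l 525294522343) (l 651996016327)))))) (a (b (b (l 16718320) (l 16696128)) (l 16608408)) (b (a (b (l 16737264) (l 16720496)) (b (a (l 16755072) (l 16766808)) (l 16735928))) (b (l 16715040) (l 16658672))))))) (b (l 2)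 (b (l 4) (a (a (b (a (b (a (l 545695615799) (b (l 4) (l 16760976))) (b (l 16765616) (l 16752528))) (b (l 4) (a (l 565559838423) (b (l 4) (l 16763624))))) (b (a (l 16734872) (b (l 16763528) (l 16749816))) (a (l 16719136) (l 16734272)))) (b (l 4) (a (b (a (b (l 657901650855) (l 16767632)) (b (l 4) (l 624615656583))) (a (l 16747320) (l 16718272))) (b (a (b (l 4) (l 786213756039)) (l 4)) (a (b (l 633205593847) (l 16765056)) (b (l 796414304167) (l 641795531543))))))) (a (b (l 4) (a (b (l 4) (a (b (l 4) (l 806614854071)) (l 4))) (l 4))) (l 2)))))) (l 2)), by decide +kernel⟩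

def k4_pm_123_a : ∃ t, chk3 f_pm_123_a t 14 7 1 = true :=
  ⟨(b (a (b (a (l 16315792) (l 16429024)) (a (l 16052256) (l 16162240))) (b (a (b (a (l 16646800) (b (a (l 16712464) (b (a (l 16751136) (l 16763592)) (l 16744584))) (a (l 16682744) (l 16728528)))) (l 16462872)) (a (b (a (b (a (b (l 403424849543) (l 16762000)) (b (a (l 774402633991) (l 4)) (l 405572337911))) (b (a (l 16747560) (l 16760256)) (l 16743128))) (b (a (b (l 4) (a (l 736284803671) (l 867281281527))) (l 4)) (b (a (l 320746738695) (b (l 872113123991) (l 785676934631))) (a (l 16758344) (b (l 16773272) (l 16766752)))))) (b (a (l 16710208) (b (l 16752224) (l 16740512))) (l 16659624))) (b (a (b (l 4) (a (b (l 4) (b (l 876408096119) (l 788361294839))) (l 4))) (l 4)) (b (a (b (a (l 16727768) (b (l 878555585527) (l 456038206519))) (a (l 16754712) (b (l 16769656) (l 16762920)))) (a (b (b (l 4) (a (l 933316428215) (l 4))) (b (l 878555591239) (l 16730072))) (b (l 4) (b (l 4) (a (l 932242693671) (l 4)))))) (a (b (l 16749384) (l 16722056)) (b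 (a (b (l 16767784) (l 16760728)) (b (a (l 16774176) (l 930632084823)) (l 16772544))) (a (l 16751336) (l 16762584)))))))) (a (b (l 16389192) (l 16225728)) (b (a (l 16533720) (b (a (l 16660856) (b (l 16737904) (l 16698392))) (l 16602976))) (a (l 16358944) (l 16465744)))))) (a (b (b (a (l 15850800) (l 15936224)) (l 15764512)) (b (a (l 15615176) (l 15665136)) (a (b (l 15519496) (l 15456416)) (b (l 15556080) (l 15481056))))) (b (a (b (b (l 16099344) (l 16013776)) (l 15896680)) (b (l 16226176) (b (l 16085176) (l 15996720)))) (b (a (l 15743184) (l 15865784)) (a (b (l 15618920) (l 15530632)) (b (a (l 15692752) (l 15760888)) (a (l 15593712) (l 15654928)))))))), by decide +kernel⟩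

def k5_pm_123_a : ∃ t, chk3 f_pm_123_a t 30 28 1 = true :=
  ⟨(a (a (b (l 2) (b (l 4) (a (b (a (b (l 4) (a (l 929021475527) (l 4))) (l 4)) (a (b (a (l 16773824) (l 16769128)) (l 16770360)) (b (l 4) (a (l 16770928) (l 1060017959319))))) (l 4)))) (l 2)) (l 2)), by decide +kernel⟩

def k6_pm_123_a : ∃ t, chk3 f_pm_123_a t 60 29 1 = true :=
  ⟨(b (a (b (a (b (a (l 16760944) (b (a (l 16771768) (l 16772744)) (l 16768136))) (a (l 16741672) (l 16758712))) (b (a (b (a (l 1055186125863) (l 4)) (a (l 16774560) (l 1049280550807))) (l 4)) (a (b (a (l 16769552) (l 16775024)) (l 16765560)) (b (a (l 1042301234151) (l 4)) (a (l 16773640) (l 982171697415)))))) (a (b (a (l 16700584) (l 16730776)) (l 16672096)) (b (a (l 16756712) (b (a (l 16767048) (l 16772336)) (l 16763384))) (a (l 16718840) (l 16748464))))) (b (l 4) (a (b (a (b (a (b (l 16769656) (l 16775392)) (b (l 4) (l 1156654739447))) (a (l 16771112) (l 476976180663))) (b (l 4) (a (b (l 4) (l 1144306714455)) (l 4)))) (a (b (a (l 16764192) (l 16769840)) (l 16760616))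 (b (a (b (l 16774304) (l 16773096)) (b (l 4) (l 1130884948503))) (a (l 16768488) (l 16743648))))) (b (l 4) (a (b (l 4) (a (b (l 1235037891687) (l 1060554865447)) (l 4))) (l 4)))))) (a (b (a (l 16603088) (l 16667792)) (l 16540248)) (b (a (b (a (l 16738064) (b (l 16764952) (l 16757016))) (l 16710192)) (b (a (b (a (b (l 16773688) (l 16770576)) (b (l 1216247417063) (l 16775520))) (a (l 16765688) (l 16770864))) (b (a (b (l 4) (l 1342412064871)) (l 4)) (a (b (l 1134106174375) (l 16774416)) (b (l 4) (l 1316105397991))))) (a (b (l 16762096) (l 16747272)) (b (a (l 16769480) (b (l 647701135159) (l 16772696))) (a (l 16762616) (l 16767928)))))) (a (l 16640352) (b (a (l 16714296) (b (l 16756608) (l 16736040))) (l 16685376)))))), by decide +kernel⟩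

def k7_pm_123_a : ∃ t, chk3 f_pm_123_a t 61 29 1 = true :=
  ⟨(b (l 2) (a (b (a (b (l 4) (a (b (a (b (l 4) (l 1289798731639)) (l 4)) (a (b (a (l 16772912) (l 16775592)) (l 16771264)) (b (a (l 1352612637031) (l 4)) (a (l 16775240) (l 1336506513511))))) (l 4))) (l 4)) (a (b (a (b (a (l 16766776) (b (l 16754960) (l 16769888))) (a (l 16759264) (l 16765112))) (b (a (b (a (l 1320400390359) (l 4)) (a (l 16773264) (l 16774408))) (l 4)) (a (b (l 16771520) (l 16768424)) (b (a (l 16775952) (l 1458376204311)) (a (l 16771784) (l 16775000)))))) (a (b (l 16746840) (l 16724816)) (b (a (l 16763584) (b (l 16770112) (l 16766808))) (a (l 16749376) (l 16762240))))) (b (a (b (l 4) (a (b (l 4) (a (l 1436901372343) (l 4))) (l 4))) (l 4)) (a (b (a (b (a (l 16773832) (l 1415426540407)) (a (l 16770472) (l 16772808))) (b (l 4) (a (l 1323084748135) (l 4)))) (a (b (l 16768656) (l 16765232)) (b (a (l 16771920) (l 742727296887)) (l 16770248)))) (b (l 4) (a (b (a (l 1577024673015) (l 4)) (a (l 633742506423) (l 1547496778087)))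 (l 4))))))) (l 4))), by decide +kernel⟩

def k8_pm_123_a : ∃ t, chk3 f_pm_123_a t 31 14 1 = true :=
  ⟨(l 2), by decide +kernel⟩

def k9_pm_123_a : ∃ t, chk3 f_pm_123_a t 60 30 1 = true :=
  ⟨(b (a (l 16393440) (b (l 16641000) (l 16477520))) (b (l 16307912) (a (l 16145560) (b (l 16299832) (l 16249600))))), by decide +kernel⟩

def k10_pm_123_a : ∃ t, chk3 f_pm_123_a t 122 60 1 = true :=
  ⟨(b (a (l 16685600) (b (a (b (a (l 16759784) (l 16765816)) (a (l 16739120) (l 16755312))) (b (a (b (a (l 16770568) (l 16773408)) (l 16768784)) (b (a (l 1518505753927) (l 4)) (a (l 16772280) (l 1414889673047)))) (a (l 16764296) (b (l 143212179693846543) (l 16767384))))) (a (l 16715008) (b (a (l 16750432) (l 16762944)) (l 16737928))))) (a (l 16589040) (l 16665728))), by decide +kernel⟩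

def k11_pm_123_a : ∃ t, chk3 f_pm_123_a t 123 60 1 = true :=
  ⟨(b (a (b (a (b (l 4) (a (b (l 26890137005831019341971669007) (l 143157616439820303)) (b (l 4) (a (l 30101043982727648221565779983) (l 4))))) (l 4)) (a (b (a (b (a (l 16767608) (l 16769936)) (l 16765776)) (b (a (l 143154524062040079) (l 29395031304072749451204411407)) (a (l 16769264) (l 143198504526315535)))) (a (l 16761496) (b (l 16767600) (l 16764248)))) (b (a (b (l 4) (a (l 143086079450611727) (l 4))) (l 4)) (a (b (a (l 16770696) (l 143131365590974479)) (a (l 16767680) (l 16769936))) (b (a (l 33708478628457526100608319503) (l 4)) (a (l 143176857889767439) (l 32663966720310533841389649935))))))) (l 4)) (a (b (a (b (a (l 16741776) (l 16757592)) (l 16729792)) (b (a (b (l 16765984) (l 16763040)) (b (a (l 16769288) (l 143222625064615951)) (a (l 16766192) (l 16768600)))) (a (l 16753664) (b (l 16764456) (l 16762848))))) (l 16716696)) (b (a (b (a (b (a (l 30062358356500080349694590991) (l 4)) (a (l 143268598389587983) (l 18330942202959766529669693455)))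 (l 4)) (a (b (a (l 16767696) (l 143314915354902543)) (l 16766152)) (b (a (l 16338632452234905547236507663) (l 36958071231581332319262998543)) (a (l 16769280) (l 143240354689335311))))) (b (l 4) (a (b (l 4) (a (l 35517031654600926614855368719) (l 4))) (l 4)))) (a (b (a (b (l 16763344) (l 16760640)) (b (a (l 16766360) (l 16768592)) (l 16764632))) (a (l 16747824) (l 16762208))) (b (a (b (a (l 143288664478629903) (b (l 4) (l 143204276999946255))) (a (l 16768040) (l 143337111704387599))) (b (l 4) (a (b (l 35168861018552332738814918671) (l 143254029907017743)) (l 4)))) (a (b (a (l 16764792) (l 16767304)) (l 16763624)) (b (a (l 143385696412057615) (b (l 32219082018692689229588643855) (l 143303920246292495))) (a (l 16766496) (b (l 16769208) (l 16767808)))))))))), by decide +kernel⟩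

def k12_pm_123_a : ∃ t, chk3 f_pm_123_a t 61 61 1 = true :=
  ⟨(a (b (a (l 16489376) (l 16571032)) (l 16432128)) (b (a (l 16653792) (b (a (l 16729424) (b (a (l 16760328) (b (l 16764776) (l 16763952))) (l 16752456))) (l 16711904))) (l 592071451717591921566223))), by decide +kernel⟩

def k13_pm_123_a : ∃ t, chk3 f_pm_123_a t 30 31 1 = true :=
  ⟨(a (b (a (l 16004176) (b (a (l 16143928) (l 16214328)) (l 16078584))) (b (a (l 15850640) (l 15970552)) (a (l 15738464) (l 15854056)))) (b (a (b (b (a (l 16316416) (l 16404056)) (l 16313088)) (a (l 16195728) (l 16288392))) (b (a (b (l 16500264) (l 16458576)) (b (l 16603632) (b (l 16576720) (l 16559648)))) (a (l 586821332971498817741327) (b (l 16534336) (l 16497400))))) (b (a (b (a (l 16116008) (l 16211200)) (l 16105592)) (a (b (l 16323320) (l 16271104)) (b (l 16456112) (l 140082075594833935)))) (a (b (l 16047312) (l 15987592)) (b (a (l 137866009511952399) (l 139559807472336911)) (a (l 16160880) (b (l 16346360) (l 138726858568515599)))))))), by decide +kernel⟩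

def k14_pm_123_a : ∃ t, chk3 f_pm_123_a t 62 60 1 = true :=
  ⟨(a (b (l 2) (a (b (l 2) (a (b (l 4) (a (b (a (b (l 4) (l 37402955933199987408638246927)) (l 4)) (a (b (l 143260008457322511) (l 143355597287178255)) (b (l 4) (l 34095334890734600305796038671)))) (l 4))) (l 2))) (l 2))) (l 2)), by decide +kernel⟩

def k15_pm_123_a : ∃ t, chk3 f_pm_123_a t 124 122 1 = true :=
  ⟨(a (b (a (b (a (b (a (l 16768192) (l 143179331787472911)) (a (l 16764968) (l 16767432))) (b (a (b (l 39975550077339922415575285775) (l 20303909140570968473835012111)) (l 4)) (a (b (l 143372227401367567) (l 16768632)) (b (l 37963897513501240766647468047) (l 143329621289795599))))) (a (b (l 16763912) (l 16763968)) (b (a (l 16766632) (b (l 16769192) (l 16767824))) (a (l 16764432) (l 16765864))))) (b (l 4) (a (b (a (b (l 34607919438251090582091661327) (l 143387345644191759)) (b (l 4) (l 40517148844527341225752641551))) (a (b (l 16768648) (l 16767384)) (b (l 19191697386525579245939113999) (l 143445001322102799)))) (b (l 4) (a (b (l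 4) (l 36706614661102093770043670543)) (l 4)))))) (a (l 16760240) (b (a (b (a (l 16765168) (b (l 16768112) (l 16766624))) (a (l 16764632) (l 16764808))) (b (a (b (l 143400952101535759) (l 16768664)) (b (a (l 40101278362580146559067537423) (l 4)) (l 20052452570091024794024968207))) (a (l 16766800) (b (l 143460257046675471) (l 16768240))))) (a (l 16764256) (b (a (l 16765144) (l 16745072)) (l 16764840)))))) (b (l 4) (a (b (a (b (l 4) (a (b (a (l 143345014493773839) (l 4)) (a (l 16769280) (l 143376075699912719))) (b (l 4) (a (l 42944671890313757882666647567) (l 4))))) (l 4)) (a (b (a (b (a (l 16768216) (l 16769056)) (l 16767600)) (b (a (l 143407205619515407) (l 41542317939560821300238368783)) (l 143474069662269455))) (a (l 16765424) (b (l 16768384) (l 16766848)))) (b (a (b (l 4) (a (l 38679581598713412262447939599) (l 4))) (l 4)) (a (b (a (l 16769424) (l 143384322036662287)) (a (l 16768296) (l 16769072))) (b (a (l 46329664185234539114491854863) (l 4)) (a (l 143416620189007887) (l 44569468191875854884001923087)))))))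 (l 4)))), by decide +kernel⟩

def k16_pm_123_a : ∃ t, chk3 f_pm_123_a t 124 123 1 = true :=
  ⟨(a (l 593747223672369822867983) (b (a (b (a (b (a (l 16765112) (l 16765208)) (l 16764928)) (b (a (b (l 16767728) (l 16766128)) (b (a (l 16768904) (l 143448643461709839)) (a (l 16767848) (l 16768712)))) (a (l 16765632) (b (l 16766984) (l 16765824))))) (l 16764712)) (b (a (b (a (b (a (l 42964014703427662043333361679) (l 4)) (a (l 143480529295507471) (l 39975550077340333014483107855))) (l 4)) (a (b (a (l 16768384) (l 143512483848765455)) (l 16767856)) (b (a (l 143423973174313103) (l 48215588463833393612381651087)) (a (l 16768936) (l 143457508275306639))))) (b (l 4) (a (b (l 4) (a (l 46145907460653186329722781839) (l 4))) (l 4)))) (a (b (a (l 16765728) (b (a (l 16768008) (l 16768784)) (l 16767120))) (a (l 16765632) (l 16765680))) (b (a (b (a (l 143490699778982031) (l 42731900946061510373997936783)) (a (l 16768464) (l 143523685124276367))) (b (l 4) (a (l 25439426022294070575602221135) (l 4)))) (a (b (l 16767992)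 (l 16766456)) (b (a (l 143556601750110287) (l 23108617042077100848576036943)) (a (l 16768176) (l 16768824)))))))) (a (l 16765448) (b (a (l 16765336) (b (a (l 16766160) (b (l 16767256) (l 16766368))) (l 16765896))) (l 16765464))))), by decide +kernel⟩

def k17_pm_123_a : ∃ t, chk3 f_pm_123_a t 125 61 1 = true :=
  ⟨(a (b (l 2) (b (a (b (l 2) (a (b (l 4) (a (b (a (l 50082169929318233998446248015) (l 4)) (a (l 143499014836699215) (l 47683661103203030167917969487))) (l 4))) (l 4))) (l 2)) (a (b (a (b (a (b (a (l 16768504) (l 143533443290808399)) (a (l 16767464) (l 16768632))) (b (a (b (l 48679815978565670975109840975) (l 143471801928220751)) (l 4)) (a (l 143567528147599439) (l 23756601281390366026919166031)))) (a (b (l 16766640) (l 16766616)) (b (a (l 16768344) (b (l 16769048) (l 16768696))) (l 16767392)))) (b (a (b (l 4) (a (b (l 4) (l 50768839794859748608452345935)) (l 4))) (l 4)) (a (b (a (b (l 143473794793750607) (l 16769336)) (b (l 4) (l 48205917057276774752816382031))) (a (l 16769000) (l 143361232283058255)))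 (b (l 4) (a (b (l 53089977368519833806386905167) (l 143475100464562255)) (l 4)))))) (a (b (a (l 16766200) (b (l 16766672) (l 16766600))) (l 16766072)) (b (a (b (a (l 16767624) (l 16768776)) (l 16766840)) (b (a (l 143396897687617615) (b (l 50159541181774014468347379919) (l 143512964892033231))) (a (l 16768488) (b (l 16769088) (l 16768784))))) (a (l 16766728) (b (l 16757040) (l 16767232)))))) (b (l 4) (a (b (a (b (a (b (l 4) (l 55701257138887248380673114319)) (l 4)) (a (b (l 46165250273767320082173264079) (l 143550142124867791)) (b (l 4) (l 50614097289949112976449814735)))) (l 4)) (a (b (a (b (l 16769016) (l 16768808)) (b (l 143514820318560463) (l 16769144))) (a (l 16767800) (l 16768920))) (b (a (b (l 4) (l 47935117673683136850345951439)) (l 4)) (a (b (l 143553028343414991) (l 16769048)) (b (l 54714773670081751656047378639) (l 26358209645201275953397317839)))))) (l 4)))))) (l 2)), by decide +kernel⟩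

def k18_pm_123_a : ∃ t, chk3 f_pm_123_a t 63 30 1 = true :=
  ⟨(l 2), by decide +kernel⟩

def k19_pm_123_a : ∃ t, chk3 f_pm_123_a t 124 62 1 = true :=
  ⟨(b (a (b (l 16707560) (l 16685056)) (l 143354360328355855)) (a (b (a (l 597508629765727117500943) (l 598321151945209946595855)) (b (l 598305586962082504434191) (l 16635200))) (b (l 599440350898984338038799) (a (l 598324034454855146070031) (l 16778224))))), by decide +kernel⟩

def k20_pm_123_a : ∃ t, chk3 f_pm_123_a t 250 124 1 = true :=
  ⟨(b (a (l 16765688) (b (a (b (a (b (l 16767056) (l 16767200)) (b (a (l 16747640) (b (l 143590480454140111) (l 16768856))) (a (l 16767488) (l 16768304)))) (l 16766984)) (b (a (b (a (b (l 49879070391623459257602244815) (l 143555433525657807)) (b (l 4) (l 57432438912575433092980785359))) (a (b (l 16769088) (l 16768976)) (b (l 29008175041796543516669870287) (l 143593985147879631)))) (b (l 4) (a (b (l 4) (l 53621904729150168732279242959)) (l 4)))) (a (b (a (l 16767960) (b (l 16768880) (l 16768736))) (a (l 16767704)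 (l 16767752))) (b (a (b (l 143557220232642767) (l 16769120)) (b (l 60527289010788696657088626895) (l 27006193884514537008571760847))) (a (l 16768736) (b (l 143596940085821647) (l 16768896))))))) (a (l 16766616) (b (a (l 16767344) (b (a (l 16767808) (l 16747448)) (l 16767840))) (l 16767136))))) (l 143481285198266447)), by decide +kernel⟩

def k21_pm_123_a : ∃ t, chk3 f_pm_123_a t 251 248 1 = true :=
  ⟨(a (b (a (b (l 4) (a (b (l 4) (a (b (l 56068770588050174539749064911) (a (l 16769320) (l 143530900677083343))) (b (l 4) (a (l 58505965040393440610083897551) (l 4))))) (l 4))) (l 2)) (a (b (a (b (a (b (l 143635766585950415) (l 16769112)) (b (l 28108734232003077510233325775) (l 143599413987459279))) (a (l 16768112) (b (l 16769352) (l 16768856)))) (b (a (b (l 4) (l 58825121456771523697955733711)) (l 4)) (a (b (a (l 16769456) (l 143530488361025743)) (l 143639340009832655)) (b (a (l 61629829358277637587158991055) (l 4)) (a (l 143552409871630543) (l 59095920840365399713429012687)))))) (a (b (a (l 16768016)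 (l 16767976)) (l 16767824)) (b (a (b (l 16769176) (l 16768560)) (b (l 143601475572269263) (l 16769440))) (a (l 16768376) (l 16768536))))) (b (l 4) (a (b (a (b (a (l 56842483112603754983596507343) (l 4)) (a (l 143595084661948623) (l 143529251411296463))) (l 4)) (a (b (a (l 16769184) (l 16769392)) (l 16769240)) (b (a (l 143552066275000527) (l 62219785158249596827942748367)) (a (l 16769352) (l 143574468821909711))))) (b (l 4) (a (b (l 4) (a (l 59579491168211272136595177679) (l 4))) (l 4))))))) (l 4)), by decide +kernel⟩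

def k22_pm_123_a : ∃ t, chk3 f_pm_123_a t 502 249 1 = true :=
  ⟨(b (a (l 16767328) (b (a (b (a (l 16768256) (b (a (l 16769240) (l 16769328)) (l 16768976))) (a (l 16768336) (l 16768200))) (b (a (b (a (l 143596390332547279) (l 55759285578229068546095513807)) (a (l 16769256) (l 16769520))) (b (l 4) (a (l 143551035483668687) (l 65798205584308712680409399503)))) (a (b (l 16769296) (l 16768688)) (b (a (l 16769424) (l 143574331383660751)) (a (l 16769328) (l 16769400)))))) (a (l 16768000) (b (a (l 16768664) (b (l 16769032) (l 16768592))) (l 16768472))))) (l 16767280)), by decide +kernel⟩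

def k23_pm_123_a : ∃ t, chk3 f_pm_123_a t 503 249 1 = true :=
  ⟨(b (a (b (a (b (l 4) (a (b (a (l 62674341266424718288354820303) (l 4)) (a (l 143597077527920847) (l 58399579568267415571277381839))) (l 4))) (l 4)) (a (b (a (b (a (l 16769328) (l 143619411355386063)) (l 16748392)) (b (a (l 56107456214278103738641301711) (l 69976253216896862586975174863)) (a (l 16769504) (l 143573506750693583)))) (a (b (l 16768752) (l 16768912)) (b (a (l 16769416) (l 16769488)) (l 16769096)))) (b (a (b (l 4) (a (l 66204404659699249111272390863) (l 4))) (l 4)) (a (b (a (l 143597214967513295) (l 62964483463132070823172341967)) (a (l 16769392) (l 143620373428601039))) (b (l 4) (a (l 58709064578088782836390936783) (l 4))))))) (l 4)) (a (b (a (b (a (l 16768664) (l 16768432)) (l 16768496)) (b (a (b (l 16769432) (l 16768824)) (b (a (l 143643050853417167) (l 34279091615316382106291798223)) (a (l 16769504) (l 16769568)))) (a (l 16768952) (b (l 16769152) (l 16768832))))) (l 16768280)) (a (b (b (a (b (a (l 70295409633275146060856099023)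 (l 4)) (a (l 143596665212387535) (l 66417175603951445904974676175))) (l 4)) (a (b (a (l 16769464) (l 143620717026558159)) (a (l 16769264) (l 16769680))) (b (a (l 61610486545163708687487844559) (l 4)) (a (l 143644287804473551) (l 35874873697207690074282524879))))) (b (a (b (l 16768896) (l 16769184)) (b (a (l 16769600) (l 143667308826640591)) (l 16748240))) (a (l 16768992) (b (l 16768960) (l 16769224))))) (b (b (l 4) (a (b (l 4) (a (l 75121441505176554411254677711) (l 4))) (l 4))) (b (a (b (a (l 32828380631778850598702710991) (l 70401795105401255830781378767)) (a (l 16769528) (l 143620510868750543))) (b (l 4) (a (l 64898764774515497637506171087) (l 4)))) (a (b (a (l 16769336) (l 16769792)) (l 16768968)) (b (a (l 143647998656725199) (b (l 67355302039972615298101739727) (l 143607041854324943))) (a (l 16769696) (l 143678578821251279))))))))), by decide +kernel⟩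

def k24_pm_123_a : ∃ t, chk3 f_pm_123_a t 125 125 1 = true :=
  ⟨(a (b (l 593447176227378690170959) (l 143458951346667599)) (b (a (l 16768816) (b (a (l 16768136) (b (a (l 16768704) (b (a (l 16769248) (b (l 16748312) (l 16769096))) (l 16769112))) (l 16768568))) (l 16768568))) (b (l 16749488) (l 143551447798989007)))), by decide +kernel⟩

def k25_pm_123_a : ∃ t, chk3 f_pm_123_a t 124 63 1 = true :=
  ⟨(b (a (b (l 16613832) (l 141999280624926735)) (b (a (l 596952922647241933496335) (b (l 16771536) (l 16743232))) (b (a (l 16738896) (l 16756600)) (l 16726304)))) (b (a (l 141628264094728207) (b (l 143899168324730895) (l 16736464))) (a (b (l 141286934397960207) (a (l 140583727971205135) (b (l 141757044427669519) (l 14)))) (b (l 143796707573547023) (b (l 143746954669096975) (l 14)))))), by decide +kernel⟩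

def k26_pm_123_a : ∃ t, chk3 f_pm_123_a t 125 126 1 = true :=
  ⟨(a (b (l 143637759462162511) (a (b (l 599525378974641904951375) (l 598262641758981084553295)) (b (l 16767808) (l 598724963199521474159823)))) (b (l 143278562715222223) (l 143443214620278991))), by decide +kernel⟩

def k27_pm_123_a : ∃ t, chk3 f_pm_123_a t 125 254 1 = true :=
  ⟨(a (a (b (l 16745160) (l 16740776)) (b (b (l 600307059799501708240079) (l 599259342319792941638863)) (b (l 598788373847365325530319) (l 16743280)))) (b (l 597576076808649004557519) (a (a (l 599090151079577318515919) (l 16731224)) (l 143911331711434959)))), by decide +kernel⟩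

def k28_pm_123_a : ∃ t, chk3 f_pm_123_a t 250 255 1 = true :=
  ⟨(b (l 143828593423302735) (b (l 143796226547105871) (l 14))), by decide +kernel⟩

def k29_pm_123_a : ∃ t, chk3 f_pm_123_a t 251 510 1 = true :=
  ⟨(a (l 143680228083859663) (b (l 16754112) (l 143758774456598735))), by decide +kernel⟩

def k30_pm_123_a : ∃ t, chk3 f_pm_123_a t 251 1022 1 = true :=
  ⟨(a (l 143828593430626511) (l 143710189781958863)), by decide +kernel⟩

def k31_pm_123_a : ∃ t, chk3 f_pm_123_a t 251 1023 1 = true :=
  ⟨(a (l 14) (a (b (l 143837664405602511) (l 14)) (b (l 143701324969377999) (b (a (l 143848659524223183) (l 143879239694860495)) (b (a (l 143843024526606543) (l 143869481528328399)) (b (a (c (l 143841993734308047) (l 143839863430381775)) (a (l 143858142813323471) (l 143871130796310735))) (a (b (c (l 143841169100505295) (l 143839038796579023)) (a (l 14) (a (l 14) (a (l 14) (a (l 14) (c (b (l 143844811233575119) (b (c (l 143845017392005327) (l 143843986599788751)) (a (l 14) (c (c (c (l 143845360989438159)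 (l 143845086111514831)) (c (l 143844879953051855) (l 143844605075128527))) (c (c (l 143844330197205199) (l 143844055319281871)) (c (l 143843849160835279) (l 143843574282911951))))))) (b (l 143842749649141967) (a (l 14) (b (c (l 143843093246558415) (l 143842062454325455)) (a (l 14) (b (c (l 143843024527081679) (l 143841993734848719)) (c (c (c (l 143843368124481743) (l 143843093246558415)) (c (l 143842818368635087) (l 143842543490695375))) (c (c (l 143842268612772047) (l 143842062454243535)) (b (l 143841650137448655) (c (l 143841718856925391) (l 143841512698462415)))))))))))))))) (a (c (a (b (l 143851889340350671) (b (l 143850652389671119) (c (a (c (c (l 143848247207739599) (l 143848041049293007)) (c (l 143847766171369679) (l 143847491293446351))) (c (l 143853057571569871) (l 143852576535199951))) (a (c (c (l 143847216415523023) (l 143847010256912591)) (c (l 143846735378989263) (l 143846460501049551))) (c (l 143852026779353295) (l 143851477023506639)))))) (c (c (l 143860204397625551) (l 143859723361255631))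 (c (l 143859173605408975) (l 143858623849726159)))) (b (l 143854638119747791) (a (a (b (l 143846116903829711) (c (c (c (l 143846185623126223) (l 143845979464679631)) (c (l 143845704586756303) (l 143845429708832975))) (b (l 143844948672643279) (b (l 143844673794703567) (c (c (l 143844879952986319) (l 143844605075062991)) (c (l 143844330197139663) (c (l 143844124038856911) (l 143843986599903439)))))))) (c (c (l 143851408304029903) (l 143850858548019407)) (c (l 143850308792156367) (l 143849759036309711)))) (c (c (l 143858692569104591) (l 143858142813257935)) (c (l 143857593057411279) (l 143857043301466319)))))) (a (c (c (c (l 143868313297141967) (l 143867832260772047)) (c (l 143867282504925391) (l 143866732749078735))) (c (c (l 143866182993232079) (l 143865633237385423)) (c (l 143865083481538767) (l 143864533725692111)))) (b (l 143870100004421839) (c (c (l 143870031284568271) (l 143869000492368079)) (c (l 143867969700151503) (b (l 143867351225155791) (l 143866526591041743)))))))))))))), by decide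 +kernel⟩

def k32_pm_123_a : ∃ t, chk3 f_pm_123_a t 126 124 1 = true :=
  ⟨(a (b (l 2) (a (b (l 2) (a (b (l 2) (a (b (l 4) (a (b (a (b (l 4) (l 73796458806879332877775356111)) (l 4)) (a (l 30101043982728081429187870927) (b (l 4) (l 69260569131685281666396815567)))) (l 4))) (l 2))) (l 2))) (l 2))) (l 2)), by decide +kernel⟩

def k33_pm_123_a : ∃ t, chk3 f_pm_123_a t 504 500 1 = true :=
  ⟨(a (b (b (a (a (b (a (l 16770000) (l 143642844699410639)) (a (l 16769432) (l 16769936))) (b (a (l 70266395413604470826969301199) (l 4)) (a (l 143675074131198159) (b (l 71301235915194785952502513871) (l 143631712147390671))))) (l 4)) (a (a (b (l 16769072) (l 16769480)) (b (a (l 16769832) (b (l 16769992) (l 16769864))) (l 143718985916727503))) (a (b (a (b (l 65701491518739860242742640847) (l 143665109810135247)) (b (l 4) (l 73506316610171879256611356879))) (a (b (l 16770000) (l 16770000)) (b (l 143643600617406671) (l 16770128)))) (b (l 4) (a (b (l 4) (l 67481030325212605108148830415)) (l 4)))))) (a (b (a (l 16769344)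 (l 16769544)) (l 16769240)) (b (a (b (a (l 16769592) (l 16770136)) (l 16769256)) (b (a (l 143520867626205391) (b (l 75895154029730215463050969295) (l 143655076781342927))) (a (l 16770048) (b (l 143710464662388943) (l 16770104))))) (a (l 16769656) (b (a (l 16769544) (l 16769944)) (l 16769840)))))) (b (l 4) (a (a (b (b (l 4) (a (b (l 69386297416925270995407339727) (l 143689711383789775)) (b (l 4) (l 78496762393540905968231825615)))) (b (a (b (l 16770264) (l 16770280)) (b (l 39056766454433491025296490703) (l 143723177766043855))) (a (l 16769824) (b (l 16770240) (l 16770248))))) (b (l 4) (b (a (b (l 4) (l 71436635606991691902594302159)) (l 4)) (a (b (l 143701599853838543) (l 16770416)) (b (l 81330484514717604450322104399) (l 40178649615035877757101834319)))))) (l 4)))), by decide +kernel⟩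

def k34_pm_123_a : ∃ t, chk3 f_pm_123_a t 504 501 1 = true :=
  ⟨(a (l 16768800) (b (a (b (a (b (l 16769504) (l 16770008)) (b (a (l 16749352) (b (l 143735684711301199) (l 16770392))) (a (l 16769864) (l 16770232)))) (l 16769952)) (b (a (b (a (b (l 75198812757632247057660592207) (l 143713213445996623)) (b (l 4) (l 84444677426044896007590756431))) (a (b (l 16770584) (l 16770616)) (b (l 41387575434650517377168195663) (l 143747916778700879)))) (b (l 4) (a (b (l 4) (l 77606992990304597169766727759)) (l 4)))) (a (b (a (l 16770120) (b (l 16770560) (l 16770576))) (a (l 16770312) (l 16770096))) (b (a (b (l 143724483440836687) (l 143781589319385167)) (b (l 87897369566864102520516821071) (l 70807994180791962892112904271))) (a (l 16749680) (b (l 143759942687703119) (l 16770736))))))) (a (l 16769752) (b (a (l 16770336) (b (a (l 16770240) (l 16770568)) (l 16770552))) (l 16770320))))), by decide +kernel⟩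

def k35_pm_123_a : ∃ t, chk3 f_pm_123_a t 505 250 1 = true :=
  ⟨(a (b (l 2) (b (a (b (l 4) (a (b (l 4) (a (b (l 80227944167229121329425956943) (l 143735547293368399)) (b (l 4) (a (l 83448522550682673427160039503) (l 4))))) (l 4))) (l 2)) (b (a (a (b (a (b (l 143794164984135759) (l 16771008)) (b (l 72838989557744549595065335887) (l 143771693718814799))) (a (l 16770472) (b (l 16771208) (l 16770960)))) (b (a (b (l 4) (l 83081009101519653603433398351)) (l 4)) (a (b (l 34627262251365389536175145039) (l 143806534490488911)) (b (l 4) (l 75034398846164725384742207567))))) (l 4)) (a (a (b (a (l 16770720) (l 16770488)) (l 16770784)) (b (a (b (l 16771224) (l 16770872)) (b (l 143603124843036751) (l 16771448))) (a (l 16770688) (l 16749984)))) (a (a (a (a (b (l 143579760243048527) (l 16771376)) (l 6)) (l 6)) (l 6)) (l 6)))))) (l 4)), by decide +kernel⟩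

def k36_pm_123_a : ∃ t, chk3 f_pm_123_a t 252 251 1 = true :=
  ⟨(a (b (l 143667308826558543) (l 16770664)) (b (a (b (a (l 16770624) (b (a (b (a (l 16770880) (b (l 6) (l 16771384))) (a (l 16771176) (l 16770928))) (b (l 6) (a (b (l 6) (l 16771304)) (l 6)))) (a (l 16771232) (b (a (l 16771408) (l 16760896)) (l 16771480))))) (l 16770680)) (b (a (b (l 6) (a (b (l 6) (a (l 16750360) (b (l 6) (l 16771856)))) (l 6))) (l 4)) (b (a (a (a (l 16771680) (b (l 16771424) (l 16771824))) (b (a (b (l 6) (l 16771776)) (l 6)) (a (l 16771928) (b (l 16772104) (l 16771832))))) (l 6)) (a (l 16771784) (a (b (a (b (l 16772024) (l 16772208)) (l 6)) (a (l 16772224) (l 16771944))) (b (l 6) (a (b (l 6) (l 16772288)) (l 6)))))))) (a (l 16770880) (b (a (l 16771696) (b (a (l 16772296) (b (a (l 16772488) (b (l 6) (l 16772384))) (l 16772560))) (l 16772376))) (l 16771904))))), by decide +kernel⟩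

def k37_pm_123_a : ∃ t, chk3 f_pm_123_a t 253 125 1 = true :=
  ⟨(a (b (l 2) (b (a (b (l 2) (a (b (l 2) (a (l 6) (l 4))) (l 2))) (l 2)) (a (a (b (b (a (b (l 6) (a (b (l 16772552) (l 16772776)) (l 6))) (l 6)) (a (b (a (l 16772792) (b (l 16772672) (l 16772936))) (l 16772880)) (b (a (b (l 6) (l 16772824)) (l 6)) (a (l 16773072) (b (l 6) (l 16772968)))))) (l 16772808)) (b (b (l 4) (l 6)) (b (a (b (a (b (l 6) (l 16773360)) (l 6)) (a (l 16773384) (b (l 16773256) (l 16773512)))) (l 6)) (a (l 16773456) (b (a (l 16773640) (b (l 6) (l 16773544))) (l 16773720)))))) (b (l 2) (a (b (a (l 6) (l 2)) (a (a (b (l 6) (b (l 6) (l 16773920))) (l 6)) (l 6))) (l 4)))))) (l 2)), by decide +kernel⟩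

def k38_pm_123_a : ∃ t, chk3 f_pm_123_a t 127 62 1 = true :=
  ⟨(l 2), by decide +kernel⟩

def k39_pm_123_a : ∃ t, chk3 f_pm_123_a t 126 126 1 = true :=
  ⟨(b (a (b (l 143391125218066511) (l 143442458668515407)) (a (b (a (l 143815949060669519) (b (a (b (a (b (a (l 16773936) (l 16774040)) (l 16774016)) (b (l 6) (a (l 16774184) (l 6)))) (l 16774056)) (a (b (l 6) (b (a (b (l 6) (l 16774440)) (l 6)) (l 16774480))) (l 6))) (a (l 16774064) (b (a (l 16774520) (b (a (l 16774680) (l 6)) (l 16774744))) (l 16774616))))) (l 599144914800125024888399)) (b (a (b (b (l 2) (a (a (l 6) (l 2)) (l 2))) (a (b (a (b (l 6) (a (b (l 6) (l 16774928)) (l 6))) (l 6)) (a (l 16774928) (b (l 6) (a (l 16775152) (l 6))))) (b (l 4) (l 6)))) (l 2)) (a (b (a (l 16774912) (b (a (b (l 6) (l 16775400)) (l 6)) (a (l 16775448) (b (a (l 16775584) (l 6)) (l 16775632))))) (l 16775056)) (a (a (b (l 6) (l 16775624)) (b (b (l 2) (l 6)) (b (b (l 6) (a (l 16775976) (l 6))) (l 16776008)))) (b (l 2) (a (b (l 6) (b (l 6) (l 16776176))) (b (l 4)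 (l 6))))))))) (a (l 143525609235939407) (a (l 598038110055578174465615) (b (a (l 143873673430974543) (b (a (l 16775952) (b (a (l 16776224) (b (a (l 16776336) (l 6)) (l 16776384))) (l 16776312))) (l 16776176))) (l 600988724592646146811471))))), by decide +kernel⟩

def k40_pm_123_a : ∃ t, chk3 f_pm_123_a t 126 127 1 = true :=
  ⟨(b (a (b (l 143800693345304655) (l 143843093254963279)) (b (l 599784497958213872068175) (a (l 602411430013692197987919) (l 603327714355632829097551)))) (a (b (b (l 143935108623712335) (l 143874635477221455)) (b (a (l 143972835637723215) (l 601892327098821272708687)) (b (a (l 143931672667144271) (a (l 143963970833104975) (l 602794488143328219915855))) (a (b (l 143911606556590159) (a (b (l 143890234816020687) (a (a (c (a (c (l 143875185246814415) (l 143874223174074575)) (c (l 143877934026817743) (l 143877040673554639))) (a (c (l 143873261101007055) (l 143872230308790479)) (c (l 143876078600831183) (l 143875116528091343)))) (c (c (l 143882057196847311) (l 143881232563060943))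 (c (l 143880339209814223) (l 143879514576044239)))) (a (b (l 143888035793289423) (c (l 143885561891225807) (l 143884050062622927))) (c (l 143892708719526095) (l 143891334329893071))))) (a (c (l 143904184874319951) (l 143903085362266191)) (a (l 143911881458237519) (l 143917241580699727))))) (a (a (l 143909338841743439) (l 143942049319239759)) (a (a (l 143949333586657359) (a (l 143952838281412687) (l 603611044770516152542799))) (b (l 603434936023056965559887) (a (l 603680508287870180910671) (l 603768130326549630182991))))))))) (a (b (l 602702542633132281439823) (b (l 603450212143382782256719) (a (b (l 603546481211475595798095) (a (a (a (l 603879819756394009237007) (l 603972341707138709640719)) (l 604110980518067684365839)) (a (l 604296889110685540242959) (l 604481068321046485800463)))) (b (l 603951012659303495325199) (l 604590595863984129709583))))) (b (l 602993943558952268473935) (b (l 603985744233331244082767) (b (l 604084175093085551334927) (a (l 604677929667958104364559) (a (l 604641900870939155076623)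 (l 604664382840278990214671))))))))), by decide +kernel⟩

def k41_pm_123_a : ∃ t, chk3 f_pm_123_a t 127 126 1 = true :=
  ⟨(a (b (a (a (b (l 2) (a (a (b (l 2) (b (l 2) (l 6))) (l 2)) (l 2))) (l 2)) (l 2)) (a (b (a (b (b (a (l 6) (l 2)) (a (a (l 16776480) (b (l 6) (a (l 16776664) (l 6)))) (a (l 6) (l 4)))) (a (l 16776080) (b (a (b (l 6) (l 16776816)) (l 6)) (a (l 16776864) (b (a (l 16776952) (l 6)) (l 16776984)))))) (a (b (l 2) (a (l 6) (b (l 2) (l 6)))) (l 2))) (a (b (l 143875803736277071) (l 143900955065139279)) (b (a (b (a (l 16777040) (l 6)) (l 16777080)) (a (b (l 6) (b (l 6) (l 16777312))) (b (l 2) (l 6)))) (a (l 16777872) (b (a (l 16777360) (b (l 6) (l 16777448))) (l 16777416)))))) (a (b (l 2) (b (a (b (l 2) (a (b (l 2) (l 6)) (l 2))) (l 2)) (a (a (b (l 6) (l 16777312)) (l 6)) (a (b (l 2) (l 6)) (l 2))))) (l 2)))) (l 2)), by decide +kernel⟩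

def k42_pm_123_a : ∃ t, chk3 f_pm_123_a t 254 127 1 = true :=
  ⟨(a (b (b (a (l 143941568275267663) (l 602237338584540545099343)) (l 602537963102299708859983)) (b (l 602933415166834987017807) (b (l 603896392824558277518927) (b (l 603989347299331683407375) (a (l 604634983341911515960847) (l 604575319654048111793679)))))) (b (b (a (b (a (l 143890715863580751) (b (a (b (l 6) (l 16777360)) (l 6)) (a (l 16777712) (b (l 6) (l 16777424))))) (a (l 16777728) (l 143904803356409935))) (b (a (b (a (b (l 2) (l 6)) (l 2)) (l 6)) (l 2)) (a (b (a (l 16777480) (l 6)) (l 16777472)) (a (b (l 6) (b (l 6) (l 16777160))) (b (l 2) (l 6)))))) (a (b (l 16777704) (l 16777840)) (b (a (l 143917172862091343) (b (a (l 16777368) (b (l 6) (l 16777256))) (l 16777880))) (l 603268915298424736392783)))) (b (b (l 602710901310742146770511) (l 603626609209316504659535)) (b (l 603717113533615526241871) (b (l 604157817763495811032655) (b (l 604237657658984975197775) (a (l 604546208386056788760079) (l 604373414254937994896975)))))))),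 by decide +kernel⟩

def k43_pm_123_a : ∃ t, chk3 f_pm_123_a t 255 127 1 = true :=
  ⟨(b (a (b (a (a (b (l 2) (b (l 2) (a (b (l 2) (l 6)) (l 2)))) (l 2)) (l 2)) (a (b (a (a (b (l 6) (l 16777096)) (l 6)) (a (b (l 2) (l 6)) (l 2))) (a (l 603263150668361714640463) (b (a (b (l 6) (l 16776888)) (l 6)) (a (l 16777520) (b (l 6) (l 16777120)))))) (a (b (l 2) (b (a (b (l 2) (l 6)) (l 2)) (l 6))) (l 2)))) (l 2)) (a (a (b (b (a (l 16777672) (l 603330308359405360899663)) (l 603526016809620105406031)) (b (l 603545904694991772460623) (b (l 603586257118489673295439) (a (l 604301644901309262882383) (l 144108762802913359))))) (a (b (b (b (a (l 143911675302740047) (l 6)) (l 143922189383401551)) (l 603433494844925351028303)) (b (l 143946309918834767) (l 144093507074392143))) (b (b (a (b (l 6) (a (l 143913255850410063) (l 6))) (b (l 2) (l 6))) (b (a (l 16777696) (b (l 6) (l 16777472))) (l 143934558888853583))) (b (l 603511317054182916040271) (l 144101478536577103))))) (b (a (b (a (a (b (l 2) (b (l 2) (l 6))) (l 2))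 (l 2)) (a (a (b (l 6) (l 603443006431739036345935)) (l 6)) (a (b (l 2) (l 6)) (l 2)))) (l 2)) (a (a (b (b (l 603467794254327306544719) (l 143945210407206991)) (b (l 144031934429364303) (l 144106357619343439))) (b (b (a (a (l 603494311440068451952207) (l 6)) (l 6)) (a (l 143935383544053839) (b (l 6) (l 143932566045524047)))) (b (l 604010532148278507152975) (b (l 144074884102160463) (l 144112404934803535))))) (b (a (b (a (a (l 6) (l 2)) (l 2)) (l 6)) (l 2)) (b (a (a (b (l 603961532976223813199439) (l 144030285151486031)) (l 6)) (a (l 6) (l 2))) (b (a (l 144074540494323791) (l 6)) (a (a (l 144112954691584079) (b (l 144096255859687503) (l 144115359873417295))) (a (a (b (l 6) (l 144115016276525135)) (l 6)) (l 6)))))))))), by decide +kernel⟩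

theorem s44_pm_123_a : ∃ t, chk3 f_pm_123_a t 127 127 1 = true := ex3_a k42_pm_123_a k43_pm_123_a

theorem s45_pm_123_a : ∃ t, chk3 f_pm_123_a t 127 63 1 = true := ex3_b k41_pm_123_a s44_pm_123_a

theorem s46_pm_123_a : ∃ t, chk3 f_pm_123_a t 126 63 1 = true := ex3_b k39_pm_123_a k40_pm_123_a

theorem s47_pm_123_a : ∃ t, chk3 f_pm_123_a t 63 63 1 = true := ex3_a s46_pm_123_a s45_pm_123_a

theorem s48_pm_123_a : ∃ t, chk3 f_pm_123_a t 504 250 1 = true := ex3_b k33_pm_123_a k34_pm_123_a

theorem s49_pm_123_a : ∃ t, chk3 f_pm_123_a t 252 250 1 = true := ex3_a s48_pm_123_a k35_pm_123_a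

theorem s50_pm_123_a : ∃ t, chk3 f_pm_123_a t 252 125 1 = true := ex3_b s49_pm_123_a k36_pm_123_a

theorem s51_pm_123_a : ∃ t, chk3 f_pm_123_a t 126 125 1 = true := ex3_a s50_pm_123_a k37_pm_123_a

theorem s52_pm_123_a : ∃ t, chk3 f_pm_123_a t 126 62 1 = true := ex3_b k32_pm_123_a s51_pm_123_a

theorem s53_pm_123_a : ∃ t, chk3 f_pm_123_a t 63 62 1 = true := ex3_a s52_pm_123_a k38_pm_123_a

theorem s54_pm_123_a : ∃ t, chk3 f_pm_123_a t 63 31 1 = true := ex3_b s53_pm_123_a s47_pm_123_a

theorem s55_pm_123_a : ∃ t, chk3 f_pm_123_a t 251 511 1 = true := ex3_b k30_pm_123_a k31_pm_123_a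

theorem s56_pm_123_a : ∃ t, chk3 f_pm_123_a t 251 255 1 = true := ex3_b k29_pm_123_a s55_pm_123_a

theorem s57_pm_123_a : ∃ t, chk3 f_pm_123_a t 125 255 1 = true := ex3_a k28_pm_123_a s56_pm_123_a

theorem s58_pm_123_a : ∃ t, chk3 f_pm_123_a t 125 127 1 = true := ex3_b k27_pm_123_a s57_pm_123_a

theorem s59_pm_123_a : ∃ t, chk3 f_pm_123_a t 125 63 1 = true := ex3_b k26_pm_123_a s58_pm_123_a

theorem s60_pm_123_a : ∃ t, chk3 f_pm_123_a t 62 63 1 = true := ex3_a k25_pm_123_a s59_pm_123_a

theorem s61_pm_123_a : ∃ t, chk3 f_pm_123_a t 251 249 1 = true := ex3_a k22_pm_123_a k23_pm_123_a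

theorem s62_pm_123_a : ∃ t, chk3 f_pm_123_a t 251 124 1 = true := ex3_b k21_pm_123_a s61_pm_123_a

theorem s63_pm_123_a : ∃ t, chk3 f_pm_123_a t 125 124 1 = true := ex3_a k20_pm_123_a s62_pm_123_a

theorem s64_pm_123_a : ∃ t, chk3 f_pm_123_a t 125 62 1 = true := ex3_b s63_pm_123_a k24_pm_123_a

theorem s65_pm_123_a : ∃ t, chk3 f_pm_123_a t 62 62 1 = true := ex3_a k19_pm_123_a s64_pm_123_a

theorem s66_pm_123_a : ∃ t, chk3 f_pm_123_a t 62 31 1 = true := ex3_b s65_pm_123_a s60_pm_123_a

theorem s67_pm_123_a : ∃ t, chk3 f_pm_123_a t 31 31 1 = true := ex3_a s66_pm_123_a s54_pm_123_a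

theorem s68_pm_123_a : ∃ t, chk3 f_pm_123_a t 124 61 1 = true := ex3_b k15_pm_123_a k16_pm_123_a

theorem s69_pm_123_a : ∃ t, chk3 f_pm_123_a t 62 61 1 = true := ex3_a s68_pm_123_a k17_pm_123_a

theorem s70_pm_123_a : ∃ t, chk3 f_pm_123_a t 62 30 1 = true := ex3_b k14_pm_123_a s69_pm_123_a

theorem s71_pm_123_a : ∃ t, chk3 f_pm_123_a t 31 30 1 = true := ex3_a s70_pm_123_a k18_pm_123_a

theorem s72_pm_123_a : ∃ t, chk3 f_pm_123_a t 31 15 1 = true := ex3_b s71_pm_123_a s67_pm_123_a

theorem s73_pm_123_a : ∃ t, chk3 f_pm_123_a t 61 60 1 = true := ex3_a k10_pm_123_a k11_pm_123_a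

theorem s74_pm_123_a : ∃ t, chk3 f_pm_123_a t 61 30 1 = true := ex3_b s73_pm_123_a k12_pm_123_a

theorem s75_pm_123_a : ∃ t, chk3 f_pm_123_a t 30 30 1 = true := ex3_a k9_pm_123_a s74_pm_123_a

theorem s76_pm_123_a : ∃ t, chk3 f_pm_123_a t 30 15 1 = true := ex3_b s75_pm_123_a k13_pm_123_a

theorem s77_pm_123_a : ∃ t, chk3 f_pm_123_a t 15 15 1 = true := ex3_a s76_pm_123_a s72_pm_123_a

theorem s78_pm_123_a : ∃ t, chk3 f_pm_123_a t 30 29 1 = true := ex3_a k6_pm_123_a k7_pm_123_a

theorem s79_pm_123_a : ∃ t, chk3 f_pm_123_a t 30 14 1 = true := ex3_b k5_pm_123_a s78_pm_123_a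

theorem s80_pm_123_a : ∃ t, chk3 f_pm_123_a t 15 14 1 = true := ex3_a s79_pm_123_a k8_pm_123_a

theorem s81_pm_123_a : ∃ t, chk3 f_pm_123_a t 15 7 1 = true := ex3_b s80_pm_123_a s77_pm_123_a

theorem s82_pm_123_a : ∃ t, chk3 f_pm_123_a t 7 7 1 = true := ex3_a k4_pm_123_a s81_pm_123_a

theorem s83_pm_123_a : ∃ t, chk3 f_pm_123_a t 7 3 1 = true := ex3_b k3_pm_123_a s82_pm_123_a

theorem s84_pm_123_a : ∃ t, chk3 f_pm_123_a t 3 3 1 = true := ex3_a k2_pm_123_a s83_pm_123_a

theorem s85_pm_123_a : ∃ t, chk3 f_pm_123_a t 3 1 1 = true := ex3_b k1_pm_123_a s84_pm_123_a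

theorem s86_pm_123_a : ∃ t, chk3 f_pm_123_a t 1 1 1 = true := ex3_a k0_pm_123_a s85_pm_123_a

theorem c_pm_123_a : CertB 536870912 536870912 0 536870912 1045395039 1503240 3 eng mog cd0q1 cd2q2a pd3 true true false .npn 1 2 3
    ndB0q1 ndB2q2a pcB3 cut_pm_123_a xt_pm_123_a :=
  certB0 (fam := true) (s1 := true) (s2 := false) (a := 1) (b := 2) (c := 3) (cn := .npn) (n1 := ndB0q1) (n2 := ndB2q2a) (pc := pcB3) (cut := cut_pm_123_a) (xt := xt_pm_123_a) (P1 := 536870912) (W1 := 536870912) (P2 := 0) (W2 := 536870912) (P3 := 1045395039) (W3 := 1503240) (N0 := 3) (En := eng) (mo := mog) (C1 := cd0q1) (C2 := cd2q2a) (C3 := pd3)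
    rfl s86_pm_123_a

noncomputable def cut_pm_123_b : Cut := Cut.of [[⟨0, 1, 0, 14155776⟩, ⟨1, 1, 0, 14155776⟩, ⟨2, 2, 0, 524288⟩], [⟨0, 0, 1, 46137344⟩, ⟨1, 1, 0, 1048576⟩, ⟨2, 1, 1, 46137344⟩, ⟨0, 0, 0, 1056440320⟩, ⟨0, 1, 0, 33457795⟩, ⟨2, 1, 0, 1056440320⟩, ⟨2, 2, 0, 33457795⟩]]

noncomputable def f_pm_123_b : ℕ → ℕ → ℕ → ℕ → Bool := onCell 1610612736 536870912 1239849684 370763052 1045395039 1503240
    (rowB 3 eng mog cd0q1 cd2q2b pd3 2 true true false .npn 1 2 3 (qsf 536870912 536870912 1239849684 370763052 3) ndB0q1 ndB2q2b pcB3 cut_pm_123_b Ext.none)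

def k0_pm_123_b : ∃ t, chk3 f_pm_123_b t 1 1 1 = true :=
  ⟨(a (b (a (l 1) (b (a (b (l 16474880) (l 1)) (b (l 16516800) (l 16602368))) (a (l 1) (b (l 16519248) (l 1))))) (l 1)) (b (a (a (b (b (l 16585104) (l 16596600)) (b (l 16475344) (a (l 1) (l 16438488)))) (b (a (b (l 16631464) (l 16570056)) (b (a (l 16612176) (l 16609592)) (l 16581800))) (a (b (l 16518744) (l 16470416)) (l 16479304)))) (a (b (a (b (a (l 16622672) (l 16650976)) (l 16631656)) (b (a (l 16686464) (l 16725784)) (a (l 16683768) (l 16714880)))) (a (b (l 16617312) (l 16587656)) (a (l 16648816) (l 4)))) (a (b (a (b (l 16701672) (l 4)) (l 4)) (l 4)) (l 4)))) (a (a (l 1) (b (a (l 16379120) (l 16405640)) (l 1))) (a (b (a (a (l 16498776) (l 4)) (l 4)) (l 4)) (l 4))))), by decide +kernel⟩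

theorem c_pm_123_b : CertB 536870912 536870912 1239849684 370763052 1045395039 1503240 3 eng mog cd0q1 cd2q2b pd3 true true false .npn 1 2 3
    ndB0q1 ndB2q2b pcB3 cut_pm_123_b Ext.none :=
  certB2 (fam := true) (s1 := true) (s2 := false) (a := 1) (b := 2) (c := 3) (cn := .npn) (n1 := ndB0q1) (n2 := ndB2q2b) (pc := pcB3) (cut := cut_pm_123_b) (xt := Ext.none) (P1 := 536870912) (W1 := 536870912) (P2 := 1239849684) (W2 := 370763052) (P3 := 1045395039) (W3 := 1503240) (N0 := 3) (En := eng) (mo := mog) (C1 := cd0q1) (C2 := cd2q2b) (C3 := pd3)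
    rfl (fun _ => rfl) k0_pm_123_b

noncomputable def f_pm_133 : ℕ → ℕ → ℕ → ℕ → Bool := onCell 536870912 536870912 1610612736 536870912 1045395039 1503240
    (rowB 3 eng mog cd0q1 cd2q3 pd3 0 true true false .dn 1 3 3 (qsf 536870912 536870912 1610612736 536870912 3) ndB0q1 ndB2q3 pcB3 Cut.none Ext.none)

def k0_pm_133 : ∃ t, chk3 f_pm_133 t 1 1 1 = true :=
  ⟨(l 4), by decide +kernel⟩

theorem c_pm_133 : CertB 536870912 536870912 1610612736 536870912 1045395039 1503240 3 eng mog cd0q1 cd2q3 pd3 true true false .dn 1 3 3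
    ndB0q1 ndB2q3 pcB3 Cut.none Ext.none :=
  certB0 (fam := true) (s1 := true) (s2 := false) (a := 1) (b := 3) (c := 3) (cn := .dn) (n1 := ndB0q1) (n2 := ndB2q3) (pc := pcB3) (cut := Cut.none) (xt := Ext.none) (P1 := 536870912) (W1 := 536870912) (P2 := 1610612736) (W2 := 536870912) (P3 := 1045395039) (W3 := 1503240) (N0 := 3) (En := eng) (mo := mog) (C1 := cd0q1) (C2 := cd2q3) (C3 := pd3)
    rfl k0_pm_133

noncomputable def cut_pm_202 : Cut := Cut.of [[⟨0, 1, 0, 22369621⟩, ⟨1, 0, 0, 22369621⟩, ⟨2, 1, 0, 22369621⟩]]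

noncomputable def f_pm_202 : ℕ → ℕ → ℕ → ℕ → Bool := onCell 0 536870912 0 536870912 1045395039 1503240
    (rowB 3 eng mog cd0q2 cd2q0 pd2 0 true true false .pp 2 0 2 (qsf 0 536870912 0 536870912 2) ndB0q2 ndB2q0 pcB2 cut_pm_202 Ext.none)

def k0_pm_202 : ∃ t, chk3 f_pm_202 t 2 1 1 = true :=
  ⟨(b (b (b (a (b (b (a (l 16266152) (l 16317488)) (l 16016256)) (a (l 15722064) (l 15787576))) (b (b (a (l 16349536) (l 16365728)) (a (l 16185984) (l 16258640))) (a (l 15874128) (l 15839624)))) (a (a (b (l 15253952) (b (l 14914552) (l 14549776))) (b (l 15344240) (l 14906832))) (b (a (l 15453416) (l 15566224)) (a (l 15035328) (l 15165856))))) (b (a (a (b (a (l 14563320) (b (l 14505248) (l 14348160))) (l 14394952)) (b (l 14482944) (a (b (l 14167408) (l 14044800)) (l 14110960)))) (a (b (l 14627464) (l 14236384)) (b (l 14772032) (l 14391352)))) (a (b (a (l 14459600) (a (l 14057256) (b (l 13871392) (l 13779752)))) (a (l 14614728) (l 13981560))) (a (b (l 13870704) (a (b (l 13611104) (l 13544280)) (l 13571680)))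 (b (l 14029632) (l 13692016)))))) (b (b (a (b (a (l 14850320) (l 14163208)) (a (l 15147696) (l 14422728))) (a (b (a (l 13627496) (b (l 13380864) (l 13331528))) (l 13478968)) (b (l 13383176) (a (b (l 13175976) (l 13137128)) (l 13144680))))) (a (a (b (a (l 15483208) (l 15302552)) (l 15334824)) (b (l 14745848) (a (l 15274928) (l 14913232)))) (a (b (l 13920240) (l 14177088)) (b (a (l 13264984) (b (l 12971792) (l 12959000))) (a (l 13571624) (l 13004160)))))) (b (a (l 2) (a (l 2) (b (l 13557704) (l 2)))) (l 2)))), by decide +kernel⟩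

def k1_pm_202 : ∃ t, chk3 f_pm_202 t 6 4 1 = true :=
  ⟨(b (b (a (b (b (l 16503880) (l 16426408)) (l 16318008)) (b (a (b (l 16510144) (l 16460928)) (b (a (l 16502832) (l 16503864)) (a (l 16457336) (l 16459480)))) (a (l 16340024) (l 16338616)))) (a (b (l 16136304) (l 15950240)) (a (l 16080712) (l 16090696)))) (a (b (l 15665936) (l 15282760)) (b (a (l 15719632) (l 15741232)) (l 15367576)))), by decide +kernel⟩

def k2_pm_202 : ∃ t, chk3 f_pm_202 t 7 4 1 = true :=
  ⟨(b (a (b (b (a (b (l 16582784) (a (l 16507680) (l 16555632))) (b (a (l 16596000) (l 16594824)) (b (l 16604976) (l 16605352)))) (a (a (l 16205480) (l 16406736)) (b (a (l 16530976) (l 16572120)) (l 16449464)))) (a (b (a (l 16169712) (l 16186152)) (l 16002464)) (b (l 16172184) (a (l 16017808) (l 16078264))))) (b (a (b (b (a (l 16579416) (a (l 16573600) (b (a (l 16562632) (b (a (l 16538288) (l 16564016)) (l 16569256))) (l 16583704)))) (a (l 16597528) (b (l 16606928) (l 16648448)))) (a (l 16490472) (l 16562384))) (b (a (b (a (b (a (b (l 16574448)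 (l 16578240)) (l 16591576)) (a (l 16587568) (l 16598128))) (b (l 6) (a (l 16613360) (l 6)))) (a (b (b (l 16602920) (l 16613888)) (l 16647176)) (b (a (l 16621360) (l 16637832)) (a (l 16652216) (l 16664280))))) (b (l 6) (a (b (b (l 6) (l 16668728)) (l 16689536)) (l 6)))) (a (b (a (l 16695544) (b (l 16677312) (l 16720552))) (l 16569616)) (b (a (b (l 16700144) (l 16724080)) (l 16693296)) (a (l 16610800) (l 16632656)))))) (a (b (l 16232968) (l 16174896)) (a (b (l 16366136) (l 16251064)) (b (b (a (l 16548536) (l 16561192)) (l 16449112)) (l 16286840)))))) (a (b (a (l 15747088) (b (a (l 15826096) (l 15849256)) (l 15655832))) (a (l 15396104) (l 15393880))) (a (b (b (l 15945648) (l 15713008)) (a (l 15389368) (b (l 15513216) (l 15299360)))) (b (a (l 15725576) (l 15745824)) (a (l 15457272) (l 15504480)))))), by decide +kernel⟩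

def k3_pm_202 : ∃ t, chk3 f_pm_202 t 3 5 1 = true :=
  ⟨(a (b (a (b (l 14902104) (l 14530696)) (b (l 15000336) (l 14638216))) (a (b (l 14174384) (l 13838384)) (b (l 14287216) (l 13952616)))) (a (b (b (a (l 15039920) (l 15045608)) (l 14693032)) (b (l 14348456) (l 14016384))) (b (a (b (l 15033784) (l 14690824)) (b (a (b (l 15118512) (l 14924784)) (l 15047288)) (a (l 14664952) (l 14646304)))) (a (l 14187584) (a (l 14166840) (l 14138984)))))), by decide +kernel⟩

def k4_pm_202 : ∃ t, chk3 f_pm_202 t 3 3 1 = true :=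
  ⟨(a (b (b (a (l 13215568) (b (l 13639144) (l 13351104))) (a (b (l 12996984) (a (a (l 12832224) (l 12785008)) (l 12809944))) (l 12975840))) (b (a (b (a (b (l 12841032) (l 12995632)) (a (l 12680504) (l 12643112))) (l 2)) (b (l 12677024) (a (l 12549424) (l 12532984)))) (l 2))) (a (b (b (b (l 13701656) (l 13408632)) (a (l 13014784) (l 13023384))) (b (l 12608744) (l 12346576))) (b (a (b (l 13560864) (l 13018208)) (b (a (l 13542192) (l 13516128)) (l 12982184))) (a (b (l 12589168) (l 12298568)) (b (l 12543240) (l 12237080)))))), by decide +kernel⟩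

theorem s5_pm_202 : ∃ t, chk3 f_pm_202 t 3 4 1 = true := ex3_a k1_pm_202 k2_pm_202

theorem s6_pm_202 : ∃ t, chk3 f_pm_202 t 3 2 1 = true := ex3_b s5_pm_202 k3_pm_202

theorem s7_pm_202 : ∃ t, chk3 f_pm_202 t 3 1 1 = true := ex3_b s6_pm_202 k4_pm_202

theorem s8_pm_202 : ∃ t, chk3 f_pm_202 t 1 1 1 = true := ex3_a k0_pm_202 s7_pm_202

theorem c_pm_202 : CertB 0 536870912 0 536870912 1045395039 1503240 3 eng mog cd0q2 cd2q0 pd2 true true false .pp 2 0 2
    ndB0q2 ndB2q0 pcB2 cut_pm_202 Ext.none :=
  certB0 (fam := true) (s1 := true) (s2 := false) (a := 2) (b := 0) (c := 2) (cn := .pp) (n1 := ndB0q2) (n2 := ndB2q0) (pc := pcB2) (cut := cut_pm_202) (xt := Ext.none) (P1 := 0) (W1 := 536870912) (P2 := 0) (W2 := 536870912) (P3 := 1045395039) (W3 := 1503240) (N0 := 3) (En := eng) (mo := mog) (C1 := cd0q2) (C2 := cd2q0) (C3 := pd2)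
    rfl s8_pm_202

noncomputable def f_pm_203 : ℕ → ℕ → ℕ → ℕ → Bool := onCell 0 536870912 1610612736 536870912 1045395039 1503240
    (rowB 3 eng mog cd0q2 cd2q0 pd3 1 true true false .up 2 0 3 (qsf 0 536870912 0 536870912 3) ndB0q2 ndB2q0 pcB3 Cut.none Ext.none)

def k0_pm_203 : ∃ t, chk3 f_pm_203 t 1 1 1 = true :=
  ⟨(b (b (a (b (a (l 15270512) (l 15281976)) (a (l 4) (l 15091848))) (a (b (l 14918016) (l 14913888)) (a (b (l 14442200) (l 14466184)) (a (l 14118608) (l 13855592))))) (a (b (a (l 4) (l 14993120)) (l 2)) (a (l 2) (l 2)))) (l 2)), by decide +kernel⟩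

theorem c_pm_203 : CertB 0 536870912 0 536870912 1045395039 1503240 3 eng mog cd0q2 cd2q0 pd3 true true false .up 2 0 3
    ndB0q2 ndB2q0 pcB3 Cut.none Ext.none :=
  certB1 (fam := true) (s1 := true) (s2 := false) (a := 2) (b := 0) (c := 3) (cn := .up) (n1 := ndB0q2) (n2 := ndB2q0) (pc := pcB3) (cut := Cut.none) (xt := Ext.none) (P1 := 0) (W1 := 536870912) (P2 := 0) (W2 := 536870912) (P3 := 1045395039) (W3 := 1503240) (N0 := 3) (En := eng) (mo := mog) (C1 := cd0q2) (C2 := cd2q0) (C3 := pd3)
    rfl (fun _ => rfl) k0_pm_203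

noncomputable def f_pm_213 : ℕ → ℕ → ℕ → ℕ → Bool := onCell 0 536870912 1610612736 536870912 1045395039 1503240
    (rowB 3 eng mog cd0q2 cd2q1 pd3 1 true true false .pnn 2 1 3 (qsf 0 536870912 536870912 536870912 3) ndB0q2 ndB2q1 pcB3 Cut.none Ext.none)

def k0_pm_213 : ∃ t, chk3 f_pm_213 t 1 1 1 = true :=
  ⟨(a (b (b (b (l 1) (a (l 1) (l 16413464))) (b (l 68417003463) (l 4))) (l 4)) (b (a (b (b (l 1) (l 16212032)) (b (l 16276896) (l 16339272))) (a (b (b (l 15966456) (l 15996920)) (b (l 16031672) (l 16060944))) (b (a (l 15834224) (l 15706184)) (a (b (l 15871080) (l 15886544)) (b (l 15722208) (l 15725448)))))) (b (a (l 4) (a (b (l 16105360) (l 4)) (a (b (l 15879960) (l 4)) (b (l 15701000) (b (l 15673752) (l 4)))))) (l 4)))), by decide +kernel⟩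

theorem c_pm_213 : CertB 0 536870912 536870912 536870912 1045395039 1503240 3 eng mog cd0q2 cd2q1 pd3 true true false .pnn 2 1 3
    ndB0q2 ndB2q1 pcB3 Cut.none Ext.none :=
  certB1 (fam := true) (s1 := true) (s2 := false) (a := 2) (b := 1) (c := 3) (cn := .pnn) (n1 := ndB0q2) (n2 := ndB2q1) (pc := pcB3) (cut := Cut.none) (xt := Ext.none) (P1 := 0) (W1 := 536870912) (P2 := 536870912) (W2 := 536870912) (P3 := 1045395039) (W3 := 1503240) (N0 := 3) (En := eng) (mo := mog) (C1 := cd0q2) (C2 := cd2q1) (C3 := pd3)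
    rfl (fun _ => rfl) k0_pm_213

noncomputable def f_mm_001 : ℕ → ℕ → ℕ → ℕ → Bool := onCell 0 536870912 0 536870912 1045395039 1503240
    (rowB 3 eng mog cd0q0 cd2q0 pd1 0 true false false .up 0 0 1 (qsf 0 536870912 0 536870912 1) ndB0q0 ndB2q0 pcB1 Cut.none Ext.none)

def k0_mm_001 : ∃ t, chk3 f_mm_001 t 1 1 1 = true :=
  ⟨(l 4), by decide +kernel⟩

theorem c_mm_001 : CertB 0 536870912 0 536870912 1045395039 1503240 3 eng mog cd0q0 cd2q0 pd1 true false false .up 0 0 1
    ndB0q0 ndB2q0 pcB1 Cut.none Ext.none :=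
  certB0 (fam := true) (s1 := false) (s2 := false) (a := 0) (b := 0) (c := 1) (cn := .up) (n1 := ndB0q0) (n2 := ndB2q0) (pc := pcB1) (cut := Cut.none) (xt := Ext.none) (P1 := 0) (W1 := 536870912) (P2 := 0) (W2 := 536870912) (P3 := 1045395039) (W3 := 1503240) (N0 := 3) (En := eng) (mo := mog) (C1 := cd0q0) (C2 := cd2q0) (C3 := pd1)
    rfl k0_mm_001

noncomputable def f_mm_011 : ℕ → ℕ → ℕ → ℕ → Bool := onCell 0 536870912 536870912 536870912 1045395039 1503240
    (rowB 3 eng mog cd0q0 cd2q1 pd1 0 true false false .pnn 0 1 1 (qsf 0 536870912 536870912 536870912 1) ndB0q0 ndB2q1 pcB1 Cut.none Ext.none)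

def k0_mm_011 : ∃ t, chk3 f_mm_011 t 1 1 1 = true :=
  ⟨(l 4), by decide +kernel⟩

theorem c_mm_011 : CertB 0 536870912 536870912 536870912 1045395039 1503240 3 eng mog cd0q0 cd2q1 pd1 true false false .pnn 0 1 1
    ndB0q0 ndB2q1 pcB1 Cut.none Ext.none :=
  certB0 (fam := true) (s1 := false) (s2 := false) (a := 0) (b := 1) (c := 1) (cn := .pnn) (n1 := ndB0q0) (n2 := ndB2q1) (pc := pcB1) (cut := Cut.none) (xt := Ext.none) (P1 := 0) (W1 := 536870912) (P2 := 536870912) (W2 := 536870912) (P3 := 1045395039) (W3 := 1503240) (N0 := 3) (En := eng) (mo := mog) (C1 := cd0q0) (C2 := cd2q1) (C3 := pd1)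
    rfl k0_mm_011

noncomputable def f_mm_012 : ℕ → ℕ → ℕ → ℕ → Bool := onCell 0 536870912 536870912 536870912 1045395039 1503240
    (rowB 3 eng mog cd0q0 cd2q1 pd2 0 true false false .pnp 0 1 2 (qsf 0 536870912 536870912 536870912 2) ndB0q0 ndB2q1 pcB2 Cut.none Ext.none)

def k0_mm_012 : ∃ t, chk3 f_mm_012 t 1 1 1 = true :=
  ⟨(l 4), by decide +kernel⟩

theorem c_mm_012 : CertB 0 536870912 536870912 536870912 1045395039 1503240 3 eng mog cd0q0 cd2q1 pd2 true false false .pnp 0 1 2
    ndB0q0 ndB2q1 pcB2 Cut.none Ext.none :=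
  certB0 (fam := true) (s1 := false) (s2 := false) (a := 0) (b := 1) (c := 2) (cn := .pnp) (n1 := ndB0q0) (n2 := ndB2q1) (pc := pcB2) (cut := Cut.none) (xt := Ext.none) (P1 := 0) (W1 := 536870912) (P2 := 536870912) (W2 := 536870912) (P3 := 1045395039) (W3 := 1503240) (N0 := 3) (En := eng) (mo := mog) (C1 := cd0q0) (C2 := cd2q1) (C3 := pd2)
    rfl k0_mm_012

noncomputable def f_mm_022_a : ℕ → ℕ → ℕ → ℕ → Bool := onCell 0 536870912 0 536870912 1045395039 1503240
    (rowB 3 eng mog cd0q0 cd2q2a pd2 0 true false false .pp 0 2 2 (qsf 0 536870912 0 536870912 2) ndB0q0 ndB2q2a pcB2 Cut.none Ext.none)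

def k0_mm_022_a : ∃ t, chk3 f_mm_022_a t 1 1 1 = true :=
  ⟨(l 5), by decide +kernel⟩

theorem c_mm_022_a : CertB 0 536870912 0 536870912 1045395039 1503240 3 eng mog cd0q0 cd2q2a pd2 true false false .pp 0 2 2
    ndB0q0 ndB2q2a pcB2 Cut.none Ext.none :=
  certB0 (fam := true) (s1 := false) (s2 := false) (a := 0) (b := 2) (c := 2) (cn := .pp) (n1 := ndB0q0) (n2 := ndB2q2a) (pc := pcB2) (cut := Cut.none) (xt := Ext.none) (P1 := 0) (W1 := 536870912) (P2 := 0) (W2 := 536870912) (P3 := 1045395039) (W3 := 1503240) (N0 := 3) (En := eng) (mo := mog) (C1 := cd0q0) (C2 := cd2q2a) (C3 := pd2)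
    rfl k0_mm_022_a

noncomputable def f_mm_022_b : ℕ → ℕ → ℕ → ℕ → Bool := onCell 0 536870912 1239849684 370763052 1045395039 1503240
    (rowB 3 eng mog cd0q0 cd2q2b pd2 0 true false false .pp 0 2 2 (qsf 0 536870912 1239849684 370763052 2) ndB0q0 ndB2q2b pcB2 Cut.none Ext.none)

def k0_mm_022_b : ∃ t, chk3 f_mm_022_b t 1 1 1 = true :=
  ⟨(l 5), by decide +kernel⟩

theorem c_mm_022_b : CertB 0 536870912 1239849684 370763052 1045395039 1503240 3 eng mog cd0q0 cd2q2b pd2 true false false .pp 0 2 2
    ndB0q0 ndB2q2b pcB2 Cut.none Ext.none :=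
  certB0 (fam := true) (s1 := false) (s2 := false) (a := 0) (b := 2) (c := 2) (cn := .pp) (n1 := ndB0q0) (n2 := ndB2q2b) (pc := pcB2) (cut := Cut.none) (xt := Ext.none) (P1 := 0) (W1 := 536870912) (P2 := 1239849684) (W2 := 370763052) (P3 := 1045395039) (W3 := 1503240) (N0 := 3) (En := eng) (mo := mog) (C1 := cd0q0) (C2 := cd2q2b) (C3 := pd2)
    rfl k0_mm_022_b

noncomputable def f_mm_023_a : ℕ → ℕ → ℕ → ℕ → Bool := onCell 0 536870912 0 536870912 1045395039 1503240
    (rowB 3 eng mog cd0q0 cd2q2a pd3 0 true false false .up 0 2 3 (qsf 0 536870912 0 536870912 3) ndB0q0 ndB2q2a pcB3 Cut.none Ext.none)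

def k0_mm_023_a : ∃ t, chk3 f_mm_023_a t 1 1 1 = true :=
  ⟨(l 5), by decide +kernel⟩

theorem c_mm_023_a : CertB 0 536870912 0 536870912 1045395039 1503240 3 eng mog cd0q0 cd2q2a pd3 true false false .up 0 2 3
    ndB0q0 ndB2q2a pcB3 Cut.none Ext.none :=
  certB0 (fam := true) (s1 := false) (s2 := false) (a := 0) (b := 2) (c := 3) (cn := .up) (n1 := ndB0q0) (n2 := ndB2q2a) (pc := pcB3) (cut := Cut.none) (xt := Ext.none) (P1 := 0) (W1 := 536870912) (P2 := 0) (W2 := 536870912) (P3 := 1045395039) (W3 := 1503240) (N0 := 3) (En := eng) (mo := mog) (C1 := cd0q0) (C2 := cd2q2a) (C3 := pd3)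
    rfl k0_mm_023_a

noncomputable def f_mm_023_b : ℕ → ℕ → ℕ → ℕ → Bool := onCell 0 536870912 1239849684 370763052 1045395039 1503240
    (rowB 3 eng mog cd0q0 cd2q2b pd3 0 true false false .up 0 2 3 (qsf 0 536870912 1239849684 370763052 3) ndB0q0 ndB2q2b pcB3 Cut.none Ext.none)

def k0_mm_023_b : ∃ t, chk3 f_mm_023_b t 1 1 1 = true :=
  ⟨(l 5), by decide +kernel⟩

theorem c_mm_023_b : CertB 0 536870912 1239849684 370763052 1045395039 1503240 3 eng mog cd0q0 cd2q2b pd3 true false false .up 0 2 3
    ndB0q0 ndB2q2b pcB3 Cut.none Ext.none :=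
  certB0 (fam := true) (s1 := false) (s2 := false) (a := 0) (b := 2) (c := 3) (cn := .up) (n1 := ndB0q0) (n2 := ndB2q2b) (pc := pcB3) (cut := Cut.none) (xt := Ext.none) (P1 := 0) (W1 := 536870912) (P2 := 1239849684) (W2 := 370763052) (P3 := 1045395039) (W3 := 1503240) (N0 := 3) (En := eng) (mo := mog) (C1 := cd0q0) (C2 := cd2q2b) (C3 := pd3)
    rfl k0_mm_023_b

noncomputable def f_mm_033 : ℕ → ℕ → ℕ → ℕ → Bool := onCell 0 536870912 1610612736 536870912 1045395039 1503240
    (rowB 3 eng mog cd0q0 cd2q3 pd3 0 true false false .pnn 0 3 3 (qsf 0 536870912 1610612736 536870912 3) ndB0q0 ndB2q3 pcB3 Cut.none Ext.none)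

def k0_mm_033 : ∃ t, chk3 f_mm_033 t 1 1 1 = true :=
  ⟨(l 5), by decide +kernel⟩

theorem c_mm_033 : CertB 0 536870912 1610612736 536870912 1045395039 1503240 3 eng mog cd0q0 cd2q3 pd3 true false false .pnn 0 3 3
    ndB0q0 ndB2q3 pcB3 Cut.none Ext.none :=
  certB0 (fam := true) (s1 := false) (s2 := false) (a := 0) (b := 3) (c := 3) (cn := .pnn) (n1 := ndB0q0) (n2 := ndB2q3) (pc := pcB3) (cut := Cut.none) (xt := Ext.none) (P1 := 0) (W1 := 536870912) (P2 := 1610612736) (W2 := 536870912) (P3 := 1045395039) (W3 := 1503240) (N0 := 3) (En := eng) (mo := mog) (C1 := cd0q0) (C2 := cd2q3) (C3 := pd3)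
    rfl k0_mm_033

noncomputable def cut_mm_101 : Cut := Cut.of [[⟨0, 1, 0, 26843545⟩, ⟨1, 0, 0, 26843545⟩, ⟨2, 1, 0, 26843545⟩]]

noncomputable def f_mm_101 : ℕ → ℕ → ℕ → ℕ → Bool := onCell 536870912 536870912 0 536870912 1045395039 1503240
    (rowB 3 eng mog cd0q1 cd2q0 pd1 0 true false false .npn 1 0 1 (qsf 536870912 536870912 0 536870912 1) ndB0q1 ndB2q0 pcB1 cut_mm_101 Ext.none)

def k0_mm_101 : ∃ t, chk3 f_mm_101 t 1 1 1 = true :=
  ⟨(a (l 4) (b (a (l 4) (b (a (l 4) (b (a (l 4) (b (a (l 4) (b (l 6) (l 4))) (l 4))) (l 4))) (l 4))) (l 4))), by decide +kernel⟩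

theorem c_mm_101 : CertB 536870912 536870912 0 536870912 1045395039 1503240 3 eng mog cd0q1 cd2q0 pd1 true false false .npn 1 0 1
    ndB0q1 ndB2q0 pcB1 cut_mm_101 Ext.none :=
  certB0 (fam := true) (s1 := false) (s2 := false) (a := 1) (b := 0) (c := 1) (cn := .npn) (n1 := ndB0q1) (n2 := ndB2q0) (pc := pcB1) (cut := cut_mm_101) (xt := Ext.none) (P1 := 536870912) (W1 := 536870912) (P2 := 0) (W2 := 536870912) (P3 := 1045395039) (W3 := 1503240) (N0 := 3) (En := eng) (mo := mog) (C1 := cd0q1) (C2 := cd2q0) (C3 := pd1)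
    rfl k0_mm_101

noncomputable def cut_mm_102 : Cut := Cut.of [[⟨0, 1, 0, 26843545⟩, ⟨1, 0, 0, 26843545⟩, ⟨2, 1, 0, 26843545⟩]]

noncomputable def f_mm_102 : ℕ → ℕ → ℕ → ℕ → Bool := onCell 536870912 536870912 0 536870912 1045395039 1503240
    (rowB 3 eng mog cd0q1 cd2q0 pd2 0 true false false .npp 1 0 2 (qsf 536870912 536870912 0 536870912 2) ndB0q1 ndB2q0 pcB2 cut_mm_102 Ext.none)

def k0_mm_102 : ∃ t, chk3 f_mm_102 t 1 1 1 = true :=
  ⟨(a (l 4) (b (a (l 4) (b (a (l 4) (b (a (l 4) (b (a (l 4) (b (l 6) (l 4))) (l 4))) (l 4))) (l 4))) (l 4))), by decide +kernel⟩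

theorem c_mm_102 : CertB 536870912 536870912 0 536870912 1045395039 1503240 3 eng mog cd0q1 cd2q0 pd2 true false false .npp 1 0 2
    ndB0q1 ndB2q0 pcB2 cut_mm_102 Ext.none :=
  certB0 (fam := true) (s1 := false) (s2 := false) (a := 1) (b := 0) (c := 2) (cn := .npp) (n1 := ndB0q1) (n2 := ndB2q0) (pc := pcB2) (cut := cut_mm_102) (xt := Ext.none) (P1 := 536870912) (W1 := 536870912) (P2 := 0) (W2 := 536870912) (P3 := 1045395039) (W3 := 1503240) (N0 := 3) (En := eng) (mo := mog) (C1 := cd0q1) (C2 := cd2q0) (C3 := pd2)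
    rfl k0_mm_102

noncomputable def f_mm_112 : ℕ → ℕ → ℕ → ℕ → Bool := onCell 536870912 536870912 536870912 536870912 1045395039 1503240
    (rowB 3 eng mog cd0q1 cd2q1 pd2 0 true false false .dn 1 1 2 (qsf 536870912 536870912 536870912 536870912 2) ndB0q1 ndB2q1 pcB2 Cut.none Ext.none)

def k0_mm_112 : ∃ t, chk3 f_mm_112 t 1 1 1 = true :=
  ⟨(l 4), by decide +kernel⟩

theorem c_mm_112 : CertB 536870912 536870912 536870912 536870912 1045395039 1503240 3 eng mog cd0q1 cd2q1 pd2 true false false .dn 1 1 2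
    ndB0q1 ndB2q1 pcB2 Cut.none Ext.none :=
  certB0 (fam := true) (s1 := false) (s2 := false) (a := 1) (b := 1) (c := 2) (cn := .dn) (n1 := ndB0q1) (n2 := ndB2q1) (pc := pcB2) (cut := Cut.none) (xt := Ext.none) (P1 := 536870912) (W1 := 536870912) (P2 := 536870912) (W2 := 536870912) (P3 := 1045395039) (W3 := 1503240) (N0 := 3) (En := eng) (mo := mog) (C1 := cd0q1) (C2 := cd2q1) (C3 := pd2)
    rfl k0_mm_112

noncomputable def f_mm_113 : ℕ → ℕ → ℕ → ℕ → Bool := onCell 536870912 536870912 536870912 536870912 1045395039 1503240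
    (rowB 3 eng mog cd0q1 cd2q1 pd3 0 true false false .nn 1 1 3 (qsf 536870912 536870912 536870912 536870912 3) ndB0q1 ndB2q1 pcB3 Cut.none Ext.none)

def k0_mm_113 : ∃ t, chk3 f_mm_113 t 1 1 1 = true :=
  ⟨(l 4), by decide +kernel⟩

theorem c_mm_113 : CertB 536870912 536870912 536870912 536870912 1045395039 1503240 3 eng mog cd0q1 cd2q1 pd3 true false false .nn 1 1 3
    ndB0q1 ndB2q1 pcB3 Cut.none Ext.none :=
  certB0 (fam := true) (s1 := false) (s2 := false) (a := 1) (b := 1) (c := 3) (cn := .nn) (n1 := ndB0q1) (n2 := ndB2q1) (pc := pcB3) (cut := Cut.none) (xt := Ext.none) (P1 := 536870912) (W1 := 536870912) (P2 := 536870912) (W2 := 536870912) (P3 := 1045395039) (W3 := 1503240) (N0 := 3) (En := eng) (mo := mog) (C1 := cd0q1) (C2 := cd2q1) (C3 := pd3)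
    rfl k0_mm_113

noncomputable def f_mm_123_a : ℕ → ℕ → ℕ → ℕ → Bool := onCell 536870912 536870912 0 536870912 1045395039 1503240
    (rowB 3 eng mog cd0q1 cd2q2a pd3 0 true false false .npn 1 2 3 (qsf 536870912 536870912 0 536870912 3) ndB0q1 ndB2q2a pcB3 Cut.none Ext.none)

def k0_mm_123_a : ∃ t, chk3 f_mm_123_a t 1 1 1 = true :=
  ⟨(l 4), by decide +kernel⟩

theorem c_mm_123_a : CertB 536870912 536870912 0 536870912 1045395039 1503240 3 eng mog cd0q1 cd2q2a pd3 true false false .npn 1 2 3
    ndB0q1 ndB2q2a pcB3 Cut.none Ext.none :=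
  certB0 (fam := true) (s1 := false) (s2 := false) (a := 1) (b := 2) (c := 3) (cn := .npn) (n1 := ndB0q1) (n2 := ndB2q2a) (pc := pcB3) (cut := Cut.none) (xt := Ext.none) (P1 := 536870912) (W1 := 536870912) (P2 := 0) (W2 := 536870912) (P3 := 1045395039) (W3 := 1503240) (N0 := 3) (En := eng) (mo := mog) (C1 := cd0q1) (C2 := cd2q2a) (C3 := pd3)
    rfl k0_mm_123_a

noncomputable def f_mm_123_b : ℕ → ℕ → ℕ → ℕ → Bool := onCell 536870912 536870912 1239849684 370763052 1045395039 1503240
    (rowB 3 eng mog cd0q1 cd2q2b pd3 0 true false false .npn 1 2 3 (qsf 536870912 536870912 1239849684 370763052 3) ndB0q1 ndB2q2b pcB3 Cut.none Ext.none)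

def k0_mm_123_b : ∃ t, chk3 f_mm_123_b t 1 1 1 = true :=
  ⟨(l 4), by decide +kernel⟩

theorem c_mm_123_b : CertB 536870912 536870912 1239849684 370763052 1045395039 1503240 3 eng mog cd0q1 cd2q2b pd3 true false false .npn 1 2 3
    ndB0q1 ndB2q2b pcB3 Cut.none Ext.none :=
  certB0 (fam := true) (s1 := false) (s2 := false) (a := 1) (b := 2) (c := 3) (cn := .npn) (n1 := ndB0q1) (n2 := ndB2q2b) (pc := pcB3) (cut := Cut.none) (xt := Ext.none) (P1 := 536870912) (W1 := 536870912) (P2 := 1239849684) (W2 := 370763052) (P3 := 1045395039) (W3 := 1503240) (N0 := 3) (En := eng) (mo := mog) (C1 := cd0q1) (C2 := cd2q2b) (C3 := pd3)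
    rfl k0_mm_123_b

noncomputable def f_mm_133 : ℕ → ℕ → ℕ → ℕ → Bool := onCell 536870912 536870912 1610612736 536870912 1045395039 1503240
    (rowB 3 eng mog cd0q1 cd2q3 pd3 0 true false false .dn 1 3 3 (qsf 536870912 536870912 1610612736 536870912 3) ndB0q1 ndB2q3 pcB3 Cut.none Ext.none)

def k0_mm_133 : ∃ t, chk3 f_mm_133 t 1 1 1 = true :=
  ⟨(l 4), by decide +kernel⟩

theorem c_mm_133 : CertB 536870912 536870912 1610612736 536870912 1045395039 1503240 3 eng mog cd0q1 cd2q3 pd3 true false false .dn 1 3 3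
    ndB0q1 ndB2q3 pcB3 Cut.none Ext.none :=
  certB0 (fam := true) (s1 := false) (s2 := false) (a := 1) (b := 3) (c := 3) (cn := .dn) (n1 := ndB0q1) (n2 := ndB2q3) (pc := pcB3) (cut := Cut.none) (xt := Ext.none) (P1 := 536870912) (W1 := 536870912) (P2 := 1610612736) (W2 := 536870912) (P3 := 1045395039) (W3 := 1503240) (N0 := 3) (En := eng) (mo := mog) (C1 := cd0q1) (C2 := cd2q3) (C3 := pd3)
    rfl k0_mm_133

noncomputable def cut_mm_202 : Cut := Cut.of [[⟨0, 1, 0, 26843545⟩, ⟨1, 0, 0, 26843545⟩, ⟨2, 1, 0, 26843545⟩]]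

noncomputable def f_mm_202 : ℕ → ℕ → ℕ → ℕ → Bool := onCell 0 536870912 0 536870912 1045395039 1503240
    (rowB 3 eng mog cd0q2 cd2q0 pd2 0 true false false .pp 2 0 2 (qsf 0 536870912 0 536870912 2) ndB0q2 ndB2q0 pcB2 cut_mm_202 Ext.none)

def k0_mm_202 : ∃ t, chk3 f_mm_202 t 2 2 1 = true :=
  ⟨(b (b (a (b (b (a (l 16286232) (l 16219712)) (a (l 16067496) (l 15918000))) (a (l 15553320) (b (a (l 15845904) (l 15923432)) (a (l 15625312) (l 15750128))))) (b (a (b (a (b (l 16437344) (l 16414224)) (l 16249256)) (a (l 16240352) (l 16339488))) (b (b (a (l 16322816) (l 16276736)) (a (l 16428496) (l 16378328))) (a (l 16435896) (l 16484528)))) (a (b (l 16096544) (l 15939576)) (a (l 16012592) (l 16072808))))) (a (b (a (b (l 15223960) (a (l 15105608) (l 15191912))) (l 15397384)) (a (b (l 14901592) (l 14930480)) (l 15323656))) (a (b (b (l 15818912) (l 15732440)) (l 15620112)) (b (a (l 15969256) (l 16086936)) (a (l 15888672) (l 16021192)))))) (b (a (b (a (l 14871408) (l 15287384)) (a (l 14890864) (l 15357912)))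 (a (b (l 15648800) (a (l 15680664) (l 15836032))) (b (a (l 15921064) (b (l 16042000) (l 16045792))) (a (l 42645658055) (l 4))))) (a (b (a (l 15009576) (l 15350912)) (a (l 15213560) (a (l 15611328) (l 15758736)))) (a (b (a (l 15723192) (l 15884568)) (l 4)) (l 4))))), by decide +kernel⟩

def k1_mm_202 : ∃ t, chk3 f_mm_202 t 6 4 1 = true :=
  ⟨(b (b (a (b (b (a (l 16242576) (l 16224024)) (a (l 16340952) (l 16319992))) (a (l 16417848) (l 16393232))) (b (a (b (a (l 16222976) (l 16229088)) (l 16277416)) (b (a (l 16241568) (l 16261056)) (a (l 16334904) (l 16353936)))) (a (l 16369016) (b (l 16439360) (l 16529400))))) (a (b (a (l 16441288) (l 16514144)) (a (l 16313568) (l 16390368))) (a (b (l 16569320) (l 16447352)) (b (l 16561072) (l 16460840))))) (a (b (a (l 16188984) (b (l 16302920) (l 16249896))) (a (b (l 16137928) (l 16132448)) (b (l 16220264) (l 16189080)))) (b (a (b (l 16362344) (l 16308208)) (b (a (l 16391976) (l 16408952)) (l 87743766375))) (a (b (l 16264672) (l 4)) (l 4))))), by decide +kernel⟩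

def k2_mm_202 : ∃ t, chk3 f_mm_202 t 14 8 1 = true :=
  ⟨(b (b (a (b (a (b (l 16266504) (l 16309456)) (b (a (l 16292552) (l 16312704)) (l 16345192))) (a (l 16296928) (b (l 16386560) (l 16443256)))) (b (a (b (a (l 16335216) (b (l 16349360) (l 16371512))) (a (l 16378080) (l 16403416))) (b (a (b (a (l 16370360) (l 16385496)) (l 16399864)) (b (a (l 16401640) (l 16418936)) (l 16431952))) (a (l 16431888) (l 16463416)))) (a (b (l 16410792) (l 16488384)) (b (a (l 16473240) (l 16504376)) (l 16545304))))) (a (b (a (l 16497152) (l 16532344)) (b (l 16576184) (l 16649744))) (a (a (l 16516184) (l 16520408)) (b (l 16571240) (l 16650240))))) (a (b (a (l 16611504) (l 16545736)) (a (l 16474648) (l 88817860071))) (b (a (b (l 16633712) (l 16577792)) (b (l 16567432) (l 4))) (l 4)))), by decide +kernel⟩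

def k3_mm_202 : ∃ t, chk3 f_mm_202 t 15 8 1 = true :=
  ⟨(b (a (b (b (a (b (a (b (a (l 16437296) (b (l 16451280) (l 16461984))) (l 16468032)) (b (a (b (l 16471584) (l 16482272)) (b (l 16492536) (l 16503320))) (a (l 16498008) (l 16519040)))) (a (l 16457224) (b (l 16528832) (l 16548344)))) (b (a (b (a (b (l 16513952) (l 16524880)) (b (l 16535760) (l 16546832))) (l 16509896)) (b (a (b (l 16557912) (l 16569128)) (l 6)) (a (l 16585496) (l 16608360)))) (a (b (l 16572304) (l 16591968)) (l 16586272)))) (a (b (a (l 16539480) (l 16557112)) (l 16551504)) (a (b (l 16579440) (l 16654736)) (b (l 16625800) (l 16658072))))) (a (b (b (l 16610760) (l 16684648)) (a (l 16636272) (l 16658632))) (b (a (b (l 16691336) (l 16711528)) (b (l 16713592) (l 4))) (l 4)))) (b (a (b (a (b (l 6) (a (l 16663584) (l 16666640))) (l 6)) (a (b (b (l 16684688) (l 16684072)) (a (l 16708096) (l 16752160))) (b (a (b (l 6) (l 16752320)) (l 6)) (l 4)))) (b (l 6) (l 4))) (l 4))) (l 4)), by decide +kernel⟩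

def k4_mm_202 : ∃ t, chk3 f_mm_202 t 7 9 1 = true :=
  ⟨(a (l 4) (l 4)), by decide +kernel⟩

def k5_mm_202 : ∃ t, chk3 f_mm_202 t 3 5 1 = true :=
  ⟨(a (b (a (b (a (b (l 16116992) (l 4)) (l 4)) (l 4)) (l 4)) (l 4)) (l 4)), by decide +kernel⟩

def k6_mm_202 : ∃ t, chk3 f_mm_202 t 1 3 1 = true :=
  ⟨(a (a (b (b (b (a (a (l 15335944) (l 15583920)) (l 29223362295)) (a (a (l 15551960) (l 15642816)) (l 4))) (l 4)) (l 2)) (l 4)) (l 4)), by decide +kernel⟩

theorem s7_mm_202 : ∃ t, chk3 f_mm_202 t 7 8 1 = true := ex3_a k2_mm_202 k3_mm_202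

theorem s8_mm_202 : ∃ t, chk3 f_mm_202 t 7 4 1 = true := ex3_b s7_mm_202 k4_mm_202

theorem s9_mm_202 : ∃ t, chk3 f_mm_202 t 3 4 1 = true := ex3_a k1_mm_202 s8_mm_202

theorem s10_mm_202 : ∃ t, chk3 f_mm_202 t 3 2 1 = true := ex3_b s9_mm_202 k5_mm_202

theorem s11_mm_202 : ∃ t, chk3 f_mm_202 t 1 2 1 = true := ex3_a k0_mm_202 s10_mm_202

theorem s12_mm_202 : ∃ t, chk3 f_mm_202 t 1 1 1 = true := ex3_b s11_mm_202 k6_mm_202

theorem c_mm_202 : CertB 0 536870912 0 536870912 1045395039 1503240 3 eng mog cd0q2 cd2q0 pd2 true false false .pp 2 0 2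
    ndB0q2 ndB2q0 pcB2 cut_mm_202 Ext.none :=
  certB0 (fam := true) (s1 := false) (s2 := false) (a := 2) (b := 0) (c := 2) (cn := .pp) (n1 := ndB0q2) (n2 := ndB2q0) (pc := pcB2) (cut := cut_mm_202) (xt := Ext.none) (P1 := 0) (W1 := 536870912) (P2 := 0) (W2 := 536870912) (P3 := 1045395039) (W3 := 1503240) (N0 := 3) (En := eng) (mo := mog) (C1 := cd0q2) (C2 := cd2q0) (C3 := pd2)
    rfl s12_mm_202

noncomputable def f_mm_203 : ℕ → ℕ → ℕ → ℕ → Bool := onCell 0 536870912 1610612736 536870912 1045395039 1503240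
    (rowB 3 eng mog cd0q2 cd2q0 pd3 1 true false false .up 2 0 3 (qsf 0 536870912 0 536870912 3) ndB0q2 ndB2q0 pcB3 Cut.none Ext.none)

def k0_mm_203 : ∃ t, chk3 f_mm_203 t 1 1 1 = true :=
  ⟨(a (b (l 4) (l 2)) (l 4)), by decide +kernel⟩

theorem c_mm_203 : CertB 0 536870912 0 536870912 1045395039 1503240 3 eng mog cd0q2 cd2q0 pd3 true false false .up 2 0 3
    ndB0q2 ndB2q0 pcB3 Cut.none Ext.none :=
  certB1 (fam := true) (s1 := false) (s2 := false) (a := 2) (b := 0) (c := 3) (cn := .up) (n1 := ndB0q2) (n2 := ndB2q0) (pc := pcB3) (cut := Cut.none) (xt := Ext.none) (P1 := 0) (W1 := 536870912) (P2 := 0) (W2 := 536870912) (P3 := 1045395039) (W3 := 1503240) (N0 := 3) (En := eng) (mo := mog) (C1 := cd0q2) (C2 := cd2q0) (C3 := pd3)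
    rfl (fun _ => rfl) k0_mm_203

noncomputable def f_mm_213 : ℕ → ℕ → ℕ → ℕ → Bool := onCell 0 536870912 536870912 536870912 1045395039 1503240
    (rowB 3 eng mog cd0q2 cd2q1 pd3 0 true false false .pnn 2 1 3 (qsf 0 536870912 536870912 536870912 3) ndB0q2 ndB2q1 pcB3 Cut.none Ext.none)

def k0_mm_213 : ∃ t, chk3 f_mm_213 t 1 1 1 = true :=
  ⟨(l 4), by decide +kernel⟩

theorem c_mm_213 : CertB 0 536870912 536870912 536870912 1045395039 1503240 3 eng mog cd0q2 cd2q1 pd3 true false false .pnn 2 1 3
    ndB0q2 ndB2q1 pcB3 Cut.none Ext.none :=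
  certB0 (fam := true) (s1 := false) (s2 := false) (a := 2) (b := 1) (c := 3) (cn := .pnn) (n1 := ndB0q2) (n2 := ndB2q1) (pc := pcB3) (cut := Cut.none) (xt := Ext.none) (P1 := 0) (W1 := 536870912) (P2 := 536870912) (W2 := 536870912) (P3 := 1045395039) (W3 := 1503240) (N0 := 3) (En := eng) (mo := mog) (C1 := cd0q2) (C2 := cd2q1) (C3 := pd3)
    rfl k0_mm_213

end Pool.Agent.Strip051.G.I9736_9750.Tab.C.BA02

namespace Pool.Agent.Strip051.G.I9736_9750.Tab.C.BA03

open Pool.Agent.Strip051.PB Pool.Agent.Strip051.PB.T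
open Pool.Agent.Strip051.G.I9736_9750.Tab

noncomputable def f_pp_001 : ℕ → ℕ → ℕ → ℕ → Bool := onCell 0 536870912 0 536870912 1045395039 1503240
    (rowB 3 eng mog cd0q0 cd3q0 pd1 0 true true true .up 0 0 1 (qsf 0 536870912 0 536870912 1) ndB0q0 ndB3q0 pcB1 Cut.none Ext.none)

def k0_pp_001 : ∃ t, chk3 f_pp_001 t 1 1 1 = true :=
  ⟨(l 4), by decide +kernel⟩

theorem c_pp_001 : CertB 0 536870912 0 536870912 1045395039 1503240 3 eng mog cd0q0 cd3q0 pd1 true true true .up 0 0 1
    ndB0q0 ndB3q0 pcB1 Cut.none Ext.none :=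
  certB0 (fam := true) (s1 := true) (s2 := true) (a := 0) (b := 0) (c := 1) (cn := .up) (n1 := ndB0q0) (n2 := ndB3q0) (pc := pcB1) (cut := Cut.none) (xt := Ext.none) (P1 := 0) (W1 := 536870912) (P2 := 0) (W2 := 536870912) (P3 := 1045395039) (W3 := 1503240) (N0 := 3) (En := eng) (mo := mog) (C1 := cd0q0) (C2 := cd3q0) (C3 := pd1)
    rfl k0_pp_001

noncomputable def f_pp_011 : ℕ → ℕ → ℕ → ℕ → Bool := onCell 0 536870912 536870912 536870912 1045395039 1503240
    (rowB 3 eng mog cd0q0 cd3q1 pd1 0 true true true .pnn 0 1 1 (qsf 0 536870912 536870912 536870912 1) ndB0q0 ndB3q1 pcB1 Cut.none Ext.none)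

def k0_pp_011 : ∃ t, chk3 f_pp_011 t 1 1 1 = true :=
  ⟨(l 4), by decide +kernel⟩

theorem c_pp_011 : CertB 0 536870912 536870912 536870912 1045395039 1503240 3 eng mog cd0q0 cd3q1 pd1 true true true .pnn 0 1 1
    ndB0q0 ndB3q1 pcB1 Cut.none Ext.none :=
  certB0 (fam := true) (s1 := true) (s2 := true) (a := 0) (b := 1) (c := 1) (cn := .pnn) (n1 := ndB0q0) (n2 := ndB3q1) (pc := pcB1) (cut := Cut.none) (xt := Ext.none) (P1 := 0) (W1 := 536870912) (P2 := 536870912) (W2 := 536870912) (P3 := 1045395039) (W3 := 1503240) (N0 := 3) (En := eng) (mo := mog) (C1 := cd0q0) (C2 := cd3q1) (C3 := pd1)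
    rfl k0_pp_011

noncomputable def f_pp_012 : ℕ → ℕ → ℕ → ℕ → Bool := onCell 0 536870912 536870912 536870912 1045395039 1503240
    (rowB 3 eng mog cd0q0 cd3q1 pd2 0 true true true .pnp 0 1 2 (qsf 0 536870912 536870912 536870912 2) ndB0q0 ndB3q1 pcB2 Cut.none Ext.none)

def k0_pp_012 : ∃ t, chk3 f_pp_012 t 1 1 1 = true :=
  ⟨(l 4), by decide +kernel⟩

theorem c_pp_012 : CertB 0 536870912 536870912 536870912 1045395039 1503240 3 eng mog cd0q0 cd3q1 pd2 true true true .pnp 0 1 2
    ndB0q0 ndB3q1 pcB2 Cut.none Ext.none :=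
  certB0 (fam := true) (s1 := true) (s2 := true) (a := 0) (b := 1) (c := 2) (cn := .pnp) (n1 := ndB0q0) (n2 := ndB3q1) (pc := pcB2) (cut := Cut.none) (xt := Ext.none) (P1 := 0) (W1 := 536870912) (P2 := 536870912) (W2 := 536870912) (P3 := 1045395039) (W3 := 1503240) (N0 := 3) (En := eng) (mo := mog) (C1 := cd0q0) (C2 := cd3q1) (C3 := pd2)
    rfl k0_pp_012

noncomputable def f_pp_022 : ℕ → ℕ → ℕ → ℕ → Bool := onCell 0 536870912 1073741824 536870912 1045395039 1503240
    (rowB 3 eng mog cd0q0 cd3q2 pd2 0 true true true .pp 0 2 2 (qsf 0 536870912 1073741824 536870912 2) ndB0q0 ndB3q2 pcB2 Cut.none Ext.none)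

def k0_pp_022 : ∃ t, chk3 f_pp_022 t 1 1 1 = true :=
  ⟨(a (b (l 4) (l 4)) (l 4)), by decide +kernel⟩

theorem c_pp_022 : CertB 0 536870912 1073741824 536870912 1045395039 1503240 3 eng mog cd0q0 cd3q2 pd2 true true true .pp 0 2 2
    ndB0q0 ndB3q2 pcB2 Cut.none Ext.none :=
  certB0 (fam := true) (s1 := true) (s2 := true) (a := 0) (b := 2) (c := 2) (cn := .pp) (n1 := ndB0q0) (n2 := ndB3q2) (pc := pcB2) (cut := Cut.none) (xt := Ext.none) (P1 := 0) (W1 := 536870912) (P2 := 1073741824) (W2 := 536870912) (P3 := 1045395039) (W3 := 1503240) (N0 := 3) (En := eng) (mo := mog) (C1 := cd0q0) (C2 := cd3q2) (C3 := pd2)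
    rfl k0_pp_022

noncomputable def f_pp_023 : ℕ → ℕ → ℕ → ℕ → Bool := onCell 1610612736 536870912 1073741824 536870912 1045395039 1503240
    (rowB 3 eng mog cd0q0 cd3q2 pd3 2 true true true .up 0 2 3 (qsf 0 536870912 1073741824 536870912 3) ndB0q0 ndB3q2 pcB3 Cut.none Ext.none)

def k0_pp_023 : ∃ t, chk3 f_pp_023 t 1 1 1 = true :=
  ⟨(l 4), by decide +kernel⟩

theorem c_pp_023 : CertB 0 536870912 1073741824 536870912 1045395039 1503240 3 eng mog cd0q0 cd3q2 pd3 true true true .up 0 2 3
    ndB0q0 ndB3q2 pcB3 Cut.none Ext.none :=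
  certB2 (fam := true) (s1 := true) (s2 := true) (a := 0) (b := 2) (c := 3) (cn := .up) (n1 := ndB0q0) (n2 := ndB3q2) (pc := pcB3) (cut := Cut.none) (xt := Ext.none) (P1 := 0) (W1 := 536870912) (P2 := 1073741824) (W2 := 536870912) (P3 := 1045395039) (W3 := 1503240) (N0 := 3) (En := eng) (mo := mog) (C1 := cd0q0) (C2 := cd3q2) (C3 := pd3)
    rfl (fun _ => rfl) k0_pp_023

noncomputable def f_pp_033 : ℕ → ℕ → ℕ → ℕ → Bool := onCell 0 536870912 0 1230186008 1045395039 1503240
    (rowB 3 eng mog cd0q0 cd3q3 pd3 0 true true true .pnn 0 3 3 (qsf 0 536870912 0 1230186008 3) ndB0q0 ndB3q3 pcB3 Cut.none Ext.none)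

def k0_pp_033 : ∃ t, chk3 f_pp_033 t 1 1 1 = true :=
  ⟨(b (l 4) (l 4)), by decide +kernel⟩

theorem c_pp_033 : CertB 0 536870912 0 1230186008 1045395039 1503240 3 eng mog cd0q0 cd3q3 pd3 true true true .pnn 0 3 3
    ndB0q0 ndB3q3 pcB3 Cut.none Ext.none :=
  certB0 (fam := true) (s1 := true) (s2 := true) (a := 0) (b := 3) (c := 3) (cn := .pnn) (n1 := ndB0q0) (n2 := ndB3q3) (pc := pcB3) (cut := Cut.none) (xt := Ext.none) (P1 := 0) (W1 := 536870912) (P2 := 0) (W2 := 1230186008) (P3 := 1045395039) (W3 := 1503240) (N0 := 3) (En := eng) (mo := mog) (C1 := cd0q0) (C2 := cd3q3) (C3 := pd3)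
    rfl k0_pp_033

noncomputable def f_pp_101 : ℕ → ℕ → ℕ → ℕ → Bool := onCell 536870912 536870912 0 536870912 1045395039 1503240
    (rowB 3 eng mog cd0q1 cd3q0 pd1 0 true true true .npn 1 0 1 (qsf 536870912 536870912 0 536870912 1) ndB0q1 ndB3q0 pcB1 Cut.none Ext.none)

def k0_pp_101 : ∃ t, chk3 f_pp_101 t 1 1 1 = true :=
  ⟨(l 5), by decide +kernel⟩

theorem c_pp_101 : CertB 536870912 536870912 0 536870912 1045395039 1503240 3 eng mog cd0q1 cd3q0 pd1 true true true .npn 1 0 1
    ndB0q1 ndB3q0 pcB1 Cut.none Ext.none :=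
  certB0 (fam := true) (s1 := true) (s2 := true) (a := 1) (b := 0) (c := 1) (cn := .npn) (n1 := ndB0q1) (n2 := ndB3q0) (pc := pcB1) (cut := Cut.none) (xt := Ext.none) (P1 := 536870912) (W1 := 536870912) (P2 := 0) (W2 := 536870912) (P3 := 1045395039) (W3 := 1503240) (N0 := 3) (En := eng) (mo := mog) (C1 := cd0q1) (C2 := cd3q0) (C3 := pd1)
    rfl k0_pp_101

noncomputable def f_pp_102 : ℕ → ℕ → ℕ → ℕ → Bool := onCell 536870912 536870912 0 536870912 1045395039 1503240
    (rowB 3 eng mog cd0q1 cd3q0 pd2 0 true true true .npp 1 0 2 (qsf 536870912 536870912 0 536870912 2) ndB0q1 ndB3q0 pcB2 Cut.none Ext.none)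

def k0_pp_102 : ∃ t, chk3 f_pp_102 t 1 1 1 = true :=
  ⟨(l 5), by decide +kernel⟩

theorem c_pp_102 : CertB 536870912 536870912 0 536870912 1045395039 1503240 3 eng mog cd0q1 cd3q0 pd2 true true true .npp 1 0 2
    ndB0q1 ndB3q0 pcB2 Cut.none Ext.none :=
  certB0 (fam := true) (s1 := true) (s2 := true) (a := 1) (b := 0) (c := 2) (cn := .npp) (n1 := ndB0q1) (n2 := ndB3q0) (pc := pcB2) (cut := Cut.none) (xt := Ext.none) (P1 := 536870912) (W1 := 536870912) (P2 := 0) (W2 := 536870912) (P3 := 1045395039) (W3 := 1503240) (N0 := 3) (En := eng) (mo := mog) (C1 := cd0q1) (C2 := cd3q0) (C3 := pd2)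
    rfl k0_pp_102

noncomputable def f_pp_112 : ℕ → ℕ → ℕ → ℕ → Bool := onCell 536870912 536870912 536870912 536870912 1045395039 1503240
    (rowB 3 eng mog cd0q1 cd3q1 pd2 0 true true true .dn 1 1 2 (qsf 536870912 536870912 536870912 536870912 2) ndB0q1 ndB3q1 pcB2 Cut.none Ext.none)

def k0_pp_112 : ∃ t, chk3 f_pp_112 t 1 1 1 = true :=
  ⟨(l 4), by decide +kernel⟩

theorem c_pp_112 : CertB 536870912 536870912 536870912 536870912 1045395039 1503240 3 eng mog cd0q1 cd3q1 pd2 true true true .dn 1 1 2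
    ndB0q1 ndB3q1 pcB2 Cut.none Ext.none :=
  certB0 (fam := true) (s1 := true) (s2 := true) (a := 1) (b := 1) (c := 2) (cn := .dn) (n1 := ndB0q1) (n2 := ndB3q1) (pc := pcB2) (cut := Cut.none) (xt := Ext.none) (P1 := 536870912) (W1 := 536870912) (P2 := 536870912) (W2 := 536870912) (P3 := 1045395039) (W3 := 1503240) (N0 := 3) (En := eng) (mo := mog) (C1 := cd0q1) (C2 := cd3q1) (C3 := pd2)
    rfl k0_pp_112

noncomputable def f_pp_113 : ℕ → ℕ → ℕ → ℕ → Bool := onCell 536870912 536870912 536870912 536870912 1045395039 1503240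
    (rowB 3 eng mog cd0q1 cd3q1 pd3 0 true true true .nn 1 1 3 (qsf 536870912 536870912 536870912 536870912 3) ndB0q1 ndB3q1 pcB3 Cut.none Ext.none)

def k0_pp_113 : ∃ t, chk3 f_pp_113 t 1 1 1 = true :=
  ⟨(l 4), by decide +kernel⟩

theorem c_pp_113 : CertB 536870912 536870912 536870912 536870912 1045395039 1503240 3 eng mog cd0q1 cd3q1 pd3 true true true .nn 1 1 3
    ndB0q1 ndB3q1 pcB3 Cut.none Ext.none :=
  certB0 (fam := true) (s1 := true) (s2 := true) (a := 1) (b := 1) (c := 3) (cn := .nn) (n1 := ndB0q1) (n2 := ndB3q1) (pc := pcB3) (cut := Cut.none) (xt := Ext.none) (P1 := 536870912) (W1 := 536870912) (P2 := 536870912) (W2 := 536870912) (P3 := 1045395039) (W3 := 1503240) (N0 := 3) (En := eng) (mo := mog) (C1 := cd0q1) (C2 := cd3q1) (C3 := pd3)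
    rfl k0_pp_113

noncomputable def f_pp_123 : ℕ → ℕ → ℕ → ℕ → Bool := onCell 536870912 536870912 1073741824 536870912 1045395039 1503240
    (rowB 3 eng mog cd0q1 cd3q2 pd3 0 true true true .npn 1 2 3 (qsf 536870912 536870912 1073741824 536870912 3) ndB0q1 ndB3q2 pcB3 Cut.none Ext.none)

def k0_pp_123 : ∃ t, chk3 f_pp_123 t 1 1 1 = true :=
  ⟨(l 4), by decide +kernel⟩

theorem c_pp_123 : CertB 536870912 536870912 1073741824 536870912 1045395039 1503240 3 eng mog cd0q1 cd3q2 pd3 true true true .npn 1 2 3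
    ndB0q1 ndB3q2 pcB3 Cut.none Ext.none :=
  certB0 (fam := true) (s1 := true) (s2 := true) (a := 1) (b := 2) (c := 3) (cn := .npn) (n1 := ndB0q1) (n2 := ndB3q2) (pc := pcB3) (cut := Cut.none) (xt := Ext.none) (P1 := 536870912) (W1 := 536870912) (P2 := 1073741824) (W2 := 536870912) (P3 := 1045395039) (W3 := 1503240) (N0 := 3) (En := eng) (mo := mog) (C1 := cd0q1) (C2 := cd3q2) (C3 := pd3)
    rfl k0_pp_123

noncomputable def f_pp_133 : ℕ → ℕ → ℕ → ℕ → Bool := onCell 536870912 536870912 0 1230186008 1045395039 1503240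
    (rowB 3 eng mog cd0q1 cd3q3 pd3 0 true true true .dn 1 3 3 (qsf 536870912 536870912 0 1230186008 3) ndB0q1 ndB3q3 pcB3 Cut.none Ext.none)

def k0_pp_133 : ∃ t, chk3 f_pp_133 t 1 1 1 = true :=
  ⟨(b (l 2) (l 4)), by decide +kernel⟩

theorem c_pp_133 : CertB 536870912 536870912 0 1230186008 1045395039 1503240 3 eng mog cd0q1 cd3q3 pd3 true true true .dn 1 3 3
    ndB0q1 ndB3q3 pcB3 Cut.none Ext.none :=
  certB0 (fam := true) (s1 := true) (s2 := true) (a := 1) (b := 3) (c := 3) (cn := .dn) (n1 := ndB0q1) (n2 := ndB3q3) (pc := pcB3) (cut := Cut.none) (xt := Ext.none) (P1 := 536870912) (W1 := 536870912) (P2 := 0) (W2 := 1230186008) (P3 := 1045395039) (W3 := 1503240) (N0 := 3) (En := eng) (mo := mog) (C1 := cd0q1) (C2 := cd3q3) (C3 := pd3)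
    rfl k0_pp_133

noncomputable def f_pp_202 : ℕ → ℕ → ℕ → ℕ → Bool := onCell 0 536870912 0 536870912 1045395039 1503240
    (rowB 3 eng mog cd0q2 cd3q0 pd2 0 true true true .pp 2 0 2 (qsf 0 536870912 0 536870912 2) ndB0q2 ndB3q0 pcB2 Cut.none Ext.none)

def k0_pp_202 : ∃ t, chk3 f_pp_202 t 1 1 1 = true :=
  ⟨(l 5), by decide +kernel⟩

theorem c_pp_202 : CertB 0 536870912 0 536870912 1045395039 1503240 3 eng mog cd0q2 cd3q0 pd2 true true true .pp 2 0 2
    ndB0q2 ndB3q0 pcB2 Cut.none Ext.none :=
  certB0 (fam := true) (s1 := true) (s2 := true) (a := 2) (b := 0) (c := 2) (cn := .pp) (n1 := ndB0q2) (n2 := ndB3q0) (pc := pcB2) (cut := Cut.none) (xt := Ext.none) (P1 := 0) (W1 := 536870912) (P2 := 0) (W2 := 536870912) (P3 := 1045395039) (W3 := 1503240) (N0 := 3) (En := eng) (mo := mog) (C1 := cd0q2) (C2 := cd3q0) (C3 := pd2)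
    rfl k0_pp_202

noncomputable def f_pp_203 : ℕ → ℕ → ℕ → ℕ → Bool := onCell 0 536870912 0 536870912 1045395039 1503240
    (rowB 3 eng mog cd0q2 cd3q0 pd3 0 true true true .up 2 0 3 (qsf 0 536870912 0 536870912 3) ndB0q2 ndB3q0 pcB3 Cut.none Ext.none)

def k0_pp_203 : ∃ t, chk3 f_pp_203 t 1 1 1 = true :=
  ⟨(l 5), by decide +kernel⟩

theorem c_pp_203 : CertB 0 536870912 0 536870912 1045395039 1503240 3 eng mog cd0q2 cd3q0 pd3 true true true .up 2 0 3
    ndB0q2 ndB3q0 pcB3 Cut.none Ext.none :=
  certB0 (fam := true) (s1 := true) (s2 := true) (a := 2) (b := 0) (c := 3) (cn := .up) (n1 := ndB0q2) (n2 := ndB3q0) (pc := pcB3) (cut := Cut.none) (xt := Ext.none) (P1 := 0) (W1 := 536870912) (P2 := 0) (W2 := 536870912) (P3 := 1045395039) (W3 := 1503240) (N0 := 3) (En := eng) (mo := mog) (C1 := cd0q2) (C2 := cd3q0) (C3 := pd3)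
    rfl k0_pp_203

noncomputable def f_pp_213 : ℕ → ℕ → ℕ → ℕ → Bool := onCell 0 536870912 536870912 536870912 1045395039 1503240
    (rowB 3 eng mog cd0q2 cd3q1 pd3 0 true true true .pnn 2 1 3 (qsf 0 536870912 536870912 536870912 3) ndB0q2 ndB3q1 pcB3 Cut.none Ext.none)

def k0_pp_213 : ∃ t, chk3 f_pp_213 t 1 1 1 = true :=
  ⟨(l 4), by decide +kernel⟩

theorem c_pp_213 : CertB 0 536870912 536870912 536870912 1045395039 1503240 3 eng mog cd0q2 cd3q1 pd3 true true true .pnn 2 1 3
    ndB0q2 ndB3q1 pcB3 Cut.none Ext.none :=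
  certB0 (fam := true) (s1 := true) (s2 := true) (a := 2) (b := 1) (c := 3) (cn := .pnn) (n1 := ndB0q2) (n2 := ndB3q1) (pc := pcB3) (cut := Cut.none) (xt := Ext.none) (P1 := 0) (W1 := 536870912) (P2 := 536870912) (W2 := 536870912) (P3 := 1045395039) (W3 := 1503240) (N0 := 3) (En := eng) (mo := mog) (C1 := cd0q2) (C2 := cd3q1) (C3 := pd3)
    rfl k0_pp_213

noncomputable def f_pm_001 : ℕ → ℕ → ℕ → ℕ → Bool := onCell 536870912 536870912 0 536870912 1045395039 1503240
    (rowB 3 eng mog cd0q0 cd3q0 pd1 2 true true false .up 0 0 1 (qsf 0 536870912 0 536870912 1) ndB0q0 ndB3q0 pcB1 Cut.none Ext.none)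

def k0_pm_001 : ∃ t, chk3 f_pm_001 t 1 1 1 = true :=
  ⟨(a (l 3) (a (l 3) (b (l 2) (a (l 3) (a (l 3) (b (l 2) (b (l 2) (a (l 3) (b (l 2) (a (l 3) (b (l 2) (a (a (l 3) (b (l 2) (l 182160612999))) (b (l 2) (l 13557256)))))))))))))), by decide +kernel⟩

theorem c_pm_001 : CertB 0 536870912 0 536870912 1045395039 1503240 3 eng mog cd0q0 cd3q0 pd1 true true false .up 0 0 1
    ndB0q0 ndB3q0 pcB1 Cut.none Ext.none :=
  certB2 (fam := true) (s1 := true) (s2 := false) (a := 0) (b := 0) (c := 1) (cn := .up) (n1 := ndB0q0) (n2 := ndB3q0) (pc := pcB1) (cut := Cut.none) (xt := Ext.none) (P1 := 0) (W1 := 536870912) (P2 := 0) (W2 := 536870912) (P3 := 1045395039) (W3 := 1503240) (N0 := 3) (En := eng) (mo := mog) (C1 := cd0q0) (C2 := cd3q0) (C3 := pd1)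
    rfl (fun _ => rfl) k0_pm_001

noncomputable def cut_pm_011 : Cut := Cut.of [[⟨0, 0, 0, 26843545⟩, ⟨1, 1, 0, 26843545⟩, ⟨2, 1, 0, 26843545⟩]]

noncomputable def xt_pm_011 : Ext := extD3 3 ⟨4, 1, 1, 5, 33, 5, 163, 200, 81, 200, 1, 64⟩ eng cd0q0 cd3q1 pd1 true true false .pnn 0 1 1 rfl ndB0q0 ndB3q1 pcB1

noncomputable def f_pm_011 : ℕ → ℕ → ℕ → ℕ → Bool := onCell 0 536870912 536870912 536870912 1045395039 1503240
    (rowB 3 eng mog cd0q0 cd3q1 pd1 1 true true false .pnn 0 1 1 (qsf 0 536870912 536870912 536870912 1) ndB0q0 ndB3q1 pcB1 cut_pm_011 xt_pm_011)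

def k0_pm_011 : ∃ t, chk3 f_pm_011 t 1 1 1 = true :=
  ⟨(b (l 3) (b (l 3) (b (l 3) (b (l 3) (b (a (l 3) (l 3)) (b (a (l 3) (a (l 3) (l 3))) (a (a (b (l 3) (b (a (l 3) (l 3)) (a (b (l 3) (a (a (l 6) (a (l 6) (l 143361781947269183))) (a (a (l 16687144) (l 16670856)) (l 191830400375)))) (a (a (l 153712518775) (l 16600648)) (a (l 16577880) (l 16554080)))))) (a (a (l 16520752) (l 16477208)) (l 16418912))) (a (a (l 16349648) (l 16286224)) (a (l 16223752) (l 16157400)))))))))), by decide +kernel⟩

theorem c_pm_011 : CertB 0 536870912 536870912 536870912 1045395039 1503240 3 eng mog cd0q0 cd3q1 pd1 true true false .pnn 0 1 1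
    ndB0q0 ndB3q1 pcB1 cut_pm_011 xt_pm_011 :=
  certB1 (fam := true) (s1 := true) (s2 := false) (a := 0) (b := 1) (c := 1) (cn := .pnn) (n1 := ndB0q0) (n2 := ndB3q1) (pc := pcB1) (cut := cut_pm_011) (xt := xt_pm_011) (P1 := 0) (W1 := 536870912) (P2 := 536870912) (W2 := 536870912) (P3 := 1045395039) (W3 := 1503240) (N0 := 3) (En := eng) (mo := mog) (C1 := cd0q0) (C2 := cd3q1) (C3 := pd1)
    rfl (fun _ => rfl) k0_pm_011

noncomputable def cut_pm_012 : Cut := Cut.of [[⟨0, 0, 0, 26843545⟩, ⟨1, 1, 0, 26843545⟩, ⟨2, 1, 0, 26843545⟩]]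

noncomputable def xt_pm_012 : Ext := extD3 3 ⟨4, 1, 1, 5, 33, 5, 163, 200, 81, 200, 1, 64⟩ eng cd0q0 cd3q1 pd2 true true false .pnp 0 1 2 rfl ndB0q0 ndB3q1 pcB2

noncomputable def f_pm_012 : ℕ → ℕ → ℕ → ℕ → Bool := onCell 1073741824 536870912 536870912 536870912 1045395039 1503240
    (rowB 3 eng mog cd0q0 cd3q1 pd2 2 true true false .pnp 0 1 2 (qsf 0 536870912 536870912 536870912 2) ndB0q0 ndB3q1 pcB2 cut_pm_012 xt_pm_012)

def k0_pm_012 : ∃ t, chk3 f_pm_012 t 4 2 1 = true :=
  ⟨(a (a (b (b (a (l 16122488) (l 16072176)) (a (l 16180616) (l 16122592))) (b (a (l 16235048) (l 16167256)) (a (l 16290640) (l 16211136)))) (b (b (a (l 16023048) (l 15973952)) (b (l 16033776) (l 16053928))) (b (b (l 16072080) (l 16088864)) (b (l 16104944) (l 16120960))))) (b (a (b (b (l 2) (l 15912512)) (a (l 15908280) (l 15923584))) (b (l 2) (b (l 15839120) (l 15862736)))) (a (b (a (l 16004752) (l 15914624)) (b (l 15999152) (l 16008976))) (b (b (l 15881056) (l 15894816)) (a (l 15931048) (l 15887056)))))), by decide +kernel⟩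

def k1_pm_012 : ∃ t, chk3 f_pm_012 t 4 3 1 = true :=
  ⟨(a (b (a (b (a (l 16289408) (l 16259240)) (a (b (l 16405016) (a (l 16477224) (l 16414584))) (b (l 16300528) (l 16332384)))) (b (b (l 16137552) (l 16155376)) (b (l 16175072) (l 16197272)))) (b (a (a (b (a (b (l 16511832) (a (l 16553552) (l 16517504))) (l 16414936)) (a (b (a (l 16555520) (l 16539944)) (a (a (l 16588600) (l 16590120)) (l 16562048))) (b (l 16488872) (l 16509496)))) (b (b (l 16358632) (l 16377976)) (b (l 16397056) (l 16373992)))) (b (a (l 16267224) (l 16180248)) (a (l 16299864) (l 16207432)))) (a (b (a (a (b (a (b (l 16618344) (l 16610880)) (l 16585648)) (a (a (b (l 16657328) (l 16673736)) (l 16643936)) (l 16571072))) (b (l 16488960) (a (l 16573976) (l 16537296)))) (b (a (l 16464896) (l 16404920)) (a (l 16485856) (l 16423184)))) (a (b (a (b (a (a (l 143022170221985855) (l 143122294495281215)) (l 142751621570592831)) (a (a (b (l 143411053776994431) (l 6)) (l 143027530340466815)) (l 142469665558036607))) (b (l 16555784) (l 141735397858771071)))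 (a (l 6) (b (a (l 142577692573204607) (l 142297042143166591)) (l 6)))) (b (a (l 16489872) (l 16444560)) (a (b (l 141613558104244351) (b (l 141798619686682751) (a (l 6) (l 16538808)))) (b (l 16463448) (a (l 16495640) (l 16460496))))))) (b (a (b (l 16323936) (l 16339464)) (l 16233936)) (a (b (l 16356152) (b (l 16370912) (l 16382088))) (b (l 16254240) (l 16268432))))))) (b (a (b (b (l 16019312) (l 16029704)) (b (l 16040896) (l 16053552))) (b (a (l 15945576) (l 15874856)) (a (l 15958280) (l 15903848)))) (b (a (b (l 16068344) (l 16085920)) (b (l 15940440) (l 15949408))) (a (b (a (l 16147352) (l 16068600)) (a (b (l 16164584) (l 16175464)) (l 16087144))) (b (l 15960872) (a (l 16011352) (l 15940584))))))), by decide +kernel⟩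

def k2_pm_012 : ∃ t, chk3 f_pm_012 t 5 1 1 = true :=
  ⟨(b (b (a (b (l 2) (a (l 15647600) (l 2))) (l 2)) (a (b (a (b (l 15790576) (l 15807992)) (l 15606248)) (a (b (l 15819912) (l 15827144)) (l 15640720))) (b (a (l 15533120) (l 2)) (a (l 15605704) (l 15590488))))) (b (a (a (a (b (l 15851112) (b (l 15849976) (l 15851632))) (b (l 15811096) (a (l 15814864) (b (l 15796384) (l 15790688))))) (b (l 15734416) (l 15684144))) (b (a (l 15666360) (l 15562144)) (a (l 15659208) (l 15604144)))) (a (a (b (a (l 15856240) (a (l 15814440) (a (l 15793936) (a (l 15783608) (b (l 15774672) (l 15774240)))))) (a (b (l 15863816) (l 15872408)) (a (l 15821816) (a (l 15799360) (a (l 15788688) (l 15739416)))))) (b (b (l 15731320) (l 15721960)) (b (l 15717968) (l 15715504)))) (b (a (b (l 15660600) (l 15643656)) (l 15492960)) (a (b (l 15624056) (l 15604600)) (b (l 15562000) (l 15533864))))))), by decide +kernel⟩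

def k3_pm_012 : ∃ t, chk3 f_pm_012 t 3 1 1 = true :=
  ⟨(b (a (b (l 2) (a (b (l 2) (a (b (l 2) (l 15526480)) (l 2))) (l 2))) (l 2)) (a (b (a (b (a (l 15565376) (b (l 15480064) (l 15517024))) (a (l 15537608) (l 15540576))) (b (a (b (l 2) (l 15435200)) (l 2)) (a (b (l 15475288) (l 15484432)) (l 15416480)))) (a (b (a (l 15515392) (l 15467384)) (a (b (l 15519640) (l 15487696)) (b (l 15495312) (l 15462368)))) (b (a (b (l 15517544) (l 15507008)) (b (l 15468648) (l 15447936))) (a (b (l 15487008) (l 15456248)) (b (l 15493824) (l 15467160)))))) (b (a (b (l 2) (a (l 15272552) (l 2))) (l 2)) (a (b (a (l 15404592) (l 15242400)) (a (b (l 15459256) (l 15426928)) (l 15385584))) (b (b (l 2) (l 14871928)) (a (l 15220752) (l 15005592))))))), by decide +kernel⟩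

theorem s4_pm_012 : ∃ t, chk3 f_pm_012 t 4 1 1 = true := ex3_b k0_pm_012 k1_pm_012

theorem s5_pm_012 : ∃ t, chk3 f_pm_012 t 2 1 1 = true := ex3_a s4_pm_012 k2_pm_012

theorem s6_pm_012 : ∃ t, chk3 f_pm_012 t 1 1 1 = true := ex3_a s5_pm_012 k3_pm_012

theorem c_pm_012 : CertB 0 536870912 536870912 536870912 1045395039 1503240 3 eng mog cd0q0 cd3q1 pd2 true true false .pnp 0 1 2
    ndB0q0 ndB3q1 pcB2 cut_pm_012 xt_pm_012 :=
  certB2 (fam := true) (s1 := true) (s2 := false) (a := 0) (b := 1) (c := 2) (cn := .pnp) (n1 := ndB0q0) (n2 := ndB3q1) (pc := pcB2) (cut := cut_pm_012) (xt := xt_pm_012) (P1 := 0) (W1 := 536870912) (P2 := 536870912) (W2 := 536870912) (P3 := 1045395039) (W3 := 1503240) (N0 := 3) (En := eng) (mo := mog) (C1 := cd0q0) (C2 := cd3q1) (C3 := pd2)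
    rfl (fun _ => rfl) s6_pm_012

end Pool.Agent.Strip051.G.I9736_9750.Tab.C.BA03

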