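import Pool.Agent.Strip051.G.I9736_9750.Tab
import Pool.Agent.Strip051.PB.ExtD3

/-! # Certificates B5 (generated) -/

set_option linter.all false
set_option maxRecDepth 100000

namespace Pool.Agent.Strip051.G.I9736_9750.Tab.C.BA03

open Pool.Agent.Strip051.PB Pool.Agent.Strip051.PB.T
open Pool.Agent.Strip051.G.I9736_9750.Tab

noncomputable def f_pm_022 : ℕ → ℕ → ℕ → ℕ → Bool := onCell 0 536870912 1073741824 536870912 1045395039 1503240
    (rowB 3 eng mog cd0q0 cd3q2 pd2 1 true true false .pp 0 2 2 (qsf 0 536870912 1073741824 536870912 2) ndB0q0 ndB3q2 pcB2 Cut.none Ext.none)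

def k0_pm_022 : ∃ t, chk3 f_pm_022 t 2 8 1 = true :=
  ⟨(a (b (a (b (l 3) (b (b (l 3) (b (l 3) (a (a (a (l 16574384) (l 202567757063)) (a (a (l 16628544) (l 16655968)) (l 650183986455))) (l 1)))) (a (a (b (a (l 16561384) (l 16594544)) (a (b (l 16554104) (l 16545976)) (b (l 16587392) (l 16579800)))) (b (a (a (l 16621968) (l 16641480)) (a (l 238940899575) (l 669511386375))) (a (b (l 16624792) (l 16617696)) (a (l 16650784) (a (l 312492175639) (l 435972503383)))))) (a (b (l 1) (a (l 550326050983) (l 1))) (l 1))))) (l 1)) (a (a (a (b (b (a (b (l 16530840) (l 16510792)) (b (l 16564664) (l 16544648))) (a (l 16480968) (l 16514872))) (b (a (l 16441792) (l 16475736)) (a (l 16409792) (l 16442776)))) (b (a (b (b (l 16602608) (l 16582624)) (l 16552896)) (b (b (l 16641696) (l 16621736)) (l 16571080))) (b (a (l 16513816) (l 16553032)) (a (l 16479968) (l 16518384))))) (b (a (b (a (b (l 306586587927) (l 16656016)) (b (l 1) (l 440804393239))) (a (l 16626368) (b (l 306049702551)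 (l 16647880)))) (b (l 1) (a (l 413960826855) (l 1)))) (a (b (a (l 16587408) (l 16618728)) (b (l 16574744) (l 16560344))) (b (a (l 191696140471) (l 412350213783)) (b (l 165926298887) (l 16596808)))))) (a (b (l 1) (a (b (l 1) (l 404833942295)) (l 1))) (l 1)))) (l 1)), by decide +kernel⟩

def k1_pm_022 : ∃ t, chk3 f_pm_022 t 2 9 1 = true :=
  ⟨(a (a (a (b (a (b (b (l 16404392) (l 16387080)) (b (l 16372952) (l 16361576))) (b (a (l 16448984) (l 16486864)) (a (l 16420232) (l 16457816)))) (a (b (b (l 16352576) (l 16345648)) (b (l 16340544) (l 16337096))) (b (a (l 16401864) (l 16439208)) (a (l 16391496) (l 16428680))))) (b (b (a (l 16493136) (b (l 16601288) (l 16583000))) (a (l 16505584) (l 16540752))) (b (a (l 16486616) (l 16521296)) (a (l 16454880) (l 16510192))))) (b (a (b (a (b (l 191159272695) (l 16613080)) (b (l 1) (l 427919459607))) (a (l 16591352) (b (l 16634736) (l 16653408)))) (b (l 1) (a (l 275448123175) (l 1)))) (a (b (a (l 16571384) (l 16618192)) (a (l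 16559928) (l 16585408))) (b (a (l 16630128) (l 542809792743)) (a (l 16587088) (l 16588080)))))) (a (b (l 1) (a (b (l 1) (l 558378879463)) (l 1))) (l 1))), by decide +kernel⟩

def k2_pm_022 : ∃ t, chk3 f_pm_022 t 16 20 1 = true :=
  ⟨(b (a (b (l 16335200) (a (l 16319448) (l 16351376))) (a (b (l 16387672) (l 16387408)) (b (l 16424808) (l 16424552)))) (b (a (b (l 16314760) (a (l 16321768) (l 16353792))) (a (b (l 16388288) (l 16389912)) (b (l 16425472) (l 16427144)))) (a (b (b (l 16297104) (a (l 16325416) (l 16357552))) (b (b (a (l 16327424) (l 16359616)) (a (b (l 16328888) (l 16309360)) (b (l 16361128) (l 16362608)))) (b (b (b (a (a (l 16324424) (l 16339608)) (l 16343232)) (b (a (a (a (l 16311632) (l 16318984)) (l 16340960)) (a (l 16357128) (l 16374264))) (b (a (b (a (l 16321504) (l 16341960)) (b (b (b (a (l 16327184) (l 16342400)) (b (a (l 16327344) (l 16342560)) (b (a (l 16327472) (l 16342696)) (a (l 16322344) (l 16342808))))) (a (l 16327640) (l 16342856)))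 (a (l 16327624) (l 16342840)))) (b (a (l 16358144) (l 16375288)) (b (b (b (l 16346072) (b (l 16346232) (a (l 16358936) (l 16376096)))) (l 16346536)) (l 16346520)))) (a (a (l 16327576) (l 16342800)) (l 16346472))))) (a (a (l 16327264) (l 16342480)) (l 16346152))) (a (a (l 16326416) (l 16341624)) (l 16345296))))) (b (a (b (l 16391768) (l 16393784)) (b (l 16429056) (l 16431128))) (b (a (b (l 16395904) (a (l 16388728) (l 16407768))) (b (l 16433304) (a (l 16427112) (l 16444872)))) (a (b (b (b (a (l 16390960) (l 16410024)) (a (b (l 16392360) (b (b (l 16393392) (a (l 16384176) (l 16398704))) (l 16394264))) (b (l 16411440) (b (b (l 16412488) (a (l 16408232) (l 16418000))) (l 16413368))))) (a (l 16393936) (l 16413040))) (a (l 16393072) (l 16412168))) (b (b (b (l 16417136) (a (b (l 16430824) (b (b (l 16431880) (l 16432536)) (l 16432768))) (b (l 16448624) (b (b (l 16449696) (l 16450352)) (l 16450592))))) (a (l 16432440) (l 16450264))) (l 16419328)))))))), by decide +kernel⟩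

def k3_pm_022 : ∃ t, chk3 f_pm_022 t 16 21 1 = true :=
  ⟨(a (b (a (b (a (l 16321408) (l 16336592)) (l 16299200)) (b (a (l 16352744) (l 16369872)) (l 16331408))) (a (b (l 16311800) (l 16303768)) (l 16318848))) (a (b (a (l 16362520) (l 16381560)) (l 16344488)) (b (a (l 16400896) (l 16418656)) (l 16392200)))), by decide +kernel⟩

def k4_pm_022 : ∃ t, chk3 f_pm_022 t 17 10 1 = true :=
  ⟨(b (b (a (b (l 16471880) (l 16471640)) (b (l 16527072) (l 16505864))) (b (a (b (l 16472608) (l 16474352)) (b (l 16506896) (l 16508736))) (b (a (b (l 16455368) (l 16457520)) (a (l 16498984) (l 16525192))) (b (a (b (l 16459776) (a (l 16468408) (l 16476960))) (b (l 16494480) (a (l 16504880) (l 16507928)))) (a (b (b (b (l 16443776) (b (a (l 16472232) (l 16480856)) (b (b (a (l 16473312) (l 16481968)) (a (l 16453008) (l 16482648))) (l 16457768)))) (l 16457432)) (l 16456536)) (b (b (a (b (l 16507328) (b (l 16508104) (b (b (l 16506680) (l 16505872)) (l 16505440)))) (b (l 16524096) (b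 (l 16521848) (b (b (l 16520408) (a (l 16521336) (l 16512600))) (l 16519152))))) (a (l 16504736) (l 16518464))) (a (l 16502848) (l 16516624)))))))) (a (b (a (l 16442200) (l 16471712)) (l 16418432)) (b (a (l 16470816) (b (l 16484568) (l 16485640))) (a (l 16439896) (l 16434224))))), by decide +kernel⟩

def k5_pm_022 : ∃ t, chk3 f_pm_022 t 8 11 1 = true :=
  ⟨(a (a (b (b (a (l 16292392) (l 16324208)) (l 16251784)) (b (l 16260104) (l 16248936))) (b (a (b (l 16339128) (l 16324672)) (b (l 16376120) (l 16361408))) (a (l 16257064) (l 16272440)))) (b (a (a (l 16342832) (l 16337920)) (b (a (l 16418224) (l 16413560)) (l 16351472))) (a (b (l 16333472) (l 16285104)) (b (l 16327664) (l 16281496))))), by decide +kernel⟩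

def k6_pm_022 : ∃ t, chk3 f_pm_022 t 9 20 1 = true :=
  ⟨(b (a (a (b (l 16555696) (l 16555464)) (b (l 16587464) (l 16559472))) (a (a (l 16561216) (l 16552736)) (l 16538600))) (b (a (a (b (l 16551136) (l 16534768)) (b (l 16558136) (l 16542008))) (a (l 16513760) (l 16517216))) (b (a (a (b (l 16521744) (l 16512160)) (b (l 16529136) (l 16519616))) (a (l 16509400) (l 16492216))) (a (b (a (b (l 16525240) (a (l 16522120) (l 16515432))) (b (l 16511744) (a (l 16508688) (l 16501736)))) (a (b (b (b (a (l 16517296) (l 16510576)) (b (a (l 16515024) (l 16508288)) (b (b (a (l 16513560) (l 16506808)) (b (b (b (a (l 16512976) (l 16506216)) (a (a (l 16514336) (l 16510944)) (a (l 16507560) (l 16498928)))) (a (l 16512408) (l 16505640))) (a (l 16512384) (l 16505608)))) (a (l 16512288) (l 16505520))))) (a (l 16511616) (l 16504864))) (a (l 16509824) (l 16503112))) (b (b (a (b (l 16503808) (b (l 16501488) (b (b (l 16499992) (b (b (b (l 16499392) (a (l 16490272) (l 16476328))) (l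 16498800)) (l 16498776))) (l 16498688)))) (b (l 16496832) (b (l 16494488) (b (b (l 16492968) (a (l 16483392) (l 16469312))) (l 16491656))))) (a (l 16498048) (l 16491032))) (a (l 16496344) (l 16489360))))) (b (a (b (l 16497104) (l 16490600)) (l 16476192)) (a (b (b (b (l 16485656) (b (l 16483280) (b (b (l 16481736) (a (l 16484704) (l 16476776))) (l 16480392)))) (l 16479792)) (l 16478192)) (b (b (b (l 16468464) (b (l 16466040) (l 16463992))) (l 16462512)) (l 16461000)))))))), by decide +kernel⟩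

def k7_pm_022 : ∃ t, chk3 f_pm_022 t 9 21 1 = true :=
  ⟨(a (a (b (a (b (b (l 16503832) (l 16494184)) (l 16479576)) (b (a (l 16494168) (l 16490936)) (l 16473592))) (a (l 16428888) (l 16423608))) (b (a (b (l 16491280) (l 16467536)) (b (l 16479320) (l 16461272))) (a (l 16439232) (l 16433664)))) (a (b (a (l 16463448) (l 16456064)) (a (l 16427728) (l 16421280))) (b (l 16443648) (l 16410296)))), by decide +kernel⟩

def k8_pm_022 : ∃ t, chk3 f_pm_022 t 9 11 1 = true :=
  ⟨(a (b (a (b (a (l 16409208) (l 16404896)) (l 16365624)) (b (a (l 16400488) (l 16395864)) (l 16358712))) (a (b (l 16322872) (l 16278760)) (b (l 16317920) (l 16275792)))) (b (a (b (l 16388208) (l 16350624)) (l 16358048)) (a (l 16249752) (l 16284296)))), by decide +kernel⟩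

def k9_pm_022 : ∃ t, chk3 f_pm_022 t 5 5 1 = true :=
  ⟨(b (b (a (b (a (a (l 16539144) (l 257194109479)) (l 1)) (b (a (l 16487904) (l 1)) (a (b (l 16463408) (b (l 16447448) (a (b (b (b (l 16449320) (l 16445824)) (l 16443288)) (l 16441864)) (l 16426072)))) (b (l 1) (b (l 1) (l 376379216247)))))) (l 1)) (a (a (a (l 16409832) (l 16392056)) (a (l 16373696) (l 16354768))) (a (l 549788464743) (l 1)))) (a (a (b (a (l 16344800) (l 16330880)) (l 16270208)) (b (l 16308832) (l 16248864))) (b (a (l 16256248) (l 616360293511)) (a (l 16224800) (l 16198184))))), by decide +kernel⟩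

def k10_pm_022 : ∃ t, chk3 f_pm_022 t 8 6 1 = true :=
  ⟨(a (b (b (a (l 16152240) (a (l 16171968) (l 16190128))) (a (b (b (l 16119912) (l 16104408)) (l 16036848)) (b (a (l 16085712) (l 16128520)) (a (l 16051744) (l 16060776))))) (a (b (b (l 15944976) (l 15849560)) (b (l 15708808) (a (l 15639424) (l 15657832)))) (b (a (l 15811280) (l 15843232)) (a (b (l 15773832) (l 15674568)) (b (l 15787664) (l 15690296)))))) (b (b (a (l 16167728) (b (l 16233920) (l 16184920))) (b (a (l 16131352) (l 16134480)) (a (b (l 16088208) (l 16054424)) (b (l 16095792) (l 16066880))))) (b (a (b (l 15989480) (l 15901272)) (b (b (l 16013576) (l 15992128)) (l 15927888))) (a (b (l 15809696) (l 15714928)) (b (l 15839544) (l 15748016)))))), by decide +kernel⟩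

def k11_pm_022 : ∃ t, chk3 f_pm_022 t 8 14 1 = true :=
  ⟨(a (a (b (b (a (b (l 15560496) (l 15506896)) (l 15532768)) (a (b (l 15452632) (l 15376784)) (b (l 15474048) (l 15399048)))) (b (a (b (l 15321320) (l 15265312)) (b (l 15344440) (l 15289288))) (b (a (a (l 15202472) (l 15236120)) (l 15233640)) (a (b (a (b (l 15187840) (b (a (b (a (l 15174216) (l 15177264)) (a (l 15171768) (l 15174000))) (l 15180384)) (a (l 15169584) (b (a (l 15173784) (l 15176624)) (l 15172664))))) (l 15193544)) (a (l 15161160) (b (b (a (b (a (l 15173360) (l 15175976)) (l 15172248)) (l 15179000)) (a (l 15168880) (b (a (l 15172920) (l 15175352)) (l 15171808)))) (l 15164600)))) (a (b (l 15206384) (b (a (l 15181824) (l 15188392)) (a (b (b (a (l 15172472) (l 15174760)) (l 15171344)) (l 15168096)) (b (l 15182896) (b (a (l 15171992) (l 15174184)) (l 15170856)))))) (b (l 15218848) (a (b (l 15194704) (b (l 15184160) (a (l 15175488) (l 15178704)))) (l 15193936)))))))) (b (a (b (l 15530384) (b (l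 15473056) (l 15419952))) (b (l 15568992) (b (l 15492104) (l 15439952)))) (b (a (b (l 15366264) (l 15317272)) (b (l 15387200) (l 15333904))) (a (b (a (l 15272512) (l 15284048)) (a (l 15217088) (l 15208128))) (b (l 15285352) (a (l 15240888) (l 15252712))))))) (b (a (b (l 15554256) (b (l 15542264) (l 15491392))) (b (a (l 15644528) (l 15662560)) (a (l 15546480) (l 15566080)))) (a (b (b (l 15439928) (b (l 15380072) (l 15353928))) (b (b (l 15327664) (l 15301280)) (a (l 15249608) (l 15273232)))) (b (a (b (l 15471488) (l 15420672)) (b (l 15492248) (l 15442208))) (a (b (l 15369344) (l 15296568)) (b (l 15391648) (l 15319640))))))), by decide +kernel⟩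

def k12_pm_022 : ∃ t, chk3 f_pm_022 t 16 15 1 = true :=
  ⟨(b (a (b (b (a (l 15140152) (b (a (l 15159768) (b (a (b (b (a (l 15171488) (l 15173616)) (l 15170344)) (l 15167240)) (b (a (b (l 15176592) (l 15173328)) (l 15177984)) (b (l 15172176) (l 15169792)))) (l 15162984))) (l 15147184))) (a (l 15106736) (l 15122616))) (l 15043336)) (b (a (b (b (a (b (a (b (l 15182688) (b (l 15177440) (a (l 15172760) (l 15175472)))) (l 15185408)) (a (b (l 15170664) (l 15166296)) (b (b (l 15176632) (a (l 15172184) (l 15174688))) (l 15170104)))) (a (b (l 15191560) (b (l 15181144) (b (l 15175824) (a (l 15171600) (l 15173928))))) (l 15190712))) (a (l 15158064) (b (a (l 15167568) (b (a (b (l 15173552) (l 15170992)) (l 15174840)) (l 15168904))) (l 15161048)))) (a (l 15133952) (l 15141192))) (b (b (a (l 15199800) (l 15211968)) (a (b (a (b (l 15179552) (a (l 15182184) (l 15174096))) (l 15182240)) (a (l 15166344) (b (a (l 15171112) (l 15173424)) (l 15167720)))) (a (b (l 15188400) (b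 (l 15178128) (a (l 15170576) (l 15172832)))) (l 15187752)))) (a (l 15148240) (b (b (a (l 15165264) (b (a (l 15170112) (l 15172336)) (l 15166736))) (l 15159192)) (l 15147536))))) (a (l 15067952) (b (l 15120344) (l 15088504))))) (a (l 14981768) (a (l 14989048) (l 15007024)))), by decide +kernel⟩

def k13_pm_022 : ∃ t, chk3 f_pm_022 t 17 60 1 = true :=
  ⟨(a (b (a (l 15195792) (l 15220224)) (a (b (a (b (b (l 15180136) (a (b (l 15172000) (l 15169632)) (l 15176432))) (a (l 15164480) (b (b (l 15171600) (l 15169288)) (l 15166104)))) (b (l 15189288) (b (l 15179048) (a (b (a (l 15169968) (l 15172432)) (l 15168960)) (l 15175424))))) (a (l 15154736) (b (a (l 15163912) (b (b (a (l 15169656) (l 15172000)) (l 15168656)) (l 15165552))) (l 15158080)))) (b (l 15201248) (a (b (b (l 15178088) (a (b (a (l 15169360) (l 15171616)) (l 15168360)) (l 15174552))) (a (l 15163416) (b (b (a (l 15169080) (l 15171272)) (l 15168088)) (l 15165080)))) (b (l 15187480) (b (a (l 15174168) (l 15180616))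 (a (a (l 15167896) (l 15180440)) (a (l 15172320) (l 15175528))))))))) (a (b (l 15244336) (l 15191736)) (b (l 15268168) (a (l 15231192) (l 15243416))))), by decide +kernel⟩

def k14_pm_022 : ∃ t, chk3 f_pm_022 t 17 61 1 = true :=
  ⟨(b (a (a (l 15135240) (b (a (l 15153864) (b (a (l 15162992) (b (b (l 15169768) (l 15167576)) (l 15164672))) (l 15157288))) (l 15142368))) (a (b (a (b (a (b (a (l 15172016) (l 15175184)) (b (l 15169544) (l 15167336))) (b (l 15179912) (a (b (l 15173360) (l 15170312)) (l 15174856)))) (a (l 15162640) (b (b (l 15169336) (l 15167120)) (l 15164336)))) (b (l 15186032) (a (b (b (l 15174632) (a (l 15170104) (l 15172896))) (a (l 15166992) (l 15169120))) (b (l 15179296) (b (l 15174312) (a (l 15169928) (l 15172584))))))) (a (l 15153280) (b (a (l 15162360) (b (a (l 15166856) (l 15168960)) (l 15164080))) (l 15156784)))) (b (a (l 15191992) (l 15204488)) (a (b (a (b (b (l 15174016) (a (l 15169768) (l 15172312))) (l 15167968)) (b (l 15178768) (b (l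 15173752) (a (l 15169632) (l 15172080))))) (a (l 15162152) (b (l 15167840) (l 15163888)))) (b (l 15184952) (a (b (b (l 15173528) (a (l 15169512) (l 15171888))) (l 15167728)) (b (l 15178336) (b (l 15173328) (a (l 15169416) (l 15171720)))))))))) (a (l 15111872) (a (l 15134560) (b (a (l 15152976) (b (a (l 15162008) (l 15165864)) (l 15156560))) (l 15141984))))), by decide +kernel⟩

def k15_pm_022 : ∃ t, chk3 f_pm_022 t 17 31 1 = true :=
  ⟨(a (b (l 15044048) (l 15001544)) (b (a (l 15089288) (l 15105000)) (l 15036432))), by decide +kernel⟩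

def k16_pm_022 : ∃ t, chk3 f_pm_022 t 9 6 1 = true :=
  ⟨(b (a (b (a (l 16157368) (l 16167904)) (a (l 16113152) (l 16117288))) (b (a (l 16208672) (l 16205344)) (a (l 16120176) (l 16120992)))) (b (a (b (a (b (l 16047712) (a (l 16010344) (l 16021984))) (l 16041784)) (a (l 15954416) (b (a (l 15994608) (l 16005288)) (l 15960152)))) (a (b (l 16050432) (b (l 16012480) (a (l 15979912) (l 15988784)))) (l 16029048))) (a (a (b (l 15869160) (l 15780704)) (b (l 15897960) (l 15812504))) (a (b (l 15925392) (l 15842896)) (b (b (l 15968064) (l 15931456)) (l 15871336)))))), by decide +kernel⟩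

def k17_pm_022 : ∃ t, chk3 f_pm_022 t 9 14 1 = true :=
  ⟨(a (b (a (b (l 15647312) (a (l 15585504) (l 15604672))) (b (l 15724032) (l 15590848))) (a (b (a (b (l 15512816) (l 15463520)) (l 15487752)) (a (b (l 15413712) (l 15342448)) (b (l 15435472) (l 15385912)))) (b (a (l 15529064) (l 15549064)) (a (b (l 15456912) (l 15408072)) (l 15453816))))) (b (a (b (l 15757384) (l 15669080)) (b (l 15788800) (l 15703448))) (a (b (l 15578232) (l 15464160)) (b (l 15615528) (l 15525320))))), by decide +kernel⟩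

def k18_pm_022 : ∃ t, chk3 f_pm_022 t 9 30 1 = true :=
  ⟨(a (b (a (b (a (l 15291720) (l 15314936)) (a (l 15240600) (l 15264544))) (a (b (l 15358784) (l 15309096)) (l 15335696))) (a (a (b (b (l 15223064) (l 15155320)) (b (a (b (a (b (b (l 15173160) (a (l 15169336) (l 15171584))) (l 15167560)) (b (l 15177976) (b (l 15173016) (a (l 15169272) (l 15171472))))) (l 15163952)) (b (l 15184200) (a (b (b (a (l 15171424) (l 15174560)) (a (l 15169216) (l 15171384))) (l 15167448)) (b (l 15177688) (b (a (l 15171344) (l 15174440)) (a (l 15169176) (l 15171312))))))) (a (l 15152944) (l 15160312)))) (b (l 15211184) (b (l 15196584) (a (b (a (b (b (a (l 15171288) (l 15174336)) (a (l 15169152) (l 15171264))) (l 15167384)) (b (l 15177472) (b (a (l 15171248) (l 15174256)) (l 15170344)))) (l 15163840)) (b (l 15183728) (a (b (b (l 15172616) (l 15170344)) (l 15167376)) (b (l 15177328) (a (l 15170360) (l 15172592))))))))) (a (b (l 15217120) (l 15166784)) (b (l 15282968) (l 15233328)))))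 (a (b (a (l 15379120) (l 15401136)) (a (l 15281848) (l 15305248))) (b (l 15433144) (l 15339360)))), by decide +kernel⟩

def k19_pm_022 : ∃ t, chk3 f_pm_022 t 9 31 1 = true :=
  ⟨(a (b (a (b (a (l 15134944) (b (l 15156768) (l 15142608))) (l 15113576)) (b (a (b (a (b (a (b (a (l 15170384) (l 15172592)) (l 15167416)) (b (l 15177240) (a (l 15170424) (l 15172608)))) (l 15163968)) (b (l 15183480) (a (b (l 15171680) (l 15167552)) (b (l 15177168) (l 15171736))))) (l 15157128)) (b (l 15195864) (a (b (a (l 15170160) (b (l 15177160) (l 15171888))) (l 15164376)) (b (l 15183416) (a (l 15170352) (l 15174592)))))) (l 15143560))) (a (l 15090744) (l 15101624))) (b (a (b (a (l 15208048) (l 15232720)) (a (b (a (b (a (l 15170584) (l 15174792)) (l 15164944)) (b (l 15183584) (l 15173216))) (l 15158400)) (b (l 15195984) (a (l 15170336) (l 15178744))))) (l 15243736)) (a (l 15131944) (b (a (b (a (l 15171080) (l 15179392)) (l 15160184)) (b (l 15196880) (l 15176576))) (l 15147808))))),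 by decide +kernel⟩

def k20_pm_022 : ∃ t, chk3 f_pm_022 t 5 3 1 = true :=
  ⟨(b (b (a (a (b (l 16197384) (l 16119264)) (l 16148880)) (a (l 16136448) (l 16121120))) (a (a (b (l 16035800) (b (a (l 15962720) (l 15972648)) (a (l 15898560) (l 15920592)))) (b (l 16038648) (l 15953256))) (a (l 16001544) (l 16001552)))) (b (a (a (b (a (l 15776984) (l 15806992)) (a (l 15607040) (l 15642800))) (b (b (l 15884032) (l 15812536)) (l 15693952))) (b (a (l 15878200) (l 15899696)) (a (l 15760112) (l 15810080)))) (a (b (a (a (l 15428456) (l 15469792)) (l 15529112)) (a (b (l 15313912) (a (b (l 15221320) (a (l 15171584) (l 15188184))) (l 15245528))) (l 15357808))) (b (l 15598064) (l 15378808))))), by decide +kernel⟩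

def k21_pm_022 : ∃ t, chk3 f_pm_022 t 3 1 1 = true :=
  ⟨(b (b (l 1) (b (l 1) (a (a (a (l 607770248311) (l 1)) (l 1)) (l 1)))) (b (a (b (a (a (l 186863128743) (l 462278019431)) (l 590053222871)) (a (l 15995760) (a (l 168609299751) (l 561598913079)))) (b (l 1) (a (l 579852470295) (l 1)))) (a (b (a (a (l 15864448) (l 15882136)) (l 15888064)) (a (b (a (l 15743432) (l 15778000)) (l 15620576)) (b (l 15810712) (l 15736912)))) (b (a (a (l 415569898647) (l 539587022167)) (l 545492558983)) (a (l 15802856) (a (l 445634490023) (l 514890807015))))))), by decide +kernel⟩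

theorem s22_pm_022 : ∃ t, chk3 f_pm_022 t 9 15 1 = true := ex3_b k18_pm_022 k19_pm_022

theorem s23_pm_022 : ∃ t, chk3 f_pm_022 t 9 7 1 = true := ex3_b k17_pm_022 s22_pm_022

theorem s24_pm_022 : ∃ t, chk3 f_pm_022 t 9 3 1 = true := ex3_b k16_pm_022 s23_pm_022

theorem s25_pm_022 : ∃ t, chk3 f_pm_022 t 17 30 1 = true := ex3_b k13_pm_022 k14_pm_022

theorem s26_pm_022 : ∃ t, chk3 f_pm_022 t 17 15 1 = true := ex3_b s25_pm_022 k15_pm_022

theorem s27_pm_022 : ∃ t, chk3 f_pm_022 t 8 15 1 = true := ex3_a k12_pm_022 s26_pm_022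

theorem s28_pm_022 : ∃ t, chk3 f_pm_022 t 8 7 1 = true := ex3_b k11_pm_022 s27_pm_022

theorem s29_pm_022 : ∃ t, chk3 f_pm_022 t 8 3 1 = true := ex3_b k10_pm_022 s28_pm_022

theorem s30_pm_022 : ∃ t, chk3 f_pm_022 t 4 3 1 = true := ex3_a s29_pm_022 s24_pm_022

theorem s31_pm_022 : ∃ t, chk3 f_pm_022 t 2 3 1 = true := ex3_a s30_pm_022 k20_pm_022

theorem s32_pm_022 : ∃ t, chk3 f_pm_022 t 9 10 1 = true := ex3_b k6_pm_022 k7_pm_022

theorem s33_pm_022 : ∃ t, chk3 f_pm_022 t 9 5 1 = true := ex3_b s32_pm_022 k8_pm_022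

theorem s34_pm_022 : ∃ t, chk3 f_pm_022 t 16 10 1 = true := ex3_b k2_pm_022 k3_pm_022

theorem s35_pm_022 : ∃ t, chk3 f_pm_022 t 8 10 1 = true := ex3_a s34_pm_022 k4_pm_022

theorem s36_pm_022 : ∃ t, chk3 f_pm_022 t 8 5 1 = true := ex3_b s35_pm_022 k5_pm_022

theorem s37_pm_022 : ∃ t, chk3 f_pm_022 t 4 5 1 = true := ex3_a s36_pm_022 s33_pm_022

theorem s38_pm_022 : ∃ t, chk3 f_pm_022 t 2 5 1 = true := ex3_a s37_pm_022 k9_pm_022

theorem s39_pm_022 : ∃ t, chk3 f_pm_022 t 2 4 1 = true := ex3_b k0_pm_022 k1_pm_022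

theorem s40_pm_022 : ∃ t, chk3 f_pm_022 t 2 2 1 = true := ex3_b s39_pm_022 s38_pm_022

theorem s41_pm_022 : ∃ t, chk3 f_pm_022 t 2 1 1 = true := ex3_b s40_pm_022 s31_pm_022

theorem s42_pm_022 : ∃ t, chk3 f_pm_022 t 1 1 1 = true := ex3_a s41_pm_022 k21_pm_022

theorem c_pm_022 : CertB 0 536870912 1073741824 536870912 1045395039 1503240 3 eng mog cd0q0 cd3q2 pd2 true true false .pp 0 2 2
    ndB0q0 ndB3q2 pcB2 Cut.none Ext.none :=
  certB1 (fam := true) (s1 := true) (s2 := false) (a := 0) (b := 2) (c := 2) (cn := .pp) (n1 := ndB0q0) (n2 := ndB3q2) (pc := pcB2) (cut := Cut.none) (xt := Ext.none) (P1 := 0) (W1 := 536870912) (P2 := 1073741824) (W2 := 536870912) (P3 := 1045395039) (W3 := 1503240) (N0 := 3) (En := eng) (mo := mog) (C1 := cd0q0) (C2 := cd3q2) (C3 := pd2)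
    rfl (fun _ => rfl) s42_pm_022

noncomputable def f_pm_023 : ℕ → ℕ → ℕ → ℕ → Bool := onCell 0 536870912 1610612736 536870912 1045395039 1503240
    (rowB 3 eng mog cd0q0 cd3q2 pd3 1 true true false .up 0 2 3 (qsf 0 536870912 1073741824 536870912 3) ndB0q0 ndB3q2 pcB3 Cut.none Ext.none)

def k0_pm_023 : ∃ t, chk3 f_pm_023 t 1 1 1 = true :=
  ⟨(a (b (a (a (b (a (b (a (l 15476808) (l 15561160)) (l 2)) (b (l 15570736) (l 15565568))) (l 2)) (b (b (a (l 15717104) (b (l 15913944) (l 15893096))) (a (l 15654168) (l 15814640))) (b (a (l 2) (l 15634680)) (l 2)))) (b (a (b (a (l 16005432) (l 15993360)) (l 15855936)) (b (l 16020616) (l 15941096))) (a (b (l 15787984) (l 189076932119)) (b (l 15905984) (l 15888744))))) (a (l 2) (b (b (b (a (l 2) (l 15741328)) (l 2)) (l 2)) (l 2)))) (b (b (a (b (a (l 16011952) (b (a (l 16015520) (l 16019064)) (l 15978464))) (a (l 15948120) (l 15935080))) (b (a (b (a (l 16046848) (l 16136024)) (a (l 15967400) (l 15982160))) (b (l 16186264)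 (l 16104720))) (a (b (l 15932848) (l 15906792)) (b (a (l 15931928) (l 15983256)) (l 15904368))))) (a (a (b (l 15918584) (l 15942680)) (b (l 15920216) (l 15944104))) (a (b (l 15895728) (l 15924432)) (b (l 15861480) (l 15899368))))) (a (b (b (b (l 15831256) (a (l 15816072) (l 15975992))) (b (a (l 15731752) (l 15868312)) (a (l 2) (l 15807288)))) (b (b (a (l 2) (l 15779944)) (l 2)) (l 2))) (b (b (l 16007616) (b (l 16066384) (a (l 15906456) (l 16016536)))) (b (b (a (l 15874480) (l 15945600)) (l 15868360)) (l 4)))))), by decide +kernel⟩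

theorem c_pm_023 : CertB 0 536870912 1073741824 536870912 1045395039 1503240 3 eng mog cd0q0 cd3q2 pd3 true true false .up 0 2 3
    ndB0q0 ndB3q2 pcB3 Cut.none Ext.none :=
  certB1 (fam := true) (s1 := true) (s2 := false) (a := 0) (b := 2) (c := 3) (cn := .up) (n1 := ndB0q0) (n2 := ndB3q2) (pc := pcB3) (cut := Cut.none) (xt := Ext.none) (P1 := 0) (W1 := 536870912) (P2 := 1073741824) (W2 := 536870912) (P3 := 1045395039) (W3 := 1503240) (N0 := 3) (En := eng) (mo := mog) (C1 := cd0q0) (C2 := cd3q2) (C3 := pd3)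
    rfl (fun _ => rfl) k0_pm_023

noncomputable def f_pm_033 : ℕ → ℕ → ℕ → ℕ → Bool := onCell 0 536870912 0 1230186008 1045395039 1503240
    (rowB 3 eng mog cd0q0 cd3q3 pd3 0 true true false .pnn 0 3 3 (qsf 0 536870912 0 1230186008 3) ndB0q0 ndB3q3 pcB3 Cut.none Ext.none)

def k0_pm_033 : ∃ t, chk3 f_pm_033 t 1 2 1 = true :=
  ⟨(l 4), by decide +kernel⟩

def k1_pm_033 : ∃ t, chk3 f_pm_033 t 1 6 1 = true :=
  ⟨(a (b (l 4) (a (a (a (b (a (l 14733504) (l 14812264)) (a (l 14798376) (l 14876504))) (b (l 4) (b (l 14978296) (l 14994496)))) (b (l 4) (a (b (l 4) (l 15116152)) (l 4)))) (l 4))) (l 4)), by decide +kernel⟩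

def k2_pm_033 : ∃ t, chk3 f_pm_033 t 2 7 1 = true :=
  ⟨(b (a (a (a (b (b (a (l 14848736) (l 14916568)) (a (l 14912480) (l 14967960))) (a (l 15019808) (l 15079776))) (b (b (l 15013896) (l 15051328)) (b (l 15114088) (l 15192120)))) (b (a (b (l 15130248) (l 15148376)) (b (l 15158536) (l 15254312))) (b (a (b (l 15174456) (l 15203240)) (a (l 15249768) (l 15296256))) (a (l 15264136) (b (l 15304000) (l 15339720)))))) (a (b (a (b (l 4) (a (l 15339192) (l 15392832))) (b (l 4) (a (l 15443480) (l 4)))) (a (b (l 15373528) (b (l 15385208) (l 15404224))) (b (b (l 15476576) (l 15479744)) (l 15483248)))) (b (l 4) (a (b (a (l 15550056) (l 4)) (b (l 15579432) (l 15580328))) (b (l 4) (a (l 15617288) (l 15656016))))))) (a (a (a (b (a (l 15137656) (l 15205944)) (a (l 15217912) (l 15189768))) (b (l 15293776) (b (l 15374072) (l 15414096)))) (b (a (l 15378920) (l 15404696)) (a (b (l 15473096) (l 15522336)) (b (l 15555280) (l 15614344))))) (b (a (b (a (l 15457928) (b (l 15499368)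 (l 15525464))) (l 15571208)) (b (a (b (l 15581160) (l 15589744)) (b (l 15672688) (l 15671096))) (a (l 15631200) (b (l 15672912) (l 15688280))))) (a (a (l 15663440) (l 15724952)) (b (a (l 15723680) (l 15748264)) (l 15833896)))))), by decide +kernel⟩

def k3_pm_033 : ∃ t, chk3 f_pm_033 t 3 7 1 = true :=
  ⟨(b (a (l 4) (l 2)) (a (b (a (b (a (a (l 15709600) (l 15743984)) (l 4)) (a (b (l 15756392) (l 15753960)) (b (l 15806096) (l 15835584)))) (b (l 4) (a (b (l 4) (l 15877128)) (l 4)))) (a (b (a (l 15697776) (b (l 15830936) (l 15834320))) (a (l 15872016) (l 15884496))) (b (a (b (l 15885144) (l 15904488)) (b (l 15945976) (l 15950320))) (a (b (l 15902752) (l 15919576)) (b (l 15961008) (l 15968832)))))) (b (l 4) (a (b (l 4) (a (b (l 16013704) (l 16021168)) (b (l 4) (l 16076696)))) (l 4))))), by decide +kernel⟩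

theorem s4_pm_033 : ∃ t, chk3 f_pm_033 t 1 7 1 = true := ex3_a k2_pm_033 k3_pm_033

theorem s5_pm_033 : ∃ t, chk3 f_pm_033 t 1 3 1 = true := ex3_b k1_pm_033 s4_pm_033

theorem s6_pm_033 : ∃ t, chk3 f_pm_033 t 1 1 1 = true := ex3_b k0_pm_033 s5_pm_033

theorem c_pm_033 : CertB 0 536870912 0 1230186008 1045395039 1503240 3 eng mog cd0q0 cd3q3 pd3 true true false .pnn 0 3 3
    ndB0q0 ndB3q3 pcB3 Cut.none Ext.none :=
  certB0 (fam := true) (s1 := true) (s2 := false) (a := 0) (b := 3) (c := 3) (cn := .pnn) (n1 := ndB0q0) (n2 := ndB3q3) (pc := pcB3) (cut := Cut.none) (xt := Ext.none) (P1 := 0) (W1 := 536870912) (P2 := 0) (W2 := 1230186008) (P3 := 1045395039) (W3 := 1503240) (N0 := 3) (En := eng) (mo := mog) (C1 := cd0q0) (C2 := cd3q3) (C3 := pd3)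
    rfl s6_pm_033

noncomputable def xt_pm_101 : Ext := extD3 3 ⟨4, 1, 1, 5, 33, 5, 163, 200, 81, 200, 1, 64⟩ eng cd0q1 cd3q0 pd1 true true false .npn 1 0 1 rfl ndB0q1 ndB3q0 pcB1

noncomputable def f_pm_101 : ℕ → ℕ → ℕ → ℕ → Bool := onCell 536870912 536870912 0 536870912 1045395039 1503240
    (rowB 3 eng mog cd0q1 cd3q0 pd1 2 true true false .npn 1 0 1 (qsf 536870912 536870912 0 536870912 1) ndB0q1 ndB3q0 pcB1 Cut.none xt_pm_101)

def k0_pm_101 : ∃ t, chk3 f_pm_101 t 2 1 1 = true :=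
  ⟨(l 3), by decide +kernel⟩

def k1_pm_101 : ∃ t, chk3 f_pm_101 t 6 1 1 = true :=
  ⟨(l 3), by decide +kernel⟩

def k2_pm_101 : ∃ t, chk3 f_pm_101 t 14 2 1 = true :=
  ⟨(l 3), by decide +kernel⟩

def k3_pm_101 : ∃ t, chk3 f_pm_101 t 30 2 1 = true :=
  ⟨(l 3), by decide +kernel⟩

def k4_pm_101 : ∃ t, chk3 f_pm_101 t 62 2 1 = true :=
  ⟨(b (l 3) (l 3)), by decide +kernel⟩

def k5_pm_101 : ∃ t, chk3 f_pm_101 t 126 2 1 = true :=
  ⟨(a (b (b (l 3) (l 3)) (l 3)) (a (b (b (l 3) (l 3)) (b (l 3) (l 3))) (b (b (b (b (a (a (l 3) (a (l 3) (a (l 3) (b (a (l 3) (a (b (l 3) (l 3)) (b (b (b (b (c (l 371145562935) (l 267529477303)) (l 16775768)) (c (l 16778848) (l 16778880))) (b (l 414095258887) (l 16787816))) (b (l 7226958549800307199775359087) (l 144111855162261743))))) (b (l 7990999667796882649249841391) (l 7903957008784627699357696111)))))) (b (b (a (a (b (b (l 16772672) (l 16777272)) (b (l 16783080) (l 144006370776088687))) (l 602956761704226710120047)) (l 602328131282289695647343))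 (b (l 144053237455847535) (l 144086360225120367))) (b (a (l 144074403010183407) (l 144125118017192175)) (l 144122781472227439)))) (a (b (b (a (l 3) (a (l 3) (b (b (l 7913628415341461307299020847) (l 7932971228455405325274169391)) (l 3)))) (l 3)) (l 3)) (b (b (b (b (l 144145871235039279) (l 144169579474288687)) (l 143289076687568943)) (b (l 141413996720603183) (l 139794347096408111))) (b (b (l 580321736584651357528623) (l 576361312823684260450863)) (l 571275487836487042093615))))) (b (a (b (l 3) (l 3)) (b (l 15842856) (l 15679344))) (a (l 3) (b (b (l 15605224) (l 15572008)) (b (l 15548904) (l 15534160)))))) (a (b (b (l 3) (l 3)) (l 3)) (b (b (b (b (l 273969452711) (a (l 293833675527) (l 15527160))) (a (b (l 294907426375) (l 294907444007)) (b (l 15530056) (l 15537344)))) (b (a (b (l 295444315095) (l 295981209751)) (l 15555248)) (b (l 266990212663) (l 266453378055)))) (b (b (l 265916555111) (l 15685192)) (b (l 15743440) (l 15806624)))))) (b (a (l 3) (b (b (l 263769238903)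 (b (l 15690680) (l 15616544))) (b (b (l 15520704) (l 15445728)) (b (l 15370984) (l 262694748695))))) (b (b (b (l 265915856855) (l 3)) (l 3)) (l 3)))))), by decide +kernel⟩

def k6_pm_101 : ∃ t, chk3 f_pm_101 t 127 2 1 = true :=
  ⟨(b (b (b (b (b (b (a (a (l 598594683312355503957615) (l 16746016)) (l 16737728)) (l 143180431187968111)) (a (b (a (l 143795470617968751) (l 16732672)) (l 143519080821129327)) (b (l 16702096) (l 16683720)))) (b (b (b (a (l 143672737554513967) (l 143125112011997423)) (l 143409816796774447)) (a (l 593855021732651272429615) (l 16702424))) (b (l 591195230050484637311023) (l 582818826170987430384175)))) (a (b (b (l 15940232) (l 15747296)) (b (l 15636824) (a (l 15562736) (l 15593656)))) (b (l 15966392) (l 15675512)))) (b (a (b (b (l 15553640) (a (l 15544344) (l 15563344))) (b (a (l 15564072) (l 15579320)) (l 15602832))) (b (l 15596496) (l 15615800))) (b (a (b (l 15644568) (l 15694488)) (l 15689584)) (a (b (l 15750952) (l 15812688)) (l 15796304)))))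 (b (b (b (b (l 15758360) (l 15690528)) (a (b (l 15673336) (l 15599240)) (l 15610168))) (b (a (b (l 15524520) (l 15428776)) (l 15461368)) (a (b (l 15354256) (l 15280200)) (l 15313128)))) (b (b (a (b (l 15227728) (l 15155016)) (l 15167072)) (a (b (l 15083136) (l 15012192)) (l 15024152))) (b (a (l 14886696) (l 14885096)) (l 14750760))))), by decide +kernel⟩

def k7_pm_101 : ∃ t, chk3 f_pm_101 t 7 3 1 = true :=
  ⟨(a (l 3) (a (l 3) (a (l 3) (a (b (b (l 3) (l 3)) (l 3)) (b (b (b (b (l 14610360) (l 14527912)) (b (l 14388552) (l 14276592))) (b (l 14100560) (b (l 13983256) (l 13900880)))) (b (b (b (l 13826776) (l 164981133495)) (b (a (l 13712224) (l 13697096)) (a (l 202025017527) (l 13649848)))) (a (a (b (l 3) (l 3)) (b (b (l 13622624) (b (l 13600344) (l 13588592))) (b (b (l 13579344) (l 13572632)) (b (l 178402517783) (b (l 13567048) (l 13566920)))))) (b (b (l 13612032) (b (l 13589984) (l 13578384))) (b (b (l 13569280) (l 13562704)) (b (l 13558688) (l 13557256))))))))))),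 by decide +kernel⟩

theorem s8_pm_101 : ∃ t, chk3 f_pm_101 t 63 2 1 = true := ex3_a k5_pm_101 k6_pm_101

theorem s9_pm_101 : ∃ t, chk3 f_pm_101 t 31 2 1 = true := ex3_a k4_pm_101 s8_pm_101

theorem s10_pm_101 : ∃ t, chk3 f_pm_101 t 15 2 1 = true := ex3_a k3_pm_101 s9_pm_101

theorem s11_pm_101 : ∃ t, chk3 f_pm_101 t 7 2 1 = true := ex3_a k2_pm_101 s10_pm_101

theorem s12_pm_101 : ∃ t, chk3 f_pm_101 t 7 1 1 = true := ex3_b s11_pm_101 k7_pm_101

theorem s13_pm_101 : ∃ t, chk3 f_pm_101 t 3 1 1 = true := ex3_a k1_pm_101 s12_pm_101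

theorem s14_pm_101 : ∃ t, chk3 f_pm_101 t 1 1 1 = true := ex3_a k0_pm_101 s13_pm_101

theorem c_pm_101 : CertB 536870912 536870912 0 536870912 1045395039 1503240 3 eng mog cd0q1 cd3q0 pd1 true true false .npn 1 0 1
    ndB0q1 ndB3q0 pcB1 Cut.none xt_pm_101 :=
  certB2 (fam := true) (s1 := true) (s2 := false) (a := 1) (b := 0) (c := 1) (cn := .npn) (n1 := ndB0q1) (n2 := ndB3q0) (pc := pcB1) (cut := Cut.none) (xt := xt_pm_101) (P1 := 536870912) (W1 := 536870912) (P2 := 0) (W2 := 536870912) (P3 := 1045395039) (W3 := 1503240) (N0 := 3) (En := eng) (mo := mog) (C1 := cd0q1) (C2 := cd3q0) (C3 := pd1)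
    rfl (fun _ => rfl) s14_pm_101

noncomputable def xt_pm_102 : Ext := extD3 3 ⟨4, 1, 1, 5, 33, 5, 163, 200, 81, 200, 1, 64⟩ eng cd0q1 cd3q0 pd2 true true false .npp 1 0 2 rfl ndB0q1 ndB3q0 pcB2

noncomputable def f_pm_102 : ℕ → ℕ → ℕ → ℕ → Bool := onCell 536870912 536870912 1073741824 536870912 1045395039 1503240
    (rowB 3 eng mog cd0q1 cd3q0 pd2 1 true true false .npp 1 0 2 (qsf 536870912 536870912 0 536870912 2) ndB0q1 ndB3q0 pcB2 Cut.none xt_pm_102)

def k0_pm_102 : ∃ t, chk3 f_pm_102 t 4 8 1 = true :=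
  ⟨(a (b (a (b (a (b (a (b (l 13545072) (l 13532976)) (b (l 13546440) (l 13533336))) (a (b (l 13521368) (l 2)) (b (l 13520664) (l 13508472)))) (b (a (b (l 13550408) (l 13536304)) (b (l 13556944) (l 13541848))) (a (l 13515896) (l 13519856)))) (a (b (a (l 2) (l 13491192)) (l 2)) (b (a (l 13490288) (l 13491992)) (a (l 13466808) (l 13466112))))) (b (a (b (a (l 13557984) (l 13569112)) (a (l 13526384) (l 13535448))) (b (a (l 13582728) (l 13598816)) (a (l 13547016) (l 13561064)))) (a (b (a (l 13496256) (l 13503080)) (a (l 13467992) (l 13472424))) (b (a (l 13512408) (l 13524232)) (a (l 13479384) (l 13488840)))))) (a (b (a (l 2) (b (a (l 2) (l 13442464)) (l 2))) (l 2)) (b (a (b (a (l 13441848) (l 13443792)) (a (l 13418024) (l 13417400))) (b (a (l 13448272) (l 13455256)) (a (l 13419320) (l 13423744)))) (a (b (a (l 2) (l 13393408)) (l 2)) (b (a (l 13392680) (l 13394464)) (a (l 13368408) (l 13367416))))))) (b (a (b (a (b (a (l 13617328) (l 13638240)) (a (l 13577552) (l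 13596464))) (b (l 13674064) (l 13629312))) (a (b (l 13546608) (l 13507688)) (b (l 13584808) (l 13541224)))) (b (a (b (l 13729872) (l 13681216)) (b (l 13794664) (l 13742184))) (a (b (l 13632400) (l 13584200)) (b (l 13689120) (l 13636352))))) (b (a (a (b (l 13470408) (a (l 13430656) (l 13440024))) (b (l 13499048) (l 13458592))) (a (b (l 13537176) (l 13491608)) (b (l 13584520) (l 13533832)))) (a (a (b (a (l 13398728) (l 13405440)) (l 13370584)) (b (a (l 13414536) (l 13425976)) (l 13383200))) (a (b (l 13447464) (l 13405256)) (b (l 13484144) (l 13436504))))))), by decide +kernel⟩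

def k1_pm_102 : ∃ t, chk3 f_pm_102 t 5 8 1 = true :=
  ⟨(a (b (b (a (b (l 13887112) (l 13808080)) (a (l 13987632) (l 14083608))) (a (a (l 13663152) (l 13756032)) (b (l 13934304) (l 13866040)))) (a (b (a (b (l 13640808) (l 13584896)) (b (l 13705592) (l 13644360))) (a (l 13502976) (l 13554456))) (b (b (l 13797240) (a (l 13711968) (l 13787520))) (l 13647288)))) (b (b (a (a (l 14207960) (l 14318392)) (a (a (l 14384616) (l 14465728)) (b (l 14597776) (l 14518264)))) (a (a (l 14061984) (l 14164272)) (b (l 14374272) (l 14330552)))) (a (b (b (l 13995064) (l 13915016)) (l 13798168)) (b (l 14196304) (l 13977648))))), by decide +kernel⟩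

def k2_pm_102 : ∃ t, chk3 f_pm_102 t 2 9 1 = true :=
  ⟨(a (a (b (a (l 2) (b (a (l 2) (b (l 13344504) (l 2))) (l 2))) (l 2)) (a (b (b (a (b (l 13341880) (l 13315840)) (b (l 13348960) (l 13317312))) (a (l 47875309095) (l 13274888))) (b (a (l 2) (l 13227720)) (l 2))) (b (b (a (l 13409560) (l 13369624)) (a (l 13277328) (l 13289024))) (b (a (l 13218584) (l 13218704)) (a (l 13170784) (l 13159072)))))) (a (b (a (b (a (l 13401568) (l 13442192)) (a (l 13309712) (l 13339128))) (a (l 13412272) (l 13484864))) (a (b (a (l 13227840) (l 13245728)) (a (l 13156368) (l 13162424))) (b (a (l 13272096) (l 13306640)) (a (l 13176960) (l 13199688))))) (b (a (a (l 13544288) (l 13611184)) (b (l 13807200) (l 13643624))) (a (a (l 13267864) (l 13332984)) (l 13412912))))), by decide +kernel⟩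

def k3_pm_102 : ∃ t, chk3 f_pm_102 t 2 5 1 = true :=
  ⟨(a (b (a (l 2) (b (a (l 2) (b (a (l 2) (l 13110496)) (l 2))) (l 2))) (l 2)) (b (a (b (a (b (a (l 13095688) (l 13089624)) (l 13056968)) (b (l 13096408) (l 13015888))) (a (b (l 12991752) (l 2)) (b (l 12946264) (l 12887960)))) (b (a (l 13058792) (l 13133960)) (a (b (l 12932680) (l 12848264)) (l 12870536)))) (a (b (a (l 2) (b (l 12841376) (l 2))) (l 2)) (b (a (b (a (l 12788728) (l 12763032)) (l 104782732695)) (b (a (l 12747528) (l 12741928)) (l 12670184))) (a (l 12666256) (l 12582072)))))), by decide +kernel⟩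

def k4_pm_102 : ∃ t, chk3 f_pm_102 t 2 3 1 = true :=
  ⟨(b (a (l 2) (b (a (l 2) (a (l 2) (l 153100270167))) (l 2))) (l 2)), by decide +kernel⟩

def k5_pm_102 : ∃ t, chk3 f_pm_102 t 6 2 1 = true :=
  ⟨(b (b (a (b (b (a (a (b (l 14728200) (l 14645896)) (b (l 14863856) (l 14778952))) (a (b (l 15025208) (l 14916920)) (b (b (l 15169616) (l 15127256)) (l 15059288)))) (a (b (a (l 14558432) (l 14688224)) (a (l 14466096) (l 14590928))) (b (a (l 14822736) (l 14961824)) (a (l 14720408) (l 14854272))))) (a (b (a (l 14320288) (l 14438048)) (l 14182664)) (b (a (l 14560928) (l 14688448)) (l 14409808)))) (b (b (a (b (a (b (l 15317968) (l 15274936)) (b (l 15468920) (l 15425496))) (a (l 15205480) (l 15354848))) (b (a (b (l 15621240) (l 15577960)) (l 15647192)) (a (l 15506608) (l 15638120)))) (a (b (a (l 15104520) (l 15229208)) (a (l 14992000) (l 15133064))) (b (a (l 15398056) (l 15547312)) (l 15139736)))) (a (b (a (l 14820088) (l 14955296)) (l 14655280)) (b (a (l 15093496)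 (l 15234072)) (l 14914872))))) (a (b (a (b (l 13991888) (l 13806920)) (b (l 14199256) (l 13993336))) (a (l 13542336) (l 13695304))) (b (a (b (l 14425616) (l 14199232)) (b (l 14666848) (l 14420568))) (a (l 13868272) (l 14057264))))) (b (a (b (a (l 13215016) (l 13319816)) (a (a (l 12891344) (l 12937080)) (l 12991944))) (b (a (l 13444704) (b (l 13700992) (l 13491256))) (a (l 13089752) (l 13218328)))) (a (b (a (l 12703000) (l 12732840)) (a (l 12532032) (l 12514112))) (b (a (l 12792272) (l 12878824)) (l 12542648))))), by decide +kernel⟩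

def k6_pm_102 : ∃ t, chk3 f_pm_102 t 14 4 1 = true :=
  ⟨(b (b (b (a (a (b (l 15789424) (b (l 15835712) (l 15786728))) (b (b (l 15813704) (l 15895104)) (l 15848408))) (b (a (b (l 15752568) (l 15844784)) (b (l 15747096) (l 15847040))) (a (b (l 15922512) (l 15980984)) (b (l 15932472) (l 15995216))))) (a (b (a (l 15696824) (l 15845368)) (l 15538544)) (a (l 15928536) (l 16066744)))) (b (a (a (l 15376392) (l 15519808)) (a (l 15663704) (l 15807216))) (a (l 15183920) (l 15392800)))) (a (b (b (l 14918368) (l 14652800)) (l 14257792)) (b (b (l 15173360) (l 14889072)) (b (l 14604248) (l 14327560))))), by decide +kernel⟩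

def k7_pm_102 : ∃ t, chk3 f_pm_102 t 15 4 1 = true :=
  ⟨(b (a (b (b (b (a (l 15888824) (l 16147488)) (a (l 16050408) (l 16291208))) (a (l 16172632) (l 16299296))) (b (a (l 15951496) (l 16096208)) (l 15668016))) (b (a (b (b (a (b (a (l 594245283771487612576303) (l 595629656763142746234927)) (l 592724580423734305056815)) (b (a (l 593017713305081219735663) (b (a (l 16764672) (l 16723880)) (l 16770544))) (a (l 16731400) (l 16763744)))) (a (l 16498976) (b (l 592062516214673073466991) (l 593597342888309826793071)))) (a (l 16493032) (l 16459584))) (b (a (b (b (a (b (a (l 143070480145694831) (l 16740208)) (a (l 16720688) (l 16731552))) (l 16747192)) (a (b (a (l 16757016) (l 16735832)) (l 16758488)) (b (a (l 16725200) (l 16729488)) (a (l 16727456) (l 16717040))))) (b (a (l 16756368) (a (l 16731440) (b (l 16711728) (l 16712952)))) (a (l 16741088) (l 16716024)))) (b (b (l 16734216) (a (l 16736336) (l 16756480))) (b (a (a (b (l 16701176) (l 16691680)) (b (l 16705320)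 (l 16681512))) (l 16705440)) (a (b (a (l 16692624) (l 16671752)) (l 16681352)) (a (b (l 16661992) (l 16651968)) (b (l 16666952) (l 16642616))))))) (a (b (b (a (l 16687736) (l 16698696)) (l 592358528919488834301551)) (l 16552056)) (b (a (a (l 16649800) (l 16639800)) (b (b (a (l 16652400) (l 16632328)) (l 16641008)) (l 16633072))) (a (l 141771063260135535) (b (l 16613704) (l 16578256))))))) (a (a (l 15904536) (l 15865440)) (b (a (l 16327232) (l 16384624)) (l 15962160))))) (a (b (b (l 15432096) (l 15129544)) (b (l 14826568) (l 14560632))) (b (a (a (l 15434464) (l 15492696)) (b (l 15728008) (l 15402984))) (a (b (l 15004696) (l 14753048)) (l 14908440))))), by decide +kernel⟩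

def k8_pm_102 : ∃ t, chk3 f_pm_102 t 7 5 1 = true :=
  ⟨(a (b (a (b (l 13756832) (l 13371720)) (b (l 13977552) (l 13543840))) (a (l 12598496) (b (l 13120656) (l 12715504)))) (a (b (b (l 14206504) (l 13737712)) (b (l 13274728) (l 12825232))) (b (a (b (l 14388024) (l 13894960)) (b (l 14493712) (l 13985320))) (a (b (l 13403472) (l 12922016)) (b (l 13475624) (l 12973776)))))), by decide +kernel⟩

def k9_pm_102 : ∃ t, chk3 f_pm_102 t 3 3 1 = true :=
  ⟨(a (b (a (b (a (l 12352512) (l 12258304)) (a (l 2) (l 12067056))) (b (a (l 12193960) (l 12157296)) (a (l 11892896) (l 11745792)))) (a (l 2) (b (a (l 2) (l 11516224)) (l 2)))) (a (b (b (a (l 12146032) (l 12156336)) (a (l 11623920) (l 11524320))) (b (a (l 11275888) (l 11058424)) (a (l 2) (l 10790952)))) (a (b (b (l 12192720) (l 11453088)) (b (l 10872232) (l 10485944))) (b (b (a (l 12236320) (l 12254664)) (a (l 11419784) (l 11390592))) (b (a (l 10758184) (l 10680928)) (a (l 10290400) (l 10167136))))))), by decide +kernel⟩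

theorem s10_pm_102 : ∃ t, chk3 f_pm_102 t 7 4 1 = true := ex3_a k6_pm_102 k7_pm_102

theorem s11_pm_102 : ∃ t, chk3 f_pm_102 t 7 2 1 = true := ex3_b s10_pm_102 k8_pm_102

theorem s12_pm_102 : ∃ t, chk3 f_pm_102 t 3 2 1 = true := ex3_a k5_pm_102 s11_pm_102

theorem s13_pm_102 : ∃ t, chk3 f_pm_102 t 3 1 1 = true := ex3_b s12_pm_102 k9_pm_102

theorem s14_pm_102 : ∃ t, chk3 f_pm_102 t 2 8 1 = true := ex3_a k0_pm_102 k1_pm_102

theorem s15_pm_102 : ∃ t, chk3 f_pm_102 t 2 4 1 = true := ex3_b s14_pm_102 k2_pm_102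

theorem s16_pm_102 : ∃ t, chk3 f_pm_102 t 2 2 1 = true := ex3_b s15_pm_102 k3_pm_102

theorem s17_pm_102 : ∃ t, chk3 f_pm_102 t 2 1 1 = true := ex3_b s16_pm_102 k4_pm_102

theorem s18_pm_102 : ∃ t, chk3 f_pm_102 t 1 1 1 = true := ex3_a s17_pm_102 s13_pm_102

theorem c_pm_102 : CertB 536870912 536870912 0 536870912 1045395039 1503240 3 eng mog cd0q1 cd3q0 pd2 true true false .npp 1 0 2
    ndB0q1 ndB3q0 pcB2 Cut.none xt_pm_102 :=
  certB1 (fam := true) (s1 := true) (s2 := false) (a := 1) (b := 0) (c := 2) (cn := .npp) (n1 := ndB0q1) (n2 := ndB3q0) (pc := pcB2) (cut := Cut.none) (xt := xt_pm_102) (P1 := 536870912) (W1 := 536870912) (P2 := 0) (W2 := 536870912) (P3 := 1045395039) (W3 := 1503240) (N0 := 3) (En := eng) (mo := mog) (C1 := cd0q1) (C2 := cd3q0) (C3 := pd2)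
    rfl (fun _ => rfl) s18_pm_102

noncomputable def f_pm_112 : ℕ → ℕ → ℕ → ℕ → Bool := onCell 536870912 536870912 1073741824 536870912 1045395039 1503240
    (rowB 3 eng mog cd0q1 cd3q1 pd2 1 true true false .dn 1 1 2 (qsf 536870912 536870912 536870912 536870912 2) ndB0q1 ndB3q1 pcB2 Cut.none Ext.none)

def k0_pm_112 : ∃ t, chk3 f_pm_112 t 1 1 1 = true :=
  ⟨(a (b (b (b (a (b (a (a (l 16066952) (l 16034064)) (l 1)) (a (a (l 15998464) (l 15970440)) (a (l 15938152) (l 1)))) (l 1)) (a (a (b (a (l 15925304) (l 15898800)) (l 15839448)) (a (l 15830144) (l 15791344))) (a (l 161629184327) (l 1)))) (a (b (a (a (l 15744680) (l 15717312)) (a (l 15681944) (l 15637728))) (a (a (l 15617272) (l 15586448)) (b (l 15553160) (l 15487848)))) (b (a (a (l 15583784) (l 15519192)) (a (l 15442976) (l 1))) (a (b (l 15406184) (l 15292112)) (b (l 15218504) (l 15186720)))))) (b (a (b (a (b (l 15526072) (a (l 15501496) (l 15458024))) (b (l 15428608) (l 15373600))) (a (a (l 15435872) (l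 15387928)) (l 15299416))) (b (a (l 15260232) (l 15061824)) (a (l 15146232) (l 14947392)))) (a (a (b (l 15259368) (l 14956096)) (b (l 15126832) (l 14847320))) (a (b (l 15001688) (l 14766328)) (b (l 14831192) (l 14629192)))))) (b (b (l 1) (a (b (l 1) (a (l 14832240) (l 1))) (l 1))) (b (a (b (a (l 14862560) (l 14590704)) (a (l 14696376) (l 14384512))) (a (b (l 1) (l 13989744)) (l 1))) (a (a (b (l 14542848) (l 14419240)) (b (l 14184160) (l 14008176))) (a (b (l 13734384) (l 13500576)) (a (l 13199608) (b (l 1) (l 12711464)))))))), by decide +kernel⟩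

theorem c_pm_112 : CertB 536870912 536870912 536870912 536870912 1045395039 1503240 3 eng mog cd0q1 cd3q1 pd2 true true false .dn 1 1 2
    ndB0q1 ndB3q1 pcB2 Cut.none Ext.none :=
  certB1 (fam := true) (s1 := true) (s2 := false) (a := 1) (b := 1) (c := 2) (cn := .dn) (n1 := ndB0q1) (n2 := ndB3q1) (pc := pcB2) (cut := Cut.none) (xt := Ext.none) (P1 := 536870912) (W1 := 536870912) (P2 := 536870912) (W2 := 536870912) (P3 := 1045395039) (W3 := 1503240) (N0 := 3) (En := eng) (mo := mog) (C1 := cd0q1) (C2 := cd3q1) (C3 := pd2)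
    rfl (fun _ => rfl) k0_pm_112

noncomputable def f_pm_113 : ℕ → ℕ → ℕ → ℕ → Bool := onCell 536870912 536870912 1610612736 536870912 1045395039 1503240
    (rowB 3 eng mog cd0q1 cd3q1 pd3 1 true true false .nn 1 1 3 (qsf 536870912 536870912 536870912 536870912 3) ndB0q1 ndB3q1 pcB3 Cut.none Ext.none)

def k0_pm_113 : ∃ t, chk3 f_pm_113 t 1 1 1 = true :=
  ⟨(a (b (b (a (a (b (l 14101752) (l 13727160)) (b (l 14271416) (l 13939104))) (a (b (l 14410160) (l 14113632)) (l 14399248))) (a (b (a (l 2) (l 13531136)) (l 2)) (b (a (l 13747584) (l 13936680)) (a (l 110688610231) (b (l 13640792) (l 13428464)))))) (a (l 2) (b (b (a (l 2) (l 330268467495)) (l 2)) (l 2)))) (b (a (b (b (l 14657944) (a (l 14382600) (l 14483400))) (b (a (l 14105736) (l 14256992)) (a (l 13777984) (l 13992584)))) (a (b (b (l 14703576) (l 14539784)) (b (l 14367504) (l 14170888))) (b (a (l 14627880) (b (l 14657696) (l 14548344))) (a (b (l 14433704) (l 14295112)) (b (l 14451160) (l 14356208))))))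 (b (a (b (a (b (l 13495456) (l 13303624)) (l 13483392)) (a (l 4) (l 4))) (a (b (l 4) (l 4)) (l 4))) (l 4)))), by decide +kernel⟩

theorem c_pm_113 : CertB 536870912 536870912 536870912 536870912 1045395039 1503240 3 eng mog cd0q1 cd3q1 pd3 true true false .nn 1 1 3
    ndB0q1 ndB3q1 pcB3 Cut.none Ext.none :=
  certB1 (fam := true) (s1 := true) (s2 := false) (a := 1) (b := 1) (c := 3) (cn := .nn) (n1 := ndB0q1) (n2 := ndB3q1) (pc := pcB3) (cut := Cut.none) (xt := Ext.none) (P1 := 536870912) (W1 := 536870912) (P2 := 536870912) (W2 := 536870912) (P3 := 1045395039) (W3 := 1503240) (N0 := 3) (En := eng) (mo := mog) (C1 := cd0q1) (C2 := cd3q1) (C3 := pd3)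
    rfl (fun _ => rfl) k0_pm_113

noncomputable def xt_pm_123 : Ext := extD3 3 ⟨4, 1, 1, 5, 33, 5, 163, 200, 81, 200, 1, 64⟩ eng cd0q1 cd3q2 pd3 true true false .npn 1 2 3 rfl ndB0q1 ndB3q2 pcB3

noncomputable def f_pm_123 : ℕ → ℕ → ℕ → ℕ → Bool := onCell 1610612736 536870912 1073741824 536870912 1045395039 1503240
    (rowB 3 eng mog cd0q1 cd3q2 pd3 2 true true false .npn 1 2 3 (qsf 536870912 536870912 1073741824 536870912 3) ndB0q1 ndB3q2 pcB3 Cut.none xt_pm_123)

def k0_pm_123 : ∃ t, chk3 f_pm_123 t 2 1 1 = true :=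
  ⟨(b (a (b (b (a (b (a (l 16203496) (l 16217752)) (l 16237824)) (b (a (l 16213880) (l 16143328)) (l 16095752))) (a (a (l 1) (l 16062664)) (b (l 16002848) (a (l 15935328) (l 15883640))))) (b (a (l 1) (a (l 1) (l 15889328))) (l 1))) (b (b (a (b (a (l 16072856) (l 16002520)) (l 15903696)) (a (b (l 15932664) (l 15880160)) (b (l 15864048) (l 15830112)))) (a (b (l 15814656) (a (l 15848312) (l 15822832))) (b (a (l 15808216) (l 15782720)) (l 15803048)))) (a (b (l 15853744) (l 15770024)) (b (l 15824400) (l 15787496))))) (a (l 1) (b (a (l 1) (b (l 15905408) (l 1))) (l 1)))), by decide +kernel⟩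

def k1_pm_123 : ∃ t, chk3 f_pm_123 t 6 2 1 = true :=
  ⟨(b (a (b (a (b (l 15798128) (l 15787984)) (b (l 15716544) (l 15756800))) (b (a (l 15771080) (l 15771144)) (l 15793824))) (b (b (a (b (l 15661528) (l 15705504)) (b (l 15616168) (l 15684816))) (a (l 15738672) (b (l 15731840) (l 15764416)))) (b (a (l 15783320) (l 15810656)) (l 15832784)))) (a (b (l 15798168) (l 15901992)) (b (b (l 15891648) (l 15934376)) (l 16006392)))), by decide +kernel⟩

def k2_pm_123 : ∃ t, chk3 f_pm_123 t 14 4 1 = true :=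
  ⟨(b (a (b (b (l 15605784) (l 15699544)) (b (l 15766712) (l 15818272))) (b (b (a (l 15642872) (l 15709168)) (l 15781048)) (b (l 15862528) (l 15921200)))) (a (b (l 15868528) (l 15935728)) (b (l 15976456) (l 16061392)))), by decide +kernel⟩

def k3_pm_123 : ∃ t, chk3 f_pm_123 t 15 4 1 = true :=
  ⟨(b (a (b (b (a (b (l 15817400) (l 15858216)) (b (a (l 16007304) (l 16205304)) (l 16069192))) (a (l 15925912) (l 16094192))) (b (a (l 16003616) (l 16148960)) (l 16110224))) (b (a (a (a (b (b (l 16412344) (l 16278024)) (l 16242936)) (b (l 16460320) (l 16314464))) (b (b (b (l 16767776) (l 16793808)) (l 16576288)) (a (l 16393144) (l 16477632)))) (a (a (b (b (l 16720624) (l 16789496)) (l 16567744)) (b (b (b (l 16711296) (l 16768296)) (l 16785032)) (l 16657952))) (a (b (b (l 142747292326412367) (l 16727864)) (l 16740352)) (a (b (b (l 16690864) (l 16749880)) (l 16770376)) (a (b (b (l 16698328) (l 16737680)) (l 16771888)) (b (a (b (l 142634729854140495) (l 16731416)) (b (a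 (l 142727088836165711) (a (l 16698536) (l 4))) (a (l 16706248) (a (l 16708320) (a (l 16732872) (b (l 4) (l 142900055822794831))))))) (a (l 16772984) (a (l 16773664) (b (a (l 16765792) (a (l 16765264) (l 142032197466226767))) (a (l 16760048) (a (l 16760232) (a (l 16760712) (l 142595697248206863))))))))))))) (a (a (b (a (l 16269712) (l 16325424)) (l 16313832)) (a (b (l 16385912) (l 16394144)) (b (l 16451352) (l 16457424)))) (a (a (b (l 16519576) (l 16524416)) (l 16428144)) (a (b (l 16680744) (l 16656528)) (a (l 16645080) (a (b (l 16715648) (l 16659040)) (a (b (l 16712896) (l 16667144)) (a (l 16654760) (a (l 16680760) (a (l 16706000) (b (l 16729944) (l 4))))))))))))) (a (b (l 16176392) (l 16246096)) (b (a (l 16411344) (a (l 16565248) (a (b (l 16598176) (l 16542696)) (a (l 16583768) (a (l 16599744) (a (l 16611608) (l 4))))))) (a (l 16434944) (a (l 16442136) (a (l 16488168) (a (l 16508064) (l 4)))))))), by decide +kernel⟩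

def k4_pm_123 : ∃ t, chk3 f_pm_123 t 7 5 1 = true :=
  ⟨(b (a (a (l 16031464) (l 16153896)) (a (l 16303088) (a (a (l 16331728) (l 16334192)) (a (b (l 16375424) (l 16329480)) (a (l 16395464) (l 4)))))) (a (l 16178504) (a (a (l 16211936) (l 16197672)) (a (a (l 16204880) (l 16230168)) (a (l 16266488) (l 4)))))), by decide +kernel⟩

def k5_pm_123 : ∃ t, chk3 f_pm_123 t 3 3 1 = true :=
  ⟨(a (b (a (b (l 15963464) (l 16002744)) (b (l 16075104) (l 16116824))) (a (l 1) (b (a (l 1) (l 15984288)) (l 1)))) (a (b (a (b (l 16161752) (l 16048384)) (b (l 16120752) (l 16027472))) (a (b (l 15954688) (l 1)) (b (l 15972000) (l 15905304)))) (a (b (b (a (l 16097696) (l 16117552)) (l 16051640)) (b (l 15996768) (l 4))) (a (b (b (l 16151008) (l 4)) (l 4)) (l 4))))), by decide +kernel⟩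

theorem s6_pm_123 : ∃ t, chk3 f_pm_123 t 7 4 1 = true := ex3_a k2_pm_123 k3_pm_123

theorem s7_pm_123 : ∃ t, chk3 f_pm_123 t 7 2 1 = true := ex3_b s6_pm_123 k4_pm_123

theorem s8_pm_123 : ∃ t, chk3 f_pm_123 t 3 2 1 = true := ex3_a k1_pm_123 s7_pm_123

theorem s9_pm_123 : ∃ t, chk3 f_pm_123 t 3 1 1 = true := ex3_b s8_pm_123 k5_pm_123

theorem s10_pm_123 : ∃ t, chk3 f_pm_123 t 1 1 1 = true := ex3_a k0_pm_123 s9_pm_123

theorem c_pm_123 : CertB 536870912 536870912 1073741824 536870912 1045395039 1503240 3 eng mog cd0q1 cd3q2 pd3 true true false .npn 1 2 3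
    ndB0q1 ndB3q2 pcB3 Cut.none xt_pm_123 :=
  certB2 (fam := true) (s1 := true) (s2 := false) (a := 1) (b := 2) (c := 3) (cn := .npn) (n1 := ndB0q1) (n2 := ndB3q2) (pc := pcB3) (cut := Cut.none) (xt := xt_pm_123) (P1 := 536870912) (W1 := 536870912) (P2 := 1073741824) (W2 := 536870912) (P3 := 1045395039) (W3 := 1503240) (N0 := 3) (En := eng) (mo := mog) (C1 := cd0q1) (C2 := cd3q2) (C3 := pd3)
    rfl (fun _ => rfl) s10_pm_123

noncomputable def f_pm_133 : ℕ → ℕ → ℕ → ℕ → Bool := onCell 536870912 536870912 0 1230186008 1045395039 1503240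
    (rowB 3 eng mog cd0q1 cd3q3 pd3 0 true true false .dn 1 3 3 (qsf 536870912 536870912 0 1230186008 3) ndB0q1 ndB3q3 pcB3 Cut.none Ext.none)

def k0_pm_133 : ∃ t, chk3 f_pm_133 t 1 1 1 = true :=
  ⟨(b (l 2) (b (l 2) (a (l 4) (l 2)))), by decide +kernel⟩

theorem c_pm_133 : CertB 536870912 536870912 0 1230186008 1045395039 1503240 3 eng mog cd0q1 cd3q3 pd3 true true false .dn 1 3 3
    ndB0q1 ndB3q3 pcB3 Cut.none Ext.none :=
  certB0 (fam := true) (s1 := true) (s2 := false) (a := 1) (b := 3) (c := 3) (cn := .dn) (n1 := ndB0q1) (n2 := ndB3q3) (pc := pcB3) (cut := Cut.none) (xt := Ext.none) (P1 := 536870912) (W1 := 536870912) (P2 := 0) (W2 := 1230186008) (P3 := 1045395039) (W3 := 1503240) (N0 := 3) (En := eng) (mo := mog) (C1 := cd0q1) (C2 := cd3q3) (C3 := pd3)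
    rfl k0_pm_133

noncomputable def f_pm_202 : ℕ → ℕ → ℕ → ℕ → Bool := onCell 0 536870912 0 536870912 1045395039 1503240
    (rowB 3 eng mog cd0q2 cd3q0 pd2 0 true true false .pp 2 0 2 (qsf 0 536870912 0 536870912 2) ndB0q2 ndB3q0 pcB2 Cut.none Ext.none)

def k0_pm_202 : ∃ t, chk3 f_pm_202 t 2 1 1 = true :=
  ⟨(b (a (b (b (b (b (l 16134776) (b (b (l 16106144) (l 16083280)) (l 16035408))) (a (l 15672968) (l 15741840))) (b (a (b (l 15251032) (a (l 15034608) (l 14970344))) (l 15169912)) (a (b (l 14836256) (l 14748264)) (a (b (l 14720968) (l 14498776)) (l 14623320))))) (b (b (a (l 14681376) (a (l 14358680) (b (l 14254360) (l 14113952)))) (a (l 14707632) (l 14194624))) (b (a (l 14848096) (l 14261568)) (a (b (l 14996656) (l 15053488)) (l 14435592))))) (b (b (b (b (a (l 16307696) (l 16371064)) (b (a (l 16179048) (b (l 16262480) (l 16251688))) (a (l 16134416) (l 16220640)))) (a (l 15835496) (l 15728136))) (b (a (l 15284872) (l 15406760)) (a (l 14727128) (l 14863848))))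 (b (a (b (b (l 14311152) (l 14062936)) (a (b (l 13850952) (l 13800376)) (b (l 13814912) (l 13611544)))) (b (l 14321280) (l 13789464))) (a (b (b (l 13653216) (l 13670984)) (l 13750328)) (b (a (b (l 13394472) (l 13238912)) (l 13310552)) (a (l 13228504) (b (l 13002640) (l 12900104)))))))) (b (b (a (b (a (l 15029168) (a (l 14829432) (l 14515552))) (a (l 4) (a (l 14761536) (l 14716472)))) (a (b (l 13945184) (l 14219352)) (b (l 13155416) (l 13360008)))) (a (l 4) (a (b (a (l 14458296) (l 14317216)) (l 14213992)) (b (l 13648984) (a (l 14121704) (l 13752136)))))) (b (a (l 2) (a (l 2) (b (a (l 2) (l 13923072)) (l 2)))) (l 2)))), by decide +kernel⟩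

def k1_pm_202 : ∃ t, chk3 f_pm_202 t 3 2 1 = true :=
  ⟨(a (b (b (b (b (a (a (l 16410544) (l 16429912)) (a (l 16439496) (l 16436096))) (b (a (b (l 16325176) (l 16320504)) (b (l 16355768) (l 16358224))) (a (l 16297728) (l 16345008)))) (a (b (l 16155312) (l 15905888)) (b (l 16214800) (l 15976664)))) (a (b (l 15519376) (l 14989896)) (b (b (l 15729880) (l 15476400)) (l 15087656)))) (b (a (b (l 14455640) (l 13927208)) (b (l 14560944) (l 14034744))) (a (b (l 13413880) (l 12936928)) (b (l 13518568) (l 13020808))))) (b (a (b (b (b (a (a (l 16385320) (b (l 16499256) (l 16386432))) (a (l 16393136) (l 16434024))) (b (a (b (l 16341024) (l 16350232)) (b (a (l 16355080) (l 16418800)) (l 16334584))) (a (l 16345152) (a (l 16334520) (l 16363696))))) (a (l 15965120) (b (a (l 16215848) (l 16214456)) (l 15988984)))) (b (a (l 15634632) (l 15635376)) (a (l 15128944) (l 15137192)))) (b (b (b (a (b (a (l 16658184) (l 16677144)) (l 16496512)) (a (b (a (l 16697176) (l 16680968)) (l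 16602752)) (b (a (b (l 16687152) (l 16754016)) (b (b (l 16703216) (l 16695992)) (l 16721456))) (l 16609480)))) (a (b (b (l 16486952) (l 16496136)) (l 16396824)) (b (a (b (l 16576272) (l 16568320)) (b (l 16606816) (l 16601568))) (a (l 16537016) (l 16573848))))) (a (b (a (l 16200408) (l 16300688)) (a (l 15975392) (l 15990352))) (a (b (l 16353472) (l 16034760)) (b (l 16394624) (l 16079696))))) (a (b (l 15446464) (l 15128184)) (b (a (b (l 15726920) (l 15464360)) (b (l 15756208) (l 15450912))) (a (l 15100344) (l 15067656)))))) (a (b (b (a (l 14608352) (l 14620936)) (l 14092752)) (b (l 13573872) (l 13068512))) (a (b (b (l 14616816) (l 14096184)) (b (l 13576592) (l 13067056))) (b (b (l 14473424) (l 14060432)) (b (l 13541144) (l 13029736))))))), by decide +kernel⟩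

def k2_pm_202 : ∃ t, chk3 f_pm_202 t 3 3 1 = true :=
  ⟨(a (b (b (a (b (a (b (l 12633272) (l 12581152)) (l 12512408)) (a (l 12688000) (b (l 12277504) (l 12267080)))) (b (l 12549008) (a (l 12128480) (l 12120752)))) (a (b (l 12599448) (l 12955064)) (b (a (b (l 11926240) (l 11945200)) (l 11750712)) (a (l 12122368) (a (l 11700480) (l 11421504)))))) (b (a (b (l 13318616) (l 2)) (b (a (l 12433496) (l 11814760)) (l 12490272))) (l 2))) (b (a (b (b (l 12584392) (l 12128496)) (b (l 11707176) (a (l 11373072) (l 11314264)))) (a (b (l 12339912) (l 11472216)) (b (b (l 12534488) (l 12062792)) (l 11415024)))) (a (b (b (a (b (l 11213960) (l 11251792)) (l 10998120)) (a (l 11485480) (a (l 10978840) (l 10760560)))) (b (a (l 11870032) (l 11134240)) (l 2))) (b (a (l 10773024) (l 10690424)) (a (b (b (l 10480056) (l 10518896)) (l 10769704)) (b (l 10274488) (a (b (l 10197392) (l 10271448)) (l 10074192)))))))), by decide +kernel⟩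

theorem s3_pm_202 : ∃ t, chk3 f_pm_202 t 3 1 1 = true := ex3_b k1_pm_202 k2_pm_202

theorem s4_pm_202 : ∃ t, chk3 f_pm_202 t 1 1 1 = true := ex3_a k0_pm_202 s3_pm_202

theorem c_pm_202 : CertB 0 536870912 0 536870912 1045395039 1503240 3 eng mog cd0q2 cd3q0 pd2 true true false .pp 2 0 2
    ndB0q2 ndB3q0 pcB2 Cut.none Ext.none :=
  certB0 (fam := true) (s1 := true) (s2 := false) (a := 2) (b := 0) (c := 2) (cn := .pp) (n1 := ndB0q2) (n2 := ndB3q0) (pc := pcB2) (cut := Cut.none) (xt := Ext.none) (P1 := 0) (W1 := 536870912) (P2 := 0) (W2 := 536870912) (P3 := 1045395039) (W3 := 1503240) (N0 := 3) (En := eng) (mo := mog) (C1 := cd0q2) (C2 := cd3q0) (C3 := pd2)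
    rfl s4_pm_202

noncomputable def f_pm_203 : ℕ → ℕ → ℕ → ℕ → Bool := onCell 0 536870912 1610612736 536870912 1045395039 1503240
    (rowB 3 eng mog cd0q2 cd3q0 pd3 1 true true false .up 2 0 3 (qsf 0 536870912 0 536870912 3) ndB0q2 ndB3q0 pcB3 Cut.none Ext.none)

def k0_pm_203 : ∃ t, chk3 f_pm_203 t 1 1 1 = true :=
  ⟨(b (b (a (b (a (l 4) (b (l 14061272) (l 4))) (l 4)) (a (b (b (l 13803416) (l 13695384)) (l 13585320)) (a (b (l 13150288) (l 13149296)) (b (a (l 12732896) (l 12394248)) (l 2))))) (a (l 4) (a (l 2) (l 2)))) (l 2)), by decide +kernel⟩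

theorem c_pm_203 : CertB 0 536870912 0 536870912 1045395039 1503240 3 eng mog cd0q2 cd3q0 pd3 true true false .up 2 0 3
    ndB0q2 ndB3q0 pcB3 Cut.none Ext.none :=
  certB1 (fam := true) (s1 := true) (s2 := false) (a := 2) (b := 0) (c := 3) (cn := .up) (n1 := ndB0q2) (n2 := ndB3q0) (pc := pcB3) (cut := Cut.none) (xt := Ext.none) (P1 := 0) (W1 := 536870912) (P2 := 0) (W2 := 536870912) (P3 := 1045395039) (W3 := 1503240) (N0 := 3) (En := eng) (mo := mog) (C1 := cd0q2) (C2 := cd3q0) (C3 := pd3)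
    rfl (fun _ => rfl) k0_pm_203

noncomputable def f_pm_213 : ℕ → ℕ → ℕ → ℕ → Bool := onCell 0 536870912 536870912 536870912 1045395039 1503240
    (rowB 3 eng mog cd0q2 cd3q1 pd3 0 true true false .pnn 2 1 3 (qsf 0 536870912 536870912 536870912 3) ndB0q2 ndB3q1 pcB3 Cut.none Ext.none)

def k0_pm_213 : ∃ t, chk3 f_pm_213 t 1 1 1 = true :=
  ⟨(a (l 4) (b (a (b (b (l 15479632) (l 4)) (l 4)) (a (b (b (l 15208480) (l 15226088)) (l 4)) (b (b (a (l 14932904) (l 14739488)) (a (l 14898648) (l 14660040))) (b (a (l 14883088) (l 14604816)) (l 4))))) (l 4))), by decide +kernel⟩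

theorem c_pm_213 : CertB 0 536870912 536870912 536870912 1045395039 1503240 3 eng mog cd0q2 cd3q1 pd3 true true false .pnn 2 1 3
    ndB0q2 ndB3q1 pcB3 Cut.none Ext.none :=
  certB0 (fam := true) (s1 := true) (s2 := false) (a := 2) (b := 1) (c := 3) (cn := .pnn) (n1 := ndB0q2) (n2 := ndB3q1) (pc := pcB3) (cut := Cut.none) (xt := Ext.none) (P1 := 0) (W1 := 536870912) (P2 := 536870912) (W2 := 536870912) (P3 := 1045395039) (W3 := 1503240) (N0 := 3) (En := eng) (mo := mog) (C1 := cd0q2) (C2 := cd3q1) (C3 := pd3)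
    rfl k0_pm_213

noncomputable def f_mm_001 : ℕ → ℕ → ℕ → ℕ → Bool := onCell 0 536870912 0 536870912 1045395039 1503240
    (rowB 3 eng mog cd0q0 cd3q0 pd1 0 true false false .up 0 0 1 (qsf 0 536870912 0 536870912 1) ndB0q0 ndB3q0 pcB1 Cut.none Ext.none)

def k0_mm_001 : ∃ t, chk3 f_mm_001 t 1 1 1 = true :=
  ⟨(l 4), by decide +kernel⟩

theorem c_mm_001 : CertB 0 536870912 0 536870912 1045395039 1503240 3 eng mog cd0q0 cd3q0 pd1 true false false .up 0 0 1
    ndB0q0 ndB3q0 pcB1 Cut.none Ext.none :=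
  certB0 (fam := true) (s1 := false) (s2 := false) (a := 0) (b := 0) (c := 1) (cn := .up) (n1 := ndB0q0) (n2 := ndB3q0) (pc := pcB1) (cut := Cut.none) (xt := Ext.none) (P1 := 0) (W1 := 536870912) (P2 := 0) (W2 := 536870912) (P3 := 1045395039) (W3 := 1503240) (N0 := 3) (En := eng) (mo := mog) (C1 := cd0q0) (C2 := cd3q0) (C3 := pd1)
    rfl k0_mm_001

noncomputable def f_mm_011 : ℕ → ℕ → ℕ → ℕ → Bool := onCell 0 536870912 536870912 536870912 1045395039 1503240
    (rowB 3 eng mog cd0q0 cd3q1 pd1 0 true false false .pnn 0 1 1 (qsf 0 536870912 536870912 536870912 1) ndB0q0 ndB3q1 pcB1 Cut.none Ext.none)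

def k0_mm_011 : ∃ t, chk3 f_mm_011 t 1 1 1 = true :=
  ⟨(l 4), by decide +kernel⟩

theorem c_mm_011 : CertB 0 536870912 536870912 536870912 1045395039 1503240 3 eng mog cd0q0 cd3q1 pd1 true false false .pnn 0 1 1
    ndB0q0 ndB3q1 pcB1 Cut.none Ext.none :=
  certB0 (fam := true) (s1 := false) (s2 := false) (a := 0) (b := 1) (c := 1) (cn := .pnn) (n1 := ndB0q0) (n2 := ndB3q1) (pc := pcB1) (cut := Cut.none) (xt := Ext.none) (P1 := 0) (W1 := 536870912) (P2 := 536870912) (W2 := 536870912) (P3 := 1045395039) (W3 := 1503240) (N0 := 3) (En := eng) (mo := mog) (C1 := cd0q0) (C2 := cd3q1) (C3 := pd1)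
    rfl k0_mm_011

noncomputable def f_mm_012 : ℕ → ℕ → ℕ → ℕ → Bool := onCell 0 536870912 536870912 536870912 1045395039 1503240
    (rowB 3 eng mog cd0q0 cd3q1 pd2 0 true false false .pnp 0 1 2 (qsf 0 536870912 536870912 536870912 2) ndB0q0 ndB3q1 pcB2 Cut.none Ext.none)

def k0_mm_012 : ∃ t, chk3 f_mm_012 t 1 1 1 = true :=
  ⟨(l 4), by decide +kernel⟩

theorem c_mm_012 : CertB 0 536870912 536870912 536870912 1045395039 1503240 3 eng mog cd0q0 cd3q1 pd2 true false false .pnp 0 1 2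
    ndB0q0 ndB3q1 pcB2 Cut.none Ext.none :=
  certB0 (fam := true) (s1 := false) (s2 := false) (a := 0) (b := 1) (c := 2) (cn := .pnp) (n1 := ndB0q0) (n2 := ndB3q1) (pc := pcB2) (cut := Cut.none) (xt := Ext.none) (P1 := 0) (W1 := 536870912) (P2 := 536870912) (W2 := 536870912) (P3 := 1045395039) (W3 := 1503240) (N0 := 3) (En := eng) (mo := mog) (C1 := cd0q0) (C2 := cd3q1) (C3 := pd2)
    rfl k0_mm_012

noncomputable def f_mm_022 : ℕ → ℕ → ℕ → ℕ → Bool := onCell 0 536870912 1073741824 536870912 1045395039 1503240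
    (rowB 3 eng mog cd0q0 cd3q2 pd2 0 true false false .pp 0 2 2 (qsf 0 536870912 1073741824 536870912 2) ndB0q0 ndB3q2 pcB2 Cut.none Ext.none)

def k0_mm_022 : ∃ t, chk3 f_mm_022 t 1 1 1 = true :=
  ⟨(l 5), by decide +kernel⟩

theorem c_mm_022 : CertB 0 536870912 1073741824 536870912 1045395039 1503240 3 eng mog cd0q0 cd3q2 pd2 true false false .pp 0 2 2
    ndB0q0 ndB3q2 pcB2 Cut.none Ext.none :=
  certB0 (fam := true) (s1 := false) (s2 := false) (a := 0) (b := 2) (c := 2) (cn := .pp) (n1 := ndB0q0) (n2 := ndB3q2) (pc := pcB2) (cut := Cut.none) (xt := Ext.none) (P1 := 0) (W1 := 536870912) (P2 := 1073741824) (W2 := 536870912) (P3 := 1045395039) (W3 := 1503240) (N0 := 3) (En := eng) (mo := mog) (C1 := cd0q0) (C2 := cd3q2) (C3 := pd2)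
    rfl k0_mm_022

noncomputable def f_mm_023 : ℕ → ℕ → ℕ → ℕ → Bool := onCell 0 536870912 1073741824 536870912 1045395039 1503240
    (rowB 3 eng mog cd0q0 cd3q2 pd3 0 true false false .up 0 2 3 (qsf 0 536870912 1073741824 536870912 3) ndB0q0 ndB3q2 pcB3 Cut.none Ext.none)

def k0_mm_023 : ∃ t, chk3 f_mm_023 t 1 1 1 = true :=
  ⟨(l 5), by decide +kernel⟩

theorem c_mm_023 : CertB 0 536870912 1073741824 536870912 1045395039 1503240 3 eng mog cd0q0 cd3q2 pd3 true false false .up 0 2 3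
    ndB0q0 ndB3q2 pcB3 Cut.none Ext.none :=
  certB0 (fam := true) (s1 := false) (s2 := false) (a := 0) (b := 2) (c := 3) (cn := .up) (n1 := ndB0q0) (n2 := ndB3q2) (pc := pcB3) (cut := Cut.none) (xt := Ext.none) (P1 := 0) (W1 := 536870912) (P2 := 1073741824) (W2 := 536870912) (P3 := 1045395039) (W3 := 1503240) (N0 := 3) (En := eng) (mo := mog) (C1 := cd0q0) (C2 := cd3q2) (C3 := pd3)
    rfl k0_mm_023

noncomputable def f_mm_033 : ℕ → ℕ → ℕ → ℕ → Bool := onCell 0 536870912 0 1230186008 1045395039 1503240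
    (rowB 3 eng mog cd0q0 cd3q3 pd3 0 true false false .pnn 0 3 3 (qsf 0 536870912 0 1230186008 3) ndB0q0 ndB3q3 pcB3 Cut.none Ext.none)

def k0_mm_033 : ∃ t, chk3 f_mm_033 t 1 1 1 = true :=
  ⟨(l 5), by decide +kernel⟩

theorem c_mm_033 : CertB 0 536870912 0 1230186008 1045395039 1503240 3 eng mog cd0q0 cd3q3 pd3 true false false .pnn 0 3 3
    ndB0q0 ndB3q3 pcB3 Cut.none Ext.none :=
  certB0 (fam := true) (s1 := false) (s2 := false) (a := 0) (b := 3) (c := 3) (cn := .pnn) (n1 := ndB0q0) (n2 := ndB3q3) (pc := pcB3) (cut := Cut.none) (xt := Ext.none) (P1 := 0) (W1 := 536870912) (P2 := 0) (W2 := 1230186008) (P3 := 1045395039) (W3 := 1503240) (N0 := 3) (En := eng) (mo := mog) (C1 := cd0q0) (C2 := cd3q3) (C3 := pd3)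
    rfl k0_mm_033

noncomputable def f_mm_101 : ℕ → ℕ → ℕ → ℕ → Bool := onCell 536870912 536870912 0 536870912 1045395039 1503240
    (rowB 3 eng mog cd0q1 cd3q0 pd1 0 true false false .npn 1 0 1 (qsf 536870912 536870912 0 536870912 1) ndB0q1 ndB3q0 pcB1 Cut.none Ext.none)

def k0_mm_101 : ∃ t, chk3 f_mm_101 t 1 1 1 = true :=
  ⟨(a (l 4) (b (a (l 4) (b (l 4) (l 4))) (l 4))), by decide +kernel⟩

theorem c_mm_101 : CertB 536870912 536870912 0 536870912 1045395039 1503240 3 eng mog cd0q1 cd3q0 pd1 true false false .npn 1 0 1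
    ndB0q1 ndB3q0 pcB1 Cut.none Ext.none :=
  certB0 (fam := true) (s1 := false) (s2 := false) (a := 1) (b := 0) (c := 1) (cn := .npn) (n1 := ndB0q1) (n2 := ndB3q0) (pc := pcB1) (cut := Cut.none) (xt := Ext.none) (P1 := 536870912) (W1 := 536870912) (P2 := 0) (W2 := 536870912) (P3 := 1045395039) (W3 := 1503240) (N0 := 3) (En := eng) (mo := mog) (C1 := cd0q1) (C2 := cd3q0) (C3 := pd1)
    rfl k0_mm_101

noncomputable def f_mm_102 : ℕ → ℕ → ℕ → ℕ → Bool := onCell 536870912 536870912 0 536870912 1045395039 1503240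
    (rowB 3 eng mog cd0q1 cd3q0 pd2 0 true false false .npp 1 0 2 (qsf 536870912 536870912 0 536870912 2) ndB0q1 ndB3q0 pcB2 Cut.none Ext.none)

def k0_mm_102 : ∃ t, chk3 f_mm_102 t 1 1 1 = true :=
  ⟨(a (l 4) (b (a (l 4) (b (l 4) (l 4))) (l 4))), by decide +kernel⟩

theorem c_mm_102 : CertB 536870912 536870912 0 536870912 1045395039 1503240 3 eng mog cd0q1 cd3q0 pd2 true false false .npp 1 0 2
    ndB0q1 ndB3q0 pcB2 Cut.none Ext.none :=
  certB0 (fam := true) (s1 := false) (s2 := false) (a := 1) (b := 0) (c := 2) (cn := .npp) (n1 := ndB0q1) (n2 := ndB3q0) (pc := pcB2) (cut := Cut.none) (xt := Ext.none) (P1 := 536870912) (W1 := 536870912) (P2 := 0) (W2 := 536870912) (P3 := 1045395039) (W3 := 1503240) (N0 := 3) (En := eng) (mo := mog) (C1 := cd0q1) (C2 := cd3q0) (C3 := pd2)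
    rfl k0_mm_102

noncomputable def f_mm_112 : ℕ → ℕ → ℕ → ℕ → Bool := onCell 536870912 536870912 536870912 536870912 1045395039 1503240
    (rowB 3 eng mog cd0q1 cd3q1 pd2 0 true false false .dn 1 1 2 (qsf 536870912 536870912 536870912 536870912 2) ndB0q1 ndB3q1 pcB2 Cut.none Ext.none)

def k0_mm_112 : ∃ t, chk3 f_mm_112 t 1 1 1 = true :=
  ⟨(l 4), by decide +kernel⟩

theorem c_mm_112 : CertB 536870912 536870912 536870912 536870912 1045395039 1503240 3 eng mog cd0q1 cd3q1 pd2 true false false .dn 1 1 2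
    ndB0q1 ndB3q1 pcB2 Cut.none Ext.none :=
  certB0 (fam := true) (s1 := false) (s2 := false) (a := 1) (b := 1) (c := 2) (cn := .dn) (n1 := ndB0q1) (n2 := ndB3q1) (pc := pcB2) (cut := Cut.none) (xt := Ext.none) (P1 := 536870912) (W1 := 536870912) (P2 := 536870912) (W2 := 536870912) (P3 := 1045395039) (W3 := 1503240) (N0 := 3) (En := eng) (mo := mog) (C1 := cd0q1) (C2 := cd3q1) (C3 := pd2)
    rfl k0_mm_112

noncomputable def f_mm_113 : ℕ → ℕ → ℕ → ℕ → Bool := onCell 536870912 536870912 536870912 536870912 1045395039 1503240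
    (rowB 3 eng mog cd0q1 cd3q1 pd3 0 true false false .nn 1 1 3 (qsf 536870912 536870912 536870912 536870912 3) ndB0q1 ndB3q1 pcB3 Cut.none Ext.none)

def k0_mm_113 : ∃ t, chk3 f_mm_113 t 1 1 1 = true :=
  ⟨(l 4), by decide +kernel⟩

theorem c_mm_113 : CertB 536870912 536870912 536870912 536870912 1045395039 1503240 3 eng mog cd0q1 cd3q1 pd3 true false false .nn 1 1 3
    ndB0q1 ndB3q1 pcB3 Cut.none Ext.none :=
  certB0 (fam := true) (s1 := false) (s2 := false) (a := 1) (b := 1) (c := 3) (cn := .nn) (n1 := ndB0q1) (n2 := ndB3q1) (pc := pcB3) (cut := Cut.none) (xt := Ext.none) (P1 := 536870912) (W1 := 536870912) (P2 := 536870912) (W2 := 536870912) (P3 := 1045395039) (W3 := 1503240) (N0 := 3) (En := eng) (mo := mog) (C1 := cd0q1) (C2 := cd3q1) (C3 := pd3)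
    rfl k0_mm_113

noncomputable def f_mm_123 : ℕ → ℕ → ℕ → ℕ → Bool := onCell 536870912 536870912 1073741824 536870912 1045395039 1503240
    (rowB 3 eng mog cd0q1 cd3q2 pd3 0 true false false .npn 1 2 3 (qsf 536870912 536870912 1073741824 536870912 3) ndB0q1 ndB3q2 pcB3 Cut.none Ext.none)

def k0_mm_123 : ∃ t, chk3 f_mm_123 t 1 1 1 = true :=
  ⟨(l 4), by decide +kernel⟩

theorem c_mm_123 : CertB 536870912 536870912 1073741824 536870912 1045395039 1503240 3 eng mog cd0q1 cd3q2 pd3 true false false .npn 1 2 3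
    ndB0q1 ndB3q2 pcB3 Cut.none Ext.none :=
  certB0 (fam := true) (s1 := false) (s2 := false) (a := 1) (b := 2) (c := 3) (cn := .npn) (n1 := ndB0q1) (n2 := ndB3q2) (pc := pcB3) (cut := Cut.none) (xt := Ext.none) (P1 := 536870912) (W1 := 536870912) (P2 := 1073741824) (W2 := 536870912) (P3 := 1045395039) (W3 := 1503240) (N0 := 3) (En := eng) (mo := mog) (C1 := cd0q1) (C2 := cd3q2) (C3 := pd3)
    rfl k0_mm_123

noncomputable def f_mm_133 : ℕ → ℕ → ℕ → ℕ → Bool := onCell 1610612736 536870912 0 1230186008 1045395039 1503240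
    (rowB 3 eng mog cd0q1 cd3q3 pd3 2 true false false .dn 1 3 3 (qsf 536870912 536870912 0 1230186008 3) ndB0q1 ndB3q3 pcB3 Cut.none Ext.none)

def k0_mm_133 : ∃ t, chk3 f_mm_133 t 1 1 1 = true :=
  ⟨(l 5), by decide +kernel⟩

theorem c_mm_133 : CertB 536870912 536870912 0 1230186008 1045395039 1503240 3 eng mog cd0q1 cd3q3 pd3 true false false .dn 1 3 3
    ndB0q1 ndB3q3 pcB3 Cut.none Ext.none :=
  certB2 (fam := true) (s1 := false) (s2 := false) (a := 1) (b := 3) (c := 3) (cn := .dn) (n1 := ndB0q1) (n2 := ndB3q3) (pc := pcB3) (cut := Cut.none) (xt := Ext.none) (P1 := 536870912) (W1 := 536870912) (P2 := 0) (W2 := 1230186008) (P3 := 1045395039) (W3 := 1503240) (N0 := 3) (En := eng) (mo := mog) (C1 := cd0q1) (C2 := cd3q3) (C3 := pd3)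
    rfl (fun _ => rfl) k0_mm_133

noncomputable def f_mm_202 : ℕ → ℕ → ℕ → ℕ → Bool := onCell 0 536870912 0 536870912 1045395039 1503240
    (rowB 3 eng mog cd0q2 cd3q0 pd2 0 true false false .pp 2 0 2 (qsf 0 536870912 0 536870912 2) ndB0q2 ndB3q0 pcB2 Cut.none Ext.none)

def k0_mm_202 : ∃ t, chk3 f_mm_202 t 2 1 1 = true :=
  ⟨(b (a (a (b (b (b (b (l 16228920) (b (l 16064752) (l 15998824))) (b (l 15821848) (l 15462816))) (b (l 15104440) (l 15141576))) (b (b (l 15108224) (l 15197960)) (b (b (l 15294448) (l 15311360)) (l 15242568)))) (b (b (b (b (b (l 16369360) (l 16236864)) (b (b (l 16157600) (l 16136040)) (l 16098240))) (b (l 15971576) (l 15791432))) (b (l 15601440) (l 15485432))) (b (b (l 15502504) (b (l 15545520) (l 15530192))) (l 4)))) (b (b (b (b (a (l 16320872) (l 16226192)) (b (a (l 16190424) (b (l 16482496) (l 16476824))) (a (l 16289008) (l 16460448)))) (a (b (l 16177144) (l 16021192)) (b (l 16339688) (l 16218800)))) (b (a (l 15740128) (b (l 16120288)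 (l 16057976))) (a (b (l 15798768) (l 15790840)) (b (l 15880304) (l 15943792))))) (b (b (a (b (l 15775480) (l 15734592)) (l 4)) (l 4)) (l 4)))) (l 4)), by decide +kernel⟩

def k1_mm_202 : ∃ t, chk3 f_mm_202 t 3 1 1 = true :=
  ⟨(b (b (b (a (b (b (b (a (l 16264952) (a (l 16370864) (l 16417568))) (a (l 16438856) (a (l 16502824) (l 16550672)))) (b (a (b (l 16547152) (l 16547608)) (b (a (l 16569016) (l 16617656)) (l 16590168))) (a (l 16561232) (a (l 16582512) (l 16632408))))) (a (b (l 16369088) (a (l 16329792) (l 16380312))) (b (a (l 16547088) (b (l 16600488) (l 16532056))) (a (l 16373352) (l 4))))) (a (b (b (a (a (l 16416584) (l 16424104)) (b (a (l 16518696) (l 16548368)) (a (l 16653080) (b (l 16649032) (l 16614352))))) (b (a (b (l 16634400) (l 16638192)) (b (a (l 16608248) (l 4)) (l 58216638103))) (a (a (l 16641480) (l 16649936)) (l 4)))) (a (b (b (l 16628456) (l 4)) (l 4)) (l 4))) (b (b (a (a (b (b (l 16641816) (l 16602904)) (l 16595520)) (b (b (a (l 16680040)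 (l 16679352)) (l 4)) (l 4))) (l 4)) (l 4)) (l 4)))) (a (b (a (b (a (l 16235392) (l 16280480)) (a (l 16158112) (l 4))) (l 4)) (l 4)) (l 4))) (l 4)) (l 4)), by decide +kernel⟩

theorem s2_mm_202 : ∃ t, chk3 f_mm_202 t 1 1 1 = true := ex3_a k0_mm_202 k1_mm_202

theorem c_mm_202 : CertB 0 536870912 0 536870912 1045395039 1503240 3 eng mog cd0q2 cd3q0 pd2 true false false .pp 2 0 2
    ndB0q2 ndB3q0 pcB2 Cut.none Ext.none :=
  certB0 (fam := true) (s1 := false) (s2 := false) (a := 2) (b := 0) (c := 2) (cn := .pp) (n1 := ndB0q2) (n2 := ndB3q0) (pc := pcB2) (cut := Cut.none) (xt := Ext.none) (P1 := 0) (W1 := 536870912) (P2 := 0) (W2 := 536870912) (P3 := 1045395039) (W3 := 1503240) (N0 := 3) (En := eng) (mo := mog) (C1 := cd0q2) (C2 := cd3q0) (C3 := pd2)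
    rfl s2_mm_202

noncomputable def f_mm_203 : ℕ → ℕ → ℕ → ℕ → Bool := onCell 0 536870912 1610612736 536870912 1045395039 1503240
    (rowB 3 eng mog cd0q2 cd3q0 pd3 1 true false false .up 2 0 3 (qsf 0 536870912 0 536870912 3) ndB0q2 ndB3q0 pcB3 Cut.none Ext.none)

def k0_mm_203 : ∃ t, chk3 f_mm_203 t 1 1 1 = true :=
  ⟨(l 4), by decide +kernel⟩

theorem c_mm_203 : CertB 0 536870912 0 536870912 1045395039 1503240 3 eng mog cd0q2 cd3q0 pd3 true false false .up 2 0 3
    ndB0q2 ndB3q0 pcB3 Cut.none Ext.none :=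
  certB1 (fam := true) (s1 := false) (s2 := false) (a := 2) (b := 0) (c := 3) (cn := .up) (n1 := ndB0q2) (n2 := ndB3q0) (pc := pcB3) (cut := Cut.none) (xt := Ext.none) (P1 := 0) (W1 := 536870912) (P2 := 0) (W2 := 536870912) (P3 := 1045395039) (W3 := 1503240) (N0 := 3) (En := eng) (mo := mog) (C1 := cd0q2) (C2 := cd3q0) (C3 := pd3)
    rfl (fun _ => rfl) k0_mm_203

noncomputable def f_mm_213 : ℕ → ℕ → ℕ → ℕ → Bool := onCell 0 536870912 536870912 536870912 1045395039 1503240
    (rowB 3 eng mog cd0q2 cd3q1 pd3 0 true false false .pnn 2 1 3 (qsf 0 536870912 536870912 536870912 3) ndB0q2 ndB3q1 pcB3 Cut.none Ext.none)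

def k0_mm_213 : ∃ t, chk3 f_mm_213 t 1 1 1 = true :=
  ⟨(l 4), by decide +kernel⟩

theorem c_mm_213 : CertB 0 536870912 536870912 536870912 1045395039 1503240 3 eng mog cd0q2 cd3q1 pd3 true false false .pnn 2 1 3
    ndB0q2 ndB3q1 pcB3 Cut.none Ext.none :=
  certB0 (fam := true) (s1 := false) (s2 := false) (a := 2) (b := 1) (c := 3) (cn := .pnn) (n1 := ndB0q2) (n2 := ndB3q1) (pc := pcB3) (cut := Cut.none) (xt := Ext.none) (P1 := 0) (W1 := 536870912) (P2 := 536870912) (W2 := 536870912) (P3 := 1045395039) (W3 := 1503240) (N0 := 3) (En := eng) (mo := mog) (C1 := cd0q2) (C2 := cd3q1) (C3 := pd3)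
    rfl k0_mm_213

end Pool.Agent.Strip051.G.I9736_9750.Tab.C.BA03

namespace Pool.Agent.Strip051.G.I9736_9750.Tab.C.BA04

open Pool.Agent.Strip051.PB Pool.Agent.Strip051.PB.T
open Pool.Agent.Strip051.G.I9736_9750.Tab

noncomputable def f_pp_001 : ℕ → ℕ → ℕ → ℕ → Bool := onCell 0 536870912 0 536870912 1045395039 1503240
    (rowB 3 eng mog cd0q0 cd4q0 pd1 0 true true true .up 0 0 1 (qsf 0 536870912 0 536870912 1) ndB0q0 ndB4q0 pcB1 Cut.none Ext.none)

def k0_pp_001 : ∃ t, chk3 f_pp_001 t 1 1 1 = true :=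
  ⟨(l 4), by decide +kernel⟩

theorem c_pp_001 : CertB 0 536870912 0 536870912 1045395039 1503240 3 eng mog cd0q0 cd4q0 pd1 true true true .up 0 0 1
    ndB0q0 ndB4q0 pcB1 Cut.none Ext.none :=
  certB0 (fam := true) (s1 := true) (s2 := true) (a := 0) (b := 0) (c := 1) (cn := .up) (n1 := ndB0q0) (n2 := ndB4q0) (pc := pcB1) (cut := Cut.none) (xt := Ext.none) (P1 := 0) (W1 := 536870912) (P2 := 0) (W2 := 536870912) (P3 := 1045395039) (W3 := 1503240) (N0 := 3) (En := eng) (mo := mog) (C1 := cd0q0) (C2 := cd4q0) (C3 := pd1)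
    rfl k0_pp_001

noncomputable def f_pp_011 : ℕ → ℕ → ℕ → ℕ → Bool := onCell 0 536870912 536870912 536870912 1045395039 1503240
    (rowB 3 eng mog cd0q0 cd4q1 pd1 0 true true true .pnn 0 1 1 (qsf 0 536870912 536870912 536870912 1) ndB0q0 ndB4q1 pcB1 Cut.none Ext.none)

def k0_pp_011 : ∃ t, chk3 f_pp_011 t 1 1 1 = true :=
  ⟨(l 4), by decide +kernel⟩

theorem c_pp_011 : CertB 0 536870912 536870912 536870912 1045395039 1503240 3 eng mog cd0q0 cd4q1 pd1 true true true .pnn 0 1 1
    ndB0q0 ndB4q1 pcB1 Cut.none Ext.none :=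
  certB0 (fam := true) (s1 := true) (s2 := true) (a := 0) (b := 1) (c := 1) (cn := .pnn) (n1 := ndB0q0) (n2 := ndB4q1) (pc := pcB1) (cut := Cut.none) (xt := Ext.none) (P1 := 0) (W1 := 536870912) (P2 := 536870912) (W2 := 536870912) (P3 := 1045395039) (W3 := 1503240) (N0 := 3) (En := eng) (mo := mog) (C1 := cd0q0) (C2 := cd4q1) (C3 := pd1)
    rfl k0_pp_011

noncomputable def f_pp_012 : ℕ → ℕ → ℕ → ℕ → Bool := onCell 0 536870912 536870912 536870912 1045395039 1503240
    (rowB 3 eng mog cd0q0 cd4q1 pd2 0 true true true .pnp 0 1 2 (qsf 0 536870912 536870912 536870912 2) ndB0q0 ndB4q1 pcB2 Cut.none Ext.none)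

def k0_pp_012 : ∃ t, chk3 f_pp_012 t 1 1 1 = true :=
  ⟨(l 4), by decide +kernel⟩

theorem c_pp_012 : CertB 0 536870912 536870912 536870912 1045395039 1503240 3 eng mog cd0q0 cd4q1 pd2 true true true .pnp 0 1 2
    ndB0q0 ndB4q1 pcB2 Cut.none Ext.none :=
  certB0 (fam := true) (s1 := true) (s2 := true) (a := 0) (b := 1) (c := 2) (cn := .pnp) (n1 := ndB0q0) (n2 := ndB4q1) (pc := pcB2) (cut := Cut.none) (xt := Ext.none) (P1 := 0) (W1 := 536870912) (P2 := 536870912) (W2 := 536870912) (P3 := 1045395039) (W3 := 1503240) (N0 := 3) (En := eng) (mo := mog) (C1 := cd0q0) (C2 := cd4q1) (C3 := pd2)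
    rfl k0_pp_012

noncomputable def f_pp_022 : ℕ → ℕ → ℕ → ℕ → Bool := onCell 0 536870912 1073741824 536870912 1045395039 1503240
    (rowB 3 eng mog cd0q0 cd4q2 pd2 0 true true true .pp 0 2 2 (qsf 0 536870912 1073741824 536870912 2) ndB0q0 ndB4q2 pcB2 Cut.none Ext.none)

def k0_pp_022 : ∃ t, chk3 f_pp_022 t 1 1 1 = true :=
  ⟨(l 4), by decide +kernel⟩

theorem c_pp_022 : CertB 0 536870912 1073741824 536870912 1045395039 1503240 3 eng mog cd0q0 cd4q2 pd2 true true true .pp 0 2 2
    ndB0q0 ndB4q2 pcB2 Cut.none Ext.none :=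
  certB0 (fam := true) (s1 := true) (s2 := true) (a := 0) (b := 2) (c := 2) (cn := .pp) (n1 := ndB0q0) (n2 := ndB4q2) (pc := pcB2) (cut := Cut.none) (xt := Ext.none) (P1 := 0) (W1 := 536870912) (P2 := 1073741824) (W2 := 536870912) (P3 := 1045395039) (W3 := 1503240) (N0 := 3) (En := eng) (mo := mog) (C1 := cd0q0) (C2 := cd4q2) (C3 := pd2)
    rfl k0_pp_022

noncomputable def f_pp_023 : ℕ → ℕ → ℕ → ℕ → Bool := onCell 0 536870912 1073741824 536870912 1045395039 1503240
    (rowB 3 eng mog cd0q0 cd4q2 pd3 0 true true true .up 0 2 3 (qsf 0 536870912 1073741824 536870912 3) ndB0q0 ndB4q2 pcB3 Cut.none Ext.none)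

def k0_pp_023 : ∃ t, chk3 f_pp_023 t 1 1 1 = true :=
  ⟨(l 4), by decide +kernel⟩

theorem c_pp_023 : CertB 0 536870912 1073741824 536870912 1045395039 1503240 3 eng mog cd0q0 cd4q2 pd3 true true true .up 0 2 3
    ndB0q0 ndB4q2 pcB3 Cut.none Ext.none :=
  certB0 (fam := true) (s1 := true) (s2 := true) (a := 0) (b := 2) (c := 3) (cn := .up) (n1 := ndB0q0) (n2 := ndB4q2) (pc := pcB3) (cut := Cut.none) (xt := Ext.none) (P1 := 0) (W1 := 536870912) (P2 := 1073741824) (W2 := 536870912) (P3 := 1045395039) (W3 := 1503240) (N0 := 3) (En := eng) (mo := mog) (C1 := cd0q0) (C2 := cd4q2) (C3 := pd3)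
    rfl k0_pp_023

noncomputable def f_pp_033 : ℕ → ℕ → ℕ → ℕ → Bool := onCell 0 536870912 0 1230186008 1045395039 1503240
    (rowB 3 eng mog cd0q0 cd4q3 pd3 0 true true true .pnn 0 3 3 (qsf 0 536870912 0 1230186008 3) ndB0q0 ndB4q3 pcB3 Cut.none Ext.none)

def k0_pp_033 : ∃ t, chk3 f_pp_033 t 1 1 1 = true :=
  ⟨(b (l 4) (l 4)), by decide +kernel⟩

theorem c_pp_033 : CertB 0 536870912 0 1230186008 1045395039 1503240 3 eng mog cd0q0 cd4q3 pd3 true true true .pnn 0 3 3
    ndB0q0 ndB4q3 pcB3 Cut.none Ext.none :=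
  certB0 (fam := true) (s1 := true) (s2 := true) (a := 0) (b := 3) (c := 3) (cn := .pnn) (n1 := ndB0q0) (n2 := ndB4q3) (pc := pcB3) (cut := Cut.none) (xt := Ext.none) (P1 := 0) (W1 := 536870912) (P2 := 0) (W2 := 1230186008) (P3 := 1045395039) (W3 := 1503240) (N0 := 3) (En := eng) (mo := mog) (C1 := cd0q0) (C2 := cd4q3) (C3 := pd3)
    rfl k0_pp_033

noncomputable def f_pp_101 : ℕ → ℕ → ℕ → ℕ → Bool := onCell 536870912 536870912 0 536870912 1045395039 1503240
    (rowB 3 eng mog cd0q1 cd4q0 pd1 0 true true true .npn 1 0 1 (qsf 536870912 536870912 0 536870912 1) ndB0q1 ndB4q0 pcB1 Cut.none Ext.none)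

def k0_pp_101 : ∃ t, chk3 f_pp_101 t 1 1 1 = true :=
  ⟨(l 5), by decide +kernel⟩

theorem c_pp_101 : CertB 536870912 536870912 0 536870912 1045395039 1503240 3 eng mog cd0q1 cd4q0 pd1 true true true .npn 1 0 1
    ndB0q1 ndB4q0 pcB1 Cut.none Ext.none :=
  certB0 (fam := true) (s1 := true) (s2 := true) (a := 1) (b := 0) (c := 1) (cn := .npn) (n1 := ndB0q1) (n2 := ndB4q0) (pc := pcB1) (cut := Cut.none) (xt := Ext.none) (P1 := 536870912) (W1 := 536870912) (P2 := 0) (W2 := 536870912) (P3 := 1045395039) (W3 := 1503240) (N0 := 3) (En := eng) (mo := mog) (C1 := cd0q1) (C2 := cd4q0) (C3 := pd1)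
    rfl k0_pp_101

noncomputable def f_pp_102 : ℕ → ℕ → ℕ → ℕ → Bool := onCell 536870912 536870912 0 536870912 1045395039 1503240
    (rowB 3 eng mog cd0q1 cd4q0 pd2 0 true true true .npp 1 0 2 (qsf 536870912 536870912 0 536870912 2) ndB0q1 ndB4q0 pcB2 Cut.none Ext.none)

def k0_pp_102 : ∃ t, chk3 f_pp_102 t 1 1 1 = true :=
  ⟨(l 5), by decide +kernel⟩

theorem c_pp_102 : CertB 536870912 536870912 0 536870912 1045395039 1503240 3 eng mog cd0q1 cd4q0 pd2 true true true .npp 1 0 2
    ndB0q1 ndB4q0 pcB2 Cut.none Ext.none :=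
  certB0 (fam := true) (s1 := true) (s2 := true) (a := 1) (b := 0) (c := 2) (cn := .npp) (n1 := ndB0q1) (n2 := ndB4q0) (pc := pcB2) (cut := Cut.none) (xt := Ext.none) (P1 := 536870912) (W1 := 536870912) (P2 := 0) (W2 := 536870912) (P3 := 1045395039) (W3 := 1503240) (N0 := 3) (En := eng) (mo := mog) (C1 := cd0q1) (C2 := cd4q0) (C3 := pd2)
    rfl k0_pp_102

noncomputable def f_pp_112 : ℕ → ℕ → ℕ → ℕ → Bool := onCell 536870912 536870912 536870912 536870912 1045395039 1503240
    (rowB 3 eng mog cd0q1 cd4q1 pd2 0 true true true .dn 1 1 2 (qsf 536870912 536870912 536870912 536870912 2) ndB0q1 ndB4q1 pcB2 Cut.none Ext.none)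

def k0_pp_112 : ∃ t, chk3 f_pp_112 t 1 1 1 = true :=
  ⟨(l 4), by decide +kernel⟩

theorem c_pp_112 : CertB 536870912 536870912 536870912 536870912 1045395039 1503240 3 eng mog cd0q1 cd4q1 pd2 true true true .dn 1 1 2
    ndB0q1 ndB4q1 pcB2 Cut.none Ext.none :=
  certB0 (fam := true) (s1 := true) (s2 := true) (a := 1) (b := 1) (c := 2) (cn := .dn) (n1 := ndB0q1) (n2 := ndB4q1) (pc := pcB2) (cut := Cut.none) (xt := Ext.none) (P1 := 536870912) (W1 := 536870912) (P2 := 536870912) (W2 := 536870912) (P3 := 1045395039) (W3 := 1503240) (N0 := 3) (En := eng) (mo := mog) (C1 := cd0q1) (C2 := cd4q1) (C3 := pd2)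
    rfl k0_pp_112

noncomputable def f_pp_113 : ℕ → ℕ → ℕ → ℕ → Bool := onCell 536870912 536870912 536870912 536870912 1045395039 1503240
    (rowB 3 eng mog cd0q1 cd4q1 pd3 0 true true true .nn 1 1 3 (qsf 536870912 536870912 536870912 536870912 3) ndB0q1 ndB4q1 pcB3 Cut.none Ext.none)

def k0_pp_113 : ∃ t, chk3 f_pp_113 t 1 1 1 = true :=
  ⟨(l 4), by decide +kernel⟩

theorem c_pp_113 : CertB 536870912 536870912 536870912 536870912 1045395039 1503240 3 eng mog cd0q1 cd4q1 pd3 true true true .nn 1 1 3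
    ndB0q1 ndB4q1 pcB3 Cut.none Ext.none :=
  certB0 (fam := true) (s1 := true) (s2 := true) (a := 1) (b := 1) (c := 3) (cn := .nn) (n1 := ndB0q1) (n2 := ndB4q1) (pc := pcB3) (cut := Cut.none) (xt := Ext.none) (P1 := 536870912) (W1 := 536870912) (P2 := 536870912) (W2 := 536870912) (P3 := 1045395039) (W3 := 1503240) (N0 := 3) (En := eng) (mo := mog) (C1 := cd0q1) (C2 := cd4q1) (C3 := pd3)
    rfl k0_pp_113

noncomputable def f_pp_123 : ℕ → ℕ → ℕ → ℕ → Bool := onCell 536870912 536870912 1073741824 536870912 1045395039 1503240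
    (rowB 3 eng mog cd0q1 cd4q2 pd3 0 true true true .npn 1 2 3 (qsf 536870912 536870912 1073741824 536870912 3) ndB0q1 ndB4q2 pcB3 Cut.none Ext.none)

def k0_pp_123 : ∃ t, chk3 f_pp_123 t 1 1 1 = true :=
  ⟨(l 4), by decide +kernel⟩

theorem c_pp_123 : CertB 536870912 536870912 1073741824 536870912 1045395039 1503240 3 eng mog cd0q1 cd4q2 pd3 true true true .npn 1 2 3
    ndB0q1 ndB4q2 pcB3 Cut.none Ext.none :=
  certB0 (fam := true) (s1 := true) (s2 := true) (a := 1) (b := 2) (c := 3) (cn := .npn) (n1 := ndB0q1) (n2 := ndB4q2) (pc := pcB3) (cut := Cut.none) (xt := Ext.none) (P1 := 536870912) (W1 := 536870912) (P2 := 1073741824) (W2 := 536870912) (P3 := 1045395039) (W3 := 1503240) (N0 := 3) (En := eng) (mo := mog) (C1 := cd0q1) (C2 := cd4q2) (C3 := pd3)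
    rfl k0_pp_123

noncomputable def f_pp_133 : ℕ → ℕ → ℕ → ℕ → Bool := onCell 536870912 536870912 0 1230186008 1045395039 1503240
    (rowB 3 eng mog cd0q1 cd4q3 pd3 0 true true true .dn 1 3 3 (qsf 536870912 536870912 0 1230186008 3) ndB0q1 ndB4q3 pcB3 Cut.none Ext.none)

def k0_pp_133 : ∃ t, chk3 f_pp_133 t 1 1 1 = true :=
  ⟨(b (l 2) (l 4)), by decide +kernel⟩

theorem c_pp_133 : CertB 536870912 536870912 0 1230186008 1045395039 1503240 3 eng mog cd0q1 cd4q3 pd3 true true true .dn 1 3 3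
    ndB0q1 ndB4q3 pcB3 Cut.none Ext.none :=
  certB0 (fam := true) (s1 := true) (s2 := true) (a := 1) (b := 3) (c := 3) (cn := .dn) (n1 := ndB0q1) (n2 := ndB4q3) (pc := pcB3) (cut := Cut.none) (xt := Ext.none) (P1 := 536870912) (W1 := 536870912) (P2 := 0) (W2 := 1230186008) (P3 := 1045395039) (W3 := 1503240) (N0 := 3) (En := eng) (mo := mog) (C1 := cd0q1) (C2 := cd4q3) (C3 := pd3)
    rfl k0_pp_133

noncomputable def f_pp_202 : ℕ → ℕ → ℕ → ℕ → Bool := onCell 0 536870912 0 536870912 1045395039 1503240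
    (rowB 3 eng mog cd0q2 cd4q0 pd2 0 true true true .pp 2 0 2 (qsf 0 536870912 0 536870912 2) ndB0q2 ndB4q0 pcB2 Cut.none Ext.none)

def k0_pp_202 : ∃ t, chk3 f_pp_202 t 1 1 1 = true :=
  ⟨(l 5), by decide +kernel⟩

theorem c_pp_202 : CertB 0 536870912 0 536870912 1045395039 1503240 3 eng mog cd0q2 cd4q0 pd2 true true true .pp 2 0 2
    ndB0q2 ndB4q0 pcB2 Cut.none Ext.none :=
  certB0 (fam := true) (s1 := true) (s2 := true) (a := 2) (b := 0) (c := 2) (cn := .pp) (n1 := ndB0q2) (n2 := ndB4q0) (pc := pcB2) (cut := Cut.none) (xt := Ext.none) (P1 := 0) (W1 := 536870912) (P2 := 0) (W2 := 536870912) (P3 := 1045395039) (W3 := 1503240) (N0 := 3) (En := eng) (mo := mog) (C1 := cd0q2) (C2 := cd4q0) (C3 := pd2)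
    rfl k0_pp_202

noncomputable def f_pp_203 : ℕ → ℕ → ℕ → ℕ → Bool := onCell 0 536870912 0 536870912 1045395039 1503240
    (rowB 3 eng mog cd0q2 cd4q0 pd3 0 true true true .up 2 0 3 (qsf 0 536870912 0 536870912 3) ndB0q2 ndB4q0 pcB3 Cut.none Ext.none)

def k0_pp_203 : ∃ t, chk3 f_pp_203 t 1 1 1 = true :=
  ⟨(l 5), by decide +kernel⟩

theorem c_pp_203 : CertB 0 536870912 0 536870912 1045395039 1503240 3 eng mog cd0q2 cd4q0 pd3 true true true .up 2 0 3
    ndB0q2 ndB4q0 pcB3 Cut.none Ext.none :=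
  certB0 (fam := true) (s1 := true) (s2 := true) (a := 2) (b := 0) (c := 3) (cn := .up) (n1 := ndB0q2) (n2 := ndB4q0) (pc := pcB3) (cut := Cut.none) (xt := Ext.none) (P1 := 0) (W1 := 536870912) (P2 := 0) (W2 := 536870912) (P3 := 1045395039) (W3 := 1503240) (N0 := 3) (En := eng) (mo := mog) (C1 := cd0q2) (C2 := cd4q0) (C3 := pd3)
    rfl k0_pp_203

noncomputable def f_pp_213 : ℕ → ℕ → ℕ → ℕ → Bool := onCell 0 536870912 536870912 536870912 1045395039 1503240
    (rowB 3 eng mog cd0q2 cd4q1 pd3 0 true true true .pnn 2 1 3 (qsf 0 536870912 536870912 536870912 3) ndB0q2 ndB4q1 pcB3 Cut.none Ext.none)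

def k0_pp_213 : ∃ t, chk3 f_pp_213 t 1 1 1 = true :=
  ⟨(l 4), by decide +kernel⟩

theorem c_pp_213 : CertB 0 536870912 536870912 536870912 1045395039 1503240 3 eng mog cd0q2 cd4q1 pd3 true true true .pnn 2 1 3
    ndB0q2 ndB4q1 pcB3 Cut.none Ext.none :=
  certB0 (fam := true) (s1 := true) (s2 := true) (a := 2) (b := 1) (c := 3) (cn := .pnn) (n1 := ndB0q2) (n2 := ndB4q1) (pc := pcB3) (cut := Cut.none) (xt := Ext.none) (P1 := 0) (W1 := 536870912) (P2 := 536870912) (W2 := 536870912) (P3 := 1045395039) (W3 := 1503240) (N0 := 3) (En := eng) (mo := mog) (C1 := cd0q2) (C2 := cd4q1) (C3 := pd3)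
    rfl k0_pp_213

noncomputable def f_pm_001 : ℕ → ℕ → ℕ → ℕ → Bool := onCell 0 536870912 536870912 536870912 1045395039 1503240
    (rowB 3 eng mog cd0q0 cd4q0 pd1 1 true true false .up 0 0 1 (qsf 0 536870912 0 536870912 1) ndB0q0 ndB4q0 pcB1 Cut.none Ext.none)

def k0_pm_001 : ∃ t, chk3 f_pm_001 t 1 1 1 = true :=
  ⟨(b (l 3) (b (l 3) (a (l 2) (b (l 3) (b (l 3) (a (l 2) (a (l 2) (a (b (b (l 3) (l 2)) (l 2)) (b (b (a (l 3) (l 3)) (b (a (a (l 183237633047) (l 15193568)) (a (l 15182712) (l 15173456))) (a (l 12445576855) (l 15169880)))) (b (a (b (l 15187912) (l 2)) (b (l 15162296) (l 15155184))) (a (l 2) (l 15145472)))))))))))), by decide +kernel⟩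

theorem c_pm_001 : CertB 0 536870912 0 536870912 1045395039 1503240 3 eng mog cd0q0 cd4q0 pd1 true true false .up 0 0 1
    ndB0q0 ndB4q0 pcB1 Cut.none Ext.none :=
  certB1 (fam := true) (s1 := true) (s2 := false) (a := 0) (b := 0) (c := 1) (cn := .up) (n1 := ndB0q0) (n2 := ndB4q0) (pc := pcB1) (cut := Cut.none) (xt := Ext.none) (P1 := 0) (W1 := 536870912) (P2 := 0) (W2 := 536870912) (P3 := 1045395039) (W3 := 1503240) (N0 := 3) (En := eng) (mo := mog) (C1 := cd0q0) (C2 := cd4q0) (C3 := pd1)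
    rfl (fun _ => rfl) k0_pm_001

noncomputable def cut_pm_011 : Cut := Cut.of [[⟨0, 0, 0, 26843545⟩, ⟨1, 1, 0, 26843545⟩, ⟨2, 1, 0, 26843545⟩]]

noncomputable def xt_pm_011 : Ext := extD3 3 ⟨4, 1, 1, 5, 33, 5, 163, 200, 81, 200, 1, 64⟩ eng cd0q0 cd4q1 pd1 true true false .pnn 0 1 1 rfl ndB0q0 ndB4q1 pcB1

noncomputable def f_pm_011 : ℕ → ℕ → ℕ → ℕ → Bool := onCell 0 536870912 536870912 536870912 1045395039 1503240
    (rowB 3 eng mog cd0q0 cd4q1 pd1 1 true true false .pnn 0 1 1 (qsf 0 536870912 536870912 536870912 1) ndB0q0 ndB4q1 pcB1 cut_pm_011 xt_pm_011)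

def k0_pm_011 : ∃ t, chk3 f_pm_011 t 1 1 1 = true :=
  ⟨(b (l 3) (b (l 3) (b (l 3) (a (b (l 3) (b (a (l 3) (l 3)) (b (a (l 3) (a (a (l 16604776) (l 16575200)) (l 249812152551))) (a (a (b (l 3) (a (a (l 6) (a (a (l 6) (l 3029568104098013301474148415)) (a (l 2981211071313300110080786495) (l 159618304199)))) (a (a (l 189146179463) (l 16698576)) (a (l 16688008) (l 16678632))))) (a (a (b (l 16670488) (l 16666208)) (l 152101958935)) (a (l 16638752) (l 16622504)))) (a (a (l 16597448) (l 16566352)) (l 16524096)))))) (b (l 3) (a (b (a (l 3) (b (l 3) (a (l 16458200) (l 16432544)))) (a (b (l 16441920) (l 16450312)) (b (l 16348608) (l 16369792)))) (b (a (b (l 3) (a (l 16404896) (l 16365800))) (b (a (l 3) (l 16319344)) (a (l 16329048) (l 16295096)))) (a (b (a (l 16376800) (l 16337904)) (l 16309184)) (a (l 16266464) (l 16253440)))))))))), by decide +kernel⟩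

theorem c_pm_011 : CertB 0 536870912 536870912 536870912 1045395039 1503240 3 eng mog cd0q0 cd4q1 pd1 true true false .pnn 0 1 1
    ndB0q0 ndB4q1 pcB1 cut_pm_011 xt_pm_011 :=
  certB1 (fam := true) (s1 := true) (s2 := false) (a := 0) (b := 1) (c := 1) (cn := .pnn) (n1 := ndB0q0) (n2 := ndB4q1) (pc := pcB1) (cut := cut_pm_011) (xt := xt_pm_011) (P1 := 0) (W1 := 536870912) (P2 := 536870912) (W2 := 536870912) (P3 := 1045395039) (W3 := 1503240) (N0 := 3) (En := eng) (mo := mog) (C1 := cd0q0) (C2 := cd4q1) (C3 := pd1)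
    rfl (fun _ => rfl) k0_pm_011

noncomputable def cut_pm_012 : Cut := Cut.of [[⟨0, 0, 0, 26843545⟩, ⟨1, 1, 0, 26843545⟩, ⟨2, 1, 0, 26843545⟩]]

noncomputable def xt_pm_012 : Ext := extD3 3 ⟨4, 1, 1, 5, 33, 5, 163, 200, 81, 200, 1, 64⟩ eng cd0q0 cd4q1 pd2 true true false .pnp 0 1 2 rfl ndB0q0 ndB4q1 pcB2

noncomputable def f_pm_012 : ℕ → ℕ → ℕ → ℕ → Bool := onCell 0 536870912 1073741824 536870912 1045395039 1503240
    (rowB 3 eng mog cd0q0 cd4q1 pd2 1 true true false .pnp 0 1 2 (qsf 0 536870912 536870912 536870912 2) ndB0q0 ndB4q1 pcB2 cut_pm_012 xt_pm_012)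

def k0_pm_012 : ∃ t, chk3 f_pm_012 t 2 4 1 = true :=
  ⟨(b (a (a (b (a (b (a (l 6) (a (l 6) (b (b (b (l 143302820637392959) (l 16688504)) (l 16640856)) (l 141914893169295487)))) (a (b (l 6) (l 2)) (a (b (l 6) (a (l 2) (l 16499136))) (b (b (l 16562608) (l 16531704)) (a (l 16490392) (l 16483144)))))) (b (b (a (b (b (l 16663008) (l 16666248)) (l 16619408)) (b (l 16651544) (l 16618272))) (a (b (l 16607104) (l 16575056)) (l 16570800))) (b (a (l 141505256200732735) (l 16511248)) (a (a (l 16475216) (l 16466200)) (l 16455096))))) (a (a (l 2) (a (l 2) (a (l 2) (b (l 16398840) (l 2))))) (b (a (b (a (l 16419176) (l 16411192)) (a (l 16365472) (l 16358456))) (l 16375728)) (a (a (l 2) (l 16282760)) (b (l 16300752) (l 16252672)))))) (b (a (b (b (a (l 16574352) (l 16599920)) (a (l 16554976) (l 16541160))) (a (l 16470440) (l 16460016))) (b (a (l 16492328) (l 16539336)) (l 16423168))) (a (b (a (l 16367384) (l 16360872)) (a (l 16271704) (l 16268592))) (b (l 16350664) (l 16263312)))))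 (b (a (a (b (l 16515264) (l 16420600)) (l 16336800)) (b (l 16364240) (l 16372792))) (a (a (l 16293376) (l 16282224)) (a (l 16272944) (l 16264848))))) (a (a (a (l 2) (b (b (a (l 2) (l 16182848)) (l 2)) (l 2))) (b (a (b (a (l 16181040) (l 16180920)) (a (l 16094008) (l 16096512))) (b (l 16179992) (l 16099432))) (a (a (l 2) (l 15975000)) (b (l 16020880) (l 15943992))))) (a (b (a (l 16137648) (l 16137088)) (a (l 15989336) (l 15997072))) (b (a (l 16137824) (l 16139168)) (a (l 16005800) (l 16014160)))))), by decide +kernel⟩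

def k1_pm_012 : ∃ t, chk3 f_pm_012 t 2 5 1 = true :=
  ⟨(a (a (l 2) (b (b (b (a (l 2) (l 15868904)) (l 2)) (l 2)) (l 2))) (b (b (a (b (a (l 15880400) (l 15892888)) (b (a (l 15827072) (l 15841128)) (b (a (l 15801304) (l 15815656)) (a (b (l 15789384) (l 15781624)) (b (l 15803464) (l 15795392)))))) (b (a (l 15906304) (l 15920824)) (b (l 15866344) (b (l 15841808) (b (l 15829472) (a (l 15809376) (l 15827568))))))) (a (a (l 15698064) (l 15716128)) (a (l 15736536) (l 15761816)))) (a (a (l 2) (b (l 15563448) (l 2))) (a (b (l 15595112) (l 15453608)) (b (l 15638624) (l 15516624)))))), by decide +kernel⟩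

def k2_pm_012 : ∃ t, chk3 f_pm_012 t 2 3 1 = true :=
  ⟨(a (l 2) (b (a (l 2) (b (a (l 2) (l 15337632)) (l 2))) (l 2))), by decide +kernel⟩

def k3_pm_012 : ∃ t, chk3 f_pm_012 t 3 1 1 = true :=
  ⟨(b (b (b (a (b (a (a (l 16338408) (l 16341264)) (b (l 16298312) (a (l 16317720) (l 16301904)))) (a (a (l 16257248) (l 16250984)) (a (l 16241808) (l 16232408)))) (a (b (a (b (l 16328408) (l 16284808)) (b (l 16305280) (l 16265800))) (a (l 16221096) (l 16206216))) (a (b (l 16198824) (l 16186904)) (l 16114536)))) (a (b (a (a (l 16140888) (l 16141840)) (a (l 16142880) (l 16140936))) (a (a (b (l 16053584) (l 15995016)) (l 16035640)) (l 16047912))) (a (a (l 16071752) (l 16043448)) (a (l 16030464) (l 16011080))))) (a (b (a (b (b (a (l 15937560) (l 15956696)) (l 15893728)) (l 15791160)) (a (l 15898872) (l 15914528))) (a (a (l 15628608) (l 15674184)) (a (l 15713040) (l 15744336)))) (b (a (b (l 15966888) (l 15887504)) (a (l 15900952) (l 15908392))) (a (b (l 15811744) (l 15740872))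 (b (l 15813664) (l 15751328)))))) (a (b (a (b (a (b (l 15467696) (l 15365264)) (l 15379904)) (a (l 2) (l 15317984))) (b (a (l 15544440) (l 15593704)) (a (l 15359984) (l 15430168)))) (a (l 2) (b (b (l 15259568) (l 2)) (l 2)))) (b (b (a (a (l 15631632) (l 15657272)) (b (l 15695688) (a (l 15646160) (l 15619488)))) (a (b (l 15570520) (a (l 15507976) (l 15544336))) (a (b (l 15599632) (l 15533608)) (l 15500912)))) (b (a (b (a (l 15471944) (l 15491624)) (a (l 15420224) (l 15440600))) (a (l 15419696) (l 15322120))) (a (a (l 2) (l 15345224)) (a (l 15258784) (l 15173320))))))), by decide +kernel⟩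

theorem s4_pm_012 : ∃ t, chk3 f_pm_012 t 2 2 1 = true := ex3_b k0_pm_012 k1_pm_012

theorem s5_pm_012 : ∃ t, chk3 f_pm_012 t 2 1 1 = true := ex3_b s4_pm_012 k2_pm_012

theorem s6_pm_012 : ∃ t, chk3 f_pm_012 t 1 1 1 = true := ex3_a s5_pm_012 k3_pm_012

theorem c_pm_012 : CertB 0 536870912 536870912 536870912 1045395039 1503240 3 eng mog cd0q0 cd4q1 pd2 true true false .pnp 0 1 2
    ndB0q0 ndB4q1 pcB2 cut_pm_012 xt_pm_012 :=
  certB1 (fam := true) (s1 := true) (s2 := false) (a := 0) (b := 1) (c := 2) (cn := .pnp) (n1 := ndB0q0) (n2 := ndB4q1) (pc := pcB2) (cut := cut_pm_012) (xt := xt_pm_012) (P1 := 0) (W1 := 536870912) (P2 := 536870912) (W2 := 536870912) (P3 := 1045395039) (W3 := 1503240) (N0 := 3) (En := eng) (mo := mog) (C1 := cd0q0) (C2 := cd4q1) (C3 := pd2)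
    rfl (fun _ => rfl) s6_pm_012

noncomputable def f_pm_022 : ℕ → ℕ → ℕ → ℕ → Bool := onCell 0 536870912 1073741824 536870912 1045395039 1503240
    (rowB 3 eng mog cd0q0 cd4q2 pd2 1 true true false .pp 0 2 2 (qsf 0 536870912 1073741824 536870912 2) ndB0q0 ndB4q2 pcB2 Cut.none Ext.none)

def k0_pm_022 : ∃ t, chk3 f_pm_022 t 2 2 1 = true :=
  ⟨(b (b (l 3) (a (a (b (a (a (b (l 227263629447) (l 16492368)) (b (l 3) (b (l 16501856) (l 16475992)))) (b (l 3) (b (l 254643978071) (l 16476960)))) (a (b (a (l 16451912) (l 16404984)) (a (l 16432144) (l 16426744))) (b (b (l 16453136) (l 16439032)) (l 16424424)))) (b (b (l 3) (a (a (b (l 16516560) (l 16490400)) (b (a (l 413423673543) (l 531535266935)) (l 290480196071))) (a (b (l 1) (l 630319480663)) (l 1)))) (b (a (b (a (l 16465280) (l 16476744)) (l 16453128)) (a (b (l 486438048967) (l 325376677399)) (b (l 1) (l 566431767319)))) (a (l 16438368) (a (l 16452600) (l 580927205111)))))) (b (l 1) (a (b (l 1) (a (l 712460647975)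 (l 1))) (l 1))))) (a (a (b (b (a (b (a (l 16410904) (l 16405744)) (b (a (l 16382872) (l 16381296)) (a (b (l 16336416) (b (l 16301592) (l 16276696))) (b (l 16338824) (b (l 16303712) (l 16278592)))))) (b (l 16403512) (b (l 16381888) (b (l 16347656) (b (l 16312072) (l 16286576)))))) (a (a (l 16210112) (l 16212832)) (l 16221776))) (b (a (a (l 16096256) (l 16100888)) (l 16112184)) (a (a (l 15979784) (l 15965488)) (l 15979304)))) (b (b (b (a (l 16416928) (l 16434952)) (b (a (l 16398040) (l 16416880)) (b (a (l 16374376) (l 16400480)) (a (b (l 16338808) (l 16312736)) (b (l 16370040) (l 16343384)))))) (a (l 16248528) (l 16279656))) (a (b (l 16140720) (l 16030784)) (b (l 16173376) (l 16065120))))) (b (b (a (b (a (l 567505456807) (l 1)) (b (a (l 16433128) (l 1)) (a (b (l 16421432) (b (l 16400216) (l 16372744))) (b (l 1) (b (l 1) (l 572337202791)))))) (l 1)) (a (a (l 16309656) (l 392485162471)) (a (l 584685182647) (l 1)))) (a (a (l 16151776) (l 16187608)) (a (a (l 16153912)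 (l 495564064519)) (l 536903410135)))))), by decide +kernel⟩

def k1_pm_022 : ∃ t, chk3 f_pm_022 t 8 6 1 = true :=
  ⟨(a (b (a (b (l 15860512) (l 15738392)) (b (l 15806432) (a (l 15746976) (l 15751416)))) (a (b (l 15571608) (b (l 15518504) (l 15454352))) (b (a (l 15623928) (l 15629712)) (a (l 15498544) (l 15505728))))) (b (b (l 15843912) (a (l 15761160) (l 15776816))) (b (a (l 15640944) (l 15658136)) (a (l 15518536) (l 15537352))))), by decide +kernel⟩

def k2_pm_022 : ∃ t, chk3 f_pm_022 t 8 14 1 = true :=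
  ⟨(a (a (b (b (l 15389752) (b (l 15320136) (l 15287568))) (b (a (l 15232880) (l 15244000)) (b (a (l 15162688) (l 15216192)) (a (b (a (b (l 15181064) (a (b (a (b (l 15173272) (l 15170432)) (l 15173744)) (l 15166712)) (b (l 15176416) (a (b (l 15172264) (l 15169616)) (l 15172736))))) (l 15182992)) (a (a (l 15148544) (b (a (l 15160544) (b (l 15167480) (l 15160144))) (l 15147768))) (b (a (b (a (b (l 15171240) (l 15168736)) (l 15171720)) (a (l 15163328) (b (l 15168272) (l 15164704)))) (b (l 15174240) (a (b (l 15170208) (l 15167792)) (l 15170704)))) (a (l 15154152) (b (a (l 15162504) (b (l 15167304) (l 15163872))) (l 15156920)))))) (a (b (l 15188888) (b (l 15176640) (a (b (a (b (l 15169176) (l 15166800)) (l 15169688)) (a (l 15161656) (b (l 15166280) (l 15163024)))) (a (b (l 15171248) (l 15166720)) (l 15170672))))) (l 15186472)))))) (b (a (b (l 15403432) (l 15318480)) (b (l 15411712) (l 15348472))) (a (b (l 15254240) (a (l 15187208) (l 15192504))) (b (l 15264016)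 (l 15200384))))) (b (a (b (l 15425752) (l 15363352)) (a (l 15409696) (l 15420232))) (a (b (l 15279752) (l 15216992)) (b (l 15301632) (l 15239800))))), by decide +kernel⟩

def k3_pm_022 : ∃ t, chk3 f_pm_022 t 16 30 1 = true :=
  ⟨(a (a (a (b (b (b (l 15122936) (l 15094032)) (b (l 15065048) (l 15035992))) (b (b (l 15006864) (l 14977672)) (b (l 14948432) (l 14919136)))) (b (b (b (l 15135792) (l 15107016)) (b (l 15078152) (l 15049216))) (b (b (l 15020216) (l 14991144)) (l 14963128)))) (a (b (b (b (b (a (l 15152504) (b (a (l 15160840) (b (l 15165216) (l 15162232))) (l 15155232))) (l 15141352)) (l 15119848)) (l 15076024)) (b (l 15024176) (l 14960944))) (b (b (b (b (a (b (l 15166304) (a (l 15160064) (b (l 15164112) (l 15161384)))) (l 15167176)) (a (l 15150800) (b (a (l 15159216) (b (l 15162992) (l 15160456))) (l 15153488)))) (l 15132520)) (l 15089560)) (b (l 15032080) (l 14974368))))) (b (b (a (b (a (b (l 15171880) (a (b (l 15164080) (a (l 15158304) (b (l 15161856)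 (l 15159440)))) (l 15164968))) (l 15173384)) (a (b (a (l 15149040) (b (a (l 15157328) (l 15159368)) (l 15151688))) (l 15137936)) (b (a (b (l 15161848) (a (l 15156296) (l 15158192))) (l 15162728)) (a (l 15147232) (b (a (l 15155216) (l 15157000)) (l 15149952)))))) (a (b (l 15178824) (a (b (l 15165480) (b (l 15159488) (a (l 15154096) (l 15155832)))) (l 15164264))) (l 15176432))) (a (a (l 15102280) (l 15114824)) (b (a (b (a (l 15145600) (b (a (l 15152992) (l 15154720)) (l 15148240))) (l 15134352)) (b (a (b (l 15157152) (l 15152576)) (l 15158064)) (a (b (l 15147392) (l 15140160)) (b (l 15151568) (l 15146584))))) (a (l 15113160) (l 15125728))))) (a (a (b (l 15045088) (l 14987656)) (b (l 15057928) (l 15000800))) (a (b (l 15070656) (l 15013832)) (b (l 15083432) (l 15026888)))))), by decide +kernel⟩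

def k4_pm_022 : ∃ t, chk3 f_pm_022 t 16 31 1 = true :=
  ⟨(a (b (b (a (a (l 14875080) (l 14888976)) (a (l 14902776) (l 14916472))) (a (a (l 14816296) (l 14830440)) (a (l 14844496) (l 14858456)))) (b (a (a (l 14757472) (l 14771848)) (a (l 14786152) (l 14800384))) (a (b (l 14720672) (l 14691336)) (l 14756032)))) (b (a (a (b (l 14930048) (l 14872312)) (b (l 14943488) (l 14886056))) (a (b (l 14956824) (l 14899688)) (b (l 14970160) (l 14913304)))) (a (a (b (l 14814520) (l 14756736)) (b (l 14828560) (l 14771064))) (a (b (l 14842496) (l 14785296)) (b (l 14856376) (l 14799456)))))), by decide +kernel⟩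

def k5_pm_022 : ∃ t, chk3 f_pm_022 t 17 15 1 = true :=
  ⟨(b (b (a (b (l 15149008) (a (b (a (b (l 15162488) (l 15153952)) (l 15164464)) (a (b (a (b (a (l 15144216) (l 15147152)) (l 15138752)) (b (l 15149720) (a (l 15143656) (l 15146312)))) (l 15131424)) (b (l 15152248) (a (b (a (l 15143048) (l 15145456)) (l 15137488)) (b (l 15148016) (a (l 15142400) (l 15144608))))))) (l 15165256))) (b (l 15172520) (l 15141632))) (a (b (a (l 15102728) (b (a (b (a (b (a (l 15141712) (l 15143760)) (l 15136320)) (b (l 15146480) (a (l 15141000) (l 15142936)))) (l 15129216)) (b (l 15149088) (a (b (l 15141024) (l 15135432)) (l 15142056)))) (a (l 15108160) (l 15121456)))) (a (l 15046552) (l 15072752))) (b (a (b (l 15154328) (a (b (a (b (l 15139464) (l 15134432)) (l 15140552)) (a (l 15123848) (b (l 15133888) (l 15126856)))) (b (l 15145800) (a (b (l 15137984) (l 15133320)) (l 15139168))))) (l 15158864)) (a (b (a (l 15106288) (b (a (l 15122968) (b (l 15143216) (l 15126016))) (l 15112400)))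 (l 15085088)) (b (a (b (a (b (l 15136640) (a (l 15131032) (l 15133352))) (l 15137936)) (a (l 15122176) (b (a (l 15130560) (l 15132688)) (l 15125256)))) (b (l 15142816) (a (b (l 15135472) (l 15130904)) (l 15136728)))) (a (l 15104760) (b (a (l 15121600) (b (l 15130288) (l 15124800))) (l 15111008)))))))) (b (a (b (a (l 14990192) (l 15016848)) (a (l 14933696) (l 14960808))) (b (a (l 15043408) (l 15069928)) (a (l 14987792) (l 15014704)))) (a (b (a (l 14877136) (l 14904688)) (a (l 14820568) (l 14848568))) (b (a (l 14932104) (l 14959400)) (a (l 14876392) (l 14904080)))))), by decide +kernel⟩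

def k6_pm_022 : ∃ t, chk3 f_pm_022 t 9 3 1 = true :=
  ⟨(b (b (a (b (l 15918512) (l 15782880)) (b (l 15954648) (l 15841920))) (a (b (a (l 15677024) (l 15696896)) (a (l 15557536) (l 15578528))) (b (l 15727040) (l 15610280)))) (b (a (b (a (l 15415504) (l 15458648)) (a (b (l 15345240) (l 15263176)) (a (l 15332040) (l 15343800)))) (b (a (l 15481040) (l 15503160)) (a (l 15361448) (l 15384752)))) (b (a (a (b (l 15202104) (b (l 15135496) (a (b (l 15148376) (a (b (a (l 15131464) (l 15135376)) (a (l 15121168) (b (l 15129080) (l 15124184)))) (l 15135544))) (l 15153328)))) (b (l 15226488) (l 15166232))) (a (a (l 15235672) (l 15248008)) (l 15266344))) (a (b (a (b (a (b (a (l 15103568) (b (a (b (l 15123808) (l 15116896)) (b (l 15127936) (l 15123400))) (l 15109936))) (l 15082760)) (b (a (b (l 15130832) (a (b (l 15122960) (l 15116424)) (b (l 15126936) (l 15122504)))) (l 15133720)) (a (l 15102672) (b (a (b (l 15122024) (l 15116120)) (l 15123296)) (l 15109400))))) (a (l 15041560)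 (l 15068352))) (b (a (a (b (l 15140208) (b (l 15128944) (a (b (l 15121048) (l 15115928)) (l 15122328)))) (l 15139064)) (l 15148648)) (a (b (a (l 15102552) (b (a (l 15117584) (l 15121472)) (l 15109048))) (l 15081584)) (b (a (l 15121704) (l 15129528)) (a (a (l 15098320) (l 15105496)) (b (l 15117368) (l 15108328))))))) (a (b (a (l 14986624) (l 15013768)) (a (l 14931664) (l 14959144))) (a (l 15016136) (l 15040664)))) (b (a (l 15130408) (l 15178360)) (a (b (a (b (a (b (l 15107848) (l 15094792)) (l 15110888)) (l 15081368)) (b (l 15122304) (a (l 15101224) (l 15109504)))) (l 15034408)) (b (l 15134680) (a (b (l 15103592) (l 15082880)) (l 15109144))))))))), by decide +kernel⟩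

def k7_pm_022 : ∃ t, chk3 f_pm_022 t 5 3 1 = true :=
  ⟨(b (a (b (a (l 15934688) (l 15974200)) (a (l 15625272) (l 15752480))) (b (a (l 16017072) (l 16063328)) (l 15823192))) (a (b (a (b (l 15536456) (l 15419752)) (l 15524504)) (a (b (l 15303072) (l 15187392)) (l 15148320))) (b (l 15515904) (a (l 15347536) (l 15401840))))), by decide +kernel⟩

def k8_pm_022 : ∃ t, chk3 f_pm_022 t 3 1 1 = true :=
  ⟨(b (b (l 1) (b (l 1) (a (a (b (l 1) (a (l 550862089527) (l 1))) (l 1)) (l 1)))) (a (b (b (a (b (l 523481459687) (l 348997985879)) (a (l 511133429015) (l 1))) (a (a (l 15900408) (l 15955872)) (a (l 524554573783) (l 485363315239)))) (b (a (l 15709392) (a (l 15798632) (l 15861432))) (a (l 15487760) (l 15610736)))) (b (a (b (l 1) (a (l 480531678599) (l 1))) (l 1)) (b (a (a (l 499321437543) (l 478383606775)) (l 455835394103)) (a (b (l 15799120) (l 15689000)) (a (b (l 467109276919) (l 15789888)) (l 454761124311))))))), by decide +kernel⟩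

theorem s9_pm_022 : ∃ t, chk3 f_pm_022 t 16 15 1 = true := ex3_b k3_pm_022 k4_pm_022

theorem s10_pm_022 : ∃ t, chk3 f_pm_022 t 8 15 1 = true := ex3_a s9_pm_022 k5_pm_022

theorem s11_pm_022 : ∃ t, chk3 f_pm_022 t 8 7 1 = true := ex3_b k2_pm_022 s10_pm_022

theorem s12_pm_022 : ∃ t, chk3 f_pm_022 t 8 3 1 = true := ex3_b k1_pm_022 s11_pm_022

theorem s13_pm_022 : ∃ t, chk3 f_pm_022 t 4 3 1 = true := ex3_a s12_pm_022 k6_pm_022

theorem s14_pm_022 : ∃ t, chk3 f_pm_022 t 2 3 1 = true := ex3_a s13_pm_022 k7_pm_022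

theorem s15_pm_022 : ∃ t, chk3 f_pm_022 t 2 1 1 = true := ex3_b k0_pm_022 s14_pm_022

theorem s16_pm_022 : ∃ t, chk3 f_pm_022 t 1 1 1 = true := ex3_a s15_pm_022 k8_pm_022

theorem c_pm_022 : CertB 0 536870912 1073741824 536870912 1045395039 1503240 3 eng mog cd0q0 cd4q2 pd2 true true false .pp 0 2 2
    ndB0q0 ndB4q2 pcB2 Cut.none Ext.none :=
  certB1 (fam := true) (s1 := true) (s2 := false) (a := 0) (b := 2) (c := 2) (cn := .pp) (n1 := ndB0q0) (n2 := ndB4q2) (pc := pcB2) (cut := Cut.none) (xt := Ext.none) (P1 := 0) (W1 := 536870912) (P2 := 1073741824) (W2 := 536870912) (P3 := 1045395039) (W3 := 1503240) (N0 := 3) (En := eng) (mo := mog) (C1 := cd0q0) (C2 := cd4q2) (C3 := pd2)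
    rfl (fun _ => rfl) s16_pm_022

noncomputable def f_pm_023 : ℕ → ℕ → ℕ → ℕ → Bool := onCell 0 536870912 1610612736 536870912 1045395039 1503240
    (rowB 3 eng mog cd0q0 cd4q2 pd3 1 true true false .up 0 2 3 (qsf 0 536870912 1073741824 536870912 3) ndB0q0 ndB4q2 pcB3 Cut.none Ext.none)

def k0_pm_023 : ∃ t, chk3 f_pm_023 t 2 1 1 = true :=
  ⟨(b (a (a (b (a (b (a (b (l 15340104) (l 2)) (b (l 15344848) (l 15265160))) (l 2)) (b (b (a (l 15348440) (l 15351176)) (a (l 15289520) (l 15271144))) (b (l 15228400) (l 2)))) (l 2)) (b (b (b (a (a (l 15353576) (l 15355864)) (a (l 15358128) (b (l 15356864) (l 15346184)))) (a (a (l 15294680) (l 15298424)) (l 15282672))) (b (a (a (l 15249680) (l 15249512)) (a (l 15250304) (l 15252216))) (a (l 15224696) (l 15221600)))) (b (a (l 2) (l 15194352)) (l 2)))) (b (b (a (b (a (b (a (b (a (l 15394680) (l 15417280)) (l 15374400)) (b (l 15472208) (l 15401200))) (a (l 15348560) (l 15358824))) (b (l 15543096) (a (b (l 15397432) (l 15356704))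 (l 15432744)))) (a (l 15310024) (a (l 15314584) (l 15269008)))) (b (a (l 15614624) (l 15759784)) (a (b (l 15297968) (l 15329088)) (l 15330296)))) (a (b (a (l 15257160) (l 15266392)) (a (l 15219712) (l 15220856))) (b (a (l 15275032) (b (l 15320136) (l 15272760))) (l 15233920)))) (b (a (a (l 15209936) (l 15202584)) (a (l 15204512) (l 15198888))) (a (l 142905029335) (l 15232112))))) (a (l 2) (b (b (a (l 2) (l 15351096)) (l 2)) (l 2)))), by decide +kernel⟩

def k1_pm_023 : ∃ t, chk3 f_pm_023 t 3 1 1 = true :=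
  ⟨(b (b (a (b (a (b (l 15864472) (l 15514832)) (b (l 15689080) (l 15850096))) (a (b (a (b (l 15417776) (l 15316024)) (l 15504216)) (a (l 15257024) (l 15281352))) (b (l 15735320) (a (l 15389608) (l 15544200))))) (b (a (b (l 15437032) (l 15594552)) (b (a (l 15242344) (a (l 15141864) (b (l 15118120) (l 15124272)))) (l 15328808))) (a (b (l 15758768) (l 15778152)) (b (l 15492664) (l 15661056))))) (b (a (a (l 15199000) (b (a (l 15256696) (l 15313136)) (l 15211264))) (a (b (l 15513104) (a (l 15267528) (l 15348144))) (b (l 15822640) (l 15573112)))) (a (a (l 15216592) (l 15192240)) (b (a (l 15234304) (a (l 15293912) (l 15414880))) (a (l 15185664) (l 15254632)))))) (a (b (b (a (l 15309832) (l 15264552)) (b (l 139147176807) (a (l 2) (l 15477256)))) (b (b (a (l 2) (l 15408688)) (l 2)) (l 2))) (b (b (a (l 15238272) (l 15214536)) (a (l 15378288) (l 15324776))) (b (b (a (l 15448976) (l 15462552)) (a (l 15371960) (l 15397048))) (b (l 15359544) (l 4)))))), by decide +kernel⟩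

theorem s2_pm_023 : ∃ t, chk3 f_pm_023 t 1 1 1 = true := ex3_a k0_pm_023 k1_pm_023

theorem c_pm_023 : CertB 0 536870912 1073741824 536870912 1045395039 1503240 3 eng mog cd0q0 cd4q2 pd3 true true false .up 0 2 3
    ndB0q0 ndB4q2 pcB3 Cut.none Ext.none :=
  certB1 (fam := true) (s1 := true) (s2 := false) (a := 0) (b := 2) (c := 3) (cn := .up) (n1 := ndB0q0) (n2 := ndB4q2) (pc := pcB3) (cut := Cut.none) (xt := Ext.none) (P1 := 0) (W1 := 536870912) (P2 := 1073741824) (W2 := 536870912) (P3 := 1045395039) (W3 := 1503240) (N0 := 3) (En := eng) (mo := mog) (C1 := cd0q0) (C2 := cd4q2) (C3 := pd3)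
    rfl (fun _ => rfl) s2_pm_023

noncomputable def f_pm_033 : ℕ → ℕ → ℕ → ℕ → Bool := onCell 0 536870912 0 1230186008 1045395039 1503240
    (rowB 3 eng mog cd0q0 cd4q3 pd3 0 true true false .pnn 0 3 3 (qsf 0 536870912 0 1230186008 3) ndB0q0 ndB4q3 pcB3 Cut.none Ext.none)

def k0_pm_033 : ∃ t, chk3 f_pm_033 t 1 2 1 = true :=
  ⟨(l 4), by decide +kernel⟩

def k1_pm_033 : ∃ t, chk3 f_pm_033 t 1 6 1 = true :=
  ⟨(a (b (a (a (b (l 4) (l 4)) (l 4)) (l 4)) (a (a (a (b (b (l 14817296) (l 14851944)) (b (a (l 14835640) (l 14903288)) (a (l 14873312) (l 14929008)))) (b (b (l 4) (l 14988160)) (b (l 15000448) (l 15016432)))) (b (l 4) (a (b (a (l 15085136) (l 15135896)) (l 15119064)) (b (l 4) (a (l 15197504) (l 15248400)))))) (a (b (l 4) (b (l 4) (l 4))) (l 4)))) (l 4)), by decide +kernel⟩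

def k2_pm_033 : ∃ t, chk3 f_pm_033 t 2 7 1 = true :=
  ⟨(b (a (a (b (a (a (l 14978896) (l 15023768)) (b (b (l 15036712) (l 15064488)) (l 15123872))) (a (a (l 15106776) (l 15164176)) (l 15235488))) (b (a (b (a (l 15110368) (l 15154264)) (b (l 15159576) (l 15193784))) (b (l 15229112) (b (l 15235696) (l 15229944)))) (a (l 15256840) (b (l 15300880) (l 15388480))))) (a (b (a (b (a (l 15308640) (l 15358368)) (l 15336960)) (b (a (l 15375320) (l 4)) (a (l 15413168) (l 15434808)))) (a (b (a (l 15339168) (l 15373552)) (l 15428024)) (b (a (l 15413728) (l 15460952)) (a (l 15455664) (l 15480344))))) (b (b (l 4) (a (a (l 15476056) (l 4)) (l 4))) (a (b (b (l 15508576) (l 15532728)) (b (l 15529672) (l 15535480))) (b (a (l 15570552) (l 4)) (b (l 15602088) (l 15618784))))))) (a (a (a (b (a (l 15200032) (l 15204752)) (b (a (l 15242096) (l 15317016)) (a (b (l 15252864) (l 15253816)) (b (l 15331728) (l 15335432))))) (b (b (l 15328528) (l 15377920)) (b (l 15415712) (b (l 15435952)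 (l 15444488))))) (b (a (b (l 15407576) (l 15467856)) (l 15380880)) (a (b (l 15516464) (l 15552248)) (b (l 15600920) (l 15647840))))) (b (a (a (l 15563896) (l 15605712)) (b (a (l 15583520) (b (l 15618008) (l 15632200))) (a (l 15683592) (l 15699256)))) (a (a (l 15685592) (l 15771984)) (b (l 15794320) (l 15883824)))))), by decide +kernel⟩

def k3_pm_033 : ∃ t, chk3 f_pm_033 t 3 7 1 = true :=
  ⟨(b (a (a (b (l 4) (b (l 4) (a (a (l 15659456) (l 15696760)) (l 4)))) (l 4)) (l 2)) (a (b (a (b (a (b (l 15690592) (l 15697104)) (a (l 15743552) (l 15777736))) (a (b (l 15704096) (l 15736048)) (b (l 15774952) (l 15775376)))) (b (a (l 4) (l 4)) (a (b (l 15835656) (l 15843112)) (b (l 4) (l 15907872))))) (a (b (a (l 15822440) (b (l 15798800) (l 15853960))) (l 15938440)) (b (a (b (l 15846672) (l 15860536)) (b (l 15910192) (l 15905488))) (a (b (l 15909296) (l 15976384)) (b (l 15922248) (l 15964448)))))) (b (l 4) (a (b (a (b (l 15962344) (l 15977712)) (l 4)) (a (b (l 15982576)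 (l 15988424)) (b (l 16048024) (l 16045800)))) (b (l 4) (a (b (l 4) (a (l 16097136) (l 4))) (l 4))))))), by decide +kernel⟩

theorem s4_pm_033 : ∃ t, chk3 f_pm_033 t 1 7 1 = true := ex3_a k2_pm_033 k3_pm_033

theorem s5_pm_033 : ∃ t, chk3 f_pm_033 t 1 3 1 = true := ex3_b k1_pm_033 s4_pm_033

theorem s6_pm_033 : ∃ t, chk3 f_pm_033 t 1 1 1 = true := ex3_b k0_pm_033 s5_pm_033

theorem c_pm_033 : CertB 0 536870912 0 1230186008 1045395039 1503240 3 eng mog cd0q0 cd4q3 pd3 true true false .pnn 0 3 3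
    ndB0q0 ndB4q3 pcB3 Cut.none Ext.none :=
  certB0 (fam := true) (s1 := true) (s2 := false) (a := 0) (b := 3) (c := 3) (cn := .pnn) (n1 := ndB0q0) (n2 := ndB4q3) (pc := pcB3) (cut := Cut.none) (xt := Ext.none) (P1 := 0) (W1 := 536870912) (P2 := 0) (W2 := 1230186008) (P3 := 1045395039) (W3 := 1503240) (N0 := 3) (En := eng) (mo := mog) (C1 := cd0q0) (C2 := cd4q3) (C3 := pd3)
    rfl s6_pm_033

noncomputable def f_pm_101 : ℕ → ℕ → ℕ → ℕ → Bool := onCell 536870912 536870912 0 536870912 1045395039 1503240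
    (rowB 3 eng mog cd0q1 cd4q0 pd1 2 true true false .npn 1 0 1 (qsf 536870912 536870912 0 536870912 1) ndB0q1 ndB4q0 pcB1 Cut.none Ext.none)

def k0_pm_101 : ∃ t, chk3 f_pm_101 t 2 1 1 = true :=
  ⟨(l 3), by decide +kernel⟩

def k1_pm_101 : ∃ t, chk3 f_pm_101 t 6 1 1 = true :=
  ⟨(l 3), by decide +kernel⟩

def k2_pm_101 : ∃ t, chk3 f_pm_101 t 14 1 1 = true :=
  ⟨(b (l 3) (l 3)), by decide +kernel⟩

def k3_pm_101 : ∃ t, chk3 f_pm_101 t 15 4 1 = true :=
  ⟨(a (a (l 3) (a (a (l 3) (b (b (b (b (l 305644460055) (l 340540890839)) (l 347520111367)) (b (l 3) (l 3))) (l 3))) (b (b (b (b (b (l 15828096) (l 15652416)) (l 15482288)) (a (l 15280800) (l 15365144))) (b (b (l 15275648) (l 15276136)) (a (b (l 15275848) (l 269674079319)) (l 15316728)))) (b (a (b (a (b (l 285780274743) (a (l 768964107527) (l 15375008))) (b (l 15342872) (l 15380432))) (a (a (l 3) (b (b (l 15406424) (l 268063696871)) (b (l 272895580023) (l 277727425783)))) (b (l 15421392) (l 15464912)))) (b (l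 15374088) (l 15450680))) (a (b (b (a (b (l 297591716023) (l 299739226119)) (l 15531336)) (b (a (l 301886757831) (l 15545456)) (a (l 304034290071) (l 15569232)))) (b (a (l 3) (b (l 15593288) (l 235851802263))) (a (l 3) (b (l 238536188935) (l 241220572055))))) (b (b (l 15515424) (l 15560912)) (b (l 15607760) (l 15655656)))))))) (b (b (a (b (a (l 16041816) (b (a (l 16560296) (l 16527768)) (l 16329800))) (a (l 15511088) (l 15746688))) (b (a (b (l 16465160) (a (l 16454304) (l 16419848))) (b (l 16386960) (l 16358712))) (a (l 16023384) (b (l 16330928) (l 16095712))))) (a (a (b (l 15374392) (l 15362416)) (b (l 15492600) (l 15432528))) (a (l 15547280) (l 15649856)))) (a (b (a (b (l 15402408) (l 15468152)) (l 15532000)) (a (b (l 15548136) (l 15636528)) (b (l 15566712) (l 15647536)))) (b (a (l 15509520) (l 15561784)) (a (l 15622768) (l 15649056)))))), by decide +kernel⟩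

def k4_pm_101 : ∃ t, chk3 f_pm_101 t 15 5 1 = true :=
  ⟨(a (a (l 3) (a (l 3) (a (b (a (b (l 3) (l 3)) (b (b (b (a (l 266990433863) (l 15704016)) (l 251421271271)) (b (l 257326956151) (l 262695779911))) (b (l 270748900823) (l 3)))) (l 3)) (b (b (b (b (l 15704368) (l 15753680)) (b (l 15803432) (l 15853480))) (b (l 15864792) (b (l 15866056) (l 15835848)))) (b (b (l 204176764983) (l 204713494823)) (b (l 212766428663) (l 222429973879))))))) (a (b (a (b (b (l 15730024) (l 15826544)) (b (l 15874208) (l 15817376))) (b (b (l 15735336) (l 15827432)) (b (l 15829208) (l 15771448)))) (a (b (b (l 15755824) (l 15693952)) (b (l 15633360) (l 15574872))) (b (b (l 15710688) (l 15650032)) (b (l 15590784) (l 15533656))))) (b (b (a (l 15784400) (l 15795328)) (a (l 15750168) (l 15699184))) (b (a (l 15631280) (l 15582304)) (a (l 15515992) (l 15469960)))))), by decide +kernel⟩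

def k5_pm_101 : ∃ t, chk3 f_pm_101 t 15 3 1 = true :=
  ⟨(a (b (b (a (l 3) (a (l 3) (a (l 3) (b (b (l 15535720) (l 15474280)) (l 245515074823))))) (l 3)) (l 3)) (b (a (b (a (b (b (l 15519048) (l 15466304)) (a (l 15402800) (l 15384512))) (b (a (l 15462504) (l 15442320)) (l 15356888))) (a (b (l 15289752) (b (l 15260096) (l 192364505975))) (b (l 15255280) (l 15192088)))) (b (b (a (l 15410184) (l 15367152)) (a (l 15317096) (l 15276928))) (b (a (l 15239176) (l 15201704)) (a (l 15157536) (l 15143552))))) (b (a (a (b (b (l 198270043447) (a (l 3) (l 15183928))) (a (l 3) (b (l 15171800) (l 200417425271)))) (b (b (a (l 15185896) (l 15170168)) (a (l 15168840) (l 15153600))) (b (a (l 15157144) (l 15142368)) (a (l 15150992) (l 15136648))))) (a (b (b (l 15145520) (l 15129800)) (b (l 15119368) (l 15114432))) (b (l 15104320) (b (l 15088360) (l 15084440))))) (a (a (a (l 3) (a (l 3) (b (b (l 190753734007) (b (l 15164248) (l 15168344))) (b (b (l 15173976) (l 3)) (l 1))))) (b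 (b (a (l 15150560) (l 15136632)) (a (b (l 15154080) (l 15158320)) (l 15142496))) (b (a (b (l 15164080) (l 15171384)) (l 15154400)) (a (l 1) (l 304436206503))))) (a (b (b (l 15115160) (a (l 15128736) (l 15114696))) (b (a (l 15141056) (l 15127504)) (a (l 15159560) (l 15146472)))) (b (b (l 15086144) (l 15093648)) (b (l 15107104) (l 15126688)))))))), by decide +kernel⟩

theorem s6_pm_101 : ∃ t, chk3 f_pm_101 t 15 2 1 = true := ex3_b k3_pm_101 k4_pm_101

theorem s7_pm_101 : ∃ t, chk3 f_pm_101 t 15 1 1 = true := ex3_b s6_pm_101 k5_pm_101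

theorem s8_pm_101 : ∃ t, chk3 f_pm_101 t 7 1 1 = true := ex3_a k2_pm_101 s7_pm_101

theorem s9_pm_101 : ∃ t, chk3 f_pm_101 t 3 1 1 = true := ex3_a k1_pm_101 s8_pm_101

theorem s10_pm_101 : ∃ t, chk3 f_pm_101 t 1 1 1 = true := ex3_a k0_pm_101 s9_pm_101

theorem c_pm_101 : CertB 536870912 536870912 0 536870912 1045395039 1503240 3 eng mog cd0q1 cd4q0 pd1 true true false .npn 1 0 1
    ndB0q1 ndB4q0 pcB1 Cut.none Ext.none :=
  certB2 (fam := true) (s1 := true) (s2 := false) (a := 1) (b := 0) (c := 1) (cn := .npn) (n1 := ndB0q1) (n2 := ndB4q0) (pc := pcB1) (cut := Cut.none) (xt := Ext.none) (P1 := 536870912) (W1 := 536870912) (P2 := 0) (W2 := 536870912) (P3 := 1045395039) (W3 := 1503240) (N0 := 3) (En := eng) (mo := mog) (C1 := cd0q1) (C2 := cd4q0) (C3 := pd1)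
    rfl (fun _ => rfl) s10_pm_101

noncomputable def f_pm_102 : ℕ → ℕ → ℕ → ℕ → Bool := onCell 536870912 536870912 1073741824 536870912 1045395039 1503240
    (rowB 3 eng mog cd0q1 cd4q0 pd2 1 true true false .npp 1 0 2 (qsf 536870912 536870912 0 536870912 2) ndB0q1 ndB4q0 pcB2 Cut.none Ext.none)

def k0_pm_102 : ∃ t, chk3 f_pm_102 t 2 1 1 = true :=
  ⟨(b (a (b (a (b (b (a (b (a (l 15102120) (l 15081736)) (a (l 15078216) (l 15051184))) (b (a (l 15067248) (l 15058504)) (a (l 15030040) (l 15014616)))) (a (l 40899353543) (l 14952016))) (a (l 2) (b (l 14910472) (l 2)))) (b (b (a (a (l 15008448) (l 15007352)) (l 15036472)) (a (l 14911512) (l 14892040))) (b (a (l 14841192) (l 14792520)) (a (l 14798480) (l 14740232))))) (b (a (l 2) (a (l 2) (b (l 14695448) (l 2)))) (l 2))) (b (b (a (b (a (l 15064320) (l 15110152)) (a (l 14913104) (l 14931128))) (b (a (l 15172128) (l 15248224)) (a (l 14965328) (l 15013768)))) (a (b (a (l 14783976) (l 14772056)) (a (l 14679536) (l 14635808)))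 (b (a (l 14776000) (l 14793912)) (a (l 14607344) (l 14592280))))) (b (a (b (a (l 14602200) (l 14525072)) (a (l 14554656) (l 14448864))) (b (a (l 14464344) (l 14425448)) (a (l 14364072) (l 14301920)))) (a (a (l 2) (l 14404392)) (a (l 14275528) (l 14165560)))))) (a (l 2) (b (a (l 2) (b (l 191220975319) (l 2))) (l 2)))), by decide +kernel⟩

def k1_pm_102 : ∃ t, chk3 f_pm_102 t 3 1 1 = true :=
  ⟨(b (a (b (b (a (b (a (l 15336136) (l 15370360)) (a (l 15074304) (l 15144624))) (b (a (l 15452624) (l 15641664)) (a (l 15222184) (l 15304344)))) (a (b (a (l 14823712) (l 14863136)) (a (l 14591328) (l 14610888))) (b (a (l 14910904) (l 14975336)) (a (l 14648968) (l 14706960))))) (b (a (a (l 14328952) (l 14318648)) (b (l 14441464) (l 14217024))) (a (a (l 14073160) (l 13996896)) (a (l 13935208) (l 13886392))))) (a (b (b (b (a (l 15678040) (b (l 15706016) (l 15755040))) (a (l 15386840) (b (l 15569104) (l 15379688)))) (a (b (l 15055352) (l 14776912)) (b (l 15147320) (l 14854336))))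 (b (a (l 14367192) (l 14403192)) (a (l 13848448) (l 13817312)))) (a (b (b (b (b (a (l 15760848) (l 15895344)) (l 15864592)) (b (l 15663560) (l 15486952))) (b (l 15259648) (l 14942744))) (b (l 14450296) (l 13796504))) (b (b (b (a (b (a (l 16067736) (b (l 16204896) (l 16104264))) (l 15905752)) (b (a (a (l 16171096) (l 16235760)) (b (l 16259936) (l 16149448))) (a (l 15968624) (l 15979160)))) (a (a (l 15644280) (l 15671216)) (a (l 15691680) (l 15712280)))) (a (b (l 15347096) (l 15014688)) (b (l 15388080) (l 15045888)))) (b (a (l 14491280) (l 14501904)) (a (l 13785880) (l 13761712))))))) (a (b (a (b (a (l 13913440) (l 13765888)) (l 13758008)) (b (l 13568416) (l 13331712))) (a (l 2) (b (l 13221176) (l 2)))) (a (b (b (a (l 13394552) (l 13286424)) (a (l 13035344) (l 12843736))) (b (l 12565912) (l 12509184))) (b (a (b (l 13187472) (l 12660432)) (b (a (l 13117640) (l 13053752)) (a (l 12527432) (l 12421848)))) (a (b (l 12246896) (l 11974232)) (b (l 11970568) (a (l 11716904)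 (b (l 11605704) (l 11518952))))))))), by decide +kernel⟩

theorem s2_pm_102 : ∃ t, chk3 f_pm_102 t 1 1 1 = true := ex3_a k0_pm_102 k1_pm_102

theorem c_pm_102 : CertB 536870912 536870912 0 536870912 1045395039 1503240 3 eng mog cd0q1 cd4q0 pd2 true true false .npp 1 0 2
    ndB0q1 ndB4q0 pcB2 Cut.none Ext.none :=
  certB1 (fam := true) (s1 := true) (s2 := false) (a := 1) (b := 0) (c := 2) (cn := .npp) (n1 := ndB0q1) (n2 := ndB4q0) (pc := pcB2) (cut := Cut.none) (xt := Ext.none) (P1 := 536870912) (W1 := 536870912) (P2 := 0) (W2 := 536870912) (P3 := 1045395039) (W3 := 1503240) (N0 := 3) (En := eng) (mo := mog) (C1 := cd0q1) (C2 := cd4q0) (C3 := pd2)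
    rfl (fun _ => rfl) s2_pm_102

noncomputable def f_pm_112 : ℕ → ℕ → ℕ → ℕ → Bool := onCell 536870912 536870912 1073741824 536870912 1045395039 1503240
    (rowB 3 eng mog cd0q1 cd4q1 pd2 1 true true false .dn 1 1 2 (qsf 536870912 536870912 536870912 536870912 2) ndB0q1 ndB4q1 pcB2 Cut.none Ext.none)

def k0_pm_112 : ∃ t, chk3 f_pm_112 t 1 1 1 = true :=
  ⟨(a (b (a (b (a (b (a (l 16082976) (l 16066376)) (a (l 15963616) (l 15992144))) (b (a (l 16022280) (l 1)) (a (l 15949216) (l 15897048)))) (b (a (a (l 15885472) (l 15852248)) (a (l 15807944) (l 15751736))) (a (a (l 15755840) (b (l 15753136) (l 15658176))) (b (a (l 15695376) (l 15637184)) (l 15582984))))) (b (a (b (l 1) (a (l 15834928) (l 1))) (l 1)) (b (a (b (l 15682264) (l 15607656)) (b (l 1) (l 15415648))) (a (a (l 15546936) (l 15470152)) (l 15337776))))) (a (b (b (a (b (a (l 15633792) (l 15571184)) (l 15525328)) (l 15462664)) (a (l 15405120) (l 15286904))) (a (b (l 15085168) (l 14943680)) (b (l 15008248)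 (l 14889616)))) (b (a (b (l 15381552) (l 15181664)) (b (l 15197296) (l 15059784))) (a (b (l 14964224) (l 14741912)) (b (l 14848200) (l 14605832)))))) (b (a (b (l 1) (b (l 1) (a (l 15125400) (l 1)))) (l 1)) (a (b (b (a (l 14962248) (l 14668288)) (a (l 14795880) (l 14463208))) (a (b (l 14642048) (l 14475032)) (b (l 14265576) (l 14092016)))) (a (b (b (l 1) (l 14038472)) (b (l 13788848) (l 13562128))) (b (l 1) (a (l 13230504) (b (l 1) (a (l 12836376) (l 12677472))))))))), by decide +kernel⟩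

theorem c_pm_112 : CertB 536870912 536870912 536870912 536870912 1045395039 1503240 3 eng mog cd0q1 cd4q1 pd2 true true false .dn 1 1 2
    ndB0q1 ndB4q1 pcB2 Cut.none Ext.none :=
  certB1 (fam := true) (s1 := true) (s2 := false) (a := 1) (b := 1) (c := 2) (cn := .dn) (n1 := ndB0q1) (n2 := ndB4q1) (pc := pcB2) (cut := Cut.none) (xt := Ext.none) (P1 := 536870912) (W1 := 536870912) (P2 := 536870912) (W2 := 536870912) (P3 := 1045395039) (W3 := 1503240) (N0 := 3) (En := eng) (mo := mog) (C1 := cd0q1) (C2 := cd4q1) (C3 := pd2)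
    rfl (fun _ => rfl) k0_pm_112

noncomputable def f_pm_113 : ℕ → ℕ → ℕ → ℕ → Bool := onCell 536870912 536870912 1610612736 536870912 1045395039 1503240
    (rowB 3 eng mog cd0q1 cd4q1 pd3 1 true true false .nn 1 1 3 (qsf 536870912 536870912 536870912 536870912 3) ndB0q1 ndB4q1 pcB3 Cut.none Ext.none)

def k0_pm_113 : ∃ t, chk3 f_pm_113 t 1 1 1 = true :=
  ⟨(a (b (b (a (a (b (l 14101744) (l 13691432)) (b (l 14304320) (l 13939088))) (a (b (l 14471888) (l 14146016)) (l 14347512))) (a (b (a (l 2) (l 13496248)) (l 2)) (b (a (l 13747568) (l 13965456)) (a (l 110688540135) (b (l 13649256) (l 13419792)))))) (a (l 2) (b (b (a (l 2) (l 344763908311)) (l 2)) (l 2)))) (b (a (b (a (l 14603800) (b (l 14805840) (l 14588288))) (b (a (l 14166768) (l 14341856)) (a (l 13811048) (l 14053328)))) (a (b (b (l 14828544) (l 14656880)) (b (l 14469208) (l 14253672))) (b (a (l 14752696) (b (l 14780984) (l 14667504))) (a (b (l 14542856) (l 14389256)) (b (l 14563088) (l 4)))))) (b (a (b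 (a (b (l 13504080) (l 13294752)) (b (l 13803312) (l 4))) (a (b (l 13083928) (l 2)) (l 4))) (a (l 4) (l 4))) (l 4)))), by decide +kernel⟩

theorem c_pm_113 : CertB 536870912 536870912 536870912 536870912 1045395039 1503240 3 eng mog cd0q1 cd4q1 pd3 true true false .nn 1 1 3
    ndB0q1 ndB4q1 pcB3 Cut.none Ext.none :=
  certB1 (fam := true) (s1 := true) (s2 := false) (a := 1) (b := 1) (c := 3) (cn := .nn) (n1 := ndB0q1) (n2 := ndB4q1) (pc := pcB3) (cut := Cut.none) (xt := Ext.none) (P1 := 536870912) (W1 := 536870912) (P2 := 536870912) (W2 := 536870912) (P3 := 1045395039) (W3 := 1503240) (N0 := 3) (En := eng) (mo := mog) (C1 := cd0q1) (C2 := cd4q1) (C3 := pd3)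
    rfl (fun _ => rfl) k0_pm_113

noncomputable def xt_pm_123 : Ext := extD3 3 ⟨4, 1, 1, 5, 33, 5, 163, 200, 81, 200, 1, 64⟩ eng cd0q1 cd4q2 pd3 true true false .npn 1 2 3 rfl ndB0q1 ndB4q2 pcB3

noncomputable def f_pm_123 : ℕ → ℕ → ℕ → ℕ → Bool := onCell 1610612736 536870912 1073741824 536870912 1045395039 1503240
    (rowB 3 eng mog cd0q1 cd4q2 pd3 2 true true false .npn 1 2 3 (qsf 536870912 536870912 1073741824 536870912 3) ndB0q1 ndB4q2 pcB3 Cut.none xt_pm_123)

def k0_pm_123 : ∃ t, chk3 f_pm_123 t 2 1 1 = true :=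
  ⟨(b (a (b (b (a (b (a (b (l 15181560) (l 15110272)) (b (l 15288864) (l 15185464))) (a (l 15173224) (l 15191320))) (b (a (l 15352176) (l 15479392)) (a (l 15235352) (l 15222744)))) (a (b (l 15310992) (l 1)) (b (l 15368440) (l 15504072)))) (a (l 1) (b (a (l 1) (l 15720456)) (l 1)))) (b (b (a (a (b (l 15613112) (l 15359224)) (b (l 15748016) (l 15513824))) (a (b (l 15762952) (l 15637768)) (b (l 15446536) (l 15761368)))) (a (b (l 15389080) (l 15581776)) (b (a (l 15537680) (l 15615144)) (l 15669280)))) (a (b (l 12915871847) (a (l 1) (l 15500792))) (b (l 15618976) (b (l 15445976) (l 118141712439)))))) (a (l 1) (b (b (a (l 1) (a (l 1) (l 15210648))) (l 1)) (l 1)))), by decide +kernel⟩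

def k1_pm_123 : ∃ t, chk3 f_pm_123 t 6 2 1 = true :=
  ⟨(b (a (b (a (b (l 15252712) (l 15635776)) (b (b (l 15214280) (l 15332672)) (l 15490048))) (b (a (l 15700432) (l 15650616)) (l 15669520))) (b (b (a (b (a (l 15127872) (l 15102912)) (l 15223232)) (b (l 15117352) (a (l 15179584) (l 15190824)))) (a (l 15378208) (a (l 15325456) (l 15307576)))) (b (a (l 15543328) (l 15471056)) (a (l 15559816) (l 15516504))))) (a (b (a (l 15538136) (l 15475800)) (a (l 15305520) (l 15289592))) (b (a (l 15419648) (l 15404976)) (b (a (l 15313440) (l 15331200)) (l 15271608))))), by decide +kernel⟩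

def k2_pm_123 : ∃ t, chk3 f_pm_123 t 7 4 1 = true :=
  ⟨(a (b (a (b (a (l 15197896) (b (l 15202728) (l 15277088))) (b (l 15303072) (l 15361944))) (b (a (b (l 15252296) (b (l 15324416) (l 15359304))) (b (a (l 15302128) (l 15355744)) (l 15425104))) (a (b (l 15395688) (l 15429656)) (l 15501704)))) (a (b (l 15453024) (l 15508232)) (b (a (l 15491056) (l 15550992)) (l 15551104)))) (b (a (b (b (a (b (l 15464880) (l 15496920)) (a (l 15667264) (l 15847160))) (a (l 15548304) (l 15755968))) (a (l 15620296) (b (l 15776776) (l 15790448)))) (b (a (a (b (l 16111272) (l 15986960)) (b (b (l 16457032) (l 16383760)) (l 16198320))) (a (b (a (b (l 16566088) (l 16506256)) (b (a (l 16583192) (l 16582136)) (l 140555896623923215))) (a (l 16405104) (l 16449896))) (a (b (b (l 16503368) (l 16498024)) (l 138573339557330959)) (a (b (l 4) (l 16435592)) (l 4))))) (a (a (a (l 15923352) (l 15988456)) (a (l 16058920) (l 16139000))) (a (b (l 16321152) (l 16231680)) (a (b (l 16364776) (l 16273216))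 (a (l 16319736) (a (l 16312840) (b (l 4) (l 4))))))))) (a (b (l 15603656) (l 15694992)) (b (a (a (l 15910168) (a (l 15986448) (l 16042672))) (a (l 16113136) (a (l 16139136) (a (l 16160920) (a (l 16168640) (a (l 16167504) (a (l 16162952) (l 16153144)))))))) (a (a (l 15849480) (l 15928424)) (a (l 16001152) (a (l 16012400) (a (l 16018504) (a (l 16022072) (a (l 16024048) (a (l 16025152) (b (l 16057664) (l 15994720))))))))))))), by decide +kernel⟩

def k3_pm_123 : ∃ t, chk3 f_pm_123 t 7 5 1 = true :=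
  ⟨(a (b (a (b (l 15467672) (l 15417944)) (l 15508504)) (l 15410168)) (a (b (l 15639464) (l 15576632)) (a (b (a (l 15756128) (b (l 15845232) (l 15764672))) (l 15625632)) (a (b (l 15827840) (l 15632600)) (a (b (l 15834456) (l 15649696)) (b (a (l 15843840) (a (l 15845600) (a (l 15854384) (a (l 15860280) (l 15869904))))) (a (l 15665944) (l 4)))))))), by decide +kernel⟩

def k4_pm_123 : ∃ t, chk3 f_pm_123 t 3 3 1 = true :=
  ⟨(a (b (a (b (l 15206400) (l 154648788439)) (b (l 15274720) (l 15296840))) (a (l 1) (b (l 15345272) (l 1)))) (b (a (b (l 15412872) (l 15444328)) (a (b (l 15518024) (l 15440088)) (a (b (l 15500760) (l 15414736)) (a (l 15473968) (a (l 15504720) (l 4)))))) (a (a (b (l 15449352) (l 1)) (b (l 15425600) (l 15383592))) (a (b (l 15396960) (l 15360976)) (a (l 15375032) (l 4)))))), by decide +kernel⟩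

theorem s5_pm_123 : ∃ t, chk3 f_pm_123 t 7 2 1 = true := ex3_b k2_pm_123 k3_pm_123

theorem s6_pm_123 : ∃ t, chk3 f_pm_123 t 3 2 1 = true := ex3_a k1_pm_123 s5_pm_123

theorem s7_pm_123 : ∃ t, chk3 f_pm_123 t 3 1 1 = true := ex3_b s6_pm_123 k4_pm_123

theorem s8_pm_123 : ∃ t, chk3 f_pm_123 t 1 1 1 = true := ex3_a k0_pm_123 s7_pm_123

theorem c_pm_123 : CertB 536870912 536870912 1073741824 536870912 1045395039 1503240 3 eng mog cd0q1 cd4q2 pd3 true true false .npn 1 2 3
    ndB0q1 ndB4q2 pcB3 Cut.none xt_pm_123 :=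
  certB2 (fam := true) (s1 := true) (s2 := false) (a := 1) (b := 2) (c := 3) (cn := .npn) (n1 := ndB0q1) (n2 := ndB4q2) (pc := pcB3) (cut := Cut.none) (xt := xt_pm_123) (P1 := 536870912) (W1 := 536870912) (P2 := 1073741824) (W2 := 536870912) (P3 := 1045395039) (W3 := 1503240) (N0 := 3) (En := eng) (mo := mog) (C1 := cd0q1) (C2 := cd4q2) (C3 := pd3)
    rfl (fun _ => rfl) s8_pm_123

noncomputable def f_pm_133 : ℕ → ℕ → ℕ → ℕ → Bool := onCell 536870912 536870912 0 1230186008 1045395039 1503240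
    (rowB 3 eng mog cd0q1 cd4q3 pd3 0 true true false .dn 1 3 3 (qsf 536870912 536870912 0 1230186008 3) ndB0q1 ndB4q3 pcB3 Cut.none Ext.none)

def k0_pm_133 : ∃ t, chk3 f_pm_133 t 1 1 1 = true :=
  ⟨(b (l 2) (b (l 2) (a (l 4) (l 2)))), by decide +kernel⟩

theorem c_pm_133 : CertB 536870912 536870912 0 1230186008 1045395039 1503240 3 eng mog cd0q1 cd4q3 pd3 true true false .dn 1 3 3
    ndB0q1 ndB4q3 pcB3 Cut.none Ext.none :=
  certB0 (fam := true) (s1 := true) (s2 := false) (a := 1) (b := 3) (c := 3) (cn := .dn) (n1 := ndB0q1) (n2 := ndB4q3) (pc := pcB3) (cut := Cut.none) (xt := Ext.none) (P1 := 536870912) (W1 := 536870912) (P2 := 0) (W2 := 1230186008) (P3 := 1045395039) (W3 := 1503240) (N0 := 3) (En := eng) (mo := mog) (C1 := cd0q1) (C2 := cd4q3) (C3 := pd3)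
    rfl k0_pm_133

noncomputable def f_pm_202 : ℕ → ℕ → ℕ → ℕ → Bool := onCell 0 536870912 1073741824 536870912 1045395039 1503240
    (rowB 3 eng mog cd0q2 cd4q0 pd2 1 true true false .pp 2 0 2 (qsf 0 536870912 0 536870912 2) ndB0q2 ndB4q0 pcB2 Cut.none Ext.none)

def k0_pm_202 : ∃ t, chk3 f_pm_202 t 2 1 1 = true :=
  ⟨(b (a (b (l 1) (b (b (a (l 16164496) (l 16093736)) (a (l 15664688) (l 15780200))) (b (a (b (l 15472432) (l 15306584)) (l 15312776)) (a (l 15166888) (b (l 14988536) (l 14835488)))))) (b (b (l 1) (b (l 1) (a (l 1) (b (l 1) (l 16269360))))) (b (b (a (l 16039936) (l 15867816)) (a (l 15727568) (l 15635912))) (b (a (l 15271576) (l 15198568)) (a (l 14816560) (l 14755688)))))) (b (b (a (b (l 14904240) (l 14961448)) (b (a (b (l 14507080) (l 14360280)) (l 14316488)) (a (l 14292480) (b (l 14023448) (l 13880432))))) (a (b (l 14987816) (a (l 15545288) (l 15089048))) (b (a (l 14354432) (l 13819904)) (l 14061576)))) (b (a (b (a (l 15618768) (l 15342792)) (l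 15528544)) (b (l 14278584) (a (l 15099952) (l 14449920)))) (a (l 4) (b (a (l 15299512) (l 14814336)) (a (l 4) (l 15080784))))))), by decide +kernel⟩

def k1_pm_202 : ∃ t, chk3 f_pm_202 t 3 2 1 = true :=
  ⟨(a (b (b (l 1) (b (a (l 1) (b (a (l 1) (l 16338184)) (a (l 16375688) (l 16244160)))) (a (b (l 16222480) (l 16188640)) (b (l 127270186423) (l 15962912))))) (b (b (a (l 15711352) (l 15448872)) (a (l 15492984) (l 15282696))) (a (b (l 15071096) (l 14644616)) (b (l 14873648) (l 14461624))))) (a (b (b (b (l 1) (a (b (l 1) (b (l 1) (l 16360840))) (b (b (l 145524520551) (l 165388611799)) (a (l 16269400) (l 16177656))))) (b (a (b (l 16228840) (l 16090928)) (b (l 16074448) (l 15913352))) (a (l 15832640) (l 15653832)))) (b (b (a (l 15461712) (l 15284072)) (l 14984024)) (b (l 14586176) (l 14187680)))) (b (b (a (b (b (l 1) (a (b (l 1) (l 16313400)) (b (l 439729665159) (l 16212832)))) (b (a (l 16218664) (l 16114344)) (l 16005488))) (b (a (b (a (l 456372790183) (l 440803420983))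 (b (l 111164447879) (l 16104304))) (b (b (l 16240568) (l 16213528)) (b (l 16099952) (l 15986888)))) (a (b (l 15997048) (l 15852680)) (l 15791064)))) (a (b (b (l 15873480) (l 15710048)) (l 15449104)) (b (a (l 15615168) (l 15479320)) (a (l 15269752) (l 15132760))))) (a (b (b (l 15080320) (l 14696736)) (l 14113568)) (b (b (l 14832816) (l 14453144)) (a (l 13944928) (l 13816024))))))), by decide +kernel⟩

def k2_pm_202 : ∃ t, chk3 f_pm_202 t 3 3 1 = true :=
  ⟨(a (b (b (a (l 14016120) (l 13856416)) (a (b (a (l 13511968) (l 13397496)) (a (l 13478624) (l 13191504))) (b (l 13281656) (l 12967112)))) (b (a (b (l 13482784) (l 13740608)) (b (a (l 12962464) (l 12671264)) (l 12986184))) (b (a (l 14078752) (l 13289176)) (a (l 14482856) (l 13666376))))) (b (a (b (b (l 13795680) (l 13416512)) (l 12885712)) (a (b (l 13355928) (l 12665448)) (b (l 13141272) (l 12474792)))) (a (b (b (l 12429136) (a (l 12405464) (l 12139768))) (b (l 12434720) (l 12792112))) (b (a (l 12081752) (l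 11918976)) (a (b (l 11859160) (l 12108768)) (b (l 11613912) (l 11654032))))))), by decide +kernel⟩

theorem s3_pm_202 : ∃ t, chk3 f_pm_202 t 3 1 1 = true := ex3_b k1_pm_202 k2_pm_202

theorem s4_pm_202 : ∃ t, chk3 f_pm_202 t 1 1 1 = true := ex3_a k0_pm_202 s3_pm_202

theorem c_pm_202 : CertB 0 536870912 0 536870912 1045395039 1503240 3 eng mog cd0q2 cd4q0 pd2 true true false .pp 2 0 2
    ndB0q2 ndB4q0 pcB2 Cut.none Ext.none :=
  certB1 (fam := true) (s1 := true) (s2 := false) (a := 2) (b := 0) (c := 2) (cn := .pp) (n1 := ndB0q2) (n2 := ndB4q0) (pc := pcB2) (cut := Cut.none) (xt := Ext.none) (P1 := 0) (W1 := 536870912) (P2 := 0) (W2 := 536870912) (P3 := 1045395039) (W3 := 1503240) (N0 := 3) (En := eng) (mo := mog) (C1 := cd0q2) (C2 := cd4q0) (C3 := pd2)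
    rfl (fun _ => rfl) s4_pm_202

noncomputable def f_pm_203 : ℕ → ℕ → ℕ → ℕ → Bool := onCell 0 536870912 1610612736 536870912 1045395039 1503240
    (rowB 3 eng mog cd0q2 cd4q0 pd3 1 true true false .up 2 0 3 (qsf 0 536870912 0 536870912 3) ndB0q2 ndB4q0 pcB3 Cut.none Ext.none)

def k0_pm_203 : ∃ t, chk3 f_pm_203 t 1 1 1 = true :=
  ⟨(b (b (a (b (a (l 4) (l 15315160)) (l 4)) (a (b (l 14853472) (l 14945680)) (a (b (l 14394680) (l 14453088)) (b (a (l 14092600) (l 13841408)) (l 2))))) (a (l 4) (a (l 2) (l 2)))) (l 2)), by decide +kernel⟩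

theorem c_pm_203 : CertB 0 536870912 0 536870912 1045395039 1503240 3 eng mog cd0q2 cd4q0 pd3 true true false .up 2 0 3
    ndB0q2 ndB4q0 pcB3 Cut.none Ext.none :=
  certB1 (fam := true) (s1 := true) (s2 := false) (a := 2) (b := 0) (c := 3) (cn := .up) (n1 := ndB0q2) (n2 := ndB4q0) (pc := pcB3) (cut := Cut.none) (xt := Ext.none) (P1 := 0) (W1 := 536870912) (P2 := 0) (W2 := 536870912) (P3 := 1045395039) (W3 := 1503240) (N0 := 3) (En := eng) (mo := mog) (C1 := cd0q2) (C2 := cd4q0) (C3 := pd3)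
    rfl (fun _ => rfl) k0_pm_203

noncomputable def f_pm_213 : ℕ → ℕ → ℕ → ℕ → Bool := onCell 0 536870912 536870912 536870912 1045395039 1503240
    (rowB 3 eng mog cd0q2 cd4q1 pd3 0 true true false .pnn 2 1 3 (qsf 0 536870912 536870912 536870912 3) ndB0q2 ndB4q1 pcB3 Cut.none Ext.none)

def k0_pm_213 : ∃ t, chk3 f_pm_213 t 1 1 1 = true :=
  ⟨(a (l 4) (b (a (b (b (l 15734264) (l 4)) (l 4)) (a (b (b (l 15287688) (l 15323104)) (l 4)) (b (b (a (l 15037640) (l 14846896)) (a (l 15005176) (l 14773880))) (a (l 4) (b (l 14712352) (l 4)))))) (l 4))), by decide +kernel⟩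

theorem c_pm_213 : CertB 0 536870912 536870912 536870912 1045395039 1503240 3 eng mog cd0q2 cd4q1 pd3 true true false .pnn 2 1 3
    ndB0q2 ndB4q1 pcB3 Cut.none Ext.none :=
  certB0 (fam := true) (s1 := true) (s2 := false) (a := 2) (b := 1) (c := 3) (cn := .pnn) (n1 := ndB0q2) (n2 := ndB4q1) (pc := pcB3) (cut := Cut.none) (xt := Ext.none) (P1 := 0) (W1 := 536870912) (P2 := 536870912) (W2 := 536870912) (P3 := 1045395039) (W3 := 1503240) (N0 := 3) (En := eng) (mo := mog) (C1 := cd0q2) (C2 := cd4q1) (C3 := pd3)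
    rfl k0_pm_213

noncomputable def f_mm_001 : ℕ → ℕ → ℕ → ℕ → Bool := onCell 0 536870912 0 536870912 1045395039 1503240
    (rowB 3 eng mog cd0q0 cd4q0 pd1 0 true false false .up 0 0 1 (qsf 0 536870912 0 536870912 1) ndB0q0 ndB4q0 pcB1 Cut.none Ext.none)

def k0_mm_001 : ∃ t, chk3 f_mm_001 t 1 1 1 = true :=
  ⟨(l 4), by decide +kernel⟩

theorem c_mm_001 : CertB 0 536870912 0 536870912 1045395039 1503240 3 eng mog cd0q0 cd4q0 pd1 true false false .up 0 0 1
    ndB0q0 ndB4q0 pcB1 Cut.none Ext.none :=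
  certB0 (fam := true) (s1 := false) (s2 := false) (a := 0) (b := 0) (c := 1) (cn := .up) (n1 := ndB0q0) (n2 := ndB4q0) (pc := pcB1) (cut := Cut.none) (xt := Ext.none) (P1 := 0) (W1 := 536870912) (P2 := 0) (W2 := 536870912) (P3 := 1045395039) (W3 := 1503240) (N0 := 3) (En := eng) (mo := mog) (C1 := cd0q0) (C2 := cd4q0) (C3 := pd1)
    rfl k0_mm_001

noncomputable def f_mm_011 : ℕ → ℕ → ℕ → ℕ → Bool := onCell 0 536870912 536870912 536870912 1045395039 1503240
    (rowB 3 eng mog cd0q0 cd4q1 pd1 0 true false false .pnn 0 1 1 (qsf 0 536870912 536870912 536870912 1) ndB0q0 ndB4q1 pcB1 Cut.none Ext.none)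

def k0_mm_011 : ∃ t, chk3 f_mm_011 t 1 1 1 = true :=
  ⟨(l 4), by decide +kernel⟩

theorem c_mm_011 : CertB 0 536870912 536870912 536870912 1045395039 1503240 3 eng mog cd0q0 cd4q1 pd1 true false false .pnn 0 1 1
    ndB0q0 ndB4q1 pcB1 Cut.none Ext.none :=
  certB0 (fam := true) (s1 := false) (s2 := false) (a := 0) (b := 1) (c := 1) (cn := .pnn) (n1 := ndB0q0) (n2 := ndB4q1) (pc := pcB1) (cut := Cut.none) (xt := Ext.none) (P1 := 0) (W1 := 536870912) (P2 := 536870912) (W2 := 536870912) (P3 := 1045395039) (W3 := 1503240) (N0 := 3) (En := eng) (mo := mog) (C1 := cd0q0) (C2 := cd4q1) (C3 := pd1)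
    rfl k0_mm_011

noncomputable def f_mm_012 : ℕ → ℕ → ℕ → ℕ → Bool := onCell 0 536870912 536870912 536870912 1045395039 1503240
    (rowB 3 eng mog cd0q0 cd4q1 pd2 0 true false false .pnp 0 1 2 (qsf 0 536870912 536870912 536870912 2) ndB0q0 ndB4q1 pcB2 Cut.none Ext.none)

def k0_mm_012 : ∃ t, chk3 f_mm_012 t 1 1 1 = true :=
  ⟨(l 4), by decide +kernel⟩

theorem c_mm_012 : CertB 0 536870912 536870912 536870912 1045395039 1503240 3 eng mog cd0q0 cd4q1 pd2 true false false .pnp 0 1 2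
    ndB0q0 ndB4q1 pcB2 Cut.none Ext.none :=
  certB0 (fam := true) (s1 := false) (s2 := false) (a := 0) (b := 1) (c := 2) (cn := .pnp) (n1 := ndB0q0) (n2 := ndB4q1) (pc := pcB2) (cut := Cut.none) (xt := Ext.none) (P1 := 0) (W1 := 536870912) (P2 := 536870912) (W2 := 536870912) (P3 := 1045395039) (W3 := 1503240) (N0 := 3) (En := eng) (mo := mog) (C1 := cd0q0) (C2 := cd4q1) (C3 := pd2)
    rfl k0_mm_012

noncomputable def f_mm_022 : ℕ → ℕ → ℕ → ℕ → Bool := onCell 0 536870912 1073741824 536870912 1045395039 1503240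
    (rowB 3 eng mog cd0q0 cd4q2 pd2 0 true false false .pp 0 2 2 (qsf 0 536870912 1073741824 536870912 2) ndB0q0 ndB4q2 pcB2 Cut.none Ext.none)

def k0_mm_022 : ∃ t, chk3 f_mm_022 t 1 1 1 = true :=
  ⟨(l 4), by decide +kernel⟩

theorem c_mm_022 : CertB 0 536870912 1073741824 536870912 1045395039 1503240 3 eng mog cd0q0 cd4q2 pd2 true false false .pp 0 2 2
    ndB0q0 ndB4q2 pcB2 Cut.none Ext.none :=
  certB0 (fam := true) (s1 := false) (s2 := false) (a := 0) (b := 2) (c := 2) (cn := .pp) (n1 := ndB0q0) (n2 := ndB4q2) (pc := pcB2) (cut := Cut.none) (xt := Ext.none) (P1 := 0) (W1 := 536870912) (P2 := 1073741824) (W2 := 536870912) (P3 := 1045395039) (W3 := 1503240) (N0 := 3) (En := eng) (mo := mog) (C1 := cd0q0) (C2 := cd4q2) (C3 := pd2)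
    rfl k0_mm_022

noncomputable def f_mm_023 : ℕ → ℕ → ℕ → ℕ → Bool := onCell 0 536870912 1073741824 536870912 1045395039 1503240
    (rowB 3 eng mog cd0q0 cd4q2 pd3 0 true false false .up 0 2 3 (qsf 0 536870912 1073741824 536870912 3) ndB0q0 ndB4q2 pcB3 Cut.none Ext.none)

def k0_mm_023 : ∃ t, chk3 f_mm_023 t 1 1 1 = true :=
  ⟨(l 4), by decide +kernel⟩

theorem c_mm_023 : CertB 0 536870912 1073741824 536870912 1045395039 1503240 3 eng mog cd0q0 cd4q2 pd3 true false false .up 0 2 3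
    ndB0q0 ndB4q2 pcB3 Cut.none Ext.none :=
  certB0 (fam := true) (s1 := false) (s2 := false) (a := 0) (b := 2) (c := 3) (cn := .up) (n1 := ndB0q0) (n2 := ndB4q2) (pc := pcB3) (cut := Cut.none) (xt := Ext.none) (P1 := 0) (W1 := 536870912) (P2 := 1073741824) (W2 := 536870912) (P3 := 1045395039) (W3 := 1503240) (N0 := 3) (En := eng) (mo := mog) (C1 := cd0q0) (C2 := cd4q2) (C3 := pd3)
    rfl k0_mm_023

noncomputable def f_mm_033 : ℕ → ℕ → ℕ → ℕ → Bool := onCell 0 536870912 0 1230186008 1045395039 1503240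
    (rowB 3 eng mog cd0q0 cd4q3 pd3 0 true false false .pnn 0 3 3 (qsf 0 536870912 0 1230186008 3) ndB0q0 ndB4q3 pcB3 Cut.none Ext.none)

def k0_mm_033 : ∃ t, chk3 f_mm_033 t 1 1 1 = true :=
  ⟨(l 5), by decide +kernel⟩

theorem c_mm_033 : CertB 0 536870912 0 1230186008 1045395039 1503240 3 eng mog cd0q0 cd4q3 pd3 true false false .pnn 0 3 3
    ndB0q0 ndB4q3 pcB3 Cut.none Ext.none :=
  certB0 (fam := true) (s1 := false) (s2 := false) (a := 0) (b := 3) (c := 3) (cn := .pnn) (n1 := ndB0q0) (n2 := ndB4q3) (pc := pcB3) (cut := Cut.none) (xt := Ext.none) (P1 := 0) (W1 := 536870912) (P2 := 0) (W2 := 1230186008) (P3 := 1045395039) (W3 := 1503240) (N0 := 3) (En := eng) (mo := mog) (C1 := cd0q0) (C2 := cd4q3) (C3 := pd3)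
    rfl k0_mm_033

noncomputable def f_mm_101 : ℕ → ℕ → ℕ → ℕ → Bool := onCell 536870912 536870912 0 536870912 1045395039 1503240
    (rowB 3 eng mog cd0q1 cd4q0 pd1 0 true false false .npn 1 0 1 (qsf 536870912 536870912 0 536870912 1) ndB0q1 ndB4q0 pcB1 Cut.none Ext.none)

def k0_mm_101 : ∃ t, chk3 f_mm_101 t 1 1 1 = true :=
  ⟨(a (l 4) (l 4)), by decide +kernel⟩

theorem c_mm_101 : CertB 536870912 536870912 0 536870912 1045395039 1503240 3 eng mog cd0q1 cd4q0 pd1 true false false .npn 1 0 1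
    ndB0q1 ndB4q0 pcB1 Cut.none Ext.none :=
  certB0 (fam := true) (s1 := false) (s2 := false) (a := 1) (b := 0) (c := 1) (cn := .npn) (n1 := ndB0q1) (n2 := ndB4q0) (pc := pcB1) (cut := Cut.none) (xt := Ext.none) (P1 := 536870912) (W1 := 536870912) (P2 := 0) (W2 := 536870912) (P3 := 1045395039) (W3 := 1503240) (N0 := 3) (En := eng) (mo := mog) (C1 := cd0q1) (C2 := cd4q0) (C3 := pd1)
    rfl k0_mm_101

noncomputable def f_mm_102 : ℕ → ℕ → ℕ → ℕ → Bool := onCell 536870912 536870912 0 536870912 1045395039 1503240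
    (rowB 3 eng mog cd0q1 cd4q0 pd2 0 true false false .npp 1 0 2 (qsf 536870912 536870912 0 536870912 2) ndB0q1 ndB4q0 pcB2 Cut.none Ext.none)

def k0_mm_102 : ∃ t, chk3 f_mm_102 t 1 1 1 = true :=
  ⟨(a (l 4) (l 4)), by decide +kernel⟩

theorem c_mm_102 : CertB 536870912 536870912 0 536870912 1045395039 1503240 3 eng mog cd0q1 cd4q0 pd2 true false false .npp 1 0 2
    ndB0q1 ndB4q0 pcB2 Cut.none Ext.none :=
  certB0 (fam := true) (s1 := false) (s2 := false) (a := 1) (b := 0) (c := 2) (cn := .npp) (n1 := ndB0q1) (n2 := ndB4q0) (pc := pcB2) (cut := Cut.none) (xt := Ext.none) (P1 := 536870912) (W1 := 536870912) (P2 := 0) (W2 := 536870912) (P3 := 1045395039) (W3 := 1503240) (N0 := 3) (En := eng) (mo := mog) (C1 := cd0q1) (C2 := cd4q0) (C3 := pd2)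
    rfl k0_mm_102

noncomputable def f_mm_112 : ℕ → ℕ → ℕ → ℕ → Bool := onCell 536870912 536870912 536870912 536870912 1045395039 1503240
    (rowB 3 eng mog cd0q1 cd4q1 pd2 0 true false false .dn 1 1 2 (qsf 536870912 536870912 536870912 536870912 2) ndB0q1 ndB4q1 pcB2 Cut.none Ext.none)

def k0_mm_112 : ∃ t, chk3 f_mm_112 t 1 1 1 = true :=
  ⟨(l 4), by decide +kernel⟩

theorem c_mm_112 : CertB 536870912 536870912 536870912 536870912 1045395039 1503240 3 eng mog cd0q1 cd4q1 pd2 true false false .dn 1 1 2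
    ndB0q1 ndB4q1 pcB2 Cut.none Ext.none :=
  certB0 (fam := true) (s1 := false) (s2 := false) (a := 1) (b := 1) (c := 2) (cn := .dn) (n1 := ndB0q1) (n2 := ndB4q1) (pc := pcB2) (cut := Cut.none) (xt := Ext.none) (P1 := 536870912) (W1 := 536870912) (P2 := 536870912) (W2 := 536870912) (P3 := 1045395039) (W3 := 1503240) (N0 := 3) (En := eng) (mo := mog) (C1 := cd0q1) (C2 := cd4q1) (C3 := pd2)
    rfl k0_mm_112

noncomputable def f_mm_113 : ℕ → ℕ → ℕ → ℕ → Bool := onCell 536870912 536870912 536870912 536870912 1045395039 1503240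
    (rowB 3 eng mog cd0q1 cd4q1 pd3 0 true false false .nn 1 1 3 (qsf 536870912 536870912 536870912 536870912 3) ndB0q1 ndB4q1 pcB3 Cut.none Ext.none)

def k0_mm_113 : ∃ t, chk3 f_mm_113 t 1 1 1 = true :=
  ⟨(l 4), by decide +kernel⟩

theorem c_mm_113 : CertB 536870912 536870912 536870912 536870912 1045395039 1503240 3 eng mog cd0q1 cd4q1 pd3 true false false .nn 1 1 3
    ndB0q1 ndB4q1 pcB3 Cut.none Ext.none :=
  certB0 (fam := true) (s1 := false) (s2 := false) (a := 1) (b := 1) (c := 3) (cn := .nn) (n1 := ndB0q1) (n2 := ndB4q1) (pc := pcB3) (cut := Cut.none) (xt := Ext.none) (P1 := 536870912) (W1 := 536870912) (P2 := 536870912) (W2 := 536870912) (P3 := 1045395039) (W3 := 1503240) (N0 := 3) (En := eng) (mo := mog) (C1 := cd0q1) (C2 := cd4q1) (C3 := pd3)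
    rfl k0_mm_113

noncomputable def f_mm_123 : ℕ → ℕ → ℕ → ℕ → Bool := onCell 536870912 536870912 1073741824 536870912 1045395039 1503240
    (rowB 3 eng mog cd0q1 cd4q2 pd3 0 true false false .npn 1 2 3 (qsf 536870912 536870912 1073741824 536870912 3) ndB0q1 ndB4q2 pcB3 Cut.none Ext.none)

def k0_mm_123 : ∃ t, chk3 f_mm_123 t 1 1 1 = true :=
  ⟨(l 4), by decide +kernel⟩

theorem c_mm_123 : CertB 536870912 536870912 1073741824 536870912 1045395039 1503240 3 eng mog cd0q1 cd4q2 pd3 true false false .npn 1 2 3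
    ndB0q1 ndB4q2 pcB3 Cut.none Ext.none :=
  certB0 (fam := true) (s1 := false) (s2 := false) (a := 1) (b := 2) (c := 3) (cn := .npn) (n1 := ndB0q1) (n2 := ndB4q2) (pc := pcB3) (cut := Cut.none) (xt := Ext.none) (P1 := 536870912) (W1 := 536870912) (P2 := 1073741824) (W2 := 536870912) (P3 := 1045395039) (W3 := 1503240) (N0 := 3) (En := eng) (mo := mog) (C1 := cd0q1) (C2 := cd4q2) (C3 := pd3)
    rfl k0_mm_123

noncomputable def f_mm_133 : ℕ → ℕ → ℕ → ℕ → Bool := onCell 1610612736 536870912 0 1230186008 1045395039 1503240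
    (rowB 3 eng mog cd0q1 cd4q3 pd3 2 true false false .dn 1 3 3 (qsf 536870912 536870912 0 1230186008 3) ndB0q1 ndB4q3 pcB3 Cut.none Ext.none)

def k0_mm_133 : ∃ t, chk3 f_mm_133 t 1 1 1 = true :=
  ⟨(l 5), by decide +kernel⟩

theorem c_mm_133 : CertB 536870912 536870912 0 1230186008 1045395039 1503240 3 eng mog cd0q1 cd4q3 pd3 true false false .dn 1 3 3
    ndB0q1 ndB4q3 pcB3 Cut.none Ext.none :=
  certB2 (fam := true) (s1 := false) (s2 := false) (a := 1) (b := 3) (c := 3) (cn := .dn) (n1 := ndB0q1) (n2 := ndB4q3) (pc := pcB3) (cut := Cut.none) (xt := Ext.none) (P1 := 536870912) (W1 := 536870912) (P2 := 0) (W2 := 1230186008) (P3 := 1045395039) (W3 := 1503240) (N0 := 3) (En := eng) (mo := mog) (C1 := cd0q1) (C2 := cd4q3) (C3 := pd3)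
    rfl (fun _ => rfl) k0_mm_133

noncomputable def f_mm_202 : ℕ → ℕ → ℕ → ℕ → Bool := onCell 0 536870912 0 536870912 1045395039 1503240
    (rowB 3 eng mog cd0q2 cd4q0 pd2 0 true false false .pp 2 0 2 (qsf 0 536870912 0 536870912 2) ndB0q2 ndB4q0 pcB2 Cut.none Ext.none)

def k0_mm_202 : ∃ t, chk3 f_mm_202 t 1 1 1 = true :=
  ⟨(b (a (a (b (b (b (a (b (l 15991304) (l 15790704)) (l 15861336)) (a (l 15584408) (l 15782008))) (b (a (l 15450440) (l 15717704)) (a (l 15461080) (l 15735016)))) (b (b (a (l 15587936) (l 15711624)) (a (l 15705480) (l 4))) (b (l 4) (l 4)))) (b (b (b (a (b (l 16201280) (l 16071744)) (b (l 16282480) (l 16172032))) (a (l 15959928) (b (l 16107040) (l 16077120)))) (b (a (b (l 15938928) (l 15950328)) (b (l 16061944) (l 4))) (a (b (l 15958024) (l 4)) (l 4)))) (l 4))) (b (a (b (b (a (a (l 16082968) (b (l 16298992) (l 16218056))) (b (a (l 16247224) (l 16303224)) (l 4))) (a (a (b (l 16155368) (l 4)) (l 4)) (l 4))) (l 4)) (l 4)) (l 4))) (l 4)), by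 decide +kernel⟩

theorem c_mm_202 : CertB 0 536870912 0 536870912 1045395039 1503240 3 eng mog cd0q2 cd4q0 pd2 true false false .pp 2 0 2
    ndB0q2 ndB4q0 pcB2 Cut.none Ext.none :=
  certB0 (fam := true) (s1 := false) (s2 := false) (a := 2) (b := 0) (c := 2) (cn := .pp) (n1 := ndB0q2) (n2 := ndB4q0) (pc := pcB2) (cut := Cut.none) (xt := Ext.none) (P1 := 0) (W1 := 536870912) (P2 := 0) (W2 := 536870912) (P3 := 1045395039) (W3 := 1503240) (N0 := 3) (En := eng) (mo := mog) (C1 := cd0q2) (C2 := cd4q0) (C3 := pd2)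
    rfl k0_mm_202

noncomputable def f_mm_203 : ℕ → ℕ → ℕ → ℕ → Bool := onCell 0 536870912 1610612736 536870912 1045395039 1503240
    (rowB 3 eng mog cd0q2 cd4q0 pd3 1 true false false .up 2 0 3 (qsf 0 536870912 0 536870912 3) ndB0q2 ndB4q0 pcB3 Cut.none Ext.none)

def k0_mm_203 : ∃ t, chk3 f_mm_203 t 1 1 1 = true :=
  ⟨(l 4), by decide +kernel⟩

theorem c_mm_203 : CertB 0 536870912 0 536870912 1045395039 1503240 3 eng mog cd0q2 cd4q0 pd3 true false false .up 2 0 3
    ndB0q2 ndB4q0 pcB3 Cut.none Ext.none :=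
  certB1 (fam := true) (s1 := false) (s2 := false) (a := 2) (b := 0) (c := 3) (cn := .up) (n1 := ndB0q2) (n2 := ndB4q0) (pc := pcB3) (cut := Cut.none) (xt := Ext.none) (P1 := 0) (W1 := 536870912) (P2 := 0) (W2 := 536870912) (P3 := 1045395039) (W3 := 1503240) (N0 := 3) (En := eng) (mo := mog) (C1 := cd0q2) (C2 := cd4q0) (C3 := pd3)
    rfl (fun _ => rfl) k0_mm_203

noncomputable def f_mm_213 : ℕ → ℕ → ℕ → ℕ → Bool := onCell 0 536870912 536870912 536870912 1045395039 1503240
    (rowB 3 eng mog cd0q2 cd4q1 pd3 0 true false false .pnn 2 1 3 (qsf 0 536870912 536870912 536870912 3) ndB0q2 ndB4q1 pcB3 Cut.none Ext.none)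

def k0_mm_213 : ∃ t, chk3 f_mm_213 t 1 1 1 = true :=
  ⟨(l 4), by decide +kernel⟩

theorem c_mm_213 : CertB 0 536870912 536870912 536870912 1045395039 1503240 3 eng mog cd0q2 cd4q1 pd3 true false false .pnn 2 1 3
    ndB0q2 ndB4q1 pcB3 Cut.none Ext.none :=
  certB0 (fam := true) (s1 := false) (s2 := false) (a := 2) (b := 1) (c := 3) (cn := .pnn) (n1 := ndB0q2) (n2 := ndB4q1) (pc := pcB3) (cut := Cut.none) (xt := Ext.none) (P1 := 0) (W1 := 536870912) (P2 := 536870912) (W2 := 536870912) (P3 := 1045395039) (W3 := 1503240) (N0 := 3) (En := eng) (mo := mog) (C1 := cd0q2) (C2 := cd4q1) (C3 := pd3)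
    rfl k0_mm_213

end Pool.Agent.Strip051.G.I9736_9750.Tab.C.BA04

namespace Pool.Agent.Strip051.G.I9736_9750.Tab.C.BA05

open Pool.Agent.Strip051.PB Pool.Agent.Strip051.PB.T
open Pool.Agent.Strip051.G.I9736_9750.Tab

noncomputable def f_pp_001 : ℕ → ℕ → ℕ → ℕ → Bool := onCell 0 536870912 0 536870912 1045395039 1503240
    (rowB 3 eng mog cd0q0 cd5q0 pd1 0 true true true .up 0 0 1 (qsf 0 536870912 0 536870912 1) ndB0q0 ndB5q0 pcB1 Cut.none Ext.none)

def k0_pp_001 : ∃ t, chk3 f_pp_001 t 1 1 1 = true :=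
  ⟨(l 4), by decide +kernel⟩

theorem c_pp_001 : CertB 0 536870912 0 536870912 1045395039 1503240 3 eng mog cd0q0 cd5q0 pd1 true true true .up 0 0 1
    ndB0q0 ndB5q0 pcB1 Cut.none Ext.none :=
  certB0 (fam := true) (s1 := true) (s2 := true) (a := 0) (b := 0) (c := 1) (cn := .up) (n1 := ndB0q0) (n2 := ndB5q0) (pc := pcB1) (cut := Cut.none) (xt := Ext.none) (P1 := 0) (W1 := 536870912) (P2 := 0) (W2 := 536870912) (P3 := 1045395039) (W3 := 1503240) (N0 := 3) (En := eng) (mo := mog) (C1 := cd0q0) (C2 := cd5q0) (C3 := pd1)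
    rfl k0_pp_001

noncomputable def f_pp_011 : ℕ → ℕ → ℕ → ℕ → Bool := onCell 0 536870912 536870912 536870912 1045395039 1503240
    (rowB 3 eng mog cd0q0 cd5q1 pd1 0 true true true .pnn 0 1 1 (qsf 0 536870912 536870912 536870912 1) ndB0q0 ndB5q1 pcB1 Cut.none Ext.none)

def k0_pp_011 : ∃ t, chk3 f_pp_011 t 1 1 1 = true :=
  ⟨(l 4), by decide +kernel⟩

theorem c_pp_011 : CertB 0 536870912 536870912 536870912 1045395039 1503240 3 eng mog cd0q0 cd5q1 pd1 true true true .pnn 0 1 1
    ndB0q0 ndB5q1 pcB1 Cut.none Ext.none :=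
  certB0 (fam := true) (s1 := true) (s2 := true) (a := 0) (b := 1) (c := 1) (cn := .pnn) (n1 := ndB0q0) (n2 := ndB5q1) (pc := pcB1) (cut := Cut.none) (xt := Ext.none) (P1 := 0) (W1 := 536870912) (P2 := 536870912) (W2 := 536870912) (P3 := 1045395039) (W3 := 1503240) (N0 := 3) (En := eng) (mo := mog) (C1 := cd0q0) (C2 := cd5q1) (C3 := pd1)
    rfl k0_pp_011

noncomputable def f_pp_012 : ℕ → ℕ → ℕ → ℕ → Bool := onCell 0 536870912 536870912 536870912 1045395039 1503240
    (rowB 3 eng mog cd0q0 cd5q1 pd2 0 true true true .pnp 0 1 2 (qsf 0 536870912 536870912 536870912 2) ndB0q0 ndB5q1 pcB2 Cut.none Ext.none)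

def k0_pp_012 : ∃ t, chk3 f_pp_012 t 1 1 1 = true :=
  ⟨(l 4), by decide +kernel⟩

theorem c_pp_012 : CertB 0 536870912 536870912 536870912 1045395039 1503240 3 eng mog cd0q0 cd5q1 pd2 true true true .pnp 0 1 2
    ndB0q0 ndB5q1 pcB2 Cut.none Ext.none :=
  certB0 (fam := true) (s1 := true) (s2 := true) (a := 0) (b := 1) (c := 2) (cn := .pnp) (n1 := ndB0q0) (n2 := ndB5q1) (pc := pcB2) (cut := Cut.none) (xt := Ext.none) (P1 := 0) (W1 := 536870912) (P2 := 536870912) (W2 := 536870912) (P3 := 1045395039) (W3 := 1503240) (N0 := 3) (En := eng) (mo := mog) (C1 := cd0q0) (C2 := cd5q1) (C3 := pd2)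
    rfl k0_pp_012

noncomputable def f_pp_022 : ℕ → ℕ → ℕ → ℕ → Bool := onCell 0 536870912 1073741824 536870912 1045395039 1503240
    (rowB 3 eng mog cd0q0 cd5q2 pd2 0 true true true .pp 0 2 2 (qsf 0 536870912 1073741824 536870912 2) ndB0q0 ndB5q2 pcB2 Cut.none Ext.none)

def k0_pp_022 : ∃ t, chk3 f_pp_022 t 1 1 1 = true :=
  ⟨(l 4), by decide +kernel⟩

theorem c_pp_022 : CertB 0 536870912 1073741824 536870912 1045395039 1503240 3 eng mog cd0q0 cd5q2 pd2 true true true .pp 0 2 2
    ndB0q0 ndB5q2 pcB2 Cut.none Ext.none :=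
  certB0 (fam := true) (s1 := true) (s2 := true) (a := 0) (b := 2) (c := 2) (cn := .pp) (n1 := ndB0q0) (n2 := ndB5q2) (pc := pcB2) (cut := Cut.none) (xt := Ext.none) (P1 := 0) (W1 := 536870912) (P2 := 1073741824) (W2 := 536870912) (P3 := 1045395039) (W3 := 1503240) (N0 := 3) (En := eng) (mo := mog) (C1 := cd0q0) (C2 := cd5q2) (C3 := pd2)
    rfl k0_pp_022

noncomputable def f_pp_023 : ℕ → ℕ → ℕ → ℕ → Bool := onCell 0 536870912 1073741824 536870912 1045395039 1503240
    (rowB 3 eng mog cd0q0 cd5q2 pd3 0 true true true .up 0 2 3 (qsf 0 536870912 1073741824 536870912 3) ndB0q0 ndB5q2 pcB3 Cut.none Ext.none)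

def k0_pp_023 : ∃ t, chk3 f_pp_023 t 1 1 1 = true :=
  ⟨(l 4), by decide +kernel⟩

theorem c_pp_023 : CertB 0 536870912 1073741824 536870912 1045395039 1503240 3 eng mog cd0q0 cd5q2 pd3 true true true .up 0 2 3
    ndB0q0 ndB5q2 pcB3 Cut.none Ext.none :=
  certB0 (fam := true) (s1 := true) (s2 := true) (a := 0) (b := 2) (c := 3) (cn := .up) (n1 := ndB0q0) (n2 := ndB5q2) (pc := pcB3) (cut := Cut.none) (xt := Ext.none) (P1 := 0) (W1 := 536870912) (P2 := 1073741824) (W2 := 536870912) (P3 := 1045395039) (W3 := 1503240) (N0 := 3) (En := eng) (mo := mog) (C1 := cd0q0) (C2 := cd5q2) (C3 := pd3)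
    rfl k0_pp_023

noncomputable def f_pp_033 : ℕ → ℕ → ℕ → ℕ → Bool := onCell 0 536870912 0 1230186008 1045395039 1503240
    (rowB 3 eng mog cd0q0 cd5q3 pd3 0 true true true .pnn 0 3 3 (qsf 0 536870912 0 1230186008 3) ndB0q0 ndB5q3 pcB3 Cut.none Ext.none)

def k0_pp_033 : ∃ t, chk3 f_pp_033 t 1 1 1 = true :=
  ⟨(b (l 4) (l 4)), by decide +kernel⟩

theorem c_pp_033 : CertB 0 536870912 0 1230186008 1045395039 1503240 3 eng mog cd0q0 cd5q3 pd3 true true true .pnn 0 3 3
    ndB0q0 ndB5q3 pcB3 Cut.none Ext.none :=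
  certB0 (fam := true) (s1 := true) (s2 := true) (a := 0) (b := 3) (c := 3) (cn := .pnn) (n1 := ndB0q0) (n2 := ndB5q3) (pc := pcB3) (cut := Cut.none) (xt := Ext.none) (P1 := 0) (W1 := 536870912) (P2 := 0) (W2 := 1230186008) (P3 := 1045395039) (W3 := 1503240) (N0 := 3) (En := eng) (mo := mog) (C1 := cd0q0) (C2 := cd5q3) (C3 := pd3)
    rfl k0_pp_033

noncomputable def f_pp_101 : ℕ → ℕ → ℕ → ℕ → Bool := onCell 536870912 536870912 0 536870912 1045395039 1503240
    (rowB 3 eng mog cd0q1 cd5q0 pd1 0 true true true .npn 1 0 1 (qsf 536870912 536870912 0 536870912 1) ndB0q1 ndB5q0 pcB1 Cut.none Ext.none)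

def k0_pp_101 : ∃ t, chk3 f_pp_101 t 1 1 1 = true :=
  ⟨(l 4), by decide +kernel⟩

theorem c_pp_101 : CertB 536870912 536870912 0 536870912 1045395039 1503240 3 eng mog cd0q1 cd5q0 pd1 true true true .npn 1 0 1
    ndB0q1 ndB5q0 pcB1 Cut.none Ext.none :=
  certB0 (fam := true) (s1 := true) (s2 := true) (a := 1) (b := 0) (c := 1) (cn := .npn) (n1 := ndB0q1) (n2 := ndB5q0) (pc := pcB1) (cut := Cut.none) (xt := Ext.none) (P1 := 536870912) (W1 := 536870912) (P2 := 0) (W2 := 536870912) (P3 := 1045395039) (W3 := 1503240) (N0 := 3) (En := eng) (mo := mog) (C1 := cd0q1) (C2 := cd5q0) (C3 := pd1)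
    rfl k0_pp_101

noncomputable def f_pp_102 : ℕ → ℕ → ℕ → ℕ → Bool := onCell 536870912 536870912 0 536870912 1045395039 1503240
    (rowB 3 eng mog cd0q1 cd5q0 pd2 0 true true true .npp 1 0 2 (qsf 536870912 536870912 0 536870912 2) ndB0q1 ndB5q0 pcB2 Cut.none Ext.none)

def k0_pp_102 : ∃ t, chk3 f_pp_102 t 1 1 1 = true :=
  ⟨(l 4), by decide +kernel⟩

theorem c_pp_102 : CertB 536870912 536870912 0 536870912 1045395039 1503240 3 eng mog cd0q1 cd5q0 pd2 true true true .npp 1 0 2
    ndB0q1 ndB5q0 pcB2 Cut.none Ext.none :=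
  certB0 (fam := true) (s1 := true) (s2 := true) (a := 1) (b := 0) (c := 2) (cn := .npp) (n1 := ndB0q1) (n2 := ndB5q0) (pc := pcB2) (cut := Cut.none) (xt := Ext.none) (P1 := 536870912) (W1 := 536870912) (P2 := 0) (W2 := 536870912) (P3 := 1045395039) (W3 := 1503240) (N0 := 3) (En := eng) (mo := mog) (C1 := cd0q1) (C2 := cd5q0) (C3 := pd2)
    rfl k0_pp_102

noncomputable def f_pp_112 : ℕ → ℕ → ℕ → ℕ → Bool := onCell 536870912 536870912 536870912 536870912 1045395039 1503240
    (rowB 3 eng mog cd0q1 cd5q1 pd2 0 true true true .dn 1 1 2 (qsf 536870912 536870912 536870912 536870912 2) ndB0q1 ndB5q1 pcB2 Cut.none Ext.none)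

def k0_pp_112 : ∃ t, chk3 f_pp_112 t 1 1 1 = true :=
  ⟨(l 4), by decide +kernel⟩

theorem c_pp_112 : CertB 536870912 536870912 536870912 536870912 1045395039 1503240 3 eng mog cd0q1 cd5q1 pd2 true true true .dn 1 1 2
    ndB0q1 ndB5q1 pcB2 Cut.none Ext.none :=
  certB0 (fam := true) (s1 := true) (s2 := true) (a := 1) (b := 1) (c := 2) (cn := .dn) (n1 := ndB0q1) (n2 := ndB5q1) (pc := pcB2) (cut := Cut.none) (xt := Ext.none) (P1 := 536870912) (W1 := 536870912) (P2 := 536870912) (W2 := 536870912) (P3 := 1045395039) (W3 := 1503240) (N0 := 3) (En := eng) (mo := mog) (C1 := cd0q1) (C2 := cd5q1) (C3 := pd2)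
    rfl k0_pp_112

noncomputable def f_pp_113 : ℕ → ℕ → ℕ → ℕ → Bool := onCell 536870912 536870912 536870912 536870912 1045395039 1503240
    (rowB 3 eng mog cd0q1 cd5q1 pd3 0 true true true .nn 1 1 3 (qsf 536870912 536870912 536870912 536870912 3) ndB0q1 ndB5q1 pcB3 Cut.none Ext.none)

def k0_pp_113 : ∃ t, chk3 f_pp_113 t 1 1 1 = true :=
  ⟨(l 4), by decide +kernel⟩

theorem c_pp_113 : CertB 536870912 536870912 536870912 536870912 1045395039 1503240 3 eng mog cd0q1 cd5q1 pd3 true true true .nn 1 1 3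
    ndB0q1 ndB5q1 pcB3 Cut.none Ext.none :=
  certB0 (fam := true) (s1 := true) (s2 := true) (a := 1) (b := 1) (c := 3) (cn := .nn) (n1 := ndB0q1) (n2 := ndB5q1) (pc := pcB3) (cut := Cut.none) (xt := Ext.none) (P1 := 536870912) (W1 := 536870912) (P2 := 536870912) (W2 := 536870912) (P3 := 1045395039) (W3 := 1503240) (N0 := 3) (En := eng) (mo := mog) (C1 := cd0q1) (C2 := cd5q1) (C3 := pd3)
    rfl k0_pp_113

noncomputable def f_pp_123 : ℕ → ℕ → ℕ → ℕ → Bool := onCell 536870912 536870912 1073741824 536870912 1045395039 1503240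
    (rowB 3 eng mog cd0q1 cd5q2 pd3 0 true true true .npn 1 2 3 (qsf 536870912 536870912 1073741824 536870912 3) ndB0q1 ndB5q2 pcB3 Cut.none Ext.none)

def k0_pp_123 : ∃ t, chk3 f_pp_123 t 1 1 1 = true :=
  ⟨(l 4), by decide +kernel⟩

theorem c_pp_123 : CertB 536870912 536870912 1073741824 536870912 1045395039 1503240 3 eng mog cd0q1 cd5q2 pd3 true true true .npn 1 2 3
    ndB0q1 ndB5q2 pcB3 Cut.none Ext.none :=
  certB0 (fam := true) (s1 := true) (s2 := true) (a := 1) (b := 2) (c := 3) (cn := .npn) (n1 := ndB0q1) (n2 := ndB5q2) (pc := pcB3) (cut := Cut.none) (xt := Ext.none) (P1 := 536870912) (W1 := 536870912) (P2 := 1073741824) (W2 := 536870912) (P3 := 1045395039) (W3 := 1503240) (N0 := 3) (En := eng) (mo := mog) (C1 := cd0q1) (C2 := cd5q2) (C3 := pd3)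
    rfl k0_pp_123

noncomputable def f_pp_133 : ℕ → ℕ → ℕ → ℕ → Bool := onCell 536870912 536870912 0 1230186008 1045395039 1503240
    (rowB 3 eng mog cd0q1 cd5q3 pd3 0 true true true .dn 1 3 3 (qsf 536870912 536870912 0 1230186008 3) ndB0q1 ndB5q3 pcB3 Cut.none Ext.none)

def k0_pp_133 : ∃ t, chk3 f_pp_133 t 1 1 1 = true :=
  ⟨(l 4), by decide +kernel⟩

theorem c_pp_133 : CertB 536870912 536870912 0 1230186008 1045395039 1503240 3 eng mog cd0q1 cd5q3 pd3 true true true .dn 1 3 3
    ndB0q1 ndB5q3 pcB3 Cut.none Ext.none :=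
  certB0 (fam := true) (s1 := true) (s2 := true) (a := 1) (b := 3) (c := 3) (cn := .dn) (n1 := ndB0q1) (n2 := ndB5q3) (pc := pcB3) (cut := Cut.none) (xt := Ext.none) (P1 := 536870912) (W1 := 536870912) (P2 := 0) (W2 := 1230186008) (P3 := 1045395039) (W3 := 1503240) (N0 := 3) (En := eng) (mo := mog) (C1 := cd0q1) (C2 := cd5q3) (C3 := pd3)
    rfl k0_pp_133

noncomputable def f_pp_202 : ℕ → ℕ → ℕ → ℕ → Bool := onCell 0 536870912 0 536870912 1045395039 1503240
    (rowB 3 eng mog cd0q2 cd5q0 pd2 0 true true true .pp 2 0 2 (qsf 0 536870912 0 536870912 2) ndB0q2 ndB5q0 pcB2 Cut.none Ext.none)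

def k0_pp_202 : ∃ t, chk3 f_pp_202 t 1 1 1 = true :=
  ⟨(l 4), by decide +kernel⟩

theorem c_pp_202 : CertB 0 536870912 0 536870912 1045395039 1503240 3 eng mog cd0q2 cd5q0 pd2 true true true .pp 2 0 2
    ndB0q2 ndB5q0 pcB2 Cut.none Ext.none :=
  certB0 (fam := true) (s1 := true) (s2 := true) (a := 2) (b := 0) (c := 2) (cn := .pp) (n1 := ndB0q2) (n2 := ndB5q0) (pc := pcB2) (cut := Cut.none) (xt := Ext.none) (P1 := 0) (W1 := 536870912) (P2 := 0) (W2 := 536870912) (P3 := 1045395039) (W3 := 1503240) (N0 := 3) (En := eng) (mo := mog) (C1 := cd0q2) (C2 := cd5q0) (C3 := pd2)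
    rfl k0_pp_202

noncomputable def f_pp_203 : ℕ → ℕ → ℕ → ℕ → Bool := onCell 0 536870912 0 536870912 1045395039 1503240
    (rowB 3 eng mog cd0q2 cd5q0 pd3 0 true true true .up 2 0 3 (qsf 0 536870912 0 536870912 3) ndB0q2 ndB5q0 pcB3 Cut.none Ext.none)

def k0_pp_203 : ∃ t, chk3 f_pp_203 t 1 1 1 = true :=
  ⟨(l 4), by decide +kernel⟩

theorem c_pp_203 : CertB 0 536870912 0 536870912 1045395039 1503240 3 eng mog cd0q2 cd5q0 pd3 true true true .up 2 0 3
    ndB0q2 ndB5q0 pcB3 Cut.none Ext.none :=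
  certB0 (fam := true) (s1 := true) (s2 := true) (a := 2) (b := 0) (c := 3) (cn := .up) (n1 := ndB0q2) (n2 := ndB5q0) (pc := pcB3) (cut := Cut.none) (xt := Ext.none) (P1 := 0) (W1 := 536870912) (P2 := 0) (W2 := 536870912) (P3 := 1045395039) (W3 := 1503240) (N0 := 3) (En := eng) (mo := mog) (C1 := cd0q2) (C2 := cd5q0) (C3 := pd3)
    rfl k0_pp_203

noncomputable def f_pp_213 : ℕ → ℕ → ℕ → ℕ → Bool := onCell 0 536870912 536870912 536870912 1045395039 1503240
    (rowB 3 eng mog cd0q2 cd5q1 pd3 0 true true true .pnn 2 1 3 (qsf 0 536870912 536870912 536870912 3) ndB0q2 ndB5q1 pcB3 Cut.none Ext.none)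

def k0_pp_213 : ∃ t, chk3 f_pp_213 t 1 1 1 = true :=
  ⟨(l 4), by decide +kernel⟩

theorem c_pp_213 : CertB 0 536870912 536870912 536870912 1045395039 1503240 3 eng mog cd0q2 cd5q1 pd3 true true true .pnn 2 1 3
    ndB0q2 ndB5q1 pcB3 Cut.none Ext.none :=
  certB0 (fam := true) (s1 := true) (s2 := true) (a := 2) (b := 1) (c := 3) (cn := .pnn) (n1 := ndB0q2) (n2 := ndB5q1) (pc := pcB3) (cut := Cut.none) (xt := Ext.none) (P1 := 0) (W1 := 536870912) (P2 := 536870912) (W2 := 536870912) (P3 := 1045395039) (W3 := 1503240) (N0 := 3) (En := eng) (mo := mog) (C1 := cd0q2) (C2 := cd5q1) (C3 := pd3)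
    rfl k0_pp_213

noncomputable def f_pm_001 : ℕ → ℕ → ℕ → ℕ → Bool := onCell 0 536870912 536870912 536870912 1045395039 1503240
    (rowB 3 eng mog cd0q0 cd5q0 pd1 1 true true false .up 0 0 1 (qsf 0 536870912 0 536870912 1) ndB0q0 ndB5q0 pcB1 Cut.none Ext.none)

def k0_pm_001 : ∃ t, chk3 f_pm_001 t 1 1 1 = true :=
  ⟨(b (l 3) (a (b (l 3) (l 2)) (a (b (l 3) (b (a (l 2) (a (l 2) (a (l 2) (b (b (l 282024397703) (l 2)) (l 2))))) (l 2))) (b (b (l 3) (a (b (l 3) (a (b (l 3) (b (l 3) (a (l 258402063943) (l 265381310759)))) (a (b (l 3) (a (l 258401946919) (l 260012529095))) (b (l 323900178359) (l 252496320711))))) (b (a (l 3) (b (l 3) (l 410336297079))) (a (b (a (l 231558340455) (l 227263365847)) (a (l 16349104) (l 16328080))) (b (l 251422415351) (l 16303384)))))) (b (a (b (a (b (b (a (l 189682608855) (l 16424464)) (l 16418312)) (l 16434496)) (b (l 16346784) (l 16352056))) (a (l 16432904) (l 16337056))) (b (a (l 16296600) (l 16248408)) (l 16137352))) (b (a (l 16385840)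 (l 16189672)) (a (l 2) (b (l 16178128) (l 16176304))))))))), by decide +kernel⟩

theorem c_pm_001 : CertB 0 536870912 0 536870912 1045395039 1503240 3 eng mog cd0q0 cd5q0 pd1 true true false .up 0 0 1
    ndB0q0 ndB5q0 pcB1 Cut.none Ext.none :=
  certB1 (fam := true) (s1 := true) (s2 := false) (a := 0) (b := 0) (c := 1) (cn := .up) (n1 := ndB0q0) (n2 := ndB5q0) (pc := pcB1) (cut := Cut.none) (xt := Ext.none) (P1 := 0) (W1 := 536870912) (P2 := 0) (W2 := 536870912) (P3 := 1045395039) (W3 := 1503240) (N0 := 3) (En := eng) (mo := mog) (C1 := cd0q0) (C2 := cd5q0) (C3 := pd1)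
    rfl (fun _ => rfl) k0_pm_001

noncomputable def cut_pm_011 : Cut := Cut.of [[⟨0, 0, 0, 26843545⟩, ⟨1, 1, 0, 26843545⟩, ⟨2, 1, 0, 26843545⟩]]

noncomputable def f_pm_011 : ℕ → ℕ → ℕ → ℕ → Bool := onCell 0 536870912 536870912 536870912 1045395039 1503240
    (rowB 3 eng mog cd0q0 cd5q1 pd1 1 true true false .pnn 0 1 1 (qsf 0 536870912 536870912 536870912 1) ndB0q0 ndB5q1 pcB1 cut_pm_011 Ext.none)

def k0_pm_011 : ∃ t, chk3 f_pm_011 t 1 2 1 = true :=
  ⟨(l 3), by decide +kernel⟩

def k1_pm_011 : ∃ t, chk3 f_pm_011 t 2 6 1 = true :=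
  ⟨(l 3), by decide +kernel⟩

def k2_pm_011 : ∃ t, chk3 f_pm_011 t 4 14 1 = true :=
  ⟨(l 3), by decide +kernel⟩

def k3_pm_011 : ∃ t, chk3 f_pm_011 t 8 15 1 = true :=
  ⟨(b (l 3) (a (b (l 3) (a (b (l 3) (l 6)) (b (a (l 3) (b (l 3) (b (l 3) (a (a (l 3) (l 148880955847)) (a (l 128479854679) (l 154786524087)))))) (a (a (b (b (a (l 3) (l 146733499143)) (b (a (l 6) (l 16757352)) (l 6))) (l 6)) (b (b (a (l 139754169271) (l 135996063831)) (a (l 16757824) (l 16753552))) (b (l 16731120) (l 16727032)))) (b (a (b (a (l 162839601143) (l 16748384)) (l 16747224)) (b (l 16732896) (l 16740256))) (a (b (l 16743616) (l 16739504)) (l 16724144))))))) (b (b (l 3) (a (l 3) (b (l 3) (a (b (l 3) (a (l 3) (l 131701047639))) (b (a (l 93046352743) (l 148344043703)) (a (l 145659685815) (l 16726304))))))) (b (a (b (a (b (l 3) (a (l 3) (l 85530175175))) (b (a (l 3) (l 99488808967)) (a (l 132237928551) (l 16732520)))) (a (b (a (l 134385424519) (l 154786510423)) (a (l 16740856) (l 16736360)))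 (b (a (l 16734384) (l 16730544)) (l 16730208)))) (b (a (b (a (l 152102142775) (l 16728376)) (l 16727416)) (b (l 16724192) (l 16721608))) (a (b (l 16725360) (l 16723048)) (l 16718232)))) (a (b (a (a (l 16736688) (l 16732144)) (l 16725912)) (a (b (l 16729064) (l 16724920)) (l 16718504))) (b (a (l 16718656) (l 16712592)) (l 16687056))))))), by decide +kernel⟩

def k4_pm_011 : ∃ t, chk3 f_pm_011 t 9 15 1 = true :=
  ⟨(b (a (l 3) (b (l 3) (b (l 3) (a (b (l 3) (a (l 283635513399) (l 16704528))) (l 182703699031))))) (b (a (b (a (a (l 3) (b (l 3) (a (l 3) (l 199883666679)))) (b (a (l 3) (l 175724459751)) (a (a (l 142438465111) (l 163913297959)) (l 16728904)))) (a (b (a (b (a (l 3) (l 141901599383)) (a (l 133848532071) (l 164987040279))) (a (a (l 160155199479) (l 173040099319)) (l 187535609751))) (a (b (a (l 186461873735) (l 16725504)) (l 16722816)) (b (l 16722392) (l 16718568)))) (b (a (l 16713904) (l 16720584)) (a (l 16695368) (l 16712488))))) (b (a (a (b (l 16731704)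 (l 16724232)) (l 16714640)) (l 16674480)) (a (b (l 16709680) (l 16701536)) (l 16681016)))) (a (b (a (b (a (l 16717992) (l 16713672)) (l 16710984)) (b (l 16707696) (l 16702568))) (a (a (l 16682920) (l 16699248)) (l 16691624))) (b (a (l 16685904) (l 16639416)) (a (l 16644288) (l 16639984)))))), by decide +kernel⟩

def k5_pm_011 : ∃ t, chk3 f_pm_011 t 5 7 1 = true :=
  ⟨(b (b (l 3) (a (l 3) (a (b (l 3) (b (l 3) (a (l 358260321239) (l 336248557159)))) (b (b (l 3) (a (l 3) (l 330342967127))) (b (a (l 333564222055) (l 285782609095)) (a (l 16570128) (l 16541984))))))) (b (a (a (b (b (l 3) (l 542944022055)) (a (b (l 16676176) (l 16683816)) (l 16643072))) (b (b (l 346986053031) (l 16621192)) (l 16602376))) (a (b (b (l 205788890951) (l 16586400)) (l 16567304)) (b (l 16493976) (l 16509592)))) (b (a (b (a (l 16636064) (l 16603088)) (a (l 16600672) (l 16588576))) (b (l 16475248) (l 16439408))) (a (a (b (l 16601304) (l 16602216)) (l 16474496)) (a (l 16460016) (l 16443440)))))),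 by decide +kernel⟩

def k6_pm_011 : ∃ t, chk3 f_pm_011 t 3 3 1 = true :=
  ⟨(b (a (l 3) (b (l 1) (a (a (a (a (l 3) (l 1)) (l 1)) (l 1)) (l 1)))) (b (a (a (b (a (l 3) (b (l 3) (b (l 3) (a (l 297593726855) (l 292761833879))))) (b (a (b (a (l 3) (l 309404915415)) (a (l 317458008199) (l 16523248))) (b (a (l 243906633239) (l 16471392)) (l 16471520))) (a (b (a (l 16527376) (l 16499456)) (l 16499512)) (l 16450096)))) (b (b (a (b (l 3) (a (l 3) (l 276655654599))) (b (a (l 3) (l 272360614215)) (a (l 270213152807) (l 266991887207)))) (a (b (a (l 282024388983) (l 260012644887)) (a (l 252496480311) (l 16432088))) (a (b (l 16420048) (l 16406624)) (l 16388624)))) (b (a (a (l 16437848) (l 16411280)) (l 16372072)) (a (l 16394664) (l 16340448))))) (a (b (a (b (b (a (l 258938800343) (l 1)) (l 16373720)) (l 16352384)) (l 324839403159)) (a (l 16303728) (l 16254536))) (b (l 1) (l 16143752)))) (b (a (a (a (b (l 16478480) (l 16450904)) (l 16364368)) (a (l 16348488) (l 16291728)))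 (a (l 16167656) (l 16109376))) (a (b (a (b (l 16398472) (l 16382792)) (l 16188880)) (a (a (l 16383576) (l 16323096)) (l 16232416))) (a (b (l 16157800) (l 16116456)) (b (l 16052640) (l 16010376))))))), by decide +kernel⟩

theorem s7_pm_011 : ∃ t, chk3 f_pm_011 t 4 15 1 = true := ex3_a k3_pm_011 k4_pm_011

theorem s8_pm_011 : ∃ t, chk3 f_pm_011 t 4 7 1 = true := ex3_b k2_pm_011 s7_pm_011

theorem s9_pm_011 : ∃ t, chk3 f_pm_011 t 2 7 1 = true := ex3_a s8_pm_011 k5_pm_011

theorem s10_pm_011 : ∃ t, chk3 f_pm_011 t 2 3 1 = true := ex3_b k1_pm_011 s9_pm_011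

theorem s11_pm_011 : ∃ t, chk3 f_pm_011 t 1 3 1 = true := ex3_a s10_pm_011 k6_pm_011

theorem s12_pm_011 : ∃ t, chk3 f_pm_011 t 1 1 1 = true := ex3_b k0_pm_011 s11_pm_011

theorem c_pm_011 : CertB 0 536870912 536870912 536870912 1045395039 1503240 3 eng mog cd0q0 cd5q1 pd1 true true false .pnn 0 1 1
    ndB0q0 ndB5q1 pcB1 cut_pm_011 Ext.none :=
  certB1 (fam := true) (s1 := true) (s2 := false) (a := 0) (b := 1) (c := 1) (cn := .pnn) (n1 := ndB0q0) (n2 := ndB5q1) (pc := pcB1) (cut := cut_pm_011) (xt := Ext.none) (P1 := 0) (W1 := 536870912) (P2 := 536870912) (W2 := 536870912) (P3 := 1045395039) (W3 := 1503240) (N0 := 3) (En := eng) (mo := mog) (C1 := cd0q0) (C2 := cd5q1) (C3 := pd1)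
    rfl (fun _ => rfl) s12_pm_011

end Pool.Agent.Strip051.G.I9736_9750.Tab.C.BA05

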