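import Pool.Agent.Strip051.G.I9736_9750.Tab
import Pool.Agent.Strip051.PB.ExtD3

/-! # Certificates B12 (generated) -/

set_option linter.all false
set_option maxRecDepth 100000

namespace Pool.Agent.Strip051.G.I9736_9750.Tab.C.BB01

open Pool.Agent.Strip051.PB Pool.Agent.Strip051.PB.T
open Pool.Agent.Strip051.G.I9736_9750.Tab

noncomputable def f_pp_033 : ℕ → ℕ → ℕ → ℕ → Bool := onCell 0 536870912 1610612736 536870912 1045395039 1503240
    (rowB 3 eng mog cd0q0 cd1q3 pd3 1 false true true .pnn 0 3 3 (qsf 0 536870912 1610612736 536870912 3) ndB0q0 ndB1q3 pcB3 Cut.none Ext.none)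

def k0_pp_033 : ∃ t, chk3 f_pp_033 t 1 1 1 = true :=
  ⟨(a (b (a (a (b (a (b (l 15420632) (l 15305584)) (b (l 15547552) (l 15434560))) (b (a (l 15168752) (l 15307320)) (a (l 15033824) (l 15189232)))) (b (b (l 15682184) (l 15573512)) (b (l 15462488) (l 4)))) (b (b (l 15887400) (l 15793672)) (b (l 15723600) (l 4)))) (a (l 4) (b (l 4) (a (b (l 4) (l 2)) (l 2))))) (b (a (b (b (l 16001032) (a (l 15953464) (l 16037728))) (b (l 15840568) (l 4))) (b (b (l 16168216) (l 16167120)) (a (b (l 16275824) (l 2)) (l 2)))) (a (b (a (b (l 4) (l 2)) (l 2)) (l 2)) (l 2)))), by decide +kernel⟩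

theorem c_pp_033 : CertB 0 536870912 1610612736 536870912 1045395039 1503240 3 eng mog cd0q0 cd1q3 pd3 false true true .pnn 0 3 3
    ndB0q0 ndB1q3 pcB3 Cut.none Ext.none :=
  certB1 (fam := false) (s1 := true) (s2 := true) (a := 0) (b := 3) (c := 3) (cn := .pnn) (n1 := ndB0q0) (n2 := ndB1q3) (pc := pcB3) (cut := Cut.none) (xt := Ext.none) (P1 := 0) (W1 := 536870912) (P2 := 1610612736) (W2 := 536870912) (P3 := 1045395039) (W3 := 1503240) (N0 := 3) (En := eng) (mo := mog) (C1 := cd0q0) (C2 := cd1q3) (C3 := pd3)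
    rfl (fun _ => rfl) k0_pp_033

noncomputable def f_pp_101 : ℕ → ℕ → ℕ → ℕ → Bool := onCell 536870912 536870912 536870912 536870912 1045395039 1503240
    (rowB 3 eng mog cd0q1 cd1q1 pd0 0 false true true .npn 1 0 1 (qsf 536870912 536870912 536870912 536870912 0) ndB0q1 ndB1q1 pcB0 Cut.none Ext.none)

def k0_pp_101 : ∃ t, chk3 f_pp_101 t 1 1 1 = true :=
  ⟨(l 3), by decide +kernel⟩

theorem c_pp_101 : CertB 536870912 536870912 536870912 536870912 1045395039 1503240 3 eng mog cd0q1 cd1q1 pd0 false true true .npn 1 0 1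
    ndB0q1 ndB1q1 pcB0 Cut.none Ext.none :=
  certB0 (fam := false) (s1 := true) (s2 := true) (a := 1) (b := 0) (c := 1) (cn := .npn) (n1 := ndB0q1) (n2 := ndB1q1) (pc := pcB0) (cut := Cut.none) (xt := Ext.none) (P1 := 536870912) (W1 := 536870912) (P2 := 536870912) (W2 := 536870912) (P3 := 1045395039) (W3 := 1503240) (N0 := 3) (En := eng) (mo := mog) (C1 := cd0q1) (C2 := cd1q1) (C3 := pd0)
    rfl k0_pp_101

noncomputable def f_pp_102_a : ℕ → ℕ → ℕ → ℕ → Bool := onCell 0 536870912 0 536870912 1045395039 1503240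
    (rowB 3 eng mog cd0q1 cd1q2a pd0 2 false true true .npp 1 0 2 (qsf 536870912 536870912 0 536870912 0) ndB0q1 ndB1q2a pcB0 Cut.none Ext.none)

def k0_pp_102_a : ∃ t, chk3 f_pp_102_a t 1 1 1 = true :=
  ⟨(a (l 3) (l 3)), by decide +kernel⟩

theorem c_pp_102_a : CertB 536870912 536870912 0 536870912 1045395039 1503240 3 eng mog cd0q1 cd1q2a pd0 false true true .npp 1 0 2
    ndB0q1 ndB1q2a pcB0 Cut.none Ext.none :=
  certB2 (fam := false) (s1 := true) (s2 := true) (a := 1) (b := 0) (c := 2) (cn := .npp) (n1 := ndB0q1) (n2 := ndB1q2a) (pc := pcB0) (cut := Cut.none) (xt := Ext.none) (P1 := 536870912) (W1 := 536870912) (P2 := 0) (W2 := 536870912) (P3 := 1045395039) (W3 := 1503240) (N0 := 3) (En := eng) (mo := mog) (C1 := cd0q1) (C2 := cd1q2a) (C3 := pd0)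
    rfl (fun _ => rfl) k0_pp_102_a

noncomputable def f_pp_102_b : ℕ → ℕ → ℕ → ℕ → Bool := onCell 536870912 536870912 0 536870912 1045395039 1503240
    (rowB 3 eng mog cd0q1 cd1q2b pd0 1 false true true .npp 1 0 2 (qsf 536870912 536870912 1239849684 370763052 0) ndB0q1 ndB1q2b pcB0 Cut.none Ext.none)

def k0_pp_102_b : ∃ t, chk3 f_pp_102_b t 1 1 1 = true :=
  ⟨(l 3), by decide +kernel⟩

theorem c_pp_102_b : CertB 536870912 536870912 1239849684 370763052 1045395039 1503240 3 eng mog cd0q1 cd1q2b pd0 false true true .npp 1 0 2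
    ndB0q1 ndB1q2b pcB0 Cut.none Ext.none :=
  certB1 (fam := false) (s1 := true) (s2 := true) (a := 1) (b := 0) (c := 2) (cn := .npp) (n1 := ndB0q1) (n2 := ndB1q2b) (pc := pcB0) (cut := Cut.none) (xt := Ext.none) (P1 := 536870912) (W1 := 536870912) (P2 := 1239849684) (W2 := 370763052) (P3 := 1045395039) (W3 := 1503240) (N0 := 3) (En := eng) (mo := mog) (C1 := cd0q1) (C2 := cd1q2b) (C3 := pd0)
    rfl (fun _ => rfl) k0_pp_102_b

noncomputable def f_pp_112_a : ℕ → ℕ → ℕ → ℕ → Bool := onCell 536870912 536870912 0 536870912 1045395039 1503240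
    (rowB 3 eng mog cd0q1 cd1q2a pd1 0 false true true .dn 1 1 2 (qsf 536870912 536870912 0 536870912 1) ndB0q1 ndB1q2a pcB1 Cut.none Ext.none)

def k0_pp_112_a : ∃ t, chk3 f_pp_112_a t 1 1 1 = true :=
  ⟨(a (b (l 3) (l 3)) (l 1)), by decide +kernel⟩

theorem c_pp_112_a : CertB 536870912 536870912 0 536870912 1045395039 1503240 3 eng mog cd0q1 cd1q2a pd1 false true true .dn 1 1 2
    ndB0q1 ndB1q2a pcB1 Cut.none Ext.none :=
  certB0 (fam := false) (s1 := true) (s2 := true) (a := 1) (b := 1) (c := 2) (cn := .dn) (n1 := ndB0q1) (n2 := ndB1q2a) (pc := pcB1) (cut := Cut.none) (xt := Ext.none) (P1 := 536870912) (W1 := 536870912) (P2 := 0) (W2 := 536870912) (P3 := 1045395039) (W3 := 1503240) (N0 := 3) (En := eng) (mo := mog) (C1 := cd0q1) (C2 := cd1q2a) (C3 := pd1)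
    rfl k0_pp_112_a

noncomputable def f_pp_112_b : ℕ → ℕ → ℕ → ℕ → Bool := onCell 536870912 536870912 536870912 536870912 1045395039 1503240
    (rowB 3 eng mog cd0q1 cd1q2b pd1 1 false true true .dn 1 1 2 (qsf 536870912 536870912 1239849684 370763052 1) ndB0q1 ndB1q2b pcB1 Cut.none Ext.none)

def k0_pp_112_b : ∃ t, chk3 f_pp_112_b t 1 1 1 = true :=
  ⟨(a (a (b (b (l 3) (b (l 3) (a (b (l 3) (a (b (l 16587432) (l 16560560)) (l 16491696))) (l 3)))) (b (b (a (b (a (l 16518472) (l 16453520)) (l 16415896)) (b (l 16321864) (l 16296304))) (a (b (l 16326688) (l 16218512)) (b (l 16215552) (l 16114744)))) (b (a (b (l 16092936) (l 15952776)) (b (l 15995120) (l 15859152))) (b (a (l 15810472) (l 15713512)) (a (l 15694192) (l 2)))))) (b (l 3) (b (b (a (b (l 3) (l 16184168)) (l 3)) (a (b (l 16107128) (l 16015008)) (b (l 16003520) (l 2)))) (b (a (b (l 15902760) (l 2)) (l 2)) (l 2))))) (b (l 3) (b (b (l 3) (l 2)) (l 2)))), by decide +kernel⟩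

theorem c_pp_112_b : CertB 536870912 536870912 1239849684 370763052 1045395039 1503240 3 eng mog cd0q1 cd1q2b pd1 false true true .dn 1 1 2
    ndB0q1 ndB1q2b pcB1 Cut.none Ext.none :=
  certB1 (fam := false) (s1 := true) (s2 := true) (a := 1) (b := 1) (c := 2) (cn := .dn) (n1 := ndB0q1) (n2 := ndB1q2b) (pc := pcB1) (cut := Cut.none) (xt := Ext.none) (P1 := 536870912) (W1 := 536870912) (P2 := 1239849684) (W2 := 370763052) (P3 := 1045395039) (W3 := 1503240) (N0 := 3) (En := eng) (mo := mog) (C1 := cd0q1) (C2 := cd1q2b) (C3 := pd1)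
    rfl (fun _ => rfl) k0_pp_112_b

noncomputable def cut_pp_113 : Cut := Cut.of [[⟨0, 1, 0, 14155776⟩, ⟨1, 1, 0, 14155776⟩, ⟨2, 2, 0, 524288⟩]]

noncomputable def xt_pp_113 : Ext := extD3 3 ⟨4, 1, 1, 5, 33, 5, 163, 200, 81, 200, 1, 64⟩ eng cd0q1 cd1q3 pd1 false true true .nn 1 1 3 rfl ndB0q1 ndB1q3 pcB1

noncomputable def f_pp_113 : ℕ → ℕ → ℕ → ℕ → Bool := onCell 536870912 536870912 536870912 536870912 1045395039 1503240
    (rowB 3 eng mog cd0q1 cd1q3 pd1 1 false true true .nn 1 1 3 (qsf 536870912 536870912 1610612736 536870912 1) ndB0q1 ndB1q3 pcB1 cut_pp_113 xt_pp_113)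

def k0_pp_113 : ∃ t, chk3 f_pp_113 t 2 1 1 = true :=
  ⟨(a (b (l 1) (b (b (l 1) (a (l 1) (l 162166579111))) (b (a (l 265782240903) (b (l 15822152) (l 15658864))) (b (a (l 15561816) (l 15485576)) (a (l 15413448) (l 15322776)))))) (b (l 3) (b (b (a (b (l 1) (l 16104352)) (l 3)) (a (b (l 16005896) (l 15891280)) (b (l 15932824) (l 15825744)))) (b (a (b (l 15755832) (l 15601736)) (b (l 15702376) (l 15559288))) (b (a (l 15436888) (l 15404688)) (a (l 15270256) (b (l 15284304) (l 15199968)))))))), by decide +kernel⟩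

def k1_pp_113 : ∃ t, chk3 f_pp_113 t 3 2 1 = true :=
  ⟨(l 3), by decide +kernel⟩

def k2_pp_113 : ∃ t, chk3 f_pp_113 t 3 6 1 = true :=
  ⟨(a (b (l 3) (a (b (l 3) (l 15770032)) (l 3))) (l 3)), by decide +kernel⟩

def k3_pp_113 : ∃ t, chk3 f_pp_113 t 6 7 1 = true :=
  ⟨(b (a (b (l 15656688) (l 15527176)) (b (a (l 15627040) (l 3)) (a (l 15508888) (l 15501152)))) (b (a (l 15386352) (a (l 15383296) (l 15389344))) (a (b (l 15275992) (l 15195520)) (b (b (l 15307192) (l 15274864)) (l 15305512))))), by decide +kernel⟩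

def k4_pp_113 : ∃ t, chk3 f_pp_113 t 7 14 1 = true :=
  ⟨(a (a (b (l 3) (b (l 3) (l 15476424))) (l 3)) (l 3)), by decide +kernel⟩

def k5_pp_113 : ∃ t, chk3 f_pp_113 t 14 15 1 = true :=
  ⟨(b (a (b (l 15429320) (l 15385792)) (b (l 175722212951) (l 15521032))) (b (b (a (l 15353136) (l 15426424)) (a (l 15331384) (l 15422296))) (a (l 15293712) (a (l 15374976) (l 15466128))))), by decide +kernel⟩

def k6_pp_113 : ∃ t, chk3 f_pp_113 t 15 30 1 = true :=
  ⟨(a (a (b (l 3) (l 276117050711)) (l 3)) (l 3)), by decide +kernel⟩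

def k7_pp_113 : ∃ t, chk3 f_pp_113 t 30 31 1 = true :=
  ⟨(b (b (a (l 15536904) (l 399597506311)) (a (l 15562904) (a (l 15680640) (l 133529603498180623)))) (a (b (l 15594392) (l 15639104)) (b (l 15820952) (l 15946504)))), by decide +kernel⟩

def k8_pp_113 : ∃ t, chk3 f_pp_113 t 31 62 1 = true :=
  ⟨(a (a (b (l 3) (l 5399062710533998553709740047)) (l 3)) (l 3)), by decide +kernel⟩

def k9_pp_113 : ∃ t, chk3 f_pp_113 t 62 63 1 = true :=
  ⟨(a (b (l 137057455950364687) (l 16395432)) (b (a (b (b (l 349132785511) (l 3793609222089812815208202319)) (l 140574244546445391)) (b (l 8726026566118988174728609999) (b (a (b (l 2797454346729741429870084303) (l 2565340589364371857020780751)) (b (l 3) (a (c (l 2391255271341214631594082511) (l 2487969336910098886334939343)) (b (l 3) (a (b (l 3) (l 2091441668077122016046137551)) (l 3)))))) (a (l 16672904) (a (l 16758144) (b (c (b (a (l 155323477799) (b (a (l 1830313691040373247011045583) (l 3)) (l 2516983556581497599086051535))) (l 16783024)) (a (l 2787782940175069874348753103)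 (a (l 2555669182809163258704806095) (l 2342898238556988111679570127)))) (l 16778448))))))) (b (l 143596871332986959) (l 143518256250961999)))), by decide +kernel⟩

def k10_pp_113 : ∃ t, chk3 f_pp_113 t 63 126 1 = true :=
  ⟨(a (a (a (b (l 3) (b (l 3) (b (a (b (a (a (b (l 3) (c (l 3213324828679531219265274063) (l 1588528527117484658025545935))) (l 3)) (l 3)) (c (a (l 2613697622150695008533512399) (b (l 3097267949996570111763579087) (a (l 143512319143) (l 102710130999)))) (a (l 2575011995923041718349840591) (b (a (b (l 3) (l 1443457428763763791676752079)) (l 3)) (c (l 2188155733646384434263277775) (l 2188155733646392886758899919)))))) (l 3)) (b (c (a (l 143937926174900431) (a (b (a (l 130627416823) (b (l 3) (l 101099518199))) (l 162839668663)) (b (l 3) (a (l 117205643751) (l 177335187431))))) (a (a (l 16781800) (l 3106939356553550641948049615)) (a (b (a (l 2342898238557078546541134031) (b (l 3) (a (l 2081770261520330395836612815) (l 74255973303)))) (l 2923182631972115806121001039)) (b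 (l 3) (a (b (a (l 1839985097597414662658408527) (l 3)) (l 2545997776252367790131478607)) (b (l 3) (a (b (l 3) (l 1810970877926678749469884495)) (l 3)))))))) (a (l 16779440) (a (l 16781504) (a (l 16777352) (c (b (l 145122929735) (l 16782600)) (l 2807125753289137793626406991))))))))) (a (b (l 3) (b (l 3) (b (l 3) (b (l 3) (a (a (c (b (l 104320741911) (l 16783352)) (b (b (l 71571617895) (c (l 123111223943) (l 2207498546760297459737018447))) (l 16782032))) (b (l 3) (c (l 132774898775) (b (a (l 2371912458227891013226725455) (l 89825228215)) (l 2913511225415242203433959503))))) (b (l 3) (a (c (l 90898969127) (b (l 3) (a (b (l 91972711975) (l 129553676407)) (l 75866584551)))) (l 3)))))))) (l 3))) (l 3)) (l 3)), by decide +kernel⟩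

def k11_pp_113 : ∃ t, chk3 f_pp_113 t 126 254 1 = true :=
  ⟨(a (a (l 143944248315052111) (a (b (a (l 143893258504044623) (b (b (b (c (a (l 159081572087) (l 119353126119)) (a (l 2855482786073761787120664655) (b (a (b (l 56539233399) (l 108615710951)) (l 3)) (c (l 141901704567) (l 2604026215593932319081463887))))) (l 16782336)) (l 16780136)) (l 16775800))) (l 16766608)) (b (b (b (a (b (a (b (l 3) (c (l 83919647703) (l 83382776775))) (l 3)) (c (a (l 145122928631) (l 106468224487)) (a (b (a (l 158007832119) (l 119353127207)) (l 16783168)) (b (l 73719100551) (a (l 143512317591) (l 105394483639)))))) (l 3)) (c (a (l 16776504) (b (a (l 134922381511) (l 93046452055)) (l 163376537047))) (a (l 144019290049970255) (b (a (b (a (l 134385512279) (l 91972711063)) (l 162302798215)) (b (l 3) (l 105394483159))) (l 3019896697541402276010606671))))) (l 16767744)) (l 16769824)))) (b (a (b (a (b (l 3) (a (b (l 3) (a (c (l 122037480103) (b (l 95730806999) (l 141364833095))) (b (l 3) (l 85530259783)))) (l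 3))) (l 3)) (a (b (a (a (l 16781752) (c (l 156397214247) (c (l 155860343495) (l 2913511225415335249600757839)))) (b (a (c (l 108615707735) (l 108078836823)) (l 3)) (a (l 16782720) (b (l 117742513719) (l 163913410727))))) (l 16774904)) (b (a (b (l 3) (a (b (l 3) (l 107541966471)) (l 3))) (l 3)) (a (b (a (l 161229054759) (b (l 97878290279) (l 144586058231))) (l 16781920)) (b (a (l 188609474487) (l 3)) (a (l 146733540551) (l 111836932823))))))) (b (l 3) (a (l 3) (l 3)))) (a (b (a (l 16775928) (b (l 144096393300557903) (l 16777832))) (l 16772072)) (a (b (b (a (b (a (l 140827960887) (l 3561495464728793186080735311)) (l 166060891015)) (b (l 3) (a (l 127406188343) (l 190756957623)))) (a (l 16780208) (l 163913404647))) (l 16776872)) (b (b (l 3) (a (b (l 3590509684399555693705936975) (l 147807280423)) (b (l 3) (a (l 203104987415) (l 3))))) (b (a (l 16780496) (b (a (l 16782296) (l 129016800295)) (l 16781288))) (l 16778528))))))), by decide +kernel⟩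

def k12_pp_113 : ∃ t, chk3 f_pp_113 t 127 254 1 = true :=
  ⟨(a (b (l 3) (a (b (l 3) (a (b (a (b (l 335712101143) (a (l 153175990039) (l 3793609222094837309433397327))) (l 3)) (a (l 16780696) (b (a (l 145122926423) (l 205789340951)) (l 16781424)))) (b (l 3) (a (b (l 3) (l 3783937815537923574569287759)) (l 3))))) (l 3))) (l 3)), by decide +kernel⟩

def k13_pp_113 : ∃ t, chk3 f_pp_113 t 126 255 1 = true :=
  ⟨(a (l 16749304) (l 143828593424187471)), by decide +kernel⟩

def k14_pp_113 : ∃ t, chk3 f_pp_113 t 254 255 1 = true :=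
  ⟨(b (a (b (a (l 16777400) (b (a (l 175187692375) (b (a (l 218137370631) (l 3)) (l 158544696775))) (l 16778816))) (l 16773584)) (b (a (b (a (b (l 3) (a (l 188072596791) (l 3))) (l 3)) (a (l 2913511225415408573278093391) (b (l 326585287639) (a (l 162302793047) (l 220284852775))))) (l 621327421655)) (a (l 144114122913873999) (b (a (b (a (l 148344149255) (l 6501603058031622397532520527)) (l 16778728)) (b (l 3) (a (l 4112765638473120852028293199) (l 329269644935)))) (l 3290696081135174937365446735))))) (l 143942324193280079)), by decide +kernel⟩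

def k15_pp_113 : ∃ t, chk3 f_pp_113 t 255 510 1 = true :=
  ⟨(a (b (l 3) (a (b (l 3) (a (b (a (l 3938680320448609715384991823) (l 322827193847)) (l 2961868258199992297157083215)) (b (l 3) (a (b (l 3) (l 227801043831)) (l 3))))) (l 3))) (l 3)), by decide +kernel⟩

def k16_pp_113 : ∃ t, chk3 f_pp_113 t 255 511 1 = true :=
  ⟨(a (b (a (b (a (l 16777960) (b (a (l 183240755639) (l 4141779858143866866978046031)) (l 16778472))) (l 16776048)) (b (a (b (a (b (l 3) (l 332490867687)) (l 3)) (a (l 3068253730326078358860873807) (b (l 328732771191) (l 4209479704042285688444567631)))) (l 632601703367)) (a (l 16775744) (b (a (b (l 4132108451586946191447654479) (l 16778824)) (b (l 3) (a (l 243370298215) (l 331953995239)))) (l 144128691452313679))))) (l 144022107515551823)) (b (a (b (l 3) (a (b (l 3) (a (b (a (l 4035394386017773795886710863) (l 356650057047)) (l 3087596543439904041879421007)) (b (l 3) (l 6578974310486944577216888911)))) (l 3))) (l 3)) (a (b (a (b (a (l 16777728) (b (a (l 16777768) (l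 4267508143383779024016539727)) (l 16777936))) (l 16776776)) (b (a (b (l 8029685294024495394975891535) (a (l 3174639202452150676668760143) (b (l 330343384871) (l 250349618855)))) (l 633138575847)) (a (l 16776224) (b (a (b (a (l 248739006119) (l 370071832519)) (l 16778064)) (b (l 3) (a (l 246591522375) (l 373829928727)))) (l 144118520970199119))))) (l 144066431592841295)) (b (a (b (l 3) (a (b (l 3) (a (b (l 6530617277702355768095227983) (l 3164967795895226152847736911)) (l 7981328261239906036098531407))) (l 3))) (l 3)) (a (b (a (b (a (l 16777504) (a (l 199883751543) (a (l 3300367487692059810050916431) (b (l 6462917431803933716812726351) (l 16777688))))) (l 16777024)) (b (a (b (l 8058699513695242234560118863) (a (l 3232667641793641194743005263) (b (l 390472926439) (l 252497101703)))) (l 630991092999)) (a (l 16776736) (b (b (a (a (l 259476423527) (l 371145573351)) (l 3)) (a (l 16777648) (l 6472588838360846970638860367))) (l 3600181090956481248307920975))))) (l 16775072)) (b (a (b (l 3)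 (a (b (l 3) (a (b (l 6520945871145431312993337423) (l 4480279087635935685541003343)) (l 7459676770364420006353628751))) (l 3))) (l 3)) (a (b (a (b (b (b (a (l 16777472) (a (l 16777568) (l 371145573031))) (l 144119895360176207)) (l 16777352)) (l 16777128)) (a (b (b (l 8078646794042334516573974095) (b (a (l 261623906791) (l 448454984311)) (l 4441593461408265971402326095))) (l 16776976)) (b (l 8658931181404516971979238991) (a (a (l 3532481245058063182755528783) (l 6)) (l 6))))) (l 16776152)) (b (b (l 3) (l 6)) (l 6))))))))), by decide +kernel⟩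

theorem s17_pp_113 : ∃ t, chk3 f_pp_113 t 255 255 1 = true := ex3_b k15_pp_113 k16_pp_113

theorem s18_pp_113 : ∃ t, chk3 f_pp_113 t 127 255 1 = true := ex3_a k14_pp_113 s17_pp_113

theorem s19_pp_113 : ∃ t, chk3 f_pp_113 t 63 255 1 = true := ex3_a k13_pp_113 s18_pp_113

theorem s20_pp_113 : ∃ t, chk3 f_pp_113 t 63 254 1 = true := ex3_a k11_pp_113 k12_pp_113

theorem s21_pp_113 : ∃ t, chk3 f_pp_113 t 63 127 1 = true := ex3_b s20_pp_113 s19_pp_113

theorem s22_pp_113 : ∃ t, chk3 f_pp_113 t 63 63 1 = true := ex3_b k10_pp_113 s21_pp_113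

theorem s23_pp_113 : ∃ t, chk3 f_pp_113 t 31 63 1 = true := ex3_a k9_pp_113 s22_pp_113

theorem s24_pp_113 : ∃ t, chk3 f_pp_113 t 31 31 1 = true := ex3_b k8_pp_113 s23_pp_113

theorem s25_pp_113 : ∃ t, chk3 f_pp_113 t 15 31 1 = true := ex3_a k7_pp_113 s24_pp_113

theorem s26_pp_113 : ∃ t, chk3 f_pp_113 t 15 15 1 = true := ex3_b k6_pp_113 s25_pp_113

theorem s27_pp_113 : ∃ t, chk3 f_pp_113 t 7 15 1 = true := ex3_a k5_pp_113 s26_pp_113

theorem s28_pp_113 : ∃ t, chk3 f_pp_113 t 7 7 1 = true := ex3_b k4_pp_113 s27_pp_113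

theorem s29_pp_113 : ∃ t, chk3 f_pp_113 t 3 7 1 = true := ex3_a k3_pp_113 s28_pp_113

theorem s30_pp_113 : ∃ t, chk3 f_pp_113 t 3 3 1 = true := ex3_b k2_pp_113 s29_pp_113

theorem s31_pp_113 : ∃ t, chk3 f_pp_113 t 3 1 1 = true := ex3_b k1_pp_113 s30_pp_113

theorem s32_pp_113 : ∃ t, chk3 f_pp_113 t 1 1 1 = true := ex3_a k0_pp_113 s31_pp_113

theorem c_pp_113 : CertB 536870912 536870912 1610612736 536870912 1045395039 1503240 3 eng mog cd0q1 cd1q3 pd1 false true true .nn 1 1 3
    ndB0q1 ndB1q3 pcB1 cut_pp_113 xt_pp_113 :=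
  certB1 (fam := false) (s1 := true) (s2 := true) (a := 1) (b := 1) (c := 3) (cn := .nn) (n1 := ndB0q1) (n2 := ndB1q3) (pc := pcB1) (cut := cut_pp_113) (xt := xt_pp_113) (P1 := 536870912) (W1 := 536870912) (P2 := 1610612736) (W2 := 536870912) (P3 := 1045395039) (W3 := 1503240) (N0 := 3) (En := eng) (mo := mog) (C1 := cd0q1) (C2 := cd1q3) (C3 := pd1)
    rfl (fun _ => rfl) s32_pp_113

noncomputable def cut_pp_123 : Cut := Cut.of [[⟨0, 1, 0, 14155776⟩, ⟨1, 1, 0, 14155776⟩, ⟨2, 2, 0, 524288⟩]]

noncomputable def xt_pp_123 : Ext := extD3 3 ⟨4, 1, 1, 5, 33, 5, 163, 200, 81, 200, 1, 64⟩ eng cd0q1 cd1q3 pd2 false true true .npn 1 2 3 rfl ndB0q1 ndB1q3 pcB2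

noncomputable def f_pp_123 : ℕ → ℕ → ℕ → ℕ → Bool := onCell 536870912 536870912 1073741824 536870912 1045395039 1503240
    (rowB 3 eng mog cd0q1 cd1q3 pd2 1 false true true .npn 1 2 3 (qsf 536870912 536870912 1610612736 536870912 2) ndB0q1 ndB1q3 pcB2 cut_pp_123 xt_pp_123)

def k0_pp_123 : ∃ t, chk3 f_pp_123 t 2 1 1 = true :=
  ⟨(b (a (b (a (b (b (l 15550160) (l 15416752)) (l 15231328)) (b (b (l 15433424) (l 15337432)) (l 15204536))) (b (a (l 15003120) (l 15038512)) (l 14831344))) (b (a (b (b (l 15330880) (l 15278528)) (l 15207008)) (b (b (l 15260656) (l 15241520)) (l 15246848))) (a (b (l 15113560) (l 15013656)) (b (l 15244896) (l 15220000))))) (a (b (b (l 14648904) (a (l 14393208) (l 14544640))) (a (b (l 14197648) (l 14007160)) (b (l 14349632) (l 14123624)))) (b (b (a (l 14895472) (l 15112024)) (a (l 14725504) (l 14851496))) (a (b (l 14469688) (l 2)) (l 2))))), by decide +kernel⟩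

def k1_pp_123 : ∃ t, chk3 f_pp_123 t 3 1 1 = true :=
  ⟨(b (a (b (a (b (b (l 15058272) (l 15238608)) (l 15350152)) (b (a (b (l 15140296) (l 15283744)) (b (l 15224544) (l 15404776))) (a (l 15511608) (b (l 15600448) (l 15810104))))) (b (a (b (l 15447984) (l 15502656)) (a (l 15766704) (l 15845824))) (a (l 15483328) (a (l 15592360) (l 2))))) (b (b (a (a (b (l 15388440) (l 15661192)) (b (a (l 15571320) (l 15750232)) (a (l 15951320) (l 16216912)))) (b (a (a (l 16047456) (b (l 16377000) (l 16507584))) (a (a (b (l 142801786940030991) (l 16757320)) (b (b (l 16770560) (l 16777336)) (l 16765376))) (b (b (a (b (l 16742264) (l 16747616)) (b (a (b (l 16777168) (l 16766552)) (b (b (a (l 16755336) (a (l 16753952) (b (a (l 16765504) (b (a (l 16771344) (l 6)) (l 16774800))) (l 16772472)))) (l 16763832)) (l 16739144))) (l 394700682551))) (a (l 16749832) (l 407585516583))) (a (l 16705768) (l 2))))) (a (a (l 16515952) (l 16565816)) (a (a (l 16677416) (l 2)) (l 2))))) (a (a (b (l 15929968) (l 16040328))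 (b (a (l 16274528) (l 16354696)) (a (l 16139992) (l 2)))) (a (b (l 16440992) (l 2)) (l 2)))) (a (b (a (b (l 15951704) (l 2)) (l 2)) (l 2)) (l 2)))) (a (b (a (b (l 15242816) (l 2)) (l 2)) (l 2)) (l 2))), by decide +kernel⟩

theorem s2_pp_123 : ∃ t, chk3 f_pp_123 t 1 1 1 = true := ex3_a k0_pp_123 k1_pp_123

theorem c_pp_123 : CertB 536870912 536870912 1610612736 536870912 1045395039 1503240 3 eng mog cd0q1 cd1q3 pd2 false true true .npn 1 2 3
    ndB0q1 ndB1q3 pcB2 cut_pp_123 xt_pp_123 :=
  certB1 (fam := false) (s1 := true) (s2 := true) (a := 1) (b := 2) (c := 3) (cn := .npn) (n1 := ndB0q1) (n2 := ndB1q3) (pc := pcB2) (cut := cut_pp_123) (xt := xt_pp_123) (P1 := 536870912) (W1 := 536870912) (P2 := 1610612736) (W2 := 536870912) (P3 := 1045395039) (W3 := 1503240) (N0 := 3) (En := eng) (mo := mog) (C1 := cd0q1) (C2 := cd1q3) (C3 := pd2)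
    rfl (fun _ => rfl) s2_pp_123

noncomputable def f_pp_133 : ℕ → ℕ → ℕ → ℕ → Bool := onCell 536870912 536870912 1610612736 536870912 1045395039 1503240
    (rowB 3 eng mog cd0q1 cd1q3 pd3 0 false true true .dn 1 3 3 (qsf 536870912 536870912 1610612736 536870912 3) ndB0q1 ndB1q3 pcB3 Cut.none Ext.none)

def k0_pp_133 : ∃ t, chk3 f_pp_133 t 1 1 1 = true :=
  ⟨(a (b (l 1) (a (b (l 1) (b (l 1) (l 16280624))) (l 1))) (l 1)), by decide +kernel⟩

theorem c_pp_133 : CertB 536870912 536870912 1610612736 536870912 1045395039 1503240 3 eng mog cd0q1 cd1q3 pd3 false true true .dn 1 3 3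
    ndB0q1 ndB1q3 pcB3 Cut.none Ext.none :=
  certB0 (fam := false) (s1 := true) (s2 := true) (a := 1) (b := 3) (c := 3) (cn := .dn) (n1 := ndB0q1) (n2 := ndB1q3) (pc := pcB3) (cut := Cut.none) (xt := Ext.none) (P1 := 536870912) (W1 := 536870912) (P2 := 1610612736) (W2 := 536870912) (P3 := 1045395039) (W3 := 1503240) (N0 := 3) (En := eng) (mo := mog) (C1 := cd0q1) (C2 := cd1q3) (C3 := pd3)
    rfl k0_pp_133

noncomputable def f_pp_202_a : ℕ → ℕ → ℕ → ℕ → Bool := onCell 0 536870912 0 536870912 1045395039 1503240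
    (rowB 3 eng mog cd0q2 cd1q2a pd0 0 false true true .pp 2 0 2 (qsf 0 536870912 0 536870912 0) ndB0q2 ndB1q2a pcB0 Cut.none Ext.none)

def k0_pp_202_a : ∃ t, chk3 f_pp_202_a t 1 1 1 = true :=
  ⟨(l 3), by decide +kernel⟩

theorem c_pp_202_a : CertB 0 536870912 0 536870912 1045395039 1503240 3 eng mog cd0q2 cd1q2a pd0 false true true .pp 2 0 2
    ndB0q2 ndB1q2a pcB0 Cut.none Ext.none :=
  certB0 (fam := false) (s1 := true) (s2 := true) (a := 2) (b := 0) (c := 2) (cn := .pp) (n1 := ndB0q2) (n2 := ndB1q2a) (pc := pcB0) (cut := Cut.none) (xt := Ext.none) (P1 := 0) (W1 := 536870912) (P2 := 0) (W2 := 536870912) (P3 := 1045395039) (W3 := 1503240) (N0 := 3) (En := eng) (mo := mog) (C1 := cd0q2) (C2 := cd1q2a) (C3 := pd0)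
    rfl k0_pp_202_a

noncomputable def f_pp_202_b : ℕ → ℕ → ℕ → ℕ → Bool := onCell 0 536870912 1239849684 370763052 1045395039 1503240
    (rowB 3 eng mog cd0q2 cd1q2b pd0 0 false true true .pp 2 0 2 (qsf 0 536870912 1239849684 370763052 0) ndB0q2 ndB1q2b pcB0 Cut.none Ext.none)

def k0_pp_202_b : ∃ t, chk3 f_pp_202_b t 1 1 1 = true :=
  ⟨(l 3), by decide +kernel⟩

theorem c_pp_202_b : CertB 0 536870912 1239849684 370763052 1045395039 1503240 3 eng mog cd0q2 cd1q2b pd0 false true true .pp 2 0 2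
    ndB0q2 ndB1q2b pcB0 Cut.none Ext.none :=
  certB0 (fam := false) (s1 := true) (s2 := true) (a := 2) (b := 0) (c := 2) (cn := .pp) (n1 := ndB0q2) (n2 := ndB1q2b) (pc := pcB0) (cut := Cut.none) (xt := Ext.none) (P1 := 0) (W1 := 536870912) (P2 := 1239849684) (W2 := 370763052) (P3 := 1045395039) (W3 := 1503240) (N0 := 3) (En := eng) (mo := mog) (C1 := cd0q2) (C2 := cd1q2b) (C3 := pd0)
    rfl k0_pp_202_b

noncomputable def f_pp_203 : ℕ → ℕ → ℕ → ℕ → Bool := onCell 0 536870912 0 536870912 1045395039 1503240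
    (rowB 3 eng mog cd0q2 cd1q3 pd0 1 false true true .up 2 0 3 (qsf 0 536870912 1610612736 536870912 0) ndB0q2 ndB1q3 pcB0 Cut.none Ext.none)

def k0_pp_203 : ∃ t, chk3 f_pp_203 t 1 1 1 = true :=
  ⟨(l 3), by decide +kernel⟩

theorem c_pp_203 : CertB 0 536870912 1610612736 536870912 1045395039 1503240 3 eng mog cd0q2 cd1q3 pd0 false true true .up 2 0 3
    ndB0q2 ndB1q3 pcB0 Cut.none Ext.none :=
  certB1 (fam := false) (s1 := true) (s2 := true) (a := 2) (b := 0) (c := 3) (cn := .up) (n1 := ndB0q2) (n2 := ndB1q3) (pc := pcB0) (cut := Cut.none) (xt := Ext.none) (P1 := 0) (W1 := 536870912) (P2 := 1610612736) (W2 := 536870912) (P3 := 1045395039) (W3 := 1503240) (N0 := 3) (En := eng) (mo := mog) (C1 := cd0q2) (C2 := cd1q3) (C3 := pd0)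
    rfl (fun _ => rfl) k0_pp_203

noncomputable def cut_pp_213 : Cut := Cut.of [[⟨0, 1, 0, 14155776⟩, ⟨1, 1, 0, 14155776⟩, ⟨2, 2, 0, 524288⟩]]

noncomputable def f_pp_213 : ℕ → ℕ → ℕ → ℕ → Bool := onCell 0 536870912 1610612736 536870912 1045395039 1503240
    (rowB 3 eng mog cd0q2 cd1q3 pd1 0 false true true .pnn 2 1 3 (qsf 0 536870912 1610612736 536870912 1) ndB0q2 ndB1q3 pcB1 cut_pp_213 Ext.none)

def k0_pp_213 : ∃ t, chk3 f_pp_213 t 1 1 1 = true :=
  ⟨(a (l 3) (b (l 3) (a (l 3) (b (l 3) (b (l 3) (a (l 3) (b (l 3) (a (l 3) (b (l 3) (a (l 3) (b (l 3) (a (l 3) (b (l 3) (b (l 3) (b (l 3) (b (l 3) (b (l 3) (l 6)))))))))))))))))), by decide +kernel⟩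

theorem c_pp_213 : CertB 0 536870912 1610612736 536870912 1045395039 1503240 3 eng mog cd0q2 cd1q3 pd1 false true true .pnn 2 1 3
    ndB0q2 ndB1q3 pcB1 cut_pp_213 Ext.none :=
  certB0 (fam := false) (s1 := true) (s2 := true) (a := 2) (b := 1) (c := 3) (cn := .pnn) (n1 := ndB0q2) (n2 := ndB1q3) (pc := pcB1) (cut := cut_pp_213) (xt := Ext.none) (P1 := 0) (W1 := 536870912) (P2 := 1610612736) (W2 := 536870912) (P3 := 1045395039) (W3 := 1503240) (N0 := 3) (En := eng) (mo := mog) (C1 := cd0q2) (C2 := cd1q3) (C3 := pd1)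
    rfl k0_pp_213

noncomputable def f_pm_001 : ℕ → ℕ → ℕ → ℕ → Bool := onCell 0 536870912 536870912 536870912 1045395039 1503240
    (rowB 3 eng mog cd0q0 cd1q1 pd0 0 false true false .up 0 0 1 (qsf 0 536870912 536870912 536870912 0) ndB0q0 ndB1q1 pcB0 Cut.none Ext.none)

def k0_pm_001 : ∃ t, chk3 f_pm_001 t 1 1 1 = true :=
  ⟨(a (l 4) (b (l 4) (a (l 4) (b (l 4) (b (l 4) (a (l 4) (b (l 4) (a (l 16155808) (l 16134784))))))))), by decide +kernel⟩

theorem c_pm_001 : CertB 0 536870912 536870912 536870912 1045395039 1503240 3 eng mog cd0q0 cd1q1 pd0 false true false .up 0 0 1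
    ndB0q0 ndB1q1 pcB0 Cut.none Ext.none :=
  certB0 (fam := false) (s1 := true) (s2 := false) (a := 0) (b := 0) (c := 1) (cn := .up) (n1 := ndB0q0) (n2 := ndB1q1) (pc := pcB0) (cut := Cut.none) (xt := Ext.none) (P1 := 0) (W1 := 536870912) (P2 := 536870912) (W2 := 536870912) (P3 := 1045395039) (W3 := 1503240) (N0 := 3) (En := eng) (mo := mog) (C1 := cd0q0) (C2 := cd1q1) (C3 := pd0)
    rfl k0_pm_001

noncomputable def f_pm_011 : ℕ → ℕ → ℕ → ℕ → Bool := onCell 0 536870912 536870912 536870912 1045395039 1503240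
    (rowB 3 eng mog cd0q0 cd1q1 pd1 0 false true false .pnn 0 1 1 (qsf 0 536870912 536870912 536870912 1) ndB0q0 ndB1q1 pcB1 Cut.none Ext.none)

def k0_pm_011 : ∃ t, chk3 f_pm_011 t 1 1 1 = true :=
  ⟨(a (l 4) (b (l 4) (b (l 4) (a (l 4) (b (l 4) (a (l 4) (b (l 4) (a (l 16150920) (l 16106984))))))))), by decide +kernel⟩

theorem c_pm_011 : CertB 0 536870912 536870912 536870912 1045395039 1503240 3 eng mog cd0q0 cd1q1 pd1 false true false .pnn 0 1 1
    ndB0q0 ndB1q1 pcB1 Cut.none Ext.none :=
  certB0 (fam := false) (s1 := true) (s2 := false) (a := 0) (b := 1) (c := 1) (cn := .pnn) (n1 := ndB0q0) (n2 := ndB1q1) (pc := pcB1) (cut := Cut.none) (xt := Ext.none) (P1 := 0) (W1 := 536870912) (P2 := 536870912) (W2 := 536870912) (P3 := 1045395039) (W3 := 1503240) (N0 := 3) (En := eng) (mo := mog) (C1 := cd0q0) (C2 := cd1q1) (C3 := pd1)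
    rfl k0_pm_011

noncomputable def cut_pm_012_a : Cut := Cut.of [[⟨0, 0, 0, 26843545⟩, ⟨1, 1, 0, 26843545⟩, ⟨2, 1, 0, 26843545⟩]]

noncomputable def f_pm_012_a : ℕ → ℕ → ℕ → ℕ → Bool := onCell 0 536870912 0 536870912 1045395039 1503240
    (rowB 3 eng mog cd0q0 cd1q2a pd1 0 false true false .pnp 0 1 2 (qsf 0 536870912 0 536870912 1) ndB0q0 ndB1q2a pcB1 cut_pm_012_a Ext.none)

def k0_pm_012_a : ∃ t, chk3 f_pm_012_a t 4 2 1 = true :=
  ⟨(a (l 2) (b (l 2) (a (l 2) (b (l 2) (a (l 2) (l 16352632)))))), by decide +kernel⟩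

def k1_pm_012_a : ∃ t, chk3 f_pm_012_a t 4 6 1 = true :=
  ⟨(a (l 2) (a (b (l 2) (b (a (l 2) (l 16542672)) (a (b (l 16577472) (l 16574768)) (l 16577736)))) (a (b (b (l 16437688) (l 16484080)) (b (l 16529064) (l 16572720))) (b (l 16427528) (l 16496560))))), by decide +kernel⟩

def k2_pm_012_a : ∃ t, chk3 f_pm_012_a t 4 7 1 = true :=
  ⟨(a (a (b (l 2) (b (a (l 2) (a (b (l 2) (b (l 2) (l 6))) (b (a (l 2) (b (l 2) (l 16641736))) (b (a (l 16658368) (l 16649744)) (a (l 16667232) (l 16658256)))))) (a (l 6) (a (l 6) (b (b (a (l 16676608) (l 16667272)) (a (l 16686472) (l 16676784))) (b (a (l 16675864) (l 16686776)) (a (b (l 16704904) (l 16710456)) (b (l 16694568) (l 16699928))))))))) (b (b (a (l 2) (a (l 2) (b (l 2) (l 16579776)))) (b (a (l 2) (a (l 16590248) (l 16584824))) (a (a (b (l 2) (l 16618808)) (b (l 16603872) (l 16609184))) (a (l 16598560) (l 16591840))))) (b (a (b (a (b (l 16625288) (l 16632280)) (l 16618176)) (a (b (l 16639768) (l 16647760)) (l 16610808))) (b (a (l 16608840) (l 16600792))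 (a (l 16621064) (l 16611640)))) (b (a (a (b (l 16656240) (l 16665208)) (b (l 16643160) (l 16651400))) (a (b (l 16631392) (l 16638920)) (l 16624360))) (a (b (a (l 16653680) (l 16660120)) (a (b (l 16682032) (l 16687112)) (b (l 16666952) (l 16671656)))) (b (a (l 16646912) (l 16635000)) (a (l 16655360) (l 16642712)))))))) (b (a (b (a (b (l 16574040) (l 16575272)) (l 16571568)) (a (b (l 16578448) (l 16583528)) (b (l 16571584) (l 16574120)))) (b (a (l 16568744) (l 16564784)) (a (l 16565208) (l 16556384)))) (a (b (a (b (l 16590496) (a (l 16603272) (l 16595512))) (b (l 16578456) (l 16584568))) (b (a (a (l 16614584) (l 16605424)) (a (l 16596680) (l 16588152))) (a (b (a (l 16624144) (l 16613912)) (a (l 16631120) (l 16620152))) (a (l 16606888) (l 16596928))))) (b (a (b (l 16566848) (l 16570272)) (l 16554688)) (a (b (l 16575328) (l 16581960)) (b (l 16557248) (l 16561032))))))), by decide +kernel⟩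

def k3_pm_012_a : ∃ t, chk3 f_pm_012_a t 5 1 1 = true :=
  ⟨(b (a (b (b (a (b (l 16041688) (l 15976840)) (l 16093824)) (a (l 16122616) (b (l 16078312) (l 16130784)))) (a (b (l 16233880) (l 16336240)) (b (l 16211688) (l 16312584)))) (b (b (l 16176432) (a (b (l 16099864) (l 16110480)) (b (l 16144472) (l 16119056)))) (b (a (l 16189152) (l 16167184)) (l 16212880)))) (b (a (b (a (l 16368624) (l 16406504)) (a (b (l 16499472) (l 16543056)) (l 16495032))) (b (a (l 16379720) (l 16351792)) (a (l 16466504) (l 16436200)))) (a (b (a (b (l 16558464) (l 16521928)) (b (l 16553560) (l 16528536))) (a (b (l 16512560) (a (l 16539448) (l 16520752))) (b (l 16509032) (l 16494576)))) (b (a (l 16534944) (l 16518296)) (b (l 16478784) (l 16364432)))))), by decide +kernel⟩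

def k4_pm_012_a : ∃ t, chk3 f_pm_012_a t 3 1 1 = true :=
  ⟨(b (a (b (a (a (l 16211408) (l 16248328)) (a (l 16281328) (l 16308888))) (a (b (a (b (l 16134672) (l 16169208)) (b (l 16156408) (l 16149928))) (l 16225440)) (b (a (l 16178840) (l 16201728)) (a (l 16189920) (b (l 16160592) (l 16188232)))))) (b (a (a (l 16331920) (l 16351400)) (a (l 16368368) (b (l 16407600) (l 16361536)))) (a (b (l 16244456) (a (b (l 16176016) (l 16168040)) (b (l 16199128) (l 16170056)))) (b (l 16292032) (a (l 16210400) (l 16231224)))))) (a (b (a (b (l 16309384) (l 16368112)) (b (l 16254656) (l 16305080))) (b (a (l 16383768) (l 16313952)) (a (b (l 16446920) (l 16353576)) (a (l 16330424) (l 16291376))))) (b (a (b (l 16124032) (l 16226568)) (b (b (a (l 16169408) (l 16179200)) (l 16187632)) (a (l 16232368) (l 16213272)))) (b (a (a (l 16346784) (l 16314888)) (a (l 16285424) (l 16259096))) (a (a (l 16252064) (l 16211848)) (a (l 16191072) (l 16147184))))))), by decide +kernel⟩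

theorem s5_pm_012_a : ∃ t, chk3 f_pm_012_a t 4 3 1 = true := ex3_b k1_pm_012_a k2_pm_012_a

theorem s6_pm_012_a : ∃ t, chk3 f_pm_012_a t 4 1 1 = true := ex3_b k0_pm_012_a s5_pm_012_a

theorem s7_pm_012_a : ∃ t, chk3 f_pm_012_a t 2 1 1 = true := ex3_a s6_pm_012_a k3_pm_012_a

theorem s8_pm_012_a : ∃ t, chk3 f_pm_012_a t 1 1 1 = true := ex3_a s7_pm_012_a k4_pm_012_a

theorem c_pm_012_a : CertB 0 536870912 0 536870912 1045395039 1503240 3 eng mog cd0q0 cd1q2a pd1 false true false .pnp 0 1 2
    ndB0q0 ndB1q2a pcB1 cut_pm_012_a Ext.none :=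
  certB0 (fam := false) (s1 := true) (s2 := false) (a := 0) (b := 1) (c := 2) (cn := .pnp) (n1 := ndB0q0) (n2 := ndB1q2a) (pc := pcB1) (cut := cut_pm_012_a) (xt := Ext.none) (P1 := 0) (W1 := 536870912) (P2 := 0) (W2 := 536870912) (P3 := 1045395039) (W3 := 1503240) (N0 := 3) (En := eng) (mo := mog) (C1 := cd0q0) (C2 := cd1q2a) (C3 := pd1)
    rfl s8_pm_012_a

noncomputable def cut_pm_012_b : Cut := Cut.of [[⟨0, 0, 0, 26843545⟩, ⟨1, 1, 0, 26843545⟩, ⟨2, 1, 0, 26843545⟩]]

noncomputable def f_pm_012_b : ℕ → ℕ → ℕ → ℕ → Bool := onCell 0 536870912 536870912 536870912 1045395039 1503240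
    (rowB 3 eng mog cd0q0 cd1q2b pd1 1 false true false .pnp 0 1 2 (qsf 0 536870912 1239849684 370763052 1) ndB0q0 ndB1q2b pcB1 cut_pm_012_b Ext.none)

def k0_pm_012_b : ∃ t, chk3 f_pm_012_b t 1 1 1 = true :=
  ⟨(a (a (l 1) (b (l 1) (b (l 1) (a (b (l 1) (a (l 462814757143) (l 360272392279))) (b (a (l 287794823303) (l 16159080)) (b (l 16231368) (l 16254176))))))) (b (b (l 1) (a (l 1) (a (b (l 1) (b (l 261488366007) (l 90763607527))) (a (b (l 292090367687) (l 16370392)) (b (a (l 259341384023) (l 219612767191)) (l 16531736)))))) (a (b (a (b (l 1) (l 203506197079)) (b (a (l 242697884007) (l 16343968)) (l 16325456))) (b (a (l 157335549207) (l 16469040)) (a (l 16341992) (l 16435792)))) (b (a (b (l 49961563399) (l 16533552)) (b (l 16545016) (l 16465752))) (b (a (l 16430160) (l 16246112)) (a (l 16227296) (l 16040504))))))), by decide +kernel⟩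

theorem c_pm_012_b : CertB 0 536870912 1239849684 370763052 1045395039 1503240 3 eng mog cd0q0 cd1q2b pd1 false true false .pnp 0 1 2
    ndB0q0 ndB1q2b pcB1 cut_pm_012_b Ext.none :=
  certB1 (fam := false) (s1 := true) (s2 := false) (a := 0) (b := 1) (c := 2) (cn := .pnp) (n1 := ndB0q0) (n2 := ndB1q2b) (pc := pcB1) (cut := cut_pm_012_b) (xt := Ext.none) (P1 := 0) (W1 := 536870912) (P2 := 1239849684) (W2 := 370763052) (P3 := 1045395039) (W3 := 1503240) (N0 := 3) (En := eng) (mo := mog) (C1 := cd0q0) (C2 := cd1q2b) (C3 := pd1)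
    rfl (fun _ => rfl) k0_pm_012_b

noncomputable def cut_pm_022_a : Cut := Cut.of [[⟨0, 0, 0, 26843545⟩, ⟨1, 1, 0, 26843545⟩, ⟨2, 1, 0, 26843545⟩]]

noncomputable def f_pm_022_a : ℕ → ℕ → ℕ → ℕ → Bool := onCell 0 536870912 0 536870912 1045395039 1503240
    (rowB 3 eng mog cd0q0 cd1q2a pd2 0 false true false .pp 0 2 2 (qsf 0 536870912 0 536870912 2) ndB0q0 ndB1q2a pcB2 cut_pm_022_a Ext.none)

def k0_pm_022_a : ∃ t, chk3 f_pm_022_a t 4 2 1 = true :=
  ⟨(a (b (a (b (a (l 16402768) (l 16278408)) (a (l 16376256) (l 16295288))) (b (b (l 16173912) (l 16043424)) (a (l 16202912) (l 16092960)))) (a (b (a (l 16319864) (l 16266024)) (a (b (l 16285000) (l 16268480)) (b (l 16249096) (l 16243184)))) (b (a (l 16199592) (l 16114672)) (b (l 16167520) (l 16114464))))) (b (a (b (l 15886032) (b (a (l 15960160) (b (l 15834056) (l 15835392))) (l 15926144))) (b (l 15655256) (b (a (b (l 15727032) (l 15706720)) (l 15618352)) (a (l 15734440) (a (l 15635376) (b (l 15533408) (l 15583312))))))) (a (b (a (l 16017608)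 (l 15911032)) (a (b (l 16051160) (l 16075344)) (b (l 15961680) (l 15996808)))) (b (a (b (l 15780008) (l 15822536)) (b (l 15657752) (l 15710544))) (a (b (l 15864752) (l 15909456)) (b (l 15761624) (l 15812960))))))), by decide +kernel⟩

def k1_pm_022_a : ∃ t, chk3 f_pm_022_a t 8 3 1 = true :=
  ⟨(b (a (b (a (b (l 16260888) (l 16264688)) (b (l 16245488) (l 16258592))) (a (b (l 16282840) (b (l 16307728) (l 16330488))) (b (a (l 16285264) (l 16286080)) (a (l 16327016) (b (l 16318792) (l 16346328)))))) (b (a (b (l 16216696) (l 16238976)) (b (l 16166128) (l 16199288))) (b (a (b (l 16262832) (l 16285408)) (b (l 16233520) (l 16260336))) (a (b (l 16313912) (l 16346424)) (b (l 16291768) (l 16327376)))))) (b (a (a (b (b (l 16358720) (a (l 16388264) (l 16397472))) (b (a (b (l 16417056) (l 16439136)) (b (l 16429496) (l 16453720))) (a (b (l 16464072) (l 16491272)) (b (l 16480304) (l 16508496))))) (b (a (b (l 16371504) (l 16411296)) (b (l 16381896) (l 16423464))) (a (b (l 16436760) (l 16490200)) (b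 (l 16471536) (l 16523168))))) (b (a (b (l 16383816) (l 16427080)) (b (l 16365440) (l 16406408))) (a (b (l 16452200) (a (l 16524840) (l 16518248))) (b (l 16429144) (a (l 16505160) (l 1)))))) (a (b (a (b (a (b (l 16500144) (a (l 16548248) (l 16557096))) (b (l 16538400) (l 16568928))) (b (a (a (l 16581504) (l 16589480)) (l 16600392)) (l 6))) (b (a (b (l 16553600) (l 16583016)) (b (l 16564160) (l 16592488))) (a (b (l 16613272) (l 6)) (b (l 16621560) (l 16630344))))) (a (l 6) (a (l 6) (l 1)))) (b (a (b (a (l 16556984) (l 1)) (l 1)) (l 1)) (l 1))))), by decide +kernel⟩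

def k2_pm_022_a : ∃ t, chk3 f_pm_022_a t 9 3 1 = true :=
  ⟨(b (a (b (b (a (l 16108360) (l 16038000)) (a (l 16149632) (l 16087288))) (b (a (b (l 16189008) (l 16219280)) (l 16143704)) (a (b (l 16251360) (l 16285928)) (l 16207872)))) (b (b (a (l 15957512) (l 15866072)) (a (l 16010272) (l 1))) (b (a (l 16068472) (l 1)) (l 1)))) (b (a (b (a (b (l 16322888) (l 16362120)) (l 1)) (l 1)) (l 1)) (l 1))), by decide +kernel⟩

def k3_pm_022_a : ∃ t, chk3 f_pm_022_a t 5 1 1 = true :=
  ⟨(b (a (b (a (b (a (l 15638552) (b (l 15599840) (l 15529864))) (b (a (l 15528168) (l 15447192)) (b (a (b (l 15475264) (a (l 15470144) (b (l 15434256) (a (l 15442192) (b (l 15413560) (l 15410672)))))) (l 15355408)) (a (l 15481208) (a (b (b (a (b (l 15381480) (l 15381976)) (b (l 15357712) (l 269003046887))) (a (l 15389248) (a (l 15362496) (l 300678426903)))) (l 15385504)) (l 1)))))) (b (l 1) (l 1))) (a (a (b (b (l 15530024) (l 15591640)) (b (l 15650208) (l 15707528))) (b (b (a (l 15429872) (l 1)) (l 161628834055))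 (l 1))) (l 1))) (l 1)) (b (l 1) (l 1))), by decide +kernel⟩

def k4_pm_022_a : ∃ t, chk3 f_pm_022_a t 3 1 1 = true :=
  ⟨(l 1), by decide +kernel⟩

theorem s5_pm_022_a : ∃ t, chk3 f_pm_022_a t 4 3 1 = true := ex3_a k1_pm_022_a k2_pm_022_a

theorem s6_pm_022_a : ∃ t, chk3 f_pm_022_a t 4 1 1 = true := ex3_b k0_pm_022_a s5_pm_022_a

theorem s7_pm_022_a : ∃ t, chk3 f_pm_022_a t 2 1 1 = true := ex3_a s6_pm_022_a k3_pm_022_a

theorem s8_pm_022_a : ∃ t, chk3 f_pm_022_a t 1 1 1 = true := ex3_a s7_pm_022_a k4_pm_022_a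

theorem c_pm_022_a : CertB 0 536870912 0 536870912 1045395039 1503240 3 eng mog cd0q0 cd1q2a pd2 false true false .pp 0 2 2
    ndB0q0 ndB1q2a pcB2 cut_pm_022_a Ext.none :=
  certB0 (fam := false) (s1 := true) (s2 := false) (a := 0) (b := 2) (c := 2) (cn := .pp) (n1 := ndB0q0) (n2 := ndB1q2a) (pc := pcB2) (cut := cut_pm_022_a) (xt := Ext.none) (P1 := 0) (W1 := 536870912) (P2 := 0) (W2 := 536870912) (P3 := 1045395039) (W3 := 1503240) (N0 := 3) (En := eng) (mo := mog) (C1 := cd0q0) (C2 := cd1q2a) (C3 := pd2)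
    rfl s8_pm_022_a

noncomputable def cut_pm_022_b : Cut := Cut.of [[⟨0, 0, 0, 26843545⟩, ⟨1, 1, 0, 26843545⟩, ⟨2, 1, 0, 26843545⟩]]

noncomputable def f_pm_022_b : ℕ → ℕ → ℕ → ℕ → Bool := onCell 0 536870912 1073741824 536870912 1045395039 1503240
    (rowB 3 eng mog cd0q0 cd1q2b pd2 1 false true false .pp 0 2 2 (qsf 0 536870912 1239849684 370763052 2) ndB0q0 ndB1q2b pcB2 cut_pm_022_b Ext.none)

def k0_pm_022_b : ∃ t, chk3 f_pm_022_b t 1 1 1 = true :=
  ⟨(b (a (a (b (a (b (l 1) (a (b (l 1) (a (l 1) (l 15983872))) (b (l 533681502247) (l 16097776)))) (b (b (a (l 1) (b (l 1) (l 514353563447))) (a (l 525628051047) (l 215853303559))) (b (a (l 15921656) (l 16092528)) (l 16072312)))) (a (b (a (b (a (l 16276368) (l 16338720)) (a (l 16117376) (l 16056664))) (b (l 16285200) (l 15942120))) (a (b (a (l 15769792) (l 15688896)) (a (l 15484968) (l 15408136))) (b (l 15576464) (l 15299248)))) (b (b (a (l 16206256) (l 16075056)) (l 15726544)) (b (l 15283184) (l 15104704))))) (b (b (a (b (a (b (l 227664486375)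 (l 15746920)) (b (l 15746632) (l 15869848))) (a (l 15940328) (l 16042136))) (b (a (l 15929264) (l 16039832)) (l 16113296))) (a (b (l 16066112) (l 16284808)) (b (l 16338792) (l 15988392)))) (b (a (l 15451864) (l 15504112)) (a (b (l 15172144) (l 14875912)) (l 14851032))))) (b (a (b (a (b (l 15998888) (l 16321096)) (b (l 16225632) (l 16394280))) (a (l 15930128) (l 15667504))) (b (a (b (l 16393024) (l 16199416)) (a (l 16230920) (l 15887984))) (a (l 15643152) (l 15581784)))) (a (b (a (l 15342872) (l 15217312)) (a (l 14740568) (l 14666864))) (b (a (l 15125288) (l 2)) (l 2))))) (a (a (a (b (a (b (a (l 15203632) (l 15131704)) (b (l 15045560) (l 15044920))) (b (l 15028496) (l 14909896))) (b (a (l 15131968) (l 15035312)) (a (l 15378816) (l 15357496)))) (b (b (l 14587552) (l 14727728)) (b (l 14861040) (l 15151512)))) (b (b (a (l 14599928) (l 14392496)) (a (l 14490784) (l 14256640))) (b (a (l 14628456) (l 2)) (l 2)))) (b (a (b (a (l 14253896) (l 2)) (l 2)) (l 2)) (l 2)))), by decide +kernel⟩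

theorem c_pm_022_b : CertB 0 536870912 1239849684 370763052 1045395039 1503240 3 eng mog cd0q0 cd1q2b pd2 false true false .pp 0 2 2
    ndB0q0 ndB1q2b pcB2 cut_pm_022_b Ext.none :=
  certB1 (fam := false) (s1 := true) (s2 := false) (a := 0) (b := 2) (c := 2) (cn := .pp) (n1 := ndB0q0) (n2 := ndB1q2b) (pc := pcB2) (cut := cut_pm_022_b) (xt := Ext.none) (P1 := 0) (W1 := 536870912) (P2 := 1239849684) (W2 := 370763052) (P3 := 1045395039) (W3 := 1503240) (N0 := 3) (En := eng) (mo := mog) (C1 := cd0q0) (C2 := cd1q2b) (C3 := pd2)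
    rfl (fun _ => rfl) k0_pm_022_b

noncomputable def f_pm_023 : ℕ → ℕ → ℕ → ℕ → Bool := onCell 0 536870912 1073741824 536870912 1045395039 1503240
    (rowB 3 eng mog cd0q0 cd1q3 pd2 1 false true false .up 0 2 3 (qsf 0 536870912 1610612736 536870912 2) ndB0q0 ndB1q3 pcB2 Cut.none Ext.none)

def k0_pm_023 : ∃ t, chk3 f_pm_023 t 1 1 1 = true :=
  ⟨(b (a (a (l 1) (b (l 1) (b (l 1) (a (l 1) (l 15164032))))) (b (a (b (l 1) (a (l 1) (l 16164424))) (b (a (l 384968472967) (b (l 16230736) (l 16233560))) (a (l 16012808) (l 15869472)))) (a (b (a (l 15590560) (l 15526744)) (a (l 15052680) (l 14960240))) (b (a (l 15415808) (l 15321816)) (l 14718960))))) (a (a (a (b (l 1) (b (a (l 1) (l 15352224)) (a (l 15669104) (l 15665456)))) (b (b (l 1) (l 15043184)) (b (l 15176200) (l 15487696)))) (b (b (a (l 14914664) (l 14602016)) (a (l 14806272) (l 14554296))) (b (a (l 14926280) (l 14655056)) (a (l 15231832) (l 14949624))))) (b (a (b (a (l 14549912) (l 14466448)) (a (l 14304928) (l 14110712))) (b (l 14438536)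 (l 14089136))) (a (b (a (l 14361848) (l 14069960)) (a (l 14640048) (l 14303392))) (b (a (l 13853232) (l 13884752)) (a (l 13935144) (a (l 13773856) (l 13801008)))))))), by decide +kernel⟩

theorem c_pm_023 : CertB 0 536870912 1610612736 536870912 1045395039 1503240 3 eng mog cd0q0 cd1q3 pd2 false true false .up 0 2 3
    ndB0q0 ndB1q3 pcB2 Cut.none Ext.none :=
  certB1 (fam := false) (s1 := true) (s2 := false) (a := 0) (b := 2) (c := 3) (cn := .up) (n1 := ndB0q0) (n2 := ndB1q3) (pc := pcB2) (cut := Cut.none) (xt := Ext.none) (P1 := 0) (W1 := 536870912) (P2 := 1610612736) (W2 := 536870912) (P3 := 1045395039) (W3 := 1503240) (N0 := 3) (En := eng) (mo := mog) (C1 := cd0q0) (C2 := cd1q3) (C3 := pd2)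
    rfl (fun _ => rfl) k0_pm_023

noncomputable def f_pm_033 : ℕ → ℕ → ℕ → ℕ → Bool := onCell 1610612736 536870912 1610612736 536870912 1045395039 1503240
    (rowB 3 eng mog cd0q0 cd1q3 pd3 2 false true false .pnn 0 3 3 (qsf 0 536870912 1610612736 536870912 3) ndB0q0 ndB1q3 pcB3 Cut.none Ext.none)

def k0_pm_033 : ∃ t, chk3 f_pm_033 t 1 1 1 = true :=
  ⟨(a (b (a (b (a (b (b (a (a (l 14968304) (l 14872152)) (l 14737032)) (a (l 14932608) (a (l 14919896) (l 14818664)))) (a (b (l 15187880) (l 15292600)) (b (l 14889136) (l 15152928)))) (l 4)) (a (b (l 15380304) (l 15581760)) (b (a (b (l 15117304) (l 15239808)) (l 4)) (l 15325744)))) (l 4)) (b (a (a (l 15835936) (l 15679840)) (l 4)) (a (a (l 15972688) (l 16012656)) (a (l 15771672) (l 4))))) (l 4)), by decide +kernel⟩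

theorem c_pm_033 : CertB 0 536870912 1610612736 536870912 1045395039 1503240 3 eng mog cd0q0 cd1q3 pd3 false true false .pnn 0 3 3
    ndB0q0 ndB1q3 pcB3 Cut.none Ext.none :=
  certB2 (fam := false) (s1 := true) (s2 := false) (a := 0) (b := 3) (c := 3) (cn := .pnn) (n1 := ndB0q0) (n2 := ndB1q3) (pc := pcB3) (cut := Cut.none) (xt := Ext.none) (P1 := 0) (W1 := 536870912) (P2 := 1610612736) (W2 := 536870912) (P3 := 1045395039) (W3 := 1503240) (N0 := 3) (En := eng) (mo := mog) (C1 := cd0q0) (C2 := cd1q3) (C3 := pd3)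
    rfl (fun _ => rfl) k0_pm_033

noncomputable def f_pm_101 : ℕ → ℕ → ℕ → ℕ → Bool := onCell 0 536870912 536870912 536870912 1045395039 1503240
    (rowB 3 eng mog cd0q1 cd1q1 pd0 2 false true false .npn 1 0 1 (qsf 536870912 536870912 536870912 536870912 0) ndB0q1 ndB1q1 pcB0 Cut.none Ext.none)

def k0_pm_101 : ∃ t, chk3 f_pm_101 t 1 1 1 = true :=
  ⟨(a (b (a (b (l 4) (a (b (l 4) (b (l 4) (a (l 16299960) (l 16407816)))) (l 4))) (l 4)) (a (b (a (b (a (b (l 16034456) (l 15670472)) (b (l 16224792) (l 15921864))) (a (b (l 15305896) (l 14957840)) (l 15205640))) (b (a (b (l 16318352) (l 16112832)) (b (l 16362824) (l 16242760))) (a (l 15686000) (l 15885008)))) (b (a (b (a (b (l 14760408) (l 14734696)) (b (l 15069328) (l 15001184))) (a (l 14805512) (l 14984704))) (b (a (l 15289296) (l 15526592)) (a (l 15186232) (l 15377312)))) (a (a (b (a (l 15278464) (l 15079304)) (b (a (b (l 16132376) (l 16150624)) (l 15509952)) (a (a (l 16107024) (l 16079288)) (b (l 15833040) (l 16022376))))) (b (l 15071360)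 (b (l 15245544) (l 15415608)))) (b (l 15273496) (a (l 15316352) (l 15422896)))))) (b (a (b (a (l 74858580551) (l 81301132039)) (a (l 16043736) (l 16160928))) (b (l 4) (a (l 16065888) (l 16131368)))) (a (b (b (l 15805408) (a (l 15549784) (l 15710392))) (b (l 15581536) (l 15614472))) (b (a (l 15930104) (l 16011032)) (b (l 15834096) (l 15667608))))))) (b (l 4) (b (a (a (b (l 4) (b (l 4) (l 75932164487))) (l 4)) (l 4)) (a (b (a (a (l 16037488) (l 16083024)) (a (l 16141248) (l 16205000))) (a (b (l 15859592) (a (l 15678504) (l 15710400))) (b (l 15950568) (a (l 15752088) (l 15806400))))) (a (b (b (l 4) (l 16235096)) (b (l 16095264) (a (l 15882656) (l 15970696)))) (b (l 4) (a (b (l 16176936) (l 16060384)) (b (l 4) (l 16129784))))))))), by decide +kernel⟩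

theorem c_pm_101 : CertB 536870912 536870912 536870912 536870912 1045395039 1503240 3 eng mog cd0q1 cd1q1 pd0 false true false .npn 1 0 1
    ndB0q1 ndB1q1 pcB0 Cut.none Ext.none :=
  certB2 (fam := false) (s1 := true) (s2 := false) (a := 1) (b := 0) (c := 1) (cn := .npn) (n1 := ndB0q1) (n2 := ndB1q1) (pc := pcB0) (cut := Cut.none) (xt := Ext.none) (P1 := 536870912) (W1 := 536870912) (P2 := 536870912) (W2 := 536870912) (P3 := 1045395039) (W3 := 1503240) (N0 := 3) (En := eng) (mo := mog) (C1 := cd0q1) (C2 := cd1q1) (C3 := pd0)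
    rfl (fun _ => rfl) k0_pm_101

noncomputable def cut_pm_102_a : Cut := Cut.of [[⟨0, 1, 0, 11184810⟩, ⟨1, 0, 0, 11184810⟩, ⟨2, 1, 0, 11184810⟩], [⟨0, 0, 1, 46137344⟩, ⟨1, 1, 2, 46137344⟩, ⟨2, 1, 0, 1048576⟩, ⟨0, 0, 0, 1056440320⟩, ⟨0, 1, 0, 33457795⟩, ⟨1, 0, 0, 33457795⟩, ⟨1, 1, 0, 1056440320⟩]]

noncomputable def xt_pm_102_a : Ext := extD3 3 ⟨4, 1, 1, 5, 33, 5, 163, 200, 81, 200, 1, 64⟩ eng cd0q1 cd1q2a pd0 false true false .npp 1 0 2 rfl ndB0q1 ndB1q2a pcB0

noncomputable def f_pm_102_a : ℕ → ℕ → ℕ → ℕ → Bool := onCell 536870912 536870912 0 536870912 1045395039 1503240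
    (rowB 3 eng mog cd0q1 cd1q2a pd0 0 false true false .npp 1 0 2 (qsf 536870912 536870912 0 536870912 0) ndB0q1 ndB1q2a pcB0 cut_pm_102_a xt_pm_102_a)

def k0_pm_102_a : ∃ t, chk3 f_pm_102_a t 4 2 1 = true :=
  ⟨(b (l 2) (a (l 2) (b (l 2) (a (l 2) (b (l 2) (a (l 2) (l 15515696))))))), by decide +kernel⟩

def k1_pm_102_a : ∃ t, chk3 f_pm_102_a t 10 2 1 = true :=
  ⟨(a (a (b (l 2) (b (b (l 16158664) (l 15999072)) (b (l 15796512) (l 15592112)))) (b (b (b (l 16659744) (l 16620440)) (b (b (l 16592112) (l 16571856)) (b (a (b (l 2) (l 16502536)) (b (l 16563160) (a (b (l 16549464) (l 16529112)) (l 16551488)))) (l 16347160)))) (b (b (b (l 16348640) (l 16245800)) (l 16091496)) (b (l 15884944) (l 15676896))))) (b (b (a (b (l 16680248) (l 16638744)) (b (l 16661800) (l 16660264))) (a (b (l 16599280) (b (l 16570696) (a (b (a (b (l 16548712) (l 16531568)) (l 16550656)) (l 16506624)) (b (l 16560888) (a (b (l 16548320) (l 16533888)) (l 16550424)))))) (l 16557520))) (b (b (a (b (a (l 16427016) (b (l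 16467480) (l 16455168))) (l 16349128)) (b (a (b (a (b (l 16548408) (l 16536080)) (l 16550848)) (a (l 16497048) (l 16504776))) (b (l 16560312) (a (b (l 16549104) (l 16538208)) (l 16552000)))) (a (l 16431480) (b (a (l 16500880) (b (l 16539272) (l 16516512))) (l 16461720))))) (a (l 16065936) (b (l 16352920) (l 16245976)))) (b (a (l 15981336) (l 15980528)) (a (l 15769744) (l 15870360)))))), by decide +kernel⟩

def k2_pm_102_a : ∃ t, chk3 f_pm_102_a t 11 4 1 = true :=
  ⟨(a (b (b (a (b (a (l 16734488) (b (a (l 16750536) (b (l 88214553943) (l 134385440423))) (l 16742240))) (l 16718104)) (b (a (b (a (l 60834146647) (l 3)) (a (b (l 115058089863) (l 16749704)) (l 83382707799))) (l 3)) (a (b (a (l 16740936) (l 16737376)) (l 16732776)) (b (a (b (l 80698356167) (l 125258629831)) (l 57076038439)) (a (l 16743288) (b (l 105931279511) (l 16747432))))))) (a (l 16684576) (a (l 16704360) (l 16676192)))) (a (b (l 16641640) (l 16600680)) (b (l 16666880) (l 16624624)))) (b (b (a (b (l 3) (a (b (l 3) (a (l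 76940252423) (l 3))) (l 3))) (l 3)) (a (b (a (b (a (l 140290996599) (b (l 70497805191) (l 113984336919))) (l 16737848)) (b (l 69424067367) (a (l 112910585575) (l 71571540183)))) (a (l 16720688) (b (a (l 16737104) (l 131164187943)) (l 16729264)))) (b (l 3) (a (b (a (l 90362013415) (l 3)) (a (l 16740072) (l 108615615895))) (l 89825153415))))) (a (b (l 16673208) (l 16650872)) (b (b (a (l 16726752) (b (a (l 120426767623) (l 81772077079)) (l 132237902903))) (l 16690648)) (l 16678920))))), by decide +kernel⟩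

def k3_pm_102_a : ∃ t, chk3 f_pm_102_a t 11 5 1 = true :=
  ⟨(b (a (b (a (b (l 16570992) (a (b (a (b (l 16550592) (l 16540352)) (l 16553896)) (a (l 16505752) (b (l 16541464) (l 16522312)))) (b (l 16561928) (l 16526328)))) (l 16584208)) (a (b (a (l 16439152) (b (a (l 16512080) (b (l 16543856) (l 16528208))) (l 16471440))) (l 16359992)) (b (a (b (l 16549880) (a (l 16518288) (b (l 16546616) (l 16533656)))) (l 16557576)) (a (l 16449992) (b (a (l 16503408) (b (l 16549936) (l 16538744))) (l 16484272)))))) (a (b (l 16609480) (b (l 16579512) (a (b (l 16557104) (a (b (l 16541200) (l 16517712)) (l 16525312))) (l 16566600)))) (b (l 16636784) (l 16596528)))) (a (b (a (b (l 16251160) (l 16142200)) (b (l 16349344) (l 16259704))) (a (l 15894512) (b (l 16148944) (l 16038000)))) (b (a (b (a (l 16464624) (b (a (b (l 16546040) (l 16526848)) (l 16550688)) (l 16501624))) (l 16341864)) (b (a (b (l 16565416) (a (b (l 16550952) (l 16535672)) (l 16555608))) (l 16574304)) (a (b (l 16448104) (l 16452608)) (b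 (a (b (l 16556184) (l 16543720)) (l 16561152)) (a (l 16502248) (l 16493792)))))) (a (b (l 16271544) (l 16159120)) (a (l 16248080) (l 16271720)))))), by decide +kernel⟩

def k4_pm_102_a : ∃ t, chk3 f_pm_102_a t 4 3 1 = true :=
  ⟨(b (a (l 2) (b (a (l 2) (b (a (l 15247736) (l 15312088)) (a (l 15043520) (l 15104888)))) (b (a (b (a (l 2) (b (l 2) (a (l 2) (b (l 14834408) (l 14813640))))) (l 14723584)) (b (a (a (l 14848528) (l 14901512)) (l 14946904)) (a (b (a (l 14801400) (b (l 14834296) (l 14813272))) (l 14763920)) (a (b (b (l 14864880) (l 14837184)) (l 14804736)) (b (l 14883056) (b (l 14842024) (l 14820504))))))) (a (a (l 14565856) (l 14602568)) (a (l 14647440) (l 14700136)))))) (b (a (a (l 2) (b (a (l 2) (l 14348760)) (a (l 14116480) (l 14138640)))) (a (b (a (l 14378040) (l 14415968)) (a (l 14190896) (l 14230984))) (b (a (l 14462224) (l 14516464)) (a (l 14279568) (l 14336304))))) (a (b (a (a (l 2) (b (l 13979840) (l 13883368))) (a (b (l 13994536) (l 13899720)) (b (l 14018752) (l 13925672))))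 (a (b (a (b (l 13803568) (l 13754768)) (b (l 13811416) (l 13763640))) (a (b (l 17811255671) (a (l 13656528) (l 13659552))) (b (l 13716112) (a (l 13665136) (l 13673256))))) (a (b (b (l 13829208) (l 13782488)) (b (l 13736104) (a (l 13683880) (l 13696968)))) (b (b (l 13856664) (l 13811056)) (b (l 13765864) (l 13700184)))))) (b (a (a (b (l 14052208) (l 13960952)) (a (l 14017104) (l 14040968))) (b (l 14153224) (l 14004016))) (a (a (b (b (l 13893520) (l 13849064)) (b (l 13805120) (l 13761744))) (b (l 13896752) (b (l 13853584) (l 13811592)))) (b (b (l 13982848) (l 13941504)) (b (l 13900896) (a (l 13870408) (l 13937864))))))))), by decide +kernel⟩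

def k5_pm_102_a : ∃ t, chk3 f_pm_102_a t 5 6 1 = true :=
  ⟨(b (a (a (b (a (l 15385160) (l 15466680)) (a (l 15175048) (l 15253720))) (b (a (l 15556344) (l 15653864)) (a (l 15340600) (l 15435400)))) (a (b (a (l 15758896) (l 15787224)) (a (l 15537800) (l 15647448))) (b (a (b (l 16046528) (l 15933712)) (b (l 16172656) (l 16058560))) (a (l 15680104) (l 15698312))))) (a (b (a (a (b (l 15015168) (a (b (l 14916776) (b (l 14876288) (l 14848824))) (l 14925520))) (l 15037576)) (a (l 15122120) (l 15214640))) (a (b (a (a (l 14792984) (b (b (l 14857552) (l 14835056)) (l 14799456))) (b (a (b (l 14895088) (l 14868208)) (l 14920968)) (a (l 14833640) (b (l 14880776) (l 14856808))))) (l 14768392)) (b (a (b (l 14984216) (a (b (l 14920480) (l 14895232)) (l 14949152))) (l 15047528)) (a (b (a (l 14859792) (b (l 14911536) (l 14887216))) (l 14834064)) (b (a (b (l 14952344) (l 14929672)) (l 14984592)) (l 14899176)))))) (a (b (a (l 15314800) (l 15422280)) (a (b (l 15146328) (b (l 15061704) (b (l 14994920) (l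 14971784)))) (l 15048752))) (b (a (l 15515736) (l 15552848)) (a (l 15182472) (b (l 15485312) (l 15370184))))))), by decide +kernel⟩

def k6_pm_102_a : ∃ t, chk3 f_pm_102_a t 5 7 1 = true :=
  ⟨(b (a (a (b (a (l 14578320) (l 14647408)) (b (l 14479336) (l 14392944))) (b (a (l 14723336) (l 14805664)) (b (l 14635424) (l 14552632)))) (b (a (b (a (b (l 14941840) (l 14915272)) (b (b (l 15043072) (l 15022256)) (l 14990936))) (l 14898400)) (b (a (b (l 15165288) (b (l 15119448) (l 15079552))) (l 15252944)) (a (l 15047648) (b (a (l 15127160) (l 15178008)) (l 15130496))))) (a (a (l 14729080) (l 14826488)) (a (l 14929056) (b (l 15073272) (l 15000208)))))) (a (b (a (b (l 14308600) (l 14226736)) (b (l 14472504) (l 14395528))) (a (b (b (l 14146432) (l 14107832)) (b (l 14070168) (l 14033512))) (b (l 14322264) (b (l 14270280) (l 14237064))))) (b (a (a (l 14575912) (a (l 14652288) (l 14704856))) (a (b (l 14820200) (l 14753024)) (b (l 14931320) (l 14867272)))) (a (b (b (l 14540336) (l 14508048)) (a (l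 14386680) (l 14497408))) (a (b (l 14670024) (l 14613992)) (b (l 14808824) (b (l 14769248) (l 14724104)))))))), by decide +kernel⟩

def k7_pm_102_a : ∃ t, chk3 f_pm_102_a t 12 2 1 = true :=
  ⟨(b (b (l 3) (a (b (a (b (a (b (l 3) (a (l 98951938375) (l 3))) (l 3)) (a (b (a (l 16735456) (l 114521186855)) (l 16728016)) (b (l 68887179351) (a (l 122574243191) (l 88751390535))))) (l 3)) (a (b (a (l 16711536) (b (l 133848507895) (l 16720816))) (l 16697216)) (b (a (b (l 91435735927) (l 120426743207)) (l 79624590007)) (a (l 16719464) (b (l 102173139783) (l 16728776)))))) (b (l 3) (a (b (l 3) (a (l 86067015575) (l 3))) (l 3))))) (b (a (a (b (l 16665600) (l 16624904)) (b (b (l 16684672) (l 16684800)) (l 16654480))) (a (b (b (a (b (l 119352996215) (l 16722712)) (b (l 79087706695) (l 105931232167))) (a (l 16707256) (l 72645192007))) (l 16663632)) (b (b (l 3) (a (b (l 95193823927) (l 120426735207)) (l 84456415351))) (b (a (l 16716816) (b (l 108078714071) (l 108615564999))) (l 16662704))))) (a (b (a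 (b (l 16595504) (a (b (l 16574104) (a (l 16533272) (l 16567472))) (l 16583816))) (l 16615520)) (a (b (a (b (a (l 16512464) (b (l 16554752) (l 16532416))) (l 16472160)) (b (l 16542776) (a (l 16524480) (b (l 16561768) (l 16544432))))) (l 16357072)) (b (a (l 16574552) (l 16594984)) (a (b (a (l 16536480) (b (l 16568832) (l 16555232))) (l 16494528)) (b (l 16577904) (a (l 16547816) (l 16547464))))))) (a (b (l 16645816) (b (l 16617848) (l 16596656))) (b (l 16655312) (l 16639888)))))), by decide +kernel⟩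

def k8_pm_102_a : ∃ t, chk3 f_pm_102_a t 13 2 1 = true :=
  ⟨(b (l 3) (a (b (b (l 3) (a (b (a (l 96804444103) (l 3)) (a (b (l 122037347847) (l 16721864)) (b (l 3) (l 113984294647)))) (l 3))) (b (a (b (a (l 16707848) (b (l 132237886615) (l 16717744))) (l 16696912)) (b (a (b (l 108078730951) (l 127406058967)) (l 3)) (a (b (l 16722880) (l 16714208)) (b (l 120963631447) (a (l 16724752) (l 124184843191)))))) (a (l 16649632) (b (a (l 16701280) (l 16715496)) (l 16691760))))) (b (l 3) (a (b (a (b (l 3) (l 118279271879)) (l 3)) (b (a (b (a (l 130627290935) (l 123111115687)) (a (l 16721688) (l 136532868263))) (b (l 3) (a (l 130090437447) (l 3)))) (a (l 16712992) (b (a (l 141901574887) (l 135995996263)) (a (l 16719216) (l 16715272)))))) (b (l 3) (a (b (l 3) (b (l 3) (a (b (l 134922276535) (l 149417779927)) (l 3)))) (l 3))))))), by decide +kernel⟩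

def k9_pm_102_a : ∃ t, chk3 f_pm_102_a t 7 2 1 = true :=
  ⟨(l 3), by decide +kernel⟩

def k10_pm_102_a : ∃ t, chk3 f_pm_102_a t 12 6 1 = true :=
  ⟨(b (a (b (a (b (l 16304792) (l 16189464)) (a (l 16265616) (l 16293488))) (a (b (l 16074024) (l 15958472)) (b (l 16209424) (l 16092816)))) (b (a (b (a (b (a (l 16537584) (l 16576488)) (l 16520104)) (b (l 16594432) (a (b (l 16578520) (l 16559800)) (l 16584744)))) (a (l 16431680) (l 16401480))) (b (l 16613640) (a (b (a (b (l 16587184) (l 16572896)) (l 16593376)) (a (l 16528632) (l 16545152))) (b (l 16608832) (a (b (l 16596024) (l 16584584)) (l 16602560)))))) (a (b (l 16308048) (l 16232392)) (b (a (l 16458400) (b (a (l 16542944) (b (l 16590008) (l 16565032))) (l 16502264))) (l 16271784))))) (a (b (a (b (l 15842808) (l 15727048)) (b (l 15976176) (l 15859528))) (a (b (l 15611240) (l 15495416)) (b (l 15742928) (l 15626424)))) (b (a (b (l 16114808) (l 15997296)) (b (l 16195272) (l 16139840))) (a (b (l 15879912) (l 15762744)) (b (l 16021704) (l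 15903872)))))), by decide +kernel⟩

def k11_pm_102_a : ∃ t, chk3 f_pm_102_a t 26 6 1 = true :=
  ⟨(b (b (a (l 16636896) (l 16646856)) (a (b (a (b (a (l 16576560) (l 16612240)) (a (l 16558376) (b (l 16600240) (l 16581016)))) (b (l 16624336) (l 16610440))) (a (l 16487392) (b (a (l 16553640) (b (l 16609968) (l 16595592))) (l 16532376)))) (b (l 16644376) (a (b (l 16620160) (a (b (l 16581160) (l 16573664)) (b (l 16619600) (l 16608224)))) (l 16633792))))) (b (a (b (a (l 16368448) (l 16443056)) (l 16160760)) (b (a (l 16476336) (b (a (b (l 16613896) (l 16589320)) (b (l 16629488) (l 16619184))) (l 16564328))) (a (l 16398936) (l 16453648)))) (a (b (l 16062864) (l 15986320)) (b (a (l 16279608) (l 16355136)) (a (l 16160672) (l 16235920)))))), by decide +kernel⟩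

def k12_pm_102_a : ∃ t, chk3 f_pm_102_a t 27 6 1 = true :=
  ⟨(b (a (b (b (a (l 16697352) (l 16711144)) (l 16689448)) (l 16647144)) (b (b (a (b (a (l 16724776) (b (l 141901598503) (l 141364714231))) (l 16699664)) (b (a (l 135459144983) (l 3)) (a (b (a (l 141364721271) (l 139754116039)) (a (l 16726808) (l 145659688071))) (b (l 3) (a (l 142438460359) (l 3)))))) (a (l 16709976) (b (a (l 16723096) (b (a (l 142975342935) (b (l 139217245943) (l 148344052071))) (l 153175871815))) (l 16719376)))) (b (a (l 16696336) (l 16709528)) (l 16690232)))) (b (a (b (a (b (l 16640832) (a (b (l 16623120) (l 16605664)) (l 16629864))) (l 16653584)) (a (b (a (l 16561104) (l 16599624)) (l 16520720)) (b (a (b (l 16623784) (l 16610488)) (l 16631392)) (a (l 16576944) (b (l 16610504) (l 16597040)))))) (b (l 16677576) (a (b (l 16654576) (a (b (l 16625256) (l 16610744)) (l 16633800))) (l 16670664)))) (a (b (a (l 16410216) (l 16507336)) (a (l 16311792) (l 16388104))) (b (a (b (a (l 16589472) (b (l 16611200) (l 16596336)))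 (l 16552928)) (b (a (b (l 16627624) (l 16590928)) (l 16637232)) (a (l 16588472) (b (l 16612848) (l 16596456))))) (a (l 16422504) (l 16518264)))))), by decide +kernel⟩

def k13_pm_102_a : ∃ t, chk3 f_pm_102_a t 12 7 1 = true :=
  ⟨(b (a (b (b (a (l 15379664) (l 15510120)) (a (b (l 15289376) (a (l 15195440) (l 15249104))) (a (b (l 15390128) (l 15328600)) (l 15427528)))) (a (b (l 15183264) (l 15112696)) (b (b (a (l 15269104) (l 15326528)) (l 15279200)) (l 15228624)))) (b (a (b (l 15645888) (l 15529464)) (b (l 15786464) (l 15669624))) (b (a (b (a (b (l 15422872) (l 15373592)) (l 15477208)) (b (a (l 15376416) (l 15415440)) (l 15387528))) (b (l 15582584) (a (b (l 15502880) (l 15458784)) (l 15557672)))) (a (l 15347296) (a (l 15437712) (b (l 15518824) (l 15483888))))))) (b (a (a (b (l 15046672) (l 14985904)) (b (l 15165616) (l 15108304))) (a (b (l 15287456) (l 15233784)) (b (l 15411424) (l 15361576)))) (a (b (a (l 14931224) (l 15057592)) (a (b (l 14894832) (l 14852000)) (b (l 15024552) (l 15005136))))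 (b (a (b (l 15198192) (l 15176904)) (b (l 15329232) (l 15310304))) (a (b (l 15157760) (b (l 15144944) (l 15137144))) (b (l 15293696) (b (l 15282920) (l 15276528)))))))), by decide +kernel⟩

def k14_pm_102_a : ∃ t, chk3 f_pm_102_a t 13 7 1 = true :=
  ⟨(b (b (a (a (b (l 15931280) (l 15814016)) (b (a (l 16042312) (l 16117296)) (a (l 15924736) (l 15999504)))) (a (b (a (l 16192928) (l 16269080)) (a (l 16074920) (l 16150872))) (b (a (l 16345520) (l 16379880)) (a (l 16227176) (l 16303584))))) (a (b (a (l 15697648) (a (l 15808176) (l 15882792))) (a (b (a (b (l 15586920) (l 15549216)) (b (l 15662248) (l 15631904))) (a (l 15545192) (l 15611008))) (b (l 15758840) (a (b (l 15678656) (l 15664040)) (b (l 15753256) (l 15726968)))))) (a (b (a (l 15958056) (l 16033840)) (a (l 15842672) (l 15918352))) (b (a (l 16110008) (l 16186320)) (a (l 15994424) (l 16070648)))))) (b (a (b (a (l 15536672) (b (l 15675432) (l 15651072))) (a (b (l 15501600) (l 15480664)) (b (l 15630216) (l 15611512)))) (b (a (b (a (b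 (l 15776592) (l 15761400)) (b (l 15845264) (l 15827232))) (l 15776816)) (b (a (a (l 15887192) (l 15928224)) (l 15985360)) (a (b (l 15878528) (l 15865320)) (b (b (l 15950272) (l 15936712)) (l 15930024))))) (a (a (l 15717512) (l 15781560)) (a (l 15844920) (l 15907272))))) (a (b (a (b (l 15461880) (l 15445432)) (b (l 15595120) (l 15581232))) (a (b (b (l 15434768) (l 15428456)) (a (l 15364064) (l 15434704))) (b (b (l 15572600) (l 15567696)) (a (l 15505448) (l 15576072))))) (b (a (b (l 15727624) (l 15716224)) (b (l 15857312) (l 15826752))) (a (b (a (l 15673496) (l 15741560)) (a (l 15667184) (l 15736248))) (b (a (l 15808120) (l 15871528)) (a (l 15802952) (l 15863576)))))))), by decide +kernel⟩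

def k15_pm_102_a : ∃ t, chk3 f_pm_102_a t 56 12 1 = true :=
  ⟨(b (b (l 3) (a (b (a (b (l 3) (a (b (l 142438450823) (l 141901601447)) (l 136532890071))) (l 3)) (a (b (a (l 16728752) (b (a (l 142438471015) (l 139217246903)) (l 145659697943))) (l 16726936)) (b (a (l 139217245319) (l 3)) (a (b (a (l 147270309671) (l 142975322823)) (l 148344052263)) (b (l 3) (a (l 145122817143) (l 3))))))) (l 3))) (b (a (b (a (l 16722064) (b (a (l 16728168) (b (a (l 16731160) (l 146733439175)) (l 16730304))) (l 16726456))) (l 16718792)) (b (a (b (a (b (l 154249631607) (a (c (l 142438472007) (l 145122826503)) (l 139217247415))) (l 3)) (a (b (a (l 16730896) (c (l 16726728) (l 147270310199))) (l 16730056)) (b (l 140827859639) (a (c (l 16721488) (l 149417794503)) (l 142975334039))))) (l 3)) (b (a (a (l 16727736) (b (a (l 16730664) (l 149954665415)) (l 16729848))) (a (a (b (a (l 142975334679) (l 140827861127)) (l 151565278071)) (a (b (l 3) (l 145659697943)) (l 141364720807))) (l 3))) (a (l 16726144) (b (a (l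 151565278791) (a (a (l 148344052631) (l 144049076871)) (l 3))) (a (l 16729680) (a (l 16731776) (a (l 150491537015) (l 145659695127))))))))) (a (l 16709824) (a (l 16718864) (a (l 16723200) (b (l 16732120) (l 16723216))))))), by decide +kernel⟩

def k16_pm_102_a : ∃ t, chk3 f_pm_102_a t 57 12 1 = true :=
  ⟨(b (l 3) (b (a (b (l 3) (a (b (l 3) (a (l 141901600823) (l 3))) (l 3))) (l 3)) (a (b (a (b (b (a (a (a (l 152102149767) (l 147270311367)) (l 142975324343)) (l 3)) (a (a (l 16731624) (a (l 152639020983) (l 149417795207))) (l 144585957543))) (a (l 16730168) (b (a (l 149954666999) (l 146733437255)) (a (l 16731512) (l 150491537943))))) (b (l 3) (a (b (l 3) (a (c (l 146733440935) (l 148880921223)) (l 3))) (l 3)))) (a (l 16727384) (b (a (b (a (l 151028408871) (c (l 147807183063) (l 150491534279))) (l 16732096)) (b (l 3) (a (c (l 149417796087) (l 152102147287)) (l 159618344391)))) (a (l 16730080) (b (a (l 16732736) (l 147270313319)) (l 16732056)))))) (b (l 3) (a (b (l 3) (a (b (l 149417796567)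 (a (l 147270313543) (l 151028410855))) (l 3))) (l 3)))))), by decide +kernel⟩

def k17_pm_102_a : ∃ t, chk3 f_pm_102_a t 28 13 1 = true :=
  ⟨(b (a (b (l 16683848) (l 16694168)) (b (a (b (a (l 16722072) (l 16727504)) (l 16719800)) (b (a (b (a (b (l 146733444007) (l 16732056)) (b (l 152102152167) (a (l 146733443639) (l 153175895447)))) (a (l 16730160) (l 144049090135))) (b (l 3) (a (b (l 154249636775) (l 146196571303)) (l 3)))) (a (l 16727792) (b (a (l 16732768) (b (l 155860250439) (l 144585959911))) (l 16731648))))) (a (l 16712792) (b (l 16725744) (l 16721448))))) (a (b (a (b (l 16665184) (a (l 16622608) (l 16641840))) (l 16688104)) (a (b (a (l 16588352) (b (l 16615552) (l 16597616))) (l 16562032)) (b (l 16636976) (a (b (a (l 16593712) (l 16603632)) (l 16579912)) (b (l 16619464) (a (l 16594720) (l 16605256))))))) (b (l 16709904) (a (l 16662528) (l 16706400))))), by decide +kernel⟩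

def k18_pm_102_a : ∃ t, chk3 f_pm_102_a t 29 6 1 = true :=
  ⟨(b (l 3) (a (b (b (a (b (l 3) (a (b (l 158544600423) (a (b (l 145122812087) (l 141364737319)) (l 160155216599))) (l 3))) (l 3)) (a (b (a (b (a (l 16733024) (l 142438474631)) (l 16732024)) (b (l 163376440951) (a (l 140827862423) (l 162839573447)))) (a (l 16728912) (b (l 138143502583) (l 16732576)))) (b (l 3) (a (b (l 166060797831) (l 139217248615)) (l 3))))) (b (a (l 16725664) (b (a (l 16728896) (b (l 167671412951) (l 133848541431))) (a (l 16730776) (l 16735000)))) (a (l 16719104) (l 16728536)))) (b (l 3) (b (a (b (l 3) (a (b (l 166060802647) (l 129016705303)) (l 178945698967))) (l 3)) (a (b (a (l 16735992) (l 123111122327)) (l 16735320)) (b (l 180019437927) (a (b (l 96804452039) (l 16739784)) (l 138680386391)))))))), by decide +kernel⟩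

def k19_pm_102_a : ∃ t, chk3 f_pm_102_a t 15 6 1 = true :=
  ⟨(a (l 3) (l 3)), by decide +kernel⟩

def k20_pm_102_a : ∃ t, chk3 f_pm_102_a t 14 14 1 = true :=
  ⟨(a (b (a (b (a (l 16475488) (l 16519864)) (a (l 16337584) (l 16432040))) (b (a (b (a (b (a (l 16596056) (l 16607224)) (l 16581072)) (b (l 16624800) (a (l 16597744) (l 16609568)))) (l 16560216)) (b (l 16651560) (a (b (l 16606024) (l 16583520)) (l 16578392)))) (a (l 16494448) (b (a (l 16549064) (b (l 16585312) (l 16561392))) (l 16512968))))) (a (b (a (l 16241432) (l 16337376)) (a (l 16146696) (l 16179952))) (b (a (l 16383776) (l 16438720)) (a (l 16273248) (l 16316080))))) (b (a (b (a (l 16683888) (l 16723344)) (a (b (a (b (l 16612120) (l 16587536)) (l 16628352)) (a (l 16549680) (b (a (l 16583064) (l 16597520)) (l 16563952)))) (b (l 16674240) (a (b (l 16620232) (a (l 16585824) (l 16601160))) (l 16638712))))) (b (a (l 16732240) (b (a (l 16738512) (l 62444714999)) (l 16738424))) (a (l 16714872) (l 16726256)))) (a (b (a (l 16482864)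 (b (a (l 16551808) (b (a (l 16589136) (l 16605392)) (l 16568352))) (l 16508520))) (a (l 16370984) (b (l 16447800) (l 16385120)))) (b (a (b (a (b (l 16630824) (l 16601568)) (l 16651896)) (a (l 16555872) (b (l 16606648) (l 16575032)))) (b (l 16708520) (a (b (l 16644392) (l 16612504)) (l 16668488)))) (a (b (l 16508384) (l 16440704)) (b (a (b (l 16558440) (l 16545032)) (b (l 16619240) (a (l 16574448) (l 16594952)))) (l 16510304))))))), by decide +kernel⟩

def k21_pm_102_a : ∃ t, chk3 f_pm_102_a t 14 15 1 = true :=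
  ⟨(a (b (b (a (a (b (l 16061384) (b (l 16019264) (a (l 15975336) (l 16008704)))) (l 16066360)) (a (l 16138984) (l 16190128))) (a (b (b (a (l 15981040) (a (l 16026488) (l 16057112))) (l 16001312)) (l 15991384)) (b (a (b (l 16110368) (a (l 16075528) (l 16103040))) (a (l 16144368) (l 16152424))) (a (l 16073344) (b (b (l 16114864) (l 16098672)) (l 16072960)))))) (a (b (a (l 15944688) (l 15956088)) (b (a (l 15926272) (l 15896424)) (a (l 15792600) (l 15724624)))) (b (b (l 16020480) (a (l 15950448) (l 15935392))) (b (a (l 15865280) (l 15842056)) (a (b (l 15793632) (l 15741552)) (b (l 15763456) (l 15706304))))))) (b (b (a (a (b (l 16283792) (l 16223632)) (b (l 16320480) (l 16253680))) (a (b (l 16370312) (l 16297072)) (b (l 16434760) (l 16355528)))) (a (b (a (l 16161656) (l 16184384)) (a (b (b (l 16121888) (l 16084752)) (a (l 16076352) (l 16081064))) (b (l 16130568) (a (b (l 16098480) (l 16079168)) (l 16098984))))) (a (b (l 16220632) (l 16140440)) (b (l 16272328) (l 16184592))))) (b (a (b (a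 (l 16018696) (b (l 16052072) (l 16007696))) (a (l 15929624) (l 15934736))) (b (a (b (b (a (l 16081000) (l 16096312)) (a (l 16058640) (l 16074040))) (l 16030096)) (b (l 16115448) (a (b (l 16068720) (l 16043528)) (b (l 16091064) (l 16065480))))) (a (l 15952680) (l 15985856)))) (a (b (a (l 15828240) (l 15825720)) (a (b (l 15742816) (l 15680704)) (b (l 15733872) (a (l 15669208) (l 15665968))))) (b (a (l 15836864) (l 15864760)) (a (b (l 15739472) (b (l 15686992) (l 15650560))) (b (l 15763480) (a (l 15682976) (l 15699864))))))))), by decide +kernel⟩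

def k22_pm_102_a : ∃ t, chk3 f_pm_102_a t 30 28 1 = true :=
  ⟨(a (b (a (b (a (l 137069776983) (l 3)) (a (l 43654236343) (b (l 3) (l 42580494135)))) (l 3)) (a (b (a (l 16741880) (b (l 71571530903) (l 16744664))) (a (l 16741184) (l 16744152))) (a (b (b (l 3) (a (l 16745680) (l 16743912))) (b (a (l 16746408) (l 45264862199)) (l 16746720))) (b (l 3) (b (l 62981601383) (a (l 53317927703) (l 16745904))))))) (l 3)), by decide +kernel⟩

def k23_pm_102_a : ∃ t, chk3 f_pm_102_a t 30 29 1 = true :=
  ⟨(a (b (a (b (l 16742320) (l 16730792)) (b (a (l 16746440) (b (a (l 16748176) (l 61907864087)) (l 16748528))) (a (l 16746544) (l 16748640)))) (a (b (a (l 16644288) (l 16689008)) (a (b (a (l 16579888) (l 16601640)) (l 16552760)) (b (l 16635496) (a (l 16586152) (l 16609248))))) (b (l 16748232) (l 16730624)))) (b (a (a (b (b (a (l 16746712) (l 3)) (a (l 70497800135) (l 21642541207))) (b (a (l 16749728) (a (l 16750104) (l 55465416519))) (l 16750208))) (b (l 3) (b (a (l 23253154855) (l 3)) (a (b (l 72108416167)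 (l 16740368)) (a (l 33453706903) (l 3)))))) (l 3)) (a (b (a (l 16750912) (b (a (l 16751184) (b (a (l 16751152) (l 53317935607)) (l 16740928))) (l 16751904))) (a (l 16752600) (l 16753400))) (b (a (a (b (a (b (l 3) (l 56539161559)) (l 3)) (b (a (l 16751648) (b (l 36674938471) (l 82308968039))) (l 16746728))) (b (l 3) (b (l 16748760) (a (b (l 40969906231) (l 75866517543)) (l 16749904))))) (l 3)) (a (b (a (l 16752688) (b (a (l 16752136) (b (l 44728003063) (l 82308969015))) (l 16749920))) (a (l 16753928) (l 16753504))) (a (b (b (a (l 16750128) (l 3)) (a (b (a (l 68887196599) (l 16751232)) (a (l 16752280) (l 72645293191))) (b (l 3) (l 16749568)))) (b (a (l 16752656) (b (a (l 76940260711) (l 15736974967)) (a (l 16752504) (l 80698357303)))) (l 16753160))) (b (l 3) (b (a (b (l 3) (a (l 18421329751) (l 3))) (l 3)) (a (b (a (l 84993324823) (l 21105684535)) (a (l 16752744) (l 88751421431))) (b (l 3) (a (l 23790039319) (l 3)))))))))))), by decide +kernel⟩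

def k24_pm_102_a : ∃ t, chk3 f_pm_102_a t 31 14 1 = true :=
  ⟨(a (l 3) (l 3)), by decide +kernel⟩

def k25_pm_102_a : ∃ t, chk3 f_pm_102_a t 30 30 1 = true :=
  ⟨(a (b (a (b (a (l 16493328) (l 16537336)) (l 16430512)) (b (a (b (a (l 16614392) (l 16617992)) (l 16564040)) (b (l 16656288) (a (b (l 16612528) (l 16591328)) (l 16628128)))) (a (l 16498184) (b (a (l 16558376) (l 16584840)) (l 16525912))))) (a (b (l 16341328) (l 16246840)) (b (a (l 16405416) (l 16454376)) (a (l 16306768) (l 16353608))))) (a (b (b (l 16717280) (a (b (a (b (l 16623016) (l 16600944)) (l 16639936)) (a (l 16566560) (b (l 16606424) (l 16583232)))) (b (l 16683344) (b (l 16650088) (a (l 16612432) (l 16642336)))))) (b (a (l 16508408) (b (b (a (l 16588848) (l 16639976)) (l 16579728)) (l 16542368))) (a (l 16406200) (l 16464584)))) (b (b (a (l 16756264) (b (a (l 16754392) (b (a (l 16753224) (b (a (l 92509518039) (l 26474394103)) (a (l 16753000) (l 96267614967)))) (l 16753832))) (a (l 16756376) (l 16755368)))) (a (l 16721880)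 (l 16738696))) (b (a (a (b (b (l 16649880) (l 16626208)) (l 16631488)) (b (l 16669816) (b (l 16634112) (l 16630608)))) (b (l 16718664) (a (l 16675800) (l 16688504)))) (a (l 594235196661461497981487) (b (a (l 597416107634181423131183) (l 599260639748186420566575)) (l 16571336))))))), by decide +kernel⟩

def k26_pm_102_a : ∃ t, chk3 f_pm_102_a t 30 31 1 = true :=
  ⟨(b (a (b (a (b (l 16172096) (a (l 16104944) (l 16136664))) (a (l 16201640) (l 16246248))) (a (b (a (l 16050848) (b (l 16095768) (l 16067528))) (l 16007536)) (b (a (b (l 16132360) (b (l 16110936) (l 16096536))) (l 16161128)) (a (l 16059712) (b (b (l 16124496) (l 16109832)) (l 16087632)))))) (a (b (a (l 16297448) (b (l 16383424) (l 16327440))) (b (a (l 16211672) (l 16270168)) (a (b (l 16167336) (b (l 16145264) (l 16130712))) (b (l 16226536) (b (l 16204536) (b (l 16193456) (l 16186336))))))) (b (a (l 140846304916029487) (l 589258610567774598638127)) (b (l 140328434843222063) (l 139807266220572719))))) (a (b (a (b (l 15945688)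 (l 15880200)) (b (l 16019280) (l 15955752))) (a (b (l 15811168) (a (l 15723880) (l 15756264))) (b (a (l 15867024) (l 15916352)) (a (l 15798696) (b (l 15868864) (l 15837792)))))) (b (b (a (a (l 16094312) (b (b (l 16175992) (l 16162256)) (l 16142008))) (a (l 138899481745195055) (l 139606330454442031))) (a (l 16088352) (l 138543514853605423))) (b (a (a (l 15977432) (l 16052512)) (l 137952664733646895)) (a (a (b (l 15935856) (l 15909944)) (b (l 16020024) (b (l 16006168) (l 15998104)))) (b (l 137671327176343599) (a (l 136818930646548527) (l 138477063210434607)))))))), by decide +kernel⟩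

def k27_pm_102_a : ∃ t, chk3 f_pm_102_a t 31 30 1 = true :=
  ⟨(a (a (b (b (a (a (b (b (a (b (l 3) (a (b (l 16751808) (l 43117393607)) (l 3))) (l 3)) (a (b (a (l 100025711591) (b (l 16751920) (l 47412361143))) (a (l 16753264) (l 101636324567))) (b (l 3) (a (l 35601200135) (l 3))))) (b (a (l 16753848) (b (a (l 103246937543) (l 38822425831)) (l 110763130231))) (l 16754576))) (b (l 3) (b (a (b (l 3) (a (l 42043651527) (l 3))) (l 3)) (a (b (a (l 16750624) (l 45264877223)) (l 16753600)) (b (l 3) (l 29695618727)))))) (l 3)) (a (b (a (l 16756448) (b (a (l 16754528) (b (l 65129101399) (l 16753880))) (l 16755392))) (l 16748032)) (a (b (b (a (l 23790036711) (l 3)) (a (l 77477132551) (l 25400649927))) (b (a (l 16755288) (l 79087745847)) (l 16756320))) (b (l 3) (a (a (l 70497808951) (l 44728002999)) (l 35064322183)))))) (b (a (l 16760448) (b (a (l 16758976) (b (l 89825164919) (l 16757464))) (l 16761808))) (a (b (l 601064097211767788165679) (a (l 598398973363300006259247) (l 600075178791191202880047)))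 (l 16739328)))) (b (l 3) (a (b (a (b (a (l 55465422135) (b (l 3) (l 16753536))) (l 93046391415)) (b (l 3) (a (l 53317940183) (b (l 3) (l 16754528))))) (b (a (l 16762352) (l 94657006375)) (l 16745024))) (b (l 3) (a (b (a (l 75866520583) (b (l 3) (l 129553613399))) (l 96804492359)) (b (l 3) (a (b (l 129553614759) (l 16759264)) (b (l 3) (l 130090486807))))))))) (a (l 3) (l 3))), by decide +kernel⟩

def k28_pm_102_a : ∃ t, chk3 f_pm_102_a t 31 62 1 = true :=
  ⟨(a (a (b (a (b (l 596289126735953576733231) (l 16585256)) (b (a (l 599406050548468948887599) (b (l 16699776) (l 600514441884446443591727))) (l 599267699725267600566319))) (a (l 141055006070325295) (b (l 594781393534056501667887) (l 141730037642395695)))) (a (b (b (l 16742128) (a (b (l 601107908228942851069999) (l 600237740723340793747503)) (l 600523665256483385203759))) (b (b (l 600242207149373386238063) (l 599290182082391515736175)) (l 597991992326504610490479))) (a (b (l 16747928) (b (b (l 601435914397003575057455) (l 601395850374718466350127))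 (l 601759452279551277034735))) (b (b (a (l 16763720) (l 16751160)) (l 16748128)) (b (a (l 601884977323047977475119) (l 16760720)) (b (l 601158925005521818491951) (l 16754360))))))) (a (b (a (b (a (a (b (l 139754170519) (l 16760936)) (b (l 3) (l 140827913367))) (l 3)) (a (b (a (l 16764176) (l 16761568)) (l 16766352)) (b (a (a (l 118816202663) (l 170355812935)) (l 3)) (a (l 16762352) (a (l 120963687655) (l 187535683959)))))) (l 3)) (a (b (a (l 16750624) (b (a (l 16766200) (l 16758344)) (l 16747904))) (a (b (l 16772576) (l 601777179162367255993391)) (l 602619532259305656807023))) (b (a (b (a (b (l 186461944199) (l 140291044647)) (l 3)) (a (l 83382731879) (b (l 183240722487) (l 2488573178684237311238418031)))) (l 3)) (a (b (a (l 16769200) (l 603417642121116851629679)) (l 603588850988877651471983)) (b (a (b (a (l 163913375271) (l 3)) (l 2458955117240178742223011951)) (l 3)) (a (l 143910713234587759) (b (a (l 162302766967) (l 3)) (a (l 16768728) (l 2836139972959971563318968431))))))))) (b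 (l 3) (l 3)))), by decide +kernel⟩

def k29_pm_102_a : ∃ t, chk3 f_pm_102_a t 62 126 1 = true :=
  ⟨(a (b (a (l 140468210331779119) (l 141510891179294767)) (a (b (l 140227554682781743) (l 16384744)) (b (a (l 141140836714364975) (l 141812432298541103)) (l 141894552020566063)))) (b (a (l 596975980249882621110383) (a (l 601287331131840975203567) (l 601486210295070210993391))) (a (b (l 142916273474715759) (b (l 143129303886512239) (l 143330308392665199))) (a (l 143663941505761519) (l 600981230580807194897647))))), by decide +kernel⟩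

def k30_pm_102_a : ∃ t, chk3 f_pm_102_a t 124 127 1 = true :=
  ⟨(b (a (b (l 16451640) (l 140087092098400303)) (b (l 141716843498815535) (l 142249831835303983))) (a (b (a (l 139775311789899823) (l 140819916745916463)) (b (a (l 139967039175311407) (l 141137194635542575)) (a (a (l 139854201780977711) (l 14)) (l 14)))) (b (b (l 142461213023158319) (l 142979770302349359)) (b (a (l 142647236698570799) (l 143698095112929327)) (l 14))))), by decide +kernel⟩

def k31_pm_102_a : ∃ t, chk3 f_pm_102_a t 125 254 1 = true :=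
  ⟨(a (b (l 143469877665890415) (l 143553440576602223)) (a (b (l 143619136401178863) (l 143805709833650415)) (b (a (l 143658031685206255) (l 602246850131703076089071)) (l 601321342383022251846895)))), by decide +kernel⟩

def k32_pm_102_a : ∃ t, chk3 f_pm_102_a t 250 255 1 = true :=
  ⟨(b (a (l 143727507007553647) (l 143769975657136367)) (b (a (l 143735615956926575) (l 143773342959829231)) (l 14))), by decide +kernel⟩

def k33_pm_102_a : ∃ t, chk3 f_pm_102_a t 502 255 1 = true :=
  ⟨(b (l 143632536717607151) (b (l 143721253607227631) (l 14))), by decide +kernel⟩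

def k34_pm_102_a : ∃ t, chk3 f_pm_102_a t 503 510 1 = true :=
  ⟨(a (l 143844948674396399) (l 602385488944212605086959)), by decide +kernel⟩

def k35_pm_102_a : ∃ t, chk3 f_pm_102_a t 503 1022 1 = true :=
  ⟨(a (l 143840000871563503) (l 143861029037441263)), by decide +kernel⟩

def k36_pm_102_a : ∃ t, chk3 f_pm_102_a t 1006 1023 1 = true :=
  ⟨(l 14), by decide +kernel⟩

def k37_pm_102_a : ∃ t, chk3 f_pm_102_a t 1007 2046 1 = true :=
  ⟨(a (l 143848109771538671) (l 143815330583724271)), by decide +kernel⟩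

def k38_pm_102_a : ∃ t, chk3 f_pm_102_a t 1007 4094 1 = true :=
  ⟨(a (l 143844055320559855) (a (l 143850514953027823) (l 143862128546726127))), by decide +kernel⟩

def k39_pm_102_a : ∃ t, chk3 f_pm_102_a t 2014 4095 1 = true :=
  ⟨(a (l 14) (a (l 14) (a (l 14) (a (l 14) (a (l 14) (a (l 14) (a (l 14) (b (l 143845979465826543) (c (b (l 143845704587378927) (b (l 143845086111793391) (c (c (c (l 143845567147983087) (l 143845292270059759)) (c (l 143845086111613167) (l 143844811233673455))) (b (l 143844261477875951) (c (c (l 143844467636224239) (l 143844192758300911)) (c (l 143843986599854319) (l 143843711721930991))))))) (a (l 14) (a (l 14) (b (l 143843780441915631) (b (l 143843093246836975) (b (c (l 143843299405136111) (l 143842268612919535)) (b (c (l 143843161966100719) (l 143842062454407407)) (c (c (c (l 143843436843991279) (l 143843161966018799)) (c (c (l 143842955807621359) (l 143842818368651503)) (c (l 143842680929698031) (l 143842543490728175)))) (c (c (c (l 143842406051774703) (l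 143842337332281583)) (c (l 143842199893328111) (l 143842062454358255))) (c (c (l 143841925015404783) (l 143841787576434927)) (c (l 143841650137481455) (l 143841512698495215)))))))))))))))))))), by decide +kernel⟩

def k40_pm_102_a : ∃ t, chk3 f_pm_102_a t 2015 4095 2 = true :=
  ⟨(a (b (l 143849278001627375) (b (a (l 143846941538386159) (l 143849690318864623)) (b (c (l 143844124040478959) (l 143843161967739119)) (a (a (c (a (b (l 143845635867590895) (b (l 143845498428588271) (c (a (c (l 143845635867459823) (l 143845360989372655)) (l 143845842026070255)) (c (c (l 143845360989290735) (l 143845223550320879)) (c (l 143845086111367407) (l 143844948672577775)))))) (c (l 143846460501672175) (l 143845979465302255))) (a (b (l 143844605075374319) (b (l 143844467636371695) (b (c (l 143844673794818287) (l 143844192758431983)) (c (c (c (l 143844811233771759) (l 143844742514278639)) (c (l 143844605074981103) (l 143844467636027631))) (c (c (l 143844330197237999) (l 143844192758268143)) (c (l 143844055319314671)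 (c (l 143843986599657711) (l 143843917880180975)))))))) (c (l 143845498428932335) (l 143845017392218351)))) (c (c (l 143847560013889775) (l 143847078977519855)) (c (l 143846597941149935) (l 143846116904780015)))) (c (l 143849484159746287) (c (l 143848796965601519) (l 143848315929231599))))))) (a (b (l 143856424829223151) (c (l 143855806353883375) (l 143854981719441647))) (c (l 143866182996476143) (l 143865358362706159)))), by decide +kernel⟩

def k41_pm_102_a : ∃ t, chk3 f_pm_102_a t 2015 4095 3 = true :=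
  ⟨(b (a (l 143847491295117551) (l 143859723364794607)) (b (a (a (l 143844948673446127) (l 143847903612354799)) (l 143858898731008239)) (a (b (a (c (l 143844948673315055) (l 143843986600575215)) (l 143847491295461615)) (a (a (c (b (l 143843986600198383) (a (b (l 143843505563631855) (b (c (l 143843643002585327) (l 143843161966215407)) (b (c (l 143843643002585327) (l 143843093246738671)) (c (c (c (l 143843780441374959) (l 143843711721898223)) (c (l 143843574282928367) (c (l 143843436843811055) (l 143843368124334319)))) (a (c (c (l 143843093246656751) (l 143842955807523055)) (c (l 143842887088111855) (c (l 143842749649240303) (l 143842680929763567)))) (c (l 143843436844220655) (l 143843161966297327))))))) (c (c (l 143844536356192495) (l 143844330197745903)) (c (l 143844055319822575) (l 143843780441899247))))) (b (l 143842955807981807) (c (a (a (b (l 143842543490826479) (b (l 143842474771316975) (b (l 143842406051840239) (b (c (l 143842543490793711) (l 143842268612870383)) (c (c (l 143842612210106607)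 (l 143842474771235055)) (a (c (l 143842199893344495) (l 143842131173867759)) (l 143842337332396271))))))) (c (l 143842955807867119) (l 143842749649420527))) (c (l 143843574283452655) (l 143843299405529327))) (b (l 143842543491072239) (a (b (l 143842131173998831) (a (b (l 143841925015470319) (c (b (l 143841993734947055) (c (c (l 143842131173900527) (l 143842062454259951)) (c (l 143841993734783215) (l 143841925015388399)))) (b (l 143841718857023727) (b (l 143841718857023727) (c (c (l 143841856295895279) (l 143841787576418543)) (c (l 143841718856941807) (l 143841650137448687))))))) (c (l 143842406051840239) (c (l 143842199893573871) (l 143842062454604015))))) (c (l 143843024527425775) (c (l 143842818369159407) (l 143842680930189551)))))))) (c (c (l 143845635868082415) (a (l 143844742514983151) (l 143845498429620463))) (b (l 143844467637240047) (b (l 143844398917746927) (c (c (l 143844673795670255) (l 143844467636895983)) (c (l 143844192759103727) (c (l 143843986600689903) (l 143843849161769199))))))))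 (c (c (l 143847903611666671) (a (l 143846666661331183) (l 143848178490622191))) (a (c (l 143846185624633583) (c (l 143845842027561199) (l 143845635868934383))) (c (l 143847766173729007) (a (l 143846941539778799) (l 143847697454416111))))))) (c (a (a (l 143851408306847983) (l 143856287390482671)) (l 143863709095166191)) (a (c (l 143853195013259503) (a (l 143850308794974447) (l 143855187878789359))) (c (l 143863021900349679) (l 143862609583128815))))))), by decide +kernel⟩

def k42_pm_102_a : ∃ t, chk3 f_pm_102_a t 63 126 1 = true :=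
  ⟨(a (a (b (b (a (l 603195272613033669385263) (l 602656137343903849098863)) (l 602414888498517730438767)) (b (l 602687266172438849220207) (l 603012101780454579154543))) (b (a (a (l 603029684053164766244463) (l 143894701607813231)) (b (a (l 16772288) (l 143994207413076079)) (l 16768928))) (a (b (l 602542862796249337736815) (l 143974484897513583)) (b (a (l 143897793967079535) (l 143894289271308399)) (b (l 143909407558942831) (l 143917997493731439)))))) (a (b (a (b (a (b (a (l 2826468566403062707541049455) (l 3)) (a (l 16770528) (l 2816797159846152271215050863))) (l 3)) (a (b (l 84993362103) (l 16772864)) (b (a (l 2797454346732317792104988783) (l 3)) (a (l 16772104) (a (l 2284869799215719145200959599) (l 3252010454907417605884625007)))))) (l 3)) (a (b (a (l 16774456) (b (l 144033033922068591) (l 16774016))) (a (l 143899924291190895) (l 16775256))) (b (a (b (a (a (l 2284869799215716740020813935) (l 3252010454907416368935600239)) (l 3)) (a (l 16773464) (b (l 3242339048350500847367536751)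 (l 2429940897569471622512689263)))) (l 3)) (a (b (a (l 16774336) (l 16773400)) (l 16774944)) (b (a (a (l 2275198392658799431748321391) (b (l 3) (l 2807125753289239498435084399))) (l 3)) (a (l 144035370398236783) (l 6))))))) (b (l 3) (l 3)))), by decide +kernel⟩

def k43_pm_102_a : ∃ t, chk3 f_pm_102_a t 63 127 1 = true :=
  ⟨(a (b (b (a (a (l 602683519254652111006831) (l 143920059101413487)) (b (l 143774442505535599) (l 143776435372834927))) (a (a (b (l 602570532946650884664431) (l 143789492078100591)) (a (b (l 143895869820616815) (l 143902810511179887)) (b (l 16760224) (l 143976134182813807)))) (a (b (l 143998468000120943) (a (l 144026161949540463) (l 143957236322861167))) (l 143903841293320303)))) (b (a (a (a (l 602318043095910336949487) (b (l 143825226210541679) (l 143821171760054383))) (b (a (l 143899786853384303) (l 16771776)) (l 143932428567036015))) (b (b (a (l 143990496548634735) (a (l 143892296418754671) (l 144030353837391983))) (a (l 144001354225205359) (a (l 143891334345195631)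 (l 143844879989375087)))) (a (l 144017846898917487) (l 143897862695485551)))) (b (a (a (a (b (l 143741319716749551) (l 143827837536764143)) (l 143815193164644463)) (l 144015922751946863)) (a (l 144041829995217007) (l 144037019644641391))) (a (a (b (a (a (l 143849484168003823) (l 143933047057744111)) (l 143899649401012335)) (c (a (a (a (b (l 143882538234429679) (c (l 143880820247363823) (l 143879995612938479))) (c (l 143901298654593263) (l 143900542740332783))) (a (l 143920127792922863) (l 143939231811813615))) (a (l 143945004246941807) (l 144004721483399279))) (a (b (l 143865014767091951) (a (a (b (l 143879308418826479) (a (c (l 143873742140358895) (a (l 143870443604705519) (l 143875391408144623))) (c (l 143883500307611887) (l 143882675673186543)))) (c (l 143898618594869487) (a (l 143892914877497583) (l 143902604325257455)))) (a (c (l 143917860051419375) (l 143917035417665775)) (l 143936483031957743)))) (a (a (l 143956549121589487) (l 143975309543030895)) (l 143980669661233263)))))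 (a (b (l 143973454130511983) (c (l 144014548371701871) (l 144013105262805103))) (l 144043273118974063))) (a (b (l 144053306168017007) (l 144121682045812847)) (l 6)))))) (b (a (a (b (a (l 143897450375151727) (b (l 143904459755995247) (l 143902398175264879))) (b (l 143885699344580719) (l 143872367762800751))) (b (a (b (l 16775544) (l 6)) (l 6)) (l 6))) (l 6)) (l 6))), by decide +kernel⟩

theorem s44_pm_102_a : ∃ t, chk3 f_pm_102_a t 63 63 1 = true := ex3_b k42_pm_102_a k43_pm_102_a

theorem s45_pm_102_a : ∃ t, chk3 f_pm_102_a t 2015 4095 1 = true := ex3_c k40_pm_102_a k41_pm_102_a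

theorem s46_pm_102_a : ∃ t, chk3 f_pm_102_a t 1007 4095 1 = true := ex3_a k39_pm_102_a s45_pm_102_a

theorem s47_pm_102_a : ∃ t, chk3 f_pm_102_a t 1007 2047 1 = true := ex3_b k38_pm_102_a s46_pm_102_a

theorem s48_pm_102_a : ∃ t, chk3 f_pm_102_a t 1007 1023 1 = true := ex3_b k37_pm_102_a s47_pm_102_a

theorem s49_pm_102_a : ∃ t, chk3 f_pm_102_a t 503 1023 1 = true := ex3_a k36_pm_102_a s48_pm_102_a

theorem s50_pm_102_a : ∃ t, chk3 f_pm_102_a t 503 511 1 = true := ex3_b k35_pm_102_a s49_pm_102_a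

theorem s51_pm_102_a : ∃ t, chk3 f_pm_102_a t 503 255 1 = true := ex3_b k34_pm_102_a s50_pm_102_a

theorem s52_pm_102_a : ∃ t, chk3 f_pm_102_a t 251 255 1 = true := ex3_a k33_pm_102_a s51_pm_102_a

theorem s53_pm_102_a : ∃ t, chk3 f_pm_102_a t 125 255 1 = true := ex3_a k32_pm_102_a s52_pm_102_a

theorem s54_pm_102_a : ∃ t, chk3 f_pm_102_a t 125 127 1 = true := ex3_b k31_pm_102_a s53_pm_102_a

theorem s55_pm_102_a : ∃ t, chk3 f_pm_102_a t 62 127 1 = true := ex3_a k30_pm_102_a s54_pm_102_a

theorem s56_pm_102_a : ∃ t, chk3 f_pm_102_a t 62 63 1 = true := ex3_b k29_pm_102_a s55_pm_102_a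

theorem s57_pm_102_a : ∃ t, chk3 f_pm_102_a t 31 63 1 = true := ex3_a s56_pm_102_a s44_pm_102_a

theorem s58_pm_102_a : ∃ t, chk3 f_pm_102_a t 31 31 1 = true := ex3_b k28_pm_102_a s57_pm_102_a

theorem s59_pm_102_a : ∃ t, chk3 f_pm_102_a t 31 15 1 = true := ex3_b k27_pm_102_a s58_pm_102_a

theorem s60_pm_102_a : ∃ t, chk3 f_pm_102_a t 30 15 1 = true := ex3_b k25_pm_102_a k26_pm_102_a

theorem s61_pm_102_a : ∃ t, chk3 f_pm_102_a t 15 15 1 = true := ex3_a s60_pm_102_a s59_pm_102_a

theorem s62_pm_102_a : ∃ t, chk3 f_pm_102_a t 30 14 1 = true := ex3_b k22_pm_102_a k23_pm_102_a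

theorem s63_pm_102_a : ∃ t, chk3 f_pm_102_a t 15 14 1 = true := ex3_a s62_pm_102_a k24_pm_102_a

theorem s64_pm_102_a : ∃ t, chk3 f_pm_102_a t 15 7 1 = true := ex3_b s63_pm_102_a s61_pm_102_a

theorem s65_pm_102_a : ∃ t, chk3 f_pm_102_a t 14 7 1 = true := ex3_b k20_pm_102_a k21_pm_102_a

theorem s66_pm_102_a : ∃ t, chk3 f_pm_102_a t 7 7 1 = true := ex3_a s65_pm_102_a s64_pm_102_a

theorem s67_pm_102_a : ∃ t, chk3 f_pm_102_a t 28 12 1 = true := ex3_a k15_pm_102_a k16_pm_102_a

theorem s68_pm_102_a : ∃ t, chk3 f_pm_102_a t 28 6 1 = true := ex3_b s67_pm_102_a k17_pm_102_a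

theorem s69_pm_102_a : ∃ t, chk3 f_pm_102_a t 14 6 1 = true := ex3_a s68_pm_102_a k18_pm_102_a

theorem s70_pm_102_a : ∃ t, chk3 f_pm_102_a t 7 6 1 = true := ex3_a s69_pm_102_a k19_pm_102_a

theorem s71_pm_102_a : ∃ t, chk3 f_pm_102_a t 7 3 1 = true := ex3_b s70_pm_102_a s66_pm_102_a

theorem s72_pm_102_a : ∃ t, chk3 f_pm_102_a t 6 7 1 = true := ex3_a k13_pm_102_a k14_pm_102_a

theorem s73_pm_102_a : ∃ t, chk3 f_pm_102_a t 13 6 1 = true := ex3_a k11_pm_102_a k12_pm_102_a

theorem s74_pm_102_a : ∃ t, chk3 f_pm_102_a t 6 6 1 = true := ex3_a k10_pm_102_a s73_pm_102_a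

theorem s75_pm_102_a : ∃ t, chk3 f_pm_102_a t 6 3 1 = true := ex3_b s74_pm_102_a s72_pm_102_a

theorem s76_pm_102_a : ∃ t, chk3 f_pm_102_a t 3 3 1 = true := ex3_a s75_pm_102_a s71_pm_102_a

theorem s77_pm_102_a : ∃ t, chk3 f_pm_102_a t 6 2 1 = true := ex3_a k7_pm_102_a k8_pm_102_a

theorem s78_pm_102_a : ∃ t, chk3 f_pm_102_a t 3 2 1 = true := ex3_a s77_pm_102_a k9_pm_102_a

theorem s79_pm_102_a : ∃ t, chk3 f_pm_102_a t 3 1 1 = true := ex3_b s78_pm_102_a s76_pm_102_a

theorem s80_pm_102_a : ∃ t, chk3 f_pm_102_a t 5 3 1 = true := ex3_b k5_pm_102_a k6_pm_102_a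

theorem s81_pm_102_a : ∃ t, chk3 f_pm_102_a t 2 3 1 = true := ex3_a k4_pm_102_a s80_pm_102_a

theorem s82_pm_102_a : ∃ t, chk3 f_pm_102_a t 11 2 1 = true := ex3_b k2_pm_102_a k3_pm_102_a

theorem s83_pm_102_a : ∃ t, chk3 f_pm_102_a t 5 2 1 = true := ex3_a k1_pm_102_a s82_pm_102_a

theorem s84_pm_102_a : ∃ t, chk3 f_pm_102_a t 2 2 1 = true := ex3_a k0_pm_102_a s83_pm_102_a

theorem s85_pm_102_a : ∃ t, chk3 f_pm_102_a t 2 1 1 = true := ex3_b s84_pm_102_a s81_pm_102_a

theorem s86_pm_102_a : ∃ t, chk3 f_pm_102_a t 1 1 1 = true := ex3_a s85_pm_102_a s79_pm_102_a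

theorem c_pm_102_a : CertB 536870912 536870912 0 536870912 1045395039 1503240 3 eng mog cd0q1 cd1q2a pd0 false true false .npp 1 0 2
    ndB0q1 ndB1q2a pcB0 cut_pm_102_a xt_pm_102_a :=
  certB0 (fam := false) (s1 := true) (s2 := false) (a := 1) (b := 0) (c := 2) (cn := .npp) (n1 := ndB0q1) (n2 := ndB1q2a) (pc := pcB0) (cut := cut_pm_102_a) (xt := xt_pm_102_a) (P1 := 536870912) (W1 := 536870912) (P2 := 0) (W2 := 536870912) (P3 := 1045395039) (W3 := 1503240) (N0 := 3) (En := eng) (mo := mog) (C1 := cd0q1) (C2 := cd1q2a) (C3 := pd0)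
    rfl s86_pm_102_a

noncomputable def cut_pm_102_b : Cut := Cut.of [[⟨0, 1, 0, 11184810⟩, ⟨1, 0, 0, 11184810⟩, ⟨2, 1, 0, 11184810⟩], [⟨0, 0, 1, 46137344⟩, ⟨1, 1, 2, 46137344⟩, ⟨2, 1, 0, 1048576⟩, ⟨0, 0, 0, 1056440320⟩, ⟨0, 1, 0, 33457795⟩, ⟨1, 0, 0, 33457795⟩, ⟨1, 1, 0, 1056440320⟩]]

noncomputable def f_pm_102_b : ℕ → ℕ → ℕ → ℕ → Bool := onCell 0 536870912 1239849684 370763052 1045395039 1503240
    (rowB 3 eng mog cd0q1 cd1q2b pd0 2 false true false .npp 1 0 2 (qsf 536870912 536870912 1239849684 370763052 0) ndB0q1 ndB1q2b pcB0 cut_pm_102_b Ext.none)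

def k0_pm_102_b : ∃ t, chk3 f_pm_102_b t 1 1 1 = true :=
  ⟨(a (l 3) (b (a (l 3) (b (a (l 3) (a (b (a (l 3) (b (a (b (b (a (l 60834123111) (l 29695602839)) (l 61370969095)) (l 3)) (b (l 37748626535) (l 95193782743))) (l 3))) (l 3)) (b (a (b (b (l 16697968) (l 16688304)) (a (l 93046208903) (l 16664912))) (b (b (l 16694392) (l 16684296)) (l 16669312))) (b (a (l 16627944) (l 129553317287)) (l 93046008871))))) (l 3))) (a (l 3) (l 3)))), by decide +kernel⟩

theorem c_pm_102_b : CertB 536870912 536870912 1239849684 370763052 1045395039 1503240 3 eng mog cd0q1 cd1q2b pd0 false true false .npp 1 0 2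
    ndB0q1 ndB1q2b pcB0 cut_pm_102_b Ext.none :=
  certB2 (fam := false) (s1 := true) (s2 := false) (a := 1) (b := 0) (c := 2) (cn := .npp) (n1 := ndB0q1) (n2 := ndB1q2b) (pc := pcB0) (cut := cut_pm_102_b) (xt := Ext.none) (P1 := 536870912) (W1 := 536870912) (P2 := 1239849684) (W2 := 370763052) (P3 := 1045395039) (W3 := 1503240) (N0 := 3) (En := eng) (mo := mog) (C1 := cd0q1) (C2 := cd1q2b) (C3 := pd0)
    rfl (fun _ => rfl) k0_pm_102_b

noncomputable def f_pm_112_a : ℕ → ℕ → ℕ → ℕ → Bool := onCell 536870912 536870912 0 536870912 1045395039 1503240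
    (rowB 3 eng mog cd0q1 cd1q2a pd1 0 false true false .dn 1 1 2 (qsf 536870912 536870912 0 536870912 1) ndB0q1 ndB1q2a pcB1 Cut.none Ext.none)

def k0_pm_112_a : ∃ t, chk3 f_pm_112_a t 1 1 1 = true :=
  ⟨(a (b (a (b (a (a (b (l 16420424) (l 16379120)) (b (a (l 16430312) (b (b (a (l 16445408) (l 16450520)) (l 16441120)) (l 16430560))) (l 16397608))) (b (a (b (a (b (a (b (l 16465152) (l 16432640)) (l 16473768)) (a (l 16446176) (b (l 16454880) (l 16448272)))) (b (l 16498264) (a (b (l 16469112) (l 16456520)) (l 16478752)))) (a (l 16438568) (b (a (l 16448136) (b (l 16458544) (l 16450984))) (l 16443992)))) (b (a (l 16519152) (l 16556488)) (a (b (a (l 16467848) (l 16485280)) (a (l 16451408) (b (l 16463832) (l 16455136)))) (b (l 16513544) (a (l 16474424) (l 16493456)))))) (a (l 16397048) (b (a (l 16443600) (b (a (l 16456144) (b (l 16470912) (l 16460912))) (l 16451808))) (l 16433112))))) (a (a (b (l 16324672) (l 16256600)) (b (l 16347048) (l 16282328))) (a (b (l 16371392) (l 16309552)) (b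 (l 16399064) (l 16339608))))) (a (a (b (b (a (b (l 16595896) (l 16538384)) (b (l 16636952) (l 16580120))) (b (a (b (l 16493320) (a (l 16462488) (b (l 16479936) (l 16468472)))) (l 16519616)) (a (l 16453872) (b (a (l 16449624) (l 98280291335)) (l 16464896))))) (b (b (l 16443344) (l 16419552)) (l 16374032))) (b (b (l 1) (l 1)) (l 1))) (l 1))) (a (b (a (b (a (b (l 16200032) (b (l 16173936) (l 16178056))) (b (l 16225144) (b (l 16194704) (l 16179896)))) (a (l 16199008) (l 16190472))) (b (a (l 16238304) (l 16264944)) (b (a (b (l 16187616) (l 16187168)) (b (l 16214992) (l 1))) (l 16193072)))) (b (a (a (l 16236600) (l 16218704)) (a (l 16206056) (l 1))) (a (a (l 16121544) (l 16092552)) (l 1)))) (b (l 1) (l 1)))) (l 1)), by decide +kernel⟩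

theorem c_pm_112_a : CertB 536870912 536870912 0 536870912 1045395039 1503240 3 eng mog cd0q1 cd1q2a pd1 false true false .dn 1 1 2
    ndB0q1 ndB1q2a pcB1 Cut.none Ext.none :=
  certB0 (fam := false) (s1 := true) (s2 := false) (a := 1) (b := 1) (c := 2) (cn := .dn) (n1 := ndB0q1) (n2 := ndB1q2a) (pc := pcB1) (cut := Cut.none) (xt := Ext.none) (P1 := 536870912) (W1 := 536870912) (P2 := 0) (W2 := 536870912) (P3 := 1045395039) (W3 := 1503240) (N0 := 3) (En := eng) (mo := mog) (C1 := cd0q1) (C2 := cd1q2a) (C3 := pd1)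
    rfl k0_pm_112_a

noncomputable def f_pm_112_b : ℕ → ℕ → ℕ → ℕ → Bool := onCell 536870912 536870912 536870912 536870912 1045395039 1503240
    (rowB 3 eng mog cd0q1 cd1q2b pd1 1 false true false .dn 1 1 2 (qsf 536870912 536870912 1239849684 370763052 1) ndB0q1 ndB1q2b pcB1 Cut.none Ext.none)

def k0_pm_112_b : ∃ t, chk3 f_pm_112_b t 1 1 1 = true :=
  ⟨(a (b (b (a (b (a (l 1) (a (b (l 1) (a (l 1) (l 274373835271))) (b (a (l 1) (b (l 1) (l 273837277303))) (a (b (l 271152845047) (l 160557390599)) (b (l 199749112359) (l 16617176)))))) (a (b (a (l 1) (b (l 1) (a (l 1) (l 287258768343)))) (a (l 304975376823) (b (a (l 299069902407) (b (l 102575136503) (l 16466648))) (l 74657827463)))) (b (a (a (b (l 270078961527) (l 149282963223)) (b (l 154651739479) (l 16548880))) (a (l 16586600) (l 16651160))) (a (b (l 16508224) (l 16540528)) (l 16653112))))) (b (a (a (b (a (b (l 277595433831) (l 224982165399)) (b (b (l 250752036551) (l 16632032)) (l 16681000))) (a (l 16616128) (l 16687680))) (b (b (l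 16684576) (l 16704840)) (l 16725880))) (a (b (l 16624520) (l 16660040)) (b (a (l 16574672) (l 16548160)) (l 16515032)))) (a (b (a (l 16689720) (l 16730520)) (l 16667168)) (b (l 16482752) (l 16510848))))) (a (b (a (b (a (l 98816912375) (l 16534896)) (l 16435024)) (b (a (l 16567920) (l 16721944)) (a (l 16686992) (l 16772296)))) (a (l 16472720) (a (l 16674952) (l 16613864)))) (b (a (b (l 16700816) (l 16631680)) (l 16253032)) (a (a (l 16478056) (l 16459584)) (l 16308024))))) (b (a (a (b (l 16538960) (l 16305528)) (b (l 16401872) (l 16158192))) (b (a (l 16186984) (l 16138712)) (a (l 16018680) (l 15897144)))) (b (a (a (l 16079264) (l 15925056)) (a (l 15779320) (l 2))) (a (a (l 15870984) (l 15714200)) (l 2))))) (b (a (b (a (b (b (l 3) (l 236926799927)) (a (b (l 16393672) (l 16355944)) (l 245516526439))) (l 3)) (b (a (a (l 16302008) (l 201492878823)) (l 237999755463)) (a (l 16127512) (a (l 422616202199) (l 2))))) (l 3)) (b (a (b (a (l 15999568) (l 2)) (l 2)) (l 2)) (l 2)))), by decide +kernel⟩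

theorem c_pm_112_b : CertB 536870912 536870912 1239849684 370763052 1045395039 1503240 3 eng mog cd0q1 cd1q2b pd1 false true false .dn 1 1 2
    ndB0q1 ndB1q2b pcB1 Cut.none Ext.none :=
  certB1 (fam := false) (s1 := true) (s2 := false) (a := 1) (b := 1) (c := 2) (cn := .dn) (n1 := ndB0q1) (n2 := ndB1q2b) (pc := pcB1) (cut := Cut.none) (xt := Ext.none) (P1 := 536870912) (W1 := 536870912) (P2 := 1239849684) (W2 := 370763052) (P3 := 1045395039) (W3 := 1503240) (N0 := 3) (En := eng) (mo := mog) (C1 := cd0q1) (C2 := cd1q2b) (C3 := pd1)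
    rfl (fun _ => rfl) k0_pm_112_b

noncomputable def cut_pm_113 : Cut := Cut.of [[⟨0, 1, 0, 14155776⟩, ⟨1, 1, 0, 14155776⟩, ⟨2, 2, 0, 524288⟩]]

noncomputable def xt_pm_113 : Ext := extD3 3 ⟨4, 1, 1, 5, 33, 5, 163, 200, 81, 200, 1, 64⟩ eng cd0q1 cd1q3 pd1 false true false .nn 1 1 3 rfl ndB0q1 ndB1q3 pcB1

noncomputable def f_pm_113 : ℕ → ℕ → ℕ → ℕ → Bool := onCell 536870912 536870912 536870912 536870912 1045395039 1503240
    (rowB 3 eng mog cd0q1 cd1q3 pd1 1 false true false .nn 1 1 3 (qsf 536870912 536870912 1610612736 536870912 1) ndB0q1 ndB1q3 pcB1 cut_pm_113 xt_pm_113)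

def k0_pm_113 : ∃ t, chk3 f_pm_113 t 2 1 1 = true :=
  ⟨(b (b (l 1) (a (l 1) (b (l 1) (a (l 1) (l 16219656))))) (b (a (a (l 1) (b (l 1) (l 16284096))) (b (a (l 102038024903) (l 16169536)) (a (l 16122712) (l 15864480)))) (b (a (a (l 16276264) (l 16107216)) (a (l 15933328) (l 15732016))) (a (a (l 16134016) (l 15954080)) (a (l 15769480) (l 15580800)))))), by decide +kernel⟩

def k1_pm_113 : ∃ t, chk3 f_pm_113 t 3 2 1 = true :=
  ⟨(a (b (a (l 1) (l 3)) (a (b (a (l 1) (l 258803684951)) (l 15962088)) (b (a (l 248200298359) (l 3)) (a (l 258400661239) (l 274506618327))))) (l 3)), by decide +kernel⟩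

def k2_pm_113 : ∃ t, chk3 f_pm_113 t 3 6 1 = true :=
  ⟨(a (b (a (l 15995600) (a (l 15858272) (b (l 15783856) (l 15742368)))) (a (l 15827984) (l 15524584))) (a (b (a (l 352352549879) (l 3)) (a (b (l 15616856) (l 15565984)) (b (l 423756468183) (l 448989585799)))) (l 3))), by decide +kernel⟩

def k3_pm_113 : ∃ t, chk3 f_pm_113 t 6 7 1 = true :=
  ⟨(b (a (b (l 15669656) (l 15557160)) (b (l 15567920) (l 15469256))) (b (a (l 15446248) (l 15364072)) (a (l 15352064) (b (l 15283896) (l 15233568))))), by decide +kernel⟩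

def k4_pm_113 : ∃ t, chk3 f_pm_113 t 7 14 1 = true :=
  ⟨(a (a (b (l 15504520) (l 15432584)) (b (a (l 15478168) (l 15463432)) (l 15425088))) (a (b (l 464021591447) (b (l 464558449527) (a (l 15437096) (l 461874134279)))) (l 3))), by decide +kernel⟩

def k5_pm_113 : ∃ t, chk3 f_pm_113 t 14 15 1 = true :=
  ⟨(b (a (l 15358448) (l 15390568)) (b (a (l 15304904) (l 15379880)) (a (l 15265440) (l 15375968)))), by decide +kernel⟩

def k6_pm_113 : ∃ t, chk3 f_pm_113 t 15 30 1 = true :=
  ⟨(a (a (l 15452104) (b (l 272358893911) (l 15556088))) (a (a (b (l 477443561143) (l 224040726487)) (a (l 5186291766276999230048583759) (l 8822740631679673232278831311))) (l 3))), by decide +kernel⟩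

def k7_pm_113 : ∃ t, chk3 f_pm_113 t 30 31 1 = true :=
  ⟨(b (b (l 15554008) (l 15599336)) (a (l 15576616) (l 15846288))), by decide +kernel⟩

def k8_pm_113 : ∃ t, chk3 f_pm_113 t 62 31 1 = true :=
  ⟨(b (a (b (l 15785128) (l 15915432)) (b (l 2894168412293675544614436943) (l 136973205896200271))) (a (l 138252281696862223) (l 142297110984900687))), by decide +kernel⟩

def k9_pm_113 : ∃ t, chk3 f_pm_113 t 63 62 1 = true :=
  ⟨(a (b (l 9103211421834765166366949455) (a (a (l 138859143588642895) (b (b (l 475297515495) (l 5466762556436580058333151311)) (l 140918529254146127))) (b (l 8851754851358389264994074703) (a (b (b (l 8242456238273633415530070095) (a (a (l 16542232) (l 6076061169525094657631715407)) (l 8252127644831538772622393423))) (a (l 16648760) (a (a (l 142964995653238863) (b (c (l 6530617277701244092954312783) (l 6346860553119255996511699023)) (l 16741048))) (b (b (l 462413429879) (a (b (l 7613814812076489975711400015) (l 6404888992461879424010616911)) (l 8068370920251336626986451023)))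 (a (l 16758608) (b (c (b (l 7217287143242912978327584847) (l 355576294775)) (b (a (l 357723664359) (l 7720200284202603319109206095)) (l 6201789454766573687752147023))) (l 16789112))))))) (a (a (b (l 3) (b (l 3) (b (a (a (b (l 3) (c (l 7449400900608932293950554191) (b (l 440401862759) (a (l 359871179895) (l 7691186064531869673672802383))))) (l 3)) (l 3)) (a (b (c (l 6936816353092338113831682127) (a (l 346449434679) (b (a (l 7497757933393533747391709263) (l 3)) (a (l 348596946231) (b (l 7652500438304211848059879503) (l 6801416661295522529802960975)))))) (l 143635629186236495)) (b (c (l 454360580215) (l 453823688279)) (c (a (l 6714374002283256172570427471) (l 443086291655)) (c (a (b (l 7401043867824370010569818191) (l 372219332007)) (l 443086291623)) (a (b (a (b (l 7401043867824375301941198927) (l 368461218503)) (l 439865067111)) (a (l 16786976) (l 6898130726864698155226628175))) (b (l 3) (l 7903957008784063375109800015)))))))))) (l 3)) (l 3)))))) (l 3)), by decide +kernel⟩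

def k10_pm_113 : ∃ t, chk3 f_pm_113 t 252 126 1 = true :=
  ⟨(l 143732523630657615), by decide +kernel⟩

def k11_pm_113 : ∃ t, chk3 f_pm_113 t 506 126 1 = true :=
  ⟨(l 143498602516627535), by decide +kernel⟩

def k12_pm_113 : ∃ t, chk3 f_pm_113 t 1014 504 1 = true :=
  ⟨(b (a (b (c (l 6491931651474401761497268447) (a (l 16788776) (a (l 16787592) (b (c (l 6927144946535451798039314511) (b (a (l 6743388221954042525855694927) (l 7575129185848895715741646927)) (l 6491931651474209759279824975))) (l 16787128))))) (l 16789344)) (a (c (b (b (l 7971656854682750752290046175) (a (l 6762731035068108658322620639) (l 7671843251418316394771726559))) (l 6443574618689829651208208607)) (b (b (a (b (l 3) (a (b (l 7826585756328745387308761167) (a (l 371682460951) (l 7526772153064323055698526287))) (l 3))) (l 3)) (a (a (l 353965720519) (b (c (l 402820972695) (b (l 7604143405519663652206297167) (l 6927144946535477155526737999))) (l 16786312))) (b (l 452213096247) (a (b (a (l 7043201825218484098919088207)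 (l 436643840135)) (l 6704702595726392259328360527)) (l 7913628415341011882025877583))))) (b (a (l 16787016) (b (a (l 16786256) (b (a (l 372756201927) (l 7536443559621259674146340943)) (l 359871300023))) (l 16786408))) (l 16787320)))) (b (l 3) (a (c (b (l 7449400900609236652532023519) (l 357723815815)) (c (b (b (l 439865065111) (l 7188272923572493106032001247)) (l 358260686695)) (b (b (a (l 7758885910430349999182282831) (l 3)) (a (l 6762731035067907241536208975) (b (l 449528741671) (l 7391372461267516955003748431)))) (l 6462917431803488002302099535)))) (b (l 3) (c (l 7284986989141658835802357983) (c (b (l 7652500438304519986247598303) (l 6637002749827997352237957199)) (b (a (b (l 437180710631) (l 7168930110458433639353385039)) (l 3)) (a (l 357186944871) (b (l 7623486218633536820382548047) (l 6946487759649350254983544911))))))))))) (c (l 143739326880940127) (l 143678166568091727))), by decide +kernel⟩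

def k13_pm_113 : ∃ t, chk3 f_pm_113 t 1015 504 1 = true :=
  ⟨(b (a (b (l 3) (c (l 461339875655) (a (b (l 3) (a (l 454360575607) (l 3))) (l 3)))) (l 3)) (b (a (a (b (c (a (l 7120573077674080950353248479) (l 445770643591)) (c (a (b (l 7430058087495440106571022559) (l 374366813063)) (l 445770643559)) (a (b (a (b (l 7401043867824453504732201039) (l 372756200807)) (l 442549418983)) (a (l 16785672) (b (l 7178601517015370120362377295) (l 359871298951)))) (b (l 3) (a (l 7768557316987306133961015375) (l 3)))))) (c (l 6753059628511240003434659935) (a (l 16786032) (b (c (l 7207615736686359402260758751) (a (l 6782073848182023195623948511) (b (l 451676224215) (l 7420386680938545269564735711)))) (l 6511274464588347428721082463))))) (b (l 3) (a (c (l 437180706327) (b (l 3) (a (b (l 7874942789113643571511099615) (a (l 373829942103) (l 7584800592406135524519493727))) (l 3)))) (l 3)))) (l 3)) (a (a (l 16786776) (c (b (a (l 6588645717043668371458031711) (b (l 454897448599) (l 416779613399))) (l 362018781367))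 (b (a (b (a (l 357723814615) (b (l 7652500438304557026045378655) (a (l 16785040) (l 7255972769470958175705808991)))) (l 16785424)) (b (l 454897448583) (a (b (a (l 7091558858003382557999530079) (l 439865063431)) (l 6724045408840537350473187423)) (l 7961985448125911509337473119)))) (a (l 16785992) (b (a (l 16785224) (b (a (l 373829941671) (l 7604143405519985121916108895)) (l 360408168903))) (l 16785416)))))) (a (b (l 3) (a (c (b (l 442549417639) (l 6666016969499024154969735263)) (c (b (l 443086288535) (l 7207615736686390807060758623)) (b (a (l 7807242943215250794725081183) (l 3)) (a (l 6782073848182052676278599775) (l 7642829031747665762450522207))))) (l 3))) (l 3))))), by decide +kernel⟩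

def k14_pm_113 : ∃ t, chk3 f_pm_113 t 507 505 1 = true :=
  ⟨(a (l 16773656) (a (l 143682633312682063) (b (b (c (a (b (a (l 358260684887) (b (l 430738257623) (l 387251713303))) (l 16785648)) (b (l 459192413815) (a (b (l 418927097639) (l 374366811479)) (l 449528738359)))) (a (b (a (l 6453246025246853818268827743) (b (a (b (l 442012546983) (a (l 374366812215) (l 423222064791))) (l 3)) (a (l 357723813847) (b (l 7681514657975337950490443871) (l 6956159166206562094934622303))))) (l 16780392)) (b (l 459729282071) (a (b (a (b (l 7459072307166251748622155871) (l 6724045408840558309912871007)) (l 447381255543)) (a (l 16784880) (b (l 7188272923572579692570869855) (l 360408168231)))) (b (l 3) (a (l 7836257162886024022588866655) (l 3))))))) (a (l 16786840) (a (l 16785704) (b (c (b (l 404968452711) (l 361481909767)) (b (a (l 6782073848182069168952361055) (l 7671843251418439196472770655)) (l 6520945871145312565750906975))) (l 16785344))))) (l 16788552)))), by decide +kernel⟩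

def k15_pm_113 : ∃ t, chk3 f_pm_113 t 507 253 1 = true :=
  ⟨(l 143915798499917903), by decide +kernel⟩

def k16_pm_113 : ∃ t, chk3 f_pm_113 t 126 127 1 = true :=
  ⟨(l 143508016998334543), by decide +kernel⟩

def k17_pm_113 : ∃ t, chk3 f_pm_113 t 254 252 1 = true :=
  ⟨(a (a (b (l 3) (b (a (a (b (l 3) (b (a (a (b (l 3) (c (l 416242741863) (b (l 444160030023) (l 7197944330129510882180448351)))) (l 3)) (l 3)) (a (b (c (l 387788583655) (a (l 357723813447) (b (l 428590772919) (l 6965830572763506891000299615)))) (l 16784792)) (c (b (l 459729285511) (l 418927097127)) (b (l 459729285479) (a (l 7188272923572601614083244127) (l 450065609591))))))) (l 3)) (l 3)) (c (a (b (a (b (l 362018780039) (l 16785872)) (b (a (b (l 447918125623) (l 406042195399)) (l 3)) (a (l 358260683879) (b (l 435570094839) (l 387788583271))))) (l 16775888)) (b (l 467782334311) (a (b (a (b (l 423758934983) (l 374903681575)) (l 454897446679)) (c (l 375440551703) (l 6511274464588436764037480543))) (b (l 3) (l 453823698999)))))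 (a (b (a (a (l 16785824) (c (l 6375874772791573694898798687) (l 6511274464588417316426629215))) (b (a (b (l 8068370920252060586801119327) (a (l 6791745254739013346543026271) (l 7710528877646135024012050527))) (l 3)) (a (l 358797554775) (b (l 7768557316987641416285192287) (a (l 357723813063) (l 7381701054710964890743619679)))))) (l 16781128)) (b (a (b (l 3) (l 465097992887)) (l 3)) (a (b (a (b (a (l 7130244484231126557890314335) (l 452749963815)) (l 6753059628511364385685913695)) (l 8194099205492016311988650079)) (a (l 16784920) (b (a (l 377051165431) (l 435033223959)) (l 362018779975)))) (b (l 3) (a (b (l 3) (l 7700857471089247952305160287)) (l 3))))))))) (l 3)) (l 3)), by decide +kernel⟩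

def k18_pm_113 : ∃ t, chk3 f_pm_113 t 254 253 1 = true :=
  ⟨(a (a (a (l 143858417741856847) (b (a (l 144030560020086879) (b (b (c (b (a (l 377588035815) (l 437717578007)) (l 362018779527)) (b (a (l 6801416661295965289434005599) (b (l 465634864935) (l 7468743713723247740696526943))) (l 6520945871145377162057875551))) (l 16786056)) (l 16788536))) (l 16793168))) (b (b (a (b (a (a (b (l 3) (c (l 428590771463) (b (l 453286834247) (l 7236629956357248216282562655)))) (l 3)) (l 3)) (a (a (l 355039457847) (b (c (l 418927093991) (l 7323672615369508320088801375)) (l 16784640))) (b (l 469392959847) (a (c (l 409263420439) (l 7159258703901927410983075935)) (l 458655542727))))) (l 3)) (a (b (c (l 6375874772791634649073549407) (l 6520945871145396266071720031)) (l 16787144)) (b (a (b (c (l 456508058503) (l 8145742172707486807775625311)) (a (l 6433903212133150112318586975) (c (l 439328190391) (l 7826585756329212885904310367)))) (l 3)) (a (b (l 362018779095) (l 16785368)) (b (a (b (l 454897446615) (l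 401747225847)) (l 3)) (a (l 357186941159) (b (l 443623157687) (l 387788582407)))))))) (b (a (l 16789512) (l 16781384)) (l 16770128)))) (b (a (b (l 3) (a (b (l 3) (l 477446015255)) (l 3))) (l 3)) (a (b (a (b (a (b (a (l 6627331343271503836971188319) (l 462413638631)) (l 6549960090816167913387458655)) (b (l 3) (l 460266154359))) (a (l 16785256) (b (a (l 377051163911) (l 442549415271)) (l 360945036743)))) (b (l 3) (a (b (l 3) (a (l 432885739031) (l 3))) (l 3)))) (a (l 16765840) (b (a (l 6569302903930017716941783135) (b (l 474761667895) (a (l 413021515559) (l 463487379719)))) (l 6520945871145432756112261215)))) (b (l 3) (a (b (l 3) (a (b (l 461876766311) (l 7255972769471140007435223135)) (l 3))) (l 3)))))), by decide +kernel⟩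

def k19_pm_113 : ∃ t, chk3 f_pm_113 t 255 126 1 = true :=
  ⟨(l 3), by decide +kernel⟩

def k20_pm_113 : ∃ t, chk3 f_pm_113 t 254 127 1 = true :=
  ⟨(b (a (l 16758856) (b (a (l 16768712) (b (a (b (a (l 357186939463) (b (l 447918122839) (l 402284094295))) (l 16774336)) (b (l 480667234039) (a (b (l 434496347591) (l 375440549143)) (l 468319215351)))) (a (l 16765904) (b (a (l 16784144) (l 6994844792434391375691759711)) (l 16763840))))) (l 16761664))) (l 16745408)), by decide +kernel⟩

def k21_pm_113 : ∃ t, chk3 f_pm_113 t 255 254 1 = true :=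
  ⟨(a (b (a (b (l 3) (a (b (a (l 458655536471) (l 3)) (a (l 6811088067852971933024534623) (b (l 477446020327) (l 435033217239)))) (l 3))) (l 3)) (a (b (a (l 4905820976140312161799487583) (b (a (b (l 464561118519) (l 422148315351)) (l 3)) (a (l 277730041703) (b (l 451676216647) (l 406579058839))))) (l 144156591555477599)) (b (a (b (l 3) (l 482814715175)) (l 3)) (a (b (a (b (l 435570086615) (l 376514287991)) (l 469929820055)) (a (l 16772040) (b (l 7314001208812663991891312735) (l 276656298503)))) (b (l 3) (a (b (l 3) (l 450065599607)) (l 3))))))) (l 3)), by decide +kernel⟩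

def k22_pm_113 : ∃ t, chk3 f_pm_113 t 510 255 1 = true :=
  ⟨(b (a (l 16779024) (b (a (l 16773056) (b (a (b (l 6743388221954557166003961951) (l 16781408)) (b (l 479593500823) (a (l 399062864551) (l 466708599655)))) (a (l 16761288) (l 5070234887607905577847259231)))) (l 16780096))) (l 16751496)), by decide +kernel⟩

def k23_pm_113 : ∃ t, chk3 f_pm_113 t 511 255 1 = true :=
  ⟨(b (a (b (a (b (l 3) (a (b (l 465634854359) (l 6791745254739139034455572575)) (l 3))) (l 3)) (a (b (a (l 3532481245058090739270402143) (b (a (l 435570085159) (l 3)) (a (l 16777528) (l 6859445100637556962568781919)))) (l 16778640)) (b (a (l 482277847511) (l 3)) (a (b (a (l 6782073848182218015327846495) (l 468319210407)) (a (l 16779968) (b (l 372756188071) (l 16778168)))) (b (l 3) (a (l 457581790711) (l 3))))))) (l 3)) (a (b (a (l 16778264) (b (a (l 16775136) (b (a (l 5002535041709478097724309599) (b (l 477446015303) (l 7497757933394074226145624159))) (l 4442197823437464172881210975))) (l 16778712))) (l 16764536))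 (a (b (b (a (b (l 3) (a (b (l 463487371463) (a (l 267529488887) (l 443086277095))) (l 3))) (l 3)) (a (b (a (l 198810011959) (b (l 7758885910430824094837571679) (a (l 16777408) (l 365776864935)))) (l 16776624)) (b (l 482814719623) (a (b (a (l 6753059628511452140446220383) (l 466171725351)) (l 4809711321311235871939718751)) (b (l 3) (a (l 7884614195670740237606862943) (l 3))))))) (b (a (l 16777784) (b (a (l 16776184) (b (a (l 5060563481050966485494005855) (l 7033530418662039168309854303)) (l 4393840866745684359889808991))) (l 16777984))) (l 16765680))) (b (l 3) (a (b (b (a (b (l 3) (a (a (a (l 4770421284343453696857784415) (l 367387476871)) (l 7894285602227653903750135903)) (l 3))) (l 3)) (a (a (l 203104977991) (b (b (l 7729871690760062205686235231) (a (l 16777968) (l 365776864103))) (l 16776768))) (b (a (l 479056624855) (l 3)) (a (b (a (l 4780092690900367156842381407) (l 448454984151)) (l 4819382767067474303803534943)) (l 8068370920252153289361850463))))) (b (a (l 16777512) (b (a (l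 16776704) (a (l 4297126808670497346226220639) (b (l 7072216044889700498672042079) (l 259476423303)))) (l 16777608))) (l 16771464))) (b (l 3) (b (a (b (a (a (a (b (l 3) (l 5709152172897912700168220255)) (l 8029685294024485361929863263)) (l 3)) (l 3)) (a (a (l 203641848199) (b (b (l 7091558858003532847480258655) (a (l 16777264) (l 6221736726467352201198497375))) (l 16776992))) (b (l 8522927028427251178991599711) (a (a (c (l 4742011519223820275478228575) (l 4732340112378672934648344159)) (l 6)) (l 6))))) (l 3)) (a (a (l 16777128) (l 6)) (l 6))))))))), by decide +kernel⟩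

theorem s24_pm_113 : ∃ t, chk3 f_pm_113 t 255 255 1 = true := ex3_a k22_pm_113 k23_pm_113

theorem s25_pm_113 : ∃ t, chk3 f_pm_113 t 255 127 1 = true := ex3_b k21_pm_113 s24_pm_113

theorem s26_pm_113 : ∃ t, chk3 f_pm_113 t 127 127 1 = true := ex3_a k20_pm_113 s25_pm_113

theorem s27_pm_113 : ∃ t, chk3 f_pm_113 t 254 126 1 = true := ex3_b k17_pm_113 k18_pm_113

theorem s28_pm_113 : ∃ t, chk3 f_pm_113 t 127 126 1 = true := ex3_a s27_pm_113 k19_pm_113

theorem s29_pm_113 : ∃ t, chk3 f_pm_113 t 127 63 1 = true := ex3_b s28_pm_113 s26_pm_113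

theorem s30_pm_113 : ∃ t, chk3 f_pm_113 t 507 504 1 = true := ex3_a k12_pm_113 k13_pm_113

theorem s31_pm_113 : ∃ t, chk3 f_pm_113 t 507 252 1 = true := ex3_b s30_pm_113 k14_pm_113

theorem s32_pm_113 : ∃ t, chk3 f_pm_113 t 507 126 1 = true := ex3_b s31_pm_113 k15_pm_113

theorem s33_pm_113 : ∃ t, chk3 f_pm_113 t 253 126 1 = true := ex3_a k11_pm_113 s32_pm_113

theorem s34_pm_113 : ∃ t, chk3 f_pm_113 t 126 126 1 = true := ex3_a k10_pm_113 s33_pm_113

theorem s35_pm_113 : ∃ t, chk3 f_pm_113 t 126 63 1 = true := ex3_b s34_pm_113 k16_pm_113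

theorem s36_pm_113 : ∃ t, chk3 f_pm_113 t 63 63 1 = true := ex3_a s35_pm_113 s29_pm_113

theorem s37_pm_113 : ∃ t, chk3 f_pm_113 t 63 31 1 = true := ex3_b k9_pm_113 s36_pm_113

theorem s38_pm_113 : ∃ t, chk3 f_pm_113 t 31 31 1 = true := ex3_a k8_pm_113 s37_pm_113

theorem s39_pm_113 : ∃ t, chk3 f_pm_113 t 15 31 1 = true := ex3_a k7_pm_113 s38_pm_113

theorem s40_pm_113 : ∃ t, chk3 f_pm_113 t 15 15 1 = true := ex3_b k6_pm_113 s39_pm_113

theorem s41_pm_113 : ∃ t, chk3 f_pm_113 t 7 15 1 = true := ex3_a k5_pm_113 s40_pm_113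

theorem s42_pm_113 : ∃ t, chk3 f_pm_113 t 7 7 1 = true := ex3_b k4_pm_113 s41_pm_113

theorem s43_pm_113 : ∃ t, chk3 f_pm_113 t 3 7 1 = true := ex3_a k3_pm_113 s42_pm_113

theorem s44_pm_113 : ∃ t, chk3 f_pm_113 t 3 3 1 = true := ex3_b k2_pm_113 s43_pm_113

theorem s45_pm_113 : ∃ t, chk3 f_pm_113 t 3 1 1 = true := ex3_b k1_pm_113 s44_pm_113

theorem s46_pm_113 : ∃ t, chk3 f_pm_113 t 1 1 1 = true := ex3_a k0_pm_113 s45_pm_113

theorem c_pm_113 : CertB 536870912 536870912 1610612736 536870912 1045395039 1503240 3 eng mog cd0q1 cd1q3 pd1 false true false .nn 1 1 3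
    ndB0q1 ndB1q3 pcB1 cut_pm_113 xt_pm_113 :=
  certB1 (fam := false) (s1 := true) (s2 := false) (a := 1) (b := 1) (c := 3) (cn := .nn) (n1 := ndB0q1) (n2 := ndB1q3) (pc := pcB1) (cut := cut_pm_113) (xt := xt_pm_113) (P1 := 536870912) (W1 := 536870912) (P2 := 1610612736) (W2 := 536870912) (P3 := 1045395039) (W3 := 1503240) (N0 := 3) (En := eng) (mo := mog) (C1 := cd0q1) (C2 := cd1q3) (C3 := pd1)
    rfl (fun _ => rfl) s46_pm_113

noncomputable def cut_pm_123 : Cut := Cut.of [[⟨0, 1, 0, 14155776⟩, ⟨1, 1, 0, 14155776⟩, ⟨2, 2, 0, 524288⟩]]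

noncomputable def f_pm_123 : ℕ → ℕ → ℕ → ℕ → Bool := onCell 536870912 536870912 1073741824 536870912 1045395039 1503240
    (rowB 3 eng mog cd0q1 cd1q3 pd2 1 false true false .npn 1 2 3 (qsf 536870912 536870912 1610612736 536870912 2) ndB0q1 ndB1q3 pcB2 cut_pm_123 Ext.none)

def k0_pm_123 : ∃ t, chk3 f_pm_123 t 2 1 1 = true :=
  ⟨(b (a (b (b (a (b (l 16320648) (l 16147696)) (a (l 16146608) (l 15858128))) (a (l 15567320) (l 15549944))) (b (a (l 15248280) (l 15202656)) (a (l 14834248) (l 14866600)))) (b (a (b (b (l 15856664) (l 15792664)) (l 15510656)) (b (b (l 15523176) (l 15628880)) (l 15445112))) (a (b (l 15199480) (l 14964880)) (b (l 15267008) (l 15170720))))) (a (b (a (l 14358072) (b (l 14608992) (l 14438728))) (a (b (l 14074016) (l 14024456)) (b (l 14365856) (l 14396880)))) (b (a (b (l 14814352) (l 14739928)) (b (l 15123936) (l 15071600))) (a (b (l 14722192) (l 2)) (l 2))))), by decide +kernel⟩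

def k1_pm_123 : ∃ t, chk3 f_pm_123 t 3 1 1 = true :=
  ⟨(b (a (b (a (b (a (l 15501984) (l 15340232)) (l 15411088)) (b (b (a (l 15408304) (l 15338904)) (l 15454592)) (b (l 15563848) (l 15695160)))) (a (b (b (l 15453616) (l 15480672)) (l 15492048)) (b (a (l 15759184) (l 15861488)) (a (l 15670328) (l 2))))) (b (b (a (a (b (l 15404624) (l 15588992)) (b (a (l 15440832) (l 15645640)) (a (l 15864040) (l 16168984)))) (b (b (a (l 15974256) (a (a (l 16693960) (a (l 16789984) (l 16774240))) (a (b (a (l 16772816) (l 16744360)) (l 16728872)) (b (b (a (l 16767136) (a (l 16745096) (b (b (b (a (l 16774816) (a (l 16775280) (a (l 16775552) (b (l 6) (l 16775080))))) (l 540729658071)) (l 16765416)) (l 16761112)))) (l 650251247111)) (l 678705330103))))) (a (a (l 16081552) (l 16494000)) (a (a (l 16747360) (l 16741176)) (a (l 16666736) (l 2))))) (a (a (l 16507144) (b (l 16504256) (l 16583208))) (a (a (l 561667454615) (l 2)) (l 2))))) (a (a (b (l 15888416) (l 16051432)) (b (a (l 16248384) (l 16385032)) (l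 16260648))) (a (a (l 16472240) (l 2)) (l 2)))) (a (b (a (a (l 15942240) (l 2)) (l 2)) (l 2)) (l 2)))) (a (b (a (b (l 15419200) (l 2)) (l 2)) (l 2)) (l 2))), by decide +kernel⟩

theorem s2_pm_123 : ∃ t, chk3 f_pm_123 t 1 1 1 = true := ex3_a k0_pm_123 k1_pm_123

theorem c_pm_123 : CertB 536870912 536870912 1610612736 536870912 1045395039 1503240 3 eng mog cd0q1 cd1q3 pd2 false true false .npn 1 2 3
    ndB0q1 ndB1q3 pcB2 cut_pm_123 Ext.none :=
  certB1 (fam := false) (s1 := true) (s2 := false) (a := 1) (b := 2) (c := 3) (cn := .npn) (n1 := ndB0q1) (n2 := ndB1q3) (pc := pcB2) (cut := cut_pm_123) (xt := Ext.none) (P1 := 536870912) (W1 := 536870912) (P2 := 1610612736) (W2 := 536870912) (P3 := 1045395039) (W3 := 1503240) (N0 := 3) (En := eng) (mo := mog) (C1 := cd0q1) (C2 := cd1q3) (C3 := pd2)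
    rfl (fun _ => rfl) s2_pm_123

noncomputable def f_pm_133 : ℕ → ℕ → ℕ → ℕ → Bool := onCell 536870912 536870912 1610612736 536870912 1045395039 1503240
    (rowB 3 eng mog cd0q1 cd1q3 pd3 0 false true false .dn 1 3 3 (qsf 536870912 536870912 1610612736 536870912 3) ndB0q1 ndB1q3 pcB3 Cut.none Ext.none)

def k0_pm_133 : ∃ t, chk3 f_pm_133 t 1 1 1 = true :=
  ⟨(a (b (l 1) (b (l 1) (a (l 612602891863) (l 1)))) (l 1)), by decide +kernel⟩

theorem c_pm_133 : CertB 536870912 536870912 1610612736 536870912 1045395039 1503240 3 eng mog cd0q1 cd1q3 pd3 false true false .dn 1 3 3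
    ndB0q1 ndB1q3 pcB3 Cut.none Ext.none :=
  certB0 (fam := false) (s1 := true) (s2 := false) (a := 1) (b := 3) (c := 3) (cn := .dn) (n1 := ndB0q1) (n2 := ndB1q3) (pc := pcB3) (cut := Cut.none) (xt := Ext.none) (P1 := 536870912) (W1 := 536870912) (P2 := 1610612736) (W2 := 536870912) (P3 := 1045395039) (W3 := 1503240) (N0 := 3) (En := eng) (mo := mog) (C1 := cd0q1) (C2 := cd1q3) (C3 := pd3)
    rfl k0_pm_133

noncomputable def cut_pm_202_a : Cut := Cut.of [[⟨0, 1, 0, 26843545⟩, ⟨1, 0, 0, 26843545⟩, ⟨2, 1, 0, 26843545⟩], [⟨0, 0, 1, 46137344⟩, ⟨1, 1, 2, 46137344⟩, ⟨2, 1, 0, 1048576⟩, ⟨0, 0, 0, 1056440320⟩, ⟨0, 1, 0, 33457795⟩, ⟨1, 0, 0, 33457795⟩, ⟨1, 1, 0, 1056440320⟩]]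

noncomputable def f_pm_202_a : ℕ → ℕ → ℕ → ℕ → Bool := onCell 0 536870912 0 536870912 1045395039 1503240
    (rowB 3 eng mog cd0q2 cd1q2a pd0 0 false true false .pp 2 0 2 (qsf 0 536870912 0 536870912 0) ndB0q2 ndB1q2a pcB0 cut_pm_202_a Ext.none)

def k0_pm_202_a : ∃ t, chk3 f_pm_202_a t 1 1 1 = true :=
  ⟨(a (l 3) (b (l 3) (a (l 3) (b (l 3) (a (l 3) (b (l 3) (a (l 3) (b (l 3) (l 6))))))))), by decide +kernel⟩

theorem c_pm_202_a : CertB 0 536870912 0 536870912 1045395039 1503240 3 eng mog cd0q2 cd1q2a pd0 false true false .pp 2 0 2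
    ndB0q2 ndB1q2a pcB0 cut_pm_202_a Ext.none :=
  certB0 (fam := false) (s1 := true) (s2 := false) (a := 2) (b := 0) (c := 2) (cn := .pp) (n1 := ndB0q2) (n2 := ndB1q2a) (pc := pcB0) (cut := cut_pm_202_a) (xt := Ext.none) (P1 := 0) (W1 := 536870912) (P2 := 0) (W2 := 536870912) (P3 := 1045395039) (W3 := 1503240) (N0 := 3) (En := eng) (mo := mog) (C1 := cd0q2) (C2 := cd1q2a) (C3 := pd0)
    rfl k0_pm_202_a

noncomputable def cut_pm_202_b : Cut := Cut.of [[⟨0, 1, 0, 26843545⟩, ⟨1, 0, 0, 26843545⟩, ⟨2, 1, 0, 26843545⟩], [⟨0, 0, 1, 46137344⟩, ⟨1, 1, 2, 46137344⟩, ⟨2, 1, 0, 1048576⟩, ⟨0, 0, 0, 1056440320⟩, ⟨0, 1, 0, 33457795⟩, ⟨1, 0, 0, 33457795⟩, ⟨1, 1, 0, 1056440320⟩]]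

noncomputable def f_pm_202_b : ℕ → ℕ → ℕ → ℕ → Bool := onCell 0 536870912 1239849684 370763052 1045395039 1503240
    (rowB 3 eng mog cd0q2 cd1q2b pd0 0 false true false .pp 2 0 2 (qsf 0 536870912 1239849684 370763052 0) ndB0q2 ndB1q2b pcB0 cut_pm_202_b Ext.none)

def k0_pm_202_b : ∃ t, chk3 f_pm_202_b t 1 1 1 = true :=
  ⟨(l 3), by decide +kernel⟩

theorem c_pm_202_b : CertB 0 536870912 1239849684 370763052 1045395039 1503240 3 eng mog cd0q2 cd1q2b pd0 false true false .pp 2 0 2
    ndB0q2 ndB1q2b pcB0 cut_pm_202_b Ext.none :=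
  certB0 (fam := false) (s1 := true) (s2 := false) (a := 2) (b := 0) (c := 2) (cn := .pp) (n1 := ndB0q2) (n2 := ndB1q2b) (pc := pcB0) (cut := cut_pm_202_b) (xt := Ext.none) (P1 := 0) (W1 := 536870912) (P2 := 1239849684) (W2 := 370763052) (P3 := 1045395039) (W3 := 1503240) (N0 := 3) (En := eng) (mo := mog) (C1 := cd0q2) (C2 := cd1q2b) (C3 := pd0)
    rfl k0_pm_202_b

noncomputable def f_pm_203 : ℕ → ℕ → ℕ → ℕ → Bool := onCell 0 536870912 0 536870912 1045395039 1503240
    (rowB 3 eng mog cd0q2 cd1q3 pd0 1 false true false .up 2 0 3 (qsf 0 536870912 1610612736 536870912 0) ndB0q2 ndB1q3 pcB0 Cut.none Ext.none)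

def k0_pm_203 : ∃ t, chk3 f_pm_203 t 1 1 1 = true :=
  ⟨(l 3), by decide +kernel⟩

theorem c_pm_203 : CertB 0 536870912 1610612736 536870912 1045395039 1503240 3 eng mog cd0q2 cd1q3 pd0 false true false .up 2 0 3
    ndB0q2 ndB1q3 pcB0 Cut.none Ext.none :=
  certB1 (fam := false) (s1 := true) (s2 := false) (a := 2) (b := 0) (c := 3) (cn := .up) (n1 := ndB0q2) (n2 := ndB1q3) (pc := pcB0) (cut := Cut.none) (xt := Ext.none) (P1 := 0) (W1 := 536870912) (P2 := 1610612736) (W2 := 536870912) (P3 := 1045395039) (W3 := 1503240) (N0 := 3) (En := eng) (mo := mog) (C1 := cd0q2) (C2 := cd1q3) (C3 := pd0)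
    rfl (fun _ => rfl) k0_pm_203

noncomputable def cut_pm_213 : Cut := Cut.of [[⟨0, 1, 0, 14155776⟩, ⟨1, 1, 0, 14155776⟩, ⟨2, 2, 0, 524288⟩]]

noncomputable def f_pm_213 : ℕ → ℕ → ℕ → ℕ → Bool := onCell 0 536870912 1610612736 536870912 1045395039 1503240
    (rowB 3 eng mog cd0q2 cd1q3 pd1 0 false true false .pnn 2 1 3 (qsf 0 536870912 1610612736 536870912 1) ndB0q2 ndB1q3 pcB1 cut_pm_213 Ext.none)

def k0_pm_213 : ∃ t, chk3 f_pm_213 t 1 1 1 = true :=
  ⟨(a (l 3) (b (l 3) (a (l 3) (b (l 3) (b (l 3) (a (l 3) (b (l 3) (a (l 3) (b (l 3) (a (l 3) (b (l 3) (a (l 3) (b (l 3) (b (l 3) (b (l 3) (b (l 3) (b (l 3) (l 6)))))))))))))))))), by decide +kernel⟩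

theorem c_pm_213 : CertB 0 536870912 1610612736 536870912 1045395039 1503240 3 eng mog cd0q2 cd1q3 pd1 false true false .pnn 2 1 3
    ndB0q2 ndB1q3 pcB1 cut_pm_213 Ext.none :=
  certB0 (fam := false) (s1 := true) (s2 := false) (a := 2) (b := 1) (c := 3) (cn := .pnn) (n1 := ndB0q2) (n2 := ndB1q3) (pc := pcB1) (cut := cut_pm_213) (xt := Ext.none) (P1 := 0) (W1 := 536870912) (P2 := 1610612736) (W2 := 536870912) (P3 := 1045395039) (W3 := 1503240) (N0 := 3) (En := eng) (mo := mog) (C1 := cd0q2) (C2 := cd1q3) (C3 := pd1)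
    rfl k0_pm_213

noncomputable def f_mm_001 : ℕ → ℕ → ℕ → ℕ → Bool := onCell 0 536870912 536870912 536870912 1045395039 1503240
    (rowB 3 eng mog cd0q0 cd1q1 pd0 0 false false false .up 0 0 1 (qsf 0 536870912 536870912 536870912 0) ndB0q0 ndB1q1 pcB0 Cut.none Ext.none)

def k0_mm_001 : ∃ t, chk3 f_mm_001 t 1 1 1 = true :=
  ⟨(l 3), by decide +kernel⟩

theorem c_mm_001 : CertB 0 536870912 536870912 536870912 1045395039 1503240 3 eng mog cd0q0 cd1q1 pd0 false false false .up 0 0 1
    ndB0q0 ndB1q1 pcB0 Cut.none Ext.none :=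
  certB0 (fam := false) (s1 := false) (s2 := false) (a := 0) (b := 0) (c := 1) (cn := .up) (n1 := ndB0q0) (n2 := ndB1q1) (pc := pcB0) (cut := Cut.none) (xt := Ext.none) (P1 := 0) (W1 := 536870912) (P2 := 536870912) (W2 := 536870912) (P3 := 1045395039) (W3 := 1503240) (N0 := 3) (En := eng) (mo := mog) (C1 := cd0q0) (C2 := cd1q1) (C3 := pd0)
    rfl k0_mm_001

noncomputable def f_mm_011 : ℕ → ℕ → ℕ → ℕ → Bool := onCell 0 536870912 536870912 536870912 1045395039 1503240
    (rowB 3 eng mog cd0q0 cd1q1 pd1 0 false false false .pnn 0 1 1 (qsf 0 536870912 536870912 536870912 1) ndB0q0 ndB1q1 pcB1 Cut.none Ext.none)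

def k0_mm_011 : ∃ t, chk3 f_mm_011 t 1 1 1 = true :=
  ⟨(l 3), by decide +kernel⟩

theorem c_mm_011 : CertB 0 536870912 536870912 536870912 1045395039 1503240 3 eng mog cd0q0 cd1q1 pd1 false false false .pnn 0 1 1
    ndB0q0 ndB1q1 pcB1 Cut.none Ext.none :=
  certB0 (fam := false) (s1 := false) (s2 := false) (a := 0) (b := 1) (c := 1) (cn := .pnn) (n1 := ndB0q0) (n2 := ndB1q1) (pc := pcB1) (cut := Cut.none) (xt := Ext.none) (P1 := 0) (W1 := 536870912) (P2 := 536870912) (W2 := 536870912) (P3 := 1045395039) (W3 := 1503240) (N0 := 3) (En := eng) (mo := mog) (C1 := cd0q0) (C2 := cd1q1) (C3 := pd1)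
    rfl k0_mm_011

noncomputable def f_mm_012_a : ℕ → ℕ → ℕ → ℕ → Bool := onCell 0 536870912 0 536870912 1045395039 1503240
    (rowB 3 eng mog cd0q0 cd1q2a pd1 0 false false false .pnp 0 1 2 (qsf 0 536870912 0 536870912 1) ndB0q0 ndB1q2a pcB1 Cut.none Ext.none)

def k0_mm_012_a : ∃ t, chk3 f_mm_012_a t 1 1 1 = true :=
  ⟨(l 5), by decide +kernel⟩

theorem c_mm_012_a : CertB 0 536870912 0 536870912 1045395039 1503240 3 eng mog cd0q0 cd1q2a pd1 false false false .pnp 0 1 2
    ndB0q0 ndB1q2a pcB1 Cut.none Ext.none :=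
  certB0 (fam := false) (s1 := false) (s2 := false) (a := 0) (b := 1) (c := 2) (cn := .pnp) (n1 := ndB0q0) (n2 := ndB1q2a) (pc := pcB1) (cut := Cut.none) (xt := Ext.none) (P1 := 0) (W1 := 536870912) (P2 := 0) (W2 := 536870912) (P3 := 1045395039) (W3 := 1503240) (N0 := 3) (En := eng) (mo := mog) (C1 := cd0q0) (C2 := cd1q2a) (C3 := pd1)
    rfl k0_mm_012_a

noncomputable def f_mm_012_b : ℕ → ℕ → ℕ → ℕ → Bool := onCell 0 536870912 1239849684 370763052 1045395039 1503240
    (rowB 3 eng mog cd0q0 cd1q2b pd1 0 false false false .pnp 0 1 2 (qsf 0 536870912 1239849684 370763052 1) ndB0q0 ndB1q2b pcB1 Cut.none Ext.none)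

def k0_mm_012_b : ∃ t, chk3 f_mm_012_b t 1 1 1 = true :=
  ⟨(l 5), by decide +kernel⟩

theorem c_mm_012_b : CertB 0 536870912 1239849684 370763052 1045395039 1503240 3 eng mog cd0q0 cd1q2b pd1 false false false .pnp 0 1 2
    ndB0q0 ndB1q2b pcB1 Cut.none Ext.none :=
  certB0 (fam := false) (s1 := false) (s2 := false) (a := 0) (b := 1) (c := 2) (cn := .pnp) (n1 := ndB0q0) (n2 := ndB1q2b) (pc := pcB1) (cut := Cut.none) (xt := Ext.none) (P1 := 0) (W1 := 536870912) (P2 := 1239849684) (W2 := 370763052) (P3 := 1045395039) (W3 := 1503240) (N0 := 3) (En := eng) (mo := mog) (C1 := cd0q0) (C2 := cd1q2b) (C3 := pd1)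
    rfl k0_mm_012_b

noncomputable def f_mm_022_a : ℕ → ℕ → ℕ → ℕ → Bool := onCell 0 536870912 0 536870912 1045395039 1503240
    (rowB 3 eng mog cd0q0 cd1q2a pd2 0 false false false .pp 0 2 2 (qsf 0 536870912 0 536870912 2) ndB0q0 ndB1q2a pcB2 Cut.none Ext.none)

def k0_mm_022_a : ∃ t, chk3 f_mm_022_a t 1 1 1 = true :=
  ⟨(l 5), by decide +kernel⟩

theorem c_mm_022_a : CertB 0 536870912 0 536870912 1045395039 1503240 3 eng mog cd0q0 cd1q2a pd2 false false false .pp 0 2 2
    ndB0q0 ndB1q2a pcB2 Cut.none Ext.none :=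
  certB0 (fam := false) (s1 := false) (s2 := false) (a := 0) (b := 2) (c := 2) (cn := .pp) (n1 := ndB0q0) (n2 := ndB1q2a) (pc := pcB2) (cut := Cut.none) (xt := Ext.none) (P1 := 0) (W1 := 536870912) (P2 := 0) (W2 := 536870912) (P3 := 1045395039) (W3 := 1503240) (N0 := 3) (En := eng) (mo := mog) (C1 := cd0q0) (C2 := cd1q2a) (C3 := pd2)
    rfl k0_mm_022_a

noncomputable def f_mm_022_b : ℕ → ℕ → ℕ → ℕ → Bool := onCell 0 536870912 1239849684 370763052 1045395039 1503240
    (rowB 3 eng mog cd0q0 cd1q2b pd2 0 false false false .pp 0 2 2 (qsf 0 536870912 1239849684 370763052 2) ndB0q0 ndB1q2b pcB2 Cut.none Ext.none)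

def k0_mm_022_b : ∃ t, chk3 f_mm_022_b t 1 1 1 = true :=
  ⟨(l 5), by decide +kernel⟩

theorem c_mm_022_b : CertB 0 536870912 1239849684 370763052 1045395039 1503240 3 eng mog cd0q0 cd1q2b pd2 false false false .pp 0 2 2
    ndB0q0 ndB1q2b pcB2 Cut.none Ext.none :=
  certB0 (fam := false) (s1 := false) (s2 := false) (a := 0) (b := 2) (c := 2) (cn := .pp) (n1 := ndB0q0) (n2 := ndB1q2b) (pc := pcB2) (cut := Cut.none) (xt := Ext.none) (P1 := 0) (W1 := 536870912) (P2 := 1239849684) (W2 := 370763052) (P3 := 1045395039) (W3 := 1503240) (N0 := 3) (En := eng) (mo := mog) (C1 := cd0q0) (C2 := cd1q2b) (C3 := pd2)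
    rfl k0_mm_022_b

noncomputable def f_mm_023 : ℕ → ℕ → ℕ → ℕ → Bool := onCell 0 536870912 1610612736 536870912 1045395039 1503240
    (rowB 3 eng mog cd0q0 cd1q3 pd2 0 false false false .up 0 2 3 (qsf 0 536870912 1610612736 536870912 2) ndB0q0 ndB1q3 pcB2 Cut.none Ext.none)

def k0_mm_023 : ∃ t, chk3 f_mm_023 t 1 1 1 = true :=
  ⟨(l 5), by decide +kernel⟩

theorem c_mm_023 : CertB 0 536870912 1610612736 536870912 1045395039 1503240 3 eng mog cd0q0 cd1q3 pd2 false false false .up 0 2 3
    ndB0q0 ndB1q3 pcB2 Cut.none Ext.none :=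
  certB0 (fam := false) (s1 := false) (s2 := false) (a := 0) (b := 2) (c := 3) (cn := .up) (n1 := ndB0q0) (n2 := ndB1q3) (pc := pcB2) (cut := Cut.none) (xt := Ext.none) (P1 := 0) (W1 := 536870912) (P2 := 1610612736) (W2 := 536870912) (P3 := 1045395039) (W3 := 1503240) (N0 := 3) (En := eng) (mo := mog) (C1 := cd0q0) (C2 := cd1q3) (C3 := pd2)
    rfl k0_mm_023

noncomputable def f_mm_033 : ℕ → ℕ → ℕ → ℕ → Bool := onCell 0 536870912 1610612736 536870912 1045395039 1503240
    (rowB 3 eng mog cd0q0 cd1q3 pd3 0 false false false .pnn 0 3 3 (qsf 0 536870912 1610612736 536870912 3) ndB0q0 ndB1q3 pcB3 Cut.none Ext.none)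

def k0_mm_033 : ∃ t, chk3 f_mm_033 t 1 1 1 = true :=
  ⟨(l 5), by decide +kernel⟩

theorem c_mm_033 : CertB 0 536870912 1610612736 536870912 1045395039 1503240 3 eng mog cd0q0 cd1q3 pd3 false false false .pnn 0 3 3
    ndB0q0 ndB1q3 pcB3 Cut.none Ext.none :=
  certB0 (fam := false) (s1 := false) (s2 := false) (a := 0) (b := 3) (c := 3) (cn := .pnn) (n1 := ndB0q0) (n2 := ndB1q3) (pc := pcB3) (cut := Cut.none) (xt := Ext.none) (P1 := 0) (W1 := 536870912) (P2 := 1610612736) (W2 := 536870912) (P3 := 1045395039) (W3 := 1503240) (N0 := 3) (En := eng) (mo := mog) (C1 := cd0q0) (C2 := cd1q3) (C3 := pd3)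
    rfl k0_mm_033

noncomputable def f_mm_101 : ℕ → ℕ → ℕ → ℕ → Bool := onCell 536870912 536870912 536870912 536870912 1045395039 1503240
    (rowB 3 eng mog cd0q1 cd1q1 pd0 0 false false false .npn 1 0 1 (qsf 536870912 536870912 536870912 536870912 0) ndB0q1 ndB1q1 pcB0 Cut.none Ext.none)

def k0_mm_101 : ∃ t, chk3 f_mm_101 t 1 1 1 = true :=
  ⟨(l 3), by decide +kernel⟩

theorem c_mm_101 : CertB 536870912 536870912 536870912 536870912 1045395039 1503240 3 eng mog cd0q1 cd1q1 pd0 false false false .npn 1 0 1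
    ndB0q1 ndB1q1 pcB0 Cut.none Ext.none :=
  certB0 (fam := false) (s1 := false) (s2 := false) (a := 1) (b := 0) (c := 1) (cn := .npn) (n1 := ndB0q1) (n2 := ndB1q1) (pc := pcB0) (cut := Cut.none) (xt := Ext.none) (P1 := 536870912) (W1 := 536870912) (P2 := 536870912) (W2 := 536870912) (P3 := 1045395039) (W3 := 1503240) (N0 := 3) (En := eng) (mo := mog) (C1 := cd0q1) (C2 := cd1q1) (C3 := pd0)
    rfl k0_mm_101

noncomputable def f_mm_102_a : ℕ → ℕ → ℕ → ℕ → Bool := onCell 536870912 536870912 0 536870912 1045395039 1503240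
    (rowB 3 eng mog cd0q1 cd1q2a pd0 0 false false false .npp 1 0 2 (qsf 536870912 536870912 0 536870912 0) ndB0q1 ndB1q2a pcB0 Cut.none Ext.none)

def k0_mm_102_a : ∃ t, chk3 f_mm_102_a t 1 1 1 = true :=
  ⟨(a (l 5) (l 3)), by decide +kernel⟩

theorem c_mm_102_a : CertB 536870912 536870912 0 536870912 1045395039 1503240 3 eng mog cd0q1 cd1q2a pd0 false false false .npp 1 0 2
    ndB0q1 ndB1q2a pcB0 Cut.none Ext.none :=
  certB0 (fam := false) (s1 := false) (s2 := false) (a := 1) (b := 0) (c := 2) (cn := .npp) (n1 := ndB0q1) (n2 := ndB1q2a) (pc := pcB0) (cut := Cut.none) (xt := Ext.none) (P1 := 536870912) (W1 := 536870912) (P2 := 0) (W2 := 536870912) (P3 := 1045395039) (W3 := 1503240) (N0 := 3) (En := eng) (mo := mog) (C1 := cd0q1) (C2 := cd1q2a) (C3 := pd0)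
    rfl k0_mm_102_a

noncomputable def f_mm_102_b : ℕ → ℕ → ℕ → ℕ → Bool := onCell 536870912 536870912 1239849684 370763052 1045395039 1503240
    (rowB 3 eng mog cd0q1 cd1q2b pd0 0 false false false .npp 1 0 2 (qsf 536870912 536870912 1239849684 370763052 0) ndB0q1 ndB1q2b pcB0 Cut.none Ext.none)

def k0_mm_102_b : ∃ t, chk3 f_mm_102_b t 1 1 1 = true :=
  ⟨(l 5), by decide +kernel⟩

theorem c_mm_102_b : CertB 536870912 536870912 1239849684 370763052 1045395039 1503240 3 eng mog cd0q1 cd1q2b pd0 false false false .npp 1 0 2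
    ndB0q1 ndB1q2b pcB0 Cut.none Ext.none :=
  certB0 (fam := false) (s1 := false) (s2 := false) (a := 1) (b := 0) (c := 2) (cn := .npp) (n1 := ndB0q1) (n2 := ndB1q2b) (pc := pcB0) (cut := Cut.none) (xt := Ext.none) (P1 := 536870912) (W1 := 536870912) (P2 := 1239849684) (W2 := 370763052) (P3 := 1045395039) (W3 := 1503240) (N0 := 3) (En := eng) (mo := mog) (C1 := cd0q1) (C2 := cd1q2b) (C3 := pd0)
    rfl k0_mm_102_b

noncomputable def f_mm_112_a : ℕ → ℕ → ℕ → ℕ → Bool := onCell 536870912 536870912 0 536870912 1045395039 1503240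
    (rowB 3 eng mog cd0q1 cd1q2a pd1 2 false false false .dn 1 1 2 (qsf 536870912 536870912 0 536870912 1) ndB0q1 ndB1q2a pcB1 Cut.none Ext.none)

def k0_mm_112_a : ∃ t, chk3 f_mm_112_a t 1 1 1 = true :=
  ⟨(l 5), by decide +kernel⟩

theorem c_mm_112_a : CertB 536870912 536870912 0 536870912 1045395039 1503240 3 eng mog cd0q1 cd1q2a pd1 false false false .dn 1 1 2
    ndB0q1 ndB1q2a pcB1 Cut.none Ext.none :=
  certB2 (fam := false) (s1 := false) (s2 := false) (a := 1) (b := 1) (c := 2) (cn := .dn) (n1 := ndB0q1) (n2 := ndB1q2a) (pc := pcB1) (cut := Cut.none) (xt := Ext.none) (P1 := 536870912) (W1 := 536870912) (P2 := 0) (W2 := 536870912) (P3 := 1045395039) (W3 := 1503240) (N0 := 3) (En := eng) (mo := mog) (C1 := cd0q1) (C2 := cd1q2a) (C3 := pd1)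
    rfl (fun _ => rfl) k0_mm_112_a

noncomputable def f_mm_112_b : ℕ → ℕ → ℕ → ℕ → Bool := onCell 536870912 536870912 1239849684 370763052 1045395039 1503240
    (rowB 3 eng mog cd0q1 cd1q2b pd1 0 false false false .dn 1 1 2 (qsf 536870912 536870912 1239849684 370763052 1) ndB0q1 ndB1q2b pcB1 Cut.none Ext.none)

def k0_mm_112_b : ∃ t, chk3 f_mm_112_b t 1 1 1 = true :=
  ⟨(l 5), by decide +kernel⟩

theorem c_mm_112_b : CertB 536870912 536870912 1239849684 370763052 1045395039 1503240 3 eng mog cd0q1 cd1q2b pd1 false false false .dn 1 1 2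
    ndB0q1 ndB1q2b pcB1 Cut.none Ext.none :=
  certB0 (fam := false) (s1 := false) (s2 := false) (a := 1) (b := 1) (c := 2) (cn := .dn) (n1 := ndB0q1) (n2 := ndB1q2b) (pc := pcB1) (cut := Cut.none) (xt := Ext.none) (P1 := 536870912) (W1 := 536870912) (P2 := 1239849684) (W2 := 370763052) (P3 := 1045395039) (W3 := 1503240) (N0 := 3) (En := eng) (mo := mog) (C1 := cd0q1) (C2 := cd1q2b) (C3 := pd1)
    rfl k0_mm_112_b

noncomputable def f_mm_113 : ℕ → ℕ → ℕ → ℕ → Bool := onCell 536870912 536870912 1610612736 536870912 1045395039 1503240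
    (rowB 3 eng mog cd0q1 cd1q3 pd1 0 false false false .nn 1 1 3 (qsf 536870912 536870912 1610612736 536870912 1) ndB0q1 ndB1q3 pcB1 Cut.none Ext.none)

def k0_mm_113 : ∃ t, chk3 f_mm_113 t 1 1 1 = true :=
  ⟨(l 5), by decide +kernel⟩

theorem c_mm_113 : CertB 536870912 536870912 1610612736 536870912 1045395039 1503240 3 eng mog cd0q1 cd1q3 pd1 false false false .nn 1 1 3
    ndB0q1 ndB1q3 pcB1 Cut.none Ext.none :=
  certB0 (fam := false) (s1 := false) (s2 := false) (a := 1) (b := 1) (c := 3) (cn := .nn) (n1 := ndB0q1) (n2 := ndB1q3) (pc := pcB1) (cut := Cut.none) (xt := Ext.none) (P1 := 536870912) (W1 := 536870912) (P2 := 1610612736) (W2 := 536870912) (P3 := 1045395039) (W3 := 1503240) (N0 := 3) (En := eng) (mo := mog) (C1 := cd0q1) (C2 := cd1q3) (C3 := pd1)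
    rfl k0_mm_113

noncomputable def f_mm_123 : ℕ → ℕ → ℕ → ℕ → Bool := onCell 536870912 536870912 1610612736 536870912 1045395039 1503240
    (rowB 3 eng mog cd0q1 cd1q3 pd2 0 false false false .npn 1 2 3 (qsf 536870912 536870912 1610612736 536870912 2) ndB0q1 ndB1q3 pcB2 Cut.none Ext.none)

def k0_mm_123 : ∃ t, chk3 f_mm_123 t 1 1 1 = true :=
  ⟨(l 5), by decide +kernel⟩

theorem c_mm_123 : CertB 536870912 536870912 1610612736 536870912 1045395039 1503240 3 eng mog cd0q1 cd1q3 pd2 false false false .npn 1 2 3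
    ndB0q1 ndB1q3 pcB2 Cut.none Ext.none :=
  certB0 (fam := false) (s1 := false) (s2 := false) (a := 1) (b := 2) (c := 3) (cn := .npn) (n1 := ndB0q1) (n2 := ndB1q3) (pc := pcB2) (cut := Cut.none) (xt := Ext.none) (P1 := 536870912) (W1 := 536870912) (P2 := 1610612736) (W2 := 536870912) (P3 := 1045395039) (W3 := 1503240) (N0 := 3) (En := eng) (mo := mog) (C1 := cd0q1) (C2 := cd1q3) (C3 := pd2)
    rfl k0_mm_123

noncomputable def f_mm_133 : ℕ → ℕ → ℕ → ℕ → Bool := onCell 536870912 536870912 1610612736 536870912 1045395039 1503240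
    (rowB 3 eng mog cd0q1 cd1q3 pd3 0 false false false .dn 1 3 3 (qsf 536870912 536870912 1610612736 536870912 3) ndB0q1 ndB1q3 pcB3 Cut.none Ext.none)

def k0_mm_133 : ∃ t, chk3 f_mm_133 t 1 1 1 = true :=
  ⟨(l 5), by decide +kernel⟩

theorem c_mm_133 : CertB 536870912 536870912 1610612736 536870912 1045395039 1503240 3 eng mog cd0q1 cd1q3 pd3 false false false .dn 1 3 3
    ndB0q1 ndB1q3 pcB3 Cut.none Ext.none :=
  certB0 (fam := false) (s1 := false) (s2 := false) (a := 1) (b := 3) (c := 3) (cn := .dn) (n1 := ndB0q1) (n2 := ndB1q3) (pc := pcB3) (cut := Cut.none) (xt := Ext.none) (P1 := 536870912) (W1 := 536870912) (P2 := 1610612736) (W2 := 536870912) (P3 := 1045395039) (W3 := 1503240) (N0 := 3) (En := eng) (mo := mog) (C1 := cd0q1) (C2 := cd1q3) (C3 := pd3)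
    rfl k0_mm_133

noncomputable def f_mm_202_a : ℕ → ℕ → ℕ → ℕ → Bool := onCell 0 536870912 0 536870912 1045395039 1503240
    (rowB 3 eng mog cd0q2 cd1q2a pd0 0 false false false .pp 2 0 2 (qsf 0 536870912 0 536870912 0) ndB0q2 ndB1q2a pcB0 Cut.none Ext.none)

def k0_mm_202_a : ∃ t, chk3 f_mm_202_a t 1 1 1 = true :=
  ⟨(l 3), by decide +kernel⟩

theorem c_mm_202_a : CertB 0 536870912 0 536870912 1045395039 1503240 3 eng mog cd0q2 cd1q2a pd0 false false false .pp 2 0 2
    ndB0q2 ndB1q2a pcB0 Cut.none Ext.none :=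
  certB0 (fam := false) (s1 := false) (s2 := false) (a := 2) (b := 0) (c := 2) (cn := .pp) (n1 := ndB0q2) (n2 := ndB1q2a) (pc := pcB0) (cut := Cut.none) (xt := Ext.none) (P1 := 0) (W1 := 536870912) (P2 := 0) (W2 := 536870912) (P3 := 1045395039) (W3 := 1503240) (N0 := 3) (En := eng) (mo := mog) (C1 := cd0q2) (C2 := cd1q2a) (C3 := pd0)
    rfl k0_mm_202_a

noncomputable def f_mm_202_b : ℕ → ℕ → ℕ → ℕ → Bool := onCell 0 536870912 1239849684 370763052 1045395039 1503240
    (rowB 3 eng mog cd0q2 cd1q2b pd0 0 false false false .pp 2 0 2 (qsf 0 536870912 1239849684 370763052 0) ndB0q2 ndB1q2b pcB0 Cut.none Ext.none)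

def k0_mm_202_b : ∃ t, chk3 f_mm_202_b t 1 1 1 = true :=
  ⟨(l 3), by decide +kernel⟩

theorem c_mm_202_b : CertB 0 536870912 1239849684 370763052 1045395039 1503240 3 eng mog cd0q2 cd1q2b pd0 false false false .pp 2 0 2
    ndB0q2 ndB1q2b pcB0 Cut.none Ext.none :=
  certB0 (fam := false) (s1 := false) (s2 := false) (a := 2) (b := 0) (c := 2) (cn := .pp) (n1 := ndB0q2) (n2 := ndB1q2b) (pc := pcB0) (cut := Cut.none) (xt := Ext.none) (P1 := 0) (W1 := 536870912) (P2 := 1239849684) (W2 := 370763052) (P3 := 1045395039) (W3 := 1503240) (N0 := 3) (En := eng) (mo := mog) (C1 := cd0q2) (C2 := cd1q2b) (C3 := pd0)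
    rfl k0_mm_202_b

noncomputable def f_mm_203 : ℕ → ℕ → ℕ → ℕ → Bool := onCell 0 536870912 0 536870912 1045395039 1503240
    (rowB 3 eng mog cd0q2 cd1q3 pd0 1 false false false .up 2 0 3 (qsf 0 536870912 1610612736 536870912 0) ndB0q2 ndB1q3 pcB0 Cut.none Ext.none)

def k0_mm_203 : ∃ t, chk3 f_mm_203 t 1 1 1 = true :=
  ⟨(l 3), by decide +kernel⟩

theorem c_mm_203 : CertB 0 536870912 1610612736 536870912 1045395039 1503240 3 eng mog cd0q2 cd1q3 pd0 false false false .up 2 0 3
    ndB0q2 ndB1q3 pcB0 Cut.none Ext.none :=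
  certB1 (fam := false) (s1 := false) (s2 := false) (a := 2) (b := 0) (c := 3) (cn := .up) (n1 := ndB0q2) (n2 := ndB1q3) (pc := pcB0) (cut := Cut.none) (xt := Ext.none) (P1 := 0) (W1 := 536870912) (P2 := 1610612736) (W2 := 536870912) (P3 := 1045395039) (W3 := 1503240) (N0 := 3) (En := eng) (mo := mog) (C1 := cd0q2) (C2 := cd1q3) (C3 := pd0)
    rfl (fun _ => rfl) k0_mm_203

noncomputable def f_mm_213 : ℕ → ℕ → ℕ → ℕ → Bool := onCell 0 536870912 1610612736 536870912 1045395039 1503240
    (rowB 3 eng mog cd0q2 cd1q3 pd1 0 false false false .pnn 2 1 3 (qsf 0 536870912 1610612736 536870912 1) ndB0q2 ndB1q3 pcB1 Cut.none Ext.none)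

def k0_mm_213 : ∃ t, chk3 f_mm_213 t 1 1 1 = true :=
  ⟨(a (l 3) (l 5)), by decide +kernel⟩

theorem c_mm_213 : CertB 0 536870912 1610612736 536870912 1045395039 1503240 3 eng mog cd0q2 cd1q3 pd1 false false false .pnn 2 1 3
    ndB0q2 ndB1q3 pcB1 Cut.none Ext.none :=
  certB0 (fam := false) (s1 := false) (s2 := false) (a := 2) (b := 1) (c := 3) (cn := .pnn) (n1 := ndB0q2) (n2 := ndB1q3) (pc := pcB1) (cut := Cut.none) (xt := Ext.none) (P1 := 0) (W1 := 536870912) (P2 := 1610612736) (W2 := 536870912) (P3 := 1045395039) (W3 := 1503240) (N0 := 3) (En := eng) (mo := mog) (C1 := cd0q2) (C2 := cd1q3) (C3 := pd1)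
    rfl k0_mm_213

end Pool.Agent.Strip051.G.I9736_9750.Tab.C.BB01

namespace Pool.Agent.Strip051.G.I9736_9750.Tab.C.BB02

open Pool.Agent.Strip051.PB Pool.Agent.Strip051.PB.T
open Pool.Agent.Strip051.G.I9736_9750.Tab

noncomputable def f_pp_001 : ℕ → ℕ → ℕ → ℕ → Bool := onCell 0 536870912 536870912 536870912 1045395039 1503240
    (rowB 3 eng mog cd0q0 cd2q1 pd0 0 false true true .up 0 0 1 (qsf 0 536870912 536870912 536870912 0) ndB0q0 ndB2q1 pcB0 Cut.none Ext.none)

def k0_pp_001 : ∃ t, chk3 f_pp_001 t 1 1 1 = true :=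
  ⟨(l 3), by decide +kernel⟩

theorem c_pp_001 : CertB 0 536870912 536870912 536870912 1045395039 1503240 3 eng mog cd0q0 cd2q1 pd0 false true true .up 0 0 1
    ndB0q0 ndB2q1 pcB0 Cut.none Ext.none :=
  certB0 (fam := false) (s1 := true) (s2 := true) (a := 0) (b := 0) (c := 1) (cn := .up) (n1 := ndB0q0) (n2 := ndB2q1) (pc := pcB0) (cut := Cut.none) (xt := Ext.none) (P1 := 0) (W1 := 536870912) (P2 := 536870912) (W2 := 536870912) (P3 := 1045395039) (W3 := 1503240) (N0 := 3) (En := eng) (mo := mog) (C1 := cd0q0) (C2 := cd2q1) (C3 := pd0)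
    rfl k0_pp_001

noncomputable def f_pp_011 : ℕ → ℕ → ℕ → ℕ → Bool := onCell 0 536870912 536870912 536870912 1045395039 1503240
    (rowB 3 eng mog cd0q0 cd2q1 pd1 0 false true true .pnn 0 1 1 (qsf 0 536870912 536870912 536870912 1) ndB0q0 ndB2q1 pcB1 Cut.none Ext.none)

def k0_pp_011 : ∃ t, chk3 f_pp_011 t 1 1 1 = true :=
  ⟨(l 3), by decide +kernel⟩

theorem c_pp_011 : CertB 0 536870912 536870912 536870912 1045395039 1503240 3 eng mog cd0q0 cd2q1 pd1 false true true .pnn 0 1 1
    ndB0q0 ndB2q1 pcB1 Cut.none Ext.none :=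
  certB0 (fam := false) (s1 := true) (s2 := true) (a := 0) (b := 1) (c := 1) (cn := .pnn) (n1 := ndB0q0) (n2 := ndB2q1) (pc := pcB1) (cut := Cut.none) (xt := Ext.none) (P1 := 0) (W1 := 536870912) (P2 := 536870912) (W2 := 536870912) (P3 := 1045395039) (W3 := 1503240) (N0 := 3) (En := eng) (mo := mog) (C1 := cd0q0) (C2 := cd2q1) (C3 := pd1)
    rfl k0_pp_011

noncomputable def cut_pp_012_a : Cut := Cut.of [[⟨0, 0, 0, 26843545⟩, ⟨1, 1, 0, 26843545⟩, ⟨2, 1, 0, 26843545⟩]]

noncomputable def xt_pp_012_a : Ext := extD3 3 ⟨4, 1, 1, 5, 33, 5, 163, 200, 81, 200, 1, 64⟩ eng cd0q0 cd2q2a pd1 false true true .pnp 0 1 2 rfl ndB0q0 ndB2q2a pcB1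

noncomputable def f_pp_012_a : ℕ → ℕ → ℕ → ℕ → Bool := onCell 536870912 536870912 0 536870912 1045395039 1503240
    (rowB 3 eng mog cd0q0 cd2q2a pd1 2 false true true .pnp 0 1 2 (qsf 0 536870912 0 536870912 1) ndB0q0 ndB2q2a pcB1 cut_pp_012_a xt_pp_012_a)

def k0_pp_012_a : ∃ t, chk3 f_pp_012_a t 2 1 1 = true :=
  ⟨(l 3), by decide +kernel⟩

def k1_pp_012_a : ∃ t, chk3 f_pp_012_a t 6 1 1 = true :=
  ⟨(b (a (l 3) (b (l 3) (l 3))) (l 3)), by decide +kernel⟩

def k2_pp_012_a : ∃ t, chk3 f_pp_012_a t 14 1 1 = true :=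
  ⟨(b (a (b (b (a (l 16697944) (l 16684512)) (a (l 3) (l 64592082967))) (l 3)) (b (b (a (l 16667480) (l 16647168)) (a (l 16673488) (l 16659576))) (b (a (b (l 16670672) (l 16689888)) (b (l 16672576) (a (l 16688224) (l 16678680)))) (a (l 3) (b (a (l 16697168) (l 16690800)) (a (l 3) (l 16700200))))))) (l 3)), by decide +kernel⟩

def k3_pp_012_a : ∃ t, chk3 f_pp_012_a t 15 2 1 = true :=
  ⟨(a (b (b (a (l 16625584) (l 16604048)) (a (l 16618088) (l 16618488))) (b (a (b (l 16632008) (l 16664232)) (l 16639480)) (a (b (l 16676672) (a (l 16694776) (l 16685888))) (a (l 16670384) (l 16660984))))) (a (b (a (l 16574216) (l 16562760)) (a (b (l 16623552) (l 16650656)) (b (l 16612424) (l 16639920)))) (b (b (l 16554800) (l 16547992)) (b (l 16590224) (a (l 16603760) (l 16610320)))))), by decide +kernel⟩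

def k4_pp_012_a : ∃ t, chk3 f_pp_012_a t 15 3 1 = true :=
  ⟨(b (a (b (a (b (a (l 16704184) (l 16698632)) (l 57075919271)) (b (l 16687856) (l 16678304))) (a (l 3) (a (b (l 16713824) (l 3)) (b (l 16707488) (a (l 226190337015) (l 66202803799)))))) (a (b (a (l 16682144) (l 16672440)) (a (b (l 16701504) (b (l 16711696) (l 16719600))) (b (l 16696072) (a (l 16712464) (l 16709768))))) (b (a (l 16656752) (l 16620656)) (a (b (l 16681232) (l 16696864)) (b (l 16664912) (l 16658976)))))) (a (l 3) (b (a (a (b (b (a (l 158007736023) (l 16727432)) (b (l 132237941191) (l 246054572999))) (l 3)) (b (a (b (l 16725784) (l 16735456)) (b (l 16721232) (l 16728824))) (a (b (b (l 85530161911) (l 238001519783)) (l 3)) (a (b (l 16738064) (a (l 3) (l 198809926615))) (b (l 16713592) (l 181630051367)))))) (a (a (b (l 16717072) (b (l 16707544) (b (l 16734656) (l 16718120)))) (b (l 16707152) (b (l 16718776) (l 16706456)))) (b (b (l 16691112) (l 16698856)) (b (l 16686296) (a (l 16719576) (l 16714272)))))) (a (l 3)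 (b (a (b (a (b (l 226727211063) (l 218674158151)) (b (l 16734672) (l 162839565079))) (a (l 3) (b (a (l 278266832327) (l 16743608)) (a (l 3) (l 4538910146941718228057861759))))) (b (a (l 16730008) (b (l 16722368) (l 16727872))) (a (b (l 143269148158705791) (a (l 143496953241419903) (l 16744936))) (b (l 16714096) (a (l 16744408) (l 16744328)))))) (a (l 3) (b (a (b (a (b (l 180019470775) (l 328195853255)) (b (l 16752464) (l 6))) (l 6)) (l 6)) (l 6)))))))), by decide +kernel⟩

theorem s5_pp_012_a : ∃ t, chk3 f_pp_012_a t 15 1 1 = true := ex3_b k3_pp_012_a k4_pp_012_a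

theorem s6_pp_012_a : ∃ t, chk3 f_pp_012_a t 7 1 1 = true := ex3_a k2_pp_012_a s5_pp_012_a

theorem s7_pp_012_a : ∃ t, chk3 f_pp_012_a t 3 1 1 = true := ex3_a k1_pp_012_a s6_pp_012_a

theorem s8_pp_012_a : ∃ t, chk3 f_pp_012_a t 1 1 1 = true := ex3_a k0_pp_012_a s7_pp_012_a

theorem c_pp_012_a : CertB 0 536870912 0 536870912 1045395039 1503240 3 eng mog cd0q0 cd2q2a pd1 false true true .pnp 0 1 2
    ndB0q0 ndB2q2a pcB1 cut_pp_012_a xt_pp_012_a :=
  certB2 (fam := false) (s1 := true) (s2 := true) (a := 0) (b := 1) (c := 2) (cn := .pnp) (n1 := ndB0q0) (n2 := ndB2q2a) (pc := pcB1) (cut := cut_pp_012_a) (xt := xt_pp_012_a) (P1 := 0) (W1 := 536870912) (P2 := 0) (W2 := 536870912) (P3 := 1045395039) (W3 := 1503240) (N0 := 3) (En := eng) (mo := mog) (C1 := cd0q0) (C2 := cd2q2a) (C3 := pd1)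
    rfl (fun _ => rfl) s8_pp_012_a

noncomputable def cut_pp_012_b : Cut := Cut.of [[⟨0, 0, 0, 26843545⟩, ⟨1, 1, 0, 26843545⟩, ⟨2, 1, 0, 26843545⟩]]

noncomputable def f_pp_012_b : ℕ → ℕ → ℕ → ℕ → Bool := onCell 536870912 536870912 1239849684 370763052 1045395039 1503240
    (rowB 3 eng mog cd0q0 cd2q2b pd1 2 false true true .pnp 0 1 2 (qsf 0 536870912 1239849684 370763052 1) ndB0q0 ndB2q2b pcB1 cut_pp_012_b Ext.none)

def k0_pp_012_b : ∃ t, chk3 f_pp_012_b t 1 1 1 = true :=
  ⟨(a (l 3) (a (b (a (l 3) (b (b (l 3) (l 3)) (l 3))) (l 3)) (a (b (b (a (b (a (l 16640040) (l 16645776)) (a (l 16572704) (l 16555392))) (b (a (l 16627088) (l 16605072)) (a (l 16556064) (l 16532080)))) (a (b (a (l 16529656) (l 16510208)) (a (l 3) (l 16446256))) (b (a (l 16488736) (l 16463224)) (a (l 16423680) (l 16397064))))) (b (a (b (l 44727116823) (l 16290952)) (b (a (l 16359600) (l 16332288)) (a (l 16295384) (l 16267696)))) (a (l 2) (b (l 16110832) (l 2))))) (a (b (b (b (a (l 16560768) (l 16558384)) (a (l 16506496)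 (l 16480624))) (b (l 16380176) (l 16332744))) (b (b (l 16266304) (l 16221560)) (b (l 16155472) (l 16088096)))) (b (b (a (b (l 16535136) (l 16454608)) (b (l 16464248) (l 16422464))) (a (b (l 16379464) (l 16308224)) (l 16245152))) (b (a (b (l 16239512) (l 16172064)) (l 16144856)) (a (b (l 16104752) (l 16036600)) (l 16027416)))))))), by decide +kernel⟩

theorem c_pp_012_b : CertB 0 536870912 1239849684 370763052 1045395039 1503240 3 eng mog cd0q0 cd2q2b pd1 false true true .pnp 0 1 2
    ndB0q0 ndB2q2b pcB1 cut_pp_012_b Ext.none :=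
  certB2 (fam := false) (s1 := true) (s2 := true) (a := 0) (b := 1) (c := 2) (cn := .pnp) (n1 := ndB0q0) (n2 := ndB2q2b) (pc := pcB1) (cut := cut_pp_012_b) (xt := Ext.none) (P1 := 0) (W1 := 536870912) (P2 := 1239849684) (W2 := 370763052) (P3 := 1045395039) (W3 := 1503240) (N0 := 3) (En := eng) (mo := mog) (C1 := cd0q0) (C2 := cd2q2b) (C3 := pd1)
    rfl (fun _ => rfl) k0_pp_012_b

noncomputable def cut_pp_022_a : Cut := Cut.of [[⟨0, 0, 0, 26843545⟩, ⟨1, 1, 0, 26843545⟩, ⟨2, 1, 0, 26843545⟩]]

noncomputable def f_pp_022_a : ℕ → ℕ → ℕ → ℕ → Bool := onCell 0 536870912 0 536870912 1045395039 1503240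
    (rowB 3 eng mog cd0q0 cd2q2a pd2 0 false true true .pp 0 2 2 (qsf 0 536870912 0 536870912 2) ndB0q0 ndB2q2a pcB2 cut_pp_022_a Ext.none)

def k0_pp_022_a : ∃ t, chk3 f_pp_022_a t 2 2 1 = true :=
  ⟨(a (a (b (a (a (l 16361600) (b (l 16381880) (l 16384184))) (b (l 16392216) (l 16368104))) (a (a (b (l 16400264) (l 16461552)) (b (l 16383712) (l 16455904))) (b (b (l 16428504) (l 16487984)) (l 16504008)))) (b (a (b (l 16416536) (b (l 16399464) (l 16410872))) (b (l 16439008) (l 16368632))) (a (b (l 16442632) (l 16544168)) (b (l 16486760) (a (l 16591976) (l 16592400)))))) (a (b (a (b (l 16452896) (b (l 16436296) (l 16467168))) (b (l 1) (l 1))) (a (b (l 514355255127) (a (l 505228611719) (l 1))) (l 1))) (l 1))), by decide +kernel⟩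

def k1_pp_022_a : ∃ t, chk3 f_pp_022_a t 4 6 1 = true :=
  ⟨(a (a (a (b (l 16410160) (b (l 16395128) (l 16400504))) (b (a (l 16445744) (l 16472280)) (b (l 16452232) (a (l 16447376) (l 16481192))))) (b (a (l 16504424) (l 16541384)) (b (a (l 16506904) (l 16551976)) (a (l 16523888) (l 16574312))))) (a (b (b (l 16587304) (l 16573768)) (b (a (l 16592944) (l 16632024)) (a (b (l 16612000) (l 16629008)) (l 346851874599)))) (b (a (l 207802273255) (l 495565067463)) (b (a (l 165926482711) (l 1)) (l 1))))), by decide +kernel⟩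

def k2_pp_022_a : ∃ t, chk3 f_pp_022_a t 4 7 1 = true :=
  ⟨(a (b (a (b (a (b (l 16413544) (a (l 16411928) (l 16443552))) (a (b (l 16463760) (l 16479744)) (b (l 16499720) (l 16517480)))) (a (b (a (l 16435008) (l 16469160)) (a (l 16468928) (l 16465232))) (a (b (l 16508576) (a (l 16539256) (l 16562360))) (b (l 16528992) (b (l 16584152) (l 16590344)))))) (b (a (b (l 16545520) (b (l 16559648) (a (l 16556944) (l 16588472)))) (b (l 16599880) (b (a (l 16602544) (l 16629736)) (a (l 16619368) (l 224982146807))))) (a (b (a (l 16566592) (b (l 16610760) (l 16636960))) (a (b (l 16626136) (l 16636024)) (b (l 167536975079) (a (l 16670216) (l 1))))) (b (b (a (l 16645032) (l 409665788439)) (a (l 244309534375) (l 1))) (a (b (b (l 287796189399) (l 1)) (l 1)) (l 1)))))) (a (b (a (b (a (b (l 16500992) (l 16526192)) (b (l 16542880) (l 16529168))) (b (a (a (l 16543928) (l 16566496)) (a (l 16590768) (l 16616816))) (l 6))) (b (a (b (a (l 16578168) (l 16603648)) (a (l 16609064) (l 16636568))) (b (a (l 16630128)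 (l 16655800)) (a (l 16644304) (l 142840972791)))) (a (b (a (l 16623776) (l 16632768)) (l 6)) (b (a (b (l 16695320) (l 16675464)) (b (l 383359224311) (l 1))) (a (b (l 430603889175) (l 1)) (l 1)))))) (a (l 6) (a (l 6) (l 1)))) (b (a (b (a (b (a (l 16659536) (l 347388818279)) (a (l 375843000967) (l 1))) (l 1)) (l 1)) (l 1)) (l 1)))) (b (a (a (b (b (l 195991104119) (a (b (l 480532722311) (l 1)) (l 1))) (l 1)) (l 1)) (l 1)) (l 1))), by decide +kernel⟩

def k3_pp_022_a : ∃ t, chk3 f_pp_022_a t 5 3 1 = true :=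
  ⟨(b (l 1) (l 1)), by decide +kernel⟩

def k4_pp_022_a : ∃ t, chk3 f_pp_022_a t 3 1 1 = true :=
  ⟨(l 1), by decide +kernel⟩

theorem s5_pp_022_a : ∃ t, chk3 f_pp_022_a t 4 3 1 = true := ex3_b k1_pp_022_a k2_pp_022_a

theorem s6_pp_022_a : ∃ t, chk3 f_pp_022_a t 2 3 1 = true := ex3_a s5_pp_022_a k3_pp_022_a

theorem s7_pp_022_a : ∃ t, chk3 f_pp_022_a t 2 1 1 = true := ex3_b k0_pp_022_a s6_pp_022_a

theorem s8_pp_022_a : ∃ t, chk3 f_pp_022_a t 1 1 1 = true := ex3_a s7_pp_022_a k4_pp_022_a

theorem c_pp_022_a : CertB 0 536870912 0 536870912 1045395039 1503240 3 eng mog cd0q0 cd2q2a pd2 false true true .pp 0 2 2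
    ndB0q0 ndB2q2a pcB2 cut_pp_022_a Ext.none :=
  certB0 (fam := false) (s1 := true) (s2 := true) (a := 0) (b := 2) (c := 2) (cn := .pp) (n1 := ndB0q0) (n2 := ndB2q2a) (pc := pcB2) (cut := cut_pp_022_a) (xt := Ext.none) (P1 := 0) (W1 := 536870912) (P2 := 0) (W2 := 536870912) (P3 := 1045395039) (W3 := 1503240) (N0 := 3) (En := eng) (mo := mog) (C1 := cd0q0) (C2 := cd2q2a) (C3 := pd2)
    rfl s8_pp_022_a

noncomputable def cut_pp_022_b : Cut := Cut.of [[⟨0, 0, 0, 26843545⟩, ⟨1, 1, 0, 26843545⟩, ⟨2, 1, 0, 26843545⟩]]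

noncomputable def f_pp_022_b : ℕ → ℕ → ℕ → ℕ → Bool := onCell 0 536870912 1239849684 370763052 1045395039 1503240
    (rowB 3 eng mog cd0q0 cd2q2b pd2 0 false true true .pp 0 2 2 (qsf 0 536870912 1239849684 370763052 2) ndB0q0 ndB2q2b pcB2 cut_pp_022_b Ext.none)

def k0_pp_022_b : ∃ t, chk3 f_pp_022_b t 1 1 1 = true :=
  ⟨(a (a (a (b (a (b (a (b (l 16299616) (l 16140280)) (b (l 16309912) (l 16155280))) (a (l 15796648) (l 15735248))) (b (b (l 16328096) (l 16179912)) (b (l 16021848) (l 15851944)))) (b (a (b (l 15568352) (l 15406816)) (b (l 15669264) (l 15473904))) (a (b (l 15193480) (l 14973192)) (l 14927712)))) (b (b (a (b (l 16362144) (l 16220904)) (b (l 16394496) (l 16259912))) (b (a (l 16070592) (l 16117352)) (a (l 15908768) (l 15963832)))) (b (b (l 15640168) (l 15518648)) (b (l 15383720) (l 15173872))))) (b (b (a (b (a (l 16397968) (l 484290262247)) (a (l 16291352) (l 16318072))) (b (a (l 537977562215) (l 1)) (a (l 448856584871) (l 513818173143)))) (a (b (l 16175952) (l 16036128))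 (b (a (l 16221856) (l 16245296)) (l 16114432)))) (b (a (b (l 15883936) (l 15717568)) (l 15702888)) (a (b (l 15536232) (l 15340184)) (l 15464368))))) (b (a (b (l 1) (a (b (a (l 510059728983) (l 514354867703)) (l 426844459031)) (b (l 1) (a (l 491269240391) (l 1))))) (l 1)) (a (b (a (b (l 16055288) (l 15933512)) (b (a (l 16084576) (l 490195119255)) (l 15993480))) (a (l 15701752) (l 15677568))) (b (a (b (l 1) (a (l 478920654871) (l 468720375367))) (l 1)) (a (b (a (l 15917944) (l 15885840)) (l 15829408)) (b (a (l 475162420167) (l 1)) (a (l 15847888) (l 467646061399)))))))), by decide +kernel⟩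

theorem c_pp_022_b : CertB 0 536870912 1239849684 370763052 1045395039 1503240 3 eng mog cd0q0 cd2q2b pd2 false true true .pp 0 2 2
    ndB0q0 ndB2q2b pcB2 cut_pp_022_b Ext.none :=
  certB0 (fam := false) (s1 := true) (s2 := true) (a := 0) (b := 2) (c := 2) (cn := .pp) (n1 := ndB0q0) (n2 := ndB2q2b) (pc := pcB2) (cut := cut_pp_022_b) (xt := Ext.none) (P1 := 0) (W1 := 536870912) (P2 := 1239849684) (W2 := 370763052) (P3 := 1045395039) (W3 := 1503240) (N0 := 3) (En := eng) (mo := mog) (C1 := cd0q0) (C2 := cd2q2b) (C3 := pd2)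
    rfl k0_pp_022_b

noncomputable def f_pp_023 : ℕ → ℕ → ℕ → ℕ → Bool := onCell 0 536870912 1073741824 536870912 1045395039 1503240
    (rowB 3 eng mog cd0q0 cd2q3 pd2 1 false true true .up 0 2 3 (qsf 0 536870912 1610612736 536870912 2) ndB0q0 ndB2q3 pcB2 Cut.none Ext.none)

def k0_pp_023 : ∃ t, chk3 f_pp_023 t 1 1 1 = true :=
  ⟨(a (a (b (l 1) (a (b (l 1) (a (b (l 1) (l 157333135559)) (b (l 15104912) (l 15251104)))) (b (b (l 1) (l 204040553991)) (b (a (l 15105792) (l 15108088)) (a (l 15247480) (l 15240128)))))) (b (b (l 1) (a (l 1) (b (l 1) (l 14919472)))) (b (b (a (l 379597295735) (l 14970192)) (a (l 221757302775) (l 15053704))) (b (a (l 15082192) (l 15140408)) (a (l 15230864) (l 15188752)))))) (b (b (a (b (l 1) (a (l 1) (l 14948312))) (b (a (l 467644278679) (b (b (l 15039352) (l 15045248)) (l 15059392))) (a (l 15003416) (l 15104040)))) (a (b (a (l 14922888) (l 14969248)) (a (l 14956032) (l 15027416))) (b (a (l 15056840) (l 15179200)) (a (l 15127088) (l 15244792))))) (b (a (b (a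 (l 15023864) (l 15097216)) (a (l 15098736) (l 15141392))) (b (a (l 15179472) (l 15253904)) (a (l 15163608) (l 15007160)))) (a (b (a (l 15141024) (l 15057832)) (a (l 14838800) (l 14468512))) (b (a (l 14752944) (l 14503416)) (a (l 14232832) (b (l 14158064) (l 13953328)))))))), by decide +kernel⟩

theorem c_pp_023 : CertB 0 536870912 1610612736 536870912 1045395039 1503240 3 eng mog cd0q0 cd2q3 pd2 false true true .up 0 2 3
    ndB0q0 ndB2q3 pcB2 Cut.none Ext.none :=
  certB1 (fam := false) (s1 := true) (s2 := true) (a := 0) (b := 2) (c := 3) (cn := .up) (n1 := ndB0q0) (n2 := ndB2q3) (pc := pcB2) (cut := Cut.none) (xt := Ext.none) (P1 := 0) (W1 := 536870912) (P2 := 1610612736) (W2 := 536870912) (P3 := 1045395039) (W3 := 1503240) (N0 := 3) (En := eng) (mo := mog) (C1 := cd0q0) (C2 := cd2q3) (C3 := pd2)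
    rfl (fun _ => rfl) k0_pp_023

noncomputable def f_pp_033 : ℕ → ℕ → ℕ → ℕ → Bool := onCell 0 536870912 1610612736 536870912 1045395039 1503240
    (rowB 3 eng mog cd0q0 cd2q3 pd3 1 false true true .pnn 0 3 3 (qsf 0 536870912 1610612736 536870912 3) ndB0q0 ndB2q3 pcB3 Cut.none Ext.none)

def k0_pp_033 : ∃ t, chk3 f_pp_033 t 1 1 1 = true :=
  ⟨(a (b (a (a (b (a (b (l 13783152) (l 13890632)) (b (l 14010072) (l 14164120))) (b (a (b (l 14011776) (l 14093312)) (l 14335112)) (a (b (l 14185408) (l 14286312)) (l 14537088)))) (b (b (l 14305856) (a (l 14394320) (l 14625200))) (b (a (l 14590120) (l 14836832)) (b (l 14879544) (l 14989880))))) (b (b (a (l 14757096) (l 15180232)) (a (l 14973832) (l 15404888))) (b (a (l 15197480) (l 15614736)) (a (l 15415768) (b (l 15743712) (l 4)))))) (a (b (a (b (a (b (l 14387928) (l 4)) (l 4)) (l 4)) (l 4)) (l 4)) (b (l 4) (a (b (l 4) (l 2)) (l 2))))) (b (a (b (b (a (l 15570808) (l 15900352)) (a (l 15771288) (b (l 16003808) (l 16041944)))) (b (a (b (l 15889456)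 (l 15942920)) (l 15967304)) (a (l 15867832) (l 4)))) (b (b (a (b (l 16106784) (l 16128792)) (l 16192528)) (a (l 16162600) (l 16343496))) (a (b (l 16309056) (l 2)) (l 2)))) (a (b (a (b (l 4) (l 2)) (l 2)) (l 2)) (l 2)))), by decide +kernel⟩

theorem c_pp_033 : CertB 0 536870912 1610612736 536870912 1045395039 1503240 3 eng mog cd0q0 cd2q3 pd3 false true true .pnn 0 3 3
    ndB0q0 ndB2q3 pcB3 Cut.none Ext.none :=
  certB1 (fam := false) (s1 := true) (s2 := true) (a := 0) (b := 3) (c := 3) (cn := .pnn) (n1 := ndB0q0) (n2 := ndB2q3) (pc := pcB3) (cut := Cut.none) (xt := Ext.none) (P1 := 0) (W1 := 536870912) (P2 := 1610612736) (W2 := 536870912) (P3 := 1045395039) (W3 := 1503240) (N0 := 3) (En := eng) (mo := mog) (C1 := cd0q0) (C2 := cd2q3) (C3 := pd3)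
    rfl (fun _ => rfl) k0_pp_033

noncomputable def f_pp_101 : ℕ → ℕ → ℕ → ℕ → Bool := onCell 536870912 536870912 536870912 536870912 1045395039 1503240
    (rowB 3 eng mog cd0q1 cd2q1 pd0 0 false true true .npn 1 0 1 (qsf 536870912 536870912 536870912 536870912 0) ndB0q1 ndB2q1 pcB0 Cut.none Ext.none)

def k0_pp_101 : ∃ t, chk3 f_pp_101 t 1 1 1 = true :=
  ⟨(l 3), by decide +kernel⟩

theorem c_pp_101 : CertB 536870912 536870912 536870912 536870912 1045395039 1503240 3 eng mog cd0q1 cd2q1 pd0 false true true .npn 1 0 1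
    ndB0q1 ndB2q1 pcB0 Cut.none Ext.none :=
  certB0 (fam := false) (s1 := true) (s2 := true) (a := 1) (b := 0) (c := 1) (cn := .npn) (n1 := ndB0q1) (n2 := ndB2q1) (pc := pcB0) (cut := Cut.none) (xt := Ext.none) (P1 := 536870912) (W1 := 536870912) (P2 := 536870912) (W2 := 536870912) (P3 := 1045395039) (W3 := 1503240) (N0 := 3) (En := eng) (mo := mog) (C1 := cd0q1) (C2 := cd2q1) (C3 := pd0)
    rfl k0_pp_101

noncomputable def f_pp_102_a : ℕ → ℕ → ℕ → ℕ → Bool := onCell 536870912 536870912 0 536870912 1045395039 1503240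
    (rowB 3 eng mog cd0q1 cd2q2a pd0 0 false true true .npp 1 0 2 (qsf 536870912 536870912 0 536870912 0) ndB0q1 ndB2q2a pcB0 Cut.none Ext.none)

def k0_pp_102_a : ∃ t, chk3 f_pp_102_a t 1 1 1 = true :=
  ⟨(l 3), by decide +kernel⟩

theorem c_pp_102_a : CertB 536870912 536870912 0 536870912 1045395039 1503240 3 eng mog cd0q1 cd2q2a pd0 false true true .npp 1 0 2
    ndB0q1 ndB2q2a pcB0 Cut.none Ext.none :=
  certB0 (fam := false) (s1 := true) (s2 := true) (a := 1) (b := 0) (c := 2) (cn := .npp) (n1 := ndB0q1) (n2 := ndB2q2a) (pc := pcB0) (cut := Cut.none) (xt := Ext.none) (P1 := 536870912) (W1 := 536870912) (P2 := 0) (W2 := 536870912) (P3 := 1045395039) (W3 := 1503240) (N0 := 3) (En := eng) (mo := mog) (C1 := cd0q1) (C2 := cd2q2a) (C3 := pd0)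
    rfl k0_pp_102_a

noncomputable def f_pp_102_b : ℕ → ℕ → ℕ → ℕ → Bool := onCell 536870912 536870912 0 536870912 1045395039 1503240
    (rowB 3 eng mog cd0q1 cd2q2b pd0 1 false true true .npp 1 0 2 (qsf 536870912 536870912 1239849684 370763052 0) ndB0q1 ndB2q2b pcB0 Cut.none Ext.none)

def k0_pp_102_b : ∃ t, chk3 f_pp_102_b t 1 1 1 = true :=
  ⟨(l 3), by decide +kernel⟩

theorem c_pp_102_b : CertB 536870912 536870912 1239849684 370763052 1045395039 1503240 3 eng mog cd0q1 cd2q2b pd0 false true true .npp 1 0 2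
    ndB0q1 ndB2q2b pcB0 Cut.none Ext.none :=
  certB1 (fam := false) (s1 := true) (s2 := true) (a := 1) (b := 0) (c := 2) (cn := .npp) (n1 := ndB0q1) (n2 := ndB2q2b) (pc := pcB0) (cut := Cut.none) (xt := Ext.none) (P1 := 536870912) (W1 := 536870912) (P2 := 1239849684) (W2 := 370763052) (P3 := 1045395039) (W3 := 1503240) (N0 := 3) (En := eng) (mo := mog) (C1 := cd0q1) (C2 := cd2q2b) (C3 := pd0)
    rfl (fun _ => rfl) k0_pp_102_b

noncomputable def f_pp_112_a : ℕ → ℕ → ℕ → ℕ → Bool := onCell 536870912 536870912 0 536870912 1045395039 1503240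
    (rowB 3 eng mog cd0q1 cd2q2a pd1 0 false true true .dn 1 1 2 (qsf 536870912 536870912 0 536870912 1) ndB0q1 ndB2q2a pcB1 Cut.none Ext.none)

def k0_pp_112_a : ∃ t, chk3 f_pp_112_a t 1 1 1 = true :=
  ⟨(l 3), by decide +kernel⟩

theorem c_pp_112_a : CertB 536870912 536870912 0 536870912 1045395039 1503240 3 eng mog cd0q1 cd2q2a pd1 false true true .dn 1 1 2
    ndB0q1 ndB2q2a pcB1 Cut.none Ext.none :=
  certB0 (fam := false) (s1 := true) (s2 := true) (a := 1) (b := 1) (c := 2) (cn := .dn) (n1 := ndB0q1) (n2 := ndB2q2a) (pc := pcB1) (cut := Cut.none) (xt := Ext.none) (P1 := 536870912) (W1 := 536870912) (P2 := 0) (W2 := 536870912) (P3 := 1045395039) (W3 := 1503240) (N0 := 3) (En := eng) (mo := mog) (C1 := cd0q1) (C2 := cd2q2a) (C3 := pd1)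
    rfl k0_pp_112_a

noncomputable def f_pp_112_b : ℕ → ℕ → ℕ → ℕ → Bool := onCell 536870912 536870912 536870912 536870912 1045395039 1503240
    (rowB 3 eng mog cd0q1 cd2q2b pd1 1 false true true .dn 1 1 2 (qsf 536870912 536870912 1239849684 370763052 1) ndB0q1 ndB2q2b pcB1 Cut.none Ext.none)

def k0_pp_112_b : ∃ t, chk3 f_pp_112_b t 1 1 1 = true :=
  ⟨(b (l 3) (a (b (l 3) (a (b (a (b (l 3) (a (l 16211624) (l 16163560))) (b (l 3) (l 41505142791))) (b (a (l 16057176) (l 15955528)) (a (b (l 15989056) (l 15917632)) (l 2)))) (b (b (l 3) (l 2)) (l 2)))) (b (l 3) (l 2)))), by decide +kernel⟩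

theorem c_pp_112_b : CertB 536870912 536870912 1239849684 370763052 1045395039 1503240 3 eng mog cd0q1 cd2q2b pd1 false true true .dn 1 1 2
    ndB0q1 ndB2q2b pcB1 Cut.none Ext.none :=
  certB1 (fam := false) (s1 := true) (s2 := true) (a := 1) (b := 1) (c := 2) (cn := .dn) (n1 := ndB0q1) (n2 := ndB2q2b) (pc := pcB1) (cut := Cut.none) (xt := Ext.none) (P1 := 536870912) (W1 := 536870912) (P2 := 1239849684) (W2 := 370763052) (P3 := 1045395039) (W3 := 1503240) (N0 := 3) (En := eng) (mo := mog) (C1 := cd0q1) (C2 := cd2q2b) (C3 := pd1)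
    rfl (fun _ => rfl) k0_pp_112_b

end Pool.Agent.Strip051.G.I9736_9750.Tab.C.BB02

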