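import Pool.Agent.Strip051.G.I9736_9750.Tab
import Pool.Agent.Strip051.PB.ExtD3

/-! # Certificates B13 (generated) -/

set_option linter.all false
set_option maxRecDepth 100000

namespace Pool.Agent.Strip051.G.I9736_9750.Tab.C.BB02

open Pool.Agent.Strip051.PB Pool.Agent.Strip051.PB.T
open Pool.Agent.Strip051.G.I9736_9750.Tab

noncomputable def cut_pp_113 : Cut := Cut.of [[⟨0, 1, 0, 14155776⟩, ⟨1, 1, 0, 14155776⟩, ⟨2, 2, 0, 524288⟩]]

noncomputable def xt_pp_113 : Ext := extD3 3 ⟨4, 1, 1, 5, 33, 5, 163, 200, 81, 200, 1, 64⟩ eng cd0q1 cd2q3 pd1 false true true .nn 1 1 3 rfl ndB0q1 ndB2q3 pcB1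

noncomputable def f_pp_113 : ℕ → ℕ → ℕ → ℕ → Bool := onCell 536870912 536870912 536870912 536870912 1045395039 1503240
    (rowB 3 eng mog cd0q1 cd2q3 pd1 1 false true true .nn 1 1 3 (qsf 536870912 536870912 1610612736 536870912 1) ndB0q1 ndB2q3 pcB1 cut_pp_113 xt_pp_113)

def k0_pp_113 : ∃ t, chk3 f_pp_113 t 1 2 1 = true :=
  ⟨(l 3), by decide +kernel⟩

def k1_pp_113 : ∃ t, chk3 f_pp_113 t 2 3 1 = true :=
  ⟨(b (l 3) (b (b (a (a (l 1) (l 3)) (l 3)) (a (a (b (l 1) (a (l 1) (l 15121208))) (a (b (l 15173728) (l 15184272)) (a (l 15213376) (l 15255392)))) (a (a (l 25934500583) (l 15432112)) (l 3)))) (b (a (a (a (a (l 1) (l 288866856695)) (l 15113728)) (a (l 15204472) (l 15288568))) (a (a (l 15386208) (b (l 15484648) (l 15507264))) (a (b (l 15605584) (l 15628696)) (b (l 15736464) (l 15758200))))) (a (a (b (b (l 15117456) (l 15123056)) (l 15132288)) (b (a (l 15227784) (l 15316608)) (l 15288968))) (a (b (a (l 15417704) (l 15529808)) (l 15492600)) (b (a (l 15651184) (l 15779032)) (a (l 15667496) (l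 15791424)))))))), by decide +kernel⟩

def k2_pp_113 : ∃ t, chk3 f_pp_113 t 3 6 1 = true :=
  ⟨(l 3), by decide +kernel⟩

def k3_pp_113 : ∃ t, chk3 f_pp_113 t 6 7 1 = true :=
  ⟨(b (l 3) (b (b (a (a (l 15873336) (l 3)) (l 3)) (a (a (l 15890680) (l 15875384)) (a (l 15746464) (l 15640200)))) (a (a (b (l 15843864) (l 15910864)) (b (a (l 15866048) (l 15732160)) (l 15762784))) (b (a (b (l 15707752) (l 15680480)) (b (l 15599968) (l 15572696))) (a (l 15501160) (b (l 15538472) (l 15502936))))))), by decide +kernel⟩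

def k4_pp_113 : ∃ t, chk3 f_pp_113 t 7 14 1 = true :=
  ⟨(l 3), by decide +kernel⟩

def k5_pp_113 : ∃ t, chk3 f_pp_113 t 14 15 1 = true :=
  ⟨(b (l 3) (b (a (b (l 15532248) (a (l 15518328) (l 15500848))) (b (l 3) (a (l 15504800) (l 208471415367)))) (a (b (l 15478032) (l 15448472)) (b (a (l 15485176) (l 15532232)) (a (l 15468792) (l 15534080)))))), by decide +kernel⟩

def k6_pp_113 : ∃ t, chk3 f_pp_113 t 15 30 1 = true :=
  ⟨(l 3), by decide +kernel⟩

def k7_pp_113 : ∃ t, chk3 f_pp_113 t 15 62 1 = true :=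
  ⟨(l 3), by decide +kernel⟩

def k8_pp_113 : ∃ t, chk3 f_pp_113 t 15 126 1 = true :=
  ⟨(a (a (l 3687223749957056152607244383) (a (l 5718219126910427219871694943) (l 14268311918452946369077893647))) (l 3)), by decide +kernel⟩

def k9_pp_113 : ∃ t, chk3 f_pp_113 t 30 127 1 = true :=
  ⟨(a (l 15675408) (a (l 15872160) (b (l 2623942200030996122355079695) (l 16134248)))), by decide +kernel⟩

def k10_pp_113 : ∃ t, chk3 f_pp_113 t 31 254 1 = true :=
  ⟨(a (a (b (a (l 6270069574561646843859327503) (l 3)) (a (l 16276232) (b (a (l 4906412899155227682906429455) (l 6492524800909871685721724943)) (l 592725592429698365020175)))) (b (l 3) (a (b (l 8581557340208054755411613711) (b (a (a (l 599182241085873150269455) (l 6018637214280479215718292495)) (l 7372634800943336563478649871)) (a (l 16703280) (b (a (l 605258425645527639579663) (l 6173380195635963528971459599)) (l 605009106370156408413199))))) (b (l 3) (a (b (l 3) (b (l 3) (a (l 5989623156595199512900230159) (l 7894890304512778441830177807)))) (l 3))))))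 (l 3)), by decide +kernel⟩

def k11_pp_113 : ∃ t, chk3 f_pp_113 t 62 255 1 = true :=
  ⟨(a (l 594159538551053144657935) (a (l 600959036731480073085007) (b (b (b (a (l 4316469307036593185951280335) (a (b (l 7749818888096783684718963919) (l 5757508945122194601431051471)) (l 7536443559621726554238353615))) (a (l 16760968) (l 3242942417714175624027204815))) (l 601980237141721061715151)) (l 16729784)))), by decide +kernel⟩

def k12_pp_113 : ∃ t, chk3 f_pp_113 t 126 255 1 = true :=
  ⟨(a (b (b (b (l 3) (a (b (a (l 7237233789771918276110429391) (l 3)) (a (l 603280156429810759199951) (l 6463521597548152918944984143))) (l 3))) (b (a (l 603268050724737888283727) (b (a (b (l 7459676887530062826771127823) (l 5593095326929051250954378767)) (l 7933576014327255659431255567)) (a (l 603887601976550115024399) (l 5448024419672035138576342543)))) (a (l 16763920) (l 603744207273223890873935)))) (b (l 601947090844451569167951) (l 16756416))) (b (b (l 3) (b (a (a (l 7798175829368243596289449487) (l 3)) (l 3)) (a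 (b (a (b (l 6705307306370664242328362511) (l 604751140183500650126863)) (b (l 3) (a (l 6811692824037151041677205007) (l 3)))) (a (l 16771864) (l 4722669012354757846208880143))) (b (l 3) (a (b (l 3) (a (l 6724650182030489934051319311) (l 357723799191))) (l 3)))))) (b (a (l 603822894145160027729487) (b (b (a (l 3310643649856724199423335951) (b (a (l 356113187095) (l 3)) (l 6802021323228901006672911887))) (l 3591114366796802625417272847)) (l 16772688))) (l 602053447851258694248015)))), by decide +kernel⟩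

def k13_pp_113 : ∃ t, chk3 f_pp_113 t 127 510 1 = true :=
  ⟨(l 3), by decide +kernel⟩

def k14_pp_113 : ∃ t, chk3 f_pp_113 t 127 511 1 = true :=
  ⟨(a (b (b (a (a (b (l 3) (a (a (l 4654969144550830024903187983) (l 6618264643034955299483573775)) (l 6782678485615484966988717583))) (l 3)) (l 3)) (a (b (a (l 604453109974559787294223) (b (a (l 6695635920854564668016827919) (l 442012536695)) (l 4761354600536016327782211087))) (l 604296889110685558414863)) (b (a (l 426980147879) (l 3)) (a (b (a (l 4751683174091203339918646799) (l 354502575527)) (l 3475057431332414122768604687)) (b (l 3) (a (l 6956763821798505265703591439) (l 3))))))) (b (a (l 16773704) (b (a (l 16776920) (b (a (l 273971937831) (l 6705307172631769707947318799)) (l 604554711190056008707663))) (l 16773568))) (l 603268050559123961210447))) (b (l 3) (a (b (b (a (b (l 3) (a (l 6386150685781191906725293647) (l 3))) (l 3)) (a (b (a (l 16778208) (b (l 6453246025247023898961313871) (l 270213842391))) (l 16775144)) (b (a (l 419463953735) (l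 3)) (a (b (l 6404888992462440656118038607) (l 263771391191)) (l 8020013887467585920720568399))))) (b (a (l 16776656) (b (a (l 16777840) (b (a (l 263771391511) (l 369534961543)) (l 211158041367))) (l 16777344))) (l 16770488))) (b (l 3) (a (b (b (a (b (l 3) (a (l 6443574618690108995866771535) (l 3))) (l 3)) (a (a (l 16777912) (a (l 3571166871285746846948606031) (b (l 369534961303) (l 16777976)))) (b (a (l 8213442018605915181240139855) (l 3)) (a (a (l 261623907383) (l 6433903212133183372534218831)) (l 8029685294024487079918387279))))) (b (a (l 16777264) (b (b (a (l 16777840) (a (l 16777768) (l 370608702679))) (l 144120719994814543)) (l 16777464))) (l 16776712))) (b (l 3) (a (b (a (a (b (l 7014187605548197817250545743) (l 16777672)) (b (l 3) (a (l 3629195310627238464534904911) (b (l 370608702439) (l 16777680))))) (b (l 3) (b (l 8252127644833572525871579215) (a (a (l 262697648807) (l 6472588838360843465945514063)) (l 7033530418662027829596373071))))) (b (b (b (a (l 16777480) (a (l 16777592) (a (l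 16777480) (l 370608702231)))) (l 4016051572903916020868923471)) (l 16776664)) (l 16777032))) (b (l 3) (a (b (b (b (l 3) (a (a (l 6501603058031592641992998991) (l 3)) (l 3))) (a (b (b (a (l 16777544) (l 372219314759)) (l 268066357687)) (l 16777448)) (l 6))) (a (l 16777208) (l 6))) (l 6)))))))))), by decide +kernel⟩

theorem s15_pp_113 : ∃ t, chk3 f_pp_113 t 127 255 1 = true := ex3_b k13_pp_113 k14_pp_113

theorem s16_pp_113 : ∃ t, chk3 f_pp_113 t 63 255 1 = true := ex3_a k12_pp_113 s15_pp_113

theorem s17_pp_113 : ∃ t, chk3 f_pp_113 t 31 255 1 = true := ex3_a k11_pp_113 s16_pp_113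

theorem s18_pp_113 : ∃ t, chk3 f_pp_113 t 31 127 1 = true := ex3_b k10_pp_113 s17_pp_113

theorem s19_pp_113 : ∃ t, chk3 f_pp_113 t 15 127 1 = true := ex3_a k9_pp_113 s18_pp_113

theorem s20_pp_113 : ∃ t, chk3 f_pp_113 t 15 63 1 = true := ex3_b k8_pp_113 s19_pp_113

theorem s21_pp_113 : ∃ t, chk3 f_pp_113 t 15 31 1 = true := ex3_b k7_pp_113 s20_pp_113

theorem s22_pp_113 : ∃ t, chk3 f_pp_113 t 15 15 1 = true := ex3_b k6_pp_113 s21_pp_113

theorem s23_pp_113 : ∃ t, chk3 f_pp_113 t 7 15 1 = true := ex3_a k5_pp_113 s22_pp_113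

theorem s24_pp_113 : ∃ t, chk3 f_pp_113 t 7 7 1 = true := ex3_b k4_pp_113 s23_pp_113

theorem s25_pp_113 : ∃ t, chk3 f_pp_113 t 3 7 1 = true := ex3_a k3_pp_113 s24_pp_113

theorem s26_pp_113 : ∃ t, chk3 f_pp_113 t 3 3 1 = true := ex3_b k2_pp_113 s25_pp_113

theorem s27_pp_113 : ∃ t, chk3 f_pp_113 t 1 3 1 = true := ex3_a k1_pp_113 s26_pp_113

theorem s28_pp_113 : ∃ t, chk3 f_pp_113 t 1 1 1 = true := ex3_b k0_pp_113 s27_pp_113

theorem c_pp_113 : CertB 536870912 536870912 1610612736 536870912 1045395039 1503240 3 eng mog cd0q1 cd2q3 pd1 false true true .nn 1 1 3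
    ndB0q1 ndB2q3 pcB1 cut_pp_113 xt_pp_113 :=
  certB1 (fam := false) (s1 := true) (s2 := true) (a := 1) (b := 1) (c := 3) (cn := .nn) (n1 := ndB0q1) (n2 := ndB2q3) (pc := pcB1) (cut := cut_pp_113) (xt := xt_pp_113) (P1 := 536870912) (W1 := 536870912) (P2 := 1610612736) (W2 := 536870912) (P3 := 1045395039) (W3 := 1503240) (N0 := 3) (En := eng) (mo := mog) (C1 := cd0q1) (C2 := cd2q3) (C3 := pd1)
    rfl (fun _ => rfl) s28_pp_113

noncomputable def cut_pp_123 : Cut := Cut.of [[⟨0, 1, 0, 14155776⟩, ⟨1, 1, 0, 14155776⟩, ⟨2, 2, 0, 524288⟩]]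

noncomputable def xt_pp_123 : Ext := extD3 3 ⟨4, 1, 1, 5, 33, 5, 163, 200, 81, 200, 1, 64⟩ eng cd0q1 cd2q3 pd2 false true true .npn 1 2 3 rfl ndB0q1 ndB2q3 pcB2

noncomputable def f_pp_123 : ℕ → ℕ → ℕ → ℕ → Bool := onCell 1073741824 536870912 1610612736 536870912 1045395039 1503240
    (rowB 3 eng mog cd0q1 cd2q3 pd2 2 false true true .npn 1 2 3 (qsf 536870912 536870912 1610612736 536870912 2) ndB0q1 ndB2q3 pcB2 cut_pp_123 xt_pp_123)

def k0_pp_123 : ∃ t, chk3 f_pp_123 t 2 2 1 = true :=
  ⟨(a (b (a (b (a (b (l 15063904) (l 15143200)) (l 15082576)) (a (b (l 15215504) (l 15300936)) (l 15213672))) (b (a (l 15055760) (l 1)) (a (l 15180872) (l 15150584)))) (a (b (a (b (l 15398512) (l 15506920)) (l 15387504)) (a (b (l 15624376) (l 15747944)) (l 15513480))) (b (a (l 15339504) (l 15302792)) (a (l 15523832) (l 15475320))))) (b (a (b (l 1) (l 15106416)) (l 1)) (a (b (l 15246152) (l 15402328)) (b (l 15176944) (l 15302168))))), by decide +kernel⟩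

def k1_pp_123 : ∃ t, chk3 f_pp_123 t 2 3 1 = true :=
  ⟨(a (b (a (b (a (b (l 15870792) (l 15783968)) (l 15718416)) (a (b (l 15660536) (a (l 15585976) (l 15630936))) (b (l 15697088) (l 15647104)))) (b (a (l 15715128) (l 15646576)) (a (b (l 15641512) (l 15592416)) (l 15577920)))) (a (b (a (b (a (l 15566672) (l 15623656)) (a (b (l 15612280) (a (l 15667504) (l 15708208))) (l 15706200))) (b (l 15649696) (l 15733128))) (a (b (a (a (b (a (l 15797920) (l 15822464)) (a (l 16093824) (l 16075040))) (b (l 15842448) (l 16064232))) (l 16077808)) (a (b (a (a (b (l 16552960) (b (l 16777480) (l 595606886784978455963215))) (l 16596704)) (l 16651728)) (a (b (a (b (a (l 16757680) (l 16784544)) (l 597420144320836264552015)) (b (l 16789504) (l 16780968))) (a (b (a (l 16771216) (l 16774896)) (a (a (b (l 16757200) (a (a (b (l 16778080) (b (l 16777184) (b (l 16776792) (l 6)))) (l 16773664)) (l 16773824))) (l 16760904)) (l 16765016))) (b (l 16747912) (l 16736432)))) (b (a (l 16744608) (l 16786056)) (a (b (l 16767240)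 (l 16754672)) (l 16764784))))) (b (a (l 16358104) (l 16318448)) (a (b (l 16657880) (b (l 16782200) (l 16775992))) (l 16669384))))) (b (a (l 15955928) (l 15933400)) (b (l 16257208) (a (l 16604592) (l 16511200)))))) (b (a (b (l 15596744) (l 15670968)) (l 15546816)) (b (a (l 15854520) (l 15713928)) (a (b (l 16104120) (l 16309480)) (l 15994736)))))) (b (a (b (l 15555448) (l 15539944)) (b (l 15417024) (l 15384224))) (b (a (l 15484432) (l 15295344)) (a (b (l 15596848) (l 15793328)) (b (l 15350888) (l 15478528)))))), by decide +kernel⟩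

def k2_pp_123 : ∃ t, chk3 f_pp_123 t 3 1 1 = true :=
  ⟨(b (a (b (l 1) (b (l 1) (a (l 15212272) (l 1)))) (l 1)) (b (a (b (a (l 15278112) (l 15148192)) (a (l 15157976) (l 14896888))) (b (l 1) (a (l 14626672) (l 1)))) (a (b (a (l 15029840) (l 14729312)) (a (l 15066880) (l 14704488))) (b (a (l 14422936) (l 14133592)) (a (l 14346304) (l 14015456)))))), by decide +kernel⟩

theorem s3_pp_123 : ∃ t, chk3 f_pp_123 t 2 1 1 = true := ex3_b k0_pp_123 k1_pp_123

theorem s4_pp_123 : ∃ t, chk3 f_pp_123 t 1 1 1 = true := ex3_a s3_pp_123 k2_pp_123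

theorem c_pp_123 : CertB 536870912 536870912 1610612736 536870912 1045395039 1503240 3 eng mog cd0q1 cd2q3 pd2 false true true .npn 1 2 3
    ndB0q1 ndB2q3 pcB2 cut_pp_123 xt_pp_123 :=
  certB2 (fam := false) (s1 := true) (s2 := true) (a := 1) (b := 2) (c := 3) (cn := .npn) (n1 := ndB0q1) (n2 := ndB2q3) (pc := pcB2) (cut := cut_pp_123) (xt := xt_pp_123) (P1 := 536870912) (W1 := 536870912) (P2 := 1610612736) (W2 := 536870912) (P3 := 1045395039) (W3 := 1503240) (N0 := 3) (En := eng) (mo := mog) (C1 := cd0q1) (C2 := cd2q3) (C3 := pd2)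
    rfl (fun _ => rfl) s4_pp_123

noncomputable def f_pp_133 : ℕ → ℕ → ℕ → ℕ → Bool := onCell 536870912 536870912 1610612736 536870912 1045395039 1503240
    (rowB 3 eng mog cd0q1 cd2q3 pd3 0 false true true .dn 1 3 3 (qsf 536870912 536870912 1610612736 536870912 3) ndB0q1 ndB2q3 pcB3 Cut.none Ext.none)

def k0_pp_133 : ∃ t, chk3 f_pp_133 t 1 1 1 = true :=
  ⟨(a (b (l 1) (b (l 1) (a (b (l 1) (l 512743961927)) (l 1)))) (l 1)), by decide +kernel⟩

theorem c_pp_133 : CertB 536870912 536870912 1610612736 536870912 1045395039 1503240 3 eng mog cd0q1 cd2q3 pd3 false true true .dn 1 3 3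
    ndB0q1 ndB2q3 pcB3 Cut.none Ext.none :=
  certB0 (fam := false) (s1 := true) (s2 := true) (a := 1) (b := 3) (c := 3) (cn := .dn) (n1 := ndB0q1) (n2 := ndB2q3) (pc := pcB3) (cut := Cut.none) (xt := Ext.none) (P1 := 536870912) (W1 := 536870912) (P2 := 1610612736) (W2 := 536870912) (P3 := 1045395039) (W3 := 1503240) (N0 := 3) (En := eng) (mo := mog) (C1 := cd0q1) (C2 := cd2q3) (C3 := pd3)
    rfl k0_pp_133

noncomputable def f_pp_202_a : ℕ → ℕ → ℕ → ℕ → Bool := onCell 0 536870912 0 536870912 1045395039 1503240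
    (rowB 3 eng mog cd0q2 cd2q2a pd0 0 false true true .pp 2 0 2 (qsf 0 536870912 0 536870912 0) ndB0q2 ndB2q2a pcB0 Cut.none Ext.none)

def k0_pp_202_a : ∃ t, chk3 f_pp_202_a t 1 1 1 = true :=
  ⟨(l 3), by decide +kernel⟩

theorem c_pp_202_a : CertB 0 536870912 0 536870912 1045395039 1503240 3 eng mog cd0q2 cd2q2a pd0 false true true .pp 2 0 2
    ndB0q2 ndB2q2a pcB0 Cut.none Ext.none :=
  certB0 (fam := false) (s1 := true) (s2 := true) (a := 2) (b := 0) (c := 2) (cn := .pp) (n1 := ndB0q2) (n2 := ndB2q2a) (pc := pcB0) (cut := Cut.none) (xt := Ext.none) (P1 := 0) (W1 := 536870912) (P2 := 0) (W2 := 536870912) (P3 := 1045395039) (W3 := 1503240) (N0 := 3) (En := eng) (mo := mog) (C1 := cd0q2) (C2 := cd2q2a) (C3 := pd0)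
    rfl k0_pp_202_a

noncomputable def f_pp_202_b : ℕ → ℕ → ℕ → ℕ → Bool := onCell 0 536870912 1239849684 370763052 1045395039 1503240
    (rowB 3 eng mog cd0q2 cd2q2b pd0 0 false true true .pp 2 0 2 (qsf 0 536870912 1239849684 370763052 0) ndB0q2 ndB2q2b pcB0 Cut.none Ext.none)

def k0_pp_202_b : ∃ t, chk3 f_pp_202_b t 1 1 1 = true :=
  ⟨(l 3), by decide +kernel⟩

theorem c_pp_202_b : CertB 0 536870912 1239849684 370763052 1045395039 1503240 3 eng mog cd0q2 cd2q2b pd0 false true true .pp 2 0 2
    ndB0q2 ndB2q2b pcB0 Cut.none Ext.none :=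
  certB0 (fam := false) (s1 := true) (s2 := true) (a := 2) (b := 0) (c := 2) (cn := .pp) (n1 := ndB0q2) (n2 := ndB2q2b) (pc := pcB0) (cut := Cut.none) (xt := Ext.none) (P1 := 0) (W1 := 536870912) (P2 := 1239849684) (W2 := 370763052) (P3 := 1045395039) (W3 := 1503240) (N0 := 3) (En := eng) (mo := mog) (C1 := cd0q2) (C2 := cd2q2b) (C3 := pd0)
    rfl k0_pp_202_b

noncomputable def f_pp_203 : ℕ → ℕ → ℕ → ℕ → Bool := onCell 0 536870912 0 536870912 1045395039 1503240
    (rowB 3 eng mog cd0q2 cd2q3 pd0 1 false true true .up 2 0 3 (qsf 0 536870912 1610612736 536870912 0) ndB0q2 ndB2q3 pcB0 Cut.none Ext.none)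

def k0_pp_203 : ∃ t, chk3 f_pp_203 t 1 1 1 = true :=
  ⟨(l 3), by decide +kernel⟩

theorem c_pp_203 : CertB 0 536870912 1610612736 536870912 1045395039 1503240 3 eng mog cd0q2 cd2q3 pd0 false true true .up 2 0 3
    ndB0q2 ndB2q3 pcB0 Cut.none Ext.none :=
  certB1 (fam := false) (s1 := true) (s2 := true) (a := 2) (b := 0) (c := 3) (cn := .up) (n1 := ndB0q2) (n2 := ndB2q3) (pc := pcB0) (cut := Cut.none) (xt := Ext.none) (P1 := 0) (W1 := 536870912) (P2 := 1610612736) (W2 := 536870912) (P3 := 1045395039) (W3 := 1503240) (N0 := 3) (En := eng) (mo := mog) (C1 := cd0q2) (C2 := cd2q3) (C3 := pd0)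
    rfl (fun _ => rfl) k0_pp_203

noncomputable def cut_pp_213 : Cut := Cut.of [[⟨0, 1, 0, 14155776⟩, ⟨1, 1, 0, 14155776⟩, ⟨2, 2, 0, 524288⟩]]

noncomputable def f_pp_213 : ℕ → ℕ → ℕ → ℕ → Bool := onCell 0 536870912 1610612736 536870912 1045395039 1503240
    (rowB 3 eng mog cd0q2 cd2q3 pd1 0 false true true .pnn 2 1 3 (qsf 0 536870912 1610612736 536870912 1) ndB0q2 ndB2q3 pcB1 cut_pp_213 Ext.none)

def k0_pp_213 : ∃ t, chk3 f_pp_213 t 1 1 1 = true :=
  ⟨(a (l 3) (b (l 3) (a (l 3) (b (l 3) (b (l 3) (a (l 3) (b (l 3) (a (l 3) (b (l 3) (a (l 3) (b (l 3) (a (l 3) (b (l 3) (b (l 3) (b (l 3) (b (l 3) (b (l 3) (l 6)))))))))))))))))), by decide +kernel⟩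

theorem c_pp_213 : CertB 0 536870912 1610612736 536870912 1045395039 1503240 3 eng mog cd0q2 cd2q3 pd1 false true true .pnn 2 1 3
    ndB0q2 ndB2q3 pcB1 cut_pp_213 Ext.none :=
  certB0 (fam := false) (s1 := true) (s2 := true) (a := 2) (b := 1) (c := 3) (cn := .pnn) (n1 := ndB0q2) (n2 := ndB2q3) (pc := pcB1) (cut := cut_pp_213) (xt := Ext.none) (P1 := 0) (W1 := 536870912) (P2 := 1610612736) (W2 := 536870912) (P3 := 1045395039) (W3 := 1503240) (N0 := 3) (En := eng) (mo := mog) (C1 := cd0q2) (C2 := cd2q3) (C3 := pd1)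
    rfl k0_pp_213

noncomputable def f_pm_001 : ℕ → ℕ → ℕ → ℕ → Bool := onCell 0 536870912 536870912 536870912 1045395039 1503240
    (rowB 3 eng mog cd0q0 cd2q1 pd0 0 false true false .up 0 0 1 (qsf 0 536870912 536870912 536870912 0) ndB0q0 ndB2q1 pcB0 Cut.none Ext.none)

def k0_pm_001 : ∃ t, chk3 f_pm_001 t 1 1 1 = true :=
  ⟨(l 4), by decide +kernel⟩

theorem c_pm_001 : CertB 0 536870912 536870912 536870912 1045395039 1503240 3 eng mog cd0q0 cd2q1 pd0 false true false .up 0 0 1
    ndB0q0 ndB2q1 pcB0 Cut.none Ext.none :=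
  certB0 (fam := false) (s1 := true) (s2 := false) (a := 0) (b := 0) (c := 1) (cn := .up) (n1 := ndB0q0) (n2 := ndB2q1) (pc := pcB0) (cut := Cut.none) (xt := Ext.none) (P1 := 0) (W1 := 536870912) (P2 := 536870912) (W2 := 536870912) (P3 := 1045395039) (W3 := 1503240) (N0 := 3) (En := eng) (mo := mog) (C1 := cd0q0) (C2 := cd2q1) (C3 := pd0)
    rfl k0_pm_001

noncomputable def f_pm_011 : ℕ → ℕ → ℕ → ℕ → Bool := onCell 0 536870912 536870912 536870912 1045395039 1503240
    (rowB 3 eng mog cd0q0 cd2q1 pd1 0 false true false .pnn 0 1 1 (qsf 0 536870912 536870912 536870912 1) ndB0q0 ndB2q1 pcB1 Cut.none Ext.none)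

def k0_pm_011 : ∃ t, chk3 f_pm_011 t 1 1 1 = true :=
  ⟨(l 4), by decide +kernel⟩

theorem c_pm_011 : CertB 0 536870912 536870912 536870912 1045395039 1503240 3 eng mog cd0q0 cd2q1 pd1 false true false .pnn 0 1 1
    ndB0q0 ndB2q1 pcB1 Cut.none Ext.none :=
  certB0 (fam := false) (s1 := true) (s2 := false) (a := 0) (b := 1) (c := 1) (cn := .pnn) (n1 := ndB0q0) (n2 := ndB2q1) (pc := pcB1) (cut := Cut.none) (xt := Ext.none) (P1 := 0) (W1 := 536870912) (P2 := 536870912) (W2 := 536870912) (P3 := 1045395039) (W3 := 1503240) (N0 := 3) (En := eng) (mo := mog) (C1 := cd0q0) (C2 := cd2q1) (C3 := pd1)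
    rfl k0_pm_011

noncomputable def cut_pm_012_a : Cut := Cut.of [[⟨0, 0, 0, 26843545⟩, ⟨1, 1, 0, 26843545⟩, ⟨2, 1, 0, 26843545⟩]]

noncomputable def xt_pm_012_a : Ext := extD3 3 ⟨4, 1, 1, 5, 33, 5, 163, 200, 81, 200, 1, 64⟩ eng cd0q0 cd2q2a pd1 false true false .pnp 0 1 2 rfl ndB0q0 ndB2q2a pcB1

noncomputable def f_pm_012_a : ℕ → ℕ → ℕ → ℕ → Bool := onCell 0 536870912 0 536870912 1045395039 1503240
    (rowB 3 eng mog cd0q0 cd2q2a pd1 0 false true false .pnp 0 1 2 (qsf 0 536870912 0 536870912 1) ndB0q0 ndB2q2a pcB1 cut_pm_012_a xt_pm_012_a)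

def k0_pm_012_a : ∃ t, chk3 f_pm_012_a t 4 1 1 = true :=
  ⟨(b (a (l 2) (b (l 2) (a (l 2) (b (l 2) (l 16148720))))) (b (a (l 2) (a (b (l 2) (a (b (l 2) (l 16277680)) (b (l 16227696) (l 16277480)))) (b (a (l 16180888) (l 16188984)) (b (l 16233136) (l 16277232))))) (a (a (b (l 2) (b (a (l 2) (b (a (l 2) (a (l 2) (l 16520728))) (a (b (l 2) (l 6)) (b (l 16540808) (l 16587104))))) (a (l 6) (a (l 6) (b (b (l 16613008) (l 143032959114412159)) (b (l 143141329784635455) (b (l 143282960668442687) (a (l 16706208) (l 16695672))))))))) (b (b (a (l 2) (a (l 2) (l 16345136))) (a (b (l 2) (a (l 16465432) (l 16455696))) (b (l 16403104) (l 16443616)))) (b (a (b (a (l 16490304) (l 16500312)) (a (l 16559456) (l 16547224))) (b (l 16486392) (l 16531392))) (b (a (b (l 16569240) (l 142909745043865663)) (a (l 16584144) (l 16573208))) (a (b (a (l 16649152) (l 16634568)) (a (b (l 16669256) (l 16682856)) (b (l 16654144) (l 16667384)))) (b (l 16615224) (a (l 16625840) (l 16634144)))))))) (b (a (b (a (l 16340544) (l 16336176))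 (a (l 16412440) (l 16403552))) (b (l 16329728) (a (l 16395168) (l 16385800)))) (a (b (a (b (l 16471672) (l 16514128)) (l 16426888)) (b (a (l 16558640) (l 16540944)) (a (b (l 16593248) (a (l 16622544) (l 16611568))) (b (l 16573488) (l 16574864))))) (b (a (l 16466040) (l 16451768)) (a (b (l 16523736) (l 16543760)) (b (l 16505544) (l 16543768))))))))), by decide +kernel⟩

def k1_pm_012_a : ∃ t, chk3 f_pm_012_a t 5 1 1 = true :=
  ⟨(b (a (b (a (l 16225264) (l 16315344)) (a (b (l 16185152) (l 16176272)) (l 16217352))) (b (a (l 16366072) (l 16418984)) (b (l 16289288) (l 16258936)))) (b (a (b (a (l 16200768) (l 16220376)) (a (l 16257960) (l 16263896))) (b (l 16255984) (l 16279272))) (a (b (a (b (l 16320056) (l 16371688)) (l 16335896)) (a (b (l 16430328) (a (l 16504976) (l 16486232))) (b (l 16405568) (l 16460032)))) (b (a (l 16329064) (l 16325288)) (a (l 16386072) (l 16383680)))))), by decide +kernel⟩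

def k2_pm_012_a : ∃ t, chk3 f_pm_012_a t 3 1 1 = true :=
  ⟨(b (a (b (a (l 16396040) (l 16375008)) (a (b (l 16383536) (l 16336816)) (l 16346032))) (b (a (a (l 16423568) (l 16404144)) (a (l 16388960) (b (b (l 16362392) (l 16371624)) (l 16396080)))) (a (b (l 16464400) (l 16483944)) (b (l 16424104) (l 16436024))))) (a (b (a (b (l 16312480) (l 16308984)) (b (l 16373928) (l 16344000))) (a (b (l 16323752) (a (l 16362744) (l 16343592))) (b (l 16305400) (a (l 16325576) (l 16308064))))) (b (a (b (l 16434720) (l 16378816)) (b (l 16437536) (l 16407840))) (a (b (l 16329216) (a (l 16290416) (l 16271984))) (b (l 16243024) (b (l 16242976) (l 16176896))))))), by decide +kernel⟩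

theorem s3_pm_012_a : ∃ t, chk3 f_pm_012_a t 2 1 1 = true := ex3_a k0_pm_012_a k1_pm_012_a

theorem s4_pm_012_a : ∃ t, chk3 f_pm_012_a t 1 1 1 = true := ex3_a s3_pm_012_a k2_pm_012_a

theorem c_pm_012_a : CertB 0 536870912 0 536870912 1045395039 1503240 3 eng mog cd0q0 cd2q2a pd1 false true false .pnp 0 1 2
    ndB0q0 ndB2q2a pcB1 cut_pm_012_a xt_pm_012_a :=
  certB0 (fam := false) (s1 := true) (s2 := false) (a := 0) (b := 1) (c := 2) (cn := .pnp) (n1 := ndB0q0) (n2 := ndB2q2a) (pc := pcB1) (cut := cut_pm_012_a) (xt := xt_pm_012_a) (P1 := 0) (W1 := 536870912) (P2 := 0) (W2 := 536870912) (P3 := 1045395039) (W3 := 1503240) (N0 := 3) (En := eng) (mo := mog) (C1 := cd0q0) (C2 := cd2q2a) (C3 := pd1)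
    rfl s4_pm_012_a

noncomputable def cut_pm_012_b : Cut := Cut.of [[⟨0, 0, 0, 26843545⟩, ⟨1, 1, 0, 26843545⟩, ⟨2, 1, 0, 26843545⟩]]

noncomputable def f_pm_012_b : ℕ → ℕ → ℕ → ℕ → Bool := onCell 0 536870912 536870912 536870912 1045395039 1503240
    (rowB 3 eng mog cd0q0 cd2q2b pd1 1 false true false .pnp 0 1 2 (qsf 0 536870912 1239849684 370763052 1) ndB0q0 ndB2q2b pcB1 cut_pm_012_b Ext.none)

def k0_pm_012_b : ∃ t, chk3 f_pm_012_b t 1 1 1 = true :=
  ⟨(a (a (l 1) (b (l 1) (b (l 1) (a (b (l 1) (a (l 330745031911) (l 16349240))) (b (l 224444446231) (b (l 16363072) (l 16122768))))))) (b (a (l 1) (b (l 1) (a (b (l 1) (a (l 244845291079) (l 16196424))) (b (a (l 237329015655) (b (l 235181711047) (l 16363992))) (a (l 16354096) (l 16467224)))))) (a (b (a (b (l 1) (l 221760003095)) (b (l 199748171335) (l 16340848))) (b (a (l 16265248) (b (l 16363336) (l 16202592))) (a (l 15863760) (l 15939928)))) (b (a (b (l 16262680) (l 16430552)) (b (a (l 16542712) (l 16616400)) (a (l 16471064) (l 16452232))))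 (a (b (l 16168616) (l 15883056)) (b (a (l 16200344) (l 16207824)) (b (l 15982384) (l 15817144)))))))), by decide +kernel⟩

theorem c_pm_012_b : CertB 0 536870912 1239849684 370763052 1045395039 1503240 3 eng mog cd0q0 cd2q2b pd1 false true false .pnp 0 1 2
    ndB0q0 ndB2q2b pcB1 cut_pm_012_b Ext.none :=
  certB1 (fam := false) (s1 := true) (s2 := false) (a := 0) (b := 1) (c := 2) (cn := .pnp) (n1 := ndB0q0) (n2 := ndB2q2b) (pc := pcB1) (cut := cut_pm_012_b) (xt := Ext.none) (P1 := 0) (W1 := 536870912) (P2 := 1239849684) (W2 := 370763052) (P3 := 1045395039) (W3 := 1503240) (N0 := 3) (En := eng) (mo := mog) (C1 := cd0q0) (C2 := cd2q2b) (C3 := pd1)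
    rfl (fun _ => rfl) k0_pm_012_b

noncomputable def cut_pm_022_a : Cut := Cut.of [[⟨0, 0, 0, 26843545⟩, ⟨1, 1, 0, 26843545⟩, ⟨2, 1, 0, 26843545⟩]]

noncomputable def f_pm_022_a : ℕ → ℕ → ℕ → ℕ → Bool := onCell 0 536870912 0 536870912 1045395039 1503240
    (rowB 3 eng mog cd0q0 cd2q2a pd2 0 false true false .pp 0 2 2 (qsf 0 536870912 0 536870912 2) ndB0q0 ndB2q2a pcB2 cut_pm_022_a Ext.none)

def k0_pm_022_a : ∃ t, chk3 f_pm_022_a t 4 1 1 = true :=
  ⟨(b (a (a (b (a (l 16366856) (b (l 16443864) (l 16451560))) (b (a (l 16453000) (l 16474736)) (a (l 16468880) (l 16506760)))) (b (b (l 16453920) (l 16439168)) (b (l 16444176) (b (l 16455072) (l 16465520))))) (b (a (b (l 16424856) (l 16473704)) (b (l 16201240) (a (l 16417000) (l 16372640)))) (a (b (a (l 16455480) (l 16484760)) (a (l 16459640) (l 16468992))) (b (a (l 16471864) (l 16433560)) (a (l 16497176) (l 16485368)))))) (a (b (a (b (a (b (l 16491864) (l 16513272)) (b (l 16532224) (l 16550352))) (a (b (l 16540208) (l 16573024)) (b (l 16568392)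 (a (l 16601688) (l 16570576))))) (b (a (l 16498696) (b (l 16472536) (l 16479120))) (b (a (l 16520704) (l 16462840)) (a (a (l 16540800) (l 16518680)) (l 16450168))))) (a (b (a (b (a (l 16578800) (l 16560480)) (b (a (l 16612440) (l 16661192)) (a (l 16641152) (l 16669896)))) (b (a (l 16574008) (b (l 16578304) (l 16582776))) (a (b (l 16625272) (l 16630256)) (l 16549032)))) (a (b (a (b (b (l 16684744) (l 16700424)) (b (l 16716320) (l 6))) (b (l 16675688) (l 16655216))) (l 6)) (b (b (a (l 16639776) (l 16608312)) (a (b (l 16650200) (l 6)) (b (l 16621432) (l 16632104)))) (a (l 6) (l 1))))) (b (b (a (b (l 16535392) (l 16540016)) (l 16505472)) (a (b (l 16548896) (l 16561968)) (b (l 16525736) (l 16545168)))) (b (a (b (a (l 16587200) (l 1)) (l 1)) (l 1)) (l 1))))) (b (a (b (b (a (l 16459008) (l 16464232)) (a (l 16462976) (l 16464768))) (b (a (l 16468016) (l 16473856)) (a (l 16478464) (l 16493544)))) (b (a (l 16491016) (l 16524016)) (b (l 16448504) (l 1)))) (b (a (b (a (l 16502920) (l 1)) (l 1)) (l 1))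 (l 1))))), by decide +kernel⟩

def k1_pm_022_a : ∃ t, chk3 f_pm_022_a t 5 1 1 = true :=
  ⟨(b (a (b (a (b (l 16136152) (l 16223816)) (b (l 1) (l 1))) (a (b (l 16269160) (a (l 16432944) (l 1))) (l 1))) (l 1)) (b (l 1) (l 1))), by decide +kernel⟩

def k2_pm_022_a : ∃ t, chk3 f_pm_022_a t 3 1 1 = true :=
  ⟨(l 1), by decide +kernel⟩

theorem s3_pm_022_a : ∃ t, chk3 f_pm_022_a t 2 1 1 = true := ex3_a k0_pm_022_a k1_pm_022_a

theorem s4_pm_022_a : ∃ t, chk3 f_pm_022_a t 1 1 1 = true := ex3_a s3_pm_022_a k2_pm_022_a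

theorem c_pm_022_a : CertB 0 536870912 0 536870912 1045395039 1503240 3 eng mog cd0q0 cd2q2a pd2 false true false .pp 0 2 2
    ndB0q0 ndB2q2a pcB2 cut_pm_022_a Ext.none :=
  certB0 (fam := false) (s1 := true) (s2 := false) (a := 0) (b := 2) (c := 2) (cn := .pp) (n1 := ndB0q0) (n2 := ndB2q2a) (pc := pcB2) (cut := cut_pm_022_a) (xt := Ext.none) (P1 := 0) (W1 := 536870912) (P2 := 0) (W2 := 536870912) (P3 := 1045395039) (W3 := 1503240) (N0 := 3) (En := eng) (mo := mog) (C1 := cd0q0) (C2 := cd2q2a) (C3 := pd2)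
    rfl s4_pm_022_a

noncomputable def cut_pm_022_b : Cut := Cut.of [[⟨0, 0, 0, 26843545⟩, ⟨1, 1, 0, 26843545⟩, ⟨2, 1, 0, 26843545⟩]]

noncomputable def f_pm_022_b : ℕ → ℕ → ℕ → ℕ → Bool := onCell 0 536870912 1073741824 536870912 1045395039 1503240
    (rowB 3 eng mog cd0q0 cd2q2b pd2 1 false true false .pp 0 2 2 (qsf 0 536870912 1239849684 370763052 2) ndB0q0 ndB2q2b pcB2 cut_pm_022_b Ext.none)

def k0_pm_022_b : ∃ t, chk3 f_pm_022_b t 1 2 1 = true :=
  ⟨(a (a (b (a (b (l 1) (a (b (l 1) (a (l 1) (l 16270704))) (b (l 381747494183) (l 16394424)))) (b (b (a (l 1) (l 397853022455)) (a (l 384431561223) (l 16106712))) (b (a (l 16319760) (l 16385152)) (a (l 16274096) (l 16108232))))) (a (b (a (b (a (l 16442240) (l 16383976)) (a (l 16320248) (l 16215400))) (b (l 16189792) (l 16068328))) (a (a (l 16065728) (l 15987600)) (l 15867896))) (b (b (l 15823504) (l 15811912)) (b (l 15710888) (l 15661544))))) (b (b (b (a (a (l 16032440) (l 16191656)) (b (l 16272928) (l 16369200))) (a (b (l 16308440) (l 16404408))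 (b (l 16353352) (l 16172296)))) (a (b (a (l 16229696) (l 16093112)) (l 15885552)) (b (l 15925808) (l 15645976)))) (b (a (b (l 15668744) (l 15510656)) (l 15101920)) (a (l 15375648) (l 15106376))))) (b (b (a (b (a (b (l 16354040) (l 16412104)) (b (l 16359104) (l 16368392))) (a (b (l 16189912) (l 16023128)) (b (l 16154976) (l 15955096)))) (a (b (a (l 16385600) (b (l 16592360) (l 16396184))) (b (l 16141992) (l 15966328))) (b (a (b (l 16515280) (a (l 16430312) (l 16430248))) (b (l 16572872) (l 16348680))) (a (b (l 16217488) (l 15997552)) (l 16029720))))) (a (a (b (l 15766496) (l 15472080)) (b (l 15680504) (l 15361384))) (a (b (l 15665656) (l 15311320)) (b (a (l 15685200) (l 2)) (l 2))))) (a (b (a (l 15134272) (l 14984376)) (a (l 14870264) (l 14663216))) (b (a (l 14774816) (l 2)) (l 2))))), by decide +kernel⟩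

def k1_pm_022_b : ∃ t, chk3 f_pm_022_b t 1 3 1 = true :=
  ⟨(a (a (b (a (b (a (b (l 16091216) (l 16127368)) (l 15923272)) (a (b (l 15981496) (l 4)) (b (l 16024176) (l 15982096)))) (b (l 15423704) (b (l 15784592) (l 15868720)))) (a (l 4) (b (l 277258018215) (l 4)))) (b (b (a (l 15364688) (l 15072360)) (a (l 15497640) (l 15201920))) (b (a (b (l 15699712) (l 2)) (l 2)) (l 2)))) (b (a (b (a (l 14795432) (l 2)) (l 2)) (l 2)) (l 2))), by decide +kernel⟩

theorem s2_pm_022_b : ∃ t, chk3 f_pm_022_b t 1 1 1 = true := ex3_b k0_pm_022_b k1_pm_022_b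

theorem c_pm_022_b : CertB 0 536870912 1239849684 370763052 1045395039 1503240 3 eng mog cd0q0 cd2q2b pd2 false true false .pp 0 2 2
    ndB0q0 ndB2q2b pcB2 cut_pm_022_b Ext.none :=
  certB1 (fam := false) (s1 := true) (s2 := false) (a := 0) (b := 2) (c := 2) (cn := .pp) (n1 := ndB0q0) (n2 := ndB2q2b) (pc := pcB2) (cut := cut_pm_022_b) (xt := Ext.none) (P1 := 0) (W1 := 536870912) (P2 := 1239849684) (W2 := 370763052) (P3 := 1045395039) (W3 := 1503240) (N0 := 3) (En := eng) (mo := mog) (C1 := cd0q0) (C2 := cd2q2b) (C3 := pd2)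
    rfl (fun _ => rfl) s2_pm_022_b

noncomputable def f_pm_023 : ℕ → ℕ → ℕ → ℕ → Bool := onCell 0 536870912 1073741824 536870912 1045395039 1503240
    (rowB 3 eng mog cd0q0 cd2q3 pd2 1 false true false .up 0 2 3 (qsf 0 536870912 1610612736 536870912 2) ndB0q0 ndB2q3 pcB2 Cut.none Ext.none)

def k0_pm_023 : ∃ t, chk3 f_pm_023 t 1 1 1 = true :=
  ⟨(b (a (a (l 1) (b (l 1) (b (l 1) (a (l 1) (l 328591796615))))) (b (b (a (l 1) (a (b (l 1) (a (l 1) (l 346311448439))) (a (b (a (l 1) (l 271150159575)) (a (l 209409456711) (l 14796496))) (b (b (a (l 15248368) (l 92909425735)) (l 15032296)) (b (l 14872584) (l 14704512)))))) (a (a (l 1) (b (l 1) (l 13941168))) (a (b (a (l 14272488) (l 14347216)) (a (l 13988576) (l 14054352))) (b (a (a (l 14421160) (l 14455944)) (l 14475264)) (a (l 14141912) (l 14209464)))))) (a (b (a (b (l 1) (l 13620624)) (b (l 13709616) (l 13585760))) (a (l 160551002983) (b (l 13503464) (l 13479016)))) (b (a (b (l 13796440) (l 13634304)) (b (l 13943592) (l 13763416))) (a (b (l 13531032)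 (l 13482288)) (b (l 13630424) (l 13542512))))))) (a (a (b (a (l 1) (b (l 1) (b (l 1) (l 14438344)))) (a (l 4) (b (b (l 14535808) (l 4)) (l 4)))) (b (b (a (l 519718352935) (l 13728648)) (a (l 13923624) (l 14016264))) (b (a (b (l 14473112) (l 14645920)) (l 14471048)) (a (l 4) (b (l 14854256) (l 15067120)))))) (b (a (b (a (l 13612112) (l 13542704)) (a (l 13892880) (l 13786568))) (a (b (l 13502704) (l 13674184)) (b (a (l 13480808) (l 13512536)) (a (l 13572816) (l 13529760))))) (a (b (a (l 14331048) (l 14172824)) (a (l 14876424) (l 14647480))) (a (b (l 13967416) (l 14320792)) (b (a (l 13766152) (l 13633768)) (a (l 13990112) (a (l 13781800) (l 13750816))))))))), by decide +kernel⟩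

theorem c_pm_023 : CertB 0 536870912 1610612736 536870912 1045395039 1503240 3 eng mog cd0q0 cd2q3 pd2 false true false .up 0 2 3
    ndB0q0 ndB2q3 pcB2 Cut.none Ext.none :=
  certB1 (fam := false) (s1 := true) (s2 := false) (a := 0) (b := 2) (c := 3) (cn := .up) (n1 := ndB0q0) (n2 := ndB2q3) (pc := pcB2) (cut := Cut.none) (xt := Ext.none) (P1 := 0) (W1 := 536870912) (P2 := 1610612736) (W2 := 536870912) (P3 := 1045395039) (W3 := 1503240) (N0 := 3) (En := eng) (mo := mog) (C1 := cd0q0) (C2 := cd2q3) (C3 := pd2)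
    rfl (fun _ => rfl) k0_pm_023

noncomputable def f_pm_033 : ℕ → ℕ → ℕ → ℕ → Bool := onCell 1610612736 536870912 1610612736 536870912 1045395039 1503240
    (rowB 3 eng mog cd0q0 cd2q3 pd3 2 false true false .pnn 0 3 3 (qsf 0 536870912 1610612736 536870912 3) ndB0q0 ndB2q3 pcB3 Cut.none Ext.none)

def k0_pm_033 : ∃ t, chk3 f_pm_033 t 1 1 1 = true :=
  ⟨(a (b (a (b (l 4) (a (b (l 4) (l 15185512)) (l 4))) (l 4)) (b (a (a (b (l 15436800) (l 15705680)) (l 156461393767)) (l 4)) (a (b (a (l 15960176) (l 15920808)) (a (l 16139832) (l 16069592))) (b (l 4) (a (l 16003512) (l 4)))))) (l 4)), by decide +kernel⟩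

theorem c_pm_033 : CertB 0 536870912 1610612736 536870912 1045395039 1503240 3 eng mog cd0q0 cd2q3 pd3 false true false .pnn 0 3 3
    ndB0q0 ndB2q3 pcB3 Cut.none Ext.none :=
  certB2 (fam := false) (s1 := true) (s2 := false) (a := 0) (b := 3) (c := 3) (cn := .pnn) (n1 := ndB0q0) (n2 := ndB2q3) (pc := pcB3) (cut := Cut.none) (xt := Ext.none) (P1 := 0) (W1 := 536870912) (P2 := 1610612736) (W2 := 536870912) (P3 := 1045395039) (W3 := 1503240) (N0 := 3) (En := eng) (mo := mog) (C1 := cd0q0) (C2 := cd2q3) (C3 := pd3)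
    rfl (fun _ => rfl) k0_pm_033

noncomputable def f_pm_101 : ℕ → ℕ → ℕ → ℕ → Bool := onCell 536870912 536870912 536870912 536870912 1045395039 1503240
    (rowB 3 eng mog cd0q1 cd2q1 pd0 0 false true false .npn 1 0 1 (qsf 536870912 536870912 536870912 536870912 0) ndB0q1 ndB2q1 pcB0 Cut.none Ext.none)

def k0_pm_101 : ∃ t, chk3 f_pm_101 t 1 1 1 = true :=
  ⟨(a (l 4) (a (l 4) (b (l 1) (b (a (l 4) (l 1)) (a (l 4) (a (a (b (l 4) (b (l 15162712) (l 15142680))) (b (l 1) (b (b (l 402146857671) (l 15147088)) (l 15160664)))) (b (l 1) (a (b (a (l 342017224711) (l 1)) (a (l 15206752) (l 15242752))) (b (l 1) (l 281887645687)))))))))), by decide +kernel⟩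

theorem c_pm_101 : CertB 536870912 536870912 536870912 536870912 1045395039 1503240 3 eng mog cd0q1 cd2q1 pd0 false true false .npn 1 0 1
    ndB0q1 ndB2q1 pcB0 Cut.none Ext.none :=
  certB0 (fam := false) (s1 := true) (s2 := false) (a := 1) (b := 0) (c := 1) (cn := .npn) (n1 := ndB0q1) (n2 := ndB2q1) (pc := pcB0) (cut := Cut.none) (xt := Ext.none) (P1 := 536870912) (W1 := 536870912) (P2 := 536870912) (W2 := 536870912) (P3 := 1045395039) (W3 := 1503240) (N0 := 3) (En := eng) (mo := mog) (C1 := cd0q1) (C2 := cd2q1) (C3 := pd0)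
    rfl k0_pm_101

noncomputable def cut_pm_102_a : Cut := Cut.of [[⟨0, 1, 0, 11184810⟩, ⟨1, 0, 0, 11184810⟩, ⟨2, 1, 0, 11184810⟩], [⟨0, 0, 1, 46137344⟩, ⟨1, 1, 2, 46137344⟩, ⟨2, 1, 0, 1048576⟩, ⟨0, 0, 0, 1056440320⟩, ⟨0, 1, 0, 33457795⟩, ⟨1, 0, 0, 33457795⟩, ⟨1, 1, 0, 1056440320⟩]]

noncomputable def xt_pm_102_a : Ext := extD3 3 ⟨4, 1, 1, 5, 33, 5, 163, 200, 81, 200, 1, 64⟩ eng cd0q1 cd2q2a pd0 false true false .npp 1 0 2 rfl ndB0q1 ndB2q2a pcB0

noncomputable def f_pm_102_a : ℕ → ℕ → ℕ → ℕ → Bool := onCell 536870912 536870912 0 536870912 1045395039 1503240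
    (rowB 3 eng mog cd0q1 cd2q2a pd0 0 false true false .npp 1 0 2 (qsf 536870912 536870912 0 536870912 0) ndB0q1 ndB2q2a pcB0 cut_pm_102_a xt_pm_102_a)

def k0_pm_102_a : ∃ t, chk3 f_pm_102_a t 2 2 1 = true :=
  ⟨(a (a (l 2) (b (l 2) (b (l 2) (a (l 2) (b (l 2) (l 14561904)))))) (b (a (a (a (l 2) (b (l 15337640) (l 15138896))) (b (a (l 15420760) (l 15512664)) (a (l 15218208) (l 15306464)))) (a (b (a (l 15613072) (l 15721696)) (a (l 15403384) (l 15508680))) (b (a (l 15775304) (l 15815504)) (a (l 15622056) (l 15743176))))) (a (b (a (a (l 14872632) (l 14939808)) (a (l 15016304) (l 15101816))) (a (b (a (b (a (l 14757216) (l 14760880)) (l 14705864)) (b (l 14814112) (a (l 14789880) (l 14778128)))) (a (l 14636032) (b (a (l 14702040) (l 14737248)) (l 14673544)))) (b (l 14820792) (a (b (a (b (l 14778120) (l 14758368)) (l 14804120)) (a (l 14723328) (l 14762752))) (b (l 14870528) (a (b (l 14807904) (l 14787376)) (l 14838504))))))) (a (a (b (l 15196072) (l 14904888)) (b (l 15298784) (l 15047784))) (b (a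 (l 15409648) (l 15528344)) (b (l 15267168) (l 15077680))))))), by decide +kernel⟩

def k1_pm_102_a : ∃ t, chk3 f_pm_102_a t 4 3 1 = true :=
  ⟨(b (a (l 2) (b (a (l 2) (b (l 14450976) (l 14361408))) (a (a (b (l 2) (l 14110904)) (b (l 14232856) (l 14142768))) (b (l 14272896) (l 14186320))))) (a (b (a (l 2) (a (b (l 2) (b (l 2) (l 13860848))) (b (l 13994664) (b (l 13926032) (l 13881296))))) (a (a (b (l 2) (b (b (l 13714560) (l 13690912)) (b (a (l 13666856) (l 13669088)) (a (l 13643680) (l 13646640))))) (b (b (l 13802392) (l 13755592)) (b (a (l 13707344) (l 13713664)) (b (l 13677256) (a (l 13652168) (l 13660232)))))) (a (b (b (l 13815136) (l 13770680)) (b (a (l 13722496) (l 13733800)) (b (l 13696952) (a (l 13670808) (l 13683864))))) (b (b (l 13837736) (l 13795632)) (b (a (l 13747560) (l 13763720)) (b (l 13726496) (l 13708000))))))) (b (a (a (b (l 14020136) (b (l 13954120) (l 13911352))) (b (l 14054944) (b (l 13991520) (l 13950712)))) (b (a (l 14098768) (l 14151296)) (a (b (l 14037944) (l 13999072))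 (b (l 14093048) (l 14056120))))) (a (a (b (b (l 13869936) (l 13830160)) (b (a (l 13782264) (l 13803152)) (a (l 13746144) (l 13768408)))) (b (b (l 13911432) (l 13873992)) (b (l 13838728) (a (l 13792976) (l 13819808))))) (b (a (b (l 13961920) (l 13926808)) (b (l 14021096) (l 13988296))) (a (b (l 13894080) (a (l 13848864) (l 13880120))) (b (l 13958096) (l 13930944)))))))), by decide +kernel⟩

def k2_pm_102_a : ∃ t, chk3 f_pm_102_a t 5 3 1 = true :=
  ⟨(b (a (b (a (b (l 14576696) (l 14489896)) (b (a (l 14676040) (a (l 14731928) (l 14757112))) (l 14628752))) (a (b (l 14405056) (l 14323160)) (b (l 14547584) (l 14470328)))) (b (a (b (a (b (a (b (l 14846072) (l 14824800)) (l 14880864)) (l 14797160)) (b (l 14958984) (b (l 14917264) (l 14871672)))) (a (l 14751632) (b (l 14846552) (l 14822024)))) (b (a (l 15041016) (l 15157048)) (a (b (b (l 14972720) (l 14927680)) (l 14903656)) (b (l 15078024) (b (l 15035304) (l 14991816)))))) (a (b (l 14718224) (l 14645560)) (b (a (l 14862608) (b (l 14989752) (l 14948256)))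 (a (l 14793392) (l 14898640)))))) (a (b (a (b (b (l 14243624) (l 14206128)) (b (l 14170216) (l 14136176))) (b (b (l 14415944) (l 14381608)) (b (l 14349192) (l 14318992)))) (a (b (b (l 14104304) (l 14074968)) (b (l 14048560) (b (l 14010104) (l 13999528)))) (b (b (l 14291344) (l 14266632)) (b (l 14245312) (b (l 14211008) (l 14203368)))))) (b (a (b (b (l 14595312) (l 14564120)) (b (l 14535168) (l 14508792))) (b (a (l 14731392) (l 14839424)) (a (l 14657816) (l 14790272)))) (a (b (b (l 14485360) (l 14465312)) (b (a (l 14395904) (l 14504240)) (b (l 14440016) (a (l 14380256) (l 14492240))))) (b (a (l 14617480) (b (l 14761784) (l 14747648))) (b (a (l 14618464) (b (l 14740040) (l 14736488))) (b (a (l 14612496) (l 14734288)) (a (l 14610160) (l 14733528))))))))), by decide +kernel⟩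

def k3_pm_102_a : ∃ t, chk3 f_pm_102_a t 6 2 1 = true :=
  ⟨(a (b (a (b (a (b (l 16149736) (l 16037216)) (b (l 16288528) (l 16174672))) (a (l 15871696) (l 15986288))) (b (a (b (a (l 16396712) (b (a (l 16481040) (l 16515952)) (l 16441624))) (l 16318584)) (b (a (b (l 16537144) (a (l 16499440) (l 16525896))) (l 16550168)) (a (l 16430376) (b (l 16480560) (l 16479120))))) (a (l 16065576) (l 16151040)))) (a (b (a (l 15654536) (l 15787856)) (b (l 15495704) (l 15346656))) (b (a (l 15927928) (l 15990448)) (a (l 15667936) (l 15728624))))) (b (a (b (a (b (l 16577456) (a (b (l 16552832) (l 16532296)) (l 16564032))) (l 16599264)) (a (b (a (l 16472680) (b (l 16541944) (l 16516624))) (l 16394856)) (b (l 16563352) (a (b (l 16531496) (l 16484992)) (l 16527544))))) (b (a (l 16631272) (l 16662384)) (l 16546776))) (a (b (a (l 16079792) (b (l 16296696) (l 16327872))) (a (l 15837144) (b (l 16216272) (l 16105352)))) (b (a (b (a (b (l 16557376) (l 16532104)) (l 16572824)) (a (l 16448680) (b (l 16550592) (l 16502296))))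 (b (l 16603136) (a (l 16527712) (l 16599336)))) (a (b (l 16377272) (l 16265536)) (b (a (l 16504192) (b (l 16581992) (l 16555992))) (l 16429720))))))), by decide +kernel⟩

def k4_pm_102_a : ∃ t, chk3 f_pm_102_a t 7 2 1 = true :=
  ⟨(a (a (b (b (a (b (l 162302569143) (l 16659160)) (l 188609277431)) (a (l 16656008) (b (l 174113719079) (a (l 16669808) (l 16682200))))) (b (a (l 16628496) (b (l 16663376) (l 16652072))) (a (b (l 16603528) (a (b (l 16577608) (l 16526656)) (b (l 16612048) (l 16575560)))) (l 16639952)))) (b (a (b (l 3) (b (l 3) (l 193977980055))) (l 3)) (b (a (b (a (l 138680266887) (l 193977987351)) (a (l 16672688) (l 149417686199))) (a (b (l 3) (l 194514860983)) (l 3))) (a (b (l 16670336) (l 16663824)) (b (a (b (l 160155114215) (l 16686928)) (b (l 190219895511) (l 189146162087))) (a (l 16682320) (b (l 166060699287) (l 16692152)))))))) (a (b (l 3) (b (l 3) (a (b (l 3) (a (b (l 210084125975) (l 185388074471)) (l 3))) (l 3)))) (l 3))), by decide +kernel⟩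

def k5_pm_102_a : ∃ t, chk3 f_pm_102_a t 6 6 1 = true :=
  ⟨(a (b (a (b (a (l 15280488) (l 15410968)) (a (l 15174640) (l 15304616))) (a (b (l 15548104) (l 15441152)) (b (l 15691480) (l 15583824)))) (a (b (a (b (b (l 15104976) (l 15084944)) (l 15062528)) (b (l 15225448) (a (l 15123736) (l 15181584)))) (a (l 15008688) (b (l 15142344) (l 15108592)))) (b (a (l 15335096) (l 15477168)) (a (b (a (l 15209712) (l 15268168)) (l 15227008)) (b (l 15396080) (a (l 15302952) (b (l 15393080) (l 15355576)))))))) (a (b (a (b (l 15840656) (l 15732192)) (b (l 15995152) (l 15885776))) (b (a (l 15624792) (l 15777480)) (a (b (l 15545344) (a (l 15451712) (l 15530384))) (l 15670696)))) (b (a (b (l 16154400) (l 16044024)) (b (l 16317736) (l 16206328))) (b (a (l 15934688) (l 16095824)) (a (l 15784912) (l 15839936)))))), by decide +kernel⟩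

def k6_pm_102_a : ∃ t, chk3 f_pm_102_a t 6 7 1 = true :=
  ⟨(b (a (a (b (a (l 14952240) (l 15069224)) (a (l 14906512) (l 15026912))) (b (a (l 15189728) (l 15313040)) (a (l 15150824) (b (l 15285008) (l 15271064))))) (a (b (a (b (b (a (l 15427024) (l 15468704)) (l 15447224)) (l 15428936)) (b (a (b (l 15567096) (l 15520856)) (l 15630768)) (b (a (l 15530600) (l 15575328)) (l 15552232)))) (a (b (l 15412792) (l 15400752)) (b (l 15541712) (l 15531568)))) (b (a (b (l 15747648) (b (l 15704960) (a (l 15652640) (l 15719528)))) (b (l 15906576) (l 15853904))) (b (a (b (a (l 15641528) (l 15710160)) (l 15668304)) (b (a (l 15775168) (l 15855016)) (a (l 15767808) (l 15833824)))) (a (l 15662520) (l 15792504)))))) (a (a (b (a (b (l 14881136) (l 14869392)) (b (l 15004664) (l 14974360))) (b (a (l 14841520) (l 14970184)) (a (b (l 14860952) (l 14840824)) (b (l 14970928) (l 14973416))))) (b (a (b (l 15131712) (l 15124824)) (b (l 15261560) (l 15257136))) (a (b (l 15123416) (b (l 15126480) (l 15133280))) (b (b (l 15257632)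 (l 15259936)) (b (l 15263976) (b (l 15268248) (l 15271688))))))) (a (b (a (b (l 15393416) (l 15391472)) (b (l 15526392) (l 15526912))) (b (a (b (l 15394056) (l 15397872)) (b (l 15531568) (l 15536864))) (a (b (l 15403520) (b (l 15409072) (l 15434368))) (b (b (l 15542112) (l 15546208)) (a (l 15496848) (l 15567856)))))) (b (a (b (l 15659472) (l 15662384)) (b (l 15791496) (l 15775584))) (b (a (b (l 15668968) (l 15675568)) (a (l 15774432) (l 15841304))) (a (b (a (l 15649272) (l 15718672)) (a (l 15659392) (l 15728960))) (b (l 15736112) (a (l 15796312) (l 15858056))))))))), by decide +kernel⟩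

def k7_pm_102_a : ∃ t, chk3 f_pm_102_a t 7 6 1 = true :=
  ⟨(a (a (b (a (b (l 16318032) (l 16329928)) (b (a (b (l 16613664) (l 16584160)) (l 16608336)) (a (l 16497432) (b (l 16566688) (l 16553288))))) (a (b (l 16197256) (b (l 16177360) (l 16122576))) (b (l 16300896) (a (l 16273440) (l 16356360))))) (b (a (b (l 16659904) (a (b (l 16645544) (l 16546032)) (l 16660096))) (b (a (l 16678280) (l 16689360)) (l 16682272))) (a (b (a (l 16552200) (b (a (l 16642264) (l 16661552)) (l 16608752))) (a (l 16439416) (l 16501392))) (b (a (b (l 16678008) (a (l 16662360) (l 16677168))) (l 16689520)) (a (b (l 16593888) (l 16576736)) (b (a (l 16679752) (l 16692384)) (a (l 16638064) (l 16656528)))))))) (a (b (a (b (a (b (l 149954578455) (l 16699064)) (b (l 3) (l 189683027639))) (a (l 16698176) (b (l 16690712) (l 16708176)))) (b (l 3) (a (l 258939409607) (l 3)))) (a (b (a (l 16699488) (l 16709344)) (a (b (l 16702576) (a (l 16695344) (l 16708232))) (l 16713632))) (b (a (l 106468037895) (l 146196482807)) (a (l 16722552)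 (b (l 16700832) (l 16709568)))))) (a (b (l 3) (a (b (l 3) (b (l 3) (l 85530111623))) (l 3))) (l 3)))), by decide +kernel⟩

def k8_pm_102_a : ∃ t, chk3 f_pm_102_a t 14 7 1 = true :=
  ⟨(b (a (b (a (b (l 16068368) (l 16014880)) (b (l 16232248) (l 16177800))) (a (b (a (l 15919336) (l 16002672)) (b (a (l 15894552) (l 15961736)) (a (l 15888232) (l 15956008)))) (b (l 16103176) (a (b (l 16044368) (b (l 16022904) (l 16017688))) (l 16111824))))) (a (b (a (l 16286080) (l 16347336)) (b (l 16182056) (a (l 16192312) (l 16272824)))) (b (a (l 16408280) (l 16447488)) (b (a (l 16408984) (l 16489824)) (a (l 16353288) (l 16433696)))))) (b (a (a (b (l 15921104) (l 15885576)) (b (b (a (l 16016168) (b (l 16080648) (l 16079408))) (l 16047984)) (l 16009704))) (a (b (b (a (l 16128920) (l 16231320)) (a (l 16136800) (b (l 16207984) (l 16199384)))) (b (a (l 16137480) (l 16184776)) (l 16104952))) (b (a (l 16293272) (l 16364656)) (b (a (b (l 16231928) (l 16197120)) (a (l 16246064) (l 16272464))) (a (l 16139824) (b (l 16200352)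 (l 16158296))))))) (a (b (a (a (l 15906104) (l 15966512)) (b (l 16027264) (l 15884984))) (a (b (l 15774520) (a (l 15837216) (l 15747816))) (b (a (l 15870096) (l 15845616)) (a (b (l 15796232) (l 15742448)) (b (l 15765384) (l 15706968)))))) (b (b (a (l 16024992) (l 16069088)) (a (a (l 15932784) (l 15936096)) (a (l 15952384) (l 15984136)))) (a (b (a (l 15830568) (l 15826864)) (a (b (l 15744080) (l 15681136)) (b (l 15734496) (l 15667368)))) (a (b (l 15836912) (b (l 15739504) (l 15668952))) (b (l 15863864) (b (l 15763000) (a (l 15682840) (l 15699648)))))))))), by decide +kernel⟩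

def k9_pm_102_a : ∃ t, chk3 f_pm_102_a t 15 14 1 = true :=
  ⟨(a (b (a (a (b (a (l 16664128) (b (l 16704360) (l 16689480))) (l 16625792)) (b (a (l 16689672) (l 16721424)) (a (l 16646440) (b (l 16720144) (l 16690080))))) (a (b (l 16727448) (a (l 16704600) (l 16733872))) (b (l 16733816) (l 16737792)))) (a (a (b (l 16570016) (l 16514240)) (b (l 16607528) (l 16573368))) (a (b (a (b (l 16720584) (l 16694264)) (b (l 16734856) (l 16729352))) (l 16588312)) (b (a (l 16739112) (l 16744240)) (a (b (a (l 16733808) (l 16743600)) (l 16715048)) (b (l 16747752) (a (l 16742304) (l 16750216)))))))) (a (a (b (b (a (l 16712112) (l 16708576)) (a (l 16739680) (l 42580471543))) (b (a (l 16744800) (l 16744008)) (a (l 16729040) (l 16751256)))) (b (a (b (l 3) (l 66739652807)) (l 3)) (b (a (b (l 16718728) (l 16743024)) (a (l 16726168) (l 3))) (a (b (l 16746408) (l 16750584)) (b (a (l 16743224) (l 16718792)) (a (l 16747272) (l 16744496))))))) (b (l 3) (a (b (l 3) (a (b (l 3) (l 31843053415)) (l 3))) (l 3))))), by decide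 +kernel⟩

def k10_pm_102_a : ∃ t, chk3 f_pm_102_a t 30 15 1 = true :=
  ⟨(b (a (b (a (l 16433296) (l 16435168)) (a (b (l 16320416) (b (l 16257016) (a (l 16197680) (l 16229392)))) (b (l 16401568) (a (l 16290208) (l 16334288))))) (b (a (b (l 16631600) (l 16585256)) (a (l 16633136) (l 16648280))) (a (b (l 16504072) (l 16453528)) (l 142499008663732271)))) (b (a (b (a (l 16141704) (b (a (l 16218600) (l 16260288)) (l 16188136))) (a (l 16034208) (l 16106128))) (a (b (b (l 16336368) (a (b (l 16269952) (l 16244064)) (l 16312264))) (a (l 16177048) (b (b (l 16272752) (l 16246616)) (l 16207080)))) (b (l 140579261061873711) (b (l 140703780594630703) (l 139951370945036335))))) (a (b (a (l 15911680) (l 15985760)) (a (b (l 15810320) (a (l 15723592) (l 15755944))) (b (l 15889352) (a (l 15798352) (l 15852944))))) (a (b (a (l 16063016) (l 16126984)) (a (b (l 15976568) (b (l 15935456) (l 15909824))) (b (l 16051912) (b (l 16019800) (l 16064904))))) (b (l 138797570796388399) (b (l 137910539694719023) (a (l 136886138299629615)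 (l 139332964321837103)))))))), by decide +kernel⟩

def k11_pm_102_a : ∃ t, chk3 f_pm_102_a t 31 30 1 = true :=
  ⟨(a (a (b (a (b (a (l 16749808) (l 16756032)) (l 16712192)) (b (l 16757504) (a (b (l 16760016) (l 16751976)) (l 16760896)))) (b (a (l 16708088) (l 16699576)) (l 591754110905710603823151))) (b (a (l 16737816) (b (l 16730184) (l 16736256))) (a (b (a (b (l 16764808) (l 16758536)) (b (l 16766344) (l 16766840))) (l 598220559495760663636079)) (b (l 16764480) (a (l 598979758399246882204911) (l 599117820925895215279343)))))) (a (b (a (b (a (l 16745856) (l 16740560)) (a (l 16751872) (l 16725984))) (a (b (l 3) (l 16740936)) (l 3))) (a (b (l 16735664) (l 16743944)) (b (a (l 16727232) (l 16742312)) (a (l 601887426896691049000559) (l 143564779329159279))))) (b (l 3) (a (b (l 3) (a (l 1375757582865031059515375727) (l 3))) (l 3))))), by decide +kernel⟩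

def k12_pm_102_a : ∃ t, chk3 f_pm_102_a t 62 62 1 = true :=
  ⟨(a (b (l 142702006009298991) (b (l 141909876463566895) (l 141431863701454895))) (b (a (l 597615564267033781594223) (a (l 16726768) (l 599628276920273136299247))) (a (l 142885899434950767) (a (l 143482659503571183) (l 600405634441704364354799))))), by decide +kernel⟩

def k13_pm_102_a : ∃ t, chk3 f_pm_102_a t 124 63 1 = true :=
  ⟨(b (b (l 142272715164811311) (l 140769888915521583)) (b (a (l 140030673395056687) (l 141874692174397487)) (a (b (l 140278063575629871) (b (l 140532738010660911) (b (l 141959354638942255) (a (l 140378600257224751) (l 14))))) (b (l 142627101873045551) (b (l 143209155950149679) (l 14)))))), by decide +kernel⟩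

def k14_pm_102_a : ∃ t, chk3 f_pm_102_a t 125 126 1 = true :=
  ⟨(a (b (l 142706816449921135) (l 143046496896876655)) (b (l 598512825436446599818479) (b (l 597353274584122551774447) (l 597898894686796185840879)))), by decide +kernel⟩

def k15_pm_102_a : ∃ t, chk3 f_pm_102_a t 125 254 1 = true :=
  ⟨(a (l 143555295986139247) (b (l 599215819458364658216175) (l 599726563691777449946351))), by decide +kernel⟩

def k16_pm_102_a : ∃ t, chk3 f_pm_102_a t 250 255 1 = true :=
  ⟨(b (l 143750734240022639) (b (l 143754513817714799) (l 14))), by decide +kernel⟩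

def k17_pm_102_a : ∃ t, chk3 f_pm_102_a t 251 510 1 = true :=
  ⟨(a (l 143809901727482095) (l 143851889341104367)), by decide +kernel⟩

def k18_pm_102_a : ∃ t, chk3 f_pm_102_a t 502 511 1 = true :=
  ⟨(b (l 143808664779899119) (l 14)), by decide +kernel⟩

def k19_pm_102_a : ∃ t, chk3 f_pm_102_a t 503 1022 1 = true :=
  ⟨(l 143667240107311343), by decide +kernel⟩

def k20_pm_102_a : ∃ t, chk3 f_pm_102_a t 1006 1023 1 = true :=
  ⟨(l 14), by decide +kernel⟩

def k21_pm_102_a : ∃ t, chk3 f_pm_102_a t 2014 1023 1 = true :=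
  ⟨(a (l 14) (a (l 14) (a (l 14) (a (l 14) (a (l 14) (a (l 14) (a (l 14) (a (l 14) (b (l 143849759038472431) (b (l 143846804099776751) (b (l 143845223551123695) (b (l 143844330197549295) (c (b (l 143844948672725231) (c (c (c (l 143845498428457199) (l 143845292270010607)) (c (l 143845017392087279) (l 143844742514163951))) (b (l 143844192758350063) (c (c (l 143844467636207855) (l 143844192758284527)) (c (l 143843917880361199) (l 143843711721914607)))))) (b (l 143842887088275695) (b (l 143842680929747183) (b (c (l 143843093246607599) (l 143842062454374639)) (b (c (l 143843024527098095) (l 143841993734881519)) (c (c (c (l 143843368124498159) (l 143843093246574831)) (c (c (l 143842887088128239) (l 143842818368635119)) (c (l 143842680929681647) (l 143842543490711791)))) (c (c (c (l 143842406051758319) (l 143842268612788463)) (c (l 143842131173834991) (l 143841993734865135))) (c (c (l 143841856295895279) (l 143841718856941807)) (c (l 143841581417971951) (b (l 143841512698495215) (l 143841443979018479))))))))))))))))))))))),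 by decide +kernel⟩

def k22_pm_102_a : ∃ t, chk3 f_pm_102_a t 2015 2046 1 = true :=
  ⟨(l 143857455621161199), by decide +kernel⟩

def k23_pm_102_a : ∃ t, chk3 f_pm_102_a t 2015 4094 1 = true :=
  ⟨(l 143809695584092399), by decide +kernel⟩

def k24_pm_102_a : ∃ t, chk3 f_pm_102_a t 2015 4095 2 = true :=
  ⟨(b (l 143832098133410031) (a (b (l 143847903611551983) (b (l 143847628733645039) (b (c (l 143848041050570991) (l 143847078977831151)) (c (a (b (l 143846529221296367) (c (a (a (a (c (l 143845567147983087) (l 143845360989454575)) (l 143845842026070255)) (l 143846391782179055)) (l 143847422574919919)) (a (a (c (c (l 143845360989274351) (l 143845223550320879)) (c (l 143845086111514863) (l 143844948672561391))) (l 143845842026332399)) (l 143846941538549999)))) (l 143849346720760047)) (a (a (a (b (l 143844467636355311) (b (l 143844398916878575) (c (c (c (l 143844811233427695) (l 143844673794474223)) (c (l 143844605074981103) (l 143844467636027631))) (b (l 143844124038955247) (c (c (l 143844330197057775)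 (l 143844192758104303)) (c (l 143844055319134447) (l 143843917880344815))))))) (c (l 143845429709422831) (l 143844879953576175))) (c (l 143846529221656815) (l 143846048185286895))) (c (l 143848728246092015) (l 143848247209738479))))))) (a (c (l 143855531475812591) (l 143854706841370863)) (c (l 143865358362575087) (l 143864533728788719))))), by decide +kernel⟩

def k25_pm_102_a : ∃ t, chk3 f_pm_102_a t 2015 4095 3 = true :=
  ⟨(b (l 143824676429807855) (b (a (l 143846048185549039) (l 143858486413918447)) (b (a (l 143845773307642095) (l 143858280255570159)) (a (b (c (l 143846116905091311) (l 143845154832351471)) (c (a (a (a (b (l 143843436844122351) (b (l 143843368124645615) (b (c (l 143843643002585327) (l 143843093246738671)) (b (c (l 143843643002585327) (l 143843093246738671)) (c (c (c (l 143843780441211119) (l 143843711721734383)) (c (l 143843574282928367) (l 143843436843974895))) (a (c (c (l 143843093246640367) (l 143842955807686895)) (c (l 143842818368717039) (l 143842749649240303))) (c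 (l 143843436844220655) (l 143843161966297327)))))))) (c (a (l 143844192758677743) (l 143844605075734767)) (c (l 143844055319806191) (l 143843780441882863)))) (c (l 143845567148572911) (a (l 143844673795490031) (l 143845429710127343)))) (c (l 143847766172696815) (c (l 143847422575952111) (l 143847216417177839)))) (a (a (b (l 143842749649486063) (a (b (l 143842337332429039) (c (a (b (l 143842406051823855) (b (l 143842406051823855) (c (c (l 143842612210188527) (l 143842474771235055)) (a (c (l 143842199893344495) (l 143842131173818607)) (l 143842337332396271))))) (c (l 143842887088373999) (l 143842680929927407))) (a (b (l 143841856295977199) (b (l 143841856295977199) (b (c (l 143841993734947055) (l 143841718857023727)) (c (c (c (l 143842062454423791) (l 143842062454423791)) (c (l 143841993734947055) (l 143841925015372015))) (b (l 143841718857023727) (c (c (l 143841856295895279) (l 143841787576418543)) (c (l 143841718856941807) (l 143841650137448687)))))))) (c (l 143842406051922159) (c (l 143842199893557487)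 (l 143842062454604015)))))) (c (c (l 143843505563959535) (l 143843230686036207)) (c (l 143843024527425775) (c (l 143842818369143023) (l 143842680930189551)))))) (c (c (l 143844673795653871) (l 143844398917566703)) (a (c (l 143843780442226927) (l 143843574283698415)) (c (l 143844605076340975) (l 143844330198417647))))) (a (c (l 143846116905124079) (c (l 143845773308051695) (l 143845498429964527))) (c (l 143847628734742767) (a (l 143846804100792559) (l 143847560015446255))))))) (c (a (a (l 143851202148368623) (l 143856081232003311)) (l 143863502936686831)) (a (c (l 143852988854780143) (a (l 143850102636658927) (l 143854981720309999))) (c (l 143862815741870319) (l 143862403424649455)))))))), by decide +kernel⟩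

def k26_pm_102_a : ∃ t, chk3 f_pm_102_a t 63 62 1 = true :=
  ⟨(a (a (b (a (l 599290759042803270757487) (l 600036699340259143069295)) (b (l 600873432126900434759279) (l 143564435745063023))) (b (a (l 16745096) (l 143578729403875439)) (b (a (l 143599139110469743) (l 16768896)) (a (l 143707234845818991) (l 143665865722904687))))) (a (a (b (b (l 16742992) (l 143595634435883119)) (b (l 16754744) (l 16749064))) (b (a (l 1549842900889566797749043311) (l 3)) (b (l 1104958199271496373733113967) (a (l 16747264) (l 16756776))))) (b (l 3) (a (a (b (l 3) (l 73719056039)) (l 3)) (l 3))))), by decide +kernel⟩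

def k27_pm_102_a : ∃ t, chk3 f_pm_102_a t 63 63 1 = true :=
  ⟨(a (b (a (b (l 143544094771396719) (l 600126050836855569854063)) (b (a (l 143838763956535407) (l 143757674945921135)) (l 143526708777893999))) (b (a (a (l 601126498574320468044911) (b (b (l 143919509330198639) (l 143745305461080175)) (l 143746542414954607))) (a (b (b (l 16769424) (l 143792584436727919)) (l 143802686207246447)) (b (l 143865908132020335) (l 143859036193865839)))) (b (a (a (b (l 601970437291477149019247) (l 601890597475908735757423)) (b (l 143923632508518511) (l 16755064))) (l 143791278783955055)) (a (a (a (b (l 143734241606648047) (b (l 143820415830491375) (b (l 143819110161055983) (a (b (l 143889066585637103) (a (c (c (l 143880064332923119) (l 143879239699169519)) (a (c (l 143873467262288111) (a (l 143870168726634735) (l 143875047810597103))) (c (l 143883225429541103) (l 143882400795115759)))) (c (l 143899030910894319) (c (l 143897793960935663) (a (l 143892090243563759) (l 143901779691323631)))))) (b (l 143927480779243759)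 (a (c (l 143918203648622831) (a (l 143911812736483567) (l 143921364745257199))) (c (l 143937238946693359) (l 143935658398695663)))))))) (b (l 143989190875922543) (b (l 143986373378736239) (a (c (l 143943836015198319) (a (l 143955380890517743) (l 143974072591810671))) (c (l 144003553251672175) (l 143979432709996655)))))) (b (l 143919028264403055) (a (a (c (l 143996337711890543) (l 143994757158633583)) (a (l 144067874691432559) (l 144085947916599407))) (l 144040661777547375)))) (a (a (l 144114466494906479) (l 144117627600420975)) (b (l 143954556268740719) (l 6))))))) (b (b (a (a (l 143553440661225583) (a (l 16751032) (l 16750272))) (a (a (b (l 16759128) (l 16761040)) (a (l 72645323639) (l 3))) (l 3))) (b (a (a (l 143790729017409647) (l 143777397437530223)) (a (a (l 16752016) (l 1037258353373266599566803055)) (l 3))) (a (a (l 143986167214489711) (a (l 143800006151815279) (l 143809833033187439))) (l 6)))) (a (b (a (b (l 143809352002732143) (l 143805366267576431)) (a (l 143815811629498479) (l 6)))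 (l 6)) (l 6)))), by decide +kernel⟩

theorem s28_pm_102_a : ∃ t, chk3 f_pm_102_a t 63 31 1 = true := ex3_b k26_pm_102_a k27_pm_102_a

theorem s29_pm_102_a : ∃ t, chk3 f_pm_102_a t 2015 4095 1 = true := ex3_c k24_pm_102_a k25_pm_102_a

theorem s30_pm_102_a : ∃ t, chk3 f_pm_102_a t 2015 2047 1 = true := ex3_b k23_pm_102_a s29_pm_102_a

theorem s31_pm_102_a : ∃ t, chk3 f_pm_102_a t 2015 1023 1 = true := ex3_b k22_pm_102_a s30_pm_102_a

theorem s32_pm_102_a : ∃ t, chk3 f_pm_102_a t 1007 1023 1 = true := ex3_a k21_pm_102_a s31_pm_102_a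

theorem s33_pm_102_a : ∃ t, chk3 f_pm_102_a t 503 1023 1 = true := ex3_a k20_pm_102_a s32_pm_102_a

theorem s34_pm_102_a : ∃ t, chk3 f_pm_102_a t 503 511 1 = true := ex3_b k19_pm_102_a s33_pm_102_a

theorem s35_pm_102_a : ∃ t, chk3 f_pm_102_a t 251 511 1 = true := ex3_a k18_pm_102_a s34_pm_102_a

theorem s36_pm_102_a : ∃ t, chk3 f_pm_102_a t 251 255 1 = true := ex3_b k17_pm_102_a s35_pm_102_a

theorem s37_pm_102_a : ∃ t, chk3 f_pm_102_a t 125 255 1 = true := ex3_a k16_pm_102_a s36_pm_102_a

theorem s38_pm_102_a : ∃ t, chk3 f_pm_102_a t 125 127 1 = true := ex3_b k15_pm_102_a s37_pm_102_a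

theorem s39_pm_102_a : ∃ t, chk3 f_pm_102_a t 125 63 1 = true := ex3_b k14_pm_102_a s38_pm_102_a

theorem s40_pm_102_a : ∃ t, chk3 f_pm_102_a t 62 63 1 = true := ex3_a k13_pm_102_a s39_pm_102_a

theorem s41_pm_102_a : ∃ t, chk3 f_pm_102_a t 62 31 1 = true := ex3_b k12_pm_102_a s40_pm_102_a

theorem s42_pm_102_a : ∃ t, chk3 f_pm_102_a t 31 31 1 = true := ex3_a s41_pm_102_a s28_pm_102_a

theorem s43_pm_102_a : ∃ t, chk3 f_pm_102_a t 31 15 1 = true := ex3_b k11_pm_102_a s42_pm_102_a

theorem s44_pm_102_a : ∃ t, chk3 f_pm_102_a t 15 15 1 = true := ex3_a k10_pm_102_a s43_pm_102_a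

theorem s45_pm_102_a : ∃ t, chk3 f_pm_102_a t 15 7 1 = true := ex3_b k9_pm_102_a s44_pm_102_a

theorem s46_pm_102_a : ∃ t, chk3 f_pm_102_a t 7 7 1 = true := ex3_a k8_pm_102_a s45_pm_102_a

theorem s47_pm_102_a : ∃ t, chk3 f_pm_102_a t 7 3 1 = true := ex3_b k7_pm_102_a s46_pm_102_a

theorem s48_pm_102_a : ∃ t, chk3 f_pm_102_a t 6 3 1 = true := ex3_b k5_pm_102_a k6_pm_102_a

theorem s49_pm_102_a : ∃ t, chk3 f_pm_102_a t 3 3 1 = true := ex3_a s48_pm_102_a s47_pm_102_a

theorem s50_pm_102_a : ∃ t, chk3 f_pm_102_a t 3 2 1 = true := ex3_a k3_pm_102_a k4_pm_102_a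

theorem s51_pm_102_a : ∃ t, chk3 f_pm_102_a t 3 1 1 = true := ex3_b s50_pm_102_a s49_pm_102_a

theorem s52_pm_102_a : ∃ t, chk3 f_pm_102_a t 2 3 1 = true := ex3_a k1_pm_102_a k2_pm_102_a

theorem s53_pm_102_a : ∃ t, chk3 f_pm_102_a t 2 1 1 = true := ex3_b k0_pm_102_a s52_pm_102_a

theorem s54_pm_102_a : ∃ t, chk3 f_pm_102_a t 1 1 1 = true := ex3_a s53_pm_102_a s51_pm_102_a

theorem c_pm_102_a : CertB 536870912 536870912 0 536870912 1045395039 1503240 3 eng mog cd0q1 cd2q2a pd0 false true false .npp 1 0 2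
    ndB0q1 ndB2q2a pcB0 cut_pm_102_a xt_pm_102_a :=
  certB0 (fam := false) (s1 := true) (s2 := false) (a := 1) (b := 0) (c := 2) (cn := .npp) (n1 := ndB0q1) (n2 := ndB2q2a) (pc := pcB0) (cut := cut_pm_102_a) (xt := xt_pm_102_a) (P1 := 536870912) (W1 := 536870912) (P2 := 0) (W2 := 536870912) (P3 := 1045395039) (W3 := 1503240) (N0 := 3) (En := eng) (mo := mog) (C1 := cd0q1) (C2 := cd2q2a) (C3 := pd0)
    rfl s54_pm_102_a

noncomputable def cut_pm_102_b : Cut := Cut.of [[⟨0, 1, 0, 11184810⟩, ⟨1, 0, 0, 11184810⟩, ⟨2, 1, 0, 11184810⟩], [⟨0, 0, 1, 46137344⟩, ⟨1, 1, 2, 46137344⟩, ⟨2, 1, 0, 1048576⟩, ⟨0, 0, 0, 1056440320⟩, ⟨0, 1, 0, 33457795⟩, ⟨1, 0, 0, 33457795⟩, ⟨1, 1, 0, 1056440320⟩]]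

noncomputable def f_pm_102_b : ℕ → ℕ → ℕ → ℕ → Bool := onCell 536870912 536870912 0 536870912 1045395039 1503240
    (rowB 3 eng mog cd0q1 cd2q2b pd0 1 false true false .npp 1 0 2 (qsf 536870912 536870912 1239849684 370763052 0) ndB0q1 ndB2q2b pcB0 cut_pm_102_b Ext.none)

def k0_pm_102_b : ∃ t, chk3 f_pm_102_b t 1 1 1 = true :=
  ⟨(a (b (l 1) (b (l 1) (a (l 1) (a (b (l 1) (a (b (l 1) (b (l 1) (l 242159629175))) (b (a (l 1) (l 245381308375)) (a (l 191693871063) (l 15603824))))) (b (a (b (l 1) (a (l 1) (l 249139840983))) (b (a (l 1) (l 254509044567)) (a (l 202968936935) (l 87541877527)))) (a (b (a (l 197062928183) (l 15793192)) (a (l 15681472) (l 15764440))) (b (a (l 15904120) (l 15999560)) (l 15899912)))))))) (a (b (l 1) (b (a (b (l 1) (a (b (l 1) (a (l 1) (l 260415171559))) (a (b (l 1) (a (l 240014099111) (a (l 218002517319) (l 200285833239)))) (b (l 309807721303) (l 16537584))))) (b (b (a (l 1) (b (l 1) (a (l 1) (l 158410385447)))) (a (a (l 1) (l 339872621351)) (a (l 282427410215) (b (l 16680528)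 (l 16649608))))) (a (b (a (l 271689797527) (l 211560255431)) (l 16538408)) (b (l 16561184) (l 16541840))))) (a (a (b (b (a (l 209948756343) (l 88616141159)) (a (l 16158712) (l 16266488))) (b (l 16070128) (l 16097280))) (b (a (b (a (l 16412568) (l 16423720)) (a (l 16350344) (l 16404528))) (l 16403352)) (a (b (l 16319688) (l 16258976)) (l 16330064)))) (b (a (b (l 16476936) (l 16417808)) (l 16368096)) (a (l 16333936) (l 16336024)))))) (a (b (b (l 1) (l 3)) (b (a (a (b (b (b (l 3) (l 16651184)) (l 130090175927)) (b (l 149954295543) (l 16544152))) (l 3)) (l 3)) (b (a (b (l 190756207991) (l 215989041943)) (l 3)) (a (b (l 16326080) (l 16310232)) (a (l 326584182103) (l 3)))))) (l 3)))), by decide +kernel⟩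

theorem c_pm_102_b : CertB 536870912 536870912 1239849684 370763052 1045395039 1503240 3 eng mog cd0q1 cd2q2b pd0 false true false .npp 1 0 2
    ndB0q1 ndB2q2b pcB0 cut_pm_102_b Ext.none :=
  certB1 (fam := false) (s1 := true) (s2 := false) (a := 1) (b := 0) (c := 2) (cn := .npp) (n1 := ndB0q1) (n2 := ndB2q2b) (pc := pcB0) (cut := cut_pm_102_b) (xt := Ext.none) (P1 := 536870912) (W1 := 536870912) (P2 := 1239849684) (W2 := 370763052) (P3 := 1045395039) (W3 := 1503240) (N0 := 3) (En := eng) (mo := mog) (C1 := cd0q1) (C2 := cd2q2b) (C3 := pd0)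
    rfl (fun _ => rfl) k0_pm_102_b

noncomputable def f_pm_112_a : ℕ → ℕ → ℕ → ℕ → Bool := onCell 536870912 536870912 0 536870912 1045395039 1503240
    (rowB 3 eng mog cd0q1 cd2q2a pd1 0 false true false .dn 1 1 2 (qsf 536870912 536870912 0 536870912 1) ndB0q1 ndB2q2a pcB1 Cut.none Ext.none)

def k0_pm_112_a : ∃ t, chk3 f_pm_112_a t 1 1 1 = true :=
  ⟨(a (b (a (a (b (b (a (l 16387336) (l 16413936)) (a (l 16388800) (b (l 16403200) (l 16396976)))) (a (l 16408776) (l 16402816))) (b (a (l 16440296) (l 16472232)) (b (a (l 16386976) (l 16434888)) (a (l 16402184) (l 16408168))))) (a (a (b (l 16511888) (b (l 16469968) (b (l 16436568) (l 16416496)))) (b (l 16556880) (l 1))) (l 1))) (a (b (a (b (l 16398912) (l 16380920)) (b (l 16384168) (l 16353544))) (a (b (l 5401070231) (a (l 16163896) (l 16136184))) (b (l 23654567639) (l 1)))) (b (l 1) (l 1)))) (l 1)), by decide +kernel⟩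

theorem c_pm_112_a : CertB 536870912 536870912 0 536870912 1045395039 1503240 3 eng mog cd0q1 cd2q2a pd1 false true false .dn 1 1 2
    ndB0q1 ndB2q2a pcB1 Cut.none Ext.none :=
  certB0 (fam := false) (s1 := true) (s2 := false) (a := 1) (b := 1) (c := 2) (cn := .dn) (n1 := ndB0q1) (n2 := ndB2q2a) (pc := pcB1) (cut := Cut.none) (xt := Ext.none) (P1 := 536870912) (W1 := 536870912) (P2 := 0) (W2 := 536870912) (P3 := 1045395039) (W3 := 1503240) (N0 := 3) (En := eng) (mo := mog) (C1 := cd0q1) (C2 := cd2q2a) (C3 := pd1)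
    rfl k0_pm_112_a

noncomputable def f_pm_112_b : ℕ → ℕ → ℕ → ℕ → Bool := onCell 536870912 536870912 536870912 536870912 1045395039 1503240
    (rowB 3 eng mog cd0q1 cd2q2b pd1 1 false true false .dn 1 1 2 (qsf 536870912 536870912 1239849684 370763052 1) ndB0q1 ndB2q2b pcB1 Cut.none Ext.none)

def k0_pm_112_b : ∃ t, chk3 f_pm_112_b t 1 1 1 = true :=
  ⟨(a (b (a (b (a (b (l 1) (a (l 264172978983) (l 183642206519))) (b (a (l 280816090119) (l 189547895495)) (a (l 16379088) (b (l 16587504) (l 16671856))))) (a (b (a (l 16354912) (l 16513832)) (l 16474816)) (b (a (l 16667808) (l 16711616)) (l 16558872)))) (b (a (b (a (l 99890755431) (b (l 16677008) (l 16717856))) (l 16551320)) (b (a (l 16643824) (l 16552824)) (l 16522608))) (a (b (l 16638704) (l 16443328)) (b (l 16552760) (l 16362304))))) (a (b (a (b (l 16515912) (l 16290576)) (b (l 16388808) (l 16173840))) (a (b (l 16045104) (a (l 15905224) (l 15834848))) (b (l 15944840) (l 15713376)))) (b (a (b (l 16259344) (l 16033496)) (b (l 16142552) (l 15905008)))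 (a (b (l 15798200) (l 2)) (l 2))))) (b (b (a (a (b (a (l 16458080) (b (l 16380696) (l 16371944))) (a (l 16464360) (l 16388504))) (b (a (l 16391664) (l 16440472)) (a (l 16384304) (l 16399352)))) (a (b (a (a (l 16381176) (l 16276328)) (b (l 239073988455) (l 263769930487))) (a (l 16250488) (a (l 323899372135) (l 311014359031)))) (l 3))) (a (a (b (a (l 16496008) (l 16452056)) (l 16225848)) (b (a (l 16383088) (l 16262464)) (a (l 16183176) (l 2)))) (a (b (a (l 16134208) (l 2)) (l 2)) (l 2)))) (b (a (a (b (l 16031288) (l 2)) (l 2)) (l 2)) (l 2)))), by decide +kernel⟩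

theorem c_pm_112_b : CertB 536870912 536870912 1239849684 370763052 1045395039 1503240 3 eng mog cd0q1 cd2q2b pd1 false true false .dn 1 1 2
    ndB0q1 ndB2q2b pcB1 Cut.none Ext.none :=
  certB1 (fam := false) (s1 := true) (s2 := false) (a := 1) (b := 1) (c := 2) (cn := .dn) (n1 := ndB0q1) (n2 := ndB2q2b) (pc := pcB1) (cut := Cut.none) (xt := Ext.none) (P1 := 536870912) (W1 := 536870912) (P2 := 1239849684) (W2 := 370763052) (P3 := 1045395039) (W3 := 1503240) (N0 := 3) (En := eng) (mo := mog) (C1 := cd0q1) (C2 := cd2q2b) (C3 := pd1)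
    rfl (fun _ => rfl) k0_pm_112_b

noncomputable def cut_pm_113 : Cut := Cut.of [[⟨0, 1, 0, 14155776⟩, ⟨1, 1, 0, 14155776⟩, ⟨2, 2, 0, 524288⟩]]

noncomputable def xt_pm_113 : Ext := extD3 3 ⟨4, 1, 1, 5, 33, 5, 163, 200, 81, 200, 1, 64⟩ eng cd0q1 cd2q3 pd1 false true false .nn 1 1 3 rfl ndB0q1 ndB2q3 pcB1

noncomputable def f_pm_113 : ℕ → ℕ → ℕ → ℕ → Bool := onCell 536870912 536870912 536870912 536870912 1045395039 1503240
    (rowB 3 eng mog cd0q1 cd2q3 pd1 1 false true false .nn 1 1 3 (qsf 536870912 536870912 1610612736 536870912 1) ndB0q1 ndB2q3 pcB1 cut_pm_113 xt_pm_113)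

def k0_pm_113 : ∃ t, chk3 f_pm_113 t 2 1 1 = true :=
  ⟨(b (a (l 1) (b (l 1) (a (l 1) (b (l 1) (a (l 1) (l 15229168)))))) (b (a (a (l 1) (b (l 1) (b (l 1) (l 15377904)))) (b (a (b (l 1) (l 15478968)) (b (l 15395504) (l 15522736))) (a (b (l 15554520) (l 15383104)) (a (l 15497192) (l 15522512))))) (a (b (a (a (l 1) (l 15121944)) (b (l 15195480) (l 15011696))) (a (a (b (l 14843304) (l 14630072)) (l 14652328)) (b (l 14830544) (l 14635752)))) (a (b (b (l 15209224) (l 15037168)) (b (l 14871344) (l 14717256))) (b (b (l 15255680) (l 15093064)) (b (l 14940784) (l 14784352))))))), by decide +kernel⟩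

def k1_pm_113 : ∃ t, chk3 f_pm_113 t 3 2 1 = true :=
  ⟨(a (b (a (l 1) (b (l 1) (a (l 1) (l 209409223975)))) (a (b (b (l 1) (l 125120759399)) (a (l 15232512) (l 15248120))) (b (a (b (l 14991432) (l 15090856)) (l 15110224)) (a (b (l 15216408) (l 15365504)) (l 15376448))))) (a (b (b (a (l 1) (a (l 1) (l 3))) (a (b (l 15059024) (l 15115152)) (a (b (l 15150064) (l 15209160)) (b (l 299201601047) (l 284169295735))))) (b (a (l 15198264) (b (a (l 15285192) (l 322824130295)) (a (l 15379864) (l 15443288)))) (a (l 15476312) (b (l 15459560) (l 15648920))))) (b (l 3) (a (a (b (b (l 3) (l 283095975191)) (b (l 322287739399) (l 358258318679))) (l 3)) (l 3))))), by decide +kernel⟩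

def k2_pm_113 : ∃ t, chk3 f_pm_113 t 3 6 1 = true :=
  ⟨(a (b (a (b (l 15457176) (l 15616928)) (a (l 15414592) (l 15677352))) (a (a (l 15550240) (l 15577136)) (a (l 15599152) (l 15630736)))) (a (b (a (l 15779384) (b (l 15788072) (l 15900744))) (a (l 15657768) (b (l 15745072) (l 15599544)))) (a (b (b (a (l 15857528) (l 326046415239)) (a (l 15889936) (l 364701390647))) (b (a (l 15741712) (l 385101818359)) (a (l 15606728) (l 15607344)))) (b (l 3) (a (a (b (l 3) (l 388323327959)) (l 3)) (l 3)))))), by decide +kernel⟩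

def k3_pm_113 : ∃ t, chk3 f_pm_113 t 6 7 1 = true :=
  ⟨(b (a (b (l 15312640) (l 15157232)) (a (l 15271432) (b (l 15380896) (l 15229944)))) (a (b (l 15017176) (l 14900184)) (a (l 15014768) (b (l 15100584) (l 15004736))))), by decide +kernel⟩

def k4_pm_113 : ∃ t, chk3 f_pm_113 t 7 14 1 = true :=
  ⟨(a (a (b (l 15430960) (l 15298168)) (b (l 15470888) (l 15366968))) (a (b (a (l 15494704) (l 15507768)) (a (l 15418928) (l 15455776))) (a (b (a (l 15514496) (a (l 254105368999) (l 417850994519))) (a (l 15483912) (b (l 419998381895) (l 15518928)))) (a (b (l 3) (b (l 3) (l 460263674311))) (l 3))))), by decide +kernel⟩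

def k5_pm_113 : ∃ t, chk3 f_pm_113 t 14 15 1 = true :=
  ⟨(b (a (l 15189032) (l 15301776)) (a (b (l 15127104) (l 15097640)) (b (l 15287528) (l 15294288)))), by decide +kernel⟩

def k6_pm_113 : ∃ t, chk3 f_pm_113 t 15 30 1 = true :=
  ⟨(a (a (l 15405512) (l 15494296)) (a (a (l 15577000) (b (l 15585104) (l 15726824))) (a (b (l 5186291766278363723855282255) (a (l 15806560) (l 134412099175383119))) (a (a (b (l 3) (b (l 3) (l 4964421885252182651030968863))) (l 3)) (l 3))))), by decide +kernel⟩

def k7_pm_113 : ∃ t, chk3 f_pm_113 t 30 31 1 = true :=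
  ⟨(b (b (l 15516224) (l 15563904)) (a (l 15537808) (l 15824976))), by decide +kernel⟩

def k8_pm_113 : ∃ t, chk3 f_pm_113 t 62 31 1 = true :=
  ⟨(a (b (l 134869427216597007) (l 16206040)) (b (b (l 15920128) (l 16123000)) (l 141903760681418831))), by decide +kernel⟩

def k9_pm_113 : ∃ t, chk3 f_pm_113 t 63 62 1 = true :=
  ⟨(a (b (l 136625622764830799) (l 140188659580993615)) (b (a (a (l 584043228808879929415711) (a (b (l 419462919303) (b (l 4500210242790518971185420319) (l 3542746648159252009348782111))) (l 3))) (l 3)) (a (a (b (l 16603576) (l 16763576)) (b (a (l 602085297434473308837919) (a (b (a (l 4190737029662009040248330271) (l 6743989295707446093431265311)) (l 604875367475621978233887)) (b (l 3) (a (b (l 6202394682208042945648630815) (l 4016655980041142870008454175)) (l 7479020072172851753101073439))))) (a (l 603107938809059746978847) (b (l 3001158443462262595208322079) (l 603710772642086715174111))))) (b (l 3) (a (a (b (a (a (b (l 3) (l 4016655869360678427754322975)) (l 3)) (l 3)) (a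 (a (l 603699819691186519780575) (b (l 6163707798575282502886452447) (l 603385937001635377671391))) (b (l 3) (l 6704702595726824229918556383)))) (l 3)) (l 3)))))), by decide +kernel⟩

def k10_pm_113 : ∃ t, chk3 f_pm_113 t 126 63 1 = true :=
  ⟨(b (l 142891328453722191) (l 143152118840131663)), by decide +kernel⟩

def k11_pm_113 : ∃ t, chk3 f_pm_113 t 127 126 1 = true :=
  ⟨(b (a (l 597886069084319168503327) (a (a (a (l 602759323952569136033375) (b (a (l 2981814886281594845033851999) (b (a (l 6463521109574141899571981535) (l 3)) (l 3948955839427097500658363487))) (l 603411157164771345636895))) (a (b (a (a (b (l 3) (l 6502207070437251937570696287)) (l 3)) (l 3)) (a (b (l 3736185176631951598512102943) (l 604329747373566849048095)) (b (l 3) (a (l 3736185493108904613095611935) (l 6260422508771765447516462623))))) (l 3))) (l 3))) (a (l 143463143298875471) (a (a (a (l 16764296) (l 602097691340647967776287)) (a (b (b (l 2836743995597943009140563487) (l 16778096)) (l 16760608)) (b (a (b (a (l 4858068577906691559325015583)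 (l 8030290071825975461157379615)) (l 3977970351795862103385251359)) (b (l 3) (a (l 6047651655600389576710774303) (l 8252732500745499166419230239)))) (a (l 16768832) (b (l 3881256315914420513032101407) (l 16778888)))))) (a (a (b (l 3) (a (b (a (l 6192722772689119527542824479) (l 3)) (a (l 180556396423) (b (l 6008966055889916049083129375) (l 253570840967)))) (b (l 3) (l 8097989840478653886288076319)))) (l 3)) (l 3))))), by decide +kernel⟩

def k12_pm_113 : ∃ t, chk3 f_pm_113 t 254 127 1 = true :=
  ⟨(l 143540727539351631), by decide +kernel⟩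

def k13_pm_113 : ∃ t, chk3 f_pm_113 t 510 127 1 = true :=
  ⟨(a (l 143695415103848527) (b (b (l 16763128) (l 16782264)) (l 16751480))), by decide +kernel⟩

def k14_pm_113 : ∃ t, chk3 f_pm_113 t 511 127 1 = true :=
  ⟨(a (b (a (b (a (l 16775088) (b (a (l 3939284848066103834266377759) (b (l 389936053719) (l 3900599362206628886567198239))) (l 16774480))) (l 16761920)) (b (a (b (l 8272075063098905981230128671) (a (l 3890927850733854933946703391) (b (l 3) (l 6037980235784875240343756319)))) (l 3)) (a (b (l 16777912) (l 16760368)) (b (a (b (l 6037980206673607249020984863) (l 256255199063)) (b (l 3) (l 6202394073177258137114189343))) (l 3300971907223188573140213279))))) (b (l 16774408) (l 16752736))) (b (b (l 3) (a (a (b (l 3) (a (b (l 7875547325378247711671803423) (l 4045670336909553018450107935)) (b (l 3) (l 403357826407)))) (l 3)) (l 3))) (a (b (a (b (a (l 16774760) (b (l 4732340126501970437054492255) (l 16779544))) (l 16770128)) (b (a (b (l 456508049047) (a (l 4248769770121312421506346591) (l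 6337189146564016818128846943))) (l 3)) (a (l 604217769855183321722463) (b (a (l 4741407064672710705563795551) (l 7081887451446629214381277279)) (l 604323262194501490388575))))) (a (l 16765776) (l 144067050071785551))) (b (b (l 3) (a (b (l 3) (a (a (b (l 383493605591) (l 258402682663)) (l 451676209479)) (l 3))) (l 3))) (a (b (a (b (l 4132712806122120253239570015) (l 16773488)) (b (a (a (b (l 452749952823) (l 260550166183)) (l 7091558858003546453937127519)) (l 3)) (a (l 16777936) (b (a (l 4760749877786538518886432863) (l 382419862391)) (l 190756947447))))) (l 144098729755263055)) (b (a (b (l 3) (b (l 3) (a (a (b (l 382419862487) (l 260013294935)) (l 416242728775)) (l 3)))) (l 3)) (a (b (a (a (l 16776872) (b (l 4567321746648190085631967327) (l 16777976))) (b (a (a (b (l 438254437175) (l 261623907335)) (l 7091558858003534909064888415)) (l 3)) (a (l 16777304) (b (a (l 4760749877786529310475829343) (l 382956732999)) (l 191293817687))))) (l 144108006887555151)) (b (a (b (l 3) (a (a (b (l 3) (b (l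 384030474919) (l 260550165239))) (l 7874942789113812827567603807)) (l 3))) (l 3)) (b (a (b (a (a (l 16777072) (b (l 4770421284343444351008505951) (l 16777000))) (a (a (b (l 437717565911) (l 262160777783)) (l 6724045408840684341419196511)) (l 3))) (a (l 16777552) (l 6))) (b (l 3) (l 6))) (l 6)))))))))), by decide +kernel⟩

theorem s15_pm_113 : ∃ t, chk3 f_pm_113 t 255 127 1 = true := ex3_a k13_pm_113 k14_pm_113

theorem s16_pm_113 : ∃ t, chk3 f_pm_113 t 127 127 1 = true := ex3_a k12_pm_113 s15_pm_113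

theorem s17_pm_113 : ∃ t, chk3 f_pm_113 t 127 63 1 = true := ex3_b k11_pm_113 s16_pm_113

theorem s18_pm_113 : ∃ t, chk3 f_pm_113 t 63 63 1 = true := ex3_a k10_pm_113 s17_pm_113

theorem s19_pm_113 : ∃ t, chk3 f_pm_113 t 63 31 1 = true := ex3_b k9_pm_113 s18_pm_113

theorem s20_pm_113 : ∃ t, chk3 f_pm_113 t 31 31 1 = true := ex3_a k8_pm_113 s19_pm_113

theorem s21_pm_113 : ∃ t, chk3 f_pm_113 t 15 31 1 = true := ex3_a k7_pm_113 s20_pm_113

theorem s22_pm_113 : ∃ t, chk3 f_pm_113 t 15 15 1 = true := ex3_b k6_pm_113 s21_pm_113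

theorem s23_pm_113 : ∃ t, chk3 f_pm_113 t 7 15 1 = true := ex3_a k5_pm_113 s22_pm_113

theorem s24_pm_113 : ∃ t, chk3 f_pm_113 t 7 7 1 = true := ex3_b k4_pm_113 s23_pm_113

theorem s25_pm_113 : ∃ t, chk3 f_pm_113 t 3 7 1 = true := ex3_a k3_pm_113 s24_pm_113

theorem s26_pm_113 : ∃ t, chk3 f_pm_113 t 3 3 1 = true := ex3_b k2_pm_113 s25_pm_113

theorem s27_pm_113 : ∃ t, chk3 f_pm_113 t 3 1 1 = true := ex3_b k1_pm_113 s26_pm_113

theorem s28_pm_113 : ∃ t, chk3 f_pm_113 t 1 1 1 = true := ex3_a k0_pm_113 s27_pm_113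

theorem c_pm_113 : CertB 536870912 536870912 1610612736 536870912 1045395039 1503240 3 eng mog cd0q1 cd2q3 pd1 false true false .nn 1 1 3
    ndB0q1 ndB2q3 pcB1 cut_pm_113 xt_pm_113 :=
  certB1 (fam := false) (s1 := true) (s2 := false) (a := 1) (b := 1) (c := 3) (cn := .nn) (n1 := ndB0q1) (n2 := ndB2q3) (pc := pcB1) (cut := cut_pm_113) (xt := xt_pm_113) (P1 := 536870912) (W1 := 536870912) (P2 := 1610612736) (W2 := 536870912) (P3 := 1045395039) (W3 := 1503240) (N0 := 3) (En := eng) (mo := mog) (C1 := cd0q1) (C2 := cd2q3) (C3 := pd1)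
    rfl (fun _ => rfl) s28_pm_113

noncomputable def cut_pm_123 : Cut := Cut.of [[⟨0, 1, 0, 14155776⟩, ⟨1, 1, 0, 14155776⟩, ⟨2, 2, 0, 524288⟩]]

noncomputable def xt_pm_123 : Ext := extD3 3 ⟨4, 1, 1, 5, 33, 5, 163, 200, 81, 200, 1, 64⟩ eng cd0q1 cd2q3 pd2 false true false .npn 1 2 3 rfl ndB0q1 ndB2q3 pcB2

noncomputable def f_pm_123 : ℕ → ℕ → ℕ → ℕ → Bool := onCell 1073741824 536870912 1610612736 536870912 1045395039 1503240
    (rowB 3 eng mog cd0q1 cd2q3 pd2 2 false true false .npn 1 2 3 (qsf 536870912 536870912 1610612736 536870912 2) ndB0q1 ndB2q3 pcB2 cut_pm_123 xt_pm_123)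

def k0_pm_123 : ∃ t, chk3 f_pm_123 t 2 2 1 = true :=
  ⟨(a (b (a (b (a (b (a (b (a (l 15272328) (l 15182632)) (a (l 15253176) (l 15165696))) (b (l 15052992) (l 15039280))) (a (b (l 15236408) (l 15183648)) (b (l 15029616) (l 15023752)))) (b (a (l 14876624) (l 1)) (a (l 14866136) (l 14705472)))) (a (b (a (b (l 15176024) (l 15171320)) (b (l 15021432) (l 15022392))) (a (b (l 15169248) (l 15169496)) (l 15029288))) (b (a (l 14871408) (l 14720168)) (a (l 14890440) (l 14749656))))) (b (a (b (l 1) (a (l 14542264) (l 1))) (l 1)) (a (b (l 14490608) (l 14534232)) (b (l 14170776) (l 14240976))))) (a (b (a (b (a (b (l 15171760) (l 15175712)) (l 15047440)) (a (b (l 15181032) (l 15187376)) (l 15073536))) (b (a (l 14921128) (l 14791928)) (l 14882400))) (a (b (a (b (l 15194424) (l 15201824)) (l 15105128)) (a (b (l 15209256) (l 15216408)) (l 15139824))) (b (a (l 15008536) (l 14906432)) (l 15123120)))) (b (a (b (l 14592128) (l 14662336)) (b (l 14316824) (l 14406712))) (a (b (l 14742840) (l 14831728)) (l 14438440)))))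 (b (a (b (l 1) (a (b (l 1) (l 13942624)) (l 1))) (l 1)) (a (b (a (l 14087240) (l 13714200)) (a (l 14326384) (l 14078416))) (b (a (b (l 1) (l 13631032)) (l 1)) (a (l 13829856) (l 13509240)))))), by decide +kernel⟩

def k1_pm_123 : ∃ t, chk3 f_pm_123 t 2 3 1 = true :=
  ⟨(a (b (a (b (a (b (a (b (l 15222976) (l 15228712)) (l 15175424)) (a (b (l 15233424) (l 15237016)) (l 15210352))) (b (l 15082536) (l 15149440))) (a (b (a (l 15240184) (l 15244368)) (a (l 15243704) (l 15280216))) (b (l 15218944) (l 15293536)))) (b (a (b (l 14927288) (l 15028312)) (l 14805504)) (a (b (l 15134592) (l 15247832)) (l 15075048)))) (a (b (a (b (a (l 15256544) (l 15327512)) (a (b (l 15289880) (a (l 15316968) (l 15371792))) (l 15413472))) (b (l 15381080) (l 15501664))) (a (b (a (b (l 15539976) (l 15900152)) (b (l 15573072) (l 15845904))) (a (b (a (b (l 16405704) (l 141230034956877839)) (l 16373768)) (a (b (b (a (l 16738096) (l 16777816)) (a (l 16768656) (l 16752312))) (a (b (l 143261863952334927) (a (b (l 16769440) (b (l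 16749280) (a (b (l 16773432) (b (l 16763296) (l 6))) (l 16768344)))) (l 16762328))) (b (l 16763960) (l 595610057205247949088335)))) (b (a (l 16719928) (l 16737600)) (b (a (l 16767968) (l 16781824)) (a (l 16755560) (l 16761408)))))) (b (l 16245416) (b (l 16602216) (a (b (l 16747400) (a (l 16772376) (l 16768336))) (l 16706584)))))) (b (b (l 15637808) (a (l 15820976) (l 15806896))) (b (a (l 16166032) (l 16086152)) (a (l 16550896) (l 16438744)))))) (b (a (b (l 15373520) (l 15524960)) (l 15152432)) (b (a (l 15732640) (l 15682376)) (a (b (l 15989776) (a (l 16300024) (l 16159264))) (b (l 15888128) (l 16017728))))))) (b (a (b (a (l 14608688) (l 14394256)) (a (l 14922960) (l 14744384))) (b (a (l 14168560) (l 13936952)) (a (l 14547656) (l 14339456)))) (b (a (a (l 15271448) (l 15124480)) (a (l 14953024) (l 14765192))) (a (b (l 15515112) (l 15600416)) (b (l 15188440) (l 15420200)))))), by decide +kernel⟩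

def k2_pm_123 : ∃ t, chk3 f_pm_123 t 3 1 1 = true :=
  ⟨(b (a (b (l 1) (a (b (l 1) (a (l 13483352) (l 1))) (l 1))) (l 1)) (a (b (a (b (a (l 13720352) (b (l 13494528) (l 13599128))) (l 14018792)) (b (a (l 13534160) (l 1)) (a (l 13729640) (b (l 13579304) (l 13645536))))) (b (a (l 14468360) (l 14062832)) (a (b (l 14804944) (l 15030408)) (l 14523488)))) (b (a (b (l 1) (a (l 13703152) (l 1))) (l 1)) (b (a (a (l 13818448) (b (l 13744544) (l 13757408))) (a (l 13927392) (l 1))) (a (l 14138736) (b (a (l 13818712) (l 13907272)) (l 13945128))))))), by decide +kernel⟩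

theorem s3_pm_123 : ∃ t, chk3 f_pm_123 t 2 1 1 = true := ex3_b k0_pm_123 k1_pm_123

theorem s4_pm_123 : ∃ t, chk3 f_pm_123 t 1 1 1 = true := ex3_a s3_pm_123 k2_pm_123

theorem c_pm_123 : CertB 536870912 536870912 1610612736 536870912 1045395039 1503240 3 eng mog cd0q1 cd2q3 pd2 false true false .npn 1 2 3
    ndB0q1 ndB2q3 pcB2 cut_pm_123 xt_pm_123 :=
  certB2 (fam := false) (s1 := true) (s2 := false) (a := 1) (b := 2) (c := 3) (cn := .npn) (n1 := ndB0q1) (n2 := ndB2q3) (pc := pcB2) (cut := cut_pm_123) (xt := xt_pm_123) (P1 := 536870912) (W1 := 536870912) (P2 := 1610612736) (W2 := 536870912) (P3 := 1045395039) (W3 := 1503240) (N0 := 3) (En := eng) (mo := mog) (C1 := cd0q1) (C2 := cd2q3) (C3 := pd2)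
    rfl (fun _ => rfl) s4_pm_123

noncomputable def f_pm_133 : ℕ → ℕ → ℕ → ℕ → Bool := onCell 536870912 536870912 1610612736 536870912 1045395039 1503240
    (rowB 3 eng mog cd0q1 cd2q3 pd3 0 false true false .dn 1 3 3 (qsf 536870912 536870912 1610612736 536870912 3) ndB0q1 ndB2q3 pcB3 Cut.none Ext.none)

def k0_pm_133 : ∃ t, chk3 f_pm_133 t 1 1 1 = true :=
  ⟨(a (b (l 1) (a (b (l 1) (b (l 1) (l 676489533847))) (l 1))) (l 1)), by decide +kernel⟩

theorem c_pm_133 : CertB 536870912 536870912 1610612736 536870912 1045395039 1503240 3 eng mog cd0q1 cd2q3 pd3 false true false .dn 1 3 3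
    ndB0q1 ndB2q3 pcB3 Cut.none Ext.none :=
  certB0 (fam := false) (s1 := true) (s2 := false) (a := 1) (b := 3) (c := 3) (cn := .dn) (n1 := ndB0q1) (n2 := ndB2q3) (pc := pcB3) (cut := Cut.none) (xt := Ext.none) (P1 := 536870912) (W1 := 536870912) (P2 := 1610612736) (W2 := 536870912) (P3 := 1045395039) (W3 := 1503240) (N0 := 3) (En := eng) (mo := mog) (C1 := cd0q1) (C2 := cd2q3) (C3 := pd3)
    rfl k0_pm_133

noncomputable def cut_pm_202_a : Cut := Cut.of [[⟨0, 1, 0, 26843545⟩, ⟨1, 0, 0, 26843545⟩, ⟨2, 1, 0, 26843545⟩], [⟨0, 0, 1, 46137344⟩, ⟨1, 1, 2, 46137344⟩, ⟨2, 1, 0, 1048576⟩, ⟨0, 0, 0, 1056440320⟩, ⟨0, 1, 0, 33457795⟩, ⟨1, 0, 0, 33457795⟩, ⟨1, 1, 0, 1056440320⟩]]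

noncomputable def f_pm_202_a : ℕ → ℕ → ℕ → ℕ → Bool := onCell 0 536870912 0 536870912 1045395039 1503240
    (rowB 3 eng mog cd0q2 cd2q2a pd0 0 false true false .pp 2 0 2 (qsf 0 536870912 0 536870912 0) ndB0q2 ndB2q2a pcB0 cut_pm_202_a Ext.none)

def k0_pm_202_a : ∃ t, chk3 f_pm_202_a t 1 1 1 = true :=
  ⟨(a (l 3) (b (l 3) (a (l 3) (b (l 3) (a (l 3) (b (l 3) (a (l 3) (b (l 3) (l 6))))))))), by decide +kernel⟩

theorem c_pm_202_a : CertB 0 536870912 0 536870912 1045395039 1503240 3 eng mog cd0q2 cd2q2a pd0 false true false .pp 2 0 2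
    ndB0q2 ndB2q2a pcB0 cut_pm_202_a Ext.none :=
  certB0 (fam := false) (s1 := true) (s2 := false) (a := 2) (b := 0) (c := 2) (cn := .pp) (n1 := ndB0q2) (n2 := ndB2q2a) (pc := pcB0) (cut := cut_pm_202_a) (xt := Ext.none) (P1 := 0) (W1 := 536870912) (P2 := 0) (W2 := 536870912) (P3 := 1045395039) (W3 := 1503240) (N0 := 3) (En := eng) (mo := mog) (C1 := cd0q2) (C2 := cd2q2a) (C3 := pd0)
    rfl k0_pm_202_a

noncomputable def cut_pm_202_b : Cut := Cut.of [[⟨0, 1, 0, 26843545⟩, ⟨1, 0, 0, 26843545⟩, ⟨2, 1, 0, 26843545⟩], [⟨0, 0, 1, 46137344⟩, ⟨1, 1, 2, 46137344⟩, ⟨2, 1, 0, 1048576⟩, ⟨0, 0, 0, 1056440320⟩, ⟨0, 1, 0, 33457795⟩, ⟨1, 0, 0, 33457795⟩, ⟨1, 1, 0, 1056440320⟩]]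

noncomputable def f_pm_202_b : ℕ → ℕ → ℕ → ℕ → Bool := onCell 0 536870912 1239849684 370763052 1045395039 1503240
    (rowB 3 eng mog cd0q2 cd2q2b pd0 0 false true false .pp 2 0 2 (qsf 0 536870912 1239849684 370763052 0) ndB0q2 ndB2q2b pcB0 cut_pm_202_b Ext.none)

def k0_pm_202_b : ∃ t, chk3 f_pm_202_b t 1 1 1 = true :=
  ⟨(l 3), by decide +kernel⟩

theorem c_pm_202_b : CertB 0 536870912 1239849684 370763052 1045395039 1503240 3 eng mog cd0q2 cd2q2b pd0 false true false .pp 2 0 2
    ndB0q2 ndB2q2b pcB0 cut_pm_202_b Ext.none :=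
  certB0 (fam := false) (s1 := true) (s2 := false) (a := 2) (b := 0) (c := 2) (cn := .pp) (n1 := ndB0q2) (n2 := ndB2q2b) (pc := pcB0) (cut := cut_pm_202_b) (xt := Ext.none) (P1 := 0) (W1 := 536870912) (P2 := 1239849684) (W2 := 370763052) (P3 := 1045395039) (W3 := 1503240) (N0 := 3) (En := eng) (mo := mog) (C1 := cd0q2) (C2 := cd2q2b) (C3 := pd0)
    rfl k0_pm_202_b

noncomputable def f_pm_203 : ℕ → ℕ → ℕ → ℕ → Bool := onCell 0 536870912 0 536870912 1045395039 1503240
    (rowB 3 eng mog cd0q2 cd2q3 pd0 1 false true false .up 2 0 3 (qsf 0 536870912 1610612736 536870912 0) ndB0q2 ndB2q3 pcB0 Cut.none Ext.none)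

def k0_pm_203 : ∃ t, chk3 f_pm_203 t 1 1 1 = true :=
  ⟨(l 3), by decide +kernel⟩

theorem c_pm_203 : CertB 0 536870912 1610612736 536870912 1045395039 1503240 3 eng mog cd0q2 cd2q3 pd0 false true false .up 2 0 3
    ndB0q2 ndB2q3 pcB0 Cut.none Ext.none :=
  certB1 (fam := false) (s1 := true) (s2 := false) (a := 2) (b := 0) (c := 3) (cn := .up) (n1 := ndB0q2) (n2 := ndB2q3) (pc := pcB0) (cut := Cut.none) (xt := Ext.none) (P1 := 0) (W1 := 536870912) (P2 := 1610612736) (W2 := 536870912) (P3 := 1045395039) (W3 := 1503240) (N0 := 3) (En := eng) (mo := mog) (C1 := cd0q2) (C2 := cd2q3) (C3 := pd0)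
    rfl (fun _ => rfl) k0_pm_203

noncomputable def cut_pm_213 : Cut := Cut.of [[⟨0, 1, 0, 14155776⟩, ⟨1, 1, 0, 14155776⟩, ⟨2, 2, 0, 524288⟩]]

noncomputable def f_pm_213 : ℕ → ℕ → ℕ → ℕ → Bool := onCell 0 536870912 1610612736 536870912 1045395039 1503240
    (rowB 3 eng mog cd0q2 cd2q3 pd1 0 false true false .pnn 2 1 3 (qsf 0 536870912 1610612736 536870912 1) ndB0q2 ndB2q3 pcB1 cut_pm_213 Ext.none)

def k0_pm_213 : ∃ t, chk3 f_pm_213 t 1 1 1 = true :=
  ⟨(a (l 3) (b (l 3) (a (l 3) (b (l 3) (b (l 3) (a (l 3) (b (l 3) (a (l 3) (b (l 3) (a (l 3) (a (l 3) (b (l 3) (a (l 3) (b (l 3) (b (l 3) (b (l 3) (b (l 3) (b (l 3) (l 6))))))))))))))))))), by decide +kernel⟩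

theorem c_pm_213 : CertB 0 536870912 1610612736 536870912 1045395039 1503240 3 eng mog cd0q2 cd2q3 pd1 false true false .pnn 2 1 3
    ndB0q2 ndB2q3 pcB1 cut_pm_213 Ext.none :=
  certB0 (fam := false) (s1 := true) (s2 := false) (a := 2) (b := 1) (c := 3) (cn := .pnn) (n1 := ndB0q2) (n2 := ndB2q3) (pc := pcB1) (cut := cut_pm_213) (xt := Ext.none) (P1 := 0) (W1 := 536870912) (P2 := 1610612736) (W2 := 536870912) (P3 := 1045395039) (W3 := 1503240) (N0 := 3) (En := eng) (mo := mog) (C1 := cd0q2) (C2 := cd2q3) (C3 := pd1)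
    rfl k0_pm_213

noncomputable def f_mm_001 : ℕ → ℕ → ℕ → ℕ → Bool := onCell 0 536870912 536870912 536870912 1045395039 1503240
    (rowB 3 eng mog cd0q0 cd2q1 pd0 0 false false false .up 0 0 1 (qsf 0 536870912 536870912 536870912 0) ndB0q0 ndB2q1 pcB0 Cut.none Ext.none)

def k0_mm_001 : ∃ t, chk3 f_mm_001 t 1 1 1 = true :=
  ⟨(l 3), by decide +kernel⟩

theorem c_mm_001 : CertB 0 536870912 536870912 536870912 1045395039 1503240 3 eng mog cd0q0 cd2q1 pd0 false false false .up 0 0 1
    ndB0q0 ndB2q1 pcB0 Cut.none Ext.none :=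
  certB0 (fam := false) (s1 := false) (s2 := false) (a := 0) (b := 0) (c := 1) (cn := .up) (n1 := ndB0q0) (n2 := ndB2q1) (pc := pcB0) (cut := Cut.none) (xt := Ext.none) (P1 := 0) (W1 := 536870912) (P2 := 536870912) (W2 := 536870912) (P3 := 1045395039) (W3 := 1503240) (N0 := 3) (En := eng) (mo := mog) (C1 := cd0q0) (C2 := cd2q1) (C3 := pd0)
    rfl k0_mm_001

noncomputable def f_mm_011 : ℕ → ℕ → ℕ → ℕ → Bool := onCell 0 536870912 536870912 536870912 1045395039 1503240
    (rowB 3 eng mog cd0q0 cd2q1 pd1 0 false false false .pnn 0 1 1 (qsf 0 536870912 536870912 536870912 1) ndB0q0 ndB2q1 pcB1 Cut.none Ext.none)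

def k0_mm_011 : ∃ t, chk3 f_mm_011 t 1 1 1 = true :=
  ⟨(l 3), by decide +kernel⟩

theorem c_mm_011 : CertB 0 536870912 536870912 536870912 1045395039 1503240 3 eng mog cd0q0 cd2q1 pd1 false false false .pnn 0 1 1
    ndB0q0 ndB2q1 pcB1 Cut.none Ext.none :=
  certB0 (fam := false) (s1 := false) (s2 := false) (a := 0) (b := 1) (c := 1) (cn := .pnn) (n1 := ndB0q0) (n2 := ndB2q1) (pc := pcB1) (cut := Cut.none) (xt := Ext.none) (P1 := 0) (W1 := 536870912) (P2 := 536870912) (W2 := 536870912) (P3 := 1045395039) (W3 := 1503240) (N0 := 3) (En := eng) (mo := mog) (C1 := cd0q0) (C2 := cd2q1) (C3 := pd1)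
    rfl k0_mm_011

noncomputable def f_mm_012_a : ℕ → ℕ → ℕ → ℕ → Bool := onCell 0 536870912 0 536870912 1045395039 1503240
    (rowB 3 eng mog cd0q0 cd2q2a pd1 0 false false false .pnp 0 1 2 (qsf 0 536870912 0 536870912 1) ndB0q0 ndB2q2a pcB1 Cut.none Ext.none)

def k0_mm_012_a : ∃ t, chk3 f_mm_012_a t 1 1 1 = true :=
  ⟨(l 5), by decide +kernel⟩

theorem c_mm_012_a : CertB 0 536870912 0 536870912 1045395039 1503240 3 eng mog cd0q0 cd2q2a pd1 false false false .pnp 0 1 2
    ndB0q0 ndB2q2a pcB1 Cut.none Ext.none :=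
  certB0 (fam := false) (s1 := false) (s2 := false) (a := 0) (b := 1) (c := 2) (cn := .pnp) (n1 := ndB0q0) (n2 := ndB2q2a) (pc := pcB1) (cut := Cut.none) (xt := Ext.none) (P1 := 0) (W1 := 536870912) (P2 := 0) (W2 := 536870912) (P3 := 1045395039) (W3 := 1503240) (N0 := 3) (En := eng) (mo := mog) (C1 := cd0q0) (C2 := cd2q2a) (C3 := pd1)
    rfl k0_mm_012_a

noncomputable def f_mm_012_b : ℕ → ℕ → ℕ → ℕ → Bool := onCell 0 536870912 1239849684 370763052 1045395039 1503240
    (rowB 3 eng mog cd0q0 cd2q2b pd1 0 false false false .pnp 0 1 2 (qsf 0 536870912 1239849684 370763052 1) ndB0q0 ndB2q2b pcB1 Cut.none Ext.none)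

def k0_mm_012_b : ∃ t, chk3 f_mm_012_b t 1 1 1 = true :=
  ⟨(l 5), by decide +kernel⟩

theorem c_mm_012_b : CertB 0 536870912 1239849684 370763052 1045395039 1503240 3 eng mog cd0q0 cd2q2b pd1 false false false .pnp 0 1 2
    ndB0q0 ndB2q2b pcB1 Cut.none Ext.none :=
  certB0 (fam := false) (s1 := false) (s2 := false) (a := 0) (b := 1) (c := 2) (cn := .pnp) (n1 := ndB0q0) (n2 := ndB2q2b) (pc := pcB1) (cut := Cut.none) (xt := Ext.none) (P1 := 0) (W1 := 536870912) (P2 := 1239849684) (W2 := 370763052) (P3 := 1045395039) (W3 := 1503240) (N0 := 3) (En := eng) (mo := mog) (C1 := cd0q0) (C2 := cd2q2b) (C3 := pd1)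
    rfl k0_mm_012_b

noncomputable def f_mm_022_a : ℕ → ℕ → ℕ → ℕ → Bool := onCell 0 536870912 0 536870912 1045395039 1503240
    (rowB 3 eng mog cd0q0 cd2q2a pd2 0 false false false .pp 0 2 2 (qsf 0 536870912 0 536870912 2) ndB0q0 ndB2q2a pcB2 Cut.none Ext.none)

def k0_mm_022_a : ∃ t, chk3 f_mm_022_a t 1 1 1 = true :=
  ⟨(l 5), by decide +kernel⟩

theorem c_mm_022_a : CertB 0 536870912 0 536870912 1045395039 1503240 3 eng mog cd0q0 cd2q2a pd2 false false false .pp 0 2 2
    ndB0q0 ndB2q2a pcB2 Cut.none Ext.none :=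
  certB0 (fam := false) (s1 := false) (s2 := false) (a := 0) (b := 2) (c := 2) (cn := .pp) (n1 := ndB0q0) (n2 := ndB2q2a) (pc := pcB2) (cut := Cut.none) (xt := Ext.none) (P1 := 0) (W1 := 536870912) (P2 := 0) (W2 := 536870912) (P3 := 1045395039) (W3 := 1503240) (N0 := 3) (En := eng) (mo := mog) (C1 := cd0q0) (C2 := cd2q2a) (C3 := pd2)
    rfl k0_mm_022_a

noncomputable def f_mm_022_b : ℕ → ℕ → ℕ → ℕ → Bool := onCell 0 536870912 1239849684 370763052 1045395039 1503240
    (rowB 3 eng mog cd0q0 cd2q2b pd2 0 false false false .pp 0 2 2 (qsf 0 536870912 1239849684 370763052 2) ndB0q0 ndB2q2b pcB2 Cut.none Ext.none)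

def k0_mm_022_b : ∃ t, chk3 f_mm_022_b t 1 1 1 = true :=
  ⟨(l 5), by decide +kernel⟩

theorem c_mm_022_b : CertB 0 536870912 1239849684 370763052 1045395039 1503240 3 eng mog cd0q0 cd2q2b pd2 false false false .pp 0 2 2
    ndB0q0 ndB2q2b pcB2 Cut.none Ext.none :=
  certB0 (fam := false) (s1 := false) (s2 := false) (a := 0) (b := 2) (c := 2) (cn := .pp) (n1 := ndB0q0) (n2 := ndB2q2b) (pc := pcB2) (cut := Cut.none) (xt := Ext.none) (P1 := 0) (W1 := 536870912) (P2 := 1239849684) (W2 := 370763052) (P3 := 1045395039) (W3 := 1503240) (N0 := 3) (En := eng) (mo := mog) (C1 := cd0q0) (C2 := cd2q2b) (C3 := pd2)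
    rfl k0_mm_022_b

noncomputable def f_mm_023 : ℕ → ℕ → ℕ → ℕ → Bool := onCell 0 536870912 1610612736 536870912 1045395039 1503240
    (rowB 3 eng mog cd0q0 cd2q3 pd2 0 false false false .up 0 2 3 (qsf 0 536870912 1610612736 536870912 2) ndB0q0 ndB2q3 pcB2 Cut.none Ext.none)

def k0_mm_023 : ∃ t, chk3 f_mm_023 t 1 1 1 = true :=
  ⟨(l 5), by decide +kernel⟩

theorem c_mm_023 : CertB 0 536870912 1610612736 536870912 1045395039 1503240 3 eng mog cd0q0 cd2q3 pd2 false false false .up 0 2 3
    ndB0q0 ndB2q3 pcB2 Cut.none Ext.none :=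
  certB0 (fam := false) (s1 := false) (s2 := false) (a := 0) (b := 2) (c := 3) (cn := .up) (n1 := ndB0q0) (n2 := ndB2q3) (pc := pcB2) (cut := Cut.none) (xt := Ext.none) (P1 := 0) (W1 := 536870912) (P2 := 1610612736) (W2 := 536870912) (P3 := 1045395039) (W3 := 1503240) (N0 := 3) (En := eng) (mo := mog) (C1 := cd0q0) (C2 := cd2q3) (C3 := pd2)
    rfl k0_mm_023

noncomputable def f_mm_033 : ℕ → ℕ → ℕ → ℕ → Bool := onCell 0 536870912 1610612736 536870912 1045395039 1503240
    (rowB 3 eng mog cd0q0 cd2q3 pd3 0 false false false .pnn 0 3 3 (qsf 0 536870912 1610612736 536870912 3) ndB0q0 ndB2q3 pcB3 Cut.none Ext.none)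

def k0_mm_033 : ∃ t, chk3 f_mm_033 t 1 1 1 = true :=
  ⟨(l 5), by decide +kernel⟩

theorem c_mm_033 : CertB 0 536870912 1610612736 536870912 1045395039 1503240 3 eng mog cd0q0 cd2q3 pd3 false false false .pnn 0 3 3
    ndB0q0 ndB2q3 pcB3 Cut.none Ext.none :=
  certB0 (fam := false) (s1 := false) (s2 := false) (a := 0) (b := 3) (c := 3) (cn := .pnn) (n1 := ndB0q0) (n2 := ndB2q3) (pc := pcB3) (cut := Cut.none) (xt := Ext.none) (P1 := 0) (W1 := 536870912) (P2 := 1610612736) (W2 := 536870912) (P3 := 1045395039) (W3 := 1503240) (N0 := 3) (En := eng) (mo := mog) (C1 := cd0q0) (C2 := cd2q3) (C3 := pd3)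
    rfl k0_mm_033

noncomputable def f_mm_101 : ℕ → ℕ → ℕ → ℕ → Bool := onCell 536870912 536870912 536870912 536870912 1045395039 1503240
    (rowB 3 eng mog cd0q1 cd2q1 pd0 0 false false false .npn 1 0 1 (qsf 536870912 536870912 536870912 536870912 0) ndB0q1 ndB2q1 pcB0 Cut.none Ext.none)

def k0_mm_101 : ∃ t, chk3 f_mm_101 t 1 1 1 = true :=
  ⟨(l 3), by decide +kernel⟩

theorem c_mm_101 : CertB 536870912 536870912 536870912 536870912 1045395039 1503240 3 eng mog cd0q1 cd2q1 pd0 false false false .npn 1 0 1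
    ndB0q1 ndB2q1 pcB0 Cut.none Ext.none :=
  certB0 (fam := false) (s1 := false) (s2 := false) (a := 1) (b := 0) (c := 1) (cn := .npn) (n1 := ndB0q1) (n2 := ndB2q1) (pc := pcB0) (cut := Cut.none) (xt := Ext.none) (P1 := 536870912) (W1 := 536870912) (P2 := 536870912) (W2 := 536870912) (P3 := 1045395039) (W3 := 1503240) (N0 := 3) (En := eng) (mo := mog) (C1 := cd0q1) (C2 := cd2q1) (C3 := pd0)
    rfl k0_mm_101

noncomputable def f_mm_102_a : ℕ → ℕ → ℕ → ℕ → Bool := onCell 536870912 536870912 0 536870912 1045395039 1503240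
    (rowB 3 eng mog cd0q1 cd2q2a pd0 0 false false false .npp 1 0 2 (qsf 536870912 536870912 0 536870912 0) ndB0q1 ndB2q2a pcB0 Cut.none Ext.none)

def k0_mm_102_a : ∃ t, chk3 f_mm_102_a t 1 1 1 = true :=
  ⟨(l 3), by decide +kernel⟩

theorem c_mm_102_a : CertB 536870912 536870912 0 536870912 1045395039 1503240 3 eng mog cd0q1 cd2q2a pd0 false false false .npp 1 0 2
    ndB0q1 ndB2q2a pcB0 Cut.none Ext.none :=
  certB0 (fam := false) (s1 := false) (s2 := false) (a := 1) (b := 0) (c := 2) (cn := .npp) (n1 := ndB0q1) (n2 := ndB2q2a) (pc := pcB0) (cut := Cut.none) (xt := Ext.none) (P1 := 536870912) (W1 := 536870912) (P2 := 0) (W2 := 536870912) (P3 := 1045395039) (W3 := 1503240) (N0 := 3) (En := eng) (mo := mog) (C1 := cd0q1) (C2 := cd2q2a) (C3 := pd0)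
    rfl k0_mm_102_a

noncomputable def f_mm_102_b : ℕ → ℕ → ℕ → ℕ → Bool := onCell 536870912 536870912 1239849684 370763052 1045395039 1503240
    (rowB 3 eng mog cd0q1 cd2q2b pd0 0 false false false .npp 1 0 2 (qsf 536870912 536870912 1239849684 370763052 0) ndB0q1 ndB2q2b pcB0 Cut.none Ext.none)

def k0_mm_102_b : ∃ t, chk3 f_mm_102_b t 1 1 1 = true :=
  ⟨(l 5), by decide +kernel⟩

theorem c_mm_102_b : CertB 536870912 536870912 1239849684 370763052 1045395039 1503240 3 eng mog cd0q1 cd2q2b pd0 false false false .npp 1 0 2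
    ndB0q1 ndB2q2b pcB0 Cut.none Ext.none :=
  certB0 (fam := false) (s1 := false) (s2 := false) (a := 1) (b := 0) (c := 2) (cn := .npp) (n1 := ndB0q1) (n2 := ndB2q2b) (pc := pcB0) (cut := Cut.none) (xt := Ext.none) (P1 := 536870912) (W1 := 536870912) (P2 := 1239849684) (W2 := 370763052) (P3 := 1045395039) (W3 := 1503240) (N0 := 3) (En := eng) (mo := mog) (C1 := cd0q1) (C2 := cd2q2b) (C3 := pd0)
    rfl k0_mm_102_b

noncomputable def f_mm_112_a : ℕ → ℕ → ℕ → ℕ → Bool := onCell 536870912 536870912 0 536870912 1045395039 1503240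
    (rowB 3 eng mog cd0q1 cd2q2a pd1 0 false false false .dn 1 1 2 (qsf 536870912 536870912 0 536870912 1) ndB0q1 ndB2q2a pcB1 Cut.none Ext.none)

def k0_mm_112_a : ∃ t, chk3 f_mm_112_a t 1 1 1 = true :=
  ⟨(l 3), by decide +kernel⟩

theorem c_mm_112_a : CertB 536870912 536870912 0 536870912 1045395039 1503240 3 eng mog cd0q1 cd2q2a pd1 false false false .dn 1 1 2
    ndB0q1 ndB2q2a pcB1 Cut.none Ext.none :=
  certB0 (fam := false) (s1 := false) (s2 := false) (a := 1) (b := 1) (c := 2) (cn := .dn) (n1 := ndB0q1) (n2 := ndB2q2a) (pc := pcB1) (cut := Cut.none) (xt := Ext.none) (P1 := 536870912) (W1 := 536870912) (P2 := 0) (W2 := 536870912) (P3 := 1045395039) (W3 := 1503240) (N0 := 3) (En := eng) (mo := mog) (C1 := cd0q1) (C2 := cd2q2a) (C3 := pd1)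
    rfl k0_mm_112_a

noncomputable def f_mm_112_b : ℕ → ℕ → ℕ → ℕ → Bool := onCell 536870912 536870912 1239849684 370763052 1045395039 1503240
    (rowB 3 eng mog cd0q1 cd2q2b pd1 0 false false false .dn 1 1 2 (qsf 536870912 536870912 1239849684 370763052 1) ndB0q1 ndB2q2b pcB1 Cut.none Ext.none)

def k0_mm_112_b : ∃ t, chk3 f_mm_112_b t 1 1 1 = true :=
  ⟨(l 5), by decide +kernel⟩

theorem c_mm_112_b : CertB 536870912 536870912 1239849684 370763052 1045395039 1503240 3 eng mog cd0q1 cd2q2b pd1 false false false .dn 1 1 2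
    ndB0q1 ndB2q2b pcB1 Cut.none Ext.none :=
  certB0 (fam := false) (s1 := false) (s2 := false) (a := 1) (b := 1) (c := 2) (cn := .dn) (n1 := ndB0q1) (n2 := ndB2q2b) (pc := pcB1) (cut := Cut.none) (xt := Ext.none) (P1 := 536870912) (W1 := 536870912) (P2 := 1239849684) (W2 := 370763052) (P3 := 1045395039) (W3 := 1503240) (N0 := 3) (En := eng) (mo := mog) (C1 := cd0q1) (C2 := cd2q2b) (C3 := pd1)
    rfl k0_mm_112_b

noncomputable def f_mm_113 : ℕ → ℕ → ℕ → ℕ → Bool := onCell 536870912 536870912 1610612736 536870912 1045395039 1503240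
    (rowB 3 eng mog cd0q1 cd2q3 pd1 0 false false false .nn 1 1 3 (qsf 536870912 536870912 1610612736 536870912 1) ndB0q1 ndB2q3 pcB1 Cut.none Ext.none)

def k0_mm_113 : ∃ t, chk3 f_mm_113 t 1 1 1 = true :=
  ⟨(l 5), by decide +kernel⟩

theorem c_mm_113 : CertB 536870912 536870912 1610612736 536870912 1045395039 1503240 3 eng mog cd0q1 cd2q3 pd1 false false false .nn 1 1 3
    ndB0q1 ndB2q3 pcB1 Cut.none Ext.none :=
  certB0 (fam := false) (s1 := false) (s2 := false) (a := 1) (b := 1) (c := 3) (cn := .nn) (n1 := ndB0q1) (n2 := ndB2q3) (pc := pcB1) (cut := Cut.none) (xt := Ext.none) (P1 := 536870912) (W1 := 536870912) (P2 := 1610612736) (W2 := 536870912) (P3 := 1045395039) (W3 := 1503240) (N0 := 3) (En := eng) (mo := mog) (C1 := cd0q1) (C2 := cd2q3) (C3 := pd1)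
    rfl k0_mm_113

noncomputable def f_mm_123 : ℕ → ℕ → ℕ → ℕ → Bool := onCell 536870912 536870912 1610612736 536870912 1045395039 1503240
    (rowB 3 eng mog cd0q1 cd2q3 pd2 0 false false false .npn 1 2 3 (qsf 536870912 536870912 1610612736 536870912 2) ndB0q1 ndB2q3 pcB2 Cut.none Ext.none)

def k0_mm_123 : ∃ t, chk3 f_mm_123 t 1 1 1 = true :=
  ⟨(l 5), by decide +kernel⟩

theorem c_mm_123 : CertB 536870912 536870912 1610612736 536870912 1045395039 1503240 3 eng mog cd0q1 cd2q3 pd2 false false false .npn 1 2 3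
    ndB0q1 ndB2q3 pcB2 Cut.none Ext.none :=
  certB0 (fam := false) (s1 := false) (s2 := false) (a := 1) (b := 2) (c := 3) (cn := .npn) (n1 := ndB0q1) (n2 := ndB2q3) (pc := pcB2) (cut := Cut.none) (xt := Ext.none) (P1 := 536870912) (W1 := 536870912) (P2 := 1610612736) (W2 := 536870912) (P3 := 1045395039) (W3 := 1503240) (N0 := 3) (En := eng) (mo := mog) (C1 := cd0q1) (C2 := cd2q3) (C3 := pd2)
    rfl k0_mm_123

noncomputable def f_mm_133 : ℕ → ℕ → ℕ → ℕ → Bool := onCell 536870912 536870912 1610612736 536870912 1045395039 1503240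
    (rowB 3 eng mog cd0q1 cd2q3 pd3 0 false false false .dn 1 3 3 (qsf 536870912 536870912 1610612736 536870912 3) ndB0q1 ndB2q3 pcB3 Cut.none Ext.none)

def k0_mm_133 : ∃ t, chk3 f_mm_133 t 1 1 1 = true :=
  ⟨(l 5), by decide +kernel⟩

theorem c_mm_133 : CertB 536870912 536870912 1610612736 536870912 1045395039 1503240 3 eng mog cd0q1 cd2q3 pd3 false false false .dn 1 3 3
    ndB0q1 ndB2q3 pcB3 Cut.none Ext.none :=
  certB0 (fam := false) (s1 := false) (s2 := false) (a := 1) (b := 3) (c := 3) (cn := .dn) (n1 := ndB0q1) (n2 := ndB2q3) (pc := pcB3) (cut := Cut.none) (xt := Ext.none) (P1 := 536870912) (W1 := 536870912) (P2 := 1610612736) (W2 := 536870912) (P3 := 1045395039) (W3 := 1503240) (N0 := 3) (En := eng) (mo := mog) (C1 := cd0q1) (C2 := cd2q3) (C3 := pd3)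
    rfl k0_mm_133

noncomputable def f_mm_202_a : ℕ → ℕ → ℕ → ℕ → Bool := onCell 0 536870912 0 536870912 1045395039 1503240
    (rowB 3 eng mog cd0q2 cd2q2a pd0 0 false false false .pp 2 0 2 (qsf 0 536870912 0 536870912 0) ndB0q2 ndB2q2a pcB0 Cut.none Ext.none)

def k0_mm_202_a : ∃ t, chk3 f_mm_202_a t 1 1 1 = true :=
  ⟨(l 3), by decide +kernel⟩

theorem c_mm_202_a : CertB 0 536870912 0 536870912 1045395039 1503240 3 eng mog cd0q2 cd2q2a pd0 false false false .pp 2 0 2
    ndB0q2 ndB2q2a pcB0 Cut.none Ext.none :=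
  certB0 (fam := false) (s1 := false) (s2 := false) (a := 2) (b := 0) (c := 2) (cn := .pp) (n1 := ndB0q2) (n2 := ndB2q2a) (pc := pcB0) (cut := Cut.none) (xt := Ext.none) (P1 := 0) (W1 := 536870912) (P2 := 0) (W2 := 536870912) (P3 := 1045395039) (W3 := 1503240) (N0 := 3) (En := eng) (mo := mog) (C1 := cd0q2) (C2 := cd2q2a) (C3 := pd0)
    rfl k0_mm_202_a

noncomputable def f_mm_202_b : ℕ → ℕ → ℕ → ℕ → Bool := onCell 0 536870912 1239849684 370763052 1045395039 1503240
    (rowB 3 eng mog cd0q2 cd2q2b pd0 0 false false false .pp 2 0 2 (qsf 0 536870912 1239849684 370763052 0) ndB0q2 ndB2q2b pcB0 Cut.none Ext.none)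

def k0_mm_202_b : ∃ t, chk3 f_mm_202_b t 1 1 1 = true :=
  ⟨(l 3), by decide +kernel⟩

theorem c_mm_202_b : CertB 0 536870912 1239849684 370763052 1045395039 1503240 3 eng mog cd0q2 cd2q2b pd0 false false false .pp 2 0 2
    ndB0q2 ndB2q2b pcB0 Cut.none Ext.none :=
  certB0 (fam := false) (s1 := false) (s2 := false) (a := 2) (b := 0) (c := 2) (cn := .pp) (n1 := ndB0q2) (n2 := ndB2q2b) (pc := pcB0) (cut := Cut.none) (xt := Ext.none) (P1 := 0) (W1 := 536870912) (P2 := 1239849684) (W2 := 370763052) (P3 := 1045395039) (W3 := 1503240) (N0 := 3) (En := eng) (mo := mog) (C1 := cd0q2) (C2 := cd2q2b) (C3 := pd0)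
    rfl k0_mm_202_b

noncomputable def f_mm_203 : ℕ → ℕ → ℕ → ℕ → Bool := onCell 0 536870912 0 536870912 1045395039 1503240
    (rowB 3 eng mog cd0q2 cd2q3 pd0 1 false false false .up 2 0 3 (qsf 0 536870912 1610612736 536870912 0) ndB0q2 ndB2q3 pcB0 Cut.none Ext.none)

def k0_mm_203 : ∃ t, chk3 f_mm_203 t 1 1 1 = true :=
  ⟨(l 3), by decide +kernel⟩

theorem c_mm_203 : CertB 0 536870912 1610612736 536870912 1045395039 1503240 3 eng mog cd0q2 cd2q3 pd0 false false false .up 2 0 3
    ndB0q2 ndB2q3 pcB0 Cut.none Ext.none :=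
  certB1 (fam := false) (s1 := false) (s2 := false) (a := 2) (b := 0) (c := 3) (cn := .up) (n1 := ndB0q2) (n2 := ndB2q3) (pc := pcB0) (cut := Cut.none) (xt := Ext.none) (P1 := 0) (W1 := 536870912) (P2 := 1610612736) (W2 := 536870912) (P3 := 1045395039) (W3 := 1503240) (N0 := 3) (En := eng) (mo := mog) (C1 := cd0q2) (C2 := cd2q3) (C3 := pd0)
    rfl (fun _ => rfl) k0_mm_203

noncomputable def f_mm_213 : ℕ → ℕ → ℕ → ℕ → Bool := onCell 0 536870912 1610612736 536870912 1045395039 1503240
    (rowB 3 eng mog cd0q2 cd2q3 pd1 0 false false false .pnn 2 1 3 (qsf 0 536870912 1610612736 536870912 1) ndB0q2 ndB2q3 pcB1 Cut.none Ext.none)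

def k0_mm_213 : ∃ t, chk3 f_mm_213 t 1 1 1 = true :=
  ⟨(a (l 3) (b (l 3) (l 5))), by decide +kernel⟩

theorem c_mm_213 : CertB 0 536870912 1610612736 536870912 1045395039 1503240 3 eng mog cd0q2 cd2q3 pd1 false false false .pnn 2 1 3
    ndB0q2 ndB2q3 pcB1 Cut.none Ext.none :=
  certB0 (fam := false) (s1 := false) (s2 := false) (a := 2) (b := 1) (c := 3) (cn := .pnn) (n1 := ndB0q2) (n2 := ndB2q3) (pc := pcB1) (cut := Cut.none) (xt := Ext.none) (P1 := 0) (W1 := 536870912) (P2 := 1610612736) (W2 := 536870912) (P3 := 1045395039) (W3 := 1503240) (N0 := 3) (En := eng) (mo := mog) (C1 := cd0q2) (C2 := cd2q3) (C3 := pd1)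
    rfl k0_mm_213

end Pool.Agent.Strip051.G.I9736_9750.Tab.C.BB02

namespace Pool.Agent.Strip051.G.I9736_9750.Tab.C.BB03

open Pool.Agent.Strip051.PB Pool.Agent.Strip051.PB.T
open Pool.Agent.Strip051.G.I9736_9750.Tab

noncomputable def f_pp_001 : ℕ → ℕ → ℕ → ℕ → Bool := onCell 0 536870912 0 536870912 1045395039 1503240
    (rowB 3 eng mog cd0q0 cd3q1 pd0 1 false true true .up 0 0 1 (qsf 0 536870912 536870912 536870912 0) ndB0q0 ndB3q1 pcB0 Cut.none Ext.none)

def k0_pp_001 : ∃ t, chk3 f_pp_001 t 1 1 1 = true :=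
  ⟨(l 3), by decide +kernel⟩

theorem c_pp_001 : CertB 0 536870912 536870912 536870912 1045395039 1503240 3 eng mog cd0q0 cd3q1 pd0 false true true .up 0 0 1
    ndB0q0 ndB3q1 pcB0 Cut.none Ext.none :=
  certB1 (fam := false) (s1 := true) (s2 := true) (a := 0) (b := 0) (c := 1) (cn := .up) (n1 := ndB0q0) (n2 := ndB3q1) (pc := pcB0) (cut := Cut.none) (xt := Ext.none) (P1 := 0) (W1 := 536870912) (P2 := 536870912) (W2 := 536870912) (P3 := 1045395039) (W3 := 1503240) (N0 := 3) (En := eng) (mo := mog) (C1 := cd0q0) (C2 := cd3q1) (C3 := pd0)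
    rfl (fun _ => rfl) k0_pp_001

noncomputable def cut_pp_011 : Cut := Cut.of [[⟨0, 0, 0, 26843545⟩, ⟨1, 1, 0, 26843545⟩, ⟨2, 1, 0, 26843545⟩]]

noncomputable def f_pp_011 : ℕ → ℕ → ℕ → ℕ → Bool := onCell 0 536870912 536870912 536870912 1045395039 1503240
    (rowB 3 eng mog cd0q0 cd3q1 pd1 1 false true true .pnn 0 1 1 (qsf 0 536870912 536870912 536870912 1) ndB0q0 ndB3q1 pcB1 cut_pp_011 Ext.none)

def k0_pp_011 : ∃ t, chk3 f_pp_011 t 1 1 1 = true :=
  ⟨(b (l 3) (b (l 3) (b (l 3) (a (a (a (b (l 3) (a (b (l 3) (a (l 6) (l 3))) (l 3))) (l 3)) (l 2)) (l 2))))), by decide +kernel⟩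

theorem c_pp_011 : CertB 0 536870912 536870912 536870912 1045395039 1503240 3 eng mog cd0q0 cd3q1 pd1 false true true .pnn 0 1 1
    ndB0q0 ndB3q1 pcB1 cut_pp_011 Ext.none :=
  certB1 (fam := false) (s1 := true) (s2 := true) (a := 0) (b := 1) (c := 1) (cn := .pnn) (n1 := ndB0q0) (n2 := ndB3q1) (pc := pcB1) (cut := cut_pp_011) (xt := Ext.none) (P1 := 0) (W1 := 536870912) (P2 := 536870912) (W2 := 536870912) (P3 := 1045395039) (W3 := 1503240) (N0 := 3) (En := eng) (mo := mog) (C1 := cd0q0) (C2 := cd3q1) (C3 := pd1)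
    rfl (fun _ => rfl) k0_pp_011

noncomputable def f_pp_012 : ℕ → ℕ → ℕ → ℕ → Bool := onCell 536870912 536870912 1073741824 536870912 1045395039 1503240
    (rowB 3 eng mog cd0q0 cd3q2 pd1 2 false true true .pnp 0 1 2 (qsf 0 536870912 1073741824 536870912 1) ndB0q0 ndB3q2 pcB1 Cut.none Ext.none)

def k0_pp_012 : ∃ t, chk3 f_pp_012 t 1 1 1 = true :=
  ⟨(a (l 3) (b (l 3) (a (l 3) (l 3)))), by decide +kernel⟩

theorem c_pp_012 : CertB 0 536870912 1073741824 536870912 1045395039 1503240 3 eng mog cd0q0 cd3q2 pd1 false true true .pnp 0 1 2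
    ndB0q0 ndB3q2 pcB1 Cut.none Ext.none :=
  certB2 (fam := false) (s1 := true) (s2 := true) (a := 0) (b := 1) (c := 2) (cn := .pnp) (n1 := ndB0q0) (n2 := ndB3q2) (pc := pcB1) (cut := Cut.none) (xt := Ext.none) (P1 := 0) (W1 := 536870912) (P2 := 1073741824) (W2 := 536870912) (P3 := 1045395039) (W3 := 1503240) (N0 := 3) (En := eng) (mo := mog) (C1 := cd0q0) (C2 := cd3q2) (C3 := pd1)
    rfl (fun _ => rfl) k0_pp_012

noncomputable def f_pp_022 : ℕ → ℕ → ℕ → ℕ → Bool := onCell 0 536870912 1073741824 536870912 1045395039 1503240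
    (rowB 3 eng mog cd0q0 cd3q2 pd2 1 false true true .pp 0 2 2 (qsf 0 536870912 1073741824 536870912 2) ndB0q0 ndB3q2 pcB2 Cut.none Ext.none)

def k0_pp_022 : ∃ t, chk3 f_pp_022 t 2 8 1 = true :=
  ⟨(a (b (b (l 3) (b (b (a (l 3) (l 3)) (a (a (a (a (b (l 3) (l 16565328)) (l 254644175863)) (a (l 242833071767) (l 16640448))) (a (l 16655480) (l 16603928))) (a (a (l 16558264) (l 16495336)) (a (l 16434504) (l 16374368))))) (a (a (a (b (a (l 16558952) (l 16587120)) (a (b (l 16551528) (l 16542952)) (l 16575104))) (b (a (l 16619256) (l 16652360)) (a (l 16606896) (l 16639632)))) (b (a (l 16670616) (l 16598728)) (a (l 16658776) (l 16599168)))) (a (b (a (l 16553584) (l 16491288)) (a (l 16555680) (l 16494888))) (b (a (l 16431208) (l 16371976)) (l 16386104)))))) (a (a (a (b (b (a (l 16517848) (l 16545736)) (a (l 16478200) (l 16506464))) (b (a (l 16439080) (l 16467808)) (l 16401968))) (b (a (b (l 16577608) (l 16538704)) (b (l 16610480) (l 16571936))) (b (a (l 16500576) (l 16534408)) (a (l 16471992) (l 16506856)))))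 (b (a (b (l 16608944) (l 16591936)) (b (l 16587296) (l 16619776))) (b (a (l 16555504) (l 16603600)) (l 16491712)))) (a (b (b (a (l 16565560) (l 16505560)) (a (l 16578176) (l 16519248))) (b (a (l 16566168) (l 16527952)) (l 16491608))) (b (b (a (l 16447688) (l 16390576)) (a (l 16462392) (l 16406520))) (a (l 16447976) (l 16412304)))))) (b (b (l 3) (a (a (b (l 316920495367) (b (l 16286808) (l 16294696))) (b (l 16179776) (l 16189216))) (a (l 265917338759) (l 16006800)))) (a (b (a (b (l 16308208) (l 16325120)) (l 16216896)) (a (l 16332192) (l 16232688))) (b (l 16022048) (l 16102536))))), by decide +kernel⟩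

def k1_pp_022 : ∃ t, chk3 f_pp_022 t 2 9 1 = true :=
  ⟨(a (a (a (b (a (b (b (l 16402008) (l 16385056)) (b (l 16371216) (l 16360048))) (b (a (l 16443160) (l 16478392)) (a (l 16415800) (l 16451272)))) (a (b (b (l 16351176) (l 16344304)) (b (l 16339176) (l 16335624))) (b (a (l 16398056) (l 16433528)) (a (l 16387544) (l 16422784))))) (b (b (a (l 16522272) (l 16551616)) (a (l 16495496) (l 16525232))) (b (a (l 16477728) (l 16507376)) (a (l 16445648) (l 16446952))))) (b (a (b (b (l 16483456) (l 16471640)) (a (l 16497840) (l 16482816))) (b (l 16364992) (l 16316776))) (a (b (a (l 16457744) (l 16444056)) (a (l 16410488) (l 16377304))) (b (a (l 16390464) (l 16337792)) (a (l 16346144) (l 16294960)))))) (b (a (a (b (l 16320776) (l 16296048)) (l 16213112)) (l 16087408)) (a (a (b (l 16261984) (l 16221392)) (l 16150384)) (a (l 16068880) (l 15996272))))), by decide +kernel⟩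

def k2_pp_022 : ∃ t, chk3 f_pp_022 t 16 10 1 = true :=
  ⟨(b (b (a (b (l 16333536) (l 16291000)) (a (b (l 16383104) (l 16382088)) (b (l 16418040) (l 16416720)))) (b (a (b (l 16312488) (a (l 16320512) (l 16349880))) (a (l 16361952) (l 16396192))) (a (b (a (b (l 16322128) (l 16323928)) (l 16331352)) (b (b (a (l 16325832) (l 16354688)) (a (b (l 16327232) (l 16328616)) (l 16335800))) (b (b (a (b (a (l 16323544) (l 16336920)) (a (b (a (l 16311176) (l 16328104)) (b (b (l 16315336) (b (b (b (l 16326256) (b (l 16326408) (b (l 16326536) (l 16321408)))) (l 16326696)) (l 16326688))) (l 16326640))) (b (l 16338200) (b (b (l 16339144) (b (b (b (l 16339568) (a (l 16325936) (l 16322336))) (l 16340000)) (l 16339992))) (l 16339944))))) (b (l 16358712) (b (l 16359944) (b (b (l 16360856) (a (l 16343480) (l 16369120))) (l 16361624))))) (a (a (l 16326320) (l 16339624)) (l 16361312))) (a (a (l 16325480) (l 16338784)) (l 16360464))))) (b (a (l 16364320) (l 16398176)) (b (a (b (l 16387424) (l 16368408)) (b (l 16421064)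 (l 16401904))) (a (b (b (b (l 16391200) (b (l 16371392) (b (b (l 16372264) (a (l 16385168) (l 16402168))) (l 16373000)))) (l 16372680)) (l 16371832)) (b (b (b (l 16403616) (b (l 16404720) (a (l 16398104) (l 16413720)))) (l 16405928)) (l 16405072)))))))) (a (b (a (b (a (l 16320480) (l 16333776)) (l 16297376)) (b (l 16334472) (l 16346752))) (a (l 16285032) (l 16313376))) (a (b (b (l 16366800) (l 16358064)) (l 16345592)) (b (l 16374648) (l 16352000))))), by decide +kernel⟩

def k3_pp_022 : ∃ t, chk3 f_pp_022 t 17 10 1 = true :=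
  ⟨(b (b (a (b (l 16440424) (l 16438656)) (b (l 16427928) (l 16420376))) (b (a (l 16417544) (l 16369144)) (b (a (l 16402824) (l 16365840)) (b (a (b (l 16412152) (l 16385440)) (b (l 16375632) (l 16349160))) (a (b (b (b (l 16402232) (b (l 16400360) (a (l 16413856) (l 16405056)))) (l 16397424)) (l 16395416)) (b (b (b (l 16366136) (b (l 16364352) (a (l 16376584) (l 16349392)))) (l 16361544)) (l 16359600))))))) (a (b (l 16330408) (l 16306976)) (b (a (l 16350840) (l 16324096)) (l 16273472)))), by decide +kernel⟩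

def k4_pp_022 : ∃ t, chk3 f_pp_022 t 8 11 1 = true :=
  ⟨(a (a (b (b (a (l 16290696) (l 16318936)) (l 16248432)) (b (l 16235872) (l 16224744))) (b (a (b (l 16330048) (l 16309144)) (b (l 16304888) (l 16277248))) (a (l 16189816) (l 16180336)))) (b (a (b (l 16282080) (l 16255656)) (b (l 16250016) (l 16204008))) (a (l 16118528) (l 16068888)))), by decide +kernel⟩

def k5_pp_022 : ∃ t, chk3 f_pp_022 t 9 5 1 = true :=
  ⟨(b (b (b (a (a (b (l 16413712) (l 16386128)) (b (l 16360776) (l 16334096))) (a (l 16275616) (l 16247104))) (b (a (a (l 16335944) (l 16305896)) (a (l 16256856) (l 16208840))) (b (a (a (l 16333536) (l 16283384)) (a (l 16235216) (l 16188072))) (a (b (a (b (l 16322800) (l 16317536)) (b (l 16273080) (l 16268040))) (a (b (b (b (l 16313712) (b (l 16312016) (a (l 16323320) (l 16298064)))) (l 16309328)) (l 16307456)) (b (b (b (l 16264392) (b (l 16262776) (a (l 16273504) (l 16249488)))) (l 16260224)) (l 16258408)))) (b (a (l 16222648) (l 16176080)) (a (b (b (b (l 16217064) (a (l 16226560)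 (l 16203280))) (l 16213096)) (l 16211344)) (a (l 16179296) (l 16156432)))))))) (a (a (b (a (l 16298440) (l 16273600)) (l 16244360)) (b (l 16216600) (l 16197256))) (a (b (l 16191184) (l 16152096)) (l 16127008)))) (a (b (a (b (l 16201216) (l 16156456)) (b (l 16155312) (l 16111704))) (b (a (l 16110040) (l 16066400)) (a (a (l 16072512) (l 16048952)) (b (l 16029728) (a (l 16014216) (l 15988472)))))) (b (a (l 16090144) (l 16047864)) (b (a (l 16023280) (l 15927864)) (a (b (l 15985560) (l 15949056)) (l 15916272)))))), by decide +kernel⟩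

def k6_pp_022 : ∃ t, chk3 f_pp_022 t 5 5 1 = true :=
  ⟨(b (b (b (a (a (l 16176072) (l 16089760)) (l 15977552)) (b (a (a (l 16140024) (l 16056536)) (l 15948368)) (a (b (a (l 16120600) (l 16038816)) (b (a (l 16109464) (l 16028808)) (a (l 16059912) (l 16022016)))) (b (l 15933136) (b (l 15924776) (l 15919176)))))) (a (a (l 16063120) (l 15986008)) (l 15797536))) (a (b (a (a (l 16007104) (l 15965248)) (b (l 15932192) (l 15887536))) (a (b (a (l 15937456) (l 15890744)) (l 15842000)) (l 15785872))) (b (a (l 15834976) (l 15760632)) (l 15660736)))), by decide +kernel⟩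

def k7_pp_022 : ∃ t, chk3 f_pp_022 t 8 6 1 = true :=
  ⟨(a (b (b (a (b (l 16173072) (b (l 16151520) (l 16098944))) (b (a (l 16172192) (l 16143128)) (a (b (l 16129408) (l 16095904)) (b (l 16099696) (l 16060720))))) (a (b (l 15998552) (l 15970968)) (a (l 15902152) (l 15888936)))) (a (b (b (l 15877536) (l 15759560)) (b (a (l 15717328) (l 15684824)) (a (l 15613672) (l 15581272)))) (b (a (b (l 15848376) (l 15751712)) (b (l 15814672) (l 15718312))) (a (b (l 15651616) (b (l 15574584) (l 15522160))) (b (l 15618504) (b (l 15541680) (l 15489400))))))) (b (b (b (a (b (l 16117248) (l 16088320)) (b (l 16066984) (l 16035280))) (a (l 15971392) (l 15973632))) (a (b (l 15948656) (l 15859920)) (b (l 15888968) (l 15800336)))) (b (a (b (l 15767392) (l 15650248)) (b (l 15686888) (a (l 15626384) (l 15597328)))) (a (b (b (l 15597008) (l 15546360)) (b (l 15494904) (l 15442688))) (b (b (l 15537488) (l 15486824)) (b (l 15435352) (l 15362144))))))), by decide +kernel⟩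

def k8_pp_022 : ∃ t, chk3 f_pp_022 t 16 28 1 = true :=
  ⟨(a (b (a (b (l 15534136) (l 15480128)) (b (l 15501808) (l 15447848))) (a (b (l 15425464) (l 15370176)) (b (l 15393224) (l 15337984)))) (a (b (b (l 15469000) (l 15415152)) (b (l 15360648) (l 15284552))) (b (b (l 15436376) (l 15382664)) (b (l 15307320) (l 15252328))))), by decide +kernel⟩

def k9_pp_022 : ∃ t, chk3 f_pp_022 t 16 29 1 = true :=
  ⟨(a (a (b (b (l 15293336) (l 15247424)) (b (a (l 15188056) (b (l 15207352) (b (l 15185952) (b (a (l 15179232) (b (l 15172936) (a (l 15171376) (l 15168096)))) (a (b (l 15173760) (a (l 15172248) (l 15169136))) (l 15166352)))))) (b (a (b (a (b (l 15180888) (b (a (l 15177504) (l 15173624)) (a (l 15174088) (l 15171152)))) (b (b (l 15174600) (a (l 15173160) (l 15170152))) (l 15168360))) (l 15164680)) (b (l 15162752) (l 15154272))) (l 15147032)))) (b (b (l 15261200) (l 15215328)) (b (b (a (l 15191320) (b (l 15182400) (b (l 15171536) (a (l 15168496) (b (l 15163048) (l 15160688)))))) (a (b (b (a (l 15177520)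 (a (l 15171512) (l 15167552))) (a (b (l 15172144) (a (l 15170544) (l 15167048))) (l 15164240))) (a (b (l 15165304) (l 15160872)) (l 15157736))) (b (a (b (l 15173640) (l 15158648)) (l 15155488)) (l 15149968)))) (l 15134680)))) (a (b (b (l 15244576) (a (l 15201696) (b (l 15199720) (a (l 15175528) (b (l 15174560) (b (l 15163960) (a (l 15158960) (l 15155848)))))))) (b (b (a (b (b (l 15169800) (a (l 15166672) (b (l 15160848) (l 15158456)))) (a (b (b (l 15161952) (l 15159584)) (l 15156344)) (l 15153160))) (a (b (b (b (l 15159760) (l 15157296)) (l 15153968)) (l 15147976)) (l 15146784))) (a (l 15143672) (l 15133344))) (l 15114152))) (b (b (l 15196760) (b (a (l 15183656) (a (l 15171792) (b (l 15171016) (b (l 15160488) (l 15153472))))) (a (b (a (l 15166536) (b (l 15162104) (b (l 15156712) (l 15153856)))) (a (b (b (l 15157648) (l 15154960)) (l 15151648)) (l 15148608))) (b (a (b (l 15154344) (l 15149528)) (l 15146624)) (l 15140880))))) (a (l 15156968) (l 15105104))))), by decide +kernel⟩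

def k10_pp_022 : ∃ t, chk3 f_pp_022 t 17 14 1 = true :=
  ⟨(b (a (b (b (l 15389736) (l 15336096)) (b (l 15281784) (b (l 15219760) (l 15192152)))) (b (b (a (l 15344864) (l 15315640)) (a (l 15291208) (l 15261944))) (b (a (l 15236896) (l 15207592)) (a (l 15181960) (b (l 15166480) (b (a (l 15153088) (a (l 15142168) (b (l 15138376) (l 15131904)))) (a (b (l 15142680) (a (l 15139320) (l 15133072))) (b (a (l 15132472) (l 15127368)) (l 15125744))))))))) (b (a (b (a (l 15165440) (b (l 15170288) (b (a (l 15156960) (b (a (l 15149152) (l 15141928)) (a (l 15142632) (l 15137272)))) (a (b (a (l 15150248) (l 15143384)) (a (l 15144168) (l 15138760))) (l 15133768))))) (a (b (b (a (l 15159184) (b (a (l 15151328) (l 15144992)) (l 15143504))) (a (b (a (l 15152688) (l 15146728)) (l 15145240)) (l 15137112))) (l 15130216)) (l 15119056))) (b (a (b (b (a (l 15154840) (b (l 15143320) (a (l 15140152) (l 15134392)))) (a (b (l 15144224) (a (l 15141272) (l 15135800))) (l 15131008))) (l 15124008)) (b (a (b (l 15129696) (l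 15121504)) (l 15116392)) (l 15105720))) (a (l 15100672) (l 15082808)))) (a (l 15070728) (l 15023856)))), by decide +kernel⟩

def k11_pp_022 : ∃ t, chk3 f_pp_022 t 8 15 1 = true :=
  ⟨(a (b (a (b (a (l 15084184) (l 15084832)) (l 15005888)) (b (a (l 15064672) (l 15044936)) (l 14966608))) (a (l 14921632) (l 14883712))) (b (a (l 15010904) (l 14947704)) (l 14829848))), by decide +kernel⟩

def k12_pp_022 : ∃ t, chk3 f_pp_022 t 9 6 1 = true :=
  ⟨(b (a (b (a (b (a (l 15970464) (l 15984032)) (l 15917120)) (b (l 15943576) (l 15862928))) (a (b (l 15832424) (l 15743720)) (b (l 15778112) (l 15689216)))) (b (a (b (l 15891136) (l 15810376)) (l 15799280)) (a (b (l 15725384) (l 15636256)) (b (l 15673736) (l 15584384))))) (a (b (a (b (l 15630152) (a (l 15568904) (l 15540984))) (b (l 15596392) (a (l 15513496) (l 15486384)))) (a (b (a (l 15469120) (l 15441072)) (b (l 15378104) (l 15331000))) (b (a (l 15413432) (l 15386160)) (a (l 15310056) (l 15282600))))) (b (a (b (l 15543152) (l 15446240)) (b (l 15491000) (l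 15393760))) (a (b (l 15345736) (l 15241880)) (b (l 15292896) (l 15188648)))))), by decide +kernel⟩

def k13_pp_022 : ∃ t, chk3 f_pp_022 t 9 7 1 = true :=
  ⟨(b (b (a (b (a (b (a (l 15286920) (l 15258616)) (a (l 15233168) (l 15204792))) (a (l 15203640) (b (l 15203096) (l 15127384)))) (a (b (a (l 15178752) (b (l 15164040) (a (l 15143640) (b (l 15136480) (b (l 15126288) (l 15121480)))))) (a (b (b (l 15144216) (a (a (l 15141512) (l 15134152)) (b (a (l 15130544) (l 15125120)) (l 15123560)))) (a (b (b (a (l 15131392) (l 15126240)) (l 15124640)) (l 15118840)) (l 15113888))) (b (a (b (b (a (l 15129984) (l 15124072)) (l 15122496)) (l 15116400)) (l 15111600)) (l 15101096)))) (b (a (b (a (l 15142968) (b (l 15135864) (b (l 15125408) (l 15119704)))) (a (b (b (l 15125720) (l 15120536)) (l 15114368)) (l 15109968))) (b (a (b (l 15122040) (l 15112736)) (l 15108464)) (l 15097240))) (l 15083512)))) (b (a (b (l 15162208) (a (b (l 15135096) (a (b (l 15121520) (l 15111192)) (l 15107048))) (b (a (l 15115552) (l 15105768))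 (l 15093976)))) (a (b (b (l 15135544) (l 15110224)) (l 15085976)) (l 15067616))) (a (l 15066016) (l 15035376)))) (a (a (b (a (l 15080600) (l 15063592)) (l 15010264)) (b (l 15038768) (l 14977256))) (a (l 14976288) (l 2)))) (a (b (a (l 14913600) (l 2)) (l 2)) (l 2))), by decide +kernel⟩

def k14_pp_022 : ∃ t, chk3 f_pp_022 t 5 3 1 = true :=
  ⟨(b (b (a (a (b (a (l 15749224) (l 15701040)) (a (l 15578472) (l 15529736))) (b (l 15631736) (l 15459256))) (b (l 15504008) (l 15327952))) (a (b (a (a (l 15391088) (l 15341560)) (l 15269528)) (a (b (l 15215736) (a (b (l 15163304) (l 15091040)) (l 15096824))) (b (a (l 15140344) (l 2)) (l 2)))) (b (a (l 15174752) (l 2)) (l 2)))) (b (a (a (b (b (l 15049784) (l 2)) (l 2)) (l 2)) (l 2)) (l 2))), by decide +kernel⟩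

def k15_pp_022 : ∃ t, chk3 f_pp_022 t 3 1 1 = true :=
  ⟨(b (b (b (b (b (b (l 3) (a (a (l 3) (l 15751960)) (a (l 15658632) (l 15589120)))) (a (a (l 15897264) (l 15779680)) (a (b (l 15680552) (l 15711096)) (b (l 15614016) (l 15649608))))) (a (a (b (l 15940960) (l 15960584)) (b (l 15829272) (l 15851120))) (a (b (l 15745024) (l 15769448)) (l 15701920)))) (a (b (a (l 15950632) (l 15845304)) (a (l 15902952) (l 15804344))) (b (a (l 15766856) (l 15710800)) (a (l 15729008) (l 2))))) (a (b (b (b (a (l 15856560) (l 15765056)) (b (a (l 15832288) (l 15741904)) (a (b (l 15820152) (b (l 15813936) (l 15811176))) (b (l 15731496) (l 15726720))))) (a (l 15767408) (l 15662944))) (a (b (l 15657192) (l 15516568)) (l 15465952))) (b (b (b (a (l 15693032) (l 2)) (l 2)) (l 2)) (l 2)))) (b (a (b (a (b (l 15354248) (l 2)) (l 2)) (l 2)) (l 2)) (l 2))), by decide +kernel⟩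

theorem s16_pp_022 : ∃ t, chk3 f_pp_022 t 9 3 1 = true := ex3_b k12_pp_022 k13_pp_022

theorem s17_pp_022 : ∃ t, chk3 f_pp_022 t 16 14 1 = true := ex3_b k8_pp_022 k9_pp_022

theorem s18_pp_022 : ∃ t, chk3 f_pp_022 t 8 14 1 = true := ex3_a s17_pp_022 k10_pp_022

theorem s19_pp_022 : ∃ t, chk3 f_pp_022 t 8 7 1 = true := ex3_b s18_pp_022 k11_pp_022

theorem s20_pp_022 : ∃ t, chk3 f_pp_022 t 8 3 1 = true := ex3_b k7_pp_022 s19_pp_022

theorem s21_pp_022 : ∃ t, chk3 f_pp_022 t 4 3 1 = true := ex3_a s20_pp_022 s16_pp_022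

theorem s22_pp_022 : ∃ t, chk3 f_pp_022 t 2 3 1 = true := ex3_a s21_pp_022 k14_pp_022

theorem s23_pp_022 : ∃ t, chk3 f_pp_022 t 8 10 1 = true := ex3_a k2_pp_022 k3_pp_022

theorem s24_pp_022 : ∃ t, chk3 f_pp_022 t 8 5 1 = true := ex3_b s23_pp_022 k4_pp_022

theorem s25_pp_022 : ∃ t, chk3 f_pp_022 t 4 5 1 = true := ex3_a s24_pp_022 k5_pp_022

theorem s26_pp_022 : ∃ t, chk3 f_pp_022 t 2 5 1 = true := ex3_a s25_pp_022 k6_pp_022

theorem s27_pp_022 : ∃ t, chk3 f_pp_022 t 2 4 1 = true := ex3_b k0_pp_022 k1_pp_022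

theorem s28_pp_022 : ∃ t, chk3 f_pp_022 t 2 2 1 = true := ex3_b s27_pp_022 s26_pp_022

theorem s29_pp_022 : ∃ t, chk3 f_pp_022 t 2 1 1 = true := ex3_b s28_pp_022 s22_pp_022

theorem s30_pp_022 : ∃ t, chk3 f_pp_022 t 1 1 1 = true := ex3_a s29_pp_022 k15_pp_022

theorem c_pp_022 : CertB 0 536870912 1073741824 536870912 1045395039 1503240 3 eng mog cd0q0 cd3q2 pd2 false true true .pp 0 2 2
    ndB0q0 ndB3q2 pcB2 Cut.none Ext.none :=
  certB1 (fam := false) (s1 := true) (s2 := true) (a := 0) (b := 2) (c := 2) (cn := .pp) (n1 := ndB0q0) (n2 := ndB3q2) (pc := pcB2) (cut := Cut.none) (xt := Ext.none) (P1 := 0) (W1 := 536870912) (P2 := 1073741824) (W2 := 536870912) (P3 := 1045395039) (W3 := 1503240) (N0 := 3) (En := eng) (mo := mog) (C1 := cd0q0) (C2 := cd3q2) (C3 := pd2)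
    rfl (fun _ => rfl) s30_pp_022

noncomputable def f_pp_023 : ℕ → ℕ → ℕ → ℕ → Bool := onCell 1073741824 536870912 0 1230186008 1045395039 1503240
    (rowB 3 eng mog cd0q0 cd3q3 pd2 2 false true true .up 0 2 3 (qsf 0 536870912 0 1230186008 2) ndB0q0 ndB3q3 pcB2 Cut.none Ext.none)

def k0_pp_023 : ∃ t, chk3 f_pp_023 t 1 1 1 = true :=
  ⟨(b (a (l 2) (a (l 2) (b (b (l 14198080) (b (l 14227224) (l 288931664647))) (b (b (l 14294504) (l 14339240)) (a (l 14553688) (l 14276208)))))) (b (a (a (l 2) (b (l 2) (a (l 2) (b (l 2) (l 15320400))))) (a (b (a (l 2) (l 14892912)) (a (l 15142888) (l 14966568))) (b (a (l 14648536) (l 14404624)) (a (l 14763744) (l 14385728))))) (b (a (a (l 2) (a (b (l 15620376) (l 15694784)) (b (l 15380000) (l 15489696)))) (a (a (b (l 15198424) (a (l 15302752) (l 15222968))) (b (l 15045784) (l 15119192))) (a (b (l 14873416) (l 14967536)) (b (l 14688640) (b (l 14769536) (l 14831240)))))) (b (a (a (a (l 2) (a (l 15883080) (l 15867968))) (a (a (a (l 15840648) (l 15807648)) (l 15753200))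 (l 15513696))) (b (a (a (l 15348600) (l 15187160)) (a (l 15053552) (a (l 14939064) (l 14859904)))) (a (a (l 15433000) (a (l 15283088) (l 15217096))) (a (a (l 15154672) (l 15086816)) (a (l 15014792) (l 14940616)))))) (a (a (a (a (b (l 2) (a (a (l 3) (l 15821744)) (l 15875408))) (l 15815984)) (a (l 15976296) (l 15967672))) (a (a (a (l 15953832) (a (l 15943144) (a (l 15933432) (l 15925248)))) (l 15893032)) (b (l 15735568) (l 15829224)))) (a (a (b (l 15537936) (a (l 15696904) (l 15598328))) (a (b (l 15367352) (l 15492880)) (b (l 15292936) (b (a (l 15374816) (l 15338448)) (a (l 15444608) (l 15391744)))))) (a (b (a (l 15230856) (b (l 15146552) (l 15190416))) (a (b (l 15295872) (a (l 15358240) (l 15330288))) (b (l 15237592) (l 15288352)))) (b (a (b (l 15078496) (l 15124976)) (l 15053296)) (a (b (l 15174824) (l 15228256)) (b (a (l 15125432) (a (l 15079320) (l 15061848))) (a (b (l 15145456) (l 15173936)) (b (l 15112072) (l 15141256))))))))))))), by decide +kernel⟩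

theorem c_pp_023 : CertB 0 536870912 0 1230186008 1045395039 1503240 3 eng mog cd0q0 cd3q3 pd2 false true true .up 0 2 3
    ndB0q0 ndB3q3 pcB2 Cut.none Ext.none :=
  certB2 (fam := false) (s1 := true) (s2 := true) (a := 0) (b := 2) (c := 3) (cn := .up) (n1 := ndB0q0) (n2 := ndB3q3) (pc := pcB2) (cut := Cut.none) (xt := Ext.none) (P1 := 0) (W1 := 536870912) (P2 := 0) (W2 := 1230186008) (P3 := 1045395039) (W3 := 1503240) (N0 := 3) (En := eng) (mo := mog) (C1 := cd0q0) (C2 := cd3q3) (C3 := pd2)
    rfl (fun _ => rfl) k0_pp_023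

noncomputable def f_pp_033 : ℕ → ℕ → ℕ → ℕ → Bool := onCell 0 536870912 0 1230186008 1045395039 1503240
    (rowB 3 eng mog cd0q0 cd3q3 pd3 0 false true true .pnn 0 3 3 (qsf 0 536870912 0 1230186008 3) ndB0q0 ndB3q3 pcB3 Cut.none Ext.none)

def k0_pp_033 : ∃ t, chk3 f_pp_033 t 1 1 1 = true :=
  ⟨(b (b (a (l 4) (b (a (l 15967464) (a (l 16153896) (l 16226520))) (a (b (l 15969376) (a (l 15979336) (l 16066160))) (b (l 16159776) (a (l 16139424) (l 16216808)))))) (a (a (l 4) (a (b (l 4) (b (l 15601400) (l 15572928))) (b (b (l 4) (l 15820312)) (l 15779592)))) (b (a (b (a (l 15959688) (l 16055272)) (a (l 15942184) (l 16046784))) (a (b (l 16136696) (l 16136568)) (l 16183920))) (a (a (b (l 15930152) (l 15923752)) (l 16041128)) (l 16206392))))) (b (a (a (a (b (a (l 4) (b (l 4) (l 15022400))) (a (b (b (l 14828776) (l 14844584)) (a (l 14820176) (l 14940024))) (b (l 15053944) (b (l 15083856) (l 15116840))))) (b (b (a (l 15203456) (l 15356904)) (a (l 15208144) (l 15361104))) (b (a (l 15229824) (l 15383656))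 (a (l 15278032) (l 15430928))))) (b (a (b (l 15559048) (l 15563800)) (b (l 15767560) (l 15777928))) (a (b (l 15587688) (l 15631896)) (l 15825952)))) (a (b (a (b (l 15928264) (l 15945520)) (l 16076480)) (l 15921016)) (b (l 16280248) (l 1)))) (a (a (a (b (a (b (a (l 14912176) (l 15030632)) (a (l 15043480) (l 15148552))) (b (l 15189968) (l 15287416))) (a (b (a (l 15150464) (l 15243920)) (a (l 15222248) (l 134784997623))) (b (l 15369192) (l 148206985063)))) (b (b (l 15367680) (l 15337360)) (b (a (l 15505952) (l 15629832)) (b (l 15521624) (l 1))))) (b (a (b (l 15689992) (l 15751408)) (l 15935568)) (b (a (l 15806056) (l 1)) (l 1)))) (l 1)))), by decide +kernel⟩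

theorem c_pp_033 : CertB 0 536870912 0 1230186008 1045395039 1503240 3 eng mog cd0q0 cd3q3 pd3 false true true .pnn 0 3 3
    ndB0q0 ndB3q3 pcB3 Cut.none Ext.none :=
  certB0 (fam := false) (s1 := true) (s2 := true) (a := 0) (b := 3) (c := 3) (cn := .pnn) (n1 := ndB0q0) (n2 := ndB3q3) (pc := pcB3) (cut := Cut.none) (xt := Ext.none) (P1 := 0) (W1 := 536870912) (P2 := 0) (W2 := 1230186008) (P3 := 1045395039) (W3 := 1503240) (N0 := 3) (En := eng) (mo := mog) (C1 := cd0q0) (C2 := cd3q3) (C3 := pd3)
    rfl k0_pp_033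

noncomputable def f_pp_101 : ℕ → ℕ → ℕ → ℕ → Bool := onCell 536870912 536870912 536870912 536870912 1045395039 1503240
    (rowB 3 eng mog cd0q1 cd3q1 pd0 0 false true true .npn 1 0 1 (qsf 536870912 536870912 536870912 536870912 0) ndB0q1 ndB3q1 pcB0 Cut.none Ext.none)

def k0_pp_101 : ∃ t, chk3 f_pp_101 t 1 1 1 = true :=
  ⟨(a (l 3) (l 5)), by decide +kernel⟩

theorem c_pp_101 : CertB 536870912 536870912 536870912 536870912 1045395039 1503240 3 eng mog cd0q1 cd3q1 pd0 false true true .npn 1 0 1
    ndB0q1 ndB3q1 pcB0 Cut.none Ext.none :=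
  certB0 (fam := false) (s1 := true) (s2 := true) (a := 1) (b := 0) (c := 1) (cn := .npn) (n1 := ndB0q1) (n2 := ndB3q1) (pc := pcB0) (cut := Cut.none) (xt := Ext.none) (P1 := 536870912) (W1 := 536870912) (P2 := 536870912) (W2 := 536870912) (P3 := 1045395039) (W3 := 1503240) (N0 := 3) (En := eng) (mo := mog) (C1 := cd0q1) (C2 := cd3q1) (C3 := pd0)
    rfl k0_pp_101

noncomputable def f_pp_102 : ℕ → ℕ → ℕ → ℕ → Bool := onCell 536870912 536870912 0 536870912 1045395039 1503240
    (rowB 3 eng mog cd0q1 cd3q2 pd0 1 false true true .npp 1 0 2 (qsf 536870912 536870912 1073741824 536870912 0) ndB0q1 ndB3q2 pcB0 Cut.none Ext.none)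

def k0_pp_102 : ∃ t, chk3 f_pp_102 t 1 1 1 = true :=
  ⟨(l 3), by decide +kernel⟩

theorem c_pp_102 : CertB 536870912 536870912 1073741824 536870912 1045395039 1503240 3 eng mog cd0q1 cd3q2 pd0 false true true .npp 1 0 2
    ndB0q1 ndB3q2 pcB0 Cut.none Ext.none :=
  certB1 (fam := false) (s1 := true) (s2 := true) (a := 1) (b := 0) (c := 2) (cn := .npp) (n1 := ndB0q1) (n2 := ndB3q2) (pc := pcB0) (cut := Cut.none) (xt := Ext.none) (P1 := 536870912) (W1 := 536870912) (P2 := 1073741824) (W2 := 536870912) (P3 := 1045395039) (W3 := 1503240) (N0 := 3) (En := eng) (mo := mog) (C1 := cd0q1) (C2 := cd3q2) (C3 := pd0)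
    rfl (fun _ => rfl) k0_pp_102

noncomputable def f_pp_112 : ℕ → ℕ → ℕ → ℕ → Bool := onCell 536870912 536870912 1073741824 536870912 1045395039 1503240
    (rowB 3 eng mog cd0q1 cd3q2 pd1 0 false true true .dn 1 1 2 (qsf 536870912 536870912 1073741824 536870912 1) ndB0q1 ndB3q2 pcB1 Cut.none Ext.none)

def k0_pp_112 : ∃ t, chk3 f_pp_112 t 1 1 1 = true :=
  ⟨(a (b (l 3) (a (l 3) (l 3))) (l 3)), by decide +kernel⟩

theorem c_pp_112 : CertB 536870912 536870912 1073741824 536870912 1045395039 1503240 3 eng mog cd0q1 cd3q2 pd1 false true true .dn 1 1 2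
    ndB0q1 ndB3q2 pcB1 Cut.none Ext.none :=
  certB0 (fam := false) (s1 := true) (s2 := true) (a := 1) (b := 1) (c := 2) (cn := .dn) (n1 := ndB0q1) (n2 := ndB3q2) (pc := pcB1) (cut := Cut.none) (xt := Ext.none) (P1 := 536870912) (W1 := 536870912) (P2 := 1073741824) (W2 := 536870912) (P3 := 1045395039) (W3 := 1503240) (N0 := 3) (En := eng) (mo := mog) (C1 := cd0q1) (C2 := cd3q2) (C3 := pd1)
    rfl k0_pp_112

noncomputable def cut_pp_113 : Cut := Cut.of [[⟨0, 1, 0, 14155776⟩, ⟨1, 1, 0, 14155776⟩, ⟨2, 2, 0, 524288⟩]]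

noncomputable def f_pp_113 : ℕ → ℕ → ℕ → ℕ → Bool := onCell 536870912 536870912 0 1230186008 1045395039 1503240
    (rowB 3 eng mog cd0q1 cd3q3 pd1 2 false true true .nn 1 1 3 (qsf 536870912 536870912 0 1230186008 1) ndB0q1 ndB3q3 pcB1 cut_pp_113 Ext.none)

def k0_pp_113 : ∃ t, chk3 f_pp_113 t 1 1 1 = true :=
  ⟨(b (a (l 2) (a (l 2) (a (l 3) (a (l 3) (b (b (a (l 2) (a (l 2) (b (b (l 6) (l 3)) (l 3)))) (l 3)) (b (l 3) (l 3))))))) (b (a (l 3) (a (l 3) (a (l 3) (b (l 3) (l 3))))) (a (b (l 3) (l 3)) (a (l 3) (b (l 3) (l 3)))))), by decide +kernel⟩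

theorem c_pp_113 : CertB 536870912 536870912 0 1230186008 1045395039 1503240 3 eng mog cd0q1 cd3q3 pd1 false true true .nn 1 1 3
    ndB0q1 ndB3q3 pcB1 cut_pp_113 Ext.none :=
  certB2 (fam := false) (s1 := true) (s2 := true) (a := 1) (b := 1) (c := 3) (cn := .nn) (n1 := ndB0q1) (n2 := ndB3q3) (pc := pcB1) (cut := cut_pp_113) (xt := Ext.none) (P1 := 536870912) (W1 := 536870912) (P2 := 0) (W2 := 1230186008) (P3 := 1045395039) (W3 := 1503240) (N0 := 3) (En := eng) (mo := mog) (C1 := cd0q1) (C2 := cd3q3) (C3 := pd1)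
    rfl (fun _ => rfl) k0_pp_113

noncomputable def cut_pp_123 : Cut := Cut.of [[⟨0, 1, 0, 14155776⟩, ⟨1, 1, 0, 14155776⟩, ⟨2, 2, 0, 524288⟩]]

noncomputable def xt_pp_123 : Ext := extD3 3 ⟨4, 1, 1, 5, 33, 5, 163, 200, 81, 200, 1, 64⟩ eng cd0q1 cd3q3 pd2 false true true .npn 1 2 3 rfl ndB0q1 ndB3q3 pcB2

noncomputable def f_pp_123 : ℕ → ℕ → ℕ → ℕ → Bool := onCell 1073741824 536870912 0 1230186008 1045395039 1503240
    (rowB 3 eng mog cd0q1 cd3q3 pd2 2 false true true .npn 1 2 3 (qsf 536870912 536870912 0 1230186008 2) ndB0q1 ndB3q3 pcB2 cut_pp_123 xt_pp_123)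

def k0_pp_123 : ∃ t, chk3 f_pp_123 t 128 32 1 = true :=
  ⟨(l 6), by decide +kernel⟩

def k1_pp_123 : ∃ t, chk3 f_pp_123 t 1024 66 1 = true :=
  ⟨(a (l 3) (a (l 3) (b (b (b (l 6) (a (l 3) (a (b (a (l 502142074535) (a (b (a (l 7720200284203136651072454735) (l 4915492382697197103193030735)) (l 488720301591)) (a (b (l 16777000) (l 6627331343271511945857531983)) (l 16776960)))) (a (l 3) (l 8803397818577844529048223823))) (b (l 16776848) (a (a (b (l 4799435504014192702421254223) (l 8126399359593651985054236751)) (l 4896149569583363173836685391)) (l 16777000)))))) (b (a (l 3) (a (l 3) (a (a (l 3) (b (b (l 7816914349772306847609978959) (l 3)) (l 3))) (a (b (b (l 16776904) (l 6627331343271511739699085391)) (l 508584525335)) (b (l 16776992) (b (l 6549960090816175335078920271) (l 489794043383))))))) (l 3))) (l 3)))), by decide +kernel⟩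

def k2_pp_123 : ∃ t, chk3 f_pp_123 t 1025 66 1 = true :=
  ⟨(a (b (b (b (l 6) (a (a (a (l 144116596824768591) (l 16777056)) (l 16777128)) (l 144028292287070287))) (b (a (a (a (a (b (l 16777000) (b (l 16776984) (c (l 4838121130241860836011802703) (l 4876806756469529038321877071)))) (l 16777000)) (l 144116734263705679)) (b (l 16777088) (l 16777056))) (l 144031178515660879)) (a (b (a (a (a (a (l 8716355159565591091030376527) (b (l 6269489300665581710144438351) (l 8232784831719739352428363855))) (l 3812952035208655502019395663)) (l 16777000)) (l 144117490177966159)) (a (a (a (l 3) (a (l 8223113425162822250311254095) (b (l 16776976) (l 7517100746507878743563337807)))) (l 16776904)) (l 144117146580566095))) (l 16777176)))) (b (a (a (b (b (a (l 508584525463) (a (a (b (l 6598317123600760776945041487) (l 489794043351)) (l 4818778317128026769216487503)) (l 16776976))) (a (l 3) (a (l 8832412038248595560521646159) (a (b (l 343765155191) (l 8223113425162822250311221327)) (l 277193162103))))) (a (l 3) (a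 (l 3) (b (l 8532598434984167319036067919) (l 3))))) (b (a (l 16776664) (l 144117009141596239)) (a (a (a (b (l 6317846333450166877132652623) (l 514490105319)) (b (l 16776968) (l 7787900130101555678697504847))) (b (l 16776976) (l 4992863635152533439093637199))) (l 16776992)))) (a (a (b (l 16777040) (l 16777024)) (l 16777056)) (l 16777128))) (a (a (l 3) (a (a (l 3) (b (a (l 8851754851362429627316961359) (b (l 7352686835040289038364311631) (l 3))) (l 3))) (a (b (b (l 282025000311) (a (l 8281141864504324381977657423) (l 6540288684259258645278589007))) (l 501068332695)) (b (l 16776808) (b (a (l 7749214503873887545106907215) (l 6201789454767162545080336463)) (l 489257172391)))))) (a (a (a (b (l 16776984) (b (l 16776968) (c (l 6540288684259258645278605391) (l 6269489300665581847583375439)))) (l 144115978349363279)) (b (l 16777024) (l 16776992))) (b (l 16777056) (l 144117902494810191)))))) (a (b (l 144022726015451215) (b (l 144032484175167567) (l 16777208))) (b (l 16776976) (l 144030079001165903)))),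 by decide +kernel⟩

def k3_pp_123 : ∃ t, chk3 f_pp_123 t 513 66 1 = true :=
  ⟨(l 16769352), by decide +kernel⟩

def k4_pp_123 : ∃ t, chk3 f_pp_123 t 256 67 1 = true :=
  ⟨(a (a (l 3) (b (b (a (a (l 3) (b (b (a (a (a (l 8484241402199582152047820879) (l 6201789454767162613799829583)) (l 16776984)) (l 144117421458473039)) (a (a (l 8513255621870333320960294991) (l 5186291766290874381924565071)) (l 144116940422119503))) (a (a (l 3) (a (b (l 7865271382556892014598209615) (l 3)) (b (l 16776976) (l 7372029648154123173879152719)))) (l 144116184507826255)))) (a (a (a (l 144118108653240399) (l 16777072)) (l 16777144)) (l 143945966364655695))) (a (a (l 3) (a (a (l 3) (b (l 8996825949716185471879299151) (l 3))) (a (a (b (b (l 7043201825218944450675916879) (l 481740979671)) (l 3)) (b (b (l 16776992) (l 6714374002283765383875313743)) (l 8619641093996420757053980751))) (b (l 16777008) (a (a (l 7565457779292463566954283087) (l 6511274464588507751244169295)) (l 280951258567)))))) (a (a (b (l 144117627616936015)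 (l 16776376)) (b (l 16777096) (l 16777072))) (l 16777208)))) (b (a (b (a (l 3) (b (a (l 3) (a (l 3) (l 8232784831719739489867497551))) (l 3))) (l 3)) (a (a (a (b (b (l 16777024) (l 6143761015425660619572494415)) (b (l 7816914349772306916329603151) (l 484425334391))) (b (l 16777040) (l 5079906294164787358147952719))) (b (l 144117971214401615) (l 16776432))) (a (l 16777112) (l 16777200)))) (a (l 3) (a (a (a (l 3) (b (b (l 7207615736686533468680339535) (l 8349446138724906273179805263)) (l 3))) (a (b (l 16776920) (b (l 6763335459067057497286927951) (l 7904561442871330328641693263))) (l 144116390666469455))) (a (b (l 16777136) (l 16777152)) (l 16777160))))))) (a (a (a (b (b (l 16777760) (l 16774856)) (b (l 16777376) (l 16777296))) (b (l 16778288) (l 143951601340842063))) (l 143933459411648591)) (l 16776280))), by decide +kernel⟩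

def k5_pp_123 : ∃ t, chk3 f_pp_123 t 257 33 1 = true :=
  ⟨(l 143779046695616591), by decide +kernel⟩

def k6_pp_123 : ∃ t, chk3 f_pp_123 t 129 16 1 = true :=
  ⟨(l 143352573598679119), by decide +kernel⟩

def k7_pp_123 : ∃ t, chk3 f_pp_123 t 128 34 1 = true :=
  ⟨(a (b (a (a (l 3) (a (l 3) (b (a (b (a (l 3) (a (b (l 487109689351) (l 3)) (b (b (l 351818219207) (l 7469348154727592853388568143)) (l 8571888514610041247561295439)))) (l 3)) (a (a (b (b (l 16777152) (l 6463521867908305672648730191)) (b (l 8233389291170782977829578319) (l 3))) (b (l 16777184) (b (l 6221736695914929511618061903) (l 7885218665642178230173849103)))) (b (l 144118658409447503) (b (l 16777248) (l 286856838999))))) (a (l 3) (a (l 3) (b (b (b (l 5970280161463884074560202319) (l 6918078018309155798808598031)) (b (l 7662776338467977306468505103) (l 8223717934621835931876431375))) (b (l 8736302495685266381082678799) (l 3)))))))) (b (a (a (a (b (l 144030353879056463) (a (l 604250339908922789537359) (l 16777328))) (l 16777464))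 (b (l 16772752) (l 143954212702879823))) (l 16778608)) (a (a (a (a (b (l 16777384) (b (l 6250750981734551182715164175) (a (l 8310760625051200232992085519) (l 352355090775)))) (b (l 604086336825442221581903) (l 16777520))) (b (l 604039355275847479371343) (b (l 16777512) (l 604118330398432012510799)))) (b (l 143951738801684559) (l 16776504))) (l 143956686584627279)))) (a (l 3) (a (a (a (b (a (b (b (l 8310760636003954526757525007) (l 3)) (l 3)) (b (b (l 16777464) (l 6937420900021819389712094735)) (b (l 7875547328260551473188214287) (l 494089012807)))) (l 3)) (a (b (b (l 16777672) (b (l 16777800) (l 6241079628212023361233360399))) (b (b (l 7391976981967955729596569103) (l 8310760572593271773381957135)) (l 3))) (b (b (l 16777696) (l 16777856)) (b (l 604515079505432408643087) (a (b (l 408189667399) (l 503215819239)) (b (l 16778224) (l 388862314791))))))) (a (b (b (l 16777768) (l 604177417626024147461711)) (b (a (l 16778064) (l 16778056)) (a (l 16778280) (l 16778296)))) (b (l 16777936) (l 604240539990303003764303))))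 (a (b (l 603648514722027225687631) (a (l 16778320) (l 16778512))) (l 603604991943749546583631))))) (l 143862678311845967)), by decide +kernel⟩

def k8_pp_123 : ∃ t, chk3 f_pp_123 t 128 35 1 = true :=
  ⟨(a (a (l 3) (b (b (a (b (a (a (l 3) (a (l 3) (b (l 493015272151) (l 3)))) (a (a (a (b (l 367387478551) (l 459192404951)) (b (l 16778472) (l 346986384119))) (l 16778536)) (l 604204943620693167805967))) (a (l 3) (b (a (a (a (l 3) (l 437180697815)) (l 16778752)) (l 16778760)) (a (a (l 3) (a (l 415705861559) (l 16778904))) (l 16778880))))) (a (a (l 604281324670373360686607) (l 16778792)) (l 603766689184014751458895))) (a (a (l 3) (a (a (l 3) (b (a (l 503752691735) (b (l 384567348951) (l 475298533607))) (l 3))) (a (b (b (l 16779048) (l 343765159943)) (a (b (l 452749955607) (l 3)) (b (l 16779392) (l 430201377623)))) (b (l 16779112) (l 16779464))))) (a (a (b (l 604250484020125139408399) (l 604227137359656851494415)) (l 603949859737798904092175)) (l 16779440)))) (b (a (a (l 3) (a (l 3) (a (b (l 3) (l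 3)) (b (a (b (l 407115928743) (l 488183437047)) (b (l 16779744) (l 377588028903))) (b (l 486035953623) (l 3)))))) (a (a (a (b (l 16779824) (a (b (l 353965709159) (l 442549410263)) (l 334638355799))) (l 604488562310826455127567)) (b (l 16779760) (l 604245295873354410808847))) (l 603971620983039167948367))) (a (l 3) (a (a (a (b (b (b (l 442012539655) (l 481740987223)) (l 512342629671)) (l 3)) (a (b (b (l 16780552) (l 384030481655)) (b (l 478519762759) (l 3))) (b (l 16780648) (b (l 364166258311) (l 483351600663))))) (b (l 16780600) (b (l 16780952) (b (l 16781144) (l 6076665673221646994571712015))))) (a (a (l 603892501892944716879375) (l 16780736)) (l 16780776))))))) (a (a (b (b (l 16780480) (l 143984586705076303)) (a (b (l 16780288) (l 16780848)) (a (l 603748818929830363915855) (l 16770592)))) (b (l 16781240) (l 16782456))) (l 16780072))), by decide +kernel⟩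

def k9_pp_123 : ∃ t, chk3 f_pp_123 t 129 17 1 = true :=
  ⟨(b (l 143652259255271503) (l 143696514612461647)), by decide +kernel⟩

def k10_pp_123 : ∃ t, chk3 f_pp_123 t 65 8 1 = true :=
  ⟨(a (b (l 16732256) (b (l 16761728) (l 16767912))) (b (l 16756072) (l 16766600))), by decide +kernel⟩

def k11_pp_123 : ∃ t, chk3 f_pp_123 t 33 8 1 = true :=
  ⟨(a (b (l 16770760) (l 16775248)) (b (l 16748880) (l 16745008))), by decide +kernel⟩

def k12_pp_123 : ∃ t, chk3 f_pp_123 t 17 8 1 = true :=
  ⟨(a (l 16661952) (l 16535888)), by decide +kernel⟩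

def k13_pp_123 : ∃ t, chk3 f_pp_123 t 9 8 1 = true :=
  ⟨(a (l 16334664) (l 16061488)), by decide +kernel⟩

def k14_pp_123 : ∃ t, chk3 f_pp_123 t 5 8 1 = true :=
  ⟨(a (l 15828464) (l 15504456)), by decide +kernel⟩

def k15_pp_123 : ∃ t, chk3 f_pp_123 t 128 36 1 = true :=
  ⟨(b (a (a (l 3) (a (l 3) (b (a (a (l 3) (a (b (b (b (l 7121177585115681491490133519) (l 7256577278641902215967675919)) (l 8117332459325214426841585167)) (b (l 510732019351) (l 3))) (b (l 16781568) (b (l 6560236063325259913224803855) (b (l 7256577337440898950918084111) (l 7836861727397156440956851727)))))) (a (b (l 16781504) (l 16782040)) (b (l 16781408) (l 16781944)))) (b (a (a (l 3) (a (l 3) (b (l 9055458945210021740661233167) (l 3)))) (a (a (b (l 330880264039) (b (l 6579578885662466016876058127) (l 7150191931896028474589173263))) (l 604347617656888273016335)) (l 604045263992305127249423))) (a (l 3) (a (a (b (a (l 513953243927) (l 6511879021317302709380421135)) (l 8929730813885121171501684239)) (b (l 16781544) (b (l 16780904)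 (l 6473193311502825491791386127)))) (l 16781016))))))) (a (b (a (a (l 16781696) (l 16781864)) (l 16761632)) (a (a (a (l 604051172592351948334671) (l 16771080)) (l 16781584)) (l 144031728238166095))) (l 16764040))) (a (a (l 3) (a (l 3) (a (l 3) (b (b (a (a (l 3) (a (b (l 8281746552377940970175354383) (l 3)) (b (l 5506052709710202492394673679) (b (l 7401648355954840257851856399) (l 8397803141677647714626426383))))) (b (l 16779656) (l 604330179741121316742735))) (a (b (l 3) (l 3)) (a (a (b (b (l 6811692695774633654173292047) (l 7798176063843668270885135951)) (l 8900716070932132544508487247)) (b (l 16777704) (b (l 144128072977121359) (l 7197944330129627636555137103)))) (l 603602974497074025670223)))) (a (l 3) (a (b (b (b (l 8658326720224096793381044303) (l 9219268300525278751849136207)) (l 3)) (l 3)) (a (b (b (l 5515119589226061488899457103) (b (l 7584800592406302444107300943) (l 8571284061211837101887340623))) (l 3)) (b (b (l 16775464) (l 144119208159330383)) (b (b (l 6975501979320524942006403151)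 (l 7961985448126059393627963471)) (l 9016168762830011567203156047)))))))))) (a (b (a (a (a (a (l 603702125755472446416463) (l 603616233107433685345871)) (l 603479323684327921116751)) (l 16777896)) (l 144016403787022415)) (a (a (a (a (b (l 144125118035378255) (b (l 144115840902447183) (b (l 5302348644973874522078052431) (c (l 6695031189169924994876407887) (l 6646674156385337835023106127))))) (l 144122987718328399)) (b (l 16774664) (l 16772304))) (l 143959023045951567)) (l 143993039198568527))) (l 144025887072845903)))), by decide +kernel⟩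

def k16_pp_123 : ∃ t, chk3 f_pp_123 t 256 37 1 = true :=
  ⟨(b (l 3) (l 3)), by decide +kernel⟩

def k17_pp_123 : ∃ t, chk3 f_pp_123 t 257 74 1 = true :=
  ⟨(a (b (a (b (a (a (b (a (a (b (l 8339170303845815587234070607) (l 3)) (b (l 144105051940225103) (l 5998689917071891512136695887))) (l 144106288890069071)) (a (b (c (l 8377855930073479047898005583) (l 8377855930073471626194255951)) (l 8938797510374656402160713807)) (l 5128263326949355963724873807))) (l 144108625350770767)) (l 144120926136729679)) (a (a (a (l 3) (a (b (c (l 7594471998963192539455897679) (a (l 8310156084175049781066481743) (l 6105075389197966853597102159))) (b (l 9074197202171491708627697743) (l 3))) (b (l 144092338831048783) (b (l 5834276005604286894804516943) (c (l 7478415120280180373380644943) (l 7459072307166342939330691151)))))) (l 144093507055272015)) (l 144106220158156879))) (l 16757976)) (a (a (a (b (b (b (a (l 3) (c (l 8784055005463970330055000143) (l 8793726412020883927478353999))) (l 3)) (l 3)) (l 3)) (b (a (b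 (b (l 144081412429414479) (c (l 6395217585905467410160812111) (l 6346860553120878601040003151))) (a (b (c (l 7845928569443017472004587599) (l 7826585756329179625637757135)) (l 8822740631691631935290491087)) (b (l 144073990723125327) (l 5631176467909012425894445263)))) (l 144079282123440207)) (a (a (l 3) (b (b (c (l 7226958549800320806201835727) (l 7197944330129565514120495311)) (c (l 8194099205492020022796796111) (l 8184427798935098660071784655))) (b (l 9170911267740627064379195599) (l 3)))) (a (b (l 144065263346008271) (b (c (l 6250146487551693698527625423) (l 6018032730185680361498067151)) (c (l 7575129185849323013396627663) (b (l 7265644176027974302539907279) (l 7845928569442994107374911695))))) (l 144062926876950735))))) (a (l 143896900623843407) (l 144085947909570639))) (b (l 16764504) (l 143917997505265871)))) (b (l 144028292260053071) (a (l 143971048945893583) (l 16765640)))), by decide +kernel⟩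

def k18_pp_123 : ∃ t, chk3 f_pp_123 t 2056 75 1 = true :=
  ⟨(b (b (a (l 3) (a (l 3) (a (b (b (c (l 8551941248097939125950251215) (l 8551941248097934315586519247)) (l 3)) (l 3)) (b (a (b (l 5563476622010574500405903567) (c (l 7662171844861568823549558991) (l 7633157625190812638114971855))) (l 144049801455239375)) (b (c (l 7932971228455241841672126671) (b (l 7691186064532311883562598607) (l 8261799051390414586280460495))) (c (l 8900111884146940852108607695) (l 8900111884146929513394569423))))))) (l 3)) (l 3)), by decide +kernel⟩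

def k19_pp_123 : ∃ t, chk3 f_pp_123 t 2057 75 1 = true :=
  ⟨(a (b (b (b (l 144054749260153039) (b (l 144047808590823631) (a (c (l 5805261785933492913639719119) (b (l 144039356093939919) (l 6047046949856412082791219407))) (l 144045265968693455)))) (b (a (b (a (c (l 7314001208812543389162717391) (a (l 8203770612048904689310040271) (l 5679533500693559453559832783))) (l 144035232923664591)) (a (c (l 8281141864504234977895858383) (b (c (l 8107056546479727552104841423) (l 8097385139922807701208531151)) (l 8677669533337824482386542799))) (l 144022451098157263))) (l 144029804084199631)) (a (a (b (c (l 9238611113638998194517508303) (l 9257953926752826351437398223)) (l 3)) (a (b (c (l 6830430880966666430509777103) (b (l 6453246025246899928978571471) (l 7613814812076937202187043023))) (c (l 8755040785793142538903617743) (l 8764712192350054074742702287))) (b (l 144008982080536783) (c (l 6346860553120801222888849615) (b (l 143995925378613455) (l 6985173385877316424881864911)))))) (l 144002797326827727))))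 (b (b (a (b (c (l 8880769071033040127413354703) (b (a (l 3) (l 8522927028427118000598761679)) (l 9151568454626711633708499151))) (l 3)) (a (a (b (c (l 5853618818718018775711809743) (l 5708547720364257777188503759)) (c (l 7787900130101411505186357455) (b (l 7333344021926308942632386767) (l 8329498897288756441922339023)))) (c (l 143977508556505295) (l 143972079717417167))) (l 143975172094066895))) (a (l 3) (b (a (a (l 3) (c (l 7294658395698628783131377871) (b (l 6704702595726687753010299087) (l 7691186064532218150183108815)))) (l 143953937773363407)) (a (c (l 8977483136602168061467656399) (b (l 8929126103817591484414427343) (l 3))) (c (b (l 143945828874125519) (l 6511274464588331348295057615)) (b (l 5660190687579634196008730831) (c (l 6472588838360659160255152335) (l 6453246025246822413400031439)))))))) (b (a (l 3) (a (l 3) (a (b (c (l 8329498897288722838093775055) (b (l 8049028107138127014136414415) (l 9035511575943657273870270671))) (l 3)) (b (c (l 5824604599047211188102430927) (b (l 143926037662712015)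 (l 6143761015425464219253522639))) (c (b (l 7430058087495427805714628815) (l 8397198743187123861214298319)) (b (c (l 7410715274381589684470005967) (l 7401043867824669971012534479)) (l 8397198743187118501094588623))))))) (l 3)))) (b (l 143857318198952143) (b (l 143962321550246095) (a (b (b (l 143925762784592079) (c (l 143913805594214607) (l 143908376755077327))) (a (a (b (c (b (l 6801416661295805997617201359) (l 7778228723544419017794961615)) (b (c (l 6772402441625050842974896335) (l 6753059628511214096119677135)) (c (l 7758885910430580896550289615) (l 7749214503873661183092801743)))) (c (l 8861426257919115694494318799) (b (l 8745369379236109644455411919) (l 3)))) (b (l 143896075967299791) (c (b (l 5960004290844009317332451535) (l 7149587297344796934819512527)) (b (l 5795590379376414458172211407) (c (l 7120573077674041848896700623) (l 7101230264560205102041563343)))))) (l 143888997860311247))) (l 143904734622138575))))), by decide +kernel⟩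

def k20_pp_123 : ∃ t, chk3 f_pp_123 t 1029 75 1 = true :=
  ⟨(a (a (b (l 143862403440148687) (l 143755407202386127)) (b (l 16752160) (l 143938132290945231))) (b (l 16757576) (l 16751368))), by decide +kernel⟩

def k21_pp_123 : ∃ t, chk3 f_pp_123 t 515 75 1 = true :=
  ⟨(a (a (l 16733808) (l 143839176252489935)) (l 16735208)), by decide +kernel⟩

def k22_pp_123 : ∃ t, chk3 f_pp_123 t 129 18 1 = true :=
  ⟨(b (b (a (l 16780784) (l 16775960)) (l 16765072)) (b (l 594405542660259963872463) (l 16743808))), by decide +kernel⟩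

def k23_pp_123 : ∃ t, chk3 f_pp_123 t 65 18 1 = true :=
  ⟨(b (a (l 16754880) (l 16773152)) (l 16761264)), by decide +kernel⟩

def k24_pp_123 : ∃ t, chk3 f_pp_123 t 33 18 1 = true :=
  ⟨(a (l 16677360) (l 16602688)), by decide +kernel⟩

def k25_pp_123 : ∃ t, chk3 f_pp_123 t 17 18 1 = true :=
  ⟨(a (l 16553544) (l 16484912)), by decide +kernel⟩

def k26_pp_123 : ∃ t, chk3 f_pp_123 t 9 18 1 = true :=
  ⟨(a (l 16338784) (l 16069280)), by decide +kernel⟩

def k27_pp_123 : ∃ t, chk3 f_pp_123 t 256 38 1 = true :=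
  ⟨(l 3), by decide +kernel⟩

def k28_pp_123 : ∃ t, chk3 f_pp_123 t 514 152 1 = true :=
  ⟨(a (a (l 3) (a (l 3) (a (b (a (b (b (c (b (c (l 8600298280882345897152463055) (l 8600298280882343285812101327)) (l 9151568454626608073443885263)) (b (c (l 8600298280882340605752246479) (l 8600298280882337994411884751)) (l 9170911267740436848838967503))) (l 3)) (l 3)) (a (b (b (c (l 5795590379376401126591545551) (b (l 143867351222747343) (l 6124418202311571122420777167))) (c (b (c (l 7488086526836871869416603855) (l 7478415120279952155959034063)) (l 8455227182528566275648422095)) (b (c (l 7468743713723032511221006543) (l 7449400900609195764365934799)) (l 8455227182528560984248189135)))) (l 3)) (b (b (l 143866457869353167) (c (l 143853744764666063) (l 143848453364433103))) (b (c (b (l 6859445100637248137173336271) (c (l 7826585756328945086026367183) (l 7816914349772025441288421583))) (b (c (l 6830430880966493051250507983) (l 6811088067852656373114831055)) (c (l 7807242943215105727830982863) (l 7797571536658186083093037263))))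 (c (l 8890440477589805909224292559) (l 8890440477589800686543601871)))))) (l 3)) (b (b (l 143859517201285327) (a (a (b (l 143835877697306831) (c (b (l 6105075389197704138992419023) (c (l 7197944330129322384575922383) (l 7178601517015485706440196303))) (b (l 6066389762970030782721294543) (c (l 7168930110458566061702103247) (l 7149587297344729383566508239))))) (l 143828387274784975)) (l 143828799591612623))) (b (a (a (b (c (b (c (l 8155413579264103536981934287) (l 8155413579264100925641490639)) (l 9112882828398889087434834127)) (b (c (l 8145742172707181280903463119) (l 8145742172707178669563101391)) (l 9122554234955800829432234191))) (l 3)) (b (c (b (l 143813887463391439) (l 6298503520336032368718790863)) (b (l 143808664782602447) (l 6221132267880690810137264335))) (c (b (c (l 7526772153064497671804256463) (l 7517100746507577958346817743)) (l 8484241402199283359696093391)) (b (c (l 7507429339950658244889264335) (l 7488086526836821498034143439)) (l 8484241402199277999576350927))))) (b (l 143811963317600463)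 (c (l 143815742888575183) (l 143810314049355983)))) (a (l 3) (a (b (c (b (l 6888459320307973604997873871) (l 7855599975999677631957336271)) (b (l 6849773694080299973848596687) (l 7836257162885838067603308751))) (c (l 8909783290703635440531751119) (l 8909783290703629805534150863))) (b (l 143814368498237647) (c (b (l 5969675697400856944049094863) (l 7217287143243154870820946127)) (b (l 5969675697400851309051478223) (l 7188272923572398066910871759))))))))))) (a (b (l 143846872815616207) (b (l 143815124413104335) (a (b (l 143815674168213711) (l 143816842398810319)) (l 143818491666350287)))) (l 143656725999468751))), by decide +kernel⟩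

def k29_pp_123 : ∃ t, chk3 f_pp_123 t 514 153 1 = true :=
  ⟨(a (b (a (l 3) (b (a (l 3) (b (a (l 3) (a (l 3) (a (l 3) (c (l 8406870149743951078242959567) (l 8406870149743945305806340303))))) (l 3))) (l 3))) (l 3)) (b (a (a (a (b (a (b (c (l 5901975851502439565690618063) (l 5834276005604014559470502095)) (a (c (b (l 7546114966178336067924525263) (l 8513255621870040094884004047)) (b (l 7526772153064496091253670095) (l 8513255621870034116288970959))) (c (l 143821240444584143) (l 143815330569027791)))) (l 143818148068098255)) (a (a (l 3) (b (c (l 7410715274381499249624039631) (l 7391372461267659135514247375)) (c (l 8919454697260557834046537935) (l 8929126103817468682690674895)))) (b (l 143819728615276751) (c (l 6221132267880705584821616847) (l 6143761015425363132886909135))))) (l 143820072212873423)) (l 143821721480200399)) (l 143825638490243279)) (a (a (a (a (l 3) (b (b (c (b (l 7159258703901658649027117263) (l 7710528877645930171168178383)) (b (l 7120573077673984261963579599) (l 7691186064532089782180446415)))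 (c (l 8406870149743957537871167695) (l 8397198743187034044842131663))) (l 3))) (b (c (l 5486105369555013383061291215) (l 5428076930213504791763583183)) (a (b (c (l 6801416661295731162091733199) (l 6762731035068056431430877391)) (c (l 7768557316987435601367859407) (l 7749214503873594800063283407))) (l 143825020012544207)))) (l 143825569768800463)) (l 143829555498336463)))), by decide +kernel⟩

def k30_pp_123 : ∃ t, chk3 f_pp_123 t 515 76 1 = true :=
  ⟨(b (a (l 143850171348680911) (l 143871268229677263)) (a (l 16739920) (l 16743272))), by decide +kernel⟩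

def k31_pp_123 : ∃ t, chk3 f_pp_123 t 257 77 1 = true :=
  ⟨(a (a (l 3) (b (b (a (a (a (l 3) (b (a (b (c (l 8726026566122223075965829327) (l 8726026566122216204017582287)) (l 3)) (b (c (l 5882633038388615257056706767) (l 5834276005604023218120196303)) (c (l 7120573077673996494027981007) (l 7091558858003238384447881423)))) (b (c (l 8561612654654636738020196559) (l 8561612654654630003510935759)) (l 9103211421841989233898635471)))) (b (l 143828043668373711) (b (l 143829143179198671) (c (l 5582819435124191001298616527) (l 5544133808896515652162502863))))) (l 143832579153150159)) (a (a (l 3) (a (a (b (b (c (l 7439729494052261482366812367) (l 7420386680938420062586929359)) (c (l 8406870149743965784203968719) (l 8406870149743958293780463823))) (l 3)) (b (b (l 143830242689777871) (l 143830861164527823)) (b (c (l 6801416661295739064827232463) (l 6762731035068063372093620303)) (c (l 7758885910430526195827802319) (l 7749214503873601397128659023))))) (b (l 143831410920570959) (l 143832579150594127))))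 (l 143834709454717007))) (a (a (l 3) (a (b (b (b (l 8919454697260570203545452623) (l 3)) (l 3)) (l 3)) (b (b (b (l 5679533500693361266553372751) (c (l 6511274464588230674236227663) (l 6462917431803637535788056655))) (b (c (l 7062544638332502265096470607) (l 7033530418661742987285266511)) (c (l 7623486218633690820634935375) (l 7604143405519848507501838415)))) (b (a (l 3) (b (l 7410715274381512443753791567) (l 8387527336630133435391148111))) (l 3))))) (a (b (l 143835740244787279) (a (b (l 143836427437965391) (a (b (l 6762731035068072305621762127) (l 7729871690759776126422515791)) (l 143837320790048847))) (l 143837870546370639))) (l 143838695181041743))))) (a (a (b (l 143838626465841231) (l 143842612180385871)) (l 143849140543979599)) (b (l 16740984) (l 16738576)))), by decide +kernel⟩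

def k32_pp_123 : ∃ t, chk3 f_pp_123 t 129 38 1 = true :=
  ⟨(b (l 598887525057041674674191) (a (a (b (l 16743128) (l 143899580642131983)) (l 16745840)) (l 16734504))), by decide +kernel⟩

def k33_pp_123 : ∃ t, chk3 f_pp_123 t 65 38 1 = true :=
  ⟨(b (l 16675640) (l 16569944)), by decide +kernel⟩

def k34_pp_123 : ∃ t, chk3 f_pp_123 t 32 39 1 = true :=
  ⟨(a (a (a (l 3) (a (a (l 3) (a (b (l 3) (l 3)) (b (b (a (a (b (b (a (l 8803397818577558587222622287) (b (l 143837733106090127) (l 7072216044889418748734406799))) (b (l 8532598434983883026478317711) (l 9083868608728154411180163215))) (l 3)) (b (b (l 143838695178436751) (l 5689204907250284003660628111)) (b (c (l 7014187605547922733098565775) (l 6985173385877162218336698383)) (b (l 7778228723544364042185064463) (l 8339170303845542427240857615))))) (b (l 143840481884176527) (l 143841031632420879))) (a (b (b (l 9006497356272817388081283087) (l 3)) (l 3)) (a (b (b (l 6008361323628547617607974927) (b (l 7004516198990948387654172687) (l 7565457779291985622904750095)))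 (b (l 8271470457947111167544999951) (l 3))) (b (l 143818766525054991) (b (l 143372021129854991) (b (l 6240475080993869361790894095) (l 6830430880965664569155289103))))))) (a (l 3) (a (l 3) (b (b (b (l 7671843251417233444321525775) (l 8667998126779409158029836303)) (l 3)) (l 3))))))) (a (a (b (b (b (l 143844261455282319) (l 143844398891958287)) (b (l 143711839004065807) (l 143128547979870223))) (b (a (b (l 142602843930361871) (b (l 6501603058029670420480606223) (l 7091558858001343994350010383))) (l 142261651623591951)) (a (b (l 7923299821895820463969501199) (l 8900111884143941452602261519)) (l 141232714711253007)))) (b (b (l 143849552853762063) (l 143258221656293391)) (b (l 142165994094739471) (l 141154649371557903)))) (b (l 143586838254157839) (b (l 141981757144629263) (l 141004634726842383)))))) (a (a (a (b (l 143287290001506319) (l 141282536341635087)) (b (l 16666352) (l 141099124025327631))) (l 141704680166359055)) (l 141197942655614991))) (a (l 16443656) (l 16392928))), by decide +kernel⟩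

def k35_pp_123 : ∃ t, chk3 f_pp_123 t 33 19 1 = true :=
  ⟨(b (b (l 16691688) (l 16442592)) (l 16452336)), by decide +kernel⟩

def k36_pp_123 : ∃ t, chk3 f_pp_123 t 17 19 1 = true :=
  ⟨(b (a (l 16426448) (l 16372936)) (a (l 16329512) (l 16288600))), by decide +kernel⟩

def k37_pp_123 : ∃ t, chk3 f_pp_123 t 9 19 1 = true :=
  ⟨(b (a (l 16249416) (l 16020392)) (a (l 16183576) (l 15975408))), by decide +kernel⟩

def k38_pp_123 : ∃ t, chk3 f_pp_123 t 5 9 1 = true :=
  ⟨(b (a (l 15823048) (l 15508488)) (a (b (l 15780784) (l 15745976)) (l 15482376))), by decide +kernel⟩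

def k39_pp_123 : ∃ t, chk3 f_pp_123 t 3 4 1 = true :=
  ⟨(b (a (a (l 15134440) (l 14748568)) (l 14198176)) (a (b (l 14943960) (a (l 15141424) (l 14778744))) (b (l 14227272) (a (l 14421112) (l 14090856))))), by decide +kernel⟩

def k40_pp_123 : ∃ t, chk3 f_pp_123 t 2 5 1 = true :=
  ⟨(b (a (a (a (b (a (a (a (a (l 3) (a (b (l 3) (l 3)) (b (b (b (a (a (a (l 3) (l 140278888286797839)) (l 140214429320232975)) (l 140091627593498639)) (a (a (l 522542306695) (l 16381576)) (l 139236757149204495))) (b (a (l 9451382057885709042841681935) (l 138430333946953743)) (a (l 532205699479) (l 16217728)))) (b (b (l 431273981175) (l 435031952407)) (l 439326810055))))) (b (a (b (a (b (l 139883476261306383) (l 16316864)) (l 16333512)) (a (b (l 138301553624317967) (l 137560963695296527)) (l 16208640))) (b (l 16313360) (l 16199552))) (a (a (a (b (l 16103912) (l 16002376)) (l 16048872)) (b (l 16099104) (l 16003048))) (b (l 16097992) (l 16006368))))) (b (a (l 16234464) (l 16222352)) (l 16065160))) (b (l 16223992) (l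 16108808))) (a (a (a (b (a (l 3) (l 446305689287)) (l 3)) (b (a (b (a (l 15957440) (l 15918704)) (a (l 15840112) (l 15845080))) (a (l 15886576) (l 15894776))) (a (b (l 15777728) (l 15722152)) (b (l 15794400) (l 15740824))))) (b (l 15930288) (l 15820664))) (a (l 15932712) (l 15978872)))) (b (a (b (l 16233480) (l 16142112)) (l 16163920)) (a (l 16017160) (l 16019424)))) (b (a (l 16084704) (l 15909456)) (a (l 15967096) (l 15826936)))) (a (b (l 15692968) (l 15621952)) (b (l 15443088) (l 15402024)))) (a (a (a (a (a (a (b (l 3) (l 3)) (b (b (a (l 15673624) (b (l 15694392) (l 15654264))) (a (l 15582504) (a (l 15596216) (l 15608688)))) (b (a (l 15530912) (l 15551160)) (l 15507384)))) (b (a (a (b (l 15697296) (l 15627288)) (l 15684416)) (l 15718880)) (a (b (a (l 15575904) (l 15601688)) (a (l 15539192) (l 15563320))) (l 15616408)))) (b (a (l 15776640) (l 15834544)) (a (l 15676640) (l 15737360)))) (a (b (l 15886448) (l 15793688)) (b (l 15905744) (l 15825592)))) (a (l 15769248) (l 15730864))) (a (a (l 15580816)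 (l 15473064)) (l 15344200)))), by decide +kernel⟩

def k41_pp_123 : ∃ t, chk3 f_pp_123 t 3 5 1 = true :=
  ⟨(b (a (b (a (l 15132808) (l 14793776)) (l 14974984)) (b (l 14294256) (l 14338576))) (a (a (l 15114656) (l 14841224)) (a (l 14553328) (l 14274192)))), by decide +kernel⟩

def k42_pp_123 : ∃ t, chk3 f_pp_123 t 1 6 1 = true :=
  ⟨(a (a (a (a (b (a (a (b (b (a (l 3) (l 15485264)) (l 15456712)) (b (l 15451432) (l 15454464))) (b (b (a (l 15547040) (l 15572216)) (a (a (l 15497872) (l 15520792)) (l 15554152))) (b (a (a (l 15492024) (l 15512400)) (l 15542896)) (a (l 15499888) (l 15539008))))) (b (a (l 15620136) (l 15679304)) (a (l 15595608) (l 15651528)))) (a (b (a (b (l 15462632) (l 3)) (a (b (l 15505184) (l 15514848)) (b (l 15540840) (l 15546424)))) (a (l 3) (b (a (l 15528224) (l 15557784)) (a (l 15544880) (l 15572712))))) (b (b (l 15621608) (l 15624544)) (a (a (l 15594064) (l 15623560)) (l 15658952))))) (b (b (a (l 15738088) (l 15772512)) (a (l 15707472) (l 15742312))) (b (a (l 15699072) (l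 15732768)) (l 15582680)))) (b (a (b (l 15758728) (l 15736808)) (l 15673304)) (a (b (l 15737272) (l 15749024)) (l 15687496)))) (b (a (a (l 15557120) (l 15420768)) (b (l 15300360) (l 15287488))) (a (b (l 15523536) (l 15564296)) (b (l 15294200) (l 15299432))))) (a (b (a (l 15115792) (l 14892648)) (a (b (l 15132456) (l 15154728)) (l 349532390359))) (b (a (l 14646736) (l 1)) (l 1)))), by decide +kernel⟩

def k43_pp_123 : ∃ t, chk3 f_pp_123 t 1 7 1 = true :=
  ⟨(a (a (a (a (b (a (b (a (l 3) (b (l 15575096) (l 15597232))) (a (l 3) (b (l 15622648) (l 15651760)))) (b (b (l 15649944) (l 15668160)) (a (l 15661048) (l 15727784)))) (a (a (l 3) (a (b (l 15694208) (l 3)) (b (l 15713024) (l 15804424)))) (b (b (l 15746912) (l 15783544)) (b (l 15823360) (l 15875528))))) (b (b (l 15753272) (l 15793368)) (b (l 15748736) (b (l 15915640) (l 15968728))))) (b (a (b (l 15773416) (l 15814936)) (b (l 15737728) (l 15797520))) (b (a (l 15883168) (l 15868264)) (a (l 15977368) (l 1))))) (b (a (b (l 15620368) (l 15694992))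 (b (l 15233264) (l 1))) (a (b (b (l 15764496) (l 1)) (l 1)) (l 1)))) (l 1)), by decide +kernel⟩

theorem s44_pp_123 : ∃ t, chk3 f_pp_123 t 1 3 1 = true := ex3_b k42_pp_123 k43_pp_123

theorem s45_pp_123 : ∃ t, chk3 f_pp_123 t 1 5 1 = true := ex3_a k40_pp_123 k41_pp_123

theorem s46_pp_123 : ∃ t, chk3 f_pp_123 t 514 76 1 = true := ex3_b k28_pp_123 k29_pp_123

theorem s47_pp_123 : ∃ t, chk3 f_pp_123 t 257 76 1 = true := ex3_a s46_pp_123 k30_pp_123

theorem s48_pp_123 : ∃ t, chk3 f_pp_123 t 257 38 1 = true := ex3_b s47_pp_123 k31_pp_123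

theorem s49_pp_123 : ∃ t, chk3 f_pp_123 t 128 38 1 = true := ex3_a k27_pp_123 s48_pp_123

theorem s50_pp_123 : ∃ t, chk3 f_pp_123 t 64 38 1 = true := ex3_a s49_pp_123 k32_pp_123

theorem s51_pp_123 : ∃ t, chk3 f_pp_123 t 32 38 1 = true := ex3_a s50_pp_123 k33_pp_123

theorem s52_pp_123 : ∃ t, chk3 f_pp_123 t 32 19 1 = true := ex3_b s51_pp_123 k34_pp_123

theorem s53_pp_123 : ∃ t, chk3 f_pp_123 t 16 19 1 = true := ex3_a s52_pp_123 k35_pp_123

theorem s54_pp_123 : ∃ t, chk3 f_pp_123 t 8 19 1 = true := ex3_a s53_pp_123 k36_pp_123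

theorem s55_pp_123 : ∃ t, chk3 f_pp_123 t 4 19 1 = true := ex3_a s54_pp_123 k37_pp_123

theorem s56_pp_123 : ∃ t, chk3 f_pp_123 t 1028 75 1 = true := ex3_a k18_pp_123 k19_pp_123

theorem s57_pp_123 : ∃ t, chk3 f_pp_123 t 514 75 1 = true := ex3_a s56_pp_123 k20_pp_123

theorem s58_pp_123 : ∃ t, chk3 f_pp_123 t 257 75 1 = true := ex3_a s57_pp_123 k21_pp_123

theorem s59_pp_123 : ∃ t, chk3 f_pp_123 t 257 37 1 = true := ex3_b k17_pp_123 s58_pp_123

theorem s60_pp_123 : ∃ t, chk3 f_pp_123 t 128 37 1 = true := ex3_a k16_pp_123 s59_pp_123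

theorem s61_pp_123 : ∃ t, chk3 f_pp_123 t 128 18 1 = true := ex3_b k15_pp_123 s60_pp_123

theorem s62_pp_123 : ∃ t, chk3 f_pp_123 t 64 18 1 = true := ex3_a s61_pp_123 k22_pp_123

theorem s63_pp_123 : ∃ t, chk3 f_pp_123 t 32 18 1 = true := ex3_a s62_pp_123 k23_pp_123

theorem s64_pp_123 : ∃ t, chk3 f_pp_123 t 16 18 1 = true := ex3_a s63_pp_123 k24_pp_123

theorem s65_pp_123 : ∃ t, chk3 f_pp_123 t 8 18 1 = true := ex3_a s64_pp_123 k25_pp_123

theorem s66_pp_123 : ∃ t, chk3 f_pp_123 t 4 18 1 = true := ex3_a s65_pp_123 k26_pp_123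

theorem s67_pp_123 : ∃ t, chk3 f_pp_123 t 4 9 1 = true := ex3_b s66_pp_123 s55_pp_123

theorem s68_pp_123 : ∃ t, chk3 f_pp_123 t 2 9 1 = true := ex3_a s67_pp_123 k38_pp_123

theorem s69_pp_123 : ∃ t, chk3 f_pp_123 t 128 17 1 = true := ex3_b k7_pp_123 k8_pp_123

theorem s70_pp_123 : ∃ t, chk3 f_pp_123 t 64 17 1 = true := ex3_a s69_pp_123 k9_pp_123

theorem s71_pp_123 : ∃ t, chk3 f_pp_123 t 512 66 1 = true := ex3_a k1_pp_123 k2_pp_123

theorem s72_pp_123 : ∃ t, chk3 f_pp_123 t 256 66 1 = true := ex3_a s71_pp_123 k3_pp_123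

theorem s73_pp_123 : ∃ t, chk3 f_pp_123 t 256 33 1 = true := ex3_b s72_pp_123 k4_pp_123

theorem s74_pp_123 : ∃ t, chk3 f_pp_123 t 128 33 1 = true := ex3_a s73_pp_123 k5_pp_123

theorem s75_pp_123 : ∃ t, chk3 f_pp_123 t 128 16 1 = true := ex3_b k0_pp_123 s74_pp_123

theorem s76_pp_123 : ∃ t, chk3 f_pp_123 t 64 16 1 = true := ex3_a s75_pp_123 k6_pp_123

theorem s77_pp_123 : ∃ t, chk3 f_pp_123 t 64 8 1 = true := ex3_b s76_pp_123 s70_pp_123

theorem s78_pp_123 : ∃ t, chk3 f_pp_123 t 32 8 1 = true := ex3_a s77_pp_123 k10_pp_123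

theorem s79_pp_123 : ∃ t, chk3 f_pp_123 t 16 8 1 = true := ex3_a s78_pp_123 k11_pp_123

theorem s80_pp_123 : ∃ t, chk3 f_pp_123 t 8 8 1 = true := ex3_a s79_pp_123 k12_pp_123

theorem s81_pp_123 : ∃ t, chk3 f_pp_123 t 4 8 1 = true := ex3_a s80_pp_123 k13_pp_123

theorem s82_pp_123 : ∃ t, chk3 f_pp_123 t 2 8 1 = true := ex3_a s81_pp_123 k14_pp_123

theorem s83_pp_123 : ∃ t, chk3 f_pp_123 t 2 4 1 = true := ex3_b s82_pp_123 s68_pp_123

theorem s84_pp_123 : ∃ t, chk3 f_pp_123 t 1 4 1 = true := ex3_a s83_pp_123 k39_pp_123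

theorem s85_pp_123 : ∃ t, chk3 f_pp_123 t 1 2 1 = true := ex3_b s84_pp_123 s45_pp_123

theorem s86_pp_123 : ∃ t, chk3 f_pp_123 t 1 1 1 = true := ex3_b s85_pp_123 s44_pp_123

theorem c_pp_123 : CertB 536870912 536870912 0 1230186008 1045395039 1503240 3 eng mog cd0q1 cd3q3 pd2 false true true .npn 1 2 3
    ndB0q1 ndB3q3 pcB2 cut_pp_123 xt_pp_123 :=
  certB2 (fam := false) (s1 := true) (s2 := true) (a := 1) (b := 2) (c := 3) (cn := .npn) (n1 := ndB0q1) (n2 := ndB3q3) (pc := pcB2) (cut := cut_pp_123) (xt := xt_pp_123) (P1 := 536870912) (W1 := 536870912) (P2 := 0) (W2 := 1230186008) (P3 := 1045395039) (W3 := 1503240) (N0 := 3) (En := eng) (mo := mog) (C1 := cd0q1) (C2 := cd3q3) (C3 := pd2)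
    rfl (fun _ => rfl) s86_pp_123

noncomputable def f_pp_133 : ℕ → ℕ → ℕ → ℕ → Bool := onCell 536870912 536870912 0 1230186008 1045395039 1503240
    (rowB 3 eng mog cd0q1 cd3q3 pd3 0 false true true .dn 1 3 3 (qsf 536870912 536870912 0 1230186008 3) ndB0q1 ndB3q3 pcB3 Cut.none Ext.none)

def k0_pp_133 : ∃ t, chk3 f_pp_133 t 1 1 1 = true :=
  ⟨(b (b (a (b (a (l 16369600) (l 1)) (l 1)) (l 1)) (l 1)) (l 1)), by decide +kernel⟩

theorem c_pp_133 : CertB 536870912 536870912 0 1230186008 1045395039 1503240 3 eng mog cd0q1 cd3q3 pd3 false true true .dn 1 3 3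
    ndB0q1 ndB3q3 pcB3 Cut.none Ext.none :=
  certB0 (fam := false) (s1 := true) (s2 := true) (a := 1) (b := 3) (c := 3) (cn := .dn) (n1 := ndB0q1) (n2 := ndB3q3) (pc := pcB3) (cut := Cut.none) (xt := Ext.none) (P1 := 536870912) (W1 := 536870912) (P2 := 0) (W2 := 1230186008) (P3 := 1045395039) (W3 := 1503240) (N0 := 3) (En := eng) (mo := mog) (C1 := cd0q1) (C2 := cd3q3) (C3 := pd3)
    rfl k0_pp_133

noncomputable def f_pp_202 : ℕ → ℕ → ℕ → ℕ → Bool := onCell 0 536870912 1073741824 536870912 1045395039 1503240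
    (rowB 3 eng mog cd0q2 cd3q2 pd0 0 false true true .pp 2 0 2 (qsf 0 536870912 1073741824 536870912 0) ndB0q2 ndB3q2 pcB0 Cut.none Ext.none)

def k0_pp_202 : ∃ t, chk3 f_pp_202 t 1 1 1 = true :=
  ⟨(l 3), by decide +kernel⟩

theorem c_pp_202 : CertB 0 536870912 1073741824 536870912 1045395039 1503240 3 eng mog cd0q2 cd3q2 pd0 false true true .pp 2 0 2
    ndB0q2 ndB3q2 pcB0 Cut.none Ext.none :=
  certB0 (fam := false) (s1 := true) (s2 := true) (a := 2) (b := 0) (c := 2) (cn := .pp) (n1 := ndB0q2) (n2 := ndB3q2) (pc := pcB0) (cut := Cut.none) (xt := Ext.none) (P1 := 0) (W1 := 536870912) (P2 := 1073741824) (W2 := 536870912) (P3 := 1045395039) (W3 := 1503240) (N0 := 3) (En := eng) (mo := mog) (C1 := cd0q2) (C2 := cd3q2) (C3 := pd0)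
    rfl k0_pp_202

noncomputable def f_pp_203 : ℕ → ℕ → ℕ → ℕ → Bool := onCell 0 536870912 0 1230186008 1045395039 1503240
    (rowB 3 eng mog cd0q2 cd3q3 pd0 0 false true true .up 2 0 3 (qsf 0 536870912 0 1230186008 0) ndB0q2 ndB3q3 pcB0 Cut.none Ext.none)

def k0_pp_203 : ∃ t, chk3 f_pp_203 t 1 1 1 = true :=
  ⟨(b (l 2) (l 3)), by decide +kernel⟩

theorem c_pp_203 : CertB 0 536870912 0 1230186008 1045395039 1503240 3 eng mog cd0q2 cd3q3 pd0 false true true .up 2 0 3
    ndB0q2 ndB3q3 pcB0 Cut.none Ext.none :=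
  certB0 (fam := false) (s1 := true) (s2 := true) (a := 2) (b := 0) (c := 3) (cn := .up) (n1 := ndB0q2) (n2 := ndB3q3) (pc := pcB0) (cut := Cut.none) (xt := Ext.none) (P1 := 0) (W1 := 536870912) (P2 := 0) (W2 := 1230186008) (P3 := 1045395039) (W3 := 1503240) (N0 := 3) (En := eng) (mo := mog) (C1 := cd0q2) (C2 := cd3q3) (C3 := pd0)
    rfl k0_pp_203

noncomputable def cut_pp_213 : Cut := Cut.of [[⟨0, 1, 0, 14155776⟩, ⟨1, 1, 0, 14155776⟩, ⟨2, 2, 0, 524288⟩]]

noncomputable def f_pp_213 : ℕ → ℕ → ℕ → ℕ → Bool := onCell 0 536870912 0 1230186008 1045395039 1503240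
    (rowB 3 eng mog cd0q2 cd3q3 pd1 0 false true true .pnn 2 1 3 (qsf 0 536870912 0 1230186008 1) ndB0q2 ndB3q3 pcB1 cut_pp_213 Ext.none)

def k0_pp_213 : ∃ t, chk3 f_pp_213 t 1 1 1 = true :=
  ⟨(b (b (a (l 3) (b (a (l 3) (a (l 3) (a (l 3) (a (l 3) (b (b (b (l 6) (l 3)) (l 3)) (l 3)))))) (l 3))) (l 3)) (l 3)), by decide +kernel⟩

theorem c_pp_213 : CertB 0 536870912 0 1230186008 1045395039 1503240 3 eng mog cd0q2 cd3q3 pd1 false true true .pnn 2 1 3
    ndB0q2 ndB3q3 pcB1 cut_pp_213 Ext.none :=
  certB0 (fam := false) (s1 := true) (s2 := true) (a := 2) (b := 1) (c := 3) (cn := .pnn) (n1 := ndB0q2) (n2 := ndB3q3) (pc := pcB1) (cut := cut_pp_213) (xt := Ext.none) (P1 := 0) (W1 := 536870912) (P2 := 0) (W2 := 1230186008) (P3 := 1045395039) (W3 := 1503240) (N0 := 3) (En := eng) (mo := mog) (C1 := cd0q2) (C2 := cd3q3) (C3 := pd1)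
    rfl k0_pp_213

noncomputable def f_pm_001 : ℕ → ℕ → ℕ → ℕ → Bool := onCell 0 536870912 536870912 536870912 1045395039 1503240
    (rowB 3 eng mog cd0q0 cd3q1 pd0 0 false true false .up 0 0 1 (qsf 0 536870912 536870912 536870912 0) ndB0q0 ndB3q1 pcB0 Cut.none Ext.none)

def k0_pm_001 : ∃ t, chk3 f_pm_001 t 1 1 1 = true :=
  ⟨(l 4), by decide +kernel⟩

theorem c_pm_001 : CertB 0 536870912 536870912 536870912 1045395039 1503240 3 eng mog cd0q0 cd3q1 pd0 false true false .up 0 0 1
    ndB0q0 ndB3q1 pcB0 Cut.none Ext.none :=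
  certB0 (fam := false) (s1 := true) (s2 := false) (a := 0) (b := 0) (c := 1) (cn := .up) (n1 := ndB0q0) (n2 := ndB3q1) (pc := pcB0) (cut := Cut.none) (xt := Ext.none) (P1 := 0) (W1 := 536870912) (P2 := 536870912) (W2 := 536870912) (P3 := 1045395039) (W3 := 1503240) (N0 := 3) (En := eng) (mo := mog) (C1 := cd0q0) (C2 := cd3q1) (C3 := pd0)
    rfl k0_pm_001

noncomputable def f_pm_011 : ℕ → ℕ → ℕ → ℕ → Bool := onCell 0 536870912 536870912 536870912 1045395039 1503240
    (rowB 3 eng mog cd0q0 cd3q1 pd1 0 false true false .pnn 0 1 1 (qsf 0 536870912 536870912 536870912 1) ndB0q0 ndB3q1 pcB1 Cut.none Ext.none)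

def k0_pm_011 : ∃ t, chk3 f_pm_011 t 1 1 1 = true :=
  ⟨(l 4), by decide +kernel⟩

theorem c_pm_011 : CertB 0 536870912 536870912 536870912 1045395039 1503240 3 eng mog cd0q0 cd3q1 pd1 false true false .pnn 0 1 1
    ndB0q0 ndB3q1 pcB1 Cut.none Ext.none :=
  certB0 (fam := false) (s1 := true) (s2 := false) (a := 0) (b := 1) (c := 1) (cn := .pnn) (n1 := ndB0q0) (n2 := ndB3q1) (pc := pcB1) (cut := Cut.none) (xt := Ext.none) (P1 := 0) (W1 := 536870912) (P2 := 536870912) (W2 := 536870912) (P3 := 1045395039) (W3 := 1503240) (N0 := 3) (En := eng) (mo := mog) (C1 := cd0q0) (C2 := cd3q1) (C3 := pd1)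
    rfl k0_pm_011

end Pool.Agent.Strip051.G.I9736_9750.Tab.C.BB03

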