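import Pool.Agent.Strip051.G.I9736_9750.Tab
import Pool.Agent.Strip051.PB.ExtD3

/-! # Certificates B14 (generated) -/

set_option linter.all false
set_option maxRecDepth 100000

namespace Pool.Agent.Strip051.G.I9736_9750.Tab.C.BB03

open Pool.Agent.Strip051.PB Pool.Agent.Strip051.PB.T
open Pool.Agent.Strip051.G.I9736_9750.Tab

noncomputable def f_pm_012 : ℕ → ℕ → ℕ → ℕ → Bool := onCell 0 536870912 1073741824 536870912 1045395039 1503240
    (rowB 3 eng mog cd0q0 cd3q2 pd1 0 false true false .pnp 0 1 2 (qsf 0 536870912 1073741824 536870912 1) ndB0q0 ndB3q2 pcB1 Cut.none Ext.none)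

def k0_pm_012 : ∃ t, chk3 f_pm_012 t 2 1 1 = true :=
  ⟨(b (a (b (a (l 4) (b (b (a (b (a (b (a (l 4) (l 16603568)) (l 134988974871)) (b (l 16587856) (l 16553576))) (a (l 4) (b (l 16518608) (l 16482944)))) (b (a (b (l 16572016) (l 16538024)) (l 16541504)) (a (a (l 16492736) (l 16484968)) (l 16473096)))) (a (l 4) (a (b (l 16419576) (a (l 4) (b (l 16363048) (l 4)))) (b (l 16362576) (l 16337856))))) (b (a (l 4) (b (a (l 4) (b (l 78616902919) (l 4))) (l 4))) (l 4)))) (l 4)) (b (a (b (b (a (b (l 16518696) (l 16452600)) (l 16459240)) (a (a (b (l 16391768) (l 16323136)) (b (l 16378840) (l 16310848))) (l 16328520))) (b (b (a (a (l 16256424) (l 16243944)) (l 16226744)) (a (a (a (l 16161376) (l 16181856)) (l 16170840)) (l 16099032))) (a (a (l 4) (b (b (l 16122128) (l 16082056)) (b (l 16042056) (l 16001672)))) (a (b (l 16093344) (a (l 16023120) (l 16018864))) (l 16010256))))) (b (a (b (l 16434976) (l 16308608)) (b (l 16412512) (l 16290640))) (a (b (l 16176616) (l 16039088)) (b (l 16163040)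 (l 16030056))))) (b (a (a (l 4) (b (a (b (b (l 15963568) (l 15923024)) (l 15861736)) (b (a (l 15940968) (l 15942160)) (a (l 15865104) (l 15775584)))) (a (l 4) (l 15721552)))) (a (b (a (l 15897496) (l 15894432)) (a (b (a (l 15784256) (l 15785440)) (l 15707584)) (b (l 15784496) (l 15703840)))) (b (b (a (l 15927328) (l 15919952)) (a (l 15842664) (l 15843384))) (a (b (l 15774816) (l 15699888)) (l 15731480))))) (a (l 4) (a (a (b (b (l 15630944) (l 4)) (l 2)) (b (b (l 15627224) (l 15564392)) (l 15484624))) (b (l 15598192) (l 15507448))))))) (a (l 2) (b (a (l 2) (b (a (l 2) (l 15215576)) (l 2))) (l 2)))), by decide +kernel⟩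

def k1_pm_012 : ∃ t, chk3 f_pm_012 t 3 2 1 = true :=
  ⟨(a (b (a (b (a (b (l 16391256) (l 16274000)) (b (l 16370592) (a (l 16261848) (l 16252600)))) (a (b (a (l 16153656) (l 16145160)) (b (a (l 16054512) (l 16046184)) (a (l 15984576) (l 15966168)))) (b (a (l 16073608) (l 16062744)) (b (l 16016976) (l 15933328))))) (b (b (a (l 16349936) (a (l 16333928) (l 16278120))) (a (b (l 16266368) (l 16185920)) (b (l 16222704) (l 16172792)))) (b (a (b (l 16136896) (l 16057824)) (l 16060376)) (a (b (l 15977904) (l 15908824)) (b (l 15950200) (l 15906768)))))) (a (b (b (a (b (a (l 15906080) (l 15881872)) (a (l 15818872) (l 15807680))) (b (l 15863080) (a (l 15808080) (l 15814384)))) (a (a (l 15634328) (l 15734376)) (l 15750808))) (a (l 15590136) (l 15624080))) (b (a (b (b (l 15864400) (l 15827840)) (l 15774792)) (l 15831128)) (a (l 15660736) (l 15699304))))) (b (b (a (b (a (b (l 16306232) (l 16232912)) (b (l 16256816) (l 16237472))) (a (l 16151664) (l 16136400))) (b (a (b (l 16262168) (l 16198960))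 (l 16169480)) (a (l 16100144) (l 16063320)))) (a (a (b (b (l 16062624) (l 15988816)) (b (l 15942224) (l 15915872))) (b (b (l 16028016) (l 15971616)) (l 15935976))) (b (a (l 15944400) (l 15974192)) (l 15947136)))) (a (b (a (l 15853096) (l 15875104)) (a (l 15739032) (l 15779160))) (b (a (l 15896440) (l 15916400)) (a (l 15818944) (l 15857656)))))), by decide +kernel⟩

def k2_pm_012 : ∃ t, chk3 f_pm_012 t 3 3 1 = true :=
  ⟨(b (a (a (b (a (b (l 15440760) (l 15334328)) (l 15438056)) (a (l 2) (l 15229416))) (b (a (l 15491728) (l 15547832)) (a (l 15300656) (l 15374696)))) (a (b (a (l 15605568) (l 15664144)) (a (l 15450808) (l 15528224))) (b (a (l 15722800) (l 15780776)) (a (l 15606168) (l 15683888))))) (a (a (l 2) (b (a (l 2) (l 15175872)) (l 2))) (a (b (a (l 15271640) (l 15368744)) (a (l 2) (l 15180192))) (b (a (l 15466680) (l 15564768)) (a (l 15300240) (l 15420088)))))), by decide +kernel⟩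

theorem s3_pm_012 : ∃ t, chk3 f_pm_012 t 3 1 1 = true := ex3_b k1_pm_012 k2_pm_012

theorem s4_pm_012 : ∃ t, chk3 f_pm_012 t 1 1 1 = true := ex3_a k0_pm_012 s3_pm_012

theorem c_pm_012 : CertB 0 536870912 1073741824 536870912 1045395039 1503240 3 eng mog cd0q0 cd3q2 pd1 false true false .pnp 0 1 2
    ndB0q0 ndB3q2 pcB1 Cut.none Ext.none :=
  certB0 (fam := false) (s1 := true) (s2 := false) (a := 0) (b := 1) (c := 2) (cn := .pnp) (n1 := ndB0q0) (n2 := ndB3q2) (pc := pcB1) (cut := Cut.none) (xt := Ext.none) (P1 := 0) (W1 := 536870912) (P2 := 1073741824) (W2 := 536870912) (P3 := 1045395039) (W3 := 1503240) (N0 := 3) (En := eng) (mo := mog) (C1 := cd0q0) (C2 := cd3q2) (C3 := pd1)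
    rfl s4_pm_012

noncomputable def f_pm_022 : ℕ → ℕ → ℕ → ℕ → Bool := onCell 0 536870912 1073741824 536870912 1045395039 1503240
    (rowB 3 eng mog cd0q0 cd3q2 pd2 1 false true false .pp 0 2 2 (qsf 0 536870912 1073741824 536870912 2) ndB0q0 ndB3q2 pcB2 Cut.none Ext.none)

def k0_pm_022 : ∃ t, chk3 f_pm_022 t 1 1 1 = true :=
  ⟨(b (a (b (a (l 4) (a (l 4) (b (b (a (b (l 15626992) (l 4)) (l 15561304)) (b (l 61972388391) (l 15736184))) (b (l 4) (l 4))))) (l 4)) (b (b (a (b (a (a (l 15530264) (l 15524328)) (a (l 15537760) (l 15570584))) (a (b (l 15550064) (l 15568832)) (b (l 15541736) (l 15536104)))) (a (b (a (l 15622904) (l 15694888)) (b (l 15601544) (l 15565672))) (b (a (l 15723880) (l 15731232)) (a (l 15656352) (l 15666296))))) (a (a (b (a (l 15630488) (l 15572744)) (a (l 15699512) (l 15610416))) (b (l 15528312) (l 15526952))) (a (b (l 15513032) (l 15451016)) (b (l 23720187287) (l 2))))) (a (b (a (b (l 15612984) (l 15784008)) (b (l 15539792) (l 15569488))) (a (b (l 15848248)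 (l 4)) (b (l 15612472) (l 2)))) (b (a (b (l 15401848) (l 2)) (l 2)) (l 2))))) (a (l 4) (a (a (a (l 4) (l 2)) (l 2)) (l 2)))), by decide +kernel⟩

theorem c_pm_022 : CertB 0 536870912 1073741824 536870912 1045395039 1503240 3 eng mog cd0q0 cd3q2 pd2 false true false .pp 0 2 2
    ndB0q0 ndB3q2 pcB2 Cut.none Ext.none :=
  certB1 (fam := false) (s1 := true) (s2 := false) (a := 0) (b := 2) (c := 2) (cn := .pp) (n1 := ndB0q0) (n2 := ndB3q2) (pc := pcB2) (cut := Cut.none) (xt := Ext.none) (P1 := 0) (W1 := 536870912) (P2 := 1073741824) (W2 := 536870912) (P3 := 1045395039) (W3 := 1503240) (N0 := 3) (En := eng) (mo := mog) (C1 := cd0q0) (C2 := cd3q2) (C3 := pd2)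
    rfl (fun _ => rfl) k0_pm_022

noncomputable def f_pm_023 : ℕ → ℕ → ℕ → ℕ → Bool := onCell 0 536870912 0 1230186008 1045395039 1503240
    (rowB 3 eng mog cd0q0 cd3q3 pd2 0 false true false .up 0 2 3 (qsf 0 536870912 0 1230186008 2) ndB0q0 ndB3q3 pcB2 Cut.none Ext.none)

def k0_pm_023 : ∃ t, chk3 f_pm_023 t 1 1 1 = true :=
  ⟨(a (b (l 2) (b (l 4) (l 4))) (a (b (l 2) (a (b (l 4) (b (l 4) (b (l 4) (a (l 4) (b (l 4) (l 15438536)))))) (b (b (a (l 4) (b (l 15818016) (l 15797408))) (b (a (l 4) (l 15758856)) (a (l 4) (l 15700016)))) (b (b (a (l 15822800) (l 15618104)) (a (a (l 4) (l 15704528)) (l 15490632))) (b (a (b (l 15647408) (l 15570344)) (b (l 15421320) (l 15358360))) (a (b (l 15482496) (l 15323096)) (b (l 15295248) (l 15241072)))))))) (a (b (b (l 2) (b (b (l 2) (l 15121424)) (a (l 15387184) (l 14953176)))) (b (b (b (l 15204272) (l 15215272)) (b (a (l 15390704) (l 15049944)) (a (l 15360360) (l 15062352)))) (b (b (a (l 15316352) (l 15071152)) (a (l 15262880) (l 15082520)))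 (b (a (b (l 15223016) (l 15197416)) (b (l 15098648) (l 15119472))) (a (b (l 15181032) (l 15176600)) (b (l 15152120) (l 15159776))))))) (b (b (b (a (l 2) (l 13875176)) (b (l 14088624) (l 14145024))) (b (b (l 14194560) (l 14261480)) (a (l 14551824) (l 14197256)))) (b (b (b (l 14483680) (l 14563232)) (b (l 14437112) (a (l 14827064) (l 14666312)))) (b (b (a (l 14896800) (l 14804376)) (a (b (l 14958120) (l 15005168)) (b (l 14923800) (l 15016288)))) (b (a (b (l 15062328) (l 15131712)) (b (l 15121656) (l 15222576))) (a (b (l 15217728) (a (l 15281192) (b (l 15334168) (l 15393032)))) (b (a (l 15331320) (b (l 15399536) (l 15480536))) (a (b (l 15433240) (l 15506720)) (b (l 15560608) (l 15648792)))))))))))), by decide +kernel⟩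

theorem c_pm_023 : CertB 0 536870912 0 1230186008 1045395039 1503240 3 eng mog cd0q0 cd3q3 pd2 false true false .up 0 2 3
    ndB0q0 ndB3q3 pcB2 Cut.none Ext.none :=
  certB0 (fam := false) (s1 := true) (s2 := false) (a := 0) (b := 2) (c := 3) (cn := .up) (n1 := ndB0q0) (n2 := ndB3q3) (pc := pcB2) (cut := Cut.none) (xt := Ext.none) (P1 := 0) (W1 := 536870912) (P2 := 0) (W2 := 1230186008) (P3 := 1045395039) (W3 := 1503240) (N0 := 3) (En := eng) (mo := mog) (C1 := cd0q0) (C2 := cd3q3) (C3 := pd2)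
    rfl k0_pm_023

noncomputable def f_pm_033 : ℕ → ℕ → ℕ → ℕ → Bool := onCell 1610612736 536870912 0 1230186008 1045395039 1503240
    (rowB 3 eng mog cd0q0 cd3q3 pd3 2 false true false .pnn 0 3 3 (qsf 0 536870912 0 1230186008 3) ndB0q0 ndB3q3 pcB3 Cut.none Ext.none)

def k0_pm_033 : ∃ t, chk3 f_pm_033 t 1 1 1 = true :=
  ⟨(a (b (b (b (a (l 16182768) (l 16067944)) (a (b (l 16157624) (a (l 16152496) (l 16083536))) (b (l 16045072) (a (l 16021432) (l 4))))) (b (a (a (l 15860416) (b (l 16053824) (l 16021752))) (b (l 15969760) (l 4))) (a (a (l 16007960) (l 15974408)) (l 4)))) (b (a (b (a (l 15956320) (l 4)) (l 4)) (l 4)) (l 4))) (b (l 4) (l 4))), by decide +kernel⟩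

theorem c_pm_033 : CertB 0 536870912 0 1230186008 1045395039 1503240 3 eng mog cd0q0 cd3q3 pd3 false true false .pnn 0 3 3
    ndB0q0 ndB3q3 pcB3 Cut.none Ext.none :=
  certB2 (fam := false) (s1 := true) (s2 := false) (a := 0) (b := 3) (c := 3) (cn := .pnn) (n1 := ndB0q0) (n2 := ndB3q3) (pc := pcB3) (cut := Cut.none) (xt := Ext.none) (P1 := 0) (W1 := 536870912) (P2 := 0) (W2 := 1230186008) (P3 := 1045395039) (W3 := 1503240) (N0 := 3) (En := eng) (mo := mog) (C1 := cd0q0) (C2 := cd3q3) (C3 := pd3)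
    rfl (fun _ => rfl) k0_pm_033

noncomputable def f_pm_101 : ℕ → ℕ → ℕ → ℕ → Bool := onCell 536870912 536870912 536870912 536870912 1045395039 1503240
    (rowB 3 eng mog cd0q1 cd3q1 pd0 0 false true false .npn 1 0 1 (qsf 536870912 536870912 536870912 536870912 0) ndB0q1 ndB3q1 pcB0 Cut.none Ext.none)

def k0_pm_101 : ∃ t, chk3 f_pm_101 t 1 1 1 = true :=
  ⟨(l 4), by decide +kernel⟩

theorem c_pm_101 : CertB 536870912 536870912 536870912 536870912 1045395039 1503240 3 eng mog cd0q1 cd3q1 pd0 false true false .npn 1 0 1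
    ndB0q1 ndB3q1 pcB0 Cut.none Ext.none :=
  certB0 (fam := false) (s1 := true) (s2 := false) (a := 1) (b := 0) (c := 1) (cn := .npn) (n1 := ndB0q1) (n2 := ndB3q1) (pc := pcB0) (cut := Cut.none) (xt := Ext.none) (P1 := 536870912) (W1 := 536870912) (P2 := 536870912) (W2 := 536870912) (P3 := 1045395039) (W3 := 1503240) (N0 := 3) (En := eng) (mo := mog) (C1 := cd0q1) (C2 := cd3q1) (C3 := pd0)
    rfl k0_pm_101

noncomputable def xt_pm_102 : Ext := extD3 3 ⟨4, 1, 1, 5, 33, 5, 163, 200, 81, 200, 1, 64⟩ eng cd0q1 cd3q2 pd0 false true false .npp 1 0 2 rfl ndB0q1 ndB3q2 pcB0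

noncomputable def f_pm_102 : ℕ → ℕ → ℕ → ℕ → Bool := onCell 536870912 536870912 1073741824 536870912 1045395039 1503240
    (rowB 3 eng mog cd0q1 cd3q2 pd0 0 false true false .npp 1 0 2 (qsf 536870912 536870912 1073741824 536870912 0) ndB0q1 ndB3q2 pcB0 Cut.none xt_pm_102)

def k0_pm_102 : ∃ t, chk3 f_pm_102 t 8 4 1 = true :=
  ⟨(b (b (a (b (a (b (a (l 14738736) (l 14699712)) (a (l 14580448) (l 14539488))) (b (a (l 14663912) (l 14631320)) (a (l 14480888) (l 14446584)))) (a (b (a (l 2) (l 14353416)) (l 2)) (b (a (l 14313856) (l 14277728)) (a (l 14141800) (l 14103752))))) (b (a (b (a (l 14580928) (l 14554664)) (a (l 14415568) (l 14387816))) (b (a (l 14531528) (l 14511488)) (a (l 14363304) (l 14342008)))) (a (b (a (l 14245000) (l 14215664)) (a (l 14069208) (l 14017200))) (b (a (l 14189672) (l 14167016)) (a (l 13989624) (l 13965496)))))) (b (a (a (l 2) (b (a (l 2) (l 13914128)) (l 2))) (a (b (a (l 13867184) (l 13834336)) (a (l 25864276919) (l 27474826023))) (b (a (l 13805064) (l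 13779360)) (a (l 13614992) (l 13587600))))) (a (l 2) (a (a (l 2) (b (b (l 13542984) (l 2)) (l 2))) (b (b (a (l 13510496) (l 13481768)) (b (a (l 13436112) (b (l 13419184) (a (a (l 13404672) (l 13397624)) (b (a (l 13396768) (l 13393712)) (l 13391648))))) (a (a (l 2) (b (b (l 13396872) (a (l 2) (l 13386160))) (l 13385120))) (a (b (b (a (l 13388680) (l 13388104)) (l 13387080)) (l 13387408)) (l 13390888))))) (a (l 13386296) (l 13391200))))))) (b (a (l 2) (a (l 2) (b (a (l 2) (l 13399976)) (l 2)))) (l 2))), by decide +kernel⟩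

def k1_pm_102 : ∃ t, chk3 f_pm_102 t 9 8 1 = true :=
  ⟨(b (a (b (a (b (a (l 14494520) (l 14501568)) (a (l 14323896) (l 14329912))) (b (l 14465648) (l 14292672))) (a (b (a (l 14126680) (l 14110592)) (a (l 13944776) (l 13927448))) (b (a (l 14139688) (l 14130064)) (a (l 13913480) (l 13944776))))) (b (a (b (l 14455680) (l 14281336)) (b (l 14457320) (l 14282064))) (a (b (l 14100896) (l 13893344)) (b (l 14100512) (l 13891632))))) (b (a (a (b (a (l 13757176) (l 13738504)) (a (l 13563848) (l 13522744))) (a (b (l 13723296) (l 13506192)) (b (l 13711536) (a (l 13558864) (l 13488488))))) (b (a (a (l 13724160) (l 13740160)) (l 13697336)) (a (b (a (l 13596632) (l 13590936)) (b (a (l 13521088) (a (l 13515904) (b (l 13526680) (l 13503864)))) (a (b (a (l 13485104) (l 13481792)) (a (l 13464704) (l 13471568))) (a (l 13485584) (l 13495032))))) (b (a (l 13588672) (b (l 13615000) (b (l 13576984) (a (l 13551424) (l 13559488))))) (a (b (b (a (l 13525152) (l 13529904)) (l 13518568)) (l 13514480))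 (l 13545520)))))) (a (b (a (b (b (a (l 13481680) (l 13460584)) (a (a (l 13437456) (b (l 13438352) (a (l 13415976) (l 13410720)))) (b (a (l 13427656) (b (l 13424048) (l 13416248))) (a (b (l 13411088) (l 13407128)) (l 13413136))))) (a (b (b (a (b (l 13405792) (a (l 13397680) (l 13397104))) (l 13401952)) (l 13397896)) (l 13397680)) (l 13409120))) (b (b (a (b (l 13455768) (a (l 13434344) (b (l 13434744) (l 13430288)))) (b (a (b (l 13451336) (l 13442328)) (l 13450712)) (l 13443432))) (a (a (l 13422336) (l 13428600)) (l 13441864))) (l 13431296))) (a (a (l 13398752) (l 13408936)) (l 13429024))) (a (b (a (l 13460800) (l 13482904)) (l 13464704)) (a (l 13502384) (l 13528432)))))), by decide +kernel⟩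

def k2_pm_102 : ∃ t, chk3 f_pm_102 t 9 9 1 = true :=
  ⟨(b (a (a (b (a (l 13404720) (l 13412120)) (a (l 2) (l 13423704))) (b (a (l 13422136) (l 13434736)) (a (l 13430048) (l 13439016)))) (a (b (a (l 13449888) (l 13467544)) (a (l 13450568) (l 13464680))) (b (a (l 13487688) (l 13510264)) (a (l 13481312) (l 13500424))))) (a (a (l 2) (b (a (l 2) (l 13451456)) (l 2))) (a (b (a (l 13459416) (l 13469976)) (l 26400783095)) (b (a (l 13483088) (l 13498736)) (l 13498560))))), by decide +kernel⟩

def k3_pm_102 : ∃ t, chk3 f_pm_102 t 5 8 1 = true :=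
  ⟨(a (b (a (b (a (b (l 14470296) (l 14294600)) (b (l 14515288) (l 14339616))) (a (b (l 14112384) (l 13923616)) (b (l 14136248) (l 13947080)))) (b (a (b (l 14550048) (l 14374864)) (b (l 14595216) (l 14421000))) (a (b (l 14192752) (l 13982688)) (b (l 14239640) (l 14051104))))) (b (a (b (a (l 13707280) (a (l 13720928) (b (l 13828952) (b (l 13754208) (b (l 13716560) (l 13701280)))))) (b (a (b (a (l 13619096) (b (l 13640064) (l 13622832))) (a (b (l 13588064) (l 13580120)) (l 13614272))) (a (l 13656232) (l 13690648))) (a (l 13590888) (l 13661096)))) (b (a (b (l 13856880) (b (a (l 13771440) (l 13799320)) (l 13764392))) (b (b (l 13929096) (a (l 13866160) (l 13899528))) (l 13857968))) (l 13746872))) (a (a (a (l 13556840) (l 13587568)) (l 13637816)) (b (l 13722680) (l 13700664))))) (b (a (b (a (b (l 14650448) (l 14477672)) (b (l 14715376) (l 14544536))) (a (b (l 14297552) (l 14110048)) (b (l 14366136) (a (l 14159912) (l 14197808))))) (b (a (b (l 14789608) (l 14621192)) (b (l 14872736)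 (l 14707248))) (b (a (l 14445008) (l 14533776)) (a (b (l 14307456) (l 14205520)) (b (l 14376408) (a (l 14307248) (l 14367232))))))) (a (b (b (b (a (b (a (l 13972144) (l 14010056)) (l 13968368)) (l 14080344)) (l 14005448)) (l 13980968)) (l 13914848)) (b (b (l 14241392) (l 14202576)) (b (l 14166144) (l 14132000)))))), by decide +kernel⟩

def k4_pm_102 : ∃ t, chk3 f_pm_102 t 5 9 1 = true :=
  ⟨(a (a (b (a (b (a (l 13535232) (l 13562568)) (l 13533568)) (b (l 13607808) (l 13586184))) (a (b (l 13526768) (l 13527952)) (b (l 13572720) (l 13567240)))) (b (a (b (l 13676112) (l 13647984)) (b (l 13753072) (l 13718624))) (a (b (l 13628048) (l 13616096)) (b (l 13692408) (l 13674192))))) (a (b (b (l 13799840) (a (l 13797736) (l 13884904))) (a (b (l 13765424) (l 13741152)) (b (l 13846720) (l 13816600)))) (b (a (l 13983472) (l 14109192)) (b (l 13983112) (l 13923696))))), by decide +kernel⟩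

def k5_pm_102 : ∃ t, chk3 f_pm_102 t 2 5 1 = true :=
  ⟨(a (a (l 2) (b (a (l 2) (b (a (l 2) (b (l 13514408) (l 2))) (l 2))) (l 2))) (a (b (a (b (a (b (l 13536936) (l 13553560)) (b (l 13569552) (l 13579488))) (a (l 2) (b (l 13596864) (l 2)))) (b (a (b (l 13611944) (l 13615392)) (b (l 13663768) (l 13660952))) (a (b (l 13626264) (l 13644400)) (b (l 13665536) (l 13677352))))) (a (l 2) (a (l 2) (b (b (l 13696216) (l 2)) (l 2))))) (b (a (b (a (b (l 13724680) (l 13715816)) (b (l 13794304) (l 13779616))) (a (b (l 13714336) (l 13720072)) (b (l 13772320) (l 13772208)))) (b (b (l 13893128) (a (l 13851976) (l 13932472))) (a (b (l 13839096) (l 13833400)) (b (l 13914280) (l 13903248))))) (a (b (a (b (l 13732824) (l 13752416)) (b (l 13779096) (l 13792776))) (a (l 2) (b (l 13813088) (l 2)))) (b (a (b (l 13834672) (l 13842712)) (b (l 13899176) (l 13901848))) (a (b (l 13857336) (l 13878352)) (b (l 13911056) (l 13926616)))))))), by decide +kernel⟩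

def k6_pm_102 : ∃ t, chk3 f_pm_102 t 2 3 1 = true :=
  ⟨(a (l 2) (b (a (l 2) (b (a (l 2) (a (l 2) (b (l 13961280) (l 2)))) (l 2))) (l 2))), by decide +kernel⟩

def k7_pm_102 : ∃ t, chk3 f_pm_102 t 6 4 1 = true :=
  ⟨(b (a (b (b (a (a (b (l 14964320) (l 14802264)) (b (l 15063864) (l 14905784))) (a (b (l 15212816) (l 15017320)) (b (a (l 15255584) (l 15314160)) (l 15178288)))) (a (b (a (l 14632016) (l 14739288)) (b (a (b (l 14520656) (a (l 14454848) (l 14516328))) (l 14628928)) (l 14571776))) (b (a (a (l 14824152) (l 14919144)) (b (l 15018968) (b (l 14959120) (l 14931968)))) (a (l 14751376) (l 14894648))))) (a (b (a (l 14407112) (l 14537944)) (a (l 14325664) (l 14450984))) (b (a (l 14673848) (l 14814216)) (a (l 14581536) (l 14716712))))) (b (a (b (a (b (a (l 15374248) (l 15435760)) (a (l 15230080) (l 15294672))) (b (a (l 15498584) (l 15562584)) (a (l 15360784) (l 15428312)))) (b (a (b (l 15148656) (l 15090400)) (b (a (l 15251576) (l 15323432)) (l 15241088))) (a (l 15042912) (l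 15194192)))) (b (a (b (l 15618472) (l 15511104)) (b (l 15729520) (a (l 15638256) (l 15709544)))) (a (b (b (l 15436016) (l 15396624)) (l 15347672)) (b (a (l 15532160) (l 15610376)) (l 15502448))))) (a (b (a (l 14958400) (l 15105664)) (a (l 14855840) (l 14998208))) (b (a (l 15255208) (l 15406160)) (a (l 15143008) (l 15289360)))))) (a (a (b (a (l 14220536) (l 14358952)) (a (l 14090472) (l 14218904))) (b (a (b (l 14499080) (l 14425952)) (b (l 14629360) (l 14551576))) (a (l 14332392) (l 14451336)))) (a (b (a (b (l 14763800) (l 14681600)) (b (l 14901680) (l 14815320))) (a (l 14575096) (l 14703000))) (b (b (a (l 15042208) (l 15184504)) (a (l 14951952) (l 15090632))) (a (l 14834296) (l 14968144)))))), by decide +kernel⟩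

def k8_pm_102 : ∃ t, chk3 f_pm_102 t 6 5 1 = true :=
  ⟨(a (b (a (b (b (l 14100520) (l 14067456)) (b (l 14020848) (l 14002376))) (b (a (l 14216000) (l 14347416)) (b (l 14237160) (l 14209800)))) (a (b (a (b (l 13972216) (l 13969800)) (b (l 14053376) (l 14046168))) (a (b (l 13973888) (l 13984280)) (b (l 14045432) (l 14050960)))) (b (b (l 14189352) (l 14154608)) (b (l 14147256) (l 14146112))))) (b (a (b (a (l 14463320) (l 14584040)) (a (l 14361520) (l 14496336))) (b (a (l 14708872) (l 14837024)) (a (b (l 14636104) (l 14603240)) (b (a (l 14728976) (l 14798152)) (a (l 14670216) (l 14764200)))))) (a (b (b (l 14394616) (a (l 14321272) (a (l 14404216) (b (l 14462864) (l 14450456))))) (a (b (a (l 14283672) (b (l 14335976) (l 14333760))) (a (b (l 14280696) (l 14278896)) (b (l 14327032) (l 14331472)))) (b (a (b (l 14389032) (l 14384992)) (l 14449680)) (l 14418120)))) (b (a (b (b (l 14555352) (l 14538640)) (l 14529384)) (l 14702504)) (a (l 14524264) (l 14682976)))))), by decide +kernel⟩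

def k9_pm_102 : ∃ t, chk3 f_pm_102 t 14 4 1 = true :=
  ⟨(b (b (a (b (a (b (l 15895768) (l 15693560)) (b (l 15870632) (l 15832040))) (a (b (l 15728040) (l 15657464)) (b (l 15883072) (l 15811448)))) (b (b (a (l 15629472) (l 15837280)) (a (b (l 15924920) (l 15985312)) (b (l 15934472) (l 16003528)))) (a (l 15850688) (l 15943072)))) (a (b (a (l 15557520) (l 15708192)) (a (l 15436272) (l 15582600))) (a (b (l 15856960) (l 15726976)) (b (l 15981144) (l 15867312))))) (b (a (a (b (l 15327568) (l 15230360)) (b (l 15470224) (l 15369968))) (a (b (l 15611048) (l 15508040)) (b (l 15747888) (a (l 15609608) (l 15682616))))) (a (a (l 15061624) (b (l 15280744) (l 15203104))) (a (b (b (l 15438672) (l 15398952)) (a (l 15310792) (l 15316480))) (b (a (b (l 15542520) (l 15501456)) (b (l 15611272) (l 15588432))) (l 15513208)))))), by decide +kernel⟩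

def k10_pm_102 : ∃ t, chk3 f_pm_102 t 30 8 1 = true :=
  ⟨(b (b (b (a (l 15900744) (l 16149744)) (a (b (l 16020664) (l 16094200)) (b (l 16228304) (l 16290704)))) (a (b (l 16185768) (l 16252768)) (b (l 16372520) (l 16402296)))) (a (b (l 16143384) (l 16002888)) (b (l 16173200) (l 16131472)))), by decide +kernel⟩

def k11_pm_102 : ∃ t, chk3 f_pm_102 t 31 8 1 = true :=
  ⟨(b (a (b (b (a (b (a (l 16489952) (l 16688640)) (l 593340816871808109488175)) (a (b (l 16749792) (l 16726280)) (b (b (a (l 16746088) (l 16729856)) (l 16754464)) (l 16735896)))) (a (l 16507768) (b (a (l 16658456) (b (l 16770008) (l 16740744))) (a (l 16659072) (l 16735664))))) (a (l 16466288) (b (l 16644096) (l 16560464)))) (b (a (b (b (a (b (a (l 16722920) (l 16728032)) (a (l 16729440) (l 16721000))) (l 16735920)) (a (b (a (l 16747688) (l 16728176)) (l 16756544)) (b (a (l 16718632) (l 16723376)) (a (l 16707656) (l 16697272))))) (a (a (b (l 16770792) (l 16757080)) (l 16758336)) (b (b (a (l 16740984) (l 16722648))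 (l 16741008)) (l 16741104)))) (b (b (l 16744344) (b (l 16749568) (l 16696560))) (b (a (b (a (l 16715600) (l 16721160)) (a (l 16717504) (l 16712784))) (l 16731024)) (a (b (l 16697792) (l 16723088)) (b (a (l 16710568) (l 16718584)) (a (l 16708904) (l 16708952))))))) (b (a (b (a (l 16726272) (b (l 16730856) (l 16720112))) (l 16641224)) (b (a (l 16717312) (b (l 16708456) (l 16707512))) (a (b (l 16702344) (l 16689056)) (l 16695768)))) (a (l 16606880) (b (b (a (l 16670992) (l 16675992)) (l 16653400)) (l 16555496)))))) (a (b (a (l 16369304) (l 16381912)) (a (b (l 16254056) (l 140967869206183983)) (b (a (l 16297224) (l 141846929020354799)) (a (l 16240912) (l 16283584))))) (b (b (a (l 16510632) (b (l 16571336) (a (l 16515632) (l 16536680)))) (b (a (l 16445392) (a (l 16475728) (l 16501248))) (a (l 141908570564198511) (a (l 16445672) (l 16483440))))) (a (b (a (l 142020789353365615) (l 16386384)) (l 16340728)) (b (a (l 16423072) (l 16460600)) (l 16414648)))))), by decide +kernel⟩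

def k12_pm_102 : ∃ t, chk3 f_pm_102 t 15 9 1 = true :=
  ⟨(a (b (a (b (b (l 15909472) (l 15854440)) (a (b (l 15770472) (l 15723928)) (b (l 15838736) (l 15811520)))) (b (a (b (l 16007856) (l 15955736)) (b (l 140655607659249711) (l 16039168))) (a (l 15913176) (l 16003272)))) (a (b (l 15732904) (l 15692680)) (b (l 15915128) (l 15876744)))) (a (b (a (b (b (l 16150136) (l 16126984)) (l 16092192)) (b (a (l 16203040) (l 16244888)) (l 16180128))) (a (b (l 16051136) (l 16014768)) (b (l 16140944) (l 16106376)))) (b (b (a (b (l 16315328) (l 16292176)) (b (l 16390688) (l 16369056))) (a (l 16260568) (a (l 16319336) (l 16360688)))) (a (b (l 16223728) (l 16191368)) (b (b (l 16314064) (l 16258312)) (a (l 16256120) (l 16278264))))))), by decide +kernel⟩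

def k13_pm_102 : ∃ t, chk3 f_pm_102 t 7 5 1 = true :=
  ⟨(a (b (a (b (a (b (l 14998816) (a (l 14913512) (l 14977720))) (b (a (l 15106376) (l 15172160)) (l 15090872))) (a (b (a (l 14840904) (l 14945944)) (l 14882376)) (l 15055768))) (b (a (b (l 15296872) (l 15268080)) (b (l 15476328) (l 15443472))) (a (l 15225296) (l 15400520)))) (a (b (a (l 14854192) (l 15014112)) (a (l 14830200) (l 14986504))) (b (a (l 15181728) (l 15356056)) (a (l 15151400) (l 15323960))))) (a (b (b (a (b (l 15656712) (l 15624600)) (b (l 15842464) (l 15811864))) (a (l 15582408) (l 15624728))) (b (a (l 15538184) (l 15728872)) (a (l 15505368) (l 15696544)))) (b (a (b (a (l 15967064) (l 15998240)) (a (l 15915608) (b (l 16023936) (l 16004184)))) (b (a (b (l 16165000) (a (l 16115664) (l 16147552))) (b (a (l 16210904) (l 16220616)) (l 16157440))) (a (b (l 16065552) (l 16037152)) (l 16069520)))) (a (a (b (l 15874872) (l 15791656)) (b (a (l 15941824) (l 15955864)) (l 15863232))) (a (l 15914224) (l 15914072)))))),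 by decide +kernel⟩

def k14_pm_102 : ∃ t, chk3 f_pm_102 t 3 3 1 = true :=
  ⟨(a (b (a (b (a (b (a (b (l 14000784) (l 14023200)) (b (l 14062544) (l 14079992))) (a (l 2) (b (l 14103112) (l 2)))) (b (a (b (l 14133256) (l 14147288)) (b (a (l 14191952) (b (l 14235920) (l 14235616))) (a (b (l 14201496) (l 14204584)) (l 14245040)))) (a (b (a (l 14150768) (b (l 14178720) (l 14185888))) (a (l 2) (l 14209024))) (b (l 14242384) (l 14267496))))) (a (l 2) (b (a (l 2) (l 120891704343)) (l 2)))) (b (a (b (b (a (a (l 14279608) (l 14336744)) (l 14421992)) (a (l 14321208) (l 14429688))) (a (b (l 14336680) (l 14355944)) (l 14447936))) (b (a (l 14546264) (l 14678024)) (a (l 14561752) (l 14686832)))) (a (b (a (l 14391520) (l 14485160)) (a (l 2) (l 14535992))) (b (a (l 14590920) (l 14708600)) (a (l 14633016) (l 14742584)))))) (a (l 2) (b (a (l 2) (b (l 102638526727) (l 2))) (l 2)))) (a (b (b (a (b (a (l 14820048) (l 14971960)) (a (l 14822896) (l 14969608))) (a (b (l 15133288) (l 15126496)) (b (l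 15303160) (l 15292736)))) (a (a (b (l 14837952) (l 14864448)) (l 14986568)) (a (l 15135112) (l 15294088)))) (b (a (a (l 14923592) (l 15045576)) (a (l 15179944) (l 15325928))) (a (l 2) (a (l 2) (l 15388800))))) (a (b (b (a (b (l 15482840) (l 15469664)) (a (l 15615472) (b (l 15724536) (l 15680632)))) (a (b (l 15465000) (l 15470832)) (b (a (l 15599760) (l 15631096)) (l 15568096)))) (b (a (a (l 15448280) (l 15502240)) (l 15517960)) (a (a (l 15469904) (l 15481472)) (l 15478496)))) (b (b (a (a (b (l 15766344) (l 15703528)) (l 15745480)) (b (l 15783488) (l 15709768))) (a (l 15619544) (l 15617704))) (a (b (l 15531912) (l 15476432)) (b (l 15525152) (l 15462120))))))), by decide +kernel⟩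

theorem s15_pm_102 : ∃ t, chk3 f_pm_102 t 15 8 1 = true := ex3_a k10_pm_102 k11_pm_102

theorem s16_pm_102 : ∃ t, chk3 f_pm_102 t 15 4 1 = true := ex3_b s15_pm_102 k12_pm_102

theorem s17_pm_102 : ∃ t, chk3 f_pm_102 t 7 4 1 = true := ex3_a k9_pm_102 s16_pm_102

theorem s18_pm_102 : ∃ t, chk3 f_pm_102 t 7 2 1 = true := ex3_b s17_pm_102 k13_pm_102

theorem s19_pm_102 : ∃ t, chk3 f_pm_102 t 6 2 1 = true := ex3_b k7_pm_102 k8_pm_102

theorem s20_pm_102 : ∃ t, chk3 f_pm_102 t 3 2 1 = true := ex3_a s19_pm_102 s18_pm_102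

theorem s21_pm_102 : ∃ t, chk3 f_pm_102 t 3 1 1 = true := ex3_b s20_pm_102 k14_pm_102

theorem s22_pm_102 : ∃ t, chk3 f_pm_102 t 5 4 1 = true := ex3_b k3_pm_102 k4_pm_102

theorem s23_pm_102 : ∃ t, chk3 f_pm_102 t 9 4 1 = true := ex3_b k1_pm_102 k2_pm_102

theorem s24_pm_102 : ∃ t, chk3 f_pm_102 t 4 4 1 = true := ex3_a k0_pm_102 s23_pm_102

theorem s25_pm_102 : ∃ t, chk3 f_pm_102 t 2 4 1 = true := ex3_a s24_pm_102 s22_pm_102

theorem s26_pm_102 : ∃ t, chk3 f_pm_102 t 2 2 1 = true := ex3_b s25_pm_102 k5_pm_102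

theorem s27_pm_102 : ∃ t, chk3 f_pm_102 t 2 1 1 = true := ex3_b s26_pm_102 k6_pm_102

theorem s28_pm_102 : ∃ t, chk3 f_pm_102 t 1 1 1 = true := ex3_a s27_pm_102 s21_pm_102

theorem c_pm_102 : CertB 536870912 536870912 1073741824 536870912 1045395039 1503240 3 eng mog cd0q1 cd3q2 pd0 false true false .npp 1 0 2
    ndB0q1 ndB3q2 pcB0 Cut.none xt_pm_102 :=
  certB0 (fam := false) (s1 := true) (s2 := false) (a := 1) (b := 0) (c := 2) (cn := .npp) (n1 := ndB0q1) (n2 := ndB3q2) (pc := pcB0) (cut := Cut.none) (xt := xt_pm_102) (P1 := 536870912) (W1 := 536870912) (P2 := 1073741824) (W2 := 536870912) (P3 := 1045395039) (W3 := 1503240) (N0 := 3) (En := eng) (mo := mog) (C1 := cd0q1) (C2 := cd3q2) (C3 := pd0)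
    rfl s28_pm_102

noncomputable def f_pm_112 : ℕ → ℕ → ℕ → ℕ → Bool := onCell 536870912 536870912 536870912 536870912 1045395039 1503240
    (rowB 3 eng mog cd0q1 cd3q2 pd1 1 false true false .dn 1 1 2 (qsf 536870912 536870912 1073741824 536870912 1) ndB0q1 ndB3q2 pcB1 Cut.none Ext.none)

def k0_pm_112 : ∃ t, chk3 f_pm_112 t 1 1 1 = true :=
  ⟨(a (b (a (b (a (b (a (b (l 15941504) (a (l 16014496) (l 15972256))) (b (a (l 15987560) (l 15955920)) (l 15957416))) (a (b (a (l 15963352) (l 15957712)) (l 15950344)) (l 15954832))) (b (a (l 15955488) (l 15964984)) (l 15956472))) (a (b (l 15892880) (l 15875584)) (b (l 15958120) (l 15943192)))) (b (a (b (l 15919608) (l 15983352)) (b (a (l 16063648) (l 16121784)) (a (l 16128544) (l 16202504)))) (a (b (l 15990480) (a (l 16046688) (l 16121192))) (b (a (l 16178328) (a (l 16243056) (b (l 16270888) (l 16269912)))) (a (l 16151408) (a (l 16148448) (l 16237256))))))) (a (b (a (b (l 15840184) (l 15742736)) (b (l 15867584) (a (l 15839192) (l 15909520))))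 (a (b (l 15559992) (a (l 15508568) (l 15569144))) (b (a (l 15755432) (l 15836672)) (a (l 15644840) (l 2))))) (b (a (b (a (l 16031512) (l 16119320)) (a (l 15994696) (l 16095400))) (b (a (a (l 16196064) (l 16132672)) (l 16171912)) (a (a (l 16091312) (l 2)) (l 2)))) (a (b (a (l 15933464) (l 2)) (l 2)) (l 2))))) (b (b (a (a (b (a (b (l 16169224) (l 16197848)) (b (l 16191696) (l 16216792))) (a (b (l 16179640) (l 16250048)) (l 16216192))) (b (a (l 16175320) (l 16137800)) (a (l 16165704) (l 16113680)))) (a (b (a (l 16099560) (l 16058496)) (a (l 16060072) (l 15977296))) (a (b (a (l 15992912) (l 15872632)) (l 15842808)) (b (a (l 15743064) (l 15593168)) (l 2))))) (a (a (b (a (l 16236840) (l 16179152)) (a (l 16180336) (l 16103440))) (b (l 15955848) (l 15921944))) (a (b (a (l 15979008) (l 2)) (l 2)) (l 2)))) (a (b (a (b (a (l 16082864) (l 2)) (l 2)) (l 2)) (l 2)) (l 2)))), by decide +kernel⟩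

theorem c_pm_112 : CertB 536870912 536870912 1073741824 536870912 1045395039 1503240 3 eng mog cd0q1 cd3q2 pd1 false true false .dn 1 1 2
    ndB0q1 ndB3q2 pcB1 Cut.none Ext.none :=
  certB1 (fam := false) (s1 := true) (s2 := false) (a := 1) (b := 1) (c := 2) (cn := .dn) (n1 := ndB0q1) (n2 := ndB3q2) (pc := pcB1) (cut := Cut.none) (xt := Ext.none) (P1 := 536870912) (W1 := 536870912) (P2 := 1073741824) (W2 := 536870912) (P3 := 1045395039) (W3 := 1503240) (N0 := 3) (En := eng) (mo := mog) (C1 := cd0q1) (C2 := cd3q2) (C3 := pd1)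
    rfl (fun _ => rfl) k0_pm_112

noncomputable def cut_pm_113 : Cut := Cut.of [[⟨0, 1, 0, 14155776⟩, ⟨1, 1, 0, 14155776⟩, ⟨2, 2, 0, 524288⟩]]

noncomputable def xt_pm_113 : Ext := extD3 3 ⟨4, 1, 1, 5, 33, 5, 163, 200, 81, 200, 1, 64⟩ eng cd0q1 cd3q3 pd1 false true false .nn 1 1 3 rfl ndB0q1 ndB3q3 pcB1

noncomputable def f_pm_113 : ℕ → ℕ → ℕ → ℕ → Bool := onCell 536870912 536870912 0 1230186008 1045395039 1503240
    (rowB 3 eng mog cd0q1 cd3q3 pd1 0 false true false .nn 1 1 3 (qsf 536870912 536870912 0 1230186008 1) ndB0q1 ndB3q3 pcB1 cut_pm_113 xt_pm_113)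

def k0_pm_113 : ∃ t, chk3 f_pm_113 t 2 1 1 = true :=
  ⟨(b (l 2) (b (a (l 2) (b (l 2) (a (l 2) (b (l 2) (a (l 2) (l 15472328)))))) (b (a (l 2) (a (b (a (l 2) (a (l 2) (l 15621984))) (a (l 15548496) (b (l 15719344) (l 15795920)))) (b (a (l 15625176) (l 15625504)) (a (l 15791704) (l 15785720))))) (a (a (b (l 2) (a (l 14916960) (l 15278984))) (b (a (l 15275384) (l 15492312)) (a (l 15464184) (l 15641600)))) (a (a (b (l 15698976) (l 15816248)) (b (b (l 15863160) (l 15922496)) (l 15945592))) (b (a (b (l 15914616) (l 15996064)) (l 15951736)) (a (b (l 16069944) (a (l 16127352) (l 16155080))) (l 16115272)))))))), by decide +kernel⟩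

def k1_pm_113 : ∃ t, chk3 f_pm_113 t 6 1 1 = true :=
  ⟨(b (l 2) (b (b (a (l 2) (a (b (l 2) (l 15242064)) (l 15467088))) (a (b (a (l 15342848) (l 15344544)) (a (l 15474272) (l 15476144))) (b (a (l 15349928) (l 15358400)) (a (l 15479824) (l 15487280))))) (b (a (b (a (l 15623272) (l 15623672)) (a (l 15783104) (l 15783944))) (b (a (l 15627736) (l 15634592)) (a (l 15787864) (l 15794264)))) (a (b (a (l 15948928) (l 15949280)) (a (l 16111088) (l 16109864))) (b (a (l 15952464) (l 15958312)) (a (l 16111488) (l 16116192))))))), by decide +kernel⟩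

def k2_pm_113 : ∃ t, chk3 f_pm_113 t 14 1 1 = true :=
  ⟨(b (b (l 2) (b (b (l 2) (a (l 2) (l 15447512))) (a (b (l 2) (l 15156896)) (b (a (l 15232640) (b (l 15353888) (l 15318616))) (a (a (l 15191056) (l 15231408)) (b (l 15299344) (l 15290160))))))) (b (b (a (l 15232792) (b (l 15270296) (l 15319688))) (a (b (l 15370152) (l 15496712)) (b (l 15402824) (l 15514424)))) (b (a (b (l 15643128) (l 15802848)) (b (l 15650424) (a (l 15810304) (l 15804376)))) (b (a (l 15967224) (a (l 15976872) (l 15971112))) (a (l 16124848) (a (l 16135080) (l 16052096))))))), by decide +kernel⟩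

def k3_pm_113 : ∃ t, chk3 f_pm_113 t 30 1 1 = true :=
  ⟨(b (b (l 2) (b (b (a (l 2) (b (l 16181480) (l 15952360))) (a (a (l 15545992) (l 15614600)) (a (a (l 15663040) (l 15693904)) (l 132121816183209999)))) (b (a (b (l 15463552) (a (l 15390200) (l 15432400))) (b (a (l 15536872) (l 15570160)) (l 15482024))) (a (l 15363296) (l 15413584))))) (b (b (b (a (l 15345528) (l 15381640)) (l 15386512)) (b (l 15442328) (l 15525880))) (b (b (l 15632416) (l 15758728)) (b (l 15902184) (b (l 16017992) (l 16096696)))))), by decide +kernel⟩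

def k4_pm_113 : ∃ t, chk3 f_pm_113 t 31 1 1 = true :=
  ⟨(b (b (b (a (l 2) (a (l 2) (b (a (l 2) (b (l 6) (a (l 2) (b (a (l 2) (l 16775432)) (l 16773192))))) (a (l 143656176257171535) (a (l 143621679080472655) (b (b (l 16774360) (l 16775512)) (b (l 16776584) (l 16777512)))))))) (b (a (l 2) (a (l 142929879950884943) (a (l 142743512787550287) (a (l 142896001355300943) (a (l 142800893612032079) (b (b (l 16782624) (l 16762280)) (l 597628391128039495734815))))))) (a (b (a (l 2) (l 16619496)) (a (l 16648136) (l 16619120))) (b (a (l 141991446814687311) (a (b (l 16772864) (l 16768184)) (b (a (l 16748656) (b (l 16754976) (l 16751944))) (a (l 16763696) (l 16748648))))) (a (a (l 16731672) (l 142110262877208655)) (a (l 141828100729225295) (l 596513947837895301390367))))))) (b (b (a (a (b (l 16347920) (l 16067112)) (b (l 140603587731849295) (l 137023714672033871))) (b (a (l 139903336317894735) (b (l 594559743448457170591775) (l 585083591095727872172063))) (a (l 16120672) (a (l 16102312)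 (l 16082504))))) (a (a (b (l 15861936) (l 15707096)) (l 15796944)) (a (l 133155494677135439) (b (l 15865440) (l 15703920))))) (a (b (a (l 15549136) (l 15560040)) (l 129457286596329487)) (b (a (l 15556192) (a (l 15546840) (l 15540760))) (a (l 15440872) (l 15432200)))))) (b (b (a (b (l 15402816) (l 15408968)) (b (a (l 15397160) (l 15388696)) (a (l 15398144) (l 15386920)))) (a (b (l 15447672) (l 15510288)) (b (a (l 15428832) (l 15412344)) (a (l 15480728) (l 15456936))))) (b (b (a (l 15591912) (l 15533240)) (a (l 15690184) (l 15612488))) (b (a (l 15804472) (l 15707984)) (a (l 15934840) (l 15739136)))))), by decide +kernel⟩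

theorem s5_pm_113 : ∃ t, chk3 f_pm_113 t 15 1 1 = true := ex3_a k3_pm_113 k4_pm_113

theorem s6_pm_113 : ∃ t, chk3 f_pm_113 t 7 1 1 = true := ex3_a k2_pm_113 s5_pm_113

theorem s7_pm_113 : ∃ t, chk3 f_pm_113 t 3 1 1 = true := ex3_a k1_pm_113 s6_pm_113

theorem s8_pm_113 : ∃ t, chk3 f_pm_113 t 1 1 1 = true := ex3_a k0_pm_113 s7_pm_113

theorem c_pm_113 : CertB 536870912 536870912 0 1230186008 1045395039 1503240 3 eng mog cd0q1 cd3q3 pd1 false true false .nn 1 1 3
    ndB0q1 ndB3q3 pcB1 cut_pm_113 xt_pm_113 :=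
  certB0 (fam := false) (s1 := true) (s2 := false) (a := 1) (b := 1) (c := 3) (cn := .nn) (n1 := ndB0q1) (n2 := ndB3q3) (pc := pcB1) (cut := cut_pm_113) (xt := xt_pm_113) (P1 := 536870912) (W1 := 536870912) (P2 := 0) (W2 := 1230186008) (P3 := 1045395039) (W3 := 1503240) (N0 := 3) (En := eng) (mo := mog) (C1 := cd0q1) (C2 := cd3q3) (C3 := pd1)
    rfl s8_pm_113

noncomputable def cut_pm_123 : Cut := Cut.of [[⟨0, 1, 0, 14155776⟩, ⟨1, 1, 0, 14155776⟩, ⟨2, 2, 0, 524288⟩]]

noncomputable def xt_pm_123 : Ext := extD3 3 ⟨4, 1, 1, 5, 33, 5, 163, 200, 81, 200, 1, 64⟩ eng cd0q1 cd3q3 pd2 false true false .npn 1 2 3 rfl ndB0q1 ndB3q3 pcB2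

noncomputable def f_pm_123 : ℕ → ℕ → ℕ → ℕ → Bool := onCell 1073741824 536870912 0 1230186008 1045395039 1503240
    (rowB 3 eng mog cd0q1 cd3q3 pd2 2 false true false .npn 1 2 3 (qsf 536870912 536870912 0 1230186008 2) ndB0q1 ndB3q3 pcB2 cut_pm_123 xt_pm_123)

def k0_pm_123 : ∃ t, chk3 f_pm_123 t 1 4 1 = true :=
  ⟨(a (b (a (a (a (a (a (b (a (b (l 6) (a (l 143647311448686671) (l 16756136))) (l 143199191711449167)) (a (b (l 143460463218720847) (l 16756152)) (b (l 16750848) (l 16735416)))) (b (a (l 16748104) (l 16753008)) (b (a (l 16753768) (l 16762792)) (a (l 16748416) (l 16772064))))) (b (a (b (l 16769216) (l 16774832)) (l 16736552)) (a (l 16745048) (l 16684376)))) (a (l 16615856) (l 16486264))) (a (b (l 16312736) (l 16244592)) (l 16043504))) (a (l 15819512) (l 15483216))) (a (b (a (a (a (b (a (a (l 143057904411328591) (l 16722032)) (l 16740360)) (a (l 16746640) (l 16702824))) (l 16595672)) (l 16257456)) (a (l 16163392) (l 15993720))) (a (a (b (a (a (b (l 16733520) (l 16707256))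 (l 16570416)) (l 16366656)) (a (l 16393392) (l 16167664))) (b (l 16202616) (a (l 16076512) (l 16009752)))) (b (a (l 16045384) (l 15940280)) (l 15923400)))) (b (a (l 15776144) (l 15421320)) (a (b (l 15730928) (l 15670840)) (b (l 15372784) (l 15314408)))))) (b (a (a (l 15102832) (l 14708616)) (l 14149664)) (a (b (a (l 15026944) (l 14622496)) (a (l 14940104) (l 14526672))) (b (a (l 14233024) (l 13917064)) (a (l 14130720) (a (l 13858040) (l 13859104))))))), by decide +kernel⟩

def k1_pm_123 : ∃ t, chk3 f_pm_123 t 1 5 1 = true :=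
  ⟨(a (b (a (a (b (a (a (b (l 16085312) (l 15813240)) (b (l 15959792) (l 15777344))) (b (l 15976056) (l 15804944))) (a (a (b (a (l 15597088) (l 15609536)) (l 15499632)) (l 15620984)) (l 15698312))) (b (a (l 15843768) (l 15769536)) (a (l 15707232) (l 15638088)))) (b (a (l 15573832) (l 15217736)) (a (l 15442040) (l 15079992)))) (a (a (a (b (a (b (l 15449048) (l 15427960)) (l 15527208)) (a (b (l 15430624) (l 15453336)) (l 15510368))) (b (l 15600056) (l 15555688))) (a (b (l 15600280) (l 15528728)) (l 15303264))) (a (a (l 15333856) (l 15162144)) (a (l 14967368) (l 14757992))))) (b (a (b (a (l 14811096) (l 14394136)) (a (l 14666296) (l 14243736))) (a (b (l 13996120) (l 13908552)) (b (a (l 13821680) (l 14054248)) (l 14156744)))) (a (a (l 14432384) (b (l 14081296) (a (l 14027872) (l 13908232)))) (a (a (b (l 13853760) (l 13992832)) (l 14103584)) (a (l 14455864) (l 1)))))), by decide +kernel⟩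

def k2_pm_123 : ∃ t, chk3 f_pm_123 t 1 6 1 = true :=
  ⟨(a (a (b (a (a (b (a (b (l 15492984) (l 15547088)) (l 15555632)) (a (b (l 15613640) (l 15691000)) (b (l 15622848) (l 15680872)))) (b (a (l 15565336) (l 15551320)) (a (l 15628064) (l 15586552)))) (a (b (l 15493928) (l 15494648)) (b (l 15365968) (l 15330000)))) (a (b (a (a (b (l 15798792) (a (l 15882608) (l 15862496))) (b (l 15748312) (l 15824232))) (a (l 15729072) (l 15658112))) (a (b (a (a (l 15990264) (l 15960096)) (l 15907800)) (a (b (l 16056832) (l 16112928)) (l 15998312))) (b (l 15780720) (a (l 15900128) (l 15791648))))) (b (a (l 15528416) (l 15322720)) (a (a (l 15650920) (l 15532624)) (l 15343336))))) (a (b (a (b (l 15195832) (l 15130656)) (l 14949392)) (b (a (l 15090192) (l 14840328)) (a (l 15073416) (l 14817120)))) (b (b (l 14667640) (l 14422464)) (a (b (l 14597648) (l 14636280)) (b (l 14407360) (l 14585296)))))) (a (a (b (b (l 14027432) (a (l 14232992) (l 14148200))) (a (b (l 14362080) (l 14632096)) (l 114382099655)))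 (b (b (a (l 14001232) (l 14111432)) (l 14355624)) (b (l 14575264) (l 1)))) (a (b (a (l 14548016) (l 1)) (l 1)) (l 1)))), by decide +kernel⟩

def k3_pm_123 : ∃ t, chk3 f_pm_123 t 4 14 1 = true :=
  ⟨(a (b (a (a (a (b (b (l 16193792) (l 16255088)) (b (l 16317656) (l 16381432))) (b (l 16174720) (l 16342960))) (b (l 16095144) (a (l 16229360) (l 16165984)))) (b (a (l 15980512) (l 15857176)) (a (l 16067024) (l 15929072)))) (a (b (a (a (b (l 16488312) (a (l 16550648) (l 16495128))) (b (l 16380744) (l 16442352))) (a (l 16320592) (l 16269936))) (a (b (a (a (b (l 16580768) (l 16615152)) (l 16561144)) (l 16505096)) (a (b (a (l 16607840) (l 16611352)) (a (b (l 16654960) (a (a (l 16708264) (l 16676632)) (b (l 16679016) (a (b (l 16690192) (l 16669264)) (l 16653128))))) (b (a (l 16646536) (b (l 16622608) (l 16627152))) (b (a (b (l 16655408) (l 16633824)) (l 16620344)) (l 16603672))))) (b (a (l 16570760) (b (l 16524768) (a (l 16544112) (l 16513992)))) (a (b (a (b (l 16600096) (l 16595712))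 (l 16563872)) (l 16553488)) (l 16491160))))) (b (a (a (l 16448184) (l 16330408)) (b (l 16333784) (a (l 16365952) (l 16302912)))) (a (b (a (b (l 16475712) (l 16457608)) (l 16396816)) (l 16379480)) (l 16263280))))) (b (a (b (l 16135760) (a (l 16219440) (l 16130160))) (b (l 15977904) (a (l 16029304) (l 15911536)))) (a (b (a (b (l 16234744) (l 16197320)) (l 16086088)) (l 16044064)) (l 15844376))))) (b (a (b (l 15658848) (a (l 15779320) (l 15614648))) (b (l 15365608) (a (l 15441000) (l 15269384)))) (a (b (a (b (l 15791376) (l 15738472)) (l 15558464)) (a (l 15654456) (l 15474984))) (a (l 15353040) (l 15219376))))), by decide +kernel⟩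

def k4_pm_123 : ∃ t, chk3 f_pm_123 t 4 15 1 = true :=
  ⟨(a (b (a (b (a (b (a (b (a (a (b (b (b (a (a (l 16721608) (l 16694464)) (l 16687544)) (a (a (l 16710568) (l 16710944)) (l 16695632))) (l 16672816)) (l 16648784)) (l 16603616)) (l 16523336)) (a (a (l 16579992) (l 16561848)) (l 16504216))) (a (l 16395792) (l 16405800))) (a (b (a (l 16497664) (l 16464720)) (l 16357064)) (l 16223512))) (b (a (l 16278240) (l 16164816)) (a (l 16194056) (l 16068672)))) (a (b (a (a (l 16322728) (l 16316384)) (l 16216680)) (a (l 16169888) (l 16107664))) (b (l 15948328) (l 15936688)))) (b (a (a (l 15995944) (l 15883344)) (l 15728792)) (a (b (l 15816720) (l 15738936)) (l 15601576)))) (a (b (a (b (a (l 16117672) (l 16001520)) (l 15804376)) (b (l 15844000) (l 15754376))) (a (b (l 15826080) (l 15746584)) (b (l 15668048) (l 15585280)))) (b (a (l 15586320) (l 15484888)) (a (l 15490856) (l 1))))) (b (a (b (a (l 15549344) (l 15399632)) (a (l 15453384) (l 15333192))) (b (l 15228496) (l 15203352))) (a (b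 (a (l 15367640) (l 1)) (l 1)) (l 1)))), by decide +kernel⟩

def k5_pm_123 : ∃ t, chk3 f_pm_123 t 5 7 1 = true :=
  ⟨(b (a (b (a (a (l 15133968) (l 15008608)) (l 14875496)) (a (b (l 15068456) (l 15077920)) (l 14973456))) (b (a (l 14794864) (l 14815112)) (l 1))) (a (b (a (b (l 15094800) (l 1)) (l 1)) (l 1)) (l 1))), by decide +kernel⟩

def k6_pm_123 : ∃ t, chk3 f_pm_123 t 3 7 1 = true :=
  ⟨(l 1), by decide +kernel⟩

theorem s7_pm_123 : ∃ t, chk3 f_pm_123 t 4 7 1 = true := ex3_b k3_pm_123 k4_pm_123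

theorem s8_pm_123 : ∃ t, chk3 f_pm_123 t 2 7 1 = true := ex3_a s7_pm_123 k5_pm_123

theorem s9_pm_123 : ∃ t, chk3 f_pm_123 t 1 7 1 = true := ex3_a s8_pm_123 k6_pm_123

theorem s10_pm_123 : ∃ t, chk3 f_pm_123 t 1 3 1 = true := ex3_b k2_pm_123 s9_pm_123

theorem s11_pm_123 : ∃ t, chk3 f_pm_123 t 1 2 1 = true := ex3_b k0_pm_123 k1_pm_123

theorem s12_pm_123 : ∃ t, chk3 f_pm_123 t 1 1 1 = true := ex3_b s11_pm_123 s10_pm_123

theorem c_pm_123 : CertB 536870912 536870912 0 1230186008 1045395039 1503240 3 eng mog cd0q1 cd3q3 pd2 false true false .npn 1 2 3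
    ndB0q1 ndB3q3 pcB2 cut_pm_123 xt_pm_123 :=
  certB2 (fam := false) (s1 := true) (s2 := false) (a := 1) (b := 2) (c := 3) (cn := .npn) (n1 := ndB0q1) (n2 := ndB3q3) (pc := pcB2) (cut := cut_pm_123) (xt := xt_pm_123) (P1 := 536870912) (W1 := 536870912) (P2 := 0) (W2 := 1230186008) (P3 := 1045395039) (W3 := 1503240) (N0 := 3) (En := eng) (mo := mog) (C1 := cd0q1) (C2 := cd3q3) (C3 := pd2)
    rfl (fun _ => rfl) s12_pm_123

noncomputable def f_pm_133 : ℕ → ℕ → ℕ → ℕ → Bool := onCell 536870912 536870912 0 1230186008 1045395039 1503240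
    (rowB 3 eng mog cd0q1 cd3q3 pd3 0 false true false .dn 1 3 3 (qsf 536870912 536870912 0 1230186008 3) ndB0q1 ndB3q3 pcB3 Cut.none Ext.none)

def k0_pm_133 : ∃ t, chk3 f_pm_133 t 1 1 1 = true :=
  ⟨(b (b (a (b (a (l 16364456) (l 1)) (l 1)) (l 1)) (l 1)) (l 1)), by decide +kernel⟩

theorem c_pm_133 : CertB 536870912 536870912 0 1230186008 1045395039 1503240 3 eng mog cd0q1 cd3q3 pd3 false true false .dn 1 3 3
    ndB0q1 ndB3q3 pcB3 Cut.none Ext.none :=
  certB0 (fam := false) (s1 := true) (s2 := false) (a := 1) (b := 3) (c := 3) (cn := .dn) (n1 := ndB0q1) (n2 := ndB3q3) (pc := pcB3) (cut := Cut.none) (xt := Ext.none) (P1 := 536870912) (W1 := 536870912) (P2 := 0) (W2 := 1230186008) (P3 := 1045395039) (W3 := 1503240) (N0 := 3) (En := eng) (mo := mog) (C1 := cd0q1) (C2 := cd3q3) (C3 := pd3)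
    rfl k0_pm_133

noncomputable def f_pm_202 : ℕ → ℕ → ℕ → ℕ → Bool := onCell 0 536870912 0 536870912 1045395039 1503240
    (rowB 3 eng mog cd0q2 cd3q2 pd0 1 false true false .pp 2 0 2 (qsf 0 536870912 1073741824 536870912 0) ndB0q2 ndB3q2 pcB0 Cut.none Ext.none)

def k0_pm_202 : ∃ t, chk3 f_pm_202 t 2 1 1 = true :=
  ⟨(l 3), by decide +kernel⟩

def k1_pm_202 : ∃ t, chk3 f_pm_202 t 6 1 1 = true :=
  ⟨(l 3), by decide +kernel⟩

def k2_pm_202 : ∃ t, chk3 f_pm_202 t 14 1 1 = true :=
  ⟨(b (l 3) (l 3)), by decide +kernel⟩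

def k3_pm_202 : ∃ t, chk3 f_pm_202 t 30 1 1 = true :=
  ⟨(b (b (a (l 3) (a (l 3) (b (b (a (l 3) (b (b (b (b (a (a (l 16536296) (l 16539016)) (l 16566792)) (a (l 16544136) (l 16570344))) (b (l 16574200) (l 16581456))) (b (b (l 16588744) (l 16595752)) (l 16607048))) (b (l 16608432) (l 16661648)))) (b (l 16656200) (l 16605128))) (b (b (l 16560200) (l 16498216)) (b (l 16438472) (l 16379520)))))) (b (b (l 3) (l 3)) (l 3))) (b (l 3) (l 3))), by decide +kernel⟩

def k4_pm_202 : ∃ t, chk3 f_pm_202 t 31 8 1 = true :=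
  ⟨(b (b (a (b (a (b (b (l 16591504) (l 16594736)) (a (b (a (l 16581592) (l 16590760)) (l 16590760)) (l 16608728))) (b (l 16637136) (l 16646432))) (b (a (b (a (l 16596504) (l 16609744)) (a (a (l 16603720) (l 16607544)) (l 16615224))) (l 16629320)) (a (a (a (l 16615192) (l 16621608)) (l 16592384)) (a (b (l 16645960) (l 16659400)) (l 16680120))))) (b (a (b (b (l 16680904) (l 16688536)) (l 16699392)) (b (b (l 16708696) (l 16695424)) (a (l 16737800) (l 16764024)))) (b (b (l 16671272) (l 16676304)) (l 16689816)))) (b (a (a (a (b (l 16633072) (l 16647008)) (b (l 16651312) (l 16641232))) (b (b (a (l 16649496) (l 16694832)) (l 16652368)) (b (l 16661384) (l 16689088)))) (b (b (l 16693824) (l 16729568)) (a (a (l 16707448) (l 16716504)) (l 16703888)))) (b (a (a (a (l 16661856) (l 16652896)) (l 16676936)) (a (a (l 16676776) (l 16662272)) (l 16674280))) (a (a (l 16662104) (a (l 16708440) (l 16706304))) (a (b (l 16647664) (l 16659448)) (l 16597248)))))) (b (a (a (b (l 16701616) (l 16678064))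 (b (a (a (l 16693608) (l 16687176)) (l 16684648)) (a (l 16652248) (a (l 16646392) (l 16652360))))) (b (a (l 16595936) (b (a (l 16602832) (l 16592568)) (a (l 16583432) (l 16555104)))) (a (l 16609640) (l 16542984)))) (a (a (l 16601024) (b (a (l 16635872) (l 16606176)) (l 16594928))) (a (b (b (l 16591744) (l 16582224)) (a (l 16578728) (l 16546864))) (b (l 16514744) (l 16490544)))))), by decide +kernel⟩

def k5_pm_202 : ∃ t, chk3 f_pm_202 t 31 9 1 = true :=
  ⟨(b (a (b (a (l 16552888) (l 16540240)) (a (l 16488440) (l 16471840))) (b (a (b (a (l 16545128) (l 16527488)) (l 16501096)) (b (l 16469184) (l 16451488))) (a (l 16452616) (a (b (l 16449120) (l 16418416)) (l 16385288))))) (a (b (a (l 16426912) (l 16407160)) (a (l 16366776) (l 16344680))) (b (a (l 16384688) (a (l 16369336) (l 16353624))) (l 16308096)))), by decide +kernel⟩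

def k6_pm_202 : ∃ t, chk3 f_pm_202 t 31 5 1 = true :=
  ⟨(b (a (b (a (l 16280200) (l 16255480)) (l 16159992)) (b (l 16214328) (l 16099952))) (a (b (l 16064056) (l 15978576)) (l 15950616))), by decide +kernel⟩

def k7_pm_202 : ∃ t, chk3 f_pm_202 t 31 3 1 = true :=
  ⟨(b (b (a (l 15784432) (l 15788648)) (a (l 214913803591) (l 15664888))) (b (a (l 237999116551) (l 15573776)) (a (l 251957664503) (l 15509392)))), by decide +kernel⟩

theorem s8_pm_202 : ∃ t, chk3 f_pm_202 t 31 4 1 = true := ex3_b k4_pm_202 k5_pm_202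

theorem s9_pm_202 : ∃ t, chk3 f_pm_202 t 31 2 1 = true := ex3_b s8_pm_202 k6_pm_202

theorem s10_pm_202 : ∃ t, chk3 f_pm_202 t 31 1 1 = true := ex3_b s9_pm_202 k7_pm_202

theorem s11_pm_202 : ∃ t, chk3 f_pm_202 t 15 1 1 = true := ex3_a k3_pm_202 s10_pm_202

theorem s12_pm_202 : ∃ t, chk3 f_pm_202 t 7 1 1 = true := ex3_a k2_pm_202 s11_pm_202

theorem s13_pm_202 : ∃ t, chk3 f_pm_202 t 3 1 1 = true := ex3_a k1_pm_202 s12_pm_202

theorem s14_pm_202 : ∃ t, chk3 f_pm_202 t 1 1 1 = true := ex3_a k0_pm_202 s13_pm_202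

theorem c_pm_202 : CertB 0 536870912 1073741824 536870912 1045395039 1503240 3 eng mog cd0q2 cd3q2 pd0 false true false .pp 2 0 2
    ndB0q2 ndB3q2 pcB0 Cut.none Ext.none :=
  certB1 (fam := false) (s1 := true) (s2 := false) (a := 2) (b := 0) (c := 2) (cn := .pp) (n1 := ndB0q2) (n2 := ndB3q2) (pc := pcB0) (cut := Cut.none) (xt := Ext.none) (P1 := 0) (W1 := 536870912) (P2 := 1073741824) (W2 := 536870912) (P3 := 1045395039) (W3 := 1503240) (N0 := 3) (En := eng) (mo := mog) (C1 := cd0q2) (C2 := cd3q2) (C3 := pd0)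
    rfl (fun _ => rfl) s14_pm_202

noncomputable def f_pm_203 : ℕ → ℕ → ℕ → ℕ → Bool := onCell 0 536870912 0 1230186008 1045395039 1503240
    (rowB 3 eng mog cd0q2 cd3q3 pd0 0 false true false .up 2 0 3 (qsf 0 536870912 0 1230186008 0) ndB0q2 ndB3q3 pcB0 Cut.none Ext.none)

def k0_pm_203 : ∃ t, chk3 f_pm_203 t 1 1 1 = true :=
  ⟨(b (l 2) (a (l 3) (a (l 3) (b (l 2) (a (l 3) (b (l 2) (a (l 3) (b (l 2) (a (b (l 2) (l 15843024)) (l 15715896)))))))))), by decide +kernel⟩

theorem c_pm_203 : CertB 0 536870912 0 1230186008 1045395039 1503240 3 eng mog cd0q2 cd3q3 pd0 false true false .up 2 0 3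
    ndB0q2 ndB3q3 pcB0 Cut.none Ext.none :=
  certB0 (fam := false) (s1 := true) (s2 := false) (a := 2) (b := 0) (c := 3) (cn := .up) (n1 := ndB0q2) (n2 := ndB3q3) (pc := pcB0) (cut := Cut.none) (xt := Ext.none) (P1 := 0) (W1 := 536870912) (P2 := 0) (W2 := 1230186008) (P3 := 1045395039) (W3 := 1503240) (N0 := 3) (En := eng) (mo := mog) (C1 := cd0q2) (C2 := cd3q3) (C3 := pd0)
    rfl k0_pm_203

noncomputable def cut_pm_213 : Cut := Cut.of [[⟨0, 1, 0, 14155776⟩, ⟨1, 1, 0, 14155776⟩, ⟨2, 2, 0, 524288⟩]]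

noncomputable def xt_pm_213 : Ext := extD3 3 ⟨4, 1, 1, 5, 33, 5, 163, 200, 81, 200, 1, 64⟩ eng cd0q2 cd3q3 pd1 false true false .pnn 2 1 3 rfl ndB0q2 ndB3q3 pcB1

noncomputable def f_pm_213 : ℕ → ℕ → ℕ → ℕ → Bool := onCell 0 536870912 0 1230186008 1045395039 1503240
    (rowB 3 eng mog cd0q2 cd3q3 pd1 0 false true false .pnn 2 1 3 (qsf 0 536870912 0 1230186008 1) ndB0q2 ndB3q3 pcB1 cut_pm_213 xt_pm_213)

def k0_pm_213 : ∃ t, chk3 f_pm_213 t 2 4 1 = true :=
  ⟨(l 3), by decide +kernel⟩

def k1_pm_213 : ∃ t, chk3 f_pm_213 t 6 8 1 = true :=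
  ⟨(l 3), by decide +kernel⟩

def k2_pm_213 : ∃ t, chk3 f_pm_213 t 14 8 1 = true :=
  ⟨(l 3), by decide +kernel⟩

def k3_pm_213 : ∃ t, chk3 f_pm_213 t 30 8 1 = true :=
  ⟨(l 3), by decide +kernel⟩

def k4_pm_213 : ∃ t, chk3 f_pm_213 t 62 8 1 = true :=
  ⟨(l 3), by decide +kernel⟩

def k5_pm_213 : ∃ t, chk3 f_pm_213 t 126 8 1 = true :=
  ⟨(l 3), by decide +kernel⟩

def k6_pm_213 : ∃ t, chk3 f_pm_213 t 254 16 1 = true :=
  ⟨(l 3), by decide +kernel⟩

def k7_pm_213 : ∃ t, chk3 f_pm_213 t 255 32 1 = true :=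
  ⟨(l 6), by decide +kernel⟩

def k8_pm_213 : ∃ t, chk3 f_pm_213 t 510 33 1 = true :=
  ⟨(l 3), by decide +kernel⟩

def k9_pm_213 : ∃ t, chk3 f_pm_213 t 1022 33 1 = true :=
  ⟨(a (l 3) (b (l 3) (b (a (l 3) (a (l 3) (b (a (l 3) (a (l 8252127644833572869467406431) (b (l 3) (b (l 6704702595726848487916453983) (l 3058582323769126072368955487))))) (b (a (l 7207615736686534774349906015) (a (b (l 4412579241737511641393070175) (l 186461978007)) (l 16776664))) (a (a (l 6695031189169931798116155487) (l 3339657503042549136504645215)) (l 16777016)))))) (b (a (l 3) (a (a (l 3) (b (b (l 393694149975) (l 5583423811276937256467113567)) (b (l 4558254728349404628470212191) (l 604408290149762527323743)))) (l 3542757036126113466443834975))) (a (b (l 3) (a (l 3) (b (l 3) (l 400136601223)))) (a (a (b (b (l 5834880388962539528598824543) (l 4529240516172646331878827615)) (l 3310643298359779108029343327)) (l 604418378210934972524127)) (l 16777128))))))), by decide +kernel⟩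

def k10_pm_213 : ∃ t, chk3 f_pm_213 t 1023 33 1 = true :=
  ⟨(b (b (a (b (a (l 3) (b (l 6) (a (a (a (l 8271470457947407417299304543) (b (a (l 3) (a (l 6994844792434359421126574175) (b (l 375977410023) (l 259476422135)))) (a (b (l 6704702595726848350477615199) (l 4383565022066760266322280543)) (l 202031234535)))) (b (l 3687828147162011290520036959) (l 16776992))) (l 16777016)))) (a (a (l 3) (a (l 3) (a (a (l 8242456238276655629911441503) (b (l 3) (b (l 3) (b (l 6704702595726848281758089311) (l 256255196615))))) (a (b (l 3) (b (b (l 377051151799) (l 4422250648294428468632322143)) (l 16776928))) (b (b (l 3) (b (l 3) (l 6637002749828429047974559839))) (l 3639471109189280933348894303)))))) (b (a (a (b (a (a (l 7043201825218944588114788447) (a (b (l 375977409991) (l 176261430743)) (l 3281024674578217977953910879))) (l 16776984)) (l 3649142514881505670060320351)) (l 16776992)) (l 16777008)) (l 16776832)))) (l 16777072)) (a (b (a (b (a (l 3) (b (a (l 8165084985821320805839306847) (c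 (l 3571771258679174581626316383) (b (l 3591114070063627078706112095) (l 206326201799)))) (a (a (l 3) (a (l 6656345562942263320928256095) (l 3193982015565964539936079967))) (l 16776968)))) (a (l 8329498897288909411526672479) (a (a (a (b (l 3) (l 4451264867965179500105760863)) (b (b (l 377051151767) (l 249812745639)) (l 16776800))) (l 604387249331753696388703)) (l 16776976)))) (l 16777008)) (a (a (a (a (l 3) (a (l 8242456238276655767350362207) (b (l 3) (b (l 3) (l 4219151110599170698562191455))))) (a (b (b (l 3) (l 6733716815397599656828846175)) (b (c (l 4257836736826838900872216671) (l 4248165330269922004913553503)) (l 16776800))) (b (a (b (l 376514280839) (l 144114260362395743)) (l 3261681861464381918293704799)) (l 16776968)))) (l 604364767353342891959903)) (l 16777024))) (l 16777088))) (b (a (b (a (a (a (a (b (b (l 377588022647) (l 4460936274522096808381284447)) (l 604393013939345450116703)) (l 3562099844628265844138714719)) (l 16776824)) (l 16777008)) (l 16777056)) (l 16777072))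 (l 16777168)) (l 16776760))), by decide +kernel⟩

def k11_pm_213 : ∃ t, chk3 f_pm_213 t 127 17 1 = true :=
  ⟨(a (l 3) (b (a (l 3) (b (a (b (a (l 3) (b (a (a (l 3) (a (b (l 3) (l 5602766646296280323109545567)) (b (l 4538911932241162617187116639) (l 199346880311)))) (l 16777216)) (a (a (a (l 3) (a (l 6879392317285704641531209311) (l 4732340071738184468417685087))) (l 3446043006297511287108445791)) (l 16777336)))) (a (b (l 3) (a (l 3) (a (l 3) (a (l 378124894583) (a (l 4693654497391985141647238751) (l 3001158363045987648912217631)))))) (a (b (a (a (a (l 5660795118784273581919315551) (l 4519569156885507688827397727)) (l 604426592779953831745055)) (l 16777416)) (b (l 16777520) (l 16777608))) (l 16777568)))) (b (l 16777472) (l 16777800))) (a (b (a (a (l 3) (a (a (b (l 3) (l 5438352860064788368635581983)) (b (l 5776852045745867362492716575) (l 2817401615694364298372699679))) (b (l 3291300515366020723478271519) (l 16777896)))) (b (l 16777808) (l 16778032))) (a (a (a (l 3) (b (b (l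 375977411879) (b (l 367387477223) (l 222432331143))) (a (b (l 211694913079) (l 149954758535)) (l 185925109415)))) (b (b (l 193441301735) (l 16778184)) (l 16778392))) (l 16778424))) (l 16768000)))) (a (a (l 3) (a (b (l 3) (l 3)) (a (b (l 3) (a (b (l 3) (b (b (l 3) (l 181630146647)) (b (l 198273145495) (l 142975442215)))) (b (b (l 3) (b (l 193978176487) (l 210621175287))) (b (b (l 153712859207) (l 16780824)) (l 16781216))))) (b (b (b (l 3) (b (l 3) (l 373829929863))) (a (b (l 3) (b (l 369534963143) (l 205252464535))) (b (b (l 216526752791) (l 149417889207)) (l 178945789735)))) (b (b (b (a (l 139217342903) (l 16779840)) (l 178945790871)) (l 16779704)) (b (l 16780848) (l 16781368))))))) (b (a (b (a (a (b (a (b (l 366313736663) (l 226727299255)) (l 16778592)) (b (l 177335175799) (l 16778976))) (l 16778856)) (l 16779064)) (b (l 16778824) (l 16779880))) (l 16779856)) (a (b (l 16775312) (l 16781584)) (l 16760800)))))), by decide +kernel⟩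

def k12_pm_213 : ∃ t, chk3 f_pm_213 t 6 9 1 = true :=
  ⟨(l 3), by decide +kernel⟩

def k13_pm_213 : ∃ t, chk3 f_pm_213 t 14 9 1 = true :=
  ⟨(l 3), by decide +kernel⟩

def k14_pm_213 : ∃ t, chk3 f_pm_213 t 30 9 1 = true :=
  ⟨(l 3), by decide +kernel⟩

def k15_pm_213 : ∃ t, chk3 f_pm_213 t 62 9 1 = true :=
  ⟨(l 3), by decide +kernel⟩

def k16_pm_213 : ∃ t, chk3 f_pm_213 t 126 9 1 = true :=
  ⟨(l 3), by decide +kernel⟩

def k17_pm_213 : ∃ t, chk3 f_pm_213 t 254 9 1 = true :=
  ⟨(b (b (l 3) (l 3)) (a (l 3) (b (b (l 3) (a (l 3) (a (l 3) (a (l 3) (b (a (l 3) (b (l 3) (b (l 3310038894248687328217301215) (l 1898013536938802719902285919)))) (b (b (a (l 3) (l 2255855579544730550432579679)) (l 2101113074634047983025274975)) (b (l 2294541205772388169941008479) (l 2487969336910741276118204511)))))))) (a (l 3) (a (b (l 3) (a (b (l 3) (l 5805261785931644909127680031)) (b (b (l 3222996235235957251813408799) (l 1820642284482231151212380191)) (l 2197827140200678238692589599)))) (b (b (b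 (a (b (l 3) (l 6192118048209960119612539039)) (b (l 2681397468049081806631157855) (l 2874825599187422062266351775))) (a (b (l 3377738740147101957785321503) (l 2178484327089388854403055647)) (l 143832785300766751))) (b (l 2516983556581470317350387743) (l 2691068874605661152509542431))) (b (b (l 2826468566401738483091603487) (l 142177264091938847)) (l 141379568261529631)))))))), by decide +kernel⟩

def k18_pm_213 : ∃ t, chk3 f_pm_213 t 255 36 1 = true :=
  ⟨(a (b (a (l 3) (b (a (a (l 3) (a (l 3) (b (l 3455714508114576366028330527) (l 3020501164918837045799540255)))) (b (b (l 186998857495) (l 16781968)) (l 16782416))) (a (b (a (l 3) (b (l 3010829723774274874197267999) (l 3126886590639833852748420639))) (a (b (l 3) (l 297057392919)) (l 3030172537464569693292074527))) (b (a (l 604118474507847662867999) (l 16782968)) (l 16781616))))) (a (b (l 3) (a (l 3) (a (l 3) (a (l 3) (b (l 3) (l 2758768720504683262342414431)))))) (b (a (b (a (a (l 3) (l 2237117358612310214273668639)) (l 604350499960649781401119))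 (b (l 2798058546199596625854309983) (l 2914115234650546100704978527))) (l 16773632)) (c (b (l 2914114842080723135814526559) (l 3001157120917052293042546271)) (a (b (l 3039843138273435010193860191) (l 3271956432165011054408083039)) (l 16774504)))))) (b (a (b (l 16782760) (l 16772480)) (l 16762784)) (b (l 16780192) (l 16775976)))), by decide +kernel⟩

def k19_pm_213 : ∃ t, chk3 f_pm_213 t 255 37 1 = true :=
  ⟨(a (b (a (a (l 3) (a (a (l 3) (b (l 3) (b (b (l 3) (b (l 3) (l 3542152651614926065178329311))) (b (b (l 1859327910711357306182959327) (l 2081770261520443576769364191)) (b (l 2313884018886457944589172959) (l 2526654963138627937692139743)))))) (b (b (a (l 3) (b (l 2478297930354091561553199199) (l 2874825599187682165553414239))) (b (l 2536326369695565312070484063) (a (l 2265526986101899440769187935) (l 144076602068385887)))) (a (b (b (l 2652383248378572186737885279) (l 2091441668077375109981061215)) (l 144051931768963295)) (l 144052825117130847))))) (b (b (l 602478011176020002088543)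 (l 602097258921347755615839)) (l 601512439458930146453087))) (b (b (a (a (l 3) (a (b (a (l 3) (b (l 2749097313947714895473279199) (l 2971539664756801647096053983))) (b (c (l 2429940897569437125307728095) (l 2420269491012515212826853599)) (l 2526654963138594608739844319))) (l 144026574273642719))) (l 16759608)) (a (a (l 3) (c (b (l 2981211071313659169422541023) (l 3087596543439726539425956063)) (b (b (l 2961868258199832799208194271) (l 3010225290984409719857791199)) (b (l 3068253730325903536466100447) (l 3126282169667414945260437727))))) (l 16756640))) (b (a (a (a (l 3) (a (l 3) (b (b (l 3) (c (l 3435767179488751561487040735) (l 3426095772931829030530826463))) (c (l 2004399009064987325362569439) (b (l 1830313691040504707301851359) (l 2043084635292665354555818207)))))) (c (b (l 2236512766431031380001128671) (l 143937788696051935)) (b (b (l 3184310609008902714554663135) (l 2826468566402957910310994143)) (l 143932703454314719)))) (l 16753568)) (a (a (a (l 3) (a (l 3) (c (b (b (l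 2265526986101742279293550815) (l 2487969336910819135311560927)) (b (l 2700740281162978683053818079) (l 2903839818858220991239979231))) (b (b (l 2255855579544819817056846047) (l 2468626523796979708396601567)) (b (l 2681397468049139324858335455) (l 2894168412301298666442129631)))))) (l 143889685057159391)) (l 16750368))))) (b (l 601038012176427712734815) (b (l 16759376) (l 16752968)))), by decide +kernel⟩

def k20_pm_213 : ∃ t, chk3 f_pm_213 t 255 19 1 = true :=
  ⟨(b (b (b (a (a (a (a (b (l 3) (a (l 3) (a (l 3) (b (l 3) (c (l 1772285251698864174591836383) (l 1781956658255775572991836383)))))) (c (b (b (b (l 2362241051670860592619815135) (l 2468626523796932429389955295)) (b (l 2584683402479921368277844191) (l 2691068874605984683833344223))) (b (b (l 2797454346732062636637716703) (l 2913511225415067793323327711)) (l 3029568104098073362325455071))) (b (b (b (l 2352569645113938680138809567) (l 2458955117240010860506349791)) (b (l 2565340589366082491118567647) (l 2681397468049062496474398943)))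 (b (b (l 2787782940175140449278771423) (l 2903839818858145468525428959)) (l 3019896697541150900088766687))))) (b (l 143826738009555167) (l 143794027533861087))) (l 601255914191745815618783)) (l 601184432994344920999135)) (a (a (b (a (a (a (l 3) (c (b (l 1946370569723373661966401759) (l 2313884018886222511624028383)) (b (l 1936699163166451268448993503) (l 2304212612329299362192474335)))) (b (b (l 143810863804006623) (l 143811482278772959)) (l 143812238192230623))) (l 143796363993972959)) (b (b (c (l 2874825599187374508400165087) (l 2865154192630452321041318111)) (c (l 2903839818858126158348271839) (l 2894168412301203489953218783))) (c (l 2932854038528876640065192159) (l 2923182631971954109109158111)))) (l 16743096)) (l 16743960))) (a (a (b (a (b (b (b (l 2816797159845890312515272927) (l 2865154192630475135905611999)) (b (l 2923182631971993141770633439) (l 2971539664756578583636246751))) (b (l 3029568104098081058899329247) (l 143820553242427487))) (l 143799937401422047)) (b (l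 143810520197398623) (l 143810107878326367))) (l 143770250585931871)) (l 600918396352140357067871))) (b (a (b (l 143788736118112287) (l 143785162700767263)) (l 16736232)) (b (l 143316152195235871) (l 142058585544622111)))), by decide +kernel⟩

def k21_pm_213 : ∃ t, chk3 f_pm_213 t 1 5 1 = true :=
  ⟨(a (l 3) (a (l 3) (a (l 3) (a (l 3) (a (b (l 3) (l 3)) (a (b (b (l 3) (l 3)) (b (b (l 3) (l 788828833591)) (b (l 364163838855) (l 356110701047)))) (b (b (b (a (a (l 3) (b (a (l 11811205257774616655461138463) (b (l 140336681292939295) (l 127405459799))) (a (l 6588645717039070075466989599) (l 138141986976841759)))) (b (l 140365955808591903) (l 138396180380631071))) (a (a (l 1033642825975) (b (l 16152032) (l 16002808))) (l 16166768))) (b (a (b (l 348595431719) (l 348058397927)) (l 15856744)) (a (l 349668900407) (l 15708144)))) (b (b (a (l 15637384) (l 15600800)) (l 15544328)) (b (l 15491240) (l 15455152)))))))))), by decide +kernel⟩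

def k22_pm_213 : ∃ t, chk3 f_pm_213 t 1 3 1 = true :=
  ⟨(a (l 3) (a (l 3) (b (a (l 3) (a (l 3) (b (a (l 3) (b (b (a (l 342152152407) (l 15432416)) (l 340004691847)) (b (l 338394051927) (l 337857169879)))) (b (a (l 3) (b (l 337320298967) (l 15470152))) (a (l 3) (b (l 15485488) (l 15504520))))))) (a (l 3) (b (a (l 3) (a (a (l 3) (b (l 1113635667431) (l 280948813927))) (b (b (l 15527056) (l 15553112)) (b (l 15582896) (l 15616800))))) (a (l 3) (b (a (b (l 15713744) (l 15750088)) (b (l 15655368) (l 15699352))) (a (b (l 15793544) (l 15845784)) (b (l 15749720) (l 15807616)))))))))), by decide +kernel⟩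

theorem s23_pm_213 : ∃ t, chk3 f_pm_213 t 255 18 1 = true := ex3_b k18_pm_213 k19_pm_213

theorem s24_pm_213 : ∃ t, chk3 f_pm_213 t 255 9 1 = true := ex3_b s23_pm_213 k20_pm_213

theorem s25_pm_213 : ∃ t, chk3 f_pm_213 t 127 9 1 = true := ex3_a k17_pm_213 s24_pm_213

theorem s26_pm_213 : ∃ t, chk3 f_pm_213 t 63 9 1 = true := ex3_a k16_pm_213 s25_pm_213

theorem s27_pm_213 : ∃ t, chk3 f_pm_213 t 31 9 1 = true := ex3_a k15_pm_213 s26_pm_213

theorem s28_pm_213 : ∃ t, chk3 f_pm_213 t 15 9 1 = true := ex3_a k14_pm_213 s27_pm_213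

theorem s29_pm_213 : ∃ t, chk3 f_pm_213 t 7 9 1 = true := ex3_a k13_pm_213 s28_pm_213

theorem s30_pm_213 : ∃ t, chk3 f_pm_213 t 3 9 1 = true := ex3_a k12_pm_213 s29_pm_213

theorem s31_pm_213 : ∃ t, chk3 f_pm_213 t 511 33 1 = true := ex3_a k9_pm_213 k10_pm_213

theorem s32_pm_213 : ∃ t, chk3 f_pm_213 t 255 33 1 = true := ex3_a k8_pm_213 s31_pm_213

theorem s33_pm_213 : ∃ t, chk3 f_pm_213 t 255 16 1 = true := ex3_b k7_pm_213 s32_pm_213

theorem s34_pm_213 : ∃ t, chk3 f_pm_213 t 127 16 1 = true := ex3_a k6_pm_213 s33_pm_213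

theorem s35_pm_213 : ∃ t, chk3 f_pm_213 t 127 8 1 = true := ex3_b s34_pm_213 k11_pm_213

theorem s36_pm_213 : ∃ t, chk3 f_pm_213 t 63 8 1 = true := ex3_a k5_pm_213 s35_pm_213

theorem s37_pm_213 : ∃ t, chk3 f_pm_213 t 31 8 1 = true := ex3_a k4_pm_213 s36_pm_213

theorem s38_pm_213 : ∃ t, chk3 f_pm_213 t 15 8 1 = true := ex3_a k3_pm_213 s37_pm_213

theorem s39_pm_213 : ∃ t, chk3 f_pm_213 t 7 8 1 = true := ex3_a k2_pm_213 s38_pm_213

theorem s40_pm_213 : ∃ t, chk3 f_pm_213 t 3 8 1 = true := ex3_a k1_pm_213 s39_pm_213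

theorem s41_pm_213 : ∃ t, chk3 f_pm_213 t 3 4 1 = true := ex3_b s40_pm_213 s30_pm_213

theorem s42_pm_213 : ∃ t, chk3 f_pm_213 t 1 4 1 = true := ex3_a k0_pm_213 s41_pm_213

theorem s43_pm_213 : ∃ t, chk3 f_pm_213 t 1 2 1 = true := ex3_b s42_pm_213 k21_pm_213

theorem s44_pm_213 : ∃ t, chk3 f_pm_213 t 1 1 1 = true := ex3_b s43_pm_213 k22_pm_213

theorem c_pm_213 : CertB 0 536870912 0 1230186008 1045395039 1503240 3 eng mog cd0q2 cd3q3 pd1 false true false .pnn 2 1 3
    ndB0q2 ndB3q3 pcB1 cut_pm_213 xt_pm_213 :=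
  certB0 (fam := false) (s1 := true) (s2 := false) (a := 2) (b := 1) (c := 3) (cn := .pnn) (n1 := ndB0q2) (n2 := ndB3q3) (pc := pcB1) (cut := cut_pm_213) (xt := xt_pm_213) (P1 := 0) (W1 := 536870912) (P2 := 0) (W2 := 1230186008) (P3 := 1045395039) (W3 := 1503240) (N0 := 3) (En := eng) (mo := mog) (C1 := cd0q2) (C2 := cd3q3) (C3 := pd1)
    rfl s44_pm_213

noncomputable def f_mm_001 : ℕ → ℕ → ℕ → ℕ → Bool := onCell 0 536870912 0 536870912 1045395039 1503240
    (rowB 3 eng mog cd0q0 cd3q1 pd0 1 false false false .up 0 0 1 (qsf 0 536870912 536870912 536870912 0) ndB0q0 ndB3q1 pcB0 Cut.none Ext.none)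

def k0_mm_001 : ∃ t, chk3 f_mm_001 t 1 1 1 = true :=
  ⟨(l 3), by decide +kernel⟩

theorem c_mm_001 : CertB 0 536870912 536870912 536870912 1045395039 1503240 3 eng mog cd0q0 cd3q1 pd0 false false false .up 0 0 1
    ndB0q0 ndB3q1 pcB0 Cut.none Ext.none :=
  certB1 (fam := false) (s1 := false) (s2 := false) (a := 0) (b := 0) (c := 1) (cn := .up) (n1 := ndB0q0) (n2 := ndB3q1) (pc := pcB0) (cut := Cut.none) (xt := Ext.none) (P1 := 0) (W1 := 536870912) (P2 := 536870912) (W2 := 536870912) (P3 := 1045395039) (W3 := 1503240) (N0 := 3) (En := eng) (mo := mog) (C1 := cd0q0) (C2 := cd3q1) (C3 := pd0)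
    rfl (fun _ => rfl) k0_mm_001

noncomputable def f_mm_011 : ℕ → ℕ → ℕ → ℕ → Bool := onCell 0 536870912 536870912 536870912 1045395039 1503240
    (rowB 3 eng mog cd0q0 cd3q1 pd1 1 false false false .pnn 0 1 1 (qsf 0 536870912 536870912 536870912 1) ndB0q0 ndB3q1 pcB1 Cut.none Ext.none)

def k0_mm_011 : ∃ t, chk3 f_mm_011 t 1 1 1 = true :=
  ⟨(l 5), by decide +kernel⟩

theorem c_mm_011 : CertB 0 536870912 536870912 536870912 1045395039 1503240 3 eng mog cd0q0 cd3q1 pd1 false false false .pnn 0 1 1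
    ndB0q0 ndB3q1 pcB1 Cut.none Ext.none :=
  certB1 (fam := false) (s1 := false) (s2 := false) (a := 0) (b := 1) (c := 1) (cn := .pnn) (n1 := ndB0q0) (n2 := ndB3q1) (pc := pcB1) (cut := Cut.none) (xt := Ext.none) (P1 := 0) (W1 := 536870912) (P2 := 536870912) (W2 := 536870912) (P3 := 1045395039) (W3 := 1503240) (N0 := 3) (En := eng) (mo := mog) (C1 := cd0q0) (C2 := cd3q1) (C3 := pd1)
    rfl (fun _ => rfl) k0_mm_011

noncomputable def f_mm_012 : ℕ → ℕ → ℕ → ℕ → Bool := onCell 0 536870912 1073741824 536870912 1045395039 1503240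
    (rowB 3 eng mog cd0q0 cd3q2 pd1 0 false false false .pnp 0 1 2 (qsf 0 536870912 1073741824 536870912 1) ndB0q0 ndB3q2 pcB1 Cut.none Ext.none)

def k0_mm_012 : ∃ t, chk3 f_mm_012 t 1 1 1 = true :=
  ⟨(l 5), by decide +kernel⟩

theorem c_mm_012 : CertB 0 536870912 1073741824 536870912 1045395039 1503240 3 eng mog cd0q0 cd3q2 pd1 false false false .pnp 0 1 2
    ndB0q0 ndB3q2 pcB1 Cut.none Ext.none :=
  certB0 (fam := false) (s1 := false) (s2 := false) (a := 0) (b := 1) (c := 2) (cn := .pnp) (n1 := ndB0q0) (n2 := ndB3q2) (pc := pcB1) (cut := Cut.none) (xt := Ext.none) (P1 := 0) (W1 := 536870912) (P2 := 1073741824) (W2 := 536870912) (P3 := 1045395039) (W3 := 1503240) (N0 := 3) (En := eng) (mo := mog) (C1 := cd0q0) (C2 := cd3q2) (C3 := pd1)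
    rfl k0_mm_012

noncomputable def f_mm_022 : ℕ → ℕ → ℕ → ℕ → Bool := onCell 0 536870912 1073741824 536870912 1045395039 1503240
    (rowB 3 eng mog cd0q0 cd3q2 pd2 0 false false false .pp 0 2 2 (qsf 0 536870912 1073741824 536870912 2) ndB0q0 ndB3q2 pcB2 Cut.none Ext.none)

def k0_mm_022 : ∃ t, chk3 f_mm_022 t 1 1 1 = true :=
  ⟨(l 5), by decide +kernel⟩

theorem c_mm_022 : CertB 0 536870912 1073741824 536870912 1045395039 1503240 3 eng mog cd0q0 cd3q2 pd2 false false false .pp 0 2 2
    ndB0q0 ndB3q2 pcB2 Cut.none Ext.none :=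
  certB0 (fam := false) (s1 := false) (s2 := false) (a := 0) (b := 2) (c := 2) (cn := .pp) (n1 := ndB0q0) (n2 := ndB3q2) (pc := pcB2) (cut := Cut.none) (xt := Ext.none) (P1 := 0) (W1 := 536870912) (P2 := 1073741824) (W2 := 536870912) (P3 := 1045395039) (W3 := 1503240) (N0 := 3) (En := eng) (mo := mog) (C1 := cd0q0) (C2 := cd3q2) (C3 := pd2)
    rfl k0_mm_022

noncomputable def f_mm_023 : ℕ → ℕ → ℕ → ℕ → Bool := onCell 0 536870912 0 1230186008 1045395039 1503240
    (rowB 3 eng mog cd0q0 cd3q3 pd2 0 false false false .up 0 2 3 (qsf 0 536870912 0 1230186008 2) ndB0q0 ndB3q3 pcB2 Cut.none Ext.none)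

def k0_mm_023 : ∃ t, chk3 f_mm_023 t 1 1 1 = true :=
  ⟨(l 5), by decide +kernel⟩

theorem c_mm_023 : CertB 0 536870912 0 1230186008 1045395039 1503240 3 eng mog cd0q0 cd3q3 pd2 false false false .up 0 2 3
    ndB0q0 ndB3q3 pcB2 Cut.none Ext.none :=
  certB0 (fam := false) (s1 := false) (s2 := false) (a := 0) (b := 2) (c := 3) (cn := .up) (n1 := ndB0q0) (n2 := ndB3q3) (pc := pcB2) (cut := Cut.none) (xt := Ext.none) (P1 := 0) (W1 := 536870912) (P2 := 0) (W2 := 1230186008) (P3 := 1045395039) (W3 := 1503240) (N0 := 3) (En := eng) (mo := mog) (C1 := cd0q0) (C2 := cd3q3) (C3 := pd2)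
    rfl k0_mm_023

noncomputable def f_mm_033 : ℕ → ℕ → ℕ → ℕ → Bool := onCell 0 536870912 0 1230186008 1045395039 1503240
    (rowB 3 eng mog cd0q0 cd3q3 pd3 0 false false false .pnn 0 3 3 (qsf 0 536870912 0 1230186008 3) ndB0q0 ndB3q3 pcB3 Cut.none Ext.none)

def k0_mm_033 : ∃ t, chk3 f_mm_033 t 1 1 1 = true :=
  ⟨(l 5), by decide +kernel⟩

theorem c_mm_033 : CertB 0 536870912 0 1230186008 1045395039 1503240 3 eng mog cd0q0 cd3q3 pd3 false false false .pnn 0 3 3
    ndB0q0 ndB3q3 pcB3 Cut.none Ext.none :=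
  certB0 (fam := false) (s1 := false) (s2 := false) (a := 0) (b := 3) (c := 3) (cn := .pnn) (n1 := ndB0q0) (n2 := ndB3q3) (pc := pcB3) (cut := Cut.none) (xt := Ext.none) (P1 := 0) (W1 := 536870912) (P2 := 0) (W2 := 1230186008) (P3 := 1045395039) (W3 := 1503240) (N0 := 3) (En := eng) (mo := mog) (C1 := cd0q0) (C2 := cd3q3) (C3 := pd3)
    rfl k0_mm_033

noncomputable def cut_mm_101 : Cut := Cut.of [[⟨0, 1, 0, 26843545⟩, ⟨1, 0, 0, 26843545⟩, ⟨2, 1, 0, 26843545⟩]]

noncomputable def f_mm_101 : ℕ → ℕ → ℕ → ℕ → Bool := onCell 536870912 536870912 0 536870912 1045395039 1503240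
    (rowB 3 eng mog cd0q1 cd3q1 pd0 1 false false false .npn 1 0 1 (qsf 536870912 536870912 536870912 536870912 0) ndB0q1 ndB3q1 pcB0 cut_mm_101 Ext.none)

def k0_mm_101 : ∃ t, chk3 f_mm_101 t 1 1 1 = true :=
  ⟨(a (l 3) (a (l 3) (a (l 3) (b (b (b (a (l 3) (b (b (a (l 3) (l 6)) (l 3)) (l 3))) (l 3)) (l 2)) (l 2))))), by decide +kernel⟩

theorem c_mm_101 : CertB 536870912 536870912 536870912 536870912 1045395039 1503240 3 eng mog cd0q1 cd3q1 pd0 false false false .npn 1 0 1
    ndB0q1 ndB3q1 pcB0 cut_mm_101 Ext.none :=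
  certB1 (fam := false) (s1 := false) (s2 := false) (a := 1) (b := 0) (c := 1) (cn := .npn) (n1 := ndB0q1) (n2 := ndB3q1) (pc := pcB0) (cut := cut_mm_101) (xt := Ext.none) (P1 := 536870912) (W1 := 536870912) (P2 := 536870912) (W2 := 536870912) (P3 := 1045395039) (W3 := 1503240) (N0 := 3) (En := eng) (mo := mog) (C1 := cd0q1) (C2 := cd3q1) (C3 := pd0)
    rfl (fun _ => rfl) k0_mm_101

noncomputable def f_mm_102 : ℕ → ℕ → ℕ → ℕ → Bool := onCell 536870912 536870912 0 536870912 1045395039 1503240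
    (rowB 3 eng mog cd0q1 cd3q2 pd0 1 false false false .npp 1 0 2 (qsf 536870912 536870912 1073741824 536870912 0) ndB0q1 ndB3q2 pcB0 Cut.none Ext.none)

def k0_mm_102 : ∃ t, chk3 f_mm_102 t 1 1 1 = true :=
  ⟨(l 3), by decide +kernel⟩

theorem c_mm_102 : CertB 536870912 536870912 1073741824 536870912 1045395039 1503240 3 eng mog cd0q1 cd3q2 pd0 false false false .npp 1 0 2
    ndB0q1 ndB3q2 pcB0 Cut.none Ext.none :=
  certB1 (fam := false) (s1 := false) (s2 := false) (a := 1) (b := 0) (c := 2) (cn := .npp) (n1 := ndB0q1) (n2 := ndB3q2) (pc := pcB0) (cut := Cut.none) (xt := Ext.none) (P1 := 536870912) (W1 := 536870912) (P2 := 1073741824) (W2 := 536870912) (P3 := 1045395039) (W3 := 1503240) (N0 := 3) (En := eng) (mo := mog) (C1 := cd0q1) (C2 := cd3q2) (C3 := pd0)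
    rfl (fun _ => rfl) k0_mm_102

noncomputable def f_mm_112 : ℕ → ℕ → ℕ → ℕ → Bool := onCell 536870912 536870912 536870912 536870912 1045395039 1503240
    (rowB 3 eng mog cd0q1 cd3q2 pd1 1 false false false .dn 1 1 2 (qsf 536870912 536870912 1073741824 536870912 1) ndB0q1 ndB3q2 pcB1 Cut.none Ext.none)

def k0_mm_112 : ∃ t, chk3 f_mm_112 t 1 1 1 = true :=
  ⟨(l 5), by decide +kernel⟩

theorem c_mm_112 : CertB 536870912 536870912 1073741824 536870912 1045395039 1503240 3 eng mog cd0q1 cd3q2 pd1 false false false .dn 1 1 2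
    ndB0q1 ndB3q2 pcB1 Cut.none Ext.none :=
  certB1 (fam := false) (s1 := false) (s2 := false) (a := 1) (b := 1) (c := 2) (cn := .dn) (n1 := ndB0q1) (n2 := ndB3q2) (pc := pcB1) (cut := Cut.none) (xt := Ext.none) (P1 := 536870912) (W1 := 536870912) (P2 := 1073741824) (W2 := 536870912) (P3 := 1045395039) (W3 := 1503240) (N0 := 3) (En := eng) (mo := mog) (C1 := cd0q1) (C2 := cd3q2) (C3 := pd1)
    rfl (fun _ => rfl) k0_mm_112

noncomputable def f_mm_113 : ℕ → ℕ → ℕ → ℕ → Bool := onCell 536870912 536870912 0 1230186008 1045395039 1503240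
    (rowB 3 eng mog cd0q1 cd3q3 pd1 0 false false false .nn 1 1 3 (qsf 536870912 536870912 0 1230186008 1) ndB0q1 ndB3q3 pcB1 Cut.none Ext.none)

def k0_mm_113 : ∃ t, chk3 f_mm_113 t 1 1 1 = true :=
  ⟨(b (l 5) (l 5)), by decide +kernel⟩

theorem c_mm_113 : CertB 536870912 536870912 0 1230186008 1045395039 1503240 3 eng mog cd0q1 cd3q3 pd1 false false false .nn 1 1 3
    ndB0q1 ndB3q3 pcB1 Cut.none Ext.none :=
  certB0 (fam := false) (s1 := false) (s2 := false) (a := 1) (b := 1) (c := 3) (cn := .nn) (n1 := ndB0q1) (n2 := ndB3q3) (pc := pcB1) (cut := Cut.none) (xt := Ext.none) (P1 := 536870912) (W1 := 536870912) (P2 := 0) (W2 := 1230186008) (P3 := 1045395039) (W3 := 1503240) (N0 := 3) (En := eng) (mo := mog) (C1 := cd0q1) (C2 := cd3q3) (C3 := pd1)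
    rfl k0_mm_113

noncomputable def f_mm_123 : ℕ → ℕ → ℕ → ℕ → Bool := onCell 536870912 536870912 0 1230186008 1045395039 1503240
    (rowB 3 eng mog cd0q1 cd3q3 pd2 0 false false false .npn 1 2 3 (qsf 536870912 536870912 0 1230186008 2) ndB0q1 ndB3q3 pcB2 Cut.none Ext.none)

def k0_mm_123 : ∃ t, chk3 f_mm_123 t 1 1 1 = true :=
  ⟨(b (l 5) (l 5)), by decide +kernel⟩

theorem c_mm_123 : CertB 536870912 536870912 0 1230186008 1045395039 1503240 3 eng mog cd0q1 cd3q3 pd2 false false false .npn 1 2 3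
    ndB0q1 ndB3q3 pcB2 Cut.none Ext.none :=
  certB0 (fam := false) (s1 := false) (s2 := false) (a := 1) (b := 2) (c := 3) (cn := .npn) (n1 := ndB0q1) (n2 := ndB3q3) (pc := pcB2) (cut := Cut.none) (xt := Ext.none) (P1 := 536870912) (W1 := 536870912) (P2 := 0) (W2 := 1230186008) (P3 := 1045395039) (W3 := 1503240) (N0 := 3) (En := eng) (mo := mog) (C1 := cd0q1) (C2 := cd3q3) (C3 := pd2)
    rfl k0_mm_123

noncomputable def f_mm_133 : ℕ → ℕ → ℕ → ℕ → Bool := onCell 1610612736 536870912 0 1230186008 1045395039 1503240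
    (rowB 3 eng mog cd0q1 cd3q3 pd3 2 false false false .dn 1 3 3 (qsf 536870912 536870912 0 1230186008 3) ndB0q1 ndB3q3 pcB3 Cut.none Ext.none)

def k0_mm_133 : ∃ t, chk3 f_mm_133 t 1 1 1 = true :=
  ⟨(l 5), by decide +kernel⟩

theorem c_mm_133 : CertB 536870912 536870912 0 1230186008 1045395039 1503240 3 eng mog cd0q1 cd3q3 pd3 false false false .dn 1 3 3
    ndB0q1 ndB3q3 pcB3 Cut.none Ext.none :=
  certB2 (fam := false) (s1 := false) (s2 := false) (a := 1) (b := 3) (c := 3) (cn := .dn) (n1 := ndB0q1) (n2 := ndB3q3) (pc := pcB3) (cut := Cut.none) (xt := Ext.none) (P1 := 536870912) (W1 := 536870912) (P2 := 0) (W2 := 1230186008) (P3 := 1045395039) (W3 := 1503240) (N0 := 3) (En := eng) (mo := mog) (C1 := cd0q1) (C2 := cd3q3) (C3 := pd3)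
    rfl (fun _ => rfl) k0_mm_133

noncomputable def f_mm_202 : ℕ → ℕ → ℕ → ℕ → Bool := onCell 0 536870912 1073741824 536870912 1045395039 1503240
    (rowB 3 eng mog cd0q2 cd3q2 pd0 0 false false false .pp 2 0 2 (qsf 0 536870912 1073741824 536870912 0) ndB0q2 ndB3q2 pcB0 Cut.none Ext.none)

def k0_mm_202 : ∃ t, chk3 f_mm_202 t 1 1 1 = true :=
  ⟨(l 3), by decide +kernel⟩

theorem c_mm_202 : CertB 0 536870912 1073741824 536870912 1045395039 1503240 3 eng mog cd0q2 cd3q2 pd0 false false false .pp 2 0 2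
    ndB0q2 ndB3q2 pcB0 Cut.none Ext.none :=
  certB0 (fam := false) (s1 := false) (s2 := false) (a := 2) (b := 0) (c := 2) (cn := .pp) (n1 := ndB0q2) (n2 := ndB3q2) (pc := pcB0) (cut := Cut.none) (xt := Ext.none) (P1 := 0) (W1 := 536870912) (P2 := 1073741824) (W2 := 536870912) (P3 := 1045395039) (W3 := 1503240) (N0 := 3) (En := eng) (mo := mog) (C1 := cd0q2) (C2 := cd3q2) (C3 := pd0)
    rfl k0_mm_202

noncomputable def f_mm_203 : ℕ → ℕ → ℕ → ℕ → Bool := onCell 0 536870912 0 1230186008 1045395039 1503240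
    (rowB 3 eng mog cd0q2 cd3q3 pd0 0 false false false .up 2 0 3 (qsf 0 536870912 0 1230186008 0) ndB0q2 ndB3q3 pcB0 Cut.none Ext.none)

def k0_mm_203 : ∃ t, chk3 f_mm_203 t 1 1 1 = true :=
  ⟨(b (l 2) (l 3)), by decide +kernel⟩

theorem c_mm_203 : CertB 0 536870912 0 1230186008 1045395039 1503240 3 eng mog cd0q2 cd3q3 pd0 false false false .up 2 0 3
    ndB0q2 ndB3q3 pcB0 Cut.none Ext.none :=
  certB0 (fam := false) (s1 := false) (s2 := false) (a := 2) (b := 0) (c := 3) (cn := .up) (n1 := ndB0q2) (n2 := ndB3q3) (pc := pcB0) (cut := Cut.none) (xt := Ext.none) (P1 := 0) (W1 := 536870912) (P2 := 0) (W2 := 1230186008) (P3 := 1045395039) (W3 := 1503240) (N0 := 3) (En := eng) (mo := mog) (C1 := cd0q2) (C2 := cd3q3) (C3 := pd0)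
    rfl k0_mm_203

noncomputable def f_mm_213 : ℕ → ℕ → ℕ → ℕ → Bool := onCell 0 536870912 0 1230186008 1045395039 1503240
    (rowB 3 eng mog cd0q2 cd3q3 pd1 0 false false false .pnn 2 1 3 (qsf 0 536870912 0 1230186008 1) ndB0q2 ndB3q3 pcB1 Cut.none Ext.none)

def k0_mm_213 : ∃ t, chk3 f_mm_213 t 1 1 1 = true :=
  ⟨(b (a (l 3) (l 5)) (l 3)), by decide +kernel⟩

theorem c_mm_213 : CertB 0 536870912 0 1230186008 1045395039 1503240 3 eng mog cd0q2 cd3q3 pd1 false false false .pnn 2 1 3
    ndB0q2 ndB3q3 pcB1 Cut.none Ext.none :=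
  certB0 (fam := false) (s1 := false) (s2 := false) (a := 2) (b := 1) (c := 3) (cn := .pnn) (n1 := ndB0q2) (n2 := ndB3q3) (pc := pcB1) (cut := Cut.none) (xt := Ext.none) (P1 := 0) (W1 := 536870912) (P2 := 0) (W2 := 1230186008) (P3 := 1045395039) (W3 := 1503240) (N0 := 3) (En := eng) (mo := mog) (C1 := cd0q2) (C2 := cd3q3) (C3 := pd1)
    rfl k0_mm_213

end Pool.Agent.Strip051.G.I9736_9750.Tab.C.BB03

namespace Pool.Agent.Strip051.G.I9736_9750.Tab.C.BB04

open Pool.Agent.Strip051.PB Pool.Agent.Strip051.PB.T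
open Pool.Agent.Strip051.G.I9736_9750.Tab

noncomputable def f_pp_001 : ℕ → ℕ → ℕ → ℕ → Bool := onCell 0 536870912 0 536870912 1045395039 1503240
    (rowB 3 eng mog cd0q0 cd4q1 pd0 1 false true true .up 0 0 1 (qsf 0 536870912 536870912 536870912 0) ndB0q0 ndB4q1 pcB0 Cut.none Ext.none)

def k0_pp_001 : ∃ t, chk3 f_pp_001 t 1 1 1 = true :=
  ⟨(l 3), by decide +kernel⟩

theorem c_pp_001 : CertB 0 536870912 536870912 536870912 1045395039 1503240 3 eng mog cd0q0 cd4q1 pd0 false true true .up 0 0 1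
    ndB0q0 ndB4q1 pcB0 Cut.none Ext.none :=
  certB1 (fam := false) (s1 := true) (s2 := true) (a := 0) (b := 0) (c := 1) (cn := .up) (n1 := ndB0q0) (n2 := ndB4q1) (pc := pcB0) (cut := Cut.none) (xt := Ext.none) (P1 := 0) (W1 := 536870912) (P2 := 536870912) (W2 := 536870912) (P3 := 1045395039) (W3 := 1503240) (N0 := 3) (En := eng) (mo := mog) (C1 := cd0q0) (C2 := cd4q1) (C3 := pd0)
    rfl (fun _ => rfl) k0_pp_001

noncomputable def cut_pp_011 : Cut := Cut.of [[⟨0, 0, 0, 26843545⟩, ⟨1, 1, 0, 26843545⟩, ⟨2, 1, 0, 26843545⟩]]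

noncomputable def f_pp_011 : ℕ → ℕ → ℕ → ℕ → Bool := onCell 0 536870912 536870912 536870912 1045395039 1503240
    (rowB 3 eng mog cd0q0 cd4q1 pd1 1 false true true .pnn 0 1 1 (qsf 0 536870912 536870912 536870912 1) ndB0q0 ndB4q1 pcB1 cut_pp_011 Ext.none)

def k0_pp_011 : ∃ t, chk3 f_pp_011 t 1 1 1 = true :=
  ⟨(b (l 3) (a (b (l 3) (a (b (l 3) (a (b (l 3) (a (b (l 3) (a (l 6) (l 3))) (l 3))) (l 3))) (l 3))) (l 3))), by decide +kernel⟩

theorem c_pp_011 : CertB 0 536870912 536870912 536870912 1045395039 1503240 3 eng mog cd0q0 cd4q1 pd1 false true true .pnn 0 1 1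
    ndB0q0 ndB4q1 pcB1 cut_pp_011 Ext.none :=
  certB1 (fam := false) (s1 := true) (s2 := true) (a := 0) (b := 1) (c := 1) (cn := .pnn) (n1 := ndB0q0) (n2 := ndB4q1) (pc := pcB1) (cut := cut_pp_011) (xt := Ext.none) (P1 := 0) (W1 := 536870912) (P2 := 536870912) (W2 := 536870912) (P3 := 1045395039) (W3 := 1503240) (N0 := 3) (En := eng) (mo := mog) (C1 := cd0q0) (C2 := cd4q1) (C3 := pd1)
    rfl (fun _ => rfl) k0_pp_011

noncomputable def f_pp_012 : ℕ → ℕ → ℕ → ℕ → Bool := onCell 0 536870912 536870912 536870912 1045395039 1503240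
    (rowB 3 eng mog cd0q0 cd4q2 pd1 1 false true true .pnp 0 1 2 (qsf 0 536870912 1073741824 536870912 1) ndB0q0 ndB4q2 pcB1 Cut.none Ext.none)

def k0_pp_012 : ∃ t, chk3 f_pp_012 t 1 1 1 = true :=
  ⟨(a (l 3) (l 3)), by decide +kernel⟩

theorem c_pp_012 : CertB 0 536870912 1073741824 536870912 1045395039 1503240 3 eng mog cd0q0 cd4q2 pd1 false true true .pnp 0 1 2
    ndB0q0 ndB4q2 pcB1 Cut.none Ext.none :=
  certB1 (fam := false) (s1 := true) (s2 := true) (a := 0) (b := 1) (c := 2) (cn := .pnp) (n1 := ndB0q0) (n2 := ndB4q2) (pc := pcB1) (cut := Cut.none) (xt := Ext.none) (P1 := 0) (W1 := 536870912) (P2 := 1073741824) (W2 := 536870912) (P3 := 1045395039) (W3 := 1503240) (N0 := 3) (En := eng) (mo := mog) (C1 := cd0q0) (C2 := cd4q2) (C3 := pd1)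
    rfl (fun _ => rfl) k0_pp_012

noncomputable def f_pp_022 : ℕ → ℕ → ℕ → ℕ → Bool := onCell 0 536870912 1073741824 536870912 1045395039 1503240
    (rowB 3 eng mog cd0q0 cd4q2 pd2 1 false true true .pp 0 2 2 (qsf 0 536870912 1073741824 536870912 2) ndB0q0 ndB4q2 pcB2 Cut.none Ext.none)

def k0_pp_022 : ∃ t, chk3 f_pp_022 t 2 4 1 = true :=
  ⟨(b (a (l 3) (l 3)) (b (a (b (b (l 3) (a (a (a (l 16478992) (l 16373424)) (l 16207952)) (a (l 16066008) (l 15920832)))) (a (a (a (l 16399368) (b (l 16350344) (l 16327864))) (b (l 16208928) (l 16190424))) (a (b (l 16049768) (l 16036240)) (b (l 15908264) (l 15900432))))) (a (b (a (b (l 15797096) (l 15787816)) (l 15673880)) (a (b (l 15779544) (l 15778112)) (l 15670504))) (b (l 180017122327) (b (l 15531696) (l 15546688))))) (a (a (a (a (b (l 16404776) (l 16387416)) (b (l 16287800) (l 16295800))) (b (l 16094568) (l 16171568))) (b (a (l 16033792) (l 15905936)) (a (l 16033696) (l 15913072)))) (a (b (a (l 15790320) (l 15690720)) (a (l 15804704)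 (l 15712104))) (b (l 15571736) (l 15597912)))))), by decide +kernel⟩

def k1_pp_022 : ∃ t, chk3 f_pp_022 t 4 5 1 = true :=
  ⟨(a (b (b (a (b (a (l 16368080) (l 16280504)) (b (a (l 16337216) (l 16226416)) (a (b (l 16288536) (b (l 16254384) (l 16229992))) (b (l 16198376) (b (l 16165304) (a (l 16163672) (l 16118872))))))) (b (b (l 16164592) (l 16157072)) (b (a (l 16161696) (l 16085040)) (b (l 16033704) (b (a (l 16081576) (l 16007872)) (a (l 16016736) (b (b (b (l 15992336) (l 15964032)) (l 15979968)) (l 15977872)))))))) (a (a (l 16143904) (a (l 16101384) (l 16058552))) (a (l 15980048) (b (l 15954032) (l 15908640))))) (a (a (b (l 16032456) (l 15918248)) (b (a (l 15994944) (l 15955624)) (a (l 15885608) (l 15849696)))) (b (a (l 15860864) (b (l 15862480) (l 15815504))) (a (b (l 15827232) (l 15775744)) (b (l 15767672) (l 15718952)))))) (b (b (b (a (b (l 16032232) (l 16023344)) (b (l 15916672) (l 15902680))) (b (a (l 15981928) (l 15857936)) (b (a (l 15896232) (a (l 15846504) (l 15788888)))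 (a (b (a (l 15940416) (l 15877640)) (a (b (b (b (l 15925336) (a (l 15913384) (l 15881248))) (l 15913288)) (l 15911328)) (b (b (b (l 15863008) (b (l 15858104) (l 15832920))) (l 15851288)) (l 15849464)))) (b (a (l 15818416) (l 15761768)) (a (b (b (b (l 15804224) (b (l 15799448) (l 15774376))) (l 15792840)) (l 15791136)) (b (b (b (l 15748032) (l 15720448)) (l 15736976)) (l 15735408)))))))) (a (a (b (l 15889000) (l 15846432)) (b (l 15828608) (l 15788760))) (a (b (l 15771736) (l 15734576)) (a (l 15713264) (l 15687424))))) (a (b (a (b (l 15803032) (l 15758760)) (b (l 15748032) (l 15706368))) (a (b (l 15713584) (l 15667472)) (b (l 15663752) (l 15620136)))) (b (a (b (l 15696480) (l 15636424)) (a (l 15640992) (l 15617808))) (a (b (l 15596312) (l 15555152)) (a (l 15564528) (l 15543864))))))), by decide +kernel⟩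

def k2_pp_022 : ∃ t, chk3 f_pp_022 t 5 5 1 = true :=
  ⟨(b (b (b (a (a (b (l 15810648) (l 15788856)) (l 15701456)) (a (l 15617424) (l 15545184))) (a (b (a (l 15746016) (l 15649368)) (b (a (l 15708616) (l 15615080)) (a (b (l 15682968) (a (l 15668456) (l 15640464))) (b (l 15591360) (l 15574344))))) (b (l 15532928) (b (l 15503200) (b (l 15482320) (l 15467328)))))) (a (a (a (l 15650400) (l 15604400)) (l 15542568)) (a (l 15472776) (l 15416968)))) (a (a (b (a (l 15584704) (l 15543816)) (a (l 15514480) (l 15478432))) (b (l 15489352) (l 15430896))) (a (l 15404224) (l 15361120)))), by decide +kernel⟩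

def k3_pp_022 : ∃ t, chk3 f_pp_022 t 8 6 1 = true :=
  ⟨(a (b (a (b (l 15780096) (b (l 15732344) (l 15671536))) (b (a (l 15773176) (l 15740584)) (a (l 15657608) (l 15628240)))) (a (b (b (l 15610024) (l 15547840)) (b (l 15485040) (l 15400704))) (b (a (l 15497096) (l 15449896)) (a (b (l 15448496) (l 15366296)) (b (l 15403576) (l 15343848)))))) (b (b (a (b (l 15723408) (l 15670232)) (b (l 15669352) (l 15618848))) (a (b (l 15616216) (l 15561368)) (b (l 15567448) (l 15515176)))) (b (a (b (l 15505728) (l 15449328)) (b (l 15462056) (b (l 15400768) (l 15373608)))) (a (b (l 15392216) (b (l 15328040) (l 15299008))) (b (a (l 15362720) (l 15323408)) (a (l 15285784) (l 15268576))))))), by decide +kernel⟩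

def k4_pp_022 : ∃ t, chk3 f_pp_022 t 16 28 1 = true :=
  ⟨(a (b (a (l 15368560) (l 15326096)) (a (l 15282704) (l 15262488))) (a (b (l 15304544) (b (l 15237016) (l 15205832))) (b (l 15283568) (a (l 15227536) (l 15218120))))), by decide +kernel⟩

def k5_pp_022 : ∃ t, chk3 f_pp_022 t 32 29 1 = true :=
  ⟨(a (b (b (l 15254856) (l 15180256)) (b (a (l 15151920) (b (l 15193128) (b (l 15180600) (a (b (l 15176848) (a (b (l 15174968) (a (l 15173360) (l 15171888))) (b (a (l 15173144) (l 15171592)) (l 15168912)))) (b (a (b (l 15174504) (l 15172104)) (b (l 15171848) (l 15168304))) (l 15164888)))))) (a (b (b (a (b (l 15177816) (a (b (l 15175848) (l 15173424)) (b (a (l 15173960) (l 15172648)) (l 15170152)))) (b (a (b (l 15175440) (a (l 15173768) (l 15172408))) (b (a (l 15173568) (l 15172160)) (l 15169512))) (l 15166088))) (l 15159312)) (l 15137616)) (l 15115560)))) (a (b (l 15203280) (b (b (a (l 15186304) (b (l 15185800) (b (l 15179768) (l 15175344)))) (b (a (b (l 15175856) (a (b (l 15174040)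 (l 15171576)) (l 15169608))) (b (a (b (l 15173560) (l 15170984)) (l 15168952)) (l 15163640))) (l 15156848))) (b (l 15135488) (l 15106928)))) (b (l 15193856) (b (b (b (a (l 15181272) (b (l 15178752) (a (l 15175896) (b (l 15174648) (l 15172280))))) (a (b (a (l 15176392) (l 15173752)) (a (b (l 15173072) (l 15170344)) (l 15168248))) (b (a (b (l 15172552) (l 15169632)) (l 15167496)) (l 15162328)))) (l 15148504)) (b (l 15120152) (l 15091688)))))), by decide +kernel⟩

def k6_pp_022 : ∃ t, chk3 f_pp_022 t 33 29 1 = true :=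
  ⟨(b (b (a (l 15174552) (l 15156104)) (a (a (b (l 15197656) (b (l 15185824) (a (l 15180192) (b (l 15177656) (a (l 15174704) (b (l 15173424) (l 15171112))))))) (b (l 15188456) (b (a (l 15179024) (b (l 15176464) (a (l 15173432) (b (l 15172176) (l 15169784))))) (a (b (a (l 15174072) (b (l 15172800) (l 15170472))) (a (b (l 15170800) (l 15167408)) (l 15165288))) (a (b (l 15168528) (l 15161432)) (l 15161056)))))) (b (a (a (l 15181648) (b (l 15181056) (b (l 15175296) (a (l 15172200) (b (l 15171024) (l 15168416)))))) (b (a (l 15176704) (b (l 15174376) (a (l 15171200) (b (l 15170104) (l 15167176))))) (a (b (a (l 15171664) (b (l 15170528) (l 15167776))) (l 15164536)) (l 15160464)))) (a (b (a (b (a (l 15172792) (b (l 15171576) (l 15169088))) (l 15165936)) (l 15161776)) (l 15151488)) (l 15143392))))) (a (b (a (b (b (a (b (a (l 15175336) (b (l 15174040) (l 15171712))) (a (b (l 15172000) (l 15168856)) (l 15166744))) (b (a (b (l 15171416) (l 15168136)) (l 15166024)) (l 15160944))) (l 15154264))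 (l 15133136)) (b (l 15145872) (l 15117848))) (a (b (l 15104888) (l 15076536)) (b (l 15089712) (l 15061472)))) (b (a (b (l 15130616) (l 15102704)) (b (l 15115696) (l 15087888))) (a (b (l 15074688) (l 15046560)) (b (l 15059976) (l 15031952)))))), by decide +kernel⟩

def k7_pp_022 : ∃ t, chk3 f_pp_022 t 17 28 1 = true :=
  ⟨(a (b (a (l 15264264) (l 15246248)) (a (a (l 15188208) (l 15179560)) (b (l 15223624) (l 15152440)))) (a (b (l 15229200) (b (l 15186456) (b (l 15185944) (a (b (l 15178984) (a (b (l 15175480) (l 15171400)) (b (a (l 15172616) (b (l 15171624) (l 15169448))) (a (b (l 15169544) (l 15166760)) (l 15164920))))) (b (a (b (l 15175088) (a (l 15172416) (b (l 15171416) (l 15169264)))) (b (a (l 15172200) (b (l 15171216) (l 15169088))) (a (b (l 15169176) (l 15166144)) (l 15164352)))) (a (b (a (b (l 15169352) (l 15166424)) (l 15164600)) (l 15159664)) (l 15156088))))))) (b (b (l 15248048) (l 15178224)) (b (l 15150200) (b (a (b (l 15178240) (a (b (l 15174768) (a (l 15172008) (b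 (l 15171048) (l 15168928)))) (b (a (l 15171840) (b (l 15170904) (l 15168776))) (a (b (l 15168848) (l 15165672)) (l 15163920))))) (b (a (b (l 15174528) (a (l 15171704) (b (l 15170792) (l 15173888)))) (b (a (l 15171584) (b (l 15170696) (l 15168512))) (a (b (l 15168576) (l 15165296)) (l 15163568)))) (a (b (a (b (l 15168712) (l 15165472)) (l 15163736)) (l 15158824)) (l 15155368)))) (a (b (a (b (a (b (l 15169008) (l 15165896)) (l 15164120)) (l 15159200)) (l 15155680)) (l 15145808)) (l 15138880))))))), by decide +kernel⟩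

def k8_pp_022 : ∃ t, chk3 f_pp_022 t 17 29 1 = true :=
  ⟨(b (a (b (a (b (l 15188496) (a (b (l 15181376) (a (l 15175824) (b (l 15173536) (a (l 15170464) (b (l 15169368) (l 15166160)))))) (b (a (l 15175008) (b (l 15172800) (a (b (l 15171080) (l 15168840)) (l 15167112)))) (a (b (a (b (l 15171416) (l 15169192)) (l 15167504)) (l 15162416)) (l 15158592))))) (b (a (b (l 15180032) (a (l 15174296) (b (l 15172168) (a (b (l 15170488) (l 15168144)) (l 15166352))))) (b (a (l 15173672) (b (l 15171632) (a (b (l 15169984) (l 15167448)) (l 15165624)))) (a (b (a (b (l 15170224) (l 15167792)) (l 15165984)) (l 15160864)) (l 15157160)))) (a (b (a (b (a (b (l 15170768) (l 15168488)) (l 15166728)) (l 15161592)) (l 15157832)) (l 15147832)) (l 15140424)))) (a (b (a (b (a (b (a (l 15170816) (b (l 15169736) (l 15166632))) (l 15163344)) (l 15159432)) (l 15149376)) (l 15141712)) (l 15121488)) (b (l 15120320) (l 15093040)))) (a (b (b (a (b (a (b (a (b (l 15169760) (l 15167104)) (l 15165272)) (l 15160216))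 (l 15156576)) (l 15146648)) (l 15139480)) (l 15119496)) (b (l 15092488) (l 15065344))) (b (a (b (l 15125800) (l 15099016)) (b (l 15112304) (l 15085584))) (a (l 15071656) (b (l 15058728) (l 15031736)))))) (a (b (a (b (l 15093928) (l 15066248)) (b (l 15065632) (l 15038112))) (a (b (l 15038464) (l 15010568)) (b (l 15010480) (l 14982744)))) (b (a (b (l 15038080) (l 15010696)) (a (l 15004216) (l 14990984))) (a (b (l 14983208) (l 14955616)) (a (l 14949424) (l 14936320)))))), by decide +kernel⟩

def k9_pp_022 : ∃ t, chk3 f_pp_022 t 16 15 1 = true :=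
  ⟨(b (a (a (a (b (b (b (l 15108784) (l 15079864)) (b (l 15050864) (l 15021784))) (b (b (l 14992640) (l 14963432)) (b (l 14934168) (l 14904856)))) (b (b (b (l 15093496) (l 15064656)) (b (l 15035744) (l 15006752))) (b (b (l 14977688) (l 14948568)) (b (l 14919392) (l 14890160))))) (a (b (b (b (l 15078272) (l 15049536)) (b (l 15020712) (l 14991808))) (b (b (l 14962840) (l 14933808)) (l 14911088))) (b (b (b (l 15063136) (l 15034496)) (b (l 15005768) (l 14976968))) (b (l 14954568) (l 14875624))))) (b (a (a (b (b (l 15048088) (l 15019552)) (l 14997520)) (b (b (l 15033136) (l 15004712)) (b (l 14976208) (l 14947624)))) (a (b (b (l 15018344) (l 14990040)) (l 14947376)) (b (b (l 15003840) (l 14975632)) (l 14933128)))) (a (a (b (l 14919024) (l 14861264)) (b (l 14925552) (l 14847056))) (a (b (l 14890312) (l 14833016)) (b (l 14876272) (l 14819184)))))) (a (b (b (a (a (l 14881744) (l 14846208)) (a (l 14831776) (l 14817480))) (a (a (l 14801960) (l 14787568)) (a (l 14773328) (l 14759232))))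 (a (b (a (l 14743096) (l 14728888)) (a (l 14684256) (l 14670216))) (b (a (l 14714824) (l 14700936)) (l 14649464)))) (b (a (a (b (l 14803344) (l 14745304)) (b (l 14789360) (l 14731552))) (a (b (l 14775552) (l 14717984)) (b (l 14761928) (l 2)))) (a (a (b (l 14687232) (l 2)) (l 2)) (l 2))))), by decide +kernel⟩

def k10_pp_022 : ∃ t, chk3 f_pp_022 t 17 15 1 = true :=
  ⟨(b (b (a (b (a (b (l 14982584) (l 14954512)) (b (l 14954912) (l 14926992))) (a (b (l 14926352) (l 14898120)) (b (l 14898992) (l 14870920)))) (a (b (b (l 14927920) (l 14900144)) (b (l 14872280) (l 14844344))) (b (b (l 14901576) (l 14873920)) (b (l 14846184) (l 2))))) (a (a (b (l 14894912) (l 14798760)) (b (l 14849592) (l 14772096))) (a (b (l 14802256) (l 2)) (l 2)))) (b (a (a (b (l 14741760) (l 2)) (l 2)) (l 2)) (l 2))), by decide +kernel⟩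

def k11_pp_022 : ∃ t, chk3 f_pp_022 t 9 6 1 = true :=
  ⟨(b (a (b (a (b (l 15620416) (l 15572408)) (b (l 15554552) (l 15508928))) (a (b (l 15523448) (l 15452592)) (b (l 15462304) (l 15414688)))) (b (a (b (l 15512928) (l 15469632)) (a (l 15483648) (l 15465376))) (a (b (l 15425280) (l 15379880)) (l 15395464)))) (a (b (a (b (l 15401808) (b (l 15342232) (l 15316200))) (b (l 15366120) (a (l 15345680) (l 15329688)))) (a (b (a (l 15306048) (b (l 15323624) (l 15297456))) (a (l 15231328) (a (l 15219664) (l 15212128)))) (b (a (b (l 15307648) (l 15282008)) (l 15279840)) (a (b (l 15256168) (l 15230136)) (b (l 15241952) (l 15216416)))))) (b (a (b (l 15333456) (l 15286048)) (l 15301624)) (a (a (b (l 15265568) (l 15215872)) (b (l 15251960) (l 15202616))) (b (l 15232696) (b (l 15196888) (a (b (l 15184912) (a (l 15174168) (l 15166496))) (b (a (l 15174888) (l 15167440)) (l 15148984))))))))), by decide +kernel⟩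

def k12_pp_022 : ∃ t, chk3 f_pp_022 t 18 28 1 = true :=
  ⟨(b (a (a (b (l 15232560) (l 15163256)) (a (l 15166008) (l 15158976))) (b (a (l 15203936) (l 15190392)) (a (b (l 15184064) (a (b (l 15177520) (a (b (l 15174216) (a (l 15171272) (l 15169208))) (b (a (l 15171312) (l 15169232)) (l 15164504)))) (b (a (b (l 15174232) (a (l 15171360) (l 15169272))) (b (a (l 15171416) (l 15169320)) (l 15164536))) (l 15158120)))) (b (a (b (l 15177568) (a (b (l 15174312) (l 15170320)) (b (l 15170400) (l 15164640)))) (b (a (l 15172056) (l 15167936)) (l 15158416))) (l 15145576))))) (b (a (a (b (l 15184600) (a (b (l 15177784) (a (b (l 15174360) (a (l 15171488) (b (l 15170616) (l 15168392)))) (b (a (l 15171408) (b (l 15170552) (l 15168280))) (a (b (l 15168336) (l 15165000)) (l 15163296))))) (b (a (b (l 15174240) (a (l 15171344) (b (l 15170504) (l 15168176)))) (b (a (l 15171296) (b (l 15170472) (l 15168080))) (l 15164928))) (a (b (a (l 15166664) (l 15163184)) (l 15158312)) (l 15154960))))) (b (a (b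 (l 15177568) (a (b (l 15174184) (a (l 15171264) (b (l 15170456) (l 15168000)))) (b (a (l 15171248) (b (l 15170448) (l 15167920))) (l 15164736)))) (b (a (b (l 15174168) (a (l 15171240) (b (l 15170456) (l 15167848)))) (b (a (l 15171256) (b (l 15170480) (l 15167784))) (l 15164592))) (l 15158192))) (a (a (l 15155072) (l 15148352)) (l 15138608)))) (a (a (b (l 15151632) (l 15125752)) (l 15125936)) (l 15107096))) (a (a (a (b (b (a (b (a (b (l 15168456) (l 15165136)) (l 15163424)) (l 15158528)) (l 15155128)) (l 15145312)) (l 15125504)) (b (l 15138608) (l 15112288))) (a (b (l 15125496) (l 15099224)) (l 15099408))) (a (a (l 15086632) (l 15074000)) (l 15055296))))), by decide +kernel⟩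

def k13_pp_022 : ∃ t, chk3 f_pp_022 t 19 28 1 = true :=
  ⟨(a (b (b (a (b (l 15184192) (a (b (l 15177816) (a (l 15172264) (l 15168160))) (b (a (l 15172512) (l 15168424)) (l 15158912)))) (b (a (b (l 15178224) (l 15170552)) (b (l 15170872) (l 15159600))) (l 15146936))) (l 15100272)) (a (l 15035608) (l 15032592))) (b (l 15098600) (l 14997464))), by decide +kernel⟩

def k14_pp_022 : ∃ t, chk3 f_pp_022 t 9 29 1 = true :=
  ⟨(a (a (b (b (a (a (b (l 15098976) (l 15072312)) (b (l 15085816) (l 15059208))) (a (l 15080480) (l 15046680))) (a (a (b (l 15045512) (l 15018584)) (l 15039968)) (a (l 15006120) (l 14993392)))) (a (b (a (l 14977920) (l 14965000)) (a (l 14923360) (l 14910544))) (b (a (l 14952224) (l 14939592)) (a (l 14897872) (l 2))))) (b (a (b (a (l 15033992) (l 15021456)) (a (l 14980800) (l 14968352))) (b (l 15002888) (l 14949904))) (a (b (l 14941848) (l 2)) (l 2)))) (a (b (a (l 14931120) (l 2)) (l 2)) (l 2))), by decide +kernel⟩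

def k15_pp_022 : ∃ t, chk3 f_pp_022 t 9 15 1 = true :=
  ⟨(b (a (b (a (a (b (a (l 14868400) (l 2)) (l 2)) (l 2)) (l 2)) (l 2)) (l 2)) (l 2)), by decide +kernel⟩

def k16_pp_022 : ∃ t, chk3 f_pp_022 t 5 3 1 = true :=
  ⟨(b (b (a (a (b (a (l 15439520) (l 15408016)) (a (l 15359768) (l 15332536))) (b (l 15366960) (l 15297488))) (a (l 15292128) (b (l 15291232) (l 15228392)))) (a (b (a (b (l 15263656) (l 15221296)) (a (l 15231744) (l 15184880))) (a (b (a (l 15208768) (l 15160984)) (a (b (a (l 15198120) (l 15163232)) (l 15126904)) (l 15106656))) (b (a (l 15136288) (l 2)) (l 2)))) (b (a (b (l 15203856) (l 2)) (l 2)) (l 2)))) (b (a (a (b (b (l 15031112) (l 2)) (l 2)) (l 2)) (l 2)) (l 2))), by decide +kernel⟩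

def k17_pp_022 : ∃ t, chk3 f_pp_022 t 3 1 1 = true :=
  ⟨(b (b (b (b (l 3) (b (l 3) (a (a (l 15373088) (l 15274288)) (a (a (l 15233296) (l 15220904)) (b (l 15211544) (l 15234840)))))) (a (b (a (b (b (l 15381336) (l 15389552)) (l 15417472)) (b (a (l 15317504) (l 15288712)) (l 15353600))) (a (b (l 15464384) (l 15490720)) (b (l 15408192) (l 15425912)))) (b (a (b (b (l 15255136) (l 15285152)) (l 15338344)) (b (b (l 15264336) (l 2)) (l 2))) (a (b (l 15392312) (l 15396560)) (l 2))))) (b (a (b (b (a (l 15463096) (l 15397264)) (a (b (l 15425840) (b (l 15401880) (l 15379312))) (b (l 15369000) (l 15339000)))) (a (l 15358224) (l 15321096))) (b (b (a (l 15375920) (l 2)) (l 2)) (l 2))) (a (a (a (l 15330200) (l 15310624)) (l 15279592)) (l 2)))) (b (a (b (a (b (l 15237632) (l 2)) (l 2)) (l 2)) (l 2)) (l 2))), by decide +kernel⟩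

theorem s18_pp_022 : ∃ t, chk3 f_pp_022 t 9 28 1 = true := ex3_a k12_pp_022 k13_pp_022

theorem s19_pp_022 : ∃ t, chk3 f_pp_022 t 9 14 1 = true := ex3_b s18_pp_022 k14_pp_022

theorem s20_pp_022 : ∃ t, chk3 f_pp_022 t 9 7 1 = true := ex3_b s19_pp_022 k15_pp_022

theorem s21_pp_022 : ∃ t, chk3 f_pp_022 t 9 3 1 = true := ex3_b k11_pp_022 s20_pp_022

theorem s22_pp_022 : ∃ t, chk3 f_pp_022 t 8 15 1 = true := ex3_a k9_pp_022 k10_pp_022

theorem s23_pp_022 : ∃ t, chk3 f_pp_022 t 17 14 1 = true := ex3_b k7_pp_022 k8_pp_022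

theorem s24_pp_022 : ∃ t, chk3 f_pp_022 t 16 29 1 = true := ex3_a k5_pp_022 k6_pp_022

theorem s25_pp_022 : ∃ t, chk3 f_pp_022 t 16 14 1 = true := ex3_b k4_pp_022 s24_pp_022

theorem s26_pp_022 : ∃ t, chk3 f_pp_022 t 8 14 1 = true := ex3_a s25_pp_022 s23_pp_022

theorem s27_pp_022 : ∃ t, chk3 f_pp_022 t 8 7 1 = true := ex3_b s26_pp_022 s22_pp_022

theorem s28_pp_022 : ∃ t, chk3 f_pp_022 t 8 3 1 = true := ex3_b k3_pp_022 s27_pp_022

theorem s29_pp_022 : ∃ t, chk3 f_pp_022 t 4 3 1 = true := ex3_a s28_pp_022 s21_pp_022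

theorem s30_pp_022 : ∃ t, chk3 f_pp_022 t 2 3 1 = true := ex3_a s29_pp_022 k16_pp_022

theorem s31_pp_022 : ∃ t, chk3 f_pp_022 t 2 5 1 = true := ex3_a k1_pp_022 k2_pp_022

theorem s32_pp_022 : ∃ t, chk3 f_pp_022 t 2 2 1 = true := ex3_b k0_pp_022 s31_pp_022

theorem s33_pp_022 : ∃ t, chk3 f_pp_022 t 2 1 1 = true := ex3_b s32_pp_022 s30_pp_022

theorem s34_pp_022 : ∃ t, chk3 f_pp_022 t 1 1 1 = true := ex3_a s33_pp_022 k17_pp_022

theorem c_pp_022 : CertB 0 536870912 1073741824 536870912 1045395039 1503240 3 eng mog cd0q0 cd4q2 pd2 false true true .pp 0 2 2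
    ndB0q0 ndB4q2 pcB2 Cut.none Ext.none :=
  certB1 (fam := false) (s1 := true) (s2 := true) (a := 0) (b := 2) (c := 2) (cn := .pp) (n1 := ndB0q0) (n2 := ndB4q2) (pc := pcB2) (cut := Cut.none) (xt := Ext.none) (P1 := 0) (W1 := 536870912) (P2 := 1073741824) (W2 := 536870912) (P3 := 1045395039) (W3 := 1503240) (N0 := 3) (En := eng) (mo := mog) (C1 := cd0q0) (C2 := cd4q2) (C3 := pd2)
    rfl (fun _ => rfl) s34_pp_022

noncomputable def f_pp_023 : ℕ → ℕ → ℕ → ℕ → Bool := onCell 1073741824 536870912 0 1230186008 1045395039 1503240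
    (rowB 3 eng mog cd0q0 cd4q3 pd2 2 false true true .up 0 2 3 (qsf 0 536870912 0 1230186008 2) ndB0q0 ndB4q3 pcB2 Cut.none Ext.none)

def k0_pp_023 : ∃ t, chk3 f_pp_023 t 1 2 1 = true :=
  ⟨(a (l 2) (a (l 2) (b (a (l 2) (l 14110448)) (b (l 162230468439) (a (l 14666048) (l 14400424)))))), by decide +kernel⟩

def k1_pp_023 : ∃ t, chk3 f_pp_023 t 1 6 1 = true :=
  ⟨(a (a (l 2) (b (l 2) (a (l 2) (b (l 2) (l 15640736))))) (a (b (a (l 2) (l 14994864)) (a (b (l 94049536375) (l 15361976)) (b (l 15060288) (a (l 15173416) (l 15079704))))) (b (a (l 14775216) (l 14546496)) (a (b (l 14875296) (l 14955912)) (b (l 14674048) (l 14772968)))))), by decide +kernel⟩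

def k2_pp_023 : ∃ t, chk3 f_pp_023 t 1 14 1 = true :=
  ⟨(a (a (l 2) (a (a (a (l 15935808) (a (l 15918336) (b (l 2) (l 15935096)))) (b (l 15853776) (l 15920656))) (b (a (l 15808552) (l 15711848)) (a (l 15894448) (l 15846016))))) (a (a (b (l 15523848) (a (l 15757440) (l 15635448))) (b (a (l 15305192) (l 15184880)) (a (l 15507048) (l 15371320)))) (a (b (b (l 15025624) (l 15082128)) (a (b (l 15187576) (l 15286720)) (b (l 15100864) (l 15181056)))) (b (l 14887616) (b (l 14986616) (a (l 15098288) (l 15022792))))))), by decide +kernel⟩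

def k3_pp_023 : ∃ t, chk3 f_pp_023 t 1 15 1 = true :=
  ⟨(a (a (a (a (l 3) (b (l 2) (a (l 3) (b (l 16012800) (l 16063544))))) (a (b (a (l 16001336) (l 16067448)) (a (l 15965472) (l 16164408))) (b (l 16084400) (a (l 16210280) (l 16211320))))) (a (a (a (b (l 16063808) (l 16192752)) (b (a (l 16044248) (l 16023208)) (a (l 16172048) (l 16147776)))) (b (l 16010352) (l 16136840))) (b (l 15985776) (b (l 16084424) (l 16165576))))) (a (a (b (a (l 15898928) (b (l 15790184) (l 15903784))) (b (l 15974056) (l 16117376))) (b (a (l 15736264) (l 15448328)) (b (a (l 15891600) (l 15825000)) (a (b (l 16023688) (l 16081664)) (b (l 15940168) (a (l 16041224) (l 15996336))))))) (b (a (a (b (l 15419880) (l 15558984)) (b (b (l 15249664) (l 15320696)) (b (l 15393400) (l 15468960)))) (a (a (b (l 15205144) (b (l 15294552) (l 15372176))) (b (l 15162752) (b (l 15236864) (l 15306224)))) (b (b (l 15085200) (l 15130400)) (b (l 15178064) (a (b (l 15215024) (l 15265536)) (l 15211408)))))) (a (b (a (b (l 15670192)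 (l 15748712)) (b (a (l 15578440) (l 15516096)) (a (l 15659560) (l 15598832)))) (a (a (b (l 15858488) (l 15922272)) (b (l 15802096) (l 15888656))) (a (b (l 15744192) (l 15832496)) (b (l 15685088) (l 15775016))))) (b (a (b (a (l 15453056) (l 15389568)) (a (l 15537272) (l 15475216))) (a (b (l 15324600) (l 15412896)) (b (a (b (l 15263048) (l 15298992)) (l 15260760)) (l 15349320)))) (a (b (a (l 15625056) (l 15564376)) (a (l 15716528) (l 15657208))) (b (a (l 15503168) (b (a (l 15433672) (l 15402704)) (l 15464448))) (a (b (a (l 15588200) (l 15557864)) (l 15599976)) (b (a (l 15527144) (l 15496280)) (l 15560192)))))))))), by decide +kernel⟩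

theorem s4_pp_023 : ∃ t, chk3 f_pp_023 t 1 7 1 = true := ex3_b k2_pp_023 k3_pp_023

theorem s5_pp_023 : ∃ t, chk3 f_pp_023 t 1 3 1 = true := ex3_b k1_pp_023 s4_pp_023

theorem s6_pp_023 : ∃ t, chk3 f_pp_023 t 1 1 1 = true := ex3_b k0_pp_023 s5_pp_023

theorem c_pp_023 : CertB 0 536870912 0 1230186008 1045395039 1503240 3 eng mog cd0q0 cd4q3 pd2 false true true .up 0 2 3
    ndB0q0 ndB4q3 pcB2 Cut.none Ext.none :=
  certB2 (fam := false) (s1 := true) (s2 := true) (a := 0) (b := 2) (c := 3) (cn := .up) (n1 := ndB0q0) (n2 := ndB4q3) (pc := pcB2) (cut := Cut.none) (xt := Ext.none) (P1 := 0) (W1 := 536870912) (P2 := 0) (W2 := 1230186008) (P3 := 1045395039) (W3 := 1503240) (N0 := 3) (En := eng) (mo := mog) (C1 := cd0q0) (C2 := cd4q3) (C3 := pd2)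
    rfl (fun _ => rfl) s6_pp_023

noncomputable def f_pp_033 : ℕ → ℕ → ℕ → ℕ → Bool := onCell 0 536870912 0 1230186008 1045395039 1503240
    (rowB 3 eng mog cd0q0 cd4q3 pd3 0 false true true .pnn 0 3 3 (qsf 0 536870912 0 1230186008 3) ndB0q0 ndB4q3 pcB3 Cut.none Ext.none)

def k0_pp_033 : ∃ t, chk3 f_pp_033 t 1 1 1 = true :=
  ⟨(b (b (a (l 4) (a (a (l 15834632) (l 15926736)) (a (b (l 16157936) (l 16147384)) (l 16223024)))) (a (a (a (l 4) (a (l 4) (b (l 4) (l 36739299687)))) (a (b (l 4) (b (l 15636720) (l 15621760))) (b (l 15849928) (b (l 15823192) (l 15822208))))) (a (b (a (l 15969344) (l 16059864)) (a (b (l 15966792) (l 15972008)) (b (l 16058368) (l 16053896)))) (b (a (l 16137024) (l 16224232)) (l 16189264))))) (b (a (a (a (b (a (b (l 4) (a (l 14786528) (l 14917208))) (b (l 15075736) (b (l 15092376) (l 15100160)))) (a (b (a (l 14837112) (l 14956168)) (a (b (l 14867000) (l 14914160)) (l 14954544))) (b (b (l 15110944) (l 15129896)) (l 15184600)))) (b (b (a (l 15261784) (l 15417240))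 (a (l 15273360) (l 15429728))) (b (a (l 15302736) (l 15459856)) (l 15253632)))) (b (a (b (a (l 15558096) (l 15679928)) (l 15633760)) (b (l 15828880) (l 15844512))) (a (b (l 15663104) (l 15709960)) (l 15902960)))) (a (b (l 15942488) (a (l 16053888) (l 16168584))) (b (l 16237688) (l 1)))) (a (a (a (b (a (b (a (l 15014448) (l 15129000)) (a (l 15128848) (l 15228768))) (b (l 15278664) (l 15361600))) (a (b (a (l 15211136) (b (l 15285920) (l 15313504))) (b (a (l 15246752) (l 15331128)) (a (l 15233040) (l 38148403383)))) (b (b (l 15409544) (l 15432528)) (b (b (l 15444152) (l 15448568)) (l 41906857351))))) (b (b (a (l 15437856) (l 15576128)) (a (l 15505592) (l 15634480))) (b (b (a (l 15545104) (l 15668792)) (a (l 15563600) (l 15685080))) (a (b (l 15533480) (l 1)) (l 1))))) (b (a (b (l 15743440) (l 15752760)) (b (l 15980280) (l 1))) (b (a (b (l 15825112) (l 1)) (l 1)) (l 1)))) (l 1)))), by decide +kernel⟩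

theorem c_pp_033 : CertB 0 536870912 0 1230186008 1045395039 1503240 3 eng mog cd0q0 cd4q3 pd3 false true true .pnn 0 3 3
    ndB0q0 ndB4q3 pcB3 Cut.none Ext.none :=
  certB0 (fam := false) (s1 := true) (s2 := true) (a := 0) (b := 3) (c := 3) (cn := .pnn) (n1 := ndB0q0) (n2 := ndB4q3) (pc := pcB3) (cut := Cut.none) (xt := Ext.none) (P1 := 0) (W1 := 536870912) (P2 := 0) (W2 := 1230186008) (P3 := 1045395039) (W3 := 1503240) (N0 := 3) (En := eng) (mo := mog) (C1 := cd0q0) (C2 := cd4q3) (C3 := pd3)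
    rfl k0_pp_033

noncomputable def f_pp_101 : ℕ → ℕ → ℕ → ℕ → Bool := onCell 536870912 536870912 536870912 536870912 1045395039 1503240
    (rowB 3 eng mog cd0q1 cd4q1 pd0 0 false true true .npn 1 0 1 (qsf 536870912 536870912 536870912 536870912 0) ndB0q1 ndB4q1 pcB0 Cut.none Ext.none)

def k0_pp_101 : ∃ t, chk3 f_pp_101 t 1 1 1 = true :=
  ⟨(a (l 3) (l 5)), by decide +kernel⟩

theorem c_pp_101 : CertB 536870912 536870912 536870912 536870912 1045395039 1503240 3 eng mog cd0q1 cd4q1 pd0 false true true .npn 1 0 1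
    ndB0q1 ndB4q1 pcB0 Cut.none Ext.none :=
  certB0 (fam := false) (s1 := true) (s2 := true) (a := 1) (b := 0) (c := 1) (cn := .npn) (n1 := ndB0q1) (n2 := ndB4q1) (pc := pcB0) (cut := Cut.none) (xt := Ext.none) (P1 := 536870912) (W1 := 536870912) (P2 := 536870912) (W2 := 536870912) (P3 := 1045395039) (W3 := 1503240) (N0 := 3) (En := eng) (mo := mog) (C1 := cd0q1) (C2 := cd4q1) (C3 := pd0)
    rfl k0_pp_101

noncomputable def f_pp_102 : ℕ → ℕ → ℕ → ℕ → Bool := onCell 536870912 536870912 0 536870912 1045395039 1503240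
    (rowB 3 eng mog cd0q1 cd4q2 pd0 1 false true true .npp 1 0 2 (qsf 536870912 536870912 1073741824 536870912 0) ndB0q1 ndB4q2 pcB0 Cut.none Ext.none)

def k0_pp_102 : ∃ t, chk3 f_pp_102 t 1 1 1 = true :=
  ⟨(l 3), by decide +kernel⟩

theorem c_pp_102 : CertB 536870912 536870912 1073741824 536870912 1045395039 1503240 3 eng mog cd0q1 cd4q2 pd0 false true true .npp 1 0 2
    ndB0q1 ndB4q2 pcB0 Cut.none Ext.none :=
  certB1 (fam := false) (s1 := true) (s2 := true) (a := 1) (b := 0) (c := 2) (cn := .npp) (n1 := ndB0q1) (n2 := ndB4q2) (pc := pcB0) (cut := Cut.none) (xt := Ext.none) (P1 := 536870912) (W1 := 536870912) (P2 := 1073741824) (W2 := 536870912) (P3 := 1045395039) (W3 := 1503240) (N0 := 3) (En := eng) (mo := mog) (C1 := cd0q1) (C2 := cd4q2) (C3 := pd0)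
    rfl (fun _ => rfl) k0_pp_102

noncomputable def f_pp_112 : ℕ → ℕ → ℕ → ℕ → Bool := onCell 536870912 536870912 1073741824 536870912 1045395039 1503240
    (rowB 3 eng mog cd0q1 cd4q2 pd1 0 false true true .dn 1 1 2 (qsf 536870912 536870912 1073741824 536870912 1) ndB0q1 ndB4q2 pcB1 Cut.none Ext.none)

def k0_pp_112 : ∃ t, chk3 f_pp_112 t 1 1 1 = true :=
  ⟨(a (l 3) (l 3)), by decide +kernel⟩

theorem c_pp_112 : CertB 536870912 536870912 1073741824 536870912 1045395039 1503240 3 eng mog cd0q1 cd4q2 pd1 false true true .dn 1 1 2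
    ndB0q1 ndB4q2 pcB1 Cut.none Ext.none :=
  certB0 (fam := false) (s1 := true) (s2 := true) (a := 1) (b := 1) (c := 2) (cn := .dn) (n1 := ndB0q1) (n2 := ndB4q2) (pc := pcB1) (cut := Cut.none) (xt := Ext.none) (P1 := 536870912) (W1 := 536870912) (P2 := 1073741824) (W2 := 536870912) (P3 := 1045395039) (W3 := 1503240) (N0 := 3) (En := eng) (mo := mog) (C1 := cd0q1) (C2 := cd4q2) (C3 := pd1)
    rfl k0_pp_112

noncomputable def cut_pp_113 : Cut := Cut.of [[⟨0, 1, 0, 14155776⟩, ⟨1, 1, 0, 14155776⟩, ⟨2, 2, 0, 524288⟩]]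

noncomputable def f_pp_113 : ℕ → ℕ → ℕ → ℕ → Bool := onCell 536870912 536870912 0 1230186008 1045395039 1503240
    (rowB 3 eng mog cd0q1 cd4q3 pd1 2 false true true .nn 1 1 3 (qsf 536870912 536870912 0 1230186008 1) ndB0q1 ndB4q3 pcB1 cut_pp_113 Ext.none)

def k0_pp_113 : ∃ t, chk3 f_pp_113 t 1 1 1 = true :=
  ⟨(b (a (l 2) (a (l 2) (b (a (l 2) (a (l 2) (b (a (l 2) (a (l 2) (b (b (l 6) (l 3)) (l 3)))) (l 3)))) (l 3)))) (b (a (l 3) (a (l 3) (l 3))) (a (b (l 3) (l 3)) (l 3)))), by decide +kernel⟩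

theorem c_pp_113 : CertB 536870912 536870912 0 1230186008 1045395039 1503240 3 eng mog cd0q1 cd4q3 pd1 false true true .nn 1 1 3
    ndB0q1 ndB4q3 pcB1 cut_pp_113 Ext.none :=
  certB2 (fam := false) (s1 := true) (s2 := true) (a := 1) (b := 1) (c := 3) (cn := .nn) (n1 := ndB0q1) (n2 := ndB4q3) (pc := pcB1) (cut := cut_pp_113) (xt := Ext.none) (P1 := 536870912) (W1 := 536870912) (P2 := 0) (W2 := 1230186008) (P3 := 1045395039) (W3 := 1503240) (N0 := 3) (En := eng) (mo := mog) (C1 := cd0q1) (C2 := cd4q3) (C3 := pd1)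
    rfl (fun _ => rfl) k0_pp_113

end Pool.Agent.Strip051.G.I9736_9750.Tab.C.BB04

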