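import Pool.Agent.Strip051.G.I9736_9750.Tab
import Pool.Agent.Strip051.PB.ExtD3

/-! # Certificates B15 (generated) -/

set_option linter.all false
set_option maxRecDepth 100000

namespace Pool.Agent.Strip051.G.I9736_9750.Tab.C.BB04

open Pool.Agent.Strip051.PB Pool.Agent.Strip051.PB.T
open Pool.Agent.Strip051.G.I9736_9750.Tab

noncomputable def cut_pp_123 : Cut := Cut.of [[⟨0, 1, 0, 14155776⟩, ⟨1, 1, 0, 14155776⟩, ⟨2, 2, 0, 524288⟩]]

noncomputable def xt_pp_123 : Ext := extD3 3 ⟨4, 1, 1, 5, 33, 5, 163, 200, 81, 200, 1, 64⟩ eng cd0q1 cd4q3 pd2 false true true .npn 1 2 3 rfl ndB0q1 ndB4q3 pcB2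

noncomputable def f_pp_123 : ℕ → ℕ → ℕ → ℕ → Bool := onCell 1073741824 536870912 0 1230186008 1045395039 1503240
    (rowB 3 eng mog cd0q1 cd4q3 pd2 2 false true true .npn 1 2 3 (qsf 536870912 536870912 0 1230186008 2) ndB0q1 ndB4q3 pcB2 cut_pp_123 xt_pp_123)

def k0_pp_123 : ∃ t, chk3 f_pp_123 t 128 32 1 = true :=
  ⟨(l 6), by decide +kernel⟩

def k1_pp_123 : ∃ t, chk3 f_pp_123 t 256 33 1 = true :=
  ⟨(b (a (l 3) (b (a (l 3) (b (a (l 3) (b (l 6) (a (l 3) (a (a (l 3) (b (b (b (b (l 6) (b (l 6) (a (l 3) (a (c (l 7179205990590116693065082447) (l 7150191763137145849092777551)) (l 16777344))))) (a (l 3) (a (b (c (l 8407474603142453603946800719) (l 8407474606889448906235913807)) (l 3)) (a (b (l 6908406555979663385236350543) (l 510195138855)) (b (l 16777344) (l 7875547213688979358063306319)))))) (l 3)) (l 3))) (a (b (b (a (b (l 16777344) (a (l 6183051061328582325053957711) (l 16777344))) (l 16777344)) (b (a (b (a (a (l 493015269671) (l 7604747829807072046777394767)) (l 6163708249944130446449452623))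 (a (l 3) (a (l 8494517258984172973015246415) (l 7285591413428809944654964303)))) (l 604418089986606135256655)) (a (l 3) (b (a (a (l 8204375038353540750493689423) (l 6985777810164381909327832655)) (l 16777344)) (a (l 516637589815) (a (l 7943247061316780848757139023) (l 6695635613456870976117827151))))))) (b (l 9335929629724184498848163407) (l 3))) (b (l 604403390215775762785871) (b (b (a (b (a (a (l 7653104864321039470675945039) (l 6395822009904212564638983759)) (l 16777352)) (a (l 8755645250720682058489095759) (a (l 7372634074170445502144095823) (l 338933317831)))) (l 16777352)) (a (c (l 9055458856867414061491693135) (l 9065130255065649980331271759)) (a (b (c (l 6743992698411154020407469647) (l 6705307063824805390734091855)) (c (l 8320431947588964817188513359) (l 8320431939518514765976921679))) (b (l 16777352) (l 6511878889451908093865911887))))) (b (b (a (l 3) (a (l 3) (a (l 502142075191) (l 7749818931907822437714404943)))) (l 3)) (l 3))))))))) (l 3))) (l 3))) (l 3)), by decide +kernel⟩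

def k2_pp_123 : ∃ t, chk3 f_pp_123 t 514 264 1 = true :=
  ⟨(b (l 6) (a (a (a (b (l 16777336) (b (l 604388978697930249872975) (a (a (a (b (b (l 6096008405775093538295670351) (a (a (l 491404656855) (l 7450005328355164026235561551)) (l 337322705095))) (a (l 3) (a (l 8707288214765562272795698767) (b (l 7150191725090735990908429903) (l 3))))) (b (l 16777352) (a (a (b (l 16777352) (l 8078646756572383830144804431)) (l 6434507638149493400011040335)) (l 16777352)))) (l 16777352)) (l 16777344)))) (l 144028223575687247)) (a (l 16772112) (l 16777520))) (l 144093919355142223))), by decide +kernel⟩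

def k3_pp_123 : ∃ t, chk3 f_pp_123 t 2056 530 1 = true :=
  ⟨(a (a (b (b (b (b (a (a (l 3) (a (l 507510784343) (a (l 7836861592649457995203536463) (l 6550564518561879988973643343)))) (l 16777352)) (a (l 9258558390815676116955883087) (a (a (a (l 7537047989385029959876404815) (l 348060123335)) (l 16777360)) (l 16777352)))) (a (l 3) (a (a (b (l 8658931188610276238333158991) (l 3)) (b (c (l 6850378127014454588873156175) (l 6821363946254804681478153807)) (l 8436488825983739047967041103))) (c (l 6202393883954018667416823375) (c (l 6163708298655064290966677071) (l 6144365481217774788054132303)))))) (b (a (l 3) (a (l 3) (a (b (c (l 8214046479353985328839235087) (l 8214046470851191912423335503)) (l 3)) (b (l 6395822014515898583066388047) (a (l 499994591463) (l 7614419243569748483967870543)))))) (l 3))) (l 3)) (a (b (b (l 16777352) (b (l 5389995725390768186954393167) (a (a (a (l 8804002284369957872896173647) (b (l 7275920014077652315050157647) (l 3))) (a (b (l 334638350551) (l 8223717858961364597233526351))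 (l 6521550300908741590562154063))) (l 16777360)))) (b (b (a (l 512342622631) (a (b (a (l 7972261288193291352742897231) (l 6705307027219547413308286543)) (l 503752687959)) (b (l 16777360) (c (l 7188877360397658568096273935) (l 7159863179493895740368152143))))) (l 9248886974458926363119461967)) (l 3))) (b (l 16777352) (b (b (l 16777360) (a (a (b (c (l 6956763603031649766552688143) (l 6937420828396573596070504015)) (l 8533202895588134648067515983)) (b (l 16777360) (l 6714978434929385951312799311))) (l 16777360))) (a (a (l 3) (b (b (l 8310760544490812503769867855) (l 3)) (l 3))) (a (b (b (l 6482864677563377149769213519) (c (l 8127003800742066449943991823) (l 8097989595915182401623811663))) (l 3)) (b (l 6096008366287532005511194191) (b (c (l 7923904262758578372441626127) (l 7923904254255784956025726543)) (l 3))))))))) (a (b (l 16777344) (a (a (a (b (l 16777360) (b (l 16777368) (b (l 336248963303) (c (l 7730476131620237704488621583) (l 7691790496601545778330429007))))) (l 604372549587655201171023))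 (l 16777360)) (l 16777360))) (l 16777344))), by decide +kernel⟩

def k4_pp_123 : ∃ t, chk3 f_pp_123 t 2056 531 1 = true :=
  ⟨(a (l 3) (b (a (a (b (a (a (l 3) (b (b (c (l 7508033780811145936342685199) (l 7469348145792454010184492623)) (l 508584526183)) (l 3))) (a (b (b (l 16777368) (c (l 7266248616888220101401466383) (l 7256577201540279275436189263))) (l 498920849815)) (b (l 16777368) (b (l 7024463448785956286161561167) (l 8629916965192530248167990863))))) (l 3)) (b (a (b (l 16777368) (c (l 6289436551324952807675864655) (c (l 6250750918179755990041568847) (l 6231408147724017868577515087)))) (l 16777368)) (b (a (a (l 8668602599490648226811766351) (b (l 6569907340610855716472038991) (l 8175360857017429678478468687))) (l 6047651335520559540304406095)) (a (l 3) (a (b (l 7981932702244198166085101135) (l 3)) (b (l 340543930615) (c (l 7807847388399029613945509391) (l 7769161753092107311635605071)))))))) (b (l 16777360) (c (l 604376008352237741188687) (l 604366784980681922766415)))) (a (l 3) (a (b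 (b (a (a (b (c (l 7556390817919186745606641167) (l 7546719402283015543489668687)) (l 512879493495)) (b (l 16777376) (c (l 7372634093625993487202981391) (l 7333948458030840808741365327)))) (l 16777376)) (a (l 504289558983) (a (b (l 7121177518678582193694271055) (l 488720302439)) (b (l 16777376) (l 6869720948198739394074863183))))) (c (l 9219872756085210031463929359) (l 9219872765596812444470416911))) (b (l 16777368) (a (a (b (b (l 6637607190832730592531277391) (l 8252732113652103994677810703)) (l 3)) (b (l 6202393846772300212565517903) (b (l 8049632552321955448886793743) (l 3)))) (a (b (l 16777376) (b (l 344838897911) (l 7846533014626697747536139791))) (l 323900932343)))))))), by decide +kernel⟩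

def k5_pp_123 : ∃ t, chk3 f_pp_123 t 2057 265 1 = true :=
  ⟨(b (a (l 144029323084611663) (l 16777336)) (a (b (l 16777344) (l 604349779367117214492239)) (l 144030628760027215))), by decide +kernel⟩

def k6_pp_123 : ∃ t, chk3 f_pp_123 t 1029 265 1 = true :=
  ⟨(a (b (l 16777576) (a (l 16777320) (l 16777480))) (l 16777768)), by decide +kernel⟩

def k7_pp_123 : ∃ t, chk3 f_pp_123 t 2056 266 1 = true :=
  ⟨(b (a (l 3) (a (l 3) (a (l 3) (a (l 3) (a (l 3) (b (b (b (b (l 7614419257260688945992553999) (l 516637589895)) (l 3)) (l 3)) (l 3))))))) (l 3)), by decide +kernel⟩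

def k8_pp_123 : ∃ t, chk3 f_pp_123 t 2057 532 1 = true :=
  ⟨(a (a (b (b (a (a (a (b (b (l 16777384) (l 7401648313008514211244250639)) (l 506973913511)) (b (l 16777384) (b (l 7150191742528671342905382415) (l 492478398839)))) (a (b (l 16777376) (b (l 16777384) (l 6908406578605745507964147215))) (l 16777384))) (l 16777376)) (b (a (a (l 3) (a (l 8765316663186319397815244303) (b (l 6724649806754540184528049679) (l 8330103346796005059694319119)))) (l 5970280088253370181293024847)) (a (l 3) (a (a (b (l 8107660995986913291548382735) (l 3)) (b (l 348060123399) (l 7894890051734738556800079375))) (l 326585286919))))) (b (b (a (l 3) (a (l 3) (a (b (l 7653104888100043098010572303) (l 3)) (b (l 16777392) (l 7420991130734034296466986511))))) (l 9355272432029377810686891535)) (l 3))) (b (l 16777368) (a (b (b (l 16777384) (a (a (b (l 7208220186481859561718683151) (l 495162753415)) (b (l 16777392) (l 6956763616002016693379798543))) (l 16777384))) (a (l 9190858543331987958912095759) (a (b (b (l 6753664031325207679300113935)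 (l 8378460402350789942667810319)) (l 3)) (b (l 6260422294904826342958028303) (l 8513860092130015777172936207))))) (a (a (b (l 16777384) (b (l 16777392) (b (l 350207607063) (l 7923904271117259280841348623)))) (l 5428681319913095081295750735)) (l 16777384))))) (l 16777352)), by decide +kernel⟩

def k9_pp_123 : ∃ t, chk3 f_pp_123 t 2057 533 1 = true :=
  ⟨(a (b (b (a (l 3) (a (l 3) (a (a (l 3) (b (b (l 7691790514327711231601186319) (l 3)) (l 3))) (a (b (b (l 16777392) (l 7479019570363766873004594703)) (l 510195139015)) (b (l 16777392) (b (l 7266248626399822514408003087) (l 496773366167))))))) (l 3)) (l 3)) (b (a (b (b (l 16777384) (a (a (c (l 6386150628567450970615059983) (l 6347464998881018323203905039)) (l 16777392)) (l 16777384))) (a (b (a (a (l 493552140727) (b (l 6773006845591963250702292495) (l 8417146027137306195499865615))) (l 6134694012835439046457415183)) (a (l 3) (a (l 8533202903802697963209692687) (b (l 351818219815) (l 7952918489346858500275754511))))) (l 5399667107448103247456626255)))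 (l 16777368)) (b (a (a (l 3) (a (b (a (b (l 7720804732557310451035592207) (l 3)) (b (l 16777400) (l 7517705195150283125836633615))) (l 509658268167)) (b (l 16777400) (a (b (l 7285591438072504700444759567) (l 497847108007)) (l 6608592981105924995671283215))))) (l 16777392)) (a (a (l 3) (l 9268229776187658647776876047)) (a (a (a (b (b (l 6792349656976415060587337231) (l 476372271431)) (l 3)) (b (l 6299107924591258990369183247) (l 8542874308918463115848799759))) (a (b (l 16777400) (b (l 352891961655) (l 7972261301019540686312510991))) (l 327122157863))) (l 16777400)))))), by decide +kernel⟩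

def k10_pp_123 : ∃ t, chk3 f_pp_123 t 1028 267 1 = true :=
  ⟨(a (l 3) (b (a (l 3) (b (a (l 3) (a (a (l 3) (a (l 3) (b (b (b (l 7769161763612513361113552399) (l 3)) (l 3)) (l 3)))) (b (a (a (b (b (l 16777408) (l 7527376599977817902324028943)) (l 515026977223)) (b (l 16777408) (b (l 7295262842900039476932154895) (l 503752687975)))) (b (l 16777400) (c (l 6405493438222520523589834255) (l 6357136368256216833030772239)))) (a (l 3) (a (l 8939401970834532457511458319) (b (b (l 6792349655535263179828794895) (l 472614175143)) (l 3))))))) (l 3))) (l 3))), by decide +kernel⟩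

def k11_pp_123 : ∃ t, chk3 f_pp_123 t 1029 133 1 = true :=
  ⟨(b (a (b (a (l 16776688) (l 16777304)) (a (l 16777344) (l 16774712))) (b (l 16777528) (l 16777328))) (a (b (a (b (b (l 16777376) (a (a (b (l 5989622918805139187768382991) (a (a (l 8552545713745997892336195087) (b (l 353428832583) (l 7972261299290158429402256911))) (l 328732770615))) (l 16777400)) (l 16777376))) (a (a (b (a (l 3) (b (a (l 8223717891387279509119538703) (b (l 16777416) (l 7517705191691518612016141839))) (l 511805751831))) (l 3)) (b (a (b (l 16777408) (a (b (l 7295262841170657220021900815) (l 503752687991)) (l 6608592977647160481850775055))) (l 16777408)) (b (a (l 497847108119) (a (b (l 6792349700787432235647555087) (l 472077304247)) (l 6279765108306890785905104399))) (a (l 3) (l 8678273994662463684230043151))))) (a (a (a (b (l 16777408) (b (l 16777416) (b (l 352891961671) (l 7981932704117693205889635855)))) (l 5399667120706700481715955279)) (l 16777400)) (l 16777392)))) (l 16777336)) (b (a (a (l 3) (b (a (a (b (c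 (l 8494517270945731178129790479) (l 8504188682979025358409963023)) (l 3)) (a (b (l 6908406578605745507964245519) (l 512342622711)) (b (l 16777416) (b (l 7275920026327440896316347919) (l 503215817079))))) (c (l 5738166389254009732972598799) (c (l 6008965734224816263777424911) (l 5989622919093369563920127503)))) (a (l 3) (a (a (l 501605204535) (b (b (l 6773006885944215911942002191) (l 475835400567)) (l 3))) (b (l 6115351196551070841993369103) (a (l 8533202902649776458602911247) (b (l 351818219863) (l 7962589888986246506032371215)))))))) (a (b (l 16777392) (l 5293281649157074141523142223)) (l 16777368))) (a (l 3) (a (a (b (a (b (a (l 8214046487136205484935599631) (l 6918077983145049908299896335)) (l 510195139127)) (a (b (l 16777424) (l 7885218664777487101718943247)) (l 6231408121639165803190769167))) (a (l 3) (l 506437042743))) (b (l 16777416) (a (b (a (l 7556390836365930819316340239) (l 349133865319)) (l 8658931177513404351310812687)) (a (b (l 16777424) (l 7198548794336461335906735631)) (l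 16777384))))) (l 16777400))))) (b (l 143943355019100239) (a (l 16777328) (l 16777296))))), by decide +kernel⟩

def k12_pp_123 : ∃ t, chk3 f_pp_123 t 515 66 1 = true :=
  ⟨(b (a (b (l 16775392) (l 143900817624825935)) (l 16773984)) (a (b (l 143915729752916047) (a (b (l 16777464) (l 16777272)) (l 16777632))) (b (l 16776808) (l 144088559237054543)))), by decide +kernel⟩

def k13_pp_123 : ∃ t, chk3 f_pp_123 t 1028 134 1 = true :=
  ⟨(l 3), by decide +kernel⟩

def k14_pp_123 : ∃ t, chk3 f_pp_123 t 1029 268 1 = true :=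
  ⟨(a (b (a (l 3) (b (b (a (a (l 3) (a (l 3) (b (l 8465503047239754811812910607) (l 3)))) (a (a (a (b (l 6879392354899769141647349263) (l 511268880903)) (b (l 16777432) (l 7856204442800892992312317455))) (l 6125022649513078435816625679)) (l 16777416))) (a (l 3) (b (a (a (l 3) (a (l 491941528071) (l 7517705208120650052663776783))) (l 5941265878238333864683984399)) (a (l 3) (a (a (l 8494517266334045159702418959) (l 7169534572648097602651805199)) (l 16777432)))))) (b (a (l 3) (b (a (l 3) (a (l 3) (a (l 8156018037418409743088113167) (l 6821363913252423932047775247)))) (l 9364943823886545660347340303))) (l 3)))) (l 3)) (b (a (b (l 16777384) (a (a (b (a (a (b (l 16777440) (l 7817518808502774326473807375)) (l 6183051084531124993926862351)) (l 16777432)) (a (l 8920059133221116417820792335) (b (a (l 7459676766473304843064186383) (l 344302027127)) (l 8629916953519197608842204687)))) (a (b (l 16777424) (b (l 16777440) (c (l 6753664084071366515063510543) (l 6714978446602713711556171279)))) (l 16777424)))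 (l 16777400))) (l 16777320)) (a (a (b (b (a (l 3) (a (b (l 8426817416400400659794941455) (l 3)) (b (l 6482864683472097386978350607) (c (l 8194703659034391858251339279) (l 8175360858602694342131373583))))) (l 3)) (l 3)) (b (a (b (l 5960608737180797739601466895) (a (b (c (l 7943247089131009742215878159) (l 7923904288699312226095912463)) (l 3)) (b (l 334638350727) (a (l 469929820679) (l 7063149095622093840698594831))))) (l 16777432)) (a (l 3) (a (b (a (l 8513860070800967941946463759) (b (l 6724649842783337203492214287) (l 504826429991))) (l 3)) (b (b (l 16777448) (c (l 7179205972287485608408405519) (l 7140520352977346502458906127))) (l 499994591879)))))) (b (l 16777376) (b (l 604422125212696893072975) (a (a (a (b (l 6908406589558499801729357327) (l 8571888508989548637725513231)) (l 6347465013292537130789639695)) (l 16777440)) (l 16777408))))))), by decide +kernel⟩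

def k15_pp_123 : ∃ t, chk3 f_pp_123 t 1029 269 1 = true :=
  ⟨(a (l 3) (b (a (l 3) (b (a (a (a (l 3) (b (b (l 8320431939086166521690052111) (l 3)) (l 3))) (a (b (b (l 6405493425828614349066360335) (l 8107660995122222163093427727)) (l 3)) (b (l 5999294354473324212489033231) (b (l 7846533018661923013660317199) (l 3))))) (a (a (b (l 16777440) (b (l 16777376) (l 7604747855027227554870777359))) (l 16777440)) (l 16777424))) (a (l 3) (a (a (l 518785073879) (b (b (l 7314605658896177305244718607) (l 501605204583)) (l 3))) (a (b (b (l 16777456) (l 7053477682147647779659896335)) (l 496773366423)) (b (l 16777456) (b (l 6802021111956035287472723471) (l 473687917143)))))))) (l 3))), by decide +kernel⟩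

def k16_pp_123 : ∃ t, chk3 f_pp_123 t 514 135 1 = true :=
  ⟨(l 3), by decide +kernel⟩

def k17_pp_123 : ∃ t, chk3 f_pp_123 t 515 134 1 = true :=
  ⟨(a (b (a (b (l 143946722267988047) (a (l 16777304) (l 16777240))) (b (l 16777392) (l 16777200))) (a (b (a (b (l 16777368) (b (l 16777400) (a (a (l 6105679835822783616717968911) (l 16777432)) (l 16777400)))) (l 16777288)) (a (a (b (b (a (a (l 8542874267701519326154249743) (b (l 352355090775) (l 8010946923788444306082715151))) (l 325511545319)) (a (l 3) (a (b (l 7749818947328145156649604623) (l 3)) (b (l 16777472) (l 7488690970579615631064782351))))) (c (l 515026977655) (l 515563848583))) (b (l 16777432) (b (a (a (b (l 7198548774160335005286995471) (l 495699624567)) (l 6531221713950839544752952847)) (l 16777456)) (a (l 8842687858860271563109651983) (a (b (l 6676292820375045577965639183) (l 467782337111)) (l 6173379683450585107411817999)))))) (l 16777376))) (b (l 143946516120158287) (l 604054919538519824246351)))) (b (l 16777728) (a (l 16777184)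 (l 16777448)))), by decide +kernel⟩

def k18_pp_123 : ∃ t, chk3 f_pp_123 t 1030 135 1 = true :=
  ⟨(b (a (b (a (b (a (l 3) (a (l 3) (a (l 3) (b (l 8465503014957952682821359119) (l 3))))) (l 3)) (a (b (a (a (b (b (l 344302027207) (l 7875547222768233801660864015)) (l 3)) (b (l 16777472) (b (l 7614419246019704276076041743) (l 516637590167)))) (a (b (l 16777456) (l 6782678277513153385450788367)) (l 16777456))) (a (l 3) (a (l 513416364791) (b (b (l 7053477666006746715164071439) (l 488720302711)) (l 3))))) (b (l 16777424) (a (b (l 6221736701247190714511054351) (a (l 487109690039) (b (l 365776863623) (l 459192402535)))) (l 5844551847545039045064726031))))) (a (l 3) (a (l 3) (b (a (l 3) (b (a (l 8320431909398437778063840783) (l 7034134846263613996879418895)) (l 3))) (l 3))))) (b (l 16777304) (a (a (b (a (b (l 16777472) (a (l 7962589867368968294654219791) (l 6666621397388997103920453135))) (l 16777456)) (a (l 511268881207) (a (b (b (l 386177958295) (l 480130368119)) (l 3)) (b (l 353428832647) (l 480667239111)))))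 (b (l 16777416) (a (a (b (l 16777480) (l 7246905782733568575531554319)) (l 324437803527)) (l 16777456)))) (l 16777344)))) (a (l 3) (b (a (b (a (l 3) (a (a (l 3) (a (l 506437042935) (b (l 7401648281303172834556319247) (l 3)))) (a (b (l 6947092179757370916356085263) (l 513953235703)) (b (l 16777488) (b (l 408189665719) (l 499457720983)))))) (l 3)) (b (a (a (a (b (l 16777472) (l 6589250137151440680643040783)) (l 16777472)) (l 16777448)) (l 16777400)) (a (b (a (a (l 493552141031) (b (l 374903669159) (l 468856078983))) (l 335175221799)) (a (l 3) (a (l 472614175447) (b (l 16777424) (l 442549404119))))) (l 16777456)))) (a (l 3) (a (l 3) (b (b (a (a (b (l 427517018567) (l 517711332023)) (b (l 16777504) (l 411947762119))) (l 16777488)) (a (l 511268881159) (a (b (l 393694151111) (l 490867786327)) (l 358260670887)))) (a (l 3) (l 503752688455)))))))), by decide +kernel⟩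

def k19_pp_123 : ∃ t, chk3 f_pp_123 t 1031 135 1 = true :=
  ⟨(b (a (b (l 603622285746252566816335) (l 603692325724977373341263)) (l 16777088)) (a (b (l 16777248) (a (b (l 16777416) (a (a (a (b (b (l 362555638199) (l 461339886055)) (l 3)) (b (l 336785834407) (l 465634853575))) (a (a (b (l 16777488) (l 409263407575)) (l 339470189111)) (l 16777488))) (l 16777440))) (l 16777296))) (l 603664655610653512541775))), by decide +kernel⟩

def k20_pp_123 : ∃ t, chk3 f_pp_123 t 129 16 1 = true :=
  ⟨(b (l 6) (a (b (b (l 16769016) (l 16772448)) (a (b (a (l 143907964453093455) (l 16777112)) (a (b (l 16777440) (a (l 16776984) (l 16777216))) (l 143912499937919055))) (l 143861647523692623))) (l 16768240))), by decide +kernel⟩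

def k21_pp_123 : ∃ t, chk3 f_pp_123 t 128 17 1 = true :=
  ⟨(b (a (l 3) (b (a (l 3) (a (l 3) (b (b (a (b (a (a (a (l 3) (a (l 519858815991) (b (b (b (l 414095245783) (l 505363301047)) (l 3)) (l 3)))) (b (a (a (b (l 370071830967) (l 498383979255)) (b (l 16777496) (b (l 380272378311) (l 479056626183)))) (l 328732770887)) (a (l 3) (a (l 495162753815) (b (b (l 16777352) (l 447381242359)) (l 3)))))) (a (b (l 16777432) (a (b (l 16777496) (a (l 456508048071) (l 381882991047))) (l 16777480))) (l 16777384))) (a (l 3) (b (b (a (a (l 513416364839) (a (l 432885727911) (l 359871283655))) (l 16777472)) (a (l 505363301223) (b (l 330880254535) (c (a (l 413021503975) (l 16777488)) (l 6618264355381039900077512207))))) (a (l 3) (a (b (l 482277851895) (l 3)) (b (c (l 370071831143) (l 6589250143492508955980797455)) (c (l 465097982727) (l 464561111831)))))))) (b (l 16777184) (a (b (l 16777368) (a (c (l 5554409631526092840970655247) (l 5583423869643588014873138703)) (l 16777392))) (l 16777232)))) (a (l 3) (b (a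 (b (a (a (b (c (l 7546719370433556298666366479) (l 8059303936685133518603064847)) (l 3)) (b (l 339470188967) (l 7730476102220739337014482447))) (l 16777464)) (a (l 3) (a (b (l 7498362354366332948477367823) (l 513416364855)) (b (l 16777496) (l 7217891574015571769103717903))))) (l 16777376)) (a (b (a (l 3) (l 508047655895)) (l 3)) (b (a (a (a (l 8049632534739902503632901647) (l 7246905802045003777696355855)) (l 6260422343903990288749368847)) (l 16777440)) (a (l 8871702062966582351110231567) (a (a (l 7585405039319320102710334991) (l 6782678306336191000622077455)) (l 327122158151)))))))) (b (a (l 3) (b (a (l 3) (a (l 3) (a (l 3) (a (l 505900172247) (b (l 7904561457138734085591406095) (l 3)))))) (l 3))) (l 3))))) (l 3))) (l 3)), by decide +kernel⟩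

def k22_pp_123 : ∃ t, chk3 f_pp_123 t 258 68 1 = true :=
  ⟨(a (b (a (b (a (l 603615368218874182198863) (l 16776864)) (a (l 604291556857110530532943) (l 143950501849153615))) (b (l 16777152) (a (l 16776720) (l 16776912)))) (a (b (a (b (a (b (a (a (a (l 7121177543610507325636056591) (l 350207607399)) (l 16777472)) (l 16777408)) (b (a (a (l 511805752119) (l 7121177552257418610187408911)) (l 16777464)) (a (l 504289559415) (l 6366807854941178436604646927)))) (l 16777304)) (a (b (a (l 3) (a (l 492478399319) (a (l 7769161791859090223981778447) (l 6966435059164191498045183503)))) (l 3)) (a (b (l 327659029079) (a (l 8330103361495754243432273423) (l 6956763665577641391474644495))) (l 16777408)))) (l 16777064)) (a (b (a (l 3) (a (l 3) (b (a (l 7972261337913028833732072975) (l 6550564561652318749753857551)) (l 505900172231)))) (l 3)) (b (a (a (a (b (l 16777456) (l 7508033830386770634437645839)) (l 5564081005512977369224828431)) (l 16777368)) (l 16777208)) (a (b (a (l 8813673698276747574017660431) (a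 (l 7092163378991758070420117007) (l 16777464))) (a (l 3) (c (l 8378460410421240474916410895) (l 8378460445873576741576971791)))) (b (l 16777336) (a (l 6376479253427644937754301967) (l 16777368))))))) (b (a (l 143953044469497935) (l 16776560)) (a (l 16776936) (l 16775248))))) (b (a (l 16777592) (l 16778072)) (a (b (l 16776792) (l 16776432)) (l 16777008)))), by decide +kernel⟩

def k23_pp_123 : ∃ t, chk3 f_pp_123 t 258 69 1 = true :=
  ⟨(a (b (a (b (a (l 3) (b (a (l 3) (b (a (a (l 508584526679) (l 7691790599643902572508288527)) (l 338396447287)) (a (l 3) (a (l 484962206487) (l 7217891657314150476948461071))))) (l 3))) (l 3)) (b (a (a (b (l 604325856274277766571599) (b (a (a (l 461339886295) (l 379735507543)) (l 16777400)) (a (l 516100719543) (a (l 7807847468815304560273577487) (l 356113187351))))) (l 16777176)) (l 16776784)) (a (b (a (l 9142501497577035865097721359) (b (a (l 6821363965854478368693298767) (l 16777344)) (a (l 481740981015) (l 6502207514600341370688972367)))) (a (l 3) (b (a (l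 3) (l 8243060753788507897858086415)) (l 3)))) (b (l 16777080) (a (b (l 5525395325242126282852492879) (a (l 7943247139427219932697208399) (l 327659028903))) (l 16777136)))))) (a (l 3) (b (a (l 3) (b (a (b (a (l 3) (l 7624090712096204017845986895)) (l 3)) (b (l 16777280) (a (l 7304934273524206456734983759) (l 16777312)))) (a (l 3) (b (a (l 506437042967) (l 6937420769309358785756292687)) (l 498920850311))))) (l 3)))) (b (a (b (a (l 16776360) (l 16776176)) (a (l 16776608) (l 16776144))) (b (l 16776352) (l 16775992))) (a (b (a (b (l 16776912) (a (b (l 16777208) (a (l 369534960039) (l 16777240))) (l 16776976))) (l 16776400)) (a (b (a (b (a (l 470466691687) (l 351281348951)) (l 8571888456963980791907051087)) (l 276656292103)) (a (l 3) (b (a (l 7720200284203154311979106383) (l 16777264)) (a (l 3) (l 412484633031))))) (l 144139892726956111))) (b (l 143971392567885903) (a (l 16776168) (l 16775624)))))), by decide +kernel⟩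

def k24_pp_123 : ∃ t, chk3 f_pp_123 t 259 34 1 = true :=
  ⟨(b (a (b (l 16777848) (l 143882813123641423)) (l 16776896)) (a (b (l 143911056826581071) (a (l 143964108297306191) (l 16775696))) (b (l 16777840) (l 16765752)))), by decide +kernel⟩

def k25_pp_123 : ∃ t, chk3 f_pp_123 t 129 35 1 = true :=
  ⟨(a (b (a (l 3) (b (a (b (a (b (l 513416365447) (l 3)) (b (a (b (a (l 386714829127) (l 16777176)) (a (l 492478398983) (l 367924347111))) (l 16777000)) (a (l 496773366551) (b (l 265382002823) (a (l 454897434935) (l 16777192)))))) (a (l 3) (b (a (l 3) (l 8619641093996445289908060239)) (l 3)))) (b (l 143967956594999375) (a (b (a (b (l 16777056) (a (l 405505310935) (l 16777088))) (l 16776776)) (a (b (a (l 512879493495) (l 386714828871)) (l 503215817175)) (l 4934835195811063743020859471))) (l 16776360)))) (a (l 3) (b (a (b (a (l 3) (b (a (l 474761658503) (l 336248962871)) (l 478519754983))) (l 3)) (a (b (l 16776888) (a (l 452749951015) (a (l 346449510247) (l 261087035015)))) (l 16776640))) (a (l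 3) (b (a (l 516637589911) (b (l 4644692999103558650966245455) (a (l 493015269271) (l 344838897191)))) (l 503752688183))))))) (l 3)) (b (a (b (a (b (l 16775208) (l 143980119940595791)) (l 16774960)) (a (b (l 16775680) (a (a (a (b (l 16776712) (l 6346860553120955566879817807)) (l 16776640)) (l 16776352)) (l 16775736))) (b (l 16774480) (l 143970980248666191)))) (b (l 16775240) (l 16774216))) (a (b (a (b (a (b (a (l 8397198743187378329492471887) (l 4809106910571126915688120399)) (a (l 3) (b (l 6695031189169985880344887375) (l 489257172647)))) (l 3929008913891621832197914703)) (a (l 3) (b (a (b (a (l 458118659383) (l 16776656)) (l 463487368599)) (l 16776424)) (a (l 3) (b (l 237464714343) (l 367924346007)))))) (b (l 16774984) (l 144054749292625999))) (a (b (a (l 3) (l 513953235303)) (l 3)) (b (a (b (a (b (l 255181454231) (l 6395217585905532281371951183)) (l 16776200)) (a (l 482277850567) (l 4596335966318953967645917263))) (l 16775744)) (a (b (a (l 3) (b (l 371145571463) (l 509121396215))) (l 3))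 (b (l 206863070151) (a (b (l 360945024055) (l 482277850551)) (l 16776432))))))) (b (a (l 143939094410035279) (l 16773608)) (a (b (l 16774488) (l 16775208)) (l 144083199152046159)))))), by decide +kernel⟩

def k26_pp_123 : ∃ t, chk3 f_pp_123 t 65 8 1 = true :=
  ⟨(b (a (b (l 6) (l 16763832)) (l 16760128)) (a (b (l 143631643432255567) (a (b (a (l 143820347113783375) (l 16776632)) (a (l 16773608) (l 143748122985840719))) (b (l 16779840) (l 16776856)))) (b (l 16773056) (l 16782248)))), by decide +kernel⟩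

def k27_pp_123 : ∃ t, chk3 f_pp_123 t 33 8 1 = true :=
  ⟨(a (b (a (l 16766728) (l 16775704)) (l 16779760)) (b (l 16752208) (l 16745504))), by decide +kernel⟩

def k28_pp_123 : ∃ t, chk3 f_pp_123 t 64 9 1 = true :=
  ⟨(b (a (l 3) (b (a (l 3) (b (a (b (a (l 3) (b (a (l 3) (b (a (l 3) (b (l 224579812631) (l 373829926327))) (l 3))) (l 3))) (l 3)) (b (a (b (a (b (l 16776232) (a (b (l 242833423687) (l 362555637239)) (l 16776464))) (l 16775640)) (a (b (a (l 495699624071) (b (l 16776800) (l 351281348471))) (l 487646559623)) (b (l 16776336) (a (l 245517779111) (l 16776640))))) (b (l 16774416) (l 16775376))) (a (b (a (l 3) (b (a (l 374366798423) (l 260550164951)) (a (l 3) (b (l 351281349639) (l 379735508183))))) (l 3)) (b (a (b (l 16776600) (l 16777168)) (l 16776120)) (a (b (a (b (l 233169749479) (l 365776864967)) (l 16777592)) (a (l 507510786615) (b (l 256792070199) (l 342154545783)))) (l 16777360)))))) (a (l 3) (b (a (l 3) (b (a (l 497847109095) (a (b (l 254107715063) (l 375977414423)) (l 278266905335)))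 (a (l 3) (b (a (l 3) (l 368461222327)) (l 3))))) (l 3))))) (l 3))) (l 3)), by decide +kernel⟩

def k29_pp_123 : ∃ t, chk3 f_pp_123 t 65 18 1 = true :=
  ⟨(a (b (a (b (a (b (a (l 144041348991140047) (l 16773856)) (a (l 143867007682281679) (l 16774584))) (l 16774592)) (a (b (a (b (l 16777544) (a (b (l 16778968) (a (l 352891966583) (l 16779488))) (l 16778560))) (l 144075090260050127)) (a (b (a (b (a (l 516100725159) (l 352891966167)) (l 500531469767)) (l 4963849415481750178189197519)) (a (l 3) (b (a (l 468856086487) (l 265382009063)) (l 8474569995642663125795258575)))) (b (l 16778824) (l 144110686945902799)))) (b (a (l 16775656) (l 16775904)) (a (l 16772704) (l 16776976))))) (b (a (l 16776160) (l 16777160)) (a (l 16777040) (l 16778496)))) (a (b (a (a (l 3) (b (b (a (b (l 5989018510514984305647337679) (a (l 3) (l 355576325431))) (l 16781616)) (a (l 503752700919) (b (l 5776247566262832385767178447) (a (l 470466704359) (l 347523263559))))) (b (a (l 3) (l 8638983907110289389762101455)) (l 3))))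 (b (a (l 16770712) (l 16758504)) (a (b (a (b (l 16783832) (l 6288832113779446013523361999)) (l 16783456)) (a (b (l 7874942789113846843725643983) (l 501068351447)) (l 5766576159705944077113475151))) (l 16783056)))) (a (l 3) (b (a (b (a (l 3) (b (a (l 468856097671) (l 344838914727)) (l 8522927028427312889103433807))) (l 3)) (b (l 5273334425303187262303584335) (a (b (a (l 7845928569443121032304017487) (l 16787760)) (a (l 3) (l 7072216044889769561767411791))) (l 16787632)))) (a (l 3) (b (a (b (l 499457724551) (l 3)) (b (a (l 6598921334020838091090993231) (l 16789016)) (a (b (l 459192427831) (l 523616938231)) (l 6125022150154035934358904975)))) (a (l 3) (b (a (l 3) (b (l 7546719315958015206018682895) (l 482277879463))) (l 3)))))))) (b (a (b (l 16778736) (a (l 16760304) (l 16780424))) (l 16780400)) (a (b (a (l 16785184) (l 16762392)) (a (b (l 16767464) (a (b (l 5477037658494816194534051855) (a (b (l 6927749037484447284331433999) (l 8475173933540842891382034447)) (l 16770512))) (l 16790232))) (l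 16787608))) (b (l 16782848) (l 603745648529008513982479)))))) (b (a (b (l 16780600) (l 16759184)) (l 16783664)) (a (b (l 144007470264352783) (l 16744584)) (b (l 16763464) (l 16685112))))), by decide +kernel⟩

def k30_pp_123 : ∃ t, chk3 f_pp_123 t 65 19 1 = true :=
  ⟨(a (b (a (l 3) (b (a (b (a (b (a (a (l 549923595767) (a (b (b (l 6966434309476983127426387983) (l 506437052359)) (l 3)) (b (l 6115350281707856936424067087) (l 9007100718286988177133391887)))) (b (l 16790936) (a (b (l 5747836243690351189344882703) (a (l 8020617269081116348812316687) (l 16752912))) (l 16773352)))) (a (l 3) (b (a (b (a (l 3) (l 7382304346396714785231671311)) (l 513416330247)) (b (l 16762312) (a (l 6627934583940409601360465935) (l 16753560)))) (a (l 3) (b (a (l 484425277991) (l 340543862071)) (l 8349444830303113938566877711)))))) (b (l 16766784) (a (b (l 16750552) (l 5148209238922758424865264143)) (l 16732984)))) (a (l 3) (b (a (b (a (a (a (l 500531359335) (l 7701460415457373624536355343)) (l 6357134904910597110716060175))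 (l 16718952)) (a (l 515026840919) (b (l 6221735146532541752098230799) (a (l 481740829959) (l 329269543735))))) (l 16704496)) (a (b (a (l 3) (l 489793869575)) (l 3)) (b (c (l 5979949049031427561706967567) (l 5360977558549127922010280463)) (a (b (l 445770445271) (l 511805532215)) (l 298130958759))))))) (b (a (l 16731976) (l 16713144)) (l 599748325544635174752783))) (a (b (a (l 3) (b (a (l 3) (b (a (l 3) (l 6743988697917645954778845711)) (l 3))) (l 3))) (l 3)) (b (a (b (a (b (l 16646592) (a (l 409800014103) (l 16630808))) (l 16631704)) (a (a (l 518247875671) (l 6637601054840365412609872399)) (l 264844825735))) (l 16606992)) (a (b (a (l 3) (l 6743985275758389905299411471)) (l 3)) (b (l 16567840) (l 6386141844746737746761650703))))))) (a (l 3) (b (a (l 3) (b (a (l 3) (b (l 6811681583052481124391588367) (l 501604630759))) (l 3))) (l 3)))) (b (a (b (a (b (l 16687936) (l 598209463566361122198031)) (l 16634712)) (a (b (l 596090105610517482115599) (l 16536632)) (l 16539296))) (b (l 16600680) (l 16513424)))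 (a (b (a (b (l 592284599954186229502479) (a (l 6850365180138301149801730575) (l 16435416))) (b (l 16468960) (l 16423224))) (a (b (l 7034119372039409539142455823) (l 524689791719)) (b (l 16378792) (l 16335448)))) (b (a (l 16431712) (l 16420880)) (a (l 16345448) (l 16337208)))))), by decide +kernel⟩

def k31_pp_123 : ∃ t, chk3 f_pp_123 t 33 9 1 = true :=
  ⟨(a (b (l 592177232951047795122191) (b (a (a (l 592952571001808393085455) (l 16502856)) (l 16479504)) (a (a (l 16367600) (l 16357832)) (l 16348840)))) (b (l 16608400) (l 16397824))), by decide +kernel⟩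

def k32_pp_123 : ∃ t, chk3 f_pp_123 t 17 4 1 = true :=
  ⟨(b (a (b (l 16649608) (a (l 16703728) (l 16674792))) (l 16561560)) (a (b (a (l 16584632) (l 16569464)) (l 16395664)) (b (l 16533280) (l 16382560)))), by decide +kernel⟩

def k33_pp_123 : ∃ t, chk3 f_pp_123 t 9 4 1 = true :=
  ⟨(b (a (l 16301144) (l 16067144)) (a (b (l 16407944) (l 16297808)) (l 16138312))), by decide +kernel⟩

def k34_pp_123 : ∃ t, chk3 f_pp_123 t 5 4 1 = true :=
  ⟨(a (b (l 15806088) (a (l 15811104) (l 15749968))) (b (l 15514464) (l 15540504))), by decide +kernel⟩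

def k35_pp_123 : ∃ t, chk3 f_pp_123 t 3 4 1 = true :=
  ⟨(a (a (b (l 15151656) (l 15205600)) (l 14680952)) (a (l 14445088) (l 14110536))), by decide +kernel⟩

def k36_pp_123 : ∃ t, chk3 f_pp_123 t 8 5 1 = true :=
  ⟨(a (b (a (a (l 3) (b (a (l 3) (b (a (b (a (l 3) (b (l 252496151351) (l 414631081415))) (l 3)) (b (a (l 16264504) (l 16257800)) (a (l 16188432) (l 16184176)))) (a (l 3) (b (a (l 16116880) (l 16115760)) (a (l 3) (l 16051680)))))) (l 3))) (b (a (a (b (a (b (a (l 16253944) (l 16252392)) (a (l 16180936) (l 16180416))) (l 16215936)) (a (b (a (l 16113928) (l 16113352)) (a (l 16052344) (l 16052368))) (b (l 16117168) (a (l 16053832) (l 16057840))))) (b (l 16220184) (a (l 16094408) (l 16104672)))) (b (l 16233480) (a (l 16118248) (l 16136272)))) (a (a (b (a (b (l 16015136) (l 15941000)) (a (a (l 15971840) (l 15972880)) (l 15975504))) (b (a (l 15892480) (l 15903080)) (a (l 3) (l 15860248)))) (b (b (l 16016744) (a (l 15958648) (l 15973040))) (b (a (l 15912368) (l 15926128)) (a (l 15871200)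 (l 15882976))))) (a (b (l 16018424) (l 15928424)) (l 15997472))))) (a (l 3) (b (a (a (b (b (a (l 3) (l 15821424)) (l 3)) (l 3)) (b (a (b (l 15834632) (l 15801584)) (b (l 15844736) (l 15811208))) (b (a (l 15771568) (l 15781928)) (a (l 15741072) (l 15756032))))) (a (b (a (l 15841896) (l 15859608)) (a (b (l 15793168) (l 15766088)) (l 15794496))) (b (l 15886032) (l 15821616)))) (a (b (a (l 3) (b (l 15723432) (l 15701952))) (l 3)) (b (a (a (b (l 15742856) (l 15722840)) (l 15743760)) (a (l 15759032) (l 15777136))) (a (b (l 15709376) (l 15692960)) (a (l 15718352) (l 15733512)))))))) (b (a (b (l 16212056) (l 16049288)) (b (l 16227344) (l 16091432))) (a (b (a (b (l 15927168) (l 15869312)) (l 15939776)) (a (b (l 15819888) (l 15777736)) (l 15848736))) (b (l 15978920) (l 15897128))))), by decide +kernel⟩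

def k37_pp_123 : ∃ t, chk3 f_pp_123 t 9 5 1 = true :=
  ⟨(b (a (a (b (l 16210120) (l 16093376)) (l 16104320)) (l 16000896)) (a (a (b (l 15995128) (l 15925080)) (b (l 15987296) (l 15923424))) (b (l 15921168) (l 15889016)))), by decide +kernel⟩

def k38_pp_123 : ∃ t, chk3 f_pp_123 t 5 5 1 = true :=
  ⟨(a (b (a (l 15810504) (l 15644176)) (a (l 15772808) (l 15604680))) (b (a (l 15514432) (l 15395976)) (a (l 15452208) (l 15338704)))), by decide +kernel⟩

def k39_pp_123 : ∃ t, chk3 f_pp_123 t 3 5 1 = true :=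
  ⟨(a (a (b (l 15193488) (l 15179208)) (b (l 14888992) (l 14933688))) (a (b (l 14574184) (l 14665688)) (b (l 14272536) (l 14398432)))), by decide +kernel⟩

def k40_pp_123 : ∃ t, chk3 f_pp_123 t 1 6 1 = true :=
  ⟨(a (a (a (a (a (l 3) (b (a (l 3) (b (b (a (a (l 15666344) (l 15680728)) (a (l 15690232) (l 15701528))) (a (l 15652896) (l 15676008))) (b (a (l 3) (l 15662824)) (l 15645936)))) (b (b (l 3) (l 3)) (l 3)))) (b (a (b (a (a (b (b (l 15733088) (l 15717552)) (a (l 15691960) (l 15706264))) (l 15743432)) (l 15787920)) (a (a (b (l 15684176) (l 15676328)) (b (l 15710136) (l 15697384))) (l 15747592))) (b (a (l 15829232) (l 15856256)) (a (l 15798736) (l 15831616)))) (a (b (b (a (a (l 15674624) (l 15693200)) (l 15731704)) (a (l 15687096) (l 15727944))) (a (b (l 15695320) (l 15708320)) (b (l 15731232) (l 15740688)))) (b (a (l 15782936) (l 15824792)) (a (l 15781008) (l 15829344)))))) (b (a (b (l 15885008) (l 15843368)) (b (l 15862856) (l 15850296))) (a (b (a (l 15856112) (l 15869448)) (a (l 15872264)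 (l 15891768))) (b (l 15861216) (l 15885272))))) (b (b (a (l 15717032) (l 15341832)) (a (a (a (l 15821544) (l 15773648)) (l 15685800)) (l 15459192))) (a (a (a (l 15840704) (a (l 15823816) (b (l 15601600) (l 15845392)))) (b (l 15741928) (l 15801496))) (b (l 15553016) (l 15640736))))) (a (b (a (b (l 15173312) (l 15209360)) (l 14994600)) (a (b (a (l 15314424) (l 15194200)) (l 195451232327)) (b (l 15059768) (l 1)))) (b (a (l 14731504) (l 1)) (l 1)))), by decide +kernel⟩

def k41_pp_123 : ∃ t, chk3 f_pp_123 t 1 7 1 = true :=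
  ⟨(a (a (a (a (b (l 3) (l 3)) (b (b (a (b (a (l 15726000) (l 15755664)) (l 15762104)) (a (b (l 15792320) (l 15807608)) (l 15844960))) (a (b (l 15788752) (l 15820856)) (a (l 15844656) (l 15880256)))) (b (a (b (l 15859064) (l 3)) (a (l 15916240) (l 15943960))) (a (l 3) (b (l 16012880) (l 1)))))) (b (a (b (a (l 15901056) (l 15933968)) (a (l 15942448) (l 15993376))) (b (l 15929104) (l 15995024))) (a (b (a (l 16001368) (l 16067536)) (a (b (l 16064136) (l 1)) (l 1))) (b (l 16021784) (l 1))))) (b (a (a (a (l 15872880) (a (l 15918344) (b (l 15877368) (l 15935144)))) (b (l 15853776) (l 15920816))) (b (a (l 15808576) (l 15711880)) (l 1))) (a (b (a (a (l 16064136) (l 1)) (l 1)) (l 1)) (l 1)))) (l 1)), by decide +kernel⟩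

theorem s42_pp_123 : ∃ t, chk3 f_pp_123 t 1 3 1 = true := ex3_b k40_pp_123 k41_pp_123

theorem s43_pp_123 : ∃ t, chk3 f_pp_123 t 4 5 1 = true := ex3_a k36_pp_123 k37_pp_123

theorem s44_pp_123 : ∃ t, chk3 f_pp_123 t 2 5 1 = true := ex3_a s43_pp_123 k38_pp_123

theorem s45_pp_123 : ∃ t, chk3 f_pp_123 t 1 5 1 = true := ex3_a s44_pp_123 k39_pp_123

theorem s46_pp_123 : ∃ t, chk3 f_pp_123 t 65 9 1 = true := ex3_b k29_pp_123 k30_pp_123

theorem s47_pp_123 : ∃ t, chk3 f_pp_123 t 32 9 1 = true := ex3_a k28_pp_123 s46_pp_123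

theorem s48_pp_123 : ∃ t, chk3 f_pp_123 t 16 9 1 = true := ex3_a s47_pp_123 k31_pp_123

theorem s49_pp_123 : ∃ t, chk3 f_pp_123 t 258 34 1 = true := ex3_b k22_pp_123 k23_pp_123

theorem s50_pp_123 : ∃ t, chk3 f_pp_123 t 129 34 1 = true := ex3_a s49_pp_123 k24_pp_123

theorem s51_pp_123 : ∃ t, chk3 f_pp_123 t 129 17 1 = true := ex3_b s50_pp_123 k25_pp_123

theorem s52_pp_123 : ∃ t, chk3 f_pp_123 t 64 17 1 = true := ex3_a k21_pp_123 s51_pp_123

theorem s53_pp_123 : ∃ t, chk3 f_pp_123 t 515 135 1 = true := ex3_a k18_pp_123 k19_pp_123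

theorem s54_pp_123 : ∃ t, chk3 f_pp_123 t 515 67 1 = true := ex3_b k17_pp_123 s53_pp_123

theorem s55_pp_123 : ∃ t, chk3 f_pp_123 t 1029 134 1 = true := ex3_b k14_pp_123 k15_pp_123

theorem s56_pp_123 : ∃ t, chk3 f_pp_123 t 514 134 1 = true := ex3_a k13_pp_123 s55_pp_123

theorem s57_pp_123 : ∃ t, chk3 f_pp_123 t 514 67 1 = true := ex3_b s56_pp_123 k16_pp_123

theorem s58_pp_123 : ∃ t, chk3 f_pp_123 t 257 67 1 = true := ex3_a s57_pp_123 s54_pp_123

theorem s59_pp_123 : ∃ t, chk3 f_pp_123 t 2057 266 1 = true := ex3_b k8_pp_123 k9_pp_123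

theorem s60_pp_123 : ∃ t, chk3 f_pp_123 t 1028 266 1 = true := ex3_a k7_pp_123 s59_pp_123

theorem s61_pp_123 : ∃ t, chk3 f_pp_123 t 1028 133 1 = true := ex3_b s60_pp_123 k10_pp_123

theorem s62_pp_123 : ∃ t, chk3 f_pp_123 t 514 133 1 = true := ex3_a s61_pp_123 k11_pp_123

theorem s63_pp_123 : ∃ t, chk3 f_pp_123 t 2056 265 1 = true := ex3_b k3_pp_123 k4_pp_123

theorem s64_pp_123 : ∃ t, chk3 f_pp_123 t 1028 265 1 = true := ex3_a s63_pp_123 k5_pp_123

theorem s65_pp_123 : ∃ t, chk3 f_pp_123 t 514 265 1 = true := ex3_a s64_pp_123 k6_pp_123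

theorem s66_pp_123 : ∃ t, chk3 f_pp_123 t 514 132 1 = true := ex3_b k2_pp_123 s65_pp_123

theorem s67_pp_123 : ∃ t, chk3 f_pp_123 t 514 66 1 = true := ex3_b s66_pp_123 s62_pp_123

theorem s68_pp_123 : ∃ t, chk3 f_pp_123 t 257 66 1 = true := ex3_a s67_pp_123 k12_pp_123

theorem s69_pp_123 : ∃ t, chk3 f_pp_123 t 257 33 1 = true := ex3_b s68_pp_123 s58_pp_123

theorem s70_pp_123 : ∃ t, chk3 f_pp_123 t 128 33 1 = true := ex3_a k1_pp_123 s69_pp_123

theorem s71_pp_123 : ∃ t, chk3 f_pp_123 t 128 16 1 = true := ex3_b k0_pp_123 s70_pp_123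

theorem s72_pp_123 : ∃ t, chk3 f_pp_123 t 64 16 1 = true := ex3_a s71_pp_123 k20_pp_123

theorem s73_pp_123 : ∃ t, chk3 f_pp_123 t 64 8 1 = true := ex3_b s72_pp_123 s52_pp_123

theorem s74_pp_123 : ∃ t, chk3 f_pp_123 t 32 8 1 = true := ex3_a s73_pp_123 k26_pp_123

theorem s75_pp_123 : ∃ t, chk3 f_pp_123 t 16 8 1 = true := ex3_a s74_pp_123 k27_pp_123

theorem s76_pp_123 : ∃ t, chk3 f_pp_123 t 16 4 1 = true := ex3_b s75_pp_123 s48_pp_123

theorem s77_pp_123 : ∃ t, chk3 f_pp_123 t 8 4 1 = true := ex3_a s76_pp_123 k32_pp_123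

theorem s78_pp_123 : ∃ t, chk3 f_pp_123 t 4 4 1 = true := ex3_a s77_pp_123 k33_pp_123

theorem s79_pp_123 : ∃ t, chk3 f_pp_123 t 2 4 1 = true := ex3_a s78_pp_123 k34_pp_123

theorem s80_pp_123 : ∃ t, chk3 f_pp_123 t 1 4 1 = true := ex3_a s79_pp_123 k35_pp_123

theorem s81_pp_123 : ∃ t, chk3 f_pp_123 t 1 2 1 = true := ex3_b s80_pp_123 s45_pp_123

theorem s82_pp_123 : ∃ t, chk3 f_pp_123 t 1 1 1 = true := ex3_b s81_pp_123 s42_pp_123

theorem c_pp_123 : CertB 536870912 536870912 0 1230186008 1045395039 1503240 3 eng mog cd0q1 cd4q3 pd2 false true true .npn 1 2 3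
    ndB0q1 ndB4q3 pcB2 cut_pp_123 xt_pp_123 :=
  certB2 (fam := false) (s1 := true) (s2 := true) (a := 1) (b := 2) (c := 3) (cn := .npn) (n1 := ndB0q1) (n2 := ndB4q3) (pc := pcB2) (cut := cut_pp_123) (xt := xt_pp_123) (P1 := 536870912) (W1 := 536870912) (P2 := 0) (W2 := 1230186008) (P3 := 1045395039) (W3 := 1503240) (N0 := 3) (En := eng) (mo := mog) (C1 := cd0q1) (C2 := cd4q3) (C3 := pd2)
    rfl (fun _ => rfl) s82_pp_123

noncomputable def f_pp_133 : ℕ → ℕ → ℕ → ℕ → Bool := onCell 536870912 536870912 0 1230186008 1045395039 1503240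
    (rowB 3 eng mog cd0q1 cd4q3 pd3 0 false true true .dn 1 3 3 (qsf 536870912 536870912 0 1230186008 3) ndB0q1 ndB4q3 pcB3 Cut.none Ext.none)

def k0_pp_133 : ∃ t, chk3 f_pp_133 t 1 1 1 = true :=
  ⟨(b (b (a (a (l 16377520) (l 1)) (l 1)) (l 1)) (l 1)), by decide +kernel⟩

theorem c_pp_133 : CertB 536870912 536870912 0 1230186008 1045395039 1503240 3 eng mog cd0q1 cd4q3 pd3 false true true .dn 1 3 3
    ndB0q1 ndB4q3 pcB3 Cut.none Ext.none :=
  certB0 (fam := false) (s1 := true) (s2 := true) (a := 1) (b := 3) (c := 3) (cn := .dn) (n1 := ndB0q1) (n2 := ndB4q3) (pc := pcB3) (cut := Cut.none) (xt := Ext.none) (P1 := 536870912) (W1 := 536870912) (P2 := 0) (W2 := 1230186008) (P3 := 1045395039) (W3 := 1503240) (N0 := 3) (En := eng) (mo := mog) (C1 := cd0q1) (C2 := cd4q3) (C3 := pd3)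
    rfl k0_pp_133

noncomputable def f_pp_202 : ℕ → ℕ → ℕ → ℕ → Bool := onCell 0 536870912 1073741824 536870912 1045395039 1503240
    (rowB 3 eng mog cd0q2 cd4q2 pd0 0 false true true .pp 2 0 2 (qsf 0 536870912 1073741824 536870912 0) ndB0q2 ndB4q2 pcB0 Cut.none Ext.none)

def k0_pp_202 : ∃ t, chk3 f_pp_202 t 1 1 1 = true :=
  ⟨(l 3), by decide +kernel⟩

theorem c_pp_202 : CertB 0 536870912 1073741824 536870912 1045395039 1503240 3 eng mog cd0q2 cd4q2 pd0 false true true .pp 2 0 2
    ndB0q2 ndB4q2 pcB0 Cut.none Ext.none :=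
  certB0 (fam := false) (s1 := true) (s2 := true) (a := 2) (b := 0) (c := 2) (cn := .pp) (n1 := ndB0q2) (n2 := ndB4q2) (pc := pcB0) (cut := Cut.none) (xt := Ext.none) (P1 := 0) (W1 := 536870912) (P2 := 1073741824) (W2 := 536870912) (P3 := 1045395039) (W3 := 1503240) (N0 := 3) (En := eng) (mo := mog) (C1 := cd0q2) (C2 := cd4q2) (C3 := pd0)
    rfl k0_pp_202

noncomputable def f_pp_203 : ℕ → ℕ → ℕ → ℕ → Bool := onCell 0 536870912 0 1230186008 1045395039 1503240
    (rowB 3 eng mog cd0q2 cd4q3 pd0 0 false true true .up 2 0 3 (qsf 0 536870912 0 1230186008 0) ndB0q2 ndB4q3 pcB0 Cut.none Ext.none)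

def k0_pp_203 : ∃ t, chk3 f_pp_203 t 1 1 1 = true :=
  ⟨(b (l 2) (l 3)), by decide +kernel⟩

theorem c_pp_203 : CertB 0 536870912 0 1230186008 1045395039 1503240 3 eng mog cd0q2 cd4q3 pd0 false true true .up 2 0 3
    ndB0q2 ndB4q3 pcB0 Cut.none Ext.none :=
  certB0 (fam := false) (s1 := true) (s2 := true) (a := 2) (b := 0) (c := 3) (cn := .up) (n1 := ndB0q2) (n2 := ndB4q3) (pc := pcB0) (cut := Cut.none) (xt := Ext.none) (P1 := 0) (W1 := 536870912) (P2 := 0) (W2 := 1230186008) (P3 := 1045395039) (W3 := 1503240) (N0 := 3) (En := eng) (mo := mog) (C1 := cd0q2) (C2 := cd4q3) (C3 := pd0)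
    rfl k0_pp_203

noncomputable def cut_pp_213 : Cut := Cut.of [[⟨0, 1, 0, 14155776⟩, ⟨1, 1, 0, 14155776⟩, ⟨2, 2, 0, 524288⟩]]

noncomputable def f_pp_213 : ℕ → ℕ → ℕ → ℕ → Bool := onCell 0 536870912 0 1230186008 1045395039 1503240
    (rowB 3 eng mog cd0q2 cd4q3 pd1 0 false true true .pnn 2 1 3 (qsf 0 536870912 0 1230186008 1) ndB0q2 ndB4q3 pcB1 cut_pp_213 Ext.none)

def k0_pp_213 : ∃ t, chk3 f_pp_213 t 1 1 1 = true :=
  ⟨(b (b (a (l 3) (a (l 3) (a (l 3) (b (a (l 3) (a (l 3) (b (b (b (l 6) (l 3)) (l 3)) (l 3)))) (l 3))))) (l 3)) (l 3)), by decide +kernel⟩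

theorem c_pp_213 : CertB 0 536870912 0 1230186008 1045395039 1503240 3 eng mog cd0q2 cd4q3 pd1 false true true .pnn 2 1 3
    ndB0q2 ndB4q3 pcB1 cut_pp_213 Ext.none :=
  certB0 (fam := false) (s1 := true) (s2 := true) (a := 2) (b := 1) (c := 3) (cn := .pnn) (n1 := ndB0q2) (n2 := ndB4q3) (pc := pcB1) (cut := cut_pp_213) (xt := Ext.none) (P1 := 0) (W1 := 536870912) (P2 := 0) (W2 := 1230186008) (P3 := 1045395039) (W3 := 1503240) (N0 := 3) (En := eng) (mo := mog) (C1 := cd0q2) (C2 := cd4q3) (C3 := pd1)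
    rfl k0_pp_213

noncomputable def f_pm_001 : ℕ → ℕ → ℕ → ℕ → Bool := onCell 0 536870912 536870912 536870912 1045395039 1503240
    (rowB 3 eng mog cd0q0 cd4q1 pd0 0 false true false .up 0 0 1 (qsf 0 536870912 536870912 536870912 0) ndB0q0 ndB4q1 pcB0 Cut.none Ext.none)

def k0_pm_001 : ∃ t, chk3 f_pm_001 t 1 1 1 = true :=
  ⟨(l 4), by decide +kernel⟩

theorem c_pm_001 : CertB 0 536870912 536870912 536870912 1045395039 1503240 3 eng mog cd0q0 cd4q1 pd0 false true false .up 0 0 1
    ndB0q0 ndB4q1 pcB0 Cut.none Ext.none :=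
  certB0 (fam := false) (s1 := true) (s2 := false) (a := 0) (b := 0) (c := 1) (cn := .up) (n1 := ndB0q0) (n2 := ndB4q1) (pc := pcB0) (cut := Cut.none) (xt := Ext.none) (P1 := 0) (W1 := 536870912) (P2 := 536870912) (W2 := 536870912) (P3 := 1045395039) (W3 := 1503240) (N0 := 3) (En := eng) (mo := mog) (C1 := cd0q0) (C2 := cd4q1) (C3 := pd0)
    rfl k0_pm_001

noncomputable def f_pm_011 : ℕ → ℕ → ℕ → ℕ → Bool := onCell 0 536870912 536870912 536870912 1045395039 1503240
    (rowB 3 eng mog cd0q0 cd4q1 pd1 0 false true false .pnn 0 1 1 (qsf 0 536870912 536870912 536870912 1) ndB0q0 ndB4q1 pcB1 Cut.none Ext.none)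

def k0_pm_011 : ∃ t, chk3 f_pm_011 t 1 1 1 = true :=
  ⟨(l 4), by decide +kernel⟩

theorem c_pm_011 : CertB 0 536870912 536870912 536870912 1045395039 1503240 3 eng mog cd0q0 cd4q1 pd1 false true false .pnn 0 1 1
    ndB0q0 ndB4q1 pcB1 Cut.none Ext.none :=
  certB0 (fam := false) (s1 := true) (s2 := false) (a := 0) (b := 1) (c := 1) (cn := .pnn) (n1 := ndB0q0) (n2 := ndB4q1) (pc := pcB1) (cut := Cut.none) (xt := Ext.none) (P1 := 0) (W1 := 536870912) (P2 := 536870912) (W2 := 536870912) (P3 := 1045395039) (W3 := 1503240) (N0 := 3) (En := eng) (mo := mog) (C1 := cd0q0) (C2 := cd4q1) (C3 := pd1)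
    rfl k0_pm_011

noncomputable def f_pm_012 : ℕ → ℕ → ℕ → ℕ → Bool := onCell 0 536870912 1073741824 536870912 1045395039 1503240
    (rowB 3 eng mog cd0q0 cd4q2 pd1 0 false true false .pnp 0 1 2 (qsf 0 536870912 1073741824 536870912 1) ndB0q0 ndB4q2 pcB1 Cut.none Ext.none)

def k0_pm_012 : ∃ t, chk3 f_pm_012 t 1 1 1 = true :=
  ⟨(a (b (l 4) (l 4)) (b (b (a (a (a (l 4) (b (b (l 16194448) (l 16120384)) (l 4))) (b (a (b (l 16149240) (l 16109352)) (l 16055688)) (a (b (l 16065344) (l 15955680)) (l 15961264)))) (a (b (a (l 15981552) (l 15933496)) (a (l 15915296) (l 15868728))) (b (l 15890048) (l 15824960)))) (a (a (l 4) (b (a (b (l 125323954455) (l 4)) (b (l 15924856) (a (l 15898504) (l 15872976)))) (a (l 4) (b (l 45329981175) (l 15758568))))) (a (b (a (l 15785048) (l 15804408)) (a (a (l 15792176) (l 15767664)) (l 15740800))) (b (l 15676336) (a (l 15710496) (l 15682936)))))) (b (a (b (a (l 4) (a (l 4) (b (l 15763552) (l 4)))) (l 4)) (a (b (a (b (l 15728352) (l 15656736)) (b (l 15692936) (l 15661528)))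 (a (b (a (b (l 15677736) (l 15662448)) (l 15653728)) (a (b (l 15631248) (l 15578656)) (b (l 15611928) (l 15563728)))) (b (l 15629272) (a (l 15554640) (l 15501056))))) (b (a (l 15605048) (b (l 15634640) (a (l 15530568) (b (l 15609296) (l 15590472))))) (b (a (b (l 15611392) (a (l 15582248) (l 15546256))) (b (a (b (l 15582272) (l 15536088)) (l 15533112)) (l 15526792))) (a (b (l 15530368) (l 15516120)) (l 15515336)))))) (a (l 4) (b (a (a (a (l 4) (b (l 15503072) (l 15470232))) (b (l 15506872) (l 15483536))) (a (l 15505376) (l 15477696))) (a (a (l 2) (l 15456456)) (a (l 15446472) (l 15427088)))))))), by decide +kernel⟩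

theorem c_pm_012 : CertB 0 536870912 1073741824 536870912 1045395039 1503240 3 eng mog cd0q0 cd4q2 pd1 false true false .pnp 0 1 2
    ndB0q0 ndB4q2 pcB1 Cut.none Ext.none :=
  certB0 (fam := false) (s1 := true) (s2 := false) (a := 0) (b := 1) (c := 2) (cn := .pnp) (n1 := ndB0q0) (n2 := ndB4q2) (pc := pcB1) (cut := Cut.none) (xt := Ext.none) (P1 := 0) (W1 := 536870912) (P2 := 1073741824) (W2 := 536870912) (P3 := 1045395039) (W3 := 1503240) (N0 := 3) (En := eng) (mo := mog) (C1 := cd0q0) (C2 := cd4q2) (C3 := pd1)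
    rfl k0_pm_012

noncomputable def f_pm_022 : ℕ → ℕ → ℕ → ℕ → Bool := onCell 1073741824 536870912 1073741824 536870912 1045395039 1503240
    (rowB 3 eng mog cd0q0 cd4q2 pd2 2 false true false .pp 0 2 2 (qsf 0 536870912 1073741824 536870912 2) ndB0q0 ndB4q2 pcB2 Cut.none Ext.none)

def k0_pm_022 : ∃ t, chk3 f_pm_022 t 1 1 1 = true :=
  ⟨(a (b (l 4) (b (l 4) (a (a (a (b (b (a (l 15570472) (l 4)) (a (l 15520448) (l 15530152))) (b (l 15462016) (l 15425256))) (b (a (b (l 4) (l 15529888)) (l 4)) (b (a (l 15476864) (l 15481312)) (l 15437408)))) (b (l 4) (a (b (l 15476704) (l 15426176)) (b (l 4) (l 15442704))))) (l 4)))) (l 4)), by decide +kernel⟩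

theorem c_pm_022 : CertB 0 536870912 1073741824 536870912 1045395039 1503240 3 eng mog cd0q0 cd4q2 pd2 false true false .pp 0 2 2
    ndB0q0 ndB4q2 pcB2 Cut.none Ext.none :=
  certB2 (fam := false) (s1 := true) (s2 := false) (a := 0) (b := 2) (c := 2) (cn := .pp) (n1 := ndB0q0) (n2 := ndB4q2) (pc := pcB2) (cut := Cut.none) (xt := Ext.none) (P1 := 0) (W1 := 536870912) (P2 := 1073741824) (W2 := 536870912) (P3 := 1045395039) (W3 := 1503240) (N0 := 3) (En := eng) (mo := mog) (C1 := cd0q0) (C2 := cd4q2) (C3 := pd2)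
    rfl (fun _ => rfl) k0_pm_022

noncomputable def f_pm_023 : ℕ → ℕ → ℕ → ℕ → Bool := onCell 0 536870912 0 1230186008 1045395039 1503240
    (rowB 3 eng mog cd0q0 cd4q3 pd2 0 false true false .up 0 2 3 (qsf 0 536870912 0 1230186008 2) ndB0q0 ndB4q3 pcB2 Cut.none Ext.none)

def k0_pm_023 : ∃ t, chk3 f_pm_023 t 1 1 1 = true :=
  ⟨(a (b (l 2) (l 4)) (a (b (l 2) (b (b (l 4) (l 4)) (l 4))) (b (b (a (l 2) (b (a (l 2) (l 13931688)) (l 14340216))) (a (b (a (l 2) (l 15260056)) (a (b (l 2) (l 15890936)) (l 15464784))) (b (a (l 14815320) (l 14402912)) (a (l 15048488) (l 14671136))))) (b (b (a (b (a (l 15911688) (l 15578384)) (a (l 15916776) (l 15622664))) (b (l 15014032) (a (l 15258928) (l 14946752)))) (a (b (a (l 15884608) (l 15635152)) (a (l 15821928) (l 15607224))) (b (a (l 15300552) (l 15024048)) (a (l 15309720) (l 15075784))))) (b (a (b (a (l 4) (l 15407824)) (a (l 4) (b (l 15449008) (l 15373576)))) (b (a (l 15280904) (l 15097744)) (a (b (l 15232800) (l 15184632)) (b (l 15092608) (l 15080152)))))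 (a (b (a (l 4) (b (l 15282224) (l 15180352))) (b (a (l 4) (l 14982944)) (a (a (l 4) (l 15043928)) (a (l 14967352) (l 14926528))))) (b (a (b (l 15128208) (l 15062856)) (b (l 15061264) (l 15037536))) (b (a (l 14990720) (a (l 14992040) (b (l 15029472) (l 15015520)))) (a (a (l 14906920) (b (l 14930648) (l 14883856))) (a (b (l 14946560) (l 14910360)) (b (l 14988768) (l 14963016)))))))))))), by decide +kernel⟩

theorem c_pm_023 : CertB 0 536870912 0 1230186008 1045395039 1503240 3 eng mog cd0q0 cd4q3 pd2 false true false .up 0 2 3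
    ndB0q0 ndB4q3 pcB2 Cut.none Ext.none :=
  certB0 (fam := false) (s1 := true) (s2 := false) (a := 0) (b := 2) (c := 3) (cn := .up) (n1 := ndB0q0) (n2 := ndB4q3) (pc := pcB2) (cut := Cut.none) (xt := Ext.none) (P1 := 0) (W1 := 536870912) (P2 := 0) (W2 := 1230186008) (P3 := 1045395039) (W3 := 1503240) (N0 := 3) (En := eng) (mo := mog) (C1 := cd0q0) (C2 := cd4q3) (C3 := pd2)
    rfl k0_pm_023

noncomputable def f_pm_033 : ℕ → ℕ → ℕ → ℕ → Bool := onCell 1610612736 536870912 0 1230186008 1045395039 1503240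
    (rowB 3 eng mog cd0q0 cd4q3 pd3 2 false true false .pnn 0 3 3 (qsf 0 536870912 0 1230186008 3) ndB0q0 ndB4q3 pcB3 Cut.none Ext.none)

def k0_pm_033 : ∃ t, chk3 f_pm_033 t 1 1 1 = true :=
  ⟨(a (b (a (b (a (l 16181528) (l 16114584)) (a (l 15975336) (l 16002616))) (b (a (l 16074608) (l 4)) (l 4))) (b (a (b (a (l 15892784) (l 4)) (l 4)) (l 4)) (l 4))) (b (l 4) (l 4))), by decide +kernel⟩

theorem c_pm_033 : CertB 0 536870912 0 1230186008 1045395039 1503240 3 eng mog cd0q0 cd4q3 pd3 false true false .pnn 0 3 3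
    ndB0q0 ndB4q3 pcB3 Cut.none Ext.none :=
  certB2 (fam := false) (s1 := true) (s2 := false) (a := 0) (b := 3) (c := 3) (cn := .pnn) (n1 := ndB0q0) (n2 := ndB4q3) (pc := pcB3) (cut := Cut.none) (xt := Ext.none) (P1 := 0) (W1 := 536870912) (P2 := 0) (W2 := 1230186008) (P3 := 1045395039) (W3 := 1503240) (N0 := 3) (En := eng) (mo := mog) (C1 := cd0q0) (C2 := cd4q3) (C3 := pd3)
    rfl (fun _ => rfl) k0_pm_033

noncomputable def f_pm_101 : ℕ → ℕ → ℕ → ℕ → Bool := onCell 536870912 536870912 536870912 536870912 1045395039 1503240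
    (rowB 3 eng mog cd0q1 cd4q1 pd0 0 false true false .npn 1 0 1 (qsf 536870912 536870912 536870912 536870912 0) ndB0q1 ndB4q1 pcB0 Cut.none Ext.none)

def k0_pm_101 : ∃ t, chk3 f_pm_101 t 1 1 1 = true :=
  ⟨(l 4), by decide +kernel⟩

theorem c_pm_101 : CertB 536870912 536870912 536870912 536870912 1045395039 1503240 3 eng mog cd0q1 cd4q1 pd0 false true false .npn 1 0 1
    ndB0q1 ndB4q1 pcB0 Cut.none Ext.none :=
  certB0 (fam := false) (s1 := true) (s2 := false) (a := 1) (b := 0) (c := 1) (cn := .npn) (n1 := ndB0q1) (n2 := ndB4q1) (pc := pcB0) (cut := Cut.none) (xt := Ext.none) (P1 := 536870912) (W1 := 536870912) (P2 := 536870912) (W2 := 536870912) (P3 := 1045395039) (W3 := 1503240) (N0 := 3) (En := eng) (mo := mog) (C1 := cd0q1) (C2 := cd4q1) (C3 := pd0)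
    rfl k0_pm_101

noncomputable def f_pm_102 : ℕ → ℕ → ℕ → ℕ → Bool := onCell 536870912 536870912 1073741824 536870912 1045395039 1503240
    (rowB 3 eng mog cd0q1 cd4q2 pd0 0 false true false .npp 1 0 2 (qsf 536870912 536870912 1073741824 536870912 0) ndB0q1 ndB4q2 pcB0 Cut.none Ext.none)

def k0_pm_102 : ∃ t, chk3 f_pm_102 t 2 2 1 = true :=
  ⟨(b (a (a (b (a (l 15651480) (l 15512520)) (a (l 2) (l 75796169207))) (b (a (l 15383536) (l 15284472)) (a (l 85459469847) (b (l 15095696) (l 14983152))))) (b (a (b (l 15274848) (l 15103976)) (b (l 15261360) (l 15046240))) (a (b (l 14878912) (a (l 14845248) (l 14738448))) (b (l 14774112) (a (l 14661504) (l 14613056)))))) (a (b (a (l 2) (a (l 2) (b (l 14880136) (l 2)))) (l 2)) (a (b (b (a (l 14713368) (l 14579152)) (a (b (l 14619104) (l 2)) (b (a (b (l 14517224) (a (l 14486728) (l 14256808))) (b (a (l 14448496) (l 14390512)) (a (l 14326568) (l 14194736)))) (a (a (l 2) (l 14126400)) (l 13923736))))) (a (l 2) (b (b (a (l 2) (l 13405576)) (l 2)) (l 2))))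 (b (a (b (b (a (l 14542688) (l 14496464)) (a (b (l 14476440) (a (l 14427360) (l 14373936))) (b (a (l 14422464) (l 14374952)) (l 14239096)))) (b (a (b (l 14244424) (l 14014488)) (l 13906624)) (a (l 13673520) (l 13446904)))) (b (b (a (b (l 14494008) (a (l 14433128) (l 14393008))) (b (l 14435880) (l 14279528))) (a (l 14118968) (l 13975640))) (b (a (l 13710904) (l 13537792)) (a (l 13243832) (b (l 13185112) (a (l 12982304) (l 12897200))))))) (b (a (b (a (l 13187592) (b (l 13078216) (b (l 12886424) (a (l 12812192) (l 12819408))))) (a (b (b (l 76328225911) (l 2)) (l 2)) (b (a (b (l 12752648) (l 12745256)) (l 12747168)) (l 12761888)))) (b (a (a (b (l 12915192) (b (b (l 12771208) (l 12750896)) (l 12746616))) (b (l 12812120) (l 12757680))) (b (b (a (l 12808872) (l 12795912)) (l 12784192)) (l 12783784))) (l 12781320))) (a (a (l 2) (l 12817552)) (a (l 12821808) (l 12837256)))))))), by decide +kernel⟩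

def k1_pm_102 : ∃ t, chk3 f_pm_102 t 2 3 1 = true :=
  ⟨(a (l 2) (b (a (l 2) (b (a (l 2) (b (a (l 2) (l 12923048)) (l 2))) (l 2))) (l 2))), by decide +kernel⟩

def k2_pm_102 : ∃ t, chk3 f_pm_102 t 6 2 1 = true :=
  ⟨(b (b (a (b (l 15335200) (l 15084568)) (b (l 15392112) (l 15119264))) (a (b (l 14731056) (a (b (l 14649680) (a (b (l 14565320) (l 14479912)) (b (l 14536680) (l 14402768)))) (b (a (l 14634704) (b (l 14683936) (l 14575808))) (a (l 14395976) (l 14315448))))) (a (b (b (l 14962840) (a (l 14804848) (l 14817992))) (b (a (l 14598952) (l 14557376)) (l 14234360))) (b (b (a (l 15011864) (l 15040320)) (a (l 14828552) (l 14825640))) (b (l 14530112) (l 14192936)))))) (a (b (b (a (b (a (l 14236152) (l 14116688)) (a (l 13830056) (l 13706008))) (b (l 13974576) (l 13497280))) (a (b (a (l 13387184) (l 13258968)) (a (b (l 13023528) (b (a (l 12881768) (l 12859256)) (l 12838576))) (b (a (b (l 12990312) (l 12900640)) (b (l 12949232) (l 12912584))) (l 12888600)))) (b (a (b (l 13268296) (l 13059112))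 (b (l 13191032) (l 13085904))) (a (l 12974800) (l 13046280))))) (a (b (a (l 12829032) (l 12880976)) (a (l 12863592) (l 12900496))) (b (a (l 12942616) (l 13013560)) (a (l 12947616) (l 13004608))))) (b (a (b (b (l 13855936) (a (l 13452312) (b (l 13529464) (l 13363504)))) (a (b (l 13201872) (l 13136424)) (l 13257064))) (b (b (a (l 13819528) (l 13817584)) (a (l 13503232) (l 13596944))) (l 13422624))) (a (b (l 13115392) (a (l 13071088) (l 13146664))) (b (l 13328800) (l 13255152)))))), by decide +kernel⟩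

def k3_pm_102 : ∃ t, chk3 f_pm_102 t 7 2 1 = true :=
  ⟨(b (a (b (b (a (l 15604424) (l 15652576)) (a (b (l 15407272) (l 15258192)) (b (l 15511776) (l 15356112)))) (a (b (b (a (l 15075064) (l 15108480)) (l 14846672)) (b (l 14556088) (l 14226632))) (b (a (l 15029544) (l 15082944)) (b (l 14650288) (a (l 14304160) (l 14404360)))))) (b (a (b (b (l 15694320) (l 15773072)) (b (a (l 15601088) (l 15666792)) (a (l 15443736) (l 15517944)))) (b (a (b (a (l 15929600) (l 16008416)) (l 15877424)) (b (a (b (l 16096536) (l 16022696)) (l 16079600)) (b (l 15958992) (a (l 15873920) (l 15895024))))) (a (b (a (l 15714560) (l 15747016)) (l 15602712)) (b (a (l 15774928) (l 15806528)) (l 15681848))))) (a (b (b (l 15298992) (l 15078448)) (b (a (l 14763632) (l 14877232)) (a (l 14531592) (l 14680344)))) (b (a (a (l 15313192) (l 15365992)) (b (l 15531696) (l 15339744))) (a (b (a (l 14970376) (l 15037616)) (l 14834536)) (b (l 15134080) (l 14967584))))))) (a (b (b (a (b (a (l 13875072) (l 13972944)) (l 13784152)) (a (l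 14050504) (l 14185688))) (a (l 13665848) (l 13990392))) (a (b (l 13549952) (l 13476416)) (b (l 13792968) (l 13702272)))) (a (b (b (a (l 14333048) (l 14482632)) (a (l 14135320) (l 14277240))) (b (a (l 13989368) (a (l 14091176) (l 14172096))) (a (b (l 13910120) (l 13860152)) (b (l 14052072) (l 13995096))))) (b (b (a (a (l 14592912) (l 14664440)) (l 14716720)) (a (l 14419816) (b (l 14591136) (a (l 14476872) (l 14539320))))) (b (a (a (b (l 14261536) (l 14183776)) (b (l 14318680) (l 14281224))) (b (a (l 14400856) (l 14492936)) (l 14419672))) (a (a (l 14165336) (l 14256888)) (l 14388144))))))), by decide +kernel⟩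

def k4_pm_102 : ∃ t, chk3 f_pm_102 t 6 3 1 = true :=
  ⟨(b (a (b (a (a (b (l 12934056) (l 2)) (b (l 12956144) (l 13045472))) (a (b (l 12989000) (l 13064224)) (b (l 13032304) (l 13094016)))) (a (l 2) (a (l 2) (b (l 13187264) (l 2))))) (b (a (b (a (l 13085720) (l 13148896)) (a (l 13134552) (l 13185528))) (b (a (l 13221464) (l 13303032)) (a (l 13246624) (l 13317488)))) (a (a (b (l 13215040) (l 2)) (b (l 13253928) (l 13351560))) (b (a (l 13303656) (l 13363928)) (a (l 13389968) (b (l 13418264) (a (l 13450152) (l 13479872)))))))) (a (l 2) (b (a (l 2) (a (l 2) (a (l 2) (a (l 2) (l 13632632))))) (l 2)))), by decide +kernel⟩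

def k5_pm_102 : ∃ t, chk3 f_pm_102 t 7 3 1 = true :=
  ⟨(a (b (b (a (b (l 13420392) (b (l 13438744) (l 13430632))) (b (a (l 13596792) (b (l 13726032) (a (l 13680840) (l 13733392)))) (a (b (a (l 13558936) (l 13616744)) (a (l 13565592) (l 13621536))) (b (l 13700824) (l 13724136))))) (a (b (b (a (l 13422560) (a (l 13490016) (l 13528584))) (a (a (l 13430408) (l 13473184)) (a (l 13506432) (l 13561984)))) (a (b (a (l 13469552) (l 13499328)) (l 13524872)) (l 13594664))) (b (a (l 13630416) (l 13755368)) (a (l 13697576) (l 13814168))))) (b (a (b (a (l 13611032) (l 13689576)) (l 168134900775)) (a (b (l 13782984) (l 13885096)) (l 13934872))) (a (l 2) (a (l 2) (l 14149088))))) (b (a (b (b (a (b (l 13824672) (l 13851464)) (l 14016328)) (a (l 13862184) (l 14022784))) (b (l 13970888) (l 14018320))) (b (a (b (l 14194672) (l 14196256)) (b (l 14366056) (l 14363728))) (a (b (l 14216608) (l 14254048)) (b (l 14379264) (l 14410952))))) (a (b (a (l 14053520) (l 14188480)) (a (l 14248400) (l 14364704))) (b (a (b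 (l 14306968) (l 14373816)) (b (l 14457192) (l 14516440))) (a (l 14496784) (a (l 14600144) (b (l 14624920) (l 14669312)))))))), by decide +kernel⟩

theorem s6_pm_102 : ∃ t, chk3 f_pm_102 t 3 3 1 = true := ex3_a k4_pm_102 k5_pm_102

theorem s7_pm_102 : ∃ t, chk3 f_pm_102 t 3 2 1 = true := ex3_a k2_pm_102 k3_pm_102

theorem s8_pm_102 : ∃ t, chk3 f_pm_102 t 3 1 1 = true := ex3_b s7_pm_102 s6_pm_102

theorem s9_pm_102 : ∃ t, chk3 f_pm_102 t 2 1 1 = true := ex3_b k0_pm_102 k1_pm_102

theorem s10_pm_102 : ∃ t, chk3 f_pm_102 t 1 1 1 = true := ex3_a s9_pm_102 s8_pm_102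

theorem c_pm_102 : CertB 536870912 536870912 1073741824 536870912 1045395039 1503240 3 eng mog cd0q1 cd4q2 pd0 false true false .npp 1 0 2
    ndB0q1 ndB4q2 pcB0 Cut.none Ext.none :=
  certB0 (fam := false) (s1 := true) (s2 := false) (a := 1) (b := 0) (c := 2) (cn := .npp) (n1 := ndB0q1) (n2 := ndB4q2) (pc := pcB0) (cut := Cut.none) (xt := Ext.none) (P1 := 536870912) (W1 := 536870912) (P2 := 1073741824) (W2 := 536870912) (P3 := 1045395039) (W3 := 1503240) (N0 := 3) (En := eng) (mo := mog) (C1 := cd0q1) (C2 := cd4q2) (C3 := pd0)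
    rfl s10_pm_102

noncomputable def f_pm_112 : ℕ → ℕ → ℕ → ℕ → Bool := onCell 536870912 536870912 1073741824 536870912 1045395039 1503240
    (rowB 3 eng mog cd0q1 cd4q2 pd1 0 false true false .dn 1 1 2 (qsf 536870912 536870912 1073741824 536870912 1) ndB0q1 ndB4q2 pcB1 Cut.none Ext.none)

def k0_pm_112 : ∃ t, chk3 f_pm_112 t 2 1 1 = true :=
  ⟨(b (b (a (a (b (l 15845064) (l 15778824)) (b (l 15817296) (l 15748920))) (a (b (l 1) (l 15737152)) (l 1))) (a (b (a (l 15712728) (l 15680392)) (a (a (l 15658248) (b (l 15653208) (b (l 15628320) (a (l 15617720) (l 15609048))))) (a (b (a (l 15639816) (l 15633464)) (b (l 15613720) (l 15582000))) (b (b (l 15632984) (l 15610184)) (b (l 15539656) (l 15471104)))))) (a (b (b (l 15668128) (a (l 15633184) (l 15545560))) (a (b (b (l 15568352) (l 15497728)) (b (l 15431992) (l 15406856))) (b (b (l 15452384) (l 15387992)) (b (l 15362168) (l 15375080))))) (b (a (b (l 1) (l 15437184)) (l 1)) (b (a (l 15331720) (b (l 1) (l 15263008))) (l 15318720)))))) (a (b (a (b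 (a (b (a (b (l 15623416) (l 15608792)) (b (l 15612768) (l 15599288))) (b (a (l 15596184) (l 15545472)) (l 15530696))) (b (a (b (l 15603496) (l 15567848)) (b (l 15588760) (l 15513088))) (b (a (l 15505312) (l 15485672)) (l 15495056)))) (a (b (a (l 15533200) (l 15510024)) (l 15502552)) (l 15496584))) (b (b (a (b (l 15506904) (a (l 15479048) (l 15461968))) (b (l 15444248) (l 15451600))) (l 15480608)) (l 15472056))) (a (b (l 15383320) (a (l 15415072) (l 15411816))) (b (l 15434392) (l 15384560)))) (b (a (b (a (l 15446104) (l 15429448)) (l 15473512)) (b (l 15396672) (l 15426128))) (a (b (l 15424784) (a (l 15468808) (l 15515312))) (b (a (l 15526816) (l 15587056)) (a (l 15578376) (l 15659648))))))), by decide +kernel⟩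

def k1_pm_112 : ∃ t, chk3 f_pm_112 t 3 1 1 = true :=
  ⟨(b (a (a (b (l 1) (b (l 1) (b (l 1) (l 15242376)))) (l 1)) (l 1)) (a (b (a (b (a (l 15356984) (l 15324520)) (a (l 15492776) (l 15476904))) (b (a (l 15286752) (l 1)) (a (l 15456928) (b (l 15382488) (l 15487272))))) (a (b (a (l 15636288) (l 15639048)) (a (l 15760240) (b (l 15764488) (l 15849832)))) (b (a (b (l 15593168) (l 15689480)) (b (l 15561464) (l 15615768))) (a (b (l 15750432) (l 15790752)) (l 15674432))))) (a (b (b (l 1) (a (b (l 1) (l 15401792)) (l 1))) (b (a (l 15489384) (l 15375408)) (a (l 15564168) (l 15453920)))) (b (l 1) (a (b (l 15270080) (l 15352032)) (b (l 1) (a (l 15284144) (l 15214736)))))))), by decide +kernel⟩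

theorem s2_pm_112 : ∃ t, chk3 f_pm_112 t 1 1 1 = true := ex3_a k0_pm_112 k1_pm_112

theorem c_pm_112 : CertB 536870912 536870912 1073741824 536870912 1045395039 1503240 3 eng mog cd0q1 cd4q2 pd1 false true false .dn 1 1 2
    ndB0q1 ndB4q2 pcB1 Cut.none Ext.none :=
  certB0 (fam := false) (s1 := true) (s2 := false) (a := 1) (b := 1) (c := 2) (cn := .dn) (n1 := ndB0q1) (n2 := ndB4q2) (pc := pcB1) (cut := Cut.none) (xt := Ext.none) (P1 := 536870912) (W1 := 536870912) (P2 := 1073741824) (W2 := 536870912) (P3 := 1045395039) (W3 := 1503240) (N0 := 3) (En := eng) (mo := mog) (C1 := cd0q1) (C2 := cd4q2) (C3 := pd1)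
    rfl s2_pm_112

noncomputable def cut_pm_113 : Cut := Cut.of [[⟨0, 1, 0, 14155776⟩, ⟨1, 1, 0, 14155776⟩, ⟨2, 2, 0, 524288⟩]]

noncomputable def xt_pm_113 : Ext := extD3 3 ⟨4, 1, 1, 5, 33, 5, 163, 200, 81, 200, 1, 64⟩ eng cd0q1 cd4q3 pd1 false true false .nn 1 1 3 rfl ndB0q1 ndB4q3 pcB1

noncomputable def f_pm_113 : ℕ → ℕ → ℕ → ℕ → Bool := onCell 536870912 536870912 0 1230186008 1045395039 1503240
    (rowB 3 eng mog cd0q1 cd4q3 pd1 0 false true false .nn 1 1 3 (qsf 536870912 536870912 0 1230186008 1) ndB0q1 ndB4q3 pcB1 cut_pm_113 xt_pm_113)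

def k0_pm_113 : ∃ t, chk3 f_pm_113 t 2 1 1 = true :=
  ⟨(b (l 2) (b (a (l 2) (b (l 2) (a (l 2) (b (l 2) (a (l 2) (b (l 2) (l 15632568))))))) (a (b (l 2) (a (b (l 2) (a (l 14650832) (l 14837768))) (b (a (l 14880832) (l 15089288)) (a (l 15015136) (l 15184288))))) (b (a (b (a (l 2) (l 15313976)) (a (l 15187480) (l 15413472))) (b (a (l 15568360) (b (l 15698168) (l 15751064))) (a (l 15625120) (b (a (l 15774968) (l 15824648)) (l 15826216))))) (a (b (a (l 15285712) (l 15472136)) (a (l 15351616) (l 15516776))) (b (a (l 15655952) (b (l 15838440) (l 15838544))) (a (l 15679048) (l 15837440)))))))), by decide +kernel⟩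

def k1_pm_113 : ∃ t, chk3 f_pm_113 t 6 1 1 = true :=
  ⟨(b (l 2) (b (b (a (l 2) (b (a (l 2) (l 15262880)) (a (l 15345312) (l 15339976)))) (a (b (a (l 15460568) (l 15457680)) (a (l 15591456) (l 15575360))) (b (a (l 15446600) (l 15428200)) (a (l 15554376) (l 15536096))))) (b (a (b (a (l 15718976) (l 15697296)) (a (b (l 15815848) (l 15882216)) (l 15829936))) (b (a (l 15677968) (l 15660408)) (a (l 15811304) (l 15794304)))) (a (b (a (b (l 15936728) (a (l 15967112) (l 16002064))) (l 15964192)) (a (b (l 15998640) (l 15984144)) (b (l 16050584) (a (l 16084304) (l 16101496))))) (b (a (l 15945368) (l 15928576)) (a (l 16068304) (l 16050936))))))), by decide +kernel⟩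

def k2_pm_113 : ∃ t, chk3 f_pm_113 t 7 2 1 = true :=
  ⟨(b (a (l 2) (a (l 2) (b (a (l 2) (a (l 2) (b (a (l 2) (b (l 6) (l 16764936))) (b (a (l 2) (l 16766232)) (l 16753672))))) (a (b (l 2) (a (l 16586176) (a (l 16625256) (l 16654376)))) (b (a (l 16672536) (b (l 16755504) (a (l 16742400) (l 16775112)))) (a (b (l 16675488) (l 16667816)) (a (l 141332427095081039) (b (l 16780752) (l 16794480))))))))) (a (b (a (l 2) (a (l 2) (l 15464560))) (a (l 15181056) (a (l 15215328) (b (b (l 15326288) (l 15295328)) (b (l 15272928) (l 15261552)))))) (b (a (b (a (l 2) (b (l 16109208) (l 15900960))) (a (a (l 15500696) (l 15572856)) (b (l 15740568) (l 15615680)))) (a (b (a (l 138760805684494351) (l 138849110371582031)) (a (b (l 15833608) (l 15679144)) (l 15777840))) (b (a (b (l 16455384) (l 16122088)) (l 16259896)) (a (l 15784520) (l 15770936))))) (a (b (a (b (l 15428824) (l 15375776)) (b (a (l 15500184) (l 15536024)) (l 15444336))) (l 15348704)) (a (b (l 132948373622587407) (l 15396768)) (b (a (l 15525448)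 (l 15512592)) (l 15385600))))))), by decide +kernel⟩

def k3_pm_113 : ∃ t, chk3 f_pm_113 t 7 3 1 = true :=
  ⟨(b (b (a (a (l 15275968) (b (l 15265136) (l 15314000))) (a (b (l 15313752) (l 15331888)) (a (b (l 15344000) (l 15344528)) (b (l 15327520) (l 15322048))))) (a (a (b (l 15411832) (l 15519000)) (b (l 15393488) (l 15499704))) (a (b (l 15390944) (l 15486256)) (a (b (l 15387864) (l 15468312)) (b (l 15356944) (l 15426096)))))) (a (b (a (b (l 15643744) (l 15778792)) (b (l 15625960) (l 15763800))) (b (a (l 15914304) (l 15902128)) (a (l 16037080) (l 16026488)))) (b (a (b (l 15611160) (l 15734736)) (b (a (l 15583016) (l 15526736)) (a (l 15729448) (l 15657528)))) (a (b (l 15901552) (l 16028624)) (b (a (l 15682232) (l 15816480)) (a (b (l 16008616) (l 16068608)) (b (l 15948608) (l 16032408)))))))), by decide +kernel⟩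

theorem s4_pm_113 : ∃ t, chk3 f_pm_113 t 7 1 1 = true := ex3_b k2_pm_113 k3_pm_113

theorem s5_pm_113 : ∃ t, chk3 f_pm_113 t 3 1 1 = true := ex3_a k1_pm_113 s4_pm_113

theorem s6_pm_113 : ∃ t, chk3 f_pm_113 t 1 1 1 = true := ex3_a k0_pm_113 s5_pm_113

theorem c_pm_113 : CertB 536870912 536870912 0 1230186008 1045395039 1503240 3 eng mog cd0q1 cd4q3 pd1 false true false .nn 1 1 3
    ndB0q1 ndB4q3 pcB1 cut_pm_113 xt_pm_113 :=
  certB0 (fam := false) (s1 := true) (s2 := false) (a := 1) (b := 1) (c := 3) (cn := .nn) (n1 := ndB0q1) (n2 := ndB4q3) (pc := pcB1) (cut := cut_pm_113) (xt := xt_pm_113) (P1 := 536870912) (W1 := 536870912) (P2 := 0) (W2 := 1230186008) (P3 := 1045395039) (W3 := 1503240) (N0 := 3) (En := eng) (mo := mog) (C1 := cd0q1) (C2 := cd4q3) (C3 := pd1)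
    rfl s6_pm_113

noncomputable def cut_pm_123 : Cut := Cut.of [[⟨0, 1, 0, 14155776⟩, ⟨1, 1, 0, 14155776⟩, ⟨2, 2, 0, 524288⟩]]

noncomputable def xt_pm_123 : Ext := extD3 3 ⟨4, 1, 1, 5, 33, 5, 163, 200, 81, 200, 1, 64⟩ eng cd0q1 cd4q3 pd2 false true false .npn 1 2 3 rfl ndB0q1 ndB4q3 pcB2

noncomputable def f_pm_123 : ℕ → ℕ → ℕ → ℕ → Bool := onCell 1073741824 536870912 0 1230186008 1045395039 1503240
    (rowB 3 eng mog cd0q1 cd4q3 pd2 2 false true false .npn 1 2 3 (qsf 536870912 536870912 0 1230186008 2) ndB0q1 ndB4q3 pcB2 cut_pm_123 xt_pm_123)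

def k0_pm_123 : ∃ t, chk3 f_pm_123 t 1 2 1 = true :=
  ⟨(b (a (a (a (a (b (a (a (b (a (b (l 6) (l 143191770040385615)) (l 142870712596250703)) (b (l 142250931577503823) (l 142301302898802767))) (b (a (l 16721200) (l 142216090876395599)) (b (a (l 16705824) (l 16773464)) (l 16757240)))) (b (a (b (l 16749456) (l 16772736)) (l 16726200)) (l 16684760))) (a (b (a (b (l 16725504) (l 16688488)) (b (l 16697640) (l 16630288))) (a (b (l 16575336) (l 16454288)) (l 16367504))) (b (l 16565096) (l 16207832)))) (b (b (l 16568848) (a (l 16555368) (l 16419968))) (b (a (l 16428160) (l 16288264)) (a (l 16120920) (l 16071136))))) (b (a (a (l 16320480) (l 16185000)) (l 16044064)) (a (b (l 16141824) (l 16016960)) (l 15963064)))) (a (b (l 15817960) (a (l 15815176) (l 15641744))) (b (l 15473240) (l 15351000)))) (a (a (b (l 15085648) (l 14929832)) (b (l 14685480) (l 14504232))) (a (l 14195392) (b (l 13972888) (a (l 13904016) (l 13973296)))))) (a (a (a (b (a (b (a (b (l 16002304) (l 15779048)) (l 15886224)) (a (l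 15620336) (l 15698728))) (b (l 15899688) (l 15766256))) (a (b (a (b (l 15551296) (l 15543824)) (l 15628808)) (a (b (l 15559592) (l 15594808)) (l 15634728))) (b (l 15687504) (a (l 15660504) (l 15657144))))) (b (a (b (l 15878088) (l 15756912)) (l 15720744)) (a (b (l 15665352) (l 15608536)) (b (l 15563960) (l 15483624))))) (a (b (a (l 15580544) (l 15405960)) (a (l 15335592) (l 15161640))) (b (l 15106512) (a (l 14945488) (l 14716688))))) (a (b (a (l 14669768) (l 14229896)) (a (a (l 14481808) (l 14277568)) (b (a (l 14108584) (l 13987736)) (a (l 14090224) (l 14211392))))) (a (b (a (l 13989808) (b (l 13877944) (l 14006664))) (a (l 14262984) (l 14583000))) (b (a (l 14163944) (l 14561224)) (a (l 14948384) (l 1))))))), by decide +kernel⟩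

def k1_pm_123 : ∃ t, chk3 f_pm_123 t 1 6 1 = true :=
  ⟨(a (a (a (b (a (b (a (b (l 15646272) (l 15711408)) (l 15826480)) (a (b (l 15788128) (a (l 15878048) (l 15870112))) (b (l 15781496) (l 15847552)))) (b (a (l 15695920) (l 15667016)) (a (l 15774104) (l 15715704)))) (b (a (b (a (a (l 15978712) (l 15959784)) (l 15922088)) (a (b (l 16045920) (l 16077768)) (l 16004096))) (b (l 15858768) (a (l 15920208) (l 15822560)))) (a (a (b (a (b (l 16171528) (l 16229936)) (l 16160232)) (a (b (l 16289624) (l 16350504)) (l 16313800))) (b (l 16092704) (a (l 16215392) (l 16158504)))) (b (a (l 15990976) (l 15877440)) (a (l 16067808) (l 15938456)))))) (b (a (b (l 15586960) (l 15598568)) (b (l 15429184) (l 15401272))) (b (a (a (l 15695368) (l 15582976)) (l 15399080)) (a (b (l 15689120) (a (l 15790808) (l 15542960))) (a (b (l 15479992) (l 15451584)) (l 15304864)))))) (a (b (a (b (l 15230616) (l 15171048)) (l 14791864)) (a (b (l 15131024) (a (l 15160224) (l 15039536))) (b (l 14835320) (l 14915640)))) (b (b (l 14389024)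 (a (l 14676216) (l 14426880))) (a (b (l 14706384) (l 14850152)) (b (l 14666912) (l 14888272)))))) (a (a (b (b (a (l 14320248) (l 14243688)) (l 14385688)) (b (a (l 14727664) (l 14879672)) (a (l 15018920) (l 15230656)))) (b (a (l 14401040) (l 14783704)) (b (a (l 15110976) (l 1)) (l 1)))) (a (b (a (l 15087504) (l 1)) (l 1)) (l 1)))), by decide +kernel⟩

def k2_pm_123 : ∃ t, chk3 f_pm_123 t 8 28 1 = true :=
  ⟨(a (b (a (a (b (a (l 16426664) (l 16398264)) (a (l 16511960) (l 16460056))) (b (l 16354280) (l 16412368))) (a (l 16319704) (l 16253680))) (a (b (a (a (b (l 16539880) (l 16572760)) (l 16522856)) (l 16471512)) (a (b (a (l 16626840) (a (l 16579472) (l 16560392))) (a (b (a (l 16639816) (b (l 16617728) (a (l 16629760) (b (l 16618984) (l 16618672))))) (a (b (a (b (l 16654872) (b (l 16657728) (a (l 16661896) (l 16655016)))) (a (b (l 16647944) (b (l 16648992) (l 16645168))) (b (l 16642208) (l 16637256)))) (a (a (b (b (l 16671408) (l 16656376)) (l 16649384)) (l 16643808)) (l 16628520))) (a (b (b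 (b (l 16632360) (l 16628896)) (l 16621992)) (l 16608256)) (l 16597224)))) (b (a (b (a (l 16604120) (l 16592864)) (a (b (l 16606576) (l 16599712)) (l 16584088))) (b (a (l 16579448) (l 16562104)) (l 16554152))) (l 16547360)))) (b (a (b (l 16526928) (a (b (l 16546976) (l 16546696)) (b (l 16522720) (l 16510088)))) (b (a (l 16495784) (l 16469624)) (l 16460328))) (a (l 16486624) (l 16410288))))) (b (a (b (l 16387312) (a (b (l 16425928) (l 16432544)) (b (l 16384368) (l 16373560)))) (b (a (l 16330232) (l 16283872)) (l 16237504))) (a (b (l 16280224) (l 16300080)) (l 16190400))))) (b (a (b (l 16129136) (a (l 16178952) (b (l 16118928) (l 16107616)))) (b (a (l 16020112) (l 15934424)) (a (l 16001360) (l 15878184)))) (a (a (b (a (l 16201856) (l 16132568)) (l 16058320)) (l 15984640)) (l 15767016)))), by decide +kernel⟩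

def k3_pm_123 : ∃ t, chk3 f_pm_123 t 8 29 1 = true :=
  ⟨(a (b (a (a (b (a (b (a (b (l 16631904) (l 16573960)) (l 16552664)) (a (l 16518688) (l 16480072))) (b (l 16494040) (l 16423216))) (b (a (l 16426504) (l 16352752)) (l 16297152))) (b (a (l 16320688) (l 16310800)) (l 16150256))) (b (a (l 16205936) (l 16074080)) (a (l 16081608) (l 15959280)))) (a (b (a (b (l 16247240) (l 16176760)) (l 16080912)) (a (l 16071984) (l 15950352))) (a (l 15751688) (l 15790480)))) (a (b (a (l 15898920) (l 15789640)) (l 15456640)) (b (l 15640320) (l 15478184)))), by decide +kernel⟩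

def k4_pm_123 : ∃ t, chk3 f_pm_123 t 8 15 1 = true :=
  ⟨(a (b (b (a (b (a (l 15933720) (l 15821648)) (l 15745232)) (b (l 15670936) (l 15558616))) (a (b (l 15615928) (l 15489008)) (l 15394912))) (b (a (b (l 15364688) (l 15243216)) (l 15184712)) (a (l 15067896) (l 14986248)))) (b (b (a (l 15454800) (l 15323352)) (a (l 15272600) (l 15176776))) (b (a (l 15100136) (l 15039712)) (a (l 14939096) (l 1))))), by decide +kernel⟩

def k5_pm_123 : ∃ t, chk3 f_pm_123 t 9 7 1 = true :=
  ⟨(b (b (a (a (b (a (l 15801512) (l 15690160)) (l 15603664)) (b (l 15539744) (l 15430648))) (a (l 15327672) (l 15201192))) (a (a (a (l 15398008) (l 15370048)) (l 15153328)) (b (l 15170936) (l 15119096)))) (b (a (b (l 15177016) (l 15079848)) (b (l 15074112) (l 15036704))) (a (b (l 14991824) (l 1)) (l 1)))), by decide +kernel⟩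

def k6_pm_123 : ∃ t, chk3 f_pm_123 t 5 7 1 = true :=
  ⟨(b (a (b (a (l 15067096) (l 14987200)) (a (b (l 15059752) (l 15062536)) (l 15080568))) (b (a (l 15012064) (l 15129664)) (l 1))) (a (b (a (b (l 15071760) (l 1)) (l 1)) (l 1)) (l 1))), by decide +kernel⟩

def k7_pm_123 : ∃ t, chk3 f_pm_123 t 3 7 1 = true :=
  ⟨(l 1), by decide +kernel⟩

theorem s8_pm_123 : ∃ t, chk3 f_pm_123 t 8 14 1 = true := ex3_b k2_pm_123 k3_pm_123

theorem s9_pm_123 : ∃ t, chk3 f_pm_123 t 8 7 1 = true := ex3_b s8_pm_123 k4_pm_123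

theorem s10_pm_123 : ∃ t, chk3 f_pm_123 t 4 7 1 = true := ex3_a s9_pm_123 k5_pm_123

theorem s11_pm_123 : ∃ t, chk3 f_pm_123 t 2 7 1 = true := ex3_a s10_pm_123 k6_pm_123

theorem s12_pm_123 : ∃ t, chk3 f_pm_123 t 1 7 1 = true := ex3_a s11_pm_123 k7_pm_123

theorem s13_pm_123 : ∃ t, chk3 f_pm_123 t 1 3 1 = true := ex3_b k1_pm_123 s12_pm_123

theorem s14_pm_123 : ∃ t, chk3 f_pm_123 t 1 1 1 = true := ex3_b k0_pm_123 s13_pm_123

theorem c_pm_123 : CertB 536870912 536870912 0 1230186008 1045395039 1503240 3 eng mog cd0q1 cd4q3 pd2 false true false .npn 1 2 3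
    ndB0q1 ndB4q3 pcB2 cut_pm_123 xt_pm_123 :=
  certB2 (fam := false) (s1 := true) (s2 := false) (a := 1) (b := 2) (c := 3) (cn := .npn) (n1 := ndB0q1) (n2 := ndB4q3) (pc := pcB2) (cut := cut_pm_123) (xt := xt_pm_123) (P1 := 536870912) (W1 := 536870912) (P2 := 0) (W2 := 1230186008) (P3 := 1045395039) (W3 := 1503240) (N0 := 3) (En := eng) (mo := mog) (C1 := cd0q1) (C2 := cd4q3) (C3 := pd2)
    rfl (fun _ => rfl) s14_pm_123

noncomputable def f_pm_133 : ℕ → ℕ → ℕ → ℕ → Bool := onCell 536870912 536870912 0 1230186008 1045395039 1503240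
    (rowB 3 eng mog cd0q1 cd4q3 pd3 0 false true false .dn 1 3 3 (qsf 536870912 536870912 0 1230186008 3) ndB0q1 ndB4q3 pcB3 Cut.none Ext.none)

def k0_pm_133 : ∃ t, chk3 f_pm_133 t 1 1 1 = true :=
  ⟨(b (b (a (a (a (l 16121968) (l 1)) (l 1)) (l 1)) (l 1)) (l 1)), by decide +kernel⟩

theorem c_pm_133 : CertB 536870912 536870912 0 1230186008 1045395039 1503240 3 eng mog cd0q1 cd4q3 pd3 false true false .dn 1 3 3
    ndB0q1 ndB4q3 pcB3 Cut.none Ext.none :=
  certB0 (fam := false) (s1 := true) (s2 := false) (a := 1) (b := 3) (c := 3) (cn := .dn) (n1 := ndB0q1) (n2 := ndB4q3) (pc := pcB3) (cut := Cut.none) (xt := Ext.none) (P1 := 536870912) (W1 := 536870912) (P2 := 0) (W2 := 1230186008) (P3 := 1045395039) (W3 := 1503240) (N0 := 3) (En := eng) (mo := mog) (C1 := cd0q1) (C2 := cd4q3) (C3 := pd3)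
    rfl k0_pm_133

noncomputable def f_pm_202 : ℕ → ℕ → ℕ → ℕ → Bool := onCell 0 536870912 0 536870912 1045395039 1503240
    (rowB 3 eng mog cd0q2 cd4q2 pd0 1 false true false .pp 2 0 2 (qsf 0 536870912 1073741824 536870912 0) ndB0q2 ndB4q2 pcB0 Cut.none Ext.none)

def k0_pm_202 : ∃ t, chk3 f_pm_202 t 2 1 1 = true :=
  ⟨(l 3), by decide +kernel⟩

def k1_pm_202 : ∃ t, chk3 f_pm_202 t 6 2 1 = true :=
  ⟨(a (l 3) (a (l 3) (a (b (b (b (b (b (b (l 16491184) (l 16466856)) (l 16428856)) (l 3)) (l 3)) (l 3)) (l 3)) (b (b (b (a (b (b (b (l 16502904) (l 16482064)) (b (l 16458416) (l 16429016))) (b (a (l 16391856) (l 16393416)) (l 16341568))) (b (b (l 16482400) (b (l 16458440) (l 16428392))) (b (b (a (l 16405448) (l 16395944)) (l 16377784)) (a (l 16346048) (l 16341656))))) (b (a (l 16269104) (b (l 16296944) (l 16253752))) (l 16181224))) (b (b (l 16102424) (l 16027240)) (b (l 15956368) (l 15888288)))) (b (b (l 15792344) (l 3)) (l 3)))))), by decide +kernel⟩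

def k2_pm_202 : ∃ t, chk3 f_pm_202 t 14 4 1 = true :=
  ⟨(a (b (b (b (b (b (a (l 16473656) (l 16434416)) (a (l 16447384) (l 16414784))) (a (l 16415280) (b (l 16387328) (l 16355704)))) (b (a (b (a (l 16350048) (l 16368912)) (a (a (l 16357912) (l 16351240)) (l 16346016))) (b (l 16345512) (l 16339872))) (b (a (a (l 16326016) (l 16313448)) (l 16316464)) (a (a (l 16305936) (l 16276544)) (l 16281560))))) (a (b (a (b (l 16281384) (l 16246240)) (b (l 16235600) (l 16202408))) (a (b (l 16206192) (l 16165264)) (b (l 16173696) (l 16148664)))) (b (b (a (l 16131960) (l 16215752)) (a (l 16151448) (l 16128720))) (b (l 16089656) (l 16062752))))) (b (b (a (a (l 16103200) (b (l 16114528) (l 16076440))) (b (l 16036528) (l 16016464))) (a (l 16021824) (a (l 15937872) (l 15948568)))) (a (l 15911264) (b (a (l 15931264) (l 15906680)) (l 15847136))))) (b (b (b (l 16217536) (b (a (b (a (l 16278504) (l 16290472)) (l 16321008)) (b (l 16249112) (l 16263936))) (b (a (l 16318480) (l 16276920)) (a (l 16301736) (l 16288584)))))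 (b (a (l 16176216) (b (l 16236152) (l 16131232))) (a (b (l 15955872) (a (l 15973560) (l 15948496))) (l 15976616)))) (b (b (a (b (a (l 15942680) (l 15881496)) (l 15882280)) (b (l 15850032) (a (l 15788224) (l 15758968)))) (a (l 15844744) (b (a (l 15751752) (l 15693688)) (l 15685424)))) (b (l 15686584) (a (a (l 15807944) (l 15729112)) (l 15610296)))))), by decide +kernel⟩

def k3_pm_202 : ∃ t, chk3 f_pm_202 t 15 4 1 = true :=
  ⟨(b (a (b (b (b (a (l 16267072) (a (l 16225624) (l 16198072))) (l 16192200)) (b (b (l 16163568) (l 16163592)) (l 16165304))) (b (a (b (l 16184208) (l 16115168)) (l 16070968)) (a (l 15962736) (b (l 15976888) (l 15886456))))) (b (b (a (b (a (l 16183200) (l 16165640)) (a (l 16117384) (l 16098328))) (l 16105408)) (b (a (b (l 16063872) (l 16050544)) (l 16002768)) (a (l 16033872) (l 15877104)))) (a (b (l 15979984) (l 15857776)) (b (l 15872056) (l 15770792))))) (a (b (b (l 15750864) (b (l 15624680) (a (l 15586064) (l 15517200)))) (b (a (b (l 15524368) (l 15477592)) (l 15415048))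 (a (l 15446056) (b (l 15320352) (l 15266096))))) (b (b (a (l 15690048) (l 15621256)) (a (l 15503032) (l 15432112))) (a (l 15253144) (l 15159936))))), by decide +kernel⟩

def k4_pm_202 : ∃ t, chk3 f_pm_202 t 7 5 1 = true :=
  ⟨(a (a (b (b (b (l 15798072) (l 15734560)) (l 15647560)) (b (l 15547656) (l 15464736))) (b (b (a (b (a (l 15754784) (l 15701632)) (a (l 15697136) (l 15664448))) (l 15560496)) (a (l 15584656) (a (b (l 15568592) (l 15525320)) (l 15476320)))) (b (a (l 15485056) (a (l 15451448) (l 15411824))) (l 15368584)))) (b (a (b (b (a (l 15405008) (l 15217824)) (l 15279424)) (b (l 15248536) (l 15223368))) (b (a (b (a (l 15103096) (l 15040696)) (a (l 15038120) (l 14939328))) (b (l 14944712) (l 14838744))) (a (l 14929288) (b (a (l 14778864) (l 14701104)) (l 14682312))))) (a (b (b (l 15203440) (l 15195584)) (a (a (l 15288248) (l 15229824)) (l 15068000))) (b (a (l 14875616) (l 14643560)) (a (l 14843544) (l 14603184)))))), by decide +kernel⟩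

def k5_pm_202 : ∃ t, chk3 f_pm_202 t 3 3 1 = true :=
  ⟨(a (b (l 3) (l 3)) (a (b (b (a (b (l 15397808) (l 15345800)) (l 15261024)) (a (b (l 15307824) (l 15262064)) (l 15174208))) (b (a (b (l 133845830759) (l 435567262551)) (b (l 15146376) (l 15144008))) (a (l 3) (b (l 15131432) (l 2))))) (b (a (b (b (a (l 15188072) (b (l 15060752) (l 15063056))) (a (l 15133016) (b (l 15049392) (l 15028776)))) (b (l 15031464) (l 15006080))) (b (b (a (l 14830408) (l 14583520)) (a (l 14834128) (l 14582336))) (a (b (a (l 14890440) (l 14791368)) (a (l 14889952) (l 14818824))) (l 14611720)))) (a (b (l 14978608) (l 14987480)) (b (a (l 14823320) (b (l 14674536) (l 14695104))) (a (l 14837152) (l 14689424))))))), by decide +kernel⟩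

theorem s6_pm_202 : ∃ t, chk3 f_pm_202 t 7 4 1 = true := ex3_a k2_pm_202 k3_pm_202

theorem s7_pm_202 : ∃ t, chk3 f_pm_202 t 7 2 1 = true := ex3_b s6_pm_202 k4_pm_202

theorem s8_pm_202 : ∃ t, chk3 f_pm_202 t 3 2 1 = true := ex3_a k1_pm_202 s7_pm_202

theorem s9_pm_202 : ∃ t, chk3 f_pm_202 t 3 1 1 = true := ex3_b s8_pm_202 k5_pm_202

theorem s10_pm_202 : ∃ t, chk3 f_pm_202 t 1 1 1 = true := ex3_a k0_pm_202 s9_pm_202

theorem c_pm_202 : CertB 0 536870912 1073741824 536870912 1045395039 1503240 3 eng mog cd0q2 cd4q2 pd0 false true false .pp 2 0 2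
    ndB0q2 ndB4q2 pcB0 Cut.none Ext.none :=
  certB1 (fam := false) (s1 := true) (s2 := false) (a := 2) (b := 0) (c := 2) (cn := .pp) (n1 := ndB0q2) (n2 := ndB4q2) (pc := pcB0) (cut := Cut.none) (xt := Ext.none) (P1 := 0) (W1 := 536870912) (P2 := 1073741824) (W2 := 536870912) (P3 := 1045395039) (W3 := 1503240) (N0 := 3) (En := eng) (mo := mog) (C1 := cd0q2) (C2 := cd4q2) (C3 := pd0)
    rfl (fun _ => rfl) s10_pm_202

noncomputable def f_pm_203 : ℕ → ℕ → ℕ → ℕ → Bool := onCell 0 536870912 0 1230186008 1045395039 1503240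
    (rowB 3 eng mog cd0q2 cd4q3 pd0 0 false true false .up 2 0 3 (qsf 0 536870912 0 1230186008 0) ndB0q2 ndB4q3 pcB0 Cut.none Ext.none)

def k0_pm_203 : ∃ t, chk3 f_pm_203 t 1 1 1 = true :=
  ⟨(b (l 2) (b (l 2) (a (l 3) (b (l 2) (a (l 3) (b (a (a (l 3) (l 2)) (l 2)) (a (a (l 3) (b (l 263769488903) (l 16002576))) (a (l 15812256) (l 15612256))))))))), by decide +kernel⟩

theorem c_pm_203 : CertB 0 536870912 0 1230186008 1045395039 1503240 3 eng mog cd0q2 cd4q3 pd0 false true false .up 2 0 3
    ndB0q2 ndB4q3 pcB0 Cut.none Ext.none :=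
  certB0 (fam := false) (s1 := true) (s2 := false) (a := 2) (b := 0) (c := 3) (cn := .up) (n1 := ndB0q2) (n2 := ndB4q3) (pc := pcB0) (cut := Cut.none) (xt := Ext.none) (P1 := 0) (W1 := 536870912) (P2 := 0) (W2 := 1230186008) (P3 := 1045395039) (W3 := 1503240) (N0 := 3) (En := eng) (mo := mog) (C1 := cd0q2) (C2 := cd4q3) (C3 := pd0)
    rfl k0_pm_203

noncomputable def cut_pm_213 : Cut := Cut.of [[⟨0, 1, 0, 14155776⟩, ⟨1, 1, 0, 14155776⟩, ⟨2, 2, 0, 524288⟩]]

noncomputable def xt_pm_213 : Ext := extD3 3 ⟨4, 1, 1, 5, 33, 5, 163, 200, 81, 200, 1, 64⟩ eng cd0q2 cd4q3 pd1 false true false .pnn 2 1 3 rfl ndB0q2 ndB4q3 pcB1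

noncomputable def f_pm_213 : ℕ → ℕ → ℕ → ℕ → Bool := onCell 0 536870912 0 1230186008 1045395039 1503240
    (rowB 3 eng mog cd0q2 cd4q3 pd1 0 false true false .pnn 2 1 3 (qsf 0 536870912 0 1230186008 1) ndB0q2 ndB4q3 pcB1 cut_pm_213 xt_pm_213)

def k0_pm_213 : ∃ t, chk3 f_pm_213 t 2 4 1 = true :=
  ⟨(l 3), by decide +kernel⟩

def k1_pm_213 : ∃ t, chk3 f_pm_213 t 6 4 1 = true :=
  ⟨(l 3), by decide +kernel⟩

def k2_pm_213 : ∃ t, chk3 f_pm_213 t 14 4 1 = true :=
  ⟨(l 3), by decide +kernel⟩

def k3_pm_213 : ∃ t, chk3 f_pm_213 t 30 4 1 = true :=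
  ⟨(l 3), by decide +kernel⟩

def k4_pm_213 : ∃ t, chk3 f_pm_213 t 62 8 1 = true :=
  ⟨(l 3), by decide +kernel⟩

def k5_pm_213 : ∃ t, chk3 f_pm_213 t 126 16 1 = true :=
  ⟨(l 3), by decide +kernel⟩

def k6_pm_213 : ∃ t, chk3 f_pm_213 t 254 32 1 = true :=
  ⟨(l 3), by decide +kernel⟩

def k7_pm_213 : ∃ t, chk3 f_pm_213 t 508 33 1 = true :=
  ⟨(l 3), by decide +kernel⟩

def k8_pm_213 : ∃ t, chk3 f_pm_213 t 509 66 1 = true :=
  ⟨(a (l 3) (b (l 3) (a (l 3) (b (l 3) (a (l 3) (b (l 3) (a (l 3) (b (l 3) (b (l 459729273047) (a (l 3) (a (a (l 3) (b (l 3) (l 127406178647))) (l 159618433383)))))))))))), by decide +kernel⟩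

def k9_pm_213 : ∃ t, chk3 f_pm_213 t 1018 67 1 = true :=
  ⟨(b (l 3) (a (l 3) (b (a (l 3) (b (l 3) (a (l 3) (b (l 3) (a (l 3) (a (l 3) (b (l 3) (l 140827951575)))))))) (a (b (l 3) (a (l 3) (b (a (l 3) (a (l 3) (b (l 3) (l 133848629735)))) (a (b (l 371145572663) (a (l 212231782871) (l 161229046215))) (l 175187689943))))) (b (a (b (l 3) (a (l 374903669143) (a (b (l 3) (l 152102240679)) (l 162302788007)))) (b (a (b (l 370608701751) (a (l 217063621063) (l 168745238951))) (l 178945786343)) (l 197199397431))) (a (b (a (a (b (l 214916137431) (l 16777360)) (l 179482657303)) (l 16777544)) (l 16777560)) (l 16777584))))))), by decide +kernel⟩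

def k10_pm_213 : ∃ t, chk3 f_pm_213 t 1019 134 1 = true :=
  ⟨(a (b (l 3) (a (l 3) (b (a (l 3) (b (l 3) (a (l 3) (a (l 8107660990222305768513951263) (b (l 3) (l 152102240679)))))) (a (b (l 3) (a (a (l 3) (b (l 3) (l 5622109491259570130036069919))) (a (b (l 371682443591) (l 164987142599)) (l 170355851687)))) (b (a (a (b (l 3) (l 2952801276938782893857461791)) (b (b (l 3) (l 127943049623)) (l 181093269879))) (l 185388237223)) (l 16777512)))))) (b (a (b (l 3) (a (l 3) (b (a (l 3) (b (l 3) (a (l 5718823576140175666177136159) (l 156397207943)))) (a (a (b (l 3) (b (l 209547428199) (l 154786595143))) (b (b (l 3) (l 134385500455)) (l 185925108055))) (l 188072591799))))) (b (a (b (l 460266143911) (a (a (l 3) (b (l 3) (b (l 3) (l 137069854999)))) (b (a (b (l 3) (l 212768653655)) (l 158544691575)) (l 182703882647)))) (b (a (a (b (l 3) (b (c (l 213842395463) (l 213842395479)) (l 161229046055))) (b (b (l 373829927207) (l 139217338711)) (l 190220075319))) (b (l 183777624439) (l 16777456))) (l 16777472)))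 (a (b (a (b (c (l 3117215166212633497935664671) (l 3146229398277290772652185119)) (l 16777464)) (l 16777472)) (l 16777496)) (l 16777512)))) (a (b (a (b (a (a (l 3) (b (l 3) (b (l 3) (l 131164274999)))) (b (a (l 5747837792640392628701271583) (l 154249724311)) (l 179482657207))) (a (b (c (a (l 2962472686089773312620500511) (l 183777624423)) (l 3126886579398849182822684191)) (l 16777488)) (l 16777496))) (l 16777440)) (l 16777544)) (l 16777584)))), by decide +kernel⟩

def k11_pm_213 : ∃ t, chk3 f_pm_213 t 1019 135 1 = true :=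
  ⟨(a (b (a (b (a (l 3) (b (a (l 3) (a (l 376514281879) (b (l 3) (l 146733531591)))) (a (a (a (l 371145572631) (b (l 3) (l 137606726007))) (b (l 5651123706606865587953358367) (l 175187689879))) (l 182167011783)))) (a (b (a (a (l 3) (l 5747837769293732160412603935)) (a (b (l 372756185431) (l 159081562519)) (l 166597755319))) (a (a (b (l 219747975623) (l 16777184)) (l 184314495495)) (l 16777528))) (l 200957493735))) (b (a (a (a (b (b (l 2933458459789723560938214943) (l 16777496)) (l 16777520)) (l 195051913687)) (l 16777528)) (l 16777552)) (l 16777592))) (l 16777648)) (l 16777728)), by decide +kernel⟩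

def k12_pm_213 : ∃ t, chk3 f_pm_213 t 255 32 1 = true :=
  ⟨(l 6), by decide +kernel⟩

def k13_pm_213 : ∃ t, chk3 f_pm_213 t 1020 132 1 = true :=
  ⟨(a (l 3) (b (a (l 3) (b (l 3) (a (l 3) (b (l 3) (a (l 3) (a (a (l 3) (b (l 3) (b (l 3) (b (l 213842395351) (l 159081562311))))) (a (b (l 3) (b (b (l 3) (l 135996113127)) (l 189146333383))) (b (b (l 3) (b (l 3) (l 214379266263))) (l 3349328958598634513740588639))))))))) (a (b (l 3) (a (b (l 3) (a (l 3) (a (l 3) (a (l 3) (b (l 3) (l 5776852006978883281915930207)))))) (b (a (l 3) (a (a (l 3) (b (l 3) (b (l 3) (l 2991486916857396162396956255)))) (a (b (l 3) (b (l 4065013063410161456836240991) (l 188609462519))) (b (b (l 3) (l 5709152173474370153936528991)) (l 185925107991))))) (b (a (a (l 3) (b (l 5767180599269044743911433823) (a (l 4065013042945804750064690783) (l 171966464247)))) (l 3407357353264416315983275615)) (a (a (a (b (l 3) (l 155860336935)) (l 2952801296106104763372004959)) (l 198273138999)) (l 16777400)))))) (b (a (b (a (l 3) (a (l 3)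 (a (l 3) (a (l 3) (b (l 3) (b (l 3) (l 213305524455))))))) (b (a (l 3) (a (a (l 3) (b (l 3) (l 3010829724206622706158003807))) (a (b (b (l 3) (l 135459242183)) (l 189146333415)) (l 185925107975)))) (a (a (l 3) (a (b (l 3) (l 4074684467084774728716772959)) (b (l 5709152170592066392419444319) (l 172503335143)))) (l 3407357354417337820590089823)))) (b (b (a (a (l 3) (a (b (l 3) (b (l 3) (l 135996113127))) (b (b (l 3) (l 214379266279)) (l 173040206039)))) (l 3417028762127181993591662175)) (a (a (a (b (l 3) (l 156934078711)) (l 3175243642879971265393944159)) (l 198810009831)) (l 16777376))) (l 16777384))) (a (b (a (a (a (b (b (l 3) (l 156397207815)) (l 16777384)) (l 3291300482651868357334394463)) (l 201494364455)) (l 16777392)) (l 16777408)) (l 16777424)))))), by decide +kernel⟩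

def k14_pm_213 : ∃ t, chk3 f_pm_213 t 1020 133 1 = true :=
  ⟨(a (b (a (l 3) (b (a (l 3) (b (l 3) (a (l 3) (a (a (l 3) (b (l 3) (b (l 3) (l 137606725943)))) (b (b (l 3) (l 5776852015337564121596126815)) (l 3165572235458362966102271583)))))) (a (b (a (l 3) (b (l 3) (l 6927749374569873499402364511))) (b (a (l 3) (a (a (l 3) (b (l 3) (l 134922371271))) (l 3155900827172063607074891359))) (a (a (l 3) (b (l 373293056247) (l 3030172550867284245925373535))) (l 3320314689784602767852377631)))) (b (b (a (a (l 3) (b (l 5776852018796328635416684127) (l 3039843959153583536233277023))) (l 3388014537556520065097311839)) (a (a (a (b (l 3) (l 152639111367)) (l 162302787879)) (l 196125655351)) (l 16777416))) (l 16777432))))) (a (b (a (b (l 3) (a (l 3) (l 8204375029130167407968495199))) (b (a (l 3) (b (l 6927749381775632903195174495) (a (b (l 3) (l 4152055729916402956811658847)) (l 2923787068076672479901574751)))) (b (a (a (l 3) (b (l 373293056263) (l 3010829735591720296407946783))) (l 186461978967)) (a (a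 (a (b (l 3) (l 147807273207)) (l 159081562439)) (l 193978171735)) (l 16777440))))) (a (b (b (a (l 3) (a (a (l 3) (b (l 3) (l 130090533111))) (l 2894772846244191978022835743))) (a (a (l 3) (b (l 373293056279) (l 141364822343))) (l 185388237159))) (a (a (a (b (b (l 3) (l 145122918663)) (l 16777440)) (l 3242943439346879133733197343)) (l 197199397159)) (l 16777456))) (l 16777464))) (b (a (b (a (a (a (b (b (l 3) (l 150491627751)) (l 16777424)) (l 3252614850227251809406490143)) (l 199346880855)) (l 16777432)) (l 16777456)) (l 16777472)) (l 16777504)))) (b (a (b (a (b (b (a (l 3) (a (a (l 3) (b (l 3) (l 138143596791))) (l 3175243631638980823041173087))) (a (a (l 3) (b (l 5767180605610113019249108575) (l 3049515367439882895260640863))) (l 3397685945554588979253503583))) (a (a (a (b (b (l 3) (l 154786595127)) (l 16777400)) (l 3281629073500872303574279775)) (l 200957493591)) (l 16777416))) (l 16777424)) (l 16777456)) (l 16777488)) (l 16777568))), by decide +kernel⟩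

def k15_pm_213 : ∃ t, chk3 f_pm_213 t 1021 66 1 = true :=
  ⟨(b (a (b (b (l 6) (a (a (b (b (a (l 3) (b (b (l 6) (a (l 3) (l 2933458467139600214390957663))) (a (a (l 3) (b (l 3939284762317569334322603615) (l 158544691383))) (l 194515042487)))) (a (a (l 3) (a (b (l 3) (b (l 3) (l 135459242199))) (b (b (l 3) (l 3939284763470490838929450591)) (l 172503335143)))) (l 3417028762991873122046781023))) (b (a (b (a (a (l 3) (b (l 3948956171468559753085675103) (l 159081562343))) (l 195051913463)) (l 3329986125596898513882654303)) (l 16777368)) (l 16777368))) (l 16777296)) (l 16777416))) (l 16777464)) (l 16777504)) (l 16777672)), by decide +kernel⟩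

def k16_pm_213 : ∃ t, chk3 f_pm_213 t 510 67 1 = true :=
  ⟨(b (a (b (a (l 16777560) (l 16777680)) (l 16777744)) (l 16777928)) (l 16778088)), by decide +kernel⟩

def k17_pm_213 : ∃ t, chk3 f_pm_213 t 511 33 1 = true :=
  ⟨(b (l 16777848) (l 16778456)), by decide +kernel⟩

def k18_pm_213 : ∃ t, chk3 f_pm_213 t 126 17 1 = true :=
  ⟨(a (l 3) (b (b (l 3) (l 3)) (a (b (l 3) (a (l 3) (b (l 3) (a (b (l 3) (l 3)) (b (a (l 3) (b (l 443623143799) (a (l 428590758535) (l 246591519239)))) (a (b (l 425369532999) (l 4654364405660440568709677151)) (l 3368067333590481105416896607))))))) (b (a (b (l 3) (a (l 3) (b (l 3) (a (l 3) (b (l 6888459320308314110071865439) (a (l 6549960090816216223166873695) (l 16776688))))))) (b (a (b (l 3) (a (l 3) (b (l 3) (a (l 3) (b (l 377588023015) (l 238001585735)))))) (b (a (l 450602466695) (b (a (l 3) (b (l 372756185127) (l 239612198823))) (a (l 4489950494192865225882599519) (l 16777376)))) (a (b (a (l 6811088067852960388144218207) (l 2981211071313793790917673055)) (l 186998849191))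 (l 16777408)))) (a (b (a (b (l 3) (a (l 374366797223) (l 4538307526977455409392336991))) (b (a (b (l 370071830247) (l 244444036647)) (l 16777216)) (l 16777224))) (l 3475056517497985574326429279)) (l 16777480)))) (a (b (a (b (a (l 3) (l 443086273015)) (a (b (l 3) (l 6569302903930050633559343199)) (b (a (l 363629378407) (l 254107712327)) (l 16776792)))) (b (a (b (a (l 447918111671) (l 4518964713863648761667780703)) (l 4693050031888146566732382303)) (l 16777024)) (l 16777024))) (a (b (a (b (l 4770421284343472113674764383) (l 16776776)) (l 16776888)) (l 16776992)) (l 16777192))) (l 602895945192509098632799)))))), by decide +kernel⟩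

def k19_pm_213 : ∃ t, chk3 f_pm_213 t 508 34 1 = true :=
  ⟨(b (a (l 3) (b (a (l 3) (b (l 3) (a (l 3) (b (l 3) (a (l 3) (l 8175360813494645009873643103)))))) (a (b (l 3) (a (l 3) (b (l 3) (a (b (l 3) (l 5815537622830260622823876191)) (b (a (l 372756185559) (l 153712853431)) (l 175724560807)))))) (b (a (b (l 3) (a (l 3) (b (l 382419861863) (a (l 5535066895081538830530237983) (l 159081562583))))) (b (a (b (l 3) (a (l 3) (b (l 370071830887) (l 144586047943)))) (b (a (l 5477038414234862464297883167) (l 164450271719)) (l 183777624599))) (a (b (l 3281629031851593257573553695) (l 16777576)) (l 16777608)))) (a (b (a (b (a (l 3) (l 5380324375182886736278885919)) (l 3252614854694822021282784863)) (l 185925108183)) (l 16777608)) (l 16777680)))))) (a (b (a (l 3) (b (l 3) (a (b (l 3) (a (l 3) (b (l 3) (l 5419009924020705951240726111)))) (b (a (l 380272378039) (b (a (l 375977410919) (l 230485393687)) (l 170355851591))) (a (b (a (l 221358588087) (l 16777328)) (l 16777512)) (l 16777552)))))) (a (b (a (l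 3) (b (l 3) (a (l 454360563719) (b (l 5331967211974067012159612511) (l 160692175031))))) (a (b (l 6927144946535960940625379423) (a (b (l 3) (l 4373893615509859725599424607)) (l 172503334935))) (b (a (b (l 4355155132719855064521352799) (l 16776768)) (l 16777480)) (l 16777504)))) (b (a (b (a (b (l 373829927127) (l 4422855049234712126147339871)) (l 176261431511)) (l 16777520)) (l 16777608)) (l 16777664)))) (b (a (b (a (b (a (l 3) (b (l 3) (a (l 374366798247) (l 3175243607139410876054267487)))) (a (b (l 5854223228881804830976288351) (a (l 226190426359) (l 16777192))) (l 179482657175))) (b (b (l 3359000223634429641102796383) (l 16777584)) (l 16777632))) (a (l 196125655415) (l 16777720))) (l 16777816)) (l 16777976)))), by decide +kernel⟩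

def k20_pm_213 : ∃ t, chk3 f_pm_213 t 509 34 1 = true :=
  ⟨(b (a (b (a (b (a (l 3) (b (a (l 3) (b (l 3) (a (l 3) (a (l 3) (b (l 3) (l 219211104679)))))) (a (a (l 3) (b (l 3) (a (a (l 368461218167) (l 223506071959)) (l 152102240711)))) (a (b (a (l 370071830855) (b (l 3) (l 155860337095))) (l 185925108215)) (l 182167011751))))) (a (b (a (l 3) (b (a (l 3) (l 5892908868223948413680719391)) (a (b (l 3) (l 222432330151)) (l 166060884455)))) (a (b (a (l 3) (b (l 368461218167) (l 151565369799))) (a (l 3194586404832911709834696223) (l 16777560))) (l 191830688231))) (b (a (b (a (b (c (l 225116684711) (l 224579813815)) (l 175724560871)) (l 16777560)) (l 16777576)) (l 16777608)) (l 16777648)))) (b (a (b (a (b (a (l 375977410983) (a (b (l 3) (l 144586047927)) (l 157470949815))) (a (a (b (l 213842395607) (l 16777368)) (l 174113948119)) (l 16777552))) (l 196662526487)) (l 16777608)) (l 16777656)) (l 16777744))) (b (a (l 16777368) (l 16777880)) (l 16777928))) (b (l 16777920) (l 16778224))) (l 16768024)),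 by decide +kernel⟩

def k21_pm_213 : ∃ t, chk3 f_pm_213 t 255 34 1 = true :=
  ⟨(b (l 16778936) (l 16779872)), by decide +kernel⟩

def k22_pm_213 : ∃ t, chk3 f_pm_213 t 127 35 1 = true :=
  ⟨(a (a (b (b (a (b (a (l 190756945879) (l 16777792)) (l 16777776)) (l 16778264)) (l 16778264)) (l 16778624)) (l 16774352)) (l 16781552)), by decide +kernel⟩

def k23_pm_213 : ∃ t, chk3 f_pm_213 t 62 9 1 = true :=
  ⟨(a (l 3) (b (l 3) (b (a (l 3) (a (b (l 3) (l 3)) (b (a (l 3) (b (a (l 3) (b (l 3) (a (l 3) (b (l 3) (l 3349327521914323073637061151))))) (a (b (l 3) (a (l 3) (b (l 189146147543) (l 162302644023)))) (b (a (b (l 210621053511) (l 3455712655369718462741205535)) (b (l 157470904583) (l 16710544))) (l 165523910263))))) (a (b (a (l 3) (b (l 331416842967) (l 196662188775))) (a (b (l 272360916487) (l 16567432)) (l 152638797479))) (b (a (b (l 174650635463) (l 16617632)) (l 16641552)) (l 16579400)))))) (b (a (l 3) (a (a (l 394230391191) (b (l 5061156236763456919618703903) (l 16447040))) (b (l 16516248)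 (l 16462288)))) (a (l 493551293687) (b (l 3320301279001661180316455455) (l 16351776))))))), by decide +kernel⟩

def k24_pm_213 : ∃ t, chk3 f_pm_213 t 63 18 1 = true :=
  ⟨(a (b (a (b (l 3) (a (l 3) (a (b (l 3) (l 7874942789113789462951903455)) (b (a (l 3) (b (a (l 3) (l 375440542519)) (a (b (l 3) (l 355039450071)) (b (a (l 354502578391) (l 16779408)) (l 16779808))))) (a (b (a (l 3) (b (l 373293061831) (l 4567321746648156206935212255))) (b (l 4625350185989661912016175327) (l 2990882477870693438296260831))) (b (l 3145624982781346456324456671) (l 16781320))))))) (b (a (a (b (a (l 3) (b (l 3) (a (l 3) (b (l 3) (l 360945024727))))) (a (b (l 3) (a (l 439865050375) (b (l 362018768071) (a (l 352355091831) (l 16778272))))) (b (a (b (l 434496339927) (a (l 362555638439) (l 248739004743))) (b (a (l 351818219239) (l 16777408)) (l 16777664))) (b (l 182703883127) (l 16778272))))) (b (a (b (a (l 434496338583) (b (l 6530617277702343810903638111) (l 251960228759))) (a (b (a (l 360945024455) (l 256792067223))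 (l 16777216)) (l 16777184))) (l 144056536002297951)) (l 16777904))) (l 602239356440852915938911)) (a (b (a (a (b (a (b (a (l 360408156791) (l 241222813879)) (l 251423361991)) (l 16778816)) (l 16779584)) (l 16779152)) (l 16779184)) (l 16780792)) (l 16780136)))) (a (b (a (a (l 3) (b (l 3) (a (l 3) (b (l 3) (a (l 374903685639) (l 4103094231916196396937232479)))))) (a (b (a (b (l 3) (l 6530617277702361471822692575)) (b (a (l 372756195159) (l 4296522363054497413745836255)) (l 2981211071313796402269421791))) (a (b (a (b (l 356650071703) (l 225116698567)) (l 166060897319)) (l 16785712)) (l 16785016))) (l 601814793129560603731167))) (a (b (a (l 3) (a (b (l 355576324871) (a (b (l 3) (l 212768676455)) (l 2488573606706374071568785503))) (l 2952800282688137467062837343))) (a (a (b (l 3) (l 3)) (b (a (l 3) (b (l 353428856807) (l 2411201999727863910189211807))) (l 2662658158326484139448737823))) (l 2807728161981142648225734687))) (l 600345971209038829199455))) (b (a (l 16783616) (l 16783392)) (l 16788192))))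 (b (a (b (l 16759240) (l 16761000)) (l 16784184)) (a (b (l 16784304) (l 16788248)) (l 16789224)))), by decide +kernel⟩

def k25_pm_213 : ∃ t, chk3 f_pm_213 t 63 19 1 = true :=
  ⟨(b (a (a (b (a (a (b (a (b (a (b (l 3) (l 195588740967)) (l 2604629325982793687416590367)) (a (b (l 3378341786549012853498941471) (l 16746680)) (l 16760992))) (b (l 16771944) (l 16771600))) (l 16718328)) (l 599424066371464722108447)) (l 16771936)) (l 595894973645862922833951)) (l 16771768)) (a (l 16792920) (l 16793112))) (a (b (l 16569664) (l 16437104)) (l 16718440))), by decide +kernel⟩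

def k26_pm_213 : ∃ t, chk3 f_pm_213 t 1 5 1 = true :=
  ⟨(a (l 3) (a (l 3) (a (l 3) (b (a (b (l 3) (l 3)) (b (a (a (b (l 3) (b (l 471539135223) (l 400672048519))) (b (a (b (a (l 3) (l 363091497191)) (l 363091332311)) (b (l 16279928) (l 16189752))) (a (b (l 289003132535) (l 16042480)) (l 16065600)))) (b (a (l 16257280) (l 16347144)) (l 16059800))) (a (a (b (b (l 394766349879) (l 387250046535)) (a (l 390471146567) (l 15861856))) (b (l 16039120) (l 15820280))) (b (l 15877200) (l 15734984))))) (a (a (l 3) (b (a (l 3) (b (a (l 3) (l 418925191063)) (a (l 3) (l 378659734247)))) (a (b (l 3) (l 469390853095)) (b (a (l 445768542103) (l 15704888)) (l 370069790167))))) (a (b (a (b (a (l 372217536071) (l 15773936)) (l 15717144)) (l 15685960)) (a (b (l 15659400) (l 15613984)) (l 15567464))) (b (l 15602136) (l 15455400)))))))), by decide +kernel⟩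

def k27_pm_213 : ∃ t, chk3 f_pm_213 t 1 3 1 = true :=
  ⟨(a (l 3) (a (b (l 3) (l 3)) (b (a (a (l 3) (b (l 3) (b (l 3) (b (l 3) (l 545626653415))))) (b (a (b (a (l 3) (a (b (l 359869113783) (l 359869173575)) (b (l 15638320) (l 15612128)))) (a (b (l 524151657095) (l 317456323799)) (b (a (l 369532801303) (l 15594448)) (l 15608560)))) (b (a (a (l 15565984) (l 15501416)) (l 15393360)) (a (l 15505648) (l 15377896)))) (a (b (a (b (l 320677529831) (l 318530212231)) (b (l 15604752) (l 15607936))) (a (b (l 327657017383) (l 15697336)) (l 15625536))) (b (a (l 15511184) (l 15399200)) (a (l 15546512) (l 15452248)))))) (a (a (b (l 3) (b (l 3) (l 3))) (b (b (b (l 236925892807) (l 236925951127)) (b (l 239610360263) (l 254642576087))) (b (b (l 258400718823) (l 261622022471)) (b (l 264306479239) (l 1))))) (b (a (b (a (b (l 15713368) (l 15736568)) (l 15673008)) (b (l 15747560) (l 15789088))) (b (a (l 15610440) (l 15534976)) (l 15611672))) (a (b (b (l 15838384) (l 15895632)) (b (l 15960760) (l 16033216))) (b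 (l 15742608) (l 15773360)))))))), by decide +kernel⟩

theorem s28_pm_213 : ∃ t, chk3 f_pm_213 t 63 9 1 = true := ex3_b k24_pm_213 k25_pm_213

theorem s29_pm_213 : ∃ t, chk3 f_pm_213 t 31 9 1 = true := ex3_a k23_pm_213 s28_pm_213

theorem s30_pm_213 : ∃ t, chk3 f_pm_213 t 254 34 1 = true := ex3_a k19_pm_213 k20_pm_213

theorem s31_pm_213 : ∃ t, chk3 f_pm_213 t 127 34 1 = true := ex3_a s30_pm_213 k21_pm_213

theorem s32_pm_213 : ∃ t, chk3 f_pm_213 t 127 17 1 = true := ex3_b s31_pm_213 k22_pm_213

theorem s33_pm_213 : ∃ t, chk3 f_pm_213 t 63 17 1 = true := ex3_a k18_pm_213 s32_pm_213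

theorem s34_pm_213 : ∃ t, chk3 f_pm_213 t 1020 66 1 = true := ex3_b k13_pm_213 k14_pm_213

theorem s35_pm_213 : ∃ t, chk3 f_pm_213 t 510 66 1 = true := ex3_a s34_pm_213 k15_pm_213

theorem s36_pm_213 : ∃ t, chk3 f_pm_213 t 510 33 1 = true := ex3_b s35_pm_213 k16_pm_213

theorem s37_pm_213 : ∃ t, chk3 f_pm_213 t 255 33 1 = true := ex3_a s36_pm_213 k17_pm_213

theorem s38_pm_213 : ∃ t, chk3 f_pm_213 t 255 16 1 = true := ex3_b k12_pm_213 s37_pm_213

theorem s39_pm_213 : ∃ t, chk3 f_pm_213 t 1019 67 1 = true := ex3_b k10_pm_213 k11_pm_213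

theorem s40_pm_213 : ∃ t, chk3 f_pm_213 t 509 67 1 = true := ex3_a k9_pm_213 s39_pm_213

theorem s41_pm_213 : ∃ t, chk3 f_pm_213 t 509 33 1 = true := ex3_b k8_pm_213 s40_pm_213

theorem s42_pm_213 : ∃ t, chk3 f_pm_213 t 254 33 1 = true := ex3_a k7_pm_213 s41_pm_213

theorem s43_pm_213 : ∃ t, chk3 f_pm_213 t 254 16 1 = true := ex3_b k6_pm_213 s42_pm_213

theorem s44_pm_213 : ∃ t, chk3 f_pm_213 t 127 16 1 = true := ex3_a s43_pm_213 s38_pm_213

theorem s45_pm_213 : ∃ t, chk3 f_pm_213 t 63 16 1 = true := ex3_a k5_pm_213 s44_pm_213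

theorem s46_pm_213 : ∃ t, chk3 f_pm_213 t 63 8 1 = true := ex3_b s45_pm_213 s33_pm_213

theorem s47_pm_213 : ∃ t, chk3 f_pm_213 t 31 8 1 = true := ex3_a k4_pm_213 s46_pm_213

theorem s48_pm_213 : ∃ t, chk3 f_pm_213 t 31 4 1 = true := ex3_b s47_pm_213 s29_pm_213

theorem s49_pm_213 : ∃ t, chk3 f_pm_213 t 15 4 1 = true := ex3_a k3_pm_213 s48_pm_213

theorem s50_pm_213 : ∃ t, chk3 f_pm_213 t 7 4 1 = true := ex3_a k2_pm_213 s49_pm_213

theorem s51_pm_213 : ∃ t, chk3 f_pm_213 t 3 4 1 = true := ex3_a k1_pm_213 s50_pm_213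

theorem s52_pm_213 : ∃ t, chk3 f_pm_213 t 1 4 1 = true := ex3_a k0_pm_213 s51_pm_213

theorem s53_pm_213 : ∃ t, chk3 f_pm_213 t 1 2 1 = true := ex3_b s52_pm_213 k26_pm_213

theorem s54_pm_213 : ∃ t, chk3 f_pm_213 t 1 1 1 = true := ex3_b s53_pm_213 k27_pm_213

theorem c_pm_213 : CertB 0 536870912 0 1230186008 1045395039 1503240 3 eng mog cd0q2 cd4q3 pd1 false true false .pnn 2 1 3
    ndB0q2 ndB4q3 pcB1 cut_pm_213 xt_pm_213 :=
  certB0 (fam := false) (s1 := true) (s2 := false) (a := 2) (b := 1) (c := 3) (cn := .pnn) (n1 := ndB0q2) (n2 := ndB4q3) (pc := pcB1) (cut := cut_pm_213) (xt := xt_pm_213) (P1 := 0) (W1 := 536870912) (P2 := 0) (W2 := 1230186008) (P3 := 1045395039) (W3 := 1503240) (N0 := 3) (En := eng) (mo := mog) (C1 := cd0q2) (C2 := cd4q3) (C3 := pd1)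
    rfl s54_pm_213

noncomputable def f_mm_001 : ℕ → ℕ → ℕ → ℕ → Bool := onCell 0 536870912 0 536870912 1045395039 1503240
    (rowB 3 eng mog cd0q0 cd4q1 pd0 1 false false false .up 0 0 1 (qsf 0 536870912 536870912 536870912 0) ndB0q0 ndB4q1 pcB0 Cut.none Ext.none)

def k0_mm_001 : ∃ t, chk3 f_mm_001 t 1 1 1 = true :=
  ⟨(l 3), by decide +kernel⟩

theorem c_mm_001 : CertB 0 536870912 536870912 536870912 1045395039 1503240 3 eng mog cd0q0 cd4q1 pd0 false false false .up 0 0 1
    ndB0q0 ndB4q1 pcB0 Cut.none Ext.none :=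
  certB1 (fam := false) (s1 := false) (s2 := false) (a := 0) (b := 0) (c := 1) (cn := .up) (n1 := ndB0q0) (n2 := ndB4q1) (pc := pcB0) (cut := Cut.none) (xt := Ext.none) (P1 := 0) (W1 := 536870912) (P2 := 536870912) (W2 := 536870912) (P3 := 1045395039) (W3 := 1503240) (N0 := 3) (En := eng) (mo := mog) (C1 := cd0q0) (C2 := cd4q1) (C3 := pd0)
    rfl (fun _ => rfl) k0_mm_001

noncomputable def f_mm_011 : ℕ → ℕ → ℕ → ℕ → Bool := onCell 0 536870912 536870912 536870912 1045395039 1503240
    (rowB 3 eng mog cd0q0 cd4q1 pd1 1 false false false .pnn 0 1 1 (qsf 0 536870912 536870912 536870912 1) ndB0q0 ndB4q1 pcB1 Cut.none Ext.none)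

def k0_mm_011 : ∃ t, chk3 f_mm_011 t 1 1 1 = true :=
  ⟨(l 5), by decide +kernel⟩

theorem c_mm_011 : CertB 0 536870912 536870912 536870912 1045395039 1503240 3 eng mog cd0q0 cd4q1 pd1 false false false .pnn 0 1 1
    ndB0q0 ndB4q1 pcB1 Cut.none Ext.none :=
  certB1 (fam := false) (s1 := false) (s2 := false) (a := 0) (b := 1) (c := 1) (cn := .pnn) (n1 := ndB0q0) (n2 := ndB4q1) (pc := pcB1) (cut := Cut.none) (xt := Ext.none) (P1 := 0) (W1 := 536870912) (P2 := 536870912) (W2 := 536870912) (P3 := 1045395039) (W3 := 1503240) (N0 := 3) (En := eng) (mo := mog) (C1 := cd0q0) (C2 := cd4q1) (C3 := pd1)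
    rfl (fun _ => rfl) k0_mm_011

noncomputable def f_mm_012 : ℕ → ℕ → ℕ → ℕ → Bool := onCell 0 536870912 1073741824 536870912 1045395039 1503240
    (rowB 3 eng mog cd0q0 cd4q2 pd1 0 false false false .pnp 0 1 2 (qsf 0 536870912 1073741824 536870912 1) ndB0q0 ndB4q2 pcB1 Cut.none Ext.none)

def k0_mm_012 : ∃ t, chk3 f_mm_012 t 1 1 1 = true :=
  ⟨(l 5), by decide +kernel⟩

theorem c_mm_012 : CertB 0 536870912 1073741824 536870912 1045395039 1503240 3 eng mog cd0q0 cd4q2 pd1 false false false .pnp 0 1 2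
    ndB0q0 ndB4q2 pcB1 Cut.none Ext.none :=
  certB0 (fam := false) (s1 := false) (s2 := false) (a := 0) (b := 1) (c := 2) (cn := .pnp) (n1 := ndB0q0) (n2 := ndB4q2) (pc := pcB1) (cut := Cut.none) (xt := Ext.none) (P1 := 0) (W1 := 536870912) (P2 := 1073741824) (W2 := 536870912) (P3 := 1045395039) (W3 := 1503240) (N0 := 3) (En := eng) (mo := mog) (C1 := cd0q0) (C2 := cd4q2) (C3 := pd1)
    rfl k0_mm_012

noncomputable def f_mm_022 : ℕ → ℕ → ℕ → ℕ → Bool := onCell 0 536870912 1073741824 536870912 1045395039 1503240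
    (rowB 3 eng mog cd0q0 cd4q2 pd2 0 false false false .pp 0 2 2 (qsf 0 536870912 1073741824 536870912 2) ndB0q0 ndB4q2 pcB2 Cut.none Ext.none)

def k0_mm_022 : ∃ t, chk3 f_mm_022 t 1 1 1 = true :=
  ⟨(l 5), by decide +kernel⟩

theorem c_mm_022 : CertB 0 536870912 1073741824 536870912 1045395039 1503240 3 eng mog cd0q0 cd4q2 pd2 false false false .pp 0 2 2
    ndB0q0 ndB4q2 pcB2 Cut.none Ext.none :=
  certB0 (fam := false) (s1 := false) (s2 := false) (a := 0) (b := 2) (c := 2) (cn := .pp) (n1 := ndB0q0) (n2 := ndB4q2) (pc := pcB2) (cut := Cut.none) (xt := Ext.none) (P1 := 0) (W1 := 536870912) (P2 := 1073741824) (W2 := 536870912) (P3 := 1045395039) (W3 := 1503240) (N0 := 3) (En := eng) (mo := mog) (C1 := cd0q0) (C2 := cd4q2) (C3 := pd2)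
    rfl k0_mm_022

noncomputable def f_mm_023 : ℕ → ℕ → ℕ → ℕ → Bool := onCell 0 536870912 0 1230186008 1045395039 1503240
    (rowB 3 eng mog cd0q0 cd4q3 pd2 0 false false false .up 0 2 3 (qsf 0 536870912 0 1230186008 2) ndB0q0 ndB4q3 pcB2 Cut.none Ext.none)

def k0_mm_023 : ∃ t, chk3 f_mm_023 t 1 1 1 = true :=
  ⟨(l 5), by decide +kernel⟩

theorem c_mm_023 : CertB 0 536870912 0 1230186008 1045395039 1503240 3 eng mog cd0q0 cd4q3 pd2 false false false .up 0 2 3
    ndB0q0 ndB4q3 pcB2 Cut.none Ext.none :=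
  certB0 (fam := false) (s1 := false) (s2 := false) (a := 0) (b := 2) (c := 3) (cn := .up) (n1 := ndB0q0) (n2 := ndB4q3) (pc := pcB2) (cut := Cut.none) (xt := Ext.none) (P1 := 0) (W1 := 536870912) (P2 := 0) (W2 := 1230186008) (P3 := 1045395039) (W3 := 1503240) (N0 := 3) (En := eng) (mo := mog) (C1 := cd0q0) (C2 := cd4q3) (C3 := pd2)
    rfl k0_mm_023

noncomputable def f_mm_033 : ℕ → ℕ → ℕ → ℕ → Bool := onCell 0 536870912 0 1230186008 1045395039 1503240
    (rowB 3 eng mog cd0q0 cd4q3 pd3 0 false false false .pnn 0 3 3 (qsf 0 536870912 0 1230186008 3) ndB0q0 ndB4q3 pcB3 Cut.none Ext.none)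

def k0_mm_033 : ∃ t, chk3 f_mm_033 t 1 1 1 = true :=
  ⟨(l 5), by decide +kernel⟩

theorem c_mm_033 : CertB 0 536870912 0 1230186008 1045395039 1503240 3 eng mog cd0q0 cd4q3 pd3 false false false .pnn 0 3 3
    ndB0q0 ndB4q3 pcB3 Cut.none Ext.none :=
  certB0 (fam := false) (s1 := false) (s2 := false) (a := 0) (b := 3) (c := 3) (cn := .pnn) (n1 := ndB0q0) (n2 := ndB4q3) (pc := pcB3) (cut := Cut.none) (xt := Ext.none) (P1 := 0) (W1 := 536870912) (P2 := 0) (W2 := 1230186008) (P3 := 1045395039) (W3 := 1503240) (N0 := 3) (En := eng) (mo := mog) (C1 := cd0q0) (C2 := cd4q3) (C3 := pd3)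
    rfl k0_mm_033

noncomputable def cut_mm_101 : Cut := Cut.of [[⟨0, 1, 0, 26843545⟩, ⟨1, 0, 0, 26843545⟩, ⟨2, 1, 0, 26843545⟩]]

noncomputable def f_mm_101 : ℕ → ℕ → ℕ → ℕ → Bool := onCell 536870912 536870912 0 536870912 1045395039 1503240
    (rowB 3 eng mog cd0q1 cd4q1 pd0 1 false false false .npn 1 0 1 (qsf 536870912 536870912 536870912 536870912 0) ndB0q1 ndB4q1 pcB0 cut_mm_101 Ext.none)

def k0_mm_101 : ∃ t, chk3 f_mm_101 t 1 1 1 = true :=
  ⟨(a (l 3) (a (l 3) (b (b (a (l 3) (b (a (l 3) (b (b (a (l 3) (l 6)) (l 3)) (l 3))) (l 3))) (l 3)) (l 2)))), by decide +kernel⟩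

theorem c_mm_101 : CertB 536870912 536870912 536870912 536870912 1045395039 1503240 3 eng mog cd0q1 cd4q1 pd0 false false false .npn 1 0 1
    ndB0q1 ndB4q1 pcB0 cut_mm_101 Ext.none :=
  certB1 (fam := false) (s1 := false) (s2 := false) (a := 1) (b := 0) (c := 1) (cn := .npn) (n1 := ndB0q1) (n2 := ndB4q1) (pc := pcB0) (cut := cut_mm_101) (xt := Ext.none) (P1 := 536870912) (W1 := 536870912) (P2 := 536870912) (W2 := 536870912) (P3 := 1045395039) (W3 := 1503240) (N0 := 3) (En := eng) (mo := mog) (C1 := cd0q1) (C2 := cd4q1) (C3 := pd0)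
    rfl (fun _ => rfl) k0_mm_101

noncomputable def f_mm_102 : ℕ → ℕ → ℕ → ℕ → Bool := onCell 536870912 536870912 0 536870912 1045395039 1503240
    (rowB 3 eng mog cd0q1 cd4q2 pd0 1 false false false .npp 1 0 2 (qsf 536870912 536870912 1073741824 536870912 0) ndB0q1 ndB4q2 pcB0 Cut.none Ext.none)

def k0_mm_102 : ∃ t, chk3 f_mm_102 t 1 1 1 = true :=
  ⟨(l 3), by decide +kernel⟩

theorem c_mm_102 : CertB 536870912 536870912 1073741824 536870912 1045395039 1503240 3 eng mog cd0q1 cd4q2 pd0 false false false .npp 1 0 2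
    ndB0q1 ndB4q2 pcB0 Cut.none Ext.none :=
  certB1 (fam := false) (s1 := false) (s2 := false) (a := 1) (b := 0) (c := 2) (cn := .npp) (n1 := ndB0q1) (n2 := ndB4q2) (pc := pcB0) (cut := Cut.none) (xt := Ext.none) (P1 := 536870912) (W1 := 536870912) (P2 := 1073741824) (W2 := 536870912) (P3 := 1045395039) (W3 := 1503240) (N0 := 3) (En := eng) (mo := mog) (C1 := cd0q1) (C2 := cd4q2) (C3 := pd0)
    rfl (fun _ => rfl) k0_mm_102

noncomputable def f_mm_112 : ℕ → ℕ → ℕ → ℕ → Bool := onCell 536870912 536870912 1073741824 536870912 1045395039 1503240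
    (rowB 3 eng mog cd0q1 cd4q2 pd1 2 false false false .dn 1 1 2 (qsf 536870912 536870912 1073741824 536870912 1) ndB0q1 ndB4q2 pcB1 Cut.none Ext.none)

def k0_mm_112 : ∃ t, chk3 f_mm_112 t 1 1 1 = true :=
  ⟨(l 5), by decide +kernel⟩

theorem c_mm_112 : CertB 536870912 536870912 1073741824 536870912 1045395039 1503240 3 eng mog cd0q1 cd4q2 pd1 false false false .dn 1 1 2
    ndB0q1 ndB4q2 pcB1 Cut.none Ext.none :=
  certB2 (fam := false) (s1 := false) (s2 := false) (a := 1) (b := 1) (c := 2) (cn := .dn) (n1 := ndB0q1) (n2 := ndB4q2) (pc := pcB1) (cut := Cut.none) (xt := Ext.none) (P1 := 536870912) (W1 := 536870912) (P2 := 1073741824) (W2 := 536870912) (P3 := 1045395039) (W3 := 1503240) (N0 := 3) (En := eng) (mo := mog) (C1 := cd0q1) (C2 := cd4q2) (C3 := pd1)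
    rfl (fun _ => rfl) k0_mm_112

noncomputable def f_mm_113 : ℕ → ℕ → ℕ → ℕ → Bool := onCell 536870912 536870912 0 1230186008 1045395039 1503240
    (rowB 3 eng mog cd0q1 cd4q3 pd1 0 false false false .nn 1 1 3 (qsf 536870912 536870912 0 1230186008 1) ndB0q1 ndB4q3 pcB1 Cut.none Ext.none)

def k0_mm_113 : ∃ t, chk3 f_mm_113 t 1 1 1 = true :=
  ⟨(b (l 5) (l 5)), by decide +kernel⟩

theorem c_mm_113 : CertB 536870912 536870912 0 1230186008 1045395039 1503240 3 eng mog cd0q1 cd4q3 pd1 false false false .nn 1 1 3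
    ndB0q1 ndB4q3 pcB1 Cut.none Ext.none :=
  certB0 (fam := false) (s1 := false) (s2 := false) (a := 1) (b := 1) (c := 3) (cn := .nn) (n1 := ndB0q1) (n2 := ndB4q3) (pc := pcB1) (cut := Cut.none) (xt := Ext.none) (P1 := 536870912) (W1 := 536870912) (P2 := 0) (W2 := 1230186008) (P3 := 1045395039) (W3 := 1503240) (N0 := 3) (En := eng) (mo := mog) (C1 := cd0q1) (C2 := cd4q3) (C3 := pd1)
    rfl k0_mm_113

noncomputable def f_mm_123 : ℕ → ℕ → ℕ → ℕ → Bool := onCell 536870912 536870912 0 1230186008 1045395039 1503240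
    (rowB 3 eng mog cd0q1 cd4q3 pd2 0 false false false .npn 1 2 3 (qsf 536870912 536870912 0 1230186008 2) ndB0q1 ndB4q3 pcB2 Cut.none Ext.none)

def k0_mm_123 : ∃ t, chk3 f_mm_123 t 1 1 1 = true :=
  ⟨(b (l 5) (l 5)), by decide +kernel⟩

theorem c_mm_123 : CertB 536870912 536870912 0 1230186008 1045395039 1503240 3 eng mog cd0q1 cd4q3 pd2 false false false .npn 1 2 3
    ndB0q1 ndB4q3 pcB2 Cut.none Ext.none :=
  certB0 (fam := false) (s1 := false) (s2 := false) (a := 1) (b := 2) (c := 3) (cn := .npn) (n1 := ndB0q1) (n2 := ndB4q3) (pc := pcB2) (cut := Cut.none) (xt := Ext.none) (P1 := 536870912) (W1 := 536870912) (P2 := 0) (W2 := 1230186008) (P3 := 1045395039) (W3 := 1503240) (N0 := 3) (En := eng) (mo := mog) (C1 := cd0q1) (C2 := cd4q3) (C3 := pd2)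
    rfl k0_mm_123

noncomputable def f_mm_133 : ℕ → ℕ → ℕ → ℕ → Bool := onCell 1610612736 536870912 0 1230186008 1045395039 1503240
    (rowB 3 eng mog cd0q1 cd4q3 pd3 2 false false false .dn 1 3 3 (qsf 536870912 536870912 0 1230186008 3) ndB0q1 ndB4q3 pcB3 Cut.none Ext.none)

def k0_mm_133 : ∃ t, chk3 f_mm_133 t 1 1 1 = true :=
  ⟨(l 5), by decide +kernel⟩

theorem c_mm_133 : CertB 536870912 536870912 0 1230186008 1045395039 1503240 3 eng mog cd0q1 cd4q3 pd3 false false false .dn 1 3 3
    ndB0q1 ndB4q3 pcB3 Cut.none Ext.none :=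
  certB2 (fam := false) (s1 := false) (s2 := false) (a := 1) (b := 3) (c := 3) (cn := .dn) (n1 := ndB0q1) (n2 := ndB4q3) (pc := pcB3) (cut := Cut.none) (xt := Ext.none) (P1 := 536870912) (W1 := 536870912) (P2 := 0) (W2 := 1230186008) (P3 := 1045395039) (W3 := 1503240) (N0 := 3) (En := eng) (mo := mog) (C1 := cd0q1) (C2 := cd4q3) (C3 := pd3)
    rfl (fun _ => rfl) k0_mm_133

noncomputable def f_mm_202 : ℕ → ℕ → ℕ → ℕ → Bool := onCell 0 536870912 1073741824 536870912 1045395039 1503240
    (rowB 3 eng mog cd0q2 cd4q2 pd0 0 false false false .pp 2 0 2 (qsf 0 536870912 1073741824 536870912 0) ndB0q2 ndB4q2 pcB0 Cut.none Ext.none)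

def k0_mm_202 : ∃ t, chk3 f_mm_202 t 1 1 1 = true :=
  ⟨(l 3), by decide +kernel⟩

theorem c_mm_202 : CertB 0 536870912 1073741824 536870912 1045395039 1503240 3 eng mog cd0q2 cd4q2 pd0 false false false .pp 2 0 2
    ndB0q2 ndB4q2 pcB0 Cut.none Ext.none :=
  certB0 (fam := false) (s1 := false) (s2 := false) (a := 2) (b := 0) (c := 2) (cn := .pp) (n1 := ndB0q2) (n2 := ndB4q2) (pc := pcB0) (cut := Cut.none) (xt := Ext.none) (P1 := 0) (W1 := 536870912) (P2 := 1073741824) (W2 := 536870912) (P3 := 1045395039) (W3 := 1503240) (N0 := 3) (En := eng) (mo := mog) (C1 := cd0q2) (C2 := cd4q2) (C3 := pd0)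
    rfl k0_mm_202

noncomputable def f_mm_203 : ℕ → ℕ → ℕ → ℕ → Bool := onCell 0 536870912 0 1230186008 1045395039 1503240
    (rowB 3 eng mog cd0q2 cd4q3 pd0 0 false false false .up 2 0 3 (qsf 0 536870912 0 1230186008 0) ndB0q2 ndB4q3 pcB0 Cut.none Ext.none)

def k0_mm_203 : ∃ t, chk3 f_mm_203 t 1 1 1 = true :=
  ⟨(b (l 2) (l 3)), by decide +kernel⟩

theorem c_mm_203 : CertB 0 536870912 0 1230186008 1045395039 1503240 3 eng mog cd0q2 cd4q3 pd0 false false false .up 2 0 3
    ndB0q2 ndB4q3 pcB0 Cut.none Ext.none :=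
  certB0 (fam := false) (s1 := false) (s2 := false) (a := 2) (b := 0) (c := 3) (cn := .up) (n1 := ndB0q2) (n2 := ndB4q3) (pc := pcB0) (cut := Cut.none) (xt := Ext.none) (P1 := 0) (W1 := 536870912) (P2 := 0) (W2 := 1230186008) (P3 := 1045395039) (W3 := 1503240) (N0 := 3) (En := eng) (mo := mog) (C1 := cd0q2) (C2 := cd4q3) (C3 := pd0)
    rfl k0_mm_203

noncomputable def f_mm_213 : ℕ → ℕ → ℕ → ℕ → Bool := onCell 0 536870912 0 1230186008 1045395039 1503240
    (rowB 3 eng mog cd0q2 cd4q3 pd1 0 false false false .pnn 2 1 3 (qsf 0 536870912 0 1230186008 1) ndB0q2 ndB4q3 pcB1 Cut.none Ext.none)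

def k0_mm_213 : ∃ t, chk3 f_mm_213 t 1 1 1 = true :=
  ⟨(b (a (l 3) (l 5)) (l 3)), by decide +kernel⟩

theorem c_mm_213 : CertB 0 536870912 0 1230186008 1045395039 1503240 3 eng mog cd0q2 cd4q3 pd1 false false false .pnn 2 1 3
    ndB0q2 ndB4q3 pcB1 Cut.none Ext.none :=
  certB0 (fam := false) (s1 := false) (s2 := false) (a := 2) (b := 1) (c := 3) (cn := .pnn) (n1 := ndB0q2) (n2 := ndB4q3) (pc := pcB1) (cut := Cut.none) (xt := Ext.none) (P1 := 0) (W1 := 536870912) (P2 := 0) (W2 := 1230186008) (P3 := 1045395039) (W3 := 1503240) (N0 := 3) (En := eng) (mo := mog) (C1 := cd0q2) (C2 := cd4q3) (C3 := pd1)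
    rfl k0_mm_213

end Pool.Agent.Strip051.G.I9736_9750.Tab.C.BB04

namespace Pool.Agent.Strip051.G.I9736_9750.Tab.C.BB05

open Pool.Agent.Strip051.PB Pool.Agent.Strip051.PB.T
open Pool.Agent.Strip051.G.I9736_9750.Tab

noncomputable def f_pp_001 : ℕ → ℕ → ℕ → ℕ → Bool := onCell 0 536870912 0 536870912 1045395039 1503240
    (rowB 3 eng mog cd0q0 cd5q1 pd0 1 false true true .up 0 0 1 (qsf 0 536870912 536870912 536870912 0) ndB0q0 ndB5q1 pcB0 Cut.none Ext.none)

def k0_pp_001 : ∃ t, chk3 f_pp_001 t 1 1 1 = true :=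
  ⟨(l 3), by decide +kernel⟩

theorem c_pp_001 : CertB 0 536870912 536870912 536870912 1045395039 1503240 3 eng mog cd0q0 cd5q1 pd0 false true true .up 0 0 1
    ndB0q0 ndB5q1 pcB0 Cut.none Ext.none :=
  certB1 (fam := false) (s1 := true) (s2 := true) (a := 0) (b := 0) (c := 1) (cn := .up) (n1 := ndB0q0) (n2 := ndB5q1) (pc := pcB0) (cut := Cut.none) (xt := Ext.none) (P1 := 0) (W1 := 536870912) (P2 := 536870912) (W2 := 536870912) (P3 := 1045395039) (W3 := 1503240) (N0 := 3) (En := eng) (mo := mog) (C1 := cd0q0) (C2 := cd5q1) (C3 := pd0)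
    rfl (fun _ => rfl) k0_pp_001

noncomputable def cut_pp_011 : Cut := Cut.of [[⟨0, 0, 0, 26843545⟩, ⟨1, 1, 0, 26843545⟩, ⟨2, 1, 0, 26843545⟩]]

noncomputable def f_pp_011 : ℕ → ℕ → ℕ → ℕ → Bool := onCell 0 536870912 536870912 536870912 1045395039 1503240
    (rowB 3 eng mog cd0q0 cd5q1 pd1 1 false true true .pnn 0 1 1 (qsf 0 536870912 536870912 536870912 1) ndB0q0 ndB5q1 pcB1 cut_pp_011 Ext.none)

def k0_pp_011 : ∃ t, chk3 f_pp_011 t 1 1 1 = true :=
  ⟨(a (b (l 3) (b (l 3) (a (b (l 3) (a (b (l 3) (a (b (l 3) (a (l 6) (l 3))) (l 3))) (l 3))) (l 3)))) (l 3)), by decide +kernel⟩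

theorem c_pp_011 : CertB 0 536870912 536870912 536870912 1045395039 1503240 3 eng mog cd0q0 cd5q1 pd1 false true true .pnn 0 1 1
    ndB0q0 ndB5q1 pcB1 cut_pp_011 Ext.none :=
  certB1 (fam := false) (s1 := true) (s2 := true) (a := 0) (b := 1) (c := 1) (cn := .pnn) (n1 := ndB0q0) (n2 := ndB5q1) (pc := pcB1) (cut := cut_pp_011) (xt := Ext.none) (P1 := 0) (W1 := 536870912) (P2 := 536870912) (W2 := 536870912) (P3 := 1045395039) (W3 := 1503240) (N0 := 3) (En := eng) (mo := mog) (C1 := cd0q0) (C2 := cd5q1) (C3 := pd1)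
    rfl (fun _ => rfl) k0_pp_011

noncomputable def f_pp_012 : ℕ → ℕ → ℕ → ℕ → Bool := onCell 0 536870912 536870912 536870912 1045395039 1503240
    (rowB 3 eng mog cd0q0 cd5q2 pd1 1 false true true .pnp 0 1 2 (qsf 0 536870912 1073741824 536870912 1) ndB0q0 ndB5q2 pcB1 Cut.none Ext.none)

def k0_pp_012 : ∃ t, chk3 f_pp_012 t 1 1 1 = true :=
  ⟨(l 3), by decide +kernel⟩

theorem c_pp_012 : CertB 0 536870912 1073741824 536870912 1045395039 1503240 3 eng mog cd0q0 cd5q2 pd1 false true true .pnp 0 1 2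
    ndB0q0 ndB5q2 pcB1 Cut.none Ext.none :=
  certB1 (fam := false) (s1 := true) (s2 := true) (a := 0) (b := 1) (c := 2) (cn := .pnp) (n1 := ndB0q0) (n2 := ndB5q2) (pc := pcB1) (cut := Cut.none) (xt := Ext.none) (P1 := 0) (W1 := 536870912) (P2 := 1073741824) (W2 := 536870912) (P3 := 1045395039) (W3 := 1503240) (N0 := 3) (En := eng) (mo := mog) (C1 := cd0q0) (C2 := cd5q2) (C3 := pd1)
    rfl (fun _ => rfl) k0_pp_012

noncomputable def f_pp_022 : ℕ → ℕ → ℕ → ℕ → Bool := onCell 0 536870912 1073741824 536870912 1045395039 1503240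
    (rowB 3 eng mog cd0q0 cd5q2 pd2 1 false true true .pp 0 2 2 (qsf 0 536870912 1073741824 536870912 2) ndB0q0 ndB5q2 pcB2 Cut.none Ext.none)

def k0_pp_022 : ∃ t, chk3 f_pp_022 t 2 2 1 = true :=
  ⟨(b (l 3) (b (b (b (a (l 3) (l 3)) (a (a (b (a (a (l 16341528) (l 16125624)) (b (l 3) (l 15761032))) (a (b (a (l 16323064) (l 16153352)) (a (l 16205224) (b (l 16115328) (l 16089616)))) (b (a (l 15953672) (l 15770664)) (a (l 15863344) (l 15725584))))) (b (a (a (l 198807492103) (l 510192321399)) (l 3)) (b (a (a (l 15600488) (l 15399592)) (a (b (l 15301976) (l 15283264)) (b (l 15161360) (l 15143976)))) (a (a (l 15558096) (l 15401792)) (a (l 15255496) (l 15118176)))))) (b (l 3) (b (a (b (l 3) (a (l 14995064) (l 14734048))) (l 3)) (a (a (a (l 14990240) (l 14872544)) (l 14715048)) (a (l 14539320) (l 14401856))))))) (a (a (a (a (l 15930312) (l 15672608)) (a (l 15656712) (l 15404808))) (a (a (b (l 15454888) (l 15297792)) (b (l 15305208) (l 15158648))) (a (b (l 15165488) (l 15029392)) (b (l 15034728) (l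 14909064))))) (a (a (b (a (l 14913320) (l 14802080)) (l 14809392)) (b (a (l 14700856) (l 14609512)) (l 14564272))) (a (b (l 14469920) (l 14420720)) (a (l 14385280) (l 14315592)))))) (a (a (a (a (b (l 15696664) (l 15354816)) (b (l 15523384) (l 15203656))) (b (a (l 15361472) (l 15215040)) (l 14958144))) (a (b (a (l 15080784) (l 14957320)) (l 14668080)) (b (a (l 14843616) (l 14738784)) (l 14586056)))) (a (a (b (b (l 14645856) (l 14554640)) (l 14435400)) (b (a (l 14481264) (l 14414712)) (l 14322416))) (a (b (l 14311744) (l 14246008)) (b (l 14254736) (l 14204680))))))), by decide +kernel⟩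

def k1_pp_022 : ∃ t, chk3 f_pp_022 t 2 3 1 = true :=
  ⟨(a (a (b (a (b (a (l 14915696) (l 14797528)) (a (l 14462464) (l 14386968))) (b (b (l 14751760) (l 14541104)) (l 14294312))) (a (b (l 14135536) (a (l 13976896) (l 13980376))) (b (l 14085072) (l 14007056)))) (b (b (a (b (l 14565776) (l 14395472)) (b (l 14418984) (l 14287864))) (a (l 14207528) (l 14135848))) (b (a (l 14072704) (b (l 14096544) (l 14097464))) (b (l 14095176) (l 2))))) (b (a (b (a (b (l 14307712) (l 14214968)) (l 14180984)) (a (b (l 14155736) (l 14128456)) (l 14259672))) (b (a (b (l 14193384) (l 14173328)) (b (l 14187472) (l 14201472))) (b (l 14194088) (l 2)))) (b (a (a (l 14132648) (l 2)) (l 2)) (l 2)))), by decide +kernel⟩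

def k2_pp_022 : ∃ t, chk3 f_pp_022 t 3 1 1 = true :=
  ⟨(b (b (l 3) (b (b (b (l 3) (a (b (l 3) (b (l 3) (a (a (l 14301304) (l 14236208)) (a (l 14205000) (l 14206008))))) (l 2))) (a (a (a (b (l 14276688) (l 14244160)) (b (l 14222904) (l 14208200))) (a (b (l 14202560) (l 14204944)) (l 14222680))) (l 2))) (a (a (a (b (l 14211656) (l 14196816)) (b (l 14201864) (l 14220696))) (b (a (l 14223632) (l 2)) (l 2))) (l 2)))) (b (a (b (a (b (l 14218712) (l 2)) (l 2)) (l 2)) (l 2)) (l 2))), by decide +kernel⟩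

theorem s3_pp_022 : ∃ t, chk3 f_pp_022 t 2 1 1 = true := ex3_b k0_pp_022 k1_pp_022

theorem s4_pp_022 : ∃ t, chk3 f_pp_022 t 1 1 1 = true := ex3_a s3_pp_022 k2_pp_022

theorem c_pp_022 : CertB 0 536870912 1073741824 536870912 1045395039 1503240 3 eng mog cd0q0 cd5q2 pd2 false true true .pp 0 2 2
    ndB0q0 ndB5q2 pcB2 Cut.none Ext.none :=
  certB1 (fam := false) (s1 := true) (s2 := true) (a := 0) (b := 2) (c := 2) (cn := .pp) (n1 := ndB0q0) (n2 := ndB5q2) (pc := pcB2) (cut := Cut.none) (xt := Ext.none) (P1 := 0) (W1 := 536870912) (P2 := 1073741824) (W2 := 536870912) (P3 := 1045395039) (W3 := 1503240) (N0 := 3) (En := eng) (mo := mog) (C1 := cd0q0) (C2 := cd5q2) (C3 := pd2)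
    rfl (fun _ => rfl) s4_pp_022

noncomputable def f_pp_023 : ℕ → ℕ → ℕ → ℕ → Bool := onCell 1073741824 536870912 0 1230186008 1045395039 1503240
    (rowB 3 eng mog cd0q0 cd5q3 pd2 2 false true true .up 0 2 3 (qsf 0 536870912 0 1230186008 2) ndB0q0 ndB5q3 pcB2 Cut.none Ext.none)

def k0_pp_023 : ∃ t, chk3 f_pp_023 t 1 1 1 = true :=
  ⟨(a (b (l 2) (b (a (l 2) (a (l 2) (b (l 2) (b (l 2) (a (l 2) (l 16527504)))))) (a (l 3) (a (b (b (a (l 2) (l 288399906471)) (b (a (l 2) (l 16627656)) (a (a (l 3) (a (l 90294584215) (a (l 16605016) (a (l 16606192) (l 16607288))))) (l 16614864)))) (a (a (l 3) (a (b (b (l 171966064295) (l 3)) (l 3)) (b (a (b (l 16605424) (l 16612000)) (l 16608832)) (a (l 16635760) (l 16625712))))) (b (b (l 16611008) (l 16615424)) (b (l 16597864) (l 16557528))))) (b (b (a (l 16580568) (l 16522968)) (a (l 16577456) (l 16509584))) (b (b (l 16526240) (l 16504120)) (b (l 16448416) (l 16418136)))))))) (b (a (l 2) (b (a (l 2) (l 14267648)) (a (b (a (l 2) (l 15119912)) (b (a (l 2) (l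 15421872)) (a (l 15871944) (l 15711680)))) (b (l 14953896) (b (a (l 15309928) (l 15201672)) (a (l 15547624) (l 15422080))))))) (b (a (b (a (l 2) (b (l 16167616) (l 16258552))) (a (b (a (l 16485696) (l 16430272)) (l 16448776)) (b (a (l 16361400) (l 16278776)) (b (l 16330304) (l 16316120))))) (b (a (b (a (l 16030392) (l 15904792)) (l 16085808)) (b (a (b (l 15761920) (l 15866136)) (l 15686192)) (a (l 15951032) (l 15785856)))) (a (b (l 16147312) (b (l 16160568) (l 16150176))) (b (l 15962008) (l 15959952))))) (b (a (a (b (l 16406520) (l 16333288)) (b (l 16279264) (l 16221016))) (b (a (l 16099048) (b (l 15909440) (l 15854376))) (a (l 16011328) (l 15761176)))) (a (b (a (b (l 16360000) (l 16324488)) (l 16096688)) (a (l 16053640) (l 15818832))) (b (a (l 15897784) (b (l 15651296) (l 15574256))) (a (b (l 15780856) (l 15684736)) (b (l 15490424) (a (a (l 15498120) (l 15418368)) (b (l 15094912) (l 15243488))))))))))), by decide +kernel⟩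

theorem c_pp_023 : CertB 0 536870912 0 1230186008 1045395039 1503240 3 eng mog cd0q0 cd5q3 pd2 false true true .up 0 2 3
    ndB0q0 ndB5q3 pcB2 Cut.none Ext.none :=
  certB2 (fam := false) (s1 := true) (s2 := true) (a := 0) (b := 2) (c := 3) (cn := .up) (n1 := ndB0q0) (n2 := ndB5q3) (pc := pcB2) (cut := Cut.none) (xt := Ext.none) (P1 := 0) (W1 := 536870912) (P2 := 0) (W2 := 1230186008) (P3 := 1045395039) (W3 := 1503240) (N0 := 3) (En := eng) (mo := mog) (C1 := cd0q0) (C2 := cd5q3) (C3 := pd2)
    rfl (fun _ => rfl) k0_pp_023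

noncomputable def f_pp_033 : ℕ → ℕ → ℕ → ℕ → Bool := onCell 0 536870912 0 1230186008 1045395039 1503240
    (rowB 3 eng mog cd0q0 cd5q3 pd3 0 false true true .pnn 0 3 3 (qsf 0 536870912 0 1230186008 3) ndB0q0 ndB5q3 pcB3 Cut.none Ext.none)

def k0_pp_033 : ∃ t, chk3 f_pp_033 t 1 2 1 = true :=
  ⟨(b (a (b (l 4) (a (l 4) (a (l 35665743079) (l 15837648)))) (a (a (b (l 16053608) (l 15930504)) (b (l 16116912) (l 15992896))) (a (b (l 16161064) (l 16048512)) (b (l 16219304) (l 16140120))))) (a (a (a (b (l 4) (a (b (l 4) (a (b (l 4) (l 14590568)) (b (l 14743656) (l 14708288)))) (b (b (l 4) (l 14934336)) (b (l 14937328) (l 14865384))))) (b (b (l 4) (a (l 15212408) (l 15331584))) (b (a (b (l 15129256) (l 15093440)) (b (l 15263736) (l 15233992))) (a (b (l 15063008) (l 15037488)) (b (l 15206064) (l 15180088)))))) (a (b (b (l 15572528) (a (l 15439136) (l 15535128))) (b (a (l 15370880) (l 15470528)) (a (l 15311904) (l 15412032)))) (b (b (l 15717744) (a (l 15619496) (l 15684472))) (l 15537656)))) (a (b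 (a (b (l 15827000) (l 15759192)) (l 15879104)) (a (l 15702456) (l 15844080))) (b (l 16033320) (a (l 15979792) (b (l 16104176) (l 1))))))), by decide +kernel⟩

def k1_pp_033 : ∃ t, chk3 f_pp_033 t 2 6 1 = true :=
  ⟨(a (a (b (a (b (b (a (l 14555880) (l 14676192)) (a (l 14533256) (l 14666728))) (a (l 14585736) (l 14716792))) (b (b (a (l 14790984) (l 14891784)) (l 14844440)) (l 14879960))) (b (a (a (l 14713048) (l 14822720)) (l 14963752)) (b (a (a (l 14807640) (b (l 14899968) (l 14926160))) (b (l 15024752) (l 15038880))) (a (a (l 14855464) (l 14934568)) (b (l 15044656) (a (l 15007536) (b (l 15078824) (l 15063416)))))))) (b (b (a (b (l 15021824) (l 15021120)) (l 15161976)) (a (l 15044808) (l 15181784))) (b (a (b (l 15091656) (b (l 15121480) (l 15140816))) (b (a (l 15190744) (l 15254136)) (b (l 15247944) (l 15262840)))) (b (a (a (l 15129816) (l 15190408)) (b (l 15276040) (a (l 15233616) (b (l 15315344) (l 15313672))))) (a (b (a (l 15117552) (b (l 15200928) (l 15193224))) (a (l 15114648) (l 15150440)))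 (b (a (l 15223168) (l 15289000)) (l 15219520))))))) (b (a (b (l 15342136) (a (l 15306512) (l 15420632))) (b (l 15540048) (a (l 15525584) (l 15624864)))) (a (b (a (b (l 15345088) (l 15376632)) (b (l 15460240) (b (l 15485200) (a (l 15472808) (l 15509784))))) (b (a (b (a (l 15346520) (b (l 15425352) (l 15428568))) (b (l 15355560) (l 15388512))) (b (l 15448440) (l 15507928))) (a (b (l 15369792) (l 15334504)) (l 15481048)))) (b (b (a (l 15569912) (b (l 15665488) (a (l 15660208) (l 15696240)))) (a (b (b (l 15593232) (l 15603728)) (l 15620728)) (l 15739552))) (a (b (l 15638080) (l 15620904)) (b (l 15777000) (l 15769056))))))), by decide +kernel⟩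

def k2_pp_033 : ∃ t, chk3 f_pp_033 t 3 6 1 = true :=
  ⟨(a (b (b (a (l 15716904) (l 15880680)) (a (b (l 15749112) (a (l 15739496) (b (l 15824024) (a (l 15823248) (l 15884520))))) (b (a (l 15890216) (b (l 15966600) (l 16011144))) (a (b (l 15934080) (l 16002504)) (l 1))))) (b (a (a (b (b (a (l 15744232) (l 15802376)) (l 15820896)) (l 15881320)) (b (l 15941632) (l 16030520))) (b (a (l 16096552) (l 1)) (l 1))) (a (b (a (l 15923768) (l 16074440)) (a (l 15921464) (l 1))) (l 1)))) (b (b (a (b (l 16007024) (l 1)) (l 1)) (l 1)) (l 1))), by decide +kernel⟩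

def k3_pp_033 : ∃ t, chk3 f_pp_033 t 1 7 1 = true :=
  ⟨(a (a (b (a (b (b (a (b (a (l 14842888) (b (l 14929352) (l 14903584))) (a (l 14781120) (l 14818992))) (b (a (l 14966984) (l 15000600)) (l 14885328))) (a (a (l 14579136) (l 14631664)) (b (l 14775872) (l 14654584)))) (a (b (a (l 14267832) (l 14339392)) (b (a (l 14105552) (b (l 14139224) (l 14141408))) (l 14157248))) (b (b (l 14521944) (b (l 14415144) (l 14349176))) (b (b (l 14345456) (l 14394024)) (l 14494664))))) (b (b (a (b (l 15060776) (l 14978360)) (b (l 15161816) (l 15092520))) (a (b (l 14884256) (l 14778872)) (b (l 15011960) (l 14920600)))) (b (a (b (l 14662736) (b (a (l 14529864) (l 14632848)) (l 14594072))) (b (b (l 14842688) (l 14692936)) (l 14858208))) (a (l 14726080) (l 14999752))))) (a (b (a (b (l 14274624) (l 14755160)) (b (l 14710712) (l 15025824))) (b (a (l 15136624) (l 15364304)) (a (l 15283456) (l 15573384)))) (b (b (a (l 14976272) (l 15218128)) (a (l 15254088) (l 15461120))) (b (b (l 15569400) (l 1)) (l 1))))) (b (b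 (a (b (a (b (l 15287664) (l 15229560)) (l 15405304)) (a (b (l 15160592) (b (l 15101944) (l 15061784))) (b (l 15320072) (b (l 15277664) (l 15278824))))) (b (a (l 15559160) (b (l 15734336) (l 15700488))) (a (b (a (l 15445872) (l 15540496)) (l 15505144)) (l 1)))) (a (b (a (b (b (l 15052416) (l 15073496)) (l 15129680)) (l 15346136)) (a (l 15254032) (l 15483728))) (l 1))) (b (a (b (a (l 15442760) (l 1)) (l 1)) (l 1)) (l 1)))) (l 1)), by decide +kernel⟩

theorem s4_pp_033 : ∃ t, chk3 f_pp_033 t 1 6 1 = true := ex3_a k1_pp_033 k2_pp_033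

theorem s5_pp_033 : ∃ t, chk3 f_pp_033 t 1 3 1 = true := ex3_b s4_pp_033 k3_pp_033

theorem s6_pp_033 : ∃ t, chk3 f_pp_033 t 1 1 1 = true := ex3_b k0_pp_033 s5_pp_033

theorem c_pp_033 : CertB 0 536870912 0 1230186008 1045395039 1503240 3 eng mog cd0q0 cd5q3 pd3 false true true .pnn 0 3 3
    ndB0q0 ndB5q3 pcB3 Cut.none Ext.none :=
  certB0 (fam := false) (s1 := true) (s2 := true) (a := 0) (b := 3) (c := 3) (cn := .pnn) (n1 := ndB0q0) (n2 := ndB5q3) (pc := pcB3) (cut := Cut.none) (xt := Ext.none) (P1 := 0) (W1 := 536870912) (P2 := 0) (W2 := 1230186008) (P3 := 1045395039) (W3 := 1503240) (N0 := 3) (En := eng) (mo := mog) (C1 := cd0q0) (C2 := cd5q3) (C3 := pd3)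
    rfl s6_pp_033

noncomputable def f_pp_101 : ℕ → ℕ → ℕ → ℕ → Bool := onCell 536870912 536870912 536870912 536870912 1045395039 1503240
    (rowB 3 eng mog cd0q1 cd5q1 pd0 0 false true true .npn 1 0 1 (qsf 536870912 536870912 536870912 536870912 0) ndB0q1 ndB5q1 pcB0 Cut.none Ext.none)

def k0_pp_101 : ∃ t, chk3 f_pp_101 t 1 1 1 = true :=
  ⟨(a (l 3) (l 5)), by decide +kernel⟩

theorem c_pp_101 : CertB 536870912 536870912 536870912 536870912 1045395039 1503240 3 eng mog cd0q1 cd5q1 pd0 false true true .npn 1 0 1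
    ndB0q1 ndB5q1 pcB0 Cut.none Ext.none :=
  certB0 (fam := false) (s1 := true) (s2 := true) (a := 1) (b := 0) (c := 1) (cn := .npn) (n1 := ndB0q1) (n2 := ndB5q1) (pc := pcB0) (cut := Cut.none) (xt := Ext.none) (P1 := 536870912) (W1 := 536870912) (P2 := 536870912) (W2 := 536870912) (P3 := 1045395039) (W3 := 1503240) (N0 := 3) (En := eng) (mo := mog) (C1 := cd0q1) (C2 := cd5q1) (C3 := pd0)
    rfl k0_pp_101

noncomputable def f_pp_102 : ℕ → ℕ → ℕ → ℕ → Bool := onCell 536870912 536870912 1073741824 536870912 1045395039 1503240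
    (rowB 3 eng mog cd0q1 cd5q2 pd0 0 false true true .npp 1 0 2 (qsf 536870912 536870912 1073741824 536870912 0) ndB0q1 ndB5q2 pcB0 Cut.none Ext.none)

def k0_pp_102 : ∃ t, chk3 f_pp_102 t 1 1 1 = true :=
  ⟨(l 3), by decide +kernel⟩

theorem c_pp_102 : CertB 536870912 536870912 1073741824 536870912 1045395039 1503240 3 eng mog cd0q1 cd5q2 pd0 false true true .npp 1 0 2
    ndB0q1 ndB5q2 pcB0 Cut.none Ext.none :=
  certB0 (fam := false) (s1 := true) (s2 := true) (a := 1) (b := 0) (c := 2) (cn := .npp) (n1 := ndB0q1) (n2 := ndB5q2) (pc := pcB0) (cut := Cut.none) (xt := Ext.none) (P1 := 536870912) (W1 := 536870912) (P2 := 1073741824) (W2 := 536870912) (P3 := 1045395039) (W3 := 1503240) (N0 := 3) (En := eng) (mo := mog) (C1 := cd0q1) (C2 := cd5q2) (C3 := pd0)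
    rfl k0_pp_102

noncomputable def f_pp_112 : ℕ → ℕ → ℕ → ℕ → Bool := onCell 536870912 536870912 1073741824 536870912 1045395039 1503240
    (rowB 3 eng mog cd0q1 cd5q2 pd1 0 false true true .dn 1 1 2 (qsf 536870912 536870912 1073741824 536870912 1) ndB0q1 ndB5q2 pcB1 Cut.none Ext.none)

def k0_pp_112 : ∃ t, chk3 f_pp_112 t 1 1 1 = true :=
  ⟨(l 3), by decide +kernel⟩

theorem c_pp_112 : CertB 536870912 536870912 1073741824 536870912 1045395039 1503240 3 eng mog cd0q1 cd5q2 pd1 false true true .dn 1 1 2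
    ndB0q1 ndB5q2 pcB1 Cut.none Ext.none :=
  certB0 (fam := false) (s1 := true) (s2 := true) (a := 1) (b := 1) (c := 2) (cn := .dn) (n1 := ndB0q1) (n2 := ndB5q2) (pc := pcB1) (cut := Cut.none) (xt := Ext.none) (P1 := 536870912) (W1 := 536870912) (P2 := 1073741824) (W2 := 536870912) (P3 := 1045395039) (W3 := 1503240) (N0 := 3) (En := eng) (mo := mog) (C1 := cd0q1) (C2 := cd5q2) (C3 := pd1)
    rfl k0_pp_112

noncomputable def cut_pp_113 : Cut := Cut.of [[⟨0, 1, 0, 14155776⟩, ⟨1, 1, 0, 14155776⟩, ⟨2, 2, 0, 524288⟩]]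

noncomputable def f_pp_113 : ℕ → ℕ → ℕ → ℕ → Bool := onCell 536870912 536870912 0 1230186008 1045395039 1503240
    (rowB 3 eng mog cd0q1 cd5q3 pd1 2 false true true .nn 1 1 3 (qsf 536870912 536870912 0 1230186008 1) ndB0q1 ndB5q3 pcB1 cut_pp_113 Ext.none)

def k0_pp_113 : ∃ t, chk3 f_pp_113 t 1 1 1 = true :=
  ⟨(b (a (l 2) (a (l 2) (b (a (l 2) (a (l 2) (b (a (l 2) (a (l 2) (b (b (l 6) (l 3)) (l 3)))) (l 3)))) (l 3)))) (b (a (a (l 2) (a (l 2) (b (l 2) (l 3)))) (l 3)) (a (b (a (l 2) (l 3)) (l 3)) (l 3)))), by decide +kernel⟩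

theorem c_pp_113 : CertB 536870912 536870912 0 1230186008 1045395039 1503240 3 eng mog cd0q1 cd5q3 pd1 false true true .nn 1 1 3
    ndB0q1 ndB5q3 pcB1 cut_pp_113 Ext.none :=
  certB2 (fam := false) (s1 := true) (s2 := true) (a := 1) (b := 1) (c := 3) (cn := .nn) (n1 := ndB0q1) (n2 := ndB5q3) (pc := pcB1) (cut := cut_pp_113) (xt := Ext.none) (P1 := 536870912) (W1 := 536870912) (P2 := 0) (W2 := 1230186008) (P3 := 1045395039) (W3 := 1503240) (N0 := 3) (En := eng) (mo := mog) (C1 := cd0q1) (C2 := cd5q3) (C3 := pd1)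
    rfl (fun _ => rfl) k0_pp_113

end Pool.Agent.Strip051.G.I9736_9750.Tab.C.BB05

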