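import Pool.Agent.Strip051.G.I9736_9750.Tab
import Pool.Agent.Strip051.PB.ExtD3

/-! # Certificates B17 (generated) -/

set_option linter.all false
set_option maxRecDepth 100000

namespace Pool.Agent.Strip051.G.I9736_9750.Tab.C.BB05

open Pool.Agent.Strip051.PB Pool.Agent.Strip051.PB.T
open Pool.Agent.Strip051.G.I9736_9750.Tab

noncomputable def f_pp_133 : ℕ → ℕ → ℕ → ℕ → Bool := onCell 536870912 536870912 0 1230186008 1045395039 1503240
    (rowB 3 eng mog cd0q1 cd5q3 pd3 0 false true true .dn 1 3 3 (qsf 536870912 536870912 0 1230186008 3) ndB0q1 ndB5q3 pcB3 Cut.none Ext.none)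

def k0_pp_133 : ∃ t, chk3 f_pp_133 t 1 1 1 = true :=
  ⟨(b (b (a (a (b (l 16357632) (l 1)) (l 1)) (l 1)) (l 1)) (l 1)), by decide +kernel⟩

theorem c_pp_133 : CertB 536870912 536870912 0 1230186008 1045395039 1503240 3 eng mog cd0q1 cd5q3 pd3 false true true .dn 1 3 3
    ndB0q1 ndB5q3 pcB3 Cut.none Ext.none :=
  certB0 (fam := false) (s1 := true) (s2 := true) (a := 1) (b := 3) (c := 3) (cn := .dn) (n1 := ndB0q1) (n2 := ndB5q3) (pc := pcB3) (cut := Cut.none) (xt := Ext.none) (P1 := 536870912) (W1 := 536870912) (P2 := 0) (W2 := 1230186008) (P3 := 1045395039) (W3 := 1503240) (N0 := 3) (En := eng) (mo := mog) (C1 := cd0q1) (C2 := cd5q3) (C3 := pd3)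
    rfl k0_pp_133

noncomputable def f_pp_202 : ℕ → ℕ → ℕ → ℕ → Bool := onCell 0 536870912 1073741824 536870912 1045395039 1503240
    (rowB 3 eng mog cd0q2 cd5q2 pd0 0 false true true .pp 2 0 2 (qsf 0 536870912 1073741824 536870912 0) ndB0q2 ndB5q2 pcB0 Cut.none Ext.none)

def k0_pp_202 : ∃ t, chk3 f_pp_202 t 1 1 1 = true :=
  ⟨(l 5), by decide +kernel⟩

theorem c_pp_202 : CertB 0 536870912 1073741824 536870912 1045395039 1503240 3 eng mog cd0q2 cd5q2 pd0 false true true .pp 2 0 2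
    ndB0q2 ndB5q2 pcB0 Cut.none Ext.none :=
  certB0 (fam := false) (s1 := true) (s2 := true) (a := 2) (b := 0) (c := 2) (cn := .pp) (n1 := ndB0q2) (n2 := ndB5q2) (pc := pcB0) (cut := Cut.none) (xt := Ext.none) (P1 := 0) (W1 := 536870912) (P2 := 1073741824) (W2 := 536870912) (P3 := 1045395039) (W3 := 1503240) (N0 := 3) (En := eng) (mo := mog) (C1 := cd0q2) (C2 := cd5q2) (C3 := pd0)
    rfl k0_pp_202

noncomputable def f_pp_203 : ℕ → ℕ → ℕ → ℕ → Bool := onCell 0 536870912 0 1230186008 1045395039 1503240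
    (rowB 3 eng mog cd0q2 cd5q3 pd0 0 false true true .up 2 0 3 (qsf 0 536870912 0 1230186008 0) ndB0q2 ndB5q3 pcB0 Cut.none Ext.none)

def k0_pp_203 : ∃ t, chk3 f_pp_203 t 1 1 1 = true :=
  ⟨(b (l 2) (a (b (l 2) (l 3)) (l 3))), by decide +kernel⟩

theorem c_pp_203 : CertB 0 536870912 0 1230186008 1045395039 1503240 3 eng mog cd0q2 cd5q3 pd0 false true true .up 2 0 3
    ndB0q2 ndB5q3 pcB0 Cut.none Ext.none :=
  certB0 (fam := false) (s1 := true) (s2 := true) (a := 2) (b := 0) (c := 3) (cn := .up) (n1 := ndB0q2) (n2 := ndB5q3) (pc := pcB0) (cut := Cut.none) (xt := Ext.none) (P1 := 0) (W1 := 536870912) (P2 := 0) (W2 := 1230186008) (P3 := 1045395039) (W3 := 1503240) (N0 := 3) (En := eng) (mo := mog) (C1 := cd0q2) (C2 := cd5q3) (C3 := pd0)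
    rfl k0_pp_203

noncomputable def cut_pp_213 : Cut := Cut.of [[⟨0, 1, 0, 14155776⟩, ⟨1, 1, 0, 14155776⟩, ⟨2, 2, 0, 524288⟩]]

noncomputable def f_pp_213 : ℕ → ℕ → ℕ → ℕ → Bool := onCell 0 536870912 0 1230186008 1045395039 1503240
    (rowB 3 eng mog cd0q2 cd5q3 pd1 0 false true true .pnn 2 1 3 (qsf 0 536870912 0 1230186008 1) ndB0q2 ndB5q3 pcB1 cut_pp_213 Ext.none)

def k0_pp_213 : ∃ t, chk3 f_pp_213 t 1 1 1 = true :=
  ⟨(b (b (a (l 3) (a (l 3) (a (l 3) (b (a (l 3) (a (l 3) (b (b (b (l 6) (l 3)) (l 3)) (l 3)))) (l 3))))) (l 3)) (a (b (l 3) (l 3)) (l 3))), by decide +kernel⟩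

theorem c_pp_213 : CertB 0 536870912 0 1230186008 1045395039 1503240 3 eng mog cd0q2 cd5q3 pd1 false true true .pnn 2 1 3
    ndB0q2 ndB5q3 pcB1 cut_pp_213 Ext.none :=
  certB0 (fam := false) (s1 := true) (s2 := true) (a := 2) (b := 1) (c := 3) (cn := .pnn) (n1 := ndB0q2) (n2 := ndB5q3) (pc := pcB1) (cut := cut_pp_213) (xt := Ext.none) (P1 := 0) (W1 := 536870912) (P2 := 0) (W2 := 1230186008) (P3 := 1045395039) (W3 := 1503240) (N0 := 3) (En := eng) (mo := mog) (C1 := cd0q2) (C2 := cd5q3) (C3 := pd1)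
    rfl k0_pp_213

noncomputable def f_pm_001 : ℕ → ℕ → ℕ → ℕ → Bool := onCell 0 536870912 536870912 536870912 1045395039 1503240
    (rowB 3 eng mog cd0q0 cd5q1 pd0 0 false true false .up 0 0 1 (qsf 0 536870912 536870912 536870912 0) ndB0q0 ndB5q1 pcB0 Cut.none Ext.none)

def k0_pm_001 : ∃ t, chk3 f_pm_001 t 1 1 1 = true :=
  ⟨(l 4), by decide +kernel⟩

theorem c_pm_001 : CertB 0 536870912 536870912 536870912 1045395039 1503240 3 eng mog cd0q0 cd5q1 pd0 false true false .up 0 0 1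
    ndB0q0 ndB5q1 pcB0 Cut.none Ext.none :=
  certB0 (fam := false) (s1 := true) (s2 := false) (a := 0) (b := 0) (c := 1) (cn := .up) (n1 := ndB0q0) (n2 := ndB5q1) (pc := pcB0) (cut := Cut.none) (xt := Ext.none) (P1 := 0) (W1 := 536870912) (P2 := 536870912) (W2 := 536870912) (P3 := 1045395039) (W3 := 1503240) (N0 := 3) (En := eng) (mo := mog) (C1 := cd0q0) (C2 := cd5q1) (C3 := pd0)
    rfl k0_pm_001

noncomputable def f_pm_011 : ℕ → ℕ → ℕ → ℕ → Bool := onCell 0 536870912 536870912 536870912 1045395039 1503240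
    (rowB 3 eng mog cd0q0 cd5q1 pd1 0 false true false .pnn 0 1 1 (qsf 0 536870912 536870912 536870912 1) ndB0q0 ndB5q1 pcB1 Cut.none Ext.none)

def k0_pm_011 : ∃ t, chk3 f_pm_011 t 1 1 1 = true :=
  ⟨(l 4), by decide +kernel⟩

theorem c_pm_011 : CertB 0 536870912 536870912 536870912 1045395039 1503240 3 eng mog cd0q0 cd5q1 pd1 false true false .pnn 0 1 1
    ndB0q0 ndB5q1 pcB1 Cut.none Ext.none :=
  certB0 (fam := false) (s1 := true) (s2 := false) (a := 0) (b := 1) (c := 1) (cn := .pnn) (n1 := ndB0q0) (n2 := ndB5q1) (pc := pcB1) (cut := Cut.none) (xt := Ext.none) (P1 := 0) (W1 := 536870912) (P2 := 536870912) (W2 := 536870912) (P3 := 1045395039) (W3 := 1503240) (N0 := 3) (En := eng) (mo := mog) (C1 := cd0q0) (C2 := cd5q1) (C3 := pd1)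
    rfl k0_pm_011

noncomputable def f_pm_012 : ℕ → ℕ → ℕ → ℕ → Bool := onCell 0 536870912 1073741824 536870912 1045395039 1503240
    (rowB 3 eng mog cd0q0 cd5q2 pd1 0 false true false .pnp 0 1 2 (qsf 0 536870912 1073741824 536870912 1) ndB0q0 ndB5q2 pcB1 Cut.none Ext.none)

def k0_pm_012 : ∃ t, chk3 f_pm_012 t 1 1 1 = true :=
  ⟨(l 4), by decide +kernel⟩

theorem c_pm_012 : CertB 0 536870912 1073741824 536870912 1045395039 1503240 3 eng mog cd0q0 cd5q2 pd1 false true false .pnp 0 1 2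
    ndB0q0 ndB5q2 pcB1 Cut.none Ext.none :=
  certB0 (fam := false) (s1 := true) (s2 := false) (a := 0) (b := 1) (c := 2) (cn := .pnp) (n1 := ndB0q0) (n2 := ndB5q2) (pc := pcB1) (cut := Cut.none) (xt := Ext.none) (P1 := 0) (W1 := 536870912) (P2 := 1073741824) (W2 := 536870912) (P3 := 1045395039) (W3 := 1503240) (N0 := 3) (En := eng) (mo := mog) (C1 := cd0q0) (C2 := cd5q2) (C3 := pd1)
    rfl k0_pm_012

noncomputable def f_pm_022 : ℕ → ℕ → ℕ → ℕ → Bool := onCell 0 536870912 1073741824 536870912 1045395039 1503240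
    (rowB 3 eng mog cd0q0 cd5q2 pd2 0 false true false .pp 0 2 2 (qsf 0 536870912 1073741824 536870912 2) ndB0q0 ndB5q2 pcB2 Cut.none Ext.none)

def k0_pm_022 : ∃ t, chk3 f_pm_022 t 1 1 1 = true :=
  ⟨(l 4), by decide +kernel⟩

theorem c_pm_022 : CertB 0 536870912 1073741824 536870912 1045395039 1503240 3 eng mog cd0q0 cd5q2 pd2 false true false .pp 0 2 2
    ndB0q0 ndB5q2 pcB2 Cut.none Ext.none :=
  certB0 (fam := false) (s1 := true) (s2 := false) (a := 0) (b := 2) (c := 2) (cn := .pp) (n1 := ndB0q0) (n2 := ndB5q2) (pc := pcB2) (cut := Cut.none) (xt := Ext.none) (P1 := 0) (W1 := 536870912) (P2 := 1073741824) (W2 := 536870912) (P3 := 1045395039) (W3 := 1503240) (N0 := 3) (En := eng) (mo := mog) (C1 := cd0q0) (C2 := cd5q2) (C3 := pd2)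
    rfl k0_pm_022

noncomputable def f_pm_023 : ℕ → ℕ → ℕ → ℕ → Bool := onCell 0 536870912 0 1230186008 1045395039 1503240
    (rowB 3 eng mog cd0q0 cd5q3 pd2 0 false true false .up 0 2 3 (qsf 0 536870912 0 1230186008 2) ndB0q0 ndB5q3 pcB2 Cut.none Ext.none)

def k0_pm_023 : ∃ t, chk3 f_pm_023 t 1 1 1 = true :=
  ⟨(a (b (l 2) (l 4)) (b (a (l 2) (b (a (l 2) (a (l 2) (b (l 14052648) (l 15119168)))) (a (l 4) (b (a (b (l 15832160) (l 4)) (b (l 15620904) (l 15733616))) (l 4))))) (l 4))), by decide +kernel⟩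

theorem c_pm_023 : CertB 0 536870912 0 1230186008 1045395039 1503240 3 eng mog cd0q0 cd5q3 pd2 false true false .up 0 2 3
    ndB0q0 ndB5q3 pcB2 Cut.none Ext.none :=
  certB0 (fam := false) (s1 := true) (s2 := false) (a := 0) (b := 2) (c := 3) (cn := .up) (n1 := ndB0q0) (n2 := ndB5q3) (pc := pcB2) (cut := Cut.none) (xt := Ext.none) (P1 := 0) (W1 := 536870912) (P2 := 0) (W2 := 1230186008) (P3 := 1045395039) (W3 := 1503240) (N0 := 3) (En := eng) (mo := mog) (C1 := cd0q0) (C2 := cd5q3) (C3 := pd2)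
    rfl k0_pm_023

noncomputable def f_pm_033 : ℕ → ℕ → ℕ → ℕ → Bool := onCell 1610612736 536870912 0 1230186008 1045395039 1503240
    (rowB 3 eng mog cd0q0 cd5q3 pd3 2 false true false .pnn 0 3 3 (qsf 0 536870912 0 1230186008 3) ndB0q0 ndB5q3 pcB3 Cut.none Ext.none)

def k0_pm_033 : ∃ t, chk3 f_pm_033 t 1 1 1 = true :=
  ⟨(b (a (a (b (a (l 15882648) (l 16058960)) (a (b (l 15895928) (l 4)) (l 4))) (b (a (l 16011464) (l 4)) (l 4))) (l 4)) (l 4)), by decide +kernel⟩

theorem c_pm_033 : CertB 0 536870912 0 1230186008 1045395039 1503240 3 eng mog cd0q0 cd5q3 pd3 false true false .pnn 0 3 3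
    ndB0q0 ndB5q3 pcB3 Cut.none Ext.none :=
  certB2 (fam := false) (s1 := true) (s2 := false) (a := 0) (b := 3) (c := 3) (cn := .pnn) (n1 := ndB0q0) (n2 := ndB5q3) (pc := pcB3) (cut := Cut.none) (xt := Ext.none) (P1 := 0) (W1 := 536870912) (P2 := 0) (W2 := 1230186008) (P3 := 1045395039) (W3 := 1503240) (N0 := 3) (En := eng) (mo := mog) (C1 := cd0q0) (C2 := cd5q3) (C3 := pd3)
    rfl (fun _ => rfl) k0_pm_033

noncomputable def f_pm_101 : ℕ → ℕ → ℕ → ℕ → Bool := onCell 536870912 536870912 536870912 536870912 1045395039 1503240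
    (rowB 3 eng mog cd0q1 cd5q1 pd0 0 false true false .npn 1 0 1 (qsf 536870912 536870912 536870912 536870912 0) ndB0q1 ndB5q1 pcB0 Cut.none Ext.none)

def k0_pm_101 : ∃ t, chk3 f_pm_101 t 1 1 1 = true :=
  ⟨(l 4), by decide +kernel⟩

theorem c_pm_101 : CertB 536870912 536870912 536870912 536870912 1045395039 1503240 3 eng mog cd0q1 cd5q1 pd0 false true false .npn 1 0 1
    ndB0q1 ndB5q1 pcB0 Cut.none Ext.none :=
  certB0 (fam := false) (s1 := true) (s2 := false) (a := 1) (b := 0) (c := 1) (cn := .npn) (n1 := ndB0q1) (n2 := ndB5q1) (pc := pcB0) (cut := Cut.none) (xt := Ext.none) (P1 := 536870912) (W1 := 536870912) (P2 := 536870912) (W2 := 536870912) (P3 := 1045395039) (W3 := 1503240) (N0 := 3) (En := eng) (mo := mog) (C1 := cd0q1) (C2 := cd5q1) (C3 := pd0)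
    rfl k0_pm_101

noncomputable def f_pm_102 : ℕ → ℕ → ℕ → ℕ → Bool := onCell 536870912 536870912 0 536870912 1045395039 1503240
    (rowB 3 eng mog cd0q1 cd5q2 pd0 1 false true false .npp 1 0 2 (qsf 536870912 536870912 1073741824 536870912 0) ndB0q1 ndB5q2 pcB0 Cut.none Ext.none)

def k0_pm_102 : ∃ t, chk3 f_pm_102 t 1 1 1 = true :=
  ⟨(a (l 4) (b (a (l 4) (a (b (l 4) (b (l 4) (a (l 4) (l 236989727415)))) (b (a (a (l 4) (b (l 4) (b (l 15330200) (l 14970008)))) (b (a (b (a (l 15888000) (l 279204101479)) (a (l 15554200) (l 15476320))) (b (a (l 15791688) (l 15731072)) (l 15209088))) (a (b (l 15153920) (l 14813536)) (b (l 15008880) (l 14657232))))) (a (b (b (l 14746072) (l 14438248)) (l 14001648)) (b (a (b (l 14490024) (l 14182552)) (l 14159416)) (a (l 13751352) (l 13555200))))))) (a (b (l 4) (b (l 4) (a (l 4) (l 13848064)))) (a (b (b (a (l 4) (l 13930048)) (a (l 13926416) (l 13534688))) (b (l 13158624) (a (l 13380208) (b (l 13037904) (l 12951336))))) (a (b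 (b (l 13534296) (l 13108992)) (b (b (l 12849208) (l 12695272)) (b (l 12526208) (l 12345944)))) (b (b (a (l 13220504) (l 13000280)) (a (l 12775752) (l 12492776))) (b (a (l 12345096) (l 12031096)) (b (l 11874400) (a (l 11856736) (b (a (l 11653072) (b (l 11513008) (l 11432208))) (b (a (l 11580328) (l 11301376)) (a (l 11500920) (l 11079920))))))))))))), by decide +kernel⟩

theorem c_pm_102 : CertB 536870912 536870912 1073741824 536870912 1045395039 1503240 3 eng mog cd0q1 cd5q2 pd0 false true false .npp 1 0 2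
    ndB0q1 ndB5q2 pcB0 Cut.none Ext.none :=
  certB1 (fam := false) (s1 := true) (s2 := false) (a := 1) (b := 0) (c := 2) (cn := .npp) (n1 := ndB0q1) (n2 := ndB5q2) (pc := pcB0) (cut := Cut.none) (xt := Ext.none) (P1 := 536870912) (W1 := 536870912) (P2 := 1073741824) (W2 := 536870912) (P3 := 1045395039) (W3 := 1503240) (N0 := 3) (En := eng) (mo := mog) (C1 := cd0q1) (C2 := cd5q2) (C3 := pd0)
    rfl (fun _ => rfl) k0_pm_102

noncomputable def f_pm_112 : ℕ → ℕ → ℕ → ℕ → Bool := onCell 536870912 536870912 1073741824 536870912 1045395039 1503240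
    (rowB 3 eng mog cd0q1 cd5q2 pd1 2 false true false .dn 1 1 2 (qsf 536870912 536870912 1073741824 536870912 1) ndB0q1 ndB5q2 pcB1 Cut.none Ext.none)

def k0_pm_112 : ∃ t, chk3 f_pm_112 t 1 1 1 = true :=
  ⟨(a (b (l 4) (a (b (a (b (l 4) (l 14028856)) (l 4)) (a (b (a (l 13448904) (l 13699056)) (b (a (l 13088624) (l 13306136)) (a (b (a (l 12792416) (l 12918400)) (a (l 12573096) (l 12738752))) (l 13049960)))) (b (l 13830216) (a (l 13395856) (l 13650504))))) (b (l 4) (a (b (l 4) (l 13723816)) (l 4))))) (l 4)), by decide +kernel⟩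

theorem c_pm_112 : CertB 536870912 536870912 1073741824 536870912 1045395039 1503240 3 eng mog cd0q1 cd5q2 pd1 false true false .dn 1 1 2
    ndB0q1 ndB5q2 pcB1 Cut.none Ext.none :=
  certB2 (fam := false) (s1 := true) (s2 := false) (a := 1) (b := 1) (c := 2) (cn := .dn) (n1 := ndB0q1) (n2 := ndB5q2) (pc := pcB1) (cut := Cut.none) (xt := Ext.none) (P1 := 536870912) (W1 := 536870912) (P2 := 1073741824) (W2 := 536870912) (P3 := 1045395039) (W3 := 1503240) (N0 := 3) (En := eng) (mo := mog) (C1 := cd0q1) (C2 := cd5q2) (C3 := pd1)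
    rfl (fun _ => rfl) k0_pm_112

noncomputable def cut_pm_113 : Cut := Cut.of [[⟨0, 1, 0, 14155776⟩, ⟨1, 1, 0, 14155776⟩, ⟨2, 2, 0, 524288⟩]]

noncomputable def f_pm_113 : ℕ → ℕ → ℕ → ℕ → Bool := onCell 536870912 536870912 0 1230186008 1045395039 1503240
    (rowB 3 eng mog cd0q1 cd5q3 pd1 0 false true false .nn 1 1 3 (qsf 536870912 536870912 0 1230186008 1) ndB0q1 ndB5q3 pcB1 cut_pm_113 Ext.none)

def k0_pm_113 : ∃ t, chk3 f_pm_113 t 2 1 1 = true :=
  ⟨(b (l 2) (a (b (l 2) (l 4)) (b (b (l 2) (a (l 2) (b (l 2) (a (l 2) (l 13743704))))) (b (a (l 4) (b (a (b (a (l 2) (l 13537608)) (l 13608016)) (b (l 13728936) (a (b (l 13679408) (l 13736032)) (l 13805472)))) (a (l 4) (b (a (l 13821944) (l 13929672)) (l 14098288))))) (l 4))))), by decide +kernel⟩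

def k1_pm_113 : ∃ t, chk3 f_pm_113 t 6 1 1 = true :=
  ⟨(b (l 2) (b (b (a (l 2) (a (b (l 2) (l 14781936)) (b (a (b (l 2) (l 15144520)) (b (l 15256408) (l 15263736))) (b (l 15157360) (l 15096056))))) (a (b (a (l 14065840) (l 14365344)) (a (l 14018464) (l 14304768))) (b (a (l 14683472) (l 15013024)) (a (l 14597104) (l 14886032))))) (b (b (a (a (b (l 13989008) (l 13983616)) (l 14230072)) (a (l 14483208) (l 14734560))) (a (a (b (l 14019256) (l 14189352)) (b (l 14194272) (l 14232832))) (b (l 14492704) (a (l 14226928) (l 14509584))))) (b (a (b (l 14378248) (l 14509816)) (b (a (l 14416808) (l 14481168)) (a (l 14617280) (l 14629960)))) (a (l 14724000) (b (l 14753888) (l 14854512))))))), by decide +kernel⟩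

def k2_pm_113 : ∃ t, chk3 f_pm_113 t 7 1 1 = true :=
  ⟨(b (b (a (l 2) (a (l 2) (b (a (l 2) (a (l 2) (b (b (l 6) (l 16749944)) (l 16759904)))) (a (b (l 2) (a (l 16670880) (l 16716984))) (b (a (l 16731696) (l 16783920)) (a (l 16778384) (l 16756664))))))) (a (b (a (l 2) (l 928348974071)) (a (b (l 2) (l 15277616)) (b (l 15378256) (l 15331696)))) (b (a (l 15874776) (b (a (a (l 16145136) (l 16197256)) (a (l 16225760) (l 16215016))) (a (l 15725520) (l 15754128)))) (a (b (l 15458624) (l 15418960)) (a (l 15511016) (l 15503792)))))) (b (a (b (a (b (l 15320752) (b (a (l 15367536) (l 15419040)) (a (l 15352464) (l 15456496)))) (b (l 15388096) (l 15477944))) (b (a (b (l 15365408) (l 15286752)) (b (l 15721272) (a (l 15493280) (l 15576720)))) (a (l 15164256) (l 15415816)))) (b (a (b (l 15448528) (l 15513632)) (a (b (l 15491400) (l 15542936)) (l 15311344))) (a (b (l 15589888) (b (l 15617112) (l 15589760))) (a (b (l 15604856) (l 15648296)) (b (l 15600280) (l 15643352))))))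 (a (b (b (a (l 14979920) (l 15211352)) (a (l 14770728) (l 14975224))) (b (b (l 14713696) (a (l 14631016) (l 14715016))) (b (a (l 14762800) (l 14716968)) (l 14903040)))) (b (a (b (l 15431080) (l 15174112)) (b (a (l 15479520) (l 15617952)) (l 15334680))) (a (b (l 14891296) (b (l 14762616) (l 14826144))) (b (l 15051936) (b (l 14844008) (l 14588592)))))))), by decide +kernel⟩

theorem s3_pm_113 : ∃ t, chk3 f_pm_113 t 3 1 1 = true := ex3_a k1_pm_113 k2_pm_113

theorem s4_pm_113 : ∃ t, chk3 f_pm_113 t 1 1 1 = true := ex3_a k0_pm_113 s3_pm_113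

theorem c_pm_113 : CertB 536870912 536870912 0 1230186008 1045395039 1503240 3 eng mog cd0q1 cd5q3 pd1 false true false .nn 1 1 3
    ndB0q1 ndB5q3 pcB1 cut_pm_113 Ext.none :=
  certB0 (fam := false) (s1 := true) (s2 := false) (a := 1) (b := 1) (c := 3) (cn := .nn) (n1 := ndB0q1) (n2 := ndB5q3) (pc := pcB1) (cut := cut_pm_113) (xt := Ext.none) (P1 := 536870912) (W1 := 536870912) (P2 := 0) (W2 := 1230186008) (P3 := 1045395039) (W3 := 1503240) (N0 := 3) (En := eng) (mo := mog) (C1 := cd0q1) (C2 := cd5q3) (C3 := pd1)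
    rfl s4_pm_113

noncomputable def cut_pm_123 : Cut := Cut.of [[⟨0, 1, 0, 14155776⟩, ⟨1, 1, 0, 14155776⟩, ⟨2, 2, 0, 524288⟩]]

noncomputable def xt_pm_123 : Ext := extD3 3 ⟨4, 1, 1, 5, 33, 5, 163, 200, 81, 200, 1, 64⟩ eng cd0q1 cd5q3 pd2 false true false .npn 1 2 3 rfl ndB0q1 ndB5q3 pcB2

noncomputable def f_pm_123 : ℕ → ℕ → ℕ → ℕ → Bool := onCell 1073741824 536870912 0 1230186008 1045395039 1503240
    (rowB 3 eng mog cd0q1 cd5q3 pd2 2 false true false .npn 1 2 3 (qsf 536870912 536870912 0 1230186008 2) ndB0q1 ndB5q3 pcB2 cut_pm_123 xt_pm_123)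

def k0_pm_123 : ∃ t, chk3 f_pm_123 t 1 4 1 = true :=
  ⟨(a (a (a (a (b (a (b (a (b (l 6) (b (l 142588756472496207) (l 16733656))) (b (b (l 142900949166538831) (a (l 6) (l 16750864))) (l 16751744))) (a (l 16651792) (l 16619568))) (b (b (a (b (l 16731408) (l 16757160)) (l 16713408)) (l 16670824)) (l 16428200))) (a (b (b (a (l 16586328) (l 16540728)) (a (l 16599440) (l 16616744))) (a (b (l 16710672) (l 16642272)) (l 16418832))) (b (b (l 16504312) (l 16456336)) (l 16213080)))) (b (b (a (l 16577368) (l 16442032)) (a (l 16328720) (l 16335520))) (b (l 16311440) (l 16114840)))) (b (a (b (a (l 16303408) (l 16185304)) (l 16224024)) (b (l 16058536) (l 16074128))) (a (b (l 16156680) (l 15973280)) (l 15894392)))) (a (b (l 15815560) (a (l 15698792) (l 15478480))) (b (l 15429512) (a (l 15241136) (l 14993152))))) (a (a (b (l 15006424) (l 14614568)) (b (l 14576848) (b (l 14264728) (a (l 14123280) (l 14001904))))) (a (b (l 14195560) (a (b (l 13989120) (l 14096192)) (b (l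 13988536) (l 14400256)))) (b (a (l 14017160) (b (l 13918488) (l 14147984))) (a (l 14516064) (l 14912080)))))), by decide +kernel⟩

def k1_pm_123 : ∃ t, chk3 f_pm_123 t 1 5 1 = true :=
  ⟨(a (a (a (b (a (a (b (b (l 16204584) (l 16030136)) (b (l 15907664) (l 15912736))) (b (l 15961536) (b (l 15835376) (l 15779480)))) (b (a (l 15921712) (l 15884784)) (a (l 15779992) (l 15744152)))) (a (b (a (b (a (l 15809504) (l 15771192)) (a (l 15796064) (l 15761664))) (b (l 15746272) (l 15734440))) (a (b (a (b (l 15805464) (l 15819832)) (l 15776200)) (a (b (l 15840072) (l 15865680)) (l 15811832))) (b (l 15742504) (a (l 15782792) (l 15754960))))) (b (a (b (l 15718784) (l 15698424)) (l 15655992)) (a (b (l 15694648) (l 15706856)) (l 15687024))))) (b (a (b (l 15799688) (l 15651312)) (b (l 15630568) (l 15465216))) (a (b (a (l 15584152) (l 15492496)) (a (l 15528944) (l 15411560))) (b (l 15325312) (b (l 15240928) (a (l 15336352) (l 15092680))))))) (a (b (a (b (l 15414808) (l 15229448))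 (l 15060408)) (a (b (l 15061920) (b (l 14948632) (l 14869664))) (b (b (l 14808560) (l 14741248)) (l 14692096)))) (b (a (l 14704912) (b (l 14628160) (b (l 14442352) (l 14383736)))) (a (b (b (l 14553784) (l 14548168)) (l 14604008)) (b (l 14454168) (l 14634648)))))) (a (a (b (b (a (l 14359392) (l 14160016)) (a (b (l 14238768) (l 14307144)) (l 14307512))) (a (b (l 14493000) (l 14771528)) (b (l 14636584) (l 15001104)))) (b (a (b (l 14105336) (l 14467808)) (l 14497504)) (a (b (l 14871232) (l 15233936)) (b (l 15178736) (l 15454544))))) (a (b (a (l 14793264) (l 15012040)) (b (a (l 15456848) (l 15635112)) (l 4))) (b (a (b (l 15284832) (l 15656792)) (b (l 15634088) (l 1))) (l 4))))), by decide +kernel⟩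

def k2_pm_123 : ∃ t, chk3 f_pm_123 t 8 24 1 = true :=
  ⟨(a (a (b (a (b (l 15896208) (l 15931192)) (b (l 15850864) (l 15882128))) (a (b (l 15970120) (l 16012336)) (b (l 15917240) (l 15955848)))) (b (a (l 15829976) (l 15794496)) (b (l 15855312) (a (a (l 15922080) (b (l 15891016) (b (l 15904424) (b (l 15910552) (l 15909696))))) (b (l 15854464) (a (b (l 15877320) (l 15864408)) (b (l 15836072) (l 15799936)))))))) (b (a (l 15734344) (a (l 15663248) (b (l 15606352) (l 15603344)))) (a (b (a (l 15787784) (b (l 15733952) (a (l 15748360) (l 15705640)))) (a (b (a (b (l 15815864) (l 15807312)) (l 15763096)) (l 15722776)) (l 15635032))) (b (a (b (a (l 15687560) (l 15646768)) (l 15618056)) (l 15532520)) (l 15458944))))), by decide +kernel⟩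

def k3_pm_123 : ∃ t, chk3 f_pm_123 t 8 25 1 = true :=
  ⟨(a (b (a (b (a (b (l 16045488) (a (a (l 16046232) (b (l 16069496) (a (l 16061496) (b (l 16073168) (l 16073696))))) (b (l 16043960) (b (a (l 16060296) (b (a (l 16046608) (l 16035288)) (l 16036144))) (a (b (a (l 16068584) (l 16054584)) (l 16055400)) (l 16021872)))))) (b (a (l 15999416) (b (l 15969632) (b (l 15974680) (a (l 15984808) (l 15960208))))) (b (a (b (a (l 16019568) (b (l 16003480) (l 16001632))) (a (b (l 16021272) (l 16018448)) (l 15989408))) (l 15947944)) (l 15941512)))) (a (b (a (b (b (a (b (l 16043640) (a (l 16037880) (b (l 16049928) (l 16052576)))) (b (a (l 16062616) (l 16076344)) (l 16077472))) (a (a (b (b (l 16039040) (l 16042352)) (l 16051480)) (l 16067472)) (l 16061632))) (l 16050400)) (l 15988280)) (l 15934168)) (l 15831264))) (b (a (b (a (b (b (l 15942216) (a (l 15952360) (l 15931208))) (l 15920088)) (l 15915344)) (l 15824272)) (l 15733432)) (a (l 15694968) (l 15568576)))) (a (b (a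 (l 15783640) (l 15644064)) (a (l 15579896) (l 15453408))) (a (l 15427760) (l 15316824)))) (a (b (a (l 15529800) (l 15416144)) (l 15210392)) (b (l 15260384) (l 14998648)))), by decide +kernel⟩

def k4_pm_123 : ∃ t, chk3 f_pm_123 t 9 12 1 = true :=
  ⟨(a (b (b (a (b (l 15513536) (a (b (l 15542880) (l 15508512)) (l 15424464))) (b (a (l 15404200) (l 15312216)) (l 15266576))) (a (l 15307448) (l 15121448))) (a (b (l 15080744) (l 14860312)) (l 14884600))) (b (a (l 15045512) (l 14906416)) (a (l 14747240) (l 14682984)))), by decide +kernel⟩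

def k5_pm_123 : ∃ t, chk3 f_pm_123 t 5 12 1 = true :=
  ⟨(a (a (b (a (l 14800160) (l 14726280)) (a (l 14649264) (l 14645432))) (b (l 14674776) (l 14694176))) (a (b (l 14709816) (a (l 14799848) (l 14887072))) (b (l 14851328) (b (l 15002896) (l 4))))), by decide +kernel⟩

def k6_pm_123 : ∃ t, chk3 f_pm_123 t 3 12 1 = true :=
  ⟨(a (b (a (a (b (l 15004408) (l 15123560)) (l 15143512)) (l 4)) (a (a (l 15167264) (l 4)) (l 4))) (l 4)), by decide +kernel⟩

def k7_pm_123 : ∃ t, chk3 f_pm_123 t 1 13 1 = true :=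
  ⟨(a (b (a (a (a (b (a (b (l 15318648) (l 15123128)) (l 15025552)) (a (l 14833632) (l 14685880))) (a (b (l 14868896) (l 14576784)) (b (l 14743576) (l 14496840)))) (a (a (l 14545304) (l 14500536)) (b (l 14539216) (l 14439600)))) (a (a (b (l 14581912) (l 14569984)) (b (l 14727368) (l 4))) (l 4))) (a (a (a (b (a (l 14454352) (l 14354432)) (l 14053456)) (a (b (l 14293376) (l 14023752)) (b (l 14259224) (l 14066744)))) (a (b (a (l 14250312) (l 14280840)) (a (l 14149232) (l 4))) (a (l 14236272) (l 14460208)))) (l 4))) (l 4)), by decide +kernel⟩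

def k8_pm_123 : ∃ t, chk3 f_pm_123 t 1 7 1 = true :=
  ⟨(b (b (a (a (a (a (b (a (l 13745784) (l 13802320)) (l 13743576)) (a (b (l 13917888) (l 4)) (l 4))) (l 4)) (l 4)) (l 1)) (l 4)) (l 4)), by decide +kernel⟩

theorem s9_pm_123 : ∃ t, chk3 f_pm_123 t 8 12 1 = true := ex3_b k2_pm_123 k3_pm_123

theorem s10_pm_123 : ∃ t, chk3 f_pm_123 t 4 12 1 = true := ex3_a s9_pm_123 k4_pm_123

theorem s11_pm_123 : ∃ t, chk3 f_pm_123 t 2 12 1 = true := ex3_a s10_pm_123 k5_pm_123

theorem s12_pm_123 : ∃ t, chk3 f_pm_123 t 1 12 1 = true := ex3_a s11_pm_123 k6_pm_123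

theorem s13_pm_123 : ∃ t, chk3 f_pm_123 t 1 6 1 = true := ex3_b s12_pm_123 k7_pm_123

theorem s14_pm_123 : ∃ t, chk3 f_pm_123 t 1 3 1 = true := ex3_b s13_pm_123 k8_pm_123

theorem s15_pm_123 : ∃ t, chk3 f_pm_123 t 1 2 1 = true := ex3_b k0_pm_123 k1_pm_123

theorem s16_pm_123 : ∃ t, chk3 f_pm_123 t 1 1 1 = true := ex3_b s15_pm_123 s14_pm_123

theorem c_pm_123 : CertB 536870912 536870912 0 1230186008 1045395039 1503240 3 eng mog cd0q1 cd5q3 pd2 false true false .npn 1 2 3
    ndB0q1 ndB5q3 pcB2 cut_pm_123 xt_pm_123 :=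
  certB2 (fam := false) (s1 := true) (s2 := false) (a := 1) (b := 2) (c := 3) (cn := .npn) (n1 := ndB0q1) (n2 := ndB5q3) (pc := pcB2) (cut := cut_pm_123) (xt := xt_pm_123) (P1 := 536870912) (W1 := 536870912) (P2 := 0) (W2 := 1230186008) (P3 := 1045395039) (W3 := 1503240) (N0 := 3) (En := eng) (mo := mog) (C1 := cd0q1) (C2 := cd5q3) (C3 := pd2)
    rfl (fun _ => rfl) s16_pm_123

noncomputable def f_pm_133 : ℕ → ℕ → ℕ → ℕ → Bool := onCell 536870912 536870912 0 1230186008 1045395039 1503240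
    (rowB 3 eng mog cd0q1 cd5q3 pd3 0 false true false .dn 1 3 3 (qsf 536870912 536870912 0 1230186008 3) ndB0q1 ndB5q3 pcB3 Cut.none Ext.none)

def k0_pm_133 : ∃ t, chk3 f_pm_133 t 1 1 1 = true :=
  ⟨(b (b (a (a (a (b (l 16259872) (l 1)) (l 1)) (l 1)) (l 1)) (l 1)) (l 1)), by decide +kernel⟩

theorem c_pm_133 : CertB 536870912 536870912 0 1230186008 1045395039 1503240 3 eng mog cd0q1 cd5q3 pd3 false true false .dn 1 3 3
    ndB0q1 ndB5q3 pcB3 Cut.none Ext.none :=
  certB0 (fam := false) (s1 := true) (s2 := false) (a := 1) (b := 3) (c := 3) (cn := .dn) (n1 := ndB0q1) (n2 := ndB5q3) (pc := pcB3) (cut := Cut.none) (xt := Ext.none) (P1 := 536870912) (W1 := 536870912) (P2 := 0) (W2 := 1230186008) (P3 := 1045395039) (W3 := 1503240) (N0 := 3) (En := eng) (mo := mog) (C1 := cd0q1) (C2 := cd5q3) (C3 := pd3)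
    rfl k0_pm_133

noncomputable def f_pm_202 : ℕ → ℕ → ℕ → ℕ → Bool := onCell 0 536870912 1073741824 536870912 1045395039 1503240
    (rowB 3 eng mog cd0q2 cd5q2 pd0 0 false true false .pp 2 0 2 (qsf 0 536870912 1073741824 536870912 0) ndB0q2 ndB5q2 pcB0 Cut.none Ext.none)

def k0_pm_202 : ∃ t, chk3 f_pm_202 t 2 2 1 = true :=
  ⟨(a (b (l 1) (a (b (b (l 16085520) (a (b (b (l 15944016) (l 15838512)) (b (l 15739448) (l 15646152))) (l 15728296))) (b (b (a (l 15531160) (l 15432824)) (a (l 15381856) (l 15252336))) (b (a (b (l 15224856) (l 15112784)) (l 15081264)) (a (l 14958960) (l 14883912))))) (b (b (l 16030224) (l 15638408)) (b (b (l 15329560) (a (l 15171472) (l 15100808))) (b (a (l 14985352) (l 14914328)) (a (l 14803200) (l 14727280))))))) (b (b (l 1) (b (l 1) (a (l 1) (b (l 1) (l 16121928))))) (b (b (a (l 15894376) (b (l 15888848) (l 15663416))) (a (l 15501944) (l 15339040))) (b (a (l 15094560) (l 14932168)) (a (b (l 14806264) (a (l 14660360) (l 14586192)))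 (l 14552920)))))), by decide +kernel⟩

def k1_pm_202 : ∃ t, chk3 f_pm_202 t 2 6 1 = true :=
  ⟨(b (a (b (a (a (b (b (l 14825232) (l 14756408)) (a (l 14691752) (l 14623856))) (b (l 14681600) (l 14523840))) (b (a (l 14601640) (l 14533512)) (a (l 14402912) (l 14321768)))) (a (a (b (l 14570048) (l 14531264)) (b (a (l 14436864) (l 14358608)) (a (l 14358376) (l 14261384)))) (b (a (l 14258888) (l 14122824)) (a (l 14147816) (l 13988608))))) (b (a (b (l 14442216) (a (l 14271816) (l 14227792))) (l 14199984)) (a (b (a (l 14045456) (l 14023456)) (a (l 13840992) (l 13774272))) (b (a (l 13982176) (l 13909224)) (a (l 13778736) (l 13737240)))))) (a (a (b (a (b (l 14496056) (a (a (b (l 14563408) (l 14536960)) (l 14503576)) (l 14415208))) (l 14253264)) (a (b (a (a (l 14487016) (b (l 14481688) (l 14453288))) (b (l 14404200) (l 14464400))) (a (l 14413720) (a (l 14387216) (b (l 14371088) (l 14356096))))) (b (l 14228864) (l 14228432)))) (b (a (b (b (l 14080208) (l 14038432)) (l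 13955376)) (b (l 13886120) (l 13819328))) (a (l 13990304) (b (b (l 13770224) (l 13745144)) (l 13736512))))) (b (a (b (a (l 13712280) (l 13557080)) (l 13528416)) (a (b (l 13510544) (l 13270928)) (b (l 13538704) (l 13246888)))) (a (a (b (l 13560472) (l 13529560)) (l 13332120)) (a (b (l 13138352) (l 13084616)) (b (a (l 12989824) (l 12945872)) (l 12842960))))))), by decide +kernel⟩

def k2_pm_202 : ∃ t, chk3 f_pm_202 t 2 7 1 = true :=
  ⟨(a (b (b (a (a (l 14319552) (a (b (a (b (l 14309688) (l 14291704)) (l 14263120)) (l 14246632)) (b (l 14174608) (a (b (l 14216232) (l 14212528)) (l 14161888))))) (a (l 14005936) (l 13763848))) (a (a (b (l 14262328) (l 14236672)) (b (a (l 14216880) (a (l 14192608) (l 14167792))) (l 14174832))) (a (b (l 14047304) (a (a (l 14129040) (l 14101160)) (l 14019288))) (l 13821816)))) (a (a (b (a (b (l 14234624) (l 235849069911)) (l 14200584)) (b (l 233164756967) (l 253028838759))) (b (l 14153272) (b (l 14152032) (l 14162208)))) (a (b (a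 (l 14100992) (b (a (l 14074352) (l 14036416)) (l 14061520))) (l 14090792)) (b (b (l 13887912) (l 13945984)) (a (b (l 14129296) (l 14045712)) (b (l 13948432) (a (l 14012928) (l 13982808)))))))) (b (b (a (a (b (l 13497952) (l 13521840)) (b (l 13282952) (l 13277400))) (l 12916792)) (a (a (l 13573160) (b (l 13278504) (l 13332976))) (a (b (l 13048560) (l 13062584)) (l 12791040)))) (a (b (l 13546216) (a (l 13804152) (l 13558576))) (b (a (l 13131416) (b (l 12847120) (l 12884952))) (a (l 13295536) (l 13005480)))))), by decide +kernel⟩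

def k3_pm_202 : ∃ t, chk3 f_pm_202 t 3 2 1 = true :=
  ⟨(a (b (b (l 1) (a (b (l 1) (a (l 15912536) (l 15763592))) (b (a (b (l 1) (l 16055024)) (b (l 16149600) (a (b (l 16188760) (l 16078704)) (l 16013072)))) (a (l 15665504) (b (a (l 15895320) (l 15811312)) (l 15616232)))))) (b (a (b (b (l 15693192) (l 15466728)) (l 15141768)) (b (a (l 15404824) (l 15272520)) (l 14902120))) (a (b (l 14735352) (l 14357808)) (b (l 14497304) (l 14122296))))) (a (b (b (b (l 1) (a (b (l 1) (l 175588728119)) (b (b (l 16036752) (l 16019224)) (a (l 16020720) (l 15883720))))) (b (a (b (l 15915720) (l 15822368)) (b (l 15691096) (l 15559184))) (a (b (l 15627168) (a (l 15495416) (l 15372600))) (b (l 15367752) (l 15179808))))) (b (b (a (b (l 15225496) (l 15009408)) (b (l 14995448) (l 14818216))) (a (l 14692344) (b (l 14625336) (l 14428000)))) (b (l 14212936) (l 13843064)))) (b (b (a (b (b (l 1) (a (l 308732667207) (l 15999168))) (b (a (l 15943456) (l 15798640)) (l 15526232))) (b (a (b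 (l 305511224711) (l 15845056)) (b (l 15883808) (l 15683304))) (a (b (l 15646400) (l 15451576)) (l 15389520)))) (a (b (b (l 15478664) (l 15287952)) (l 15008256)) (b (a (l 15166024) (l 15012888)) (a (l 14799672) (l 14652184))))) (a (b (b (l 14649440) (l 14311896)) (b (l 13962936) (l 13617304))) (b (b (l 14376424) (l 14044896)) (b (l 13730304) (l 13425296))))))), by decide +kernel⟩

def k4_pm_202 : ∃ t, chk3 f_pm_202 t 6 3 1 = true :=
  ⟨(b (b (a (l 13842504) (b (l 13775144) (l 13453920))) (a (b (b (a (l 13492416) (l 13403896)) (a (l 13300592) (l 13248640))) (a (b (l 12997016) (a (l 12690400) (l 12665504))) (b (a (l 13068952) (l 13065336)) (l 12773176)))) (b (l 13156672) (a (b (l 13009520) (b (l 12881984) (l 12782968))) (l 12822200))))) (b (a (b (a (b (l 12540592) (l 12504168)) (b (a (l 12389160) (l 12395392)) (l 12063016))) (l 12359432)) (b (a (b (a (l 12487088) (l 12580448)) (a (l 12089832) (l 12155952))) (b (a (l 12609784) (l 12587264)) (a (l 12264608) (l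 12369912)))) (a (b (a (l 11948744) (l 11641888)) (l 11871824)) (b (a (l 11799672) (l 11921440)) (b (a (l 11605272) (l 11757944)) (l 11534016)))))) (a (b (l 12428400) (a (b (l 12678944) (l 12744424)) (l 12420648))) (b (l 11750664) (l 11894344))))), by decide +kernel⟩

def k5_pm_202 : ∃ t, chk3 f_pm_202 t 7 3 1 = true :=
  ⟨(b (a (b (b (l 13501480) (l 13185920)) (b (l 12894088) (l 12623656))) (b (a (l 13125648) (b (l 13121328) (l 12820000))) (a (l 12556176) (l 12413496)))) (a (b (b (a (b (l 12501880) (a (l 12373336) (l 12347976))) (l 12309272)) (a (b (a (l 12071232) (a (l 12159960) (l 12146600))) (a (l 11531488) (l 11713736))) (a (b (l 12142088) (a (l 11862040) (l 11929416))) (b (l 12100656) (l 11928440))))) (a (b (b (a (l 11276536) (a (l 11183368) (l 11188856))) (l 11181680)) (l 11308752)) (b (b (a (l 11306896) (l 11554912)) (a (a (l 10946800) (l 10872320)) (a (l 10696664) (l 10949096)))) (b (b (l 10827936) (l 10845336)) (l 10924496))))) (b (a (l 12064664)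 (l 11935664)) (b (a (b (a (b (l 11799456) (a (l 11582616) (l 11696744))) (l 11722408)) (a (l 11159120) (a (l 11383032) (l 11492520)))) (a (b (l 11695848) (b (l 11611616) (a (l 11493720) (l 11522128)))) (l 11584760))) (a (a (b (b (a (l 10614936) (l 10690432)) (l 10544160)) (l 10581280)) (b (a (l 10650336) (l 10812032)) (b (a (l 10388088) (l 10336752)) (l 10375432)))) (b (a (l 11071224) (b (l 11400976) (a (l 11140376) (l 11302808)))) (a (b (l 10471480) (a (l 10229680) (l 10206464))) (l 10608984)))))))), by decide +kernel⟩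

theorem s6_pm_202 : ∃ t, chk3 f_pm_202 t 3 3 1 = true := ex3_a k4_pm_202 k5_pm_202

theorem s7_pm_202 : ∃ t, chk3 f_pm_202 t 3 1 1 = true := ex3_b k3_pm_202 s6_pm_202

theorem s8_pm_202 : ∃ t, chk3 f_pm_202 t 2 3 1 = true := ex3_b k1_pm_202 k2_pm_202

theorem s9_pm_202 : ∃ t, chk3 f_pm_202 t 2 1 1 = true := ex3_b k0_pm_202 s8_pm_202

theorem s10_pm_202 : ∃ t, chk3 f_pm_202 t 1 1 1 = true := ex3_a s9_pm_202 s7_pm_202

theorem c_pm_202 : CertB 0 536870912 1073741824 536870912 1045395039 1503240 3 eng mog cd0q2 cd5q2 pd0 false true false .pp 2 0 2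
    ndB0q2 ndB5q2 pcB0 Cut.none Ext.none :=
  certB0 (fam := false) (s1 := true) (s2 := false) (a := 2) (b := 0) (c := 2) (cn := .pp) (n1 := ndB0q2) (n2 := ndB5q2) (pc := pcB0) (cut := Cut.none) (xt := Ext.none) (P1 := 0) (W1 := 536870912) (P2 := 1073741824) (W2 := 536870912) (P3 := 1045395039) (W3 := 1503240) (N0 := 3) (En := eng) (mo := mog) (C1 := cd0q2) (C2 := cd5q2) (C3 := pd0)
    rfl s10_pm_202

noncomputable def f_pm_203 : ℕ → ℕ → ℕ → ℕ → Bool := onCell 0 536870912 0 1230186008 1045395039 1503240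
    (rowB 3 eng mog cd0q2 cd5q3 pd0 0 false true false .up 2 0 3 (qsf 0 536870912 0 1230186008 0) ndB0q2 ndB5q3 pcB0 Cut.none Ext.none)

def k0_pm_203 : ∃ t, chk3 f_pm_203 t 1 1 1 = true :=
  ⟨(b (l 2) (b (l 2) (b (a (b (l 2) (a (a (l 3) (a (l 3) (b (l 2) (a (l 374366481335) (l 214378826919))))) (a (b (l 2) (l 291083970919)) (a (l 16439520) (l 2))))) (l 2)) (a (b (a (a (l 3) (b (a (l 386714526615) (l 188608949239)) (a (l 183240480583) (l 16551928)))) (a (b (l 16484464) (a (l 16486008) (b (l 16421904) (l 16394208)))) (a (b (a (l 16389688) (l 16337360)) (b (l 16304592) (l 16235056))) (b (l 16203000) (l 16041720))))) (a (a (b (l 384567094919) (l 241759179751)) (b (l 119889657607) (a (l 16580296) (l 16509728)))) (a (b (a (l 16450792) (b (l 16364496) (l 16316296))) (a (b (l 16426376) (l 16394944)) (l 16204800))) (b (l 15997072) (l 15824976))))) (a (b (a (b (l 15837224) (l 15647032)) (b (l 2) (a (l 15195080) (l 14841232)))) (a (b (l 15444408) (a (l 15393640) (l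 15070488))) (b (a (l 14865584) (l 14636160)) (a (l 14771856) (l 14397464))))) (a (b (b (l 2) (a (l 14507648) (l 2))) (b (l 14042384) (l 13799288))) (b (l 2) (a (l 13248632) (b (l 2) (a (l 12729584) (b (l 2) (b (l 12422632) (l 12498528))))))))))))), by decide +kernel⟩

theorem c_pm_203 : CertB 0 536870912 0 1230186008 1045395039 1503240 3 eng mog cd0q2 cd5q3 pd0 false true false .up 2 0 3
    ndB0q2 ndB5q3 pcB0 Cut.none Ext.none :=
  certB0 (fam := false) (s1 := true) (s2 := false) (a := 2) (b := 0) (c := 3) (cn := .up) (n1 := ndB0q2) (n2 := ndB5q3) (pc := pcB0) (cut := Cut.none) (xt := Ext.none) (P1 := 0) (W1 := 536870912) (P2 := 0) (W2 := 1230186008) (P3 := 1045395039) (W3 := 1503240) (N0 := 3) (En := eng) (mo := mog) (C1 := cd0q2) (C2 := cd5q3) (C3 := pd0)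
    rfl k0_pm_203

end Pool.Agent.Strip051.G.I9736_9750.Tab.C.BB05

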