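import Pool.Agent.Strip051.G.I9736_9750.StH
import Pool.Agent.Strip051.G.I9736_9750.StF

/-! # Unit strips 4 (generated) -/

set_option linter.all false
set_option maxRecDepth 100000

namespace Pool.Agent.Strip051.G.I9736_9750.Tab.St.C

open Pool.Agent.Strip051.PB Pool.Agent.Strip051.PB.T Pool.Agent.StripNear Pool.Agent.Strip051.LC
open Pool.Agent.Strip051.G.I9736_9750.Tab Pool.Agent.Strip051.G.I9736_9750.Tab.St

noncomputable def cut_B06mm_202_s1 : Cut := Cut.of [[⟨4, 0, 0, 1449551462⟩], [⟨0, 1, 0, 16777216⟩, ⟨1, 0, 0, 16777216⟩, ⟨2, 1, 0, 16777216⟩]]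

noncomputable def xt_B06mm_202_s1 : Ext := strExt dd false false false .u2 .s2m .u0m .pp 2 0 2 rfl rfl gf0 vv ndB0q2 ndB6q2

noncomputable def f_B06mm_202_s1 : ℕ → ℕ → ℕ → ℕ → Bool := onCell 0 536870912 0 536870912 1045395039 1503240
    (rowF 1 false false false .pp 2 0 2 (qsf 0 536870912 1073741824 536870912 0) ndB0q2 ndB6q2 pcB0 cut_B06mm_202_s1 xt_B06mm_202_s1)

def k0_B06mm_202_s1 : ∃ t, chk3 f_B06mm_202_s1 t 2 1 1 = true :=
  ⟨(b (a (b (l 6) (b (l 6) (a (l 6) (a (l 6) (b (l 15599888) (b (l 15828824) (l 15915968))))))) (b (a (a (l 6) (b (l 6) (l 6))) (a (b (l 6) (b (b (l 6) (l 16067152)) (b (l 16026208) (l 15977464)))) (b (b (l 6) (b (l 16121720) (l 16124192))) (b (b (l 16144104) (l 16123496)) (b (l 16076072) (l 16059320)))))) (b (b (a (a (l 6) (b (l 15878960) (l 15878576))) (b (a (l 15969128) (l 16081760)) (a (l 15995344) (a (l 16075592) (l 16157488))))) (a (a (l 15796904) (b (l 15902264) (l 15947520)))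 (b (a (a (l 15995304) (l 16060592)) (l 16211744)) (l 16126744)))) (a (b (a (b (l 15865856) (l 15915072)) (b (l 16009000) (l 16120704))) (l 15921344)) (b (a (l 16268136) (b (l 16416472) (a (l 16470152) (l 16486040)))) (a (b (l 16422768) (a (l 16475808) (l 16484056))) (b (a (l 16485240) (l 16618360)) (l 16544096)))))))) (b (a (b (b (a (l 6) (a (l 15855544) (l 16078656))) (a (a (l 6) (l 15863560)) (l 16184064))) (a (b (l 15975720) (l 16192488)) (b (a (l 16292448) (b (l 16442576) (a (l 16493200) (l 16560696)))) (b (a (l 16447848) (l 16489344)) (l 2))))) (b (a (b (a (l 16280952) (b (l 16428632) (a (l 16480896) (l 16565160)))) (a (b (l 16436008) (a (l 16488336) (l 16562568))) (b (a (l 16563800) (l 16607752)) (l 16619896)))) (a (b (b (a (l 16482688) (l 16612136)) (l 16623160)) (l 16581440)) (l 528401423))) (a (b (a (b (a (l 16561512) (l 16604672)) (l 16616600)) (l 16576080)) (l 529561359)) (a (l 528908559) (l 528414991)))))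 (a (l 2) (a (l 2) (a (l 2) (l 3)))))), by decide +kernel⟩

def k1_B06mm_202_s1 : ∃ t, chk3 f_B06mm_202_s1 t 6 4 1 = true :=
  ⟨(b (b (a (b (l 16194480) (b (a (l 16165968) (l 16222616)) (a (l 16169080) (l 16239296)))) (b (a (b (l 16275384) (l 16279128)) (l 16362296)) (b (a (l 16311200) (l 16253768)) (a (l 16368856) (l 16502352))))) (b (a (a (l 16180416) (l 16295728)) (a (l 16344672) (b (a (l 16516000) (l 16571400)) (l 16426072)))) (a (a (l 16220160) (a (l 16296464) (l 16348520))) (a (b (l 16418512) (l 16384256)) (b (l 16470872) (a (l 16422456) (l 16450720))))))) (a (b (b (a (b (l 16225952) (l 16217472)) (l 16283480)) (a (l 16177680) (l 16243968))) (b (a (l 16150472) (b (l 16243048) (a (l 16216784) (l 16275552)))) (a (a (l 16135568) (l 16059888)) (a (l 16250480) (l 16351992))))) (b (b (a (b (l 16355240) (l 16334680)) (a (b (l 16398328) (a (l 16377392) (l 16402512))) (b (b (l 16436768) (l 16438936)) (l 16471800))))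 (a (b (a (l 16299720) (l 16262168)) (a (l 16302280) (l 16371960))) (a (l 16362928) (l 16459456)))) (a (b (a (l 16346792) (l 16447440)) (l 16332016)) (b (a (l 16462480) (b (l 16539376) (a (l 16567776) (l 16684680)))) (a (b (l 16628712) (a (l 16569728) (l 16679768))) (b (a (l 16598424) (l 16702296)) (l 16705288)))))))), by decide +kernel⟩

def k2_B06mm_202_s1 : ∃ t, chk3 f_B06mm_202_s1 t 6 5 1 = true :=
  ⟨(b (a (b (a (b (a (l 16159928) (l 16256688)) (l 16307384)) (b (l 16403360) (l 16486480))) (a (b (l 16409848) (a (l 16463848) (l 16485552))) (b (a (l 16483696) (b (l 16544472) (l 16649808))) (a (b (l 16541272) (l 16645408)) (l 16672328))))) (b (b (a (a (l 16554512) (b (l 16630832) (l 16575408))) (a (b (l 16683312) (l 16698048)) (l 16636824))) (a (a (b (l 16630464) (l 16654552)) (l 16683040)) (l 528437263))) (a (b (l 16609000) (l 528385039)) (a (l 528087311) (l 527778831))))) (a (a (b (b (a (l 16486232) (b (l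 16621360) (l 16641600))) (a (l 16538224) (l 16660400))) (l 528642575)) (b (l 528528911) (l 528100111))) (a (b (l 526884111) (l 527492879)) (a (b (l 527508239) (l 3)) (l 3))))), by decide +kernel⟩

def k3_B06mm_202_s1 : ∃ t, chk3 f_B06mm_202_s1 t 14 4 1 = true :=
  ⟨(b (b (b (a (l 16471272) (b (l 16483560) (a (l 16567912) (b (l 16615648) (l 16616728))))) (b (b (a (l 16513800) (a (l 16513016) (l 16555480))) (a (l 16567904) (l 16564176))) (b (a (l 16604576) (l 16656864)) (a (l 16622560) (a (l 16645528) (a (l 16650024) (l 16656560))))))) (b (a (b (l 16598656) (a (l 16540880) (b (l 16565920) (l 16549416)))) (b (a (b (l 16625640) (l 16604960)) (b (a (l 16633672) (l 16649456)) (a (l 16625232) (l 16664032)))) (a (b (a (l 16579864) (l 16599600)) (l 16509640)) (l 16672016)))) (a (a (b (l 16505088) (b (l 16487200) (l 16489672))) (b (b (l 16455368) (l 16541576)) (l 16573632))) (b (a (l 16540472) (a (l 16693416) (b (l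 16728600) (a (l 16738816) (l 16743272))))) (a (a (l 16645208) (l 16696472)) (a (b (l 16727824) (l 16737920)) (l 16749056))))))) (b (a (b (a (b (l 16522416) (l 16568424)) (b (l 16618976) (a (l 16642928) (b (l 16680808) (l 16704336))))) (a (b (l 16617760) (a (l 16644224) (b (l 16599016) (l 16613696)))) (b (a (b (l 16682448) (l 16701088)) (l 16715976)) (a (l 16627632) (l 16727880))))) (a (b (b (a (b (l 16681056) (l 16706608)) (b (l 16724864) (l 16732928))) (a (b (l 16720232) (l 16727936)) (l 16739600))) (a (l 16737152) (l 529514255))) (a (b (l 530588431) (l 529456399)) (b (l 530501647) (l 529363983))))) (a (a (b (b (a (b (l 16598616) (l 16694560)) (l 16708360)) (l 16712480)) (l 16685712)) (b (b (l 16729720) (l 16655792)) (a (l 528544015) (l 528588559)))) (a (b (a (l 527672591) (l 528719375)) (a (l 528279055) (l 528234255))) (a (b (l 528662287) (l 3)) (l 3)))))), by decide +kernel⟩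

def k4_B06mm_202_s1 : ∃ t, chk3 f_B06mm_202_s1 t 15 32 1 = true :=
  ⟨(a (b (a (b (l 16637752) (l 16563432)) (b (a (l 16667536) (l 16687000)) (l 16687464))) (a (b (l 16658184) (l 16669808)) (a (l 16699152) (b (l 16633072) (b (l 16727264) (a (l 16725112) (l 16737120))))))) (a (b (a (b (l 16704064) (l 16718192)) (b (a (l 16719472) (l 16731736)) (a (l 16736056) (b (l 16744512) (l 16755648))))) (a (b (b (l 16735112) (a (l 16740544) (l 16753112))) (b (a (l 16745184) (l 16752056)) (l 16726024))) (b (a (b (l 16753896) (l 16757696)) (b (a (l 16759768) (l 16762280)) (l 16763576))) (a (b (l 16757264) (l 16759624)) (b (a (l 16762800) (l 16765552)) (a (l 16765144) (l 16768696))))))) (b (a (b (l 14) (a (b (l 16743088) (b (a (l 16763440) (l 16765216)) (l 16765256))) (l 14))) (l 14)) (a (a (b (b (a (l 16765944) (b (l 16767520) (l 16767744))) (b (a (l 16766376) (l 16768504)) (a (l 16766752) (l 16769968)))) (a (b (l 16768648)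 (l 16771824)) (a (l 529948431) (l 530027791)))) (a (b (b (b (l 16769256) (l 16770384)) (l 16775296)) (a (l 530107151) (l 530186255))) (a (a (l 529331471) (l 529370895)) (b (a (l 528964623) (l 529003535)) (l 3))))) (b (b (l 14) (a (a (a (a (l 529455375) (l 3)) (l 3)) (l 3)) (l 3))) (l 3)))))), by decide +kernel⟩

def k5_B06mm_202_s1 : ∃ t, chk3 f_B06mm_202_s1 t 15 33 1 = true :=
  ⟨(a (b (b (a (l 16681728) (a (b (l 16711072) (l 16715096)) (b (l 16732768) (l 16734640)))) (a (b (l 16688960) (a (l 16681880) (l 16695272))) (a (a (l 16625648) (l 16639760)) (l 16742792)))) (a (a (b (l 16677608) (l 16589584)) (b (l 16611344) (l 16706288))) (b (a (l 16725472) (a (l 16752448) (b (l 16751888) (l 16751048)))) (a (l 16701616) (a (b (l 16749080) (l 16749576)) (l 16754392)))))) (a (b (a (b (a (l 16748792) (b (l 16755720) (l 16760608))) (a (b (l 16757152) (l 16754216)) (b (l 16759528) (l 16759784)))) (b (a (b (a (l 16762920)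 (l 16765696)) (l 16765744)) (a (l 16769592) (l 530360591))) (a (a (l 16765464) (l 528797967)) (a (b (l 16772008) (l 528278287)) (a (l 529030927) (l 528948495)))))) (a (a (b (b (l 16670720) (l 16756944)) (l 16720360)) (a (b (l 16761600) (l 528072719)) (b (l 16724064) (l 527490831)))) (a (a (l 527757327) (l 528066063)) (a (l 528290831) (l 3))))) (b (a (a (a (a (l 529468687) (l 529370127)) (a (l 528734223) (b (l 529921807) (l 3)))) (l 3)) (l 3)) (l 3)))), by decide +kernel⟩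

def k6_B06mm_202_s1 : ∃ t, chk3 f_B06mm_202_s1 t 15 17 1 = true :=
  ⟨(a (b (a (b (a (l 16694744) (b (l 16724352) (a (l 16735272) (l 16746016)))) (a (b (l 16726712) (a (l 16739040) (l 16743296))) (b (a (l 16744240) (l 16662592)) (l 16748760)))) (a (b (a (b (l 16748552) (l 16747528)) (b (l 16748760) (l 16752936))) (l 529140751)) (a (l 528781583) (l 528820495)))) (a (a (b (b (l 16767480) (l 16749488)) (l 16758432)) (b (l 16768872) (l 530836495))) (a (a (l 530469391) (l 530505231)) (a (l 530544143) (l 3))))) (b (a (a (a (l 528860687) (a (l 528894991) (l 528916495))) (l 3)) (l 3)) (l 3))), by decide +kernel⟩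

def k7_B06mm_202_s1 : ∃ t, chk3 f_B06mm_202_s1 t 15 9 1 = true :=
  ⟨(b (a (a (a (b (l 530377999) (l 529233935)) (b (l 530214415) (l 3))) (l 3)) (l 3)) (l 3)), by decide +kernel⟩

def k8_B06mm_202_s1 : ∃ t, chk3 f_B06mm_202_s1 t 7 5 1 = true :=
  ⟨(b (a (a (a (b (b (l 528385295) (l 528008463)) (l 527453199)) (b (b (l 528076559) (a (l 527781135) (l 3))) (l 3))) (l 3)) (l 3)) (l 3)), by decide +kernel⟩

def k9_B06mm_202_s1 : ∃ t, chk3 f_B06mm_202_s1 t 3 3 1 = true :=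
  ⟨(a (b (a (b (a (b (l 528326159) (l 528092943)) (b (l 527754767) (l 3))) (l 3)) (l 3)) (l 3)) (l 3)), by decide +kernel⟩

theorem t10_B06mm_202_s1 : ∃ t, chk3 f_B06mm_202_s1 t 15 16 1 = true := ex3_b k4_B06mm_202_s1 k5_B06mm_202_s1

theorem t11_B06mm_202_s1 : ∃ t, chk3 f_B06mm_202_s1 t 15 8 1 = true := ex3_b t10_B06mm_202_s1 k6_B06mm_202_s1

theorem t12_B06mm_202_s1 : ∃ t, chk3 f_B06mm_202_s1 t 15 4 1 = true := ex3_b t11_B06mm_202_s1 k7_B06mm_202_s1

theorem t13_B06mm_202_s1 : ∃ t, chk3 f_B06mm_202_s1 t 7 4 1 = true := ex3_a k3_B06mm_202_s1 t12_B06mm_202_s1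

theorem t14_B06mm_202_s1 : ∃ t, chk3 f_B06mm_202_s1 t 7 2 1 = true := ex3_b t13_B06mm_202_s1 k8_B06mm_202_s1

theorem t15_B06mm_202_s1 : ∃ t, chk3 f_B06mm_202_s1 t 6 2 1 = true := ex3_b k1_B06mm_202_s1 k2_B06mm_202_s1

theorem t16_B06mm_202_s1 : ∃ t, chk3 f_B06mm_202_s1 t 3 2 1 = true := ex3_a t15_B06mm_202_s1 t14_B06mm_202_s1

theorem t17_B06mm_202_s1 : ∃ t, chk3 f_B06mm_202_s1 t 3 1 1 = true := ex3_b t16_B06mm_202_s1 k9_B06mm_202_s1

theorem t18_B06mm_202_s1 : ∃ t, chk3 f_B06mm_202_s1 t 1 1 1 = true := ex3_a k0_B06mm_202_s1 t17_B06mm_202_s1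

theorem c_B06mm_202_s1 : CertF 0 536870912 1073741824 536870912 1045395039 1503240 false false false .pp 2 0 2
    ndB0q2 ndB6q2 pcB0 cut_B06mm_202_s1 xt_B06mm_202_s1 :=
  certF1 (fam := false) (s1 := false) (s2 := false) (a := 2) (b := 0) (c := 2) (cn := .pp) (n1 := ndB0q2) (n2 := ndB6q2) (pc := pcB0) (cut := cut_B06mm_202_s1) (xt := xt_B06mm_202_s1) (P1 := 0) (W1 := 536870912) (P2 := 1073741824) (W2 := 536870912) (P3 := 1045395039) (W3 := 1503240)
    rfl (fun _ => rfl) t18_B06mm_202_s1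

theorem s_B06mm_202_s1 {κ x : ℝ} (hκ : κ * h0 = ken x) (hx : ((1045395039 : ℕ) : ℝ) / S ≤ x)
    (hx' : x ≤ (((1045395039 : ℕ) : ℝ) + (1503240 : ℕ)) / S)
    (H : CutB (VFD κ) PP tK tL pcB (Cut.of [[⟨0, 1, 0, 16777216⟩, ⟨1, 0, 0, 16777216⟩, ⟨2, 1, 0, 16777216⟩]]) 2 0 2 0 6 (sgb false) (sgb false) x) :
    AltB (VFD κ) PP tK tL pcB [⟨3, 0, 0, 1449551462⟩] 2 0 2 0 6 (sgb false) (sgb false) x :=
  strip_altBD (m := 1449551462) true rfl hκ (SH.κ0 hκ (SH.hx1 hx).le (SH.hx2 hx').le) (SH.hx1 hx).le (SH.hx2 hx') (covB02).cov (covB62).cov hx hx' c_B06mm_202_s1 H ((okx hx hx').extB (T := tt) (sideB hx hx') hκ rfl rfl (.O 2 false) (.N 2 false) (Or.inl rfl))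

noncomputable def cut_B06mm_203_s1 : Cut := Cut.of [[⟨4, 0, 0, 1449551462⟩]]

noncomputable def xt_B06mm_203_s1 : Ext := strExt dd false false false .u2 .s2m .u0m .up 2 0 3 rfl rfl gf0 vv ndB0q2 ndB6q3

noncomputable def f_B06mm_203_s1 : ℕ → ℕ → ℕ → ℕ → Bool := onCell 0 536870912 0 1230186008 1045395039 1503240
    (rowF 0 false false false .up 2 0 3 (qsf 0 536870912 0 1230186008 0) ndB0q2 ndB6q3 pcB0 cut_B06mm_203_s1 xt_B06mm_203_s1)

def k0_B06mm_203_s1 : ∃ t, chk3 f_B06mm_203_s1 t 1 1 1 = true :=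
  ⟨(b (l 2) (b (l 2) (a (b (a (b (l 2) (a (l 531373327) (l 531020815))) (l 3)) (a (b (a (b (a (l 16611128) (l 16670648)) (a (b (a (l 16540800) (l 16584448)) (l 16333336)) (l 16526864))) (b (l 530660623) (l 530456079))) (a (b (a (l 16349008) (b (a (l 16537920) (l 16583688)) (a (l 16446528) (l 16535720)))) (l 15971712)) (b (a (b (l 16632328) (l 16597424)) (l 530170895)) (a (b (a (l 16532896) (l 16581904)) (a (l 16431184) (l 16529264))) (b (l 16634256) (l 16595224)))))) (b (a (a (l 530128399) (l 3)) (l 3)) (a (b (l 529692431) (l 529582863)) (b (l 3) (a (l 528975631) (l 3))))))) (l 3)))), by decide +kernel⟩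

theorem c_B06mm_203_s1 : CertF 0 536870912 0 1230186008 1045395039 1503240 false false false .up 2 0 3
    ndB0q2 ndB6q3 pcB0 cut_B06mm_203_s1 xt_B06mm_203_s1 :=
  certF0 (fam := false) (s1 := false) (s2 := false) (a := 2) (b := 0) (c := 3) (cn := .up) (n1 := ndB0q2) (n2 := ndB6q3) (pc := pcB0) (cut := cut_B06mm_203_s1) (xt := xt_B06mm_203_s1) (P1 := 0) (W1 := 536870912) (P2 := 0) (W2 := 1230186008) (P3 := 1045395039) (W3 := 1503240)
    rfl k0_B06mm_203_s1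

theorem s_B06mm_203_s1 {κ x : ℝ} (hκ : κ * h0 = ken x) (hx : ((1045395039 : ℕ) : ℝ) / S ≤ x)
    (hx' : x ≤ (((1045395039 : ℕ) : ℝ) + (1503240 : ℕ)) / S) :
    AltB (VFD κ) PP tK tL pcB [⟨3, 0, 0, 1449551462⟩] 2 0 3 0 6 (sgb false) (sgb false) x :=
  strip_altBD (m := 1449551462) true rfl hκ (SH.κ0 hκ (SH.hx1 hx).le (SH.hx2 hx').le) (SH.hx1 hx).le (SH.hx2 hx') (covB02).cov (covB63).cov hx hx' c_B06mm_203_s1 cutB_nil ((okx hx hx').extB (T := tt) (sideB hx hx') hκ rfl rfl (.O 2 false) (.N 3 false) (Or.inl rfl))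

noncomputable def cut_B06mm_213_s1 : Cut := Cut.of [[⟨4, 0, 0, 1449551462⟩]]

noncomputable def xt_B06mm_213_s1 : Ext := strExt dd false false false .u2 .s2m .u0m .pnn 2 1 3 rfl rfl gf1 vv ndB0q2 ndB6q3

noncomputable def f_B06mm_213_s1 : ℕ → ℕ → ℕ → ℕ → Bool := onCell 0 536870912 0 1230186008 1045395039 1503240
    (rowF 0 false false false .pnn 2 1 3 (qsf 0 536870912 0 1230186008 1) ndB0q2 ndB6q3 pcB1 cut_B06mm_213_s1 xt_B06mm_213_s1)

def k0_B06mm_213_s1 : ∃ t, chk3 f_B06mm_213_s1 t 1 1 1 = true :=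
  ⟨(b (a (l 3) (b (l 5) (l 3))) (a (b (a (b (l 3) (l 3)) (l 3)) (b (a (b (a (l 525949455) (l 3)) (a (l 525854735) (a (l 525327887) (l 524955919)))) (l 3)) (a (l 1) (b (a (l 1) (l 3)) (l 1))))) (b (l 3) (l 3)))), by decide +kernel⟩

theorem c_B06mm_213_s1 : CertF 0 536870912 0 1230186008 1045395039 1503240 false false false .pnn 2 1 3
    ndB0q2 ndB6q3 pcB1 cut_B06mm_213_s1 xt_B06mm_213_s1 :=
  certF0 (fam := false) (s1 := false) (s2 := false) (a := 2) (b := 1) (c := 3) (cn := .pnn) (n1 := ndB0q2) (n2 := ndB6q3) (pc := pcB1) (cut := cut_B06mm_213_s1) (xt := xt_B06mm_213_s1) (P1 := 0) (W1 := 536870912) (P2 := 0) (W2 := 1230186008) (P3 := 1045395039) (W3 := 1503240)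
    rfl k0_B06mm_213_s1

theorem s_B06mm_213_s1 {κ x : ℝ} (hκ : κ * h0 = ken x) (hx : ((1045395039 : ℕ) : ℝ) / S ≤ x)
    (hx' : x ≤ (((1045395039 : ℕ) : ℝ) + (1503240 : ℕ)) / S) :
    AltB (VFD κ) PP tK tL pcB [⟨3, 0, 0, 1449551462⟩] 2 1 3 0 6 (sgb false) (sgb false) x :=
  strip_altBD (m := 1449551462) true rfl hκ (SH.κ0 hκ (SH.hx1 hx).le (SH.hx2 hx').le) (SH.hx1 hx).le (SH.hx2 hx') (covB02).cov (covB63).cov hx hx' c_B06mm_213_s1 cutB_nil ((okx hx hx').extB (T := tt) (sideB hx hx') hκ rfl rfl (.O 2 false) (.N 3 false) (Or.inr rfl))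

noncomputable def cut_B60pp_001_s1 : Cut := Cut.of [[⟨4, 0, 0, 1449551462⟩]]

noncomputable def xt_B60pp_001_s1 : Ext := strExt dd false true true .s0 .u0 .u0m .up 0 0 1 rfl rfl gf0 vv ndB6q0 ndB0q1

noncomputable def f_B60pp_001_s1 : ℕ → ℕ → ℕ → ℕ → Bool := onCell 0 536870912 536870912 536870912 1045395039 1503240
    (rowF 2 false true true .up 0 0 1 (qsf 0 536870912 536870912 536870912 0) ndB6q0 ndB0q1 pcB0 cut_B60pp_001_s1 xt_B60pp_001_s1)

def k0_B60pp_001_s1 : ∃ t, chk3 f_B60pp_001_s1 t 1 1 1 = true :=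
  ⟨(a (b (l 3) (b (b (l 3) (l 2)) (l 2))) (b (a (l 3) (b (l 3) (a (b (l 3) (l 520812303)) (b (l 520001295) (a (l 521075215) (l 521315343)))))) (b (a (a (b (b (l 3) (l 521976591)) (a (l 2) (l 522605839))) (b (l 521584911) (a (l 522511375) (l 522495247)))) (b (a (l 521708559) (l 522133263)) (a (a (l 522557967) (b (l 16459328) (l 16357064))) (b (l 522817039) (a (b (l 16318696) (a (l 16275464) (l 16229720))) (b (l 16153256) (l 16131272))))))) (b (a (a (l 2) (b (b (l 523026703) (l 2)) (l 2))) (a (b (a (b (l 16347008) (b (l 16210968) (l 16229104))) (b (a (l 16287112) (l 16234808)) (l 16114664))) (a (l 374834359207) (l 15693536))) (b (a (l 15877280) (l 15900872)) (a (l 15716200) (l 15579152))))) (a (l 2) (b (a (a (l 2) (l 15415360)) (a (l 15359528) (l 6))) (a (l 2) (l 6)))))))), by decide +kernel⟩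

theorem c_B60pp_001_s1 : CertF 0 536870912 536870912 536870912 1045395039 1503240 false true true .up 0 0 1
    ndB6q0 ndB0q1 pcB0 cut_B60pp_001_s1 xt_B60pp_001_s1 :=
  certF2 (fam := false) (s1 := true) (s2 := true) (a := 0) (b := 0) (c := 1) (cn := .up) (n1 := ndB6q0) (n2 := ndB0q1) (pc := pcB0) (cut := cut_B60pp_001_s1) (xt := xt_B60pp_001_s1) (P1 := 0) (W1 := 536870912) (P2 := 536870912) (W2 := 536870912) (P3 := 1045395039) (W3 := 1503240)
    rfl (fun _ => rfl) k0_B60pp_001_s1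

theorem s_B60pp_001_s1 {κ x : ℝ} (hκ : κ * h0 = ken x) (hx : ((1045395039 : ℕ) : ℝ) / S ≤ x)
    (hx' : x ≤ (((1045395039 : ℕ) : ℝ) + (1503240 : ℕ)) / S) :
    AltB (VFD κ) PP tK tL pcB [⟨3, 0, 0, 1449551462⟩] 0 0 1 6 0 (sgb true) (sgb true) x :=
  strip_altBD (m := 1449551462) true rfl hκ (SH.κ0 hκ (SH.hx1 hx).le (SH.hx2 hx').le) (SH.hx1 hx).le (SH.hx2 hx') (covB60).cov (covB01).cov hx hx' c_B60pp_001_s1 cutB_nil ((okx hx hx').extB (T := tt) (sideB hx hx') hκ rfl rfl (.N 0 true) (.O 1 true) (Or.inl rfl))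

noncomputable def cut_B60pp_011_s1 : Cut := Cut.of [[⟨4, 0, 0, 1449551462⟩]]

noncomputable def xt_B60pp_011_s1 : Ext := strExt dd false true true .s0 .u0 .u0m .pnn 0 1 1 rfl rfl gf1 vv ndB6q0 ndB0q1

noncomputable def f_B60pp_011_s1 : ℕ → ℕ → ℕ → ℕ → Bool := onCell 536870912 536870912 536870912 536870912 1045395039 1503240
    (rowF 2 false true true .pnn 0 1 1 (qsf 0 536870912 536870912 536870912 1) ndB6q0 ndB0q1 pcB1 cut_B60pp_011_s1 xt_B60pp_011_s1)

def k0_B60pp_011_s1 : ∃ t, chk3 f_B60pp_011_s1 t 1 1 1 = true :=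
  ⟨(a (b (a (b (a (b (l 3) (l 531778063)) (b (l 530485263) (l 531510287))) (a (b (l 531282191) (l 530439951)) (b (l 531642639) (l 531164943)))) (b (a (b (l 1) (l 529686543)) (l 1)) (a (b (l 530454031) (a (l 16582088) (l 16525560))) (b (l 526757135) (a (l 16264456) (l 16245176)))))) (b (a (a (b (b (l 529641999) (l 16440624)) (b (a (l 16449344) (l 16429456)) (a (l 16371800) (l 16358648)))) (b (b (l 16553024) (a (l 16491256) (l 16471360))) (b (l 16409800) (l 16343248)))) (a (b (b (a (l 16509208) (l 16456136)) (l 16424912)) (l 16333992)) (b (l 16273720) (l 6)))) (b (a (a (b (l 16311760) (l 16267528)) (b (l 6) (l 6))) (l 6)) (l 6)))) (b (a (b (l 1) (a (b (l 1) (b (l 1) (l 16139328))) (l 1))) (l 1)) (b (a (b (l 6) (l 6)) (l 6)) (l 6)))), by decide +kernel⟩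

theorem c_B60pp_011_s1 : CertF 0 536870912 536870912 536870912 1045395039 1503240 false true true .pnn 0 1 1
    ndB6q0 ndB0q1 pcB1 cut_B60pp_011_s1 xt_B60pp_011_s1 :=
  certF2 (fam := false) (s1 := true) (s2 := true) (a := 0) (b := 1) (c := 1) (cn := .pnn) (n1 := ndB6q0) (n2 := ndB0q1) (pc := pcB1) (cut := cut_B60pp_011_s1) (xt := xt_B60pp_011_s1) (P1 := 0) (W1 := 536870912) (P2 := 536870912) (W2 := 536870912) (P3 := 1045395039) (W3 := 1503240)
    rfl (fun _ => rfl) k0_B60pp_011_s1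

theorem s_B60pp_011_s1 {κ x : ℝ} (hκ : κ * h0 = ken x) (hx : ((1045395039 : ℕ) : ℝ) / S ≤ x)
    (hx' : x ≤ (((1045395039 : ℕ) : ℝ) + (1503240 : ℕ)) / S) :
    AltB (VFD κ) PP tK tL pcB [⟨3, 0, 0, 1449551462⟩] 0 1 1 6 0 (sgb true) (sgb true) x :=
  strip_altBD (m := 1449551462) true rfl hκ (SH.κ0 hκ (SH.hx1 hx).le (SH.hx2 hx').le) (SH.hx1 hx).le (SH.hx2 hx') (covB60).cov (covB01).cov hx hx' c_B60pp_011_s1 cutB_nil ((okx hx hx').extB (T := tt) (sideB hx hx') hκ rfl rfl (.N 0 true) (.O 1 true) (Or.inr rfl))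

noncomputable def cut_B60pp_012_s1 : Cut := Cut.of [[⟨4, 0, 0, 1449551462⟩]]

noncomputable def f_B60pp_012_s1 : ℕ → ℕ → ℕ → ℕ → Bool := onCell 0 536870912 0 536870912 1045395039 1503240
    (rowF 0 false true true .pnp 0 1 2 (qsf 0 536870912 0 536870912 1) ndB6q0 ndB0q2 pcB1 cut_B60pp_012_s1 Ext.none)

def k0_B60pp_012_s1 : ∃ t, chk3 f_B60pp_012_s1 t 1 1 1 = true :=
  ⟨(a (l 6) (l 6)), by decide +kernel⟩

theorem c_B60pp_012_s1 : CertF 0 536870912 0 536870912 1045395039 1503240 false true true .pnp 0 1 2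
    ndB6q0 ndB0q2 pcB1 cut_B60pp_012_s1 Ext.none :=
  certF0 (fam := false) (s1 := true) (s2 := true) (a := 0) (b := 1) (c := 2) (cn := .pnp) (n1 := ndB6q0) (n2 := ndB0q2) (pc := pcB1) (cut := cut_B60pp_012_s1) (xt := Ext.none) (P1 := 0) (W1 := 536870912) (P2 := 0) (W2 := 536870912) (P3 := 1045395039) (W3 := 1503240)
    rfl k0_B60pp_012_s1

theorem s_B60pp_012_s1 {κ x : ℝ} (hκ : κ * h0 = ken x) (hx : ((1045395039 : ℕ) : ℝ) / S ≤ x)
    (hx' : x ≤ (((1045395039 : ℕ) : ℝ) + (1503240 : ℕ)) / S) :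
    AltB (VFD κ) PP tK tL pcB [⟨3, 0, 0, 1449551462⟩] 0 1 2 6 0 (sgb true) (sgb true) x :=
  strip_altBD (m := 1449551462) true rfl hκ (SH.κ0 hκ (SH.hx1 hx).le (SH.hx2 hx').le) (SH.hx1 hx).le (SH.hx2 hx') (covB60).cov (covB02).cov hx hx' c_B60pp_012_s1 cutB_nil (noExt_B)

noncomputable def cut_B60pp_022_s1 : Cut := Cut.of [[⟨4, 0, 0, 1449551462⟩]]

noncomputable def f_B60pp_022_s1 : ℕ → ℕ → ℕ → ℕ → Bool := onCell 1073741824 536870912 0 536870912 1045395039 1503240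
    (rowF 2 false true true .pp 0 2 2 (qsf 0 536870912 0 536870912 2) ndB6q0 ndB0q2 pcB2 cut_B60pp_022_s1 Ext.none)

def k0_B60pp_022_s1 : ∃ t, chk3 f_B60pp_022_s1 t 1 1 1 = true :=
  ⟨(l 6), by decide +kernel⟩

theorem c_B60pp_022_s1 : CertF 0 536870912 0 536870912 1045395039 1503240 false true true .pp 0 2 2
    ndB6q0 ndB0q2 pcB2 cut_B60pp_022_s1 Ext.none :=
  certF2 (fam := false) (s1 := true) (s2 := true) (a := 0) (b := 2) (c := 2) (cn := .pp) (n1 := ndB6q0) (n2 := ndB0q2) (pc := pcB2) (cut := cut_B60pp_022_s1) (xt := Ext.none) (P1 := 0) (W1 := 536870912) (P2 := 0) (W2 := 536870912) (P3 := 1045395039) (W3 := 1503240)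
    rfl (fun _ => rfl) k0_B60pp_022_s1

theorem s_B60pp_022_s1 {κ x : ℝ} (hκ : κ * h0 = ken x) (hx : ((1045395039 : ℕ) : ℝ) / S ≤ x)
    (hx' : x ≤ (((1045395039 : ℕ) : ℝ) + (1503240 : ℕ)) / S) :
    AltB (VFD κ) PP tK tL pcB [⟨3, 0, 0, 1449551462⟩] 0 2 2 6 0 (sgb true) (sgb true) x :=
  strip_altBD (m := 1449551462) true rfl hκ (SH.κ0 hκ (SH.hx1 hx).le (SH.hx2 hx').le) (SH.hx1 hx).le (SH.hx2 hx') (covB60).cov (covB02).cov hx hx' c_B60pp_022_s1 cutB_nil (noExt_B)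

noncomputable def cut_B60pp_101_s1 : Cut := Cut.of [[⟨4, 0, 0, 1449551462⟩], [⟨0, 1, 0, 16777216⟩, ⟨1, 0, 0, 16777216⟩, ⟨2, 1, 0, 16777216⟩]]

noncomputable def xt_B60pp_101_s1 : Ext := strExt dd false true true .s0 .u0 .u0m .npn 1 0 1 rfl rfl gf0 vv ndB6q1 ndB0q1

noncomputable def f_B60pp_101_s1 : ℕ → ℕ → ℕ → ℕ → Bool := onCell 0 536870912 536870912 536870912 1045395039 1503240
    (rowF 2 false true true .npn 1 0 1 (qsf 536870912 536870912 536870912 536870912 0) ndB6q1 ndB0q1 pcB0 cut_B60pp_101_s1 xt_B60pp_101_s1)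

def k0_B60pp_101_s1 : ∃ t, chk3 f_B60pp_101_s1 t 2 2 1 = true :=
  ⟨(l 3), by decide +kernel⟩

def k1_B60pp_101_s1 : ∃ t, chk3 f_B60pp_101_s1 t 4 6 1 = true :=
  ⟨(l 3), by decide +kernel⟩

def k2_B60pp_101_s1 : ∃ t, chk3 f_B60pp_101_s1 t 8 7 1 = true :=
  ⟨(b (l 3) (a (b (l 3) (a (b (l 3) (b (b (l 3) (a (l 3) (a (l 3) (a (l 3) (l 530215951))))) (b (a (b (l 3) (l 14)) (a (a (b (l 3) (a (l 14) (l 528873743))) (b (l 529378063) (a (l 529073935) (l 529275663)))) (a (b (l 529788431) (l 529541391)) (b (l 530193679) (l 16771568))))) (a (l 14) (a (b (a (l 14) (l 16770776)) (l 14)) (b (a (l 16768656) (l 16766592)) (a (l 16763416) (l 16760264)))))))) (b (a (l 3) (b (l 3) (b (l 3) (a (l 3) (l 528274959))))) (b (a (a (b (l 3) (a (l 529838351) (l 529461007))) (b (b (l 3) (l 528583695)) (l 528858127))) (b (a (l 527964687) (l 527278351)) (a (l 528080399) (l 526967567)))) (b (a (a (b (l 530118159) (l 16768784)) (a (l 16766624)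 (l 16763592))) (a (l 16758272) (l 16751648))) (a (b (a (l 16763784) (l 16760648)) (l 16751760)) (a (l 16749808) (l 16743896)))))))) (b (b (l 3) (a (l 3) (a (l 3) (l 530102287)))) (a (b (b (a (l 3) (l 528901135)) (a (b (l 528163087) (l 528460559)) (l 528699919))) (a (b (b (a (l 527014159) (l 16719752)) (a (l 16670064) (l 16747792))) (b (b (l 16742088) (l 16740472)) (l 16734384))) (b (b (l 16670520) (l 16740936)) (b (b (l 16733600) (l 16737608)) (l 16718184))))) (b (a (l 529368591) (l 529971983)) (b (b (l 16742408) (a (l 16735008) (l 16731160))) (a (l 16674816) (l 16692000)))))))), by decide +kernel⟩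

def k3_B60pp_101_s1 : ∃ t, chk3 f_B60pp_101_s1 t 9 7 1 = true :=
  ⟨(b (a (l 3) (b (l 3) (b (l 3) (a (l 3) (l 526306319))))) (b (a (b (a (l 3) (l 527963151)) (a (l 529223439) (l 528184335))) (b (a (l 527085327) (l 526407439)) (a (l 527315471) (l 526647567)))) (b (a (a (a (l 530158607) (l 529547535)) (b (l 16732048) (b (l 16718584) (l 16707136)))) (a (b (l 16703240) (b (l 16686624) (l 16669464))) (b (l 16671600) (b (l 16563480) (l 16611944))))) (a (b (a (b (l 16726936) (a (l 16723184) (l 16698976))) (b (l 16691336) (l 16655600))) (a (l 16652624) (l 16593928))) (b (a (l 16529832) (l 16548024)) (l 16411016)))))), by decide +kernel⟩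

def k4_B60pp_101_s1 : ∃ t, chk3 f_B60pp_101_s1 t 5 3 1 = true :=
  ⟨(b (a (l 3) (b (l 3) (a (l 523342095) (l 523023375)))) (b (a (b (a (l 3) (l 524519183)) (a (a (l 525756943) (l 525484815)) (b (l 524943631) (l 525224207)))) (a (b (l 524105999) (l 524634639)) (b (l 523765519) (l 524283151)))) (b (a (b (a (l 524848399) (l 16563312)) (a (a (l 16590888) (l 16643624)) (a (l 16518384) (b (l 16590168) (l 16544952))))) (a (b (a (l 16597440) (l 16558456)) (b (a (l 16547984) (l 16497664)) (l 16438896))) (b (b (l 16514592) (a (l 16501544) (l 16443928))) (l 16254008)))) (a (b (a (b (a (l 16546840) (l 16503336)) (l 16366160)) (b (l 16403744) (l 16392680))) (a (b (l 16443224) (l 16351128)) (l 16165344))) (b (a (b (l 16344080) (l 16245040)) (l 15971456)) (a (l 16096152) (l 15937248))))))), by decide +kernel⟩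

def k5_B60pp_101_s1 : ∃ t, chk3 f_B60pp_101_s1 t 3 1 1 = true :=
  ⟨(b (a (l 3) (l 1)) (b (a (a (b (b (l 3) (l 521976591)) (a (l 522777103) (l 522605839))) (b (l 521584911) (a (l 522511375) (l 522495247)))) (b (l 1) (a (a (l 527776715751) (l 1)) (l 1)))) (b (a (a (b (l 523058191) (b (l 523711759) (a (a (l 16508032) (l 16460856)) (b (l 16329736) (l 16271144))))) (b (a (l 16475088) (b (l 16428288) (l 16278328))) (a (b (b (l 16401488) (l 16275360)) (l 16242792)) (b (a (l 16298048) (l 16219232)) (l 16083640))))) (a (b (a (b (l 16348528) (b (l 16295936) (l 16230216))) (b (l 1) (l 16116136))) (a (l 15847768) (l 15864120))) (b (l 1) (a (l 15718800) (l 1))))) (a (b (a (a (b (b (a (l 16450576) (l 16381256)) (l 16326464)) (l 16182536)) (b (l 16216144) (l 16024112))) (a (l 15625672) (l 15720056))) (a (b (a (l 15981040) (l 15820928)) (a (l 15775136) (l 15612296))) (b (a (l 15661336) (l 15504600)) (l 15119264)))) (b (a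 (a (l 15650272) (l 15502376)) (a (l 15362352) (l 6))) (a (b (a (l 15352944) (l 6)) (l 6)) (l 6))))))), by decide +kernel⟩

theorem t6_B60pp_101_s1 : ∃ t, chk3 f_B60pp_101_s1 t 4 7 1 = true := ex3_a k2_B60pp_101_s1 k3_B60pp_101_s1

theorem t7_B60pp_101_s1 : ∃ t, chk3 f_B60pp_101_s1 t 4 3 1 = true := ex3_b k1_B60pp_101_s1 t6_B60pp_101_s1

theorem t8_B60pp_101_s1 : ∃ t, chk3 f_B60pp_101_s1 t 2 3 1 = true := ex3_a t7_B60pp_101_s1 k4_B60pp_101_s1

theorem t9_B60pp_101_s1 : ∃ t, chk3 f_B60pp_101_s1 t 2 1 1 = true := ex3_b k0_B60pp_101_s1 t8_B60pp_101_s1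

theorem t10_B60pp_101_s1 : ∃ t, chk3 f_B60pp_101_s1 t 1 1 1 = true := ex3_a t9_B60pp_101_s1 k5_B60pp_101_s1

theorem c_B60pp_101_s1 : CertF 536870912 536870912 536870912 536870912 1045395039 1503240 false true true .npn 1 0 1
    ndB6q1 ndB0q1 pcB0 cut_B60pp_101_s1 xt_B60pp_101_s1 :=
  certF2 (fam := false) (s1 := true) (s2 := true) (a := 1) (b := 0) (c := 1) (cn := .npn) (n1 := ndB6q1) (n2 := ndB0q1) (pc := pcB0) (cut := cut_B60pp_101_s1) (xt := xt_B60pp_101_s1) (P1 := 536870912) (W1 := 536870912) (P2 := 536870912) (W2 := 536870912) (P3 := 1045395039) (W3 := 1503240)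
    rfl (fun _ => rfl) t10_B60pp_101_s1

theorem s_B60pp_101_s1 {κ x : ℝ} (hκ : κ * h0 = ken x) (hx : ((1045395039 : ℕ) : ℝ) / S ≤ x)
    (hx' : x ≤ (((1045395039 : ℕ) : ℝ) + (1503240 : ℕ)) / S)
    (H : CutB (VFD κ) PP tK tL pcB (Cut.of [[⟨0, 1, 0, 16777216⟩, ⟨1, 0, 0, 16777216⟩, ⟨2, 1, 0, 16777216⟩]]) 1 0 1 6 0 (sgb true) (sgb true) x) :
    AltB (VFD κ) PP tK tL pcB [⟨3, 0, 0, 1449551462⟩] 1 0 1 6 0 (sgb true) (sgb true) x :=
  strip_altBD (m := 1449551462) true rfl hκ (SH.κ0 hκ (SH.hx1 hx).le (SH.hx2 hx').le) (SH.hx1 hx).le (SH.hx2 hx') (covB61).cov (covB01).cov hx hx' c_B60pp_101_s1 H ((okx hx hx').extB (T := tt) (sideB hx hx') hκ rfl rfl (.N 1 true) (.O 1 true) (Or.inl rfl))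

noncomputable def cut_B60pp_102_s1 : Cut := Cut.of [[⟨4, 0, 0, 1449551462⟩], [⟨0, 1, 0, 26843545⟩, ⟨1, 0, 0, 26843545⟩, ⟨2, 1, 0, 26843545⟩]]

noncomputable def f_B60pp_102_s1 : ℕ → ℕ → ℕ → ℕ → Bool := onCell 0 536870912 0 536870912 1045395039 1503240
    (rowF 2 false true true .npp 1 0 2 (qsf 536870912 536870912 0 536870912 0) ndB6q1 ndB0q2 pcB0 cut_B60pp_102_s1 Ext.none)

def k0_B60pp_102_s1 : ∃ t, chk3 f_B60pp_102_s1 t 2 1 1 = true :=
  ⟨(b (a (l 6) (l 6)) (a (b (a (l 2) (b (l 6) (a (b (l 15257016) (l 15113976)) (b (l 6) (a (l 15265048) (l 15140360)))))) (a (b (a (l 2) (b (a (l 2) (l 15834416)) (a (b (l 2) (l 16211768)) (l 16019912)))) (a (a (b (l 2) (l 14)) (a (b (b (l 2) (a (l 2) (l 16444496))) (l 14)) (b (a (b (l 2) (l 16438520)) (b (l 16356720) (l 16425576))) (a (b (b (l 16503216) (l 16552952)) (b (l 16617568) (l 16611640))) (b (b (l 16483392) (l 16531264)) (l 16561576)))))) (b (a (b (l 16277688)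 (l 16354312)) (b (l 16154296) (a (l 16275120) (l 16234176)))) (b (a (b (a (l 16445904) (l 16398488)) (a (l 16417120) (l 16472936))) (b (a (l 16359992) (l 16331528)) (l 16435712))) (a (a (b (l 16586184) (l 16589080)) (b (l 16565496) (l 16654200))) (a (l 16505432) (l 16480736))))))) (b (a (b (a (l 15701176) (l 15578504)) (a (l 15902440) (l 15797952))) (b (l 15332352) (a (l 15703896) (l 15601264)))) (b (a (a (b (l 16055248) (a (l 16191856) (l 16151696))) (b (l 15964856) (l 16090320))) (b (a (l 15876280) (l 15785312)) (l 15978504))) (a (b (a (l 16170480) (l 16272456)) (a (l 16436928) (l 16459352))) (b (l 16168544) (l 16273440))))))) (b (a (a (b (l 6) (b (l 6) (l 14978952))) (l 6)) (l 6)) (b (a (a (b (l 15209864) (l 15454544)) (b (l 15007048) (l 15278424))) (b (l 6) (a (l 15101552) (l 14931928)))) (a (b (a (b (l 15651824) (l 15831872)) (l 15574088)) (a (b (l 16018776) (l 16209224)) (b (l 15862368) (l 16054888))))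 (b (a (l 15422296) (l 15265320)) (b (l 15623144) (l 15562048)))))))), by decide +kernel⟩

def k1_B60pp_102_s1 : ∃ t, chk3 f_B60pp_102_s1 t 3 1 1 = true :=
  ⟨(b (l 6) (b (l 6) (b (l 6) (a (b (a (l 15030472) (l 6)) (a (b (l 15306040) (l 15492064)) (b (l 6) (l 15173568)))) (l 6))))), by decide +kernel⟩

theorem t2_B60pp_102_s1 : ∃ t, chk3 f_B60pp_102_s1 t 1 1 1 = true := ex3_a k0_B60pp_102_s1 k1_B60pp_102_s1

theorem c_B60pp_102_s1 : CertF 536870912 536870912 0 536870912 1045395039 1503240 false true true .npp 1 0 2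
    ndB6q1 ndB0q2 pcB0 cut_B60pp_102_s1 Ext.none :=
  certF2 (fam := false) (s1 := true) (s2 := true) (a := 1) (b := 0) (c := 2) (cn := .npp) (n1 := ndB6q1) (n2 := ndB0q2) (pc := pcB0) (cut := cut_B60pp_102_s1) (xt := Ext.none) (P1 := 536870912) (W1 := 536870912) (P2 := 0) (W2 := 536870912) (P3 := 1045395039) (W3 := 1503240)
    rfl (fun _ => rfl) t2_B60pp_102_s1

theorem s_B60pp_102_s1 {κ x : ℝ} (hκ : κ * h0 = ken x) (hx : ((1045395039 : ℕ) : ℝ) / S ≤ x)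
    (hx' : x ≤ (((1045395039 : ℕ) : ℝ) + (1503240 : ℕ)) / S)
    (H : CutB (VFD κ) PP tK tL pcB (Cut.of [[⟨0, 1, 0, 26843545⟩, ⟨1, 0, 0, 26843545⟩, ⟨2, 1, 0, 26843545⟩]]) 1 0 2 6 0 (sgb true) (sgb true) x) :
    AltB (VFD κ) PP tK tL pcB [⟨3, 0, 0, 1449551462⟩] 1 0 2 6 0 (sgb true) (sgb true) x :=
  strip_altBD (m := 1449551462) true rfl hκ (SH.κ0 hκ (SH.hx1 hx).le (SH.hx2 hx').le) (SH.hx1 hx).le (SH.hx2 hx') (covB61).cov (covB02).cov hx hx' c_B60pp_102_s1 H (noExt_B)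

noncomputable def cut_B60pp_112_s1 : Cut := Cut.of [[⟨4, 0, 0, 1449551462⟩]]

noncomputable def f_B60pp_112_s1 : ℕ → ℕ → ℕ → ℕ → Bool := onCell 536870912 536870912 0 536870912 1045395039 1503240
    (rowF 2 false true true .dn 1 1 2 (qsf 536870912 536870912 0 536870912 1) ndB6q1 ndB0q2 pcB1 cut_B60pp_112_s1 Ext.none)

def k0_B60pp_112_s1 : ∃ t, chk3 f_B60pp_112_s1 t 1 1 1 = true :=
  ⟨(b (l 6) (l 6)), by decide +kernel⟩

theorem c_B60pp_112_s1 : CertF 536870912 536870912 0 536870912 1045395039 1503240 false true true .dn 1 1 2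
    ndB6q1 ndB0q2 pcB1 cut_B60pp_112_s1 Ext.none :=
  certF2 (fam := false) (s1 := true) (s2 := true) (a := 1) (b := 1) (c := 2) (cn := .dn) (n1 := ndB6q1) (n2 := ndB0q2) (pc := pcB1) (cut := cut_B60pp_112_s1) (xt := Ext.none) (P1 := 536870912) (W1 := 536870912) (P2 := 0) (W2 := 536870912) (P3 := 1045395039) (W3 := 1503240)
    rfl (fun _ => rfl) k0_B60pp_112_s1

theorem s_B60pp_112_s1 {κ x : ℝ} (hκ : κ * h0 = ken x) (hx : ((1045395039 : ℕ) : ℝ) / S ≤ x)
    (hx' : x ≤ (((1045395039 : ℕ) : ℝ) + (1503240 : ℕ)) / S) :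
    AltB (VFD κ) PP tK tL pcB [⟨3, 0, 0, 1449551462⟩] 1 1 2 6 0 (sgb true) (sgb true) x :=
  strip_altBD (m := 1449551462) true rfl hκ (SH.κ0 hκ (SH.hx1 hx).le (SH.hx2 hx').le) (SH.hx1 hx).le (SH.hx2 hx') (covB61).cov (covB02).cov hx hx' c_B60pp_112_s1 cutB_nil (noExt_B)

noncomputable def cut_B60pp_202_s1 : Cut := Cut.of [[⟨4, 0, 0, 1449551462⟩], [⟨0, 1, 0, 22369621⟩, ⟨1, 0, 0, 22369621⟩, ⟨2, 1, 0, 22369621⟩]]

noncomputable def f_B60pp_202_s1 : ℕ → ℕ → ℕ → ℕ → Bool := onCell 0 536870912 0 536870912 1045395039 1503240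
    (rowF 2 false true true .pp 2 0 2 (qsf 1073741824 536870912 0 536870912 0) ndB6q2 ndB0q2 pcB0 cut_B60pp_202_s1 Ext.none)

def k0_B60pp_202_s1 : ∃ t, chk3 f_B60pp_202_s1 t 1 1 1 = true :=
  ⟨(a (b (a (l 6) (l 6)) (a (b (b (a (a (l 16041568) (a (l 15800088) (l 15626592))) (l 6)) (a (a (a (b (l 16197440) (l 16268672)) (a (b (l 16077848) (l 16171208)) (b (l 16000936) (l 16124320)))) (a (b (l 15884512) (l 16004320)) (b (l 15702160) (l 15797776)))) (a (b (l 15375320) (l 15275584)) (b (l 6) (l 1))))) (a (b (a (a (b (l 16291096) (b (l 16445152) (l 16409192))) (a (b (l 16106528) (a (b (l 16356744) (l 16322344)) (l 16383536))) (b (l 16246568) (a (l 16375944) (l 16360832))))) (b (a (l 16127288) (l 15900352)) (a (b (l 16212208) (l 16238192)) (l 15957816)))) (a (a (b (a (b (l 16503032) (b (l 16534920) (l 16557920))) (b (l 16413000) (l 16543880))) (l 14)) (b (a (a (b (l 16446152) (l 16488560)) (l 16453496)) (a (l 16426120)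 (l 16390176))) (a (b (a (l 14) (l 431140219975)) (l 1)) (l 1)))) (b (a (b (l 16239328) (l 1)) (l 1)) (l 1)))) (b (a (b (a (l 15637848) (l 1)) (l 1)) (l 1)) (l 1)))) (b (l 1) (l 1)))) (l 1)), by decide +kernel⟩

theorem c_B60pp_202_s1 : CertF 1073741824 536870912 0 536870912 1045395039 1503240 false true true .pp 2 0 2
    ndB6q2 ndB0q2 pcB0 cut_B60pp_202_s1 Ext.none :=
  certF2 (fam := false) (s1 := true) (s2 := true) (a := 2) (b := 0) (c := 2) (cn := .pp) (n1 := ndB6q2) (n2 := ndB0q2) (pc := pcB0) (cut := cut_B60pp_202_s1) (xt := Ext.none) (P1 := 1073741824) (W1 := 536870912) (P2 := 0) (W2 := 536870912) (P3 := 1045395039) (W3 := 1503240)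
    rfl (fun _ => rfl) k0_B60pp_202_s1

theorem s_B60pp_202_s1 {κ x : ℝ} (hκ : κ * h0 = ken x) (hx : ((1045395039 : ℕ) : ℝ) / S ≤ x)
    (hx' : x ≤ (((1045395039 : ℕ) : ℝ) + (1503240 : ℕ)) / S)
    (H : CutB (VFD κ) PP tK tL pcB (Cut.of [[⟨0, 1, 0, 22369621⟩, ⟨1, 0, 0, 22369621⟩, ⟨2, 1, 0, 22369621⟩]]) 2 0 2 6 0 (sgb true) (sgb true) x) :
    AltB (VFD κ) PP tK tL pcB [⟨3, 0, 0, 1449551462⟩] 2 0 2 6 0 (sgb true) (sgb true) x :=
  strip_altBD (m := 1449551462) true rfl hκ (SH.κ0 hκ (SH.hx1 hx).le (SH.hx2 hx').le) (SH.hx1 hx).le (SH.hx2 hx') (covB62).cov (covB02).cov hx hx' c_B60pp_202_s1 H (noExt_B)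

noncomputable def cut_B60pm_001_s1 : Cut := Cut.of [[⟨4, 0, 0, 1449551462⟩]]

noncomputable def f_B60pm_001_s1 : ℕ → ℕ → ℕ → ℕ → Bool := onCell 0 536870912 536870912 536870912 1045395039 1503240
    (rowF 0 false true false .up 0 0 1 (qsf 0 536870912 536870912 536870912 0) ndB6q0 ndB0q1 pcB0 cut_B60pm_001_s1 Ext.none)

def k0_B60pm_001_s1 : ∃ t, chk3 f_B60pm_001_s1 t 1 1 1 = true :=
  ⟨(l 4), by decide +kernel⟩

theorem c_B60pm_001_s1 : CertF 0 536870912 536870912 536870912 1045395039 1503240 false true false .up 0 0 1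
    ndB6q0 ndB0q1 pcB0 cut_B60pm_001_s1 Ext.none :=
  certF0 (fam := false) (s1 := true) (s2 := false) (a := 0) (b := 0) (c := 1) (cn := .up) (n1 := ndB6q0) (n2 := ndB0q1) (pc := pcB0) (cut := cut_B60pm_001_s1) (xt := Ext.none) (P1 := 0) (W1 := 536870912) (P2 := 536870912) (W2 := 536870912) (P3 := 1045395039) (W3 := 1503240)
    rfl k0_B60pm_001_s1

theorem s_B60pm_001_s1 {κ x : ℝ} (hκ : κ * h0 = ken x) (hx : ((1045395039 : ℕ) : ℝ) / S ≤ x)
    (hx' : x ≤ (((1045395039 : ℕ) : ℝ) + (1503240 : ℕ)) / S) :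
    AltB (VFD κ) PP tK tL pcB [⟨3, 0, 0, 1449551462⟩] 0 0 1 6 0 (sgb true) (sgb false) x :=
  strip_altBD (m := 1449551462) true rfl hκ (SH.κ0 hκ (SH.hx1 hx).le (SH.hx2 hx').le) (SH.hx1 hx).le (SH.hx2 hx') (covB60).cov (covB01).cov hx hx' c_B60pm_001_s1 cutB_nil (noExt_B)

noncomputable def cut_B60pm_011_s1 : Cut := Cut.of [[⟨4, 0, 0, 1449551462⟩]]

noncomputable def f_B60pm_011_s1 : ℕ → ℕ → ℕ → ℕ → Bool := onCell 0 536870912 536870912 536870912 1045395039 1503240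
    (rowF 0 false true false .pnn 0 1 1 (qsf 0 536870912 536870912 536870912 1) ndB6q0 ndB0q1 pcB1 cut_B60pm_011_s1 Ext.none)

def k0_B60pm_011_s1 : ∃ t, chk3 f_B60pm_011_s1 t 1 1 1 = true :=
  ⟨(l 4), by decide +kernel⟩

theorem c_B60pm_011_s1 : CertF 0 536870912 536870912 536870912 1045395039 1503240 false true false .pnn 0 1 1
    ndB6q0 ndB0q1 pcB1 cut_B60pm_011_s1 Ext.none :=
  certF0 (fam := false) (s1 := true) (s2 := false) (a := 0) (b := 1) (c := 1) (cn := .pnn) (n1 := ndB6q0) (n2 := ndB0q1) (pc := pcB1) (cut := cut_B60pm_011_s1) (xt := Ext.none) (P1 := 0) (W1 := 536870912) (P2 := 536870912) (W2 := 536870912) (P3 := 1045395039) (W3 := 1503240)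
    rfl k0_B60pm_011_s1

theorem s_B60pm_011_s1 {κ x : ℝ} (hκ : κ * h0 = ken x) (hx : ((1045395039 : ℕ) : ℝ) / S ≤ x)
    (hx' : x ≤ (((1045395039 : ℕ) : ℝ) + (1503240 : ℕ)) / S) :
    AltB (VFD κ) PP tK tL pcB [⟨3, 0, 0, 1449551462⟩] 0 1 1 6 0 (sgb true) (sgb false) x :=
  strip_altBD (m := 1449551462) true rfl hκ (SH.κ0 hκ (SH.hx1 hx).le (SH.hx2 hx').le) (SH.hx1 hx).le (SH.hx2 hx') (covB60).cov (covB01).cov hx hx' c_B60pm_011_s1 cutB_nil (noExt_B)

noncomputable def cut_B60pm_012_s1 : Cut := Cut.of [[⟨4, 0, 0, 1449551462⟩]]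

noncomputable def f_B60pm_012_s1 : ℕ → ℕ → ℕ → ℕ → Bool := onCell 0 536870912 0 536870912 1045395039 1503240
    (rowF 0 false true false .pnp 0 1 2 (qsf 0 536870912 0 536870912 1) ndB6q0 ndB0q2 pcB1 cut_B60pm_012_s1 Ext.none)

def k0_B60pm_012_s1 : ∃ t, chk3 f_B60pm_012_s1 t 1 1 1 = true :=
  ⟨(l 6), by decide +kernel⟩

theorem c_B60pm_012_s1 : CertF 0 536870912 0 536870912 1045395039 1503240 false true false .pnp 0 1 2
    ndB6q0 ndB0q2 pcB1 cut_B60pm_012_s1 Ext.none :=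
  certF0 (fam := false) (s1 := true) (s2 := false) (a := 0) (b := 1) (c := 2) (cn := .pnp) (n1 := ndB6q0) (n2 := ndB0q2) (pc := pcB1) (cut := cut_B60pm_012_s1) (xt := Ext.none) (P1 := 0) (W1 := 536870912) (P2 := 0) (W2 := 536870912) (P3 := 1045395039) (W3 := 1503240)
    rfl k0_B60pm_012_s1

theorem s_B60pm_012_s1 {κ x : ℝ} (hκ : κ * h0 = ken x) (hx : ((1045395039 : ℕ) : ℝ) / S ≤ x)
    (hx' : x ≤ (((1045395039 : ℕ) : ℝ) + (1503240 : ℕ)) / S) :
    AltB (VFD κ) PP tK tL pcB [⟨3, 0, 0, 1449551462⟩] 0 1 2 6 0 (sgb true) (sgb false) x :=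
  strip_altBD (m := 1449551462) true rfl hκ (SH.κ0 hκ (SH.hx1 hx).le (SH.hx2 hx').le) (SH.hx1 hx).le (SH.hx2 hx') (covB60).cov (covB02).cov hx hx' c_B60pm_012_s1 cutB_nil (noExt_B)

noncomputable def cut_B60pm_022_s1 : Cut := Cut.of [[⟨4, 0, 0, 1449551462⟩]]

noncomputable def f_B60pm_022_s1 : ℕ → ℕ → ℕ → ℕ → Bool := onCell 0 536870912 0 536870912 1045395039 1503240
    (rowF 0 false true false .pp 0 2 2 (qsf 0 536870912 0 536870912 2) ndB6q0 ndB0q2 pcB2 cut_B60pm_022_s1 Ext.none)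

def k0_B60pm_022_s1 : ∃ t, chk3 f_B60pm_022_s1 t 1 1 1 = true :=
  ⟨(l 6), by decide +kernel⟩

theorem c_B60pm_022_s1 : CertF 0 536870912 0 536870912 1045395039 1503240 false true false .pp 0 2 2
    ndB6q0 ndB0q2 pcB2 cut_B60pm_022_s1 Ext.none :=
  certF0 (fam := false) (s1 := true) (s2 := false) (a := 0) (b := 2) (c := 2) (cn := .pp) (n1 := ndB6q0) (n2 := ndB0q2) (pc := pcB2) (cut := cut_B60pm_022_s1) (xt := Ext.none) (P1 := 0) (W1 := 536870912) (P2 := 0) (W2 := 536870912) (P3 := 1045395039) (W3 := 1503240)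
    rfl k0_B60pm_022_s1

theorem s_B60pm_022_s1 {κ x : ℝ} (hκ : κ * h0 = ken x) (hx : ((1045395039 : ℕ) : ℝ) / S ≤ x)
    (hx' : x ≤ (((1045395039 : ℕ) : ℝ) + (1503240 : ℕ)) / S) :
    AltB (VFD κ) PP tK tL pcB [⟨3, 0, 0, 1449551462⟩] 0 2 2 6 0 (sgb true) (sgb false) x :=
  strip_altBD (m := 1449551462) true rfl hκ (SH.κ0 hκ (SH.hx1 hx).le (SH.hx2 hx').le) (SH.hx1 hx).le (SH.hx2 hx') (covB60).cov (covB02).cov hx hx' c_B60pm_022_s1 cutB_nil (noExt_B)

noncomputable def cut_B60pm_101_s1 : Cut := Cut.of [[⟨4, 0, 0, 1449551462⟩]]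

noncomputable def f_B60pm_101_s1 : ℕ → ℕ → ℕ → ℕ → Bool := onCell 536870912 536870912 536870912 536870912 1045395039 1503240
    (rowF 0 false true false .npn 1 0 1 (qsf 536870912 536870912 536870912 536870912 0) ndB6q1 ndB0q1 pcB0 cut_B60pm_101_s1 Ext.none)

def k0_B60pm_101_s1 : ∃ t, chk3 f_B60pm_101_s1 t 1 1 1 = true :=
  ⟨(l 4), by decide +kernel⟩

theorem c_B60pm_101_s1 : CertF 536870912 536870912 536870912 536870912 1045395039 1503240 false true false .npn 1 0 1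
    ndB6q1 ndB0q1 pcB0 cut_B60pm_101_s1 Ext.none :=
  certF0 (fam := false) (s1 := true) (s2 := false) (a := 1) (b := 0) (c := 1) (cn := .npn) (n1 := ndB6q1) (n2 := ndB0q1) (pc := pcB0) (cut := cut_B60pm_101_s1) (xt := Ext.none) (P1 := 536870912) (W1 := 536870912) (P2 := 536870912) (W2 := 536870912) (P3 := 1045395039) (W3 := 1503240)
    rfl k0_B60pm_101_s1

theorem s_B60pm_101_s1 {κ x : ℝ} (hκ : κ * h0 = ken x) (hx : ((1045395039 : ℕ) : ℝ) / S ≤ x)
    (hx' : x ≤ (((1045395039 : ℕ) : ℝ) + (1503240 : ℕ)) / S) :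
    AltB (VFD κ) PP tK tL pcB [⟨3, 0, 0, 1449551462⟩] 1 0 1 6 0 (sgb true) (sgb false) x :=
  strip_altBD (m := 1449551462) true rfl hκ (SH.κ0 hκ (SH.hx1 hx).le (SH.hx2 hx').le) (SH.hx1 hx).le (SH.hx2 hx') (covB61).cov (covB01).cov hx hx' c_B60pm_101_s1 cutB_nil (noExt_B)

noncomputable def cut_B60pm_102_s1 : Cut := Cut.of [[⟨4, 0, 0, 1449551462⟩]]

noncomputable def f_B60pm_102_s1 : ℕ → ℕ → ℕ → ℕ → Bool := onCell 536870912 536870912 0 536870912 1045395039 1503240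
    (rowF 0 false true false .npp 1 0 2 (qsf 536870912 536870912 0 536870912 0) ndB6q1 ndB0q2 pcB0 cut_B60pm_102_s1 Ext.none)

def k0_B60pm_102_s1 : ∃ t, chk3 f_B60pm_102_s1 t 1 1 1 = true :=
  ⟨(l 6), by decide +kernel⟩

theorem c_B60pm_102_s1 : CertF 536870912 536870912 0 536870912 1045395039 1503240 false true false .npp 1 0 2
    ndB6q1 ndB0q2 pcB0 cut_B60pm_102_s1 Ext.none :=
  certF0 (fam := false) (s1 := true) (s2 := false) (a := 1) (b := 0) (c := 2) (cn := .npp) (n1 := ndB6q1) (n2 := ndB0q2) (pc := pcB0) (cut := cut_B60pm_102_s1) (xt := Ext.none) (P1 := 536870912) (W1 := 536870912) (P2 := 0) (W2 := 536870912) (P3 := 1045395039) (W3 := 1503240)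
    rfl k0_B60pm_102_s1

theorem s_B60pm_102_s1 {κ x : ℝ} (hκ : κ * h0 = ken x) (hx : ((1045395039 : ℕ) : ℝ) / S ≤ x)
    (hx' : x ≤ (((1045395039 : ℕ) : ℝ) + (1503240 : ℕ)) / S) :
    AltB (VFD κ) PP tK tL pcB [⟨3, 0, 0, 1449551462⟩] 1 0 2 6 0 (sgb true) (sgb false) x :=
  strip_altBD (m := 1449551462) true rfl hκ (SH.κ0 hκ (SH.hx1 hx).le (SH.hx2 hx').le) (SH.hx1 hx).le (SH.hx2 hx') (covB61).cov (covB02).cov hx hx' c_B60pm_102_s1 cutB_nil (noExt_B)

noncomputable def cut_B60pm_112_s1 : Cut := Cut.of [[⟨4, 0, 0, 1449551462⟩]]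

noncomputable def f_B60pm_112_s1 : ℕ → ℕ → ℕ → ℕ → Bool := onCell 536870912 536870912 0 536870912 1045395039 1503240
    (rowF 0 false true false .dn 1 1 2 (qsf 536870912 536870912 0 536870912 1) ndB6q1 ndB0q2 pcB1 cut_B60pm_112_s1 Ext.none)

def k0_B60pm_112_s1 : ∃ t, chk3 f_B60pm_112_s1 t 1 1 1 = true :=
  ⟨(l 6), by decide +kernel⟩

theorem c_B60pm_112_s1 : CertF 536870912 536870912 0 536870912 1045395039 1503240 false true false .dn 1 1 2
    ndB6q1 ndB0q2 pcB1 cut_B60pm_112_s1 Ext.none :=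
  certF0 (fam := false) (s1 := true) (s2 := false) (a := 1) (b := 1) (c := 2) (cn := .dn) (n1 := ndB6q1) (n2 := ndB0q2) (pc := pcB1) (cut := cut_B60pm_112_s1) (xt := Ext.none) (P1 := 536870912) (W1 := 536870912) (P2 := 0) (W2 := 536870912) (P3 := 1045395039) (W3 := 1503240)
    rfl k0_B60pm_112_s1

theorem s_B60pm_112_s1 {κ x : ℝ} (hκ : κ * h0 = ken x) (hx : ((1045395039 : ℕ) : ℝ) / S ≤ x)
    (hx' : x ≤ (((1045395039 : ℕ) : ℝ) + (1503240 : ℕ)) / S) :
    AltB (VFD κ) PP tK tL pcB [⟨3, 0, 0, 1449551462⟩] 1 1 2 6 0 (sgb true) (sgb false) x :=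
  strip_altBD (m := 1449551462) true rfl hκ (SH.κ0 hκ (SH.hx1 hx).le (SH.hx2 hx').le) (SH.hx1 hx).le (SH.hx2 hx') (covB61).cov (covB02).cov hx hx' c_B60pm_112_s1 cutB_nil (noExt_B)

noncomputable def cut_B60pm_202_s1 : Cut := Cut.of [[⟨4, 0, 0, 1449551462⟩]]

noncomputable def f_B60pm_202_s1 : ℕ → ℕ → ℕ → ℕ → Bool := onCell 0 536870912 0 536870912 1045395039 1503240
    (rowF 2 false true false .pp 2 0 2 (qsf 1073741824 536870912 0 536870912 0) ndB6q2 ndB0q2 pcB0 cut_B60pm_202_s1 Ext.none)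

def k0_B60pm_202_s1 : ∃ t, chk3 f_B60pm_202_s1 t 1 1 1 = true :=
  ⟨(l 6), by decide +kernel⟩

theorem c_B60pm_202_s1 : CertF 1073741824 536870912 0 536870912 1045395039 1503240 false true false .pp 2 0 2
    ndB6q2 ndB0q2 pcB0 cut_B60pm_202_s1 Ext.none :=
  certF2 (fam := false) (s1 := true) (s2 := false) (a := 2) (b := 0) (c := 2) (cn := .pp) (n1 := ndB6q2) (n2 := ndB0q2) (pc := pcB0) (cut := cut_B60pm_202_s1) (xt := Ext.none) (P1 := 1073741824) (W1 := 536870912) (P2 := 0) (W2 := 536870912) (P3 := 1045395039) (W3 := 1503240)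
    rfl (fun _ => rfl) k0_B60pm_202_s1

theorem s_B60pm_202_s1 {κ x : ℝ} (hκ : κ * h0 = ken x) (hx : ((1045395039 : ℕ) : ℝ) / S ≤ x)
    (hx' : x ≤ (((1045395039 : ℕ) : ℝ) + (1503240 : ℕ)) / S) :
    AltB (VFD κ) PP tK tL pcB [⟨3, 0, 0, 1449551462⟩] 2 0 2 6 0 (sgb true) (sgb false) x :=
  strip_altBD (m := 1449551462) true rfl hκ (SH.κ0 hκ (SH.hx1 hx).le (SH.hx2 hx').le) (SH.hx1 hx).le (SH.hx2 hx') (covB62).cov (covB02).cov hx hx' c_B60pm_202_s1 cutB_nil (noExt_B)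

noncomputable def cut_B60mm_001_s1 : Cut := Cut.of [[⟨4, 0, 0, 1449551462⟩]]

noncomputable def f_B60mm_001_s1 : ℕ → ℕ → ℕ → ℕ → Bool := onCell 0 536870912 536870912 536870912 1045395039 1503240
    (rowF 0 false false false .up 0 0 1 (qsf 0 536870912 536870912 536870912 0) ndB6q0 ndB0q1 pcB0 cut_B60mm_001_s1 Ext.none)

def k0_B60mm_001_s1 : ∃ t, chk3 f_B60mm_001_s1 t 1 1 1 = true :=
  ⟨(l 5), by decide +kernel⟩

theorem c_B60mm_001_s1 : CertF 0 536870912 536870912 536870912 1045395039 1503240 false false false .up 0 0 1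
    ndB6q0 ndB0q1 pcB0 cut_B60mm_001_s1 Ext.none :=
  certF0 (fam := false) (s1 := false) (s2 := false) (a := 0) (b := 0) (c := 1) (cn := .up) (n1 := ndB6q0) (n2 := ndB0q1) (pc := pcB0) (cut := cut_B60mm_001_s1) (xt := Ext.none) (P1 := 0) (W1 := 536870912) (P2 := 536870912) (W2 := 536870912) (P3 := 1045395039) (W3 := 1503240)
    rfl k0_B60mm_001_s1

theorem s_B60mm_001_s1 {κ x : ℝ} (hκ : κ * h0 = ken x) (hx : ((1045395039 : ℕ) : ℝ) / S ≤ x)
    (hx' : x ≤ (((1045395039 : ℕ) : ℝ) + (1503240 : ℕ)) / S) :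
    AltB (VFD κ) PP tK tL pcB [⟨3, 0, 0, 1449551462⟩] 0 0 1 6 0 (sgb false) (sgb false) x :=
  strip_altBD (m := 1449551462) true rfl hκ (SH.κ0 hκ (SH.hx1 hx).le (SH.hx2 hx').le) (SH.hx1 hx).le (SH.hx2 hx') (covB60).cov (covB01).cov hx hx' c_B60mm_001_s1 cutB_nil (noExt_B)

noncomputable def cut_B60mm_011_s1 : Cut := Cut.of [[⟨4, 0, 0, 1449551462⟩]]

noncomputable def f_B60mm_011_s1 : ℕ → ℕ → ℕ → ℕ → Bool := onCell 0 536870912 536870912 536870912 1045395039 1503240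
    (rowF 0 false false false .pnn 0 1 1 (qsf 0 536870912 536870912 536870912 1) ndB6q0 ndB0q1 pcB1 cut_B60mm_011_s1 Ext.none)

def k0_B60mm_011_s1 : ∃ t, chk3 f_B60mm_011_s1 t 1 1 1 = true :=
  ⟨(l 5), by decide +kernel⟩

theorem c_B60mm_011_s1 : CertF 0 536870912 536870912 536870912 1045395039 1503240 false false false .pnn 0 1 1
    ndB6q0 ndB0q1 pcB1 cut_B60mm_011_s1 Ext.none :=
  certF0 (fam := false) (s1 := false) (s2 := false) (a := 0) (b := 1) (c := 1) (cn := .pnn) (n1 := ndB6q0) (n2 := ndB0q1) (pc := pcB1) (cut := cut_B60mm_011_s1) (xt := Ext.none) (P1 := 0) (W1 := 536870912) (P2 := 536870912) (W2 := 536870912) (P3 := 1045395039) (W3 := 1503240)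
    rfl k0_B60mm_011_s1

theorem s_B60mm_011_s1 {κ x : ℝ} (hκ : κ * h0 = ken x) (hx : ((1045395039 : ℕ) : ℝ) / S ≤ x)
    (hx' : x ≤ (((1045395039 : ℕ) : ℝ) + (1503240 : ℕ)) / S) :
    AltB (VFD κ) PP tK tL pcB [⟨3, 0, 0, 1449551462⟩] 0 1 1 6 0 (sgb false) (sgb false) x :=
  strip_altBD (m := 1449551462) true rfl hκ (SH.κ0 hκ (SH.hx1 hx).le (SH.hx2 hx').le) (SH.hx1 hx).le (SH.hx2 hx') (covB60).cov (covB01).cov hx hx' c_B60mm_011_s1 cutB_nil (noExt_B)

noncomputable def cut_B60mm_012_s1 : Cut := Cut.of [[⟨4, 0, 0, 1449551462⟩]]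

noncomputable def f_B60mm_012_s1 : ℕ → ℕ → ℕ → ℕ → Bool := onCell 0 536870912 0 536870912 1045395039 1503240
    (rowF 0 false false false .pnp 0 1 2 (qsf 0 536870912 0 536870912 1) ndB6q0 ndB0q2 pcB1 cut_B60mm_012_s1 Ext.none)

def k0_B60mm_012_s1 : ∃ t, chk3 f_B60mm_012_s1 t 1 1 1 = true :=
  ⟨(l 5), by decide +kernel⟩

theorem c_B60mm_012_s1 : CertF 0 536870912 0 536870912 1045395039 1503240 false false false .pnp 0 1 2
    ndB6q0 ndB0q2 pcB1 cut_B60mm_012_s1 Ext.none :=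
  certF0 (fam := false) (s1 := false) (s2 := false) (a := 0) (b := 1) (c := 2) (cn := .pnp) (n1 := ndB6q0) (n2 := ndB0q2) (pc := pcB1) (cut := cut_B60mm_012_s1) (xt := Ext.none) (P1 := 0) (W1 := 536870912) (P2 := 0) (W2 := 536870912) (P3 := 1045395039) (W3 := 1503240)
    rfl k0_B60mm_012_s1

theorem s_B60mm_012_s1 {κ x : ℝ} (hκ : κ * h0 = ken x) (hx : ((1045395039 : ℕ) : ℝ) / S ≤ x)
    (hx' : x ≤ (((1045395039 : ℕ) : ℝ) + (1503240 : ℕ)) / S) :
    AltB (VFD κ) PP tK tL pcB [⟨3, 0, 0, 1449551462⟩] 0 1 2 6 0 (sgb false) (sgb false) x :=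
  strip_altBD (m := 1449551462) true rfl hκ (SH.κ0 hκ (SH.hx1 hx).le (SH.hx2 hx').le) (SH.hx1 hx).le (SH.hx2 hx') (covB60).cov (covB02).cov hx hx' c_B60mm_012_s1 cutB_nil (noExt_B)

noncomputable def cut_B60mm_022_s1 : Cut := Cut.of [[⟨4, 0, 0, 1449551462⟩]]

noncomputable def f_B60mm_022_s1 : ℕ → ℕ → ℕ → ℕ → Bool := onCell 0 536870912 0 536870912 1045395039 1503240
    (rowF 0 false false false .pp 0 2 2 (qsf 0 536870912 0 536870912 2) ndB6q0 ndB0q2 pcB2 cut_B60mm_022_s1 Ext.none)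

def k0_B60mm_022_s1 : ∃ t, chk3 f_B60mm_022_s1 t 1 1 1 = true :=
  ⟨(l 5), by decide +kernel⟩

theorem c_B60mm_022_s1 : CertF 0 536870912 0 536870912 1045395039 1503240 false false false .pp 0 2 2
    ndB6q0 ndB0q2 pcB2 cut_B60mm_022_s1 Ext.none :=
  certF0 (fam := false) (s1 := false) (s2 := false) (a := 0) (b := 2) (c := 2) (cn := .pp) (n1 := ndB6q0) (n2 := ndB0q2) (pc := pcB2) (cut := cut_B60mm_022_s1) (xt := Ext.none) (P1 := 0) (W1 := 536870912) (P2 := 0) (W2 := 536870912) (P3 := 1045395039) (W3 := 1503240)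
    rfl k0_B60mm_022_s1

theorem s_B60mm_022_s1 {κ x : ℝ} (hκ : κ * h0 = ken x) (hx : ((1045395039 : ℕ) : ℝ) / S ≤ x)
    (hx' : x ≤ (((1045395039 : ℕ) : ℝ) + (1503240 : ℕ)) / S) :
    AltB (VFD κ) PP tK tL pcB [⟨3, 0, 0, 1449551462⟩] 0 2 2 6 0 (sgb false) (sgb false) x :=
  strip_altBD (m := 1449551462) true rfl hκ (SH.κ0 hκ (SH.hx1 hx).le (SH.hx2 hx').le) (SH.hx1 hx).le (SH.hx2 hx') (covB60).cov (covB02).cov hx hx' c_B60mm_022_s1 cutB_nil (noExt_B)

noncomputable def cut_B60mm_101_s1 : Cut := Cut.of [[⟨4, 0, 0, 1449551462⟩]]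

noncomputable def f_B60mm_101_s1 : ℕ → ℕ → ℕ → ℕ → Bool := onCell 0 536870912 536870912 536870912 1045395039 1503240
    (rowF 2 false false false .npn 1 0 1 (qsf 536870912 536870912 536870912 536870912 0) ndB6q1 ndB0q1 pcB0 cut_B60mm_101_s1 Ext.none)

def k0_B60mm_101_s1 : ∃ t, chk3 f_B60mm_101_s1 t 1 1 1 = true :=
  ⟨(l 5), by decide +kernel⟩

theorem c_B60mm_101_s1 : CertF 536870912 536870912 536870912 536870912 1045395039 1503240 false false false .npn 1 0 1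
    ndB6q1 ndB0q1 pcB0 cut_B60mm_101_s1 Ext.none :=
  certF2 (fam := false) (s1 := false) (s2 := false) (a := 1) (b := 0) (c := 1) (cn := .npn) (n1 := ndB6q1) (n2 := ndB0q1) (pc := pcB0) (cut := cut_B60mm_101_s1) (xt := Ext.none) (P1 := 536870912) (W1 := 536870912) (P2 := 536870912) (W2 := 536870912) (P3 := 1045395039) (W3 := 1503240)
    rfl (fun _ => rfl) k0_B60mm_101_s1

theorem s_B60mm_101_s1 {κ x : ℝ} (hκ : κ * h0 = ken x) (hx : ((1045395039 : ℕ) : ℝ) / S ≤ x)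
    (hx' : x ≤ (((1045395039 : ℕ) : ℝ) + (1503240 : ℕ)) / S) :
    AltB (VFD κ) PP tK tL pcB [⟨3, 0, 0, 1449551462⟩] 1 0 1 6 0 (sgb false) (sgb false) x :=
  strip_altBD (m := 1449551462) true rfl hκ (SH.κ0 hκ (SH.hx1 hx).le (SH.hx2 hx').le) (SH.hx1 hx).le (SH.hx2 hx') (covB61).cov (covB01).cov hx hx' c_B60mm_101_s1 cutB_nil (noExt_B)

noncomputable def cut_B60mm_102_s1 : Cut := Cut.of [[⟨4, 0, 0, 1449551462⟩]]

noncomputable def f_B60mm_102_s1 : ℕ → ℕ → ℕ → ℕ → Bool := onCell 536870912 536870912 0 536870912 1045395039 1503240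
    (rowF 0 false false false .npp 1 0 2 (qsf 536870912 536870912 0 536870912 0) ndB6q1 ndB0q2 pcB0 cut_B60mm_102_s1 Ext.none)

def k0_B60mm_102_s1 : ∃ t, chk3 f_B60mm_102_s1 t 1 1 1 = true :=
  ⟨(l 5), by decide +kernel⟩

theorem c_B60mm_102_s1 : CertF 536870912 536870912 0 536870912 1045395039 1503240 false false false .npp 1 0 2
    ndB6q1 ndB0q2 pcB0 cut_B60mm_102_s1 Ext.none :=
  certF0 (fam := false) (s1 := false) (s2 := false) (a := 1) (b := 0) (c := 2) (cn := .npp) (n1 := ndB6q1) (n2 := ndB0q2) (pc := pcB0) (cut := cut_B60mm_102_s1) (xt := Ext.none) (P1 := 536870912) (W1 := 536870912) (P2 := 0) (W2 := 536870912) (P3 := 1045395039) (W3 := 1503240)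
    rfl k0_B60mm_102_s1

theorem s_B60mm_102_s1 {κ x : ℝ} (hκ : κ * h0 = ken x) (hx : ((1045395039 : ℕ) : ℝ) / S ≤ x)
    (hx' : x ≤ (((1045395039 : ℕ) : ℝ) + (1503240 : ℕ)) / S) :
    AltB (VFD κ) PP tK tL pcB [⟨3, 0, 0, 1449551462⟩] 1 0 2 6 0 (sgb false) (sgb false) x :=
  strip_altBD (m := 1449551462) true rfl hκ (SH.κ0 hκ (SH.hx1 hx).le (SH.hx2 hx').le) (SH.hx1 hx).le (SH.hx2 hx') (covB61).cov (covB02).cov hx hx' c_B60mm_102_s1 cutB_nil (noExt_B)

noncomputable def cut_B60mm_112_s1 : Cut := Cut.of [[⟨4, 0, 0, 1449551462⟩]]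

noncomputable def f_B60mm_112_s1 : ℕ → ℕ → ℕ → ℕ → Bool := onCell 536870912 536870912 0 536870912 1045395039 1503240
    (rowF 0 false false false .dn 1 1 2 (qsf 536870912 536870912 0 536870912 1) ndB6q1 ndB0q2 pcB1 cut_B60mm_112_s1 Ext.none)

def k0_B60mm_112_s1 : ∃ t, chk3 f_B60mm_112_s1 t 1 1 1 = true :=
  ⟨(l 5), by decide +kernel⟩

theorem c_B60mm_112_s1 : CertF 536870912 536870912 0 536870912 1045395039 1503240 false false false .dn 1 1 2
    ndB6q1 ndB0q2 pcB1 cut_B60mm_112_s1 Ext.none :=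
  certF0 (fam := false) (s1 := false) (s2 := false) (a := 1) (b := 1) (c := 2) (cn := .dn) (n1 := ndB6q1) (n2 := ndB0q2) (pc := pcB1) (cut := cut_B60mm_112_s1) (xt := Ext.none) (P1 := 536870912) (W1 := 536870912) (P2 := 0) (W2 := 536870912) (P3 := 1045395039) (W3 := 1503240)
    rfl k0_B60mm_112_s1

theorem s_B60mm_112_s1 {κ x : ℝ} (hκ : κ * h0 = ken x) (hx : ((1045395039 : ℕ) : ℝ) / S ≤ x)
    (hx' : x ≤ (((1045395039 : ℕ) : ℝ) + (1503240 : ℕ)) / S) :
    AltB (VFD κ) PP tK tL pcB [⟨3, 0, 0, 1449551462⟩] 1 1 2 6 0 (sgb false) (sgb false) x :=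
  strip_altBD (m := 1449551462) true rfl hκ (SH.κ0 hκ (SH.hx1 hx).le (SH.hx2 hx').le) (SH.hx1 hx).le (SH.hx2 hx') (covB61).cov (covB02).cov hx hx' c_B60mm_112_s1 cutB_nil (noExt_B)

noncomputable def cut_B60mm_202_s1 : Cut := Cut.of [[⟨4, 0, 0, 1449551462⟩]]

noncomputable def f_B60mm_202_s1 : ℕ → ℕ → ℕ → ℕ → Bool := onCell 1073741824 536870912 0 536870912 1045395039 1503240
    (rowF 0 false false false .pp 2 0 2 (qsf 1073741824 536870912 0 536870912 0) ndB6q2 ndB0q2 pcB0 cut_B60mm_202_s1 Ext.none)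

def k0_B60mm_202_s1 : ∃ t, chk3 f_B60mm_202_s1 t 1 1 1 = true :=
  ⟨(l 5), by decide +kernel⟩

theorem c_B60mm_202_s1 : CertF 1073741824 536870912 0 536870912 1045395039 1503240 false false false .pp 2 0 2
    ndB6q2 ndB0q2 pcB0 cut_B60mm_202_s1 Ext.none :=
  certF0 (fam := false) (s1 := false) (s2 := false) (a := 2) (b := 0) (c := 2) (cn := .pp) (n1 := ndB6q2) (n2 := ndB0q2) (pc := pcB0) (cut := cut_B60mm_202_s1) (xt := Ext.none) (P1 := 1073741824) (W1 := 536870912) (P2 := 0) (W2 := 536870912) (P3 := 1045395039) (W3 := 1503240)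
    rfl k0_B60mm_202_s1

theorem s_B60mm_202_s1 {κ x : ℝ} (hκ : κ * h0 = ken x) (hx : ((1045395039 : ℕ) : ℝ) / S ≤ x)
    (hx' : x ≤ (((1045395039 : ℕ) : ℝ) + (1503240 : ℕ)) / S) :
    AltB (VFD κ) PP tK tL pcB [⟨3, 0, 0, 1449551462⟩] 2 0 2 6 0 (sgb false) (sgb false) x :=
  strip_altBD (m := 1449551462) true rfl hκ (SH.κ0 hκ (SH.hx1 hx).le (SH.hx2 hx').le) (SH.hx1 hx).le (SH.hx2 hx') (covB62).cov (covB02).cov hx hx' c_B60mm_202_s1 cutB_nil (noExt_B)

end Pool.Agent.Strip051.G.I9736_9750.Tab.St.C
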