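import Pool.Agent.Strip051.PB.DgE
import Pool.Agent.Strip051.PB.DgJ
import Pool.Agent.Strip051.G.I9736_9750.Fact

/-! # The corner (1, 1, 2): parameters of the degenerate charts (generated) -/

set_option linter.all false

namespace Pool.Agent.Strip051.G.I9736_9750.Tab.DG

open Pool.Agent.Strip051.PB Pool.Agent.Strip051.PB.Dg Pool.Agent.StripNear Pool.Agent.Strip051.LC

noncomputable def pFma : Fn1 := ⟨_, _, fun h1 => (enc_norm (enc_sub (enc_rat _ 169 3125) (enc_scaleT 4404 625 (enc_subr 9743 10000 h1))))⟩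
noncomputable def pFmb : Fn1 := ⟨_, _, fun h1 => (enc_norm (enc_subr 46213 50000 (enc_scaleT 1693 2000 (enc_subr 9743 10000 h1))))⟩
noncomputable def pFmu : Fn1 := ⟨_, _, fun h1 => (mug3.enc h1)⟩
noncomputable def pFnx : Fn1 := ⟨_, _, fun h1 => (enc_norm (enc_add h1 (enc_pnc _ 3)))⟩
noncomputable def pFc0 : Fn1 := ⟨_, _, fun h1 => (enc_pnc _ 1)⟩
noncomputable def pFkc : Fn1 := ⟨_, _, fun h1 => (enc_norm (enc_sub (enc_rat _ 878276177 1000000000) (enc_scaleT 274885419 50000000 (enc_subr 9743 10000 h1))))⟩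
noncomputable def pFjc : Fn1 := ⟨_, _, fun h1 => (enc_norm (enc_add (enc_scaleT 70303423 500000 (enc_subr 9743 10000 h1)) (enc_rat _ 229986103 10000000)))⟩
noncomputable def pFca : Fn1 := ⟨_, _, fun h1 => (enc_norm (enc_add (enc_scaleT 3095 8 (enc_subr 9743 10000 h1)) (enc_rat _ 2879 2500)))⟩
noncomputable def pFcb : Fn1 := ⟨_, _, fun h1 => (enc_norm (enc_subr 106 625 (enc_neg (enc_scaleT 9619 50 (enc_subr 9743 10000 h1)))))⟩
noncomputable def pFcc : Fn1 := ⟨_, _, fun h1 => (enc_norm (enc_sub (enc_rat _ 79 1250) (enc_scaleT 4473 500 (enc_subr 9743 10000 h1))))⟩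
noncomputable def pFsv : Fn1 := ⟨_, _, fun h1 => (enc_norm (enc_subr 27 2048 h1))⟩
noncomputable def pFx11 : Fn1 := ⟨_, _, fun h1 => (cv1m.enc h1)⟩
noncomputable def pFx01 : Fn1 := ⟨_, _, fun h1 => (c1g.enc h1)⟩
noncomputable def pFK11 : Fn2 := ⟨_, _, fun h1 h2 => (kf1q1.enc h1 h2)⟩
noncomputable def pFK01 : Fn2 := ⟨_, _, fun h1 h2 => (kf0q1.enc h1 h2)⟩
noncomputable def pFL11 : Fn2 := ⟨_, _, fun h1 h2 => (l1q1.enc h1 h2)⟩
noncomputable def pFL01 : Fn2 := ⟨_, _, fun h1 h2 => (l0q1.enc h1 h2)⟩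
noncomputable def kFc0 : Fn1 := ⟨_, _, fun h1 => (enc_norm (enc_add (enc_scaleT 1 500000 (enc_subr 9743 10000 h1)) (enc_rat _ 11 35000000)))⟩
noncomputable def kFc0g : Fn1 := ⟨_, _, fun h1 => (enc_norm (enc_subr 659 10000 (enc_neg (enc_scaleT 13259 500 (enc_subr 9743 10000 h1)))))⟩
noncomputable def kFc1 : Fn1 := ⟨_, _, fun h1 => (enc_norm (enc_add (enc_scaleT 1917529 309335675000 (enc_subr 9743 10000 h1)) (enc_rat _ 4124773 8661398900000)))⟩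
noncomputable def kFc1g : Fn1 := ⟨_, _, fun h1 => (enc_norm (enc_subr 1183321 500 (enc_neg (enc_scaleT 19947 20 (enc_subr 9743 10000 h1)))))⟩
noncomputable def kFa0 : Fn1 := ⟨_, _, fun h1 => (enc_norm (enc_subr 3 35000000 (enc_scaleT 3 700000 (enc_subr 9743 10000 h1))))⟩
noncomputable def kFa0g : Fn1 := ⟨_, _, fun h1 => (enc_norm (enc_subr 1391 5000 (enc_neg (enc_scaleT 96389 200 (enc_subr 9743 10000 h1)))))⟩
noncomputable def kFa1 : Fn1 := ⟨_, _, fun h1 => (enc_norm (enc_subr 261311 879375000000 (enc_scaleT 3368583 58625000000 (enc_subr 9743 10000 h1))))⟩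
noncomputable def kFa1g : Fn1 := ⟨_, _, fun h1 => (enc_norm (enc_subr 11707 2000 (enc_neg (enc_scaleT 9697 250 (enc_subr 9743 10000 h1)))))⟩
noncomputable def kFb0 : Fn1 := ⟨_, _, fun h1 => (enc_norm (enc_add (enc_scaleT 61 7000000 (enc_subr 9743 10000 h1)) (enc_rat _ 69 35000000)))⟩
noncomputable def kFb0g : Fn1 := ⟨_, _, fun h1 => (enc_norm (enc_add (enc_scaleT 260991 1000 (enc_subr 9743 10000 h1)) (enc_rat _ 497 5000)))⟩
noncomputable def kFb1_2 : Fn1 := ⟨_, _, fun h1 => (enc_subr 9743 10000 h1)⟩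
noncomputable def kFb1 : Fn1 := ⟨_, _, fun h1 => (enc_norm (enc_subr 169092621001 433069945000000000 (enc_mul (enc_norm (enc_sub (enc_rat _ 95644491317 43306994500000000) (enc_scaleT 14291033 1237342700000 (kFb1_2.enc h1)))) (enc_norm (kFb1_2.enc h1)))))⟩
noncomputable def kFb1g_2 : Fn1 := ⟨_, _, fun h1 => (enc_subr 9743 10000 h1)⟩
noncomputable def kFb1g : Fn1 := ⟨_, _, fun h1 => (enc_norm (enc_add (enc_mul (enc_norm (enc_subr 46327 1000 (enc_scaleT 164987 100 (kFb1g_2.enc h1)))) (enc_norm (kFb1g_2.enc h1))) (enc_rat _ 5731 2000)))⟩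
noncomputable def kFd0 : Fn1 := ⟨_, _, fun h1 => (enc_norm (enc_add (enc_scaleT 19 875000 (enc_subr 9743 10000 h1)) (enc_rat _ 27 7000000)))⟩
noncomputable def kFd0g : Fn1 := ⟨_, _, fun h1 => (enc_norm (enc_subr 397 5000 (enc_scaleT 40037 1000 (enc_subr 9743 10000 h1))))⟩
noncomputable def kFd1_2 : Fn1 := ⟨_, _, fun h1 => (enc_subr 9743 10000 h1)⟩
noncomputable def kFd1 : Fn1 := ⟨_, _, fun h1 => (enc_norm (enc_subr 46920867152389 43523529472500000000 (enc_mul (enc_norm (enc_sub (enc_rat _ 89770012606121 1450784315750000000) (enc_scaleT 14291033 618671350000 (kFd1_2.enc h1)))) (enc_norm (kFd1_2.enc h1)))))⟩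
noncomputable def kFd1g_2 : Fn1 := ⟨_, _, fun h1 => (enc_subr 9743 10000 h1)⟩
noncomputable def kFd1g : Fn1 := ⟨_, _, fun h1 => (enc_norm (enc_subr 49 400 (enc_mul (enc_norm (enc_subr 65721 500 (enc_scaleT 164987 50 (kFd1g_2.enc h1)))) (enc_norm (kFd1g_2.enc h1)))))⟩
noncomputable def kFe0 : Fn1 := ⟨_, _, fun h1 => (enc_norm (enc_add (enc_scaleT 13 1000000 (enc_subr 9743 10000 h1)) (enc_rat _ 33 17500000)))⟩
noncomputable def kFe0g : Fn1 := ⟨_, _, fun h1 => (enc_norm (enc_subr 447 2500 (enc_neg (enc_scaleT 110477 500 (enc_subr 9743 10000 h1)))))⟩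
noncomputable def kFe1_2 : Fn1 := ⟨_, _, fun h1 => (enc_subr 9743 10000 h1)⟩
noncomputable def kFe1 : Fn1 := ⟨_, _, fun h1 => (enc_norm (enc_subr 59854117483577 87047058945000000000 (enc_mul (enc_norm (enc_sub (enc_rat _ 24733120613429 414509804500000000) (enc_scaleT 14291033 1237342700000 (kFe1_2.enc h1)))) (enc_norm (kFe1_2.enc h1)))))⟩
noncomputable def kFe1g_2 : Fn1 := ⟨_, _, fun h1 => (enc_subr 9743 10000 h1)⟩
noncomputable def kFe1g : Fn1 := ⟨_, _, fun h1 => (enc_norm (enc_subr 747 250 (enc_mul (enc_norm (enc_subr 17023 200 (enc_scaleT 164987 100 (kFe1g_2.enc h1)))) (enc_norm (kFe1g_2.enc h1)))))⟩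
noncomputable def cFxs1 : Fn1 := ⟨_, _, fun h1 => (enc_norm (enc_add (enc_scaleT 3 4 (dgxi.enc h1)) (enc_scaleT 1 4 (dgws.enc h1))))⟩
noncomputable def cFsB1 : Fn2 := ⟨_, _, fun h1 h2 => (enc_norm (enc_subr 78592 34375 (enc_neg (enc_scaleT 22656 6875 (enc_subr 9743 10000 h2)))))⟩
noncomputable def cFBs1 : Fn2 := ⟨_, _, fun h1 h2 => (cFsB1.enc h1 h2)⟩
noncomputable def cFsX1 : Fn2 := ⟨_, _, fun h1 h2 => (enc_norm (enc_subr 213248 103125 (enc_scaleT 2304 6875 (enc_subr 9743 10000 h2))))⟩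
noncomputable def cFsD1 : Fn2 := ⟨_, _, fun h1 h2 => (enc_norm (enc_neg (enc_scaleT 10 77 (enc_subr 9743 10000 h2))))⟩
noncomputable def cFsDD1 : Fn2 := ⟨_, _, fun h1 h2 => (cFsD1.enc h1 h2)⟩
noncomputable def cFxs2 : Fn1 := ⟨_, _, fun h1 => (enc_norm (enc_add (enc_scaleT 7 20 (dgxi.enc h1)) (enc_scaleT 13 20 (dgws.enc h1))))⟩
noncomputable def cFsB2 : Fn2 := ⟨_, _, fun h1 h2 => (enc_norm (enc_subr 30208 9375 (enc_scaleT 128 20625 (enc_subr 9743 10000 h2))))⟩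
noncomputable def cFBs2 : Fn2 := ⟨_, _, fun h1 h2 => (cFsB2.enc h1 h2)⟩
noncomputable def cFsX2 : Fn2 := ⟨_, _, fun h1 h2 => (enc_norm (enc_subr 2112 3125 (enc_scaleT 17408 20625 (enc_subr 9743 10000 h2))))⟩
noncomputable def cFsD2 : Fn2 := ⟨_, _, fun h1 h2 => (enc_norm (enc_add (enc_scaleT 59 155 (enc_subr 9743 10000 h2)) (enc_rat _ 16143 310)))⟩
noncomputable def cFsDD2 : Fn2 := ⟨_, _, fun h1 h2 => (cFsD2.enc h1 h2)⟩
noncomputable def nFsc2 : Fn1 := ⟨_, _, fun h1 => (enc_scaleT 13 20 h1)⟩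
noncomputable def nFB2_3 : Fn2 := ⟨_, _, fun h1 h2 => (enc_subr 9743 10000 h2)⟩
noncomputable def nFB2 : Fn2 := ⟨_, _, fun h1 h2 => (enc_norm (enc_add (enc_subr 23021 50000 (enc_neg (enc_scaleT 75867 10000 (nFB2_3.enc h1 h2)))) (enc_mul h1 (enc_norm (enc_add (enc_scaleT 97000000 54765409 (nFB2_3.enc h1 h2)) (enc_rat _ 51830000 54765409))))))⟩
noncomputable def nFX2_3 : Fn2 := ⟨_, _, fun h1 h2 => (enc_subr 9743 10000 h2)⟩
noncomputable def nFX2 : Fn2 := ⟨_, _, fun h1 h2 => (enc_norm (enc_add (enc_sub (enc_rat _ 4619 5000) (enc_scaleT 2883 2000 (nFX2_3.enc h1 h2))) (enc_mul h1 (enc_norm (enc_add (enc_scaleT 556000000 54765409 (nFX2_3.enc h1 h2)) (enc_rat _ 2650000 54765409))))))⟩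
noncomputable def nFD2_3 : Fn2 := ⟨_, _, fun h1 h2 => (enc_subr 9743 10000 h2)⟩
noncomputable def nFD2 : Fn2 := ⟨_, _, fun h1 h2 => (enc_norm (enc_add (enc_sub (enc_rat _ 24519 5000) (enc_scaleT 43 200 (nFD2_3.enc h1 h2))) (enc_mul h1 (enc_norm (enc_add (enc_scaleT 2937500 806691 (nFD2_3.enc h1 h2)) (enc_rat _ 2895700000 13713747))))))⟩
noncomputable def nFsc3 : Fn1 := ⟨_, _, fun h1 => (enc_norm (enc_add (enc_scaleT 1929 2000 h1) (enc_rat _ 71 2000)))⟩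
noncomputable def nFB3 : Fn2 := ⟨_, _, fun h1 h2 => (enc_norm (enc_subr 312560000 54765409 (enc_scaleT 1214900000 54765409 (enc_subr 9743 10000 h2))))⟩
noncomputable def nFX3 : Fn2 := ⟨_, _, fun h1 h2 => (enc_norm (enc_sub (enc_rat _ 17160000 54765409) (enc_scaleT 2245300000 54765409 (enc_subr 9743 10000 h2))))⟩
noncomputable def nFD3 : Fn2 := ⟨_, _, fun h1 h2 => (enc_norm (enc_add (enc_scaleT 32959340000717 36643131984 (enc_subr 9743 10000 h2)) (enc_rat _ 34039364361413 366431319840)))⟩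
noncomputable def nFsc4 : Fn1 := ⟨_, _, fun h1 => (enc_norm (enc_add (enc_scaleT 17 20 h1) (enc_rat _ 3 20)))⟩
noncomputable def nFB4 : Fn2 := ⟨_, _, fun h1 h2 => (enc_norm (enc_subr 153680000 54765409 (enc_neg (enc_scaleT 34800000 54765409 (enc_subr 9743 10000 h2)))))⟩
noncomputable def nFX4 : Fn2 := ⟨_, _, fun h1 h2 => (enc_norm (enc_sub (enc_rat _ 8420000 54765409) (enc_scaleT 119500000 54765409 (enc_subr 9743 10000 h2))))⟩
noncomputable def nFD4 : Fn2 := ⟨_, _, fun h1 h2 => (enc_norm (enc_sub (enc_rat _ 128556406250 2290195749) (enc_scaleT 39791500000 2290195749 (enc_subr 9743 10000 h2))))⟩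
noncomputable def nFsc5 : Fn1 := ⟨_, _, fun h1 => (enc_norm (enc_add (enc_scaleT 3 10 h1) (enc_rat _ 7 10)))⟩
noncomputable def nFB5 : Fn2 := ⟨_, _, fun h1 h2 => (enc_norm (enc_subr 37400000 54765409 (enc_neg (enc_scaleT 16900000 54765409 (enc_subr 9743 10000 h2)))))⟩
noncomputable def nFX5 : Fn2 := ⟨_, _, fun h1 h2 => (enc_norm (enc_subr 980000 54765409 (enc_neg (enc_scaleT 54600000 54765409 (enc_subr 9743 10000 h2)))))⟩
noncomputable def nFD5 : Fn2 := ⟨_, _, fun h1 h2 => (enc_norm (enc_sub (enc_rat _ 70221218750 2290195749) (enc_scaleT 39885437500 2290195749 (enc_subr 9743 10000 h2))))⟩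
noncomputable def l12F : List Knk := [⟨1, 100, kFc0, kFc0g⟩, ⟨17, 1000, kFc1, kFc1g⟩]
noncomputable def laF : List Knk := [⟨1, 100, kFa0, kFa0g⟩, ⟨17, 1000, kFa1, kFa1g⟩]
noncomputable def lbF : List Knk := [⟨1, 100, kFb0, kFb0g⟩, ⟨17, 1000, kFb1, kFb1g⟩]
noncomputable def l1F : List Knk := [⟨1, 100, kFe0, kFe0g⟩, ⟨17, 1000, kFe1, kFe1g⟩]
noncomputable def l2F : List Knk := [⟨1, 100, kFd0, kFd0g⟩, ⟨17, 1000, kFd1, kFd1g⟩]
noncomputable def cvF1 : CvP := ⟨cFxs1, cFBs1, cFsX1⟩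
noncomputable def cvF2 : CvP := ⟨cFxs2, cFBs2, cFsX2⟩
noncomputable def ndF2 : NdU := ⟨nFsc2, nFB2, nFX2, nFD2⟩
noncomputable def ndF3 : NdU := ⟨nFsc3, nFB3, nFX3, nFD3⟩
noncomputable def ndF4 : NdU := ⟨nFsc4, nFB4, nFX4, nFD4⟩
noncomputable def ndF5 : NdU := ⟨nFsc5, nFB5, nFX5, nFD5⟩
noncomputable def pF : Pm := ⟨pFma, pFmb, pFmu, pFnx, pFc0, pFkc, pFjc, pFkc, pFjc, pFkc, pFjc, pFca, pFcb, pFcc, pFcc, pFcc, pFsv, l12F, l12F, l12F, laF, lbF, l1F, l2F, cvF1, pFx11, pFx01, pFK11, pFK01, pFL11, pFL01⟩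
noncomputable def pNc0 : Fn1 := ⟨_, _, fun h1 => (eng.enc h1)⟩
noncomputable def pNkc : Fn1 := ⟨_, _, fun h1 => (enc_norm (enc_mul (pNc0.enc h1) (enc_norm (enc_sub (enc_rat _ 878276177 1000000000) (enc_scaleT 274885419 50000000 (enc_subr 9743 10000 h1))))))⟩
noncomputable def pNjc : Fn1 := ⟨_, _, fun h1 => (enc_norm (enc_mul (pNc0.enc h1) (enc_norm (enc_add (enc_scaleT 70303423 500000 (enc_subr 9743 10000 h1)) (enc_rat _ 229986103 10000000)))))⟩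
noncomputable def pNcc : Fn1 := ⟨_, _, fun h1 => (enc_norm (enc_mul (pNc0.enc h1) (enc_norm (enc_sub (enc_rat _ 79 1250) (enc_scaleT 4473 500 (enc_subr 9743 10000 h1))))))⟩
noncomputable def pNK11 : Fn2 := ⟨_, _, fun h1 h2 => (enc_norm (enc_mul (pNc0.enc h2) (kf1q1.enc h1 h2)))⟩
noncomputable def pNK01 : Fn2 := ⟨_, _, fun h1 h2 => (enc_norm (enc_mul (pNc0.enc h2) (kf0q1.enc h1 h2)))⟩
noncomputable def kNc0 : Fn1 := ⟨_, _, fun h1 => (enc_norm (enc_mul (pNc0.enc h1) (enc_norm (enc_add (enc_scaleT 1 500000 (enc_subr 9743 10000 h1)) (enc_rat _ 11 35000000)))))⟩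
noncomputable def kNc0g : Fn1 := ⟨_, _, fun h1 => (enc_norm (enc_mul (pNc0.enc h1) (enc_norm (enc_subr 659 10000 (enc_neg (enc_scaleT 13259 500 (enc_subr 9743 10000 h1)))))))⟩
noncomputable def kNc1 : Fn1 := ⟨_, _, fun h1 => (enc_norm (enc_mul (pNc0.enc h1) (enc_norm (enc_add (enc_scaleT 1917529 309335675000 (enc_subr 9743 10000 h1)) (enc_rat _ 4124773 8661398900000)))))⟩
noncomputable def kNc1g : Fn1 := ⟨_, _, fun h1 => (enc_norm (enc_mul (pNc0.enc h1) (enc_norm (enc_subr 1183321 500 (enc_neg (enc_scaleT 19947 20 (enc_subr 9743 10000 h1)))))))⟩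
noncomputable def cNBs1 : Fn2 := ⟨_, _, fun h1 h2 => (enc_norm (enc_mul (pNc0.enc h2) (cFsB1.enc h1 h2)))⟩
noncomputable def cNBs2 : Fn2 := ⟨_, _, fun h1 h2 => (enc_norm (enc_mul (pNc0.enc h2) (cFsB2.enc h1 h2)))⟩
noncomputable def nNB2_4 : Fn2 := ⟨_, _, fun h1 h2 => (enc_subr 9743 10000 h2)⟩
noncomputable def nNB2 : Fn2 := ⟨_, _, fun h1 h2 => (enc_norm (enc_mul (pNc0.enc h2) (enc_norm (enc_add (enc_subr 23021 50000 (enc_neg (enc_scaleT 75867 10000 (nNB2_4.enc h1 h2)))) (enc_mul h1 (enc_norm (enc_add (enc_scaleT 97000000 54765409 (nNB2_4.enc h1 h2)) (enc_rat _ 51830000 54765409))))))))⟩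
noncomputable def nNB3 : Fn2 := ⟨_, _, fun h1 h2 => (enc_norm (enc_mul (pNc0.enc h2) (enc_norm (enc_subr 312560000 54765409 (enc_scaleT 1214900000 54765409 (enc_subr 9743 10000 h2))))))⟩
noncomputable def nNB4 : Fn2 := ⟨_, _, fun h1 h2 => (enc_norm (enc_mul (pNc0.enc h2) (enc_norm (enc_subr 153680000 54765409 (enc_neg (enc_scaleT 34800000 54765409 (enc_subr 9743 10000 h2)))))))⟩
noncomputable def nNB5 : Fn2 := ⟨_, _, fun h1 h2 => (enc_norm (enc_mul (pNc0.enc h2) (enc_norm (enc_subr 37400000 54765409 (enc_neg (enc_scaleT 16900000 54765409 (enc_subr 9743 10000 h2)))))))⟩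
noncomputable def umo : Fn1 := ⟨_, _, fun h1 => (mog.enc h1)⟩
noncomputable def us1 : Fn1 := ⟨_, _, fun h1 => (enc_norm (enc_add (enc_scaleT 1847 8 (enc_subr 9743 10000 h1)) (enc_rat _ 917 40)))⟩
noncomputable def us2 : Fn1 := ⟨_, _, fun h1 => (enc_norm (enc_add (enc_scaleT 11 40 (enc_subr 9743 10000 h1)) (enc_rat _ 34411 2000)))⟩
noncomputable def us3 : Fn1 := ⟨_, _, fun h1 => (enc_norm (enc_add (enc_scaleT 1276 167 (enc_subr 9743 10000 h1)) (enc_rat _ 35373 1670)))⟩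
noncomputable def uC11 : Fn2 := ⟨_, _, fun h1 h2 => (kc1q1.enc h1 h2)⟩
noncomputable def uC01 : Fn2 := ⟨_, _, fun h1 h2 => (kc0q1.enc h1 h2)⟩
noncomputable def kNu1_0 : Fn1 := ⟨_, _, fun h1 => (enc_norm (enc_add (enc_scaleT 107 8 (enc_subr 9743 10000 h1)) (enc_rat _ 317 40)))⟩
noncomputable def kNu1_0g : Fn1 := ⟨_, _, fun h1 => (enc_pnc _ 0)⟩
noncomputable def kNu1_1 : Fn1 := ⟨_, _, fun h1 => (enc_norm (enc_add (enc_scaleT 5 4 (enc_subr 9743 10000 h1)) (enc_rat _ 36 5)))⟩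
noncomputable def kNu1_1g : Fn1 := ⟨_, _, fun h1 => (enc_pnc _ 0)⟩
noncomputable def kNu1_2 : Fn1 := ⟨_, _, fun h1 => (enc_norm (enc_add (enc_scaleT 1 4 (enc_subr 9743 10000 h1)) (enc_rat _ 1279 40)))⟩
noncomputable def kNu1_2g : Fn1 := ⟨_, _, fun h1 => (enc_pnc _ 0)⟩
noncomputable def kNu1_3 : Fn1 := ⟨_, _, fun h1 => (enc_norm (enc_add (enc_scaleT 12225278047 23800000000 (enc_subr 9743 10000 h1)) (enc_rat _ 95318707 5950000000)))⟩
noncomputable def kNu1_3g : Fn1 := ⟨_, _, fun h1 => (enc_pnc _ 0)⟩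
noncomputable def l12N : List Knk := [⟨1, 100, kNc0, kNc0g⟩, ⟨17, 1000, kNc1, kNc1g⟩]
noncomputable def cvN1 : CvP := ⟨cFxs1, cNBs1, cFsX1⟩
noncomputable def cvN2 : CvP := ⟨cFxs2, cNBs2, cFsX2⟩
noncomputable def ndN2 : NdU := ⟨nFsc2, nNB2, nFX2, nFD2⟩
noncomputable def ndN3 : NdU := ⟨nFsc3, nNB3, nFX3, nFD3⟩
noncomputable def ndN4 : NdU := ⟨nFsc4, nNB4, nFX4, nFD4⟩
noncomputable def ndN5 : NdU := ⟨nFsc5, nNB5, nFX5, nFD5⟩
noncomputable def pN : Pm := ⟨pFma, pFmb, pFmu, pFnx, pNc0, pNkc, pNjc, pNkc, pNjc, pNkc, pNjc, pFca, pFcb, pNcc, pNcc, pNcc, pFsv, l12N, l12N, l12N, laF, lbF, l1F, l2F, cvN1, pFx11, pFx01, pNK11, pNK01, pFL11, pFL01⟩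
noncomputable def ul1 : List Knk := [⟨1, 125, kNu1_0, kNu1_0g⟩, ⟨3, 250, kNu1_1, kNu1_1g⟩, ⟨2, 125, kNu1_2, kNu1_2g⟩, ⟨1, 50, kNu1_3, kNu1_3g⟩]
noncomputable def ul2 : List Knk := []
noncomputable def ul3 : List Knk := []
noncomputable def qN : Pu := ⟨umo, us1, us2, us3, ul1, ul2, ul3, cFsDD1, uC11, uC01⟩

end Pool.Agent.Strip051.G.I9736_9750.Tab.DG
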