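import Pool.Agent.Strip051.G.I9736_9750.DgP

/-! # The corner (1, 1, 2): facts for the degenerate charts (generated) -/

set_option linter.all false

namespace Pool.Agent.Strip051.G.I9736_9750.Tab.DG

open Pool.Agent.Strip051.PB Pool.Agent.Strip051.PB.Dg Pool.Agent.StripNear Pool.Agent.Strip051.LC

theorem kcN {h x : ℝ} (r0 : 0 ≤ h) (r1 : h ≤ (117 / 5000)) :
    kcg.v (h - 1 / 2) x = -(((878276177 / 1000000000) + (-(274885419 / 50000000)) * (x - (9743 / 10000))) + ((229986103 / 10000000) + (70303423 / 500000) * (x - (9743 / 10000))) * h + (((79 / 1250) + (-(4473 / 500)) * (x - (9743 / 10000))) * h ^ 2 + (mx 1 100 h * (((11 / 35000000) + (1 / 500000) * (x - (9743 / 10000))) + mx 1 100 h * ((-(659 / 10000)) + (-(13259 / 500)) * (x - (9743 / 10000)))) + mx 17 1000 h * (((4124773 / 8661398900000) + (1917529 / 309335675000) * (x - (9743 / 10000))) + mx 17 1000 h * ((-(1183321 /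 500)) + (-(19947 / 20)) * (x - (9743 / 10000))))))) := by
  simp only [kcg_3, kcg_6, kcg_9, kcg_12, kcg_13, kcg_18, kcg_30, kcg_33, kcg_34, kcg_39, kcg_44, kcg_57, kcg_58, kcg_66, kcg_67, kcg_72, kcg_85, kcg_86, kcg_91, kcg_94, kcg_107, kcg_108, kcg_117, kcg_120, kcg_121, kcg_124, kcg_136, kcg_137, kcg_142, kcg_145, kcg_157, kcg_158, kcg_166, kcg_167, kcg_170, kcg_180, kcg_181, kcg_189, kcg_192, kcg_200, kcg_201, kcg_206, kcg_209, kcg_216, kcg_217, kcg_218, kcg_223, kcg_224, kcg_233, kcg_239, kcg_244, kcg_254, kcg_261, kcg_262, kcg_268, kcg_278, kcg_284, kcg_291, kcg_303, kcg]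
  rcases le_or_gt h ((1 / 100)) with c0 | c0
  · rw [mx_lo (a := 1) (b := 100) (h := h) (by push_cast; linarith), mx_lo (a := 17) (b := 1000) (h := h) (by push_cast; linarith)]
    ((try push_cast); (repeat first | rw [if_pos (by linarith)] | rw [if_neg (by linarith)] | erw [if_pos (by linarith)] | erw [if_neg (by linarith)]))
    ring1
  · skip
    rcases le_or_gt h ((17 / 1000)) with c1 | c1
    · rw [mx_hi (a := 1) (b := 100) (h := h) (by push_cast; linarith), mx_lo (a := 17) (b := 1000) (h := h) (by push_cast; linarith)]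
      ((try push_cast); (repeat first | rw [if_pos (by linarith)] | rw [if_neg (by linarith)] | erw [if_pos (by linarith)] | erw [if_neg (by linarith)]))
      ring1
    · rw [mx_hi (a := 1) (b := 100) (h := h) (by push_cast; linarith), mx_hi (a := 17) (b := 1000) (h := h) (by push_cast; linarith)]
      ((try push_cast); (repeat first | rw [if_pos (by linarith)] | rw [if_neg (by linarith)] | erw [if_pos (by linarith)] | erw [if_neg (by linarith)]))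
      ring1
theorem kcP {h x : ℝ} (r0 : 0 ≤ h) (r1 : h ≤ (117 / 5000)) :
    kcg.v (1 / 2 - h) x = ((878276177 / 1000000000) + (-(274885419 / 50000000)) * (x - (9743 / 10000))) + ((229986103 / 10000000) + (70303423 / 500000) * (x - (9743 / 10000))) * h + (((79 / 1250) + (-(4473 / 500)) * (x - (9743 / 10000))) * h ^ 2 + (mx 1 100 h * (((11 / 35000000) + (1 / 500000) * (x - (9743 / 10000))) + mx 1 100 h * ((-(659 / 10000)) + (-(13259 / 500)) * (x - (9743 / 10000)))) + mx 17 1000 h * (((4124773 / 8661398900000) + (1917529 / 309335675000) * (x - (9743 / 10000))) + mx 17 1000 h * ((-(1183321 / 500)) + (-(19947 / 20)) * (x - (9743 / 10000)))))) := by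
  simp only [kcg_3, kcg_6, kcg_9, kcg_12, kcg_13, kcg_18, kcg_30, kcg_33, kcg_34, kcg_39, kcg_44, kcg_57, kcg_58, kcg_66, kcg_67, kcg_72, kcg_85, kcg_86, kcg_91, kcg_94, kcg_107, kcg_108, kcg_117, kcg_120, kcg_121, kcg_124, kcg_136, kcg_137, kcg_142, kcg_145, kcg_157, kcg_158, kcg_166, kcg_167, kcg_170, kcg_180, kcg_181, kcg_189, kcg_192, kcg_200, kcg_201, kcg_206, kcg_209, kcg_216, kcg_217, kcg_218, kcg_223, kcg_224, kcg_233, kcg_239, kcg_244, kcg_254, kcg_261, kcg_262, kcg_268, kcg_278, kcg_284, kcg_291, kcg_303, kcg]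
  rcases le_or_gt h ((1 / 100)) with c0 | c0
  · rw [mx_lo (a := 1) (b := 100) (h := h) (by push_cast; linarith), mx_lo (a := 17) (b := 1000) (h := h) (by push_cast; linarith)]
    ((try push_cast); (repeat first | rw [if_pos (by linarith)] | rw [if_neg (by linarith)] | erw [if_pos (by linarith)] | erw [if_neg (by linarith)]))
    ring1
  · skip
    rcases le_or_gt h ((17 / 1000)) with c1 | c1
    · rw [mx_hi (a := 1) (b := 100) (h := h) (by push_cast; linarith), mx_lo (a := 17) (b := 1000) (h := h) (by push_cast; linarith)]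
      ((try push_cast); (repeat first | rw [if_pos (by linarith)] | rw [if_neg (by linarith)] | erw [if_pos (by linarith)] | erw [if_neg (by linarith)]))
      ring1
    · rw [mx_hi (a := 1) (b := 100) (h := h) (by push_cast; linarith), mx_hi (a := 17) (b := 1000) (h := h) (by push_cast; linarith)]
      ((try push_cast); (repeat first | rw [if_pos (by linarith)] | rw [if_neg (by linarith)] | erw [if_pos (by linarith)] | erw [if_neg (by linarith)]))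
      ring1
theorem taG {p c h x : ℝ} (hp : p = h - 1 / 2) (r0 : 0 ≤ h) (r1 : h ≤ (117 / 5000)) :
    txg.v p c x = ((0)) + ((169 / 3125) + (-(4404 / 625)) * (x - (9743 / 10000))) * h + (((2879 / 2500) + (3095 / 8) * (x - (9743 / 10000))) * h ^ 2 + (mx 1 100 h * (((-(3 / 35000000)) + (3 / 700000) * (x - (9743 / 10000))) + mx 1 100 h * ((-(1391 / 5000)) + (-(96389 / 200)) * (x - (9743 / 10000)))) + mx 17 1000 h * (((-(261311 / 879375000000)) + (3368583 / 58625000000) * (x - (9743 / 10000))) + mx 17 1000 h * ((-(11707 / 2000)) + (-(9697 / 250)) * (x - (9743 / 10000)))))) := by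
  rw [hp]
  simp only [txg_4, txg_6, txg_26, txg_29, txg_32, txg_35, txg_38, txg_55, txg_58, txg_59, txg_77, txg_78, txg_86, txg_100, txg_101, txg_121, txg_122, txg_131, txg_134, txg_152, txg_153, txg_172, txg_173, txg_181, txg_196, txg_197, txg_216, txg_217, txg_227, txg_230, txg_233, txg_248, txg_249, txg_268, txg_269, txg_277, txg_292, txg_293, txg_312, txg_313, txg_322, txg_325, txg_337, txg_338, txg_354, txg_355, txg_363, txg_376, txg_377, txg_396, txg_397, txg_406, txg_408, txg_411, txg_413, txg_428, txg_429, txg_448, txg_449, txg_455, txg_470, txg_471, txg_490, txg_491, txg_498, txg_499, txg_512, txg_513, txg_531, txg_532, txg_538, txg_552, txg_553, txg_571, txg_572, txg_580, txg_581, txg_582, txg_598, txg_599, txg_617, txg_618, txg_624, txg_640, txg_641, txg_661, txg_662, txg_669, txg_670, txg_687, txg_688, txg_709, txg_710, txg_716, txg_733, txg_734, txg_753, txg_764,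 txg_765, txg_776, txg_777, txg_800, txg_801, txg_806, txg_821, txg_822, txg_843, txg_844, txg]
  rcases le_or_gt h ((1 / 100)) with c0 | c0
  · rw [mx_lo (a := 1) (b := 100) (h := h) (by push_cast; linarith), mx_lo (a := 17) (b := 1000) (h := h) (by push_cast; linarith)]
    ((try push_cast); (repeat first | rw [if_pos (by linarith)] | rw [if_neg (by linarith)] | erw [if_pos (by linarith)] | erw [if_neg (by linarith)]))
    ring1
  · skip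
    rcases le_or_gt h ((17 / 1000)) with c1 | c1
    · rw [mx_hi (a := 1) (b := 100) (h := h) (by push_cast; linarith), mx_lo (a := 17) (b := 1000) (h := h) (by push_cast; linarith)]
      ((try push_cast); (repeat first | rw [if_pos (by linarith)] | rw [if_neg (by linarith)] | erw [if_pos (by linarith)] | erw [if_neg (by linarith)]))
      ring1
    · rw [mx_hi (a := 1) (b := 100) (h := h) (by push_cast; linarith), mx_hi (a := 17) (b := 1000) (h := h) (by push_cast; linarith)]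
      ((try push_cast); (repeat first | rw [if_pos (by linarith)] | rw [if_neg (by linarith)] | erw [if_pos (by linarith)] | erw [if_neg (by linarith)]))
      ring1
theorem tbG {p c h x : ℝ} (hp : p = 1 / 2 - h) (r0 : 0 ≤ h) (r1 : h ≤ (117 / 5000)) :
    txg.v p c x = -(((0)) + ((-(46213 / 50000)) + (1693 / 2000) * (x - (9743 / 10000))) * h + (((-(106 / 625)) + (-(9619 / 50)) * (x - (9743 / 10000))) * h ^ 2 + (mx 1 100 h * (((69 / 35000000) + (61 / 7000000) * (x - (9743 / 10000))) + mx 1 100 h * ((497 / 5000) + (260991 / 1000) * (x - (9743 / 10000)))) + mx 17 1000 h * (((-(169092621001 / 433069945000000000)) + (95644491317 / 43306994500000000) * (x - (9743 / 10000)) + (-(14291033 / 1237342700000)) * (x - (9743 / 10000)) ^ 2) + mx 17 1000 h * ((5731 / 2000) + (-(46327 / 1000)) * (x - (9743 / 10000)) + (164987 / 100) * (x - (9743 / 10000)) ^ 2))))) := by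
  rw [hp]
  simp only [txg_4, txg_6, txg_26, txg_29, txg_32, txg_35, txg_38, txg_55, txg_58, txg_59, txg_77, txg_78, txg_86, txg_100, txg_101, txg_121, txg_122, txg_131, txg_134, txg_152, txg_153, txg_172, txg_173, txg_181, txg_196, txg_197, txg_216, txg_217, txg_227, txg_230, txg_233, txg_248, txg_249, txg_268, txg_269, txg_277, txg_292, txg_293, txg_312, txg_313, txg_322, txg_325, txg_337, txg_338, txg_354, txg_355, txg_363, txg_376, txg_377, txg_396, txg_397, txg_406, txg_408, txg_411, txg_413, txg_428, txg_429, txg_448, txg_449, txg_455, txg_470, txg_471, txg_490, txg_491, txg_498, txg_499, txg_512, txg_513, txg_531, txg_532, txg_538, txg_552, txg_553, txg_571, txg_572, txg_580, txg_581, txg_582, txg_598, txg_599, txg_617, txg_618, txg_624, txg_640, txg_641, txg_661, txg_662, txg_669, txg_670, txg_687, txg_688, txg_709, txg_710, txg_716, txg_733, txg_734, txg_753, txg_764,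 txg_765, txg_776, txg_777, txg_800, txg_801, txg_806, txg_821, txg_822, txg_843, txg_844, txg]
  rcases lt_or_ge h ((1 / 100)) with c0 | c0
  · rw [mx_lo (a := 1) (b := 100) (h := h) (by push_cast; linarith), mx_lo (a := 17) (b := 1000) (h := h) (by push_cast; linarith)]
    ((try push_cast); (repeat first | rw [if_pos (by linarith)] | rw [if_neg (by linarith)] | erw [if_pos (by linarith)] | erw [if_neg (by linarith)]))
    ring1
  · skip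
    rcases lt_or_ge h ((17 / 1000)) with c1 | c1
    · rw [mx_hi (a := 1) (b := 100) (h := h) (by push_cast; linarith), mx_lo (a := 17) (b := 1000) (h := h) (by push_cast; linarith)]
      ((try push_cast); (repeat first | rw [if_pos (by linarith)] | rw [if_neg (by linarith)] | erw [if_pos (by linarith)] | erw [if_neg (by linarith)]))
      ring1
    · rw [mx_hi (a := 1) (b := 100) (h := h) (by push_cast; linarith), mx_hi (a := 17) (b := 1000) (h := h) (by push_cast; linarith)]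
      ((try push_cast); (repeat first | rw [if_pos (by linarith)] | rw [if_neg (by linarith)] | erw [if_pos (by linarith)] | erw [if_neg (by linarith)]))
      ring1
theorem kc0q1_g {y h x : ℝ} (hh : c1n y = 2 * h - 1 + 3 / 2 * y) (r0 : 0 ≤ h) (r1 : h ≤ (117 / 5000)) :
    kc0q1.v y x = ((0)) + ((917 / 40) + (1847 / 8) * (x - (9743 / 10000))) * h + (((0)) * h ^ 2 + (mx 1 125 h * (((317 / 40) + (107 / 8) * (x - (9743 / 10000))) + mx 1 125 h * ((0))) + mx 3 250 h * (((36 / 5) + (5 / 4) * (x - (9743 / 10000))) + mx 3 250 h * ((0))) + mx 2 125 h * (((1279 / 40) + (1 / 4) * (x - (9743 / 10000))) + mx 2 125 h * ((0))) + mx 1 50 h * (((95318707 / 5950000000) + (12225278047 / 23800000000) * (x - (9743 / 10000))) + mx 1 50 h * ((0))))) := by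
  simp only [kc0q1_3, kc0q1_9, kc0q1, c1g_v, hh]
  rcases lt_or_ge h ((1 / 125)) with c0 | c0
  · rw [mx_lo (a := 1) (b := 125) (h := h) (by push_cast; linarith), mx_lo (a := 3) (b := 250) (h := h) (by push_cast; linarith), mx_lo (a := 2) (b := 125) (h := h) (by push_cast; linarith), mx_lo (a := 1) (b := 50) (h := h) (by push_cast; linarith)]
    ((try push_cast); (repeat first | rw [if_pos (by linarith)] | rw [if_neg (by linarith)] | erw [if_pos (by linarith)] | erw [if_neg (by linarith)]))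
    ring1
  · skip
    rcases lt_or_ge h ((3 / 250)) with c1 | c1
    · rw [mx_hi (a := 1) (b := 125) (h := h) (by push_cast; linarith), mx_lo (a := 3) (b := 250) (h := h) (by push_cast; linarith), mx_lo (a := 2) (b := 125) (h := h) (by push_cast; linarith), mx_lo (a := 1) (b := 50) (h := h) (by push_cast; linarith)]
      ((try push_cast); (repeat first | rw [if_pos (by linarith)] | rw [if_neg (by linarith)] | erw [if_pos (by linarith)] | erw [if_neg (by linarith)]))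
      ring1
    · skip
      rcases lt_or_ge h ((2 / 125)) with c2 | c2
      · rw [mx_hi (a := 1) (b := 125) (h := h) (by push_cast; linarith), mx_hi (a := 3) (b := 250) (h := h) (by push_cast; linarith), mx_lo (a := 2) (b := 125) (h := h) (by push_cast; linarith), mx_lo (a := 1) (b := 50) (h := h) (by push_cast; linarith)]
        ((try push_cast); (repeat first | rw [if_pos (by linarith)] | rw [if_neg (by linarith)] | erw [if_pos (by linarith)] | erw [if_neg (by linarith)]))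
        ring1
      · skip
        rcases lt_or_ge h ((1 / 50)) with c3 | c3
        · rw [mx_hi (a := 1) (b := 125) (h := h) (by push_cast; linarith), mx_hi (a := 3) (b := 250) (h := h) (by push_cast; linarith), mx_hi (a := 2) (b := 125) (h := h) (by push_cast; linarith), mx_lo (a := 1) (b := 50) (h := h) (by push_cast; linarith)]
          ((try push_cast); (repeat first | rw [if_pos (by linarith)] | rw [if_neg (by linarith)] | erw [if_pos (by linarith)] | erw [if_neg (by linarith)]))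
          ring1
        · rw [mx_hi (a := 1) (b := 125) (h := h) (by push_cast; linarith), mx_hi (a := 3) (b := 250) (h := h) (by push_cast; linarith), mx_hi (a := 2) (b := 125) (h := h) (by push_cast; linarith), mx_hi (a := 1) (b := 50) (h := h) (by push_cast; linarith)]
          ((try push_cast); (repeat first | rw [if_pos (by linarith)] | rw [if_neg (by linarith)] | erw [if_pos (by linarith)] | erw [if_neg (by linarith)]))
          ring1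
theorem kcc02_g {h x : ℝ} (r0 : 0 ≤ h) (r1 : h ≤ (117 / 5000)) :
    kcc02.v (1 / 2 - h) x = -(((0)) + ((34411 / 2000) + (11 / 40) * (x - (9743 / 10000))) * h + (((0)) * h ^ 2 + (0))) := by
  simp only [kcc02_4, kcc02_19, kcc02]
  ((try push_cast); (repeat first | rw [if_pos (by linarith)] | rw [if_neg (by linarith)] | erw [if_pos (by linarith)] | erw [if_neg (by linarith)]))
  ring1
theorem kcc63_g {Y t h x : ℝ} (hY : ycg.v t = Y) (hh : h = t / 2 + (2 - Y) / 4) (r0 : 0 ≤ h) (r1 : h ≤ (117 / 5000)) :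
    kcc63.v t x = ((0)) + ((35373 / 1670) + (1276 / 167) * (x - (9743 / 10000))) * h + (((0)) * h ^ 2 + (0)) := by
  simp only [kcc63_4, kcc63_9, kcc63_26, kcc63_45, kcc63, hY]
  rw [show t = 2 * h - (2 - Y) / 2 by linarith]
  ((try push_cast); (repeat first | rw [if_pos (by linarith)] | rw [if_neg (by linarith)] | erw [if_pos (by linarith)] | erw [if_neg (by linarith)]))
  ring1
theorem kf0q1_g {y h x : ℝ} (hh : h = 1 / 2 - (3 / 4 * y - c1n y / 2)) :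
    kf0q1.v y x = (1 / 2 + c1n y) * (1 / 2 - h) / (1 - h) + (y - 1) * kcg.v (1 / 2 - h) x := by
  have ea : 3 / 4 * y - c1n y / 2 = 1 / 2 - h := by linarith
  have eb : c1n y = 2 * h - 1 + 3 / 2 * y := by linarith
  simp only [kf0q1_10, kf0q1, c1g_v]
  push_cast
  rw [ea, eb]
  have e2 : (2 * (1 + 3 / 2 * y - (2 * h - 1 + 3 / 2 * y)))⁻¹ = (1 - h)⁻¹ / 4 := by
    rw [show 2 * (1 + 3 / 2 * y - (2 * h - 1 + 3 / 2 * y)) = (1 - h) * 4 by ring, mul_inv]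
    ring
  rw [e2]
  ring
theorem l0q1_g {y h x : ℝ} (hh : h = 1 / 2 - (3 / 4 * y - c1n y / 2)) (r0 : 0 ≤ h) (r1 : h ≤ (117 / 5000)) :
    l0q1.v y x = -(((0)) + ((-(46213 / 50000)) + (1693 / 2000) * (x - (9743 / 10000))) * h + (((-(106 / 625)) + (-(9619 / 50)) * (x - (9743 / 10000))) * h ^ 2 + (mx 1 100 h * (((69 / 35000000) + (61 / 7000000) * (x - (9743 / 10000))) + mx 1 100 h * ((497 / 5000) + (260991 / 1000) * (x - (9743 / 10000)))) + mx 17 1000 h * (((-(169092621001 / 433069945000000000)) + (95644491317 / 43306994500000000) * (x - (9743 / 10000)) + (-(14291033 / 1237342700000)) * (x - (9743 / 10000)) ^ 2) + mx 17 1000 h * ((5731 / 2000) + (-(46327 / 1000)) * (x - (9743 / 10000)) + (164987 / 100) * (x - (9743 / 10000)) ^ 2))))) := by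
  have e1 : ∀ c, txg.v (3 / 4 * y - c1n y / 2) c x = -(((0)) + ((-(46213 / 50000)) + (1693 / 2000) * (x - (9743 / 10000))) * h + (((-(106 / 625)) + (-(9619 / 50)) * (x - (9743 / 10000))) * h ^ 2 + (mx 1 100 h * (((69 / 35000000) + (61 / 7000000) * (x - (9743 / 10000))) + mx 1 100 h * ((497 / 5000) + (260991 / 1000) * (x - (9743 / 10000)))) + mx 17 1000 h * (((-(169092621001 / 433069945000000000)) + (95644491317 / 43306994500000000) * (x - (9743 / 10000)) + (-(14291033 / 1237342700000)) * (x - (9743 / 10000)) ^ 2) + mx 17 1000 h * ((5731 / 2000) + (-(46327 / 1000)) * (x - (9743 / 10000)) + (164987 / 100) * (x - (9743 / 10000)) ^ 2))))) := fun c => tbG (by linarith) r0 r1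
  simp only [l0q1, c1g_v]
  push_cast
  rw [e1]
theorem kfc02_g {h x : ℝ} : kfc02.v (1 / 2 - h) x = 1 / 2 - h + (yag.v (1 / 2 - h) - 1) * kcg.v (h - 1 / 2) x := by
  have ea : -(1 / 2 - h) = h - 1 / 2 := by ring
  simp only [kfc02]
  push_cast
  rw [ea]
theorem lc02_g {h x : ℝ} (r0 : 0 ≤ h) (r1 : h ≤ (117 / 5000)) : lc02.v (1 / 2 - h) x = (((0)) + ((169 / 3125) + (-(4404 / 625)) * (x - (9743 / 10000))) * h + (((2879 / 2500) + (3095 / 8) * (x - (9743 / 10000))) * h ^ 2 + (mx 1 100 h * (((-(3 / 35000000)) + (3 / 700000) * (x - (9743 / 10000))) + mx 1 100 h * ((-(1391 / 5000)) + (-(96389 / 200)) * (x - (9743 / 10000)))) + mx 17 1000 h * (((-(261311 / 879375000000)) + (3368583 / 58625000000) * (x - (9743 / 10000))) + mx 17 1000 h * ((-(11707 / 2000)) + (-(9697 / 250)) * (x - (9743 / 10000))))))) + (((0)) + ((-(46213 / 50000)) + (1693 / 2000) * (x - (9743 / 10000))) * h + (((-(106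 / 625)) + (-(9619 / 50)) * (x - (9743 / 10000))) * h ^ 2 + (mx 1 100 h * (((69 / 35000000) + (61 / 7000000) * (x - (9743 / 10000))) + mx 1 100 h * ((497 / 5000) + (260991 / 1000) * (x - (9743 / 10000)))) + mx 17 1000 h * (((-(169092621001 / 433069945000000000)) + (95644491317 / 43306994500000000) * (x - (9743 / 10000)) + (-(14291033 / 1237342700000)) * (x - (9743 / 10000)) ^ 2) + mx 17 1000 h * ((5731 / 2000) + (-(46327 / 1000)) * (x - (9743 / 10000)) + (164987 / 100) * (x - (9743 / 10000)) ^ 2))))) := by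
  have e1 : ∀ c, txg.v (-(1 / 2 - h)) c x = ((0)) + ((169 / 3125) + (-(4404 / 625)) * (x - (9743 / 10000))) * h + (((2879 / 2500) + (3095 / 8) * (x - (9743 / 10000))) * h ^ 2 + (mx 1 100 h * (((-(3 / 35000000)) + (3 / 700000) * (x - (9743 / 10000))) + mx 1 100 h * ((-(1391 / 5000)) + (-(96389 / 200)) * (x - (9743 / 10000)))) + mx 17 1000 h * (((-(261311 / 879375000000)) + (3368583 / 58625000000) * (x - (9743 / 10000))) + mx 17 1000 h * ((-(11707 / 2000)) + (-(9697 / 250)) * (x - (9743 / 10000)))))) := fun c => taG (by ring) r0 r1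
  have e2 : ∀ c, txg.v (1 / 2 - h) c x = -(((0)) + ((-(46213 / 50000)) + (1693 / 2000) * (x - (9743 / 10000))) * h + (((-(106 / 625)) + (-(9619 / 50)) * (x - (9743 / 10000))) * h ^ 2 + (mx 1 100 h * (((69 / 35000000) + (61 / 7000000) * (x - (9743 / 10000))) + mx 1 100 h * ((497 / 5000) + (260991 / 1000) * (x - (9743 / 10000)))) + mx 17 1000 h * (((-(169092621001 / 433069945000000000)) + (95644491317 / 43306994500000000) * (x - (9743 / 10000)) + (-(14291033 / 1237342700000)) * (x - (9743 / 10000)) ^ 2) + mx 17 1000 h * ((5731 / 2000) + (-(46327 / 1000)) * (x - (9743 / 10000)) + (164987 / 100) * (x - (9743 / 10000)) ^ 2))))) := fun c => tbG rfl r0 r1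
  simp only [lc02_7, lc02_8, lc02]
  push_cast
  rw [e1, e2]
  ring
theorem kfc63_g {Y t h x : ℝ} (hY : ycg.v t = Y) (hh : h = t / 2 + (2 - Y) / 4) :
    kfc63.v t x = (Y - 2 * t) * (t + 3 - 3 / 2 * Y) / (4 * (Y - 1)) + (Y - 2) * kcg.v (1 / 2 - h) x := by
  have ea : 1 / 4 * Y - t / 2 = 1 / 2 - h := by linarith
  simp only [kfc63, hY]
  push_cast
  rw [ea]
  ring
theorem lc63_g {Y t h x : ℝ} (hY : ycg.v t = Y) (hh : h = t / 2 + (2 - Y) / 4) (r0 : 0 ≤ h) (r1 : h ≤ (117 / 5000)) :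
    lc63.v t x = -(2 * (((0)) + ((-(46213 / 50000)) + (1693 / 2000) * (x - (9743 / 10000))) * h + (((-(106 / 625)) + (-(9619 / 50)) * (x - (9743 / 10000))) * h ^ 2 + (mx 1 100 h * (((69 / 35000000) + (61 / 7000000) * (x - (9743 / 10000))) + mx 1 100 h * ((497 / 5000) + (260991 / 1000) * (x - (9743 / 10000)))) + mx 17 1000 h * (((-(169092621001 / 433069945000000000)) + (95644491317 / 43306994500000000) * (x - (9743 / 10000)) + (-(14291033 / 1237342700000)) * (x - (9743 / 10000)) ^ 2) + mx 17 1000 h * ((5731 / 2000) + (-(46327 / 1000)) * (x - (9743 / 10000)) + (164987 / 100) * (x - (9743 / 10000)) ^ 2))))) + (((0)) + ((169 / 3125) + (-(4404 / 625)) * (x - (9743 / 10000))) * h + (((2879 / 2500) + (3095 / 8) * (x - (9743 / 10000))) * h ^ 2 + (mx 1 100 h * (((-(3 / 35000000)) + (3 / 700000) * (x - (9743 / 10000))) + mx 1 100 h * ((-(1391 / 5000)) + (-(96389 / 200)) * (x - (9743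 / 10000)))) + mx 17 1000 h * (((-(261311 / 879375000000)) + (3368583 / 58625000000) * (x - (9743 / 10000))) + mx 17 1000 h * ((-(11707 / 2000)) + (-(9697 / 250)) * (x - (9743 / 10000)))))))) := by
  have e1 : ∀ c, txg.v (1 / 4 * Y - t / 2) c x = -(((0)) + ((-(46213 / 50000)) + (1693 / 2000) * (x - (9743 / 10000))) * h + (((-(106 / 625)) + (-(9619 / 50)) * (x - (9743 / 10000))) * h ^ 2 + (mx 1 100 h * (((69 / 35000000) + (61 / 7000000) * (x - (9743 / 10000))) + mx 1 100 h * ((497 / 5000) + (260991 / 1000) * (x - (9743 / 10000)))) + mx 17 1000 h * (((-(169092621001 / 433069945000000000)) + (95644491317 / 43306994500000000) * (x - (9743 / 10000)) + (-(14291033 / 1237342700000)) * (x - (9743 / 10000)) ^ 2) + mx 17 1000 h * ((5731 / 2000) + (-(46327 / 1000)) * (x - (9743 / 10000)) + (164987 / 100) * (x - (9743 / 10000)) ^ 2))))) := fun c => tbG (by linarith) r0 r1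
  have e2 : ∀ c, txg.v (t / 2 - 1 / 4 * Y) c x = ((0)) + ((169 / 3125) + (-(4404 / 625)) * (x - (9743 / 10000))) * h + (((2879 / 2500) + (3095 / 8) * (x - (9743 / 10000))) * h ^ 2 + (mx 1 100 h * (((-(3 / 35000000)) + (3 / 700000) * (x - (9743 / 10000))) + mx 1 100 h * ((-(1391 / 5000)) + (-(96389 / 200)) * (x - (9743 / 10000)))) + mx 17 1000 h * (((-(261311 / 879375000000)) + (3368583 / 58625000000) * (x - (9743 / 10000))) + mx 17 1000 h * ((-(11707 / 2000)) + (-(9697 / 250)) * (x - (9743 / 10000)))))) := fun c => taG (by linarith) r0 r1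
  simp only [lc63_7, lc63_8, lc63_9, lc63_12, lc63_14, lc63, hY]
  push_cast
  rw [e1, e2]
  ring
theorem hD : ((14155776 : ℕ) : ℝ) / S ≤ 1 / 16 := by
  rw [S_one]
  norm_num
theorem hD3 : ((524288 : ℕ) : ℝ) / S ≤ 1 / 64 := by
  rw [S_one]
  norm_num
theorem hDH : 7 / 4 * (((14155776 : ℕ) : ℝ) / S) ≤ (117 / 5000) := by
  rw [S_one]
  norm_num
theorem hD3H : ((524288 : ℕ) : ℝ) / S * (3 / 4 + (117 / 5000) / 2) ≤ (117 / 5000) ^ 2 := by
  rw [S_one]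
  norm_num
theorem r16 {y : ℝ} (h : |y - 1| < ((14155776 : ℕ) : ℝ) / S) : y ≤ 17 / 16 := by
  have := (abs_lt.1 h).2
  linarith [hD]
theorem xr {x : ℝ} (hx : ((1045395039 : ℕ) : ℝ) / S ≤ x) (hx' : x ≤ (((1045395039 : ℕ) : ℝ) + (1503240 : ℕ)) / S) : 0 < x ∧ x < 1 := by
  rw [S_one] at hx hx'
  norm_num at hx hx'
  constructor <;> linarith
theorem kf2q3_g {Y x : ℝ} (h2 : (4095 / 2048) < Y) (h3 : Y ≤ 2) : kf2q3.v Y x = cv2r.v Y * (((-(23021 / 50000)) + (-(75867 / 10000)) * (x - (9743 / 10000))) + c3g.v Y * ((51830000 / 54765409) + (97000000 / 54765409) * (x - (9743 / 10000)))) := by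
  have h4 : c3g.v Y ≤ 1 / 25 := by
    rw [c3g_v, c3n]
    exact Real.sqrt_le_iff.2 ⟨by norm_num, by nlinarith⟩
  simp only [kf2q3_4, kf2q3, bf2q3_3, bf2q3]
  ((try push_cast); (repeat first | rw [if_pos (by linarith)] | rw [if_neg (by linarith)] | erw [if_pos (by linarith)] | erw [if_neg (by linarith)]))
  ring1
theorem l2q3_g {Y x : ℝ} (h2 : (4095 / 2048) < Y) (h3 : Y ≤ 2) : l2q3.v Y x = cv2r.v Y * (((4619 / 5000) + (-(2883 / 2000)) * (x - (9743 / 10000))) + c3g.v Y * ((2650000 / 54765409) + (556000000 / 54765409) * (x - (9743 / 10000)))) := by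
  have h4 : c3g.v Y ≤ 1 / 25 := by
    rw [c3g_v, c3n]
    exact Real.sqrt_le_iff.2 ⟨by norm_num, by nlinarith⟩
  simp only [l2q3_4, l2q3, bx2q3_3, bx2q3]
  ((try push_cast); (repeat first | rw [if_pos (by linarith)] | rw [if_neg (by linarith)] | erw [if_pos (by linarith)] | erw [if_neg (by linarith)]))
  ring1
theorem kc2q3_g {Y x : ℝ} (h2 : (4095 / 2048) < Y) (h3 : Y ≤ 2) : kc2q3.v Y x = cv2r.v Y * (((24519 / 5000) + (-(43 / 200)) * (x - (9743 / 10000))) + c3g.v Y * ((2895700000 / 13713747) + (2937500 / 806691) * (x - (9743 / 10000)))) := by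
  have h4 : c3g.v Y ≤ 1 / 25 := by
    rw [c3g_v, c3n]
    exact Real.sqrt_le_iff.2 ⟨by norm_num, by nlinarith⟩
  simp only [kc2q3_4, kc2q3, bd2q3_3, bd2q3]
  ((try push_cast); (repeat first | rw [if_pos (by linarith)] | rw [if_neg (by linarith)] | erw [if_pos (by linarith)] | erw [if_neg (by linarith)]))
  ring1
theorem kfc33_g {Y t x : ℝ} (hY : ycg.v t = Y) (h2 : (4095 / 2048) < Y) (h3 : Y ≤ 2) (h4 : t ≤ 1 / 25) : kfc33.v t x = ((1929 / 2000) * (swg.v Y - 1 / 2) + (71 / 2000) * t) * (((1 / 2)) + t * ((-(312560000 / 54765409)) + (1214900000 / 54765409) * (x - (9743 / 10000)))) := by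
  simp only [kfc33_6, kfc33_9, kfc33_11, kfc33_13, kfc33_25, kfc33_50, kfc33_52, kfc33_75, kfc33_97, kfc33_98, kfc33_99, kfc33_100, kfc33_102, kfc33_103, kfc33_105, kfc33_112, kfc33_118, kfc33_143, kfc33_167, kfc33_223, kfc33, hY]
  ((try push_cast); (repeat first | rw [if_pos (by linarith)] | rw [if_neg (by linarith)] | erw [if_pos (by linarith)] | erw [if_neg (by linarith)]))
  ring1
theorem lc33_g {Y t x : ℝ} (hY : ycg.v t = Y) (h2 : (4095 / 2048) < Y) (h3 : Y ≤ 2) (h4 : t ≤ 1 / 25) : lc33.v t x = ((1929 / 2000) * (swg.v Y - 1 / 2) + (71 / 2000) * t) * (((44861 / 50000) + (26767 / 10000) * (x - (9743 / 10000))) + t * ((17160000 / 54765409) + (-(2245300000 / 54765409)) * (x - (9743 / 10000)))) := by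
  simp only [lc33_6, lc33_9, lc33_11, lc33_13, lc33_25, lc33_50, lc33_57, lc33_59, lc33_87, lc33_110, lc33_123, lc33_148, lc33_172, lc33_224, lc33, hY]
  ((try push_cast); (repeat first | rw [if_pos (by linarith)] | rw [if_neg (by linarith)] | erw [if_pos (by linarith)] | erw [if_neg (by linarith)]))
  ring1
theorem kcc33_g {Y t x : ℝ} (hY : ycg.v t = Y) (h2 : (4095 / 2048) < Y) (h3 : Y ≤ 2) (h4 : t ≤ 1 / 25) : kcc33.v t x = ((1929 / 2000) * (swg.v Y - 1 / 2) + (71 / 2000) * t) * (((35373 / 3340) + (638 / 167) * (x - (9743 / 10000))) + t * ((34039364361413 / 366431319840) + (32959340000717 / 36643131984) * (x - (9743 / 10000)))) := by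
  simp only [kcc33_6, kcc33_9, kcc33_11, kcc33_33, kcc33_34, kcc33_38, kcc33_43, kcc33_45, kcc33_46, kcc33_72, kcc33_76, kcc33_99, kcc33_121, kcc33, hY]
  ((try push_cast); (repeat first | rw [if_pos (by linarith)] | rw [if_neg (by linarith)] | erw [if_pos (by linarith)] | erw [if_neg (by linarith)]))
  ring1
theorem kfc43_g {Y t x : ℝ} (hY : ycg.v t = Y) (h2 : (4095 / 2048) < Y) (h3 : Y ≤ 2) (h4 : t ≤ 1 / 25) : kfc43.v t x = ((17 / 20) * (swg.v Y - 1 / 2) + (3 / 20) * t) * (((1 / 2)) + t * ((-(153680000 / 54765409)) + (-(34800000 / 54765409)) * (x - (9743 / 10000)))) := by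
  simp only [kfc43_11, kfc43, hY]
  ((try push_cast); (repeat first | rw [if_pos (by linarith)] | rw [if_neg (by linarith)] | erw [if_pos (by linarith)] | erw [if_neg (by linarith)]))
  ring1
theorem lc43_g {Y t x : ℝ} (hY : ycg.v t = Y) (h2 : (4095 / 2048) < Y) (h3 : Y ≤ 2) (h4 : t ≤ 1 / 25) : lc43.v t x = ((17 / 20) * (swg.v Y - 1 / 2) + (3 / 20) * t) * (((44861 / 50000) + (26767 / 10000) * (x - (9743 / 10000))) + t * ((8420000 / 54765409) + (-(119500000 / 54765409)) * (x - (9743 / 10000)))) := by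
  simp only [lc43_11, lc43, hY]
  ((try push_cast); (repeat first | rw [if_pos (by linarith)] | rw [if_neg (by linarith)] | erw [if_pos (by linarith)] | erw [if_neg (by linarith)]))
  ring1
theorem kcc43_g {Y t x : ℝ} (hY : ycg.v t = Y) (h2 : (4095 / 2048) < Y) (h3 : Y ≤ 2) (h4 : t ≤ 1 / 25) : kcc43.v t x = ((17 / 20) * (swg.v Y - 1 / 2) + (3 / 20) * t) * (((35373 / 3340) + (638 / 167) * (x - (9743 / 10000))) + t * ((128556406250 / 2290195749) + (-(39791500000 / 2290195749)) * (x - (9743 / 10000)))) := by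
  simp only [kcc43_11, kcc43_32, kcc43, hY]
  ((try push_cast); (repeat first | rw [if_pos (by linarith)] | rw [if_neg (by linarith)] | erw [if_pos (by linarith)] | erw [if_neg (by linarith)]))
  ring1
theorem kfc53_g {Y t x : ℝ} (hY : ycg.v t = Y) (h2 : (4095 / 2048) < Y) (h3 : Y ≤ 2) (h4 : t ≤ 1 / 25) : kfc53.v t x = ((3 / 10) * (swg.v Y - 1 / 2) + (7 / 10) * t) * (((1 / 2)) + t * ((-(37400000 / 54765409)) + (-(16900000 / 54765409)) * (x - (9743 / 10000)))) := by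
  simp only [kfc53_11, kfc53, hY]
  ((try push_cast); (repeat first | rw [if_pos (by linarith)] | rw [if_neg (by linarith)] | erw [if_pos (by linarith)] | erw [if_neg (by linarith)]))
  ring1
theorem lc53_g {Y t x : ℝ} (hY : ycg.v t = Y) (h2 : (4095 / 2048) < Y) (h3 : Y ≤ 2) (h4 : t ≤ 1 / 25) : lc53.v t x = ((3 / 10) * (swg.v Y - 1 / 2) + (7 / 10) * t) * (((44861 / 50000) + (26767 / 10000) * (x - (9743 / 10000))) + t * ((-(980000 / 54765409)) + (-(54600000 / 54765409)) * (x - (9743 / 10000)))) := by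
  simp only [lc53_11, lc53, hY]
  ((try push_cast); (repeat first | rw [if_pos (by linarith)] | rw [if_neg (by linarith)] | erw [if_pos (by linarith)] | erw [if_neg (by linarith)]))
  ring1
theorem kcc53_g {Y t x : ℝ} (hY : ycg.v t = Y) (h2 : (4095 / 2048) < Y) (h3 : Y ≤ 2) (h4 : t ≤ 1 / 25) : kcc53.v t x = ((3 / 10) * (swg.v Y - 1 / 2) + (7 / 10) * t) * (((35373 / 3340) + (638 / 167) * (x - (9743 / 10000))) + t * ((70221218750 / 2290195749) + (-(39885437500 / 2290195749)) * (x - (9743 / 10000)))) := by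
  simp only [kcc53_11, kcc53_33, kcc53, hY]
  ((try push_cast); (repeat first | rw [if_pos (by linarith)] | rw [if_neg (by linarith)] | erw [if_pos (by linarith)] | erw [if_neg (by linarith)]))
  ring1
theorem tabF {x : ℝ} : TabOk tK tL pF 14155776 x := by
  refine ⟨?_, ?_, ?_, ?_⟩
  · intro y h hq hd hh
    obtain ⟨r0, r1⟩ := h1_rng hq hd hD hDH hh
    have o : OnC (0 : Fin 7) 1 y := ⟨hq, fun _ => on_h (by linarith [hq.2]) (by linarith [hq.1])⟩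
    rw [← (atB01 o).K]
    show kf0q1.v y x = _
    rw [kf0q1_g hh, kcP r0 r1]
    simp only [pFma, pFmb, pFmu, pFnx, pFc0, pFkc, pFjc, pFca, pFcb, pFcc, pFsv, pFx11, pFx01, pFK11, pFK01, pFL11, pFL01, kFc0, kFc0g, kFc1, kFc1g, kFa0, kFa0g, kFa1, kFa1g, kFb0, kFb0g, kFb1_2, kFb1, kFb1g_2, kFb1g, kFd0, kFd0g, kFd1_2, kFd1, kFd1g_2, kFd1g, kFe0, kFe0g, kFe1_2, kFe1, kFe1g_2, kFe1g, cFxs1, cFsB1, cFBs1, cFsX1, cFsD1, cFsDD1, cFxs2, cFsB2, cFBs2, cFsX2, cFsD2, cFsDD2, nFsc2, nFB2_3, nFB2, nFX2_3, nFX2, nFD2_3, nFD2, nFsc3, nFB3, nFX3, nFD3, nFsc4, nFB4, nFX4, nFD4, nFsc5, nFB5, nFX5, nFD5, l12F, laF, lbF, l1F, l2F, cvF1, cvF2, ndF2, ndF3, ndF4, ndF5, pF, pNc0, pNkc, pNjc, pNcc, pNK11, pNK01, kNc0, kNc0g, kNc1, kNc1g, cNBs1, cNBs2, nNB2_4, nNB2, nNB3, nNB4, nNB5, umo, us1, us2, us3, uC11, uC01, kNu1_0, kNu1_0g, kNu1_1, kNu1_1g, kNu1_2, kNu1_2g, kNu1_3, kNu1_3g, l12N, cvN1, cvN2,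 ndN2, ndN3, ndN4, ndN5, pN, ul1, ul2, ul3, qN, pf_cons, pf_nil]
    push_cast
    ring
  · intro y h hq hd hh
    obtain ⟨r0, r1⟩ := h1_rng hq hd hD hDH hh
    have o : OnC (0 : Fin 7) 1 y := ⟨hq, fun _ => on_h (by linarith [hq.2]) (by linarith [hq.1])⟩
    rw [← (atB01 o).L]
    show l0q1.v y x = _
    rw [l0q1_g hh r0 r1]
    simp only [pFma, pFmb, pFmu, pFnx, pFc0, pFkc, pFjc, pFca, pFcb, pFcc, pFsv, pFx11, pFx01, pFK11, pFK01, pFL11, pFL01, kFc0, kFc0g, kFc1, kFc1g, kFa0, kFa0g, kFa1, kFa1g, kFb0, kFb0g, kFb1_2, kFb1, kFb1g_2, kFb1g, kFd0, kFd0g, kFd1_2, kFd1, kFd1g_2, kFd1g, kFe0, kFe0g, kFe1_2, kFe1, kFe1g_2, kFe1g, cFxs1, cFsB1, cFBs1, cFsX1, cFsD1, cFsDD1, cFxs2, cFsB2, cFBs2, cFsX2, cFsD2, cFsDD2, nFsc2, nFB2_3, nFB2, nFX2_3, nFX2, nFD2_3, nFD2, nFsc3, nFB3, nFX3, nFD3, nFsc4, nFB4, nFX4, nFD4, nFsc5, nFB5, nFX5, nFD5, l12F, laF, lbF, l1F, l2F, cvF1, cvF2, ndF2,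 ndF3, ndF4, ndF5, pF, pNc0, pNkc, pNjc, pNcc, pNK11, pNK01, kNc0, kNc0g, kNc1, kNc1g, cNBs1, cNBs2, nNB2_4, nNB2, nNB3, nNB4, nNB5, umo, us1, us2, us3, uC11, uC01, kNu1_0, kNu1_0g, kNu1_1, kNu1_1g, kNu1_2, kNu1_2g, kNu1_3, kNu1_3g, l12N, cvN1, cvN2, ndN2, ndN3, ndN4, ndN5, pN, ul1, ul2, ul3, qN, pf_cons, pf_nil]
    push_cast
    ring
  · intro y h hq hd hh
    obtain ⟨r0, r1⟩ := h2_rng hq hd hD hDH hh
    have hy := on_h (r16 hd) (by linarith [hq.1])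
    have o : OnC (0 : Fin 7) 2 y := ⟨hq, fun _ => hy⟩
    have hc : c1n y = 1 / 2 - h := by linarith
    have ya := yag_v (y := y) (by linarith [hq.1]) hy
    rw [hc] at ya
    rw [← (atB02 o).K, hc]
    show kfc02.v (1 / 2 - h) x = _
    rw [kfc02_g, kcN r0 r1, ya]
    simp only [pFma, pFmb, pFmu, pFnx, pFc0, pFkc, pFjc, pFca, pFcb, pFcc, pFsv, pFx11, pFx01, pFK11, pFK01, pFL11, pFL01, kFc0, kFc0g, kFc1, kFc1g, kFa0, kFa0g, kFa1, kFa1g, kFb0, kFb0g, kFb1_2, kFb1, kFb1g_2, kFb1g, kFd0, kFd0g, kFd1_2, kFd1, kFd1g_2, kFd1g, kFe0, kFe0g, kFe1_2, kFe1, kFe1g_2, kFe1g, cFxs1, cFsB1, cFBs1, cFsX1, cFsD1, cFsDD1, cFxs2, cFsB2, cFBs2, cFsX2, cFsD2, cFsDD2, nFsc2, nFB2_3, nFB2, nFX2_3, nFX2, nFD2_3, nFD2, nFsc3, nFB3, nFX3, nFD3, nFsc4, nFB4, nFX4, nFD4, nFsc5, nFB5, nFX5, nFD5, l12F, laF, lbF, l1F, l2F, cvF1, cvF2, ndF2, ndF3, ndF4, ndF5, pF, pNc0, pNkc, pNjc, pNcc, pNK11, pNK01,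 kNc0, kNc0g, kNc1, kNc1g, cNBs1, cNBs2, nNB2_4, nNB2, nNB3, nNB4, nNB5, umo, us1, us2, us3, uC11, uC01, kNu1_0, kNu1_0g, kNu1_1, kNu1_1g, kNu1_2, kNu1_2g, kNu1_3, kNu1_3g, l12N, cvN1, cvN2, ndN2, ndN3, ndN4, ndN5, pN, ul1, ul2, ul3, qN, pf_cons, pf_nil]
    push_cast
    ring
  · intro y h hq hd hh
    obtain ⟨r0, r1⟩ := h2_rng hq hd hD hDH hh
    have hy := on_h (r16 hd) (by linarith [hq.1])
    have o : OnC (0 : Fin 7) 2 y := ⟨hq, fun _ => hy⟩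
    have hc : c1n y = 1 / 2 - h := by linarith
    rw [← (atB02 o).L, hc]
    show lc02.v (1 / 2 - h) x = _
    rw [lc02_g r0 r1]
    simp only [pFma, pFmb, pFmu, pFnx, pFc0, pFkc, pFjc, pFca, pFcb, pFcc, pFsv, pFx11, pFx01, pFK11, pFK01, pFL11, pFL01, kFc0, kFc0g, kFc1, kFc1g, kFa0, kFa0g, kFa1, kFa1g, kFb0, kFb0g, kFb1_2, kFb1, kFb1g_2, kFb1g, kFd0, kFd0g, kFd1_2, kFd1, kFd1g_2, kFd1g, kFe0, kFe0g, kFe1_2, kFe1, kFe1g_2, kFe1g, cFxs1, cFsB1, cFBs1, cFsX1, cFsD1, cFsDD1, cFxs2, cFsB2, cFBs2, cFsX2, cFsD2, cFsDD2, nFsc2, nFB2_3, nFB2, nFX2_3, nFX2, nFD2_3, nFD2, nFsc3, nFB3, nFX3, nFD3, nFsc4, nFB4, nFX4, nFD4, nFsc5, nFB5, nFX5, nFD5, l12F, laF, lbF, l1F, l2F, cvF1, cvF2, ndF2, ndF3, ndF4, ndF5, pF, pNc0, pNkc, pNjc, pNcc, pNK11, pNK01, kNc0, kNc0g, kNc1, kNc1g, cNBs1, cNBs2, nNB2_4, nNB2, nNB3, nNB4, nNB5, umo, us1, us2, us3, uC11, uC01, kNu1_0, kNu1_0g, kNu1_1, kNu1_1g,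 kNu1_2, kNu1_2g, kNu1_3, kNu1_3g, l12N, cvN1, cvN2, ndN2, ndN3, ndN4, ndN5, pN, ul1, ul2, ul3, qN, pf_cons, pf_nil]
    push_cast
    ring
theorem fitF {x : ℝ} : pF.Fit true 3 x := by
  refine ⟨fun h => absurd h (by decide), ?_, fun h => rfl⟩
  simp only [pFma, pFmb, pFmu, pFnx, pFc0, pFkc, pFjc, pFca, pFcb, pFcc, pFsv, pFx11, pFx01, pFK11, pFK01, pFL11, pFL01, kFc0, kFc0g, kFc1, kFc1g, kFa0, kFa0g, kFa1, kFa1g, kFb0, kFb0g, kFb1_2, kFb1, kFb1g_2, kFb1g, kFd0, kFd0g, kFd1_2, kFd1, kFd1g_2, kFd1g, kFe0, kFe0g, kFe1_2, kFe1, kFe1g_2, kFe1g, cFxs1, cFsB1, cFBs1, cFsX1, cFsD1, cFsDD1, cFxs2, cFsB2, cFBs2, cFsX2, cFsD2, cFsDD2, nFsc2, nFB2_3, nFB2, nFX2_3, nFX2, nFD2_3, nFD2, nFsc3, nFB3, nFX3, nFD3, nFsc4, nFB4, nFX4, nFD4, nFsc5, nFB5, nFX5, nFD5, l12F, laF, lbF, l1F, l2F, cvF1, cvF2, ndF2, ndF3, ndF4, ndF5, pF, pNc0, pNkc, pNjc, pNcc, pNK11, pNK01, kNc0, kNc0g, kNc1, kNc1g,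 cNBs1, cNBs2, nNB2_4, nNB2, nNB3, nNB4, nNB5, umo, us1, us2, us3, uC11, uC01, kNu1_0, kNu1_0g, kNu1_1, kNu1_1g, kNu1_2, kNu1_2g, kNu1_3, kNu1_3g, l12N, cvN1, cvN2, ndN2, ndN3, ndN4, ndN5, pN, ul1, ul2, ul3, qN]
  push_cast
  ring
theorem sdFC {x : ℝ} : SdOk PP tK tL pF (dgSC pF) 6 524288 x := by
  refine sdC rfl ?_ ?_
  · intro Y t h q3 i3 ht hh
    obtain ⟨r0, r1⟩ := h3_rng q3 i3 ht (by norm_num) (by norm_num) hD3H hh
    have hy := ycg_v (y := Y) (by linarith [q3.1]) q3.2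
    rw [← ht] at hy
    rw [← (atB63 (onc q3 (by decide))).K, ← ht]
    show kfc63.v t x = _
    rw [kfc63_g hy hh, kcP r0 r1]
    simp only [pFma, pFmb, pFmu, pFnx, pFc0, pFkc, pFjc, pFca, pFcb, pFcc, pFsv, pFx11, pFx01, pFK11, pFK01, pFL11, pFL01, kFc0, kFc0g, kFc1, kFc1g, kFa0, kFa0g, kFa1, kFa1g, kFb0, kFb0g, kFb1_2, kFb1, kFb1g_2, kFb1g, kFd0, kFd0g, kFd1_2, kFd1, kFd1g_2, kFd1g, kFe0, kFe0g, kFe1_2, kFe1, kFe1g_2, kFe1g, cFxs1, cFsB1, cFBs1, cFsX1, cFsD1, cFsDD1, cFxs2, cFsB2, cFBs2, cFsX2, cFsD2, cFsDD2, nFsc2, nFB2_3, nFB2, nFX2_3, nFX2, nFD2_3, nFD2, nFsc3, nFB3, nFX3, nFD3, nFsc4, nFB4, nFX4, nFD4, nFsc5, nFB5, nFX5, nFD5, l12F, laF, lbF, l1F, l2F, cvF1, cvF2, ndF2, ndF3, ndF4, ndF5, pF, pNc0, pNkc, pNjc, pNcc, pNK11, pNK01, kNc0, kNc0g, kNc1, kNc1g, cNBs1, cNBs2, nNB2_4, nNB2, nNB3, nNB4, nNB5, umo, us1, us2, us3, uC11, uC01, kNu1_0, kNu1_0g, kNu1_1, kNu1_1g, kNu1_2,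 kNu1_2g, kNu1_3, kNu1_3g, l12N, cvN1, cvN2, ndN2, ndN3, ndN4, ndN5, pN, ul1, ul2, ul3, qN, pf_cons, pf_nil]
    push_cast
    ring
  · intro Y t h q3 i3 ht hh
    obtain ⟨r0, r1⟩ := h3_rng q3 i3 ht (by norm_num) (by norm_num) hD3H hh
    have hy := ycg_v (y := Y) (by linarith [q3.1]) q3.2
    rw [← ht] at hy
    rw [← (atB63 (onc q3 (by decide))).L, ← ht]
    show lc63.v t x = _
    rw [lc63_g hy hh r0 r1]
    simp only [pFma, pFmb, pFmu, pFnx, pFc0, pFkc, pFjc, pFca, pFcb, pFcc, pFsv, pFx11, pFx01, pFK11, pFK01, pFL11, pFL01, kFc0, kFc0g, kFc1, kFc1g, kFa0, kFa0g, kFa1, kFa1g, kFb0, kFb0g, kFb1_2, kFb1, kFb1g_2, kFb1g, kFd0, kFd0g, kFd1_2, kFd1, kFd1g_2, kFd1g, kFe0, kFe0g, kFe1_2, kFe1, kFe1g_2, kFe1g, cFxs1, cFsB1, cFBs1, cFsX1, cFsD1, cFsDD1, cFxs2, cFsB2, cFBs2, cFsX2, cFsD2, cFsDD2, nFsc2, nFB2_3, nFB2, nFX2_3, nFX2, nFD2_3, nFD2, nFsc3, nFB3, nFX3, nFD3, nFsc4, nFB4,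 nFX4, nFD4, nFsc5, nFB5, nFX5, nFD5, l12F, laF, lbF, l1F, l2F, cvF1, cvF2, ndF2, ndF3, ndF4, ndF5, pF, pNc0, pNkc, pNjc, pNcc, pNK11, pNK01, kNc0, kNc0g, kNc1, kNc1g, cNBs1, cNBs2, nNB2_4, nNB2, nNB3, nNB4, nNB5, umo, us1, us2, us3, uC11, uC01, kNu1_0, kNu1_0g, kNu1_1, kNu1_1g, kNu1_2, kNu1_2g, kNu1_3, kNu1_3g, l12N, cvN1, cvN2, ndN2, ndN3, ndN4, ndN5, pN, ul1, ul2, ul3, qN, pf_cons, pf_nil]
    push_cast
    ring
theorem nlF2 {x : ℝ} : NuL PP tK tL ndF2 2 524288 x := by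
  have hr : PP.ρ 2 = 13 / 20 := rfl
  refine ⟨by rw [hr]; norm_num, fun u => ?_, fun {Y t} q3 i3 ht hw => ?_, fun {Y t} q3 i3 ht hw => ?_⟩
  · rw [hr]
    simp only [pFma, pFmb, pFc0, nFsc2, nFB2_3, nFB2, nFX2_3, nFX2, nFD2_3, nFD2, ndF2, pF, pNc0, nNB2_4, nNB2, us3, qN]
    push_cast
    ring
  · have h2 : (4095 / 2048) < Y := by
      have := (abs_lt.1 i3).1
      rw [S_one] at this
      norm_num at this
      linarith
    rw [← (atB23 (onc q3 (by decide))).K]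
    show kf2q3.v Y x = _
    rw [kf2q3_g h2 q3.2, ← ecv2q3 q3.1]
    simp only [c3g_v, ← ht, hw, pFma, pFmb, pFc0, nFsc2, nFB2_3, nFB2, nFX2_3, nFX2, nFD2_3, nFD2, ndF2, pF, pNc0, nNB2_4, nNB2, us3, qN]
    push_cast
    ring
  · have h2 : (4095 / 2048) < Y := by
      have := (abs_lt.1 i3).1
      rw [S_one] at this
      norm_num at this
      linarith
    rw [← (atB23 (onc q3 (by decide))).L]
    show l2q3.v Y x = _
    rw [l2q3_g h2 q3.2, ← ecv2q3 q3.1]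
    simp only [c3g_v, ← ht, hw, pFma, pFmb, pFc0, nFsc2, nFB2_3, nFB2, nFX2_3, nFX2, nFD2_3, nFD2, ndF2, pF, pNc0, nNB2_4, nNB2, us3, qN]
    push_cast
    ring
theorem sdF2 {x : ℝ} : SdOk PP tK tL pF (ndUL pF ndF2) 2 524288 x := nlF2.sd
theorem nrF3 {x : ℝ} : NuR PP tK tL pF ndF3 3 524288 x := by
  have hr : PP.ρ 3 = 2071 / 2000 := rfl
  refine ⟨by rw [hr]; norm_num, fun u => ?_, fun {Y t} q3 i3 ht hw => ?_, fun {Y t} q3 i3 ht hw => ?_⟩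
  · rw [hr]
    simp only [pFma, pFmb, pFc0, nFsc3, nFB3, nFX3, nFD3, ndF3, pF, pNc0, nNB3, us3, qN]
    push_cast
    ring
  · have h2 : (4095 / 2048) < Y := by
      have := (abs_lt.1 i3).1
      rw [S_one] at this
      norm_num at this
      linarith
    have hy := ycg_v (y := Y) (by linarith [q3.1]) q3.2
    rw [← ht] at hy
    have h4 : t ≤ 1 / 25 := by
      rw [ht, c3n]
      exact Real.sqrt_le_iff.2 ⟨by norm_num, by nlinarith [q3.2]⟩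
    rw [← (atB33 (onc q3 (by decide))).K, ← ht]
    show kfc33.v t x = _
    rw [kfc33_g hy h2 q3.2 h4]
    rw [ecv3q3 q3.1, cv3r_v, ← ht]
    simp only [swg_v, dga3c, dgsl3, pFma, pFmb, pFc0, nFsc3, nFB3, nFX3, nFD3, ndF3, pF, pNc0, nNB3, us3, qN]
    push_cast
    ring
  · have h2 : (4095 / 2048) < Y := by
      have := (abs_lt.1 i3).1
      rw [S_one] at this
      norm_num at this
      linarith
    have hy := ycg_v (y := Y) (by linarith [q3.1]) q3.2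
    rw [← ht] at hy
    have h4 : t ≤ 1 / 25 := by
      rw [ht, c3n]
      exact Real.sqrt_le_iff.2 ⟨by norm_num, by nlinarith [q3.2]⟩
    rw [← (atB33 (onc q3 (by decide))).L, ← ht]
    show lc33.v t x = _
    rw [lc33_g hy h2 q3.2 h4]
    rw [ecv3q3 q3.1, cv3r_v, ← ht]
    simp only [swg_v, dga3c, dgsl3, pFma, pFmb, pFc0, nFsc3, nFB3, nFX3, nFD3, ndF3, pF, pNc0, nNB3, us3, qN]
    push_cast
    ring
theorem sdF3 {x : ℝ} : SdOk PP tK tL pF (ndUR ndF3) 3 524288 x := nrF3.sd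
theorem nrF4 {x : ℝ} : NuR PP tK tL pF ndF4 4 524288 x := by
  have hr : PP.ρ 4 = 23 / 20 := rfl
  refine ⟨by rw [hr]; norm_num, fun u => ?_, fun {Y t} q3 i3 ht hw => ?_, fun {Y t} q3 i3 ht hw => ?_⟩
  · rw [hr]
    simp only [pFma, pFmb, pFc0, nFsc4, nFB4, nFX4, nFD4, ndF4, pF, pNc0, nNB4, us3, qN]
    push_cast
    ring
  · have h2 : (4095 / 2048) < Y := by
      have := (abs_lt.1 i3).1
      rw [S_one] at this
      norm_num at this
      linarith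
    have hy := ycg_v (y := Y) (by linarith [q3.1]) q3.2
    rw [← ht] at hy
    have h4 : t ≤ 1 / 25 := by
      rw [ht, c3n]
      exact Real.sqrt_le_iff.2 ⟨by norm_num, by nlinarith [q3.2]⟩
    rw [← (atB43 (onc q3 (by decide))).K, ← ht]
    show kfc43.v t x = _
    rw [kfc43_g hy h2 q3.2 h4]
    rw [ecv4q3 q3.1, cv4r_v, ← ht]
    simp only [swg_v, dga3c, dgsl3, pFma, pFmb, pFc0, nFsc4, nFB4, nFX4, nFD4, ndF4, pF, pNc0, nNB4, us3, qN]
    push_cast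
    ring
  · have h2 : (4095 / 2048) < Y := by
      have := (abs_lt.1 i3).1
      rw [S_one] at this
      norm_num at this
      linarith
    have hy := ycg_v (y := Y) (by linarith [q3.1]) q3.2
    rw [← ht] at hy
    have h4 : t ≤ 1 / 25 := by
      rw [ht, c3n]
      exact Real.sqrt_le_iff.2 ⟨by norm_num, by nlinarith [q3.2]⟩
    rw [← (atB43 (onc q3 (by decide))).L, ← ht]
    show lc43.v t x = _
    rw [lc43_g hy h2 q3.2 h4]
    rw [ecv4q3 q3.1, cv4r_v, ← ht]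
    simp only [swg_v, dga3c, dgsl3, pFma, pFmb, pFc0, nFsc4, nFB4, nFX4, nFD4, ndF4, pF, pNc0, nNB4, us3, qN]
    push_cast
    ring
theorem sdF4 {x : ℝ} : SdOk PP tK tL pF (ndUR ndF4) 4 524288 x := nrF4.sd
theorem nrF5 {x : ℝ} : NuR PP tK tL pF ndF5 5 524288 x := by
  have hr : PP.ρ 5 = 17 / 10 := rfl
  refine ⟨by rw [hr]; norm_num, fun u => ?_, fun {Y t} q3 i3 ht hw => ?_, fun {Y t} q3 i3 ht hw => ?_⟩
  · rw [hr]
    simp only [pFma, pFmb, pFc0, nFsc5, nFB5, nFX5, nFD5, ndF5, pF, pNc0, nNB5, us3, qN]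
    push_cast
    ring
  · have h2 : (4095 / 2048) < Y := by
      have := (abs_lt.1 i3).1
      rw [S_one] at this
      norm_num at this
      linarith
    have hy := ycg_v (y := Y) (by linarith [q3.1]) q3.2
    rw [← ht] at hy
    have h4 : t ≤ 1 / 25 := by
      rw [ht, c3n]
      exact Real.sqrt_le_iff.2 ⟨by norm_num, by nlinarith [q3.2]⟩
    rw [← (atB53 (onc q3 (by decide))).K, ← ht]
    show kfc53.v t x = _
    rw [kfc53_g hy h2 q3.2 h4]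
    rw [ecv5q3 q3.1, cv5r_v, ← ht]
    simp only [swg_v, dga3c, dgsl3, pFma, pFmb, pFc0, nFsc5, nFB5, nFX5, nFD5, ndF5, pF, pNc0, nNB5, us3, qN]
    push_cast
    ring
  · have h2 : (4095 / 2048) < Y := by
      have := (abs_lt.1 i3).1
      rw [S_one] at this
      norm_num at this
      linarith
    have hy := ycg_v (y := Y) (by linarith [q3.1]) q3.2
    rw [← ht] at hy
    have h4 : t ≤ 1 / 25 := by
      rw [ht, c3n]
      exact Real.sqrt_le_iff.2 ⟨by norm_num, by nlinarith [q3.2]⟩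
    rw [← (atB53 (onc q3 (by decide))).L, ← ht]
    show lc53.v t x = _
    rw [lc53_g hy h2 q3.2 h4]
    rw [ecv5q3 q3.1, cv5r_v, ← ht]
    simp only [swg_v, dga3c, dgsl3, pFma, pFmb, pFc0, nFsc5, nFB5, nFX5, nFD5, ndF5, pF, pNc0, nNB5, us3, qN]
    push_cast
    ring
theorem sdF5 {x : ℝ} : SdOk PP tK tL pF (ndUR ndF5) 5 524288 x := nrF5.sd
theorem bf1q2_g {v x : ℝ} (v0 : 0 ≤ v) (v1 : v < (27 / 2048)) : bf1q2.v (1 + v) x = 1 + v * cFsB1.v v x := by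
  simp only [bf1q2_3, bf1q2, cFsB1]
  ((try push_cast); (repeat first | rw [if_pos (by linarith)] | rw [if_neg (by linarith)] | erw [if_pos (by linarith)] | erw [if_neg (by linarith)]))
  ring1
theorem bx1q2_g {v x : ℝ} (v0 : 0 ≤ v) (v1 : v < (27 / 2048)) : bx1q2.v (1 + v) x = 0 + v * cFsX1.v v x := by
  simp only [bx1q2_3, bx1q2, cFsX1]
  ((try push_cast); (repeat first | rw [if_pos (by linarith)] | rw [if_neg (by linarith)] | erw [if_pos (by linarith)] | erw [if_neg (by linarith)]))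
  ring1
theorem bd1q2_g {v x : ℝ} (v0 : 0 ≤ v) (v1 : v < (27 / 2048)) : bd1q2.v (1 + v) x = 0 + v * cFsD1.v v x := by
  simp only [bd1q2_3, bd1q2, cFsD1]
  ((try push_cast); (repeat first | rw [if_pos (by linarith)] | rw [if_neg (by linarith)] | erw [if_pos (by linarith)] | erw [if_neg (by linarith)]))
  ring1
theorem cvokF1 {x : ℝ} : CvOk PP tK tL pF cvF1 1 14155776 x := by
  intro v v0 v1
  have v2 : v < (27 / 2048) := by
    rw [S_one] at v1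
    norm_num at v1
    linarith
  have hxi := dgxi_v v0 (by linarith)
  have hws := dgws_v v0 (by linarith)
  have q2 : InQ 2 (1 + v) := ⟨by linarith, by linarith⟩
  have o : OnC (1 : Fin 7) 2 (1 + v) := onc q2 (by decide)
  have ex : crv PP 1 2 (1 + v) = 1 / 2 - v * cvF1.xs.v v := by
    rw [ecv1q2, cv1p_v, hxi, hws]
    simp only [pFma, pFmb, pFmu, pFnx, pFc0, pFkc, pFjc, pFca, pFcb, pFcc, pFsv, pFx11, pFx01, pFK11, pFK01, pFL11, pFL01, kFc0, kFc0g, kFc1, kFc1g, kFa0, kFa0g, kFa1, kFa1g, kFb0, kFb0g, kFb1_2, kFb1, kFb1g_2, kFb1g, kFd0, kFd0g, kFd1_2, kFd1, kFd1g_2, kFd1g, kFe0, kFe0g, kFe1_2, kFe1, kFe1g_2, kFe1g, cFxs1, cFsB1, cFBs1, cFsX1, cFsD1, cFsDD1, cFxs2, cFsB2, cFBs2, cFsX2, cFsD2, cFsDD2, nFsc2, nFB2_3, nFB2, nFX2_3, nFX2, nFD2_3, nFD2, nFsc3, nFB3, nFX3, nFD3, nFsc4, nFB4, nFX4, nFD4, nFsc5, nFB5, nFX5, nFD5, l12F, laF, lbF, l1F, l2F, cvF1, cvF2, ndF2, ndF3,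 ndF4, ndF5, pF, pNc0, pNkc, pNjc, pNcc, pNK11, pNK01, kNc0, kNc0g, kNc1, kNc1g, cNBs1, cNBs2, nNB2_4, nNB2, nNB3, nNB4, nNB5, umo, us1, us2, us3, uC11, uC01, kNu1_0, kNu1_0g, kNu1_1, kNu1_1g, kNu1_2, kNu1_2g, kNu1_3, kNu1_3g, l12N, cvN1, cvN2, ndN2, ndN3, ndN4, ndN5, pN, ul1, ul2, ul3, qN]
    push_cast
    ring
  refine ⟨ex, ?_, ?_⟩
  · rw [← (atB12 o).K]
    show kf1q2.v (1 + v) x = _
    have ef : kf1q2.v (1 + v) x = cv1p.v (1 + v) * bf1q2.v (1 + v) x := by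
      simp only [kf1q2, bf1q2_3, bf1q2]
    rw [ef, bf1q2_g v0 v2, ← ecv1q2, ex]
    simp only [pFmu, pFc0, cFBs1, cvF1, pF, pNc0, cNBs1]
    push_cast
    ring
  · rw [← (atB12 o).L]
    show l1q2.v (1 + v) x = _
    have ef : l1q2.v (1 + v) x = cv1p.v (1 + v) * bx1q2.v (1 + v) x := by
      simp only [l1q2, bx1q2_3, bx1q2]
    rw [ef, bx1q2_g v0 v2, ← ecv1q2, ex, zero_add]
    rfl
theorem bf2q2_g {v x : ℝ} (v0 : 0 ≤ v) (v1 : v < (27 / 2048)) : bf2q2.v (1 + v) x = 1 + v * cFsB2.v v x := by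
  simp only [bf2q2_3, bf2q2, cFsB2]
  ((try push_cast); (repeat first | rw [if_pos (by linarith)] | rw [if_neg (by linarith)] | erw [if_pos (by linarith)] | erw [if_neg (by linarith)]))
  ring1
theorem bx2q2_g {v x : ℝ} (v0 : 0 ≤ v) (v1 : v < (27 / 2048)) : bx2q2.v (1 + v) x = 0 + v * cFsX2.v v x := by
  simp only [bx2q2_3, bx2q2, cFsX2]
  ((try push_cast); (repeat first | rw [if_pos (by linarith)] | rw [if_neg (by linarith)] | erw [if_pos (by linarith)] | erw [if_neg (by linarith)]))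
  ring1
theorem bd2q2_g {v x : ℝ} (v0 : 0 ≤ v) (v1 : v < (27 / 2048)) : bd2q2.v (1 + v) x = 0 + v * cFsD2.v v x := by
  simp only [bd2q2_3, bd2q2, cFsD2]
  ((try push_cast); (repeat first | rw [if_pos (by linarith)] | rw [if_neg (by linarith)] | erw [if_pos (by linarith)] | erw [if_neg (by linarith)]))
  ring1
theorem cvokF2 {x : ℝ} : CvOk PP tK tL pF cvF2 2 14155776 x := by
  intro v v0 v1
  have v2 : v < (27 / 2048) := by
    rw [S_one] at v1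
    norm_num at v1
    linarith
  have hxi := dgxi_v v0 (by linarith)
  have hws := dgws_v v0 (by linarith)
  have q2 : InQ 2 (1 + v) := ⟨by linarith, by linarith⟩
  have o : OnC (2 : Fin 7) 2 (1 + v) := onc q2 (by decide)
  have ex : crv PP 2 2 (1 + v) = 1 / 2 - v * cvF2.xs.v v := by
    rw [ecv2q2, cv2p_v, hxi, hws]
    simp only [pFma, pFmb, pFmu, pFnx, pFc0, pFkc, pFjc, pFca, pFcb, pFcc, pFsv, pFx11, pFx01, pFK11, pFK01, pFL11, pFL01, kFc0, kFc0g, kFc1, kFc1g, kFa0, kFa0g, kFa1, kFa1g, kFb0, kFb0g, kFb1_2, kFb1, kFb1g_2, kFb1g, kFd0, kFd0g, kFd1_2, kFd1, kFd1g_2, kFd1g, kFe0, kFe0g, kFe1_2, kFe1, kFe1g_2, kFe1g, cFxs1, cFsB1, cFBs1, cFsX1, cFsD1, cFsDD1, cFxs2, cFsB2, cFBs2, cFsX2, cFsD2, cFsDD2, nFsc2, nFB2_3, nFB2, nFX2_3, nFX2, nFD2_3, nFD2, nFsc3, nFB3, nFX3, nFD3, nFsc4, nFB4, nFX4, nFD4, nFsc5, nFB5, nFX5, nFD5, l12F, laF, lbF, l1F, l2F, cvF1, cvF2, ndF2, ndF3,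 ndF4, ndF5, pF, pNc0, pNkc, pNjc, pNcc, pNK11, pNK01, kNc0, kNc0g, kNc1, kNc1g, cNBs1, cNBs2, nNB2_4, nNB2, nNB3, nNB4, nNB5, umo, us1, us2, us3, uC11, uC01, kNu1_0, kNu1_0g, kNu1_1, kNu1_1g, kNu1_2, kNu1_2g, kNu1_3, kNu1_3g, l12N, cvN1, cvN2, ndN2, ndN3, ndN4, ndN5, pN, ul1, ul2, ul3, qN]
    push_cast
    ring
  refine ⟨ex, ?_, ?_⟩
  · rw [← (atB22 o).K]
    show kf2q2.v (1 + v) x = _
    have ef : kf2q2.v (1 + v) x = cv2p.v (1 + v) * bf2q2.v (1 + v) x := by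
      simp only [kf2q2, bf2q2_3, bf2q2]
    rw [ef, bf2q2_g v0 v2, ← ecv2q2, ex]
    simp only [pFmu, pFc0, cFBs2, cvF2, pF, pNc0, cNBs2]
    push_cast
    ring
  · rw [← (atB22 o).L]
    show l2q2.v (1 + v) x = _
    have ef : l2q2.v (1 + v) x = cv2p.v (1 + v) * bx2q2.v (1 + v) x := by
      simp only [l2q2, bx2q2_3, bx2q2]
    rw [ef, bx2q2_g v0 v2, ← ecv2q2, ex, zero_add]
    rfl
theorem p1okF {x : ℝ} : P1Ok PP tK tL pF 1 14155776 x := by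
  refine ⟨fun hq _ => ecv1q1, fun hq _ => (congrFun c1g_v _).symm, fun hq _ => ((atB11 (onc hq (by decide))).K).symm,
    fun hq _ => ((atB01 ⟨hq, fun _ => on_h (by linarith [hq.2]) (by linarith [hq.1])⟩).K).symm,
    fun hq _ => ((atB11 (onc hq (by decide))).L).symm,
    fun hq _ => ((atB01 ⟨hq, fun _ => on_h (by linarith [hq.2]) (by linarith [hq.1])⟩).L).symm⟩
theorem svF (u : ℝ) : pF.sv.v u = u - ((14155776 : ℕ) : ℝ) / S := by
  rw [S_one]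
  simp only [pFma, pFmb, pFmu, pFnx, pFc0, pFkc, pFjc, pFca, pFcb, pFcc, pFsv, pFx11, pFx01, pFK11, pFK01, pFL11, pFL01, kFc0, kFc0g, kFc1, kFc1g, kFa0, kFa0g, kFa1, kFa1g, kFb0, kFb0g, kFb1_2, kFb1, kFb1g_2, kFb1g, kFd0, kFd0g, kFd1_2, kFd1, kFd1g_2, kFd1g, kFe0, kFe0g, kFe1_2, kFe1, kFe1g_2, kFe1g, cFxs1, cFsB1, cFBs1, cFsX1, cFsD1, cFsDD1, cFxs2, cFsB2, cFBs2, cFsX2, cFsD2, cFsDD2, nFsc2, nFB2_3, nFB2, nFX2_3, nFX2, nFD2_3, nFD2, nFsc3, nFB3, nFX3, nFD3, nFsc4, nFB4, nFX4, nFD4, nFsc5, nFB5, nFX5, nFD5, l12F, laF, lbF, l1F, l2F, cvF1, cvF2, ndF2, ndF3, ndF4, ndF5, pF, pNc0, pNkc, pNjc, pNcc, pNK11, pNK01, kNc0, kNc0g, kNc1, kNc1g, cNBs1, cNBs2, nNB2_4, nNB2, nNB3, nNB4, nNB5, umo, us1, us2, us3, uC11, uC01, kNu1_0, kNu1_0g, kNu1_1, kNu1_1g, kNu1_2, kNu1_2g, kNu1_3, kNu1_3g, l12N, cvN1, cvN2, ndN2, ndN3, ndN4, ndN5, pN, ul1, ul2, ul3, qN]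
  push_cast
  ring
theorem tabN {x : ℝ} : TabOk (scK (eng.v x) tK) tL pN 14155776 x := by
  refine ⟨?_, ?_, ?_, ?_⟩
  · intro y h hq hd hh
    obtain ⟨r0, r1⟩ := h1_rng hq hd hD hDH hh
    have o : OnC (0 : Fin 7) 1 y := ⟨hq, fun _ => on_h (by linarith [hq.2]) (by linarith [hq.1])⟩
    show eng.v x * tK 0 1 y x = _
    rw [← (atB01 o).K]
    show eng.v x * kf0q1.v y x = _
    rw [kf0q1_g hh, kcP r0 r1]
    simp only [pFma, pFmb, pFmu, pFnx, pFc0, pFkc, pFjc, pFca, pFcb, pFcc, pFsv, pFx11, pFx01, pFK11, pFK01, pFL11, pFL01, kFc0, kFc0g, kFc1, kFc1g, kFa0, kFa0g, kFa1, kFa1g, kFb0, kFb0g, kFb1_2, kFb1, kFb1g_2, kFb1g, kFd0, kFd0g, kFd1_2, kFd1, kFd1g_2, kFd1g, kFe0, kFe0g, kFe1_2, kFe1, kFe1g_2, kFe1g, cFxs1, cFsB1, cFBs1, cFsX1, cFsD1, cFsDD1, cFxs2, cFsB2, cFBs2, cFsX2, cFsD2, cFsDD2, nFsc2, nFB2_3, nFB2, nFX2_3, nFX2, nFD2_3, nFD2, nFsc3, nFB3, nFX3, nFD3, nFsc4, nFB4, nFX4,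 nFD4, nFsc5, nFB5, nFX5, nFD5, l12F, laF, lbF, l1F, l2F, cvF1, cvF2, ndF2, ndF3, ndF4, ndF5, pF, pNc0, pNkc, pNjc, pNcc, pNK11, pNK01, kNc0, kNc0g, kNc1, kNc1g, cNBs1, cNBs2, nNB2_4, nNB2, nNB3, nNB4, nNB5, umo, us1, us2, us3, uC11, uC01, kNu1_0, kNu1_0g, kNu1_1, kNu1_1g, kNu1_2, kNu1_2g, kNu1_3, kNu1_3g, l12N, cvN1, cvN2, ndN2, ndN3, ndN4, ndN5, pN, ul1, ul2, ul3, qN, pf_cons, pf_nil]
    push_cast
    ring
  · intro y h hq hd hh
    obtain ⟨r0, r1⟩ := h1_rng hq hd hD hDH hh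
    have o : OnC (0 : Fin 7) 1 y := ⟨hq, fun _ => on_h (by linarith [hq.2]) (by linarith [hq.1])⟩
    rw [← (atB01 o).L]
    show l0q1.v y x = _
    rw [l0q1_g hh r0 r1]
    simp only [pFma, pFmb, pFmu, pFnx, pFc0, pFkc, pFjc, pFca, pFcb, pFcc, pFsv, pFx11, pFx01, pFK11, pFK01, pFL11, pFL01, kFc0, kFc0g, kFc1, kFc1g, kFa0, kFa0g, kFa1, kFa1g, kFb0, kFb0g, kFb1_2, kFb1, kFb1g_2, kFb1g, kFd0, kFd0g, kFd1_2, kFd1, kFd1g_2, kFd1g, kFe0, kFe0g, kFe1_2, kFe1, kFe1g_2, kFe1g, cFxs1, cFsB1, cFBs1, cFsX1, cFsD1, cFsDD1, cFxs2, cFsB2, cFBs2, cFsX2, cFsD2, cFsDD2, nFsc2, nFB2_3, nFB2, nFX2_3, nFX2, nFD2_3, nFD2, nFsc3, nFB3, nFX3, nFD3, nFsc4, nFB4, nFX4, nFD4, nFsc5, nFB5, nFX5, nFD5, l12F, laF, lbF, l1F, l2F, cvF1, cvF2, ndF2, ndF3, ndF4, ndF5, pF, pNc0, pNkc, pNjc, pNcc, pNK11, pNK01, kNc0, kNc0g, kNc1, kNc1g, cNBs1, cNBs2, nNB2_4, nNB2, nNB3, nNB4, nNB5, umo, us1, us2, us3, uC11,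 uC01, kNu1_0, kNu1_0g, kNu1_1, kNu1_1g, kNu1_2, kNu1_2g, kNu1_3, kNu1_3g, l12N, cvN1, cvN2, ndN2, ndN3, ndN4, ndN5, pN, ul1, ul2, ul3, qN, pf_cons, pf_nil]
    push_cast
    ring
  · intro y h hq hd hh
    obtain ⟨r0, r1⟩ := h2_rng hq hd hD hDH hh
    have hy := on_h (r16 hd) (by linarith [hq.1])
    have o : OnC (0 : Fin 7) 2 y := ⟨hq, fun _ => hy⟩
    have hc : c1n y = 1 / 2 - h := by linarith
    have ya := yag_v (y := y) (by linarith [hq.1]) hy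
    rw [hc] at ya
    show eng.v x * tK 0 2 y x = _
    rw [← (atB02 o).K, hc]
    show eng.v x * kfc02.v (1 / 2 - h) x = _
    rw [kfc02_g, kcN r0 r1, ya]
    simp only [pFma, pFmb, pFmu, pFnx, pFc0, pFkc, pFjc, pFca, pFcb, pFcc, pFsv, pFx11, pFx01, pFK11, pFK01, pFL11, pFL01, kFc0, kFc0g, kFc1, kFc1g, kFa0, kFa0g, kFa1, kFa1g, kFb0, kFb0g, kFb1_2, kFb1, kFb1g_2, kFb1g, kFd0, kFd0g, kFd1_2, kFd1, kFd1g_2, kFd1g, kFe0, kFe0g, kFe1_2, kFe1, kFe1g_2, kFe1g, cFxs1, cFsB1, cFBs1, cFsX1, cFsD1, cFsDD1, cFxs2, cFsB2, cFBs2, cFsX2, cFsD2, cFsDD2, nFsc2, nFB2_3, nFB2, nFX2_3, nFX2, nFD2_3, nFD2, nFsc3, nFB3, nFX3, nFD3, nFsc4, nFB4, nFX4, nFD4, nFsc5, nFB5, nFX5, nFD5, l12F, laF, lbF, l1F, l2F, cvF1, cvF2, ndF2, ndF3, ndF4, ndF5, pF, pNc0, pNkc, pNjc, pNcc, pNK11, pNK01, kNc0, kNc0g, kNc1, kNc1g, cNBs1, cNBs2, nNB2_4, nNB2, nNB3, nNB4, nNB5, umo, us1, us2, us3, uC11, uC01, kNu1_0,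 kNu1_0g, kNu1_1, kNu1_1g, kNu1_2, kNu1_2g, kNu1_3, kNu1_3g, l12N, cvN1, cvN2, ndN2, ndN3, ndN4, ndN5, pN, ul1, ul2, ul3, qN, pf_cons, pf_nil]
    push_cast
    ring
  · intro y h hq hd hh
    obtain ⟨r0, r1⟩ := h2_rng hq hd hD hDH hh
    have hy := on_h (r16 hd) (by linarith [hq.1])
    have o : OnC (0 : Fin 7) 2 y := ⟨hq, fun _ => hy⟩
    have hc : c1n y = 1 / 2 - h := by linarith
    rw [← (atB02 o).L, hc]
    show lc02.v (1 / 2 - h) x = _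
    rw [lc02_g r0 r1]
    simp only [pFma, pFmb, pFmu, pFnx, pFc0, pFkc, pFjc, pFca, pFcb, pFcc, pFsv, pFx11, pFx01, pFK11, pFK01, pFL11, pFL01, kFc0, kFc0g, kFc1, kFc1g, kFa0, kFa0g, kFa1, kFa1g, kFb0, kFb0g, kFb1_2, kFb1, kFb1g_2, kFb1g, kFd0, kFd0g, kFd1_2, kFd1, kFd1g_2, kFd1g, kFe0, kFe0g, kFe1_2, kFe1, kFe1g_2, kFe1g, cFxs1, cFsB1, cFBs1, cFsX1, cFsD1, cFsDD1, cFxs2, cFsB2, cFBs2, cFsX2, cFsD2, cFsDD2, nFsc2, nFB2_3, nFB2, nFX2_3, nFX2, nFD2_3, nFD2, nFsc3, nFB3, nFX3, nFD3, nFsc4, nFB4, nFX4, nFD4, nFsc5, nFB5, nFX5, nFD5, l12F, laF, lbF, l1F, l2F, cvF1, cvF2, ndF2, ndF3, ndF4, ndF5, pF, pNc0, pNkc, pNjc, pNcc, pNK11, pNK01, kNc0, kNc0g, kNc1, kNc1g, cNBs1, cNBs2, nNB2_4, nNB2, nNB3, nNB4, nNB5, umo, us1, us2, us3, uC11, uC01, kNu1_0, kNu1_0g, kNu1_1, kNu1_1g, kNu1_2, kNu1_2g, kNu1_3, kNu1_3g, l12N, cvN1, cvN2, ndN2, ndN3, ndN4, ndN5, pN, ul1, ul2, ul3, qN, pf_cons,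 pf_nil]
    push_cast
    ring
theorem tabU {x : ℝ} : TabU tU qN 14155776 x := by
  refine ⟨?_, ?_⟩
  · intro y h hq hd hh
    obtain ⟨r0, r1⟩ := h1_rng hq hd hD hDH hh
    have hc : c1n y = 2 * h - 1 + 3 / 2 * y := by linarith
    have o : OnC (0 : Fin 7) 1 y := ⟨hq, fun _ => on_h (by linarith [hq.2]) (by linarith [hq.1])⟩
    rw [show tU 0 1 y x = kc0q1.v y x from tbF_on (fn := nc) (crd := crd) (x := x) o, kc0q1_g hc r0 r1]
    simp only [pFma, pFmb, pFmu, pFnx, pFc0, pFkc, pFjc, pFca, pFcb, pFcc, pFsv, pFx11, pFx01, pFK11, pFK01, pFL11, pFL01, kFc0, kFc0g, kFc1, kFc1g, kFa0, kFa0g, kFa1, kFa1g, kFb0, kFb0g, kFb1_2, kFb1, kFb1g_2, kFb1g, kFd0, kFd0g, kFd1_2, kFd1, kFd1g_2, kFd1g, kFe0, kFe0g, kFe1_2, kFe1, kFe1g_2, kFe1g, cFxs1, cFsB1, cFBs1, cFsX1, cFsD1, cFsDD1, cFxs2, cFsB2, cFBs2, cFsX2, cFsD2, cFsDD2, nFsc2, nFB2_3, nFB2, nFX2_3, nFX2, nFD2_3, nFD2, nFsc3, nFB3, nFX3,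 nFD3, nFsc4, nFB4, nFX4, nFD4, nFsc5, nFB5, nFX5, nFD5, l12F, laF, lbF, l1F, l2F, cvF1, cvF2, ndF2, ndF3, ndF4, ndF5, pF, pNc0, pNkc, pNjc, pNcc, pNK11, pNK01, kNc0, kNc0g, kNc1, kNc1g, cNBs1, cNBs2, nNB2_4, nNB2, nNB3, nNB4, nNB5, umo, us1, us2, us3, uC11, uC01, kNu1_0, kNu1_0g, kNu1_1, kNu1_1g, kNu1_2, kNu1_2g, kNu1_3, kNu1_3g, l12N, cvN1, cvN2, ndN2, ndN3, ndN4, ndN5, pN, ul1, ul2, ul3, qN, pf_cons, pf_nil]
    push_cast
    ring
  · intro y h hq hd hh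
    obtain ⟨r0, r1⟩ := h2_rng hq hd hD hDH hh
    have hy := on_h (r16 hd) (by linarith [hq.1])
    have hc : c1n y = 1 / 2 - h := by linarith
    have o : OnC (0 : Fin 7) 2 y := ⟨hq, fun _ => hy⟩
    rw [show tU 0 2 y x = kcc02.v (c1n y) x from tbF_on (fn := nc) (crd := crd) (x := x) o, hc, kcc02_g r0 r1]
    simp only [pFma, pFmb, pFmu, pFnx, pFc0, pFkc, pFjc, pFca, pFcb, pFcc, pFsv, pFx11, pFx01, pFK11, pFK01, pFL11, pFL01, kFc0, kFc0g, kFc1, kFc1g, kFa0, kFa0g, kFa1, kFa1g, kFb0, kFb0g, kFb1_2, kFb1, kFb1g_2, kFb1g, kFd0, kFd0g, kFd1_2, kFd1, kFd1g_2, kFd1g, kFe0, kFe0g, kFe1_2, kFe1, kFe1g_2, kFe1g, cFxs1, cFsB1, cFBs1, cFsX1, cFsD1, cFsDD1, cFxs2, cFsB2, cFBs2, cFsX2, cFsD2, cFsDD2, nFsc2, nFB2_3, nFB2, nFX2_3, nFX2, nFD2_3, nFD2, nFsc3, nFB3, nFX3, nFD3, nFsc4, nFB4, nFX4, nFD4, nFsc5, nFB5, nFX5, nFD5, l12F, laF, lbF, l1F, l2F, cvF1, cvF2, ndF2, ndF3, ndF4, ndF5,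 pF, pNc0, pNkc, pNjc, pNcc, pNK11, pNK01, kNc0, kNc0g, kNc1, kNc1g, cNBs1, cNBs2, nNB2_4, nNB2, nNB3, nNB4, nNB5, umo, us1, us2, us3, uC11, uC01, kNu1_0, kNu1_0g, kNu1_1, kNu1_1g, kNu1_2, kNu1_2g, kNu1_3, kNu1_3g, l12N, cvN1, cvN2, ndN2, ndN3, ndN4, ndN5, pN, ul1, ul2, ul3, qN, pf_cons, pf_nil]
    push_cast
    ring
theorem fitN {x : ℝ} : pN.Fit false 3 x := by
  refine ⟨fun h => mu_v x, ?_, fun h => absurd h (by decide)⟩
  simp only [pFma, pFmb, pFmu, pFnx, pFc0, pFkc, pFjc, pFca, pFcb, pFcc, pFsv, pFx11, pFx01, pFK11, pFK01, pFL11, pFL01, kFc0, kFc0g, kFc1, kFc1g, kFa0, kFa0g, kFa1, kFa1g, kFb0, kFb0g, kFb1_2, kFb1, kFb1g_2, kFb1g, kFd0, kFd0g, kFd1_2, kFd1, kFd1g_2, kFd1g, kFe0, kFe0g, kFe1_2, kFe1, kFe1g_2, kFe1g, cFxs1, cFsB1, cFBs1, cFsX1, cFsD1, cFsDD1, cFxs2, cFsB2, cFBs2, cFsX2, cFsD2, cFsDD2, nFsc2, nFB2_3, nFB2, nFX2_3, nFX2, nFD2_3, nFD2, nFsc3, nFB3, nFX3, nFD3,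 nFsc4, nFB4, nFX4, nFD4, nFsc5, nFB5, nFX5, nFD5, l12F, laF, lbF, l1F, l2F, cvF1, cvF2, ndF2, ndF3, ndF4, ndF5, pF, pNc0, pNkc, pNjc, pNcc, pNK11, pNK01, kNc0, kNc0g, kNc1, kNc1g, cNBs1, cNBs2, nNB2_4, nNB2, nNB3, nNB4, nNB5, umo, us1, us2, us3, uC11, uC01, kNu1_0, kNu1_0g, kNu1_1, kNu1_1g, kNu1_2, kNu1_2g, kNu1_3, kNu1_3g, l12N, cvN1, cvN2, ndN2, ndN3, ndN4, ndN5, pN, ul1, ul2, ul3, qN]
  push_cast
  ring
theorem sdNC {x : ℝ} : SdOk PP (scK (eng.v x) tK) tL pN (dgSC pN) 6 524288 x := by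
  refine sdC rfl ?_ ?_
  · intro Y t h q3 i3 ht hh
    obtain ⟨r0, r1⟩ := h3_rng q3 i3 ht (by norm_num) (by norm_num) hD3H hh
    have hy := ycg_v (y := Y) (by linarith [q3.1]) q3.2
    rw [← ht] at hy
    show eng.v x * tK 6 3 Y x = _
    rw [← (atB63 (onc q3 (by decide))).K, ← ht]
    show eng.v x * kfc63.v t x = _
    rw [kfc63_g hy hh, kcP r0 r1]
    simp only [pFma, pFmb, pFmu, pFnx, pFc0, pFkc, pFjc, pFca, pFcb, pFcc, pFsv, pFx11, pFx01, pFK11, pFK01, pFL11, pFL01, kFc0, kFc0g, kFc1, kFc1g, kFa0, kFa0g, kFa1, kFa1g, kFb0, kFb0g, kFb1_2, kFb1, kFb1g_2, kFb1g, kFd0, kFd0g, kFd1_2, kFd1, kFd1g_2, kFd1g, kFe0, kFe0g, kFe1_2, kFe1, kFe1g_2, kFe1g, cFxs1, cFsB1, cFBs1, cFsX1, cFsD1, cFsDD1, cFxs2, cFsB2, cFBs2, cFsX2, cFsD2, cFsDD2, nFsc2, nFB2_3, nFB2, nFX2_3, nFX2, nFD2_3, nFD2, nFsc3, nFB3, nFX3, nFD3, nFsc4, nFB4, nFX4, nFD4, nFsc5, nFB5, nFX5, nFD5, l12F, laF, lbF, l1F,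 l2F, cvF1, cvF2, ndF2, ndF3, ndF4, ndF5, pF, pNc0, pNkc, pNjc, pNcc, pNK11, pNK01, kNc0, kNc0g, kNc1, kNc1g, cNBs1, cNBs2, nNB2_4, nNB2, nNB3, nNB4, nNB5, umo, us1, us2, us3, uC11, uC01, kNu1_0, kNu1_0g, kNu1_1, kNu1_1g, kNu1_2, kNu1_2g, kNu1_3, kNu1_3g, l12N, cvN1, cvN2, ndN2, ndN3, ndN4, ndN5, pN, ul1, ul2, ul3, qN, pf_cons, pf_nil]
    push_cast
    ring
  · intro Y t h q3 i3 ht hh
    obtain ⟨r0, r1⟩ := h3_rng q3 i3 ht (by norm_num) (by norm_num) hD3H hh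
    have hy := ycg_v (y := Y) (by linarith [q3.1]) q3.2
    rw [← ht] at hy
    rw [← (atB63 (onc q3 (by decide))).L, ← ht]
    show lc63.v t x = _
    rw [lc63_g hy hh r0 r1]
    simp only [pFma, pFmb, pFmu, pFnx, pFc0, pFkc, pFjc, pFca, pFcb, pFcc, pFsv, pFx11, pFx01, pFK11, pFK01, pFL11, pFL01, kFc0, kFc0g, kFc1, kFc1g, kFa0, kFa0g, kFa1, kFa1g, kFb0, kFb0g, kFb1_2, kFb1, kFb1g_2, kFb1g, kFd0, kFd0g, kFd1_2, kFd1, kFd1g_2, kFd1g, kFe0, kFe0g, kFe1_2, kFe1, kFe1g_2, kFe1g, cFxs1, cFsB1, cFBs1, cFsX1, cFsD1, cFsDD1, cFxs2, cFsB2, cFBs2, cFsX2, cFsD2, cFsDD2, nFsc2, nFB2_3, nFB2, nFX2_3, nFX2, nFD2_3, nFD2, nFsc3, nFB3, nFX3, nFD3, nFsc4, nFB4, nFX4, nFD4, nFsc5, nFB5, nFX5, nFD5, l12F, laF, lbF, l1F, l2F, cvF1, cvF2, ndF2, ndF3, ndF4, ndF5, pF, pNc0, pNkc, pNjc, pNcc, pNK11, pNK01, kNc0, kNc0g, kNc1, kNc1g, cNBs1, cNBs2, nNB2_4, nNB2, nNB3, nNB4, nNB5, umo, us1, us2, us3,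 uC11, uC01, kNu1_0, kNu1_0g, kNu1_1, kNu1_1g, kNu1_2, kNu1_2g, kNu1_3, kNu1_3g, l12N, cvN1, cvN2, ndN2, ndN3, ndN4, ndN5, pN, ul1, ul2, ul3, qN, pf_cons, pf_nil]
    push_cast
    ring
theorem suNC {x : ℝ} : SuOk tU qN (dgSC pN) (suC qN) 6 524288 x := by
  refine suC_ok (p := pN) ?_
  intro Y t h q3 i3 ht hh
  obtain ⟨r0, r1⟩ := h3_rng q3 i3 ht (by norm_num) (by norm_num) hD3H hh
  have hy := ycg_v (y := Y) (by linarith [q3.1]) q3.2
  rw [← ht] at hy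
  rw [show tU 6 3 Y x = kcc63.v (c3n Y) x from tbF_on (fn := nc) (crd := crd) (x := x) (onc q3 (by decide)), ← ht, kcc63_g hy hh r0 r1]
  simp only [pFma, pFmb, pFmu, pFnx, pFc0, pFkc, pFjc, pFca, pFcb, pFcc, pFsv, pFx11, pFx01, pFK11, pFK01, pFL11, pFL01, kFc0, kFc0g, kFc1, kFc1g, kFa0, kFa0g, kFa1, kFa1g, kFb0, kFb0g, kFb1_2, kFb1, kFb1g_2, kFb1g, kFd0, kFd0g, kFd1_2, kFd1, kFd1g_2, kFd1g, kFe0, kFe0g, kFe1_2, kFe1, kFe1g_2, kFe1g, cFxs1, cFsB1, cFBs1, cFsX1, cFsD1, cFsDD1, cFxs2, cFsB2, cFBs2, cFsX2, cFsD2, cFsDD2, nFsc2, nFB2_3, nFB2, nFX2_3, nFX2, nFD2_3, nFD2, nFsc3, nFB3, nFX3, nFD3, nFsc4, nFB4, nFX4, nFD4, nFsc5, nFB5, nFX5, nFD5, l12F, laF, lbF, l1F, l2F, cvF1, cvF2, ndF2, ndF3, ndF4, ndF5, pF, pNc0, pNkc, pNjc, pNcc, pNK11, pNK01, kNc0, kNc0g, kNc1, kNc1g, cNBs1, cNBs2, nNB2_4, nNB2, nNB3, nNB4, nNB5, umo, us1, us2, us3, uC11, uC01, kNu1_0, kNu1_0g, kNu1_1, kNu1_1g,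 kNu1_2, kNu1_2g, kNu1_3, kNu1_3g, l12N, cvN1, cvN2, ndN2, ndN3, ndN4, ndN5, pN, ul1, ul2, ul3, qN, pf_cons, pf_nil]
  push_cast
  ring
theorem nlN2 {x : ℝ} : NuL PP (scK (eng.v x) tK) tL ndN2 2 524288 x := by
  have hr : PP.ρ 2 = 13 / 20 := rfl
  refine ⟨by rw [hr]; norm_num, fun u => ?_, fun {Y t} q3 i3 ht hw => ?_, fun {Y t} q3 i3 ht hw => ?_⟩
  · rw [hr]
    simp only [pFma, pFmb, pFc0, nFsc2, nFB2_3, nFB2, nFX2_3, nFX2, nFD2_3, nFD2, pNc0, nNB2_4, nNB2, us3, ndN2, pN, qN]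
    push_cast
    ring
  · have h2 : (4095 / 2048) < Y := by
      have := (abs_lt.1 i3).1
      rw [S_one] at this
      norm_num at this
      linarith
    show eng.v x * tK 2 3 Y x = _
    rw [← (atB23 (onc q3 (by decide))).K]
    show eng.v x * kf2q3.v Y x = _
    rw [kf2q3_g h2 q3.2, ← ecv2q3 q3.1]
    simp only [c3g_v, ← ht, hw, pFma, pFmb, pFc0, nFsc2, nFB2_3, nFB2, nFX2_3, nFX2, nFD2_3, nFD2, pNc0, nNB2_4, nNB2, us3, ndN2, pN, qN]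
    push_cast
    ring
  · have h2 : (4095 / 2048) < Y := by
      have := (abs_lt.1 i3).1
      rw [S_one] at this
      norm_num at this
      linarith
    rw [← (atB23 (onc q3 (by decide))).L]
    show l2q3.v Y x = _
    rw [l2q3_g h2 q3.2, ← ecv2q3 q3.1]
    simp only [c3g_v, ← ht, hw, pFma, pFmb, pFc0, nFsc2, nFB2_3, nFB2, nFX2_3, nFX2, nFD2_3, nFD2, pNc0, nNB2_4, nNB2, us3, ndN2, pN, qN]
    push_cast
    ring
theorem sdN2 {x : ℝ} : SdOk PP (scK (eng.v x) tK) tL pN (ndUL pN ndN2) 2 524288 x := nlN2.sd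
theorem nc2 {x : ℝ} : NuLC PP tU ndN2 2 524288 x := by
  intro Y t q3 i3 ht hw
  have h2 : (4095 / 2048) < Y := by
    have := (abs_lt.1 i3).1
    rw [S_one] at this
    norm_num at this
    linarith
  rw [show tU 2 3 Y x = kc2q3.v Y x from tbF_on (fn := nc) (crd := crd) (x := x) (onc q3 (by decide)), kc2q3_g h2 q3.2, ← ecv2q3 q3.1]
  simp only [c3g_v, ← ht, hw, pFma, pFmb, pFc0, nFsc2, nFB2_3, nFB2, nFX2_3, nFX2, nFD2_3, nFD2, pNc0, nNB2_4, nNB2, us3, ndN2, pN, qN]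
  push_cast
  ring
theorem suN2 {x : ℝ} : SuOk tU qN (ndUL pN ndN2) (suL qN ndN2) 2 524288 x := nc2.su (nlN2 (x := x)).hj (nlN2 (x := x)).sc
theorem nrN3 {x : ℝ} : NuR PP (scK (eng.v x) tK) tL pN ndN3 3 524288 x := by
  have hr : PP.ρ 3 = 2071 / 2000 := rfl
  refine ⟨by rw [hr]; norm_num, fun u => ?_, fun {Y t} q3 i3 ht hw => ?_, fun {Y t} q3 i3 ht hw => ?_⟩
  · rw [hr]
    simp only [pFma, pFmb, pFc0, nFsc3, nFB3, nFX3, nFD3, pNc0, nNB3, us3, ndN3, pN, qN]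
    push_cast
    ring
  · have h2 : (4095 / 2048) < Y := by
      have := (abs_lt.1 i3).1
      rw [S_one] at this
      norm_num at this
      linarith
    have hy := ycg_v (y := Y) (by linarith [q3.1]) q3.2
    rw [← ht] at hy
    have h4 : t ≤ 1 / 25 := by
      rw [ht, c3n]
      exact Real.sqrt_le_iff.2 ⟨by norm_num, by nlinarith [q3.2]⟩
    show eng.v x * tK 3 3 Y x = _
    rw [← (atB33 (onc q3 (by decide))).K, ← ht]
    show eng.v x * kfc33.v t x = _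
    rw [kfc33_g hy h2 q3.2 h4]
    rw [ecv3q3 q3.1, cv3r_v, ← ht]
    simp only [swg_v, dga3c, dgsl3, pFma, pFmb, pFc0, nFsc3, nFB3, nFX3, nFD3, pNc0, nNB3, us3, ndN3, pN, qN]
    push_cast
    ring
  · have h2 : (4095 / 2048) < Y := by
      have := (abs_lt.1 i3).1
      rw [S_one] at this
      norm_num at this
      linarith
    have hy := ycg_v (y := Y) (by linarith [q3.1]) q3.2
    rw [← ht] at hy
    have h4 : t ≤ 1 / 25 := by
      rw [ht, c3n]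
      exact Real.sqrt_le_iff.2 ⟨by norm_num, by nlinarith [q3.2]⟩
    rw [← (atB33 (onc q3 (by decide))).L, ← ht]
    show lc33.v t x = _
    rw [lc33_g hy h2 q3.2 h4]
    rw [ecv3q3 q3.1, cv3r_v, ← ht]
    simp only [swg_v, dga3c, dgsl3, pFma, pFmb, pFc0, nFsc3, nFB3, nFX3, nFD3, pNc0, nNB3, us3, ndN3, pN, qN]
    push_cast
    ring
theorem sdN3 {x : ℝ} : SdOk PP (scK (eng.v x) tK) tL pN (ndUR ndN3) 3 524288 x := nrN3.sd
theorem nc3 {x : ℝ} : NuRC PP tU qN ndN3 3 524288 x := by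
  intro Y t q3 i3 ht hw
  have h2 : (4095 / 2048) < Y := by
    have := (abs_lt.1 i3).1
    rw [S_one] at this
    norm_num at this
    linarith
  have hy := ycg_v (y := Y) (by linarith [q3.1]) q3.2
  rw [← ht] at hy
  have h4 : t ≤ 1 / 25 := by
    rw [ht, c3n]
    exact Real.sqrt_le_iff.2 ⟨by norm_num, by nlinarith [q3.2]⟩
  rw [show tU 3 3 Y x = kcc33.v (c3n Y) x from tbF_on (fn := nc) (crd := crd) (x := x) (onc q3 (by decide)), ← ht, kcc33_g hy h2 q3.2 h4]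
  rw [ecv3q3 q3.1, cv3r_v, ← ht]
  simp only [swg_v, dga3c, dgsl3, pFma, pFmb, pFc0, nFsc3, nFB3, nFX3, nFD3, pNc0, nNB3, us3, ndN3, pN, qN]
  push_cast
  ring
theorem suN3 {x : ℝ} : SuOk tU qN (ndUR ndN3) (suR ndN3) 3 524288 x := nc3.su (nrN3 (x := x)).hj (nrN3 (x := x)).sc
theorem nrN4 {x : ℝ} : NuR PP (scK (eng.v x) tK) tL pN ndN4 4 524288 x := by
  have hr : PP.ρ 4 = 23 / 20 := rfl
  refine ⟨by rw [hr]; norm_num, fun u => ?_, fun {Y t} q3 i3 ht hw => ?_, fun {Y t} q3 i3 ht hw => ?_⟩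
  · rw [hr]
    simp only [pFma, pFmb, pFc0, nFsc4, nFB4, nFX4, nFD4, pNc0, nNB4, us3, ndN4, pN, qN]
    push_cast
    ring
  · have h2 : (4095 / 2048) < Y := by
      have := (abs_lt.1 i3).1
      rw [S_one] at this
      norm_num at this
      linarith
    have hy := ycg_v (y := Y) (by linarith [q3.1]) q3.2
    rw [← ht] at hy
    have h4 : t ≤ 1 / 25 := by
      rw [ht, c3n]
      exact Real.sqrt_le_iff.2 ⟨by norm_num, by nlinarith [q3.2]⟩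
    show eng.v x * tK 4 3 Y x = _
    rw [← (atB43 (onc q3 (by decide))).K, ← ht]
    show eng.v x * kfc43.v t x = _
    rw [kfc43_g hy h2 q3.2 h4]
    rw [ecv4q3 q3.1, cv4r_v, ← ht]
    simp only [swg_v, dga3c, dgsl3, pFma, pFmb, pFc0, nFsc4, nFB4, nFX4, nFD4, pNc0, nNB4, us3, ndN4, pN, qN]
    push_cast
    ring
  · have h2 : (4095 / 2048) < Y := by
      have := (abs_lt.1 i3).1
      rw [S_one] at this
      norm_num at this
      linarith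
    have hy := ycg_v (y := Y) (by linarith [q3.1]) q3.2
    rw [← ht] at hy
    have h4 : t ≤ 1 / 25 := by
      rw [ht, c3n]
      exact Real.sqrt_le_iff.2 ⟨by norm_num, by nlinarith [q3.2]⟩
    rw [← (atB43 (onc q3 (by decide))).L, ← ht]
    show lc43.v t x = _
    rw [lc43_g hy h2 q3.2 h4]
    rw [ecv4q3 q3.1, cv4r_v, ← ht]
    simp only [swg_v, dga3c, dgsl3, pFma, pFmb, pFc0, nFsc4, nFB4, nFX4, nFD4, pNc0, nNB4, us3, ndN4, pN, qN]
    push_cast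
    ring
theorem sdN4 {x : ℝ} : SdOk PP (scK (eng.v x) tK) tL pN (ndUR ndN4) 4 524288 x := nrN4.sd
theorem nc4 {x : ℝ} : NuRC PP tU qN ndN4 4 524288 x := by
  intro Y t q3 i3 ht hw
  have h2 : (4095 / 2048) < Y := by
    have := (abs_lt.1 i3).1
    rw [S_one] at this
    norm_num at this
    linarith
  have hy := ycg_v (y := Y) (by linarith [q3.1]) q3.2
  rw [← ht] at hy
  have h4 : t ≤ 1 / 25 := by
    rw [ht, c3n]
    exact Real.sqrt_le_iff.2 ⟨by norm_num, by nlinarith [q3.2]⟩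
  rw [show tU 4 3 Y x = kcc43.v (c3n Y) x from tbF_on (fn := nc) (crd := crd) (x := x) (onc q3 (by decide)), ← ht, kcc43_g hy h2 q3.2 h4]
  rw [ecv4q3 q3.1, cv4r_v, ← ht]
  simp only [swg_v, dga3c, dgsl3, pFma, pFmb, pFc0, nFsc4, nFB4, nFX4, nFD4, pNc0, nNB4, us3, ndN4, pN, qN]
  push_cast
  ring
theorem suN4 {x : ℝ} : SuOk tU qN (ndUR ndN4) (suR ndN4) 4 524288 x := nc4.su (nrN4 (x := x)).hj (nrN4 (x := x)).sc
theorem nrN5 {x : ℝ} : NuR PP (scK (eng.v x) tK) tL pN ndN5 5 524288 x := by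
  have hr : PP.ρ 5 = 17 / 10 := rfl
  refine ⟨by rw [hr]; norm_num, fun u => ?_, fun {Y t} q3 i3 ht hw => ?_, fun {Y t} q3 i3 ht hw => ?_⟩
  · rw [hr]
    simp only [pFma, pFmb, pFc0, nFsc5, nFB5, nFX5, nFD5, pNc0, nNB5, us3, ndN5, pN, qN]
    push_cast
    ring
  · have h2 : (4095 / 2048) < Y := by
      have := (abs_lt.1 i3).1
      rw [S_one] at this
      norm_num at this
      linarith
    have hy := ycg_v (y := Y) (by linarith [q3.1]) q3.2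
    rw [← ht] at hy
    have h4 : t ≤ 1 / 25 := by
      rw [ht, c3n]
      exact Real.sqrt_le_iff.2 ⟨by norm_num, by nlinarith [q3.2]⟩
    show eng.v x * tK 5 3 Y x = _
    rw [← (atB53 (onc q3 (by decide))).K, ← ht]
    show eng.v x * kfc53.v t x = _
    rw [kfc53_g hy h2 q3.2 h4]
    rw [ecv5q3 q3.1, cv5r_v, ← ht]
    simp only [swg_v, dga3c, dgsl3, pFma, pFmb, pFc0, nFsc5, nFB5, nFX5, nFD5, pNc0, nNB5, us3, ndN5, pN, qN]
    push_cast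
    ring
  · have h2 : (4095 / 2048) < Y := by
      have := (abs_lt.1 i3).1
      rw [S_one] at this
      norm_num at this
      linarith
    have hy := ycg_v (y := Y) (by linarith [q3.1]) q3.2
    rw [← ht] at hy
    have h4 : t ≤ 1 / 25 := by
      rw [ht, c3n]
      exact Real.sqrt_le_iff.2 ⟨by norm_num, by nlinarith [q3.2]⟩
    rw [← (atB53 (onc q3 (by decide))).L, ← ht]
    show lc53.v t x = _
    rw [lc53_g hy h2 q3.2 h4]
    rw [ecv5q3 q3.1, cv5r_v, ← ht]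
    simp only [swg_v, dga3c, dgsl3, pFma, pFmb, pFc0, nFsc5, nFB5, nFX5, nFD5, pNc0, nNB5, us3, ndN5, pN, qN]
    push_cast
    ring
theorem sdN5 {x : ℝ} : SdOk PP (scK (eng.v x) tK) tL pN (ndUR ndN5) 5 524288 x := nrN5.sd
theorem nc5 {x : ℝ} : NuRC PP tU qN ndN5 5 524288 x := by
  intro Y t q3 i3 ht hw
  have h2 : (4095 / 2048) < Y := by
    have := (abs_lt.1 i3).1
    rw [S_one] at this
    norm_num at this
    linarith
  have hy := ycg_v (y := Y) (by linarith [q3.1]) q3.2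
  rw [← ht] at hy
  have h4 : t ≤ 1 / 25 := by
    rw [ht, c3n]
    exact Real.sqrt_le_iff.2 ⟨by norm_num, by nlinarith [q3.2]⟩
  rw [show tU 5 3 Y x = kcc53.v (c3n Y) x from tbF_on (fn := nc) (crd := crd) (x := x) (onc q3 (by decide)), ← ht, kcc53_g hy h2 q3.2 h4]
  rw [ecv5q3 q3.1, cv5r_v, ← ht]
  simp only [swg_v, dga3c, dgsl3, pFma, pFmb, pFc0, nFsc5, nFB5, nFX5, nFD5, pNc0, nNB5, us3, ndN5, pN, qN]
  push_cast
  ring
theorem suN5 {x : ℝ} : SuOk tU qN (ndUR ndN5) (suR ndN5) 5 524288 x := nc5.su (nrN5 (x := x)).hj (nrN5 (x := x)).sc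
theorem cvokN1 {x : ℝ} : CvOk PP (scK (eng.v x) tK) tL pN cvN1 1 14155776 x := by
  intro v v0 v1
  have v2 : v < (27 / 2048) := by
    rw [S_one] at v1
    norm_num at v1
    linarith
  have hxi := dgxi_v v0 (by linarith)
  have hws := dgws_v v0 (by linarith)
  have q2 : InQ 2 (1 + v) := ⟨by linarith, by linarith⟩
  have o : OnC (1 : Fin 7) 2 (1 + v) := onc q2 (by decide)
  have ex : crv PP 1 2 (1 + v) = 1 / 2 - v * cvN1.xs.v v := by
    rw [ecv1q2, cv1p_v, hxi, hws]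
    simp only [pFma, pFmb, pFmu, pFnx, pFc0, pFkc, pFjc, pFca, pFcb, pFcc, pFsv, pFx11, pFx01, pFK11, pFK01, pFL11, pFL01, kFc0, kFc0g, kFc1, kFc1g, kFa0, kFa0g, kFa1, kFa1g, kFb0, kFb0g, kFb1_2, kFb1, kFb1g_2, kFb1g, kFd0, kFd0g, kFd1_2, kFd1, kFd1g_2, kFd1g, kFe0, kFe0g, kFe1_2, kFe1, kFe1g_2, kFe1g, cFxs1, cFsB1, cFBs1, cFsX1, cFsD1, cFsDD1, cFxs2, cFsB2, cFBs2, cFsX2, cFsD2, cFsDD2, nFsc2, nFB2_3, nFB2, nFX2_3, nFX2, nFD2_3, nFD2, nFsc3, nFB3, nFX3, nFD3, nFsc4, nFB4, nFX4, nFD4, nFsc5, nFB5, nFX5, nFD5, l12F, laF, lbF, l1F, l2F, cvF1, cvF2, ndF2, ndF3, ndF4, ndF5, pF, pNc0, pNkc, pNjc, pNcc, pNK11, pNK01, kNc0, kNc0g, kNc1, kNc1g, cNBs1, cNBs2, nNB2_4, nNB2, nNB3, nNB4, nNB5, umo, us1, us2, us3, uC11, uC01, kNu1_0, kNu1_0g, kNu1_1, kNu1_1g, kNu1_2, kNu1_2g, kNu1_3, kNu1_3g, l12N, cvN1, cvN2, ndN2, ndN3, ndN4, ndN5, pN, ul1, ul2, ul3, qN]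
    push_cast
    ring
  refine ⟨ex, ?_, ?_⟩
  · show eng.v x * tK 1 2 (1 + v) x = _
    rw [← (atB12 o).K]
    show eng.v x * kf1q2.v (1 + v) x = _
    have ef : kf1q2.v (1 + v) x = cv1p.v (1 + v) * bf1q2.v (1 + v) x := by
      simp only [kf1q2, bf1q2_3, bf1q2]
    rw [ef, bf1q2_g v0 v2, ← ecv1q2, ex]
    simp only [pFmu, pFc0, cFBs1, pNc0, cNBs1, cvN1, pN]
    push_cast
    ring
  · rw [← (atB12 o).L]
    show l1q2.v (1 + v) x = _
    have ef : l1q2.v (1 + v) x = cv1p.v (1 + v) * bx1q2.v (1 + v) x := by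
      simp only [l1q2, bx1q2_3, bx1q2]
    rw [ef, bx1q2_g v0 v2, ← ecv1q2, ex, zero_add]
    rfl
theorem cvu1 {x : ℝ} : CvU tU cvN1 cFsDD1 1 14155776 x := by
  intro v v0 v1
  have v2 : v < (27 / 2048) := by
    rw [S_one] at v1
    norm_num at v1
    linarith
  have q2 : InQ 2 (1 + v) := ⟨by linarith, by linarith⟩
  have o : OnC (1 : Fin 7) 2 (1 + v) := onc q2 (by decide)
  have ex := (cvokN1 (x := x) v0 v1).1
  rw [show tU 1 2 (1 + v) x = kc1q2.v (1 + v) x from tbF_on (fn := nc) (crd := crd) (x := x) o]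
  have ef : kc1q2.v (1 + v) x = cv1p.v (1 + v) * bd1q2.v (1 + v) x := by
    simp only [kc1q2, bd1q2_3, bd1q2]
  rw [ef, bd1q2_g v0 v2, ← ecv1q2, ex, zero_add]
  rfl
theorem cvokN2 {x : ℝ} : CvOk PP (scK (eng.v x) tK) tL pN cvN2 2 14155776 x := by
  intro v v0 v1
  have v2 : v < (27 / 2048) := by
    rw [S_one] at v1
    norm_num at v1
    linarith
  have hxi := dgxi_v v0 (by linarith)
  have hws := dgws_v v0 (by linarith)
  have q2 : InQ 2 (1 + v) := ⟨by linarith, by linarith⟩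
  have o : OnC (2 : Fin 7) 2 (1 + v) := onc q2 (by decide)
  have ex : crv PP 2 2 (1 + v) = 1 / 2 - v * cvN2.xs.v v := by
    rw [ecv2q2, cv2p_v, hxi, hws]
    simp only [pFma, pFmb, pFmu, pFnx, pFc0, pFkc, pFjc, pFca, pFcb, pFcc, pFsv, pFx11, pFx01, pFK11, pFK01, pFL11, pFL01, kFc0, kFc0g, kFc1, kFc1g, kFa0, kFa0g, kFa1, kFa1g, kFb0, kFb0g, kFb1_2, kFb1, kFb1g_2, kFb1g, kFd0, kFd0g, kFd1_2, kFd1, kFd1g_2, kFd1g, kFe0, kFe0g, kFe1_2, kFe1, kFe1g_2, kFe1g, cFxs1, cFsB1, cFBs1, cFsX1, cFsD1, cFsDD1, cFxs2, cFsB2, cFBs2, cFsX2, cFsD2, cFsDD2, nFsc2, nFB2_3, nFB2, nFX2_3, nFX2, nFD2_3, nFD2, nFsc3, nFB3, nFX3, nFD3, nFsc4, nFB4, nFX4, nFD4, nFsc5, nFB5, nFX5, nFD5, l12F, laF, lbF, l1F, l2F, cvF1, cvF2, ndF2, ndF3, ndF4, ndF5, pF, pNc0, pNkc, pNjc, pNcc, pNK11, pNK01, kNc0, kNc0g, kNc1, kNc1g, cNBs1, cNBs2, nNB2_4, nNB2, nNB3, nNB4, nNB5, umo, us1, us2, us3, uC11, uC01, kNu1_0,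 kNu1_0g, kNu1_1, kNu1_1g, kNu1_2, kNu1_2g, kNu1_3, kNu1_3g, l12N, cvN1, cvN2, ndN2, ndN3, ndN4, ndN5, pN, ul1, ul2, ul3, qN]
    push_cast
    ring
  refine ⟨ex, ?_, ?_⟩
  · show eng.v x * tK 2 2 (1 + v) x = _
    rw [← (atB22 o).K]
    show eng.v x * kf2q2.v (1 + v) x = _
    have ef : kf2q2.v (1 + v) x = cv2p.v (1 + v) * bf2q2.v (1 + v) x := by
      simp only [kf2q2, bf2q2_3, bf2q2]
    rw [ef, bf2q2_g v0 v2, ← ecv2q2, ex]
    simp only [pFmu, pFc0, cFBs2, pNc0, cNBs2, cvN2, pN]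
    push_cast
    ring
  · rw [← (atB22 o).L]
    show l2q2.v (1 + v) x = _
    have ef : l2q2.v (1 + v) x = cv2p.v (1 + v) * bx2q2.v (1 + v) x := by
      simp only [l2q2, bx2q2_3, bx2q2]
    rw [ef, bx2q2_g v0 v2, ← ecv2q2, ex, zero_add]
    rfl
theorem cvu2 {x : ℝ} : CvU tU cvN2 cFsDD2 2 14155776 x := by
  intro v v0 v1
  have v2 : v < (27 / 2048) := by
    rw [S_one] at v1
    norm_num at v1
    linarith
  have q2 : InQ 2 (1 + v) := ⟨by linarith, by linarith⟩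
  have o : OnC (2 : Fin 7) 2 (1 + v) := onc q2 (by decide)
  have ex := (cvokN2 (x := x) v0 v1).1
  rw [show tU 2 2 (1 + v) x = kc2q2.v (1 + v) x from tbF_on (fn := nc) (crd := crd) (x := x) o]
  have ef : kc2q2.v (1 + v) x = cv2p.v (1 + v) * bd2q2.v (1 + v) x := by
    simp only [kc2q2, bd2q2_3, bd2q2]
  rw [ef, bd2q2_g v0 v2, ← ecv2q2, ex, zero_add]
  rfl
theorem p1okN {x : ℝ} : P1Ok PP (scK (eng.v x) tK) tL pN 1 14155776 x := by
  refine ⟨fun hq _ => ecv1q1, fun hq _ => (congrFun c1g_v _).symm, fun hq _ => congrArg (fun z => eng.v x * z) ((atB11 (onc hq (by decide))).K).symm,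
    fun hq _ => congrArg (fun z => eng.v x * z) ((atB01 ⟨hq, fun _ => on_h (by linarith [hq.2]) (by linarith [hq.1])⟩).K).symm,
    fun hq _ => ((atB11 (onc hq (by decide))).L).symm,
    fun hq _ => ((atB01 ⟨hq, fun _ => on_h (by linarith [hq.2]) (by linarith [hq.1])⟩).L).symm⟩
theorem p1u {x : ℝ} : P1U tU qN 1 14155776 x :=
  ⟨fun hq _ => tbF_on (fn := nc) (crd := crd) (x := x) (onc hq (by decide)),
    fun {y} hq _ => tbF_on (fn := nc) (crd := crd) (x := x)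
      (⟨hq, fun _ => on_h (by linarith [hq.2]) (by linarith [hq.1])⟩ : OnC (0 : Fin 7) 1 y)⟩
theorem svN (u : ℝ) : pN.sv.v u = u - ((14155776 : ℕ) : ℝ) / S := by
  rw [S_one]
  simp only [pFma, pFmb, pFmu, pFnx, pFc0, pFkc, pFjc, pFca, pFcb, pFcc, pFsv, pFx11, pFx01, pFK11, pFK01, pFL11, pFL01, kFc0, kFc0g, kFc1, kFc1g, kFa0, kFa0g, kFa1, kFa1g, kFb0, kFb0g, kFb1_2, kFb1, kFb1g_2, kFb1g, kFd0, kFd0g, kFd1_2, kFd1, kFd1g_2, kFd1g, kFe0, kFe0g, kFe1_2, kFe1, kFe1g_2, kFe1g, cFxs1, cFsB1, cFBs1, cFsX1, cFsD1, cFsDD1, cFxs2, cFsB2, cFBs2, cFsX2, cFsD2, cFsDD2, nFsc2, nFB2_3, nFB2, nFX2_3, nFX2, nFD2_3, nFD2, nFsc3, nFB3, nFX3, nFD3, nFsc4, nFB4, nFX4, nFD4, nFsc5, nFB5, nFX5, nFD5, l12F, laF, lbF, l1F, l2F, cvF1, cvF2, ndF2, ndF3, ndF4, ndF5, pF, pNc0, pNkc, pNjc, pNcc, pNK11, pNK01, kNc0, kNc0g, kNc1, kNc1g, cNBs1, cNBs2, nNB2_4, nNB2, nNB3, nNB4, nNB5, umo, us1, us2, us3, uC11,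 uC01, kNu1_0, kNu1_0g, kNu1_1, kNu1_1g, kNu1_2, kNu1_2g, kNu1_3, kNu1_3g, l12N, cvN1, cvN2, ndN2, ndN3, ndN4, ndN5, pN, ul1, ul2, ul3, qN]
  push_cast
  ring
theorem tgpF {x : ℝ} : TgP pF x :=
  ⟨by simp only [pF, pFc0]; norm_num, rfl, rfl, rfl, rfl, rfl, rfl, fun _ => rfl, fun _ => rfl⟩
theorem klF {x : ℝ} : Kl pF x := by
  constructor
  · intro h
    simp only [pFma, pFmb, pFmu, pFnx, pFc0, pFkc, pFjc, pFca, pFcb, pFcc, pFsv, pFx11, pFx01, pFK11, pFK01, pFL11, pFL01, kFc0, kFc0g, kFc1, kFc1g, kFa0, kFa0g, kFa1, kFa1g, kFb0, kFb0g, kFb1_2, kFb1, kFb1g_2, kFb1g, kFd0, kFd0g, kFd1_2, kFd1, kFd1g_2, kFd1g, kFe0, kFe0g, kFe1_2, kFe1, kFe1g_2, kFe1g, cFxs1, cFsB1, cFBs1, cFsX1, cFsD1, cFsDD1, cFxs2, cFsB2, cFBs2, cFsX2, cFsD2, cFsDD2, nFsc2, nFB2_3, nFB2, nFX2_3, nFX2, nFD2_3, nFD2, nFsc3, nFB3, nFX3, nFD3, nFsc4, nFB4, nFX4, nFD4, nFsc5, nFB5, nFX5, nFD5, l12F, laF, lbF, l1F,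 l2F, cvF1, cvF2, ndF2, ndF3, ndF4, ndF5, pF, pNc0, pNkc, pNjc, pNcc, pNK11, pNK01, kNc0, kNc0g, kNc1, kNc1g, cNBs1, cNBs2, nNB2_4, nNB2, nNB3, nNB4, nNB5, umo, us1, us2, us3, uC11, uC01, kNu1_0, kNu1_0g, kNu1_1, kNu1_1g, kNu1_2, kNu1_2g, kNu1_3, kNu1_3g, l12N, cvN1, cvN2, ndN2, ndN3, ndN4, ndN5, pN, ul1, ul2, ul3, qN, pf_cons, pf_nil]
    push_cast
    ring
  · intro h
    simp only [pFma, pFmb, pFmu, pFnx, pFc0, pFkc, pFjc, pFca, pFcb, pFcc, pFsv, pFx11, pFx01, pFK11, pFK01, pFL11, pFL01, kFc0, kFc0g, kFc1, kFc1g, kFa0, kFa0g, kFa1, kFa1g, kFb0, kFb0g, kFb1_2, kFb1, kFb1g_2, kFb1g, kFd0, kFd0g, kFd1_2, kFd1, kFd1g_2, kFd1g, kFe0, kFe0g, kFe1_2, kFe1, kFe1g_2, kFe1g, cFxs1, cFsB1, cFBs1, cFsX1, cFsD1, cFsDD1, cFxs2, cFsB2, cFBs2, cFsX2, cFsD2, cFsDD2, nFsc2, nFB2_3, nFB2, nFX2_3, nFX2, nFD2_3, nFD2, nFsc3, nFB3, nFX3, nFD3, nFsc4, nFB4, nFX4, nFD4, nFsc5, nFB5, nFX5, nFD5,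 l12F, laF, lbF, l1F, l2F, cvF1, cvF2, ndF2, ndF3, ndF4, ndF5, pF, pNc0, pNkc, pNjc, pNcc, pNK11, pNK01, kNc0, kNc0g, kNc1, kNc1g, cNBs1, cNBs2, nNB2_4, nNB2, nNB3, nNB4, nNB5, umo, us1, us2, us3, uC11, uC01, kNu1_0, kNu1_0g, kNu1_1, kNu1_1g, kNu1_2, kNu1_2g, kNu1_3, kNu1_3g, l12N, cvN1, cvN2, ndN2, ndN3, ndN4, ndN5, pN, ul1, ul2, ul3, qN, pf_cons, pf_nil]
    push_cast
    ring
theorem bsF {x : ℝ} (hx : ((1045395039 : ℕ) : ℝ) / S ≤ x) (hx' : x ≤ (((1045395039 : ℕ) : ℝ) + (1503240 : ℕ)) / S) : Bs PP tK tL pcB true 3 pF 14155776 524288 x :=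
  ⟨sideB hx hx', fitF, tabF, (xr hx hx').1, (xr hx hx').2, hD, hD3⟩
theorem mo0 {x : ℝ} (h0x : 0 ≤ x) (h1x : x ≤ 1) : 0 ≤ mog.v x := by
  rw [mo_v]
  have h1 := mun_nn 3 x
  have h2 := (esg_rng h0x h1x).1
  positivity
theorem bsN {x : ℝ} (hx : ((1045395039 : ℕ) : ℝ) / S ≤ x) (hx' : x ≤ (((1045395039 : ℕ) : ℝ) + (1503240 : ℕ)) / S) : BsW PP tK tL tU pcB 3 pN qN (eng.v x) (mog.v x) 14155776 524288 x :=
  ⟨sideB hx hx', pinU hx hx', fitN, tabN, tabU, en_pos (xr hx hx').1.le, rfl, mo0 (xr hx hx').1.le (xr hx hx').2.le, (xr hx hx').1, (xr hx hx').2, hD, hD3⟩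

end Pool.Agent.Strip051.G.I9736_9750.Tab.DG
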