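import Pool.Agent.Strip051.G.I9736_9750.Fs

/-! # Certificates at the floor (generated) -/

set_option linter.all false
set_option maxRecDepth 100000

namespace Pool.Agent.Strip051.G.I9736_9750.Tab

open Pool.Agent.Strip051.PB

theorem cA_m00 : CertNd 0 536870912 1045395039 1503240 (ftMono true 0 mZ) [] ndB0q0 cZ :=
  certNd (T := (ftMono true 0 mZ)) (L := []) (P1 := 0) (W1 := 536870912) (P3 := 1045395039) (W3 := 1503240) (n := ndB0q0) (c := cZ)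
    ⟨T.a (T.a (T.a (T.l 0) (T.l 0)) (T.l 0)) (T.l 0),
      by decide +kernel⟩
theorem cA_m01 : CertNd 536870912 536870912 1045395039 1503240 (ftMono true 1 mZ) [] ndB0q1 cZ :=
  certNd (T := (ftMono true 1 mZ)) (L := []) (P1 := 536870912) (W1 := 536870912) (P3 := 1045395039) (W3 := 1503240) (n := ndB0q1) (c := cZ)
    ⟨T.a (T.l 0) (T.a (T.l 0) (T.a (T.l 0) (T.a (T.l 0) (T.l 0)))),
      by decide +kernel⟩
theorem cA_g00 : CertGe 0 13958643 1045395039 1503240 true [] (((2 : ℕ) : ℝ) / ((1 : ℕ) : ℝ)) 0 ((0 : ℕ) : ℝ)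
    (((2 : ℕ) : ℝ) / 2) mZ ndB0q0 cZ :=
  certGe (z := true) (L := []) (P1 := 0) (W1 := 13958643) (P3 := 1045395039) (W3 := 1503240) (oa := 2) (ob := 1)
    (q := 0) (bb := 0) (hB := 2) (M := mZ) (n := ndB0q0) (c := cZ) (sX := c1g_sf) (sK := kf0q0_sf)
    (sL := l0q0_sf) ⟨T.l 0,
      by decide +kernel⟩
theorem cA_w00a : CertNd 13958643 522912269 1045395039 1503240 (ftWall true 0 mZ 1 1) [] ndB0q0 cZ :=
  certNd (T := (ftWall true 0 mZ 1 1)) (L := []) (P1 := 13958643) (W1 := 522912269) (P3 := 1045395039) (W3 := 1503240) (n := ndB0q0) (c := cZ)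
    ⟨T.a (T.a (T.a (T.a (T.l 0) (T.l 0)) (T.l 0)) (T.l 0)) (T.l 0),
      by decide +kernel⟩
theorem cA_w01a : CertNd 536870912 504658657 1045395039 1503240 (ftWall true 1 mZ 1 1) [] ndB0q1 cZ :=
  certNd (T := (ftWall true 1 mZ 1 1)) (L := []) (P1 := 536870912) (W1 := 504658657) (P3 := 1045395039) (W3 := 1503240) (n := ndB0q1) (c := cZ)
    ⟨T.a (T.a (T.l 0) (T.l 0)) (T.a (T.a (T.l 0) (T.l 0)) (T.a (T.l 0) (T.a (T.l 0) (T.a (T.l 0) (T.a (T.l 0) (T.a (T.l 0) (T.l 0))))))),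
      by decide +kernel⟩
theorem cA_w01b : CertNd 1054414471 13958644 1045395039 1503240 (ftWall true 1 mZ 1 1) [] ndB0q1 cZ :=
  certNd (T := (ftWall true 1 mZ 1 1)) (L := []) (P1 := 1054414471) (W1 := 13958644) (P3 := 1045395039) (W3 := 1503240) (n := ndB0q1) (c := cZ)
    ⟨T.a (T.a (T.a (T.c (T.a (T.c (T.a (T.l 0) (T.l 0)) (T.a (T.l 0) (T.l 0))) (T.c (T.l 0) (T.a (T.l 0) (T.l 0)))) (T.a (T.c (T.a (T.l 0) (T.l 0)) (T.a (T.l 0) (T.l 0))) (T.c (T.a (T.l 0) (T.l 0)) (T.a (T.l 0) (T.l 0))))) (T.c (T.a (T.c (T.l 0) (T.l 0)) (T.c (T.l 0) (T.l 0))) (T.a (T.c (T.a (T.l 0) (T.l 0)) (T.a (T.l 0) (T.l 0))) (T.c (T.l 0) (T.a (T.l 0) (T.l 0)))))) (T.a (T.c (T.a (T.c (T.l 0) (T.l 0)) (T.l 0)) (T.a (T.c (T.l 0) (T.l 0)) (T.l 0))) (T.c (T.l 0) (T.l 0)))) (T.a (T.a (T.l 0) (T.l 0)) (T.l 0)),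
      by decide +kernel⟩
theorem cA_g01 : CertGe 1068373115 5368709 1045395039 1503240 true [] (((2 : ℕ) : ℝ) / ((1 : ℕ) : ℝ)) 1 ((1 : ℕ) : ℝ)
    (((1 : ℕ) : ℝ) / 2) mZ ndB0q1 cZ :=
  certGe (z := true) (L := []) (P1 := 1068373115) (W1 := 5368709) (P3 := 1045395039) (W3 := 1503240) (oa := 2) (ob := 1)
    (q := 1) (bb := 1) (hB := 1) (M := mZ) (n := ndB0q1) (c := cZ) (sX := c1g_sf) (sK := kf0q1_sf)
    (sL := l0q1_sf) ⟨T.l 0,
      by decide +kernel⟩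
theorem cA_tl : CertTg 1041529569 12884902 1045395039 1503240 (ftTf true dlg) [⟨6, 0⟩] :=
  certTg (T := (ftTf true dlg)) (L := [⟨6, 0⟩]) (P1 := 1041529569) (W1 := 12884902) (P3 := 1045395039) (W3 := 1503240)
    ⟨T.l 0,
      by decide +kernel⟩
theorem cA_th : CertTg 1041529569 12884902 1045395039 1503240 (ftTf false dlg) [⟨5, 0⟩] :=
  certTg (T := (ftTf false dlg)) (L := [⟨5, 0⟩]) (P1 := 1041529569) (W1 := 12884902) (P3 := 1045395039) (W3 := 1503240)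
    ⟨T.l 0,
      by decide +kernel⟩
theorem cA_m10 : CertNd 0 7439102 1045395039 1503240 (ftMono true 0 mZ) [] ndB1q0 cZ :=
  certNd (T := (ftMono true 0 mZ)) (L := []) (P1 := 0) (W1 := 7439102) (P3 := 1045395039) (W3 := 1503240) (n := ndB1q0) (c := cZ)
    ⟨T.l 0,
      by decide +kernel⟩
theorem cA_g10 : CertGe 0 4294967 1045395039 1503240 true [] (((2 : ℕ) : ℝ) / ((1 : ℕ) : ℝ)) 0 ((0 : ℕ) : ℝ)
    (((2 : ℕ) : ℝ) / 2) mZ ndB1q0 cZ :=
  certGe (z := true) (L := []) (P1 := 0) (W1 := 4294967) (P3 := 1045395039) (W3 := 1503240) (oa := 2) (ob := 1)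
    (q := 0) (bb := 0) (hB := 2) (M := mZ) (n := ndB1q0) (c := cZ) (sX := cv1m_sf) (sK := kf1q0_sf)
    (sL := l1q0_sf) ⟨T.l 0,
      by decide +kernel⟩
theorem cA_w10 : CertNd 4294967 532575945 1045395039 1503240 (ftWall true 0 mZ 1 1) [] ndB1q0 cZ :=
  certNd (T := (ftWall true 0 mZ 1 1)) (L := []) (P1 := 4294967) (W1 := 532575945) (P3 := 1045395039) (W3 := 1503240) (n := ndB1q0) (c := cZ)
    ⟨T.a (T.a (T.a (T.l 0) (T.l 0)) (T.l 0)) (T.l 0),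
      by decide +kernel⟩
theorem cA_w11 : CertNd 536870912 536870912 1045395039 1503240 (ftWall true 1 mZ 1 1) [] ndB1q1 cZ :=
  certNd (T := (ftWall true 1 mZ 1 1)) (L := []) (P1 := 536870912) (W1 := 536870912) (P3 := 1045395039) (W3 := 1503240) (n := ndB1q1) (c := cZ)
    ⟨T.a (T.l 0) (T.a (T.l 0) (T.a (T.l 0) (T.a (T.l 0) (T.a (T.l 0) (T.l 0))))),
      by decide +kernel⟩
theorem cA_m20 : CertNd 0 7439102 1045395039 1503240 (ftMono true 0 mZ) [] ndB2q0 cZ :=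
  certNd (T := (ftMono true 0 mZ)) (L := []) (P1 := 0) (W1 := 7439102) (P3 := 1045395039) (W3 := 1503240) (n := ndB2q0) (c := cZ)
    ⟨T.l 0,
      by decide +kernel⟩
theorem cA_g20 : CertGe 0 4294967 1045395039 1503240 true [] (((2 : ℕ) : ℝ) / ((1 : ℕ) : ℝ)) 0 ((0 : ℕ) : ℝ)
    (((2 : ℕ) : ℝ) / 2) mZ ndB2q0 cZ :=
  certGe (z := true) (L := []) (P1 := 0) (W1 := 4294967) (P3 := 1045395039) (W3 := 1503240) (oa := 2) (ob := 1)
    (q := 0) (bb := 0) (hB := 2) (M := mZ) (n := ndB2q0) (c := cZ) (sX := cv2m_sf) (sK := kf2q0_sf)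
    (sL := l2q0_sf) ⟨T.l 0,
      by decide +kernel⟩
theorem cA_w20 : CertNd 4294967 532575945 1045395039 1503240 (ftWall true 0 mZ 1 1) [] ndB2q0 cZ :=
  certNd (T := (ftWall true 0 mZ 1 1)) (L := []) (P1 := 4294967) (W1 := 532575945) (P3 := 1045395039) (W3 := 1503240) (n := ndB2q0) (c := cZ)
    ⟨T.a (T.a (T.a (T.a (T.l 0) (T.l 0)) (T.l 0)) (T.l 0)) (T.l 0),
      by decide +kernel⟩
theorem cA_w21 : CertNd 536870912 536870912 1045395039 1503240 (ftWall true 1 mZ 1 1) [] ndB2q1 cZ :=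
  certNd (T := (ftWall true 1 mZ 1 1)) (L := []) (P1 := 536870912) (W1 := 536870912) (P3 := 1045395039) (W3 := 1503240) (n := ndB2q1) (c := cZ)
    ⟨T.a (T.l 0) (T.a (T.l 0) (T.a (T.l 0) (T.a (T.l 0) (T.a (T.l 0) (T.l 0))))),
      by decide +kernel⟩
theorem cA_f30 : CertNd 0 7439102 1045395039 1503240 (ftFlatG true 0 mZ 1 1 11) [] ndB3q0 cZ :=
  certNd (T := (ftFlatG true 0 mZ 1 1 11)) (L := []) (P1 := 0) (W1 := 7439102) (P3 := 1045395039) (W3 := 1503240) (n := ndB3q0) (c := cZ)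
    ⟨T.l 0,
      by decide +kernel⟩
theorem cA_l30 : CertNd 0 7439102 1045395039 1503240 (ftWall true 0 mZ 1 1) [⟨3, 1099511628⟩] ndB3q0 cZ :=
  certNd (T := (ftWall true 0 mZ 1 1)) (L := [⟨3, 1099511628⟩]) (P1 := 0) (W1 := 7439102) (P3 := 1045395039) (W3 := 1503240) (n := ndB3q0) (c := cZ)
    ⟨T.l 1,
      by decide +kernel⟩
theorem cA_w30 : CertNd 7439101 529431811 1045395039 1503240 (ftWall true 0 mZ 1 1) [] ndB3q0 cZ :=
  certNd (T := (ftWall true 0 mZ 1 1)) (L := []) (P1 := 7439101) (W1 := 529431811) (P3 := 1045395039) (W3 := 1503240) (n := ndB3q0) (c := cZ)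
    ⟨T.a (T.a (T.a (T.a (T.a (T.a (T.l 0) (T.l 0)) (T.l 0)) (T.l 0)) (T.l 0)) (T.l 0)) (T.l 0),
      by decide +kernel⟩
theorem cA_w31 : CertNd 536870912 536870912 1045395039 1503240 (ftWall true 1 mZ 1 1) [] ndB3q1 cZ :=
  certNd (T := (ftWall true 1 mZ 1 1)) (L := []) (P1 := 536870912) (W1 := 536870912) (P3 := 1045395039) (W3 := 1503240) (n := ndB3q1) (c := cZ)
    ⟨T.a (T.l 0) (T.a (T.l 0) (T.a (T.l 0) (T.a (T.l 0) (T.a (T.l 0) (T.l 0))))),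
      by decide +kernel⟩
theorem cA_w32 : CertNd 1073741824 166215235 1045395039 1503240 (ftWall true 2 mZ 1 1) [⟨4, 0⟩] ndB3q2 cZ :=
  certNd (T := (ftWall true 2 mZ 1 1)) (L := [⟨4, 0⟩]) (P1 := 1073741824) (W1 := 166215235) (P3 := 1045395039) (W3 := 1503240) (n := ndB3q2) (c := cZ)
    ⟨T.a (T.l 0) (T.l 0),
      by decide +kernel⟩
theorem cA_f40 : CertNd 0 7439102 1045395039 1503240 (ftFlatG true 0 mZ 1 1 11) [] ndB4q0 cZ :=
  certNd (T := (ftFlatG true 0 mZ 1 1 11)) (L := []) (P1 := 0) (W1 := 7439102) (P3 := 1045395039) (W3 := 1503240) (n := ndB4q0) (c := cZ)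
    ⟨T.l 0,
      by decide +kernel⟩
theorem cA_l40 : CertNd 0 7439102 1045395039 1503240 (ftWall true 0 mZ 1 1) [⟨3, 1099511628⟩] ndB4q0 cZ :=
  certNd (T := (ftWall true 0 mZ 1 1)) (L := [⟨3, 1099511628⟩]) (P1 := 0) (W1 := 7439102) (P3 := 1045395039) (W3 := 1503240) (n := ndB4q0) (c := cZ)
    ⟨T.l 1,
      by decide +kernel⟩
theorem cA_w40 : CertNd 7439101 529431811 1045395039 1503240 (ftWall true 0 mZ 1 1) [] ndB4q0 cZ :=
  certNd (T := (ftWall true 0 mZ 1 1)) (L := []) (P1 := 7439101) (W1 := 529431811) (P3 := 1045395039) (W3 := 1503240) (n := ndB4q0) (c := cZ)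
    ⟨T.a (T.a (T.a (T.l 0) (T.l 0)) (T.l 0)) (T.l 0),
      by decide +kernel⟩
theorem cA_w41 : CertNd 536870912 536870912 1045395039 1503240 (ftWall true 1 mZ 1 1) [] ndB4q1 cZ :=
  certNd (T := (ftWall true 1 mZ 1 1)) (L := []) (P1 := 536870912) (W1 := 536870912) (P3 := 1045395039) (W3 := 1503240) (n := ndB4q1) (c := cZ)
    ⟨T.a (T.l 0) (T.a (T.l 0) (T.a (T.l 0) (T.a (T.l 0) (T.a (T.l 0) (T.l 0))))),
      by decide +kernel⟩
theorem cA_w42 : CertNd 1073741824 166215235 1045395039 1503240 (ftWall true 2 mZ 1 1) [⟨4, 0⟩] ndB4q2 cZ :=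
  certNd (T := (ftWall true 2 mZ 1 1)) (L := [⟨4, 0⟩]) (P1 := 1073741824) (W1 := 166215235) (P3 := 1045395039) (W3 := 1503240) (n := ndB4q2) (c := cZ)
    ⟨T.a (T.l 0) (T.l 0),
      by decide +kernel⟩
theorem cA_f50 : CertNd 0 7439102 1045395039 1503240 (ftFlatG true 0 mZ 1 1 11) [] ndB5q0 cZ :=
  certNd (T := (ftFlatG true 0 mZ 1 1 11)) (L := []) (P1 := 0) (W1 := 7439102) (P3 := 1045395039) (W3 := 1503240) (n := ndB5q0) (c := cZ)
    ⟨T.l 0,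
      by decide +kernel⟩
theorem cA_l50 : CertNd 0 7439102 1045395039 1503240 (ftWall true 0 mZ 1 1) [⟨3, 1099511628⟩] ndB5q0 cZ :=
  certNd (T := (ftWall true 0 mZ 1 1)) (L := [⟨3, 1099511628⟩]) (P1 := 0) (W1 := 7439102) (P3 := 1045395039) (W3 := 1503240) (n := ndB5q0) (c := cZ)
    ⟨T.l 0,
      by decide +kernel⟩
theorem cA_w50 : CertNd 7439101 529431811 1045395039 1503240 (ftWall true 0 mZ 1 1) [] ndB5q0 cZ :=
  certNd (T := (ftWall true 0 mZ 1 1)) (L := []) (P1 := 7439101) (W1 := 529431811) (P3 := 1045395039) (W3 := 1503240) (n := ndB5q0) (c := cZ)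
    ⟨T.a (T.a (T.l 0) (T.l 0)) (T.l 0),
      by decide +kernel⟩
theorem cA_w51 : CertNd 536870912 536870912 1045395039 1503240 (ftWall true 1 mZ 1 1) [] ndB5q1 cZ :=
  certNd (T := (ftWall true 1 mZ 1 1)) (L := []) (P1 := 536870912) (W1 := 536870912) (P3 := 1045395039) (W3 := 1503240) (n := ndB5q1) (c := cZ)
    ⟨T.a (T.l 0) (T.a (T.l 0) (T.a (T.l 0) (T.a (T.l 0) (T.a (T.l 0) (T.l 0))))),
      by decide +kernel⟩
theorem cA_w52 : CertNd 1073741824 166215235 1045395039 1503240 (ftWall true 2 mZ 1 1) [⟨4, 0⟩] ndB5q2 cZ :=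
  certNd (T := (ftWall true 2 mZ 1 1)) (L := [⟨4, 0⟩]) (P1 := 1073741824) (W1 := 166215235) (P3 := 1045395039) (W3 := 1503240) (n := ndB5q2) (c := cZ)
    ⟨T.a (T.l 0) (T.l 0),
      by decide +kernel⟩
theorem cA_f60 : CertNd 0 7439102 1045395039 1503240 (ftFlatG true 0 mZ 1 1 11) [] ndB6q0 cZ :=
  certNd (T := (ftFlatG true 0 mZ 1 1 11)) (L := []) (P1 := 0) (W1 := 7439102) (P3 := 1045395039) (W3 := 1503240) (n := ndB6q0) (c := cZ)
    ⟨T.l 0,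
      by decide +kernel⟩
theorem cA_l60 : CertNd 0 7439102 1045395039 1503240 (ftWall true 0 mZ 1 1) [⟨3, 1099511628⟩] ndB6q0 cZ :=
  certNd (T := (ftWall true 0 mZ 1 1)) (L := [⟨3, 1099511628⟩]) (P1 := 0) (W1 := 7439102) (P3 := 1045395039) (W3 := 1503240) (n := ndB6q0) (c := cZ)
    ⟨T.l 0,
      by decide +kernel⟩
theorem cA_w60 : CertNd 7439101 529431811 1045395039 1503240 (ftWall true 0 mZ 1 1) [] ndB6q0 cZ :=
  certNd (T := (ftWall true 0 mZ 1 1)) (L := []) (P1 := 7439101) (W1 := 529431811) (P3 := 1045395039) (W3 := 1503240) (n := ndB6q0) (c := cZ)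
    ⟨T.a (T.a (T.l 0) (T.l 0)) (T.l 0),
      by decide +kernel⟩
theorem cA_w61 : CertNd 536870912 536870912 1045395039 1503240 (ftWall true 1 mZ 1 1) [] ndB6q1 cZ :=
  certNd (T := (ftWall true 1 mZ 1 1)) (L := []) (P1 := 536870912) (W1 := 536870912) (P3 := 1045395039) (W3 := 1503240) (n := ndB6q1) (c := cZ)
    ⟨T.a (T.l 0) (T.a (T.l 0) (T.a (T.l 0) (T.a (T.l 0) (T.a (T.l 0) (T.l 0))))),
      by decide +kernel⟩
theorem cA_w62 : CertNd 1073741824 166215235 1045395039 1503240 (ftWall true 2 mZ 1 1) [⟨4, 0⟩] ndB6q2 cZ :=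
  certNd (T := (ftWall true 2 mZ 1 1)) (L := [⟨4, 0⟩]) (P1 := 1073741824) (W1 := 166215235) (P3 := 1045395039) (W3 := 1503240) (n := ndB6q2) (c := cZ)
    ⟨T.a (T.l 0) (T.l 0),
      by decide +kernel⟩
theorem cA_ll : CertSd 0 7439102 1045395039 1503240 (ftWall true 0 mZ 1 1) [] idF (cnF 1024 1000) pcB0 dZ :=
  certSd (T := (ftWall true 0 mZ 1 1)) (L := []) (P1 := 0) (W1 := 7439102) (P3 := 1045395039) (W3 := 1503240) (Y := idF) (X := (cnF 1024 1000))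
    (pc := pcB0) (c := dZ) ⟨T.a (T.a (T.a (T.a (T.l 0) (T.l 0)) (T.l 0)) (T.l 0)) (T.l 0),
      by decide +kernel⟩
theorem cA_st : CertSt 1073741824 17179869 1045395039 1503240 true [] (((2 : ℕ) : ℝ) / ((1 : ℕ) : ℝ)) mZ ndB2q2 cZ ndB3q2 cZ :=
  certSt (z := true) (L := []) (P1 := 1073741824) (W1 := 17179869) (P3 := 1045395039) (W3 := 1503240) (oa := 2) (ob := 1)
    (M := mZ) (n := ndB2q2) (c := cZ) (n' := ndB3q2) (c' := cZ) (sX := cv2p_sf) (sK := kf2q2_sf) (sL := l2q2_sf)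
    ⟨T.l 0,
      by decide +kernel⟩
theorem cA_sm : CertSd 510234159 26636753 1045395039 1503240 (ftMono true 2 mZ) [] ygF xsF pcB2 dZ :=
  certSd (T := (ftMono true 2 mZ)) (L := []) (P1 := 510234159) (W1 := 26636753) (P3 := 1045395039) (W3 := 1503240) (Y := ygF) (X := xsF)
    (pc := pcB2) (c := dZ) ⟨T.l 0,
      by decide +kernel⟩
theorem cA_sw : CertSd 0 510234163 1045395039 1503240 (ftWall true 2 mZ 1 1) [] ygF xsF pcB2 dZ :=
  certSd (T := (ftWall true 2 mZ 1 1)) (L := []) (P1 := 0) (W1 := 510234163) (P3 := 1045395039) (W3 := 1503240) (Y := ygF) (X := xsF)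
    (pc := pcB2) (c := dZ) ⟨T.a (T.l 0) (T.a (T.l 0) (T.a (T.l 0) (T.a (T.l 0) (T.l 0)))),
      by decide +kernel⟩
theorem cA_h0_11 : CertNd 991880209 80590268 1045395039 1503240 (ftHighG true 1 mZ 1 1 19 0 1024) [] ndB1q1 cZ :=
  certNd (T := (ftHighG true 1 mZ 1 1 19 0 1024)) (L := []) (P1 := 991880209) (W1 := 80590268) (P3 := 1045395039) (W3 := 1503240) (n := ndB1q1) (c := cZ)
    ⟨T.a (T.l 0) (T.a (T.l 0) (T.l 0)),
      by decide +kernel⟩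
theorem cA_h0_21 : CertNd 991880209 80590268 1045395039 1503240 (ftHighG true 1 mZ 1 1 19 0 1024) [] ndB2q1 cZ :=
  certNd (T := (ftHighG true 1 mZ 1 1 19 0 1024)) (L := []) (P1 := 991880209) (W1 := 80590268) (P3 := 1045395039) (W3 := 1503240) (n := ndB2q1) (c := cZ)
    ⟨T.a (T.l 0) (T.a (T.l 0) (T.l 0)),
      by decide +kernel⟩
theorem cA_h0_31 : CertNd 991880209 80590268 1045395039 1503240 (ftHighG true 1 mZ 1 1 19 0 1024) [] ndB3q1 cZ :=
  certNd (T := (ftHighG true 1 mZ 1 1 19 0 1024)) (L := []) (P1 := 991880209) (W1 := 80590268) (P3 := 1045395039) (W3 := 1503240) (n := ndB3q1) (c := cZ)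
    ⟨T.a (T.l 0) (T.a (T.l 0) (T.l 0)),
      by decide +kernel⟩
theorem cA_h0_41 : CertNd 991880209 80590268 1045395039 1503240 (ftHighG true 1 mZ 1 1 19 0 1024) [] ndB4q1 cZ :=
  certNd (T := (ftHighG true 1 mZ 1 1 19 0 1024)) (L := []) (P1 := 991880209) (W1 := 80590268) (P3 := 1045395039) (W3 := 1503240) (n := ndB4q1) (c := cZ)
    ⟨T.a (T.l 0) (T.a (T.l 0) (T.l 0)),
      by decide +kernel⟩
theorem cA_h0_51 : CertNd 991880209 80590268 1045395039 1503240 (ftHighG true 1 mZ 1 1 19 0 1024) [] ndB5q1 cZ :=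
  certNd (T := (ftHighG true 1 mZ 1 1 19 0 1024)) (L := []) (P1 := 991880209) (W1 := 80590268) (P3 := 1045395039) (W3 := 1503240) (n := ndB5q1) (c := cZ)
    ⟨T.a (T.l 0) (T.a (T.l 0) (T.l 0)),
      by decide +kernel⟩
theorem cA_h0_61 : CertNd 991880209 80590268 1045395039 1503240 (ftHighG true 1 mZ 1 1 19 0 1024) [] ndB6q1 cZ :=
  certNd (T := (ftHighG true 1 mZ 1 1 19 0 1024)) (L := []) (P1 := 991880209) (W1 := 80590268) (P3 := 1045395039) (W3 := 1503240) (n := ndB6q1) (c := cZ)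
    ⟨T.a (T.l 0) (T.a (T.l 0) (T.l 0)),
      by decide +kernel⟩
theorem cA_h1_01 : CertNd 1065031375 8710449 1045395039 1503240 (ftHighG true 1 mZ 1 1 19 580 1024) [] ndB0q1 cZ :=
  certNd (T := (ftHighG true 1 mZ 1 1 19 580 1024)) (L := []) (P1 := 1065031375) (W1 := 8710449) (P3 := 1045395039) (W3 := 1503240) (n := ndB0q1) (c := cZ)
    ⟨T.a (T.l 0) (T.l 0),
      by decide +kernel⟩
theorem cA_h1_11 : CertNd 1065031375 8710449 1045395039 1503240 (ftHighG true 1 mZ 1 1 19 580 1024) [] ndB1q1 cZ :=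
  certNd (T := (ftHighG true 1 mZ 1 1 19 580 1024)) (L := []) (P1 := 1065031375) (W1 := 8710449) (P3 := 1045395039) (W3 := 1503240) (n := ndB1q1) (c := cZ)
    ⟨T.l 0,
      by decide +kernel⟩
theorem cA_h1_21 : CertNd 1065031375 8710449 1045395039 1503240 (ftHighG true 1 mZ 1 1 19 580 1024) [] ndB2q1 cZ :=
  certNd (T := (ftHighG true 1 mZ 1 1 19 580 1024)) (L := []) (P1 := 1065031375) (W1 := 8710449) (P3 := 1045395039) (W3 := 1503240) (n := ndB2q1) (c := cZ)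
    ⟨T.l 0,
      by decide +kernel⟩
theorem cA_h1_31 : CertNd 1065031375 8710449 1045395039 1503240 (ftHighG true 1 mZ 1 1 19 580 1024) [] ndB3q1 cZ :=
  certNd (T := (ftHighG true 1 mZ 1 1 19 580 1024)) (L := []) (P1 := 1065031375) (W1 := 8710449) (P3 := 1045395039) (W3 := 1503240) (n := ndB3q1) (c := cZ)
    ⟨T.l 0,
      by decide +kernel⟩
theorem cA_h1_41 : CertNd 1065031375 8710449 1045395039 1503240 (ftHighG true 1 mZ 1 1 19 580 1024) [] ndB4q1 cZ :=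
  certNd (T := (ftHighG true 1 mZ 1 1 19 580 1024)) (L := []) (P1 := 1065031375) (W1 := 8710449) (P3 := 1045395039) (W3 := 1503240) (n := ndB4q1) (c := cZ)
    ⟨T.l 0,
      by decide +kernel⟩
theorem cA_h1_51 : CertNd 1065031375 8710449 1045395039 1503240 (ftHighG true 1 mZ 1 1 19 580 1024) [] ndB5q1 cZ :=
  certNd (T := (ftHighG true 1 mZ 1 1 19 580 1024)) (L := []) (P1 := 1065031375) (W1 := 8710449) (P3 := 1045395039) (W3 := 1503240) (n := ndB5q1) (c := cZ)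
    ⟨T.l 0,
      by decide +kernel⟩
theorem cA_h1_61 : CertNd 1065031375 8710449 1045395039 1503240 (ftHighG true 1 mZ 1 1 19 580 1024) [] ndB6q1 cZ :=
  certNd (T := (ftHighG true 1 mZ 1 1 19 580 1024)) (L := []) (P1 := 1065031375) (W1 := 8710449) (P3 := 1045395039) (W3 := 1503240) (n := ndB6q1) (c := cZ)
    ⟨T.l 0,
      by decide +kernel⟩
theorem cA_h1_02 : CertNd 0 536870912 1045395039 1503240 (ftHighG true 2 mZ 1 1 19 580 1024) [⟨0, 1065031375⟩, ⟨1, 1144381793⟩] ndB0q2 cZ :=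
  certNd (T := (ftHighG true 2 mZ 1 1 19 580 1024)) (L := [⟨0, 1065031375⟩, ⟨1, 1144381793⟩]) (P1 := 0) (W1 := 536870912) (P3 := 1045395039) (W3 := 1503240) (n := ndB0q2) (c := cZ)
    ⟨T.a (T.l 3) (T.a (T.l 3) (T.a (T.a (T.a (T.l 0) (T.l 0)) (T.l 0)) (T.a (T.l 0) (T.l 0)))),
      by decide +kernel⟩
theorem cA_h1_12 : CertNd 1073741824 70639969 1045395039 1503240 (ftHighG true 2 mZ 1 1 19 580 1024) [] ndB1q2 cZ :=
  certNd (T := (ftHighG true 2 mZ 1 1 19 580 1024)) (L := []) (P1 := 1073741824) (W1 := 70639969) (P3 := 1045395039) (W3 := 1503240) (n := ndB1q2) (c := cZ)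
    ⟨T.l 0,
      by decide +kernel⟩
theorem cA_h1_22 : CertNd 1073741824 70639969 1045395039 1503240 (ftHighG true 2 mZ 1 1 19 580 1024) [] ndB2q2 cZ :=
  certNd (T := (ftHighG true 2 mZ 1 1 19 580 1024)) (L := []) (P1 := 1073741824) (W1 := 70639969) (P3 := 1045395039) (W3 := 1503240) (n := ndB2q2) (c := cZ)
    ⟨T.l 0,
      by decide +kernel⟩
theorem cA_h1_32 : CertNd 1073741824 70639969 1045395039 1503240 (ftHighG true 2 mZ 1 1 19 580 1024) [] ndB3q2 cZ :=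
  certNd (T := (ftHighG true 2 mZ 1 1 19 580 1024)) (L := []) (P1 := 1073741824) (W1 := 70639969) (P3 := 1045395039) (W3 := 1503240) (n := ndB3q2) (c := cZ)
    ⟨T.l 0,
      by decide +kernel⟩
theorem cA_h1_42 : CertNd 1073741824 70639969 1045395039 1503240 (ftHighG true 2 mZ 1 1 19 580 1024) [] ndB4q2 cZ :=
  certNd (T := (ftHighG true 2 mZ 1 1 19 580 1024)) (L := []) (P1 := 1073741824) (W1 := 70639969) (P3 := 1045395039) (W3 := 1503240) (n := ndB4q2) (c := cZ)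
    ⟨T.l 0,
      by decide +kernel⟩
theorem cA_h1_52 : CertNd 1073741824 70639969 1045395039 1503240 (ftHighG true 2 mZ 1 1 19 580 1024) [] ndB5q2 cZ :=
  certNd (T := (ftHighG true 2 mZ 1 1 19 580 1024)) (L := []) (P1 := 1073741824) (W1 := 70639969) (P3 := 1045395039) (W3 := 1503240) (n := ndB5q2) (c := cZ)
    ⟨T.l 0,
      by decide +kernel⟩
theorem cA_h1_62 : CertNd 1073741824 70639969 1045395039 1503240 (ftHighG true 2 mZ 1 1 19 580 1024) [] ndB6q2 cZ :=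
  certNd (T := (ftHighG true 2 mZ 1 1 19 580 1024)) (L := []) (P1 := 1073741824) (W1 := 70639969) (P3 := 1045395039) (W3 := 1503240) (n := ndB6q2) (c := cZ)
    ⟨T.l 0,
      by decide +kernel⟩
theorem cA_h2_02 : CertNd 0 536870912 1045395039 1503240 (ftHighG true 2 mZ 1 1 19 800 1024) [⟨0, 1136942690⟩, ⟨1, 1203894605⟩] ndB0q2 cZ :=
  certNd (T := (ftHighG true 2 mZ 1 1 19 800 1024)) (L := [⟨0, 1136942690⟩, ⟨1, 1203894605⟩]) (P1 := 0) (W1 := 536870912) (P3 := 1045395039) (W3 := 1503240) (n := ndB0q2) (c := cZ)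
    ⟨T.a (T.a (T.l 3) (T.a (T.l 3) (T.a (T.l 3) (T.a (T.l 3) (T.l 0))))) (T.a (T.a (T.l 0) (T.l 0)) (T.a (T.l 0) (T.l 1))),
      by decide +kernel⟩
theorem cA_h2_12 : CertNd 1136942690 66951915 1045395039 1503240 (ftHighG true 2 mZ 1 1 19 800 1024) [] ndB1q2 cZ :=
  certNd (T := (ftHighG true 2 mZ 1 1 19 800 1024)) (L := []) (P1 := 1136942690) (W1 := 66951915) (P3 := 1045395039) (W3 := 1503240) (n := ndB1q2) (c := cZ)
    ⟨T.l 0,
      by decide +kernel⟩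
theorem cA_h2_22 : CertNd 1136942690 66951915 1045395039 1503240 (ftHighG true 2 mZ 1 1 19 800 1024) [] ndB2q2 cZ :=
  certNd (T := (ftHighG true 2 mZ 1 1 19 800 1024)) (L := []) (P1 := 1136942690) (W1 := 66951915) (P3 := 1045395039) (W3 := 1503240) (n := ndB2q2) (c := cZ)
    ⟨T.l 0,
      by decide +kernel⟩
theorem cA_h2_32 : CertNd 1136942690 66951915 1045395039 1503240 (ftHighG true 2 mZ 1 1 19 800 1024) [] ndB3q2 cZ :=
  certNd (T := (ftHighG true 2 mZ 1 1 19 800 1024)) (L := []) (P1 := 1136942690) (W1 := 66951915) (P3 := 1045395039) (W3 := 1503240) (n := ndB3q2) (c := cZ)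
    ⟨T.l 0,
      by decide +kernel⟩
theorem cA_h2_42 : CertNd 1136942690 66951915 1045395039 1503240 (ftHighG true 2 mZ 1 1 19 800 1024) [] ndB4q2 cZ :=
  certNd (T := (ftHighG true 2 mZ 1 1 19 800 1024)) (L := []) (P1 := 1136942690) (W1 := 66951915) (P3 := 1045395039) (W3 := 1503240) (n := ndB4q2) (c := cZ)
    ⟨T.l 0,
      by decide +kernel⟩
theorem cA_h2_52 : CertNd 1136942690 66951915 1045395039 1503240 (ftHighG true 2 mZ 1 1 19 800 1024) [] ndB5q2 cZ :=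
  certNd (T := (ftHighG true 2 mZ 1 1 19 800 1024)) (L := []) (P1 := 1136942690) (W1 := 66951915) (P3 := 1045395039) (W3 := 1503240) (n := ndB5q2) (c := cZ)
    ⟨T.l 0,
      by decide +kernel⟩
theorem cA_h2_62 : CertNd 1136942690 66951915 1045395039 1503240 (ftHighG true 2 mZ 1 1 19 800 1024) [] ndB6q2 cZ :=
  certNd (T := (ftHighG true 2 mZ 1 1 19 800 1024)) (L := []) (P1 := 1136942690) (W1 := 66951915) (P3 := 1045395039) (W3 := 1503240) (n := ndB6q2) (c := cZ)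
    ⟨T.l 0,
      by decide +kernel⟩
theorem cA_h3_02 : CertNd 0 536870912 1045395039 1503240 (ftHighG true 2 mZ 1 1 19 980 1024) [⟨0, 1196455503⟩, ⟨1, 1513857171⟩] ndB0q2 cZ :=
  certNd (T := (ftHighG true 2 mZ 1 1 19 980 1024)) (L := [⟨0, 1196455503⟩, ⟨1, 1513857171⟩]) (P1 := 0) (W1 := 536870912) (P3 := 1045395039) (W3 := 1503240) (n := ndB0q2) (c := cZ)
    ⟨T.a (T.a (T.a (T.l 0) (T.l 0)) (T.l 0)) (T.a (T.l 0) (T.l 1)),
      by decide +kernel⟩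
theorem cA_h3_12 : CertNd 1196455503 317401668 1045395039 1503240 (ftHighG true 2 mZ 1 1 19 980 1024) [] ndB1q2 cZ :=
  certNd (T := (ftHighG true 2 mZ 1 1 19 980 1024)) (L := []) (P1 := 1196455503) (W1 := 317401668) (P3 := 1045395039) (W3 := 1503240) (n := ndB1q2) (c := cZ)
    ⟨T.a (T.a (T.a (T.a (T.l 0) (T.l 0)) (T.a (T.a (T.a (T.a (T.l 0) (T.a (T.a (T.l 0) (T.l 0)) (T.l 0))) (T.l 0)) (T.l 0)) (T.l 0))) (T.l 0)) (T.l 0),
      by decide +kernel⟩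
theorem cA_h3_22 : CertNd 1196455503 317401668 1045395039 1503240 (ftHighG true 2 mZ 1 1 19 980 1024) [] ndB2q2 cZ :=
  certNd (T := (ftHighG true 2 mZ 1 1 19 980 1024)) (L := []) (P1 := 1196455503) (W1 := 317401668) (P3 := 1045395039) (W3 := 1503240) (n := ndB2q2) (c := cZ)
    ⟨T.a (T.a (T.a (T.l 0) (T.l 0)) (T.l 0)) (T.l 0),
      by decide +kernel⟩
theorem cA_h3_32 : CertNd 1196455503 317401668 1045395039 1503240 (ftHighG true 2 mZ 1 1 19 980 1024) [] ndB3q2 cZ :=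
  certNd (T := (ftHighG true 2 mZ 1 1 19 980 1024)) (L := []) (P1 := 1196455503) (W1 := 317401668) (P3 := 1045395039) (W3 := 1503240) (n := ndB3q2) (c := cZ)
    ⟨T.a (T.l 0) (T.l 0),
      by decide +kernel⟩
theorem cA_h3_42 : CertNd 1196455503 317401668 1045395039 1503240 (ftHighG true 2 mZ 1 1 19 980 1024) [] ndB4q2 cZ :=
  certNd (T := (ftHighG true 2 mZ 1 1 19 980 1024)) (L := []) (P1 := 1196455503) (W1 := 317401668) (P3 := 1045395039) (W3 := 1503240) (n := ndB4q2) (c := cZ)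
    ⟨T.a (T.a (T.l 0) (T.l 0)) (T.l 0),
      by decide +kernel⟩
theorem cA_h3_52 : CertNd 1196455503 317401668 1045395039 1503240 (ftHighG true 2 mZ 1 1 19 980 1024) [] ndB5q2 cZ :=
  certNd (T := (ftHighG true 2 mZ 1 1 19 980 1024)) (L := []) (P1 := 1196455503) (W1 := 317401668) (P3 := 1045395039) (W3 := 1503240) (n := ndB5q2) (c := cZ)
    ⟨T.l 0,
      by decide +kernel⟩
theorem cA_h3_62 : CertNd 1196455503 317401668 1045395039 1503240 (ftHighG true 2 mZ 1 1 19 980 1024) [] ndB6q2 cZ :=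
  certNd (T := (ftHighG true 2 mZ 1 1 19 980 1024)) (L := []) (P1 := 1196455503) (W1 := 317401668) (P3 := 1045395039) (W3 := 1503240) (n := ndB6q2) (c := cZ)
    ⟨T.a (T.l 0) (T.l 0),
      by decide +kernel⟩
theorem cA_h4_02 : CertNd 0 536870912 1045395039 1503240 (ftHighG true 2 mZ 1 1 19 1160 1024) [⟨0, 1506418068⟩, ⟨1, 2115184548⟩] ndB0q2 cZ :=
  certNd (T := (ftHighG true 2 mZ 1 1 19 1160 1024)) (L := [⟨0, 1506418068⟩, ⟨1, 2115184548⟩]) (P1 := 0) (W1 := 536870912) (P3 := 1045395039) (W3 := 1503240) (n := ndB0q2) (c := cZ)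
    ⟨T.l 1,
      by decide +kernel⟩
theorem cA_h4_12 : CertNd 1506418068 104194668 1045395039 1503240 (ftHighG true 2 mZ 1 1 19 1160 1024) [] ndB1q2 cZ :=
  certNd (T := (ftHighG true 2 mZ 1 1 19 1160 1024)) (L := []) (P1 := 1506418068) (W1 := 104194668) (P3 := 1045395039) (W3 := 1503240) (n := ndB1q2) (c := cZ)
    ⟨T.l 0,
      by decide +kernel⟩
theorem cA_h4_22 : CertNd 1506418068 104194668 1045395039 1503240 (ftHighG true 2 mZ 1 1 19 1160 1024) [] ndB2q2 cZ :=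
  certNd (T := (ftHighG true 2 mZ 1 1 19 1160 1024)) (L := []) (P1 := 1506418068) (W1 := 104194668) (P3 := 1045395039) (W3 := 1503240) (n := ndB2q2) (c := cZ)
    ⟨T.l 0,
      by decide +kernel⟩
theorem cA_h4_32 : CertNd 1506418068 104194668 1045395039 1503240 (ftHighG true 2 mZ 1 1 19 1160 1024) [] ndB3q2 cZ :=
  certNd (T := (ftHighG true 2 mZ 1 1 19 1160 1024)) (L := []) (P1 := 1506418068) (W1 := 104194668) (P3 := 1045395039) (W3 := 1503240) (n := ndB3q2) (c := cZ)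
    ⟨T.l 0,
      by decide +kernel⟩
theorem cA_h4_42 : CertNd 1506418068 104194668 1045395039 1503240 (ftHighG true 2 mZ 1 1 19 1160 1024) [] ndB4q2 cZ :=
  certNd (T := (ftHighG true 2 mZ 1 1 19 1160 1024)) (L := []) (P1 := 1506418068) (W1 := 104194668) (P3 := 1045395039) (W3 := 1503240) (n := ndB4q2) (c := cZ)
    ⟨T.l 0,
      by decide +kernel⟩
theorem cA_h4_52 : CertNd 1506418068 104194668 1045395039 1503240 (ftHighG true 2 mZ 1 1 19 1160 1024) [] ndB5q2 cZ :=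
  certNd (T := (ftHighG true 2 mZ 1 1 19 1160 1024)) (L := []) (P1 := 1506418068) (W1 := 104194668) (P3 := 1045395039) (W3 := 1503240) (n := ndB5q2) (c := cZ)
    ⟨T.l 0,
      by decide +kernel⟩
theorem cA_h4_62 : CertNd 1506418068 104194668 1045395039 1503240 (ftHighG true 2 mZ 1 1 19 1160 1024) [] ndB6q2 cZ :=
  certNd (T := (ftHighG true 2 mZ 1 1 19 1160 1024)) (L := []) (P1 := 1506418068) (W1 := 104194668) (P3 := 1045395039) (W3 := 1503240) (n := ndB6q2) (c := cZ)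
    ⟨T.l 0,
      by decide +kernel⟩
theorem cA_h4_13 : CertNd 1610612736 504571812 1045395039 1503240 (ftHighG true 3 mZ 1 1 19 1160 1024) [] ndB1q3 cZ :=
  certNd (T := (ftHighG true 3 mZ 1 1 19 1160 1024)) (L := []) (P1 := 1610612736) (W1 := 504571812) (P3 := 1045395039) (W3 := 1503240) (n := ndB1q3) (c := cZ)
    ⟨T.a (T.l 0) (T.l 0),
      by decide +kernel⟩
theorem cA_h4_23 : CertNd 1610612736 504571812 1045395039 1503240 (ftHighG true 3 mZ 1 1 19 1160 1024) [] ndB2q3 cZ :=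
  certNd (T := (ftHighG true 3 mZ 1 1 19 1160 1024)) (L := []) (P1 := 1610612736) (W1 := 504571812) (P3 := 1045395039) (W3 := 1503240) (n := ndB2q3) (c := cZ)
    ⟨T.a (T.l 0) (T.a (T.l 0) (T.l 0)),
      by decide +kernel⟩
theorem cA_h4_33 : CertNd 0 1230186008 1045395039 1503240 (ftHighG true 3 mZ 1 1 19 1160 1024) [⟨0, 1506418068⟩, ⟨1, 2115184548⟩] ndB3q3 cZ :=
  certNd (T := (ftHighG true 3 mZ 1 1 19 1160 1024)) (L := [⟨0, 1506418068⟩, ⟨1, 2115184548⟩]) (P1 := 0) (W1 := 1230186008) (P3 := 1045395039) (W3 := 1503240) (n := ndB3q3) (c := cZ)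
    ⟨T.a (T.a (T.l 3) (T.a (T.a (T.l 0) (T.l 0)) (T.l 0))) (T.a (T.l 0) (T.a (T.l 0) (T.l 0))),
      by decide +kernel⟩
theorem cA_h4_43 : CertNd 0 1230186008 1045395039 1503240 (ftHighG true 3 mZ 1 1 19 1160 1024) [⟨0, 1506418068⟩, ⟨1, 2115184548⟩] ndB4q3 cZ :=
  certNd (T := (ftHighG true 3 mZ 1 1 19 1160 1024)) (L := [⟨0, 1506418068⟩, ⟨1, 2115184548⟩]) (P1 := 0) (W1 := 1230186008) (P3 := 1045395039) (W3 := 1503240) (n := ndB4q3) (c := cZ)
    ⟨T.a (T.a (T.l 3) (T.l 0)) (T.a (T.l 0) (T.a (T.l 0) (T.l 0))),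
      by decide +kernel⟩
theorem cA_h4_53 : CertNd 0 1230186008 1045395039 1503240 (ftHighG true 3 mZ 1 1 19 1160 1024) [⟨0, 1506418068⟩, ⟨1, 2115184548⟩] ndB5q3 cZ :=
  certNd (T := (ftHighG true 3 mZ 1 1 19 1160 1024)) (L := [⟨0, 1506418068⟩, ⟨1, 2115184548⟩]) (P1 := 0) (W1 := 1230186008) (P3 := 1045395039) (W3 := 1503240) (n := ndB5q3) (c := cZ)
    ⟨T.a (T.a (T.l 3) (T.a (T.l 0) (T.l 0))) (T.a (T.l 0) (T.a (T.l 0) (T.l 0))),
      by decide +kernel⟩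
theorem cA_h4_63 : CertNd 0 1230186008 1045395039 1503240 (ftHighG true 3 mZ 1 1 19 1160 1024) [⟨0, 1506418068⟩, ⟨1, 2115184548⟩] ndB6q3 cZ :=
  certNd (T := (ftHighG true 3 mZ 1 1 19 1160 1024)) (L := [⟨0, 1506418068⟩, ⟨1, 2115184548⟩]) (P1 := 0) (W1 := 1230186008) (P3 := 1045395039) (W3 := 1503240) (n := ndB6q3) (c := cZ)
    ⟨T.a (T.a (T.l 3) (T.l 0)) (T.a (T.l 0) (T.l 0)),
      by decide +kernel⟩
theorem cA_r0_02 : CertNd 0 536870912 1045395039 1503240 (ftFarG true 2 mZ 1 1 19 1065 1024) [⟨0, 1083629129⟩, ⟨1, 1098507333⟩, ⟨2, 1099511627⟩] ndB0q2 cZ :=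
  certNd (T := (ftFarG true 2 mZ 1 1 19 1065 1024)) (L := [⟨0, 1083629129⟩, ⟨1, 1098507333⟩, ⟨2, 1099511627⟩]) (P1 := 0) (W1 := 536870912) (P3 := 1045395039) (W3 := 1503240) (n := ndB0q2) (c := cZ)
    ⟨T.l 5,
      by decide +kernel⟩
theorem cA_r0_12 : CertNd 1083629129 14878204 1045395039 1503240 (ftFarG true 2 mZ 1 1 19 1065 1024) [⟨2, 1099511627⟩] ndB1q2 cZ :=
  certNd (T := (ftFarG true 2 mZ 1 1 19 1065 1024)) (L := [⟨2, 1099511627⟩]) (P1 := 1083629129) (W1 := 14878204) (P3 := 1045395039) (W3 := 1503240) (n := ndB1q2) (c := cZ)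
    ⟨T.l 0,
      by decide +kernel⟩
theorem cA_r0_22 : CertNd 1083629129 14878204 1045395039 1503240 (ftFarG true 2 mZ 1 1 19 1065 1024) [⟨2, 1099511627⟩] ndB2q2 cZ :=
  certNd (T := (ftFarG true 2 mZ 1 1 19 1065 1024)) (L := [⟨2, 1099511627⟩]) (P1 := 1083629129) (W1 := 14878204) (P3 := 1045395039) (W3 := 1503240) (n := ndB2q2) (c := cZ)
    ⟨T.l 0,
      by decide +kernel⟩
theorem cA_r0_32 : CertNd 1083629129 14878204 1045395039 1503240 (ftFarG true 2 mZ 1 1 19 1065 1024) [⟨2, 1099511627⟩] ndB3q2 cZ :=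
  certNd (T := (ftFarG true 2 mZ 1 1 19 1065 1024)) (L := [⟨2, 1099511627⟩]) (P1 := 1083629129) (W1 := 14878204) (P3 := 1045395039) (W3 := 1503240) (n := ndB3q2) (c := cZ)
    ⟨T.l 0,
      by decide +kernel⟩
theorem cA_r0_42 : CertNd 1083629129 14878204 1045395039 1503240 (ftFarG true 2 mZ 1 1 19 1065 1024) [⟨2, 1099511627⟩] ndB4q2 cZ :=
  certNd (T := (ftFarG true 2 mZ 1 1 19 1065 1024)) (L := [⟨2, 1099511627⟩]) (P1 := 1083629129) (W1 := 14878204) (P3 := 1045395039) (W3 := 1503240) (n := ndB4q2) (c := cZ)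
    ⟨T.l 0,
      by decide +kernel⟩
theorem cA_r0_52 : CertNd 1083629129 14878204 1045395039 1503240 (ftFarG true 2 mZ 1 1 19 1065 1024) [⟨2, 1099511627⟩] ndB5q2 cZ :=
  certNd (T := (ftFarG true 2 mZ 1 1 19 1065 1024)) (L := [⟨2, 1099511627⟩]) (P1 := 1083629129) (W1 := 14878204) (P3 := 1045395039) (W3 := 1503240) (n := ndB5q2) (c := cZ)
    ⟨T.l 0,
      by decide +kernel⟩
theorem cA_r0_62 : CertNd 1083629129 14878204 1045395039 1503240 (ftFarG true 2 mZ 1 1 19 1065 1024) [⟨2, 1099511627⟩] ndB6q2 cZ :=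
  certNd (T := (ftFarG true 2 mZ 1 1 19 1065 1024)) (L := [⟨2, 1099511627⟩]) (P1 := 1083629129) (W1 := 14878204) (P3 := 1045395039) (W3 := 1503240) (n := ndB6q2) (c := cZ)
    ⟨T.l 0,
      by decide +kernel⟩
theorem cA_n0_02z : CertNd 0 107374182 1045395039 1503240 (ftNearE true 2 mZ 1 1 19 1065) [⟨0, 1083629129⟩, ⟨1, 1098507333⟩] ⟨ndB0q2.Y, onF, kq02, lq02⟩ cZ :=
  certNd (T := (ftNearE true 2 mZ 1 1 19 1065)) (L := [⟨0, 1083629129⟩, ⟨1, 1098507333⟩]) (P1 := 0) (W1 := 107374182) (P3 := 1045395039) (W3 := 1503240) (n := ⟨ndB0q2.Y, onF, kq02, lq02⟩) (c := cZ)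
    ⟨T.l 3,
      by decide +kernel⟩
theorem cA_n0_02 : CertNd 0 536870912 1045395039 1503240 (ftNearE true 2 mZ 1 1 19 1065) [⟨0, 1083629129⟩, ⟨1, 1098507333⟩, ⟨2, 107374182⟩, ⟨3, 508953625⟩] ndB0q2 cZ :=
  certNd (T := (ftNearE true 2 mZ 1 1 19 1065)) (L := [⟨0, 1083629129⟩, ⟨1, 1098507333⟩, ⟨2, 107374182⟩, ⟨3, 508953625⟩]) (P1 := 0) (W1 := 536870912) (P3 := 1045395039) (W3 := 1503240) (n := ndB0q2) (c := cZ)
    ⟨T.a (T.l 3) (T.a (T.l 3) (T.a (T.l 3) (T.a (T.a (T.l 3) (T.a (T.l 3) (T.a (T.a (T.l 0) (T.l 0)) (T.l 0)))) (T.l 0)))),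
      by decide +kernel⟩
theorem cA_n0_12 : CertNd 1083629129 14878204 1045395039 1503240 (ftNearE true 2 mZ 1 1 19 1065) [⟨3, 508953625⟩] ndB1q2 cZ :=
  certNd (T := (ftNearE true 2 mZ 1 1 19 1065)) (L := [⟨3, 508953625⟩]) (P1 := 1083629129) (W1 := 14878204) (P3 := 1045395039) (W3 := 1503240) (n := ndB1q2) (c := cZ)
    ⟨T.l 0,
      by decide +kernel⟩
theorem cA_n0_22 : CertNd 1083629129 14878204 1045395039 1503240 (ftNearE true 2 mZ 1 1 19 1065) [⟨3, 508953625⟩] ndB2q2 cZ :=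
  certNd (T := (ftNearE true 2 mZ 1 1 19 1065)) (L := [⟨3, 508953625⟩]) (P1 := 1083629129) (W1 := 14878204) (P3 := 1045395039) (W3 := 1503240) (n := ndB2q2) (c := cZ)
    ⟨T.l 0,
      by decide +kernel⟩
theorem cA_n0_32 : CertNd 1083629129 14878204 1045395039 1503240 (ftNearE true 2 mZ 1 1 19 1065) [⟨3, 508953625⟩] ndB3q2 cZ :=
  certNd (T := (ftNearE true 2 mZ 1 1 19 1065)) (L := [⟨3, 508953625⟩]) (P1 := 1083629129) (W1 := 14878204) (P3 := 1045395039) (W3 := 1503240) (n := ndB3q2) (c := cZ)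
    ⟨T.l 0,
      by decide +kernel⟩
theorem cA_n0_42 : CertNd 1083629129 14878204 1045395039 1503240 (ftNearE true 2 mZ 1 1 19 1065) [⟨3, 508953625⟩] ndB4q2 cZ :=
  certNd (T := (ftNearE true 2 mZ 1 1 19 1065)) (L := [⟨3, 508953625⟩]) (P1 := 1083629129) (W1 := 14878204) (P3 := 1045395039) (W3 := 1503240) (n := ndB4q2) (c := cZ)
    ⟨T.l 0,
      by decide +kernel⟩
theorem cA_n0_52 : CertNd 1083629129 14878204 1045395039 1503240 (ftNearE true 2 mZ 1 1 19 1065) [⟨3, 508953625⟩] ndB5q2 cZ :=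
  certNd (T := (ftNearE true 2 mZ 1 1 19 1065)) (L := [⟨3, 508953625⟩]) (P1 := 1083629129) (W1 := 14878204) (P3 := 1045395039) (W3 := 1503240) (n := ndB5q2) (c := cZ)
    ⟨T.l 0,
      by decide +kernel⟩
theorem cA_n0_62 : CertNd 1083629129 14878204 1045395039 1503240 (ftNearE true 2 mZ 1 1 19 1065) [⟨3, 508953625⟩] ndB6q2 cZ :=
  certNd (T := (ftNearE true 2 mZ 1 1 19 1065)) (L := [⟨3, 508953625⟩]) (P1 := 1083629129) (W1 := 14878204) (P3 := 1045395039) (W3 := 1503240) (n := ndB6q2) (c := cZ)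
    ⟨T.l 0,
      by decide +kernel⟩
theorem cA_R0_2 : CertSd 1083629129 14878204 1045395039 1503240 (ftFarG true 2 mZ 1 1 19 1065 1024) [] idF (cnF 1024 1000) pcB2 dZ :=
  certSd (T := (ftFarG true 2 mZ 1 1 19 1065 1024)) (L := []) (P1 := 1083629129) (W1 := 14878204) (P3 := 1045395039) (W3 := 1503240) (Y := idF) (X := (cnF 1024 1000))
    (pc := pcB2) (c := dZ) ⟨T.l 0,
      by decide +kernel⟩
theorem cA_N0_2 : CertSd 1091718958 6788375 1045395039 1503240 (ftNearE true 2 mZ 1 1 19 1065) [] idF (cnF 474 1000) pcB2 dZ :=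
  certSd (T := (ftNearE true 2 mZ 1 1 19 1065)) (L := []) (P1 := 1091718958) (W1 := 6788375) (P3 := 1045395039) (W3 := 1503240) (Y := idF) (X := (cnF 474 1000))
    (pc := pcB2) (c := dZ) ⟨T.l 0,
      by decide +kernel⟩
theorem cA_r1_02 : CertNd 0 536870912 1045395039 1503240 (ftFarG true 2 mZ 1 1 19 1079 1024) [⟨0, 1091068230⟩, ⟨1, 1105946434⟩, ⟨2, 1099511627⟩] ndB0q2 cZ :=
  certNd (T := (ftFarG true 2 mZ 1 1 19 1079 1024)) (L := [⟨0, 1091068230⟩, ⟨1, 1105946434⟩, ⟨2, 1099511627⟩]) (P1 := 0) (W1 := 536870912) (P3 := 1045395039) (W3 := 1503240) (n := ndB0q2) (c := cZ)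
    ⟨T.l 5,
      by decide +kernel⟩
theorem cA_r1_12 : CertNd 1091068230 14878204 1045395039 1503240 (ftFarG true 2 mZ 1 1 19 1079 1024) [⟨2, 1099511627⟩] ndB1q2 cZ :=
  certNd (T := (ftFarG true 2 mZ 1 1 19 1079 1024)) (L := [⟨2, 1099511627⟩]) (P1 := 1091068230) (W1 := 14878204) (P3 := 1045395039) (W3 := 1503240) (n := ndB1q2) (c := cZ)
    ⟨T.l 0,
      by decide +kernel⟩
theorem cA_r1_22 : CertNd 1091068230 14878204 1045395039 1503240 (ftFarG true 2 mZ 1 1 19 1079 1024) [⟨2, 1099511627⟩] ndB2q2 cZ :=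
  certNd (T := (ftFarG true 2 mZ 1 1 19 1079 1024)) (L := [⟨2, 1099511627⟩]) (P1 := 1091068230) (W1 := 14878204) (P3 := 1045395039) (W3 := 1503240) (n := ndB2q2) (c := cZ)
    ⟨T.l 0,
      by decide +kernel⟩
theorem cA_r1_32 : CertNd 1091068230 14878204 1045395039 1503240 (ftFarG true 2 mZ 1 1 19 1079 1024) [⟨2, 1099511627⟩] ndB3q2 cZ :=
  certNd (T := (ftFarG true 2 mZ 1 1 19 1079 1024)) (L := [⟨2, 1099511627⟩]) (P1 := 1091068230) (W1 := 14878204) (P3 := 1045395039) (W3 := 1503240) (n := ndB3q2) (c := cZ)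
    ⟨T.l 0,
      by decide +kernel⟩
theorem cA_r1_42 : CertNd 1091068230 14878204 1045395039 1503240 (ftFarG true 2 mZ 1 1 19 1079 1024) [⟨2, 1099511627⟩] ndB4q2 cZ :=
  certNd (T := (ftFarG true 2 mZ 1 1 19 1079 1024)) (L := [⟨2, 1099511627⟩]) (P1 := 1091068230) (W1 := 14878204) (P3 := 1045395039) (W3 := 1503240) (n := ndB4q2) (c := cZ)
    ⟨T.l 0,
      by decide +kernel⟩
theorem cA_r1_52 : CertNd 1091068230 14878204 1045395039 1503240 (ftFarG true 2 mZ 1 1 19 1079 1024) [⟨2, 1099511627⟩] ndB5q2 cZ :=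
  certNd (T := (ftFarG true 2 mZ 1 1 19 1079 1024)) (L := [⟨2, 1099511627⟩]) (P1 := 1091068230) (W1 := 14878204) (P3 := 1045395039) (W3 := 1503240) (n := ndB5q2) (c := cZ)
    ⟨T.l 0,
      by decide +kernel⟩
theorem cA_r1_62 : CertNd 1091068230 14878204 1045395039 1503240 (ftFarG true 2 mZ 1 1 19 1079 1024) [⟨2, 1099511627⟩] ndB6q2 cZ :=
  certNd (T := (ftFarG true 2 mZ 1 1 19 1079 1024)) (L := [⟨2, 1099511627⟩]) (P1 := 1091068230) (W1 := 14878204) (P3 := 1045395039) (W3 := 1503240) (n := ndB6q2) (c := cZ)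
    ⟨T.l 0,
      by decide +kernel⟩
theorem cA_n1_02z : CertNd 0 107374182 1045395039 1503240 (ftNearE true 2 mZ 1 1 19 1079) [⟨0, 1091068230⟩, ⟨1, 1105946434⟩] ⟨ndB0q2.Y, onF, kq02, lq02⟩ cZ :=
  certNd (T := (ftNearE true 2 mZ 1 1 19 1079)) (L := [⟨0, 1091068230⟩, ⟨1, 1105946434⟩]) (P1 := 0) (W1 := 107374182) (P3 := 1045395039) (W3 := 1503240) (n := ⟨ndB0q2.Y, onF, kq02, lq02⟩) (c := cZ)
    ⟨T.l 3,
      by decide +kernel⟩
theorem cA_n1_02 : CertNd 0 536870912 1045395039 1503240 (ftNearE true 2 mZ 1 1 19 1079) [⟨0, 1091068230⟩, ⟨1, 1105946434⟩, ⟨2, 107374182⟩, ⟨3, 508953625⟩] ndB0q2 cZ :=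
  certNd (T := (ftNearE true 2 mZ 1 1 19 1079)) (L := [⟨0, 1091068230⟩, ⟨1, 1105946434⟩, ⟨2, 107374182⟩, ⟨3, 508953625⟩]) (P1 := 0) (W1 := 536870912) (P3 := 1045395039) (W3 := 1503240) (n := ndB0q2) (c := cZ)
    ⟨T.a (T.l 3) (T.a (T.l 3) (T.a (T.l 3) (T.a (T.a (T.a (T.l 3) (T.a (T.l 3) (T.a (T.l 3) (T.l 0)))) (T.l 0)) (T.l 0)))),
      by decide +kernel⟩
theorem cA_n1_12 : CertNd 1091068230 14878204 1045395039 1503240 (ftNearE true 2 mZ 1 1 19 1079) [⟨3, 508953625⟩] ndB1q2 cZ :=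
  certNd (T := (ftNearE true 2 mZ 1 1 19 1079)) (L := [⟨3, 508953625⟩]) (P1 := 1091068230) (W1 := 14878204) (P3 := 1045395039) (W3 := 1503240) (n := ndB1q2) (c := cZ)
    ⟨T.l 0,
      by decide +kernel⟩
theorem cA_n1_22 : CertNd 1091068230 14878204 1045395039 1503240 (ftNearE true 2 mZ 1 1 19 1079) [⟨3, 508953625⟩] ndB2q2 cZ :=
  certNd (T := (ftNearE true 2 mZ 1 1 19 1079)) (L := [⟨3, 508953625⟩]) (P1 := 1091068230) (W1 := 14878204) (P3 := 1045395039) (W3 := 1503240) (n := ndB2q2) (c := cZ)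
    ⟨T.l 0,
      by decide +kernel⟩
theorem cA_n1_32 : CertNd 1091068230 14878204 1045395039 1503240 (ftNearE true 2 mZ 1 1 19 1079) [⟨3, 508953625⟩] ndB3q2 cZ :=
  certNd (T := (ftNearE true 2 mZ 1 1 19 1079)) (L := [⟨3, 508953625⟩]) (P1 := 1091068230) (W1 := 14878204) (P3 := 1045395039) (W3 := 1503240) (n := ndB3q2) (c := cZ)
    ⟨T.l 0,
      by decide +kernel⟩
theorem cA_n1_42 : CertNd 1091068230 14878204 1045395039 1503240 (ftNearE true 2 mZ 1 1 19 1079) [⟨3, 508953625⟩] ndB4q2 cZ :=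
  certNd (T := (ftNearE true 2 mZ 1 1 19 1079)) (L := [⟨3, 508953625⟩]) (P1 := 1091068230) (W1 := 14878204) (P3 := 1045395039) (W3 := 1503240) (n := ndB4q2) (c := cZ)
    ⟨T.l 0,
      by decide +kernel⟩
theorem cA_n1_52 : CertNd 1091068230 14878204 1045395039 1503240 (ftNearE true 2 mZ 1 1 19 1079) [⟨3, 508953625⟩] ndB5q2 cZ :=
  certNd (T := (ftNearE true 2 mZ 1 1 19 1079)) (L := [⟨3, 508953625⟩]) (P1 := 1091068230) (W1 := 14878204) (P3 := 1045395039) (W3 := 1503240) (n := ndB5q2) (c := cZ)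
    ⟨T.l 0,
      by decide +kernel⟩
theorem cA_n1_62 : CertNd 1091068230 14878204 1045395039 1503240 (ftNearE true 2 mZ 1 1 19 1079) [⟨3, 508953625⟩] ndB6q2 cZ :=
  certNd (T := (ftNearE true 2 mZ 1 1 19 1079)) (L := [⟨3, 508953625⟩]) (P1 := 1091068230) (W1 := 14878204) (P3 := 1045395039) (W3 := 1503240) (n := ndB6q2) (c := cZ)
    ⟨T.l 0,
      by decide +kernel⟩
theorem cA_R1_2 : CertSd 1091068230 14878204 1045395039 1503240 (ftFarG true 2 mZ 1 1 19 1079 1024) [] idF (cnF 1024 1000) pcB2 dZ :=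
  certSd (T := (ftFarG true 2 mZ 1 1 19 1079 1024)) (L := []) (P1 := 1091068230) (W1 := 14878204) (P3 := 1045395039) (W3 := 1503240) (Y := idF) (X := (cnF 1024 1000))
    (pc := pcB2) (c := dZ) ⟨T.l 0,
      by decide +kernel⟩
theorem cA_N1_2 : CertSd 1091718958 14227476 1045395039 1503240 (ftNearE true 2 mZ 1 1 19 1079) [] idF (cnF 474 1000) pcB2 dZ :=
  certSd (T := (ftNearE true 2 mZ 1 1 19 1079)) (L := []) (P1 := 1091718958) (W1 := 14227476) (P3 := 1045395039) (W3 := 1503240) (Y := idF) (X := (cnF 474 1000))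
    (pc := pcB2) (c := dZ) ⟨T.a (T.l 0) (T.l 0),
      by decide +kernel⟩
theorem cA_r2_02 : CertNd 0 536870912 1045395039 1503240 (ftFarG true 2 mZ 1 1 19 1093 1024) [⟨0, 1098507332⟩, ⟨1, 1113385536⟩, ⟨2, 1099511627⟩] ndB0q2 cZ :=
  certNd (T := (ftFarG true 2 mZ 1 1 19 1093 1024)) (L := [⟨0, 1098507332⟩, ⟨1, 1113385536⟩, ⟨2, 1099511627⟩]) (P1 := 0) (W1 := 536870912) (P3 := 1045395039) (W3 := 1503240) (n := ndB0q2) (c := cZ)
    ⟨T.l 5,
      by decide +kernel⟩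
theorem cA_r2_12 : CertNd 1098507332 14878204 1045395039 1503240 (ftFarG true 2 mZ 1 1 19 1093 1024) [⟨2, 1099511627⟩] ndB1q2 cZ :=
  certNd (T := (ftFarG true 2 mZ 1 1 19 1093 1024)) (L := [⟨2, 1099511627⟩]) (P1 := 1098507332) (W1 := 14878204) (P3 := 1045395039) (W3 := 1503240) (n := ndB1q2) (c := cZ)
    ⟨T.l 0,
      by decide +kernel⟩
theorem cA_r2_22 : CertNd 1098507332 14878204 1045395039 1503240 (ftFarG true 2 mZ 1 1 19 1093 1024) [⟨2, 1099511627⟩] ndB2q2 cZ :=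
  certNd (T := (ftFarG true 2 mZ 1 1 19 1093 1024)) (L := [⟨2, 1099511627⟩]) (P1 := 1098507332) (W1 := 14878204) (P3 := 1045395039) (W3 := 1503240) (n := ndB2q2) (c := cZ)
    ⟨T.l 0,
      by decide +kernel⟩
theorem cA_r2_32 : CertNd 1098507332 14878204 1045395039 1503240 (ftFarG true 2 mZ 1 1 19 1093 1024) [⟨2, 1099511627⟩] ndB3q2 cZ :=
  certNd (T := (ftFarG true 2 mZ 1 1 19 1093 1024)) (L := [⟨2, 1099511627⟩]) (P1 := 1098507332) (W1 := 14878204) (P3 := 1045395039) (W3 := 1503240) (n := ndB3q2) (c := cZ)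
    ⟨T.l 0,
      by decide +kernel⟩
theorem cA_r2_42 : CertNd 1098507332 14878204 1045395039 1503240 (ftFarG true 2 mZ 1 1 19 1093 1024) [⟨2, 1099511627⟩] ndB4q2 cZ :=
  certNd (T := (ftFarG true 2 mZ 1 1 19 1093 1024)) (L := [⟨2, 1099511627⟩]) (P1 := 1098507332) (W1 := 14878204) (P3 := 1045395039) (W3 := 1503240) (n := ndB4q2) (c := cZ)
    ⟨T.l 0,
      by decide +kernel⟩
theorem cA_r2_52 : CertNd 1098507332 14878204 1045395039 1503240 (ftFarG true 2 mZ 1 1 19 1093 1024) [⟨2, 1099511627⟩] ndB5q2 cZ :=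
  certNd (T := (ftFarG true 2 mZ 1 1 19 1093 1024)) (L := [⟨2, 1099511627⟩]) (P1 := 1098507332) (W1 := 14878204) (P3 := 1045395039) (W3 := 1503240) (n := ndB5q2) (c := cZ)
    ⟨T.l 0,
      by decide +kernel⟩
theorem cA_r2_62 : CertNd 1098507332 14878204 1045395039 1503240 (ftFarG true 2 mZ 1 1 19 1093 1024) [⟨2, 1099511627⟩] ndB6q2 cZ :=
  certNd (T := (ftFarG true 2 mZ 1 1 19 1093 1024)) (L := [⟨2, 1099511627⟩]) (P1 := 1098507332) (W1 := 14878204) (P3 := 1045395039) (W3 := 1503240) (n := ndB6q2) (c := cZ)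
    ⟨T.l 0,
      by decide +kernel⟩
theorem cA_n2_02z : CertNd 0 107374182 1045395039 1503240 (ftNearE true 2 mZ 1 1 19 1093) [⟨0, 1098507332⟩, ⟨1, 1113385536⟩] ⟨ndB0q2.Y, onF, kq02, lq02⟩ cZ :=
  certNd (T := (ftNearE true 2 mZ 1 1 19 1093)) (L := [⟨0, 1098507332⟩, ⟨1, 1113385536⟩]) (P1 := 0) (W1 := 107374182) (P3 := 1045395039) (W3 := 1503240) (n := ⟨ndB0q2.Y, onF, kq02, lq02⟩) (c := cZ)
    ⟨T.l 3,
      by decide +kernel⟩
theorem cA_n2_02 : CertNd 0 536870912 1045395039 1503240 (ftNearE true 2 mZ 1 1 19 1093) [⟨0, 1098507332⟩, ⟨1, 1113385536⟩, ⟨2, 107374182⟩, ⟨3, 508953625⟩] ndB0q2 cZ :=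
  certNd (T := (ftNearE true 2 mZ 1 1 19 1093)) (L := [⟨0, 1098507332⟩, ⟨1, 1113385536⟩, ⟨2, 107374182⟩, ⟨3, 508953625⟩]) (P1 := 0) (W1 := 536870912) (P3 := 1045395039) (W3 := 1503240) (n := ndB0q2) (c := cZ)
    ⟨T.a (T.l 3) (T.a (T.l 3) (T.a (T.l 3) (T.a (T.a (T.a (T.a (T.a (T.l 3) (T.l 0)) (T.l 0)) (T.l 0)) (T.l 0)) (T.l 0)))),
      by decide +kernel⟩
theorem cA_n2_12 : CertNd 1098507332 14878204 1045395039 1503240 (ftNearE true 2 mZ 1 1 19 1093) [⟨3, 508953625⟩] ndB1q2 cZ :=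
  certNd (T := (ftNearE true 2 mZ 1 1 19 1093)) (L := [⟨3, 508953625⟩]) (P1 := 1098507332) (W1 := 14878204) (P3 := 1045395039) (W3 := 1503240) (n := ndB1q2) (c := cZ)
    ⟨T.l 0,
      by decide +kernel⟩
theorem cA_n2_22 : CertNd 1098507332 14878204 1045395039 1503240 (ftNearE true 2 mZ 1 1 19 1093) [⟨3, 508953625⟩] ndB2q2 cZ :=
  certNd (T := (ftNearE true 2 mZ 1 1 19 1093)) (L := [⟨3, 508953625⟩]) (P1 := 1098507332) (W1 := 14878204) (P3 := 1045395039) (W3 := 1503240) (n := ndB2q2) (c := cZ)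
    ⟨T.l 0,
      by decide +kernel⟩
theorem cA_n2_32 : CertNd 1098507332 14878204 1045395039 1503240 (ftNearE true 2 mZ 1 1 19 1093) [⟨3, 508953625⟩] ndB3q2 cZ :=
  certNd (T := (ftNearE true 2 mZ 1 1 19 1093)) (L := [⟨3, 508953625⟩]) (P1 := 1098507332) (W1 := 14878204) (P3 := 1045395039) (W3 := 1503240) (n := ndB3q2) (c := cZ)
    ⟨T.l 0,
      by decide +kernel⟩
theorem cA_n2_42 : CertNd 1098507332 14878204 1045395039 1503240 (ftNearE true 2 mZ 1 1 19 1093) [⟨3, 508953625⟩] ndB4q2 cZ :=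
  certNd (T := (ftNearE true 2 mZ 1 1 19 1093)) (L := [⟨3, 508953625⟩]) (P1 := 1098507332) (W1 := 14878204) (P3 := 1045395039) (W3 := 1503240) (n := ndB4q2) (c := cZ)
    ⟨T.l 0,
      by decide +kernel⟩
theorem cA_n2_52 : CertNd 1098507332 14878204 1045395039 1503240 (ftNearE true 2 mZ 1 1 19 1093) [⟨3, 508953625⟩] ndB5q2 cZ :=
  certNd (T := (ftNearE true 2 mZ 1 1 19 1093)) (L := [⟨3, 508953625⟩]) (P1 := 1098507332) (W1 := 14878204) (P3 := 1045395039) (W3 := 1503240) (n := ndB5q2) (c := cZ)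
    ⟨T.l 0,
      by decide +kernel⟩
theorem cA_n2_62 : CertNd 1098507332 14878204 1045395039 1503240 (ftNearE true 2 mZ 1 1 19 1093) [⟨3, 508953625⟩] ndB6q2 cZ :=
  certNd (T := (ftNearE true 2 mZ 1 1 19 1093)) (L := [⟨3, 508953625⟩]) (P1 := 1098507332) (W1 := 14878204) (P3 := 1045395039) (W3 := 1503240) (n := ndB6q2) (c := cZ)
    ⟨T.l 0,
      by decide +kernel⟩
theorem cA_R2_2 : CertSd 1098507332 14878204 1045395039 1503240 (ftFarG true 2 mZ 1 1 19 1093 1024) [] idF (cnF 1024 1000) pcB2 dZ :=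
  certSd (T := (ftFarG true 2 mZ 1 1 19 1093 1024)) (L := []) (P1 := 1098507332) (W1 := 14878204) (P3 := 1045395039) (W3 := 1503240) (Y := idF) (X := (cnF 1024 1000))
    (pc := pcB2) (c := dZ) ⟨T.l 0,
      by decide +kernel⟩
theorem cA_N2_2 : CertSd 1098507332 14878204 1045395039 1503240 (ftNearE true 2 mZ 1 1 19 1093) [] idF (cnF 474 1000) pcB2 dZ :=
  certSd (T := (ftNearE true 2 mZ 1 1 19 1093)) (L := []) (P1 := 1098507332) (W1 := 14878204) (P3 := 1045395039) (W3 := 1503240) (Y := idF) (X := (cnF 474 1000))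
    (pc := pcB2) (c := dZ) ⟨T.l 0,
      by decide +kernel⟩
theorem cA_r3_02 : CertNd 0 536870912 1045395039 1503240 (ftFarG true 2 mZ 1 1 19 1105 1024) [⟨0, 1105946433⟩, ⟨1, 1119584787⟩, ⟨2, 1099511627⟩] ndB0q2 cZ :=
  certNd (T := (ftFarG true 2 mZ 1 1 19 1105 1024)) (L := [⟨0, 1105946433⟩, ⟨1, 1119584787⟩, ⟨2, 1099511627⟩]) (P1 := 0) (W1 := 536870912) (P3 := 1045395039) (W3 := 1503240) (n := ndB0q2) (c := cZ)
    ⟨T.l 5,
      by decide +kernel⟩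
theorem cA_r3_12 : CertNd 1105946433 13638354 1045395039 1503240 (ftFarG true 2 mZ 1 1 19 1105 1024) [⟨2, 1099511627⟩] ndB1q2 cZ :=
  certNd (T := (ftFarG true 2 mZ 1 1 19 1105 1024)) (L := [⟨2, 1099511627⟩]) (P1 := 1105946433) (W1 := 13638354) (P3 := 1045395039) (W3 := 1503240) (n := ndB1q2) (c := cZ)
    ⟨T.l 0,
      by decide +kernel⟩
theorem cA_r3_22 : CertNd 1105946433 13638354 1045395039 1503240 (ftFarG true 2 mZ 1 1 19 1105 1024) [⟨2, 1099511627⟩] ndB2q2 cZ :=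
  certNd (T := (ftFarG true 2 mZ 1 1 19 1105 1024)) (L := [⟨2, 1099511627⟩]) (P1 := 1105946433) (W1 := 13638354) (P3 := 1045395039) (W3 := 1503240) (n := ndB2q2) (c := cZ)
    ⟨T.l 0,
      by decide +kernel⟩
theorem cA_r3_32 : CertNd 1105946433 13638354 1045395039 1503240 (ftFarG true 2 mZ 1 1 19 1105 1024) [⟨2, 1099511627⟩] ndB3q2 cZ :=
  certNd (T := (ftFarG true 2 mZ 1 1 19 1105 1024)) (L := [⟨2, 1099511627⟩]) (P1 := 1105946433) (W1 := 13638354) (P3 := 1045395039) (W3 := 1503240) (n := ndB3q2) (c := cZ)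
    ⟨T.l 0,
      by decide +kernel⟩
theorem cA_r3_42 : CertNd 1105946433 13638354 1045395039 1503240 (ftFarG true 2 mZ 1 1 19 1105 1024) [⟨2, 1099511627⟩] ndB4q2 cZ :=
  certNd (T := (ftFarG true 2 mZ 1 1 19 1105 1024)) (L := [⟨2, 1099511627⟩]) (P1 := 1105946433) (W1 := 13638354) (P3 := 1045395039) (W3 := 1503240) (n := ndB4q2) (c := cZ)
    ⟨T.l 0,
      by decide +kernel⟩
theorem cA_r3_52 : CertNd 1105946433 13638354 1045395039 1503240 (ftFarG true 2 mZ 1 1 19 1105 1024) [⟨2, 1099511627⟩] ndB5q2 cZ :=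
  certNd (T := (ftFarG true 2 mZ 1 1 19 1105 1024)) (L := [⟨2, 1099511627⟩]) (P1 := 1105946433) (W1 := 13638354) (P3 := 1045395039) (W3 := 1503240) (n := ndB5q2) (c := cZ)
    ⟨T.l 0,
      by decide +kernel⟩
theorem cA_r3_62 : CertNd 1105946433 13638354 1045395039 1503240 (ftFarG true 2 mZ 1 1 19 1105 1024) [⟨2, 1099511627⟩] ndB6q2 cZ :=
  certNd (T := (ftFarG true 2 mZ 1 1 19 1105 1024)) (L := [⟨2, 1099511627⟩]) (P1 := 1105946433) (W1 := 13638354) (P3 := 1045395039) (W3 := 1503240) (n := ndB6q2) (c := cZ)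
    ⟨T.l 0,
      by decide +kernel⟩
theorem cA_n3_02z : CertNd 0 107374182 1045395039 1503240 (ftNearE true 2 mZ 1 1 19 1105) [⟨0, 1105946433⟩, ⟨1, 1119584787⟩] ⟨ndB0q2.Y, onF, kq02, lq02⟩ cZ :=
  certNd (T := (ftNearE true 2 mZ 1 1 19 1105)) (L := [⟨0, 1105946433⟩, ⟨1, 1119584787⟩]) (P1 := 0) (W1 := 107374182) (P3 := 1045395039) (W3 := 1503240) (n := ⟨ndB0q2.Y, onF, kq02, lq02⟩) (c := cZ)
    ⟨T.l 3,
      by decide +kernel⟩
theorem cA_n3_02 : CertNd 0 536870912 1045395039 1503240 (ftNearE true 2 mZ 1 1 19 1105) [⟨0, 1105946433⟩, ⟨1, 1119584787⟩, ⟨2, 107374182⟩, ⟨3, 508953625⟩] ndB0q2 cZ :=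
  certNd (T := (ftNearE true 2 mZ 1 1 19 1105)) (L := [⟨0, 1105946433⟩, ⟨1, 1119584787⟩, ⟨2, 107374182⟩, ⟨3, 508953625⟩]) (P1 := 0) (W1 := 536870912) (P3 := 1045395039) (W3 := 1503240) (n := ndB0q2) (c := cZ)
    ⟨T.a (T.l 3) (T.a (T.l 3) (T.a (T.a (T.l 3) (T.a (T.l 3) (T.a (T.a (T.l 3) (T.a (T.l 3) (T.l 0))) (T.l 0)))) (T.a (T.l 0) (T.l 0)))),
      by decide +kernel⟩
theorem cA_n3_12 : CertNd 1105946433 13638354 1045395039 1503240 (ftNearE true 2 mZ 1 1 19 1105) [⟨3, 508953625⟩] ndB1q2 cZ :=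
  certNd (T := (ftNearE true 2 mZ 1 1 19 1105)) (L := [⟨3, 508953625⟩]) (P1 := 1105946433) (W1 := 13638354) (P3 := 1045395039) (W3 := 1503240) (n := ndB1q2) (c := cZ)
    ⟨T.l 0,
      by decide +kernel⟩
theorem cA_n3_22 : CertNd 1105946433 13638354 1045395039 1503240 (ftNearE true 2 mZ 1 1 19 1105) [⟨3, 508953625⟩] ndB2q2 cZ :=
  certNd (T := (ftNearE true 2 mZ 1 1 19 1105)) (L := [⟨3, 508953625⟩]) (P1 := 1105946433) (W1 := 13638354) (P3 := 1045395039) (W3 := 1503240) (n := ndB2q2) (c := cZ)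
    ⟨T.l 0,
      by decide +kernel⟩
theorem cA_n3_32 : CertNd 1105946433 13638354 1045395039 1503240 (ftNearE true 2 mZ 1 1 19 1105) [⟨3, 508953625⟩] ndB3q2 cZ :=
  certNd (T := (ftNearE true 2 mZ 1 1 19 1105)) (L := [⟨3, 508953625⟩]) (P1 := 1105946433) (W1 := 13638354) (P3 := 1045395039) (W3 := 1503240) (n := ndB3q2) (c := cZ)
    ⟨T.l 0,
      by decide +kernel⟩
theorem cA_n3_42 : CertNd 1105946433 13638354 1045395039 1503240 (ftNearE true 2 mZ 1 1 19 1105) [⟨3, 508953625⟩] ndB4q2 cZ :=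
  certNd (T := (ftNearE true 2 mZ 1 1 19 1105)) (L := [⟨3, 508953625⟩]) (P1 := 1105946433) (W1 := 13638354) (P3 := 1045395039) (W3 := 1503240) (n := ndB4q2) (c := cZ)
    ⟨T.l 0,
      by decide +kernel⟩
theorem cA_n3_52 : CertNd 1105946433 13638354 1045395039 1503240 (ftNearE true 2 mZ 1 1 19 1105) [⟨3, 508953625⟩] ndB5q2 cZ :=
  certNd (T := (ftNearE true 2 mZ 1 1 19 1105)) (L := [⟨3, 508953625⟩]) (P1 := 1105946433) (W1 := 13638354) (P3 := 1045395039) (W3 := 1503240) (n := ndB5q2) (c := cZ)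
    ⟨T.l 0,
      by decide +kernel⟩
theorem cA_n3_62 : CertNd 1105946433 13638354 1045395039 1503240 (ftNearE true 2 mZ 1 1 19 1105) [⟨3, 508953625⟩] ndB6q2 cZ :=
  certNd (T := (ftNearE true 2 mZ 1 1 19 1105)) (L := [⟨3, 508953625⟩]) (P1 := 1105946433) (W1 := 13638354) (P3 := 1045395039) (W3 := 1503240) (n := ndB6q2) (c := cZ)
    ⟨T.l 0,
      by decide +kernel⟩
theorem cA_R3_2 : CertSd 1105946433 13638354 1045395039 1503240 (ftFarG true 2 mZ 1 1 19 1105 1024) [] idF (cnF 1024 1000) pcB2 dZ :=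
  certSd (T := (ftFarG true 2 mZ 1 1 19 1105 1024)) (L := []) (P1 := 1105946433) (W1 := 13638354) (P3 := 1045395039) (W3 := 1503240) (Y := idF) (X := (cnF 1024 1000))
    (pc := pcB2) (c := dZ) ⟨T.l 0,
      by decide +kernel⟩
theorem cA_N3_2 : CertSd 1105946433 13638354 1045395039 1503240 (ftNearE true 2 mZ 1 1 19 1105) [] idF (cnF 474 1000) pcB2 dZ :=
  certSd (T := (ftNearE true 2 mZ 1 1 19 1105)) (L := []) (P1 := 1105946433) (W1 := 13638354) (P3 := 1045395039) (W3 := 1503240) (Y := idF) (X := (cnF 474 1000))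
    (pc := pcB2) (c := dZ) ⟨T.l 0,
      by decide +kernel⟩
theorem cA_r4_02 : CertNd 0 536870912 1045395039 1503240 (ftFarG true 2 mZ 1 1 19 1117 1024) [⟨0, 1112145685⟩, ⟨1, 1127023889⟩, ⟨2, 1099511627⟩] ndB0q2 cZ :=
  certNd (T := (ftFarG true 2 mZ 1 1 19 1117 1024)) (L := [⟨0, 1112145685⟩, ⟨1, 1127023889⟩, ⟨2, 1099511627⟩]) (P1 := 0) (W1 := 536870912) (P3 := 1045395039) (W3 := 1503240) (n := ndB0q2) (c := cZ)
    ⟨T.l 5,
      by decide +kernel⟩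
theorem cA_r4_12 : CertNd 1112145685 14878204 1045395039 1503240 (ftFarG true 2 mZ 1 1 19 1117 1024) [⟨2, 1099511627⟩] ndB1q2 cZ :=
  certNd (T := (ftFarG true 2 mZ 1 1 19 1117 1024)) (L := [⟨2, 1099511627⟩]) (P1 := 1112145685) (W1 := 14878204) (P3 := 1045395039) (W3 := 1503240) (n := ndB1q2) (c := cZ)
    ⟨T.l 0,
      by decide +kernel⟩
theorem cA_r4_22 : CertNd 1112145685 14878204 1045395039 1503240 (ftFarG true 2 mZ 1 1 19 1117 1024) [⟨2, 1099511627⟩] ndB2q2 cZ :=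
  certNd (T := (ftFarG true 2 mZ 1 1 19 1117 1024)) (L := [⟨2, 1099511627⟩]) (P1 := 1112145685) (W1 := 14878204) (P3 := 1045395039) (W3 := 1503240) (n := ndB2q2) (c := cZ)
    ⟨T.l 0,
      by decide +kernel⟩
theorem cA_r4_32 : CertNd 1112145685 14878204 1045395039 1503240 (ftFarG true 2 mZ 1 1 19 1117 1024) [⟨2, 1099511627⟩] ndB3q2 cZ :=
  certNd (T := (ftFarG true 2 mZ 1 1 19 1117 1024)) (L := [⟨2, 1099511627⟩]) (P1 := 1112145685) (W1 := 14878204) (P3 := 1045395039) (W3 := 1503240) (n := ndB3q2) (c := cZ)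
    ⟨T.l 0,
      by decide +kernel⟩
theorem cA_r4_42 : CertNd 1112145685 14878204 1045395039 1503240 (ftFarG true 2 mZ 1 1 19 1117 1024) [⟨2, 1099511627⟩] ndB4q2 cZ :=
  certNd (T := (ftFarG true 2 mZ 1 1 19 1117 1024)) (L := [⟨2, 1099511627⟩]) (P1 := 1112145685) (W1 := 14878204) (P3 := 1045395039) (W3 := 1503240) (n := ndB4q2) (c := cZ)
    ⟨T.l 0,
      by decide +kernel⟩
theorem cA_r4_52 : CertNd 1112145685 14878204 1045395039 1503240 (ftFarG true 2 mZ 1 1 19 1117 1024) [⟨2, 1099511627⟩] ndB5q2 cZ :=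
  certNd (T := (ftFarG true 2 mZ 1 1 19 1117 1024)) (L := [⟨2, 1099511627⟩]) (P1 := 1112145685) (W1 := 14878204) (P3 := 1045395039) (W3 := 1503240) (n := ndB5q2) (c := cZ)
    ⟨T.l 0,
      by decide +kernel⟩
theorem cA_r4_62 : CertNd 1112145685 14878204 1045395039 1503240 (ftFarG true 2 mZ 1 1 19 1117 1024) [⟨2, 1099511627⟩] ndB6q2 cZ :=
  certNd (T := (ftFarG true 2 mZ 1 1 19 1117 1024)) (L := [⟨2, 1099511627⟩]) (P1 := 1112145685) (W1 := 14878204) (P3 := 1045395039) (W3 := 1503240) (n := ndB6q2) (c := cZ)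
    ⟨T.l 0,
      by decide +kernel⟩
theorem cA_n4_02z : CertNd 0 107374182 1045395039 1503240 (ftNearE true 2 mZ 1 1 19 1117) [⟨0, 1112145685⟩, ⟨1, 1127023889⟩] ⟨ndB0q2.Y, onF, kq02, lq02⟩ cZ :=
  certNd (T := (ftNearE true 2 mZ 1 1 19 1117)) (L := [⟨0, 1112145685⟩, ⟨1, 1127023889⟩]) (P1 := 0) (W1 := 107374182) (P3 := 1045395039) (W3 := 1503240) (n := ⟨ndB0q2.Y, onF, kq02, lq02⟩) (c := cZ)
    ⟨T.l 3,
      by decide +kernel⟩
theorem cA_n4_02 : CertNd 0 536870912 1045395039 1503240 (ftNearE true 2 mZ 1 1 19 1117) [⟨0, 1112145685⟩, ⟨1, 1127023889⟩, ⟨2, 107374182⟩, ⟨3, 508953625⟩] ndB0q2 cZ :=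
  certNd (T := (ftNearE true 2 mZ 1 1 19 1117)) (L := [⟨0, 1112145685⟩, ⟨1, 1127023889⟩, ⟨2, 107374182⟩, ⟨3, 508953625⟩]) (P1 := 0) (W1 := 536870912) (P3 := 1045395039) (W3 := 1503240) (n := ndB0q2) (c := cZ)
    ⟨T.a (T.l 3) (T.a (T.l 3) (T.a (T.a (T.l 3) (T.a (T.a (T.l 3) (T.a (T.a (T.l 3) (T.l 0)) (T.l 0))) (T.l 0))) (T.a (T.l 0) (T.l 0)))),
      by decide +kernel⟩
theorem cA_n4_12 : CertNd 1112145685 14878204 1045395039 1503240 (ftNearE true 2 mZ 1 1 19 1117) [⟨3, 508953625⟩] ndB1q2 cZ :=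
  certNd (T := (ftNearE true 2 mZ 1 1 19 1117)) (L := [⟨3, 508953625⟩]) (P1 := 1112145685) (W1 := 14878204) (P3 := 1045395039) (W3 := 1503240) (n := ndB1q2) (c := cZ)
    ⟨T.l 0,
      by decide +kernel⟩
theorem cA_n4_22 : CertNd 1112145685 14878204 1045395039 1503240 (ftNearE true 2 mZ 1 1 19 1117) [⟨3, 508953625⟩] ndB2q2 cZ :=
  certNd (T := (ftNearE true 2 mZ 1 1 19 1117)) (L := [⟨3, 508953625⟩]) (P1 := 1112145685) (W1 := 14878204) (P3 := 1045395039) (W3 := 1503240) (n := ndB2q2) (c := cZ)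
    ⟨T.l 0,
      by decide +kernel⟩
theorem cA_n4_32 : CertNd 1112145685 14878204 1045395039 1503240 (ftNearE true 2 mZ 1 1 19 1117) [⟨3, 508953625⟩] ndB3q2 cZ :=
  certNd (T := (ftNearE true 2 mZ 1 1 19 1117)) (L := [⟨3, 508953625⟩]) (P1 := 1112145685) (W1 := 14878204) (P3 := 1045395039) (W3 := 1503240) (n := ndB3q2) (c := cZ)
    ⟨T.l 0,
      by decide +kernel⟩
theorem cA_n4_42 : CertNd 1112145685 14878204 1045395039 1503240 (ftNearE true 2 mZ 1 1 19 1117) [⟨3, 508953625⟩] ndB4q2 cZ :=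
  certNd (T := (ftNearE true 2 mZ 1 1 19 1117)) (L := [⟨3, 508953625⟩]) (P1 := 1112145685) (W1 := 14878204) (P3 := 1045395039) (W3 := 1503240) (n := ndB4q2) (c := cZ)
    ⟨T.l 0,
      by decide +kernel⟩
theorem cA_n4_52 : CertNd 1112145685 14878204 1045395039 1503240 (ftNearE true 2 mZ 1 1 19 1117) [⟨3, 508953625⟩] ndB5q2 cZ :=
  certNd (T := (ftNearE true 2 mZ 1 1 19 1117)) (L := [⟨3, 508953625⟩]) (P1 := 1112145685) (W1 := 14878204) (P3 := 1045395039) (W3 := 1503240) (n := ndB5q2) (c := cZ)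
    ⟨T.l 0,
      by decide +kernel⟩
theorem cA_n4_62 : CertNd 1112145685 14878204 1045395039 1503240 (ftNearE true 2 mZ 1 1 19 1117) [⟨3, 508953625⟩] ndB6q2 cZ :=
  certNd (T := (ftNearE true 2 mZ 1 1 19 1117)) (L := [⟨3, 508953625⟩]) (P1 := 1112145685) (W1 := 14878204) (P3 := 1045395039) (W3 := 1503240) (n := ndB6q2) (c := cZ)
    ⟨T.l 0,
      by decide +kernel⟩
theorem cA_R4_2 : CertSd 1112145685 14878204 1045395039 1503240 (ftFarG true 2 mZ 1 1 19 1117 1024) [] idF (cnF 1024 1000) pcB2 dZ :=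
  certSd (T := (ftFarG true 2 mZ 1 1 19 1117 1024)) (L := []) (P1 := 1112145685) (W1 := 14878204) (P3 := 1045395039) (W3 := 1503240) (Y := idF) (X := (cnF 1024 1000))
    (pc := pcB2) (c := dZ) ⟨T.l 0,
      by decide +kernel⟩
theorem cA_N4_2 : CertSd 1112145685 14878204 1045395039 1503240 (ftNearE true 2 mZ 1 1 19 1117) [] idF (cnF 474 1000) pcB2 dZ :=
  certSd (T := (ftNearE true 2 mZ 1 1 19 1117)) (L := []) (P1 := 1112145685) (W1 := 14878204) (P3 := 1045395039) (W3 := 1503240) (Y := idF) (X := (cnF 474 1000))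
    (pc := pcB2) (c := dZ) ⟨T.l 0,
      by decide +kernel⟩
theorem cA_r5_02 : CertNd 0 536870912 1045395039 1503240 (ftFarG true 2 mZ 1 1 19 1131 1024) [⟨0, 1119584786⟩, ⟨1, 1136942691⟩, ⟨2, 1099511627⟩] ndB0q2 cZ :=
  certNd (T := (ftFarG true 2 mZ 1 1 19 1131 1024)) (L := [⟨0, 1119584786⟩, ⟨1, 1136942691⟩, ⟨2, 1099511627⟩]) (P1 := 0) (W1 := 536870912) (P3 := 1045395039) (W3 := 1503240) (n := ndB0q2) (c := cZ)
    ⟨T.l 5,
      by decide +kernel⟩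
theorem cA_r5_12 : CertNd 1119584786 17357905 1045395039 1503240 (ftFarG true 2 mZ 1 1 19 1131 1024) [⟨2, 1099511627⟩] ndB1q2 cZ :=
  certNd (T := (ftFarG true 2 mZ 1 1 19 1131 1024)) (L := [⟨2, 1099511627⟩]) (P1 := 1119584786) (W1 := 17357905) (P3 := 1045395039) (W3 := 1503240) (n := ndB1q2) (c := cZ)
    ⟨T.l 0,
      by decide +kernel⟩
theorem cA_r5_22 : CertNd 1119584786 17357905 1045395039 1503240 (ftFarG true 2 mZ 1 1 19 1131 1024) [⟨2, 1099511627⟩] ndB2q2 cZ :=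
  certNd (T := (ftFarG true 2 mZ 1 1 19 1131 1024)) (L := [⟨2, 1099511627⟩]) (P1 := 1119584786) (W1 := 17357905) (P3 := 1045395039) (W3 := 1503240) (n := ndB2q2) (c := cZ)
    ⟨T.l 0,
      by decide +kernel⟩
theorem cA_r5_32 : CertNd 1119584786 17357905 1045395039 1503240 (ftFarG true 2 mZ 1 1 19 1131 1024) [⟨2, 1099511627⟩] ndB3q2 cZ :=
  certNd (T := (ftFarG true 2 mZ 1 1 19 1131 1024)) (L := [⟨2, 1099511627⟩]) (P1 := 1119584786) (W1 := 17357905) (P3 := 1045395039) (W3 := 1503240) (n := ndB3q2) (c := cZ)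
    ⟨T.l 0,
      by decide +kernel⟩
theorem cA_r5_42 : CertNd 1119584786 17357905 1045395039 1503240 (ftFarG true 2 mZ 1 1 19 1131 1024) [⟨2, 1099511627⟩] ndB4q2 cZ :=
  certNd (T := (ftFarG true 2 mZ 1 1 19 1131 1024)) (L := [⟨2, 1099511627⟩]) (P1 := 1119584786) (W1 := 17357905) (P3 := 1045395039) (W3 := 1503240) (n := ndB4q2) (c := cZ)
    ⟨T.l 0,
      by decide +kernel⟩
theorem cA_r5_52 : CertNd 1119584786 17357905 1045395039 1503240 (ftFarG true 2 mZ 1 1 19 1131 1024) [⟨2, 1099511627⟩] ndB5q2 cZ :=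
  certNd (T := (ftFarG true 2 mZ 1 1 19 1131 1024)) (L := [⟨2, 1099511627⟩]) (P1 := 1119584786) (W1 := 17357905) (P3 := 1045395039) (W3 := 1503240) (n := ndB5q2) (c := cZ)
    ⟨T.l 0,
      by decide +kernel⟩
theorem cA_r5_62 : CertNd 1119584786 17357905 1045395039 1503240 (ftFarG true 2 mZ 1 1 19 1131 1024) [⟨2, 1099511627⟩] ndB6q2 cZ :=
  certNd (T := (ftFarG true 2 mZ 1 1 19 1131 1024)) (L := [⟨2, 1099511627⟩]) (P1 := 1119584786) (W1 := 17357905) (P3 := 1045395039) (W3 := 1503240) (n := ndB6q2) (c := cZ)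
    ⟨T.l 0,
      by decide +kernel⟩
theorem cA_n5_02z : CertNd 0 107374182 1045395039 1503240 (ftNearE true 2 mZ 1 1 19 1131) [⟨0, 1119584786⟩, ⟨1, 1136942691⟩] ⟨ndB0q2.Y, onF, kq02, lq02⟩ cZ :=
  certNd (T := (ftNearE true 2 mZ 1 1 19 1131)) (L := [⟨0, 1119584786⟩, ⟨1, 1136942691⟩]) (P1 := 0) (W1 := 107374182) (P3 := 1045395039) (W3 := 1503240) (n := ⟨ndB0q2.Y, onF, kq02, lq02⟩) (c := cZ)
    ⟨T.l 3,
      by decide +kernel⟩
theorem cA_n5_02 : CertNd 0 536870912 1045395039 1503240 (ftNearE true 2 mZ 1 1 19 1131) [⟨0, 1119584786⟩, ⟨1, 1136942691⟩, ⟨2, 107374182⟩, ⟨3, 508953625⟩] ndB0q2 cZ :=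
  certNd (T := (ftNearE true 2 mZ 1 1 19 1131)) (L := [⟨0, 1119584786⟩, ⟨1, 1136942691⟩, ⟨2, 107374182⟩, ⟨3, 508953625⟩]) (P1 := 0) (W1 := 536870912) (P3 := 1045395039) (W3 := 1503240) (n := ndB0q2) (c := cZ)
    ⟨T.a (T.l 3) (T.a (T.l 3) (T.a (T.a (T.a (T.l 3) (T.a (T.l 3) (T.l 0))) (T.a (T.l 0) (T.l 0))) (T.l 1))),
      by decide +kernel⟩
theorem cA_n5_12 : CertNd 1119584786 17357905 1045395039 1503240 (ftNearE true 2 mZ 1 1 19 1131) [⟨3, 508953625⟩] ndB1q2 cZ :=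
  certNd (T := (ftNearE true 2 mZ 1 1 19 1131)) (L := [⟨3, 508953625⟩]) (P1 := 1119584786) (W1 := 17357905) (P3 := 1045395039) (W3 := 1503240) (n := ndB1q2) (c := cZ)
    ⟨T.l 0,
      by decide +kernel⟩
theorem cA_n5_22 : CertNd 1119584786 17357905 1045395039 1503240 (ftNearE true 2 mZ 1 1 19 1131) [⟨3, 508953625⟩] ndB2q2 cZ :=
  certNd (T := (ftNearE true 2 mZ 1 1 19 1131)) (L := [⟨3, 508953625⟩]) (P1 := 1119584786) (W1 := 17357905) (P3 := 1045395039) (W3 := 1503240) (n := ndB2q2) (c := cZ)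
    ⟨T.l 0,
      by decide +kernel⟩
theorem cA_n5_32 : CertNd 1119584786 17357905 1045395039 1503240 (ftNearE true 2 mZ 1 1 19 1131) [⟨3, 508953625⟩] ndB3q2 cZ :=
  certNd (T := (ftNearE true 2 mZ 1 1 19 1131)) (L := [⟨3, 508953625⟩]) (P1 := 1119584786) (W1 := 17357905) (P3 := 1045395039) (W3 := 1503240) (n := ndB3q2) (c := cZ)
    ⟨T.l 0,
      by decide +kernel⟩
theorem cA_n5_42 : CertNd 1119584786 17357905 1045395039 1503240 (ftNearE true 2 mZ 1 1 19 1131) [⟨3, 508953625⟩] ndB4q2 cZ :=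
  certNd (T := (ftNearE true 2 mZ 1 1 19 1131)) (L := [⟨3, 508953625⟩]) (P1 := 1119584786) (W1 := 17357905) (P3 := 1045395039) (W3 := 1503240) (n := ndB4q2) (c := cZ)
    ⟨T.l 0,
      by decide +kernel⟩
theorem cA_n5_52 : CertNd 1119584786 17357905 1045395039 1503240 (ftNearE true 2 mZ 1 1 19 1131) [⟨3, 508953625⟩] ndB5q2 cZ :=
  certNd (T := (ftNearE true 2 mZ 1 1 19 1131)) (L := [⟨3, 508953625⟩]) (P1 := 1119584786) (W1 := 17357905) (P3 := 1045395039) (W3 := 1503240) (n := ndB5q2) (c := cZ)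
    ⟨T.l 0,
      by decide +kernel⟩
theorem cA_n5_62 : CertNd 1119584786 17357905 1045395039 1503240 (ftNearE true 2 mZ 1 1 19 1131) [⟨3, 508953625⟩] ndB6q2 cZ :=
  certNd (T := (ftNearE true 2 mZ 1 1 19 1131)) (L := [⟨3, 508953625⟩]) (P1 := 1119584786) (W1 := 17357905) (P3 := 1045395039) (W3 := 1503240) (n := ndB6q2) (c := cZ)
    ⟨T.l 0,
      by decide +kernel⟩
theorem cA_R5_2 : CertSd 1119584786 17357905 1045395039 1503240 (ftFarG true 2 mZ 1 1 19 1131 1024) [] idF (cnF 1024 1000) pcB2 dZ :=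
  certSd (T := (ftFarG true 2 mZ 1 1 19 1131 1024)) (L := []) (P1 := 1119584786) (W1 := 17357905) (P3 := 1045395039) (W3 := 1503240) (Y := idF) (X := (cnF 1024 1000))
    (pc := pcB2) (c := dZ) ⟨T.l 0,
      by decide +kernel⟩
theorem cA_N5_2 : CertSd 1119584786 17357905 1045395039 1503240 (ftNearE true 2 mZ 1 1 19 1131) [] idF (cnF 474 1000) pcB2 dZ :=
  certSd (T := (ftNearE true 2 mZ 1 1 19 1131)) (L := []) (P1 := 1119584786) (W1 := 17357905) (P3 := 1045395039) (W3 := 1503240) (Y := idF) (X := (cnF 474 1000))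
    (pc := pcB2) (c := dZ) ⟨T.l 0,
      by decide +kernel⟩
theorem cA_r6_02 : CertNd 0 536870912 1045395039 1503240 (ftFarG true 2 mZ 1 1 19 1150 1024) [⟨0, 1129503588⟩, ⟨1, 1153060744⟩, ⟨2, 1099511627⟩] ndB0q2 cZ :=
  certNd (T := (ftFarG true 2 mZ 1 1 19 1150 1024)) (L := [⟨0, 1129503588⟩, ⟨1, 1153060744⟩, ⟨2, 1099511627⟩]) (P1 := 0) (W1 := 536870912) (P3 := 1045395039) (W3 := 1503240) (n := ndB0q2) (c := cZ)
    ⟨T.l 5,
      by decide +kernel⟩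
theorem cA_r6_12 : CertNd 1129503588 23557156 1045395039 1503240 (ftFarG true 2 mZ 1 1 19 1150 1024) [⟨2, 1099511627⟩] ndB1q2 cZ :=
  certNd (T := (ftFarG true 2 mZ 1 1 19 1150 1024)) (L := [⟨2, 1099511627⟩]) (P1 := 1129503588) (W1 := 23557156) (P3 := 1045395039) (W3 := 1503240) (n := ndB1q2) (c := cZ)
    ⟨T.l 0,
      by decide +kernel⟩
theorem cA_r6_22 : CertNd 1129503588 23557156 1045395039 1503240 (ftFarG true 2 mZ 1 1 19 1150 1024) [⟨2, 1099511627⟩] ndB2q2 cZ :=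
  certNd (T := (ftFarG true 2 mZ 1 1 19 1150 1024)) (L := [⟨2, 1099511627⟩]) (P1 := 1129503588) (W1 := 23557156) (P3 := 1045395039) (W3 := 1503240) (n := ndB2q2) (c := cZ)
    ⟨T.l 0,
      by decide +kernel⟩
theorem cA_r6_32 : CertNd 1129503588 23557156 1045395039 1503240 (ftFarG true 2 mZ 1 1 19 1150 1024) [⟨2, 1099511627⟩] ndB3q2 cZ :=
  certNd (T := (ftFarG true 2 mZ 1 1 19 1150 1024)) (L := [⟨2, 1099511627⟩]) (P1 := 1129503588) (W1 := 23557156) (P3 := 1045395039) (W3 := 1503240) (n := ndB3q2) (c := cZ)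
    ⟨T.l 0,
      by decide +kernel⟩
theorem cA_r6_42 : CertNd 1129503588 23557156 1045395039 1503240 (ftFarG true 2 mZ 1 1 19 1150 1024) [⟨2, 1099511627⟩] ndB4q2 cZ :=
  certNd (T := (ftFarG true 2 mZ 1 1 19 1150 1024)) (L := [⟨2, 1099511627⟩]) (P1 := 1129503588) (W1 := 23557156) (P3 := 1045395039) (W3 := 1503240) (n := ndB4q2) (c := cZ)
    ⟨T.l 0,
      by decide +kernel⟩
theorem cA_r6_52 : CertNd 1129503588 23557156 1045395039 1503240 (ftFarG true 2 mZ 1 1 19 1150 1024) [⟨2, 1099511627⟩] ndB5q2 cZ :=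
  certNd (T := (ftFarG true 2 mZ 1 1 19 1150 1024)) (L := [⟨2, 1099511627⟩]) (P1 := 1129503588) (W1 := 23557156) (P3 := 1045395039) (W3 := 1503240) (n := ndB5q2) (c := cZ)
    ⟨T.l 0,
      by decide +kernel⟩
theorem cA_r6_62 : CertNd 1129503588 23557156 1045395039 1503240 (ftFarG true 2 mZ 1 1 19 1150 1024) [⟨2, 1099511627⟩] ndB6q2 cZ :=
  certNd (T := (ftFarG true 2 mZ 1 1 19 1150 1024)) (L := [⟨2, 1099511627⟩]) (P1 := 1129503588) (W1 := 23557156) (P3 := 1045395039) (W3 := 1503240) (n := ndB6q2) (c := cZ)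
    ⟨T.l 0,
      by decide +kernel⟩
theorem cA_n6_02z : CertNd 0 107374182 1045395039 1503240 (ftNearE true 2 mZ 1 1 19 1150) [⟨0, 1129503588⟩, ⟨1, 1153060744⟩] ⟨ndB0q2.Y, onF, kq02, lq02⟩ cZ :=
  certNd (T := (ftNearE true 2 mZ 1 1 19 1150)) (L := [⟨0, 1129503588⟩, ⟨1, 1153060744⟩]) (P1 := 0) (W1 := 107374182) (P3 := 1045395039) (W3 := 1503240) (n := ⟨ndB0q2.Y, onF, kq02, lq02⟩) (c := cZ)
    ⟨T.l 3,
      by decide +kernel⟩
theorem cA_n6_02 : CertNd 0 536870912 1045395039 1503240 (ftNearE true 2 mZ 1 1 19 1150) [⟨0, 1129503588⟩, ⟨1, 1153060744⟩, ⟨2, 107374182⟩, ⟨3, 508953625⟩] ndB0q2 cZ :=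
  certNd (T := (ftNearE true 2 mZ 1 1 19 1150)) (L := [⟨0, 1129503588⟩, ⟨1, 1153060744⟩, ⟨2, 107374182⟩, ⟨3, 508953625⟩]) (P1 := 0) (W1 := 536870912) (P3 := 1045395039) (W3 := 1503240) (n := ndB0q2) (c := cZ)
    ⟨T.a (T.l 3) (T.a (T.a (T.l 3) (T.a (T.l 3) (T.a (T.l 3) (T.a (T.l 3) (T.l 0))))) (T.a (T.a (T.l 0) (T.l 0)) (T.l 1))),
      by decide +kernel⟩
theorem cA_n6_12 : CertNd 1129503588 23557156 1045395039 1503240 (ftNearE true 2 mZ 1 1 19 1150) [⟨3, 508953625⟩] ndB1q2 cZ :=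
  certNd (T := (ftNearE true 2 mZ 1 1 19 1150)) (L := [⟨3, 508953625⟩]) (P1 := 1129503588) (W1 := 23557156) (P3 := 1045395039) (W3 := 1503240) (n := ndB1q2) (c := cZ)
    ⟨T.l 0,
      by decide +kernel⟩
theorem cA_n6_22 : CertNd 1129503588 23557156 1045395039 1503240 (ftNearE true 2 mZ 1 1 19 1150) [⟨3, 508953625⟩] ndB2q2 cZ :=
  certNd (T := (ftNearE true 2 mZ 1 1 19 1150)) (L := [⟨3, 508953625⟩]) (P1 := 1129503588) (W1 := 23557156) (P3 := 1045395039) (W3 := 1503240) (n := ndB2q2) (c := cZ)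
    ⟨T.l 0,
      by decide +kernel⟩
theorem cA_n6_32 : CertNd 1129503588 23557156 1045395039 1503240 (ftNearE true 2 mZ 1 1 19 1150) [⟨3, 508953625⟩] ndB3q2 cZ :=
  certNd (T := (ftNearE true 2 mZ 1 1 19 1150)) (L := [⟨3, 508953625⟩]) (P1 := 1129503588) (W1 := 23557156) (P3 := 1045395039) (W3 := 1503240) (n := ndB3q2) (c := cZ)
    ⟨T.l 0,
      by decide +kernel⟩
theorem cA_n6_42 : CertNd 1129503588 23557156 1045395039 1503240 (ftNearE true 2 mZ 1 1 19 1150) [⟨3, 508953625⟩] ndB4q2 cZ :=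
  certNd (T := (ftNearE true 2 mZ 1 1 19 1150)) (L := [⟨3, 508953625⟩]) (P1 := 1129503588) (W1 := 23557156) (P3 := 1045395039) (W3 := 1503240) (n := ndB4q2) (c := cZ)
    ⟨T.l 0,
      by decide +kernel⟩
theorem cA_n6_52 : CertNd 1129503588 23557156 1045395039 1503240 (ftNearE true 2 mZ 1 1 19 1150) [⟨3, 508953625⟩] ndB5q2 cZ :=
  certNd (T := (ftNearE true 2 mZ 1 1 19 1150)) (L := [⟨3, 508953625⟩]) (P1 := 1129503588) (W1 := 23557156) (P3 := 1045395039) (W3 := 1503240) (n := ndB5q2) (c := cZ)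
    ⟨T.l 0,
      by decide +kernel⟩
theorem cA_n6_62 : CertNd 1129503588 23557156 1045395039 1503240 (ftNearE true 2 mZ 1 1 19 1150) [⟨3, 508953625⟩] ndB6q2 cZ :=
  certNd (T := (ftNearE true 2 mZ 1 1 19 1150)) (L := [⟨3, 508953625⟩]) (P1 := 1129503588) (W1 := 23557156) (P3 := 1045395039) (W3 := 1503240) (n := ndB6q2) (c := cZ)
    ⟨T.l 0,
      by decide +kernel⟩
theorem cA_R6_2 : CertSd 1129503588 23557156 1045395039 1503240 (ftFarG true 2 mZ 1 1 19 1150 1024) [] idF (cnF 1024 1000) pcB2 dZ :=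
  certSd (T := (ftFarG true 2 mZ 1 1 19 1150 1024)) (L := []) (P1 := 1129503588) (W1 := 23557156) (P3 := 1045395039) (W3 := 1503240) (Y := idF) (X := (cnF 1024 1000))
    (pc := pcB2) (c := dZ) ⟨T.l 0,
      by decide +kernel⟩
theorem cA_N6_2 : CertSd 1129503588 23557156 1045395039 1503240 (ftNearE true 2 mZ 1 1 19 1150) [] idF (cnF 474 1000) pcB2 dZ :=
  certSd (T := (ftNearE true 2 mZ 1 1 19 1150)) (L := []) (P1 := 1129503588) (W1 := 23557156) (P3 := 1045395039) (W3 := 1503240) (Y := idF) (X := (cnF 474 1000))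
    (pc := pcB2) (c := dZ) ⟨T.l 0,
      by decide +kernel⟩
theorem cA_r7_02 : CertNd 0 536870912 1045395039 1503240 (ftFarG true 2 mZ 1 1 19 1181 1024) [⟨0, 1145621642⟩, ⟨1, 1177857750⟩, ⟨2, 1099511627⟩] ndB0q2 cZ :=
  certNd (T := (ftFarG true 2 mZ 1 1 19 1181 1024)) (L := [⟨0, 1145621642⟩, ⟨1, 1177857750⟩, ⟨2, 1099511627⟩]) (P1 := 0) (W1 := 536870912) (P3 := 1045395039) (W3 := 1503240) (n := ndB0q2) (c := cZ)
    ⟨T.l 5,
      by decide +kernel⟩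
theorem cA_r7_12 : CertNd 1145621642 32236108 1045395039 1503240 (ftFarG true 2 mZ 1 1 19 1181 1024) [⟨2, 1099511627⟩] ndB1q2 cZ :=
  certNd (T := (ftFarG true 2 mZ 1 1 19 1181 1024)) (L := [⟨2, 1099511627⟩]) (P1 := 1145621642) (W1 := 32236108) (P3 := 1045395039) (W3 := 1503240) (n := ndB1q2) (c := cZ)
    ⟨T.l 0,
      by decide +kernel⟩
theorem cA_r7_22 : CertNd 1145621642 32236108 1045395039 1503240 (ftFarG true 2 mZ 1 1 19 1181 1024) [⟨2, 1099511627⟩] ndB2q2 cZ :=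
  certNd (T := (ftFarG true 2 mZ 1 1 19 1181 1024)) (L := [⟨2, 1099511627⟩]) (P1 := 1145621642) (W1 := 32236108) (P3 := 1045395039) (W3 := 1503240) (n := ndB2q2) (c := cZ)
    ⟨T.l 0,
      by decide +kernel⟩
theorem cA_r7_32 : CertNd 1145621642 32236108 1045395039 1503240 (ftFarG true 2 mZ 1 1 19 1181 1024) [⟨2, 1099511627⟩] ndB3q2 cZ :=
  certNd (T := (ftFarG true 2 mZ 1 1 19 1181 1024)) (L := [⟨2, 1099511627⟩]) (P1 := 1145621642) (W1 := 32236108) (P3 := 1045395039) (W3 := 1503240) (n := ndB3q2) (c := cZ)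
    ⟨T.l 0,
      by decide +kernel⟩
theorem cA_r7_42 : CertNd 1145621642 32236108 1045395039 1503240 (ftFarG true 2 mZ 1 1 19 1181 1024) [⟨2, 1099511627⟩] ndB4q2 cZ :=
  certNd (T := (ftFarG true 2 mZ 1 1 19 1181 1024)) (L := [⟨2, 1099511627⟩]) (P1 := 1145621642) (W1 := 32236108) (P3 := 1045395039) (W3 := 1503240) (n := ndB4q2) (c := cZ)
    ⟨T.l 0,
      by decide +kernel⟩
theorem cA_r7_52 : CertNd 1145621642 32236108 1045395039 1503240 (ftFarG true 2 mZ 1 1 19 1181 1024) [⟨2, 1099511627⟩] ndB5q2 cZ :=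
  certNd (T := (ftFarG true 2 mZ 1 1 19 1181 1024)) (L := [⟨2, 1099511627⟩]) (P1 := 1145621642) (W1 := 32236108) (P3 := 1045395039) (W3 := 1503240) (n := ndB5q2) (c := cZ)
    ⟨T.l 0,
      by decide +kernel⟩
theorem cA_r7_62 : CertNd 1145621642 32236108 1045395039 1503240 (ftFarG true 2 mZ 1 1 19 1181 1024) [⟨2, 1099511627⟩] ndB6q2 cZ :=
  certNd (T := (ftFarG true 2 mZ 1 1 19 1181 1024)) (L := [⟨2, 1099511627⟩]) (P1 := 1145621642) (W1 := 32236108) (P3 := 1045395039) (W3 := 1503240) (n := ndB6q2) (c := cZ)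
    ⟨T.l 0,
      by decide +kernel⟩
theorem cA_n7_02z : CertNd 0 107374182 1045395039 1503240 (ftNearE true 2 mZ 1 1 19 1181) [⟨0, 1145621642⟩, ⟨1, 1177857750⟩] ⟨ndB0q2.Y, onF, kq02, lq02⟩ cZ :=
  certNd (T := (ftNearE true 2 mZ 1 1 19 1181)) (L := [⟨0, 1145621642⟩, ⟨1, 1177857750⟩]) (P1 := 0) (W1 := 107374182) (P3 := 1045395039) (W3 := 1503240) (n := ⟨ndB0q2.Y, onF, kq02, lq02⟩) (c := cZ)
    ⟨T.l 3,
      by decide +kernel⟩
theorem cA_n7_02 : CertNd 0 536870912 1045395039 1503240 (ftNearE true 2 mZ 1 1 19 1181) [⟨0, 1145621642⟩, ⟨1, 1177857750⟩, ⟨2, 107374182⟩, ⟨3, 508953625⟩] ndB0q2 cZ :=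
  certNd (T := (ftNearE true 2 mZ 1 1 19 1181)) (L := [⟨0, 1145621642⟩, ⟨1, 1177857750⟩, ⟨2, 107374182⟩, ⟨3, 508953625⟩]) (P1 := 0) (W1 := 536870912) (P3 := 1045395039) (W3 := 1503240) (n := ndB0q2) (c := cZ)
    ⟨T.a (T.l 3) (T.a (T.a (T.a (T.l 3) (T.a (T.l 3) (T.a (T.l 3) (T.a (T.l 3) (T.l 0))))) (T.a (T.l 0) (T.l 0))) (T.a (T.l 0) (T.l 0))),
      by decide +kernel⟩
theorem cA_n7_12 : CertNd 1145621642 32236108 1045395039 1503240 (ftNearE true 2 mZ 1 1 19 1181) [⟨3, 508953625⟩] ndB1q2 cZ :=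
  certNd (T := (ftNearE true 2 mZ 1 1 19 1181)) (L := [⟨3, 508953625⟩]) (P1 := 1145621642) (W1 := 32236108) (P3 := 1045395039) (W3 := 1503240) (n := ndB1q2) (c := cZ)
    ⟨T.l 0,
      by decide +kernel⟩
theorem cA_n7_22 : CertNd 1145621642 32236108 1045395039 1503240 (ftNearE true 2 mZ 1 1 19 1181) [⟨3, 508953625⟩] ndB2q2 cZ :=
  certNd (T := (ftNearE true 2 mZ 1 1 19 1181)) (L := [⟨3, 508953625⟩]) (P1 := 1145621642) (W1 := 32236108) (P3 := 1045395039) (W3 := 1503240) (n := ndB2q2) (c := cZ)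
    ⟨T.l 0,
      by decide +kernel⟩
theorem cA_n7_32 : CertNd 1145621642 32236108 1045395039 1503240 (ftNearE true 2 mZ 1 1 19 1181) [⟨3, 508953625⟩] ndB3q2 cZ :=
  certNd (T := (ftNearE true 2 mZ 1 1 19 1181)) (L := [⟨3, 508953625⟩]) (P1 := 1145621642) (W1 := 32236108) (P3 := 1045395039) (W3 := 1503240) (n := ndB3q2) (c := cZ)
    ⟨T.l 0,
      by decide +kernel⟩
theorem cA_n7_42 : CertNd 1145621642 32236108 1045395039 1503240 (ftNearE true 2 mZ 1 1 19 1181) [⟨3, 508953625⟩] ndB4q2 cZ :=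
  certNd (T := (ftNearE true 2 mZ 1 1 19 1181)) (L := [⟨3, 508953625⟩]) (P1 := 1145621642) (W1 := 32236108) (P3 := 1045395039) (W3 := 1503240) (n := ndB4q2) (c := cZ)
    ⟨T.l 0,
      by decide +kernel⟩
theorem cA_n7_52 : CertNd 1145621642 32236108 1045395039 1503240 (ftNearE true 2 mZ 1 1 19 1181) [⟨3, 508953625⟩] ndB5q2 cZ :=
  certNd (T := (ftNearE true 2 mZ 1 1 19 1181)) (L := [⟨3, 508953625⟩]) (P1 := 1145621642) (W1 := 32236108) (P3 := 1045395039) (W3 := 1503240) (n := ndB5q2) (c := cZ)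
    ⟨T.l 0,
      by decide +kernel⟩
theorem cA_n7_62 : CertNd 1145621642 32236108 1045395039 1503240 (ftNearE true 2 mZ 1 1 19 1181) [⟨3, 508953625⟩] ndB6q2 cZ :=
  certNd (T := (ftNearE true 2 mZ 1 1 19 1181)) (L := [⟨3, 508953625⟩]) (P1 := 1145621642) (W1 := 32236108) (P3 := 1045395039) (W3 := 1503240) (n := ndB6q2) (c := cZ)
    ⟨T.l 0,
      by decide +kernel⟩
theorem cA_R7_2 : CertSd 1145621642 32236108 1045395039 1503240 (ftFarG true 2 mZ 1 1 19 1181 1024) [] idF (cnF 1024 1000) pcB2 dZ :=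
  certSd (T := (ftFarG true 2 mZ 1 1 19 1181 1024)) (L := []) (P1 := 1145621642) (W1 := 32236108) (P3 := 1045395039) (W3 := 1503240) (Y := idF) (X := (cnF 1024 1000))
    (pc := pcB2) (c := dZ) ⟨T.l 0,
      by decide +kernel⟩
theorem cA_N7_2 : CertSd 1145621642 32236108 1045395039 1503240 (ftNearE true 2 mZ 1 1 19 1181) [] idF (cnF 474 1000) pcB2 dZ :=
  certSd (T := (ftNearE true 2 mZ 1 1 19 1181)) (L := []) (P1 := 1145621642) (W1 := 32236108) (P3 := 1045395039) (W3 := 1503240) (Y := idF) (X := (cnF 474 1000))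
    (pc := pcB2) (c := dZ) ⟨T.l 0,
      by decide +kernel⟩
theorem cA_r8_02 : CertNd 0 536870912 1045395039 1503240 (ftFarG true 2 mZ 1 1 19 1228 1024) [⟨0, 1170418647⟩, ⟨1, 1227451760⟩, ⟨2, 1099511627⟩] ndB0q2 cZ :=
  certNd (T := (ftFarG true 2 mZ 1 1 19 1228 1024)) (L := [⟨0, 1170418647⟩, ⟨1, 1227451760⟩, ⟨2, 1099511627⟩]) (P1 := 0) (W1 := 536870912) (P3 := 1045395039) (W3 := 1503240) (n := ndB0q2) (c := cZ)
    ⟨T.l 5,
      by decide +kernel⟩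
theorem cA_r8_12 : CertNd 1170418647 57033113 1045395039 1503240 (ftFarG true 2 mZ 1 1 19 1228 1024) [⟨2, 1099511627⟩] ndB1q2 cZ :=
  certNd (T := (ftFarG true 2 mZ 1 1 19 1228 1024)) (L := [⟨2, 1099511627⟩]) (P1 := 1170418647) (W1 := 57033113) (P3 := 1045395039) (W3 := 1503240) (n := ndB1q2) (c := cZ)
    ⟨T.l 0,
      by decide +kernel⟩
theorem cA_r8_22 : CertNd 1170418647 57033113 1045395039 1503240 (ftFarG true 2 mZ 1 1 19 1228 1024) [⟨2, 1099511627⟩] ndB2q2 cZ :=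
  certNd (T := (ftFarG true 2 mZ 1 1 19 1228 1024)) (L := [⟨2, 1099511627⟩]) (P1 := 1170418647) (W1 := 57033113) (P3 := 1045395039) (W3 := 1503240) (n := ndB2q2) (c := cZ)
    ⟨T.l 0,
      by decide +kernel⟩
theorem cA_r8_32 : CertNd 1170418647 57033113 1045395039 1503240 (ftFarG true 2 mZ 1 1 19 1228 1024) [⟨2, 1099511627⟩] ndB3q2 cZ :=
  certNd (T := (ftFarG true 2 mZ 1 1 19 1228 1024)) (L := [⟨2, 1099511627⟩]) (P1 := 1170418647) (W1 := 57033113) (P3 := 1045395039) (W3 := 1503240) (n := ndB3q2) (c := cZ)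
    ⟨T.l 0,
      by decide +kernel⟩
theorem cA_r8_42 : CertNd 1170418647 57033113 1045395039 1503240 (ftFarG true 2 mZ 1 1 19 1228 1024) [⟨2, 1099511627⟩] ndB4q2 cZ :=
  certNd (T := (ftFarG true 2 mZ 1 1 19 1228 1024)) (L := [⟨2, 1099511627⟩]) (P1 := 1170418647) (W1 := 57033113) (P3 := 1045395039) (W3 := 1503240) (n := ndB4q2) (c := cZ)
    ⟨T.l 0,
      by decide +kernel⟩
theorem cA_r8_52 : CertNd 1170418647 57033113 1045395039 1503240 (ftFarG true 2 mZ 1 1 19 1228 1024) [⟨2, 1099511627⟩] ndB5q2 cZ :=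
  certNd (T := (ftFarG true 2 mZ 1 1 19 1228 1024)) (L := [⟨2, 1099511627⟩]) (P1 := 1170418647) (W1 := 57033113) (P3 := 1045395039) (W3 := 1503240) (n := ndB5q2) (c := cZ)
    ⟨T.l 0,
      by decide +kernel⟩
theorem cA_r8_62 : CertNd 1170418647 57033113 1045395039 1503240 (ftFarG true 2 mZ 1 1 19 1228 1024) [⟨2, 1099511627⟩] ndB6q2 cZ :=
  certNd (T := (ftFarG true 2 mZ 1 1 19 1228 1024)) (L := [⟨2, 1099511627⟩]) (P1 := 1170418647) (W1 := 57033113) (P3 := 1045395039) (W3 := 1503240) (n := ndB6q2) (c := cZ)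
    ⟨T.l 0,
      by decide +kernel⟩
theorem cA_n8_02z : CertNd 0 107374182 1045395039 1503240 (ftNearE true 2 mZ 1 1 19 1228) [⟨0, 1170418647⟩, ⟨1, 1227451760⟩] ⟨ndB0q2.Y, onF, kq02, lq02⟩ cZ :=
  certNd (T := (ftNearE true 2 mZ 1 1 19 1228)) (L := [⟨0, 1170418647⟩, ⟨1, 1227451760⟩]) (P1 := 0) (W1 := 107374182) (P3 := 1045395039) (W3 := 1503240) (n := ⟨ndB0q2.Y, onF, kq02, lq02⟩) (c := cZ)
    ⟨T.l 0,
      by decide +kernel⟩
theorem cA_n8_02 : CertNd 0 536870912 1045395039 1503240 (ftNearE true 2 mZ 1 1 19 1228) [⟨0, 1170418647⟩, ⟨1, 1227451760⟩, ⟨2, 107374182⟩, ⟨3, 508953625⟩] ndB0q2 cZ :=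
  certNd (T := (ftNearE true 2 mZ 1 1 19 1228)) (L := [⟨0, 1170418647⟩, ⟨1, 1227451760⟩, ⟨2, 107374182⟩, ⟨3, 508953625⟩]) (P1 := 0) (W1 := 536870912) (P3 := 1045395039) (W3 := 1503240) (n := ndB0q2) (c := cZ)
    ⟨T.a (T.a (T.l 3) (T.a (T.a (T.l 0) (T.l 0)) (T.a (T.l 0) (T.l 0)))) (T.a (T.a (T.l 0) (T.l 0)) (T.l 1)),
      by decide +kernel⟩
theorem cA_n8_12 : CertNd 1170418647 57033113 1045395039 1503240 (ftNearE true 2 mZ 1 1 19 1228) [⟨3, 508953625⟩] ndB1q2 cZ :=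
  certNd (T := (ftNearE true 2 mZ 1 1 19 1228)) (L := [⟨3, 508953625⟩]) (P1 := 1170418647) (W1 := 57033113) (P3 := 1045395039) (W3 := 1503240) (n := ndB1q2) (c := cZ)
    ⟨T.a (T.l 0) (T.a (T.l 0) (T.l 0)),
      by decide +kernel⟩
theorem cA_n8_22 : CertNd 1170418647 57033113 1045395039 1503240 (ftNearE true 2 mZ 1 1 19 1228) [⟨3, 508953625⟩] ndB2q2 cZ :=
  certNd (T := (ftNearE true 2 mZ 1 1 19 1228)) (L := [⟨3, 508953625⟩]) (P1 := 1170418647) (W1 := 57033113) (P3 := 1045395039) (W3 := 1503240) (n := ndB2q2) (c := cZ)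
    ⟨T.l 0,
      by decide +kernel⟩
theorem cA_n8_32 : CertNd 1170418647 57033113 1045395039 1503240 (ftNearE true 2 mZ 1 1 19 1228) [⟨3, 508953625⟩] ndB3q2 cZ :=
  certNd (T := (ftNearE true 2 mZ 1 1 19 1228)) (L := [⟨3, 508953625⟩]) (P1 := 1170418647) (W1 := 57033113) (P3 := 1045395039) (W3 := 1503240) (n := ndB3q2) (c := cZ)
    ⟨T.l 0,
      by decide +kernel⟩
theorem cA_n8_42 : CertNd 1170418647 57033113 1045395039 1503240 (ftNearE true 2 mZ 1 1 19 1228) [⟨3, 508953625⟩] ndB4q2 cZ :=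
  certNd (T := (ftNearE true 2 mZ 1 1 19 1228)) (L := [⟨3, 508953625⟩]) (P1 := 1170418647) (W1 := 57033113) (P3 := 1045395039) (W3 := 1503240) (n := ndB4q2) (c := cZ)
    ⟨T.l 0,
      by decide +kernel⟩
theorem cA_n8_52 : CertNd 1170418647 57033113 1045395039 1503240 (ftNearE true 2 mZ 1 1 19 1228) [⟨3, 508953625⟩] ndB5q2 cZ :=
  certNd (T := (ftNearE true 2 mZ 1 1 19 1228)) (L := [⟨3, 508953625⟩]) (P1 := 1170418647) (W1 := 57033113) (P3 := 1045395039) (W3 := 1503240) (n := ndB5q2) (c := cZ)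
    ⟨T.l 0,
      by decide +kernel⟩
theorem cA_n8_62 : CertNd 1170418647 57033113 1045395039 1503240 (ftNearE true 2 mZ 1 1 19 1228) [⟨3, 508953625⟩] ndB6q2 cZ :=
  certNd (T := (ftNearE true 2 mZ 1 1 19 1228)) (L := [⟨3, 508953625⟩]) (P1 := 1170418647) (W1 := 57033113) (P3 := 1045395039) (W3 := 1503240) (n := ndB6q2) (c := cZ)
    ⟨T.l 0,
      by decide +kernel⟩
theorem cA_R8_2 : CertSd 1170418647 57033113 1045395039 1503240 (ftFarG true 2 mZ 1 1 19 1228 1024) [] idF (cnF 1024 1000) pcB2 dZ :=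
  certSd (T := (ftFarG true 2 mZ 1 1 19 1228 1024)) (L := []) (P1 := 1170418647) (W1 := 57033113) (P3 := 1045395039) (W3 := 1503240) (Y := idF) (X := (cnF 1024 1000))
    (pc := pcB2) (c := dZ) ⟨T.l 0,
      by decide +kernel⟩
theorem cA_N8_2 : CertSd 1170418647 57033113 1045395039 1503240 (ftNearE true 2 mZ 1 1 19 1228) [] idF (cnF 474 1000) pcB2 dZ :=
  certSd (T := (ftNearE true 2 mZ 1 1 19 1228)) (L := []) (P1 := 1170418647) (W1 := 57033113) (P3 := 1045395039) (W3 := 1503240) (Y := idF) (X := (cnF 474 1000))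
    (pc := pcB2) (c := dZ) ⟨T.l 0,
      by decide +kernel⟩
theorem cA_r9_02 : CertNd 0 536870912 1045395039 1503240 (ftFarG true 2 mZ 1 1 19 1330 1024) [⟨0, 1220012658⟩, ⟨1, 1394831546⟩, ⟨2, 1099511627⟩] ndB0q2 cZ :=
  certNd (T := (ftFarG true 2 mZ 1 1 19 1330 1024)) (L := [⟨0, 1220012658⟩, ⟨1, 1394831546⟩, ⟨2, 1099511627⟩]) (P1 := 0) (W1 := 536870912) (P3 := 1045395039) (W3 := 1503240) (n := ndB0q2) (c := cZ)
    ⟨T.l 5,
      by decide +kernel⟩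
theorem cA_r9_12 : CertNd 1220012658 174818888 1045395039 1503240 (ftFarG true 2 mZ 1 1 19 1330 1024) [⟨2, 1099511627⟩] ndB1q2 cZ :=
  certNd (T := (ftFarG true 2 mZ 1 1 19 1330 1024)) (L := [⟨2, 1099511627⟩]) (P1 := 1220012658) (W1 := 174818888) (P3 := 1045395039) (W3 := 1503240) (n := ndB1q2) (c := cZ)
    ⟨T.l 0,
      by decide +kernel⟩
theorem cA_r9_22 : CertNd 1220012658 174818888 1045395039 1503240 (ftFarG true 2 mZ 1 1 19 1330 1024) [⟨2, 1099511627⟩] ndB2q2 cZ :=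
  certNd (T := (ftFarG true 2 mZ 1 1 19 1330 1024)) (L := [⟨2, 1099511627⟩]) (P1 := 1220012658) (W1 := 174818888) (P3 := 1045395039) (W3 := 1503240) (n := ndB2q2) (c := cZ)
    ⟨T.l 0,
      by decide +kernel⟩
theorem cA_r9_32 : CertNd 1220012658 174818888 1045395039 1503240 (ftFarG true 2 mZ 1 1 19 1330 1024) [⟨2, 1099511627⟩] ndB3q2 cZ :=
  certNd (T := (ftFarG true 2 mZ 1 1 19 1330 1024)) (L := [⟨2, 1099511627⟩]) (P1 := 1220012658) (W1 := 174818888) (P3 := 1045395039) (W3 := 1503240) (n := ndB3q2) (c := cZ)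
    ⟨T.l 0,
      by decide +kernel⟩
theorem cA_r9_42 : CertNd 1220012658 174818888 1045395039 1503240 (ftFarG true 2 mZ 1 1 19 1330 1024) [⟨2, 1099511627⟩] ndB4q2 cZ :=
  certNd (T := (ftFarG true 2 mZ 1 1 19 1330 1024)) (L := [⟨2, 1099511627⟩]) (P1 := 1220012658) (W1 := 174818888) (P3 := 1045395039) (W3 := 1503240) (n := ndB4q2) (c := cZ)
    ⟨T.l 0,
      by decide +kernel⟩
theorem cA_r9_52 : CertNd 1220012658 174818888 1045395039 1503240 (ftFarG true 2 mZ 1 1 19 1330 1024) [⟨2, 1099511627⟩] ndB5q2 cZ :=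
  certNd (T := (ftFarG true 2 mZ 1 1 19 1330 1024)) (L := [⟨2, 1099511627⟩]) (P1 := 1220012658) (W1 := 174818888) (P3 := 1045395039) (W3 := 1503240) (n := ndB5q2) (c := cZ)
    ⟨T.l 0,
      by decide +kernel⟩
theorem cA_r9_62 : CertNd 1220012658 174818888 1045395039 1503240 (ftFarG true 2 mZ 1 1 19 1330 1024) [⟨2, 1099511627⟩] ndB6q2 cZ :=
  certNd (T := (ftFarG true 2 mZ 1 1 19 1330 1024)) (L := [⟨2, 1099511627⟩]) (P1 := 1220012658) (W1 := 174818888) (P3 := 1045395039) (W3 := 1503240) (n := ndB6q2) (c := cZ)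
    ⟨T.a (T.a (T.l 0) (T.l 0)) (T.l 0),
      by decide +kernel⟩
theorem cA_n9_02z : CertNd 0 107374182 1045395039 1503240 (ftNearE true 2 mZ 1 1 19 1330) [⟨0, 1220012658⟩, ⟨1, 1394831546⟩] ⟨ndB0q2.Y, onF, kq02, lq02⟩ cZ :=
  certNd (T := (ftNearE true 2 mZ 1 1 19 1330)) (L := [⟨0, 1220012658⟩, ⟨1, 1394831546⟩]) (P1 := 0) (W1 := 107374182) (P3 := 1045395039) (W3 := 1503240) (n := ⟨ndB0q2.Y, onF, kq02, lq02⟩) (c := cZ)
    ⟨T.l 0,
      by decide +kernel⟩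
theorem cA_n9_02 : CertNd 0 536870912 1045395039 1503240 (ftNearE true 2 mZ 1 1 19 1330) [⟨0, 1220012658⟩, ⟨1, 1394831546⟩, ⟨2, 107374182⟩, ⟨3, 508953625⟩] ndB0q2 cZ :=
  certNd (T := (ftNearE true 2 mZ 1 1 19 1330)) (L := [⟨0, 1220012658⟩, ⟨1, 1394831546⟩, ⟨2, 107374182⟩, ⟨3, 508953625⟩]) (P1 := 0) (W1 := 536870912) (P3 := 1045395039) (W3 := 1503240) (n := ndB0q2) (c := cZ)
    ⟨T.a (T.a (T.a (T.l 5) (T.l 0)) (T.l 0)) (T.l 1),
      by decide +kernel⟩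
theorem cA_n9_12 : CertNd 1220012658 174818888 1045395039 1503240 (ftNearE true 2 mZ 1 1 19 1330) [⟨3, 508953625⟩] ndB1q2 cZ :=
  certNd (T := (ftNearE true 2 mZ 1 1 19 1330)) (L := [⟨3, 508953625⟩]) (P1 := 1220012658) (W1 := 174818888) (P3 := 1045395039) (W3 := 1503240) (n := ndB1q2) (c := cZ)
    ⟨T.a (T.a (T.a (T.a (T.l 0) (T.a (T.l 0) (T.a (T.l 0) (T.a (T.a (T.l 0) (T.l 0)) (T.l 0))))) (T.l 0)) (T.l 0)) (T.l 0),
      by decide +kernel⟩
theorem cA_n9_22 : CertNd 1220012658 174818888 1045395039 1503240 (ftNearE true 2 mZ 1 1 19 1330) [⟨3, 508953625⟩] ndB2q2 cZ :=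
  certNd (T := (ftNearE true 2 mZ 1 1 19 1330)) (L := [⟨3, 508953625⟩]) (P1 := 1220012658) (W1 := 174818888) (P3 := 1045395039) (W3 := 1503240) (n := ndB2q2) (c := cZ)
    ⟨T.a (T.a (T.a (T.a (T.l 0) (T.l 0)) (T.l 0)) (T.l 0)) (T.l 0),
      by decide +kernel⟩
theorem cA_n9_32 : CertNd 1220012658 174818888 1045395039 1503240 (ftNearE true 2 mZ 1 1 19 1330) [⟨3, 508953625⟩] ndB3q2 cZ :=
  certNd (T := (ftNearE true 2 mZ 1 1 19 1330)) (L := [⟨3, 508953625⟩]) (P1 := 1220012658) (W1 := 174818888) (P3 := 1045395039) (W3 := 1503240) (n := ndB3q2) (c := cZ)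
    ⟨T.l 0,
      by decide +kernel⟩
theorem cA_n9_42 : CertNd 1220012658 174818888 1045395039 1503240 (ftNearE true 2 mZ 1 1 19 1330) [⟨3, 508953625⟩] ndB4q2 cZ :=
  certNd (T := (ftNearE true 2 mZ 1 1 19 1330)) (L := [⟨3, 508953625⟩]) (P1 := 1220012658) (W1 := 174818888) (P3 := 1045395039) (W3 := 1503240) (n := ndB4q2) (c := cZ)
    ⟨T.l 0,
      by decide +kernel⟩
theorem cA_n9_52 : CertNd 1220012658 174818888 1045395039 1503240 (ftNearE true 2 mZ 1 1 19 1330) [⟨3, 508953625⟩] ndB5q2 cZ :=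
  certNd (T := (ftNearE true 2 mZ 1 1 19 1330)) (L := [⟨3, 508953625⟩]) (P1 := 1220012658) (W1 := 174818888) (P3 := 1045395039) (W3 := 1503240) (n := ndB5q2) (c := cZ)
    ⟨T.l 0,
      by decide +kernel⟩
theorem cA_n9_62 : CertNd 1220012658 174818888 1045395039 1503240 (ftNearE true 2 mZ 1 1 19 1330) [⟨3, 508953625⟩] ndB6q2 cZ :=
  certNd (T := (ftNearE true 2 mZ 1 1 19 1330)) (L := [⟨3, 508953625⟩]) (P1 := 1220012658) (W1 := 174818888) (P3 := 1045395039) (W3 := 1503240) (n := ndB6q2) (c := cZ)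
    ⟨T.l 0,
      by decide +kernel⟩
theorem cA_R9_2 : CertSd 1220012658 174818888 1045395039 1503240 (ftFarG true 2 mZ 1 1 19 1330 1024) [] idF (cnF 1024 1000) pcB2 dZ :=
  certSd (T := (ftFarG true 2 mZ 1 1 19 1330 1024)) (L := []) (P1 := 1220012658) (W1 := 174818888) (P3 := 1045395039) (W3 := 1503240) (Y := idF) (X := (cnF 1024 1000))
    (pc := pcB2) (c := dZ) ⟨T.l 0,
      by decide +kernel⟩
theorem cA_N9_2 : CertSd 1220012658 174818888 1045395039 1503240 (ftNearE true 2 mZ 1 1 19 1330) [] idF (cnF 474 1000) pcB2 dZ :=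
  certSd (T := (ftNearE true 2 mZ 1 1 19 1330)) (L := []) (P1 := 1220012658) (W1 := 174818888) (P3 := 1045395039) (W3 := 1503240) (Y := idF) (X := (cnF 474 1000))
    (pc := pcB2) (c := dZ) ⟨T.l 0,
      by decide +kernel⟩
theorem cA_r10_02 : CertNd 0 536870912 1045395039 1503240 (ftFarG true 2 mZ 1 1 19 1595 1024) [⟨0, 1387392443⟩, ⟨1, 1739509918⟩, ⟨2, 1099511627⟩] ndB0q2 cZ :=
  certNd (T := (ftFarG true 2 mZ 1 1 19 1595 1024)) (L := [⟨0, 1387392443⟩, ⟨1, 1739509918⟩, ⟨2, 1099511627⟩]) (P1 := 0) (W1 := 536870912) (P3 := 1045395039) (W3 := 1503240) (n := ndB0q2) (c := cZ)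
    ⟨T.l 1,
      by decide +kernel⟩
theorem cA_r10_12 : CertNd 1387392443 223220293 1045395039 1503240 (ftFarG true 2 mZ 1 1 19 1595 1024) [⟨2, 1099511627⟩] ndB1q2 cZ :=
  certNd (T := (ftFarG true 2 mZ 1 1 19 1595 1024)) (L := [⟨2, 1099511627⟩]) (P1 := 1387392443) (W1 := 223220293) (P3 := 1045395039) (W3 := 1503240) (n := ndB1q2) (c := cZ)
    ⟨T.l 0,
      by decide +kernel⟩
theorem cA_r10_22 : CertNd 1387392443 223220293 1045395039 1503240 (ftFarG true 2 mZ 1 1 19 1595 1024) [⟨2, 1099511627⟩] ndB2q2 cZ :=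
  certNd (T := (ftFarG true 2 mZ 1 1 19 1595 1024)) (L := [⟨2, 1099511627⟩]) (P1 := 1387392443) (W1 := 223220293) (P3 := 1045395039) (W3 := 1503240) (n := ndB2q2) (c := cZ)
    ⟨T.l 0,
      by decide +kernel⟩
theorem cA_r10_32 : CertNd 1387392443 223220293 1045395039 1503240 (ftFarG true 2 mZ 1 1 19 1595 1024) [⟨2, 1099511627⟩] ndB3q2 cZ :=
  certNd (T := (ftFarG true 2 mZ 1 1 19 1595 1024)) (L := [⟨2, 1099511627⟩]) (P1 := 1387392443) (W1 := 223220293) (P3 := 1045395039) (W3 := 1503240) (n := ndB3q2) (c := cZ)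
    ⟨T.l 0,
      by decide +kernel⟩
theorem cA_r10_42 : CertNd 1387392443 223220293 1045395039 1503240 (ftFarG true 2 mZ 1 1 19 1595 1024) [⟨2, 1099511627⟩] ndB4q2 cZ :=
  certNd (T := (ftFarG true 2 mZ 1 1 19 1595 1024)) (L := [⟨2, 1099511627⟩]) (P1 := 1387392443) (W1 := 223220293) (P3 := 1045395039) (W3 := 1503240) (n := ndB4q2) (c := cZ)
    ⟨T.l 0,
      by decide +kernel⟩
theorem cA_r10_52 : CertNd 1387392443 223220293 1045395039 1503240 (ftFarG true 2 mZ 1 1 19 1595 1024) [⟨2, 1099511627⟩] ndB5q2 cZ :=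
  certNd (T := (ftFarG true 2 mZ 1 1 19 1595 1024)) (L := [⟨2, 1099511627⟩]) (P1 := 1387392443) (W1 := 223220293) (P3 := 1045395039) (W3 := 1503240) (n := ndB5q2) (c := cZ)
    ⟨T.l 0,
      by decide +kernel⟩
theorem cA_r10_62 : CertNd 1387392443 223220293 1045395039 1503240 (ftFarG true 2 mZ 1 1 19 1595 1024) [⟨2, 1099511627⟩] ndB6q2 cZ :=
  certNd (T := (ftFarG true 2 mZ 1 1 19 1595 1024)) (L := [⟨2, 1099511627⟩]) (P1 := 1387392443) (W1 := 223220293) (P3 := 1045395039) (W3 := 1503240) (n := ndB6q2) (c := cZ)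
    ⟨T.a (T.l 0) (T.l 0),
      by decide +kernel⟩
theorem cA_r10_13 : CertNd 1610612736 128897182 1045395039 1503240 (ftFarG true 3 mZ 1 1 19 1595 1024) [⟨2, 1099511627⟩] ndB1q3 cZ :=
  certNd (T := (ftFarG true 3 mZ 1 1 19 1595 1024)) (L := [⟨2, 1099511627⟩]) (P1 := 1610612736) (W1 := 128897182) (P3 := 1045395039) (W3 := 1503240) (n := ndB1q3) (c := cZ)
    ⟨T.l 0,
      by decide +kernel⟩
theorem cA_r10_23 : CertNd 1610612736 128897182 1045395039 1503240 (ftFarG true 3 mZ 1 1 19 1595 1024) [⟨2, 1099511627⟩] ndB2q3 cZ :=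
  certNd (T := (ftFarG true 3 mZ 1 1 19 1595 1024)) (L := [⟨2, 1099511627⟩]) (P1 := 1610612736) (W1 := 128897182) (P3 := 1045395039) (W3 := 1503240) (n := ndB2q3) (c := cZ)
    ⟨T.l 0,
      by decide +kernel⟩
theorem cA_r10_33 : CertNd 0 1230186008 1045395039 1503240 (ftFarG true 3 mZ 1 1 19 1595 1024) [⟨0, 1387392443⟩, ⟨1, 1739509918⟩, ⟨2, 1099511627⟩] ndB3q3 cZ :=
  certNd (T := (ftFarG true 3 mZ 1 1 19 1595 1024)) (L := [⟨0, 1387392443⟩, ⟨1, 1739509918⟩, ⟨2, 1099511627⟩]) (P1 := 0) (W1 := 1230186008) (P3 := 1045395039) (W3 := 1503240) (n := ndB3q3) (c := cZ)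
    ⟨T.l 5,
      by decide +kernel⟩
theorem cA_r10_43 : CertNd 0 1230186008 1045395039 1503240 (ftFarG true 3 mZ 1 1 19 1595 1024) [⟨0, 1387392443⟩, ⟨1, 1739509918⟩, ⟨2, 1099511627⟩] ndB4q3 cZ :=
  certNd (T := (ftFarG true 3 mZ 1 1 19 1595 1024)) (L := [⟨0, 1387392443⟩, ⟨1, 1739509918⟩, ⟨2, 1099511627⟩]) (P1 := 0) (W1 := 1230186008) (P3 := 1045395039) (W3 := 1503240) (n := ndB4q3) (c := cZ)
    ⟨T.l 5,
      by decide +kernel⟩
theorem cA_r10_53 : CertNd 0 1230186008 1045395039 1503240 (ftFarG true 3 mZ 1 1 19 1595 1024) [⟨0, 1387392443⟩, ⟨1, 1739509918⟩, ⟨2, 1099511627⟩] ndB5q3 cZ :=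
  certNd (T := (ftFarG true 3 mZ 1 1 19 1595 1024)) (L := [⟨0, 1387392443⟩, ⟨1, 1739509918⟩, ⟨2, 1099511627⟩]) (P1 := 0) (W1 := 1230186008) (P3 := 1045395039) (W3 := 1503240) (n := ndB5q3) (c := cZ)
    ⟨T.l 5,
      by decide +kernel⟩
theorem cA_r10_63 : CertNd 0 1230186008 1045395039 1503240 (ftFarG true 3 mZ 1 1 19 1595 1024) [⟨0, 1387392443⟩, ⟨1, 1739509918⟩, ⟨2, 1099511627⟩] ndB6q3 cZ :=
  certNd (T := (ftFarG true 3 mZ 1 1 19 1595 1024)) (L := [⟨0, 1387392443⟩, ⟨1, 1739509918⟩, ⟨2, 1099511627⟩]) (P1 := 0) (W1 := 1230186008) (P3 := 1045395039) (W3 := 1503240) (n := ndB6q3) (c := cZ)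
    ⟨T.a (T.l 3) (T.a (T.l 0) (T.l 0)),
      by decide +kernel⟩
theorem cA_n10_02z : CertNd 0 107374182 1045395039 1503240 (ftNearE true 2 mZ 1 1 19 1595) [⟨0, 1387392443⟩, ⟨1, 1739509918⟩] ⟨ndB0q2.Y, onF, kq02, lq02⟩ cZ :=
  certNd (T := (ftNearE true 2 mZ 1 1 19 1595)) (L := [⟨0, 1387392443⟩, ⟨1, 1739509918⟩]) (P1 := 0) (W1 := 107374182) (P3 := 1045395039) (W3 := 1503240) (n := ⟨ndB0q2.Y, onF, kq02, lq02⟩) (c := cZ)
    ⟨T.l 0,
      by decide +kernel⟩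
theorem cA_n10_02 : CertNd 0 536870912 1045395039 1503240 (ftNearE true 2 mZ 1 1 19 1595) [⟨0, 1387392443⟩, ⟨1, 1739509918⟩, ⟨2, 107374182⟩, ⟨3, 508953625⟩] ndB0q2 cZ :=
  certNd (T := (ftNearE true 2 mZ 1 1 19 1595)) (L := [⟨0, 1387392443⟩, ⟨1, 1739509918⟩, ⟨2, 107374182⟩, ⟨3, 508953625⟩]) (P1 := 0) (W1 := 536870912) (P3 := 1045395039) (W3 := 1503240) (n := ndB0q2) (c := cZ)
    ⟨T.l 1,
      by decide +kernel⟩
theorem cA_n10_12 : CertNd 1387392443 223220293 1045395039 1503240 (ftNearE true 2 mZ 1 1 19 1595) [⟨3, 508953625⟩] ndB1q2 cZ :=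
  certNd (T := (ftNearE true 2 mZ 1 1 19 1595)) (L := [⟨3, 508953625⟩]) (P1 := 1387392443) (W1 := 223220293) (P3 := 1045395039) (W3 := 1503240) (n := ndB1q2) (c := cZ)
    ⟨T.l 0,
      by decide +kernel⟩
theorem cA_n10_22 : CertNd 1387392443 223220293 1045395039 1503240 (ftNearE true 2 mZ 1 1 19 1595) [⟨3, 508953625⟩] ndB2q2 cZ :=
  certNd (T := (ftNearE true 2 mZ 1 1 19 1595)) (L := [⟨3, 508953625⟩]) (P1 := 1387392443) (W1 := 223220293) (P3 := 1045395039) (W3 := 1503240) (n := ndB2q2) (c := cZ)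
    ⟨T.l 0,
      by decide +kernel⟩
theorem cA_n10_32 : CertNd 1387392443 223220293 1045395039 1503240 (ftNearE true 2 mZ 1 1 19 1595) [⟨3, 508953625⟩] ndB3q2 cZ :=
  certNd (T := (ftNearE true 2 mZ 1 1 19 1595)) (L := [⟨3, 508953625⟩]) (P1 := 1387392443) (W1 := 223220293) (P3 := 1045395039) (W3 := 1503240) (n := ndB3q2) (c := cZ)
    ⟨T.l 0,
      by decide +kernel⟩
theorem cA_n10_42 : CertNd 1387392443 223220293 1045395039 1503240 (ftNearE true 2 mZ 1 1 19 1595) [⟨3, 508953625⟩] ndB4q2 cZ :=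
  certNd (T := (ftNearE true 2 mZ 1 1 19 1595)) (L := [⟨3, 508953625⟩]) (P1 := 1387392443) (W1 := 223220293) (P3 := 1045395039) (W3 := 1503240) (n := ndB4q2) (c := cZ)
    ⟨T.l 0,
      by decide +kernel⟩
theorem cA_n10_52 : CertNd 1387392443 223220293 1045395039 1503240 (ftNearE true 2 mZ 1 1 19 1595) [⟨3, 508953625⟩] ndB5q2 cZ :=
  certNd (T := (ftNearE true 2 mZ 1 1 19 1595)) (L := [⟨3, 508953625⟩]) (P1 := 1387392443) (W1 := 223220293) (P3 := 1045395039) (W3 := 1503240) (n := ndB5q2) (c := cZ)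
    ⟨T.l 0,
      by decide +kernel⟩
theorem cA_n10_62 : CertNd 1387392443 223220293 1045395039 1503240 (ftNearE true 2 mZ 1 1 19 1595) [⟨3, 508953625⟩] ndB6q2 cZ :=
  certNd (T := (ftNearE true 2 mZ 1 1 19 1595)) (L := [⟨3, 508953625⟩]) (P1 := 1387392443) (W1 := 223220293) (P3 := 1045395039) (W3 := 1503240) (n := ndB6q2) (c := cZ)
    ⟨T.l 0,
      by decide +kernel⟩
theorem cA_n10_13 : CertNd 1610612736 128897182 1045395039 1503240 (ftNearG true 3 mZ 1 1 19 1595) [⟨3, 508953625⟩] ndB1q3 cZ :=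
  certNd (T := (ftNearG true 3 mZ 1 1 19 1595)) (L := [⟨3, 508953625⟩]) (P1 := 1610612736) (W1 := 128897182) (P3 := 1045395039) (W3 := 1503240) (n := ndB1q3) (c := cZ)
    ⟨T.l 0,
      by decide +kernel⟩
theorem cA_n10_23 : CertNd 1610612736 128897182 1045395039 1503240 (ftNearG true 3 mZ 1 1 19 1595) [⟨3, 508953625⟩] ndB2q3 cZ :=
  certNd (T := (ftNearG true 3 mZ 1 1 19 1595)) (L := [⟨3, 508953625⟩]) (P1 := 1610612736) (W1 := 128897182) (P3 := 1045395039) (W3 := 1503240) (n := ndB2q3) (c := cZ)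
    ⟨T.l 0,
      by decide +kernel⟩
theorem cA_n10_33 : CertNd 0 1230186008 1045395039 1503240 (ftNearG true 3 mZ 1 1 19 1595) [⟨0, 1387392443⟩, ⟨1, 1739509918⟩, ⟨3, 508953625⟩] ndB3q3 cZ :=
  certNd (T := (ftNearG true 3 mZ 1 1 19 1595)) (L := [⟨0, 1387392443⟩, ⟨1, 1739509918⟩, ⟨3, 508953625⟩]) (P1 := 0) (W1 := 1230186008) (P3 := 1045395039) (W3 := 1503240) (n := ndB3q3) (c := cZ)
    ⟨T.a (T.l 3) (T.a (T.l 0) (T.l 0)),
      by decide +kernel⟩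
theorem cA_n10_43 : CertNd 0 1230186008 1045395039 1503240 (ftNearG true 3 mZ 1 1 19 1595) [⟨0, 1387392443⟩, ⟨1, 1739509918⟩, ⟨3, 508953625⟩] ndB4q3 cZ :=
  certNd (T := (ftNearG true 3 mZ 1 1 19 1595)) (L := [⟨0, 1387392443⟩, ⟨1, 1739509918⟩, ⟨3, 508953625⟩]) (P1 := 0) (W1 := 1230186008) (P3 := 1045395039) (W3 := 1503240) (n := ndB4q3) (c := cZ)
    ⟨T.a (T.l 3) (T.a (T.l 0) (T.l 0)),
      by decide +kernel⟩
theorem cA_n10_53 : CertNd 0 1230186008 1045395039 1503240 (ftNearG true 3 mZ 1 1 19 1595) [⟨0, 1387392443⟩, ⟨1, 1739509918⟩, ⟨3, 508953625⟩] ndB5q3 cZ :=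
  certNd (T := (ftNearG true 3 mZ 1 1 19 1595)) (L := [⟨0, 1387392443⟩, ⟨1, 1739509918⟩, ⟨3, 508953625⟩]) (P1 := 0) (W1 := 1230186008) (P3 := 1045395039) (W3 := 1503240) (n := ndB5q3) (c := cZ)
    ⟨T.a (T.l 3) (T.a (T.l 0) (T.l 0)),
      by decide +kernel⟩
theorem cA_n10_63 : CertNd 0 1230186008 1045395039 1503240 (ftNearG true 3 mZ 1 1 19 1595) [⟨0, 1387392443⟩, ⟨1, 1739509918⟩, ⟨3, 508953625⟩] ndB6q3 cZ :=
  certNd (T := (ftNearG true 3 mZ 1 1 19 1595)) (L := [⟨0, 1387392443⟩, ⟨1, 1739509918⟩, ⟨3, 508953625⟩]) (P1 := 0) (W1 := 1230186008) (P3 := 1045395039) (W3 := 1503240) (n := ndB6q3) (c := cZ)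
    ⟨T.a (T.l 3) (T.l 5),
      by decide +kernel⟩
theorem cA_R10_2 : CertSd 1387392443 223220293 1045395039 1503240 (ftFarG true 2 mZ 1 1 19 1595 1024) [] idF (cnF 1024 1000) pcB2 dZ :=
  certSd (T := (ftFarG true 2 mZ 1 1 19 1595 1024)) (L := []) (P1 := 1387392443) (W1 := 223220293) (P3 := 1045395039) (W3 := 1503240) (Y := idF) (X := (cnF 1024 1000))
    (pc := pcB2) (c := dZ) ⟨T.l 0,
      by decide +kernel⟩
theorem cA_N10_2 : CertSd 1387392443 223220293 1045395039 1503240 (ftNearE true 2 mZ 1 1 19 1595) [] idF (cnF 474 1000) pcB2 dZ :=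
  certSd (T := (ftNearE true 2 mZ 1 1 19 1595)) (L := []) (P1 := 1387392443) (W1 := 223220293) (P3 := 1045395039) (W3 := 1503240) (Y := idF) (X := (cnF 474 1000))
    (pc := pcB2) (c := dZ) ⟨T.l 0,
      by decide +kernel⟩
theorem cA_R10_3 : CertSd 1610612736 121375984 1045395039 1503240 (ftFarG true 3 mZ 1 1 19 1595 1024) [] idF (cnF 1024 1000) pcB3 dZ :=
  certSd (T := (ftFarG true 3 mZ 1 1 19 1595 1024)) (L := []) (P1 := 1610612736) (W1 := 121375984) (P3 := 1045395039) (W3 := 1503240) (Y := idF) (X := (cnF 1024 1000))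
    (pc := pcB3) (c := dZ) ⟨T.l 0,
      by decide +kernel⟩
theorem cA_N10_3 : CertSd 1610612736 128897182 1045395039 1503240 (ftNearG true 3 mZ 1 1 19 1595) [] idF (cnF 474 1000) pcB3 dZ :=
  certSd (T := (ftNearG true 3 mZ 1 1 19 1595)) (L := []) (P1 := 1610612736) (W1 := 128897182) (P3 := 1045395039) (W3 := 1503240) (Y := idF) (X := (cnF 474 1000))
    (pc := pcB3) (c := dZ) ⟨T.l 0,
      by decide +kernel⟩

end Pool.Agent.Strip051.G.I9736_9750.Tab
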