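import Pool.Agent.Strip051.PB.FlAsmH
import Pool.Agent.Strip051.PB.PairU
import Pool.Agent.Strip051.G.I9736_9750.Tab

/-! # Slopes (generated) -/

set_option linter.all false
set_option maxRecDepth 100000

namespace Pool.Agent.Strip051.G.I9736_9750.Tab

open Pool.Agent.Strip051.PB

attribute [local irreducible] padd psub pneg pmul psq pinv psqrt psqrtg pabs pps pmax pmin pphi
  plam pcase phf pnat prat pscale pnorm pdc pnc pone ppos pnn pscaleT pwT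
  pwB0 pwB3 pmA pwL

noncomputable def c1g_sf : Sl1 c1g := ⟨_, fun h1 => (pr_sqrtg (pr_csub (enc_pnc _ 1) (pr_scaleT 3 4 (pr_sq h1))))⟩
noncomputable def kcg_6_sf : Sl2 kcg_6 := ⟨_, fun h1 h2 => (pr_addc h1 (enc_rat _ 1021 2246))⟩
noncomputable def kcg_9_sf : Sl2 kcg_9 := ⟨_, fun h1 h2 => (pr_addc h1 (enc_rat _ 483 1000))⟩
noncomputable def kcg_12_sf : Sl2 kcg_12 := ⟨_, fun h1 h2 => (pr_addc h1 (enc_rat _ 49 100))⟩
noncomputable def kcg_13_sf : Sl2 kcg_13 := ⟨_, fun h1 h2 => (pr_scaleT 229992423 10000000 h1)⟩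
noncomputable def kcg_18_sf : Sl2 kcg_18 := ⟨_, fun h1 h2 => (pr_scaleT 70258693 500000 h1)⟩
noncomputable def kcg_33_sf : Sl2 kcg_33 := ⟨_, fun h1 h2 => (pr_addc h1 (enc_rat _ 1 2))⟩
noncomputable def kcg_34_sf : Sl2 kcg_34 := ⟨_, fun h1 h2 => (pr_csub (enc_neg (enc_rat _ 49 100)) h1)⟩
noncomputable def kcg_39_sf : Sl2 kcg_39 := ⟨_, fun h1 h2 => (pr_scaleT 16099899 700000 h1)⟩
noncomputable def kcg_44_sf : Sl2 kcg_44 := ⟨_, fun h1 h2 => (pr_scaleT 876123 6250 h1)⟩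
noncomputable def kcg_58_sf : Sl2 kcg_58 := ⟨_, fun h1 h2 => (pr_csub (enc_neg (enc_rat _ 483 1000)) h1)⟩
noncomputable def kcg_66_sf : Sl2 kcg_66 := ⟨_, fun h1 h2 => (pr_addc h1 (enc_rat _ 661 1387))⟩
noncomputable def kcg_67_sf : Sl2 kcg_67 := ⟨_, fun h1 h2 => (pr_scaleT 69386579351 8921000000 h1)⟩
noncomputable def kcg_72_sf : Sl2 kcg_72 := ⟨_, fun h1 h2 => (pr_scaleT 23781336947 178420000 h1)⟩
noncomputable def kcg_86_sf : Sl2 kcg_86 := ⟨_, fun h1 h2 => (pr_csub (enc_neg (enc_rat _ 661 1387)) h1)⟩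
noncomputable def kcg_91_sf : Sl2 kcg_91 := ⟨_, fun h1 h2 => (pr_scaleT 254897149841669 34239500000000 h1)⟩
noncomputable def kcg_94_sf : Sl2 kcg_94 := ⟨_, fun h1 h2 => (pr_scaleT 43903431176171 427993750000 h1)⟩
noncomputable def kcg_108_sf : Sl2 kcg_108 := ⟨_, fun h1 h2 => (pr_csub (enc_neg (enc_rat _ 1021 2246)) h1)⟩
noncomputable def kcg_117_sf : Sl2 kcg_117 := ⟨_, fun h1 h2 => (pr_addc h1 (enc_rat _ 41 100))⟩
noncomputable def kcg_120_sf : Sl2 kcg_120 := ⟨_, fun h1 h2 => (pr_addc h1 (enc_rat _ 43 100))⟩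
noncomputable def kcg_121_sf : Sl2 kcg_121 := ⟨_, fun h1 h2 => (pr_scaleT 166344014517 27610000000 h1)⟩
noncomputable def kcg_124_sf : Sl2 kcg_124 := ⟨_, fun h1 h2 => (pr_scaleT 13025590529 251000000 h1)⟩
noncomputable def kcg_137_sf : Sl2 kcg_137 := ⟨_, fun h1 h2 => (pr_csub (enc_neg (enc_rat _ 43 100)) h1)⟩
noncomputable def kcg_142_sf : Sl2 kcg_142 := ⟨_, fun h1 h2 => (pr_scaleT 862321 250000 h1)⟩
noncomputable def kcg_145_sf : Sl2 kcg_145 := ⟨_, fun h1 h2 => (pr_scaleT 1075159 100000 h1)⟩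
noncomputable def kcg_158_sf : Sl2 kcg_158 := ⟨_, fun h1 h2 => (pr_csub (enc_neg (enc_rat _ 41 100)) h1)⟩
noncomputable def kcg_166_sf : Sl2 kcg_166 := ⟨_, fun h1 h2 => (pr_addc h1 (enc_rat _ 3 10))⟩
noncomputable def kcg_167_sf : Sl2 kcg_167 := ⟨_, fun h1 h2 => (pr_scaleT 4584697 2000000 h1)⟩
noncomputable def kcg_170_sf : Sl2 kcg_170 := ⟨_, fun h1 h2 => (pr_scaleT 390333 100000 h1)⟩
noncomputable def kcg_181_sf : Sl2 kcg_181 := ⟨_, fun h1 h2 => (pr_csub (enc_neg (enc_rat _ 3 10)) h1)⟩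
noncomputable def kcg_189_sf : Sl2 kcg_189 := ⟨_, fun h1 h2 => (pr_scaleT 228861 100000 h1)⟩
noncomputable def kcg_192_sf : Sl2 kcg_192 := ⟨_, fun h1 h2 => (pr_scaleT 36647 10000 h1)⟩
noncomputable def kcg_201_sf : Sl2 kcg_201 := ⟨_, fun h1 h2 => (pr_csub (enc_neg (enc_rat _ 1 10)) h1)⟩
noncomputable def kcg_206_sf : Sl2 kcg_206 := ⟨_, fun h1 h2 => (pr_scaleT 14291 6250 h1)⟩
noncomputable def kcg_209_sf : Sl2 kcg_209 := ⟨_, fun h1 h2 => (pr_cmul (enc_norm (kcg_3.enc h1.l h2)) (pr_nd (pr_scaleT 6591 2000 h1)))⟩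
noncomputable def kcg_216_sf : Sl2 kcg_216 := ⟨_, fun h1 h2 => (pr_csub (enc_rat _ 1021 2246) h1)⟩
noncomputable def kcg_217_sf : Sl2 kcg_217 := ⟨_, fun h1 h2 => (pr_csub (enc_rat _ 483 1000) h1)⟩
noncomputable def kcg_218_sf : Sl2 kcg_218 := ⟨_, fun h1 h2 => (pr_csub (enc_rat _ 49 100) h1)⟩
noncomputable def kcg_223_sf : Sl2 kcg_223 := ⟨_, fun h1 h2 => (pr_csub (enc_rat _ 1 2) h1)⟩
noncomputable def kcg_224_sf : Sl2 kcg_224 := ⟨_, fun h1 h2 => (pr_subr 49 100 h1)⟩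
noncomputable def kcg_233_sf : Sl2 kcg_233 := ⟨_, fun h1 h2 => (pr_subr 483 1000 h1)⟩
noncomputable def kcg_239_sf : Sl2 kcg_239 := ⟨_, fun h1 h2 => (pr_csub (enc_rat _ 661 1387) h1)⟩
noncomputable def kcg_244_sf : Sl2 kcg_244 := ⟨_, fun h1 h2 => (pr_subr 661 1387 h1)⟩
noncomputable def kcg_254_sf : Sl2 kcg_254 := ⟨_, fun h1 h2 => (pr_subr 1021 2246 h1)⟩
noncomputable def kcg_261_sf : Sl2 kcg_261 := ⟨_, fun h1 h2 => (pr_csub (enc_rat _ 41 100) h1)⟩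
noncomputable def kcg_262_sf : Sl2 kcg_262 := ⟨_, fun h1 h2 => (pr_csub (enc_rat _ 43 100) h1)⟩
noncomputable def kcg_268_sf : Sl2 kcg_268 := ⟨_, fun h1 h2 => (pr_subr 43 100 h1)⟩
noncomputable def kcg_278_sf : Sl2 kcg_278 := ⟨_, fun h1 h2 => (pr_subr 41 100 h1)⟩
noncomputable def kcg_284_sf : Sl2 kcg_284 := ⟨_, fun h1 h2 => (pr_csub (enc_rat _ 3 10) h1)⟩
noncomputable def kcg_291_sf : Sl2 kcg_291 := ⟨_, fun h1 h2 => (pr_subr 3 10 h1)⟩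
noncomputable def kcg_303_sf : Sl2 kcg_303 := ⟨_, fun h1 h2 => (pr_subr 1 10 h1)⟩
noncomputable def kcg_sf : Sl2 kcg := ⟨_, fun h1 h2 => (pr_norm (pr_case h1 (pr_case (kcg_6_sf.snd h1 h2) (pr_case (kcg_9_sf.snd h1 h2) (pr_case (kcg_12_sf.snd h1 h2) (pr_add (pr_add (pr_subr 12377897327 1000000000 (pr_neg (kcg_13_sf.snd h1 h2))) (pr_cmul (enc_norm (kcg_3.enc h1.l h2)) (pr_norm (pr_subr 3238049231 50000000 (pr_neg (kcg_18_sf.snd h1 h2)))))) (pr_mA (pr_cmul (enc_norm (kcg_30.enc h1.l h2)) (pr_norm (pr_mul (pr_norm (kcg_33_sf.snd h1 h2)) (pr_norm (kcg_34_sf.snd h1 h2))))) (pr_const (kcg_30.enc h1.l h2)) (kcg_33_sf.snd h1 h2) (kcg_34_sf.snd h1 h2) rfl rfl)) (pr_add (pr_add (pr_subr 123781979 10000000 (pr_neg (kcg_39_sf.snd h1 h2))) (pr_cmul (enc_norm (kcg_3.enc h1.l h2)) (pr_norm (pr_subr 1614887717 25000000 (pr_neg (kcg_44_sf.snd h1 h2)))))) (pr_mA (pr_cmul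 (enc_norm (kcg_57.enc h1.l h2)) (pr_norm (pr_mul (pr_norm (kcg_12_sf.snd h1 h2)) (pr_norm (kcg_58_sf.snd h1 h2))))) (pr_const (kcg_57.enc h1.l h2)) (kcg_12_sf.snd h1 h2) (kcg_58_sf.snd h1 h2) rfl rfl))) (pr_case (kcg_66_sf.snd h1 h2) (pr_add (pr_add (pr_subr 44836853996923 8921000000000 (pr_neg (kcg_67_sf.snd h1 h2))) (pr_cmul (enc_norm (kcg_3.enc h1.l h2)) (pr_norm (pr_subr 54656358729409 892100000000 (pr_neg (kcg_72_sf.snd h1 h2)))))) (pr_mA (pr_cmul (enc_norm (kcg_85.enc h1.l h2)) (pr_norm (pr_mul (pr_norm (kcg_9_sf.snd h1 h2)) (pr_norm (kcg_86_sf.snd h1 h2))))) (pr_const (kcg_85.enc h1.l h2)) (kcg_9_sf.snd h1 h2) (kcg_86_sf.snd h1 h2) rfl rfl)) (pr_add (pr_add (pr_addc (kcg_91_sf.snd h1 h2) (enc_rat _ 152607786148737 68479000000000)) (pr_cmul (enc_norm (kcg_3.enc h1.l h2)) (pr_norm (pr_subr 319332571208399 6847900000000 (pr_neg (kcg_94_sf.snd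 h1 h2)))))) (pr_mA (pr_cmul (enc_norm (kcg_107.enc h1.l h2)) (pr_norm (pr_mul (pr_norm (kcg_66_sf.snd h1 h2)) (pr_norm (kcg_108_sf.snd h1 h2))))) (pr_const (kcg_107.enc h1.l h2)) (kcg_66_sf.snd h1 h2) (kcg_108_sf.snd h1 h2) rfl rfl)))) (pr_case (kcg_117_sf.snd h1 h2) (pr_case (kcg_120_sf.snd h1 h2) (pr_add (pr_add (pr_addc (kcg_121_sf.snd h1 h2) (enc_rat _ 273189021301 172562500000)) (pr_cmul (enc_norm (kcg_3.enc h1.l h2)) (pr_norm (pr_subr 592148687697 25100000000 (pr_neg (kcg_124_sf.snd h1 h2)))))) (pr_mA (pr_cmul (enc_norm (kcg_136.enc h1.l h2)) (pr_norm (pr_mul (pr_norm (kcg_6_sf.snd h1 h2)) (pr_norm (kcg_137_sf.snd h1 h2))))) (pr_const (kcg_136.enc h1.l h2)) (kcg_6_sf.snd h1 h2) (kcg_137_sf.snd h1 h2) rfl rfl)) (pr_add (pr_add (pr_addc (kcg_142_sf.snd h1 h2) (enc_rat _ 95134021 200000000)) (pr_cmul (enc_norm (kcg_3.enc h1.l h2)) (pr_norm (pr_subr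 29500041 5000000 (pr_neg (kcg_145_sf.snd h1 h2)))))) (pr_mA (pr_cmul (enc_norm (kcg_157.enc h1.l h2)) (pr_norm (pr_mul (pr_norm (kcg_120_sf.snd h1 h2)) (pr_norm (kcg_158_sf.snd h1 h2))))) (pr_const (kcg_157.enc h1.l h2)) (kcg_120_sf.snd h1 h2) (kcg_158_sf.snd h1 h2) rfl rfl))) (pr_case (kcg_166_sf.snd h1 h2) (pr_add (pr_add (pr_addc (kcg_167_sf.snd h1 h2) (enc_rat _ 26531 20000000)) (pr_cmul (enc_norm (kcg_3.enc h1.l h2)) (pr_norm (pr_addc (kcg_170_sf.snd h1 h2) (enc_rat _ 108509 1000000))))) (pr_mA (pr_cmul (enc_norm (kcg_180.enc h1.l h2)) (pr_norm (pr_mul (pr_norm (kcg_117_sf.snd h1 h2)) (pr_norm (kcg_181_sf.snd h1 h2))))) (pr_const (kcg_180.enc h1.l h2)) (kcg_117_sf.snd h1 h2) (kcg_181_sf.snd h1 h2) rfl rfl)) (pr_case (pr_addc h1 (enc_rat _ 1 10)) (pr_add (pr_add (pr_addc (kcg_189_sf.snd h1 h2) (enc_rat _ 41 200000)) (pr_cmul (enc_norm (kcg_3.enc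 h1.l h2)) (pr_norm (pr_addc (kcg_192_sf.snd h1 h2) (enc_rat _ 923 25000))))) (pr_mA (pr_cmul (enc_norm (kcg_200.enc h1.l h2)) (pr_norm (pr_mul (pr_norm (kcg_166_sf.snd h1 h2)) (pr_norm (kcg_201_sf.snd h1 h2))))) (pr_const (kcg_200.enc h1.l h2)) (kcg_166_sf.snd h1 h2) (kcg_201_sf.snd h1 h2) rfl rfl)) (pr_add (kcg_206_sf.snd h1 h2) (kcg_209_sf.snd h1 h2)))))) (pr_neg (pr_case (kcg_216_sf.snd h1 h2) (pr_case (kcg_217_sf.snd h1 h2) (pr_case (kcg_218_sf.snd h1 h2) (pr_add (pr_add (pr_subr 12377897327 1000000000 (kcg_13_sf.snd h1 h2)) (pr_cmul (enc_norm (kcg_3.enc h1.l h2)) (pr_norm (pr_subr 3238049231 50000000 (kcg_18_sf.snd h1 h2))))) (pr_mA (pr_cmul (enc_norm (kcg_30.enc h1.l h2)) (pr_norm (pr_mul (pr_norm (kcg_223_sf.snd h1 h2)) (pr_norm (kcg_224_sf.snd h1 h2))))) (pr_const (kcg_30.enc h1.l h2)) (kcg_223_sf.snd h1 h2) (kcg_224_sf.snd h1 h2) rfl rfl))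 (pr_add (pr_add (pr_subr 123781979 10000000 (kcg_39_sf.snd h1 h2)) (pr_cmul (enc_norm (kcg_3.enc h1.l h2)) (pr_norm (pr_subr 1614887717 25000000 (kcg_44_sf.snd h1 h2))))) (pr_mA (pr_cmul (enc_norm (kcg_57.enc h1.l h2)) (pr_norm (pr_mul (pr_norm (kcg_218_sf.snd h1 h2)) (pr_norm (kcg_233_sf.snd h1 h2))))) (pr_const (kcg_57.enc h1.l h2)) (kcg_218_sf.snd h1 h2) (kcg_233_sf.snd h1 h2) rfl rfl))) (pr_case (kcg_239_sf.snd h1 h2) (pr_add (pr_add (pr_subr 44836853996923 8921000000000 (kcg_67_sf.snd h1 h2)) (pr_cmul (enc_norm (kcg_3.enc h1.l h2)) (pr_norm (pr_subr 54656358729409 892100000000 (kcg_72_sf.snd h1 h2))))) (pr_mA (pr_cmul (enc_norm (kcg_85.enc h1.l h2)) (pr_norm (pr_mul (pr_norm (kcg_217_sf.snd h1 h2)) (pr_norm (kcg_244_sf.snd h1 h2))))) (pr_const (kcg_85.enc h1.l h2)) (kcg_217_sf.snd h1 h2) (kcg_244_sf.snd h1 h2) rfl rfl)) (pr_add (pr_add (pr_csub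 (enc_rat _ 152607786148737 68479000000000) (kcg_91_sf.snd h1 h2)) (pr_cmul (enc_norm (kcg_3.enc h1.l h2)) (pr_norm (pr_subr 319332571208399 6847900000000 (kcg_94_sf.snd h1 h2))))) (pr_mA (pr_cmul (enc_norm (kcg_107.enc h1.l h2)) (pr_norm (pr_mul (pr_norm (kcg_239_sf.snd h1 h2)) (pr_norm (kcg_254_sf.snd h1 h2))))) (pr_const (kcg_107.enc h1.l h2)) (kcg_239_sf.snd h1 h2) (kcg_254_sf.snd h1 h2) rfl rfl)))) (pr_case (kcg_261_sf.snd h1 h2) (pr_case (kcg_262_sf.snd h1 h2) (pr_add (pr_add (pr_csub (enc_rat _ 273189021301 172562500000) (kcg_121_sf.snd h1 h2)) (pr_cmul (enc_norm (kcg_3.enc h1.l h2)) (pr_norm (pr_subr 592148687697 25100000000 (kcg_124_sf.snd h1 h2))))) (pr_mA (pr_cmul (enc_norm (kcg_136.enc h1.l h2)) (pr_norm (pr_mul (pr_norm (kcg_216_sf.snd h1 h2)) (pr_norm (kcg_268_sf.snd h1 h2))))) (pr_const (kcg_136.enc h1.l h2)) (kcg_216_sf.snd h1 h2) (kcg_268_sf.snd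 h1 h2) rfl rfl)) (pr_add (pr_add (pr_csub (enc_rat _ 95134021 200000000) (kcg_142_sf.snd h1 h2)) (pr_cmul (enc_norm (kcg_3.enc h1.l h2)) (pr_norm (pr_subr 29500041 5000000 (kcg_145_sf.snd h1 h2))))) (pr_mA (pr_cmul (enc_norm (kcg_157.enc h1.l h2)) (pr_norm (pr_mul (pr_norm (kcg_262_sf.snd h1 h2)) (pr_norm (kcg_278_sf.snd h1 h2))))) (pr_const (kcg_157.enc h1.l h2)) (kcg_262_sf.snd h1 h2) (kcg_278_sf.snd h1 h2) rfl rfl))) (pr_case (kcg_284_sf.snd h1 h2) (pr_add (pr_add (pr_csub (enc_rat _ 26531 20000000) (kcg_167_sf.snd h1 h2)) (pr_cmul (enc_norm (kcg_3.enc h1.l h2)) (pr_norm (pr_csub (enc_rat _ 108509 1000000) (kcg_170_sf.snd h1 h2))))) (pr_mA (pr_cmul (enc_norm (kcg_180.enc h1.l h2)) (pr_norm (pr_mul (pr_norm (kcg_261_sf.snd h1 h2)) (pr_norm (kcg_291_sf.snd h1 h2))))) (pr_const (kcg_180.enc h1.l h2)) (kcg_261_sf.snd h1 h2) (kcg_291_sf.snd h1 h2) rfl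 rfl)) (pr_case (pr_csub (enc_rat _ 1 10) h1) (pr_add (pr_add (pr_csub (enc_rat _ 41 200000) (kcg_189_sf.snd h1 h2)) (pr_cmul (enc_norm (kcg_3.enc h1.l h2)) (pr_norm (pr_csub (enc_rat _ 923 25000) (kcg_192_sf.snd h1 h2))))) (pr_mA (pr_cmul (enc_norm (kcg_200.enc h1.l h2)) (pr_norm (pr_mul (pr_norm (kcg_284_sf.snd h1 h2)) (pr_norm (kcg_303_sf.snd h1 h2))))) (pr_const (kcg_200.enc h1.l h2)) (kcg_284_sf.snd h1 h2) (kcg_303_sf.snd h1 h2) rfl rfl)) (pr_sub (pr_neg (kcg_206_sf.snd h1 h2)) (kcg_209_sf.snd h1 h2)))))))))⟩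
noncomputable def kf0q0_9_sf : Sl2 kf0q0_9 := ⟨_, fun h1 h2 => (pr_scaleT 3 2 h1)⟩
noncomputable def kf0q0_12_sf : Sl2 kf0q0_12 := ⟨_, fun h1 h2 => (pr_cadd (enc_pnc _ 1) (c1g_sf.snd h1))⟩
noncomputable def kf0q0_sf : Sl2 kf0q0 := ⟨_, fun h1 h2 => (pr_norm (pr_add (pr_mul (pr_norm (pr_mul (pr_norm (pr_sub (c1g_sf.snd h1) (kf0q0_9_sf.snd h1 h2))) (pr_norm (kf0q0_12_sf.snd h1 h2)))) (pr_nd (pr_inv (pr_sub (kf0q0_12_sf.snd h1 h2) (kf0q0_9_sf.snd h1 h2))))) (pr_mul h1 (kcg_sf.snd (pr_norm (pr_sub (pr_scaleT 3 4 h1) (pr_half (c1g_sf.snd h1)))) h2))))⟩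
noncomputable def txg_6_sf : Sl3 txg_6 := ⟨_, fun h1 h2 h3 => (pr_add h1 (pr_half h2))⟩
noncomputable def txg_26_sf : Sl3 txg_26 := ⟨_, fun h1 h2 h3 => (pr_addc h1 (enc_rat _ 1 5))⟩
noncomputable def txg_29_sf : Sl3 txg_29 := ⟨_, fun h1 h2 h3 => (pr_addc h1 (enc_rat _ 21 50))⟩
noncomputable def txg_32_sf : Sl3 txg_32 := ⟨_, fun h1 h2 h3 => (pr_addc h1 (enc_rat _ 23 50))⟩
noncomputable def txg_35_sf : Sl3 txg_35 := ⟨_, fun h1 h2 h3 => (pr_addc h1 (enc_rat _ 483 1000))⟩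
noncomputable def txg_38_sf : Sl3 txg_38 := ⟨_, fun h1 h2 h3 => (pr_addc h1 (enc_rat _ 49 100))⟩
noncomputable def txg_58_sf : Sl3 txg_58 := ⟨_, fun h1 h2 h3 => (pr_addc h1 (enc_rat _ 1 2))⟩
noncomputable def txg_59_sf : Sl3 txg_59 := ⟨_, fun h1 h2 h3 => (pr_csub (enc_neg (enc_rat _ 49 100)) h1)⟩
noncomputable def txg_78_sf : Sl3 txg_78 := ⟨_, fun h1 h2 h3 => (pr_csub (enc_neg (enc_rat _ 483 1000)) h1)⟩
noncomputable def txg_86_sf : Sl3 txg_86 := ⟨_, fun h1 h2 h3 => (pr_addc h1 (enc_rat _ 59571 125000))⟩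
noncomputable def txg_101_sf : Sl3 txg_101 := ⟨_, fun h1 h2 h3 => (pr_csub (enc_neg (enc_rat _ 59571 125000)) h1)⟩
noncomputable def txg_122_sf : Sl3 txg_122 := ⟨_, fun h1 h2 h3 => (pr_csub (enc_neg (enc_rat _ 23 50)) h1)⟩
noncomputable def txg_131_sf : Sl3 txg_131 := ⟨_, fun h1 h2 h3 => (pr_addc h1 (enc_rat _ 11 25))⟩
noncomputable def txg_134_sf : Sl3 txg_134 := ⟨_, fun h1 h2 h3 => (pr_addc h1 (enc_rat _ 227293 500000))⟩
noncomputable def txg_153_sf : Sl3 txg_153 := ⟨_, fun h1 h2 h3 => (pr_csub (enc_neg (enc_rat _ 227293 500000)) h1)⟩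
noncomputable def txg_173_sf : Sl3 txg_173 := ⟨_, fun h1 h2 h3 => (pr_csub (enc_neg (enc_rat _ 11 25)) h1)⟩
noncomputable def txg_181_sf : Sl3 txg_181 := ⟨_, fun h1 h2 h3 => (pr_addc h1 (enc_rat _ 43 100))⟩
noncomputable def txg_197_sf : Sl3 txg_197 := ⟨_, fun h1 h2 h3 => (pr_csub (enc_neg (enc_rat _ 43 100)) h1)⟩
noncomputable def txg_217_sf : Sl3 txg_217 := ⟨_, fun h1 h2 h3 => (pr_csub (enc_neg (enc_rat _ 21 50)) h1)⟩
noncomputable def txg_227_sf : Sl3 txg_227 := ⟨_, fun h1 h2 h3 => (pr_addc h1 (enc_rat _ 3 8))⟩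
noncomputable def txg_230_sf : Sl3 txg_230 := ⟨_, fun h1 h2 h3 => (pr_addc h1 (enc_rat _ 2 5))⟩
noncomputable def txg_233_sf : Sl3 txg_233 := ⟨_, fun h1 h2 h3 => (pr_addc h1 (enc_rat _ 41 100))⟩
noncomputable def txg_249_sf : Sl3 txg_249 := ⟨_, fun h1 h2 h3 => (pr_csub (enc_neg (enc_rat _ 41 100)) h1)⟩
noncomputable def txg_269_sf : Sl3 txg_269 := ⟨_, fun h1 h2 h3 => (pr_csub (enc_neg (enc_rat _ 2 5)) h1)⟩
noncomputable def txg_277_sf : Sl3 txg_277 := ⟨_, fun h1 h2 h3 => (pr_addc h1 (enc_rat _ 39 100))⟩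
noncomputable def txg_293_sf : Sl3 txg_293 := ⟨_, fun h1 h2 h3 => (pr_csub (enc_neg (enc_rat _ 39 100)) h1)⟩
noncomputable def txg_313_sf : Sl3 txg_313 := ⟨_, fun h1 h2 h3 => (pr_csub (enc_neg (enc_rat _ 3 8)) h1)⟩
noncomputable def txg_322_sf : Sl3 txg_322 := ⟨_, fun h1 h2 h3 => (pr_addc h1 (enc_rat _ 3 10))⟩
noncomputable def txg_325_sf : Sl3 txg_325 := ⟨_, fun h1 h2 h3 => (pr_addc h1 (enc_rat _ 7 20))⟩
noncomputable def txg_338_sf : Sl3 txg_338 := ⟨_, fun h1 h2 h3 => (pr_csub (enc_neg (enc_rat _ 7 20)) h1)⟩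
noncomputable def txg_355_sf : Sl3 txg_355 := ⟨_, fun h1 h2 h3 => (pr_csub (enc_neg (enc_rat _ 3 10)) h1)⟩
noncomputable def txg_363_sf : Sl3 txg_363 := ⟨_, fun h1 h2 h3 => (pr_addc h1 (enc_rat _ 1 4))⟩
noncomputable def txg_377_sf : Sl3 txg_377 := ⟨_, fun h1 h2 h3 => (pr_csub (enc_neg (enc_rat _ 1 4)) h1)⟩
noncomputable def txg_397_sf : Sl3 txg_397 := ⟨_, fun h1 h2 h3 => (pr_csub (enc_neg (enc_rat _ 1 5)) h1)⟩
noncomputable def txg_406_sf : Sl3 txg_406 := ⟨_, fun h1 h2 h3 => (pr_subr 7 20 h1)⟩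
noncomputable def txg_408_sf : Sl3 txg_408 := ⟨_, fun h1 h2 h3 => (pr_subr 3 20 h1)⟩
noncomputable def txg_411_sf : Sl3 txg_411 := ⟨_, fun h1 h2 h3 => (pr_addc h1 (enc_rat _ 1 10))⟩
noncomputable def txg_413_sf : Sl3 txg_413 := ⟨_, fun h1 h2 h3 => (pr_addc h1 (enc_rat _ 3 20))⟩
noncomputable def txg_429_sf : Sl3 txg_429 := ⟨_, fun h1 h2 h3 => (pr_csub (enc_neg (enc_rat _ 3 20)) h1)⟩
noncomputable def txg_449_sf : Sl3 txg_449 := ⟨_, fun h1 h2 h3 => (pr_csub (enc_neg (enc_rat _ 1 10)) h1)⟩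
noncomputable def txg_455_sf : Sl3 txg_455 := ⟨_, fun h1 h2 h3 => (pr_subr 1 10 h1)⟩
noncomputable def txg_471_sf : Sl3 txg_471 := ⟨_, fun h1 h2 h3 => (pr_csub (enc_rat _ 1 10) h1)⟩
noncomputable def txg_491_sf : Sl3 txg_491 := ⟨_, fun h1 h2 h3 => (pr_csub (enc_rat _ 3 20) h1)⟩
noncomputable def txg_498_sf : Sl3 txg_498 := ⟨_, fun h1 h2 h3 => (pr_subr 1 4 h1)⟩
noncomputable def txg_499_sf : Sl3 txg_499 := ⟨_, fun h1 h2 h3 => (pr_subr 1 5 h1)⟩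
noncomputable def txg_513_sf : Sl3 txg_513 := ⟨_, fun h1 h2 h3 => (pr_csub (enc_rat _ 1 5) h1)⟩
noncomputable def txg_532_sf : Sl3 txg_532 := ⟨_, fun h1 h2 h3 => (pr_csub (enc_rat _ 1 4) h1)⟩
noncomputable def txg_538_sf : Sl3 txg_538 := ⟨_, fun h1 h2 h3 => (pr_subr 3 10 h1)⟩
noncomputable def txg_553_sf : Sl3 txg_553 := ⟨_, fun h1 h2 h3 => (pr_csub (enc_rat _ 3 10) h1)⟩
noncomputable def txg_572_sf : Sl3 txg_572 := ⟨_, fun h1 h2 h3 => (pr_csub (enc_rat _ 7 20) h1)⟩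
noncomputable def txg_580_sf : Sl3 txg_580 := ⟨_, fun h1 h2 h3 => (pr_subr 41 100 h1)⟩
noncomputable def txg_581_sf : Sl3 txg_581 := ⟨_, fun h1 h2 h3 => (pr_subr 39 100 h1)⟩
noncomputable def txg_582_sf : Sl3 txg_582 := ⟨_, fun h1 h2 h3 => (pr_subr 3 8 h1)⟩
noncomputable def txg_599_sf : Sl3 txg_599 := ⟨_, fun h1 h2 h3 => (pr_csub (enc_rat _ 3 8) h1)⟩
noncomputable def txg_618_sf : Sl3 txg_618 := ⟨_, fun h1 h2 h3 => (pr_csub (enc_rat _ 39 100) h1)⟩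
noncomputable def txg_624_sf : Sl3 txg_624 := ⟨_, fun h1 h2 h3 => (pr_subr 2 5 h1)⟩
noncomputable def txg_641_sf : Sl3 txg_641 := ⟨_, fun h1 h2 h3 => (pr_csub (enc_rat _ 2 5) h1)⟩
noncomputable def txg_662_sf : Sl3 txg_662 := ⟨_, fun h1 h2 h3 => (pr_csub (enc_rat _ 41 100) h1)⟩
noncomputable def txg_669_sf : Sl3 txg_669 := ⟨_, fun h1 h2 h3 => (pr_subr 43 100 h1)⟩
noncomputable def txg_670_sf : Sl3 txg_670 := ⟨_, fun h1 h2 h3 => (pr_subr 21 50 h1)⟩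
noncomputable def txg_688_sf : Sl3 txg_688 := ⟨_, fun h1 h2 h3 => (pr_csub (enc_rat _ 21 50) h1)⟩
noncomputable def txg_710_sf : Sl3 txg_710 := ⟨_, fun h1 h2 h3 => (pr_csub (enc_rat _ 43 100) h1)⟩
noncomputable def txg_716_sf : Sl3 txg_716 := ⟨_, fun h1 h2 h3 => (pr_subr 11 25 h1)⟩
noncomputable def txg_734_sf : Sl3 txg_734 := ⟨_, fun h1 h2 h3 => (pr_csub (enc_rat _ 11 25) h1)⟩
noncomputable def txg_765_sf : Sl3 txg_765 := ⟨_, fun h1 h2 h3 => (pr_csub (enc_rat _ 1021 2246) h1)⟩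
noncomputable def txg_776_sf : Sl3 txg_776 := ⟨_, fun h1 h2 h3 => (pr_subr 661 1387 h1)⟩
noncomputable def txg_777_sf : Sl3 txg_777 := ⟨_, fun h1 h2 h3 => (pr_subr 483 1000 h1)⟩
noncomputable def txg_801_sf : Sl3 txg_801 := ⟨_, fun h1 h2 h3 => (pr_csub (enc_rat _ 483 1000) h1)⟩
noncomputable def txg_806_sf : Sl3 txg_806 := ⟨_, fun h1 h2 h3 => (pr_subr 49 100 h1)⟩
noncomputable def txg_822_sf : Sl3 txg_822 := ⟨_, fun h1 h2 h3 => (pr_csub (enc_rat _ 49 100) h1)⟩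
noncomputable def txg_844_sf : Sl3 txg_844 := ⟨_, fun h1 h2 h3 => (pr_csub (enc_rat _ 1 2) h1)⟩
noncomputable def txg_sf : Sl3 txg := ⟨_, fun h1 h2 h3 => (pr_case (pr_subr 1021 2246 h1) (pr_case (txg_26_sf.snd h1 h2 h3) (pr_case (txg_29_sf.snd h1 h2 h3) (pr_case (txg_32_sf.snd h1 h2 h3) (pr_case (txg_35_sf.snd h1 h2 h3) (pr_case (txg_38_sf.snd h1 h2 h3) (pr_add (pr_add (pr_addc (pr_scaleT 16399 250000 h1) (enc_rat _ 16399 500000)) (pr_cmul (enc_norm (txg_4.enc h1.l h2.l h3)) (pr_norm (pr_subr 63553 40000 (pr_neg (pr_scaleT 63553 20000 h1)))))) (pr_mA (pr_cmul (enc_norm (txg_55.enc h1.l h2.l h3)) (pr_norm (pr_mul (pr_norm (txg_58_sf.snd h1 h2 h3)) (pr_norm (txg_59_sf.snd h1 h2 h3))))) (pr_const (txg_55.enc h1.l h2.l h3)) (txg_58_sf.snd h1 h2 h3) (txg_59_sf.snd h1 h2 h3) rfl rfl)) (pr_add (pr_add (pr_addc (pr_scaleT 29129 350000 h1) (enc_rat _ 517957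 12500000)) (pr_cmul (enc_norm (txg_4.enc h1.l h2.l h3)) (pr_norm (pr_subr 38451 2000000 (pr_scaleT 1793 70000 h1))))) (pr_mA (pr_cmul (enc_norm (txg_77.enc h1.l h2.l h3)) (pr_norm (pr_mul (pr_norm (txg_38_sf.snd h1 h2 h3)) (pr_norm (txg_78_sf.snd h1 h2 h3))))) (pr_const (txg_77.enc h1.l h2.l h3)) (txg_38_sf.snd h1 h2 h3) (txg_78_sf.snd h1 h2 h3) rfl rfl))) (pr_case (txg_86_sf.snd h1 h2 h3) (pr_add (pr_add (pr_addc (pr_scaleT 1843 32160 h1) (enc_rat _ 193750093 6700000000)) (pr_cmul (enc_norm (txg_4.enc h1.l h2.l h3)) (pr_norm (pr_subr 2027366871 2680000000 (pr_neg (pr_scaleT 32177 21440 h1)))))) (pr_mA (pr_cmul (enc_norm (txg_100.enc h1.l h2.l h3)) (pr_norm (pr_mul (pr_norm (txg_35_sf.snd h1 h2 h3)) (pr_norm (txg_101_sf.snd h1 h2 h3))))) (pr_const (txg_100.enc h1.l h2.l h3)) (txg_35_sf.snd h1 h2 h3) (txg_101_sf.snd h1 h2 h3) rfl rfl)) (pr_add (pr_add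 (pr_addc (pr_scaleT 279 103550 h1) (enc_rat _ 299381819 103550000000)) (pr_cmul (enc_norm (txg_4.enc h1.l h2.l h3)) (pr_norm (pr_subr 22248622653 20710000000 (pr_neg (pr_scaleT 17957 8284 h1)))))) (pr_mA (pr_cmul (enc_norm (txg_121.enc h1.l h2.l h3)) (pr_norm (pr_mul (pr_norm (txg_86_sf.snd h1 h2 h3)) (pr_norm (txg_122_sf.snd h1 h2 h3))))) (pr_const (txg_121.enc h1.l h2.l h3)) (txg_86_sf.snd h1 h2 h3) (txg_122_sf.snd h1 h2 h3) rfl rfl)))) (pr_case (txg_131_sf.snd h1 h2 h3) (pr_case (txg_134_sf.snd h1 h2 h3) (pr_add (pr_add (pr_subr 1099851577 135350000000 (pr_neg (pr_scaleT 2877 135350 h1))) (pr_cmul (enc_norm (txg_4.enc h1.l h2.l h3)) (pr_norm (pr_subr 18391007601 27070000000 (pr_neg (pr_scaleT 70879 54140 h1)))))) (pr_mA (pr_cmul (enc_norm (txg_152.enc h1.l h2.l h3)) (pr_norm (pr_mul (pr_norm (txg_32_sf.snd h1 h2 h3)) (pr_norm (txg_153_sf.snd h1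 h2 h3))))) (pr_const (txg_152.enc h1.l h2.l h3)) (txg_32_sf.snd h1 h2 h3) (txg_153_sf.snd h1 h2 h3) rfl rfl)) (pr_add (pr_add (pr_addc (pr_scaleT 3853 37400 h1) (enc_rat _ 82226929 1700000000)) (pr_cmul (enc_norm (txg_4.enc h1.l h2.l h3)) (pr_norm (pr_addc (pr_scaleT 108593 29172 h1) (enc_rat _ 10660693709 6630000000))))) (pr_mA (pr_cmul (enc_norm (txg_172.enc h1.l h2.l h3)) (pr_norm (pr_mul (pr_norm (txg_134_sf.snd h1 h2 h3)) (pr_norm (txg_173_sf.snd h1 h2 h3))))) (pr_const (txg_172.enc h1.l h2.l h3)) (txg_134_sf.snd h1 h2 h3) (txg_173_sf.snd h1 h2 h3) rfl rfl))) (pr_case (txg_181_sf.snd h1 h2 h3) (pr_add (pr_add (pr_addc (pr_scaleT 157409 500000 h1) (enc_rat _ 14155929 100000000)) (pr_cmul (enc_norm (txg_4.enc h1.l h2.l h3)) (pr_norm (pr_addc (pr_scaleT 108283 10000 h1) (enc_rat _ 47344963 10000000))))) (pr_mA (pr_cmul (enc_norm (txg_196.enc h1.l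 h2.l h3)) (pr_norm (pr_mul (pr_norm (txg_131_sf.snd h1 h2 h3)) (pr_norm (txg_197_sf.snd h1 h2 h3))))) (pr_const (txg_196.enc h1.l h2.l h3)) (txg_131_sf.snd h1 h2 h3) (txg_197_sf.snd h1 h2 h3) rfl rfl)) (pr_add (pr_add (pr_addc (pr_scaleT 486869 1000000 h1) (enc_rat _ 10777061 50000000)) (pr_cmul (enc_norm (txg_4.enc h1.l h2.l h3)) (pr_norm (pr_addc (pr_scaleT 1625647 100000 h1) (enc_rat _ 35343047 5000000))))) (pr_mA (pr_cmul (enc_norm (txg_216.enc h1.l h2.l h3)) (pr_norm (pr_mul (pr_norm (txg_181_sf.snd h1 h2 h3)) (pr_norm (txg_217_sf.snd h1 h2 h3))))) (pr_const (txg_216.enc h1.l h2.l h3)) (txg_181_sf.snd h1 h2 h3) (txg_217_sf.snd h1 h2 h3) rfl rfl))))) (pr_case (txg_227_sf.snd h1 h2 h3) (pr_case (txg_230_sf.snd h1 h2 h3) (pr_case (txg_233_sf.snd h1 h2 h3) (pr_add (pr_add (pr_addc (pr_scaleT 657829 1000000 h1) (enc_rat _ 14367221 50000000)) (pr_cmul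 (enc_norm (txg_4.enc h1.l h2.l h3)) (pr_norm (pr_addc (pr_scaleT 2147721 100000 h1) (enc_rat _ 46306601 5000000))))) (pr_mA (pr_cmul (enc_norm (txg_248.enc h1.l h2.l h3)) (pr_norm (pr_mul (pr_norm (txg_29_sf.snd h1 h2 h3)) (pr_norm (txg_249_sf.snd h1 h2 h3))))) (pr_const (txg_248.enc h1.l h2.l h3)) (txg_29_sf.snd h1 h2 h3) (txg_249_sf.snd h1 h2 h3) rfl rfl)) (pr_add (pr_add (pr_addc (pr_scaleT 790013 1000000 h1) (enc_rat _ 17076993 50000000)) (pr_cmul (enc_norm (txg_4.enc h1.l h2.l h3)) (pr_norm (pr_addc (pr_scaleT 2621707 100000 h1) (enc_rat _ 28011657 2500000))))) (pr_mA (pr_cmul (enc_norm (txg_268.enc h1.l h2.l h3)) (pr_norm (pr_mul (pr_norm (txg_233_sf.snd h1 h2 h3)) (pr_norm (txg_269_sf.snd h1 h2 h3))))) (pr_const (txg_268.enc h1.l h2.l h3)) (txg_233_sf.snd h1 h2 h3) (txg_269_sf.snd h1 h2 h3) rfl rfl))) (pr_case (txg_277_sf.snd h1 h2 h3) (pr_add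 (pr_add (pr_addc (pr_scaleT 883837 1000000 h1) (enc_rat _ 18953473 50000000)) (pr_cmul (enc_norm (txg_4.enc h1.l h2.l h3)) (pr_norm (pr_addc (pr_scaleT 598613 20000 h1) (enc_rat _ 31725237 2500000))))) (pr_mA (pr_cmul (enc_norm (txg_292.enc h1.l h2.l h3)) (pr_norm (pr_mul (pr_norm (txg_230_sf.snd h1 h2 h3)) (pr_norm (txg_293_sf.snd h1 h2 h3))))) (pr_const (txg_292.enc h1.l h2.l h3)) (txg_230_sf.snd h1 h2 h3) (txg_293_sf.snd h1 h2 h3) rfl rfl)) (pr_add (pr_add (pr_addc (pr_scaleT 1438907 1500000 h1) (enc_rat _ 8169777 20000000)) (pr_cmul (enc_norm (txg_4.enc h1.l h2.l h3)) (pr_norm (pr_addc (pr_scaleT 2447209 75000 h1) (enc_rat _ 137426281 10000000))))) (pr_mA (pr_cmul (enc_norm (txg_312.enc h1.l h2.l h3)) (pr_norm (pr_mul (pr_norm (txg_277_sf.snd h1 h2 h3)) (pr_norm (txg_313_sf.snd h1 h2 h3))))) (pr_const (txg_312.enc h1.l h2.l h3)) (txg_277_sf.snd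 h1 h2 h3) (txg_313_sf.snd h1 h2 h3) rfl rfl)))) (pr_case (txg_322_sf.snd h1 h2 h3) (pr_case (txg_325_sf.snd h1 h2 h3) (pr_add (pr_add (pr_addc (pr_scaleT 1164387 1250000 h1) (enc_rat _ 1990391 5000000)) (pr_cmul (enc_norm (txg_4.enc h1.l h2.l h3)) (pr_norm (pr_addc (pr_scaleT 1336751 50000 h1) (enc_rat _ 28830539 2500000))))) (pr_mA (pr_cmul (enc_norm (txg_337.enc h1.l h2.l h3)) (pr_norm (pr_mul (pr_norm (txg_227_sf.snd h1 h2 h3)) (pr_norm (txg_338_sf.snd h1 h2 h3))))) (pr_const (txg_337.enc h1.l h2.l h3)) (txg_227_sf.snd h1 h2 h3) (txg_338_sf.snd h1 h2 h3) rfl rfl)) (pr_add (pr_add (pr_addc (pr_scaleT 488199 625000 h1) (enc_rat _ 134938 390625)) (pr_cmul (enc_norm (txg_4.enc h1.l h2.l h3)) (pr_norm (pr_addc (pr_scaleT 103412 15625 h1) (enc_rat _ 22456937 5000000))))) (pr_mA (pr_cmul (enc_norm (txg_354.enc h1.l h2.l h3)) (pr_norm (pr_mul (pr_norm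 (txg_325_sf.snd h1 h2 h3)) (pr_norm (txg_355_sf.snd h1 h2 h3))))) (pr_const (txg_354.enc h1.l h2.l h3)) (txg_325_sf.snd h1 h2 h3) (txg_355_sf.snd h1 h2 h3) rfl rfl))) (pr_case (txg_363_sf.snd h1 h2 h3) (pr_add (pr_add (pr_addc (pr_scaleT 1716521 2500000 h1) (enc_rat _ 7927207 25000000)) (pr_cmul (enc_norm (txg_4.enc h1.l h2.l h3)) (pr_norm (pr_csub (enc_rat _ 1272313 2500000) (pr_scaleT 3328253 500000 h1))))) (pr_mA (pr_cmul (enc_norm (txg_376.enc h1.l h2.l h3)) (pr_norm (pr_mul (pr_norm (txg_322_sf.snd h1 h2 h3)) (pr_norm (txg_377_sf.snd h1 h2 h3))))) (pr_const (txg_376.enc h1.l h2.l h3)) (txg_322_sf.snd h1 h2 h3) (txg_377_sf.snd h1 h2 h3) rfl rfl)) (pr_add (pr_add (pr_addc (pr_scaleT 3409629 5000000 h1) (enc_rat _ 31591763 100000000)) (pr_cmul (enc_norm (txg_4.enc h1.l h2.l h3)) (pr_norm (pr_csub (enc_rat _ 3242031 5000000) (pr_scaleT 3049291 500000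 h1))))) (pr_mA (pr_cmul (enc_norm (txg_396.enc h1.l h2.l h3)) (pr_norm (pr_mul (pr_norm (txg_363_sf.snd h1 h2 h3)) (pr_norm (txg_397_sf.snd h1 h2 h3))))) (pr_const (txg_396.enc h1.l h2.l h3)) (txg_363_sf.snd h1 h2 h3) (txg_397_sf.snd h1 h2 h3) rfl rfl)))))) (pr_case (txg_406_sf.snd h1 h2 h3) (pr_case (txg_408_sf.snd h1 h2 h3) (pr_case (txg_411_sf.snd h1 h2 h3) (pr_case (txg_413_sf.snd h1 h2 h3) (pr_add (pr_add (pr_addc (pr_scaleT 1486527 2500000 h1) (enc_rat _ 29845463 100000000)) (pr_cmul (enc_norm (txg_4.enc h1.l h2.l h3)) (pr_norm (pr_csub (enc_rat _ 4965881 5000000) (pr_scaleT 1093683 250000 h1))))) (pr_mA (pr_cmul (enc_norm (txg_428.enc h1.l h2.l h3)) (pr_norm (pr_mul (pr_norm (txg_26_sf.snd h1 h2 h3)) (pr_norm (txg_429_sf.snd h1 h2 h3))))) (pr_const (txg_428.enc h1.l h2.l h3)) (txg_26_sf.snd h1 h2 h3) (txg_429_sf.snd h1 h2 h3) rfl rfl)) (pr_add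 (pr_add (pr_addc (pr_scaleT 535423 1250000 h1) (enc_rat _ 27351377 100000000)) (pr_cmul (enc_norm (txg_4.enc h1.l h2.l h3)) (pr_norm (pr_csub (enc_rat _ 6092381 5000000) (pr_scaleT 718183 250000 h1))))) (pr_mA (pr_cmul (enc_norm (txg_448.enc h1.l h2.l h3)) (pr_norm (pr_mul (pr_norm (txg_413_sf.snd h1 h2 h3)) (pr_norm (txg_449_sf.snd h1 h2 h3))))) (pr_const (txg_448.enc h1.l h2.l h3)) (txg_413_sf.snd h1 h2 h3) (txg_449_sf.snd h1 h2 h3) rfl rfl))) (pr_case (txg_455_sf.snd h1 h2 h3) (pr_add (pr_add (pr_addc (pr_scaleT 2676217 20000000 h1) (enc_rat _ 48812203 200000000)) (pr_cmul (enc_norm (txg_4.enc h1.l h2.l h3)) (pr_norm (pr_csub (enc_rat _ 1201527 800000) (pr_scaleT 76813 2000000 h1))))) (pr_mA (pr_cmul (enc_norm (txg_470.enc h1.l h2.l h3)) (pr_norm (pr_mul (pr_norm (txg_411_sf.snd h1 h2 h3)) (pr_norm (txg_471_sf.snd h1 h2 h3))))) (pr_const (txg_470.enc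 h1.l h2.l h3)) (txg_411_sf.snd h1 h2 h3) (txg_471_sf.snd h1 h2 h3) rfl rfl)) (pr_add (pr_add (pr_csub (enc_rat _ 13571463 50000000) (pr_scaleT 349679 2500000 h1)) (pr_cmul (enc_norm (txg_4.enc h1.l h2.l h3)) (pr_norm (pr_addc (pr_scaleT 136571 50000 h1) (enc_rat _ 12249261 10000000))))) (pr_mA (pr_cmul (enc_norm (txg_490.enc h1.l h2.l h3)) (pr_norm (pr_mul (pr_norm (txg_455_sf.snd h1 h2 h3)) (pr_norm (txg_491_sf.snd h1 h2 h3))))) (pr_const (txg_490.enc h1.l h2.l h3)) (txg_455_sf.snd h1 h2 h3) (txg_491_sf.snd h1 h2 h3) rfl rfl)))) (pr_case (txg_498_sf.snd h1 h2 h3) (pr_case (txg_499_sf.snd h1 h2 h3) (pr_add (pr_add (pr_csub (enc_rat _ 14597127 50000000) (pr_scaleT 691567 2500000 h1)) (pr_cmul (enc_norm (txg_4.enc h1.l h2.l h3)) (pr_norm (pr_addc (pr_scaleT 743709 500000 h1) (enc_rat _ 220551 156250))))) (pr_mA (pr_cmul (enc_norm (txg_512.enc h1.l h2.l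 h3)) (pr_norm (pr_mul (pr_norm (txg_408_sf.snd h1 h2 h3)) (pr_norm (txg_513_sf.snd h1 h2 h3))))) (pr_const (txg_512.enc h1.l h2.l h3)) (txg_408_sf.snd h1 h2 h3) (txg_513_sf.snd h1 h2 h3) rfl rfl)) (pr_add (pr_add (pr_csub (enc_rat _ 647841 2000000) (pr_scaleT 2182583 5000000 h1)) (pr_cmul (enc_norm (txg_4.enc h1.l h2.l h3)) (pr_norm (pr_csub (enc_rat _ 5566603 2500000) (pr_scaleT 647039 250000 h1))))) (pr_mA (pr_cmul (enc_norm (txg_531.enc h1.l h2.l h3)) (pr_norm (pr_mul (pr_norm (txg_499_sf.snd h1 h2 h3)) (pr_norm (txg_532_sf.snd h1 h2 h3))))) (pr_const (txg_531.enc h1.l h2.l h3)) (txg_499_sf.snd h1 h2 h3) (txg_532_sf.snd h1 h2 h3) rfl rfl))) (pr_case (txg_538_sf.snd h1 h2 h3) (pr_add (pr_add (pr_csub (enc_rat _ 1476377 4000000) (pr_scaleT 1543029 2500000 h1)) (pr_cmul (enc_norm (txg_4.enc h1.l h2.l h3)) (pr_norm (pr_csub (enc_rat _ 32713787 10000000)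 (pr_scaleT 3383553 500000 h1))))) (pr_mA (pr_cmul (enc_norm (txg_552.enc h1.l h2.l h3)) (pr_norm (pr_mul (pr_norm (txg_498_sf.snd h1 h2 h3)) (pr_norm (txg_553_sf.snd h1 h2 h3))))) (pr_const (txg_552.enc h1.l h2.l h3)) (txg_498_sf.snd h1 h2 h3) (txg_553_sf.snd h1 h2 h3) rfl rfl)) (pr_add (pr_add (pr_csub (enc_rat _ 1704527 4000000) (pr_scaleT 4036683 5000000 h1)) (pr_cmul (enc_norm (txg_4.enc h1.l h2.l h3)) (pr_norm (pr_csub (enc_rat _ 7702723 2000000) (pr_scaleT 4350191 500000 h1))))) (pr_mA (pr_cmul (enc_norm (txg_571.enc h1.l h2.l h3)) (pr_norm (pr_mul (pr_norm (txg_538_sf.snd h1 h2 h3)) (pr_norm (txg_572_sf.snd h1 h2 h3))))) (pr_const (txg_571.enc h1.l h2.l h3)) (txg_538_sf.snd h1 h2 h3) (txg_572_sf.snd h1 h2 h3) rfl rfl))))) (pr_case (txg_580_sf.snd h1 h2 h3) (pr_case (txg_581_sf.snd h1 h2 h3) (pr_case (txg_582_sf.snd h1 h2 h3) (pr_add (pr_add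 (pr_csub (enc_rat _ 23791829 50000000) (pr_scaleT 74168 78125 h1)) (pr_cmul (enc_norm (txg_4.enc h1.l h2.l h3)) (pr_norm (pr_csub (enc_rat _ 19315037 5000000) (pr_scaleT 1091707 125000 h1))))) (pr_mA (pr_cmul (enc_norm (txg_598.enc h1.l h2.l h3)) (pr_norm (pr_mul (pr_norm (txg_406_sf.snd h1 h2 h3)) (pr_norm (txg_599_sf.snd h1 h2 h3))))) (pr_const (txg_598.enc h1.l h2.l h3)) (txg_406_sf.snd h1 h2 h3) (txg_599_sf.snd h1 h2 h3) rfl rfl)) (pr_add (pr_add (pr_csub (enc_rat _ 3155523 6250000) (pr_scaleT 770107 750000 h1)) (pr_cmul (enc_norm (txg_4.enc h1.l h2.l h3)) (pr_norm (pr_csub (enc_rat _ 39207839 10000000) (pr_scaleT 1333159 150000 h1))))) (pr_mA (pr_cmul (enc_norm (txg_617.enc h1.l h2.l h3)) (pr_norm (pr_mul (pr_norm (txg_582_sf.snd h1 h2 h3)) (pr_norm (txg_618_sf.snd h1 h2 h3))))) (pr_const (txg_617.enc h1.l h2.l h3)) (txg_582_sf.snd h1 h2 h3)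 (txg_618_sf.snd h1 h2 h3) rfl rfl))) (pr_case (txg_624_sf.snd h1 h2 h3) (pr_add (pr_add (pr_csub (enc_rat _ 51872621 100000000) (pr_scaleT 1062303 1000000 h1)) (pr_cmul (enc_norm (txg_4.enc h1.l h2.l h3)) (pr_norm (pr_csub (enc_rat _ 9831213 2500000) (pr_scaleT 891773 100000 h1))))) (pr_mA (pr_cmul (enc_norm (txg_640.enc h1.l h2.l h3)) (pr_norm (pr_mul (pr_norm (txg_581_sf.snd h1 h2 h3)) (pr_norm (txg_641_sf.snd h1 h2 h3))))) (pr_const (txg_640.enc h1.l h2.l h3)) (txg_581_sf.snd h1 h2 h3) (txg_641_sf.snd h1 h2 h3) rfl rfl)) (pr_add (pr_add (pr_csub (enc_rat _ 52088221 100000000) (pr_scaleT 1067693 1000000 h1)) (pr_cmul (enc_norm (txg_4.enc h1.l h2.l h3)) (pr_norm (pr_csub (enc_rat _ 9127703 2500000) (pr_scaleT 410711 50000 h1))))) (pr_mA (pr_cmul (enc_norm (txg_661.enc h1.l h2.l h3)) (pr_norm (pr_mul (pr_norm (txg_624_sf.snd h1 h2 h3)) (pr_norm (txg_662_sf.snd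 h1 h2 h3))))) (pr_const (txg_661.enc h1.l h2.l h3)) (txg_624_sf.snd h1 h2 h3) (txg_662_sf.snd h1 h2 h3) rfl rfl)))) (pr_case (txg_669_sf.snd h1 h2 h3) (pr_case (txg_670_sf.snd h1 h2 h3) (pr_add (pr_add (pr_csub (enc_rat _ 25570909 50000000) (pr_scaleT 104461 100000 h1)) (pr_cmul (enc_norm (txg_4.enc h1.l h2.l h3)) (pr_norm (pr_csub (enc_rat _ 7951413 2500000) (pr_scaleT 353331 50000 h1))))) (pr_mA (pr_cmul (enc_norm (txg_687.enc h1.l h2.l h3)) (pr_norm (pr_mul (pr_norm (txg_580_sf.snd h1 h2 h3)) (pr_norm (txg_688_sf.snd h1 h2 h3))))) (pr_const (txg_687.enc h1.l h2.l h3)) (txg_580_sf.snd h1 h2 h3) (txg_688_sf.snd h1 h2 h3) rfl rfl)) (pr_add (pr_add (pr_csub (enc_rat _ 981547 2000000) (pr_scaleT 15554 15625 h1)) (pr_cmul (enc_norm (txg_4.enc h1.l h2.l h3)) (pr_norm (pr_csub (enc_rat _ 2701509 1000000) (pr_scaleT 592601 100000 h1))))) (pr_mA (pr_cmul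 (enc_norm (txg_709.enc h1.l h2.l h3)) (pr_norm (pr_mul (pr_norm (txg_670_sf.snd h1 h2 h3)) (pr_norm (txg_710_sf.snd h1 h2 h3))))) (pr_const (txg_709.enc h1.l h2.l h3)) (txg_670_sf.snd h1 h2 h3) (txg_710_sf.snd h1 h2 h3) rfl rfl))) (pr_case (txg_716_sf.snd h1 h2 h3) (pr_add (pr_add (pr_csub (enc_rat _ 23424631 50000000) (pr_scaleT 23591 25000 h1)) (pr_cmul (enc_norm (txg_4.enc h1.l h2.l h3)) (pr_norm (pr_csub (enc_rat _ 1406089 625000) (pr_scaleT 487539 100000 h1))))) (pr_mA (pr_cmul (enc_norm (txg_733.enc h1.l h2.l h3)) (pr_norm (pr_mul (pr_norm (txg_669_sf.snd h1 h2 h3)) (pr_norm (txg_734_sf.snd h1 h2 h3))))) (pr_const (txg_733.enc h1.l h2.l h3)) (txg_669_sf.snd h1 h2 h3) (txg_734_sf.snd h1 h2 h3) rfl rfl)) (pr_add (pr_add (pr_add (pr_csub (enc_rat _ 62881175802322873 143708906250000000) (pr_scaleT 2510126436598909 2874178125000000 h1)) (pr_cmul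 (enc_norm (txg_4.enc h1.l h2.l h3)) (pr_norm (pr_csub (enc_rat _ 4571012994437381 3592722656250000) (pr_scaleT 762785293108217 287417812500000 h1))))) (pr_cmul (txg_753.enc h1.l h2.l h3) (pr_norm (pr_subr 148181 91406250 (pr_scaleT 13471 3656250 h1))))) (pr_mA (pr_cmul (enc_norm (txg_764.enc h1.l h2.l h3)) (pr_norm (pr_mul (pr_norm (txg_716_sf.snd h1 h2 h3)) (pr_norm (txg_765_sf.snd h1 h2 h3))))) (pr_const (txg_764.enc h1.l h2.l h3)) (txg_716_sf.snd h1 h2 h3) (txg_765_sf.snd h1 h2 h3) rfl rfl))))))) (pr_case (txg_776_sf.snd h1 h2 h3) (pr_sub (pr_mul (pr_norm (pr_csub (enc_pnc _ 1) h2)) (pr_norm (pr_subn 1 (pr_nat 2 h2)))) (pr_mul (pr_norm (pr_nat 2 (pr_subc (pr_scaleT 4 3 (txg_6_sf.snd h1 h2 h3)) h3))) (pr_norm (pr_mul (pr_norm (pr_subn 1 (pr_add (pr_scaleT 2 3 (txg_6_sf.snd h1 h2 h3)) h2))) (kcg_sf.snd h1 h3))))) (pr_case (txg_777_sf.snd h1 h2 h3)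 (pr_add (pr_add (pr_add (pr_csub (enc_rat _ 28186823748289556569 61867135000000000000) (pr_scaleT 56339567582412643 61867135000000000 h1)) (pr_cmul (enc_norm (txg_4.enc h1.l h2.l h3)) (pr_norm (pr_csub (enc_rat _ 5845020371939994627 6186713500000000000) (pr_scaleT 11737478296061169 6186713500000000 h1))))) (pr_cmul (txg_753.enc h1.l h2.l h3) (pr_norm (pr_subr 2286214662753 446050000000 (pr_scaleT 4733363691 446050000 h1))))) (pr_mA (pr_cmul (enc_norm (txg_800.enc h1.l h2.l h3)) (pr_norm (pr_mul (pr_norm (txg_776_sf.snd h1 h2 h3)) (pr_norm (txg_801_sf.snd h1 h2 h3))))) (pr_const (txg_800.enc h1.l h2.l h3)) (txg_776_sf.snd h1 h2 h3) (txg_801_sf.snd h1 h2 h3) rfl rfl)) (pr_case (txg_806_sf.snd h1 h2 h3) (pr_add (pr_add (pr_csub (enc_rat _ 23202443 50000000) (pr_scaleT 649699 700000 h1)) (pr_cmul (enc_norm (txg_4.enc h1.l h2.l h3)) (pr_norm (pr_csub (enc_rat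 _ 311493 250000) (pr_scaleT 176457 70000 h1))))) (pr_mA (pr_cmul (enc_norm (txg_821.enc h1.l h2.l h3)) (pr_norm (pr_mul (pr_norm (txg_777_sf.snd h1 h2 h3)) (pr_norm (txg_822_sf.snd h1 h2 h3))))) (pr_const (txg_821.enc h1.l h2.l h3)) (txg_777_sf.snd h1 h2 h3) (txg_822_sf.snd h1 h2 h3) rfl rfl)) (pr_add (pr_add (pr_csub (enc_rat _ 231489 500000) (pr_scaleT 231489 250000 h1)) (pr_cmul (enc_norm (txg_4.enc h1.l h2.l h3)) (pr_norm (pr_csub (enc_rat _ 10773 20000) (pr_scaleT 10773 10000 h1))))) (pr_mA (pr_cmul (enc_norm (txg_843.enc h1.l h2.l h3)) (pr_norm (pr_mul (pr_norm (txg_806_sf.snd h1 h2 h3)) (pr_norm (txg_844_sf.snd h1 h2 h3))))) (pr_const (txg_843.enc h1.l h2.l h3)) (txg_806_sf.snd h1 h2 h3) (txg_844_sf.snd h1 h2 h3) rfl rfl))))))⟩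
noncomputable def l0q0_sf : Sl2 l0q0 := ⟨_, fun h1 h2 => (pr_norm (txg_sf.snd (pr_norm (pr_sub (pr_scaleT 3 4 h1) (pr_half (c1g_sf.snd h1)))) (pr_nd (c1g_sf.snd h1)) h2))⟩
noncomputable def swg_sf : Sl1 swg := ⟨_, fun h1 => (pr_sqrt (pr_csub (enc_pnc _ 1) (pr_scaleT 3 4 (pr_sq (pr_norm (pr_subn 1 h1))))))⟩
noncomputable def cv1m_sf : Sl1 cv1m := ⟨_, fun h1 => (pr_norm (pr_add (pr_scaleT 3 4 (c1g_sf.snd h1)) (pr_scaleT 1 4 (pr_addc (swg_sf.snd h1) (enc_rat _ 1 2)))))⟩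
noncomputable def bf1q0_10_sf : Sl2 bf1q0_10 := ⟨_, fun h1 h2 => (pr_scaleT 207 100 h1)⟩
noncomputable def bf1q0_sf : Sl2 bf1q0 := ⟨_, fun h1 h2 => (pr_norm (pr_case (pr_subr 779 25000 h1) (pr_case (pr_subr 27 2000 h1) (pr_case (pr_subr 1 200 h1) (pr_add (pr_csub (enc_pnc _ 1) (bf1q0_10_sf.snd h1 h2)) (pr_cmul (enc_norm (bf1q0_3.enc h1.l h2)) (pr_nd (pr_scaleT 151 50 h1)))) (pr_case (pr_subr 21 2000 h1) (pr_add (pr_csub (enc_rat _ 220003 220000) (pr_scaleT 114 55 h1)) (pr_cmul (enc_norm (bf1q0_3.enc h1.l h2)) (pr_norm (pr_addc (pr_scaleT 163 55 h1) (enc_rat _ 31 110000))))) (pr_add (pr_csub (enc_rat _ 199997 200000) (bf1q0_10_sf.snd h1 h2)) (pr_cmul (enc_norm (bf1q0_3.enc h1.l h2)) (pr_norm (pr_addc (pr_scaleT 29 10 h1) (enc_rat _ 19 20000))))))) (pr_case (pr_subr 33 2048 h1) (pr_add (pr_csub (enc_rat _ 5574931 5575000) (pr_scaleT 34624 16725 h1))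 (pr_cmul (enc_norm (bf1q0_3.enc h1.l h2)) (pr_norm (pr_addc (pr_scaleT 9472 3345 h1) (enc_rat _ 167 89200))))) (pr_case (pr_subr 1 40 h1) (pr_add (pr_csub (enc_rat _ 650007 650000) (pr_scaleT 16832 8125 h1)) (pr_cmul (enc_norm (bf1q0_3.enc h1.l h2)) (pr_norm (pr_addc (pr_scaleT 6144 2275 h1) (enc_rat _ 29 7280))))) (pr_add (pr_csub (enc_rat _ 15400713 15400000) (pr_scaleT 1277 616 h1)) (pr_cmul (enc_norm (bf1q0_3.enc h1.l h2)) (pr_norm (pr_addc (pr_scaleT 795 308 h1) (enc_rat _ 2147 308000)))))))) (pr_case (pr_subr 1 10 h1) (pr_case (pr_subr 1 20 h1) (pr_add (pr_csub (enc_rat _ 3925011 3925000) (pr_scaleT 1301 628 h1)) (pr_cmul (enc_norm (bf1q0_3.enc h1.l h2)) (pr_norm (pr_addc (pr_scaleT 1160 471 h1) (enc_rat _ 25099 2355000))))) (pr_case (pr_subr 7 100 h1) (pr_add (pr_csub (enc_rat _ 199999 200000) (pr_scaleT 4143 2000 h1)) (pr_cmul (enc_norm (bf1q0_3.enc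 h1.l h2)) (pr_norm (pr_addc (pr_scaleT 473 200 h1) (enc_rat _ 311 20000))))) (pr_add (pr_csub (enc_rat _ 150001 150000) (pr_scaleT 1243 600 h1)) (pr_cmul (enc_norm (bf1q0_3.enc h1.l h2)) (pr_norm (pr_addc (pr_scaleT 57 25 h1) (enc_rat _ 43 2000))))))) (pr_case (pr_subr 11 50 h1) (pr_case (pr_subr 3 20 h1) (pr_add (pr_csub (enc_pnc _ 1) (pr_scaleT 5179 2500 h1)) (pr_cmul (enc_norm (bf1q0_3.enc h1.l h2)) (pr_norm (pr_addc (pr_scaleT 553 250 h1) (enc_rat _ 283 10000))))) (pr_add (pr_csub (enc_rat _ 175003 175000) (pr_scaleT 7251 3500 h1)) (pr_cmul (enc_norm (bf1q0_3.enc h1.l h2)) (pr_norm (pr_addc (pr_scaleT 1513 700 h1) (enc_rat _ 157 4375)))))) (pr_case (pr_subr 33 100 h1) (pr_add (pr_csub (enc_pnc _ 1) (pr_scaleT 5697 2750 h1)) (pr_cmul (enc_norm (bf1q0_3.enc h1.l h2)) (pr_norm (pr_addc (pr_scaleT 586 275 h1) (enc_rat _ 213 5000))))) (pr_add (pr_csub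 (enc_rat _ 850003 850000) (pr_scaleT 17609 8500 h1)) (pr_cmul (enc_norm (bf1q0_3.enc h1.l h2)) (pr_norm (pr_addc (pr_scaleT 3599 1700 h1) (enc_rat _ 8019 170000))))))))))⟩
noncomputable def kf1q0_sf : Sl2 kf1q0 := ⟨_, fun h1 h2 => (pr_norm (pr_mul (cv1m_sf.snd h1) (bf1q0_sf.snd h1 h2)))⟩
noncomputable def bx1q0_sf : Sl2 bx1q0 := ⟨_, fun h1 h2 => (pr_norm (pr_case (pr_subr 779 25000 h1) (pr_case (pr_subr 27 2000 h1) (pr_case (pr_subr 1 200 h1) (pr_sub (pr_scaleT 47 125 h1) (pr_cmul (enc_norm (bx1q0_3.enc h1.l h2)) (pr_nd (pr_scaleT 29 10 h1)))) (pr_case (pr_subr 21 2000 h1) (pr_add (pr_subr 1 550000 (pr_scaleT 207 550 h1)) (pr_cmul (enc_norm (bx1q0_3.enc h1.l h2)) (pr_norm (pr_subr 281 22000 (pr_neg (pr_scaleT 19 55 h1)))))) (pr_add (pr_addc (pr_scaleT 28 75 h1) (enc_rat _ 3 100000)) (pr_cmul (enc_norm (bx1q0_3.enc h1.l h2)) (pr_norm (pr_subr 279 20000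 (pr_neg (pr_scaleT 7 30 h1)))))))) (pr_case (pr_subr 33 2048 h1) (pr_add (pr_addc (pr_scaleT 6208 16725 h1) (enc_rat _ 1317 22300000)) (pr_cmul (enc_norm (bx1q0_3.enc h1.l h2)) (pr_norm (pr_subr 32373 2230000 (pr_neg (pr_scaleT 128 669 h1)))))) (pr_case (pr_subr 1 40 h1) (pr_add (pr_addc (pr_scaleT 21184 56875 h1) (enc_rat _ 349 9100000)) (pr_cmul (enc_norm (bx1q0_3.enc h1.l h2)) (pr_norm (pr_subr 14531 910000 (pr_neg (pr_scaleT 1152 11375 h1)))))) (pr_add (pr_addc (pr_scaleT 115 308 h1) (enc_rat _ 3 192500)) (pr_cmul (enc_norm (bx1q0_3.enc h1.l h2)) (pr_norm (pr_subr 5323 308000 (pr_neg (pr_scaleT 15 308 h1))))))))) (pr_case (pr_subr 1 10 h1) (pr_case (pr_subr 1 20 h1) (pr_subc (pr_addc (pr_scaleT 175 471 h1) (enc_rat _ 683 9420000)) (enc_scaleT 47 2500 (bx1q0_3.enc h1.l h2))) (pr_case (pr_subr 7 100 h1) (pr_add (pr_addc (pr_scaleT 149 400 h1) (enc_rat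 _ 1 40000)) (pr_cmul (enc_norm (bx1q0_3.enc h1.l h2)) (pr_norm (pr_subr 441 20000 (pr_scaleT 13 200 h1))))) (pr_add (pr_addc (pr_scaleT 1117 3000 h1) (enc_rat _ 11 300000)) (pr_cmul (enc_norm (bx1q0_3.enc h1.l h2)) (pr_norm (pr_subr 791 30000 (pr_scaleT 19 150 h1))))))) (pr_case (pr_subr 11 50 h1) (pr_case (pr_subr 3 20 h1) (pr_add (pr_addc (pr_scaleT 1861 5000 h1) (enc_rat _ 1 20000)) (pr_cmul (enc_norm (bx1q0_3.enc h1.l h2)) (pr_norm (pr_subr 311 10000 (pr_scaleT 87 500 h1))))) (pr_add (pr_addc (pr_scaleT 2603 7000 h1) (enc_rat _ 71 700000)) (pr_cmul (enc_norm (bx1q0_3.enc h1.l h2)) (pr_norm (pr_subr 263 7000 (pr_scaleT 38 175 h1)))))) (pr_case (pr_subr 33 100 h1) (pr_add (pr_addc (pr_scaleT 4069 11000 h1) (enc_rat _ 53 100000)) (pr_cmul (enc_norm (bx1q0_3.enc h1.l h2)) (pr_norm (pr_subr 27 625 (pr_scaleT 267 1100 h1))))) (pr_add (pr_addc (pr_scaleT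 2587 17000 h1) (enc_rat _ 123049 1700000)) (pr_cmul (enc_norm (bx1q0_3.enc h1.l h2)) (pr_norm (pr_subr 4173 85000 (pr_scaleT 443 1700 h1))))))))))⟩
noncomputable def l1q0_sf : Sl2 l1q0 := ⟨_, fun h1 h2 => (pr_norm (pr_mul (cv1m_sf.snd h1) (bx1q0_sf.snd h1 h2)))⟩
noncomputable def cv2m_sf : Sl1 cv2m := ⟨_, fun h1 => (pr_norm (pr_add (pr_scaleT 7 20 (c1g_sf.snd h1)) (pr_scaleT 13 20 (pr_addc (swg_sf.snd h1) (enc_rat _ 1 2)))))⟩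
noncomputable def bf2q0_13_sf : Sl2 bf2q0_13 := ⟨_, fun h1 h2 => (pr_csub (enc_pnc _ 1) (pr_scaleT 47 25 h1))⟩
noncomputable def bf2q0_sf : Sl2 bf2q0 := ⟨_, fun h1 h2 => (pr_norm (pr_case (pr_subr 779 25000 h1) (pr_case (pr_subr 27 2000 h1) (pr_case (pr_subr 1 200 h1) (pr_add (bf2q0_13_sf.snd h1 h2) (pr_cmul (enc_norm (bf2q0_3.enc h1.l h2)) (pr_nd (pr_scaleT 568 25 h1)))) (pr_case (pr_subr 21 2000 h1) (pr_add (bf2q0_13_sf.snd h1 h2) (pr_cmul (enc_norm (bf2q0_3.enc h1.l h2)) (pr_norm (pr_addc (pr_scaleT 1247 55 h1) (enc_rat _ 13 55000))))) (pr_add (pr_csub (enc_rat _ 206811 200000) (pr_scaleT 1537 300 h1)) (pr_cmul (enc_norm (bf2q0_3.enc h1.l h2)) (pr_norm (pr_csub (enc_rat _ 4941 20000) (pr_scaleT 5 6 h1))))))) (pr_case (pr_subr 33 2048 h1) (pr_add (pr_csub (enc_rat _ 922383 892000) (pr_scaleT 85696 16725 h1)) (pr_cmul (enc_norm (bf2q0_3.enc h1.l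 h2)) (pr_norm (pr_csub (enc_rat _ 276741 1115000) (pr_scaleT 1024 1115 h1))))) (pr_case (pr_subr 1 40 h1) (pr_add (pr_csub (enc_rat _ 1881979 1820000) (pr_scaleT 291392 56875 h1)) (pr_cmul (enc_norm (bf2q0_3.enc h1.l h2)) (pr_norm (pr_csub (enc_rat _ 225759 910000) (pr_scaleT 10368 11375 h1))))) (pr_add (pr_csub (enc_rat _ 206819 200000) (pr_scaleT 41 8 h1)) (pr_cmul (enc_norm (bf2q0_3.enc h1.l h2)) (pr_norm (pr_csub (enc_rat _ 34667 140000) (pr_scaleT 25 28 h1)))))))) (pr_case (pr_subr 1 10 h1) (pr_case (pr_subr 1 20 h1) (pr_add (pr_csub (enc_rat _ 48703927 47100000) (pr_scaleT 9653 1884 h1)) (pr_cmul (enc_norm (bf2q0_3.enc h1.l h2)) (pr_norm (pr_csub (enc_rat _ 38871 157000) (pr_scaleT 140 157 h1))))) (pr_case (pr_subr 7 100 h1) (pr_add (pr_csub (enc_rat _ 103407 100000) (pr_scaleT 1281 250 h1)) (pr_cmul (enc_norm (bf2q0_3.enc h1.l h2)) (pr_norm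 (pr_csub (enc_rat _ 987 4000) (pr_scaleT 7 8 h1))))) (pr_add (pr_csub (enc_rat _ 155107 150000) (pr_scaleT 15371 3000 h1)) (pr_cmul (enc_norm (bf2q0_3.enc h1.l h2)) (pr_norm (pr_csub (enc_rat _ 2457 10000) (pr_scaleT 43 50 h1))))))) (pr_case (pr_subr 11 50 h1) (pr_case (pr_subr 3 20 h1) (pr_add (pr_csub (enc_rat _ 51703 50000) (pr_scaleT 25619 5000 h1)) (pr_cmul (enc_norm (bf2q0_3.enc h1.l h2)) (pr_norm (pr_csub (enc_rat _ 2441 10000) (pr_scaleT 211 250 h1))))) (pr_add (pr_csub (enc_rat _ 723833 700000) (pr_scaleT 17933 3500 h1)) (pr_cmul (enc_norm (bf2q0_3.enc h1.l h2)) (pr_norm (pr_csub (enc_rat _ 677 2800) (pr_scaleT 29 35 h1)))))) (pr_case (pr_subr 33 100 h1) (pr_add (pr_csub (enc_rat _ 103407 100000) (pr_scaleT 28181 5500 h1)) (pr_cmul (enc_norm (bf2q0_3.enc h1.l h2)) (pr_norm (pr_csub (enc_rat _ 2391 10000) (pr_scaleT 449 550 h1))))) (pr_add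 (pr_csub (enc_rat _ 1757889 1700000) (pr_scaleT 10888 2125 h1)) (pr_cmul (enc_norm (bf2q0_3.enc h1.l h2)) (pr_norm (pr_csub (enc_rat _ 237 1000) (pr_scaleT 81 100 h1))))))))))⟩
noncomputable def kf2q0_sf : Sl2 kf2q0 := ⟨_, fun h1 h2 => (pr_norm (pr_mul (cv2m_sf.snd h1) (bf2q0_sf.snd h1 h2)))⟩
noncomputable def bx2q0_sf : Sl2 bx2q0 := ⟨_, fun h1 h2 => (pr_norm (pr_case (pr_subr 779 25000 h1) (pr_case (pr_subr 27 2000 h1) (pr_case (pr_subr 1 200 h1) (pr_sub (pr_scaleT 91 100 h1) (pr_cmul (enc_norm (bx2q0_3.enc h1.l h2)) (pr_nd (pr_scaleT 99 50 h1)))) (pr_case (pr_subr 21 2000 h1) (pr_add (pr_addc (pr_scaleT 97 110 h1) (enc_rat _ 31 220000)) (pr_cmul (enc_norm (bx2q0_3.enc h1.l h2)) (pr_norm (pr_subr 1699 110000 (pr_scaleT 61 55 h1))))) (pr_add (pr_addc (pr_scaleT 257 300 h1) (enc_rat _ 81 200000)) (pr_cmul (enc_norm (bx2q0_3.enc h1.l h2)) (pr_norm (pr_subr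 349 20000 (pr_scaleT 13 10 h1))))))) (pr_case (pr_subr 33 2048 h1) (pr_add (pr_addc (pr_scaleT 4672 5575 h1) (enc_rat _ 14643 22300000)) (pr_cmul (enc_norm (bx2q0_3.enc h1.l h2)) (pr_norm (pr_subr 41249 2230000 (pr_scaleT 1536 1115 h1))))) (pr_case (pr_subr 1 40 h1) (pr_add (pr_addc (pr_scaleT 9536 11375 h1) (enc_rat _ 5931 9100000)) (pr_cmul (enc_norm (bx2q0_3.enc h1.l h2)) (pr_norm (pr_subr 8759 130000 (pr_scaleT 7168 1625 h1))))) (pr_add (pr_addc (pr_scaleT 193 308 h1) (enc_rat _ 11443 1925000)) (pr_cmul (enc_norm (bx2q0_3.enc h1.l h2)) (pr_norm (pr_addc (pr_scaleT 225 154 h1) (enc_rat _ 1227 192500)))))))) (pr_case (pr_subr 1 10 h1) (pr_case (pr_subr 1 20 h1) (pr_add (pr_addc (pr_scaleT 393 628 h1) (enc_rat _ 23433 3925000)) (pr_cmul (enc_norm (bx2q0_3.enc h1.l h2)) (pr_norm (pr_addc (pr_scaleT 235 157 h1) (enc_rat _ 8257 1570000))))) (pr_case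 (pr_subr 7 100 h1) (pr_add (pr_addc (pr_scaleT 613 1000 h1) (enc_rat _ 661 100000)) (pr_cmul (enc_norm (bx2q0_3.enc h1.l h2)) (pr_norm (pr_addc (pr_scaleT 207 200 h1) (enc_rat _ 567 20000))))) (pr_add (pr_addc (pr_scaleT 197 375 h1) (enc_rat _ 239 18750)) (pr_cmul (enc_norm (bx2q0_3.enc h1.l h2)) (pr_norm (pr_addc (pr_scaleT 31 50 h1) (enc_rat _ 287 5000))))))) (pr_case (pr_subr 11 50 h1) (pr_case (pr_subr 3 20 h1) (pr_add (pr_addc (pr_scaleT 423 1000 h1) (enc_rat _ 1149 50000)) (pr_cmul (enc_norm (bx2q0_3.enc h1.l h2)) (pr_norm (pr_addc (pr_scaleT 3 10 h1) (enc_rat _ 447 5000))))) (pr_add (pr_addc (pr_scaleT 2131 7000 h1) (enc_rat _ 3567 87500)) (pr_cmul (enc_norm (bx2q0_3.enc h1.l h2)) (pr_norm (pr_addc (pr_scaleT 9 140 h1) (enc_rat _ 8733 70000)))))) (pr_case (pr_subr 33 100 h1) (pr_add (pr_addc (pr_scaleT 1631 11000 h1) (enc_rat _ 939 12500))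 (pr_cmul (enc_norm (bx2q0_3.enc h1.l h2)) (pr_norm (pr_csub (enc_rat _ 323 2000) (pr_scaleT 113 1100 h1))))) (pr_add (pr_csub (enc_rat _ 314901 1700000) (pr_scaleT 394 2125 h1)) (pr_cmul (enc_norm (bx2q0_3.enc h1.l h2)) (pr_norm (pr_csub (enc_rat _ 16951 85000) (pr_scaleT 37 170 h1))))))))))⟩
noncomputable def l2q0_sf : Sl2 l2q0 := ⟨_, fun h1 h2 => (pr_norm (pr_mul (cv2m_sf.snd h1) (bx2q0_sf.snd h1 h2)))⟩
noncomputable def kf0q1_10_sf : Sl2 kf0q1_10 := ⟨_, fun h1 h2 => (pr_scaleT 3 2 h1)⟩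
noncomputable def kf0q1_sf : Sl2 kf0q1 := ⟨_, fun h1 h2 => (pr_norm (pr_add (pr_mul (pr_norm (pr_mul (pr_norm (pr_cadd (enc_pnc _ 1) (pr_nat 2 (c1g_sf.snd h1)))) (pr_norm (pr_sub (kf0q1_10_sf.snd h1 h2) (c1g_sf.snd h1))))) (pr_nd (pr_inv (pr_nat 2 (pr_sub (pr_cadd (enc_pnc _ 1) (kf0q1_10_sf.snd h1 h2)) (c1g_sf.snd h1)))))) (pr_mul (pr_norm (pr_subn 1 h1)) (kcg_sf.snd (pr_norm (pr_sub (pr_scaleT 3 4 h1) (pr_half (c1g_sf.snd h1)))) h2))))⟩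
noncomputable def l0q1_sf : Sl2 l0q1 := ⟨_, fun h1 h2 => (pr_norm (txg_sf.snd (pr_norm (pr_sub (pr_scaleT 3 4 h1) (pr_half (c1g_sf.snd h1)))) (pr_nd (c1g_sf.snd h1)) h2))⟩
noncomputable def cv2p_sf : Sl1 cv2p := ⟨_, fun h1 => (pr_norm (pr_add (pr_scaleT 7 20 (c1g_sf.snd h1)) (pr_scaleT 13 20 (pr_subr 1 2 (swg_sf.snd h1)))))⟩
noncomputable def bf2q2_sf : Sl2 bf2q2 := ⟨_, fun h1 h2 => (pr_norm (pr_case (pr_subr 21 20 h1) (pr_case (pr_subr 2081 2048 h1) (pr_add (pr_csub (enc_rat _ 39583 9375) (pr_scaleT 30208 9375 h1)) (pr_cmul (enc_norm (bf2q2_3.enc h1.l h2)) (pr_norm (pr_subr 128 20625 (pr_scaleT 128 20625 h1))))) (pr_case (pr_subr 25779 25000 h1) (pr_addc (pr_csub (enc_rat _ 5082133199 1203737500) (pr_scaleT 310272 96299 h1)) (enc_scaleT 1 10000 (bf2q2_3.enc h1.l h2))) (pr_add (pr_csub (enc_rat _ 66291823 15700000) (pr_scaleT 6071 1884 h1)) (pr_cmul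 (enc_norm (bf2q2_3.enc h1.l h2)) (pr_norm (pr_subr 2109 392500 (pr_scaleT 5 942 h1))))))) (pr_case (pr_subr 231 200 h1) (pr_case (pr_subr 107 100 h1) (pr_add (pr_csub (enc_rat _ 422199 100000) (pr_scaleT 1611 500 h1)) (pr_cmul (enc_norm (bf2q2_3.enc h1.l h2)) (pr_norm (pr_subr 101 20000 (pr_scaleT 1 200 h1))))) (pr_add (pr_csub (enc_rat _ 7177597 1700000) (pr_scaleT 6847 2125 h1)) (pr_cmul (enc_norm (bf2q2_3.enc h1.l h2)) (pr_norm (pr_subr 591 170000 (pr_scaleT 3 850 h1)))))) (pr_case (pr_subr 13 10 h1) (pr_add (pr_csub (enc_rat _ 3061051 725000) (pr_scaleT 46721 14500 h1)) (pr_cmul (enc_norm (bf2q2_3.enc h1.l h2)) (pr_norm (pr_subr 981 290000 (pr_scaleT 1 290 h1))))) (pr_add (pr_csub (enc_rat _ 844431 200000) (pr_scaleT 64443 20000 h1)) (pr_cmul (enc_norm (bf2q2_3.enc h1.l h2)) (pr_norm (pr_subr 7 2500 (pr_scaleT 3 1000 h1)))))))))⟩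
noncomputable def kf2q2_sf : Sl2 kf2q2 := ⟨_, fun h1 h2 => (pr_norm (pr_mul (cv2p_sf.snd h1) (bf2q2_sf.snd h1 h2)))⟩
noncomputable def bx2q2_sf : Sl2 bx2q2 := ⟨_, fun h1 h2 => (pr_norm (pr_case (pr_subr 21 20 h1) (pr_case (pr_subr 2081 2048 h1) (pr_add (pr_csub (enc_rat _ 2112 3125) (pr_scaleT 2112 3125 h1)) (pr_cmul (enc_norm (bx2q2_3.enc h1.l h2)) (pr_norm (pr_subr 17408 20625 (pr_scaleT 17408 20625 h1))))) (pr_case (pr_subr 25779 25000 h1) (pr_add (pr_csub (enc_rat _ 6502305389 9629900000) (pr_scaleT 65024 96299 h1)) (pr_cmul (enc_norm (bx2q2_3.enc h1.l h2)) (pr_norm (pr_subr 57592649 68785000 (pr_scaleT 11520 13757 h1))))) (pr_add (pr_csub (enc_rat _ 2652101 3925000) (pr_scaleT 1273 1884 h1)) (pr_cmul (enc_norm (bx2q2_3.enc h1.l h2)) (pr_norm (pr_subr 16457 19625 (pr_scaleT 395 471 h1))))))) (pr_case (pr_subr 231 200 h1) (pr_case (pr_subr 107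 100 h1) (pr_add (pr_csub (enc_rat _ 2106 3125) (pr_scaleT 337 500 h1)) (pr_cmul (enc_norm (bx2q2_3.enc h1.l h2)) (pr_norm (pr_subr 3297 4000 (pr_scaleT 33 40 h1))))) (pr_add (pr_csub (enc_rat _ 572297 850000) (pr_scaleT 1431 2125 h1)) (pr_cmul (enc_norm (bx2q2_3.enc h1.l h2)) (pr_norm (pr_subr 138357 170000 (pr_scaleT 693 850 h1)))))) (pr_case (pr_subr 13 10 h1) (pr_add (pr_subr 570163 362500 (pr_scaleT 9217 7250 h1)) (pr_cmul (enc_norm (bx2q2_3.enc h1.l h2)) (pr_norm (pr_subr 45579 58000 (pr_scaleT 1147 1450 h1))))) (pr_add (pr_subr 157337 100000 (pr_scaleT 12717 10000 h1)) (pr_cmul (enc_norm (bx2q2_3.enc h1.l h2)) (pr_norm (pr_subr 7767 10000 (pr_scaleT 98 125 h1)))))))))⟩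
noncomputable def l2q2_sf : Sl2 l2q2 := ⟨_, fun h1 h2 => (pr_norm (pr_mul (cv2p_sf.snd h1) (bx2q2_sf.snd h1 h2)))⟩
noncomputable def dlg : Fn2 := ⟨_, _, fun h1 h2 => (kcg.enc (enc_norm (enc_sub (enc_scaleT 3 4 h1) (enc_half (c1g.enc h1)))) h2)⟩
noncomputable def kq02_5 : Fn2 := ⟨_, _, fun h1 h2 => (enc_scaleT 6591 2000 h2)⟩
noncomputable def kq02 : Fn2 := ⟨_, _, fun h1 h2 => (enc_norm (enc_add (enc_add (enc_rat _ 1515087 20000000) (kq02_5.enc h1 h2)) (enc_mul (enc_norm (enc_sub (enc_rat _ 18484913 20000000) (kq02_5.enc h1 h2))) (yag.enc h1))))⟩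
noncomputable def lq02 : Fn2 := ⟨_, _, fun h1 h2 => (enc_norm (enc_subr 3424606059 10000000000 (enc_scaleT 76813 1000000 h2)))⟩
noncomputable def cq02 : Fn2 := ⟨_, _, fun h1 h2 => (enc_norm (enc_sub (enc_rat _ 9743 500000) (enc_scaleT 1 50 h2)))⟩
noncomputable def pcE0 : Piece := ⟨Fn3.sc eng rsbq0, rlq0⟩
noncomputable def pcE1 : Piece := ⟨Fn3.sc eng rsbq1, rlq1⟩
noncomputable def pcE2 : Piece := ⟨Fn3.sc eng rsbq2, rlq2⟩
noncomputable def pcE3 : Piece := ⟨Fn3.sc eng rsbq3, rlq3⟩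

end Pool.Agent.Strip051.G.I9736_9750.Tab
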