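import Pool.Agent.Strip051.G.I9736_9750.Tab
import Pool.Agent.Strip051.PB.C12G
import Pool.Agent.Strip051.PB.PairU
import Pool.Agent.Strip051.PB.PairB

/-! # Slopes of the tables near the lattice heights (generated) -/

set_option linter.all false

namespace Pool.Agent.Strip051.G.I9736_9750.Tab

open Pool.Agent.Strip051.PB

attribute [local irreducible] padd psub pneg pmul psq pinv psqrt psqrtg pabs pps pmax pmin pphi plam
  pcase phf pnat prat pscale pnorm pdc pnc pone ppos pnn Enc pbad pzero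

noncomputable def idf_s : Sl1 idf := ⟨fun _ _ D => D, fun h => h⟩

theorem cv1r_two {b : ℝ} (h : b = 2) : cv1r.v b = 0 := by
  have e : swg.v = swn := by funext y; simp [swg, swn]
  subst h
  simp only [cv1r, e, swn_two]
  push_cast
  ring
theorem cv2r_two {b : ℝ} (h : b = 2) : cv2r.v b = 0 := by
  have e : swg.v = swn := by funext y; simp [swg, swn]
  subst h
  simp only [cv2r, e, swn_two]
  push_cast
  ring
noncomputable def c1g_s : Sl1 c1g := ⟨_, fun h1 => (pr_sqrtgz (pr_csub (enc_pnc _ 1) (pr_scaleT 3 4 (pr_sq h1))))⟩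
noncomputable def kcg_6_s : Sl2 kcg_6 := ⟨_, fun h1 h2 => (pr_addc h1 (enc_rat _ 1021 2246))⟩
noncomputable def kcg_9_s : Sl2 kcg_9 := ⟨_, fun h1 h2 => (pr_addc h1 (enc_rat _ 483 1000))⟩
noncomputable def kcg_12_s : Sl2 kcg_12 := ⟨_, fun h1 h2 => (pr_addc h1 (enc_rat _ 49 100))⟩
noncomputable def kcg_13_s : Sl2 kcg_13 := ⟨_, fun h1 h2 => (pr_scaleT 229992423 10000000 h1)⟩
noncomputable def kcg_18_s : Sl2 kcg_18 := ⟨_, fun h1 h2 => (pr_scaleT 70258693 500000 h1)⟩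
noncomputable def kcg_33_s : Sl2 kcg_33 := ⟨_, fun h1 h2 => (pr_addc h1 (enc_rat _ 1 2))⟩
noncomputable def kcg_34_s : Sl2 kcg_34 := ⟨_, fun h1 h2 => (pr_csub (enc_neg (enc_rat _ 49 100)) h1)⟩
noncomputable def kcg_39_s : Sl2 kcg_39 := ⟨_, fun h1 h2 => (pr_scaleT 16099899 700000 h1)⟩
noncomputable def kcg_44_s : Sl2 kcg_44 := ⟨_, fun h1 h2 => (pr_scaleT 876123 6250 h1)⟩
noncomputable def kcg_58_s : Sl2 kcg_58 := ⟨_, fun h1 h2 => (pr_csub (enc_neg (enc_rat _ 483 1000)) h1)⟩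
noncomputable def kcg_66_s : Sl2 kcg_66 := ⟨_, fun h1 h2 => (pr_addc h1 (enc_rat _ 661 1387))⟩
noncomputable def kcg_67_s : Sl2 kcg_67 := ⟨_, fun h1 h2 => (pr_scaleT 69386579351 8921000000 h1)⟩
noncomputable def kcg_72_s : Sl2 kcg_72 := ⟨_, fun h1 h2 => (pr_scaleT 23781336947 178420000 h1)⟩
noncomputable def kcg_86_s : Sl2 kcg_86 := ⟨_, fun h1 h2 => (pr_csub (enc_neg (enc_rat _ 661 1387)) h1)⟩
noncomputable def kcg_91_s : Sl2 kcg_91 := ⟨_, fun h1 h2 => (pr_scaleT 254897149841669 34239500000000 h1)⟩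
noncomputable def kcg_94_s : Sl2 kcg_94 := ⟨_, fun h1 h2 => (pr_scaleT 43903431176171 427993750000 h1)⟩
noncomputable def kcg_108_s : Sl2 kcg_108 := ⟨_, fun h1 h2 => (pr_csub (enc_neg (enc_rat _ 1021 2246)) h1)⟩
noncomputable def kcg_117_s : Sl2 kcg_117 := ⟨_, fun h1 h2 => (pr_addc h1 (enc_rat _ 41 100))⟩
noncomputable def kcg_120_s : Sl2 kcg_120 := ⟨_, fun h1 h2 => (pr_addc h1 (enc_rat _ 43 100))⟩
noncomputable def kcg_121_s : Sl2 kcg_121 := ⟨_, fun h1 h2 => (pr_scaleT 166344014517 27610000000 h1)⟩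
noncomputable def kcg_124_s : Sl2 kcg_124 := ⟨_, fun h1 h2 => (pr_scaleT 13025590529 251000000 h1)⟩
noncomputable def kcg_137_s : Sl2 kcg_137 := ⟨_, fun h1 h2 => (pr_csub (enc_neg (enc_rat _ 43 100)) h1)⟩
noncomputable def kcg_142_s : Sl2 kcg_142 := ⟨_, fun h1 h2 => (pr_scaleT 862321 250000 h1)⟩
noncomputable def kcg_145_s : Sl2 kcg_145 := ⟨_, fun h1 h2 => (pr_scaleT 1075159 100000 h1)⟩
noncomputable def kcg_158_s : Sl2 kcg_158 := ⟨_, fun h1 h2 => (pr_csub (enc_neg (enc_rat _ 41 100)) h1)⟩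
noncomputable def kcg_166_s : Sl2 kcg_166 := ⟨_, fun h1 h2 => (pr_addc h1 (enc_rat _ 3 10))⟩
noncomputable def kcg_167_s : Sl2 kcg_167 := ⟨_, fun h1 h2 => (pr_scaleT 4584697 2000000 h1)⟩
noncomputable def kcg_170_s : Sl2 kcg_170 := ⟨_, fun h1 h2 => (pr_scaleT 390333 100000 h1)⟩
noncomputable def kcg_181_s : Sl2 kcg_181 := ⟨_, fun h1 h2 => (pr_csub (enc_neg (enc_rat _ 3 10)) h1)⟩
noncomputable def kcg_189_s : Sl2 kcg_189 := ⟨_, fun h1 h2 => (pr_scaleT 228861 100000 h1)⟩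
noncomputable def kcg_192_s : Sl2 kcg_192 := ⟨_, fun h1 h2 => (pr_scaleT 36647 10000 h1)⟩
noncomputable def kcg_201_s : Sl2 kcg_201 := ⟨_, fun h1 h2 => (pr_csub (enc_neg (enc_rat _ 1 10)) h1)⟩
noncomputable def kcg_206_s : Sl2 kcg_206 := ⟨_, fun h1 h2 => (pr_scaleT 14291 6250 h1)⟩
noncomputable def kcg_209_s : Sl2 kcg_209 := ⟨_, fun h1 h2 => (pr_cmul (enc_norm (kcg_3.enc h1.l h2)) (pr_nd (pr_scaleT 6591 2000 h1)))⟩
noncomputable def kcg_216_s : Sl2 kcg_216 := ⟨_, fun h1 h2 => (pr_csub (enc_rat _ 1021 2246) h1)⟩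
noncomputable def kcg_217_s : Sl2 kcg_217 := ⟨_, fun h1 h2 => (pr_csub (enc_rat _ 483 1000) h1)⟩
noncomputable def kcg_218_s : Sl2 kcg_218 := ⟨_, fun h1 h2 => (pr_csub (enc_rat _ 49 100) h1)⟩
noncomputable def kcg_223_s : Sl2 kcg_223 := ⟨_, fun h1 h2 => (pr_csub (enc_rat _ 1 2) h1)⟩
noncomputable def kcg_224_s : Sl2 kcg_224 := ⟨_, fun h1 h2 => (pr_subr 49 100 h1)⟩
noncomputable def kcg_233_s : Sl2 kcg_233 := ⟨_, fun h1 h2 => (pr_subr 483 1000 h1)⟩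
noncomputable def kcg_239_s : Sl2 kcg_239 := ⟨_, fun h1 h2 => (pr_csub (enc_rat _ 661 1387) h1)⟩
noncomputable def kcg_244_s : Sl2 kcg_244 := ⟨_, fun h1 h2 => (pr_subr 661 1387 h1)⟩
noncomputable def kcg_254_s : Sl2 kcg_254 := ⟨_, fun h1 h2 => (pr_subr 1021 2246 h1)⟩
noncomputable def kcg_261_s : Sl2 kcg_261 := ⟨_, fun h1 h2 => (pr_csub (enc_rat _ 41 100) h1)⟩
noncomputable def kcg_262_s : Sl2 kcg_262 := ⟨_, fun h1 h2 => (pr_csub (enc_rat _ 43 100) h1)⟩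
noncomputable def kcg_268_s : Sl2 kcg_268 := ⟨_, fun h1 h2 => (pr_subr 43 100 h1)⟩
noncomputable def kcg_278_s : Sl2 kcg_278 := ⟨_, fun h1 h2 => (pr_subr 41 100 h1)⟩
noncomputable def kcg_284_s : Sl2 kcg_284 := ⟨_, fun h1 h2 => (pr_csub (enc_rat _ 3 10) h1)⟩
noncomputable def kcg_291_s : Sl2 kcg_291 := ⟨_, fun h1 h2 => (pr_subr 3 10 h1)⟩
noncomputable def kcg_303_s : Sl2 kcg_303 := ⟨_, fun h1 h2 => (pr_subr 1 10 h1)⟩
noncomputable def kcg_s : Sl2 kcg := ⟨_, fun h1 h2 => (pr_norm (pr_case h1 (pr_case (kcg_6_s.snd h1 h2) (pr_case (kcg_9_s.snd h1 h2) (pr_case (kcg_12_s.snd h1 h2) (pr_add (pr_add (pr_subr 12377897327 1000000000 (pr_neg (kcg_13_s.snd h1 h2))) (pr_cmul (enc_norm (kcg_3.enc h1.l h2)) (pr_norm (pr_subr 3238049231 50000000 (pr_neg (kcg_18_s.snd h1 h2)))))) (pr_mA (pr_cmul (enc_norm (kcg_30.enc h1.l h2)) (pr_norm (pr_mul (pr_norm (kcg_33_s.snd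 h1 h2)) (pr_norm (kcg_34_s.snd h1 h2))))) (pr_const (kcg_30.enc h1.l h2)) (kcg_33_s.snd h1 h2) (kcg_34_s.snd h1 h2) rfl rfl)) (pr_add (pr_add (pr_subr 123781979 10000000 (pr_neg (kcg_39_s.snd h1 h2))) (pr_cmul (enc_norm (kcg_3.enc h1.l h2)) (pr_norm (pr_subr 1614887717 25000000 (pr_neg (kcg_44_s.snd h1 h2)))))) (pr_mA (pr_cmul (enc_norm (kcg_57.enc h1.l h2)) (pr_norm (pr_mul (pr_norm (kcg_12_s.snd h1 h2)) (pr_norm (kcg_58_s.snd h1 h2))))) (pr_const (kcg_57.enc h1.l h2)) (kcg_12_s.snd h1 h2) (kcg_58_s.snd h1 h2) rfl rfl))) (pr_case (kcg_66_s.snd h1 h2) (pr_add (pr_add (pr_subr 44836853996923 8921000000000 (pr_neg (kcg_67_s.snd h1 h2))) (pr_cmul (enc_norm (kcg_3.enc h1.l h2)) (pr_norm (pr_subr 54656358729409 892100000000 (pr_neg (kcg_72_s.snd h1 h2)))))) (pr_mA (pr_cmul (enc_norm (kcg_85.enc h1.l h2)) (pr_norm (pr_mul (pr_norm (kcg_9_s.snd h1 h2)) (pr_norm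 (kcg_86_s.snd h1 h2))))) (pr_const (kcg_85.enc h1.l h2)) (kcg_9_s.snd h1 h2) (kcg_86_s.snd h1 h2) rfl rfl)) (pr_add (pr_add (pr_addc (kcg_91_s.snd h1 h2) (enc_rat _ 152607786148737 68479000000000)) (pr_cmul (enc_norm (kcg_3.enc h1.l h2)) (pr_norm (pr_subr 319332571208399 6847900000000 (pr_neg (kcg_94_s.snd h1 h2)))))) (pr_mA (pr_cmul (enc_norm (kcg_107.enc h1.l h2)) (pr_norm (pr_mul (pr_norm (kcg_66_s.snd h1 h2)) (pr_norm (kcg_108_s.snd h1 h2))))) (pr_const (kcg_107.enc h1.l h2)) (kcg_66_s.snd h1 h2) (kcg_108_s.snd h1 h2) rfl rfl)))) (pr_case (kcg_117_s.snd h1 h2) (pr_case (kcg_120_s.snd h1 h2) (pr_add (pr_add (pr_addc (kcg_121_s.snd h1 h2) (enc_rat _ 273189021301 172562500000)) (pr_cmul (enc_norm (kcg_3.enc h1.l h2)) (pr_norm (pr_subr 592148687697 25100000000 (pr_neg (kcg_124_s.snd h1 h2)))))) (pr_mA (pr_cmul (enc_norm (kcg_136.enc h1.l h2)) (pr_norm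 (pr_mul (pr_norm (kcg_6_s.snd h1 h2)) (pr_norm (kcg_137_s.snd h1 h2))))) (pr_const (kcg_136.enc h1.l h2)) (kcg_6_s.snd h1 h2) (kcg_137_s.snd h1 h2) rfl rfl)) (pr_add (pr_add (pr_addc (kcg_142_s.snd h1 h2) (enc_rat _ 95134021 200000000)) (pr_cmul (enc_norm (kcg_3.enc h1.l h2)) (pr_norm (pr_subr 29500041 5000000 (pr_neg (kcg_145_s.snd h1 h2)))))) (pr_mA (pr_cmul (enc_norm (kcg_157.enc h1.l h2)) (pr_norm (pr_mul (pr_norm (kcg_120_s.snd h1 h2)) (pr_norm (kcg_158_s.snd h1 h2))))) (pr_const (kcg_157.enc h1.l h2)) (kcg_120_s.snd h1 h2) (kcg_158_s.snd h1 h2) rfl rfl))) (pr_case (kcg_166_s.snd h1 h2) (pr_add (pr_add (pr_addc (kcg_167_s.snd h1 h2) (enc_rat _ 26531 20000000)) (pr_cmul (enc_norm (kcg_3.enc h1.l h2)) (pr_norm (pr_addc (kcg_170_s.snd h1 h2) (enc_rat _ 108509 1000000))))) (pr_mA (pr_cmul (enc_norm (kcg_180.enc h1.l h2)) (pr_norm (pr_mul (pr_norm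 (kcg_117_s.snd h1 h2)) (pr_norm (kcg_181_s.snd h1 h2))))) (pr_const (kcg_180.enc h1.l h2)) (kcg_117_s.snd h1 h2) (kcg_181_s.snd h1 h2) rfl rfl)) (pr_case (pr_addc h1 (enc_rat _ 1 10)) (pr_add (pr_add (pr_addc (kcg_189_s.snd h1 h2) (enc_rat _ 41 200000)) (pr_cmul (enc_norm (kcg_3.enc h1.l h2)) (pr_norm (pr_addc (kcg_192_s.snd h1 h2) (enc_rat _ 923 25000))))) (pr_mA (pr_cmul (enc_norm (kcg_200.enc h1.l h2)) (pr_norm (pr_mul (pr_norm (kcg_166_s.snd h1 h2)) (pr_norm (kcg_201_s.snd h1 h2))))) (pr_const (kcg_200.enc h1.l h2)) (kcg_166_s.snd h1 h2) (kcg_201_s.snd h1 h2) rfl rfl)) (pr_add (kcg_206_s.snd h1 h2) (kcg_209_s.snd h1 h2)))))) (pr_neg (pr_case (kcg_216_s.snd h1 h2) (pr_case (kcg_217_s.snd h1 h2) (pr_case (kcg_218_s.snd h1 h2) (pr_add (pr_add (pr_subr 12377897327 1000000000 (kcg_13_s.snd h1 h2)) (pr_cmul (enc_norm (kcg_3.enc h1.l h2)) (pr_norm (pr_subr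 3238049231 50000000 (kcg_18_s.snd h1 h2))))) (pr_mA (pr_cmul (enc_norm (kcg_30.enc h1.l h2)) (pr_norm (pr_mul (pr_norm (kcg_223_s.snd h1 h2)) (pr_norm (kcg_224_s.snd h1 h2))))) (pr_const (kcg_30.enc h1.l h2)) (kcg_223_s.snd h1 h2) (kcg_224_s.snd h1 h2) rfl rfl)) (pr_add (pr_add (pr_subr 123781979 10000000 (kcg_39_s.snd h1 h2)) (pr_cmul (enc_norm (kcg_3.enc h1.l h2)) (pr_norm (pr_subr 1614887717 25000000 (kcg_44_s.snd h1 h2))))) (pr_mA (pr_cmul (enc_norm (kcg_57.enc h1.l h2)) (pr_norm (pr_mul (pr_norm (kcg_218_s.snd h1 h2)) (pr_norm (kcg_233_s.snd h1 h2))))) (pr_const (kcg_57.enc h1.l h2)) (kcg_218_s.snd h1 h2) (kcg_233_s.snd h1 h2) rfl rfl))) (pr_case (kcg_239_s.snd h1 h2) (pr_add (pr_add (pr_subr 44836853996923 8921000000000 (kcg_67_s.snd h1 h2)) (pr_cmul (enc_norm (kcg_3.enc h1.l h2)) (pr_norm (pr_subr 54656358729409 892100000000 (kcg_72_s.snd h1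 h2))))) (pr_mA (pr_cmul (enc_norm (kcg_85.enc h1.l h2)) (pr_norm (pr_mul (pr_norm (kcg_217_s.snd h1 h2)) (pr_norm (kcg_244_s.snd h1 h2))))) (pr_const (kcg_85.enc h1.l h2)) (kcg_217_s.snd h1 h2) (kcg_244_s.snd h1 h2) rfl rfl)) (pr_add (pr_add (pr_csub (enc_rat _ 152607786148737 68479000000000) (kcg_91_s.snd h1 h2)) (pr_cmul (enc_norm (kcg_3.enc h1.l h2)) (pr_norm (pr_subr 319332571208399 6847900000000 (kcg_94_s.snd h1 h2))))) (pr_mA (pr_cmul (enc_norm (kcg_107.enc h1.l h2)) (pr_norm (pr_mul (pr_norm (kcg_239_s.snd h1 h2)) (pr_norm (kcg_254_s.snd h1 h2))))) (pr_const (kcg_107.enc h1.l h2)) (kcg_239_s.snd h1 h2) (kcg_254_s.snd h1 h2) rfl rfl)))) (pr_case (kcg_261_s.snd h1 h2) (pr_case (kcg_262_s.snd h1 h2) (pr_add (pr_add (pr_csub (enc_rat _ 273189021301 172562500000) (kcg_121_s.snd h1 h2)) (pr_cmul (enc_norm (kcg_3.enc h1.l h2)) (pr_norm (pr_subr 592148687697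 25100000000 (kcg_124_s.snd h1 h2))))) (pr_mA (pr_cmul (enc_norm (kcg_136.enc h1.l h2)) (pr_norm (pr_mul (pr_norm (kcg_216_s.snd h1 h2)) (pr_norm (kcg_268_s.snd h1 h2))))) (pr_const (kcg_136.enc h1.l h2)) (kcg_216_s.snd h1 h2) (kcg_268_s.snd h1 h2) rfl rfl)) (pr_add (pr_add (pr_csub (enc_rat _ 95134021 200000000) (kcg_142_s.snd h1 h2)) (pr_cmul (enc_norm (kcg_3.enc h1.l h2)) (pr_norm (pr_subr 29500041 5000000 (kcg_145_s.snd h1 h2))))) (pr_mA (pr_cmul (enc_norm (kcg_157.enc h1.l h2)) (pr_norm (pr_mul (pr_norm (kcg_262_s.snd h1 h2)) (pr_norm (kcg_278_s.snd h1 h2))))) (pr_const (kcg_157.enc h1.l h2)) (kcg_262_s.snd h1 h2) (kcg_278_s.snd h1 h2) rfl rfl))) (pr_case (kcg_284_s.snd h1 h2) (pr_add (pr_add (pr_csub (enc_rat _ 26531 20000000) (kcg_167_s.snd h1 h2)) (pr_cmul (enc_norm (kcg_3.enc h1.l h2)) (pr_norm (pr_csub (enc_rat _ 108509 1000000) (kcg_170_s.snd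 h1 h2))))) (pr_mA (pr_cmul (enc_norm (kcg_180.enc h1.l h2)) (pr_norm (pr_mul (pr_norm (kcg_261_s.snd h1 h2)) (pr_norm (kcg_291_s.snd h1 h2))))) (pr_const (kcg_180.enc h1.l h2)) (kcg_261_s.snd h1 h2) (kcg_291_s.snd h1 h2) rfl rfl)) (pr_case (pr_csub (enc_rat _ 1 10) h1) (pr_add (pr_add (pr_csub (enc_rat _ 41 200000) (kcg_189_s.snd h1 h2)) (pr_cmul (enc_norm (kcg_3.enc h1.l h2)) (pr_norm (pr_csub (enc_rat _ 923 25000) (kcg_192_s.snd h1 h2))))) (pr_mA (pr_cmul (enc_norm (kcg_200.enc h1.l h2)) (pr_norm (pr_mul (pr_norm (kcg_284_s.snd h1 h2)) (pr_norm (kcg_303_s.snd h1 h2))))) (pr_const (kcg_200.enc h1.l h2)) (kcg_284_s.snd h1 h2) (kcg_303_s.snd h1 h2) rfl rfl)) (pr_sub (pr_neg (kcg_206_s.snd h1 h2)) (kcg_209_s.snd h1 h2)))))))))⟩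
noncomputable def kf0q0_9_s : Sl2 kf0q0_9 := ⟨_, fun h1 h2 => (pr_scaleT 3 2 h1)⟩
noncomputable def kf0q0_12_s : Sl2 kf0q0_12 := ⟨_, fun h1 h2 => (pr_cadd (enc_pnc _ 1) (c1g_s.snd h1))⟩
noncomputable def kf0q0_s : Sl2 kf0q0 := ⟨_, fun h1 h2 => (pr_norm (pr_add (pr_mul (pr_norm (pr_mul (pr_norm (pr_sub (c1g_s.snd h1) (kf0q0_9_s.snd h1 h2))) (pr_norm (kf0q0_12_s.snd h1 h2)))) (pr_nd (pr_inv (pr_sub (kf0q0_12_s.snd h1 h2) (kf0q0_9_s.snd h1 h2))))) (pr_mul h1 (kcg_s.snd (pr_norm (pr_sub (pr_scaleT 3 4 h1) (pr_half (c1g_s.snd h1)))) h2))))⟩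
noncomputable def txg_6_s : Sl3 txg_6 := ⟨_, fun h1 h2 h3 => (pr_add h1 (pr_half h2))⟩
noncomputable def txg_26_s : Sl3 txg_26 := ⟨_, fun h1 h2 h3 => (pr_addc h1 (enc_rat _ 1 5))⟩
noncomputable def txg_29_s : Sl3 txg_29 := ⟨_, fun h1 h2 h3 => (pr_addc h1 (enc_rat _ 21 50))⟩
noncomputable def txg_32_s : Sl3 txg_32 := ⟨_, fun h1 h2 h3 => (pr_addc h1 (enc_rat _ 23 50))⟩
noncomputable def txg_35_s : Sl3 txg_35 := ⟨_, fun h1 h2 h3 => (pr_addc h1 (enc_rat _ 483 1000))⟩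
noncomputable def txg_38_s : Sl3 txg_38 := ⟨_, fun h1 h2 h3 => (pr_addc h1 (enc_rat _ 49 100))⟩
noncomputable def txg_58_s : Sl3 txg_58 := ⟨_, fun h1 h2 h3 => (pr_addc h1 (enc_rat _ 1 2))⟩
noncomputable def txg_59_s : Sl3 txg_59 := ⟨_, fun h1 h2 h3 => (pr_csub (enc_neg (enc_rat _ 49 100)) h1)⟩
noncomputable def txg_78_s : Sl3 txg_78 := ⟨_, fun h1 h2 h3 => (pr_csub (enc_neg (enc_rat _ 483 1000)) h1)⟩
noncomputable def txg_86_s : Sl3 txg_86 := ⟨_, fun h1 h2 h3 => (pr_addc h1 (enc_rat _ 59571 125000))⟩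
noncomputable def txg_101_s : Sl3 txg_101 := ⟨_, fun h1 h2 h3 => (pr_csub (enc_neg (enc_rat _ 59571 125000)) h1)⟩
noncomputable def txg_122_s : Sl3 txg_122 := ⟨_, fun h1 h2 h3 => (pr_csub (enc_neg (enc_rat _ 23 50)) h1)⟩
noncomputable def txg_131_s : Sl3 txg_131 := ⟨_, fun h1 h2 h3 => (pr_addc h1 (enc_rat _ 11 25))⟩
noncomputable def txg_134_s : Sl3 txg_134 := ⟨_, fun h1 h2 h3 => (pr_addc h1 (enc_rat _ 227293 500000))⟩
noncomputable def txg_153_s : Sl3 txg_153 := ⟨_, fun h1 h2 h3 => (pr_csub (enc_neg (enc_rat _ 227293 500000)) h1)⟩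
noncomputable def txg_173_s : Sl3 txg_173 := ⟨_, fun h1 h2 h3 => (pr_csub (enc_neg (enc_rat _ 11 25)) h1)⟩
noncomputable def txg_181_s : Sl3 txg_181 := ⟨_, fun h1 h2 h3 => (pr_addc h1 (enc_rat _ 43 100))⟩
noncomputable def txg_197_s : Sl3 txg_197 := ⟨_, fun h1 h2 h3 => (pr_csub (enc_neg (enc_rat _ 43 100)) h1)⟩
noncomputable def txg_217_s : Sl3 txg_217 := ⟨_, fun h1 h2 h3 => (pr_csub (enc_neg (enc_rat _ 21 50)) h1)⟩
noncomputable def txg_227_s : Sl3 txg_227 := ⟨_, fun h1 h2 h3 => (pr_addc h1 (enc_rat _ 3 8))⟩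
noncomputable def txg_230_s : Sl3 txg_230 := ⟨_, fun h1 h2 h3 => (pr_addc h1 (enc_rat _ 2 5))⟩
noncomputable def txg_233_s : Sl3 txg_233 := ⟨_, fun h1 h2 h3 => (pr_addc h1 (enc_rat _ 41 100))⟩
noncomputable def txg_249_s : Sl3 txg_249 := ⟨_, fun h1 h2 h3 => (pr_csub (enc_neg (enc_rat _ 41 100)) h1)⟩
noncomputable def txg_269_s : Sl3 txg_269 := ⟨_, fun h1 h2 h3 => (pr_csub (enc_neg (enc_rat _ 2 5)) h1)⟩
noncomputable def txg_277_s : Sl3 txg_277 := ⟨_, fun h1 h2 h3 => (pr_addc h1 (enc_rat _ 39 100))⟩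
noncomputable def txg_293_s : Sl3 txg_293 := ⟨_, fun h1 h2 h3 => (pr_csub (enc_neg (enc_rat _ 39 100)) h1)⟩
noncomputable def txg_313_s : Sl3 txg_313 := ⟨_, fun h1 h2 h3 => (pr_csub (enc_neg (enc_rat _ 3 8)) h1)⟩
noncomputable def txg_322_s : Sl3 txg_322 := ⟨_, fun h1 h2 h3 => (pr_addc h1 (enc_rat _ 3 10))⟩
noncomputable def txg_325_s : Sl3 txg_325 := ⟨_, fun h1 h2 h3 => (pr_addc h1 (enc_rat _ 7 20))⟩
noncomputable def txg_338_s : Sl3 txg_338 := ⟨_, fun h1 h2 h3 => (pr_csub (enc_neg (enc_rat _ 7 20)) h1)⟩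
noncomputable def txg_355_s : Sl3 txg_355 := ⟨_, fun h1 h2 h3 => (pr_csub (enc_neg (enc_rat _ 3 10)) h1)⟩
noncomputable def txg_363_s : Sl3 txg_363 := ⟨_, fun h1 h2 h3 => (pr_addc h1 (enc_rat _ 1 4))⟩
noncomputable def txg_377_s : Sl3 txg_377 := ⟨_, fun h1 h2 h3 => (pr_csub (enc_neg (enc_rat _ 1 4)) h1)⟩
noncomputable def txg_397_s : Sl3 txg_397 := ⟨_, fun h1 h2 h3 => (pr_csub (enc_neg (enc_rat _ 1 5)) h1)⟩
noncomputable def txg_406_s : Sl3 txg_406 := ⟨_, fun h1 h2 h3 => (pr_subr 7 20 h1)⟩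
noncomputable def txg_408_s : Sl3 txg_408 := ⟨_, fun h1 h2 h3 => (pr_subr 3 20 h1)⟩
noncomputable def txg_411_s : Sl3 txg_411 := ⟨_, fun h1 h2 h3 => (pr_addc h1 (enc_rat _ 1 10))⟩
noncomputable def txg_413_s : Sl3 txg_413 := ⟨_, fun h1 h2 h3 => (pr_addc h1 (enc_rat _ 3 20))⟩
noncomputable def txg_429_s : Sl3 txg_429 := ⟨_, fun h1 h2 h3 => (pr_csub (enc_neg (enc_rat _ 3 20)) h1)⟩
noncomputable def txg_449_s : Sl3 txg_449 := ⟨_, fun h1 h2 h3 => (pr_csub (enc_neg (enc_rat _ 1 10)) h1)⟩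
noncomputable def txg_455_s : Sl3 txg_455 := ⟨_, fun h1 h2 h3 => (pr_subr 1 10 h1)⟩
noncomputable def txg_471_s : Sl3 txg_471 := ⟨_, fun h1 h2 h3 => (pr_csub (enc_rat _ 1 10) h1)⟩
noncomputable def txg_491_s : Sl3 txg_491 := ⟨_, fun h1 h2 h3 => (pr_csub (enc_rat _ 3 20) h1)⟩
noncomputable def txg_498_s : Sl3 txg_498 := ⟨_, fun h1 h2 h3 => (pr_subr 1 4 h1)⟩
noncomputable def txg_499_s : Sl3 txg_499 := ⟨_, fun h1 h2 h3 => (pr_subr 1 5 h1)⟩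
noncomputable def txg_513_s : Sl3 txg_513 := ⟨_, fun h1 h2 h3 => (pr_csub (enc_rat _ 1 5) h1)⟩
noncomputable def txg_532_s : Sl3 txg_532 := ⟨_, fun h1 h2 h3 => (pr_csub (enc_rat _ 1 4) h1)⟩
noncomputable def txg_538_s : Sl3 txg_538 := ⟨_, fun h1 h2 h3 => (pr_subr 3 10 h1)⟩
noncomputable def txg_553_s : Sl3 txg_553 := ⟨_, fun h1 h2 h3 => (pr_csub (enc_rat _ 3 10) h1)⟩
noncomputable def txg_572_s : Sl3 txg_572 := ⟨_, fun h1 h2 h3 => (pr_csub (enc_rat _ 7 20) h1)⟩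
noncomputable def txg_580_s : Sl3 txg_580 := ⟨_, fun h1 h2 h3 => (pr_subr 41 100 h1)⟩
noncomputable def txg_581_s : Sl3 txg_581 := ⟨_, fun h1 h2 h3 => (pr_subr 39 100 h1)⟩
noncomputable def txg_582_s : Sl3 txg_582 := ⟨_, fun h1 h2 h3 => (pr_subr 3 8 h1)⟩
noncomputable def txg_599_s : Sl3 txg_599 := ⟨_, fun h1 h2 h3 => (pr_csub (enc_rat _ 3 8) h1)⟩
noncomputable def txg_618_s : Sl3 txg_618 := ⟨_, fun h1 h2 h3 => (pr_csub (enc_rat _ 39 100) h1)⟩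
noncomputable def txg_624_s : Sl3 txg_624 := ⟨_, fun h1 h2 h3 => (pr_subr 2 5 h1)⟩
noncomputable def txg_641_s : Sl3 txg_641 := ⟨_, fun h1 h2 h3 => (pr_csub (enc_rat _ 2 5) h1)⟩
noncomputable def txg_662_s : Sl3 txg_662 := ⟨_, fun h1 h2 h3 => (pr_csub (enc_rat _ 41 100) h1)⟩
noncomputable def txg_669_s : Sl3 txg_669 := ⟨_, fun h1 h2 h3 => (pr_subr 43 100 h1)⟩
noncomputable def txg_670_s : Sl3 txg_670 := ⟨_, fun h1 h2 h3 => (pr_subr 21 50 h1)⟩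
noncomputable def txg_688_s : Sl3 txg_688 := ⟨_, fun h1 h2 h3 => (pr_csub (enc_rat _ 21 50) h1)⟩
noncomputable def txg_710_s : Sl3 txg_710 := ⟨_, fun h1 h2 h3 => (pr_csub (enc_rat _ 43 100) h1)⟩
noncomputable def txg_716_s : Sl3 txg_716 := ⟨_, fun h1 h2 h3 => (pr_subr 11 25 h1)⟩
noncomputable def txg_734_s : Sl3 txg_734 := ⟨_, fun h1 h2 h3 => (pr_csub (enc_rat _ 11 25) h1)⟩
noncomputable def txg_765_s : Sl3 txg_765 := ⟨_, fun h1 h2 h3 => (pr_csub (enc_rat _ 1021 2246) h1)⟩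
noncomputable def txg_776_s : Sl3 txg_776 := ⟨_, fun h1 h2 h3 => (pr_subr 661 1387 h1)⟩
noncomputable def txg_777_s : Sl3 txg_777 := ⟨_, fun h1 h2 h3 => (pr_subr 483 1000 h1)⟩
noncomputable def txg_801_s : Sl3 txg_801 := ⟨_, fun h1 h2 h3 => (pr_csub (enc_rat _ 483 1000) h1)⟩
noncomputable def txg_806_s : Sl3 txg_806 := ⟨_, fun h1 h2 h3 => (pr_subr 49 100 h1)⟩
noncomputable def txg_822_s : Sl3 txg_822 := ⟨_, fun h1 h2 h3 => (pr_csub (enc_rat _ 49 100) h1)⟩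
noncomputable def txg_844_s : Sl3 txg_844 := ⟨_, fun h1 h2 h3 => (pr_csub (enc_rat _ 1 2) h1)⟩
noncomputable def txg_s : Sl3 txg := ⟨_, fun h1 h2 h3 => (pr_case (pr_subr 1021 2246 h1) (pr_case (txg_26_s.snd h1 h2 h3) (pr_case (txg_29_s.snd h1 h2 h3) (pr_case (txg_32_s.snd h1 h2 h3) (pr_case (txg_35_s.snd h1 h2 h3) (pr_case (txg_38_s.snd h1 h2 h3) (pr_add (pr_add (pr_addc (pr_scaleT 16399 250000 h1) (enc_rat _ 16399 500000)) (pr_cmul (enc_norm (txg_4.enc h1.l h2.l h3)) (pr_norm (pr_subr 63553 40000 (pr_neg (pr_scaleT 63553 20000 h1)))))) (pr_mA (pr_cmul (enc_norm (txg_55.enc h1.l h2.l h3)) (pr_norm (pr_mul (pr_norm (txg_58_s.snd h1 h2 h3)) (pr_norm (txg_59_s.snd h1 h2 h3))))) (pr_const (txg_55.enc h1.l h2.l h3)) (txg_58_s.snd h1 h2 h3) (txg_59_s.snd h1 h2 h3) rfl rfl)) (pr_add (pr_add (pr_addc (pr_scaleT 29129 350000 h1) (enc_rat _ 517957 12500000))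 (pr_cmul (enc_norm (txg_4.enc h1.l h2.l h3)) (pr_norm (pr_subr 38451 2000000 (pr_scaleT 1793 70000 h1))))) (pr_mA (pr_cmul (enc_norm (txg_77.enc h1.l h2.l h3)) (pr_norm (pr_mul (pr_norm (txg_38_s.snd h1 h2 h3)) (pr_norm (txg_78_s.snd h1 h2 h3))))) (pr_const (txg_77.enc h1.l h2.l h3)) (txg_38_s.snd h1 h2 h3) (txg_78_s.snd h1 h2 h3) rfl rfl))) (pr_case (txg_86_s.snd h1 h2 h3) (pr_add (pr_add (pr_addc (pr_scaleT 1843 32160 h1) (enc_rat _ 193750093 6700000000)) (pr_cmul (enc_norm (txg_4.enc h1.l h2.l h3)) (pr_norm (pr_subr 2027366871 2680000000 (pr_neg (pr_scaleT 32177 21440 h1)))))) (pr_mA (pr_cmul (enc_norm (txg_100.enc h1.l h2.l h3)) (pr_norm (pr_mul (pr_norm (txg_35_s.snd h1 h2 h3)) (pr_norm (txg_101_s.snd h1 h2 h3))))) (pr_const (txg_100.enc h1.l h2.l h3)) (txg_35_s.snd h1 h2 h3) (txg_101_s.snd h1 h2 h3) rfl rfl)) (pr_add (pr_add (pr_addc (pr_scaleT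 279 103550 h1) (enc_rat _ 299381819 103550000000)) (pr_cmul (enc_norm (txg_4.enc h1.l h2.l h3)) (pr_norm (pr_subr 22248622653 20710000000 (pr_neg (pr_scaleT 17957 8284 h1)))))) (pr_mA (pr_cmul (enc_norm (txg_121.enc h1.l h2.l h3)) (pr_norm (pr_mul (pr_norm (txg_86_s.snd h1 h2 h3)) (pr_norm (txg_122_s.snd h1 h2 h3))))) (pr_const (txg_121.enc h1.l h2.l h3)) (txg_86_s.snd h1 h2 h3) (txg_122_s.snd h1 h2 h3) rfl rfl)))) (pr_case (txg_131_s.snd h1 h2 h3) (pr_case (txg_134_s.snd h1 h2 h3) (pr_add (pr_add (pr_subr 1099851577 135350000000 (pr_neg (pr_scaleT 2877 135350 h1))) (pr_cmul (enc_norm (txg_4.enc h1.l h2.l h3)) (pr_norm (pr_subr 18391007601 27070000000 (pr_neg (pr_scaleT 70879 54140 h1)))))) (pr_mA (pr_cmul (enc_norm (txg_152.enc h1.l h2.l h3)) (pr_norm (pr_mul (pr_norm (txg_32_s.snd h1 h2 h3)) (pr_norm (txg_153_s.snd h1 h2 h3))))) (pr_const (txg_152.enc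 h1.l h2.l h3)) (txg_32_s.snd h1 h2 h3) (txg_153_s.snd h1 h2 h3) rfl rfl)) (pr_add (pr_add (pr_addc (pr_scaleT 3853 37400 h1) (enc_rat _ 82226929 1700000000)) (pr_cmul (enc_norm (txg_4.enc h1.l h2.l h3)) (pr_norm (pr_addc (pr_scaleT 108593 29172 h1) (enc_rat _ 10660693709 6630000000))))) (pr_mA (pr_cmul (enc_norm (txg_172.enc h1.l h2.l h3)) (pr_norm (pr_mul (pr_norm (txg_134_s.snd h1 h2 h3)) (pr_norm (txg_173_s.snd h1 h2 h3))))) (pr_const (txg_172.enc h1.l h2.l h3)) (txg_134_s.snd h1 h2 h3) (txg_173_s.snd h1 h2 h3) rfl rfl))) (pr_case (txg_181_s.snd h1 h2 h3) (pr_add (pr_add (pr_addc (pr_scaleT 157409 500000 h1) (enc_rat _ 14155929 100000000)) (pr_cmul (enc_norm (txg_4.enc h1.l h2.l h3)) (pr_norm (pr_addc (pr_scaleT 108283 10000 h1) (enc_rat _ 47344963 10000000))))) (pr_mA (pr_cmul (enc_norm (txg_196.enc h1.l h2.l h3)) (pr_norm (pr_mul (pr_norm (txg_131_s.snd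 h1 h2 h3)) (pr_norm (txg_197_s.snd h1 h2 h3))))) (pr_const (txg_196.enc h1.l h2.l h3)) (txg_131_s.snd h1 h2 h3) (txg_197_s.snd h1 h2 h3) rfl rfl)) (pr_add (pr_add (pr_addc (pr_scaleT 486869 1000000 h1) (enc_rat _ 10777061 50000000)) (pr_cmul (enc_norm (txg_4.enc h1.l h2.l h3)) (pr_norm (pr_addc (pr_scaleT 1625647 100000 h1) (enc_rat _ 35343047 5000000))))) (pr_mA (pr_cmul (enc_norm (txg_216.enc h1.l h2.l h3)) (pr_norm (pr_mul (pr_norm (txg_181_s.snd h1 h2 h3)) (pr_norm (txg_217_s.snd h1 h2 h3))))) (pr_const (txg_216.enc h1.l h2.l h3)) (txg_181_s.snd h1 h2 h3) (txg_217_s.snd h1 h2 h3) rfl rfl))))) (pr_case (txg_227_s.snd h1 h2 h3) (pr_case (txg_230_s.snd h1 h2 h3) (pr_case (txg_233_s.snd h1 h2 h3) (pr_add (pr_add (pr_addc (pr_scaleT 657829 1000000 h1) (enc_rat _ 14367221 50000000)) (pr_cmul (enc_norm (txg_4.enc h1.l h2.l h3)) (pr_norm (pr_addc (pr_scaleT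 2147721 100000 h1) (enc_rat _ 46306601 5000000))))) (pr_mA (pr_cmul (enc_norm (txg_248.enc h1.l h2.l h3)) (pr_norm (pr_mul (pr_norm (txg_29_s.snd h1 h2 h3)) (pr_norm (txg_249_s.snd h1 h2 h3))))) (pr_const (txg_248.enc h1.l h2.l h3)) (txg_29_s.snd h1 h2 h3) (txg_249_s.snd h1 h2 h3) rfl rfl)) (pr_add (pr_add (pr_addc (pr_scaleT 790013 1000000 h1) (enc_rat _ 17076993 50000000)) (pr_cmul (enc_norm (txg_4.enc h1.l h2.l h3)) (pr_norm (pr_addc (pr_scaleT 2621707 100000 h1) (enc_rat _ 28011657 2500000))))) (pr_mA (pr_cmul (enc_norm (txg_268.enc h1.l h2.l h3)) (pr_norm (pr_mul (pr_norm (txg_233_s.snd h1 h2 h3)) (pr_norm (txg_269_s.snd h1 h2 h3))))) (pr_const (txg_268.enc h1.l h2.l h3)) (txg_233_s.snd h1 h2 h3) (txg_269_s.snd h1 h2 h3) rfl rfl))) (pr_case (txg_277_s.snd h1 h2 h3) (pr_add (pr_add (pr_addc (pr_scaleT 883837 1000000 h1) (enc_rat _ 18953473 50000000))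 (pr_cmul (enc_norm (txg_4.enc h1.l h2.l h3)) (pr_norm (pr_addc (pr_scaleT 598613 20000 h1) (enc_rat _ 31725237 2500000))))) (pr_mA (pr_cmul (enc_norm (txg_292.enc h1.l h2.l h3)) (pr_norm (pr_mul (pr_norm (txg_230_s.snd h1 h2 h3)) (pr_norm (txg_293_s.snd h1 h2 h3))))) (pr_const (txg_292.enc h1.l h2.l h3)) (txg_230_s.snd h1 h2 h3) (txg_293_s.snd h1 h2 h3) rfl rfl)) (pr_add (pr_add (pr_addc (pr_scaleT 1438907 1500000 h1) (enc_rat _ 8169777 20000000)) (pr_cmul (enc_norm (txg_4.enc h1.l h2.l h3)) (pr_norm (pr_addc (pr_scaleT 2447209 75000 h1) (enc_rat _ 137426281 10000000))))) (pr_mA (pr_cmul (enc_norm (txg_312.enc h1.l h2.l h3)) (pr_norm (pr_mul (pr_norm (txg_277_s.snd h1 h2 h3)) (pr_norm (txg_313_s.snd h1 h2 h3))))) (pr_const (txg_312.enc h1.l h2.l h3)) (txg_277_s.snd h1 h2 h3) (txg_313_s.snd h1 h2 h3) rfl rfl)))) (pr_case (txg_322_s.snd h1 h2 h3) (pr_case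 (txg_325_s.snd h1 h2 h3) (pr_add (pr_add (pr_addc (pr_scaleT 1164387 1250000 h1) (enc_rat _ 1990391 5000000)) (pr_cmul (enc_norm (txg_4.enc h1.l h2.l h3)) (pr_norm (pr_addc (pr_scaleT 1336751 50000 h1) (enc_rat _ 28830539 2500000))))) (pr_mA (pr_cmul (enc_norm (txg_337.enc h1.l h2.l h3)) (pr_norm (pr_mul (pr_norm (txg_227_s.snd h1 h2 h3)) (pr_norm (txg_338_s.snd h1 h2 h3))))) (pr_const (txg_337.enc h1.l h2.l h3)) (txg_227_s.snd h1 h2 h3) (txg_338_s.snd h1 h2 h3) rfl rfl)) (pr_add (pr_add (pr_addc (pr_scaleT 488199 625000 h1) (enc_rat _ 134938 390625)) (pr_cmul (enc_norm (txg_4.enc h1.l h2.l h3)) (pr_norm (pr_addc (pr_scaleT 103412 15625 h1) (enc_rat _ 22456937 5000000))))) (pr_mA (pr_cmul (enc_norm (txg_354.enc h1.l h2.l h3)) (pr_norm (pr_mul (pr_norm (txg_325_s.snd h1 h2 h3)) (pr_norm (txg_355_s.snd h1 h2 h3))))) (pr_const (txg_354.enc h1.l h2.l h3))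 (txg_325_s.snd h1 h2 h3) (txg_355_s.snd h1 h2 h3) rfl rfl))) (pr_case (txg_363_s.snd h1 h2 h3) (pr_add (pr_add (pr_addc (pr_scaleT 1716521 2500000 h1) (enc_rat _ 7927207 25000000)) (pr_cmul (enc_norm (txg_4.enc h1.l h2.l h3)) (pr_norm (pr_csub (enc_rat _ 1272313 2500000) (pr_scaleT 3328253 500000 h1))))) (pr_mA (pr_cmul (enc_norm (txg_376.enc h1.l h2.l h3)) (pr_norm (pr_mul (pr_norm (txg_322_s.snd h1 h2 h3)) (pr_norm (txg_377_s.snd h1 h2 h3))))) (pr_const (txg_376.enc h1.l h2.l h3)) (txg_322_s.snd h1 h2 h3) (txg_377_s.snd h1 h2 h3) rfl rfl)) (pr_add (pr_add (pr_addc (pr_scaleT 3409629 5000000 h1) (enc_rat _ 31591763 100000000)) (pr_cmul (enc_norm (txg_4.enc h1.l h2.l h3)) (pr_norm (pr_csub (enc_rat _ 3242031 5000000) (pr_scaleT 3049291 500000 h1))))) (pr_mA (pr_cmul (enc_norm (txg_396.enc h1.l h2.l h3)) (pr_norm (pr_mul (pr_norm (txg_363_s.snd h1 h2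 h3)) (pr_norm (txg_397_s.snd h1 h2 h3))))) (pr_const (txg_396.enc h1.l h2.l h3)) (txg_363_s.snd h1 h2 h3) (txg_397_s.snd h1 h2 h3) rfl rfl)))))) (pr_case (txg_406_s.snd h1 h2 h3) (pr_case (txg_408_s.snd h1 h2 h3) (pr_case (txg_411_s.snd h1 h2 h3) (pr_case (txg_413_s.snd h1 h2 h3) (pr_add (pr_add (pr_addc (pr_scaleT 1486527 2500000 h1) (enc_rat _ 29845463 100000000)) (pr_cmul (enc_norm (txg_4.enc h1.l h2.l h3)) (pr_norm (pr_csub (enc_rat _ 4965881 5000000) (pr_scaleT 1093683 250000 h1))))) (pr_mA (pr_cmul (enc_norm (txg_428.enc h1.l h2.l h3)) (pr_norm (pr_mul (pr_norm (txg_26_s.snd h1 h2 h3)) (pr_norm (txg_429_s.snd h1 h2 h3))))) (pr_const (txg_428.enc h1.l h2.l h3)) (txg_26_s.snd h1 h2 h3) (txg_429_s.snd h1 h2 h3) rfl rfl)) (pr_add (pr_add (pr_addc (pr_scaleT 535423 1250000 h1) (enc_rat _ 27351377 100000000)) (pr_cmul (enc_norm (txg_4.enc h1.l h2.l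 h3)) (pr_norm (pr_csub (enc_rat _ 6092381 5000000) (pr_scaleT 718183 250000 h1))))) (pr_mA (pr_cmul (enc_norm (txg_448.enc h1.l h2.l h3)) (pr_norm (pr_mul (pr_norm (txg_413_s.snd h1 h2 h3)) (pr_norm (txg_449_s.snd h1 h2 h3))))) (pr_const (txg_448.enc h1.l h2.l h3)) (txg_413_s.snd h1 h2 h3) (txg_449_s.snd h1 h2 h3) rfl rfl))) (pr_case (txg_455_s.snd h1 h2 h3) (pr_add (pr_add (pr_addc (pr_scaleT 2676217 20000000 h1) (enc_rat _ 48812203 200000000)) (pr_cmul (enc_norm (txg_4.enc h1.l h2.l h3)) (pr_norm (pr_csub (enc_rat _ 1201527 800000) (pr_scaleT 76813 2000000 h1))))) (pr_mA (pr_cmul (enc_norm (txg_470.enc h1.l h2.l h3)) (pr_norm (pr_mul (pr_norm (txg_411_s.snd h1 h2 h3)) (pr_norm (txg_471_s.snd h1 h2 h3))))) (pr_const (txg_470.enc h1.l h2.l h3)) (txg_411_s.snd h1 h2 h3) (txg_471_s.snd h1 h2 h3) rfl rfl)) (pr_add (pr_add (pr_csub (enc_rat _ 13571463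 50000000) (pr_scaleT 349679 2500000 h1)) (pr_cmul (enc_norm (txg_4.enc h1.l h2.l h3)) (pr_norm (pr_addc (pr_scaleT 136571 50000 h1) (enc_rat _ 12249261 10000000))))) (pr_mA (pr_cmul (enc_norm (txg_490.enc h1.l h2.l h3)) (pr_norm (pr_mul (pr_norm (txg_455_s.snd h1 h2 h3)) (pr_norm (txg_491_s.snd h1 h2 h3))))) (pr_const (txg_490.enc h1.l h2.l h3)) (txg_455_s.snd h1 h2 h3) (txg_491_s.snd h1 h2 h3) rfl rfl)))) (pr_case (txg_498_s.snd h1 h2 h3) (pr_case (txg_499_s.snd h1 h2 h3) (pr_add (pr_add (pr_csub (enc_rat _ 14597127 50000000) (pr_scaleT 691567 2500000 h1)) (pr_cmul (enc_norm (txg_4.enc h1.l h2.l h3)) (pr_norm (pr_addc (pr_scaleT 743709 500000 h1) (enc_rat _ 220551 156250))))) (pr_mA (pr_cmul (enc_norm (txg_512.enc h1.l h2.l h3)) (pr_norm (pr_mul (pr_norm (txg_408_s.snd h1 h2 h3)) (pr_norm (txg_513_s.snd h1 h2 h3))))) (pr_const (txg_512.enc h1.l h2.l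 h3)) (txg_408_s.snd h1 h2 h3) (txg_513_s.snd h1 h2 h3) rfl rfl)) (pr_add (pr_add (pr_csub (enc_rat _ 647841 2000000) (pr_scaleT 2182583 5000000 h1)) (pr_cmul (enc_norm (txg_4.enc h1.l h2.l h3)) (pr_norm (pr_csub (enc_rat _ 5566603 2500000) (pr_scaleT 647039 250000 h1))))) (pr_mA (pr_cmul (enc_norm (txg_531.enc h1.l h2.l h3)) (pr_norm (pr_mul (pr_norm (txg_499_s.snd h1 h2 h3)) (pr_norm (txg_532_s.snd h1 h2 h3))))) (pr_const (txg_531.enc h1.l h2.l h3)) (txg_499_s.snd h1 h2 h3) (txg_532_s.snd h1 h2 h3) rfl rfl))) (pr_case (txg_538_s.snd h1 h2 h3) (pr_add (pr_add (pr_csub (enc_rat _ 1476377 4000000) (pr_scaleT 1543029 2500000 h1)) (pr_cmul (enc_norm (txg_4.enc h1.l h2.l h3)) (pr_norm (pr_csub (enc_rat _ 32713787 10000000) (pr_scaleT 3383553 500000 h1))))) (pr_mA (pr_cmul (enc_norm (txg_552.enc h1.l h2.l h3)) (pr_norm (pr_mul (pr_norm (txg_498_s.snd h1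 h2 h3)) (pr_norm (txg_553_s.snd h1 h2 h3))))) (pr_const (txg_552.enc h1.l h2.l h3)) (txg_498_s.snd h1 h2 h3) (txg_553_s.snd h1 h2 h3) rfl rfl)) (pr_add (pr_add (pr_csub (enc_rat _ 1704527 4000000) (pr_scaleT 4036683 5000000 h1)) (pr_cmul (enc_norm (txg_4.enc h1.l h2.l h3)) (pr_norm (pr_csub (enc_rat _ 7702723 2000000) (pr_scaleT 4350191 500000 h1))))) (pr_mA (pr_cmul (enc_norm (txg_571.enc h1.l h2.l h3)) (pr_norm (pr_mul (pr_norm (txg_538_s.snd h1 h2 h3)) (pr_norm (txg_572_s.snd h1 h2 h3))))) (pr_const (txg_571.enc h1.l h2.l h3)) (txg_538_s.snd h1 h2 h3) (txg_572_s.snd h1 h2 h3) rfl rfl))))) (pr_case (txg_580_s.snd h1 h2 h3) (pr_case (txg_581_s.snd h1 h2 h3) (pr_case (txg_582_s.snd h1 h2 h3) (pr_add (pr_add (pr_csub (enc_rat _ 23791829 50000000) (pr_scaleT 74168 78125 h1)) (pr_cmul (enc_norm (txg_4.enc h1.l h2.l h3)) (pr_norm (pr_csub (enc_rat _ 19315037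 5000000) (pr_scaleT 1091707 125000 h1))))) (pr_mA (pr_cmul (enc_norm (txg_598.enc h1.l h2.l h3)) (pr_norm (pr_mul (pr_norm (txg_406_s.snd h1 h2 h3)) (pr_norm (txg_599_s.snd h1 h2 h3))))) (pr_const (txg_598.enc h1.l h2.l h3)) (txg_406_s.snd h1 h2 h3) (txg_599_s.snd h1 h2 h3) rfl rfl)) (pr_add (pr_add (pr_csub (enc_rat _ 3155523 6250000) (pr_scaleT 770107 750000 h1)) (pr_cmul (enc_norm (txg_4.enc h1.l h2.l h3)) (pr_norm (pr_csub (enc_rat _ 39207839 10000000) (pr_scaleT 1333159 150000 h1))))) (pr_mA (pr_cmul (enc_norm (txg_617.enc h1.l h2.l h3)) (pr_norm (pr_mul (pr_norm (txg_582_s.snd h1 h2 h3)) (pr_norm (txg_618_s.snd h1 h2 h3))))) (pr_const (txg_617.enc h1.l h2.l h3)) (txg_582_s.snd h1 h2 h3) (txg_618_s.snd h1 h2 h3) rfl rfl))) (pr_case (txg_624_s.snd h1 h2 h3) (pr_add (pr_add (pr_csub (enc_rat _ 51872621 100000000) (pr_scaleT 1062303 1000000 h1))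 (pr_cmul (enc_norm (txg_4.enc h1.l h2.l h3)) (pr_norm (pr_csub (enc_rat _ 9831213 2500000) (pr_scaleT 891773 100000 h1))))) (pr_mA (pr_cmul (enc_norm (txg_640.enc h1.l h2.l h3)) (pr_norm (pr_mul (pr_norm (txg_581_s.snd h1 h2 h3)) (pr_norm (txg_641_s.snd h1 h2 h3))))) (pr_const (txg_640.enc h1.l h2.l h3)) (txg_581_s.snd h1 h2 h3) (txg_641_s.snd h1 h2 h3) rfl rfl)) (pr_add (pr_add (pr_csub (enc_rat _ 52088221 100000000) (pr_scaleT 1067693 1000000 h1)) (pr_cmul (enc_norm (txg_4.enc h1.l h2.l h3)) (pr_norm (pr_csub (enc_rat _ 9127703 2500000) (pr_scaleT 410711 50000 h1))))) (pr_mA (pr_cmul (enc_norm (txg_661.enc h1.l h2.l h3)) (pr_norm (pr_mul (pr_norm (txg_624_s.snd h1 h2 h3)) (pr_norm (txg_662_s.snd h1 h2 h3))))) (pr_const (txg_661.enc h1.l h2.l h3)) (txg_624_s.snd h1 h2 h3) (txg_662_s.snd h1 h2 h3) rfl rfl)))) (pr_case (txg_669_s.snd h1 h2 h3) (pr_case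 (txg_670_s.snd h1 h2 h3) (pr_add (pr_add (pr_csub (enc_rat _ 25570909 50000000) (pr_scaleT 104461 100000 h1)) (pr_cmul (enc_norm (txg_4.enc h1.l h2.l h3)) (pr_norm (pr_csub (enc_rat _ 7951413 2500000) (pr_scaleT 353331 50000 h1))))) (pr_mA (pr_cmul (enc_norm (txg_687.enc h1.l h2.l h3)) (pr_norm (pr_mul (pr_norm (txg_580_s.snd h1 h2 h3)) (pr_norm (txg_688_s.snd h1 h2 h3))))) (pr_const (txg_687.enc h1.l h2.l h3)) (txg_580_s.snd h1 h2 h3) (txg_688_s.snd h1 h2 h3) rfl rfl)) (pr_add (pr_add (pr_csub (enc_rat _ 981547 2000000) (pr_scaleT 15554 15625 h1)) (pr_cmul (enc_norm (txg_4.enc h1.l h2.l h3)) (pr_norm (pr_csub (enc_rat _ 2701509 1000000) (pr_scaleT 592601 100000 h1))))) (pr_mA (pr_cmul (enc_norm (txg_709.enc h1.l h2.l h3)) (pr_norm (pr_mul (pr_norm (txg_670_s.snd h1 h2 h3)) (pr_norm (txg_710_s.snd h1 h2 h3))))) (pr_const (txg_709.enc h1.l h2.l h3))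 (txg_670_s.snd h1 h2 h3) (txg_710_s.snd h1 h2 h3) rfl rfl))) (pr_case (txg_716_s.snd h1 h2 h3) (pr_add (pr_add (pr_csub (enc_rat _ 23424631 50000000) (pr_scaleT 23591 25000 h1)) (pr_cmul (enc_norm (txg_4.enc h1.l h2.l h3)) (pr_norm (pr_csub (enc_rat _ 1406089 625000) (pr_scaleT 487539 100000 h1))))) (pr_mA (pr_cmul (enc_norm (txg_733.enc h1.l h2.l h3)) (pr_norm (pr_mul (pr_norm (txg_669_s.snd h1 h2 h3)) (pr_norm (txg_734_s.snd h1 h2 h3))))) (pr_const (txg_733.enc h1.l h2.l h3)) (txg_669_s.snd h1 h2 h3) (txg_734_s.snd h1 h2 h3) rfl rfl)) (pr_add (pr_add (pr_add (pr_csub (enc_rat _ 62881175802322873 143708906250000000) (pr_scaleT 2510126436598909 2874178125000000 h1)) (pr_cmul (enc_norm (txg_4.enc h1.l h2.l h3)) (pr_norm (pr_csub (enc_rat _ 4571012994437381 3592722656250000) (pr_scaleT 762785293108217 287417812500000 h1))))) (pr_cmul (txg_753.enc h1.l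 h2.l h3) (pr_norm (pr_subr 148181 91406250 (pr_scaleT 13471 3656250 h1))))) (pr_mA (pr_cmul (enc_norm (txg_764.enc h1.l h2.l h3)) (pr_norm (pr_mul (pr_norm (txg_716_s.snd h1 h2 h3)) (pr_norm (txg_765_s.snd h1 h2 h3))))) (pr_const (txg_764.enc h1.l h2.l h3)) (txg_716_s.snd h1 h2 h3) (txg_765_s.snd h1 h2 h3) rfl rfl))))))) (pr_case (txg_776_s.snd h1 h2 h3) (pr_sub (pr_mul (pr_norm (pr_csub (enc_pnc _ 1) h2)) (pr_norm (pr_subn 1 (pr_nat 2 h2)))) (pr_mul (pr_norm (pr_nat 2 (pr_subc (pr_scaleT 4 3 (txg_6_s.snd h1 h2 h3)) h3))) (pr_norm (pr_mul (pr_norm (pr_subn 1 (pr_add (pr_scaleT 2 3 (txg_6_s.snd h1 h2 h3)) h2))) (kcg_s.snd h1 h3))))) (pr_case (txg_777_s.snd h1 h2 h3) (pr_add (pr_add (pr_add (pr_csub (enc_rat _ 28186823748289556569 61867135000000000000) (pr_scaleT 56339567582412643 61867135000000000 h1)) (pr_cmul (enc_norm (txg_4.enc h1.l h2.l h3)) (pr_norm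 (pr_csub (enc_rat _ 5845020371939994627 6186713500000000000) (pr_scaleT 11737478296061169 6186713500000000 h1))))) (pr_cmul (txg_753.enc h1.l h2.l h3) (pr_norm (pr_subr 2286214662753 446050000000 (pr_scaleT 4733363691 446050000 h1))))) (pr_mA (pr_cmul (enc_norm (txg_800.enc h1.l h2.l h3)) (pr_norm (pr_mul (pr_norm (txg_776_s.snd h1 h2 h3)) (pr_norm (txg_801_s.snd h1 h2 h3))))) (pr_const (txg_800.enc h1.l h2.l h3)) (txg_776_s.snd h1 h2 h3) (txg_801_s.snd h1 h2 h3) rfl rfl)) (pr_case (txg_806_s.snd h1 h2 h3) (pr_add (pr_add (pr_csub (enc_rat _ 23202443 50000000) (pr_scaleT 649699 700000 h1)) (pr_cmul (enc_norm (txg_4.enc h1.l h2.l h3)) (pr_norm (pr_csub (enc_rat _ 311493 250000) (pr_scaleT 176457 70000 h1))))) (pr_mA (pr_cmul (enc_norm (txg_821.enc h1.l h2.l h3)) (pr_norm (pr_mul (pr_norm (txg_777_s.snd h1 h2 h3)) (pr_norm (txg_822_s.snd h1 h2 h3)))))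 (pr_const (txg_821.enc h1.l h2.l h3)) (txg_777_s.snd h1 h2 h3) (txg_822_s.snd h1 h2 h3) rfl rfl)) (pr_add (pr_add (pr_csub (enc_rat _ 231489 500000) (pr_scaleT 231489 250000 h1)) (pr_cmul (enc_norm (txg_4.enc h1.l h2.l h3)) (pr_norm (pr_csub (enc_rat _ 10773 20000) (pr_scaleT 10773 10000 h1))))) (pr_mA (pr_cmul (enc_norm (txg_843.enc h1.l h2.l h3)) (pr_norm (pr_mul (pr_norm (txg_806_s.snd h1 h2 h3)) (pr_norm (txg_844_s.snd h1 h2 h3))))) (pr_const (txg_843.enc h1.l h2.l h3)) (txg_806_s.snd h1 h2 h3) (txg_844_s.snd h1 h2 h3) rfl rfl))))))⟩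
noncomputable def l0q0_s : Sl2 l0q0 := ⟨_, fun h1 h2 => (pr_norm (txg_s.snd (pr_norm (pr_sub (pr_scaleT 3 4 h1) (pr_half (c1g_s.snd h1)))) (pr_nd (c1g_s.snd h1)) h2))⟩
noncomputable def kc0q0_8_s : Sl2 kc0q0_8 := ⟨_, fun h1 h2 => (pr_sub (pr_scaleT 3 4 h1) (pr_half (c1g_s.snd h1)))⟩
noncomputable def kc0q0_s : Sl2 kc0q0 := ⟨_, fun h1 h2 => (pr_norm (pr_case (pr_addc (kc0q0_8_s.snd h1 h2) (enc_rat _ 333 1000)) (pr_case (pr_addc (kc0q0_8_s.snd h1 h2) (enc_rat _ 93 200)) (pr_case (pr_addc (kc0q0_8_s.snd h1 h2) (enc_rat _ 49 100)) (pr_add (pr_subr 603 50 (pr_neg (pr_scaleT 603 25 (kc0q0_8_s.snd h1 h2)))) (pr_cmul (enc_norm (kc0q0_3.enc h1.l h2)) (pr_norm (pr_subr 14 5 (pr_neg (pr_scaleT 28 5 (kc0q0_8_s.snd h1 h2))))))) (pr_case (pr_addc (kc0q0_8_s.snd h1 h2) (enc_rat _ 483 1000)) (pr_add (pr_subr 30143 2500 (pr_neg (pr_scaleT 844 35 (kc0q0_8_s.snd h1 h2))))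 (pr_cmul (enc_norm (kc0q0_3.enc h1.l h2)) (pr_norm (pr_subr 1253 500 (pr_neg (pr_nat 5 (kc0q0_8_s.snd h1 h2))))))) (pr_add (pr_addc (pr_scaleT 223 180 (kc0q0_8_s.snd h1 h2)) (enc_rat _ 11303 60000)) (pr_cmul (enc_norm (kc0q0_3.enc h1.l h2)) (pr_norm (pr_subr 2023 1000 (pr_neg (pr_nat 4 (kc0q0_8_s.snd h1 h2))))))))) (pr_case (pr_addc (kc0q0_8_s.snd h1 h2) (enc_rat _ 43 100)) (pr_case (pr_addc (kc0q0_8_s.snd h1 h2) (enc_rat _ 9 20)) (pr_add (pr_addc (pr_scaleT 34 25 (kc0q0_8_s.snd h1 h2)) (enc_rat _ 2447 10000)) (pr_cmul (enc_norm (kc0q0_3.enc h1.l h2)) (pr_norm (pr_subr 1589 1000 (pr_neg (pr_scaleT 46 15 (kc0q0_8_s.snd h1 h2))))))) (pr_add (pr_addc (pr_scaleT 171 100 (kc0q0_8_s.snd h1 h2)) (enc_rat _ 2011 5000)) (pr_cmul (enc_norm (kc0q0_3.enc h1.l h2)) (pr_norm (pr_subr 311 250 (pr_neg (pr_scaleT 23 10 (kc0q0_8_s.snd h1 h2)))))))) (pr_case (pr_addc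 (kc0q0_8_s.snd h1 h2) (enc_rat _ 2 5)) (pr_add (pr_addc (pr_scaleT 43 25 (kc0q0_8_s.snd h1 h2)) (enc_rat _ 813 2000)) (pr_cmul (enc_norm (kc0q0_3.enc h1.l h2)) (pr_norm (pr_subr 1307 1500 (pr_neg (pr_scaleT 43 30 (kc0q0_8_s.snd h1 h2))))))) (pr_add (pr_addc (pr_scaleT 1159 670 (kc0q0_8_s.snd h1 h2)) (enc_rat _ 54999 134000)) (pr_cmul (enc_norm (kc0q0_3.enc h1.l h2)) (pr_norm (pr_subr 19583 33500 (pr_neg (pr_scaleT 48 67 (kc0q0_8_s.snd h1 h2)))))))))) (pr_case (pr_subr 167 1000 (kc0q0_8_s.snd h1 h2)) (pr_case (pr_addc (kc0q0_8_s.snd h1 h2) (enc_rat _ 167 1000)) (pr_add (pr_addc (pr_scaleT 575 332 (kc0q0_8_s.snd h1 h2)) (enc_rat _ 682479 1660000)) (pr_cmul (enc_norm (kc0q0_3.enc h1.l h2)) (pr_norm (pr_subr 63097 166000 (pr_neg (pr_scaleT 17 166 (kc0q0_8_s.snd h1 h2))))))) (pr_case (kc0q0_8_s.snd h1 h2) (pr_add (pr_addc (pr_scaleT 1447 835 (kc0q0_8_s.snd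 h1 h2)) (enc_rat _ 4113 10000)) (pr_cmul (enc_norm (kc0q0_3.enc h1.l h2)) (pr_norm (pr_subr 313 1000 (pr_scaleT 50 167 (kc0q0_8_s.snd h1 h2)))))) (pr_add (pr_addc (pr_scaleT 579 334 (kc0q0_8_s.snd h1 h2)) (enc_rat _ 4113 10000)) (pr_cmul (enc_norm (kc0q0_3.enc h1.l h2)) (pr_norm (pr_subr 313 1000 (pr_scaleT 95 167 (kc0q0_8_s.snd h1 h2)))))))) (pr_case (pr_subr 2 5 (kc0q0_8_s.snd h1 h2)) (pr_case (pr_subr 333 1000 (kc0q0_8_s.snd h1 h2)) (pr_add (pr_addc (pr_scaleT 1439 830 (kc0q0_8_s.snd h1 h2)) (enc_rat _ 341351 830000)) (pr_cmul (enc_norm (kc0q0_3.enc h1.l h2)) (pr_norm (pr_subr 56061 166000 (pr_scaleT 119 166 (kc0q0_8_s.snd h1 h2)))))) (pr_add (pr_addc (pr_scaleT 581 335 (kc0q0_8_s.snd h1 h2)) (enc_rat _ 34427 83750)) (pr_cmul (enc_norm (kc0q0_3.enc h1.l h2)) (pr_norm (pr_subr 23949 67000 (pr_scaleT 52 67 (kc0q0_8_s.snd h1 h2))))))) (pr_case (pr_subr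 43 100 (kc0q0_8_s.snd h1 h2)) (pr_add (pr_addc (pr_scaleT 26 15 (kc0q0_8_s.snd h1 h2)) (enc_rat _ 1543 3750)) (pr_cmul (enc_norm (kc0q0_3.enc h1.l h2)) (pr_norm (pr_subr 367 1000 (pr_scaleT 4 5 (kc0q0_8_s.snd h1 h2)))))) (pr_add (pr_addc (pr_scaleT 239378025291 138050000000 (kc0q0_8_s.snd h1 h2)) (enc_rat _ 5676368912487 13805000000000)) (pr_cmul (enc_norm (kc0q0_3.enc h1.l h2)) (pr_norm (pr_subr 2120746248341 5522000000000 (pr_scaleT 46366052287 55220000000 (kc0q0_8_s.snd h1 h2)))))))))))⟩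
noncomputable def kf0q1_10_s : Sl2 kf0q1_10 := ⟨_, fun h1 h2 => (pr_scaleT 3 2 h1)⟩
noncomputable def kf0q1_s : Sl2 kf0q1 := ⟨_, fun h1 h2 => (pr_norm (pr_add (pr_mul (pr_norm (pr_mul (pr_norm (pr_cadd (enc_pnc _ 1) (pr_nat 2 (c1g_s.snd h1)))) (pr_norm (pr_sub (kf0q1_10_s.snd h1 h2) (c1g_s.snd h1))))) (pr_nd (pr_inv (pr_nat 2 (pr_sub (pr_cadd (enc_pnc _ 1) (kf0q1_10_s.snd h1 h2)) (c1g_s.snd h1)))))) (pr_mul (pr_norm (pr_subn 1 h1)) (kcg_s.snd (pr_norm (pr_sub (pr_scaleT 3 4 h1) (pr_half (c1g_s.snd h1)))) h2))))⟩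
noncomputable def l0q1_s : Sl2 l0q1 := ⟨_, fun h1 h2 => (pr_norm (txg_s.snd (pr_norm (pr_sub (pr_scaleT 3 4 h1) (pr_half (c1g_s.snd h1)))) (pr_nd (c1g_s.snd h1)) h2))⟩
noncomputable def gsg_s : Sl1 gsg := ⟨_, fun h1 => (pr_sqrt (pr_csub (enc_pnc _ 1) (pr_scaleT 3 4 (pr_sq h1))))⟩
noncomputable def gug_s : Sl1 gug := ⟨_, fun h1 => (pr_norm (pr_add (pr_scaleT 3 4 h1) (pr_scaleT 3 2 (pr_csub (enc_pnc _ 1) (gsg_s.snd h1)))))⟩
noncomputable def kc0q1_9_s : Sl2 kc0q1_9 := ⟨_, fun h1 h2 => (pr_sub (pr_scaleT 3 4 h1) (pr_half (c1g_s.snd h1)))⟩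
noncomputable def kc0q1_s : Sl2 kc0q1 := ⟨_, fun h1 h2 => (pr_norm (pr_case (pr_subr 1021 2246 (kc0q1_9_s.snd h1 h2)) (pr_case (pr_addc (kc0q1_9_s.snd h1 h2) (enc_rat _ 333 1000)) (pr_case (pr_addc (kc0q1_9_s.snd h1 h2) (enc_rat _ 93 200)) (pr_case (pr_addc (kc0q1_9_s.snd h1 h2) (enc_rat _ 49 100)) (pr_add (pr_subr 603 50 (pr_neg (pr_scaleT 603 25 (kc0q1_9_s.snd h1 h2)))) (pr_cmul (enc_norm (kc0q1_3.enc h1.l h2)) (pr_norm (pr_subr 14 5 (pr_neg (pr_scaleT 28 5 (kc0q1_9_s.snd h1 h2))))))) (pr_case (pr_addc (kc0q1_9_s.snd h1 h2) (enc_rat _ 483 1000)) (pr_add (pr_subr 30143 2500 (pr_neg (pr_scaleT 844 35 (kc0q1_9_s.snd h1 h2)))) (pr_cmul (enc_norm (kc0q1_3.enc h1.l h2)) (pr_norm (pr_subr 1253 500 (pr_neg (pr_nat 5 (kc0q1_9_s.snd h1 h2))))))) (pr_add (pr_addc (pr_scaleT 223 180 (kc0q1_9_s.snd h1 h2)) (enc_rat _ 11303 60000)) (pr_cmul (enc_norm (kc0q1_3.enc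 h1.l h2)) (pr_norm (pr_subr 2023 1000 (pr_neg (pr_nat 4 (kc0q1_9_s.snd h1 h2))))))))) (pr_case (pr_addc (kc0q1_9_s.snd h1 h2) (enc_rat _ 43 100)) (pr_case (pr_addc (kc0q1_9_s.snd h1 h2) (enc_rat _ 9 20)) (pr_add (pr_addc (pr_scaleT 34 25 (kc0q1_9_s.snd h1 h2)) (enc_rat _ 2447 10000)) (pr_cmul (enc_norm (kc0q1_3.enc h1.l h2)) (pr_norm (pr_subr 1589 1000 (pr_neg (pr_scaleT 46 15 (kc0q1_9_s.snd h1 h2))))))) (pr_add (pr_addc (pr_scaleT 171 100 (kc0q1_9_s.snd h1 h2)) (enc_rat _ 2011 5000)) (pr_cmul (enc_norm (kc0q1_3.enc h1.l h2)) (pr_norm (pr_subr 311 250 (pr_neg (pr_scaleT 23 10 (kc0q1_9_s.snd h1 h2)))))))) (pr_case (pr_addc (kc0q1_9_s.snd h1 h2) (enc_rat _ 2 5)) (pr_add (pr_addc (pr_scaleT 43 25 (kc0q1_9_s.snd h1 h2)) (enc_rat _ 813 2000)) (pr_cmul (enc_norm (kc0q1_3.enc h1.l h2)) (pr_norm (pr_subr 1307 1500 (pr_neg (pr_scaleT 43 30 (kc0q1_9_s.snd h1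 h2))))))) (pr_add (pr_addc (pr_scaleT 1159 670 (kc0q1_9_s.snd h1 h2)) (enc_rat _ 54999 134000)) (pr_cmul (enc_norm (kc0q1_3.enc h1.l h2)) (pr_norm (pr_subr 19583 33500 (pr_neg (pr_scaleT 48 67 (kc0q1_9_s.snd h1 h2)))))))))) (pr_case (pr_subr 167 1000 (kc0q1_9_s.snd h1 h2)) (pr_case (pr_addc (kc0q1_9_s.snd h1 h2) (enc_rat _ 167 1000)) (pr_add (pr_addc (pr_scaleT 575 332 (kc0q1_9_s.snd h1 h2)) (enc_rat _ 682479 1660000)) (pr_cmul (enc_norm (kc0q1_3.enc h1.l h2)) (pr_norm (pr_subr 63097 166000 (pr_neg (pr_scaleT 17 166 (kc0q1_9_s.snd h1 h2))))))) (pr_case (kc0q1_9_s.snd h1 h2) (pr_add (pr_addc (pr_scaleT 1447 835 (kc0q1_9_s.snd h1 h2)) (enc_rat _ 4113 10000)) (pr_cmul (enc_norm (kc0q1_3.enc h1.l h2)) (pr_norm (pr_subr 313 1000 (pr_scaleT 50 167 (kc0q1_9_s.snd h1 h2)))))) (pr_add (pr_addc (pr_scaleT 579 334 (kc0q1_9_s.snd h1 h2)) (enc_rat _ 4113 10000))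 (pr_cmul (enc_norm (kc0q1_3.enc h1.l h2)) (pr_norm (pr_subr 313 1000 (pr_scaleT 95 167 (kc0q1_9_s.snd h1 h2)))))))) (pr_case (pr_subr 2 5 (kc0q1_9_s.snd h1 h2)) (pr_case (pr_subr 333 1000 (kc0q1_9_s.snd h1 h2)) (pr_add (pr_addc (pr_scaleT 1439 830 (kc0q1_9_s.snd h1 h2)) (enc_rat _ 341351 830000)) (pr_cmul (enc_norm (kc0q1_3.enc h1.l h2)) (pr_norm (pr_subr 56061 166000 (pr_scaleT 119 166 (kc0q1_9_s.snd h1 h2)))))) (pr_add (pr_addc (pr_scaleT 581 335 (kc0q1_9_s.snd h1 h2)) (enc_rat _ 34427 83750)) (pr_cmul (enc_norm (kc0q1_3.enc h1.l h2)) (pr_norm (pr_subr 23949 67000 (pr_scaleT 52 67 (kc0q1_9_s.snd h1 h2))))))) (pr_case (pr_subr 43 100 (kc0q1_9_s.snd h1 h2)) (pr_add (pr_addc (pr_scaleT 26 15 (kc0q1_9_s.snd h1 h2)) (enc_rat _ 1543 3750)) (pr_cmul (enc_norm (kc0q1_3.enc h1.l h2)) (pr_norm (pr_subr 367 1000 (pr_scaleT 4 5 (kc0q1_9_s.snd h1 h2)))))) (pr_add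 (pr_addc (pr_scaleT 239378025291 138050000000 (kc0q1_9_s.snd h1 h2)) (enc_rat _ 5676368912487 13805000000000)) (pr_cmul (enc_norm (kc0q1_3.enc h1.l h2)) (pr_norm (pr_subr 2120746248341 5522000000000 (pr_scaleT 46366052287 55220000000 (kc0q1_9_s.snd h1 h2)))))))))) (pr_case (pr_subr 661 1387 (kc0q1_9_s.snd h1 h2)) (pr_sub (pr_add (pr_cadd (enc_rat _ 3 4) (pr_scaleT 3 2 h1)) (pr_scaleT 3 4 (pr_mul (pr_norm (pr_mul h1 (pr_nd (pr_inv (c1g_s.snd h1))))) (gug_s.snd h1)))) (pr_mul (kcg_s.snd (pr_norm (kc0q1_9_s.snd h1 h2)) h2) (pr_norm (pr_add (gug_s.snd h1) (pr_nat 2 (c1g_s.snd h1)))))) (pr_case (pr_subr 121 250 (kc0q1_9_s.snd h1 h2)) (pr_case (pr_subr 12 25 (kc0q1_9_s.snd h1 h2)) (pr_add (pr_csub (enc_rat _ 1277717487371 37187500000) (pr_scaleT 416744068707 5950000000 (kc0q1_9_s.snd h1 h2))) (pr_cmul (enc_norm (kc0q1_3.enc h1.l h2)) (pr_norm (pr_csub (enc_rat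 _ 18295589584141 148750000000) (pr_scaleT 5861075278047 23800000000 (kc0q1_9_s.snd h1 h2)))))) (pr_add (pr_csub (enc_rat _ 343511 10000) (pr_scaleT 2801 40 (kc0q1_9_s.snd h1 h2))) (pr_cmul (enc_norm (kc0q1_3.enc h1.l h2)) (pr_norm (pr_csub (enc_rat _ 122749 1000) (pr_scaleT 983 4 (kc0q1_9_s.snd h1 h2))))))) (pr_case (pr_subr 61 125 (kc0q1_9_s.snd h1 h2)) (pr_add (pr_csub (enc_rat _ 11797 625) (pr_scaleT 761 20 (kc0q1_9_s.snd h1 h2))) (pr_cmul (enc_norm (kc0q1_3.enc h1.l h2)) (pr_norm (pr_csub (enc_rat _ 30657 250) (pr_scaleT 491 2 (kc0q1_9_s.snd h1 h2)))))) (pr_case (pr_subr 123 250 (kc0q1_9_s.snd h1 h2)) (pr_add (pr_csub (enc_rat _ 9601 625) (pr_scaleT 617 20 (kc0q1_9_s.snd h1 h2))) (pr_cmul (enc_norm (kc0q1_3.enc h1.l h2)) (pr_norm (pr_csub (enc_rat _ 61009 500) (pr_scaleT 977 4 (kc0q1_9_s.snd h1 h2)))))) (pr_add (pr_csub (enc_rat _ 917 80) (pr_scaleT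 917 40 (kc0q1_9_s.snd h1 h2))) (pr_cmul (enc_norm (kc0q1_3.enc h1.l h2)) (pr_norm (pr_csub (enc_rat _ 1847 16) (pr_scaleT 1847 8 (kc0q1_9_s.snd h1 h2))))))))))))⟩
noncomputable def yag_s : Sl1 yag := ⟨_, fun h1 => (pr_sqrt (pr_scaleT 4 3 (pr_csub (enc_pnc _ 1) (pr_sq h1))))⟩
noncomputable def kfc02_s : Sl2 kfc02 := ⟨_, fun h1 h2 => (pr_norm (pr_add h1 (pr_mul (pr_norm (pr_subn 1 (yag_s.snd h1))) (kcg_s.snd (pr_nd (pr_neg h1)) h2))))⟩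
noncomputable def lc02_7_s : Sl2 lc02_7 := ⟨_, fun h1 h2 => (pr_scaleT 3 4 (yag_s.snd h1))⟩
noncomputable def lc02_8_s : Sl2 lc02_8 := ⟨_, fun h1 h2 => (pr_half h1)⟩
noncomputable def lc02_s : Sl2 lc02 := ⟨_, fun h1 h2 => (pr_norm (pr_sub (txg_s.snd (pr_nd (pr_neg h1)) (pr_norm (pr_add (lc02_7_s.snd h1 h2) (lc02_8_s.snd h1 h2))) h2) (txg_s.snd h1 (pr_norm (pr_sub (lc02_7_s.snd h1 h2) (lc02_8_s.snd h1 h2))) h2)))⟩
noncomputable def kcc02_19_s : Sl2 kcc02_19 := ⟨_, fun h1 h2 => (pr_scaleT 34411 2000 h1)⟩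
noncomputable def kcc02_s : Sl2 kcc02 := ⟨_, fun h1 h2 => (pr_norm (pr_case (pr_subr 1 10 h1) (pr_neg (pr_cmul (enc_norm (kcc02_4.enc h1.l h2)) (pr_nd (pr_scaleT 1 50 h1)))) (pr_case (pr_subr 3 10 h1) (pr_add (pr_csub (enc_rat _ 34411 20000) (kcc02_19_s.snd h1 h2)) (pr_cmul (enc_norm (kcc02_4.enc h1.l h2)) (pr_norm (pr_csub (enc_rat _ 49 2000) (pr_scaleT 53 200 h1))))) (pr_add (pr_subr 34411 4000 (kcc02_19_s.snd h1 h2)) (pr_cmul (enc_norm (kcc02_4.enc h1.l h2)) (pr_norm (pr_subr 11 80 (pr_scaleT 11 40 h1))))))))⟩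
noncomputable def swg_s : Sl1 swg := ⟨_, fun h1 => (pr_sqrt (pr_csub (enc_pnc _ 1) (pr_scaleT 3 4 (pr_sq (pr_norm (pr_subn 1 h1))))))⟩
noncomputable def cv1m_s : Sl1 cv1m := ⟨_, fun h1 => (pr_norm (pr_add (pr_scaleT 3 4 (c1g_s.snd h1)) (pr_scaleT 1 4 (pr_addc (swg_s.snd h1) (enc_rat _ 1 2)))))⟩
noncomputable def bf1q0_10_s : Sl2 bf1q0_10 := ⟨_, fun h1 h2 => (pr_scaleT 207 100 h1)⟩
noncomputable def bf1q0_s : Sl2 bf1q0 := ⟨_, fun h1 h2 => (pr_norm (pr_case (pr_subr 779 25000 h1) (pr_case (pr_subr 27 2000 h1) (pr_case (pr_subr 1 200 h1) (pr_add (pr_csub (enc_pnc _ 1) (bf1q0_10_s.snd h1 h2)) (pr_cmul (enc_norm (bf1q0_3.enc h1.l h2)) (pr_nd (pr_scaleT 151 50 h1)))) (pr_case (pr_subr 21 2000 h1) (pr_add (pr_csub (enc_rat _ 220003 220000) (pr_scaleT 114 55 h1)) (pr_cmul (enc_norm (bf1q0_3.enc h1.l h2)) (pr_norm (pr_addc (pr_scaleT 163 55 h1) (enc_rat _ 31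 110000))))) (pr_add (pr_csub (enc_rat _ 199997 200000) (bf1q0_10_s.snd h1 h2)) (pr_cmul (enc_norm (bf1q0_3.enc h1.l h2)) (pr_norm (pr_addc (pr_scaleT 29 10 h1) (enc_rat _ 19 20000))))))) (pr_case (pr_subr 33 2048 h1) (pr_add (pr_csub (enc_rat _ 5574931 5575000) (pr_scaleT 34624 16725 h1)) (pr_cmul (enc_norm (bf1q0_3.enc h1.l h2)) (pr_norm (pr_addc (pr_scaleT 9472 3345 h1) (enc_rat _ 167 89200))))) (pr_case (pr_subr 1 40 h1) (pr_add (pr_csub (enc_rat _ 650007 650000) (pr_scaleT 16832 8125 h1)) (pr_cmul (enc_norm (bf1q0_3.enc h1.l h2)) (pr_norm (pr_addc (pr_scaleT 6144 2275 h1) (enc_rat _ 29 7280))))) (pr_add (pr_csub (enc_rat _ 15400713 15400000) (pr_scaleT 1277 616 h1)) (pr_cmul (enc_norm (bf1q0_3.enc h1.l h2)) (pr_norm (pr_addc (pr_scaleT 795 308 h1) (enc_rat _ 2147 308000)))))))) (pr_case (pr_subr 1 10 h1) (pr_case (pr_subr 1 20 h1) (pr_add (pr_csub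 (enc_rat _ 3925011 3925000) (pr_scaleT 1301 628 h1)) (pr_cmul (enc_norm (bf1q0_3.enc h1.l h2)) (pr_norm (pr_addc (pr_scaleT 1160 471 h1) (enc_rat _ 25099 2355000))))) (pr_case (pr_subr 7 100 h1) (pr_add (pr_csub (enc_rat _ 199999 200000) (pr_scaleT 4143 2000 h1)) (pr_cmul (enc_norm (bf1q0_3.enc h1.l h2)) (pr_norm (pr_addc (pr_scaleT 473 200 h1) (enc_rat _ 311 20000))))) (pr_add (pr_csub (enc_rat _ 150001 150000) (pr_scaleT 1243 600 h1)) (pr_cmul (enc_norm (bf1q0_3.enc h1.l h2)) (pr_norm (pr_addc (pr_scaleT 57 25 h1) (enc_rat _ 43 2000))))))) (pr_case (pr_subr 11 50 h1) (pr_case (pr_subr 3 20 h1) (pr_add (pr_csub (enc_pnc _ 1) (pr_scaleT 5179 2500 h1)) (pr_cmul (enc_norm (bf1q0_3.enc h1.l h2)) (pr_norm (pr_addc (pr_scaleT 553 250 h1) (enc_rat _ 283 10000))))) (pr_add (pr_csub (enc_rat _ 175003 175000) (pr_scaleT 7251 3500 h1)) (pr_cmul (enc_norm (bf1q0_3.enc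 h1.l h2)) (pr_norm (pr_addc (pr_scaleT 1513 700 h1) (enc_rat _ 157 4375)))))) (pr_case (pr_subr 33 100 h1) (pr_add (pr_csub (enc_pnc _ 1) (pr_scaleT 5697 2750 h1)) (pr_cmul (enc_norm (bf1q0_3.enc h1.l h2)) (pr_norm (pr_addc (pr_scaleT 586 275 h1) (enc_rat _ 213 5000))))) (pr_add (pr_csub (enc_rat _ 850003 850000) (pr_scaleT 17609 8500 h1)) (pr_cmul (enc_norm (bf1q0_3.enc h1.l h2)) (pr_norm (pr_addc (pr_scaleT 3599 1700 h1) (enc_rat _ 8019 170000))))))))))⟩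
noncomputable def kf1q0_s : Sl2 kf1q0 := ⟨_, fun h1 h2 => (pr_norm (pr_mul (cv1m_s.snd h1) (bf1q0_s.snd h1 h2)))⟩
noncomputable def bx1q0_s : Sl2 bx1q0 := ⟨_, fun h1 h2 => (pr_norm (pr_case (pr_subr 779 25000 h1) (pr_case (pr_subr 27 2000 h1) (pr_case (pr_subr 1 200 h1) (pr_sub (pr_scaleT 47 125 h1) (pr_cmul (enc_norm (bx1q0_3.enc h1.l h2)) (pr_nd (pr_scaleT 29 10 h1)))) (pr_case (pr_subr 21 2000 h1) (pr_add (pr_subr 1 550000 (pr_scaleT 207 550 h1)) (pr_cmul (enc_norm (bx1q0_3.enc h1.l h2)) (pr_norm (pr_subr 281 22000 (pr_neg (pr_scaleT 19 55 h1)))))) (pr_add (pr_addc (pr_scaleT 28 75 h1) (enc_rat _ 3 100000)) (pr_cmul (enc_norm (bx1q0_3.enc h1.l h2)) (pr_norm (pr_subr 279 20000 (pr_neg (pr_scaleT 7 30 h1)))))))) (pr_case (pr_subr 33 2048 h1) (pr_add (pr_addc (pr_scaleT 6208 16725 h1) (enc_rat _ 1317 22300000)) (pr_cmul (enc_norm (bx1q0_3.enc h1.l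 h2)) (pr_norm (pr_subr 32373 2230000 (pr_neg (pr_scaleT 128 669 h1)))))) (pr_case (pr_subr 1 40 h1) (pr_add (pr_addc (pr_scaleT 21184 56875 h1) (enc_rat _ 349 9100000)) (pr_cmul (enc_norm (bx1q0_3.enc h1.l h2)) (pr_norm (pr_subr 14531 910000 (pr_neg (pr_scaleT 1152 11375 h1)))))) (pr_add (pr_addc (pr_scaleT 115 308 h1) (enc_rat _ 3 192500)) (pr_cmul (enc_norm (bx1q0_3.enc h1.l h2)) (pr_norm (pr_subr 5323 308000 (pr_neg (pr_scaleT 15 308 h1))))))))) (pr_case (pr_subr 1 10 h1) (pr_case (pr_subr 1 20 h1) (pr_subc (pr_addc (pr_scaleT 175 471 h1) (enc_rat _ 683 9420000)) (enc_scaleT 47 2500 (bx1q0_3.enc h1.l h2))) (pr_case (pr_subr 7 100 h1) (pr_add (pr_addc (pr_scaleT 149 400 h1) (enc_rat _ 1 40000)) (pr_cmul (enc_norm (bx1q0_3.enc h1.l h2)) (pr_norm (pr_subr 441 20000 (pr_scaleT 13 200 h1))))) (pr_add (pr_addc (pr_scaleT 1117 3000 h1) (enc_rat _ 11 300000))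 (pr_cmul (enc_norm (bx1q0_3.enc h1.l h2)) (pr_norm (pr_subr 791 30000 (pr_scaleT 19 150 h1))))))) (pr_case (pr_subr 11 50 h1) (pr_case (pr_subr 3 20 h1) (pr_add (pr_addc (pr_scaleT 1861 5000 h1) (enc_rat _ 1 20000)) (pr_cmul (enc_norm (bx1q0_3.enc h1.l h2)) (pr_norm (pr_subr 311 10000 (pr_scaleT 87 500 h1))))) (pr_add (pr_addc (pr_scaleT 2603 7000 h1) (enc_rat _ 71 700000)) (pr_cmul (enc_norm (bx1q0_3.enc h1.l h2)) (pr_norm (pr_subr 263 7000 (pr_scaleT 38 175 h1)))))) (pr_case (pr_subr 33 100 h1) (pr_add (pr_addc (pr_scaleT 4069 11000 h1) (enc_rat _ 53 100000)) (pr_cmul (enc_norm (bx1q0_3.enc h1.l h2)) (pr_norm (pr_subr 27 625 (pr_scaleT 267 1100 h1))))) (pr_add (pr_addc (pr_scaleT 2587 17000 h1) (enc_rat _ 123049 1700000)) (pr_cmul (enc_norm (bx1q0_3.enc h1.l h2)) (pr_norm (pr_subr 4173 85000 (pr_scaleT 443 1700 h1))))))))))⟩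
noncomputable def l1q0_s : Sl2 l1q0 := ⟨_, fun h1 h2 => (pr_norm (pr_mul (cv1m_s.snd h1) (bx1q0_s.snd h1 h2)))⟩
noncomputable def bd1q0_s : Sl2 bd1q0 := ⟨_, fun h1 h2 => (pr_norm (pr_case (pr_subr 33 2048 h1) (pr_case (pr_subr 1 100 h1) (pr_sub (pr_cmul (enc_norm (bd1q0_3.enc h1.l h2)) (pr_nd (pr_scaleT 18 5 h1))) (pr_scaleT 277 10 h1)) (pr_add (pr_subr 97 1565000 (pr_neg (pr_scaleT 216704 7825 h1))) (pr_cmul (enc_norm (bd1q0_3.enc h1.l h2)) (pr_norm (pr_addc (pr_scaleT 1024 313 h1) (enc_rat _ 257 78250)))))) (pr_case (pr_subr 2613 100000 h1) (pr_add (pr_csub (enc_rat _ 3463 35615000) (pr_scaleT 592000 21369 h1)) (pr_cmul (enc_norm (bd1q0_3.enc h1.l h2)) (pr_norm (pr_addc (pr_scaleT 160000 64107 h1) (enc_rat _ 337289 21369000))))) (pr_case (pr_subr 779 25000 h1) (pr_add (pr_subr 2653 5030 (pr_neg (pr_scaleT 3780 503 h1))) (pr_cmul (enc_norm (bd1q0_3.enc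 h1.l h2)) (pr_norm (pr_addc (pr_scaleT 600 503 h1) (enc_rat _ 5013 100600))))) (pr_add (pr_subr 31134277 58605000 (pr_neg (pr_scaleT 86645 11721 h1))) (pr_cmul (enc_norm (bd1q0_3.enc h1.l h2)) (pr_norm (pr_csub (enc_rat _ 521159 5860500) (pr_scaleT 725 11721 h1)))))))))⟩
noncomputable def kc1q0_s : Sl2 kc1q0 := ⟨_, fun h1 h2 => (pr_norm (pr_mul (cv1m_s.snd h1) (bd1q0_s.snd h1 h2)))⟩
noncomputable def bf1q1_9_s : Sl2 bf1q1_9 := ⟨_, fun h1 h2 => (pr_subr 5931 3125 (pr_scaleT 34291 12500 h1))⟩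
noncomputable def bf1q1_s : Sl2 bf1q1 := ⟨_, fun h1 h2 => (pr_norm (pr_case (pr_subr 7 8 h1) (pr_add (bf1q1_9_s.snd h1 h2) (pr_cmul (enc_norm (bf1q1_3.enc h1.l h2)) (pr_norm (pr_csub (enc_rat _ 193 400) (pr_scaleT 219 250 h1))))) (pr_add (bf1q1_9_s.snd h1 h2) (pr_cmul (enc_norm (bf1q1_3.enc h1.l h2)) (pr_norm (pr_csub (enc_rat _ 4867 10000) (pr_scaleT 1101 1250 h1)))))))⟩
noncomputable def kf1q1_s : Sl2 kf1q1 := ⟨_, fun h1 h2 => (pr_norm (pr_mul (cv1m_s.snd h1) (bf1q1_s.snd h1 h2)))⟩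
noncomputable def bx1q1_s : Sl2 bx1q1 := ⟨_, fun h1 h2 => (pr_norm (pr_case (pr_subr 7 8 h1) (pr_add (pr_addc (pr_scaleT 5543 37500 h1) (enc_rat _ 22369 300000)) (pr_cmul (enc_norm (bx1q1_3.enc h1.l h2)) (pr_norm (pr_subr 407 7500 (pr_scaleT 508 1875 h1))))) (pr_add (pr_addc (pr_scaleT 359 2500 h1) (enc_rat _ 313 4000)) (pr_cmul (enc_norm (bx1q1_3.enc h1.l h2)) (pr_norm (pr_subr 517 10000 (pr_scaleT 67 250 h1)))))))⟩
noncomputable def l1q1_s : Sl2 l1q1 := ⟨_, fun h1 h2 => (pr_norm (pr_mul (cv1m_s.snd h1) (bx1q1_s.snd h1 h2)))⟩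
noncomputable def bd1q1_s : Sl2 bd1q1 := ⟨_, fun h1 h2 => (pr_norm (pr_add (pr_subr 2659 5000 (pr_neg (pr_scaleT 9239 1250 h1))) (pr_cmul (enc_norm (enc_subr 9743 10000 h2)) (pr_norm (pr_csub (enc_rat _ 31 125) (pr_scaleT 19 50 h1))))))⟩
noncomputable def kc1q1_s : Sl2 kc1q1 := ⟨_, fun h1 h2 => (pr_norm (pr_mul (cv1m_s.snd h1) (bd1q1_s.snd h1 h2)))⟩
noncomputable def cv1p_s : Sl1 cv1p := ⟨_, fun h1 => (pr_norm (pr_add (pr_scaleT 3 4 (c1g_s.snd h1)) (pr_scaleT 1 4 (pr_subr 1 2 (swg_s.snd h1)))))⟩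
noncomputable def bf1q2_s : Sl2 bf1q2 := ⟨_, fun h1 h2 => (pr_norm (pr_case (pr_subr 107 100 h1) (pr_case (pr_subr 25779 25000 h1) (pr_case (pr_subr 2081 2048 h1) (pr_add (pr_csub (enc_rat _ 112967 34375) (pr_scaleT 78592 34375 h1)) (pr_cmul (enc_norm (bf1q2_3.enc h1.l h2)) (pr_norm (pr_csub (enc_rat _ 22656 6875) (pr_scaleT 22656 6875 h1))))) (pr_add (pr_csub (enc_rat _ 31652387609 9629900000) (pr_scaleT 220224 96299 h1)) (pr_cmul (enc_norm (bf1q2_3.enc h1.l h2)) (pr_norm (pr_csub (enc_rat _ 3174415231 962990000) (pr_scaleT 317440 96299 h1)))))) (pr_case (pr_subr 21 20 h1) (pr_add (pr_csub (enc_rat _ 51600019 15700000) (pr_scaleT 359 157 h1)) (pr_cmul (enc_norm (bf1q2_3.enc h1.l h2)) (pr_norm (pr_csub (enc_rat _ 2587507 785000) (pr_scaleT 1035 314 h1))))) (pr_add (pr_csub (enc_rat _ 657299 200000) (pr_scaleT 4573 2000 h1)) (pr_cmul (enc_norm (bf1q2_3.enc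 h1.l h2)) (pr_norm (pr_csub (enc_rat _ 65899 20000) (pr_scaleT 659 200 h1))))))) (pr_case (pr_subr 231 200 h1) (pr_case (pr_subr 577 500 h1) (pr_add (pr_csub (enc_rat _ 172543823 52500000) (pr_scaleT 1200439 525000 h1)) (pr_cmul (enc_norm (bf1q2_3.enc h1.l h2)) (pr_norm (pr_csub (enc_rat _ 9226823 2800000) (pr_scaleT 92269 28000 h1))))) (pr_add (pr_csub (enc_rat _ 20541 6250) (pr_scaleT 14291 6250 h1)) (pr_cmul (enc_norm (bf1q2_3.enc h1.l h2)) (pr_norm (pr_csub (enc_rat _ 6591 2000) (pr_scaleT 6591 2000 h1)))))) (pr_case (pr_subr 13 10 h1) (pr_add (pr_csub (enc_rat _ 47655351 14500000) (pr_scaleT 828883 362500 h1)) (pr_cmul (enc_norm (bf1q2_3.enc h1.l h2)) (pr_norm (pr_csub (enc_rat _ 75393 23200) (pr_scaleT 188839 58000 h1))))) (pr_add (pr_csub (enc_rat _ 657309 200000) (pr_scaleT 45731 20000 h1)) (pr_cmul (enc_norm (bf1q2_3.enc h1.l h2)) (pr_norm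 (pr_csub (enc_rat _ 32291 10000) (pr_scaleT 81 25 h1)))))))))⟩
noncomputable def kf1q2_s : Sl2 kf1q2 := ⟨_, fun h1 h2 => (pr_norm (pr_mul (cv1p_s.snd h1) (bf1q2_s.snd h1 h2)))⟩
noncomputable def bx1q2_s : Sl2 bx1q2 := ⟨_, fun h1 h2 => (pr_norm (pr_case (pr_subr 107 100 h1) (pr_case (pr_subr 25779 25000 h1) (pr_case (pr_subr 2081 2048 h1) (pr_add (pr_csub (enc_rat _ 213248 103125) (pr_scaleT 213248 103125 h1)) (pr_cmul (enc_norm (bx1q2_3.enc h1.l h2)) (pr_norm (pr_subr 2304 6875 (pr_scaleT 2304 6875 h1))))) (pr_add (pr_csub (enc_rat _ 9964931491 4814950000) (pr_scaleT 199296 96299 h1)) (pr_cmul (enc_norm (bx1q2_3.enc h1.l h2)) (pr_norm (pr_subr 57785247 137570000 (pr_scaleT 5760 13757 h1)))))) (pr_case (pr_subr 21 20 h1) (pr_add (pr_csub (enc_rat _ 6498417 3140000) (pr_scaleT 3899 1884 h1)) (pr_cmul (enc_norm (bx1q2_3.enc h1.l h2)) (pr_norm (pr_subr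 39039 78500 (pr_scaleT 155 314 h1))))) (pr_add (pr_csub (enc_rat _ 31111 20000) (pr_scaleT 79 50 h1)) (pr_cmul (enc_norm (bx1q2_3.enc h1.l h2)) (pr_norm (pr_subr 273 500 (pr_scaleT 27 50 h1))))))) (pr_case (pr_subr 231 200 h1) (pr_casec (pr_subr 577 500 h1) (pr_add (pr_csub (enc_rat _ 130507519 84000000) (pr_scaleT 1325717 840000 h1)) (pr_cmul (enc_norm (bx1q2_3.enc h1.l h2)) (pr_norm (pr_subr 4549271 8400000 (pr_scaleT 45013 84000 h1))))) (enc_subr 2676217 10000000 (enc_scaleT 76813 1000000 (bx1q2_3.enc h1.l h2)))) (pr_case (pr_subr 13 10 h1) (pr_add (pr_subr 13093613 7250000 (pr_scaleT 1931317 1450000 h1)) (pr_cmul (enc_norm (bx1q2_3.enc h1.l h2)) (pr_norm (pr_csub (enc_rat _ 4961 50000) (pr_scaleT 97 5000 h1))))) (pr_add (pr_subr 361309 200000 (pr_scaleT 26647 20000 h1)) (pr_cmul (enc_norm (bx1q2_3.enc h1.l h2)) (pr_norm (pr_csub (enc_rat _ 2117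 20000) (pr_scaleT 49 2000 h1)))))))))⟩
noncomputable def l1q2_s : Sl2 l1q2 := ⟨_, fun h1 h2 => (pr_norm (pr_mul (cv1p_s.snd h1) (bx1q2_s.snd h1 h2)))⟩
noncomputable def bd1q2_s : Sl2 bd1q2 := ⟨_, fun h1 h2 => (pr_norm (pr_case (pr_subr 577 500 h1) (pr_cmul (enc_norm (bd1q2_3.enc h1.l h2)) (pr_norm (pr_csub (enc_rat _ 10 77) (pr_scaleT 10 77 h1)))) (pr_casec1 (pr_subr 231 200 h1) (enc_neg (enc_scaleT 1 50 (bd1q2_3.enc h1.l h2))) (pr_add (pr_csub (enc_rat _ 77 230000) (pr_scaleT 1 3450 h1)) (pr_cmul (enc_norm (bd1q2_3.enc h1.l h2)) (pr_norm (pr_subr 269 5750 (pr_scaleT 8 345 h1))))))))⟩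
noncomputable def kc1q2_s : Sl2 kc1q2 := ⟨_, fun h1 h2 => (pr_norm (pr_mul (cv1p_s.snd h1) (bd1q2_s.snd h1 h2)))⟩
noncomputable def cv1r_s : Sl1 cv1r := ⟨_, fun h1 => (pr_norm (pr_scaleT 1 4 (pr_subr 1 2 (swg_s.snd h1))))⟩
noncomputable def c3g_s : Sl1 c3g := ⟨_, fun h1 => (pr_sqrtg (pr_csub (enc_pnc _ 3) (pr_scaleT 3 4 (pr_sq h1))))⟩
noncomputable def kf1q3_s : Sl2 kf1q3 := ⟨_, fun h1 h2 => (pr_norm (pr_mulz (fun ht => cv1r_two (enc_two h1.r ht)) (cv1r_s.snd h1) (pr_norm (pr_case (pr_subr 987 500 h1) (pr_case (pr_subr 39 20 h1) (pr_case (pr_subr 193 100 h1) (pr_add (pr_subr 1636008 134375 (pr_scaleT 260423 43000 h1)) (pr_cmul (enc_norm (kf1q3_4.enc h1.l h2)) (pr_norm (pr_csub (enc_rat _ 359 107500) (pr_scaleT 9 4300 h1))))) (pr_subc (pr_subr 2435047 200000 (pr_scaleT 12113 2000 h1)) (enc_scaleT 7 10000 (kf1q3_4.enc h1.l h2)))) (pr_case (pr_subr 49221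 25000 h1) (pr_add (pr_subr 95571971 7850000 (pr_scaleT 5705 942 h1)) (pr_cmul (enc_norm (kf1q3_4.enc h1.l h2)) (pr_norm (pr_csub (enc_rat _ 15151 1570000) (pr_scaleT 5 942 h1))))) (pr_subc (pr_subr 52351003 4300000 (pr_scaleT 3125 516 h1)) (kf1q3_51.enc h1.l h2)))) (pr_case (pr_csub (enc_rat _ 154764337 1000000000) (c3g_s.snd h1)) (pr_case (pr_subr 4063 2048 h1) (pr_subc (pr_subr 3081608473 253100000 (pr_scaleT 383232 63275 h1)) (kf1q3_51.enc h1.l h2)) (pr_add (pr_csub (enc_rat _ 36439167907 1293112300000) (pr_scaleT 11080000 12931123 (c3g_s.snd h1))) (pr_cmul (enc_norm (kf1q3_4.enc h1.l h2)) (pr_norm (pr_subr 9800627 80819518750 (pr_neg (pr_scaleT 40000 12931123 (c3g_s.snd h1)))))))) (pr_case (pr_csub (enc_rat _ 105307799 1000000000) (c3g_s.snd h1)) (pr_add (pr_csub (enc_rat _ 27852373907 989130760000) (pr_scaleT 21185000 24728269 (c3g_s.snd h1)))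 (pr_cmul (enc_norm (kf1q3_4.enc h1.l h2)) (pr_norm (pr_subr 141974891 494565380000 (pr_neg (pr_scaleT 50000 24728269 (c3g_s.snd h1))))))) (pr_case (pr_csub (enc_rat _ 54765409 1000000000) (c3g_s.snd h1)) (pr_add (pr_csub (enc_rat _ 14231669733 505423900000) (pr_scaleT 4330000 5054239 (c3g_s.snd h1))) (pr_cmul (enc_norm (kf1q3_4.enc h1.l h2)) (pr_norm (pr_subr 1315511 15794496875 (pr_neg (pr_scaleT 20000 5054239 (c3g_s.snd h1))))))) (pr_add (pr_csub (enc_rat _ 88 3125) (pr_scaleT 46920000 54765409 (c3g_s.snd h1))) (pr_cmul (enc_norm (kf1q3_4.enc h1.l h2)) (pr_norm (pr_subr 1 5000 (pr_neg (pr_scaleT 100000 54765409 (c3g_s.snd h1))))))))))))))⟩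
noncomputable def l1q3_s : Sl2 l1q3 := ⟨_, fun h1 h2 => (pr_norm (pr_mulz (fun ht => cv1r_two (enc_two h1.r ht)) (cv1r_s.snd h1) (pr_norm (pr_case (pr_subr 987 500 h1) (pr_case (pr_subr 39 20 h1) (pr_case (pr_subr 193 100 h1) (pr_add (pr_subr 3884593 2150000 (pr_scaleT 28649 21500 h1)) (pr_cmul (enc_norm (l1q3_4.enc h1.l h2)) (pr_norm (pr_csub (enc_rat _ 44413 430000) (pr_scaleT 49 2150 h1))))) (pr_add (pr_subr 361353 200000 (pr_scaleT 533 400 h1)) (pr_cmul (enc_norm (l1q3_4.enc h1.l h2)) (pr_norm (pr_csub (enc_rat _ 979 10000) (pr_scaleT 1 50 h1)))))) (pr_case (pr_subr 49221 25000 h1) (pr_add (pr_subr 28375473 15700000 (pr_scaleT 837 628 h1)) (pr_cmul (enc_norm (l1q3_4.enc h1.l h2)) (pr_norm (pr_csub (enc_rat _ 157473 1570000) (pr_scaleT 10 471 h1))))) (pr_add (pr_subr 7759713 4300000 (pr_scaleT 229 172 h1)) (pr_cmul (enc_norm (l1q3_4.enc h1.l h2))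 (pr_norm (pr_csub (enc_rat _ 20781 215000) (pr_scaleT 5 258 h1))))))) (pr_case (pr_csub (enc_rat _ 154764337 1000000000) (c3g_s.snd h1)) (pr_case (pr_subr 4063 2048 h1) (pr_add (pr_subr 457592763 253100000 (pr_scaleT 84352 63275 h1)) (pr_cmul (enc_norm (l1q3_4.enc h1.l h2)) (pr_norm (pr_csub (enc_rat _ 311099 3163750) (pr_scaleT 256 12655 h1))))) (pr_add (pr_csub (enc_rat _ 5992528448963 6465561500000) (pr_scaleT 5308000 12931123 (c3g_s.snd h1))) (pr_cmul (enc_norm (l1q3_4.enc h1.l h2)) (pr_norm (pr_subr 7954450179 323278075000 (pr_scaleT 4880000 12931123 (c3g_s.snd h1))))))) (pr_case (pr_csub (enc_rat _ 105307799 1000000000) (c3g_s.snd h1)) (pr_add (pr_csub (enc_rat _ 1145950996547 1236413450000) (pr_scaleT 10150000 24728269 (c3g_s.snd h1))) (pr_cmul (enc_norm (l1q3_4.enc h1.l h2)) (pr_norm (pr_subr 488984847 19782615200 (pr_scaleT 9350000 24728269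 (c3g_s.snd h1)))))) (pr_case (pr_csub (enc_rat _ 54765409 1000000000) (c3g_s.snd h1)) (pr_add (pr_csub (enc_rat _ 1171096124479 1263559750000) (pr_scaleT 2074000 5054239 (c3g_s.snd h1))) (pr_cmul (enc_norm (l1q3_4.enc h1.l h2)) (pr_norm (pr_subr 12481888719 505423900000 (pr_scaleT 1910000 5054239 (c3g_s.snd h1)))))) (pr_add (pr_csub (enc_rat _ 92683 100000) (pr_scaleT 22480000 54765409 (c3g_s.snd h1))) (pr_cmul (enc_norm (l1q3_4.enc h1.l h2)) (pr_norm (pr_subr 123 5000 (pr_scaleT 200000 531703 (c3g_s.snd h1)))))))))))))⟩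
noncomputable def kc1q3_s : Sl2 kc1q3 := ⟨_, fun h1 h2 => (pr_norm (pr_mulz (fun ht => cv1r_two (enc_two h1.r ht)) (cv1r_s.snd h1) (pr_norm (pr_case (pr_subr 197 100 h1) (pr_casec (pr_subr 49221 25000 h1) (pr_subr 1 10000 (pr_cmul (enc_norm (kc1q3_4.enc h1.l h2)) (pr_norm (pr_subr 23048 488375 (pr_scaleT 275 11721 h1))))) (enc_sub (enc_neg (enc_rat _ 1 10000)) (enc_scaleT 1 1000 (kc1q3_4.enc h1.l h2)))) (pr_case (pr_subr 4063 2048 h1) (pr_subr 1 10000 (pr_cmul (enc_norm (kc1q3_4.enc h1.l h2)) (pr_norm (pr_subr 4063 28440 (pr_scaleT 256 3555 h1))))) (pr_add (pr_csub (enc_rat _ 629217 10000) (pr_scaleT 3932612500 13713747 (c3g_s.snd h1))) (pr_cmul (enc_norm (kc1q3_4.enc h1.l h2)) (pr_norm (pr_csub (enc_rat _ 1 1000) (pr_scaleT 62500 13713747 (c3g_s.snd h1)))))))))))⟩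
noncomputable def cv2m_s : Sl1 cv2m := ⟨_, fun h1 => (pr_norm (pr_add (pr_scaleT 7 20 (c1g_s.snd h1)) (pr_scaleT 13 20 (pr_addc (swg_s.snd h1) (enc_rat _ 1 2)))))⟩
noncomputable def bf2q0_13_s : Sl2 bf2q0_13 := ⟨_, fun h1 h2 => (pr_csub (enc_pnc _ 1) (pr_scaleT 47 25 h1))⟩
noncomputable def bf2q0_s : Sl2 bf2q0 := ⟨_, fun h1 h2 => (pr_norm (pr_case (pr_subr 779 25000 h1) (pr_case (pr_subr 27 2000 h1) (pr_case (pr_subr 1 200 h1) (pr_add (bf2q0_13_s.snd h1 h2) (pr_cmul (enc_norm (bf2q0_3.enc h1.l h2)) (pr_nd (pr_scaleT 568 25 h1)))) (pr_case (pr_subr 21 2000 h1) (pr_add (bf2q0_13_s.snd h1 h2) (pr_cmul (enc_norm (bf2q0_3.enc h1.l h2)) (pr_norm (pr_addc (pr_scaleT 1247 55 h1) (enc_rat _ 13 55000))))) (pr_add (pr_csub (enc_rat _ 206811 200000) (pr_scaleT 1537 300 h1)) (pr_cmul (enc_norm (bf2q0_3.enc h1.l h2)) (pr_norm (pr_csub (enc_rat _ 4941 20000) (pr_scaleT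 5 6 h1))))))) (pr_case (pr_subr 33 2048 h1) (pr_add (pr_csub (enc_rat _ 922383 892000) (pr_scaleT 85696 16725 h1)) (pr_cmul (enc_norm (bf2q0_3.enc h1.l h2)) (pr_norm (pr_csub (enc_rat _ 276741 1115000) (pr_scaleT 1024 1115 h1))))) (pr_case (pr_subr 1 40 h1) (pr_add (pr_csub (enc_rat _ 1881979 1820000) (pr_scaleT 291392 56875 h1)) (pr_cmul (enc_norm (bf2q0_3.enc h1.l h2)) (pr_norm (pr_csub (enc_rat _ 225759 910000) (pr_scaleT 10368 11375 h1))))) (pr_add (pr_csub (enc_rat _ 206819 200000) (pr_scaleT 41 8 h1)) (pr_cmul (enc_norm (bf2q0_3.enc h1.l h2)) (pr_norm (pr_csub (enc_rat _ 34667 140000) (pr_scaleT 25 28 h1)))))))) (pr_case (pr_subr 1 10 h1) (pr_case (pr_subr 1 20 h1) (pr_add (pr_csub (enc_rat _ 48703927 47100000) (pr_scaleT 9653 1884 h1)) (pr_cmul (enc_norm (bf2q0_3.enc h1.l h2)) (pr_norm (pr_csub (enc_rat _ 38871 157000) (pr_scaleT 140 157 h1)))))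 (pr_case (pr_subr 7 100 h1) (pr_add (pr_csub (enc_rat _ 103407 100000) (pr_scaleT 1281 250 h1)) (pr_cmul (enc_norm (bf2q0_3.enc h1.l h2)) (pr_norm (pr_csub (enc_rat _ 987 4000) (pr_scaleT 7 8 h1))))) (pr_add (pr_csub (enc_rat _ 155107 150000) (pr_scaleT 15371 3000 h1)) (pr_cmul (enc_norm (bf2q0_3.enc h1.l h2)) (pr_norm (pr_csub (enc_rat _ 2457 10000) (pr_scaleT 43 50 h1))))))) (pr_case (pr_subr 11 50 h1) (pr_case (pr_subr 3 20 h1) (pr_add (pr_csub (enc_rat _ 51703 50000) (pr_scaleT 25619 5000 h1)) (pr_cmul (enc_norm (bf2q0_3.enc h1.l h2)) (pr_norm (pr_csub (enc_rat _ 2441 10000) (pr_scaleT 211 250 h1))))) (pr_add (pr_csub (enc_rat _ 723833 700000) (pr_scaleT 17933 3500 h1)) (pr_cmul (enc_norm (bf2q0_3.enc h1.l h2)) (pr_norm (pr_csub (enc_rat _ 677 2800) (pr_scaleT 29 35 h1)))))) (pr_case (pr_subr 33 100 h1) (pr_add (pr_csub (enc_rat _ 103407 100000)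 (pr_scaleT 28181 5500 h1)) (pr_cmul (enc_norm (bf2q0_3.enc h1.l h2)) (pr_norm (pr_csub (enc_rat _ 2391 10000) (pr_scaleT 449 550 h1))))) (pr_add (pr_csub (enc_rat _ 1757889 1700000) (pr_scaleT 10888 2125 h1)) (pr_cmul (enc_norm (bf2q0_3.enc h1.l h2)) (pr_norm (pr_csub (enc_rat _ 237 1000) (pr_scaleT 81 100 h1))))))))))⟩
noncomputable def kf2q0_s : Sl2 kf2q0 := ⟨_, fun h1 h2 => (pr_norm (pr_mul (cv2m_s.snd h1) (bf2q0_s.snd h1 h2)))⟩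
noncomputable def bx2q0_s : Sl2 bx2q0 := ⟨_, fun h1 h2 => (pr_norm (pr_case (pr_subr 779 25000 h1) (pr_case (pr_subr 27 2000 h1) (pr_case (pr_subr 1 200 h1) (pr_sub (pr_scaleT 91 100 h1) (pr_cmul (enc_norm (bx2q0_3.enc h1.l h2)) (pr_nd (pr_scaleT 99 50 h1)))) (pr_case (pr_subr 21 2000 h1) (pr_add (pr_addc (pr_scaleT 97 110 h1) (enc_rat _ 31 220000)) (pr_cmul (enc_norm (bx2q0_3.enc h1.l h2)) (pr_norm (pr_subr 1699 110000 (pr_scaleT 61 55 h1))))) (pr_add (pr_addc (pr_scaleT 257 300 h1) (enc_rat _ 81 200000)) (pr_cmul (enc_norm (bx2q0_3.enc h1.l h2)) (pr_norm (pr_subr 349 20000 (pr_scaleT 13 10 h1))))))) (pr_case (pr_subr 33 2048 h1) (pr_add (pr_addc (pr_scaleT 4672 5575 h1) (enc_rat _ 14643 22300000)) (pr_cmul (enc_norm (bx2q0_3.enc h1.l h2)) (pr_norm (pr_subr 41249 2230000 (pr_scaleT 1536 1115 h1))))) (pr_case (pr_subr 1 40 h1) (pr_add (pr_addc (pr_scaleT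 9536 11375 h1) (enc_rat _ 5931 9100000)) (pr_cmul (enc_norm (bx2q0_3.enc h1.l h2)) (pr_norm (pr_subr 8759 130000 (pr_scaleT 7168 1625 h1))))) (pr_add (pr_addc (pr_scaleT 193 308 h1) (enc_rat _ 11443 1925000)) (pr_cmul (enc_norm (bx2q0_3.enc h1.l h2)) (pr_norm (pr_addc (pr_scaleT 225 154 h1) (enc_rat _ 1227 192500)))))))) (pr_case (pr_subr 1 10 h1) (pr_case (pr_subr 1 20 h1) (pr_add (pr_addc (pr_scaleT 393 628 h1) (enc_rat _ 23433 3925000)) (pr_cmul (enc_norm (bx2q0_3.enc h1.l h2)) (pr_norm (pr_addc (pr_scaleT 235 157 h1) (enc_rat _ 8257 1570000))))) (pr_case (pr_subr 7 100 h1) (pr_add (pr_addc (pr_scaleT 613 1000 h1) (enc_rat _ 661 100000)) (pr_cmul (enc_norm (bx2q0_3.enc h1.l h2)) (pr_norm (pr_addc (pr_scaleT 207 200 h1) (enc_rat _ 567 20000))))) (pr_add (pr_addc (pr_scaleT 197 375 h1) (enc_rat _ 239 18750)) (pr_cmul (enc_norm (bx2q0_3.enc h1.l h2))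 (pr_norm (pr_addc (pr_scaleT 31 50 h1) (enc_rat _ 287 5000))))))) (pr_case (pr_subr 11 50 h1) (pr_case (pr_subr 3 20 h1) (pr_add (pr_addc (pr_scaleT 423 1000 h1) (enc_rat _ 1149 50000)) (pr_cmul (enc_norm (bx2q0_3.enc h1.l h2)) (pr_norm (pr_addc (pr_scaleT 3 10 h1) (enc_rat _ 447 5000))))) (pr_add (pr_addc (pr_scaleT 2131 7000 h1) (enc_rat _ 3567 87500)) (pr_cmul (enc_norm (bx2q0_3.enc h1.l h2)) (pr_norm (pr_addc (pr_scaleT 9 140 h1) (enc_rat _ 8733 70000)))))) (pr_case (pr_subr 33 100 h1) (pr_add (pr_addc (pr_scaleT 1631 11000 h1) (enc_rat _ 939 12500)) (pr_cmul (enc_norm (bx2q0_3.enc h1.l h2)) (pr_norm (pr_csub (enc_rat _ 323 2000) (pr_scaleT 113 1100 h1))))) (pr_add (pr_csub (enc_rat _ 314901 1700000) (pr_scaleT 394 2125 h1)) (pr_cmul (enc_norm (bx2q0_3.enc h1.l h2)) (pr_norm (pr_csub (enc_rat _ 16951 85000) (pr_scaleT 37 170 h1))))))))))⟩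
noncomputable def l2q0_s : Sl2 l2q0 := ⟨_, fun h1 h2 => (pr_norm (pr_mul (cv2m_s.snd h1) (bx2q0_s.snd h1 h2)))⟩
noncomputable def bd2q0_s : Sl2 bd2q0 := ⟨_, fun h1 h2 => (pr_norm (pr_case (pr_subr 33 2048 h1) (pr_case (pr_subr 1 100 h1) (pr_sub (pr_neg (pr_scaleT 151 4 h1)) (pr_cmul (enc_norm (bd2q0_3.enc h1.l h2)) (pr_nd (pr_scaleT 18 5 h1)))) (pr_add (pr_csub (enc_rat _ 773753 3130000) (pr_scaleT 488832 7825 h1)) (pr_cmul (enc_norm (bd2q0_3.enc h1.l h2)) (pr_norm (pr_subr 1 78250 (pr_neg (pr_scaleT 5632 1565 h1))))))) (pr_case (pr_subr 2613 100000 h1) (pr_add (pr_csub (enc_rat _ 52876939 213690000) (pr_scaleT 4005760 64107 h1)) (pr_cmul (enc_norm (bd2q0_3.enc h1.l h2)) (pr_norm (pr_subr 138451 10684500 (pr_neg (pr_scaleT 179200 64107 h1)))))) (pr_case (pr_subr 779 25000 h1) (pr_add (pr_csub (enc_rat _ 6223 25150) (pr_scaleT 31430 503 h1)) (pr_cmul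 (enc_norm (bd2q0_3.enc h1.l h2)) (pr_norm (pr_subr 24967 503000 (pr_neg (pr_scaleT 700 503 h1)))))) (pr_add (pr_csub (enc_rat _ 28987807 117210000) (pr_scaleT 1464685 23442 h1)) (pr_cmul (enc_norm (bd2q0_3.enc h1.l h2)) (pr_norm (pr_subr 68931 781400 (pr_neg (pr_scaleT 600 3907 h1))))))))))⟩
noncomputable def kc2q0_s : Sl2 kc2q0 := ⟨_, fun h1 h2 => (pr_norm (pr_mul (cv2m_s.snd h1) (bd2q0_s.snd h1 h2)))⟩
noncomputable def bf2q1_14_s : Sl2 bf2q1_14 := ⟨_, fun h1 h2 => (pr_cmul (enc_norm (enc_subr 9743 10000 h2)) (pr_norm (pr_csub (enc_rat _ 2 625) (pr_scaleT 7 1250 h1))))⟩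
noncomputable def bf2q1_s : Sl2 bf2q1 := ⟨_, fun h1 h2 => (pr_norm (pr_case (pr_subr 7 8 h1) (pr_add (pr_subr 40421 60000 (pr_scaleT 40681 37500 h1)) (bf2q1_14_s.snd h1 h2)) (pr_add (pr_subr 33683 50000 (pr_scaleT 678 625 h1)) (bf2q1_14_s.snd h1 h2))))⟩
noncomputable def kf2q1_s : Sl2 kf2q1 := ⟨_, fun h1 h2 => (pr_norm (pr_mul (cv2m_s.snd h1) (bf2q1_s.snd h1 h2)))⟩
noncomputable def bx2q1_s : Sl2 bx2q1 := ⟨_, fun h1 h2 => (pr_norm (pr_case (pr_subr 7 8 h1) (pr_add (pr_csub (enc_rat _ 55867 300000) (pr_scaleT 7027 37500 h1)) (pr_cmul (enc_norm (bx2q1_3.enc h1.l h2)) (pr_norm (pr_csub (enc_rat _ 3523 15000) (pr_scaleT 541 1875 h1))))) (pr_add (pr_csub (enc_rat _ 18627 100000) (pr_scaleT 2343 12500 h1)) (pr_cmul (enc_norm (bx2q1_3.enc h1.l h2)) (pr_norm (pr_csub (enc_rat _ 2477 10000) (pr_scaleT 379 1250 h1)))))))⟩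
noncomputable def l2q1_s : Sl2 l2q1 := ⟨_, fun h1 h2 => (pr_norm (pr_mul (cv2m_s.snd h1) (bx2q1_s.snd h1 h2)))⟩
noncomputable def bd2q1_s : Sl2 bd2q1 := ⟨_, fun h1 h2 => (pr_norm (pr_add (pr_csub (enc_rat _ 1237 5000) (pr_scaleT 312407 5000 h1)) (pr_cmul (enc_norm (enc_subr 9743 10000 h2)) (pr_norm (pr_subr 24 125 (pr_scaleT 27 500 h1))))))⟩
noncomputable def kc2q1_s : Sl2 kc2q1 := ⟨_, fun h1 h2 => (pr_norm (pr_mul (cv2m_s.snd h1) (bd2q1_s.snd h1 h2)))⟩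
noncomputable def cv2p_s : Sl1 cv2p := ⟨_, fun h1 => (pr_norm (pr_add (pr_scaleT 7 20 (c1g_s.snd h1)) (pr_scaleT 13 20 (pr_subr 1 2 (swg_s.snd h1)))))⟩
noncomputable def bf2q2_s : Sl2 bf2q2 := ⟨_, fun h1 h2 => (pr_norm (pr_case (pr_subr 21 20 h1) (pr_case (pr_subr 2081 2048 h1) (pr_add (pr_csub (enc_rat _ 39583 9375) (pr_scaleT 30208 9375 h1)) (pr_cmul (enc_norm (bf2q2_3.enc h1.l h2)) (pr_norm (pr_subr 128 20625 (pr_scaleT 128 20625 h1))))) (pr_case (pr_subr 25779 25000 h1) (pr_addc (pr_csub (enc_rat _ 5082133199 1203737500) (pr_scaleT 310272 96299 h1)) (enc_scaleT 1 10000 (bf2q2_3.enc h1.l h2))) (pr_add (pr_csub (enc_rat _ 66291823 15700000) (pr_scaleT 6071 1884 h1)) (pr_cmul (enc_norm (bf2q2_3.enc h1.l h2)) (pr_norm (pr_subr 2109 392500 (pr_scaleT 5 942 h1))))))) (pr_case (pr_subr 231 200 h1) (pr_case (pr_subr 107 100 h1) (pr_add (pr_csub (enc_rat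 _ 422199 100000) (pr_scaleT 1611 500 h1)) (pr_cmul (enc_norm (bf2q2_3.enc h1.l h2)) (pr_norm (pr_subr 101 20000 (pr_scaleT 1 200 h1))))) (pr_add (pr_csub (enc_rat _ 7177597 1700000) (pr_scaleT 6847 2125 h1)) (pr_cmul (enc_norm (bf2q2_3.enc h1.l h2)) (pr_norm (pr_subr 591 170000 (pr_scaleT 3 850 h1)))))) (pr_case (pr_subr 13 10 h1) (pr_add (pr_csub (enc_rat _ 3061051 725000) (pr_scaleT 46721 14500 h1)) (pr_cmul (enc_norm (bf2q2_3.enc h1.l h2)) (pr_norm (pr_subr 981 290000 (pr_scaleT 1 290 h1))))) (pr_add (pr_csub (enc_rat _ 844431 200000) (pr_scaleT 64443 20000 h1)) (pr_cmul (enc_norm (bf2q2_3.enc h1.l h2)) (pr_norm (pr_subr 7 2500 (pr_scaleT 3 1000 h1)))))))))⟩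
noncomputable def kf2q2_s : Sl2 kf2q2 := ⟨_, fun h1 h2 => (pr_norm (pr_mul (cv2p_s.snd h1) (bf2q2_s.snd h1 h2)))⟩
noncomputable def bx2q2_s : Sl2 bx2q2 := ⟨_, fun h1 h2 => (pr_norm (pr_case (pr_subr 21 20 h1) (pr_case (pr_subr 2081 2048 h1) (pr_add (pr_csub (enc_rat _ 2112 3125) (pr_scaleT 2112 3125 h1)) (pr_cmul (enc_norm (bx2q2_3.enc h1.l h2)) (pr_norm (pr_subr 17408 20625 (pr_scaleT 17408 20625 h1))))) (pr_case (pr_subr 25779 25000 h1) (pr_add (pr_csub (enc_rat _ 6502305389 9629900000) (pr_scaleT 65024 96299 h1)) (pr_cmul (enc_norm (bx2q2_3.enc h1.l h2)) (pr_norm (pr_subr 57592649 68785000 (pr_scaleT 11520 13757 h1))))) (pr_add (pr_csub (enc_rat _ 2652101 3925000) (pr_scaleT 1273 1884 h1)) (pr_cmul (enc_norm (bx2q2_3.enc h1.l h2)) (pr_norm (pr_subr 16457 19625 (pr_scaleT 395 471 h1))))))) (pr_case (pr_subr 231 200 h1) (pr_case (pr_subr 107 100 h1)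 (pr_add (pr_csub (enc_rat _ 2106 3125) (pr_scaleT 337 500 h1)) (pr_cmul (enc_norm (bx2q2_3.enc h1.l h2)) (pr_norm (pr_subr 3297 4000 (pr_scaleT 33 40 h1))))) (pr_add (pr_csub (enc_rat _ 572297 850000) (pr_scaleT 1431 2125 h1)) (pr_cmul (enc_norm (bx2q2_3.enc h1.l h2)) (pr_norm (pr_subr 138357 170000 (pr_scaleT 693 850 h1)))))) (pr_case (pr_subr 13 10 h1) (pr_add (pr_subr 570163 362500 (pr_scaleT 9217 7250 h1)) (pr_cmul (enc_norm (bx2q2_3.enc h1.l h2)) (pr_norm (pr_subr 45579 58000 (pr_scaleT 1147 1450 h1))))) (pr_add (pr_subr 157337 100000 (pr_scaleT 12717 10000 h1)) (pr_cmul (enc_norm (bx2q2_3.enc h1.l h2)) (pr_norm (pr_subr 7767 10000 (pr_scaleT 98 125 h1)))))))))⟩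
noncomputable def l2q2_s : Sl2 l2q2 := ⟨_, fun h1 h2 => (pr_norm (pr_mul (cv2p_s.snd h1) (bx2q2_s.snd h1 h2)))⟩
noncomputable def bd2q2_s : Sl2 bd2q2 := ⟨_, fun h1 h2 => (pr_norm (pr_case (pr_subr 231 200 h1) (pr_add (pr_subr 16143 310 (pr_scaleT 16143 310 h1)) (pr_cmul (enc_norm (bd2q2_3.enc h1.l h2)) (pr_norm (pr_subr 59 155 (pr_scaleT 59 155 h1))))) (pr_add (pr_subr 11977067 230000 (pr_scaleT 89828 1725 h1)) (pr_cmul (enc_norm (bd2q2_3.enc h1.l h2)) (pr_norm (pr_subr 4827 11500 (pr_scaleT 143 345 h1)))))))⟩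
noncomputable def kc2q2_s : Sl2 kc2q2 := ⟨_, fun h1 h2 => (pr_norm (pr_mul (cv2p_s.snd h1) (bd2q2_s.snd h1 h2)))⟩
noncomputable def cv2r_s : Sl1 cv2r := ⟨_, fun h1 => (pr_norm (pr_scaleT 13 20 (pr_subr 1 2 (swg_s.snd h1))))⟩
noncomputable def kf2q3_s : Sl2 kf2q3 := ⟨_, fun h1 h2 => (pr_norm (pr_mulz (fun ht => cv2r_two (enc_two h1.r ht)) (cv2r_s.snd h1) (pr_norm (pr_case (pr_subr 987 500 h1) (pr_case (pr_subr 39 20 h1) (pr_case (pr_subr 193 100 h1) (pr_add (pr_csub (enc_rat _ 53542479 2150000) (pr_scaleT 136313 10750 h1)) (pr_cmul (enc_norm (kf2q3_4.enc h1.l h2)) (pr_norm (pr_csub (enc_rat _ 1216457 53750) (pr_scaleT 12933 860 h1))))) (pr_add (pr_csub (enc_rat _ 1245147 50000) (pr_scaleT 317 25 h1)) (pr_cmul (enc_norm (kf2q3_4.enc h1.l h2)) (pr_norm (pr_csub (enc_rat _ 452891 20000) (pr_scaleT 3009 200 h1)))))) (pr_case (pr_subr 49221 25000 h1) (pr_add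 (pr_csub (enc_rat _ 195495229 7850000) (pr_scaleT 11945 942 h1)) (pr_cmul (enc_norm (kf2q3_4.enc h1.l h2)) (pr_norm (pr_csub (enc_rat _ 17796463 785000) (pr_scaleT 14185 942 h1))))) (pr_add (pr_csub (enc_rat _ 107084573 4300000) (pr_scaleT 2181 172 h1)) (pr_cmul (enc_norm (kf2q3_4.enc h1.l h2)) (pr_norm (pr_csub (enc_rat _ 2437043 107500) (pr_scaleT 1295 86 h1))))))) (pr_case (pr_csub (enc_rat _ 154764337 1000000000) (c3g_s.snd h1)) (pr_case (pr_subr 4063 2048 h1) (pr_add (pr_csub (enc_rat _ 252109999 10124000) (pr_scaleT 802304 63275 h1)) (pr_cmul (enc_norm (kf2q3_4.enc h1.l h2)) (pr_norm (pr_csub (enc_rat _ 287205317 12655000) (pr_scaleT 38144 2531 h1))))) (pr_add (pr_subr 2976801355413 6465561500000 (pr_scaleT 12238000 12931123 (c3g_s.snd h1))) (pr_cmul (enc_norm (kf2q3_4.enc h1.l h2)) (pr_norm (pr_subr 1223516647599 161639037500 (pr_scaleT 21560000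 12931123 (c3g_s.snd h1))))))) (pr_case (pr_csub (enc_rat _ 105307799 1000000000) (c3g_s.snd h1)) (pr_add (pr_subr 2277090415469 4945653800000 (pr_scaleT 23405000 24728269 (c3g_s.snd h1))) (pr_cmul (enc_norm (kf2q3_4.enc h1.l h2)) (pr_norm (pr_subr 3752931757577 494565380000 (pr_scaleT 44250000 24728269 (c3g_s.snd h1)))))) (pr_case (pr_csub (enc_rat _ 54765409 1000000000) (c3g_s.snd h1)) (pr_add (pr_subr 1163554614833 2527119500000 (pr_scaleT 4784000 5054239 (c3g_s.snd h1))) (pr_cmul (enc_norm (kf2q3_4.enc h1.l h2)) (pr_norm (pr_subr 479331590139 63177987500 (pr_scaleT 8980000 5054239 (c3g_s.snd h1)))))) (pr_add (pr_subr 23021 50000 (pr_scaleT 51830000 54765409 (c3g_s.snd h1))) (pr_cmul (enc_norm (kf2q3_4.enc h1.l h2)) (pr_norm (pr_subr 75867 10000 (pr_scaleT 97000000 54765409 (c3g_s.snd h1)))))))))))))⟩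
noncomputable def l2q3_s : Sl2 l2q3 := ⟨_, fun h1 h2 => (pr_norm (pr_mulz (fun ht => cv2r_two (enc_two h1.r ht)) (cv2r_s.snd h1) (pr_norm (pr_case (pr_subr 987 500 h1) (pr_case (pr_subr 39 20 h1) (pr_case (pr_subr 193 100 h1) (pr_add (pr_subr 3383113 2150000 (pr_scaleT 6836 5375 h1)) (pr_cmul (enc_norm (l2q3_4.enc h1.l h2)) (pr_norm (pr_subr 340851 430000 (pr_scaleT 3417 4300 h1))))) (pr_add (pr_subr 15739 10000 (pr_scaleT 159 125 h1)) (pr_cmul (enc_norm (l2q3_4.enc h1.l h2)) (pr_norm (pr_subr 16253 20000 (pr_scaleT 161 200 h1)))))) (pr_case (pr_subr 49221 25000 h1) (pr_add (pr_subr 494059 314000 (pr_scaleT 599 471 h1)) (pr_cmul (enc_norm (l2q3_4.enc h1.l h2)) (pr_norm (pr_subr 1313853 1570000 (pr_scaleT 385 471 h1))))) (pr_add (pr_subr 3381007 2150000 (pr_scaleT 164 129 h1)) (pr_cmul (enc_norm (l2q3_4.enc h1.l h2)) (pr_norm (pr_subr 356919 430000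 (pr_scaleT 35 43 h1))))))) (pr_case (pr_csub (enc_rat _ 154764337 1000000000) (c3g_s.snd h1)) (pr_case (pr_subr 4063 2048 h1) (pr_add (pr_subr 198776151 126550000 (pr_scaleT 80384 63275 h1)) (pr_cmul (enc_norm (l2q3_4.enc h1.l h2)) (pr_norm (pr_subr 21779931 25310000 (pr_scaleT 10496 12655 h1))))) (pr_add (pr_addc (pr_scaleT 2350000 12931123 (c3g_s.snd h1)) (enc_rat _ 588174944557 646556150000)) (pr_cmul (enc_norm (l2q3_4.enc h1.l h2)) (pr_norm (pr_subr 185504912789 129311230000 (pr_scaleT 130800000 12931123 (c3g_s.snd h1))))))) (pr_case (pr_csub (enc_rat _ 105307799 1000000000) (c3g_s.snd h1)) (pr_add (pr_addc (pr_scaleT 4470000 24728269 (c3g_s.snd h1)) (enc_rat _ 562477898247 618206725000)) (pr_cmul (enc_norm (l2q3_4.enc h1.l h2)) (pr_norm (pr_subr 142776154241 98913076000 (pr_scaleT 251550000 24728269 (c3g_s.snd h1)))))) (pr_case (pr_csub (enc_rat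 _ 54765409 1000000000) (c3g_s.snd h1)) (pr_add (pr_addc (pr_scaleT 244000 5054239 (c3g_s.snd h1)) (enc_rat _ 2334568480877 2527119500000)) (pr_cmul (enc_norm (l2q3_4.enc h1.l h2)) (pr_norm (pr_subr 728663707847 505423900000 (pr_scaleT 51330000 5054239 (c3g_s.snd h1)))))) (pr_add (pr_addc (pr_scaleT 2650000 54765409 (c3g_s.snd h1)) (enc_rat _ 4619 5000)) (pr_cmul (enc_norm (l2q3_4.enc h1.l h2)) (pr_norm (pr_subr 2883 2000 (pr_scaleT 556000000 54765409 (c3g_s.snd h1)))))))))))))⟩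
noncomputable def kc2q3_s : Sl2 kc2q3 := ⟨_, fun h1 h2 => (pr_norm (pr_mulz (fun ht => cv2r_two (enc_two h1.r ht)) (cv2r_s.snd h1) (pr_norm (pr_case (pr_subr 197 100 h1) (pr_case (pr_subr 49221 25000 h1) (pr_add (pr_subr 2034530503 39070000 (pr_scaleT 610360 11721 h1)) (pr_cmul (enc_norm (kc2q3_4.enc h1.l h2)) (pr_norm (pr_subr 1917893 1953500 (pr_scaleT 9250 11721 h1))))) (pr_add (pr_subr 15098549 290000 (pr_scaleT 1510 29 h1)) (pr_cmul (enc_norm (kc2q3_4.enc h1.l h2)) (pr_norm (pr_subr 32633 29000 (pr_scaleT 25 29 h1)))))) (pr_case (pr_subr 4063 2048 h1) (pr_add (pr_subr 14808319 284400 (pr_scaleT 925568 17775 h1)) (pr_cmul (enc_norm (kc2q3_4.enc h1.l h2)) (pr_norm (pr_subr 702101 711000 (pr_scaleT 2816 3555 h1))))) (pr_add (pr_addc (pr_scaleT 2895700000 13713747 (c3g_s.snd h1)) (enc_rat _ 24519 5000)) (pr_cmul (enc_norm (kc2q3_4.enc h1.l h2)) (pr_norm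 (pr_subr 43 200 (pr_scaleT 2937500 806691 (c3g_s.snd h1)))))))))))⟩
noncomputable def cv3m_s : Sl1 cv3m := ⟨_, fun h1 => (pr_norm (pr_add (pr_scaleT 1929 2000 (pr_addc (swg_s.snd h1) (enc_rat _ 1 2))) (pr_scaleT 71 2000 (c3g_s.snd h1))))⟩
noncomputable def esg_s : Sl1 esg := ⟨_, fun h1 => (pr_norm (pr_subn 1 (pr_add (pr_half h1) (gsg_s.snd h1))))⟩
noncomputable def kf3q0_144_s : Sl2 kf3q0_144 := ⟨_, fun h1 h2 => (pr_csub (enc_pnc _ 1) h1)⟩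
noncomputable def kf3q0_145_s : Sl2 kf3q0_145 := ⟨_, fun h1 h2 => (gsg_s.snd (pr_norm (kf3q0_144_s.snd h1 h2)))⟩
noncomputable def kf3q0_148_s : Sl2 kf3q0_148 := ⟨_, fun h1 h2 => (pr_sub (pr_scaleT 3 4 (kf3q0_144_s.snd h1 h2)) (pr_half (kf3q0_145_s.snd h1 h2)))⟩
noncomputable def kf3q0_149_s : Sl2 kf3q0_149 := ⟨_, fun h1 h2 => (esg_s.snd (pr_norm (kf3q0_144_s.snd h1 h2)))⟩
noncomputable def kf3q0_150_s : Sl2 kf3q0_150 := ⟨_, fun h1 h2 => (kcg_s.snd (pr_norm (kf3q0_148_s.snd h1 h2)) h2)⟩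
noncomputable def kf3q0_158_s : Sl2 kf3q0_158 := ⟨_, fun h1 h2 => (pr_sub (kf3q0_148_s.snd h1 h2) (pr_csub (enc_rat _ 1 4) (pr_scaleT 3 8 (pr_mul (pr_norm (kf3q0_144_s.snd h1 h2)) (pr_nd (pr_inv (kf3q0_145_s.snd h1 h2)))))))⟩
noncomputable def kf3q0_167_s : Sl2 kf3q0_167 := ⟨_, fun h1 h2 => (pr_mul (cv2m_s.snd h1) (bf2q0_s.snd h1 h2))⟩
noncomputable def kf3q0_s : Sl2 kf3q0 := ⟨_, fun h1 h2 => (pr_norm (pr_case (pr_subr 33 2048 h1) (pr_mul (cv3m_s.snd h1) (pr_norm (pr_case (pr_subr 21 2000 h1) (pr_case (pr_subr 1 200 h1) (pr_add (pr_csub (enc_rat _ 9651 10000) (pr_scaleT 2687 500 h1)) (pr_cmul (enc_norm (kf3q0_4.enc h1.l h2)) (pr_norm (pr_csub (enc_rat _ 11 125) (pr_scaleT 1987 50 h1))))) (pr_add (pr_csub (enc_rat _ 1061603 1100000) (pr_scaleT 591 110 h1)) (pr_cmul (enc_norm (kf3q0_4.enc h1.l h2)) (pr_norm (pr_csub (enc_rat _ 9693 110000) (pr_scaleT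 2187 55 h1)))))) (pr_case (pr_subr 27 2000 h1) (pr_add (pr_csub (enc_rat _ 9651 10000) (pr_scaleT 403 75 h1)) (pr_cmul (enc_norm (kf3q0_4.enc h1.l h2)) (pr_norm (pr_csub (enc_rat _ 177 2000) (pr_scaleT 199 5 h1))))) (pr_add (pr_csub (enc_rat _ 16813744629 17421875000) (pr_scaleT 280816862 52265625 h1)) (pr_cmul (enc_norm (kf3q0_4.enc h1.l h2)) (pr_norm (pr_csub (enc_rat _ 154075407 1742187500) (pr_scaleT 415986292 10453125 h1))))))))) (pr_case (pr_subr 779 25000 h1) (pr_add (kf3q0_167_s.snd h1 h2) (pr_mul (pr_norm (pr_mul (pr_norm (pr_sub (pr_wB0 (pr_mul h1 (pr_norm (pr_sub (pr_mul (pr_norm (kf3q0_158_s.snd h1 h2)) (pr_nd (pr_inv (kf3q0_149_s.snd h1 h2)))) (kf3q0_150_s.snd h1 h2)))) (kf3q0_144_s.snd h1 h2) (kf3q0_145_s.snd h1 h2) (kf3q0_149_s.snd h1 h2) h1 (kf3q0_158_s.snd h1 h2) (kf3q0_150_s.snd h1 h2) rfl rfl rfl rfl rfl rfl rfl rfl) (kf3q0_167_s.snd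 h1 h2))) (pr_norm (pr_sub (cv3m_s.snd h1) (cv2m_s.snd h1))))) (pr_nd (pr_inv (pr_sub (pr_addc (swg_s.snd h1) (enc_rat _ 1 2)) (cv2m_s.snd h1)))))) (pr_mul (cv3m_s.snd h1) (pr_norm (pr_case (pr_subr 1 10 h1) (pr_case (pr_subr 1 20 h1) (pr_add (pr_csub (enc_rat _ 1389231657 1256000000) (pr_scaleT 441768057 62800000 h1)) (pr_cmul (enc_norm (kf3q0_4.enc h1.l h2)) (pr_norm (pr_subr 69030071 188400000 (pr_scaleT 10343471 9420000 h1))))) (pr_case (pr_subr 7 100 h1) (pr_add (pr_csub (enc_rat _ 44243 40000) (pr_scaleT 14069 2000 h1)) (pr_cmul (enc_norm (kf3q0_4.enc h1.l h2)) (pr_norm (pr_subr 293 800 (pr_scaleT 219 200 h1))))) (pr_add (pr_csub (enc_rat _ 165913 150000) (pr_scaleT 2638 375 h1)) (pr_cmul (enc_norm (kf3q0_4.enc h1.l h2)) (pr_norm (pr_subr 1097 3000 (pr_scaleT 163 150 h1))))))) (pr_case (pr_subr 11 50 h1) (pr_case (pr_subr 3 20 h1) (pr_add (pr_csub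 (enc_rat _ 55303 50000) (pr_scaleT 8793 1250 h1)) (pr_cmul (enc_norm (kf3q0_4.enc h1.l h2)) (pr_norm (pr_subr 228 625 (pr_scaleT 539 500 h1))))) (pr_add (pr_csub (enc_rat _ 38713 35000) (pr_scaleT 24621 3500 h1)) (pr_cmul (enc_norm (kf3q0_4.enc h1.l h2)) (pr_norm (pr_subr 25437 70000 (pr_scaleT 187 175 h1)))))) (pr_case (pr_subr 33 100 h1) (pr_add (pr_csub (enc_rat _ 55303 50000) (pr_scaleT 77379 11000 h1)) (pr_cmul (enc_norm (kf3q0_4.enc h1.l h2)) (pr_norm (pr_subr 3613 10000 (pr_scaleT 233 220 h1))))) (pr_add (pr_csub (enc_rat _ 1880311 1700000) (pr_scaleT 59793 8500 h1)) (pr_cmul (enc_norm (kf3q0_4.enc h1.l h2)) (pr_norm (pr_subr 61043 170000 (pr_scaleT 1789 1700 h1)))))))))))))⟩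
noncomputable def qsg_s : Sl1 qsg := ⟨_, fun h1 => (pr_norm (pr_mul (pr_norm (pr_csub (enc_pnc _ 1) (gsg_s.snd h1))) (pr_norm (pr_subn 1 (pr_nat 2 (gsg_s.snd h1))))))⟩
noncomputable def l3q0_153_s : Sl2 l3q0_153 := ⟨_, fun h1 h2 => (pr_csub (enc_pnc _ 1) h1)⟩
noncomputable def l3q0_168_s : Sl2 l3q0_168 := ⟨_, fun h1 h2 => (pr_mul (cv2m_s.snd h1) (bx2q0_s.snd h1 h2))⟩
noncomputable def l3q0_s : Sl2 l3q0 := ⟨_, fun h1 h2 => (pr_norm (pr_case (pr_subr 33 2048 h1) (pr_mul (cv3m_s.snd h1) (pr_norm (pr_case (pr_subr 21 2000 h1) (pr_case (pr_subr 1 200 h1) (pr_add (pr_addc (pr_scaleT 121 100 h1) (enc_rat _ 473 20000)) (pr_cmul (enc_norm (l3q0_4.enc h1.l h2)) (pr_norm (pr_csub (enc_rat _ 329 5000) (pr_scaleT 109 25 h1))))) (pr_add (pr_addc (pr_scaleT 331 275 h1) (enc_rat _ 521 22000)) (pr_cmul (enc_norm (l3q0_4.enc h1.l h2)) (pr_norm (pr_csub (enc_rat _ 729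 11000) (pr_scaleT 49 11 h1)))))) (pr_case (pr_subr 27 2000 h1) (pr_add (pr_addc (pr_scaleT 359 300 h1) (enc_rat _ 4751 200000)) (pr_cmul (enc_norm (l3q0_4.enc h1.l h2)) (pr_norm (pr_csub (enc_rat _ 281 4000) (pr_scaleT 29 6 h1))))) (pr_add (pr_add (pr_addc (pr_scaleT 61157542 52265625 h1) (enc_rat _ 1680392369 69687500000)) (pr_cmul (enc_norm (l3q0_4.enc h1.l h2)) (pr_norm (pr_subr 2558084329 3484375000 (pr_scaleT 572334712 10453125 h1))))) (pr_cmul (l3q0_52.enc h1.l h2) (pr_norm (pr_csub (enc_rat _ 4724154 3484375) (pr_scaleT 8398496 83625 h1))))))))) (pr_case (pr_subr 779 25000 h1) (pr_add (l3q0_168_s.snd h1 h2) (pr_mul (pr_norm (pr_mul (pr_norm (pr_sub (pr_sub (qsg_s.snd (pr_norm (l3q0_153_s.snd h1 h2))) (pr_mul (pr_norm (pr_nat 2 (pr_subc (l3q0_153_s.snd h1 h2) h2))) (pr_norm (pr_mul (esg_s.snd (pr_norm (l3q0_153_s.snd h1 h2))) (kcg_s.snd (pr_norm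 (pr_sub (pr_scaleT 3 4 (l3q0_153_s.snd h1 h2)) (pr_half (gsg_s.snd (pr_norm (l3q0_153_s.snd h1 h2)))))) h2))))) (l3q0_168_s.snd h1 h2))) (pr_norm (pr_sub (cv3m_s.snd h1) (cv2m_s.snd h1))))) (pr_nd (pr_inv (pr_sub (pr_addc (swg_s.snd h1) (enc_rat _ 1 2)) (cv2m_s.snd h1)))))) (pr_mul (cv3m_s.snd h1) (pr_norm (pr_case (pr_subr 1 10 h1) (pr_case (pr_subr 1 20 h1) (pr_add (pr_add (pr_addc (pr_scaleT 14621791 37680000 h1) (enc_rat _ 35372033 753600000)) (pr_cmul (enc_norm (l3q0_4.enc h1.l h2)) (pr_norm (pr_csub (enc_rat _ 22061269 62800000) (pr_scaleT 27342749 3140000 h1))))) (pr_cmul (l3q0_52.enc h1.l h2) (pr_norm (pr_csub (enc_rat _ 1 12560) (pr_scaleT 1 628 h1))))) (pr_case (pr_subr 7 100 h1) (pr_add (pr_addc (pr_scaleT 777 2000 h1) (enc_rat _ 9383 200000)) (pr_cmul (enc_norm (l3q0_4.enc h1.l h2)) (pr_norm (pr_subr 1417 20000 (pr_neg (pr_scaleT 53 200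 h1)))))) (pr_add (pr_addc (pr_scaleT 581 1500 h1) (enc_rat _ 14099 300000)) (pr_cmul (enc_norm (l3q0_4.enc h1.l h2)) (pr_norm (pr_subr 2269 30000 (pr_neg (pr_scaleT 59 300 h1)))))))) (pr_case (pr_subr 11 50 h1) (pr_case (pr_subr 3 20 h1) (pr_add (pr_addc (pr_scaleT 953 2500 h1) (enc_rat _ 4761 100000)) (pr_cmul (enc_norm (l3q0_4.enc h1.l h2)) (pr_norm (pr_subr 33 400 (pr_neg (pr_scaleT 16 125 h1)))))) (pr_add (pr_addc (pr_scaleT 321 875 h1) (enc_rat _ 34833 700000)) (pr_cmul (enc_norm (l3q0_4.enc h1.l h2)) (pr_norm (pr_subr 6519 70000 (pr_neg (pr_scaleT 2 35 h1))))))) (pr_case (pr_subr 33 100 h1) (pr_add (pr_addc (pr_scaleT 3437 11000 h1) (enc_rat _ 6173 100000)) (pr_cmul (enc_norm (l3q0_4.enc h1.l h2)) (pr_norm (pr_subr 1081 10000 (pr_scaleT 3 275 h1))))) (pr_add (pr_csub (enc_rat _ 415627 1700000) (pr_scaleT 4103 17000 h1)) (pr_cmul (enc_norm (l3q0_4.enc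 h1.l h2)) (pr_norm (pr_subr 451 3400 (pr_scaleT 29 340 h1)))))))))))))⟩
noncomputable def kc3q0_46_s : Sl2 kc3q0_46 := ⟨_, fun h1 h2 => (pr_csub (enc_pnc _ 1) h1)⟩
noncomputable def kc3q0_47_s : Sl2 kc3q0_47 := ⟨_, fun h1 h2 => (gsg_s.snd (pr_norm (kc3q0_46_s.snd h1 h2)))⟩
noncomputable def kc3q0_51_s : Sl2 kc3q0_51 := ⟨_, fun h1 h2 => (esg_s.snd (pr_norm (kc3q0_46_s.snd h1 h2)))⟩
noncomputable def kc3q0_55_s : Sl2 kc3q0_55 := ⟨_, fun h1 h2 => (gug_s.snd (pr_norm (kc3q0_46_s.snd h1 h2)))⟩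
noncomputable def kc3q0_57_s : Sl2 kc3q0_57 := ⟨_, fun h1 h2 => (pr_mul (pr_norm (kc3q0_46_s.snd h1 h2)) (pr_nd (pr_inv (kc3q0_47_s.snd h1 h2))))⟩
noncomputable def kc3q0_58_s : Sl2 kc3q0_58 := ⟨_, fun h1 h2 => (pr_scaleT 3 4 (kc3q0_57_s.snd h1 h2))⟩
noncomputable def kc3q0_88_s : Sl2 kc3q0_88 := ⟨_, fun h1 h2 => (pr_mul (cv2m_s.snd h1) (bd2q0_s.snd h1 h2))⟩
noncomputable def kc3q0_s : Sl2 kc3q0 := ⟨_, fun h1 h2 => (pr_norm (pr_case (pr_subr 33 2048 h1) (pr_mul (cv3m_s.snd h1) (pr_norm (pr_case (pr_subr 1 100 h1) (pr_add (pr_subr 399 1250 (pr_neg (pr_scaleT 10449 100 h1))) (pr_cmul (enc_norm (kc3q0_4.enc h1.l h2)) (pr_norm (pr_subr 891 200 (pr_neg (pr_scaleT 15671 10 h1)))))) (pr_add (pr_subr 15601037713 48906250000 (pr_neg (pr_scaleT 12777994478 122265625 h1))) (pr_cmul (enc_norm (kc3q0_4.enc h1.l h2)) (pr_norm (pr_subr 2177118479 489062500 (pr_neg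 (pr_scaleT 7665753396 4890625 h1))))))))) (pr_case (pr_subr 779 25000 h1) (pr_add (kc3q0_88_s.snd h1 h2) (pr_mul (pr_norm (pr_mul (pr_norm (pr_sub (pr_add (pr_sub (pr_neg (pr_add (pr_cadd (enc_rat _ 3 4) (pr_scaleT 3 2 (kc3q0_46_s.snd h1 h2))) (pr_scaleT 3 4 (pr_mul (pr_norm (kc3q0_57_s.snd h1 h2)) (kc3q0_55_s.snd h1 h2))))) (pr_wT (pr_mul (pr_norm (pr_sub (pr_mul (pr_norm (pr_mul (pr_norm (kc3q0_58_s.snd h1 h2)) (pr_norm (pr_subn 3 (pr_nat 4 (kc3q0_47_s.snd h1 h2)))))) (kc3q0_51_s.snd h1 h2)) (pr_mul (qsg_s.snd (pr_norm (kc3q0_46_s.snd h1 h2))) (pr_norm (pr_csub (enc_rat _ 1 2) (kc3q0_58_s.snd h1 h2)))))) (pr_nd (pr_inv (pr_mul (pr_nd (pr_nat 2 (kc3q0_51_s.snd h1 h2))) (kc3q0_51_s.snd h1 h2))))) (kc3q0_46_s.snd h1 h2) (kc3q0_47_s.snd h1 h2) (kc3q0_51_s.snd h1 h2) rfl rfl rfl rfl rfl rfl rfl rfl)) (pr_mul (kcg_s.snd (pr_norm (pr_sub (pr_scaleT 3 4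 (kc3q0_46_s.snd h1 h2)) (pr_half (kc3q0_47_s.snd h1 h2)))) h2) (pr_norm (pr_cadd (enc_pnc _ 1) (pr_add (kc3q0_55_s.snd h1 h2) (pr_nat 2 (kc3q0_47_s.snd h1 h2))))))) (kc3q0_88_s.snd h1 h2))) (pr_norm (pr_sub (cv3m_s.snd h1) (cv2m_s.snd h1))))) (pr_nd (pr_inv (pr_sub (pr_addc (swg_s.snd h1) (enc_rat _ 1 2)) (cv2m_s.snd h1)))))) (pr_mul (cv3m_s.snd h1) (pr_norm (pr_add (pr_subr 820347809 937680000 (pr_scaleT 410112809 468840000 h1)) (pr_cmul (enc_norm (kc3q0_4.enc h1.l h2)) (pr_norm (pr_csub (enc_rat _ 17376091 117210000) (pr_scaleT 11046751 58605000 h1))))))))))⟩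
noncomputable def bf3q1_s : Sl2 bf3q1 := ⟨_, fun h1 h2 => (pr_norm (pr_case (pr_subr 7 8 h1) (pr_add (pr_addc (pr_scaleT 3193 3750 h1) (enc_rat _ 44561 300000)) (pr_cmul (enc_norm (bf3q1_3.enc h1.l h2)) (pr_norm (pr_subr 77 15000 (pr_scaleT 19 3750 h1))))) (pr_add (pr_addc (pr_scaleT 10643 12500 h1) (enc_rat _ 1857 12500)) (pr_cmul (enc_norm (bf3q1_3.enc h1.l h2)) (pr_norm (pr_subr 7 1250 (pr_scaleT 7 1250 h1)))))))⟩
noncomputable def kf3q1_s : Sl2 kf3q1 := ⟨_, fun h1 h2 => (pr_norm (pr_mul (cv3m_s.snd h1) (bf3q1_s.snd h1 h2)))⟩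
noncomputable def bx3q1_s : Sl2 bx3q1 := ⟨_, fun h1 h2 => (pr_norm (pr_case (pr_subr 7 8 h1) (pr_add (pr_csub (enc_rat _ 74287 300000) (pr_scaleT 4643 18750 h1)) (pr_cmul (enc_norm (bx3q1_3.enc h1.l h2)) (pr_norm (pr_subr 53 300 (pr_scaleT 13 75 h1))))) (pr_add (pr_csub (enc_rat _ 619 2500) (pr_scaleT 619 2500 h1)) (pr_cmul (enc_norm (bx3q1_3.enc h1.l h2)) (pr_norm (pr_subr 1 5 (pr_scaleT 1 5 h1)))))))⟩
noncomputable def l3q1_s : Sl2 l3q1 := ⟨_, fun h1 h2 => (pr_norm (pr_mul (cv3m_s.snd h1) (bx3q1_s.snd h1 h2)))⟩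
noncomputable def bd3q1_s : Sl2 bd3q1 := ⟨_, fun h1 h2 => (pr_norm (pr_add (pr_subr 7 8 (pr_scaleT 7 8 h1)) (pr_cmul (enc_norm (enc_subr 9743 10000 h2)) (pr_norm (pr_csub (enc_rat _ 27 250) (pr_scaleT 27 250 h1))))))⟩
noncomputable def kc3q1_s : Sl2 kc3q1 := ⟨_, fun h1 h2 => (pr_norm (pr_mul (cv3m_s.snd h1) (bd3q1_s.snd h1 h2)))⟩
noncomputable def cv3p_s : Sl1 cv3p := ⟨_, fun h1 => (pr_norm (pr_add (pr_scaleT 1929 2000 (pr_subr 1 2 (swg_s.snd h1))) (pr_scaleT 71 2000 (c3g_s.snd h1))))⟩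
noncomputable def bf3q2_s : Sl2 bf3q2 := ⟨_, fun h1 h2 => (pr_norm (pr_case (pr_subr 21 20 h1) (pr_case (pr_subr 2081 2048 h1) (pr_add (pr_addc (pr_scaleT 19136 34375 h1) (enc_rat _ 171169 550000)) (pr_cmul (enc_norm (bf3q2_3.enc h1.l h2)) (pr_norm (pr_subr 1453 165000 (pr_scaleT 128 20625 h1))))) (pr_case (pr_subr 25779 25000 h1) (pr_add (pr_addc (pr_scaleT 53568 96299 h1) (enc_rat _ 750263697 2407475000)) (pr_cmul (enc_norm (bf3q2_3.enc h1.l h2)) (pr_norm (pr_subr 616549 38519600 (pr_scaleT 1280 96299 h1))))) (pr_add (pr_addc (pr_scaleT 1049 1884 h1) (enc_rat _ 4884211 15700000)) (pr_cmul (enc_norm (bf3q2_3.enc h1.l h2)) (pr_norm (pr_subr 3051 392500 (pr_scaleT 5 942 h1))))))) (pr_case (pr_subr 231 200 h1) (pr_case (pr_subr 107 100 h1) (pr_add (pr_addc (pr_scaleT 557 1000 h1) (enc_rat _ 1943 6250)) (pr_cmul (enc_norm (bf3q2_3.enc h1.l h2)) (pr_norm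 (pr_subr 127 10000 (pr_scaleT 1 100 h1))))) (pr_add (pr_addc (pr_scaleT 1183 2125 h1) (enc_rat _ 529031 1700000)) (pr_cmul (enc_norm (bf3q2_3.enc h1.l h2)) (pr_norm (pr_subr 1133 85000 (pr_scaleT 9 850 h1)))))) (pr_case (pr_subr 13 10 h1) (pr_add (pr_addc (pr_scaleT 2018 3625 h1) (enc_rat _ 902519 2900000)) (pr_cmul (enc_norm (bf3q2_3.enc h1.l h2)) (pr_norm (pr_subr 803 58000 (pr_scaleT 8 725 h1))))) (pr_add (pr_addc (pr_scaleT 5567 10000 h1) (enc_rat _ 389 1250)) (pr_cmul (enc_norm (bf3q2_3.enc h1.l h2)) (pr_norm (pr_subr 69 5000 (pr_scaleT 11 1000 h1)))))))))⟩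
noncomputable def kf3q2_s : Sl2 kf3q2 := ⟨_, fun h1 h2 => (pr_norm (pr_mul (cv3p_s.snd h1) (bf3q2_s.snd h1 h2)))⟩
noncomputable def bx3q2_s : Sl2 bx3q2 := ⟨_, fun h1 h2 => (pr_norm (pr_case (pr_subr 21 20 h1) (pr_case (pr_subr 2081 2048 h1) (pr_add (pr_subr 20143 33000 (pr_scaleT 69056 103125 h1)) (pr_cmul (enc_norm (bx3q2_3.enc h1.l h2)) (pr_norm (pr_csub (enc_rat _ 359 30000) (pr_scaleT 128 1875 h1))))) (pr_case (pr_subr 25779 25000 h1) (pr_add (pr_subr 2937132489 4814950000 (pr_scaleT 64448 96299 h1)) (pr_cmul (enc_norm (bx3q2_3.enc h1.l h2)) (pr_norm (pr_csub (enc_rat _ 16258749 962990000) (pr_scaleT 7040 96299 h1))))) (pr_add (pr_subr 9578203 15700000 (pr_scaleT 1261 1884 h1)) (pr_cmul (enc_norm (bx3q2_3.enc h1.l h2)) (pr_norm (pr_csub (enc_rat _ 45643 1570000) (pr_scaleT 40 471 h1))))))) (pr_case (pr_subr 231 200 h1) (pr_case (pr_subr 107 100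 h1) (pr_add (pr_subr 122053 200000 (pr_scaleT 1339 2000 h1)) (pr_cmul (enc_norm (bx3q2_3.enc h1.l h2)) (pr_norm (pr_csub (enc_rat _ 793 20000) (pr_scaleT 19 200 h1))))) (pr_add (pr_subr 32422 53125 (pr_scaleT 5691 8500 h1)) (pr_cmul (enc_norm (bx3q2_3.enc h1.l h2)) (pr_norm (pr_csub (enc_rat _ 2287 42500) (pr_scaleT 46 425 h1)))))) (pr_case (pr_subr 13 10 h1) (pr_add (pr_subr 448403 725000 (pr_scaleT 9811 14500 h1)) (pr_cmul (enc_norm (bx3q2_3.enc h1.l h2)) (pr_norm (pr_csub (enc_rat _ 13469 145000) (pr_scaleT 103 725 h1))))) (pr_add (pr_subr 101249 100000 (pr_scaleT 9797 10000 h1)) (pr_cmul (enc_norm (bx3q2_3.enc h1.l h2)) (pr_norm (pr_csub (enc_rat _ 3221 20000) (pr_scaleT 389 2000 h1)))))))))⟩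
noncomputable def l3q2_s : Sl2 l3q2 := ⟨_, fun h1 h2 => (pr_norm (pr_mul (cv3p_s.snd h1) (bx3q2_s.snd h1 h2)))⟩
noncomputable def bd3q2_s : Sl2 bd3q2 := ⟨_, fun h1 h2 => (pr_norm (pr_case (pr_subr 231 200 h1) (pr_add (pr_subr 5633001 310000 (pr_scaleT 2462 155 h1)) (pr_cmul (enc_norm (bd3q2_3.enc h1.l h2)) (pr_norm (pr_csub (enc_rat _ 3651 15500) (pr_scaleT 6 31 h1))))) (pr_add (pr_subr 4179219 230000 (pr_scaleT 9133 575 h1)) (pr_cmul (enc_norm (bd3q2_3.enc h1.l h2)) (pr_norm (pr_csub (enc_rat _ 291 1150) (pr_scaleT 24 115 h1)))))))⟩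
noncomputable def kc3q2_s : Sl2 kc3q2 := ⟨_, fun h1 h2 => (pr_norm (pr_mul (cv3p_s.snd h1) (bd3q2_s.snd h1 h2)))⟩
noncomputable def ycg_s : Sl1 ycg := ⟨_, fun h1 => (pr_sqrtg (pr_scaleT 4 3 (pr_csub (enc_pnc _ 3) (pr_sq h1))))⟩
noncomputable def xc33_s : Sl1 xc33 := ⟨_, fun h1 => (pr_norm (pr_add (pr_scaleT 1929 2000 (pr_subr 1 2 (swg_s.snd (pr_nd (ycg_s.snd h1))))) (pr_scaleT 71 2000 h1)))⟩
noncomputable def kfc33_6_s : Sl2 kfc33_6 := ⟨_, fun h1 h2 => (pr_subr 1 2 (swg_s.snd (pr_nd (ycg_s.snd h1))))⟩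
noncomputable def kfc33_9_s : Sl2 kfc33_9 := ⟨_, fun h1 h2 => (pr_add (pr_scaleT 1929 2000 (kfc33_6_s.snd h1 h2)) (pr_scaleT 71 2000 h1))⟩
noncomputable def kfc33_13_s : Sl2 kfc33_13 := ⟨_, fun h1 h2 => (pr_subr 193 100 (ycg_s.snd h1))⟩
noncomputable def kfc33_25_s : Sl2 kfc33_25 := ⟨_, fun h1 h2 => (pr_subr 39 20 (ycg_s.snd h1))⟩
noncomputable def kfc33_50_s : Sl2 kfc33_50 := ⟨_, fun h1 h2 => (pr_csub (enc_rat _ 105307799 1000000000) h1)⟩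
noncomputable def kfc33_52_s : Sl2 kfc33_52 := ⟨_, fun h1 h2 => (pr_csub (enc_rat _ 154764337 1000000000) h1)⟩
noncomputable def kfc33_75_s : Sl2 kfc33_75 := ⟨_, fun h1 h2 => (pr_csub (enc_rat _ 54765409 1000000000) h1)⟩
noncomputable def kfc33_97_s : Sl2 kfc33_97 := ⟨_, fun h1 h2 => (pr_subn 1 (ycg_s.snd h1))⟩
noncomputable def kfc33_98_s : Sl2 kfc33_98 := ⟨_, fun h1 h2 => (gsg_s.snd (pr_norm (kfc33_97_s.snd h1 h2)))⟩
noncomputable def kfc33_99_s : Sl2 kfc33_99 := ⟨_, fun h1 h2 => (pr_scaleT 3 4 (kfc33_97_s.snd h1 h2))⟩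
noncomputable def kfc33_100_s : Sl2 kfc33_100 := ⟨_, fun h1 h2 => (pr_half (kfc33_98_s.snd h1 h2))⟩
noncomputable def kfc33_102_s : Sl2 kfc33_102 := ⟨_, fun h1 h2 => (esg_s.snd (pr_norm (kfc33_97_s.snd h1 h2)))⟩
noncomputable def kfc33_103_s : Sl2 kfc33_103 := ⟨_, fun h1 h2 => (kcg_s.snd (pr_norm (pr_sub (kfc33_99_s.snd h1 h2) (kfc33_100_s.snd h1 h2))) h2)⟩
noncomputable def kfc33_105_s : Sl2 kfc33_105 := ⟨_, fun h1 h2 => (pr_subn 2 (ycg_s.snd h1))⟩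
noncomputable def kfc33_112_s : Sl2 kfc33_112 := ⟨_, fun h1 h2 => (pr_sub (pr_sub (kfc33_100_s.snd h1 h2) (kfc33_99_s.snd h1 h2)) (pr_csub (enc_rat _ 1 4) (pr_scaleT 3 8 (pr_mul (pr_norm (kfc33_97_s.snd h1 h2)) (pr_nd (pr_inv (kfc33_98_s.snd h1 h2)))))))⟩
noncomputable def kfc33_118_s : Sl2 kfc33_118 := ⟨_, fun h1 h2 => (cv2r_s.snd (pr_nd (ycg_s.snd h1)))⟩
noncomputable def kfc33_143_s : Sl2 kfc33_143 := ⟨_, fun h1 h2 => (pr_subr 49221 25000 (ycg_s.snd h1))⟩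
noncomputable def kfc33_167_s : Sl2 kfc33_167 := ⟨_, fun h1 h2 => (pr_subr 4063 2048 (ycg_s.snd h1))⟩
noncomputable def kfc33_223_s : Sl2 kfc33_223 := ⟨_, fun h1 h2 => (pr_mul (kfc33_118_s.snd h1 h2) (pr_norm (pr_case (pr_subr 987 500 (ycg_s.snd h1)) (pr_case (kfc33_25_s.snd h1 h2) (pr_case (kfc33_13_s.snd h1 h2) (pr_add (pr_csub (enc_rat _ 53542479 2150000) (pr_scaleT 136313 10750 (ycg_s.snd h1))) (pr_cmul (enc_norm (kfc33_11.enc h1.l h2)) (pr_norm (pr_csub (enc_rat _ 1216457 53750) (pr_scaleT 12933 860 (ycg_s.snd h1)))))) (pr_add (pr_csub (enc_rat _ 1245147 50000) (pr_scaleT 317 25 (ycg_s.snd h1))) (pr_cmul (enc_norm (kfc33_11.enc h1.l h2)) (pr_norm (pr_csub (enc_rat _ 452891 20000) (pr_scaleT 3009 200 (ycg_s.snd h1))))))) (pr_case (kfc33_143_s.snd h1 h2) (pr_add (pr_csub (enc_rat _ 195495229 7850000) (pr_scaleT 11945 942 (ycg_s.snd h1))) (pr_cmul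 (enc_norm (kfc33_11.enc h1.l h2)) (pr_norm (pr_csub (enc_rat _ 17796463 785000) (pr_scaleT 14185 942 (ycg_s.snd h1)))))) (pr_add (pr_csub (enc_rat _ 107084573 4300000) (pr_scaleT 2181 172 (ycg_s.snd h1))) (pr_cmul (enc_norm (kfc33_11.enc h1.l h2)) (pr_norm (pr_csub (enc_rat _ 2437043 107500) (pr_scaleT 1295 86 (ycg_s.snd h1)))))))) (pr_case (kfc33_52_s.snd h1 h2) (pr_case (kfc33_167_s.snd h1 h2) (pr_add (pr_csub (enc_rat _ 252109999 10124000) (pr_scaleT 802304 63275 (ycg_s.snd h1))) (pr_cmul (enc_norm (kfc33_11.enc h1.l h2)) (pr_norm (pr_csub (enc_rat _ 287205317 12655000) (pr_scaleT 38144 2531 (ycg_s.snd h1)))))) (pr_add (pr_subr 2976801355413 6465561500000 (pr_scaleT 12238000 12931123 h1)) (pr_cmul (enc_norm (kfc33_11.enc h1.l h2)) (pr_norm (pr_subr 1223516647599 161639037500 (pr_scaleT 21560000 12931123 h1)))))) (pr_case (kfc33_50_s.snd h1 h2) (pr_add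 (pr_subr 2277090415469 4945653800000 (pr_scaleT 23405000 24728269 h1)) (pr_cmul (enc_norm (kfc33_11.enc h1.l h2)) (pr_norm (pr_subr 3752931757577 494565380000 (pr_scaleT 44250000 24728269 h1))))) (pr_case (kfc33_75_s.snd h1 h2) (pr_add (pr_subr 1163554614833 2527119500000 (pr_scaleT 4784000 5054239 h1)) (pr_cmul (enc_norm (kfc33_11.enc h1.l h2)) (pr_norm (pr_subr 479331590139 63177987500 (pr_scaleT 8980000 5054239 h1))))) (pr_add (pr_subr 23021 50000 (pr_scaleT 51830000 54765409 h1)) (pr_cmul (enc_norm (kfc33_11.enc h1.l h2)) (pr_norm (pr_subr 75867 10000 (pr_scaleT 97000000 54765409 h1)))))))))))⟩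
noncomputable def kfc33_s : Sl2 kfc33 := ⟨_, fun h1 h2 => (pr_norm (pr_case (kfc33_143_s.snd h1 h2) (pr_mul (pr_norm (kfc33_9_s.snd h1 h2)) (pr_norm (pr_case (kfc33_13_s.snd h1 h2) (pr_add (pr_subr 5089347 2150000 (pr_scaleT 54927 43000 (ycg_s.snd h1))) (pr_cmul (enc_norm (kfc33_11.enc h1.l h2)) (pr_norm (pr_subr 3141833 430000 (pr_scaleT 4173 860 (ycg_s.snd h1)))))) (pr_case (kfc33_25_s.snd h1 h2) (pr_add (pr_subr 473477 200000 (pr_scaleT 511 400 (ycg_s.snd h1))) (pr_cmul (enc_norm (kfc33_11.enc h1.l h2)) (pr_norm (pr_subr 29247 4000 (pr_scaleT 971 200 (ycg_s.snd h1)))))) (pr_add (pr_subr 2972702737 1256000000 (pr_scaleT 240624629 188400000 (ycg_s.snd h1))) (pr_cmul (enc_norm (kfc33_11.enc h1.l h2)) (pr_norm (pr_subr 459650983 62800000 (pr_scaleT 45770491 9420000 (ycg_s.snd h1)))))))))) (pr_case (kfc33_167_s.snd h1 h2) (pr_add (kfc33_223_s.snd h1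 h2) (pr_mul (pr_norm (pr_mul (pr_norm (pr_sub (pr_wB3 (pr_mul (pr_norm (kfc33_105_s.snd h1 h2)) (pr_norm (pr_add (pr_mul (pr_norm (kfc33_112_s.snd h1 h2)) (pr_nd (pr_inv (kfc33_102_s.snd h1 h2)))) (kfc33_103_s.snd h1 h2)))) (kfc33_97_s.snd h1 h2) (kfc33_98_s.snd h1 h2) (kfc33_102_s.snd h1 h2) (kfc33_105_s.snd h1 h2) (kfc33_112_s.snd h1 h2) (kfc33_103_s.snd h1 h2) (ycg_s.snd h1) rfl rfl rfl rfl rfl rfl rfl rfl rfl rfl) (kfc33_223_s.snd h1 h2))) (pr_norm (pr_sub (kfc33_9_s.snd h1 h2) (kfc33_118_s.snd h1 h2))))) (pr_nd (pr_inv (pr_sub (kfc33_6_s.snd h1 h2) (kfc33_118_s.snd h1 h2)))))) (pr_mul (pr_norm (kfc33_9_s.snd h1 h2)) (pr_norm (pr_case (kfc33_50_s.snd h1 h2) (pr_case (kfc33_52_s.snd h1 h2) (pr_add (pr_subr 34645065492759301 20204879687500000 (pr_scaleT 2785924768 323278075 h1)) (pr_cmul (enc_norm (kfc33_11.enc h1.l h2)) (pr_norm (pr_subr 53663288889605869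 64655615000000000 (pr_scaleT 1785034237 64655615 h1))))) (pr_add (pr_csub (enc_rat _ 1224627853907 2472826900000) (pr_scaleT 140000000 24728269 h1)) (pr_cmul (enc_norm (kfc33_11.enc h1.l h2)) (pr_norm (pr_subr 446669057 30910336250 (pr_scaleT 552400000 24728269 h1)))))) (pr_case (kfc33_75_s.snd h1 h2) (pr_add (pr_csub (enc_rat _ 2526855719129 5054239000000) (pr_scaleT 28841000 5054239 h1)) (pr_cmul (enc_norm (kfc33_11.enc h1.l h2)) (pr_norm (pr_subr 1030812369 505423900000 (pr_scaleT 112310000 5054239 h1))))) (pr_add (pr_csub (enc_rat _ 1 2) (pr_scaleT 312560000 54765409 h1)) (pr_cmul (enc_norm (kfc33_11.enc h1.l h2)) (pr_nd (pr_scaleT 1214900000 54765409 h1)))))))))))⟩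
noncomputable def lc33_6_s : Sl2 lc33_6 := ⟨_, fun h1 h2 => (pr_subr 1 2 (swg_s.snd (pr_nd (ycg_s.snd h1))))⟩
noncomputable def lc33_9_s : Sl2 lc33_9 := ⟨_, fun h1 h2 => (pr_add (pr_scaleT 1929 2000 (lc33_6_s.snd h1 h2)) (pr_scaleT 71 2000 h1))⟩
noncomputable def lc33_13_s : Sl2 lc33_13 := ⟨_, fun h1 h2 => (pr_subr 193 100 (ycg_s.snd h1))⟩
noncomputable def lc33_25_s : Sl2 lc33_25 := ⟨_, fun h1 h2 => (pr_subr 39 20 (ycg_s.snd h1))⟩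
noncomputable def lc33_57_s : Sl2 lc33_57 := ⟨_, fun h1 h2 => (pr_csub (enc_rat _ 105307799 1000000000) h1)⟩
noncomputable def lc33_59_s : Sl2 lc33_59 := ⟨_, fun h1 h2 => (pr_csub (enc_rat _ 154764337 1000000000) h1)⟩
noncomputable def lc33_87_s : Sl2 lc33_87 := ⟨_, fun h1 h2 => (pr_csub (enc_rat _ 54765409 1000000000) h1)⟩
noncomputable def lc33_110_s : Sl2 lc33_110 := ⟨_, fun h1 h2 => (pr_subn 1 (ycg_s.snd h1))⟩
noncomputable def lc33_123_s : Sl2 lc33_123 := ⟨_, fun h1 h2 => (cv2r_s.snd (pr_nd (ycg_s.snd h1)))⟩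
noncomputable def lc33_148_s : Sl2 lc33_148 := ⟨_, fun h1 h2 => (pr_subr 49221 25000 (ycg_s.snd h1))⟩
noncomputable def lc33_172_s : Sl2 lc33_172 := ⟨_, fun h1 h2 => (pr_subr 4063 2048 (ycg_s.snd h1))⟩
noncomputable def lc33_224_s : Sl2 lc33_224 := ⟨_, fun h1 h2 => (pr_mul (lc33_123_s.snd h1 h2) (pr_norm (pr_case (pr_subr 987 500 (ycg_s.snd h1)) (pr_case (lc33_25_s.snd h1 h2) (pr_case (lc33_13_s.snd h1 h2) (pr_add (pr_subr 3383113 2150000 (pr_scaleT 6836 5375 (ycg_s.snd h1))) (pr_cmul (enc_norm (lc33_11.enc h1.l h2)) (pr_norm (pr_subr 340851 430000 (pr_scaleT 3417 4300 (ycg_s.snd h1)))))) (pr_add (pr_subr 15739 10000 (pr_scaleT 159 125 (ycg_s.snd h1))) (pr_cmul (enc_norm (lc33_11.enc h1.l h2)) (pr_norm (pr_subr 16253 20000 (pr_scaleT 161 200 (ycg_s.snd h1))))))) (pr_case (lc33_148_s.snd h1 h2) (pr_add (pr_subr 494059 314000 (pr_scaleT 599 471 (ycg_s.snd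 h1))) (pr_cmul (enc_norm (lc33_11.enc h1.l h2)) (pr_norm (pr_subr 1313853 1570000 (pr_scaleT 385 471 (ycg_s.snd h1)))))) (pr_add (pr_subr 3381007 2150000 (pr_scaleT 164 129 (ycg_s.snd h1))) (pr_cmul (enc_norm (lc33_11.enc h1.l h2)) (pr_norm (pr_subr 356919 430000 (pr_scaleT 35 43 (ycg_s.snd h1)))))))) (pr_case (lc33_59_s.snd h1 h2) (pr_case (lc33_172_s.snd h1 h2) (pr_add (pr_subr 198776151 126550000 (pr_scaleT 80384 63275 (ycg_s.snd h1))) (pr_cmul (enc_norm (lc33_11.enc h1.l h2)) (pr_norm (pr_subr 21779931 25310000 (pr_scaleT 10496 12655 (ycg_s.snd h1)))))) (pr_add (pr_addc (pr_scaleT 2350000 12931123 h1) (enc_rat _ 588174944557 646556150000)) (pr_cmul (enc_norm (lc33_11.enc h1.l h2)) (pr_norm (pr_subr 185504912789 129311230000 (pr_scaleT 130800000 12931123 h1)))))) (pr_case (lc33_57_s.snd h1 h2) (pr_add (pr_addc (pr_scaleT 4470000 24728269 h1) (enc_rat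 _ 562477898247 618206725000)) (pr_cmul (enc_norm (lc33_11.enc h1.l h2)) (pr_norm (pr_subr 142776154241 98913076000 (pr_scaleT 251550000 24728269 h1))))) (pr_case (lc33_87_s.snd h1 h2) (pr_add (pr_addc (pr_scaleT 244000 5054239 h1) (enc_rat _ 2334568480877 2527119500000)) (pr_cmul (enc_norm (lc33_11.enc h1.l h2)) (pr_norm (pr_subr 728663707847 505423900000 (pr_scaleT 51330000 5054239 h1))))) (pr_add (pr_addc (pr_scaleT 2650000 54765409 h1) (enc_rat _ 4619 5000)) (pr_cmul (enc_norm (lc33_11.enc h1.l h2)) (pr_norm (pr_subr 2883 2000 (pr_scaleT 556000000 54765409 h1)))))))))))⟩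
noncomputable def lc33_s : Sl2 lc33 := ⟨_, fun h1 h2 => (pr_norm (pr_case (lc33_148_s.snd h1 h2) (pr_mul (pr_norm (lc33_9_s.snd h1 h2)) (pr_norm (pr_case (lc33_13_s.snd h1 h2) (pr_add (pr_subr 2178721 2150000 (pr_scaleT 5269 5375 (ycg_s.snd h1))) (pr_cmul (enc_norm (lc33_11.enc h1.l h2)) (pr_norm (pr_csub (enc_rat _ 105949 430000) (pr_scaleT 1081 4300 (ycg_s.snd h1)))))) (pr_case (lc33_25_s.snd h1 h2) (pr_add (pr_subr 202757 200000 (pr_scaleT 1961 2000 (ycg_s.snd h1))) (pr_cmul (enc_norm (lc33_11.enc h1.l h2)) (pr_norm (pr_csub (enc_rat _ 5067 20000) (pr_scaleT 51 200 (ycg_s.snd h1)))))) (pr_add (pr_add (pr_subr 318129369 314000000 (pr_scaleT 46166233 47100000 (ycg_s.snd h1))) (pr_cmul (enc_norm (lc33_11.enc h1.l h2)) (pr_norm (pr_subr 25649081617 125600000 (pr_scaleT 1970649829 18840000 (ycg_s.snd h1)))))) (pr_cmul (lc33_50.enc h1.l h2) (pr_norm (pr_subr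 4823 125600 (pr_scaleT 371 18840 (ycg_s.snd h1)))))))))) (pr_case (lc33_172_s.snd h1 h2) (pr_add (lc33_224_s.snd h1 h2) (pr_mul (pr_norm (pr_mul (pr_norm (pr_sub (pr_sub (qsg_s.snd (pr_norm (lc33_110_s.snd h1 h2))) (pr_mul (pr_norm (pr_nat 2 (pr_subc (lc33_110_s.snd h1 h2) h2))) (pr_norm (pr_mul (esg_s.snd (pr_norm (lc33_110_s.snd h1 h2))) (kcg_s.snd (pr_norm (pr_sub (pr_scaleT 3 4 (lc33_110_s.snd h1 h2)) (pr_half (gsg_s.snd (pr_norm (lc33_110_s.snd h1 h2)))))) h2))))) (lc33_224_s.snd h1 h2))) (pr_norm (pr_sub (lc33_9_s.snd h1 h2) (lc33_123_s.snd h1 h2))))) (pr_nd (pr_inv (pr_sub (lc33_6_s.snd h1 h2) (lc33_123_s.snd h1 h2)))))) (pr_mul (pr_norm (lc33_9_s.snd h1 h2)) (pr_norm (pr_case (lc33_57_s.snd h1 h2) (pr_case (lc33_59_s.snd h1 h2) (pr_add (pr_add (pr_csub (enc_rat _ 12400398984182169 12931123000000000) (pr_scaleT 1644137 12931123 h1)) (pr_cmul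 (enc_norm (lc33_11.enc h1.l h2)) (pr_norm (pr_csub (enc_rat _ 120966690521436653 16163903750000000) (pr_scaleT 1566361076 64655615 h1))))) (pr_cmul (lc33_50.enc h1.l h2) (pr_norm (pr_csub (enc_rat _ 639011268733747 64655615000000) (pr_scaleT 825786200 12931123 h1))))) (pr_add (pr_addc (pr_scaleT 6585000 24728269 h1) (enc_rat _ 888305813887 989130760000)) (pr_cmul (enc_norm (lc33_11.enc h1.l h2)) (pr_norm (pr_subr 679622846453 494565380000 (pr_scaleT 816250000 24728269 h1)))))) (pr_case (lc33_87_s.snd h1 h2) (pr_add (pr_addc (pr_scaleT 1173000 5054239 h1) (enc_rat _ 4557255232063 5054239000000)) (pr_cmul (enc_norm (lc33_11.enc h1.l h2)) (pr_norm (pr_subr 139363257377 101084780000 (pr_scaleT 167050000 5054239 h1))))) (pr_add (pr_addc (pr_scaleT 17160000 54765409 h1) (enc_rat _ 44861 50000)) (pr_cmul (enc_norm (lc33_11.enc h1.l h2)) (pr_norm (pr_csub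 (enc_rat _ 26767 10000) (pr_scaleT 2245300000 54765409 h1))))))))))))⟩
noncomputable def kcc33_6_s : Sl2 kcc33_6 := ⟨_, fun h1 h2 => (pr_subr 1 2 (swg_s.snd (pr_nd (ycg_s.snd h1))))⟩
noncomputable def kcc33_9_s : Sl2 kcc33_9 := ⟨_, fun h1 h2 => (pr_add (pr_scaleT 1929 2000 (kcc33_6_s.snd h1 h2)) (pr_scaleT 71 2000 h1))⟩
noncomputable def kcc33_33_s : Sl2 kcc33_33 := ⟨_, fun h1 h2 => (pr_subn 1 (ycg_s.snd h1))⟩
noncomputable def kcc33_34_s : Sl2 kcc33_34 := ⟨_, fun h1 h2 => (gsg_s.snd (pr_norm (kcc33_33_s.snd h1 h2)))⟩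
noncomputable def kcc33_38_s : Sl2 kcc33_38 := ⟨_, fun h1 h2 => (esg_s.snd (pr_norm (kcc33_33_s.snd h1 h2)))⟩
noncomputable def kcc33_43_s : Sl2 kcc33_43 := ⟨_, fun h1 h2 => (gug_s.snd (pr_norm (kcc33_33_s.snd h1 h2)))⟩
noncomputable def kcc33_45_s : Sl2 kcc33_45 := ⟨_, fun h1 h2 => (pr_mul (pr_norm (kcc33_33_s.snd h1 h2)) (pr_nd (pr_inv (kcc33_34_s.snd h1 h2))))⟩
noncomputable def kcc33_46_s : Sl2 kcc33_46 := ⟨_, fun h1 h2 => (pr_scaleT 3 4 (kcc33_45_s.snd h1 h2))⟩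
noncomputable def kcc33_72_s : Sl2 kcc33_72 := ⟨_, fun h1 h2 => (cv2r_s.snd (pr_nd (ycg_s.snd h1)))⟩
noncomputable def kcc33_76_s : Sl2 kcc33_76 := ⟨_, fun h1 h2 => (pr_subr 49221 25000 (ycg_s.snd h1))⟩
noncomputable def kcc33_99_s : Sl2 kcc33_99 := ⟨_, fun h1 h2 => (pr_subr 4063 2048 (ycg_s.snd h1))⟩
noncomputable def kcc33_121_s : Sl2 kcc33_121 := ⟨_, fun h1 h2 => (pr_mul (kcc33_72_s.snd h1 h2) (pr_norm (pr_case (pr_subr 197 100 (ycg_s.snd h1)) (pr_case (kcc33_76_s.snd h1 h2) (pr_add (pr_subr 2034530503 39070000 (pr_scaleT 610360 11721 (ycg_s.snd h1))) (pr_cmul (enc_norm (kcc33_11.enc h1.l h2)) (pr_norm (pr_subr 1917893 1953500 (pr_scaleT 9250 11721 (ycg_s.snd h1)))))) (pr_add (pr_subr 15098549 290000 (pr_scaleT 1510 29 (ycg_s.snd h1))) (pr_cmul (enc_norm (kcc33_11.enc h1.l h2)) (pr_norm (pr_subr 32633 29000 (pr_scaleT 25 29 (ycg_s.snd h1)))))))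 (pr_case (kcc33_99_s.snd h1 h2) (pr_add (pr_subr 14808319 284400 (pr_scaleT 925568 17775 (ycg_s.snd h1))) (pr_cmul (enc_norm (kcc33_11.enc h1.l h2)) (pr_norm (pr_subr 702101 711000 (pr_scaleT 2816 3555 (ycg_s.snd h1)))))) (pr_add (pr_addc (pr_scaleT 2895700000 13713747 h1) (enc_rat _ 24519 5000)) (pr_cmul (enc_norm (kcc33_11.enc h1.l h2)) (pr_norm (pr_subr 43 200 (pr_scaleT 2937500 806691 h1)))))))))⟩
noncomputable def kcc33_s : Sl2 kcc33 := ⟨_, fun h1 h2 => (pr_norm (pr_case (kcc33_76_s.snd h1 h2) (pr_mul (pr_norm (kcc33_9_s.snd h1 h2)) (pr_norm (pr_add (pr_subr 56794894573 3125600000 (pr_scaleT 74469224893 4688400000 (ycg_s.snd h1))) (pr_cmul (enc_norm (kcc33_11.enc h1.l h2)) (pr_norm (pr_csub (enc_rat _ 115256383 312560000) (pr_scaleT 134009983 468840000 (ycg_s.snd h1)))))))) (pr_case (kcc33_99_s.snd h1 h2) (pr_add (kcc33_121_s.snd h1 h2) (pr_mul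 (pr_norm (pr_mul (pr_norm (pr_sub (pr_add (pr_sub (pr_add (pr_cadd (enc_rat _ 3 4) (pr_scaleT 3 2 (kcc33_33_s.snd h1 h2))) (pr_scaleT 3 4 (pr_mul (pr_norm (kcc33_45_s.snd h1 h2)) (kcc33_43_s.snd h1 h2)))) (pr_wT (pr_mul (pr_norm (pr_sub (pr_mul (pr_norm (pr_mul (pr_norm (kcc33_46_s.snd h1 h2)) (pr_norm (pr_subn 3 (pr_nat 4 (kcc33_34_s.snd h1 h2)))))) (kcc33_38_s.snd h1 h2)) (pr_mul (qsg_s.snd (pr_norm (kcc33_33_s.snd h1 h2))) (pr_norm (pr_csub (enc_rat _ 1 2) (kcc33_46_s.snd h1 h2)))))) (pr_nd (pr_inv (pr_mul (pr_nd (pr_nat 2 (kcc33_38_s.snd h1 h2))) (kcc33_38_s.snd h1 h2))))) (kcc33_33_s.snd h1 h2) (kcc33_34_s.snd h1 h2) (kcc33_38_s.snd h1 h2) rfl rfl rfl rfl rfl rfl rfl rfl)) (pr_mul (kcg_s.snd (pr_norm (pr_sub (pr_scaleT 3 4 (kcc33_33_s.snd h1 h2)) (pr_half (kcc33_34_s.snd h1 h2)))) h2) (pr_norm (pr_csub (enc_pnc _ 1) (pr_add (kcc33_43_s.snd h1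 h2) (pr_nat 2 (kcc33_34_s.snd h1 h2))))))) (kcc33_121_s.snd h1 h2))) (pr_norm (pr_sub (kcc33_9_s.snd h1 h2) (kcc33_72_s.snd h1 h2))))) (pr_nd (pr_inv (pr_sub (kcc33_6_s.snd h1 h2) (kcc33_72_s.snd h1 h2)))))) (pr_mul (pr_norm (kcc33_9_s.snd h1 h2)) (pr_norm (pr_add (pr_addc (pr_scaleT 34039364361413 366431319840 h1) (enc_rat _ 35373 3340)) (pr_cmul (enc_norm (kcc33_11.enc h1.l h2)) (pr_norm (pr_addc (pr_scaleT 32959340000717 36643131984 h1) (enc_rat _ 638 167))))))))))⟩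
noncomputable def cv4m_s : Sl1 cv4m := ⟨_, fun h1 => (pr_norm (pr_add (pr_scaleT 17 20 (pr_addc (swg_s.snd h1) (enc_rat _ 1 2))) (pr_scaleT 3 20 (c3g_s.snd h1))))⟩
noncomputable def bf4q0_36_s : Sl2 bf4q0_36 := ⟨_, fun h1 h2 => (pr_scaleT 1 15 h1)⟩
noncomputable def bf4q0_s : Sl2 bf4q0 := ⟨_, fun h1 h2 => (pr_norm (pr_case (pr_subr 779 25000 h1) (pr_case (pr_subr 27 2000 h1) (pr_case (pr_subr 1 200 h1) (pr_add (pr_csub (enc_rat _ 38389 50000) (pr_scaleT 1013 250 h1)) (pr_cmul (enc_norm (bf4q0_3.enc h1.l h2)) (pr_norm (pr_subr 27 1250 (pr_scaleT 3 50 h1))))) (pr_case (pr_subr 21 2000 h1) (pr_add (pr_csub (enc_rat _ 105569 137500) (pr_scaleT 1114 275 h1)) (pr_cmul (enc_norm (bf4q0_3.enc h1.l h2)) (pr_norm (pr_subr 2383 110000 (pr_scaleT 4 55 h1))))) (pr_add (pr_csub (enc_rat _ 3839 5000) (pr_scaleT 304 75 h1)) (pr_cmul (enc_norm (bf4q0_3.enc h1.l h2))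 (pr_norm (pr_subr 27 1250 (bf4q0_36_s.snd h1 h2))))))) (pr_case (pr_subr 33 2048 h1) (pr_add (pr_csub (enc_rat _ 34241 44600) (pr_scaleT 67712 16725 h1)) (pr_cmul (enc_norm (bf4q0_3.enc h1.l h2)) (pr_norm (pr_subr 9693 446000 (pr_scaleT 256 3345 h1))))) (pr_case (pr_subr 1 40 h1) (pr_add (pr_csub (enc_rat _ 107491 140000) (pr_scaleT 17728 4375 h1)) (pr_cmul (enc_norm (bf4q0_3.enc h1.l h2)) (pr_norm (pr_subr 283 13000 (pr_scaleT 128 1625 h1))))) (pr_add (pr_csub (enc_rat _ 11823321 15400000) (pr_scaleT 2495 616 h1)) (pr_cmul (enc_norm (bf4q0_3.enc h1.l h2)) (pr_norm (pr_subr 1031 48125 (pr_scaleT 5 77 h1)))))))) (pr_case (pr_subr 1 10 h1) (pr_case (pr_subr 1 20 h1) (pr_add (pr_csub (enc_rat _ 36162641 47100000) (pr_scaleT 7633 1884 h1)) (pr_cmul (enc_norm (bf4q0_3.enc h1.l h2)) (pr_norm (pr_subr 101501 4710000 (pr_scaleT 65 942 h1))))) (pr_case (pr_subr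 7 100 h1) (pr_add (pr_csub (enc_rat _ 153557 200000) (pr_scaleT 8103 2000 h1)) (pr_cmul (enc_norm (bf4q0_3.enc h1.l h2)) (pr_norm (pr_subr 27 1250 (pr_scaleT 7 100 h1))))) (pr_add (pr_csub (enc_rat _ 57583 75000) (pr_scaleT 6077 1500 h1)) (pr_cmul (enc_norm (bf4q0_3.enc h1.l h2)) (pr_norm (pr_subr 641 30000 (bf4q0_36_s.snd h1 h2))))))) (pr_case (pr_subr 11 50 h1) (pr_case (pr_subr 3 20 h1) (pr_add (pr_csub (enc_rat _ 3839 5000) (pr_scaleT 10129 2500 h1)) (pr_cmul (enc_norm (bf4q0_3.enc h1.l h2)) (pr_norm (pr_subr 213 10000 (pr_scaleT 33 500 h1))))) (pr_add (pr_csub (enc_rat _ 268721 350000) (pr_scaleT 709 175 h1)) (pr_cmul (enc_norm (bf4q0_3.enc h1.l h2)) (pr_norm (pr_subr 1473 70000 (pr_scaleT 9 140 h1)))))) (pr_case (pr_subr 33 100 h1) (pr_add (pr_csub (enc_rat _ 9597 12500) (pr_scaleT 8913 2200 h1)) (pr_cmul (enc_norm (bf4q0_3.enc h1.l h2)) (pr_norm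 (pr_subr 209 10000 (pr_scaleT 7 110 h1))))) (pr_add (pr_csub (enc_rat _ 326313 425000) (pr_scaleT 551 136 h1)) (pr_cmul (enc_norm (bf4q0_3.enc h1.l h2)) (pr_norm (pr_subr 3547 170000 (pr_scaleT 27 425 h1))))))))))⟩
noncomputable def kf4q0_s : Sl2 kf4q0 := ⟨_, fun h1 h2 => (pr_norm (pr_mul (cv4m_s.snd h1) (bf4q0_s.snd h1 h2)))⟩
noncomputable def bx4q0_10_s : Sl2 bx4q0_10 := ⟨_, fun h1 h2 => (pr_scaleT 9 50 h1)⟩
noncomputable def bx4q0_96_s : Sl2 bx4q0_96 := ⟨_, fun h1 h2 => (pr_cmul (enc_norm (bx4q0_3.enc h1.l h2)) (pr_norm (pr_csub (enc_rat _ 353 5000) (pr_scaleT 3 50 h1))))⟩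
noncomputable def bx4q0_s : Sl2 bx4q0 := ⟨_, fun h1 h2 => (pr_norm (pr_case (pr_subr 779 25000 h1) (pr_case (pr_subr 27 2000 h1) (pr_case (pr_subr 1 200 h1) (pr_add (pr_addc (bx4q0_10_s.snd h1 h2) (enc_rat _ 1897 20000)) (pr_cmul (enc_norm (bx4q0_3.enc h1.l h2)) (pr_norm (pr_csub (enc_rat _ 701 10000) (pr_scaleT 1 50 h1))))) (pr_case (pr_subr 21 2000 h1) (pr_add (pr_addc (pr_scaleT 2 11 h1) (enc_rat _ 4173 44000)) (pr_cmul (enc_norm (bx4q0_3.enc h1.l h2)) (pr_norm (pr_csub (enc_rat _ 193 2750) (pr_scaleT 2 55 h1))))) (pr_add (pr_addc (bx4q0_10_s.snd h1 h2) (enc_rat _ 4743 50000)) (pr_cmul (enc_norm (bx4q0_3.enc h1.l h2)) (pr_norm (pr_csub (enc_rat _ 1403 20000) (pr_scaleT 1 30 h1))))))) (pr_case (pr_subr 33 2048 h1) (pr_add (pr_addc (pr_scaleT 3008 16725 h1) (enc_rat _ 2115423 22300000)) (pr_cmul (enc_norm (bx4q0_3.enc h1.l h2)) (pr_norm (pr_csub (enc_rat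 _ 31547 446000) (pr_scaleT 256 3345 h1))))) (pr_case (pr_subr 1 40 h1) (pr_add (pr_addc (pr_scaleT 1472 8125 h1) (enc_rat _ 123293 1300000)) (pr_cmul (enc_norm (bx4q0_3.enc h1.l h2)) (pr_norm (pr_csub (enc_rat _ 12781 182000) (pr_scaleT 512 11375 h1))))) (pr_add (pr_addc (pr_scaleT 111 616 h1) (enc_rat _ 1460923 15400000)) (pr_cmul (enc_norm (bx4q0_3.enc h1.l h2)) (pr_norm (pr_csub (enc_rat _ 54457 770000) (pr_scaleT 5 77 h1)))))))) (pr_case (pr_subr 1 10 h1) (pr_case (pr_subr 1 20 h1) (pr_add (pr_addc (pr_scaleT 341 1884 h1) (enc_rat _ 4466969 47100000)) (pr_cmul (enc_norm (bx4q0_3.enc h1.l h2)) (pr_norm (pr_csub (enc_rat _ 166073 2355000) (pr_scaleT 55 942 h1))))) (pr_case (pr_subr 7 100 h1) (pr_add (pr_addc (pr_scaleT 181 1000 h1) (enc_rat _ 2371 25000)) (bx4q0_96_s.snd h1 h2)) (pr_add (pr_addc (pr_scaleT 271 1500 h1) (enc_rat _ 28459 300000)) (bx4q0_96_s.snd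 h1 h2)))) (pr_case (pr_subr 11 50 h1) (pr_case (pr_subr 3 20 h1) (pr_add (pr_addc (pr_scaleT 899 5000 h1) (enc_rat _ 1899 20000)) (pr_cmul (enc_norm (bx4q0_3.enc h1.l h2)) (pr_norm (pr_csub (enc_rat _ 89 1250) (pr_scaleT 33 500 h1))))) (pr_add (pr_addc (pr_scaleT 117 700 h1) (enc_rat _ 33897 350000)) (pr_cmul (enc_norm (bx4q0_3.enc h1.l h2)) (pr_norm (pr_csub (enc_rat _ 316 4375) (pr_scaleT 51 700 h1)))))) (pr_case (pr_subr 33 100 h1) (pr_add (pr_addc (pr_scaleT 1449 11000 h1) (enc_rat _ 327 3125)) (pr_cmul (enc_norm (bx4q0_3.enc h1.l h2)) (pr_norm (pr_csub (enc_rat _ 91 1250) (pr_scaleT 83 1100 h1))))) (pr_add (pr_csub (enc_rat _ 375009 1700000) (pr_scaleT 1867 8500 h1)) (pr_cmul (enc_norm (bx4q0_3.enc h1.l h2)) (pr_norm (pr_csub (enc_rat _ 12301 170000) (pr_scaleT 63 850 h1))))))))))⟩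
noncomputable def l4q0_s : Sl2 l4q0 := ⟨_, fun h1 h2 => (pr_norm (pr_mul (cv4m_s.snd h1) (bx4q0_s.snd h1 h2)))⟩
noncomputable def bd4q0_s : Sl2 bd4q0 := ⟨_, fun h1 h2 => (pr_norm (pr_case (pr_subr 33 2048 h1) (pr_case (pr_subr 1 100 h1) (pr_csub (enc_rat _ 22199 10000) (pr_scaleT 111 50 h1)) (pr_csub (enc_rat _ 6948433 3130000) (pr_scaleT 17408 7825 h1))) (pr_case (pr_subr 2613 100000 h1) (pr_csub (enc_rat _ 158117193 71230000) (pr_scaleT 47360 21369 h1)) (pr_case (pr_subr 779 25000 h1) (pr_csub (enc_rat _ 11167013 5030000) (pr_scaleT 1120 503 h1)) (pr_csub (enc_rat _ 433651 195350) (pr_scaleT 17345 7814 h1))))))⟩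
noncomputable def kc4q0_s : Sl2 kc4q0 := ⟨_, fun h1 h2 => (pr_norm (pr_mul (cv4m_s.snd h1) (bd4q0_s.snd h1 h2)))⟩
noncomputable def bf4q1_s : Sl2 bf4q1 := ⟨_, fun h1 h2 => (pr_norm (pr_case (pr_subr 7 8 h1) (pr_add (pr_subr 4381 60000 (pr_scaleT 20119 18750 h1)) (pr_cmul (enc_norm (enc_subr 9743 10000 h2)) (pr_norm (pr_csub (enc_rat _ 7 30000) (pr_scaleT 1 3750 h1))))) (pr_subr 913 12500 (pr_scaleT 13413 12500 h1))))⟩
noncomputable def kf4q1_s : Sl2 kf4q1 := ⟨_, fun h1 h2 => (pr_norm (pr_mul (cv4m_s.snd h1) (bf4q1_s.snd h1 h2)))⟩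
noncomputable def bx4q1_s : Sl2 bx4q1 := ⟨_, fun h1 h2 => (pr_norm (pr_case (pr_subr 7 8 h1) (pr_add (pr_csub (enc_rat _ 22153 100000) (pr_scaleT 2769 12500 h1)) (pr_cmul (enc_norm (bx4q1_3.enc h1.l h2)) (pr_norm (pr_csub (enc_rat _ 2119 30000) (pr_scaleT 53 750 h1))))) (pr_add (pr_csub (enc_rat _ 277 1250) (pr_scaleT 277 1250 h1)) (pr_cmul (enc_norm (bx4q1_3.enc h1.l h2)) (pr_norm (pr_csub (enc_rat _ 44 625) (pr_scaleT 44 625 h1)))))))⟩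
noncomputable def l4q1_s : Sl2 l4q1 := ⟨_, fun h1 h2 => (pr_norm (pr_mul (cv4m_s.snd h1) (bx4q1_s.snd h1 h2)))⟩
noncomputable def bd4q1_s : Sl2 bd4q1 := ⟨_, fun h1 h2 => (pr_norm (pr_csub (enc_rat _ 111 50) (pr_scaleT 111 50 h1)))⟩
noncomputable def kc4q1_s : Sl2 kc4q1 := ⟨_, fun h1 h2 => (pr_norm (pr_mul (cv4m_s.snd h1) (bd4q1_s.snd h1 h2)))⟩
noncomputable def cv4p_s : Sl1 cv4p := ⟨_, fun h1 => (pr_norm (pr_add (pr_scaleT 17 20 (pr_subr 1 2 (swg_s.snd h1))) (pr_scaleT 3 20 (c3g_s.snd h1))))⟩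
noncomputable def bf4q2_s : Sl2 bf4q2 := ⟨_, fun h1 h2 => (pr_norm (pr_case (pr_subr 21 20 h1) (pr_case (pr_subr 2081 2048 h1) (pr_subc (pr_subr 1260217 825000 (pr_scaleT 259328 103125 h1)) (enc_scaleT 1 10000 (bf4q2_3.enc h1.l h2))) (pr_case (pr_subr 25779 25000 h1) (pr_add (pr_subr 14704866243 9629900000 (pr_scaleT 242112 96299 h1)) (pr_cmul (enc_norm (bf4q2_3.enc h1.l h2)) (pr_norm (pr_subr 412464 60186875 (pr_scaleT 640 96299 h1))))) (pr_add (pr_subr 23985127 15700000 (pr_scaleT 2369 942 h1)) (pr_cmul (enc_norm (bf4q2_3.enc h1.l h2)) (pr_norm (pr_subr 8593 1570000 (pr_scaleT 5 942 h1))))))) (pr_case (pr_subr 231 200 h1) (pr_case (pr_subr 107 100 h1) (pr_add (pr_subr 305467 200000 (pr_scaleT 5029 2000 h1)) (pr_cmul (enc_norm (bf4q2_3.enc h1.l h2)) (pr_norm (pr_subr 103 20000 (pr_scaleT 1 200 h1))))) (pr_add (pr_subr 81138 53125 (pr_scaleT 21373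 8500 h1)) (pr_cmul (enc_norm (bf4q2_3.enc h1.l h2)) (pr_norm (pr_subr 411 85000 (pr_scaleT 2 425 h1)))))) (pr_case (pr_subr 13 10 h1) (pr_add (pr_subr 4429221 2900000 (pr_scaleT 1823 725 h1)) (pr_cmul (enc_norm (bf4q2_3.enc h1.l h2)) (pr_norm (pr_subr 267 36250 (pr_scaleT 1 145 h1))))) (pr_add (pr_subr 61091 40000 (pr_scaleT 50289 20000 h1)) (pr_cmul (enc_norm (bf4q2_3.enc h1.l h2)) (pr_norm (pr_subr 3 400 (pr_scaleT 7 1000 h1)))))))))⟩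
noncomputable def kf4q2_s : Sl2 kf4q2 := ⟨_, fun h1 h2 => (pr_norm (pr_mul (cv4p_s.snd h1) (bf4q2_s.snd h1 h2)))⟩
noncomputable def bx4q2_s : Sl2 bx4q2 := ⟨_, fun h1 h2 => (pr_norm (pr_case (pr_subr 21 20 h1) (pr_case (pr_subr 2081 2048 h1) (pr_add (pr_subr 107803 165000 (pr_scaleT 75136 103125 h1)) (pr_cmul (enc_norm (bx4q2_3.enc h1.l h2)) (pr_norm (pr_subr 849181 330000 (pr_scaleT 50176 20625 h1))))) (pr_case (pr_subr 25779 25000 h1) (pr_add (pr_subr 6296319423 9629900000 (pr_scaleT 70208 96299 h1)) (pr_cmul (enc_norm (bx4q2_3.enc h1.l h2)) (pr_norm (pr_subr 308898939 120373750 (pr_scaleT 233600 96299 h1))))) (pr_add (pr_subr 10268967 15700000 (pr_scaleT 229 314 h1)) (pr_cmul (enc_norm (bx4q2_3.enc h1.l h2)) (pr_norm (pr_subr 251259 98125 (pr_scaleT 380 157 h1))))))) (pr_case (pr_subr 231 200 h1) (pr_case (pr_subr 107 100 h1) (pr_add (pr_subr 2043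 3125 (pr_scaleT 729 1000 h1)) (pr_cmul (enc_norm (bx4q2_3.enc h1.l h2)) (pr_norm (pr_subr 51099 20000 (pr_scaleT 483 200 h1))))) (pr_add (pr_subr 1111927 1700000 (pr_scaleT 6199 8500 h1)) (pr_cmul (enc_norm (bx4q2_3.enc h1.l h2)) (pr_norm (pr_subr 86237 34000 (pr_scaleT 1019 425 h1)))))) (pr_case (pr_subr 13 10 h1) (pr_add (pr_subr 1899643 2900000 (pr_scaleT 10587 14500 h1)) (pr_cmul (enc_norm (bx4q2_3.enc h1.l h2)) (pr_norm (pr_subr 732181 290000 (pr_scaleT 1731 725 h1))))) (pr_add (pr_subr 26473 40000 (pr_scaleT 14707 20000 h1)) (pr_cmul (enc_norm (bx4q2_3.enc h1.l h2)) (pr_norm (pr_subr 25253 10000 (pr_scaleT 597 250 h1)))))))))⟩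
noncomputable def l4q2_s : Sl2 l4q2 := ⟨_, fun h1 h2 => (pr_norm (pr_mul (cv4p_s.snd h1) (bx4q2_s.snd h1 h2)))⟩
noncomputable def bd4q2_s : Sl2 bd4q2 := ⟨_, fun h1 h2 => (pr_norm (pr_case (pr_subr 231 200 h1) (pr_add (pr_subr 22311401 310000 (pr_scaleT 74129 1550 h1)) (pr_cmul (enc_norm (bd4q2_3.enc h1.l h2)) (pr_norm (pr_subr 131 7750 (pr_scaleT 2 155 h1))))) (pr_add (pr_subr 3310727 46000 (pr_scaleT 54999 1150 h1)) (pr_cmul (enc_norm (bd4q2_3.enc h1.l h2)) (pr_norm (pr_subr 277 23000 (pr_scaleT 1 115 h1)))))))⟩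
noncomputable def kc4q2_s : Sl2 kc4q2 := ⟨_, fun h1 h2 => (pr_norm (pr_mul (cv4p_s.snd h1) (bd4q2_s.snd h1 h2)))⟩
noncomputable def xc43_s : Sl1 xc43 := ⟨_, fun h1 => (pr_norm (pr_add (pr_scaleT 17 20 (pr_subr 1 2 (swg_s.snd (pr_nd (ycg_s.snd h1))))) (pr_scaleT 3 20 h1)))⟩
noncomputable def kfc43_s : Sl2 kfc43 := ⟨_, fun h1 h2 => (pr_norm (pr_mul (pr_norm (pr_add (pr_scaleT 17 20 (pr_subr 1 2 (swg_s.snd (pr_nd (ycg_s.snd h1))))) (pr_scaleT 3 20 h1))) (pr_norm (pr_case (pr_subr 987 500 (ycg_s.snd h1)) (pr_case (pr_subr 39 20 (ycg_s.snd h1)) (pr_case (pr_subr 193 100 (ycg_s.snd h1)) (pr_add (pr_subr 651773 430000 (pr_scaleT 7587 10750 (ycg_s.snd h1))) (pr_cmul (enc_norm (kfc43_11.enc h1.l h2)) (pr_norm (pr_csub (enc_rat _ 8853 17200) (pr_scaleT 1411 4300 (ycg_s.snd h1)))))) (pr_add (pr_subr 7581 5000 (pr_scaleT 353 500 (ycg_s.snd h1))) (pr_cmul (enc_norm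 (kfc43_11.enc h1.l h2)) (pr_norm (pr_csub (enc_rat _ 5183 10000) (pr_scaleT 33 100 (ycg_s.snd h1))))))) (pr_case (pr_subr 49221 25000 (ycg_s.snd h1)) (pr_add (pr_subr 29733 19625 (pr_scaleT 443 628 (ycg_s.snd h1))) (pr_cmul (enc_norm (kfc43_11.enc h1.l h2)) (pr_norm (pr_csub (enc_rat _ 210859 392500) (pr_scaleT 160 471 (ycg_s.snd h1)))))) (pr_add (pr_subr 3265629 2150000 (pr_scaleT 365 516 (ycg_s.snd h1))) (pr_cmul (enc_norm (kfc43_11.enc h1.l h2)) (pr_norm (pr_csub (enc_rat _ 222331 430000) (pr_scaleT 85 258 (ycg_s.snd h1)))))))) (pr_case (pr_csub (enc_rat _ 154764337 1000000000) h1) (pr_case (pr_subr 4063 2048 (ycg_s.snd h1)) (pr_add (pr_subr 11976397 7909375 (pr_scaleT 44608 63275 (ycg_s.snd h1))) (pr_cmul (enc_norm (kfc43_11.enc h1.l h2)) (pr_norm (pr_csub (enc_rat _ 13302529 25310000) (pr_scaleT 4224 12655 (ycg_s.snd h1)))))) (pr_add (pr_csub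 (enc_rat _ 3232484835591 6465561500000) (pr_scaleT 36276000 12931123 h1)) (pr_cmul (enc_norm (kfc43_11.enc h1.l h2)) (pr_norm (pr_subr 32973781 12931123000 (pr_neg (pr_scaleT 7900000 12931123 h1))))))) (pr_case (pr_csub (enc_rat _ 105307799 1000000000) h1) (pr_add (pr_csub (enc_rat _ 7726796797 15455168125) (pr_scaleT 69370000 24728269 h1)) (pr_cmul (enc_norm (kfc43_11.enc h1.l h2)) (pr_norm (pr_subr 166102819 123641345000 (pr_neg (pr_scaleT 15300000 24728269 h1)))))) (pr_case (pr_csub (enc_rat _ 54765409 1000000000) h1) (pr_add (pr_csub (enc_rat _ 2526902784691 5054239000000) (pr_scaleT 14179000 5054239 h1)) (pr_cmul (enc_norm (kfc43_11.enc h1.l h2)) (pr_norm (pr_subr 228117067 505423900000 (pr_neg (pr_scaleT 3170000 5054239 h1)))))) (pr_sub (pr_csub (enc_rat _ 1 2) (pr_scaleT 153680000 54765409 h1)) (pr_cmul (enc_norm (kfc43_11.enc h1.l h2)) (pr_nd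 (pr_scaleT 34800000 54765409 h1)))))))))))⟩
noncomputable def lc43_s : Sl2 lc43 := ⟨_, fun h1 h2 => (pr_norm (pr_mul (pr_norm (pr_add (pr_scaleT 17 20 (pr_subr 1 2 (swg_s.snd (pr_nd (ycg_s.snd h1))))) (pr_scaleT 3 20 h1))) (pr_norm (pr_case (pr_subr 987 500 (ycg_s.snd h1)) (pr_case (pr_subr 39 20 (ycg_s.snd h1)) (pr_case (pr_subr 193 100 (ycg_s.snd h1)) (pr_add (pr_subr 437599 430000 (pr_scaleT 41821 43000 (ycg_s.snd h1))) (pr_cmul (enc_norm (lc43_11.enc h1.l h2)) (pr_norm (pr_subr 1093319 430000 (pr_scaleT 5159 2150 (ycg_s.snd h1)))))) (pr_add (pr_subr 202731 200000 (pr_scaleT 1941 2000 (ycg_s.snd h1))) (pr_cmul (enc_norm (lc43_11.enc h1.l h2)) (pr_norm (pr_subr 51063 20000 (pr_scaleT 481 200 (ycg_s.snd h1))))))) (pr_case (pr_subr 49221 25000 (ycg_s.snd h1)) (pr_add (pr_subr 7953763 7850000 (pr_scaleT 457 471 (ycg_s.snd h1))) (pr_cmul (enc_norm (lc43_11.enc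 h1.l h2)) (pr_norm (pr_subr 504911 196250 (pr_scaleT 2275 942 (ycg_s.snd h1)))))) (pr_add (pr_subr 4362377 4300000 (pr_scaleT 167 172 (ycg_s.snd h1))) (pr_cmul (enc_norm (lc43_11.enc h1.l h2)) (pr_norm (pr_subr 219233 86000 (pr_scaleT 310 129 (ycg_s.snd h1)))))))) (pr_case (pr_csub (enc_rat _ 154764337 1000000000) h1) (pr_case (pr_subr 4063 2048 (ycg_s.snd h1)) (pr_add (pr_subr 256806199 253100000 (pr_scaleT 12288 12655 (ycg_s.snd h1))) (pr_cmul (enc_norm (lc43_11.enc h1.l h2)) (pr_norm (pr_subr 65234421 25310000 (pr_scaleT 30592 12655 (ycg_s.snd h1)))))) (pr_add (pr_addc (pr_scaleT 66000 12931123 h1) (enc_rat _ 5887476216749 6465561500000)) (pr_cmul (enc_norm (lc43_11.enc h1.l h2)) (pr_norm (pr_csub (enc_rat _ 215192610041 80819518750) (pr_scaleT 26180000 12931123 h1)))))) (pr_case (pr_csub (enc_rat _ 105307799 1000000000) h1) (pr_add (pr_addc (pr_scaleT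 125000 24728269 h1) (enc_rat _ 4503500851819 4945653800000)) (pr_cmul (enc_norm (lc43_11.enc h1.l h2)) (pr_norm (pr_csub (enc_rat _ 1317420605919 494565380000) (pr_scaleT 50250000 24728269 h1))))) (pr_case (pr_csub (enc_rat _ 54765409 1000000000) h1) (pr_add (pr_addc (pr_scaleT 549000 5054239 h1) (enc_rat _ 4547254798419 5054239000000)) (pr_cmul (enc_norm (lc43_11.enc h1.l h2)) (pr_norm (pr_csub (enc_rat _ 675644023173 252711950000) (pr_scaleT 10740000 5054239 h1))))) (pr_add (pr_addc (pr_scaleT 8420000 54765409 h1) (enc_rat _ 44861 50000)) (pr_cmul (enc_norm (lc43_11.enc h1.l h2)) (pr_norm (pr_csub (enc_rat _ 26767 10000) (pr_scaleT 119500000 54765409 h1))))))))))))⟩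
noncomputable def kcc43_s : Sl2 kcc43 := ⟨_, fun h1 h2 => (pr_norm (pr_mul (pr_norm (pr_add (pr_scaleT 17 20 (pr_subr 1 2 (swg_s.snd (pr_nd (ycg_s.snd h1))))) (pr_scaleT 3 20 h1))) (pr_norm (pr_case (pr_subr 197 100 (ycg_s.snd h1)) (pr_case (pr_subr 49221 25000 (ycg_s.snd h1)) (pr_add (pr_subr 562392383 7814000 (pr_scaleT 560560 11721 (ycg_s.snd h1))) (pr_cmul (enc_norm (kcc43_11.enc h1.l h2)) (pr_norm (pr_subr 83593 3907000 (pr_scaleT 175 11721 (ycg_s.snd h1)))))) (pr_addc (pr_subr 5220791 72500 (pr_scaleT 2775 58 (ycg_s.snd h1))) (kcc43_32.enc h1.l h2))) (pr_case (pr_subr 4063 2048 (ycg_s.snd h1)) (pr_addc (pr_subr 2046749 28440 (pr_scaleT 850048 17775 (ycg_s.snd h1))) (kcc43_32.enc h1.l h2)) (pr_add (pr_addc (pr_scaleT 128556406250 2290195749 h1) (enc_rat _ 35373 3340)) (pr_cmul (enc_norm (kcc43_11.enc h1.l h2)) (pr_norm (pr_csub (enc_rat _ 638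 167) (pr_scaleT 39791500000 2290195749 h1))))))))))⟩
noncomputable def cv5m_s : Sl1 cv5m := ⟨_, fun h1 => (pr_norm (pr_add (pr_scaleT 3 10 (pr_addc (swg_s.snd h1) (enc_rat _ 1 2))) (pr_scaleT 7 10 (c3g_s.snd h1))))⟩
noncomputable def bf5q0_84_s : Sl2 bf5q0_84 := ⟨_, fun h1 h2 => (pr_scaleT 1949 1000 h1)⟩
noncomputable def bf5q0_86_s : Sl2 bf5q0_86 := ⟨_, fun h1 h2 => (pr_csub (enc_rat _ 11113 25000) (bf5q0_84_s.snd h1 h2))⟩
noncomputable def bf5q0_s : Sl2 bf5q0 := ⟨_, fun h1 h2 => (pr_norm (pr_case (pr_subr 779 25000 h1) (pr_case (pr_subr 27 2000 h1) (pr_case (pr_subr 1 200 h1) (pr_addc (pr_csub (enc_rat _ 11113 25000) (pr_scaleT 487 250 h1)) (enc_scaleT 39 10000 (bf5q0_3.enc h1.l h2))) (pr_case (pr_subr 21 2000 h1) (pr_add (pr_csub (enc_rat _ 244489 550000) (pr_scaleT 536 275 h1)) (pr_cmul (enc_norm (bf5q0_3.enc h1.l h2)) (pr_norm (pr_csub (enc_rat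 _ 439 110000) (pr_scaleT 1 55 h1))))) (pr_addc (pr_csub (enc_rat _ 88907 200000) (pr_scaleT 39 20 h1)) (bf5q0_35.enc h1.l h2)))) (pr_case (pr_subr 33 2048 h1) (pr_addc (pr_csub (enc_rat _ 9912451 22300000) (pr_scaleT 32576 16725 h1)) (bf5q0_35.enc h1.l h2)) (pr_case (pr_subr 1 40 h1) (pr_add (pr_csub (enc_rat _ 1011293 2275000) (pr_scaleT 110848 56875 h1)) (pr_cmul (enc_norm (bf5q0_3.enc h1.l h2)) (pr_norm (pr_csub (enc_rat _ 3623 910000) (pr_scaleT 128 11375 h1))))) (pr_addc (pr_csub (enc_rat _ 1369189 3080000) (pr_scaleT 1201 616 h1)) (enc_scaleT 37 10000 (bf5q0_3.enc h1.l h2)))))) (pr_case (pr_subr 1 10 h1) (pr_case (pr_subr 1 20 h1) (pr_add (pr_csub (enc_rat _ 6978999 15700000) (pr_scaleT 306 157 h1)) (pr_cmul (enc_norm (bf5q0_3.enc h1.l h2)) (pr_norm (pr_csub (enc_rat _ 3797 942000) (pr_scaleT 5 471 h1))))) (pr_case (pr_subr 7 100 h1) (pr_add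 (bf5q0_86_s.snd h1 h2) (pr_cmul (enc_norm (bf5q0_3.enc h1.l h2)) (pr_norm (pr_csub (enc_rat _ 3 800) (pr_scaleT 1 200 h1))))) (pr_add (bf5q0_86_s.snd h1 h2) (pr_cmul (enc_norm (bf5q0_3.enc h1.l h2)) (pr_norm (pr_csub (enc_rat _ 41 10000) (pr_scaleT 1 100 h1))))))) (pr_case (pr_subr 11 50 h1) (pr_case (pr_subr 3 20 h1) (pr_add (bf5q0_86_s.snd h1 h2) (pr_cmul (enc_norm (bf5q0_3.enc h1.l h2)) (pr_norm (pr_csub (enc_rat _ 37 10000) (pr_scaleT 3 500 h1))))) (pr_add (pr_csub (enc_rat _ 311179 700000) (pr_scaleT 3411 1750 h1)) (pr_cmul (enc_norm (bf5q0_3.enc h1.l h2)) (pr_norm (pr_csub (enc_rat _ 16 4375) (pr_scaleT 1 175 h1)))))) (pr_case (pr_subr 33 100 h1) (pr_add (pr_csub (enc_rat _ 44451 100000) (bf5q0_84_s.snd h1 h2)) (pr_cmul (enc_norm (bf5q0_3.enc h1.l h2)) (pr_norm (pr_csub (enc_rat _ 19 5000) (pr_scaleT 7 1100 h1))))) (pr_add (pr_csub (enc_rat _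 7557 17000) (pr_scaleT 16567 8500 h1)) (pr_cmul (enc_norm (bf5q0_3.enc h1.l h2)) (pr_norm (pr_csub (enc_rat _ 619 170000) (pr_scaleT 1 170 h1))))))))))⟩
noncomputable def kf5q0_s : Sl2 kf5q0 := ⟨_, fun h1 h2 => (pr_norm (pr_mul (cv5m_s.snd h1) (bf5q0_s.snd h1 h2)))⟩
noncomputable def bx5q0_10_s : Sl2 bx5q0_10 := ⟨_, fun h1 h2 => (pr_scaleT 73 500 h1)⟩
noncomputable def bx5q0_s : Sl2 bx5q0 := ⟨_, fun h1 h2 => (pr_norm (pr_case (pr_subr 779 25000 h1) (pr_case (pr_subr 27 2000 h1) (pr_case (pr_subr 1 200 h1) (pr_add (pr_csub (enc_rat _ 28449 100000) (bx5q0_10_s.snd h1 h2)) (pr_cmul (enc_norm (bx5q0_3.enc h1.l h2)) (pr_norm (pr_subr 19 625 (pr_scaleT 6 25 h1))))) (pr_case (pr_subr 21 2000 h1) (pr_add (pr_csub (enc_rat _ 39117 137500) (pr_scaleT 8 55 h1)) (pr_cmul (enc_norm (bx5q0_3.enc h1.l h2)) (pr_norm (pr_subr 833 27500 (pr_scaleT 12 55 h1))))) (pr_add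 (pr_csub (enc_rat _ 569 2000) (pr_scaleT 11 75 h1)) (pr_cmul (enc_norm (bx5q0_3.enc h1.l h2)) (pr_norm (pr_subr 609 20000 (pr_scaleT 7 30 h1))))))) (pr_case (pr_subr 33 2048 h1) (pr_add (pr_csub (enc_rat _ 1585993 5575000) (pr_scaleT 2432 16725 h1)) (pr_cmul (enc_norm (bx5q0_3.enc h1.l h2)) (pr_norm (pr_subr 66639 2230000 (pr_scaleT 128 669 h1))))) (pr_case (pr_subr 1 40 h1) (pr_add (pr_csub (enc_rat _ 2588759 9100000) (pr_scaleT 8256 56875 h1)) (pr_cmul (enc_norm (bx5q0_3.enc h1.l h2)) (pr_norm (pr_subr 27523 910000 (pr_scaleT 2432 11375 h1))))) (pr_add (pr_csub (enc_rat _ 219067 770000) (pr_scaleT 45 308 h1)) (pr_cmul (enc_norm (bx5q0_3.enc h1.l h2)) (pr_norm (pr_subr 46471 1540000 (pr_scaleT 65 308 h1)))))))) (pr_case (pr_subr 1 10 h1) (pr_case (pr_subr 1 20 h1) (pr_add (pr_csub (enc_rat _ 1339987 4710000) (pr_scaleT 275 1884 h1)) (pr_cmul (enc_norm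 (bx5q0_3.enc h1.l h2)) (pr_norm (pr_subr 70379 2355000 (pr_scaleT 95 471 h1))))) (pr_case (pr_subr 7 100 h1) (pr_add (pr_csub (enc_rat _ 11379 40000) (pr_scaleT 291 2000 h1)) (pr_cmul (enc_norm (bx5q0_3.enc h1.l h2)) (pr_norm (pr_subr 581 20000 (pr_scaleT 37 200 h1))))) (pr_add (pr_csub (enc_rat _ 28451 100000) (bx5q0_10_s.snd h1 h2)) (pr_cmul (enc_norm (bx5q0_3.enc h1.l h2)) (pr_norm (pr_subr 427 15000 (pr_scaleT 53 300 h1))))))) (pr_case (pr_subr 11 50 h1) (pr_case (pr_subr 3 20 h1) (pr_add (pr_csub (enc_rat _ 28449 100000) (pr_scaleT 729 5000 h1)) (pr_cmul (enc_norm (bx5q0_3.enc h1.l h2)) (pr_norm (pr_subr 13 500 (pr_scaleT 19 125 h1))))) (pr_add (pr_csub (enc_rat _ 7113 25000) (bx5q0_10_s.snd h1 h2)) (pr_cmul (enc_norm (bx5q0_3.enc h1.l h2)) (pr_norm (pr_subr 1529 70000 (pr_scaleT 87 700 h1)))))) (pr_case (pr_subr 33 100 h1) (pr_add (pr_csub (enc_rat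 _ 14229 50000) (pr_scaleT 1609 11000 h1)) (pr_cmul (enc_norm (bx5q0_3.enc h1.l h2)) (pr_norm (pr_subr 121 10000 (pr_scaleT 2 25 h1))))) (pr_add (pr_csub (enc_rat _ 592533 1700000) (pr_scaleT 2891 8500 h1)) (pr_cmul (enc_norm (bx5q0_3.enc h1.l h2)) (pr_norm (pr_addc (pr_scaleT 31 1700 h1) (enc_rat _ 88 10625))))))))))⟩
noncomputable def l5q0_s : Sl2 l5q0 := ⟨_, fun h1 h2 => (pr_norm (pr_mul (cv5m_s.snd h1) (bx5q0_s.snd h1 h2)))⟩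
noncomputable def bd5q0_s : Sl2 bd5q0 := ⟨_, fun h1 h2 => (pr_norm (pr_case (pr_subr 33 2048 h1) (pr_case (pr_subr 1 100 h1) (pr_csub (enc_rat _ 46187 2000) (pr_scaleT 2309 100 h1)) (pr_csub (enc_rat _ 36141441 1565000) (pr_scaleT 180736 7825 h1))) (pr_case (pr_subr 2613 100000 h1) (pr_csub (enc_rat _ 1644948447 71230000) (pr_scaleT 164480 7123 h1)) (pr_case (pr_subr 779 25000 h1) (pr_csub (enc_rat _ 116161509 5030000) (pr_scaleT 11620 503 h1)) (pr_csub (enc_rat _ 338348491 14651250) (pr_scaleT 541355 23442 h1))))))⟩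
noncomputable def kc5q0_s : Sl2 kc5q0 := ⟨_, fun h1 h2 => (pr_norm (pr_mul (cv5m_s.snd h1) (bd5q0_s.snd h1 h2)))⟩
noncomputable def bf5q1_s : Sl2 bf5q1 := ⟨_, fun h1 h2 => (pr_norm (pr_case (pr_subr 7 8 h1) (pr_add (pr_subr 18323 60000 (pr_scaleT 12238 9375 h1)) (pr_cmul (enc_norm (bf5q1_3.enc h1.l h2)) (pr_norm (pr_csub (enc_rat _ 59 30000) (pr_scaleT 4 1875 h1))))) (pr_add (pr_subr 3817 12500 (pr_scaleT 16317 12500 h1)) (pr_cmul (enc_norm (bf5q1_3.enc h1.l h2)) (pr_norm (pr_csub (enc_rat _ 1 1250) (pr_scaleT 1 1250 h1)))))))⟩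
noncomputable def kf5q1_s : Sl2 kf5q1 := ⟨_, fun h1 h2 => (pr_norm (pr_mul (cv5m_s.snd h1) (bf5q1_s.snd h1 h2)))⟩
noncomputable def bx5q1_s : Sl2 bx5q1 := ⟨_, fun h1 h2 => (pr_norm (pr_case (pr_subr 7 8 h1) (pr_add (pr_csub (enc_rat _ 109799 300000) (pr_scaleT 14063 37500 h1)) (pr_cmul (enc_norm (bx5q1_3.enc h1.l h2)) (pr_norm (pr_csub (enc_rat _ 599 15000) (pr_scaleT 169 3750 h1))))) (pr_add (pr_csub (enc_rat _ 1893 6250) (pr_scaleT 1893 6250 h1)) (pr_cmul (enc_norm (bx5q1_3.enc h1.l h2)) (pr_norm (pr_csub (enc_rat _ 1 250) (pr_scaleT 1 250 h1)))))))⟩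
noncomputable def l5q1_s : Sl2 l5q1 := ⟨_, fun h1 h2 => (pr_norm (pr_mul (cv5m_s.snd h1) (bx5q1_s.snd h1 h2)))⟩
noncomputable def bd5q1_s : Sl2 bd5q1 := ⟨_, fun h1 h2 => (pr_norm (pr_csub (enc_rat _ 28867 1250) (pr_scaleT 28867 1250 h1)))⟩
noncomputable def kc5q1_s : Sl2 kc5q1 := ⟨_, fun h1 h2 => (pr_norm (pr_mul (cv5m_s.snd h1) (bd5q1_s.snd h1 h2)))⟩
noncomputable def cv5p_s : Sl1 cv5p := ⟨_, fun h1 => (pr_norm (pr_add (pr_scaleT 3 10 (pr_subr 1 2 (swg_s.snd h1))) (pr_scaleT 7 10 (c3g_s.snd h1))))⟩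
noncomputable def bf5q2_s : Sl2 bf5q2 := ⟨_, fun h1 h2 => (pr_norm (pr_case (pr_subr 21 20 h1) (pr_case (pr_subr 2081 2048 h1) (pr_add (pr_subr 5040499 825000 (pr_scaleT 633152 103125 h1)) (pr_cmul (enc_norm (bf5q2_3.enc h1.l h2)) (pr_norm (pr_subr 20113 330000 (pr_scaleT 1024 20625 h1))))) (pr_case (pr_subr 25779 25000 h1) (pr_add (pr_subr 58834670939 9629900000 (pr_scaleT 591232 96299 h1)) (pr_cmul (enc_norm (bf5q2_3.enc h1.l h2)) (pr_norm (pr_subr 794761 13757000 (pr_scaleT 640 13757 h1))))) (pr_add (pr_subr 23980323 3925000 (pr_scaleT 11567 1884 h1)) (pr_cmul (enc_norm (bf5q2_3.enc h1.l h2)) (pr_norm (pr_subr 92723 1570000 (pr_scaleT 15 314 h1))))))) (pr_case (pr_subr 231 200 h1) (pr_case (pr_subr 107 100 h1) (pr_add (pr_subr 305503 50000 (pr_scaleT 307 50 h1)) (pr_cmul (enc_norm (bf5q2_3.enc h1.l h2)) (pr_norm (pr_subr 307 5000 (pr_scaleT 1 20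 h1))))) (pr_add (pr_subr 519323 85000 (pr_scaleT 52187 8500 h1)) (pr_cmul (enc_norm (bf5q2_3.enc h1.l h2)) (pr_norm (pr_subr 9689 170000 (pr_scaleT 39 850 h1)))))) (pr_case (pr_subr 13 10 h1) (pr_add (pr_subr 17718337 2900000 (pr_scaleT 44513 7250 h1)) (pr_cmul (enc_norm (bf5q2_3.enc h1.l h2)) (pr_norm (pr_subr 8203 145000 (pr_scaleT 33 725 h1))))) (pr_add (pr_subr 305487 50000 (pr_scaleT 61397 10000 h1)) (pr_cmul (enc_norm (bf5q2_3.enc h1.l h2)) (pr_norm (pr_subr 221 4000 (pr_scaleT 89 2000 h1)))))))))⟩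
noncomputable def kf5q2_s : Sl2 kf5q2 := ⟨_, fun h1 h2 => (pr_norm (pr_mul (cv5p_s.snd h1) (bf5q2_s.snd h1 h2)))⟩
noncomputable def bx5q2_s : Sl2 bx5q2 := ⟨_, fun h1 h2 => (pr_norm (pr_case (pr_subr 21 20 h1) (pr_case (pr_subr 2081 2048 h1) (pr_add (pr_subr 378419 550000 (pr_scaleT 20224 34375 h1)) (pr_cmul (enc_norm (bx5q2_3.enc h1.l h2)) (pr_norm (pr_subr 475183 330000 (pr_scaleT 7808 4125 h1))))) (pr_case (pr_subr 25779 25000 h1) (pr_add (pr_subr 6624075203 9629900000 (pr_scaleT 56640 96299 h1)) (pr_cmul (enc_norm (bx5q2_3.enc h1.l h2)) (pr_norm (pr_subr 200126787 137570000 (pr_scaleT 26240 13757 h1))))) (pr_add (pr_subr 10798553 15700000 (pr_scaleT 277 471 h1)) (pr_cmul (enc_norm (bx5q2_3.enc h1.l h2)) (pr_norm (pr_subr 2289483 1570000 (pr_scaleT 300 157 h1))))))) (pr_case (pr_subr 231 200 h1) (pr_case (pr_subr 107 100 h1) (pr_add (pr_subr 137643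 200000 (pr_scaleT 1177 2000 h1)) (pr_cmul (enc_norm (bx5q2_3.enc h1.l h2)) (pr_norm (pr_subr 924 625 (pr_scaleT 193 100 h1))))) (pr_add (pr_subr 585063 850000 (pr_scaleT 5003 8500 h1)) (pr_cmul (enc_norm (bx5q2_3.enc h1.l h2)) (pr_norm (pr_subr 254003 170000 (pr_scaleT 1653 850 h1)))))) (pr_case (pr_subr 13 10 h1) (pr_add (pr_subr 2006601 2900000 (pr_scaleT 429 725 h1)) (pr_cmul (enc_norm (bx5q2_3.enc h1.l h2)) (pr_norm (pr_subr 442811 290000 (pr_scaleT 2861 1450 h1))))) (pr_add (pr_subr 139173 200000 (pr_scaleT 2379 4000 h1)) (pr_cmul (enc_norm (bx5q2_3.enc h1.l h2)) (pr_norm (pr_subr 8063 5000 (pr_scaleT 2039 1000 h1)))))))))⟩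
noncomputable def l5q2_s : Sl2 l5q2 := ⟨_, fun h1 h2 => (pr_norm (pr_mul (cv5p_s.snd h1) (bx5q2_s.snd h1 h2)))⟩
noncomputable def bd5q2_s : Sl2 bd5q2 := ⟨_, fun h1 h2 => (pr_norm (pr_case (pr_subr 231 200 h1) (pr_subc (pr_subr 36897907 310000 (pr_scaleT 4261 62 h1)) (enc_scaleT 1 1000 (bd5q2_3.enc h1.l h2))) (pr_add (pr_subr 27375787 230000 (pr_scaleT 237103 3450 h1)) (pr_cmul (enc_norm (bd5q2_3.enc h1.l h2)) (pr_norm (pr_subr 1 230 (pr_scaleT 1 345 h1)))))))⟩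
noncomputable def kc5q2_s : Sl2 kc5q2 := ⟨_, fun h1 h2 => (pr_norm (pr_mul (cv5p_s.snd h1) (bd5q2_s.snd h1 h2)))⟩
noncomputable def xc53_s : Sl1 xc53 := ⟨_, fun h1 => (pr_norm (pr_add (pr_scaleT 3 10 (pr_subr 1 2 (swg_s.snd (pr_nd (ycg_s.snd h1))))) (pr_scaleT 7 10 h1)))⟩
noncomputable def kfc53_s : Sl2 kfc53 := ⟨_, fun h1 h2 => (pr_norm (pr_mul (pr_norm (pr_add (pr_scaleT 3 10 (pr_subr 1 2 (swg_s.snd (pr_nd (ycg_s.snd h1))))) (pr_scaleT 7 10 h1))) (pr_norm (pr_case (pr_subr 987 500 (ycg_s.snd h1)) (pr_case (pr_subr 39 20 (ycg_s.snd h1)) (pr_case (pr_subr 193 100 (ycg_s.snd h1)) (pr_add (pr_subr 13746817 4300000 (pr_scaleT 3227 1720 (ycg_s.snd h1))) (pr_cmul (enc_norm (kfc53_11.enc h1.l h2)) (pr_norm (pr_csub (enc_rat _ 96391 430000) (pr_scaleT 158 1075 (ycg_s.snd h1)))))) (pr_add (pr_subr 639517 200000 (pr_scaleT 3753 2000 (ycg_s.snd h1))) (pr_cmul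 (enc_norm (kfc53_11.enc h1.l h2)) (pr_norm (pr_csub (enc_rat _ 23 100) (pr_scaleT 3 20 (ycg_s.snd h1))))))) (pr_case (pr_subr 49221 25000 (ycg_s.snd h1)) (pr_add (pr_subr 50180537 15700000 (pr_scaleT 589 314 (ycg_s.snd h1))) (pr_cmul (enc_norm (kfc53_11.enc h1.l h2)) (pr_norm (pr_csub (enc_rat _ 571 2512) (pr_scaleT 70 471 (ycg_s.snd h1)))))) (pr_add (pr_subr 13745177 4300000 (pr_scaleT 242 129 (ycg_s.snd h1))) (pr_cmul (enc_norm (kfc53_11.enc h1.l h2)) (pr_norm (pr_csub (enc_rat _ 8677 43000) (pr_scaleT 35 258 (ycg_s.snd h1)))))))) (pr_case (pr_csub (enc_rat _ 154764337 1000000000) h1) (pr_case (pr_subr 4063 2048 (ycg_s.snd h1)) (pr_add (pr_subr 809190129 253100000 (pr_scaleT 23744 12655 (ycg_s.snd h1))) (pr_cmul (enc_norm (kfc53_11.enc h1.l h2)) (pr_norm (pr_csub (enc_rat _ 59097 253100) (pr_scaleT 384 2531 (ycg_s.snd h1)))))) (pr_add (pr_addc (pr_scaleT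 4914000 12931123 h1) (enc_rat _ 714084863819 1616390375000)) (pr_cmul (enc_norm (kfc53_11.enc h1.l h2)) (pr_norm (pr_subr 416809581 646556150000 (pr_neg (pr_scaleT 3940000 12931123 h1))))))) (pr_case (pr_csub (enc_rat _ 105307799 1000000000) h1) (pr_add (pr_addc (pr_scaleT 9405000 24728269 h1) (enc_rat _ 436926623569 989130760000)) (pr_cmul (enc_norm (kfc53_11.enc h1.l h2)) (pr_norm (pr_subr 270810277 494565380000 (pr_neg (pr_scaleT 7550000 24728269 h1)))))) (pr_case (pr_csub (enc_rat _ 54765409 1000000000) h1) (pr_add (pr_addc (pr_scaleT 1918000 5054239 h1) (enc_rat _ 1116525453469 2527119500000)) (pr_cmul (enc_norm (kfc53_11.enc h1.l h2)) (pr_norm (pr_csub (enc_rat _ 13908839 63177987500) (pr_scaleT 1580000 5054239 h1))))) (pr_sub (pr_csub (enc_rat _ 1 2) (pr_scaleT 37400000 54765409 h1)) (pr_cmul (enc_norm (kfc53_11.enc h1.l h2)) (pr_nd (pr_scaleT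 16900000 54765409 h1)))))))))))⟩
noncomputable def lc53_s : Sl2 lc53 := ⟨_, fun h1 h2 => (pr_norm (pr_mul (pr_norm (pr_add (pr_scaleT 3 10 (pr_subr 1 2 (swg_s.snd (pr_nd (ycg_s.snd h1))))) (pr_scaleT 7 10 h1))) (pr_norm (pr_case (pr_subr 987 500 (ycg_s.snd h1)) (pr_case (pr_subr 39 20 (ycg_s.snd h1)) (pr_case (pr_subr 193 100 (ycg_s.snd h1)) (pr_add (pr_subr 1068279 537500 (pr_scaleT 62601 43000 (ycg_s.snd h1))) (pr_cmul (enc_norm (lc53_11.enc h1.l h2)) (pr_norm (pr_subr 821863 430000 (pr_scaleT 2406 1075 (ycg_s.snd h1)))))) (pr_add (pr_subr 25113 12500 (pr_scaleT 1467 1000 (ycg_s.snd h1))) (pr_cmul (enc_norm (lc53_11.enc h1.l h2)) (pr_norm (pr_subr 20307 10000 (pr_scaleT 23 10 (ycg_s.snd h1))))))) (pr_case (pr_subr 49221 25000 (ycg_s.snd h1)) (pr_add (pr_subr 31528473 15700000 (pr_scaleT 921 628 (ycg_s.snd h1))) (pr_cmul (enc_norm (lc53_11.enc h1.l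 h2)) (pr_norm (pr_subr 3312999 1570000 (pr_scaleT 735 314 (ycg_s.snd h1)))))) (pr_add (pr_subr 8639367 4300000 (pr_scaleT 757 516 (ycg_s.snd h1))) (pr_cmul (enc_norm (lc53_11.enc h1.l h2)) (pr_norm (pr_subr 463671 215000 (pr_scaleT 305 129 (ycg_s.snd h1)))))))) (pr_case (pr_csub (enc_rat _ 154764337 1000000000) h1) (pr_case (pr_subr 4063 2048 (ycg_s.snd h1)) (pr_add (pr_subr 508297189 253100000 (pr_scaleT 3712 2531 (ycg_s.snd h1))) (pr_cmul (enc_norm (lc53_11.enc h1.l h2)) (pr_norm (pr_subr 27606277 12655000 (pr_scaleT 6016 2531 (ycg_s.snd h1)))))) (pr_add (pr_addc (pr_scaleT 688000 12931123 h1) (enc_rat _ 5751994772077 6465561500000)) (pr_cmul (enc_norm (lc53_11.enc h1.l h2)) (pr_norm (pr_csub (enc_rat _ 1702289145747 646556150000) (pr_scaleT 5820000 12931123 h1)))))) (pr_case (pr_csub (enc_rat _ 105307799 1000000000) h1) (pr_add (pr_addc (pr_scaleT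 1315000 24728269 h1) (enc_rat _ 175994046271 197826152000)) (pr_cmul (enc_norm (lc53_11.enc h1.l h2)) (pr_norm (pr_csub (enc_rat _ 81241310257 30910336250) (pr_scaleT 10400000 24728269 h1))))) (pr_case (pr_csub (enc_rat _ 54765409 1000000000) h1) (pr_add (pr_csub (enc_rat _ 226764385113 252711950000) (pr_scaleT 100000 5054239 h1)) (pr_cmul (enc_norm (lc53_11.enc h1.l h2)) (pr_norm (pr_csub (enc_rat _ 1346137629019 505423900000) (pr_scaleT 3810000 5054239 h1))))) (pr_add (pr_csub (enc_rat _ 44861 50000) (pr_scaleT 980000 54765409 h1)) (pr_cmul (enc_norm (lc53_11.enc h1.l h2)) (pr_norm (pr_csub (enc_rat _ 26767 10000) (pr_scaleT 54600000 54765409 h1))))))))))))⟩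
noncomputable def kcc53_s : Sl2 kcc53 := ⟨_, fun h1 h2 => (pr_norm (pr_mul (pr_norm (pr_add (pr_scaleT 3 10 (pr_subr 1 2 (swg_s.snd (pr_nd (ycg_s.snd h1))))) (pr_scaleT 7 10 h1))) (pr_norm (pr_case (pr_subr 197 100 (ycg_s.snd h1)) (pr_case (pr_subr 49221 25000 (ycg_s.snd h1)) (pr_add (pr_subr 4650317183 39070000 (pr_scaleT 1611065 23442 (ycg_s.snd h1))) (pr_cmul (enc_norm (kcc53_11.enc h1.l h2)) (pr_norm (pr_csub (enc_rat _ 25 7814) (pr_scaleT 25 11721 (ycg_s.snd h1)))))) (pr_subc (pr_subr 34506661 290000 (pr_scaleT 3985 58 (ycg_s.snd h1))) (kcc53_33.enc h1.l h2))) (pr_case (pr_subr 4063 2048 (ycg_s.snd h1)) (pr_subc (pr_subr 169259453 1422000 (pr_scaleT 1221632 17775 (ycg_s.snd h1))) (kcc53_33.enc h1.l h2)) (pr_add (pr_addc (pr_scaleT 70221218750 2290195749 h1) (enc_rat _ 35373 3340)) (pr_cmul (enc_norm (kcc53_11.enc h1.l h2)) (pr_norm (pr_csub (enc_rat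 _ 638 167) (pr_scaleT 39885437500 2290195749 h1))))))))))⟩
noncomputable def kf6q0_s : Sl2 kf6q0 := ⟨_, fun h1 h2 => (pr_norm (pr_sub (pr_mul h1 (kcg_s.snd (pr_nd (pr_half h1)) h2)) (pr_mul (pr_norm (pr_mul (pr_nd (pr_sq h1)) (pr_norm (pr_addc (c3g_s.snd h1) (enc_rat _ 3 2))))) (pr_nd (pr_inv (pr_mul (pr_norm (pr_csub (enc_pnc _ 1) h1)) (pr_norm (pr_cadd (enc_pnc _ 1) h1))))))))⟩
noncomputable def l6q0_6_s : Sl2 l6q0_6 := ⟨_, fun h1 h2 => (pr_half h1)⟩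
noncomputable def l6q0_7_s : Sl2 l6q0_7 := ⟨_, fun h1 h2 => (pr_half (c3g_s.snd h1))⟩
noncomputable def l6q0_8_s : Sl2 l6q0_8 := ⟨_, fun h1 h2 => (pr_scaleT 1 4 h1)⟩
noncomputable def l6q0_s : Sl2 l6q0 := ⟨_, fun h1 h2 => (pr_norm (pr_add (txg_s.snd (pr_nd (l6q0_6_s.snd h1 h2)) (pr_norm (pr_sub (l6q0_7_s.snd h1 h2) (l6q0_8_s.snd h1 h2))) h2) (txg_s.snd (pr_nd (pr_neg (l6q0_6_s.snd h1 h2))) (pr_norm (pr_add (l6q0_7_s.snd h1 h2) (l6q0_8_s.snd h1 h2))) h2)))⟩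
noncomputable def kc6q0_6_s : Sl2 kc6q0_6 := ⟨_, fun h1 h2 => (pr_half h1)⟩
noncomputable def kc6q0_s : Sl2 kc6q0 := ⟨_, fun h1 h2 => (pr_norm (pr_case (pr_subr 167 1000 (kc6q0_6_s.snd h1 h2)) (pr_add (pr_addc (pr_scaleT 5729 3340 h1) (enc_rat _ 327 625)) (pr_cmul (enc_norm (kc6q0_3.enc h1.l h2)) (pr_norm (pr_subr 13 1000 (pr_neg (pr_scaleT 13 334 h1)))))) (pr_case (pr_subr 333 1000 (kc6q0_6_s.snd h1 h2)) (pr_add (pr_addc (pr_scaleT 712 415 h1) (enc_rat _ 434147 830000)) (pr_cmul (enc_norm (kc6q0_3.enc h1.l h2)) (pr_norm (pr_subr 429 33200 (pr_neg (pr_scaleT 13 332 h1)))))) (pr_add (pr_csub (enc_rat _ 16657 3340) (pr_scaleT 16657 3340 h1)) (pr_cmul (enc_norm (kc6q0_3.enc h1.l h2)) (pr_norm (pr_subr 39 334 (pr_scaleT 39 334 h1))))))))⟩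
noncomputable def kf6q1_s : Sl2 kf6q1 := ⟨_, fun h1 h2 => (pr_norm (pr_add (pr_mul (pr_norm (pr_mul h1 (pr_norm (pr_addc (c3g_s.snd h1) (enc_rat _ 3 2))))) (pr_nd (pr_inv (pr_cadd (enc_pnc _ 1) h1)))) (pr_mul (pr_norm (pr_subn 1 h1)) (kcg_s.snd (pr_nd (pr_half h1)) h2))))⟩
noncomputable def l6q1_7_s : Sl2 l6q1_7 := ⟨_, fun h1 h2 => (pr_half h1)⟩
noncomputable def l6q1_8_s : Sl2 l6q1_8 := ⟨_, fun h1 h2 => (pr_half (c3g_s.snd h1))⟩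
noncomputable def l6q1_9_s : Sl2 l6q1_9 := ⟨_, fun h1 h2 => (pr_scaleT 1 4 h1)⟩
noncomputable def l6q1_s : Sl2 l6q1 := ⟨_, fun h1 h2 => (pr_norm (pr_add (txg_s.snd (pr_nd (l6q1_7_s.snd h1 h2)) (pr_norm (pr_sub (l6q1_8_s.snd h1 h2) (l6q1_9_s.snd h1 h2))) h2) (txg_s.snd (pr_nd (pr_neg (l6q1_7_s.snd h1 h2))) (pr_norm (pr_add (l6q1_8_s.snd h1 h2) (l6q1_9_s.snd h1 h2))) h2)))⟩
noncomputable def kc6q1_7_s : Sl2 kc6q1_7 := ⟨_, fun h1 h2 => (pr_half h1)⟩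
noncomputable def kc6q1_s : Sl2 kc6q1 := ⟨_, fun h1 h2 => (pr_norm (pr_case (pr_subr 167 1000 (kc6q1_7_s.snd h1 h2)) (pr_add (pr_addc (pr_scaleT 5729 3340 h1) (enc_rat _ 327 625)) (pr_cmul (enc_norm (kc6q1_3.enc h1.l h2)) (pr_norm (pr_subr 13 1000 (pr_neg (pr_scaleT 13 334 h1)))))) (pr_case (pr_subr 333 1000 (kc6q1_7_s.snd h1 h2)) (pr_add (pr_addc (pr_scaleT 712 415 h1) (enc_rat _ 434147 830000)) (pr_cmul (enc_norm (kc6q1_3.enc h1.l h2)) (pr_norm (pr_subr 429 33200 (pr_neg (pr_scaleT 13 332 h1)))))) (pr_add (pr_csub (enc_rat _ 16657 3340) (pr_scaleT 16657 3340 h1)) (pr_cmul (enc_norm (kc6q1_3.enc h1.l h2)) (pr_norm (pr_subr 39 334 (pr_scaleT 39 334 h1))))))))⟩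
noncomputable def kf6q2_s : Sl2 kf6q2 := ⟨_, fun h1 h2 => (pr_norm (pr_add (pr_mul (pr_norm (pr_mul (pr_norm (pr_sub (pr_nat 2 (c3g_s.snd h1)) h1)) (pr_norm (pr_sub (pr_addc (c3g_s.snd h1) (enc_pnc _ 3)) (pr_scaleT 3 2 h1))))) (pr_nd (pr_inv (pr_nat 4 (pr_csub (enc_pnc _ 2) h1))))) (pr_mul (pr_norm (pr_subn 1 h1)) (kcg_s.snd (pr_norm (pr_sub (pr_scaleT 1 4 h1) (pr_half (c3g_s.snd h1)))) h2))))⟩
noncomputable def l6q2_7_s : Sl2 l6q2_7 := ⟨_, fun h1 h2 => (pr_half (c3g_s.snd h1))⟩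
noncomputable def l6q2_8_s : Sl2 l6q2_8 := ⟨_, fun h1 h2 => (pr_scaleT 1 4 h1)⟩
noncomputable def l6q2_9_s : Sl2 l6q2_9 := ⟨_, fun h1 h2 => (pr_sub (l6q2_7_s.snd h1 h2) (l6q2_8_s.snd h1 h2))⟩
noncomputable def l6q2_12_s : Sl2 l6q2_12 := ⟨_, fun h1 h2 => (pr_add (pr_scaleT 1 4 (c3g_s.snd h1)) (pr_scaleT 3 8 h1))⟩
noncomputable def l6q2_14_s : Sl2 l6q2_14 := ⟨_, fun h1 h2 => (pr_half (l6q2_9_s.snd h1 h2))⟩
noncomputable def l6q2_s : Sl2 l6q2 := ⟨_, fun h1 h2 => (pr_norm (pr_sub (pr_nat 2 (txg_s.snd (pr_norm (pr_sub (l6q2_8_s.snd h1 h2) (l6q2_7_s.snd h1 h2))) (pr_norm (pr_add (l6q2_12_s.snd h1 h2) (l6q2_14_s.snd h1 h2))) h2)) (txg_s.snd (pr_norm (l6q2_9_s.snd h1 h2)) (pr_norm (pr_sub (l6q2_12_s.snd h1 h2) (l6q2_14_s.snd h1 h2))) h2)))⟩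
noncomputable def kc6q2_9_s : Sl2 kc6q2_9 := ⟨_, fun h1 h2 => (pr_sub (pr_half (c3g_s.snd h1)) (pr_scaleT 1 4 h1))⟩
noncomputable def kc6q2_26_s : Sl2 kc6q2_26 := ⟨_, fun h1 h2 => (pr_neg (pr_scaleT 9399 830 (kc6q2_9_s.snd h1 h2)))⟩
noncomputable def kc6q2_45_s : Sl2 kc6q2_45 := ⟨_, fun h1 h2 => (pr_cmul (enc_norm (kc6q2_3.enc h1.l h2)) (pr_norm (pr_csub (enc_rat _ 309 500) (pr_scaleT 330 167 (kc6q2_9_s.snd h1 h2)))))⟩
noncomputable def kc6q2_s : Sl2 kc6q2 := ⟨_, fun h1 h2 => (pr_norm (pr_case (kc6q2_9_s.snd h1 h2) (pr_case (pr_addc (kc6q2_9_s.snd h1 h2) (enc_rat _ 333 1000)) (pr_add (pr_addc (pr_scaleT 35373 1670 (kc6q2_9_s.snd h1 h2)) (enc_rat _ 35373 3340)) (pr_cmul (enc_norm (kc6q2_3.enc h1.l h2)) (pr_norm (pr_addc (pr_scaleT 1276 167 (kc6q2_9_s.snd h1 h2)) (enc_rat _ 638 167))))) (pr_case (pr_addc (kc6q2_9_s.snd h1 h2) (enc_rat _ 167 1000)) (pr_add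 (pr_subr 48477 207500 (kc6q2_26_s.snd h1 h2)) (pr_cmul (enc_norm (kc6q2_3.enc h1.l h2)) (pr_norm (pr_csub (enc_rat _ 6412 10375) (pr_scaleT 164 83 (kc6q2_9_s.snd h1 h2)))))) (pr_add (pr_subr 2337 10000 (pr_neg (pr_scaleT 9456 835 (kc6q2_9_s.snd h1 h2)))) (kc6q2_45_s.snd h1 h2)))) (pr_case (pr_subr 167 1000 (kc6q2_9_s.snd h1 h2)) (pr_add (pr_subr 2337 10000 (pr_neg (pr_scaleT 18911 1670 (kc6q2_9_s.snd h1 h2)))) (kc6q2_45_s.snd h1 h2)) (pr_case (pr_subr 333 1000 (kc6q2_9_s.snd h1 h2)) (pr_add (pr_subr 193951 830000 (kc6q2_26_s.snd h1 h2)) (pr_cmul (enc_norm (kc6q2_3.enc h1.l h2)) (pr_norm (pr_csub (enc_rat _ 102417 166000) (pr_scaleT 327 166 (kc6q2_9_s.snd h1 h2)))))) (pr_add (pr_subr 20023 1670 (pr_scaleT 20023 835 (kc6q2_9_s.snd h1 h2))) (pr_cmul (enc_norm (kc6q2_3.enc h1.l h2)) (pr_norm (pr_subr 39 334 (pr_scaleT 39 167 (kc6q2_9_s.snd h1 h2))))))))))⟩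
noncomputable def kfc63_s : Sl2 kfc63 := ⟨_, fun h1 h2 => (pr_norm (pr_sub (pr_mul (pr_norm (pr_subn 2 (ycg_s.snd h1))) (kcg_s.snd (pr_norm (pr_sub (pr_scaleT 1 4 (ycg_s.snd h1)) (pr_half h1))) h2)) (pr_mul (pr_norm (pr_mul (pr_norm (pr_sub (pr_nat 2 h1) (ycg_s.snd h1))) (pr_norm (pr_sub (pr_addc h1 (enc_pnc _ 3)) (pr_scaleT 3 2 (ycg_s.snd h1)))))) (pr_nd (pr_inv (pr_nat 4 (pr_subn 1 (ycg_s.snd h1))))))))⟩
noncomputable def lc63_7_s : Sl2 lc63_7 := ⟨_, fun h1 h2 => (pr_half h1)⟩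
noncomputable def lc63_8_s : Sl2 lc63_8 := ⟨_, fun h1 h2 => (pr_scaleT 1 4 (ycg_s.snd h1))⟩
noncomputable def lc63_9_s : Sl2 lc63_9 := ⟨_, fun h1 h2 => (pr_sub (lc63_7_s.snd h1 h2) (lc63_8_s.snd h1 h2))⟩
noncomputable def lc63_12_s : Sl2 lc63_12 := ⟨_, fun h1 h2 => (pr_add (pr_scaleT 1 4 h1) (pr_scaleT 3 8 (ycg_s.snd h1)))⟩
noncomputable def lc63_14_s : Sl2 lc63_14 := ⟨_, fun h1 h2 => (pr_half (lc63_9_s.snd h1 h2))⟩
noncomputable def lc63_s : Sl2 lc63 := ⟨_, fun h1 h2 => (pr_norm (pr_sub (pr_nat 2 (txg_s.snd (pr_norm (pr_sub (lc63_8_s.snd h1 h2) (lc63_7_s.snd h1 h2))) (pr_norm (pr_add (lc63_12_s.snd h1 h2) (lc63_14_s.snd h1 h2))) h2)) (txg_s.snd (pr_norm (lc63_9_s.snd h1 h2)) (pr_norm (pr_sub (lc63_12_s.snd h1 h2) (lc63_14_s.snd h1 h2))) h2)))⟩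
noncomputable def kcc63_9_s : Sl2 kcc63_9 := ⟨_, fun h1 h2 => (pr_sub (pr_half h1) (pr_scaleT 1 4 (ycg_s.snd h1)))⟩
noncomputable def kcc63_26_s : Sl2 kcc63_26 := ⟨_, fun h1 h2 => (pr_neg (pr_scaleT 9399 830 (kcc63_9_s.snd h1 h2)))⟩
noncomputable def kcc63_45_s : Sl2 kcc63_45 := ⟨_, fun h1 h2 => (pr_cmul (enc_norm (kcc63_4.enc h1.l h2)) (pr_norm (pr_csub (enc_rat _ 309 500) (pr_scaleT 330 167 (kcc63_9_s.snd h1 h2)))))⟩
noncomputable def kcc63_s : Sl2 kcc63 := ⟨_, fun h1 h2 => (pr_norm (pr_case (kcc63_9_s.snd h1 h2) (pr_case (pr_addc (kcc63_9_s.snd h1 h2) (enc_rat _ 333 1000)) (pr_add (pr_addc (pr_scaleT 35373 1670 (kcc63_9_s.snd h1 h2)) (enc_rat _ 35373 3340)) (pr_cmul (enc_norm (kcc63_4.enc h1.l h2)) (pr_norm (pr_addc (pr_scaleT 1276 167 (kcc63_9_s.snd h1 h2)) (enc_rat _ 638 167))))) (pr_case (pr_addc (kcc63_9_s.snd h1 h2) (enc_rat _ 167 1000)) (pr_add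 (pr_subr 48477 207500 (kcc63_26_s.snd h1 h2)) (pr_cmul (enc_norm (kcc63_4.enc h1.l h2)) (pr_norm (pr_csub (enc_rat _ 6412 10375) (pr_scaleT 164 83 (kcc63_9_s.snd h1 h2)))))) (pr_add (pr_subr 2337 10000 (pr_neg (pr_scaleT 9456 835 (kcc63_9_s.snd h1 h2)))) (kcc63_45_s.snd h1 h2)))) (pr_case (pr_subr 167 1000 (kcc63_9_s.snd h1 h2)) (pr_add (pr_subr 2337 10000 (pr_neg (pr_scaleT 18911 1670 (kcc63_9_s.snd h1 h2)))) (kcc63_45_s.snd h1 h2)) (pr_case (pr_subr 333 1000 (kcc63_9_s.snd h1 h2)) (pr_add (pr_subr 193951 830000 (kcc63_26_s.snd h1 h2)) (pr_cmul (enc_norm (kcc63_4.enc h1.l h2)) (pr_norm (pr_csub (enc_rat _ 102417 166000) (pr_scaleT 327 166 (kcc63_9_s.snd h1 h2)))))) (pr_add (pr_subr 20023 1670 (pr_scaleT 20023 835 (kcc63_9_s.snd h1 h2))) (pr_cmul (enc_norm (kcc63_4.enc h1.l h2)) (pr_norm (pr_subr 39 334 (pr_scaleT 39 167 (kcc63_9_s.snd h1 h2))))))))))⟩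
noncomputable def gB0q0 : Gn := ⟨ndB0q0, c1g_s, kf0q0_s, l0q0_s, false⟩
noncomputable def dB0q0 : CnW := ⟨cd0q0, kc0q0_s⟩
noncomputable def gB0q1 : Gn := ⟨ndB0q1, c1g_s, kf0q1_s, l0q1_s, false⟩
noncomputable def dB0q1 : CnW := ⟨cd0q1, kc0q1_s⟩
noncomputable def gB0q2 : Gn := ⟨ndB0q2, idf_s, kfc02_s, lc02_s, true⟩
noncomputable def dB0q2 : CnW := ⟨cd0q2, kcc02_s⟩
noncomputable def gB1q0 : Gn := ⟨ndB1q0, cv1m_s, kf1q0_s, l1q0_s, false⟩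
noncomputable def dB1q0 : CnW := ⟨cd1q0, kc1q0_s⟩
noncomputable def gB1q1 : Gn := ⟨ndB1q1, cv1m_s, kf1q1_s, l1q1_s, false⟩
noncomputable def dB1q1 : CnW := ⟨cd1q1, kc1q1_s⟩
noncomputable def gB1q2 : Gn := ⟨ndB1q2, cv1p_s, kf1q2_s, l1q2_s, false⟩
noncomputable def dB1q2 : CnW := ⟨cd1q2, kc1q2_s⟩
noncomputable def gB1q3 : Gn := ⟨ndB1q3, cv1r_s, kf1q3_s, l1q3_s, false⟩
noncomputable def dB1q3 : CnW := ⟨cd1q3, kc1q3_s⟩
noncomputable def gB2q0 : Gn := ⟨ndB2q0, cv2m_s, kf2q0_s, l2q0_s, false⟩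
noncomputable def dB2q0 : CnW := ⟨cd2q0, kc2q0_s⟩
noncomputable def gB2q1 : Gn := ⟨ndB2q1, cv2m_s, kf2q1_s, l2q1_s, false⟩
noncomputable def dB2q1 : CnW := ⟨cd2q1, kc2q1_s⟩
noncomputable def gB2q2 : Gn := ⟨ndB2q2, cv2p_s, kf2q2_s, l2q2_s, false⟩
noncomputable def dB2q2 : CnW := ⟨cd2q2, kc2q2_s⟩
noncomputable def gB2q3 : Gn := ⟨ndB2q3, cv2r_s, kf2q3_s, l2q3_s, false⟩
noncomputable def dB2q3 : CnW := ⟨cd2q3, kc2q3_s⟩
noncomputable def gB3q0 : Gn := ⟨ndB3q0, cv3m_s, kf3q0_s, l3q0_s, false⟩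
noncomputable def dB3q0 : CnW := ⟨cd3q0, kc3q0_s⟩
noncomputable def gB3q1 : Gn := ⟨ndB3q1, cv3m_s, kf3q1_s, l3q1_s, false⟩
noncomputable def dB3q1 : CnW := ⟨cd3q1, kc3q1_s⟩
noncomputable def gB3q2 : Gn := ⟨ndB3q2, cv3p_s, kf3q2_s, l3q2_s, false⟩
noncomputable def dB3q2 : CnW := ⟨cd3q2, kc3q2_s⟩
noncomputable def gB3q3 : Gn := ⟨ndB3q3, xc33_s, kfc33_s, lc33_s, false⟩
noncomputable def dB3q3 : CnW := ⟨cd3q3, kcc33_s⟩
noncomputable def gB4q0 : Gn := ⟨ndB4q0, cv4m_s, kf4q0_s, l4q0_s, false⟩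
noncomputable def dB4q0 : CnW := ⟨cd4q0, kc4q0_s⟩
noncomputable def gB4q1 : Gn := ⟨ndB4q1, cv4m_s, kf4q1_s, l4q1_s, false⟩
noncomputable def dB4q1 : CnW := ⟨cd4q1, kc4q1_s⟩
noncomputable def gB4q2 : Gn := ⟨ndB4q2, cv4p_s, kf4q2_s, l4q2_s, false⟩
noncomputable def dB4q2 : CnW := ⟨cd4q2, kc4q2_s⟩
noncomputable def gB4q3 : Gn := ⟨ndB4q3, xc43_s, kfc43_s, lc43_s, false⟩
noncomputable def dB4q3 : CnW := ⟨cd4q3, kcc43_s⟩
noncomputable def gB5q0 : Gn := ⟨ndB5q0, cv5m_s, kf5q0_s, l5q0_s, false⟩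
noncomputable def dB5q0 : CnW := ⟨cd5q0, kc5q0_s⟩
noncomputable def gB5q1 : Gn := ⟨ndB5q1, cv5m_s, kf5q1_s, l5q1_s, false⟩
noncomputable def dB5q1 : CnW := ⟨cd5q1, kc5q1_s⟩
noncomputable def gB5q2 : Gn := ⟨ndB5q2, cv5p_s, kf5q2_s, l5q2_s, false⟩
noncomputable def dB5q2 : CnW := ⟨cd5q2, kc5q2_s⟩
noncomputable def gB5q3 : Gn := ⟨ndB5q3, xc53_s, kfc53_s, lc53_s, false⟩
noncomputable def dB5q3 : CnW := ⟨cd5q3, kcc53_s⟩
noncomputable def gB6q0 : Gn := ⟨ndB6q0, c3g_s, kf6q0_s, l6q0_s, false⟩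
noncomputable def dB6q0 : CnW := ⟨cd6q0, kc6q0_s⟩
noncomputable def gB6q1 : Gn := ⟨ndB6q1, c3g_s, kf6q1_s, l6q1_s, false⟩
noncomputable def dB6q1 : CnW := ⟨cd6q1, kc6q1_s⟩
noncomputable def gB6q2 : Gn := ⟨ndB6q2, c3g_s, kf6q2_s, l6q2_s, false⟩
noncomputable def dB6q2 : CnW := ⟨cd6q2, kc6q2_s⟩
noncomputable def gB6q3 : Gn := ⟨ndB6q3, idf_s, kfc63_s, lc63_s, false⟩
noncomputable def dB6q3 : CnW := ⟨cd6q3, kcc63_s⟩
noncomputable def gB0q3 : Gn := gz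
noncomputable def dB0q3 : CnW := ⟨fz2, fz2_s⟩
noncomputable def gB (j : Fin 7) (q : ℕ) : Gn :=
  match j, q with
  | 0, 0 => gB0q0
  | 0, 1 => gB0q1
  | 0, 2 => gB0q2
  | 0, 3 => gB0q3
  | 1, 0 => gB1q0
  | 1, 1 => gB1q1
  | 1, 2 => gB1q2
  | 1, 3 => gB1q3
  | 2, 0 => gB2q0
  | 2, 1 => gB2q1
  | 2, 2 => gB2q2
  | 2, 3 => gB2q3
  | 3, 0 => gB3q0
  | 3, 1 => gB3q1
  | 3, 2 => gB3q2
  | 3, 3 => gB3q3
  | 4, 0 => gB4q0
  | 4, 1 => gB4q1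
  | 4, 2 => gB4q2
  | 4, 3 => gB4q3
  | 5, 0 => gB5q0
  | 5, 1 => gB5q1
  | 5, 2 => gB5q2
  | 5, 3 => gB5q3
  | 6, 0 => gB6q0
  | 6, 1 => gB6q1
  | 6, 2 => gB6q2
  | 6, 3 => gB6q3
  | _, _ => gB0q0

noncomputable def dB (j : Fin 7) (q : ℕ) : CnW :=
  match j, q with
  | 0, 0 => dB0q0
  | 0, 1 => dB0q1
  | 0, 2 => dB0q2
  | 0, 3 => dB0q3
  | 1, 0 => dB1q0
  | 1, 1 => dB1q1
  | 1, 2 => dB1q2
  | 1, 3 => dB1q3
  | 2, 0 => dB2q0
  | 2, 1 => dB2q1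
  | 2, 2 => dB2q2
  | 2, 3 => dB2q3
  | 3, 0 => dB3q0
  | 3, 1 => dB3q1
  | 3, 2 => dB3q2
  | 3, 3 => dB3q3
  | 4, 0 => dB4q0
  | 4, 1 => dB4q1
  | 4, 2 => dB4q2
  | 4, 3 => dB4q3
  | 5, 0 => dB5q0
  | 5, 1 => dB5q1
  | 5, 2 => dB5q2
  | 5, 3 => dB5q3
  | 6, 0 => dB6q0
  | 6, 1 => dB6q1
  | 6, 2 => dB6q2
  | 6, 3 => dB6q3
  | _, _ => dB0q0

noncomputable def c0B : Fn1 := ⟨fun _ => pone, fun _ => 1, fun _ => enc_one _⟩

end Pool.Agent.Strip051.G.I9736_9750.Tab
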