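import Pool.Agent.Strip051.G.I9736_9750.StH
import Pool.Agent.Strip051.G.I9736_9750.StF

/-! # Unit strips 0 (generated) -/

set_option linter.all false
set_option maxRecDepth 100000

namespace Pool.Agent.Strip051.G.I9736_9750.Tab.St.C

open Pool.Agent.Strip051.PB Pool.Agent.Strip051.PB.T Pool.Agent.StripNear Pool.Agent.Strip051.LC
open Pool.Agent.Strip051.G.I9736_9750.Tab Pool.Agent.Strip051.G.I9736_9750.Tab.St

noncomputable def cut_A00pm_012_s1 : Cut := Cut.of [[⟨4, 0, 0, 1449551462⟩], [⟨0, 0, 0, 13421772⟩, ⟨1, 1, 0, 13421772⟩, ⟨2, 1, 0, 13421772⟩]]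

noncomputable def xt_A00pm_012_s1 : Ext := strExt dd true true false .u0 .u0m .u2 .pnp 0 1 2 rfl rfl gf2 vv ndB0q0 ndB0q1

noncomputable def f_A00pm_012_s1 : ℕ → ℕ → ℕ → ℕ → Bool := onCell 1073741824 536870912 536870912 536870912 1045395039 1503240
    (rowF 2 true true false .pnp 0 1 2 (qsf 0 536870912 536870912 536870912 2) ndB0q0 ndB0q1 pcB2 cut_A00pm_012_s1 xt_A00pm_012_s1)

def k0_A00pm_012_s1 : ∃ t, chk3 f_A00pm_012_s1 t 4 2 1 = true :=
  ⟨(a (l 3) (l 3)), by decide +kernel⟩

def k1_A00pm_012_s1 : ∃ t, chk3 f_A00pm_012_s1 t 10 4 1 = true :=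
  ⟨(a (a (l 3) (l 2)) (l 2)), by decide +kernel⟩

def k2_A00pm_012_s1 : ∃ t, chk3 f_A00pm_012_s1 t 40 5 1 = true :=
  ⟨(b (l 3) (b (l 3) (a (l 3) (a (a (l 3) (b (l 3) (a (l 529481087) (l 529487999)))) (a (b (l 3) (l 529495935)) (l 529261183)))))), by decide +kernel⟩

def k3_A00pm_012_s1 : ∃ t, chk3 f_A00pm_012_s1 t 41 5 1 = true :=
  ⟨(b (a (a (l 3) (b (l 3) (a (l 3) (l 529448575)))) (b (a (l 529791551) (b (l 2) (b (l 2) (a (l 529794111) (l 7079959063))))) (b (a (l 529759807) (a (l 529775679) (b (l 16767920) (l 16766272)))) (a (a (a (l 529721727) (l 529729151)) (l 529737599)) (b (a (l 16763032) (l 16764464)) (a (l 16766296) (l 16762496))))))) (a (a (b (a (a (l 3) (l 529628543)) (l 529633407)) (a (l 529542271) (l 529554303))) (a (b (l 529643647) (l 529565055)) (b (l 529651839) (l 529574015)))) (a (a (a (b (l 529671039) (l 529595007)) (b (l 529679231) (l 529603711))) (b (a (l 529685119) (l 529691263)) (b (l 529635199) (b (l 16751256) (a (l 16748744) (l 16747096)))))) (a (a (b (l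 529697151) (b (b (l 16754728) (l 16751696)) (b (a (l 16748984) (l 16748408)) (l 16746264)))) (b (a (l 529701503) (b (l 529722751) (b (l 16757904) (l 16755248)))) (b (b (a (l 16753312) (a (l 16752704) (l 16752544))) (a (b (l 16751152) (l 16749872)) (l 16750520))) (a (l 16747344) (l 16747640))))) (a (b (b (b (l 16761296) (a (a (l 16759696) (a (l 16759336) (a (a (l 16759216) (b (l 16759736) (b (l 16748416) (l 16737480)))) (l 16759168)))) (l 16758632))) (a (a (b (l 16757200) (b (l 16755320) (l 16754200))) (a (b (b (l 16757536) (l 16756432)) (l 16755072)) (a (a (b (l 16757176) (l 16755504)) (l 16751360)) (l 16756656)))) (l 16756112))) (a (b (a (l 16751896) (a (l 16752416) (b (l 16753832) (l 16752032)))) (a (l 16748104) (a (l 16743400) (b (l 16750152) (a (a (l 16748136) (l 16748432)) (l 16748496)))))) (b (l 16752664) (b (l 16749912) (l 16747960))))) (b (b (b (l 16759400) (l 16757200)) (l 16754672)) (b (l 16751232) (b (l 16748488) (l 16746544))))))))), by decide +kernel⟩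

def k4_A00pm_012_s1 : ∃ t, chk3 f_A00pm_012_s1 t 21 5 1 = true :=
  ⟨(b (b (l 529899103) (b (l 529874015) (a (a (b (l 16734000) (l 16732040)) (l 16738856)) (l 16716272)))) (b (a (b (a (b (l 16750888) (a (l 16752448) (l 16744856))) (l 16734680)) (b (a (l 16746864) (l 16731528)) (l 16653720))) (b (l 16712192) (a (l 16715496) (l 16700392)))) (a (b (a (a (l 16746464) (l 16738832)) (l 16727416)) (a (b (l 16739944) (l 16696096)) (l 16723848))) (b (l 16704680) (l 16701264))))), by decide +kernel⟩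

def k5_A00pm_012_s1 : ∃ t, chk3 f_A00pm_012_s1 t 11 2 1 = true :=
  ⟨(b (l 2) (b (b (l 2) (l 530086495)) (b (a (a (b (l 16682392) (l 16678008)) (l 16650600)) (a (l 16621152) (l 2))) (a (a (l 16630888) (l 16642864)) (a (l 16613128) (l 16583672)))))), by decide +kernel⟩

def k6_A00pm_012_s1 : ∃ t, chk3 f_A00pm_012_s1 t 4 6 1 = true :=
  ⟨(a (l 3) (a (a (l 3) (a (l 3) (b (l 3) (b (l 3) (b (l 3) (l 528587135)))))) (b (a (l 3) (b (l 3) (a (b (l 3) (b (l 3) (l 528792447))) (b (a (l 3) (l 528960127)) (a (l 528875279) (l 529172607)))))) (a (b (a (l 3) (a (l 528901503) (l 528939391))) (a (b (a (l 528456575) (b (l 528785423) (l 528750207))) (a (l 528658559) (l 528432767))) (b (a (b (l 528823167) (l 528794127)) (b (l 528863103) (l 528831871))) (a (b (l 528494095) (c (l 528731519) (l 528459023))) (b (l 528800639) (l 528568447)))))) (b (a (l 528983423) (a (l 529050239) (l 529085567))) (b (a (b (l 528908927) (l 528610175)) (a (b (l 16744144) (b (l 16738792) (l 16724928))) (b (l 16726208) (a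 (b (l 16733272) (l 16730768)) (l 16729968))))) (a (a (b (l 528841343) (a (l 16728728) (b (l 16737280) (a (l 16734320) (b (l 16733352) (l 16731800)))))) (b (b (l 16739184) (a (l 16737288) (b (l 16734376) (l 16732712)))) (b (a (b (l 16734392) (a (l 16733384) (l 16731824))) (a (l 16731360) (l 16730576))) (a (a (b (l 16731816) (l 16731008)) (l 16730632)) (l 16729560))))) (a (b (a (b (l 16733592) (l 16730912)) (b (l 16730848) (l 16729456))) (l 16728104)) (b (l 16728000) (l 16725184)))))))))), by decide +kernel⟩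

def k7_A00pm_012_s1 : ∃ t, chk3 f_A00pm_012_s1 t 8 14 1 = true :=
  ⟨(a (l 3) (a (l 3) (b (l 3) (b (l 3) (a (a (l 3) (b (l 3) (b (l 3) (a (b (l 3) (l 527708543)) (a (l 527545359) (l 527830143)))))) (a (b (b (l 3) (a (l 3) (l 527912831))) (a (l 527591039) (l 527618687))) (b (a (l 527949183) (l 527976319)) (b (l 527667071) (l 527918463))))))))), by decide +kernel⟩

def k8_A00pm_012_s1 : ∃ t, chk3 f_A00pm_012_s1 t 16 30 1 = true :=
  ⟨(b (l 3) (a (l 3) (a (l 3) (a (l 3) (b (l 3) (b (l 3) (a (a (l 3) (l 523669775)) (a (l 524191103) (l 524168063))))))))), by decide +kernel⟩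

def k9_A00pm_012_s1 : ∃ t, chk3 f_A00pm_012_s1 t 32 62 1 = true :=
  ⟨(b (l 3) (a (l 3) (a (l 3) (b (l 3) (a (l 3) (b (l 3) (a (l 3) (a (l 519957775) (l 520017791))))))))), by decide +kernel⟩

def k10_A00pm_012_s1 : ∃ t, chk3 f_A00pm_012_s1 t 32 126 1 = true :=
  ⟨(a (b (l 3) (a (l 3) (a (l 3) (b (l 3) (a (l 3) (b (l 3) (a (l 3) (l 525967743)))))))) (b (a (a (l 3) (a (l 3) (b (l 3) (b (l 3) (l 521715983))))) (b (a (a (l 3) (l 520333439)) (a (l 519795583) (a (l 519580287) (l 519510543)))) (a (a (l 519089423) (l 519883135)) (a (l 519347839) (b (l 519191423) (b (l 16758024) (a (l 16762312) (l 16760560)))))))) (a (b (a (a (l 3) (b (l 3) (l 523889535))) (a (b (a (l 3) (l 522399871)) (l 522862975)) (b (b (l 521634831) (l 521714447)) (a (l 522091647) (l 521557887))))) (a (a (b (a (l 3) (l 524801151)) (a (l 525454719) (l 524941439))) (b (l 523492223) (a (l 524428159) (l 523914623)))) (a (b (l 523001727) (b (l 523104895) (a (a (l 16770488) (l 16769568)) (b (a (l 16768944) (l 16768112))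 (l 16768192))))) (b (b (l 522012687) (a (l 16769208) (b (l 16767504) (l 16764240)))) (b (a (b (l 16768024) (a (l 16767808) (l 16767144))) (l 16766512)) (l 16766920)))))) (a (b (a (b (l 520545151) (a (l 520998271) (b (l 16767864) (l 16766072)))) (b (l 519729535) (b (a (l 16765544) (b (l 16763720) (l 16763120))) (a (b (l 16764304) (l 16763872)) (l 16762880))))) (a (b (b (a (a (l 16767144) (l 16766104)) (b (l 16765008) (l 16764736))) (a (b (l 16765760) (l 16765632)) (l 16764736))) (l 16765216)) (b (l 16763344) (l 16763448)))) (b (b (a (b (a (l 16764800) (l 16762576)) (a (b (l 16763288) (l 16762520)) (l 16761416))) (a (b (l 16760912) (l 16760496)) (l 16759816))) (a (a (l 16762016) (l 16761120)) (l 16759832))) (a (l 16761528) (l 16759744))))))), by decide +kernel⟩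

def k11_A00pm_012_s1 : ∃ t, chk3 f_A00pm_012_s1 t 64 127 1 = true :=
  ⟨(b (a (l 14) (b (a (b (l 3) (b (l 3) (l 14))) (b (a (a (l 3) (b (l 3) (l 527169663))) (a (b (l 526585727) (l 526656639)) (l 526109055))) (a (a (b (l 527754111) (l 527825535)) (b (l 527240831) (l 527311999))) (b (a (l 526727551) (l 526214015)) (a (l 526798463) (a (l 16773416) (b (l 16772976) (l 16769800)))))))) (a (l 14) (b (a (b (a (l 14) (l 527383167)) (l 14)) (b (a (b (l 16773608) (a (l 16773408) (b (l 16772864) (l 16772696)))) (b (a (b (l 16772688) (l 16772480)) (l 16772104)) (l 16772232))) (a (a (l 14) (l 16772664)) (l 16772224)))) (a (l 14) (a (l 14) (l 16772216))))))) (l 14)), by decide +kernel⟩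

def k12_A00pm_012_s1 : ∃ t, chk3 f_A00pm_012_s1 t 65 127 1 = true :=
  ⟨(b (a (b (a (b (a (a (l 525595775) (l 525081983)) (b (a (l 524532351) (a (l 16770856) (b (l 16770304) (l 16769688)))) (a (b (l 16771136) (a (l 16770912) (l 16770240))) (b (a (l 16769960) (l 16769464)) (l 16769640))))) (a (b (a (a (l 16773152) (l 16772384)) (b (a (l 16771888) (l 16771128)) (a (b (l 16771432) (l 16771224)) (l 16770848)))) (a (b (a (l 16772240) (b (l 16771640) (l 16771496))) (a (l 16771832) (l 16771488))) (l 16771008))) (a (b (a (l 16770512) (l 16770168)) (l 16770336)) (l 16769640)))) (b (a (a (b (b (a (l 16769432) (l 16768752)) (l 16768904)) (l 16768904)) (l 16768136)) (l 16766960)) (a (l 16768560) (l 16767056)))) (a (a (b (a (l 16771624) (l 16771000)) (l 16771352)) (b (l 16770024) (l 16770128))) (b (l 16767960) (a (l 16768832) (b (l 16767408) (l 16767680)))))) (b (a (a (l 16765392) (l 16763720)) (l 16750552)) (a (b (l 16754568) (b (a (l 16766072) (l 16764512)) (l 16744640))) (b (a (l 16762688)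 (l 16760872)) (l 16762704))))) (a (b (a (b (a (b (l 16771424) (l 14)) (b (l 16749368) (l 16770552))) (a (l 14) (l 16768080))) (b (b (a (l 16769152) (l 16768056)) (l 16769008)) (l 16724336))) (a (l 14) (l 16739728))) (b (l 16755136) (b (l 16760552) (l 16757088))))), by decide +kernel⟩

def k13_A00pm_012_s1 : ∃ t, chk3 f_A00pm_012_s1 t 33 124 1 = true :=
  ⟨(a (a (l 3) (b (l 3) (a (l 3) (l 522108799)))) (b (a (a (l 522738047) (l 523219583)) (a (a (l 523605631) (b (l 523870223) (l 523513215))) (b (a (l 524123407) (l 524369279)) (a (l 524036735) (l 524017791))))) (a (a (l 522591615) (l 523074943)) (b (a (l 523595791) (b (l 523832703) (a (l 16758504) (b (l 16756432) (a (l 16755736) (b (l 16754736) (l 16754104))))))) (a (a (l 16754808) (b (l 16758544) (b (l 16756400) (a (l 16755672) (b (l 16754656) (l 16754136)))))) (b (a (b (l 16756416) (a (l 16755704) (b (l 16754680) (l 16754096)))) (b (a (b (l 16754704) (l 16754096)) (b (a (l 16753776) (l 16753400)) (l 16753360))) (a (b (l 16753648)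 (l 16753456)) (l 16753224)))) (a (b (a (b (l 16754664) (l 16754104)) (l 16753616)) (l 16753536)) (l 16753064)))))))), by decide +kernel⟩

def k14_A00pm_012_s1 : ∃ t, chk3 f_A00pm_012_s1 t 33 125 1 = true :=
  ⟨(a (b (a (a (l 3) (l 520993407)) (a (l 521477247) (l 521961343))) (a (a (b (l 520392575) (l 520314239)) (l 520842111)) (b (a (l 521363583) (b (a (l 16762224) (b (l 16759648) (l 16758064))) (a (b (l 16759704) (a (l 16758864) (l 16757344))) (b (a (l 16757280) (l 16756216)) (l 16756160))))) (a (b (a (l 16762440) (b (l 16759760) (a (l 16758912) (l 16757544)))) (a (b (l 16759856) (a (l 16759024) (l 16757840))) (b (l 16757384) (l 16757080)))) (b (a (b (a (l 16757432) (l 16756568)) (l 16756592)) (l 16755880)) (l 16755928)))))) (b (a (b (a (l 522480767) (b (l 16754936) (a (l 16758688) (b (l 16756432) (a (l 16755688) (l 16754648)))))) (a (b (l 16755104) (a (l 16758792) (b (a (l 16757160) (l 16755808)) (a (l 16755880) (l 16755160))))) (b (a (b (a (l 16757152) (l 16755712)) (a (l 16755752)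 (l 16754856))) (b (l 16754528) (l 16754312))) (l 16754352)))) (b (a (b (a (b (l 16756392) (a (l 16755664) (a (l 16754688) (l 16754240)))) (b (a (b (l 16754664) (l 16754184)) (l 16753800)) (l 16753768))) (a (b (a (b (l 16754712) (l 16754344)) (l 16754048)) (l 16754024)) (l 16753480))) (l 16752760)) (a (l 16753208) (l 16751912)))) (a (a (b (b (a (b (a (l 16757192) (l 16755968)) (l 16755824)) (l 16755072)) (l 16755080)) (l 16754552)) (b (l 16753792) (l 16753016))) (b (a (l 16752376) (l 16751016)) (l 16750816))))), by decide +kernel⟩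

def k15_A00pm_012_s1 : ∃ t, chk3 f_A00pm_012_s1 t 33 63 1 = true :=
  ⟨(b (a (b (a (b (a (b (a (l 520035087) (l 520276095)) (a (l 519570559) (b (l 16763336) (l 16761312)))) (b (a (l 16762552) (b (a (l 16760720) (l 16759072)) (a (l 16759080) (l 16758128)))) (a (b (a (l 16760520) (l 16759056)) (l 16758688)) (l 16757824)))) (a (b (a (b (l 16763128) (a (l 16762080) (l 16760208))) (b (a (l 16760216) (l 16758944)) (l 16758688))) (a (b (a (l 16760320) (l 16759184)) (l 16759160)) (l 16758040))) (a (l 16757400) (l 16756416)))) (b (a (a (l 16754672) (l 16756424)) (l 16755144)) (a (l 16755072) (l 16753288)))) (a (a (b (a (l 16758424) (l 16756944)) (l 16757056)) (b (l 16755072) (l 16753872))) (b (a (l 16752808) (l 16750976)) (a (l 16751360) (b (l 16749400) (l 16748568)))))) (b (a (b (a (l 16753480) (l 16751872)) (l 16750728)) (b (l 16749576) (l 16747488))) (a (b (a (l 16749176) (l 16747600)) (a (b (l 16747616) (l 16746120)) (l 16744216))) (b (a (b (l 16746440) (l 16744640)) (l 16743088))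 (l 16740048))))) (a (b (a (b (a (b (l 16757272) (a (l 16758632) (l 16756776))) (b (l 16753912) (l 16753808))) (a (b (l 16758136) (l 16759240)) (l 16754784))) (b (a (b (l 16750512) (l 16750392)) (l 16747320)) (l 16748376))) (a (b (l 16737576) (l 16758712)) (b (l 16665136) (l 16750232)))) (b (a (b (l 16742528) (l 16740232)) (l 16734072)) (a (b (l 16739000) (l 16738360)) (l 16728096))))), by decide +kernel⟩

def k16_A00pm_012_s1 : ∃ t, chk3 f_A00pm_012_s1 t 34 60 1 = true :=
  ⟨(b (l 3) (a (l 3) (a (b (l 3) (a (l 3) (b (a (l 3) (a (l 3) (l 526919551))) (a (l 526739327) (a (l 526854015) (l 526928143)))))) (a (b (l 526804863) (b (l 527095935) (a (l 526767119) (l 527171711)))) (b (l 527329151) (l 527088511)))))), by decide +kernel⟩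

def k17_A00pm_012_s1 : ∃ t, chk3 f_A00pm_012_s1 t 68 122 1 = true :=
  ⟨(a (a (l 3) (b (l 3) (a (l 3) (l 525172095)))) (a (b (l 3) (a (b (l 3) (l 525639807)) (b (a (l 525803535) (l 525901327)) (l 525839375)))) (b (a (l 525785727) (l 525969535)) (b (a (l 525775887) (l 526228351)) (a (l 525762831) (l 525947151)))))), by decide +kernel⟩

def k18_A00pm_012_s1 : ∃ t, chk3 f_A00pm_012_s1 t 68 123 1 = true :=
  ⟨(a (a (b (a (l 524466815) (l 524696703)) (a (l 524405887) (l 524636543))) (b (a (l 524919167) (l 525134095)) (a (a (l 524804479) (l 524914047)) (b (l 525359999) (l 525324927))))) (b (b (a (a (l 525621119) (l 525552511)) (a (l 525744511) (l 526197375))) (a (a (l 525597055) (l 525528703)) (a (l 525720959) (l 525905279)))) (a (a (b (l 525567615) (l 525264511)) (b (l 525499519) (l 525464959))) (b (a (l 525691775) (l 525876607)) (b (a (l 525934975) (b (l 16754048) (a (l 16753496) (b (a (l 16752936) (b (a (l 16752656) (b (l 16752456) (a (l 16752384) (l 16752280)))) (a (a (l 16752456)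 (a (l 16752368) (l 16749696))) (l 16749624)))) (a (b (a (l 16752656) (a (l 16752464) (a (l 16752368) (l 16749704)))) (a (a (l 16752464) (b (l 16752392) (l 16752312))) (l 16752272))) (a (l 16749616) (l 16752184))))))) (a (b (a (l 16754648) (l 16753512)) (a (a (l 16753792) (b (l 16753504) (a (l 16753072) (a (l 16752864) (b (l 16752864) (b (l 16752648) (l 16752528))))))) (b (a (a (l 16753080) (l 16752800)) (b (a (l 16752664) (a (b (l 16752520) (l 16752416)) (l 16749776))) (a (a (b (l 16752520) (l 16752432)) (l 16752408)) (l 16752360)))) (a (b (a (b (l 16752720) (l 16752592)) (a (b (l 16752520) (l 16752440)) (l 16752416))) (a (a (b (l 16752520) (l 16752448)) (l 16752432)) (l 16752392))) (l 16752328))))) (b (a (b (a (l 16752936) (b (a (l 16752656) (b (l 16752464) (a (l 16752400) (l 16752320)))) (a (a (b (l 16752520) (l 16752400)) (b (l 16752400) (l 16752336))) (l 16752304)))) (a (b (a (l 16752656) (b (a (l 16752520) (l 16752400)) (a (l 16752408) (l 16752352)))) (a (b (a (l 16752520)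 (l 16752408)) (a (l 16752416) (l 16752368))) (l 16752336))) (l 16752272))) (l 16752144)) (l 16752096)))))))), by decide +kernel⟩

def k19_A00pm_012_s1 : ∃ t, chk3 f_A00pm_012_s1 t 69 122 1 = true :=
  ⟨(a (a (b (a (l 526145663) (l 526313855)) (b (l 526221327) (c (l 526210175) (l 526206991)))) (b (a (l 526474111) (l 526626319)) (a (l 526459775) (l 526611983)))) (b (a (a (l 526770559) (l 526906639)) (a (l 527034639) (l 527154303))) (a (b (l 526830719) (l 526818431)) (b (l 527355007) (a (b (l 16754840) (a (l 16753456) (b (l 16752904) (l 16752008)))) (b (a (l 16753296) (l 16752320)) (a (b (l 16751936) (b (l 16751336) (l 16751120))) (b (a (l 16751288) (l 16751016)) (l 16750944))))))))), by decide +kernel⟩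

def k20_A00pm_012_s1 : ∃ t, chk3 f_A00pm_012_s1 t 138 246 1 = true :=
  ⟨(a (a (b (l 526105471) (l 526350463)) (b (l 526273919) (l 526519167))) (b (a (l 526702975) (l 526855551)) (a (b (l 16755432) (a (l 16753904) (b (l 16753352) (b (l 16752592) (a (l 16752336) (b (a (l 16752072) (l 16751872)) (a (l 16751880) (l 16751808)))))))) (b (a (l 16753824) (b (l 16753272) (a (l 16752520) (b (l 16752248) (a (l 16749296) (b (l 16751784) (l 16751680))))))) (a (b (b (l 16752552) (a (l 16752304) (a (b (l 16752040) (l 16751840)) (b (l 16751832) (l 16751744))))) (a (b (b (a (l 16752056) (l 16751848)) (a (l 16751864) (l 16751776))) (l 16751744)) (l 16751680))) (b (a (b (a (b (l 16752016) (l 16751816)) (b (l 16751808) (l 16751712))) (l 16751688)) (l 16751616)) (l 16751520))))))), by decide +kernel⟩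

def k21_A00pm_012_s1 : ∃ t, chk3 f_A00pm_012_s1 t 276 247 1 = true :=
  ⟨(b (a (b (l 526329215) (a (l 16754024) (b (l 16753464) (b (a (l 16752920) (a (l 16752520) (b (l 16752376) (a (l 16749584) (l 16752120))))) (a (b (l 16752528) (a (l 16752392) (b (l 16749592) (l 16752152)))) (a (b (b (l 16749584) (l 16752136)) (l 16752104)) (l 16752072))))))) (b (a (l 16753976) (b (l 16753416) (a (a (l 16752760) (a (l 16752568) (b (l 16752688) (b (l 16752296) (l 16752072))))) (b (a (l 16752488) (b (l 16752352) (l 16749496))) (b (a (c (l 16752128) (l 16749496)) (l 16751968)) (l 16751952)))))) (a (b (a (a (l 16752776) (b (l 16752776) (b (l 16752368) (a (l 16752192) (l 16752104))))) (b (a (l 16752504) (a (l 16752320) (b (l 16752296) (l 16752088)))) (a (b (a (l 16752192) (l 16752096)) (l 16752040)) (l 16752008)))) (a (a (b (a (b (l 16752200) (l 16752088)) (l 16749456)) (l 16752016)) (l 16752000)) (l 16751920))) (b (a (a (b (b (a (l 16752176) (l 16752080)) (l 16752008)) (l 16751960)) (l 16751936))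 (l 16751864)) (l 16751760))))) (a (b (b (a (b (a (l 16752936) (a (b (l 16752656) (b (l 16752448) (l 16752328))) (b (l 16752392) (b (a (l 16752264) (l 16752184)) (l 16752176))))) (a (b (a (l 16752656) (b (l 16752448) (l 16749712))) (a (b (l 16752448) (a (l 16752384) (l 16752272))) (b (l 16749624) (l 16752208)))) (a (b (b (a (l 16752264) (l 16752200)) (l 16752192)) (l 16752160)) (l 16752128)))) (a (b (a (b (b (l 16749600) (l 16752160)) (l 16752136)) (l 16752096)) (l 16752048)) (l 16751976))) (a (a (b (a (b (b (l 16749632) (l 16752224)) (l 16752192)) (l 16752160)) (l 16752104)) (l 16752032)) (l 16751872))) (l 16751736)) (b (l 16751624) (l 16751296)))), by decide +kernel⟩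

def k22_A00pm_012_s1 : ∃ t, chk3 f_A00pm_012_s1 t 277 247 1 = true :=
  ⟨(b (a (b (a (b (b (l 16752624) (a (a (l 16752480) (l 16749616)) (b (a (l 16752096) (l 16751920)) (l 16751896)))) (a (b (b (a (l 16752112) (l 16751944)) (l 16751920)) (l 16751872)) (l 16751800))) (b (a (b (b (a (l 16752080) (l 16751896)) (l 16749248)) (l 16751808)) (l 16751744)) (l 16751640))) (l 16751512)) (l 16745992)) (b (l 16745728) (l 16750640))), by decide +kernel⟩

def k23_A00pm_012_s1 : ∃ t, chk3 f_A00pm_012_s1 t 139 123 1 = true :=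
  ⟨(b (a (b (a (b (l 16755168) (a (l 16753720) (b (l 16753168) (a (l 16752440) (b (l 16752168) (a (l 16751832) (l 16751632))))))) (b (a (l 16753600) (b (l 16753048) (a (l 16752336) (l 16751880)))) (a (b (a (l 16752392) (b (l 16752120) (a (l 16751784) (l 16751576)))) (a (b (a (l 16751808) (l 16751608)) (l 16751480)) (l 16751400))) (b (a (b (l 16746424) (l 16751408)) (l 16751328)) (l 16751248))))) (a (b (a (b (a (l 16752480) (b (l 16752216) (a (l 16751872) (l 16746440)))) (b (a (a (l 16751896) (l 16746464)) (l 16751584)) (l 16751560))) (b (a (b (a (l 16751856) (l 16751656)) (l 16751544)) (l 16751472)) (l 16751384))) (l 16751272)) (l 16750984))) (b (a (b (a (b (a (l 16752280) (l 16751816)) (a (b (l 16751616) (l 16751336)) (l 16751256))) (b (a (b (l 16751552) (l 16751264)) (l 16751176)) (l 16751104))) (l 16751000)) (l 16750704)) (l 16750336))) (a (b (l 16750584) (l 16749928)) (b (l 16749712) (l 16749048)))), by decide +kernel⟩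

def k24_A00pm_012_s1 : ∃ t, chk3 f_A00pm_012_s1 t 35 60 1 = true :=
  ⟨(a (b (a (a (b (l 3) (a (l 527450639) (l 527285375))) (l 527661583)) (a (l 527816831) (b (l 527632143) (a (l 527940991) (l 527985535))))) (a (a (b (l 527552015) (l 527311375)) (b (l 527472511) (l 527768191))) (b (a (l 527895423) (l 528013695)) (a (l 527922047) (b (l 16754064) (a (l 16751864) (b (l 16750664) (a (l 16749696) (l 16749088))))))))) (b (a (b (a (l 527870735) (l 527900799)) (a (l 528023935) (l 528046719))) (b (l 527940991) (a (l 16752304) (b (l 16749440) (a (l 16747760) (b (l 16746360) (l 16745584))))))) (a (b (a (l 16749472) (b (l 16752064) (a (l 16750128) (b (l 16748824) (l 16747768))))) (a (b (a (l 16751064) (b (l 16749816) (a (l 16748912) (l 16748344)))) (a (b (a (l 16749320) (l 16748728)) (l 16748680)) (l 16748224))) (b (a (b (l 16748232) (l 16747928)) (l 16747424)) (l 16747368)))) (b (a (b (a (l 16749024) (b (l 16747664) (l 16746736))) (a (l 16747120) (l 16746488))) (l 16745520)) (l 16745728))))),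 by decide +kernel⟩

def k25_A00pm_012_s1 : ∃ t, chk3 f_A00pm_012_s1 t 35 61 1 = true :=
  ⟨(b (a (a (b (a (l 527317887) (b (l 16755520) (a (l 16753096) (b (l 16751960) (a (b (l 16751144) (l 16750496)) (l 16750248)))))) (a (b (a (b (l 16754424) (l 16752648)) (b (l 16752440) (a (b (l 16751592) (l 16750912)) (b (l 16750816) (l 16750584))))) (a (b (a (b (l 16751776) (a (l 16751208) (l 16750936))) (b (l 16751008) (l 16750768))) (l 16750680)) (l 16750360))) (b (a (b (a (b (l 16751384) (l 16750712)) (l 16750472)) (l 16750304)) (l 16749960)) (l 16749680)))) (b (a (b (a (l 16752536) (b (l 16751368) (a (l 16750344) (l 16749712)))) (a (b (a (b (l 16750888) (l 16750248)) (l 16749992)) (l 16749848)) (l 16749480))) (b (a (b (a (l 16750032) (l 16749416)) (l 16749312)) (l 16748904)) (l 16748720))) (a (l 16748992) (l 16748016)))) (a (b (l 16747360) (l 16746504)) (b (l 16745088) (l 16744336)))) (a (a (b (a (l 16749744) (l 16748840)) (a (l 16748496) (l 16747600))) (b (l 16747456) (l 16746232))) (a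 (b (l 16745512) (l 16744336)) (l 16742912)))), by decide +kernel⟩

def k26_A00pm_012_s1 : ∃ t, chk3 f_A00pm_012_s1 t 136 248 1 = true :=
  ⟨(b (a (a (l 524339327) (l 524572287)) (a (l 524796543) (l 525012863))) (a (a (l 524530815) (l 524767871)) (b (a (l 16755872) (b (a (l 16754640) (b (l 16753736) (a (l 16753424) (b (a (l 16753120) (a (l 16752920) (l 16752832))) (a (a (l 16752920) (l 16752832)) (l 16752784)))))) (a (b (l 16753720) (a (b (l 16753536) (a (l 16753376) (l 16753096))) (b (a (l 16753096) (l 16750272)) (l 16750240)))) (b (a (a (b (l 16753112) (l 16750272)) (a (b (l 16752920) (l 16752824)) (l 16752816))) (l 16752744)) (l 16752712))))) (a (b (a (l 16754584) (b (a (l 16753976) (b (l 16753512) (a (l 16753352) (l 16753088)))) (a (b (l 16753496) (a (l 16753328) (l 16753080))) (b (a (l 16753080) (l 16752928)) (l 16752912))))) (a (b (a (l 16753936) (b (l 16753472) (a (l 16753312) (l 16753080)))) (a (b (l 16753456) (a (l 16753296) (l 16753080))) (b (a (l 16753080) (l 16752984))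 (l 16752968)))) (b (a (b (a (l 16753080) (l 16752960)) (l 16752936)) (l 16752840)) (l 16752808)))) (b (a (b (a (b (a (l 16753088) (l 16752912)) (l 16752888)) (l 16752792)) (l 16752760)) (l 16752568)) (l 16752496)))))), by decide +kernel⟩

def k27_A00pm_012_s1 : ∃ t, chk3 f_A00pm_012_s1 t 274 496 1 = true :=
  ⟨(b (a (l 525502591) (b (a (l 16754672) (b (l 16753792) (a (l 16753504) (a (l 16753064) (a (l 16752856) (b (l 16752856) (b (l 16752640) (l 16752544)))))))) (a (b (l 16753784) (a (l 16753488) (b (l 16753056) (a (l 16752904) (b (a (l 16752760) (l 16752648)) (a (l 16752648) (l 16752600))))))) (b (a (b (l 16753064) (a (l 16752912) (a (b (l 16752768) (l 16752640)) (b (l 16752640) (l 16752568))))) (a (b (a (l 16752712) (b (l 16752640) (l 16752560))) (l 16752536)) (l 16752496))) (a (b (a (b (a (l 16752768) (l 16752648)) (a (l 16752648) (l 16752584))) (l 16752552)) (l 16752536)) (l 16752448)))))) (a (b (a (l 16754664) (b (l 16753776) (a (l 16753472) (b (a (l 16753176) (l 16752896))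 (b (a (l 16752952) (a (l 16752752) (l 16752672))) (a (l 16752824) (l 16752664))))))) (a (b (l 16753760) (a (l 16753448) (b (a (l 16753152) (a (l 16752936) (a (l 16752840) (l 16752792)))) (a (b (l 16752936) (l 16750200)) (l 16752728))))) (b (a (b (a (l 16753168) (b (l 16752944) (a (l 16752872) (l 16752752)))) (a (a (l 16752944) (a (l 16752840) (l 16752784))) (a (l 16750112) (l 16752688)))) (b (a (b (a (l 16752752) (l 16752688)) (l 16752680)) (l 16752632)) (l 16752616))) (a (b (l 16750064) (l 16752640)) (l 16752552))))) (b (a (b (a (a (l 16753048) (b (l 16752904) (a (b (l 16752760) (l 16752656)) (l 16752640)))) (a (b (b (a (l 16752760) (l 16752648)) (l 16752632)) (l 16752592)) (l 16752560))) (a (a (a (b (b (l 16752752) (l 16752664)) (l 16752632)) (l 16752624)) (l 16752584)) (l 16752496))) (l 16752368)) (l 16752312)))), by decide +kernel⟩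

def k28_A00pm_012_s1 : ∃ t, chk3 f_A00pm_012_s1 t 275 496 1 = true :=
  ⟨(b (a (b (a (b (a (b (l 16753072) (a (l 16752928) (b (l 16752712) (a (l 16752640) (l 16752536))))) (b (a (b (l 16752720) (a (l 16752640) (l 16752528))) (b (a (l 16752528) (l 16752456)) (l 16752456))) (a (b (a (l 16752528) (l 16752472)) (l 16752472)) (l 16752424)))) (a (b (a (a (l 16752712) (b (l 16752640) (l 16752536))) (b (a (l 16752536) (l 16752488)) (l 16752480))) (a (a (l 16752528) (l 16752496)) (l 16752456))) (l 16752392))) (l 16752264)) (l 16752208)) (l 16751840)) (a (l 16751944) (l 16751488))), by decide +kernel⟩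

def k29_A00pm_012_s1 : ∃ t, chk3 f_A00pm_012_s1 t 137 497 1 = true :=
  ⟨(a (b (a (b (a (b (a (b (a (l 16753136) (b (l 16752928) (l 16750200))) (a (a (l 16752928) (l 16752824)) (l 16752752))) (l 16752688)) (l 16752656)) (l 16752472)) (l 16752400)) (l 16752032)) (l 16751880)) (a (l 16746136) (l 16750912))), by decide +kernel⟩

def k30_A00pm_012_s1 : ∃ t, chk3 f_A00pm_012_s1 t 68 249 1 = true :=
  ⟨(a (b (a (b (a (b (l 16756456) (l 16755152)) (b (a (l 16754512) (b (a (l 16753888) (b (l 16753440) (a (l 16753280) (l 16753088)))) (a (b (l 16753424) (l 16747960)) (l 16753032)))) (a (b (a (l 16753840) (b (l 16753416) (l 16753200))) (a (b (l 16753400) (l 16753216)) (l 16753096))) (l 16752952)))) (a (b (a (l 16754456) (b (a (l 16753808) (b (l 16753400) (l 16753232))) (a (l 16748096) (l 16753152)))) (a (a (b (l 16753784) (l 16753376)) (l 16748040)) (l 16753072))) (l 16752784))) (b (a (b (a (l 16747648) (l 16752656)) (l 16752584)) (l 16752192)) (l 16752024))) (a (l 16752432) (l 16751376)))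 (a (b (b (l 16751472) (l 16751048)) (l 16750360)) (b (l 16750304) (l 16749376)))), by decide +kernel⟩

def k31_A00pm_012_s1 : ∃ t, chk3 f_A00pm_012_s1 t 69 124 1 = true :=
  ⟨(a (b (a (b (b (l 16751176) (l 16750816)) (l 16750232)) (b (l 16750104) (l 16749320))) (a (b (l 16749368) (l 16748408)) (l 16747960))) (b (a (l 16746200) (l 16747920)) (a (l 16747024) (l 16746104)))), by decide +kernel⟩

def k32_A00pm_012_s1 : ∃ t, chk3 f_A00pm_012_s1 t 34 125 1 = true :=
  ⟨(a (b (a (b (a (l 16751576) (l 16750456)) (l 16744832)) (b (l 16748872) (l 16747808))) (a (b (l 16749080) (l 16748072)) (b (l 16746680) (l 16745544)))) (b (a (b (l 16746880) (l 16745720)) (l 16744352)) (a (b (l 16744488) (b (l 16743512) (l 16721616))) (b (a (l 16742944) (l 16741840)) (b (l 16719224) (l 16737472)))))), by decide +kernel⟩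

def k33_A00pm_012_s1 : ∃ t, chk3 f_A00pm_012_s1 t 35 62 1 = true :=
  ⟨(b (a (a (b (a (l 16747024) (l 16746120)) (l 16723752)) (b (l 16744760) (l 16742872))) (a (b (l 16742872) (l 16740984)) (b (l 16740912) (b (l 16737584) (l 16736576))))) (a (b (a (a (l 16742912) (l 16700032)) (b (l 16741192) (l 16738152))) (a (b (a (l 16698024) (l 16737328)) (l 16732360)) (l 16644688))) (b (a (b (l 16737744) (l 16731720)) (l 16727344)) (l 16673992)))), by decide +kernel⟩

def k34_A00pm_012_s1 : ∃ t, chk3 f_A00pm_012_s1 t 17 63 1 = true :=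
  ⟨(b (a (a (b (a (b (l 16746704) (a (b (l 16745832) (l 16744368)) (l 16732512))) (b (a (l 16744744) (l 16721960)) (l 16738840))) (a (b (l 16738928) (l 16733328)) (l 16729056))) (b (a (b (l 16728488) (l 16732280)) (l 16644872)) (l 16695968))) (a (b (l 16695712) (l 16656712)) (b (l 16656408) (l 16636336)))) (a (b (a (l 16679672) (l 16702608)) (a (l 16670912) (l 16690568))) (a (b (l 16681608) (l 16666720)) (b (l 16659008) (l 16641848))))), by decide +kernel⟩

def k35_A00pm_012_s1 : ∃ t, chk3 f_A00pm_012_s1 t 18 14 1 = true :=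
  ⟨(b (b (a (l 3) (a (a (l 528410495) (l 528457087)) (a (l 528503167) (l 528548479)))) (a (a (l 3) (a (a (l 3) (l 528256383)) (l 528292223))) (a (a (l 528340863) (l 528122383)) (a (b (l 528452991) (l 528420223)) (b (l 528499583) (b (l 16733608) (a (l 16741200) (a (l 16738232) (b (l 16737336) (a (l 16733000) (l 16734944))))))))))) (a (b (a (a (b (l 3) (a (a (l 527763727) (l 528045439)) (l 528065151))) (b (a (l 527858703) (l 527884303)) (l 528103551))) (a (b (l 528191247) (l 528155263)) (l 528223359))) (a (b (a (a (l 528003343) (l 528030079)) (l 528068991)) (a (a (l 527968895) (l 527996031)) (b (l 16740568) (a (b (l 16748656) (l 16745728)) (b (l 16744592) (l 16742360)))))) (b (a (l 528121727) (b (l 16745880) (a (l 16742568) (l 16739480)))) (a (b (a (b (l 16746136) (l 16743448)) (b (l 16742304) (l 16740504))) (l 16729688)) (l 16737896))))) (b (a (a (b (l 528290175) (b (l 16748392) (l 16732816))) (b (l 528339327) (b (a (l 16742192) (b (l 16739504) (l 16737464))) (a (b (l 16738608)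 (l 16737200)) (l 16736152))))) (a (a (b (b (l 16744360) (b (l 16740480) (l 16738184))) (b (l 16736016) (l 16734720))) (b (b (l 16740320) (b (a (l 16737576) (l 16736040)) (l 16735560))) (l 16733944))) (b (b (a (b (a (l 16738440) (l 16736616)) (a (l 16731040) (l 16735128))) (b (b (l 16732336) (l 16734600)) (l 16734096))) (l 16733816)) (l 16731784)))) (a (b (a (b (a (l 16740208) (l 16737648)) (l 16737128)) (l 16734896)) (l 16733680)) (b (l 16730560) (l 16727736)))))), by decide +kernel⟩

def k36_A00pm_012_s1 : ∃ t, chk3 f_A00pm_012_s1 t 38 56 1 = true :=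
  ⟨(a (a (c (l 528596863) (l 528321151)) (a (l 528359807) (b (l 528666495) (l 528635007)))) (b (b (a (l 528436095) (l 528481807)) (a (l 528423439) (a (l 16736720) (b (a (l 16734808) (a (l 16733400) (b (l 16732928) (l 16732176)))) (a (b (l 16730680) (b (a (l 16732936) (l 16732272)) (l 16727056))) (l 16721320)))))) (b (a (a (l 16740368) (a (l 16737352) (a (l 16735856) (b (l 16735960) (b (l 16734304) (b (l 16733488) (l 16727792))))))) (a (a (b (l 16734504) (a (b (l 16728136) (l 16727368)) (a (b (l 16727512) (l 16732344)) (l 16732320)))) (b (b (b (l 16728120) (a (l 16733256) (l 16732496))) (a (a (l 16727560) (l 16732488)) (l 16732224))) (l 16731888))) (l 16731160))) (a (a (a (l 16736896) (b (l 16736016) (c (l 16734008) (b (l 16734360) (b (a (l 16733960) (l 16727904)) (a (a (l 16733656) (l 16733248)) (l 16732920))))))) (b (b (a (l 16734576) (a (b (l 16733400) (l 16727728)) (l 16732608))) (a (a (l 16733976) (b (l 16728072) (l 16727688))) (l 16732456))) (c (l 16732288) (a (b (a (a (a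 (l 16728032) (l 16727856)) (l 16732904)) (l 16732632)) (l 16732472)) (l 16731928))))) (a (l 16731216) (l 16729776)))))), by decide +kernel⟩

def k37_A00pm_012_s1 : ∃ t, chk3 f_A00pm_012_s1 t 38 57 1 = true :=
  ⟨(a (b (b (a (l 528553343) (a (l 16739368) (b (l 16731272) (a (a (l 16735680) (b (l 16735256) (b (l 16734392) (l 16728656)))) (a (b (l 16729064) (a (l 16728336) (l 16733352))) (b (a (a (l 16728480) (l 16728296)) (l 16728096)) (l 16733088))))))) (a (l 528269183) (a (a (b (l 16736864) (b (l 16735168) (a (a (l 16734704) (l 16729048)) (l 16723376)))) (a (b (l 16735392) (a (b (l 16728784) (l 16733600)) (l 16733576))) (b (b (l 16734936) (a (l 16728880) (l 16728528))) (l 16733328)))) (b (a (a (b (b (l 16734264) (l 16728568)) (l 16733480)) (l 16728024)) (l 16732760)) (l 16732440))))) (a (b (b (a (l 16739184) (a (l 16736208) (a (b (l 16735248) (l 16729080)) (a (b (l 16724080) (l 16733992)) (l 16728736))))) (a (a (l 16737760) (a (l 16736272) (b (l 16735832) (l 16724336)))) (a (a (b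 (l 16724464) (l 16734288)) (l 16723600)) (l 16733576)))) (a (b (a (c (l 16735616) (b (l 16735976) (l 16732400))) (l 16734304)) (l 16734000)) (l 16732920))) (b (a (l 16732832) (l 16731408)) (l 16730768)))) (b (a (b (a (b (a (a (b (l 16734552) (b (l 16728512) (l 16728112))) (b (a (l 16728608) (a (l 16728272) (l 16728088))) (l 16733048))) (a (b (l 16727792) (l 16732704)) (l 16732512))) (l 16732368)) (l 16731280)) (l 16730632)) (b (l 16729120) (l 16727720))) (a (l 16728544) (l 16725592)))), by decide +kernel⟩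

def k38_A00pm_012_s1 : ∃ t, chk3 f_A00pm_012_s1 t 39 28 1 = true :=
  ⟨(a (b (a (b (b (a (a (a (l 16734560) (b (l 16734568) (b (l 16733032) (l 16732208)))) (b (l 16733232) (l 16731784))) (a (b (l 16731792) (l 16731064)) (l 16730688))) (a (a (a (b (l 16726736) (l 16731296)) (l 16731280)) (l 16730744)) (l 16729664))) (b (l 16729008) (l 16727608))) (b (l 16728200) (l 16725376))) (b (a (l 16725480) (l 16722496)) (l 16721136))) (b (b (l 16723872) (l 16720968)) (l 16716472))), by decide +kernel⟩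

def k39_A00pm_012_s1 : ∃ t, chk3 f_A00pm_012_s1 t 19 29 1 = true :=
  ⟨(a (b (a (b (a (b (l 16732288) (l 16730920)) (l 16728688)) (l 16706440)) (b (l 16703304) (l 16721368))) (a (b (l 16724576) (l 16721616)) (b (l 16718400) (l 16715296)))) (b (a (a (l 16634256) (l 16631112)) (l 16710240)) (a (b (l 16712008) (l 16708744)) (b (l 16705360) (a (l 16703600) (l 16615072)))))), by decide +kernel⟩

def k40_A00pm_012_s1 : ∃ t, chk3 f_A00pm_012_s1 t 9 15 1 = true :=
  ⟨(b (a (a (b (a (b (a (b (a (l 16749608) (b (l 16746888) (a (l 16745168) (l 16743640)))) (a (b (a (l 16746432) (l 16744792)) (l 16744544)) (l 16743312))) (b (a (b (l 16738144) (l 16742472)) (l 16741280)) (l 16741176))) (a (b (l 16743528) (l 16743064)) (l 16740448))) (b (l 16726752) (l 16736000))) (a (b (a (l 16742328) (l 16739624)) (a (l 16740736) (l 16737104))) (b (l 16735432) (a (l 16731040) (l 16726168))))) (b (a (b (l 16731320) (l 16729952)) (l 16682424)) (a (b (l 16729080) (a (l 16722856) (l 16720192))) (b (l 16719880)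 (l 16704984))))) (a (b (a (b (l 16718992) (l 16717312)) (b (l 16712512) (b (l 16710368) (l 16621032)))) (b (a (b (l 16713288) (l 16703464)) (l 16685152)) (l 16582224))) (b (b (a (a (l 16707312) (l 16659912)) (b (a (l 16699344) (l 16689312)) (l 16681872))) (a (b (l 16610992) (l 16680632)) (l 16658712))) (b (l 16557800) (l 16608160))))) (a (b (a (b (a (b (a (l 16735024) (l 16729704)) (a (l 16712128) (l 16725472))) (a (b (l 16726880) (l 16715720)) (l 16629712))) (b (a (l 16629856) (l 16693232)) (a (l 16612856) (l 16675144)))) (b (a (l 16612752) (l 16588264)) (b (a (l 16670232) (l 16644800)) (a (l 16651352) (l 16625512))))) (b (a (b (a (l 16677640) (l 16654872)) (a (l 16655960) (l 16631936))) (a (b (l 16630224) (l 16606360)) (l 16549592))) (a (a (b (l 16635040) (l 16616040)) (b (l 16609688) (l 16589272))) (a (l 16530168) (l 16460088))))) (b (b (a (l 16547400) (l 16571976)) (a (a (l 16524904) (l 16579536)) (l 16449584))) (a (b (a (l 16479152) (l 16533320)) (a (l 16514800) (l 16484360)))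 (b (a (l 16502272) (l 16470528)) (a (l 16453136) (l 16420944))))))), by decide +kernel⟩

def k41_A00pm_012_s1 : ∃ t, chk3 f_A00pm_012_s1 t 40 6 1 = true :=
  ⟨(b (a (b (b (a (l 3) (a (l 3) (b (l 3) (a (a (l 3) (b (l 3) (b (l 3) (l 529385743)))) (a (b (l 3) (l 529392767)) (l 529402495)))))) (a (b (l 3) (a (l 3) (l 529313407))) (b (a (b (a (l 3) (b (l 3) (l 529363327))) (l 529348479)) (a (b (a (l 529372543) (a (l 529375615) (l 529377407))) (l 529361535)) (b (a (l 529380111) (l 529384063)) (l 529369215)))) (a (l 529329023) (l 529076095))))) (a (b (l 528991615) (l 529205375)) (a (l 529260927) (l 529008767)))) (b (a (b (a (a (b (l 529431935) (l 529407615)) (l 529426815)) (l 529435775)) (a (b (a (l 529382783) (l 529390463)) (l 529359743)) (l 529118335))) (b (l 529176191) (l 529127807))) (a (b (l 529062671) (l 529267071)) (b (l 529345919) (b (l 16741984) (l 16737248)))))) (b (a (a (b (l 529149823) (b (l 16741944) (l 16725424))) (b (l 529182591) (b (l 16724472) (l 16720024)))) (b (a (b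 (l 16738864) (a (l 16735096) (l 16732440))) (b (l 16733112) (l 16730352))) (a (l 16718512) (l 16726288)))) (a (b (a (b (a (l 16721272) (l 16729904)) (l 16727904)) (l 16726400)) (a (l 16723656) (l 16720704))) (b (l 16638360) (l 16632504))))), by decide +kernel⟩

def k42_A00pm_012_s1 : ∃ t, chk3 f_A00pm_012_s1 t 82 6 1 = true :=
  ⟨(b (b (a (a (l 529451903) (l 529464703)) (a (b (l 16753544) (l 16745344)) (b (l 16749760) (b (l 16743800) (l 16740104))))) (a (b (b (l 16744272) (l 16739904)) (b (a (l 16736832) (l 16734728)) (l 16732808))) (b (b (a (l 16739136) (l 16737240)) (l 16735384)) (l 16731768)))) (b (b (a (l 16729008) (l 16726552)) (l 16722592)) (b (l 16716792) (l 16710632)))), by decide +kernel⟩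

def k43_A00pm_012_s1 : ∃ t, chk3 f_A00pm_012_s1 t 83 12 1 = true :=
  ⟨(a (b (b (a (b (l 16747912) (l 16744312)) (b (a (l 16745320) (l 16744336)) (l 16742336))) (a (b (a (l 16741416) (l 16740672)) (l 16738648)) (l 16739040))) (b (l 16734904) (l 16687984))) (b (b (b (a (l 16744672) (a (a (a (l 16745104) (a (l 16745648) (a (a (l 16746104) (b (l 16746928) (l 16745888))) (l 16746464)))) (l 16745936)) (l 16744520))) (a (l 16742544) (a (a (a (l 16742984) (a (l 16743536) (a (a (l 16743992) (b (l 16744832) (b (l 16744032) (l 16743488)))) (l 16744360)))) (l 16743832)) (l 16742424)))) (a (a (l 16738752) (a (l 16738840) (l 16739160))) (a (a (a (b (l 16740792) (l 16738512)) (a (b (l 16741336) (l 16739056)) (b (a (a (l 16741800) (b (b (l 16742936) (l 16742384)) (a (a (a (l 16741464) (l 16741608)) (l 16741696)) (l 16741672)))) (l 16739536)) (a (a (l 16739512) (a (a (a (l 16739728) (b (l 16740464) (l 16739296))) (b (l 16740552) (l 16739384))) (b (l 16740528) (l 16739360)))) (b (l 16740456) (l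 16739288)))))) (b (b (l 16742192) (l 16741072)) (b (l 16739928) (l 16738760)))) (b (l 16740232) (l 16737952))))) (b (a (a (l 16734056) (a (l 16734136) (l 16734440))) (b (a (a (a (l 16736152) (a (l 16736680) (a (a (l 16737128) (b (b (l 16738336) (l 16737736)) (b (l 16737120) (l 16736512)))) (b (l 16738096) (l 16736872))))) (a (l 16734568) (l 16736728))) (l 16735576)) (a (a (a (l 16733688) (a (l 16734208) (a (a (l 16734648) (b (l 16735576) (l 16734304))) (l 16734992)))) (l 16734480)) (l 16733096)))) (a (a (l 16729032) (l 16718832)) (a (a (a (l 16719304) (a (b (l 16731640) (l 16728960)) (b (a (a (l 16732064) (l 16727096)) (l 16732400)) (b (l 16730120) (l 16728736))))) (b (l 16731880) (l 16729176))) (b (l 16730512) (l 16727824))))))), by decide +kernel⟩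

def k44_A00pm_012_s1 : ∃ t, chk3 f_A00pm_012_s1 t 83 13 1 = true :=
  ⟨(b (a (b (l 16640744) (l 16718968)) (b (a (a (l 16723648) (l 16681904)) (a (a (a (l 16640360) (a (l 16724696) (b (l 16726608) (l 16723664)))) (l 16724872)) (l 16723528))) (a (l 16718128) (a (a (a (l 16718224) (l 16718792)) (l 16718704)) (l 16717392))))) (b (a (l 16712904) (a (l 16711768) (l 16710744))) (a (l 16706376) (a (l 16704864) (l 16703224))))), by decide +kernel⟩

def k45_A00pm_012_s1 : ∃ t, chk3 f_A00pm_012_s1 t 21 6 1 = true :=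
  ⟨(b (a (a (b (b (b (l 16715080) (l 16723504)) (a (b (l 16735568) (l 16733312)) (l 16726984))) (b (a (b (l 16730960) (l 16728512)) (l 16722368)) (b (l 16701360) (l 16677752)))) (b (b (l 16720000) (l 16715848)) (b (l 16711368) (l 16706520)))) (b (a (l 16661040) (l 16688128)) (b (l 16689456) (l 16684920)))) (b (a (b (b (l 16667880) (l 16623136)) (l 16702600)) (b (l 16680032) (l 16674760))) (b (l 16714216) (l 16676200)))), by decide +kernel⟩

def k46_A00pm_012_s1 : ∃ t, chk3 f_A00pm_012_s1 t 11 6 1 = true :=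
  ⟨(b (a (b (a (l 16665976) (l 16636488)) (a (l 16658240) (l 16629432))) (b (l 16508664) (l 16586504))) (b (a (a (l 16649440) (l 16621592)) (l 16580088)) (a (l 16626224) (l 16489304)))), by decide +kernel⟩

def k47_A00pm_012_s1 : ∃ t, chk3 f_A00pm_012_s1 t 5 14 1 = true :=
  ⟨(a (a (a (b (a (b (l 16632488) (l 16710160)) (b (l 16710208) (l 16703648))) (b (a (l 16619712) (b (l 16698456) (a (l 16696560) (l 16648840)))) (a (b (a (l 16700120) (l 16695496)) (a (b (l 16696352) (l 16688408)) (b (l 16686752) (l 16672496)))) (b (a (b (l 16692216) (l 16684192)) (l 16673584)) (l 16569672))))) (b (b (a (l 16704048) (a (l 16699320) (a (a (l 16697168) (l 16694152)) (a (a (a (l 16691824) (b (l 16695576) (l 16679440))) (l 16684648)) (l 16683528))))) (a (a (l 16698488) (l 16694376)) (a (b (l 16691632) (a (l 16686648) (l 16676432))) (a (a (l 16674952) (l 16664152)) (l 16650080))))) (b (a (a (b (l 16692136) (a (l 16600392) (l 16676160))) (b (a (l 16686664) (l 16679032)) (l 16659680))) (a (l 16647144)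 (a (l 16622528) (l 16604696)))) (a (a (l 16555744) (l 16618584)) (a (l 16594104) (a (l 16570576) (l 16553600))))))) (b (b (a (l 16670816) (l 16647040)) (l 16533392)) (b (l 16569480) (l 16515624)))) (b (b (a (l 16527336) (l 16479768)) (a (l 16569544) (l 16525728))) (a (b (l 16517032) (l 16457624)) (b (l 16469296) (l 16405128))))), by decide +kernel⟩

def k48_A00pm_012_s1 : ∃ t, chk3 f_A00pm_012_s1 t 5 15 1 = true :=
  ⟨(b (b (a (a (a (a (b (l 16573960) (l 16626936)) (l 16524168)) (a (l 16485680) (a (l 16536312) (a (l 16514144) (l 16498248))))) (l 16457144)) (a (l 16392728) (l 16334600))) (a (a (a (b (l 16493264) (l 16543368)) (a (l 16506400) (a (l 16474648) (a (l 16454136) (l 16439528))))) (l 16394944)) (a (l 16323208) (l 16258544)))) (a (a (a (b (b (l 16506968) (l 16384384)) (b (l 16337064) (l 16371480))) (a (b (b (l 16453888) (l 16415920)) (b (l 16369424) (l 16320856))) (b (a (b (l 16423480) (l 16386512)) (b (a (l 16404408) (l 16390920)) (a (l 16368496) (l 16355840)))) (b (a (l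 16341096) (a (l 16324232) (l 16312464))) (a (l 16293712) (a (l 16278088) (l 16267280))))))) (b (b (l 16343360) (l 16306240)) (b (l 16260728) (l 16213296)))) (b (b (l 16230128) (l 16186600)) (a (l 16147752) (l 16067152))))), by decide +kernel⟩

def k49_A00pm_012_s1 : ∃ t, chk3 f_A00pm_012_s1 t 3 1 1 = true :=
  ⟨(a (b (b (l 2) (b (l 2) (a (b (l 2) (a (l 16540064) (l 2))) (l 2)))) (a (a (b (b (b (l 16533992) (l 16529152)) (b (l 16524496) (l 16520040))) (b (b (b (l 16515224) (l 16485256)) (b (l 16425520) (l 16357416))) (b (l 16074144) (l 6)))) (b (b (b (l 16475424) (l 16471664)) (b (l 16468592) (l 16466408))) (b (b (b (l 16465440) (l 16361608)) (b (l 16384928) (l 6))) (l 6)))) (a (b (b (b (l 2) (l 16413816)) (b (l 16412120) (l 16411960))) (l 6)) (b (l 6) (l 6))))) (b (l 2) (l 6))), by decide +kernel⟩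

theorem t50_A00pm_012_s1 : ∃ t, chk3 f_A00pm_012_s1 t 5 7 1 = true := ex3_b k47_A00pm_012_s1 k48_A00pm_012_s1

theorem t51_A00pm_012_s1 : ∃ t, chk3 f_A00pm_012_s1 t 83 6 1 = true := ex3_b k43_A00pm_012_s1 k44_A00pm_012_s1

theorem t52_A00pm_012_s1 : ∃ t, chk3 f_A00pm_012_s1 t 41 6 1 = true := ex3_a k42_A00pm_012_s1 t51_A00pm_012_s1

theorem t53_A00pm_012_s1 : ∃ t, chk3 f_A00pm_012_s1 t 20 6 1 = true := ex3_a k41_A00pm_012_s1 t52_A00pm_012_s1

theorem t54_A00pm_012_s1 : ∃ t, chk3 f_A00pm_012_s1 t 10 6 1 = true := ex3_a t53_A00pm_012_s1 k45_A00pm_012_s1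

theorem t55_A00pm_012_s1 : ∃ t, chk3 f_A00pm_012_s1 t 5 6 1 = true := ex3_a t54_A00pm_012_s1 k46_A00pm_012_s1

theorem t56_A00pm_012_s1 : ∃ t, chk3 f_A00pm_012_s1 t 5 3 1 = true := ex3_b t55_A00pm_012_s1 t50_A00pm_012_s1

theorem t57_A00pm_012_s1 : ∃ t, chk3 f_A00pm_012_s1 t 38 28 1 = true := ex3_b k36_A00pm_012_s1 k37_A00pm_012_s1

theorem t58_A00pm_012_s1 : ∃ t, chk3 f_A00pm_012_s1 t 19 28 1 = true := ex3_a t57_A00pm_012_s1 k38_A00pm_012_s1

theorem t59_A00pm_012_s1 : ∃ t, chk3 f_A00pm_012_s1 t 19 14 1 = true := ex3_b t58_A00pm_012_s1 k39_A00pm_012_s1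

theorem t60_A00pm_012_s1 : ∃ t, chk3 f_A00pm_012_s1 t 9 14 1 = true := ex3_a k35_A00pm_012_s1 t59_A00pm_012_s1

theorem t61_A00pm_012_s1 : ∃ t, chk3 f_A00pm_012_s1 t 9 7 1 = true := ex3_b t60_A00pm_012_s1 k40_A00pm_012_s1

theorem t62_A00pm_012_s1 : ∃ t, chk3 f_A00pm_012_s1 t 137 496 1 = true := ex3_a k27_A00pm_012_s1 k28_A00pm_012_s1

theorem t63_A00pm_012_s1 : ∃ t, chk3 f_A00pm_012_s1 t 137 248 1 = true := ex3_b t62_A00pm_012_s1 k29_A00pm_012_s1

theorem t64_A00pm_012_s1 : ∃ t, chk3 f_A00pm_012_s1 t 68 248 1 = true := ex3_a k26_A00pm_012_s1 t63_A00pm_012_s1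

theorem t65_A00pm_012_s1 : ∃ t, chk3 f_A00pm_012_s1 t 68 124 1 = true := ex3_b t64_A00pm_012_s1 k30_A00pm_012_s1

theorem t66_A00pm_012_s1 : ∃ t, chk3 f_A00pm_012_s1 t 34 124 1 = true := ex3_a t65_A00pm_012_s1 k31_A00pm_012_s1

theorem t67_A00pm_012_s1 : ∃ t, chk3 f_A00pm_012_s1 t 34 62 1 = true := ex3_b t66_A00pm_012_s1 k32_A00pm_012_s1

theorem t68_A00pm_012_s1 : ∃ t, chk3 f_A00pm_012_s1 t 17 62 1 = true := ex3_a t67_A00pm_012_s1 k33_A00pm_012_s1

theorem t69_A00pm_012_s1 : ∃ t, chk3 f_A00pm_012_s1 t 17 31 1 = true := ex3_b t68_A00pm_012_s1 k34_A00pm_012_s1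

theorem t70_A00pm_012_s1 : ∃ t, chk3 f_A00pm_012_s1 t 35 30 1 = true := ex3_b k24_A00pm_012_s1 k25_A00pm_012_s1

theorem t71_A00pm_012_s1 : ∃ t, chk3 f_A00pm_012_s1 t 138 247 1 = true := ex3_a k21_A00pm_012_s1 k22_A00pm_012_s1

theorem t72_A00pm_012_s1 : ∃ t, chk3 f_A00pm_012_s1 t 138 123 1 = true := ex3_b k20_A00pm_012_s1 t71_A00pm_012_s1

theorem t73_A00pm_012_s1 : ∃ t, chk3 f_A00pm_012_s1 t 69 123 1 = true := ex3_a t72_A00pm_012_s1 k23_A00pm_012_s1

theorem t74_A00pm_012_s1 : ∃ t, chk3 f_A00pm_012_s1 t 69 61 1 = true := ex3_b k19_A00pm_012_s1 t73_A00pm_012_s1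

theorem t75_A00pm_012_s1 : ∃ t, chk3 f_A00pm_012_s1 t 68 61 1 = true := ex3_b k17_A00pm_012_s1 k18_A00pm_012_s1

theorem t76_A00pm_012_s1 : ∃ t, chk3 f_A00pm_012_s1 t 34 61 1 = true := ex3_a t75_A00pm_012_s1 t74_A00pm_012_s1

theorem t77_A00pm_012_s1 : ∃ t, chk3 f_A00pm_012_s1 t 34 30 1 = true := ex3_b k16_A00pm_012_s1 t76_A00pm_012_s1

theorem t78_A00pm_012_s1 : ∃ t, chk3 f_A00pm_012_s1 t 17 30 1 = true := ex3_a t77_A00pm_012_s1 t70_A00pm_012_s1

theorem t79_A00pm_012_s1 : ∃ t, chk3 f_A00pm_012_s1 t 17 15 1 = true := ex3_b t78_A00pm_012_s1 t69_A00pm_012_s1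

theorem t80_A00pm_012_s1 : ∃ t, chk3 f_A00pm_012_s1 t 33 62 1 = true := ex3_b k13_A00pm_012_s1 k14_A00pm_012_s1

theorem t81_A00pm_012_s1 : ∃ t, chk3 f_A00pm_012_s1 t 33 31 1 = true := ex3_b t80_A00pm_012_s1 k15_A00pm_012_s1

theorem t82_A00pm_012_s1 : ∃ t, chk3 f_A00pm_012_s1 t 32 127 1 = true := ex3_a k11_A00pm_012_s1 k12_A00pm_012_s1

theorem t83_A00pm_012_s1 : ∃ t, chk3 f_A00pm_012_s1 t 32 63 1 = true := ex3_b k10_A00pm_012_s1 t82_A00pm_012_s1

theorem t84_A00pm_012_s1 : ∃ t, chk3 f_A00pm_012_s1 t 32 31 1 = true := ex3_b k9_A00pm_012_s1 t83_A00pm_012_s1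

theorem t85_A00pm_012_s1 : ∃ t, chk3 f_A00pm_012_s1 t 16 31 1 = true := ex3_a t84_A00pm_012_s1 t81_A00pm_012_s1

theorem t86_A00pm_012_s1 : ∃ t, chk3 f_A00pm_012_s1 t 16 15 1 = true := ex3_b k8_A00pm_012_s1 t85_A00pm_012_s1

theorem t87_A00pm_012_s1 : ∃ t, chk3 f_A00pm_012_s1 t 8 15 1 = true := ex3_a t86_A00pm_012_s1 t79_A00pm_012_s1

theorem t88_A00pm_012_s1 : ∃ t, chk3 f_A00pm_012_s1 t 8 7 1 = true := ex3_b k7_A00pm_012_s1 t87_A00pm_012_s1

theorem t89_A00pm_012_s1 : ∃ t, chk3 f_A00pm_012_s1 t 4 7 1 = true := ex3_a t88_A00pm_012_s1 t61_A00pm_012_s1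

theorem t90_A00pm_012_s1 : ∃ t, chk3 f_A00pm_012_s1 t 4 3 1 = true := ex3_b k6_A00pm_012_s1 t89_A00pm_012_s1

theorem t91_A00pm_012_s1 : ∃ t, chk3 f_A00pm_012_s1 t 2 3 1 = true := ex3_a t90_A00pm_012_s1 t56_A00pm_012_s1

theorem t92_A00pm_012_s1 : ∃ t, chk3 f_A00pm_012_s1 t 20 5 1 = true := ex3_a k2_A00pm_012_s1 k3_A00pm_012_s1

theorem t93_A00pm_012_s1 : ∃ t, chk3 f_A00pm_012_s1 t 10 5 1 = true := ex3_a t92_A00pm_012_s1 k4_A00pm_012_s1

theorem t94_A00pm_012_s1 : ∃ t, chk3 f_A00pm_012_s1 t 10 2 1 = true := ex3_b k1_A00pm_012_s1 t93_A00pm_012_s1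

theorem t95_A00pm_012_s1 : ∃ t, chk3 f_A00pm_012_s1 t 5 2 1 = true := ex3_a t94_A00pm_012_s1 k5_A00pm_012_s1

theorem t96_A00pm_012_s1 : ∃ t, chk3 f_A00pm_012_s1 t 2 2 1 = true := ex3_a k0_A00pm_012_s1 t95_A00pm_012_s1

theorem t97_A00pm_012_s1 : ∃ t, chk3 f_A00pm_012_s1 t 2 1 1 = true := ex3_b t96_A00pm_012_s1 t91_A00pm_012_s1

theorem t98_A00pm_012_s1 : ∃ t, chk3 f_A00pm_012_s1 t 1 1 1 = true := ex3_a t97_A00pm_012_s1 k49_A00pm_012_s1

theorem c_A00pm_012_s1 : CertF 0 536870912 536870912 536870912 1045395039 1503240 true true false .pnp 0 1 2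
    ndB0q0 ndB0q1 pcB2 cut_A00pm_012_s1 xt_A00pm_012_s1 :=
  certF2 (fam := true) (s1 := true) (s2 := false) (a := 0) (b := 1) (c := 2) (cn := .pnp) (n1 := ndB0q0) (n2 := ndB0q1) (pc := pcB2) (cut := cut_A00pm_012_s1) (xt := xt_A00pm_012_s1) (P1 := 0) (W1 := 536870912) (P2 := 536870912) (W2 := 536870912) (P3 := 1045395039) (W3 := 1503240)
    rfl (fun _ => rfl) t98_A00pm_012_s1

theorem s_A00pm_012_s1 {κ x : ℝ} (hκ : κ * h0 = ken x) (hx : ((1045395039 : ℕ) : ℝ) / S ≤ x)
    (hx' : x ≤ (((1045395039 : ℕ) : ℝ) + (1503240 : ℕ)) / S)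
    (H : CutA (VFD κ) PP tK tL pcB (Cut.of [[⟨0, 0, 0, 13421772⟩, ⟨1, 1, 0, 13421772⟩, ⟨2, 1, 0, 13421772⟩]]) 0 1 2 0 0 (sgb true) (sgb false) x) :
    AltA (VFD κ) PP tK tL pcB [⟨3, 0, 0, 1449551462⟩] 0 1 2 0 0 (sgb true) (sgb false) x :=
  strip_altAD (m := 1449551462) true rfl hκ (SH.κ0 hκ (SH.hx1 hx).le (SH.hx2 hx').le) (SH.hx1 hx).le (SH.hx2 hx') (covB00).cov (covB01).cov hx hx' c_A00pm_012_s1 H ((okx hx hx').extA (T := tt) (sideB hx hx') hκ rfl rfl (.O 0 true) (.O 1 false) rfl)

end Pool.Agent.Strip051.G.I9736_9750.Tab.St.C
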