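import Pool.Agent.Strip051.G.I9736_9750.Tab
import Pool.Agent.Strip051.PB.ExtD3

/-! # Certificates B18 (generated) -/

set_option linter.all false
set_option maxRecDepth 100000

namespace Pool.Agent.Strip051.G.I9736_9750.Tab.C.BB05

open Pool.Agent.Strip051.PB Pool.Agent.Strip051.PB.T
open Pool.Agent.Strip051.G.I9736_9750.Tab

noncomputable def cut_pm_213 : Cut := Cut.of [[⟨0, 1, 0, 14155776⟩, ⟨1, 1, 0, 14155776⟩, ⟨2, 2, 0, 524288⟩]]

noncomputable def xt_pm_213 : Ext := extD3 3 ⟨4, 1, 1, 5, 33, 5, 163, 200, 81, 200, 1, 64⟩ eng cd0q2 cd5q3 pd1 false true false .pnn 2 1 3 rfl ndB0q2 ndB5q3 pcB1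

noncomputable def f_pm_213 : ℕ → ℕ → ℕ → ℕ → Bool := onCell 0 536870912 0 1230186008 1045395039 1503240
    (rowB 3 eng mog cd0q2 cd5q3 pd1 0 false true false .pnn 2 1 3 (qsf 0 536870912 0 1230186008 1) ndB0q2 ndB5q3 pcB1 cut_pm_213 xt_pm_213)

def k0_pm_213 : ∃ t, chk3 f_pm_213 t 2 4 1 = true :=
  ⟨(l 3), by decide +kernel⟩

def k1_pm_213 : ∃ t, chk3 f_pm_213 t 6 4 1 = true :=
  ⟨(l 3), by decide +kernel⟩

def k2_pm_213 : ∃ t, chk3 f_pm_213 t 14 4 1 = true :=
  ⟨(b (l 3) (b (a (l 3) (a (l 3) (b (a (l 3) (b (l 3) (a (l 3) (b (l 3) (a (l 3) (l 334638226295)))))) (a (b (l 3) (a (b (l 3) (a (l 3) (b (l 3) (l 147807092759)))) (b (a (l 3) (b (l 231558974855) (l 148343971815))) (l 157470762839)))) (b (a (b (l 3) (a (b (l 3) (l 196125499159)) (b (l 200420471207) (l 156933921735)))) (b (a (b (l 3) (a (l 196125510551) (l 152102092567))) (l 157470807863)) (l 164986992999))) (a (b (l 160691997047) (l 16675456)) (l 16673504))))))) (a (b (l 3) (a (l 3) (a (l 3) (b (l 352891752567) (a (l 205252215671)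 (l 174650594407)))))) (a (b (a (b (l 3) (a (l 3) (b (l 3) (l 200420405095)))) (b (a (l 3) (b (l 313700206359) (l 154786391991))) (a (l 182166808679) (l 16655576)))) (a (b (a (l 202567870327) (l 169818765911)) (l 16627600)) (l 16617520))) (b (a (b (a (b (a (l 163376339207) (l 162839476167)) (l 16666664)) (l 16663976)) (l 16639840)) (l 16633176)) (l 16579328)))))), by decide +kernel⟩

def k3_pm_213 : ∃ t, chk3 f_pm_213 t 30 16 1 = true :=
  ⟨(l 3), by decide +kernel⟩

def k4_pm_213 : ∃ t, chk3 f_pm_213 t 60 17 1 = true :=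
  ⟨(b (l 3) (a (l 3) (b (l 3) (a (l 3) (b (a (l 3) (b (l 3) (a (l 3) (b (l 3) (a (l 3) (b (l 3) (l 198273081079))))))) (a (b (l 3) (a (b (l 3) (a (l 3) (b (l 3) (l 129016715927)))) (b (a (l 3) (b (l 198273070119) (l 140827887895))) (l 153712778647)))) (b (a (b (l 3) (a (b (l 3) (l 118816177271)) (l 142975369351))) (b (a (b (l 3) (l 134922309015)) (b (l 142975374935) (l 16746200))) (l 170355789127))) (a (b (l 161765852935) (l 16739872)) (l 16741024))))))))), by decide +kernel⟩

def k5_pm_213 : ∃ t, chk3 f_pm_213 t 122 34 1 = true :=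
  ⟨(l 3), by decide +kernel⟩

def k6_pm_213 : ∃ t, chk3 f_pm_213 t 123 68 1 = true :=
  ⟨(a (l 3) (b (l 3) (a (l 3) (b (l 3) (a (l 3) (b (l 3) (l 7923299821898264816195928159))))))), by decide +kernel⟩

def k7_pm_213 : ∃ t, chk3 f_pm_213 t 246 69 1 = true :=
  ⟨(b (l 3) (a (b (l 3) (a (l 3) (b (l 3) (a (l 3) (b (l 362018746375) (a (b (l 3) (l 135996092167)) (l 155860316119))))))) (b (a (l 3) (b (l 435570062039) (a (b (l 3) (a (b (l 3) (a (l 3) (l 217600473047))) (b (l 4238493923712945322992173087) (l 164450252887)))) (b (a (b (l 3) (l 4209479704042189206277521439)) (l 2855482786073637817156321311)) (l 16768312))))) (a (b (a (b (l 3) (a (l 3) (b (l 3) (l 220284826647)))) (b (a (l 3) (b (l 361481877143) (l 146196641223))) (l 2903839818858387636008943647))) (a (b (a (b (l 4074080012245357129619914783) (l 153712832951)) (l 169282089559)) (l 16767232)) (l 16767448))) (l 178945765911))))), by decide +kernel⟩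

def k8_pm_213 : ∃ t, chk3 f_pm_213 t 247 69 1 = true :=
  ⟨(b (a (b (l 3) (a (b (l 3) (a (l 3) (b (l 3) (a (l 3) (b (l 362555621591) (a (l 222969184471) (l 16769208))))))) (b (a (l 3) (b (l 435033195623) (a (b (l 3) (a (l 360945009783) (l 150491611815))) (b (a (l 229948507591) (l 16767216)) (l 16769760))))) (a (b (a (b (l 3) (a (l 3) (l 4190136890928331499984404639))) (b (a (l 363629364007) (l 227801023367)) (l 164450255511))) (l 171429576903)) (l 16769544))))) (b (a (b (l 3) (a (b (l 3) (a (l 3) (b (l 3) (a (l 364703107063) (l 228337895639))))) (b (a (l 3) (b (l 364166236791) (a (l 4296522363054393647312633951) (l 16770120)))) (a (b (a (l 361481881927) (l 149954742135)) (l 16770240)) (l 16770344))))) (b (a (b (l 3) (a (b (l 3) (a (l 3) (b (l 3) (l 225116670743)))) (b (a (l 365239979159) (l 4402907835180471050363420767)) (l 166060870775)))) (b (a (b (l 3) (a (l 6598317123600635776204243039) (b (l 232095993191) (l 16770904)))) (b (a (b (l 365239979799) (l 232632864263)) (l 163913387639))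 (l 16770968))) (l 16770840))) (a (b (a (b (a (l 4315865176168223865817595999) (l 16770592)) (l 16770512)) (l 16770608)) (l 16770440)) (l 16770640)))) (a (b (a (b (a (b (a (l 3) (b (l 3) (l 225116669543))) (l 2807125753289149201035886751)) (l 172503320455)) (l 16769896)) (l 16770096)) (l 16769736)) (l 16770144)))) (a (b (a (b (a (b (a (l 3) (b (l 3) (a (l 363092491815) (l 227801022087)))) (a (b (a (l 3) (l 225116667303)) (l 155860319319)) (l 170892704999))) (b (a (b (l 4209479704042174706469273631) (l 16768976)) (l 16769088)) (l 16768896))) (l 16768592)) (l 16769008)) (l 16768208)) (l 16769064))), by decide +kernel⟩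

def k9_pm_213 : ∃ t, chk3 f_pm_213 t 122 70 1 = true :=
  ⟨(a (b (l 3) (a (l 3) (b (l 3) (a (l 3) (b (a (l 3) (b (l 3) (a (l 3) (l 202031200615)))) (a (b (l 3) (a (b (l 3) (l 119353072679)) (l 144049134103))) (b (a (l 125795528919) (l 155860295095)) (l 175724516503)))))))) (b (a (l 3) (b (a (l 3) (b (l 3) (l 7778228723544495159008444447))) (a (b (l 3) (a (b (l 3) (a (l 3) (b (l 3) (l 127943023127)))) (b (a (l 360408129159) (b (l 206863048759) (l 146196635367))) (l 157470923831)))) (b (a (b (l 3) (a (b (l 3) (l 213842370999)) (l 142438539543))) (b (a (b (l 3) (l 136532960103)) (l 155323442295)) (l 16765456))) (l 173577051495))))) (a (b (a (b (l 3) (a (l 3) (b (l 3) (a (l 356650028023) (l 130627374471))))) (b (a (l 3) (b (a (l 3) (b (l 3) (l 205789305415))) (a (b (l 198809983159) (l 138143565351)) (l 155323435639)))) (a (b (a (b (l 3) (l 119889952071)) (l 142975402615)) (l 166597720087)) (l 16763800)))) (a (b (a (b (a (l 3) (b (l 3) (l 129016753175))) (a (l 138680428279) (l 168208328359)))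 (b (l 157470912215) (l 16760728))) (l 16759168)) (l 16761112))) (b (a (b (a (b (l 151028470871) (l 16764248)) (l 16764480)) (l 16763992)) (l 16764456)) (l 16763184))))), by decide +kernel⟩

def k10_pm_213 : ∃ t, chk3 f_pm_213 t 122 71 1 = true :=
  ⟨(a (b (a (b (a (l 3) (b (l 3) (a (l 3) (b (a (l 3) (l 200957447031)) (a (l 126869258951) (l 155323416983)))))) (a (b (a (l 3) (b (l 3) (l 124721770679))) (a (b (a (l 3) (l 122574284759)) (l 148344089943)) (l 162302732647))) (b (a (b (l 133311707607) (l 164987089831)) (l 16751512)) (l 16749328)))) (b (a (b (a (b (l 3) (a (l 3) (l 120426812631))) (b (a (l 196662484359) (l 132237975143)) (l 158007773911))) (a (b (a (l 138680421015) (l 167671448775)) (l 16753264)) (l 16754040))) (b (a (l 170892675671) (l 16756672)) (l 16754552))) (l 16751144))) (a (b (l 16745880) (l 16741232)) (l 16744448))) (l 16751792)), by decide +kernel⟩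

def k11_pm_213 : ∃ t, chk3 f_pm_213 t 123 35 1 = true :=
  ⟨(b (a (b (a (b (a (b (a (l 3) (b (l 3) (a (l 3) (b (l 359871261623) (l 145659767431))))) (a (b (a (l 3) (b (l 3) (l 220284823559))) (l 2710411687719982577902649375)) (l 165523990343))) (b (a (a (b (b (l 3) (l 219747953975)) (l 162302765959)) (l 2865154192630685348836392991)) (l 16766832)) (l 16766392))) (l 16765672)) (l 16766576)) (l 16764648)) (l 16766504)) (l 16762200)), by decide +kernel⟩

def k12_pm_213 : ∃ t, chk3 f_pm_213 t 62 32 1 = true :=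
  ⟨(l 3), by decide +kernel⟩

def k13_pm_213 : ∃ t, chk3 f_pm_213 t 124 66 1 = true :=
  ⟨(l 3), by decide +kernel⟩

def k14_pm_213 : ∃ t, chk3 f_pm_213 t 248 67 1 = true :=
  ⟨(l 3), by decide +kernel⟩

def k15_pm_213 : ∃ t, chk3 f_pm_213 t 249 134 1 = true :=
  ⟨(l 3), by decide +kernel⟩

def k16_pm_213 : ∃ t, chk3 f_pm_213 t 498 135 1 = true :=
  ⟨(l 3), by decide +kernel⟩

def k17_pm_213 : ∃ t, chk3 f_pm_213 t 499 270 1 = true :=
  ⟨(a (l 3) (b (l 3) (a (l 3) (b (l 3) (a (l 3) (b (l 3) (a (l 3) (b (l 3) (a (l 3) (a (l 3) (b (l 3) (b (l 368461213223) (l 235317226999))))))))))))), by decide +kernel⟩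

def k18_pm_213 : ∃ t, chk3 f_pm_213 t 998 271 1 = true :=
  ⟨(b (l 3) (a (b (l 3) (a (l 3) (b (l 3) (a (l 445233752167) (b (a (l 3) (l 366313728375)) (a (b (l 365776857271) (l 241759676471)) (l 173040199783))))))) (b (a (l 3) (b (a (l 3) (b (l 3) (a (l 3) (b (l 3) (c (l 363629374103) (l 363629374103)))))) (a (b (l 445233752647) (a (a (l 439865043575) (b (l 3) (l 235854096935))) (b (c (l 239612193191) (l 239612193175)) (l 16774520)))) (b (a (b (l 365776857687) (l 241759676887)) (l 173040200199)) (l 16774544))))) (a (b (a (b (l 3) (a (l 3) (b (l 443623139815) (l 239612192967)))) (b (a (l 373829921287) (b (l 363629373895) (l 163913394663))) (a (b (l 241759676679) (l 16774440)) (l 16774456)))) (a (b (a (a (b (l 365776857367) (l 16774384)) (l 163913394343)) (l 16774408)) (l 16774384)) (l 16774424))) (l 16774488))))), by decide +kernel⟩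

def k19_pm_213 : ∃ t, chk3 f_pm_213 t 999 271 1 = true :=
  ⟨(b (a (b (l 3) (a (b (l 3) (a (l 3) (b (l 3) (a (l 437717560231) (b (a (l 3) (l 229948517255)) (l 163913395079)))))) (b (a (l 446307494823) (b (a (l 3) (a (l 3) (b (l 3) (l 229948517463)))) (a (b (l 367924341911) (c (l 241759677303) (l 241759677303))) (l 173040200615)))) (a (b (a (a (l 440401914903) (b (l 3) (l 235854097351))) (a (b (l 363629374423) (l 16774720)) (l 173040200695))) (l 16774704)) (l 16774744))))) (b (a (b (l 3) (a (b (l 3) (a (l 3) (b (l 445233753383) (a (l 363629374615) (l 159618428103))))) (b (a (l 438254431543) (b (a (l 3) (b (l 368461213031) (l 235317226807))) (l 163913395495))) (a (a (b (l 235317226711) (l 16774848)) (l 16774856)) (l 16774872))))) (b (a (b (l 446307495287) (a (a (l 440938786215) (b (l 3) (l 235317226839))) (a (b (l 363629374823) (l 16774928)) (l 173040201111)))) (b (a (b (l 367924342311) (a (l 235317226919) (l 16774960))) (l 173577071927)) (l 16774960))) (l 16774920))) (a (b (a (b (a (b (a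 (l 366850600023) (l 235317226647)) (l 16774800)) (l 16774824)) (l 16774800)) (l 16774840)) (l 16774792)) (l 16774872)))) (a (b (a (b (a (b (a (l 3) (a (l 366850599815) (b (l 368461212503) (l 160155298615)))) (a (a (b (l 366313728711) (l 16774592)) (l 163913394775)) (l 16774616))) (b (a (b (l 241759677095) (l 16774648)) (l 16774664)) (l 16774640))) (l 16774600)) (l 16774680)) (l 16774584)) (l 16774744))), by decide +kernel⟩

def k20_pm_213 : ∃ t, chk3 f_pm_213 t 250 66 1 = true :=
  ⟨(l 3), by decide +kernel⟩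

def k21_pm_213 : ∃ t, chk3 f_pm_213 t 251 132 1 = true :=
  ⟨(a (l 3) (b (l 3) (a (l 3) (b (l 3) (a (l 3) (b (l 3) (a (l 3) (b (l 3) (a (l 3) (b (l 3) (b (l 3) (b (l 3) (a (l 3) (a (l 3) (a (l 7101230264560386109201842271) (b (a (l 440401918567) (l 4896149569583304006366298207)) (l 177872042615))))))))))))))))), by decide +kernel⟩

def k22_pm_213 : ∃ t, chk3 f_pm_213 t 502 266 1 = true :=
  ⟨(l 3), by decide +kernel⟩

def k23_pm_213 : ∃ t, chk3 f_pm_213 t 1004 267 1 = true :=
  ⟨(b (l 3) (a (l 3) (b (l 3) (a (l 3) (b (a (l 3) (b (l 3) (b (l 3) (b (l 3) (a (l 3) (a (l 3) (a (l 369534957479) (l 249275873223)))))))) (a (b (l 3) (b (a (l 3) (b (a (l 3) (a (l 369534957463) (l 249275873207))) (a (a (l 442549401575) (a (l 367387473831) (l 245517776823))) (l 16776240)))) (a (a (l 443086272519) (a (b (l 3) (b (l 367387473911) (l 16776232))) (b (b (l 3) (l 235317229479)) (l 16776232)))) (c (l 185925105607) (l 185388234695))))) (b (b (a (a (l 3) (a (l 3) (b (l 3) (b (l 3) (l 235317229495))))) (a (a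 (b (l 442549401591) (c (l 255718324167) (l 255181453255))) (b (a (l 367387473847) (l 245517776839)) (l 16776240))) (l 16775920))) (a (a (b (l 438254434183) (a (b (l 372756183031) (l 243907164087)) (l 171966461879))) (a (b (b (l 367387473927) (l 16776240)) (l 16776240)) (l 16776240))) (l 16776248))) (l 16776256)))))))), by decide +kernel⟩

def k24_pm_213 : ∃ t, chk3 f_pm_213 t 2010 534 1 = true :=
  ⟨(l 3), by decide +kernel⟩

def k25_pm_213 : ∃ t, chk3 f_pm_213 t 2011 1068 1 = true :=
  ⟨(a (l 3) (b (l 3) (a (l 3) (b (l 3) (b (l 3) (b (l 3) (a (l 3) (a (l 3) (a (c (l 370608699447) (l 370608699447)) (a (b (l 371682441367) (l 16776312)) (l 259476420775))))))))))), by decide +kernel⟩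

def k26_pm_213 : ∃ t, chk3 f_pm_213 t 4022 1069 1 = true :=
  ⟨(b (l 3) (a (b (l 3) (b (l 3) (a (l 3) (b (a (l 3) (a (l 369534957575) (a (b (l 370608699495) (l 16776288)) (l 169818978327)))) (a (a (l 444160014407) (b (l 370071828567) (l 251423356951))) (l 184851363863)))))) (b (b (b (l 3) (a (l 3) (a (l 3) (a (l 369534957591) (a (b (l 370608699511) (l 16776296)) (l 169818978343)))))) (a (a (l 3) (a (l 3) (a (l 443086272583) (b (l 3) (b (l 3) (l 246591518839)))))) (a (a (b (l 444160014423) (a (l 248202131495) (l 16776288))) (b (b (l 370071828583) (l 251423356967)) (l 16776296))) (l 188609460279)))) (b (a (b (a (l 439865047111) (a (b (l 367924344935) (l 170892720247)) (l 16776288))) (a (a (b (l 441475659863) (l 242833422359)) (c (l 171429591079) (l 170892720167))) (l 16776296))) (l 16776296)) (l 16776296))))), by decide +kernel⟩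

def k27_pm_213 : ∃ t, chk3 f_pm_213 t 4023 1069 1 = true :=
  ⟨(b (a (b (l 3) (b (a (l 3) (b (a (l 3) (a (l 370608699431) (a (b (l 370608699527) (l 16776304)) (l 169282107463)))) (a (a (l 444696885351) (b (l 371145570423) (l 251423356983))) (l 184314492999)))) (a (a (l 444160014471) (b (a (l 3) (a (l 438254434407) (b (l 3) (l 246054647943)))) (a (b (l 367924344951) (l 170355849351)) (l 16776304)))) (a (a (a (b (b (l 367387474055) (l 16776304)) (l 16776304)) (l 16776224)) (l 16776304)) (l 16776312))))) (b (b (a (a (l 3) (a (l 3) (a (l 443623143527) (b (l 3) (b (l 3) (l 246054647959)))))) (a (b (a (l 444696885367) (b (l 371145570439) (l 251423356999))) (a (a (b (l 367387474071) (l 16776312)) (l 16776232)) (l 16776312))) (l 188609460311))) (a (b (a (l 440401918055) (a (b (l 367924344967) (l 170355849367)) (l 16776312))) (a (a (a (l 370071828615) (b (l 439865047175) (l 16776144))) (a (l 255718324295) (l 16776304))) (l 16776312))) (l 16776320))) (l 16776320))) (a (b (b (b (a (a (a (a (l 370071828583)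 (b (l 439328176247) (l 16776296))) (a (l 255718324279) (l 16776296))) (l 16776304)) (l 16776312)) (l 16776304)) (l 16776312)) (l 16776320)) (l 16776336))), by decide +kernel⟩

def k28_pm_213 : ∃ t, chk3 f_pm_213 t 2010 1070 1 = true :=
  ⟨(a (b (l 3) (a (l 3) (b (l 3) (b (b (l 3) (a (l 3) (a (l 3) (a (l 369534957511) (a (b (l 370071828519) (l 16776256)) (l 170355849271)))))) (a (a (l 3) (a (l 3) (a (l 442012530679) (b (l 3) (b (l 3) (l 247665260599)))))) (a (a (b (l 443086272519) (a (l 248739002327) (l 16776256))) (b (a (l 367387473879) (l 244980905959)) (l 16776256))) (l 16776176))))))) (b (a (l 3) (b (b (l 3) (b (l 3) (a (l 3) (a (l 3) (a (l 369534957543) (a (b (l 370608699463) (l 16776272)) (l 169818978311))))))) (b (a (a (l 3) (a (l 3) (a (l 442549401623) (b (l 3) (b (l 3) (l 247128389719)))))) (a (a (b (l 443623143479) (a (l 248739002375) (l 16776272))) (b (b (l 370071828551) (l 251960227847)) (l 16776280))) (l 189146331159))) (a (b (a (l 439328176151) (a (b (l 367924344903) (l 16776192))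 (l 16776272))) (a (a (b (l 440938788919) (l 243370293239)) (l 171429591031)) (l 16776272))) (l 16776280))))) (a (b (b (a (l 3) (b (a (l 3) (a (l 369534957527) (a (b (l 370071828535) (l 16776264)) (l 170355849287)))) (a (a (l 443086272535) (b (l 370071828535) (l 251960227831))) (l 184851363831)))) (a (a (l 443623143495) (b (a (l 3) (a (l 437180692519) (b (l 3) (l 247128389703)))) (a (b (l 367924344887) (l 16776096)) (l 16776264)))) (a (a (a (b (l 248739002343) (l 16776264)) (l 16776264)) (l 16776272)) (l 16776272)))) (a (a (a (b (b (b (l 440401917991) (l 243370293223)) (l 16776264)) (l 16776264)) (l 188609460215)) (l 16776272)) (l 16776280))) (l 16776288)))), by decide +kernel⟩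

def k29_pm_213 : ∃ t, chk3 f_pm_213 t 2010 1071 1 = true :=
  ⟨(a (b (a (b (b (l 3) (a (l 3) (b (a (l 3) (a (l 369534957495) (c (l 249275873239) (l 248739002327)))) (a (a (l 442549401591) (a (l 367387473863) (l 245517776855))) (l 16776088))))) (b (a (a (l 443623143463) (a (b (l 3) (b (l 367387473943) (l 16776248))) (b (b (l 3) (l 235317229511)) (l 16776248)))) (a (a (a (b (l 248739002311) (l 16776248)) (l 16776248)) (l 16776256)) (l 16776256))) (b (a (a (a (b (l 439865047047) (l 243907164103)) (l 171966461895)) (l 16776248)) (l 16776256)) (l 16776256)))) (b (b (a (b (a (l 438791305127) (a (b (l 367924344871) (l 16776088)) (l 16776256))) (a (a (b (l 440401917975) (l 243907164119)) (l 171966461911)) (l 16776256))) (l 16776264)) (l 16776264)) (l 16776272))) (l 16776280)) (l 16776312)), by decide +kernel⟩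

def k30_pm_213 : ∃ t, chk3 f_pm_213 t 2011 535 1 = true :=
  ⟨(b (a (b (a (b (b (a (a (l 444160014439) (b (a (l 3) (a (l 437717563463) (b (l 3) (l 246591518823)))) (a (b (l 367924344919) (l 170892720231)) (l 16776280)))) (a (a (a (b (l 248739002391) (l 16776288)) (l 16776280)) (l 16776288)) (l 16776288))) (b (a (a (a (b (l 441475659847) (l 243370293255)) (l 171429591047)) (l 16776280)) (l 16776288)) (l 16776288))) (l 16776296)) (l 16776312)) (l 16776320)) (l 16776352)) (l 16776368)), by decide +kernel⟩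

def k31_pm_213 : ∃ t, chk3 f_pm_213 t 1006 532 1 = true :=
  ⟨(l 3), by decide +kernel⟩

def k32_pm_213 : ∃ t, chk3 f_pm_213 t 2012 533 1 = true :=
  ⟨(b (l 3) (a (l 3) (b (l 3) (a (l 3) (a (b (l 3) (b (a (l 3) (a (l 3) (a (l 444160014519) (b (l 3) (b (l 3) (l 244980906215)))))) (b (a (l 440938789047) (a (b (l 368461215959) (l 258939549927)) (l 16776184))) (a (a (a (l 429664499927) (b (l 441475659991) (l 256792066279))) (a (l 255181453463) (l 16776344))) (l 16776352))))) (b (b (l 3) (b (l 3) (a (l 3) (a (a (l 3) (l 370071828711)) (a (b (l 433959467239) (l 16776192)) (l 258402679031)))))) (a (b (b (a (l 445770627271) (b (l 432348854503) (c (l 250886486263) (l 250349615271)))) (a (a (b (l 367924345063) (l 16776352)) (l 178408913143)) (l 16776352))) (l 16776352)) (c (l 192904427703) (l 192367556791))))))))), by decide +kernel⟩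

def k33_pm_213 : ∃ t, chk3 f_pm_213 t 2013 1066 1 = true :=
  ⟨(a (l 3) (b (a (l 3) (b (l 3) (b (l 3) (b (l 3) (a (l 3) (a (l 3) (b (a (l 3) (a (l 436106950999) (c (l 243907164503) (l 243370293607)))) (a (l 368998086983) (l 180019525991))))))))) (a (b (l 3) (a (b (l 3) (a (l 446307498295) (b (a (l 3) (a (l 440938789143) (b (l 3) (l 243907164471)))) (a (b (l 368461216039) (l 258402679095)) (l 186461976887))))) (b (b (a (l 3) (b (a (l 3) (a (l 435570080055) (l 243907164487))) (a (l 368461216055) (l 180019525959)))) (b (a (l 439865047319) (a (l 258402679095) (l 16776392))) (a (a (l 445233756439) (a (l 364703119671) (l 16776392))) (l 16776392)))) (a (a (a (b (b (l 367924345127) (l 16776384)) (l 16776384)) (l 186998847799)) (l 16776392)) (l 16776392))))) (b (a (b (a (l 3) (a (l 3) (a (l 445233756439) (b (l 3) (a (l 370071828807) (b (l 3) (l 253570840919))))))) (b (a (l 442012530967) (a (b (l 368461216055) (l 258402679111)) (l 185925106007))) (a (a (a (l 431275112743) (b (l 443623143735) (l 256255195463)))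 (a (b (l 364703119687) (l 16776392)) (l 16776400))) (l 16776400)))) (b (b (b (a (l 439865047351) (a (l 257865808215) (l 16776408))) (a (a (l 445770627383) (a (l 364703119703) (l 16776400))) (l 16776408))) (a (a (a (b (l 368461216071) (l 16776400)) (l 177872042327)) (l 16776408)) (l 16776408))) (l 16776408))) (l 16776408))))), by decide +kernel⟩

def k34_pm_213 : ∃ t, chk3 f_pm_213 t 2013 1067 1 = true :=
  ⟨(a (b (a (b (l 3) (a (l 3) (b (l 3) (b (a (l 3) (a (a (l 3) (l 370071828727)) (b (a (l 434496338183) (l 244444035335)) (l 16776328)))) (b (a (l 438791305447) (a (l 258939549959) (l 16776368))) (a (a (l 444160014567) (a (l 364703119623) (l 16776360))) (l 16776368))))))) (a (b (a (l 3) (a (l 3) (a (l 448991852807) (b (l 3) (b (l 3) (b (l 3) (l 244444035351))))))) (b (b (a (l 441475660007) (a (b (l 368461216007) (l 258939549975)) (l 186461976855))) (a (a (a (l 430201370871) (b (l 442549401863) (l 256792066327))) (a (b (l 364703119623) (l 16776368)) (l 16776368))) (l 16776376))) (l 16776376)))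 (b (b (b (l 3) (a (l 3) (b (a (l 3) (a (l 435033209111) (l 243907164455))) (a (l 368461216023) (l 180556396839))))) (b (b (a (l 439328176375) (a (l 258402679079) (l 16776376))) (a (a (l 444696885511) (a (l 364703119639) (l 16776376))) (l 16776376))) (a (a (a (b (l 367924345111) (l 16776376)) (l 178408913191)) (l 16776376)) (l 16776384)))) (l 16776384)))) (a (b (b (a (a (l 445770627335) (b (a (l 3) (a (l 439865047271) (b (l 3) (l 244444035335)))) (a (b (l 368461215991) (l 258939549959)) (l 16776280)))) (a (a (a (b (b (l 367924345079) (l 16776360)) (l 16776360)) (l 187535718663)) (l 16776368)) (l 16776368))) (b (a (a (a (a (l 430201370855) (b (l 442012530919) (l 256255195383))) (a (b (l 364166248695) (l 16776360)) (l 16776360))) (l 16776360)) (l 16776368)) (l 16776368))) (l 16776376)) (l 16776392))) (b (a (b (b (b (a (a (a (a (l 430738241815) (b (l 443086272791) (l 256255195431))) (a (b (l 364703119655) (l 16776384)) (l 16776384))) (l 16776384)) (l 16776392)) (l 16776392)) (l 16776392)) (l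 16776400)) (l 16776424)) (l 16776424))), by decide +kernel⟩

def k35_pm_213 : ∃ t, chk3 f_pm_213 t 2014 1064 1 = true :=
  ⟨(l 3), by decide +kernel⟩

def k36_pm_213 : ∃ t, chk3 f_pm_213 t 4028 1065 1 = true :=
  ⟨(b (l 3) (a (l 3) (b (l 3) (b (b (l 3) (a (l 3) (a (l 3) (a (b (l 3) (l 368998087063)) (b (a (l 437180692887) (a (l 366313732519) (l 252497099175))) (l 179482655143)))))) (a (a (l 3) (b (l 3) (a (l 3) (a (l 442549401975) (a (l 370608699783) (b (l 3) (l 253033970071))))))) (b (b (a (l 440401918327) (a (l 257865808295) (l 16776448))) (a (a (l 446844369287) (a (c (l 365239990679) (l 365239990679)) (l 16776440))) (l 16776440))) (a (a (a (b (l 368461216151) (l 16776432)) (l 177335171479)) (l 16776440)) (l 16776448)))))))), by decide +kernel⟩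

def k37_pm_213 : ∃ t, chk3 f_pm_213 t 4029 1065 1 = true :=
  ⟨(b (a (l 3) (a (b (l 3) (b (a (l 3) (b (l 3) (a (l 3) (a (l 443086272967) (a (l 370608699847) (b (l 3) (l 251960228327))))))) (b (a (l 443086272935) (a (b (l 369534958023) (l 257328937431)) (l 185388235239))) (a (a (a (l 432885725623) (b (l 446307498439) (l 255181453783))) (a (b (a (l 368998087111) (l 244444035543)) (l 16776464)) (l 16776304))) (l 16776472))))) (b (b (l 3) (b (l 3) (a (l 3) (b (b (l 439865047511) (a (l 3) (a (l 432885725671) (l 16776312)))) (a (l 369534958039) (l 178945784311)))))) (b (b (b (a (l 440938789319) (a (c (l 257865808359) (l 257328937447)) (l 16776480))) (a (a (l 447381240263) (a (a (l 368998087127) (l 244444035559)) (l 16776392))) (l 16776480))) (a (a (b (a (l 368998087127) (l 254644582887)) (l 16776472)) (l 16776472)) (l 16776480))) (l 16776480))))) (a (a (b (b (l 3) (a (l 447381240247) (b (a (l 3) (a (l 442549402007) (a (l 370608699815) (b (l 3) (l 252497099191))))) (a (b (l 368998087079) (l 257865808311))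 (l 185925106103))))) (b (b (a (a (a (l 432348854679) (b (l 445770627479) (l 255181453735))) (a (b (a (l 368461216167) (l 244980906407)) (l 16776448)) (l 16776288))) (l 16776456)) (l 16776448)) (l 16776456))) (b (b (b (a (l 3) (a (b (l 3) (l 368998087095)) (b (a (l 438254434743) (a (l 366850603463) (l 252497099207))) (l 179482655175)))) (b (a (l 440938789271) (a (l 257328937415) (l 16776464))) (a (a (l 447381240231) (a (a (l 368461216183) (l 244980906439)) (l 16776456))) (l 16776464)))) (b (a (a (b (a (l 368998087095) (l 255181453767)) (l 16776456)) (l 16776456)) (l 16776464)) (l 16776464))) (l 16776464))) (l 16776160))), by decide +kernel⟩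

def k38_pm_213 : ∃ t, chk3 f_pm_213 t 4030 1064 1 = true :=
  ⟨(b (l 3) (a (b (l 3) (a (l 3) (b (l 3) (b (a (l 3) (a (l 7081887451446540291375906911) (b (a (l 438791305735) (l 4838121130241789642632904799)) (l 178945784343)))) (b (a (l 441475660263) (a (a (l 248202131975) (l 16776496)) (l 16776496))) (a (a (l 447918111207) (a (a (l 368998087175) (l 243907164679)) (l 16776408))) (l 16776496))))))) (b (a (a (l 3) (a (l 3) (a (l 450602465799) (b (l 3) (b (l 3) (b (l 3) (l 4838121130241791566778269791))))))) (a (b (l 3) (b (a (l 448991853063) (b (l 436643822103) (l 4934835195810962450510594143))) (a (a (b (l 369534958103) (l 16776504)) (l 3184310609008979268097114207)) (l 16776512)))) (b (b (l 3) (a (l 7101230264560378481339842655) (b (a (l 439328176679) (l 4828449723684876388806508639)) (l 178408913463)))) (c (l 3397081553261154621320691807) (l 3397081553261157095221854303))))) (b (a (b (a (l 443623143911) (a (b (l 6859445100637450790972735583) (l 4915492382697127078045220959)) (l 185388235303)))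 (a (a (a (l 433422596615) (b (l 446844369415) (l 254644582935))) (a (l 4828449723684873158991085663) (l 16776416))) (l 16776504))) (l 16776520)) (l 16776512))))), by decide +kernel⟩

def k39_pm_213 : ∃ t, chk3 f_pm_213 t 4031 1064 1 = true :=
  ⟨(b (a (b (l 3) (b (a (l 3) (a (a (l 450065594887) (b (l 3) (b (l 437180693047) (l 4876806756469463686098567263)))) (b (a (l 7101230264560382329630589023) (b (a (l 439865047623) (l 4896149569583300158075584607)) (l 178408913495))) (a (b (l 4973520822038636012939886687) (l 16776528)) (l 16776536))))) (a (a (l 447918111303) (b (a (l 3) (a (l 444160014887) (b (l 3) (l 4896149569583298233930219615)))) (a (b (l 6859445100637454639263465567) (l 4973520822038634088794521695)) (l 184851364423)))) (a (a (a (b (b (l 369534958151) (l 16776528)) (l 16776528)) (l 3358395927033491298093482079)) (l 16776528)) (l 16776536))))) (b (a (b (a (l 3) (a (l 3) (a (l 447381240359) (b (l 3) (b (l 3) (l 4896149569583302082220933215)))))) (b (a (l 444160014887) (a (b (l 6869116507194375658390798431)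 (a (l 5031549261380139862593241183) (l 16776536))) (l 184851364455))) (a (a (a (l 7139915890788051631452291167) (b (l 447918111303) (l 254107712087))) (b (l 5050892074493973654510633055) (l 16776536))) (l 16776544)))) (a (b (b (a (l 449528724039) (b (l 437180693079) (l 5041220667937058476538871903))) (a (a (b (l 369534958183) (l 16776544)) (l 3174639202452070962073059423)) (l 16776544))) (l 16776544)) (c (c (l 3484124212273419260613263455) (l 3474452805716502089776660575)) (c (l 3474452805716501952337707103) (l 3464781399159584850220580959))))) (l 16776384))) (a (b (b (b (a (a (a (a (l 7120573077674213578927308895) (b (l 447918111271) (l 254107712055))) (b (l 4934835195810964374655959135) (l 16776520))) (l 16776520)) (l 16776536)) (l 16776528)) (l 16776536)) (l 16776544)) (l 16776568))), by decide +kernel⟩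

def k40_pm_213 : ∃ t, chk3 f_pm_213 t 2015 1065 1 = true :=
  ⟨(a (b (a (b (b (a (a (l 447381240311) (b (a (l 3) (a (l 443086272999) (a (l 370608699895) (b (l 3) (l 251960228359))))) (a (b (l 369534958055) (a (l 248739002871) (l 16776488))) (l 185388235271)))) (a (b (a (b (a (l 368998087159) (l 254644582919)) (l 16776488)) (l 16776496)) (l 16776496)) (l 16776504))) (b (a (a (a (a (l 432885725655) (b (l 446844369383) (l 254644582903))) (a (b (a (l 368998087159) (l 244444035575)) (l 16776480)) (l 16776400))) (l 16776488)) (l 16776496)) (l 16776496))) (l 16776504)) (l 16776528)) (l 16776528)) (l 16776576)), by decide +kernel⟩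

def k41_pm_213 : ∃ t, chk3 f_pm_213 t 1007 533 1 = true :=
  ⟨(a (b (a (b (a (b (a (l 3) (b (l 3) (b (a (l 3) (b (a (l 3) (a (l 436643821943) (a (l 366313732487) (l 253033970055)))) (a (l 368998087031) (l 180019526023)))) (b (a (l 440401918295) (a (l 257865808263) (l 16776424))) (a (a (l 446307498327) (a (l 365239990647) (l 16776424))) (l 16776424)))))) (b (a (a (l 446307498343) (b (a (l 3) (a (l 442012531031) (a (l 370608699751) (b (l 3) (l 253033970039))))) (a (b (l 368998086999) (l 257865808231)) (l 185925106039)))) (a (a (a (b (b (l 368461216103) (l 16776416)) (l 16776416)) (l 186998847863)) (l 16776424)) (l 16776424))) (b (a (a (a (a (l 431275112775) (b (l 444160014679) (l 255718324583))) (a (b (l 364703119719) (l 16776408)) (l 16776416))) (l 16776416)) (l 16776424)) (l 16776424)))) (a (b (b (b (a (l 442549401943) (a (b (l 368998087047) (l 257865808279)) (l 185925106071))) (a (a (a (l 431811983735) (b (l 445233756535) (l 255718324615))) (a (b (l 365239990663) (l 16776432)) (l 16776432)))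 (l 16776432))) (l 16776432)) (l 16776440)) (l 16776448))) (l 16776448)) (l 16776496)) (l 16776504)) (l 16776600)), by decide +kernel⟩

def k42_pm_213 : ∃ t, chk3 f_pm_213 t 4024 1068 1 = true :=
  ⟨(b (a (l 3) (b (l 3) (b (b (l 3) (a (l 3) (a (l 3) (a (a (l 449528723623) (l 368998086839)) (a (b (l 432885725383) (l 16776336)) (l 258939549815)))))) (a (a (l 3) (a (l 3) (a (l 443623143559) (b (l 3) (b (l 3) (l 245517777095)))))) (a (b (a (l 445233756327) (b (l 431811983543) (l 250886486135))) (a (a (b (l 367387474103) (l 16776328)) (l 178945784007)) (l 16776336))) (l 188609460359)))))) (a (a (b (l 3) (b (a (l 445233756343) (b (a (l 3) (a (l 438791305367) (b (l 3) (l 245517777063)))) (a (b (l 367924344999) (l 170355849383)) (l 16776320)))) (b (a (a (a (l 370608699543) (b (l 440401918103) (l 16776232))) (a (l 255181453399) (l 16776320))) (l 16776320)) (l 16776320)))) (b (b (l 3) (b (a (l 3) (a (c (l 370608699543) (l 370608699463)) (a (b (l 371682441383) (l 16776320)) (l 258939549879)))) (a (a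 (l 444696885383) (b (l 371682441383) (l 251423357031))) (l 184314493031)))) (a (a (a (b (b (b (l 367387474087) (l 16776320)) (l 16776320)) (l 16776328)) (l 192904427703)) (l 16776328)) (l 16776328)))) (b (b (a (b (a (l 440401918087) (a (b (l 367924345015) (l 259476420807)) (l 16776328))) (a (a (a (l 370608699559) (b (l 440938789031) (l 257328937143))) (a (l 255181453415) (l 16776328))) (l 16776328))) (l 16776336)) (l 16776336)) (l 16776344)))), by decide +kernel⟩

def k43_pm_213 : ∃ t, chk3 f_pm_213 t 4025 1068 1 = true :=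
  ⟨(b (a (a (b (b (l 3) (a (l 445233756375) (b (a (l 3) (a (l 439328176311) (b (l 3) (l 244980906199)))) (a (b (l 367924345031) (l 259476420823)) (l 16776336))))) (b (b (a (a (a (l 370608699575) (b (l 440938789063) (l 256792066263))) (a (l 254644582535) (l 16776336))) (l 16776344)) (l 16776344)) (l 16776344))) (b (b (b (a (l 3) (a (a (l 449528723639) (l 368998086855)) (a (b (l 433422596311) (l 16776344)) (l 258939549927)))) (a (a (l 445770627255) (b (l 431811983559) (l 250886486231))) (l 184314493079))) (a (a (a (b (b (l 367924345047) (l 16776344)) (l 16776344)) (l 187535718631)) (l 16776344)) (l 16776352))) (l 16776352))) (l 16776368)) (l 16776376)), by decide +kernel⟩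

def k44_pm_213 : ∃ t, chk3 f_pm_213 t 2012 1069 1 = true :=
  ⟨(l 16776376), by decide +kernel⟩

def k45_pm_213 : ∃ t, chk3 f_pm_213 t 2013 534 1 = true :=
  ⟨(l 16776448), by decide +kernel⟩

def k46_pm_213 : ∃ t, chk3 f_pm_213 t 1006 535 1 = true :=
  ⟨(l 16776472), by decide +kernel⟩

def k47_pm_213 : ∃ t, chk3 f_pm_213 t 1007 267 1 = true :=
  ⟨(l 16776640), by decide +kernel⟩

def k48_pm_213 : ∃ t, chk3 f_pm_213 t 500 134 1 = true :=
  ⟨(b (l 3) (a (l 3) (b (l 3) (a (l 3) (b (a (l 3) (b (l 3) (a (l 3) (b (l 3) (a (l 3) (a (l 3) (b (l 3) (b (l 374366794391) (l 238538453591))))))))) (a (b (l 3) (a (b (l 3) (b (l 447381238199) (a (l 3) (a (b (l 3) (l 230485389703)) (b (l 238538453415) (l 16775456)))))) (b (a (b (l 3) (l 372756181543)) (a (b (l 3) (b (l 230485389767) (l 16775480))) (b (b (l 373829923351) (l 238538453463)) (l 16775488)))) (a (a (b (b (l 370608697751) (l 153712849335)) (l 16775464)) (l 16775304)) (l 16775480))))) (b (a (b (l 447918109191) (b (a (l 3) (a (b (l 3) (c (l 230485389831)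 (l 229948518919))) (b (l 238538453527) (l 16775520)))) (a (a (l 371682439623) (b (l 368461214199) (l 16775344))) (l 16775512)))) (b (b (a (l 373293052583) (a (a (b (l 371682439831) (l 16775544)) (l 163913396823)) (l 16775552))) (b (a (a (l 371145568791) (l 164450267719)) (l 16775544)) (l 180019524167))) (l 16775528))) (l 190756942167)))))))), by decide +kernel⟩

def k49_pm_213 : ∃ t, chk3 f_pm_213 t 1002 268 1 = true :=
  ⟨(l 3), by decide +kernel⟩

def k50_pm_213 : ∃ t, chk3 f_pm_213 t 1003 536 1 = true :=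
  ⟨(a (l 3) (b (l 3) (a (l 3) (b (l 3) (a (l 3) (b (l 3) (b (l 3) (b (l 3) (a (l 3) (a (l 3) (a (l 368998086279) (l 250349614759)))))))))))), by decide +kernel⟩

def k51_pm_213 : ∃ t, chk3 f_pm_213 t 2006 537 1 = true :=
  ⟨(b (l 3) (a (b (l 3) (a (l 3) (b (l 3) (a (a (l 3) (b (l 3) (b (l 3) (c (l 368998085831) (l 368998085831))))) (b (a (l 3) (a (l 370608698583) (b (l 446844368183) (l 158544688391)))) (a (b (a (l 372219311399) (l 239075325159)) (l 16775712)) (l 16775880))))))) (b (a (l 449528722631) (b (a (l 3) (b (l 3) (a (l 3) (a (l 370608698727) (b (l 447381239239) (l 158007817607)))))) (a (a (b (l 3) (b (l 371145569591) (a (l 233169745223) (l 16775928)))) (b (a (l 3) (b (l 3) (l 367387473255))) (l 173577074023))) (b (a (b (a (l 372219311527) (l 239075325303)) (l 174650815863)) (l 16775952)) (l 16775944))))) (a (b (b (a (l 3) (a (a (l 442549400919) (b (l 3) (l 239075325239))) (a (b (l 368461215031) (l 16775920)) (l 173040203079)))) (a (a (l 439328175319) (b (a (l 3) (l 367387473175))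 (l 163376526615))) (l 185925104951))) (a (a (b (b (c (l 246054647047) (l 246054647047)) (l 16775896)) (l 16775888)) (l 16775896)) (l 16775904))) (l 16775928))))), by decide +kernel⟩

def k52_pm_213 : ∃ t, chk3 f_pm_213 t 2007 537 1 = true :=
  ⟨(b (a (b (l 3) (a (b (l 3) (b (l 449528722903) (a (l 3) (a (a (l 443086271975) (b (l 3) (l 239075325367))) (a (b (l 368998086071) (l 16775984)) (l 173040203223)))))) (b (b (b (l 449528722983) (a (l 3) (a (l 3) (a (l 368998086151) (l 250349614615))))) (b (a (l 3) (a (a (l 372219311671) (l 239075325447)) (l 16776024))) (a (b (l 447918110215) (a (l 3) (a (l 3) (l 237464712695)))) (l 182703879687)))) (b (a (a (b (l 372219311559) (a (a (l 368998086087) (l 239612196311)) (l 16776000))) (a (b (l 244444034535) (l 16776000)) (l 16776008))) (l 16776016)) (l 16776000))))) (b (a (b (l 449528722999) (b (a (l 3) (a (a (l 443086272103) (b (l 3) (l 238538454599))) (a (b (l 368998086215) (l 16776056)) (l 173040203351)))) (a (a (l 439865046519) (a (b (l 3) (l 244444034599))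 (b (c (l 367387473447) (l 367387473463)) (l 16776040)))) (l 185925105223)))) (b (a (b (a (l 3) (a (l 3) (a (l 439865046695) (b (l 3) (l 232096003703))))) (a (b (l 372219311687) (a (a (l 368998086231) (l 239612196455)) (l 16776072))) (a (b (l 244444034679) (l 16776072)) (l 16776080)))) (b (b (a (a (l 373293053639) (l 238538454663)) (l 16776096)) (l 182703879831)) (l 16776080))) (l 16776072))) (a (b (a (a (a (b (b (a (l 368998086167) (l 240149067303)) (l 16776032)) (l 16776024)) (l 16776032)) (l 16776032)) (l 16776040)) (l 16776024)) (l 16776048)))) (a (b (a (a (b (b (a (l 439865046375) (a (b (l 3) (l 244444034471)) (b (l 367387473319) (l 16775976)))) (a (a (b (c (l 233169745287) (l 232632874375)) (l 16775960)) (l 16775968)) (l 16775968))) (l 16775960)) (l 192367556007)) (l 16775984)) (l 16775952)) (l 16776000))), by decide +kernel⟩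

def k53_pm_213 : ∃ t, chk3 f_pm_213 t 1002 538 1 = true :=
  ⟨(a (b (l 3) (a (l 3) (b (l 3) (a (l 448454980279) (b (a (l 3) (a (l 3) (b (l 3) (b (l 445770625943) (l 238538453863))))) (a (a (b (l 3) (b (l 371145569047) (l 246591517495))) (b (l 370071827239) (l 174113944391))) (a (a (b (b (l 372219310999) (l 16775672)) (l 16775672)) (l 177872040791)) (l 16775680)))))))) (b (a (l 3) (b (a (l 3) (b (l 3) (a (l 3) (a (l 3) (a (l 440401917127) (b (l 3) (b (l 446307497143) (l 159081559159)))))))) (a (b (l 448991851543) (b (a (l 3) (a (a (l 442012529735) (b (l 3) (l 239612195879))) (a (b (l 368461214759) (l 16775784)) (l 173577073719)))) (a (a (l 438791304151) (b (l 368998085623) (l 163913397255))) (l 16775776)))) (b (a (a (b (l 3) (b (l 371145569319) (l 246054646839))) (b (b (l 3) (l 368998085687)) (l 174113944663))) (b (a (b (a (l 372219311255) (l 239075325031)) (l 16775808)) (l 16775816)) (l 16775808))) (l 16775792))))) (a (b (a (b (l 3) (b (l 448454980535) (a (l 3) (a (a (l 441475658695) (b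 (l 3) (l 239612195735))) (b (c (l 238538453927) (l 238001583015)) (l 16775720)))))) (b (a (a (l 3) (a (l 3) (b (l 3) (l 369534956471)))) (b (a (l 3) (a (l 370608698311) (b (l 373829923879) (l 159081559031)))) (a (a (b (l 372219311127) (l 16775736)) (l 163913397207)) (l 16775752)))) (a (a (b (b (l 371145569191) (l 246591517623)) (l 16775720)) (l 182703879111)) (l 16775736)))) (a (b (a (a (b (l 438254433095) (b (l 246591517559) (l 16775688))) (b (b (l 368998085495) (l 163913397127)) (l 16775696))) (l 16775704)) (l 16775688)) (l 16775712))) (b (a (b (a (a (b (b (l 246591517687) (l 16775760)) (l 16775752)) (l 16775760)) (l 16775768)) (l 16775752)) (l 16775776)) (l 16775736))))), by decide +kernel⟩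

def k54_pm_213 : ∃ t, chk3 f_pm_213 t 1002 539 1 = true :=
  ⟨(a (b (a (b (a (l 3) (b (l 3) (a (a (l 3) (b (l 3) (l 370071827111))) (b (a (l 3) (b (l 445770625815) (l 238538453719))) (a (a (b (l 372219310871) (l 16775608)) (l 163913396951)) (l 16775616)))))) (a (b (b (l 447918109367) (a (l 3) (a (a (l 372756181687) (b (l 3) (l 240149066391))) (b (l 238538453655) (l 16775584))))) (b (a (a (l 372756181575) (b (l 368461214327) (l 164450267783))) (l 16775576)) (l 182167007879))) (b (a (a (b (b (l 371145568919) (l 246591517367)) (l 16775592)) (l 182703878839)) (l 16775608)) (l 16775584)))) (b (a (b (b (a (l 3) (a (a (l 373293052727) (b (l 3) (l 240149066519))) (b (l 238538453799) (l 16775648)))) (a (a (l 372756181703) (b (l 368461214455) (l 164450267911))) (l 16775640))) (a (l 181093266167) (l 16775632))) (l 16775656)) (l 16775616))) (l 16775560)) (l 16775656)), by decide +kernel⟩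

def k55_pm_213 : ∃ t, chk3 f_pm_213 t 1003 269 1 = true :=
  ⟨(b (a (b (a (b (a (b (b (l 448454980791) (a (l 3) (a (a (l 442012529863) (b (l 3) (l 239075325095))) (a (b (l 368461214887) (l 16775848)) (l 173040202935))))) (a (a (b (l 439328175191) (b (l 246054646919) (l 16775824))) (b (b (l 368998085767) (l 163913397399)) (l 16775832))) (l 16775680))) (b (a (a (b (b (l 371145569447) (c (l 246054646983) (l 246054646983))) (l 16775856)) (l 182703879383)) (l 16775872)) (l 16775856))) (l 16775824)) (l 16775880)) (l 16775808)) (l 16775904)) (l 16775752)), by decide +kernel⟩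

def k56_pm_213 : ∃ t, chk3 f_pm_213 t 1000 270 1 = true :=
  ⟨(b (a (l 3) (b (l 3) (a (l 3) (b (a (l 3) (b (l 3) (a (l 3) (a (l 3) (b (l 3) (b (l 368998084775) (l 234780356727))))))) (a (b (l 446844366887) (a (a (l 441475657815) (b (l 3) (l 240685936647))) (a (b (b (l 3) (l 231559131175)) (l 16775264)) (l 173040201783)))) (b (b (a (l 367924342967) (a (l 241222807655) (l 16775304))) (b (a (a (l 366313730103) (l 16775296)) (l 16775304)) (l 180019523671))) (l 16775288))))))) (a (b (a (l 3) (b (l 3) (a (l 447381237415) (a (b (l 3) (b (l 367924342679) (a (l 235317227287) (l 16775144)))) (b (a (l 3) (b (l 3) (b (l 368998084503) (l 234780356439)))) (c (l 173577072455) (l 173040201383))))))) (a (b (a (l 3) (b (l 3) (a (l 438791302855) (b (a (l 3) (b (l 368461213415) (l 234780356279))) (l 163913395879))))) (a (b (a (l 3) (b (l 445770624679) (a (l 363629375015) (l 159618428503)))) (a (b (a (l 366850600423) (l 235317227047)) (l 16774352)) (l 16775024))) (b (a (a (b (l 235317227111) (l 16775048)) (l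 16775056)) (l 16775064)) (l 16775048)))) (b (a (b (a (a (l 441475657511) (b (l 3) (l 235317227223))) (a (b (l 363629375191) (l 16775112)) (l 173040201479))) (l 16775016)) (l 16775136)) (l 16775096)))) (b (a (b (a (b (l 3) (a (l 3) (b (l 445770625015) (a (a (l 367387471735) (l 227801034647)) (l 159081557927))))) (b (a (l 438791303175) (a (b (l 3) (l 241222807511)) (b (b (l 368998084647) (l 234780356599)) (l 16775240)))) (a (a (b (b (l 365776859047) (l 154249719751)) (l 16775216)) (l 16775224)) (l 16775232)))) (a (b (a (b (a (l 366850600775) (l 235317227383)) (l 174650814327)) (l 16775192)) (l 16775176)) (l 16775208))) (l 191293812903)) (l 16775176)))), by decide +kernel⟩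

def k57_pm_213 : ∃ t, chk3 f_pm_213 t 1001 270 1 = true :=
  ⟨(b (a (b (a (b (l 3) (a (l 3) (b (l 3) (a (b (l 3) (l 372756180647)) (a (b (l 3) (b (l 230485389527) (l 16775360))) (b (b (l 373293052199) (l 239075324135)) (l 16775368))))))) (b (a (l 447381237959) (b (a (l 3) (a (l 3) (b (l 3) (b (l 373293052311) (l 238538453351))))) (b (a (l 372756181415) (a (b (l 230485389655) (l 16775424)) (l 16775424))) (b (a (a (l 370608697639) (l 16775416)) (l 16775424)) (l 180019523911))))) (a (b (a (a (l 442012528983) (b (l 3) (b (l 368461213943) (l 16775384)))) (a (b (b (l 3) (l 230485389591)) (l 16775392)) (c (l 173040202023) (l 172503331111)))) (l 184851362055)) (l 16775400)))) (a (b (a (b (b (l 446844367047) (a (l 3) (a (b (l 3) (l 230485389463)) (l 159081558199)))) (a (b (a (l 366850601047) (l 240685936775)) (l 174650814599)) (l 16775328))) (b (a (a (b (b (l 370608697511) (l 153712849095)) (l 16775344)) (l 16775352)) (l 16775352)) (l 16775336))) (l 16775312)) (l 16775352))) (b (a (b (a (b (b (a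 (a (l 371682439495) (b (l 368461214071) (l 16775112))) (l 16775448)) (l 182167007623)) (l 16775432)) (l 16775456)) (l 16775424)) (l 16775464)) (l 16775392))) (l 16775288)), by decide +kernel⟩

def k58_pm_213 : ∃ t, chk3 f_pm_213 t 500 271 1 = true :=
  ⟨(a (b (l 16775032) (l 16774904)) (l 16775096)), by decide +kernel⟩

def k59_pm_213 : ∃ t, chk3 f_pm_213 t 501 135 1 = true :=
  ⟨(l 16775344), by decide +kernel⟩

def k60_pm_213 : ∃ t, chk3 f_pm_213 t 2008 536 1 = true :=
  ⟨(b (a (l 3) (b (l 3) (a (l 3) (b (b (l 3) (b (l 3) (a (l 3) (a (l 3) (a (l 368998086519) (l 249812744071)))))) (b (b (a (l 3) (a (a (l 441475659703) (a (l 366850602887) (l 246054647687))) (l 16776216))) (a (b (l 3) (a (l 3) (a (l 3) (l 235854100359)))) (l 182167009175))) (a (a (b (l 437180692311) (a (a (l 368998086519) (l 239075325815)) (l 173040203655))) (a (b (l 243907164039) (l 16776216)) (l 16776216))) (l 16776224))))))) (a (b (a (l 3) (b (l 3) (b (b (l 3) (a (l 3) (a (l 3) (a (l 368998086423) (l 249812743975)))))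 (b (a (l 3) (a (a (l 440938788679) (a (l 366850602775) (l 246591518487))) (l 16776160))) (a (b (l 3) (a (l 3) (a (l 3) (l 236927842055)))) (l 182703879959)))))) (a (a (b (l 3) (b (a (l 440401917559) (a (b (l 3) (l 243907163831)) (b (a (l 371145570055) (l 232096003783)) (l 16776112)))) (a (a (b (a (l 368998086295) (l 239612196519)) (l 16776104)) (l 16775936)) (l 16776112)))) (b (b (l 3) (b (a (l 3) (a (l 368998086359) (l 249812743911))) (a (a (l 440938788615) (a (l 366850602695) (l 246591518423))) (l 16776128)))) (l 189683201751))) (b (b (a (a (b (l 437180692183) (a (a (l 368998086455) (l 239612196599)) (l 16775976))) (a (b (l 244444034823) (l 16776144)) (l 16776144))) (l 16776152)) (l 16776144)) (l 16776136)))) (b (a (b (b (a (l 3) (b (a (l 3) (a (l 368998086487) (l 249812744055))) (a (a (l 441475659671) (a (l 366850602839) (l 246054647655))) (l 16776200)))) (a (a (l 440938788695) (a (b (l 3) (l 244444034887)) (b (b (l 3) (l 236927842119)) (l 16776184)))) (l 185925105511))) (a (a (a (b (b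 (a (l 369534957431) (l 239075325751)) (l 16776168)) (l 16776168)) (l 189146330935)) (l 16776176)) (l 16776184))) (l 16776208)) (l 16776168)))), by decide +kernel⟩

def k61_pm_213 : ∃ t, chk3 f_pm_213 t 2009 536 1 = true :=
  ⟨(b (a (b (a (b (l 3) (b (l 3) (a (l 3) (b (a (l 3) (a (l 369534957447) (l 249812744087))) (a (a (l 442012530631) (a (l 367387473799) (l 246054647703))) (l 16776224)))))) (b (b (b (l 3) (a (l 3) (a (l 3) (a (l 369534957463) (l 249275873191))))) (b (a (l 3) (a (a (l 442012530647) (a (l 367387473815) (l 245517776807))) (l 16776232))) (a (b (l 3) (a (l 3) (a (l 3) (l 235854100375)))) (l 182167009207)))) (b (a (b (a (l 437717563255) (a (b (l 367387473815) (l 16776224)) (l 16776224))) (b (a (a (l 372219312087) (l 161229043623)) (l 16776232)) (l 179482654631))) (l 16776232)) (l 16776232)))) (a (b (a (b (a (l 443086272503) (b (a (l 3) (b (l 3) (l 235854100375))) (b (l 246591518615) (l 16776224)))) (a (a (b (a (l 369534957527) (l 238538454919)) (l 16776216)) (l 182167009175))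 (l 16776224))) (l 189146331047)) (l 16776232)) (l 16776248))) (b (a (b (a (a (a (b (b (a (l 369534957543) (l 238001584039)) (l 16776232)) (l 16776240)) (l 188609460151)) (l 16776240)) (l 16776248)) (l 16776256)) (l 16776272)) (l 16776280))) (l 16776240)), by decide +kernel⟩

def k62_pm_213 : ∃ t, chk3 f_pm_213 t 1004 537 1 = true :=
  ⟨(a (l 16776088) (l 16776160)), by decide +kernel⟩

def k63_pm_213 : ∃ t, chk3 f_pm_213 t 1005 268 1 = true :=
  ⟨(l 16776320), by decide +kernel⟩

def k64_pm_213 : ∃ t, chk3 f_pm_213 t 503 268 1 = true :=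
  ⟨(l 16776576), by decide +kernel⟩

def k65_pm_213 : ∃ t, chk3 f_pm_213 t 251 269 1 = true :=
  ⟨(l 598982641170300947965535), by decide +kernel⟩

def k66_pm_213 : ∃ t, chk3 f_pm_213 t 251 135 1 = true :=
  ⟨(l 16775584), by decide +kernel⟩

def k67_pm_213 : ∃ t, chk3 f_pm_213 t 248 136 1 = true :=
  ⟨(a (l 3) (b (l 3) (a (l 3) (b (a (l 3) (b (l 3) (a (l 3) (b (l 3) (a (l 3) (l 435033202695)))))) (a (b (l 3) (a (b (l 3) (a (l 3) (b (l 3) (a (l 365776854359) (l 234780351607))))) (b (a (l 442012523911) (b (l 365239983703) (a (l 235317222711) (l 16772960)))) (a (b (a (l 361481886887) (l 158544682231)) (l 16772872)) (l 16772912))))) (b (a (b (l 3) (a (b (l 3) (a (l 3) (b (l 366313725559) (l 234243481079)))) (b (a (l 366313725767) (l 234243481191)) (l 16772736)))) (b (a (b (l 442012524471) (a (l 362018758295) (l 158544682727))) (b (a (b (l 364166242231) (l 16773016)) (l 16773208)) (l 16773176))) (l 16773128))) (a (b (l 177335164551) (l 16772960)) (l 16773056)))))))), by decide +kernel⟩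

def k68_pm_213 : ∃ t, chk3 f_pm_213 t 496 137 1 = true :=
  ⟨(b (a (l 3) (b (l 3) (a (l 3) (b (a (l 3) (l 437717554983)) (a (b (l 3) (a (l 6617659936714445035270734047) (b (a (l 364703110983) (l 234780350039)) (l 16772024)))) (b (a (b (l 374366787511) (l 239075317431)) (b (l 4460936274521935386320617695) (l 16772152))) (l 16772088))))))) (a (b (a (l 3) (b (l 3) (a (l 3) (b (l 434496328551) (a (b (l 365776851831) (l 232632865399)) (l 163913388775)))))) (a (b (a (l 3) (b (l 3) (a (l 373829914903) (b (l 363629367783) (l 152639099079))))) (a (b (a (l 3) (b (l 3) (l 231559122855))) (a (l 4315865176168207922900156511) (l 16771176))) (l 3116610763110491933301211231))) (b (a (b (a (l 6617659936714460978188206175) (b (l 231559123415) (l 16771472))) (l 16771408)) (l 16771512)) (l 16771352)))) (b (a (b (a (b (l 3) (a (l 3) (b (l 3) (l 4344879395838942667858936031)))) (b (a (l 439328167271) (b (l 364166239799) (l 152639100199))) (a (b (l 232632865943) (l 16771816)) (l 16771864)))) (a (b (a (b (l 6588645717043696477697753183)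 (l 16771032)) (l 16771736)) (l 16771664)) (l 16771760))) (l 185388225799)) (l 16771616)))), by decide +kernel⟩

def k69_pm_213 : ∃ t, chk3 f_pm_213 t 497 137 1 = true :=
  ⟨(b (a (b (a (b (l 3) (a (l 3) (b (l 3) (a (l 440938781079) (b (l 364703111783) (a (l 235854092599) (l 16772448))))))) (b (a (l 3) (b (l 436643814311) (a (b (l 440401910727) (a (l 361481886375) (l 159081552647))) (b (a (l 235317222199) (l 16772704)) (l 16772672))))) (a (b (a (b (l 3) (a (l 3) (l 229948512759))) (b (a (l 365239982935) (l 234780351095)) (l 16772552))) (l 176798292615)) (l 16772592)))) (a (b (a (b (a (l 3) (b (l 3) (a (l 365239982423) (l 234780350583)))) (a (b (a (l 3) (l 230485383143)) (l 162839648199)) (l 16772280))) (b (a (b (a (l 360945014951) (l 16772056)) (l 16772352)) (l 16772400)) (l 16772328))) (l 16772216)) (l 16772400))) (b (a (b (a (b (a (b (a (l 3) (b (l 365776854151) (l 234780351495))) (l 162839649239)) (l 16771488)) (l 16772736)) (l 16772824)) (l 16772688)) (l 16772872)) (l 16772592))) (l 16772120)),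 by decide +kernel⟩

def k70_pm_213 : ∃ t, chk3 f_pm_213 t 498 272 1 = true :=
  ⟨(a (b (l 3) (a (l 3) (b (l 3) (a (l 3) (b (a (l 3) (b (l 3) (l 372756177911))) (a (b (l 443086267239) (a (b (l 3) (l 232095998567)) (b (l 234243482295) (l 16773624)))) (b (a (b (l 364703114103) (l 154249716455)) (l 16773680)) (l 16773656)))))))) (b (a (l 3) (b (a (l 3) (a (l 3) (b (l 3) (b (l 3) (b (l 3) (l 366313727911)))))) (a (b (l 3) (a (b (l 3) (a (l 3) (b (l 374903662199) (l 240149063015)))) (b (a (l 373293049511) (b (l 363092502119) (l 16773864))) (l 173577069991)))) (b (a (b (l 444160009975) (a (a (l 373829920535) (b (l 3) (l 236390966983))) (b (l 240149063239) (l 16774080)))) (b (a (b (l 365239985911) (l 242296546935)) (l 173040199351)) (l 16774112))) (l 16774064))))) (a (b (a (b (l 3) (a (l 3) (b (l 3) (a (l 367387469015) (b (l 362555630743) (l 16773800)))))) (b (a (l 444160009463) (b (l 372756178375) (a (b (l 364703114551) (l 242296546487)) (l 16773584)))) (a (b (a (b (l 3) (l 232095999031)) (b (l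 240149062775) (l 16773856))) (l 16773832)) (l 16773880)))) (a (b (a (b (a (l 3) (b (l 368461210807) (l 234243482519))) (a (l 240149062487) (l 16773736))) (l 179482649559)) (l 16773712)) (l 16773800))) (b (a (b (a (b (a (b (l 232095999271) (l 16773944)) (l 16773968)) (l 16773936)) (l 16773984)) (l 16773928)) (l 16774008)) (l 16773896))))), by decide +kernel⟩

def k71_pm_213 : ∃ t, chk3 f_pm_213 t 498 273 1 = true :=
  ⟨(a (b (a (b (a (l 3) (b (l 3) (a (l 443086266711) (b (l 366313726503) (a (b (l 364166242711) (l 154249715991)) (l 16773448)))))) (a (b (a (l 3) (b (l 3) (a (l 366313726263) (l 240685932631)))) (a (b (a (l 3) (b (l 366313726055) (l 234243481575))) (a (l 240149061543) (l 16773264))) (l 178945777687))) (b (a (b (a (b (l 3) (l 232632869015)) (l 158544683223)) (l 16773360)) (l 16773408)) (l 16773344)))) (b (a (b (a (b (l 3) (a (l 3) (b (l 366850597447) (l 234243482055)))) (b (a (l 366850597639) (b (l 362555630279) (l 16773568))) (l 173040198167))) (a (b (a (l 240149062023) (l 16773504))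 (l 16773472)) (l 16773520))) (l 16773584)) (l 16773464))) (l 16773264)) (l 16773608)), by decide +kernel⟩

def k72_pm_213 : ∃ t, chk3 f_pm_213 t 499 136 1 = true :=
  ⟨(b (a (b (a (b (a (b (a (l 3) (b (l 3) (a (l 373829920855) (b (l 363092502551) (l 164450265143))))) (a (b (a (l 3) (b (l 443086268471) (l 239612192535))) (a (a (b (l 365776856935) (l 16774160)) (l 163913393911)) (l 16774192))) (l 179482650455))) (b (a (b (a (a (l 374366791879) (b (l 3) (l 235854096503))) (b (l 239612192759) (l 16774304))) (l 16774280)) (l 16774320)) (l 16774272))) (l 16774184)) (l 16774344)) (l 16774128)) (l 16774456)) (l 16773992)), by decide +kernel⟩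

def k73_pm_213 : ∃ t, chk3 f_pm_213 t 249 137 1 = true :=
  ⟨(l 16773112), by decide +kernel⟩

def k74_pm_213 : ∃ t, chk3 f_pm_213 t 124 69 1 = true :=
  ⟨(a (b (a (l 600348276886777707896927) (l 16771328)) (l 16769832)) (l 16771432)), by decide +kernel⟩

def k75_pm_213 : ∃ t, chk3 f_pm_213 t 124 35 1 = true :=
  ⟨(l 16766016), by decide +kernel⟩

def k76_pm_213 : ∃ t, chk3 f_pm_213 t 125 17 1 = true :=
  ⟨(b (a (b (b (l 16774520) (l 16773640)) (l 16771816)) (l 16772936)) (l 16765816)), by decide +kernel⟩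

def k77_pm_213 : ∃ t, chk3 f_pm_213 t 63 32 1 = true :=
  ⟨(b (l 6) (l 6)), by decide +kernel⟩

def k78_pm_213 : ∃ t, chk3 f_pm_213 t 1008 264 1 = true :=
  ⟨(l 3), by decide +kernel⟩

def k79_pm_213 : ∃ t, chk3 f_pm_213 t 1009 528 1 = true :=
  ⟨(l 3), by decide +kernel⟩

def k80_pm_213 : ∃ t, chk3 f_pm_213 t 2018 529 1 = true :=
  ⟨(l 3), by decide +kernel⟩

def k81_pm_213 : ∃ t, chk3 f_pm_213 t 2019 1058 1 = true :=
  ⟨(a (l 3) (b (l 3) (a (l 3) (b (l 3) (b (l 3) (b (l 3) (a (l 3) (a (l 3) (b (b (l 446307499079) (a (l 3) (a (l 447918111799) (l 4867135349912572697383157855)))) (b (a (l 3) (a (l 4673707218774231891991199839) (l 16776784))) (a (a (l 3) (l 4509293307306642255511683167)) (l 16776784)))))))))))), by decide +kernel⟩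

def k82_pm_213 : ∃ t, chk3 f_pm_213 t 4038 1059 1 = true :=
  ⟨(b (l 3) (a (b (l 3) (a (l 3) (b (l 3) (a (b (l 3) (b (l 445770628039) (a (l 3) (a (a (l 368998087655) (l 4615678779432726186911907935)) (l 3106939356553669251756507231))))) (b (b (b (l 445770628103) (a (l 3) (a (l 445770628087) (l 249812745207)))) (a (a (l 3) (b (l 3) (l 4538307526977390057169666143))) (c (l 3145624982781337935102918751) (c (l 3135953576224420558107869279) (l 3135953576224420351949439071))))) (a (a (b (b (l 6927144946535897237669593183) (l 171429592055)) (l 16776736)) (l 16776744)) (l 16776744))))))) (a (a (b (l 3) (b (b (l 447381240775) (b (a (l 3) (a (a (l 369534958583) (l 4606007372875809703270072415)) (l 3106939356553669732792860767))) (a (a (l 6936816353092814477225640031) (a (l 4693050031888062935129440351) (l 170355850247))) (l 16776744)))) (l 196125654023))) (b (b (l 3) (b (l 3) (b (l 3) (b (l 445770628103) (a (l 3) (a (l 445770628087) (l 249275874311))))))) (b (a (b (a (b (l 3) (b (l 6927144946535897787425407071)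 (l 170892721159))) (b (b (l 3) (l 4528636120420473573527847007)) (l 16776744))) (l 16776744)) (l 3416424366375015969748729951)) (l 16776752)))) (b (b (b (l 3) (a (l 3) (a (a (l 3) (b (l 3) (b (l 3) (l 4528636120420474123283660895)))) (b (a (l 447918111751) (a (l 6927144946535898474620190815) (l 4731735658115732030792745055))) (a (a (l 4818778317127985262652112991) (l 16776672)) (l 16776752)))))) (b (b (a (l 446844369927) (b (a (a (l 6927144946535898337181237343) (l 16776752)) (l 16776752)) (l 189683203095))) (a (a (l 3) (a (a (l 369534958599) (l 4606007372875810253025902687)) (l 3106939356553670282548691039))) (l 16776752))) (b (a (a (a (l 6936816353092815026981470303) (c (l 4838121130241819260727918687) (l 4818778317127984781615743071))) (l 16776752)) (l 16776760)) (l 195588783127)))) (l 16776760))))), by decide +kernel⟩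

def k83_pm_213 : ∃ t, chk3 f_pm_213 t 4039 2118 1 = true :=
  ⟨(a (b (l 3) (a (a (l 8107056546479775793218895967) (b (l 3) (a (b (l 3) (a (b (l 3) (b (l 6927144946535898886937067615) (l 170355850279))) (b (b (l 3) (l 4518964713863557639641841759)) (l 16776760)))) (b (b (l 3) (a (l 448454982679) (a (l 6927144946535899024376021087) (l 4731735658115732580548575327)))) (a (a (b (l 4809106910571068779010277471) (l 16776760)) (l 16776720)) (l 16776760)))))) (b (b (a (l 3) (b (b (l 446307499063) (a (l 3) (a (l 447381240871) (l 248739003447)))) (b (a (l 3) (a (l 4683378625331147825877188703) (l 16776768))) (a (a (l 3) (l 4518964713863558189397672031)) (l 16776768))))) (b (a (l 447381240871) (b (a (a (l 6927144946535899367973421151) (l 16776768)) (l 16776768)) (l 189683203127))) (a (a (l 3) (a (b (l 446844369943) (l 4683378625331147550999281759)) (l 3097267949996754348662702175))) (l 16776768)))) (b (b (a (a (a (l 6936816353092816126493130847) (a (l 4673707218774230448882155615) (l 169282108455)))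 (l 16776768)) (l 16776768)) (l 195588783159)) (l 16776768))))) (b (a (b (b (l 3) (b (l 3) (b (l 8087713733365942894654898271) (a (l 3) (a (l 3) (a (l 447381240887) (l 248202132535))))))) (b (a (l 8068370920252108759140122719) (a (a (b (l 3) (b (l 6927144946535899917729251423) (l 169818979383))) (b (b (l 3) (l 4509293307306641705755852895)) (l 16776776))) (a (a (b (l 4809106910571069878521954399) (l 16776776)) (l 188609461319)) (l 16776776)))) (a (b (a (l 3) (a (b (l 447381240871) (l 4673707218774231067357462623)) (l 3087596543439837865020866655))) (a (a (l 6936816353092816676248977503) (a (l 4673707218774230998637969503) (l 168745237559))) (l 16776768))) (l 16776776)))) (b (b (b (a (l 446844369943) (b (a (a (l 6927144946535900467485065311) (l 16776776)) (l 16776784)) (l 189683203143))) (a (a (l 3) (a (b (l 447918111799) (l 4673707218774231617113276511)) (l 3087596543439838414776696927))) (l 16776784))) (b (a (a (a (l 6936816353092817226004775007) (a (l 4673707218774231548393799775) (l 168745237575)))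 (l 16776776)) (l 16776784)) (l 195588783175))) (l 16776784))) (l 199346879623))), by decide +kernel⟩

def k84_pm_213 : ∃ t, chk3 f_pm_213 t 4039 2119 1 = true :=
  ⟨(a (b (b (b (a (a (b (a (l 3) (a (a (l 369534958615) (l 4606007372875810802781732959)) (l 3097267949996753798906855519))) (a (a (l 6936816353092815576737316959) (a (l 4683378625331146932523974751) (l 169282108439))) (l 16776760))) (l 16776760)) (l 16776776)) (l 198273137719)) (l 16776776)) (l 16776784)) (l 16776800)), by decide +kernel⟩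

def k85_pm_213 : ∃ t, chk3 f_pm_213 t 1008 530 1 = true :=
  ⟨(a (l 3) (b (l 3) (a (l 3) (b (a (l 3) (b (l 3) (b (l 3) (b (l 3) (a (l 3) (a (l 3) (a (a (l 3) (b (l 3) (l 6917473539978974912872087647))) (b (a (l 444696886119) (a (l 6917473539978975050311041119) (l 247665261431))) (l 3174639202452083469018120287))))))))) (a (b (l 3) (b (a (l 3) (b (a (l 3) (a (a (l 3) (c (l 6936816353092808086314123359) (l 6927144946535890709319090271))) (b (a (l 444160015175) (a (l 6907802133422056986121207903) (l 247665261399))) (l 3184310609008999471623585887)))) (b (a (l 444696886087) (b (a (l 4799435504014143705433620575) (l 16776656)) (l 16776576))) (a (a (l 3) (a (a (l 368461216583) (l 4654364405660387929590988895)) (l 174650817367))) (l 16776656))))) (b (a (b (l 3) (a (l 3) (a (l 3) (a (l 443623144247) (a (l 6907802133422056436365377631) (l 248202132295)))))) (a (a (b (a (l 367924345655) (l 4876806756469479766456402015)) (l 16776568)) (l 16776656)) (l 16776664))) (a (a (l 445770627847) (a (b (l 6927144946535890297002213471)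 (a (l 4770421284343391986765381727) (l 16776648))) (l 3310038894248920630915104863))) (l 16776656))))) (b (a (b (a (l 3) (b (l 3) (a (l 3) (a (l 446844369735) (a (l 6927144946535891465233350751) (b (l 3) (l 247665261415))))))) (b (a (l 445770627879) (a (a (b (l 3) (l 4760749877786475984159916127)) (b (l 6917473539978974431835717727) (l 16776664))) (l 3310038894248921730426749023))) (a (a (a (l 6946487759649724913553342559) (b (l 3) (l 4876806756469480247492755551))) (b (a (a (l 368461216599) (l 4644692999103471445949169759)) (l 174650817367)) (l 16776664))) (l 16776664)))) (b (b (b (a (l 444696886087) (b (a (l 4799435504014144736225820767) (l 16776672)) (l 16776592))) (a (a (l 3) (a (a (l 368461216615) (l 4654364405660389029102649439)) (l 174113946471))) (l 16776672))) (a (a (b (a (l 368461216599) (l 4876806756469480797248585823)) (l 16776584)) (l 16776672)) (l 16776672))) (l 16776672))) (l 199346879351))))))), by decide +kernel⟩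

def k86_pm_213 : ∃ t, chk3 f_pm_213 t 2016 1062 1 = true :=
  ⟨(a (l 3) (b (l 3) (a (l 3) (a (b (l 3) (b (a (l 3) (a (l 3) (a (l 448454982327) (b (l 3) (b (l 3) (l 4644692999103467597658341471)))))) (b (a (l 445233756839) (a (b (l 6917473539978970171228012639) (a (l 4780092690900305927786496095) (l 16776600))) (l 3319710300805834571936186463))) (a (a (a (l 6936816353092803688267481183) (b (l 450065595079) (l 253033970407))) (b (a (a (l 367924345559) (l 4683378625331135387651539039)) (l 176261429991)) (l 16776600))) (l 16776608))))) (b (b (l 3) (b (l 3) (a (l 3) (b (a (l 3) (a (l 442549402343) (l 4644692999103468078694695007))) (a (l 6917473539978970652264366175) (l 3193982015565913343925207135)))))) (b (b (b (a (l 443086273223) (b (a (l 4818778317127974611132891231) (l 16776616)) (l 16776608))) (a (a (l 450602466007) (a (a (l 367924345575) (l 4673707218774218904009719903)) (l 176261430007))) (l 16776616))) (a (a (a (b (l 367924345575) (l 16776608)) (l 3155296389338244935456669791)) (l 16776608))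 (l 16776616))) (l 16776616))))))), by decide +kernel⟩

def k87_pm_213 : ∃ t, chk3 f_pm_213 t 4032 1063 1 = true :=
  ⟨(b (a (l 3) (b (l 3) (a (a (l 3) (a (l 3) (a (l 451139336839) (b (l 3) (b (l 3) (b (l 3) (l 4654364405660382569471623263))))))) (b (b (l 3) (a (l 3) (b (a (l 3) (a (l 441475660455) (l 4654364405660383050507976799))) (a (l 6917473539978968590680014943) (l 177335171767))))) (a (b (a (l 450065595015) (b (l 438254434967) (c (l 4828449723684889651665649759) (l 4799435504014138276594794591)))) (a (a (b (l 367387474599) (l 16776576)) (l 3164967795895159907269951583)) (l 16776576))) (a (a (b (b (l 4789764097457221380636131423) (l 16776576)) (l 16776584)) (l 16776584)) (l 16776584))))))) (a (b (a (l 3) (b (l 3) (b (a (l 3) (a (l 7139915890788058434680553567) (b (a (l 440938789511) (l 4876806756469473719142252639)) (l 177872042647)))) (b (a (l 443086273175) (a (a (l 5021877854823228532912210015) (l 16776560)) (l 16776568))) (a (a (l 449528724087) (a (l 6859445100637464328709783647)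 (l 177335171735))) (l 16776568)))))) (b (a (a (l 448454982279) (b (a (l 3) (a (l 444696885863) (b (l 3) (l 4886478163026388828394537055)))) (a (b (l 6869116507194379644120481887) (a (l 5021877854823226677486354527) (l 16776552))) (l 184851364487)))) (a (a (a (b (b (l 369534958215) (l 16776560)) (l 16776560)) (l 3358395927033498925955465311)) (l 16776560)) (l 16776568))) (b (a (a (a (a (l 7139915890788055479743021151) (b (l 448454982247) (l 253570841207))) (b (l 5041220667937060400684236895) (l 16776552))) (l 16776560)) (l 16776568)) (l 16776560)))) (a (b (b (b (a (l 444696885863) (a (b (l 6917473539978968109643661407) (a (l 4789764097457220899599777887) (l 16776568))) (l 184314493607))) (a (a (a (l 6936816353092801626683113567) (b (l 448991853191) (l 253570841255))) (b (c (l 4828449723684889101909819487) (l 4799435504014137795558441055)) (l 16776568))) (l 16776576))) (l 16776576)) (l 16776584)) (l 16776592)))), by decide +kernel⟩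

def k88_pm_213 : ∃ t, chk3 f_pm_213 t 4033 1063 1 = true :=
  ⟨(b (a (b (b (a (l 3) (b (a (l 3) (b (a (l 3) (a (l 442012531399) (l 4644692999103467047902511199))) (a (l 6917473539978969621472198751) (l 177335171799)))) (b (a (l 443623144151) (b (a (l 4828449723684890613738389599) (l 16776600)) (l 16776600))) (a (a (l 450602465975) (a (a (l 367387474631) (l 241759681239)) (l 176261429975))) (l 16776600))))) (a (a (l 448991853255) (b (a (l 3) (a (l 445233756839) (b (l 3) (l 4654364405660383600263807071)))) (a (b (l 6917473539978969140435845215) (a (l 4789764097457221930391961695) (l 16776584))) (l 184314493639)))) (a (a (a (b (b (l 367387474631) (l 16776592)) (l 16776592)) (l 3358395927033502155770937439)) (l 16776592)) (l 16776600)))) (b (b (a (a (a (a (l 6936816353092802657475297375) (b (l 449528724135) (l 253570841287))) (a (b (a (l 367387474615) (l 242296552135)) (l 16776584)) (l 185388235463))) (l 16776592)) (l 16776600)) (l 16776432)) (l 16776600))) (l 199346879159)) (l 16776624)),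 by decide +kernel⟩

def k89_pm_213 : ∃ t, chk3 f_pm_213 t 4034 1062 1 = true :=
  ⟨(b (a (b (l 3) (a (l 3) (b (l 3) (b (a (l 3) (b (a (l 3) (a (l 443086273287) (l 4644692999103469178206371935))) (a (l 6917473539978971683056549983) (l 3184310609008997410039218271)))) (b (a (l 443623144167) (b (a (l 4818778317127975641925107807) (l 16776632)) (l 16776624))) (a (a (l 451139336951) (a (a (l 367924345607) (l 4673707218774219934801920095)) (l 175724559127))) (l 16776632))))))) (a (b (a (l 3) (a (l 3) (a (l 452213078791) (b (l 3) (b (l 3) (a (l 6927144946535889403648983135) (b (l 3) (l 248202132263)))))))) (b (b (a (l 445233756903) (a (b (l 6917473539978972232812380255) (a (l 4770421284343390955973197919) (l 16776632))) (l 3319710300805836633520570463))) (a (a (a (l 6946487759649722783249498207) (b (l 451139336967) (l 252497099543))) (b (a (a (l 367924345623) (l 4664035812217303451160100959)) (l 175187688231)) (l 16776632))) (l 16776640))) (l 16776552))) (b (b (b (l 3) (a (l 3) (b (a (l 3) (a (l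 443623144231) (c (l 4644692999103470346437509215) (l 4625350185989636004764303455)))) (a (l 6927144946535889815965859935) (l 3184310609008998440831402079))))) (b (b (a (l 444160015143) (b (a (l 4809106910571059639319625823) (l 16776640)) (l 16776480))) (a (a (l 3) (a (a (l 367924345639) (l 4664035812217303932196470879)) (l 175187688247))) (l 16776640))) (a (a (b (a (l 367924345639) (l 251960228647)) (l 16776640)) (l 16776640)) (l 16776648)))) (l 16776648)))) (a (b (b (a (a (l 449528724231) (b (a (l 3) (a (l 446307498727) (b (l 3) (l 4644692999103468628450525279)))) (a (b (l 6917473539978971202020196447) (a (l 4780092690900306958578679903) (l 16776616))) (l 3319710300805835602728370271)))) (a (a (a (b (b (l 367924345607) (l 16776624)) (l 16776624)) (l 3348724520476587183957655647)) (l 16776624)) (l 16776632))) (b (a (a (a (a (l 6936816353092804719059664991) (b (l 450602466023) (l 252497099511))) (b (a (a (l 367924345591) (l 4664035812217302351648424031)) (l 175724559111)) (l 16776616))) (l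 16776624)) (l 16776632)) (l 16776544))) (l 16776632)) (l 16776656))), by decide +kernel⟩

def k90_pm_213 : ∃ t, chk3 f_pm_213 t 4035 1062 1 = true :=
  ⟨(b (a (b (b (b (a (a (a (a (l 6946487759649723882761158751) (b (l 3) (l 251960228663))) (b (a (a (l 368461216567) (l 4654364405660387448554635359)) (l 175187688263)) (l 16776648))) (l 16776648)) (l 16776664)) (l 16776616)) (l 16776664)) (l 16776672)) (l 16776688)) (l 16776696)), by decide +kernel⟩

def k91_pm_213 : ∃ t, chk3 f_pm_213 t 2017 1063 1 = true :=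
  ⟨(l 16776696), by decide +kernel⟩

def k92_pm_213 : ∃ t, chk3 f_pm_213 t 4036 1060 1 = true :=
  ⟨(b (l 3) (a (l 3) (b (l 3) (b (b (l 3) (a (l 3) (a (l 3) (a (a (l 3) (a (l 444696886151) (b (l 3) (l 6907802133422060078497759327)))) (b (a (l 445770627991) (a (l 6917473539978977180614885471) (l 4770421284343395903775670367))) (l 3164967795895168565924298847)))))) (a (a (l 3) (b (l 3) (a (l 3) (a (l 447918111607) (a (l 6936816353092810628934844511) (b (l 3) (l 246591519639))))))) (b (b (a (l 445233757047) (b (a (l 4789764097457229833132015711) (l 16776704)) (l 190756944807))) (a (a (l 3) (a (a (l 368461216663) (l 4625350185989639990494052447)) (l 173577075623))) (l 16776704))) (b (a (a (a (l 368461216663) (l 4857463943355648860757114975)) (l 16776696)) (l 16776704)) (l 196125653927)))))))), by decide +kernel⟩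

def k93_pm_213 : ∃ t, chk3 f_pm_213 t 4037 1060 1 = true :=
  ⟨(b (a (l 3) (a (b (l 3) (b (b (l 3) (b (l 3) (b (l 8068370920252104910849310815) (a (l 3) (a (l 3) (a (l 444160015303) (l 250349616087))))))) (b (a (l 446844369815) (a (b (a (l 3) (b (l 3) (l 4547978933534305510019301471))) (a (l 4741407064672646177972289631) (l 16776720))) (l 3300367487692008888917311583))) (a (b (a (l 3) (a (a (l 369534958535) (l 4625350185989641639761543263)) (l 173040204759))) (a (a (l 6927144946535895313524179039) (l 4847792536798733407907479647)) (l 16776720))) (l 16776720))))) (b (a (l 3) (b (l 3) (b (l 3) (b (b (l 445233757159) (a (l 3) (a (l 444696886231) (l 249812745191)))) (a (a (l 3) (b (l 3) (l 4547978933534306059775148127))) (l 3155296389338253662830493791)))))) (b (b (b (a (l 445770628023) (b (a (l 4780092690900314930038194271) (l 16776728)) (l 190220073959))) (a (a (l 3) (a (a (l 368998087639) (l 4615678779432725087400247391)) (l 3116610763110585185642496095))) (l 16776728))) (b (a (a (a (l 6936816353092812896677642335)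 (l 4847792536798733957663309919)) (l 16776728)) (l 16776728)) (l 195588783079))) (l 16776728))))) (a (a (b (b (l 3) (a (l 450065595303) (b (a (l 3) (a (l 448454982551) (a (l 6936816353092811728446488671) (b (l 3) (l 4770421284343396453531500639))))) (a (a (b (l 3) (l 4751078471229562180577755231)) (b (a (l 373829925799) (l 6907802133422060628253573215)) (l 16776704))) (l 3300367487692007858125127775))))) (b (b (a (b (a (l 3) (a (a (l 368461216679) (l 4625350185989640540249882719)) (l 173040204727))) (a (a (l 6927144946535894282731978847) (l 4847792536798732308395819103)) (l 16776704))) (l 16776712)) (l 196662524855)) (l 16776712))) (b (b (b (a (l 3) (b (a (l 3) (a (l 446307498935) (a (l 6917473539978978280126529631) (l 4760749877786479901170204767)))) (a (a (l 3) (b (l 3) (l 4557650340091221993661120607))) (l 3155296389338252632038309983)))) (b (a (l 445770628023) (b (a (l 4780092690900313830526517343) (l 16776712)) (l 190220073927))) (a (a (l 3) (a (a (l 368998087607) (l 4625350185989641090005712991))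 (l 173040204743))) (l 16776712)))) (b (b (a (a (a (l 6927144946535894763768332383) (l 4847792536798732858151649375)) (l 16776712)) (l 16776720)) (l 195588783047)) (l 16776720))) (l 16776720))) (l 199883750391))), by decide +kernel⟩

def k94_pm_213 : ∃ t, chk3 f_pm_213 t 2018 1061 1 = true :=
  ⟨(a (b (a (b (a (l 3) (b (l 3) (b (a (l 3) (b (a (l 3) (a (l 445233757047) (a (l 6917473539978976149822701663) (l 247128390535)))) (a (a (l 3) (c (l 6927144946535893251939795039) (l 6907802133422058772827668575))) (l 3164967795895167535132115039)))) (b (a (l 445233757063) (b (a (l 4789764097457228733620355167) (l 16776688)) (l 16776648))) (a (a (l 3) (a (a (l 368461216631) (l 4635021592546555993099534431)) (l 174113946503))) (l 16776688)))))) (b (a (a (l 450065595255) (b (a (l 3) (a (l 447381240679) (a (l 6936816353092809598142660703) (b (l 3) (l 247128390535))))) (a (a (b (l 3) (l 4751078471229560050273927263)) (b (l 6917473539978975462627917919) (l 16776680))) (l 3310038894248922761218949215))))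 (a (b (a (b (a (l 368461216631) (l 4867135349912564794643120223)) (l 16776600)) (l 16776688)) (l 16776688)) (l 16776688))) (b (a (a (a (a (l 6946487759649725944345526367) (b (l 3) (l 4867135349912564313606766687))) (b (a (a (l 368461216615) (l 4644692999103472476741353567)) (l 174113946487)) (l 16776680))) (l 16776680)) (l 16776688)) (l 198273137559)))) (a (b (b (b (a (l 446307498839) (a (a (b (l 3) (l 4751078471229561081066111071)) (b (a (l 373829925767) (l 6907802133422059528741929055)) (l 16776696))) (l 3300367487692006758613467231))) (a (a (a (l 6956159166206644145974313055) (b (l 3) (l 4867135349912565344398950495))) (b (a (a (l 368461216647) (l 4635021592546556542855364703)) (l 173577075607)) (l 16776688))) (l 16776696))) (l 197736266663)) (l 16776704)) (l 16776712))) (l 16776712)) (l 16776752)), by decide +kernel⟩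

def k95_pm_213 : ∃ t, chk3 f_pm_213 t 2019 530 1 = true :=
  ⟨(b (a (b (a (b (b (b (a (b (l 3) (b (l 8078042326809022975039144031) (a (l 3) (a (l 3) (a (l 445233757159) (l 249812745207)))))) (b (a (a (a (l 6936816353092813996189319263) (l 4838121130241817955057844319)) (l 16776736)) (l 16776744)) (l 195588783111))) (a (a (l 447381240743) (a (a (b (l 3) (l 4731735658115730244086284383)) (b (b (l 3) (l 4547978933534306609530962015)) (l 16776736))) (l 3300367487692009988428972127))) (l 16776744))) (b (a (a (b (a (l 3) (a (a (l 368998087639) (l 4615678779432725637156077663)) (l 3116610763110585735398342751))) (a (a (l 6936816353092813446433472607) (l 4838121130241817405302014047)) (l 16776736))) (l 16776736)) (l 16776744)) (l 198273137671))) (l 16776752)) (l 16776768)) (l 16776776)) (l 16776824)) (l 16776832)), by decide +kernel⟩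

def k96_pm_213 : ∃ t, chk3 f_pm_213 t 1009 531 1 = true :=
  ⟨(l 16776840), by decide +kernel⟩

def k97_pm_213 : ∃ t, chk3 f_pm_213 t 505 528 1 = true :=
  ⟨(l 6), by decide +kernel⟩

def k98_pm_213 : ∃ t, chk3 f_pm_213 t 4040 2116 1 = true :=
  ⟨(a (l 3) (b (l 3) (b (b (l 3) (a (l 3) (a (l 3) (b (b (l 447381240951) (a (l 3) (a (l 449528724583) (l 4847792536798740829611163743)))) (b (a (l 3) (a (l 4683378625331151124412153951) (l 16776808))) (a (a (l 3) (a (l 371145571447) (l 240149068919))) (l 16776808))))))) (b (a (l 3) (b (a (l 447381240903) (b (a (a (l 6936816353092819699906019423) (l 16776720)) (l 16776808)) (l 189146332279))) (a (a (l 3) (a (b (l 449528724583) (l 4683378625331150849534230623)) (l 3068253730326006478285226079))) (l 16776808)))) (a (b (l 3) (b (l 8097385139922861577320038495) (a (l 3) (a (l 3) (a (l 449528724583) (l 4847792536798740279855317087)))))) (b (a (a (a (l 6946487759649736389706252383) (a (l 4654364405660399680621805663) (l 3029568104098338207255674975))) (l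 16776800)) (l 16776808)) (l 195588783223))))))), by decide +kernel⟩

def k99_pm_213 : ∃ t, chk3 f_pm_213 t 4040 2117 1 = true :=
  ⟨(a (b (a (l 3) (b (l 3) (a (b (l 3) (b (l 447381240887) (a (l 3) (a (b (l 448454982727) (l 4693050031888066783420235871)) (l 3077925136882922480890691679))))) (b (b (b (l 446844370023) (a (l 3) (a (l 448991853655) (l 4857463943355656763497152607)))) (b (a (l 3) (a (l 4683378625331150024900493407) (l 16776792))) (a (a (l 3) (c (l 4509293307306643561181757535) (l 4480279087635891979952472159))) (l 16776792)))) (a (a (b (b (l 6936816353092818600394375263) (l 168745237607)) (l 16776792)) (l 16776712)) (l 16776792)))))) (b (b (a (b (l 3) (b (l 8087713733365943306971775071) (a (l 3) (a (l 3) (a (l 448454982727) (l 4857463943355656213741322335)))))) (b (a (a (a (l 6946487759649735358914084959) (a (l 4664035812217315614507810911) (l 3039239510655254141141680223))) (l 16776792)) (l 16776792)) (l 195588783207))) (a (a (l 8078042326809026548452048991) (a (a (b (l 3) (b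 (l 6936816353092818050638544991) (l 168745237591))) (b (b (l 3) (c (l 4509293307306643011425927263) (l 4480279087635891430196641887))) (l 16776784))) (a (a (b (l 4799435504014153944635949151) (l 16776784)) (l 188609461335)) (l 16776784)))) (l 16776792))) (b (a (a (b (a (l 3) (a (b (l 448454982727) (l 4693050031888066233664421983)) (l 3087596543439838964532527199))) (a (a (l 6946487759649734809158254687) (a (l 4664035812217315064751980639) (l 3039239510655253591385833567))) (l 16776784))) (l 16776784)) (l 16776800)) (l 198810008727)))) (a (b (b (a (b (l 8078042326809027647963693151) (b (a (l 3) (a (b (l 448991853655) (l 4693050031888067333176066143)) (l 3068253730326005997248872543))) (a (a (l 6946487759649735908669915231) (a (l 4664035812217316164263641183) (l 3029568104098337657499844703))) (l 16776800)))) (b (a (a (b (l 3) (b (l 6936816353092819150150205535) (l 168208366695))) (b (b (l 3) (a (l 371145571431) (l 240685939815))) (l 16776712))) (a (a (b (l 4780092690900320908632834143) (l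 16776800)) (l 188072590455)) (l 16776800))) (l 16776800))) (l 197199395959)) (l 16776808)) (l 16776816))), by decide +kernel⟩

def k100_pm_213 : ∃ t, chk3 f_pm_213 t 4041 1058 1 = true :=
  ⟨(b (a (b (b (l 6) (b (l 6) (a (a (l 8087713733365945780873003103) (b (b (l 6) (a (b (l 374903667831) (a (l 3) (l 240149068935))) (l 16776808))) (b (a (a (l 6936816353092820249661849695) (l 16776728)) (l 16776808)) (l 188609461383)))) (l 16776816)))) (b (b (a (a (b (a (l 3) (a (b (l 450065595511) (l 4673707218774234365892411487)) (l 3068253730326007028041056351))) (a (a (l 6946487759649736939462082655) (a (b (l 371682442359) (l 16776720)) (l 3019896697541421723613839455))) (l 16776808))) (l 16776816)) (l 16776824)) (l 198810008775)) (l 16776824))) (l 3609852497513369213366108255)) (l 16776848)), by decide +kernel⟩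

def k101_pm_213 : ∃ t, chk3 f_pm_213 t 2020 1059 1 = true :=
  ⟨(l 16776856), by decide +kernel⟩

def k102_pm_213 : ∃ t, chk3 f_pm_213 t 2021 529 1 = true :=
  ⟨(l 16776936), by decide +kernel⟩

def k103_pm_213 : ∃ t, chk3 f_pm_213 t 1011 529 1 = true :=
  ⟨(l 16777088), by decide +kernel⟩

def k104_pm_213 : ∃ t, chk3 f_pm_213 t 505 265 1 = true :=
  ⟨(l 16777120), by decide +kernel⟩

def k105_pm_213 : ∃ t, chk3 f_pm_213 t 252 133 1 = true :=
  ⟨(a (b (a (b (l 602772294434326255248991) (l 16776776)) (l 16776960)) (l 16777000)) (l 16777360)), by decide +kernel⟩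

def k106_pm_213 : ∃ t, chk3 f_pm_213 t 253 66 1 = true :=
  ⟨(b (l 16777552) (l 16777640)), by decide +kernel⟩

def k107_pm_213 : ∃ t, chk3 f_pm_213 t 126 67 1 = true :=
  ⟨(a (l 16776696) (l 16777752)), by decide +kernel⟩

def k108_pm_213 : ∃ t, chk3 f_pm_213 t 127 33 1 = true :=
  ⟨(l 16756304), by decide +kernel⟩

def k109_pm_213 : ∃ t, chk3 f_pm_213 t 63 17 1 = true :=
  ⟨(a (b (l 16773752) (l 16766256)) (b (l 16776664) (l 16769240))), by decide +kernel⟩

def k110_pm_213 : ∃ t, chk3 f_pm_213 t 15 9 1 = true :=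
  ⟨(a (b (a (b (a (b (a (l 3) (b (l 3) (a (l 3) (b (a (l 3) (l 343228189895)) (a (b (l 3) (l 138680361079)) (l 150491521927)))))) (a (b (a (l 3) (b (l 3) (a (l 3) (b (l 193978055175) (l 142975312999))))) (a (b (a (l 3) (l 199883626327)) (l 148344008759)) (b (l 154249594839) (l 16706792)))) (b (a (b (a (b (l 3) (l 199346767479)) (l 146196547703)) (l 160155196407)) (l 167671394583)) (l 16705728)))) (b (a (b (a (b (l 3) (a (l 3) (b (l 3) (a (l 212231692391) (l 135459151287))))) (b (a (l 3) (b (a (l 3) (l 213305446279)) (l 138680384823))) (a (b (a (l 199883665159) (l 145659702455)) (l 162302705751)) (l 170892643415)))) (a (b (a (b (a (l 3) (l 125795471143)) (l 147270302775)) (l 160155218375)) (l 16723096)) (l 16724336))) (b (a (b (a (b (l 146196581671) (l 16735472)) (l 16736384)) (l 16731440)) (l 16733536)) (l 16722824))) (l 16705504))) (a (b (a (b (l 16699048) (l 16686152)) (l 16686072)) (l 16661120)) (l 16661608))) (b (a (b (l 16729240) (l 16703168)) (l 16730392)) (l 16653160))) (a (b (l 16600928)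 (l 16522776)) (l 16534144))) (b (a (a (l 16735560) (l 16749600)) (b (l 16756664) (l 16742616))) (a (l 16505280) (b (l 16725496) (l 16557600))))), by decide +kernel⟩

def k111_pm_213 : ∃ t, chk3 f_pm_213 t 2 5 1 = true :=
  ⟨(l 3), by decide +kernel⟩

def k112_pm_213 : ∃ t, chk3 f_pm_213 t 6 10 1 = true :=
  ⟨(a (l 3) (a (l 3) (b (b (l 3) (a (l 3) (b (l 3) (a (l 3) (l 225116432535))))) (a (b (l 3) (a (b (l 3) (a (b (l 3) (a (l 3) (l 225653246503))) (b (a (l 3) (l 219747664503)) (a (b (l 217600177479) (l 187535407655)) (l 180019214519))))) (b (a (b (l 3) (a (l 230485090775) (l 206862760823))) (b (l 215989569735) (l 188609133895))) (a (b (a (l 196662205079) (l 16611392)) (l 16604304)) (l 16597872))))) (b (a (b (a (l 3) (l 226190143479)) (a (b (l 3) (l 213305213879)) (b (l 210620858247) (l 16611216)))) (b (b (l 213842092807) (l 190756622567)) (l 16599112))) (a (b (b (l 176797996967) (l 16595928)) (l 16580040)) (l 16565544))))))), by decide +kernel⟩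

def k113_pm_213 : ∃ t, chk3 f_pm_213 t 12 11 1 = true :=
  ⟨(b (l 3) (a (l 3) (b (a (l 3) (a (l 3) (b (l 3) (a (b (l 3) (a (b (l 3) (l 234780054615)) (b (l 228337603271) (l 187535406375)))) (b (a (b (l 3) (a (l 243369989351) (l 217063299607))) (b (a (l 235316923943) (l 210620846855)) (l 190756618791))) (a (b (a (l 193440987015) (l 16618032)) (l 16615256)) (l 16612248))))))) (a (a (l 3) (b (l 3) (a (b (l 3) (l 251423052807)) (b (b (l 3) (l 238001277191)) (a (b (l 234780051767) (l 177334863111)) (l 160154994423)))))) (a (b (a (b (l 3) (a (l 3) (b (l 257865503831) (l 209010247319)))) (b (a (l 251423054391) (b (l 241759376503) (a (l 212768344535) (l 166060576727)))) (a (b (a (l 221895150231) (l 176797994391)) (l 16619080)) (l 16616152)))) (a (b (a (b (l 219210794871) (l 16620256)) (l 16618056)) (l 16612680)) (l 16606752))) (b (a (b (a (b (a (l 205252150727) (l 16609432)) (l 16617176)) (l 16614216)) (l 16608720)) (l 16602608)) (l 16591656))))))), by decide +kernel⟩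

def k114_pm_213 : ∃ t, chk3 f_pm_213 t 13 22 1 = true :=
  ⟨(a (a (b (l 3) (a (b (l 3) (a (l 3) (b (l 3) (a (l 3) (b (l 3) (l 234780040887)))))) (b (a (l 3) (b (l 3) (a (l 3) (b (l 3) (a (l 226190112647) (l 201494045831)))))) (a (b (a (l 3) (b (l 3) (a (l 240685630455) (l 214915821975)))) (a (b (a (l 3) (l 221895145511)) (a (l 203104660487) (l 16616520))) (b (a (l 196125336887) (l 16615608)) (l 16612672)))) (b (a (b (a (l 233169436087) (l 207936498439)) (l 177871731895)) (b (l 174650504487) (l 16610816))) (l 16606976)))))) (b (a (b (l 3) (a (l 3) (b (l 3) (a (b (l 3) (l 228337597303)) (b (l 223505757671) (l 192904107239)))))) (b (a (l 3) (b (l 234780058775) (a (b (l 234780051143) (l 210620851623)) (b (l 206325882999) (l 16613000))))) (a (b (a (b (l 3) (l 218673918055)) (b (l 214915820279) (l 181092954327))) (a (b (l 188609138391) (l 16610808)) (l 16607696))) (b (l 171429278135) (l 16599504))))) (a (b (a (b (a (l 241222505959) (b (l 233169436967) (a (l 213842078503) (l 184851051799)))) (a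 (b (a (l 220284531015) (l 195051593239)) (l 16614224)) (l 16611160))) (b (a (b (a (l 205252142343) (l 16615576)) (l 16612488)) (l 16609408)) (l 16603168))) (b (l 16599680) (l 16590840))) (b (l 16591144) (l 16572752))))) (a (b (a (b (a (b (a (b (l 225653243335) (l 198272818007)) (l 189146006535)) (l 16607200)) (l 16600832)) (l 16587216)) (l 16573200)) (l 16545896)) (b (l 16534880) (l 16492864)))), by decide +kernel⟩

def k115_pm_213 : ∃ t, chk3 f_pm_213 t 13 23 1 = true :=
  ⟨(a (b (a (a (b (a (b (a (l 3) (l 253033669335)) (a (b (l 3) (a (l 231021954903) (l 203641533687))) (b (a (l 224042631303) (l 196662210023)) (l 16616440)))) (b (a (b (l 239611870263) (a (l 217063307703) (l 180556088375))) (b (a (l 210083984103) (l 175724248023)) (l 16614552))) (a (l 16613416) (l 16608296)))) (a (b (a (b (l 186461649783) (l 16613312)) (l 16610272)) (l 16604624)) (l 16598352))) (b (b (a (l 16608912) (l 16598384)) (l 16595144)) (l 16582344))) (b (l 16566128) (l 16548424))) (a (b (l 16576352) (l 16559968))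 (l 16522544))) (b (l 16481112) (l 16445248))), by decide +kernel⟩

def k116_pm_213 : ∃ t, chk3 f_pm_213 t 7 5 1 = true :=
  ⟨(a (b (b (a (b (a (b (l 3) (a (l 3) (l 202030967959))) (a (b (l 189682942087) (l 183240499319)) (b (l 16624280) (l 16597480)))) (a (a (b (l 214378995431) (a (l 195051610807) (l 16614872))) (b (l 189682891463) (l 16596776))) (l 16569776))) (a (b (l 16570736) (l 16509720)) (l 16473136))) (a (a (b (a (l 16606656) (l 16559416)) (l 16524576)) (l 16361792)) (a (l 16417808) (l 16337032)))) (b (a (b (l 16445320) (l 16399352)) (l 16265536)) (a (l 16337624) (l 16177088)))) (b (a (b (a (l 16397144) (l 16310248)) (l 16019816)) (b (a (l 16219272) (l 16172560)) (a (l 15992952) (l 15842936)))) (a (b (l 16055536) (l 15967784)) (b (a (l 15840104) (l 15663176)) (l 15683360))))), by decide +kernel⟩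

def k117_pm_213 : ∃ t, chk3 f_pm_213 t 4 3 1 = true :=
  ⟨(b (l 3) (b (b (l 3) (a (l 3) (a (l 3) (b (l 378661471287) (b (l 256791743527) (l 1)))))) (l 1))), by decide +kernel⟩

def k118_pm_213 : ∃ t, chk3 f_pm_213 t 5 12 1 = true :=
  ⟨(a (l 3) (b (l 3) (a (l 3) (b (a (l 3) (a (l 3) (b (l 3) (a (l 3) (b (l 3) (a (l 3) (l 266455449431))))))) (a (b (l 3) (a (l 3) (b (l 3) (l 293835882279)))) (b (a (b (l 3) (a (l 3) (l 283098454935))) (b (a (l 278803484583) (a (b (l 262697353847) (l 183777331319)) (l 164986848471))) (a (a (b (l 269676678759) (l 185924818951)) (b (l 184851075207) (l 16626528))) (l 16622368)))) (a (b (a (l 286856554551) (a (b (l 275045391079) (l 205252169687)) (b (l 187535433575) (l 16628280)))) (a (a (b (l 279340361719) (l 214915847207)) (b (l 209547137815) (l 16628728))) (l 16625000))) (l 16630328)))))))), by decide +kernel⟩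

def k119_pm_213 : ∃ t, chk3 f_pm_213 t 5 13 1 = true :=
  ⟨(b (a (l 3) (a (b (l 3) (a (l 3) (b (a (l 3) (b (a (l 3) (b (l 273434768727) (a (l 259476131735) (l 16628568)))) (a (b (l 278266616455) (a (l 265381710727) (l 16628136))) (l 16614752)))) (a (b (a (l 3) (b (l 283635324359) (a (l 270213547655) (l 16627576)))) (a (b (l 287393419271) (a (l 274508513415) (l 16626888))) (l 16619032))) (b (l 186461647991) (l 16615816)))))) (b (a (b (a (l 3) (b (a (l 292225270567) (b (a (l 283635331271) (l 221895169255)) (a (l 232095706215) (l 16628968)))) (a (b (a (l 293835878647) (l 236390663079)) (a (l 240148759447) (l 16629080))) (l 16625616)))) (a (b (a (l 3) (b (a (l 3) (l 243906876711)) (a (l 247128102039) (l 16629040)))) (a (b (a (l 3) (l 250886198199)) (a (l 253570552471) (l 16628872))) (l 16604720))) (b (l 16622360) (l 16615896)))) (b (a (b (l 16621808) (l 16615184)) (l 16604160)) (l 16598784))) (a (b (a (b (l 16627624) (l 16616096)) (l 16606632)) (l 16601208)) (l 16578080))))) (a (a (l 3) (b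 (l 3) (a (l 3) (b (a (l 3) (b (a (l 3) (l 278266599863)) (a (l 280414080871) (l 16618848)))) (a (b (l 301888919959) (l 219747665095)) (l 16613176)))))) (a (b (a (b (a (l 3) (b (a (l 3) (b (l 291688384855) (l 238538157751))) (a (b (l 294909608391) (l 238538155863)) (l 16622848)))) (a (b (a (l 3) (b (l 298130831703) (l 238001282839))) (a (b (l 300815183911) (l 235853798055)) (l 16621016))) (b (l 16609032) (l 16613960)))) (b (a (b (l 189146001607) (l 16615088)) (l 16607232)) (l 16601928))) (a (b (b (l 184314140199) (l 16608208)) (l 16601328)) (l 16585648))) (b (a (l 16581872) (l 16545488)) (l 16526760))))), by decide +kernel⟩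

def k120_pm_213 : ∃ t, chk3 f_pm_213 t 5 7 1 = true :=
  ⟨(b (b (a (a (b (a (l 3) (l 353965401431)) (a (l 363092211991) (b (a (l 356649745911) (l 234780008247)) (l 208473316071)))) (b (a (b (a (l 3) (b (l 305647010167) (l 217063302823))) (a (b (l 308331358295) (l 212768327943)) (l 16608976))) (b (l 16607688) (l 16600024))) (b (l 16599296) (l 16594480)))) (b (a (l 16567552) (l 16484240)) (a (l 16523416) (l 16436152)))) (a (b (a (a (b (l 244980576583) (l 16604200)) (l 16599952)) (l 16566440)) (a (l 16599232) (l 16514896))) (b (a (l 16473896) (l 16385024)) (a (l 16420808) (l 16363912))))) (b (a (l 1) (b (a (l 16386184) (l 16395144)) (l 1))) (l 1))), by decide +kernel⟩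

def k121_pm_213 : ∃ t, chk3 f_pm_213 t 6 12 1 = true :=
  ⟨(a (b (a (b (a (l 3) (a (l 3) (b (l 3) (a (l 3) (b (l 3) (a (l 246591207799) (b (l 227800729367) (l 16620376)))))))) (a (a (l 3) (b (l 3) (a (l 3) (b (l 3) (a (l 279877215655) (b (l 272361021223) (l 219747669111))))))) (b (a (a (l 3) (b (l 3) (a (l 263234213975) (b (l 250349310439) (l 203104660471))))) (a (b (a (l 255181127895) (b (l 239075019831) (l 193440982247))) (l 162839350519)) (b (l 157470639671) (l 16612544)))) (a (a (b (a (l 271824150183) (b (l 261086730295) (l 210083990535))) (a (b (l 214915829799) (l 16621256)) (l 16619320))) (b (b (l 179482350119) (l 16618504)) (l 16614408))) (l 16607440))))) (b (a (b (a (a (l 269676656039) (b (l 260012966711) (a (b (l 257865501991) (l 211157729415)) (b (l 205789019799) (l 16618952))))) (a (b (a (b (l 246054341383) (l 192904119559)) (l 170355541815)) (l 16615808)) (l 16610712))) (a (a (b (a (b (l 269676662727) (l 222432019655)) (b (l 217063309975) (l 16619624))) (l 16617152)) (l 16613752))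 (l 16600240))) (b (l 16586032) (l 16570688))) (a (b (l 16594736) (l 16580208)) (l 16548536)))) (a (b (a (b (a (a (l 3) (b (l 3) (a (l 3) (b (l 3) (l 239611897671))))) (a (b (a (l 3) (b (l 301888923351) (l 229948218759))) (a (b (l 234780058199) (l 16623848)) (l 16621792))) (b (a (b (l 224579508455) (l 16622504)) (l 16620504)) (l 16616664)))) (a (b (a (b (l 3) (l 263771082295)) (a (b (l 244443737191) (l 16625280)) (l 16623176))) (a (a (b (l 253570545431) (l 200420314951)) (l 161765619495)) (l 16619320))) (l 16611608))) (b (l 16623032) (l 16588224))) (a (b (a (l 16614240) (l 16599704)) (l 16594456)) (l 16568720))) (b (l 16540728) (l 16516952)))) (b (a (b (l 16471632) (l 16484632)) (l 16356488)) (a (l 16448664) (l 16355304)))), by decide +kernel⟩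

def k122_pm_213 : ∃ t, chk3 f_pm_213 t 6 13 1 = true :=
  ⟨(b (a (a (b (l 16517616) (l 16528808)) (b (l 16497776) (l 16468344))) (a (b (l 16425616) (l 16415712)) (l 16335936))) (a (b (l 16439408) (a (l 16452088) (l 16385000))) (a (b (l 16381088) (l 16364392)) (l 16326552)))), by decide +kernel⟩

def k123_pm_213 : ∃ t, chk3 f_pm_213 t 6 7 1 = true :=
  ⟨(b (a (b (b (a (l 16405256) (l 16356968)) (a (l 16362456) (l 16358112))) (b (l 16376672) (l 16419080))) (b (l 16353784) (l 16310928))) (b (a (l 16416488) (l 16203592)) (l 1))), by decide +kernel⟩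

def k124_pm_213 : ∃ t, chk3 f_pm_213 t 7 3 1 = true :=
  ⟨(b (a (b (b (a (l 16275680) (l 16121008)) (a (l 16240504) (l 16097272))) (b (a (l 16223328) (l 16090792)) (l 16152496))) (b (a (b (l 15928296) (l 15921008)) (b (l 15670632) (l 15690568))) (a (l 15850696) (b (l 15722176) (l 15747488))))) (a (b (b (l 16133616) (l 16078920)) (b (b (l 15975872) (l 15903520)) (l 15661336))) (b (a (b (l 15927360) (l 15806936)) (b (l 15732520) (b (l 15678152) (l 15541280)))) (b (a (l 15613864) (l 15305072)) (a (l 15288576) (b (l 15059168) (l 14923920))))))), by decide +kernel⟩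

theorem s125_pm_213 : ∃ t, chk3 f_pm_213 t 6 6 1 = true := ex3_b k121_pm_213 k122_pm_213

theorem s126_pm_213 : ∃ t, chk3 f_pm_213 t 6 3 1 = true := ex3_b s125_pm_213 k123_pm_213

theorem s127_pm_213 : ∃ t, chk3 f_pm_213 t 3 3 1 = true := ex3_a s126_pm_213 k124_pm_213

theorem s128_pm_213 : ∃ t, chk3 f_pm_213 t 5 6 1 = true := ex3_b k118_pm_213 k119_pm_213

theorem s129_pm_213 : ∃ t, chk3 f_pm_213 t 5 3 1 = true := ex3_b s128_pm_213 k120_pm_213

theorem s130_pm_213 : ∃ t, chk3 f_pm_213 t 2 3 1 = true := ex3_a k117_pm_213 s129_pm_213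

theorem s131_pm_213 : ∃ t, chk3 f_pm_213 t 1 3 1 = true := ex3_a s130_pm_213 s127_pm_213

theorem s132_pm_213 : ∃ t, chk3 f_pm_213 t 13 11 1 = true := ex3_b k114_pm_213 k115_pm_213

theorem s133_pm_213 : ∃ t, chk3 f_pm_213 t 6 11 1 = true := ex3_a k113_pm_213 s132_pm_213

theorem s134_pm_213 : ∃ t, chk3 f_pm_213 t 6 5 1 = true := ex3_b k112_pm_213 s133_pm_213

theorem s135_pm_213 : ∃ t, chk3 f_pm_213 t 3 5 1 = true := ex3_a s134_pm_213 k116_pm_213

theorem s136_pm_213 : ∃ t, chk3 f_pm_213 t 1 5 1 = true := ex3_a k111_pm_213 s135_pm_213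

theorem s137_pm_213 : ∃ t, chk3 f_pm_213 t 4040 1058 1 = true := ex3_b k98_pm_213 k99_pm_213

theorem s138_pm_213 : ∃ t, chk3 f_pm_213 t 2020 1058 1 = true := ex3_a s137_pm_213 k100_pm_213

theorem s139_pm_213 : ∃ t, chk3 f_pm_213 t 2020 529 1 = true := ex3_b s138_pm_213 k101_pm_213

theorem s140_pm_213 : ∃ t, chk3 f_pm_213 t 1010 529 1 = true := ex3_a s139_pm_213 k102_pm_213

theorem s141_pm_213 : ∃ t, chk3 f_pm_213 t 505 529 1 = true := ex3_a s140_pm_213 k103_pm_213

theorem s142_pm_213 : ∃ t, chk3 f_pm_213 t 505 264 1 = true := ex3_b k97_pm_213 s141_pm_213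

theorem s143_pm_213 : ∃ t, chk3 f_pm_213 t 505 132 1 = true := ex3_b s142_pm_213 k104_pm_213

theorem s144_pm_213 : ∃ t, chk3 f_pm_213 t 2018 1060 1 = true := ex3_a k92_pm_213 k93_pm_213

theorem s145_pm_213 : ∃ t, chk3 f_pm_213 t 2018 530 1 = true := ex3_b s144_pm_213 k94_pm_213

theorem s146_pm_213 : ∃ t, chk3 f_pm_213 t 1009 530 1 = true := ex3_a s145_pm_213 k95_pm_213

theorem s147_pm_213 : ∃ t, chk3 f_pm_213 t 1009 265 1 = true := ex3_b s146_pm_213 k96_pm_213

theorem s148_pm_213 : ∃ t, chk3 f_pm_213 t 2017 1062 1 = true := ex3_a k89_pm_213 k90_pm_213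

theorem s149_pm_213 : ∃ t, chk3 f_pm_213 t 2017 531 1 = true := ex3_b s148_pm_213 k91_pm_213

theorem s150_pm_213 : ∃ t, chk3 f_pm_213 t 2016 1063 1 = true := ex3_a k87_pm_213 k88_pm_213

theorem s151_pm_213 : ∃ t, chk3 f_pm_213 t 2016 531 1 = true := ex3_b k86_pm_213 s150_pm_213

theorem s152_pm_213 : ∃ t, chk3 f_pm_213 t 1008 531 1 = true := ex3_a s151_pm_213 s149_pm_213

theorem s153_pm_213 : ∃ t, chk3 f_pm_213 t 1008 265 1 = true := ex3_b k85_pm_213 s152_pm_213

theorem s154_pm_213 : ∃ t, chk3 f_pm_213 t 504 265 1 = true := ex3_a s153_pm_213 s147_pm_213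

theorem s155_pm_213 : ∃ t, chk3 f_pm_213 t 4039 1059 1 = true := ex3_b k83_pm_213 k84_pm_213

theorem s156_pm_213 : ∃ t, chk3 f_pm_213 t 2019 1059 1 = true := ex3_a k82_pm_213 s155_pm_213

theorem s157_pm_213 : ∃ t, chk3 f_pm_213 t 2019 529 1 = true := ex3_b k81_pm_213 s156_pm_213

theorem s158_pm_213 : ∃ t, chk3 f_pm_213 t 1009 529 1 = true := ex3_a k80_pm_213 s157_pm_213

theorem s159_pm_213 : ∃ t, chk3 f_pm_213 t 1009 264 1 = true := ex3_b k79_pm_213 s158_pm_213

theorem s160_pm_213 : ∃ t, chk3 f_pm_213 t 504 264 1 = true := ex3_a k78_pm_213 s159_pm_213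

theorem s161_pm_213 : ∃ t, chk3 f_pm_213 t 504 132 1 = true := ex3_b s160_pm_213 s154_pm_213

theorem s162_pm_213 : ∃ t, chk3 f_pm_213 t 252 132 1 = true := ex3_a s161_pm_213 s143_pm_213

theorem s163_pm_213 : ∃ t, chk3 f_pm_213 t 252 66 1 = true := ex3_b s162_pm_213 k105_pm_213

theorem s164_pm_213 : ∃ t, chk3 f_pm_213 t 126 66 1 = true := ex3_a s163_pm_213 k106_pm_213

theorem s165_pm_213 : ∃ t, chk3 f_pm_213 t 126 33 1 = true := ex3_b s164_pm_213 k107_pm_213

theorem s166_pm_213 : ∃ t, chk3 f_pm_213 t 63 33 1 = true := ex3_a s165_pm_213 k108_pm_213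

theorem s167_pm_213 : ∃ t, chk3 f_pm_213 t 63 16 1 = true := ex3_b k77_pm_213 s166_pm_213

theorem s168_pm_213 : ∃ t, chk3 f_pm_213 t 63 8 1 = true := ex3_b s167_pm_213 k109_pm_213

theorem s169_pm_213 : ∃ t, chk3 f_pm_213 t 498 136 1 = true := ex3_b k70_pm_213 k71_pm_213

theorem s170_pm_213 : ∃ t, chk3 f_pm_213 t 249 136 1 = true := ex3_a s169_pm_213 k72_pm_213

theorem s171_pm_213 : ∃ t, chk3 f_pm_213 t 249 68 1 = true := ex3_b s170_pm_213 k73_pm_213

theorem s172_pm_213 : ∃ t, chk3 f_pm_213 t 248 137 1 = true := ex3_a k68_pm_213 k69_pm_213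

theorem s173_pm_213 : ∃ t, chk3 f_pm_213 t 248 68 1 = true := ex3_b k67_pm_213 s172_pm_213

theorem s174_pm_213 : ∃ t, chk3 f_pm_213 t 124 68 1 = true := ex3_a s173_pm_213 s171_pm_213

theorem s175_pm_213 : ∃ t, chk3 f_pm_213 t 124 34 1 = true := ex3_b s174_pm_213 k74_pm_213

theorem s176_pm_213 : ∃ t, chk3 f_pm_213 t 124 17 1 = true := ex3_b s175_pm_213 k75_pm_213

theorem s177_pm_213 : ∃ t, chk3 f_pm_213 t 62 17 1 = true := ex3_a s176_pm_213 k76_pm_213

theorem s178_pm_213 : ∃ t, chk3 f_pm_213 t 1004 536 1 = true := ex3_a k60_pm_213 k61_pm_213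

theorem s179_pm_213 : ∃ t, chk3 f_pm_213 t 1004 268 1 = true := ex3_b s178_pm_213 k62_pm_213

theorem s180_pm_213 : ∃ t, chk3 f_pm_213 t 502 268 1 = true := ex3_a s179_pm_213 k63_pm_213

theorem s181_pm_213 : ∃ t, chk3 f_pm_213 t 251 268 1 = true := ex3_a s180_pm_213 k64_pm_213

theorem s182_pm_213 : ∃ t, chk3 f_pm_213 t 251 134 1 = true := ex3_b s181_pm_213 k65_pm_213

theorem s183_pm_213 : ∃ t, chk3 f_pm_213 t 251 67 1 = true := ex3_b s182_pm_213 k66_pm_213

theorem s184_pm_213 : ∃ t, chk3 f_pm_213 t 500 270 1 = true := ex3_a k56_pm_213 k57_pm_213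

theorem s185_pm_213 : ∃ t, chk3 f_pm_213 t 500 135 1 = true := ex3_b s184_pm_213 k58_pm_213

theorem s186_pm_213 : ∃ t, chk3 f_pm_213 t 250 135 1 = true := ex3_a s185_pm_213 k59_pm_213

theorem s187_pm_213 : ∃ t, chk3 f_pm_213 t 1002 269 1 = true := ex3_b k53_pm_213 k54_pm_213

theorem s188_pm_213 : ∃ t, chk3 f_pm_213 t 501 269 1 = true := ex3_a s187_pm_213 k55_pm_213

theorem s189_pm_213 : ∃ t, chk3 f_pm_213 t 1003 537 1 = true := ex3_a k51_pm_213 k52_pm_213

theorem s190_pm_213 : ∃ t, chk3 f_pm_213 t 1003 268 1 = true := ex3_b k50_pm_213 s189_pm_213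

theorem s191_pm_213 : ∃ t, chk3 f_pm_213 t 501 268 1 = true := ex3_a k49_pm_213 s190_pm_213

theorem s192_pm_213 : ∃ t, chk3 f_pm_213 t 501 134 1 = true := ex3_b s191_pm_213 s188_pm_213

theorem s193_pm_213 : ∃ t, chk3 f_pm_213 t 250 134 1 = true := ex3_a k48_pm_213 s192_pm_213

theorem s194_pm_213 : ∃ t, chk3 f_pm_213 t 250 67 1 = true := ex3_b s193_pm_213 s186_pm_213

theorem s195_pm_213 : ∃ t, chk3 f_pm_213 t 125 67 1 = true := ex3_a s194_pm_213 s183_pm_213

theorem s196_pm_213 : ∃ t, chk3 f_pm_213 t 2012 1068 1 = true := ex3_a k42_pm_213 k43_pm_213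

theorem s197_pm_213 : ∃ t, chk3 f_pm_213 t 2012 534 1 = true := ex3_b s196_pm_213 k44_pm_213

theorem s198_pm_213 : ∃ t, chk3 f_pm_213 t 1006 534 1 = true := ex3_a s197_pm_213 k45_pm_213

theorem s199_pm_213 : ∃ t, chk3 f_pm_213 t 1006 267 1 = true := ex3_b s198_pm_213 k46_pm_213

theorem s200_pm_213 : ∃ t, chk3 f_pm_213 t 503 267 1 = true := ex3_a s199_pm_213 k47_pm_213

theorem s201_pm_213 : ∃ t, chk3 f_pm_213 t 2015 1064 1 = true := ex3_a k38_pm_213 k39_pm_213

theorem s202_pm_213 : ∃ t, chk3 f_pm_213 t 2015 532 1 = true := ex3_b s201_pm_213 k40_pm_213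

theorem s203_pm_213 : ∃ t, chk3 f_pm_213 t 2014 1065 1 = true := ex3_a k36_pm_213 k37_pm_213

theorem s204_pm_213 : ∃ t, chk3 f_pm_213 t 2014 532 1 = true := ex3_b k35_pm_213 s203_pm_213

theorem s205_pm_213 : ∃ t, chk3 f_pm_213 t 1007 532 1 = true := ex3_a s204_pm_213 s202_pm_213

theorem s206_pm_213 : ∃ t, chk3 f_pm_213 t 1007 266 1 = true := ex3_b s205_pm_213 k41_pm_213

theorem s207_pm_213 : ∃ t, chk3 f_pm_213 t 2013 533 1 = true := ex3_b k33_pm_213 k34_pm_213

theorem s208_pm_213 : ∃ t, chk3 f_pm_213 t 1006 533 1 = true := ex3_a k32_pm_213 s207_pm_213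

theorem s209_pm_213 : ∃ t, chk3 f_pm_213 t 1006 266 1 = true := ex3_b k31_pm_213 s208_pm_213

theorem s210_pm_213 : ∃ t, chk3 f_pm_213 t 503 266 1 = true := ex3_a s209_pm_213 s206_pm_213

theorem s211_pm_213 : ∃ t, chk3 f_pm_213 t 503 133 1 = true := ex3_b s210_pm_213 s200_pm_213

theorem s212_pm_213 : ∃ t, chk3 f_pm_213 t 2010 535 1 = true := ex3_b k28_pm_213 k29_pm_213

theorem s213_pm_213 : ∃ t, chk3 f_pm_213 t 1005 535 1 = true := ex3_a s212_pm_213 k30_pm_213

theorem s214_pm_213 : ∃ t, chk3 f_pm_213 t 2011 1069 1 = true := ex3_a k26_pm_213 k27_pm_213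

theorem s215_pm_213 : ∃ t, chk3 f_pm_213 t 2011 534 1 = true := ex3_b k25_pm_213 s214_pm_213

theorem s216_pm_213 : ∃ t, chk3 f_pm_213 t 1005 534 1 = true := ex3_a k24_pm_213 s215_pm_213

theorem s217_pm_213 : ∃ t, chk3 f_pm_213 t 1005 267 1 = true := ex3_b s216_pm_213 s213_pm_213

theorem s218_pm_213 : ∃ t, chk3 f_pm_213 t 502 267 1 = true := ex3_a k23_pm_213 s217_pm_213

theorem s219_pm_213 : ∃ t, chk3 f_pm_213 t 502 133 1 = true := ex3_b k22_pm_213 s218_pm_213

theorem s220_pm_213 : ∃ t, chk3 f_pm_213 t 251 133 1 = true := ex3_a s219_pm_213 s211_pm_213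

theorem s221_pm_213 : ∃ t, chk3 f_pm_213 t 251 66 1 = true := ex3_b k21_pm_213 s220_pm_213

theorem s222_pm_213 : ∃ t, chk3 f_pm_213 t 125 66 1 = true := ex3_a k20_pm_213 s221_pm_213

theorem s223_pm_213 : ∃ t, chk3 f_pm_213 t 125 33 1 = true := ex3_b s222_pm_213 s195_pm_213

theorem s224_pm_213 : ∃ t, chk3 f_pm_213 t 499 271 1 = true := ex3_a k18_pm_213 k19_pm_213

theorem s225_pm_213 : ∃ t, chk3 f_pm_213 t 499 135 1 = true := ex3_b k17_pm_213 s224_pm_213

theorem s226_pm_213 : ∃ t, chk3 f_pm_213 t 249 135 1 = true := ex3_a k16_pm_213 s225_pm_213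

theorem s227_pm_213 : ∃ t, chk3 f_pm_213 t 249 67 1 = true := ex3_b k15_pm_213 s226_pm_213

theorem s228_pm_213 : ∃ t, chk3 f_pm_213 t 124 67 1 = true := ex3_a k14_pm_213 s227_pm_213

theorem s229_pm_213 : ∃ t, chk3 f_pm_213 t 124 33 1 = true := ex3_b k13_pm_213 s228_pm_213

theorem s230_pm_213 : ∃ t, chk3 f_pm_213 t 62 33 1 = true := ex3_a s229_pm_213 s223_pm_213

theorem s231_pm_213 : ∃ t, chk3 f_pm_213 t 62 16 1 = true := ex3_b k12_pm_213 s230_pm_213

theorem s232_pm_213 : ∃ t, chk3 f_pm_213 t 62 8 1 = true := ex3_b s231_pm_213 s177_pm_213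

theorem s233_pm_213 : ∃ t, chk3 f_pm_213 t 31 8 1 = true := ex3_a s232_pm_213 s168_pm_213

theorem s234_pm_213 : ∃ t, chk3 f_pm_213 t 122 35 1 = true := ex3_b k9_pm_213 k10_pm_213

theorem s235_pm_213 : ∃ t, chk3 f_pm_213 t 61 35 1 = true := ex3_a s234_pm_213 k11_pm_213

theorem s236_pm_213 : ∃ t, chk3 f_pm_213 t 123 69 1 = true := ex3_a k7_pm_213 k8_pm_213

theorem s237_pm_213 : ∃ t, chk3 f_pm_213 t 123 34 1 = true := ex3_b k6_pm_213 s236_pm_213

theorem s238_pm_213 : ∃ t, chk3 f_pm_213 t 61 34 1 = true := ex3_a k5_pm_213 s237_pm_213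

theorem s239_pm_213 : ∃ t, chk3 f_pm_213 t 61 17 1 = true := ex3_b s238_pm_213 s235_pm_213

theorem s240_pm_213 : ∃ t, chk3 f_pm_213 t 30 17 1 = true := ex3_a k4_pm_213 s239_pm_213

theorem s241_pm_213 : ∃ t, chk3 f_pm_213 t 30 8 1 = true := ex3_b k3_pm_213 s240_pm_213

theorem s242_pm_213 : ∃ t, chk3 f_pm_213 t 15 8 1 = true := ex3_a s241_pm_213 s233_pm_213

theorem s243_pm_213 : ∃ t, chk3 f_pm_213 t 15 4 1 = true := ex3_b s242_pm_213 k110_pm_213

theorem s244_pm_213 : ∃ t, chk3 f_pm_213 t 7 4 1 = true := ex3_a k2_pm_213 s243_pm_213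

theorem s245_pm_213 : ∃ t, chk3 f_pm_213 t 3 4 1 = true := ex3_a k1_pm_213 s244_pm_213

theorem s246_pm_213 : ∃ t, chk3 f_pm_213 t 1 4 1 = true := ex3_a k0_pm_213 s245_pm_213

theorem s247_pm_213 : ∃ t, chk3 f_pm_213 t 1 2 1 = true := ex3_b s246_pm_213 s136_pm_213

theorem s248_pm_213 : ∃ t, chk3 f_pm_213 t 1 1 1 = true := ex3_b s247_pm_213 s131_pm_213

theorem c_pm_213 : CertB 0 536870912 0 1230186008 1045395039 1503240 3 eng mog cd0q2 cd5q3 pd1 false true false .pnn 2 1 3
    ndB0q2 ndB5q3 pcB1 cut_pm_213 xt_pm_213 :=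
  certB0 (fam := false) (s1 := true) (s2 := false) (a := 2) (b := 1) (c := 3) (cn := .pnn) (n1 := ndB0q2) (n2 := ndB5q3) (pc := pcB1) (cut := cut_pm_213) (xt := xt_pm_213) (P1 := 0) (W1 := 536870912) (P2 := 0) (W2 := 1230186008) (P3 := 1045395039) (W3 := 1503240) (N0 := 3) (En := eng) (mo := mog) (C1 := cd0q2) (C2 := cd5q3) (C3 := pd1)
    rfl s248_pm_213

noncomputable def f_mm_001 : ℕ → ℕ → ℕ → ℕ → Bool := onCell 0 536870912 0 536870912 1045395039 1503240
    (rowB 3 eng mog cd0q0 cd5q1 pd0 1 false false false .up 0 0 1 (qsf 0 536870912 536870912 536870912 0) ndB0q0 ndB5q1 pcB0 Cut.none Ext.none)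

def k0_mm_001 : ∃ t, chk3 f_mm_001 t 1 1 1 = true :=
  ⟨(l 3), by decide +kernel⟩

theorem c_mm_001 : CertB 0 536870912 536870912 536870912 1045395039 1503240 3 eng mog cd0q0 cd5q1 pd0 false false false .up 0 0 1
    ndB0q0 ndB5q1 pcB0 Cut.none Ext.none :=
  certB1 (fam := false) (s1 := false) (s2 := false) (a := 0) (b := 0) (c := 1) (cn := .up) (n1 := ndB0q0) (n2 := ndB5q1) (pc := pcB0) (cut := Cut.none) (xt := Ext.none) (P1 := 0) (W1 := 536870912) (P2 := 536870912) (W2 := 536870912) (P3 := 1045395039) (W3 := 1503240) (N0 := 3) (En := eng) (mo := mog) (C1 := cd0q0) (C2 := cd5q1) (C3 := pd0)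
    rfl (fun _ => rfl) k0_mm_001

noncomputable def f_mm_011 : ℕ → ℕ → ℕ → ℕ → Bool := onCell 0 536870912 536870912 536870912 1045395039 1503240
    (rowB 3 eng mog cd0q0 cd5q1 pd1 1 false false false .pnn 0 1 1 (qsf 0 536870912 536870912 536870912 1) ndB0q0 ndB5q1 pcB1 Cut.none Ext.none)

def k0_mm_011 : ∃ t, chk3 f_mm_011 t 1 1 1 = true :=
  ⟨(l 5), by decide +kernel⟩

theorem c_mm_011 : CertB 0 536870912 536870912 536870912 1045395039 1503240 3 eng mog cd0q0 cd5q1 pd1 false false false .pnn 0 1 1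
    ndB0q0 ndB5q1 pcB1 Cut.none Ext.none :=
  certB1 (fam := false) (s1 := false) (s2 := false) (a := 0) (b := 1) (c := 1) (cn := .pnn) (n1 := ndB0q0) (n2 := ndB5q1) (pc := pcB1) (cut := Cut.none) (xt := Ext.none) (P1 := 0) (W1 := 536870912) (P2 := 536870912) (W2 := 536870912) (P3 := 1045395039) (W3 := 1503240) (N0 := 3) (En := eng) (mo := mog) (C1 := cd0q0) (C2 := cd5q1) (C3 := pd1)
    rfl (fun _ => rfl) k0_mm_011

noncomputable def f_mm_012 : ℕ → ℕ → ℕ → ℕ → Bool := onCell 0 536870912 1073741824 536870912 1045395039 1503240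
    (rowB 3 eng mog cd0q0 cd5q2 pd1 0 false false false .pnp 0 1 2 (qsf 0 536870912 1073741824 536870912 1) ndB0q0 ndB5q2 pcB1 Cut.none Ext.none)

def k0_mm_012 : ∃ t, chk3 f_mm_012 t 1 1 1 = true :=
  ⟨(l 5), by decide +kernel⟩

theorem c_mm_012 : CertB 0 536870912 1073741824 536870912 1045395039 1503240 3 eng mog cd0q0 cd5q2 pd1 false false false .pnp 0 1 2
    ndB0q0 ndB5q2 pcB1 Cut.none Ext.none :=
  certB0 (fam := false) (s1 := false) (s2 := false) (a := 0) (b := 1) (c := 2) (cn := .pnp) (n1 := ndB0q0) (n2 := ndB5q2) (pc := pcB1) (cut := Cut.none) (xt := Ext.none) (P1 := 0) (W1 := 536870912) (P2 := 1073741824) (W2 := 536870912) (P3 := 1045395039) (W3 := 1503240) (N0 := 3) (En := eng) (mo := mog) (C1 := cd0q0) (C2 := cd5q2) (C3 := pd1)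
    rfl k0_mm_012

noncomputable def f_mm_022 : ℕ → ℕ → ℕ → ℕ → Bool := onCell 0 536870912 1073741824 536870912 1045395039 1503240
    (rowB 3 eng mog cd0q0 cd5q2 pd2 0 false false false .pp 0 2 2 (qsf 0 536870912 1073741824 536870912 2) ndB0q0 ndB5q2 pcB2 Cut.none Ext.none)

def k0_mm_022 : ∃ t, chk3 f_mm_022 t 1 1 1 = true :=
  ⟨(l 5), by decide +kernel⟩

theorem c_mm_022 : CertB 0 536870912 1073741824 536870912 1045395039 1503240 3 eng mog cd0q0 cd5q2 pd2 false false false .pp 0 2 2
    ndB0q0 ndB5q2 pcB2 Cut.none Ext.none :=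
  certB0 (fam := false) (s1 := false) (s2 := false) (a := 0) (b := 2) (c := 2) (cn := .pp) (n1 := ndB0q0) (n2 := ndB5q2) (pc := pcB2) (cut := Cut.none) (xt := Ext.none) (P1 := 0) (W1 := 536870912) (P2 := 1073741824) (W2 := 536870912) (P3 := 1045395039) (W3 := 1503240) (N0 := 3) (En := eng) (mo := mog) (C1 := cd0q0) (C2 := cd5q2) (C3 := pd2)
    rfl k0_mm_022

noncomputable def f_mm_023 : ℕ → ℕ → ℕ → ℕ → Bool := onCell 0 536870912 0 1230186008 1045395039 1503240
    (rowB 3 eng mog cd0q0 cd5q3 pd2 0 false false false .up 0 2 3 (qsf 0 536870912 0 1230186008 2) ndB0q0 ndB5q3 pcB2 Cut.none Ext.none)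

def k0_mm_023 : ∃ t, chk3 f_mm_023 t 1 1 1 = true :=
  ⟨(l 5), by decide +kernel⟩

theorem c_mm_023 : CertB 0 536870912 0 1230186008 1045395039 1503240 3 eng mog cd0q0 cd5q3 pd2 false false false .up 0 2 3
    ndB0q0 ndB5q3 pcB2 Cut.none Ext.none :=
  certB0 (fam := false) (s1 := false) (s2 := false) (a := 0) (b := 2) (c := 3) (cn := .up) (n1 := ndB0q0) (n2 := ndB5q3) (pc := pcB2) (cut := Cut.none) (xt := Ext.none) (P1 := 0) (W1 := 536870912) (P2 := 0) (W2 := 1230186008) (P3 := 1045395039) (W3 := 1503240) (N0 := 3) (En := eng) (mo := mog) (C1 := cd0q0) (C2 := cd5q3) (C3 := pd2)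
    rfl k0_mm_023

noncomputable def f_mm_033 : ℕ → ℕ → ℕ → ℕ → Bool := onCell 0 536870912 0 1230186008 1045395039 1503240
    (rowB 3 eng mog cd0q0 cd5q3 pd3 0 false false false .pnn 0 3 3 (qsf 0 536870912 0 1230186008 3) ndB0q0 ndB5q3 pcB3 Cut.none Ext.none)

def k0_mm_033 : ∃ t, chk3 f_mm_033 t 1 1 1 = true :=
  ⟨(l 5), by decide +kernel⟩

theorem c_mm_033 : CertB 0 536870912 0 1230186008 1045395039 1503240 3 eng mog cd0q0 cd5q3 pd3 false false false .pnn 0 3 3
    ndB0q0 ndB5q3 pcB3 Cut.none Ext.none :=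
  certB0 (fam := false) (s1 := false) (s2 := false) (a := 0) (b := 3) (c := 3) (cn := .pnn) (n1 := ndB0q0) (n2 := ndB5q3) (pc := pcB3) (cut := Cut.none) (xt := Ext.none) (P1 := 0) (W1 := 536870912) (P2 := 0) (W2 := 1230186008) (P3 := 1045395039) (W3 := 1503240) (N0 := 3) (En := eng) (mo := mog) (C1 := cd0q0) (C2 := cd5q3) (C3 := pd3)
    rfl k0_mm_033

noncomputable def cut_mm_101 : Cut := Cut.of [[⟨0, 1, 0, 26843545⟩, ⟨1, 0, 0, 26843545⟩, ⟨2, 1, 0, 26843545⟩]]

noncomputable def f_mm_101 : ℕ → ℕ → ℕ → ℕ → Bool := onCell 536870912 536870912 0 536870912 1045395039 1503240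
    (rowB 3 eng mog cd0q1 cd5q1 pd0 1 false false false .npn 1 0 1 (qsf 536870912 536870912 536870912 536870912 0) ndB0q1 ndB5q1 pcB0 cut_mm_101 Ext.none)

def k0_mm_101 : ∃ t, chk3 f_mm_101 t 1 1 1 = true :=
  ⟨(a (l 3) (b (a (l 3) (b (a (l 3) (b (a (l 3) (b (b (a (l 3) (l 6)) (l 3)) (l 3))) (l 3))) (l 3))) (l 3))), by decide +kernel⟩

theorem c_mm_101 : CertB 536870912 536870912 536870912 536870912 1045395039 1503240 3 eng mog cd0q1 cd5q1 pd0 false false false .npn 1 0 1
    ndB0q1 ndB5q1 pcB0 cut_mm_101 Ext.none :=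
  certB1 (fam := false) (s1 := false) (s2 := false) (a := 1) (b := 0) (c := 1) (cn := .npn) (n1 := ndB0q1) (n2 := ndB5q1) (pc := pcB0) (cut := cut_mm_101) (xt := Ext.none) (P1 := 536870912) (W1 := 536870912) (P2 := 536870912) (W2 := 536870912) (P3 := 1045395039) (W3 := 1503240) (N0 := 3) (En := eng) (mo := mog) (C1 := cd0q1) (C2 := cd5q1) (C3 := pd0)
    rfl (fun _ => rfl) k0_mm_101

noncomputable def f_mm_102 : ℕ → ℕ → ℕ → ℕ → Bool := onCell 536870912 536870912 1073741824 536870912 1045395039 1503240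
    (rowB 3 eng mog cd0q1 cd5q2 pd0 0 false false false .npp 1 0 2 (qsf 536870912 536870912 1073741824 536870912 0) ndB0q1 ndB5q2 pcB0 Cut.none Ext.none)

def k0_mm_102 : ∃ t, chk3 f_mm_102 t 1 1 1 = true :=
  ⟨(l 3), by decide +kernel⟩

theorem c_mm_102 : CertB 536870912 536870912 1073741824 536870912 1045395039 1503240 3 eng mog cd0q1 cd5q2 pd0 false false false .npp 1 0 2
    ndB0q1 ndB5q2 pcB0 Cut.none Ext.none :=
  certB0 (fam := false) (s1 := false) (s2 := false) (a := 1) (b := 0) (c := 2) (cn := .npp) (n1 := ndB0q1) (n2 := ndB5q2) (pc := pcB0) (cut := Cut.none) (xt := Ext.none) (P1 := 536870912) (W1 := 536870912) (P2 := 1073741824) (W2 := 536870912) (P3 := 1045395039) (W3 := 1503240) (N0 := 3) (En := eng) (mo := mog) (C1 := cd0q1) (C2 := cd5q2) (C3 := pd0)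
    rfl k0_mm_102

noncomputable def f_mm_112 : ℕ → ℕ → ℕ → ℕ → Bool := onCell 536870912 536870912 1073741824 536870912 1045395039 1503240
    (rowB 3 eng mog cd0q1 cd5q2 pd1 0 false false false .dn 1 1 2 (qsf 536870912 536870912 1073741824 536870912 1) ndB0q1 ndB5q2 pcB1 Cut.none Ext.none)

def k0_mm_112 : ∃ t, chk3 f_mm_112 t 1 1 1 = true :=
  ⟨(l 3), by decide +kernel⟩

theorem c_mm_112 : CertB 536870912 536870912 1073741824 536870912 1045395039 1503240 3 eng mog cd0q1 cd5q2 pd1 false false false .dn 1 1 2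
    ndB0q1 ndB5q2 pcB1 Cut.none Ext.none :=
  certB0 (fam := false) (s1 := false) (s2 := false) (a := 1) (b := 1) (c := 2) (cn := .dn) (n1 := ndB0q1) (n2 := ndB5q2) (pc := pcB1) (cut := Cut.none) (xt := Ext.none) (P1 := 536870912) (W1 := 536870912) (P2 := 1073741824) (W2 := 536870912) (P3 := 1045395039) (W3 := 1503240) (N0 := 3) (En := eng) (mo := mog) (C1 := cd0q1) (C2 := cd5q2) (C3 := pd1)
    rfl k0_mm_112

noncomputable def f_mm_113 : ℕ → ℕ → ℕ → ℕ → Bool := onCell 536870912 536870912 0 1230186008 1045395039 1503240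
    (rowB 3 eng mog cd0q1 cd5q3 pd1 0 false false false .nn 1 1 3 (qsf 536870912 536870912 0 1230186008 1) ndB0q1 ndB5q3 pcB1 Cut.none Ext.none)

def k0_mm_113 : ∃ t, chk3 f_mm_113 t 1 1 1 = true :=
  ⟨(b (l 5) (b (l 5) (a (l 5) (l 3)))), by decide +kernel⟩

theorem c_mm_113 : CertB 536870912 536870912 0 1230186008 1045395039 1503240 3 eng mog cd0q1 cd5q3 pd1 false false false .nn 1 1 3
    ndB0q1 ndB5q3 pcB1 Cut.none Ext.none :=
  certB0 (fam := false) (s1 := false) (s2 := false) (a := 1) (b := 1) (c := 3) (cn := .nn) (n1 := ndB0q1) (n2 := ndB5q3) (pc := pcB1) (cut := Cut.none) (xt := Ext.none) (P1 := 536870912) (W1 := 536870912) (P2 := 0) (W2 := 1230186008) (P3 := 1045395039) (W3 := 1503240) (N0 := 3) (En := eng) (mo := mog) (C1 := cd0q1) (C2 := cd5q3) (C3 := pd1)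
    rfl k0_mm_113

noncomputable def f_mm_123 : ℕ → ℕ → ℕ → ℕ → Bool := onCell 1073741824 536870912 0 1230186008 1045395039 1503240
    (rowB 3 eng mog cd0q1 cd5q3 pd2 2 false false false .npn 1 2 3 (qsf 536870912 536870912 0 1230186008 2) ndB0q1 ndB5q3 pcB2 Cut.none Ext.none)

def k0_mm_123 : ∃ t, chk3 f_mm_123 t 1 1 1 = true :=
  ⟨(b (l 5) (l 5)), by decide +kernel⟩

theorem c_mm_123 : CertB 536870912 536870912 0 1230186008 1045395039 1503240 3 eng mog cd0q1 cd5q3 pd2 false false false .npn 1 2 3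
    ndB0q1 ndB5q3 pcB2 Cut.none Ext.none :=
  certB2 (fam := false) (s1 := false) (s2 := false) (a := 1) (b := 2) (c := 3) (cn := .npn) (n1 := ndB0q1) (n2 := ndB5q3) (pc := pcB2) (cut := Cut.none) (xt := Ext.none) (P1 := 536870912) (W1 := 536870912) (P2 := 0) (W2 := 1230186008) (P3 := 1045395039) (W3 := 1503240) (N0 := 3) (En := eng) (mo := mog) (C1 := cd0q1) (C2 := cd5q3) (C3 := pd2)
    rfl (fun _ => rfl) k0_mm_123

noncomputable def f_mm_133 : ℕ → ℕ → ℕ → ℕ → Bool := onCell 1610612736 536870912 0 1230186008 1045395039 1503240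
    (rowB 3 eng mog cd0q1 cd5q3 pd3 2 false false false .dn 1 3 3 (qsf 536870912 536870912 0 1230186008 3) ndB0q1 ndB5q3 pcB3 Cut.none Ext.none)

def k0_mm_133 : ∃ t, chk3 f_mm_133 t 1 1 1 = true :=
  ⟨(l 5), by decide +kernel⟩

theorem c_mm_133 : CertB 536870912 536870912 0 1230186008 1045395039 1503240 3 eng mog cd0q1 cd5q3 pd3 false false false .dn 1 3 3
    ndB0q1 ndB5q3 pcB3 Cut.none Ext.none :=
  certB2 (fam := false) (s1 := false) (s2 := false) (a := 1) (b := 3) (c := 3) (cn := .dn) (n1 := ndB0q1) (n2 := ndB5q3) (pc := pcB3) (cut := Cut.none) (xt := Ext.none) (P1 := 536870912) (W1 := 536870912) (P2 := 0) (W2 := 1230186008) (P3 := 1045395039) (W3 := 1503240) (N0 := 3) (En := eng) (mo := mog) (C1 := cd0q1) (C2 := cd5q3) (C3 := pd3)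
    rfl (fun _ => rfl) k0_mm_133

noncomputable def f_mm_202 : ℕ → ℕ → ℕ → ℕ → Bool := onCell 0 536870912 0 536870912 1045395039 1503240
    (rowB 3 eng mog cd0q2 cd5q2 pd0 1 false false false .pp 2 0 2 (qsf 0 536870912 1073741824 536870912 0) ndB0q2 ndB5q2 pcB0 Cut.none Ext.none)

def k0_mm_202 : ∃ t, chk3 f_mm_202 t 4 8 1 = true :=
  ⟨(b (a (b (a (l 15978320) (l 16082464)) (b (b (l 15920464) (l 15896656)) (b (l 15874712) (a (l 15778136) (l 15926200))))) (b (b (a (l 16256736) (a (b (l 16389200) (l 16338744)) (b (l 16451584) (l 16404320)))) (a (a (l 16130136) (b (l 16223320) (l 16174192))) (a (l 16259920) (b (l 16359920) (l 16311736))))) (b (b (a (a (l 16079168) (l 16135800)) (a (l 16194800) (l 16255520))) (a (l 16082336) (a (l 16159992) (a (l 16188608) (l 16225832))))) (b (a (l 16045768) (a (l 16063280) (a (l 16142488) (l 16177520)))) (a (l 15999560) (a (a (l 16025952) (l 16057656)) (a (l 16102344) (l 16128384)))))))) (a (b (a (l 15688384) (b (l 15850320) (l 15723312))) (a (b (l 15540968)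 (l 15422664)) (b (l 15599688) (a (l 15466608) (l 15505328))))) (b (a (b (a (l 15892368) (b (a (l 15937504) (l 15948048)) (a (l 15870472) (l 15889968)))) (b (a (l 15789696) (l 15829480)) (a (l 15730480) (l 15788264)))) (a (b (a (l 15952952) (l 16001040)) (a (l 15880896) (l 15921936))) (b (a (l 16034600) (l 16054496)) (l 15950408)))) (a (a (b (l 15652984) (l 15575008)) (b (l 15740672) (a (l 15654736) (l 15705192)))) (a (b (a (l 15812216) (l 15835192)) (l 15735440)) (l 207934634087)))))), by decide +kernel⟩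

def k1_mm_202 : ∃ t, chk3 f_mm_202 t 4 9 1 = true :=
  ⟨(b (a (b (a (l 15255400) (a (b (l 15362328) (l 15269968)) (b (l 15415808) (l 15362248)))) (a (a (l 15050720) (b (l 15132992) (l 15055248))) (b (l 15256584) (l 15214720)))) (a (b (a (b (l 15520288) (l 15471360)) (b (a (l 15600416) (l 15629480)) (l 15537848))) (a (b (l 15332328) (l 15330440)) (l 15428152))) (b (b (l 207934444055) (l 210081760535)) (a (l 267526643767) (l 3))))) (a (a (b (a (b (l 14920728) (l 14860080)) (l 14990752)) (l 14864568)) (b (a (l 15098976) (b (l 15229024) (l 15155416))) (a (a (l 15001736) (l 15031872)) (b (l 15096624) (l 15061192))))) (b (a (a (a (l 15243000) (l 15261552)) (l 292759253847)) (a (l 300812548455) (l 3))) (a (a (l 15122024) (l 249272621175)) (l 3))))), by decide +kernel⟩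

def k2_mm_202 : ∃ t, chk3 f_mm_202 t 4 5 1 = true :=
  ⟨(b (a (b (a (b (b (l 14819288) (l 14797848)) (a (l 14703368) (a (l 14760784) (l 14785384)))) (b (a (a (l 14925616) (l 14947808)) (l 14971376)) (l 14826736))) (a (b (a (a (b (l 14648048) (l 14632952)) (b (l 14699048) (l 14660496))) (l 14704856)) (a (b (l 14606720) (l 14571616)) (l 14619040))) (b (b (l 14772832) (l 223502040743)) (a (l 14647440) (a (l 14668616) (l 223501835719)))))) (a (b (a (b (l 215449340775) (a (l 14841696) (l 228334046375))) (b (l 225113199159) (l 3))) (a (b (l 224038957895) (l 3)) (l 3))) (l 3))) (a (a (b (b (l 14528352) (l 14461984)) (a (l 14367656) (b (l 14419968) (l 229406881879)))) (b (a (b (l 173572681607) (l 214911610343)) (b (l 224575440775) (l 3))) (b (l 247123729351) (l 3)))) (l 3))), by decide +kernel⟩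

def k3_mm_202 : ∃ t, chk3 f_mm_202 t 5 2 1 = true :=
  ⟨(a (a (b (b (b (b (b (b (a (l 16434544) (l 16404032)) (a (l 16468288) (l 16465496))) (a (b (l 16416848) (l 16361472)) (l 3))) (b (b (l 206861953959) (b (l 207398763191) (l 16259816))) (l 16193712))) (b (l 277191396487) (l 3))) (l 3)) (l 3)) (l 3)) (l 3)), by decide +kernel⟩

def k4_mm_202 : ∃ t, chk3 f_mm_202 t 2 3 1 = true :=
  ⟨(b (a (b (a (a (b (a (b (l 14309336) (l 231017327687)) (l 250881553703)) (l 261081985303)) (l 3)) (l 3)) (l 3)) (l 3)) (l 3)), by decide +kernel⟩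

def k5_mm_202 : ∃ t, chk3 f_mm_202 t 3 1 1 = true :=
  ⟨(l 3), by decide +kernel⟩

theorem s6_mm_202 : ∃ t, chk3 f_mm_202 t 4 4 1 = true := ex3_b k0_mm_202 k1_mm_202

theorem s7_mm_202 : ∃ t, chk3 f_mm_202 t 4 2 1 = true := ex3_b s6_mm_202 k2_mm_202

theorem s8_mm_202 : ∃ t, chk3 f_mm_202 t 2 2 1 = true := ex3_a s7_mm_202 k3_mm_202

theorem s9_mm_202 : ∃ t, chk3 f_mm_202 t 2 1 1 = true := ex3_b s8_mm_202 k4_mm_202

theorem s10_mm_202 : ∃ t, chk3 f_mm_202 t 1 1 1 = true := ex3_a s9_mm_202 k5_mm_202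

theorem c_mm_202 : CertB 0 536870912 1073741824 536870912 1045395039 1503240 3 eng mog cd0q2 cd5q2 pd0 false false false .pp 2 0 2
    ndB0q2 ndB5q2 pcB0 Cut.none Ext.none :=
  certB1 (fam := false) (s1 := false) (s2 := false) (a := 2) (b := 0) (c := 2) (cn := .pp) (n1 := ndB0q2) (n2 := ndB5q2) (pc := pcB0) (cut := Cut.none) (xt := Ext.none) (P1 := 0) (W1 := 536870912) (P2 := 1073741824) (W2 := 536870912) (P3 := 1045395039) (W3 := 1503240) (N0 := 3) (En := eng) (mo := mog) (C1 := cd0q2) (C2 := cd5q2) (C3 := pd0)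
    rfl (fun _ => rfl) s10_mm_202

noncomputable def f_mm_203 : ℕ → ℕ → ℕ → ℕ → Bool := onCell 0 536870912 0 1230186008 1045395039 1503240
    (rowB 3 eng mog cd0q2 cd5q3 pd0 0 false false false .up 2 0 3 (qsf 0 536870912 0 1230186008 0) ndB0q2 ndB5q3 pcB0 Cut.none Ext.none)

def k0_mm_203 : ∃ t, chk3 f_mm_203 t 1 1 1 = true :=
  ⟨(b (l 2) (a (b (l 2) (l 3)) (l 3))), by decide +kernel⟩

theorem c_mm_203 : CertB 0 536870912 0 1230186008 1045395039 1503240 3 eng mog cd0q2 cd5q3 pd0 false false false .up 2 0 3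
    ndB0q2 ndB5q3 pcB0 Cut.none Ext.none :=
  certB0 (fam := false) (s1 := false) (s2 := false) (a := 2) (b := 0) (c := 3) (cn := .up) (n1 := ndB0q2) (n2 := ndB5q3) (pc := pcB0) (cut := Cut.none) (xt := Ext.none) (P1 := 0) (W1 := 536870912) (P2 := 0) (W2 := 1230186008) (P3 := 1045395039) (W3 := 1503240) (N0 := 3) (En := eng) (mo := mog) (C1 := cd0q2) (C2 := cd5q3) (C3 := pd0)
    rfl k0_mm_203

noncomputable def f_mm_213 : ℕ → ℕ → ℕ → ℕ → Bool := onCell 0 536870912 0 1230186008 1045395039 1503240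
    (rowB 3 eng mog cd0q2 cd5q3 pd1 0 false false false .pnn 2 1 3 (qsf 0 536870912 0 1230186008 1) ndB0q2 ndB5q3 pcB1 Cut.none Ext.none)

def k0_mm_213 : ∃ t, chk3 f_mm_213 t 1 1 1 = true :=
  ⟨(b (b (a (l 3) (l 5)) (l 3)) (a (b (l 3) (l 3)) (l 3))), by decide +kernel⟩

theorem c_mm_213 : CertB 0 536870912 0 1230186008 1045395039 1503240 3 eng mog cd0q2 cd5q3 pd1 false false false .pnn 2 1 3
    ndB0q2 ndB5q3 pcB1 Cut.none Ext.none :=
  certB0 (fam := false) (s1 := false) (s2 := false) (a := 2) (b := 1) (c := 3) (cn := .pnn) (n1 := ndB0q2) (n2 := ndB5q3) (pc := pcB1) (cut := Cut.none) (xt := Ext.none) (P1 := 0) (W1 := 536870912) (P2 := 0) (W2 := 1230186008) (P3 := 1045395039) (W3 := 1503240) (N0 := 3) (En := eng) (mo := mog) (C1 := cd0q2) (C2 := cd5q3) (C3 := pd1)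
    rfl k0_mm_213

end Pool.Agent.Strip051.G.I9736_9750.Tab.C.BB05

namespace Pool.Agent.Strip051.G.I9736_9750.Tab.C.BB06

open Pool.Agent.Strip051.PB Pool.Agent.Strip051.PB.T
open Pool.Agent.Strip051.G.I9736_9750.Tab

noncomputable def cut_pp_001 : Cut := Cut.of [[⟨3, 0, 0, 1449551462⟩]]

noncomputable def f_pp_001 : ℕ → ℕ → ℕ → ℕ → Bool := onCell 0 536870912 536870912 536870912 1045395039 1503240
    (rowB 3 eng mog cd0q0 cd6q1 pd0 0 false true true .up 0 0 1 (qsf 0 536870912 536870912 536870912 0) ndB0q0 ndB6q1 pcB0 cut_pp_001 Ext.none)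

def k0_pp_001 : ∃ t, chk3 f_pp_001 t 1 1 1 = true :=
  ⟨(l 6), by decide +kernel⟩

theorem c_pp_001 : CertB 0 536870912 536870912 536870912 1045395039 1503240 3 eng mog cd0q0 cd6q1 pd0 false true true .up 0 0 1
    ndB0q0 ndB6q1 pcB0 cut_pp_001 Ext.none :=
  certB0 (fam := false) (s1 := true) (s2 := true) (a := 0) (b := 0) (c := 1) (cn := .up) (n1 := ndB0q0) (n2 := ndB6q1) (pc := pcB0) (cut := cut_pp_001) (xt := Ext.none) (P1 := 0) (W1 := 536870912) (P2 := 536870912) (W2 := 536870912) (P3 := 1045395039) (W3 := 1503240) (N0 := 3) (En := eng) (mo := mog) (C1 := cd0q0) (C2 := cd6q1) (C3 := pd0)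
    rfl k0_pp_001

noncomputable def cut_pp_011 : Cut := Cut.of [[⟨3, 0, 0, 1449551462⟩], [⟨0, 0, 0, 26843545⟩, ⟨1, 1, 0, 26843545⟩, ⟨2, 1, 0, 26843545⟩]]

noncomputable def f_pp_011 : ℕ → ℕ → ℕ → ℕ → Bool := onCell 0 536870912 536870912 536870912 1045395039 1503240
    (rowB 3 eng mog cd0q0 cd6q1 pd1 0 false true true .pnn 0 1 1 (qsf 0 536870912 536870912 536870912 1) ndB0q0 ndB6q1 pcB1 cut_pp_011 Ext.none)

def k0_pp_011 : ∃ t, chk3 f_pp_011 t 1 1 1 = true :=
  ⟨(l 6), by decide +kernel⟩

theorem c_pp_011 : CertB 0 536870912 536870912 536870912 1045395039 1503240 3 eng mog cd0q0 cd6q1 pd1 false true true .pnn 0 1 1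
    ndB0q0 ndB6q1 pcB1 cut_pp_011 Ext.none :=
  certB0 (fam := false) (s1 := true) (s2 := true) (a := 0) (b := 1) (c := 1) (cn := .pnn) (n1 := ndB0q0) (n2 := ndB6q1) (pc := pcB1) (cut := cut_pp_011) (xt := Ext.none) (P1 := 0) (W1 := 536870912) (P2 := 536870912) (W2 := 536870912) (P3 := 1045395039) (W3 := 1503240) (N0 := 3) (En := eng) (mo := mog) (C1 := cd0q0) (C2 := cd6q1) (C3 := pd1)
    rfl k0_pp_011

noncomputable def cut_pp_012 : Cut := Cut.of [[⟨3, 0, 0, 1449551462⟩], [⟨0, 0, 0, 26843545⟩, ⟨1, 1, 0, 26843545⟩, ⟨2, 1, 0, 26843545⟩]]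

noncomputable def f_pp_012 : ℕ → ℕ → ℕ → ℕ → Bool := onCell 0 536870912 536870912 536870912 1045395039 1503240
    (rowB 3 eng mog cd0q0 cd6q2 pd1 1 false true true .pnp 0 1 2 (qsf 0 536870912 1073741824 536870912 1) ndB0q0 ndB6q2 pcB1 cut_pp_012 Ext.none)

def k0_pp_012 : ∃ t, chk3 f_pp_012 t 1 1 1 = true :=
  ⟨(l 6), by decide +kernel⟩

theorem c_pp_012 : CertB 0 536870912 1073741824 536870912 1045395039 1503240 3 eng mog cd0q0 cd6q2 pd1 false true true .pnp 0 1 2
    ndB0q0 ndB6q2 pcB1 cut_pp_012 Ext.none :=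
  certB1 (fam := false) (s1 := true) (s2 := true) (a := 0) (b := 1) (c := 2) (cn := .pnp) (n1 := ndB0q0) (n2 := ndB6q2) (pc := pcB1) (cut := cut_pp_012) (xt := Ext.none) (P1 := 0) (W1 := 536870912) (P2 := 1073741824) (W2 := 536870912) (P3 := 1045395039) (W3 := 1503240) (N0 := 3) (En := eng) (mo := mog) (C1 := cd0q0) (C2 := cd6q2) (C3 := pd1)
    rfl (fun _ => rfl) k0_pp_012

noncomputable def cut_pp_022 : Cut := Cut.of [[⟨3, 0, 0, 1449551462⟩], [⟨0, 0, 0, 16777216⟩, ⟨1, 1, 0, 16777216⟩, ⟨2, 1, 0, 16777216⟩]]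

noncomputable def f_pp_022 : ℕ → ℕ → ℕ → ℕ → Bool := onCell 0 536870912 1073741824 536870912 1045395039 1503240
    (rowB 3 eng mog cd0q0 cd6q2 pd2 0 false true true .pp 0 2 2 (qsf 0 536870912 1073741824 536870912 2) ndB0q0 ndB6q2 pcB2 cut_pp_022 Ext.none)

def k0_pp_022 : ∃ t, chk3 f_pp_022 t 1 1 1 = true :=
  ⟨(a (b (l 6) (a (a (b (a (b (a (l 16008920) (l 16097712)) (l 15714304)) (b (l 6) (l 16057688))) (a (b (l 15726336) (l 15518792)) (b (l 15885896) (l 15686256)))) (b (b (l 6) (a (l 16164640) (l 6))) (b (l 15871624) (l 15892456)))) (b (l 6) (b (l 6) (a (l 16086992) (l 6)))))) (l 6)), by decide +kernel⟩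

theorem c_pp_022 : CertB 0 536870912 1073741824 536870912 1045395039 1503240 3 eng mog cd0q0 cd6q2 pd2 false true true .pp 0 2 2
    ndB0q0 ndB6q2 pcB2 cut_pp_022 Ext.none :=
  certB0 (fam := false) (s1 := true) (s2 := true) (a := 0) (b := 2) (c := 2) (cn := .pp) (n1 := ndB0q0) (n2 := ndB6q2) (pc := pcB2) (cut := cut_pp_022) (xt := Ext.none) (P1 := 0) (W1 := 536870912) (P2 := 1073741824) (W2 := 536870912) (P3 := 1045395039) (W3 := 1503240) (N0 := 3) (En := eng) (mo := mog) (C1 := cd0q0) (C2 := cd6q2) (C3 := pd2)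
    rfl k0_pp_022

noncomputable def cut_pp_023 : Cut := Cut.of [[⟨3, 0, 0, 1449551462⟩]]

noncomputable def f_pp_023 : ℕ → ℕ → ℕ → ℕ → Bool := onCell 1073741824 536870912 0 1230186008 1045395039 1503240
    (rowB 3 eng mog cd0q0 cd6q3 pd2 2 false true true .up 0 2 3 (qsf 0 536870912 0 1230186008 2) ndB0q0 ndB6q3 pcB2 cut_pp_023 Ext.none)

def k0_pp_023 : ∃ t, chk3 f_pp_023 t 1 1 1 = true :=
  ⟨(a (b (l 2) (l 6)) (a (b (l 2) (a (b (b (l 2) (l 6)) (l 6)) (b (b (b (l 16462528) (l 16466744)) (b (l 16414808) (l 16366992))) (b (b (l 16321360) (l 16265584)) (b (l 16194208) (b (l 16129184) (l 16083696))))))) (a (b (b (l 2) (b (b (l 2) (b (l 2) (l 15702504))) (a (l 16244224) (b (l 16042504) (l 16215920))))) (b (b (b (l 16367648) (l 16350568)) (l 16010408)) (b (b (l 16140192) (l 16060928)) (b (l 15963912) (b (l 15872896) (l 15821184)))))) (b (b (b (l 14290304) (l 14799120)) (b (a (b (b (l 15170184) (l 15302440)) (b (l 15450928) (l 15663712))) (b (l 15122672) (b (l 15325112) (l 15477208)))) (b (b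 (l 15781288) (l 15920488)) (b (l 16017512) (l 16095512))))) (b (b (b (l 16172656) (l 16196288)) (l 15964008)) (b (b (l 15932320) (l 15827384)) (b (l 15510528) (b (l 15605496) (a (b (l 15627912) (l 15600544)) (b (l 15479896) (l 15434728))))))))))), by decide +kernel⟩

theorem c_pp_023 : CertB 0 536870912 0 1230186008 1045395039 1503240 3 eng mog cd0q0 cd6q3 pd2 false true true .up 0 2 3
    ndB0q0 ndB6q3 pcB2 cut_pp_023 Ext.none :=
  certB2 (fam := false) (s1 := true) (s2 := true) (a := 0) (b := 2) (c := 3) (cn := .up) (n1 := ndB0q0) (n2 := ndB6q3) (pc := pcB2) (cut := cut_pp_023) (xt := Ext.none) (P1 := 0) (W1 := 536870912) (P2 := 0) (W2 := 1230186008) (P3 := 1045395039) (W3 := 1503240) (N0 := 3) (En := eng) (mo := mog) (C1 := cd0q0) (C2 := cd6q3) (C3 := pd2)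
    rfl (fun _ => rfl) k0_pp_023

noncomputable def cut_pp_033 : Cut := Cut.of [[⟨3, 0, 0, 1449551462⟩]]

noncomputable def f_pp_033 : ℕ → ℕ → ℕ → ℕ → Bool := onCell 0 536870912 0 1230186008 1045395039 1503240
    (rowB 3 eng mog cd0q0 cd6q3 pd3 0 false true true .pnn 0 3 3 (qsf 0 536870912 0 1230186008 3) ndB0q0 ndB6q3 pcB3 cut_pp_033 Ext.none)

def k0_pp_033 : ∃ t, chk3 f_pp_033 t 1 2 1 = true :=
  ⟨(b (a (a (l 4) (b (a (l 4) (l 15786960)) (a (b (l 4) (l 15677488)) (b (l 15876080) (l 15805544))))) (b (a (a (l 16056568) (l 16049936)) (a (l 16043568) (b (l 16236248) (l 16193192)))) (a (a (l 15693136) (l 15987368)) (l 16102624)))) (a (b (a (a (a (l 4) (b (l 4) (l 15090608))) (a (b (l 4) (l 15238576)) (b (l 15452896) (b (l 15378600) (l 15349312))))) (a (b (a (l 15549992) (l 15643360)) (a (b (l 15499552) (l 15464832)) (l 15568064))) (b (a (l 15715704) (l 15772408)) (l 15664120)))) (a (a (a (b (a (l 14708240) (l 14832568)) (a (b (l 14647928) (l 14614280)) (b (l 14772376) (l 14751392)))) (b (a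 (l 14944048) (b (l 15056072) (l 15020528))) (b (l 14940976) (l 14924736)))) (b (a (b (l 15177552) (l 15142328)) (b (l 15313696) (l 15271408))) (l 15167080))) (a (b (l 15443240) (l 15395912)) (b (l 15606648) (l 15591160))))) (a (b (a (l 15803624) (l 15908936)) (b (a (l 15754600) (l 15905888)) (a (a (l 15724088) (l 15827192)) (b (a (l 15887160) (l 15984352)) (a (l 15945864) (l 16087864)))))) (b (a (l 16029112) (l 16155584)) (a (b (a (l 16017224) (l 16118432)) (b (a (l 16097728) (l 16258696)) (l 16336856))) (b (b (a (l 16154856) (l 1)) (l 1)) (l 1))))))), by decide +kernel⟩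

def k1_pp_033 : ∃ t, chk3 f_pp_033 t 1 6 1 = true :=
  ⟨(a (a (a (b (a (b (l 14712088) (l 14707224)) (b (l 14933624) (l 14978160))) (b (a (b (b (l 14834496) (l 14806680)) (a (l 14700144) (l 14743720))) (b (b (l 14979184) (l 14947120)) (l 14834816))) (b (a (a (l 14451888) (l 14516784)) (b (l 14688920) (l 14614320))) (a (l 14372360) (l 14707872))))) (b (b (l 15094048) (b (l 15176480) (a (b (l 15122264) (l 15118720)) (b (l 15247152) (l 15244064))))) (b (b (a (l 14959736) (l 15207168)) (a (l 14961224) (l 15106976))) (b (a (b (l 14843960) (l 14844960)) (l 15071072)) (l 15072016))))) (b (a (b (l 15398576) (b (a (l 15283376) (b (l 15487120) (l 15510712))) (a (l 15384456) (l 15539144)))) (b (b (l 15602448) (a (l 15587864) (b (l 15693528) (l 15744080)))) (a (b (l 15652464) (l 15708592)) (l 15779624)))) (b (a (b (a (l 15360016) (l 15528792)) (a (l 15226080) (l 15484960))) (b (a (l 15707712) (l 15888976)) (a (l 15678392) (l 15855064)))) (a (b (l 15401072) (l 15476008)) (b (l 15763832) (l 15785888))))))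 (a (b (a (b (b (a (l 15778744) (l 15807256)) (a (l 15888480) (l 16076368))) (b (l 16016896) (a (l 16071624) (l 16123240)))) (b (b (l 16093576) (a (l 16268992) (l 16387280))) (b (a (l 16256600) (l 15951920)) (a (l 15969312) (l 1))))) (b (a (b (a (l 16059616) (l 16206720)) (l 16073048)) (b (l 16274672) (l 1))) (a (b (l 16026928) (l 16003352)) (l 1)))) (b (b (a (b (l 495027161415) (l 1)) (l 1)) (l 1)) (l 1)))), by decide +kernel⟩

def k2_pp_033 : ∃ t, chk3 f_pp_033 t 1 7 1 = true :=
  ⟨(a (a (a (b (b (a (b (l 14682640) (l 14934416)) (b (l 14939832) (l 15195464))) (a (l 15071760) (l 15244032))) (b (a (l 15017464) (l 15214912)) (b (a (l 15019480) (l 15221296)) (a (l 15330432) (l 15488072))))) (b (b (b (l 15248952) (b (l 15400992) (l 15442984))) (l 15452752)) (b (l 15457872) (b (l 15251032) (l 1))))) (b (b (a (b (l 15587128) (l 15667712)) (b (l 15834392) (l 15885456))) (l 126195820327)) (b (a (l 15754480) (l 1)) (l 1)))) (l 1)), by decide +kernel⟩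

theorem s3_pp_033 : ∃ t, chk3 f_pp_033 t 1 3 1 = true := ex3_b k1_pp_033 k2_pp_033

theorem s4_pp_033 : ∃ t, chk3 f_pp_033 t 1 1 1 = true := ex3_b k0_pp_033 s3_pp_033

theorem c_pp_033 : CertB 0 536870912 0 1230186008 1045395039 1503240 3 eng mog cd0q0 cd6q3 pd3 false true true .pnn 0 3 3
    ndB0q0 ndB6q3 pcB3 cut_pp_033 Ext.none :=
  certB0 (fam := false) (s1 := true) (s2 := true) (a := 0) (b := 3) (c := 3) (cn := .pnn) (n1 := ndB0q0) (n2 := ndB6q3) (pc := pcB3) (cut := cut_pp_033) (xt := Ext.none) (P1 := 0) (W1 := 536870912) (P2 := 0) (W2 := 1230186008) (P3 := 1045395039) (W3 := 1503240) (N0 := 3) (En := eng) (mo := mog) (C1 := cd0q0) (C2 := cd6q3) (C3 := pd3)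
    rfl s4_pp_033

noncomputable def cut_pp_101 : Cut := Cut.of [[⟨3, 0, 0, 1449551462⟩]]

noncomputable def f_pp_101 : ℕ → ℕ → ℕ → ℕ → Bool := onCell 536870912 536870912 0 536870912 1045395039 1503240
    (rowB 3 eng mog cd0q1 cd6q1 pd0 1 false true true .npn 1 0 1 (qsf 536870912 536870912 536870912 536870912 0) ndB0q1 ndB6q1 pcB0 cut_pp_101 Ext.none)

def k0_pp_101 : ∃ t, chk3 f_pp_101 t 1 1 1 = true :=
  ⟨(l 6), by decide +kernel⟩

theorem c_pp_101 : CertB 536870912 536870912 536870912 536870912 1045395039 1503240 3 eng mog cd0q1 cd6q1 pd0 false true true .npn 1 0 1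
    ndB0q1 ndB6q1 pcB0 cut_pp_101 Ext.none :=
  certB1 (fam := false) (s1 := true) (s2 := true) (a := 1) (b := 0) (c := 1) (cn := .npn) (n1 := ndB0q1) (n2 := ndB6q1) (pc := pcB0) (cut := cut_pp_101) (xt := Ext.none) (P1 := 536870912) (W1 := 536870912) (P2 := 536870912) (W2 := 536870912) (P3 := 1045395039) (W3 := 1503240) (N0 := 3) (En := eng) (mo := mog) (C1 := cd0q1) (C2 := cd6q1) (C3 := pd0)
    rfl (fun _ => rfl) k0_pp_101

noncomputable def cut_pp_102 : Cut := Cut.of [[⟨3, 0, 0, 1449551462⟩]]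

noncomputable def f_pp_102 : ℕ → ℕ → ℕ → ℕ → Bool := onCell 536870912 536870912 1073741824 536870912 1045395039 1503240
    (rowB 3 eng mog cd0q1 cd6q2 pd0 0 false true true .npp 1 0 2 (qsf 536870912 536870912 1073741824 536870912 0) ndB0q1 ndB6q2 pcB0 cut_pp_102 Ext.none)

def k0_pp_102 : ∃ t, chk3 f_pp_102 t 1 1 1 = true :=
  ⟨(l 6), by decide +kernel⟩

theorem c_pp_102 : CertB 536870912 536870912 1073741824 536870912 1045395039 1503240 3 eng mog cd0q1 cd6q2 pd0 false true true .npp 1 0 2
    ndB0q1 ndB6q2 pcB0 cut_pp_102 Ext.none :=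
  certB0 (fam := false) (s1 := true) (s2 := true) (a := 1) (b := 0) (c := 2) (cn := .npp) (n1 := ndB0q1) (n2 := ndB6q2) (pc := pcB0) (cut := cut_pp_102) (xt := Ext.none) (P1 := 536870912) (W1 := 536870912) (P2 := 1073741824) (W2 := 536870912) (P3 := 1045395039) (W3 := 1503240) (N0 := 3) (En := eng) (mo := mog) (C1 := cd0q1) (C2 := cd6q2) (C3 := pd0)
    rfl k0_pp_102

noncomputable def cut_pp_112 : Cut := Cut.of [[⟨3, 0, 0, 1449551462⟩]]

noncomputable def f_pp_112 : ℕ → ℕ → ℕ → ℕ → Bool := onCell 536870912 536870912 1073741824 536870912 1045395039 1503240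
    (rowB 3 eng mog cd0q1 cd6q2 pd1 0 false true true .dn 1 1 2 (qsf 536870912 536870912 1073741824 536870912 1) ndB0q1 ndB6q2 pcB1 cut_pp_112 Ext.none)

def k0_pp_112 : ∃ t, chk3 f_pp_112 t 1 1 1 = true :=
  ⟨(l 6), by decide +kernel⟩

theorem c_pp_112 : CertB 536870912 536870912 1073741824 536870912 1045395039 1503240 3 eng mog cd0q1 cd6q2 pd1 false true true .dn 1 1 2
    ndB0q1 ndB6q2 pcB1 cut_pp_112 Ext.none :=
  certB0 (fam := false) (s1 := true) (s2 := true) (a := 1) (b := 1) (c := 2) (cn := .dn) (n1 := ndB0q1) (n2 := ndB6q2) (pc := pcB1) (cut := cut_pp_112) (xt := Ext.none) (P1 := 536870912) (W1 := 536870912) (P2 := 1073741824) (W2 := 536870912) (P3 := 1045395039) (W3 := 1503240) (N0 := 3) (En := eng) (mo := mog) (C1 := cd0q1) (C2 := cd6q2) (C3 := pd1)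
    rfl k0_pp_112

noncomputable def cut_pp_113 : Cut := Cut.of [[⟨3, 0, 0, 1449551462⟩], [⟨0, 1, 0, 14155776⟩, ⟨1, 1, 0, 14155776⟩, ⟨2, 2, 0, 524288⟩]]

noncomputable def f_pp_113 : ℕ → ℕ → ℕ → ℕ → Bool := onCell 536870912 536870912 0 1230186008 1045395039 1503240
    (rowB 3 eng mog cd0q1 cd6q3 pd1 0 false true true .nn 1 1 3 (qsf 536870912 536870912 0 1230186008 1) ndB0q1 ndB6q3 pcB1 cut_pp_113 Ext.none)

def k0_pp_113 : ∃ t, chk3 f_pp_113 t 1 1 1 = true :=
  ⟨(b (a (l 2) (a (l 2) (b (a (l 2) (l 6)) (l 6)))) (a (b (a (l 2) (l 6)) (l 6)) (l 6))), by decide +kernel⟩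

theorem c_pp_113 : CertB 536870912 536870912 0 1230186008 1045395039 1503240 3 eng mog cd0q1 cd6q3 pd1 false true true .nn 1 1 3
    ndB0q1 ndB6q3 pcB1 cut_pp_113 Ext.none :=
  certB0 (fam := false) (s1 := true) (s2 := true) (a := 1) (b := 1) (c := 3) (cn := .nn) (n1 := ndB0q1) (n2 := ndB6q3) (pc := pcB1) (cut := cut_pp_113) (xt := Ext.none) (P1 := 536870912) (W1 := 536870912) (P2 := 0) (W2 := 1230186008) (P3 := 1045395039) (W3 := 1503240) (N0 := 3) (En := eng) (mo := mog) (C1 := cd0q1) (C2 := cd6q3) (C3 := pd1)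
    rfl k0_pp_113

noncomputable def cut_pp_123 : Cut := Cut.of [[⟨3, 0, 0, 1449551462⟩], [⟨0, 1, 0, 14155776⟩, ⟨1, 1, 0, 14155776⟩, ⟨2, 2, 0, 524288⟩]]

noncomputable def f_pp_123 : ℕ → ℕ → ℕ → ℕ → Bool := onCell 1073741824 536870912 0 1230186008 1045395039 1503240
    (rowB 3 eng mog cd0q1 cd6q3 pd2 2 false true true .npn 1 2 3 (qsf 536870912 536870912 0 1230186008 2) ndB0q1 ndB6q3 pcB2 cut_pp_123 Ext.none)

def k0_pp_123 : ∃ t, chk3 f_pp_123 t 1 1 1 = true :=
  ⟨(a (b (b (a (a (l 6) (b (a (l 6) (b (b (l 16113968) (l 6)) (l 6))) (l 6))) (b (a (b (a (b (l 15912312) (l 15981640)) (a (l 15817632) (l 15735024))) (a (a (l 6) (l 16150184)) (l 15952000))) (b (l 15546824) (a (l 15739416) (b (l 15530336) (l 15591648))))) (a (a (l 6) (b (b (l 16216096) (l 16330920)) (l 6))) (a (b (l 16062280) (l 16307992)) (b (l 15799472) (l 15929344)))))) (a (l 6) (a (l 6) (b (b (l 16378320) (l 16540056)) (l 6))))) (l 6)) (b (b (b (a (a (b (l 15205208) (l 15341736)) (l 14943968)) (a (l 14606832) (l 14290312)))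 (a (a (a (b (l 15595136) (l 15973800)) (b (b (l 15374720) (l 15471928)) (l 15725328))) (b (l 15217280) (a (l 15525080) (b (l 15296336) (l 15423232))))) (a (b (l 14943896) (l 15168240)) (l 14798944)))) (a (b (a (b (a (l 16232752) (l 16097864)) (l 16362184)) (a (b (l 15939872) (l 16193920)) (b (l 15718728) (l 16065720)))) (a (b (l 16511008) (a (l 6) (l 16578976))) (b (l 16318952) (l 16459984)))) (b (a (b (b (a (l 15421224) (l 15286736)) (l 15519680)) (b (l 15733536) (a (l 16011456) (l 15859168)))) (a (b (b (l 15170152) (l 15302392)) (b (l 15450856) (l 15663608))) (b (l 15122496) (l 1)))) (a (a (l 16244120) (b (l 16042392) (l 16215632))) (b (b (l 15780592) (l 1)) (l 1)))))) (b (a (b (a (b (l 16598240) (l 6)) (b (l 16504376) (l 16466200))) (a (l 6) (b (l 16413168) (l 1)))) (b (a (b (l 16303624) (l 1)) (l 1)) (l 1))) (l 1)))), by decide +kernel⟩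

theorem c_pp_123 : CertB 536870912 536870912 0 1230186008 1045395039 1503240 3 eng mog cd0q1 cd6q3 pd2 false true true .npn 1 2 3
    ndB0q1 ndB6q3 pcB2 cut_pp_123 Ext.none :=
  certB2 (fam := false) (s1 := true) (s2 := true) (a := 1) (b := 2) (c := 3) (cn := .npn) (n1 := ndB0q1) (n2 := ndB6q3) (pc := pcB2) (cut := cut_pp_123) (xt := Ext.none) (P1 := 536870912) (W1 := 536870912) (P2 := 0) (W2 := 1230186008) (P3 := 1045395039) (W3 := 1503240) (N0 := 3) (En := eng) (mo := mog) (C1 := cd0q1) (C2 := cd6q3) (C3 := pd2)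
    rfl (fun _ => rfl) k0_pp_123

noncomputable def cut_pp_133 : Cut := Cut.of [[⟨3, 0, 0, 1449551462⟩]]

noncomputable def f_pp_133 : ℕ → ℕ → ℕ → ℕ → Bool := onCell 536870912 536870912 0 1230186008 1045395039 1503240
    (rowB 3 eng mog cd0q1 cd6q3 pd3 0 false true true .dn 1 3 3 (qsf 536870912 536870912 0 1230186008 3) ndB0q1 ndB6q3 pcB3 cut_pp_133 Ext.none)

def k0_pp_133 : ∃ t, chk3 f_pp_133 t 1 1 1 = true :=
  ⟨(b (b (a (b (a (l 16141848) (l 1)) (l 1)) (l 1)) (l 1)) (l 1)), by decide +kernel⟩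

theorem c_pp_133 : CertB 536870912 536870912 0 1230186008 1045395039 1503240 3 eng mog cd0q1 cd6q3 pd3 false true true .dn 1 3 3
    ndB0q1 ndB6q3 pcB3 cut_pp_133 Ext.none :=
  certB0 (fam := false) (s1 := true) (s2 := true) (a := 1) (b := 3) (c := 3) (cn := .dn) (n1 := ndB0q1) (n2 := ndB6q3) (pc := pcB3) (cut := cut_pp_133) (xt := Ext.none) (P1 := 536870912) (W1 := 536870912) (P2 := 0) (W2 := 1230186008) (P3 := 1045395039) (W3 := 1503240) (N0 := 3) (En := eng) (mo := mog) (C1 := cd0q1) (C2 := cd6q3) (C3 := pd3)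
    rfl k0_pp_133

noncomputable def cut_pp_202 : Cut := Cut.of [[⟨3, 0, 0, 1449551462⟩]]

noncomputable def f_pp_202 : ℕ → ℕ → ℕ → ℕ → Bool := onCell 0 536870912 1073741824 536870912 1045395039 1503240
    (rowB 3 eng mog cd0q2 cd6q2 pd0 0 false true true .pp 2 0 2 (qsf 0 536870912 1073741824 536870912 0) ndB0q2 ndB6q2 pcB0 cut_pp_202 Ext.none)

def k0_pp_202 : ∃ t, chk3 f_pp_202 t 1 1 1 = true :=
  ⟨(l 5), by decide +kernel⟩

theorem c_pp_202 : CertB 0 536870912 1073741824 536870912 1045395039 1503240 3 eng mog cd0q2 cd6q2 pd0 false true true .pp 2 0 2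
    ndB0q2 ndB6q2 pcB0 cut_pp_202 Ext.none :=
  certB0 (fam := false) (s1 := true) (s2 := true) (a := 2) (b := 0) (c := 2) (cn := .pp) (n1 := ndB0q2) (n2 := ndB6q2) (pc := pcB0) (cut := cut_pp_202) (xt := Ext.none) (P1 := 0) (W1 := 536870912) (P2 := 1073741824) (W2 := 536870912) (P3 := 1045395039) (W3 := 1503240) (N0 := 3) (En := eng) (mo := mog) (C1 := cd0q2) (C2 := cd6q2) (C3 := pd0)
    rfl k0_pp_202

noncomputable def cut_pp_203 : Cut := Cut.of [[⟨3, 0, 0, 1449551462⟩]]

noncomputable def f_pp_203 : ℕ → ℕ → ℕ → ℕ → Bool := onCell 0 536870912 0 1230186008 1045395039 1503240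
    (rowB 3 eng mog cd0q2 cd6q3 pd0 0 false true true .up 2 0 3 (qsf 0 536870912 0 1230186008 0) ndB0q2 ndB6q3 pcB0 cut_pp_203 Ext.none)

def k0_pp_203 : ∃ t, chk3 f_pp_203 t 1 1 1 = true :=
  ⟨(b (l 2) (a (l 5) (l 6))), by decide +kernel⟩

theorem c_pp_203 : CertB 0 536870912 0 1230186008 1045395039 1503240 3 eng mog cd0q2 cd6q3 pd0 false true true .up 2 0 3
    ndB0q2 ndB6q3 pcB0 cut_pp_203 Ext.none :=
  certB0 (fam := false) (s1 := true) (s2 := true) (a := 2) (b := 0) (c := 3) (cn := .up) (n1 := ndB0q2) (n2 := ndB6q3) (pc := pcB0) (cut := cut_pp_203) (xt := Ext.none) (P1 := 0) (W1 := 536870912) (P2 := 0) (W2 := 1230186008) (P3 := 1045395039) (W3 := 1503240) (N0 := 3) (En := eng) (mo := mog) (C1 := cd0q2) (C2 := cd6q3) (C3 := pd0)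
    rfl k0_pp_203

noncomputable def cut_pp_213 : Cut := Cut.of [[⟨3, 0, 0, 1449551462⟩], [⟨0, 1, 0, 14155776⟩, ⟨1, 1, 0, 14155776⟩, ⟨2, 2, 0, 524288⟩]]

noncomputable def f_pp_213 : ℕ → ℕ → ℕ → ℕ → Bool := onCell 0 536870912 0 1230186008 1045395039 1503240
    (rowB 3 eng mog cd0q2 cd6q3 pd1 0 false true true .pnn 2 1 3 (qsf 0 536870912 0 1230186008 1) ndB0q2 ndB6q3 pcB1 cut_pp_213 Ext.none)

def k0_pp_213 : ∃ t, chk3 f_pp_213 t 1 1 1 = true :=
  ⟨(b (l 6) (a (l 5) (l 6))), by decide +kernel⟩

theorem c_pp_213 : CertB 0 536870912 0 1230186008 1045395039 1503240 3 eng mog cd0q2 cd6q3 pd1 false true true .pnn 2 1 3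
    ndB0q2 ndB6q3 pcB1 cut_pp_213 Ext.none :=
  certB0 (fam := false) (s1 := true) (s2 := true) (a := 2) (b := 1) (c := 3) (cn := .pnn) (n1 := ndB0q2) (n2 := ndB6q3) (pc := pcB1) (cut := cut_pp_213) (xt := Ext.none) (P1 := 0) (W1 := 536870912) (P2 := 0) (W2 := 1230186008) (P3 := 1045395039) (W3 := 1503240) (N0 := 3) (En := eng) (mo := mog) (C1 := cd0q2) (C2 := cd6q3) (C3 := pd1)
    rfl k0_pp_213

noncomputable def cut_pm_001 : Cut := Cut.of [[⟨3, 0, 0, 1449551462⟩]]

noncomputable def f_pm_001 : ℕ → ℕ → ℕ → ℕ → Bool := onCell 0 536870912 536870912 536870912 1045395039 1503240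
    (rowB 3 eng mog cd0q0 cd6q1 pd0 0 false true false .up 0 0 1 (qsf 0 536870912 536870912 536870912 0) ndB0q0 ndB6q1 pcB0 cut_pm_001 Ext.none)

def k0_pm_001 : ∃ t, chk3 f_pm_001 t 1 1 1 = true :=
  ⟨(l 4), by decide +kernel⟩

theorem c_pm_001 : CertB 0 536870912 536870912 536870912 1045395039 1503240 3 eng mog cd0q0 cd6q1 pd0 false true false .up 0 0 1
    ndB0q0 ndB6q1 pcB0 cut_pm_001 Ext.none :=
  certB0 (fam := false) (s1 := true) (s2 := false) (a := 0) (b := 0) (c := 1) (cn := .up) (n1 := ndB0q0) (n2 := ndB6q1) (pc := pcB0) (cut := cut_pm_001) (xt := Ext.none) (P1 := 0) (W1 := 536870912) (P2 := 536870912) (W2 := 536870912) (P3 := 1045395039) (W3 := 1503240) (N0 := 3) (En := eng) (mo := mog) (C1 := cd0q0) (C2 := cd6q1) (C3 := pd0)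
    rfl k0_pm_001

noncomputable def cut_pm_011 : Cut := Cut.of [[⟨3, 0, 0, 1449551462⟩]]

noncomputable def f_pm_011 : ℕ → ℕ → ℕ → ℕ → Bool := onCell 0 536870912 536870912 536870912 1045395039 1503240
    (rowB 3 eng mog cd0q0 cd6q1 pd1 0 false true false .pnn 0 1 1 (qsf 0 536870912 536870912 536870912 1) ndB0q0 ndB6q1 pcB1 cut_pm_011 Ext.none)

def k0_pm_011 : ∃ t, chk3 f_pm_011 t 1 1 1 = true :=
  ⟨(l 4), by decide +kernel⟩

theorem c_pm_011 : CertB 0 536870912 536870912 536870912 1045395039 1503240 3 eng mog cd0q0 cd6q1 pd1 false true false .pnn 0 1 1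
    ndB0q0 ndB6q1 pcB1 cut_pm_011 Ext.none :=
  certB0 (fam := false) (s1 := true) (s2 := false) (a := 0) (b := 1) (c := 1) (cn := .pnn) (n1 := ndB0q0) (n2 := ndB6q1) (pc := pcB1) (cut := cut_pm_011) (xt := Ext.none) (P1 := 0) (W1 := 536870912) (P2 := 536870912) (W2 := 536870912) (P3 := 1045395039) (W3 := 1503240) (N0 := 3) (En := eng) (mo := mog) (C1 := cd0q0) (C2 := cd6q1) (C3 := pd1)
    rfl k0_pm_011

noncomputable def cut_pm_012 : Cut := Cut.of [[⟨3, 0, 0, 1449551462⟩]]

noncomputable def f_pm_012 : ℕ → ℕ → ℕ → ℕ → Bool := onCell 0 536870912 1073741824 536870912 1045395039 1503240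
    (rowB 3 eng mog cd0q0 cd6q2 pd1 0 false true false .pnp 0 1 2 (qsf 0 536870912 1073741824 536870912 1) ndB0q0 ndB6q2 pcB1 cut_pm_012 Ext.none)

def k0_pm_012 : ∃ t, chk3 f_pm_012 t 1 1 1 = true :=
  ⟨(l 4), by decide +kernel⟩

theorem c_pm_012 : CertB 0 536870912 1073741824 536870912 1045395039 1503240 3 eng mog cd0q0 cd6q2 pd1 false true false .pnp 0 1 2
    ndB0q0 ndB6q2 pcB1 cut_pm_012 Ext.none :=
  certB0 (fam := false) (s1 := true) (s2 := false) (a := 0) (b := 1) (c := 2) (cn := .pnp) (n1 := ndB0q0) (n2 := ndB6q2) (pc := pcB1) (cut := cut_pm_012) (xt := Ext.none) (P1 := 0) (W1 := 536870912) (P2 := 1073741824) (W2 := 536870912) (P3 := 1045395039) (W3 := 1503240) (N0 := 3) (En := eng) (mo := mog) (C1 := cd0q0) (C2 := cd6q2) (C3 := pd1)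
    rfl k0_pm_012

noncomputable def cut_pm_022 : Cut := Cut.of [[⟨3, 0, 0, 1449551462⟩]]

noncomputable def f_pm_022 : ℕ → ℕ → ℕ → ℕ → Bool := onCell 0 536870912 1073741824 536870912 1045395039 1503240
    (rowB 3 eng mog cd0q0 cd6q2 pd2 0 false true false .pp 0 2 2 (qsf 0 536870912 1073741824 536870912 2) ndB0q0 ndB6q2 pcB2 cut_pm_022 Ext.none)

def k0_pm_022 : ∃ t, chk3 f_pm_022 t 1 1 1 = true :=
  ⟨(l 4), by decide +kernel⟩

theorem c_pm_022 : CertB 0 536870912 1073741824 536870912 1045395039 1503240 3 eng mog cd0q0 cd6q2 pd2 false true false .pp 0 2 2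
    ndB0q0 ndB6q2 pcB2 cut_pm_022 Ext.none :=
  certB0 (fam := false) (s1 := true) (s2 := false) (a := 0) (b := 2) (c := 2) (cn := .pp) (n1 := ndB0q0) (n2 := ndB6q2) (pc := pcB2) (cut := cut_pm_022) (xt := Ext.none) (P1 := 0) (W1 := 536870912) (P2 := 1073741824) (W2 := 536870912) (P3 := 1045395039) (W3 := 1503240) (N0 := 3) (En := eng) (mo := mog) (C1 := cd0q0) (C2 := cd6q2) (C3 := pd2)
    rfl k0_pm_022

noncomputable def cut_pm_023 : Cut := Cut.of [[⟨3, 0, 0, 1449551462⟩]]

noncomputable def f_pm_023 : ℕ → ℕ → ℕ → ℕ → Bool := onCell 0 536870912 0 1230186008 1045395039 1503240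
    (rowB 3 eng mog cd0q0 cd6q3 pd2 0 false true false .up 0 2 3 (qsf 0 536870912 0 1230186008 2) ndB0q0 ndB6q3 pcB2 cut_pm_023 Ext.none)

def k0_pm_023 : ∃ t, chk3 f_pm_023 t 1 1 1 = true :=
  ⟨(b (a (l 2) (a (l 2) (a (b (l 2) (l 4)) (b (a (l 2) (b (b (l 14135024) (l 14826760)) (b (l 15422064) (l 15811600)))) (l 4))))) (l 4)), by decide +kernel⟩

theorem c_pm_023 : CertB 0 536870912 0 1230186008 1045395039 1503240 3 eng mog cd0q0 cd6q3 pd2 false true false .up 0 2 3
    ndB0q0 ndB6q3 pcB2 cut_pm_023 Ext.none :=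
  certB0 (fam := false) (s1 := true) (s2 := false) (a := 0) (b := 2) (c := 3) (cn := .up) (n1 := ndB0q0) (n2 := ndB6q3) (pc := pcB2) (cut := cut_pm_023) (xt := Ext.none) (P1 := 0) (W1 := 536870912) (P2 := 0) (W2 := 1230186008) (P3 := 1045395039) (W3 := 1503240) (N0 := 3) (En := eng) (mo := mog) (C1 := cd0q0) (C2 := cd6q3) (C3 := pd2)
    rfl k0_pm_023

noncomputable def cut_pm_033 : Cut := Cut.of [[⟨3, 0, 0, 1449551462⟩]]

noncomputable def f_pm_033 : ℕ → ℕ → ℕ → ℕ → Bool := onCell 1610612736 536870912 0 1230186008 1045395039 1503240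
    (rowB 3 eng mog cd0q0 cd6q3 pd3 2 false true false .pnn 0 3 3 (qsf 0 536870912 0 1230186008 3) ndB0q0 ndB6q3 pcB3 cut_pm_033 Ext.none)

def k0_pm_033 : ∃ t, chk3 f_pm_033 t 1 1 1 = true :=
  ⟨(b (b (a (b (a (a (l 16058352) (l 16107648)) (a (l 16059800) (l 4))) (a (a (l 16017160) (l 15993632)) (l 4))) (l 4)) (l 4)) (l 4)), by decide +kernel⟩

theorem c_pm_033 : CertB 0 536870912 0 1230186008 1045395039 1503240 3 eng mog cd0q0 cd6q3 pd3 false true false .pnn 0 3 3
    ndB0q0 ndB6q3 pcB3 cut_pm_033 Ext.none :=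
  certB2 (fam := false) (s1 := true) (s2 := false) (a := 0) (b := 3) (c := 3) (cn := .pnn) (n1 := ndB0q0) (n2 := ndB6q3) (pc := pcB3) (cut := cut_pm_033) (xt := Ext.none) (P1 := 0) (W1 := 536870912) (P2 := 0) (W2 := 1230186008) (P3 := 1045395039) (W3 := 1503240) (N0 := 3) (En := eng) (mo := mog) (C1 := cd0q0) (C2 := cd6q3) (C3 := pd3)
    rfl (fun _ => rfl) k0_pm_033

noncomputable def cut_pm_101 : Cut := Cut.of [[⟨3, 0, 0, 1449551462⟩]]

noncomputable def f_pm_101 : ℕ → ℕ → ℕ → ℕ → Bool := onCell 536870912 536870912 536870912 536870912 1045395039 1503240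
    (rowB 3 eng mog cd0q1 cd6q1 pd0 0 false true false .npn 1 0 1 (qsf 536870912 536870912 536870912 536870912 0) ndB0q1 ndB6q1 pcB0 cut_pm_101 Ext.none)

def k0_pm_101 : ∃ t, chk3 f_pm_101 t 1 1 1 = true :=
  ⟨(l 4), by decide +kernel⟩

theorem c_pm_101 : CertB 536870912 536870912 536870912 536870912 1045395039 1503240 3 eng mog cd0q1 cd6q1 pd0 false true false .npn 1 0 1
    ndB0q1 ndB6q1 pcB0 cut_pm_101 Ext.none :=
  certB0 (fam := false) (s1 := true) (s2 := false) (a := 1) (b := 0) (c := 1) (cn := .npn) (n1 := ndB0q1) (n2 := ndB6q1) (pc := pcB0) (cut := cut_pm_101) (xt := Ext.none) (P1 := 536870912) (W1 := 536870912) (P2 := 536870912) (W2 := 536870912) (P3 := 1045395039) (W3 := 1503240) (N0 := 3) (En := eng) (mo := mog) (C1 := cd0q1) (C2 := cd6q1) (C3 := pd0)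
    rfl k0_pm_101

noncomputable def cut_pm_102 : Cut := Cut.of [[⟨3, 0, 0, 1449551462⟩]]

noncomputable def f_pm_102 : ℕ → ℕ → ℕ → ℕ → Bool := onCell 536870912 536870912 1073741824 536870912 1045395039 1503240
    (rowB 3 eng mog cd0q1 cd6q2 pd0 0 false true false .npp 1 0 2 (qsf 536870912 536870912 1073741824 536870912 0) ndB0q1 ndB6q2 pcB0 cut_pm_102 Ext.none)

def k0_pm_102 : ∃ t, chk3 f_pm_102 t 1 1 1 = true :=
  ⟨(a (l 4) (b (l 4) (a (l 4) (a (l 4) (a (l 4) (b (l 4) (b (l 4) (l 14539024)))))))), by decide +kernel⟩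

theorem c_pm_102 : CertB 536870912 536870912 1073741824 536870912 1045395039 1503240 3 eng mog cd0q1 cd6q2 pd0 false true false .npp 1 0 2
    ndB0q1 ndB6q2 pcB0 cut_pm_102 Ext.none :=
  certB0 (fam := false) (s1 := true) (s2 := false) (a := 1) (b := 0) (c := 2) (cn := .npp) (n1 := ndB0q1) (n2 := ndB6q2) (pc := pcB0) (cut := cut_pm_102) (xt := Ext.none) (P1 := 536870912) (W1 := 536870912) (P2 := 1073741824) (W2 := 536870912) (P3 := 1045395039) (W3 := 1503240) (N0 := 3) (En := eng) (mo := mog) (C1 := cd0q1) (C2 := cd6q2) (C3 := pd0)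
    rfl k0_pm_102

noncomputable def cut_pm_112 : Cut := Cut.of [[⟨3, 0, 0, 1449551462⟩]]

noncomputable def f_pm_112 : ℕ → ℕ → ℕ → ℕ → Bool := onCell 536870912 536870912 1073741824 536870912 1045395039 1503240
    (rowB 3 eng mog cd0q1 cd6q2 pd1 0 false true false .dn 1 1 2 (qsf 536870912 536870912 1073741824 536870912 1) ndB0q1 ndB6q2 pcB1 cut_pm_112 Ext.none)

def k0_pm_112 : ∃ t, chk3 f_pm_112 t 1 1 1 = true :=
  ⟨(a (l 4) (b (l 4) (a (l 4) (a (l 4) (a (l 4) (b (l 1) (b (l 1) (l 14693064)))))))), by decide +kernel⟩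

theorem c_pm_112 : CertB 536870912 536870912 1073741824 536870912 1045395039 1503240 3 eng mog cd0q1 cd6q2 pd1 false true false .dn 1 1 2
    ndB0q1 ndB6q2 pcB1 cut_pm_112 Ext.none :=
  certB0 (fam := false) (s1 := true) (s2 := false) (a := 1) (b := 1) (c := 2) (cn := .dn) (n1 := ndB0q1) (n2 := ndB6q2) (pc := pcB1) (cut := cut_pm_112) (xt := Ext.none) (P1 := 536870912) (W1 := 536870912) (P2 := 1073741824) (W2 := 536870912) (P3 := 1045395039) (W3 := 1503240) (N0 := 3) (En := eng) (mo := mog) (C1 := cd0q1) (C2 := cd6q2) (C3 := pd1)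
    rfl k0_pm_112

noncomputable def cut_pm_113 : Cut := Cut.of [[⟨3, 0, 0, 1449551462⟩], [⟨0, 1, 0, 14155776⟩, ⟨1, 1, 0, 14155776⟩, ⟨2, 2, 0, 524288⟩]]

noncomputable def f_pm_113 : ℕ → ℕ → ℕ → ℕ → Bool := onCell 536870912 536870912 0 1230186008 1045395039 1503240
    (rowB 3 eng mog cd0q1 cd6q3 pd1 0 false true false .nn 1 1 3 (qsf 536870912 536870912 0 1230186008 1) ndB0q1 ndB6q3 pcB1 cut_pm_113 Ext.none)

def k0_pm_113 : ∃ t, chk3 f_pm_113 t 1 1 1 = true :=
  ⟨(a (b (l 2) (b (b (l 2) (l 4)) (l 4))) (a (b (l 2) (b (b (a (l 2) (b (l 14192928) (l 14143384))) (a (b (a (b (l 2) (l 13282296)) (l 13500696)) (a (l 4) (b (a (l 4) (l 13586816)) (l 4)))) (b (l 13943688) (a (b (a (l 13667936) (l 13770896)) (l 13845912)) (l 13979424))))) (b (a (l 4) (b (l 46399916167) (l 14337304))) (l 4)))) (b (b (a (l 2) (a (l 2) (b (l 6) (a (b (l 2) (l 16668952)) (b (l 6) (a (l 16717648) (l 16768096))))))) (a (b (a (l 2) (l 265850383351)) (a (b (l 2) (l 453753906247)) (b (l 15479920) (b (l 15431496) (l 15402984)))))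 (a (b (l 15923224) (b (l 15529736) (l 15485640))) (b (a (l 15926184) (l 15926112)) (a (l 15525688) (l 15519184)))))) (b (a (b (b (a (l 14905920) (l 15268144)) (l 14837840)) (b (l 14584536) (a (l 14220368) (l 14467608)))) (a (b (b (l 15689720) (l 15311448)) (l 14894544)) (b (b (l 15506192) (a (l 15478840) (l 15512384))) (b (l 15290536) (l 14994184))))) (a (b (b (a (l 14196736) (l 14332888)) (l 14463624)) (b (l 14619208) (l 4))) (b (a (b (b (l 14512928) (l 14448680)) (b (l 14485456) (l 14580840))) (a (b (l 14644800) (l 14515552)) (b (l 14726432) (l 14377752)))) (a (b (l 14647592) (l 14729464)) (b (l 14656128) (a (l 14710816) (l 14715592)))))))))), by decide +kernel⟩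

theorem c_pm_113 : CertB 536870912 536870912 0 1230186008 1045395039 1503240 3 eng mog cd0q1 cd6q3 pd1 false true false .nn 1 1 3
    ndB0q1 ndB6q3 pcB1 cut_pm_113 Ext.none :=
  certB0 (fam := false) (s1 := true) (s2 := false) (a := 1) (b := 1) (c := 3) (cn := .nn) (n1 := ndB0q1) (n2 := ndB6q3) (pc := pcB1) (cut := cut_pm_113) (xt := Ext.none) (P1 := 536870912) (W1 := 536870912) (P2 := 0) (W2 := 1230186008) (P3 := 1045395039) (W3 := 1503240) (N0 := 3) (En := eng) (mo := mog) (C1 := cd0q1) (C2 := cd6q3) (C3 := pd1)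
    rfl k0_pm_113

noncomputable def cut_pm_123 : Cut := Cut.of [[⟨3, 0, 0, 1449551462⟩], [⟨0, 1, 0, 14155776⟩, ⟨1, 1, 0, 14155776⟩, ⟨2, 2, 0, 524288⟩]]

noncomputable def f_pm_123 : ℕ → ℕ → ℕ → ℕ → Bool := onCell 1073741824 536870912 0 1230186008 1045395039 1503240
    (rowB 3 eng mog cd0q1 cd6q3 pd2 2 false true false .npn 1 2 3 (qsf 536870912 536870912 0 1230186008 2) ndB0q1 ndB6q3 pcB2 cut_pm_123 Ext.none)

def k0_pm_123 : ∃ t, chk3 f_pm_123 t 1 4 1 = true :=
  ⟨(a (a (a (a (b (l 6) (a (b (l 6) (b (a (l 16721072) (l 16591064)) (l 16516520))) (b (l 16551312) (l 16268088)))) (b (b (l 6) (b (l 6) (l 16418600))) (b (l 16336544) (l 16149992)))) (b (b (a (b (l 6) (l 16210416)) (b (l 16052864) (l 16061264))) (a (l 16254408) (l 16088648))) (a (b (l 16171120) (l 16010448)) (b (l 15984520) (l 15816616))))) (b (a (b (l 15823400) (l 15795408)) (b (l 15455016) (l 15348448))) (a (a (l 15668208) (l 15419504)) (a (l 15154824) (l 14881184))))) (a (b (a (b (l 15046848) (l 14873704)) (b (l 14629464) (l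 14401904))) (a (b (l 14624208) (a (l 14484504) (b (l 14278776) (l 14247992)))) (b (a (l 14252552) (l 14105416)) (a (l 14228552) (l 14402472))))) (b (a (b (l 14228632) (a (l 14090312) (l 14004992))) (b (a (l 13984904) (l 13961664)) (a (l 14102816) (l 14468960)))) (a (a (b (l 14119328) (l 14671672)) (l 14694208)) (a (l 15064128) (b (l 15139008) (l 15718856))))))), by decide +kernel⟩

def k1_pm_123 : ∃ t, chk3 f_pm_123 t 1 5 1 = true :=
  ⟨(b (a (a (a (a (b (a (l 16228136) (l 16061136)) (a (l 16033280) (l 15948128))) (b (l 15995264) (l 15890968))) (a (b (l 15860504) (l 15736848)) (b (l 15651096) (l 15500336)))) (a (a (b (l 15392496) (l 15210192)) (b (l 15104256) (l 14881656))) (b (a (l 14813208) (b (l 14572840) (l 14533032))) (a (l 14716544) (l 14665712))))) (a (a (a (b (l 14435936) (l 14731832)) (l 14699184)) (a (l 14916280) (b (l 14937616) (l 15435568)))) (a (a (b (l 15270488) (l 15641264)) (b (l 15579200) (l 4))) (a (l 15735184) (l 4))))) (a (a (a (b (a (a (l 15992136) (l 15925000)) (l 15842656))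 (a (b (a (l 16029944) (l 15950784)) (a (b (l 16050872) (a (l 16074544) (l 15943840))) (b (l 15917728) (l 15752552)))) (b (a (b (l 15884168) (l 15843760)) (b (l 15759840) (l 15639416))) (l 15505128)))) (b (a (b (l 15668472) (a (l 15674688) (l 15517944))) (b (l 15383136) (l 15248512))) (a (a (l 15358688) (l 15184528)) (l 14985824)))) (a (a (b (a (l 15087504) (l 14964816)) (l 14834888)) (b (l 14845864) (l 14813016))) (a (b (l 14801552) (l 14909128)) (b (l 14876376) (l 15074344))))) (a (a (a (b (l 15055712) (l 15247200)) (b (l 15275392) (l 4))) (a (b (l 15466640) (l 4)) (l 15568216))) (l 4)))), by decide +kernel⟩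

def k2_pm_123 : ∃ t, chk3 f_pm_123 t 1 3 1 = true :=
  ⟨(b (a (b (a (a (a (b (b (l 15564944) (l 15123704)) (b (l 14682920) (l 14248616))) (b (a (l 15067352) (l 14923512)) (a (l 14344984) (l 14302176)))) (a (b (l 14764640) (b (l 14403368) (l 14220280))) (b (l 14659104) (b (l 14452168) (l 14400496))))) (a (a (b (l 14677960) (l 14606248)) (b (l 14800296) (l 4))) (a (b (l 14964800) (l 4)) (l 4)))) (b (a (a (a (b (l 13830528) (l 13599136)) (b (l 13935672) (l 4))) (a (l 4) (l 4))) (l 4)) (l 4))) (l 4)) (l 4)), by decide +kernel⟩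

theorem s3_pm_123 : ∃ t, chk3 f_pm_123 t 1 2 1 = true := ex3_b k0_pm_123 k1_pm_123

theorem s4_pm_123 : ∃ t, chk3 f_pm_123 t 1 1 1 = true := ex3_b s3_pm_123 k2_pm_123

theorem c_pm_123 : CertB 536870912 536870912 0 1230186008 1045395039 1503240 3 eng mog cd0q1 cd6q3 pd2 false true false .npn 1 2 3
    ndB0q1 ndB6q3 pcB2 cut_pm_123 Ext.none :=
  certB2 (fam := false) (s1 := true) (s2 := false) (a := 1) (b := 2) (c := 3) (cn := .npn) (n1 := ndB0q1) (n2 := ndB6q3) (pc := pcB2) (cut := cut_pm_123) (xt := Ext.none) (P1 := 536870912) (W1 := 536870912) (P2 := 0) (W2 := 1230186008) (P3 := 1045395039) (W3 := 1503240) (N0 := 3) (En := eng) (mo := mog) (C1 := cd0q1) (C2 := cd6q3) (C3 := pd2)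
    rfl (fun _ => rfl) s4_pm_123

noncomputable def cut_pm_133 : Cut := Cut.of [[⟨3, 0, 0, 1449551462⟩]]

noncomputable def f_pm_133 : ℕ → ℕ → ℕ → ℕ → Bool := onCell 536870912 536870912 0 1230186008 1045395039 1503240
    (rowB 3 eng mog cd0q1 cd6q3 pd3 0 false true false .dn 1 3 3 (qsf 536870912 536870912 0 1230186008 3) ndB0q1 ndB6q3 pcB3 cut_pm_133 Ext.none)

def k0_pm_133 : ∃ t, chk3 f_pm_133 t 1 1 1 = true :=
  ⟨(b (b (a (a (b (a (l 16042128) (l 1)) (l 1)) (l 1)) (l 1)) (l 1)) (l 1)), by decide +kernel⟩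

theorem c_pm_133 : CertB 536870912 536870912 0 1230186008 1045395039 1503240 3 eng mog cd0q1 cd6q3 pd3 false true false .dn 1 3 3
    ndB0q1 ndB6q3 pcB3 cut_pm_133 Ext.none :=
  certB0 (fam := false) (s1 := true) (s2 := false) (a := 1) (b := 3) (c := 3) (cn := .dn) (n1 := ndB0q1) (n2 := ndB6q3) (pc := pcB3) (cut := cut_pm_133) (xt := Ext.none) (P1 := 536870912) (W1 := 536870912) (P2 := 0) (W2 := 1230186008) (P3 := 1045395039) (W3 := 1503240) (N0 := 3) (En := eng) (mo := mog) (C1 := cd0q1) (C2 := cd6q3) (C3 := pd3)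
    rfl k0_pm_133

end Pool.Agent.Strip051.G.I9736_9750.Tab.C.BB06

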